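import Mathlib

attribute [-instance] ContinuousAddMonoidHom.instCoeOutOfAddMonoidHomClassOfContinuousMapClass
  NonUnitalNonAssocSemiring.toAddCommMonoid NonUnitalNonAssocRing.toAddCommGroup
  Valued.toUniformSpace Semiring.toAddCommMonoid Ring.toAddCommGroup LieAdmissibleAlgebra.toModule
  TotallySeparatedSpace.t2Space RKHS.instFunLike SemilinearIsometryClass.toSemilinearMapClass
  NonUnitalNonAssocSemiring.toDistrib CoalgHomClass.toSemilinearMapClass RightPreLieAlgebra.toModule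
  Module.FaithfullyFlat.toFlat LeftPreLieAlgebra.toModule
  NonUnitalNormedRing.toNonUnitalSeminormedRing AlgHom.instNonUnitalAlgHomClassOfAlgHomClass
  littleWedderburn instCoeHTCOfCoeHeadOfCoeOTC AddGroupWithOne.toAddGroup
  instNonUnitalAlgHomClassOfNonUnitalAlgEquivClass NonUnitalNonAssocSemiring.toMulZeroClass
  AddCommMonoidWithOne.toAddCommMonoid AddQuantale.instAddLeftMono LieRing.toAddCommGroup
  NonUnitalAlgHomClass.instLinearMapClass NonUnitalSeminormedRing.toPseudoMetricSpace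
  ProperSMul.toContinuousSMul Group.IsPerfect.subsingleton_of_isMulCommutative
  SeminormedCommRing.toCommRing RingHomClass.toLinearMapClassNNRat
  MonoidWithZeroHomClass.toZeroHomClass MonoidWithZero.toMulZeroOneClass AddMonoidWithOne.toAddMonoid
  NonarchimedeanAddGroup.toIsTopologicalAddGroup instCoeTCOfCoe IdemSemiring.toCanonicallyOrderedAdd
  NormedRing.toRing MonTypeEquivalenceMon.monMonoid IsTopologicalTorsor.toContinuousSMul
  AddCommGroupWithOne.toAddCommGroup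
  NonUnitalAlgHomClass.instSemilinearMapClassOfNonUnitalAlgSemiHomClassToMonoidHomRingHom
  NonUnitalRingHomClass.toMulHomClass NormedRing.toSeminormedRing
  PositiveLinearMap.instContinuousLinearMapClassComplexOfLinearMapClassOfOrderHomClass
  IdemSemiring.toSemiring NonUnitalNormedCommRing.toNonUnitalSeminormedCommRing
  NormedCommRing.toCommRing RingHomClass.toLinearMapClassRat FiniteDimensional.rclike_to_real
  NumberField.to_charZero ContinuousMonoidHom.instCoeOutOfMonoidHomClassOfContinuousMapClass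
  LinearOrderedAddCommMonoidWithTop.toAddCommMonoid AlgHom.instContinuousLinearMapClassOfAlgHomClass
  Algebra.toSMul DiscreteUniformity.instCompleteSpace SeminormedCommGroup.toPseudoMetricSpace
  spectralNorm.completeSpace NonUnitalAlgSemiHomClass.toDistribMulActionSemiHomClass
  SemilinearIsometryClass.toContinuousSemilinearMapClass SeminormedRing.toRing
  EuclideanDomain.toCommRing Action.FintypeCat.instMulActionObjFiniteOf
  MulSemiringActionSemiHomClass.toDistribMulActionSemiHomClass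

section

/-! Input and output of the energy argument. -/

namespace Pool.Agent.MP_596265_gt.En

open MeasureTheory Filter Topology Set Metric UpperHalfPlane
open scoped RealInnerProductSpace

variable {V : Type} [NormedAddCommGroup V] [InnerProductSpace ℝ V] [FiniteDimensional ℝ V]
  [MeasurableSpace V] [BorelSpace V]

/-- Lower second order expansion at `z` with the gradient bound `|du|^2 ≤ (25/32) u Δu`. -/
def LT (u : ℂ → ℝ) (z : ℂ) : Prop :=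
  ∃ (α β : ℂ) (γ : ℝ), ‖α‖ ^ 2 ≤ 25 / 8 * u z * γ ∧ ∀ ε > 0, ∀ᶠ t in 𝓝 (0 : ℂ),
    u z + (α * t).re + (β * t ^ 2).re + (γ - ε) * ‖t‖ ^ 2 ≤ u (z + t)

/-- A change of chart at `x`: defined on `ball x r`, derivative `C`-Lipschitz at `x`, it pulls
`S'` into `S` and carries the covariance `T` to `T'`. -/
def Tr (r C : ℝ) (S S' : Set V) (x x' : V) (T T' : V →L[ℝ] V) : Prop :=
  ∃ (τ : V → V) (τ' : V → V →L[ℝ] V), τ x = x' ∧ (∀ y ∈ ball x r, HasFDerivAt τ (τ' y) y) ∧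
    (∀ y ∈ ball x r, ‖τ' y - τ' x‖ ≤ C * ‖y - x‖) ∧ (∀ y ∈ ball x r, τ y ∈ S' → y ∈ S) ∧
    ∀ ξ η, ⟪T' ξ, η⟫ = ⟪T (ContinuousLinearMap.adjoint (τ' x) ξ),
      ContinuousLinearMap.adjoint (τ' x) η⟫

/-- Finitely many charts `V × ℍ`, sets `S j`, covariances `T j`, weights `a j`, step `ρ`. -/
structure Sys {J : Type} [Fintype J] (S : J → Set V) (O N : J → Set (V × ℂ))
    (T : J → V × ℂ → V →L[ℝ] V) (a : J → V × ℂ → ℝ) (ρ : ℝ) : Prop where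
  ρ_pos : 0 < ρ
  mS : ∀ j, MeasurableSet (S j)
  fS : ∀ j, volume (S j) ≠ ⊤
  oO : ∀ j, IsOpen (O j)
  imO : ∀ j, ∀ q ∈ O j, 0 < q.2.im
  cN : ∀ j, IsCompact (N j)
  NO : ∀ j, N j ⊆ O j
  cT : ∀ j, ContDiffOn ℝ 2 (T j) (O j)
  sT : ∀ j, ∀ q ∈ O j, ∀ ξ η, ⟪T j q ξ, η⟫ = ⟪ξ, T j q η⟫
  pT : ∀ j, ∀ q ∈ O j, ∀ ξ ≠ 0, 0 < ⟪T j q ξ, ξ⟫
  lt : ∀ j, ∀ q ∈ O j, ∀ ξ ≠ 0, LT (fun w => ⟪T j (q.1, w) ξ, ξ⟫) q.2
  ca : ∀ j, ContDiff ℝ 2 (a j)
  a0 : ∀ j q, 0 ≤ a j q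
  aN : ∀ j q, a j q ≠ 0 → q ∈ N j
  step : ∀ j x (z z' : ℍ), a j (x, z) ≠ 0 → dist z' z ≤ ρ → (x, (z' : ℂ)) ∈ N j
  ws : ∃ r > 0, ∃ C : ℝ, ∀ (H : J → V × ℍ → ℝ) (D : J → V → ℝ) (B : ℝ),
    (∀ j, Measurable (H j)) → (∀ j, Measurable (D j)) → (∀ j q, |H j q| ≤ B) →
    (∀ j x, 0 ≤ D j x ∧ D j x ≤ B) →
    (∀ j j' x x' (z z' : ℍ), x ∈ S j → (x, (z : ℂ)) ∈ N j → (x', (z' : ℂ)) ∈ N j' →
      Tr r C (S j) (S j') x x' (T j (x, z)) (T j' (x', z')) → H j (x, z) ≤ H j' (x', z') + D j x) →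
    ∑ j, ∫ x in S j, ∫ z : ℍ, a j (x, z) * ∫ z' in ball z ρ, (H j (x, z') - H j (x, z)) ≤
      C * ∑ j, ∫ x in S j, D j x

/-- Output of the energy argument. -/
def ENERGY : Prop :=
  ∀ {V : Type} [NormedAddCommGroup V] [InnerProductSpace ℝ V] [FiniteDimensional ℝ V]
    [MeasurableSpace V] [BorelSpace V] {J : Type} [Fintype J] (S : J → Set V)
    (O N : J → Set (V × ℂ)) (T : J → V × ℂ → V →L[ℝ] V) (a : J → V × ℂ → ℝ) (ρ : ℝ),
    Sys S O N T a ρ → ∀ j x₀ (z₀ : ℍ), a j (x₀, z₀) ≠ 0 →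
      (∀ ξ ≠ 0, ¬ ∀ᶠ w in 𝓝 (z₀ : ℂ), ⟪T j (x₀, w) ξ, ξ⟫ = ⟪T j (x₀, z₀) ξ, ξ⟫) →
      ∃ s > 0, volume (S j ∩ ball x₀ s) = 0 ∨ volume (ball x₀ s \ S j) = 0

end Pool.Agent.MP_596265_gt.En

end

section

/-! Definitions and statements of the steps of the energy argument. -/

namespace Pool.Agent.MP_596265_gt.Gau

noncomputable section

variable {V : Type*} [NormedAddCommGroup V] [InnerProductSpace ℝ V]

def qf (N : V →L[ℝ] V) (u : V) : ℝ := inner ℝ (N u) u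

structure Cov (L : ℝ) (N : V →L[ℝ] V) : Prop where
  sym : ∀ u v, inner ℝ (N u) v = inner ℝ u (N v)
  lo : ∀ u, ‖u‖ ^ 2 ≤ L * qf N u
  hi : ‖N‖ ≤ L

def gam (N : V →L[ℝ] V) (h : V) : ℝ :=
  (√((2 * Real.pi) ^ Module.finrank ℝ V * N.det))⁻¹ * Real.exp (-(qf (Ring.inverse N) h) / 2)

structure Tame {A X : Type*} [NormedAddCommGroup A] [NormedAddCommGroup X] (S : Set A) (B : ℝ)
    (F : A → X) : Prop where
  bd : ∀ x ∈ S, ‖F x‖ ≤ B
  lip : ∀ x ∈ S, ∀ y ∈ S, ‖F x - F y‖ ≤ B * ‖x - y‖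
  sec : ∀ m y, m + y ∈ S → m - y ∈ S → ‖F (m + y) + F (m - y) - (F m + F m)‖ ≤ B * ‖y‖ ^ 2

end

end Pool.Agent.MP_596265_gt.Gau

namespace Pool.Agent.MP_596265_gt.En

open MeasureTheory Filter Topology Set Metric UpperHalfPlane Gau
open scoped RealInnerProductSpace

section
variable {V : Type*} [NormedAddCommGroup V] [InnerProductSpace ℝ V] [FiniteDimensional ℝ V]
  [MeasurableSpace V] [BorelSpace V] {Ω : Type*} [MeasurableSpace Ω]

/-- A family of even signed kernels `k x · dm`, displacement `d`, majorant `W`. -/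
structure Ker (m : Measure Ω) (d : Ω → V) (k : V → Ω → ℝ) (W : Ω → ℝ) : Prop where
  md : Measurable d
  mk' : Measurable (Function.uncurry k)
  sym : ∃ σ : Ω → Ω, MeasurePreserving σ m m ∧ (∀ ω, d (σ ω) = -d ω) ∧ ∀ x ω, k x (σ ω) = k x ω
  iW : Integrable (fun ω => (1 + ‖d ω‖ ^ 2) * W ω) m
  bd : ∀ x ω, |k x ω| ≤ W ω
  lip : ∀ x y ω, |k x ω - k y ω| ≤ ‖x - y‖ * W ω
  two : ∀ x h ω, |k (x + h) ω + k (x - h) ω - 2 * k x ω| ≤ ‖h‖ ^ 2 * W ω
  zero : ∀ x, ∫ ω, k x ω ∂m = 0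

/-- The energy of the set `S` at scale `t`. -/
noncomputable def energy (m : Measure Ω) (d : Ω → V) (k : V → Ω → ℝ) (S : Set V) (t : ℝ) : ℝ :=
  ∫ x, ∫ ω, S.indicator 1 x * (1 - S.indicator 1 (x + t • d ω)) * k x ω ∂m

/-- Probability that `x + τ v` is outside `S`. -/
noncomputable def psi (S : Set V) (x : V) (T : V →L[ℝ] V) (τ : ℝ) : ℝ :=
  ∫ v, (1 - S.indicator 1 (x + τ • v)) * gam T v

/-- Data of one chart. -/
structure Chart (L δ : ℝ) (A : V → Ω → ℝ) (T : V → Ω → V →L[ℝ] V) : Prop where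
  L1 : 1 ≤ L
  δ_pos : 0 < δ
  mA : Measurable (Function.uncurry A)
  mT : Measurable (Function.uncurry T)
  tA : ∀ ω, Tame univ L (fun x => A x ω)
  cT : ∀ ω x₀, A x₀ ω ≠ 0 → ∀ x ∈ ball x₀ δ, Cov L (T x ω)
  tT : ∀ ω x₀, A x₀ ω ≠ 0 → Tame (ball x₀ δ) L (fun x => T x ω)

/-- The mixing measure on scales. -/
structure Gam (γ : Measure ℝ) (c₀ : ℝ) : Prop where
  fin : IsFiniteMeasure γ
  pos : ∀ᵐ s ∂γ, 0 < s
  sq : Integrable (fun s => s ^ 2) γ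
  c_pos : 0 < c₀
  lap : ∀ y ≥ (0 : ℝ), ∫ s, Real.exp (-(s ^ 2 * y) / 2) ∂γ = c₀ * (1 + y) ^ (-(1 / 4) : ℝ)

end

section
variable (V : Type) [NormedAddCommGroup V] [InnerProductSpace ℝ V] [FiniteDimensional ℝ V]
  [MeasurableSpace V] [BorelSpace V]

def GAM_s : Prop := ∃ γ c₀, Gam γ c₀

/-- Basic facts on Gaussians. -/
def GS_s : Prop :=
  Measurable (fun p : (V →L[ℝ] V) × V => gam p.1 p.2) ∧ (∀ (T : V →L[ℝ] V) v, 0 ≤ gam T v) ∧
  (∀ (T : V →L[ℝ] V) v, gam T (-v) = gam T v) ∧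
  (∀ (L : ℝ) (T : V →L[ℝ] V), Cov L T → Integrable (gam T) ∧ ∫ v, gam T v = 1 ∧
    ∀ η, ∫ v, gam T v * Real.cos ⟪η, v⟫ = Real.exp (-(qf T η) / 2)) ∧
  ∀ c > (0 : ℝ), ∀ k : ℕ, Integrable (fun v : V => ‖v‖ ^ k * Real.exp (-(c * ‖v‖ ^ 2)))

/-- Weight times Gaussian density. -/
def TG_s : Prop := ∀ L δ : ℝ, 1 ≤ L → 0 < δ → ∃ c C : ℝ, 0 < c ∧ 0 ≤ C ∧
  ∀ (χ : V → ℝ) (N : V → V →L[ℝ] V), Tame univ L χ →
    (∀ x₀, χ x₀ ≠ 0 → (∀ x ∈ ball x₀ δ, Cov L (N x)) ∧ Tame (ball x₀ δ) L N) →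
    ∀ h, Tame univ (C * Real.exp (-(c * ‖h‖ ^ 2))) (fun x => χ x * gam (N x) h)

/-- Change of chart. -/
def E2_s : Prop := ∀ L r C₀ : ℝ, 1 ≤ L → 0 < r → ∃ c K : ℝ, 0 < c ∧ 0 ≤ K ∧
  ∀ (S S' : Set V) (x x' : V) (T T' : V →L[ℝ] V),
    MeasurableSet S → MeasurableSet S' → Cov L T → Cov L T' → Tr r C₀ S S' x x' T T' →
    ∀ τ > (0 : ℝ), psi S x T τ ≤ psi S' x' T' τ +
      K * τ * (∫ v, (1 - S.indicator 1 (x + τ • v)) * Real.exp (-(c * ‖v‖ ^ 2))) + K * τ ^ 2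

/-- The kernel of a chart. -/
def KA_s : Prop := ∀ {Ω : Type} [MeasurableSpace Ω] (Q : Measure Ω) [IsFiniteMeasure Q]
  (γ : Measure ℝ) (c₀ L δ : ℝ) (A : V → Ω → ℝ) (T₀ T₁ : V → Ω → V →L[ℝ] V), Gam γ c₀ →
  Chart L δ A T₀ → Chart L δ A T₁ → ∃ W, Ker (Q.prod (γ.prod volume))
    (fun p : Ω × ℝ × V => p.2.1 • p.2.2)
    (fun x p => A x p.1 * (gam (T₁ x p.1) p.2.2 - gam (T₀ x p.1) p.2.2)) W

/-- Symbol and energy of the kernel of a chart. -/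
def KB_s : Prop := ∀ {Ω : Type} [MeasurableSpace Ω] (Q : Measure Ω) [IsFiniteMeasure Q]
  (γ : Measure ℝ) (c₀ L δ : ℝ) (A : V → Ω → ℝ) (T₀ T₁ : V → Ω → V →L[ℝ] V), Gam γ c₀ →
  Chart L δ A T₀ → Chart L δ A T₁ →
  (∀ x ξ : V, ∫ p : Ω × ℝ × V, A x p.1 * (gam (T₁ x p.1) p.2.2 - gam (T₀ x p.1) p.2.2) *
      Real.cos ⟪ξ, p.2.1 • p.2.2⟫ ∂(Q.prod (γ.prod volume)) =
    c₀ * ∫ ω, A x ω * ((1 + ⟪T₁ x ω ξ, ξ⟫) ^ (-(1 / 4) : ℝ) -
      (1 + ⟪T₀ x ω ξ, ξ⟫) ^ (-(1 / 4) : ℝ)) ∂Q) ∧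
  ∀ (S : Set V), MeasurableSet S → ∀ t : ℝ, energy (Q.prod (γ.prod volume))
      (fun p : Ω × ℝ × V => p.2.1 • p.2.2)
      (fun x p => A x p.1 * (gam (T₁ x p.1) p.2.2 - gam (T₀ x p.1) p.2.2)) S t =
    ∫ x in S, ∫ ω, A x ω * ((∫ s, psi S x (T₁ x ω) (t * s) ∂γ) -
      ∫ s, psi S x (T₀ x ω) (t * s) ∂γ) ∂Q

/-- Uniform bounds near a compact set. -/
def ZY_s : Prop :=
  (∀ (O N : Set (V × ℂ)) (T : V × ℂ → V →L[ℝ] V), IsOpen O → IsCompact N → N ⊆ O →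
    ContDiffOn ℝ 2 T O → (∀ q ∈ O, ∀ ξ η, ⟪T q ξ, η⟫ = ⟪ξ, T q η⟫) →
    (∀ q ∈ O, ∀ ξ ≠ 0, 0 < ⟪T q ξ, ξ⟫) → ∃ δ > 0, ∃ L₀ : ℝ, ∀ L ≥ L₀, ∀ q ∈ N,
      (∀ x ∈ ball q.1 δ, (x, q.2) ∈ O ∧ Cov L (T (x, q.2))) ∧
        Tame (ball q.1 δ) L (fun x => T (x, q.2))) ∧
  ∀ (N : Set (V × ℂ)) (a : V × ℂ → ℝ), IsCompact N → ContDiff ℝ 2 a → (∀ q, a q ≠ 0 → q ∈ N) →
    ∃ L₀ : ℝ, ∀ L ≥ L₀, ∀ w, Tame univ L (fun x => a (x, w))

/-- The symbol of a chart. -/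
noncomputable def symb (T : V × ℂ → V →L[ℝ] V) (a : V × ℂ → ℝ) (ρ : ℝ) (x ξ : V) : ℝ :=
  ∫ z : ℍ, a (x, z) * ∫ w in ball z ρ, ((1 + ⟪T (x, w) ξ, ξ⟫) ^ (-(1 / 4) : ℝ) -
    (1 + ⟪T (x, z) ξ, ξ⟫) ^ (-(1 / 4) : ℝ))

/-- Sign of the symbol. -/
def SYM_s : Prop := ∀ {J : Type} [Fintype J] (S : J → Set V)
  (O N : J → Set (V × ℂ)) (T : J → V × ℂ → V →L[ℝ] V) (a : J → V × ℂ → ℝ) (ρ : ℝ),
  Sys S O N T a ρ → ∀ j, (∀ x ξ, symb V (T j) (a j) ρ x ξ ≤ 0) ∧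
    ∀ x₀ (z₀ : ℍ), a j (x₀, z₀) ≠ 0 →
      (∀ ξ ≠ 0, ¬ ∀ᶠ w in 𝓝 (z₀ : ℂ), ⟪T j (x₀, w) ξ, ξ⟫ = ⟪T j (x₀, z₀) ξ, ξ⟫) →
      ∃ r > 0, ∃ c > 0, ∀ x ∈ ball x₀ r, ∀ ξ,
        symb V (T j) (a j) ρ x ξ ≤ -(c * (‖ξ‖ ^ 2 / (1 + ‖ξ‖ ^ 2) ^ 2))

def E1_s : Prop := ∀ {Ω : Type} [MeasurableSpace Ω] {m : Measure Ω} [SFinite m] {d : Ω → V}
  {k : V → Ω → ℝ} {W : Ω → ℝ}, Ker m d k W →
  (∀ x ξ, ∫ ω, k x ω * Real.cos ⟪ξ, d ω⟫ ∂m ≤ 0) → ∀ {S : Set V}, MeasurableSet S →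
  volume S ≠ ⊤ → ∀ ε > 0, ∀ᶠ t in 𝓝[>] (0 : ℝ), -(ε * t) ≤ energy m d k S t

def E4_s : Prop := ∀ {Ω : Type} [MeasurableSpace Ω] {m : Measure Ω} [SFinite m] {d : Ω → V}
  {k : V → Ω → ℝ} {W : Ω → ℝ}, Ker m d k W →
  (∀ x ξ, ∫ ω, k x ω * Real.cos ⟪ξ, d ω⟫ ∂m ≤ 0) → ∀ {S : Set V}, MeasurableSet S →
  volume S ≠ ⊤ → ∀ {x₀ : V} {r c : ℝ}, 0 < r → 0 < c → (∀ x ∈ ball x₀ r, ∀ ξ : V,
    ∫ ω, k x ω * Real.cos ⟪ξ, d ω⟫ ∂m ≤ -(c * (‖ξ‖ ^ 2 / (1 + ‖ξ‖ ^ 2) ^ 2))) →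
  (∀ ε > 0, ∀ᶠ t in 𝓝[>] (0 : ℝ), energy m d k S t ≤ ε * t) →
  ∃ s > 0, volume (S ∩ ball x₀ s) = 0 ∨ volume (ball x₀ s \ S) = 0

def ES_s : Prop := ∀ {Ω : Type} [MeasurableSpace Ω] {m : Measure Ω} [SFinite m] {d : Ω → V},
  Measurable d → ∀ {W : Ω → ℝ}, Integrable W m → ∀ {S : Set V}, MeasurableSet S →
  volume S ≠ ⊤ → Tendsto (energy m d (fun _ => W) S) (𝓝 0) (𝓝 0)

end

end Pool.Agent.MP_596265_gt.En

end

section

/-! Product charts for a free smooth local action on a level set of a submersion. -/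

namespace Pool.Agent.H35A

open Set Module Filter Topology Metric Function
open scoped ContDiff

variable {E F P W : Type*} [NormedAddCommGroup E] [NormedSpace ℝ E] [FiniteDimensional ℝ E]
  [NormedAddCommGroup F] [NormedSpace ℝ F] [FiniteDimensional ℝ F]
  [NormedAddCommGroup P] [NormedSpace ℝ P] [FiniteDimensional ℝ P]
  [NormedAddCommGroup W] [NormedSpace ℝ W] [FiniteDimensional ℝ W]

theorem exists_split (D : E →L[ℝ] F) (L : P →L[ℝ] E) (hD : Surjective D) (hL : Injective L)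
    (hDL : ∀ p, D (L p) = 0) (hd : finrank ℝ E = finrank ℝ F + finrank ℝ P + finrank ℝ W) :
    ∃ T : E ≃L[ℝ] F × P × W, (∀ v, (T v).1 = D v) ∧ ∀ p, T (L p) = (0, p, 0) := by
  obtain ⟨π, hπ⟩ := (L : P →ₗ[ℝ] E).exists_leftInverse_of_injective (LinearMap.ker_eq_bot.2 hL)
  have hπ' : ∀ p, π (L p) = p := fun p => LinearMap.congr_fun hπ p
  obtain ⟨K, hK⟩ : ∃ K, K = LinearMap.ker ((D : E →ₗ[ℝ] F).prod π) := ⟨_, rfl⟩
  have hs : Surjective ((D : E →ₗ[ℝ] F).prod π) := by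
    rintro ⟨c, p⟩
    obtain ⟨v, rfl⟩ := hD c
    exact ⟨v + L (p - π v), Prod.ext (by simp [hDL]) (by simp [hπ'])⟩
  have hk : finrank ℝ K = finrank ℝ W := by
    have := LinearMap.finrank_range_add_finrank_ker ((D : E →ₗ[ℝ] F).prod π)
    rw [LinearMap.range_eq_top.2 hs, finrank_top, finrank_prod, ← hK] at this
    omega
  obtain ⟨q, hq⟩ := K.subtype.exists_leftInverse_of_injective K.ker_subtype
  let j : K ≃ₗ[ℝ] W := LinearEquiv.ofFinrankEq K W hk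
  let T : E →ₗ[ℝ] F × P × W := (D : E →ₗ[ℝ] F).prod
    (π.prod (j.toLinearMap ∘ₗ q ∘ₗ (LinearMap.id - (L : P →ₗ[ℝ] E) ∘ₗ π)))
  have hT : Injective T := by
    rw [← LinearMap.ker_eq_bot, LinearMap.ker_eq_bot']
    intro v hv
    have h1 : D v = 0 := congrArg Prod.fst hv
    have h2 : π v = 0 := congrArg (fun z => z.2.1) hv
    have h3 : j (q (v - L (π v))) = 0 := congrArg (fun z => z.2.2) hv
    have hvK : v ∈ K := hK ▸ Prod.ext h1 h2
    rw [h2, map_zero, sub_zero, map_eq_zero_iff _ j.injective] at h3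
    have := LinearMap.congr_fun hq ⟨v, hvK⟩
    simp only [LinearMap.comp_apply, Submodule.subtype_apply, LinearMap.id_apply, h3] at this
    exact (congrArg Subtype.val this).symm
  refine ⟨(T.linearEquivOfInjective hT (by simp only [finrank_prod]; omega)).toContinuousLinearEquiv,
    fun v => rfl, fun p => ?_⟩
  change (D (L p), π (L p), j (q (L p - L (π (L p))))) = _
  rw [hDL, hπ', sub_self, map_zero, map_zero]

/-- Slice chart. `a` is a local action with parameter `p` near `0` that preserves the level set of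
`f` through `m` and is infinitesimally free at `m`. -/
theorem slice_chart {n : WithTop ℕ∞} (hn0 : n ≠ 0) (hn : n ≠ ∞) {f : E → F} {a : P × E → E} {m : E}
    (hf : ContDiffAt ℝ n f m) (hs : Surjective (fderiv ℝ f m)) (ha : ContDiffAt ℝ n a (0, m))
    (ha0 : ∀ᶠ y in 𝓝 m, a (0, y) = y)
    (hinv : ∀ᶠ q in 𝓝 ((0 : P), m), (f (a q) = f m ↔ f q.2 = f m))
    (hinj : ∀ p, fderiv ℝ a (0, m) (p, 0) = 0 → p = 0)
    (hd : finrank ℝ E = finrank ℝ F + finrank ℝ P + finrank ℝ W) :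
    ∃ (s : W → E) (Θ : E → W × P) (O : Set E) (r : ℝ), 0 < r ∧ IsOpen O ∧ m ∈ O ∧ s 0 = m ∧
      (∀ x ∈ ball (0 : W) r, ContDiffAt ℝ n s x ∧ f (s x) = f m) ∧
      (∀ y ∈ O, ContDiffAt ℝ n Θ y) ∧
      (∀ x ∈ ball (0 : W) r, ∀ p ∈ ball (0 : P) r, a (p, s x) ∈ O ∧ f (a (p, s x)) = f m ∧
        Θ (a (p, s x)) = (x, p) ∧ ContDiffAt ℝ n a (p, s x)) ∧
      ∀ y ∈ O, f y = f m → (Θ y).1 ∈ ball (0 : W) r ∧ (Θ y).2 ∈ ball (0 : P) r ∧
        a ((Θ y).2, s (Θ y).1) = y := by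
  have hfd := (hf.differentiableAt hn0).hasFDerivAt
  have had := (ha.differentiableAt hn0).hasFDerivAt
  set D := fderiv ℝ f m
  set A := fderiv ℝ a (0, m)
  have am : a (0, m) = m := ha0.self_of_nhds
  have hA2 : ∀ v, A (0, v) = v := fun v => by
    have h1 : HasFDerivAt (fun y => a (0, y)) (A ∘L ContinuousLinearMap.inr ℝ P E) m :=
      had.comp m (hasFDerivAt_prodMk_right (0 : P) m)
    have h2 := (hasFDerivAt_id (𝕜 := ℝ) m).congr_of_eventuallyEq ha0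
    exact congrArg (· v) (h1.unique h2)
  let L : P →L[ℝ] E := A ∘L ContinuousLinearMap.inl ℝ P E
  have hDL : ∀ p, D (L p) = 0 := fun p => by
    have h1 : HasFDerivAt (fun p => a (p, m)) L 0 :=
      had.comp (0 : P) (hasFDerivAt_prodMk_left (0 : P) m)
    have h2 : HasFDerivAt (fun p => f (a (p, m))) (D ∘L L) 0 :=
      HasFDerivAt.comp (0 : P) (g := f) (am.symm ▸ hfd) h1
    have h3 : (fun p => f (a (p, m))) =ᶠ[𝓝 0] fun _ => f m :=
      ((Continuous.prodMk_left m).continuousAt.eventually hinv).mono fun p hp => hp.2 rfl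
    exact congrArg (· p) (h2.unique ((hasFDerivAt_const (f m) 0).congr_of_eventuallyEq h3))
  obtain ⟨T, hT1, hT2⟩ := exists_split (W := W) D L hs
    ((injective_iff_map_eq_zero L).2 hinj) hDL hd
  let H : E → F × P × W := fun y => (f y, (T (y - m)).2)
  have hH : ContDiffAt ℝ n H m := hf.prodMk (by fun_prop)
  have hH' : HasFDerivAt H (T : E →L[ℝ] F × P × W) m := by
    have h1 : HasFDerivAt (fun y => (T (y - m)).2)
        (ContinuousLinearMap.snd ℝ F (P × W) ∘L (T : E →L[ℝ] F × P × W)) m :=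
      (HasFDerivAt.comp m (f := fun y => y - m) (T.hasFDerivAt (x := m - m))
        ((hasFDerivAt_id m).sub_const m)).snd
    convert hfd.prodMk h1 using 1
    exact ContinuousLinearMap.ext fun v => Prod.ext (hT1 v) rfl
  have Hm : H m = (f m, 0, 0) := by simp [H, Prod.ext_iff]
  obtain ⟨h, hc, hm, hr, hd'⟩ : ∃ h : F × P × W → E, ContDiffAt ℝ n h (f m, 0, 0) ∧
      h (f m, 0, 0) = m ∧ (∀ᶠ z in 𝓝 (f m, (0 : P), (0 : W)), H (h z) = z) ∧
      HasFDerivAt h (T.symm : F × P × W →L[ℝ] E) (f m, 0, 0) := by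
    rw [← Hm]
    have hst := hH.hasStrictFDerivAt' hH' hn0
    exact ⟨_, hH.to_localInverse hH' hn0, hH.localInverse_apply_image hH' hn0,
      hst.eventually_right_inverse, hst.to_localInverse.hasFDerivAt⟩
  let κ : F × P × W →L[ℝ] F × P × W := (ContinuousLinearMap.fst ℝ _ _).prod
    ((0 : F × P × W →L[ℝ] P).prod (ContinuousLinearMap.snd ℝ P W ∘L ContinuousLinearMap.snd ℝ _ _))
  have κ0 : κ (f m, 0, 0) = (f m, 0, 0) := rfl
  let g : F × P × W → P × E := fun z => (z.2.1, h (κ z))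
  have g0 : g (f m, 0, 0) = (0, m) := Prod.ext rfl hm
  have hg : ContDiffAt ℝ n g (f m, 0, 0) :=
    contDiffAt_snd.fst.prodMk (ContDiffAt.comp _ (κ0.symm ▸ hc) κ.contDiff.contDiffAt)
  have hΦ : ContDiffAt ℝ n (a ∘ g) (f m, 0, 0) := ContDiffAt.comp _ (g0.symm ▸ ha) hg
  have hΦ' : HasFDerivAt (a ∘ g) (T.symm : F × P × W →L[ℝ] E) (f m, 0, 0) := by
    have h1 := (hasFDerivAt_snd (𝕜 := ℝ) (p := (f m, (0 : P), (0 : W)))).fst.prodMk
      (HasFDerivAt.comp _ (g := h) (κ0.symm ▸ hd') κ.hasFDerivAt)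
    refine (HasFDerivAt.comp _ (g := a) (f := g) (g0.symm ▸ had) h1).congr_fderiv
      (ContinuousLinearMap.ext fun z => Eq.symm ?_)
    change T.symm z = A (z.2.1, T.symm (z.1, 0, z.2.2))
    rw [show (z.2.1, T.symm (z.1, 0, z.2.2)) = (z.2.1, 0) + (0, T.symm (z.1, 0, z.2.2)) by simp,
      map_add, hA2]
    apply T.injective
    rw [map_add, T.apply_symm_apply, T.apply_symm_apply]
    change z = T (L z.2.1) + _
    rw [hT2]
    simp
  let e := hΦ.toOpenPartialHomeomorph _ hΦ' hn0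
  have e0 : (a ∘ g) (f m, 0, 0) = m := by rw [comp_apply, g0, am]
  have hκ : Tendsto κ (𝓝 (f m, 0, 0)) (𝓝 (f m, 0, 0)) := κ.continuous.tendsto' _ _ κ0
  have hgt : Tendsto g (𝓝 (f m, 0, 0)) (𝓝 (0, m)) := g0 ▸ hg.continuousAt
  have hes : ContDiffAt ℝ n e.symm ((a ∘ g) (f m, 0, 0)) := hΦ.to_localInverse hΦ' hn0
  have ev : ∀ᶠ z in 𝓝 (f m, (0 : P), (0 : W)), z ∈ e.source ∧ ContDiffAt ℝ n h (κ z) ∧
      H (h (κ z)) = κ z ∧ (f (a (g z)) = f m ↔ f (g z).2 = f m) ∧ ContDiffAt ℝ n a (g z) ∧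
      ContDiffAt ℝ n e.symm ((a ∘ g) z) :=
    (e.open_source.eventually_mem (hΦ.mem_toOpenPartialHomeomorph_source hΦ' hn0)).and
      ((hκ.eventually (hc.eventually hn)).and ((hκ.eventually hr).and ((hgt.eventually hinv).and
        ((hgt.eventually (ha.eventually hn)).and
          (hΦ.continuousAt.eventually (hes.eventually hn))))))
  obtain ⟨r, hr0, hb⟩ := Metric.eventually_nhds_iff_ball.1 ev
  have mb : ∀ z : F × P × W, z ∈ ball (f m, (0 : P), (0 : W)) r ↔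
      z.1 ∈ ball (f m) r ∧ z.2.1 ∈ ball 0 r ∧ z.2.2 ∈ ball 0 r := fun z => by
    rw [← ball_prod_same, ← ball_prod_same]; rfl
  have fh : ∀ z ∈ ball (f m, (0 : P), (0 : W)) r, f (h (κ z)) = z.1 := fun z hz =>
    congrArg Prod.fst (hb z hz).2.2.1
  refine ⟨fun x => h (f m, 0, x), fun y => ((e.symm y).2.2, (e.symm y).2.1),
    e.target ∩ e.symm ⁻¹' ball (f m, 0, 0) r, r, hr0, e.isOpen_inter_preimage_symm isOpen_ball,
    ?_, hm, fun x hx => ?_, fun y hy => ?_, fun x hx p hp => ?_, fun y hy hfy => ?_⟩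
  · have hz := (hb _ (mem_ball_self hr0)).1
    have li : e.symm m = (f m, 0, 0) := (congrArg e.symm e0).symm.trans (e.left_inv hz)
    exact ⟨e0 ▸ e.map_source hz, by rw [mem_preimage, li]; exact mem_ball_self hr0⟩
  · have hz := (mb (f m, 0, x)).2 ⟨mem_ball_self hr0, mem_ball_self hr0, hx⟩
    exact ⟨ContDiffAt.comp x (g := h) (hb _ hz).2.1 (by fun_prop), fh _ hz⟩
  · have h1 := (hb _ hy.2).2.2.2.2.2
    rw [show (a ∘ g) (e.symm y) = y from e.right_inv hy.1] at h1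
    exact h1.snd.snd.prodMk h1.snd.fst
  · have hz := (mb (f m, p, x)).2 ⟨mem_ball_self hr0, hp, hx⟩
    obtain ⟨h1, -, -, h4, h5, -⟩ := hb _ hz
    have li : e.symm (a (p, h (f m, 0, x))) = (f m, p, x) := e.left_inv h1
    exact ⟨⟨e.map_source h1, by rw [mem_preimage, li]; exact hz⟩, h4.2 (fh _ hz),
      by simp only [li], h5⟩
  · have ri : a (g (e.symm y)) = y := e.right_inv hy.1
    obtain ⟨-, h2, h3⟩ := (mb _).1 hy.2
    have c : (e.symm y).1 = f m :=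
      (fh _ hy.2).symm.trans ((hb _ hy.2).2.2.2.1.1 (by rw [ri, hfy]))
    refine ⟨h3, h2, ?_⟩
    rw [← c]
    exact ri

end Pool.Agent.H35A

end

section

/-!
Non-arithmetic phases. A monoid of real two by two matrices that contains a hyperbolic element
and an element in general position with respect to its eigenvectors moves the expanding
eigenvector, up to powers of the eigenvalue, to a dense set of multiples of itself.
-/

namespace H83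

open Matrix Filter Topology Set

/-- determinant of two plane vectors -/
def dt (x y : Fin 2 → ℝ) : ℝ := x 0 * y 1 - x 1 * y 0

/-- A closed subset of the line that is stable under sums and contains all integer multiples of
a positive number is stable under negation. -/
theorem neg_mem_of_closed {T : Set ℝ} (hc : IsClosed T) (ha : ∀ x ∈ T, ∀ y ∈ T, x + y ∈ T)
    {l : ℝ} (hl : 0 < l) (hz : ∀ m : ℤ, m * l ∈ T) {s : ℝ} (hs : s ∈ T) : -s ∈ T := by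
  have hn : ∀ n : ℕ, n * s ∈ T := by
    intro n
    induction n with
    | zero => simpa using hz 0
    | succ n ih =>
      have := ha _ ih _ hs
      have e : ((n + 1 : ℕ) : ℝ) * s = n * s + s := by push_cast; ring
      rwa [e]
  rw [← hc.closure_eq, Metric.mem_closure_iff]
  intro ε hε
  obtain ⟨n, hn0⟩ := exists_nat_gt (l / ε)
  obtain ⟨k, hk0, -, hk⟩ := Real.exists_nat_abs_mul_sub_round_le (s / l) (n := n + 1) (by omega)
  obtain ⟨j, rfl⟩ : ∃ j, k = j + 1 := ⟨k - 1, by omega⟩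
  refine ⟨j * s + ((-round (((j + 1 : ℕ) : ℝ) * (s / l)) : ℤ) : ℝ) * l, ha _ (hn j) _ (hz _), ?_⟩
  rw [Real.dist_eq]
  set r : ℝ := (round (((j + 1 : ℕ) : ℝ) * (s / l)) : ℝ) with hr
  have e : -s - (j * s + ((-round (((j + 1 : ℕ) : ℝ) * (s / l)) : ℤ) : ℝ) * l)
      = -((((j + 1 : ℕ) : ℝ) * (s / l) - r) * l) := by
    rw [Int.cast_neg, ← hr]; push_cast; field_simp; ring
  rw [e, abs_neg, abs_mul, abs_of_pos hl]
  have h1 : l < n * ε := by rwa [div_lt_iff₀ hε] at hn0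
  have h2 : (0 : ℝ) < ((n + 1 : ℕ) : ℝ) + 1 := by positivity
  calc _ ≤ 1 / (((n + 1 : ℕ) : ℝ) + 1) * l := mul_le_mul_of_nonneg_right hk hl.le
    _ < ε := by
      rw [div_mul_eq_mul_div, one_mul, div_lt_iff₀ h2]
      push_cast
      linarith only [hε, h1]

/-- ... and is the whole line when it has an accumulation point. -/
theorem univ_of_acc {T : Set ℝ} (hc : IsClosed T) (ha : ∀ x ∈ T, ∀ y ∈ T, x + y ∈ T)
    {l : ℝ} (hl : 0 < l) (hz : ∀ m : ℤ, m * l ∈ T) {s : ℝ} (hs : s ∈ T)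
    (hacc : ∀ ε > 0, ∃ x ∈ T, x ≠ s ∧ |x - s| < ε) (t : ℝ) : t ∈ T := by
  let S : AddSubgroup ℝ :=
    { carrier := T
      add_mem' := fun {a b} h1 h2 => ha a h1 b h2
      zero_mem' := by simpa using hz 0
      neg_mem' := fun {a} h => neg_mem_of_closed hc ha hl hz h }
  have hd : Dense (S : Set ℝ) := by
    refine S.dense_of_not_isolated_zero fun ε hε => ?_
    obtain ⟨x, hx, hne, hlt⟩ := hacc ε hε
    have hm : x - s ∈ S := S.sub_mem hx hs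
    refine ⟨|x - s|, ?_, abs_pos.2 (sub_ne_zero.2 hne), hlt⟩
    rcases abs_cases (x - s) with h | h
    · rw [h.1]; exact hm
    · rw [h.1]; exact S.neg_mem hm
  have : t ∈ closure T := hd t
  rwa [hc.closure_eq] at this

theorem dt_decomp {v w : Fin 2 → ℝ} (h : dt v w ≠ 0) (x : Fin 2 → ℝ) :
    x = (dt x w / dt v w) • v + (dt v x / dt v w) • w := by
  funext i
  fin_cases i <;> simp only [Pi.add_apply, Pi.smul_apply, smul_eq_mul] <;> field_simp <;>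
    simp only [Fin.zero_eta, Fin.isValue, dt, Fin.mk_one] <;> ring

theorem dt_comb (a b : ℝ) (x y w : Fin 2 → ℝ) :
    dt (a • x + b • y) w = a * dt x w + b * dt y w := by
  simp [dt]; ring

variable {F : Type*} [Monoid F] (ρ : F →* Matrix (Fin 2) (Fin 2) ℝ)

/-- the eigenvector data of a hyperbolic element -/
structure Eig (β : F) (μ : ℝ) (v w : Fin 2 → ℝ) : Prop where
  mu : 1 < |μ|
  ind : dt v w ≠ 0
  ev : ρ β *ᵥ v = μ • v
  ew : ρ β *ᵥ w = μ⁻¹ • w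

variable {ρ} {β : F} {μ : ℝ} {v w : Fin 2 → ℝ}

theorem Eig.ne (h : Eig ρ β μ v w) : μ ≠ 0 := by
  intro e
  have := h.mu
  rw [e, abs_zero] at this
  linarith

theorem Eig.pow_v (h : Eig ρ β μ v w) (p : ℕ) : ρ (β ^ p) *ᵥ v = μ ^ p • v := by
  induction p with
  | zero => simp
  | succ p ih => rw [pow_succ, map_mul, ← mulVec_mulVec, h.ev, mulVec_smul, ih, smul_smul, pow_succ']

theorem Eig.pow_w (h : Eig ρ β μ v w) (p : ℕ) : ρ (β ^ p) *ᵥ w = (μ ^ p)⁻¹ • w := by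
  induction p with
  | zero => simp
  | succ p ih =>
    rw [pow_succ, map_mul, ← mulVec_mulVec, h.ew, mulVec_smul, ih, smul_smul, pow_succ', mul_inv]

theorem Eig.pow_x (h : Eig ρ β μ v w) (p : ℕ) (x : Fin 2 → ℝ) :
    ρ (β ^ p) *ᵥ x = (μ ^ p * (dt x w / dt v w)) • v + ((μ ^ p)⁻¹ * (dt v x / dt v w)) • w := by
  conv_lhs => rw [dt_decomp h.ind x]
  rw [mulVec_add, mulVec_smul, mulVec_smul, h.pow_v, h.pow_w, smul_smul, smul_smul, mul_comm,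
    mul_comm (dt v x / dt v w)]

/-- upper left entry in the eigenbasis -/
noncomputable def e11 (ρ : F →* Matrix (Fin 2) (Fin 2) ℝ) (v w : Fin 2 → ℝ) (a : F) : ℝ :=
  dt (ρ a *ᵥ v) w / dt v w

theorem Eig.e11_mul (h : Eig ρ β μ v w) (a b : F) (p : ℕ) :
    e11 ρ v w (a * β ^ p * b) = μ ^ p * (e11 ρ v w a * e11 ρ v w b + ((μ ^ p)⁻¹) ^ 2 *
      (dt (ρ a *ᵥ w) w / dt v w * (dt v (ρ b *ᵥ v) / dt v w))) := by
  have h1 := h.ind
  have h2 : μ ^ p ≠ 0 := pow_ne_zero _ h.ne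
  unfold e11
  rw [map_mul, map_mul, ← mulVec_mulVec, ← mulVec_mulVec, h.pow_x, mulVec_add, mulVec_smul,
    mulVec_smul, dt_comb]
  field_simp

theorem Eig.tend (h : Eig ρ β μ v w) :
    Tendsto (fun p : ℕ => ((μ ^ p)⁻¹) ^ 2) atTop (𝓝 0) := by
  have h1 : |μ⁻¹| < 1 := by rw [abs_inv]; exact inv_lt_one_of_one_lt₀ h.mu
  have := (tendsto_pow_atTop_nhds_zero_of_abs_lt_one h1).pow 2
  simpa [inv_pow] using this

/-- Logarithms of the upper left entries are dense modulo the translation length. -/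
theorem Eig.dense_log (h : Eig ρ β μ v w) {α : F} (h11 : dt (ρ α *ᵥ v) w ≠ 0)
    (h21 : dt v (ρ α *ᵥ v) ≠ 0) (h12 : dt (ρ α *ᵥ w) w ≠ 0) (t : ℝ) {ε : ℝ} (hε : 0 < ε) :
    ∃ (a : F) (m : ℤ), e11 ρ v w a ≠ 0 ∧
      |Real.log (e11 ρ v w a) + m * Real.log μ - t| < ε := by
  set l := Real.log μ with hl
  have hl0 : 0 < l := by rw [hl, ← Real.log_abs]; exact Real.log_pos h.mu
  let T0 : Set ℝ := {s | ∃ (a : F) (m : ℤ), e11 ρ v w a ≠ 0 ∧ s = Real.log (e11 ρ v w a) + m * l}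
  have key : ∀ a b : F, e11 ρ v w a ≠ 0 → e11 ρ v w b ≠ 0 → ∀ m : ℤ,
      let c := dt (ρ a *ᵥ w) w / dt v w * (dt v (ρ b *ᵥ v) / dt v w)
      let f := fun p : ℕ => Real.log (e11 ρ v w a * e11 ρ v w b + ((μ ^ p)⁻¹) ^ 2 * c) + m * l
      Tendsto f atTop (𝓝 (Real.log (e11 ρ v w a * e11 ρ v w b) + m * l)) ∧
        ∀ᶠ p in atTop, f p ∈ T0 := by
    intro a b ha hb m c f
    have hab := mul_ne_zero ha hb
    have t1 : Tendsto (fun p : ℕ => e11 ρ v w a * e11 ρ v w b + ((μ ^ p)⁻¹) ^ 2 * c) atTop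
        (𝓝 (e11 ρ v w a * e11 ρ v w b)) := by
      simpa only [inv_pow, zero_mul, add_zero] using (h.tend.mul_const c).const_add (e11 ρ v w a * e11 ρ v w b)
    refine ⟨(t1.log hab).add_const _, ?_⟩
    filter_upwards [t1.eventually_ne hab] with p hp
    have h2 : μ ^ p ≠ 0 := pow_ne_zero _ h.ne
    refine ⟨a * β ^ p * b, m - p, ?_, ?_⟩
    · rw [h.e11_mul]; exact mul_ne_zero h2 hp
    · rw [h.e11_mul, Real.log_mul h2 hp, Real.log_pow]
      simp only [f, c]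
      push_cast
      ring
  have hadd0 : ∀ x ∈ T0, ∀ y ∈ T0, x + y ∈ closure T0 := by
    rintro _ ⟨a, m, ha, rfl⟩ _ ⟨b, n, hb, rfl⟩
    obtain ⟨k1, k2⟩ := key a b ha hb (m + n)
    have := mem_closure_of_tendsto k1 k2
    rw [Real.log_mul ha hb] at this
    convert this using 1
    push_cast
    ring
  have hadd : ∀ x ∈ closure T0, ∀ y ∈ closure T0, x + y ∈ closure T0 := by
    intro x hx y hy
    have := map_mem_closure₂ (f := fun x y : ℝ => x + y) continuous_add hx hy hadd0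
    rwa [closure_closure] at this
  have e1 : e11 ρ v w 1 = 1 := by simp [e11, div_self h.ind]
  have hz : ∀ m : ℤ, m * l ∈ closure T0 := fun m =>
    subset_closure ⟨1, m, by rw [e1]; exact one_ne_zero, by rw [e1]; simp⟩
  have ha : e11 ρ v w α ≠ 0 := div_ne_zero h11 h.ind
  obtain ⟨k1, k2⟩ := key α α ha ha 0
  set c := dt (ρ α *ᵥ w) w / dt v w * (dt v (ρ α *ᵥ v) / dt v w) with hc
  have hc0 : c ≠ 0 := mul_ne_zero (div_ne_zero h12 h.ind) (div_ne_zero h21 h.ind)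
  have hpos : 0 < e11 ρ v w α * e11 ρ v w α := mul_self_pos.2 ha
  have t1 : Tendsto (fun p : ℕ => e11 ρ v w α * e11 ρ v w α + ((μ ^ p)⁻¹) ^ 2 * c) atTop
      (𝓝 (e11 ρ v w α * e11 ρ v w α)) := by
    simpa only [inv_pow, zero_mul, add_zero] using (h.tend.mul_const c).const_add (e11 ρ v w α * e11 ρ v w α)
  have hall := univ_of_acc isClosed_closure hadd hl0 hz (mem_closure_of_tendsto k1 k2) (by
    intro δ hδ
    have k3 := (Metric.tendsto_nhds.1 k1) δ hδ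
    obtain ⟨p, hp1, hp2, hp3⟩ := (k2.and (k3.and (t1.eventually (lt_mem_nhds hpos)))).exists
    refine ⟨_, subset_closure hp1, ?_, by rwa [Real.dist_eq] at hp2⟩
    intro e
    have e2 := Real.log_injOn_pos hp3 hpos (add_right_cancel e)
    have e3 : ((μ ^ p)⁻¹) ^ 2 * c = 0 := by linarith only [e2]
    exact mul_ne_zero (pow_ne_zero _ (inv_ne_zero (pow_ne_zero _ h.ne))) hc0 e3) t
  obtain ⟨_, ⟨a, m, ha, rfl⟩, hd⟩ := Metric.mem_closure_iff.1 hall ε hε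
  exact ⟨a, m, ha, by rwa [Real.dist_eq, abs_sub_comm] at hd⟩

/-- PHASE. Up to sign and powers of the eigenvalue the orbit of `v` approximates every multiple
of `v`. -/
theorem Eig.phase (h : Eig ρ β μ v w) {α : F} (h11 : dt (ρ α *ᵥ v) w ≠ 0)
    (h21 : dt v (ρ α *ᵥ v) ≠ 0) (h12 : dt (ρ α *ᵥ w) w ≠ 0) {t : ℝ} (ht : 0 < t)
    {U : Set (Fin 2 → ℝ)} (hU : U ∈ 𝓝 (t • v)) :
    ∃ (g : F) (m : ℤ) (s : ℝ), (s = 1 ∨ s = -1) ∧ (s * |μ| ^ m) • (ρ g *ᵥ v) ∈ U := by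
  obtain ⟨O, hOU, hO, hmem⟩ := mem_nhds_iff.1 hU
  have c1 : Continuous fun x : ℝ => Real.exp x • v := by fun_prop
  have n1 : (fun x : ℝ => Real.exp x • v) ⁻¹' O ∈ 𝓝 (Real.log t) :=
    c1.continuousAt.preimage_mem_nhds (by rw [Real.exp_log ht]; exact hO.mem_nhds hmem)
  obtain ⟨ε, hε, hb⟩ := Metric.mem_nhds_iff.1 n1
  obtain ⟨a, m, ha, hd⟩ := h.dense_log h11 h21 h12 (Real.log t) hε
  have hm : 0 < |μ| := by linarith [h.mu]
  have hx : (|e11 ρ v w a| * |μ| ^ m) • v ∈ O := by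
    have := hb (show Real.log (e11 ρ v w a) + m * Real.log μ ∈ Metric.ball (Real.log t) ε by
      rwa [Metric.mem_ball, Real.dist_eq])
    rw [mem_preimage, Real.exp_add, ← Real.log_abs, Real.exp_log (abs_pos.2 ha),
      ← Real.log_abs μ, ← Real.log_zpow, Real.exp_log (zpow_pos hm m)] at this
    exact this
  set A := |e11 ρ v w a| * |μ| ^ m with hA
  set B := |μ| ^ m * (dt v (ρ a *ᵥ v) / dt v w) with hB
  have t0 : ∀ s : ℝ, Tendsto (fun p : ℕ => A • v + (s * ((μ ^ (2 * p))⁻¹) ^ 2 * B) • w) atTop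
      (𝓝 (A • v)) := by
    intro s
    have t1 : Tendsto (fun p : ℕ => ((μ ^ (2 * p))⁻¹) ^ 2) atTop (𝓝 0) :=
      h.tend.comp (tendsto_id.const_mul_atTop' (by norm_num))
    simpa only [inv_pow, mul_zero, zero_mul, zero_smul, add_zero] using ((((t1.const_mul s).mul_const B).smul_const w).const_add (A • v))
  obtain ⟨s, hs, hsa⟩ : ∃ s : ℝ, (s = 1 ∨ s = -1) ∧ s * e11 ρ v w a = |e11 ρ v w a| := by
    rcases abs_cases (e11 ρ v w a) with h1 | h1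
    · exact ⟨1, Or.inl rfl, by rw [h1.1, one_mul]⟩
    · exact ⟨-1, Or.inr rfl, by rw [h1.1]; ring⟩
  obtain ⟨p, hp⟩ := ((t0 s).eventually (hO.mem_nhds hx)).exists
  refine ⟨β ^ (2 * p) * a, m - (2 * p : ℕ), s, hs, hOU ?_⟩
  have h2 : μ ^ (2 * p) ≠ 0 := pow_ne_zero _ h.ne
  have h3 : |μ| ^ (2 * p) = μ ^ (2 * p) := by rw [pow_mul, pow_mul, sq_abs]
  rw [map_mul, ← mulVec_mulVec, h.pow_x, smul_add, smul_smul, smul_smul, zpow_sub₀ hm.ne',
    zpow_natCast, h3]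
  have q1 : s * (|μ| ^ m / μ ^ (2 * p)) * (μ ^ (2 * p) * (dt (ρ a *ᵥ v) w / dt v w)) = A := by
    rw [hA, ← hsa, e11]; field_simp
  have q2 : s * (|μ| ^ m / μ ^ (2 * p)) * ((μ ^ (2 * p))⁻¹ * (dt v (ρ a *ᵥ v) / dt v w))
      = s * ((μ ^ (2 * p))⁻¹) ^ 2 * B := by
    rw [hB]; field_simp
  rw [q1, q2]
  exact hp

/-- Window form. `Q` is continuous and homogeneous of degree two and positive at one point of
the orbit of `v`. A finite set of elements hits the window at every height. -/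
theorem Eig.window (h : Eig ρ β μ v w) {α : F} (h11 : dt (ρ α *ᵥ v) w ≠ 0)
    (h21 : dt v (ρ α *ᵥ v) ≠ 0) (h12 : dt (ρ α *ᵥ w) w ≠ 0) {Q : (Fin 2 → ℝ) → ℝ}
    (hQ : Continuous Q) (hom : ∀ (c : ℝ) x, Q (c • x) = c ^ 2 * Q x) {k : F}
    (hk : 0 < Q (ρ k *ᵥ v)) {lo hi : ℝ} (hlo : 0 < lo) (hlh : lo < hi) :
    ∃ G0 : Set F, G0.Finite ∧ ∀ θ : ℝ, 0 < θ → ∃ g ∈ G0, ∃ N : ℤ,
      θ * (μ ^ 2) ^ N * Q (ρ g *ᵥ v) ∈ Ioo lo hi := by
  have hm : 0 < |μ| := by linarith [h.mu]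
  have hm2 : 1 < μ ^ 2 := by rw [← sq_abs]; nlinarith only [h.mu]
  have one : ∀ θ : ℝ, 0 < θ → ∃ q : F × ℤ, θ * (μ ^ 2) ^ q.2 * Q (ρ q.1 *ᵥ v) ∈ Ioo lo hi := by
    intro θ hθ
    set t := Real.sqrt ((lo + hi) / 2 / (θ * Q (ρ k *ᵥ v))) with ht
    have hp : 0 < (lo + hi) / 2 / (θ * Q (ρ k *ᵥ v)) := by
      apply div_pos (by linarith only [hlo, hlh]) (mul_pos hθ hk)
    have c1 : Continuous fun x : Fin 2 → ℝ => θ * Q (ρ k *ᵥ x) :=
      continuous_const.mul (hQ.comp (continuous_const.matrix_mulVec continuous_id))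
    have e0 : θ * Q (ρ k *ᵥ (t • v)) = (lo + hi) / 2 := by
      rw [mulVec_smul, hom, ht, Real.sq_sqrt hp.le]
      field_simp
    have n1 : (fun x : Fin 2 → ℝ => θ * Q (ρ k *ᵥ x)) ⁻¹' Ioo lo hi ∈ 𝓝 (t • v) :=
      c1.continuousAt.preimage_mem_nhds (by
        rw [e0]; exact Ioo_mem_nhds (by linarith only [hlh]) (by linarith only [hlh]))
    obtain ⟨g, m, s, hs, hg⟩ := h.phase h11 h21 h12 (Real.sqrt_pos.2 hp) n1
    refine ⟨(k * g, m), ?_⟩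
    rw [mem_preimage, mulVec_smul, hom, mulVec_mulVec, ← map_mul] at hg
    have e1 : (s * |μ| ^ m) ^ 2 = (μ ^ 2) ^ m := by
      have : s ^ 2 = 1 := by rcases hs with rfl | rfl <;> norm_num
      rw [mul_pow, this, one_mul, ← sq_abs μ, ← zpow_natCast, ← _root_.zpow_mul, ← zpow_natCast,
        ← _root_.zpow_mul, mul_comm]
    rwa [e1, ← mul_assoc] at hg
  let W : F × ℤ → Set ℝ := fun q => {θ | θ * (μ ^ 2) ^ q.2 * Q (ρ q.1 *ᵥ v) ∈ Ioo lo hi}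
  have hW : ∀ q, IsOpen (W q) := fun q =>
    isOpen_Ioo.preimage (f := fun θ : ℝ => θ * (μ ^ 2) ^ q.2 * Q (ρ q.1 *ᵥ v)) (by fun_prop)
  obtain ⟨S, hS⟩ := (isCompact_Icc (a := (1 : ℝ)) (b := μ ^ 2)).elim_finite_subcover W hW (by
    intro θ hθ
    obtain ⟨q, hq⟩ := one θ (by linarith [hθ.1])
    exact mem_iUnion.2 ⟨q, hq⟩)
  refine ⟨Prod.fst '' (S : Set (F × ℤ)), S.finite_toSet.image _, fun θ hθ => ?_⟩
  obtain ⟨n, hn1, hn2⟩ := exists_mem_Ico_zpow hθ hm2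
  have hp : 0 < (μ ^ 2) ^ n := zpow_pos (by linarith) n
  have hin : θ / (μ ^ 2) ^ n ∈ Icc (1 : ℝ) (μ ^ 2) := by
    refine ⟨(one_le_div hp).2 hn1, ?_⟩
    rw [div_le_iff₀ hp]
    rw [zpow_add_one₀ (by linarith)] at hn2
    linarith
  obtain ⟨q, hq, hq2⟩ := mem_iUnion₂.1 (hS hin)
  refine ⟨q.1, ⟨q, hq, rfl⟩, q.2 - n, ?_⟩
  have e : θ * (μ ^ 2) ^ (q.2 - n) = θ / (μ ^ 2) ^ n * (μ ^ 2) ^ q.2 := by
    rw [zpow_sub₀ (by linarith)]
    field_simp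
  rw [e]
  exact hq2

/-- An irreducible group that contains a diagonal element has an element with three non-zero
entries. -/
theorem exists_generic {F : Type*} [Group F] (rho : F →* Matrix.SpecialLinearGroup (Fin 2) ℝ)
    (c : F) (htr : rho c 0 0 + rho c 1 1 ≠ 0) (hnc : rho c 0 1 ≠ 0 ∨ rho c 1 0 ≠ 0)
    (hirr : ∀ v : Fin 2 → ℝ, v ≠ 0 → ∃ g,
      v 0 * ((rho g : Matrix (Fin 2) (Fin 2) ℝ).mulVec v) 1 -
        v 1 * ((rho g : Matrix (Fin 2) (Fin 2) ℝ).mulVec v) 0 ≠ 0) :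
    ∃ a : F, rho a 0 0 ≠ 0 ∧ rho a 1 0 ≠ 0 ∧ rho a 0 1 ≠ 0 := by
  have det : ∀ g, rho g 0 0 * rho g 1 1 - rho g 0 1 * rho g 1 0 = 1 := fun g => by
    have := (rho g).det_coe
    rwa [Matrix.det_fin_two] at this
  have mul : ∀ g k i j, rho (g * k) i j = rho g i 0 * rho k 0 j + rho g i 1 * rho k 1 j := by
    intro g k i j
    rw [map_mul]
    simp only [Matrix.SpecialLinearGroup.coe_mul, Matrix.mul_apply, Fin.sum_univ_two, Fin.isValue]
  have inv : ∀ g, rho g⁻¹ 0 0 = rho g 1 1 ∧ rho g⁻¹ 1 0 = -rho g 1 0 ∧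
      rho g⁻¹ 0 1 = -rho g 0 1 := by
    intro g
    rw [map_inv, Matrix.SpecialLinearGroup.SL2_inv_expl]
    simp
  have fin : ∀ g, rho g 1 0 ≠ 0 → rho g 0 1 ≠ 0 → (rho g 0 0 ≠ 0 ∨ rho g 1 1 ≠ 0) →
      ∃ a : F, rho a 0 0 ≠ 0 ∧ rho a 1 0 ≠ 0 ∧ rho a 0 1 ≠ 0 := by
    rintro g h1 h2 (h3 | h3)
    · exact ⟨g, h3, h1, h2⟩
    · obtain ⟨i1, i2, i3⟩ := inv g
      exact ⟨g⁻¹, by rwa [i1], by rw [i2]; exact neg_ne_zero.2 h1,
        by rw [i3]; exact neg_ne_zero.2 h2⟩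
  obtain ⟨a, ha1, ha2⟩ : ∃ a : F, rho a 1 0 ≠ 0 ∧ rho a 0 1 ≠ 0 := by
    obtain ⟨g1, h1⟩ := hirr ![1, 0] (by simp)
    obtain ⟨g2, h2⟩ := hirr ![0, 1] (by simp)
    have k1 : rho g1 1 0 ≠ 0 := by
      simpa only [Fin.isValue, ne_eq, cons_val_zero, mulVec, dotProduct, Fin.sum_univ_two, mul_one, cons_val_one, cons_val_fin_one, mul_zero, add_zero, one_mul, zero_mul, sub_zero] using h1
    have k2 : rho g2 0 1 ≠ 0 := by
      simpa only [Fin.isValue, ne_eq, cons_val_zero, mulVec, dotProduct, Fin.sum_univ_two, mul_zero, cons_val_one, cons_val_fin_one, mul_one, zero_add, zero_mul, one_mul, zero_sub, neg_eq_zero] using h2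
    by_cases c1 : rho g1 0 1 = 0
    · by_cases c2 : rho g2 1 0 = 0
      · have d1 := det g1
        have d2 := det g2
        rw [c1] at d1
        rw [c2] at d2
        have n1 : rho g1 0 0 ≠ 0 := fun e => by rw [e] at d1; simp at d1
        have n2 : rho g2 0 0 ≠ 0 := fun e => by rw [e] at d2; simp at d2
        refine ⟨g1 * g2, ?_, ?_⟩
        · rw [mul, c2, mul_zero, add_zero]; exact mul_ne_zero k1 n2
        · rw [mul, c1, zero_mul, add_zero]; exact mul_ne_zero n1 k2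
      · exact ⟨g2, c2, k2⟩
    · exact ⟨g1, k1, c1⟩
  by_cases c0 : rho a 0 0 ≠ 0 ∨ rho a 1 1 ≠ 0
  · exact fin a ha1 ha2 c0
  push Not at c0
  obtain ⟨z0, z1⟩ := c0
  have dc := det c
  by_cases c1 : rho c 0 1 = 0
  · have c2 : rho c 1 0 ≠ 0 := hnc.resolve_left (not_not.2 c1)
    rw [c1] at dc
    have n0 : rho c 0 0 ≠ 0 := fun e => by rw [e] at dc; simp at dc
    have n1 : rho c 1 1 ≠ 0 := fun e => by rw [e] at dc; simp at dc
    refine fin (a * c) ?_ ?_ (Or.inl ?_)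
    · rw [mul, z1, zero_mul, add_zero]; exact mul_ne_zero ha1 n0
    · rw [mul, z0, zero_mul, zero_add]; exact mul_ne_zero ha2 n1
    · rw [mul, z0, zero_mul, zero_add]; exact mul_ne_zero ha2 c2
  by_cases c2 : rho c 1 0 = 0
  · rw [c2] at dc
    have n0 : rho c 0 0 ≠ 0 := fun e => by rw [e] at dc; simp at dc
    have n1 : rho c 1 1 ≠ 0 := fun e => by rw [e] at dc; simp at dc
    refine fin (a * c) ?_ ?_ (Or.inr ?_)
    · rw [mul, z1, zero_mul, add_zero]; exact mul_ne_zero ha1 n0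
    · rw [mul, z0, zero_mul, zero_add]; exact mul_ne_zero ha2 n1
    · rw [mul, z1, zero_mul, add_zero]; exact mul_ne_zero ha1 c1
  refine fin c c2 c1 ?_
  by_contra hc
  push Not at hc
  rw [hc.1, hc.2] at htr
  simp at htr

/-- PHASE in coordinates, logarithmic form. -/
theorem phase {F : Type*} [Group F] (rho : F →* Matrix.SpecialLinearGroup (Fin 2) ℝ) (b c : F)
    (mu : ℝ) (hmu : 1 < |mu|) (hb : (rho b : Matrix (Fin 2) (Fin 2) ℝ) = !![mu, 0; 0, mu⁻¹])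
    (htr : rho c 0 0 + rho c 1 1 ≠ 0) (hnc : rho c 0 1 ≠ 0 ∨ rho c 1 0 ≠ 0)
    (hirr : ∀ v : Fin 2 → ℝ, v ≠ 0 → ∃ g,
      v 0 * ((rho g : Matrix (Fin 2) (Fin 2) ℝ).mulVec v) 1 -
        v 1 * ((rho g : Matrix (Fin 2) (Fin 2) ℝ).mulVec v) 0 ≠ 0)
    (Q : ℝ → ℝ → ℝ) (hQc : Continuous fun p : ℝ × ℝ => Q p.1 p.2)
    (hQh : ∀ t x y, Q (t * x) (t * y) = t ^ 2 * Q x y) (h : F)
    (hh : 0 < Q (rho h 0 0) (rho h 1 0)) (w : ℝ) (hw : 0 < w) :
    ∃ S : Finset F, (∀ g ∈ S, 0 < Q (rho g 0 0) (rho g 1 0)) ∧ ∀ x : ℝ, ∃ g ∈ S, ∃ j : ℤ,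
      |Real.log (Q (rho g 0 0) (rho g 1 0)) + j * Real.log (mu ^ 2) - x| ≤ w := by
  classical
  let r : F →* Matrix (Fin 2) (Fin 2) ℝ :=
    { toFun := fun g => (rho g : Matrix (Fin 2) (Fin 2) ℝ)
      map_one' := by simp
      map_mul' := fun g k => by simp only [map_mul, Matrix.SpecialLinearGroup.coe_mul] }
  have rv : ∀ g, r g *ᵥ ![1, 0] = ![rho g 0 0, rho g 1 0] := fun g => by
    funext i
    fin_cases i <;> simp only [mulVec, dotProduct, r, Fin.zero_eta, Fin.isValue, MonoidHom.coe_mk, OneHom.coe_mk, Fin.sum_univ_two, cons_val_zero, mul_one, cons_val_one, cons_val_fin_one, mul_zero, add_zero, Nat.succ_eq_add_one, Nat.reduceAdd, Fin.mk_one]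
  have rw' : ∀ g, r g *ᵥ ![0, 1] = ![rho g 0 1, rho g 1 1] := fun g => by
    funext i
    fin_cases i <;> simp only [mulVec, dotProduct, r, Fin.zero_eta, Fin.isValue, MonoidHom.coe_mk, OneHom.coe_mk, Fin.sum_univ_two, cons_val_zero, mul_zero, cons_val_one, cons_val_fin_one, mul_one, zero_add, Nat.succ_eq_add_one, Nat.reduceAdd, Fin.mk_one]
  have hE : Eig r b mu ![1, 0] ![0, 1] := by
    refine ⟨hmu, by simp [dt], ?_, ?_⟩
    · show (rho b : Matrix (Fin 2) (Fin 2) ℝ) *ᵥ _ = _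
      rw [hb]
      funext i
      fin_cases i <;> simp [Matrix.mulVec, dotProduct, Fin.sum_univ_two]
    · show (rho b : Matrix (Fin 2) (Fin 2) ℝ) *ᵥ _ = _
      rw [hb]
      funext i
      fin_cases i <;> simp [Matrix.mulVec, dotProduct, Fin.sum_univ_two]
  obtain ⟨a, a1, a2, a3⟩ := exists_generic rho c htr hnc hirr
  obtain ⟨G0, hG, hw2⟩ := hE.window (α := a) (by rw [rv]; simpa [dt] using a1)
    (by rw [rv]; simpa [dt] using a2) (by rw [rw']; simpa [dt] using a3)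
    (Q := fun x => Q (x 0) (x 1))
    (hQc.comp (f := fun x : Fin 2 → ℝ => (x 0, x 1)) (by fun_prop))
    (fun t x => hQh t (x 0) (x 1)) (k := h) (by rw [rv]; simpa using hh)
    (Real.exp_pos (-w)) (Real.exp_lt_exp.2 (show -w < w by linarith))
  have hm2 : 0 < mu ^ 2 := by rw [← sq_abs]; nlinarith only [hmu]
  refine ⟨hG.toFinset.filter fun g => 0 < Q (rho g 0 0) (rho g 1 0),
    fun g hg => (Finset.mem_filter.1 hg).2, fun x => ?_⟩
  obtain ⟨g, hg, N, h1, h2⟩ := hw2 (Real.exp (-x)) (Real.exp_pos _)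
  rw [rv] at h1 h2
  simp only [Matrix.cons_val_zero, Matrix.cons_val_one] at h1 h2
  have hp : 0 < Real.exp (-x) * (mu ^ 2) ^ N := mul_pos (Real.exp_pos _) (zpow_pos hm2 N)
  have hq : 0 < Q (rho g 0 0) (rho g 1 0) :=
    (mul_pos_iff_of_pos_left hp).1 ((Real.exp_pos _).trans h1)
  refine ⟨g, Finset.mem_filter.2 ⟨hG.mem_toFinset.2 hg, hq⟩, N, ?_⟩
  have l1 := Real.log_lt_log (Real.exp_pos _) h1
  have l2 := Real.log_lt_log (mul_pos hp hq) h2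
  rw [Real.log_mul hp.ne' hq.ne', Real.log_mul (Real.exp_pos _).ne' (zpow_pos hm2 N).ne',
    Real.log_exp, Real.log_exp, Real.log_zpow] at l1 l2
  rw [abs_le]
  constructor <;> linarith only [l1, l2]

end H83

end
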