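import Pool.Agent.MP_596265_gt.W.A0

section

attribute [-instance] AddQuantale.instAddLeftMono
  TopologicalSpace.instSecondCountableTopologyOfLindelofSpaceOfPseudoMetrizableSpace
  IdemSemiring.toCanonicallyOrderedAdd NonUnitalNonAssocRing.toAddCommGroup instCoeTCOfCoe
  DivisionRing.toRing CommRing.toRing covariant_swap_mul_of_covariant_mul
  NonarchimedeanAddGroup.toIsTopologicalAddGroup GrpTypeEquivalenceGrp.grpGroup
  LieAdmissibleAlgebra.toModule CategoryTheory.CountableCategory.countableObj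
  NonUnitalNormedRing.toNonUnitalSeminormedRing NormedRing.toRing
  NonUnitalNonAssocSemiring.toAddCommMonoid Algebra.toSMul AddQuantale.instAddRightMono
  continuousSub_of_discreteTopology NumberField.to_charZero CompactSpace.sigmaCompact
  GradedMonoid.GradeZero.smul IdemSemiring.toMulLeftMono littleWedderburn
  AlexandrovDiscrete.toLocallyCompactSpace RightPreLieAlgebra.toModule LeftPreLieAlgebra.toModule
  NonUnitalNormedCommRing.toNonUnitalSeminormedCommRing SeminormedRing.toRing LieRing.toAddCommGroup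
  NonAssocSemiring.toAddCommMonoidWithOne LinearOrderedCommMonoidWithZero.toPosMulStrictMono
  Quantale.instMulRightMono CStarAlgebra.instOrderClosedTopology
  NonarchimedeanRing.toIsTopologicalRing ProperSMul.toContinuousSMul Finite.to_countable
  NonUnitalRing.toNonUnitalNonAssocRing SMulWithZero.toSMulZeroClass
  IsTopologicalTorsor.toContinuousSMul AddCommGroupWithOne.toAddGroupWithOne
  MulSemiringAction.toDistribMulAction RKHS.instFunLike AlexandrovDiscrete.toFirstCountable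
  continuousSub_of_indiscreteTopology UniformSpace.secondCountable_of_separable
  IsOrderedMonoid.toMulLeftMono TotallySeparatedSpace.t2Space ESeminormedAddMonoid.toAddMonoid
  ESeminormedAddCommMonoid.toAddCommMonoid
  MeasureTheory.instInnerRegularOfIsCompletelyPseudoMetrizableSpace
  LieAdmissibleRing.toNonUnitalNonAssocRing NonUnitalSeminormedRing.toPseudoMetricSpace
  BooleanRing.toRing Quantale.instMulLeftMono instSMulZeroClass IdemSemiring.toSemiring
  NonUnitalSemiring.toNonUnitalNonAssocSemiring MonTypeEquivalenceMon.monMonoid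
  Valued.isTopologicalDivisionRing AddCommMonoidWithOne.toAddCommMonoid
  AddCommGroupWithOne.toAddCommGroup SeminormedRing.toNonUnitalSeminormedRing
  NormedCommRing.toCommRing PolishSpace.toSecondCountableTopology
  NonUnitalNormedCommRing.toNonUnitalCommRing SeminormedCommGroup.toPseudoMetricSpace
  IsValuativeTopology.instIsTopologicalAddGroup UpgradedStandardBorel.toTopologicalSpace Prod.instMul
  Group.IsPerfect.subsingleton_of_isMulCommutative
  NonUnitalNonAssocCommSemiring.toNonUnitalNonAssocSemiring MulZeroOneClass.toMulZeroClass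
  IsTopologicalSemiring.toContinuousAdd LinearOrderedAddCommMonoidWithTop.toAddCommMonoid
  EuclideanDomain.toCommRing Ring.toAddCommGroup AddSubgroup.seminormedAddCommGroup
  SeminormedCommRing.toCommRing instCoeTOfCoeDep NonAssocRing.toNonUnitalNonAssocRing
  MeasurableSingletonClass.toDiscreteMeasurableSpace CoalgHomClass.toSemilinearMapClass
  Unique.instSubsingleton
  TopologicalSpace.UpgradedIsCompletelyPseudoMetrizableSpace.toPseudoMetricSpace
  NonUnitalAlgSemiHomClass.toDistribMulActionSemiHomClass CanonicallyOrderedAdd.toMulLeftMono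
  NonAssocCommSemiring.toNonAssocSemiring AddSubgroup.seminormedAddGroup
  Action.FintypeCat.instMulActionObjFiniteOf IsTopologicalRing.toContinuousNeg
  LinearOrderedCommMonoidWithZero.toIsBotZeroClass MeasureTheory.instSFiniteOfCountable
  NonUnitalNonAssocSemiring.toMulZeroClass NonUnitalNormedRing.toNorm
  LinearOrderedAddCommGroupWithTop.toAddCommMonoid IsAddCyclic.isAddCommutative

section
/-! Sub-mean value property from pointwise second order data. -/

namespace Pool.Agent.MP_596265_gt.Sub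

open Real Metric Set Filter Topology

/-- generalised Laplacian at `t` is not negative -/
def SubAt (u : ℂ → ℝ) (t : ℂ) : Prop :=
  ∀ η > (0 : ℝ), ∀ δ > (0 : ℝ), ∃ r, 0 < r ∧ r < δ ∧ u t - η * r ^ 2 ≤ circleAverage u t r

/-- lower second order expansion at `t` with `a = ∂F`, `L = ∂∂bar F` -/
def LowTay (F : ℂ → ℝ) (t a b : ℂ) (L : ℝ) : Prop :=
  ∀ η > (0 : ℝ), ∀ᶠ s in 𝓝 (0 : ℂ),
    F t + 2 * (a * s).re + (b * s ^ 2).re + L * ‖s‖ ^ 2 - η * ‖s‖ ^ 2 ≤ F (t + s)

lemma ci {u : ℂ → ℝ} {c : ℂ} {R : ℝ} (hR : 0 ≤ R) (h : ContinuousOn u (sphere c R)) :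
    CircleIntegrable u c R := ContinuousOn.circleIntegrable hR h

lemma avg_re {P : ℂ → ℂ} (hP : Differentiable ℂ P) (c : ℂ) (R : ℝ) :
    circleAverage (fun z => (P z).re) c R = (P c).re := by
  have h := Complex.reCLM.circleAverage_comp_comm (f := P) (c := c) (R := R)
    (hP.continuous.continuousOn.circleIntegrable')
  rw [hP.diffContOnCl.circleAverage] at h
  exact h

/-- maximum principle for `u - Re P` -/
lemma maxp {u : ℂ → ℝ} {c : ℂ} {R m : ℝ} (hR : 0 < R) (hu : ContinuousOn u (closedBall c R))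
    (h : ∀ t ∈ ball c R, SubAt u t) {P : ℂ → ℂ} (hP : Differentiable ℂ P)
    (hm : ∀ z ∈ sphere c R, u z - (P z).re ≤ m) : ∀ z ∈ closedBall c R, u z - (P z).re ≤ m := by
  intro z hz
  refine le_of_forall_pos_le_add fun ε hε => ?_
  set η := ε / R ^ 2 with hη
  have hη0 : 0 < η := by positivity
  set w : ℂ → ℝ := fun t => u t - (P t).re + η * ‖t - c‖ ^ 2 with hw
  have hwc : ContinuousOn w (closedBall c R) := by
    have := hP.continuous
    exact (hu.sub (by fun_prop)).add (by fun_prop)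
  obtain ⟨t, ht, hmax⟩ := (isCompact_closedBall c R).exists_isMaxOn ⟨c, by simp [hR.le]⟩ hwc
  have h1 : u z - (P z).re ≤ w t := le_trans (by simp only [hw]; nlinarith only [hη0])
    (hmax hz)
  rcases (mem_closedBall.1 ht).lt_or_eq with h2 | h2
  · exfalso
    obtain ⟨r, r0, r1, r2⟩ := h t h2 (η / 2) (by positivity) (R - dist t c) (by linarith only [h2])
    have hsub : sphere t r ⊆ closedBall c R := fun y hy => by
      have := dist_triangle y t c
      rw [mem_sphere.1 hy] at this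
      exact mem_closedBall.2 (by linarith only [r1, this])
    set Q : ℂ → ℂ := fun y => P y - 2 * η * ((y - t) * (starRingEnd ℂ) (t - c)) +
      ((w t - η * (‖t - c‖ ^ 2 + r ^ 2) : ℝ) : ℂ) with hQ
    have hQd : Differentiable ℂ Q := by fun_prop
    have h3 : circleAverage u t r ≤ circleAverage (fun y => (Q y).re) t r := by
      refine circleAverage_mono (ci r0.le (hu.mono hsub))
        (ci r0.le (by have := hQd.continuous; fun_prop)) fun y hy => ?_
      rw [abs_of_pos r0] at hy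
      have e1 : w y ≤ w t := hmax (hsub hy)
      have e2 : ‖y - t‖ = r := mem_sphere_iff_norm.1 hy
      have e3 : ‖y - c‖ ^ 2 = r ^ 2 + ‖t - c‖ ^ 2 + 2 * ((y - t) * (starRingEnd ℂ) (t - c)).re := by
        rw [← e2, ← Complex.normSq_eq_norm_sq, ← Complex.normSq_eq_norm_sq,
          ← Complex.normSq_eq_norm_sq, ← Complex.normSq_add]
        congr 1; ring
      have e4 : (Q y).re = (P y).re - 2 * η * ((y - t) * (starRingEnd ℂ) (t - c)).re +
          (w t - η * (‖t - c‖ ^ 2 + r ^ 2)) := by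
        simp only [hQ, Complex.add_re, Complex.sub_re, Complex.ofReal_re]
        have : (2 * (η : ℂ)) = ((2 * η : ℝ) : ℂ) := by push_cast; ring
        rw [this, Complex.re_ofReal_mul]
      have e5 : w y = u y - (P y).re + η * ‖y - c‖ ^ 2 := rfl
      rw [e4]
      rw [e5, e3] at e1
      linarith only [e1]
    rw [avg_re hQd] at h3
    have e6 : (Q t).re = (P t).re + (w t - η * (‖t - c‖ ^ 2 + r ^ 2)) := by
      simp only [hQ, Complex.add_re, Complex.ofReal_re, sub_self, zero_mul, mul_zero, sub_zero]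
    have e7 : w t = u t - (P t).re + η * ‖t - c‖ ^ 2 := rfl
    have : 0 < η * r ^ 2 := by positivity
    linarith only [r2, h3, e6, this]
  · have e1 : w t = u t - (P t).re + η * ‖t - c‖ ^ 2 := rfl
    have e2 : ‖t - c‖ = R := by rw [← dist_eq_norm]; exact h2
    have e3 : η * R ^ 2 = ε := by rw [hη]; field_simp
    have := hm t (mem_sphere.2 h2)
    rw [e2, e3] at e1
    linarith only [h1, e1, this]

/-- real parts of entire functions are dense on a circle -/
lemma dense_re {u : ℂ → ℝ} {c : ℂ} {R ε : ℝ} (hR : 0 < R) (hu : ContinuousOn u (sphere c R))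
    (hε : 0 < ε) : ∃ P : ℂ → ℂ, Differentiable ℂ P ∧ ∀ z ∈ sphere c R, |u z - (P z).re| ≤ ε := by
  have : Fact ((0 : ℝ) < 1) := ⟨one_pos⟩
  set j : AddCircle (1 : ℝ) → ℂ := fun x => c + R * (AddCircle.toCircle x : ℂ) with hj
  have hjc : Continuous j := by
    have := AddCircle.continuous_toCircle (T := (1 : ℝ))
    fun_prop
  have hjm : ∀ x, j x ∈ sphere c R := fun x => by simp [hj, abs_of_pos hR, Circle.norm_coe]
  let f : C(AddCircle (1 : ℝ), ℂ) :=
    ⟨fun x => (u (j x) : ℂ), Complex.continuous_ofReal.comp (hu.comp_continuous hjc hjm)⟩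
  have hf : f ∈ closure (Submodule.span ℂ (range (@fourier (1 : ℝ))) : Set C(AddCircle (1 : ℝ), ℂ)) := by
    have := span_fourier_closure_eq_top (T := (1 : ℝ))
    rw [← Submodule.topologicalClosure_coe, this]
    trivial
  obtain ⟨g, hg, hd⟩ := Metric.mem_closure_iff.1 hf ε hε
  have key : ∃ P Q : ℂ → ℂ, Differentiable ℂ P ∧ Differentiable ℂ Q ∧
      ∀ x, g x = P (j x) + (starRingEnd ℂ) (Q (j x)) := by
    clear hd
    have hR' : (R : ℂ) ≠ 0 := by exact_mod_cast hR.ne'
    have e : ∀ (n : ℕ) x, fourier (n : ℤ) x = ((j x - c) / R) ^ n := by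
      intro n x
      rw [fourier_apply, natCast_zsmul, AddCircle.toCircle_nsmul]
      simp [hj, mul_div_cancel_left₀ _ hR']
    induction hg using Submodule.span_induction with
    | mem g hg =>
      obtain ⟨n, rfl⟩ := hg
      obtain ⟨n, rfl | rfl⟩ := n.eq_nat_or_neg
      · exact ⟨fun z => ((z - c) / R) ^ n, 0, by fun_prop, by fun_prop, fun x => by simp [e]⟩
      · exact ⟨0, fun z => ((z - c) / R) ^ n, by fun_prop, by fun_prop, fun x => by
          rw [fourier_neg, e]; simp⟩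
    | zero => exact ⟨0, 0, by fun_prop, by fun_prop, fun x => by simp⟩
    | add g g' _ _ h h' =>
      obtain ⟨P, Q, h1, h2, h3⟩ := h
      obtain ⟨P', Q', h1', h2', h3'⟩ := h'
      exact ⟨P + P', Q + Q', h1.add h1', h2.add h2', fun x => by simp only [ContinuousMap.add_apply, h3, h3', Pi.add_apply, map_add]; ring⟩
    | smul a g _ h =>
      obtain ⟨P, Q, h1, h2, h3⟩ := h
      exact ⟨fun z => a * P z, fun z => (starRingEnd ℂ) a * Q z, by fun_prop, by fun_prop,
        fun x => by simp only [ContinuousMap.coe_smul, Pi.smul_apply, h3, smul_eq_mul, map_mul, RingHomCompTriple.comp_apply, RingHom.id_apply]; ring⟩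
  obtain ⟨P, Q, h1, h2, h3⟩ := key
  refine ⟨P + Q, h1.add h2, fun z hz => ?_⟩
  obtain ⟨x, rfl⟩ : ∃ x, j x = z := by
    have hn : ‖(z - c) / R‖ = 1 := by
      rw [norm_div, mem_sphere_iff_norm.1 hz]; simp [hR.ne', abs_of_pos hR]
    obtain ⟨x, hx⟩ := (AddCircle.homeomorphCircle (T := (1 : ℝ)) one_ne_zero).surjective
      ⟨(z - c) / R, mem_sphere_zero_iff_norm.2 hn⟩
    rw [AddCircle.homeomorphCircle_apply] at hx
    refine ⟨x, ?_⟩
    have hR' : (R : ℂ) ≠ 0 := by exact_mod_cast hR.ne'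
    simp only [hj, hx]
    field_simp
    ring
  have h4 : ‖f x - g x‖ ≤ ε := by
    rw [← dist_eq_norm]; exact (ContinuousMap.dist_apply_le_dist x).trans hd.le
  refine le_trans (le_of_eq ?_) ((Complex.abs_re_le_norm _).trans h4)
  simp [f, h3]

lemma LowTay.subAt {u : ℂ → ℝ} {t a b : ℂ} {L : ℝ} (h : LowTay u t a b L) (hL : 0 ≤ L)
    (hu : ∀ᶠ y in 𝓝 t, ContinuousAt u y) : SubAt u t := by
  intro η hη δ hδ
  obtain ⟨d1, p1, q1⟩ := Metric.eventually_nhds_iff.1 (h η hη)
  obtain ⟨d2, p2, q2⟩ := Metric.eventually_nhds_iff.1 hu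
  set r := min δ (min d1 d2) / 2 with hr
  have m0 : 0 < min δ (min d1 d2) := by positivity
  have m1 := min_le_left δ (min d1 d2)
  have m2 := (min_le_right δ (min d1 d2)).trans (min_le_left d1 d2)
  have m3 := (min_le_right δ (min d1 d2)).trans (min_le_right d1 d2)
  have r0 : 0 < r := by positivity
  refine ⟨r, r0, by linarith, ?_⟩
  set Q : ℂ → ℂ := fun y => ((u t - η * r ^ 2 : ℝ) : ℂ) + 2 * (a * (y - t)) + b * (y - t) ^ 2
    with hQ
  have hQd : Differentiable ℂ Q := by fun_prop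
  have h3 : circleAverage (fun y => (Q y).re) t r ≤ circleAverage u t r := by
    refine circleAverage_mono (ci r0.le (by have := hQd.continuous; fun_prop))
      (ci r0.le fun y hy => (q2 (by rw [mem_sphere.1 hy]; linarith only [hr, m3, r0])).continuousWithinAt)
      fun y hy => ?_
    rw [abs_of_pos r0] at hy
    have e2 : ‖y - t‖ = r := mem_sphere_iff_norm.1 hy
    have e1 := q1 (y := y - t) (by rw [dist_zero_right, e2]; linarith)
    rw [e2, add_sub_cancel] at e1
    have e4 : (Q y).re = u t - η * r ^ 2 + 2 * (a * (y - t)).re + (b * (y - t) ^ 2).re := by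
      simp only [hQ, Complex.add_re, Complex.ofReal_re]
      have : (2 : ℂ) = ((2 : ℝ) : ℂ) := by norm_num
      rw [this, Complex.re_ofReal_mul]
    have : 0 ≤ L * r ^ 2 := by positivity
    linarith only [e1, e4, this]
  rw [avg_re hQd] at h3
  simpa [hQ, -Complex.ofReal_sub] using h3

/-- second order expansion of a real function -/
lemma peano {φ φ' : ℝ → ℝ} {y p : ℝ} (h1 : ∀ᶠ x in 𝓝 y, HasDerivAt φ (φ' x) x)
    (h2 : HasDerivAt φ' p y) {η : ℝ} (hη : 0 < η) :
    ∀ᶠ x in 𝓝 y, φ y + φ' y * (x - y) + p / 2 * (x - y) ^ 2 - η * (x - y) ^ 2 ≤ φ x := by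
  obtain ⟨d, d0, hd⟩ := Metric.eventually_nhds_iff_ball.1 h1
  have h := (convex_ball y d).isLittleO_pow_succ_real (n := 1) (mem_ball_self d0)
    (f := fun x => φ x - φ' y * (x - y) - p / 2 * (x - y) ^ 2)
    (f' := fun x => φ' x - φ' y - (x - y) * p) (fun x hx => by
      have a1 : HasDerivAt (fun x => x - y) 1 x := (hasDerivAt_id x).sub_const y
      have := ((hd x hx).fun_sub (a1.const_mul (φ' y))).fun_sub ((a1.fun_pow 2).const_mul (p / 2))
      refine (this.congr_deriv ?_).hasDerivWithinAt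
      simp only [mul_one, Nat.cast_ofNat, Nat.add_one_sub_one, pow_one, sub_right_inj]; ring) (by
      have := (hasDerivAt_iff_isLittleO.1 h2).mono (nhdsWithin_le_nhds (s := ball y d))
      simpa using this)
  rw [nhdsWithin_eq_nhds.2 (ball_mem_nhds y d0)] at h
  filter_upwards [h.def hη] with x hx
  rw [Real.norm_eq_abs, Real.norm_eq_abs, abs_of_nonneg (sq_nonneg (x - y) : 0 ≤ (x - y) ^ (1 + 1))]
    at hx
  have := (abs_le.1 hx).1
  simp only [sub_self, mul_zero] at this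
  norm_num only [sub_zero, mul_zero, neg_le_sub_iff_le_add] at this
  linarith only [this]

/-- composition with an increasing function -/
lemma LowTay.comp {F : ℂ → ℝ} {t a b : ℂ} {L : ℝ} (h : LowTay F t a b L) {φ φ' : ℝ → ℝ}
    {p : ℝ} (hF : ContinuousAt F t) (h1 : ∀ᶠ x in 𝓝 (F t), HasDerivAt φ (φ' x) x ∧ 0 ≤ φ' x)
    (h2 : HasDerivAt φ' p (F t)) :
    LowTay (fun z => φ (F z)) t (φ' (F t) * a) (φ' (F t) * b + p * a ^ 2)
      (φ' (F t) * L + p * ‖a‖ ^ 2) := by
  intro η hη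
  obtain ⟨d, d0, hd⟩ := Metric.eventually_nhds_iff_ball.1 h1
  have hm : MonotoneOn φ (ball (F t) d) :=
    monotoneOn_of_deriv_nonneg (convex_ball _ _)
      (fun x hx => (hd x hx).1.continuousAt.continuousWithinAt)
      (fun x hx => (hd x (interior_subset hx)).1.differentiableAt.differentiableWithinAt)
      fun x hx => by rw [(hd x (interior_subset hx)).1.deriv]; exact (hd x (interior_subset hx)).2
  have q0 : 0 ≤ φ' (F t) := (hd _ (mem_ball_self d0)).2
  set q := φ' (F t) with hq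
  set η1 := η / (3 * (q + 1)) with hη1
  have e1 : 0 < η1 := by positivity
  have e1' : q * η1 ≤ η / 3 := by
    rw [hη1, mul_div_assoc', div_le_div_iff₀ (by positivity) (by positivity)]; linarith only [hη]
  set K := ‖b‖ + |L| + η1 with hK
  set A := 2 * ‖a‖ + 1 with hA
  have K0 : 0 < K := by positivity
  have A0 : 0 < A := by positivity
  set η2 := η / (3 * A ^ 2) with hη2
  have e2 : 0 < η2 := by positivity
  set T : ℂ → ℝ := fun s => F t + 2 * (a * s).re + (b * s ^ 2).re + L * ‖s‖ ^ 2 - η1 * ‖s‖ ^ 2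
    with hT
  have hTc : Tendsto T (𝓝 0) (𝓝 (F t)) := by
    have : Continuous T := by fun_prop
    simpa only [hT, Complex.mul_re, Complex.zero_re, mul_zero, Complex.zero_im, sub_self, add_zero, ne_eq, OfNat.ofNat_ne_zero, not_false_eq_true, zero_pow, norm_zero, sub_zero] using this.tendsto 0
  have hFc : Tendsto (fun s => F (t + s)) (𝓝 0) (𝓝 (F t)) := by
    have : Tendsto (fun s : ℂ => t + s) (𝓝 0) (𝓝 t) := by
      exact (by fun_prop : Continuous fun s : ℂ => t + s).tendsto' 0 t (add_zero t)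
    exact hF.tendsto.comp this
  have hn : Tendsto (fun s : ℂ => ‖s‖) (𝓝 0) (𝓝 0) := tendsto_norm_zero
  have s1 : ∀ᶠ s : ℂ in 𝓝 0, K * ‖s‖ ≤ 1 := by
    have := hn.const_mul K
    rw [mul_zero] at this
    exact this.eventually_le_const one_pos
  have s2 : ∀ᶠ s : ℂ in 𝓝 0, |p| * K * A * ‖s‖ ≤ η / 3 := by
    have := hn.const_mul (|p| * K * A)
    rw [mul_zero] at this
    exact this.eventually_le_const (by positivity)
  filter_upwards [h η1 e1, hTc.eventually (ball_mem_nhds _ d0), hFc.eventually (ball_mem_nhds _ d0),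
    hTc.eventually (peano (h1.mono fun _ h => h.1) h2 e2), s1, s2] with s b1 b2 b3 b4 b5 b6
  refine le_trans ?_ (b4.trans (hm b2 b3 b1))
  set x := 2 * (a * s).re with hx
  set y := (b * s ^ 2).re + L * ‖s‖ ^ 2 - η1 * ‖s‖ ^ 2 with hy
  set r := ‖s‖ with hr
  have r0 : 0 ≤ r := norm_nonneg _
  have c1 : T s - F t = x + y := by simp only [hT, hx, hy]; ring
  have c2 : |x| ≤ 2 * ‖a‖ * r := by
    rw [hx, abs_mul, abs_two, mul_assoc, hr, ← norm_mul]
    exact mul_le_mul_of_nonneg_left (Complex.abs_re_le_norm _) two_pos.le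
  have c3 : |y| ≤ K * r ^ 2 := by
    have u1 : |(b * s ^ 2).re| ≤ ‖b‖ * r ^ 2 := by
      rw [hr, ← norm_pow, ← norm_mul]; exact Complex.abs_re_le_norm _
    have u2 : |L * r ^ 2| = |L| * r ^ 2 := by rw [abs_mul, abs_of_nonneg (sq_nonneg r)]
    have u3 : |η1 * r ^ 2| = η1 * r ^ 2 := abs_of_nonneg (by positivity)
    have u4 := abs_sub ((b * s ^ 2).re + L * r ^ 2) (η1 * r ^ 2)
    have u5 := abs_add_le (b * s ^ 2).re (L * r ^ 2)
    rw [hK]; linarith only [u1, u2, u3, u4, u5]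
  have c4 : |y| ≤ r := c3.trans (by nlinarith only [b5, r0])
  have c5 : |x + y| ≤ A * r := (abs_add_le _ _).trans (by rw [hA]; linarith only [c2, c4])
  have c6 : η2 * (x + y) ^ 2 ≤ η / 3 * r ^ 2 := by
    have : (x + y) ^ 2 ≤ (A * r) ^ 2 := sq_le_sq' (abs_le.1 c5).1 (abs_le.1 c5).2
    calc _ ≤ η2 * (A * r) ^ 2 := by gcongr
      _ = _ := by rw [hη2]; field_simp
  have c7 : |p / 2 * (y * (2 * x + y))| ≤ η / 3 * r ^ 2 := by
    have u1 : |2 * x + y| ≤ 2 * (A * r) := by
      have := abs_add_le (2 * x) y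
      rw [abs_mul, abs_two] at this
      rw [hA]; linarith only [r0, c2, c4, this]
    rw [abs_mul, abs_mul, abs_div, abs_two]
    calc _ ≤ |p| / 2 * (K * r ^ 2 * (2 * (A * r))) := by gcongr
      _ = |p| * K * A * r * r ^ 2 := by ring
      _ ≤ _ := by gcongr
  have c8 : x ^ 2 / 2 = (a ^ 2 * s ^ 2).re + ‖a‖ ^ 2 * r ^ 2 := by
    rw [hx, hr, ← mul_pow, ← mul_pow, ← norm_mul, Complex.sq_norm, Complex.normSq_apply, sq (a * s),
      Complex.mul_re (a * s)]
    ring
  have c9 : ((q : ℂ) * a * s).re = q * (a * s).re := by rw [mul_assoc, Complex.re_ofReal_mul]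
  have c10 : (((q : ℂ) * b + p * a ^ 2) * s ^ 2).re =
      q * (b * s ^ 2).re + p * (a ^ 2 * s ^ 2).re := by
    rw [add_mul, Complex.add_re, mul_assoc, mul_assoc, Complex.re_ofReal_mul, Complex.re_ofReal_mul]
  have c11 : q * η1 * r ^ 2 ≤ η / 3 * r ^ 2 := by gcongr
  have c12 : p / 2 * (x + y) ^ 2 =
      p * ((a ^ 2 * s ^ 2).re + ‖a‖ ^ 2 * r ^ 2) + p / 2 * (y * (2 * x + y)) := by
    rw [← c8]; ring
  have c13 := (abs_le.1 c7).1
  rw [c1, c9, c10, c12]
  have c14 : q * (x + y) = 2 * (q * (a * s).re) + q * (b * s ^ 2).re + q * L * r ^ 2 -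
      q * η1 * r ^ 2 := by rw [hx, hy]; ring
  rw [c14]
  linarith only [c6, c11, c13]

/-- Taylor data of a function whose powers are subharmonic -/
def Hod (F : ℂ → ℝ) (t : ℂ) : Prop :=
  ∃ a b L, LowTay F t a b L ∧ 0 ≤ L ∧ ‖a‖ ^ 2 ≤ 25 / 32 * F t * L

/-- the multiplier -/
noncomputable def ph (y : ℝ) : ℝ := 1 - (1 + y) ^ (-(1 / 4) : ℝ)

/-- the function whose sub-mean value property is the gain -/
lemma ph_data {x M : ℝ} (hx : 0 < x) : ∃ φ' φ'' : ℝ → ℝ,
    (∀ s ∈ Ioo (-x⁻¹) (M + 1), HasDerivAt (fun s => ph (x * s) -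
      3 / 512 * x * (1 + x * (M + 1)) ^ (-(5 / 4) : ℝ) * s) (φ' s) s) ∧
    (∀ s ∈ Ioo (-x⁻¹) (M + 1), HasDerivAt φ' (φ'' s) s) ∧
    (∀ s ∈ Ioo (-x⁻¹) (M + 1), 0 ≤ φ' s) ∧
    ∀ s ∈ Ioo (-x⁻¹) (M + 1), 0 ≤ s → 0 ≤ 25 / 32 * s * φ'' s + φ' s := by
  set κ := 3 / 512 * x * (1 + x * (M + 1)) ^ (-(5 / 4) : ℝ) with hκ
  have pos : ∀ s ∈ Ioo (-x⁻¹) (M + 1), 0 < 1 + x * s := fun s hs => by
    have := mul_lt_mul_of_pos_left hs.1 hx
    rw [mul_neg, mul_inv_cancel₀ hx.ne'] at this
    linarith only [this]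
  have hd : ∀ s, HasDerivAt (fun s => 1 + x * s) x s := fun s => by
    simpa using ((hasDerivAt_id s).const_mul x).const_add 1
  have le : ∀ s ∈ Ioo (-x⁻¹) (M + 1), κ ≤ 3 / 512 * x * (1 + x * s) ^ (-(5 / 4) : ℝ) := fun s hs =>
    mul_le_mul_of_nonneg_left (rpow_le_rpow_of_nonpos (pos s hs) (by nlinarith only [hs.2, hx])
      (by norm_num)) (by positivity)
  refine ⟨fun s => x / 4 * (1 + x * s) ^ (-(5 / 4) : ℝ) - κ,
    fun s => -(5 / 16 * x ^ 2 * (1 + x * s) ^ (-(9 / 4) : ℝ)), fun s hs => ?_, fun s hs => ?_,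
    fun s hs => ?_, fun s hs s0 => ?_⟩
  · have := (((hd s).rpow_const (p := -(1 / 4)) (Or.inl (pos s hs).ne')).const_sub 1).fun_sub
      ((hasDerivAt_id s).const_mul κ)
    refine this.congr_deriv ?_
    rw [show (-(1 / 4) - 1 : ℝ) = -(5 / 4) by norm_num]; ring
  · have := (((hd s).rpow_const (p := -(5 / 4)) (Or.inl (pos s hs).ne')).const_mul (x / 4)).sub_const κ
    refine this.congr_deriv ?_
    rw [show (-(5 / 4) - 1 : ℝ) = -(9 / 4) by norm_num]; ring
  · have := le s hs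
    have : 0 < x * (1 + x * s) ^ (-(5 / 4) : ℝ) := mul_pos hx (rpow_pos_of_pos (pos s hs) _)
    linarith
  · have h1 := le s hs
    have h2 : (1 + x * s) ^ (-(5 / 4) : ℝ) = (1 + x * s) ^ (-(9 / 4) : ℝ) * (1 + x * s) := by
      rw [← rpow_add_one (pos s hs).ne']; norm_num
    have h3 : 0 < x * (1 + x * s) ^ (-(9 / 4) : ℝ) := mul_pos hx (rpow_pos_of_pos (pos s hs) _)
    rw [h2] at h1
    simp only [h2]
    linarith only [h1, h3]

/-- the weight -/
noncomputable def gam (l : ℝ) : ℝ := l ^ (-(3 / 4) : ℝ) * exp (-l) / Gamma (1 / 4)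

lemma gam_nonneg {l : ℝ} (h : 0 ≤ l) : 0 ≤ gam l :=
  div_nonneg (by positivity) (Gamma_pos_of_pos (by norm_num)).le

lemma gam_exp {y : ℝ} (hy : 0 ≤ y) :
    MeasureTheory.IntegrableOn (fun l => gam l * exp (-(l * y))) (Ioi 0) ∧
      ∫ l in Ioi (0 : ℝ), gam l * exp (-(l * y)) = (1 + y) ^ (-(1 / 4) : ℝ) := by
  have e : (fun l => gam l * exp (-(l * y))) =
      fun l => (Gamma (1 / 4))⁻¹ * (l ^ ((1 / 4 : ℝ) - 1) * exp (-((1 + y) * l))) := by
    funext l
    rw [gam, show ((1 / 4 : ℝ) - 1) = -(3 / 4) by norm_num,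
      show -((1 + y) * l) = -l + -(l * y) by ring, exp_add]
    ring
  have hg : Gamma (1 / 4) ≠ 0 := (Gamma_pos_of_pos (by norm_num)).ne'
  rw [e]
  constructor
  · have := integrableOn_rpow_mul_exp_neg_mul_rpow (s := (1 / 4 : ℝ) - 1) (p := 1) (b := 1 + y)
      (by norm_num) one_pos (by positivity)
    simp only [rpow_one, neg_mul] at this
    exact this.const_mul _
  · rw [MeasureTheory.integral_const_mul, integral_rpow_mul_exp_neg_mul_Ioi (by norm_num)
      (by positivity), one_div (1 + y), inv_rpow (by positivity), rpow_neg (by positivity)]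
    field_simp

end Pool.Agent.MP_596265_gt.Sub
end

section
/-! Sub-mean value property on hyperbolic balls. -/

namespace Pool.Agent.MP_596265_gt.Sub

open Real Metric Set Filter Topology MeasureTheory UpperHalfPlane
open scoped MatrixGroups ComplexConjugate

/-- rotation around `z` -/
noncomputable def rot (z : ℍ) (θ : ℝ) : SL(2, ℝ) :=
  ⟨!![cos (θ / 2) - z.re * sin (θ / 2) / z.im, sin (θ / 2) * (z.re ^ 2 + z.im ^ 2) / z.im;
    -sin (θ / 2) / z.im, cos (θ / 2) + z.re * sin (θ / 2) / z.im], by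
    have := z.im_ne_zero
    have h := sin_sq_add_cos_sq (θ / 2)
    rw [Matrix.det_fin_two_of]
    field_simp
    linear_combination z.im ^ 2 * h⟩

noncomputable def cay (z w : ℍ) : ℂ := (w - z) / (w - conj (z : ℂ))
noncomputable def mob (z : ℍ) (ζ : ℂ) : ℂ := (z - conj (z : ℂ) * ζ) / (1 - ζ)

lemma sub_conj_ne (z w : ℍ) : (w : ℂ) - conj (z : ℂ) ≠ 0 := fun h => by
  have := congrArg Complex.im h
  simp only [Complex.sub_im, coe_im, Complex.conj_im, sub_neg_eq_add, Complex.zero_im] at this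
  linarith [z.im_pos, w.im_pos]

lemma norm_cay (z w : ℍ) : ‖cay z w‖ < 1 := by
  rw [cay, norm_div, div_lt_one (norm_pos_iff.2 (sub_conj_ne z w)), ← sq_lt_sq₀ (norm_nonneg _)
    (norm_nonneg _), Complex.sq_norm, Complex.sq_norm, Complex.normSq_apply, Complex.normSq_apply]
  simp
  linarith only [mul_pos z.im_pos w.im_pos]

lemma mob_cay (z w : ℍ) : mob z (cay z w) = w := by
  have h1 := sub_conj_ne z w
  have h2 := sub_conj_ne z z
  have : 1 - cay z w = (z - conj (z : ℂ)) / (w - conj (z : ℂ)) := by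
    rw [cay]; field_simp; ring
  rw [mob, this, cay]
  field_simp
  ring

lemma cay_rot (z w : ℍ) (θ : ℝ) : cay z (rot z θ • w) = circleMap 0 1 θ * cay z w := by
  set c : ℝ := cos (θ / 2) with hc
  set s : ℝ := sin (θ / 2) with hs
  have hy : (z.im : ℂ) ≠ 0 := by exact_mod_cast z.im_ne_zero
  have hz : (z : ℂ) = z.re + z.im * Complex.I := by simp [Complex.ext_iff]
  have hz' : conj (z : ℂ) = z.re - z.im * Complex.I := by simp [Complex.ext_iff]
  have h1 : (s : ℂ) ^ 2 + c ^ 2 = 1 := by exact_mod_cast sin_sq_add_cos_sq (θ / 2)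
  have hI := Complex.I_mul_I
  set A : ℂ := (c - z.re * s / z.im) * w + s * (z.re ^ 2 + z.im ^ 2) / z.im with hA
  set B : ℂ := -s / z.im * w + (c + z.re * s / z.im) with hB
  have e0 : ((rot z θ • w : ℍ) : ℂ) = A / B := by
    rw [coe_specialLinearGroup_apply]
    simp only [Algebra.algebraMap_self, rot, Fin.isValue, Matrix.of_apply, Matrix.cons_val', Matrix.cons_val_zero, Matrix.cons_val_fin_one, ringHom_apply, Complex.ofReal_sub, Complex.ofReal_cos, Complex.ofReal_div, Complex.ofReal_ofNat, Complex.ofReal_mul, Complex.ofReal_sin, Matrix.cons_val_one, map_div₀, Complex.ofReal_add, Complex.ofReal_pow, Complex.ofReal_neg, hA, hc, hs, hB]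
  have e1 : A - z * B = (c + s * Complex.I) * (w - z) := by
    rw [hA, hB]; generalize (w : ℂ) = w; rw [hz]; field_simp
    linear_combination (z.im : ℂ) ^ 2 * s * hI
  have e2 : A - conj (z : ℂ) * B = (c - s * Complex.I) * (w - conj (z : ℂ)) := by
    rw [hA, hB, hz']; field_simp
    linear_combination (z.im : ℂ) ^ 2 * s * hI
  have e3 : (c + s * Complex.I : ℂ) * (c - s * Complex.I) = 1 := by
    linear_combination h1 - (s : ℂ) ^ 2 * hI
  have e4 : circleMap 0 1 θ = (c + s * Complex.I : ℂ) ^ 2 := by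
    rw [hc, hs, Complex.ofReal_cos, Complex.ofReal_sin, ← Complex.exp_mul_I, sq, ← Complex.exp_add,
      circleMap]
    simp only [Complex.ofReal_one, one_mul, zero_add]
    congr 1; push_cast; ring
  have hB0 : B ≠ 0 := fun h => (rot z θ • w).ne_zero (by rw [e0, h, div_zero])
  have n1 : (c - s * Complex.I : ℂ) ≠ 0 := right_ne_zero_of_mul_eq_one e3
  have n2 := sub_conj_ne z w
  have f1 : A / B - z = (c + s * Complex.I) * (w - z) / B := by rw [← e1]; field_simp
  have f2 : A / B - conj (z : ℂ) = (c - s * Complex.I) * (w - conj (z : ℂ)) / B := by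
    rw [← e2]; field_simp
  rw [cay, cay, e0, f1, f2, e4]
  field_simp
  linear_combination (-(w - z : ℂ)) * (c + s * Complex.I) * e3

lemma coe_rot (z w : ℍ) (θ : ℝ) :
    ((rot z θ • w : ℍ) : ℂ) = mob z (circleMap 0 1 θ * cay z w) := by
  rw [← cay_rot, mob_cay]

lemma rot_self (z : ℍ) (θ : ℝ) : rot z θ • z = z := by
  ext1
  rw [coe_rot]; simp [cay, mob]

lemma dist_rot (z w : ℍ) (θ : ℝ) : dist (rot z θ • w) z = dist w z := by
  have := dist_smul (rot z θ) w z
  rwa [rot_self] at this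

lemma one_sub_ne (z w : ℍ) {s : ℂ} (hs : ‖s‖ ≤ 1) : 1 - s * cay z w ≠ 0 := fun h => by
  have h1 : ‖s * cay z w‖ < 1 := by
    rw [norm_mul]
    nlinarith only [norm_cay z w, norm_nonneg (cay z w), hs]
  rw [← sub_eq_zero.1 h] at h1
  simp at h1

lemma cont_rot (z : ℍ) : Continuous fun p : ℝ × ℍ => ((rot z p.1 • p.2 : ℍ) : ℂ) := by
  simp only [coe_rot, mob]
  have h1 : Continuous fun p : ℝ × ℍ => circleMap 0 1 p.1 * cay z p.2 := by
    refine ((continuous_circleMap 0 1).comp continuous_fst).mul ?_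
    have : Continuous fun p : ℝ × ℍ => (p.2 : ℂ) := continuous_coe.comp continuous_snd
    exact (this.sub continuous_const).div (this.sub continuous_const) fun p => sub_conj_ne z p.2
  exact (continuous_const.sub (continuous_const.mul h1)).div (continuous_const.sub h1)
    fun p => one_sub_ne z p.2 (by simp)

lemma avg_rot {P : ℂ → ℂ} (hP : Differentiable ℂ P) (z w : ℍ) :
    ∫ θ in (0 : ℝ)..2 * π, (P (rot z θ • w : ℍ)).re = 2 * π * (P z).re := by
  have hd : DifferentiableOn ℂ (fun s => P (mob z (s * cay z w))) (closedBall 0 1) := by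
    intro s hs
    refine (hP.differentiableAt.comp s (DifferentiableAt.div (by fun_prop) (by fun_prop)
      (one_sub_ne z w (mem_closedBall_zero_iff.1 hs)))).differentiableWithinAt
  have h := Complex.reCLM.circleAverage_comp_comm (f := fun s => P (mob z (s * cay z w))) (c := 0)
    (R := 1) ((hd.continuousOn.mono sphere_subset_closedBall).circleIntegrable zero_le_one)
  rw [DiffContOnCl.circleAverage (DifferentiableOn.diffContOnCl (by
    rwa [abs_one, closure_ball _ one_ne_zero])), circleAverage] at h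
  have e : mob z (0 * cay z w) = z := by simp [mob]
  simp only [Function.comp, ← coe_rot, Complex.reCLM_apply, smul_eq_mul, e] at h
  rw [← h, ← mul_assoc, mul_inv_cancel₀ two_pi_pos.ne', one_mul]

lemma cont_rot1 (z w : ℍ) : Continuous fun θ : ℝ => ((rot z θ • w : ℍ) : ℂ) := by
  have := (cont_rot z).comp (show Continuous fun θ : ℝ => (θ, w) by fun_prop)
  simpa only [Function.comp_def] using this

/-- sub-mean value property on hyperbolic circles -/
lemma sub_rot {f : ℂ → ℝ} {z w : ℍ} {ρ : ℝ}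
    (hf : ContinuousOn f (((↑) : ℍ → ℂ) '' closedBall z ρ))
    (h : ∀ t ∈ ball z ρ, SubAt f (t : ℍ)) (hw : w ∈ closedBall z ρ) :
    2 * π * f z ≤ ∫ θ in (0 : ℝ)..2 * π, f (rot z θ • w : ℍ) := by
  rcases eq_or_ne w z with rfl | hne
  · simp [rot_self]
  have r0 : 0 < dist w z := dist_pos.2 hne
  have R0 : 0 < z.im * sinh (dist w z) := mul_pos z.im_pos (sinh_pos_iff.2 r0)
  have hf' := hf.mono (image_mono (closedBall_subset_closedBall (mem_closedBall.1 hw)))
  rw [image_coe_closedBall] at hf'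
  refine le_of_forall_pos_le_add fun ε hε => ?_
  obtain ⟨P, hP, h1⟩ := dense_re R0 (hf'.mono sphere_subset_closedBall)
    (show 0 < ε / (4 * π) by positivity)
  have h2 := maxp R0 hf' (fun t ht => by
    rw [← image_coe_ball] at ht
    obtain ⟨t, ht, rfl⟩ := ht
    exact h t (ball_subset_ball (mem_closedBall.1 hw) ht)) hP (fun y hy => (abs_le.1 (h1 y hy)).2) z
    (by rw [← image_coe_closedBall]; exact mem_image_of_mem _ (mem_closedBall_self r0.le))
  have hm : ∀ θ, ((rot z θ • w : ℍ) : ℂ) ∈ sphere (z.center (dist w z) : ℂ) (z.im * sinh (dist w z)) :=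
    fun θ => by rw [← image_coe_sphere]; exact mem_image_of_mem _ (dist_rot z w θ)
  have hc := cont_rot1 z w
  have c1 : Continuous fun θ : ℝ => (P (rot z θ • w : ℍ)).re :=
    Complex.continuous_re.comp (hP.continuous.comp hc)
  have h3 : ∫ θ in (0 : ℝ)..2 * π, ((P (rot z θ • w : ℍ)).re - ε / (4 * π)) ≤
      ∫ θ in (0 : ℝ)..2 * π, f (rot z θ • w : ℍ) :=
    intervalIntegral.integral_mono_on two_pi_pos.le
      ((c1.sub continuous_const).intervalIntegrable _ _)
      (((hf'.mono sphere_subset_closedBall).comp_continuous hc hm).intervalIntegrable _ _)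
      fun θ _ => by linarith [(abs_le.1 (h1 _ (hm θ))).1]
  rw [intervalIntegral.integral_sub (c1.intervalIntegrable _ _) intervalIntegrable_const, avg_rot hP,
    intervalIntegral.integral_const, smul_eq_mul, sub_zero] at h3
  have e : 2 * π * (ε / (4 * π)) = ε / 2 := by field_simp; ring
  have h4 := mul_le_mul_of_nonneg_left h2 two_pi_pos.le
  rw [e] at h3 h4
  linarith only [h3, h4]

lemma int_rot (f : ℍ → ℝ) (z : ℍ) (ρ θ : ℝ) :
    ∫ w in ball z ρ, f (rot z θ • w) = ∫ w in ball z ρ, f w := by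
  have h := (measurePreserving_smul (Matrix.SpecialLinearGroup.mapGL ℝ (rot z θ))
    (volume : Measure ℍ)).setIntegral_preimage_emb
    (Homeomorph.smul (rot z θ)).measurableEmbedding f (ball z ρ)
  rw [← h]
  congr 2
  ext w
  exact (show dist (rot z θ • w) z < ρ ↔ dist w z < ρ by rw [dist_rot]).symm

lemma intOn {g : ℍ → ℝ} {z : ℍ} {ρ : ℝ} (hg : ContinuousOn g (closedBall z ρ)) :
    IntegrableOn g (ball z ρ) :=
  (hg.integrableOn_compact (isCompact_closedBall z ρ)).mono_set ball_subset_closedBall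

/-- averaging over rotations -/
lemma int_ball {f : ℂ → ℝ} {z : ℍ} {ρ : ℝ}
    (hf : ContinuousOn f (((↑) : ℍ → ℂ) '' closedBall z ρ)) :
    IntegrableOn (fun w : ℍ => ∫ θ in (0 : ℝ)..2 * π, f (rot z θ • w : ℍ)) (ball z ρ) ∧
    ∫ w in ball z ρ, ∫ θ in (0 : ℝ)..2 * π, f (rot z θ • w : ℍ) = 2 * π * ∫ w in ball z ρ, f w := by
  have hc : ContinuousOn (fun p : ℝ × ℍ => f (rot z p.1 • p.2 : ℍ))
      (Icc 0 (2 * π) ×ˢ closedBall z ρ) :=
    hf.comp (cont_rot z).continuousOn fun p hp =>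
      mem_image_of_mem _ (by rw [mem_closedBall, dist_rot]; exact hp.2)
  have hi : Integrable (fun p : ℝ × ℍ => f (rot z p.1 • p.2 : ℍ))
      ((volume.restrict (Ioc 0 (2 * π))).prod (volume.restrict (ball z ρ))) := by
    rw [Measure.prod_restrict]
    exact (hc.integrableOn_compact (isCompact_Icc.prod (isCompact_closedBall z ρ))).mono_set
      (prod_mono Ioc_subset_Icc_self ball_subset_closedBall)
  simp only [intervalIntegral.integral_of_le two_pi_pos.le]
  refine ⟨hi.integral_prod_right, ?_⟩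
  rw [← integral_integral_swap (f := fun (θ : ℝ) (w : ℍ) => f (rot z θ • w : ℍ)) hi]
  simp only [int_rot (fun w => f w)]
  simp only [integral_const, MeasurableSet.univ, measureReal_restrict_apply, univ_inter, volume_real_Ioc, sub_zero, two_pi_pos.le, sup_of_le_left, smul_eq_mul]

/-- sub-mean value property on hyperbolic balls -/
theorem ball_sub {f : ℂ → ℝ} {z : ℍ} {ρ : ℝ}
    (hf : ContinuousOn f (((↑) : ℍ → ℂ) '' closedBall z ρ))
    (h : ∀ t ∈ ball z ρ, SubAt f (t : ℍ)) : 0 ≤ ∫ w in ball z ρ, (f w - f z) := by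
  have hf' : ContinuousOn (fun t => f t - f z) (((↑) : ℍ → ℂ) '' closedBall z ρ) :=
    hf.sub continuousOn_const
  have h1 := (int_ball hf').2
  refine le_of_mul_le_mul_left ?_ two_pi_pos
  rw [← h1, mul_zero]
  refine setIntegral_nonneg measurableSet_ball fun w hw => ?_
  have h2 := sub_rot hf h (ball_subset_closedBall hw)
  have hc : Continuous fun θ : ℝ => f (rot z θ • w : ℍ) :=
    hf.comp_continuous (cont_rot1 z w) fun θ =>
      mem_image_of_mem _ (by rw [mem_closedBall, dist_rot]; exact hw.le)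
  rw [intervalIntegral.integral_sub (hc.intervalIntegrable _ _) intervalIntegrable_const,
    intervalIntegral.integral_const, smul_eq_mul, sub_zero]
  linarith

lemma hod_of_lt {u : ℂ → ℝ} {t : ℂ} (h : En.LT u t) (h0 : 0 < u t) : Hod u t := by
  obtain ⟨α, β, γ, h1, h2⟩ := h
  refine ⟨α / 2, β, γ, fun η hη => (h2 η hη).mono fun s hs => ?_, ?_, ?_⟩
  · have : (α * s).re = 2 * (α / 2 * s).re := by
      rw [show α * s = ((2 : ℝ) : ℂ) * (α / 2 * s) by push_cast; ring, Complex.re_ofReal_mul]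
    linarith only [hs, this]
  · by_contra hc
    linarith only [sq_nonneg ‖α‖, mul_pos h0 (neg_pos.2 (not_le.1 hc)), h1]
  · rw [norm_div, div_pow, Complex.norm_two]; linarith

lemma nhds_ball {z t : ℍ} {ρ : ℝ} (ht : t ∈ ball z ρ) :
    ((↑) : ℍ → ℂ) '' ball z ρ ∈ 𝓝 (t : ℂ) :=
  (isOpenEmbedding_coe.isOpenMap _ isOpen_ball).mem_nhds (mem_image_of_mem _ ht)

lemma ev_cont {f : ℂ → ℝ} {z t : ℍ} {ρ : ℝ}
    (hf : ContinuousOn f (((↑) : ℍ → ℂ) '' closedBall z ρ)) (ht : t ∈ ball z ρ) :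
    ∀ᶠ y in 𝓝 (t : ℂ), ContinuousAt f y := by
  filter_upwards [nhds_ball ht]
  rintro _ ⟨y, hy, rfl⟩
  exact hf.continuousAt (mem_of_superset (nhds_ball hy) (image_mono ball_subset_closedBall))

/-- sub-mean value property of `φ ∘ F` on hyperbolic balls -/
theorem ball_comp {F : ℂ → ℝ} {z : ℍ} {ρ : ℝ}
    (hF : ContinuousOn F (((↑) : ℍ → ℂ) '' closedBall z ρ))
    (hT : ∀ t ∈ ball z ρ, Hod F (t : ℍ)) {φ φ' φ'' : ℝ → ℝ}
    {J : Set ℝ} (hJ : IsOpen J) (hFJ : ∀ t ∈ closedBall z ρ, F (t : ℍ) ∈ J)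
    (h1 : ∀ s ∈ J, HasDerivAt φ (φ' s) s) (h2 : ∀ s ∈ J, HasDerivAt φ' (φ'' s) s)
    (h3 : ∀ s ∈ J, 0 ≤ φ' s)
    (h4 : ∀ t ∈ ball z ρ, 0 ≤ 25 / 32 * F (t : ℍ) * φ'' (F t) + φ' (F t)) :
    0 ≤ ∫ w in ball z ρ, (φ (F w) - φ (F z)) := by
  have hc : ContinuousOn (fun t => φ (F t)) (((↑) : ℍ → ℂ) '' closedBall z ρ) := by
    rintro _ ⟨y, hy, rfl⟩
    exact (h1 _ (hFJ y hy)).continuousAt.comp_continuousWithinAt (hF _ (mem_image_of_mem _ hy))
  refine ball_sub (f := fun t => φ (F t)) hc fun t ht => ?_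
  obtain ⟨a, b, L, t1, t2, t3⟩ := hT t ht
  have hm := hFJ t (ball_subset_closedBall ht)
  refine (t1.comp (ev_cont hF ht).self_of_nhds (mem_of_superset (hJ.mem_nhds hm) fun s hs =>
    ⟨h1 s hs, h3 s hs⟩) (h2 _ hm)).subAt ?_ (ev_cont hc ht)
  have := h3 _ hm
  rcases le_total 0 (φ'' (F t)) with h | h
  · positivity
  · linarith only [mul_le_mul_of_nonpos_left t3 h, mul_nonneg t2 (h4 t ht)]

theorem ball_nonneg {F : ℂ → ℝ} {z : ℍ} {ρ : ℝ}
    (hF : ContinuousOn F (((↑) : ℍ → ℂ) '' closedBall z ρ))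
    (hT : ∀ t ∈ ball z ρ, Hod F (t : ℍ)) : 0 ≤ ∫ w in ball z ρ, (F w - F z) :=
  ball_sub hF fun t ht => by
    obtain ⟨a, b, L, t1, t2, -⟩ := hT t ht
    exact t1.subAt t2 (ev_cont hF ht)

/-- GAIN on hyperbolic balls -/
theorem ball_gain {F : ℂ → ℝ} {z : ℍ} {ρ M x : ℝ}
    (hF : ContinuousOn F (((↑) : ℍ → ℂ) '' closedBall z ρ))
    (hT : ∀ t ∈ ball z ρ, Hod F (t : ℍ))
    (h0 : ∀ t ∈ closedBall z ρ, 0 ≤ F (t : ℍ) ∧ F (t : ℍ) ≤ M) (hx : 0 < x) :
    3 / 512 * x * (1 + x * (M + 1)) ^ (-(5 / 4) : ℝ) * ∫ w in ball z ρ, (F w - F z) ≤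
      ∫ w in ball z ρ, (ph (x * F w) - ph (x * F z)) := by
  obtain ⟨φ', φ'', h1, h2, h3, h4⟩ := ph_data (M := M) hx
  have hJ : ∀ t ∈ closedBall z ρ, F (t : ℍ) ∈ Ioo (-x⁻¹) (M + 1) := fun t ht =>
    ⟨by have := inv_pos.2 hx; linarith [(h0 t ht).1], by linarith [(h0 t ht).2]⟩
  have h := ball_comp hF hT isOpen_Ioo hJ h1 h2 h3 fun t ht =>
    h4 _ (hJ t (ball_subset_closedBall ht)) (h0 t (ball_subset_closedBall ht)).1
  have hs : ContinuousOn (fun w : ℍ => F w) (closedBall z ρ) :=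
    hF.comp continuous_coe.continuousOn fun w hw => mem_image_of_mem _ hw
  have hp : ContinuousOn (fun w : ℍ => ph (x * F w)) (closedBall z ρ) :=
    continuousOn_const.sub ((continuousOn_const.add (hs.const_mul x)).rpow_const fun w hw =>
      Or.inl (add_pos_of_pos_of_nonneg one_pos (mul_nonneg hx.le (h0 w hw).1)).ne')
  have c1 : ContinuousOn (fun w : ℍ => ph (x * F w) - ph (x * F z)) (closedBall z ρ) :=
    hp.sub continuousOn_const
  have c2 : ContinuousOn (fun w : ℍ => 3 / 512 * x * (1 + x * (M + 1)) ^ (-(5 / 4) : ℝ) *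
      (F w - F z)) (closedBall z ρ) := (hs.sub continuousOn_const).const_mul _
  rw [← integral_const_mul, ← sub_nonneg, ← integral_sub (intOn c1) (intOn c2)]
  refine h.trans (le_of_eq (integral_congr_ae (.of_forall fun w => ?_)))
  beta_reduce
  ring

lemma volPos : (volume : Measure ℍ).IsOpenPosMeasure := by
  refine ⟨fun U hU hne h => ?_⟩
  rw [volume_eq_lintegral, setLIntegral_eq_zero_iff
    (measurableEmbedding_coe.measurableSet_image.2 hU.measurableSet) (by fun_prop)] at h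
  refine ((isOpenEmbedding_coe.isOpenMap _ hU).measure_pos volume (hne.image _)).ne' ?_
  refine measure_mono_null ?_ h
  rintro _ ⟨y, hy, rfl⟩ hh
  have := hh (mem_image_of_mem _ hy)
  simp [y.im_ne_zero] at this

lemma sphere_null (z : ℍ) (ρ : ℝ) : volume (sphere z ρ) = 0 := by
  rw [volume_eq_lintegral, image_coe_sphere]
  exact setLIntegral_measure_zero _ _ (Measure.addHaar_sphere _ _ _)

/-- strictness -/
theorem ball_pos {F : ℂ → ℝ} {z : ℍ} {ρ : ℝ} (hρ : 0 < ρ)
    (hF : ContinuousOn F (((↑) : ℍ → ℂ) '' closedBall z ρ))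
    (hT : ∀ t ∈ ball z ρ, Hod F (t : ℍ)) (h0 : ∀ t ∈ closedBall z ρ, 0 ≤ F (t : ℍ))
    (hn : ¬ ∀ᶠ w in 𝓝 (z : ℂ), F w = F z) : 0 < ∫ w in ball z ρ, (F w - F z) := by
  by_contra hc
  have h := not_lt.1 hc
  have hs : ContinuousOn (fun w : ℍ => F w) (closedBall z ρ) :=
    hF.comp continuous_coe.continuousOn fun w hw => mem_image_of_mem _ hw
  obtain ⟨M, hM⟩ := (isCompact_closedBall z ρ).bddAbove_image hs
  have hM' : ∀ t ∈ closedBall z ρ, F (t : ℍ) ≤ M := fun t ht => hM (mem_image_of_mem _ ht)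
  have Mz := hM' z (mem_closedBall_self hρ.le)
  have M0 : 0 ≤ M := (h0 z (mem_closedBall_self hρ.le)).trans Mz
  have h1 := ball_comp hF hT (φ := fun s => 4 * (M + 1) * s - s ^ 2)
    (φ' := fun s => 4 * (M + 1) - 2 * s) (φ'' := fun _ => -2) (J := Iio (M + 1)) isOpen_Iio
    (fun t ht => by have := hM' t ht; simp only [mem_Iio]; linarith)
    (fun s _ => by
      simpa using ((hasDerivAt_id s).const_mul (4 * (M + 1))).fun_sub ((hasDerivAt_id s).fun_pow 2))
    (fun s _ => by simpa using ((hasDerivAt_id s).const_mul 2).const_sub (4 * (M + 1)))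
    (fun s hs => by simp only [mem_Iio] at hs; linarith)
    (fun t ht => by have := hM' t (ball_subset_closedBall ht); linarith)
  have c1 : ContinuousOn (fun w : ℍ => F w - F z) (closedBall z ρ) := hs.sub continuousOn_const
  have c2 : ContinuousOn (fun w : ℍ => (F w - F z) ^ 2) (closedBall z ρ) := c1.pow 2
  have e : ∀ w : ℍ, 4 * (M + 1) * F w - F w ^ 2 - (4 * (M + 1) * F z - F z ^ 2) =
      (4 * (M + 1) - 2 * F z) * (F w - F z) - (F w - F z) ^ 2 := fun w => by ring
  simp only [e] at h1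
  rw [integral_sub (intOn (c1.const_mul _)) (intOn c2), integral_const_mul] at h1
  have h2 : ∫ w in ball z ρ, (F w - F z) ^ 2 = 0 :=
    le_antisymm (by nlinarith only [hc, Mz, M0, h1]) (integral_nonneg fun _ => sq_nonneg _)
  rw [integral_eq_zero_iff_of_nonneg (fun _ => sq_nonneg _) (intOn c2)] at h2
  have := volPos
  have h3 := Measure.eqOn_open_of_ae_eq h2 isOpen_ball (c2.mono ball_subset_closedBall)
    continuousOn_const
  refine hn ?_
  filter_upwards [nhds_ball (mem_ball_self hρ)]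
  rintro _ ⟨y, hy, rfl⟩
  exact sub_eq_zero.1 (pow_eq_zero_iff two_ne_zero |>.1 (h3 hy))

end Pool.Agent.MP_596265_gt.Sub
end

section
/-! The mixing measure and the sign of the symbol. -/

namespace Pool.Agent.MP_596265_gt.En

open MeasureTheory Filter Topology Set Metric UpperHalfPlane
open scoped RealInnerProductSpace

theorem gamm : GAM_s := by
  have mg : Measurable fun l : ℝ => (Sub.gam l).toNNReal := by
    unfold Sub.gam; fun_prop
  have ms : Measurable fun l : ℝ => √(2 * l) := by fun_prop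
  have e : ∀ l ∈ Ioi (0 : ℝ), ∀ t : ℝ, (Sub.gam l).toNNReal • t = Sub.gam l * t := fun l hl t => by
    rw [NNReal.smul_def, Real.coe_toNNReal _ (Sub.gam_nonneg (le_of_lt hl)), smul_eq_mul]
  have e2 : ∀ l ∈ Ioi (0 : ℝ), √(2 * l) ^ 2 = 2 * l := fun l hl =>
    Real.sq_sqrt (mul_nonneg zero_le_two (le_of_lt hl))
  have h0 := (Sub.gam_exp le_rfl).1
  simp only [mul_zero, neg_zero, Real.exp_zero, mul_one] at h0
  have hf : IsFiniteMeasure ((volume.restrict (Ioi (0 : ℝ))).withDensity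
      fun l => ((Sub.gam l).toNNReal : ENNReal)) := isFiniteMeasure_withDensity_ofReal h0.2
  refine ⟨((volume.restrict (Ioi (0 : ℝ))).withDensity
      fun l => ((Sub.gam l).toNNReal : ENNReal)).map fun l => √(2 * l), 1,
    inferInstance, ?_, ?_, one_pos, fun y hy => ?_⟩
  · rw [ae_map_iff ms.aemeasurable measurableSet_Ioi]
    refine (withDensity_absolutelyContinuous _ _).ae_le ?_
    filter_upwards [ae_restrict_mem measurableSet_Ioi] with l hl
    exact Real.sqrt_pos.2 (mul_pos two_pos hl)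
  · rw [integrable_map_measure (by fun_prop) ms.aemeasurable,
      integrable_withDensity_iff_integrable_smul mg]
    refine IntegrableOn.congr_fun ((Real.GammaIntegral_convergent (s := 5 / 4)
      (by norm_num)).const_mul (2 / Real.Gamma (1 / 4))) (fun l hl => ?_) measurableSet_Ioi
    have : l ^ ((5 / 4 : ℝ) - 1) = l ^ (-(3 / 4) : ℝ) * l := by
      rw [← Real.rpow_add_one (ne_of_gt hl)]; norm_num
    simp only [Function.comp, e l hl, e2 l hl, this]
    rw [Sub.gam]
    ring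
  · rw [integral_map ms.aemeasurable (by fun_prop), integral_withDensity_eq_integral_smul mg,
      one_mul, ← (Sub.gam_exp hy).2]
    refine setIntegral_congr_fun measurableSet_Ioi fun l hl => ?_
    simp only [e l hl, e2 l hl]
    congr 2
    ring

namespace SYM

lemma cont_ball {P : Type*} [TopologicalSpace P] [FirstCountableTopology P] {f : P → ℍ → ℝ}
    {c : P → ℍ} {p₀ : P} {ρ B : ℝ} (hB : 0 ≤ B) (hc : ContinuousAt c p₀)
    (hb : ∀ᶠ p in 𝓝 p₀, ContinuousOn (f p) (ball (c p) ρ) ∧ ∀ w ∈ ball (c p) ρ, |f p w| ≤ B)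
    (hf : ∀ w ∈ ball (c p₀) ρ, ContinuousAt (fun p => f p w) p₀) :
    ContinuousAt (fun p => ∫ w in ball (c p) ρ, f p w) p₀ := by
  simp only [← integral_indicator measurableSet_ball]
  refine continuousAt_of_dominated
    (bound := (closedBall (c p₀) (ρ + 1)).indicator fun _ => B) ?_ ?_ ?_ ?_
  · filter_upwards [hb] with p hp
    exact (aestronglyMeasurable_indicator_iff measurableSet_ball).2
      (hp.1.aestronglyMeasurable measurableSet_ball)
  · filter_upwards [hb, hc (ball_mem_nhds _ one_pos)] with p hp hd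
    refine .of_forall fun w => ?_
    by_cases hw : w ∈ ball (c p) ρ
    · have : w ∈ closedBall (c p₀) (ρ + 1) :=
        (dist_triangle w (c p) (c p₀)).trans (add_le_add (le_of_lt hw) (le_of_lt hd))
      rw [indicator_of_mem hw, indicator_of_mem this]
      exact hp.2 w hw
    · rw [indicator_of_notMem hw, norm_zero]
      exact indicator_nonneg (fun _ _ => hB) _
  · exact (continuousOn_const.integrableOn_compact
      (isCompact_closedBall _ _)).integrable_indicator measurableSet_closedBall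
  · filter_upwards [measure_eq_zero_iff_ae_notMem.1 (Sub.sphere_null (c p₀) ρ)] with w hw
    have hd : ContinuousAt (fun p => dist w (c p)) p₀ := continuousAt_const.dist hc
    rcases lt_or_gt_of_ne hw with h | h
    · refine (hf w h).congr ?_
      filter_upwards [hd.eventually_lt continuousAt_const h] with p hp
      exact (indicator_of_mem (show w ∈ ball (c p) ρ from hp) _).symm
    · refine (continuousAt_const (y := (0 : ℝ))).congr ?_
      filter_upwards [continuousAt_const.eventually_lt hd h] with p hp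
      exact (indicator_of_notMem (show w ∉ ball (c p) ρ from not_lt.2 (le_of_lt hp)) _).symm

variable {V : Type} [NormedAddCommGroup V] [InnerProductSpace ℝ V] [FiniteDimensional ℝ V]
  [MeasurableSpace V] [BorelSpace V] {J : Type} [Fintype J] {S : J → Set V}
  {O N : J → Set (V × ℂ)} {T : J → V × ℂ → V →L[ℝ] V} {a : J → V × ℂ → ℝ} {ρ : ℝ}

lemma q_nonneg (h : Sys S O N T a ρ) {j : J} {q : V × ℂ} (hq : q ∈ N j) (ξ : V) :
    0 ≤ ⟪T j q ξ, ξ⟫ := by
  by_cases h0 : ξ = 0
  · simp [h0]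
  · exact (h.pT j q (h.NO j hq) ξ h0).le

lemma q_bd (h : Sys S O N T a ρ) (j : J) :
    ∃ M, 0 ≤ M ∧ ∀ q ∈ N j, ∀ ξ, ⟪T j q ξ, ξ⟫ ≤ M * ‖ξ‖ ^ 2 := by
  obtain ⟨M, hM⟩ := (h.cN j).exists_bound_of_continuousOn ((h.cT j).continuousOn.mono (h.NO j))
  refine ⟨max M 0, le_max_right _ _, fun q hq ξ => ?_⟩
  calc _ ≤ ‖T j q ξ‖ * ‖ξ‖ := real_inner_le_norm _ _
    _ ≤ max M 0 * ‖ξ‖ * ‖ξ‖ := by
      gcongr; exact (T j q).le_of_opNorm_le ((hM q hq).trans (le_max_left _ _)) ξ
    _ = _ := by ring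

lemma q_cont (h : Sys S O N T a ρ) {j : J} {P : Type*} [TopologicalSpace P] {q : P → V × ℂ}
    {ξ : P → V} {p : P} (hq : ContinuousAt q p) (hξ : ContinuousAt ξ p) (hN : q p ∈ N j) :
    ContinuousAt (fun p => ⟪T j (q p) (ξ p), ξ p⟫) p :=
  ((((h.cT j).continuousOn.continuousAt ((h.oO j).mem_nhds (h.NO j hN))).comp hq).clm_apply
    hξ).inner hξ

/-- The inner integral. -/
noncomputable def II (T : V × ℂ → V →L[ℝ] V) (ρ : ℝ) (φ : ℝ → ℝ) (p : (V × ℍ) × V) : ℝ :=
  ∫ w in ball p.1.2 ρ, (φ ⟪T (p.1.1, w) p.2, p.2⟫ - φ ⟪T (p.1.1, p.1.2) p.2, p.2⟫)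

lemma contII (h : Sys S O N T a ρ) {j : J} {φ : ℝ → ℝ} (hφ : ∀ y ≥ 0, ContinuousAt φ y)
    {p₀ : (V × ℍ) × V} (h0 : a j (p₀.1.1, p₀.1.2) ≠ 0) : ContinuousAt (II (T j) ρ φ) p₀ := by
  obtain ⟨M, M0, hM⟩ := q_bd h j
  obtain ⟨B, hB⟩ := (isCompact_Icc (a := (0 : ℝ))
    (b := M * (‖p₀.2‖ + 1) ^ 2)).exists_bound_of_continuousOn
    fun y hy => (hφ y hy.1).continuousWithinAt
  have B0 : 0 ≤ B := (norm_nonneg _).trans (hB 0 ⟨le_rfl, by positivity⟩)
  have cc : Continuous fun p : (V × ℍ) × V => (p.1.1, (p.1.2 : ℂ)) :=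
    continuous_fst.fst.prodMk (continuous_coe.comp continuous_fst.snd)
  have n0 := h.aN j _ h0
  refine cont_ball (c := fun p : (V × ℍ) × V => p.1.2) (B := B + B) (add_nonneg B0 B0)
    continuous_fst.snd.continuousAt ?_ fun w hw => ?_
  · filter_upwards [((h.ca j).continuous.comp cc).continuousAt.eventually_ne h0,
      continuous_snd.norm.continuousAt.eventually_lt continuousAt_const
        (lt_add_one ‖p₀.2‖)] with p hp hn
    have b : ∀ q ∈ N j, |φ ⟪T j q p.2, p.2⟫| ≤ B := fun q hq =>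
      hB _ ⟨q_nonneg h hq _, (hM q hq _).trans (by gcongr)⟩
    refine ⟨fun w hw => ?_, fun w hw => (abs_sub _ _).trans
      (add_le_add (b _ (h.step j _ _ w hp (le_of_lt hw))) (b _ (h.aN j _ hp)))⟩
    have n := h.step j _ _ w hp (le_of_lt hw)
    exact (((hφ _ (q_nonneg h n _)).comp_of_eq (q_cont h (q := fun w : ℍ => (p.1.1, (w : ℂ)))
      (continuous_const.prodMk continuous_coe).continuousAt continuousAt_const n) rfl).sub
      continuousAt_const).continuousWithinAt
  · have n := h.step j _ _ w h0 (le_of_lt hw)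
    exact ((hφ _ (q_nonneg h n _)).comp_of_eq (q_cont h
      (q := fun p : (V × ℍ) × V => (p.1.1, (w : ℂ)))
      (continuous_fst.fst.prodMk continuous_const).continuousAt continuousAt_snd n) rfl).sub
      ((hφ _ (q_nonneg h n0 _)).comp_of_eq (q_cont h cc.continuousAt continuousAt_snd n0) rfl)

lemma data (h : Sys S O N T a ρ) {j : J} {x ξ : V} {z : ℍ} (h0 : a j (x, z) ≠ 0) (hξ : ξ ≠ 0) :
    ContinuousOn (fun w : ℂ => ⟪T j (x, w) ξ, ξ⟫) (((↑) : ℍ → ℂ) '' closedBall z ρ) ∧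
      ∀ t ∈ ball z ρ, Sub.Hod (fun w : ℂ => ⟪T j (x, w) ξ, ξ⟫) (t : ℍ) := by
  refine ⟨?_, fun t ht => ?_⟩
  · rintro _ ⟨w, hw, rfl⟩
    exact (q_cont h (q := fun w : ℂ => (x, w)) (by fun_prop) continuousAt_const
      (h.step j _ _ w h0 hw)).continuousWithinAt
  · have n := h.NO j (h.step j _ _ t h0 (le_of_lt ht))
    exact Sub.hod_of_lt (h.lt j _ n ξ hξ) (h.pT j _ n ξ hξ)

lemma key (h : Sys S O N T a ρ) (j : J) : ∃ κ > 0, ∀ x (z : ℍ) ξ, a j (x, z) ≠ 0 → ξ ≠ 0 →
    0 ≤ II (T j) ρ id ((x, z), ‖ξ‖⁻¹ • ξ) ∧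
    II (T j) ρ (fun y => (1 + y) ^ (-(1 / 4) : ℝ)) ((x, z), ξ) ≤
      -(κ * (‖ξ‖ ^ 2 / (1 + ‖ξ‖ ^ 2) ^ 2) * II (T j) ρ id ((x, z), ‖ξ‖⁻¹ • ξ)) := by
  obtain ⟨M, M0, hM⟩ := q_bd h j
  refine ⟨3 / 512 / (M + 1) ^ 2, by positivity, fun x z ξ h0 hξ => ?_⟩
  have n0 : 0 < ‖ξ‖ := norm_pos_iff.2 hξ
  obtain ⟨η, hη⟩ : ∃ η, η = ‖ξ‖⁻¹ • ξ := ⟨_, rfl⟩
  have n1 : ‖η‖ = 1 := hη ▸ norm_smul_inv_norm hξ
  have e : ∀ A : V →L[ℝ] V, ⟪A ξ, ξ⟫ = ‖ξ‖ ^ 2 * ⟪A η, η⟫ := fun A => by
    rw [hη, map_smul, real_inner_smul_left, real_inner_smul_right]; field_simp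
  obtain ⟨d1, d2⟩ := data h h0 (norm_ne_zero_iff.1 (n1 ▸ one_ne_zero) : η ≠ 0)
  have g0 := Sub.ball_nonneg d1 d2
  have g1 := Sub.ball_gain (M := M) d1 d2 (fun t ht => ⟨q_nonneg h (h.step j _ _ t h0 ht) _, by
    simpa [n1] using hM _ (h.step j _ _ t h0 ht) η⟩) (pow_pos n0 2)
  rw [← hη]
  refine ⟨g0, ?_⟩
  have e1 : II (T j) ρ (fun y => (1 + y) ^ (-(1 / 4) : ℝ)) ((x, z), ξ) =
      -∫ w in ball z ρ, (Sub.ph (‖ξ‖ ^ 2 * ⟪T j (x, w) η, η⟫) -
        Sub.ph (‖ξ‖ ^ 2 * ⟪T j (x, z) η, η⟫)) := by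
    rw [← integral_neg]
    refine integral_congr_ae (.of_forall fun w => ?_)
    simp only [e, Sub.ph]
    ring
  rw [e1, neg_le_neg_iff]
  refine le_trans (mul_le_mul_of_nonneg_right ?_ g0) g1
  have s0 := sq_nonneg ‖ξ‖
  generalize ‖ξ‖ ^ 2 = s at s0
  have b1 : 1 ≤ 1 + s * (M + 1) := le_add_of_nonneg_right (by positivity)
  have b2 : (((M + 1) * (1 + s)) ^ 2)⁻¹ ≤ (1 + s * (M + 1)) ^ (-(5 / 4) : ℝ) := by
    refine le_trans ?_ (Real.rpow_le_rpow_of_exponent_le b1 (show (-2 : ℝ) ≤ _ by norm_num))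
    rw [Real.rpow_neg (by positivity), Real.rpow_two]
    gcongr
    linarith only [M0]
  calc _ = 3 / 512 * s * (((M + 1) * (1 + s)) ^ 2)⁻¹ := by field_simp
    _ ≤ _ := by gcongr

lemma intg (h : Sys S O N T a ρ) (j : J) (x ξ : V) : Integrable fun z : ℍ =>
    a j (x, z) * II (T j) ρ (fun y => (1 + y) ^ (-(1 / 4) : ℝ)) ((x, z), ξ) := by
  obtain ⟨A, hA⟩ := (h.cN j).exists_bound_of_continuousOn (h.ca j).continuous.continuousOn
  have hK : IsCompact (((↑) : ℍ → ℂ) ⁻¹' (Prod.snd '' N j)) :=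
    isOpenEmbedding_coe.isInducing.isCompact_preimage' ((h.cN j).image continuous_snd) (by
      rintro _ ⟨q, hq, rfl⟩
      exact ⟨⟨q.2, h.imO j q (h.NO j hq)⟩, rfl⟩)
  have ca : Continuous fun z : ℍ => a j (x, z) :=
    (h.ca j).continuous.comp (continuous_const.prodMk continuous_coe)
  have hU : MeasurableSet {z : ℍ | a j (x, z) ≠ 0} :=
    (isOpen_ne_fun ca continuous_const).measurableSet
  refine IntegrableOn.integrable_of_forall_notMem_eq_zero
    (Measure.integrableOn_of_bounded (M := |A| * (2 * volume.real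
      (((↑) : ℍ → ℂ) ⁻¹' (Prod.snd '' N j)))) hK.measure_ne_top ?_ (.of_forall fun z => ?_))
    fun z hz => ?_
  · refine ((aestronglyMeasurable_indicator_iff hU).2 (ContinuousOn.aestronglyMeasurable
      (f := fun z : ℍ => a j (x, z) * II (T j) ρ (fun y => (1 + y) ^ (-(1 / 4) : ℝ)) ((x, z), ξ))
      (fun z hz => ?_) hU)).congr (.of_forall fun z => ?_)
    · refine (ca.continuousAt.mul ((contII h (fun y hy => ?_) (p₀ := ((x, z), ξ)) hz).comp_of_eq
        (f := fun z : ℍ => ((x, z), ξ)) (by fun_prop) rfl)).continuousWithinAt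
      exact (continuousAt_const.add continuousAt_id).rpow_const
        (Or.inl (add_pos_of_pos_of_nonneg one_pos hy).ne')
    · by_cases hz : a j (x, z) = 0 <;> simp [indicator, hz]
  · by_cases hz : a j (x, z) = 0
    · rw [hz, zero_mul, norm_zero]; positivity
    have sb : ball z ρ ⊆ ((↑) : ℍ → ℂ) ⁻¹' (Prod.snd '' N j) := fun w hw =>
      ⟨_, h.step j _ _ w hz (le_of_lt hw), rfl⟩
    have b : ∀ q ∈ N j, |(1 + ⟪T j q ξ, ξ⟫) ^ (-(1 / 4) : ℝ)| ≤ 1 := fun q hq => by
      have := q_nonneg h hq ξ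
      rw [abs_of_nonneg (by positivity)]
      exact Real.rpow_le_one_of_one_le_of_nonpos (by linarith) (by norm_num)
    rw [norm_mul]
    refine mul_le_mul ((hA _ (h.aN j _ hz)).trans (le_abs_self _)) ?_ (norm_nonneg _)
      (abs_nonneg _)
    refine (norm_setIntegral_le_of_norm_le_const (C := 2)
      ((measure_mono sb).trans_lt hK.measure_lt_top) fun w hw => (abs_sub _ _).trans ?_).trans ?_
    · linarith [b _ (h.step j _ _ w hz (le_of_lt hw)), b _ (h.aN j _ hz)]
    · exact mul_le_mul_of_nonneg_left (measureReal_mono sb hK.measure_ne_top) zero_le_two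
  · by_cases h0 : a j (x, z) = 0
    · rw [h0, zero_mul]
    · exact absurd ⟨_, h.aN j _ h0, rfl⟩ hz

end SYM

open SYM

variable (V : Type) [NormedAddCommGroup V] [InnerProductSpace ℝ V] [FiniteDimensional ℝ V]
  [MeasurableSpace V] [BorelSpace V]

theorem sym' : SYM_s V := by
  intro J _ S O N T a ρ h j
  obtain ⟨κ, κ0, hκ⟩ := key h j
  have pw : ∀ x ξ (z : ℍ),
      a j (x, z) * II (T j) ρ (fun y => (1 + y) ^ (-(1 / 4) : ℝ)) ((x, z), ξ) ≤ 0 := by
    intro x ξ z
    by_cases h0 : a j (x, z) = 0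
    · rw [h0, zero_mul]
    by_cases hξ : ξ = 0
    · simp [II, hξ]
    obtain ⟨k1, k2⟩ := hκ x z ξ h0 hξ
    exact mul_nonpos_of_nonneg_of_nonpos (h.a0 j _) (k2.trans (neg_nonpos.2 (by positivity)))
  refine ⟨fun x ξ => integral_nonpos (pw x ξ), fun x₀ z₀ h0 hn => ?_⟩
  have ev : ∀ᶠ u : (V × ℍ) × ℝ in 𝓝 ((x₀, z₀), 0), ∀ η ∈ sphere (0 : V) 1,
      u.2 < a j (u.1.1, u.1.2) * II (T j) ρ id (u.1, η) := by
    refine (isCompact_sphere (0 : V) 1).eventually_forall_of_forall_eventually fun η hη => ?_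
    have η0 : η ≠ 0 := ne_zero_of_mem_unit_sphere ⟨η, hη⟩
    obtain ⟨d1, d2⟩ := data h h0 η0
    have p := Sub.ball_pos h.ρ_pos d1 d2
      (fun t ht => q_nonneg h (h.step j _ _ t h0 ht) _) (hn η η0)
    refine ContinuousAt.eventually_lt (f := fun u : ((V × ℍ) × ℝ) × V => u.1.2)
      (g := fun u : ((V × ℍ) × ℝ) × V =>
        a j (u.1.1.1, u.1.1.2) * II (T j) ρ id (u.1.1, u.2)) (by fun_prop) ?_
      (mul_pos (lt_of_le_of_ne (h.a0 j _) (Ne.symm h0)) p)
    exact ((h.ca j).continuous.comp (continuous_fst.fst.fst.prodMk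
      (continuous_coe.comp continuous_fst.fst.snd))).continuousAt.mul
      ((contII h (fun y _ => continuousAt_id) (p₀ := ((x₀, z₀), η)) h0).comp_of_eq
        (f := fun u : ((V × ℍ) × ℝ) × V => (u.1.1, u.2)) (by fun_prop) rfl)
  obtain ⟨r, r0, hr⟩ := Metric.eventually_nhds_iff.1 ev
  have := Sub.volPos
  have fin : volume (ball z₀ r) ≠ ⊤ := measure_ball_lt_top.ne
  have v0 : 0 < volume.real (ball z₀ r) :=
    ENNReal.toReal_pos (measure_ball_pos _ _ r0).ne' fin
  refine ⟨r, r0, κ * (r / 2) * volume.real (ball z₀ r), by positivity, fun x hx ξ => ?_⟩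
  by_cases hξ : ξ = 0
  · simp [symb, hξ]
  obtain ⟨t, ht⟩ : ∃ t, t = ‖ξ‖ ^ 2 / (1 + ‖ξ‖ ^ 2) ^ 2 := ⟨_, rfl⟩
  have t0 : 0 ≤ t := by rw [ht]; positivity
  refine (integral_mono (intg h j x ξ) (g := (ball z₀ r).indicator fun _ => -(κ * t * (r / 2)))
    ((integrableOn_const fin).integrable_indicator measurableSet_ball) fun z => ?_).trans ?_
  · by_cases hz : z ∈ ball z₀ r
    · rw [indicator_of_mem hz]
      have k := hr (y := ((x, z), r / 2)) (by
        simp only [Prod.dist_eq, max_lt_iff, dist_zero_right, Real.norm_eq_abs]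
        exact ⟨⟨hx, hz⟩, by rw [abs_of_pos (half_pos r0)]; exact half_lt_self r0⟩)
        (‖ξ‖⁻¹ • ξ) (mem_sphere_zero_iff_norm.2 (norm_smul_inv_norm hξ))
      have a0 : a j (x, z) ≠ 0 := fun e => by
        simp only [e, zero_mul] at k; linarith
      have k2 := mul_le_mul_of_nonneg_left (hκ x z ξ a0 hξ).2 (h.a0 j (x, z))
      have k3 := mul_le_mul_of_nonneg_left k.le (mul_nonneg κ0.le t0)
      rw [← ht] at k2
      simp only at k3
      linarith only [k2, k3]
    · rw [indicator_of_notMem hz]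
      exact pw x ξ z
  · rw [integral_indicator measurableSet_ball, setIntegral_const, ← ht, smul_eq_mul]
    exact le_of_eq (by ring)

theorem sym (_hZ : ZY_s V) : SYM_s V := sym' V

end Pool.Agent.MP_596265_gt.En
end

section
/-! Energy lemmas E1, E4: lower bound of the energy and local constancy. -/

namespace Pool.Agent.MP_596265_gt.En

open MeasureTheory Filter Topology Set
open scoped RealInnerProductSpace

namespace E14

variable {V : Type*} [NormedAddCommGroup V] [InnerProductSpace ℝ V] [FiniteDimensional ℝ V]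
  [MeasurableSpace V] [BorelSpace V] {Ω Ω' : Type*} [MeasurableSpace Ω] [MeasurableSpace Ω']

/-- the translation modulus in `L¹` -/
noncomputable def mo (G : V → ℝ) (h : V) : ℝ := ∫ x, |G (x + h) - G x|

theorem mo_zero (G : V → ℝ) : mo G 0 = 0 := by simp [mo]

theorem mo_nonneg (G : V → ℝ) (h : V) : 0 ≤ mo G h := integral_nonneg fun _ => abs_nonneg _

theorem mo_le {G : V → ℝ} (hG : Integrable G) (h : V) : mo G h ≤ 2 * ∫ x, |G x| := by
  have h1 : Integrable fun x => G (x + h) := hG.comp_add_right h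
  calc mo G h ≤ ∫ x, (|G (x + h)| + |G x|) :=
        integral_mono (h1.sub hG).abs (h1.abs.add hG.abs) fun x => abs_sub _ _
    _ = 2 * ∫ x, |G x| := by
        rw [integral_add h1.abs hG.abs, integral_add_right_eq_self (fun x => |G x|) h]; ring

theorem mo_cont {G : V → ℝ} (hG : Integrable G) : Continuous (mo G) := by
  let g : C(V, C(V, V)) := (ContinuousMap.mk (fun a : V × V => a.2 + a.1) (by fun_prop)).curry
  have hg : ∀ z, MeasurePreserving (g z) (volume : Measure V) volume := fun z =>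
    measurePreserving_add_right volume z
  have h1 : Continuous fun z : V => Lp.compMeasurePreserving (g z) (hg z) (hG.toL1 G) :=
    Continuous.compMeasurePreservingLp continuous_const g.continuous hg (by simp)
  have h2 : mo G = fun z => ‖Lp.compMeasurePreserving (g z) (hg z) (hG.toL1 G) - hG.toL1 G‖ := by
    funext z
    rw [L1.norm_eq_integral_norm]
    refine integral_congr_ae ?_
    have a1 := Lp.coeFn_sub (Lp.compMeasurePreserving (g z) (hg z) (hG.toL1 G)) (hG.toL1 G)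
    have a2 := Lp.coeFn_compMeasurePreserving (hG.toL1 G) (hg z)
    have a3 := hG.coeFn_toL1
    have a4 := (hg z).quasiMeasurePreserving.ae_eq_comp a3
    filter_upwards [a1, a2, a3, a4] with x b1 b2 b3 b4
    rw [b1, Pi.sub_apply, b2, b3, b4]
    rfl
  rw [h2]
  exact (h1.sub continuous_const).norm

/-- the Gaussian -/
noncomputable def ga (b : ℝ) (y : V) : ℝ := Real.exp (-b * ‖y‖ ^ 2)

theorem ga_pos (b : ℝ) (y : V) : 0 < ga b y := Real.exp_pos _

theorem ga_cont (b : ℝ) : Continuous (ga b : V → ℝ) := by unfold ga; fun_prop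

theorem ga_le_one {b : ℝ} (hb : 0 ≤ b) (y : V) : ga b y ≤ 1 :=
  Real.exp_le_one_iff.2 (by nlinarith only [hb])

theorem ga_neg (b : ℝ) (y : V) : ga b (-y) = ga b y := by simp [ga]

theorem ga_int {b : ℝ} (hb : 0 < b) : Integrable (ga b : V → ℝ) := by
  have := (GaussianFourier.integrable_cexp_neg_mul_sq_norm_add (V := V) (b := b)
    (by simpa using hb) 0 0).norm
  refine this.congr (ae_of_all _ fun y => ?_)
  simp only [ga, zero_mul, add_zero, Complex.norm_exp]
  norm_cast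

theorem ga_cos {b : ℝ} (hb : 0 < b) (w : V) :
    ∫ v, ga b v * Real.cos ⟪w, v⟫ = (∫ v : V, ga b v) * ga (1 / (4 * b)) w := by
  have hb' : 0 < (b : ℂ).re := by simpa using hb
  have h1 := GaussianFourier.integral_cexp_neg_mul_sq_norm_add (V := V) hb' Complex.I w
  have h2 := GaussianFourier.integrable_cexp_neg_mul_sq_norm_add (V := V) hb' Complex.I w
  have h3 := GaussianFourier.integral_cexp_neg_mul_sq_norm (V := V) hb'
  have h4 : ((∫ v : V, ga b v : ℝ) : ℂ) = ∫ v : V, Complex.exp (-b * ‖v‖ ^ 2) := by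
    rw [← integral_complex_ofReal]
    refine integral_congr_ae (ae_of_all _ fun v => ?_)
    simp [ga]
  rw [← h3, ← h4] at h1
  have h5 := congrArg Complex.re h1
  rw [← RCLike.re_to_complex, ← integral_re h2] at h5
  have h6 : Complex.exp (Complex.I ^ 2 * (‖w‖ : ℂ) ^ 2 / (4 * b)) = (ga (1 / (4 * b)) w : ℝ) := by
    simp only [ga, Complex.I_sq]
    push_cast
    congr 1
    ring
  rw [h6, ← Complex.ofReal_mul, Complex.ofReal_re] at h5
  rw [← h5]
  refine integral_congr_ae (ae_of_all _ fun v => ?_)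
  simp only [RCLike.re_to_complex, Complex.exp_re, ga]
  congr 2
  · simp [← Complex.ofReal_pow]
  · simp [← Complex.ofReal_pow]

theorem ga_int_pos {b : ℝ} (hb : 0 < b) : 0 < ∫ v : V, ga b v := by
  unfold ga
  rw [GaussianFourier.integral_rexp_neg_mul_sq_norm hb]
  have := Real.pi_pos
  positivity

/-- autocorrelation -/
noncomputable def ac (G : V → ℝ) (h : V) : ℝ := ∫ x, G x * G (x + h)

theorem ac_prod {G : V → ℝ} (hG : Integrable G) :
    Integrable (fun p : V × V => G p.1 * G (p.1 + p.2)) (volume.prod volume) :=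
  (measurePreserving_prod_add (volume : Measure V) volume).integrable_comp_of_integrable
    (hG.mul_prod hG)

theorem ac_int {G : V → ℝ} (hG : Integrable G) : Integrable (ac G) :=
  (ac_prod hG).integral_prod_right

theorem ac_mul {G : V → ℝ} (hG : Integrable G) {B : ℝ} (hB : ∀ x, |G x| ≤ B) (h : V) :
    Integrable fun x => G x * G (x + h) :=
  (hG.comp_add_right h).bdd_mul hG.1 (c := B) (ae_of_all _ hB)

theorem ac_le {G : V → ℝ} (hG : Integrable G) {B : ℝ} (hB : ∀ x, |G x| ≤ B) (h : V) :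
    |ac G h| ≤ B * ∫ x, |G x| := by
  rw [mul_comm, ← integral_mul_const]
  refine (abs_integral_le_integral_abs).trans (integral_mono (ac_mul hG hB h).abs
    (hG.abs.mul_const B) fun x => ?_)
  simp only [abs_mul]
  exact mul_le_mul_of_nonneg_left (hB _) (abs_nonneg _)

theorem ac_cont {G : V → ℝ} (hG : Integrable G) {B : ℝ} (hB : ∀ x, |G x| ≤ B) :
    Continuous (ac G) := by
  refine continuous_iff_continuousAt.2 fun h => ?_
  rw [ContinuousAt, tendsto_iff_dist_tendsto_zero]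
  have h1 : Tendsto (fun u => B * mo G (u - h)) (𝓝 h) (𝓝 0) := by
    have : Continuous fun u => B * mo G (u - h) :=
      continuous_const.mul ((mo_cont hG).comp (by fun_prop))
    simpa [mo_zero] using this.tendsto h
  refine squeeze_zero (fun _ => dist_nonneg) (fun u => ?_) h1
  have e : mo G (u - h) = ∫ x, |G (x + u) - G (x + h)| := by
    rw [mo, ← integral_add_right_eq_self _ h]
    congr 1; funext x; congr 3; abel
  rw [Real.dist_eq, ac, ac, ← integral_sub (ac_mul hG hB u) (ac_mul hG hB h), e,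
    ← integral_const_mul]
  refine (abs_integral_le_integral_abs).trans (integral_mono
    ((ac_mul hG hB u).sub (ac_mul hG hB h)).abs
    (((hG.comp_add_right u).sub (hG.comp_add_right h)).abs.const_mul B) fun x => ?_)
  simp only [← mul_sub, abs_mul]
  exact mul_le_mul_of_nonneg_right (hB _) (abs_nonneg _)

theorem int_mul_bd {α : Type*} [MeasurableSpace α] {μ : Measure α} {G c : α → ℝ}
    (hG : Integrable G μ) (hc : AEStronglyMeasurable c μ) (h1 : ∀ x, |c x| ≤ 1) :
    Integrable (fun x => G x * c x) μ :=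
  hG.mul_bdd hc (c := 1) (ae_of_all _ h1)

/-- the power spectrum -/
noncomputable def pw (G : V → ℝ) (η : V) : ℝ :=
  (∫ x, G x * Real.cos ⟪η, x⟫) ^ 2 + (∫ x, G x * Real.sin ⟪η, x⟫) ^ 2

theorem ac_cos {G : V → ℝ} (hG : Integrable G) (η h : V) :
    ∫ u, ac G u * Real.cos ⟪u - h, η⟫ = pw G η * Real.cos ⟪η, h⟫ := by
  have ic : Integrable fun x => G x * Real.cos ⟪η, x⟫ :=
    int_mul_bd hG (by fun_prop) fun _ => Real.abs_cos_le_one _
  have is : Integrable fun x => G x * Real.sin ⟪η, x⟫ :=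
    int_mul_bd hG (by fun_prop) fun _ => Real.abs_sin_le_one _
  have h1 : Integrable (fun p : V × V => G p.1 * G (p.1 + p.2) * Real.cos ⟪p.2 - h, η⟫)
      (volume.prod volume) :=
    int_mul_bd (ac_prod hG) (by fun_prop) fun _ => Real.abs_cos_le_one _
  simp only [ac, ← integral_mul_const]
  rw [← integral_integral_swap (f := fun x u => G x * G (x + u) * Real.cos ⟪u - h, η⟫) h1]
  have h2 : ∀ x, ∫ u, G x * G (x + u) * Real.cos ⟪u - h, η⟫ =
      G x * Real.cos ⟪η, x⟫ * ((∫ x, G x * Real.cos ⟪η, x⟫) * Real.cos ⟪η, h⟫ +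
        (∫ x, G x * Real.sin ⟪η, x⟫) * Real.sin ⟪η, h⟫) +
      G x * Real.sin ⟪η, x⟫ * ((∫ x, G x * Real.sin ⟪η, x⟫) * Real.cos ⟪η, h⟫ -
        (∫ x, G x * Real.cos ⟪η, x⟫) * Real.sin ⟪η, h⟫) := fun x => by
    rw [← integral_sub_right_eq_self _ x]
    have : ∀ u, G x * G (x + (u - x)) * Real.cos ⟪u - x - h, η⟫ =
        G u * Real.cos ⟪η, u⟫ * (G x * Real.cos (⟪η, x⟫ + ⟪η, h⟫)) +
        G u * Real.sin ⟪η, u⟫ * (G x * Real.sin (⟪η, x⟫ + ⟪η, h⟫)) := fun u => by
      rw [add_sub_cancel, real_inner_comm, sub_sub, inner_sub_right, inner_add_right,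
        Real.cos_sub]
      ring
    simp only [this]
    rw [integral_add (ic.mul_const _) (is.mul_const _), integral_mul_const, integral_mul_const,
      Real.cos_add, Real.sin_add]
    ring
  simp only [h2]
  rw [integral_add (ic.mul_const _) (is.mul_const _), integral_mul_const, integral_mul_const, pw]
  ring

theorem pw_nonneg (G : V → ℝ) (η : V) : 0 ≤ pw G η := by unfold pw; positivity

theorem pw_le {G : V → ℝ} (hG : Integrable G) (η : V) : pw G η ≤ 2 * (∫ x, |G x|) ^ 2 := by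
  have key : ∀ c : V → ℝ, (∀ x, |c x| ≤ 1) → (∫ x, G x * c x) ^ 2 ≤ (∫ x, |G x|) ^ 2 := by
    intro c hc
    refine sq_le_sq' (neg_le_of_abs_le ?_) (le_of_abs_le ?_) <;>
    · refine (abs_integral_le_integral_abs).trans (integral_mono_of_nonneg
        (ae_of_all _ fun _ => abs_nonneg _) hG.abs (ae_of_all _ fun x => ?_))
      simp only [abs_mul]
      exact mul_le_of_le_one_right (abs_nonneg _) (hc x)
  have := key _ fun x => Real.abs_cos_le_one ⟪η, x⟫
  have := key _ fun x => Real.abs_sin_le_one ⟪η, x⟫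
  unfold pw; linarith

theorem pw_cont {G : V → ℝ} (hG : Integrable G) : Continuous (pw G) := by
  have key : ∀ c : ℝ → ℝ, Continuous c → (∀ x, |c x| ≤ 1) →
      Continuous fun η : V => ∫ x, G x * c ⟪η, x⟫ := fun c hc h1 =>
    continuous_of_dominated (bound := fun x => |G x|)
      (fun η => hG.1.mul (by fun_prop))
      (fun η => ae_of_all _ fun x => by
        rw [Real.norm_eq_abs, abs_mul]; exact mul_le_of_le_one_right (abs_nonneg _) (h1 _))
      hG.abs (ae_of_all _ fun x => by fun_prop)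
  exact ((key _ Real.continuous_cos Real.abs_cos_le_one).pow 2).add
    ((key _ Real.continuous_sin Real.abs_sin_le_one).pow 2)

theorem ac_ga {G : V → ℝ} (hG : Integrable G) {b : ℝ} (hb : 0 < b) (h : V) :
    (∫ v : V, ga b v) * ∫ u, ac G u * ga (1 / (4 * b)) (u - h) =
      ∫ η, ga b η * pw G η * Real.cos ⟪η, h⟫ := by
  have h1 : Integrable (fun p : V × V => ac G p.1 * ga b p.2 * Real.cos ⟪p.1 - h, p.2⟫)
      (volume.prod volume) :=
    int_mul_bd ((ac_int hG).mul_prod (ga_int hb)) (by fun_prop) fun _ => Real.abs_cos_le_one _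
  rw [← integral_const_mul]
  have h2 : ∀ u, (∫ v : V, ga b v) * (ac G u * ga (1 / (4 * b)) (u - h)) =
      ∫ η, ac G u * ga b η * Real.cos ⟪u - h, η⟫ := fun u => by
    simp only [mul_assoc]
    rw [integral_const_mul, ga_cos hb]; ring
  simp only [h2]
  rw [integral_integral_swap (f := fun u η => ac G u * ga b η * Real.cos ⟪u - h, η⟫) h1]
  congr 1; funext η
  rw [mul_assoc, ← ac_cos hG, ← integral_const_mul]
  congr 1; funext u; ring

theorem pd {m : Measure Ω} [SFinite m] {G : V → ℝ} (hG : Integrable G) {B : ℝ}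
    (hB : ∀ x, |G x| ≤ B) {κ : Ω → ℝ} (hκ : Integrable κ m) {d : Ω → V} (hd : Measurable d)
    (hpos : ∀ ξ, ∫ ω, κ ω * Real.cos ⟪ξ, d ω⟫ ∂m ≤ 0) : ∫ ω, ac G (d ω) * κ ω ∂m ≤ 0 := by
  have hc := ac_cont hG hB
  have g1 := ga_int (V := V) one_pos
  have gc := ga_cont (V := V)
  set C := B * ∫ x, |G x|
  let I : ℝ × V → ℝ := fun p => ∫ z, ac G (p.2 + p.1 • z) * ga 1 z
  have hb : ∀ (p : ℝ × V) z, ‖ac G (p.2 + p.1 • z) * ga 1 z‖ ≤ C * ga 1 z := fun p z => by
    rw [Real.norm_eq_abs, abs_mul, abs_of_pos (ga_pos 1 z)]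
    exact mul_le_mul_of_nonneg_right (ac_le hG hB _) (ga_pos 1 z).le
  have Ic : Continuous I := continuous_of_dominated (bound := fun z => C * ga 1 z)
    (fun p => by have := gc 1; fun_prop) (fun p => ae_of_all _ (hb p)) (g1.const_mul C)
    (ae_of_all _ fun z => by fun_prop)
  have Ib : ∀ p, |I p| ≤ ∫ z : V, C * ga 1 z := fun p =>
    norm_integral_le_of_norm_le (g1.const_mul C) (ae_of_all _ (hb p))
  have Jc : Continuous fun ε : ℝ => ∫ ω, I (ε, d ω) * κ ω ∂m :=
    continuous_of_dominated (bound := fun ω => (∫ z : V, C * ga 1 z) * |κ ω|)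
      (fun ε => ((Ic.measurable.comp (by fun_prop)).aestronglyMeasurable).mul hκ.1)
      (fun ε => ae_of_all _ fun ω => by
        rw [Real.norm_eq_abs, abs_mul]; exact mul_le_mul_of_nonneg_right (Ib _) (abs_nonneg _))
      (hκ.abs.const_mul _) (ae_of_all _ fun ω => by fun_prop)
  have Jn : ∀ ε : ℝ, 0 < ε → ∫ ω, I (ε, d ω) * κ ω ∂m ≤ 0 := fun ε hε => by
    have hb : 0 < ε ^ 2 / 4 := by positivity
    have p1 := ga_int_pos (V := V) hb
    have h1 : ∀ h, I (ε, h) = (|(ε ^ Module.finrank ℝ V)⁻¹| * (∫ v : V, ga (ε ^ 2 / 4) v)⁻¹) *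
        ∫ η, ga (ε ^ 2 / 4) η * pw G η * Real.cos ⟪η, h⟫ := fun h => by
      rw [← ac_ga hG hb, mul_assoc, inv_mul_cancel_left₀ p1.ne', ← smul_eq_mul,
        ← integral_add_left_eq_self _ h, ← Measure.integral_comp_smul]
      refine integral_congr_ae (ae_of_all _ fun z => ?_)
      simp only [add_sub_cancel_left, ga, norm_smul, Real.norm_eq_abs, mul_pow, sq_abs]
      congr 2
      field_simp
    simp only [h1, mul_assoc]
    rw [integral_const_mul, integral_const_mul]
    refine mul_nonpos_of_nonneg_of_nonpos (abs_nonneg _)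
      (mul_nonpos_of_nonneg_of_nonpos (inv_pos.2 p1).le ?_)
    have i1 : Integrable fun η : V => ga (ε ^ 2 / 4) η * pw G η :=
      (ga_int hb).mul_bdd (pw_cont hG).aestronglyMeasurable (c := 2 * (∫ x, |G x|) ^ 2)
        (ae_of_all _ fun η => by
          rw [Real.norm_eq_abs, abs_of_nonneg (pw_nonneg G η)]; exact pw_le hG η)
    have i2 : Integrable (fun p : Ω × V => κ p.1 * (ga (ε ^ 2 / 4) p.2 * pw G p.2) *
        Real.cos ⟪p.2, d p.1⟫) (m.prod volume) :=
      int_mul_bd (hκ.mul_prod i1) (Measurable.aestronglyMeasurable (by fun_prop))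
        fun _ => Real.abs_cos_le_one _
    have h2 : ∀ ω, (∫ η, ga (ε ^ 2 / 4) η * (pw G η * Real.cos ⟪η, d ω⟫)) * κ ω =
        ∫ η, κ ω * (ga (ε ^ 2 / 4) η * pw G η) * Real.cos ⟪η, d ω⟫ := fun ω => by
      rw [← integral_mul_const]; congr 1; funext η; ring
    simp only [h2]
    rw [integral_integral_swap (f := fun ω η => κ ω * (ga (ε ^ 2 / 4) η * pw G η) *
      Real.cos ⟪η, d ω⟫) i2]
    refine integral_nonpos fun η => ?_
    have h3 : ∫ ω, κ ω * (ga (ε ^ 2 / 4) η * pw G η) * Real.cos ⟪η, d ω⟫ ∂m =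
        (ga (ε ^ 2 / 4) η * pw G η) * ∫ ω, κ ω * Real.cos ⟪η, d ω⟫ ∂m := by
      rw [← integral_const_mul]; congr 1; funext ω; ring
    simp only [h3, Pi.zero_apply]
    exact mul_nonpos_of_nonneg_of_nonpos (mul_nonneg (ga_pos _ _).le (pw_nonneg _ _)) (hpos η)
  have J0 : ∫ ω, I (0, d ω) * κ ω ∂m ≤ 0 :=
    le_of_tendsto ((Jc.tendsto 0).mono_left (nhdsWithin_le_nhds (s := Ioi 0)))
      (eventually_mem_nhdsWithin.mono Jn)
  have h4 : ∀ ω, I (0, d ω) * κ ω = (∫ z : V, ga 1 z) * (ac G (d ω) * κ ω) := fun ω => by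
    simp only [I, zero_smul, add_zero]
    rw [integral_const_mul]; ring
  simp only [h4] at J0
  rw [integral_const_mul] at J0
  exact nonpos_of_mul_nonpos_right J0 (ga_int_pos one_pos)

theorem nile {α : Type*} [MeasurableSpace α] {μ : Measure α} {f g : α → ℝ} (hg : Integrable g μ)
    (h : ∀ x, |f x| ≤ g x) : |∫ x, f x ∂μ| ≤ ∫ x, g x ∂μ :=
  norm_integral_le_of_norm_le (f := f) hg (ae_of_all _ h)

theorem ga_two (y h : V) : |ga (1 / 2) (y + h) + ga (1 / 2) (y - h) - 2 * ga (1 / 2) y| ≤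
    4 * ‖h‖ ^ 2 := by
  have e1 : ga (1 / 2) (y + h) + ga (1 / 2) (y - h) =
      2 * ga (1 / 2) y * (ga (1 / 2) h * Real.cosh ⟪y, h⟫) := by
    simp only [ga, Real.cosh_eq, norm_add_sq_real, norm_sub_sq_real]
    have a : ∀ u : ℝ, Real.exp (-(1 / 2) * (‖y‖ ^ 2 + 2 * u + ‖h‖ ^ 2)) =
        Real.exp (-(1 / 2) * ‖y‖ ^ 2) * Real.exp (-(1 / 2) * ‖h‖ ^ 2) * Real.exp (-u) := fun u => by
      rw [← Real.exp_add, ← Real.exp_add]; congr 1; ring
    have b := a (-⟪y, h⟫)
    rw [neg_neg, mul_neg 2, ← sub_eq_add_neg] at b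
    rw [a, b]; ring
  have p1 := ga_pos (1 / 2) y
  have l1 := ga_le_one (V := V) (b := 1 / 2) (by norm_num)
  have hH := sq_nonneg ‖h‖
  have c1 := Real.one_le_cosh ⟪y, h⟫
  have p2 := ga_pos (1 / 2) h
  rw [abs_le]
  constructor
  · have h1 : 1 - ‖h‖ ^ 2 / 2 ≤ ga (1 / 2) h := by
      have := Real.add_one_le_exp (-(1 / 2) * ‖h‖ ^ 2); unfold ga; linarith only [this]
    have h2 : 1 - ‖h‖ ^ 2 / 2 ≤ ga (1 / 2) h * Real.cosh ⟪y, h⟫ := by nlinarith only [c1, p2, h1]
    rw [e1]; nlinarith only [l1 y, p1, h2]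
  · by_cases hh : 1 / 2 ≤ ‖h‖ ^ 2
    · linarith only [l1 (y + h), l1 (y - h), p1, hh]
    have hY := sq_nonneg ‖y‖
    have h1 : ⟪y, h⟫ ^ 2 ≤ ‖y‖ ^ 2 * ‖h‖ ^ 2 := by
      rw [← mul_pow]; exact sq_le_sq' (neg_le_of_abs_le (abs_real_inner_le_norm y h))
        (le_of_abs_le (abs_real_inner_le_norm y h))
    set Y := ‖y‖ ^ 2
    set H := ‖h‖ ^ 2
    have h2 : Real.cosh ⟪y, h⟫ ≤ Real.exp (Y * H / 2) :=
      (Real.cosh_le_exp_half_sq _).trans (Real.exp_le_exp.2 (by linarith only [h1]))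
    have h3 : Real.exp (Y * H / 2) - 1 ≤ Y * H / 2 * Real.exp (Y / 4) := by
      have a := Real.add_one_le_exp (-(Y * H / 2))
      have b : Real.exp (Y * H / 2) ≤ Real.exp (Y / 4) := Real.exp_le_exp.2 (by nlinarith only [hY, hh])
      have c : Real.exp (-(Y * H / 2)) * Real.exp (Y * H / 2) = 1 := by
        rw [← Real.exp_add]; simp
      have d := Real.exp_pos (Y * H / 2)
      have : 0 ≤ Y * H / 2 := by positivity
      nlinarith only [c1, h1, h2, a, b, c]
    have h4 : ga (1 / 2) y * (Y / 4 * Real.exp (Y / 4)) ≤ 1 := by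
      have a := Real.add_one_le_exp (Y / 4)
      have c : ga (1 / 2) y * (Real.exp (Y / 4) * Real.exp (Y / 4)) = 1 := by
        unfold ga; rw [← Real.exp_add, ← Real.exp_add, Real.exp_eq_one_iff]; simp only [Y]; ring
      have d := Real.exp_pos (Y / 4)
      refine le_of_le_of_eq ?_ c; gcongr; linarith only [a]
    have h5 : ga (1 / 2) h * Real.cosh ⟪y, h⟫ - 1 ≤ Y * H / 2 * Real.exp (Y / 4) := by
      nlinarith only [l1 h, c1, h2, h3]
    rw [e1]; nlinarith only [mul_le_mul_of_nonneg_left h5 p1.le, hH, h4]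

theorem ga_smul (b s : ℝ) (y : V) : ga b (s • y) = ga (b * s ^ 2) y := by
  simp only [ga, norm_smul, Real.norm_eq_abs, mul_pow, sq_abs]; congr 1; ring

theorem ga_two' {t : ℝ} (ht : 0 < t) (y h : V) :
    |ga (1 / (2 * t)) (y + h) + ga (1 / (2 * t)) (y - h) - 2 * ga (1 / (2 * t)) y| ≤
      4 / t * ‖h‖ ^ 2 := by
  have e : 1 / 2 * (√t)⁻¹ ^ 2 = 1 / (2 * t) := by
    rw [inv_pow, Real.sq_sqrt ht.le]; field_simp
  have := ga_two ((√t)⁻¹ • y) ((√t)⁻¹ • h)
  rw [← smul_add, ← smul_sub, ga_smul, ga_smul, ga_smul, e, norm_smul, mul_pow,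
    Real.norm_eq_abs, sq_abs, inv_pow, Real.sq_sqrt ht.le] at this
  refine this.trans (le_of_eq ?_)
  field_simp

theorem ga_scal {t : ℝ} (ht : 0 < t) (b : ℝ) (F : V → ℝ) :
    (∫ y : V, ga (1 / t) y)⁻¹ * ∫ y, F y * ga (b / t) y =
      (∫ y : V, ga 1 y)⁻¹ * ∫ z, F (√t • z) * ga b z := by
  have hs : 0 < √t := Real.sqrt_pos.2 ht
  have key : ∀ (b : ℝ) (F : V → ℝ), ∫ z, F (√t • z) * ga b z =
      (√t ^ Module.finrank ℝ V)⁻¹ * ∫ y, F y * ga (b / t) y := fun b F => by
    rw [← smul_eq_mul, ← Measure.integral_comp_smul_of_nonneg volume _ (√t) (hR := hs.le)]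
    simp only [ga_smul, Real.sq_sqrt ht.le, div_mul_cancel₀ b ht.ne']
  have k1 := key 1 fun _ => 1
  simp only [one_mul] at k1
  have := ga_int_pos (V := V) (one_div_pos.2 ht)
  rw [key, k1]
  field_simp

theorem win_prod {t : ℝ} (ht : 0 < t) (a h : V) :
    ga (1 / (2 * t)) a * ga (1 / (2 * t)) (a + h) =
      ga (1 / (4 * t)) h * ga (1 / t) (a + (1 / 2 : ℝ) • h) := by
  simp only [ga, ← Real.exp_add, norm_add_sq_real, inner_smul_right, norm_smul, mul_pow,
    Real.norm_eq_abs, sq_abs]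
  congr 1
  field_simp
  ring

/-- a dimensional constant -/
noncomputable def cV (V : Type*) [NormedAddCommGroup V] [InnerProductSpace ℝ V]
    [FiniteDimensional ℝ V] [MeasurableSpace V] [BorelSpace V] : ℝ :=
  (∫ y : V, ga 1 y)⁻¹ * ∫ z : V, ga (1 / 2) z

theorem cV_pos : 0 < cV V := mul_pos (inv_pos.2 (ga_int_pos one_pos)) (ga_int_pos (by norm_num))

theorem freeze {t : ℝ} (ht : 0 < t) {κ : V → ℝ} {w : ℝ} (hm : Measurable κ)
    (h0 : ∀ x, |κ x| ≤ w) (h1 : ∀ x y, |κ x - κ y| ≤ ‖x - y‖ * w)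
    (h2 : ∀ x h, |κ (x + h) + κ (x - h) - 2 * κ x| ≤ ‖h‖ ^ 2 * w) (x h : V) :
    |κ x - (∫ y : V, ga (1 / t) y)⁻¹ *
      ∫ c, ga (1 / (2 * t)) (x - c) * ga (1 / (2 * t)) (x + h - c) * κ c| ≤
      (‖h‖ / 2 + ‖h‖ ^ 2 / (4 * t) + t * cV V) * w := by
  have hw : 0 ≤ w := (abs_nonneg _).trans (h0 x)
  have p1 := ga_int_pos (V := V) (one_div_pos.2 ht)
  have g1 := ga_int (V := V) (one_div_pos.2 ht)
  have g2 := ga_int (V := V) (show 0 < 1 / 2 / t by positivity)
  set N := (∫ y : V, ga (1 / t) y)⁻¹ with hN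
  have N0 : 0 < N := inv_pos.2 p1
  have N1 : N * ∫ y : V, ga (1 / t) y = 1 := inv_mul_cancel₀ p1.ne'
  set z := x + (1 / 2 : ℝ) • h
  have ib : ∀ φ : V → V, Measurable φ → Integrable fun y => ga (1 / t) y * κ (φ y) := fun φ hφ =>
    g1.mul_bdd (hm.comp hφ).aestronglyMeasurable (c := w) (ae_of_all _ fun y => h0 _)
  have e1 : ∫ c, ga (1 / (2 * t)) (x - c) * ga (1 / (2 * t)) (x + h - c) * κ c =
      ga (1 / (4 * t)) h * ∫ y, ga (1 / t) y * κ (z - y) := by
    rw [← integral_const_mul, ← integral_sub_left_eq_self _ volume z]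
    congr 1; funext y
    have a : x + h - (z - y) = x - (z - y) + h := by abel
    rw [a, win_prod ht, mul_assoc]
    congr 3; simp only [z]; abel
  set a := N * ∫ y, ga (1 / t) y * κ (z - y) with ha
  have e2 : ∫ y, ga (1 / t) y * κ (z - y) = ∫ y, ga (1 / t) y * κ (z + y) := by
    rw [← integral_neg_eq_self]; simp [ga_neg]
  have b1 : |a| ≤ w := by
    rw [ha, abs_mul, abs_of_pos N0]
    refine (mul_le_mul_of_nonneg_left (nile (g1.mul_const w) fun y => ?_) N0.le).trans
      (by rw [integral_mul_const, ← mul_assoc, N1, one_mul])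
    rw [abs_mul, abs_of_pos (ga_pos _ _)]
    exact mul_le_mul_of_nonneg_left (h0 _) (ga_pos _ _).le
  have b2 : |2 * a - 2 * κ z| ≤ 2 * (t * cV V) * w := by
    have e3 : 2 * a - 2 * κ z = N * ∫ y, ga (1 / t) y * (κ (z + y) + κ (z - y) - 2 * κ z) := by
      simp only [mul_sub, mul_add]
      have j1 : Integrable fun y => ga (1 / t) y * κ (z + y) := ib _ (by fun_prop)
      have j2 : Integrable fun y => ga (1 / t) y * κ (z - y) := ib _ (by fun_prop)
      rw [integral_sub (by exact j1.add j2) (g1.mul_const _), integral_add j1 j2, ← e2,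
        integral_mul_const]
      linear_combination (2 * κ z) * N1
    have e4 : cV V = N * ∫ y : V, ga (1 / 2 / t) y := by
      simpa only [cV, one_mul] using (ga_scal (V := V) ht (1 / 2) fun _ => 1).symm
    rw [e3, abs_mul, abs_of_pos N0, e4]
    have : |∫ y, ga (1 / t) y * (κ (z + y) + κ (z - y) - 2 * κ z)| ≤
        ∫ y : V, ga (1 / 2 / t) y * (2 * t * w) := by
      refine nile (g2.mul_const _) fun y => ?_
      rw [abs_mul, abs_of_pos (ga_pos _ _)]
      have c1 : ga (1 / t) y * ‖y‖ ^ 2 ≤ ga (1 / 2 / t) y * (2 * t) := by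
        have u := Real.add_one_le_exp (‖y‖ ^ 2 / (2 * t))
        have v : ga (1 / 2 / t) y = ga (1 / t) y * Real.exp (‖y‖ ^ 2 / (2 * t)) := by
          unfold ga; rw [← Real.exp_add]; congr 1; field_simp; ring
        rw [v, mul_assoc]
        refine mul_le_mul_of_nonneg_left ?_ (ga_pos _ _).le
        rw [← div_le_iff₀ (by positivity)]; linarith only [u]
      calc _ ≤ ga (1 / t) y * (‖y‖ ^ 2 * w) :=
            mul_le_mul_of_nonneg_left (h2 z y) (ga_pos _ _).le
        _ ≤ _ := by linarith only [mul_le_mul_of_nonneg_right c1 hw]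
    rw [integral_mul_const] at this
    linarith only [mul_le_mul_of_nonneg_left this N0.le]
  have b3 : |κ x - κ z| ≤ ‖h‖ / 2 * w := by
    have := h1 x z
    rwa [show ‖x - z‖ = ‖h‖ / 2 by simp [z, norm_smul]; ring] at this
  have b4 : 1 - ‖h‖ ^ 2 / (4 * t) ≤ ga (1 / (4 * t)) h := by
    have := Real.add_one_le_exp (-(1 / (4 * t)) * ‖h‖ ^ 2)
    unfold ga; rw [div_eq_mul_one_div]; linarith only [this]
  have b5 := ga_le_one (V := V) (b := 1 / (4 * t)) (by positivity) h
  have b6 : |(1 - ga (1 / (4 * t)) h) * a| ≤ ‖h‖ ^ 2 / (4 * t) * w := by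
    rw [abs_mul, abs_of_nonneg (by linarith only [b5])]
    exact mul_le_mul (by linarith only [b4]) b1 (abs_nonneg _) (by positivity)
  rw [e1, mul_left_comm, ← ha]
  rw [abs_le] at b2 b3 b6 ⊢
  constructor <;> linarith only [b2.1, b2.2, b3.1, b3.2, b6.1, b6.2]

theorem small_term {m : Measure Ω} [SFinite m] {D : Ω → V} (hD : Measurable D) {κ W : Ω → ℝ}
    (hκ : Integrable κ m) {σ : Ω → Ω} (hσ : MeasurePreserving σ m m) (h1 : ∀ ω, D (σ ω) = -D ω)
    (h2 : ∀ ω, κ (σ ω) = κ ω) (h0 : ∫ ω, κ ω ∂m = 0) (hW : ∀ ω, |κ ω| ≤ W ω)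
    (iW : Integrable (fun ω => ‖D ω‖ ^ 2 * W ω) m) {U Φ : V → ℝ} (hU : Integrable U)
    (hΦ : Measurable Φ) (b1 : ∀ x, |Φ x| ≤ 1) {c : ℝ}
    (b2 : ∀ x h, |Φ (x + h) + Φ (x - h) - 2 * Φ x| ≤ c * ‖h‖ ^ 2) :
    |∫ ω, (∫ x, U x * Φ (x + D ω)) * κ ω ∂m| ≤
      (∫ x, |U x|) * (c / 2 * ∫ ω, ‖D ω‖ ^ 2 * W ω ∂m) := by
  have i1 : Integrable (fun p : Ω × V => κ p.1 * U p.2 * Φ (p.2 + D p.1)) (m.prod volume) :=
    int_mul_bd (hκ.mul_prod hU) (Measurable.aestronglyMeasurable (by fun_prop)) fun _ => b1 _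
  have e1 : ∀ ω, (∫ x, U x * Φ (x + D ω)) * κ ω = ∫ x, κ ω * U x * Φ (x + D ω) := fun ω => by
    rw [← integral_mul_const]; congr 1; funext x; ring
  simp only [e1]
  rw [integral_integral_swap (f := fun ω x => κ ω * U x * Φ (x + D ω)) i1, ← integral_mul_const]
  refine nile (hU.abs.mul_const _) fun x => ?_
  have e2 : ∫ ω, κ ω * U x * Φ (x + D ω) ∂m = U x * ∫ ω, κ ω * Φ (x + D ω) ∂m := by
    rw [← integral_const_mul]; congr 1; funext ω; ring
  rw [e2, abs_mul]
  refine mul_le_mul_of_nonneg_left ?_ (abs_nonneg _)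
  have j1 : Integrable (fun ω => κ ω * Φ (x + D ω)) m :=
    int_mul_bd hκ (Measurable.aestronglyMeasurable (by fun_prop)) fun _ => b1 _
  have j2 : Integrable (fun ω => κ ω * Φ (x - D ω)) m :=
    int_mul_bd hκ (Measurable.aestronglyMeasurable (by fun_prop)) fun _ => b1 _
  have e3 : ∫ ω, κ ω * Φ (x - D ω) ∂m = ∫ ω, κ ω * Φ (x + D ω) ∂m := by
    rw [← hσ.map_eq, integral_map hσ.measurable.aemeasurable (hσ.map_eq.symm ▸ j2.1), hσ.map_eq]
    simp [h1, h2]
  have e4 : 2 * ∫ ω, κ ω * Φ (x + D ω) ∂m =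
      ∫ ω, κ ω * (Φ (x + D ω) + Φ (x - D ω) - 2 * Φ x) ∂m := by
    simp only [mul_sub, mul_add]
    rw [integral_sub (by exact j1.add j2) (hκ.mul_const _), integral_add j1 j2, integral_mul_const, h0, e3]
    ring
  have b3 : |∫ ω, κ ω * (Φ (x + D ω) + Φ (x - D ω) - 2 * Φ x) ∂m| ≤
      ∫ ω, c * (‖D ω‖ ^ 2 * W ω) ∂m := by
    refine nile (iW.const_mul c) fun ω => ?_
    rw [abs_mul, ← mul_assoc, mul_comm]
    exact mul_le_mul (b2 _ _) (hW ω) (abs_nonneg _) ((abs_nonneg _).trans (b2 x _))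
  rw [← e4, integral_const_mul, abs_mul] at b3
  norm_num only [] at b3
  linarith only [b3]

section

variable {m : Measure Ω} {d : Ω → V} {k : V → Ω → ℝ} {W : Ω → ℝ}

theorem _root_.Pool.Agent.MP_596265_gt.En.Ker.W0 (K : Ker m d k W) (ω : Ω) : 0 ≤ W ω := (abs_nonneg _).trans (K.bd 0 ω)

theorem _root_.Pool.Agent.MP_596265_gt.En.Ker.iW' (K : Ker m d k W) {a : Ω → ℝ} (ha : Measurable a) (h : ∀ ω, |a ω| ≤ 1 + ‖d ω‖ ^ 2) :
    Integrable (fun ω => a ω * W ω) m := by
  have hd := K.md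
  refine (int_mul_bd K.iW (c := fun ω => a ω / (1 + ‖d ω‖ ^ 2))
    (Measurable.aestronglyMeasurable (by fun_prop)) fun ω => ?_).congr (ae_of_all _ fun ω => ?_)
  · rw [abs_div, abs_of_pos (show 0 < 1 + ‖d ω‖ ^ 2 by positivity)]
    exact div_le_one_of_le₀ (h ω) (by positivity)
  · simp only; field_simp

theorem _root_.Pool.Agent.MP_596265_gt.En.Ker.iW1 (K : Ker m d k W) : Integrable W m := by
  simpa only [one_mul] using K.iW' (a := fun _ => 1) measurable_const fun ω => by simp only [abs_one, le_add_iff_nonneg_right, norm_nonneg, pow_succ_nonneg]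

theorem _root_.Pool.Agent.MP_596265_gt.En.Ker.iW2 (K : Ker m d k W) : Integrable (fun ω => ‖d ω‖ ^ 2 * W ω) m :=
  have hd := K.md
  K.iW' (by fun_prop) fun ω => by simp

theorem _root_.Pool.Agent.MP_596265_gt.En.Ker.ik (K : Ker m d k W) (c : V) : Integrable (k c) m :=
  K.iW1.mono' (K.mk'.of_uncurry_left).aestronglyMeasurable (ae_of_all _ (K.bd c))

end

theorem ind_cases (S : Set V) (x : V) :
    S.indicator (1 : V → ℝ) x = 0 ∨ S.indicator (1 : V → ℝ) x = 1 := by
  by_cases h : x ∈ S <;> simp [h]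

theorem ind_int {S : Set V} (hS : MeasurableSet S) (hf : volume S ≠ ⊤) :
    Integrable (S.indicator (1 : V → ℝ)) :=
  (integrable_indicator_iff hS).2 (integrableOn_const hf)

theorem mo_small {m : Measure Ω} {D : Ω → V} (hD : Measurable D) {A : Ω → ℝ} (hA : Integrable A m)
    {f : V → ℝ} (hf : Integrable f) :
    Tendsto (fun t : ℝ => ∫ ω, mo f (t • D ω) * A ω ∂m) (𝓝 0) (𝓝 0) := by
  have hc := mo_cont hf
  have : Continuous fun t : ℝ => ∫ ω, mo f (t • D ω) * A ω ∂m :=
    continuous_of_dominated (bound := fun ω => (2 * ∫ x, |f x|) * |A ω|)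
      (fun t => (hc.measurable.comp (by fun_prop)).aestronglyMeasurable.mul hA.1)
      (fun t => ae_of_all _ fun ω => by
        rw [Real.norm_eq_abs, abs_mul, abs_of_nonneg (mo_nonneg _ _)]
        exact mul_le_mul_of_nonneg_right (mo_le hf _) (abs_nonneg _))
      (hA.abs.const_mul _) (ae_of_all _ fun ω => by fun_prop)
  simpa [mo_zero] using this.tendsto 0

theorem err_le {m : Measure Ω} [SFinite m] {D : Ω → V} (hD : Measurable D) {f : V → ℝ}
    (hf : Integrable f) (fm : Measurable f) (f01 : ∀ x, f x = 0 ∨ f x = 1) {r : Ω × V → ℝ}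
    {A : Ω → ℝ} (hA : Integrable A m) (hr : ∀ p, |r p| ≤ A p.1) :
    |∫ p : Ω × V, f p.2 * (1 - f (p.2 + D p.1)) * r p ∂(m.prod volume)| ≤
      ∫ ω, mo f (D ω) * A ω ∂m := by
  have i1 : Integrable (fun p : Ω × V => A p.1 * f p.2 * (1 - f (p.2 + D p.1))) (m.prod volume) :=
    int_mul_bd (hA.mul_prod hf) (Measurable.aestronglyMeasurable (by fun_prop)) fun p => by
      rcases f01 (p.2 + D p.1) with h | h <;> simp [h]
  refine (nile i1 fun p => ?_).trans ?_
  · have := hr p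
    rcases f01 (p.2 + D p.1) with h | h <;> rcases f01 p.2 with h' | h' <;> simp [h, h', this]
  rw [integral_prod _ i1]
  refine integral_mono i1.integral_prod_left (hA.bdd_mul (c := 2 * ∫ x, |f x|)
    ((mo_cont hf).measurable.comp hD).aestronglyMeasurable (ae_of_all _ fun ω => by
      rw [Real.norm_eq_abs, abs_of_nonneg (mo_nonneg _ _)]; exact mo_le hf _)) fun ω => ?_
  simp only [mul_assoc]
  rw [integral_const_mul, mul_comm]
  refine mul_le_mul_of_nonneg_right (integral_mono_of_nonneg (ae_of_all _ fun x => ?_)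
    ((hf.comp_add_right _).sub hf).abs (ae_of_all _ fun x => ?_))
    ((abs_nonneg _).trans (hr (ω, 0))) <;>
  rcases f01 (x + D ω) with h | h <;> rcases f01 x with h' | h' <;> simp [h, h']

theorem per_c {m : Measure Ω} [SFinite m] {d : Ω → V} {k : V → Ω → ℝ} {W : Ω → ℝ}
    (K : Ker m d k W) (hpos : ∀ x ξ, ∫ ω, k x ω * Real.cos ⟪ξ, d ω⟫ ∂m ≤ 0) {f : V → ℝ}
    (fm : Measurable f) (f01 : ∀ x, f x = 0 ∨ f x = 1) {t : ℝ} (ht : 0 < t) (c : V) :
    -(4 * t * (∫ ω, ‖d ω‖ ^ 2 * W ω ∂m) * ∫ x, |f x - f c| * ga (1 / (2 * t)) (x - c)) ≤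
      ∫ ω, (∫ x, f x * (1 - f (x + t • d ω)) *
        (ga (1 / (2 * t)) (x - c) * ga (1 / (2 * t)) (x + t • d ω - c))) * k c ω ∂m := by
  obtain ⟨σ, hσ, s1, s2⟩ := K.sym
  have hd := K.md
  have hb : 0 < 1 / (2 * t) := by positivity
  set Φ : V → ℝ := fun x => ga (1 / (2 * t)) (x - c) with hΦ
  have Φm : Measurable Φ := ((ga_cont _).comp (by fun_prop)).measurable
  have Φi : Integrable Φ := (ga_int hb).comp_sub_right c
  have Φ0 : ∀ x, 0 < Φ x := fun x => ga_pos _ _
  have Φ1 : ∀ x, |Φ x| ≤ 1 := fun x => (abs_of_pos (Φ0 x)).trans_le (ga_le_one hb.le _)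
  have Φ2 : ∀ x h, |Φ (x + h) + Φ (x - h) - 2 * Φ x| ≤ 4 / t * ‖h‖ ^ 2 := fun x h => by
    simpa only [hΦ, add_sub_right_comm, sub_right_comm x h c] using ga_two' ht (x - c) h
  set g : V → ℝ := fun x => f x - f c with hg
  have gm : Measurable g := by fun_prop
  have iU : ∀ u : V → ℝ, Measurable u → (∀ x, |u x| ≤ 1) → Integrable fun x => Φ x * u x :=
    fun u hu h => int_mul_bd Φi hu.aestronglyMeasurable h
  have g1 : ∀ x, |g x| ≤ 1 := fun x => by
    rcases f01 x with h | h <;> rcases f01 c with h' | h' <;> simp [hg, h, h']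
  have st : ∀ (e : ℝ) (D : Ω → V), (e = 1 ∨ e = -1) → Measurable D → (∀ ω, D (σ ω) = -D ω) →
      (∀ ω, ‖D ω‖ ^ 2 = t ^ 2 * ‖d ω‖ ^ 2) →
      Integrable (fun x => Φ x * ((g x ^ 2 + e * g x) / 2)) ∧
      Integrable (fun ω => (∫ x, Φ x * ((g x ^ 2 + e * g x) / 2) * Φ (x + D ω)) * k c ω) m ∧
      -(2 * t * (∫ ω, ‖d ω‖ ^ 2 * W ω ∂m) * ∫ x, |g x| * Φ x) ≤
        ∫ ω, (∫ x, Φ x * ((g x ^ 2 + e * g x) / 2) * Φ (x + D ω)) * k c ω ∂m := by
    intro e D he hD h1 h2
    have u1 : ∀ x, |(g x ^ 2 + e * g x) / 2| ≤ |g x| := fun x => by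
      rcases f01 x with h | h <;> rcases f01 c with h' | h' <;> rcases he with rfl | rfl <;>
        norm_num [hg, h, h']
    have i1 := iU (fun x => (g x ^ 2 + e * g x) / 2) (by fun_prop) fun x => (u1 x).trans (g1 x)
    have i2 : Integrable (fun p : Ω × V => k c p.1 * (Φ p.2 * ((g p.2 ^ 2 + e * g p.2) / 2)) *
        Φ (p.2 + D p.1)) (m.prod volume) :=
      int_mul_bd ((K.ik c).mul_prod i1) (Measurable.aestronglyMeasurable (by fun_prop))
        fun _ => Φ1 _
    refine ⟨i1, i2.integral_prod_left.congr (ae_of_all _ fun ω => ?_), ?_⟩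
    · simp only [mul_assoc]
      rw [integral_const_mul, mul_comm]
    have i3 : Integrable (fun ω => ‖D ω‖ ^ 2 * W ω) m := by
      simpa only [h2, mul_assoc] using K.iW2.const_mul (t ^ 2)
    have := small_term hD (K.ik c) hσ h1 (s2 c) (K.zero c) (K.bd c) i3 i1 Φm Φ1 Φ2
    refine le_trans (neg_le_neg ?_) (neg_le_of_abs_le this)
    simp only [h2, mul_assoc]
    rw [integral_const_mul]
    have M0 : 0 ≤ ∫ ω, ‖d ω‖ ^ 2 * W ω ∂m :=
      integral_nonneg fun ω => mul_nonneg (sq_nonneg _) (K.W0 ω)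
    have b1 : ∫ x, |Φ x * ((g x ^ 2 + e * g x) / 2)| ≤ ∫ x, |g x| * Φ x :=
      integral_mono i1.abs ((iU _ gm.abs fun x => by simpa only [abs_abs] using g1 x).congr
        (ae_of_all _ fun x => mul_comm _ _)) fun x => by
          simp only [abs_mul, abs_of_pos (Φ0 x)]
          rw [mul_comm]; exact mul_le_mul_of_nonneg_right (u1 x) (Φ0 x).le
    calc _ = (∫ x, |Φ x * ((g x ^ 2 + e * g x) / 2)|) * (2 * t * ∫ ω, ‖d ω‖ ^ 2 * W ω ∂m) := by
          field_simp; ring
      _ ≤ (∫ x, |g x| * Φ x) * (2 * t * ∫ ω, ‖d ω‖ ^ 2 * W ω ∂m) := by gcongr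
      _ = _ := by ring
  obtain ⟨a1, a2, a3⟩ := st 1 (fun ω => t • d ω) (.inl rfl) (by fun_prop) (by simp [s1])
    (by simp [norm_smul, mul_pow])
  obtain ⟨b1, b2, b3⟩ := st (-1) (fun ω => -(t • d ω)) (.inr rfl) (by fun_prop) (by simp [s1])
    (by simp [norm_smul, mul_pow])
  have Gi := iU g gm g1
  have G1 : ∀ x, |Φ x * g x| ≤ 1 := fun x => by
    rw [abs_mul]; exact mul_le_one₀ (Φ1 x) (abs_nonneg _) (g1 x)
  have c3 := pd (m := m) Gi G1 (K.ik c) (d := fun ω => t • d ω) (by fun_prop) fun ξ => by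
    simpa only [inner_smul_right, inner_smul_left, conj_trivial] using hpos c (t • ξ)
  have c2 : Integrable (fun ω => ac (fun x => Φ x * g x) (t • d ω) * k c ω) m :=
    (K.ik c).bdd_mul (c := 1 * ∫ x, |Φ x * g x|)
      ((ac_cont Gi G1).measurable.comp (by fun_prop)).aestronglyMeasurable
      (ae_of_all _ fun ω => ac_le Gi G1 _)
  have key : ∀ h : V, ∫ x, f x * (1 - f (x + h)) * (Φ x * Φ (x + h)) =
      (∫ x, Φ x * ((g x ^ 2 + 1 * g x) / 2) * Φ (x + h)) +
      (∫ x, Φ x * ((g x ^ 2 + -1 * g x) / 2) * Φ (x + -h)) - ac (fun x => Φ x * g x) h := by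
    intro h
    have j1 : Integrable fun x => Φ x * ((g x ^ 2 + 1 * g x) / 2) * Φ (x + h) :=
      int_mul_bd a1 (Measurable.aestronglyMeasurable (by fun_prop)) fun _ => Φ1 _
    have j2 : Integrable fun x => Φ x * ((g x ^ 2 + -1 * g x) / 2) * Φ (x + -h) :=
      int_mul_bd b1 (Measurable.aestronglyMeasurable (by fun_prop)) fun _ => Φ1 _
    rw [← integral_add_right_eq_self (fun x => Φ x * ((g x ^ 2 + -1 * g x) / 2) * Φ (x + -h)) h,
      ← integral_add j1 (j2.comp_add_right h), ac,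
      ← integral_sub (by exact j1.add (j2.comp_add_right h)) (ac_mul Gi G1 h)]
    congr 1; funext x
    rw [add_neg_cancel_right]
    rcases f01 x with h1 | h1 <;> rcases f01 (x + h) with h2 | h2 <;> simp only [hg, h1, h2] <;>
      ring
  have e : ∀ ω, (∫ x, f x * (1 - f (x + t • d ω)) *
      (ga (1 / (2 * t)) (x - c) * ga (1 / (2 * t)) (x + t • d ω - c))) * k c ω = _ := fun ω =>
    (congrArg (· * k c ω) (key (t • d ω))).trans (by rw [sub_mul, add_mul])
  simp only [e]
  rw [integral_sub (by exact a2.add b2) c2, integral_add a2 b2]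
  linarith

theorem win_mo {f : V → ℝ} (hf : Integrable f) {φ : V → ℝ} (hφ : Integrable φ)
    (h0 : ∀ x, 0 ≤ φ x) : Integrable (fun c => ∫ x, |f x - f c| * φ (x - c)) ∧
      ∫ c, ∫ x, |f x - f c| * φ (x - c) = ∫ y, mo f y * φ y := by
  have i1 : Integrable (fun p : V × V => φ p.1 * f (p.1 + p.2)) (volume.prod volume) :=
    (measurePreserving_prod_add (volume : Measure V) volume).integrable_comp_of_integrable
      (hφ.mul_prod hf)
  have i2 : Integrable (fun p : V × V => |f (p.2 + p.1) - f p.2| * φ p.1) (volume.prod volume) :=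
    (i1.sub (hφ.mul_prod hf)).abs.congr (ae_of_all _ fun p => by
      simp only [Pi.sub_apply, ← mul_sub, abs_mul, abs_of_nonneg (h0 _), add_comm p.1]; ring)
  have e : ∀ c, ∫ x, |f x - f c| * φ (x - c) = ∫ y, |f (c + y) - f c| * φ y := fun c => by
    rw [← integral_add_left_eq_self _ c]; simp
  simp only [e]
  refine ⟨i2.integral_prod_right, ?_⟩
  rw [← integral_integral_swap (f := fun y c => |f (c + y) - f c| * φ y) i2]
  simp only [integral_mul_const, mo]

theorem energy_eq {m : Measure Ω} [SFinite m] {d : Ω → V} (hd : Measurable d) {k : V → Ω → ℝ}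
    (hk : AEStronglyMeasurable (fun p : Ω × V => k p.2 p.1) (m.prod volume)) {W : Ω → ℝ}
    (hW : Integrable W m) (hb : ∀ x ω, |k x ω| ≤ W ω) {S : Set V} (hS : MeasurableSet S)
    (hf : volume S ≠ ⊤) (t : ℝ) :
    Integrable (fun p : Ω × V => S.indicator 1 p.2 * (1 - S.indicator 1 (p.2 + t • d p.1)) *
      k p.2 p.1) (m.prod volume) ∧ energy m d k S t =
    ∫ p : Ω × V, S.indicator 1 p.2 * (1 - S.indicator 1 (p.2 + t • d p.1)) * k p.2 p.1
      ∂(m.prod volume) := by
  have fm : Measurable (S.indicator (1 : V → ℝ)) := measurable_one.indicator hS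
  have i1 : Integrable (fun p : Ω × V => S.indicator 1 p.2 *
      (1 - S.indicator 1 (p.2 + t • d p.1)) * k p.2 p.1) (m.prod volume) := by
    refine (hW.mul_prod (ind_int hS hf)).mono' ((Measurable.aestronglyMeasurable
      (by fun_prop)).mul hk) (ae_of_all _ fun p => ?_)
    have := hb p.2 p.1
    have := (abs_nonneg _).trans this
    rcases ind_cases S p.2 with h | h <;> rcases ind_cases S (p.2 + t • d p.1) with h' | h' <;>
      simp [*]
  exact ⟨i1, (integral_prod_symm _ i1).symm⟩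

/-- relative errors: any kernel bounded by `W` has energy `o(1)`. -/
theorem energy_small {m : Measure Ω} [SFinite m] {d : Ω → V} (hd : Measurable d) {W : Ω → ℝ}
    (hW : Integrable W m) {S : Set V} (hS : MeasurableSet S) (hf : volume S ≠ ⊤) :
    Tendsto (energy m d (fun _ => W) S) (𝓝 0) (𝓝 0) := by
  refine squeeze_zero_norm (fun t => ?_) (mo_small hd hW.abs (ind_int hS hf))
  rw [(energy_eq hd (k := fun _ => W) hW.1.comp_fst hW.abs (fun _ _ => le_rfl) hS hf t).2]
  exact err_le (D := fun ω => t • d ω) (by fun_prop) (ind_int hS hf) (measurable_one.indicator hS) (ind_cases S) hW.abs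
    (r := fun p => W p.1) fun _ => le_rfl

theorem e1 {m : Measure Ω} [SFinite m] {d : Ω → V} {k : V → Ω → ℝ} {W : Ω → ℝ}
    (K : Ker m d k W) (hpos : ∀ x ξ, ∫ ω, k x ω * Real.cos ⟪ξ, d ω⟫ ∂m ≤ 0)
    {S : Set V} (hS : MeasurableSet S) (hf : volume S ≠ ⊤) {ε : ℝ} (hε : 0 < ε) :
    ∀ᶠ t in 𝓝[>] (0 : ℝ), -(ε * t) ≤ energy m d k S t := by
  have hd := K.md
  have hk := K.mk'
  have hk' : Measurable fun p : Ω × V => k p.2 p.1 := hk.comp measurable_swap
  set f := S.indicator (1 : V → ℝ) with hf'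
  have fm : Measurable f := measurable_one.indicator hS
  have fi : Integrable f := ind_int hS hf
  have f01 : ∀ x, f x = 0 ∨ f x = 1 := ind_cases S
  have cp := cV_pos (V := V)
  set M := ∫ ω, ‖d ω‖ ^ 2 * W ω ∂m
  have M0 : 0 ≤ M := integral_nonneg fun ω => mul_nonneg (sq_nonneg _) (K.W0 ω)
  have t1 := mo_small hd (K.iW.const_mul (1 + cV V)) fi
  have t2 := ((mo_small measurable_id (ga_int (V := V) (b := 1 / 2) (by norm_num)) fi).comp
    (Real.continuous_sqrt.tendsto' 0 0 Real.sqrt_zero)).const_mul (4 * M * (∫ y : V, ga 1 y)⁻¹)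
  have t3 := (t1.add t2).mono_left (nhdsWithin_le_nhds (s := Ioi 0))
  rw [mul_zero, add_zero] at t3
  filter_upwards [t3.eventually (gt_mem_nhds hε), self_mem_nhdsWithin] with t h1 ht
  replace ht : 0 < t := ht
  have hb : 0 < 1 / (2 * t) := by positivity
  have gm : Measurable (ga (1 / (2 * t)) : V → ℝ) := (ga_cont _).measurable
  obtain ⟨i1, e1⟩ := energy_eq hd hk'.aestronglyMeasurable K.iW1 K.bd hS hf t
  rw [e1]
  set N := (∫ y : V, ga (1 / t) y)⁻¹
  have N0 : 0 < N := inv_pos.2 (ga_int_pos (one_div_pos.2 ht))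
  let F : (Ω × V) × V → ℝ := fun q => f q.1.2 * (1 - f (q.1.2 + t • d q.1.1)) *
    (ga (1 / (2 * t)) (q.1.2 - q.2) * ga (1 / (2 * t)) (q.1.2 + t • d q.1.1 - q.2)) * k q.2 q.1.1
  have Fm : Measurable F := by
    have : Measurable fun q : (Ω × V) × V => k q.2 q.1.1 :=
      hk.comp (f := fun q : (Ω × V) × V => (q.2, q.1.1)) (by fun_prop)
    fun_prop
  have Fi : Integrable F ((m.prod volume).prod volume) := by
    have j0 := K.iW1.mul_prod fi
    have j1 : Integrable (fun q : (Ω × V) × V => W q.1.1 * f q.1.2 * ga (1 / (2 * t)) (q.1.2 - q.2))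
        ((m.prod volume).prod volume) := by
      have : Measurable fun q : (Ω × V) × V => ga (1 / (2 * t)) (q.1.2 - q.2) := by fun_prop
      refine (integrable_prod_iff (j0.1.comp_fst.mul this.aestronglyMeasurable)).2
        ⟨ae_of_all _ fun p => ((ga_int hb).comp_sub_left p.2).const_mul (W p.1 * f p.2), ?_⟩
      refine (j0.norm.mul_const (∫ y : V, ‖ga (1 / (2 * t)) y‖)).congr (ae_of_all _ fun p => ?_)
      simp only [Pi.mul_apply, norm_mul]
      rw [integral_const_mul, integral_sub_left_eq_self (fun y => ‖ga (1 / (2 * t)) y‖)]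
    refine j1.mono' Fm.aestronglyMeasurable (ae_of_all _ fun q => ?_)
    have a1 := K.bd q.2 q.1.1
    have a2 := ga_pos (1 / (2 * t)) (q.1.2 - q.2)
    have a3 := ga_pos (1 / (2 * t)) (q.1.2 + t • d q.1.1 - q.2)
    have a4 := ga_le_one hb.le (q.1.2 + t • d q.1.1 - q.2)
    have a5 := K.W0 q.1.1
    simp only [F, Real.norm_eq_abs, abs_mul, abs_of_pos a2, abs_of_pos a3]
    rcases f01 q.1.2 with h | h <;> rcases f01 (q.1.2 + t • d q.1.1) with h' | h' <;>
      simp only [h, h'] <;> norm_num only [one_div, mul_inv_rev, zero_mul, mul_zero, Std.le_refl, one_mul, mul_one, ge_iff_le] at a2 a3 a4 ⊢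
    · rw [mul_comm (W _), mul_assoc]
      exact mul_le_mul_of_nonneg_left ((mul_le_of_le_one_left (abs_nonneg _) a4).trans a1) a2.le
    · positivity
  have b1 := err_le (m := m) (D := fun ω => t • d ω) (by fun_prop) fi fm f01
    (r := fun p => k p.2 p.1 - N * ∫ c, ga (1 / (2 * t)) (p.2 - c) *
      ga (1 / (2 * t)) (p.2 + t • d p.1 - c) * k c p.1)
    ((K.iW.const_mul (1 + cV V)).const_mul t) fun p => by
      refine (freeze ht (hk.of_uncurry_right) (K.bd · p.1) (K.lip · · p.1) (K.two · · p.1)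
        p.2 (t • d p.1)).trans ?_
      simp only [← mul_assoc]
      refine mul_le_mul_of_nonneg_right ?_ (K.W0 _)
      rw [norm_smul, Real.norm_eq_abs, abs_of_pos ht, show (t * ‖d p.1‖) ^ 2 / (4 * t) =
        t * (‖d p.1‖ ^ 2 / 4) by field_simp, mul_div_assoc, ← mul_add, ← mul_add, mul_assoc]
      refine mul_le_mul_of_nonneg_left ?_ ht.le
      nlinarith only [mul_nonneg cp.le (sq_nonneg ‖d p.1‖)]
  have e2 : ∀ p : Ω × V, f p.2 * (1 - f (p.2 + t • d p.1)) * (k p.2 p.1 - N * ∫ c,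
      ga (1 / (2 * t)) (p.2 - c) * ga (1 / (2 * t)) (p.2 + t • d p.1 - c) * k c p.1) =
      f p.2 * (1 - f (p.2 + t • d p.1)) * k p.2 p.1 - N * ∫ c, F (p, c) := fun p => by
    simp only [F, mul_assoc]
    rw [integral_const_mul, integral_const_mul]; ring
  simp only [e2, mul_left_comm _ t] at b1
  rw [integral_sub i1 (Fi.integral_prod_left.const_mul N), integral_const_mul, integral_const_mul,
    integral_integral_swap (f := fun p c => F (p, c)) Fi] at b1
  obtain ⟨w1, w2⟩ := win_mo fi (ga_int hb) fun x => (ga_pos _ x).le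
  have b2 : -(4 * t * M * ∫ y, mo f y * ga (1 / (2 * t)) y) ≤
      ∫ c, ∫ p, F (p, c) ∂(m.prod volume) := by
    rw [← w2, ← integral_const_mul, ← integral_neg]
    refine integral_mono_ae (w1.const_mul _).neg Fi.integral_prod_right ?_
    filter_upwards [Fi.prod_left_ae] with c hc
    rw [integral_prod _ hc]
    simpa only [F, integral_mul_const] using per_c K hpos fm f01 ht c
  have e3 := ga_scal ht (1 / 2) (mo f)
  rw [div_div] at e3
  have b3 := mul_le_mul_of_nonneg_left b2 N0.le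
  have b4 := neg_le_of_abs_le b1
  have b5 := mul_lt_mul_of_pos_left h1 ht
  simp only [Function.comp, id, mul_assoc] at b3 b4 b5 e3 ⊢
  rw [← e3] at b5
  linarith only [b3, b4, b5]

/-- second differences from a Lipschitz derivative -/
theorem two_of_lip {f : V → ℝ} (hf : Differentiable ℝ f) {M : ℝ}
    (hM : ∀ x y, ‖fderiv ℝ f x - fderiv ℝ f y‖ ≤ M * ‖x - y‖) (h0 : 0 ≤ M) (x h : V) :
    |f (x + h) + f (x - h) - 2 * f x| ≤ 2 * M * ‖h‖ ^ 2 := by
  have := (convex_closedBall (0 : V) ‖h‖).norm_image_sub_le_of_norm_hasFDerivWithin_le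
    (f := fun y => f (x + y) + f (x - y)) (f' := fun y => fderiv ℝ f (x + y) - fderiv ℝ f (x - y))
    (C := 2 * M * ‖h‖) (x := 0) (y := h) (fun y _ => ?_) (fun y hy => ?_) (by simp) (by simp)
  · simp only [add_zero, sub_zero, Real.norm_eq_abs] at this
    rw [two_mul (f x), sq, ← mul_assoc]; exact this
  · have a := ((hf (x + y)).hasFDerivAt.comp y ((hasFDerivAt_id y).const_add x)).add
      ((hf (x - y)).hasFDerivAt.comp y ((hasFDerivAt_id y).const_sub x))
    refine HasFDerivAt.hasFDerivWithinAt (a.congr_fderiv ?_)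
    ext v; simp only [ContinuousLinearMap.comp_id, sub_eq_add_neg, ContinuousLinearMap.comp_neg, add_apply, neg_apply]
  · refine (hM _ _).trans ?_
    rw [show x + y - (x - y) = (2 : ℝ) • y by rw [two_smul]; abel, norm_smul]
    have : ‖y‖ ≤ ‖h‖ := by simpa using hy
    norm_num only [Real.norm_ofNat, ge_iff_le]; nlinarith only [h0, this]

theorem exists_bump (x₀ : V) {r : ℝ} (hr : 0 < r) : ∃ (b : V → ℝ) (B : ℝ), 1 ≤ B ∧ Continuous b ∧
    (∀ x, 0 ≤ b x ∧ b x ≤ 1) ∧ (∀ x ∈ Metric.ball x₀ (r / 2), b x = 1) ∧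
    (∀ x ∉ Metric.ball x₀ r, b x = 0) ∧ (∀ x y, |b x - b y| ≤ ‖x - y‖ * B) ∧
    ∀ x h, |b (x + h) + b (x - h) - 2 * b x| ≤ ‖h‖ ^ 2 * B := by
  let b : ContDiffBump x₀ := ⟨r / 2, r, by positivity, by linarith⟩
  have c2 : ContDiff ℝ 2 b := b.contDiff
  obtain ⟨L, hL⟩ := c2.lipschitzWith_of_hasCompactSupport b.hasCompactSupport (by simp)
  obtain ⟨M, hM⟩ := (c2.fderiv_right (m := 1) (by norm_num)).lipschitzWith_of_hasCompactSupport
    (b.hasCompactSupport.fderiv ℝ) (by simp)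
  have L0 := L.2
  have M0 := M.2
  refine ⟨b, 1 + L + 2 * M, by linarith [L.coe_nonneg, M.coe_nonneg], b.continuous, fun x => ⟨b.nonneg, b.le_one⟩,
    fun x hx => b.one_of_mem_closedBall (Metric.ball_subset_closedBall hx),
    fun x hx => b.zero_of_le_dist (by simpa using hx), fun x y => ?_, fun x h => ?_⟩
  · have := hL.dist_le_mul x y
    rw [Real.dist_eq, dist_eq_norm] at this
    nlinarith only [norm_nonneg (x - y), this]
  · have := two_of_lip (c2.differentiable (by simp)) (M := M) (fun x y => by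
      simpa only [dist_eq_norm] using hM.dist_le_mul x y) M.2 x h
    nlinarith only [this]

theorem int_sum {m : Measure Ω} {m' : Measure Ω'} {F : Ω ⊕ Ω' → ℝ}
    (h : Integrable (fun ω => F (.inl ω)) m) (h' : Integrable (fun ω => F (.inr ω)) m') :
    Integrable F (m.map Sum.inl + m'.map Sum.inr) ∧
      ∫ ω, F ω ∂(m.map Sum.inl + m'.map Sum.inr) = ∫ ω, F (.inl ω) ∂m + ∫ ω, F (.inr ω) ∂m' := by
  have l : MeasurableEmbedding (Sum.inl : Ω → Ω ⊕ Ω') :=
    ⟨Sum.inl_injective, measurable_inl, fun _ => MeasurableSet.inl_image⟩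
  have r : MeasurableEmbedding (Sum.inr : Ω' → Ω ⊕ Ω') :=
    ⟨Sum.inr_injective, measurable_inr, fun _ => MeasurableSet.inr_image⟩
  have a := l.integrable_map_iff.2 h
  have b := r.integrable_map_iff.2 h'
  exact ⟨a.add_measure b, by rw [integral_add_measure a b, l.integral_map, r.integral_map]⟩

theorem _root_.Pool.Agent.MP_596265_gt.En.Ker.sum {m : Measure Ω} {d : Ω → V} {k : V → Ω → ℝ} {W : Ω → ℝ} (K : Ker m d k W)
    {m' : Measure Ω'} {d' : Ω' → V} {k' : V → Ω' → ℝ} {W' : Ω' → ℝ} (K' : Ker m' d' k' W') :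
    Ker (m.map Sum.inl + m'.map Sum.inr) (Sum.elim d d') (fun x => Sum.elim (k x) (k' x))
      (Sum.elim W W') where
  md := K.md.sumElim K'.md
  mk' := by
    have := (K.mk'.sumElim K'.mk').comp (MeasurableEquiv.prodSumDistrib V Ω Ω').measurable
    convert this using 1
    funext ⟨x, ω⟩; cases ω <;> rfl
  sym := by
    obtain ⟨σ, a, b, c⟩ := K.sym
    obtain ⟨σ', a', b', c'⟩ := K'.sym
    have hm : Measurable (Sum.map σ σ') := a.measurable.sumMap a'.measurable
    refine ⟨Sum.map σ σ', ⟨hm, ?_⟩, fun ω => by cases ω <;> simp [b, b'],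
      fun x ω => by cases ω <;> simp [c, c']⟩
    rw [Measure.map_add _ _ hm, Measure.map_map hm measurable_inl,
      Measure.map_map hm measurable_inr, show Sum.map σ σ' ∘ Sum.inl = Sum.inl ∘ σ from rfl,
      show Sum.map σ σ' ∘ Sum.inr = Sum.inr ∘ σ' from rfl,
      ← Measure.map_map measurable_inl a.measurable,
      ← Measure.map_map measurable_inr a'.measurable, a.map_eq, a'.map_eq]
  iW := (int_sum K.iW K'.iW).1
  bd x ω := by cases ω; exacts [K.bd x _, K'.bd x _]
  lip x y ω := by cases ω; exacts [K.lip x y _, K'.lip x y _]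
  two x h ω := by cases ω; exacts [K.two x h _, K'.two x h _]
  zero x := (int_sum (K.ik x) (K'.ik x)).2.trans (by simp [K.zero, K'.zero])

theorem _root_.Pool.Agent.MP_596265_gt.En.Ker.inner {m : Measure Ω} [SFinite m] {d : Ω → V} {k : V → Ω → ℝ} {W : Ω → ℝ}
    (K : Ker m d k W) {S : Set V} (hS : MeasurableSet S) (t : ℝ) (x : V) :
    Integrable (fun ω => S.indicator 1 x * (1 - S.indicator 1 (x + t • d ω)) * k x ω) m := by
  have fm : Measurable (S.indicator (1 : V → ℝ)) := measurable_one.indicator hS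
  have := K.md
  refine (K.ik x).bdd_mul (c := 1) (Measurable.aestronglyMeasurable (by fun_prop))
    (ae_of_all _ fun ω => ?_)
  rcases ind_cases S x with h | h <;> rcases ind_cases S (x + t • d ω) with h' | h' <;> simp [*]

theorem _root_.Pool.Agent.MP_596265_gt.En.Ker.outer {m : Measure Ω} [SFinite m] {d : Ω → V} {k : V → Ω → ℝ} {W : Ω → ℝ}
    (K : Ker m d k W) {S : Set V} (hS : MeasurableSet S) (hf : volume S ≠ ⊤) (t : ℝ) :
    Integrable fun x => ∫ ω, S.indicator 1 x * (1 - S.indicator 1 (x + t • d ω)) * k x ω ∂m :=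
  (energy_eq K.md (K.mk'.comp measurable_swap).aestronglyMeasurable K.iW1 K.bd hS hf
    t).1.integral_prod_right

theorem energy_sum {m : Measure Ω} [SFinite m] {d : Ω → V} {k : V → Ω → ℝ} {W : Ω → ℝ}
    (K : Ker m d k W) {m' : Measure Ω'} [SFinite m'] {d' : Ω' → V} {k' : V → Ω' → ℝ}
    {W' : Ω' → ℝ} (K' : Ker m' d' k' W') {S : Set V} (hS : MeasurableSet S) (hf : volume S ≠ ⊤)
    (t : ℝ) : energy (m.map Sum.inl + m'.map Sum.inr) (Sum.elim d d')
      (fun x => Sum.elim (k x) (k' x)) S t = energy m d k S t + energy m' d' k' S t := by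
  unfold energy
  rw [← integral_add (K.outer hS hf t) (K'.outer hS hf t)]
  congr 1; funext x
  exact (int_sum (K.inner hS t x) (K'.inner hS t x)).2

theorem ga_mom {b : ℝ} (hb : 0 < b) : Integrable fun v : V => (1 + ‖v‖ ^ 2) * ga b v := by
  have := ga_cont (V := V) b
  refine ((ga_int (half_pos hb)).const_mul (1 + 2 / b)).mono' (by fun_prop) (ae_of_all _ fun v => ?_)
  have u := Real.add_one_le_exp (b / 2 * ‖v‖ ^ 2)
  have e : ga (b / 2) v = ga b v * Real.exp (b / 2 * ‖v‖ ^ 2) := by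
    unfold ga; rw [← Real.exp_add]; congr 1; ring
  have p := ga_pos b v
  rw [Real.norm_eq_abs, abs_of_pos (by positivity), e, mul_left_comm, mul_comm]
  refine mul_le_mul_of_nonneg_left (le_trans ?_ (mul_le_mul_of_nonneg_left u (by positivity))) p.le
  have : 2 / b * (b / 2 * ‖v‖ ^ 2) = ‖v‖ ^ 2 := by field_simp
  have : 0 ≤ b / 2 * ‖v‖ ^ 2 := by positivity
  have : 0 ≤ 2 / b := by positivity
  nlinarith

theorem ga_diff (ξ : V) : ga (1 / 16) ξ - ga (1 / 4) ξ ≤ 192 * (‖ξ‖ ^ 2 / (1 + ‖ξ‖ ^ 2) ^ 2) := by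
  have hx := sq_nonneg ‖ξ‖
  unfold ga
  set x := ‖ξ‖ ^ 2
  have a := Real.add_one_le_exp (-(3 / 16) * x)
  have b := Real.add_one_le_exp (x / 32)
  have c : Real.exp (-(1 / 4) * x) = Real.exp (-(1 / 16) * x) * Real.exp (-(3 / 16) * x) := by
    rw [← Real.exp_add]; congr 1; ring
  have e : Real.exp (-(1 / 16) * x) * Real.exp (x / 32) ^ 2 = 1 := by
    rw [sq, ← Real.exp_add, ← Real.exp_add, Real.exp_eq_one_iff]; ring
  have p := Real.exp_pos (-(1 / 16) * x)
  have g : Real.exp (-(1 / 16) * x) * (1 + x) ^ 2 ≤ 1024 := by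
    have : (1 + x) ^ 2 ≤ (32 * Real.exp (x / 32)) ^ 2 := by gcongr; linarith only [b]
    nlinarith only [hx, b, e]
  rw [c, ← mul_div_assoc, le_div_iff₀ (by positivity)]
  have : Real.exp (-(1 / 16) * x) - Real.exp (-(1 / 16) * x) * Real.exp (-(3 / 16) * x) ≤
      Real.exp (-(1 / 16) * x) * (3 / 16 * x) := by nlinarith only [a, p]
  nlinarith only [mul_le_mul_of_nonneg_right this (sq_nonneg (1 + x)), hx, g]

theorem telesc {D : ℝ → ℝ} (h0 : Tendsto D (𝓝 0) (𝓝 0)) {η : ℝ}
    (h : ∀ᶠ t in 𝓝[>] (0 : ℝ), D t - D (t / 2) ≤ η * t) :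
    ∀ᶠ t in 𝓝[>] (0 : ℝ), D t ≤ 2 * η * t := by
  obtain ⟨δ, hδ, h⟩ := (nhdsGT_basis 0).eventually_iff.1 h
  filter_upwards [Ioo_mem_nhdsGT hδ] with t ht
  have key : ∀ j : ℕ, D t ≤ D (t * (1 / 2) ^ j) + 2 * η * (t - t * (1 / 2) ^ j) := fun j => by
    induction j with
    | zero => simp
    | succ j ih =>
      have p : (1 / 2 : ℝ) ^ j ≤ 1 := pow_le_one₀ (by norm_num) (by norm_num)
      have := h (show t * (1 / 2) ^ j ∈ Ioo 0 δ from
        ⟨mul_pos ht.1 (by positivity), (mul_le_of_le_one_right ht.1.le p).trans_lt ht.2⟩)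
      rw [show t * (1 / 2) ^ (j + 1) = t * (1 / 2) ^ j / 2 by ring]
      linarith
  have l1 : Tendsto (fun j : ℕ => t * (1 / 2) ^ j) atTop (𝓝 0) := by
    simpa only [one_div, inv_pow, mul_zero] using (tendsto_pow_atTop_nhds_zero_of_lt_one (r := (1 / 2 : ℝ)) (by norm_num)
      (by norm_num)).const_mul t
  simpa only [ge_iff_le, sub_zero, zero_add] using ge_of_tendsto' ((h0.comp l1).add ((l1.const_sub t).const_mul (2 * η))) key

theorem chain {f : V → ℝ} (f01 : ∀ x, f x = 0 ∨ f x = 1) (x h : V) (N : ℕ) :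
    f x * (1 - f (x + (N : ℝ) • h)) ≤
      ∑ i ∈ Finset.range N, f (x + (i : ℝ) • h) * (1 - f (x + (i : ℝ) • h + h)) := by
  induction N with
  | zero => rcases f01 x with h | h <;> simp [h]
  | succ N ih =>
    rw [Finset.sum_range_succ, Nat.cast_succ, add_smul, one_smul, ← add_assoc]
    rcases f01 x with h1 | h1 <;> rcases f01 (x + (N : ℝ) • h) with h2 | h2 <;>
      rcases f01 (x + (N : ℝ) • h + h) with h3 | h3 <;> simp only [h1, h2, h3] at ih ⊢ <;> linarith

theorem final {S : Set V} (hS : MeasurableSet S) (hf : volume S ≠ ⊤) {x₀ : V} {r : ℝ} (hr : 0 < r)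
    {b p : V → ℝ} (bc : Continuous b) (b0 : ∀ x, 0 ≤ b x ∧ b x ≤ 1)
    (b1 : ∀ x ∈ Metric.ball x₀ (r / 2), b x = 1) (pm : Measurable p) (pi : Integrable p)
    (p0 : ∀ v, 0 < p v)
    (h : ∀ ε > 0, ∀ᶠ t in 𝓝[>] (0 : ℝ), energy volume id (fun x v => b x * p v) S t ≤ ε * t) :
    volume (S ∩ Metric.ball x₀ (r / 8)) = 0 ∨ volume (Metric.ball x₀ (r / 8) \ S) = 0 := by
  set f := S.indicator (1 : V → ℝ) with hf'
  have fm : Measurable f := measurable_one.indicator hS
  have fi : Integrable f := ind_int hS hf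
  have f01 : ∀ x, f x = 0 ∨ f x = 1 := ind_cases S
  set B := Metric.ball x₀ (r / 8)
  have m1 : MeasurableSet (S ∩ B) := hS.inter measurableSet_ball
  have m2 : MeasurableSet (B \ S) := measurableSet_ball.diff hS
  have n1 : volume (S ∩ B) ≠ ⊤ := measure_ne_top_of_subset inter_subset_left hf
  have n2 : volume (B \ S) ≠ ⊤ := measure_ne_top_of_subset sdiff_subset measure_ball_ne_top
  have u1 := ind_int m1 n1
  have u2 := ind_int m2 n2
  have i1 : Integrable (fun q : V × V => (S ∩ B).indicator (1 : V → ℝ) q.1 *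
      (B \ S).indicator 1 (q.1 + q.2)) (volume.prod volume) :=
    (measurePreserving_prod_add (volume : Measure V) volume).integrable_comp_of_integrable
      (u1.mul_prod u2)
  set κ : V → ℝ := fun v => ∫ x, (S ∩ B).indicator (1 : V → ℝ) x * (B \ S).indicator 1 (x + v)
  have e1 : ∫ v, κ v = volume.real (S ∩ B) * volume.real (B \ S) := by
    rw [← integral_integral_swap (f := fun x v => (S ∩ B).indicator (1 : V → ℝ) x *
      (B \ S).indicator 1 (x + v)) i1]
    simp only [integral_const_mul, integral_add_left_eq_self, integral_mul_const,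
      integral_indicator_one m1, integral_indicator_one m2]
  have κ0 : ∀ v, 0 ≤ κ v := fun v => integral_nonneg fun x =>
    mul_nonneg (indicator_nonneg (by simp) _) (indicator_nonneg (by simp) _)
  have j1 : ∀ w : V, Integrable fun x => f x * (1 - f (x + w)) * b x := fun w =>
    int_mul_bd (int_mul_bd fi (Measurable.aestronglyMeasurable (by fun_prop)) fun x => by
      rcases f01 (x + w) with h | h <;> simp [h]) bc.aestronglyMeasurable fun x =>
        (abs_of_nonneg (b0 x).1).trans_le (b0 x).2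
  have κ1 : ∀ (N : ℕ) (w : V), κ ((N : ℝ) • w) ≤ N * ∫ x, f x * (1 - f (x + w)) * b x := by
    intro N w
    have : (N : ℝ) * ∫ x, f x * (1 - f (x + w)) * b x = ∫ x, ∑ i ∈ Finset.range N,
        f (x + (i : ℝ) • w) * (1 - f (x + (i : ℝ) • w + w)) * b (x + (i : ℝ) • w) := by
      rw [integral_finsetSum _ fun i _ => (j1 w).comp_add_right _]
      simp only [integral_add_right_eq_self fun x => f x * (1 - f (x + w)) * b x]
      simp
    rw [this]
    refine integral_mono_of_nonneg (ae_of_all _ fun x =>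
      mul_nonneg (indicator_nonneg (by simp) _) (indicator_nonneg (by simp) _))
      (integrable_finsetSum _ fun i _ => (j1 w).comp_add_right _) (ae_of_all _ fun x => ?_)
    by_cases hx : x ∈ S ∩ B ∧ x + (N : ℝ) • w ∈ B \ S
    · have c := chain f01 x w N
      simp only [indicator_of_mem hx.1, indicator_of_mem hx.2, Pi.one_apply]
      rw [hf', indicator_of_mem hx.1.1, indicator_of_notMem hx.2.2, sub_zero] at c
      refine c.trans (le_of_eq (Finset.sum_congr rfl fun i hi => ?_))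
      rw [b1, mul_one]
      have a1 : ‖x - x₀‖ < r / 8 := by simpa [B, dist_eq_norm] using hx.1.2
      have a2 : ‖x + (N : ℝ) • w - x₀‖ < r / 8 := by simpa only [B, Metric.mem_ball, dist_eq_norm] using hx.2.1
      have a3 : ‖(N : ℝ) • w‖ ≤ ‖x + (N : ℝ) • w - x₀‖ + ‖x - x₀‖ := by
        refine le_trans (le_of_eq ?_) (norm_sub_le _ _); congr 1; abel
      have a4 : ‖(i : ℝ) • w‖ ≤ ‖(N : ℝ) • w‖ := by
        simp only [norm_smul, Real.norm_natCast]
        gcongr; exact (Finset.mem_range.1 hi).le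
      rw [Metric.mem_ball, dist_eq_norm, add_sub_right_comm]
      linarith [norm_add_le (x - x₀) ((i : ℝ) • w)]
    · refine le_trans (le_of_eq ?_) (Finset.sum_nonneg fun i _ => mul_nonneg ?_ (b0 _).1)
      · rcases not_and_or.1 hx with h | h <;> simp only [indicator_of_notMem h] <;> simp
      · rcases f01 (x + (i : ℝ) • w) with h | h <;> rcases f01 (x + (i : ℝ) • w + w) with h' | h' <;>
          simp [h, h']
  have i2 : Integrable fun v => κ v * p v := pi.bdd_mul (c := volume.real (S ∩ B))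
    i1.integral_prod_right.1 (ae_of_all _ fun v => by
      rw [Real.norm_eq_abs, abs_of_nonneg (κ0 v), ← integral_indicator_one m1]
      refine integral_mono_of_nonneg (ae_of_all _ fun x =>
        mul_nonneg (indicator_nonneg (by simp) _) (indicator_nonneg (by simp) _)) u1
        (ae_of_all _ fun x => mul_le_of_le_one_right (indicator_nonneg (by simp) _) ?_)
      rcases ind_cases (B \ S) (x + v) with h | h <;> simp [h])
  have z1 : ∫ v, κ v * p v ≤ 0 := le_of_forall_pos_le_add fun ε hε => by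
    have l : Tendsto (fun N : ℕ => ((N : ℝ))⁻¹) atTop (𝓝[>] 0) :=
      tendsto_inv_atTop_nhdsGT_zero.comp tendsto_natCast_atTop_atTop
    obtain ⟨N, h1, h2⟩ := ((l.eventually (h ε hε)).and (eventually_gt_atTop 0)).exists
    have N0 : (0 : ℝ) < N := by exact_mod_cast h2
    obtain ⟨a1, a2⟩ := energy_eq (m := volume) measurable_id (k := fun x v => b x * p v)
      (Measurable.aestronglyMeasurable (by have := bc.measurable; fun_prop)) pi
      (fun x v => by
        rw [abs_of_nonneg (mul_nonneg (b0 x).1 (p0 v).le)]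
        exact mul_le_of_le_one_left (p0 v).le (b0 x).2) hS hf (N : ℝ)⁻¹
    rw [a2, integral_prod _ a1] at h1
    have := mul_le_mul_of_nonneg_left h1 N0.le
    rw [mul_left_comm, mul_inv_cancel₀ N0.ne', mul_one, ← integral_const_mul] at this
    rw [zero_add]
    refine le_trans (integral_mono i2 (a1.integral_prod_left.const_mul _) fun v => ?_) this
    have := mul_le_mul_of_nonneg_right (κ1 N ((N : ℝ)⁻¹ • v)) (p0 v).le
    rw [smul_inv_smul₀ N0.ne', mul_assoc (N : ℝ), ← integral_mul_const _ fun x => _ * b x] at this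
    simpa only [mul_assoc, id] using this
  have z2 := (integral_eq_zero_iff_of_nonneg (fun v => mul_nonneg (κ0 v) (p0 v).le) i2).1
    (z1.antisymm (integral_nonneg fun v => mul_nonneg (κ0 v) (p0 v).le))
  have z3 : ∫ v, κ v = 0 := integral_eq_zero_of_ae
    (z2.mono fun v hv => (mul_eq_zero.1 hv).resolve_right (p0 v).ne')
  rw [e1, mul_eq_zero, measureReal_eq_zero_iff n1, measureReal_eq_zero_iff n2] at z3
  exact z3

theorem e4 {m : Measure Ω} [SFinite m] {d : Ω → V} {k : V → Ω → ℝ} {W : Ω → ℝ}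
    (K : Ker m d k W) (hpos : ∀ x ξ, ∫ ω, k x ω * Real.cos ⟪ξ, d ω⟫ ∂m ≤ 0)
    {S : Set V} (hS : MeasurableSet S) (hf : volume S ≠ ⊤) {x₀ : V} {r c : ℝ} (hr : 0 < r)
    (hc : 0 < c) (hstr : ∀ x ∈ Metric.ball x₀ r, ∀ ξ : V,
      ∫ ω, k x ω * Real.cos ⟪ξ, d ω⟫ ∂m ≤ -(c * (‖ξ‖ ^ 2 / (1 + ‖ξ‖ ^ 2) ^ 2)))
    (hE : ∀ ε > 0, ∀ᶠ t in 𝓝[>] (0 : ℝ), energy m d k S t ≤ ε * t) :
    ∃ s > 0, volume (S ∩ Metric.ball x₀ s) = 0 ∨ volume (Metric.ball x₀ s \ S) = 0 := by
  obtain ⟨b, B, B1, bc, b0, b1, b2, b3, b4⟩ := exists_bump x₀ hr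
  let p : ℝ → V → ℝ := fun a v => (∫ y : V, ga a y)⁻¹ * ga a v
  have p0 : ∀ a > 0, ∀ v, 0 < p a v := fun a ha v =>
    mul_pos (inv_pos.2 (ga_int_pos ha)) (ga_pos _ _)
  have pm : ∀ a, Measurable (p a) := fun a => (ga_cont a).measurable.const_mul _
  have pi : ∀ a > 0, Integrable (p a) := fun a ha => (ga_int ha).const_mul _
  have pc : ∀ a > 0, ∀ ξ : V, ∫ v, p a v * Real.cos ⟪ξ, v⟫ = ga (1 / (4 * a)) ξ := fun a ha ξ => by
    simp only [p, mul_assoc]
    rw [integral_const_mul, ga_cos ha, inv_mul_cancel_left₀ (ga_int_pos ha).ne']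
  have p1 : ∀ a > 0, ∫ v, p a v = 1 := fun a ha => by simpa [ga] using pc a ha 0
  let q : V → ℝ := fun v => c / 192 * (p 4 v - p 1 v)
  have qi : Integrable q := ((pi 4 four_pos).sub (pi 1 one_pos)).const_mul _
  have qm : Measurable q := ((pm 4).sub (pm 1)).const_mul _
  have hb : ∀ x, |b x| ≤ 1 := fun x => (abs_of_nonneg (b0 x).1).trans_le (b0 x).2
  have K' : Ker volume id (fun x v => b x * q v) fun v => B * |q v| :=
    { md := measurable_id
      mk' := (bc.measurable.comp measurable_fst).mul (qm.comp measurable_snd)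
      sym := ⟨fun v => -v, Measure.measurePreserving_neg _, fun _ => rfl, fun x v => by
        simp only [q, p, ga_neg]⟩
      iW := by
        refine ((((ga_mom (V := V) four_pos).const_mul (∫ y : V, ga 4 y)⁻¹).sub
          ((ga_mom one_pos).const_mul (∫ y : V, ga 1 y)⁻¹)).const_mul (c / 192)).abs.const_mul B
          |>.congr (ae_of_all _ fun v => ?_)
        simp only [id, Pi.sub_apply]
        have : (1 + ‖v‖ ^ 2) * |q v| = |(1 + ‖v‖ ^ 2) * q v| := by
          rw [abs_mul _ (q v), abs_of_pos (show 0 < 1 + ‖v‖ ^ 2 by positivity)]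
        rw [mul_left_comm _ B, this]
        congr 2; simp only [q, p]; ring
      bd := fun x v => by rw [abs_mul]; gcongr; exact (hb x).trans B1
      lip := fun x y v => by rw [← sub_mul, abs_mul, ← mul_assoc]; gcongr; exact b3 x y
      two := fun x h v => by
        rw [← mul_assoc 2, ← mul_assoc _ B, ← add_mul, ← sub_mul, abs_mul]; gcongr; exact b4 x h
      zero := fun x => by
        rw [integral_const_mul, integral_const_mul, integral_sub (pi 4 four_pos) (pi 1 one_pos),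
          p1 4 four_pos, p1 1 one_pos]; simp }
  have cm : ∀ ξ : V, Measurable fun v : V => Real.cos ⟪ξ, v⟫ := fun ξ => by fun_prop
  have hpos' : ∀ x ξ, ∫ ω, Sum.elim (k x) (fun v => b x * q v) ω *
      Real.cos ⟪ξ, Sum.elim d id ω⟫ ∂(m.map Sum.inl + (volume : Measure V).map Sum.inr) ≤ 0 := by
    intro x ξ
    have ic : ∀ u : V → ℝ, Integrable u → Integrable fun v => u v * Real.cos ⟪ξ, v⟫ := fun u hu =>
      int_mul_bd hu (cm ξ).aestronglyMeasurable fun _ => Real.abs_cos_le_one _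
    refine (int_sum (int_mul_bd (K.ik x) ((cm ξ).comp K.md).aestronglyMeasurable
      fun _ => Real.abs_cos_le_one _) (ic _ (K'.ik x))).2.trans_le ?_
    have e : ∫ v, b x * q v * Real.cos ⟪ξ, v⟫ =
        b x * (c / 192 * (ga (1 / 16) ξ - ga (1 / 4) ξ)) := by
      simp only [q, mul_assoc, sub_mul]
      rw [integral_const_mul, integral_const_mul, integral_sub (ic _ (pi 4 four_pos))
        (ic _ (pi 1 one_pos)), pc 4 four_pos, pc 1 one_pos]; norm_num
    simp only [Sum.elim_inl, Sum.elim_inr, id, e]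
    by_cases hx : x ∈ Metric.ball x₀ r
    · have a1 := hstr x hx ξ
      have a2 := mul_le_mul_of_nonneg_left (mul_le_mul_of_nonneg_left (ga_diff ξ)
        (show 0 ≤ c / 192 by positivity)) (b0 x).1
      have a3 : 0 ≤ c * (‖ξ‖ ^ 2 / (1 + ‖ξ‖ ^ 2) ^ 2) := by positivity
      nlinarith only [(b0 x).2, a1, a2, a3]
    · simpa only [b2 x hx, one_div, zero_mul, add_zero, ge_iff_le] using hpos x ξ
  have fm : Measurable (S.indicator (1 : V → ℝ)) := measurable_one.indicator hS
  have ee := fun (a : ℝ) (ha : a > 0) (t : ℝ) => energy_eq (m := volume) measurable_id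
    (k := fun x v => b x * p a v)
    (Measurable.aestronglyMeasurable (by have := bc.measurable; have := pm a; fun_prop)) (pi a ha)
    (fun x v => by
      rw [abs_mul, abs_of_pos (p0 a ha v)]; exact mul_le_of_le_one_left (p0 a ha v).le (hb x))
    hS hf t
  set D := energy volume id (fun x v => b x * p 1 v) S with hD
  have D0 : Tendsto D (𝓝 0) (𝓝 0) := by
    refine squeeze_zero_norm (fun t => ?_) (mo_small measurable_id (pi 1 one_pos) (ind_int hS hf))
    rw [hD, (ee 1 one_pos t).2]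
    exact err_le (D := fun v : V => t • id v) (by fun_prop) (ind_int hS hf) fm (ind_cases S)
      (pi 1 one_pos) (r := fun z => b z.2 * p 1 z.1) fun z => by
        rw [abs_mul, abs_of_pos (p0 1 one_pos _)]
        exact mul_le_of_le_one_left (p0 1 one_pos _).le (hb _)
  have D1 : ∀ t, energy volume id (fun x v => b x * p 4 v) S t = D (t / 2) := fun t => by
    simp only [hD, energy, id, p]
    congr 1; funext x
    have := ga_scal (V := V) (t := 1 / 4) (by norm_num) 1 fun v =>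
      S.indicator 1 x * (1 - S.indicator 1 (x + t • v)) * b x
    rw [show √(1 / 4 : ℝ) = 1 / 2 by rw [Real.sqrt_eq_iff_mul_self_eq] <;> norm_num,
      one_div_one_div, ← integral_const_mul, ← integral_const_mul] at this
    simp only [smul_smul, mul_one_div] at this
    refine (integral_congr_ae (ae_of_all _ fun v => ?_)).trans (this.trans
      (integral_congr_ae (ae_of_all _ fun v => ?_))) <;> ring
  have D2 : ∀ t, energy volume id (fun x v => b x * q v) S t = c / 192 * (D (t / 2) - D t) := by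
    intro t
    rw [← D1, hD, (ee 4 four_pos t).2, (ee 1 one_pos t).2, ← integral_sub (ee 4 four_pos t).1
      (ee 1 one_pos t).1, ← integral_const_mul, (energy_eq K'.md (K'.mk'.comp
        measurable_swap).aestronglyMeasurable K'.iW1 K'.bd hS hf t).2]
    congr 1; funext z; simp only [q]; ring
  refine ⟨r / 8, by positivity, final hS hf hr bc b0 b1 (pm 1) (pi 1 one_pos) (p0 1 one_pos)
    fun ε hε => ?_⟩
  have hη : 0 < ε / 4 * (c / 192) := by positivity
  have := telesc D0 (η := ε / 2) (by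
    filter_upwards [e1 (K.sum K') hpos' hS hf hη, hE _ hη] with t h1 h2
    rw [energy_sum K K' hS hf, D2] at h1
    refine le_of_mul_le_mul_left ?_ (show 0 < c / 192 by positivity)
    linarith)
  exact this.mono fun t ht => ht.trans_eq (by ring)

end E14

variable (V : Type) [NormedAddCommGroup V] [InnerProductSpace ℝ V] [FiniteDimensional ℝ V]
  [MeasurableSpace V] [BorelSpace V]

theorem e1' : E1_s V := fun K h _ hS hf _ hε => E14.e1 K h hS hf hε

theorem e4' : E4_s V := fun K h _ hS hf _ _ _ hr hc h1 h2 => E14.e4 K h hS hf hr hc h1 h2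

theorem es : ES_s V := fun hd _ hW _ hS hf => E14.energy_small hd hW hS hf

end Pool.Agent.MP_596265_gt.En
end

end
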