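import Pool.Agent.MP_596265_gt.W.Ea
import Pool.Agent.MP_596265_gt.W.Eb
import Pool.Agent.MP_596265_gt.W.A0

section

section
/-! Assembly of the energy argument. -/

namespace Pool.Agent.MP_596265_gt.En

open MeasureTheory Filter Topology Set Metric UpperHalfPlane Gau
open scoped RealInnerProductSpace

namespace Fn

variable {V : Type} [NormedAddCommGroup V] [InnerProductSpace ℝ V] [FiniteDimensional ℝ V]
  [MeasurableSpace V] [BorelSpace V]

open Classical in
/-- truncation of an operator to the cone -/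
noncomputable def cl (L : ℝ) (N : V →L[ℝ] V) : V →L[ℝ] V := if Cov L N then N else 1

omit [FiniteDimensional ℝ V] [MeasurableSpace V] [BorelSpace V] in
lemma cov_one {L : ℝ} (hL : 1 ≤ L) : Cov L (1 : V →L[ℝ] V) := by
  refine ⟨fun u v => by simp, fun u => ?_, (ContinuousLinearMap.norm_id_le).trans hL⟩
  have : qf (1 : V →L[ℝ] V) u = ‖u‖ ^ 2 := by simp [qf]
  rw [this]
  nlinarith only [hL]

omit [FiniteDimensional ℝ V] [MeasurableSpace V] [BorelSpace V] in
lemma cl_cov {L : ℝ} (hL : 1 ≤ L) (N : V →L[ℝ] V) : Cov L (cl L N) := by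
  unfold cl
  split_ifs with h
  exacts [h, cov_one hL]

omit [FiniteDimensional ℝ V] [MeasurableSpace V] [BorelSpace V] in
lemma cl_eq {L : ℝ} {N : V →L[ℝ] V} (h : Cov L N) : cl L N = N := if_pos h

omit [FiniteDimensional ℝ V] [MeasurableSpace V] [BorelSpace V] in
lemma closed_cov (L : ℝ) : IsClosed {N : V →L[ℝ] V | Cov L N} := by
  have e : {N : V →L[ℝ] V | Cov L N} = (⋂ u, ⋂ v, {N : V →L[ℝ] V | ⟪N u, v⟫ = ⟪u, N v⟫}) ∩
      ((⋂ u, {N : V →L[ℝ] V | ‖u‖ ^ 2 ≤ L * ⟪N u, u⟫}) ∩ {N | ‖N‖ ≤ L}) := by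
    ext N
    simp only [mem_ofPred_eq, mem_inter_iff, mem_iInter]
    exact ⟨fun h => ⟨h.1, h.2, h.3⟩, fun h => ⟨h.1, h.2.1, h.2.2⟩⟩
  rw [e]
  refine (isClosed_iInter fun u => isClosed_iInter fun v => isClosed_eq ?_ ?_).inter
    ((isClosed_iInter fun u => isClosed_le ?_ ?_).inter (isClosed_le ?_ ?_)) <;> fun_prop

omit [FiniteDimensional ℝ V] [MeasurableSpace V] [BorelSpace V] in
lemma meas_cl (L : ℝ) : Measurable (cl (V := V) L) :=
  Measurable.ite (closed_cov L).measurableSet measurable_id measurable_const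

omit [FiniteDimensional ℝ V] [MeasurableSpace V] [BorelSpace V] in
lemma qf_nonneg {L : ℝ} (hL : 1 ≤ L) {N : V →L[ℝ] V} (h : Cov L N) (u : V) : 0 ≤ ⟪N u, u⟫ := by
  have h1 := h.lo u
  unfold qf at h1
  by_contra hn
  push Not at hn
  nlinarith only [hL, h1, hn]

/-- the measure on pairs of base points -/
noncomputable def QQ (R ρ : ℝ) : Measure (ℍ × ℍ) :=
  (volume.restrict (closedBall I R)).prod (volume.restrict (closedBall I (R + ρ)))

lemma fin_ball (R : ℝ) : IsFiniteMeasure ((volume : Measure ℍ).restrict (closedBall I R)) :=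
  isFiniteMeasure_restrict.2 (isCompact_closedBall _ _).measure_lt_top.ne

lemma fin_QQ (R ρ : ℝ) : IsFiniteMeasure (QQ R ρ) := by
  have := fin_ball R
  have := fin_ball (R + ρ)
  unfold QQ
  infer_instance

lemma meas_near (ρ : ℝ) : MeasurableSet {p : ℍ × ℍ | dist p.2 p.1 < ρ} :=
  (isOpen_lt (by fun_prop) continuous_const).measurableSet

lemma conv {R ρ B : ℝ} {b : ℍ → ℝ} {g : ℍ × ℍ → ℝ} (hb : Measurable b) (hg : Measurable g)
    (bb : ∀ z, |b z| ≤ B) (bg : ∀ p, |g p| ≤ B) (hs : ∀ z, b z ≠ 0 → z ∈ closedBall I R) :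
    ∫ p, (if dist p.2 p.1 < ρ then b p.1 else 0) * g p ∂QQ R ρ =
      ∫ z, b z * ∫ w in ball z ρ, g (z, w) := by
  have := fin_ball R
  have := fin_ball (R + ρ)
  have B0 : 0 ≤ B := (abs_nonneg _).trans (bb I)
  have hm : Measurable fun p : ℍ × ℍ => (if dist p.2 p.1 < ρ then b p.1 else 0) * g p :=
    (Measurable.ite (meas_near ρ) (hb.comp measurable_fst) measurable_const).mul hg
  unfold QQ
  rw [integral_prod _ (Integrable.of_bound hm.aestronglyMeasurable (B * B) (ae_of_all _ fun p => by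
    rw [Real.norm_eq_abs, abs_mul]
    refine mul_le_mul ?_ (bg p) (abs_nonneg _) B0
    split_ifs
    exacts [bb _, by simpa only [abs_zero] using B0])),
    ← setIntegral_eq_integral_of_forall_compl_eq_zero (s := closedBall I R)
      (f := fun z => b z * ∫ w in ball z ρ, g (z, w)) fun z hz => by
        have : b z = 0 := by_contra fun h => hz (hs z h)
        simp [this]]
  refine setIntegral_congr_fun isClosed_closedBall.measurableSet fun z hz => ?_
  have e : (fun w : ℍ => (if dist w z < ρ then b z else 0) * g (z, w)) =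
      (ball z ρ).indicator fun w => b z * g (z, w) := by
    funext w
    by_cases h : dist w z < ρ <;> simp [indicator, mem_ball, h]
  have hsub : closedBall I (R + ρ) ∩ ball z ρ = ball z ρ := by
    refine inter_eq_right.2 fun w hw => ?_
    have h1 := mem_ball.1 hw
    have h2 := mem_closedBall.1 hz
    exact mem_closedBall.2 ((dist_triangle w z I).trans (by linarith))
  simp only
  rw [e, setIntegral_indicator isOpen_ball.measurableSet, hsub, integral_const_mul]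

omit [InnerProductSpace ℝ V] [FiniteDimensional ℝ V] [MeasurableSpace V] [BorelSpace V] in
lemma exists_R {N : Set (V × ℂ)} (hN : IsCompact N) (him : ∀ q ∈ N, 0 < q.2.im) :
    ∃ R, ∀ x (z : ℍ), (x, (z : ℂ)) ∈ N → z ∈ closedBall I R := by
  have h1 : IsCompact (Prod.snd '' N) := hN.image continuous_snd
  have h2 : IsCompact (((↑) : ℍ → ℂ) ⁻¹' (Prod.snd '' N)) := by
    refine isOpenEmbedding_coe.isInducing.isCompact_preimage' h1 ?_
    rintro _ ⟨q, hq, rfl⟩
    exact ⟨⟨q.2, him q hq⟩, rfl⟩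
  obtain ⟨R, hR⟩ := h2.isBounded.subset_closedBall I
  exact ⟨R, fun x z h => hR ⟨_, h, rfl⟩⟩

lemma ind_mem {V : Type} (S : Set V) (y : V) : 0 ≤ 1 - S.indicator (1 : V → ℝ) y ∧
    1 - S.indicator (1 : V → ℝ) y ≤ 1 := by
  by_cases h : y ∈ S <;> simp [h]

lemma meas_ind {V : Type} [MeasurableSpace V] {S : Set V} (hS : MeasurableSet S) {X : Type} [MeasurableSpace X] {f : X → V}
    (hf : Measurable f) : Measurable fun p => 1 - S.indicator (1 : V → ℝ) (f p) :=
  measurable_const.sub ((measurable_one.indicator hS).comp hf)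

lemma psi_mem (h : GS_s V) {L : ℝ} {T : V →L[ℝ] V} (hT : Cov L T) (S : Set V) (x : V) (τ : ℝ) :
    0 ≤ psi S x T τ ∧ psi S x T τ ≤ 1 := by
  obtain ⟨-, h0, -, h1, -⟩ := h
  refine ⟨integral_nonneg fun v => mul_nonneg (ind_mem S _).1 (h0 T v), ?_⟩
  rw [← (h1 L T hT).2.1]
  exact integral_mono_of_nonneg (ae_of_all _ fun v => mul_nonneg (ind_mem S _).1 (h0 T v))
    (h1 L T hT).1 (ae_of_all _ fun v => mul_le_of_le_one_left (h0 T v) (ind_mem S _).2)

lemma meas_psi (h : GS_s V) {S : Set V} (hS : MeasurableSet S) {X : Type} [MeasurableSpace X]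
    {x : X → V} {T : X → V →L[ℝ] V} {τ : X → ℝ} (hx : Measurable x) (hT : Measurable T)
    (hτ : Measurable τ) : Measurable fun p => psi S (x p) (T p) (τ p) := by
  have : Measurable fun q : X × V =>
      (1 - S.indicator (1 : V → ℝ) (x q.1 + τ q.1 • q.2)) * gam (T q.1) q.2 :=
    (meas_ind hS (by fun_prop)).mul (h.1.comp ((hT.comp measurable_fst).prodMk measurable_snd))
  exact this.stronglyMeasurable.integral_prod_right'.measurable

/-- exit probability mixed over the scales -/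
noncomputable def HH (γ : Measure ℝ) (S : Set V) (t : ℝ) (x : V) (T : V →L[ℝ] V) : ℝ :=
  ∫ s, psi S x T (t * s) ∂γ

lemma HH_bd (h : GS_s V) (γ : Measure ℝ) [IsFiniteMeasure γ] {L : ℝ} {T : V →L[ℝ] V}
    (hT : Cov L T) (S : Set V) (t : ℝ) (x : V) : |HH γ S t x T| ≤ γ.real univ := by
  have := norm_integral_le_of_norm_le_const (μ := γ) (f := fun s => psi S x T (t * s)) (C := 1)
    (ae_of_all _ fun s => by
      have := psi_mem h hT S x (t * s)
      rw [Real.norm_eq_abs, abs_of_nonneg this.1]; exact this.2)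
  simpa only [HH, ge_iff_le, Real.norm_eq_abs, one_mul] using this

lemma meas_HH (h : GS_s V) (γ : Measure ℝ) [IsFiniteMeasure γ] {S : Set V} (hS : MeasurableSet S)
    (t : ℝ) {X : Type} [MeasurableSpace X] {x : X → V} {T : X → V →L[ℝ] V} (hx : Measurable x)
    (hT : Measurable T) : Measurable fun p => HH γ S t (x p) (T p) := by
  have : Measurable fun q : X × ℝ => psi S (x q.1) (T q.1) (t * q.2) :=
    meas_psi h hS (hx.comp measurable_fst) (hT.comp measurable_fst) (by fun_prop)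
  exact this.stronglyMeasurable.integral_prod_right'.measurable

/-- the relative error term -/
noncomputable def JJ (γ : Measure ℝ) (c : ℝ) (S : Set V) (t : ℝ) (x : V) : ℝ :=
  ∫ p : ℝ × V, (1 - S.indicator 1 (x + t • p.1 • p.2)) * (|p.1| * Real.exp (-(c * ‖p.2‖ ^ 2)))
    ∂γ.prod volume

lemma int_abs {γ : Measure ℝ} {c₀ : ℝ} (hγ : Gam γ c₀) : Integrable (fun s : ℝ => |s|) γ := by
  have := hγ.fin
  refine ((integrable_const (1 : ℝ)).add hγ.sq).mono' (by fun_prop) (ae_of_all _ fun s => ?_)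
  simp only [Real.norm_eq_abs, abs_abs, Pi.add_apply]
  nlinarith only [sq_abs s]

lemma int_W (h : GS_s V) {γ : Measure ℝ} {c₀ c : ℝ} (hγ : Gam γ c₀) (hc : 0 < c) :
    Integrable (fun p : ℝ × V => |p.1| * Real.exp (-(c * ‖p.2‖ ^ 2))) (γ.prod volume) := by
  have := hγ.fin
  have h1 := h.2.2.2.2 c hc 0
  simp only [pow_zero, one_mul] at h1
  exact (int_abs hγ).mul_prod h1

lemma int_J (h : GS_s V) {γ : Measure ℝ} {c₀ c : ℝ} (hγ : Gam γ c₀) (hc : 0 < c) {S : Set V}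
    (hS : MeasurableSet S) (t : ℝ) (x : V) : Integrable (fun p : ℝ × V =>
      (1 - S.indicator 1 (x + t • p.1 • p.2)) * (|p.1| * Real.exp (-(c * ‖p.2‖ ^ 2))))
      (γ.prod volume) :=
  (int_W h hγ hc).bdd_mul (c := 1) (meas_ind hS (by fun_prop)).aestronglyMeasurable
    (ae_of_all _ fun p => by
      rw [Real.norm_eq_abs, abs_of_nonneg (ind_mem S _).1]; exact (ind_mem S _).2)

lemma JJ_mem (h : GS_s V) {γ : Measure ℝ} {c₀ c : ℝ} (hγ : Gam γ c₀) (hc : 0 < c) (S : Set V)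
    (t : ℝ) (x : V) : 0 ≤ JJ γ c S t x ∧ JJ γ c S t x ≤
      ∫ p : ℝ × V, |p.1| * Real.exp (-(c * ‖p.2‖ ^ 2)) ∂γ.prod volume := by
  have h0 : ∀ p : ℝ × V, 0 ≤ |p.1| * Real.exp (-(c * ‖p.2‖ ^ 2)) := fun p => by positivity
  exact ⟨integral_nonneg fun p => mul_nonneg (ind_mem S _).1 (h0 p), integral_mono_of_nonneg
    (ae_of_all _ fun p => mul_nonneg (ind_mem S _).1 (h0 p)) (int_W h hγ hc)
    (ae_of_all _ fun p => mul_le_of_le_one_left (h0 p) (ind_mem S _).2)⟩

lemma meas_JJ (γ : Measure ℝ) [IsFiniteMeasure γ] (c : ℝ) {S : Set V} (hS : MeasurableSet S)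
    (t : ℝ) : Measurable (JJ γ c S t) := by
  have : Measurable fun q : V × ℝ × V => (1 - S.indicator (1 : V → ℝ) (q.1 + t • q.2.1 • q.2.2)) *
      (|q.2.1| * Real.exp (-(c * ‖q.2.2‖ ^ 2))) := (meas_ind hS (by fun_prop)).mul (by fun_prop)
  exact this.stronglyMeasurable.integral_prod_right'.measurable

lemma energy_JJ (γ : Measure ℝ) (c : ℝ) {S : Set V} (hS : MeasurableSet S) (t : ℝ) :
    energy (γ.prod volume) (fun p : ℝ × V => p.1 • p.2)
      (fun _ p => |p.1| * Real.exp (-(c * ‖p.2‖ ^ 2))) S t = ∫ x in S, JJ γ c S t x := by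
  rw [← integral_indicator hS]
  refine integral_congr_ae (ae_of_all _ fun x => ?_)
  by_cases hx : x ∈ S <;> simp [hx, JJ]

lemma HH_le (h : GS_s V) {γ : Measure ℝ} {c₀ c K L t : ℝ} (hγ : Gam γ c₀) (hc : 0 < c)
    (ht : 0 < t) {S S' : Set V} (hS : MeasurableSet S) (hS' : MeasurableSet S') {x x' : V}
    {T T' : V →L[ℝ] V} (hT : Cov L T) (hT' : Cov L T')
    (hE : ∀ τ > (0 : ℝ), psi S x T τ ≤ psi S' x' T' τ +
      K * τ * (∫ v, (1 - S.indicator 1 (x + τ • v)) * Real.exp (-(c * ‖v‖ ^ 2))) + K * τ ^ 2) :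
    HH γ S t x T ≤ HH γ S' t x' T' + (K * t * JJ γ c S t x + K * t ^ 2 * ∫ s, s ^ 2 ∂γ) := by
  have := hγ.fin
  have ip : ∀ {S : Set V} {x : V} {T : V →L[ℝ] V}, MeasurableSet S → Cov L T →
      Integrable (fun s => psi S x T (t * s)) γ := fun {S x T} hS hT =>
    Integrable.of_bound (meas_psi h hS measurable_const measurable_const
      (by fun_prop)).aestronglyMeasurable 1 (ae_of_all _ fun s => by
        have := psi_mem h hT S x (t * s)
        rw [Real.norm_eq_abs, abs_of_nonneg this.1]; exact this.2)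
  have iJ := (int_J h hγ hc hS t x).integral_prod_left
  unfold HH JJ
  rw [integral_prod _ (int_J h hγ hc hS t x), ← integral_const_mul, ← integral_const_mul,
    ← integral_add (iJ.const_mul _) (hγ.sq.const_mul _),
    ← integral_add (ip hS' hT') ((iJ.const_mul _).fun_add (hγ.sq.const_mul _))]
  refine integral_mono_ae (ip hS hT) ((ip hS' hT').fun_add ((iJ.const_mul _).fun_add
    (hγ.sq.const_mul _))) (hγ.pos.mono fun s hs => ?_)
  have h1 := hE (t * s) (mul_pos ht hs)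
  have e : ∫ v, (1 - S.indicator (1 : V → ℝ) (x + t • s • v)) * (|s| * Real.exp (-(c * ‖v‖ ^ 2))) =
      s * ∫ v, (1 - S.indicator (1 : V → ℝ) (x + (t * s) • v)) * Real.exp (-(c * ‖v‖ ^ 2)) := by
    rw [← integral_const_mul, abs_of_pos hs]
    refine integral_congr_ae (ae_of_all _ fun v => ?_)
    simp only [mul_smul]
    ring
  simp only [e]
  linarith only [h1]

omit [MeasurableSpace V] [BorelSpace V] [FiniteDimensional ℝ V] in
lemma tame_congr {X : Type} [NormedAddCommGroup X] {x₀ : V} {δ L : ℝ} {f g : V → X}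
    (h : Tame (ball x₀ δ) L f) (e : ∀ x ∈ ball x₀ δ, g x = f x) : Tame (ball x₀ δ) L g := by
  refine ⟨fun x hx => e x hx ▸ h.bd x hx, fun x hx y hy => by
    rw [e x hx, e y hy]; exact h.lip x hx y hy, fun m y h1 h2 => ?_⟩
  have hm : m ∈ ball x₀ δ := by
    have := (convex_ball x₀ δ) h1 h2 (by norm_num : (0 : ℝ) ≤ 1 / 2)
      (by norm_num : (0 : ℝ) ≤ 1 / 2) (by norm_num)
    convert this using 1
    module
  rw [e _ h1, e _ h2, e _ hm]
  exact h.sec m y h1 h2

open Classical in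
/-- measurable version of the covariance -/
noncomputable def TT (L : ℝ) (O : Set (V × ℂ)) (T : V × ℂ → V →L[ℝ] V) (q : V × ℂ) :
    V →L[ℝ] V := cl L (O.piecewise T (fun _ => 0) q)

omit [FiniteDimensional ℝ V] in
lemma meas_TT (L : ℝ) {O : Set (V × ℂ)} {T : V × ℂ → V →L[ℝ] V} (hO : IsOpen O)
    (hT : ContinuousOn T O) : Measurable (TT L O T) := by
  classical
  exact (meas_cl L).comp (by
    convert hT.measurable_piecewise (continuousOn_const (c := 0)) hO.measurableSet)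

omit [MeasurableSpace V] [BorelSpace V] [FiniteDimensional ℝ V] in
lemma TT_eq {L : ℝ} {O : Set (V × ℂ)} {T : V × ℂ → V →L[ℝ] V} {q : V × ℂ} (hq : q ∈ O)
    (h : Cov L (T q)) : TT L O T q = T q := by
  simp [TT, piecewise, hq, cl_eq h]

/-- the weight on pairs of base points -/
noncomputable def AA (a : V × ℂ → ℝ) (ρ : ℝ) (x : V) (p : ℍ × ℍ) : ℝ :=
  if dist p.2 p.1 < ρ then a (x, p.1) else 0

omit [FiniteDimensional ℝ V] in
lemma chart {O N : Set (V × ℂ)} {T : V × ℂ → V →L[ℝ] V} {a : V × ℂ → ℝ} {ρ L δ : ℝ}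
    (hL : 1 ≤ L) (hδ : 0 < δ) (hO : IsOpen O) (hT : ContinuousOn T O) (ha : Continuous a)
    (h1 : ∀ q ∈ N, (∀ x ∈ ball q.1 δ, (x, q.2) ∈ O ∧ Cov L (T (x, q.2))) ∧
      Tame (ball q.1 δ) L (fun x => T (x, q.2))) (h2 : ∀ w, Tame univ L (fun x => a (x, w)))
    {σ : ℍ × ℍ → ℍ} (hσ : Measurable σ)
    (h3 : ∀ x (p : ℍ × ℍ), a (x, p.1) ≠ 0 → dist p.2 p.1 < ρ → (x, (σ p : ℂ)) ∈ N) :
    Chart L δ (AA a ρ) (fun x p => TT L O T (x, σ p)) := by
  refine ⟨hL, hδ, ?_, ?_, fun p => ?_, fun p x₀ _ x _ => cl_cov hL _, fun p x₀ h => ?_⟩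
  · exact Measurable.ite (measurable_snd (meas_near ρ)) (ha.measurable.comp (measurable_fst.prodMk
      (measurable_coe.comp measurable_snd.fst))) measurable_const
  · exact (meas_TT L hO hT).comp (measurable_fst.prodMk
      (measurable_coe.comp (hσ.comp measurable_snd)))
  · unfold AA
    split_ifs
    · exact h2 _
    · exact ⟨fun _ _ => by simp; linarith, fun _ _ _ _ => by simp only [sub_self, norm_zero]; positivity,
        fun _ _ _ _ => by simp only [add_zero, sub_self, norm_zero]; positivity⟩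
  · unfold AA at h
    split_ifs at h with hd
    · have := h1 _ (h3 x₀ p h hd)
      exact tame_congr this.2 fun x hx => TT_eq (this.1 x hx).1 (this.1 x hx).2
    · exact absurd rfl h

lemma q4_bd {y : ℝ} (hy : 0 ≤ y) :
    0 ≤ (1 + y) ^ (-(1 / 4) : ℝ) ∧ (1 + y) ^ (-(1 / 4) : ℝ) ≤ 1 :=
  ⟨by positivity, Real.rpow_le_one_of_one_le_of_nonpos (by linarith) (by norm_num)⟩

end Fn

open Fn in
theorem energy_main (V : Type) [NormedAddCommGroup V] [InnerProductSpace ℝ V]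
    [FiniteDimensional ℝ V] [MeasurableSpace V] [BorelSpace V] (hG : GAM_s) (hS : GS_s V)
    (hE2 : E2_s V) (hKA : KA_s V) (hKB : KB_s V) (hZ : ZY_s V) (hY : SYM_s V) (h1 : E1_s V)
    (h4 : E4_s V) (hs : ES_s V) {J : Type} [Fintype J] (S : J → Set V)
    (O N : J → Set (V × ℂ)) (T : J → V × ℂ → V →L[ℝ] V) (a : J → V × ℂ → ℝ) (ρ : ℝ)
    (h : Sys S O N T a ρ) (j₀ : J) (x₀ : V) (z₀ : ℍ) (ha : a j₀ (x₀, z₀) ≠ 0)
    (hst : ∀ ξ ≠ 0, ¬ ∀ᶠ w in 𝓝 (z₀ : ℂ), ⟪T j₀ (x₀, w) ξ, ξ⟫ = ⟪T j₀ (x₀, z₀) ξ, ξ⟫) :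
    ∃ s > 0, volume (S j₀ ∩ ball x₀ s) = 0 ∨ volume (ball x₀ s \ S j₀) = 0 := by
  classical
  obtain ⟨γ, c₀, hγ⟩ := hG
  have := hγ.fin
  choose δ δ0 L₁ hL₁ using fun j =>
    hZ.1 (O j) (N j) (T j) (h.oO j) (h.cN j) (h.NO j) (h.cT j) (h.sT j) (h.pT j)
  choose L₂ hL₂ using fun j => hZ.2 (N j) (a j) (h.cN j) (h.ca j) (h.aN j)
  choose R hR using fun j => exists_R (h.cN j) fun q hq => h.imO j q (h.NO j hq)
  obtain ⟨L, hL, hL'⟩ : ∃ L : ℝ, 1 ≤ L ∧ ∀ j, L ≥ L₁ j ∧ L ≥ L₂ j :=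
    ((eventually_ge_atTop 1).and (eventually_all.2 fun j =>
      (eventually_ge_atTop (L₁ j)).and (eventually_ge_atTop (L₂ j)))).exists
  have z1 := fun j => hL₁ j L (hL' j).1
  have z2 := fun j => hL₂ j L (hL' j).2
  have eN : ∀ j, ∀ q ∈ N j, TT L (O j) (T j) q = T j q ∧ Cov L (T j q) := fun j q hq =>
    have := (z1 j q hq).1 q.1 (mem_ball_self (δ0 j))
    ⟨TT_eq this.1 this.2, this.2⟩
  have mT := fun j => meas_TT L (h.oO j) (h.cT j).continuousOn
  have c0 : ∀ j, Chart L (δ j) (AA (a j) ρ) (fun x p => TT L (O j) (T j) (x, (p.1 : ℍ))) :=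
    fun j => chart hL (δ0 j) (h.oO j) (h.cT j).continuousOn (h.ca j).continuous (z1 j) (z2 j)
      measurable_fst fun x p hp _ => h.aN j _ hp
  have c1 : ∀ j, Chart L (δ j) (AA (a j) ρ) (fun x p => TT L (O j) (T j) (x, (p.2 : ℍ))) :=
    fun j => chart hL (δ0 j) (h.oO j) (h.cT j).continuousOn (h.ca j).continuous (z1 j) (z2 j)
      measurable_snd fun x p hp hd => h.step j x p.1 p.2 hp hd.le
  have fQ := fun j => fin_QQ (R j) ρ
  choose W hW using fun j => hKA (QQ (R j) ρ) γ c₀ L (δ j) _ _ _ hγ (c0 j) (c1 j)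
  have kb := fun j => hKB (QQ (R j) ρ) γ c₀ L (δ j) _ _ _ hγ (c0 j) (c1 j)
  have ma : ∀ j x, Measurable fun z : ℍ => a j (x, z) := fun j x =>
    (h.ca j).continuous.measurable.comp (measurable_const.prodMk measurable_coe)
  have ba : ∀ j x (z : ℍ), |a j (x, z)| ≤ L := fun j x z => (z2 j z).bd x (mem_univ _)
  have sa : ∀ j x (z : ℍ), a j (x, z) ≠ 0 → z ∈ closedBall I (R j) := fun j x z hz =>
    hR j x z (h.aN j _ hz)
  have mT1 : ∀ j x, Measurable fun z : ℍ => TT L (O j) (T j) (x, z) := fun j x =>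
    (mT j).comp (measurable_const.prodMk measurable_coe)
  have sy : ∀ j x ξ, ∫ p, AA (a j) ρ x p *
      ((1 + ⟪TT L (O j) (T j) (x, (p.2 : ℍ)) ξ, ξ⟫) ^ (-(1 / 4) : ℝ) -
        (1 + ⟪TT L (O j) (T j) (x, (p.1 : ℍ)) ξ, ξ⟫) ^ (-(1 / 4) : ℝ)) ∂QQ (R j) ρ =
      symb V (T j) (a j) ρ x ξ := fun j x ξ => by
    have mq : Measurable fun z : ℍ => (1 + ⟪TT L (O j) (T j) (x, z) ξ, ξ⟫) ^ (-(1 / 4) : ℝ) := by
      have hc : Continuous fun M : V →L[ℝ] V => 1 + ⟪M ξ, ξ⟫ := by fun_prop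
      exact (hc.measurable.comp (mT1 j x)).pow_const _
    unfold AA symb
    refine (conv (B := L) (g := fun p : ℍ × ℍ =>
      (1 + ⟪TT L (O j) (T j) (x, (p.2 : ℍ)) ξ, ξ⟫) ^ (-(1 / 4) : ℝ) -
        (1 + ⟪TT L (O j) (T j) (x, (p.1 : ℍ)) ξ, ξ⟫) ^ (-(1 / 4) : ℝ)) (ma j x)
      ((mq.comp measurable_snd).sub (mq.comp measurable_fst)) (ba j x)
      (fun p => by
        have a1 := q4_bd (qf_nonneg hL (cl_cov hL ((O j).piecewise (T j) (fun _ => 0)
          (x, (p.1 : ℍ)))) ξ)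
        have a2 := q4_bd (qf_nonneg hL (cl_cov hL ((O j).piecewise (T j) (fun _ => 0)
          (x, (p.2 : ℍ)))) ξ)
        simp only [TT]
        rw [abs_le]
        constructor <;> linarith only [a1.1, a1.2, a2.1, a2.2, hL]) (sa j x)).trans ?_
    refine integral_congr_ae (ae_of_all _ fun z => ?_)
    by_cases hz : a j (x, z) = 0
    · simp only [hz, one_div, zero_mul]
    · simp only
      congr 1
      refine setIntegral_congr_fun isOpen_ball.measurableSet fun w hw => ?_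
      rw [(eN j _ (h.aN j _ hz)).1, (eN j _ (h.step j x z w hz (mem_ball.1 hw).le)).1]
  have hy := fun j => hY S O N T a ρ h j
  have hpos : ∀ j (x ξ : V), ∫ p : (ℍ × ℍ) × ℝ × V, AA (a j) ρ x p.1 *
      (gam (TT L (O j) (T j) (x, (p.1.2 : ℍ))) p.2.2 -
        gam (TT L (O j) (T j) (x, (p.1.1 : ℍ))) p.2.2) * Real.cos ⟪ξ, p.2.1 • p.2.2⟫
        ∂(QQ (R j) ρ).prod (γ.prod volume) ≤ 0 := fun j x ξ => by
    rw [(kb j).1 x ξ, sy]
    exact mul_nonpos_of_nonneg_of_nonpos hγ.c_pos.le ((hy j).1 x ξ)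
  obtain ⟨r₁, r0, c₁, cp, hstr⟩ := (hy j₀).2 x₀ z₀ ha hst
  refine h4 (hW j₀) (hpos j₀) (h.mS j₀) (h.fS j₀) r0 (mul_pos hγ.c_pos cp) (fun x hx ξ => ?_) ?_
  · rw [(kb j₀).1 x ξ, sy, mul_assoc, ← mul_neg]
    exact mul_le_mul_of_nonneg_left (hstr x hx ξ) hγ.c_pos.le
  obtain ⟨r, r0, C, ws⟩ := h.ws
  obtain ⟨c, K, cp, K0, e2⟩ := hE2 L r C hL r0
  set En : J → ℝ → ℝ := fun j t => energy ((QQ (R j) ρ).prod (γ.prod volume))
    (fun p : (ℍ × ℍ) × ℝ × V => p.2.1 • p.2.2) (fun x p => AA (a j) ρ x p.1 *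
      (gam (TT L (O j) (T j) (x, (p.1.2 : ℍ))) p.2.2 -
        gam (TT L (O j) (T j) (x, (p.1.1 : ℍ))) p.2.2)) (S j) t with hEn
  set m2 : ℝ := ∫ s, s ^ 2 ∂γ with hm2
  have m0 : 0 ≤ m2 := integral_nonneg fun s => sq_nonneg s
  have key : ∀ t > (0 : ℝ), ∑ j, En j t ≤ t * (C * ∑ j,
      (K * (∫ x in S j, JJ γ c (S j) t x) + K * t * m2 * volume.real (S j))) := fun t ht => by
    set J0 : ℝ := ∫ p : ℝ × V, |p.1| * Real.exp (-(c * ‖p.2‖ ^ 2)) ∂γ.prod volume with hJ0
    have jm := fun j x => JJ_mem hS hγ cp (S j) t x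
    have mH : ∀ j, Measurable fun q : V × ℍ => HH γ (S j) t q.1 (TT L (O j) (T j) (q.1, q.2)) :=
      fun j => meas_HH hS γ (h.mS j) t measurable_fst ((mT j).comp
        (measurable_fst.prodMk (measurable_coe.comp measurable_snd)))
    have bH : ∀ j (q : V × ℍ), |HH γ (S j) t q.1 (TT L (O j) (T j) (q.1, q.2))| ≤ γ.real univ :=
      fun j q => HH_bd hS γ (cl_cov hL _) _ _ _
    have g0 : 0 ≤ γ.real univ := measureReal_nonneg
    have w := ws (fun j q => HH γ (S j) t q.1 (TT L (O j) (T j) (q.1, q.2)))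
      (fun j x => K * t * JJ γ c (S j) t x + K * t ^ 2 * m2)
      (max (γ.real univ) (K * t * J0 + K * t ^ 2 * m2)) mH
      (fun j => ((meas_JJ γ c (h.mS j) t).const_mul _).add_const _)
      (fun j q => (bH j q).trans (le_max_left _ _))
      (fun j x => ⟨by have := (jm j x).1; positivity, le_max_of_le_right (by
        have := mul_le_mul_of_nonneg_left (jm j x).2 (mul_nonneg K0 ht.le); linarith)⟩)
      (fun j j' x x' z z' _ hq hq' tr => by
        simp only
        rw [(eN j _ hq).1, (eN j' _ hq').1]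
        exact HH_le hS hγ cp ht (h.mS j) (h.mS j') (eN j _ hq).2 (eN j' _ hq').2
          (e2 _ _ _ _ _ _ (h.mS j) (h.mS j') (eN j _ hq).2 (eN j' _ hq').2 tr))
    refine le_of_eq_of_le (Finset.sum_congr rfl fun j _ => ?_) (w.trans_eq ?_)
    · rw [hEn]
      simp only
      rw [(kb j).2 (S j) (h.mS j) t]
      refine integral_congr_ae (ae_of_all _ fun x => ?_)
      have mx : Measurable fun z : ℍ => HH γ (S j) t x (TT L (O j) (T j) (x, z)) :=
        (mH j).comp (measurable_const.prodMk measurable_id)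
      exact conv (B := max L (2 * γ.real univ)) (g := fun p : ℍ × ℍ =>
        HH γ (S j) t x (TT L (O j) (T j) (x, (p.2 : ℍ))) -
          HH γ (S j) t x (TT L (O j) (T j) (x, (p.1 : ℍ)))) (ma j x)
        ((mx.comp measurable_snd).sub (mx.comp measurable_fst))
        (fun z => (ba j x z).trans (le_max_left _ _)) (fun p => le_max_of_le_right
          ((abs_sub _ _).trans (by linarith [bH j (x, p.1), bH j (x, p.2)]))) (sa j x)
    · rw [mul_left_comm, Finset.mul_sum, Finset.mul_sum, Finset.mul_sum]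
      refine Finset.sum_congr rfl fun j _ => ?_
      have : IsFiniteMeasure (volume.restrict (S j)) := isFiniteMeasure_restrict.2 (h.fS j)
      have iJ : Integrable (JJ γ c (S j) t) (volume.restrict (S j)) :=
        Integrable.of_bound (meas_JJ γ c (h.mS j) t).aestronglyMeasurable J0 (ae_of_all _ fun x => by
          rw [Real.norm_eq_abs, abs_of_nonneg (jm j x).1]; exact (jm j x).2)
      rw [integral_add (iJ.const_mul _) (integrable_const _), integral_const_mul,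
        setIntegral_const, smul_eq_mul]
      ring
  have lim : Tendsto (fun t : ℝ => C * ∑ j, (K * (∫ x in S j, JJ γ c (S j) t x) +
      K * t * m2 * volume.real (S j))) (𝓝 0) (𝓝 0) := by
    have : Tendsto (fun t : ℝ => C * ∑ j, (K * (∫ x in S j, JJ γ c (S j) t x) +
        K * t * m2 * volume.real (S j))) (𝓝 0)
        (𝓝 (C * ∑ j, (K * 0 + K * 0 * m2 * volume.real (S j)))) := by
      refine (tendsto_finsetSum _ fun j _ => Tendsto.add (Tendsto.const_mul _ ?_) ?_).const_mul _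
      · exact (hs (by fun_prop) (int_W hS hγ cp) (h.mS j) (h.fS j)).congr fun t =>
          energy_JJ γ c (h.mS j) t
      · exact Continuous.tendsto (by fun_prop) _
    simpa only [mul_zero, zero_mul, add_zero, Finset.sum_const_zero] using this
  intro ε hε
  have n0 : (0 : ℝ) < Fintype.card J + 1 := by positivity
  have e0 : 0 < ε / (Fintype.card J + 1) := by positivity
  filter_upwards [self_mem_nhdsWithin, (lim.eventually (gt_mem_nhds e0)).filter_mono nhdsWithin_le_nhds,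
    eventually_all.2 fun j => h1 (hW j) (hpos j) (h.mS j) (h.fS j) _ e0] with t ht b1 b2
  have ht' : (0 : ℝ) < t := ht
  have b3 := (key t ht').trans (mul_le_mul_of_nonneg_left b1.le ht'.le)
  have b4 : En j₀ t + ε / (Fintype.card J + 1) * t ≤ ∑ j, (En j t + ε / (Fintype.card J + 1) * t) :=
    Finset.single_le_sum (f := fun j => En j t + ε / (Fintype.card J + 1) * t)
      (fun j _ => by linarith only [b2 j]) (Finset.mem_univ j₀)
  rw [Finset.sum_add_distrib, Finset.sum_const, Finset.card_univ, nsmul_eq_mul] at b4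
  have b5 : ε / (Fintype.card J + 1) * (Fintype.card J + 1) = ε := div_mul_cancel₀ _ n0.ne'
  show En j₀ t ≤ ε * t
  nlinarith only [mul_pos e0 ht', ht', b3, b4, b5]

end Pool.Agent.MP_596265_gt.En
end

namespace Pool.Agent.MP_596265_gt.En

theorem energy_thm : ENERGY := by
  intro V _ _ _ _ _ J _ S O N T a ρ h j x₀ z₀ ha hst
  exact energy_main V gamm (gs V) (e2 V (gs V)) (ka V (gs V) (tg V)) (kb V (gs V) (tg V)) (zy V)
    (sym' V) (e1' V) (e4' V) (es V) S O N T a ρ h j x₀ z₀ ha hst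

end Pool.Agent.MP_596265_gt.En

end

section

attribute [-instance] Valued.toUniformSpace TotallySeparatedSpace.t2Space GradedMonoid.GradeZero.smul
  SMulWithZero.toSMulZeroClass instCoeTCOfCoe NonUnitalNonAssocRing.toAddCommGroup
  LieAdmissibleAlgebra.toModule NonUnitalNormedRing.toNonUnitalSeminormedRing Ring.toAddCommGroup
  AddQuantale.instAddLeftMono Units.instSMul AddMonoidWithOne.toAddMonoid RightPreLieAlgebra.toModule
  NonUnitalSeminormedRing.toPseudoMetricSpace LeftPreLieAlgebra.toModule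
  ESeminormedAddCommMonoid.toAddCommMonoid ContMDiffMul.toIsManifold NumberField.to_charZero
  CompactSpace.sigmaCompact NonUnitalNonAssocSemiring.toAddCommMonoid AddQuantale.instAddRightMono
  NonUnitalNormedCommRing.toNonUnitalSeminormedCommRing LieRing.toAddCommGroup
  NormedRing.toSeminormedRing Action.FintypeCat.instMulActionObjFiniteOf
  NonarchimedeanAddGroup.toIsTopologicalAddGroup SeminormedCommGroup.toPseudoMetricSpace
  Distrib.toMul Algebra.toSMul DivisionCommMonoid.toDivisionMonoid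
  CStarAlgebra.instOrderClosedTopology NonUnitalNonAssocSemiring.toMulZeroClass
  Semiring.toAddCommMonoid Quantale.instMulRightMono instSMulZeroClass
  CategoryTheory.CountableCategory.countableObj SeminormedRing.toNonUnitalSeminormedRing
  TopologicalSpace.UpgradedIsCompletelyPseudoMetrizableSpace.toPseudoMetricSpace
  UpgradedStandardBorel.toTopologicalSpace AddCommGroupWithOne.toAddCommGroup
  MonTypeEquivalenceMon.monMonoid Topology.IsScott.instClosedIicTopologyOfUnivSet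
  AlexandrovDiscrete.toLocallyCompactSpace ProperSMul.toContinuousSMul MulZeroOneClass.toMulZeroClass
  NonUnitalCStarAlgebra.toNonUnitalNormedRing

/-! Block A, part G: a finite groupoid atlas gives the input of the energy argument. -/

namespace Pool.Agent.MP_596265_gt.En

open MeasureTheory Filter Topology Set Metric UpperHalfPlane
open scoped RealInnerProductSpace MatrixGroups

variable {V : Type} [NormedAddCommGroup V] [InnerProductSpace ℝ V] [FiniteDimensional ℝ V]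
  [MeasurableSpace V] [BorelSpace V]

/-- The data of an atlas: charts `ball 0 (r j) × ball (c j) (4 s j)` and arrows labelled by `Γ`. -/
structure GD (V J Γ : Type) [NormedAddCommGroup V] [InnerProductSpace ℝ V] where
  r : J → ℝ
  s : J → ℝ
  c : J → ℍ
  S : J → Set V
  ν : J → V → ℝ
  T : J → V × ℂ → V →L[ℝ] V
  A : J → J → Γ → Set V
  τ : J → J → Γ → V → V
  h : J → J → Γ → V → SL(2, ℝ)
  W : J → J → Γ → Set (V × ℍ)

variable {J Γ : Type}

namespace GD
variable (a : GD V J Γ)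
/-- The arrow on `V × ℍ`. -/
noncomputable def Θ (j j' : J) (φ : Γ) (q : V × ℍ) : V × ℍ :=
  (a.τ j j' φ q.1, a.h j j' φ q.1 • q.2)
/-- The part of chart `j` of relative size `t`: the chart is `Q j 1`. -/
def Q (j : J) (t : ℝ) : Set (V × ℍ) := ball 0 (t * a.r j) ×ˢ ball (a.c j) (t * (4 * a.s j))
/-- The chart inside `V × ℂ`. -/
def O (j : J) : Set (V × ℂ) := (fun q : V × ℍ => (q.1, (q.2 : ℂ))) '' a.Q j 1
end GD

/-- The axioms of a finite groupoid atlas. -/
structure GA [Group Γ] (a : GD V J Γ) : Prop where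
  r_pos : ∀ j, 0 < a.r j
  s_pos : ∀ j, 0 < a.s j
  mS : ∀ j, MeasurableSet (a.S j)
  SB : ∀ j, a.S j ⊆ ball 0 (a.r j)
  cν : ∀ j, ContDiffOn ℝ 2 (a.ν j) (ball 0 (a.r j))
  pν : ∀ j, ∀ x ∈ ball 0 (a.r j), 0 < a.ν j x
  cT : ∀ j, ContDiffOn ℝ 2 (a.T j) (a.O j)
  sT : ∀ j, ∀ q ∈ a.O j, ∀ ξ η, ⟪a.T j q ξ, η⟫ = ⟪ξ, a.T j q η⟫
  pT : ∀ j, ∀ q ∈ a.O j, ∀ ξ ≠ 0, 0 < ⟪a.T j q ξ, ξ⟫
  lt : ∀ j, ∀ q ∈ a.O j, ∀ ξ ≠ 0, LT (fun w => ⟪a.T j (q.1, w) ξ, ξ⟫) q.2
  oA : ∀ j j' φ, IsOpen (a.A j j' φ)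
  AB : ∀ j j' φ, a.A j j' φ ⊆ ball 0 (a.r j)
  cτ : ∀ j j' φ, ∀ x ∈ a.A j j' φ, ContDiffAt ℝ 2 (a.τ j j' φ) x
  ch : ∀ j j' φ, ∀ x ∈ a.A j j' φ, ∀ z : ℍ, ContDiffAt ℝ 2
    (fun q : V × ℂ => ((a.h j j' φ q.1 • ofComplex q.2 : ℍ) : ℂ)) (x, (z : ℂ))
  inv : ∀ j j' φ, ∀ x ∈ a.A j j' φ, a.τ j j' φ x ∈ a.A j' j φ⁻¹ ∧
    ∀ z, a.Θ j' j φ⁻¹ (a.Θ j j' φ (x, z)) = (x, z)
  comp : ∀ j j' j'' φ φ', ∀ x ∈ a.A j j' φ, a.τ j j' φ x ∈ a.A j' j'' φ' →
    ∀ z, a.Θ j j'' (φ * φ') (x, z) = a.Θ j' j'' φ' (a.Θ j j' φ (x, z))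
  WA : ∀ j j' φ, ∀ q ∈ a.W j j' φ, q.1 ∈ a.A j j' φ
  invW : ∀ j j' φ, ∀ q ∈ a.W j j' φ, a.Θ j j' φ q ∈ a.W j' j φ⁻¹
  compW : ∀ j j' j'' φ φ', ∀ q ∈ a.W j j' φ, a.Θ j j' φ q ∈ a.W j' j'' φ' → q ∈ a.W j j'' (φ * φ')
  oW : ∀ j j' φ, IsOpen (a.W j j' φ)
  clW : ∀ j j' φ, ∀ q ∈ closure (a.W j j' φ), q.1 ∈ a.A j j' φ → q ∈ a.Q j 1 →
    a.Θ j j' φ q ∈ a.Q j' 1 → q ∈ a.W j j' φ
  prop : ∀ j j' φ (C C' : Set (V × ℍ)), IsCompact C → IsCompact C' → C ⊆ a.Q j 1 → C' ⊆ a.Q j' 1 →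
    IsClosed {q | q ∈ C ∧ q.1 ∈ a.A j j' φ ∧ a.Θ j j' φ q ∈ C'}
  fin : ∀ j j' (C C' : Set (V × ℍ)), IsCompact C → IsCompact C' → C ⊆ a.Q j 1 → C' ⊆ a.Q j' 1 →
    {φ | ∃ q ∈ C, q ∈ a.W j j' φ ∧ a.Θ j j' φ q ∈ C'}.Finite
  cov : ∀ j, ∀ q ∈ a.Q j 1, q.1 ∈ a.S j → ∃ j' φ, q ∈ a.W j j' φ ∧ a.Θ j j' φ q ∈ a.Q j' (1 / 8)
  iS : ∀ j j' φ, ∀ q ∈ a.W j j' φ, q ∈ a.Q j 1 → a.Θ j j' φ q ∈ a.Q j' 1 →
    (q.1 ∈ a.S j ↔ a.τ j j' φ q.1 ∈ a.S j')
  iν : ∀ j j' φ, ∀ x ∈ a.A j j' φ,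
    a.ν j x = |(fderiv ℝ (a.τ j j' φ) x).det| * a.ν j' (a.τ j j' φ x)
  iT : ∀ j j' φ, ∀ q ∈ a.W j j' φ, q ∈ a.Q j 1 → a.Θ j j' φ q ∈ a.Q j' 1 → ∀ ξ η,
    ⟪a.T j' ((a.Θ j j' φ q).1, ((a.Θ j j' φ q).2 : ℂ)) ξ, η⟫ =
      ⟪a.T j (q.1, (q.2 : ℂ)) (ContinuousLinearMap.adjoint (fderiv ℝ (a.τ j j' φ) q.1) ξ),
        ContinuousLinearMap.adjoint (fderiv ℝ (a.τ j j' φ) q.1) η⟫

/-- The compact part of chart `j` that carries everything. -/
def GD.N (a : GD V J Γ) (j : J) : Set (V × ℍ) :=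
  closedBall 0 (a.r j / 2) ×ˢ closedBall (a.c j) (2 * a.s j)

/-- `α` is a partition of the mass `b` over the arrows, at all points of `R j` over `S j`. -/
def GD.Part (a : GD V J Γ) (α : J → V × ℍ → ℝ) (b : ℝ) (R : J → Set (V × ℍ)) : Prop :=
  ∀ j, ∀ q ∈ R j, q.1 ∈ a.S j →
    ∑ᶠ l : J × Γ, (a.W j l.1 l.2).indicator (fun q => α l.1 (a.Θ j l.1 l.2 q)) q = b

variable [Group Γ] {a : GD V J Γ}


end Pool.Agent.MP_596265_gt.En

namespace Pool.Agent.MP_596265_gt.En

open MeasureTheory Filter Topology Set Metric UpperHalfPlane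
open scoped RealInnerProductSpace MatrixGroups

variable {V : Type} [NormedAddCommGroup V] [InnerProductSpace ℝ V] [FiniteDimensional ℝ V]
  [MeasurableSpace V] [BorelSpace V] {J Γ : Type} [Group Γ] {a : GD V J Γ}

omit [BorelSpace V] in
theorem GA.contΘ (H : GA a) (j j' : J) (φ : Γ) :
    ContinuousOn (a.Θ j j' φ) (a.A j j' φ ×ˢ univ) := by
  rintro ⟨x, z⟩ ⟨hx, -⟩
  refine ContinuousAt.continuousWithinAt (ContinuousAt.prodMk ?_ ?_)
  · exact ContinuousAt.comp (f := Prod.fst) (H.cτ j j' φ x hx).continuousAt continuousAt_fst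
  · rw [isOpenEmbedding_coe.isInducing.continuousAt_iff]
    have h1 : Continuous fun q : V × ℍ => (q.1, (q.2 : ℂ)) :=
      continuous_fst.prodMk (continuous_coe.comp continuous_snd)
    have h2 := ContinuousAt.comp (f := fun q : V × ℍ => (q.1, (q.2 : ℂ))) (x := (x, z))
      (H.ch j j' φ x hx z).continuousAt h1.continuousAt
    convert h2 using 1
    funext q
    simp only [Function.comp, ofComplex_apply]

namespace G1

theorem int_smul (g : SL(2, ℝ)) (f : ℍ → ℝ) : ∫ z, f (g • z) = ∫ z, f z :=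
  integral_smul_eq_self (G := GL (Fin 2) ℝ) (μ := volume) f
    (g := Matrix.SpecialLinearGroup.mapGL ℝ g)

theorem intg (H : GA a) (j : J) {A : Set V} (hA : MeasurableSet A) (hb : A ⊆ ball 0 (a.r j))
    {F : V × ℍ → ℝ} (hF : AEMeasurable F ((volume.prod volume).restrict (A ×ˢ univ))) {B : ℝ}
    (hB : ∀ q, |F q| ≤ B) (h0 : ∀ q, q.1 ∈ A → F q ≠ 0 → q ∈ a.N j) :
    Integrable ((A ×ˢ univ).indicator fun q => a.ν j q.1 * F q) (volume.prod volume) := by
  have hm : MeasurableSet (A ×ˢ (univ : Set ℍ)) := hA.prod MeasurableSet.univ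
  have hr := H.r_pos j
  have hc : ContinuousOn (a.ν j) (ball 0 (a.r j)) := (H.cν j).continuousOn
  obtain ⟨C, hC⟩ := (isCompact_closedBall (0 : V) (a.r j / 2)).exists_bound_of_continuousOn
    (hc.mono (closedBall_subset_ball (by linarith)))
  have hN : IsCompact (a.N j) := (isCompact_closedBall _ _).prod (isCompact_closedBall _ _)
  have h1 : AEMeasurable (fun q : V × ℍ => a.ν j q.1)
      ((volume.prod volume).restrict (A ×ˢ univ)) :=
    (hc.comp continuous_fst.continuousOn fun q hq => hb hq.1).aemeasurable hm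
  have h2 : Integrable ((a.N j).indicator fun _ => C * B) (volume.prod volume) :=
    (integrableOn_const hN.measure_lt_top.ne).integrable_indicator hN.measurableSet
  refine h2.mono' ((aemeasurable_indicator_iff hm).2 (h1.mul hF)).aestronglyMeasurable
    (Eventually.of_forall fun q => ?_)
  have hC0 : 0 ≤ C := (norm_nonneg _).trans (hC 0 (mem_closedBall_self (by linarith only [hr])))
  have hB0 : 0 ≤ B := (abs_nonneg _).trans (hB q)
  have h3 : 0 ≤ (a.N j).indicator (fun _ => C * B) q :=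
    indicator_nonneg (fun _ _ => mul_nonneg hC0 hB0) q
  by_cases hq : q ∈ A ×ˢ (univ : Set ℍ)
  · rw [indicator_of_mem hq]
    by_cases h4 : F q = 0
    · simpa only [h4, mul_zero, norm_zero, ge_iff_le] using h3
    · have h5 := h0 q hq.1 h4
      rw [indicator_of_mem h5, norm_mul]
      exact mul_le_mul (hC _ h5.1) (hB q) (norm_nonneg _) hC0
  · rw [indicator_of_notMem hq, norm_zero]; exact h3

theorem fub {A : Set V} (hA : MeasurableSet A) {ν : V → ℝ} {F : V × ℍ → ℝ}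
    (hi : Integrable ((A ×ˢ univ).indicator fun q => ν q.1 * F q) (volume.prod volume)) :
    ∫ q, (A ×ˢ univ).indicator (fun q => ν q.1 * F q) q ∂(volume.prod volume) =
      ∫ x in A, ν x * ∫ z, F (x, z) := by
  rw [integral_prod _ hi, ← integral_indicator hA]
  congr 1
  funext x
  by_cases hx : x ∈ A
  · rw [indicator_of_mem hx, ← integral_const_mul]
    congr 1
    funext z
    rw [indicator_of_mem (mk_mem_prod hx (mem_univ z))]
  · rw [indicator_of_notMem hx]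
    have : ∀ z : ℍ, (x, z) ∉ A ×ˢ (univ : Set ℍ) := fun z h => hx h.1
    simp only [indicator_of_notMem (this _), integral_zero]

end G1

open G1 in
theorem GA.chg (H : GA a) (j j' : J) (φ : Γ) {f : V × ℍ → ℝ} (hf : Measurable f) {B : ℝ}
    (hB : ∀ q, |f q| ≤ B) (h0 : ∀ q, f q ≠ 0 → q ∈ a.N j' ∧ q ∈ a.W j' j φ⁻¹ ∧
      a.Θ j' j φ⁻¹ q ∈ a.N j) :
    Integrable ((a.W j j' φ).indicator fun q => a.ν j q.1 * f (a.Θ j j' φ q)) (volume.prod volume) ∧
    ∫ q, (a.W j j' φ).indicator (fun q => a.ν j q.1 * f (a.Θ j j' φ q)) q ∂(volume.prod volume) =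
      ∫ q, a.ν j' q.1 * f q ∂(volume.prod volume) := by
  have mA := (H.oA j j' φ).measurableSet
  have mA' := (H.oA j' j φ⁻¹).measurableSet
  have hi : ∀ q : V × ℍ, q.1 ∈ a.A j j' φ → a.Θ j' j φ⁻¹ (a.Θ j j' φ q) = q :=
    fun q hq => (H.inv j j' φ q.1 hq).2 q.2
  have e1 : ((a.W j j' φ).indicator fun q => a.ν j q.1 * f (a.Θ j j' φ q)) =
      (a.A j j' φ ×ˢ univ).indicator fun q => a.ν j q.1 * f (a.Θ j j' φ q) := by
    funext q
    by_cases hq : q ∈ a.W j j' φ
    · rw [indicator_of_mem hq, indicator_of_mem (mk_mem_prod (H.WA _ _ _ q hq) (mem_univ _))]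
    · rw [indicator_of_notMem hq]
      symm
      refine indicator_apply_eq_zero.2 fun h1 => mul_eq_zero_of_right _ ?_
      by_contra h2
      have h3 := H.invW _ _ _ _ (h0 _ h2).2.1
      rw [hi q h1.1, inv_inv] at h3
      exact hq h3
  have e2 : (fun q : V × ℍ => a.ν j' q.1 * f q) =
      (a.A j' j φ⁻¹ ×ˢ univ).indicator fun q => a.ν j' q.1 * f q := by
    funext q
    symm
    refine indicator_apply_eq_self.2 fun h1 => mul_eq_zero_of_right _ ?_
    by_contra h2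
    exact h1 (mk_mem_prod (H.WA _ _ _ q (h0 q h2).2.1) (mem_univ _))
  have i1 := intg H j mA (H.AB j j' φ) (F := fun q => f (a.Θ j j' φ q))
    (hf.comp_aemeasurable ((H.contΘ j j' φ).aemeasurable (mA.prod MeasurableSet.univ)))
    (fun q => hB _) fun q h1 h2 => hi q h1 ▸ (h0 _ h2).2.2
  have i2 := intg H j' mA' (H.AB j' j φ⁻¹) hf.aemeasurable hB fun q _ h2 => (h0 q h2).1
  have e3 : a.τ j j' φ '' a.A j j' φ = a.A j' j φ⁻¹ := by
    refine Subset.antisymm (image_subset_iff.2 fun x hx => (H.inv j j' φ x hx).1) fun y hy => ?_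
    have h1 := H.inv j' j φ⁻¹ y hy
    rw [inv_inv] at h1
    exact ⟨_, h1.1, congrArg Prod.fst (h1.2 I)⟩
  have e4 : InjOn (a.τ j j' φ) (a.A j j' φ) := fun x hx y hy hxy => by
    have h1 : a.τ j' j φ⁻¹ (a.τ j j' φ x) = x := congrArg Prod.fst (hi (x, I) hx)
    have h2 : a.τ j' j φ⁻¹ (a.τ j j' φ y) = y := congrArg Prod.fst (hi (y, I) hy)
    rw [← h1, hxy, h2]
  rw [e1, e2]
  refine ⟨i1, ?_⟩
  rw [fub mA i1, fub mA' i2, ← e3, integral_image_eq_integral_abs_det_fderiv_smul volume mA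
    (fun x hx => ((H.cτ j j' φ x hx).differentiableAt (by norm_num)).hasFDerivAt.hasFDerivWithinAt)
    e4]
  refine setIntegral_congr_fun mA fun x hx => ?_
  have h1 := int_smul (a.h j j' φ x) fun z => f (a.τ j j' φ x, z)
  simp only [GD.Θ, smul_eq_mul]
  rw [h1, H.iν j j' φ x hx, mul_assoc]

end Pool.Agent.MP_596265_gt.En

namespace Pool.Agent.MP_596265_gt.En

open MeasureTheory Filter Topology Set Metric UpperHalfPlane
open scoped RealInnerProductSpace MatrixGroups Manifold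

variable {V : Type} [NormedAddCommGroup V] [InnerProductSpace ℝ V] [FiniteDimensional ℝ V]
  [MeasurableSpace V] [BorelSpace V] {J Γ : Type} [Group Γ] {a : GD V J Γ}

set_option linter.unusedSectionVars false

namespace G2

/-- the closed support of the bump -/
def K (a : GD V J Γ) (j : J) : Set (V × ℍ) :=
  closedBall 0 (a.r j / 4) ×ˢ closedBall (a.c j) (a.s j)

/-- one term of the total mass -/
noncomputable def tm (a : GD V J Γ) (β : J → V × ℂ → ℝ) (j : J) (l : J × Γ) : V × ℍ → ℝ :=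
  (a.W j l.1 l.2).indicator fun q => β l.1 ((a.Θ j l.1 l.2 q).1, ((a.Θ j l.1 l.2 q).2 : ℂ))

omit [MeasurableSpace V] [BorelSpace V] in
theorem bump {r s : ℝ} (hr : 0 < r) (hs : 0 < s) (c : ℍ) : ∃ β : V × ℂ → ℝ, ContDiff ℝ 2 β ∧
    (∀ p, 0 ≤ β p) ∧ (∀ p, β p ≠ 0 → ∃ z : ℍ, p.2 = z ∧ ‖p.1‖ ≤ r / 4 ∧ dist z c ≤ s) ∧
    ∀ (x : V) (z : ℍ), ‖x‖ ≤ r / 8 → dist z c ≤ s / 2 → β (x, z) = 1 := by
  have h1 : IsOpen (ball (0 : V) (r / 4) ×ˢ ((↑) '' ball c s : Set ℂ)) :=
    isOpen_ball.prod (isOpenEmbedding_coe.isOpenMap _ isOpen_ball)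
  have h2 : IsClosed (closedBall (0 : V) (r / 8) ×ˢ ((↑) '' closedBall c (s / 2) : Set ℂ)) :=
    isClosed_closedBall.prod ((isCompact_closedBall _ _).image continuous_coe).isClosed
  obtain ⟨f, f0, f1, f2⟩ := exists_contMDiffMap_zero_one_of_isClosed (n := 2) 𝓘(ℝ, V × ℂ)
    h1.isClosed_compl h2 (disjoint_compl_left_iff_subset.2 (prod_mono
      (closedBall_subset_ball (by linarith)) (image_mono (closedBall_subset_ball (by linarith only [hs])))))
  refine ⟨f, f.contMDiff.contDiff, fun p => (f2 p).1, fun p hp => ?_,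
    fun x z hx hz => f1 ⟨by simpa only [mem_closedBall, dist_zero_right] using hx, z, hz, rfl⟩⟩
  obtain ⟨h3, z, h4, h5⟩ := not_notMem.1 (mt (@f0 p) hp)
  exact ⟨z, h5.symm, (mem_ball_zero_iff.1 h3).le, (mem_ball.1 h4).le⟩

theorem KN (H : GA a) (j : J) {q : V × ℍ} (h : q ∈ K a j) : a.N j ∈ 𝓝 q :=
  have := H.r_pos j
  have := H.s_pos j
  prod_mem_nhds (closedBall_mem_nhds_of_mem (closedBall_subset_ball (by linarith) h.1))
    (closedBall_mem_nhds_of_mem (closedBall_subset_ball (by linarith) h.2))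

theorem NQ (H : GA a) (j : J) : a.N j ⊆ a.Q j 1 :=
  have := H.r_pos j
  have := H.s_pos j
  prod_mono (closedBall_subset_ball (by linarith)) (closedBall_subset_ball (by linarith))

theorem KQ (H : GA a) (j : J) : K a j ⊆ a.Q j 1 := fun _ h => NQ H j (mem_of_mem_nhds (KN H j h))

omit [MeasurableSpace V] [BorelSpace V] [Group Γ] in
theorem cK (j : J) : IsCompact (K a j) := (isCompact_closedBall _ _).prod (isCompact_closedBall _ _)

omit [MeasurableSpace V] [BorelSpace V] [Group Γ] in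
theorem cN (j : J) : IsCompact (a.N j) := (isCompact_closedBall _ _).prod (isCompact_closedBall _ _)

theorem tm_inv (H : GA a) (β : J → V × ℂ → ℝ) {j j' : J} {φ : Γ} {q : V × ℍ}
    (h : q ∈ a.W j j' φ) : ∑ᶠ l, tm a β j' l (a.Θ j j' φ q) = ∑ᶠ l, tm a β j l q := by
  rw [← finsum_comp_equiv ((Equiv.refl J).prodCongr (Equiv.mulLeft φ)) (f := fun l => tm a β j l q)]
  refine finsum_congr fun l => ?_
  change _ = tm a β j (l.1, φ * l.2) q
  by_cases h1 : a.Θ j j' φ q ∈ a.W j' l.1 l.2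
  · rw [tm, tm, indicator_of_mem h1, indicator_of_mem (H.compW _ _ _ _ _ q h h1),
      H.comp j j' l.1 φ l.2 q.1 (H.WA _ _ _ q h) (H.WA _ _ _ _ h1) q.2]
  · rw [tm, tm, indicator_of_notMem h1, indicator_of_notMem fun h2 => h1 ?_]
    have := H.compW j' j l.1 φ⁻¹ (φ * l.2) _ (H.invW _ _ _ q h)
      (by rw [(H.inv j j' φ q.1 (H.WA _ _ _ q h)).2 q.2]; exact h2)
    rwa [inv_mul_cancel_left] at this

theorem tm_diff (H : GA a) {β : J → V × ℂ → ℝ} (h1 : ∀ j, ContDiff ℝ 2 (β j))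
    (h2 : ∀ j (q : V × ℍ), β j (q.1, q.2) ≠ 0 → q ∈ K a j) (j : J) (l : J × Γ) {q : V × ℍ}
    (hq : q ∈ K a j) :
    ContDiffAt ℝ 2 (fun p : V × ℂ => tm a β j l (p.1, ofComplex p.2)) (q.1, (q.2 : ℂ)) := by
  have hι : Tendsto (fun p : V × ℂ => (p.1, ofComplex p.2)) (𝓝 (q.1, (q.2 : ℂ))) (𝓝 q) := by
    have : ContinuousAt (fun p : V × ℂ => (p.1, ofComplex p.2)) (q.1, (q.2 : ℂ)) :=
      continuousAt_fst.prodMk (ContinuousAt.comp (g := ofComplex)
        (contMDiffAt_ofComplex (n := 0) q.2.im_pos).continuousAt continuousAt_snd)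
    simpa only [ContinuousAt, ofComplex_apply, Prod.mk.eta] using this
  by_cases h : q ∈ a.W j l.1 l.2
  · have hA := H.WA _ _ _ q h
    refine ((h1 l.1).contDiffAt.comp _ (((H.cτ _ _ _ _ hA).comp (q.1, (q.2 : ℂ))
      contDiffAt_fst).prodMk (H.ch _ _ _ _ hA q.2))).congr_of_eventuallyEq ?_
    filter_upwards [hι ((H.oW _ _ _).mem_nhds h)] with p hp
    rw [tm, indicator_of_mem (mem_preimage.1 hp)]
    rfl
  · refine (contDiffAt_const (c := 0)).congr_of_eventuallyEq (hι.eventually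
      (p := fun q => tm a β j l q = 0) ?_)
    by_cases h3 : q.1 ∈ a.A j l.1 l.2 ∧ a.Θ j l.1 l.2 q ∈ K a l.1
    · filter_upwards [isClosed_closure.isOpen_compl.mem_nhds fun h4 =>
        h (H.clW _ _ _ q h4 h3.1 (KQ H j hq) (KQ H _ h3.2))] with p hp
      exact indicator_of_notMem (fun h5 => hp (subset_closure h5)) _
    · filter_upwards [(H.prop j l.1 l.2 _ _ (cN j) (cK l.1) (NQ H j) (KQ H _)).isOpen_compl.mem_nhds
        fun h4 => h3 h4.2, KN H j hq] with p hp hp'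
      refine indicator_apply_eq_zero.2 fun h5 => ?_
      by_contra h6
      exact hp ⟨hp', H.WA _ _ _ p h5, h2 _ _ h6⟩

end G2

open G2 in
theorem GA.part [Fintype J] (H : GA a) : ∃ α : J → V × ℂ → ℝ, (∀ j, ContDiff ℝ 2 (α j)) ∧
    (∀ j q, 0 ≤ α j q) ∧
    (∀ j q, α j q ≠ 0 → ∃ z : ℍ, q.2 = z ∧ ‖q.1‖ ≤ a.r j / 4 ∧ dist z (a.c j) ≤ a.s j) ∧
    (∀ j, ∀ q ∈ a.Q j (1 / 8), α j (q.1, (q.2 : ℂ)) ≠ 0) ∧
    a.Part (fun j q => α j (q.1, (q.2 : ℂ))) 1 a.N := by
  choose β b1 b2 b3 b4 using fun j => bump (V := V) (H.r_pos j) (H.s_pos j) (a.c j)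
  have b5 : ∀ j (q : V × ℍ), β j (q.1, q.2) ≠ 0 → q ∈ K a j := fun j q h => by
    obtain ⟨z, h1, h2, h3⟩ := b3 j _ h
    rw [← UpperHalfPlane.ext h1] at h3
    exact ⟨mem_closedBall_zero_iff.2 h2, h3⟩
  have b6 : ∀ j, ∀ q ∈ a.Q j (1 / 8), β j (q.1, q.2) = 1 := fun j q h =>
    b4 j _ _ (by have := mem_ball_zero_iff.1 h.1; linarith) (by have := mem_ball.1 h.2; linarith only [this])
  have t0 : ∀ j l q, 0 ≤ tm a β j l q := fun j l q => indicator_nonneg (fun _ _ => b2 _ _) _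
  have : ∀ j, ∃ Λ : Finset (J × Γ), ∀ q ∈ a.N j,
      (Function.support fun l => tm a β j l q) ⊆ Λ := fun j => by
    refine ⟨(finite_iUnion fun j' => (H.fin j j' _ _ (cN j) (cK j') (NQ H j) (KQ H j')).image
      (Prod.mk j')).toFinset, fun q hq l hl => ?_⟩
    obtain ⟨h1, h2⟩ := indicator_apply_ne_zero.1 hl
    rw [Finite.coe_toFinset]
    exact mem_iUnion.2 ⟨l.1, l.2, ⟨q, hq, h1, b5 _ _ h2⟩, rfl⟩
  choose Λ hΛ using this
  let Z : J → V × ℂ → ℝ := fun j p => ∑ l ∈ Λ j, tm a β j l (p.1, ofComplex p.2)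
  have z0 : ∀ j p, 0 < Z j p + expNegInvGlue (1 - Z j p) := fun j p => by
    have h1 : 0 ≤ Z j p := Finset.sum_nonneg fun l _ => t0 _ _ _
    rcases h1.eq_or_lt with h | h
    · rw [← h, zero_add]; exact expNegInvGlue.pos_of_pos (by norm_num)
    · exact add_pos_of_pos_of_nonneg h (expNegInvGlue.nonneg _)
  have z1 : ∀ j, ∀ q ∈ a.N j, Z j (q.1, q.2) = ∑ᶠ l, tm a β j l q := fun j q hq => by
    rw [finsum_eq_sum_of_support_subset _ (hΛ j q hq)]
    simp only [Z, ofComplex_apply]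
  refine ⟨fun j p => β j p * (Z j p + expNegInvGlue (1 - Z j p))⁻¹, fun j => ?_,
    fun j p => mul_nonneg (b2 _ _) (inv_pos.2 (z0 _ _)).le,
    fun j p h => b3 j p (left_ne_zero_of_mul h),
    fun j q hq => mul_ne_zero ((b6 j q hq).trans_ne one_ne_zero) (inv_pos.2 (z0 _ _)).ne',
    fun j q hq hS => ?_⟩
  · refine contDiff_iff_contDiffAt.2 fun p => ?_
    by_cases h : p ∈ (fun q : V × ℍ => (q.1, (q.2 : ℂ))) '' K a j
    · obtain ⟨q, hq, rfl⟩ := h
      have h1 : ContDiffAt ℝ 2 (Z j) (q.1, (q.2 : ℂ)) :=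
        ContDiffAt.sum fun l _ => tm_diff H b1 b5 j l hq
      exact (b1 j).contDiffAt.mul ((h1.add ((expNegInvGlue.contDiff (n := 2)).contDiffAt.comp _
        (contDiffAt_const.sub h1))).inv (z0 _ _).ne')
    · refine (contDiffAt_const (c := 0)).congr_of_eventuallyEq ?_
      filter_upwards [((cK j).image (by fun_prop)).isClosed.isOpen_compl.mem_nhds h] with p hp
      refine mul_eq_zero_of_left (by_contra fun h1 => hp ?_) _
      obtain ⟨z, h2, h3, h4⟩ := b3 j p h1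
      exact ⟨(p.1, z), ⟨mem_closedBall_zero_iff.2 h3, h4⟩, Prod.ext rfl h2.symm⟩
  · have hf : (Function.support fun l => tm a β j l q).Finite := (Λ j).finite_toSet.subset (hΛ j q hq)
    have h1 : 1 ≤ ∑ᶠ l, tm a β j l q := by
      obtain ⟨j', φ, h2, h3⟩ := H.cov j q (NQ H j hq) hS
      refine le_trans (le_of_eq ?_) (single_le_finsum (j', φ) hf fun l => t0 j l q)
      rw [tm, indicator_of_mem h2, b6 _ _ h3]
    refine Eq.trans ?_ (mul_inv_cancel₀ (by linarith : ∑ᶠ l, tm a β j l q ≠ 0))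
    rw [finsum_mul _ _]
    refine finsum_congr fun l => ?_
    by_cases h2 : q ∈ a.W j l.1 l.2
    · rw [tm, indicator_of_mem h2, indicator_of_mem h2]
      by_cases h3 : β l.1 ((a.Θ j l.1 l.2 q).1, ((a.Θ j l.1 l.2 q).2 : ℂ)) = 0
      · simp only [h3, zero_mul]
      · simp only
        rw [z1 _ _ (mem_of_mem_nhds (KN H _ (b5 _ _ h3))), tm_inv H β h2,
          expNegInvGlue.zero_of_nonpos (sub_nonpos.2 h1), add_zero]
    · rw [tm, indicator_of_notMem h2, indicator_of_notMem h2, zero_mul]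

end Pool.Agent.MP_596265_gt.En

/-! Block A, row G3: averaging a partition along the leaves. -/

namespace Pool.Agent.MP_596265_gt.En

open MeasureTheory Filter Topology Set Metric UpperHalfPlane
open scoped RealInnerProductSpace MatrixGroups

variable {V : Type} [NormedAddCommGroup V] [InnerProductSpace ℝ V] [FiniteDimensional ℝ V]
  [MeasurableSpace V] [BorelSpace V] {J Γ : Type} [Group Γ] {a : GD V J Γ}

namespace G3

theorem mp (g : SL(2, ℝ)) : MeasurePreserving (fun w : ℍ => g • w) volume volume :=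
  measurePreserving_smul (Matrix.SpecialLinearGroup.mapGL ℝ g) volume

theorem int_ball (g : SL(2, ℝ)) (z : ℍ) (ρ : ℝ) (f : ℍ → ℝ) :
    ∫ w in ball (g • z) ρ, f w = ∫ w in ball z ρ, f (g • w) := by
  rw [← (mp g).setIntegral_preimage_emb (Homeomorph.smul g).measurableEmbedding]
  congr 2
  ext w
  simp only [mem_preimage, mem_ball, dist_smul]

theorem vol_ball (z : ℍ) (ρ : ℝ) : volume.real (ball z ρ) = volume.real (ball (I : ℍ) ρ) := by
  obtain ⟨g, rfl⟩ := MulAction.exists_smul_eq SL(2, ℝ) (I : ℍ) z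
  simpa using int_ball g I ρ fun _ => 1

theorem conn (z : ℍ) (ρ : ℝ) : IsPreconnected (ball z ρ) := by
  rw [← isEmbedding_coe.isInducing.isPreconnected_image, image_coe_ball]
  exact (convex_ball _ _).isPreconnected

omit [MeasurableSpace V] [BorelSpace V] [Group Γ] in
theorem cN (j : J) : IsCompact (a.N j) := (isCompact_closedBall _ _).prod (isCompact_closedBall _ _)

omit [BorelSpace V] in
theorem NQ (H : GA a) (j : J) : a.N j ⊆ a.Q j 1 :=
  prod_mono (closedBall_subset_ball (by linarith [H.r_pos j]))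
    (closedBall_subset_ball (by linarith [H.s_pos j]))

omit [BorelSpace V] in
theorem leaf (H : GA a) {j j' : J} {φ : Γ} {x : V} {z u v w : ℍ} {ρ : ℝ} (h1 : ρ ≤ a.s j)
    (h2 : ρ ≤ a.s j') (hz : dist z (a.c j) ≤ a.s j) (hw : w ∈ ball z ρ)
    (h3 : ‖a.τ j j' φ x‖ ≤ a.r j' / 4) (h4 : dist (a.h j j' φ x • w) (a.c j') ≤ a.s j')
    (hu : u ∈ ball z ρ) (hv : v ∈ ball z ρ) (h : (x, u) ∈ a.W j j' φ) : (x, v) ∈ a.W j j' φ := by
  have hc : Continuous fun u : ℍ => (x, u) := by fun_prop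
  have hA : x ∈ a.A j j' φ := H.WA _ _ _ _ h
  refine (conn z ρ).subset_of_closure_inter_subset ((H.oW j j' φ).preimage hc) ⟨u, hu, h⟩ ?_ hv
  rintro y ⟨y1, y2⟩
  have := H.s_pos j
  have := H.s_pos j'
  have := H.r_pos j'
  rw [mem_ball] at y2 hw
  refine H.clW j j' φ _ (hc.closure_preimage_subset _ y1) hA ⟨?_, ?_⟩ ⟨?_, ?_⟩
  · simpa using H.AB _ _ _ hA
  · have := dist_triangle y z (a.c j)
    exact mem_ball.2 (by linarith)
  · exact mem_ball_zero_iff.2 (h3.trans_lt (by linarith only [this]))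
  · have e1 := dist_triangle (a.h j j' φ x • y) (a.h j j' φ x • w) (a.c j')
    have e2 := dist_triangle_right y w z
    rw [dist_smul] at e1
    exact mem_ball.2 (e1.trans_lt (by linarith))

end G3

omit [BorelSpace V] in
theorem GA.part_avg [Fintype J] (H : GA a) {α : J → V × ℍ → ℝ} (hc : ∀ j, Continuous (α j))
    (hs : ∀ j q, α j q ≠ 0 → ‖q.1‖ ≤ a.r j / 4 ∧ dist q.2 (a.c j) ≤ a.s j)
    (hp : a.Part α 1 a.N) {ρ : ℝ} (hρ : 0 < ρ) (hρs : ∀ j, ρ ≤ a.s j) :
    a.Part (fun j q => ∫ w in ball q.2 ρ, α j (q.1, w)) (volume.real (ball (I : ℍ) ρ))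
      fun j => {q | α j q ≠ 0} := by
  classical
  rintro j ⟨x, z⟩ hq hS
  obtain ⟨hx, hz⟩ : ‖x‖ ≤ a.r j / 4 ∧ dist z (a.c j) ≤ a.s j := hs j _ hq
  have hN : ∀ w ∈ ball z ρ, (x, w) ∈ a.N j := fun w hw => by
    have e := dist_triangle w z (a.c j)
    exact ⟨mem_closedBall_zero_iff.2 (hx.trans (by linarith only [H.r_pos j])),
      mem_closedBall.2 (e.trans (by linarith only [mem_ball.1 hw, hρs j, hz]))⟩
  have hF : {l : J × Γ | ∃ q ∈ a.N j, q ∈ a.W j l.1 l.2 ∧ a.Θ j l.1 l.2 q ∈ a.N l.1}.Finite := by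
    refine (finite_iUnion fun j' => (H.fin j j' _ _ (G3.cN j) (G3.cN j') (G3.NQ H j)
      (G3.NQ H j')).image (Prod.mk j')).subset fun l hl => mem_iUnion.2 ⟨l.1, l.2, hl, rfl⟩
  let G : J × Γ → ℍ → ℝ := fun l w =>
    if (x, z) ∈ a.W j l.1 l.2 then α l.1 (a.τ j l.1 l.2 x, a.h j l.1 l.2 x • w) else 0
  have cG : ∀ l, Continuous (G l) := fun l => by
    have := hc l.1
    simp only [G]
    split_ifs <;> fun_prop
  have hG : ∀ l, ∀ w ∈ ball z ρ,
      (a.W j l.1 l.2).indicator (fun q => α l.1 (a.Θ j l.1 l.2 q)) (x, w) = G l w := by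
    intro l w hw
    by_cases h0 : α l.1 (a.τ j l.1 l.2 x, a.h j l.1 l.2 x • w) = 0
    · simp only [G, indicator_apply, GD.Θ, h0, ite_self]
    have h1 := hs _ _ h0
    have e : (x, w) ∈ a.W j l.1 l.2 ↔ (x, z) ∈ a.W j l.1 l.2 :=
      ⟨G3.leaf H (hρs j) (hρs l.1) hz hw h1.1 h1.2 hw (mem_ball_self hρ),
        G3.leaf H (hρs j) (hρs l.1) hz hw h1.1 h1.2 (mem_ball_self hρ) hw⟩
    simp only [G, indicator_apply, GD.Θ, e]
  have sG : ∀ w ∈ ball z ρ, ∀ l, G l w ≠ 0 → l ∈ hF.toFinset := fun w hw l hl => by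
    rw [← hG l w hw] at hl
    have h1 := hs l.1 (a.Θ j l.1 l.2 (x, w)) fun h => hl (indicator_apply_eq_zero.2 fun _ => h)
    exact hF.mem_toFinset.2 ⟨_, hN w hw, mem_of_indicator_ne_zero hl,
      mem_closedBall_zero_iff.2 (h1.1.trans (by linarith only [H.r_pos l.1])),
      mem_closedBall.2 (h1.2.trans (by linarith only [H.s_pos l.1]))⟩
  have e1 : ∀ l : J × Γ, (a.W j l.1 l.2).indicator (fun q => ∫ w in ball (a.Θ j l.1 l.2 q).2 ρ,
      α l.1 ((a.Θ j l.1 l.2 q).1, w)) (x, z) = ∫ w in ball z ρ, G l w := fun l => by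
    simp only [G, indicator_apply, GD.Θ]
    split_ifs
    · exact G3.int_ball _ _ _ _
    · simp
  simp only [e1]
  rw [finsum_eq_sum_of_support_subset (s := hF.toFinset) _ fun l hl => by
      by_contra hn
      exact hl (setIntegral_eq_zero_of_forall_eq_zero fun w hw => by_contra fun h =>
        hn (sG w hw l h)),
    ← integral_finsetSum _ fun l _ => ((cG l).continuousOn.integrableOn_compact
      (isCompact_closedBall z ρ)).mono_set ball_subset_closedBall,
    setIntegral_congr_fun (g := fun _ => (1 : ℝ)) measurableSet_ball fun w hw => ?_]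
  · simpa using G3.vol_ball z ρ
  · have := hp j _ (hN w hw) hS
    simp only [hG _ w hw] at this
    rwa [finsum_eq_sum_of_support_subset (s := hF.toFinset) _ fun l hl => sG w hw l hl] at this

end Pool.Agent.MP_596265_gt.En

/-! Block A, row G4: the double partition. -/

namespace Pool.Agent.MP_596265_gt.En

open MeasureTheory Filter Topology Set Metric UpperHalfPlane
open scoped RealInnerProductSpace MatrixGroups

variable {V : Type} [NormedAddCommGroup V] [InnerProductSpace ℝ V] [FiniteDimensional ℝ V]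
  [MeasurableSpace V] [BorelSpace V] {J Γ : Type} [Group Γ] {a : GD V J Γ}

namespace G4

set_option linter.unusedSectionVars false

theorem cN (j : J) : IsCompact (a.N j) := (isCompact_closedBall _ _).prod (isCompact_closedBall _ _)

theorem NQ (H : GA a) (j : J) : a.N j ⊆ a.Q j 1 :=
  prod_mono (closedBall_subset_ball (by linarith [H.r_pos j]))
    (closedBall_subset_ball (by linarith [H.s_pos j]))

theorem back (H : GA a) {j j' : J} {φ : Γ} {q : V × ℍ} (hq : q ∈ a.W j j' φ) :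
    a.Θ j' j φ⁻¹ (a.Θ j j' φ q) = q := (H.inv j j' φ q.1 (H.WA j j' φ q hq)).2 q.2

theorem int (H : GA a) (j : J) {u : V × ℍ → ℝ} (hu : Measurable u) {B : ℝ} (hB : ∀ q, |u q| ≤ B)
    (h0 : ∀ q, u q ≠ 0 → q ∈ a.N j) :
    Integrable (fun q => a.ν j q.1 * u q) (volume.prod volume) := by
  have h1 : IntegrableOn (fun q : V × ℍ => a.ν j q.1) (a.N j) (volume.prod volume) :=
    ContinuousOn.integrableOn_compact (cN j) ((H.cν j).continuousOn.comp continuousOn_fst
      fun q hq => by simpa using (NQ H j hq).1)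
  refine (((integrable_indicator_iff (cN j).measurableSet).2 h1).mul_bdd hu.aestronglyMeasurable
    (.of_forall hB)).congr (.of_forall fun q => ?_)
  by_cases h : u q = 0
  · simp [h]
  · simp only [indicator_of_mem (h0 q h)]

theorem meas (H : GA a) (j j' : J) (φ : Γ) {u : V × ℍ → ℝ} (hu : Measurable u) :
    Measurable ((a.W j j' φ).indicator fun q => u (a.Θ j j' φ q)) := by
  classical
  have h1 := ContinuousOn.measurable_piecewise (g := id) ((H.contΘ j j' φ).mono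
    fun q hq => ⟨H.WA j j' φ q hq, trivial⟩) continuousOn_id (H.oW j j' φ).measurableSet
  convert (hu.comp h1).indicator (H.oW j j' φ).measurableSet using 1
  funext q
  by_cases h : q ∈ a.W j j' φ <;> simp [h]

theorem labels [Fintype J] (H : GA a) : ∃ Φ : Finset Γ, (∀ φ ∈ Φ, φ⁻¹ ∈ Φ) ∧
    ∀ (u : J → V × ℍ → ℝ), (∀ j q, u j q ≠ 0 → q ∈ a.N j) → ∀ j, ∀ q ∈ a.N j,
      ∑ᶠ l : J × Γ, (a.W j l.1 l.2).indicator (fun q => u l.1 (a.Θ j l.1 l.2 q)) q =
        ∑ j', ∑ φ ∈ Φ, (a.W j j' φ).indicator (fun q => u j' (a.Θ j j' φ q)) q := by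
  have hf : (⋃ j, ⋃ j', {φ | ∃ q ∈ a.N j, q ∈ a.W j j' φ ∧ a.Θ j j' φ q ∈ a.N j'}).Finite :=
    finite_iUnion fun j => finite_iUnion fun j' => H.fin j j' _ _ (cN j) (cN j') (NQ H j) (NQ H j')
  refine ⟨hf.toFinset, fun φ hφ => ?_, fun u hu j q hq => ?_⟩
  · simp only [Finite.mem_toFinset, mem_iUnion, mem_ofPred_eq] at hφ ⊢
    obtain ⟨j, j', q, h1, h2, h3⟩ := hφ
    exact ⟨j', j, _, h3, H.invW j j' φ q h2, by rwa [back H h2]⟩
  · rw [← Finset.sum_product', finsum_eq_sum_of_support_subset]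
    rintro ⟨j', φ⟩ hl
    by_cases h : q ∈ a.W j j' φ
    · simp only [Function.mem_support, indicator_of_mem h] at hl
      simp only [Finset.coe_product, mem_prod, Finset.mem_coe, Finite.mem_toFinset, mem_iUnion]
      exact ⟨Finset.mem_univ _, j, j', q, hq, h, hu _ _ hl⟩
    · exact absurd (indicator_of_notMem h _) hl

end G4

open G4 in
theorem GA.dbl [Fintype J] (H : GA a) {α α' : J → V × ℍ → ℝ} (hc : ∀ j, Measurable (α j))
    (hc' : ∀ j, Measurable (α' j)) {B' : ℝ} (h0 : ∀ j q, 0 ≤ α j q ∧ α j q ≤ B')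
    (h0' : ∀ j q, 0 ≤ α' j q ∧ α' j q ≤ B')
    (hs : ∀ j q, α j q ≠ 0 → q ∈ a.N j) (hs' : ∀ j q, α' j q ≠ 0 → q ∈ a.N j) {b : ℝ}
    (hp : a.Part α 1 a.N) (hp' : a.Part α' b fun j => {q | α j q ≠ 0})
    (F : J → V × ℍ → ℝ) (D : J → V → ℝ) (B : ℝ) (mF : ∀ j, Measurable (F j))
    (mD : ∀ j, Measurable (D j)) (bF : ∀ j q, |F j q| ≤ B) (bD : ∀ j x, 0 ≤ D j x ∧ D j x ≤ B)
    (hF : ∀ j j' φ, ∀ q ∈ a.W j j' φ, q.1 ∈ a.S j → q ∈ a.N j → a.Θ j j' φ q ∈ a.N j' →
      F j q ≤ F j' (a.Θ j j' φ q) + D j q.1) :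
    ∑ j, ∫ q in a.S j ×ˢ univ, a.ν j q.1 * α' j q * F j q ∂(volume.prod volume) ≤
      b * ∑ j, ∫ q in a.S j ×ˢ univ, a.ν j q.1 * α j q * F j q ∂(volume.prod volume) +
      ∑ j, ∫ q in a.S j ×ˢ univ, a.ν j q.1 * α' j q * D j q.1 ∂(volume.prod volume) := by
  classical
  obtain ⟨Φ, hΦ, hΛ⟩ := labels H
  have mK : ∀ j, MeasurableSet (a.S j ×ˢ (univ : Set ℍ)) := fun j => (H.mS j).prod .univ
  have ab : ∀ j q, |α j q| ≤ B' := fun j q => (abs_of_nonneg (h0 j q).1).trans_le (h0 j q).2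
  have ab' : ∀ j q, |α' j q| ≤ B' := fun j q => (abs_of_nonneg (h0' j q).1).trans_le (h0' j q).2
  have ind : ∀ {s : Set (V × ℍ)} {u : V × ℍ → ℝ} {c : ℝ}, (∀ q, |u q| ≤ c) →
      ∀ q, |s.indicator u q| ≤ c := fun {s u c} h q =>
    (norm_indicator_le_norm_self (s := s) u q).trans (h q)
  have mu : ∀ {x y c d : ℝ}, |x| ≤ c → |y| ≤ d → |x * y| ≤ c * d := fun h1 h2 =>
    (abs_mul _ _).trans_le (mul_le_mul h1 h2 (abs_nonneg _) ((abs_nonneg _).trans h1))
  let f : J → J → Γ → V × ℍ → ℝ := fun j j' φ => (a.S j' ×ˢ univ).indicator fun q =>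
    (a.W j' j φ⁻¹).indicator (fun q => α' j (a.Θ j' j φ⁻¹ q)) q * (α j' q * F j' q)
  have fm : ∀ j j' φ, Measurable (f j j' φ) := fun j j' φ =>
    ((meas H j' j φ⁻¹ (hc' j)).mul ((hc j').mul (mF j'))).indicator (mK j')
  have fb : ∀ j j' φ q, |f j j' φ q| ≤ B' * (B' * B) := fun j j' φ =>
    ind fun q => mu (ind (fun _ => ab' _ _) q) (mu (ab _ _) (bF _ _))
  have f0 : ∀ j j' φ q, f j j' φ q ≠ 0 → q ∈ a.N j' ∧ q ∈ a.W j' j φ⁻¹ ∧
      a.Θ j' j φ⁻¹ q ∈ a.N j := fun j j' φ q h => by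
    have h1 := mul_ne_zero_iff.1 (indicator_apply_ne_zero.1 h).2
    have h2 := indicator_apply_ne_zero.1 h1.1
    exact ⟨hs _ _ (left_ne_zero_of_mul h1.2), h2.1, hs' _ _ h2.2⟩
  have ch := fun j j' φ => H.chg j j' φ (fm j j' φ) (fb j j' φ) (f0 j j' φ)
  have i1 : ∀ j {u : V × ℍ → ℝ}, Measurable u → (∀ q, |u q| ≤ B) → Integrable
      ((a.S j ×ˢ univ).indicator fun q => a.ν j q.1 * α' j q * u q) (volume.prod volume) :=
    fun j u hu hB => by
      simp only [mul_assoc]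
      exact (int H j ((hc' j).mul hu) (fun q => mu (ab' j q) (hB q))
        fun q h => hs' j q (left_ne_zero_of_mul h)).indicator (mK j)
  have pw : ∀ j q, (a.S j ×ˢ univ).indicator (fun q => a.ν j q.1 * α' j q * F j q) q ≤
      ∑ j', ∑ φ ∈ Φ, (a.W j j' φ).indicator (fun q => a.ν j q.1 * f j j' φ (a.Θ j j' φ q)) q +
      (a.S j ×ˢ univ).indicator (fun q => a.ν j q.1 * α' j q * D j q.1) q := fun j q => by
    have e : ∀ j' φ, q ∈ a.W j j' φ → f j j' φ (a.Θ j j' φ q) = (a.S j ×ˢ univ).indicator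
        (fun q => α' j q * (α j' (a.Θ j j' φ q) * F j' (a.Θ j j' φ q))) q := fun j' φ h => by
      simp only [f, indicator_apply, H.invW j j' φ q h, back H h, if_true, mem_prod, mem_univ,
        and_true]
      by_cases c1 : α' j q = 0
      · simp [c1]
      by_cases c2 : α j' (a.Θ j j' φ q) = 0
      · simp [c2]
      exact if_congr (H.iS j j' φ q h (NQ H j (hs' j q c1)) (NQ H j' (hs j' _ c2))).symm rfl rfl
    by_cases hK : q ∈ a.S j ×ˢ (univ : Set ℍ)
    swap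
    · simp only [indicator_of_notMem hK, add_zero] at e ⊢
      refine Finset.sum_nonneg fun j' _ => Finset.sum_nonneg fun φ _ => ?_
      by_cases h : q ∈ a.W j j' φ
      · rw [indicator_of_mem h, e j' φ h, mul_zero]
      · rw [indicator_of_notMem h]
    simp only [indicator_of_mem hK] at e ⊢
    by_cases c1 : α' j q = 0
    · simp only [c1, mul_zero, zero_mul, add_zero] at e ⊢
      refine Finset.sum_nonneg fun j' _ => Finset.sum_nonneg fun φ _ => ?_
      by_cases h : q ∈ a.W j j' φ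
      · rw [indicator_of_mem h, e j' φ h, mul_zero]
      · rw [indicator_of_notMem h]
    have hN := hs' j q c1
    have p1 := (hΛ α hs j q hN).symm.trans (hp j q hN hK.1)
    have pν : 0 ≤ a.ν j q.1 * α' j q :=
      mul_nonneg (H.pν j _ (by simpa using (NQ H j hN).1)).le (h0' j q).1
    rw [← sub_le_iff_le_add, ← mul_sub, ← mul_one (_ * (F j q - D j q.1)), ← p1, Finset.mul_sum]
    refine Finset.sum_le_sum fun j' _ => ?_
    rw [Finset.mul_sum]
    refine Finset.sum_le_sum fun φ _ => ?_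
    by_cases h : q ∈ a.W j j' φ
    · rw [indicator_of_mem h, indicator_of_mem h, e j' φ h]
      by_cases c2 : α j' (a.Θ j j' φ q) = 0
      · simp [c2]
      have := mul_le_mul_of_nonneg_left (sub_le_iff_le_add.2 (hF j j' φ q h hK.1 hN (hs j' _ c2)))
        (mul_nonneg pν (h0 j' (a.Θ j j' φ q)).1)
      linarith
    · rw [indicator_of_notMem h, indicator_of_notMem h, mul_zero]
  have tg : ∀ j' q, ∑ j, ∑ φ ∈ Φ, a.ν j' q.1 * f j j' φ q =
      b * (a.S j' ×ˢ univ).indicator (fun q => a.ν j' q.1 * α j' q * F j' q) q := fun j' q => by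
    by_cases hK : q ∈ a.S j' ×ˢ (univ : Set ℍ)
    swap
    · simp only [f, indicator_of_notMem hK, mul_zero, Finset.sum_const_zero]
    simp only [f, indicator_of_mem hK]
    by_cases c : α j' q = 0
    · simp only [c, zero_mul, mul_zero, Finset.sum_const_zero]
    rw [← hp' j' q c hK.1, hΛ α' hs' j' q (hs j' q c), Finset.sum_mul]
    refine Finset.sum_congr rfl fun j _ => ?_
    rw [Finset.sum_mul]
    refine Finset.sum_nbij' (·⁻¹) (·⁻¹) hΦ hΦ (fun _ _ => inv_inv _) (fun _ _ => inv_inv _)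
      fun φ _ => by ring
  have i2 := fun j j' φ => int H j' (fm j j' φ) (fb j j' φ) fun q h => (f0 j j' φ q h).1
  simp only [← integral_indicator (mK _)]
  calc _ ≤ ∑ j, ((∑ j', ∑ φ ∈ Φ, ∫ q, a.ν j' q.1 * f j j' φ q ∂(volume.prod volume)) + ∫ q,
        (a.S j ×ˢ univ).indicator (fun q => a.ν j q.1 * α' j q * D j q.1) q ∂(volume.prod volume)) :=
        Finset.sum_le_sum fun j _ => ?_
    _ = _ := ?_
  · have i3 := i1 j ((mD j).comp measurable_fst) fun q =>
      (abs_of_nonneg (bD j q.1).1).trans_le (bD j q.1).2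
    have i4 := fun j' => integrable_finsetSum Φ fun φ _ => (ch j j' φ).1
    have i5 := integrable_finsetSum Finset.univ fun j' _ => i4 j'
    refine (integral_mono (i1 j (mF j) (bF j)) (i5.add i3) (pw j)).trans_eq ?_
    refine (integral_add i5 i3).trans ?_
    rw [integral_finsetSum _ fun j' _ => i4 j']
    simp only [integral_finsetSum _ fun φ _ => (ch j _ φ).1, (ch _ _ _).2]
    rfl
  · rw [Finset.sum_add_distrib, Finset.sum_comm, Finset.mul_sum]
    congr 1
    refine Finset.sum_congr rfl fun j' _ => ?_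
    simp only [← integral_const_mul, ← tg]
    rw [integral_finsetSum _ fun j _ => integrable_finsetSum Φ fun φ _ => i2 j j' φ]
    simp only [integral_finsetSum _ fun φ _ => i2 _ j' φ]

end Pool.Agent.MP_596265_gt.En

/-! Row G5: uniform changes of chart. -/

namespace Pool.Agent.MP_596265_gt.En

open MeasureTheory Filter Topology Set Metric UpperHalfPlane
open scoped RealInnerProductSpace MatrixGroups

variable {V : Type} [NormedAddCommGroup V] [InnerProductSpace ℝ V] [FiniteDimensional ℝ V]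
  [MeasurableSpace V] [BorelSpace V] {J Γ : Type} [Group Γ] {a : GD V J Γ}

namespace G5

omit [MeasurableSpace V] [BorelSpace V] in
theorem mono {r r' C C' : ℝ} {S S' : Set V} {x x' : V} {T T' : V →L[ℝ] V}
    (h : Tr r C S S' x x' T T') (hr : r' ≤ r) (hC : C ≤ C') : Tr r' C' S S' x x' T T' := by
  obtain ⟨τ, τ', h1, h2, h3, h4, h5⟩ := h
  have hb := ball_subset_ball (x := x) hr
  exact ⟨τ, τ', h1, fun y hy => h2 y (hb hy),
    fun y hy => (h3 y (hb hy)).trans (mul_le_mul_of_nonneg_right hC (norm_nonneg _)),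
    fun y hy => h4 y (hb hy), h5⟩

omit [Group Γ] [MeasurableSpace V] [BorelSpace V] in
theorem cN (j : J) : IsCompact (a.N j) := (isCompact_closedBall _ _).prod (isCompact_closedBall _ _)

theorem NQ (H : GA a) (j : J) : a.N j ⊆ a.Q j 1 :=
  prod_mono (closedBall_subset_ball (by linarith [H.r_pos j]))
    (closedBall_subset_ball (by linarith [H.s_pos j]))

/-- the part of an arrow between the two compact parts is compact -/
theorem cK (H : GA a) (j j' : J) (φ : Γ) :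
    IsCompact {q | q ∈ a.N j ∧ q ∈ a.W j j' φ ∧ a.Θ j j' φ q ∈ a.N j'} := by
  refine (cN j).of_isClosed_subset ?_ fun q hq => hq.1
  convert (H.prop j j' φ _ _ (cN j) (cN j') (NQ H j) (NQ H j')).inter
    (isClosed_closure (s := a.W j j' φ)) using 1
  ext q
  exact ⟨fun h => ⟨⟨h.1, H.WA _ _ _ q h.2.1, h.2.2⟩, subset_closure h.2.1⟩, fun h =>
    ⟨h.1.1, H.clW _ _ _ q h.2 h.1.2.1 (NQ H j h.1.1) (NQ H j' h.1.2.2), h.1.2.2⟩⟩

/-- a `C¹` map is uniformly Lipschitz on balls inside a compact set -/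
theorem lip {E F : Type} [NormedAddCommGroup E] [NormedSpace ℝ E] [NormedAddCommGroup F]
    [NormedSpace ℝ F] {g : E → F} {K : Set E} (hK : IsCompact K) (h : ∀ x ∈ K, ContDiffAt ℝ 1 g x) :
    ∃ C, ∀ x δ, 0 < δ → ball x δ ⊆ K → ∀ y ∈ ball x δ, ‖g y - g x‖ ≤ C * ‖y - x‖ := by
  obtain ⟨C, hC⟩ := hK.exists_bound_of_continuousOn (f := fderiv ℝ g) fun x hx =>
    ((h x hx).fderiv_right (m := 0) (by norm_num)).continuousAt.continuousWithinAt
  exact ⟨C, fun x δ hδ hb y hy => (convex_ball x δ).norm_image_sub_le_of_norm_fderiv_le (𝕜 := ℝ)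
    (fun z hz => (h z (hb hz)).differentiableAt (by norm_num)) (fun z hz => hC z (hb hz))
    (mem_ball_self hδ) hy⟩
end G5

theorem G5.one (H : GA a) (j j' : J) (φ : Γ) : ∃ r > 0, ∃ C : ℝ, ∀ q ∈ a.W j j' φ,
    q ∈ a.N j → a.Θ j j' φ q ∈ a.N j' → Tr r C (a.S j) (a.S j') q.1 (a.Θ j j' φ q).1
      (a.T j (q.1, (q.2 : ℂ))) (a.T j' ((a.Θ j j' φ q).1, ((a.Θ j j' φ q).2 : ℂ))) := by
  have oQ : ∀ i, IsOpen (a.Q i 1) := fun i => isOpen_ball.prod isOpen_ball
  have oU : IsOpen ((a.W j j' φ ∩ a.Q j 1) ∩ a.Θ j j' φ ⁻¹' a.Q j' 1) :=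
    ((H.contΘ j j' φ).mono fun q hq => ⟨H.WA _ _ _ q hq.1, trivial⟩).isOpen_inter_preimage
      ((H.oW _ _ _).inter (oQ j)) (oQ j')
  have hK := G5.cK H j j' φ
  obtain ⟨δ, hδ, hU⟩ := hK.exists_cthickening_subset_open oU
    fun q hq => ⟨⟨hq.2.1, G5.NQ H j hq.1⟩, G5.NQ H j' hq.2.2⟩
  obtain ⟨C, hC⟩ := G5.lip (g := fderiv ℝ (a.τ j j' φ)) ((hK.cthickening (r := δ)).image continuous_fst)
    (by rintro _ ⟨q, hq, rfl⟩
        exact (H.cτ _ _ _ _ (H.WA _ _ _ q (hU hq).1.1)).fderiv_right (m := 1) (by norm_num))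
  refine ⟨δ, hδ, C, fun q hW hN hN' => ?_⟩
  have hb : ∀ y ∈ ball q.1 δ, (y, q.2) ∈ cthickening δ
      {q | q ∈ a.N j ∧ q ∈ a.W j j' φ ∧ a.Θ j j' φ q ∈ a.N j'} := fun y hy =>
    mem_cthickening_of_dist_le _ q _ _ ⟨hN, hW, hN'⟩ (by
      rw [Prod.dist_eq, dist_self]; exact max_le (mem_ball.1 hy).le hδ.le)
  have hA : ∀ y ∈ ball q.1 δ, y ∈ a.A j j' φ := fun y hy => H.WA _ _ _ _ (hU (hb y hy)).1.1
  exact ⟨a.τ j j' φ, fderiv ℝ (a.τ j j' φ), rfl,
    fun y hy => ((H.cτ _ _ _ y (hA y hy)).differentiableAt (by norm_num)).hasFDerivAt,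
    hC _ δ hδ fun y hy => ⟨_, hb y hy, rfl⟩,
    fun y hy => (H.iS _ _ _ _ (hU (hb y hy)).1.1 (hU (hb y hy)).1.2 (hU (hb y hy)).2).2,
    H.iT _ _ _ q hW (G5.NQ H j hN) (G5.NQ H j' hN')⟩

theorem GA.tr [Fintype J] (H : GA a) : ∃ r > 0, ∃ C : ℝ, 0 ≤ C ∧ ∀ j j' φ, ∀ q ∈ a.W j j' φ,
    q ∈ a.N j → a.Θ j j' φ q ∈ a.N j' → Tr r C (a.S j) (a.S j') q.1 (a.Θ j j' φ q).1
      (a.T j (q.1, (q.2 : ℂ))) (a.T j' ((a.Θ j j' φ q).1, ((a.Θ j j' φ q).2 : ℂ))) := by
  choose r hr C h using G5.one H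
  have e : ∀ᶠ p : ℝ × ℝ in 𝓝[>] 0 ×ˢ atTop, ∀ j j', ∀ φ ∈ {φ | ∃ q ∈ a.N j, q ∈ a.W j j' φ ∧
      a.Θ j j' φ q ∈ a.N j'}, p.1 ≤ r j j' φ ∧ C j j' φ ≤ p.2 :=
    eventually_all.2 fun j => eventually_all.2 fun j' =>
      (eventually_all_finite (H.fin j j' _ _ (G5.cN j) (G5.cN j') (G5.NQ H j) (G5.NQ H j'))).2
        fun φ _ => ((eventually_le_nhds (hr j j' φ)).filter_mono nhdsWithin_le_nhds).prod_mk
          (eventually_ge_atTop _)
  have e' : ∀ᶠ p : ℝ × ℝ in 𝓝[>] 0 ×ˢ atTop, 0 < p.1 ∧ 0 ≤ p.2 :=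
    Eventually.prod_mk self_mem_nhdsWithin (eventually_ge_atTop _)
  obtain ⟨p, h1, h2⟩ := (e.and e').exists
  exact ⟨p.1, h2.1, p.2, h2.2, fun j j' φ q hW hN hN' => G5.mono (h j j' φ q hW hN hN')
    (h1 j j' φ ⟨q, hN, hW, hN'⟩).1 (h1 j j' φ ⟨q, hN, hW, hN'⟩).2⟩

theorem Tr.mono {r C C' : ℝ} {S S' : Set V} {x x' : V} {T T' : V →L[ℝ] V}
    (h : Tr r C S S' x x' T T') (hC : C ≤ C') : Tr r C' S S' x x' T T' := G5.mono h le_rfl hC

end Pool.Agent.MP_596265_gt.En

namespace Pool.Agent.MP_596265_gt.En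

open MeasureTheory Filter Topology Set Metric UpperHalfPlane
open scoped RealInnerProductSpace MatrixGroups Pointwise

namespace G6

theorem vol_ball (z : ℍ) (ρ : ℝ) : volume.real (ball z ρ) = volume.real (ball (I : ℍ) ρ) := by
  obtain ⟨g, rfl⟩ := MulAction.exists_smul_eq SL(2, ℝ) (I : ℍ) z
  rw [← Metric.smul_ball]
  exact congrArg ENNReal.toReal
    (measure_smul (volume : Measure ℍ) (Matrix.SpecialLinearGroup.mapGL ℝ g) (ball (I : ℍ) ρ))

theorem int_bdd {X : Type} [MeasurableSpace X] [TopologicalSpace X] [OpensMeasurableSpace X]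
    [T2Space X] (μ : Measure X) [IsFiniteMeasureOnCompacts μ] {K : Set X} (hK : IsCompact K)
    {f : X → ℝ} (mf : Measurable f) {B : ℝ} (bf : ∀ x, |f x| ≤ B) (hs : ∀ x, f x ≠ 0 → x ∈ K) :
    Integrable f μ :=
  (Measure.integrableOn_of_bounded (M := B) hK.measure_lt_top.ne mf.aestronglyMeasurable
    (Eventually.of_forall bf)).integrable_of_forall_notMem_eq_zero fun x hx => by
      by_contra h; exact hx (hs x h)

theorem abs_avg {g : ℍ → ℝ} {B : ℝ} (bg : ∀ z, |g z| ≤ B) (z : ℍ) (ρ : ℝ) :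
    |∫ w in ball z ρ, g w| ≤ B * volume.real (ball (I : ℍ) ρ) := by
  rw [← vol_ball z]
  exact norm_setIntegral_le_of_norm_le_const (f := g) measure_ball_lt_top fun w _ => bg w

theorem meas_avg {X : Type} [MeasurableSpace X] {f : X × ℍ → ℝ} (mf : Measurable f) (ρ : ℝ) :
    Measurable fun q : X × ℍ => ∫ w in ball q.2 ρ, f (q.1, w) := by
  have h : Measurable fun p : (X × ℍ) × ℍ => if dist p.2 p.1.2 < ρ then f (p.1.1, p.2) else 0 :=
    Measurable.ite (measurableSet_lt (measurable_snd.dist measurable_fst.snd) measurable_const)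
      (mf.comp (measurable_fst.fst.prodMk measurable_snd)) measurable_const
  have h1 := (h.stronglyMeasurable.integral_prod_right' (ν := (volume : Measure ℍ))).measurable
  convert h1 using 2 with q
  rw [← integral_indicator measurableSet_ball]
  rfl

theorem leaf {f g : ℍ → ℝ} (mf : Measurable f) (mg : Measurable g) {A B : ℝ}
    (bf : ∀ z, |f z| ≤ A) (bg : ∀ z, |g z| ≤ B) {c : ℍ} {R : ℝ}
    (hs : ∀ z, f z ≠ 0 → dist z c ≤ R) (ρ : ℝ) :
    ∫ z, f z * ∫ z' in ball z ρ, (g z' - g z) = (∫ z', (∫ w in ball z' ρ, f w) * g z') -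
      volume.real (ball (I : ℍ) ρ) * ∫ z, f z * g z := by
  have hA : 0 ≤ A := (abs_nonneg _).trans (bf c)
  have hi : Integrable (Function.uncurry fun z z' : ℍ => if dist z z' < ρ then f z * g z' else 0)
      ((volume : Measure ℍ).prod volume) := by
    refine int_bdd _ ((isCompact_closedBall c R).prod (isCompact_closedBall c (R + ρ)))
      (Measurable.ite (measurableSet_lt measurable_dist measurable_const)
        ((mf.comp measurable_fst).mul (mg.comp measurable_snd)) measurable_const)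
      (B := A * B) (fun p => ?_) fun p hp => ?_
    · simp only [Function.uncurry]
      split_ifs
      · rw [abs_mul]; exact mul_le_mul (bf _) (bg _) (abs_nonneg _) hA
      · rw [abs_zero]; exact mul_nonneg hA ((abs_nonneg _).trans (bg c))
    · simp only [Function.uncurry] at hp
      split_ifs at hp with h
      · have h1 := hs _ (left_ne_zero_of_mul hp)
        have h2 := dist_triangle_left p.2 c p.1
        exact ⟨h1, by rw [mem_closedBall]; linarith⟩
      · exact absurd rfl hp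
  have e1 : ∀ z, ∫ z', (if dist z z' < ρ then f z * g z' else 0) =
      f z * ∫ z' in ball z ρ, g z' := fun z => by
    rw [← integral_const_mul, ← integral_indicator measurableSet_ball]
    simp only [indicator, mem_ball, dist_comm]
  have e2 : ∀ z', ∫ z, (if dist z z' < ρ then f z * g z' else 0) =
      (∫ w in ball z' ρ, f w) * g z' := fun z' => by
    rw [← integral_mul_const, ← integral_indicator measurableSet_ball]
    simp only [indicator, mem_ball]
  have hsw := integral_integral_swap hi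
  have i1 := hi.integral_prod_left
  simp only [Function.uncurry, e1, e2] at hsw i1
  have i0 : Integrable f := int_bdd _ (isCompact_closedBall c R) mf bf hs
  have i2 : Integrable fun z => f z * g z :=
    i0.mul_bdd mg.aestronglyMeasurable (Eventually.of_forall bg)
  rw [← hsw, ← integral_const_mul, ← integral_sub i1 (i2.const_mul _)]
  refine integral_congr_ae (Eventually.of_forall fun z => ?_)
  have i3 : IntegrableOn g (ball z ρ) := Measure.integrableOn_of_bounded (M := B)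
    measure_ball_lt_top.ne mg.aestronglyMeasurable (Eventually.of_forall bg)
  simp only
  rw [integral_sub i3 (integrableOn_const measure_ball_lt_top.ne), setIntegral_const, vol_ball,
    smul_eq_mul]
  ring

variable {V : Type} [NormedAddCommGroup V] [InnerProductSpace ℝ V] [FiniteDimensional ℝ V]
  [MeasurableSpace V] [BorelSpace V] {J Γ : Type} [Group Γ] {a : GD V J Γ}

omit [MeasurableSpace V] [BorelSpace V] [Group Γ] in
theorem cN (j : J) : IsCompact (a.N j) :=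
  have := FiniteDimensional.proper_real V
  (isCompact_closedBall _ _).prod (isCompact_closedBall _ _)

omit [BorelSpace V] in
theorem NQ (H : GA a) (j : J) : a.N j ⊆ a.Q j 1 :=
  prod_mono (closedBall_subset_ball (by have := H.r_pos j; linarith))
    (closedBall_subset_ball (by have := H.s_pos j; linarith))

theorem int_N (H : GA a) (j : J) {β F : V × ℍ → ℝ} (mβ : Measurable β) (mF : Measurable F)
    {A B : ℝ} (bβ : ∀ q, |β q| ≤ A) (bF : ∀ q, |F q| ≤ B) (hs : ∀ q, β q ≠ 0 → q ∈ a.N j) :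
    Integrable (fun q => a.ν j q.1 * β q * F q) ((volume : Measure V).prod volume) := by
  have h1 : ContinuousOn (fun q : V × ℍ => a.ν j q.1) (a.N j) :=
    (H.cν j).continuousOn.comp continuousOn_fst fun q hq => by simpa using (NQ H j hq).1
  have h2 : IntegrableOn (fun q : V × ℍ => a.ν j q.1 * β q) (a.N j)
      ((volume : Measure V).prod volume) :=
    (h1.integrableOn_compact (cN j)).mul_bdd mβ.aestronglyMeasurable (Eventually.of_forall bβ)
  exact (h2.integrable_of_forall_notMem_eq_zero fun q hq => by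
    rw [not_not.1 (mt (hs q) hq), mul_zero]).mul_bdd mF.aestronglyMeasurable
      (Eventually.of_forall bF)

omit [Group Γ] in
theorem iter {S : Set V} {f : V × ℍ → ℝ} (hf : Integrable f ((volume : Measure V).prod volume)) :
    ∫ q in S ×ˢ univ, f q ∂(volume.prod volume) = ∫ x in S, ∫ z, f (x, z) := by
  rw [setIntegral_prod _ hf.integrableOn, Measure.restrict_univ]

theorem dterm (H : GA a) (j : J) (A : ℝ) : ∃ M : ℝ, 0 ≤ M ∧ ∀ (β : V × ℍ → ℝ) (D : V → ℝ) (B : ℝ),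
    Measurable β → Measurable D → (∀ q, |β q| ≤ A) → (∀ x, 0 ≤ D x ∧ D x ≤ B) →
    (∀ q, β q ≠ 0 → q ∈ a.N j) →
    ∫ q in a.S j ×ˢ univ, a.ν j q.1 * β q * D q.1 ∂(volume.prod volume) ≤
      M * ∫ x in a.S j, D x := by
  have := FiniteDimensional.proper_real V
  obtain ⟨m, hm⟩ := (isCompact_closedBall (0 : V) (a.r j / 2)).exists_bound_of_continuousOn
    ((H.cν j).continuousOn.mono (closedBall_subset_ball (by have := H.r_pos j; linarith)))
  refine ⟨|m| * |A| * volume.real (closedBall (a.c j) (2 * a.s j)), by positivity,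
    fun β D B mβ mD bβ bD hs => ?_⟩
  have bD' : ∀ x, |D x| ≤ B := fun x => by rw [abs_of_nonneg (bD x).1]; exact (bD x).2
  have hi := int_N H j (F := fun q => D q.1) mβ (mD.comp measurable_fst) bβ (fun q => bD' q.1) hs
  have iD : IntegrableOn D (a.S j) := Measure.integrableOn_of_bounded (M := B)
    ((measure_mono (H.SB j)).trans_lt measure_ball_lt_top).ne mD.aestronglyMeasurable
    (Eventually.of_forall bD')
  rw [iter hi, ← integral_const_mul]
  refine integral_mono hi.integral_prod_left.integrableOn (iD.const_mul _) fun x => ?_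
  simp only
  rw [integral_mul_const]
  refine mul_le_mul_of_nonneg_right ?_ (bD x).1
  rw [← setIntegral_eq_integral_of_forall_compl_eq_zero (s := closedBall (a.c j) (2 * a.s j))
    fun z hz => by rw [not_not.1 (mt (hs (x, z)) fun h => hz h.2), mul_zero]]
  refine (Real.le_norm_self _).trans (norm_setIntegral_le_of_norm_le_const
    (isCompact_closedBall _ _).measure_lt_top fun z _ => ?_)
  by_cases h0 : β (x, z) = 0
  · rw [h0, mul_zero, norm_zero]; positivity
  · rw [norm_mul]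
    exact mul_le_mul ((hm x (hs _ h0).1).trans (le_abs_self _)) ((bβ _).trans (le_abs_self _))
      (norm_nonneg _) (abs_nonneg _)

end G6

variable {V : Type} [NormedAddCommGroup V] [InnerProductSpace ℝ V] [FiniteDimensional ℝ V]
  [MeasurableSpace V] [BorelSpace V] {J Γ : Type} [Group Γ] {a : GD V J Γ}

open G6 in
theorem GA.sys [Fintype J] (H : GA a) : ∃ (N : J → Set (V × ℂ)) (α : J → V × ℂ → ℝ) (ρ : ℝ),
    Sys a.S a.O N a.T α ρ ∧ ∀ j, ∀ q ∈ a.Q j (1 / 8), α j (q.1, (q.2 : ℂ)) ≠ 0 := by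
  have := FiniteDimensional.proper_real V
  obtain ⟨α, hc, h0, hs, hQ, hp⟩ := H.part
  obtain ⟨r, hr, C, hC, hT⟩ := H.tr
  obtain ⟨ρ, hρs, hρ⟩ : ∃ ρ, (∀ j, ρ ≤ a.s j) ∧ 0 < ρ :=
    (((eventually_all.2 fun j => eventually_le_nhds (H.s_pos j)).filter_mono
      (nhdsWithin_le_nhds (s := Ioi (0 : ℝ)))).and self_mem_nhdsWithin).exists
  have hι : IsOpenEmbedding fun q : V × ℍ => (q.1, (q.2 : ℂ)) :=
    IsOpenEmbedding.id.prodMap isOpenEmbedding_coe
  have hs0 : ∀ j (q : V × ℍ), α j (q.1, (q.2 : ℂ)) ≠ 0 →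
      ‖q.1‖ ≤ a.r j / 4 ∧ dist q.2 (a.c j) ≤ a.s j := fun j q h => by
    obtain ⟨z, hz, h1⟩ := hs j _ h
    rwa [UpperHalfPlane.ext hz]
  have hN : ∀ j (x : V) (z z' : ℍ), α j (x, (z : ℂ)) ≠ 0 → dist z' z ≤ ρ → (x, z') ∈ a.N j :=
    fun j x z z' h hd => by
      have h1 := hs0 j (x, z) h
      have h2 := dist_triangle z' z (a.c j)
      have h3 := hρs j
      have h4 := H.r_pos j
      exact ⟨by rw [mem_closedBall_zero_iff]; linarith only [h1.1, h4],
        by rw [mem_closedBall]; linarith only [h1.2, hd, h2, h3]⟩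
  have hN0 : ∀ j (q : V × ℍ), α j (q.1, (q.2 : ℂ)) ≠ 0 → q ∈ a.N j := fun j q h =>
    hN j q.1 q.2 q.2 h (by rw [dist_self]; exact hρ.le)
  have hν : ∀ j q, α j q ≠ 0 → 0 < a.ν j q.1 := fun j q h => by
    obtain ⟨z, -, h1, -⟩ := hs j q h
    have := H.r_pos j
    exact H.pν j _ (by rw [mem_ball_zero_iff]; linarith)
  have hc0 : ∀ j, Continuous fun q : V × ℍ => α j (q.1, (q.2 : ℂ)) := fun j =>
    (hc j).continuous.comp hι.continuous
  refine ⟨fun j => (fun q : V × ℍ => (q.1, (q.2 : ℂ))) '' a.N j, fun j q => a.ν j q.1 * α j q, ρ,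
    ⟨hρ, H.mS, fun j => ((measure_mono (H.SB j)).trans_lt measure_ball_lt_top).ne,
      fun j => hι.isOpenMap _ (isOpen_ball.prod isOpen_ball), ?_,
      fun j => (cN j).image hι.continuous, fun j => image_mono (NQ H j), H.cT, H.sT, H.pT, H.lt,
      fun j => contDiff_iff_contDiffAt.2 fun q => ?_, fun j q => ?_, fun j q h => ?_,
      fun j x z z' h hd => ⟨(x, z'), hN j x z z' (right_ne_zero_of_mul h) hd, rfl⟩, ?_⟩,
    fun j q hq => mul_ne_zero (hν j _ (hQ j q hq)).ne' (hQ j q hq)⟩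
  · rintro j _ ⟨q, -, rfl⟩; exact q.2.im_pos
  · by_cases h : ‖q.1‖ < a.r j
    · exact (((H.cν j).contDiffAt (isOpen_ball.mem_nhds (mem_ball_zero_iff.2 h))).comp q
        contDiffAt_fst).mul (hc j).contDiffAt
    · have h1 : ∀ᶠ p : V × ℂ in 𝓝 q, a.r j / 4 < ‖p.1‖ :=
        continuous_fst.norm.continuousAt.eventually
          (eventually_gt_nhds (by have := H.r_pos j; linarith only [h, this]))
      refine (contDiffAt_const (c := 0)).congr_of_eventuallyEq (h1.mono fun p hp => ?_)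
      have : α j p = 0 := by
        by_contra h2
        obtain ⟨z, -, h3, -⟩ := hs j p h2
        linarith
      simp [this]
  · by_cases h : α j q = 0
    · simp [h]
    · exact mul_nonneg (hν j q h).le (h0 j q)
  · obtain ⟨z, hz, -⟩ := hs j q (right_ne_zero_of_mul h)
    have e : q = (q.1, (z : ℂ)) := Prod.ext rfl hz
    exact ⟨(q.1, z), hN0 j (q.1, z) (by rw [← e]; exact right_ne_zero_of_mul h), e.symm⟩
  choose m hm using fun j => (cN (a := a) j).exists_bound_of_continuousOn (hc0 j).continuousOn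
  set b := volume.real (ball (I : ℍ) ρ) with hb
  have hb0 : 0 ≤ b := measureReal_nonneg
  set A := ∑ j, |m j| with hA
  have hA0 : 0 ≤ A := Finset.sum_nonneg fun j _ => abs_nonneg _
  have bα : ∀ j (q : V × ℍ), |α j (q.1, (q.2 : ℂ))| ≤ A := fun j q => by
    by_cases h : α j (q.1, (q.2 : ℂ)) = 0
    · rw [h, abs_zero]; exact hA0
    · exact ((hm j q (hN0 j q h)).trans (le_abs_self _)).trans
        (Finset.single_le_sum (f := fun j => |m j|) (fun j _ => abs_nonneg _) (Finset.mem_univ j))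
  have bα' : ∀ j (q : V × ℍ), |∫ w in ball q.2 ρ, α j (q.1, (w : ℂ))| ≤ A * b := fun j q =>
    abs_avg (fun w => bα j (q.1, w)) _ _
  have mα' := fun j => meas_avg (hc0 j).measurable ρ
  have sα' : ∀ j (q : V × ℍ), ∫ w in ball q.2 ρ, α j (q.1, (w : ℂ)) ≠ 0 → q ∈ a.N j := by
    intro j q h
    by_contra hq
    refine h (setIntegral_eq_zero_of_forall_eq_zero fun w hw => ?_)
    by_contra h1
    exact hq (hN j q.1 w q.2 h1 (by rw [dist_comm]; exact (mem_ball.1 hw).le))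
  choose M hM0 hM using fun j => dterm H j (A * b)
  have hMs : 0 ≤ ∑ j, M j := Finset.sum_nonneg fun j _ => hM0 j
  refine ⟨r, hr, C + ∑ j, M j, fun F D B mF mD bF bD hF => ?_⟩
  have hAb : 0 ≤ A * b := mul_nonneg hA0 hb0
  have hd := H.dbl (α := fun j q => α j (q.1, (q.2 : ℂ)))
    (α' := fun j q => ∫ w in ball q.2 ρ, α j (q.1, (w : ℂ))) (fun j => (hc0 j).measurable) mα'
    (B' := A + A * b) (fun j q => ⟨h0 j _, by linarith [le_abs_self (α j (q.1, (q.2 : ℂ))), bα j q]⟩)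
    (fun j q => ⟨setIntegral_nonneg measurableSet_ball fun w _ => h0 j _,
      by linarith [(le_abs_self _).trans (bα' j q)]⟩) hN0 sα' hp
    (H.part_avg hc0 hs0 hp hρ hρs) F D B mF mD bF bD fun j j' φ q hq h1 h2 h3 =>
      hF j j' q.1 _ q.2 _ h1 ⟨q, h2, rfl⟩ ⟨_, h3, rfl⟩
        ((hT j j' φ q hq h2 h3).mono (by linarith))
  have key : ∀ j, ∫ x in a.S j, ∫ z : ℍ, a.ν j x * α j (x, z) *
      ∫ z' in ball z ρ, (F j (x, z') - F j (x, z)) =
      ∫ q : V × ℍ in a.S j ×ˢ univ, a.ν j q.1 * (∫ w in ball q.2 ρ, α j (q.1, (w : ℂ))) * F j q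
        ∂(volume.prod volume) -
      b * ∫ q : V × ℍ in a.S j ×ˢ univ, a.ν j q.1 * α j (q.1, (q.2 : ℂ)) * F j q
        ∂(volume.prod volume) := fun j => by
    have i1 := int_N H j (mα' j) (mF j) (bα' j) (bF j) (sα' j)
    have i2 := int_N H j (hc0 j).measurable (mF j) (bα j) (bF j) (hN0 j)
    rw [iter i1, iter i2, ← integral_const_mul, ← integral_sub i1.integral_prod_left.integrableOn
      (i2.integral_prod_left.integrableOn.const_mul _)]
    refine integral_congr_ae (Eventually.of_forall fun x => ?_)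
    have h := leaf (f := fun z : ℍ => α j (x, z)) (g := fun z => F j (x, z))
      ((hc0 j).measurable.comp measurable_prodMk_left) ((mF j).comp measurable_prodMk_left)
      (fun z => bα j (x, z)) (fun z => bF j (x, z)) (fun z hz => (hs0 j (x, z) hz).2) ρ
    simp only [mul_assoc, integral_const_mul]
    rw [h]; ring
  have hD : ∀ j, ∫ q : V × ℍ in a.S j ×ˢ univ,
      a.ν j q.1 * (∫ w in ball q.2 ρ, α j (q.1, (w : ℂ))) * D j q.1 ∂(volume.prod volume) ≤ (C + ∑ j, M j) * ∫ x in a.S j, D j x := fun j =>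
    (hM j _ (D j) B (mα' j) (mD j) (bα' j) (bD j) (sα' j)).trans
      (mul_le_mul_of_nonneg_right (by
        linarith [Finset.single_le_sum (f := M) (fun j _ => hM0 j) (Finset.mem_univ j)])
        (integral_nonneg fun x => (bD j x).1))
  have hs2 := Finset.sum_le_sum fun j (_ : j ∈ Finset.univ) => hD j
  rw [← Finset.mul_sum] at hs2
  simp only [key]
  rw [Finset.sum_sub_distrib, ← Finset.mul_sum]
  linarith

end Pool.Agent.MP_596265_gt.En

end
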