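import Pool.Agent.MP_596265_gt.E2
import Pool.Agent.MP_596265_gt.B1

section

/-! Cocycles on the free group and the symplectic form. -/

namespace Pool.Agent.MP_596265_gt.U

open Erg

noncomputable section

variable {g : ℕ}

theorem ad_neg (k : G) (Z : Mat) : ad k (-Z) = -ad k Z := by simp only [ad, mul_neg, neg_mul]
theorem ad_inv_ad (k : G) (Z : Mat) : ad k⁻¹ (ad k Z) = Z := by
  rw [← ad_mul, inv_mul_cancel, ad_one]
theorem ad_ad_inv (k : G) (Z : Mat) : ad k (ad k⁻¹ Z) = Z := by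
  rw [← ad_mul, mul_inv_cancel, ad_one]
theorem tr_ad_ad (k : G) (Y Z : Mat) : (ad k Y * ad k Z).trace = (Y * Z).trace := by
  rw [xj_tr_ad, ad_inv_ad]
theorem ad_negG (k : G) (Z : Mat) : ad (-k) Z = ad k Z := by
  have : (-k)⁻¹ = -k⁻¹ := inv_eq_of_mul_eq_one_right (by simp)
  simp only [ad, this, Matrix.SpecialLinearGroup.coe_neg, mul_neg, neg_mul, neg_neg]
theorem ad_PM {k k' : G} (h : PM k k') (Z : Mat) : ad k Z = ad k' Z := by
  rcases h with rfl | rfl
  · rfl
  · exact ad_negG _ _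
theorem ad_eq_zero {k : G} {Z : Mat} : ad k Z = 0 ↔ Z = 0 :=
  ⟨fun h => by rw [← ad_inv_ad k Z, h, xj_ad0], fun h => by rw [h, xj_ad0]⟩

/-- Central extension of the semidirect product of `G` with two copies of `Mat`. -/
@[ext] structure Hs where
  a : G
  u : Mat
  v : Mat
  c : ℝ

instance : Mul Hs := ⟨fun p q =>
  ⟨p.a * q.a, p.u + ad p.a q.u, p.v + ad p.a q.v, p.c + q.c + (p.u * ad p.a q.v).trace⟩⟩
instance : One Hs := ⟨⟨1, 0, 0, 0⟩⟩
instance : Inv Hs := ⟨fun p => ⟨p.a⁻¹, -ad p.a⁻¹ p.u, -ad p.a⁻¹ p.v, (p.u * p.v).trace - p.c⟩⟩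

instance : Group Hs := Group.ofLeftAxioms
  (fun p q r => Hs.ext (mul_assoc _ _ _)
    (show p.u + ad p.a q.u + ad (p.a * q.a) r.u = p.u + ad p.a (q.u + ad q.a r.u) by
      rw [ad_add, ad_mul, add_assoc])
    (show p.v + ad p.a q.v + ad (p.a * q.a) r.v = p.v + ad p.a (q.v + ad q.a r.v) by
      rw [ad_add, ad_mul, add_assoc])
    (show p.c + q.c + (p.u * ad p.a q.v).trace + r.c +
        ((p.u + ad p.a q.u) * ad (p.a * q.a) r.v).trace =
        p.c + (q.c + r.c + (q.u * ad q.a r.v).trace) +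
          (p.u * ad p.a (q.v + ad q.a r.v)).trace by
      rw [ad_add, ad_mul, add_mul, mul_add, Matrix.trace_add, Matrix.trace_add, tr_ad_ad]; ring))
  (fun p => Hs.ext (one_mul _) (show 0 + ad 1 p.u = p.u by rw [ad_one, zero_add])
    (show 0 + ad 1 p.v = p.v by rw [ad_one, zero_add])
    (show 0 + p.c + ((0 : Mat) * ad 1 p.v).trace = p.c by simp))
  (fun p => Hs.ext (inv_mul_cancel _) (neg_add_cancel _) (neg_add_cancel _)
    (show (p.u * p.v).trace - p.c + p.c + (-ad p.a⁻¹ p.u * ad p.a⁻¹ p.v).trace = 0 by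
      rw [neg_mul, Matrix.trace_neg, tr_ad_ad]; ring))

def til (M : Tup g) (U V : Gen g → Mat) : Fr g →* Hs :=
  FreeGroup.lift fun x => ⟨M x, U x, V x, 0⟩
/-- The cocycle with values `U` on the generators. -/
def coc (M : Tup g) (U : Gen g → Mat) (w : Fr g) : Mat := (til M U U w).u
/-- A primitive of the cup product. -/
def cup (M : Tup g) (U V : Gen g → Mat) (w : Fr g) : ℝ := (til M U V w).c
/-- The symplectic form. -/
def omg (M : Tup g) (U V : Gen g → Mat) : ℝ := cup M U V (relPre g g)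
/-- The coboundary of `X`. -/
def cob (M : Tup g) (X : Mat) : Gen g → Mat := fun x => X - ad (M x) X
/-- Cocycles of the surface group. -/
def Z1 (M : Tup g) (U : Gen g → Mat) : Prop := TL U ∧ coc M U (relPre g g) = 0

variable {M : Tup g} {U V : Gen g → Mat}

theorem til_eq (M : Tup g) (U V U' V' : Gen g → Mat) (w : Fr g) :
    (til M U V w).a = FreeGroup.lift M w ∧ (til M U V w).u = (til M U V' w).u ∧
      (til M U V w).v = (til M V U' w).u ∧ (til M U V' w).a = FreeGroup.lift M w ∧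
        (til M V U' w).a = FreeGroup.lift M w := by
  induction w using FreeGroup.induction_on with
  | C1 => simp only [map_one]; exact ⟨rfl, trivial, rfl, rfl, rfl⟩
  | of x => simp [til]
  | inv_of x h =>
    simp only [map_inv]
    obtain ⟨h1, h2, h3, h4, h5⟩ := h
    refine ⟨congrArg Inv.inv h1, ?_, ?_, congrArg Inv.inv h4, congrArg Inv.inv h5⟩
    · change -ad _ _ = -ad _ _; rw [h1, h2, h4]
    · change -ad _ _ = -ad _ _; rw [h1, h3, h5]
  | mul x y h h' =>
    simp only [map_mul]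
    obtain ⟨h1, h2, h3, h4, h5⟩ := h
    obtain ⟨k1, k2, k3, k4, k5⟩ := h'
    refine ⟨congrArg₂ (· * ·) h1 k1, ?_, ?_, congrArg₂ (· * ·) h4 k4, congrArg₂ (· * ·) h5 k5⟩
    · change _ + ad _ _ = _ + ad _ _; rw [h1, h2, h4, k2]
    · change _ + ad _ _ = _ + ad _ _; rw [h1, h3, h5, k3]
theorem til_a (w : Fr g) : (til M U V w).a = FreeGroup.lift M w := (til_eq M U V U V w).1
theorem til_u (w : Fr g) : (til M U V w).u = coc M U w := (til_eq M U V U U w).2.1
theorem til_v (w : Fr g) : (til M U V w).v = coc M V w := (til_eq M U V V V w).2.2.1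

@[simp] theorem coc_of (x : Gen g) : coc M U (FreeGroup.of x) = U x := by simp [coc, til]
@[simp] theorem cup_of (x : Gen g) : cup M U V (FreeGroup.of x) = 0 := by simp [cup, til]
@[simp] theorem coc_one : coc M U 1 = 0 := by rw [coc, map_one]; rfl
@[simp] theorem cup_one : cup M U V 1 = 0 := by rw [cup, map_one]; rfl
theorem coc_mul (a b : Fr g) :
    coc M U (a * b) = coc M U a + ad (FreeGroup.lift M a) (coc M U b) := by
  rw [coc, map_mul, ← til_a (U := U) (V := U)]; rfl
theorem cup_mul (a b : Fr g) : cup M U V (a * b) = cup M U V a + cup M U V b +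
    (coc M U a * ad (FreeGroup.lift M a) (coc M V b)).trace := by
  rw [cup, map_mul, ← til_a (U := U) (V := V), ← til_u (V := V), ← til_v (U := U)]; rfl
theorem coc_inv (a : Fr g) : coc M U a⁻¹ = -ad (FreeGroup.lift M a)⁻¹ (coc M U a) := by
  rw [coc, map_inv, ← til_a (U := U) (V := U)]; rfl
theorem cup_inv (a : Fr g) : cup M U V a⁻¹ = (coc M U a * coc M V a).trace - cup M U V a := by
  rw [cup, map_inv, ← til_u (V := V), ← til_v (U := U)]; rfl

/-- A cocycle is determined by its values on the generators. -/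
theorem coc_unique {u : Fr g → Mat} (h : ∀ a b, u (a * b) = u a + ad (FreeGroup.lift M a) (u b))
    (hU : ∀ x, u (FreeGroup.of x) = U x) (w : Fr g) : coc M U w = u w := by
  have h1 : u 1 = 0 := by simpa [ad_one] using h 1 1
  induction w using FreeGroup.induction_on with
  | C1 => rw [coc_one, h1]
  | of x => rw [coc_of, hU]
  | inv_of x hx =>
    have := h (FreeGroup.of x)⁻¹ (FreeGroup.of x)
    rw [inv_mul_cancel, h1, map_inv] at this
    rw [coc_inv, hx]
    exact neg_eq_of_add_eq_zero_left this.symm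
  | mul x y hx hy => rw [coc_mul, h, hx, hy]

theorem relPre_succ (j : Fin g) : relPre g (j + 1) = relPre g j * comm g j := by
  simp [relPre, List.take_add_one]

theorem hom_rel {f : Fr g → ℝ} (h : ∀ a b, f (a * b) = f a + f b) : f (relPre g g) = 0 := by
  have h1 : f 1 = 0 := by simpa using h 1 1
  have h2 : ∀ a, f a⁻¹ = -f a := fun a => by
    have := h a a⁻¹; rw [mul_inv_cancel, h1] at this; linarith
  have : ∀ k ≤ g, f (relPre g k) = 0 := fun k hk => by
    induction k with
    | zero => simpa [relPre] using h1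
    | succ n ih =>
      rw [relPre_succ ⟨n, hk⟩, h, ih (by omega)]
      simp only [comm, h, h2]; ring
  exact this g le_rfl

/-- Any primitive of the cup product computes the form. -/
theorem omg_eq {c : Fr g → ℝ} (h : ∀ a b, c (a * b) = c a + c b +
    (coc M U a * ad (FreeGroup.lift M a) (coc M V b)).trace) : omg M U V = c (relPre g g) :=
  sub_eq_zero.1 (hom_rel (f := fun w => cup M U V w - c w) fun a b => by rw [cup_mul, h]; ring)

theorem coc_add (U U' : Gen g → Mat) (w : Fr g) : coc M (U + U') w = coc M U w + coc M U' w :=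
  coc_unique (u := fun w => coc M U w + coc M U' w)
    (fun a b => by simp only [coc_mul, ad_add]; abel) (by simp) w
theorem coc_smul (r : ℝ) (U : Gen g → Mat) (w : Fr g) : coc M (r • U) w = r • coc M U w :=
  coc_unique (u := fun w => r • coc M U w)
    (fun a b => by simp only [coc_mul, ad_smul, smul_add]) (by simp) w
@[simp] theorem coc_zero (w : Fr g) : coc M 0 w = 0 := by simpa using coc_smul (M := M) 0 0 w
theorem coc_cob (X : Mat) (w : Fr g) : coc M (cob M X) w = X - ad (FreeGroup.lift M w) X :=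
  coc_unique (u := fun w => X - ad (FreeGroup.lift M w) X)
    (fun a b => by simp only [map_mul, ad_mul, ad_sub]; abel) (by simp [cob]) w
theorem coc_trace (h : TL U) (w : Fr g) : (coc M U w).trace = 0 := by
  induction w using FreeGroup.induction_on with
  | C1 => simp
  | of x => rw [coc_of, h]
  | inv_of x hx => rw [coc_inv, Matrix.trace_neg, ad_trace, hx, neg_zero]
  | mul x y hx hy => rw [coc_mul, Matrix.trace_add, ad_trace, hx, hy, add_zero]
theorem coc_act (ψ : Fr g ≃* Fr g) (w : Fr g) :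
    coc (act ψ M) (fun x => coc M U (ψ (FreeGroup.of x))) w = coc M U (ψ w) :=
  coc_unique (u := fun w => coc M U (ψ w))
    (fun a b => by rw [map_mul, coc_mul, lift_act]) (fun _ => rfl) w
theorem lift_cj (h : G) (w : Fr g) :
    FreeGroup.lift (fun x => cj h (M x)) w = cj h (FreeGroup.lift M w) := by
  have : FreeGroup.lift (fun x => cj h (M x)) =
      (MulAut.conj h).toMonoidHom.comp (FreeGroup.lift M) := by
    ext x : 1; simp only [cj, FreeGroup.lift_apply_of, MulEquiv.toMonoidHom_eq_coe, MonoidHom.coe_comp, MonoidHom.coe_coe, Function.comp_apply, MulAut.conj_apply]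
  rw [this]; rfl
theorem ad_cj (h k : G) (Z : Mat) : ad (cj h k) (ad h Z) = ad h (ad k Z) := by
  rw [← ad_mul, ← ad_mul, cj, inv_mul_cancel_right]
theorem coc_cj (h : G) (w : Fr g) :
    coc (fun x => cj h (M x)) (fun x => ad h (U x)) w = ad h (coc M U w) :=
  coc_unique (u := fun w => ad h (coc M U w))
    (fun a b => by rw [coc_mul, lift_cj, ad_cj, ad_add]) (by simp) w
theorem ad_lift_PM {M' : Tup g} (h : ∀ x, PM (M' x) (M x)) (w : Fr g) (Z : Mat) :
    ad (FreeGroup.lift M' w) Z = ad (FreeGroup.lift M w) Z := by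
  induction w using FreeGroup.induction_on generalizing Z with
  | C1 => simp
  | of x => simpa using ad_PM (h x) Z
  | inv_of x hx =>
    rw [map_inv, map_inv, ← ad_ad_inv (FreeGroup.lift M (FreeGroup.of x)) Z, ← hx, ad_inv_ad, hx,
      ad_inv_ad]
  | mul x y hx hy => rw [map_mul, map_mul, ad_mul, ad_mul, hx, hy]
theorem coc_PM {M' : Tup g} (h : ∀ x, PM (M' x) (M x)) (w : Fr g) : coc M' U w = coc M U w :=
  coc_unique (u := coc M U) (fun a b => by rw [coc_mul, ad_lift_PM h]) (by simp) w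

theorem omg_add_left (U U' V : Gen g → Mat) : omg M (U + U') V = omg M U V + omg M U' V :=
  omg_eq (c := fun w => cup M U V w + cup M U' V w) fun a b => by
    simp only [cup_mul, coc_add, add_mul, Matrix.trace_add]; ring
theorem omg_add_right (U V V' : Gen g → Mat) : omg M U (V + V') = omg M U V + omg M U V' :=
  omg_eq (c := fun w => cup M U V w + cup M U V' w) fun a b => by
    simp only [cup_mul, coc_add, ad_add, mul_add, Matrix.trace_add]; ring
theorem omg_smul_left (r : ℝ) (U V : Gen g → Mat) : omg M (r • U) V = r * omg M U V :=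
  omg_eq (c := fun w => r * cup M U V w) fun a b => by
    simp only [cup_mul, coc_smul, smul_mul_assoc, Matrix.trace_smul, smul_eq_mul]; ring
theorem omg_smul_right (r : ℝ) (U V : Gen g → Mat) : omg M U (r • V) = r * omg M U V :=
  omg_eq (c := fun w => r * cup M U V w) fun a b => by
    simp only [cup_mul, coc_smul, ad_smul, mul_smul_comm, Matrix.trace_smul, smul_eq_mul]; ring
/-- The form as a bilinear map. -/
def omL (M : Tup g) : (Gen g → Mat) →ₗ[ℝ] (Gen g → Mat) →ₗ[ℝ] ℝ :=
  LinearMap.mk₂ ℝ (omg M) omg_add_left omg_smul_left omg_add_right omg_smul_right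
@[simp] theorem omL_apply : omL M U V = omg M U V := rfl
/-- Evaluation of a cocycle as a linear map. -/
def cocL (M : Tup g) (w : Fr g) : (Gen g → Mat) →ₗ[ℝ] Mat where
  toFun U := coc M U w
  map_add' U U' := coc_add U U' w
  map_smul' r U := coc_smul r U w

theorem omg_cob_left (X : Mat) (V : Gen g → Mat) :
    omg M (cob M X) V = (X * coc M V (relPre g g)).trace :=
  omg_eq (c := fun w => (X * coc M V w).trace) fun a b => by
    simp only [coc_mul, coc_cob, sub_mul, mul_add, Matrix.trace_add, Matrix.trace_sub, tr_ad_ad]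
    ring
theorem omg_cob_right (U : Gen g → Mat) (X : Mat) : omg M U (cob M X) =
    -(coc M U (relPre g g) * ad (FreeGroup.lift M (relPre g g)) X).trace :=
  omg_eq (c := fun w => -(coc M U w * ad (FreeGroup.lift M w) X).trace) fun a b => by
    simp only [coc_mul, coc_cob, map_mul, ad_mul, ad_sub, mul_sub, add_mul, Matrix.trace_add,
      Matrix.trace_sub, tr_ad_ad]
    ring
theorem omg_PM {M' : Tup g} (h : ∀ x, PM (M' x) (M x)) : omg M' U V = omg M U V :=
  omg_eq (c := cup M U V) fun a b => by rw [cup_mul, coc_PM h, coc_PM h, ad_lift_PM h]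
theorem omg_cj (h : G) :
    omg (fun x => cj h (M x)) (fun x => ad h (U x)) (fun x => ad h (V x)) = omg M U V :=
  omg_eq (c := cup M U V) fun a b => by
    rw [cup_mul, coc_cj, coc_cj, lift_cj, ad_cj, tr_ad_ad]

theorem coc_conj {r : Fr g} (hR : PM (FreeGroup.lift M r) 1) (t : Fr g) :
    coc M U (t * r * t⁻¹) = ad (FreeGroup.lift M t) (coc M U r) := by
  rw [coc_mul, coc_mul, coc_inv, map_mul, ad_mul, ad_PM hR, ad_one, ad_neg, ad_ad_inv]; abel
theorem cup_conj {r : Fr g} (hR : PM (FreeGroup.lift M r) 1) (hU : coc M U r = 0)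
    (hV : coc M V r = 0) (t : Fr g) : cup M U V (t * r * t⁻¹) = cup M U V r := by
  rw [cup_mul, cup_mul, cup_inv, coc_mul, coc_inv, map_mul, ad_mul, ad_PM hR, ad_one, hU, hV,
    xj_ad0, ad_neg, ad_ad_inv, mul_zero, add_zero, mul_neg, Matrix.trace_neg, Matrix.trace_zero]
  ring
/-- Naturality under automorphisms that keep the relator. -/
theorem omg_act {ψ : Fr g ≃* Fr g} (hψ : AutR ψ) (hR : PM (pre M g) 1)
    (hU : coc M U (relPre g g) = 0) (hV : coc M V (relPre g g) = 0) :
    omg (act ψ M) (fun x => coc M U (ψ (FreeGroup.of x)))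
      (fun x => coc M V (ψ (FreeGroup.of x))) = omg M U V := by
  obtain ⟨t, ht⟩ := isConj_iff.1 (IsConj.symm hψ)
  rw [omg_eq (c := fun w => cup M U V (ψ w)) fun a b => by
    rw [map_mul, cup_mul, coc_act, coc_act, lift_act], ← ht, cup_conj (pre_eq M g ▸ hR) hU hV, omg]
theorem Z1.act {ψ : Fr g ≃* Fr g} (hψ : AutR ψ) (hR : PM (pre M g) 1) (h : Z1 M U) :
    Z1 (act ψ M) fun x => coc M U (ψ (FreeGroup.of x)) := by
  obtain ⟨t, ht⟩ := isConj_iff.1 (IsConj.symm hψ)
  exact ⟨fun _ => coc_trace h.1 _, by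
    rw [coc_act, ← ht, coc_conj (pre_eq M g ▸ hR), h.2, xj_ad0]⟩
theorem Z1.cj (h : Z1 M U) (k : G) : Z1 (fun x => cj k (M x)) fun x => ad k (U x) :=
  ⟨fun x => by rw [ad_trace, h.1], by rw [coc_cj, h.2, xj_ad0]⟩
theorem Z1.PM {M' : Tup g} (h : Z1 M U) (h' : ∀ x, PM (M' x) (M x)) : Z1 M' U :=
  ⟨h.1, by rw [coc_PM h', h.2]⟩
theorem Z1.add (h : Z1 M U) (h' : Z1 M V) : Z1 M (U + V) :=
  ⟨fun x => by rw [Pi.add_apply, Matrix.trace_add, h.1, h'.1, add_zero],
    by rw [coc_add, h.2, h'.2, add_zero]⟩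
theorem Z1.smul (h : Z1 M U) (r : ℝ) : Z1 M (r • U) :=
  ⟨fun x => by rw [Pi.smul_apply, Matrix.trace_smul, h.1, smul_zero],
    by rw [coc_smul, h.2, smul_zero]⟩
theorem TL_cob (X : Mat) : TL (cob M X) := fun x => by
  rw [cob, Matrix.trace_sub, ad_trace, sub_self]
theorem Z1_cob (hR : PM (pre M g) 1) (X : Mat) : Z1 M (cob M X) :=
  ⟨TL_cob X, by rw [coc_cob, ← pre_eq, ad_PM hR, ad_one, sub_self]⟩
/-- Cocycles of the surface group vanish on the normal closure of the relator. -/
theorem coc_normal (hR : PM (pre M g) 1) (hU : coc M U (relPre g g) = 0) {w : Fr g}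
    (hw : w ∈ Subgroup.normalClosure ({relPre g g} : Set (Fr g))) :
    coc M U w = 0 ∧ ∀ Z, ad (FreeGroup.lift M w) Z = Z := by
  induction hw using Subgroup.closure_induction with
  | mem x hx =>
    obtain ⟨a, rfl, hc⟩ := Group.mem_conjugatesOfSet_iff.1 hx
    obtain ⟨t, rfl⟩ := isConj_iff.1 hc
    rw [pre_eq] at hR
    exact ⟨by rw [coc_conj hR, hU, xj_ad0], fun Z => by
      rw [map_mul, map_mul, map_inv, ad_mul, ad_mul, ad_PM hR, ad_one, ad_ad_inv]⟩
  | one => exact ⟨coc_one, fun Z => by rw [map_one, ad_one]⟩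
  | mul x y _ _ hx hy =>
    exact ⟨by rw [coc_mul, hx.1, hy.1, xj_ad0, add_zero], fun Z => by
      rw [map_mul, ad_mul, hy.2, hx.2]⟩
  | inv x _ hx =>
    exact ⟨by rw [coc_inv, hx.1, xj_ad0, neg_zero], fun Z => by
      rw [map_inv]; conv_lhs => rw [← hx.2 Z, ad_inv_ad]⟩

/-! Non-degeneracy -/

theorem van {S : Set (Gen g)} (hV : ∀ x ∈ S, V x = 0) {w : Fr g}
    (hw : w ∈ Subgroup.closure (FreeGroup.of '' S)) : coc M V w = 0 ∧ cup M U V w = 0 := by
  induction hw using Subgroup.closure_induction with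
  | mem x hx => obtain ⟨x, hx, rfl⟩ := hx; simp [hV x hx]
  | one => simp
  | mul x y _ _ hx hy => simp [coc_mul, cup_mul, hx.1, hx.2, hy.1, hy.2, xj_ad0]
  | inv x _ hx => simp [coc_inv, cup_inv, hx.1, hx.2, xj_ad0]

theorem mid_mem {S : Set (Gen g)} {i k : ℕ} (hik : i ≤ k) (hk : k ≤ g)
    (h : ∀ x : Gen g, i ≤ x.1 → (x.1 : ℕ) < k → x ∈ S) :
    (relPre g i)⁻¹ * relPre g k ∈ Subgroup.closure (FreeGroup.of '' S) := by
  induction k, hik using Nat.le_induction with
  | base => rw [inv_mul_cancel]; exact one_mem _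
  | succ n hn ih =>
    have m : ∀ b, FreeGroup.of ((⟨n, hk⟩ : Fin g), b) ∈ Subgroup.closure (FreeGroup.of '' S) :=
      fun b => Subgroup.subset_closure ⟨_, h _ hn (Nat.lt_succ_self n), rfl⟩
    rw [relPre_succ ⟨n, hk⟩, ← mul_assoc]
    exact mul_mem (ih (by omega) fun x h1 h2 => h x h1 (by omega))
      (mul_mem (mul_mem (mul_mem (m _) (m _)) (inv_mem (m _))) (inv_mem (m _)))

theorem omg_left_zero (hU : TL U) (h : ∀ V, TL V → omg M U V = 0) : U = 0 := by
  classical
  have key : ∀ k ≤ g, ∀ x : Gen g, (x.1 : ℕ) < k → U x = 0 := fun k hk => by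
    induction k with
    | zero => simp
    | succ n ih =>
      have ih := ih (by omega)
      set j : Fin g := ⟨n, hk⟩ with hj
      have h0 : relPre g 0 = 1 := by simp [relPre]
      have h1 : ∀ A B : Mat, A.trace = 0 → B.trace = 0 →
          cup M U (fun x => if x.1 = j then cond x.2 B A else 0) (comm g j) = 0 := fun A B hA hB => by
        set V : Gen g → Mat := fun x => if x.1 = j then cond x.2 B A else 0 with hV
        have h2 := h V fun x => by
          obtain ⟨i, b⟩ := x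
          by_cases hi : i = j <;> cases b <;> simp [hV, hi, hA, hB]
        have hS : ∀ x ∈ {x : Gen g | x.1 ≠ j}, V x = 0 := fun x hx => if_neg hx
        have p1 := van (M := M) (U := U) hS (mid_mem (Nat.zero_le n) (by omega) fun x _ h2 e => by
          rw [e] at h2; exact lt_irrefl _ h2)
        have p2 := van (M := M) (U := U) hS (mid_mem hk le_rfl fun x h2 _ e => by
          rw [e] at h2; exact lt_irrefl n h2)
        have p3 := van (M := M) (U := U) (S := {x : Gen g | (x.1 : ℕ) < n}) ih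
          (mid_mem (Nat.zero_le n) (by omega) fun x _ h2 => h2)
        rw [h0, inv_one, one_mul] at p1 p3
        have e : relPre g g = relPre g n * comm g j * ((relPre g (n + 1))⁻¹ * relPre g g) := by
          rw [← relPre_succ j, mul_inv_cancel_left]
        rw [omg, e, cup_mul, cup_mul, p1.2, p2.1, p2.2, p3.1, xj_ad0] at h2
        simpa using h2
      have tu : (U (j, false)).trace = 0 := hU _
      have tv : (U (j, true)).trace = 0 := hU _
      have h3 : U (j, false) + ad (M (j, false)) (U (j, true)) -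
          ad (M (j, false) * M (j, true) * (M (j, false))⁻¹) (U (j, false)) = 0 := by
        rw [← ad_eq_zero (k := (M (j, false) * M (j, true) * (M (j, false))⁻¹)⁻¹)]
        refine xj_orth (by simp only [mul_inv_rev, inv_inv, ad_trace, Matrix.trace_sub, Matrix.trace_add, tu, tv, add_zero, sub_self]) fun A hA => ?_
        have := h1 A 0 hA (Matrix.trace_zero _ _)
        simp only [comm, cup_mul, cup_inv, coc_mul, coc_inv, coc_of, cup_of, map_mul, map_inv,
          FreeGroup.lift_apply_of, if_true, cond_true, cond_false, xj_ad0, mul_zero, neg_zero,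
          Matrix.trace_zero, ad_neg, mul_neg, Matrix.trace_neg, ← ad_mul] at this
        rw [← xj_tr_ad, sub_mul, Matrix.trace_sub, tr_ad_ad]
        linarith only [this]
      have h4 : ad (M (j, false))⁻¹ (U (j, false)) + U (j, true) = 0 := by
        refine xj_orth (by simp [ad_trace, tu, tv]) fun B hB => ?_
        have := h1 0 B (Matrix.trace_zero _ _) hB
        simp only [comm, cup_mul, cup_inv, coc_mul, coc_inv, coc_of, cup_of, map_mul, map_inv,
          FreeGroup.lift_apply_of, if_true, cond_true, cond_false, xj_ad0, mul_zero, neg_zero,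
          Matrix.trace_zero, ad_neg, mul_neg, ← ad_mul, ← sub_eq_add_neg, h3,
          zero_mul] at this
        rw [add_mul, Matrix.trace_add, ← xj_tr_ad]
        linarith only [this]
      have h5 := congrArg (ad (M (j, false))) h4
      rw [ad_add, ad_ad_inv, xj_ad0] at h5
      rw [h5, zero_sub, neg_eq_zero, ad_eq_zero] at h3
      rw [h3, xj_ad0, zero_add] at h4
      rintro ⟨i, b⟩ hi
      by_cases hin : (i : ℕ) < n
      · exact ih _ hin
      obtain rfl : i = j := Fin.ext (by simp only [hj] at hi ⊢; omega)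
      cases b
      exacts [h3, h4]
  exact funext fun x => key g le_rfl x x.1.2

theorem exists_dual (f : Mat →ₗ[ℝ] ℝ) : ∃ X : Mat, X.trace = 0 ∧
    ∀ Z : Mat, Z.trace = 0 → f Z = (X * Z).trace := by
  refine ⟨!![f !![1, 0; 0, -1] / 2, f !![0, 0; 1, 0]; f !![0, 1; 0, 0], -(f !![1, 0; 0, -1] / 2)],
    by simp [Matrix.trace_fin_two], fun Z hZ => ?_⟩
  rw [Matrix.trace_fin_two] at hZ
  have e : Z = Z 0 0 • !![1, 0; 0, -1] + Z 0 1 • !![0, 1; 0, 0] + Z 1 0 • !![0, 0; 1, 0] := by
    ext i j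
    fin_cases i <;> fin_cases j <;> simp
    linarith
  have e' : Z 1 1 = -Z 0 0 := by linarith
  conv_lhs => rw [e, map_add, map_add, map_smul, map_smul, map_smul]
  rw [Matrix.trace_fin_two, xm_mul, xm_mul, e']
  simp only [Fin.isValue, smul_eq_mul, Matrix.of_apply, Matrix.cons_val', Matrix.cons_val_zero, Matrix.cons_val_fin_one, Matrix.cons_val_one, mul_neg, neg_mul, neg_neg]
  ring

/-- Traceless tuples. -/
def TLs (g : ℕ) : Submodule ℝ (Gen g → Mat) where
  carrier := {U | TL U}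
  add_mem' h h' x := by rw [Pi.add_apply, Matrix.trace_add, h, h', add_zero]
  zero_mem' _ := Matrix.trace_zero _ _
  smul_mem' r U h x := by rw [Pi.smul_apply, Matrix.trace_smul, h, smul_zero]

/-- The radical of the form consists of coboundaries. -/
theorem omg_nondeg (hU : TL U) (h : ∀ V, Z1 M V → omg M U V = 0) :
    ∃ X : Mat, X.trace = 0 ∧ U = cob M X := by
  obtain ⟨f, hf⟩ : (omL M U).domRestrict (TLs g) ∈
      LinearMap.range ((cocL M (relPre g g)).domRestrict (TLs g)).dualMap := by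
    rw [LinearMap.range_dualMap_eq_dualAnnihilator_ker, Submodule.mem_dualAnnihilator]
    exact fun V hV => h V ⟨V.2, hV⟩
  obtain ⟨X, hX, hf'⟩ := exists_dual f
  refine ⟨X, hX, sub_eq_zero.1 (omg_left_zero (M := M) (sub_mem (S := Submodule ℝ _) (H := TLs g)
    hU (TL_cob X)) fun V hV => ?_)⟩
  have h1 : f (coc M V (relPre g g)) = omg M U V := LinearMap.congr_fun hf ⟨V, hV⟩
  rw [← omL_apply, map_sub, LinearMap.sub_apply, omL_apply, omL_apply, omg_cob_left, ← h1,
    hf' _ (coc_trace hV _), sub_self]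

end

end Pool.Agent.MP_596265_gt.U

end

section

/-! No skip lemma for the half twists of a four-holed sphere. -/

namespace Pool.Agent.MP_596265_gt.U.ThW

open Filter Topology

/-! Real sequences -/

/-- Second difference. -/
def d2 (g : ℤ → ℝ) (n : ℤ) : ℝ := g (n + 1) + g (n - 1) - 2 * g n

theorem up_nat {g : ℕ → ℝ} {c : ℝ} (hc : 0 < c)
    (h : ∀ n, c ≤ g (n + 2) + g n - 2 * g (n + 1)) (B : ℝ) : ∃ n, B < g n := by
  have h1 : ∀ n : ℕ, g 1 - g 0 + n * c ≤ g (n + 1) - g n := by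
    intro n
    induction n with
    | zero => simp
    | succ k ih => have := h k; push_cast; linarith
  obtain ⟨N, hN⟩ := exists_nat_ge ((1 - (g 1 - g 0)) / c)
  rw [div_le_iff₀ hc] at hN
  have h2 : ∀ k : ℕ, g N + k ≤ g (N + k) := by
    intro k
    induction k with
    | zero => simp
    | succ j ih =>
      have := h1 (N + j)
      have h3 : (0 : ℝ) ≤ j * c := by positivity
      rw [← add_assoc]; push_cast at this ⊢; linarith only [hN, ih, h3, this]
  obtain ⟨k, hk⟩ := exists_nat_gt (B - g N)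
  exact ⟨N + k, by have := h2 k; linarith⟩

theorem up_fwd {g : ℤ → ℝ} {t : ℝ} (ht : 0 ≤ t)
    (hr : ∀ n, d2 g (n + 1) + d2 g (n - 1) - 2 * d2 g n = t * d2 g n) {m : ℤ}
    (h0 : 0 < d2 g m) (h1 : d2 g m ≤ d2 g (m + 1)) (B : ℝ) : ∃ n, B < g n := by
  have key : ∀ k : ℕ, d2 g m ≤ d2 g (m + k) ∧ d2 g (m + k) ≤ d2 g (m + k + 1) := by
    intro k
    induction k with
    | zero => simpa using h1
    | succ j ih =>
      have e := hr (m + j + 1)
      rw [add_sub_cancel_right] at e
      have : 0 ≤ t * d2 g (m + j + 1) := mul_nonneg ht (by linarith only [ih.1, ih.2, h0])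
      push_cast
      rw [← add_assoc]
      exact ⟨ih.1.trans ih.2, by linarith [ih.2]⟩
  obtain ⟨n, hn⟩ := up_nat (g := fun k : ℕ => g (m - 1 + k)) h0 (fun n => by
    have := (key n).1
    unfold d2 at this ⊢
    push_cast
    have e1 : m - 1 + (n + 2) = m + n + 1 := by ring
    have e2 : m - 1 + (n : ℤ) = m + n - 1 := by ring
    have e3 : m - 1 + (n + 1) = m + n := by ring
    rw [e1, e2, e3]; exact this) B
  exact ⟨_, hn⟩

theorem d2_neg (g : ℤ → ℝ) (n : ℤ) : d2 (fun k => g (-k)) n = d2 g (-n) := by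
  simp only [d2]
  rw [show -(n + 1) = -n - 1 by ring, show -(n - 1) = -n + 1 by ring]; ring

/-- A positive second difference makes the sequence unbounded above. -/
theorem up {g : ℤ → ℝ} {t : ℝ} (ht : 0 ≤ t)
    (hr : ∀ n, d2 g (n + 1) + d2 g (n - 1) - 2 * d2 g n = t * d2 g n) {m : ℤ}
    (h0 : 0 < d2 g m) (B : ℝ) : ∃ n, B < g n := by
  by_cases h1 : d2 g m ≤ d2 g (m + 1)
  · exact up_fwd ht hr h0 h1 B
  · have e := hr m
    have : 0 ≤ t * d2 g m := mul_nonneg ht h0.le
    obtain ⟨n, hn⟩ := up_fwd (g := fun k => g (-k)) ht (m := -m) (fun n => by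
      rw [d2_neg, d2_neg, d2_neg, show -(n + 1) = -n - 1 by ring, show -(n - 1) = -n + 1 by ring]
      linarith only [hr (-n)]) (by rw [d2_neg, neg_neg]; exact h0)
      (by rw [d2_neg, d2_neg, neg_neg, show -(-m + 1) = m - 1 by ring]; linarith) B
    exact ⟨_, hn⟩

/-- A sequence bounded below has a positive second difference unless it is constant. -/
theorem pos_d2 {g : ℤ → ℝ} {t B : ℝ} (ht : 0 ≤ t)
    (hr : ∀ n, d2 g (n + 1) + d2 g (n - 1) - 2 * d2 g n = t * d2 g n) (hb : ∀ n, B ≤ g n)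
    (hne : d2 g 0 = 0 → g 1 ≠ g (-1)) : 0 < d2 g 0 := by
  have hd : ∀ n, d2 (fun k => -g k) n = -d2 g n := fun n => by unfold d2; ring
  have h0 : ∀ n, 0 ≤ d2 g n := fun n => by
    by_contra hn
    obtain ⟨k, hk⟩ := up (g := fun k => -g k) ht (fun n => by
      rw [hd, hd, hd]; linarith [hr n]) (m := n) (by rw [hd]; linarith) (-B)
    linarith [hb k]
  refine (h0 0).lt_of_ne' fun h => hne h ?_
  have z : ∀ k : ℕ, (d2 g k = 0 ∧ d2 g (k + 1) = 0) ∧ d2 g (-k) = 0 ∧ d2 g (-k - 1) = 0 := by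
    intro k
    induction k with
    | zero =>
      have e := hr 0
      have a := h0 (0 + 1)
      have b := h0 (0 - 1)
      rw [h] at e
      simp only [Nat.cast_zero, neg_zero]
      exact ⟨⟨h, by linarith⟩, h, by linarith⟩
    | succ j ih =>
      have e := hr (j + 1)
      have e' := hr (-j - 1)
      rw [add_sub_cancel_right, ih.1.1, ih.1.2] at e
      rw [sub_add_cancel, ih.2.1, ih.2.2] at e'
      push_cast
      rw [show -((j : ℤ) + 1) = -j - 1 by ring]
      exact ⟨⟨ih.1.2, by linarith only [e]⟩, ih.2.2, by linarith only [e']⟩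
  have a1 : ∀ k : ℕ, g (k + 1) - g k = g 1 - g 0 ∧ g k = g 0 + k * (g 1 - g 0) := by
    intro k
    induction k with
    | zero => simp
    | succ j ih =>
      have := (z j).1.2
      unfold d2 at this
      rw [add_sub_cancel_right] at this
      push_cast
      constructor <;> linarith only [ih.1, ih.2, this]
  have h' : g 1 + g (-1) - 2 * g 0 = 0 := by simpa [d2] using h
  have a2 : ∀ k : ℕ, g (-k - 1) - g (-k) = g 0 - g 1 ∧ g (-k) = g 0 - k * (g 1 - g 0) := by
    intro k
    induction k with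
    | zero => simp; linarith
    | succ j ih =>
      have := (z j).2.2
      unfold d2 at this
      rw [sub_add_cancel] at this
      push_cast
      rw [show -((j : ℤ) + 1) = -j - 1 by ring]
      constructor <;> linarith only [ih.1, ih.2, this]
  rcases lt_trichotomy (g 1 - g 0) 0 with hlt | heq | hgt
  · obtain ⟨k, hk⟩ := exists_nat_gt ((g 0 - B) / -(g 1 - g 0))
    rw [div_lt_iff₀ (by linarith only [hlt])] at hk
    linarith [hb k, (a1 k).2]
  · linarith
  · obtain ⟨k, hk⟩ := exists_nat_gt ((g 0 - B) / (g 1 - g 0))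
    rw [div_lt_iff₀ hgt] at hk
    linarith [hb (-k), (a2 k).2]

/-- No sign change when consecutive products stay above `-4`. -/
theorem sign_const {g : ℤ → ℝ} (h2 : ∀ n, 2 ≤ |g n|) (hp : ∀ n, -4 < g n * g (n + 1)) :
    (∀ n, 2 ≤ g n) ∨ ∀ n, g n ≤ -2 := by
  have s : ∀ n, 2 ≤ g n ↔ 2 ≤ g (n + 1) := fun n => by
    have a := le_abs'.1 (h2 n)
    have b := le_abs'.1 (h2 (n + 1))
    have c := hp n
    constructor <;> intro h
    · exact b.resolve_left fun h' => by nlinarith only [c, h, h']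
    · exact a.resolve_left fun h' => by nlinarith only [c, h, h']
  have s0 : ∀ n : ℤ, 2 ≤ g n ↔ 2 ≤ g 0 := fun n => by
    induction n using Int.induction_on with
    | zero => rfl
    | succ k ih => rw [← s, ih]
    | pred k ih => rw [s, sub_add_cancel, ih]
  by_cases h : 2 ≤ g 0
  · exact Or.inl fun n => (s0 n).2 h
  · exact Or.inr fun n => (le_abs'.1 (h2 n)).resolve_right fun h' => h ((s0 n).1 h')

/-- The two interleaved families. -/
theorem seq_main {f g : ℤ → ℝ} {x p r : ℝ} (hx : 2 ≤ x)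
    (e1 : ∀ n, g (n + 1) + g n = p - x * f n) (e2 : ∀ n, f (n - 1) + f n = r - x * g n)
    (hf : ∀ n, 2 ≤ |f n|) (hg : ∀ n, 2 ≤ |g n|) (pf : ∀ n, -4 < f n * f (n + 1))
    (pg : ∀ n, -4 < g n * g (n + 1)) (hne : d2 g 0 = 0 → g 1 ≠ g (-1)) :
    g 0 * f 0 < 0 ∧ 0 < g 0 * d2 g 0 := by
  have ht : 0 ≤ x ^ 2 - 4 := by nlinarith only [hx]
  have hd : ∀ n, d2 g n = 2 * p - x * r + (x ^ 2 - 4) * g n := fun n => by
    have a := e1 n
    have b := e1 (n - 1)
    rw [sub_add_cancel] at b
    unfold d2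
    linear_combination a + b - x * e2 n
  have hr : ∀ n, d2 g (n + 1) + d2 g (n - 1) - 2 * d2 g n = (x ^ 2 - 4) * d2 g n := fun n => by
    rw [hd (n + 1), hd (n - 1)]
    nth_rewrite 1 [hd n]
    unfold d2; ring
  have hd' : ∀ n, d2 (fun k => -g k) n = -d2 g n := fun n => by unfold d2; ring
  have hr' : ∀ n, d2 (fun k => -g k) (n + 1) + d2 (fun k => -g k) (n - 1) -
      2 * d2 (fun k => -g k) n = (x ^ 2 - 4) * d2 (fun k => -g k) n := fun n => by
    rw [hd', hd', hd']; linarith [hr n]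
  rcases sign_const hg pg with G | G
  · have P := pos_d2 ht hr G hne
    refine ⟨?_, mul_pos (by linarith [G 0]) P⟩
    rcases sign_const hf pf with F | F
    · obtain ⟨n, hn⟩ := up ht hr P p
      nlinarith only [e1 n, G (n + 1), F n, hx, hn]
    · nlinarith only [G 0, F 0]
  · have P := pos_d2 (g := fun k => -g k) (B := 2) ht hr' (fun n => by linarith [G n])
      (fun h => by rw [hd', neg_eq_zero] at h; exact fun h' => hne h (neg_inj.1 h'))
    refine ⟨?_, by rw [hd'] at P; nlinarith only [G 0, P]⟩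
    rcases sign_const hf pf with F | F
    · nlinarith only [G 0, F 0]
    · obtain ⟨n, hn⟩ := up ht hr' P (-p)
      nlinarith only [e1 n, G (n + 1), F n, hx, hn]

/-! Trace identities -/

theorem dt (A : G) : A 0 0 * A 1 1 - A 0 1 * A 1 0 = 1 := by
  have := A.det_coe; rwa [Matrix.det_fin_two] at this

theorem tr_mm (A B : G) :
    tr (A * B) = A 0 0 * B 0 0 + A 0 1 * B 1 0 + (A 1 0 * B 0 1 + A 1 1 * B 1 1) := by
  simp only [tr, Fin.isValue, Matrix.SpecialLinearGroup.coe_mul, Matrix.mul_apply, Fin.sum_univ_two]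

theorem tr_mi (U V : G) : tr (U * V⁻¹) = tr U * tr V - tr (U * V) := by
  rw [tr_mm, tr_mm]
  simp only [Fin.isValue, Matrix.SpecialLinearGroup.coe_inv, Matrix.adjugate_fin_two, Matrix.of_apply, Matrix.cons_val', Matrix.cons_val_zero, Matrix.cons_val_fin_one, Matrix.cons_val_one, mul_neg, tr]; ring

theorem id1 (A B C : G) : tr (A * (A * B * C * (A * B)⁻¹)) + tr (A * C) =
    tr A * tr C + tr B * tr (A * B * C) - tr (A * B) * tr (B * C) := by
  have h1 : tr (A * (A * B * C * (A * B)⁻¹)) = tr (A * B * C * B⁻¹) := by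
    rw [← tr_conj (A * B * C * B⁻¹) A]; congr 1; group
  have h2 := tr_mi (A * B) (C * B)
  have h3 : A * B * (C * B)⁻¹ = A * C⁻¹ := by group
  rw [h3, tr_mi, ← mul_assoc, tr_mul_comm C B] at h2
  rw [h1, tr_mi]; linarith only [h2]

theorem id2 (A B C : G) : tr (B * ((A * B)⁻¹ * C * (A * B))) + tr (B * C) =
    tr A * tr (A * B * C) + tr B * tr C - tr (A * B) * tr (A * C) := by
  have h1 : tr (B * ((A * B)⁻¹ * C * (A * B))) = tr (C * A * B * A⁻¹) := by
    rw [← tr_conj (B * ((A * B)⁻¹ * C * (A * B))) (A * B), tr_mul_comm (C * A * B)]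
    rw [← tr_conj (A⁻¹ * (C * A * B)) (A * B)]; congr 1; group
  have h2 := tr_mi (C * A) (B * A)
  have h3 : tr (C * A * (B * A)⁻¹) = tr (C * B⁻¹) := by congr 1; group
  have h4 : tr (C * A * B) = tr (A * B * C) := by rw [mul_assoc, tr_mul_comm]
  rw [h3, tr_mi, ← mul_assoc, tr_mul_comm C B, tr_mul_comm C A, tr_mul_comm B A] at h2
  rw [h1, tr_mi, h4]; linarith only [h2]

theorem mm (U V : G) (i j : Fin 2) : (U * V) i j = U i 0 * V 0 j + U i 1 * V 1 j := by
  simp only [Matrix.SpecialLinearGroup.coe_mul, Matrix.mul_apply, Fin.sum_univ_two, Fin.isValue]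

/-- The Fricke relation. -/
theorem fricke (A B C : G) :
    tr (A * B) ^ 2 + tr (B * C) ^ 2 + tr (A * C) ^ 2 + tr (A * B) * tr (B * C) * tr (A * C) =
      (tr A * tr B + tr C * tr (A * B * C)) * tr (A * B) +
      (tr A * tr (A * B * C) + tr B * tr C) * tr (B * C) +
      (tr A * tr C + tr B * tr (A * B * C)) * tr (A * C) + 4 - tr A ^ 2 - tr B ^ 2 - tr C ^ 2 -
      tr (A * B * C) ^ 2 - tr A * tr B * tr C * tr (A * B * C) := by
  have H : ∀ α β γ : ℝ, α = A 0 0 * A 1 1 - A 0 1 * A 1 0 → β = B 0 0 * B 1 1 - B 0 1 * B 1 0 →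
      γ = C 0 0 * C 1 1 - C 0 1 * C 1 0 →
      tr (A * B * C) ^ 2 - (tr A * tr (B * C) + tr B * tr (A * C) + tr C * tr (A * B) -
        tr A * tr B * tr C) * tr (A * B * C) + (tr A ^ 2 * β * γ + tr B ^ 2 * α * γ +
        tr C ^ 2 * α * β + tr (A * B) ^ 2 * γ + tr (B * C) ^ 2 * α + tr (A * C) ^ 2 * β -
        tr A * tr B * tr (A * B) * γ - tr B * tr C * tr (B * C) * α -
        tr A * tr C * tr (A * C) * β + tr (A * B) * tr (B * C) * tr (A * C) - 4 * α * β * γ) = 0 := by
    rintro _ _ _ rfl rfl rfl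
    simp only [tr, mm]; ring
  linear_combination H 1 1 1 (dt A).symm (dt B).symm (dt C).symm

theorem inv_ent (A : G) : A⁻¹ 0 0 = A 1 1 ∧ A⁻¹ 0 1 = -A 0 1 ∧ A⁻¹ 1 0 = -A 1 0 ∧ A⁻¹ 1 1 = A 0 0 := by
  simp only [Fin.isValue, Matrix.SpecialLinearGroup.coe_inv, Matrix.adjugate_fin_two, Matrix.of_apply, Matrix.cons_val', Matrix.cons_val_zero, Matrix.cons_val_fin_one, Matrix.cons_val_one, and_self]

theorem kap_eq (X A : G) : kap X A - 2 =
    (X 0 1 * A 1 0 - X 1 0 * A 0 1) ^ 2 - ((X 0 0 - X 1 1) * A 0 1 - X 0 1 * (A 0 0 - A 1 1)) *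
      (X 1 0 * (A 0 0 - A 1 1) - (X 0 0 - X 1 1) * A 1 0) * (-1) := by
  obtain ⟨a, b, c, d⟩ := inv_ent A
  obtain ⟨a', b', c', d'⟩ := inv_ent X
  simp only [kap, tr, mm, a, b, c, d, a', b', c', d']
  linear_combination 2 * (A 0 0 * A 1 1 - A 0 1 * A 1 0) * dt X + 2 * dt A

theorem disc (X A C : G) :
    tr X ^ 2 * (tr (A * (X * C * X⁻¹)) + tr (A * (X⁻¹ * C * X)) - 2 * tr (A * C)) ^ 2 -
      (tr X ^ 2 - 4) * (tr (A * (X * C * X⁻¹)) - tr (A * (X⁻¹ * C * X))) ^ 2 =
      4 * tr X ^ 2 * ((kap X A - 2) * (kap X C - 2)) := by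
  obtain ⟨a', b', c', d'⟩ := inv_ent X
  have H : ∀ α : ℝ, α = X 0 0 * X 1 1 - X 0 1 * X 1 0 →
      tr X ^ 2 * (tr (A * (X * C * X⁻¹)) + tr (A * (X⁻¹ * C * X)) - 2 * α * tr (A * C)) ^ 2 -
      (tr X ^ 2 - 4 * α) * (tr (A * (X * C * X⁻¹)) - tr (A * (X⁻¹ * C * X))) ^ 2 =
      4 * tr X ^ 2 * ((kap X A - 2) * (kap X C - 2)) := by
    rintro _ rfl
    rw [kap_eq, kap_eq]
    simp only [tr, mm, a', b', c', d']; ring
  linear_combination H 1 (dt X).symm

/-! The no skip lemma -/

/-- `C` twisted `n` times around `X`. -/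
def cn (X C : G) (n : ℤ) : G := X ^ n * C * X ^ (-n)

theorem cn_zero (X C : G) : cn X C 0 = C := by simp [cn]
theorem cn_succ (X C : G) (n : ℤ) : cn X C (n + 1) = X * cn X C n * X⁻¹ := by
  unfold cn; group
theorem cn_pred (X C : G) (n : ℤ) : cn X C (n - 1) = X⁻¹ * cn X C n * X := by
  unfold cn; group
theorem tr_cn (X C : G) (n : ℤ) : tr (cn X C n) = tr C := by
  unfold cn; rw [zpow_neg, tr_conj]
theorem tr_mul_cn (X C : G) (n : ℤ) : tr (X * cn X C n) = tr (X * C) := by
  rw [← tr_conj (X * C) (X ^ n)]; unfold cn; congr 1; group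
theorem cn_neg (X C : G) (n : ℤ) : cn (-X) C n = cn X C n := by
  induction n using Int.induction_on with
  | zero => rw [cn_zero, cn_zero]
  | succ k ih => rw [cn_succ, cn_succ, ih]; simp
  | pred k ih => rw [cn_pred, cn_pred, ih]; simp only [inv_neg, neg_mul, mul_neg, neg_neg]

/-- Lower bound for the product of two consecutive traces. -/
noncomputable def KK (a b c d x : ℝ) : ℝ :=
  x ^ 2 - (a * b + c * d) * x - 4 + a ^ 2 + b ^ 2 + c ^ 2 + d ^ 2 + a * b * c * d -
    (a * d + b * c) ^ 2 / 4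

/-- The curves of the four-holed sphere with boundary `A, B, C, (A B C)⁻¹` obtained by half
twists around `A B` are not elliptic, and the two pairs of pants are irreducible. -/
structure Four (A B C : G) : Prop where
  x : 2 ≤ |tr (A * B)|
  f : ∀ n, 2 ≤ |tr (B * cn (A * B) C n)|
  g : ∀ n, 2 ≤ |tr (A * cn (A * B) C n)|
  kA : kap (A * B) A ≠ 2
  kC : kap (A * B) C ≠ 2

/-- The second difference of the family of `A`. -/
def ee (A X C : G) : ℝ := tr (A * (X * C * X⁻¹)) + tr (A * (X⁻¹ * C * X)) - 2 * tr (A * C)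

theorem W {A B C : G} (h : Four A B C) (hx : 0 < tr (A * B))
    (hK : -4 < KK (tr A) (tr B) (tr C) (tr (A * B * C)) (tr (A * B)))
    (hK' : -4 < KK (tr B) (tr A) (tr C) (tr (A * B * C)) (tr (A * B))) :
    tr (A * C) * tr (B * C) < 0 ∧ 0 < tr (A * C) * ee A (A * B) C := by
  have hx2 : 2 ≤ tr (A * B) := by have := h.x; rwa [abs_of_pos hx] at this
  have e1 : ∀ n, tr (A * cn (A * B) C (n + 1)) + tr (A * cn (A * B) C n) =
      (tr A * tr C + tr B * tr (A * B * C)) - tr (A * B) * tr (B * cn (A * B) C n) := fun n => by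
    rw [cn_succ, id1, tr_cn, tr_mul_cn]
  have e2 : ∀ n, tr (B * cn (A * B) C (n - 1)) + tr (B * cn (A * B) C n) =
      (tr A * tr (A * B * C) + tr B * tr C) - tr (A * B) * tr (A * cn (A * B) C n) := fun n => by
    rw [cn_pred, id2, tr_cn, tr_mul_cn]
  have fr := fun n => fricke A B (cn (A * B) C n)
  simp only [tr_cn, tr_mul_cn] at fr
  have d0 : d2 (fun n => tr (A * cn (A * B) C n)) 0 = ee A (A * B) C := by
    simp only [d2, ee, cn_succ, cn_pred, cn_zero]
  have := seq_main (f := fun n => tr (B * cn (A * B) C n)) (g := fun n => tr (A * cn (A * B) C n))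
    hx2 e1 e2 h.f h.g (fun n => ?_) (fun n => ?_) (fun h0 h1 => ?_)
  · rw [d0] at this
    simpa only [cn_zero] using this
  · have a := e2 (n + 1)
    have b := fr (n + 1)
    rw [add_sub_cancel_right] at a
    unfold KK at hK'
    rw [eq_sub_of_add_eq a]
    nlinarith [sq_nonneg (tr (A * cn (A * B) C (n + 1)) - (tr A * tr C + tr B * tr (A * B * C)) / 2)]
  · have a := e1 n
    have b := fr n
    unfold KK at hK
    rw [eq_sub_of_add_eq a]
    nlinarith [sq_nonneg (tr (B * cn (A * B) C n) - (tr A * tr (A * B * C) + tr B * tr C) / 2)]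
  · rw [d0] at h0
    have a := cn_succ (A * B) C 0
    have b := cn_pred (A * B) C 0
    rw [zero_add, cn_zero] at a
    rw [zero_sub, cn_zero] at b
    have D := disc (A * B) A C
    unfold ee at h0
    simp only [a, b] at h1
    rw [h0, h1, sub_self] at D
    have : (kap (A * B) A - 2) * (kap (A * B) C - 2) ≠ 0 :=
      mul_ne_zero (sub_ne_zero.2 h.kA) (sub_ne_zero.2 h.kC)
    have : 4 * tr (A * B) ^ 2 * ((kap (A * B) A - 2) * (kap (A * B) C - 2)) ≠ 0 := by positivity
    exact this (by linarith only [D])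

theorem Four.neg {A B C : G} (h : Four A B C) : Four (-A) B C := by
  have k : ∀ U V : G, kap (-U) V = kap U V ∧ kap U (-V) = kap U V := fun U V => by simp only [kap, neg_mul, inv_neg, mul_neg, neg_neg, and_self]
  refine ⟨?_, fun n => ?_, fun n => ?_, ?_, ?_⟩
  · rw [neg_mul, tr_neg, abs_neg]; exact h.x
  · rw [neg_mul, cn_neg]; exact h.f n
  · rw [neg_mul, neg_mul, cn_neg, tr_neg, abs_neg]; exact h.g n
  · rw [neg_mul, (k _ _).1, (k _ _).2]; exact h.kA
  · rw [neg_mul, (k _ _).1]; exact h.kC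

theorem ee_neg (A X C : G) : ee (-A) (-X) C = -ee A X C := by
  simp only [ee, neg_mul, inv_neg, mul_neg, neg_neg, tr_neg, sub_neg_eq_add, neg_sub]; ring

theorem cont_tr : Continuous tr := by unfold tr; fun_prop

variable {ι : Type*} {l : Filter ι}

/-- Trace form: only the five traces have to converge. -/
theorem W_tr {A B C : ι → G} {a b : ℝ} (h : ∀ᶠ k in l, Four (A k) (B k) (C k))
    (ha : Tendsto (fun k => tr (A k)) l (𝓝 a)) (hb : Tendsto (fun k => tr (B k)) l (𝓝 b))
    (hc : Tendsto (fun k => tr (C k)) l (𝓝 2)) (hd : Tendsto (fun k => tr (A k * B k * C k)) l (𝓝 2))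
    (hx : Tendsto (fun k => tr (A k * B k)) l (𝓝 2)) :
    ∀ᶠ k in l, tr (A k * C k) * tr (B k * C k) < 0 ∧
      0 < tr (A k * C k) * ee (A k) (A k * B k) (C k) := by
  have K : ∀ {u v : ι → ℝ} {a b : ℝ}, Tendsto u l (𝓝 a) → Tendsto v l (𝓝 b) → ∀ᶠ k in l,
      -4 < KK (u k) (v k) (tr (C k)) (tr (A k * B k * C k)) (tr (A k * B k)) := by
    intro u v a b hu hv
    have c : Continuous fun p : ℝ × ℝ × ℝ × ℝ × ℝ => KK p.1 p.2.1 p.2.2.1 p.2.2.2.1 p.2.2.2.2 := by
      unfold KK; fun_prop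
    have t := (c.tendsto (a, b, 2, 2, 2)).comp
      (hu.prodMk_nhds (hv.prodMk_nhds (hc.prodMk_nhds (hd.prodMk_nhds hx))))
    exact t.eventually (lt_mem_nhds (by unfold KK; linarith only []))
  filter_upwards [h, K ha hb, K hb ha, hx.eventually (lt_mem_nhds two_pos)] with k h1 h2 h3 h4
  exact W h1 h4 h2 h3

theorem W_lim {A B C : ι → G} {A₀ B₀ : G} (h : ∀ᶠ k in l, Four (A k) (B k) (C k))
    (hA : Tendsto A l (𝓝 A₀)) (hB : Tendsto B l (𝓝 B₀)) (hC : Tendsto C l (𝓝 1))
    (hx : |tr (A₀ * B₀)| = 2) :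
    ∀ᶠ k in l, tr (A k * C k) * tr (B k * C k) * tr (A₀ * B₀) < 0 ∧
      0 < tr (A k * C k) * ee (A k) (A k * B k) (C k) := by
  have T : ∀ {U : ι → G} {U₀ : G}, Tendsto U l (𝓝 U₀) → Tendsto (fun k => tr (U k)) l (𝓝 (tr U₀)) :=
    fun hU => (cont_tr.tendsto _).comp hU
  have c := T hC
  have d := T ((hA.mul hB).mul hC)
  have x := T (hA.mul hB)
  rw [tr_one] at c
  rw [mul_one] at d
  rcases (abs_eq zero_le_two).1 hx with e | e
  · rw [e] at d x ⊢
    filter_upwards [W_tr h (T hA) (T hB) c d x] with k hk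
    exact ⟨by linarith [hk.1], hk.2⟩
  · rw [e] at d x ⊢
    have := W_tr (A := fun k => -A k) (a := -tr A₀) (h.mono fun k hk => hk.neg)
      (by simpa only [tr_neg] using (T hA).neg) (T hB) c
      (by simpa only [neg_mul, tr_neg, neg_neg] using d.neg)
      (by simpa only [neg_mul, tr_neg, neg_neg] using x.neg)
    filter_upwards [this] with k hk
    simp only [neg_mul, tr_neg, ee_neg, mul_neg, neg_neg] at hk
    exact ⟨by linarith only [hk.1], hk.2⟩

/-- Lemma F: the limit pair of pants `A₀, B₀` is not flat. -/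
theorem F_lim [l.NeBot] {A B C : ι → G} {A₀ B₀ : G} (h : ∀ᶠ k in l, Four (A k) (B k) (C k))
    (hA : Tendsto A l (𝓝 A₀)) (hB : Tendsto B l (𝓝 B₀)) (hC : Tendsto C l (𝓝 1))
    (hx : |tr (A₀ * B₀)| = 2) :
    2 ≤ |tr A₀| ∧ 2 ≤ |tr B₀| ∧ tr A₀ * tr B₀ * tr (A₀ * B₀) < 0 := by
  have a := (cont_tr.tendsto _).comp (hA.mul hC)
  have b := (cont_tr.tendsto _).comp (hB.mul hC)
  rw [mul_one] at a b
  have a2 : 2 ≤ |tr A₀| := ge_of_tendsto a.abs (h.mono fun k hk => by
    simpa only [cn_zero, Function.comp] using hk.g 0)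
  have b2 : 2 ≤ |tr B₀| := ge_of_tendsto b.abs (h.mono fun k hk => by
    simpa only [cn_zero, Function.comp] using hk.f 0)
  refine ⟨a2, b2, lt_of_le_of_ne (le_of_tendsto ((a.mul b).mul_const _)
    ((W_lim h hA hB hC hx).mono fun k hk => hk.1.le)) ?_⟩
  refine mul_ne_zero (mul_ne_zero ?_ ?_) ?_ <;> intro e
  · rw [e, abs_zero] at a2; linarith
  · rw [e, abs_zero] at b2; linarith
  · rw [e, abs_zero] at hx; linarith

end Pool.Agent.MP_596265_gt.U.ThW

end
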