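import Pool.Agent.MP_596265_gt.E4
import Pool.Agent.MP_596265_gt.W.A0
import Pool.Agent.MP_596265_gt.W.Ec
import Pool.Agent.MP_596265_gt.W.P0

section

/-! Slices for the conjugation action on the representation space. -/

namespace Pool.Agent.MP_596265_gt.U

open Filter Topology MeasureTheory Set Metric Erg
open scoped ContDiff

noncomputable section

variable {g : ℕ} {n : WithTop ℕ∞}

theorem sc_mul {E : Type*} [NormedAddCommGroup E] [NormedSpace ℝ E] {c d : E → Mat}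
    (hc : ∀ i j, ContDiff ℝ n fun m => c m i j) (hd : ∀ i j, ContDiff ℝ n fun m => d m i j)
    (i j : Fin 2) : ContDiff ℝ n fun m => (c m * d m) i j := by
  simp only [Matrix.mul_apply, Fin.sum_univ_two]
  exact ((hc i 0).mul (hd 0 j)).add ((hc i 1).mul (hd 1 j))
theorem sc_of (x : Gen g) (i j : Fin 2) : ContDiff ℝ n fun m : Amb g => Matrix.of (m x) i j := by
  simp only [Matrix.of_apply]; fun_prop
theorem sc_adj {E : Type*} [NormedAddCommGroup E] [NormedSpace ℝ E] {c : E → Mat}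
    (hc : ∀ i j, ContDiff ℝ n fun m => c m i j) (i j : Fin 2) :
    ContDiff ℝ n fun m => (c m).adjugate i j := by
  simp only [Matrix.adjugate_fin_two]
  fin_cases i <;> fin_cases j
  exacts [hc 1 1, (hc 0 1).neg, (hc 1 0).neg, hc 0 0]
theorem sc_preE (k : ℕ) (i j : Fin 2) : ContDiff ℝ n fun m : Amb g => preE m k i j := by
  unfold preE
  induction (List.finRange g).take k generalizing i j with
  | nil => exact contDiff_const
  | cons a l ih =>
    simp only [List.map_cons, List.prod_cons]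
    exact sc_mul (sc_mul (sc_mul (sc_mul (sc_of _) (sc_of _)) (sc_adj (sc_of _)))
      (sc_adj (sc_of _))) ih i j
theorem sc_fE : ContDiff ℝ n (fE : Amb g → _) := by
  refine (contDiff_pi.2 fun x => ?_).prodMk (((sc_preE g 0 0).sub (sc_preE g 1 1)).prodMk
    ((sc_preE g 0 1).prodMk (sc_preE g 1 0)))
  simp only [Matrix.det_fin_two]
  exact ((sc_of x 0 0).mul (sc_of x 1 1)).sub ((sc_of x 0 1).mul (sc_of x 1 0))

/-- Coordinates on the big cell of SL(2,R). -/
def kp (p : ℝ × ℝ × ℝ) : G :=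
  ⟨!![Real.exp p.1, Real.exp p.1 * p.2.1; Real.exp p.1 * p.2.2,
      Real.exp p.1 * p.2.1 * p.2.2 + Real.exp (-p.1)], by
    rw [Matrix.det_fin_two_of, Real.exp_neg]
    field_simp
    ring⟩
/-- The inverse coordinates. -/
def ki (k : G) : ℝ × ℝ × ℝ := (Real.log (k 0 0), k 0 1 / k 0 0, k 1 0 / k 0 0)

theorem kp_zero : kp 0 = 1 := by
  apply basic_ext <;> simp only [kp, Prod.fst_zero, Real.exp_zero, Prod.snd_zero, mul_zero, neg_zero, zero_add, Fin.isValue, Matrix.of_apply, Matrix.cons_val', Matrix.cons_val_zero, Matrix.cons_val_fin_one, Matrix.SpecialLinearGroup.coe_one, Matrix.one_apply_eq, Matrix.cons_val_one, ne_eq, zero_ne_one, not_false_eq_true, Matrix.one_apply_ne, one_ne_zero]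
theorem ki_kp (p : ℝ × ℝ × ℝ) : ki (kp p) = p := by
  have := (Real.exp_pos p.1).ne'
  ext <;> simp only [ki, kp, Fin.isValue, Matrix.of_apply, Matrix.cons_val', Matrix.cons_val_zero, Matrix.cons_val_fin_one, Real.log_exp, Matrix.cons_val_one, ne_eq, this, not_false_eq_true, mul_div_cancel_left₀, Prod.mk.eta]
theorem kp_pos (p : ℝ × ℝ × ℝ) : 0 < kp p 0 0 := by simpa [kp] using Real.exp_pos p.1
theorem kp_ki {k : G} (h : 0 < k 0 0) : kp (ki k) = k := by
  have hd := basic_det k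
  apply basic_ext <;> simp only [kp, ki, Fin.isValue, Real.exp_log h, Real.exp_neg, Matrix.of_apply, Matrix.cons_val', Matrix.cons_val_zero, Matrix.cons_val_fin_one, Matrix.cons_val_one] <;> field_simp
  linear_combination -hd
theorem sc_kp (i j : Fin 2) : ContDiff ℝ n fun p => (kp p : Mat) i j := by
  fin_cases i <;> fin_cases j <;> simp [kp] <;> fun_prop
theorem continuous_kp : Continuous kp :=
  continuous_induced_rng.2 (continuous_matrix fun i j => (sc_kp (n := 0) i j).continuous)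
theorem isOpen_kp {B : Set (ℝ × ℝ × ℝ)} (hB : IsOpen B) : IsOpen (kp '' B) := by
  have hc : ∀ i j, Continuous fun k : G => k i j := fun i j =>
    (continuous_apply_apply i j).comp continuous_subtype_val
  have h1 : ContinuousOn ki {k | 0 < k 0 0} :=
    ((hc 0 0).continuousOn.log fun _ h => h.out.ne').prodMk
      (((hc 0 1).continuousOn.div (hc 0 0).continuousOn fun _ h => h.out.ne').prodMk
        ((hc 1 0).continuousOn.div (hc 0 0).continuousOn fun _ h => h.out.ne'))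
  convert h1.isOpen_inter_preimage (isOpen_lt continuous_const (hc 0 0)) hB using 1
  ext k
  exact ⟨fun ⟨p, hp, e⟩ => e ▸ ⟨kp_pos p, by rwa [mem_preimage, ki_kp]⟩,
    fun h => ⟨_, h.2, kp_ki h.1⟩⟩

/-- Conjugation of a tuple. -/
def cjT (k : G) (M : Tup g) : Tup g := fun x => cj k (M x)
/-- Conjugation on the ambient space. -/
def cjE (k : G) (m : Amb g) : Amb g := fun x => ad k (Matrix.of (m x))

theorem cjE_io (k : G) (M : Tup g) : cjE k (io M) = io (cjT k M) := by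
  funext x
  rfl
theorem cjE_one (m : Amb g) : cjE 1 m = m := funext fun _ => ad_one _
theorem cjE_mul (k l : G) (m : Amb g) : cjE (k * l) m = cjE k (cjE l m) :=
  funext fun _ => ad_mul _ _ _
theorem cjT_pm (k : G) {M : Tup g} (h : PM (pre M g) 1) : PM (pre (cjT k M) g) 1 := by
  have e : pre (cjT k M) g = MulAut.conj k (pre M g) := pre_map (MulAut.conj k).toMonoidHom M g
  rw [e]
  rcases h with h | h <;> rw [h]
  · exact .inl (map_one _)
  · exact .inr (by simp)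
theorem cjE_fE (k : G) {m : Amb g} (h : fE m = (fun _ => 1, 0, 0, 0)) :
    fE (cjE k m) = (fun _ => 1, 0, 0, 0) := by
  obtain ⟨N, rfl, hN⟩ := fE_eq h
  rw [cjE_io, fE_io (cjT_pm k hN)]
theorem sc_cjE : ContDiff ℝ n fun q : (ℝ × ℝ × ℝ) × Amb g => cjE (kp q.1) q.2 := by
  refine contDiff_pi.2 fun x => contDiff_pi.2 fun i => contDiff_pi.2 fun j => ?_
  have h1 := fun i j => (sc_kp (n := n) i j).comp (contDiff_fst (F := Amb g))
  exact sc_mul (sc_mul h1 fun i j => (sc_of x i j).comp contDiff_snd) (sc_adj h1) i j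

/-- The traceless matrix with coordinates `p`. -/
def zm (p : ℝ × ℝ × ℝ) : Mat := !![p.1, p.2.1; p.2.2, -p.1]

theorem kp_deriv (p : ℝ × ℝ × ℝ) (i j : Fin 2) :
    HasDerivAt (fun t : ℝ => (kp (t • p) : Mat) i j) (zm p i j) 0 := by
  have h1 : ∀ a : ℝ, HasDerivAt (fun t : ℝ => t * a) a 0 := fun a => by
    simpa using (hasDerivAt_id (0 : ℝ)).mul_const a
  fin_cases i <;> fin_cases j
  · simpa [kp, zm] using (h1 p.1).exp
  · simpa [kp, zm] using (h1 p.1).exp.fun_mul (h1 p.2.1)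
  · simpa [kp, zm] using (h1 p.1).exp.fun_mul (h1 p.2.2)
  · simpa [kp, zm] using (((h1 p.1).exp.fun_mul (h1 p.2.1)).fun_mul (h1 p.2.2)).fun_add
      (h1 p.1).fun_neg.exp
theorem cjE_deriv (m : Amb g) (p : ℝ × ℝ × ℝ) :
    fderiv ℝ (fun q : (ℝ × ℝ × ℝ) × Amb g => cjE (kp q.1) q.2) (0, m) (p, 0) =
      fun x i j => (zm p * Matrix.of (m x) - Matrix.of (m x) * zm p) i j := by
  have h1 := (sc_cjE (n := 1).differentiable one_ne_zero ((0 : ℝ × ℝ × ℝ), m)).hasFDerivAt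
  have h2 : HasDerivAt (fun t : ℝ => (t • p, m)) (p, 0) 0 :=
    (by simpa using (hasDerivAt_id (0 : ℝ)).smul_const p : HasDerivAt (fun t : ℝ => t • p) p 0
      ).prodMk (hasDerivAt_const _ _)
  have h3 := HasFDerivAt.comp_hasDerivAt (x := (0 : ℝ)) (by rw [zero_smul]; exact h1) h2
  refine h3.unique (hasDerivAt_pi.2 fun x => hasDerivAt_pi.2 fun i => hasDerivAt_pi.2 fun j => ?_)
  have k0 : ∀ i j, (kp ((0 : ℝ) • p) : Mat) i j = (1 : Mat) i j := by
    rw [zero_smul, kp_zero]; exact fun _ _ => rfl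
  have d := kp_deriv p
  simp only [Function.comp_def, cjE, ad, Matrix.SpecialLinearGroup.coe_inv, Matrix.adjugate_fin_two,
    Matrix.mul_apply, Fin.sum_univ_two, Matrix.sub_apply]
  fin_cases j
  · refine (((((d i 0).mul_const (m x 0 0)).add ((d i 1).mul_const (m x 1 0))).mul (d 1 1)).add
      ((((d i 0).mul_const (m x 0 1)).add ((d i 1).mul_const (m x 1 1))).mul
        (d 1 0).neg)).congr_deriv ?_
    simp only [Pi.add_apply, Pi.neg_apply, k0]
    fin_cases i <;> simp only [zm, Fin.zero_eta, Fin.isValue, Matrix.of_apply, Matrix.cons_val', Matrix.cons_val_zero, Matrix.cons_val_fin_one, Matrix.cons_val_one, Matrix.one_apply_eq, mul_one, Matrix.one_apply, ↓ reduceIte, one_mul, ne_eq, zero_ne_one, not_false_eq_true, Matrix.one_apply_ne, zero_mul, add_zero, mul_neg, one_ne_zero, neg_zero, mul_zero, zero_add, Fin.mk_one, neg_mul] <;> ring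
  · refine (((((d i 0).mul_const (m x 0 0)).add ((d i 1).mul_const (m x 1 0))).mul (d 0 1).neg).add
      ((((d i 0).mul_const (m x 0 1)).add ((d i 1).mul_const (m x 1 1))).mul
        (d 0 0))).congr_deriv ?_
    simp only [Pi.add_apply, Pi.neg_apply, k0]
    fin_cases i <;> simp only [zm, Fin.zero_eta, Fin.isValue, Matrix.of_apply, Matrix.cons_val', Matrix.cons_val_zero, Matrix.cons_val_fin_one, Matrix.cons_val_one, ne_eq, zero_ne_one, not_false_eq_true, Matrix.one_apply_ne, neg_zero, mul_zero, Matrix.one_apply, ↓ reduceIte, one_mul, zero_mul, add_zero, mul_neg, zero_add, Matrix.one_apply_eq, mul_one, Fin.mk_one, neg_mul, one_ne_zero] <;> ring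
theorem na_free {M : Tup g} (h : NA M) {Z : Mat} (hZ : Z.trace = 0)
    (hc : ∀ x, Z * (M x : Mat) = (M x : Mat) * Z) : Z = 0 := by
  by_contra h0
  obtain ⟨x, y, hxy⟩ := h
  have : ∀ x, ad (M x) Z = Z := fun x => by
    rw [ad, ← hc, Matrix.mul_assoc, xf_inv', Matrix.mul_one]
  exact hxy (comm_of_ad hZ h0 (this x) (this y))

variable {W : Type} [NormedAddCommGroup W] [NormedSpace ℝ W]

/-- A slice of `X g e` for conjugation: `(x, k) ↦ k (s x) k⁻¹` is a bijection from `B × U` onto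
`O ∩ X g e` with analytic inverse `(T, h)`. -/
structure Slice (e : ℤ) (s : W → Tup g) (B : Set W) (U : Set G) (O : Set (Tup g))
    (T : Tup g → W) (h : Tup g → G) : Prop where
  oB : IsOpen B
  oU : IsOpen U
  oO : IsOpen O
  one : 1 ∈ U
  sm : ∀ x ∈ B, ContDiffAt ℝ ω (fun x => io (s x)) x
  smT : ∃ T' : Amb g → W, (∀ N, T N = T' (io N)) ∧ ∀ N ∈ O, ContDiffAt ℝ ω T' (io N)
  smh : ∃ P : Amb g → ℝ × ℝ × ℝ, (∀ N, h N = kp (P (io N))) ∧ ∀ N ∈ O, ContDiffAt ℝ ω P (io N)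
  fwd : ∀ x ∈ B, ∀ k ∈ U, cjT k (s x) ∈ O ∧ cjT k (s x) ∈ X g e ∧ T (cjT k (s x)) = x ∧
    h (cjT k (s x)) = k
  bwd : ∀ N ∈ O, N ∈ X g e → T N ∈ B ∧ h N ∈ U ∧ cjT (h N) (s (T N)) = N

theorem exists_slice [FiniteDimensional ℝ W] (hg : 1 ≤ g) (hW : Module.finrank ℝ W = 6 * g - 6)
    {e : ℤ} {M : Tup g} (hM : M ∈ X g e) (hN : NA M) :
    ∃ (s : W → Tup g) (r : ℝ) (U : Set G) (O : Set (Tup g)) (T : Tup g → W) (h : Tup g → G),
      0 < r ∧ s 0 = M ∧ Slice e s (ball 0 r) U O T h := by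
  have hc := fE_io (X_pm hM)
  obtain ⟨s, Θ, O, r, hr, hO, hm, s0, h1, h2, h3, h4⟩ := H35A.slice_chart (W := W) (n := ω)
    (f := fE) (a := fun q : (ℝ × ℝ × ℝ) × Amb g => cjE (kp q.1) q.2) (m := io M) (by simp) (by simp)
    sc_fE.contDiffAt (fE_surj (X_pm hM) hN) sc_cjE.contDiffAt
    (.of_forall fun y => by simp only [kp_zero, cjE_one])
    (.of_forall fun q => by
      rw [hc]
      refine ⟨fun h => ?_, cjE_fE _⟩
      have := cjE_fE (kp q.1)⁻¹ h
      rwa [← cjE_mul, inv_mul_cancel, cjE_one] at this)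
    (fun p hp => by
      rw [cjE_deriv] at hp
      have := na_free hN (Z := zm p) (by simp [zm]) fun x => sub_eq_zero.1 (congrFun hp x)
      have e0 := congrFun (congrFun this 0) 0
      have e1 := congrFun (congrFun this 0) 1
      have e2 := congrFun (congrFun this 1) 0
      exact Prod.ext e0 (Prod.ext e1 e2))
    (by rw [finrank_amb hg, hW]; simp only [Module.finrank_prod, Module.finrank_fintype_fun_eq_card, Fintype.card_prod, Fintype.card_fin, Fintype.card_bool, Module.finrank_self, Nat.reduceAdd]; omega)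
  obtain ⟨O₁, hO₁, hl⟩ := X_level hM
  have hs : ∀ x ∈ ball (0 : W) r, io (Function.invFun io (s x)) = s x := fun x hx =>
    Function.invFun_eq ((fE_eq ((h1 x hx).2.trans hc)).imp fun _ h => h.1)
  have ct : ContinuousAt (fun q : W × ℝ × ℝ × ℝ => cjE (kp q.2) (s q.1)) (0, 0) :=
    (sc_cjE (n := 0)).continuous.continuousAt.comp (f := fun q : W × ℝ × ℝ × ℝ => (q.2, s q.1))
      (continuousAt_snd.prodMk ((h1 0 (mem_ball_self hr)).1.continuousAt.comp_of_eq
        continuousAt_fst rfl))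
  obtain ⟨ρ, hρ, hb⟩ := Metric.mem_nhds_iff.1 (inter_mem (ct.preimage_mem_nhds (t := interior O₁)
    (by simpa only [s0, kp_zero, cjE_one] using interior_mem_nhds.2 hO₁)) (ball_mem_nhds _ hr))
  have hb' : ∀ x ∈ ball (0 : W) ρ, ∀ p ∈ ball (0 : ℝ × ℝ × ℝ) ρ,
      cjE (kp p) (s x) ∈ interior O₁ ∧ x ∈ ball (0 : W) r ∧ p ∈ ball (0 : ℝ × ℝ × ℝ) r :=
    fun x hx p hp => by
      have := @hb (x, p) (by rw [← ball_prod_same]; exact ⟨hx, hp⟩)
      rw [← ball_prod_same] at this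
      exact ⟨this.1, this.2⟩
  have hx0 : ∀ x ∈ ball (0 : W) ρ, x ∈ ball (0 : W) r := fun x hx =>
    (hb' x hx 0 (mem_ball_self hρ)).2.1
  have oo : IsOpen (O ∩ Θ ⁻¹' (ball 0 ρ ×ˢ ball 0 ρ)) :=
    ContinuousOn.isOpen_inter_preimage (fun y hy => (h2 y hy).continuousAt.continuousWithinAt) hO
      (isOpen_ball.prod isOpen_ball)
  refine ⟨fun x => Function.invFun io (s x), ρ, kp '' ball 0 ρ,
    io ⁻¹' (O ∩ Θ ⁻¹' (ball 0 ρ ×ˢ ball 0 ρ)), fun N => (Θ (io N)).1, fun N => kp (Θ (io N)).2, hρ,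
    io_emb.injective ((hs 0 (mem_ball_self hr)).trans s0), isOpen_ball, isOpen_kp isOpen_ball,
    oo.preimage io_emb.continuous, ⟨0, mem_ball_self hρ, kp_zero⟩, fun x hx => ?_,
    ⟨fun m => (Θ m).1, fun _ => rfl, fun N hN => (h2 _ hN.1).fst⟩,
    ⟨fun m => (Θ m).2, fun _ => rfl, fun N hN => (h2 _ hN.1).snd⟩, ?_, fun N hN hX => ?_⟩
  · refine (h1 x (hx0 x hx)).1.congr_of_eventuallyEq ?_
    filter_upwards [isOpen_ball.mem_nhds (hx0 x hx)] with y hy using hs y hy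
  · rintro x hx _ ⟨p, hp, rfl⟩
    obtain ⟨b1, b2, b3⟩ := hb' x hx p hp
    obtain ⟨c1, c2, c3, -⟩ := h3 x b2 p b3
    have e1 : io (cjT (kp p) (Function.invFun io (s x))) = cjE (kp p) (s x) := by
      rw [← cjE_io, hs x b2]
    simp only [mem_preimage, e1, c3, mem_inter_iff]
    refine ⟨⟨c1, hx, hp⟩, ?_, trivial, trivial⟩
    obtain ⟨-, N, hN, e2⟩ := hl.subset ⟨interior_subset b1, c2⟩
    exact io_emb.injective (e2.trans e1.symm) ▸ hN
  · obtain ⟨b1, -, b3⟩ := h4 _ hN.1 (xn_fE hM hX)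
    refine ⟨hN.2.1, ⟨_, hN.2.2, rfl⟩, io_emb.injective ?_⟩
    rw [← cjE_io, hs _ b1]
    exact b3

theorem cjT_one (M : Tup g) : cjT 1 M = M := funext fun _ => by simp [cjT, cj]
theorem cjT_mul (k l : G) (M : Tup g) : cjT (k * l) M = cjT k (cjT l M) :=
  funext fun _ => by simp only [cjT, cj, mul_assoc, mul_inv_rev]

namespace Slice

variable {e : ℤ} {s : W → Tup g} {B : Set W} {U : Set G} {O : Set (Tup g)} {T : Tup g → W}
  {h : Tup g → G}

theorem self (S : Slice e s B U O T h) {x : W} (hx : x ∈ B) :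
    s x ∈ O ∧ s x ∈ X g e ∧ T (s x) = x ∧ h (s x) = 1 := by
  simpa only [cjT_one] using S.fwd x hx 1 S.one
theorem contOn (S : Slice e s B U O T h) : ContinuousOn s B := fun x hx =>
  (io_emb.isInducing.continuousAt_iff.2 (S.sm x hx).continuousAt).continuousWithinAt
theorem contT (S : Slice e s B U O T h) : ContinuousOn T O := fun N hN => by
  obtain ⟨T', e1, h1⟩ := S.smT
  rw [show T = T' ∘ io from funext e1]
  exact ((h1 N hN).continuousAt.comp io_emb.continuous.continuousAt).continuousWithinAt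
theorem conth (S : Slice e s B U O T h) : ContinuousOn h O := fun N hN => by
  obtain ⟨P, e1, h1⟩ := S.smh
  rw [show h = kp ∘ P ∘ io from funext e1]
  exact (continuous_kp.continuousAt.comp
    ((h1 N hN).continuousAt.comp io_emb.continuous.continuousAt)).continuousWithinAt
theorem mono (S : Slice e s B U O T h) {B' : Set W} {U' : Set G} (oB : IsOpen B') (hB : B' ⊆ B)
    (oU : IsOpen U') (hU : U' ⊆ U) (h1 : 1 ∈ U') :
    Slice e s B' U' (O ∩ T ⁻¹' B' ∩ (O ∩ h ⁻¹' U')) T h where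
  oB := oB
  oU := oU
  oO := (S.contT.isOpen_inter_preimage S.oO oB).inter (S.conth.isOpen_inter_preimage S.oO oU)
  one := h1
  sm x hx := S.sm x (hB hx)
  smT := S.smT.imp fun _ H => ⟨H.1, fun N hN => H.2 N hN.1.1⟩
  smh := S.smh.imp fun _ H => ⟨H.1, fun N hN => H.2 N hN.1.1⟩
  fwd x hx k hk := by
    obtain ⟨a, b, c, d⟩ := S.fwd x (hB hx) k (hU hk)
    exact ⟨⟨⟨a, by rwa [mem_preimage, c]⟩, a, by rwa [mem_preimage, d]⟩, b, c, d⟩
  bwd N hN hX := ⟨hN.1.2, hN.2.2, (S.bwd N hN.1.1 hX).2.2⟩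

/-- Null sets of the slice parameter are the null sets of `mu` that are saturated in `O`. -/
theorem null [FiniteDimensional ℝ W] [MeasurableSpace W] [BorelSpace W] (ν : Measure W)
    [ν.IsAddHaarMeasure] (hg : 1 ≤ g) (hW : Module.finrank ℝ W = 6 * g - 6)
    (S : Slice e s B U O T h) {A : Set W} (hA : A ⊆ B) :
    mu g e (O ∩ T ⁻¹' A) = 0 ↔ ν A = 0 := by
  obtain ⟨T', eT, hT⟩ := S.smT
  obtain ⟨P, eP, hP⟩ := S.smh
  have hd : Module.finrank ℝ (W × ℝ × ℝ × ℝ) = 6 * g - 3 := by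
    simp only [Module.finrank_prod, hW, Module.finrank_self, Nat.reduceAdd]; omega
  have key : μH[((6 * g - 3 : ℕ) : ℝ)] (A ×ˢ (kp ⁻¹' U)) = 0 ↔ ν A = 0 := by
    rw [← hd]
    have h1 := Measure.absolutelyContinuous_isAddHaarMeasure
      (μH[Module.finrank ℝ (W × ℝ × ℝ × ℝ)]) (ν.prod (Measure.addHaar : Measure (ℝ × ℝ × ℝ)))
    have h2 := Measure.absolutelyContinuous_isAddHaarMeasure
      (ν.prod (Measure.addHaar : Measure (ℝ × ℝ × ℝ))) (μH[Module.finrank ℝ (W × ℝ × ℝ × ℝ)])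
    have h3 : Measure.addHaar (kp ⁻¹' U) ≠ 0 := (S.oU.preimage continuous_kp).measure_ne_zero _
      ⟨0, by rw [mem_preimage, kp_zero]; exact S.one⟩
    refine ⟨fun H => ?_, fun H => h1 (by rw [Measure.prod_prod, H, zero_mul])⟩
    have := h2 H
    rw [Measure.prod_prod] at this
    exact (mul_eq_zero.1 this).resolve_right h3
  rw [← key]
  refine ⟨fun H => ?_, fun H => ?_⟩
  · rw [mu_apply, vol_eq hg] at H
    refine measure_mono_null ?_ (ms_lip0 (Φ := fun m => (T' m, P m)) (Nat.cast_nonneg _) ?_ H)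
    · rintro ⟨x, p⟩ ⟨hx, hp⟩
      obtain ⟨a, b, c, d⟩ := S.fwd x (hA hx) _ hp
      refine ⟨_, ⟨_, ⟨⟨a, by rwa [mem_preimage, c]⟩, b⟩, rfl⟩, Prod.ext ((eT _).symm.trans c) ?_⟩
      simpa only [eP, ki_kp] using congrArg ki d
    · rintro _ ⟨N, hN, rfl⟩
      exact ((hT N hN.1.1).prodMk (hP N hN.1.1)).of_le le_top
  · refine xn_null hg e (ms_lip0 (Φ := fun q : W × ℝ × ℝ × ℝ => cjE (kp q.2) (io (s q.1)))
      (Nat.cast_nonneg _) (fun q hq => ?_) H) fun N hN hX => ?_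
    · exact (sc_cjE (n := 1)).contDiffAt.comp (f := fun q : W × ℝ × ℝ × ℝ => (q.2, io (s q.1))) q
        (contDiffAt_snd.prodMk (((S.sm _ (hA hq.1)).of_le le_top).comp q contDiffAt_fst))
    · obtain ⟨-, b, c⟩ := S.bwd N hN.1 hX
      exact ⟨(T N, P (io N)), ⟨hN.2, by rwa [mem_preimage, ← eP]⟩, by
        simp only [cjE_io, ← eP, c]⟩

end Slice

end

end Pool.Agent.MP_596265_gt.U

end

section

/-! Strong slices and transition maps. -/

namespace Pool.Agent.MP_596265_gt.U.Sx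

open Filter Topology Set Metric Erg UpperHalfPlane
open scoped ContDiff

noncomputable section

variable {g : ℕ} {W : Type} [NormedAddCommGroup W] [NormedSpace ℝ W]

/-- Equality of tuples up to signs. -/
def PMt (M N : Tup g) : Prop := ∀ y, PM (M y) (N y)

theorem PMt.trans {M N L : Tup g} (h : PMt M N) (h' : PMt N L) : PMt M L :=
  fun y => (h y).trans (h' y)
theorem PMt.cjT {M N : Tup g} (h : PMt M N) {k l : G} (h' : PM k l) : PMt (cjT k M) (cjT l N) :=
  fun y => (h'.mul (h y)).mul h'.inv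
theorem PMt.sg {M N : Tup g} (h : PMt M N) : ∃ ε, M = sg ε N := by
  classical
  refine ⟨fun y => decide (M y ≠ N y), funext fun y => ?_⟩
  by_cases c : M y = N y
  · simp [Erg.sg, c]
  · simpa [Erg.sg, c] using (h y).resolve_left c
theorem pmt_sg (ε : Gen g → Bool) (M : Tup g) : PMt (sg ε M) M := fun y => by
  unfold sg
  cases ε y
  exacts [.inl rfl, .inr rfl]
theorem X_cjT {e : ℤ} (k : G) {M : Tup g} (hM : M ∈ X g e) : cjT k M ∈ X g e := by
  have h : pre (fun z => lf (M z)) g = zt e := hM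
  refine (Rt_eq (L := fun z => MulAut.conj (lf k) (lf (M z))) (fun x => .inl ?_) g).trans ?_
  · simp only [MulAut.conj_apply, map_mul, pj_lf, map_inv, cjT, cj]
  · refine (pre_map (MulAut.conj (lf k)).toMonoidHom _ g).trans ?_
    rw [h]
    simp [← zt_central]
theorem lift_cjT (k : G) (M : Tup g) (w : Fr g) :
    FreeGroup.lift (cjT k M) w = cj k (FreeGroup.lift M w) := by
  have : FreeGroup.lift (cjT k M) = (MulAut.conj k).toMonoidHom.comp (FreeGroup.lift M) := by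
    ext1 x; simp only [FreeGroup.lift_apply_of, cjT, cj, MulEquiv.toMonoidHom_eq_coe, MonoidHom.coe_comp, MonoidHom.coe_coe, Function.comp_apply, MulAut.conj_apply]
  rw [this]; rfl
theorem cjT_pm1 {k : G} (h : PM k 1) (M : Tup g) : cjT k M = M := by
  funext y
  rcases h with rfl | rfl <;> simp [cjT, cj]
theorem continuous_cjT : Continuous fun q : G × Tup g => cjT q.1 q.2 :=
  continuous_pi fun y => by
    unfold cjT cj
    fun_prop
theorem ne_neg_self (A : G) : A ≠ -A := fun h => by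
  have h0 : ∀ i j, A i j = 0 := fun i j => by
    have := congrArg (fun B : G => B i j) h
    simp only [basic_neg] at this
    linarith only [this]
  simpa [h0] using basic_det A
theorem continuous_negG : Continuous fun A : G => -A := by
  simpa using continuous_const_mul (-1 : G)
theorem isClosed_PMt : IsClosed {q : Tup g × Tup g | PMt q.1 q.2} := by
  simp only [PMt, PM, ofPred_forall, ofPred_or]
  refine isClosed_iInter fun y => (isClosed_eq ?_ ?_).union (isClosed_eq ?_ ?_)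
  exacts [(continuous_apply y).comp continuous_fst, (continuous_apply y).comp continuous_snd,
    (continuous_apply y).comp continuous_fst,
    continuous_negG.comp ((continuous_apply y).comp continuous_snd)]
theorem pmt_near (M : Tup g) : ∀ᶠ q : Tup g × Tup g in 𝓝 (M, M), PMt q.1 q.2 → q.1 = q.2 := by
  have : ∀ᶠ q : Tup g × Tup g in 𝓝 (M, M), ∀ y, q.1 y ≠ -q.2 y := eventually_all.2 fun y =>
    (isOpen_ne_fun ((continuous_apply y).comp continuous_fst)
      (continuous_negG.comp ((continuous_apply y).comp continuous_snd))).mem_nhds (ne_neg_self _)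
  exact this.mono fun q h1 h2 => funext fun y => (h2 y).resolve_right (h1 y)
/-- Conjugation acts freely modulo signs. -/
theorem pm_free {M : Tup g} (h : NA M) {k : G} (hk : PMt M (cjT k M)) : PM k 1 := by
  have h1 : ∀ y, k * M y = M y * k := fun y => by
    rcases hk y with c | c
    · exact mul_inv_eq_iff_eq_mul.1 c.symm
    · refine absurd ?_ (cm_ne_neg k (M y))
      rw [cm, mul_inv_eq_iff_eq_mul, neg_one_mul]
      exact neg_eq_iff_eq_neg.1 c.symm
  have h2 := na_free h (Z := tl k) (by simp only [tl, tr, Fin.isValue, Matrix.trace_sub, Matrix.trace_fin_two, Matrix.trace_smul, Matrix.trace_one, Fintype.card_fin, Nat.cast_ofNat, smul_eq_mul, isUnit_iff_ne_zero, ne_eq, OfNat.ofNat_ne_zero, not_false_eq_true, IsUnit.div_mul_cancel, sub_self]) fun y => by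
    have := congrArg Subtype.val (h1 y)
    simp only [Matrix.SpecialLinearGroup.coe_mul] at this
    simp only [tl, Matrix.sub_mul, Matrix.mul_sub, Matrix.smul_mul, Matrix.mul_smul, Matrix.one_mul,
      Matrix.mul_one, this]
  have e0 := congrFun (congrFun h2 0) 0
  have e1 := congrFun (congrFun h2 0) 1
  have e2 := congrFun (congrFun h2 1) 0
  simp only [tl, tr, Fin.isValue, Matrix.sub_apply, Matrix.smul_apply, Matrix.one_apply_eq, smul_eq_mul, mul_one, Matrix.zero_apply, ne_eq, zero_ne_one, not_false_eq_true, Matrix.one_apply_ne, mul_zero, sub_zero, one_ne_zero] at e0 e1 e2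
  have hd := basic_det k
  have : (k 0 0 - 1) * (k 0 0 + 1) = 0 := by
    linear_combination hd + 2 * k 0 0 * e0 + k 0 1 * e2
  rcases mul_eq_zero.1 this with c | c
  · exact .inl (basic_ext (sub_eq_zero.1 c) e1 e2 (by rw [basic_one11]; linarith only [e0, c]))
  · exact .inr (basic_ext (by rw [basic_neg, basic_one00]; linarith only [c])
      (by rw [basic_neg, basic_one01, e1, neg_zero]) (by rw [basic_neg, basic_one10, e2, neg_zero])
      (by rw [basic_neg, basic_one11]; linarith))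
theorem isCompact_move (c c' : ℍ) (ρ : ℝ) : IsCompact {k : G | dist (k • c) c' ≤ ρ} := by
  obtain ⟨a, rfl⟩ := exists_smul_I c
  have := (isProperMap_smul_I.isCompact_preimage (isCompact_closedBall c' ρ)).image
    (continuous_mul_const a⁻¹)
  convert this using 1
  ext k
  refine ⟨fun h => ⟨k * a, by simpa only [mem_preimage, mul_smul, mem_closedBall, mem_ofPred_eq] using h, by simp⟩, ?_⟩
  rintro ⟨l, hl, rfl⟩
  simpa only [mem_ofPred_eq, mul_smul, inv_smul_smul, mem_preimage, mem_closedBall] using hl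

variable {e : ℤ} {s : W → Tup g} {B : Set W} {U : Set G} {O : Set (Tup g)} {T : Tup g → W}
  {h : Tup g → G}

/-- Near a point, the slice meets an orbit of a compact set of conjugations only once. -/
theorem strong (S : Slice e s B U O T h) {x₀ : W} (h0 : x₀ ∈ B) (hN : NA (s x₀)) {C : Set G}
    (hC : IsCompact C) : ∃ r > 0, ball x₀ r ⊆ B ∧ ∀ x ∈ ball x₀ r, ∀ x' ∈ ball x₀ r, ∀ k ∈ C,
      PMt (s x') (cjT k (s x)) → x = x' ∧ PM k 1 := by
  have cs := S.contOn.continuousAt (S.oB.mem_nhds h0)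
  have key : ∀ᶠ p : W × W in 𝓝 (x₀, x₀), ∀ k ∈ C, PMt (s p.2) (cjT k (s p.1)) →
      p.1 = p.2 ∧ PM k 1 := by
    refine hC.eventually_forall_of_forall_eventually fun k₀ _ => ?_
    have ct : ContinuousAt (fun q : (W × W) × G => (s q.1.2, cjT q.2 (s q.1.1))) ((x₀, x₀), k₀) :=
      (cs.comp_of_eq continuousAt_fst.snd rfl).prodMk (continuous_cjT.continuousAt.comp
        (f := fun q : (W × W) × G => (q.2, s q.1.1))
        (continuousAt_snd.prodMk (cs.comp_of_eq continuousAt_fst.fst rfl)))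
    by_cases c : PMt (s x₀) (cjT k₀ (s x₀))
    swap
    · exact (ct.eventually (isClosed_PMt.isOpen_compl.mem_nhds c)).mono fun q h1 h2 => absurd h2 h1
    have hk := pm_free hN c
    have t1 := ct.eventually (by simpa only [cjT_pm1 hk] using pmt_near (s x₀))
    have t2 : ∀ᶠ q : (W × W) × G in 𝓝 ((x₀, x₀), k₀), k₀⁻¹ * q.2 ∈ U :=
      (continuous_const.mul continuous_snd).continuousAt.eventually
        (S.oU.mem_nhds (by simpa using S.one))
    have t3 : ∀ᶠ q : (W × W) × G in 𝓝 ((x₀, x₀), k₀), q.1.1 ∈ B ∧ q.1.2 ∈ B :=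
      (continuousAt_fst.fst.eventually (S.oB.mem_nhds h0)).and
        (continuousAt_fst.snd.eventually (S.oB.mem_nhds h0))
    filter_upwards [t1, t2, t3] with q a b d hq
    obtain ⟨-, -, f1, f2⟩ := S.fwd _ d.1 _ b
    have hk' : PM k₀⁻¹ 1 := by simpa using hk.inv
    rw [cjT_mul, cjT_pm1 hk', ← show s q.1.2 = _ from a hq] at f1 f2
    refine ⟨f1.symm.trans (S.self d.2).2.2.1, ?_⟩
    rwa [← inv_mul_eq_one.1 (f2.symm.trans (S.self d.2).2.2.2)]
  obtain ⟨r, hr, hb⟩ := Metric.mem_nhds_iff.1 (key.and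
    (continuousAt_fst.eventually (S.oB.mem_nhds h0)))
  rw [← ball_prod_same] at hb
  exact ⟨r, hr, fun x hx => (@hb (x, x) ⟨hx, hx⟩).2, fun x hx x' hx' => (@hb (x, x') ⟨hx, hx'⟩).1⟩

end

end Pool.Agent.MP_596265_gt.U.Sx

end

section

attribute [-instance] ProperSMul.toContinuousSMul TotallySeparatedSpace.t2Space RKHS.instFunLike
  Module.FaithfullyFlat.toFlat GradedMonoid.GradeZero.smul IsScalarTower.complexToReal
  AlgHom.instNonUnitalAlgHomClassOfAlgHomClass SMulWithZero.toSMulZeroClass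
  NonarchimedeanAddGroup.toIsTopologicalAddGroup CoalgHomClass.toSemilinearMapClass
  NonUnitalRingHomClass.toMulHomClass DistribMulActionSemiHomClass.toMulActionSemiHomClass
  NonUnitalNonAssocSemiring.toMulZeroClass littleWedderburn
  SemilinearEquivClass.instSemilinearMapClass AddMonoidHomClass.toAddHomClass
  NonUnitalNonAssocSemiring.toDistrib ENormedAddCommMonoid.toESeminormedAddCommMonoid
  Valued.toUniformSpace IsTopologicalTorsor.toContinuousSMul
  SemilinearIsometryClass.toSemilinearMapClass NonUnitalNonAssocRing.toAddCommGroup instCoeTCOfCoe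
  MonTypeEquivalenceMon.monMonoid ESeminormedAddMonoid.toAddMonoid
  LieAdmissibleAlgebra.toIsScalarTower IdemSemiring.toSemiring LieAdmissibleAlgebra.toSMulCommClass
  CommGroup.toDivisionCommMonoid RingHomClass.toLinearMapClassNNRat NormedCommRing.toCommRing
  AddQuantale.instAddLeftMono LeftPreLieAlgebra.toSMulCommClass IsTopologicalSemiring.toContinuousAdd
  RingHomClass.toLinearMapClassRat RightPreLieAlgebra.toIsScalarTower AddGroupWithOne.toAddGroup
  LeftPreLieAlgebra.toIsScalarTower RightPreLieAlgebra.toSMulCommClass NumberField.to_charZero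
  NonUnitalAlgSemiHomClass.toDistribMulActionSemiHomClass
  Group.IsPerfect.subsingleton_of_isMulCommutative IsValuativeTopology.instIsTopologicalAddGroup
  GroupWithZero.toMonoidWithZero EuclideanDomain.toCommRing SeminormedCommRing.toCommRing
  NonUnitalRing.toNonUnitalNonAssocRing CommMonoidWithZero.toMonoidWithZero
  BialgEquivClass.toBialgHomClass IdemSemiring.toCanonicallyOrderedAdd TestFunctionClass.toDFunLike
  AddCommGroupWithOne.toAddGroupWithOne IsLeftCancelMul.mulLeftReflectLE_of_mulLeftReflectLT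
  PositiveLinearMap.instContinuousLinearMapClassComplexOfLinearMapClassOfOrderHomClass
  ContDiffMapSupportedInClass.toDFunLike NonAssocSemiring.toNonUnitalNonAssocSemiring
  instSMulZeroClass LieAdmissibleRing.toNonUnitalNonAssocRing BooleanRing.toCommRing
  AddCommMonoidWithOne.toAddCommMonoid NonUnitalNonAssocCommSemiring.toNonUnitalNonAssocSemiring
  LieRing.toAddCommGroup NonUnitalNormedRing.toNonUnitalSeminormedRing BooleanRing.toRing
  Bialgebra.toAlgebra NonUnitalSemiring.toSemigroupWithZero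
  MulSemiringActionSemiHomClass.toDistribMulActionSemiHomClass SubtractionMonoid.toSubNegMonoid
  NonAssocCommSemiring.toNonAssocSemiring LinearOrderedAddCommMonoidWithTop.toAddCommMonoid
  IdemCommSemiring.toCommSemiring

/-! Block A, part C: a class system gives a finite groupoid atlas. -/

namespace Pool.Agent.MP_596265_gt.U

open Filter Topology MeasureTheory Set Metric Erg UpperHalfPlane
open scoped ContDiff

noncomputable section

variable {g : ℕ}

abbrev AutF (g : ℕ) : Type := Fr g ≃* Fr g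
abbrev Coch (g : ℕ) : Type := Gen g → Mat
/-- The model space of the slices. -/
abbrev Vg (g : ℕ) : Type := EuclideanSpace ℝ (Fin (6 * g - 6))

/-- `N` is the conjugate of `M` by `k`, up to signs. -/
def Cj (k : G) (M N : Tup g) : Prop := ∀ x, PM (N x) (cj k (M x))
/-- Not abelian, non-zero traces and no invariant line. -/
def Ir (M : Tup g) : Prop := NA M ∧ (∀ x, tr (M x) ≠ 0) ∧
  ∀ v : Fin 2 → ℝ, v ≠ 0 → ∃ x, ∀ c : ℝ, (M x : Mat).mulVec v ≠ c • v
/-- `ψ` induces `φ`. -/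
def Ind (ψ : AutF g) (φ : MulAut (SurfaceGroup g)) : Prop :=
  AutR ψ ∧ ∀ w, φ (PresentedGroup.mk _ w) = PresentedGroup.mk _ (ψ w)
/-- The action of an automorphism on cocycles. -/
def aU (ψ : AutF g) (M : Tup g) (U : Coch g) : Coch g := fun x => coc M U (ψ (FreeGroup.of x))

/-- Data of a class system: positivity, arrows, the invariant set and the norm. -/
structure CD (g : ℕ) (𝒯 : Type) where
  P : 𝒯 → Tup g → ℍ → Prop
  Ar : 𝒯 → 𝒯 → AutF g → Tup g → ℍ → Prop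
  K : 𝒯 → Tup g → ℍ → Prop
  F : 𝒯 → Tup g → ℍ → Coch g → Coch g → ℝ

variable {𝒯 : Type}

/-- Axioms of a class system. `Ar τ τ' ψ M z`: the state `τ` at `(M, z)` is the same structure as
`τ'` at `(act ψ M, z)`. -/
structure CS (e : ℤ) (d : CD g 𝒯) : Prop where
  oP : ∀ {τ M z}, M ∈ X g e → d.P τ M z → ∀ᶠ q in 𝓝 (M, z), q.1 ∈ X g e → d.P τ q.1 q.2
  cP : ∀ {τ M N z k}, M ∈ X g e → Cj k M N → d.P τ M z → d.P τ N (k • z)
  aP : ∀ {τ τ' ψ M z}, d.Ar τ τ' ψ M z →
    AutR ψ ∧ M ∈ X g e ∧ d.P τ M z ∧ d.P τ' (act ψ M) z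
  inv : ∀ {τ τ' ψ M z}, d.Ar τ τ' ψ M z → d.Ar τ' τ ψ.symm (act ψ M) z
  comp : ∀ {τ τ' τ'' ψ ψ' M z}, d.Ar τ τ' ψ M z → d.Ar τ' τ'' ψ' (act ψ M) z →
    d.Ar τ τ'' (ψ'.trans ψ) M z
  cA : ∀ {τ τ' ψ M N z k}, Cj k M N → d.Ar τ τ' ψ M z → d.Ar τ τ' ψ N (k • z)
  nA : ∀ {τ τ' ψ ψ' φ M z}, Ind ψ φ → Ind ψ' φ → d.Ar τ τ' ψ M z → d.Ar τ τ' ψ' M z
  loc : ∀ {τ τ' ψ M z}, AutR ψ → M ∈ X g e → d.P τ M z → d.P τ' (act ψ M) z →
    ∀ᶠ q in 𝓝 (M, z), q.1 ∈ X g e → (d.Ar τ τ' ψ q.1 q.2 ↔ d.Ar τ τ' ψ M z)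
  fin : ∀ τ τ' (C C' : Set (Tup g × ℍ)), IsCompact C → IsCompact C' →
    (∀ q ∈ C, q.1 ∈ X g e ∧ d.P τ q.1 q.2) →
    {φ | ∃ ψ, Ind ψ φ ∧ ∃ q ∈ C, ∃ q' ∈ C', ∃ k, d.Ar τ τ' ψ q.1 q.2 ∧ Cj k (act ψ q.1) q'.1 ∧
      k • q.2 = q'.2}.Finite
  kP : ∀ {τ M z}, d.K τ M z → M ∈ X g e ∧ d.P τ M z
  mK : ∀ τ z, MeasurableSet {M | d.K τ M z}
  kA : ∀ {τ τ' ψ M z}, d.Ar τ τ' ψ M z → d.K τ M z → d.K τ' (act ψ M) z
  kC : ∀ {τ M N z k}, Cj k M N → d.K τ M z → d.K τ N (k • z)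
  kz : ∀ {τ M z}, M ∈ X g e → d.P τ M z → ∀ᶠ w in 𝓝 z, (d.K τ M w ↔ d.K τ M z)
  cov : ∃ (I₀ : Finset 𝒯) (C : 𝒯 → Set (Tup g)),
    (∀ τ ∈ I₀, IsCompact (C τ) ∧ ∀ M ∈ C τ, M ∈ X g e ∧ d.P τ M I ∧ Ir M) ∧
    ∀ τ M z, d.K τ M z → ∃ τ' ∈ I₀, ∃ ψ k, ∃ N ∈ C τ', d.Ar τ τ' ψ M z ∧ Cj k (act ψ M) N ∧
      k • z = I
  add : ∀ {τ M z U U' V}, M ∈ X g e → d.P τ M z → Z1 M U → Z1 M U' → Z1 M V →
    d.F τ M z (U + U') V = d.F τ M z U V + d.F τ M z U' V
  smul : ∀ {τ M z U V} (r : ℝ), M ∈ X g e → d.P τ M z → Z1 M U → Z1 M V →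
    d.F τ M z (r • U) V = r * d.F τ M z U V
  symm : ∀ {τ M z U V}, M ∈ X g e → d.P τ M z → Z1 M U → Z1 M V →
    d.F τ M z U V = d.F τ M z V U
  nonneg : ∀ {τ M z U}, M ∈ X g e → d.P τ M z → Z1 M U → 0 ≤ d.F τ M z U U
  nd : ∀ {τ M z U V}, M ∈ X g e → d.P τ M z → Z1 M U → Z1 M V → d.F τ M z U U = 0 →
    omg M U V = 0
  cob : ∀ {τ M z V} (Y : Mat), M ∈ X g e → d.P τ M z → Y.trace = 0 → Z1 M V →
    d.F τ M z (cob M Y) V = 0
  fA : ∀ {τ τ' ψ M z U}, d.Ar τ τ' ψ M z → Z1 M U →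
    d.F τ' (act ψ M) z (aU ψ M U) (aU ψ M U) = d.F τ M z U U
  fC : ∀ {τ M N z k U}, M ∈ X g e → Cj k M N → d.P τ M z → Z1 M U →
    d.F τ N (k • z) (fun x => ad k (U x)) (fun x => ad k (U x)) = d.F τ M z U U
  reg : ∀ {τ} {s : Vg g → Tup g} {U : Vg g → Coch g} {x₀} {z₀ : ℍ},
    ContDiffAt ℝ ω (fun x => io (s x)) x₀ → (∀ y i j, ContDiffAt ℝ ω (fun x => U x y i j) x₀) →
    (∀ᶠ x in 𝓝 x₀, s x ∈ X g e ∧ Z1 (s x) (U x)) → d.P τ (s x₀) z₀ →
    ContDiffAt ℝ 2 (fun q : Vg g × ℂ => d.F τ (s q.1) (ofComplex q.2) (U q.1) (U q.1)) (x₀, z₀)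
  lt : ∀ {τ M U} {z : ℍ}, M ∈ X g e → d.P τ M z → Z1 M U → 0 < d.F τ M z U U →
    En.LT (fun w => d.F τ M (ofComplex w) U U) z

/-- Data of a family of slices. -/
structure AD (g : ℕ) (𝒯 J : Type) where
  t : J → 𝒯
  s : J → Vg g → Tup g
  r : J → ℝ
  σ : J → ℝ
  Un : J → Set G
  O : J → Set (Tup g)
  T : J → Tup g → Vg g
  h : J → Tup g → G

variable {J : Type}

/-- An atlas of slices that covers the invariant set. -/
structure Atl (e : ℤ) (d : CD g 𝒯) (a : AD g 𝒯 J) : Prop where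
  r_pos : ∀ j, 0 < a.r j
  σ_pos : ∀ j, 0 < a.σ j
  sl : ∀ j, Slice e (a.s j) (ball 0 (a.r j)) (a.Un j) (a.O j) (a.T j) (a.h j)
  inj : ∀ j, ∀ x ∈ ball 0 (a.r j), ∀ x' ∈ ball 0 (a.r j), ∀ k, Cj k (a.s j x) (a.s j x') →
    x = x' ∧ PM k 1
  pos : ∀ j, ∀ x ∈ ball 0 (a.r j), ∀ z ∈ ball I (4 * a.σ j), d.P (a.t j) (a.s j x) z
  cov : ∀ τ M z, d.K τ M z → ∃ j ψ k, ∃ x ∈ ball 0 (1 / 8 * a.r j), d.Ar τ (a.t j) ψ M z ∧
    Cj k (act ψ M) (a.s j x) ∧ k • z ∈ ball I (1 / 8 * (4 * a.σ j))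

/-- Velocity of a family of tuples, as a cocycle. -/
def vel (s : Vg g → Tup g) (x v : Vg g) : Coch g :=
  fun y => Matrix.of (fderiv ℝ (fun x => io (s x)) x v y) * (((s x y)⁻¹ : G) : Mat)
/-- The standard basis. -/
def eb (i : Fin (6 * g - 6)) : Vg g := EuclideanSpace.single i 1
/-- The matrix of the symplectic form along a slice. -/
def Ωm (s : Vg g → Tup g) (x : Vg g) : Matrix (Fin (6 * g - 6)) (Fin (6 * g - 6)) ℝ :=
  Matrix.of fun i j => omg (s x) (vel s x (eb i)) (vel s x (eb j))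
/-- The matrix of the norm along a slice. -/
def Gm (d : CD g 𝒯) (τ : 𝒯) (s : Vg g → Tup g) (q : Vg g × ℂ) :
    Matrix (Fin (6 * g - 6)) (Fin (6 * g - 6)) ℝ :=
  Matrix.of fun i j => d.F τ (s q.1) (ofComplex q.2) (vel s q.1 (eb i)) (vel s q.1 (eb j))
/-- The covariance. -/
def Tm (d : CD g 𝒯) (τ : 𝒯) (s : Vg g → Tup g) (q : Vg g × ℂ) : Vg g →L[ℝ] Vg g :=
  Matrix.toEuclideanCLM (𝕜 := ℝ) ((Ωm s q.1)⁻¹ * Gm d τ s q * (Ωm s q.1)⁻¹.transpose)
/-- The vector dual to a covector. -/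
def dual (s : Vg g → Tup g) (x ξ : Vg g) : Vg g :=
  Matrix.toEuclideanCLM (𝕜 := ℝ) (Ωm s x)⁻¹.transpose ξ

/-- The point `x` of slice `j` is carried by `φ` and `p.2` to the point `p.1` of slice `j'`. -/
def AD.Lk (a : AD g 𝒯 J) (j j' : J) (φ : MulAut (SurfaceGroup g)) (x : Vg g) (p : Vg g × G) :
    Prop :=
  p.1 ∈ ball 0 (a.r j') ∧ ∃ ψ, Ind ψ φ ∧ Cj p.2 (act ψ (a.s j x)) (a.s j' p.1)

/-- The groupoid atlas of a family of slices. -/
def AD.gd (d : CD g 𝒯) (a : AD g 𝒯 J) : En.GD (Vg g) J (MulAut (SurfaceGroup g)) where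
  r := a.r
  s := a.σ
  c := fun _ => I
  S := fun j => {x | x ∈ ball 0 (a.r j) ∧ d.K (a.t j) (a.s j x) I}
  ν := fun j x => √|(Ωm (a.s j) x).det|
  T := fun j => Tm d (a.t j) (a.s j)
  A := fun j j' φ => {x | x ∈ ball 0 (a.r j) ∧ ∃ p, a.Lk j j' φ x p}
  τ := fun j j' φ x => (Classical.epsilon (a.Lk j j' φ x)).1
  h := fun j j' φ x => (Classical.epsilon (a.Lk j j' φ x)).2
  W := fun j j' φ => {q | (q.1 ∈ ball 0 (a.r j) ∧ ∃ p, a.Lk j j' φ q.1 p) ∧
    ∃ ψ, Ind ψ φ ∧ d.Ar (a.t j) (a.t j') ψ (a.s j q.1) q.2}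

variable {e : ℤ} {d : CD g 𝒯} {a : AD g 𝒯 J}


end

end Pool.Agent.MP_596265_gt.U

/-! Row C0: algebra of `Cj` and `Ind`. -/

namespace Pool.Agent.MP_596265_gt.U

open Filter Topology MeasureTheory Set Metric Erg UpperHalfPlane

variable {g : ℕ} {e : ℤ}

theorem C0.pm (k : G) {x y : G} (h : PM x y) : PM (cj k x) (cj k y) :=
  ((PM.refl k).mul h).mul (PM.refl _)

theorem Cj.refl (M : Tup g) : Cj 1 M M := fun x => .inl (by simp [cj])
theorem Cj.symm {k : G} {M N : Tup g} (h : Cj k M N) : Cj k⁻¹ N M := fun x => by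
  have := C0.pm k⁻¹ (h x).symm
  rw [xr_cc] at this; exact this
theorem Cj.trans {k l : G} {M N L : Tup g} (h : Cj k M N) (h' : Cj l N L) : Cj (l * k) M L :=
  fun x => by
    have := (h' x).trans (C0.pm l (h x))
    rwa [show cj l (cj k (M x)) = cj (l * k) (M x) by simp only [cj]; group] at this
theorem C0.lift {k : G} {M N : Tup g} (h : Cj k M N) (w : Fr g) :
    PM (FreeGroup.lift N w) (cj k (FreeGroup.lift M w)) := by
  induction w using FreeGroup.induction_on with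
  | C1 => exact .inl (by simp [cj])
  | of x => simpa using h x
  | inv_of x hx => rw [map_inv, map_inv, yd_inv]; exact hx.inv
  | mul x y hx hy => rw [map_mul, map_mul, yd_mul]; exact hx.mul hy
theorem Cj.act {k : G} {M N : Tup g} (h : Cj k M N) (ψ : AutF g) :
    Cj k (Erg.act ψ M) (Erg.act ψ N) := fun _ => C0.lift h _
theorem Cj.mem {k : G} {M N : Tup g} (h : Cj k M N) (hM : M ∈ X g e) : N ∈ X g e := by
  refine (Rt_eq (L := fun x => MulAut.conj (lf k) (lf (M x))) (fun x => ?_) g).trans ?_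
  · simpa only [MulAut.conj_apply, map_mul, pj_lf, map_inv, cj] using (h x).symm
  · have e1 := pre_map (MulAut.conj (lf k)).toMonoidHom (fun x => lf (M x)) g
    have e2 : pre (fun x => lf (M x)) g = zt e := hM
    refine e1.trans ?_
    rw [e2]; change lf k * zt e * (lf k)⁻¹ = _
    rw [← zt_central, mul_inv_cancel_right]
theorem cj_cjT (k : G) (M : Tup g) : Cj k M (cjT k M) := fun _ => .inl rfl
theorem Cj.sg {k : G} {M N : Tup g} (h : Cj k M N) : ∃ ε, N = Erg.sg ε (cjT k M) := by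
  have : ∀ x, ∃ b : Bool, N x = cond b (-cjT k M x) (cjT k M x) := fun x =>
    (h x).elim (fun a => ⟨false, a⟩) fun a => ⟨true, a⟩
  choose ε hε using this
  exact ⟨ε, funext hε⟩
theorem exists_ind {ψ : AutF g} (h : AutR ψ) : ∃ φ, Ind ψ φ :=
  (z_descend ψ h).imp fun _ a => ⟨h, a⟩
theorem Ind.symm {ψ : AutF g} {φ} (h : Ind ψ φ) : Ind ψ.symm φ⁻¹ :=
  ⟨h.1.symm, fun w => φ.symm_apply_eq.2 (by rw [h.2, ψ.apply_symm_apply])⟩
theorem Ind.trans {ψ ψ' : AutF g} {φ φ'} (h : Ind ψ φ) (h' : Ind ψ' φ') :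
    Ind (ψ'.trans ψ) (φ * φ') :=
  ⟨h'.1.trans h.1, fun w => by rw [MulAut.mul_apply, h'.2, h.2]; rfl⟩
theorem C0.normal {M : Tup g} (hR : PM (pre M g) 1) {w : Fr g}
    (hw : w ∈ Subgroup.normalClosure ({relPre g g} : Set (Fr g))) : PM (FreeGroup.lift M w) 1 := by
  induction hw using Subgroup.closure_induction with
  | mem x hx =>
    obtain ⟨a, rfl, hc⟩ := Group.mem_conjugatesOfSet_iff.1 hx
    obtain ⟨t, rfl⟩ := isConj_iff.1 hc
    simpa only [map_mul, map_inv, cj, pre_eq, mul_one, mul_inv_cancel] using C0.pm (FreeGroup.lift M t) hR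
  | one => exact .inl (map_one _)
  | mul x y _ _ hx hy => simpa only [map_mul, mul_one] using hx.mul hy
  | inv x _ hx => simpa only [map_inv, inv_one] using hx.inv
theorem Ind.cj {ψ ψ' : AutF g} {φ} (h : Ind ψ φ) (h' : Ind ψ' φ) {M : Tup g} (hM : M ∈ X g e) :
    Cj 1 (act ψ M) (act ψ' M) := fun x => by
  have := (PM.refl (act ψ M x)).mul (C0.normal (X_pm hM)
    (QuotientGroup.eq.1 ((h.2 (FreeGroup.of x)).symm.trans (h'.2 _))))
  simpa only [act, Erg.cj, one_mul, inv_one, mul_one, map_mul, map_inv, mul_inv_cancel_left] using this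
theorem pm_smul {k l : G} (h : PM k l) (z : ℍ) : k • z = l • z := h.smul_eq z

theorem C0.fix {M : Tup g} (hM : M ∈ X g e) {L : Gen g → Gt} (h : ∀ x, PM (pj (L x)) (M x)) {t : ℝ}
    (ht : ∀ x, ap (L x) t = t) : e = 0 := by
  have key : ∀ w, ap (FreeGroup.lift L w) t = t := fun w => by
    induction w using FreeGroup.induction_on with
    | C1 => simp only [map_one, RelIso.coe_one, id_eq]
    | of x => simpa only [FreeGroup.lift_apply_of] using ht x
    | inv_of x hx => rw [map_inv, map_inv]; exact (OrderIso.symm_apply_eq _).2 hx.symm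
    | mul x y hx hy => rw [map_mul, ap_mul, hy, hx]
  have := key (relPre g g)
  rw [← pre_eq, ← Rt_eq h, show Rt M g = zt e from hM, ap_zt] at this
  exact_mod_cast (by linarith : (e : ℝ) = 0)

theorem ir_of_X (he : e ≠ 0) {M : Tup g} (hM : M ∈ X g e) (h : ∀ x, tr (M x) ≠ 0) : Ir M := by
  refine ⟨by_contra fun hn => he ?_, h, fun v hv => by_contra fun hn => he ?_⟩
  · simp only [NA, not_exists, not_not] at hn
    have h1 : Rt M g = 1 := List.prod_eq_one fun x hx => by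
      obtain ⟨i, -, rfl⟩ := List.mem_map.1 hx
      exact cmt_eq_one.2 (cm_eq_one.2 (hn _ _))
    have := ap_zt e 0
    rw [← show Rt M g = zt e from hM, h1] at this
    exact_mod_cast (by simpa only [Int.cast_eq_zero, zero_add, map_one, RelIso.coe_one, id_eq] using this.symm : (e : ℝ) = 0)
  · push Not at hn
    set z : ℂ := ⟨v 0, v 1⟩
    have hz : z ≠ 0 := fun a => hv (lifts_ext (congrArg Complex.re a) (congrArg Complex.im a))
    have hp : Real.pi * (z.arg / Real.pi) = z.arg := by field_simp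
    have ev : v = ‖z‖ • vec (z.arg / Real.pi) := lifts_ext
      (by rw [Pi.smul_apply, lifts_v0, hp]; exact (Complex.norm_mul_cos_arg z).symm)
      (by rw [Pi.smul_apply, lifts_v1, hp]; exact (Complex.norm_mul_sin_arg z).symm)
    generalize z.arg / Real.pi = t at ev
    have : ∀ x, ∃ n : ℤ, ap (lf (M x)) t = t + n := fun x => by
      obtain ⟨c, hc⟩ := hn x
      obtain ⟨c', hc', e'⟩ := (liftP (lf (M x))).2 t
      rw [ev, Matrix.mulVec_smul, smul_comm] at hc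
      rw [pj_lf, smul_right_injective _ (norm_ne_zero_iff.2 hz) hc] at e'
      have k := (xg_dot e' t).2
      simp only [Pi.smul_apply, lifts_v0, lifts_v1, smul_eq_mul] at k
      obtain ⟨n, hn⟩ := Real.sin_eq_zero_iff.1 ((mul_eq_zero.1 (k.symm.trans (by ring))).resolve_left
        hc'.ne')
      exact ⟨n, by linarith only [Real.pi_pos, mul_left_cancel₀ Real.pi_pos.ne' (hn.symm.trans (mul_comm _ _))]⟩
    choose n hn using this
    refine C0.fix hM (L := fun x => lf (M x) * zt (-n x : ℤ)) (t := t) (fun x => ?_) fun x => ?_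
    · simpa only [pj_lf] using xg_pm (lf (M x)) (-n x)
    · rw [ap_mul, ap_zt, ap_add_int, hn]; push_cast; ring

theorem C0.qi (hg : 1 ≤ g) (k : G) {B : Set (Tup g)} (hB : mu g e B = 0) :
    mu g e (cjT k ⁻¹' B) = 0 := by
  simpa only [univ_inter] using xu_qi hg (A := univ) (Γ := cjT k) (Γ' := cjT k⁻¹) (fun M _ a =>
    ⟨(cj_cjT k M).mem a, xt_sm fun x => xt_G_mul (xt_G_mul (xt_G_const _) (xt_G_co x))
      (xt_G_const _), by rw [← cjT_mul, inv_mul_cancel, cjT_one]⟩) hB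

/-- Null sets are carried to null sets. -/
theorem null_move {ψ : AutF g} (hψ : AutR ψ) (k : G) (ε : Gen g → Bool) {B : Set (Tup g)}
    (hB : mu g e B = 0) : mu g e ((fun M => sg ε (cjT k (act ψ M))) ⁻¹' B) = 0 := by
  rcases Nat.eq_zero_or_pos g with rfl | hg
  · rwa [show (fun M => sg ε (cjT k (act ψ M))) = id from funext fun _ => funext fun x => x.1.elim0]
  · exact qi_act hg hψ (C0.qi hg k (qi_sg hg ε hB))

end Pool.Agent.MP_596265_gt.U

/-! Block A, row C1: small slices are injective modulo conjugation. -/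

namespace Pool.Agent.MP_596265_gt.U

open Filter Topology Set Metric Erg

variable {g : ℕ} {e : ℤ}

namespace C1

theorem det_ne {M : Tup g} (h : Ir M) {K : Mat} (h0 : K ≠ 0)
    (hK : ∀ x, (M x : Mat) * K = K * M x ∨ (M x : Mat) * K = -(K * M x)) : K.det ≠ 0 := by
  intro hd
  rw [Matrix.det_fin_two] at hd
  obtain ⟨i, j, hij⟩ : ∃ i j, K i j ≠ 0 := by
    by_contra hn
    push Not at hn
    exact h0 (Matrix.ext hn)
  obtain ⟨x, hx⟩ := h.2.2 (fun l => K l j) fun hv => hij (congrFun hv i)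
  refine hx ((M x : Mat).mulVec (fun l => K l j) i / K i j) (funext fun l => ?_)
  have e1 : ∀ l, (M x : Mat).mulVec (fun l => K l j) l = ((M x : Mat) * K) l j := fun l => rfl
  simp only [e1, Pi.smul_apply, smul_eq_mul]
  field_simp
  rcases hK x with c | c <;> rw [c] <;>
    simp only [Matrix.neg_apply, Matrix.mul_apply, Fin.sum_univ_two] <;>
    fin_cases i <;> fin_cases j <;> fin_cases l <;> simp only [Fin.zero_eta, Fin.mk_one] <;>
    first
      | ring1
      | linear_combination (M x 0 1) * hd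
      | linear_combination -(M x 0 1) * hd
      | linear_combination (M x 1 0) * hd
      | linear_combination -(M x 1 0) * hd

/-- Conjugation is proper near an irreducible tuple. -/
theorem proper {M : Tup g} (h : Ir M) : ∃ C : Set G, IsCompact C ∧
    ∀ᶠ q : Tup g × Tup g in 𝓝 (M, M), ∀ k, Cj k q.1 q.2 → k ∈ C := by
  let R : (Tup g × Tup g) × Mat → Prop := fun q =>
    ∀ x, (q.1.2 x : Mat) * q.2 = q.2 * q.1.1 x ∨ (q.1.2 x : Mat) * q.2 = -(q.2 * q.1.1 x)
  have c1 : ∀ x, Continuous fun q : (Tup g × Tup g) × Mat => (q.1.1 x : Mat) := fun x =>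
    continuous_subtype_val.comp ((continuous_apply x).comp continuous_fst.fst)
  have c2 : ∀ x, Continuous fun q : (Tup g × Tup g) × Mat => (q.1.2 x : Mat) := fun x =>
    continuous_subtype_val.comp ((continuous_apply x).comp continuous_fst.snd)
  have hR : IsClosed {q | R q} := by
    simp only [R, ofPred_forall, ofPred_or]
    exact isClosed_iInter fun x => (isClosed_eq ((c2 x).matrix_mul continuous_snd)
      (continuous_snd.matrix_mul (c1 x))).union (isClosed_eq ((c2 x).matrix_mul continuous_snd)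
        (continuous_snd.matrix_mul (c1 x)).neg)
  have key : ∀ᶠ p : (Tup g × Tup g) × ℝ in 𝓝 ((M, M), 0),
      ∀ K ∈ sphere (0 : Fin 2 → Fin 2 → ℝ) 1, R (p.1, K) → p.2 < |(Matrix.of K).det| := by
    refine (isCompact_sphere _ _).eventually_forall_of_forall_eventually fun K hK => ?_
    by_cases c : R ((M, M), K)
    · have h0 : Matrix.of K ≠ 0 := fun h0 => by
        rw [show K = 0 from h0] at hK
        simp at hK
      exact (ContinuousAt.eventually_lt continuousAt_fst.snd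
        (continuous_snd.matrix_det.abs.continuousAt) (abs_pos.2 (det_ne h h0 c))).mono
          fun _ a _ => a
    · have ct : Continuous fun z : ((Tup g × Tup g) × ℝ) × (Fin 2 → Fin 2 → ℝ) =>
          ((z.1.1, z.2) : (Tup g × Tup g) × Mat) := continuous_fst.fst.prodMk continuous_snd
      exact ((hR.preimage ct).isOpen_compl.eventually_mem c).mono fun _ a b => absurd b a
  rw [nhds_prod_eq, eventually_prod_iff] at key
  obtain ⟨pa, ha, pb, hb, key⟩ := key
  obtain ⟨δ, hδ, hδ0⟩ := ((hb.filter_mono nhdsWithin_le_nhds).and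
    (self_mem_nhdsWithin (s := Ioi (0 : ℝ)))).exists
  have hδ1 : 0 < δ := hδ0
  have emb : IsClosedEmbedding fun (k : G) (i j : Fin 2) => k i j :=
    (isClosed_eq (continuous_id.matrix_det) continuous_const).isClosedEmbedding_subtypeVal
  refine ⟨_, emb.isCompact_preimage (isCompact_closedBall 0 (√δ⁻¹)), ha.mono fun q hq k hk => ?_⟩
  obtain ⟨K, hK⟩ : ∃ K : Fin 2 → Fin 2 → ℝ, K = fun i j => k i j := ⟨_, rfl⟩
  have d1 : (Matrix.of K).det = 1 := hK ▸ k.det_coe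
  have hn : 0 < ‖K‖ := norm_pos_iff.2 fun h0 => by simp [h0] at d1
  have := key hq hδ (‖K‖⁻¹ • K) (by simp [norm_smul, hn.ne']) fun x => by
    have e1 : ∀ A B : G, A = cj k B → (A : Mat) * Matrix.of K = Matrix.of K * (B : Mat) := by
      rintro _ B rfl
      exact hK ▸ congrArg Subtype.val (inv_mul_cancel_right (k * B) k)
    change (q.2 x : Mat) * (‖K‖⁻¹ • Matrix.of K) = (‖K‖⁻¹ • Matrix.of K) * (q.1 x : Mat) ∨
      (q.2 x : Mat) * (‖K‖⁻¹ • Matrix.of K) = -((‖K‖⁻¹ • Matrix.of K) * (q.1 x : Mat))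
    rw [Matrix.mul_smul, Matrix.smul_mul]
    rcases hk x with c | c
    · exact .inl (by rw [e1 _ _ c])
    · refine .inr ?_
      rw [← e1 _ _ rfl, c, ← smul_neg, ← Matrix.neg_mul]
      rfl
  rw [show Matrix.of (‖K‖⁻¹ • K) = ‖K‖⁻¹ • Matrix.of K from rfl, Matrix.det_smul, d1] at this
  rw [mem_preimage, mem_closedBall_zero_iff, ← hK]
  refine Real.le_sqrt_of_sq_le (le_inv_of_le_inv₀ hδ1 ?_)
  simpa using this.le

end C1

theorem Slice.inj {s : Vg g → Tup g} {r U O T h} (S : Slice e s (ball 0 r) U O T h) (hr : 0 < r)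
    (h0 : Ir (s 0)) : ∃ r' > 0, r' ≤ r ∧ ∀ x ∈ ball 0 r', ∀ x' ∈ ball 0 r', ∀ k,
      Cj k (s x) (s x') → x = x' ∧ PM k 1 := by
  obtain ⟨C, hC, h1⟩ := C1.proper h0
  obtain ⟨r₁, hr₁, -, h2⟩ := Sx.strong S (mem_ball_self hr) h0.1 hC
  have cs := S.contOn.continuousAt (ball_mem_nhds _ hr)
  have ct : ContinuousAt (fun p : Vg g × Vg g => (s p.1, s p.2)) (0, 0) :=
    (cs.comp_of_eq continuousAt_fst rfl).prodMk (cs.comp_of_eq continuousAt_snd rfl)
  obtain ⟨r₂, hr₂, h3⟩ := Metric.mem_nhds_iff.1 (ct.eventually h1)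
  rw [← ball_prod_same] at h3
  refine ⟨min r (min r₁ r₂), by positivity, min_le_left _ _, fun x hx x' hx' k hk => ?_⟩
  simp only [mem_ball, lt_min_iff] at hx hx'
  exact h2 x hx.2.1 x' hx'.2.1 k (@h3 (x, x') ⟨hx.2.2, hx'.2.2⟩ k hk) hk

end Pool.Agent.MP_596265_gt.U

/-! Block A, row C2: existence of an atlas of slices. -/

namespace Pool.Agent.MP_596265_gt.U

open Filter Topology MeasureTheory Set Metric Erg UpperHalfPlane

variable {g : ℕ} {𝒯 : Type} {e : ℤ} {d : CD g 𝒯}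

namespace AC2

theorem loc (hg : 1 ≤ g) (H : CS e d) {τ : 𝒯} {M : Tup g} (hM : M ∈ X g e) (hP : d.P τ M I)
    (hI : Ir M) : ∃ (s : Vg g → Tup g) (r σ : ℝ) (U : Set G) (O : Set (Tup g)) (T : Tup g → Vg g)
      (h : Tup g → G) (B : Set (Tup g)), 0 < r ∧ 0 < σ ∧ Slice e s (ball 0 r) U O T h ∧
      (∀ x ∈ ball 0 r, ∀ x' ∈ ball 0 r, ∀ k, Cj k (s x) (s x') → x = x' ∧ PM k 1) ∧
      (∀ x ∈ ball 0 r, ∀ z ∈ ball I (4 * σ), d.P τ (s x) z) ∧ B ∈ 𝓝 M ∧
      ∀ N ∈ B, N ∈ X g e → ∃ x ∈ ball (0 : Vg g) (1 / 8 * r), ∃ k, Cj k N (s x) ∧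
        k • I ∈ ball I (1 / 8 * (4 * σ)) := by
  obtain ⟨s, r, U, O, T, h, hr, rfl, S⟩ := exists_slice (W := Vg g) hg (by simp only [finrank_euclideanSpace, Fintype.card_fin]) hM hI.1
  obtain ⟨r', hr', hle, inj⟩ := S.inj hr hI
  have c0 : ContinuousAt s 0 := S.contOn.continuousAt (ball_mem_nhds 0 hr)
  have c1 : ContinuousAt (fun q : Vg g × ℍ => (s q.1, q.2)) (0, I) :=
    (c0.comp_of_eq continuousAt_fst rfl).prodMk continuousAt_snd
  have ev := c1.eventually (H.oP hM hP)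
  rw [nhds_prod_eq, (nhds_basis_ball.prod nhds_basis_ball).eventually_iff] at ev
  obtain ⟨⟨ρ, σ⟩, ⟨hρ, hσ⟩, ev⟩ := ev
  have h1 : ball (0 : Vg g) (min ρ r') ⊆ ball 0 r' := ball_subset_ball (min_le_right _ _)
  have h2 : ball (0 : Vg g) (min ρ r') ⊆ ball 0 r := h1.trans (ball_subset_ball hle)
  have h3 : 0 < min ρ r' := lt_min hρ hr'
  obtain ⟨m1, -, m2, m3⟩ := S.self (mem_ball_self hr)
  have cT := S.contT.continuousAt (S.oO.mem_nhds m1)
  have ch : ContinuousAt (fun N => (h N)⁻¹ • I) (s 0) :=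
    (S.conth.continuousAt (S.oO.mem_nhds m1)).inv.smul continuousAt_const
  refine ⟨s, min ρ r', σ / 4, U, _, T, h, O ∩ T ⁻¹' ball 0 (1 / 8 * min ρ r') ∩
    (fun N => (h N)⁻¹ • I) ⁻¹' ball I (1 / 8 * (4 * (σ / 4))), h3, by positivity,
    S.mono isOpen_ball h2 S.oU subset_rfl S.one,
    fun x hx x' hx' => inj x (h1 hx) x' (h1 hx'), fun x hx z hz => ?_, ?_, fun N hN hX => ?_⟩
  · refine ev (x := (x, z)) ⟨ball_subset_ball (min_le_left _ _) hx, ?_⟩ (S.self (h2 hx)).2.1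
    rwa [mul_div_cancel₀ _ four_ne_zero] at hz
  · refine inter_mem (inter_mem (S.oO.mem_nhds m1) (cT ?_)) (ch ?_)
    · rw [m2]; exact ball_mem_nhds _ (by positivity)
    · simp only [m3, inv_one, one_smul]; exact ball_mem_nhds _ (by positivity)
  · refine ⟨T N, hN.1.2, (h N)⁻¹, Cj.symm ?_, hN.2⟩
    have := cj_cjT (h N) (s (T N))
    rwa [(S.bwd N hN.1.1 hX).2.2] at this

end AC2

theorem CS.atlas (hg : 1 ≤ g) (H : CS e d) :
    ∃ (m : ℕ) (a : AD g 𝒯 (Fin m)), Atl e d a := by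
  obtain ⟨I₀, C, hC, cov⟩ := H.cov
  choose s r σ U O T h B hr hσ sl inj pos nb loc using
    fun i : {p : 𝒯 × Tup g // p.1 ∈ I₀ ∧ p.2 ∈ C p.1} => AC2.loc hg H
      ((hC _ i.2.1).2 _ i.2.2).1 ((hC _ i.2.1).2 _ i.2.2).2.1 ((hC _ i.2.1).2 _ i.2.2).2.2
  choose t ht using fun τ : I₀ => (hC τ τ.2).1.elim_nhds_subcover'
    (fun M hM => B ⟨(τ, M), τ.2, hM⟩) fun M hM => nb ⟨(τ, M), τ.2, hM⟩
  obtain ⟨m, f, -, hf⟩ := (Set.finite_iUnion fun τ : I₀ => ((t τ).finite_toSet.image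
    fun M : C τ => (⟨(τ, M), τ.2, M.2⟩ : {p : 𝒯 × Tup g // p.1 ∈ I₀ ∧ p.2 ∈ C p.1}))).fin_param
  refine ⟨m, ⟨fun j => (f j).1.1, s ∘ f, r ∘ f, σ ∘ f, U ∘ f, O ∘ f, T ∘ f, h ∘ f⟩,
    fun j => hr _, fun j => hσ _, fun j => sl _, fun j => inj _, fun j => pos _,
    fun τ M z hK => ?_⟩
  obtain ⟨τ', h1, ψ, k, N, h2, h3, h4, rfl'⟩ := cov τ M z hK
  obtain ⟨M', h5, h6⟩ := mem_iUnion₂.1 (ht ⟨τ', h1⟩ h2)
  obtain ⟨j, hj⟩ : (⟨(τ', M'), h1, M'.2⟩ : {p : 𝒯 × Tup g // p.1 ∈ I₀ ∧ p.2 ∈ C p.1}) ∈ range f :=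
    hf ▸ mem_iUnion.2 ⟨⟨τ', h1⟩, M', h5, rfl⟩
  obtain ⟨x, hx, l, h7, h8⟩ := loc _ N h6 ((hC _ h1).2 N h2).1
  refine ⟨j, ψ, l * k, x, ?_⟩
  simp only [Function.comp_apply, hj, mul_smul, rfl']
  exact ⟨hx, h3, h4.trans h7, h8⟩

end Pool.Agent.MP_596265_gt.U

/-! Block A, row C3: arrows are unique and analytic. -/

namespace Pool.Agent.MP_596265_gt.U

open Filter Topology Set Metric Erg
open scoped ContDiff

variable {g : ℕ} {e : ℤ} {𝒯 J : Type} {d : CD g 𝒯} {a : AD g 𝒯 J}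

namespace C3

variable {E : Type} [NormedAddCommGroup E] [NormedSpace ℝ E] {x : E} {n : WithTop ℕ∞}

/-- Smooth maps to the group. -/
def Sm (n : WithTop ℕ∞) (k : E → G) (x : E) : Prop := ∀ i l, ContDiffAt ℝ n (fun y => k y i l) x

theorem Sm.const (k : G) : Sm n (fun _ : E => k) x := fun _ _ => contDiffAt_const
theorem Sm.mul {k l : E → G} (hk : Sm n k x) (hl : Sm n l x) : Sm n (fun y => k y * l y) x :=
  fun i j => by
    simp only [basic_mul]
    exact ((hk i 0).mul (hl 0 j)).add ((hk i 1).mul (hl 1 j))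
theorem Sm.inv {k : E → G} (hk : Sm n k x) : Sm n (fun y => (k y)⁻¹) x := fun i j => by
  simp only [Matrix.SpecialLinearGroup.coe_inv, Matrix.adjugate_fin_two]
  fin_cases i <;> fin_cases j
  exacts [hk 1 1, (hk 0 1).neg, (hk 1 0).neg, hk 0 0]
theorem Sm.neg {k : E → G} (hk : Sm n k x) : Sm n (fun y => -k y) x := fun i j => (hk i j).neg
theorem sm_iff {s : E → Tup g} :
    ContDiffAt ℝ n (fun y => io (s y)) x ↔ ∀ z, Sm n (fun y => s y z) x := by
  simp only [contDiffAt_pi, Sm, io]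
theorem sm_lift {s : E → Tup g} (hs : ∀ z, Sm n (fun y => s y z) x) (w : Fr g) :
    Sm n (fun y => FreeGroup.lift (s y) w) x := by
  induction w using FreeGroup.induction_on with
  | C1 => simpa using Sm.const 1
  | of z => simpa using hs z
  | inv_of z ih => simpa using (hs z).inv
  | mul u v h1 h2 => simpa only [map_mul] using h1.mul h2
theorem sm_move {s : E → Tup g} (hs : ContDiffAt ℝ n (fun y => io (s y)) x) (ψ : AutF g) (k : G)
    (ε : Gen g → Bool) : ContDiffAt ℝ n (fun y => io (sg ε (cjT k (act ψ (s y))))) x := by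
  refine sm_iff.2 fun z => ?_
  have := ((Sm.const k).mul (sm_lift (sm_iff.1 hs) (ψ (.of z)))).mul (Sm.const k⁻¹)
  unfold sg
  cases ε z
  exacts [this, this.neg]

end C3

theorem Atl.lk_unique (A : Atl e d a) {j j' φ x p p'} (hx : x ∈ ball 0 (a.r j))
    (h : a.Lk j j' φ x p) (h' : a.Lk j j' φ x p') : p.1 = p'.1 ∧ PM p.2 p'.2 := by
  obtain ⟨b, ψ, i, c⟩ := h
  obtain ⟨b', ψ', i', c'⟩ := h'
  obtain ⟨e1, e2⟩ := A.inj j' _ b _ b' _
    ((c.symm.trans (i.cj i' ((A.sl j).self hx).2.1)).trans c')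
  refine ⟨e1, PM.symm ?_⟩
  simpa using e2.mul (PM.refl p.2)

/-- Near a linked point the arrow is analytic. -/
theorem Atl.lk_loc (A : Atl e d a) {j j' φ x p} (hx : x ∈ ball 0 (a.r j)) (h : a.Lk j j' φ x p) :
    ∃ (t : Vg g → Vg g) (k : Vg g → G), t x = p.1 ∧ k x = p.2 ∧ ContDiffAt ℝ ω t x ∧
      (∀ i l, ContDiffAt ℝ ω (fun y => k y i l) x) ∧ ∀ᶠ y in 𝓝 x, a.Lk j j' φ y (t y, k y) := by
  obtain ⟨b, ψ, i, c⟩ := h
  obtain ⟨ε, hε⟩ := Sx.PMt.sg (N := cjT p.2 (act ψ (a.s j x))) c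
  have S := A.sl j
  have S' := A.sl j'
  obtain ⟨T', eT, hT⟩ := S'.smT
  obtain ⟨P, eP, hP⟩ := S'.smh
  obtain ⟨o1, -, o3, o4⟩ := S'.self b
  have sm := C3.sm_move (S.sm x hx) ψ p.2 ε
  rw [hε] at o1 o3 o4
  refine ⟨fun y => a.T j' (sg ε (cjT p.2 (act ψ (a.s j y)))),
    fun y => (a.h j' (sg ε (cjT p.2 (act ψ (a.s j y)))))⁻¹ * p.2, o3, by simp [o4], ?_, ?_, ?_⟩
  · simp only [eT]
    exact (hT _ o1).comp x sm
  · refine C3.Sm.mul (C3.Sm.inv fun i l => ?_) (C3.Sm.const _)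
    simp only [eP]
    exact (sc_kp i l).contDiffAt.comp x ((hP _ o1).comp x sm)
  · filter_upwards [(io_emb.isInducing.continuousAt_iff.2 sm.continuousAt).eventually
      (S'.oO.mem_nhds o1), S.oB.mem_nhds hx] with y y1 y2
    obtain ⟨f1, -, f3⟩ := S'.bwd _ y1 (X_sg ε (Sx.X_cjT p.2 (X_act i.1 (S.self y2).2.1)))
    refine ⟨f1, ψ, i, ?_⟩
    have := Sx.PMt.cjT (Sx.pmt_sg ε (cjT p.2 (act ψ (a.s j y))))
      (PM.refl (a.h j' (sg ε (cjT p.2 (act ψ (a.s j y)))))⁻¹)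
    rw [← cjT_mul] at this
    refine Sx.PMt.trans (fun z => .inl (congrFun ?_ z)) this
    exact ((cjT_one _).symm.trans (by rw [← cjT_mul, inv_mul_cancel])).trans (congrArg _ f3)

end Pool.Agent.MP_596265_gt.U

/-! Block A, row C3: the arrows of an atlas form a groupoid. -/

namespace Pool.Agent.MP_596265_gt.U

open Filter Topology MeasureTheory Set Metric Erg UpperHalfPlane
open scoped ContDiff Pointwise

noncomputable section

variable {g : ℕ} {𝒯 J : Type} {e : ℤ} {d : CD g 𝒯} {a : AD g 𝒯 J}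

namespace C3b

theorem spec {j j' φ x} (h : x ∈ (a.gd d).A j j' φ) :
    a.Lk j j' φ x ((a.gd d).τ j j' φ x, (a.gd d).h j j' φ x) := Classical.epsilon_spec h.2

theorem uniq (A : Atl e d a) {j j' φ x p} (hx : x ∈ ball 0 (a.r j)) (h : a.Lk j j' φ x p) :
    x ∈ (a.gd d).A j j' φ ∧ (a.gd d).τ j j' φ x = p.1 ∧ PM ((a.gd d).h j j' φ x) p.2 :=
  ⟨⟨hx, p, h⟩, A.lk_unique hx (spec (d := d) ⟨hx, p, h⟩) h⟩

theorem loc (A : Atl e d a) {j j' φ x} (h : x ∈ (a.gd d).A j j' φ) :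
    ∃ (t : Vg g → Vg g) (k : Vg g → G), ContDiffAt ℝ ω t x ∧
      (∀ i l, ContDiffAt ℝ ω (fun y => k y i l) x) ∧ ∀ᶠ y in 𝓝 x, y ∈ (a.gd d).A j j' φ ∧
        (a.gd d).τ j j' φ y = t y ∧ PM ((a.gd d).h j j' φ y) (k y) := by
  obtain ⟨t, k, -, -, h1, h2, h3⟩ := A.lk_loc h.1 (spec h)
  exact ⟨t, k, h1, h2, (h3.and (isOpen_ball.mem_nhds h.1)).mono fun y hy => uniq A hy.2 hy.1⟩

theorem closed_cj {Y : Type} [TopologicalSpace Y] {k : Y → G} {M N : Y → Tup g}
    (hk : Continuous k) (hM : Continuous M) (hN : Continuous N) :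
    IsClosed {y | Cj (k y) (M y) (N y)} := by
  have h1 : ∀ x, Continuous fun y => cj (k y) (M y x) := fun x =>
    (hk.mul ((continuous_apply x).comp hM)).mul hk.inv
  have h2 : ∀ x, Continuous fun y => N y x := fun x => (continuous_apply x).comp hN
  simp only [Cj, PM, Set.ofPred_forall, Set.ofPred_or]
  refine isClosed_iInter fun x => (isClosed_eq (h2 x) (h1 x)).union (isClosed_eq (h2 x) ?_)
  exact ((continuous_const (y := (-1 : G))).mul (h1 x)).congr fun y => neg_one_mul _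

end C3b

open C3b in
theorem Atl.arrows (A : Atl e d a) :
    (∀ j j' φ, IsOpen ((a.gd d).A j j' φ)) ∧
    (∀ j j' φ, ∀ x ∈ (a.gd d).A j j' φ, ContDiffAt ℝ 2 ((a.gd d).τ j j' φ) x) ∧
    (∀ j j' φ, ∀ x ∈ (a.gd d).A j j' φ, ∀ z : ℍ, ContDiffAt ℝ 2
      (fun q : Vg g × ℂ => (((a.gd d).h j j' φ q.1 • ofComplex q.2 : ℍ) : ℂ)) (x, (z : ℂ))) ∧
    (∀ j j' φ, ∀ x ∈ (a.gd d).A j j' φ, (a.gd d).τ j j' φ x ∈ (a.gd d).A j' j φ⁻¹ ∧
      ∀ z, (a.gd d).Θ j' j φ⁻¹ ((a.gd d).Θ j j' φ (x, z)) = (x, z)) ∧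
    (∀ j j' j'' φ φ', ∀ x ∈ (a.gd d).A j j' φ, (a.gd d).τ j j' φ x ∈ (a.gd d).A j' j'' φ' →
      x ∈ (a.gd d).A j j'' (φ * φ') ∧ ∀ z, (a.gd d).Θ j j'' (φ * φ') (x, z) =
        (a.gd d).Θ j' j'' φ' ((a.gd d).Θ j j' φ (x, z))) ∧
    (∀ j j' φ (C C' : Set (Vg g × ℍ)), IsCompact C → IsCompact C' → C ⊆ (a.gd d).Q j 1 →
      C' ⊆ (a.gd d).Q j' 1 →
      IsClosed {q | q ∈ C ∧ q.1 ∈ (a.gd d).A j j' φ ∧ (a.gd d).Θ j j' φ q ∈ C'}) := by
  refine ⟨fun j j' φ => isOpen_iff_mem_nhds.2 fun x hx => ?_, fun j j' φ x hx => ?_,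
    fun j j' φ x hx z => ?_, fun j j' φ x hx => ?_, fun j j' j'' φ φ' x hx hx' => ?_,
    fun j j' φ C C' hC hC' hQ hQ' => ?_⟩
  · obtain ⟨t, k, -, -, h⟩ := loc A hx
    exact h.mono fun y hy => hy.1
  · obtain ⟨t, k, h1, -, h⟩ := loc A hx
    exact (h1.of_le le_top).congr_of_eventuallyEq (h.mono fun y hy => hy.2.1)
  · obtain ⟨t, k, -, h2, h⟩ := loc A hx
    have hk : ∀ i l, ContDiffAt ℝ 2 (fun q : Vg g × ℂ => ((k q.1 i l : ℝ) : ℂ)) (x, (z : ℂ)) :=
      fun i l => Complex.ofRealCLM.contDiff.contDiffAt.comp _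
        (((h2 i l).of_le le_top).comp (x, (z : ℂ)) contDiffAt_fst)
    have h3 : ∀ᶠ q : Vg g × ℂ in 𝓝 (x, (z : ℂ)), 0 < q.2.im :=
      (isOpen_lt continuous_const (Complex.continuous_im.comp continuous_snd)).mem_nhds z.im_pos
    refine (ContDiffAt.mul (((hk 0 0).mul contDiffAt_snd).add (hk 0 1))
      ((((hk 1 0).mul contDiffAt_snd).add (hk 1 1)).inv
        (basic_denom (k x) z))).congr_of_eventuallyEq ?_
    filter_upwards [h3, (continuousAt_fst (p := (x, (z : ℂ)))).eventually h] with q hq hq'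
    rw [hq'.2.2.smul_eq, basic_coe_smul, ofComplex_apply_of_im_pos hq, div_eq_mul_inv]
    rfl
  · obtain ⟨hp, ψ, hψ, c⟩ := spec hx
    have c' := (c.act ψ.symm).symm
    rw [act_symm] at c'
    obtain ⟨h1, h2, h3⟩ := uniq A (p := (x, ((a.gd d).h j j' φ x)⁻¹)) hp ⟨hx.1, _, hψ.symm, c'⟩
    exact ⟨h1, fun z => Prod.ext h2 (h3.smul_eq _ |>.trans (inv_smul_smul _ z))⟩
  · obtain ⟨-, ψ, hψ, c⟩ := spec hx
    obtain ⟨hp', ψ', hψ', c'⟩ := spec hx'
    have c2 := (c.act ψ').trans c'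
    rw [← act_trans] at c2
    obtain ⟨h1, h2, h3⟩ := uniq A (p := (_, _ * _)) hx.1 ⟨hp', _, hψ.trans hψ', c2⟩
    exact ⟨h1, fun z => Prod.ext h2 (h3.smul_eq _ |>.trans (mul_smul _ _ z))⟩
  · by_cases hψ : ∃ ψ, Ind ψ φ
    swap
    · convert isClosed_empty
      refine eq_empty_of_forall_notMem fun q hq => hψ ?_
      obtain ⟨-, ψ, hψ, -⟩ := spec hq.2.1
      exact ⟨ψ, hψ⟩
    obtain ⟨ψ, hψ⟩ := hψ
    have b1 : ∀ q ∈ C, q.1 ∈ ball (0 : Vg g) (a.r j) := fun q hq => by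
      have := (hQ hq).1
      rwa [one_mul] at this
    have b2 : ∀ q ∈ C', q.1 ∈ ball (0 : Vg g) (a.r j') := fun q hq => by
      have := (hQ' hq).1
      rwa [one_mul] at this
    have := isCompact_iff_compactSpace.1 hC
    have := isCompact_iff_compactSpace.1 hC'
    have k1 := ProperSMul.isCompact_setOfPred_inter_nonempty (G := G) (hC.image continuous_snd)
      (hC'.image continuous_snd)
    have s1 : Continuous fun y : C × C' × G => a.s j y.1.1.1 :=
      (A.sl j).contOn.comp_continuous (by fun_prop) fun y => b1 _ y.1.2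
    have s2 : Continuous fun y : C × C' × G => a.s j' y.2.1.1.1 :=
      (A.sl j').contOn.comp_continuous (by fun_prop) fun y => b2 _ y.2.1.2
    have k2 : IsCompact ({y : C × C' × G | y.2.2 • y.1.1.2 = y.2.1.1.2} ∩
        {y | Cj y.2.2 (act ψ (a.s j y.1.1.1)) (a.s j' y.2.1.1.1)}) :=
      (isCompact_univ.prod (isCompact_univ.prod k1)).of_isClosed_subset
        ((isClosed_eq (by fun_prop) (by fun_prop)).inter
          (closed_cj (by fun_prop) ((continuous_act ψ).comp s1) s2))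
        fun y hy => ⟨trivial, trivial, _, ⟨_, ⟨_, y.1.2, rfl⟩, rfl⟩, _, y.2.1.2, hy.1.symm⟩
    convert (k2.image (f := fun y => y.1.1) (by fun_prop)).isClosed using 1
    ext q
    constructor
    · rintro ⟨h1, h2, h3⟩
      obtain ⟨-, ψ', hψ', c⟩ := spec h2
      refine ⟨(⟨q, h1⟩, ⟨_, h3⟩, (a.gd d).h j j' φ q.1), ⟨rfl, ?_⟩, rfl⟩
      have := (hψ.cj hψ' ((A.sl j).self h2.1).2.1).trans c
      rwa [mul_one] at this
    · rintro ⟨y, ⟨h1, h2⟩, rfl⟩
      obtain ⟨h3, h4, h5⟩ := uniq A (p := (y.2.1.1.1, y.2.2)) (b1 _ y.1.2)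
        ⟨b2 _ y.2.1.2, ψ, hψ, h2⟩
      refine ⟨y.1.2, h3, ?_⟩
      have : (a.gd d).Θ j j' φ y.1.1 = y.2.1.1 := Prod.ext h4 ((h5.smul_eq _).trans h1)
      rw [this]
      exact y.2.1.2

end

end Pool.Agent.MP_596265_gt.U

/-! Block A, row C4: classes. -/

namespace Pool.Agent.MP_596265_gt.U

open Filter Topology MeasureTheory Set Metric Erg UpperHalfPlane
open scoped ContDiff

variable {g : ℕ} {𝒯 J : Type} {e : ℤ} {d : CD g 𝒯} {a : AD g 𝒯 J}

namespace C4

theorem conn (z : ℍ) (ρ : ℝ) : IsPreconnected (ball z ρ) := by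
  rw [← isEmbedding_coe.isInducing.isPreconnected_image, image_coe_ball]
  exact (convex_ball _ _).isPreconnected

theorem sX (A : Atl e d a) {j x} (hx : x ∈ ball 0 (a.r j)) : a.s j x ∈ X g e :=
  ((A.sl j).self hx).2.1

theorem spec {j j' φ x} (hx : x ∈ (a.gd d).A j j' φ) :
    a.Lk j j' φ x ((a.gd d).τ j j' φ x, (a.gd d).h j j' φ x) := Classical.epsilon_spec hx.2

theorem lk (A : Atl e d a) {j j' φ ψ x} (hx : x ∈ (a.gd d).A j j' φ) (hψ : Ind ψ φ) :
    Cj ((a.gd d).h j j' φ x) (act ψ (a.s j x)) (a.s j' ((a.gd d).τ j j' φ x)) := by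
  obtain ⟨-, ψ₀, h0, h1⟩ := spec hx
  simpa only [mul_one] using (hψ.cj h0 (sX A hx.1)).trans h1

theorem memQ {j} {q : Vg g × ℍ} (hq : q ∈ (a.gd d).Q j 1) :
    q.1 ∈ ball 0 (a.r j) ∧ q.2 ∈ ball I (4 * a.σ j) := by
  simp only [En.GD.Q, one_mul, mem_prod] at hq
  exact hq

theorem ct (A : Atl e d a) {j} {q : Vg g × ℍ} (hq : q.1 ∈ ball 0 (a.r j)) :
    ContinuousAt (fun q : Vg g × ℍ => (a.s j q.1, q.2)) q :=
  ((((A.sl j).contOn.continuousAt (isOpen_ball.mem_nhds hq)).comp continuousAt_fst).prodMk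
    continuousAt_snd)

theorem ev (H : CS e d) (A : Atl e d a) {j τ' ψ} {q : Vg g × ℍ} (hq : q.1 ∈ ball 0 (a.r j))
    (h1 : AutR ψ) (h2 : d.P (a.t j) (a.s j q.1) q.2) (h3 : d.P τ' (act ψ (a.s j q.1)) q.2) :
    ∀ᶠ y in 𝓝 q, (d.Ar (a.t j) τ' ψ (a.s j y.1) y.2 ↔ d.Ar (a.t j) τ' ψ (a.s j q.1) q.2) := by
  filter_upwards [(ct A hq).eventually (H.loc h1 (sX A hq) h2 h3),
    (isOpen_ball.preimage continuous_fst).mem_nhds hq] with y h h' using h (sX A h')

theorem c7 (H : CS e d) (A : Atl e d a) {j} {q : Vg g × ℍ} (hq : q ∈ (a.gd d).Q j 1) :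
    q.1 ∈ (a.gd d).S j ↔ d.K (a.t j) (a.s j q.1) q.2 := by
  obtain ⟨h1, h2⟩ := memQ hq
  have : d.K (a.t j) (a.s j q.1) I ↔ d.K (a.t j) (a.s j q.1) q.2 :=
    (conn I (4 * a.σ j)).induction₂'
      (fun z w => d.K (a.t j) (a.s j q.1) z ↔ d.K (a.t j) (a.s j q.1) w)
      (fun z hz => ((H.kz (sX A h1) (A.pos j _ h1 z hz)).mono fun _ h => ⟨h.symm, h⟩).filter_mono
        nhdsWithin_le_nhds) (fun _ _ _ _ _ _ => Iff.trans)
      (mem_ball_self (by linarith [A.σ_pos j])) h2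
  exact ⟨fun h => this.1 h.2, fun h => ⟨h1, this.2 h⟩⟩

end C4

open C4 in
theorem Atl.classes (H : CS e d) (A : Atl e d a) :
    (∀ j, MeasurableSet ((a.gd d).S j)) ∧
    (∀ j j' φ, ∀ q ∈ (a.gd d).W j j' φ, (a.gd d).Θ j j' φ q ∈ (a.gd d).W j' j φ⁻¹) ∧
    (∀ j j' j'' φ φ', ∀ q ∈ (a.gd d).W j j' φ, (a.gd d).Θ j j' φ q ∈ (a.gd d).W j' j'' φ' →
      q ∈ (a.gd d).W j j'' (φ * φ')) ∧
    (∀ j j' φ, IsOpen ((a.gd d).W j j' φ)) ∧
    (∀ j j' φ, ∀ q ∈ closure ((a.gd d).W j j' φ), q.1 ∈ (a.gd d).A j j' φ → q ∈ (a.gd d).Q j 1 →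
      (a.gd d).Θ j j' φ q ∈ (a.gd d).Q j' 1 → q ∈ (a.gd d).W j j' φ) ∧
    (∀ j j' (C C' : Set (Vg g × ℍ)), IsCompact C → IsCompact C' → C ⊆ (a.gd d).Q j 1 →
      C' ⊆ (a.gd d).Q j' 1 →
      {φ | ∃ q ∈ C, q ∈ (a.gd d).W j j' φ ∧ (a.gd d).Θ j j' φ q ∈ C'}.Finite) ∧
    (∀ j, ∀ q ∈ (a.gd d).Q j 1, (q.1 ∈ (a.gd d).S j ↔ d.K (a.t j) (a.s j q.1) q.2)) ∧
    (∀ j, ∀ q ∈ (a.gd d).Q j 1, q.1 ∈ (a.gd d).S j →
      ∃ j' φ, q ∈ (a.gd d).W j j' φ ∧ (a.gd d).Θ j j' φ q ∈ (a.gd d).Q j' (1 / 8)) ∧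
    (∀ j j' φ, ∀ q ∈ (a.gd d).W j j' φ, q ∈ (a.gd d).Q j 1 →
      (a.gd d).Θ j j' φ q ∈ (a.gd d).Q j' 1 →
      (q.1 ∈ (a.gd d).S j ↔ (a.gd d).τ j j' φ q.1 ∈ (a.gd d).S j')) := by
  obtain ⟨a1, -, -, a4, a5, -⟩ := A.arrows
  refine ⟨fun j => ?_, ?_, ?_, fun j j' φ => isOpen_iff_mem_nhds.2 ?_, ?_, ?_,
    fun j q hq => c7 H A hq, fun j q hq hS => ?_, ?_⟩
  · have := measurableSet_ball.subtype_image
      ((A.sl j).contOn.domRestrict.measurable (H.mK (a.t j) I))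
    convert this using 1
    ext x
    exact ⟨fun h => ⟨⟨x, h.1⟩, h.2, rfl⟩, by rintro ⟨y, h, rfl⟩; exact ⟨y.2, h⟩⟩
  · rintro j j' φ q ⟨h1, ψ, h2, h3⟩
    exact ⟨(a4 j j' φ q.1 h1).1, ψ.symm, h2.symm, H.cA (lk A h1 h2) (H.inv h3)⟩
  · rintro j j' j'' φ φ' q ⟨h1, ψ, h2, h3⟩ ⟨k1, ψ', k2, k3⟩
    refine ⟨(a5 j j' j'' φ φ' q.1 h1 k1).1, _, h2.trans k2, H.comp h3 ?_⟩
    simpa only [En.GD.Θ, inv_smul_smul] using H.cA (lk A h1 h2).symm k3
  · rintro q ⟨h1, ψ, h2, h3⟩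
    filter_upwards [ev H A h1.1 h2.1 (H.aP h3).2.2.1 (H.aP h3).2.2.2,
      ((a1 j j' φ).preimage continuous_fst).mem_nhds h1] with y h h' using ⟨h', ψ, h2, h.2 h3⟩
  · intro j j' φ q hq h1 h2 h3
    obtain ⟨hb, ψ, hψ, -⟩ := spec h1
    have p1 := H.cP (sX A hb) (lk A h1 hψ).symm (A.pos j' _ hb _ (memQ h3).2)
    simp only [En.GD.Θ, inv_smul_smul] at p1
    obtain ⟨y, ⟨-, ψ', k1, k2⟩, k3⟩ := ((mem_closure_iff_frequently.1 hq).and_eventually
      (ev H A h1.1 hψ.1 (A.pos j _ h1.1 _ (memQ h2).2) p1)).exists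
    exact ⟨h1, ψ, hψ, k3.1 (H.nA k1 hψ k2)⟩
  · intro j j' C C' hC hC' sC sC'
    refine (H.fin (a.t j) (a.t j') _ _
      (hC.image_of_continuousOn fun q hq => (ct A (memQ (sC hq)).1).continuousWithinAt)
      (hC'.image_of_continuousOn fun q hq => (ct A (memQ (sC' hq)).1).continuousWithinAt)
      ?_).subset ?_
    · rintro _ ⟨q, hq, rfl⟩
      exact ⟨sX A (memQ (sC hq)).1, A.pos j _ (memQ (sC hq)).1 _ (memQ (sC hq)).2⟩
    · rintro φ ⟨q, hq, ⟨h1, ψ, h2, h3⟩, h4⟩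
      exact ⟨ψ, h2, _, ⟨q, hq, rfl⟩, _, ⟨_, h4, rfl⟩, _, h3, lk A h1 h2, rfl⟩
  · obtain ⟨j', ψ, k, x, h1, h2, h3, h4⟩ := A.cov _ _ _ ((c7 H A hq).1 hS)
    obtain ⟨φ, hφ⟩ := exists_ind (H.aP h2).1
    have hl : a.Lk j j' φ q.1 (x, k) :=
      ⟨ball_subset_ball (by linarith only [A.r_pos j']) h1, ψ, hφ, h3⟩
    have hA : q.1 ∈ (a.gd d).A j j' φ := ⟨hS.1, _, hl⟩
    obtain ⟨e1, e2⟩ := A.lk_unique hS.1 (spec hA) hl
    refine ⟨j', φ, ⟨hA, ψ, hφ, h2⟩, ?_, ?_⟩
    · exact e1 ▸ h1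
    · exact (congrArg (· ∈ ball I (1 / 8 * (4 * a.σ j'))) (pm_smul e2 q.2)).mpr h4
  · rintro j j' φ q ⟨h1, ψ, h2, h3⟩ k1 k2
    refine (c7 H A k1).trans (Iff.trans ⟨fun h => H.kC (lk A h1 h2) (H.kA h3 h), fun h => ?_⟩
      (c7 H A k2).symm)
    have := H.kC (lk A h1 h2).symm h
    simp only [inv_smul_smul] at this
    simpa only [act_symm] using H.kA (H.inv h3) this

end Pool.Agent.MP_596265_gt.U

/-! Block A, row C5: the tangent space of a slice is a complement of the coboundaries. -/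

namespace Pool.Agent.MP_596265_gt.U

open Filter Topology Set Metric Erg
open scoped ContDiff

variable {g : ℕ} {e : ℤ}

namespace C5s

theorem coc_fox (M : Tup g) (U : Coch g) {k : ℕ} (hk : k ≤ g) :
    coc M U (relPre g k) = fox M (fun x => ad (M x)⁻¹ (U x)) k := by
  induction k with
  | zero => simp only [relPre, List.take_zero, List.map_nil, List.prod_nil, coc_one, fox, not_lt_zero, ↓ reduceIte, Finset.sum_const_zero]
  | succ n ih =>
    refine (congrArg _ (relPre_succ ⟨n, hk⟩)).trans (Eq.trans ?_ (xf_fox M _ ⟨n, hk⟩).symm)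
    rw [coc_mul, ih (by omega), ← pre_eq]
    congr 2
    simp only [comm, coc_mul, coc_inv, coc_of, map_inv, FreeGroup.lift_apply_of, dd, ha, hb,
      ad_add, ad_sub, ad_neg, ← ad_mul, mul_assoc, mul_inv_cancel_left, mul_inv_cancel, mul_one,
      ad_one]
    abel

theorem ker {M : Tup g} (h : PM (pre M g) 1) {U : Coch g} (hU : Z1 M U) :
    fderiv ℝ fE (io M) (fun x i j => (U x * (M x : Mat)) i j) = 0 := by
  have := (ker_iff h fun x => ad (M x)⁻¹ (U x)).2 ⟨fun x => (ad_trace _ _).trans (hU.1 x),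
    (coc_fox M U le_rfl).symm.trans hU.2⟩
  convert this using 2
  funext x
  unfold tv
  simp only [ad, inv_inv, Matrix.mul_assoc, xf_can']

theorem zm_surj {Y : Mat} (h : Y.trace = 0) : ∃ p, zm p = Y := by
  rw [Matrix.trace_fin_two] at h
  refine ⟨(Y 0 0, Y 0 1, Y 1 0), ?_⟩
  ext i j
  fin_cases i <;> fin_cases j <;> simp [zm]
  linarith

end C5s

open C5s in
/-- The tangent space of the slice is a complement of the coboundaries. -/
theorem Slice.split {s : Vg g → Tup g} {B : Set (Vg g)} {U : Set G} {O : Set (Tup g)}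
    {T : Tup g → Vg g} {h : Tup g → G} {x : Vg g} (S : Slice e s B U O T h) (hx : x ∈ B) :
    (∀ u, Z1 (s x) u → ∃ (v : Vg g) (Y : Mat), Y.trace = 0 ∧ u = vel s x v + cob (s x) Y) ∧
    ∀ (v : Vg g) (Y : Mat), Y.trace = 0 → vel s x v = cob (s x) Y → v = 0 := by
  obtain ⟨T', eT, hT⟩ := S.smT
  obtain ⟨P, eP, hP⟩ := S.smh
  obtain ⟨o1, o2, -, -⟩ := S.self hx
  have ds := ((S.sm x hx).differentiableAt (by simp)).hasFDerivAt
  have da := (sc_cjE (n := 1).differentiable one_ne_zero ((0 : ℝ × ℝ × ℝ), io (s x))).hasFDerivAt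
  obtain ⟨D, hD, eD⟩ : ∃ D : Vg g × ℝ × ℝ × ℝ →L[ℝ] Amb g, HasFDerivAt
      (fun q : Vg g × ℝ × ℝ × ℝ => cjE (kp q.2) (io (s q.1))) D (x, 0) ∧ ∀ v p y,
        Matrix.of (D (v, p) y) = (vel s x v y + cob (s x) (zm p) y) * (s x y : Mat) := by
    refine ⟨_, HasFDerivAt.comp (f := fun q : Vg g × ℝ × ℝ × ℝ => (q.2, io (s q.1))) (x, 0) da
      (hasFDerivAt_snd.prodMk (HasFDerivAt.comp (g := fun x => io (s x)) (x, 0) ds hasFDerivAt_fst)),
      fun v p y => ?_⟩
    have h1 : HasFDerivAt (fun m : Amb g => cjE (kp 0) m) _ (io (s x)) :=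
      da.comp (io (s x)) (hasFDerivAt_prodMk_right (0 : ℝ × ℝ × ℝ) (io (s x)))
    simp only [kp_zero, cjE_one] at h1
    have h2 := congrArg (· (fderiv ℝ (fun x => io (s x)) x v)) (h1.unique (hasFDerivAt_id _))
    simp only [ContinuousLinearMap.comp_apply, ContinuousLinearMap.inr_apply,
      ContinuousLinearMap.id_apply] at h2
    simp only [ContinuousLinearMap.comp_apply, ContinuousLinearMap.prod_apply,
      ContinuousLinearMap.coe_snd', ContinuousLinearMap.coe_fst']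
    rw [← Prod.fst_add_snd (p, fderiv ℝ (fun x => io (s x)) x v), map_add, h2, cjE_deriv]
    simp only [vel, cob, ad, Matrix.add_mul, Matrix.sub_mul, Matrix.mul_assoc, xf_inv,
      Matrix.mul_one]
    exact add_comm _ _
  have ev : ∀ᶠ q : Vg g × ℝ × ℝ × ℝ in 𝓝 (x, 0), q.1 ∈ B ∧ kp q.2 ∈ U :=
    (continuousAt_fst.eventually (S.oB.mem_nhds hx)).and
      ((continuous_kp.comp continuous_snd).continuousAt.eventually
        (S.oU.mem_nhds (by simpa [kp_zero] using S.one)))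
  have e0 : cjE (kp 0) (io (s x)) = io (s x) := by rw [kp_zero, cjE_one]
  have inj : Function.Injective D := by
    have h1 := (((hT _ o1).prodMk (hP _ o1)).differentiableAt (by simp)).hasFDerivAt
    have h2 := (HasFDerivAt.comp (x, (0 : ℝ × ℝ × ℝ)) (e0.symm ▸ h1) hD).unique
      ((hasFDerivAt_id _).congr_of_eventuallyEq (ev.mono fun q hq => by
        obtain ⟨-, -, c, d⟩ := S.fwd _ hq.1 _ hq.2
        refine Prod.ext ?_ ?_
        · simpa only [eT, cjE_io, Function.comp_def, id] using c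
        · simpa only [eP, ki_kp, cjE_io, Function.comp_def, id] using congrArg ki d))
    exact Function.LeftInverse.injective fun q => congrArg (· q) h2
  have can : ∀ {A A' : Mat} y, A * (s x y : Mat) = A' * (s x y : Mat) → A = A' := fun y H => by
    simpa only [Matrix.mul_assoc, xf_inv', Matrix.mul_one] using
      congrArg (· * (((s x y)⁻¹ : G) : Mat)) H
  refine ⟨fun u hu => ?_, fun v Y hY H => ?_⟩
  · have na : NA (s x) := by
      by_contra hn
      simp only [NA, not_exists, not_not] at hn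
      have z : ∀ Y : Mat, Y.trace = 0 → (∀ y, Y * (s x y : Mat) = s x y * Y) → Y = 0 :=
        fun Y hY H => by
          obtain ⟨p, rfl⟩ := zm_surj hY
          have : D (0, p) = D 0 := by
            funext y
            rw [map_zero]
            refine (eD 0 p y).trans ?_
            simp only [vel, map_zero, cob, ad, ← H y, Matrix.mul_assoc, xf_inv']
            simp
            rfl
          rw [show p = 0 from congrArg Prod.snd (inj this)]
          ext i j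
          fin_cases i <;> fin_cases j <;> simp [zm]
      have := z !![1, 0; 0, -1] (by simp) fun y => by
        have := z (tl (s x y)) (by simp only [tl, tr, Fin.isValue, Matrix.trace_sub, Matrix.trace_fin_two, Matrix.trace_smul, Matrix.trace_one, Fintype.card_fin, Nat.cast_ofNat, smul_eq_mul, isUnit_iff_ne_zero, ne_eq, OfNat.ofNat_ne_zero, not_false_eq_true, IsUnit.div_mul_cancel, sub_self]) fun y' => by
          have := congrArg Subtype.val (hn y y')
          simp only [Matrix.SpecialLinearGroup.coe_mul] at this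
          simp only [tl, Matrix.sub_mul, Matrix.mul_sub, Matrix.smul_mul, Matrix.mul_smul,
            Matrix.one_mul, Matrix.mul_one, this]
        rw [sub_eq_zero.1 this, Matrix.smul_mul, Matrix.mul_smul, Matrix.one_mul, Matrix.mul_one]
      simpa using congrFun (congrFun this 0) 0
    have hg : 1 ≤ g := na.elim fun y _ => y.1.pos
    have hk := ms_ker (fE_surj (X_pm o2) na) (finrank_amb hg)
    have le : LinearMap.range (D : Vg g × ℝ × ℝ × ℝ →ₗ[ℝ] Amb g) ≤ (fderiv ℝ fE (io (s x))).ker := by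
      rintro _ ⟨q, rfl⟩
      have h1 := (contDiff_fE.differentiable one_ne_zero (io (s x))).hasFDerivAt
      have h2 : HasFDerivAt fE (fderiv ℝ fE (io (s x))) (cjE (kp 0) (io (s x))) := by rwa [e0]
      exact congrArg (· q) ((HasFDerivAt.comp (x, (0 : ℝ × ℝ × ℝ)) h2 hD).unique
        ((hasFDerivAt_const (fE (io (s x))) _).congr_of_eventuallyEq (ev.mono fun q hq => by
          simpa only [cjE_io, Function.comp_def] using xn_fE o2 (S.fwd _ hq.1 _ hq.2).2.1)))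
    have eq := Submodule.eq_of_le_of_finrank_eq le (by
      rw [hk, LinearMap.finrank_range_of_inj inj]
      simp only [Module.finrank_prod, finrank_euclideanSpace, Fintype.card_fin, Module.finrank_self, Nat.reduceAdd]
      omega)
    obtain ⟨⟨v, p⟩, hq⟩ := eq.ge (ker (X_pm o2) hu)
    exact ⟨v, zm p, by simp [zm], funext fun y =>
      can y ((congrFun hq y).symm.trans (eD v p y))⟩
  · obtain ⟨p, hp⟩ := zm_surj (Y := -Y) (by rw [Matrix.trace_neg, hY, neg_zero])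
    have : D (v, p) = D 0 := by
      funext y
      rw [map_zero]
      refine (eD v p y).trans ?_
      rw [H, hp]
      simp only [cob, ad_neg]
      simp
      rfl
    exact congrArg Prod.fst (inj this)

end Pool.Agent.MP_596265_gt.U

/-! Block A, row C5: velocities and the symplectic matrix. -/

namespace Pool.Agent.MP_596265_gt.U

open Filter Topology Set Metric Erg
open scoped ContDiff

variable {g : ℕ} {e : ℤ}

namespace C5t

/-- Logarithmic derivative of a curve in the group. -/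
def Dv (c : ℝ → G) (U : Mat) : Prop :=
  ∀ i j, HasDerivAt (fun t => c t i j) ((U * (c 0 : Mat)) i j) 0

variable {c d : ℝ → G} {U V : Mat}

theorem Dv.of {A : Mat} (h : ∀ i j, HasDerivAt (fun t => c t i j) (A i j) 0) :
    Dv c (A * (((c 0)⁻¹ : G) : Mat)) := fun i j => by
  rw [Matrix.mul_assoc, xf_inv, Matrix.mul_one]; exact h i j
theorem Dv.const (k : G) : Dv (fun _ => k) 0 := fun i j => by
  simpa using hasDerivAt_const (0 : ℝ) (k i j)
theorem Dv.neg (h : Dv c U) : Dv (fun t => -c t) U := fun i j => by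
  simpa only [Matrix.SpecialLinearGroup.coe_neg, Matrix.neg_apply, mul_neg] using (h i j).fun_neg
theorem Dv.mul (h : Dv c U) (h' : Dv d V) : Dv (fun t => c t * d t) (U + ad (c 0) V) :=
  fun i j => by
    have e1 : (U + ad (c 0) V) * ((c 0 * d 0 : G) : Mat) =
        U * (c 0 : Mat) * d 0 + (c 0 : Mat) * (V * d 0) := by
      simp only [ad, Matrix.SpecialLinearGroup.coe_mul, Matrix.add_mul, Matrix.mul_assoc, xf_can]
    simp only [basic_mul, e1]
    refine (((h i 0).fun_mul (h' 0 j)).fun_add ((h i 1).fun_mul (h' 1 j))).congr_deriv ?_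
    rw [Matrix.add_apply, Matrix.mul_apply (M := U * (c 0 : Mat)), Matrix.mul_apply (M := (c 0 : Mat)),
      Fin.sum_univ_two, Fin.sum_univ_two]
    ring
theorem Dv.cont (h : Dv c U) : ContinuousAt c 0 :=
  Topology.IsInducing.subtypeVal.continuousAt_iff.2
    (continuousAt_pi.2 fun i => continuousAt_pi.2 fun j => (h i j).continuousAt)
theorem Dv.uniq (h : Dv c U) (h' : Dv d V) (H : c =ᶠ[𝓝 0] d) : U = V := by
  have : U * (c 0 : Mat) = V * (d 0 : Mat) := Matrix.ext fun i j =>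
    (h i j).unique ((h' i j).congr_of_eventuallyEq (H.mono fun t ht => by simp only [ht]))
  simpa only [← H.self_of_nhds, Matrix.mul_assoc, xf_inv', Matrix.mul_one] using
    congrArg (· * (((c 0)⁻¹ : G) : Mat)) this
theorem Dv.pm (h : Dv c U) (h' : Dv d V) (H : ∀ᶠ t in 𝓝 0, PM (c t) (d t)) : U = V := by
  have key : ∀ {d : ℝ → G}, Dv d V → (∀ᶠ t in 𝓝 0, PM (c t) (d t)) → c 0 = d 0 → U = V :=
    fun {d} h' H e0 => h.uniq h' (by
      filter_upwards [H, (h.cont.prodMk h'.neg.cont).eventually (isClosed_diagonal.isOpen_compl.mem_nhds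
        (show c 0 ≠ -d 0 from e0 ▸ Sx.ne_neg_self _))] with t a b using a.resolve_right b)
  rcases H.self_of_nhds with e0 | e0
  exacts [key h' H e0, key h'.neg (H.mono fun t a => a.trans (.inr (neg_neg _).symm)) e0]
theorem Dv.inv (h : Dv c U) : Dv (fun t => (c t)⁻¹) (-ad (c 0)⁻¹ U) := by
  have h1 : ∀ i j, HasDerivAt (fun t => (c t)⁻¹ i j) ((U * (c 0 : Mat)).adjugate i j) 0 := by
    intro i j
    simp only [Matrix.SpecialLinearGroup.coe_inv, Matrix.adjugate_fin_two]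
    fin_cases i <;> fin_cases j
    exacts [h 1 1, (h 0 1).neg, (h 1 0).neg, h 0 0]
  have h2 := Dv.of h1
  have h3 := (h.mul h2).uniq (Dv.const 1) (.of_forall fun t => mul_inv_cancel _)
  rw [← ad_neg, neg_eq_of_add_eq_zero_right h3, ad_inv_ad]
  exact h2
theorem Dv.trace (h : Dv c U) : U.trace = 0 := by
  have h1 := (((h 0 0).fun_mul (h 1 1)).fun_sub ((h 0 1).fun_mul (h 1 0))).unique
    ((hasDerivAt_const (0 : ℝ) (1 : ℝ)).congr_of_eventuallyEq (.of_forall fun t => basic_det (c t)))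
  simp only [Matrix.mul_apply, Fin.sum_univ_two] at h1
  rw [Matrix.trace_fin_two]
  linear_combination h1 - (U 0 0 + U 1 1) * basic_det (c 0)
theorem dv_lift {s : ℝ → Tup g} {u : Coch g} (h : ∀ y, Dv (fun t => s t y) (u y)) (w : Fr g) :
    Dv (fun t => FreeGroup.lift (s t) w) (coc (s 0) u w) := by
  induction w using FreeGroup.induction_on with
  | C1 => simpa using Dv.const 1
  | of y => simpa using h y
  | inv_of y ih => simpa only [map_inv, coc_inv] using ih.inv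
  | mul a b h1 h2 => simpa only [map_mul, coc_mul] using h1.mul h2
theorem dv_vel {s : Vg g → Tup g} {γ : ℝ → Vg g} {v : Vg g} (hγ : HasDerivAt γ v 0)
    (hs : ContDiffAt ℝ ω (fun x => io (s x)) (γ 0)) (y : Gen g) :
    Dv (fun t => s (γ t) y) (vel s (γ 0) v y) := Dv.of fun i j =>
  hasDerivAt_pi.1 (hasDerivAt_pi.1 (hasDerivAt_pi.1
    ((hs.differentiableAt (by simp)).hasFDerivAt.comp_hasDerivAt 0 hγ) y) i) j
theorem line (x v : Vg g) : HasDerivAt (fun t : ℝ => x + t • v) v 0 := by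
  simpa using ((hasDerivAt_id (0 : ℝ)).smul_const v).const_add x

variable {E : Type} [NormedAddCommGroup E] [NormedSpace ℝ E] {x : E} {n : WithTop ℕ∞}

/-- Smooth families of matrices. -/
def Sa (n : WithTop ℕ∞) (A : E → Mat) (x : E) : Prop := ∀ i l, ContDiffAt ℝ n (fun y => A y i l) x

theorem Sa.mul {A B : E → Mat} (h : Sa n A x) (h' : Sa n B x) : Sa n (fun y => A y * B y) x :=
  fun i j => by
    simp only [Matrix.mul_apply, Fin.sum_univ_two]
    exact ((h i 0).mul (h' 0 j)).add ((h i 1).mul (h' 1 j))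
theorem Sa.ad {k : E → G} {B : E → Mat} (h : C3.Sm n k x) (h' : Sa n B x) :
    Sa n (fun y => ad (k y) (B y)) x := Sa.mul (Sa.mul h h') h.inv
theorem Sa.tr {A : E → Mat} (h : Sa n A x) : ContDiffAt ℝ n (fun y => (A y).trace) x := by
  simp only [Matrix.trace_fin_two]
  exact (h 0 0).add (h 1 1)
theorem sa_coc {s : E → Tup g} {u : E → Coch g} (hs : ∀ z, C3.Sm n (fun y => s y z) x)
    (hu : ∀ z, Sa n (fun y => u y z) x) (w : Fr g) : Sa n (fun y => coc (s y) (u y) w) x := by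
  induction w using FreeGroup.induction_on with
  | C1 =>
    simp only [coc_one]
    exact fun _ _ => contDiffAt_const
  | of z => simpa using hu z
  | inv_of z ih =>
    simp only [coc_inv]
    exact fun i l => (Sa.ad (C3.sm_lift hs _).inv ih i l).neg
  | mul a b h1 h2 =>
    simp only [coc_mul]
    exact fun i l => (h1 i l).add (Sa.ad (C3.sm_lift hs _) h2 i l)
theorem sm_cup {s : E → Tup g} {u v : E → Coch g} (hs : ∀ z, C3.Sm n (fun y => s y z) x)
    (hu : ∀ z, Sa n (fun y => u y z) x) (hv : ∀ z, Sa n (fun y => v y z) x) (w : Fr g) :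
    ContDiffAt ℝ n (fun y => cup (s y) (u y) (v y) w) x := by
  induction w using FreeGroup.induction_on with
  | C1 => simpa using contDiffAt_const
  | of z => simpa using contDiffAt_const
  | inv_of z ih =>
    simp only [cup_inv]
    exact ((sa_coc hs hu _).mul (sa_coc hs hv _)).tr.sub ih
  | mul a b h1 h2 =>
    simp only [cup_mul]
    exact (h1.add h2).add ((sa_coc hs hu _).mul (Sa.ad (C3.sm_lift hs _) (sa_coc hs hv _))).tr

end C5t

open C5t

variable {s s' : Vg g → Tup g} {B : Set (Vg g)} {U : Set G} {O : Set (Tup g)} {T : Tup g → Vg g}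
  {h : Tup g → G} {x : Vg g}

theorem vel_add (v w : Vg g) : vel s x (v + w) = vel s x v + vel s x w := by
  funext y
  simp only [vel, map_add, Pi.add_apply, Matrix.add_mul, ← Matrix.of_add_of]
theorem vel_smul (r : ℝ) (v : Vg g) : vel s x (r • v) = r • vel s x v := by
  funext y
  simp only [vel, map_smul, Pi.smul_apply, ← Matrix.smul_mul, Matrix.smul_of]
theorem vel_sm (hs : ContDiffAt ℝ ω (fun x => io (s x)) x) (v : Vg g) (y i j) :
    ContDiffAt ℝ ω (fun x => vel s x v y i j) x :=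
  Sa.mul (fun i l => contDiffAt_pi.1 (contDiffAt_pi.1 (contDiffAt_pi.1
    ((hs.fderiv_right (m := ω) le_rfl).clm_apply contDiffAt_const) y) i) l)
    (C3.sm_iff.1 hs y).inv i j
theorem vel_Z1 (hs : ContDiffAt ℝ ω (fun x => io (s x)) x) (hX : ∀ᶠ y in 𝓝 x, s y ∈ X g e)
    (v : Vg g) : Z1 (s x) (vel s x v) := by
  have h1 := dv_vel (line x v) (by simpa using hs)
  have h2 := (dv_lift h1 (relPre g g)).pm (Dv.const 1) (((line x v).continuousAt.tendsto.eventually
    (by simpa only [zero_smul, add_zero] using hX)).mono fun t ht => pre_eq (s (x + t • v)) g ▸ X_pm ht)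
  simp only [zero_smul, add_zero] at h1 h2
  exact ⟨fun y => (h1 y).trace, h2⟩
/-- Velocity along an arrow. -/
theorem vel_arrow (hs : ContDiffAt ℝ ω (fun x => io (s x)) x) {t : Vg g → Vg g} {k : Vg g → G}
    (ht : ContDiffAt ℝ ω t x) (hk : ∀ i l, ContDiffAt ℝ ω (fun y => k y i l) x)
    (hs' : ContDiffAt ℝ ω (fun x => io (s' x)) (t x)) {ψ : AutF g}
    (hc : ∀ᶠ y in 𝓝 x, Cj (k y) (act ψ (s y)) (s' (t y))) (v : Vg g) :
    ∃ Y : Mat, Y.trace = 0 ∧ vel s' (t x) (fderiv ℝ t x v) =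
      (fun y => ad (k x) (aU ψ (s x) (vel s x v) y)) + cob (s' (t x)) Y := by
  have l := line x v
  have e0 : x + (0 : ℝ) • v = x := by simp
  have h1 := dv_vel l (e0.symm ▸ hs)
  have h2 := dv_vel (s := s') (γ := fun r => t (x + r • v)) (HasFDerivAt.comp_hasDerivAt_of_eq _
    (ht.differentiableAt (by simp)).hasFDerivAt l e0.symm) (e0.symm ▸ hs')
  have h3 := Dv.of (c := fun r => k (x + r • v)) (A := Matrix.of fun i j =>
    fderiv ℝ (fun y => k y i j) x v) fun i j => HasFDerivAt.comp_hasDerivAt_of_eq _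
      ((hk i j).differentiableAt (by simp)).hasFDerivAt l e0.symm
  refine ⟨_, h3.trace, funext fun y => ?_⟩
  have h4 := (h2 y).pm ((h3.mul (dv_lift h1 (ψ (.of y)))).mul h3.inv)
    ((l.continuousAt.tendsto.eventually (e0.symm ▸ hc)).mono fun r hr => hr y)
  simp only [e0] at h4 ⊢
  rw [h4, Pi.add_apply, cob, ad_PM (hc.self_of_nhds y), ad_neg, ← ad_mul]
  exact (add_right_comm _ _ _).trans ((add_comm _ _).trans (by rw [sub_eq_add_neg]; rfl))
theorem Ωm_sm (hs : ContDiffAt ℝ ω (fun x => io (s x)) x) (i j) :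
    ContDiffAt ℝ ω (fun x => Ωm s x i j) x :=
  sm_cup (C3.sm_iff.1 hs) (vel_sm hs _) (vel_sm hs _) _
theorem omg_vel (v w : Vg g) : omg (s x) (vel s x v) (vel s x w) =
    ∑ i, ∑ j, v i * Ωm s x i j * w j := by
  let L : Vg g →ₗ[ℝ] Coch g := ⟨⟨vel s x, vel_add⟩, vel_smul⟩
  have e1 : ∀ v : Vg g, v = ∑ i, v i • eb i := fun v => by
    simpa only [eb, EuclideanSpace.basisFun_repr, EuclideanSpace.basisFun_apply] using ((EuclideanSpace.basisFun _ ℝ).sum_repr v).symm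
  change omL (s x) (L v) (L w) = ∑ i, ∑ j, v i * omL (s x) (L (eb i)) (L (eb j)) * w j
  conv_lhs => rw [e1 v, e1 w]
  simp only [map_sum, map_smul, LinearMap.sum_apply, LinearMap.smul_apply, smul_eq_mul,
    Finset.mul_sum]
  rw [Finset.sum_comm]
  exact Finset.sum_congr rfl fun i _ => Finset.sum_congr rfl fun j _ => by ring
theorem Slice.det_ne (S : Slice e s B U O T h) (hx : x ∈ B) : (Ωm s x).det ≠ 0 := by
  intro hd
  obtain ⟨v, hv, h0⟩ := Matrix.exists_vecMul_eq_zero_iff.2 hd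
  have z := vel_Z1 (S.sm x hx) ((S.oB.eventually_mem hx).mono fun y hy => (S.self hy).2.1)
    (WithLp.toLp 2 v)
  obtain ⟨Y, hY, e1⟩ := omg_nondeg z.1 fun u hu => by
    obtain ⟨w, Y, -, rfl⟩ := (S.split hx).1 u hu
    rw [omg_add_right, omg_vel, omg_cob_right, z.2, Finset.sum_comm]
    have : ∀ j, ∑ i, v i * Ωm s x i j = 0 := fun j => congrFun h0 j
    simp only [← Finset.sum_mul, this, zero_mul, Finset.sum_const_zero, Matrix.trace_zero, neg_zero, add_zero]
  exact hv (congrArg WithLp.ofLp ((S.split hx).2 _ Y hY e1))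

end Pool.Agent.MP_596265_gt.U

namespace Pool.Agent.MP_596265_gt.U

open Filter Topology MeasureTheory Set Metric Erg UpperHalfPlane
open scoped ContDiff

variable {g : ℕ} {𝒯 J : Type} {e : ℤ} {d : CD g 𝒯} {a : AD g 𝒯 J}

namespace C6

theorem det_cd {n : Type} [Fintype n] [DecidableEq n] {A : Vg g → Matrix n n ℝ} {x : Vg g}
    (h : ∀ i j, ContDiffAt ℝ ω (fun x => A x i j) x) :
    ContDiffAt ℝ ω (fun x => (A x).det) x := by
  simp only [Matrix.det_apply']
  exact ContDiffAt.sum fun σ _ => contDiffAt_const.mul (contDiffAt_prod fun i _ => h _ _)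

/-- Near a point of its domain an arrow is given by one automorphism and analytic data. -/
theorem loc (A : Atl e d a) {j j' φ x} (hx : x ∈ (a.gd d).A j j' φ) :
    ∃ (t : Vg g → Vg g) (k : Vg g → G) (ψ : AutF g), Ind ψ φ ∧ ContDiffAt ℝ ω t x ∧
      (∀ i l, ContDiffAt ℝ ω (fun y => k y i l) x) ∧ t x ∈ ball 0 (a.r j') ∧
      (∀ᶠ y in 𝓝 x, Cj (k y) (act ψ (a.s j y)) (a.s j' (t y))) ∧
      (a.gd d).τ j j' φ =ᶠ[𝓝 x] t := by
  obtain ⟨hx, p, hp⟩ := hx
  obtain ⟨t, k, h1, -, ht, hk, hev⟩ := A.lk_loc hx hp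
  obtain ⟨hb, ψ, hψ, -⟩ := hp
  have hB := isOpen_ball.eventually_mem hx
  refine ⟨t, k, ψ, hψ, ht, hk, h1 ▸ hb, ?_, ?_⟩
  · filter_upwards [hev, hB] with y hy hyB
    obtain ⟨-, ψ', hψ', hc⟩ := hy
    simpa only [mul_one] using (hψ.cj hψ' ((A.sl j).self hyB).2.1).trans hc
  · filter_upwards [hev, hB] with y hy hyB
    exact (A.lk_unique hyB (Classical.epsilon_spec ⟨_, hy⟩) hy).1

/-- The symplectic form is preserved along an arrow. -/
theorem omg_arrow {s s' : Vg g → Tup g} {x : Vg g} (hs : ContDiffAt ℝ ω (fun x => io (s x)) x)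
    (hX : ∀ᶠ y in 𝓝 x, s y ∈ X g e) {t : Vg g → Vg g} {k : Vg g → G}
    (ht : ContDiffAt ℝ ω t x) (hk : ∀ i l, ContDiffAt ℝ ω (fun y => k y i l) x)
    (hs' : ContDiffAt ℝ ω (fun x => io (s' x)) (t x)) (hX' : ∀ᶠ y in 𝓝 (t x), s' y ∈ X g e)
    {ψ : AutF g} (hψ : AutR ψ) (hc : ∀ᶠ y in 𝓝 x, Cj (k y) (act ψ (s y)) (s' (t y)))
    (v w : Vg g) :
    omg (s' (t x)) (vel s' (t x) (fderiv ℝ t x v)) (vel s' (t x) (fderiv ℝ t x w)) =
      omg (s x) (vel s x v) (vel s x w) := by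
  have hR := X_pm hX.self_of_nhds
  have hv := vel_Z1 hs hX v
  have hw := vel_Z1 hs hX w
  have hp : ∀ y, PM (s' (t x) y) (cj (k x) (act ψ (s x) y)) := hc.self_of_nhds
  obtain ⟨Y, -, e1⟩ := vel_arrow hs ht hk hs' hc v
  obtain ⟨Y', -, e2⟩ := vel_arrow hs ht hk hs' hc w
  have z1 : coc (s' (t x)) (fun y => ad (k x) (aU ψ (s x) (vel s x v) y)) (relPre g g) = 0 :=
    (((hv.act hψ hR).cj (k x)).PM hp).2
  rw [e1, omg_add_left, omg_cob_left, (vel_Z1 hs' hX' _).2, e2, omg_add_right, omg_cob_right, z1,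
    omg_PM hp, omg_cj, mul_zero, zero_mul, Matrix.trace_zero, neg_zero, add_zero, add_zero]
  exact omg_act hψ hR hv.2 hw.2

theorem det_mat (D : Vg g →L[ℝ] Vg g) : (Matrix.of fun i j => D (eb j) i).det = D.det := by
  rw [ContinuousLinearMap.det, ← LinearMap.det_toMatrix (EuclideanSpace.basisFun _ ℝ).toBasis]
  congr 1

end C6

open C6 in
theorem Atl.dens (A : Atl e d a) :
    (∀ j, ContDiffOn ℝ 2 ((a.gd d).ν j) (ball 0 (a.r j))) ∧
    (∀ j, ∀ x ∈ ball 0 (a.r j), 0 < (a.gd d).ν j x) ∧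
    ∀ j j' φ, ∀ x ∈ (a.gd d).A j j' φ, (a.gd d).ν j x =
      |(fderiv ℝ ((a.gd d).τ j j' φ) x).det| * (a.gd d).ν j' ((a.gd d).τ j j' φ x) := by
  have hX : ∀ j, ∀ x ∈ ball 0 (a.r j), ∀ᶠ y in 𝓝 x, a.s j y ∈ X g e := fun j x hx =>
    (isOpen_ball.eventually_mem hx).mono fun y hy => ((A.sl j).self hy).2.1
  refine ⟨fun j x hx => ?_, fun j x hx => Real.sqrt_pos.2 (abs_pos.2 ((A.sl j).det_ne hx)),
    fun j j' φ x hx => ?_⟩
  · have h0 := (A.sl j).det_ne hx
    have h1 : ContDiffAt ℝ 2 (fun x => (Ωm (a.s j) x).det) x :=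
      (det_cd fun i l => Ωm_sm ((A.sl j).sm x hx) i l).of_le le_top
    exact ((h1.abs h0).sqrt (abs_ne_zero.2 h0)).contDiffWithinAt
  · obtain ⟨t, k, ψ, hψ, ht, hk, hb, hc, he⟩ := loc A hx
    have h1 : Ωm (a.s j) x = (Matrix.of fun i l => fderiv ℝ t x (eb l) i).transpose *
        Ωm (a.s j') (t x) * Matrix.of fun i l => fderiv ℝ t x (eb l) i := by
      ext i l
      rw [Ωm, Matrix.of_apply, ← omg_arrow ((A.sl j).sm x hx.1) (hX j x hx.1) ht hk
        ((A.sl j').sm _ hb) (hX j' _ hb) hψ.1 hc, omg_vel, Finset.sum_comm]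
      simp only [Matrix.mul_apply, Matrix.transpose_apply, Matrix.of_apply, Finset.sum_mul]
    rw [he.fderiv_eq, he.self_of_nhds]
    change √|(Ωm (a.s j) x).det| = _ * √|(Ωm (a.s j') (t x)).det|
    rw [h1, Matrix.det_mul, Matrix.det_mul, Matrix.det_transpose, det_mat, mul_right_comm, abs_mul,
      abs_mul, Real.sqrt_mul (mul_self_nonneg _), Real.sqrt_mul_self (abs_nonneg _)]

end Pool.Agent.MP_596265_gt.U

/-! Block A, row C7: the covariance. -/

namespace Pool.Agent.MP_596265_gt.U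

open Filter Topology MeasureTheory Set Metric Erg UpperHalfPlane
open scoped ContDiff

variable {g : ℕ} {𝒯 J : Type} {e : ℤ} {d : CD g 𝒯} {a : AD g 𝒯 J}

namespace C7

section mat
variable {P n : Type} [NormedAddCommGroup P] [NormedSpace ℝ P] [Fintype n] [DecidableEq n]
  {A : P → Matrix n n ℝ} {p : P}

theorem cdE (h : ∀ i j, ContDiffAt ℝ 2 (fun p => A p i j) p) :
    ContDiffAt ℝ 2 (fun p => Matrix.toEuclideanCLM (𝕜 := ℝ) (A p)) p :=
  (LinearMap.toContinuousLinearMap ((Matrix.toEuclideanCLM (n := n)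
    (𝕜 := ℝ)).toAlgEquiv.toLinearEquiv.toLinearMap ∘ₗ
      (Matrix.ofLinearEquiv ℝ).toLinearMap)).contDiff.contDiffAt.comp p
    (f := fun p i j => A p i j) (contDiffAt_pi.2 fun i => contDiffAt_pi.2 fun j => h i j)

theorem mapInv {R S : Type} [MonoidWithZero R] [MonoidWithZero S] (f : R ≃* S) (x : R) :
    f (Ring.inverse x) = Ring.inverse (f x) := by
  by_cases h : IsUnit x
  · obtain ⟨u, rfl⟩ := h
    rw [Ring.inverse_unit]
    exact (Ring.inverse_unit (Units.map f.toMonoidHom u)).symm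
  · rw [Ring.inverse_non_unit _ h, Ring.inverse_non_unit _ (mt (MulEquiv.isUnit_map f).1 h),
      map_zero]

theorem cdInv (h : ∀ i j, ContDiffAt ℝ 2 (fun p => A p i j) p) (h0 : (A p).det ≠ 0) :
    ContDiffAt ℝ 2 (fun p => Matrix.toEuclideanCLM (𝕜 := ℝ) (A p)⁻¹) p := by
  obtain ⟨u, hu⟩ := ((Matrix.isUnit_iff_isUnit_det _).2 h0.isUnit).map
    (Matrix.toEuclideanCLM (n := n) (𝕜 := ℝ))
  have := (hu ▸ contDiffAt_ringInverse ℝ (n := 2) u).comp p (cdE h)
  simp only [Matrix.nonsing_inv_eq_ringInverse]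
  exact this.congr_of_eventuallyEq (.of_forall fun q =>
    mapInv (Matrix.toEuclideanCLM (n := n) (𝕜 := ℝ)).toMulEquiv _)

end mat

theorem lt_congr {u v : ℂ → ℝ} {z : ℂ} (h : En.LT u z) (e : u =ᶠ[𝓝 z] v) : En.LT v z := by
  obtain ⟨α, β, γ, h1, h2⟩ := h
  have t : Tendsto (fun t => z + t) (𝓝 0) (𝓝 z) :=
    (continuous_const.add continuous_id).tendsto' 0 z (add_zero z)
  refine ⟨α, β, γ, e.self_of_nhds ▸ h1, fun ε hε => ?_⟩
  filter_upwards [h2 ε hε, t.eventually e] with t h3 h4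
  rwa [← h4, ← e.self_of_nhds]

theorem bil_eq (B : Vg g →ₗ[ℝ] Vg g →ₗ[ℝ] ℝ) (v w : Vg g) :
    B v w = v ⬝ᵥ (Matrix.of fun i j => B (eb i) (eb j)).mulVec w := by
  have e : ∀ v : Vg g, v = ∑ i, v i • eb i := fun v => by
    simpa only [eb, EuclideanSpace.basisFun_repr, EuclideanSpace.basisFun_apply] using ((EuclideanSpace.basisFun _ ℝ).sum_repr v).symm
  conv_lhs => rw [e v, e w]
  simp only [map_sum, map_smul, LinearMap.sum_apply, LinearMap.smul_apply, smul_eq_mul, dotProduct,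
    Matrix.mulVec, Matrix.of_apply, Finset.mul_sum]
  rw [Finset.sum_comm]
  exact Finset.sum_congr rfl fun i _ => Finset.sum_congr rfl fun j _ => by ring

theorem evX (A : Atl e d a) {j x} (hx : x ∈ ball 0 (a.r j)) : ∀ᶠ y in 𝓝 x, a.s j y ∈ X g e := by
  filter_upwards [isOpen_ball.mem_nhds hx] with y hy using ((A.sl j).self hy).2.1

theorem z1 (A : Atl e d a) {j x} (hx : x ∈ ball 0 (a.r j)) (v : Vg g) :
    Z1 (a.s j x) (vel (a.s j) x v) := vel_Z1 ((A.sl j).sm x hx) (evX A hx) v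

theorem near {c : ℍ} {R : ℝ} {z : ℍ} (hz : z ∈ ball c R) :
    ∀ᶠ w in 𝓝 (z : ℂ), ∃ u ∈ ball c R, w = (u : ℂ) := by
  filter_upwards [(isOpenEmbedding_coe.isOpenMap _ isOpen_ball).mem_nhds ⟨z, hz, rfl⟩] with w hw
  obtain ⟨u, hu, rfl⟩ := hw
  exact ⟨u, hu, rfl⟩

end C7

theorem Atl.tm_eq (H : CS e d) (A : Atl e d a) {j x} {z : ℍ} (hx : x ∈ ball 0 (a.r j))
    (hP : d.P (a.t j) (a.s j x) z) (ξ η : Vg g) :
    inner ℝ (Tm d (a.t j) (a.s j) (x, z) ξ) η = d.F (a.t j) (a.s j x) z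
      (vel (a.s j) x (dual (a.s j) x ξ)) (vel (a.s j) x (dual (a.s j) x η)) := by
  have hX := ((A.sl j).self hx).2.1
  have Z := C7.z1 A hx
  have S := fun v w => H.symm hX hP (Z v) (Z w)
  have e := C7.bil_eq (LinearMap.mk₂ ℝ
    (fun v w => d.F (a.t j) (a.s j x) z (vel (a.s j) x v) (vel (a.s j) x w))
    (fun v v' w => by rw [vel_add, H.add hX hP (Z _) (Z _) (Z _)])
    (fun r v w => by rw [vel_smul, H.smul r hX hP (Z _) (Z _), smul_eq_mul])
    (fun v w w' => by rw [S, vel_add, H.add hX hP (Z _) (Z _) (Z _), S w, S w'])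
    (fun r v w => by rw [S, vel_smul, H.smul r hX hP (Z _) (Z _), S w, smul_eq_mul]))
    (dual (a.s j) x η) (dual (a.s j) x ξ)
  simp only [LinearMap.mk₂_apply] at e
  rw [S, e, real_inner_comm, Tm, Matrix.inner_toEuclideanCLM]
  simp only [dual, Gm, ofComplex_apply, Matrix.ofLp_toEuclideanCLM, ← Matrix.mulVec_mulVec]
  rw [Matrix.dotProduct_mulVec, Matrix.mulVec_transpose _ η.ofLp]

theorem Atl.covar (H : CS e d) (A : Atl e d a) :
    (∀ j, ContDiffOn ℝ 2 ((a.gd d).T j) ((a.gd d).O j)) ∧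
    (∀ j, ∀ q ∈ (a.gd d).O j, ∀ ξ η,
      inner ℝ ((a.gd d).T j q ξ) η = inner ℝ ξ ((a.gd d).T j q η)) ∧
    (∀ j, ∀ q ∈ (a.gd d).O j, ∀ ξ ≠ 0, 0 < inner ℝ ((a.gd d).T j q ξ) ξ) ∧
    (∀ j, ∀ q ∈ (a.gd d).O j, ∀ ξ ≠ 0,
      En.LT (fun w => inner ℝ ((a.gd d).T j (q.1, w) ξ) ξ) q.2) := by
  have hO : ∀ j, ∀ q ∈ (a.gd d).O j, ∃ x ∈ ball 0 (a.r j), ∃ z ∈ ball I (4 * a.σ j),
      q = (x, (z : ℂ)) := by
    rintro j _ ⟨⟨x, z⟩, ⟨h1, h2⟩, rfl⟩
    rw [one_mul] at h1 h2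
    exact ⟨x, h1, z, h2, rfl⟩
  have pos : ∀ j, ∀ x ∈ ball 0 (a.r j), ∀ z ∈ ball I (4 * a.σ j), ∀ ξ ≠ 0,
      0 < d.F (a.t j) (a.s j x) z (vel (a.s j) x (dual (a.s j) x ξ))
        (vel (a.s j) x (dual (a.s j) x ξ)) := by
    intro j x hx z hz ξ hξ
    have hX := ((A.sl j).self hx).2.1
    refine (H.nonneg hX (A.pos j x hx z hz) (C7.z1 A hx _)).lt_of_ne fun h => hξ ?_
    have h1 := H.nd hX (A.pos j x hx z hz) (C7.z1 A hx _) (C7.z1 A hx ξ) h.symm
    have h2 : (Ωm (a.s j) x).mulVec ξ ⬝ᵥ dual (a.s j) x ξ = 0 := by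
      rw [← h1, omg_vel]
      simp only [dotProduct, Matrix.mulVec, Finset.sum_mul]
      exact Finset.sum_congr rfl fun i _ => Finset.sum_congr rfl fun j _ => by ring
    rw [dual, Matrix.ofLp_toEuclideanCLM, Matrix.dotProduct_mulVec, Matrix.vecMul_transpose,
      Matrix.mulVec_mulVec, Matrix.nonsing_inv_mul _ ((A.sl j).det_ne hx).isUnit,
      Matrix.one_mulVec, dotProduct_self_eq_zero] at h2
    exact (WithLp.ofLp_eq_zero 2).1 h2
  refine ⟨fun j q hq => ?_, fun j q hq ξ η => ?_, fun j q hq ξ hξ => ?_, fun j q hq ξ hξ => ?_⟩ <;>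
    obtain ⟨x, hx, z, hz, rfl⟩ := hO j q hq
  · have hs := (A.sl j).sm x hx
    have hΩ : ∀ i l, ContDiffAt ℝ 2 (fun q : Vg g × ℂ => Ωm (a.s j) q.1 i l) (x, z) := fun i l =>
      ((Ωm_sm hs i l).of_le le_top).comp (x, (z : ℂ)) contDiffAt_fst
    have hF := fun v => H.reg (τ := a.t j) (U := fun x => vel (a.s j) x v) hs (vel_sm hs v)
      (by filter_upwards [isOpen_ball.mem_nhds hx] with y hy using
        ⟨((A.sl j).self hy).2.1, C7.z1 A hy v⟩) (A.pos j x hx z hz)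
    have hG : ∀ i l, ContDiffAt ℝ 2 (fun q => Gm d (a.t j) (a.s j) q i l) (x, z) := fun i l => by
      refine (((hF (eb i + eb l)).sub ((hF (eb i)).add (hF (eb l)))).div_const
        2).congr_of_eventuallyEq ?_
      filter_upwards [prod_mem_nhds (isOpen_ball.mem_nhds hx) (C7.near hz)] with ⟨y, w⟩ ⟨hy, hw⟩
      obtain ⟨u, hu, rfl⟩ : ∃ u ∈ ball I (4 * a.σ j), w = (u : ℂ) := hw
      have hX := ((A.sl j).self hy).2.1
      have hP := A.pos j y hy u hu
      have Z := C7.z1 A hy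
      simp only [Gm, Matrix.of_apply, ofComplex_apply, vel_add]
      rw [H.add hX hP (Z _) (Z _) ((Z _).add (Z _)), H.symm hX hP (Z _) ((Z _).add (Z _)),
        H.symm hX hP (Z (eb l)) ((Z _).add (Z _)), H.add hX hP (Z _) (Z _) (Z _),
        H.add hX hP (Z _) (Z _) (Z _), H.symm hX hP (Z (eb l)) (Z (eb i))]
      ring
    have hd := (A.sl j).det_ne hx
    refine (((C7.cdInv hΩ hd).mul (C7.cdE hG)).mul (C7.cdInv (A := fun q : Vg g × ℂ =>
      (Ωm (a.s j) q.1).transpose) (fun i l => hΩ l i) (by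
        rwa [Matrix.det_transpose]))).contDiffWithinAt.congr (fun q _ => ?_) ?_ <;>
      simp only [AD.gd, Tm, map_mul, Matrix.transpose_nonsing_inv]
  · have hP := A.pos j x hx z hz
    rw [real_inner_comm _ ξ]
    exact ((A.tm_eq H hx hP ξ η).trans (H.symm ((A.sl j).self hx).2.1 hP (C7.z1 A hx _)
      (C7.z1 A hx _))).trans (A.tm_eq H hx hP η ξ).symm
  · exact (pos j x hx z hz ξ hξ).trans_eq (A.tm_eq H hx (A.pos j x hx z hz) ξ ξ).symm
  · refine C7.lt_congr (H.lt ((A.sl j).self hx).2.1 (A.pos j x hx z hz) (C7.z1 A hx _)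
      (pos j x hx z hz ξ hξ)) ?_
    filter_upwards [C7.near hz] with w ⟨u, hu, hw⟩
    rw [hw, ofComplex_apply]
    exact (A.tm_eq H hx (A.pos j x hx u hu) ξ ξ).symm

end Pool.Agent.MP_596265_gt.U

/-! Block A, row C8: the covariance along arrows. -/

namespace Pool.Agent.MP_596265_gt.U

open Filter Topology MeasureTheory Set Metric Erg UpperHalfPlane
open scoped ContDiff

noncomputable section

variable {g : ℕ} {𝒯 J : Type} {e : ℤ} {d : CD g 𝒯} {a : AD g 𝒯 J}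

namespace C8

theorem mem {s : Vg g → Tup g} {B U O T h x} (S : Slice e s B U O T h) (hx : x ∈ B) :
    s x ∈ X g e := by
  have := (S.fwd x hx 1 S.one).2.1
  rwa [show cjT 1 (s x) = s x from funext fun y => by simp [cjT, cj]] at this

theorem z1 {s : Vg g → Tup g} {B U O T h x} (S : Slice e s B U O T h) (hx : x ∈ B) (v : Vg g) :
    Z1 (s x) (vel s x v) :=
  vel_Z1 (e := e) (S.sm x hx) (by filter_upwards [S.oB.mem_nhds hx] with y hy using mem S hy) v

theorem sq (H : CS e d) {τ M z U V} (hM : M ∈ X g e) (hP : d.P τ M z) (hU : Z1 M U)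
    (hV : Z1 M V) :
    d.F τ M z (U + V) (U + V) = d.F τ M z U U + 2 * d.F τ M z V U + d.F τ M z V V := by
  rw [H.add hM hP hU hV (hU.add hV), H.symm hM hP hU (hU.add hV), H.symm hM hP hV (hU.add hV),
    H.add hM hP hU hV hU, H.add hM hP hU hV hV, H.symm hM hP hU hV]
  ring

theorem om_dual {s : Vg g → Tup g} {x : Vg g} (h : (Ωm s x).det ≠ 0) (ξ w : Vg g) :
    omg (s x) (vel s x (dual s x ξ)) (vel s x w) = inner ℝ ξ w := by
  have e1 : ∀ v : Vg g, ∑ i, ∑ j, v i * Ωm s x i j * w j =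
      dotProduct (Matrix.vecMul v.ofLp (Ωm s x)) w.ofLp := fun v => by
    rw [Finset.sum_comm]
    simp only [dotProduct, Matrix.vecMul, Finset.sum_mul]
  rw [omg_vel, e1, dual, Matrix.ofLp_toEuclideanCLM, Matrix.mulVec_transpose,
    Matrix.vecMul_vecMul, Matrix.nonsing_inv_mul _ (isUnit_iff_ne_zero.2 h), Matrix.vecMul_one,
    EuclideanSpace.inner_eq_star_dotProduct, dotProduct_comm]
  rfl

theorem left_inj {s : Vg g → Tup g} {x : Vg g} (h : (Ωm s x).det ≠ 0) {v v' : Vg g}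
    (hv : ∀ w, omg (s x) (vel s x v) (vel s x w) = omg (s x) (vel s x v') (vel s x w)) :
    v = v' := by
  have k : ∀ u : Vg g, dual s x (WithLp.toLp 2 (Matrix.vecMul u.ofLp (Ωm s x))) = u := fun u => by
    apply WithLp.ofLp_injective 2
    rw [dual, Matrix.ofLp_toEuclideanCLM, Matrix.mulVec_transpose, Matrix.vecMul_vecMul,
      Matrix.mul_nonsing_inv _ (isUnit_iff_ne_zero.2 h), Matrix.vecMul_one]
  rw [← k v, ← k v'] at hv ⊢
  congr 1
  exact ext_inner_right ℝ fun w => by rw [← om_dual h, ← om_dual h, hv]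

end C8

open C8 in
theorem Atl.covar_arrow (H : CS e d) (A : Atl e d a) :
    ∀ j j' φ, ∀ q ∈ (a.gd d).W j j' φ, ∀ ξ η,
      inner ℝ ((a.gd d).T j' (((a.gd d).Θ j j' φ q).1, (((a.gd d).Θ j j' φ q).2 : ℂ)) ξ) η =
        inner ℝ ((a.gd d).T j (q.1, (q.2 : ℂ))
          (ContinuousLinearMap.adjoint (fderiv ℝ ((a.gd d).τ j j' φ) q.1) ξ))
          (ContinuousLinearMap.adjoint (fderiv ℝ ((a.gd d).τ j j' φ) q.1) η) := by
  rintro j j' φ ⟨x, z⟩ ⟨⟨hx, hp⟩, ψ, hψ, hA⟩ ξ η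
  dsimp only at hx hp hA
  have hp₀ := Classical.epsilon_spec hp
  obtain ⟨t, k, e1, e2, ht, hk, hl⟩ := A.lk_loc hx hp₀
  have hb : ∀ᶠ y in 𝓝 x, y ∈ ball (0 : Vg g) (a.r j) := isOpen_ball.mem_nhds hx
  have hτ : (a.gd d).τ j j' φ =ᶠ[𝓝 x] t := by
    filter_upwards [hb, hl] with y a1 a2 using
      (A.lk_unique a1 (Classical.epsilon_spec ⟨_, a2⟩) a2).1
  have hc : ∀ᶠ y in 𝓝 x, Cj (k y) (act ψ (a.s j y)) (a.s j' (t y)) := by
    filter_upwards [hb, hl] with y a1 ⟨_, ψ', a2, a3⟩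
    simpa only [mul_one] using (hψ.cj a2 (mem (A.sl j) a1)).trans a3
  have hx' : t x ∈ ball (0 : Vg g) (a.r j') := hl.self_of_nhds.1
  have c0 := hc.self_of_nhds
  obtain ⟨p1, p2, p3, p4⟩ := H.aP hA
  have p5 := X_act p1 p2
  have p6 := mem (A.sl j') hx'
  have p7 := H.cP p5 c0 p4
  have hΘ : (a.gd d).Θ j j' φ (x, z) = (t x, k x • z) := by rw [e1, e2]; rfl
  rw [hΘ, hτ.fderiv_eq]
  set D := fderiv ℝ t x
  have hv := fun v => vel_arrow ((A.sl j).sm _ hx) ht hk ((A.sl j').sm _ hx') hc v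
  have zU := z1 (A.sl j) hx
  have zA : ∀ v, Z1 (act ψ (a.s j x)) (aU ψ (a.s j x) (vel (a.s j) x v)) :=
    fun v => (zU v).act p1 (X_pm p2)
  have zB : ∀ v, Z1 (a.s j' (t x)) fun y => ad (k x) (aU ψ (a.s j x) (vel (a.s j) x v) y) :=
    fun v => ((zA v).cj (k x)).PM c0
  have ho : ∀ v w, omg (a.s j' (t x)) (vel (a.s j') (t x) (D v)) (vel (a.s j') (t x) (D w)) =
      omg (a.s j x) (vel (a.s j) x v) (vel (a.s j) x w) := fun v w => by
    obtain ⟨Y, -, h1⟩ := hv v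
    obtain ⟨Y', -, h2⟩ := hv w
    rw [h1, omg_add_left, omg_cob_left, (z1 (A.sl j') hx' _).2, h2, omg_add_right, omg_cob_right,
      (zB v).2, omg_PM c0, omg_cj]
    simpa using! omg_act p1 (X_pm p2) (zU v).2 (zU w).2
  have n1 := (A.sl j).det_ne hx
  have n2 := (A.sl j').det_ne hx'
  have hi : Function.Injective D := by
    refine (injective_iff_map_eq_zero D).2 fun w hw => ext_inner_left ℝ fun u => ?_
    rw [← om_dual n1, ← ho, hw, omg_vel]
    simp only [PiLp.zero_apply, mul_zero, Finset.sum_const_zero, inner_zero_right]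
  have hs : Function.Surjective D := LinearMap.surjective_of_injective (f := D.toLinearMap) hi
  have hd : ∀ ζ, dual (a.s j') (t x) ζ =
      D (dual (a.s j) x (ContinuousLinearMap.adjoint D ζ)) := fun ζ => left_inj n2 fun w => by
    obtain ⟨w, rfl⟩ := hs w
    rw [ho, om_dual n1, om_dual n2, ContinuousLinearMap.adjoint_inner_left]
  have hF : ∀ v, d.F (a.t j') (a.s j' (t x)) (k x • z) (vel (a.s j') (t x) (D v))
      (vel (a.s j') (t x) (D v)) =
      d.F (a.t j) (a.s j x) z (vel (a.s j) x v) (vel (a.s j) x v) := fun v => by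
    obtain ⟨Y, h0, h1⟩ := hv v
    have zC := Z1_cob (X_pm p6) Y
    rw [h1, sq H p6 p7 (zB v) zC, H.cob Y p6 p7 h0 (zB v), H.cob Y p6 p7 h0 zC,
      H.fC p5 c0 p4 (zA v), H.fA hA (zU v)]
    ring
  refine (A.tm_eq H hx' p7 ξ η).trans (Eq.trans ?_ (A.tm_eq H hx p3 _ _).symm)
  rw [hd, hd]
  generalize dual (a.s j) x (ContinuousLinearMap.adjoint D ξ) = v
  generalize dual (a.s j) x (ContinuousLinearMap.adjoint D η) = w
  have := hF (w + v)
  rw [map_add, vel_add, vel_add, sq H p6 p7 (z1 (A.sl j') hx' _) (z1 (A.sl j') hx' _),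
    sq H p2 p3 (zU _) (zU _), hF, hF] at this
  linarith only [this]

end

end Pool.Agent.MP_596265_gt.U

namespace Pool.Agent.MP_596265_gt.U

open Filter Topology MeasureTheory Set Metric Erg UpperHalfPlane
open scoped ContDiff

variable {g : ℕ}
variable {𝒯 : Type}
variable {J : Type}
variable {e : ℤ} {d : CD g 𝒯} {a : AD g 𝒯 J}

theorem Atl.ga (H : CS e d) (A : Atl e d a) : En.GA (a.gd d) := by
  obtain ⟨a1, a2, a3, a4, a5, a6⟩ := A.arrows
  obtain ⟨b1, b2, b3, b4, b5, b6, -, b8, b9⟩ := A.classes H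
  obtain ⟨c1, c2, c3⟩ := A.dens
  obtain ⟨d1, d2, d3, d4⟩ := A.covar H
  exact ⟨A.r_pos, A.σ_pos, b1, fun _ _ h => h.1, c1, c2, d1, d2, d3, d4, a1, fun _ _ _ _ h => h.1,
    a2, a3, a4, fun j j' j'' φ φ' x h h' => (a5 j j' j'' φ φ' x h h').2, fun _ _ _ _ h => h.1, b2,
    b3, b4, b5, a6, b6, b8, b9, c3, fun j j' φ q h _ _ => A.covar_arrow H j j' φ q h⟩

end Pool.Agent.MP_596265_gt.U

/-! Block A, part C, row C9: output of the energy argument for a class system. -/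

namespace Pool.Agent.MP_596265_gt.U

open Filter Topology MeasureTheory Set Metric Erg UpperHalfPlane
open scoped ContDiff

noncomputable section

variable {g : ℕ} {𝒯 J : Type} {e : ℤ} {d : CD g 𝒯} {a : AD g 𝒯 J}

namespace C9

theorem cj_sg (k : G) (ε : Gen g → Bool) (M : Tup g) : Cj k M (sg ε (cjT k M)) := fun x => by
  unfold sg
  cases ε x
  · exact Or.inl rfl
  · exact Or.inr rfl

theorem cont_mv (ψ : AutF g) (k : G) (ε : Gen g → Bool) :
    Continuous fun M : Tup g => sg ε (cjT k (act ψ M)) := by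
  refine continuous_pi fun x => ?_
  have h : Continuous fun M : Tup g => cjT k (act ψ M) x :=
    (continuous_const.mul ((continuous_apply x).comp (continuous_act ψ))).mul continuous_const
  unfold sg
  cases ε x
  · exact h
  · exact (continuous_subtype_val.comp h).neg.subtype_mk _

theorem mu_mono {A B : Set (Tup g)} (h : ∀ N ∈ A, N ∈ X g e → N ∈ B) (hB : mu g e B = 0) :
    mu g e A = 0 := by
  rw [mu_apply] at hB ⊢
  refine measure_mono_null (image_mono ?_) hB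
  exact fun N hN => ⟨h N hN.1 hN.2, hN.2⟩

theorem kA_iff (H : CS e d) {τ τ' ψ M z} (h : d.Ar τ τ' ψ M z) :
    d.K τ M z ↔ d.K τ' (act ψ M) z :=
  ⟨H.kA h, fun hK => by simpa only [act_symm] using H.kA (H.inv h) hK⟩

theorem kC_iff (H : CS e d) {τ M N z k} (h : Cj k M N) : d.K τ M z ↔ d.K τ N (k • z) :=
  ⟨H.kC h, fun hK => by simpa only [inv_smul_smul] using H.kC h.symm hK⟩

/-- A cocycle at the end of an arrow comes from a cocycle at its start, with the same norm. -/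
theorem pull (H : CS e d) {τ τ' ψ M N z k} (h : d.Ar τ τ' ψ M z) (hC : Cj k (act ψ M) N)
    {u' : Coch g} (hu : Z1 N u') : ∃ u, Z1 M u ∧ ∀ w, d.Ar τ τ' ψ M w →
      d.F τ M w u u = d.F τ' N (k • w) u' u' := by
  obtain ⟨hψ, hM, -, -⟩ := H.aP h
  have hA := X_act hψ hM
  have h1 : Z1 (act ψ M) fun x => ad k⁻¹ (u' x) := (hu.cj k⁻¹).PM hC.symm
  have h2 := h1.act (H.aP (H.inv h)).1 (X_pm hA)
  rw [act_symm] at h2
  refine ⟨_, h2, fun w hw => ?_⟩
  have f1 := H.fA (H.inv hw) h1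
  rw [act_symm] at f1
  have f2 := H.fC (hC.mem hA) hC.symm (H.cP hA hC (H.aP hw).2.2.2) hu
  rw [inv_smul_smul] at f2
  exact f1.trans f2

end C9

open C9 in
theorem CS.out (hg : 1 ≤ g) (hE : En.ENERGY) (H : CS e d) {τ M z} (hK : d.K τ M z)
    (hs : ∀ U, Z1 M U → 0 < d.F τ M z U U →
      ¬ ∀ᶠ w in 𝓝 z, d.F τ M w U U = d.F τ M z U U) :
    M ∈ Om e {N | d.K τ N z} ∨ M ∈ Om e {N | d.K τ N z}ᶜ := by
  obtain ⟨m, a, A⟩ := H.atlas hg
  obtain ⟨j, ψ, k, x₀, hx₀, hAr, hC, hz⟩ := A.cov τ M z hK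
  obtain ⟨hψ, hM, hP, hP'⟩ := H.aP hAr
  have hr := A.r_pos j
  have hσ := A.σ_pos j
  have S := A.sl j
  have hx : x₀ ∈ ball (0 : Vg g) (a.r j) := ball_subset_ball (by linarith only [hr]) hx₀
  have hz1 : k • z ∈ ball I (1 * (4 * a.σ j)) := ball_subset_ball (by linarith only [hσ]) hz
  have hx1 : ∀ {x : Vg g}, x ∈ ball (0 : Vg g) (a.r j) → x ∈ ball (0 : Vg g) (1 * a.r j) :=
    fun h => by rwa [one_mul]
  have hloc := H.loc hψ hM hP hP'
  obtain ⟨N₀, α, ρ, hS, hα⟩ := (A.ga H).sys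
  obtain ⟨s₀, hs₀, hnull⟩ := hE _ _ _ _ _ _ hS j x₀ (k • z) (hα j (x₀, k • z) ⟨hx₀, hz⟩) (by
    intro ξ hξ hev
    have hZ := vel_Z1 (e := e) (S.sm x₀ hx)
      ((S.oB.eventually_mem hx).mono fun y hy => (S.self hy).2.1) (dual (a.s j) x₀ ξ)
    obtain ⟨u, hu, hF⟩ := pull H hAr hC hZ
    have key : ∀ w, d.Ar τ (a.t j) ψ M w → d.F τ M w u u =
        inner ℝ (Tm d (a.t j) (a.s j) (x₀, ((k • w : ℍ) : ℂ)) ξ) ξ := fun w hw => by
      rw [hF w hw, A.tm_eq H hx (H.cP (X_act hψ hM) hC (H.aP hw).2.2.2)]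
    refine hs u hu ?_ ?_
    · rw [key z hAr]
      exact (A.covar H).2.2.1 j (x₀, ((k • z : ℍ) : ℂ)) ⟨(x₀, k • z), ⟨hx1 hx, hz1⟩, rfl⟩ ξ hξ
    · have c1 : Tendsto (fun w : ℍ => ((k • w : ℍ) : ℂ)) (𝓝 z) (𝓝 ((k • z : ℍ) : ℂ)) :=
        (UpperHalfPlane.continuous_coe.comp (continuous_const_smul k)).tendsto z
      have c2 : Tendsto (fun w : ℍ => (M, w)) (𝓝 z) (𝓝 (M, z)) :=
        (Continuous.prodMk_right M).tendsto z
      filter_upwards [c1.eventually hev, c2.eventually hloc] with w h1 h2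
      rw [key w ((h2 hM).2 hAr), key z hAr]
      exact h1)
  obtain ⟨ε, hε⟩ := hC.sg
  obtain ⟨o1, -, o3, o4⟩ := S.self hx
  have cΦ : Tendsto (fun N : Tup g => sg ε (cjT k (act ψ N))) (𝓝 M) (𝓝 (a.s j x₀)) := by
    rw [hε]; exact (cont_mv ψ k ε).tendsto M
  have cT : Tendsto (a.T j) (𝓝 (a.s j x₀)) (𝓝 x₀) := by
    simpa only [ContinuousAt, o3] using S.contT.continuousAt (S.oO.mem_nhds o1)
  have ch : Tendsto (fun N => (a.h j N)⁻¹ • k • z) (𝓝 (a.s j x₀)) (𝓝 (k • z)) := by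
    have h1 : ContinuousAt (fun N => (a.h j N)⁻¹ • k • z) (a.s j x₀) :=
      (S.conth.continuousAt (S.oO.mem_nhds o1)).inv.smul continuousAt_const
    simpa only [ContinuousAt, o4, inv_one, one_smul] using h1
  have ev : ∀ᶠ N in 𝓝 M, N ∈ X g e → sg ε (cjT k (act ψ N)) ∈ a.O j ∧
      a.T j (sg ε (cjT k (act ψ N))) ∈ ball x₀ s₀ ∩ ball 0 (a.r j) ∧
      (d.K τ N z ↔ a.T j (sg ε (cjT k (act ψ N))) ∈ (a.gd d).S j) := by
    have c2 : Tendsto (fun N : Tup g => (N, z)) (𝓝 M) (𝓝 (M, z)) :=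
      (Continuous.prodMk_left z).tendsto M
    filter_upwards [c2.eventually hloc, cΦ.eventually (S.oO.eventually_mem o1),
      (cT.comp cΦ).eventually (ball_mem_nhds x₀ hs₀),
      (ch.comp cΦ).eventually (isOpen_ball.eventually_mem hz1)] with N h1 h2 h3 h4 hN
    have hc := cj_sg k ε (act ψ N)
    obtain ⟨b1, -, b3⟩ := S.bwd _ h2 (hc.mem (X_act hψ hN))
    refine ⟨h2, ⟨h3, b1⟩, ?_⟩
    have hc' := cj_cjT (a.h j (sg ε (cjT k (act ψ N)))) (a.s j (a.T j (sg ε (cjT k (act ψ N)))))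
    rw [b3] at hc'
    rw [kA_iff H ((h1 hN).2 hAr), kC_iff H hc, kC_iff H hc'.symm]
    exact ((A.classes H).2.2.2.2.2.2.1 j (_, _) ⟨hx1 b1, h4⟩).symm
  have hW : Module.finrank ℝ (Vg g) = 6 * g - 6 := finrank_euclideanSpace_fin
  rcases hnull with h0 | h0
  · refine Or.inr ⟨hM, _, ev, mu_mono (fun N hN hX => ?_) (null_move hψ k ε
      ((S.null _ hg hW (A := (a.gd d).S j ∩ ball x₀ s₀) fun _ h => h.1.1).2 h0))⟩
    obtain ⟨p1, p2, p3⟩ := hN.1 hX
    exact ⟨p1, p3.1 (not_not.1 hN.2), p2.1⟩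
  · refine Or.inl ⟨hM, _, ev, mu_mono (fun N hN hX => ?_) (null_move hψ k ε
      ((S.null _ hg hW (A := (ball x₀ s₀ \ (a.gd d).S j) ∩ ball 0 (a.r j)) fun _ h => h.2).2
        (measure_mono_null inter_subset_left h0)))⟩
    obtain ⟨p1, p2, p3⟩ := hN.1 hX
    exact ⟨p1, ⟨p2.1, fun h => hN.2 (p3.2 h)⟩, p2.2⟩

end

end Pool.Agent.MP_596265_gt.U

end

section

/-! Genus two, Euler number zero: an invariant set that is neither null nor conull. -/

namespace Pool.Agent.MP_596265_gt.G2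

open Erg Real MeasureTheory Set Filter Topology

theorem lc_level {E F : Type} [NormedAddCommGroup E] [NormedSpace ℝ E] [CompleteSpace E]
    [NormedAddCommGroup F] [NormedSpace ℝ F] [FiniteDimensional ℝ F] {f : E → F} {m : E}
    (hf : ContDiffAt ℝ 1 f m) (hs : Function.Surjective (fderiv ℝ f m)) {O : Set E}
    (hO : O ∈ 𝓝 m) :
    ∃ U, IsPreconnected U ∧ U ⊆ O ∩ f ⁻¹' {f m} ∧ ∃ W ∈ 𝓝 m, W ∩ f ⁻¹' {f m} ⊆ U := by
  have hd := hf.hasStrictFDerivAt one_ne_zero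
  have hr : (fderiv ℝ f m).range = ⊤ := LinearMap.range_eq_top.2 hs
  set φ := hd.implicitToOpenPartialHomeomorph f _ hr with hφ
  have h1 : ∀ x, (φ x).1 = f x := fun x => hd.implicitToOpenPartialHomeomorph_fst hr x
  have h2 : φ m = (f m, 0) := hd.implicitToOpenPartialHomeomorph_self hr
  have h3 : m ∈ φ.source := hd.mem_implicitToOpenPartialHomeomorph_source hr
  have h4 : φ.target ∩ φ.symm ⁻¹' O ∈ 𝓝 (φ m) :=
    inter_mem (φ.open_target.mem_nhds (φ.map_source h3))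
      ((φ.continuousAt_symm (φ.map_source h3)).preimage_mem_nhds (by rwa [φ.left_inv h3]))
  rw [h2] at h4
  obtain ⟨r, hr0, hb⟩ := Metric.mem_nhds_iff.1
    ((Continuous.prodMk_right (f m)).continuousAt.preimage_mem_nhds h4)
  refine ⟨(fun v => φ.symm (f m, v)) '' Metric.ball 0 r, ?_, ?_,
    φ.source ∩ (fun x => (φ x).2) ⁻¹' Metric.ball 0 r, ?_, ?_⟩
  · exact (convex_ball _ _).isPreconnected.image _ (φ.continuousOn_symm.comp
      (Continuous.prodMk_right (f m)).continuousOn fun v hv => (hb hv).1)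
  · rintro _ ⟨v, hv, rfl⟩
    exact ⟨(hb hv).2, (h1 _).symm.trans (congrArg Prod.fst (φ.right_inv (hb hv).1))⟩
  · refine inter_mem (φ.open_source.mem_nhds h3) ((φ.continuousAt h3).snd.preimage_mem_nhds ?_)
    rw [h2]
    exact Metric.ball_mem_nhds _ hr0
  · rintro x ⟨⟨a, b⟩, c⟩
    refine ⟨_, b, ?_⟩
    have : (f m, (φ x).2) = φ x := Prod.ext (c.symm.trans (h1 x).symm) rfl
    simp only [this, φ.left_inv a]

theorem lc_X {g : ℕ} {e : ℤ} {M : Tup g} (hM : M ∈ X g e) (h : NA M) {O : Set (Tup g)}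
    (hO : O ∈ 𝓝 M) : ∃ U, IsPreconnected U ∧ U ⊆ O ∩ X g e ∧ ∃ W ∈ 𝓝 M, W ∩ X g e ⊆ U := by
  obtain ⟨O₁, h1, e1⟩ := xn_nhds hO
  obtain ⟨O₂, h2, e2⟩ := X_level hM
  obtain ⟨U, a, b, W, c, d⟩ := lc_level contDiff_fE.contDiffAt (fE_surj (X_pm hM) h)
    (inter_mem h1 h2)
  have k : U ⊆ io '' X g e := fun m hm => (e2.subset ⟨(b hm).1.2, (b hm).2⟩).2
  refine ⟨io ⁻¹' U, ?_, fun N hN => ⟨e1 (b hN).1.1, ?_⟩, _, xn_pre c, fun N hN =>
    d ⟨hN.1, xn_fE hM hN.2⟩⟩
  · rw [← io_emb.isInducing.isPreconnected_image,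
      image_preimage_eq_of_subset (k.trans (image_subset_range _ _))]
    exact a
  · obtain ⟨L, hL, hl⟩ := k hN
    rwa [← io_emb.injective hl]

/-! Two by two matrices -/

theorem inv_of {J : Mat} {z : G} (h1 : J.trace = 0) (h2 : (J * (z : Mat)).trace = 0) :
    J * (z : Mat) = ((z⁻¹ : G) : Mat) * J := by
  simp only [Matrix.trace_fin_two, Matrix.mul_apply, Fin.sum_univ_two] at h1 h2
  have a := basic_inv00 z
  have b := basic_inv01 z
  have c := basic_inv10 z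
  have d := basic_inv11 z
  ext i j
  fin_cases i <;> fin_cases j <;>
    simp only [Matrix.mul_apply, Fin.sum_univ_two, Fin.zero_eta, Fin.mk_one] <;>
    simp only [a, b, c, d]
  · linear_combination h2 - z 1 1 * h1
  · linear_combination z 0 1 * h1
  · linear_combination z 1 0 * h1
  · linear_combination h2 - z 0 0 * h1

theorem inv_J {x y z : G} (h : z * x = x * z ∨ z * y = y * z) :
    ((x : Mat) * y - y * x) * (z : Mat) = ((z⁻¹ : G) : Mat) * ((x : Mat) * y - y * x) := by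
  refine inv_of (by rw [Matrix.trace_sub, Matrix.trace_mul_comm, sub_self]) ?_
  rw [sub_mul, Matrix.trace_sub, sub_eq_zero]
  rcases h with h | h <;> have h' := congrArg (fun A : G => (A : Mat)) h <;>
    simp only [Matrix.SpecialLinearGroup.coe_mul] at h'
  · rw [mul_assoc (y : Mat), ← h', ← mul_assoc, Matrix.trace_mul_comm _ (x : Mat), mul_assoc]
  · rw [mul_assoc, ← h', Matrix.trace_mul_comm, mul_assoc, Matrix.trace_mul_comm, mul_assoc,
      Matrix.trace_mul_comm, mul_assoc]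

theorem flip {K : Mat} {a b : G} (h : K * (a : Mat) = (b : Mat) * K) :
    K * ((a⁻¹ : G) : Mat) = ((b⁻¹ : G) : Mat) * K := by
  have h1 : ((b⁻¹ : G) : Mat) * (b : Mat) = 1 := by
    rw [← Matrix.SpecialLinearGroup.coe_mul, inv_mul_cancel]; rfl
  have h2 : (a : Mat) * ((a⁻¹ : G) : Mat) = 1 := by
    rw [← Matrix.SpecialLinearGroup.coe_mul, mul_inv_cancel]; rfl
  calc K * ((a⁻¹ : G) : Mat) = ((b⁻¹ : G) : Mat) * ((b : Mat) * K) * ((a⁻¹ : G) : Mat) := by
        rw [← mul_assoc, h1, one_mul]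
    _ = _ := by rw [← h, mul_assoc, mul_assoc, h2, mul_one]

theorem cat {K : Mat} {a b c d : G} (h : K * (a : Mat) = (b : Mat) * K)
    (h' : K * (c : Mat) = (d : Mat) * K) : K * ((a * c : G) : Mat) = ((b * d : G) : Mat) * K := by
  simp only [Matrix.SpecialLinearGroup.coe_mul]
  rw [← mul_assoc, h, mul_assoc, h', mul_assoc]

theorem kd {a b x : G} (h : x = a ∨ x = b) :
    (((cm a b : G) : Mat) - 1) * (x : Mat) = ((cj (a * b) x⁻¹ : G) : Mat) * ((cm a b : G) - 1) := by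
  have hx : x * a = a * x ∨ x * b = b * x := h.imp (by rintro rfl; rfl) (by rintro rfl; rfl)
  have cm' : ∀ u v : G, ((u * v : G) : Mat) = (u : Mat) * v := fun _ _ => rfl
  have e : ((cm a b : G) : Mat) - 1 = ((a : Mat) * b - b * a) * (((b * a)⁻¹ : G) : Mat) := by
    rw [sub_mul, ← cm' a b, ← cm' b a, ← cm', ← cm', mul_inv_cancel,
      show a * b * (b * a)⁻¹ = cm a b by unfold cm; group]
    rfl
  have k := flip (cat (inv_J (x := a) (y := b) (z := b) (.inr rfl))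
    (inv_J (x := a) (y := b) (z := a) (.inl rfl)))
  have k2 := cat k (inv_J hx)
  rw [e, mul_assoc, ← cm' _ x, k2, k, ← mul_assoc, ← cm' (cj _ _),
    show cj (a * b) x⁻¹ * (b⁻¹ * a⁻¹)⁻¹ = (b⁻¹ * a⁻¹)⁻¹ * x⁻¹ by unfold cj; group]

theorem qf {r : G} (h : ell r) {a b : ℝ}
    (e : r 0 1 * a ^ 2 + (r 1 1 - r 0 0) * a * b - r 1 0 * b ^ 2 = 0) : a = 0 ∧ b = 0 := by
  have hd := basic_det r
  have h1 : 0 < 4 - (r 0 0 + r 1 1) ^ 2 := by
    have := abs_lt.1 h
    unfold tr at this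
    nlinarith only [this]
  have hb : b = 0 := by
    by_contra c
    have := mul_pos h1 (sq_pos_of_ne_zero c)
    have k : (2 * r 0 1 * a + (r 1 1 - r 0 0) * b) ^ 2 + (4 - (r 0 0 + r 1 1) ^ 2) * b ^ 2 = 0 := by
      linear_combination 4 * r 0 1 * e - 4 * b ^ 2 * hd
    linarith only [sq_nonneg (2 * r 0 1 * a + (r 1 1 - r 0 0) * b), this, k]
  subst hb
  refine ⟨?_, rfl⟩
  have hq : r 0 1 ≠ 0 := fun c => by
    rw [c] at hd
    linarith only [sq_nonneg (r 0 0 - r 1 1), hd, h1]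
  have : r 0 1 * a ^ 2 = 0 := by linear_combination e
  simpa [hq] using this

theorem det_ne {K : Mat} {r m : G} (h : ell r) (hK : K ≠ 0) (e : K * (r : Mat) = (m : Mat) * K) :
    K.det ≠ 0 := by
  intro c
  have k : K * (r : Mat) * K.adjugate = 0 := by
    rw [e, mul_assoc, Matrix.mul_adjugate, c, zero_smul, mul_zero]
  have k1 := congrFun (congrFun k 0) 1
  have k2 := congrFun (congrFun k 1) 0
  simp only [Matrix.adjugate_fin_two, Matrix.mul_apply, Fin.sum_univ_two, Matrix.of_apply,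
    Matrix.cons_val', Matrix.cons_val_zero, Matrix.cons_val_one, Matrix.cons_val_fin_one,
    Matrix.zero_apply] at k1 k2
  have a := qf h (a := K 0 0) (b := K 0 1) (by linear_combination k1)
  have b := qf h (a := K 1 0) (b := K 1 1) (by linear_combination -k2)
  apply hK
  ext i j
  fin_cases i <;> fin_cases j <;> simp [a.1, a.2, b.1, b.2]

theorem schur {P : Mat} {x y : G} (hx : P * (x : Mat) = x * P) (hy : P * (y : Mat) = y * P)
    (h : x * y ≠ y * x) : 0 ≤ P.det := by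
  have x1 := congrFun (congrFun hx 0) 0
  have x2 := congrFun (congrFun hx 0) 1
  have x3 := congrFun (congrFun hx 1) 0
  have y1 := congrFun (congrFun hy 0) 0
  have y2 := congrFun (congrFun hy 0) 1
  have y3 := congrFun (congrFun hy 1) 0
  simp only [Matrix.mul_apply, Fin.sum_univ_two] at x1 x2 x3 y1 y2 y3
  have k : ∀ t : ℝ, t * (x 0 1 * y 1 0 - y 0 1 * x 1 0) = 0 →
      t * ((x 0 0 - x 1 1) * y 0 1 - (y 0 0 - y 1 1) * x 0 1) = 0 →
      t * ((x 0 0 - x 1 1) * y 1 0 - (y 0 0 - y 1 1) * x 1 0) = 0 → t = 0 := fun t a b c => by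
    by_contra ht
    have a := (mul_eq_zero.1 a).resolve_left ht
    have b := (mul_eq_zero.1 b).resolve_left ht
    have c := (mul_eq_zero.1 c).resolve_left ht
    refine h (basic_ext ?_ ?_ ?_ ?_) <;> simp only [basic_mul]
    · linear_combination a
    · linear_combination b
    · linear_combination -c
    · linear_combination -a
  have a : P 0 0 - P 1 1 = 0 := k _
    (by linear_combination y 1 0 * x2 + y 0 1 * x3 + (x 0 0 - x 1 1) * y1)
    (by linear_combination (x 0 0 - x 1 1) * y2 - (y 0 0 - y 1 1) * x2)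
    (by linear_combination (y 0 0 - y 1 1) * x3 - (x 0 0 - x 1 1) * y3)
  have b : P 0 1 = 0 := k _ (by linear_combination x 0 1 * y1 - y 0 1 * x1)
    (by linear_combination x 0 1 * y2 - y 0 1 * x2)
    (by linear_combination -y 1 0 * x2 - (y 0 0 - y 1 1) * x1 - x 0 1 * y3)
  have c : P 1 0 = 0 := k _ (by linear_combination x 1 0 * y1 - y 1 0 * x1)
    (by linear_combination y 0 1 * x3 + (y 0 0 - y 1 1) * x1 + x 1 0 * y2)
    (by linear_combination y 1 0 * x3 - x 1 0 * y3)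
  rw [Matrix.det_fin_two, b, sub_eq_zero.1 a]
  nlinarith only []

/-! The hyperelliptic involution -/

def jw (N : Tup 2) (x : Gen 2) : G :=
  cj (if x.1 = 0 then ha N 0 * hb N 0 else hb N 1 * ha N 1) (N x)⁻¹
def It (N : Tup 2) (K : Mat) : Prop := ∀ x, K * (N x : Mat) = (jw N x : Mat) * K
def Sg (s : ℝ) : Set (Tup 2) := {N | ∃ K : Mat, K ≠ 0 ∧ 0 ≤ s * K.det ∧ It N K}

theorem It.lift {N : Tup 2} {K : Mat} (h : It N K) (w : Fr 2) :
    K * (FreeGroup.lift N w : G) = (FreeGroup.lift (jw N) w : G) * K := by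
  induction w using FreeGroup.induction_on with
  | C1 => simp
  | of x => simpa only [FreeGroup.lift_apply_of] using h x
  | inv_of x ih => simpa only [map_inv] using flip ih
  | mul a b iha ihb => simpa only [map_mul] using cat iha ihb

theorem cont_jw (x : Gen 2) : Continuous fun N : Tup 2 => jw N x := by
  unfold jw cj ha hb
  split_ifs <;> fun_prop

abbrev Sph : Type := (Metric.sphere (0 : Fin 2 → Fin 2 → ℝ) 1 : Set (Fin 2 → Fin 2 → ℝ))

theorem closed_Sg (s : ℝ) : IsClosed (Sg s) := by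
  have c1 : Continuous fun p : Tup 2 × Sph => (Matrix.of p.2.1 : Mat) :=
    show Continuous fun p : Tup 2 × Sph => p.2.1 by fun_prop
  have : Sg s = Prod.fst '' {p : Tup 2 × Sph |
      0 ≤ s * (Matrix.of p.2.1 : Mat).det ∧ It p.1 (Matrix.of p.2.1)} := by
    ext N
    constructor
    · rintro ⟨K, h0, h1, h2⟩
      have hn : ‖Matrix.of.symm K‖ ≠ 0 := norm_ne_zero_iff.2 h0
      refine ⟨(N, ⟨‖Matrix.of.symm K‖⁻¹ • Matrix.of.symm K, by
        rw [mem_sphere_zero_iff_norm, norm_smul, norm_inv, norm_norm, inv_mul_cancel₀ hn]⟩),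
        ⟨?_, fun x => ?_⟩, rfl⟩
      · change 0 ≤ s * (‖Matrix.of.symm K‖⁻¹ • K).det
        rw [Matrix.det_smul, mul_left_comm]
        positivity
      · change (‖Matrix.of.symm K‖⁻¹ • K) * _ = _ * (‖Matrix.of.symm K‖⁻¹ • K)
        rw [Matrix.smul_mul, Matrix.mul_smul, h2]
    · rintro ⟨⟨N, K, hK⟩, h, rfl⟩
      refine ⟨_, fun c => ?_, h⟩
      rw [show K = 0 from c] at hK
      simp at hK
  rw [this]
  refine isClosedMap_fst_of_compactSpace _ ((isClosed_le continuous_const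
    (continuous_const.mul c1.matrix_det)).inter ?_)
  change IsClosed {p : Tup 2 × Sph | It p.1 (Matrix.of p.2.1)}
  simp only [It, ofPred_forall]
  exact isClosed_iInter fun x => isClosed_eq
    (c1.mul (continuous_subtype_val.comp ((continuous_apply x).comp continuous_fst)))
    ((continuous_subtype_val.comp ((cont_jw x).comp continuous_fst)).mul c1)

theorem gen2 (x : Gen 2) (N : Tup 2) : (x.1 = 0 ∧ (N x = ha N 0 ∨ N x = hb N 0)) ∨
    (x.1 ≠ 0 ∧ (N x = hb N 1 ∨ N x = ha N 1)) := by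
  obtain ⟨i, b⟩ := x
  fin_cases i <;> cases b <;> simp [ha, hb]

theorem pre2 {H : Type} [Group H] (N : Gen 2 → H) : pre N 2 = hc N 0 * hc N 1 := by
  simp [pre, List.finRange_succ]

theorem rel2 {N : Tup 2} (h : N ∈ X 2 0) : hc N 0 = cm (hb N 1) (ha N 1) := by
  have h2 := congrArg pj (show Rt N 2 = zt ((0 : ℤ) : ℝ) from h)
  rw [pj_Rt, Int.cast_zero, zt_zero, map_one, pre2, mul_eq_one_iff_eq_inv] at h2
  rw [h2]
  unfold hc cm
  group

theorem it_D {N : Tup 2} (h : N ∈ X 2 0) : It N ((hc N 0 : G) - 1) := fun x => by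
  rcases gen2 x N with ⟨a, b⟩ | ⟨a, b⟩
  · rw [jw, if_pos a]
    exact kd b
  · rw [jw, if_neg a, rel2 h]
    exact kd b

theorem cm_one {a b : G} (h : cm a b = 1) : a * b = b * a := by
  rw [← mul_inv_eq_one, ← h]
  unfold cm
  group

theorem jw_ab {N : Tup 2} (h0 : hc N 0 = 1) (h1 : cm (hb N 1) (ha N 1) = 1) (x : Gen 2) :
    jw N x = (N x)⁻¹ := by
  have a := cm_one h0
  have b := cm_one h1
  have k : ∀ u v z : G, u * v = v * u → z = u ∨ z = v → cj (u * v) z⁻¹ = z⁻¹ := by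
    rintro u v z c (rfl | rfl)
    · rw [cj, c, mul_assoc v, mul_inv_cancel, mul_one, ← c]; group
    · rw [cj, mul_assoc u, mul_inv_cancel, mul_one, c]; group
  rcases gen2 x N with ⟨c, d⟩ | ⟨c, d⟩
  · rw [jw, if_pos c]
    exact k _ _ _ a d
  · rw [jw, if_neg c]
    exact k _ _ _ b d

theorem ex_it {N : Tup 2} (h : N ∈ X 2 0) (hN : NA N) : ∃ K, K ≠ 0 ∧ It N K := by
  by_cases c : hc N 0 = 1
  · obtain ⟨x, y, hxy⟩ := hN
    have c' := (rel2 h).symm.trans c
    have a := cm_one c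
    have b := cm_one c'
    have k : ∀ u v : Gen 2, (u.1 = 0 ↔ v.1 = 0) → N u * N v = N v * N u := fun u v e => by
      rcases gen2 u N with ⟨p, q | q⟩ | ⟨p, q | q⟩ <;> rcases gen2 v N with ⟨r, s | s⟩ | ⟨r, s | s⟩ <;>
        first | (rw [q, s]; done) | rw [q, s, a] | rw [q, s, b] | tauto
    refine ⟨(N x : Mat) * N y - N y * N x, fun e => hxy (Subtype.ext (sub_eq_zero.1 e)), fun z => ?_⟩
    rw [jw_ab c c']
    refine inv_J ?_
    by_cases e : z.1 = 0 ↔ x.1 = 0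
    · exact .inl (k _ _ e)
    · refine .inr (k _ _ ?_)
      have : ¬ (x.1 = 0 ↔ y.1 = 0) := fun e => hxy (k _ _ e)
      tauto
  · exact ⟨_, fun e => c (Subtype.ext (sub_eq_zero.1 e)), it_D h⟩

theorem lift_symm (ψ : Fr 2 ≃* Fr 2) (M : Tup 2) (x : Gen 2) :
    FreeGroup.lift (act ψ M) (ψ.symm (.of x)) = M x := congrFun (act_symm ψ M) x

theorem lift_comm {N : Tup 2} (h : ¬ NA N) (u v : Fr 2) :
    FreeGroup.lift N u * FreeGroup.lift N v = FreeGroup.lift N v * FreeGroup.lift N u := by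
  have k : ∀ (z : G), (∀ x, Commute z (N x)) → ∀ w, Commute z (FreeGroup.lift N w) := fun z a w => by
    induction w using FreeGroup.induction_on with
    | C1 => simp
    | of x => simpa using a x
    | inv_of x ih => simpa only [map_inv] using ih.inv_right
    | mul a b iha ihb => simpa only [map_mul] using iha.mul_right ihb
  exact k _ (fun x => (k _ (fun y => not_not.1 fun c => h ⟨x, y, c⟩) u).symm) v

theorem na_act (ψ : Fr 2 ≃* Fr 2) {M : Tup 2} (h : NA M) : NA (act ψ M) := by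
  obtain ⟨x, y, h⟩ := h
  by_contra c
  exact h (by simpa only [lift_symm] using lift_comm c (ψ.symm (.of x)) (ψ.symm (.of y)))

theorem disj (ψ : Fr 2 ≃* Fr 2) {M : Tup 2} (h : NA M) (he : ell (ha M 0))
    (h1 : act ψ M ∈ Sg 1) (h2 : act ψ M ∈ Sg (-1)) : False := by
  obtain ⟨K, a, b, c⟩ := h1
  obtain ⟨L, a', b', c'⟩ := h2
  have d := c.lift (ψ.symm (.of (0, false)))
  have d' := c'.lift (ψ.symm (.of (0, false)))
  rw [lift_symm] at d d'
  have e := det_ne he a d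
  have e' := det_ne he a' d'
  obtain ⟨x, y, hxy⟩ := na_act ψ h
  have k : ∀ z, K.adjugate * L * (act ψ M z : G) = (act ψ M z : G) * (K.adjugate * L) := fun z => by
    have : K.det • (K.adjugate * (jw (act ψ M) z : G)) = K.det • ((act ψ M z : G) * K.adjugate) := by
      rw [← Matrix.smul_mul, ← Matrix.smul_mul, ← mul_one (K.det • _), ← Matrix.one_mul (act ψ M z : G).1,
        ← Matrix.smul_mul, ← Matrix.adjugate_mul, mul_assoc K.adjugate, c z, mul_assoc K.adjugate,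
        mul_assoc _ K, Matrix.mul_adjugate]
      simp
    rw [mul_assoc, c' z, ← mul_assoc, smul_right_injective _ e this, mul_assoc]
  have := schur (k x) (k y) hxy
  rw [Matrix.det_mul, Matrix.det_adjugate] at this
  simp only [Fintype.card_fin, Nat.add_one_sub_one, pow_one] at this
  have p : 0 < K.det := lt_of_le_of_ne (by linarith) e.symm
  have q : L.det < 0 := lt_of_le_of_ne (by linarith) e'
  nlinarith only [this, p, q]

/-! A path from an abelian representation -/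

def r0 : G := ⟨!![0, -1; 1, 0], by simp [Matrix.det_fin_two]⟩
def bt (t : ℝ) : G := ⟨!![t, -t ^ 2 - 1; 1, -t], by simp [Matrix.det_fin_two]; ring⟩
def db (A B : G) : Tup 2 := fun x => if (x.1 = 0 ↔ x.2 = false) then A else B

theorem db_X (A B : G) : db A B ∈ X 2 0 := by
  change pre _ 2 = zt ((0 : ℤ) : ℝ)
  rw [pre2, Int.cast_zero, zt_zero]
  simp only [hc, ha, hb, db, cm]
  simp only [↓ reduceIte, Bool.true_eq_false, iff_false, not_true_eq_false, mul_assoc, Fin.isValue, one_ne_zero, iff_true, inv_mul_cancel_left, mul_inv_cancel_left, mul_inv_cancel]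

theorem db_na {A B : G} (h : A * B ≠ B * A) : NA (db A B) :=
  ⟨(0, false), (0, true), by simpa only [db, Fin.isValue, ↓ reduceIte, Bool.true_eq_false, iff_false, not_true_eq_false, ne_eq] using h⟩

theorem ell_r0 : ell r0 := by simp [ell, tr, r0]

theorem r0_bt {t : ℝ} (h : t ≠ 0) : r0 * bt t ≠ bt t * r0 := fun c => by
  have := congrArg (fun A : G => A 1 0) c
  simp only [basic_mul] at this
  simp [r0, bt] at this
  exact h (by linarith only [this])

theorem cont_path : Continuous fun t => db r0 (bt t) := by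
  refine continuous_pi fun x => ?_
  unfold db
  split_ifs
  · exact continuous_const
  · refine Continuous.subtype_mk (continuous_matrix fun i j => ?_) _
    fin_cases i <;> fin_cases j <;> simp <;> fun_prop

theorem not_Sg (ψ : Fr 2 ≃* Fr 2) : act ψ (db r0 (bt 0)) ∉ Sg 1 := by
  rintro ⟨K, a, b, c⟩
  have e0 : bt 0 = r0 := Subtype.ext (by simp [bt, r0])
  have n0 : ¬ NA (db r0 (bt 0)) := by
    rintro ⟨x, y, h⟩
    simp [db, e0] at h
  have n1 : ¬ NA (act ψ (db r0 (bt 0))) := fun ⟨x, y, h⟩ => h (lift_comm n0 _ _)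
  set N := act ψ (db r0 (bt 0)) with hN
  have cmm : ∀ x y, cm (N x) (N y) = 1 := fun x y => by
    rw [cm, not_not.1 fun c => n1 ⟨x, y, c⟩]
    group
  have k : ∀ w, K * (FreeGroup.lift N w : G) = ((FreeGroup.lift N w)⁻¹ : G) * K := fun w => by
    induction w using FreeGroup.induction_on with
    | C1 => simp only [map_one, Matrix.SpecialLinearGroup.coe_one, mul_one, inv_one, one_mul]
    | of x => simpa only [FreeGroup.lift_apply_of, jw_ab (N := N) (cmm _ _) (cmm _ _)] using c x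
    | inv_of x ih => simpa only [map_inv] using flip ih
    | mul u v ihu ihv =>
      have := cat ihu ihv
      rwa [← mul_inv_rev, lift_comm n1 v u, ← map_mul] at this
  have d := k (ψ.symm (.of (0, false)))
  rw [lift_symm] at d
  have e := det_ne (show ell (db r0 (bt 0) (0, false)) from ell_r0) a d
  have d1 := congrFun (congrFun d 0) 0
  have d2 := congrFun (congrFun d 0) 1
  simp only [Matrix.mul_apply, Fin.sum_univ_two] at d1 d2
  rw [basic_inv00, basic_inv01] at d1 d2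
  simp [db, r0] at d1 d2
  rw [Matrix.det_fin_two] at e b
  apply e
  rw [d1, ← d2] at b ⊢
  nlinarith only [sq_nonneg (K 0 0), b]

def Y : Set (Tup 2) := {M | M ∈ X 2 0 ∧ ∀ ψ, AutR ψ → 2 ≤ tr (hc (act ψ M) 0)}

theorem open_NA {g : ℕ} : IsOpen {M : Tup g | NA M} := by
  simp only [NA, ofPred_exists]
  exact isOpen_iUnion fun x => isOpen_iUnion fun y => isOpen_ne_fun (by fun_prop) (by fun_prop)

theorem Y_pos : mu 2 0 Y ≠ 0 := by
  have n1 := db_na (r0_bt one_ne_zero)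
  obtain ⟨U, h1, h2, W, h3, h4⟩ := lc_X (db_X r0 (bt 1)) n1
    (O := {M | NA M} ∩ {M | ell (ha M 0)}) ((open_NA.inter (show IsOpen {M : Tup 2 | ell (ha M 0)} from
      isOpen_ell.preimage (f := fun M : Tup 2 => ha M 0) (continuous_apply _))).mem_nhds ⟨n1, ell_r0⟩)
  have h5 : IsPreconnected (U ∪ (fun t => db r0 (bt t)) '' Ioc 0 1) :=
    h1.union (db r0 (bt 1)) (h4 ⟨mem_of_mem_nhds h3, db_X _ _⟩) ⟨1, by simp only [mem_Ioc, zero_lt_one, Std.le_refl, and_self], rfl⟩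
      (isPreconnected_Ioc.image _ cont_path.continuousOn)
  have h6 : U ∪ (fun t => db r0 (bt t)) '' Ioc 0 1 ⊆ {M | NA M} ∩ {M | ell (ha M 0)} ∩ X 2 0 := by
    refine union_subset h2 ?_
    rintro _ ⟨t, ht, rfl⟩
    exact ⟨⟨db_na (r0_bt ht.1.ne'), ell_r0⟩, db_X _ _⟩
  have h7 : U ⊆ Y := fun M hM => ⟨(h2 hM).2, fun ψ hψ => by
    have c := fun s => (closed_Sg s).preimage (continuous_act ψ)
    rcases isPreconnected_iff_subset_of_disjoint_closed.1 h5 _ _ (c 1) (c (-1)) (fun N hN => by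
      obtain ⟨K, a, b⟩ := ex_it (X_act hψ (h6 hN).2) (na_act ψ (h6 hN).1.1)
      rcases le_total 0 K.det with d | d
      · exact .inl ⟨K, a, by linarith, b⟩
      · exact .inr ⟨K, a, by linarith, b⟩)
      (eq_empty_of_forall_notMem fun N hN => disj ψ (h6 hN.1).1.1 (h6 hN.1).1.2 hN.2.1 hN.2.2)
      with d | d
    · refine absurd (closure_minimal (subset_union_right.trans d) (c 1) ?_) (not_Sg ψ)
      exact image_closure_subset_closure_image cont_path ⟨0, by simp only [ne_eq, zero_ne_one, not_false_eq_true, closure_Ioc, mem_Icc, Std.le_refl, zero_le_one, and_self], rfl⟩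
    · by_cases e : hc (act ψ M) 0 = 1
      · rw [e, tr_one]
      · by_contra f
        refine disj ψ (h2 hM).1.1 (h2 hM).1.2 ⟨_, fun k => e (Subtype.ext (sub_eq_zero.1 k)), ?_,
          it_D (X_act hψ (h2 hM).2)⟩ (d (.inl hM))
        have := basic_det (hc (act ψ M) 0)
        unfold tr at f
        simp only [Matrix.det_fin_two, Matrix.sub_apply, basic_one00, basic_one01, basic_one10,
          basic_one11]
        linarith⟩
  intro h
  refine mu_pos (by norm_num) (db_X r0 (bt 1)) n1 h3 (measure_mono_null_ae ?_ h)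
  filter_upwards [ae_X 0] with N a b using h7 (h4 ⟨b, a⟩)

noncomputable def pA : G := ⟨!![2, 0; 0, 1 / 2], by simp [Matrix.det_fin_two]⟩
def pB : G := ⟨!![2, 1; 1, 1], by simp [Matrix.det_fin_two]; norm_num⟩

theorem tr_AB : tr (cm pA pB) < 2 := by
  simp only [tr, cm, basic_mul, basic_inv00, basic_inv01, basic_inv10, basic_inv11]
  simp only [pA, one_div, Fin.isValue, Matrix.of_apply, Matrix.cons_val', Matrix.cons_val_zero, Matrix.cons_val_fin_one, pB, Matrix.cons_val_one, mul_one, add_zero, ne_eq, OfNat.ofNat_ne_zero, not_false_eq_true, mul_inv_cancel_right₀, neg_zero, mul_zero, zero_add, mul_neg, zero_mul, inv_mul_cancel₀, one_mul]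
  norm_num

theorem cont_hc : Continuous fun M : Tup 2 => tr (hc M 0) := by
  refine continuous_tr.comp ?_
  unfold hc cm ha hb
  fun_prop

theorem Y_neg : mu 2 0 Yᶜ ≠ 0 := by
  intro h
  refine mu_pos (by norm_num) (db_X pA pB) (db_na fun c => ?_) (O := {M | tr (hc M 0) < 2})
    ((isOpen_lt cont_hc continuous_const).mem_nhds tr_AB) (measure_mono_null (t := Yᶜ) (fun M a b => ?_) h)
  · have := tr_AB
    rw [cm, c, show pB * pA * pA⁻¹ * pB⁻¹ = 1 by group, tr_one] at this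
    exact lt_irrefl _ this
  · have := b.2 _ autR_refl
    rw [act_refl] at this
    exact not_lt.2 this a

theorem closed_Y : IsClosed Y := by
  refine (isClosed_X 0).inter ?_
  change IsClosed {M : Tup 2 | ∀ ψ, AutR ψ → 2 ≤ tr (hc (act ψ M) 0)}
  simp only [ofPred_forall]
  exact isClosed_iInter fun ψ => isClosed_iInter fun _ =>
    isClosed_le continuous_const (cont_hc.comp (continuous_act ψ))

theorem lift_pm {g : ℕ} {M N : Tup g} (h : ∀ x, PM (M x) (N x)) (w : Fr g) :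
    PM (FreeGroup.lift M w) (FreeGroup.lift N w) := by
  induction w using FreeGroup.induction_on with
  | C1 => simpa using PM.refl _
  | of x => simpa using h x
  | inv_of x ih => simpa only [map_inv] using ih.inv
  | mul a b iha ihb => simpa only [map_mul] using iha.mul ihb

theorem cm_pm {a b c d : G} (h : PM a c) (h' : PM b d) : cm a b = cm c d := by
  rw [← pj_cmt c d, ← cm_lift (x' := lf a) (y' := lf b) (by rwa [pj_lf]) (by rwa [pj_lf])]
  exact (pj_cmt a b).symm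

theorem lift_cj {g : ℕ} (k : G) (M : Tup g) (w : Fr g) :
    FreeGroup.lift (fun x => cj k (M x)) w = cj k (FreeGroup.lift M w) := by
  have : FreeGroup.lift (fun x => cj k (M x)) =
      (MulAut.conj k).toMonoidHom.comp (FreeGroup.lift M) := by
    ext1 x; simp only [cj, FreeGroup.lift_apply_of, MulEquiv.toMonoidHom_eq_coe, MonoidHom.coe_comp, MonoidHom.coe_coe, Function.comp_apply, MulAut.conj_apply]
  rw [this]; rfl

theorem Y_cj (k : G) {M : Tup 2} (h : M ∈ Y) : (fun x => cj k (M x)) ∈ Y := by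
  refine ⟨?_, fun ψ hψ => ?_⟩
  · change Rt _ 2 = _
    rw [Rt_eq (L := fun x => (MulAut.conj (lf k)).toMonoidHom (lf (M x))) fun x => .inl (by
      simp only [MulEquiv.toMonoidHom_eq_coe, MonoidHom.coe_coe, MulAut.conj_apply, map_mul, pj_lf, map_inv, cj]), pre_map, show pre _ 2 = _ from h.1]
    simp [zt_zero]
  · have : hc (act ψ fun x => cj k (M x)) 0 = cj k (hc (act ψ M) 0) := by
      simp only [hc, ha, hb, act, lift_cj]
      unfold cm cj
      group
    rw [this, tr_cj]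
    exact h.2 ψ hψ

theorem g2_not : ∃ S : Set (SurfaceGroup 2 →* PSL), (∀ ρ ∈ S, EulerNumber ρ 0) ∧
    MeasurableSet (liftSet S) ∧ (∀ φ, IsPos φ → ∀ ρ ∈ S, ρ.comp φ.toMonoidHom ∈ S) ∧
    (∀ p : PSL, ∀ ρ ∈ S, (MulAut.conj p).toMonoidHom.comp ρ ∈ S) ∧
    vol 2 (liftSet S) ≠ 0 ∧ vol 2 (liftSet ({ρ | EulerNumber ρ 0} \ S)) ≠ 0 := by
  set S : Set (SurfaceGroup 2 →* PSL) :=
    {ρ | ∃ M ∈ Y, ∀ x, (QuotientGroup.mk (M x) : PSL) = ρ (PresentedGroup.of x)} with hS
  have h1 : ∀ ρ ∈ S, EulerNumber ρ 0 := fun ρ ⟨M, a, b⟩ => (X_iff_euler b).1 a.1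
  have h2 : io ⁻¹' liftSet S = Y := by
    ext M
    rw [yf_mem]
    constructor
    · rintro ⟨ρ, ⟨N, a, b⟩, c⟩
      refine ⟨(X_iff_euler c).2 ((X_iff_euler b).1 a.1), fun ψ hψ => ?_⟩
      have k := lift_pm fun x => xy_pm_of_mk ((c x).trans (b x).symm)
      exact (a.2 ψ hψ).trans_eq (congrArg tr (cm_pm (k _) (k _)).symm)
    · intro a
      obtain ⟨ρ, b⟩ := exists_rho a.1
      exact ⟨ρ, ⟨M, a, b⟩, b⟩
  refine ⟨S, h1, ?_, ?_, ?_, ?_, ?_⟩
  · rw [← yf_img, h2]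
    exact (io_emb.isClosedMap _ closed_Y).measurableSet
  · rintro φ ⟨ψ, hψ, hφ⟩ ρ ⟨M, a, h⟩
    refine ⟨act ψ M, ⟨X_act hψ a.1, fun χ hχ => ?_⟩, fun x => ?_⟩
    · rw [← act_trans]
      exact a.2 _ (hχ.trans hψ)
    · have : ρ.comp (PresentedGroup.mk _) = (QuotientGroup.mk' _).comp (FreeGroup.lift M) := by
        ext x
        rw [MonoidHom.comp_apply, MonoidHom.comp_apply, FreeGroup.lift_apply_of]
        exact (h x).symm
      have e := DFunLike.congr_fun this (ψ (FreeGroup.of x))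
      rw [MonoidHom.comp_apply, ← hφ] at e
      exact e.symm
  · rintro p ρ ⟨M, a, h⟩
    obtain ⟨k, rfl⟩ := QuotientGroup.mk_surjective p
    exact ⟨_, Y_cj k a, fun x => by simp only [cj, QuotientGroup.mk_mul, h, QuotientGroup.mk_inv, MulEquiv.toMonoidHom_eq_coe, MonoidHom.coe_comp, MonoidHom.coe_coe, Function.comp_apply, MulAut.conj_apply]⟩
  · rw [← yf_mu h1, h2]
    exact Y_pos
  · rw [← yf_mu (e := 0) (S := {ρ | EulerNumber ρ 0} \ S) fun _ h => h.1]
    refine fun h => Y_neg (measure_mono_null_ae ?_ h)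
    filter_upwards [ae_X 0] with M a b
    obtain ⟨ρ, c⟩ := exists_rho a
    exact yf_mem.2 ⟨ρ, ⟨(X_iff_euler c).1 a, fun d => b (h2 ▸ yf_mem.2 ⟨ρ, d, c⟩)⟩, c⟩

end Pool.Agent.MP_596265_gt.G2

end
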