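import Pool.Agent.MP_596265_gt.E5
import Pool.Agent.MP_596265_gt.W.P0
import Pool.Agent.MP_596265_gt.W.A0

attribute [-instance] SMulZeroClass.toSMul GradedMonoid.GradeZero.smul RKHS.instFunLike
  NonUnitalRingHomClass.toMulHomClass MulZeroOneClass.toMulOneClass MonTypeEquivalenceMon.monMonoid
  DivisionCommMonoid.toDivisionMonoid Distrib.toMul Algebra.toSMul
  NonUnitalAlgSemiHomClass.toMulHomClass SemigroupWithZero.toSemigroup Valued.toUniformSpace
  MonoidWithZeroHomClass.toMonoidHomClass BialgHomClass.toMonoidHomClass TestFunctionClass.toDFunLike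
  instCoeTCOfCoe ContDiffMapSupportedInClass.toDFunLike

section

/-! Block T: marked one-vertex triangulations. Definitions. -/

namespace Pool.Agent.MP_596265_gt.U

open Erg

variable {g : ℕ} {E : Type}

/-- The normal closure of the relator. -/
def NN (g : ℕ) : Subgroup (Fr g) := Subgroup.normalClosure {relPre g g}

instance (g : ℕ) : (NN g).Normal := Subgroup.normalClosure_normal

/-- Congruence modulo the relator. -/
def Cg (x y : Fr g) : Prop := x⁻¹ * y ∈ NN g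

/-- All faces are triangles. -/
def IsTri (n : Equiv.Perm (E × Bool)) : Prop := (∀ d, n (n (n d)) = d) ∧ ∀ d, n d ≠ d

/-- Product of the labels around the face of `d`, starting at `d`. -/
def fp {H : Type} [Group H] (n : Equiv.Perm (E × Bool)) (μ : E → H) (d : E × Bool) : H :=
  dlab μ d * dlab μ (n d) * dlab μ (n (n d))

/-- `d` is not in the face of `d₀`. -/
def Off (n : Equiv.Perm (E × Bool)) (d₀ d : E × Bool) : Prop := d ≠ d₀ ∧ d ≠ n d₀ ∧ d ≠ n (n d₀)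

/-- The dual graph is connected. -/
def Con (n : Equiv.Perm (E × Bool)) : Prop :=
  ∀ ε : E × Bool → Bool, (∀ d, ε (n d) = ε d) → (∀ d, ε (rev d) = ε d) → ∀ d d', ε d = ε d'

/-- A marking in the free group, with the relator on the face of `d₀`. -/
structure MarkAt (n : Equiv.Perm (E × Bool)) (d₀ : E × Bool) (l : E → Fr g) : Prop where
  rel : ∀ d, Off n d₀ d → fp n l d = 1
  dfc : IsConj (fp n l d₀) (relPre g g)
  gen : Subgroup.closure (Set.range l) = ⊤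
  ext : ∀ (H : Type) [Group H] (μ : E → H), (∀ d, Off n d₀ d → fp n μ d = 1) →
    ∃ φ : Fr g →* H, ∀ e, φ (l e) = μ e
  con : Con n

/-- A marking modulo the relator. -/
def Mark (n : Equiv.Perm (E × Bool)) (l : E → Fr g) : Prop :=
  ∃ d₀ l', MarkAt n d₀ l' ∧ ∀ e, Cg (l e) (l' e)

/-- Essential simple closed curves modulo the relator. -/
def Simp (c : Fr g) : Prop :=
  ∃ ψ : Fr g ≃* Fr g, AutR ψ ∧ ((∃ k : Fin g, Cg c (ψ (FreeGroup.of (k, false))) ∨
    Cg c (ψ (FreeGroup.of (k, false)))⁻¹) ∨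
    ∃ h : ℕ, 0 < h ∧ h < g ∧ (Cg c (ψ (relPre g h)) ∨ Cg c (ψ (relPre g h))⁻¹))

/-- `n'` is the flip of `n` at `d`: the faces (d,a,b), (rev d,c,h) become (d,b,c), (rev d,h,a). -/
structure IsFlip (n : Equiv.Perm (E × Bool)) (d : E × Bool) (n' : Equiv.Perm (E × Bool)) :
    Prop where
  sep : Off n d (rev d)
  e1 : n' d = n (n d)
  e2 : n' (n (n d)) = n (rev d)
  e3 : n' (n (rev d)) = d
  e4 : n' (rev d) = n (n (rev d))
  e5 : n' (n (n (rev d))) = n d
  e6 : n' (n d) = rev d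
  out : ∀ x, Off n d x → Off n (rev d) x → n' x = n x

/-- The labels after the flip at `d`. -/
structure FlipL {H : Type} [Group H] (n : Equiv.Perm (E × Bool)) (d : E × Bool)
    (μ μ' : E → H) : Prop where
  out : ∀ e, e ≠ d.1 → μ' e = μ e
  new : dlab μ' d = (dlab μ (n (n d)) * dlab μ (n (rev d)))⁻¹

/-- Triangulations of the vertices `i, ..., j` by triangles with the property `Q`. -/
inductive PQ (Q : ℕ → ℕ → ℕ → Prop) : ℕ → ℕ → Prop
  | leaf (i : ℕ) : PQ Q i (i + 1)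
  | node {i k j : ℕ} : PQ Q i k → PQ Q k j → Q i k j → PQ Q i j

/-- First return to the edges in `S` in the rotation at the vertex: after the dart `s` come the
darts `X` outside `S` and then the dart `s'`. -/
def Cor (n : Equiv.Perm (E × Bool)) : E × Bool → List (E × Bool) → E × Bool → Prop
  | s, [], s' => n s = s'
  | s, x :: X, s' => n s = x ∧ Cor n (rev x) X s'

end Pool.Agent.MP_596265_gt.U

end

section

/-! Shared definitions for the full range of Euler numbers (not used in the statement). -/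

namespace Pool.Agent.MP_596265_gt.U

open Erg Real UpperHalfPlane MeasureTheory Set Filter Topology

noncomputable section

theorem ad_zero (a : G) : ad a 0 = 0 := by simp [ad]

/-- The tangent group: a matrix and the value of a cocycle. -/
@[ext] structure TG where
  a : G
  u : Mat

instance : Group TG where
  mul x y := ⟨x.a * y.a, x.u + ad x.a y.u⟩
  one := ⟨1, 0⟩
  inv x := ⟨x.a⁻¹, -ad x.a⁻¹ x.u⟩
  mul_assoc x y z := TG.ext (mul_assoc _ _ _) (by
    change x.u + ad x.a y.u + ad (x.a * y.a) z.u = x.u + ad x.a (y.u + ad y.a z.u)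
    rw [ad_add, ad_mul, add_assoc])
  one_mul x := TG.ext (one_mul _) (by
    change 0 + ad 1 x.u = x.u
    rw [ad_one, zero_add])
  mul_one x := TG.ext (mul_one _) (by
    change x.u + ad x.a 0 = x.u
    rw [ad_zero, add_zero])
  inv_mul_cancel x := TG.ext (inv_mul_cancel _) (by
    change -ad x.a⁻¹ x.u + ad x.a⁻¹ x.u = 0
    rw [neg_add_cancel])

@[simp] theorem TG.mul_a (x y : TG) : (x * y).a = x.a * y.a := rfl
@[simp] theorem TG.mul_u (x y : TG) : (x * y).u = x.u + ad x.a y.u := rfl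
@[simp] theorem TG.one_a : (1 : TG).a = 1 := rfl
@[simp] theorem TG.one_u : (1 : TG).u = 0 := rfl
@[simp] theorem TG.inv_a (x : TG) : x⁻¹.a = x.a⁻¹ := rfl
@[simp] theorem TG.inv_u (x : TG) : x⁻¹.u = -ad x.a⁻¹ x.u := rfl

/-! Maps given by darts -/

abbrev Dr (E : Type) : Type := E × Bool
/-- The face permutation. -/
abbrev Nx (E : Type) : Type := Equiv.Perm (Dr E)

section maps
variable {E H : Type} {g : ℕ}

/-- Rotation at the vertex (clockwise when faces are counterclockwise). -/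
def tw (n : Nx E) (d : Dr E) : Dr E := n (rev d)

/-- A triangulation with one vertex. -/
structure Trg (n : Nx E) : Prop where
  cube : ∀ d, n (n (n d)) = d
  ne : ∀ d, n d ≠ d
  one : ∀ ε : Dr E → ZMod 2, (∀ d, ε (n d) = ε (rev d)) → ∀ d d', ε d = ε d'

/-- The two sides of the edge of `d` are different faces. -/
def Fl (n : Nx E) (d : Dr E) : Prop := rev d ≠ n d ∧ rev d ≠ n (n d)

/-- With `a = n d`, `b = n a`, `c = n (rev d)`, `h = n c`: the cycle `a, b, c, h`. -/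
def cyc [DecidableEq E] (n : Nx E) (d : Dr E) : Nx E :=
  Equiv.swap (n d) (n (n (rev d))) * Equiv.swap (n d) (n (rev d)) * Equiv.swap (n d) (n (n d))

/-- Flip: the faces `d a b` and `rev d, c, h` become `d b c` and `rev d, h, a`. -/
def fnx [DecidableEq E] (n : Nx E) (d : Dr E) : Nx E := cyc n d * n * (cyc n d)⁻¹

/-- Labels after the flip: the new label of `d` is the inverse of `b c`. -/
def flb [DecidableEq E] [Group H] (n : Nx E) (L : E → H) (d : Dr E) : E → H :=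
  Function.update L d.1 (cond d.2 (dlab L (n (n d)) * dlab L (n (rev d)))⁻¹
    (dlab L (n (n d)) * dlab L (n (rev d))))

/-- A relabelling of darts that carries `n` to `n'`. -/
structure Rlb (σ : Nx E) (n n' : Nx E) : Prop where
  rv : ∀ d, σ (rev d) = rev (σ d)
  nx : ∀ d, σ (n d) = n' (σ d)

/-- Equality in the surface group. -/
abbrev EqN (x y : Fr g) : Prop := Cg x y

/-- All simple closed curves have trace at least `2 + ε` in absolute value. -/
def Kset (g : ℕ) (ε : ℝ) : Set (Tup g) :=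
  {M | ∀ ψ, AutR ψ → (∀ k, 2 + ε ≤ |tr (ha (act ψ M) k)|) ∧
    ∀ h, 0 < h → h < g → 2 + ε ≤ |tr (pre (act ψ M) h)|}

/-- The relator is killed up to sign. -/
def Fm (M : Tup g) : Prop := PM (FreeGroup.lift M (relPre g g)) 1

/-- Conjugation of a labelling. -/
def cjL [Group H] (k : H) (L : E → H) : E → H := fun x => k * L x * k⁻¹

/-! Geometry -/

/-- The end of the dart `d`; it starts at `z`. -/
def vQ (L : E → G) (z : ℍ) (d : Dr E) : ℍ := dlab L d • z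
/-- The third vertex of the face of `d`. -/
def vR (n : Nx E) (L : E → G) (z : ℍ) (d : Dr E) : ℍ := (dlab L d * dlab L (n d)) • z
/-- The third vertex of the face on the other side of `d`. -/
def vS (n : Nx E) (L : E → G) (z : ℍ) (d : Dr E) : ℍ := dlab L (n (rev d)) • z
/-- Determinant of the face of `d`. -/
def fD (n : Nx E) (L : E → G) (z : ℍ) (d : Dr E) : ℝ := hD z (vQ L z d) (vR n L z d)

def Flat (n : Nx E) (L : E → G) : Prop := ∀ d, PM (fp n L d) 1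
def Pos (n : Nx E) (L : E → G) (z : ℍ) : Prop := ∀ d, 0 < fD n L z d

/-- A positive geometric state. -/
structure Gs (n : Nx E) (L : E → G) (z : ℍ) : Prop where
  trg : Trg n
  flat : Flat n L
  pos : Pos n L z

/-- Change of the sum of the determinants of the faces under the flip of `d`. -/
def dV (n : Nx E) (L : E → G) (z : ℍ) (d : Dr E) : ℝ :=
  hD (vS n L z d) (vR n L z d) z + hD (vR n L z d) (vS n L z d) (vQ L z d) -
    hD z (vQ L z d) (vR n L z d) - hD (vQ L z d) z (vS n L z d)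

/-- Weakly Delaunay. -/
def Del (n : Nx E) (L : E → G) (z : ℍ) : Prop := ∀ d, 0 ≤ dV n L z d

/-! Cochains -/

def tg (L : E → G) (c : E → Mat) : E → TG := fun x => ⟨L x, c x⟩
/-- Value of a cochain on a dart. -/
def dc (L : E → G) (c : E → Mat) (d : Dr E) : Mat := (dlab (tg L c) d).u
/-- Value of a cochain at the third vertex of the face of `d`. -/
def dc2 (n : Nx E) (L : E → G) (c : E → Mat) (d : Dr E) : Mat :=
  dc L c d + ad (dlab L d) (dc L c (n d))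
/-- Cocycles. -/
def Zc (n : Nx E) (L : E → G) (c : E → Mat) : Prop :=
  (∀ x, (c x).trace = 0) ∧ ∀ d, (fp n (tg L c) d).u = 0
/-- The coboundary of `K`. -/
def dK (L : E → G) (K : Mat) : E → Mat := fun x => K - ad (L x) K
def Cob (L : E → G) (c : E → Mat) : Prop := ∃ K : Mat, K.trace = 0 ∧ c = dK L K
/-- No invariant vector. -/
def Irr (L : E → G) : Prop := ∀ K : Mat, K.trace = 0 → (∀ x, ad (L x) K = K) → K = 0
/-- The cochain after a flip. -/
def flc [DecidableEq E] (n : Nx E) (L : E → G) (c : E → Mat) (d : Dr E) : E → Mat :=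
  fun x => (flb n (tg L c) d x).u
/-- The symplectic form of a triangulation. -/
def omT [Fintype E] (n : Nx E) (L : E → G) (c c' : E → Mat) : ℝ :=
  (∑ d, ((dc L c d * dc2 n L c' d).trace - (dc2 n L c d * dc L c' d).trace)) / 6

/-- The geometric labels of a marking. -/
def geo (M : Tup g) (l : E → Fr g) : E → G := fun x => FreeGroup.lift M (l x)
/-- The cochain of a marking. -/
def geoT (M : Tup g) (u : Gen g → Mat) (l : E → Fr g) : E → Mat :=
  fun x => coc M u (l x)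

end maps

/-! Marked states -/

abbrev Ed (g : ℕ) : Type := Fin (6 * g - 3)
abbrev MS (g : ℕ) : Type := Nx (Ed g) × (Ed g → Fr g)

section marked
variable {g : ℕ}

/-- Marked triangulation. -/
def MT (τ : MS g) : Prop := Trg τ.1 ∧ Mark τ.1 τ.2
def Ps (M : Tup g) (z : ℍ) (τ : MS g) : Prop := Pos τ.1 (geo M τ.2) z
def Dl (M : Tup g) (z : ℍ) (τ : MS g) : Prop := Del τ.1 (geo M τ.2) z
def flip (τ : MS g) (d : Dr (Ed g)) : MS g := (fnx τ.1 d, flb τ.1 τ.2 d)
/-- The action of an automorphism, `geo M (mp ψ τ).2 = geo (act ψ M) τ.2`. -/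
def mp (ψ : Fr g ≃* Fr g) (τ : MS g) : MS g := (τ.1, fun x => ψ (τ.2 x))
def Iso (τ τ' : MS g) : Prop :=
  ∃ σ, Rlb σ τ.1 τ'.1 ∧ ∀ d, EqN (dlab τ.2 d) (dlab τ'.2 (σ d))

/-- One move between positive states. -/
inductive Mv (M : Tup g) (z : ℍ) : MS g → MS g → Prop
  | iso {τ τ'} : MT τ → Ps M z τ → Iso τ τ' → Mv M z τ τ'
  | flip {τ} (d) : MT τ → Ps M z τ → Ps M z (flip τ d) → Mv M z τ (flip τ d)

/-- The same branched structure. -/
def Eqv (M : Tup g) (z : ℍ) : MS g → MS g → Prop := Relation.EqvGen (Mv M z)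

/-- One move along a leaf. -/
inductive Lm (M : Tup g) : ℍ × MS g → ℍ × MS g → Prop
  | mv {z τ τ'} : Mv M z τ τ' → Lm M (z, τ) (z, τ')
  | go {z z' τ} (C : Set ℍ) : MT τ → IsPreconnected C → z ∈ C → z' ∈ C → (∀ w ∈ C, Ps M w τ) →
      Lm M (z, τ) (z', τ)

/-- The same leaf. -/
def Lf (M : Tup g) : ℍ × MS g → ℍ × MS g → Prop := Relation.EqvGen (Lm M)

/-- All edges have length in `[η, R]`. -/
def Bd (η R : ℝ) (M : Tup g) (z : ℍ) (τ : MS g) : Prop :=
  ∀ d, η ≤ dist z (vQ (geo M τ.2) z d) ∧ dist z (vQ (geo M τ.2) z d) ≤ R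

/-- States whose leaf is thick. -/
def KL (η R : ℝ) (M : Tup g) (z : ℍ) (τ : MS g) : Prop :=
  M ∈ Kset g 0 ∧ MT τ ∧ Ps M z τ ∧ ∀ z' τ', Lf M (z, τ) (z', τ') →
    ∃ τ'', Eqv M z' τ' τ'' ∧ Dl M z' τ'' ∧ Bd η R M z' τ''

end marked

/-! The Hodge norm -/

section hodge
variable {E : Type}

/-- Smooth families of matrices. -/
def SmM {P : Type} [NormedAddCommGroup P] [NormedSpace ℝ P] (c : P → E → Mat) (O : Set P) : Prop :=
  ∀ x i j, ContDiffOn ℝ (⊤ : ℕ∞) (fun p => c p x i j) O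

abbrev HF (E : Type) : Type := Nx E → (E → G) → ℍ → (E → Mat) → (E → Mat) → ℝ

/-- Output of block H. -/
structure HAx [Fintype E] [DecidableEq E] (F : HF E) : Prop where
  add : ∀ {n L z c₁ c₂ c'}, Gs n L z → Zc n L c₁ → Zc n L c₂ → Zc n L c' →
    F n L z (c₁ + c₂) c' = F n L z c₁ c' + F n L z c₂ c'
  smul : ∀ {n L z c c'} (a : ℝ), Gs n L z → Zc n L c → Zc n L c' →
    F n L z (a • c) c' = a * F n L z c c'
  symm : ∀ {n L z c c'}, Gs n L z → Zc n L c → Zc n L c' → F n L z c c' = F n L z c' c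
  nonneg : ∀ {n L z c}, Gs n L z → Zc n L c → 0 ≤ F n L z c c
  cob : ∀ {n L z c c'}, Gs n L z → Cob L c → Zc n L c' → F n L z c c' = 0
  nd : ∀ {n L z c c'}, Gs n L z → Zc n L c → Zc n L c' → F n L z c c = 0 → omT n L c c' = 0
  conj : ∀ {n L z c} (k : G), Gs n L z → Zc n L c →
    F n (cjL k L) (k • z) (fun x => ad k (c x)) (fun x => ad k (c x)) = F n L z c c
  iso : ∀ {n n' L L' z c c'} (σ : Nx E), Gs n L z → Zc n L c → Rlb σ n n' →
    (∀ d, PM (dlab L d) (dlab L' (σ d)) ∧ dc L c d = dc L' c' (σ d)) →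
    F n' L' z c' c' = F n L z c c
  flip : ∀ {n L z c} (d : Dr E), Gs n L z → Gs (fnx n d) (flb n L d) z → Zc n L c →
    F (fnx n d) (flb n L d) z (flc n L c d) (flc n L c d) = F n L z c c
  reg : ∀ {P : Type} [NormedAddCommGroup P] [NormedSpace ℝ P] [FiniteDimensional ℝ P] {O : Set P}
    {n : Nx E} {L : P → E → G} {z : P → ℍ} {c : P → E → Mat}, IsOpen O →
    SmM (fun p x => (L p x : Mat)) O → ContDiffOn ℝ (⊤ : ℕ∞) (fun p => (z p : ℂ)) O → SmM c O →
    (∀ p ∈ O, Gs n (L p) (z p) ∧ Zc n (L p) (c p)) →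
    ContDiffOn ℝ 2 (fun p => F n (L p) (z p) (c p) (c p)) O
  lt : ∀ {n L z c}, Gs n L z → Zc n L c → En.LT (fun w => F n L (ofComplex w) c c) z

/-- Output of block R. -/
def RAx (F : HF E) : Prop :=
  ∀ {n L z} (W : Submodule ℝ (E → Mat)), Gs n L z →
    (∀ c ∈ W, Zc n L c ∧ ∀ᶠ w in 𝓝 z, F n L w c c = F n L z c c) →
    ∃ q : W →ₗ[ℝ] ℂ → ℂ, ∀ c : W, DifferentiableOn ℂ (q c) {w | 0 < w.im} ∧
      (∀ x (w : ℍ), q c (L x • w : ℍ) = ((L x 1 0 : ℝ) * (w : ℂ) + (L x 1 1 : ℝ)) ^ 4 * q c w) ∧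
      ((∀ w : ℍ, q c w = 0) → F n L z c c = 0)

/-- The norm of the class `u` at a marked state. -/
def FM {g : ℕ} (F : HF (Ed g)) (M : Tup g) (z : ℍ) (τ : MS g) (u : Gen g → Mat) : ℝ :=
  F τ.1 (geo M τ.2) z (geoT M u τ.2) (geoT M u τ.2)

end hodge

/-! Interfaces between the blocks -/

/-- Output of block T. -/
structure TAx (g : ℕ) : Prop where
  flip : ∀ {τ : MS g} {d}, MT τ → Fl τ.1 d → MT (flip τ d)
  iso : ∀ {τ τ' : MS g}, MT τ → Iso τ τ' → MT τ'
  mp : ∀ {τ : MS g} {ψ}, MT τ → AutR ψ → MT (mp ψ τ)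
  flat : ∀ {τ : MS g}, MT τ → ∀ d, fp τ.1 τ.2 d ∈ NN g
  simp : ∀ {τ : MS g}, MT τ → ∀ d, Simp (dlab τ.2 d)
  same : ∀ {τ τ' : MS g}, MT τ → MT τ' → τ.1 = τ'.1 → ∃ ψ, AutR ψ ∧ ∀ x, EqN (ψ (τ.2 x)) (τ'.2 x)
  gen : ∀ {τ : MS g}, MT τ → ∀ y : Fr g, ∃ w, EqN y (lab τ.2 w)
  bd : ∀ {τ : MS g} {S : Set (Ed g)} {x : Dr (Ed g)}, MT τ → S.Nonempty → x.1 ∉ S →
    ∃ (m : ℕ) (s : ℕ → Dr (Ed g)) (Y : ℕ → List (Dr (Ed g))), 0 < m ∧ s m = s 0 ∧
      InjOn s (Iio m) ∧ (∀ i, (s i).1 ∈ S) ∧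
      (∀ i < m, Cor τ.1 (s i) (Y i) (s (i + 1)) ∧ ∀ y ∈ Y i, y.1 ∉ S) ∧ x ∈ Y (m - 1) ∧
      (Simp (lab τ.2 ((List.range m).map s)) ∨ ∃ A : List (Dr (Ed g)), A.Nodup ∧
        (∀ a ∈ A, a.1 ∈ S) ∧ dlab τ.2 x * lab τ.2 A ∈ NN g)
  area : ∀ {τ : MS g} {M e} (z : ℍ), MT τ → M ∈ X g e →
    ∑ d, tarea z (vQ (geo M τ.2) z d) (vR τ.1 (geo M τ.2) z d) = 6 * π * e
  om : ∀ {τ : MS g} {M u v}, MT τ → Fm M → Z1 M u → Z1 M v →
    omT τ.1 (geo M τ.2) (geoT M u τ.2) (geoT M v τ.2) = omg M u v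
  ex : ∀ {M e} (z : ℍ), M ∈ X g e → 1 ≤ e → TH (FreeGroup.lift M) → ∃ τ : MS g, MT τ ∧ Ps M z τ
  refl : ∀ e : ℤ, (∀ᵐ M ∂mu g e, HasEll M) → ∀ᵐ M ∂mu g (-e), HasEll M

/-- Output of block D. -/
structure DAx (g : ℕ) : Prop where
  nf : ∀ {M z} {τ : MS g}, Fm M → MT τ → Ps M z τ → ∃ τ', Eqv M z τ τ' ∧ Dl M z τ'
  loc : ∀ {M z} {τ τ' : MS g}, Fm M → MT τ → MT τ' → Ps M z τ → Ps M z τ' →
    ∀ᶠ q in 𝓝 (M, z), Fm q.1 → (Eqv q.1 q.2 τ τ' ↔ Eqv M z τ τ')
  fin : ∀ {τ : MS g} {C : Set (Tup g × ℍ)} (R : ℝ), MT τ → IsCompact C →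
    (∀ q ∈ C, Fm q.1 ∧ Ps q.1 q.2 τ) → ∃ S : Finset (Fr g), ∀ q ∈ C, ∀ τ', Eqv q.1 q.2 τ τ' →
      ∀ d, dist q.2 (vQ (geo q.1 τ'.2) q.2 d) ≤ R → ∃ s ∈ S, EqN (dlab τ'.2 d) s
  hH : ∀ {n : Nx (Ed g)} {L z}, Gs n L z → Del n L z → ∀ d, 0 ≤ hH z (vQ L z d) (vR n L z d)
  fat : ∀ η > 0, ∃ c > 0, ∀ {n : Nx (Ed g)} {L z}, Gs n L z → Del n L z →
    (∀ d, η ≤ dist z (vQ L z d)) → ∀ d, c ≤ fD n L z d
  sys : ∀ {M z} {τ τ' : MS g}, Fm M → MT τ → Ps M z τ → Eqv M z τ τ' → Dl M z τ' →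
    ∀ d, ∃ d', dist z (vQ (geo M τ'.2) z d') ≤ dist z (vQ (geo M τ.2) z d)
  kcl : ∀ {η R M z} {τ : MS g}, 0 < η → Fm M → Ps M z τ →
    (∃ᶠ q in 𝓝 (M, z), Fm q.1 ∧ KL η R q.1 q.2 τ) → KL η R M z τ

/-- Blocks A, E: at a state with strict gain the thick set is locally conull or locally null. -/
def LocP (g : ℕ) (e : ℤ) (F : HF (Ed g)) : Prop :=
  ∀ {η R : ℝ} {M z} {τ : MS g}, 0 < η → M ∈ X g e → KL η R M z τ →
    (∀ u, Z1 M u → 0 < FM F M z τ u → ¬ ∀ᶠ w in 𝓝 z, FM F M w τ u = FM F M z τ u) →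
    M ∈ Om e {N | KL η R N z τ} ∨ M ∈ Om e {N | KL η R N z τ}ᶜ

/-- Block Z. -/
def ThickP (g : ℕ) (e : ℤ) : Prop :=
  ∀ (η R : ℝ) (z : ℍ) (τ : MS g), 0 < η → mu g e {M | KL η R M z τ} = 0

/-- Block THIN. -/
def ThinP (g : ℕ) (e : ℤ) : Prop :=
  ∀ᵐ M ∂mu g e, ¬ HasEll M → ∃ η > 0, ∃ R τ, KL η R M I τ

end

end Pool.Agent.MP_596265_gt.U

end

section

/-! Block T, basic facts. -/

namespace Pool.Agent.MP_596265_gt.U

open Erg

variable {g : ℕ} {E : Type} {n n' : Equiv.Perm (E × Bool)} {l l' : E → Fr g}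

theorem cg_iff {x y : Fr g} : Cg x y ↔ (QuotientGroup.mk' (NN g)) x = QuotientGroup.mk' (NN g) y :=
  QuotientGroup.eq.symm
theorem Cg.refl (x : Fr g) : Cg x x := cg_iff.2 rfl
theorem Cg.symm {x y : Fr g} (h : Cg x y) : Cg y x := cg_iff.2 (cg_iff.1 h).symm
theorem Cg.trans {x y z : Fr g} (h : Cg x y) (h' : Cg y z) : Cg x z :=
  cg_iff.2 ((cg_iff.1 h).trans (cg_iff.1 h'))
theorem Cg.mul {x y x' y' : Fr g} (h : Cg x y) (h' : Cg x' y') : Cg (x * x') (y * y') :=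
  cg_iff.2 (by rw [map_mul, map_mul, cg_iff.1 h, cg_iff.1 h'])
theorem Cg.inv {x y : Fr g} (h : Cg x y) : Cg x⁻¹ y⁻¹ :=
  cg_iff.2 (by rw [map_inv, map_inv, cg_iff.1 h])
theorem cg_one {x : Fr g} : Cg x 1 ↔ x ∈ NN g := by
  rw [Cg, mul_one, inv_mem_iff]
theorem rel_mem_NN : relPre g g ∈ NN g := Subgroup.subset_normalClosure rfl
theorem mem_NN_of_conj {x : Fr g} (h : IsConj x (relPre g g)) : x ∈ NN g := by
  obtain ⟨c, rfl⟩ := isConj_iff.1 h.symm
  exact Subgroup.Normal.conj_mem inferInstance _ rel_mem_NN c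
theorem NN_le_ker {H : Type} [Group H] (φ : Fr g →* H) (hφ : φ (relPre g g) = 1) :
    NN g ≤ φ.ker :=
  Subgroup.normalClosure_le_normal (by rintro _ rfl; exact hφ)
/-- Homomorphisms that kill the relator respect the congruence. -/
theorem Cg.hom {H : Type} [Group H] (φ : Fr g →* H) (hφ : φ (relPre g g) = 1) {x y : Fr g}
    (h : Cg x y) : φ x = φ y := by
  have := NN_le_ker φ hφ h
  rwa [MonoidHom.mem_ker, map_mul, map_inv, inv_mul_eq_one] at this
theorem Cg.map {ψ : Fr g ≃* Fr g} (hψ : AutR ψ) {x y : Fr g} (h : Cg x y) : Cg (ψ x) (ψ y) :=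
  cg_iff.2 (h.hom ((QuotientGroup.mk' (NN g)).comp ψ.toMonoidHom)
    ((QuotientGroup.eq_one_iff _).2 (mem_NN_of_conj hψ)))
theorem cg_dlab (h : ∀ e, Cg (l e) (l' e)) (d : E × Bool) : Cg (dlab l d) (dlab l' d) := by
  obtain ⟨e, b⟩ := d
  cases b
  exacts [(h e).inv, h e]
theorem cg_lab (h : ∀ e, Cg (l e) (l' e)) (A : List (E × Bool)) : Cg (lab l A) (lab l' A) := by
  induction A with
  | nil => rw [lab_nil, lab_nil]; exact Cg.refl _
  | cons d A ih => rw [lab_cons, lab_cons]; exact (cg_dlab h d).mul ih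
theorem cg_fp (h : ∀ e, Cg (l e) (l' e)) (d : E × Bool) : Cg (fp n l d) (fp n l' d) :=
  ((cg_dlab h _).mul (cg_dlab h _)).mul (cg_dlab h _)
theorem pm_of_mem {σ : Fr g →* G} (hσ : PM (σ (relPre g g)) 1) {x : Fr g} (h : x ∈ NN g) :
    PM (σ x) 1 := by
  refine Subgroup.closure_induction (p := fun x _ => PM (σ x) 1) ?_ ?_ ?_ ?_ h
  · intro a ha
    obtain ⟨_, rfl, hc⟩ := Group.mem_conjugatesOfSet_iff.1 ha
    obtain ⟨c, rfl⟩ := isConj_iff.1 hc
    have := ((PM.refl (σ c)).mul hσ).mul (PM.refl (σ c)⁻¹)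
    rwa [mul_one, mul_inv_cancel, ← map_inv, ← map_mul, ← map_mul] at this
  · rw [map_one]; exact PM.refl _
  · intro a b _ _ ha hb
    have := ha.mul hb
    rwa [one_mul, ← map_mul] at this
  · intro a _ ha
    have := ha.inv
    rwa [inv_one, ← map_inv] at this
theorem Cg.pm {σ : Fr g →* G} (hσ : PM (σ (relPre g g)) 1) {x y : Fr g} (h : Cg x y) :
    PM (σ x) (σ y) := by
  have := (PM.refl (σ x)).mul (pm_of_mem hσ h)
  rw [mul_one, ← map_mul, mul_inv_cancel_left] at this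
  exact this.symm
theorem map_dlab {H K : Type} [Group H] [Group K] {F : Type} [FunLike F H K] [MonoidHomClass F H K]
    (φ : F) (μ : E → H) (d : E × Bool) : φ (dlab μ d) = dlab (fun e => φ (μ e)) d := by
  obtain ⟨e, b⟩ := d
  cases b
  exacts [map_inv φ _, rfl]
theorem map_fp {H K : Type} [Group H] [Group K] {F : Type} [FunLike F H K] [MonoidHomClass F H K]
    (φ : F) (μ : E → H) (d : E × Bool) : φ (fp n μ d) = fp n (fun e => φ (μ e)) d := by
  simp only [fp, map_mul, map_dlab]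
theorem IsTri.fp_nxt {H : Type} [Group H] (hn : IsTri n) (μ : E → H) (d : E × Bool) :
    fp n μ (n d) = (dlab μ d)⁻¹ * fp n μ d * dlab μ d := by
  simp only [fp, hn.1]; group
theorem Mark.congr (h : Mark n l) (hc : ∀ e, Cg (l e) (l' e)) : Mark n l' := by
  obtain ⟨d, m, h1, h2⟩ := h
  exact ⟨d, m, h1, fun e => (hc e).symm.trans (h2 e)⟩
theorem MarkAt.mark {d₀ : E × Bool} (h : MarkAt n d₀ l) : Mark n l := ⟨d₀, l, h, fun _ => Cg.refl _⟩
theorem MarkAt.rel' (hn : IsTri n) {d₀ : E × Bool} (h : MarkAt n d₀ l) (d : E × Bool) :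
    fp n l d ∈ NN g := by
  have h0 := mem_NN_of_conj h.dfc
  have st : ∀ x, fp n l x ∈ NN g → fp n l (n x) ∈ NN g := fun x hx => by
    rw [hn.fp_nxt]
    simpa only [inv_inv] using Subgroup.Normal.conj_mem inferInstance _ hx (dlab l x)⁻¹
  by_cases a : d = d₀
  · rw [a]; exact h0
  by_cases b : d = n d₀
  · rw [b]; exact st _ h0
  by_cases c : d = n (n d₀)
  · rw [c]; exact st _ (st _ h0)
  rw [h.rel d ⟨a, b, c⟩]; exact one_mem _
theorem Mark.rel (hn : IsTri n) (h : Mark n l) (d : E × Bool) : fp n l d ∈ NN g := by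
  obtain ⟨d₀, m, h1, h2⟩ := h
  exact cg_one.1 ((cg_fp h2 d).trans (cg_one.2 (h1.rel' hn d)))
theorem MarkAt.act {d₀ : E × Bool} (h : MarkAt n d₀ l) {ψ : Fr g ≃* Fr g} (hψ : AutR ψ) :
    MarkAt n d₀ fun e => ψ (l e) := by
  refine ⟨fun d hd => ?_, ?_, ?_, fun H _ μ hμ => ?_, h.con⟩
  · rw [← map_fp ψ, h.rel d hd, map_one]
  · rw [← map_fp ψ]
    exact (ψ.toMonoidHom.map_isConj h.dfc).trans hψ
  · have e : Set.range (fun e => ψ (l e)) = ψ.toMonoidHom '' Set.range l := by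
      rw [← Set.range_comp]; rfl
    rw [e, ← MonoidHom.map_closure, h.gen]
    exact Subgroup.map_top_of_surjective _ ψ.surjective
  · obtain ⟨φ, hφ⟩ := h.ext H μ hμ
    exact ⟨φ.comp ψ.symm.toMonoidHom, fun e => by simpa using hφ e⟩
theorem Mark.act (h : Mark n l) {ψ : Fr g ≃* Fr g} (hψ : AutR ψ) : Mark n fun e => ψ (l e) := by
  obtain ⟨d₀, m, h1, h2⟩ := h
  exact ⟨d₀, _, h1.act hψ, fun e => (h2 e).map hψ⟩
theorem dlab_mk {H : Type} [Group H] (ν : E × Bool → H) (h : ∀ d, ν (rev d) = (ν d)⁻¹)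
    (d : E × Bool) : dlab (fun e => ν (e, true)) d = ν d := by
  obtain ⟨e, b⟩ := d
  cases b
  · exact (h (e, true)).symm
  · rfl
theorem dlab_mem {H : Type} [Group H] (μ : E → H) (d : E × Bool) :
    dlab μ d ∈ Subgroup.closure (Set.range μ) := by
  obtain ⟨e, b⟩ := d
  cases b
  · exact inv_mem (Subgroup.subset_closure ⟨e, rfl⟩)
  · exact Subgroup.subset_closure ⟨e, rfl⟩
/-- Renaming of darts. -/
theorem Mark.ren (h : Mark n l) (F : Equiv.Perm (E × Bool)) (hF : ∀ d, F (rev d) = rev (F d))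
    (hn : ∀ d, n' (F d) = F (n d)) (hl : ∀ d, dlab l' (F d) = dlab l d) : Mark n' l' := by
  obtain ⟨d₀, m, h1, h2⟩ := h
  have hF' : ∀ d, F.symm (rev d) = rev (F.symm d) := fun d =>
    F.injective (by rw [hF, F.apply_symm_apply, F.apply_symm_apply])
  have hm : ∀ d, dlab (fun e => dlab m (F.symm (e, true))) (F d) = dlab m d := fun d => by
    rw [dlab_mk (fun x => dlab m (F.symm x)) fun x => by rw [hF', dlab_rev], F.symm_apply_apply]
  have ho : ∀ d, Off n' (F d₀) (F d) ↔ Off n d₀ d := fun d => by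
    simp only [Off, hn, ne_eq, F.apply_eq_iff_eq]
  refine ⟨F d₀, fun e => dlab m (F.symm (e, true)), ⟨fun d hd => ?_, ?_, ?_, fun H _ μ hμ => ?_,
    fun ε a b d d' => ?_⟩, fun e => ?_⟩
  · obtain ⟨d, rfl⟩ := F.surjective d
    simp only [fp, hn, hm]
    exact h1.rel d ((ho d).1 hd)
  · simp only [fp, hn, hm]
    exact h1.dfc
  · rw [eq_top_iff, ← h1.gen, Subgroup.closure_le]
    rintro _ ⟨e, rfl⟩
    have := dlab_mem (fun e => dlab m (F.symm (e, true))) (F (e, true))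
    rwa [hm] at this
  · have hν : ∀ d, dlab (fun e => dlab μ (F (e, true))) d = dlab μ (F d) :=
      dlab_mk (fun x => dlab μ (F x)) fun x => by rw [hF, dlab_rev]
    obtain ⟨φ, hφ⟩ := h1.ext H (fun e => dlab μ (F (e, true))) fun d hd => by
      have := hμ (F d) ((ho d).2 hd)
      simpa only [fp, hn, hν] using this
    refine ⟨φ, fun e => ?_⟩
    rw [map_dlab, funext hφ, hν, F.apply_symm_apply]; rfl
  · have := h1.con (fun x => ε (F x)) (fun x => by rw [← hn, a]) (fun x => by rw [hF, b])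
      (F.symm d) (F.symm d')
    simpa using this
  · have := cg_dlab h2 (F.symm (e, true))
    rwa [← hl, F.apply_symm_apply] at this
theorem Simp.congr {c c' : Fr g} (h : Simp c) (hc : Cg c c') : Simp c' := by
  obtain ⟨ψ, hψ, ⟨k, a⟩ | ⟨k, a, b, d⟩⟩ := h
  · exact ⟨ψ, hψ, Or.inl ⟨k, a.imp hc.symm.trans hc.symm.trans⟩⟩
  · exact ⟨ψ, hψ, Or.inr ⟨k, a, b, d.imp hc.symm.trans hc.symm.trans⟩⟩
theorem Simp.inv {c : Fr g} (h : Simp c) : Simp c⁻¹ := by
  obtain ⟨ψ, hψ, ⟨k, a⟩ | ⟨k, a, b, d⟩⟩ := h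
  · exact ⟨ψ, hψ, Or.inl ⟨k, a.symm.imp (fun t => by simpa using t.inv) Cg.inv⟩⟩
  · exact ⟨ψ, hψ, Or.inr ⟨k, a, b, d.symm.imp (fun t => by simpa using t.inv) Cg.inv⟩⟩
theorem Simp.act {c : Fr g} (h : Simp c) {ψ : Fr g ≃* Fr g} (hψ : AutR ψ) : Simp (ψ c) := by
  obtain ⟨χ, hχ, ⟨k, a⟩ | ⟨k, a, b, d⟩⟩ := h
  · exact ⟨χ.trans ψ, hχ.trans hψ, Or.inl ⟨k, a.imp (Cg.map hψ) fun t => by
      simpa only [MulEquiv.trans_apply, map_inv] using t.map hψ⟩⟩
  · exact ⟨χ.trans ψ, hχ.trans hψ, Or.inr ⟨k, a, b, d.imp (Cg.map hψ) fun t => by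
      simpa only [MulEquiv.trans_apply, map_inv] using t.map hψ⟩⟩
theorem autR_conj (u : Fr g) : AutR (MulAut.conj u) := (isConj_iff.2 ⟨u, rfl⟩).symm
theorem Simp.conj {c : Fr g} (h : Simp c) (u : Fr g) : Simp (u * c * u⁻¹) := h.act (autR_conj u)
/-- A lower bound for the traces of the standard curves in all markings holds on simple curves. -/
theorem Simp.tr_le {c : Fr g} (h : Simp c) {σ : Fr g →* G} (hσ : PM (σ (relPre g g)) 1) {t : ℝ}
    (ht : ∀ ψ : Fr g ≃* Fr g, AutR ψ → (∀ k : Fin g, t ≤ |tr (σ (ψ (FreeGroup.of (k, false))))|) ∧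
      ∀ h : ℕ, 0 < h → h < g → t ≤ |tr (σ (ψ (relPre g h)))|) : t ≤ |tr (σ c)| := by
  obtain ⟨ψ, hψ, ⟨k, a | a⟩ | ⟨k, a, b, d | d⟩⟩ := h
  · rw [(a.pm hσ).abs_tr]; exact (ht ψ hψ).1 k
  · rw [(a.pm hσ).abs_tr, map_inv, tr_inv]; exact (ht ψ hψ).1 k
  · rw [(d.pm hσ).abs_tr]; exact (ht ψ hψ).2 k a b
  · rw [(d.pm hσ).abs_tr, map_inv, tr_inv]; exact (ht ψ hψ).2 k a b

end Pool.Agent.MP_596265_gt.U

end

section

/-! Basic facts on marked states: naturality, invariance, openness. -/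

namespace Pool.Agent.MP_596265_gt.U.Bas

open Erg Real UpperHalfPlane Set Filter Topology

noncomputable section

/-! Geometric states -/

section geom
variable {E : Type} {n n' : Nx E} {L L' : E → G} {z z' : ℍ}

theorem hD_smul (k : G) (p q r : ℍ) : hD (k • p) (k • q) (k • r) = hD p q r := by
  have h1 : hD (k • p) (k • q) (k • r) ^ 2 = hD p q r ^ 2 := by
    simp only [hD_sq, ch, dist_smul]
  obtain ⟨c, hc, e⟩ := hdet_smul k p q r
  have h2 : ∀ ν : ℝ, 0 < ν * hD (k • p) (k • q) (k • r) ↔ 0 < ν * hD p q r := fun ν => by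
    rw [hD_pos, hD_pos, e, mul_left_comm]
    exact mul_pos_iff_of_pos_left hc
  rcases sq_eq_sq_iff_eq_or_eq_neg.1 h1 with h | h
  · exact h
  · have a := h2 1
    have b := h2 (-1)
    rw [h] at a b ⊢
    rcases lt_trichotomy (hD p q r) 0 with t | t | t
    · have := b.2 (by linarith); linarith
    · rw [t, neg_zero]
    · have := a.2 (by linarith); linarith

theorem hD_self (p q : ℍ) : hD p q p = 0 := by simp [hD, hdet, det3, mul_comm]

theorem continuous_hD : Continuous fun x : ℍ × ℍ × ℍ => hD x.1 x.2.1 x.2.2 := by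
  unfold hD hdet det3 Φ
  refine Continuous.div (by fun_prop) (by fun_prop) fun x => ?_
  exact (mul_pos (mul_pos x.1.im_pos x.2.1.im_pos) x.2.2.im_pos).ne'

theorem cont_hD {α : Type} [TopologicalSpace α] {p q r : α → ℍ} (hp : Continuous p)
    (hq : Continuous q) (hr : Continuous r) : Continuous fun x => hD (p x) (q x) (r x) :=
  continuous_hD.comp (hp.prodMk (hq.prodMk hr))

/-- In a positive state the two sides of an edge are different faces. -/
theorem fl_of_pos (ht : Trg n) (hp : Pos n L z) (d : Dr E) : Fl n d := by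
  have key : ∀ x, rev x ≠ n x := fun x h => by
    have := hp x
    rw [fD, vR, ← h, dlab_rev, mul_inv_cancel, one_smul, hD_self] at this
    exact lt_irrefl _ this
  refine ⟨key d, fun h => key (n (n d)) ?_⟩
  rw [ht.cube, ← h, rev_rev]

/-- The two states agree up to a relabelling, signs and the isometry `k`. -/
structure Tr (σ : Nx E) (k : G) (n : Nx E) (L : E → G) (z : ℍ) (n' : Nx E) (L' : E → G)
    (z' : ℍ) : Prop where
  rl : Rlb σ n n'
  pt : z' = k • z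
  lb : ∀ d, PM (dlab L' (σ d)) (k * dlab L d * k⁻¹)

namespace Tr
variable {σ : Nx E} {k : G}

theorem vQ_eq (h : Tr σ k n L z n' L' z') (d : Dr E) : vQ L' z' (σ d) = k • vQ L z d := by
  rw [vQ, vQ, (h.lb d).smul_eq, h.pt, mul_smul, mul_smul, inv_smul_smul]
theorem vR_eq (h : Tr σ k n L z n' L' z') (d : Dr E) : vR n' L' z' (σ d) = k • vR n L z d := by
  rw [vR, vR, ← h.rl.nx, ((h.lb d).mul (h.lb (n d))).smul_eq, h.pt]
  simp only [mul_smul, inv_smul_smul]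
theorem vS_eq (h : Tr σ k n L z n' L' z') (d : Dr E) : vS n' L' z' (σ d) = k • vS n L z d := by
  rw [vS, vS, ← h.rl.rv, ← h.rl.nx, (h.lb _).smul_eq, h.pt, mul_smul, mul_smul, inv_smul_smul]
theorem fD_eq (h : Tr σ k n L z n' L' z') (d : Dr E) : fD n' L' z' (σ d) = fD n L z d := by
  rw [fD, fD, h.vQ_eq, h.vR_eq, h.pt, hD_smul]
theorem dV_eq (h : Tr σ k n L z n' L' z') (d : Dr E) : dV n' L' z' (σ d) = dV n L z d := by
  rw [dV, dV, h.vQ_eq, h.vR_eq, h.vS_eq, h.pt, hD_smul, hD_smul, hD_smul, hD_smul]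
theorem dist_eq (h : Tr σ k n L z n' L' z') (d : Dr E) :
    dist z' (vQ L' z' (σ d)) = dist z (vQ L z d) := by
  rw [h.vQ_eq, h.pt, dist_smul]
theorem pos (h : Tr σ k n L z n' L' z') : Pos n' L' z' ↔ Pos n L z :=
  σ.surjective.forall.trans (forall_congr' fun d => by rw [h.fD_eq])
theorem del (h : Tr σ k n L z n' L' z') : Del n' L' z' ↔ Del n L z :=
  σ.surjective.forall.trans (forall_congr' fun d => by rw [h.dV_eq])

end Tr

theorem rlb_one (n : Nx E) : Rlb 1 n n := ⟨fun _ => rfl, fun _ => rfl⟩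
theorem rlb_symm {σ : Nx E} (h : Rlb σ n n') : Rlb σ⁻¹ n' n :=
  ⟨fun d => σ.injective (by rw [h.rv]; simp), fun d => σ.injective (by rw [h.nx]; simp)⟩

theorem map_flb [DecidableEq E] {H K F : Type} [Group H] [Group K] [FunLike F H K]
    [MonoidHomClass F H K] (f : F) (n : Nx E) (l : E → H) (d : Dr E) (x : E) :
    f (flb n l d x) = flb n (fun y => f (l y)) d x := by
  unfold flb
  by_cases h : x = d.1
  · subst h
    rw [Function.update_self, Function.update_self, ← map_dlab, ← map_dlab]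
    cases d.2 <;> simp only [mul_inv_rev, cond_false, map_mul, cond_true, map_inv]
  · rw [Function.update_of_ne h, Function.update_of_ne h]

theorem continuous_dlab (d : Dr E) : Continuous fun L : E → G => dlab L d := by
  obtain ⟨x, b⟩ := d
  cases b
  · exact (continuous_apply x).inv
  · exact continuous_apply x

theorem continuous_vQ (d : Dr E) : Continuous fun q : (E → G) × ℍ => vQ q.1 q.2 d :=
  ((continuous_dlab d).comp continuous_fst).smul continuous_snd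
theorem continuous_vR (n : Nx E) (d : Dr E) : Continuous fun q : (E → G) × ℍ => vR n q.1 q.2 d :=
  (((continuous_dlab d).mul (continuous_dlab (n d))).comp continuous_fst).smul continuous_snd
theorem continuous_fD (n : Nx E) (d : Dr E) : Continuous fun q : (E → G) × ℍ => fD n q.1 q.2 d :=
  cont_hD continuous_snd (continuous_vQ d) (continuous_vR n d)

theorem isOpen_pos [Finite E] (n : Nx E) : IsOpen {q : (E → G) × ℍ | Pos n q.1 q.2} := by
  simp only [Pos, ofPred_forall]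
  exact isOpen_iInter_of_finite fun d => isOpen_lt continuous_const (continuous_fD n d)

theorem continuous_len (d : Dr E) : Continuous fun q : (E → G) × ℍ => dist q.2 (vQ q.1 q.2 d) :=
  continuous_snd.dist (continuous_vQ d)

end geom

/-! Markings -/

section mark
variable {g : ℕ} {E : Type} {M M' : Tup g} {u v : Gen g → Mat} {z z' : ℍ} {τ τ' : MS g}
  {ψ : Fr g ≃* Fr g} {k : G} {η R : ℝ}

/-- The tangent homomorphism of a cocycle. -/
def tgh (M : Tup g) (u : Gen g → Mat) : Fr g →* TG :=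
  MonoidHom.mk' (fun w => ⟨FreeGroup.lift M w, coc M u w⟩) fun a b =>
    TG.ext (map_mul _ a b) (coc_mul a b)

/-- The cocycle carried along by an automorphism. -/
def acu (ψ : Fr g ≃* Fr g) (M : Tup g) (u : Gen g → Mat) : Gen g → Mat :=
  fun x => coc M u (ψ (FreeGroup.of x))

theorem tg_geo (M : Tup g) (u : Gen g → Mat) (l : E → Fr g) :
    tg (geo M l) (geoT M u l) = fun x => tgh M u (l x) := rfl
theorem dlab_geo (M : Tup g) (l : E → Fr g) (d : Dr E) :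
    dlab (geo M l) d = FreeGroup.lift M (dlab l d) := (map_dlab _ l d).symm
theorem dc_geo (M : Tup g) (u : Gen g → Mat) (l : E → Fr g) (d : Dr E) :
    dc (geo M l) (geoT M u l) d = coc M u (dlab l d) := by
  rw [dc, tg_geo, ← map_dlab]; rfl
theorem geo_flb [DecidableEq E] (M : Tup g) (n : Nx E) (l : E → Fr g) (d : Dr E) :
    geo M (flb n l d) = flb n (geo M l) d := funext fun x => map_flb _ n l d x
theorem geoT_flb [DecidableEq E] (M : Tup g) (u : Gen g → Mat) (n : Nx E) (l : E → Fr g)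
    (d : Dr E) : geoT M u (flb n l d) = flc n (geo M l) (geoT M u l) d :=
  funext fun x => congrArg TG.u (map_flb (tgh M u) n l d x)
theorem geo_flip (M : Tup g) (τ : MS g) (d : Dr (Ed g)) :
    geo M (flip τ d).2 = flb τ.1 (geo M τ.2) d := geo_flb M _ _ d
theorem geoT_flip (M : Tup g) (u : Gen g → Mat) (τ : MS g) (d : Dr (Ed g)) :
    geoT M u (flip τ d).2 = flc τ.1 (geo M τ.2) (geoT M u τ.2) d := geoT_flb M u _ _ d
theorem geo_mp (M : Tup g) (ψ : Fr g ≃* Fr g) (τ : MS g) :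
    geo M (mp ψ τ).2 = geo (act ψ M) τ.2 := funext fun _ => (lift_act ψ M _).symm
theorem geoT_mp (M : Tup g) (u : Gen g → Mat) (ψ : Fr g ≃* Fr g) (τ : MS g) :
    geoT M u (mp ψ τ).2 = geoT (act ψ M) (acu ψ M u) τ.2 := funext fun _ => (coc_act ψ _).symm
theorem lift_cjL (k : G) (M : Tup g) (w : Fr g) :
    FreeGroup.lift (cjL k M) w = k * FreeGroup.lift M w * k⁻¹ := lift_cj k w
theorem geo_cjL (k : G) (M : Tup g) (l : E → Fr g) : geo (cjL k M) l = cjL k (geo M l) :=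
  funext fun _ => lift_cjL k M _
theorem geoT_cjL (k : G) (M : Tup g) (u : Gen g → Mat) (l : E → Fr g) :
    geoT (cjL k M) (fun x => ad k (u x)) l = fun x => ad k (geoT M u l x) :=
  funext fun _ => coc_cj k _
theorem geoT_add (M : Tup g) (u v : Gen g → Mat) (l : E → Fr g) :
    geoT M (u + v) l = geoT M u l + geoT M v l := funext fun _ => coc_add u v _
theorem geoT_smul (M : Tup g) (a : ℝ) (u : Gen g → Mat) (l : E → Fr g) :
    geoT M (a • u) l = a • geoT M u l := funext fun _ => coc_smul a u _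
theorem geoT_cob (M : Tup g) (K : Mat) (l : E → Fr g) : geoT M (cob M K) l = dK (geo M l) K :=
  funext fun _ => coc_cob K _
theorem continuous_geo (l : E → Fr g) : Continuous fun M : Tup g => geo M l :=
  continuous_pi fun x => xa_cont (l x)

theorem mp_flip (ψ : Fr g ≃* Fr g) (τ : MS g) (d : Dr (Ed g)) :
    mp ψ (flip τ d) = flip (mp ψ τ) d := Prod.ext rfl (funext fun x => map_flb ψ τ.1 τ.2 d x)
theorem mp_symm (ψ : Fr g ≃* Fr g) (τ : MS g) : mp ψ.symm (mp ψ τ) = τ :=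
  Prod.ext rfl (funext fun _ => ψ.symm_apply_apply _)
theorem mp_symm' (ψ : Fr g ≃* Fr g) (τ : MS g) : mp ψ (mp ψ.symm τ) = τ := mp_symm ψ.symm τ
theorem mt_mp (hT : TAx g) (hψ : AutR ψ) : MT (mp ψ τ) ↔ MT τ :=
  ⟨fun h => mp_symm ψ τ ▸ hT.mp h hψ.symm, fun h => hT.mp h hψ⟩

theorem iso_symm (h : Iso τ τ') : Iso τ' τ := by
  obtain ⟨σ, h1, h2⟩ := h
  exact ⟨σ⁻¹, rlb_symm h1, fun d => by simpa using (h2 (σ⁻¹ d)).symm⟩
theorem iso_of_eqN (h : τ.1 = τ'.1) (h' : ∀ x, EqN (τ.2 x) (τ'.2 x)) : Iso τ τ' :=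
  ⟨1, h ▸ rlb_one _, cg_dlab h'⟩
theorem iso_mp (hψ : AutR ψ) (h : Iso τ τ') : Iso (mp ψ τ) (mp ψ τ') := by
  obtain ⟨σ, h1, h2⟩ := h
  refine ⟨σ, h1, fun d => ?_⟩
  have := (h2 d).map hψ
  rwa [map_dlab, map_dlab] at this

/-! The relator -/

theorem fm_iff : Fm M ↔ PM (pre M g) 1 := by rw [Fm, pre_eq]
theorem fm_of_X {e : ℤ} (h : M ∈ X g e) : Fm M := fm_iff.2 (X_pm h)
theorem coc_eqN (hM : Fm M) (hu : Z1 M u) {x y : Fr g} (h : EqN x y) : coc M u x = coc M u y := by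
  have h1 := coc_mul (M := M) (U := u) x (x⁻¹ * y)
  rw [mul_inv_cancel_left, (coc_normal (fm_iff.1 hM) hu.2 h).1, ad_zero, add_zero] at h1
  exact h1.symm
theorem z1_cjL (k : G) (hu : Z1 M u) : Z1 (cjL k M) fun x => ad k (u x) := hu.cj k

theorem gs_of (hT : TAx g) (hM : Fm M) (ht : MT τ) (hp : Ps M z τ) : Gs τ.1 (geo M τ.2) z :=
  ⟨ht.1, fun d => (map_fp (FreeGroup.lift M) τ.2 d) ▸ pm_of_mem hM (hT.flat ht d), hp⟩
theorem zc_of (hT : TAx g) (hM : Fm M) (ht : MT τ) (hu : Z1 M u) :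
    Zc τ.1 (geo M τ.2) (geoT M u τ.2) :=
  ⟨fun _ => coc_trace hu.1 _, fun d => by
    rw [tg_geo, ← map_fp]
    exact (coc_normal (fm_iff.1 hM) hu.2 (hT.flat ht d)).1⟩

/-! Conjugation and signs -/

/-- `M'` is conjugate to `M` by `k`, up to signs. -/
def Cj (k : G) (M M' : Tup g) : Prop := ∀ x, PM (M' x) (k * M x * k⁻¹)

theorem cj_cjL (k : G) (M : Tup g) : Cj k M (cjL k M) := fun _ => PM.refl _

namespace Cj

theorem symm (h : Cj k M M') : Cj k⁻¹ M' M := fun x => by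
  have := ((PM.refl k⁻¹).mul (h x)).mul (PM.refl k)
  rw [inv_inv]
  simpa only [mul_assoc, inv_mul_cancel_left, inv_mul_cancel, mul_one] using this.symm
theorem lift (h : Cj k M M') (w : Fr g) :
    PM (FreeGroup.lift M' w) (k * FreeGroup.lift M w * k⁻¹) := by
  induction w using FreeGroup.induction_on with
  | C1 => simpa using PM.refl 1
  | of x => simpa only [FreeGroup.lift_apply_of] using h x
  | inv_of x ih => simpa only [map_inv, FreeGroup.lift_apply_of, mul_assoc, mul_inv_rev, inv_inv] using ih.inv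
  | mul x y hx hy => simpa only [map_mul, mul_assoc, inv_mul_cancel_left] using hx.mul hy
theorem tr (h : Cj k M M') (z : ℍ) (τ : MS g) :
    Tr 1 k τ.1 (geo M τ.2) z τ.1 (geo M' τ.2) (k • z) :=
  ⟨rlb_one _, rfl, fun d => by rw [dlab_geo, dlab_geo]; exact h.lift _⟩
theorem fm (h : Cj k M M') (hM : Fm M) : Fm M' :=
  (h.lift _).trans (by simpa using ((PM.refl k).mul hM).mul (PM.refl k⁻¹))
theorem kset (h : Cj k M M') {ε : ℝ} (hM : M ∈ Kset g ε) : M' ∈ Kset g ε := fun ψ hψ => by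
  have e : ∀ w, |Pool.Agent.MP_596265_gt.tr (FreeGroup.lift M' w)| =
      |Pool.Agent.MP_596265_gt.tr (FreeGroup.lift M w)| := fun w => by
    rw [(h.lift w).abs_tr, tr_conj]
  refine ⟨fun j => ((hM ψ hψ).1 j).trans_eq (e _).symm, fun j a b => ?_⟩
  have := (hM ψ hψ).2 j a b
  rw [pre_eq, lift_act] at this ⊢
  rwa [e]
theorem ps (h : Cj k M M') : Ps M' (k • z) τ ↔ Ps M z τ := (h.tr z τ).pos
theorem dl (h : Cj k M M') : Dl M' (k • z) τ ↔ Dl M z τ := (h.tr z τ).del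
theorem bd (h : Cj k M M') : Bd η R M' (k • z) τ ↔ Bd η R M z τ :=
  forall_congr' fun d => by rw [← (h.tr z τ).dist_eq d]; rfl
theorem mv (h : Cj k M M') (hm : Mv M z τ τ') : Mv M' (k • z) τ τ' := by
  cases hm with
  | iso a b c => exact .iso a (h.ps.2 b) c
  | flip d a b c => exact .flip d a (h.ps.2 b) (h.ps.2 c)
theorem eqv' (h : Cj k M M') (hm : Eqv M z τ τ') : Eqv M' (k • z) τ τ' := by
  induction hm with
  | rel p q a => exact .rel _ _ (h.mv a)
  | refl p => exact .refl _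
  | symm p q _ a => exact .symm _ _ a
  | trans p q r _ _ a b => exact .trans _ _ _ a b
theorem eqv (h : Cj k M M') : Eqv M' (k • z) τ τ' ↔ Eqv M z τ τ' :=
  ⟨fun a => by simpa using h.symm.eqv' a, h.eqv'⟩
theorem lf' (h : Cj k M M') {p q : ℍ × MS g} (hm : Lf M p q) :
    Lf M' (k • p.1, p.2) (k • q.1, q.2) := by
  induction hm with
  | rel p q a =>
    refine .rel _ _ ?_
    cases a with
    | mv a => exact .mv (h.mv a)
    | go C a b c d e =>
      refine .go ((k • ·) '' C) a (b.image _ (continuous_const_smul k).continuousOn)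
        (mem_image_of_mem _ c) (mem_image_of_mem _ d) ?_
      rintro _ ⟨w, hw, rfl⟩
      exact h.ps.2 (e w hw)
  | refl p => exact .refl _
  | symm p q _ a => exact .symm _ _ a
  | trans p q r _ _ a b => exact .trans _ _ _ a b
theorem lf (h : Cj k M M') : Lf M' (k • z, τ) (k • z', τ') ↔ Lf M (z, τ) (z', τ') :=
  ⟨fun a => by simpa using h.symm.lf' a, h.lf'⟩
theorem kl' (h : Cj k M M') (hk : KL η R M z τ) : KL η R M' (k • z) τ := by
  refine ⟨h.kset hk.1, hk.2.1, h.ps.2 hk.2.2.1, fun w τ' a => ?_⟩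
  obtain ⟨w, rfl⟩ := MulAction.surjective k w
  obtain ⟨τ'', b, c, d⟩ := hk.2.2.2 w τ' (h.lf.1 a)
  exact ⟨τ'', h.eqv' b, h.dl.2 c, h.bd.2 d⟩
theorem kl (h : Cj k M M') : KL η R M' (k • z) τ ↔ KL η R M z τ :=
  ⟨fun a => by simpa using h.symm.kl' a, h.kl'⟩

end Cj

theorem fm_cjL (k : G) : Fm (cjL k M) ↔ Fm M := ⟨(cj_cjL k M).symm.fm, (cj_cjL k M).fm⟩
theorem kset_cjL (k : G) {ε : ℝ} : cjL k M ∈ Kset g ε ↔ M ∈ Kset g ε :=
  ⟨(cj_cjL k M).symm.kset, (cj_cjL k M).kset⟩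
theorem ps_cjL (k : G) : Ps (cjL k M) (k • z) τ ↔ Ps M z τ := (cj_cjL k M).ps
theorem dl_cjL (k : G) : Dl (cjL k M) (k • z) τ ↔ Dl M z τ := (cj_cjL k M).dl
theorem bd_cjL (k : G) : Bd η R (cjL k M) (k • z) τ ↔ Bd η R M z τ := (cj_cjL k M).bd
theorem eqv_cjL (k : G) : Eqv (cjL k M) (k • z) τ τ' ↔ Eqv M z τ τ' := (cj_cjL k M).eqv
theorem lf_cjL (k : G) : Lf (cjL k M) (k • z, τ) (k • z', τ') ↔ Lf M (z, τ) (z', τ') :=
  (cj_cjL k M).lf
theorem kl_cjL (k : G) : KL η R (cjL k M) (k • z) τ ↔ KL η R M z τ := (cj_cjL k M).kl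

/-! Automorphisms -/

theorem kset_act' (hψ : AutR ψ) {ε : ℝ} (h : M ∈ Kset g ε) : act ψ M ∈ Kset g ε := fun χ hχ => by
  rw [← act_trans]
  exact h _ (hχ.trans hψ)
theorem kset_act (hψ : AutR ψ) {ε : ℝ} : act ψ M ∈ Kset g ε ↔ M ∈ Kset g ε :=
  ⟨fun h => act_symm ψ M ▸ kset_act' hψ.symm h, kset_act' hψ⟩

theorem ps_mp : Ps M z (mp ψ τ) ↔ Ps (act ψ M) z τ := by rw [Ps, geo_mp]; rfl
theorem dl_mp : Dl M z (mp ψ τ) ↔ Dl (act ψ M) z τ := by rw [Dl, geo_mp]; rfl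
theorem bd_mp : Bd η R M z (mp ψ τ) ↔ Bd η R (act ψ M) z τ := by rw [Bd, geo_mp]; rfl
theorem mv_mp (hT : TAx g) (hψ : AutR ψ) (h : Mv (act ψ M) z τ τ') :
    Mv M z (mp ψ τ) (mp ψ τ') := by
  cases h with
  | iso a b c => exact .iso (hT.mp a hψ) (ps_mp.2 b) (iso_mp hψ c)
  | flip d a b c =>
    rw [mp_flip]
    exact .flip d (hT.mp a hψ) (ps_mp.2 b) (mp_flip ψ τ d ▸ ps_mp.2 c)
theorem eqv_mp' (hT : TAx g) (hψ : AutR ψ) (h : Eqv (act ψ M) z τ τ') :
    Eqv M z (mp ψ τ) (mp ψ τ') := by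
  induction h with
  | rel p q a => exact .rel _ _ (mv_mp hT hψ a)
  | refl p => exact .refl _
  | symm p q _ a => exact .symm _ _ a
  | trans p q r _ _ a b => exact .trans _ _ _ a b
theorem lf_mp' (hT : TAx g) (hψ : AutR ψ) {p q : ℍ × MS g} (h : Lf (act ψ M) p q) :
    Lf M (p.1, mp ψ p.2) (q.1, mp ψ q.2) := by
  induction h with
  | rel p q a =>
    refine .rel _ _ ?_
    cases a with
    | mv a => exact .mv (mv_mp hT hψ a)
    | go C a b c d e => exact .go C (hT.mp a hψ) b c d fun w hw => ps_mp.2 (e w hw)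
  | refl p => exact .refl _
  | symm p q _ a => exact .symm _ _ a
  | trans p q r _ _ a b => exact .trans _ _ _ a b
theorem lf_mp (hT : TAx g) (hψ : AutR ψ) :
    Lf M (z, mp ψ τ) (z', mp ψ τ') ↔ Lf (act ψ M) (z, τ) (z', τ') :=
  ⟨fun h => by
    have := lf_mp' (M := act ψ M) hT hψ.symm (by rwa [act_symm])
    rwa [mp_symm, mp_symm] at this, lf_mp' hT hψ⟩
theorem kl_mp' (hT : TAx g) (hψ : AutR ψ) (h : KL η R (act ψ M) z τ) : KL η R M z (mp ψ τ) := by
  refine ⟨(kset_act hψ).1 h.1, hT.mp h.2.1 hψ, ps_mp.2 h.2.2.1, fun w τ' a => ?_⟩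
  obtain ⟨τ', rfl⟩ : ∃ t, τ' = mp ψ t := ⟨_, (mp_symm' ψ τ').symm⟩
  obtain ⟨τ'', b, c, d⟩ := h.2.2.2 w τ' ((lf_mp hT hψ).1 a)
  exact ⟨mp ψ τ'', eqv_mp' hT hψ b, dl_mp.2 c, bd_mp.2 d⟩
theorem kl_mp (hT : TAx g) (hψ : AutR ψ) : KL η R M z (mp ψ τ) ↔ KL η R (act ψ M) z τ :=
  ⟨fun h => by
    have := kl_mp' (M := act ψ M) hT hψ.symm (by rwa [act_symm])
    rwa [mp_symm] at this, kl_mp' hT hψ⟩

/-! Moves -/

theorem iso_tr (hM : Fm M) (z : ℍ) {σ : Nx (Ed g)} (h1 : Rlb σ τ.1 τ'.1)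
    (h2 : ∀ d, EqN (dlab τ.2 d) (dlab τ'.2 (σ d))) :
    Tr σ 1 τ.1 (geo M τ.2) z τ'.1 (geo M τ'.2) z :=
  ⟨h1, (one_smul _ _).symm, fun d => by
    rw [dlab_geo, dlab_geo, one_mul, inv_one, mul_one]; exact (h2 d).symm.pm hM⟩
theorem ps_iso (hM : Fm M) (h : Iso τ τ') : Ps M z τ' ↔ Ps M z τ := by
  obtain ⟨σ, h1, h2⟩ := h
  exact (iso_tr hM z h1 h2).pos
theorem dl_iso (hM : Fm M) (h : Iso τ τ') : Dl M z τ' ↔ Dl M z τ := by
  obtain ⟨σ, h1, h2⟩ := h
  exact (iso_tr hM z h1 h2).del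
theorem bd_iso (hM : Fm M) (h : Iso τ τ') : Bd η R M z τ' ↔ Bd η R M z τ := by
  obtain ⟨σ, h1, h2⟩ := h
  exact σ.surjective.forall.trans (forall_congr' fun d => by rw [(iso_tr hM z h1 h2).dist_eq])

theorem mv_left (h : Mv M z τ τ') : MT τ ∧ Ps M z τ := by
  cases h with
  | iso a b _ => exact ⟨a, b⟩
  | flip _ a b _ => exact ⟨a, b⟩
theorem mv_right (hT : TAx g) (hM : Fm M) (h : Mv M z τ τ') : MT τ' ∧ Ps M z τ' := by
  cases h with
  | iso a b c => exact ⟨hT.iso a c, (ps_iso hM c).2 b⟩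
  | flip d a b c => exact ⟨hT.flip a (fl_of_pos a.1 b d), c⟩
theorem eqv_iso (ht : MT τ) (hp : Ps M z τ) (h : Iso τ τ') : Eqv M z τ τ' :=
  .rel _ _ (.iso ht hp h)
theorem lf_of_eqv (h : Eqv M z τ τ') : Lf M (z, τ) (z, τ') := by
  induction h with
  | rel p q a => exact .rel _ _ (.mv a)
  | refl p => exact .refl _
  | symm p q _ a => exact .symm _ _ a
  | trans p q r _ _ a b => exact .trans _ _ _ a b
theorem lf_go {C : Set ℍ} (ht : MT τ) (hC : IsPreconnected C) (hz : z ∈ C) (hz' : z' ∈ C)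
    (h : ∀ w ∈ C, Ps M w τ) : Lf M (z, τ) (z', τ) := .rel _ _ (.go C ht hC hz hz' h)
theorem lf_iff (hT : TAx g) (hM : Fm M) {p q : ℍ × MS g} (h : Lf M p q) :
    MT p.2 ∧ Ps M p.1 p.2 ↔ MT q.2 ∧ Ps M q.1 q.2 := by
  induction h with
  | rel p q a =>
    cases a with
    | mv a => exact iff_of_true (mv_left a) (mv_right hT hM a)
    | go C a b c d e => exact iff_of_true ⟨a, e _ c⟩ ⟨a, e _ d⟩
  | refl p => exact Iff.rfl
  | symm p q _ a => exact a.symm
  | trans p q r _ _ a b => exact a.trans b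
theorem lf_ps (hT : TAx g) (hM : Fm M) (h : Lf M (z, τ) (z', τ')) (ht : MT τ) (hp : Ps M z τ) :
    MT τ' ∧ Ps M z' τ' := (lf_iff hT hM h).1 ⟨ht, hp⟩
theorem eqv_ps (hT : TAx g) (hM : Fm M) (h : Eqv M z τ τ') (ht : MT τ) (hp : Ps M z τ) :
    MT τ' ∧ Ps M z τ' := lf_ps hT hM (lf_of_eqv h) ht hp
theorem kl_lf' (hT : TAx g) (hM : Fm M) (h : Lf M (z, τ) (z', τ')) (hk : KL η R M z τ) :
    KL η R M z' τ' :=
  have a := lf_ps hT hM h hk.2.1 hk.2.2.1
  ⟨hk.1, a.1, a.2, fun w t b => hk.2.2.2 w t (.trans _ _ _ h b)⟩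
theorem kl_lf (hT : TAx g) (hM : Fm M) (h : Lf M (z, τ) (z', τ')) :
    KL η R M z τ ↔ KL η R M z' τ' := ⟨kl_lf' hT hM h, kl_lf' hT hM (.symm _ _ h)⟩
theorem kl_eqv (hT : TAx g) (hM : Fm M) (h : Eqv M z τ τ') : KL η R M z τ ↔ KL η R M z τ' :=
  kl_lf hT hM (lf_of_eqv h)

/-! Openness -/

theorem continuous_st (τ : MS g) : Continuous fun q : Tup g × ℍ => (geo q.1 τ.2, q.2) :=
  ((continuous_geo τ.2).comp continuous_fst).prodMk continuous_snd
theorem isOpen_ps (τ : MS g) : IsOpen {q : Tup g × ℍ | Ps q.1 q.2 τ} :=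
  (isOpen_pos τ.1).preimage (continuous_st τ)
theorem ps_nhds (h : Ps M z τ) : ∀ᶠ q in 𝓝 (M, z), Ps q.1 q.2 τ := (isOpen_ps τ).mem_nhds h
theorem isOpen_ps_z (M : Tup g) (τ : MS g) : IsOpen {z | Ps M z τ} :=
  (isOpen_ps τ).preimage (Continuous.prodMk_right M)
theorem isOpen_ps_M (z : ℍ) (τ : MS g) : IsOpen {M : Tup g | Ps M z τ} :=
  (isOpen_ps τ).preimage (Continuous.prodMk_left z)

theorem mv_nhds (h : Mv M z τ τ') : ∀ᶠ q in 𝓝 (M, z), Mv q.1 q.2 τ τ' := by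
  cases h with
  | iso a b c => exact (ps_nhds b).mono fun _ b => .iso a b c
  | flip d a b c => exact ((ps_nhds b).and (ps_nhds c)).mono fun _ b => .flip d a b.1 b.2
theorem eqv_nhds (h : Eqv M z τ τ') : ∀ᶠ q in 𝓝 (M, z), Eqv q.1 q.2 τ τ' := by
  induction h with
  | rel p q a => exact (mv_nhds a).mono fun _ a => .rel _ _ a
  | refl p => exact .of_forall fun _ => .refl _
  | symm p q _ a => exact a.mono fun _ a => .symm _ _ a
  | trans p q r _ _ a b => exact (a.and b).mono fun _ a => .trans _ _ _ a.1 a.2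
/-- Nearby base points lie on the same leaf, locally uniformly. -/
theorem lf_near (ht : MT τ) (hp : Ps M z τ) : ∀ᶠ q in 𝓝 (M, z), Lf q.1 (z, τ) (q.2, τ) := by
  obtain ⟨A, hA, B, hB, h⟩ := mem_nhds_prod_iff.1 (ps_nhds hp)
  obtain ⟨C, ⟨h1, h2⟩, h3⟩ := (path_connected_basis z).mem_iff.1 hB
  filter_upwards [prod_mem_nhds hA h1] with q hq
  refine lf_go (C := C) ht h2.isConnected.isPreconnected (mem_of_mem_nhds h1) hq.2 fun w hw => ?_
  have h4 : (q.1, w) ∈ {x : Tup g × ℍ | Ps x.1 x.2 τ} := h (mk_mem_prod hq.1 (h3 hw))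
  exact h4
theorem lf_near_z (ht : MT τ) (hp : Ps M z τ) : ∀ᶠ w in 𝓝 z, Lf M (z, τ) (w, τ) :=
  (Continuous.prodMk_right M).continuousAt.eventually (lf_near ht hp)

/-! The norm -/

variable {F : HF (Ed g)}

theorem FM_mp : FM F M z (mp ψ τ) u = FM F (act ψ M) z τ (acu ψ M u) := by
  rw [FM, geo_mp, geoT_mp]; rfl
theorem FM_cjL (hT : TAx g) (hF : HAx F) (hM : Fm M) (ht : MT τ) (hp : Ps M z τ) (hu : Z1 M u)
    (k : G) : FM F (cjL k M) (k • z) τ (fun x => ad k (u x)) = FM F M z τ u := by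
  rw [FM, geo_cjL, geoT_cjL]
  exact hF.conj k (gs_of hT hM ht hp) (zc_of hT hM ht hu)
theorem FM_mv (hT : TAx g) (hF : HAx F) (hM : Fm M) (hu : Z1 M u) (h : Mv M z τ τ') :
    FM F M z τ' u = FM F M z τ u := by
  have h' := mv_right hT hM h
  cases h with
  | iso a b c =>
    obtain ⟨σ, h1, h2⟩ := c
    exact hF.iso σ (gs_of hT hM a b) (zc_of hT hM a hu) h1 fun d =>
      ⟨by rw [dlab_geo, dlab_geo]; exact (h2 d).pm hM,
        by rw [dc_geo, dc_geo]; exact coc_eqN hM hu (h2 d)⟩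
  | flip d a b c =>
    have h3 := gs_of hT hM h'.1 c
    rw [geo_flip] at h3
    rw [FM, geo_flip, geoT_flip]
    exact hF.flip d (gs_of hT hM a b) h3 (zc_of hT hM a hu)
theorem FM_eqv (hT : TAx g) (hF : HAx F) (hM : Fm M) (hu : Z1 M u) (h : Eqv M z τ τ') :
    FM F M z τ' u = FM F M z τ u := by
  induction h with
  | rel p q a => exact FM_mv hT hF hM hu a
  | refl p => rfl
  | symm p q _ a => exact a.symm
  | trans p q r _ _ a b => exact b.trans a
/-- A class of norm zero is a coboundary. -/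
theorem cob_of_FM (hT : TAx g) (hF : HAx F) (hM : Fm M) (ht : MT τ) (hp : Ps M z τ) (hu : Z1 M u)
    (h : FM F M z τ u = 0) : ∃ K : Mat, K.trace = 0 ∧ u = cob M K :=
  omg_nondeg hu.1 fun v hv => by
    rw [← hT.om ht hM hu hv]
    exact hF.nd (gs_of hT hM ht hp) (zc_of hT hM ht hu) (zc_of hT hM ht hv) h
theorem FM_smul (hT : TAx g) (hF : HAx F) (hM : Fm M) (ht : MT τ) (hp : Ps M z τ) (hu : Z1 M u)
    (a : ℝ) : FM F M z τ (a • u) = a ^ 2 * FM F M z τ u := by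
  have h1 := gs_of hT hM ht hp
  have h2 := zc_of hT hM ht hu
  have h3 := zc_of hT hM ht (hu.smul a)
  rw [FM, FM]
  rw [geoT_smul] at h3 ⊢
  rw [hF.smul a h1 h2 h3, hF.symm h1 h2 h3, hF.smul a h1 h2 h2]
  ring
theorem FM_add_cob (hT : TAx g) (hF : HAx F) (hM : Fm M) (ht : MT τ) (hp : Ps M z τ)
    (hu : Z1 M u) {K : Mat} (hK : K.trace = 0) : FM F M z τ (u + cob M K) = FM F M z τ u := by
  have h0 := Z1_cob (fm_iff.1 hM) K
  have h1 := gs_of hT hM ht hp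
  have h2 := zc_of hT hM ht hu
  have h3 := zc_of hT hM ht h0
  have h4 := zc_of hT hM ht (hu.add h0)
  have h5 : Cob (geo M τ.2) (geoT M (cob M K) τ.2) := ⟨K, hK, geoT_cob M K _⟩
  rw [FM, FM]
  rw [geoT_add] at h4 ⊢
  rw [hF.add h1 h2 h3 h4, hF.cob h1 h5 h4, add_zero, hF.symm h1 h2 h4, hF.add h1 h2 h3 h2,
    hF.cob h1 h5 h2, add_zero]

end mark

end

end Pool.Agent.MP_596265_gt.U.Bas

end
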