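import Pool.Agent.MP_596265_gt.W.C0

attribute [-instance] GradedMonoid.GradeZero.smul SMulWithZero.toSMulZeroClass
  AddCommMonoid.toAddMonoid AddMonoidWithOne.toAddMonoid AddQuantale.instAddLeftMono
  NonUnitalNormedRing.toNormedAddCommGroup NonUnitalRingHomClass.toMulHomClass
  NonUnitalNonAssocRing.toAddCommGroup NumberField.to_charZero ESeminormedAddMonoid.toAddMonoid
  SemigroupWithZero.toSemigroup IdemSemiring.toCanonicallyOrderedAdd Algebra.toSMul
  AddQuantale.instAddRightMono NonUnitalAlgSemiHomClass.toMulHomClass instSMulZeroClass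
  LinearOrderedCommMonoidWithZero.toPosMulStrictMono CommGroup.toDivisionCommMonoid
  Quantale.instMulRightMono RKHS.instFunLike NonUnitalSeminormedRing.toPseudoMetricSpace
  littleWedderburn SubtractionMonoid.toSubNegMonoid LieRing.toAddCommGroup
  TestFunctionClass.toDFunLike ContDiffMapSupportedInClass.toDFunLike
  AddRightCancelMonoid.toAddMonoid

section

/-! Block D: flips of positive states, the sum of determinants and the radial bound. -/

namespace Pool.Agent.MP_596265_gt.U.DF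

open Erg Real UpperHalfPlane Set

variable {E H : Type} {g : ℕ}

/-- The faces `d a b`, `rev d, c, h` of `n` are replaced by `e b c`, `rev e, h, a` in `n'`. -/
structure Qd (n n' : Nx E) (d e a b c h : Dr E) : Prop where
  ed : e.1 = d.1
  n1 : n d = a
  n2 : n a = b
  n3 : n b = d
  n4 : n (rev d) = c
  n5 : n c = h
  n6 : n h = rev d
  m1 : n' e = b
  m2 : n' b = c
  m3 : n' c = e
  m4 : n' (rev e) = h
  m5 : n' h = a
  m6 : n' a = rev e
  ha : a.1 ≠ d.1
  hb : b.1 ≠ d.1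
  hc : c.1 ≠ d.1
  hh : h.1 ≠ d.1
  out : ∀ x, x.1 ≠ d.1 → x ≠ a → x ≠ b → x ≠ c → x ≠ h → n' x = n x

theorem eq_or_rev {x d : Dr E} (h : x.1 = d.1) : x = d ∨ x = rev d := by
  obtain ⟨x1, x2⟩ := x
  obtain ⟨d1, d2⟩ := d
  simp only at h
  subst h
  cases x2 <;> cases d2 <;> simp [rev]

theorem fst_ne {x d : Dr E} (h1 : x ≠ d) (h2 : x ≠ rev d) : x.1 ≠ d.1 := fun h =>
  (eq_or_rev h).elim h1 h2

theorem Qd.symm {n n' : Nx E} {d e a b c h : Dr E} (q : Qd n n' d e a b c h) :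
    Qd n' n e (rev d) b c h a :=
  ⟨q.ed.symm, q.m1, q.m2, q.m3, q.m4, q.m5, q.m6, q.n4, q.n5, q.n6, by rw [rev_rev]; exact q.n1,
    q.n2, by rw [rev_rev]; exact q.n3, q.ed ▸ q.hb, q.ed ▸ q.hc, q.ed ▸ q.hh, q.ed ▸ q.ha,
    fun x h0 h1 h2 h3 h4 => (q.out x (q.ed ▸ h0) h4 h1 h2 h3).symm⟩

/-- Darts off the two faces stay off the two faces. -/
theorem Qd.off {n n' : Nx E} {d e a b c h x : Dr E} (q : Qd n n' d e a b c h) (h0 : x.1 ≠ d.1)
    (h1 : x ≠ a) (h2 : x ≠ b) (h3 : x ≠ c) (h4 : x ≠ h) :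
    (n x).1 ≠ d.1 ∧ n x ≠ a ∧ n x ≠ b ∧ n x ≠ c ∧ n x ≠ h := by
  refine ⟨fst_ne (fun e => h2 (n.injective (e.trans q.n3.symm)))
    fun e => h4 (n.injective (e.trans q.n6.symm)), fun e => h0 ?_,
    fun e => h1 (n.injective (e.trans q.n2.symm)), fun e => h0 ?_,
    fun e => h3 (n.injective (e.trans q.n5.symm))⟩
  · rw [n.injective (e.trans q.n1.symm)]
  · rw [n.injective (e.trans q.n4.symm), rev_fst]

theorem Qd.cases {n n' : Nx E} {d e a b c h : Dr E} (q : Qd n n' d e a b c h) (x : Dr E) :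
    x = e ∨ x = b ∨ x = c ∨ x = rev e ∨ x = h ∨ x = a ∨
      (x.1 ≠ d.1 ∧ x ≠ a ∧ x ≠ b ∧ x ≠ c ∧ x ≠ h) := by
  by_cases h0 : x.1 = e.1
  · rcases eq_or_rev h0 with h | h <;> simp [h]
  · rw [q.ed] at h0
    tauto

theorem Qd.ne {n n' : Nx E} {d e a b c h : Dr E} (q : Qd n n' d e a b c h) :
    a ≠ b ∧ a ≠ c ∧ a ≠ h ∧ b ≠ c ∧ b ≠ h ∧ c ≠ h := by
  have k : d ≠ rev d := (rev_ne d).symm
  refine ⟨fun e => q.hb ?_, fun e => k (n.injective (by rw [q.n1, q.n4, e])), fun e => q.hb ?_,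
    fun e => q.hh ?_, fun e => k (q.n3.symm.trans (e ▸ q.n6)), fun e => q.hh ?_⟩
  · rw [← q.n2, e, q.n3]
  · rw [← q.n2, e, q.n6, rev_fst]
  · rw [← q.n5, ← e, q.n3]
  · rw [← q.n5, e, q.n6, rev_fst]

theorem qd_fnx [DecidableEq E] {n : Nx E} (hc : ∀ d, n (n (n d)) = d) (hn : ∀ d, n d ≠ d)
    {d : Dr E} (hd : Fl n d) :
    Qd n (fnx n d) d d (n d) (n (n d)) (n (rev d)) (n (n (rev d))) := by
  have k : d ≠ rev d := (rev_ne d).symm
  have inj : ∀ {x y}, n x = n y → x = y := fun h => n.injective h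
  have a1 : n d ≠ d := hn d
  have a2 : n d ≠ rev d := hd.1.symm
  have b1 : n (n d) ≠ d := fun e => hn d (by simpa only [e] using hc d)
  have b2 : n (n d) ≠ rev d := hd.2.symm
  have c1 : n (rev d) ≠ d := fun e => b2 (inj (by rw [hc, e]))
  have c2 : n (rev d) ≠ rev d := hn _
  have h1 : n (n (rev d)) ≠ d := fun e => a2 (by rw [← hc (rev d), e])
  have h2 : n (n (rev d)) ≠ rev d := fun e => hn (rev d) (by simpa only [e] using hc (rev d))
  have ab : n d ≠ n (n d) := (hn _).symm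
  have ac : n d ≠ n (rev d) := fun e => k (inj e)
  have ah : n d ≠ n (n (rev d)) := fun e => c1 (inj e).symm
  have bc : n (n d) ≠ n (rev d) := fun e => a2 (inj e)
  have bh : n (n d) ≠ n (n (rev d)) := fun e => ac (inj e)
  have ch : n (rev d) ≠ n (n (rev d)) := (hn _).symm
  have key : ∀ x, fnx n d (cyc n d x) = cyc n d (n x) := fun x => by simp only [fnx, Equiv.Perm.coe_mul, Equiv.Perm.coe_inv, Function.comp_apply, Equiv.symm_apply_apply]
  have fx : ∀ x, x ≠ n d → x ≠ n (n d) → x ≠ n (rev d) → x ≠ n (n (rev d)) → cyc n d x = x :=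
    fun x e1 e2 e3 e4 => by
      simp only [cyc, Equiv.Perm.mul_apply]
      rw [Equiv.swap_apply_of_ne_of_ne e1 e2, Equiv.swap_apply_of_ne_of_ne e1 e3,
        Equiv.swap_apply_of_ne_of_ne e1 e4]
  have fa : cyc n d (n d) = n (n d) := by
    simp only [cyc, Equiv.Perm.mul_apply]
    rw [Equiv.swap_apply_left, Equiv.swap_apply_of_ne_of_ne ab.symm bc,
      Equiv.swap_apply_of_ne_of_ne ab.symm bh]
  have fb : cyc n d (n (n d)) = n (rev d) := by
    simp only [cyc, Equiv.Perm.mul_apply]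
    rw [Equiv.swap_apply_right, Equiv.swap_apply_left, Equiv.swap_apply_of_ne_of_ne ac.symm ch]
  have fc : cyc n d (n (rev d)) = n (n (rev d)) := by
    simp only [cyc, Equiv.Perm.mul_apply]
    rw [Equiv.swap_apply_of_ne_of_ne ac.symm bc.symm, Equiv.swap_apply_right,
      Equiv.swap_apply_left]
  have fh : cyc n d (n (n (rev d))) = n d := by
    simp only [cyc, Equiv.Perm.mul_apply]
    rw [Equiv.swap_apply_of_ne_of_ne ah.symm bh.symm, Equiv.swap_apply_of_ne_of_ne ah.symm ch.symm,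
      Equiv.swap_apply_right]
  have fd := fx d a1.symm b1.symm c1.symm h1.symm
  have fr := fx (rev d) a2.symm b2.symm c2.symm h2.symm
  refine ⟨rfl, rfl, rfl, hc d, rfl, rfl, hc _, ?_, ?_, ?_, ?_, ?_, ?_, fst_ne a1 a2, fst_ne b1 b2,
    fst_ne c1 c2, fst_ne h1 h2, fun x e0 e1 e2 e3 e4 => ?_⟩
  · simpa only [fd, fa] using key d
  · simpa only [fa, fb] using key (n d)
  · simpa only [fb, hc, fd] using key (n (n d))
  · simpa only [fr, fc] using key (rev d)
  · simpa only [fc, fh] using key (n (rev d))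
  · simpa only [fh, hc, fr] using key (n (n (rev d)))
  · have := key x
    rwa [fx x e1 e2 e3 e4, fx (n x) (fun e => e0 (by rw [inj e])) (fun e => e1 (inj e))
      (fun e => e0 (by rw [inj e, rev_fst])) fun e => e3 (inj e)] at this

theorem dlab_flb [DecidableEq E] [Group H] (n : Nx E) (L : E → H) (d : Dr E) :
    dlab (flb n L d) d = (dlab L (n (n d)) * dlab L (n (rev d)))⁻¹ := by
  obtain ⟨x, b⟩ := d
  cases b <;> simp [dlab, flb]

theorem dlab_flb_ne [DecidableEq E] [Group H] (n : Nx E) (L : E → H) {d x : Dr E}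
    (h : x.1 ≠ d.1) : dlab (flb n L d) x = dlab L x := by
  simp only [dlab, flb, Function.update_of_ne h]

theorem map_dlab {H' : Type} [Group H] [Group H'] (f : H →* H') (L : E → H) (d : Dr E) :
    dlab (fun x => f (L x)) d = f (dlab L d) := by
  obtain ⟨x, b⟩ := d
  cases b <;> simp [dlab]

theorem map_flb {H' : Type} [DecidableEq E] [Group H] [Group H'] (f : H →* H') (n : Nx E)
    (L : E → H) (d : Dr E) : (fun x => f (flb n L d x)) = flb n (fun x => f (L x)) d := by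
  funext x
  by_cases h : x = d.1
  · subst h
    simp only [flb, Function.update_self, map_dlab]
    cases d.2 <;> simp only [mul_inv_rev, cond_false, map_mul, cond_true, map_inv]
  · simp only [flb, Function.update_of_ne h]

theorem dlab_geo (M : Tup g) (l : E → Fr g) (d : Dr E) :
    dlab (geo M l) d = FreeGroup.lift M (dlab l d) := map_dlab _ l d

theorem geo_flb [DecidableEq E] (M : Tup g) (n : Nx E) (l : E → Fr g) (d : Dr E) :
    geo M (flb n l d) = flb n (geo M l) d := map_flb _ n l d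

/-! The relator acts trivially -/

theorem pm_of_mem {M : Tup g} (hM : Fm M) {x : Fr g} (hx : x ∈ NN g) :
    PM (FreeGroup.lift M x) 1 := by
  let K : Subgroup (Fr g) :=
    { carrier := {x | PM (FreeGroup.lift M x) 1}
      one_mem' := Or.inl (map_one _)
      mul_mem' := fun {a b} ha hb => by
        rcases ha with ha | ha <;> rcases hb with hb | hb <;> simp only [PM, mem_ofPred_eq, map_mul, ha, hb, mul_one, true_or, mul_neg, or_true, neg_neg]
      inv_mem' := fun {a} ha => by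
        rcases ha with ha | ha
        · exact Or.inl (by rw [map_inv, ha, inv_one])
        · exact Or.inr (by rw [map_inv, ha, inv_eq_iff_mul_eq_one]; simp) }
  have : K.Normal := ⟨fun a ha c => by
    rcases ha with ha | ha
    · exact Or.inl (by simp only [map_mul, ha, mul_one, map_inv, mul_inv_cancel])
    · exact Or.inr (by simp only [map_mul, ha, mul_neg, mul_one, map_inv, neg_mul, mul_inv_cancel])⟩
  exact Subgroup.normalClosure_le_normal (N := K) (singleton_subset_iff.2 hM) hx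

theorem smul_of_eqN {M : Tup g} (hM : Fm M) {x y : Fr g} (h : EqN x y) (z : ℍ) :
    FreeGroup.lift M x • z = FreeGroup.lift M y • z := by
  have := (pm_of_mem hM h).smul_eq z
  rw [one_smul, map_mul, map_inv, mul_smul, inv_smul_eq_iff] at this
  exact this.symm

theorem flat_geo {M : Tup g} (hM : Fm M) {n : Nx E} {l : E → Fr g} (h : ∀ d, fp n l d ∈ NN g) :
    Flat n (geo M l) := fun d => by
  have := pm_of_mem hM (h d)
  simpa only [fp, map_mul, dlab_geo] using this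

theorem Flat.act {n : Nx E} {L : E → G} (h : Flat n L) (d : Dr E) (w : ℍ) :
    dlab L d • dlab L (n d) • dlab L (n (n d)) • w = w := by
  have := (h d).smul_eq w
  rwa [one_smul, fp, mul_smul, mul_smul] at this

/-! Functions of faces -/

/-- Invariant under the group and under rotation of the vertices. -/
structure Iv {α : Type} (f : ℍ → ℍ → ℍ → α) : Prop where
  sm : ∀ (k : G) p q r, f (k • p) (k • q) (k • r) = f p q r
  cy : ∀ p q r, f q r p = f p q r

noncomputable def face {α : Type} (f : ℍ → ℍ → ℍ → α) (n : Nx E) (L : E → G) (z : ℍ) (d : Dr E) : α :=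
  f z (vQ L z d) (vR n L z d)

theorem hD_smul (k : G) (p q r : ℍ) : hD (k • p) (k • q) (k • r) = hD p q r := by
  obtain ⟨c, hc, e⟩ := hdet_smul k p q r
  have h2 : hD (k • p) (k • q) (k • r) ^ 2 = hD p q r ^ 2 := by
    simp only [hD_sq, ch, dist_smul]
  have hp : 0 < p.im * q.im * r.im := mul_pos (mul_pos p.im_pos q.im_pos) r.im_pos
  have hq : 0 < (k • p).im * (k • q).im * (k • r).im :=
    mul_pos (mul_pos (k • p).im_pos (k • q).im_pos) (k • r).im_pos
  have h3 : 0 ≤ hD (k • p) (k • q) (k • r) * hD p q r := by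
    rw [hD, hD, e, div_mul_div_comm, mul_assoc]
    exact div_nonneg (mul_nonneg hc.le (mul_self_nonneg _)) (mul_pos hq hp).le
  rcases sq_eq_sq_iff_eq_or_eq_neg.1 h2 with h | h
  · exact h
  · rw [h] at h3 ⊢
    nlinarith only [h3]

theorem iv_hD : Iv hD := ⟨hD_smul, hD_cyc⟩

theorem face_nx {α : Type} {f : ℍ → ℍ → ℍ → α} (hf : Iv f) {n : Nx E} {L : E → G} (h : Flat n L)
    (z : ℍ) (d : Dr E) : face f n L z (n d) = face f n L z d := by
  rw [face, face, ← hf.sm (dlab L d), ← hf.cy z]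
  simp only [vQ, vR, mul_smul, Flat.act h]

theorem face_rev {α : Type} {f : ℍ → ℍ → ℍ → α} (hf : Iv f) (n : Nx E) (L : E → G)
    (z : ℍ) (d : Dr E) : face f n L z (rev d) = f (vQ L z d) z (vS n L z d) := by
  rw [face, ← hf.sm (dlab L d)]
  simp only [vQ, vR, vS, mul_smul, dlab_rev, smul_inv_smul]

theorem hD_self (p q : ℍ) : hD p q p = 0 := by
  simp only [hD, hdet, det3]
  ring

theorem fl_of_pos {n : Nx E} {L : E → G} {z : ℍ} (h : Gs n L z) (d : Dr E) : Fl n d := by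
  have k : ∀ d, rev d ≠ n d := fun d e => by
    have := h.pos d
    rw [fD, vR, ← e, dlab_rev, mul_inv_cancel, one_smul, hD_self] at this
    exact lt_irrefl _ this
  refine ⟨k d, fun e => k (n (n d)) ?_⟩
  rw [h.trg.cube, ← e, rev_rev]

section flip
variable [DecidableEq E] {n : Nx E} {L : E → G} {z : ℍ}

theorem Gs.qd (h : Gs n L z) (d : Dr E) :
    Qd n (fnx n d) d d (n d) (n (n d)) (n (rev d)) (n (n (rev d))) :=
  qd_fnx h.trg.cube h.trg.ne (fl_of_pos h d)

theorem pm_rot {x y : G} (h : PM (x * y) 1) : PM (y * x) 1 := by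
  have e : y * x = x⁻¹ * (x * y) * x := by group
  rcases h with h | h <;> rw [e, h]
  · exact Or.inl (by simp)
  · exact Or.inr (by simp)

theorem flat_flip (h : Gs n L z) (d : Dr E) : Flat (fnx n d) (flb n L d) := by
  have q := Gs.qd h d
  have rot : ∀ x, fnx n d (fnx n d (fnx n d x)) = x → PM (fp (fnx n d) (flb n L d) x) 1 →
      PM (fp (fnx n d) (flb n L d) (fnx n d x)) 1 := fun x e hx => by
    rw [fp, e]
    rw [fp, mul_assoc] at hx
    exact pm_rot hx
  have f1 : PM (fp (fnx n d) (flb n L d) d) 1 := by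
    rw [fp, q.m1, q.m2, dlab_flb, dlab_flb_ne _ _ q.hb, dlab_flb_ne _ _ q.hc, mul_assoc,
      inv_mul_cancel]
    exact Or.inl rfl
  have f2 : PM (fp (fnx n d) (flb n L d) (rev d)) 1 := by
    rw [fp, q.m4, q.m5, dlab_rev, dlab_flb, dlab_flb_ne _ _ q.hh, dlab_flb_ne _ _ q.ha, inv_inv]
    have k1 := h.flat d
    have k2 := h.flat (rev d)
    rw [fp] at k1 k2
    rw [dlab_rev] at k2
    generalize dlab L d = D, dlab L (n d) = A, dlab L (n (n d)) = B, dlab L (n (rev d)) = C,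
      dlab L (n (n (rev d))) = K at *
    have e : B * C * K * A = B * D * (D⁻¹ * C * K) * A := by group
    have e' : B * D * A = B * (D * A * B) * B⁻¹ := by group
    rcases k2 with k2 | k2 <;> rcases k1 with k1 | k1 <;> rw [e, k2]
    · rw [mul_one, e', k1]; exact Or.inl (by simp)
    · rw [mul_one, e', k1]; exact Or.inr (by simp)
    · rw [mul_neg, mul_one, neg_mul, e', k1]; exact Or.inr (by simp)
    · rw [mul_neg, mul_one, neg_mul, e', k1]; exact Or.inl (by simp)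
  intro x
  rcases q.cases x with rfl | rfl | rfl | rfl | rfl | rfl | ⟨e0, e1, e2, e3, e4⟩
  · exact f1
  · exact q.m1 ▸ rot d (by rw [q.m1, q.m2, q.m3]) f1
  · exact q.m2 ▸ rot _ (by rw [q.m2, q.m3, q.m1]) (q.m1 ▸ rot d (by rw [q.m1, q.m2, q.m3]) f1)
  · exact f2
  · exact q.m4 ▸ rot _ (by rw [q.m4, q.m5, q.m6]) f2
  · exact q.m5 ▸ rot _ (by rw [q.m5, q.m6, q.m4]) (q.m4 ▸ rot _ (by rw [q.m4, q.m5, q.m6]) f2)
  · obtain ⟨g0, g1, g2, g3, g4⟩ := q.off e0 e1 e2 e3 e4
    rw [fp, q.out x e0 e1 e2 e3 e4, q.out _ g0 g1 g2 g3 g4, dlab_flb_ne _ _ e0, dlab_flb_ne _ _ g0,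
      dlab_flb_ne _ _ (q.off g0 g1 g2 g3 g4).1]
    exact h.flat x

variable {α : Type} {f : ℍ → ℍ → ℍ → α}

theorem face_flip1 (hf : Iv f) (h : Gs n L z) (d : Dr E) :
    face f (fnx n d) (flb n L d) z d = f (vS n L z d) (vR n L z d) z := by
  have q := Gs.qd h d
  have k := Flat.act h.flat d ((dlab L (n (n d)))⁻¹ • z)
  rw [face, ← hf.sm (dlab L (n (rev d)))]
  simp only [vQ, vR, vS, q.m1, dlab_flb, dlab_flb_ne _ _ q.hb, mul_inv_rev, mul_smul,
    smul_inv_smul, inv_smul_smul] at k ⊢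
  rw [k]

theorem face_flip2 (hf : Iv f) (h : Gs n L z) (d : Dr E) :
    face f (fnx n d) (flb n L d) z (rev d) = f (vR n L z d) (vS n L z d) (vQ L z d) := by
  have q := Gs.qd h d
  have k := Flat.act h.flat d ((dlab L (n (n d)))⁻¹ • z)
  have k' := Flat.act h.flat (rev d) z
  rw [dlab_rev, inv_smul_eq_iff] at k'
  rw [face, ← hf.sm (dlab L (n (n d)))⁻¹]
  simp only [vQ, vR, vS, q.m4, dlab_rev, dlab_flb, dlab_flb_ne _ _ q.hh, inv_inv, mul_smul,
    smul_inv_smul, inv_smul_smul] at k ⊢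
  rw [k, k']

theorem face_flip_off (h : Gs n L z) {d x : Dr E} (e0 : x.1 ≠ d.1) (e1 : x ≠ n d)
    (e2 : x ≠ n (n d)) (e3 : x ≠ n (rev d)) (e4 : x ≠ n (n (rev d))) :
    face f (fnx n d) (flb n L d) z x = face f n L z x := by
  have q := Gs.qd h d
  simp only [face, vQ, vR, q.out x e0 e1 e2 e3 e4, dlab_flb_ne _ _ e0,
    dlab_flb_ne _ _ (q.off e0 e1 e2 e3 e4).1]

/-- Every face of the flipped state is an old face or one of the two new faces. -/
theorem face_flip (hf : Iv f) (h : Gs n L z) (d x : Dr E) :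
    face f (fnx n d) (flb n L d) z x = f (vS n L z d) (vR n L z d) z ∨
      face f (fnx n d) (flb n L d) z x = f (vR n L z d) (vS n L z d) (vQ L z d) ∨
      face f (fnx n d) (flb n L d) z x = face f n L z x := by
  have q := Gs.qd h d
  have k := face_nx hf (flat_flip h d) z
  rcases q.cases x with rfl | rfl | rfl | rfl | rfl | rfl | ⟨e0, e1, e2, e3, e4⟩
  · exact Or.inl (face_flip1 hf h _)
  · exact Or.inl (by rw [← q.m1, k, face_flip1 hf h])
  · exact Or.inl (by rw [← q.m2, k, ← q.m1, k, face_flip1 hf h])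
  · exact Or.inr (Or.inl (face_flip2 hf h _))
  · exact Or.inr (Or.inl (by rw [← q.m4, k, face_flip2 hf h]))
  · exact Or.inr (Or.inl (by rw [← q.m5, k, ← q.m4, k, face_flip2 hf h]))
  · exact Or.inr (Or.inr (face_flip_off h e0 e1 e2 e3 e4))

theorem pos_flip (h : Gs n L z) (d : Dr E) : Pos (fnx n d) (flb n L d) z ↔
    0 < hD (vS n L z d) (vR n L z d) z ∧ 0 < hD (vR n L z d) (vS n L z d) (vQ L z d) := by
  refine ⟨fun hp => ⟨face_flip1 iv_hD h d ▸ hp d, face_flip2 iv_hD h d ▸ hp (rev d)⟩,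
    fun hp x => ?_⟩
  change 0 < face hD _ _ z x
  rcases face_flip iv_hD h d x with e | e | e <;> rw [e]
  exacts [hp.1, hp.2, h.pos x]

omit [DecidableEq E] in
theorem pos_rev (h : Pos n L z) (d : Dr E) : 0 < hD (vQ L z d) z (vS n L z d) :=
  face_rev iv_hD n L z d ▸ h (rev d)

end flip

theorem cramer (p q r s t : ℍ) :
    hD p q r * ch s t + hD q p s * ch r t = hD r s q * ch p t + hD s r p * ch q t := by
  have := p.im_pos.ne'
  have := q.im_pos.ne'
  have := r.im_pos.ne'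
  have := s.im_pos.ne'
  have := t.im_pos.ne'
  simp only [hD, ch, cosh_dist_Φ, hdet, det3, Φ]
  field_simp
  ring

theorem ch_self (t : ℍ) : ch t t = 1 := by rw [ch, dist_self, cosh_zero]

/-- A flip that lowers the sum of the determinants is convex. -/
theorem convex_of_lt {p q r s : ℍ} (h1 : 0 < hD p q r) (h2 : 0 < hD q p s)
    (h : hD s r p + hD r s q < hD p q r + hD q p s) : 0 < hD s r p ∧ 0 < hD r s q := by
  have c1 := cramer p q r s p
  have c2 := cramer p q r s q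
  rw [ch_self, ch_comm q p] at c1
  rw [ch_self] at c2
  have l0 := one_le_ch p q
  have l1 := one_le_ch s p
  have l2 := one_le_ch s q
  have l3 := one_le_ch r p
  have l4 := one_le_ch r q
  constructor <;> by_contra hn <;> push Not at hn
  · linarith only [mul_nonneg h1.le (sub_nonneg.2 l1), mul_nonneg h2.le (sub_nonneg.2 l3), mul_nonneg (neg_nonneg.2 hn) (sub_nonneg.2 l0), h, c1]
  · linarith only [mul_nonneg h1.le (sub_nonneg.2 l2), mul_nonneg h2.le (sub_nonneg.2 l4), mul_nonneg (neg_nonneg.2 hn) (sub_nonneg.2 l0), h, c2]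

theorem pos_flip_of_dV_neg [DecidableEq E] {n : Nx E} {L : E → G} {z : ℍ} (h : Gs n L z)
    {d : Dr E} (hd : dV n L z d < 0) : Pos (fnx n d) (flb n L d) z :=
  (pos_flip h d).2 (convex_of_lt (h.pos d) (pos_rev h.pos d) (by rw [dV] at hd; linarith))

/-- The sum of the determinants of the faces (each face three times). -/
noncomputable def val [Fintype E] (n : Nx E) (L : E → G) (z : ℍ) : ℝ := ∑ d, fD n L z d

theorem val_flip [Fintype E] [DecidableEq E] {n : Nx E} {L : E → G} {z : ℍ} (h : Gs n L z)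
    (d : Dr E) : val (fnx n d) (flb n L d) z = val n L z + 3 * dV n L z d := by
  have q := Gs.qd h d
  have k := face_nx iv_hD (flat_flip h d) z
  have k0 := face_nx iv_hD h.flat z
  have nd : ∀ {x : Dr E}, x.1 ≠ d.1 → d ≠ x ∧ rev d ≠ x := fun hx =>
    ⟨fun e => hx (by rw [← e]), fun e => hx (by rw [← e, rev_fst])⟩
  obtain ⟨ab, ac, ah, bc, bh, ch⟩ := q.ne
  have e : ∑ x, (face hD (fnx n d) (flb n L d) z x - face hD n L z x) =
      ∑ x ∈ {d, rev d, n d, n (n d), n (rev d), n (n (rev d))},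
        (face hD (fnx n d) (flb n L d) z x - face hD n L z x) := by
    refine (Finset.sum_subset (Finset.subset_univ _) fun x _ hx => ?_).symm
    simp only [Finset.mem_insert, Finset.mem_singleton, not_or] at hx
    rw [face_flip_off h (fst_ne hx.1 hx.2.1) hx.2.2.1 hx.2.2.2.1 hx.2.2.2.2.1 hx.2.2.2.2.2, sub_self]
  rw [Finset.sum_insert (by simp [(rev_ne d).symm, nd q.ha, nd q.hb, nd q.hc, nd q.hh]),
    Finset.sum_insert (by simp [nd q.ha, nd q.hb, nd q.hc, nd q.hh]),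
    Finset.sum_insert (by simp only [Finset.mem_insert, Finset.mem_singleton]; tauto),
    Finset.sum_insert (by simp only [Finset.mem_insert, Finset.mem_singleton]; tauto),
    Finset.sum_pair ch, Finset.sum_sub_distrib] at e
  have b' := k d
  have c' := k (n (n d))
  have h' := k (rev d)
  have a' := k (n (n (rev d)))
  rw [q.m1] at b'
  rw [q.m2] at c'
  rw [q.m4] at h'
  rw [q.m5] at a'
  rw [a', c', h', b', face_flip1 iv_hD h, face_flip2 iv_hD h] at e
  simp only [k0, face_rev iv_hD] at e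
  simp only [val, dV, fD]
  simp only [face] at e
  linarith only [e]

/-! The radial bound -/

/-- The flat triangle spanned by three points of the hyperboloid has radius at most `√R`. -/
def RT (R : ℝ) (p q r : ℍ) : Prop :=
  ∀ a b c : ℝ, 0 ≤ a → 0 ≤ b → 0 ≤ c →
    a ^ 2 + b ^ 2 + c ^ 2 + 2 * (a * b * ch p q + b * c * ch q r + a * c * ch p r) ≤
      R * (a + b + c) ^ 2

theorem RT.cyc {R : ℝ} {p q r : ℍ} (h : RT R p q r) : RT R q r p := fun a b c ha hb hc => by
  have := h c a b hc ha hb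
  rw [ch_comm q p, ch_comm r p]
  linarith [show (c + a + b) ^ 2 = (a + b + c) ^ 2 by ring,
    show R * (c + a + b) ^ 2 = R * (a + b + c) ^ 2 by ring]

theorem iv_RT (R : ℝ) : Iv (RT R) :=
  ⟨fun k p q r => by simp only [RT, ch, dist_smul],
    fun _ _ _ => propext ⟨fun h => h.cyc.cyc, fun h => h.cyc⟩⟩

theorem RT.edge {R : ℝ} {p q r : ℍ} (h : RT R p q r) : ch p q ≤ 2 * R - 1 := by
  have := h 1 1 0 zero_le_one zero_le_one le_rfl
  linarith

theorem RT.of_le {R : ℝ} {p q r : ℍ} (h1 : ch p q ≤ R) (h2 : ch q r ≤ R) (h3 : ch p r ≤ R) :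
    RT R p q r := fun a b c ha hb hc => by
  have h0 := sub_nonneg.2 ((one_le_ch p q).trans h1)
  linarith only [mul_nonneg (mul_nonneg ha hb) (sub_nonneg.2 h1), mul_nonneg (mul_nonneg hb hc) (sub_nonneg.2 h2), mul_nonneg (mul_nonneg ha hc) (sub_nonneg.2 h3), mul_nonneg h0 (sq_nonneg a), mul_nonneg h0 (sq_nonneg b), mul_nonneg h0 (sq_nonneg c)]

theorem rt_aux {R : ℝ} {p q r s : ℍ} (h1 : 0 < hD p q r) (h3 : 0 < hD s r p) (h4 : 0 < hD r s q)
    (h : hD s r p + hD r s q ≤ hD p q r + hD q p s) (hR : RT R p q r) {a b c e : ℝ} (ha : 0 ≤ a)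
    (hc : 0 ≤ c) (he : 0 ≤ e) (hab : a * hD q p s ≤ b * hD p q r) :
    a ^ 2 + b ^ 2 + c ^ 2 + e ^ 2 + 2 * (a * b * ch s r + a * c * ch s p + a * e * ch s q +
      b * c * ch r p + b * e * ch r q + c * e * ch p q) ≤ R * (a + b + c + e) ^ 2 := by
  have cp := cramer p q r s p
  have cq := cramer p q r s q
  have cr := cramer p q r s r
  have cs := cramer p q r s s
  have hR0 : 0 ≤ R := by linarith only [hR.edge, one_le_ch p q]
  have k := hR (c * hD p q r + a * hD r s q) (e * hD p q r + a * hD s r p)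
    (b * hD p q r - a * hD q p s) (by positivity) (by positivity) (sub_nonneg.2 hab)
  simp only [ch_self, ch_comm q p, ch_comm p r, ch_comm q r, ch_comm r s, ch_comm p s,
    ch_comm q s] at cp cq cr cs k
  generalize hD p q r = D, hD q p s = D', hD r s q = X, hD s r p = Y, ch p q = u, ch r p = v,
    ch r q = w, ch s p = x, ch s q = y, ch s r = t at *
  have e1 : D ^ 2 * (a ^ 2 + b ^ 2 + c ^ 2 + e ^ 2 +
      2 * (a * b * t + a * c * x + a * e * y + b * c * v + b * e * w + c * e * u)) =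
      (c * D + a * X) ^ 2 + (e * D + a * Y) ^ 2 + (b * D - a * D') ^ 2 +
      2 * ((c * D + a * X) * (e * D + a * Y) * u + (e * D + a * Y) * (b * D - a * D') * w +
        (c * D + a * X) * (b * D - a * D') * v) := by
    linear_combination (a ^ 2 * D) * cs + (2 * a * b * D - a ^ 2 * D') * cr +
      (2 * a * c * D + a ^ 2 * X) * cp + (2 * a * e * D + a ^ 2 * Y) * cq
  have e2 : (c * D + a * X + (e * D + a * Y) + (b * D - a * D')) ^ 2 ≤
      (D * (a + b + c + e)) ^ 2 := by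
    refine pow_le_pow_left₀ (by have := sub_nonneg.2 hab; positivity) ?_ 2
    linarith only [mul_nonneg ha (sub_nonneg.2 h)]
  refine le_of_mul_le_mul_left ?_ (pow_pos h1 2)
  rw [e1]
  refine k.trans ((mul_le_mul_of_nonneg_left e2 hR0).trans_eq (by ring))

theorem rt_quad {R : ℝ} {p q r s : ℍ} (h1 : 0 < hD p q r) (h2 : 0 < hD q p s) (h3 : 0 < hD s r p)
    (h4 : 0 < hD r s q) (h : hD s r p + hD r s q ≤ hD p q r + hD q p s) (hR : RT R p q r)
    (hR' : RT R q p s) : RT R s r p ∧ RT R r s q := by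
  have k : ∀ a b c e : ℝ, 0 ≤ a → 0 ≤ b → 0 ≤ c → 0 ≤ e →
      a ^ 2 + b ^ 2 + c ^ 2 + e ^ 2 + 2 * (a * b * ch s r + a * c * ch s p + a * e * ch s q +
      b * c * ch r p + b * e * ch r q + c * e * ch p q) ≤ R * (a + b + c + e) ^ 2 := by
    intro a b c e ha hb hc he
    rcases le_total (a * hD q p s) (b * hD p q r) with hab | hab
    · exact rt_aux h1 h3 h4 h hR ha hc he hab
    · have := rt_aux h2 h4 h3 (by linarith) hR' hb he hc hab
      rw [ch_comm r s, ch_comm q p] at this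
      linarith [show R * (b + a + e + c) ^ 2 = R * (a + b + c + e) ^ 2 by ring]
  refine ⟨fun a b c ha hb hc => ?_, fun a b c ha hb hc => ?_⟩
  · have := k a b c 0 ha hb hc le_rfl
    linarith [show R * (a + b + c + 0) ^ 2 = R * (a + b + c) ^ 2 by ring]
  · have := k b a 0 c hb ha le_rfl hc
    rw [ch_comm r s]
    linarith [show R * (b + a + 0 + c) ^ 2 = R * (a + b + c) ^ 2 by ring]

def Rad (R : ℝ) (n : Nx E) (L : E → G) (z : ℍ) : Prop := ∀ d, face (RT R) n L z d

theorem Rad.edge {R : ℝ} {n : Nx E} {L : E → G} {z : ℍ} (h : Rad R n L z) (d : Dr E) :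
    ch z (vQ L z d) ≤ 2 * R - 1 := RT.edge (h d)

theorem rad_init {R : ℝ} {n : Nx E} {L : E → G} {z : ℍ} (hf : Flat n L)
    (h : ∀ d, ch z (vQ L z d) ≤ R) : Rad R n L z := fun d => by
  refine RT.of_le (h d) ?_ ?_
  · have := h (n d)
    rwa [ch, ← dist_smul (dlab L d), vQ, ← mul_smul] at this
  · have := h (n (n d))
    rwa [ch, ← dist_smul (dlab L d * dlab L (n d)), vQ, mul_smul _ _ (_ • z), Flat.act hf,
      dist_comm] at this

theorem Rad.flip [DecidableEq E] {R : ℝ} {n : Nx E} {L : E → G} {z : ℍ} (h : Gs n L z) {d : Dr E}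
    (hp : Pos (fnx n d) (flb n L d) z) (hd : dV n L z d ≤ 0) (hR : Rad R n L z) :
    Rad R (fnx n d) (flb n L d) z := by
  obtain ⟨h3, h4⟩ := (pos_flip h d).1 hp
  obtain ⟨k1, k2⟩ := rt_quad (h.pos d) (pos_rev h.pos d) h3 h4 (by rw [dV] at hd; linarith) (hR d)
    (face_rev (iv_RT R) n L z d ▸ hR (rev d))
  intro x
  rcases face_flip (iv_RT R) h d x with e | e | e <;> rw [e]
  exacts [k1, k2, hR x]

/-! Marked states -/

theorem eqN_iff {x y : Fr g} :
    EqN x y ↔ (QuotientGroup.mk x : Fr g ⧸ NN g) = QuotientGroup.mk y := QuotientGroup.eq.symm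

theorem face_iso {α : Type} (f : ℍ → ℍ → ℍ → α) {M : Tup g} (hM : Fm M) {n n' σ : Nx E}
    {l l' : E → Fr g} (hσ : Rlb σ n n') (hl : ∀ d, EqN (dlab l d) (dlab l' (σ d))) (z : ℍ)
    (d : Dr E) : face f n' (geo M l') z (σ d) = face f n (geo M l) z d := by
  simp only [face, vQ, vR, mul_smul, dlab_geo, ← hσ.nx, ← smul_of_eqN hM (hl _)]

theorem Iso.symm {τ τ' : MS g} (h : Iso τ τ') : Iso τ' τ := by
  obtain ⟨σ, hσ, hl⟩ := h
  refine ⟨σ⁻¹, ⟨fun d => σ.injective ?_, fun d => σ.injective ?_⟩, fun d => ?_⟩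
  · rw [hσ.rv]; simp
  · rw [hσ.nx]; simp
  · have := hl (σ⁻¹ d)
    rw [eqN_iff] at this ⊢
    simpa using this.symm

theorem ps_iso {M : Tup g} (hM : Fm M) {z : ℍ} {τ τ' : MS g} (h : Iso τ τ') (hp : Ps M z τ) :
    Ps M z τ' := by
  obtain ⟨σ, hσ, hl⟩ := h
  intro d
  obtain ⟨d, rfl⟩ := σ.surjective d
  change 0 < face hD _ _ z _
  rw [face_iso hD hM hσ hl z d]
  exact hp d

theorem val_iso [Fintype E] {M : Tup g} (hM : Fm M) {n n' σ : Nx E} {l l' : E → Fr g}
    (hσ : Rlb σ n n') (hl : ∀ d, EqN (dlab l d) (dlab l' (σ d))) (z : ℍ) :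
    val n' (geo M l') z = val n (geo M l) z :=
  (Equiv.sum_comp σ _).symm.trans (Finset.sum_congr rfl fun d _ => face_iso hD hM hσ hl z d)

theorem Rad.iso {R : ℝ} {M : Tup g} (hM : Fm M) {z : ℍ} {τ τ' : MS g} (h : Iso τ τ')
    (hR : Rad R τ.1 (geo M τ.2) z) : Rad R τ'.1 (geo M τ'.2) z := by
  obtain ⟨σ, hσ, hl⟩ := h
  intro d
  obtain ⟨d, rfl⟩ := σ.surjective d
  exact face_iso (RT R) hM hσ hl z d ▸ hR d

theorem gs_of (hT : TAx g) {M : Tup g} (hM : Fm M) {z : ℍ} {τ : MS g} (h : MT τ) (hp : Ps M z τ) :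
    Gs τ.1 (geo M τ.2) z := ⟨h.1, flat_geo hM (hT.flat h), hp⟩

theorem mv_ok (hT : TAx g) {M : Tup g} (hM : Fm M) {z : ℍ} {τ τ' : MS g} (h : Mv M z τ τ') :
    (MT τ ∧ Ps M z τ) ∧ MT τ' ∧ Ps M z τ' := by
  cases h with
  | iso h1 h2 h3 => exact ⟨⟨h1, h2⟩, hT.iso h1 h3, ps_iso hM h3 h2⟩
  | flip d h1 h2 h3 => exact ⟨⟨h1, h2⟩, hT.flip h1 (fl_of_pos (gs_of hT hM h1 h2) d), h3⟩

theorem eqv_ok (hT : TAx g) {M : Tup g} (hM : Fm M) {z : ℍ} {τ τ' : MS g} (h : Eqv M z τ τ') :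
    (MT τ ∧ Ps M z τ) ↔ MT τ' ∧ Ps M z τ' := by
  induction h with
  | rel _ _ h => exact iff_of_true (mv_ok hT hM h).1 (mv_ok hT hM h).2
  | refl => rfl
  | symm _ _ _ ih => exact ih.symm
  | trans _ _ _ _ _ i1 i2 => exact i1.trans i2

theorem ps_flip_iff {M : Tup g} {z : ℍ} {τ : MS g} {d : Dr (Ed g)} :
    Ps M z (flip τ d) ↔ Pos (fnx τ.1 d) (flb τ.1 (geo M τ.2) d) z := by
  rw [← geo_flb]; rfl

end Pool.Agent.MP_596265_gt.U.DF

end

section

/-! Uniform steps: inscribed triangles with long sides stay positive when the vertices move. -/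

namespace Pool.Agent.MP_596265_gt.U.Stp

open Erg Real UpperHalfPlane Set Metric

/-- Half of the horocyclic length of a side. -/
noncomputable def xs (p q : ℍ) : ℝ := sinh (dist p q / 2)

theorem xs_nonneg (p q : ℍ) : 0 ≤ xs p q := sinh_nonneg_iff.2 (by positivity)

theorem xs_comm (p q : ℍ) : xs p q = xs q p := by rw [xs, xs, dist_comm]

theorem ch_xs (p q : ℍ) : ch p q = 1 + 2 * xs p q ^ 2 := by
  have h := cosh_two_mul (dist p q / 2)
  rw [show 2 * (dist p q / 2) = dist p q by ring, cosh_sq] at h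
  rw [ch, xs, h]
  ring

theorem hH_xs (p r q : ℍ) : hH p r q = (xs p q + xs q r + xs p r) * (xs q r + xs p r - xs p q) *
    (xs p q + xs p r - xs q r) * (xs p q + xs q r - xs p r) := by
  simp only [hH, kS, ch_xs]
  ring

theorem tri_of_prod {x y w : ℝ}
    (h : 0 ≤ (x + y + w) * (y + w - x) * (x + w - y) * (x + y - w)) (h1 : 0 < y) (h2 : 0 < w) :
    x ≤ y + w := by
  by_contra hn
  have a : y + w - x < 0 := by linarith
  have b : 0 < (x + y + w) * ((x + w - y) * (x + y - w)) :=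
    mul_pos (by linarith) (mul_pos (by linarith) (by linarith))
  linarith only [mul_neg_of_pos_of_neg b a, h]

/-- The triangle has a circumscribed circle or horocycle iff the triangle inequalities hold. -/
theorem hH_nonneg_iff {p r q : ℍ} (h1 : 0 < xs p q) (h2 : 0 < xs q r) (h3 : 0 < xs p r) :
    0 ≤ hH p r q ↔ xs p q ≤ xs q r + xs p r ∧ xs q r ≤ xs p q + xs p r ∧
      xs p r ≤ xs p q + xs q r := by
  rw [hH_xs]
  refine ⟨fun h => ⟨tri_of_prod h h2 h3, tri_of_prod (by linarith) h1 h3,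
    tri_of_prod (by linarith) h1 h2⟩, fun ⟨a, b, c⟩ => ?_⟩
  exact mul_nonneg (mul_nonneg (mul_nonneg (by linarith) (by linarith)) (by linarith)) (by linarith)

theorem gap {e : ℝ} (he : 0 < e) : ∃ δ > 0, ∀ s u v : ℝ, e ≤ u → e ≤ v →
    sinh s ≤ sinh u + sinh v → s + δ ≤ u + v := by
  have c1 : 1 < cosh e := one_lt_cosh.2 he.ne'
  obtain ⟨t, ht⟩ : ∃ t, t = (1 - 1 / cosh e) / (1 + 1 / (2 * e)) := ⟨_, rfl⟩
  have t0 : 0 < t := by
    rw [ht]
    exact div_pos (sub_pos.2 ((div_lt_one (by linarith)).2 c1)) (by positivity)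
  have t1 : cosh e * (1 - (1 + 1 / (2 * e)) * t) = 1 := by
    rw [ht]
    field_simp
    ring
  refine ⟨arsinh t, arsinh_pos_iff.2 t0, fun s u v hu hv h => ?_⟩
  have m : ∀ w, e ≤ w → cosh e ≤ cosh w := fun w hw =>
    cosh_le_cosh.2 (by rwa [abs_of_pos he, abs_of_pos (he.trans_le hw)])
  have su : 0 ≤ sinh u := sinh_nonneg_iff.2 (by linarith only [he, hu])
  have sv : 0 ≤ sinh v := sinh_nonneg_iff.2 (by linarith only [he, hv])
  have a1 : cosh e * (sinh u + sinh v) ≤ sinh (u + v) := by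
    rw [sinh_add]
    linarith only [mul_le_mul_of_nonneg_left (m u hu) sv, mul_le_mul_of_nonneg_left (m v hv) su]
  have a2 : 2 * e ≤ sinh (u + v) :=
    (by linarith only [hu, hv] : 2 * e ≤ u + v).trans (self_le_sinh_iff.2 (by linarith only [he, hu, hv]))
  have a3 : cosh (u + v) ≤ (1 + 1 / (2 * e)) * sinh (u + v) := by
    have b1 := cosh_sub_sinh (u + v)
    have b2 : exp (-(u + v)) ≤ 1 := exp_le_one_iff.2 (by linarith only [he, hu, hv])
    have b3 : 1 ≤ 1 / (2 * e) * sinh (u + v) := by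
      rw [one_div, inv_mul_eq_div]
      exact (one_le_div (by positivity)).2 a2
    linarith only [b1, b2, b3]
  have a4 : (1 - (1 + 1 / (2 * e)) * t) * sinh (u + v) ≤ sinh (u + v - arsinh t) := by
    rw [sinh_sub, sinh_arsinh]
    linarith only [mul_le_mul_of_nonneg_left (one_le_cosh (arsinh t)) (by linarith only [he, a2] : 0 ≤ sinh (u + v)), mul_le_mul_of_nonneg_right a3 t0.le]
  have a5 : 0 < 1 - (1 + 1 / (2 * e)) * t :=
    (mul_pos_iff_of_pos_left (by linarith only [c1] : 0 < cosh e)).1 (by rw [t1]; exact one_pos)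
  have a6 := mul_le_mul_of_nonneg_left a1 a5.le
  rw [← mul_assoc, mul_comm _ (cosh e), t1, one_mul] at a6
  have := sinh_le_sinh.1 (h.trans (a6.trans a4))
  linarith only [this]

theorem hD_ne {p q r : ℍ} (h1 : dist p q < dist q r + dist p r)
    (h2 : dist q r < dist p q + dist p r) (h3 : dist p r < dist p q + dist q r) : hD p q r ≠ 0 := by
  intro h
  have e := hD_sq p q r
  have a : cosh (dist p q) < cosh (dist q r + dist p r) :=
    cosh_lt_cosh.2 (by rwa [abs_of_nonneg dist_nonneg, abs_of_nonneg (by positivity)])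
  have b : cosh (dist q r - dist p r) < cosh (dist p q) :=
    cosh_lt_cosh.2 (by
      rw [abs_of_nonneg (dist_nonneg (x := p) (y := q))]
      exact abs_lt.2 ⟨by linarith, by linarith⟩)
  have c := mul_pos (sub_pos.2 a) (sub_pos.2 b)
  rw [cosh_add, cosh_sub] at c
  rw [h, ch, ch, ch] at e
  have s1 := cosh_sq (dist q r)
  have s2 := cosh_sq (dist p r)
  generalize cosh (dist p q) = A, cosh (dist q r) = B, cosh (dist p r) = C,
    sinh (dist q r) = S, sinh (dist p r) = T at *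
  have : (S * T) ^ 2 = (B ^ 2 - 1) * (C ^ 2 - 1) := by
    rw [mul_pow, s1, s2]
    ring
  linarith only [e, c, this]

/-- Moving the three vertices a little keeps the triangle nondegenerate. -/
theorem step3 {η : ℝ} (hη : 0 < η) : ∃ c > 0, ∀ p q r p' q' r' : ℍ, η ≤ dist p q → η ≤ dist q r →
    η ≤ dist p r → 0 ≤ hH p q r → dist p p' ≤ c → dist q q' ≤ c → dist r r' ≤ c →
    hD p' q' r' ≠ 0 := by
  obtain ⟨δ, h0, hδ⟩ := gap (half_pos hη)
  refine ⟨δ / 4, by positivity, fun p q r p' q' r' a b c h d1 d2 d3 => ?_⟩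
  have x : ∀ {u v : ℍ}, η ≤ dist u v → 0 < xs u v := fun h => sinh_pos_iff.2 (by linarith only [hη, h])
  obtain ⟨t1, t2, t3⟩ := (hH_nonneg_iff (x c) (xs_comm q r ▸ x b) (x a)).1 h
  rw [xs_comm r q] at t1 t2 t3
  have g1 := hδ _ _ _ (by linarith only [b]) (by linarith only [a]) t1
  have g2 := hδ _ _ _ (by linarith only [c]) (by linarith only [a]) t2
  have g3 := hδ _ _ _ (by linarith only [c]) (by linarith only [b]) t3
  have k : ∀ u v u' v' : ℍ, |dist u v - dist u' v'| ≤ dist u u' + dist v v' := fun u v u' v' =>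
    dist_dist_dist_le u v u' v'
  have k1 := abs_le.1 (k p q p' q')
  have k2 := abs_le.1 (k q r q' r')
  have k3 := abs_le.1 (k p r p' r')
  exact hD_ne (by linarith only [k1.1, k2.2, k3.2, h0, d1, d2, d3, g3]) (by linarith only [k1.2, k2.1, k3.2, h0, d1, d2, d3, g2])
    (by linarith only [k1.2, k2.2, k3.1, h0, d1, d2, d3, g1])

theorem preconn_closedBall (z : ℍ) (c : ℝ) : IsPreconnected (closedBall z c) := by
  rw [← isOpenEmbedding_coe.isInducing.isPreconnected_image, image_coe_closedBall]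
  exact (convex_closedBall _ _).isPreconnected

theorem cont_hD (a b : G) : Continuous fun w : ℍ => hD w (a • w) (b • w) := by
  have ha : Continuous fun w : ℍ => a • w := continuous_const_smul a
  have hb : Continuous fun w : ℍ => b • w := continuous_const_smul b
  have r := UpperHalfPlane.continuous_re
  have i := UpperHalfPlane.continuous_im
  simp only [hD, hdet, det3, Φ]
  refine Continuous.div (by fun_prop) (by fun_prop) fun w => ?_
  exact (mul_pos (mul_pos w.im_pos (a • w).im_pos) (b • w).im_pos).ne'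

variable {E : Type} {n : Nx E} {L : E → G} {z : ℍ}

theorem dist_QR (n : Nx E) (L : E → G) (z : ℍ) (d : Dr E) :
    dist (vQ L z d) (vR n L z d) = dist z (vQ L z (n d)) := by
  rw [vQ, vR, vQ, mul_smul, dist_smul]

theorem dist_R (h : Flat n L) (z : ℍ) (d : Dr E) :
    dist z (vR n L z d) = dist z (vQ L z (n (n d))) := by
  have e := (h d).smul_eq z
  rw [fp, mul_smul, one_smul] at e
  rw [vR, vQ, ← dist_smul (dlab L d * dlab L (n d)) z (dlab L (n (n d)) • z), e, dist_comm]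

/-- Uniform steps. -/
theorem step {η : ℝ} (hη : 0 < η) : ∃ c > 0, ∀ {E : Type} {n : Nx E} {L : E → G} {z : ℍ},
    Flat n L → Pos n L z → (∀ d, 0 ≤ hH z (vQ L z d) (vR n L z d)) →
    (∀ d, η ≤ dist z (vQ L z d)) → ∀ w ∈ closedBall z c, Pos n L w := by
  obtain ⟨c, c0, hc⟩ := step3 hη
  refine ⟨c, c0, fun {E n L z} hf hp hh he w hw d => ?_⟩
  have nz : ∀ y ∈ closedBall z c, fD n L y d ≠ 0 := fun y hy => by
    have e := mem_closedBall'.1 hy
    exact hc _ _ _ _ _ _ (he d) (dist_QR n L z d ▸ he _) (dist_R hf z d ▸ he _) (hh d) e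
      (by rwa [vQ, vQ, dist_smul]) (by rwa [vR, vR, dist_smul])
  by_contra hn
  obtain ⟨y, hy, e⟩ := (preconn_closedBall z c).intermediate_value hw (mem_closedBall_self c0.le)
    (cont_hD (dlab L d) (dlab L d * dlab L (n d))).continuousOn ⟨not_lt.1 hn, (hp d).le⟩
  exact nz y hy e

/-- Uniform steps along a leaf. -/
theorem step_lf {η : ℝ} (hη : 0 < η) : ∃ c > 0, ∀ {g : ℕ} {M : Tup g} {z : ℍ} {τ : MS g},
    MT τ → Flat τ.1 (geo M τ.2) → Ps M z τ →
    (∀ d, 0 ≤ hH z (vQ (geo M τ.2) z d) (vR τ.1 (geo M τ.2) z d)) →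
    (∀ d, η ≤ dist z (vQ (geo M τ.2) z d)) →
    ∀ w ∈ closedBall z c, Ps M w τ ∧ Lf M (z, τ) (w, τ) := by
  obtain ⟨c, c0, hc⟩ := step hη
  refine ⟨c, c0, fun {g M z τ} ht hf hp hh he w hw => ⟨hc hf hp hh he w hw, ?_⟩⟩
  exact Relation.EqvGen.rel _ _ (Lm.go (closedBall z c) ht (preconn_closedBall z c)
    (mem_closedBall_self c0.le) hw (hc hf hp hh he))

end Pool.Agent.MP_596265_gt.U.Stp

end

section

/-! Delaunay states with frozen edges. -/

namespace Pool.Agent.MP_596265_gt.U.Stp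

open Erg Real UpperHalfPlane Set DF

variable {E : Type} {n : Nx E} {L : E → G} {z : ℍ}

/-- Half of the horocyclic length of a dart. -/
noncomputable def xd (L : E → G) (z : ℍ) (d : Dr E) : ℝ := xs z (vQ L z d)

theorem xd_nonneg (L : E → G) (z : ℍ) (d : Dr E) : 0 ≤ xd L z d := xs_nonneg _ _

theorem xd_rev (L : E → G) (z : ℍ) (d : Dr E) : xd L z (rev d) = xd L z d := by
  rw [xd, xd, xs, xs, vQ, vQ, dlab_rev, ← dist_smul (dlab L d), smul_inv_smul, dist_comm]

theorem xs_QR (n : Nx E) (L : E → G) (z : ℍ) (d : Dr E) :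
    xs (vQ L z d) (vR n L z d) = xd L z (n d) := by rw [xs, dist_QR, xd, xs]

theorem xs_R (h : Flat n L) (z : ℍ) (d : Dr E) : xs z (vR n L z d) = xd L z (n (n d)) := by
  rw [xs, dist_R h, xd, xs]

theorem hH_xd (h : Flat n L) (z : ℍ) (d : Dr E) : hH z (vQ L z d) (vR n L z d) =
    (xd L z d + xd L z (n d) + xd L z (n (n d))) * (xd L z (n d) + xd L z (n (n d)) - xd L z d) *
      (xd L z d + xd L z (n (n d)) - xd L z (n d)) * (xd L z d + xd L z (n d) - xd L z (n (n d))) := by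
  rw [hH_xs, xs_comm (vR n L z d), xs_QR, xs_R h, ← xd]
  ring

/-- The face of `d` is too flat, with long side `d`. -/
def Bad (n : Nx E) (L : E → G) (z : ℍ) (d : Dr E) : Prop :=
  xd L z (n d) + xd L z (n (n d)) < xd L z d

theorem iv_hH : Iv hH := ⟨fun k p q r => by simp only [hH, kS, ch, dist_smul],
  fun p q r => hH_cyc p q r⟩

theorem bad_of_neg (hc : ∀ d, n (n (n d)) = d) (h : Flat n L) {d : Dr E}
    (hd : hH z (vQ L z d) (vR n L z d) < 0) :
    Bad n L z d ∨ Bad n L z (n d) ∨ Bad n L z (n (n d)) := by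
  by_contra hn
  simp only [Bad, hc, not_or, not_lt] at hn
  have := xd_nonneg L z
  rw [hH_xd h] at hd
  exact hd.not_ge (mul_nonneg (mul_nonneg (mul_nonneg (by linarith [this d, this (n d), this (n (n d))])
    (by linarith [hn.1])) (by linarith [hn.2.1])) (by linarith [hn.2.2]))

theorem Bad.neg (h : Flat n L) {d : Dr E} (hd : Bad n L z d) :
    hH z (vQ L z d) (vR n L z d) < 0 := by
  have a := xd_nonneg L z (n d)
  have b := xd_nonneg L z (n (n d))
  rw [Bad] at hd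
  rw [hH_xd h]
  exact mul_neg_of_neg_of_pos (mul_neg_of_neg_of_pos (mul_neg_of_pos_of_neg (by linarith)
    (by linarith)) (by linarith)) (by linarith)

theorem kS_xd (h : Flat n L) (z : ℍ) (d : Dr E) : kS (vQ L z d) (vR n L z d) z =
    2 * (xd L z d ^ 2 - xd L z (n d) ^ 2 - xd L z (n (n d)) ^ 2) := by
  simp only [kS, ch_xs]
  rw [xs_comm (vQ L z d) z, xs_QR, xs_R h, ← xd]
  ring

theorem kS_xd' (h : Flat n L) (z : ℍ) (d : Dr E) : kS z (vS n L z d) (vQ L z d) =
    2 * (xd L z d ^ 2 - xd L z (n (rev d)) ^ 2 - xd L z (n (n (rev d))) ^ 2) := by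
  have e := xs_R h z (rev d)
  rw [xs, ← dist_smul (dlab L d), vR, ← mul_smul _ _ z, dlab_rev, mul_inv_cancel_left] at e
  simp only [kS, ch_xs]
  rw [← e]
  simp only [xd, xs, vQ, vS]
  ring

/-- An edge whose flip lowers the sum of determinants is opposite to an obtuse corner. -/
theorem long_of_dV_neg (h : Gs n L z) {d : Dr E} (hv : dV n L z d < 0) :
    xd L z (n d) ^ 2 + xd L z (n (n d)) ^ 2 < xd L z d ^ 2 ∨
      xd L z (n (rev d)) ^ 2 + xd L z (n (n (rev d))) ^ 2 < xd L z d ^ 2 := by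
  have k1 := kS_xd h.flat z d
  have k2 := kS_xd' h.flat z d
  have c1 := cramer z (vQ L z d) (vR n L z d) (vS n L z d) z
  have c2 := cramer z (vQ L z d) (vR n L z d) (vS n L z d) (vQ L z d)
  have p1 : 0 < hD z (vQ L z d) (vR n L z d) := h.pos d
  have p2 := pos_rev h.pos d
  have l := one_le_ch z (vQ L z d)
  simp only [kS, ch_self, ch_comm (vQ L z d) z, ch_comm (vR n L z d) z, ch_comm (vS n L z d) z,
    ch_comm (vR n L z d) (vQ L z d), ch_comm (vS n L z d) (vQ L z d)] at k1 k2 c1 c2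
  rw [dV] at hv
  by_contra hn
  rw [not_or, not_lt, not_lt] at hn
  have a := mul_pos (neg_pos.2 hv) (show 0 < 1 + ch z (vQ L z d) by linarith only [l])
  have b1 := mul_nonneg p2.le (sub_nonneg.2 hn.1)
  have b2 := mul_nonneg p1.le (sub_nonneg.2 hn.2)
  have e1 := congrArg (hD (vQ L z d) z (vS n L z d) * ·) k1
  have e2 := congrArg (hD z (vQ L z d) (vR n L z d) * ·) k2
  linarith only [c1, c2, a, b1, b2, e1, e2]

/-- Crossing the long side of a bad face through a Delaunay edge leads to a longer bad side. -/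
theorem Bad.next (h : Gs n L z) {d : Dr E} (hd : Bad n L z d) (hv : 0 ≤ dV n L z d) :
    ∃ e, Bad n L z e ∧ xd L z d < xd L z e := by
  have x0 := xd_nonneg L z
  have k1 := kS_xd h.flat z d
  have k2 := kS_xd' h.flat z d
  have p1 : 0 < 1 * hD (vQ L z d) (vR n L z d) z := by
    rw [one_mul, hD_cyc]
    exact h.pos d
  have p2 : 0 < 1 * hD z (vS n L z d) (vQ L z d) := by
    rw [one_mul, hD_cyc]
    exact pos_rev h.pos d
  have b := hd
  rw [Bad] at b
  obtain ⟨c1, c2⟩ := delaunay (Or.inl rfl) p1 p2 (fun _ _ => by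
      rw [dV] at hv
      simp only [one_mul]
      rw [hD_cyc z (vQ L z d), hD_cyc (vQ L z d) z, hD_cyc (vS n L z d) (vR n L z d),
        hD_cyc (vR n L z d) (vS n L z d)]
      linarith only [hv])
    (by rw [hH_cyc]; exact hd.neg h.flat)
    (by rw [k1]; nlinarith only [x0 (n d), x0 (n (n d)), b])
  rw [hH_cyc, ← face_rev iv_hH n L z d] at c1
  rw [k2] at c2
  have y1 := x0 (n (rev d))
  have y2 := x0 (n (n (rev d)))
  rcases bad_of_neg h.trg.cube h.flat c1 with e | e | e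
  · rw [Bad, xd_rev] at e
    nlinarith only [c2, y1, y2, e]
  · refine ⟨_, e, ?_⟩
    rw [Bad, h.trg.cube, xd_rev] at e
    linarith
  · refine ⟨_, e, ?_⟩
    rw [Bad, h.trg.cube, xd_rev] at e
    linarith

/-- If the long sides of bad faces are Delaunay then there is no bad face. -/
theorem hHS [Finite E] (h : Gs n L z) (hd : ∀ d, Bad n L z d → 0 ≤ dV n L z d) :
    (∀ d, ¬ Bad n L z d) ∧ ∀ d, 0 ≤ hH z (vQ L z d) (vR n L z d) := by
  have k : ∀ d, ¬ Bad n L z d := fun d b => by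
    obtain ⟨e, he, hm⟩ := Set.exists_max_image {d | Bad n L z d} (xd L z) (toFinite _) ⟨d, b⟩
    obtain ⟨e', h1, h2⟩ := Bad.next h he (hd e he)
    exact (hm e' h1).not_gt h2
  exact ⟨k, fun d => not_lt.1 fun hn =>
    (bad_of_neg h.trg.cube h.flat hn).elim (k _) fun h => h.elim (k _) (k _)⟩

theorem abs_le_abs_of_sq {a b c : ℝ} (_ : 0 ≤ a) (hc : 0 ≤ c) (h : a ^ 2 + b ^ 2 < c ^ 2) : a ≤ c :=
  abs_le_of_sq_le_sq' (by linarith only [sq_nonneg b, h]) hc |>.2

variable {g : ℕ}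

/-- Normal form with frozen darts, with an invariant carried along the flips. -/
theorem nfS (hT : TAx g) (hA : DAx g) {M : Tup g} (hM : Fm M) (S : MS g → Dr (Ed g) → Prop)
    (P : MS g → Prop) (hP : ∀ τ d, MT τ → Ps M z τ → ¬ S τ d → dV τ.1 (geo M τ.2) z d < 0 →
      Ps M z (flip τ d) → P τ → P (flip τ d)) {τ : MS g} (h1 : MT τ) (h2 : Ps M z τ) (h3 : P τ) :
    ∃ τ', Eqv M z τ τ' ∧ MT τ' ∧ Ps M z τ' ∧ P τ' ∧
      ∀ d, ¬ S τ' d → 0 ≤ dV τ'.1 (geo M τ'.2) z d := by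
  classical
  obtain ⟨R, hR⟩ := (Set.finite_range fun d => ch z (vQ (geo M τ.2) z d)).bddAbove
  have r0 : Rad R τ.1 (geo M τ.2) z :=
    rad_init (gs_of hT hM h1 h2).flat fun d => hR ⟨d, rfl⟩
  obtain ⟨F, hF⟩ := hA.fin (τ := τ) (C := {(M, z)}) (2 * R) h1 isCompact_singleton (by
    rintro _ rfl
    exact ⟨hM, h2⟩)
  let A : Set (MS g) := {σ | Eqv M z τ σ ∧ MT σ ∧ Ps M z σ ∧ P σ ∧ Rad R σ.1 (geo M σ.2) z}
  let v : MS g → ℝ := fun σ => val σ.1 (geo M σ.2) z
  let w : Nx (Ed g) × (Dr (Ed g) → F) → ℝ := fun p => ∑ d, hD z (FreeGroup.lift M (p.2 d).1 • z)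
    (FreeGroup.lift M (p.2 d).1 • FreeGroup.lift M (p.2 (p.1 d)).1 • z)
  have fin : (v '' A).Finite := by
    refine (Set.finite_range w).subset ?_
    rintro _ ⟨σ, ⟨a, -, -, -, b⟩, rfl⟩
    have : ∀ d, ∃ s : F, EqN (dlab σ.2 d) s.1 := fun d => by
      have c := b.edge d
      have c' := add_one_le_exp (dist z (vQ (geo M σ.2) z d))
      obtain ⟨s, hs, e⟩ := hF _ rfl σ a d (by
        have := cosh_add_sinh (dist z (vQ (geo M σ.2) z d))
        have := self_le_sinh_iff.2 (dist_nonneg (x := z) (y := vQ (geo M σ.2) z d))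
        have := sinh_lt_cosh (dist z (vQ (geo M σ.2) z d))
        rw [ch] at c
        change dist z (vQ (geo M σ.2) z d) ≤ _
        linarith)
      exact ⟨⟨s, hs⟩, e⟩
    choose s hs using this
    refine ⟨(σ.1, s), Finset.sum_congr rfl fun d _ => ?_⟩
    simp only [fD, vQ, vR, mul_smul, dlab_geo, ← smul_of_eqN hM (hs _)]
  obtain ⟨σ, ⟨a1, a2, a3, a4, a5⟩, hm⟩ := Set.Finite.exists_minimalFor' v A fin
    ⟨τ, Relation.EqvGen.refl _, h1, h2, h3, r0⟩
  refine ⟨σ, a1, a2, a3, a4, fun d hd => not_lt.1 fun hv => ?_⟩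
  have gs := gs_of hT hM a2 a3
  have p := pos_flip_of_dV_neg gs hv
  have p' := ps_flip_iff.2 p
  have e := val_flip gs d
  have r := Rad.flip gs p hv.le a5
  rw [← geo_flb] at e r
  have := hm (j := flip σ d) ⟨a1.trans _ _ _ (Relation.EqvGen.rel _ _ (Mv.flip d a2 a3 p')),
    hT.flip a2 (fl_of_pos gs d), p', hP σ d a2 a3 hd hv p' a4, r⟩
    (by change val (fnx σ.1 d) (geo M (flb σ.1 σ.2 d)) z ≤ val σ.1 (geo M σ.2) z; linarith)
  change val σ.1 (geo M σ.2) z ≤ val (fnx σ.1 d) (geo M (flb σ.1 σ.2 d)) z at this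
  linarith

end Pool.Agent.MP_596265_gt.U.Stp

end

section

/-! The shortest edge of a branched structure is log-Lipschitz along the leaf. -/

namespace Pool.Agent.MP_596265_gt.U.Lip

open Erg Real UpperHalfPlane Set Filter Topology DF Stp

theorem xs_sq (A : G) : 4 * xs I (A • I) ^ 2 = (A 0 0 - A 1 1) ^ 2 + (A 0 1 + A 1 0) ^ 2 := by
  have h1 := ch_xs I (A • I)
  have h2 := cosh_len A
  have h3 := basic_det A
  rw [ch] at h1
  rw [len] at h2
  linear_combination -2 * h1 + 2 * h2 + 2 * h3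

theorem xs_conj (k A : G) : xs (k • I) (A • k • I) = xs I ((k⁻¹ * A * k) • I) := by
  rw [xs, xs, ← dist_smul k⁻¹, inv_smul_smul, mul_smul, mul_smul]

theorem xs_dia {A : G} (hA : 2 ≤ |tr A|) {t : ℝ} (ht : 0 ≤ t) :
    xs (dia t • I) (A • dia t • I) ≤ exp t * xs I (A • I) := by
  rw [xs_conj]
  refine abs_le_of_sq_le_sq' ?_ (mul_nonneg (exp_pos t).le (xs_nonneg _ _)) |>.2
  have h1 := xs_sq ((dia t)⁻¹ * A * dia t)
  have h2 := xs_sq A
  have h3 := basic_det A
  rw [← dia_neg] at h1 ⊢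
  simp only [basic_mul, basic_dia00, basic_dia01, basic_dia10, basic_dia11, neg_div, neg_neg,
    mul_zero, zero_mul, add_zero, zero_add] at h1
  have hu : exp (t / 2) * exp (-(t / 2)) = 1 := by rw [← exp_add]; simp
  have hy : exp t = exp (t / 2) ^ 2 := by rw [← exp_nat_mul]; congr 1; push_cast; ring
  have h1u : 1 ≤ exp (t / 2) := one_le_exp (by linarith only [ht])
  have hv : 0 < exp (-(t / 2)) := exp_pos _
  have ht2 : 4 ≤ (A 0 0 + A 1 1) ^ 2 := by
    have := pow_le_pow_left₀ (by norm_num) hA 2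
    rw [sq_abs, tr] at this
    linarith only [this]
  rw [hy]
  generalize exp (t / 2) = u at *
  generalize exp (-(t / 2)) = v at *
  generalize A 0 0 = a at *
  generalize A 0 1 = b at *
  generalize A 1 0 = c at *
  generalize A 1 1 = d at *
  have hv1 : v ≤ 1 := by nlinarith only [h1u, hu]
  have k1 : 0 ≤ u ^ 4 - 1 := sub_nonneg.2 (one_le_pow₀ h1u)
  have k2 : 0 ≤ u ^ 4 - v ^ 4 := by
    have := pow_le_one₀ hv.le hv1 (n := 4)
    linarith
  have k3 : 0 ≤ (a - d) ^ 2 + 2 * (b * c) := by linarith only [sq_nonneg (a - d), ht2, h3]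
  have e1 : v * a * u - u * d * v = a - d := by linear_combination (a - d) * hu
  have e2 : (v * b * v + u * c * u) ^ 2 = v ^ 4 * b ^ 2 + 2 * (b * c) + u ^ 4 * c ^ 2 := by
    linear_combination 2 * b * c * (u * v + 1) * hu
  rw [e1, e2] at h1
  nlinarith only [mul_nonneg k1 k3, mul_nonneg k2 (sq_nonneg b), h2, h1, k1]

/-- The displacement of an element that is not elliptic is log-Lipschitz. -/
theorem xs_lip {A : G} (hA : 2 ≤ |tr A|) (z w : ℍ) :
    xs w (A • w) ≤ exp (dist z w) * xs z (A • z) := by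
  obtain ⟨k, rfl⟩ := exists_smul_I z
  obtain ⟨h, hh⟩ := exists_smul_I (k⁻¹ • w)
  obtain ⟨θ, ψ, e⟩ := kak h
  have hw : w = (k * rot θ) • dia (len h) • I := by
    rw [← smul_inv_smul k w, ← hh]
    conv_lhs => rw [e]
    simp only [mul_smul, rot_smul_I]
  have hz : k • I = (k * rot θ) • I := by rw [mul_smul, rot_smul_I]
  have hd : dist (k • I) w = len h := by rw [len, hh, ← dist_smul k⁻¹, inv_smul_smul]
  have := xs_dia (A := (k * rot θ)⁻¹ * A * (k * rot θ)) (by
    have := tr_conj A (k * rot θ)⁻¹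
    rw [inv_inv] at this
    rwa [this]) (len_nonneg h)
  rw [hd, hz, xs_conj (k * rot θ) A]
  refine le_trans (le_of_eq ?_) this
  conv_lhs => rw [hw]
  rw [xs, xs, ← dist_smul (k * rot θ)⁻¹, inv_smul_smul, mul_smul _ (k * rot θ), mul_smul _ A]

variable {g : ℕ} {M : Tup g} {z w : ℍ} {τ τ' : MS g}

theorem tr_simp (hM : Fm M) (hK : M ∈ Kset g 0) {c : Fr g} (hc : Simp c) :
    2 ≤ |tr (FreeGroup.lift M c)| :=
  hc.tr_le hM fun ψ hψ => ⟨fun k => by simpa [ha, act] using (hK ψ hψ).1 k, fun h a b => by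
    simpa [pre_eq, lift_act] using (hK ψ hψ).2 h a b⟩

theorem tr_edge (hT : TAx g) (hM : Fm M) (hK : M ∈ Kset g 0) (ht : MT τ) (d : Dr (Ed g)) :
    2 ≤ |tr (dlab (geo M τ.2) d)| := by
  rw [DF.dlab_geo]
  exact tr_simp hM hK (hT.simp ht d)

theorem xd_lip (hT : TAx g) (hM : Fm M) (hK : M ∈ Kset g 0) (ht : MT τ) (z w : ℍ)
    (d : Dr (Ed g)) : xd (geo M τ.2) w d ≤ exp (dist z w) * xd (geo M τ.2) z d :=
  xs_lip (tr_edge hT hM hK ht d) z w

theorem xd_pos (hp : Ps M z τ) (d : Dr (Ed g)) : 0 < xd (geo M τ.2) z d := by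
  refine (xd_nonneg _ _ _).lt_of_ne fun h => ?_
  have h0 : dist z (vQ (geo M τ.2) z d) = 0 := by
    have := sinh_eq_zero.1 h.symm
    linarith
  have := hp d
  rw [fD, ← dist_eq_zero.1 h0, hD_cyc, hD_cyc, hD_self] at this
  exact lt_irrefl _ this

/-- Two states that stay positive on a connected set stay equivalent. -/
theorem persist (hA : DAx g) (hM : Fm M) (ht : MT τ) (ht' : MT τ') {C : Set ℍ}
    (hC : IsPreconnected C) (hp : ∀ v ∈ C, Ps M v τ ∧ Ps M v τ') (hz : z ∈ C) (hw : w ∈ C)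
    (h : Eqv M z τ τ') : Eqv M w τ τ' := by
  have := isPreconnected_iff_preconnectedSpace.1 hC
  have lc : IsLocallyConstant fun v : C => Eqv M v.1 τ τ' := by
    refine (IsLocallyConstant.iff_eventually_eq _).2 fun v => ?_
    have c : Continuous fun u : C => (M, u.1) := by fun_prop
    exact ((c.tendsto v).eventually (hA.loc hM ht ht' (hp _ v.2).1 (hp _ v.2).2)).mono
      fun u hu => propext (hu hM)
  exact lc.apply_eq_of_preconnectedSpace ⟨z, hz⟩ ⟨w, hw⟩ ▸ h

/-- Every edge of every state equivalent to `τ` has `xd` at least `x`. -/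
def Low (M : Tup g) (z : ℍ) (τ : MS g) (x : ℝ) : Prop :=
  ∀ τ', Eqv M z τ τ' → ∀ d, x ≤ xd (geo M τ'.2) z d

theorem Low.eqv {x : ℝ} (h : Low M z τ x) (e : Eqv M z τ τ') : Low M z τ' x :=
  fun σ hσ => h σ (e.trans _ _ _ hσ)

theorem xd_sys (hT : TAx g) (hA : DAx g) (hM : Fm M) (ht : MT τ) (hp : Ps M z τ)
    (e : Eqv M z τ τ') (hd : Dl M z τ') {σ : MS g} (hσ : Eqv M z τ σ) (d : Dr (Ed g)) :
    ∃ d', xd (geo M τ'.2) z d' ≤ xd (geo M σ.2) z d := by
  obtain ⟨a, b⟩ := (eqv_ok hT hM hσ).1 ⟨ht, hp⟩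
  obtain ⟨d', h⟩ := hA.sys hM a b ((hσ.symm _ _).trans _ _ _ e) hd d
  exact ⟨d', sinh_le_sinh.2 (by linarith)⟩

/-- A Delaunay state realises the shortest edge of its class. -/
theorem low_of_dl (hT : TAx g) (hA : DAx g) (hM : Fm M) (ht : MT τ) (hp : Ps M z τ)
    (hd : Dl M z τ) {x : ℝ} (h : ∀ d, x ≤ xd (geo M τ.2) z d) : Low M z τ x := fun _ hσ d =>
  let ⟨d', e⟩ := xd_sys hT hA hM ht hp (Relation.EqvGen.refl _) hd hσ d
  (h d').trans e

/-- Uniform lower bound on a compact set. -/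
theorem low_cpt (hT : TAx g) (hA : DAx g) (hM : Fm M) (hK : M ∈ Kset g 0) (ht : MT τ) {C : Set ℍ}
    (hC : IsCompact C) (hp : ∀ v ∈ C, Ps M v τ) : ∃ x > 0, ∀ v ∈ C, Low M v τ x := by
  obtain ⟨S, hS⟩ := hA.fin (τ := τ) (C := (fun v => (M, v)) '' C) 1 ht (hC.image (by fun_prop)) (by
    rintro _ ⟨v, hv, rfl⟩
    exact ⟨hM, hp v hv⟩)
  obtain ⟨D, hD⟩ := Metric.isBounded_iff.1 hC.isBounded
  have k : ∀ s ∈ S, ∀ᶠ x in 𝓝[>] (0 : ℝ), ∀ v ∈ C, 2 ≤ |tr (FreeGroup.lift M s)| →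
      0 < xs v (FreeGroup.lift M s • v) → x ≤ xs v (FreeGroup.lift M s • v) := fun s _ => by
    by_cases h : ∃ u ∈ C, 0 < xs u (FreeGroup.lift M s • u)
    · obtain ⟨u, hu, h⟩ := h
      refine ((eventually_le_nhds (show 0 < exp (-D) * xs u (FreeGroup.lift M s • u) by
        positivity)).filter_mono nhdsWithin_le_nhds).mono fun x hx v hv a b => hx.trans ?_
      have := xs_lip a v u
      have e : exp (-D) * exp (dist v u) ≤ 1 := by
        rw [← exp_add]
        exact exp_le_one_iff.2 (by linarith [hD hv hu])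
      calc _ ≤ exp (-D) * (exp (dist v u) * xs v (FreeGroup.lift M s • v)) := by gcongr
        _ ≤ _ := by rw [← mul_assoc]; exact mul_le_of_le_one_left b.le e
    · exact Eventually.of_forall fun x v hv _ b => absurd ⟨v, hv, b⟩ h
  obtain ⟨x, ⟨h1, h2⟩, h3⟩ := ((((eventually_all_finset S).2 k).and
    ((eventually_le_nhds (show 0 < sinh (1 / 2) from sinh_pos_iff.2 (by norm_num))).filter_mono
      nhdsWithin_le_nhds)).and self_mem_nhdsWithin).exists
  refine ⟨x, h3, fun v hv σ hσ d => ?_⟩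
  by_cases hl : dist v (vQ (geo M σ.2) v d) ≤ 1
  · obtain ⟨s, hs, e⟩ := hS (M, v) ⟨v, hv, rfl⟩ σ hσ d hl
    obtain ⟨a, b⟩ := (eqv_ok hT hM hσ).1 ⟨ht, hp v hv⟩
    have q : xd (geo M σ.2) v d = xs v (FreeGroup.lift M s • v) := by
      rw [xd, vQ, DF.dlab_geo, smul_of_eqN hM e]
    rw [q]
    refine h1 s hs v hv ?_ (q ▸ xd_pos b d)
    rw [← (Cg.pm hM e).abs_tr]
    exact tr_simp hM hK (hT.simp a d)
  · exact h2.trans (sinh_le_sinh.2 (by linarith only [hl]))

/-- The shortest edge of the class along a path on which `τ` stays positive. -/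
theorem low_path (hT : TAx g) (hA : DAx g) (hM : Fm M) (hK : M ∈ Kset g 0) (ht : MT τ)
    {γ : ℝ → ℍ} (hγ : ∀ s t, dist (γ s) (γ t) ≤ |s - t|) {a b x : ℝ} (hab : a ≤ b)
    (hp : ∀ t ∈ Icc a b, Ps M (γ t) τ) (h : Low M (γ a) τ x) :
    Low M (γ b) τ (x * exp (-(b - a))) := by
  have cγ : Continuous γ := (LipschitzWith.of_dist_le_mul (K := 1) fun s t => by
    simpa [Real.dist_eq] using hγ s t).continuous
  obtain ⟨y, y0, hy⟩ := low_cpt hT hA hM hK ht (isCompact_Icc.image cγ) (by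
    rintro _ ⟨t, h, rfl⟩
    exact hp t h)
  obtain ⟨c, c0, hc⟩ := step_lf (η := 2 * arsinh y) (by simpa using y0)
  have one : ∀ s t x, a ≤ s → s ≤ t → t ≤ b → t - s ≤ c → Low M (γ s) τ x →
      Low M (γ t) τ (x * exp (-(t - s))) := fun s t x h1 h2 h3 h4 h σ hσ d => by
    have pt := hp t ⟨h1.trans h2, h3⟩
    obtain ⟨ρ, e, hd⟩ := hA.nf hM ht pt
    obtain ⟨m, p⟩ := (eqv_ok hT hM e).1 ⟨ht, pt⟩
    have gs := gs_of hT hM m p
    obtain ⟨d', hd'⟩ := xd_sys hT hA hM ht pt e hd hσ d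
    have st := hc m gs.flat p (hA.hH gs hd) fun d => by
      have := arsinh_le_arsinh.2 (hy _ ⟨t, ⟨h1.trans h2, h3⟩, rfl⟩ ρ e d)
      rw [xd, xs, arsinh_sinh] at this
      linarith
    have e' : Eqv M (γ s) τ ρ := persist hA hM ht m (isPreconnected_Icc.image γ cγ.continuousOn)
      (by
        rintro _ ⟨u, hu, rfl⟩
        refine ⟨hp u ⟨h1.trans hu.1, hu.2.trans h3⟩, (st _ ?_).1⟩
        refine (hγ u t).trans ?_
        rw [abs_sub_comm, abs_of_nonneg (sub_nonneg.2 hu.2)]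
        linarith [hu.1]) ⟨t, ⟨h2, le_rfl⟩, rfl⟩ ⟨s, ⟨le_rfl, h2⟩, rfl⟩ e
    have l := (h ρ e' d').trans (xd_lip hT hM hK m (γ t) (γ s) d')
    have dd : exp (dist (γ t) (γ s)) ≤ exp (t - s) :=
      exp_le_exp.2 ((hγ t s).trans (abs_of_nonneg (sub_nonneg.2 h2)).le)
    have l2 : x ≤ exp (t - s) * xd (geo M σ.2) (γ t) d :=
      l.trans (mul_le_mul dd hd' (xd_nonneg _ _ _) (exp_pos _).le)
    rw [exp_neg, ← div_eq_mul_inv, div_le_iff₀' (exp_pos _)]
    exact l2
  have all : ∀ n : ℕ, ∀ t, a ≤ t → t ≤ b → t - a ≤ n * c → Low M (γ t) τ (x * exp (-(t - a))) := by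
    intro n
    induction n with
    | zero =>
      intro t h1 _ h3
      obtain rfl : t = a := by simp at h3; linarith
      simpa using h
    | succ n ih =>
      intro t h1 h2 h3
      have n0 : 0 ≤ (n : ℝ) * c := by positivity
      push_cast at h3
      have := one (max a (t - c)) t _ (le_max_left _ _) (max_le h1 (by linarith)) h2
        (by linarith [le_max_right a (t - c)])
        (ih _ (le_max_left _ _) (max_le hab (by linarith))
          (by rw [sub_le_iff_le_add]; exact max_le (by linarith) (by linarith)))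
      rwa [mul_assoc, ← exp_add, show -(max a (t - c) - a) + -(t - max a (t - c)) = -(t - a) by
        ring] at this
  obtain ⟨n, hn⟩ := exists_nat_ge ((b - a) / c)
  exact all n b hab le_rfl ((div_le_iff₀ c0).1 hn)

theorem lf_of_eqv (h : Eqv M z τ τ') : Lf M (z, τ) (z, τ') := by
  induction h with
  | rel _ _ h => exact .rel _ _ (.mv h)
  | refl => exact .refl _
  | symm _ _ _ ih => exact ih.symm _ _
  | trans _ _ _ _ _ a b => exact a.trans _ _ _ b

/-- A state reached along the path, Delaunay off the frozen darts. -/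
structure Rch (M : Tup g) (S : MS g → Dr (Ed g) → Prop) (p : ℍ × MS g) (w : ℍ) (y : ℝ)
    (σ : MS g) : Prop where
  lf : Lf M p (w, σ)
  mt : MT σ
  ps : Ps M w σ
  low : Low M w σ y
  del : ∀ d, ¬ S σ d → 0 ≤ dV σ.1 (geo M σ.2) w d

theorem Rch.hH (hT : TAx g) (hM : Fm M) {S : MS g → Dr (Ed g) → Prop} {p : ℍ × MS g} {y : ℝ}
    (h : Rch M S p w y τ) (hb : ∀ d, S τ d → ¬ Bad τ.1 (geo M τ.2) w d) :
    (∀ d, ¬ Bad τ.1 (geo M τ.2) w d) ∧
      ∀ d, 0 ≤ hH w (vQ (geo M τ.2) w d) (vR τ.1 (geo M τ.2) w d) :=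
  hHS (gs_of hT hM h.mt h.ps) fun d b => h.del d fun s => hb d s b

/-- Motion along a path with frozen darts `S` and an invariant `P`. -/
theorem move (hT : TAx g) (hA : DAx g) (hM : Fm M) (hK : M ∈ Kset g 0) {γ : ℝ → ℍ}
    (hγ : ∀ s t, dist (γ s) (γ t) ≤ |s - t|) {a b x : ℝ} (hx : 0 < x)
    (S : MS g → Dr (Ed g) → Prop) (P : ℝ → MS g → Prop) (ht : MT τ) (hp : Ps M (γ a) τ)
    (hl : Low M (γ a) τ x) (h0 : P a τ)
    (hf : ∀ t ∈ Icc a b, ∀ σ d, MT σ → Ps M (γ t) σ → ¬ S σ d → dV σ.1 (geo M σ.2) (γ t) d < 0 →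
      Ps M (γ t) (flip σ d) → P t σ → P t (flip σ d))
    (hm : ∀ s t σ, a ≤ s → s ≤ t → t ≤ b → Rch M S (γ a, τ) (γ s) (x * exp (-(s - a))) σ →
      (∀ u ∈ Icc s t, Ps M (γ u) σ) → P s σ → P t σ)
    (hb : ∀ t ∈ Icc a b, ∀ σ, Rch M S (γ a, τ) (γ t) (x * exp (-(t - a))) σ → P t σ →
      ∀ d, S σ d → ¬ Bad σ.1 (geo M σ.2) (γ t) d) :
    ∀ t ∈ Icc a b, ∃ σ, Rch M S (γ a, τ) (γ t) (x * exp (-(t - a))) σ ∧ P t σ := by
  have cγ : Continuous γ := (LipschitzWith.of_dist_le_mul (K := 1) fun s t => by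
    simpa [Real.dist_eq] using hγ s t).continuous
  obtain ⟨c, c0, hc⟩ := step_lf (η := 2 * arsinh (x * exp (-(b - a)))) (by
    have : 0 < x * exp (-(b - a)) := by positivity
    simpa only [neg_sub, Nat.ofNat_pos, mul_pos_iff_of_pos_left, arsinh_pos_iff, gt_iff_lt] using this)
  have nf : ∀ t ∈ Icc a b, ∀ σ y, Lf M (γ a, τ) (γ t, σ) → MT σ → Ps M (γ t) σ →
      Low M (γ t) σ y → P t σ → ∃ ρ, Rch M S (γ a, τ) (γ t) y ρ ∧ P t ρ :=
    fun t h σ y h1 h2 h3 h4 h5 =>
      let ⟨ρ, e1, e2, e3, e4, e5⟩ := nfS hT hA hM S (P t) (hf t h) h2 h3 h5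
      ⟨ρ, ⟨h1.trans _ _ _ (lf_of_eqv e1), e2, e3, h4.eqv e1, e5⟩, e4⟩
  have all : ∀ n : ℕ, ∀ t, a ≤ t → t ≤ b → t - a ≤ n * c →
      ∃ σ, Rch M S (γ a, τ) (γ t) (x * exp (-(t - a))) σ ∧ P t σ := by
    intro n
    induction n with
    | zero =>
      intro t h1 h2 h3
      obtain rfl : t = a := by simp at h3; linarith
      exact nf t ⟨h1, h2⟩ τ _ (.refl _) ht hp (by simpa using hl) h0
    | succ n ih =>
      intro t h1 h2 h3
      have n0 : 0 ≤ (n : ℝ) * c := by positivity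
      push_cast at h3
      have s1 : a ≤ max a (t - c) := le_max_left _ _
      have s2 : max a (t - c) ≤ t := max_le h1 (by linarith)
      have s3 : t - max a (t - c) ≤ c := by linarith [le_max_right a (t - c)]
      obtain ⟨σ, r, q⟩ := ih _ s1 (s2.trans h2)
        (by rw [sub_le_iff_le_add]; exact max_le (by linarith) (by linarith))
      generalize max a (t - c) = s at *
      have st := hc r.mt (gs_of hT hM r.mt r.ps).flat r.ps
        (r.hH hT hM (hb s ⟨s1, s2.trans h2⟩ σ r q)).2 fun d => by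
          have := arsinh_le_arsinh.2 ((mul_le_mul_of_nonneg_left (exp_le_exp.2
            (show -(b - a) ≤ -(s - a) by linarith)) hx.le).trans (r.low σ (.refl _) d))
          rw [xd, xs, arsinh_sinh] at this
          linarith only [this]
      have ball : ∀ u ∈ Icc s t, γ u ∈ Metric.closedBall (γ s) c := fun u hu =>
        (hγ u s).trans (by rw [abs_of_nonneg (sub_nonneg.2 hu.1)]; linarith [hu.2])
      have pp : ∀ u ∈ Icc s t, Ps M (γ u) σ := fun u hu => (st _ (ball u hu)).1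
      have l := low_path hT hA hM hK r.mt hγ s2 pp r.low
      rw [mul_assoc, ← exp_add, show -(s - a) + -(t - s) = -(t - a) by ring] at l
      exact nf t ⟨h1, h2⟩ σ _ (r.lf.trans _ _ _ (st _ (ball t ⟨s2, le_rfl⟩)).2) r.mt
        (pp t ⟨s2, le_rfl⟩) l (hm s t σ s1 s2 h2 r pp q)
  intro t h
  obtain ⟨n, hn⟩ := exists_nat_ge ((t - a) / c)
  exact all n t h.1 h.2 ((div_le_iff₀ c0).1 hn)

/-- Geodesics of unit speed. -/
theorem dist_dia (k : G) (s t : ℝ) : dist (k • dia s • I) (k • dia t • I) = |s - t| := by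
  rw [dist_smul, dist_smul_I, ← dia_neg, ← dia_add, len_dia, abs_sub_comm]
  congr 1
  ring

end Pool.Agent.MP_596265_gt.U.Lip

end

section

/-! The thin lemma from a lower and an upper bound for the edges along a leaf. -/

namespace Pool.Agent.MP_596265_gt.U

open Erg Real UpperHalfPlane MeasureTheory Set Filter Topology

variable {g : ℕ} {e : ℤ}

/-- All Delaunay states of the leaf have edges of length at least `η`. -/
def Lo (η : ℝ) (M : Tup g) (z : ℍ) (τ : MS g) : Prop :=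
  ∀ z' τ', Lf M (z, τ) (z', τ') → Dl M z' τ' → ∀ d, η ≤ dist z' (vQ (geo M τ'.2) z' d)

/-- All Delaunay states of the leaf have edges of length at most `R`. -/
def Hi (R : ℝ) (M : Tup g) (z : ℍ) (τ : MS g) : Prop :=
  ∀ z' τ', Lf M (z, τ) (z', τ') → Dl M z' τ' → ∀ d, dist z' (vQ (geo M τ'.2) z' d) ≤ R

def T1P (g : ℕ) (e : ℤ) : Prop :=
  ∀ᵐ M ∂mu g e, ¬ HasEll M → ∀ τ : MS g, MT τ → Ps M I τ → ∃ η > 0, Lo η M I τ

def T2P (g : ℕ) (e : ℤ) : Prop :=
  ∀ M ∈ X g e, ∀ η > 0, ∀ (z : ℍ) (τ : MS g), MT τ → Ps M z τ → Lo η M z τ → ∃ R, Hi R M z τ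

theorem thg_eqv {M : Tup g} {z : ℍ} {τ τ' : MS g} (h : Eqv M z τ τ') : Lf M (z, τ) (z, τ') := by
  induction h with
  | rel _ _ h => exact .rel _ _ (.mv h)
  | refl => exact .refl _
  | symm _ _ _ ih => exact .symm _ _ ih
  | trans _ _ _ _ _ a b => exact .trans _ _ _ a b

theorem thg_ok (hT : TAx g) {M : Tup g} (hM : Fm M) {a b : ℍ × MS g} (h : Lf M a b) :
    (MT a.2 ∧ Ps M a.1 a.2) ↔ (MT b.2 ∧ Ps M b.1 b.2) := by
  induction h with
  | rel _ _ h =>
    cases h with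
    | mv h => exact iff_of_true (DF.mv_ok hT hM h).1 (DF.mv_ok hT hM h).2
    | go C h1 _ h2 h3 h4 => exact iff_of_true ⟨h1, h4 _ h2⟩ ⟨h1, h4 _ h3⟩
  | refl => rfl
  | symm _ _ _ ih => exact ih.symm
  | trans _ _ _ _ _ a b => exact a.trans b

theorem thg_fm {M : Tup g} (hM : M ∈ X g e) : Fm M := by
  have h : Rt M g = zt e := hM
  have h2 := congrArg pj h
  rw [Rt, ← pre_map, pj_zt] at h2
  simp only [pj_lf] at h2
  have h3 := rot_add_int 0 e
  rw [zero_add, rot_zero, ← h2, pre_eq] at h3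
  exact h3

theorem thin_of (hg : 3 ≤ g) (he : 1 ≤ e) (hT : TAx g) (hD : DAx g) (h1 : T1P g e)
    (h2 : T2P g e) : ThinP g e := by
  filter_upwards [ae_X e, gn_ae hg e, h1] with M hM hG h1 hc
  obtain ⟨τ, a, b⟩ := hT.ex I hM he (ge_th hg hM hG hc).1
  obtain ⟨η, hη, c⟩ := h1 hc τ a b
  obtain ⟨R, d⟩ := h2 M hM η hη I τ a b c
  refine ⟨η, hη, R, τ, fun ψ hψ => ⟨fun k => ?_, fun h p q => ?_⟩, a, b, fun z' τ' hl => ?_⟩
  · rw [add_zero]
    exact not_lt.1 fun x => hc ⟨ψ, hψ, .inl ⟨k, x⟩⟩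
  · rw [add_zero]
    exact not_lt.1 fun x => hc ⟨ψ, hψ, .inr ⟨h, p, q, x⟩⟩
  · obtain ⟨p, q⟩ := (thg_ok hT (thg_fm hM) hl).1 ⟨a, b⟩
    obtain ⟨σ, r, s⟩ := hD.nf (thg_fm hM) p q
    have := Relation.EqvGen.trans _ _ _ hl (thg_eqv r)
    exact ⟨σ, r, s, fun x => ⟨c _ _ this s x, d _ _ this s x⟩⟩

end Pool.Agent.MP_596265_gt.U

end
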