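import Pool.Agent.MP_596265_gt.W.C0
import Pool.Agent.MP_596265_gt.W.D0
import Pool.Agent.MP_596265_gt.W.A1

section

/-! Block D, Church-Rosser, part 1: rewriting, four and five points, flips of darts. -/

namespace Pool.Agent.MP_596265_gt.U.CR

open Erg Real UpperHalfPlane Relation

/-! Rewriting with ties -/

section rw
variable {α : Type} {r : α → α → Prop} {f : α → ℝ}

theorem rtg_le (hf : ∀ a b, r a b → f b ≤ f a) {a b : α} (h : ReflTransGen r a b) : f b ≤ f a := by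
  induction h with
  | refl => exact le_rfl
  | tail _ h ih => exact (hf _ _ h).trans ih

theorem back (hf : ∀ a b, r a b → f b ≤ f a)
    (tie : ∀ a b, r a b → f a ≤ f b → ReflTransGen r b a) {a : α} (x : α)
    (hx : ReflTransGen r a x) : f a ≤ f x → ReflTransGen r x a := by
  induction hx with
  | refl => exact fun _ => .refl
  | tail h1 h2 ih' =>
    exact fun h => (tie _ _ h2 ((rtg_le hf h1).trans h)).trans (ih' (h.trans (hf _ _ h2)))

theorem first {a : α} (b : α) (hb : ReflTransGen r a b) : f b < f a → ∃ x y,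
    ReflTransGen r a x ∧ f a ≤ f x ∧ r x y ∧ f y < f a ∧ ReflTransGen r y b := by
  induction hb with
  | refl => exact fun h => absurd h (lt_irrefl _)
  | @tail u w h1 h2 ih' =>
    intro h
    rcases lt_or_ge (f u) (f a) with h3 | h3
    · obtain ⟨x, y, a1, a2, a3, a4, a5⟩ := ih' h3
      exact ⟨x, y, a1, a2, a3, a4, a5.tail h2⟩
    · exact ⟨u, w, h1, h3, h2, h, .refl⟩

/-- From a point without strict step only ties can be reached. -/
theorem stay (hf : ∀ a b, r a b → f b ≤ f a)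
    (tie : ∀ a b, r a b → f a ≤ f b → ReflTransGen r b a)
    (lc : ∀ a b c, r a b → r a c → f b < f a →
      ∃ y, (y = c ∨ r c y) ∧ f y < f a ∧ Join (ReflTransGen r) b y)
    {a c : α} (ha : ∀ b, r a b → f a ≤ f b) (hc : ReflTransGen r a c) : ReflTransGen r c a := by
  refine back hf tie c hc (le_of_not_gt fun h => ?_)
  obtain ⟨x, y, a1, a2, a3, a4, -⟩ := first c hc h
  have move : ∀ x', ReflTransGen r x x' → f a ≤ f x' → ∃ y', r x' y' ∧ f y' < f a := by
    intro x' hx'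
    induction hx' with
    | refl => exact fun _ => ⟨y, a3, a4⟩
    | @tail u w h1 h2 ih' =>
      intro h
      have h3 := h.trans (hf _ _ h2)
      have h4 := rtg_le hf (a1.trans h1)
      obtain ⟨y', b1, b2⟩ := ih' h3
      obtain ⟨y'', c1, c2, -⟩ := lc u y' w b1 h2 (b2.trans_le h3)
      refine ⟨y'', c1.resolve_left ?_, c2.trans_le h4⟩
      rintro rfl
      linarith
  obtain ⟨y', b1, b2⟩ := move a (back hf tie x a1 a2) le_rfl
  exact (ha y' b1).not_gt b2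

theorem confl (hf : ∀ a b, r a b → f b ≤ f a)
    (tie : ∀ a b, r a b → f a ≤ f b → ReflTransGen r b a)
    (lc : ∀ a b c, r a b → r a c → f b < f a →
      ∃ y, (y = c ∨ r c y) ∧ f y < f a ∧ Join (ReflTransGen r) b y)
    {a : α} (hfin : {x | ReflTransGen r a x}.Finite) {b c : α} (hb : ReflTransGen r a b)
    (hc : ReflTransGen r a c) : Join (ReflTransGen r) b c := by
  have key : ∀ N : ℕ, ∀ a : α, {x | ReflTransGen r a x}.Finite →
      {x | ReflTransGen r a x}.ncard < N → ∀ b c, ReflTransGen r a b → ReflTransGen r a c →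
      Join (ReflTransGen r) b c := by
    intro N
    induction N with
    | zero => intro a _ h; omega
    | succ N ih =>
    intro a hfin hN
    have low : ∀ y, ReflTransGen r a y → f y < f a → ∀ u w, ReflTransGen r y u →
        ReflTransGen r y w → Join (ReflTransGen r) u w := by
      intro y hy hl
      have sub : {x | ReflTransGen r y x} ⊂ {x | ReflTransGen r a x} :=
        ⟨fun x hx => hy.trans hx, fun h => (rtg_le hf (h ReflTransGen.refl)).not_gt hl⟩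
      exact ih y (hfin.subset sub.1) (by have := Set.ncard_lt_ncard sub hfin; omega)
    have tr : ∀ x y w, ReflTransGen r a y → f y < f a → Join (ReflTransGen r) x y →
        Join (ReflTransGen r) y w → Join (ReflTransGen r) x w := by
      rintro x y w hy hl ⟨u, h1, h2⟩ ⟨u', h3, h4⟩
      obtain ⟨t, h5, h6⟩ := low y hy hl u u' h2 h3
      exact ⟨t, h1.trans h5, h4.trans h6⟩
    have back := @back _ _ _ hf tie a
    have first := @first _ r f a
    have move : ∀ x y, ReflTransGen r a x → r x y → f y < f a → ∀ x', ReflTransGen r x x' →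
        f a ≤ f x' → ∃ y', r x' y' ∧ f y' < f a ∧ Join (ReflTransGen r) y y' := by
      intro x y hx hy hl x' hx'
      induction hx' with
      | refl => exact fun _ => ⟨y, hy, hl, y, .refl, .refl⟩
      | @tail u w h1 h2 ih' =>
        intro h
        have h3 := h.trans (hf _ _ h2)
        have h4 := rtg_le hf (hx.trans h1)
        obtain ⟨y', a1, a2, a3⟩ := ih' h3
        obtain ⟨y'', b1, b2, b3⟩ := lc u y' w a1 h2 (a2.trans_le h3)
        refine ⟨y'', b1.resolve_left ?_, b2.trans_le h4,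
          tr _ _ _ ((hx.trans h1).tail a1) a2 a3 b3⟩
        rintro rfl
        linarith only [h4, b2, h]
    intro b c hb hc
    rcases le_or_gt (f a) (f b) with h1 | h1
    · exact ⟨c, (back b hb h1).trans hc, .refl⟩
    rcases le_or_gt (f a) (f c) with h2 | h2
    · exact ⟨b, .refl, (back c hc h2).trans hb⟩
    obtain ⟨x, y, a1, a2, a3, a4, a5⟩ := first b hb h1
    obtain ⟨x', y', b1, b2, b3, b4, b5⟩ := first c hc h2
    obtain ⟨w, c1, c2, c3⟩ := move x y a1 a3 a4 x' ((back x a1 a2).trans b1) b2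
    obtain ⟨w', d1, -, t, d3, d4⟩ := lc x' w y' c1 b3 (c2.trans_le b2)
    have e1 : Join (ReflTransGen r) w y' :=
      ⟨t, d3, d1.elim (fun e => e ▸ d4) fun e => .head e d4⟩
    have e2 := tr _ _ _ (b1.tail c1) c2 c3 e1
    have e3 := tr b y y' (a1.tail a3) a4 ⟨b, .refl, a5⟩ e2
    exact tr b y' c (b1.tail b3) b4 e3 ⟨c, b5, .refl⟩
  exact key _ a hfin (Nat.lt_succ_self _) b c hb hc

end rw

/-! Points -/

theorem hD_swap (p q r : ℍ) : hD q p r = -hD p q r := by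
  simp only [hD, hdet, det3]
  ring

theorem hD_self (p r : ℍ) : hD p p r = 0 := by simp [hD, hdet, det3]

theorem hD_smul (A : G) (p q r : ℍ) : hD (A • p) (A • q) (A • r) = hD p q r := by
  have h1 : hD (A • p) (A • q) (A • r) ^ 2 = hD p q r ^ 2 := by
    simp only [hD_sq, ch, dist_smul]
  obtain ⟨c, hc, e⟩ := hdet_smul A p q r
  have h2 : ∀ ν : ℝ, 0 < ν * hD (A • p) (A • q) (A • r) ↔ 0 < ν * hD p q r := fun ν => by
    rw [hD_pos, hD_pos, e, mul_left_comm, mul_pos_iff_of_pos_left hc]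
  have a := h2 1
  have b := h2 (-1)
  rcases sq_eq_sq_iff_eq_or_eq_neg.1 h1 with h | h
  · exact h
  · rw [h] at a b ⊢
    rcases lt_trichotomy (hD p q r) 0 with t | t | t
    · have := a.1 (by linarith); linarith
    · rw [t, neg_zero]
    · have := b.1 (by linarith); linarith

theorem one_lt_ch {p q r : ℍ} (h : 0 < hD p q r) : 1 < ch p q := by
  rw [ch, one_lt_cosh, dist_ne_zero]
  rintro rfl
  exact h.ne' (hD_self _ _)

/-- The change of the sum of determinants when the diagonal `p q` is replaced by `r s`. -/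
noncomputable def mg (p q r s : ℍ) : ℝ := hD s r p + hD r s q - hD p q r - hD q p s

theorem ch_self (t : ℍ) : ch t t = 1 := by rw [ch, dist_self, cosh_zero]

theorem cramer (p q r s t : ℍ) :
    hD p q r * ch s t + hD q p s * ch r t = hD r s q * ch p t + hD s r p * ch q t := by
  have := rha_cramer p r q s t
  rw [hD_cyc q p r, hD_swap p q r, hD_cyc p q s, hD_swap q p s, hD_cyc s r q, hD_swap r s q,
    hD_cyc r s p, hD_swap s r p] at this
  linarith

theorem del0 {p q r s : ℍ} (h1 : 0 < hD p q r) (h2 : 0 < hD q p s) (h : mg p q r s ≤ 0) :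
    0 < hD s r p ∧ 0 < hD r s q := by
  have c1 := cramer p q r s p
  have c2 := cramer p q r s q
  rw [ch_self] at c1 c2
  rw [ch_comm q p] at c1
  have l0 := one_le_ch p q
  have l1 := one_le_ch s p
  have l2 := one_le_ch s q
  have l3 : 1 < ch r p := one_lt_ch (r := q) (by rwa [← hD_cyc])
  have l4 : 1 < ch r q := by rw [ch_comm]; exact one_lt_ch (r := p) (by rwa [hD_cyc])
  unfold mg at h
  constructor
  · by_contra! b
    linarith only [mul_nonneg h1.le (sub_nonneg.2 l1), mul_pos h2 (sub_pos.2 l3), mul_nonneg (neg_nonneg.2 b) (sub_nonneg.2 l0), h, c1]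
  · by_contra! b
    linarith only [mul_nonneg h1.le (sub_nonneg.2 l2), mul_pos h2 (sub_pos.2 l4), mul_nonneg (neg_nonneg.2 b) (sub_nonneg.2 l0), h, c2]

theorem mg_eq (p q r s : ℍ) : mg p q r s * (1 + ch p q) =
    -((1 + ch p q - ch s p - ch s q) * hD p q r + (1 + ch p q - ch r p - ch r q) * hD q p s) := by
  have c1 := cramer p q r s p
  have c2 := cramer p q r s q
  rw [ch_self] at c1 c2
  rw [ch_comm q p] at c1
  unfold mg
  linear_combination -c1 - c2

theorem hD_vec (p q r : ℍ) : hD p q r =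
    1 / p.im * (q.re / q.im * ((Φ r).2 / r.im) - r.re / r.im * ((Φ q).2 / q.im)) -
    1 / q.im * (p.re / p.im * ((Φ r).2 / r.im) - r.re / r.im * ((Φ p).2 / p.im)) +
    1 / r.im * (p.re / p.im * ((Φ q).2 / q.im) - q.re / q.im * ((Φ p).2 / p.im)) := by
  have := p.im_pos.ne'
  have := q.im_pos.ne'
  have := r.im_pos.ne'
  simp only [hD, hdet, det3, Φ]
  field_simp
  ring

theorem pent1 (a b c u w : ℍ) :
    hD a b c * mg b c u w = hD c b w * mg a b c u + hD c u b * mg b c a w := by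
  simp only [mg, hD_vec]
  ring

theorem pent2 (a b c u w : ℍ) :
    hD a b c * mg a b w u = hD b a u * mg b c a w + hD w a b * mg a b c u := by
  simp only [mg, hD_vec]
  ring

end Pool.Agent.MP_596265_gt.U.CR

end

section

/-! Block D, Church-Rosser, part 2: flips of triangulations with labels in a group. -/

namespace Pool.Agent.MP_596265_gt.U.CR

open Erg Real UpperHalfPlane Relation Equiv

variable {E Γ : Type} [Group Γ]

abbrev St (E Γ : Type) : Type := Nx E × (E → Γ)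

/-- The face `x y w`. -/
def Fc (n : Nx E) (x y w : Dr E) : Prop := n x = y ∧ n y = w ∧ n w = x

structure OK (s : St E Γ) : Prop where
  cube : ∀ d, s.1 (s.1 (s.1 d)) = d
  ne : ∀ d, s.1 d ≠ d
  rel : ∀ d, fp s.1 s.2 d = 1

def Is (s t : St E Γ) : Prop := ∃ σ, Rlb σ s.1 t.1 ∧ ∀ d, dlab s.2 d = dlab t.2 (σ d)

theorem OK.fc {s : St E Γ} (h : OK s) (d : Dr E) : Fc s.1 d (s.1 d) (s.1 (s.1 d)) :=
  ⟨rfl, rfl, h.cube d⟩

theorem OK.face {s : St E Γ} (h : OK s) {x y w : Dr E} (f : Fc s.1 x y w) :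
    dlab s.2 x * dlab s.2 y * dlab s.2 w = 1 := by
  have := h.rel x
  rwa [fp, f.1, f.2.1] at this

theorem Is.refl (s : St E Γ) : Is s s := ⟨1, ⟨fun _ => rfl, fun _ => rfl⟩, fun _ => rfl⟩

theorem Is.symm {s t : St E Γ} (h : Is s t) : Is t s := by
  obtain ⟨σ, ⟨h1, h2⟩, h3⟩ := h
  refine ⟨σ.symm, ⟨fun d => ?_, fun d => ?_⟩, fun d => ?_⟩
  · rw [symm_apply_eq, h1, apply_symm_apply]
  · rw [symm_apply_eq, h2, apply_symm_apply]
  · rw [h3, apply_symm_apply]

theorem Is.ok {s t : St E Γ} (h : Is s t) (hs : OK s) : OK t := by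
  obtain ⟨σ, ⟨h1, h2⟩, h3⟩ := h
  refine ⟨fun d => ?_, fun d => ?_, fun d => ?_⟩ <;> obtain ⟨d, rfl⟩ := σ.surjective d
  · rw [← h2, ← h2, ← h2, hs.cube]
  · rw [← h2]; exact σ.injective.ne (hs.ne d)
  · rw [fp, ← h2, ← h2, ← h3, ← h3, ← h3]; exact hs.rel d

theorem lab_ext {μ ν : E → Γ} (h : ∀ d, dlab μ d = dlab ν d) : μ = ν :=
  funext fun e => h (e, true)

theorem fst_ne {x d : Dr E} (h1 : x ≠ d) (h2 : x ≠ rev d) : x.1 ≠ d.1 := by
  obtain ⟨e, b⟩ := x
  obtain ⟨e', b'⟩ := d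
  rintro (rfl : e = e')
  cases b <;> cases b' <;> simp [rev] at h1 h2

/-- Rewriting rules for lists without repetition. -/
theorem nb {α : Type} : (∀ (a b : α) (l : List α), (a ∈ b :: l) = (a = b ∨ a ∈ l)) ∧
    (∀ a : α, (a ∈ ([] : List α)) = False) ∧
    (∀ (a : α) (l : List α), (a :: l).Nodup = (a ∉ l ∧ l.Nodup)) ∧
    (([] : List α).Nodup = True) ∧ ∀ a b : α, (a ≠ b) = ¬a = b := by
  simp

theorem np : (∀ p : Prop, (p ∨ False) = p) ∧ (∀ p q : Prop, (¬(p ∨ q)) = (¬p ∧ ¬q)) ∧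
    ((¬False) = True) ∧ (∀ p : Prop, (p ∧ True) = p) ∧ ∀ p : Prop, (True ∧ p) = p := by
  simp [not_or]

theorem nd6 {α : Type} {a b c d e f : α} (h : [a, b, c, d, e, f].Nodup) :
    [a, b, c, d, e, f].Nodup ∧ [f, e, d, c, b, a].Nodup := ⟨h, List.nodup_reverse.2 h⟩

variable [DecidableEq E]

theorem cyc4 {α : Type} [DecidableEq α] {a b c h : α} (hn : [a, b, c, h].Nodup) {σ : Perm α}
    (e : σ = swap a h * swap a c * swap a b) :
    σ a = b ∧ σ b = c ∧ σ c = h ∧ σ h = a ∧ ∀ x, x ∉ [a, b, c, h] → σ x = x := by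
  subst e
  simp only [List.nodup_cons, List.mem_cons, List.not_mem_nil, or_false, not_or] at hn ⊢
  simp only [Perm.mul_apply, swap_apply_def]
  grind

theorem fnx_spec {n : Nx E} {d a b c h : Dr E} (h1 : Fc n d a b) (h2 : Fc n (rev d) c h)
    (hn : [d, a, b, rev d, c, h].Nodup) : Fc (fnx n d) d b c ∧ Fc (fnx n d) (rev d) h a ∧
      ∀ x, x ∉ [d, a, b, rev d, c, h] → fnx n d x = n x ∧ n x ∉ [d, a, b, rev d, c, h] := by
  obtain ⟨a1, a2, a3⟩ := h1
  obtain ⟨b1, b2, b3⟩ := h2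
  have k : ∀ y, fnx n d (cyc n d y) = cyc n d (n y) := fun y => by simp only [fnx, Perm.coe_mul, Perm.coe_inv, Function.comp_apply, symm_apply_apply]
  have N := nd6 hn
  simp only [nb, np] at N
  have hn' : [a, b, c, h].Nodup := by simp only [nb, np, N]
  obtain ⟨c1, c2, c3, c4, c5⟩ := cyc4 hn' (σ := cyc n d) (by rw [cyc, a1, a2, b1, b2])
  have c6 := c5 d (by simp only [nb, np, N])
  have c7 := c5 (rev d) (by simp only [nb, np, N])
  have k1 := k d
  have k2 := k a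
  have k3 := k b
  have k4 := k (rev d)
  have k5 := k c
  have k6 := k h
  rw [c6, a1, c1] at k1
  rw [c1, a2, c2] at k2
  rw [c2, a3, c6] at k3
  rw [c7, b1, c3] at k4
  rw [c3, b2, c4] at k5
  rw [c4, b3, c7] at k6
  refine ⟨⟨k1, k2, k3⟩, ⟨k4, k5, k6⟩, fun x hx => ?_⟩
  have i : ∀ y, n x = n y → x = y := fun y e => n.injective e
  have : n x ∉ [d, a, b, rev d, c, h] := by
    simp only [nb, np] at hx ⊢
    exact ⟨fun e => hx.2.2.1 (i b (e.trans a3.symm)), fun e => hx.1 (i d (e.trans a1.symm)),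
      fun e => hx.2.1 (i a (e.trans a2.symm)), fun e => hx.2.2.2.2.2 (i h (e.trans b3.symm)),
      fun e => hx.2.2.2.1 (i _ (e.trans b1.symm)), fun e => hx.2.2.2.2.1 (i c (e.trans b2.symm))⟩
  have k7 := k x
  have t := this
  simp only [nb, np] at hx t
  rw [c5 x (by simp only [nb, np, hx]), c5 (n x) (by simp only [nb, np, t])] at k7
  exact ⟨k7, this⟩

theorem flb_self (n : Nx E) (μ : E → Γ) (d : Dr E) :
    dlab (flb n μ d) d = (dlab μ (n (n d)) * dlab μ (n (rev d)))⁻¹ := by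
  obtain ⟨e, b⟩ := d
  cases b <;> simp [flb, dlab]

theorem flb_ne (n : Nx E) (μ : E → Γ) {d x : Dr E} (h1 : x ≠ d) (h2 : x ≠ rev d) :
    dlab (flb n μ d) x = dlab μ x := by
  simp [flb, dlab, Function.update_of_ne (fst_ne h1 h2)]

def fl (s : St E Γ) (d : Dr E) : St E Γ := (fnx s.1 d, flb s.1 s.2 d)

/-- The two faces along the edge of `d`. -/
structure Qd (s : St E Γ) (d a b c h : Dr E) : Prop where
  f1 : Fc s.1 d a b
  f2 : Fc s.1 (rev d) c h
  nd : [d, a, b, rev d, c, h].Nodup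

omit [Group Γ] [DecidableEq E] in
theorem Qd.rev {s : St E Γ} {d a b c h : Dr E} (q : Qd s d a b c h) : Qd s (rev d) c h a b :=
  ⟨q.f2, by rw [rev_rev]; exact q.f1, by
    have N := nd6 q.nd
    simp only [nb, np] at N
    rw [rev_rev]; simp only [nb, np, N]⟩

omit [DecidableEq E] in
theorem OK.qd {s : St E Γ} (h : OK s) {d : Dr E} (hf : Fl s.1 d) :
    Qd s d (s.1 d) (s.1 (s.1 d)) (s.1 (rev d)) (s.1 (s.1 (rev d))) := by
  refine ⟨h.fc d, h.fc _, ?_⟩
  obtain ⟨f1, f2⟩ := hf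
  have := rev_ne d
  have c := h.cube
  have := h.ne d
  have := h.ne (s.1 d)
  have := h.ne (s.1 (s.1 d))
  have := h.ne (rev d)
  have := h.ne (s.1 (rev d))
  have := h.ne (s.1 (s.1 (rev d)))
  have := c d
  have := c (rev d)
  have := c (s.1 d)
  have := c (s.1 (rev d))
  grind

/-- Everything about the flipped state. -/
structure Sp (s t : St E Γ) (d a b c h : Dr E) : Prop where
  f1 : Fc t.1 d b c
  f2 : Fc t.1 (rev d) h a
  out : ∀ x, x ∉ [d, a, b, rev d, c, h] → t.1 x = s.1 x ∧ s.1 x ∉ [d, a, b, rev d, c, h]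
  l1 : dlab t.2 d = (dlab s.2 b * dlab s.2 c)⁻¹
  l2 : dlab t.2 (rev d) = dlab s.2 b * dlab s.2 c
  lo : ∀ x, x ≠ d → x ≠ rev d → dlab t.2 x = dlab s.2 x

theorem Qd.sp {s : St E Γ} {d a b c h : Dr E} (q : Qd s d a b c h) : Sp s (fl s d) d a b c h := by
  obtain ⟨h1, h2, h3⟩ := fnx_spec q.f1 q.f2 q.nd
  have : dlab (fl s d).2 d = (dlab s.2 b * dlab s.2 c)⁻¹ := by
    rw [fl, flb_self, q.f1.1, q.f1.2.1, q.f2.1]
  exact ⟨h1, h2, h3, this, by rw [dlab_rev, this, inv_inv], fun x => flb_ne _ _⟩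

theorem Qd.fl {s : St E Γ} {d a b c h : Dr E} (q : Qd s d a b c h) : Qd (fl s d) d b c h a :=
  ⟨q.sp.f1, q.sp.f2, by
    have N := nd6 q.nd
    simp only [nb, np] at N
    simp only [nb, np, N]⟩

theorem OK.fl {s : St E Γ} (hs : OK s) {d a b c h : Dr E} (q : Qd s d a b c h) : OK (fl s d) := by
  refine ⟨fun x => by simp only [CR.fl, fnx, Perm.coe_mul, Perm.coe_inv, Function.comp_apply, symm_apply_apply, hs.cube, apply_symm_apply], fun x e => ?_, fun x => ?_⟩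
  · exact hs.ne ((cyc s.1 d)⁻¹ x) (by simpa only [Perm.coe_inv, eq_symm_apply, CR.fl, fnx, Perm.coe_mul, Function.comp_apply] using e)
  have p := q.sp
  have N := nd6 q.nd
  simp only [nb, np] at N
  have r1 := hs.face q.f1
  have r2 := hs.face q.f2
  rw [dlab_rev] at r2
  have la := p.lo a (by simp only [nb, np, N]) (by simp only [nb, np, N])
  have lb := p.lo b (by simp only [nb, np, N]) (by simp only [nb, np, N])
  have lc := p.lo c (by simp only [nb, np, N]) (by simp only [nb, np, N])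
  have lh := p.lo h (by simp only [nb, np, N]) (by simp only [nb, np, N])
  obtain ⟨a1, a2, a3⟩ := p.f1
  obtain ⟨b1, b2, b3⟩ := p.f2
  have e1 : dlab s.2 h = (dlab s.2 c)⁻¹ * dlab s.2 d := by
    rw [eq_inv_mul_iff_mul_eq, eq_comm, ← inv_mul_eq_one, ← mul_assoc, r2]
  have e2 : dlab s.2 b = (dlab s.2 d * dlab s.2 a)⁻¹ := eq_inv_of_mul_eq_one_right r1
  by_cases hx : x ∈ [d, a, b, rev d, c, h]
  · simp only [List.mem_cons, List.not_mem_nil, or_false] at hx
    rcases hx with rfl | rfl | rfl | rfl | rfl | rfl <;>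
      simp only [fp, a1, a2, a3, b1, b2, b3, p.l1, p.l2, la, lb, lc, lh, e1, e2] <;> group
  · obtain ⟨o1, o2⟩ := p.out x hx
    obtain ⟨o3, o4⟩ := p.out _ o2
    simp only [nb, np] at hx o2 o4
    rw [fp, o1, o3, p.lo x hx.1 hx.2.2.2.1, p.lo _ o2.1 o2.2.2.2.1, p.lo _ o4.1 o4.2.2.2.1]
    exact hs.rel x

theorem fl_rev {s : St E Γ} (hs : OK s) {d a b c h : Dr E} (q : Qd s d a b c h) :
    fl s (rev d) = fl s d := by
  have p := q.sp
  have p' := q.rev.sp
  have r1 := hs.face q.f1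
  have r2 := hs.face q.f2
  rw [dlab_rev] at r2
  have e1 : dlab s.2 h = (dlab s.2 c)⁻¹ * dlab s.2 d := by
    rw [eq_inv_mul_iff_mul_eq, eq_comm, ← inv_mul_eq_one, ← mul_assoc, r2]
  have e2 : dlab s.2 b = (dlab s.2 d * dlab s.2 a)⁻¹ := eq_inv_of_mul_eq_one_right r1
  refine Prod.ext (Equiv.ext fun x => ?_) (lab_ext fun x => ?_)
  · obtain ⟨a1, a2, a3⟩ := p.f1
    obtain ⟨b1, b2, b3⟩ := p.f2
    obtain ⟨c1, c2, c3⟩ := p'.f1
    obtain ⟨d1, d2, d3⟩ := p'.f2
    rw [rev_rev] at d1 d3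
    by_cases hx : x ∈ [d, a, b, rev d, c, h]
    · simp only [List.mem_cons, List.not_mem_nil, or_false] at hx
      rcases hx with rfl | rfl | rfl | rfl | rfl | rfl <;> simp only [*]
    · rw [(p.out x hx).1, (p'.out x (by
        simp only [nb, np] at hx
        rw [rev_rev]; simp only [nb, np, hx])).1]
  · by_cases h1 : x = d
    · have := p'.l2
      rw [rev_rev] at this
      rw [h1, this, p.l1, e1, e2]; group
    by_cases h2 : x = rev d
    · rw [h2, p'.l1, p.l2, e1, e2]; group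
    rw [p.lo x h1 h2, p'.lo x h2 (by rwa [rev_rev])]

theorem Is.fl {s t : St E Γ} {σ : Nx E} (h : Rlb σ s.1 t.1)
    (h3 : ∀ d, dlab s.2 d = dlab t.2 (σ d)) (d : Dr E) : Is (fl s d) (fl t (σ d)) := by
  have e1 : σ * cyc s.1 d = cyc t.1 (σ d) * σ := by
    rw [cyc, cyc, ← mul_assoc, ← mul_assoc, mul_swap_eq_swap_mul σ, mul_assoc _ σ,
      mul_swap_eq_swap_mul σ, ← mul_assoc, mul_assoc _ σ, mul_swap_eq_swap_mul σ, ← mul_assoc]
    simp only [h.nx, h.rv]
  have e2 : σ * s.1 = t.1 * σ := Equiv.ext h.nx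
  have e3 : σ * fnx s.1 d = fnx t.1 (σ d) * σ := by
    rw [fnx, fnx, ← mul_assoc, ← mul_assoc, e1, mul_assoc _ σ, e2, ← mul_assoc, mul_assoc _ σ,
      mul_assoc _ _ σ, eq_inv_mul_iff_mul_eq.2 (by rw [← mul_assoc, ← e1, mul_inv_cancel_right] :
        cyc t.1 (σ d) * (σ * (cyc s.1 d)⁻¹) = σ)]
  refine ⟨σ, ⟨h.rv, fun x => Equiv.congr_fun e3 x⟩, fun x => ?_⟩
  have k : dlab (CR.fl s d).2 d = dlab (CR.fl t (σ d)).2 (σ d) := by
    simp only [CR.fl, flb_self, h3, h.nx, h.rv]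
  by_cases h1 : x = d
  · rw [h1, k]
  by_cases h2 : x = rev d
  · rw [h2, h.rv, dlab_rev, dlab_rev, k]
  rw [CR.fl, CR.fl, flb_ne _ _ h1 h2, flb_ne _ _ (σ.injective.ne h1)
    (by rw [← h.rv]; exact σ.injective.ne h2), h3]

theorem fl_fl {s : St E Γ} (hs : OK s) {d a b c h : Dr E} (q : Qd s d a b c h) :
    Is (fl (fl s d) d) s := by
  have p := q.sp
  have p' := q.fl.sp
  have N := nd6 q.nd
  simp only [nb, np] at N
  have r1 := hs.face q.f1
  have r2 := hs.face q.f2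
  rw [dlab_rev] at r2
  have e1 : dlab s.2 h = (dlab s.2 c)⁻¹ * dlab s.2 d := by
    rw [eq_inv_mul_iff_mul_eq, eq_comm, ← inv_mul_eq_one, ← mul_assoc, r2]
  have rr : ∀ x y : Dr E, rev x = y → x = rev y := fun x y e => by rw [← e, rev_rev]
  refine ⟨swap d (rev d), ⟨fun x => ?_, fun x => ?_⟩, fun x => ?_⟩
  · by_cases h1 : x = d
    · rw [h1, swap_apply_left, swap_apply_right, rev_rev]
    by_cases h2 : x = rev d
    · rw [h2, rev_rev, swap_apply_left, swap_apply_right]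
    rw [swap_apply_of_ne_of_ne h1 h2, swap_apply_of_ne_of_ne (fun e => h2 (rr _ _ e))
      (fun e => h1 ((rr _ _ e).trans (rev_rev d)))]
  · obtain ⟨a1, a2, a3⟩ := q.f1
    obtain ⟨b1, b2, b3⟩ := q.f2
    obtain ⟨c1, c2, c3⟩ := p'.f1
    obtain ⟨d1, d2, d3⟩ := p'.f2
    by_cases hx : x ∈ [d, a, b, rev d, c, h]
    · simp only [List.mem_cons, List.not_mem_nil, or_false] at hx
      simp only [swap_apply_def]
      rcases hx with rfl | rfl | rfl | rfl | rfl | rfl <;>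
        simp only [a1, a2, a3, b1, b2, b3, c1, c2, c3, d1, d2, d3, N, if_true, if_false]
    · obtain ⟨t1, t2⟩ := p.out x hx
      simp only [nb, np] at hx t2
      rw [(p'.out x (by simp only [nb, np, hx])).1, t1, swap_apply_of_ne_of_ne t2.1 t2.2.2.2.1,
        swap_apply_of_ne_of_ne hx.1 hx.2.2.2.1]
  · have k : dlab (fl (fl s d) d).2 d = (dlab s.2 d)⁻¹ := by
      rw [p'.l1, p.lo c (by simp only [nb, np, N]) (by simp only [nb, np, N]), p.lo h (by simp only [nb, np, N]) (by simp only [nb, np, N]), e1]; group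
    by_cases h1 : x = d
    · rw [h1, swap_apply_left, k, dlab_rev]
    by_cases h2 : x = rev d
    · rw [h2, swap_apply_right, dlab_rev, k, inv_inv]
    rw [swap_apply_of_ne_of_ne h1 h2, p'.lo x h1 h2, p.lo x h1 h2]

omit [Group Γ] [DecidableEq E] in
theorem fc_out {s t : St E Γ} {l : List (Dr E)} (h : ∀ x, x ∉ l → t.1 x = s.1 x ∧ s.1 x ∉ l)
    {x y w : Dr E} (f : Fc s.1 x y w) (hx : x ∉ l) : Fc t.1 x y w ∧ y ∉ l ∧ w ∉ l := by
  obtain ⟨a1, a2, a3⟩ := f
  obtain ⟨b1, b2⟩ := h x hx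
  rw [a1] at b1 b2
  obtain ⟨b3, b4⟩ := h y b2
  rw [a2] at b3 b4
  exact ⟨⟨b1, b3, (h w b4).1.trans a3⟩, b2, b4⟩

/-- Flips of edges without a common face commute. -/
theorem fl_comm {s : St E Γ} {d a b c h d' a' b' c' h' : Dr E} (q : Qd s d a b c h)
    (q' : Qd s d' a' b' c' h') (h1 : d' ∉ [d, a, b, rev d, c, h])
    (h2 : rev d' ∉ [d, a, b, rev d, c, h]) : Qd (fl s d) d' a' b' c' h' ∧
      Qd (fl s d') d a b c h ∧ fl (fl s d) d' = fl (fl s d') d ∧
      ∀ x ∈ [d', a', b', rev d', c', h'], x ∉ [d, a, b, rev d, c, h] := by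
  have p := q.sp
  have p' := q'.sp
  obtain ⟨u1, u2, u3⟩ := fc_out p.out q'.f1 h1
  obtain ⟨u4, u5, u6⟩ := fc_out p.out q'.f2 h2
  have dj : ∀ x ∈ [d', a', b', rev d', c', h'], x ∉ [d, a, b, rev d, c, h] := by
    intro x hx
    simp only [List.mem_cons, List.not_mem_nil, or_false] at hx
    rcases hx with rfl | rfl | rfl | rfl | rfl | rfl <;> assumption
  have dj' : ∀ x ∈ [d, a, b, rev d, c, h], x ∉ [d', a', b', rev d', c', h'] :=
    fun x hx hx' => dj x hx' hx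
  obtain ⟨w1, -, -⟩ := fc_out p'.out q.f1 (dj' _ (by simp))
  obtain ⟨w4, -, -⟩ := fc_out p'.out q.f2 (dj' _ (by simp))
  have r : Qd (fl s d) d' a' b' c' h' := ⟨u1, u4, q'.nd⟩
  have r' : Qd (fl s d') d a b c h := ⟨w1, w4, q.nd⟩
  refine ⟨r, r', Prod.ext (Equiv.ext fun x => ?_) (lab_ext fun x => ?_), dj⟩
  · by_cases hx : x ∈ [d, a, b, rev d, c, h]
    · rw [(r.sp.out x (dj' x hx)).1]
      obtain ⟨a1, a2, a3⟩ := p.f1
      obtain ⟨b1, b2, b3⟩ := p.f2
      obtain ⟨c1, c2, c3⟩ := r'.sp.f1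
      obtain ⟨d1, d2, d3⟩ := r'.sp.f2
      simp only [List.mem_cons, List.not_mem_nil, or_false] at hx
      rcases hx with rfl | rfl | rfl | rfl | rfl | rfl <;> simp only [*]
    rw [(r'.sp.out x hx).1]
    by_cases hx' : x ∈ [d', a', b', rev d', c', h']
    · obtain ⟨a1, a2, a3⟩ := p'.f1
      obtain ⟨b1, b2, b3⟩ := p'.f2
      obtain ⟨c1, c2, c3⟩ := r.sp.f1
      obtain ⟨d1, d2, d3⟩ := r.sp.f2
      simp only [List.mem_cons, List.not_mem_nil, or_false] at hx'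
      rcases hx' with rfl | rfl | rfl | rfl | rfl | rfl <;> simp only [*]
    rw [(r.sp.out x hx').1, (p.out x hx).1, (p'.out x hx').1]
  · simp only [List.mem_cons, List.not_mem_nil, or_false, not_or, forall_eq_or_imp,
      forall_eq] at dj dj'
    have k : dlab (fl (fl s d) d').2 d = dlab (fl (fl s d') d).2 d := by
      rw [r.sp.lo d (by simp only [nb, np, dj, dj']) (by simp only [nb, np, dj, dj']), p.l1, r'.sp.l1, p'.lo b (by simp only [nb, np, dj, dj']) (by simp only [nb, np, dj, dj']),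
        p'.lo c (by simp only [nb, np, dj, dj']) (by simp only [nb, np, dj, dj'])]
    have k' : dlab (fl (fl s d) d').2 d' = dlab (fl (fl s d') d).2 d' := by
      rw [r'.sp.lo d' (by simp only [nb, np, dj, dj']) (by simp only [nb, np, dj, dj']), p'.l1, r.sp.l1, p.lo b' (by simp only [nb, np, dj, dj']) (by simp only [nb, np, dj, dj']),
        p.lo c' (by simp only [nb, np, dj, dj']) (by simp only [nb, np, dj, dj'])]
    by_cases e1 : x = d
    · rw [e1, k]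
    by_cases e2 : x = rev d
    · rw [e2, dlab_rev, dlab_rev, k]
    by_cases e3 : x = d'
    · rw [e3, k']
    by_cases e4 : x = rev d'
    · rw [e4, dlab_rev, dlab_rev, k']
    rw [r.sp.lo x e3 e4, r'.sp.lo x e1 e2, p.lo x e1 e2, p'.lo x e3 e4]

/-- The pentagon relation. -/
theorem fl_pent {s : St E Γ} (hs : OK s) {d e m c h p q : Dr E} (f0 : Fc s.1 d e m)
    (f1 : Fc s.1 (rev d) c h) (f2 : Fc s.1 (rev e) p q)
    (nd : [d, e, m, rev d, c, h, rev e, p, q].Nodup) :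
    Qd s d e m c h ∧ Qd s e m d p q ∧ Qd (fl s d) e (rev d) h p q ∧ Qd (fl s e) d p e c h ∧
      Qd (fl (fl s d) e) d m c (rev e) q ∧ Is (fl (fl s e) d) (fl (fl (fl s d) e) d) := by
  have N : [d, e, m, rev d, c, h, rev e, p, q].Nodup ∧ [q, p, rev e, h, c, rev d, m, e, d].Nodup :=
    ⟨nd, List.nodup_reverse.2 nd⟩
  simp only [nb, np] at N
  have rot : ∀ {n : Nx E} {x y w}, Fc n x y w → Fc n y w x := fun f => ⟨f.2.1, f.2.2, f.1⟩
  have q1 : Qd s d e m c h := ⟨f0, f1, by simp only [nb, np, N]⟩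
  have q2 : Qd s e m d p q := ⟨rot f0, f2, by simp only [nb, np, N]⟩
  have p1 := q1.sp
  have p2 := q2.sp
  have q3 : Qd (fl s d) e (rev d) h p q :=
    ⟨rot (rot p1.f2), (fc_out p1.out f2 (by simp only [nb, np, N])).1, by simp only [nb, np, N]⟩
  have q4 : Qd (fl s e) d p e c h := ⟨rot p2.f1, (fc_out p2.out f1 (by simp only [nb, np, N])).1, by simp only [nb, np, N]⟩
  have p3 := q3.sp
  have p4 := q4.sp
  have q5 : Qd (fl (fl s d) e) d m c (rev e) q :=
    ⟨(fc_out p3.out p1.f1 (by simp only [nb, np, N])).1, rot (rot p3.f2), by simp only [nb, np, N]⟩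
  have p5 := q5.sp
  refine ⟨q1, q2, q3, q4, q5, ?_⟩
  obtain ⟨c1, c2, c3, c4, c5⟩ := cyc4 (a := d) (b := rev e) (c := rev d) (h := e) (by simp only [nb, np, N]) rfl
  generalize swap d e * swap d (rev d) * swap d (rev e) = σ at c1 c2 c3 c4 c5
  have r0 := hs.face f0
  have r1 := hs.face f1
  have r2 := hs.face f2
  rw [dlab_rev] at r1 r2
  have e0 : dlab s.2 m = (dlab s.2 d * dlab s.2 e)⁻¹ := eq_inv_of_mul_eq_one_right r0
  have e1 : dlab s.2 h = ((dlab s.2 d)⁻¹ * dlab s.2 c)⁻¹ := eq_inv_of_mul_eq_one_right r1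
  have e2 : dlab s.2 q = ((dlab s.2 e)⁻¹ * dlab s.2 p)⁻¹ := eq_inv_of_mul_eq_one_right r2
  have cs : ∀ x, x = d ∨ x = rev e ∨ x = rev d ∨ x = e ∨ x ∉ [d, rev e, rev d, e] := fun x => by
    by_contra t
    simp only [nb, np] at t
    exact t.2.2.2.2 ⟨t.1, t.2.1, t.2.2.1, t.2.2.2.1⟩
  have hr : ∀ x, σ (rev x) = rev (σ x) := by
    intro x
    rcases cs x with rfl | rfl | rfl | rfl | hx
    · rw [c1, c3, rev_rev]
    · rw [rev_rev, c4, c2, rev_rev]
    · rw [rev_rev, c1, c3]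
    · rw [c2, c4]
    · rw [c5 x hx, c5]
      simp only [List.mem_cons, List.not_mem_nil, or_false, not_or] at hx ⊢
      refine ⟨fun t => hx.2.2.1 ?_, fun t => hx.2.2.2 ?_, fun t => hx.1 ?_, fun t => hx.2.1 ?_⟩ <;>
        simpa using congrArg rev t
  refine ⟨σ, ⟨hr, fun x => ?_⟩, fun x => ?_⟩
  · by_cases hx : x ∈ [d, e, m, rev d, c, h, rev e, p, q]
    · obtain ⟨a1, a2, a3⟩ := p4.f1
      obtain ⟨a4, a5, a6⟩ := p4.f2
      obtain ⟨a7, a8, a9⟩ := (fc_out p4.out p2.f2 (by simp only [nb, np, N])).1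
      obtain ⟨b1, b2, b3⟩ := p5.f1
      obtain ⟨b4, b5, b6⟩ := p5.f2
      obtain ⟨b7, b8, b9⟩ := (fc_out p5.out p3.f1 (by simp only [nb, np, N])).1
      have c6 := c5 m (by simp only [nb, np, N])
      have c7 := c5 c (by simp only [nb, np, N])
      have c8 := c5 h (by simp only [nb, np, N])
      have c9 := c5 p (by simp only [nb, np, N])
      have c10 := c5 q (by simp only [nb, np, N])
      simp only [List.mem_cons, List.not_mem_nil, or_false] at hx
      rcases hx with rfl | rfl | rfl | rfl | rfl | rfl | rfl | rfl | rfl <;> simp only [*]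
    · simp only [List.mem_cons, List.not_mem_nil, or_false, not_or] at hx
      obtain ⟨o1, o3⟩ := p1.out x (by simp only [nb, np, hx])
      obtain ⟨o2, o4⟩ := p2.out x (by simp only [nb, np, hx])
      simp only [nb, np] at o3 o4
      rw [c5 x (by simp only [nb, np, hx]), (p4.out x (by simp only [nb, np, hx])).1,
        (p5.out x (by simp only [nb, np, hx])).1, (p3.out x (by simp only [nb, np, hx])).1, o1, o2,
        c5 _ (by simp only [nb, np, o3, o4])]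
  · have k1 : dlab (fl (fl s e) d).2 d = dlab (fl (fl (fl s d) e) d).2 (rev e) := by
      rw [p4.l1, p2.l1, p2.lo c (by simp only [nb, np, N]) (by simp only [nb, np, N]), p5.lo _ (by simp only [nb, np, N]) (by simp only [nb, np, N]), p3.l2,
        p1.lo h (by simp only [nb, np, N]) (by simp only [nb, np, N]), p1.lo p (by simp only [nb, np, N]) (by simp only [nb, np, N]), e1]
      group
    have k2 : dlab (fl (fl s e) d).2 e = dlab (fl (fl (fl s d) e) d).2 d := by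
      rw [p4.lo _ (by simp only [nb, np, N]) (by simp only [nb, np, N]), p2.l1, p5.l1, p3.lo c (by simp only [nb, np, N]) (by simp only [nb, np, N]), p3.l2,
        p1.lo c (by simp only [nb, np, N]) (by simp only [nb, np, N]), p1.lo h (by simp only [nb, np, N]) (by simp only [nb, np, N]),
        p1.lo p (by simp only [nb, np, N]) (by simp only [nb, np, N]), e1]
      group
    rcases cs x with rfl | rfl | rfl | rfl | hx
    · rw [c1, k1]
    · rw [c2, dlab_rev, dlab_rev, k2]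
    · rw [c3, dlab_rev, k1, dlab_rev, inv_inv]
    · rw [c4, k2]
    · rw [c5 x hx]
      simp only [List.mem_cons, List.not_mem_nil, or_false, not_or] at hx
      rw [p4.lo x hx.1 hx.2.2.1, p2.lo x hx.2.2.2 hx.2.1, p5.lo x hx.1 hx.2.2.1,
        p3.lo x hx.2.2.2 hx.2.1, p1.lo x hx.1 hx.2.2.1]

end Pool.Agent.MP_596265_gt.U.CR

end

section

/-! Block D, Church-Rosser, part 3: local confluence of Delaunay flips. -/

namespace Pool.Agent.MP_596265_gt.U.CR

open Erg Real UpperHalfPlane Relation Equiv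

variable {E Γ : Type} [Group Γ] {v : Γ → ℍ} {s t : St E Γ}

/-- An orbit map. -/
def Orb (v : Γ → ℍ) : Prop := ∀ c, ∃ A : G, ∀ x, v (c * x) = A • v x

noncomputable def fG (v : Γ → ℍ) (s : St E Γ) (d : Dr E) : ℝ :=
  hD (v 1) (v (dlab s.2 d)) (v (dlab s.2 d * dlab s.2 (s.1 d)))

noncomputable def dG (v : Γ → ℍ) (s : St E Γ) (d : Dr E) : ℝ :=
  mg (v 1) (v (dlab s.2 d)) (v (dlab s.2 d * dlab s.2 (s.1 d))) (v (dlab s.2 (s.1 (rev d))))

structure Gd (v : Γ → ℍ) (s : St E Γ) : Prop where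
  ok : OK s
  pos : ∀ d, 0 < fG v s d

theorem Orb.hD (hv : Orb v) (c x y w : Γ) :
    hD (v (c * x)) (v (c * y)) (v (c * w)) = hD (v x) (v y) (v w) := by
  obtain ⟨A, h⟩ := hv c
  rw [h, h, h, hD_smul]

theorem Orb.ch (hv : Orb v) {x y x' y' : Γ} (h : x⁻¹ * y = x'⁻¹ * y') :
    ch (v x) (v y) = ch (v x') (v y') := by
  obtain ⟨A, hA⟩ := hv (x' * x⁻¹)
  have e1 := hA x
  have e2 := hA y
  rw [mul_assoc, inv_mul_cancel, mul_one] at e1
  rw [mul_assoc, h, mul_inv_cancel_left] at e2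
  rw [e1, e2, MP_596265_gt.ch, MP_596265_gt.ch, dist_smul]

theorem fG_eq (hv : Orb v) {x y : Dr E} (hn : s.1 x = y) {g₀ g₁ g₂ : Γ}
    (h1 : g₀ * dlab s.2 x = g₁) (h2 : g₁ * dlab s.2 y = g₂) :
    fG v s x = hD (v g₀) (v g₁) (v g₂) := by
  rw [fG, ← hv.hD g₀, hn, ← mul_assoc, h1, h2, mul_one]

theorem dG_eq (hv : Orb v) {x y w : Dr E} (hn : s.1 x = y) (hn' : s.1 (rev x) = w)
    {g₀ g₁ g₂ g₃ : Γ} (h1 : g₀ * dlab s.2 x = g₁) (h2 : g₁ * dlab s.2 y = g₂)
    (h3 : g₀ * dlab s.2 w = g₃) : dG v s x = mg (v g₀) (v g₁) (v g₂) (v g₃) := by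
  simp only [dG, mg, ← hv.hD g₀ (dlab s.2 _), ← hv.hD g₀ 1, ← hv.hD g₀ (_ * _), hn, hn',
    ← mul_assoc, h1, h2, h3, mul_one]

theorem fG_nxt (hv : Orb v) (h : OK s) {x y w : Dr E} (f : Fc s.1 x y w) :
    fG v s y = fG v s x ∧ fG v s w = fG v s x := by
  have r := h.face f
  rw [fG_eq hv f.1 (one_mul _) rfl, fG_eq hv f.2.1 (g₀ := dlab s.2 x) rfl r,
    fG_eq hv f.2.2 r (one_mul _)]
  exact ⟨hD_cyc _ _ _, (hD_cyc _ _ _).symm⟩

theorem Gd.fl' (hv : Orb v) (h : Gd v s) (d : Dr E) : Fl s.1 d := by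
  have k : ∀ x, rev x ≠ s.1 x := fun x e => (h.pos x).ne' (by
    rw [fG_eq hv e.symm (one_mul _) (by rw [dlab_rev, mul_inv_cancel]), ← hD_cyc, ← hD_cyc, hD_self])
  refine ⟨k d, fun e => k (s.1 (s.1 d)) ?_⟩
  rw [h.ok.cube, ← e, rev_rev]

theorem Gd.qd (hv : Orb v) (h : Gd v s) (d : Dr E) : ∃ a b c e, Qd s d a b c e :=
  ⟨_, _, _, _, h.ok.qd (h.fl' hv d)⟩

theorem is_fG {σ : Nx E} (h : Rlb σ s.1 t.1) (h3 : ∀ d, dlab s.2 d = dlab t.2 (σ d)) (d : Dr E) :
    fG v t (σ d) = fG v s d ∧ dG v t (σ d) = dG v s d := by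
  simp only [fG, dG, h3, h.nx, h.rv, and_self]

theorem Is.gd (h : Is s t) (hs : Gd v s) : Gd v t := by
  refine ⟨h.ok hs.ok, fun d => ?_⟩
  obtain ⟨σ, h1, h2⟩ := h
  obtain ⟨d, rfl⟩ := σ.surjective d
  rw [(is_fG h1 h2 d).1]
  exact hs.pos d

theorem fG_rev (hv : Orb v) {d a b c h : Dr E} (q : Qd s d a b c h) :
    fG v s (rev d) = hD (v (dlab s.2 d)) (v 1) (v (dlab s.2 c)) :=
  fG_eq hv q.f2.1 (by rw [dlab_rev, mul_inv_cancel]) (one_mul _)

/-- Two edges in two common faces are not both flippable. -/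
theorem two (hv : Orb v) (hs : Gd v s) {d e m c h : Dr E} (q : Qd s d e m c h)
    (h1 : dG v s d ≤ 0) (h2 : dG v s e ≤ 0) : rev e ≠ c ∧ rev e ≠ h := by
  have r0 := hs.ok.face q.f1
  have r1 := hs.ok.face q.f2
  have D1 := hs.pos d
  have D2 := hs.pos (rev d)
  rw [fG_rev hv q] at D2
  rw [fG_eq hv q.f1.1 (one_mul _) rfl] at D1
  rw [dlab_rev] at r1
  constructor
  · rintro rfl
    rw [dlab_rev] at r1 D2
    have e1 : dlab s.2 h = dlab s.2 e * dlab s.2 d := by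
      rw [eq_inv_of_mul_eq_one_right r1]; group
    rw [dG_eq hv q.f1.1 q.f2.1 (one_mul _) rfl (by rw [one_mul, dlab_rev])] at h1
    rw [dG_eq hv q.f1.2.1 q.f2.2.1 (g₀ := dlab s.2 d) rfl r0 (by rw [e1])] at h2
    generalize dlab s.2 d = x, dlab s.2 e = y at *
    have m1 := mg_eq (v 1) (v x) (v (x * y)) (v y⁻¹)
    have m2 := mg_eq (v x) (v (x * y)) (v 1) (v (x * (y * x)))
    have a1 : ch (v y⁻¹) (v 1) = ch (v x) (v (x * y)) := hv.ch (by group)
    have a2 : ch (v (x * (y * x))) (v x) = ch (v x) (v y⁻¹) := hv.ch (by group)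
    have a3 : ch (v (x * (y * x))) (v (x * y)) = ch (v x) (v 1) := hv.ch (by group)
    have a4 : hD (v (x * y)) (v x) (v (x * (y * x))) = hD (v x) (v 1) (v y⁻¹) := by
      rw [← hv.hD (x * y) x, ← hD_cyc (v (x * y * x)), mul_one, mul_inv_cancel_right, mul_assoc]
    rw [a2, a3, a4, hD_cyc, ch_comm (v x) (v 1), ch_comm (v x) (v y⁻¹),
      ch_comm (v 1) (v (x * y))] at m2
    rw [a1, ch_comm (v (x * y)) (v x)] at m1
    have l1 := one_le_ch (v 1) (v x)
    have l2 := one_le_ch (v x) (v (x * y))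
    have l3 := one_le_ch (v y⁻¹) (v x)
    have l4 : 1 < ch (v (x * y)) (v 1) := one_lt_ch (r := v x) (by rwa [← hD_cyc])
    linarith [mul_nonneg (neg_nonneg.2 h1) (show 0 ≤ 1 + ch (v 1) (v x) by linarith only [l1]),
      mul_nonneg (neg_nonneg.2 h2) (show 0 ≤ 1 + ch (v x) (v (x * y)) by linarith only [l2]),
      mul_nonneg D1.le (sub_nonneg.2 l3), mul_pos D2 (sub_pos.2 l4)]
  · rintro rfl
    have e1 : dlab s.2 c = dlab s.2 d * dlab s.2 e := by
      rw [dlab_rev, mul_inv_eq_one, inv_mul_eq_iff_eq_mul] at r1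
      exact r1
    rw [e1, hD_swap] at D2
    linarith

variable [DecidableEq E]

theorem fG_fl (hv : Orb v) (hs : OK s) {d a b c h : Dr E} (q : Qd s d a b c h) :
    fG v (fl s d) d = hD (v (dlab s.2 c)) (v (dlab s.2 d * dlab s.2 a)) (v 1) ∧
    fG v (fl s d) (rev d) = hD (v (dlab s.2 d * dlab s.2 a)) (v (dlab s.2 c)) (v (dlab s.2 d)) ∧
    ∀ x, x ∉ [d, a, b, rev d, c, h] → fG v (fl s d) x = fG v s x := by
  have p := q.sp
  have N := nd6 q.nd
  simp only [nb, np] at N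
  have r1 := hs.face q.f1
  have r2 := hs.face q.f2
  rw [dlab_rev] at r2
  have e1 := eq_inv_of_mul_eq_one_right r1
  have e2 := eq_inv_of_mul_eq_one_right r2
  refine ⟨fG_eq hv p.f1.1 ?_ ?_, fG_eq hv p.f2.1 ?_ ?_, fun x hx => ?_⟩
  · rw [p.l1, e1]; group
  · rw [p.lo b (by simp only [nb, np, N]) (by simp only [nb, np, N]), r1]
  · rw [p.l2, e1]; group
  · rw [p.lo h (by simp only [nb, np, N]) (by simp only [nb, np, N]), e2]; group
  · obtain ⟨o1, o2⟩ := p.out x hx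
    simp only [nb, np] at hx o2
    rw [fG, fG, o1, p.lo x hx.1 hx.2.2.2.1, p.lo _ o2.1 o2.2.2.2.1]

theorem dG_fl (hv : Orb v) (hs : OK s) {d a b c h : Dr E} (q : Qd s d a b c h) :
    dG v s d = fG v (fl s d) d + fG v (fl s d) (rev d) - fG v s d - fG v s (rev d) := by
  rw [(fG_fl hv hs q).1, (fG_fl hv hs q).2.1, fG_rev hv q, dG, fG, q.f1.1, q.f2.1, mg]

theorem Gd.flip (hv : Orb v) (hs : Gd v s) {d : Dr E} (h : dG v s d ≤ 0) : Gd v (fl s d) := by
  obtain ⟨a, b, c, e, q⟩ := hs.qd hv d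
  have ok := hs.ok.fl q
  obtain ⟨f1, f2, f3⟩ := fG_fl hv hs.ok q
  have D1 := hs.pos d
  have D2 := hs.pos (rev d)
  rw [fG_rev hv q] at D2
  rw [fG, q.f1.1] at D1
  rw [dG, q.f1.1, q.f2.1] at h
  obtain ⟨k1, k2⟩ := del0 D1 D2 h
  obtain ⟨n1, n2⟩ := fG_nxt hv ok q.sp.f1
  obtain ⟨n3, n4⟩ := fG_nxt hv ok q.sp.f2
  refine ⟨ok, fun x => ?_⟩
  by_cases hx : x ∈ [d, a, b, rev d, c, e]
  · simp only [List.mem_cons, List.not_mem_nil, or_false] at hx
    rcases hx with rfl | rfl | rfl | rfl | rfl | rfl <;> linarith only [f1, k1, f2, k2, n4, n1, n2, n3]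
  · rw [f3 x hx]; exact hs.pos x

/-- A move that does not increase the sum of the determinants. -/
def R (v : Γ → ℍ) (s t : St E Γ) : Prop := Gd v s ∧ (Is s t ∨ ∃ d, dG v s d ≤ 0 ∧ t = fl s d)

theorem R.gd (hv : Orb v) (h : R v s t) : Gd v t := by
  obtain ⟨h, h' | ⟨d, hd, rfl⟩⟩ := h
  exacts [h'.gd h, h.flip hv hd]

variable [Fintype E]

noncomputable def valG (v : Γ → ℍ) (s : St E Γ) : ℝ := ∑ d, fG v s d

omit [DecidableEq E] in
theorem Is.val (h : Is s t) : valG v t = valG v s := by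
  obtain ⟨σ, h1, h2⟩ := h
  rw [valG, ← Equiv.sum_comp σ]
  exact Finset.sum_congr rfl fun d _ => (is_fG h1 h2 d).1

theorem val_fl (hv : Orb v) (hs : OK s) {d a b c h : Dr E} (q : Qd s d a b c h) :
    valG v (fl s d) = valG v s + 3 * dG v s d := by
  have k : ∑ x, (fG v (fl s d) x - fG v s x) =
      ∑ x ∈ [d, a, b, rev d, c, h].toFinset, (fG v (fl s d) x - fG v s x) :=
    (Finset.sum_subset (Finset.subset_univ _) fun x _ hx => by
      rw [(fG_fl hv hs q).2.2 x (by simpa only [List.mem_cons, List.not_mem_nil, or_false, not_or, List.toFinset_cons, List.toFinset_nil, insert_empty_eq, Finset.mem_insert, Finset.mem_singleton] using hx), sub_self]).symm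
  rw [List.sum_toFinset _ q.nd, Finset.sum_sub_distrib] at k
  obtain ⟨n1, n2⟩ := fG_nxt hv (hs.fl q) q.sp.f1
  obtain ⟨n3, n4⟩ := fG_nxt hv (hs.fl q) q.sp.f2
  obtain ⟨n5, n6⟩ := fG_nxt hv hs q.f1
  obtain ⟨n7, n8⟩ := fG_nxt hv hs q.f2
  simp only [List.map_cons, List.map_nil, List.sum_cons, List.sum_nil] at k
  rw [dG_fl hv hs q, valG, valG]
  linarith

theorem Gd.val_fl (hv : Orb v) (hs : Gd v s) (d : Dr E) :
    valG v (fl s d) = valG v s + 3 * dG v s d := by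
  obtain ⟨a, b, c, e, q⟩ := hs.qd hv d
  exact CR.val_fl hv hs.ok q

theorem Gd.rev (hv : Orb v) (hs : Gd v s) (d : Dr E) :
    fl s (rev d) = fl s d ∧ dG v s (rev d) = dG v s d := by
  obtain ⟨a, b, c, e, q⟩ := hs.qd hv d
  have h := fl_rev hs.ok q
  have h1 := hs.val_fl hv d
  have h2 := hs.val_fl hv (MP_596265_gt.rev d)
  rw [h] at h2
  exact ⟨h, by linarith only [h1, h2]⟩

theorem R.le (hv : Orb v) (h : R v s t) : valG v t ≤ valG v s := by
  obtain ⟨h, h' | ⟨d, hd, rfl⟩⟩ := h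
  · exact h'.val.le
  · rw [h.val_fl hv]; linarith

theorem adj (hv : Orb v) (hs : Gd v s) {d : Dr E} (ht : Gd v (fl s d)) (h : 0 ≤ dG v s d) :
    ReflTransGen (R v) (fl s d) s := by
  obtain ⟨a, b, c, e, q⟩ := hs.qd hv d
  have i := fl_fl hs.ok q
  have h1 := hs.val_fl hv d
  have h2 := ht.val_fl hv d
  have h3 := i.val (v := v)
  have h4 : dG v (fl s d) d ≤ 0 := by linarith
  exact .head ⟨ht, .inr ⟨d, h4, rfl⟩⟩ (.single ⟨ht.flip hv h4, .inl i⟩)

theorem adj' (hv : Orb v) (hs : Gd v s) {d : Dr E} (ht : Gd v (fl s d)) :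
    Join (ReflTransGen (R v)) s (fl s d) := by
  rcases le_total 0 (dG v s d) with h | h
  · exact ⟨s, .refl, adj hv hs ht h⟩
  · exact ⟨_, .single ⟨hs, .inr ⟨d, h, rfl⟩⟩, .refl⟩

theorem R.tie (hv : Orb v) (h : R v s t) (h' : valG v s ≤ valG v t) : ReflTransGen (R v) t s := by
  have ht := h.gd hv
  obtain ⟨h, h1 | ⟨d, hd, rfl⟩⟩ := h
  · exact .single ⟨ht, .inl h1.symm⟩
  · rw [h.val_fl hv] at h'
    exact adj hv h ht (by linarith)

theorem pent (hv : Orb v) (hs : Gd v s) {d e : Dr E} (hn : s.1 d = e) (h1 : dG v s d ≤ 0)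
    (h2 : dG v s e ≤ 0) : R v (fl s d) (fl (fl s d) e) ∧ R v (fl s e) (fl (fl s e) d) ∧
      Join (ReflTransGen (R v)) (fl (fl s d) e) (fl (fl s e) d) ∧
      (dG v s d < 0 → valG v (fl (fl s e) d) < valG v s) ∧
      (dG v s e < 0 → valG v (fl (fl s d) e) < valG v s) := by
  obtain ⟨e, m, c, h, q⟩ := hs.qd hv d
  obtain rfl := q.f1.1.symm.trans hn
  obtain ⟨m', d', p, r, q'⟩ := hs.qd hv e
  obtain rfl := q.f1.2.1.symm.trans q'.f1.1
  obtain rfl := q.f1.2.2.symm.trans q'.f1.2.1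
  obtain ⟨t1, t2⟩ := two hv hs q h1 h2
  have nd : [d, e, m, rev d, c, h, rev e, p, r].Nodup := by
    have n1 := q.nd
    have n2 := q'.nd
    obtain ⟨a1, a2, a3⟩ := q.f2
    obtain ⟨b1, b2, b3⟩ := q'.f2
    have t3 : rev e ≠ rev d := fun t => by
      have := congrArg rev t
      rw [rev_rev, rev_rev] at this
      simp only [nb, np] at n1
      exact n1.1.1 this.symm
    simp only [List.nodup_cons, List.mem_cons, List.not_mem_nil, or_false, not_or] at n1 n2 ⊢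
    grind
  obtain ⟨-, -, q3, q4, q5, i⟩ := fl_pent hs.ok q.f1 q.f2 q'.f2 nd
  have N : [d, e, m, rev d, c, h, rev e, p, r].Nodup ∧ [r, p, rev e, h, c, rev d, m, e, d].Nodup :=
    ⟨nd, List.nodup_reverse.2 nd⟩
  simp only [nb, np] at N
  have r0 := hs.ok.face q.f1
  have g1 := hs.flip hv h1
  have g2 := hs.flip hv h2
  have D0 := hs.pos d
  have D1 := hs.pos (rev d)
  have D2 := hs.pos (rev e)
  rw [fG, q.f1.1] at D0
  rw [fG_rev hv q] at D1
  rw [fG_eq hv q'.f2.1 (g₀ := dlab s.2 d * dlab s.2 e) (g₁ := dlab s.2 d)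
    (by rw [dlab_rev, mul_inv_cancel_right]) rfl] at D2
  have u0 := dG_eq hv q.f1.1 q.f2.1 (one_mul _) rfl (one_mul _)
  have u4 := dG_eq hv q'.f1.1 q'.f2.1 (g₀ := dlab s.2 d) rfl r0 rfl
  have u1 := dG_eq hv q3.f1.1 q3.f2.1 (g₀ := dlab s.2 d) (g₁ := dlab s.2 d * dlab s.2 e)
    (g₂ := dlab s.2 c) (g₃ := dlab s.2 d * dlab s.2 p) (by rw [q.sp.lo e (by simp only [nb, np, N]) (by simp only [nb, np, N])])
    (by rw [q.sp.l2, ← mul_assoc, r0, one_mul]) (by rw [q.sp.lo p (by simp only [nb, np, N]) (by simp only [nb, np, N])])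
  have u3 := dG_eq hv q4.f1.1 q4.f2.1 (g₀ := 1) (g₁ := dlab s.2 d)
    (g₂ := dlab s.2 d * dlab s.2 p) (g₃ := dlab s.2 c)
    (by rw [q'.sp.lo d (by simp only [nb, np, N]) (by simp only [nb, np, N]), one_mul]) (by rw [q'.sp.lo p (by simp only [nb, np, N]) (by simp only [nb, np, N])])
    (by rw [q'.sp.lo c (by simp only [nb, np, N]) (by simp only [nb, np, N]), one_mul])
  have D3 := (del0 D0 D1 (u0 ▸ h1)).2
  have D4 := (del0 (by rwa [hD_cyc]) D2 (u4 ▸ h2)).1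
  have P1 := pent1 (v 1) (v (dlab s.2 d)) (v (dlab s.2 d * dlab s.2 e)) (v (dlab s.2 c))
    (v (dlab s.2 d * dlab s.2 p))
  have P2 := pent2 (v 1) (v (dlab s.2 d)) (v (dlab s.2 d * dlab s.2 e)) (v (dlab s.2 c))
    (v (dlab s.2 d * dlab s.2 p))
  rw [← u0, ← u4, ← u1] at P1
  rw [← u0, ← u4, ← u3] at P2
  have a1 := mul_nonpos_of_nonneg_of_nonpos D2.le h1
  have a2 := mul_nonpos_of_nonneg_of_nonpos D3.le h2
  have a3 := mul_nonpos_of_nonneg_of_nonpos D1.le h2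
  have a4 := mul_nonpos_of_nonneg_of_nonpos D4.le h1
  have k1 : dG v (fl s d) e ≤ 0 := nonpos_of_mul_nonpos_right (by linarith only [P1, a1, a2]) D0
  have k2 : dG v (fl s e) d ≤ 0 := nonpos_of_mul_nonpos_right (by linarith only [P2, a3, a4]) D0
  have g3 := g1.flip hv k1
  have g4 := g2.flip hv k2
  refine ⟨⟨g1, .inr ⟨e, k1, rfl⟩⟩, ⟨g2, .inr ⟨d, k2, rfl⟩⟩, ?_, fun h => ?_, fun h => ?_⟩
  · obtain ⟨w, w1, w2⟩ := adj' hv g3 (i.gd g4)
    exact ⟨w, w1, .head ⟨g4, .inl i⟩ w2⟩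
  · have := neg_of_mul_neg_right (show _ * dG v (fl s e) d < 0 by
      rw [P2]; linarith only [mul_neg_of_pos_of_neg D4 h, a3]) D0.le
    rw [g2.val_fl hv, hs.val_fl hv]
    linarith only [h2, this]
  · have := neg_of_mul_neg_right (show _ * dG v (fl s d) e < 0 by
      rw [P1]; linarith only [mul_neg_of_pos_of_neg D3 h, a1]) D0.le
    rw [g1.val_fl hv, hs.val_fl hv]
    linarith only [h1, this]

theorem core (hv : Orb v) (hs : Gd v s) {d e : Dr E} (h1 : dG v s d < 0) (h2 : dG v s e ≤ 0) :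
    ∃ y, (y = fl s e ∨ R v (fl s e) y) ∧ valG v y < valG v s ∧
      Join (ReflTransGen (R v)) (fl s d) y := by
  have A : ∀ d e : Dr E, dG v s d < 0 → dG v s e ≤ 0 → e = d ∨ e = s.1 d ∨ e = s.1 (s.1 d) →
      ∃ y, (y = fl s e ∨ R v (fl s e) y) ∧ valG v y < valG v s ∧
        Join (ReflTransGen (R v)) (fl s d) y := by
    rintro d e h1 h2 (rfl | rfl | rfl)
    · exact ⟨_, .inl rfl, by rw [hs.val_fl hv]; linarith, _, .refl, .refl⟩
    · obtain ⟨a1, a2, ⟨w, a3, a4⟩, a5, -⟩ := pent hv hs rfl h1.le h2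
      exact ⟨_, .inr a2, a5 h1, w, .head a1 a3, a4⟩
    · obtain ⟨a1, a2, ⟨w, a3, a4⟩, -, a5⟩ := pent hv hs (hs.ok.cube d) h2 h1.le
      exact ⟨_, .inr a1, a5 h1, w, .head a2 a4, a3⟩
  obtain ⟨a, b, c, h, q⟩ := hs.qd hv d
  have B : ∀ e : Dr E, dG v s e ≤ 0 → e ∈ [d, a, b, rev d, c, h] →
      ∃ y, (y = fl s e ∨ R v (fl s e) y) ∧ valG v y < valG v s ∧
        Join (ReflTransGen (R v)) (fl s d) y := by
    intro e h2 he
    simp only [List.mem_cons, List.not_mem_nil, or_false] at he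
    rw [← or_assoc, ← or_assoc, or_assoc (a := e = d)] at he
    rcases he with he | he
    · exact A d e h1 h2 (by rwa [q.f1.1, q.f1.2.1])
    · rw [← (hs.rev hv d).1]
      exact A (rev d) e (by rwa [(hs.rev hv d).2]) h2 (by rwa [q.f2.1, q.f2.2.1])
  by_cases c1 : e ∈ [d, a, b, rev d, c, h]
  · exact B e h2 c1
  by_cases c2 : rev e ∈ [d, a, b, rev d, c, h]
  · rw [← (hs.rev hv e).1]
    exact B _ (by rwa [(hs.rev hv e).2]) c2
  obtain ⟨a', b', c', h', q'⟩ := hs.qd hv e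
  obtain ⟨r, r', eq, dj⟩ := fl_comm q q' c1 c2
  have dj' : ∀ x ∈ [d, a, b, rev d, c, h], x ∉ [e, a', b', rev e, c', h'] :=
    fun x hx hx' => dj x hx' hx
  simp only [List.mem_cons, List.not_mem_nil, or_false, not_or, forall_eq_or_imp, forall_eq]
    at dj dj'
  have k1 : dG v (fl s e) d = dG v s d := by
    rw [dG, dG, r'.f1.1, r'.f2.1, q.f1.1, q.f2.1, q'.sp.lo d (by simp only [nb, np, dj, dj']) (by simp only [nb, np, dj, dj']),
      q'.sp.lo a (by simp only [nb, np, dj, dj']) (by simp only [nb, np, dj, dj']), q'.sp.lo c (by simp only [nb, np, dj, dj']) (by simp only [nb, np, dj, dj'])]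
  have k2 : dG v (fl s d) e = dG v s e := by
    rw [dG, dG, r.f1.1, r.f2.1, q'.f1.1, q'.f2.1, q.sp.lo e (by simp only [nb, np, dj, dj']) (by simp only [nb, np, dj, dj']),
      q.sp.lo a' (by simp only [nb, np, dj, dj']) (by simp only [nb, np, dj, dj']), q.sp.lo c' (by simp only [nb, np, dj, dj']) (by simp only [nb, np, dj, dj'])]
  have g2 := hs.flip hv h2
  refine ⟨fl (fl s e) d, .inr ⟨g2, .inr ⟨d, by linarith only [h1, k1], rfl⟩⟩, ?_, _,
    .single ⟨hs.flip hv h1.le, .inr ⟨e, by linarith only [h2, k2], eq.symm⟩⟩, .refl⟩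
  rw [g2.val_fl hv, hs.val_fl hv]
  linarith only [h1, h2, k1]

theorem R.lc (hv : Orb v) (a b c : St E Γ) (hb : R v a b) (hc : R v a c)
    (h : valG v b < valG v a) :
    ∃ y, (y = c ∨ R v c y) ∧ valG v y < valG v a ∧ Join (ReflTransGen (R v)) b y := by
  have gb := hb.gd hv
  have gc := hc.gd hv
  obtain ⟨ha, h1 | ⟨d, -, rfl⟩⟩ := hb
  · exact absurd h1.val h.ne
  have hd : dG v a d < 0 := by rw [ha.val_fl hv] at h; linarith
  obtain ⟨-, ⟨σ, h2, h3⟩ | ⟨e, he, rfl⟩⟩ := hc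
  · have i := Is.fl h2 h3 d
    exact ⟨_, .inr ⟨gc, .inr ⟨σ d, by rw [(is_fG h2 h3 d).2]; exact hd.le, rfl⟩⟩,
      by rwa [i.val], _, .single ⟨gb, .inl i⟩, .refl⟩
  · exact core hv ha hd he

end Pool.Agent.MP_596265_gt.U.CR

end

section

/-! Block D, Church-Rosser, part 4: persistence of the equivalence and the shortest edge. -/

namespace Pool.Agent.MP_596265_gt.U.CR

open Erg Real UpperHalfPlane Relation Filter Topology Set

section gen
variable {E Γ : Type} [Group Γ] [DecidableEq E] {v : Γ → ℍ} {s t : St E Γ}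

theorem R.short (hv : Orb v) (h : R v s t) (x : Dr E) :
    ∃ y, ch (v 1) (v (dlab t.2 y)) ≤ ch (v 1) (v (dlab s.2 x)) := by
  obtain ⟨hs, ⟨σ, -, h2⟩ | ⟨d, hd, rfl⟩⟩ := h
  · exact ⟨σ x, by rw [h2]⟩
  obtain ⟨a, b, c, h, q⟩ := hs.qd hv d
  have nd := q.nd
  have k : ∃ y, ch (v 1) (v (dlab (fl s d).2 y)) ≤ ch (v 1) (v (dlab s.2 d)) := by
    have D1 := hs.pos d
    have D2 := hs.pos (rev d)
    rw [fG_rev hv q] at D2
    rw [fG, q.f1.1] at D1
    rw [dG, q.f1.1, q.f2.1] at hd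
    have m := mg_eq (v 1) (v (dlab s.2 d)) (v (dlab s.2 d * dlab s.2 a)) (v (dlab s.2 c))
    have a1 : ch (v (dlab s.2 d * dlab s.2 a)) (v (dlab s.2 d)) = ch (v 1) (v (dlab s.2 a)) := by
      rw [ch_comm]; exact hv.ch (by group)
    rw [a1, ch_comm (v (dlab s.2 c)) (v 1)] at m
    by_contra! hc
    have c1 := hc a
    have c2 := hc c
    rw [q.sp.lo a (by grind) (by grind)] at c1
    rw [q.sp.lo c (by grind) (by grind)] at c2
    have l1 := one_le_ch (v 1) (v (dlab s.2 d))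
    have l2 := one_le_ch (v (dlab s.2 c)) (v (dlab s.2 d))
    have l3 := one_le_ch (v (dlab s.2 d * dlab s.2 a)) (v 1)
    linarith only [mul_nonneg (neg_nonneg.2 hd) (show 0 ≤ 1 + ch (v 1) (v (dlab s.2 d)) by linarith only [l1]), mul_pos D1 (sub_pos.2 c2), mul_pos D2 (sub_pos.2 c1), mul_nonneg D1.le (sub_nonneg.2 l2), mul_nonneg D2.le (sub_nonneg.2 l3), m]
  by_cases h1 : x = d
  · rwa [h1]
  by_cases h2 : x = rev d
  · rwa [h2, dlab_rev, hv.ch (x := 1) (y := (dlab s.2 d)⁻¹) (x' := dlab s.2 d) (y' := 1) (by group),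
      ch_comm (v (dlab s.2 d))]
  exact ⟨x, by rw [q.sp.lo x h1 h2]⟩

theorem rtg_gd (hv : Orb v) (h : ReflTransGen (R v) s t) (hs : Gd v s) : Gd v t := by
  induction h with
  | refl => exact hs
  | tail _ h _ => exact h.gd hv

end gen

variable {g : ℕ} {M : Tup g} {z : ℍ} {τ τ' : MS g}

/-- The labels in the surface group. -/
def key (τ : MS g) : St (Ed g) (Fr g ⧸ NN g) := (τ.1, fun x => QuotientGroup.mk' (NN g) (τ.2 x))

noncomputable def pt (M : Tup g) (z : ℍ) (c : Fr g ⧸ NN g) : ℍ := FreeGroup.lift M c.out • z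

theorem pt_mk (hM : Fm M) (w : Fr g) :
    pt M z (QuotientGroup.mk' (NN g) w) = FreeGroup.lift M w • z :=
  DF.smul_of_eqN hM (DF.eqN_iff.2 (QuotientGroup.out_eq' _)) z

theorem orb (hM : Fm M) (z : ℍ) : Orb (pt M z) := fun c => by
  obtain ⟨c, rfl⟩ := QuotientGroup.mk'_surjective (NN g) c
  refine ⟨FreeGroup.lift M c, fun x => ?_⟩
  obtain ⟨x, rfl⟩ := QuotientGroup.mk'_surjective (NN g) x
  rw [← map_mul, pt_mk hM, pt_mk hM, map_mul, mul_smul]

theorem dlab_key (τ : MS g) (d : Dr (Ed g)) :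
    dlab (key τ).2 d = QuotientGroup.mk' (NN g) (dlab τ.2 d) := DF.map_dlab _ _ d

theorem pt_one (hM : Fm M) : pt M z 1 = z := by
  rw [← map_one (QuotientGroup.mk' (NN g)), pt_mk hM, map_one, one_smul]

theorem pt_key (hM : Fm M) (τ : MS g) (d : Dr (Ed g)) :
    pt M z (dlab (key τ).2 d) = vQ (geo M τ.2) z d := by
  rw [dlab_key, pt_mk hM, vQ, DF.dlab_geo]

theorem pt_key2 (hM : Fm M) (τ : MS g) (d : Dr (Ed g)) :
    pt M z (dlab (key τ).2 d * dlab (key τ).2 ((key τ).1 d)) = vR τ.1 (geo M τ.2) z d := by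
  rw [dlab_key, dlab_key, ← map_mul, pt_mk hM, vR, DF.dlab_geo, DF.dlab_geo, map_mul]
  rfl

theorem fG_key (hM : Fm M) (τ : MS g) (d : Dr (Ed g)) :
    fG (pt M z) (key τ) d = fD τ.1 (geo M τ.2) z d := by
  rw [fG, pt_key2 hM, pt_key hM, pt_one hM, fD]

theorem dG_key (hM : Fm M) (τ : MS g) (d : Dr (Ed g)) :
    dG (pt M z) (key τ) d = dV τ.1 (geo M τ.2) z d := by
  rw [dG, pt_key2 hM, pt_key hM, pt_key hM, pt_one hM]
  rfl

theorem key_flip (τ : MS g) (d : Dr (Ed g)) : key (flip τ d) = fl (key τ) d :=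
  Prod.ext rfl (DF.map_flb _ _ _ d)

theorem is_key : Is (key τ) (key τ') ↔ Iso τ τ' :=
  exists_congr fun σ => and_congr_right fun _ => forall_congr' fun d => by
    rw [dlab_key, dlab_key]; exact DF.eqN_iff.symm

theorem key_surj (t : St (Ed g) (Fr g ⧸ NN g)) : ∃ τ, key τ = t :=
  ⟨(t.1, fun x => (t.2 x).out), Prod.ext rfl (funext fun _ => QuotientGroup.out_eq' _)⟩

theorem ps_key (hM : Fm M) (h : Gd (pt M z) (key τ)) : Ps M z τ := fun d => by
  rw [← fG_key hM]; exact h.pos d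

theorem gd_key (hT : TAx g) (hM : Fm M) (h : MT τ) (hp : Ps M z τ) : Gd (pt M z) (key τ) := by
  refine ⟨⟨h.1.cube, h.1.ne, fun d => ?_⟩, fun d => by rw [fG_key hM]; exact hp d⟩
  rw [fp, dlab_key, dlab_key, dlab_key, ← map_mul, ← map_mul]
  exact (QuotientGroup.eq_one_iff _).2 (hT.flat h d)

theorem lift_rtg (hT : TAx g) (hM : Fm M) (h : MT τ) (hp : Ps M z τ) {t}
    (ht : ReflTransGen (R (pt M z)) (key τ) t) : ∀ τ', key τ' = t → Eqv M z τ τ' ∧
      ∀ r, DF.Rad r τ.1 (geo M τ.2) z → DF.Rad r τ'.1 (geo M τ'.2) z := by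
  induction ht with
  | refl =>
    intro τ' e
    have i : Iso τ τ' := is_key.1 (e ▸ Is.refl _)
    exact ⟨.rel _ _ (.iso h hp i), fun r => DF.Rad.iso hM i⟩
  | @tail u w _ h2 ih =>
    rintro τ' rfl
    obtain ⟨τ₁, rfl⟩ := key_surj u
    obtain ⟨a1, a2⟩ := ih τ₁ rfl
    obtain ⟨b1, b2⟩ := (DF.eqv_ok hT hM a1).1 ⟨h, hp⟩
    obtain ⟨c0, c1 | ⟨d, c1, c2⟩⟩ := h2
    · exact ⟨.trans _ _ _ a1 (.rel _ _ (.iso b1 b2 (is_key.1 c1))),
        fun r hr => DF.Rad.iso hM (is_key.1 c1) (a2 r hr)⟩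
    · have c3 := c0.flip (orb hM z) c1
      rw [← key_flip] at c2 c3
      rw [dG_key hM] at c1
      have i : Iso (flip τ₁ d) τ' := is_key.1 (c2 ▸ Is.refl _)
      have m : Mv M z τ₁ (flip τ₁ d) := .flip d b1 b2 (ps_key hM c3)
      refine ⟨.trans _ _ _ (.trans _ _ _ a1 (.rel _ _ m)) (.rel _ _ (.iso
        (DF.mv_ok hT hM m).2.1 (ps_key hM c3) i)), fun r hr => DF.Rad.iso hM i ?_⟩
      have := DF.Rad.flip (DF.gs_of hT hM b1 b2) (DF.ps_flip_iff.1 (ps_key hM c3)) c1 (a2 r hr)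
      rwa [← DF.geo_flb] at this

/-- The finiteness clause of block D. -/
def FinP (g : ℕ) : Prop :=
  ∀ {τ : MS g} {C : Set (Tup g × ℍ)} (R : ℝ), MT τ → IsCompact C →
    (∀ q ∈ C, Fm q.1 ∧ Ps q.1 q.2 τ) → ∃ S : Finset (Fr g), ∀ q ∈ C, ∀ τ', Eqv q.1 q.2 τ τ' →
      ∀ d, dist q.2 (vQ (geo q.1 τ'.2) q.2 d) ≤ R → ∃ s ∈ S, EqN (dlab τ'.2 d) s

theorem fin_desc (hT : TAx g) (hF : FinP g) (hM : Fm M) (h : MT τ) (hp : Ps M z τ) :
    {t | ReflTransGen (R (pt M z)) (key τ) t}.Finite := by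
  obtain ⟨r, hr⟩ := (finite_range fun d => ch z (vQ (geo M τ.2) z d)).bddAbove
  have h0 := DF.rad_init (DF.gs_of hT hM h hp).flat fun d => hr ⟨d, rfl⟩
  obtain ⟨S, hS⟩ := hF (C := {(M, z)}) (2 * r - 1) h isCompact_singleton
    (by rintro _ rfl; exact ⟨hM, hp⟩)
  refine ((finite_univ (α := Nx (Ed g))).prod (Finite.pi' fun _ : Ed g =>
    S.finite_toSet.image (QuotientGroup.mk' (NN g)))).subset fun t ht => ⟨trivial, fun x => ?_⟩
  obtain ⟨τ', rfl⟩ := key_surj t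
  obtain ⟨a1, a2⟩ := lift_rtg hT hM h hp ht τ' rfl
  obtain ⟨s, s1, s2⟩ := hS _ rfl τ' a1 (x, true) (le_trans
    ((self_le_sinh_iff.2 dist_nonneg).trans (sinh_lt_cosh _).le) ((a2 r h0).edge (x, true)))
  exact ⟨s, s1, (DF.eqN_iff.1 s2).symm⟩

/-- The Church-Rosser property. -/
theorem join_of_eqv (hT : TAx g) (hF : FinP g) (hM : Fm M) (e : Eqv M z τ τ') :
    MT τ ∧ Ps M z τ → Join (ReflTransGen (R (pt M z))) (key τ) (key τ') := by
  have hv := orb hM z
  induction e with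
  | rel x y m =>
    intro h
    cases m with
    | iso h1 h2 h3 => exact ⟨_, .single ⟨gd_key hT hM h1 h2, .inl (is_key.2 h3)⟩, .refl⟩
    | flip d h1 h2 h3 =>
      have := gd_key hT hM (DF.mv_ok hT hM (.flip d h1 h2 h3)).2.1 h3
      rw [key_flip] at this ⊢
      exact adj' hv (gd_key hT hM h1 h2) this
  | refl x => exact fun _ => ⟨_, .refl, .refl⟩
  | symm x y e ih =>
    intro h
    obtain ⟨c, h1, h2⟩ := ih ((DF.eqv_ok hT hM e).2 h)
    exact ⟨c, h2, h1⟩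
  | trans x y w e _ ih ih' =>
    intro h
    have h' := (DF.eqv_ok hT hM e).1 h
    obtain ⟨c, h1, h2⟩ := ih h
    obtain ⟨c', h3, h4⟩ := ih' h'
    obtain ⟨u, h5, h6⟩ := confl (f := valG (pt M z)) (fun _ _ => R.le hv) (fun _ _ => R.tie hv)
      (R.lc hv) (fin_desc hT hF hM h'.1 h'.2) h2 h3
    exact ⟨u, h1.trans h5, h4.trans h6⟩

theorem cont_hD {P : Type} [TopologicalSpace P] {a b c : P → ℍ} (ha : Continuous a)
    (hb : Continuous b) (hc : Continuous c) : Continuous fun p => hD (a p) (b p) (c p) := by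
  simp only [hD, hdet, det3, Φ]
  refine Continuous.div (by fun_prop) (by fun_prop) fun p => ?_
  exact (mul_pos (mul_pos (a p).im_pos (b p).im_pos) (c p).im_pos).ne'

theorem cont_act (w : Fr g) : Continuous fun q : Tup g × ℍ => FreeGroup.lift q.1 w • q.2 :=
  ((continuous_lift w).comp continuous_fst).smul continuous_snd

theorem ps_open (hp : Ps M z τ) : ∀ᶠ q in 𝓝 (M, z), Ps q.1 q.2 τ := by
  refine eventually_all.2 fun d => ?_
  have : Continuous fun q : Tup g × ℍ => fD τ.1 (geo q.1 τ.2) q.2 d := by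
    simp only [fD, vQ, vR, DF.dlab_geo, ← map_mul]
    exact cont_hD continuous_snd (cont_act _) (cont_act _)
  exact (this.tendsto (M, z)).eventually (lt_mem_nhds (hp d))

theorem eqv_open (e : Eqv M z τ τ') : ∀ᶠ q in 𝓝 (M, z), Eqv q.1 q.2 τ τ' := by
  induction e with
  | rel x y m =>
    cases m with
    | iso h1 h2 h3 => exact (ps_open h2).mono fun q h => .rel _ _ (.iso h1 h h3)
    | flip d h1 h2 h3 =>
      exact ((ps_open h2).and (ps_open h3)).mono fun q h => .rel _ _ (.flip d h1 h.1 h.2)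
  | refl x => exact .of_forall fun _ => .refl _
  | symm x y _ ih => exact ih.mono fun q h => .symm _ _ h
  | trans x y w _ _ ih ih' => exact (ih.and ih').mono fun q h => .trans _ _ _ h.1 h.2

/-- Descendants at nearby points are descendants. -/
theorem desc_near (hT : TAx g) (hF : FinP g) (hM : Fm M) (h : MT τ) (hp : Ps M z τ) :
    ∀ᶠ q in 𝓝 (M, z), ∀ t, ReflTransGen (R (pt q.1 q.2)) (key τ) t →
      ReflTransGen (R (pt M z)) (key τ) t := by
  have k : ∀ᶠ q in 𝓝 (M, z), ∀ t ∈ {t | ReflTransGen (R (pt M z)) (key τ) t}, ∀ d,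
      0 < dG (pt M z) t d → 0 < dG (pt q.1 q.2) t d := by
    refine (eventually_all_finite (fin_desc hT hF hM h hp)).2 fun t _ => eventually_all.2 fun d => ?_
    have c := fun w : Fr g ⧸ NN g => cont_act w.out
    have : Continuous fun q : Tup g × ℍ => dG (pt q.1 q.2) t d :=
      (((cont_hD (c _) (c _) (c _)).add (cont_hD (c _) (c _) (c _))).sub
        (cont_hD (c _) (c _) (c _))).sub (cont_hD (c _) (c _) (c _))
    by_cases h0 : 0 < dG (pt M z) t d
    · exact ((this.tendsto (M, z)).eventually (lt_mem_nhds h0)).mono fun q hq _ => hq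
    · exact .of_forall fun q hq => absurd hq h0
  refine k.mono fun q hq t ht => ?_
  induction ht with
  | refl => exact .refl
  | @tail u w _ h2 ih =>
    refine ih.tail ⟨rtg_gd (orb hM z) ih (gd_key hT hM h hp), h2.2.imp id ?_⟩
    rintro ⟨d, h3, h4⟩
    exact ⟨d, le_of_not_gt fun h5 => (hq u ih d h5).not_ge h3, h4⟩

/-- The clause `loc` of block D. -/
theorem loc (hT : TAx g) (hF : FinP g) (hM : Fm M) (h : MT τ) (h' : MT τ') (hp : Ps M z τ)
    (hp' : Ps M z τ') : ∀ᶠ q in 𝓝 (M, z), Fm q.1 → (Eqv q.1 q.2 τ τ' ↔ Eqv M z τ τ') := by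
  by_cases e : Eqv M z τ τ'
  · exact (eqv_open e).mono fun q hq _ => iff_of_true hq e
  filter_upwards [desc_near hT hF hM h hp, desc_near hT hF hM h' hp', ps_open hp] with q a b c hq
  refine iff_of_false (fun e' => e ?_) e
  obtain ⟨t, h1, h2⟩ := join_of_eqv hT hF hq e' ⟨h, c⟩
  obtain ⟨σ, rfl⟩ := key_surj t
  exact .trans _ _ _ (lift_rtg hT hM h hp (a _ h1) σ rfl).1
    (.symm _ _ (lift_rtg hT hM h' hp' (b _ h2) σ rfl).1)

/-- A weakly Delaunay state is reached from every equivalent state by Delaunay moves. -/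
theorem desc_of_dl (hT : TAx g) (hF : FinP g) (hM : Fm M) (h : MT τ) (hp : Ps M z τ)
    (e : Eqv M z τ τ') (hd : Dl M z τ') : ReflTransGen (R (pt M z)) (key τ) (key τ') := by
  have hv := orb hM z
  obtain ⟨t, h1, h2⟩ := join_of_eqv hT hF hM e ⟨h, hp⟩
  refine h1.trans (stay (f := valG (pt M z)) (fun _ _ => R.le hv) (fun _ _ => R.tie hv)
    (R.lc hv) ?_ h2)
  rintro b ⟨b1, b2 | ⟨d, -, rfl⟩⟩
  · exact b2.val.ge
  · have := hd d
    rw [b1.val_fl hv, dG_key hM]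
    linarith

/-- The clause `sys` of block D. -/
theorem sys (hT : TAx g) (hF : FinP g) (hM : Fm M) (h : MT τ) (hp : Ps M z τ)
    (e : Eqv M z τ τ') (hd : Dl M z τ') (d : Dr (Ed g)) :
    ∃ d', dist z (vQ (geo M τ'.2) z d') ≤ dist z (vQ (geo M τ.2) z d) := by
  have k : ∀ t, ReflTransGen (R (pt M z)) (key τ) t → ∃ y, ch (pt M z 1) (pt M z (dlab t.2 y)) ≤
      ch (pt M z 1) (pt M z (dlab (key τ).2 d)) := by
    intro t ht
    induction ht with
    | refl => exact ⟨d, le_rfl⟩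
    | tail _ h2 ih =>
      obtain ⟨y, hy⟩ := ih
      obtain ⟨y', hy'⟩ := h2.short (orb hM z) y
      exact ⟨y', hy'.trans hy⟩
  obtain ⟨y, hy⟩ := k _ (desc_of_dl hT hF hM h hp e hd)
  rw [pt_one hM, pt_key hM, pt_key hM, ch, ch, cosh_le_cosh, abs_of_nonneg dist_nonneg,
    abs_of_nonneg dist_nonneg] at hy
  exact ⟨y, hy⟩

end Pool.Agent.MP_596265_gt.U.CR

end

section

/-! Block D: weakly Delaunay states have circumscribed discs; matrix lemmas for the edge bound. -/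

namespace Pool.Agent.MP_596265_gt.U.DM

open Erg Real UpperHalfPlane Set Filter Topology Matrix

noncomputable section

variable {E : Type} {n : Nx E} {L : E → G} {z : ℍ}

theorem ch_smul (A : G) (p q : ℍ) : ch (A • p) (A • q) = ch p q := by
  rw [ch, ch, dist_smul]

theorem hD_smul_pos (A : G) {p q r : ℍ} (h : 0 < hD p q r) : 0 < hD (A • p) (A • q) (A • r) := by
  obtain ⟨c, hc, e⟩ := hdet_smul A p q r
  have h1 := (hD_pos (ν := 1) (p := p) (q := q) (r := r)).1 (by rwa [one_mul])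
  have h2 := (hD_pos (ν := 1) (p := A • p) (q := A • q) (r := A • r)).2 (by
    rw [one_mul, e]; rw [one_mul] at h1; positivity)
  rwa [one_mul] at h2

/-- cosh of the length of a dart -/
def cc (L : E → G) (z : ℍ) (d : Dr E) : ℝ := ch z (vQ L z d)

theorem cc_ge (d : Dr E) : 1 ≤ cc L z d := one_le_ch _ _

theorem cc_rev (d : Dr E) : cc L z (rev d) = cc L z d := by
  rw [cc, cc, vQ, vQ, dlab_rev, ← ch_smul (dlab L d), smul_inv_smul, ch_comm]

theorem ch_QR (d : Dr E) : ch (vQ L z d) (vR n L z d) = cc L z (n d) := by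
  rw [vQ, vR, mul_smul, ch_smul]; rfl

theorem flat_pm (h : Flat n L) (d : Dr E) :
    PM (dlab L d * dlab L (n d)) (dlab L (rev (n (n d)))) := by
  have := (h d).mul (PM.refl (dlab L (n (n d)))⁻¹)
  rwa [fp, mul_inv_cancel_right, one_mul, ← dlab_rev] at this

theorem vR_eq (h : Flat n L) (d : Dr E) : vR n L z d = vQ L z (rev (n (n d))) :=
  (flat_pm h d).smul_eq z

theorem ch_zR (h : Flat n L) (d : Dr E) : ch z (vR n L z d) = cc L z (n (n d)) := by
  rw [vR_eq h, ← cc_rev]; rfl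

theorem vS_eq (d : Dr E) : vS n L z d = dlab L d • vR n L z (rev d) := by
  rw [vS, vR, dlab_rev, mul_smul, smul_inv_smul]

theorem z_eq (d : Dr E) : z = dlab L d • vQ L z (rev d) := by
  rw [vQ, dlab_rev, smul_inv_smul]

/-- excess of a side -/
def kk (n : Nx E) (L : E → G) (z : ℍ) (d : Dr E) : ℝ :=
  1 + cc L z d - cc L z (n d) - cc L z (n (n d))
def HH (n : Nx E) (L : E → G) (z : ℍ) (d : Dr E) : ℝ :=
  (cc L z (n d) - 1) * (cc L z (n (n d)) - 1) - kk n L z d ^ 2 / 4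

theorem HH_nx (h : ∀ d, n (n (n d)) = d) (d : Dr E) : HH n L z (n d) = HH n L z d := by
  simp only [HH, kk, h]; ring

theorem hH_eq (h : Flat n L) (d : Dr E) : hH z (vQ L z d) (vR n L z d) = HH n L z d := by
  simp only [hH, kS, HH, kk, ch_comm (vR n L z d) (vQ L z d), ch_QR, ch_zR h]
  change (_ - 1) * (cc L z d - 1) - (1 + _ - _ - cc L z d) ^ 2 / 4 = _
  ring

theorem del_step (hG : Gs n L z) (hD' : Del n L z) {d : Dr E} (h1 : HH n L z d < 0)
    (h2 : 0 < kk n L z d) : HH n L z (rev d) < 0 ∧ kk n L z (rev d) < 0 := by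
  have e1 : ch z (vS n L z d) = cc L z (n (rev d)) := rfl
  have e2 : ch (vQ L z d) (vS n L z d) = cc L z (n (n (rev d))) := by
    rw [vS_eq, vQ, ch_smul, ch_zR hG.flat]
  have e0 : ch z (vQ L z d) = cc L z d := rfl
  have p1 : 0 < hD z (vQ L z d) (vR n L z d) := hG.pos d
  have p2 : 0 < hD (vQ L z d) z (vS n L z d) := by
    have := hD_smul_pos (dlab L d) (hG.pos (rev d))
    rwa [← z_eq, ← vS_eq] at this
  have := delaunay (ν := 1) (Or.inl rfl) (p := vQ L z d) (r := vR n L z d) (q := z)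
    (s := vS n L z d) (by rwa [one_mul, hD_cyc]) (by rwa [one_mul, hD_cyc])
    (fun _ _ => by
      have := hD' d
      simp only [dV, one_mul] at this ⊢
      rw [hD_cyc z, hD_cyc (vQ L z d) z, hD_cyc (vS n L z d) (vR n L z d),
        hD_cyc (vR n L z d) (vS n L z d)]
      linarith)
    (by rwa [hH_cyc, hH_eq hG.flat])
    (by simp only [kS, ch_comm (vQ L z d) z, e0, ch_zR hG.flat, ch_QR]; unfold kk at h2; linarith only [h2])
  simp only [hH, kS, e0, e1, e2] at this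
  simp only [HH, kk, cc_rev]
  constructor <;> linarith only [this.1, this.2]

theorem HH_nonneg [Finite E] (hG : Gs n L z) (hD' : Del n L z) (d : Dr E) : 0 ≤ HH n L z d := by
  have key : ∀ d, HH n L z d < 0 →
      0 < kk n L z d ∨ 0 < kk n L z (n d) ∨ 0 < kk n L z (n (n d)) := fun d h => by
    by_contra hn
    push Not at hn
    obtain ⟨a, b, c⟩ := hn
    have h1 := mul_nonneg_of_nonpos_of_nonpos a b
    have h2 := mul_nonneg_of_nonpos_of_nonpos b c
    have h3 := mul_nonneg_of_nonpos_of_nonpos a c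
    simp only [HH, kk, hG.trg.cube] at h h1 h2 h3
    linarith
  have nx := HH_nx (L := L) (z := z) hG.trg.cube
  by_contra h0
  have hne : {d | HH n L z d < 0 ∧ 0 < kk n L z d}.Nonempty := by
    rcases key d (not_le.1 h0) with h | h | h
    · exact ⟨d, not_le.1 h0, h⟩
    · exact ⟨n d, by rw [nx]; exact not_le.1 h0, h⟩
    · exact ⟨n (n d), by rw [nx, nx]; exact not_le.1 h0, h⟩
  obtain ⟨x, ⟨h1, h2⟩, hx⟩ := Set.exists_max_image _ (cc L z) (Set.toFinite _) hne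
  obtain ⟨h3, h4⟩ := del_step hG hD' h1 h2
  have g1 := cc_ge (L := L) (z := z) (n (rev x))
  have g2 := cc_ge (L := L) (z := z) (n (n (rev x)))
  rcases key _ h3 with h | h | h
  · linarith
  · have := hx _ ⟨by rwa [nx], h⟩
    simp only [kk, hG.trg.cube, cc_rev] at h; linarith
  · have := hx _ ⟨by rwa [nx, nx], h⟩
    simp only [kk, hG.trg.cube, cc_rev] at h; linarith

theorem hH_nonneg [Finite E] (hG : Gs n L z) (hD' : Del n L z) (d : Dr E) :
    0 ≤ hH z (vQ L z d) (vR n L z d) := by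
  rw [hH_eq hG.flat]; exact HH_nonneg hG hD' d

/-! Matrices -/

def co (A : G) : ℝ := cosh (len A)
/-- the direction of `A • I`, normalised to trace one -/
def nm (A : G) : Mat := (2 * co A)⁻¹ • ((A : Mat) * (A : Mat)ᵀ)

theorem co_ge (A : G) : 1 ≤ co A := one_le_cosh _
theorem co_pos (A : G) : 0 < co A := cosh_pos _
theorem co_eq (A : G) : 2 * co A = A 0 0 ^ 2 + A 0 1 ^ 2 + A 1 0 ^ 2 + A 1 1 ^ 2 := by
  rw [co, cosh_len]; ring
theorem nm_apply (A : G) (i j : Fin 2) :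
    nm A i j = (A i 0 * A j 0 + A i 1 * A j 1) / (2 * co A) := by
  simp [nm, Matrix.mul_apply, Fin.sum_univ_two, div_eq_inv_mul, mul_add]
theorem nm_tr (A : G) : nm A 0 0 + nm A 1 1 = 1 := by
  have h : 0 < 2 * co A := by linarith [co_pos A]
  rw [nm_apply, nm_apply, ← add_div, div_eq_one_iff_eq h.ne', co_eq]; ring
theorem nm_cross (A B : G) : nm A 0 0 * nm B 1 1 + nm A 1 1 * nm B 0 0 - 2 * nm A 0 1 * nm B 0 1 =
    co (A⁻¹ * B) / (2 * co A * co B) := by
  have h1 := (co_pos A).ne'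
  have h2 := (co_pos B).ne'
  have h3 := co_eq (A⁻¹ * B)
  simp only [basic_mul, basic_inv00, basic_inv01, basic_inv10, basic_inv11] at h3
  simp only [nm_apply]
  field_simp
  linear_combination -h3
theorem hD_nm (A B : G) : hD I (A • I) (B • I) = 4 * co A * co B *
    (nm A 0 1 * (nm B 0 0 - nm B 1 1) - nm B 0 1 * (nm A 0 0 - nm A 1 1)) := by
  have key : ∀ A : G, (A • I : ℍ).im = (A 1 0 ^ 2 + A 1 1 ^ 2)⁻¹ ∧
      (A • I : ℍ).re = (A 0 0 * A 1 0 + A 0 1 * A 1 1) * (A • I : ℍ).im ∧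
      (A • I : ℍ).re ^ 2 + (A • I : ℍ).im ^ 2 = (A 0 0 ^ 2 + A 0 1 ^ 2) * (A • I : ℍ).im := by
    intro g
    have hd := basic_det g
    have e := basic_coe_smul g I
    have hn : Complex.normSq (((g 1 0 : ℝ) : ℂ) * Complex.I + (g 1 1 : ℝ)) =
        g 1 0 ^ 2 + g 1 1 ^ 2 := by
      simp [Complex.normSq_apply]; ring
    have hre : (g • I : ℍ).re = (g 0 0 * g 1 0 + g 0 1 * g 1 1) / (g 1 0 ^ 2 + g 1 1 ^ 2) := by
      rw [← coe_re, e, Complex.div_re, coe_I, hn, ← add_div]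
      congr 1
      simp only [Fin.isValue, Complex.add_re, Complex.mul_re, Complex.ofReal_re, Complex.I_re, mul_zero, Complex.ofReal_im, Complex.I_im, mul_one, sub_self, zero_add, Complex.add_im, Complex.mul_im, add_zero]
      ring
    have him : (g • I : ℍ).im = (g 1 0 ^ 2 + g 1 1 ^ 2)⁻¹ := by
      rw [← coe_im, e, Complex.div_im, coe_I, hn, ← sub_div, ← one_div]
      congr 1
      simpa only [Fin.isValue, Complex.add_im, Complex.mul_im, Complex.ofReal_re, Complex.I_im, mul_one, Complex.ofReal_im, Complex.I_re, mul_zero, add_zero, Complex.add_re, Complex.mul_re, sub_self, zero_add] using hd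
    have h0 : g 1 0 ^ 2 + g 1 1 ^ 2 ≠ 0 := fun h => by
      have := (g • I : ℍ).im_pos
      rw [him, h, _root_.inv_zero] at this
      exact lt_irrefl _ this
    refine ⟨him, by rw [hre, him, div_eq_mul_inv], ?_⟩
    rw [hre, him]
    field_simp
    linear_combination (-(g 0 0 * g 1 1 - g 0 1 * g 1 0) - 1) * hd
  obtain ⟨a1, a2, a3⟩ := key A
  obtain ⟨b1, b2, b3⟩ := key B
  have h1 := (co_pos A).ne'
  have h2 := (co_pos B).ne'
  have h3 := (A • I : ℍ).im_pos.ne'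
  have h4 := (B • I : ℍ).im_pos.ne'
  have a4 : (A 1 0 ^ 2 + A 1 1 ^ 2) * (A • I : ℍ).im = 1 := by
    rw [a1] at h3 ⊢; exact mul_inv_cancel₀ fun h => h3 (by rw [h, _root_.inv_zero])
  have b4 : (B 1 0 ^ 2 + B 1 1 ^ 2) * (B • I : ℍ).im = 1 := by
    rw [b1] at h4 ⊢; exact mul_inv_cancel₀ fun h => h4 (by rw [h, _root_.inv_zero])
  simp only [hD, hdet, det3, Φ, nm_apply, a3, b3, I_re, I_im]
  rw [a2, b2]
  field_simp
  linear_combination (4 * (A 0 0 * A 1 0 + A 0 1 * A 1 1) * (A • I : ℍ).im) * b4 -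
    (4 * (B 0 0 * B 1 0 + B 0 1 * B 1 1) * (B • I : ℍ).im) * a4

end

end Pool.Agent.MP_596265_gt.U.DM

end

section

/-! Block D: one vertex, conjugation, and irreducibility of positive states. -/

namespace Pool.Agent.MP_596265_gt.U

open Erg Real UpperHalfPlane Set Filter Topology Matrix

noncomputable section

variable {E : Type} {n : Nx E}

namespace DM

theorem dlab_cjL (k : G) (L : E → G) (d : Dr E) : dlab (cjL k L) d = k * dlab L d * k⁻¹ := by
  obtain ⟨e, _ | _⟩ := d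
  · change (k * L e * k⁻¹)⁻¹ = k * (L e)⁻¹ * k⁻¹; group
  · rfl

theorem pm_conj (k : G) {x : G} (h : PM x 1) : PM (k * x * k⁻¹) 1 := by
  simpa using ((PM.refl k).mul h).mul (PM.refl k⁻¹)

theorem vQ_cjL (k : G) (L : E → G) (z : ℍ) (d : Dr E) :
    vQ (cjL k L) (k • z) d = k • vQ L z d := by
  rw [vQ, vQ, dlab_cjL, mul_smul, mul_smul, inv_smul_smul]

theorem gs_cjL (k : G) {L : E → G} {z : ℍ} (h : Gs n L z) : Gs n (cjL k L) (k • z) := by
  have hf : Flat n (cjL k L) := fun d => by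
    have := pm_conj k (h.flat d)
    simp only [fp, dlab_cjL] at this ⊢
    convert this using 1; group
  refine ⟨h.trg, hf, fun d => ?_⟩
  rw [fD, vR_eq hf, vQ_cjL, vQ_cjL, ← vR_eq h.flat]
  exact hD_smul_pos k (h.pos d)

/-- Plane vectors that turn in one direction along a permutation are not in a half plane. -/
theorem slope {D : Type} [Finite D] [Nonempty D] {τ : D → D} (hτ : Function.Surjective τ)
    {p q : D → ℝ} (h : ∀ x, 0 < q (τ x) * p x - q x * p (τ x)) {α β : ℝ} (h0 : 0 < α ^ 2 + β ^ 2)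
    (h1 : ∀ x, 0 ≤ α * p x + β * q x) : False := by
  have k : ∀ x, 0 < (α * p x + β * q x) * (α * q (τ x) - β * p (τ x)) -
      (α * q x - β * p x) * (α * p (τ x) + β * q (τ x)) := fun x => by
    have := mul_pos h0 (h x)
    linarith
  have u : ∀ x, 0 < α * p x + β * q x := fun x => (h1 x).lt_of_ne fun e => by
    obtain ⟨y, rfl⟩ := hτ x
    have a := k y
    have b := k (τ y)
    rw [← e] at a b
    have c := h1 y
    have d := h1 (τ (τ y))
    rcases le_total 0 (α * q (τ y) - β * p (τ y)) with s | s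
    · linarith [mul_nonneg s d]
    · linarith [mul_nonneg c (neg_nonneg.2 s)]
  obtain ⟨x, hx⟩ := Finite.exists_max fun x => (α * q x - β * p x) / (α * p x + β * q x)
  have := hx (τ x)
  rw [div_le_div_iff₀ (u _) (u _)] at this
  linarith [k x]

theorem tw_surj (n : Nx E) : Function.Surjective (tw n) := fun x =>
  ⟨rev (n⁻¹ x), by simp [tw]⟩

/-- The directions of the darts turn in one direction. -/
theorem turn {L : E → G} (h : Gs n L I) (x : Dr E) :
    0 < nm (dlab L (tw n x)) 0 1 * (nm (dlab L x) 0 0 - nm (dlab L x) 1 1) -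
      nm (dlab L x) 0 1 * (nm (dlab L (tw n x)) 0 0 - nm (dlab L (tw n x)) 1 1) := by
  have c := h.pos (tw n x)
  rw [fD, vR_eq h.flat, tw, h.trg.cube, rev_rev, vQ, vQ, hD_nm] at c
  exact (mul_pos_iff_of_pos_left (mul_pos (mul_pos four_pos (co_pos _)) (co_pos _))).1 c

theorem nm_sq (A : G) : co A ^ 2 * ((nm A 0 0 - nm A 1 1) ^ 2 + 4 * nm A 0 1 ^ 2) = co A ^ 2 - 1 := by
  have h := nm_cross A A
  have h1 := nm_tr A
  have h2 := (co_pos A).ne'
  rw [inv_mul_cancel, co, len_one, cosh_zero, eq_div_iff (by positivity)] at h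
  linear_combination co A ^ 2 * (nm A 0 0 + nm A 1 1 + 1) * h1 - h

theorem comm_nm {A : G} {K : Mat} (hK : K.trace = 0) (h : ad A K = K) :
    co A * (4 * K 0 0 * nm A 0 1 - (K 0 1 + K 1 0) * (nm A 0 0 - nm A 1 1)) =
      (K 0 1 - K 1 0) * (1 - co A) := by
  have h' : ad A⁻¹ K = K := by conv_lhs => rw [← h, ad_inv_ad]
  have e := fun i j => congrFun (congrFun h' i) j
  have e1 := e 0 1
  have e2 := e 1 0
  have h2 := (co_pos A).ne'
  have h3 := co_eq A
  rw [Matrix.trace_fin_two] at hK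
  simp only [ad, Matrix.mul_apply, Fin.sum_univ_two, inv_inv] at e1 e2
  change (A⁻¹ 0 0 * _ + A⁻¹ 0 1 * _) * A 0 1 + (A⁻¹ 0 0 * _ + A⁻¹ 0 1 * _) * A 1 1 = _ at e1
  change (A⁻¹ 1 0 * _ + A⁻¹ 1 1 * _) * A 0 0 + (A⁻¹ 1 0 * _ + A⁻¹ 1 1 * _) * A 1 0 = _ at e2
  simp only [basic_inv00, basic_inv01, basic_inv10, basic_inv11] at e1 e2
  simp only [nm_apply]
  field_simp
  linear_combination 2 * e1 - 2 * e2 + (K 0 1 - K 1 0) * h3 +
    2 * (A 0 0 * A 1 0 + A 0 1 * A 1 1) * hK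

theorem irr_I [Finite E] [Nonempty E] {L : E → G} (h : Gs n L I) : Irr L := fun K hK hL => by
  have hd : ∀ d, ad (dlab L d) K = K := by
    rintro ⟨e, _ | _⟩
    · change ad (L e)⁻¹ K = K
      conv_lhs => rw [← hL e, ad_inv_ad]
    · exact hL e
  have c := fun d => comm_nm hK (hd d)
  by_cases h0 : 0 < (K 0 1 + K 1 0) ^ 2 + (4 * K 0 0) ^ 2
  · exfalso
    have k := @slope _ _ _ _ (tw_surj n) (fun x => nm (dlab L x) 0 0 - nm (dlab L x) 1 1)
      (fun x => nm (dlab L x) 0 1) (turn h)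
    rcases le_total (K 0 1) (K 1 0) with s | s
    · refine k (α := -(K 0 1 + K 1 0)) (β := 4 * K 0 0) (by linarith)
        fun x => ?_
      have a := c x
      have b := mul_nonneg_of_nonpos_of_nonpos (sub_nonpos.2 s) (sub_nonpos.2 (co_ge (dlab L x)))
      rw [← a] at b
      linarith only [(mul_nonneg_iff_of_pos_left (co_pos _)).1 b]
    · refine k (α := K 0 1 + K 1 0) (β := -(4 * K 0 0)) (by linarith)
        fun x => ?_
      have a := c x
      have b := mul_nonneg (sub_nonneg.2 s) (sub_nonneg.2 (co_ge (dlab L x)))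
      refine (mul_nonneg_iff_of_pos_left (co_pos (dlab L x))).1 ?_
      linarith
  have a1 : K 0 0 = 0 := pow_eq_zero_iff (two_ne_zero) |>.1
    (by linarith [sq_nonneg (K 0 1 + K 1 0), sq_nonneg (K 0 0)])
  have a2 : K 0 1 + K 1 0 = 0 := pow_eq_zero_iff (two_ne_zero) |>.1
    (by linarith [sq_nonneg (K 0 1 + K 1 0), sq_nonneg (K 0 0)])
  have a3 : K 0 1 - K 1 0 = 0 := by
    by_contra a3
    have b : ∀ d, nm (dlab L d) 0 0 - nm (dlab L d) 1 1 = 0 ∧ nm (dlab L d) 0 1 = 0 := fun d => by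
      have b1 := c d
      rw [a1, a2] at b1
      have b2 : co (dlab L d) = 1 := by
        have := (mul_eq_zero.1 (b1.symm.trans (by ring))).resolve_left a3
        linarith only [this]
      have b3 := nm_sq (dlab L d)
      rw [b2] at b3
      constructor <;> refine (pow_eq_zero_iff two_ne_zero).1 ?_ <;>
        linarith only [sq_nonneg (nm (dlab L d) 0 0 - nm (dlab L d) 1 1), sq_nonneg (nm (dlab L d) 0 1), b3]
    have := turn h (Classical.arbitrary E, true)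
    simp only [(b _).1, (b _).2, mul_zero, sub_zero, lt_self_iff_false] at this
  rw [Matrix.trace_fin_two] at hK
  ext i j
  fin_cases i <;> fin_cases j <;> simp only [Fin.zero_eta, Fin.mk_one, Fin.isValue,
    Matrix.zero_apply] <;> linarith only [a1, a2, a3, hK]

end DM

/-- Positive states have no invariant vector. -/
theorem Gs.irr [Finite E] [Nonempty E] {L : E → G} {z : ℍ} (h : Gs n L z) : Irr L := by
  obtain ⟨k, rfl⟩ := exists_smul_I z
  have h1 := DM.gs_cjL k⁻¹ h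
  rw [inv_smul_smul] at h1
  intro K hK hL
  refine ad_eq_zero.1 (DM.irr_I h1 (ad k⁻¹ K) (by rwa [ad_trace]) fun x => ?_)
  rw [cjL, ad_mul, ad_mul, ad_inv_ad, hL]

end

end Pool.Agent.MP_596265_gt.U

end

section

/-! Block D: Lipschitz functions on the edges, a flip invariant. -/

namespace Pool.Agent.MP_596265_gt.U.DF

open Erg Real UpperHalfPlane Set

variable {E Γ : Type} [Group Γ]

/-- Graphs of 1-Lipschitz functions. -/
def L1 (S : Set (ℍ × ℝ)) : Prop := ∀ s ∈ S, ∀ t ∈ S, s.2 - t.2 ≤ dist s.1 t.1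

theorem L1.ext {S : Set (ℍ × ℝ)} (h : L1 S) (hne : S.Nonempty) :
    ∃ F : ℍ → ℝ, (∀ x y, F x - F y ≤ dist x y) ∧ ∀ s ∈ S, s.2 = F s.1 := by
  obtain ⟨s₀, h₀⟩ := hne
  have : Nonempty S := ⟨⟨s₀, h₀⟩⟩
  have bd : ∀ x : ℍ, BddBelow (range fun t : S => t.1.2 + dist x t.1.1) := fun x =>
    ⟨s₀.2 - dist x s₀.1, by
      rintro _ ⟨t, rfl⟩
      have := h s₀ h₀ t t.2
      have := dist_triangle_left s₀.1 t.1.1 x
      simp only
      linarith⟩
  refine ⟨fun x => ⨅ t : S, (t.1.2 + dist x t.1.1), fun x y => ?_, fun s hs => le_antisymm ?_ ?_⟩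
  · rw [sub_le_comm]
    refine le_ciInf fun t => ?_
    have := ciInf_le (bd x) t
    have := dist_triangle x y t.1.1
    linarith
  · exact le_ciInf fun t => by linarith [h s hs t t.2]
  · simpa only [dist_self, add_zero] using ciInf_le (bd s.1) ⟨s, hs⟩

theorem L1.three {A B C : Set (ℍ × ℝ)} (h1 : L1 (A ∪ B)) (h2 : L1 (B ∪ C)) (h3 : L1 (C ∪ A)) :
    L1 (A ∪ B ∪ C) := by
  rintro s ((hs | hs) | hs) t ((ht | ht) | ht)
  exacts [h1 s (.inl hs) t (.inl ht), h1 s (.inl hs) t (.inr ht), h3 s (.inr hs) t (.inl ht),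
    h1 s (.inr hs) t (.inl ht), h1 s (.inr hs) t (.inr ht), h2 s (.inl hs) t (.inr ht),
    h3 s (.inl hs) t (.inr ht), h2 s (.inr hs) t (.inl ht), h2 s (.inr hs) t (.inr ht)]

theorem L1.of_fun {S : Set (ℍ × ℝ)} {F : ℍ → ℝ} (hF : ∀ x y, F x - F y ≤ dist x y)
    (h : ∀ s ∈ S, s.2 = F s.1) : L1 S := fun s hs t ht => by
  rw [h s hs, h t ht]; exact hF _ _

/-- The closed triangle. -/
def InT (p q r x : ℍ) : Prop :=
  ∃ a b c : ℝ, 0 ≤ a ∧ 0 ≤ b ∧ 0 ≤ c ∧ a + b + c = 1 ∧ a • Φ p + b • Φ q + c • Φ r = Φ x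

theorem inT1 {p q x : ℍ} (r : ℍ) (h : Seg p q x) : InT p q r x := by
  obtain ⟨a, b, ha, hb, hab, e⟩ := h
  exact ⟨a, b, 0, ha, hb, le_rfl, by linarith, by rw [zero_smul, add_zero, e]⟩
theorem inT2 {q r x : ℍ} (p : ℍ) (h : Seg q r x) : InT p q r x := by
  obtain ⟨a, b, ha, hb, hab, e⟩ := h
  exact ⟨0, a, b, le_rfl, ha, hb, by linarith, by rw [zero_smul, zero_add, e]⟩
theorem inT3 {r p x : ℍ} (q : ℍ) (h : Seg r p x) : InT p q r x := by
  obtain ⟨a, b, ha, hb, hab, e⟩ := h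
  exact ⟨b, 0, a, hb, le_rfl, ha, by linarith, by rw [zero_smul, add_zero, add_comm, e]⟩

/-- In a convex quadrilateral a segment between the two triangles meets the diagonal. -/
theorem cross {p q r s x y : ℍ} (h1 : 0 < hD p q r) (h2 : 0 < hD q p s) (h3 : 0 < hD s r p)
    (h4 : 0 < hD r s q) (hx : InT p q r x) (hy : InT q p s y) : ∃ m, Seg p q m ∧ Seg x y m := by
  have k : ∀ {p q r : ℍ}, 0 < hD p q r → 0 < det3 (Φ p) (Φ q) (Φ r) := fun h => by
    simpa only [one_mul, hdet] using (hD_pos (ν := 1)).1 (by rwa [one_mul])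
  obtain ⟨a, b, c, ha, hb, hc, e1, ex⟩ := hx
  obtain ⟨b', a', c', hb', ha', hc', e2, ey⟩ := hy
  have k1 := k h1
  have k2 := k h2
  have k3 := k h3
  have k4 := k h4
  rcases hc.eq_or_lt with rfl | hc
  · exact ⟨x, ⟨a, b, ha, hb, by linarith only [e1], by rw [← ex, zero_smul, add_zero]⟩, Seg.left _ _⟩
  have hZ : 0 < det3 (Φ q) (Φ p) (Φ s) * c' + det3 (Φ p) (Φ q) (Φ r) * c := by positivity
  have hm : (det3 (Φ q) (Φ p) (Φ s) * c' /
      (det3 (Φ q) (Φ p) (Φ s) * c' + det3 (Φ p) (Φ q) (Φ r) * c)) • Φ x +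
      (det3 (Φ p) (Φ q) (Φ r) * c /
      (det3 (Φ q) (Φ p) (Φ s) * c' + det3 (Φ p) (Φ q) (Φ r) * c)) • Φ y ∈
      segment ℝ (Φ x) (Φ y) :=
    ⟨_, _, by positivity, by positivity, by field_simp, rfl⟩
  obtain ⟨m, hm'⟩ := exists_Φ (InH.segment (Φ_inH x) (Φ_inH y) hm)
  refine ⟨m, ?_, by rw [Seg, hm']; exact hm⟩
  rw [Seg, hm', ← ex, ← ey]
  obtain rfl : a = 1 - b - c := by linarith only [e1]
  obtain rfl : a' = 1 - b' - c' := by linarith only [e2]
  generalize Φ p = P, Φ q = Q, Φ r = R, Φ s = S at *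
  refine ⟨(det3 Q P S * c' * (1 - b - c) + det3 P Q R * c * (1 - b' - c') + c * c' * det3 R S Q) /
      (det3 Q P S * c' + det3 P Q R * c),
    (det3 Q P S * c' * b + det3 P Q R * c * b' + c * c' * det3 S R P) /
      (det3 Q P S * c' + det3 P Q R * c), by positivity, by positivity, ?_, ?_⟩
  · field_simp
    simp only [det3]
    ring
  · ext <;> simp only [Prod.fst_add, Prod.snd_add, Prod.smul_fst, Prod.smul_snd, smul_eq_mul] <;>
      field_simp <;> simp only [det3] <;> ring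

/-- The graph of the function on the edge that starts at `c` in the direction `d`. -/
def Gr (l : E → Γ) (P : Γ → ℍ) (φ : Γ → Dr E → ℍ → ℝ) (c : Γ) (d : Dr E) : Set (ℍ × ℝ) :=
  {t | Seg (P c) (P (c * dlab l d)) t.1 ∧ t.2 = φ c d t.1}

structure Lip (n : Nx E) (l : E → Γ) (P : Γ → ℍ) (u : Γ → ℝ) (φ : Γ → Dr E → ℍ → ℝ) : Prop where
  val : ∀ c d, φ c d (P c) = u c
  sym : ∀ c d, φ (c * dlab l d) (rev d) = φ c d
  two : ∀ c d, L1 (Gr l P φ c d ∪ Gr l P φ (c * dlab l d) (n d))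

def PosA (n : Nx E) (l : E → Γ) (P : Γ → ℍ) : Prop :=
  ∀ c d, 0 < hD (P c) (P (c * dlab l d)) (P (c * dlab l d * dlab l (n d)))

variable {n n' : Nx E} {l l' : E → Γ} {P : Γ → ℍ} {u : Γ → ℝ} {φ : Γ → Dr E → ℍ → ℝ}

theorem Lip.mem (h : Lip n l P u φ) (c : Γ) (d : Dr E) : (P c, u c) ∈ Gr l P φ c d :=
  ⟨Seg.left _ _, (h.val c d).symm⟩

theorem Lip.le (h : Lip n l P u φ) (c : Γ) (d : Dr E) :
    u (c * dlab l d) - u c ≤ dist (P c) (P (c * dlab l d)) := by
  rw [dist_comm]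
  exact h.two c d _ (.inr (h.mem _ _)) _ (.inl (h.mem _ _))

theorem Lip.face (h : Lip n l P u φ) (c : Γ) {d : Dr E} (hn : n (n (n d)) = d)
    (hr : dlab l d * dlab l (n d) * dlab l (n (n d)) = 1) :
    L1 (Gr l P φ c d ∪ Gr l P φ (c * dlab l d) (n d) ∪
      Gr l P φ (c * dlab l d * dlab l (n d)) (n (n d))) := by
  refine L1.three (h.two c d) (h.two _ _) ?_
  have := h.two (c * dlab l d * dlab l (n d)) (n (n d))
  rwa [hn, show c * dlab l d * dlab l (n d) * dlab l (n (n d)) = c by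
    rw [mul_assoc c, mul_assoc c, hr, mul_one]] at this

theorem Lip.quad {d e a b c k : Dr E} (h : Lip n l P u φ) (q : Qd n n' d e a b c k)
    (r1 : dlab l d * dlab l a * dlab l b = 1) (r2 : (dlab l d)⁻¹ * dlab l c * dlab l k = 1)
    (x : Γ) (h1 : 0 < hD (P x) (P (x * dlab l d)) (P (x * dlab l d * dlab l a)))
    (h2 : 0 < hD (P (x * dlab l d)) (P x) (P (x * dlab l c)))
    (h3 : 0 < hD (P (x * dlab l c)) (P (x * dlab l d * dlab l a)) (P x))
    (h4 : 0 < hD (P (x * dlab l d * dlab l a)) (P (x * dlab l c)) (P (x * dlab l d))) :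
    ∃ F : ℍ → ℝ, (∀ y z, F y - F z ≤ dist y z) ∧
      (∀ s ∈ Gr l P φ (x * dlab l d) a, s.2 = F s.1) ∧
      (∀ s ∈ Gr l P φ (x * dlab l d * dlab l a) b, s.2 = F s.1) ∧
      (∀ s ∈ Gr l P φ x c, s.2 = F s.1) ∧ ∀ s ∈ Gr l P φ (x * dlab l c) k, s.2 = F s.1 := by
  have f1 := h.face x (d := d) (by rw [q.n1, q.n2, q.n3]) (by rw [q.n1, q.n2, r1])
  have f2 := h.face (x * dlab l d) (d := rev d) (by rw [q.n4, q.n5, q.n6])
    (by rw [q.n4, q.n5, dlab_rev, r2])
  rw [q.n1, q.n2] at f1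
  rw [q.n4, q.n5, dlab_rev, mul_inv_cancel_right] at f2
  have e1 : x * dlab l d * dlab l a * dlab l b = x := by
    rw [mul_assoc, mul_assoc, ← mul_assoc (dlab l d), r1, mul_one]
  have e2 : x * dlab l c * dlab l k = x * dlab l d := by
    rw [mul_assoc, mul_assoc, inv_mul_eq_one] at *
    rw [r2]
  have t1 : ∀ s ∈ Gr l P φ x d ∪ Gr l P φ (x * dlab l d) a ∪ Gr l P φ (x * dlab l d * dlab l a) b,
      InT (P x) (P (x * dlab l d)) (P (x * dlab l d * dlab l a)) s.1 := by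
    rintro s ((hs | hs) | hs)
    exacts [inT1 _ hs.1, inT2 _ hs.1, inT3 _ (e1 ▸ hs.1 :)]
  have t2 : ∀ s ∈ Gr l P φ (x * dlab l d) (rev d) ∪ Gr l P φ x c ∪ Gr l P φ (x * dlab l c) k,
      InT (P (x * dlab l d)) (P x) (P (x * dlab l c)) s.1 := by
    rintro s ((hs | hs) | hs)
    · have := hs.1
      rw [dlab_rev, mul_inv_cancel_right] at this
      exact inT1 _ this
    exacts [inT2 _ hs.1, inT3 _ (e2 ▸ hs.1 :)]
  have cr : ∀ s ∈ Gr l P φ x d ∪ Gr l P φ (x * dlab l d) a ∪ Gr l P φ (x * dlab l d * dlab l a) b,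
      ∀ t ∈ Gr l P φ (x * dlab l d) (rev d) ∪ Gr l P φ x c ∪ Gr l P φ (x * dlab l c) k,
      s.2 - t.2 ≤ dist s.1 t.1 ∧ t.2 - s.2 ≤ dist t.1 s.1 := by
    intro s hs t ht
    obtain ⟨m, m1, m2⟩ := cross h1 h2 h3 h4 (t1 s hs) (t2 t ht)
    have g1 : (m, φ x d m) ∈ Gr l P φ x d := ⟨m1, rfl⟩
    have g2 : (m, φ x d m) ∈ Gr l P φ (x * dlab l d) (rev d) :=
      ⟨by rw [dlab_rev, mul_inv_cancel_right]; exact m1.symm, by rw [h.sym]⟩
    have a1 := f1 s hs _ (.inl (.inl g1))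
    have a2 := f1 _ (.inl (.inl g1)) s hs
    have a3 := f2 t ht _ (.inl (.inl g2))
    have a4 := f2 _ (.inl (.inl g2)) t ht
    have := m2.dist_add
    simp only at a1 a2 a3 a4
    constructor <;> linarith only [dist_comm m s.1, dist_comm m t.1, dist_comm t.1 s.1, a1, a4, this, a2, a3]
  obtain ⟨F, hF, hS⟩ := L1.ext (S := (Gr l P φ x d ∪ Gr l P φ (x * dlab l d) a ∪
      Gr l P φ (x * dlab l d * dlab l a) b) ∪
      (Gr l P φ (x * dlab l d) (rev d) ∪ Gr l P φ x c ∪ Gr l P φ (x * dlab l c) k))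
    (by
      rintro s (hs | hs) t (ht | ht)
      exacts [f1 s hs t ht, (cr s hs t ht).1, (cr t ht s hs).2, f2 s hs t ht])
    ⟨_, .inl (.inl (.inl (h.mem x d)))⟩
  exact ⟨F, hF, fun s hs => hS s (.inl (.inl (.inr hs))), fun s hs => hS s (.inl (.inr hs)),
    fun s hs => hS s (.inr (.inl (.inr hs))), fun s hs => hS s (.inr (.inr hs))⟩

theorem Lip.flip {d e a b c k : Dr E} (h : Lip n l P u φ) (q : Qd n n' d e a b c k)
    (r1 : dlab l d * dlab l a * dlab l b = 1) (r2 : (dlab l d)⁻¹ * dlab l c * dlab l k = 1)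
    (ho : ∀ x, x.1 ≠ d.1 → dlab l' x = dlab l x) (he : dlab l' e = (dlab l b * dlab l c)⁻¹)
    (hp : PosA n l P) (hp' : PosA n' l' P) : ∃ φ', Lip n' l' P u φ' := by
  classical
  have eb : dlab l d * dlab l a = (dlab l b)⁻¹ := eq_inv_of_mul_eq_one_left r1
  have ek : dlab l c * dlab l k = dlab l d := by
    rw [mul_assoc, inv_mul_eq_one] at r2
    exact r2.symm
  have hr : dlab l' (rev e) = dlab l b * dlab l c := by rw [dlab_rev, he, inv_inv]
  have key := fun x => h.quad q r1 r2 x (q.n1 ▸ hp x d)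
    (by simpa only [q.n4, dlab_rev, mul_inv_cancel_right] using hp (x * dlab l d) (rev d))
    (by simpa only [q.m1, he, ho b q.hb, mul_inv_rev, mul_assoc, eb, mul_inv_cancel_left,
      inv_mul_cancel, mul_one, mul_inv_cancel] using hp' (x * dlab l c) e)
    (by simpa only [q.m4, hr, ho k q.hh, mul_assoc, eb, inv_mul_cancel_left, ek]
      using hp' (x * dlab l d * dlab l a) (rev e))
  choose F hF ha hb hc hk using key
  let ψ : Γ → Dr E → ℍ → ℝ := fun x y =>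
    if y = e then F (x * (dlab l c)⁻¹) else if y = rev e then F (x * dlab l b) else φ x y
  have p1 : ∀ x, ψ x e = F (x * (dlab l c)⁻¹) := fun x => if_pos rfl
  have p2 : ∀ x, ψ x (rev e) = F (x * dlab l b) := fun x => by
    simp only [ψ, if_neg (rev_ne e), if_true]
  have p3 : ∀ x y, y.1 ≠ d.1 → ψ x y = φ x y := fun x y hy => by
    rw [← q.ed] at hy
    have y1 : y ≠ e := fun h => hy (by rw [h])
    have y2 : y ≠ rev e := fun h => hy (by rw [h, rev_fst])
    simp only [ψ, if_neg y1, if_neg y2]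
  have g3 : ∀ x y, y.1 ≠ d.1 → Gr l' P ψ x y = Gr l P φ x y := fun x y hy => by
    simp only [Gr, p3 x y hy, ho y hy]
  have g1 : ∀ x, ∀ s ∈ Gr l' P ψ (x * dlab l c) e, s.2 = F x s.1 := fun x s hs => by
    rw [hs.2, p1, mul_inv_cancel_right]
  have g2 : ∀ x, ∀ s ∈ Gr l' P ψ (x * dlab l d * dlab l a) (rev e), s.2 = F x s.1 :=
    fun x s hs => by rw [hs.2, p2, mul_assoc x, eb, inv_mul_cancel_right]
  have s1 : ∀ x, ∃ y, x = y * dlab l c := fun x => ⟨x * (dlab l c)⁻¹, by simp⟩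
  have s2 : ∀ x, ∃ y, x = y * dlab l d * dlab l a := fun x =>
    ⟨x * dlab l b, by rw [mul_assoc _ (dlab l d), eb, mul_inv_cancel_right]⟩
  have s3 : ∀ x, ∃ y, x = y * dlab l d := fun x => ⟨x * (dlab l d)⁻¹, by simp⟩
  refine ⟨ψ, fun x y => ?_, fun x y => ?_, fun x y => ?_⟩
  · by_cases hy : y.1 = e.1
    · rcases eq_or_rev hy with rfl | rfl
      · obtain ⟨x, rfl⟩ := s1 x
        rw [p1, mul_inv_cancel_right]
        exact (hk x _ (h.mem _ _)).symm
      · obtain ⟨x, rfl⟩ := s2 x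
        rw [p2, mul_assoc x, eb, inv_mul_cancel_right, ← eb, ← mul_assoc]
        exact (hb x _ (h.mem _ _)).symm
    · rw [q.ed] at hy
      rw [p3 x y hy, h.val]
  · by_cases hy : y.1 = e.1
    · rcases eq_or_rev hy with rfl | rfl
      · rw [p1, p2, he, mul_inv_rev, mul_assoc, mul_assoc, inv_mul_cancel, mul_one]
      · rw [rev_rev, p1, p2, hr, mul_assoc, mul_inv_cancel_right]
    · rw [q.ed] at hy
      rw [p3 x y hy, p3 _ (rev y) hy, ho y hy, h.sym]
  · rcases q.cases y with rfl | rfl | rfl | rfl | rfl | rfl | ⟨e0, e1, e2, e3, e4⟩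
    · obtain ⟨x, rfl⟩ := s1 x
      rw [q.m1, he, g3 _ _ q.hb, mul_inv_rev, ← mul_assoc, mul_inv_cancel_right, ← eb, ← mul_assoc]
      exact L1.of_fun (hF x) fun s hs => hs.elim (g1 x s) (hb x s)
    · obtain ⟨x, rfl⟩ := s2 x
      rw [q.m2, g3 _ _ q.hb, g3 _ _ q.hc, ho _ q.hb, mul_assoc x, eb, inv_mul_cancel_right, ← eb,
        ← mul_assoc]
      exact L1.of_fun (hF x) fun s hs => hs.elim (hb x s) (hc x s)
    · rw [q.m3, g3 _ _ q.hc, ho _ q.hc]
      exact L1.of_fun (hF x) fun s hs => hs.elim (hc x s) (g1 x s)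
    · obtain ⟨x, rfl⟩ := s2 x
      rw [q.m4, hr, g3 _ _ q.hh,
        show x * dlab l d * dlab l a * (dlab l b * dlab l c) = x * dlab l c by
          rw [mul_assoc x, eb, mul_assoc, inv_mul_cancel_left]]
      exact L1.of_fun (hF x) fun s hs => hs.elim (g2 x s) (hk x s)
    · obtain ⟨x, rfl⟩ := s1 x
      rw [q.m5, g3 _ _ q.hh, g3 _ _ q.ha, ho _ q.hh, mul_assoc x, ek]
      exact L1.of_fun (hF x) fun s hs => hs.elim (hk x s) (ha x s)
    · obtain ⟨x, rfl⟩ := s3 x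
      rw [q.m6, g3 _ _ q.ha, ho _ q.ha]
      exact L1.of_fun (hF x) fun s hs => hs.elim (ha x s) (g2 x s)
    · rw [q.out y e0 e1 e2 e3 e4, g3 _ _ e0, g3 _ _ (q.off e0 e1 e2 e3 e4).1, ho _ e0]
      exact h.two x y

theorem Lip.iso {σ : Nx E} (h : Lip n l P u φ) (hσ : Rlb σ n n')
    (hl : ∀ d, dlab l d = dlab l' (σ d)) : Lip n' l' P u fun c d => φ c (σ.symm d) := by
  refine ⟨fun c d => h.val c _, fun c d => ?_, fun c d => ?_⟩ <;>
    obtain ⟨d, rfl⟩ := σ.surjective d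
  · simp only [← hσ.rv, ← hl, Equiv.symm_apply_apply, h.sym]
  · simpa only [Gr, ← hσ.nx, ← hl, Equiv.symm_apply_apply] using h.two c d

/-! The initial function -/

theorem sinh_le_mul {x : ℝ} (_ : 0 ≤ x) : sinh x ≤ x * exp x := by
  have h1 := add_one_le_exp (-2 * x)
  have h2 : exp (-x) = exp x * exp (-2 * x) := by rw [← exp_add]; ring_nf
  rw [sinh_eq, h2]
  nlinarith [exp_pos x]

theorem seg_lin {p q x : ℍ} (h : Seg p q x) : ∃ A B : ℝ, 0 ≤ A ∧ 0 ≤ B ∧
    (∀ t, ch x t = A * ch p t + B * ch q t) ∧ ∀ s t, hD x s t = A * hD p s t + B * hD q s t := by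
  obtain ⟨a, b, ha, hb, hab, e⟩ := h
  have e1 : a * p.re + b * q.re = x.re := congrArg Prod.fst e
  have e2 : a * (Φ p).2 + b * (Φ q).2 = (Φ x).2 := congrArg Prod.snd e
  have := p.im_pos
  have := q.im_pos
  have := x.im_pos
  obtain rfl : b = 1 - a := by linarith only [hab]
  refine ⟨a * p.im / x.im, (1 - a) * q.im / x.im, by positivity, by positivity, fun t => ?_,
    fun s t => ?_⟩
  · have := t.im_pos
    simp only [ch, cosh_dist_Φ, ← e1, ← e2]
    field_simp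
    ring
  · have := s.im_pos
    have := t.im_pos
    have f : ∀ z : ℍ, (Φ z).1 = z.re := fun _ => rfl
    simp only [hD, hdet, det3, f, ← e1, ← e2]
    field_simp
    ring

theorem height {p q r x y : ℍ} {L η : ℝ} (hη : η ≤ |hD p q r|) (h1 : dist p q ≤ L)
    (h2 : dist q r ≤ L) (hx : Seg p q x) (hy : Seg q r y) :
    dist q x * η ≤ dist p q * (2 * exp (4 * L) * dist x y) := by
  obtain ⟨A, B, hA, -, c1, d1⟩ := seg_lin hx
  obtain ⟨B', C', -, -, c2, -⟩ := seg_lin hy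
  have hL : 0 ≤ L := dist_nonneg.trans h1
  have sq : ∀ a b : ℍ, sinh (dist a b) ^ 2 = ch a b ^ 2 - 1 := fun a b => by rw [ch, sinh_sq]
  have nn : ∀ a b : ℍ, 0 ≤ sinh (dist a b) := fun a b => sinh_nonneg_iff.2 dist_nonneg
  have k1 : sinh (dist q x) = A * sinh (dist p q) := by
    refine (pow_left_inj₀ (nn _ _) (mul_nonneg hA (nn _ _)) two_ne_zero).1 ?_
    have a1 := c1 x
    rw [ch_self, ch_comm p x, ch_comm q x, c1 p, c1 q, ch_self, ch_self, ch_comm q p] at a1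
    rw [mul_pow, sq, sq, ch_comm q x, c1 q, ch_self]
    linear_combination -a1
  have k2 : |hD x q r| ≤ 2 * sinh (dist q r) * sinh (dist x y) := by
    refine abs_le_of_sq_le_sq' ?_ (by have := nn q r; have := nn x y; positivity) |> abs_le.2
    have a1 := c2 y
    rw [ch_self, ch_comm q y, ch_comm r y, c2 q, c2 r, ch_self, ch_self, ch_comm r q] at a1
    rw [hD_sq, mul_pow, mul_pow, sq, sq, ch_comm x y, c2 x, ch_comm q x, ch_comm r x]
    generalize ch q r = t, ch x q = v, ch x r = w at *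
    linarith [sq_nonneg ((w * t - v) * C' - (v * t - w) * B'),
      congrArg (fun z => (2 * v * w * t - v ^ 2 - w ^ 2) * z) a1]
  have z0 : hD q q r = 0 := by simp only [hD, hdet, det3]; ring
  rw [d1, z0, mul_zero, add_zero, abs_mul, abs_of_nonneg hA] at k2
  have a1 := hx.dist_add
  have a2 := hy.dist_add
  have a3 : dist x y ≤ 2 * L := by
    linarith [dist_triangle x q y, dist_nonneg (x := p) (y := x), dist_nonneg (x := y) (y := r)]
  have b1 : sinh (dist q r) ≤ exp L := by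
    have := exp_le_exp.2 h2
    rw [sinh_eq]
    linarith only [exp_pos (-dist q r), exp_pos (dist q r), this]
  have b2 : sinh (dist x y) ≤ dist x y * exp (2 * L) :=
    (sinh_le_mul dist_nonneg).trans (mul_le_mul_of_nonneg_left (exp_le_exp.2 a3) dist_nonneg)
  have b3 : sinh (dist p q) ≤ dist p q * exp L :=
    (sinh_le_mul dist_nonneg).trans (mul_le_mul_of_nonneg_left (exp_le_exp.2 h1) dist_nonneg)
  have b4 : dist q x ≤ A * (dist p q * exp L) :=
    ((self_le_sinh_iff.2 dist_nonneg).trans k1.le).trans (mul_le_mul_of_nonneg_left b3 hA)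
  have b5 : A * |hD p q r| ≤ 2 * exp L * (dist x y * exp (2 * L)) :=
    k2.trans (mul_le_mul (by linarith only [b1]) b2 (nn _ _) (by positivity))
  have e : exp (4 * L) = exp L * exp L * exp (2 * L) := by rw [← exp_add, ← exp_add]; ring_nf
  calc dist q x * η ≤ dist q x * |hD p q r| := mul_le_mul_of_nonneg_left hη dist_nonneg
    _ ≤ A * (dist p q * exp L) * |hD p q r| := mul_le_mul_of_nonneg_right b4 (abs_nonneg _)
    _ = dist p q * exp L * (A * |hD p q r|) := by ring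
    _ ≤ dist p q * exp L * (2 * exp L * (dist x y * exp (2 * L))) :=
      mul_le_mul_of_nonneg_left b5 (by positivity)
    _ = _ := by rw [e]; ring

/-- Linear interpolation along an edge. -/
noncomputable def itp (p q : ℍ) (a b : ℝ) (x : ℍ) : ℝ :=
  (a + b) / 2 + (b - a) * (dist p x - dist q x) / (2 * dist p q)

theorem itp_symm (p q : ℍ) (a b : ℝ) : itp q p b a = itp p q a b := by
  funext x
  rw [itp, itp, dist_comm q p]
  ring

theorem itp_eq {p q x : ℍ} (h0 : 0 < dist p q) (a b : ℝ) (h : Seg p q x) :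
    itp p q a b x = b + (a - b) * (dist q x / dist p q) := by
  have := h.dist_add
  rw [itp, show dist p x = dist p q - dist q x by rw [dist_comm q x]; linarith]
  field_simp
  ring

theorem itp_lip {p q r : ℍ} {L η a b c : ℝ} (h0 : 0 < η) (hη : η ≤ hD p q r) (h1 : dist p q ≤ L)
    (h2 : dist q r ≤ L) (ha : |a - b| ≤ η / (4 * exp (4 * L))) (hc : |c - b| ≤ η / (4 * exp (4 * L))) :
    L1 ({t | Seg p q t.1 ∧ t.2 = itp p q a b t.1} ∪ {t | Seg q r t.1 ∧ t.2 = itp q r b c t.1}) := by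
  have hη1 : η ≤ |hD p q r| := hη.trans (le_abs_self _)
  have hη2 : η ≤ |hD r q p| := by
    rw [show hD r q p = -hD p q r by simp only [hD, hdet, det3]; ring, abs_neg]; exact hη1
  have hK : 0 < exp (4 * L) := exp_pos _
  have pos : ∀ {p q r : ℍ}, η ≤ |hD p q r| → 0 < dist p q := fun {p q r} h => dist_pos.2 (by
    rintro rfl
    rw [show hD p p r = 0 by simp only [hD, hdet, det3]; ring, abs_zero] at h
    exact h.not_gt h0)
  have k : ∀ {p q r x y : ℍ} {a : ℝ}, η ≤ |hD p q r| → dist p q ≤ L → dist q r ≤ L →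
      |a| ≤ η / (4 * exp (4 * L)) → Seg p q x → Seg q r y →
      |a * (dist q x / dist p q)| ≤ dist x y / 2 := by
    intro p q r x y a h h1 h2 ha hx hy
    have := height h h1 h2 hx hy
    have hp := pos h
    rw [abs_mul, abs_of_nonneg (by positivity : 0 ≤ dist q x / dist p q)]
    refine (mul_le_mul_of_nonneg_right ha (by positivity)).trans ?_
    rw [div_mul_div_comm, div_le_div_iff₀ (by positivity) two_pos]
    linarith only [this]
  have k' : ∀ {p q r x y : ℍ} {a : ℝ}, η ≤ |hD p q r| → dist p q ≤ L → dist q r ≤ L →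
      |a| ≤ η / (4 * exp (4 * L)) →
      a * (dist q x / dist p q) - a * (dist q y / dist p q) ≤ dist x y := by
    intro p q r x y a h h1 h2 ha
    have h3 := k h h1 h2 ha (Seg.left p q) (Seg.left q r)
    have hp := pos h
    rw [dist_comm q p, div_self hp.ne', mul_one] at h3
    have h4 : |dist q x - dist q y| ≤ dist x y := by
      rw [dist_comm q x, dist_comm q y]; exact abs_dist_sub_le x y q
    rw [← mul_sub, ← sub_div, ← mul_div_assoc, div_le_iff₀ hp]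
    refine (le_abs_self _).trans ?_
    rw [abs_mul, mul_comm]
    exact mul_le_mul h4 (by linarith only [h3, hp]) (abs_nonneg _) dist_nonneg
  have h1' : dist q p ≤ L := dist_comm p q ▸ h1
  have h2' : dist r q ≤ L := dist_comm q r ▸ h2
  rintro s (⟨hs, es⟩ | ⟨hs, es⟩) t (⟨ht, et⟩ | ⟨ht, et⟩) <;> rw [es, et]
  · rw [itp_eq (pos hη1) _ _ hs, itp_eq (pos hη1) _ _ ht]
    linarith only [k' (x := s.1) (y := t.1) hη1 h1 h2 ha]
  · rw [itp_eq (pos hη1) _ _ hs, itp_symm, itp_eq (pos hη2) _ _ ht.symm]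
    have a1 := abs_le.1 (k hη1 h1 h2 ha hs ht)
    have a2 := abs_le.1 (k hη2 h2' h1' hc ht.symm hs.symm)
    rw [dist_comm t.1] at a2
    linarith
  · rw [itp_eq (pos hη1) _ _ ht, itp_symm, itp_eq (pos hη2) _ _ hs.symm]
    have a1 := abs_le.1 (k hη1 h1 h2 ha ht hs)
    have a2 := abs_le.1 (k hη2 h2' h1' hc hs.symm ht.symm)
    rw [dist_comm t.1] at a1
    linarith
  · rw [itp_symm, itp_eq (pos hη2) _ _ hs.symm, itp_eq (pos hη2) _ _ ht.symm]
    linarith only [k' (x := s.1) (y := t.1) hη2 h2' h1' hc]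

theorem lip_init {L η : ℝ} (h0 : 0 < η)
    (hη : ∀ c d, η ≤ hD (P c) (P (c * dlab l d)) (P (c * dlab l d * dlab l (n d))))
    (hL : ∀ c d, dist (P c) (P (c * dlab l d)) ≤ L)
    (hu : ∀ c d, |u (c * dlab l d) - u c| ≤ η / (4 * exp (4 * L))) :
    Lip n l P u fun c d => itp (P c) (P (c * dlab l d)) (u c) (u (c * dlab l d)) := by
  refine ⟨fun c d => ?_, fun c d => ?_, fun c d => ?_⟩
  · have h : 0 < dist (P c) (P (c * dlab l d)) := dist_pos.2 fun e => by
      have := hη c d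
      rw [← e, show hD (P c) (P c) _ = 0 by simp only [hD, hdet, det3]; ring] at this
      exact this.not_gt h0
    rw [itp_eq h _ _ (Seg.left _ _), dist_comm, div_self h.ne']
    ring
  · rw [dlab_rev, mul_inv_cancel_right, itp_symm]
  · exact itp_lip h0 (hη c d) (hL c d) (hL _ _) (abs_sub_comm (u c) _ ▸ hu c d) (hu _ _)

end Pool.Agent.MP_596265_gt.U.DF

end

section

/-! Block D: finiteness and existence of weakly Delaunay states. -/

namespace Pool.Agent.MP_596265_gt.U.DF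

open Erg Real UpperHalfPlane Set

variable {g : ℕ} {E : Type}

abbrev Pi1 (g : ℕ) : Type := Fr g ⧸ NN g

/-- Labels in the surface group. -/
def bar (l : E → Fr g) : E → Pi1 g := fun x => QuotientGroup.mk' (NN g) (l x)

/-- The developed vertices. -/
noncomputable def dev (M : Tup g) (z : ℍ) (c : Pi1 g) : ℍ := FreeGroup.lift M c.out • z

theorem dlab_bar (l : E → Fr g) (d : Dr E) : dlab (bar l) d = QuotientGroup.mk (dlab l d) :=
  map_dlab _ l d

theorem dev_mul {M : Tup g} (hM : Fm M) (z : ℍ) (c : Pi1 g) (x : Fr g) :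
    dev M z (c * QuotientGroup.mk x) = FreeGroup.lift M c.out • FreeGroup.lift M x • z := by
  rw [← mul_smul, ← map_mul]
  refine smul_of_eqN hM (eqN_iff.2 ?_) z
  rw [QuotientGroup.mk_mul, QuotientGroup.out_eq', QuotientGroup.out_eq']

theorem face_dev {α : Type} {f : ℍ → ℍ → ℍ → α} (hf : Iv f) {M : Tup g} (hM : Fm M) (z : ℍ)
    (n : Nx E) (l : E → Fr g) (c : Pi1 g) (d : Dr E) :
    f (dev M z c) (dev M z (c * dlab (bar l) d)) (dev M z (c * dlab (bar l) d * dlab (bar l) (n d))) =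
      face f n (geo M l) z d := by
  rw [mul_assoc, dlab_bar, dlab_bar, ← QuotientGroup.mk_mul, dev_mul hM, dev_mul hM, dev, hf.sm]
  simp only [face, vQ, vR, dlab_geo, map_mul]

theorem dist_dev {M : Tup g} (hM : Fm M) (z : ℍ) (l : E → Fr g) (c : Pi1 g) (d : Dr E) :
    dist (dev M z c) (dev M z (c * dlab (bar l) d)) = dist z (vQ (geo M l) z d) := by
  rw [dlab_bar, dev_mul hM, dev, dist_smul, vQ, dlab_geo]

theorem posA {M : Tup g} (hM : Fm M) {z : ℍ} {τ : MS g} (h : Ps M z τ) :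
    PosA τ.1 (bar τ.2) (dev M z) := fun c d => by
  rw [face_dev iv_hD hM]; exact h d

theorem rel_bar (hT : TAx g) {τ : MS g} (h : MT τ) (d : Dr (Ed g)) :
    dlab (bar τ.2) d * dlab (bar τ.2) (τ.1 d) * dlab (bar τ.2) (τ.1 (τ.1 d)) = 1 := by
  simp only [dlab_bar, ← QuotientGroup.mk_mul]
  exact (QuotientGroup.eq_one_iff _).2 (hT.flat h d)

theorem lip_iso {P : Pi1 g → ℍ} {u : Pi1 g → ℝ} {τ τ' : MS g} (h : Iso τ τ') :
    (∃ φ, Lip τ.1 (bar τ.2) P u φ) → ∃ φ, Lip τ'.1 (bar τ'.2) P u φ := by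
  obtain ⟨σ, hσ, hl⟩ := h
  rintro ⟨φ, hφ⟩
  exact ⟨_, hφ.iso hσ fun d => by rw [dlab_bar, dlab_bar]; exact eqN_iff.1 (hl d)⟩

theorem lip_mv (hT : TAx g) {M : Tup g} (hM : Fm M) {z : ℍ} (u : Pi1 g → ℝ) {τ τ' : MS g}
    (h : Mv M z τ τ') : (∃ φ, Lip τ.1 (bar τ.2) (dev M z) u φ) ↔
      ∃ φ, Lip τ'.1 (bar τ'.2) (dev M z) u φ := by
  have ok := mv_ok hT hM h
  cases h with
  | iso h1 h2 h3 => exact ⟨lip_iso h3, lip_iso (Iso.symm h3)⟩
  | flip d h1 h2 h3 =>
    have q := Gs.qd (gs_of hT hM h1 h2) d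
    have e : bar (U.flip τ d).2 = flb τ.1 (bar τ.2) d := map_flb _ _ _ _
    have r1 := rel_bar hT h1 d
    have r2 := rel_bar hT h1 (rev d)
    have s1 := rel_bar hT ok.2.1 d
    have s2 := rel_bar hT ok.2.1 (rev d)
    have p := posA hM h2
    have p' := posA hM h3
    change _ * dlab _ (fnx τ.1 d _) * dlab _ (fnx τ.1 d (fnx τ.1 d _)) = 1 at s1 s2
    rw [dlab_rev] at r2 s2
    rw [q.m1, q.m2] at s1
    rw [q.m4, q.m5] at s2
    have ho : ∀ x : Dr (Ed g), x.1 ≠ d.1 → dlab (bar (U.flip τ d).2) x = dlab (bar τ.2) x :=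
      fun x hx => by rw [e, dlab_flb_ne _ _ hx]
    refine ⟨fun ⟨φ, hφ⟩ => hφ.flip q r1 r2 ho (by rw [e, dlab_flb]) p p',
      fun ⟨φ, hφ⟩ => Lip.flip hφ q.symm s1 s2 (fun x hx => (ho x hx).symm) ?_ p' p⟩
    rw [ho _ q.hc, ho _ q.hh, dlab_rev]
    exact eq_inv_of_mul_eq_one_left (by rw [← mul_assoc, r2])

theorem lip_eqv (hT : TAx g) {M : Tup g} (hM : Fm M) {z : ℍ} (u : Pi1 g → ℝ) {τ τ' : MS g}
    (h : Eqv M z τ τ') : (∃ φ, Lip τ.1 (bar τ.2) (dev M z) u φ) ↔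
      ∃ φ, Lip τ'.1 (bar τ'.2) (dev M z) u φ := by
  induction h with
  | rel _ _ h => exact lip_mv hT hM u h
  | refl => rfl
  | symm _ _ _ ih => exact ih.symm
  | trans _ _ _ _ _ i1 i2 => exact i1.trans i2

/-- Word length in the labels of a marking. -/
theorem exists_len (hT : TAx g) {τ : MS g} (h : MT τ) : ∃ w : Pi1 g → ℕ, w 1 = 0 ∧
    (∀ c d, w (c * dlab (bar τ.2) d) ≤ w c + 1) ∧
    ∀ c, ∃ A : List (Dr (Ed g)), A.length = w c ∧ c = QuotientGroup.mk (lab τ.2 A) := by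
  classical
  have ex : ∀ c : Pi1 g, ∃ k, ∃ A : List (Dr (Ed g)), A.length = k ∧
      c = QuotientGroup.mk (lab τ.2 A) := fun c => by
    obtain ⟨A, hA⟩ := hT.gen h c.out
    exact ⟨_, A, rfl, by rw [← eqN_iff.1 hA, QuotientGroup.out_eq']⟩
  refine ⟨fun c => Nat.find (ex c), (Nat.find_eq_zero _).2 ⟨[], rfl, by simp⟩, fun c d => ?_,
    fun c => Nat.find_spec (ex c)⟩
  obtain ⟨A, h1, h2⟩ := Nat.find_spec (ex c)
  refine Nat.find_min' _ ⟨A ++ [d], by simp only [List.length_append, h1, List.length_cons, List.length_nil, zero_add, Nat.add_left_cancel_iff], ?_⟩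
  rw [lab_append, QuotientGroup.mk_mul, ← h2, dlab_bar]
  simp

/-- The label of an edge of an equivalent state is a word of length at most a constant times the
length of the edge. -/
theorem word_le (hT : TAx g) {M : Tup g} (hM : Fm M) {z : ℍ} {τ τ' : MS g} (h : MT τ) {η L : ℝ}
    (h0 : 0 < η) (hη : ∀ d, η ≤ fD τ.1 (geo M τ.2) z d)
    (hL : ∀ d, dist z (vQ (geo M τ.2) z d) ≤ L) (he : Eqv M z τ τ') (d : Dr (Ed g)) :
    ∃ A : List (Dr (Ed g)), A.length * (η / (4 * exp (4 * L))) ≤ dist z (vQ (geo M τ'.2) z d) ∧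
      EqN (dlab τ'.2 d) (lab τ.2 A) := by
  obtain ⟨w, w1, w2, w3⟩ := exists_len hT h
  have hκ : 0 < η / (4 * exp (4 * L)) := by positivity
  obtain ⟨φ, hφ⟩ := (lip_eqv hT hM (fun c => w c * (η / (4 * exp (4 * L)))) he).1
    ⟨_, lip_init h0 (fun c d => by rw [face_dev iv_hD hM]; exact hη d)
      (fun c d => by rw [dist_dev hM]; exact hL d) fun c d => by
        have a1 : (w (c * dlab (bar τ.2) d) : ℝ) ≤ w c + 1 := by exact_mod_cast w2 c d
        have a2 : (w c : ℝ) ≤ w (c * dlab (bar τ.2) d) + 1 := by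
          have := w2 (c * dlab (bar τ.2) d) (rev d)
          rw [dlab_rev, mul_inv_cancel_right] at this
          exact_mod_cast this
        rw [← sub_mul, abs_mul, abs_of_pos hκ]
        exact mul_le_of_le_one_left hκ.le (abs_le.2 ⟨by linarith only [a2], by linarith only [a1]⟩)⟩
  have k := hφ.le 1 d
  obtain ⟨A, h1, h2⟩ := w3 (dlab (bar τ'.2) d)
  rw [dist_dev hM, one_mul, w1, ← h1] at k
  exact ⟨A, by simpa only [CharP.cast_eq_zero, zero_mul, sub_zero] using k, eqN_iff.2 (by rw [← h2, dlab_bar])⟩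

theorem cont_vQ (l : E → Fr g) (d : Dr E) :
    Continuous fun q : Tup g × ℍ => vQ (geo q.1 l) q.2 d := by
  simp only [vQ, dlab_geo]
  exact ((xa_cont _).comp continuous_fst).smul continuous_snd

theorem cont_vR (n : Nx E) (l : E → Fr g) (d : Dr E) :
    Continuous fun q : Tup g × ℍ => vR n (geo q.1 l) q.2 d := by
  simp only [vR, dlab_geo, ← map_mul]
  exact ((xa_cont _).comp continuous_fst).smul continuous_snd

theorem cont_hD {Y : Type} [TopologicalSpace Y] {p q r : Y → ℍ} (hp : Continuous p)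
    (hq : Continuous q) (hr : Continuous r) : Continuous fun y => hD (p y) (q y) (r y) := by
  have a1 := continuous_re.comp hp
  have a2 := continuous_re.comp hq
  have a3 := continuous_re.comp hr
  have b1 := continuous_im.comp hp
  have b2 := continuous_im.comp hq
  have b3 := continuous_im.comp hr
  simp only [hD, hdet, det3, Φ]
  refine Continuous.div ?_ ((b1.mul b2).mul b3) fun y =>
    (mul_pos (mul_pos (p y).im_pos (q y).im_pos) (r y).im_pos).ne'
  exact ((a2.sub a1).mul (((a3.pow 2).add (b3.pow 2)).sub ((a1.pow 2).add (b1.pow 2)))).sub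
    ((((a2.pow 2).add (b2.pow 2)).sub ((a1.pow 2).add (b1.pow 2))).mul (a3.sub a1))

theorem cont_fD (n : Nx E) (l : E → Fr g) (d : Dr E) :
    Continuous fun q : Tup g × ℍ => fD n (geo q.1 l) q.2 d :=
  cont_hD continuous_snd (cont_vQ l d) (cont_vR n l d)

theorem unif_pos {Y ι : Type} [TopologicalSpace Y] [Finite ι] {C : Set Y} (hC : IsCompact C)
    {f : ι → Y → ℝ} (hf : ∀ i, Continuous (f i)) (h : ∀ y ∈ C, ∀ i, 0 < f i y) :
    ∃ η, 0 < η ∧ ∀ y ∈ C, ∀ i, η ≤ f i y := by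
  let : TopologicalSpace ι := ⊥
  have : DiscreteTopology ι := ⟨rfl⟩
  obtain ⟨η, h0, hη⟩ := (hC.prod (isCompact_univ (X := ι))).exists_forall_le' (a := 0)
    (f := fun y => f y.2 y.1) (continuous_prod_of_discrete_right.2 hf).continuousOn
    fun y hy => h y.1 hy.1 y.2
  exact ⟨η, h0, fun y hy i => hη (y, i) ⟨hy, trivial⟩⟩

theorem unif_le {Y ι : Type} [TopologicalSpace Y] [Finite ι] {C : Set Y} (hC : IsCompact C)
    {f : ι → Y → ℝ} (hf : ∀ i, Continuous (f i)) : ∃ L, ∀ y ∈ C, ∀ i, f i y ≤ L := by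
  choose L hL using fun i => hC.bddAbove_image (hf i).continuousOn
  obtain ⟨B, hB⟩ := Finite.exists_le L
  exact ⟨B, fun y hy i => (hL i ⟨y, hy, rfl⟩).trans (hB i)⟩

theorem fin (hT : TAx g) {τ : MS g} {C : Set (Tup g × ℍ)} (R : ℝ) (h : MT τ) (hC : IsCompact C)
    (hp : ∀ q ∈ C, Fm q.1 ∧ Ps q.1 q.2 τ) : ∃ S : Finset (Fr g), ∀ q ∈ C, ∀ τ', Eqv q.1 q.2 τ τ' →
      ∀ d, dist q.2 (vQ (geo q.1 τ'.2) q.2 d) ≤ R → ∃ s ∈ S, EqN (dlab τ'.2 d) s := by
  obtain ⟨η, h0, hη⟩ := unif_pos hC (cont_fD τ.1 τ.2) fun q hq => (hp q hq).2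
  obtain ⟨L, hL⟩ := unif_le hC fun d => continuous_snd.dist (cont_vQ τ.2 d)
  have hκ : 0 < η / (4 * exp (4 * L)) := by positivity
  have hf := (List.finite_length_le (Dr (Ed g)) ⌈R / (η / (4 * exp (4 * L)))⌉₊).image (lab τ.2)
  refine ⟨hf.toFinset, fun q hq τ' he d hd => ?_⟩
  obtain ⟨A, h1, h2⟩ := word_le hT (hp q hq).1 h h0 (hη q hq) (hL q hq) he d
  refine ⟨_, hf.mem_toFinset.2 ⟨A, ?_, rfl⟩, h2⟩
  exact_mod_cast ((le_div_iff₀ hκ).2 (h1.trans hd)).trans (Nat.le_ceil _)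

/-- Finitely many classes of states with bounded edges. -/
theorem fin_states (hT : TAx g) {τ : MS g} {C : Set (Tup g × ℍ)} (R : ℝ) (h : MT τ)
    (hC : IsCompact C) (hp : ∀ q ∈ C, Fm q.1 ∧ Ps q.1 q.2 τ) : ∃ S : Set (MS g), S.Finite ∧
      ∀ q ∈ C, ∀ τ', Eqv q.1 q.2 τ τ' → (∀ d, dist q.2 (vQ (geo q.1 τ'.2) q.2 d) ≤ R) →
        ∃ s ∈ S, s.1 = τ'.1 ∧ ∀ d, EqN (dlab τ'.2 d) (dlab s.2 d) := by
  obtain ⟨S, hS⟩ := fin hT R h hC hp
  refine ⟨univ ×ˢ pi univ fun _ => (S : Set (Fr g)),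
    finite_univ.prod (Finite.pi fun _ => S.finite_toSet), fun q hq τ' he hd => ?_⟩
  choose s h1 h2 using fun x : Ed g => hS q hq τ' he (x, true) (hd _)
  refine ⟨(τ'.1, s), ⟨trivial, fun x _ => h1 x⟩, rfl, fun ⟨x, b⟩ => ?_⟩
  have := eqN_iff.1 (h2 x)
  cases b
  · exact eqN_iff.2 (congrArg Inv.inv this)
  · exact h2 x

/-- A weakly Delaunay state with the same radial bound and no larger sum of determinants. -/
theorem nf_rad (hT : TAx g) {M : Tup g} {z : ℍ} {τ : MS g} {R : ℝ} (hM : Fm M) (h : MT τ)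
    (hp : Ps M z τ) (hR : Rad R τ.1 (geo M τ.2) z) :
    ∃ τ', Eqv M z τ τ' ∧ Dl M z τ' ∧ Rad R τ'.1 (geo M τ'.2) z := by
  obtain ⟨S, hS, hm⟩ := fin_states hT (C := {(M, z)}) (2 * R) h isCompact_singleton
    (by rintro _ rfl; exact ⟨hM, hp⟩)
  have hf : ((fun s : MS g => val s.1 (geo M s.2) z) ''
      {s | Eqv M z τ s ∧ Rad R s.1 (geo M s.2) z}).Finite := by
    refine (hS.image fun s : MS g => val s.1 (geo M s.2) z).subset ?_
    rintro _ ⟨s, ⟨h1, h2⟩, rfl⟩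
    obtain ⟨s', k1, k2, k3⟩ := hm _ rfl s h1 fun d => by
      have a1 := h2.edge d
      have a2 := sinh_lt_cosh (dist z (vQ (geo M s.2) z d))
      have a3 := self_le_sinh_iff.2 (dist_nonneg (x := z) (y := vQ (geo M s.2) z d))
      rw [ch] at a1
      simp only
      linarith
    exact ⟨s', k1, val_iso hM (σ := 1) ⟨fun _ => rfl, fun _ => by rw [k2]; rfl⟩ k3 z⟩
  obtain ⟨_, ⟨s, ⟨h1, h2⟩, rfl⟩, hmin⟩ := exists_min_image _ id hf
    ⟨_, τ, ⟨Relation.EqvGen.refl _, hR⟩, rfl⟩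
  refine ⟨s, h1, fun d => not_lt.1 fun hd => ?_, h2⟩
  obtain ⟨k1, k2⟩ := (eqv_ok hT hM h1).1 ⟨h, hp⟩
  have gs := gs_of hT hM k1 k2
  have pf := pos_flip_of_dV_neg gs hd
  have := hmin _ ⟨U.flip s d, ⟨h1.trans _ _ _ (.rel _ _ (.flip d k1 k2 (ps_flip_iff.2 pf))), by
    change Rad R _ (geo M (flb _ _ _)) z
    rw [geo_flb]
    exact Rad.flip gs pf hd.le h2⟩, rfl⟩
  change _ ≤ val (fnx _ _) (geo M (flb _ _ _)) z at this
  rw [geo_flb, val_flip gs, id] at this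
  linarith

theorem nf (hT : TAx g) {M : Tup g} {z : ℍ} {τ : MS g} (hM : Fm M) (h : MT τ) (hp : Ps M z τ) :
    ∃ τ', Eqv M z τ τ' ∧ Dl M z τ' := by
  obtain ⟨R, hR⟩ := Finite.exists_le fun d => ch z (vQ (geo M τ.2) z d)
  obtain ⟨s, h1, h2, -⟩ := nf_rad hT hM h hp (rad_init (gs_of hT hM h hp).flat hR)
  exact ⟨s, h1, h2⟩

end Pool.Agent.MP_596265_gt.U.DF

end

section

/-! Block D: fat faces, openness of leaves, and closedness of the thick set. -/

namespace Pool.Agent.MP_596265_gt.U.DM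

open Erg Real UpperHalfPlane Set Filter Topology Metric

variable {E : Type} {g : ℕ}

theorem fD_sq {n : Nx E} {L : E → G} {z : ℍ} (h : Flat n L) (d : Dr E) (hH : 0 ≤ HH n L z d) :
    8 * ((cc L z d - 1) * (cc L z (n d) - 1) * (cc L z (n (n d)) - 1)) ≤ fD n L z d ^ 2 := by
  rw [fD, hD_sq, ch_QR, ch_zR h]
  change _ ≤ 4 * (1 + 2 * cc L z d * _ * _ - cc L z d ^ 2 - _ - _)
  simp only [HH, kk] at hH
  linarith

/-- The field `fat` of `DAx`. -/
theorem fat [Finite E] : ∀ η > 0, ∃ c > 0, ∀ {n : Nx E} {L z}, Gs n L z → Del n L z →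
    (∀ d, η ≤ dist z (vQ L z d)) → ∀ d, c ≤ fD n L z d := by
  intro η hη
  have h0 : 0 < cosh η - 1 := sub_pos.2 (one_lt_cosh.2 hη.ne')
  refine ⟨sqrt (8 * (cosh η - 1) ^ 3), sqrt_pos.2 (by positivity), fun {n L z} hG hD' h d => ?_⟩
  have h1 : ∀ d, cosh η - 1 ≤ cc L z d - 1 := fun d => sub_le_sub_right (cosh_le_cosh.2 (by
    rw [abs_of_pos hη, abs_of_nonneg dist_nonneg]; exact h d)) 1
  have h2 := fD_sq hG.flat d (HH_nonneg hG hD' d)
  have h3 := mul_le_mul (mul_le_mul (h1 d) (h1 (n d)) h0.le (by linarith [h1 d]))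
    (h1 (n (n d))) h0.le (mul_nonneg (by linarith [h1 d]) (by linarith [h1 (n d)]))
  exact sqrt_le_iff.2 ⟨(hG.pos d).le, by linarith⟩

theorem isClosed_Kset (ε : ℝ) : IsClosed (Kset g ε) := by
  simp only [Kset, ofPred_forall, ofPred_and]
  refine isClosed_iInter fun ψ => isClosed_iInter fun _ => IsClosed.inter
    (isClosed_iInter fun k => isClosed_le continuous_const (continuous_tr.comp (xa_cont _)).abs)
    (isClosed_iInter fun h => isClosed_iInter fun _ => isClosed_iInter fun _ =>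
      isClosed_le continuous_const ?_)
  exact (continuous_tr.comp ((continuous_pre h).comp (continuous_act ψ))).abs

theorem isOpen_Ps (τ : MS g) : IsOpen {q : Tup g × ℍ | Ps q.1 q.2 τ} := by
  simp only [Ps, Pos, ofPred_forall]
  exact isOpen_iInter_of_finite fun d => isOpen_lt continuous_const (DF.cont_fD _ _ d)

theorem ps_ev {M : Tup g} {z : ℍ} {τ : MS g} (h : Ps M z τ) : ∀ᶠ N in 𝓝 M, Ps N z τ :=
  (Continuous.prodMk_left z).continuousAt.eventually ((isOpen_Ps τ).mem_nhds (x := (M, z)) h)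

theorem ps_box {M : Tup g} {z : ℍ} {τ : MS g} (hp : Ps M z τ) :
    ∃ r > 0, ∀ᶠ N in 𝓝 M, ∀ w ∈ closedBall z r, Ps N w τ := by
  obtain ⟨U, hU, V, hV, hUV⟩ := mem_nhds_prod_iff.1 ((isOpen_Ps τ).mem_nhds (x := (M, z)) hp)
  obtain ⟨r, r0, hr⟩ := nhds_basis_closedBall.mem_iff.1 hV
  exact ⟨r, r0, mem_of_superset hU fun N hN w hw => @hUV (N, w) ⟨hN, hr hw⟩⟩

/-- Short moves of the base point stay on the leaf, also for nearby representations. -/
theorem lf_loc {M : Tup g} {z : ℍ} {τ : MS g} (h : MT τ) (hp : Ps M z τ) :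
    ∃ r > 0, ∀ᶠ N in 𝓝 M, ∀ w ∈ closedBall z r, Lf N (z, τ) (w, τ) :=
  (ps_box hp).imp fun r ⟨r0, hr⟩ => ⟨r0, hr.mono fun _ hN _ hw => .rel _ _
    (.go _ h (Stp.preconn_closedBall z r) (mem_closedBall_self r0.le) hw hN)⟩

theorem lf_loc' {M : Tup g} {z : ℍ} {τ : MS g} (h : MT τ) (hp : Ps M z τ) :
    ∀ᶠ q in 𝓝 (M, z), Lf q.1 (q.2, τ) (z, τ) := by
  obtain ⟨r, r0, hr⟩ := lf_loc h hp
  filter_upwards [prod_mem_nhds hr (closedBall_mem_nhds z r0)] with q hq
  exact (hq.1 _ hq.2).symm _ _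

/-- The relation of being on the same leaf is open in the representation. -/
theorem lf_open {M : Tup g} {p p' : ℍ × MS g} (h : Lf M p p') : ∀ᶠ N in 𝓝 M, Lf N p p' := by
  induction h with
  | rel _ _ h =>
    cases h with
    | mv h =>
      cases h with
      | iso h1 h2 h3 => exact (ps_ev h2).mono fun N h => .rel _ _ (.mv (.iso h1 h h3))
      | flip d h1 h2 h3 =>
        exact ((ps_ev h2).and (ps_ev h3)).mono fun N h => .rel _ _ (.mv (.flip d h1 h.1 h.2))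
    | @go z z' τ C h1 h2 h3 h4 h5 =>
      refine h2.induction₂' (fun x y => ∀ᶠ N in 𝓝 M, Lf N (x, τ) (y, τ)) (fun x hx => ?_)
        (fun x y w _ _ _ a b => (a.and b).mono fun N h => h.1.trans _ _ _ h.2) h3 h4
      obtain ⟨r, r0, hr⟩ := lf_loc h1 (h5 x hx)
      filter_upwards [mem_nhdsWithin_of_mem_nhds (closedBall_mem_nhds x r0)] with y hy
      exact ⟨hr.mono fun N h => h y hy, hr.mono fun N h => (h y hy).symm _ _⟩
  | refl => exact .of_forall fun _ => .refl _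
  | symm _ _ _ ih => exact ih.mono fun N h => h.symm _ _
  | trans _ _ _ _ _ i1 i2 => exact (i1.and i2).mono fun N h => h.1.trans _ _ _ h.2

theorem lf_ok (hT : TAx g) {M : Tup g} (hM : Fm M) {p p' : ℍ × MS g} (h : Lf M p p') :
    (MT p.2 ∧ Ps M p.1 p.2) ↔ MT p'.2 ∧ Ps M p'.1 p'.2 := by
  induction h with
  | rel _ _ h =>
    cases h with
    | mv h => exact iff_of_true (DF.mv_ok hT hM h).1 (DF.mv_ok hT hM h).2
    | go C h1 h2 h3 h4 h5 => exact iff_of_true ⟨h1, h5 _ h3⟩ ⟨h1, h5 _ h4⟩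
  | refl => rfl
  | symm _ _ _ ih => exact ih.symm
  | trans _ _ _ _ _ i1 i2 => exact i1.trans i2

theorem cont_dV (n : Nx E) (l : E → Fr g) (d : Dr E) :
    Continuous fun q : Tup g × ℍ => dV n (geo q.1 l) q.2 d := by
  have a := DF.cont_vQ l d
  have b := DF.cont_vR n l d
  have c := DF.cont_vQ l (n (rev d))
  exact (((DF.cont_hD c b continuous_snd).add (DF.cont_hD b c a)).sub
    (DF.cont_hD continuous_snd a b)).sub (DF.cont_hD a continuous_snd c)

/-- The field `kcl` of `DAx`, from the field `loc`. -/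
theorem kcl (hT : TAx g) (loc : ∀ {M z} {τ τ' : MS g}, Fm M → MT τ → MT τ' → Ps M z τ →
      Ps M z τ' → ∀ᶠ q in 𝓝 (M, z), Fm q.1 → (Eqv q.1 q.2 τ τ' ↔ Eqv M z τ τ')) :
    ∀ {η R M z} {τ : MS g}, 0 < η → Fm M → Ps M z τ →
      (∃ᶠ q in 𝓝 (M, z), Fm q.1 ∧ KL η R q.1 q.2 τ) → KL η R M z τ := by
  intro η R M z τ hη hM hp h
  have ht : MT τ := h.exists.choose_spec.2.2.1
  refine ⟨(isClosed_Kset 0).mem_of_frequently_of_tendsto (h.mono fun q hq => hq.2.1)
    continuous_fst.continuousAt, ht, hp, fun z' τ' hl => ?_⟩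
  obtain ⟨ht', hp'⟩ := (lf_ok hT hM hl).1 ⟨ht, hp⟩
  obtain ⟨q, hq, h1⟩ := exists_seq_forall_of_frequently (h.and_eventually ((lf_loc' ht hp).and
    (continuous_fst.continuousAt.eventually (f := Prod.fst) ((lf_open hl).and (ps_ev hp')))))
  have h2 : Tendsto (fun k => ((q k).1, z')) atTop (𝓝 (M, z')) :=
    ((continuous_fst.tendsto _).comp hq).prodMk_nhds tendsto_const_nhds
  obtain ⟨S, hS, h3⟩ := DF.fin_states hT R ht' h2.isCompact_insert_range (by
    rintro _ (rfl | ⟨k, rfl⟩)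
    exacts [⟨hM, hp'⟩, ⟨(h1 k).1.1, (h1 k).2.2.2⟩])
  obtain ⟨c, c0, hc⟩ := fat (E := Ed g) η hη
  have h4 : ∀ k, ∃ s ∈ S, MT s ∧ Eqv (q k).1 z' τ' s ∧ Dl (q k).1 z' s ∧ Bd η R (q k).1 z' s ∧
      ∀ d, c ≤ fD s.1 (geo (q k).1 s.2) z' d := fun k => by
    obtain ⟨⟨a1, a2⟩, a3, a4, a5⟩ := h1 k
    obtain ⟨t, b1, b2, b3⟩ := a2.2.2.2 z' τ' (a3.trans _ _ _ a4)
    obtain ⟨s, c1, c2, c3⟩ := h3 _ (.inr ⟨k, rfl⟩) t b1 fun d => (b3 d).2
    obtain ⟨d1, d2⟩ := (DF.eqv_ok hT a1 b1).1 ⟨ht', a5⟩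
    have i : Iso t s := ⟨1, ⟨fun _ => rfl, fun _ => by rw [c2]; rfl⟩, c3⟩
    have e : ∀ d w, dlab (geo (q k).1 s.2) d • w = dlab (geo (q k).1 t.2) d • w := fun d w => by
      rw [DF.dlab_geo, DF.dlab_geo, DF.smul_of_eqN a1 (c3 d)]
    have f1 : Dl (q k).1 z' s := fun d => by
      simpa only [dV, vQ, vR, vS, mul_smul, e, c2] using b2 d
    have f2 : Bd η R (q k).1 z' s := fun d => by simpa only [vQ, e] using b3 d
    exact ⟨s, c1, hT.iso d1 i, b1.trans _ _ _ (.rel _ _ (.iso d1 d2 i)), f1, f2,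
      hc (DF.gs_of hT a1 (hT.iso d1 i) (DF.ps_iso a1 i d2)) f1 fun d => (f2 d).1⟩
  obtain ⟨s, -, h5⟩ : ∃ s ∈ S, ∃ᶠ k in atTop, MT s ∧ Eqv (q k).1 z' τ' s ∧ Dl (q k).1 z' s ∧
      Bd η R (q k).1 z' s ∧ ∀ d, c ≤ fD s.1 (geo (q k).1 s.2) z' d := by
    by_contra hn
    obtain ⟨k, hk⟩ := ((eventually_all_finite hS).2 fun s hs =>
      not_frequently.1 fun h => hn ⟨s, hs, h⟩).exists
    obtain ⟨s, hs, h⟩ := h4 k
    exact hk s hs h
  have cl : ∀ {f : Tup g × ℍ → ℝ} {T : Set ℝ}, Continuous f → IsClosed T →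
      (∃ᶠ k in atTop, f ((q k).1, z') ∈ T) → f (M, z') ∈ T := fun hf hT h =>
    hT.mem_of_frequently_of_tendsto h ((hf.tendsto _).comp h2)
  have hs : Ps M z' s := fun d => c0.trans_le
    (cl (DF.cont_fD s.1 s.2 d) isClosed_Ici (h5.mono fun k h => h.2.2.2.2 d))
  obtain ⟨k, k1, k2⟩ := (h5.and_eventually
    (h2.eventually (loc hM ht' h5.exists.choose_spec.1 hp' hs))).exists
  exact ⟨s, (k2 (h1 k).1.1).1 k1.2.1,
    fun d => cl (cont_dV s.1 s.2 d) isClosed_Ici (h5.mono fun k h => h.2.2.1 d),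
    fun d => cl (continuous_snd.dist (DF.cont_vQ s.2 d)) isClosed_Icc
      (h5.mono fun k h => h.2.2.2.1 d)⟩

end Pool.Agent.MP_596265_gt.U.DM

end

section

/-! Block D: assembly. -/

namespace Pool.Agent.MP_596265_gt.U

theorem dAx {g : ℕ} (hT : TAx g) : DAx g where
  nf := DF.nf hT
  loc := CR.loc hT fun R => DF.fin hT R
  fin := fun R => DF.fin hT R
  hH := DM.hH_nonneg
  fat := DM.fat
  sys := CR.sys hT fun R => DF.fin hT R
  kcl := DM.kcl hT (CR.loc hT fun R => DF.fin hT R)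

end Pool.Agent.MP_596265_gt.U

end

section

attribute [-instance] SMulZeroClass.toSMul GradedMonoid.GradeZero.smul
  NonUnitalRingHomClass.toMulHomClass RKHS.instFunLike MulZeroOneClass.toMulOneClass Algebra.toSMul
  NonUnitalAlgSemiHomClass.toMulHomClass MonTypeEquivalenceMon.monMonoid
  SemigroupWithZero.toSemigroup Valued.toUniformSpace DivisionCommMonoid.toDivisionMonoid
  AddSemigroup.toAdd TestFunctionClass.toDFunLike ESeminormedAddCommMonoid.toAddCommMonoid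
  instCoeTCOfCoe Distrib.toAdd Semiring.toMonoid ContDiffMapSupportedInClass.toDFunLike

/-! Block A, part X: marked triangulations form a class system. -/

namespace Pool.Agent.MP_596265_gt.U

open Filter Topology MeasureTheory Set Metric Erg UpperHalfPlane
open scoped ContDiff

noncomputable section

variable {g : ℕ}

/-- The class system of marked triangulations. -/
def cd (e : ℤ) (η R : ℝ) (F : HF (Ed g)) : CD g (MS g) where
  P := fun τ M z => MT τ ∧ Ps M z τ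
  Ar := fun τ τ' ψ M z => AutR ψ ∧ M ∈ X g e ∧ MT τ ∧ Ps M z τ ∧ Eqv M z τ (mp ψ τ')
  K := fun τ M z => M ∈ X g e ∧ KL η R M z τ
  F := fun τ M z U V => F τ.1 (geo M τ.2) z (geoT M U τ.2) (geoT M V τ.2)

variable {e : ℤ} {η R : ℝ} {F : HF (Ed g)}


end

end Pool.Agent.MP_596265_gt.U

/-! Row X1: positivity and arrows. -/

namespace Pool.Agent.MP_596265_gt.U

open Filter Topology Set Erg UpperHalfPlane

variable {g : ℕ} {e : ℤ} {η R : ℝ} {F : HF (Ed g)}

namespace X1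

theorem fm {M : Tup g} (hM : M ∈ X g e) : Fm M := by
  have := X_pm hM
  rwa [pre_eq] at this

theorem lift_cj {k : G} {M N : Tup g} (h : Cj k M N) (w : Fr g) :
    PM (FreeGroup.lift N w) (k * FreeGroup.lift M w * k⁻¹) := by
  induction w using FreeGroup.induction_on with
  | C1 => exact .inl (by simp)
  | of x => simpa only [FreeGroup.lift_apply_of, cj] using h x
  | inv_of x hx =>
    have := hx.inv
    rwa [← map_inv, mul_inv_rev, mul_inv_rev, inv_inv, ← mul_assoc, ← map_inv] at this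
  | mul x y hx hy =>
    have := hx.mul hy
    rwa [← map_mul, mul_assoc, ← mul_assoc k⁻¹, inv_mul_cancel_left, ← mul_assoc, mul_assoc k,
      ← map_mul] at this

theorem smul_cj {k : G} {M N : Tup g} (h : Cj k M N) (w : Fr g) (z : ℍ) :
    FreeGroup.lift N w • k • z = k • FreeGroup.lift M w • z := by
  rw [(lift_cj h w).smul_eq, mul_smul, mul_smul, inv_smul_smul]

theorem ps_cj {k : G} {M N : Tup g} (h : Cj k M N) {z : ℍ} {τ : MS g} (hp : Ps M z τ) :
    Ps N (k • z) τ := fun d => by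
  have := hp d
  simp only [fD, vQ, vR, DF.dlab_geo, ← map_mul] at this ⊢
  rwa [smul_cj h, smul_cj h, DF.hD_smul]

theorem eqv_cj {k : G} {M N : Tup g} (h : Cj k M N) {z : ℍ} {τ τ' : MS g} (H : Eqv M z τ τ') :
    Eqv N (k • z) τ τ' := by
  refine Relation.EqvGen.mono (fun a b m => ?_) _ _ H
  cases m with
  | iso h1 h2 h3 => exact .iso h1 (ps_cj h h2) h3
  | flip d h1 h2 h3 => exact .flip d h1 (ps_cj h h2) (ps_cj h h3)

theorem geo_mp (ψ : AutF g) (M : Tup g) (τ : MS g) :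
    geo M (mp ψ τ).2 = geo (act ψ M) τ.2 := funext fun _ => (lift_act ψ M _).symm

theorem ps_mp {ψ : AutF g} {M : Tup g} {z : ℍ} {τ : MS g} :
    Ps M z (mp ψ τ) ↔ Ps (act ψ M) z τ := by
  rw [Ps, geo_mp]; rfl

theorem mp_symm (ψ : AutF g) (τ : MS g) : mp ψ.symm (mp ψ τ) = τ :=
  Prod.ext rfl (funext fun _ => ψ.symm_apply_apply _)

theorem mp_flip (ψ : AutF g) (τ : MS g) (d : Dr (Ed g)) :
    mp ψ (flip τ d) = flip (mp ψ τ) d :=
  Prod.ext rfl (DF.map_flb ψ.toMonoidHom τ.1 τ.2 d)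

theorem iso_mp {ψ : AutF g} (hψ : AutR ψ) {τ τ' : MS g} (h : Iso τ τ') :
    Iso (mp ψ τ) (mp ψ τ') := by
  obtain ⟨σ, hσ, hl⟩ := h
  refine ⟨σ, hσ, fun d => ?_⟩
  have := (hl d).map hψ
  rwa [map_dlab, map_dlab] at this

theorem eqv_mp (hT : TAx g) {ψ : AutF g} (hψ : AutR ψ) {M : Tup g} {z : ℍ} {τ τ' : MS g}
    (H : Eqv (act ψ M) z τ τ') : Eqv M z (mp ψ τ) (mp ψ τ') := by
  induction H with
  | rel a b m =>
    refine .rel _ _ ?_
    cases m with
    | iso h1 h2 h3 => exact .iso (hT.mp h1 hψ) (ps_mp.2 h2) (iso_mp hψ h3)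
    | flip d h1 h2 h3 =>
      rw [mp_flip]
      exact .flip d (hT.mp h1 hψ) (ps_mp.2 h2) (mp_flip ψ _ d ▸ ps_mp.2 h3)
  | refl => exact .refl _
  | symm _ _ _ ih => exact .symm _ _ ih
  | trans _ _ _ _ _ i1 i2 => exact .trans _ _ _ i1 i2

theorem cont_hD : Continuous fun q : ℍ × ℍ × ℍ => hD q.1 q.2.1 q.2.2 := by
  have r := UpperHalfPlane.continuous_re
  have i := UpperHalfPlane.continuous_im
  simp only [hD, hdet, det3, Φ]
  refine Continuous.div (by fun_prop) (by fun_prop) fun w => ?_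
  exact (mul_pos (mul_pos w.1.im_pos w.2.1.im_pos) w.2.2.im_pos).ne'

theorem ps_ev {M : Tup g} {z : ℍ} {τ : MS g} (hp : Ps M z τ) :
    ∀ᶠ q in 𝓝 (M, z), Ps q.1 q.2 τ := by
  refine eventually_all.2 fun d => ?_
  have c : ∀ w : Fr g, Continuous fun q : Tup g × ℍ => FreeGroup.lift q.1 w • q.2 := fun w =>
    ((xa_cont w).comp continuous_fst).smul continuous_snd
  have := hp d
  simp only [fD, vQ, vR, DF.dlab_geo, ← map_mul] at this ⊢
  exact (cont_hD.comp (continuous_snd.prodMk ((c _).prodMk (c _)))).continuousAt.eventually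
    (lt_mem_nhds this)

end X1

open X1 in
theorem cd_arrows (hT : TAx g) (hD : DAx g) {d : CD g (MS g)} (hd : d = cd e η R F) :
    (∀ {τ M z}, M ∈ X g e → d.P τ M z → ∀ᶠ q in 𝓝 (M, z), q.1 ∈ X g e → d.P τ q.1 q.2) ∧
    (∀ {τ M N z k}, M ∈ X g e → Cj k M N → d.P τ M z → d.P τ N (k • z)) ∧
    (∀ {τ τ' ψ M z}, d.Ar τ τ' ψ M z → AutR ψ ∧ M ∈ X g e ∧ d.P τ M z ∧ d.P τ' (act ψ M) z) ∧
    (∀ {τ τ' ψ M z}, d.Ar τ τ' ψ M z → d.Ar τ' τ ψ.symm (act ψ M) z) ∧
    (∀ {τ τ' τ'' ψ ψ' M z}, d.Ar τ τ' ψ M z → d.Ar τ' τ'' ψ' (act ψ M) z →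
      d.Ar τ τ'' (ψ'.trans ψ) M z) ∧
    (∀ {τ τ' ψ M N z k}, Cj k M N → d.Ar τ τ' ψ M z → d.Ar τ τ' ψ N (k • z)) ∧
    (∀ {τ τ' ψ ψ' φ M z}, Ind ψ φ → Ind ψ' φ → d.Ar τ τ' ψ M z → d.Ar τ τ' ψ' M z) ∧
    (∀ {τ τ' ψ M z}, AutR ψ → M ∈ X g e → d.P τ M z → d.P τ' (act ψ M) z →
      ∀ᶠ q in 𝓝 (M, z), q.1 ∈ X g e → (d.Ar τ τ' ψ q.1 q.2 ↔ d.Ar τ τ' ψ M z)) := by
  subst hd
  have tg : ∀ {τ τ' : MS g} {ψ : AutF g} {M z}, (cd e η R F).Ar τ τ' ψ M z →
      MT τ' ∧ Ps (act ψ M) z τ' := fun {τ τ' ψ M z} ⟨a, b, c, d, h⟩ => by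
    obtain ⟨h1, h2⟩ := (DF.eqv_ok hT (fm b) h).1 ⟨c, d⟩
    exact ⟨mp_symm ψ τ' ▸ hT.mp h1 a.symm, ps_mp.1 h2⟩
  refine ⟨fun _ h => (ps_ev h.2).mono fun _ a _ => ⟨h.1, a⟩, fun _ c h => ⟨h.1, ps_cj c h.2⟩,
    fun h => ⟨h.1, h.2.1, ⟨h.2.2.1, h.2.2.2.1⟩, tg h⟩, fun {τ τ' ψ M z} h => ?_,
    fun h h' => ?_, fun c ⟨a, b, h1, h2, h⟩ => ⟨a, c.mem b, h1, ps_cj c h2, eqv_cj c h⟩,
    fun {τ τ' ψ ψ' φ M z} i i' ⟨a, b, h1, h2, h⟩ => ⟨i'.1, b, h1, h2, ?_⟩,
    fun {τ τ' ψ M z} a b h h' => ?_⟩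
  · refine ⟨h.1.symm, X_act h.1 h.2.1, (tg h).1, (tg h).2, .symm _ _ ?_⟩
    have := eqv_mp hT h.1.symm (M := act ψ M) (z := z) (τ := τ) (τ' := mp ψ τ')
      (by rw [act_symm]; exact h.2.2.2.2)
    rwa [mp_symm] at this
  · exact ⟨h'.1.trans h.1, h.2.1, h.2.2.1, h.2.2.2.1,
      .trans _ _ _ h.2.2.2.2 (eqv_mp hT h.1 h'.2.2.2.2)⟩
  · obtain ⟨k1, k2⟩ := (DF.eqv_ok hT (fm b) h).1 ⟨h1, h2⟩
    exact .trans _ _ _ h (.rel _ _ (.iso k1 k2 ⟨1, ⟨fun _ => rfl, fun _ => rfl⟩, fun d =>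
      cg_dlab (fun x => QuotientGroup.eq.1 ((i.2 (τ'.2 x)).symm.trans (i'.2 _))) d⟩))
  · filter_upwards [hD.loc (fm b) h.1 (hT.mp h'.1 a) h.2 (ps_mp.2 h'.2), ps_ev h.2] with q q1 q2 hq
    exact ⟨fun k => ⟨a, b, h.1, h.2, (q1 (fm hq)).1 k.2.2.2.2⟩,
      fun k => ⟨a, hq, h.1, q2, (q1 (fm hq)).2 k.2.2.2.2⟩⟩

end Pool.Agent.MP_596265_gt.U

/-! Block A, row X2: finiteness of arrows. -/

namespace Pool.Agent.MP_596265_gt.U

open Filter Topology MeasureTheory Set Metric Erg UpperHalfPlane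

variable {g : ℕ}

namespace X2

theorem fm {e : ℤ} {M : Tup g} (h : M ∈ X g e) : Fm M := by
  have := X_pm h
  rwa [pre_eq] at this

theorem mt (hT : TAx g) {M : Tup g} {z : ℍ} (hM : Fm M) {a b : MS g} (h : Eqv M z a b) :
    MT a ↔ MT b := by
  induction h with
  | rel a b h =>
    cases h with
    | iso h1 _ h3 => exact iff_of_true h1 (hT.iso h1 h3)
    | flip d h1 h2 _ =>
      exact iff_of_true h1 (hT.flip h1 (DF.fl_of_pos ⟨h1.1, DF.flat_geo hM (hT.flat h1), h2⟩ d))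
  | refl a => rfl
  | symm a b _ ih => exact ih.symm
  | trans a b c _ _ h1 h2 => exact h1.trans h2

theorem mk_eq {x y : Fr g} (h : EqN x y) :
    PresentedGroup.mk {relPre g g} x = PresentedGroup.mk {relPre g g} y :=
  QuotientGroup.eq.2 h

theorem hom_lab {E H K : Type} [Group H] [Group K] (f : H →* K) (l : E → H) (w : List (E × Bool)) :
    f (lab l w) = lab (fun x => f (l x)) w :=
  DFunLike.congr_fun (show f.comp (FreeGroup.lift l) = FreeGroup.lift fun x => f (l x) by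
    ext x; simp) _

theorem dist_cj {k : G} {M N : Tup g} (h : Cj k M N) (w : Fr g) (z : ℍ) :
    dist z (FreeGroup.lift M w • z) = dist (k • z) (FreeGroup.lift N w • k • z) := by
  have e : FreeGroup.lift (fun x => cj k (M x)) w = k * FreeGroup.lift M w * k⁻¹ :=
    (DFunLike.congr_fun (show (MulAut.conj k).toMonoidHom.comp (FreeGroup.lift M) =
      FreeGroup.lift fun x => cj k (M x) by ext x : 1; simp only [MulEquiv.toMonoidHom_eq_coe, MonoidHom.coe_comp, MonoidHom.coe_coe, Function.comp_apply, FreeGroup.lift_apply_of, MulAut.conj_apply, cj]) w).symm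
  rw [(pm_lift h w).smul_eq, e, mul_smul, mul_smul, inv_smul_smul, dist_smul]

end X2

variable {e : ℤ} {η R : ℝ} {F : HF (Ed g)}

open X2 in
theorem cd_fin (hT : TAx g) (hD : DAx g) {d : CD g (MS g)} (hd : d = cd e η R F) (τ τ' : MS g)
    (C C' : Set (Tup g × ℍ)) (hC : IsCompact C) (hC' : IsCompact C')
    (h : ∀ q ∈ C, q.1 ∈ X g e ∧ d.P τ q.1 q.2) :
    {φ | ∃ ψ, Ind ψ φ ∧ ∃ q ∈ C, ∃ q' ∈ C', ∃ k, d.Ar τ τ' ψ q.1 q.2 ∧ Cj k (act ψ q.1) q'.1 ∧
      k • q.2 = q'.2}.Finite := by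
  subst hd
  by_cases hτ : MT τ
  swap
  · refine Set.finite_empty.subset ?_
    rintro φ ⟨ψ, -, q, -, q', -, k, hA, -⟩
    exact hτ hA.2.2.1
  have hc : Continuous fun q : Tup g × ℍ =>
      ∑ x, dist q.2 (FreeGroup.lift q.1 (τ'.2 x) • q.2) :=
    continuous_finsetSum _ fun x _ =>
      continuous_snd.dist (((continuous_lift _).comp continuous_fst).smul continuous_snd)
  obtain ⟨B, hB⟩ := hC'.bddAbove_image hc.continuousOn
  obtain ⟨S, hS⟩ := hD.fin B hτ hC fun q hq => ⟨fm (h q hq).1, (h q hq).2.2⟩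
  let π := PresentedGroup.mk ({relPre g g} : Set (Fr g))
  refine Set.Finite.of_finite_image (f := fun φ (x : Ed g) => φ (π (τ'.2 x)))
    ((Set.Finite.pi' fun _ => S.finite_toSet.image π).subset ?_) ?_
  · rintro _ ⟨φ, ⟨ψ, hψ, q, hq, q', hq', k, hA, hk, hz⟩, rfl⟩ x
    obtain ⟨s, hs, e⟩ := hS q hq _ hA.2.2.2.2 (x, true) (by
      change dist q.2 (FreeGroup.lift q.1 (ψ (τ'.2 x)) • q.2) ≤ B
      rw [← lift_act, dist_cj hk, hz]
      exact (Finset.single_le_sum (f := fun x => dist q'.2 (FreeGroup.lift q'.1 (τ'.2 x) • q'.2))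
        (fun _ _ => dist_nonneg) (Finset.mem_univ x)).trans (hB ⟨q', hq', rfl⟩))
    exact ⟨s, hs, ((hψ.2 _).trans (mk_eq e)).symm⟩
  · rintro φ ⟨ψ, hψ, q, -, q', -, k, hA, -⟩ φ' - e
    have hm := (mt hT (fm hA.2.1) hA.2.2.2.2).1 hτ
    ext s
    obtain ⟨y, hy⟩ := PresentedGroup.mk_surjective _ (φ s)
    obtain ⟨w, hw⟩ := hT.gen hm y
    have e1 : s = π (lab τ'.2 w) := φ.injective (by
      rw [hψ.2, ← hy, mk_eq hw]
      exact congrArg π (hom_lab ψ.toMonoidHom τ'.2 w).symm)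
    rw [e1]
    exact (hom_lab (φ.toMonoidHom.comp π) _ w).trans
      ((congrArg (lab · w) e).trans (hom_lab (φ'.toMonoidHom.comp π) _ w).symm)

end Pool.Agent.MP_596265_gt.U

/-! Row X3: the thick set. -/

namespace Pool.Agent.MP_596265_gt.U

open Filter Topology MeasureTheory Set Metric Erg UpperHalfPlane

variable {g : ℕ}

namespace X3

/-- Transport of states along `k` and `m`. -/
structure Tp (M N : Tup g) (k : G) (m : MS g → MS g) : Prop where
  mt : ∀ τ, MT τ → MT (m τ)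
  iso : ∀ τ τ', Iso τ τ' → Iso (m τ) (m τ')
  fl : ∀ τ d, m (flip τ d) = flip (m τ) d
  fst : ∀ τ, (m τ).1 = τ.1
  lb : ∀ τ d, PM (dlab (geo N (m τ).2) d) (cj k (dlab (geo M τ.2) d))

variable {M N : Tup g} {k : G} {m m' : MS g → MS g}

theorem Tp.sm (h : Tp M N k m) (τ d) (w : ℍ) :
    dlab (geo N (m τ).2) d • k • w = k • dlab (geo M τ.2) d • w := by
  rw [(h.lb τ d).smul_eq, cj, mul_smul, mul_smul, inv_smul_smul]

theorem Tp.q (h : Tp M N k m) (τ d) (z : ℍ) :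
    vQ (geo N (m τ).2) (k • z) d = k • vQ (geo M τ.2) z d := h.sm τ d z
theorem Tp.r (h : Tp M N k m) (τ d) (z : ℍ) :
    vR (m τ).1 (geo N (m τ).2) (k • z) d = k • vR τ.1 (geo M τ.2) z d := by
  rw [vR, vR, mul_smul, mul_smul, h.sm, h.sm, h.fst]
theorem Tp.s (h : Tp M N k m) (τ d) (z : ℍ) :
    vS (m τ).1 (geo N (m τ).2) (k • z) d = k • vS τ.1 (geo M τ.2) z d := by
  rw [vS, vS, h.sm, h.fst]

theorem Tp.ps (h : Tp M N k m) {τ} {z : ℍ} (hp : Ps M z τ) : Ps N (k • z) (m τ) := fun d => by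
  rw [fD, h.q, h.r, DF.hD_smul]; exact hp d
theorem Tp.dl (h : Tp M N k m) {τ} {z : ℍ} (hp : Dl M z τ) : Dl N (k • z) (m τ) := fun d => by
  rw [dV, h.q, h.r, h.s, DF.hD_smul, DF.hD_smul, DF.hD_smul, DF.hD_smul]; exact hp d
theorem Tp.bd (h : Tp M N k m) {η R τ} {z : ℍ} (hp : Bd η R M z τ) : Bd η R N (k • z) (m τ) :=
  fun d => by rw [h.q, dist_smul]; exact hp d

theorem Tp.mv (h : Tp M N k m) {τ τ'} {z : ℍ} (hp : Mv M z τ τ') :
    Mv N (k • z) (m τ) (m τ') := by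
  cases hp with
  | iso a b c => exact .iso (h.mt _ a) (h.ps b) (h.iso _ _ c)
  | flip d a b c =>
    have := h.ps c
    rw [h.fl] at this ⊢
    exact .flip d (h.mt _ a) (h.ps b) this

theorem Tp.eqv (h : Tp M N k m) {τ τ'} {z : ℍ} (hp : Eqv M z τ τ') :
    Eqv N (k • z) (m τ) (m τ') := by
  induction hp with
  | rel _ _ a => exact .rel _ _ (h.mv a)
  | refl => exact .refl _
  | symm _ _ _ a => exact .symm _ _ a
  | trans _ _ _ _ _ a b => exact .trans _ _ _ a b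

theorem Tp.lf (h : Tp M N k m) {p q} (hp : Lf M p q) :
    Lf N (k • p.1, m p.2) (k • q.1, m q.2) := by
  induction hp with
  | rel _ _ a =>
    refine .rel _ _ ?_
    cases a with
    | mv a => exact .mv (h.mv a)
    | go C a b c d e =>
      refine .go ((k • ·) '' C) (h.mt _ a) (b.image _ (continuous_const_smul k).continuousOn)
        (mem_image_of_mem _ c) (mem_image_of_mem _ d) ?_
      rintro _ ⟨w, hw, rfl⟩
      exact h.ps (e w hw)
  | refl => exact .refl _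
  | symm _ _ _ a => exact .symm _ _ a
  | trans _ _ _ _ _ a b => exact .trans _ _ _ a b

theorem Tp.kl (h : Tp M N k m) (h' : Tp N M k⁻¹ m') (e : ∀ τ, m' (m τ) = τ)
    (e' : ∀ τ, m (m' τ) = τ) (hN : N ∈ Kset g 0) {η R τ} {z : ℍ} (hK : KL η R M z τ) :
    KL η R N (k • z) (m τ) := by
  refine ⟨hN, h.mt _ hK.2.1, h.ps hK.2.2.1, fun z' τ' hl => ?_⟩
  have a := h'.lf hl
  simp only [inv_smul_smul, e] at a
  obtain ⟨τ'', b, c, d⟩ := hK.2.2.2 _ _ a
  have b' := h.eqv b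
  have c' := h.dl c
  have d' := h.bd d
  rw [smul_inv_smul] at b' c' d'
  rw [e'] at b'
  exact ⟨_, b', c', d'⟩

theorem lift_cj (h : Cj k M N) (w : Fr g) :
    PM (FreeGroup.lift N w) (cj k (FreeGroup.lift M w)) := by
  induction w using FreeGroup.induction_on with
  | C1 => exact .inl (by simp [cj])
  | of x => simpa using h x
  | inv_of x hx => rw [map_inv, map_inv, yd_inv]; exact hx.inv
  | mul x y hx hy => rw [map_mul, map_mul, yd_mul]; exact hx.mul hy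

theorem tp_cj (h : Cj k M N) : Tp M N k id :=
  ⟨fun _ a => a, fun _ _ a => a, fun _ _ => rfl, fun _ => rfl, fun τ d => by
    rw [DF.dlab_geo, DF.dlab_geo]; exact lift_cj h _⟩

theorem tp_mp (hT : TAx g) {ψ : AutF g} (hψ : AutR ψ) (h : M = act ψ N) : Tp M N 1 (mp ψ) := by
  have k : ∀ (l : Ed g → Fr g) d, dlab (fun x => ψ (l x)) d = ψ (dlab l d) :=
    fun l d => DF.map_dlab ψ.toMonoidHom l d
  refine ⟨fun _ a => hT.mp a hψ, fun τ τ' ⟨σ, a, b⟩ => ⟨σ, a, fun d => ?_⟩, fun τ d => ?_,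
    fun _ => rfl, fun τ d => .inl ?_⟩
  · simp only [mp, k]; exact (b d).map hψ
  · exact Prod.ext rfl (DF.map_flb ψ.toMonoidHom τ.1 τ.2 d)
  · rw [DF.dlab_geo, DF.dlab_geo, h, lift_act]; simp only [mp, k, cj, one_mul, inv_one, mul_one]

theorem abs_tr {x y : G} (h : PM x (cj k y)) : |tr x| = |tr y| := by
  rcases h with h | h <;> rw [h]
  · rw [tr_cj]
  · rw [tr_neg, abs_neg, tr_cj]

theorem kset_cj {ε : ℝ} (h : Cj k M N) (hM : M ∈ Kset g ε) : N ∈ Kset g ε := fun ψ hψ =>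
  ⟨fun j => ((hM ψ hψ).1 j).trans_eq (abs_tr (lift_cj h _)).symm, fun j a b => by
    rw [pre_eq, lift_act, abs_tr (lift_cj h _), ← lift_act, ← pre_eq]; exact (hM ψ hψ).2 j a b⟩

theorem kset_act {ε : ℝ} {ψ : AutF g} (hψ : AutR ψ) (hM : M ∈ Kset g ε) :
    act ψ M ∈ Kset g ε := fun ψ' h => by
  rw [← act_trans]; exact hM _ (h.trans hψ)

theorem lf_of_eqv {z : ℍ} {τ τ'} (h : Eqv M z τ τ') : Lf M (z, τ) (z, τ') := by
  induction h with
  | rel _ _ a => exact .rel _ _ (.mv a)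
  | refl => exact .refl _
  | symm _ _ _ a => exact .symm _ _ a
  | trans _ _ _ _ _ a b => exact .trans _ _ _ a b

theorem kl_lf {η R} {z z' : ℍ} {τ τ'} (hK : KL η R M z τ) (h : Lf M (z, τ) (z', τ'))
    (a : MT τ') (b : Ps M z' τ') : KL η R M z' τ' :=
  ⟨hK.1, a, b, fun _ _ c => hK.2.2.2 _ _ (.trans _ _ _ h c)⟩

theorem fm {e : ℤ} (h : M ∈ X g e) : Fm M := by
  rw [Fm, ← pre_eq]; exact X_pm h

end X3

open X3 in
theorem cd_thick {e : ℤ} {η R : ℝ} {F : HF (Ed g)} (hT : TAx g) (hD : DAx g) (hη : 0 < η)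
    {d : CD g (MS g)} (hd : d = cd e η R F) :
    (∀ τ z, MeasurableSet {M | d.K τ M z}) ∧
    (∀ {τ τ' ψ M z}, d.Ar τ τ' ψ M z → d.K τ M z → d.K τ' (act ψ M) z) ∧
    (∀ {τ M N z k}, Cj k M N → d.K τ M z → d.K τ N (k • z)) ∧
    (∀ {τ M z}, M ∈ X g e → d.P τ M z → ∀ᶠ w in 𝓝 z, (d.K τ M w ↔ d.K τ M z)) := by
  have hO := @(cd_arrows hT hD hd).1
  subst hd
  refine ⟨fun τ z => ?_, fun {τ τ' ψ M z} ⟨a, b, _, _, c⟩ hK => ⟨X_act a b, ?_⟩,
    fun {τ M N z k} h hK => ⟨h.mem hK.1, ?_⟩, fun {τ M z} hM hP => ?_⟩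
  · have : {M | (cd e η R F).K τ M z} = X g e ∩ interior {M | M ∈ X g e → MT τ ∧ Ps M z τ} ∩
        closure {M | (cd e η R F).K τ M z} := by
      refine Subset.antisymm (fun M hM => ⟨⟨hM.1, mem_interior_iff_mem_nhds.2 ?_⟩,
        subset_closure hM⟩) fun M ⟨⟨a, b⟩, c⟩ => ⟨a, ?_⟩
      · exact (Continuous.prodMk_left z).continuousAt.tendsto.eventually
          (hO hM.1 ⟨hM.2.2.1, hM.2.2.2.1⟩)
      · refine hD.kcl hη (fm a) (interior_subset b a).2 ?_
        exact (Continuous.prodMk_left z).continuousAt.tendsto.frequently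
          ((mem_closure_iff_frequently.1 c).mono fun N hN => ⟨fm hN.1, hN.2⟩)
    rw [this]
    exact ((isClosed_X e).measurableSet.inter isOpen_interior.measurableSet).inter
      isClosed_closure.measurableSet
  · have hk := (DF.eqv_ok hT (fm b) c).1 ⟨hK.2.2.1, hK.2.2.2.1⟩
    have h1 := kl_lf hK.2 (lf_of_eqv c) hk.1 hk.2
    have e1 : ∀ (ψ : AutF g) (τ : MS g), mp ψ.symm (mp ψ τ) = τ := fun ψ τ =>
      Prod.ext rfl (funext fun x => ψ.symm_apply_apply _)
    have t1 : Tp M (act ψ M) 1 (mp ψ.symm) := tp_mp hT a.symm (by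
      rw [← act_trans]; funext x; simp [act])
    have t2 : Tp (act ψ M) M 1⁻¹ (mp ψ) := by rw [inv_one]; exact tp_mp hT a rfl
    have := t1.kl t2 (e1 ψ.symm) (e1 ψ) (kset_act a hK.2.1) h1
    rwa [one_smul, e1] at this
  · exact (tp_cj h).kl (tp_cj h.symm) (fun _ => rfl) (fun _ => rfl) (kset_cj h hK.2.1) hK.2
  · have h1 : {w | Ps M w τ} ∈ 𝓝 z :=
      ((Continuous.prodMk_right M).continuousAt.tendsto.eventually (hO hM hP)).mono
        fun w hw => (hw hM).2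
    filter_upwards [connectedComponentIn_mem_nhds h1] with w hw
    have h2 : Lf M (z, τ) (w, τ) := .rel _ _ (.go _ hP.1 isPreconnected_connectedComponentIn
      (mem_connectedComponentIn hP.2) hw fun _ h => connectedComponentIn_subset _ _ h)
    exact and_congr_right fun _ => ⟨fun h => kl_lf h (.symm _ _ h2) hP.1 hP.2,
      fun h => kl_lf h h2 hP.1 (connectedComponentIn_subset _ _ hw)⟩

end Pool.Agent.MP_596265_gt.U

/-! Block A, row X4: the thick set is compact modulo arrows. -/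

namespace Pool.Agent.MP_596265_gt.U

open Filter Topology MeasureTheory Set Metric Erg UpperHalfPlane

noncomputable section

variable {g : ℕ} {e : ℤ} {η R : ℝ} {F : HF (Ed g)}

namespace X4

theorem fm_of_X {M : Tup g} (hM : M ∈ X g e) : Fm M := by
  have := X_pm hM
  rwa [pre_eq] at this

theorem dist_lab {E : Type} {M : Tup g} {l : E → Fr g} {z : ℍ}
    (h : ∀ d, dist z (vQ (geo M l) z d) ≤ R) (w : List (Dr E)) :
    dist z (FreeGroup.lift M (lab l w) • z) ≤ w.length * R := by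
  induction w with
  | nil => simp
  | cons d w ih =>
    have h1 := h d
    have h2 := dist_triangle z (FreeGroup.lift M (dlab l d) • z)
      (FreeGroup.lift M (dlab l d) • FreeGroup.lift M (lab l w) • z)
    rw [vQ, DF.dlab_geo] at h1
    rw [dist_smul] at h2
    rw [lab_cons, map_mul, mul_smul, List.length_cons]
    push_cast
    linarith

theorem cont_hD {Y : Type} [TopologicalSpace Y] {p q r : Y → ℍ} (hp : Continuous p)
    (hq : Continuous q) (hr : Continuous r) : Continuous fun y => hD (p y) (q y) (r y) := by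
  unfold hD hdet det3 Φ
  exact Continuous.div (by fun_prop) (by fun_prop) fun y =>
    (mul_pos (mul_pos (p y).im_pos (q y).im_pos) (r y).im_pos).ne'

/-- The compact set of a marked type. -/
def CC (e : ℤ) (R c : ℝ) (τ : MS g) : Set (Tup g) :=
  X g e ∩ ((⋂ x, {M | 2 ≤ |tr (M x)|}) ∩ ((⋂ d, {M | dist I (vQ (geo M τ.2) I d) ≤ R}) ∩
    ⋂ d, {M | c ≤ fD τ.1 (geo M τ.2) I d}))

theorem compact_CC (hT : TAx g) (c : ℝ) {τ : MS g} (h : MT τ) : IsCompact (CC e R c τ) := by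
  choose w hw using fun x => hT.gen h (FreeGroup.of x)
  have c1 : ∀ d, Continuous fun M : Tup g => dlab (geo M τ.2) d := fun d => by
    simpa only [DF.dlab_geo] using xa_cont _
  refine (isCompact_univ_pi fun x => Sx.isCompact_move I I ((w x).length * R)).of_isClosed_subset
    ((isClosed_X e).inter ((isClosed_iInter fun x => isClosed_le continuous_const ?_).inter
      ((isClosed_iInter fun d => isClosed_le ?_ continuous_const).inter
        (isClosed_iInter fun d => isClosed_le continuous_const ?_)))) fun M hM x _ => ?_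
  · exact (((basic_cont 0 0).add (basic_cont 1 1)).comp (continuous_apply x)).abs
  · exact continuous_const.dist ((c1 d).smul continuous_const)
  · exact cont_hD continuous_const ((c1 d).smul continuous_const)
      (((c1 d).mul (c1 _)).smul continuous_const)
  · have := dist_lab (R := R) (M := M) (fun d => mem_iInter.1 hM.2.2.1 d) (w x)
    rwa [← DF.smul_of_eqN (fm_of_X hM.1) (hw x), FreeGroup.lift_apply_of, dist_comm] at this

theorem tr_K {M : Tup g} (h : M ∈ Kset g 0) {ψ : AutF g} (hψ : AutR ψ) (x : Gen g) :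
    2 ≤ |tr (act ψ M x)| := by
  obtain ⟨j, b⟩ := x
  cases b
  · simpa [ha] using (h ψ hψ).1 j
  · obtain ⟨χ, hχ, e⟩ := au_sig j
    have := (h _ (hχ.trans hψ)).1 j
    rwa [act_trans, e, ha_setH, tr_inv, add_zero] at this

end X4

open X4 in
theorem cd_cov (he : e ≠ 0) (hT : TAx g) (hD : DAx g) (hη : 0 < η) {d : CD g (MS g)}
    (hd : d = cd e η R F) : ∃ (I₀ : Finset (MS g)) (C : MS g → Set (Tup g)),
    (∀ τ ∈ I₀, IsCompact (C τ) ∧ ∀ M ∈ C τ, M ∈ X g e ∧ d.P τ M I ∧ Ir M) ∧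
    ∀ τ M z, d.K τ M z → ∃ τ' ∈ I₀, ∃ ψ k, ∃ N ∈ C τ', d.Ar τ τ' ψ M z ∧ Cj k (act ψ M) N ∧
      k • z = I := by
  classical
  subst hd
  obtain ⟨c, hc, hfat⟩ := hD.fat η hη
  choose m hm using fun n : {n : Nx (Ed g) // ∃ l, MT (n, l)} => n.2
  refine ⟨Finset.univ.image fun n => (n.1, m n), CC e R c, fun τ hτ => ?_, fun τ M z hK => ?_⟩
  · obtain ⟨n, -, rfl⟩ := Finset.mem_image.1 hτ
    refine ⟨compact_CC hT c (hm n), fun M hM => ⟨hM.1, ⟨hm n, fun d => ?_⟩,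
      ir_of_X he hM.1 fun x h0 => ?_⟩⟩
    · exact hc.trans_le (mem_iInter.1 hM.2.2.2 d)
    · have : 2 ≤ |tr (M x)| := mem_iInter.1 hM.2.1 x
      rw [h0, abs_zero] at this
      linarith
  · obtain ⟨hX, hK, h1, h2, h3⟩ := hK
    obtain ⟨⟨n, l⟩, h4, h5, h6⟩ := h3 z τ (.refl _)
    have hF := fm_of_X hX
    obtain ⟨h7, h8⟩ := (DF.eqv_ok hT hF h4).1 ⟨h1, h2⟩
    obtain ⟨ψ, hψ, h9⟩ := hT.same (hm ⟨n, l, h7⟩) h7 rfl
    obtain ⟨k, rfl⟩ := exists_smul_I z
    generalize hl : m ⟨n, l, h7⟩ = l' at h9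
    have hdl : ∀ d, Cg (ψ (dlab l' d)) (dlab l d) := fun d => by
      rw [map_dlab]; exact cg_dlab h9 d
    have key : ∀ d (w : ℍ), dlab (geo (cjT k⁻¹ (act ψ M)) l') d • k⁻¹ • w =
        k⁻¹ • dlab (geo M l) d • w := fun d w => by
      rw [DF.dlab_geo, DF.dlab_geo, Sx.lift_cjT, lift_act, cj, mul_smul, mul_smul, inv_smul_smul,
        DF.smul_of_eqN hF (hdl d)]
    have hI : (I : ℍ) = k⁻¹ • k • I := (inv_smul_smul k I).symm
    refine ⟨(n, l'), Finset.mem_image.2 ⟨⟨n, l, h7⟩, Finset.mem_univ _, by rw [hl]⟩, ψ, k⁻¹,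
      cjT k⁻¹ (act ψ M), ⟨Sx.X_cjT _ (X_act hψ hX), mem_iInter.2 fun x => ?_,
        mem_iInter.2 fun d => ?_, mem_iInter.2 fun d => ?_⟩,
      ⟨hψ, hX, h1, h2, .trans _ _ _ h4 (.rel _ _ (.iso h7 h8
        ⟨1, ⟨fun _ => rfl, fun _ => rfl⟩, fun d => (cg_dlab h9 d).symm⟩))⟩, cj_cjT _ _, hI.symm⟩
    · change 2 ≤ |tr (k⁻¹ * _ * k⁻¹⁻¹)|
      rw [tr_conj]
      exact tr_K hK hψ x
    · change dist I (_ • I) ≤ R
      rw [hI, key, dist_smul]
      exact (h6 d).2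
    · have := hfat (DF.gs_of hT hF h7 h8) h5 (fun d => (h6 d).1) d
      simp only [mem_ofPred_eq, fD, vQ, vR, mul_smul] at this ⊢
      rwa [hI, key, key, key, DF.hD_smul]

end

end Pool.Agent.MP_596265_gt.U

/-! Block A, row X5: the norm of the class system of marked triangulations. -/

namespace Pool.Agent.MP_596265_gt.U

open Filter Topology MeasureTheory Set Metric Erg UpperHalfPlane

variable {g : ℕ} {e : ℤ} {η R : ℝ} {F : HF (Ed g)}

namespace AX5

variable {E : Type} {M N : Tup g} {U : Coch g}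

/-- The homomorphism to the tangent group given by a cocycle. -/
noncomputable def tH (M : Tup g) (U : Coch g) : Fr g →* TG :=
  MonoidHom.mk' (fun w => ⟨FreeGroup.lift M w, coc M U w⟩) fun a b =>
    TG.ext (map_mul _ a b) (coc_mul a b)

theorem dc_geo (l : E → Fr g) (d : Dr E) : dc (geo M l) (geoT M U l) d = coc M U (dlab l d) :=
  congrArg TG.u (DF.map_dlab (tH M U) l d)

theorem flc_geo [DecidableEq E] (n : Nx E) (l : E → Fr g) (d : Dr E) :
    flc n (geo M l) (geoT M U l) d = geoT M U (flb n l d) :=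
  funext fun x => congrArg TG.u (congrFun (DF.map_flb (tH M U) n l d) x).symm

theorem fm (hM : M ∈ X g e) : Fm M := by
  rw [Fm, ← pre_eq]; exact X_pm hM

theorem coc_nn (hM : Fm M) (hU : Z1 M U) {w : Fr g} (hw : w ∈ NN g) : coc M U w = 0 :=
  (coc_normal (by rw [pre_eq]; exact hM) hU.2 hw).1

theorem zc (hT : TAx g) (hM : Fm M) (hU : Z1 M U) {τ : MS g} (h : MT τ) :
    Zc τ.1 (geo M τ.2) (geoT M U τ.2) := by
  refine ⟨fun x => coc_trace hU.1 _, fun d => ?_⟩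
  have e : fp τ.1 (tg (geo M τ.2) (geoT M U τ.2)) d = tH M U (fp τ.1 τ.2 d) := by
    simp only [fp, map_mul, ← DF.map_dlab]; rfl
  rw [e]
  exact coc_nn hM hU (hT.flat h d)

theorem fm_eqv (hT : TAx g) (hF : HAx F) (hM : Fm M) (hU : Z1 M U) {z : ℍ} {τ τ' : MS g}
    (h : Eqv M z τ τ') : FM F M z τ' U = FM F M z τ U := by
  induction h with
  | rel τ τ' h =>
    cases h with
    | iso h1 h2 h3 =>
      obtain ⟨σ, hσ, hl⟩ := h3
      refine hF.iso σ (DF.gs_of hT hM h1 h2) (zc hT hM hU h1) hσ fun d => ?_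
      rw [DF.dlab_geo, DF.dlab_geo, dc_geo, dc_geo,
        ← mul_inv_cancel_left (dlab τ.2 d) (dlab τ'.2 (σ d)), map_mul, coc_mul,
        coc_nn hM hU (hl d), ad_zero, add_zero]
      exact ⟨by simpa only [mul_one] using ((PM.refl (FreeGroup.lift M (dlab τ.2 d))).mul
        (DF.pm_of_mem hM (hl d))).symm, rfl⟩
    | flip d h1 h2 h3 =>
      have G1 := DF.gs_of hT hM h1 h2
      have G2 := DF.gs_of hT hM (hT.flip h1 (DF.fl_of_pos G1 d)) h3
      have := hF.flip d G1 (by rw [← DF.geo_flb]; exact G2) (zc hT hM hU h1)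
      rw [flc_geo, ← DF.geo_flb] at this
      exact this
  | refl => rfl
  | symm _ _ _ ih => exact ih.symm
  | trans _ _ _ _ _ ih ih' => exact ih'.trans ih

end AX5

open AX5 in
theorem cd_norm (hT : TAx g) (hF : HAx F) {d : CD g (MS g)} (hd : d = cd e η R F) :
    (∀ {τ M z U U' V}, M ∈ X g e → d.P τ M z → Z1 M U → Z1 M U' → Z1 M V →
      d.F τ M z (U + U') V = d.F τ M z U V + d.F τ M z U' V) ∧
    (∀ {τ M z U V} (r : ℝ), M ∈ X g e → d.P τ M z → Z1 M U → Z1 M V →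
      d.F τ M z (r • U) V = r * d.F τ M z U V) ∧
    (∀ {τ M z U V}, M ∈ X g e → d.P τ M z → Z1 M U → Z1 M V → d.F τ M z U V = d.F τ M z V U) ∧
    (∀ {τ M z U}, M ∈ X g e → d.P τ M z → Z1 M U → 0 ≤ d.F τ M z U U) ∧
    (∀ {τ M z U V}, M ∈ X g e → d.P τ M z → Z1 M U → Z1 M V → d.F τ M z U U = 0 →
      omg M U V = 0) ∧
    (∀ {τ M z V} (Y : Mat), M ∈ X g e → d.P τ M z → Y.trace = 0 → Z1 M V →
      d.F τ M z (cob M Y) V = 0) ∧
    (∀ {τ τ' ψ M z U}, d.Ar τ τ' ψ M z → Z1 M U →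
      d.F τ' (act ψ M) z (aU ψ M U) (aU ψ M U) = d.F τ M z U U) ∧
    (∀ {τ M N z k U}, M ∈ X g e → Cj k M N → d.P τ M z → Z1 M U →
      d.F τ N (k • z) (fun x => ad k (U x)) (fun x => ad k (U x)) = d.F τ M z U U) ∧
    (∀ {τ M U} {z : ℍ}, M ∈ X g e → d.P τ M z → Z1 M U → 0 < d.F τ M z U U →
      En.LT (fun w => d.F τ M (ofComplex w) U U) z) := by
  subst hd
  have gs : ∀ {τ M z}, M ∈ X g e → (cd e η R F).P τ M z → Gs τ.1 (geo M τ.2) z :=
    fun hM hP => DF.gs_of hT (fm hM) hP.1 hP.2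
  have zz : ∀ {τ M z U}, M ∈ X g e → (cd e η R F).P τ M z → Z1 M U →
      Zc τ.1 (geo M τ.2) (geoT M U τ.2) := fun hM hP hU => zc hT (fm hM) hU hP.1
  refine ⟨fun {τ M z U U' V} hM hP hU hU' hV => ?_, fun {τ M z U V} r hM hP hU hV => ?_,
    fun hM hP hU hV => hF.symm (gs hM hP) (zz hM hP hU) (zz hM hP hV),
    fun hM hP hU => hF.nonneg (gs hM hP) (zz hM hP hU), fun hM hP hU hV h => ?_,
    fun {τ M z V} Y hM hP hY hV => hF.cob (gs hM hP) ⟨Y, hY, funext fun x => coc_cob Y _⟩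
      (zz hM hP hV), fun {τ τ' ψ M z U} hA hU => ?_, fun {τ M N z k U} hM hC hP hU => ?_,
    fun hM hP hU _ => hF.lt (gs hM hP) (zz hM hP hU)⟩
  · have e1 : geoT M (U + U') τ.2 = geoT M U τ.2 + geoT M U' τ.2 := funext fun x => coc_add U U' _
    simp only [cd, e1]
    exact hF.add (gs hM hP) (zz hM hP hU) (zz hM hP hU') (zz hM hP hV)
  · have e1 : geoT M (r • U) τ.2 = r • geoT M U τ.2 := funext fun x => coc_smul r U _
    simp only [cd, e1]
    exact hF.smul r (gs hM hP) (zz hM hP hU) (zz hM hP hV)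
  · rw [← hT.om hP.1 (fm hM) hU hV]
    exact hF.nd (gs hM hP) (zz hM hP hU) (zz hM hP hV) h
  · have e1 : geo (act ψ M) τ'.2 = geo M (mp ψ τ').2 := funext fun x => lift_act ψ M _
    have e2 : geoT (act ψ M) (aU ψ M U) τ'.2 = geoT M U (mp ψ τ').2 :=
      funext fun x => coc_act ψ _
    simp only [cd, e1, e2]
    exact fm_eqv hT hF (fm hA.2.1) hU hA.2.2.2.2
  · have e1 : cjL k (geo M τ.2) = geo (cjT k M) τ.2 := funext fun x => (lift_cj k _).symm
    have e2 : (fun x => ad k (geoT M U τ.2 x)) = geoT (cjT k M) (fun x => ad k (U x)) τ.2 :=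
      funext fun x => (coc_cj k _).symm
    have hM' : cjT k M ∈ X g e := (cj_cjT k M).mem hM
    have hP' : Ps (cjT k M) (k • z) τ := fun d => by
      have := hP.2 d
      rw [fD, ← DF.hD_smul k] at this
      have e3 : ∀ w, FreeGroup.lift (cjT k M) w = cj k (FreeGroup.lift M w) := lift_cj k
      simpa only [fD, vQ, vR, DF.dlab_geo, e3, cj, mul_smul, inv_smul_smul] using this
    have h1 := hF.conj k (gs hM hP) (zz hM hP hU)
    rw [e1, e2] at h1
    refine Eq.trans (hF.iso 1 (gs hM' ⟨hP.1, hP'⟩) (zz hM' ⟨hP.1, hP'⟩ (hU.cj k))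
      ⟨fun _ => rfl, fun _ => rfl⟩ fun d => ?_) h1
    rw [Equiv.Perm.one_apply, DF.dlab_geo, DF.dlab_geo, dc_geo, dc_geo]
    exact ⟨(pm_lift hC _).symm, (coc_PM hC _).symm⟩

end Pool.Agent.MP_596265_gt.U

/-! Block A, row X6: regularity of the norm of the class system of marked triangulations. -/

namespace Pool.Agent.MP_596265_gt.U

open Filter Topology MeasureTheory Set Metric Erg UpperHalfPlane
open scoped ContDiff

noncomputable section

variable {g : ℕ} {e : ℤ} {η R : ℝ} {F : HF (Ed g)}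

namespace X6

variable {V : Type} [NormedAddCommGroup V] [NormedSpace ℝ V] {x₀ : V}

/-- Entries analytic at a point. -/
def An (m : V → Mat) (x₀ : V) : Prop := ∀ i j, ContDiffAt ℝ ω (fun x => m x i j) x₀

theorem An.mul {a b : V → Mat} (ha : An a x₀) (hb : An b x₀) : An (fun x => a x * b x) x₀ :=
  fun i j => by
    simp only [Matrix.mul_apply]
    exact ContDiffAt.sum fun k _ => (ha i k).mul (hb k j)

theorem An.add {a b : V → Mat} (ha : An a x₀) (hb : An b x₀) : An (fun x => a x + b x) x₀ :=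
  fun i j => (ha i j).add (hb i j)

theorem An.neg {a : V → Mat} (ha : An a x₀) : An (fun x => -a x) x₀ := fun i j => (ha i j).neg

theorem An.inv {a : V → G} (ha : An (fun x => (a x : Mat)) x₀) :
    An (fun x => (((a x)⁻¹ : G) : Mat)) x₀ := fun i j => by
  simp only [Matrix.SpecialLinearGroup.coe_inv, Matrix.adjugate_fin_two]
  fin_cases i <;> fin_cases j
  · exact ha 1 1
  · exact (ha 0 1).neg
  · exact (ha 1 0).neg
  · exact ha 0 0

theorem An.ad {a : V → G} {u : V → Mat} (ha : An (fun x => (a x : Mat)) x₀) (hu : An u x₀) :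
    An (fun x => ad (a x) (u x)) x₀ := (ha.mul hu).mul ha.inv

theorem word {s : V → Tup g} {U : V → Gen g → Mat} (hs : ∀ y, An (fun x => (s x y : Mat)) x₀)
    (hU : ∀ y, An (fun x => U x y) x₀) (w : Fr g) :
    An (fun x => ((FreeGroup.lift (s x) w : G) : Mat)) x₀ ∧ An (fun x => coc (s x) (U x) w) x₀ := by
  induction w using FreeGroup.induction_on with
  | C1 =>
    simp only [map_one, coc_one]
    exact ⟨fun _ _ => contDiffAt_const, fun _ _ => contDiffAt_const⟩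
  | of y =>
    simp only [FreeGroup.lift_apply_of, coc_of]
    exact ⟨hs y, hU y⟩
  | inv_of y ih =>
    simp only [map_inv, coc_inv]
    exact ⟨ih.1.inv, (An.ad ih.1.inv ih.2).neg⟩
  | mul a b iha ihb =>
    simp only [map_mul, coc_mul, Matrix.SpecialLinearGroup.coe_mul]
    exact ⟨iha.1.mul ihb.1, iha.2.add (An.ad iha.1 ihb.2)⟩

theorem An.ev {m : V → Mat} (h : An m x₀) :
    ∀ᶠ y in 𝓝 x₀, ∀ i j, ContDiffAt ℝ (⊤ : ℕ∞) (fun x => m x i j) y :=
  eventually_all.2 fun i => eventually_all.2 fun j =>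
    ((h i j).eventually (by simp)).mono fun _ hy => hy.of_le le_top

end X6

open X6 in
theorem cd_reg (hT : TAx g) (hF : HAx F) {d : CD g (MS g)} (hd : d = cd e η R F) {τ}
    {s : Vg g → Tup g} {U : Vg g → Coch g} {x₀} {z₀ : ℍ}
    (hs : ContDiffAt ℝ ω (fun x => io (s x)) x₀)
    (hU : ∀ y i j, ContDiffAt ℝ ω (fun x => U x y i j) x₀)
    (hX : ∀ᶠ x in 𝓝 x₀, s x ∈ X g e ∧ Z1 (s x) (U x)) (hP : d.P τ (s x₀) z₀) :
    ContDiffAt ℝ 2 (fun q : Vg g × ℂ => d.F τ (s q.1) (ofComplex q.2) (U q.1) (U q.1))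
      (x₀, z₀) := by
  subst hd
  have hs' : ∀ y, An (fun x => (s x y : Mat)) x₀ := fun y i j =>
    contDiffAt_pi.1 (contDiffAt_pi.1 (contDiffAt_pi.1 hs y) i) j
  have hw := fun x => word hs' (fun y => hU y) (τ.2 x)
  have cs : ContinuousAt s x₀ := io_emb.isInducing.continuousAt_iff.2 hs.continuousAt
  have co : ContinuousAt ofComplex (z₀ : ℂ) := (contMDiffAt_ofComplex (n := 0) z₀.im_pos).continuousAt
  have c1 : ContinuousAt (fun q : Vg g × ℂ => (geo (s q.1) τ.2, ofComplex q.2)) (x₀, (z₀ : ℂ)) :=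
    (((Bas.continuous_geo τ.2).continuousAt.comp cs).comp_of_eq continuousAt_fst rfl).prodMk
      (co.comp_of_eq continuousAt_snd rfl)
  have e1 : ∀ᶠ q : Vg g × ℂ in 𝓝 (x₀, (z₀ : ℂ)), Ps (s q.1) (ofComplex q.2) τ :=
    c1.eventually ((Bas.isOpen_pos τ.1).mem_nhds (by
      show Ps (s x₀) (ofComplex (z₀ : ℂ)) τ
      rw [ofComplex_apply]
      exact hP.2))
  have e2 : ∀ᶠ q : Vg g × ℂ in 𝓝 (x₀, (z₀ : ℂ)), 0 < q.2.im :=
    (Complex.continuous_im.comp continuous_snd).continuousAt.eventually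
      (isOpen_Ioi.mem_nhds z₀.im_pos)
  have e3 : ∀ᶠ y in 𝓝 x₀, (s y ∈ X g e ∧ Z1 (s y) (U y)) ∧ ∀ x,
      (∀ i j, ContDiffAt ℝ (⊤ : ℕ∞) (fun y => (geo (s y) τ.2 x : Mat) i j) y) ∧
        ∀ i j, ContDiffAt ℝ (⊤ : ℕ∞) (fun y => geoT (s y) (U y) τ.2 x i j) y :=
    hX.and (eventually_all.2 fun x => (hw x).1.ev.and (hw x).2.ev)
  have e4 := (continuousAt_fst (p := (x₀, (z₀ : ℂ)))).eventually e3
  obtain ⟨O, hO, oO, mO⟩ := _root_.eventually_nhds_iff.1 (e1.and (e2.and e4))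
  refine (hF.reg (O := O) (n := τ.1) (L := fun p => geo (s p.1) τ.2) (z := fun p => ofComplex p.2)
    (c := fun p => geoT (s p.1) (U p.1) τ.2) oO (fun x i j p hp => ?_) ?_ (fun x i j p hp => ?_)
    fun p hp => ?_).contDiffAt (oO.mem_nhds mO)
  · exact ((((hO p hp).2.2.2 x).1 i j).comp p contDiffAt_fst).contDiffWithinAt
  · exact contDiffOn_snd.congr fun p hp => by rw [ofComplex_apply_of_im_pos (hO p hp).2.1]
  · exact ((((hO p hp).2.2.2 x).2 i j).comp p contDiffAt_fst).contDiffWithinAt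
  · have hM := Bas.fm_of_X (hO p hp).2.2.1.1
    exact ⟨Bas.gs_of hT hM hP.1 (hO p hp).1, Bas.zc_of hT hM hP.1 (hO p hp).2.2.1.2⟩

end

end Pool.Agent.MP_596265_gt.U

namespace Pool.Agent.MP_596265_gt.U

open Filter Topology MeasureTheory Set Metric Erg UpperHalfPlane
open scoped ContDiff

variable {g : ℕ}
variable {e : ℤ} {η R : ℝ} {F : HF (Ed g)}

theorem cd_cs (he : e ≠ 0) (hT : TAx g) (hD : DAx g) (hF : HAx F) (hη : 0 < η) :
    CS e (cd e η R F) := by
  obtain ⟨a1, a2, a3, a4, a5, a6, a7, a8⟩ := cd_arrows (e := e) (η := η) (R := R) (F := F) hT hD rfl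
  obtain ⟨b1, b2, b3, b4⟩ := cd_thick (e := e) (R := R) (F := F) hT hD hη rfl
  obtain ⟨c1, c2, c3, c4, c5, c6, c7, c8, c9⟩ := cd_norm (e := e) (η := η) (R := R) hT hF rfl
  exact ⟨a1, a2, a3, a4, a5, a6, a7, a8, cd_fin hT hD rfl, fun h => ⟨h.1, h.2.2.1, h.2.2.2.1⟩, b1,
    b2, b3, b4, cd_cov he hT hD hη rfl, c1, c2, c3, c4, c5, c6, c7, c8, cd_reg hT hF rfl, c9⟩

theorem om_congr {S S' : Set (Tup g)} (h : ∀ N ∈ X g e, N ∈ S ↔ N ∈ S') {M} (hM : M ∈ Om e S) :
    M ∈ Om e S' := by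
  obtain ⟨h1, O, hO, h0⟩ := hM
  refine ⟨h1, O, hO, ?_⟩
  rw [mu_apply] at h0 ⊢
  convert h0 using 3
  ext N
  exact ⟨fun ⟨⟨a, b⟩, c⟩ => ⟨⟨a, fun k => b ((h N c).1 k)⟩, c⟩,
    fun ⟨⟨a, b⟩, c⟩ => ⟨⟨a, fun k => b ((h N c).2 k)⟩, c⟩⟩

theorem locP (hg : 3 ≤ g) (he : 1 ≤ e) (hT : TAx g) (hD : DAx g) (hF : HAx F) (hE : En.ENERGY) :
    LocP g e F := by
  intro η R M z τ hη hM hK hs
  rcases (cd_cs (R := R) (by omega) hT hD hF hη).out (by omega) hE (τ := τ) ⟨hM, hK⟩ hs with h | h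
  · exact .inl (om_congr (fun N hN => and_iff_right hN) h)
  · exact .inr (om_congr (fun N hN => not_congr (and_iff_right hN)) h)

end Pool.Agent.MP_596265_gt.U

end
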