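import Pool.Agent.MP_596265_gt.W.A0

section

attribute [-instance] Action.FintypeCat.instMulActionObjFiniteOf NonUnitalNonAssocRing.toAddCommGroup
  AddQuantale.instAddLeftMono littleWedderburn LieAdmissibleAlgebra.toModule
  NonUnitalNormedRing.toNonUnitalSeminormedRing NonUnitalNonAssocSemiring.toAddCommMonoid
  Valued.toUniformSpace Ring.toAddCommGroup NonarchimedeanAddGroup.toIsTopologicalAddGroup
  IdemSemiring.toCanonicallyOrderedAdd RightPreLieAlgebra.toModule LeftPreLieAlgebra.toModule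
  RKHS.instFunLike SeminormedRing.toNonUnitalSeminormedRing GrpTypeEquivalenceGrp.grpGroup
  NonUnitalNormedCommRing.toNonUnitalSeminormedCommRing Algebra.toSMul LieRing.toAddCommGroup
  NormedRing.toRing CommRing.toRing TopologicalSpace.NoetherianSpace.compactSpace
  Module.complexToReal AddQuantale.instAddRightMono TotallySeparatedSpace.t2Space
  NumberField.to_charZero MulSemiringAction.toDistribMulAction MeasureTheory.instSFiniteOfCountable
  NonAssocSemiring.toAddCommMonoidWithOne ProperSMul.toContinuousSMul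
  CoalgHomClass.toSemilinearMapClass NonUnitalRing.toNonUnitalNonAssocRing SeminormedRing.toRing
  AlexandrovDiscrete.toLocallyCompactSpace IsTopologicalTorsor.toContinuousSMul
  NonAssocRing.toAddCommGroupWithOne Quantale.instMulRightMono IdemSemiring.toSemiring
  IdemSemiring.toMulLeftMono NonUnitalAlgSemiHomClass.toDistribMulActionSemiHomClass
  MulZeroOneClass.toMulZeroClass NonAssocSemiring.toNonUnitalNonAssocSemiring
  IsOrderedMonoid.toMulLeftMono NormedCommRing.toCommRing AddCommGroupWithOne.toAddCommGroup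
  LinearOrderedCommMonoidWithZero.toPosMulStrictMono Quantale.instMulLeftMono
  IsValuativeTopology.instIsTopologicalAddGroup Fintype.decidableExistsFintype
  instPolishSpaceOfSeparableSpaceOfIsCompletelyMetrizableSpace
  SemilinearIsometryClass.toSemilinearMapClass DiscreteUniformity.instCompleteSpace
  AddCommMonoidWithOne.toAddCommMonoid FiniteDimensional.rclike_to_real
  NonUnitalSeminormedRing.toPseudoMetricSpace Module.FaithfullyFlat.toFlat
  MonTypeEquivalenceMon.monMonoid instSMulZeroClass spectralNorm.completeSpace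
  IsIsometricSMul.to_continuousConstSMul NonUnitalNormedCommRing.toNonUnitalCommRing
  LieAdmissibleRing.toNonUnitalNonAssocRing BooleanRing.toRing EuclideanDomain.toCommRing
  SeminormedCommRing.toCommRing RingHomClass.toLinearMapClassNNRat NonUnitalNormedRing.toNorm
  AddGroupSeminormClass.toNonnegHomClass AlexandrovDiscrete.toFirstCountable
  SeminormedCommGroup.toPseudoMetricSpace IsTopologicalSemiring.toContinuousAdd
  NonUnitalNonAssocCommSemiring.toNonUnitalNonAssocSemiring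
  LinearOrderedAddCommMonoidWithTop.toAddCommMonoid NormedDivisionRing.toDivisionRing
  NormedField.toNorm NormedRing.toNorm
  TopologicalSpace.instSecondCountableTopologyOfLindelofSpaceOfPseudoMetrizableSpace
  RingHomClass.toLinearMapClassRat AddCommGroupWithOne.toAddGroupWithOne
  MonoidWithZeroHomClass.toZeroHomClass NormedSpace.complexToReal completeSpace_of_cauSeq_isComplete
  NonAssocCommRing.toNonUnitalNonAssocCommRing Action.instMulAction
  LinearOrderedAddCommGroupWithTop.toAddCommMonoid UniformSpace.secondCountable_of_separable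

section
/-! Gaussian densities with a variable covariance, and the change of chart. -/

namespace Pool.Agent.MP_596265_gt.Gau

open MeasureTheory Metric Set Filter

noncomputable section

variable {V : Type*} [NormedAddCommGroup V] [InnerProductSpace ℝ V]

theorem gam_nonneg (N : V →L[ℝ] V) (h : V) : 0 ≤ gam N h :=
  mul_nonneg (inv_nonneg.2 (Real.sqrt_nonneg _)) (Real.exp_pos _).le

theorem qf_neg (N : V →L[ℝ] V) (h : V) : qf N (-h) = qf N h := by
  simp only [qf, map_neg, inner_neg_right, inner_neg_left, neg_neg]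

theorem gam_neg (N : V →L[ℝ] V) (h : V) : gam N (-h) = gam N h := by
  simp only [gam, qf_neg]

theorem abs_qf_le (N : V →L[ℝ] V) (u : V) : |qf N u| ≤ ‖N‖ * ‖u‖ ^ 2 := by
  have h1 := abs_real_inner_le_norm (N u) u
  have h2 := N.le_opNorm u
  have h3 := norm_nonneg u
  unfold qf
  nlinarith only [h1, h2, h3]

theorem Cov.nonneg {L : ℝ} {N : V →L[ℝ] V} (h : Cov L N) : 0 ≤ L :=
  (norm_nonneg _).trans h.hi

theorem Cov.qf_le {L : ℝ} {N : V →L[ℝ] V} (h : Cov L N) (u : V) : qf N u ≤ L * ‖u‖ ^ 2 :=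
  (le_abs_self _).trans ((abs_qf_le N u).trans (mul_le_mul_of_nonneg_right h.hi (sq_nonneg _)))

theorem Cov.mono {L L' : ℝ} {N : V →L[ℝ] V} (h : Cov L N) (hL : L ≤ L') : Cov L' N := by
  refine ⟨h.sym, fun u => ?_, h.hi.trans hL⟩
  have h1 := h.lo u
  have h0 := h.nonneg
  rcases eq_or_lt_of_le h0 with h2 | h2
  · have h3 : ‖u‖ ^ 2 ≤ 0 := by rw [← h2] at h1; simpa only [sq_nonpos_iff, norm_eq_zero, zero_mul] using h1
    have h4 : u = 0 := by
      have : ‖u‖ = 0 := by nlinarith only [h3]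
      simpa using this
    simp [h4, qf]
  · have h3 : 0 ≤ qf N u := by
      by_contra h4
      have := mul_neg_of_pos_of_neg h2 (not_le.1 h4)
      linarith only [sq_nonneg ‖u‖, h1, this]
    nlinarith only [hL, h1, h3]

section
variable [FiniteDimensional ℝ V]

theorem exists_sqrt {L : ℝ} {N : V →L[ℝ] V} (h : Cov L N) :
    ∃ S : V →L[ℝ] V, (∀ u v, inner ℝ (S u) v = inner ℝ u (S v)) ∧ S * S = N := by
  have hs : (N : V →ₗ[ℝ] V).IsSymmetric := fun u v => h.sym u v
  set b := hs.eigenvectorBasis rfl with hb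
  set l := hs.eigenvalues rfl with hl
  have hN : ∀ i, N (b i) = l i • b i := fun i => hs.apply_eigenvectorBasis rfl i
  have hl0 : ∀ i, 0 ≤ l i := fun i => by
    have h1 := h.lo (b i)
    have h2 : qf N (b i) = l i := by
      simp [qf, hN, inner_smul_left, b.orthonormal.1 i]
    rw [h2, b.orthonormal.1 i] at h1
    by_contra h3
    have := mul_nonpos_of_nonneg_of_nonpos h.nonneg (not_le.1 h3).le
    linarith only [h1, this]
  let S0 : V →ₗ[ℝ] V := b.toBasis.constr ℝ (fun i => √(l i) • b i)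
  have hS0 : ∀ i, S0 (b i) = √(l i) • b i := fun i =>
    b.toBasis.constr_basis ℝ (fun i => √(l i) • b i) i
  refine ⟨LinearMap.toContinuousLinearMap S0, ?_, ?_⟩
  · have : S0 = LinearMap.adjoint S0 := by
      rw [LinearMap.eq_adjoint_iff_basis b.toBasis b.toBasis]
      intro i j
      simp only [OrthonormalBasis.coe_toBasis, hS0, inner_smul_left, inner_smul_right]
      by_cases hij : i = j
      · simp [hij]
      · simp [b.orthonormal.2 hij]
    exact (LinearMap.eq_adjoint_iff S0 S0).1 this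
  · apply ContinuousLinearMap.coe_injective
    apply b.toBasis.ext
    intro i
    simp only [OrthonormalBasis.coe_toBasis, ContinuousLinearMap.coe_coe,
      mul_apply_eq_comp, LinearMap.coe_toContinuousLinearMap', hS0, map_smul, hN,
      smul_smul, Real.mul_self_sqrt (hl0 i)]

theorem det_mul' (A B : V →L[ℝ] V) : (A * B).det = A.det * B.det := by
  have : ((A * B : V →L[ℝ] V) : V →ₗ[ℝ] V) = (A : V →ₗ[ℝ] V) * (B : V →ₗ[ℝ] V) := rfl
  unfold ContinuousLinearMap.det
  rw [this, map_mul]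

theorem isUnit_of_lower {L : ℝ} {A : V →L[ℝ] V} (h : ∀ u, ‖u‖ ≤ L * ‖A u‖) : IsUnit A := by
  rw [ContinuousLinearMap.isUnit_iff_isUnit_toLinearMap, LinearMap.isUnit_iff_ker_eq_bot,
    LinearMap.ker_eq_bot']
  intro u hu
  have h1 := h u
  have h2 : A u = 0 := hu
  rw [h2] at h1
  simpa using h1

theorem isUnit_iff_det {A : V →L[ℝ] V} : IsUnit A ↔ A.det ≠ 0 := by
  rw [ContinuousLinearMap.isUnit_iff_isUnit_toLinearMap, LinearMap.isUnit_iff_isUnit_det,
    isUnit_iff_ne_zero]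

theorem Cov.lower {L : ℝ} {N : V →L[ℝ] V} (h : Cov L N) (u : V) : ‖u‖ ≤ L * ‖N u‖ := by
  have h1 := h.lo u
  have h2 := real_inner_le_norm (N u) u
  have h3 := h.nonneg
  rcases eq_or_lt_of_le (norm_nonneg u) with h4 | h4
  · rw [← h4]; positivity
  · have h5 : ‖u‖ * ‖u‖ ≤ L * ‖N u‖ * ‖u‖ := by
      unfold qf at h1
      linarith only [mul_le_mul_of_nonneg_left h2 h3, h1]
    exact le_of_mul_le_mul_right h5 h4

theorem Cov.isUnit {L : ℝ} {N : V →L[ℝ] V} (h : Cov L N) : IsUnit N :=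
  isUnit_of_lower h.lower

theorem Cov.det_pos {L : ℝ} {N : V →L[ℝ] V} (h : Cov L N) : 0 < N.det := by
  obtain ⟨S, -, hS⟩ := exists_sqrt h
  have h1 := isUnit_iff_det.1 h.isUnit
  rw [← hS, det_mul'] at h1 ⊢
  exact lt_of_le_of_ne (mul_self_nonneg _) h1.symm

theorem apply_inverse {N : V →L[ℝ] V} (h : IsUnit N) (u : V) : N (Ring.inverse N u) = u := by
  have := congrArg (fun T : V →L[ℝ] V => T u) (Ring.mul_inverse_cancel N h)
  simpa only [mul_apply_eq_comp, one_apply_eq_self] using this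

theorem inverse_apply {N : V →L[ℝ] V} (h : IsUnit N) (u : V) : Ring.inverse N (N u) = u := by
  have := congrArg (fun T : V →L[ℝ] V => T u) (Ring.inverse_mul_cancel N h)
  simpa only [mul_apply_eq_comp, one_apply_eq_self] using this

theorem norm_inverse_le {L : ℝ} (hL : 0 ≤ L) {A : V →L[ℝ] V} (h : ∀ u, ‖u‖ ≤ L * ‖A u‖) :
    ‖Ring.inverse A‖ ≤ L := by
  refine ContinuousLinearMap.opNorm_le_bound _ hL fun u => ?_
  have := h (Ring.inverse A u)
  rwa [apply_inverse (isUnit_of_lower h)] at this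

theorem Cov.inverse {L : ℝ} {N : V →L[ℝ] V} (h : Cov L N) : Cov L (Ring.inverse N) := by
  have hu := h.isUnit
  refine ⟨fun u v => ?_, fun u => ?_, norm_inverse_le h.nonneg h.lower⟩
  · have := h.sym (Ring.inverse N u) (Ring.inverse N v)
    rw [apply_inverse hu, apply_inverse hu] at this
    exact this.symm
  · obtain ⟨S, hs, hS⟩ := exists_sqrt h
    have h1 : ∀ w, ‖S w‖ ^ 2 = qf N w := fun w => by
      rw [← real_inner_self_eq_norm_sq, ← hS, qf, mul_apply_eq_comp, hs (S w) w]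
    set v := Ring.inverse N u with hv
    have h2 : S (S v) = u := by
      rw [← mul_apply_eq_comp, hS, hv, apply_inverse hu]
    have h3 : qf (Ring.inverse N) u = qf N v := by
      rw [qf, qf, ← hv, hv, apply_inverse hu, real_inner_comm]
    have h4 := h.qf_le (S v)
    rw [← h1, h2, h1] at h4
    rw [h3]; exact h4

theorem det_adjoint (A : V →L[ℝ] V) : (ContinuousLinearMap.adjoint A).det = A.det := by
  let b := stdOrthonormalBasis ℝ V
  have h1 : ((ContinuousLinearMap.adjoint A : V →L[ℝ] V) : V →ₗ[ℝ] V) =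
      LinearMap.adjoint (A : V →ₗ[ℝ] V) := (ContinuousLinearMap.adjoint_toLinearMap A).symm
  unfold ContinuousLinearMap.det
  rw [h1, ← LinearMap.det_toMatrix b.toBasis, ← LinearMap.det_toMatrix b.toBasis,
    LinearMap.toMatrix_adjoint b b, Matrix.det_conjTranspose]
  simp

theorem isUnit_adjoint {A : V →L[ℝ] V} (h : IsUnit A) : IsUnit (ContinuousLinearMap.adjoint A) := by
  rw [isUnit_iff_det, det_adjoint]; exact isUnit_iff_det.1 h

theorem lower_adjoint {L : ℝ} (hL0 : 0 ≤ L) {A : V →L[ℝ] V} (h2 : ∀ u, ‖u‖ ≤ L * ‖A u‖) (u : V) :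
    ‖u‖ ≤ L * ‖ContinuousLinearMap.adjoint A u‖ := by
  have hu := isUnit_of_lower h2
  rcases eq_or_lt_of_le (norm_nonneg u) with h6 | h6
  · rw [← h6]; positivity
  · have h7 : inner ℝ (ContinuousLinearMap.adjoint A u) (Ring.inverse A u) = ‖u‖ ^ 2 := by
      rw [ContinuousLinearMap.adjoint_inner_left, apply_inverse hu, real_inner_self_eq_norm_sq]
    have h8 := real_inner_le_norm (ContinuousLinearMap.adjoint A u) (Ring.inverse A u)
    have h9 : ‖Ring.inverse A u‖ ≤ L * ‖u‖ := by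
      have := h2 (Ring.inverse A u)
      rwa [apply_inverse hu] at this
    have h10 : ‖u‖ * ‖u‖ ≤ L * ‖ContinuousLinearMap.adjoint A u‖ * ‖u‖ := by
      linarith only [mul_le_mul_of_nonneg_left h9 (norm_nonneg (ContinuousLinearMap.adjoint A u)), h7, h8]
    exact le_of_mul_le_mul_right h10 h6

theorem conj_bounds {L : ℝ} {T T' A : V →L[ℝ] V} (h : Cov L T) (h' : Cov L T')
    (e : ∀ ξ η, inner ℝ (T' ξ) η =
      inner ℝ (T (ContinuousLinearMap.adjoint A ξ)) (ContinuousLinearMap.adjoint A η)) :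
    T' = A * T * ContinuousLinearMap.adjoint A ∧ ∀ u, ‖u‖ ≤ L * ‖A u‖ := by
  have hL := h.nonneg
  refine ⟨ContinuousLinearMap.ext fun ξ => ext_inner_right ℝ fun η => ?_, fun u => ?_⟩
  · rw [e, ContinuousLinearMap.adjoint_inner_right]; rfl
  · have h1 : ∀ ξ, ‖ξ‖ ≤ L * ‖ContinuousLinearMap.adjoint A ξ‖ := fun ξ => by
      have a1 := h'.lo ξ
      have a2 := mul_le_mul_of_nonneg_left (h.qf_le (ContinuousLinearMap.adjoint A ξ)) hL
      rw [qf, e] at a1
      rw [qf] at a2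
      exact le_of_sq_le_sq (by linarith only [a1, a2]) (by positivity)
    have := lower_adjoint hL h1 u
    rwa [ContinuousLinearMap.adjoint_adjoint] at this

theorem gam_conj {A M : V →L[ℝ] V} (hA : IsUnit A) (hM : IsUnit M) (h : V) :
    |A.det| * gam (A * M * ContinuousLinearMap.adjoint A) (A h) = gam M h := by
  have hd := isUnit_iff_det.1 hA
  have hB := isUnit_adjoint hA
  have h1 : qf (Ring.inverse (A * M * ContinuousLinearMap.adjoint A)) (A h) =
      qf (Ring.inverse M) h := by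
    rw [Ring.inverse_mul (Or.inr hB), Ring.inverse_mul (Or.inr hM)]
    simp only [qf, mul_apply_eq_comp]
    rw [inverse_apply hA, ← ContinuousLinearMap.adjoint_inner_left, apply_inverse hB]
  have h2 : √((2 * Real.pi) ^ Module.finrank ℝ V * (A * M * ContinuousLinearMap.adjoint A).det) =
      |A.det| * √((2 * Real.pi) ^ Module.finrank ℝ V * M.det) := by
    rw [det_mul', det_mul', det_adjoint, ← Real.sqrt_mul_self_eq_abs,
      ← Real.sqrt_mul (mul_self_nonneg _)]
    congr 1; ring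
  unfold gam
  rw [h1, h2, mul_inv, ← mul_assoc, ← mul_assoc, mul_inv_cancel₀ (abs_ne_zero.2 hd), one_mul]

end

section tame
variable {A X Y : Type*} [NormedAddCommGroup A] [NormedAddCommGroup X] [NormedAddCommGroup Y]

theorem Tame.mono {S : Set A} {B B' : ℝ} {F : A → X} (h : Tame S B F) (hB : B ≤ B') :
    Tame S B' F :=
  ⟨fun x hx => (h.bd x hx).trans hB,
    fun x hx y hy => (h.lip x hx y hy).trans (mul_le_mul_of_nonneg_right hB (norm_nonneg _)),
    fun m y h1 h2 => (h.sec m y h1 h2).trans (mul_le_mul_of_nonneg_right hB (sq_nonneg _))⟩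

theorem Tame.subset {S S' : Set A} {B : ℝ} {F : A → X} (h : Tame S B F) (hS : S' ⊆ S) :
    Tame S' B F :=
  ⟨fun x hx => h.bd x (hS hx), fun x hx y hy => h.lip x (hS hx) y (hS hy),
    fun m y h1 h2 => h.sec m y (hS h1) (hS h2)⟩

theorem Tame.sub {S : Set A} {B B' : ℝ} {F G : A → X} (h : Tame S B F) (h' : Tame S B' G) :
    Tame S (B + B') (fun x => F x - G x) := by
  refine ⟨fun x hx => (norm_sub_le _ _).trans (add_le_add (h.bd x hx) (h'.bd x hx)),
    fun x hx y hy => ?_, fun m y h1 h2 => ?_⟩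
  · have : F x - G x - (F y - G y) = (F x - F y) - (G x - G y) := by abel
    rw [this, add_mul]
    exact (norm_sub_le _ _).trans (add_le_add (h.lip x hx y hy) (h'.lip x hx y hy))
  · have : F (m + y) - G (m + y) + (F (m - y) - G (m - y)) - (F m - G m + (F m - G m)) =
        (F (m + y) + F (m - y) - (F m + F m)) - (G (m + y) + G (m - y) - (G m + G m)) := by abel
    rw [this, add_mul]
    exact (norm_sub_le _ _).trans (add_le_add (h.sec m y h1 h2) (h'.sec m y h1 h2))

theorem mid_mem [NormedSpace ℝ A] {S : Set A} (hS : Convex ℝ S) {m y : A} (h1 : m + y ∈ S)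
    (h2 : m - y ∈ S) : m ∈ S := by
  have := hS h1 h2 (a := 1 / 2) (b := 1 / 2) (by norm_num) (by norm_num) (by norm_num)
  convert this using 1
  rw [← smul_add, show m + y + (m - y) = (2 : ℝ) • m by rw [two_smul]; abel, smul_smul]
  norm_num

theorem Tame.mul [NormedSpace ℝ A] {S : Set A} (hS : Convex ℝ S) {B B' : ℝ} {F G : A → ℝ}
    (h : Tame S B F) (h' : Tame S B' G) : Tame S (4 * B * B') (fun x => F x * G x) := by
  have key : ∀ x ∈ S, 0 ≤ B ∧ 0 ≤ B' := fun x hx =>
    ⟨(norm_nonneg _).trans (h.bd x hx), (norm_nonneg _).trans (h'.bd x hx)⟩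
  refine ⟨fun x hx => ?_, fun x hx y hy => ?_, fun m y h1 h2 => ?_⟩
  · obtain ⟨a, b⟩ := key x hx
    rw [norm_mul]
    have := mul_le_mul (h.bd x hx) (h'.bd x hx) (norm_nonneg _) a
    linarith only [mul_nonneg a b, this]
  · obtain ⟨a, b⟩ := key x hx
    have e : F x * G x - F y * G y = F x * (G x - G y) + (F x - F y) * G y := by ring
    have e1 := mul_le_mul (h.bd x hx) (h'.lip x hx y hy) (norm_nonneg _) a
    have e2 := mul_le_mul (h.lip x hx y hy) (h'.bd y hy) (norm_nonneg _)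
      (mul_nonneg a (norm_nonneg _))
    have e3 := norm_add_le (F x * (G x - G y)) ((F x - F y) * G y)
    rw [norm_mul, norm_mul] at e3
    rw [e]
    linarith only [mul_nonneg (mul_nonneg a b) (norm_nonneg (x - y)), e1, e2, e3]
  · have hm := mid_mem hS h1 h2
    obtain ⟨a, b⟩ := key m hm
    have e : F (m + y) * G (m + y) + F (m - y) * G (m - y) - (F m * G m + F m * G m) =
        F m * (G (m + y) + G (m - y) - (G m + G m)) + (F (m + y) + F (m - y) - (F m + F m)) * G m +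
        (F (m + y) - F m) * (G (m + y) - G m) + (F (m - y) - F m) * (G (m - y) - G m) := by ring
    have n1 : ‖m + y - m‖ = ‖y‖ := by simp
    have n2 : ‖m - y - m‖ = ‖y‖ := by simp
    have e1 := mul_le_mul (h.bd m hm) (h'.sec m y h1 h2) (norm_nonneg _) a
    have e2 := mul_le_mul (h.sec m y h1 h2) (h'.bd m hm) (norm_nonneg _)
      (mul_nonneg a (sq_nonneg _))
    have e3 := mul_le_mul (h.lip _ h1 m hm) (h'.lip _ h1 m hm) (norm_nonneg _)
      (mul_nonneg a (norm_nonneg _))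
    have e4 := mul_le_mul (h.lip _ h2 m hm) (h'.lip _ h2 m hm) (norm_nonneg _)
      (mul_nonneg a (norm_nonneg _))
    rw [n1] at e3
    rw [n2] at e4
    rw [← norm_mul] at e1 e2 e3 e4
    rw [e]
    refine ((norm_add_le _ _).trans (add_le_add ((norm_add_le _ _).trans
      (add_le_add ((norm_add_le _ _).trans (add_le_add e1 e2)) e3)) e4)).trans (le_of_eq ?_)
    ring

variable [NormedSpace ℝ X] [NormedSpace ℝ Y]

/-- bounded, with a bounded Lipschitz derivative -/
def C11 (T : Set X) (B : ℝ) (g : X → Y) : Prop :=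
  ∃ g1 : X → X →L[ℝ] Y, (∀ a ∈ T, HasFDerivAt g (g1 a) a ∧ ‖g a‖ ≤ B ∧ ‖g1 a‖ ≤ B) ∧
    ∀ a ∈ T, ∀ a' ∈ T, ‖g1 a - g1 a'‖ ≤ B * ‖a - a'‖

theorem C11.lip {T : Set X} {B : ℝ} {g : X → Y} (h : C11 T B g) (hT : Convex ℝ T) {a a' : X}
    (ha : a ∈ T) (ha' : a' ∈ T) : ‖g a - g a'‖ ≤ B * ‖a - a'‖ := by
  obtain ⟨g1, h1, -⟩ := h
  exact hT.norm_image_sub_le_of_norm_hasFDerivWithin_le
    (fun x hx => (h1 x hx).1.hasFDerivWithinAt) (fun x hx => (h1 x hx).2.2) ha' ha

theorem taylor1 {T : Set X} {B : ℝ} {g : X → Y} {g1 : X → X →L[ℝ] Y} (hT : Convex ℝ T)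
    (h1 : ∀ a ∈ T, HasFDerivAt g (g1 a) a) (hB : 0 ≤ B) {a0 : X} (ha0 : a0 ∈ T)
    (h2 : ∀ a ∈ T, ‖g1 a - g1 a0‖ ≤ B * ‖a - a0‖) {a : X} (ha : a ∈ T) :
    ‖g a - g a0 - g1 a0 (a - a0)‖ ≤ B * ‖a - a0‖ ^ 2 := by
  have hc : Convex ℝ (T ∩ closedBall a0 ‖a - a0‖) := hT.inter (convex_closedBall _ _)
  have := hc.norm_image_sub_le_of_norm_hasFDerivWithin_le' (f := g) (f' := g1) (φ := g1 a0)
    (C := B * ‖a - a0‖) (x := a0) (y := a) (fun x hx => (h1 x hx.1).hasFDerivWithinAt)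
    (fun x hx => (h2 x hx.1).trans (mul_le_mul_of_nonneg_left
      (by simpa only [mem_closedBall, dist_eq_norm] using hx.2) hB))
    ⟨ha0, mem_closedBall_self (norm_nonneg _)⟩ ⟨ha, by simp [dist_eq_norm]⟩
  calc _ ≤ B * ‖a - a0‖ * ‖a - a0‖ := this
    _ = _ := by ring

theorem C11.comp [NormedSpace ℝ A] {T : Set X} {B : ℝ} {g : X → Y} (h : C11 T B g)
    (hT : Convex ℝ T) {S : Set A} (hS : Convex ℝ S) {N : A → X} {a : ℝ} (ha : 1 ≤ a)
    (hN : ∀ x ∈ S, N x ∈ T) (hl : ∀ x ∈ S, ∀ y ∈ S, ‖N x - N y‖ ≤ a * ‖x - y‖)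
    (hs : ∀ m y, m + y ∈ S → m - y ∈ S → ‖N (m + y) + N (m - y) - (N m + N m)‖ ≤ a * ‖y‖ ^ 2) :
    Tame S (3 * B * a ^ 2) (fun x => g (N x)) := by
  have hlip := fun {a a' : X} => h.lip hT (a := a) (a' := a')
  obtain ⟨g1, h1, h2⟩ := h
  have hB : ∀ x ∈ S, 0 ≤ B := fun x hx => (norm_nonneg _).trans (h1 _ (hN x hx)).2.1
  have ha2 : a ≤ a ^ 2 := by nlinarith only [ha]
  refine ⟨fun x hx => ?_, fun x hx y hy => ?_, fun m y p1 p2 => ?_⟩
  · have := (h1 _ (hN x hx)).2.1
    linarith only [mul_le_mul_of_nonneg_left (ha.trans ha2) (hB x hx), hB x hx, this]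
  · have e1 := hlip (hN x hx) (hN y hy)
    have e2 := mul_le_mul_of_nonneg_left (hl x hx y hy) (hB x hx)
    have e3 := mul_le_mul_of_nonneg_left ha2 (mul_nonneg (hB x hx) (norm_nonneg (x - y)))
    have e4 := mul_nonneg (mul_nonneg (hB x hx) (norm_nonneg (x - y))) (sq_nonneg a)
    linarith only [e1, e2, e3, e4]
  · have hm := mid_mem hS p1 p2
    have b0 := hB m hm
    have t := fun {z : X} (hz : z ∈ T) => taylor1 hT (fun a ha => (h1 a ha).1) b0 (hN m hm)
      (fun a ha => h2 a ha _ (hN m hm)) hz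
    have t1 := t (hN _ p1)
    have t2 := t (hN _ p2)
    have l1 := hl _ p1 m hm
    have l2 := hl _ p2 m hm
    rw [show ‖m + y - m‖ = ‖y‖ by simp] at l1
    rw [show ‖m - y - m‖ = ‖y‖ by simp] at l2
    have q1 := mul_le_mul_of_nonneg_left (pow_le_pow_left₀ (norm_nonneg _) l1 2) b0
    have q2 := mul_le_mul_of_nonneg_left (pow_le_pow_left₀ (norm_nonneg _) l2 2) b0
    have e : g (N (m + y)) + g (N (m - y)) - (g (N m) + g (N m)) =
        (g (N (m + y)) - g (N m) - g1 (N m) (N (m + y) - N m)) +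
        (g (N (m - y)) - g (N m) - g1 (N m) (N (m - y) - N m)) +
        g1 (N m) (N (m + y) + N (m - y) - (N m + N m)) := by
      simp only [map_sub, map_add]; abel
    have t3 : ‖g1 (N m) (N (m + y) + N (m - y) - (N m + N m))‖ ≤ B * (a * ‖y‖ ^ 2) :=
      ((g1 (N m)).le_opNorm _).trans
        (mul_le_mul (h1 _ (hN m hm)).2.2 (hs m y p1 p2) (norm_nonneg _) b0)
    have e3 := mul_le_mul_of_nonneg_left ha2 (mul_nonneg b0 (sq_nonneg ‖y‖))
    rw [e]
    refine ((norm_add_le _ _).trans (add_le_add ((norm_add_le _ _).trans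
      (add_le_add (t1.trans q1) (t2.trans q2))) t3)).trans ?_
    linarith only [e3]

theorem c11_param {P : Type*} [NormedAddCommGroup P] [NormedSpace ℝ P] {F : P × X → Y}
    {U : Set (P × X)} {T : Set P} {S : Set X} (hU : IsOpen U) (hF : ContDiffOn ℝ 2 F U)
    (hT : IsCompact T) (hS : IsCompact S) (hc : Convex ℝ S) (hsub : T ×ˢ S ⊆ U) :
    ∃ B : ℝ, 1 ≤ B ∧ ∀ p ∈ T, C11 S B (fun x => F (p, x)) := by
  have hK := hT.prod hS
  have d1 : ContDiffOn ℝ 1 (fderiv ℝ F) U := hF.fderiv_of_isOpen hU (by norm_num)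
  have d2 : ContinuousOn (fderiv ℝ (fderiv ℝ F)) U :=
    d1.continuousOn_fderiv_of_isOpen hU le_rfl
  obtain ⟨b0, hb0⟩ := hK.exists_bound_of_continuousOn (hF.continuousOn.mono hsub)
  obtain ⟨b1, hb1⟩ := hK.exists_bound_of_continuousOn (d1.continuousOn.mono hsub)
  obtain ⟨b2, hb2⟩ := hK.exists_bound_of_continuousOn (E := P × X →L[ℝ] P × X →L[ℝ] Y)
    (f := fderiv ℝ (fderiv ℝ F)) (d2.mono hsub)
  have hi : ‖ContinuousLinearMap.inr ℝ P X‖ ≤ 1 :=
    ContinuousLinearMap.opNorm_le_bound _ zero_le_one fun x => by simp only [ContinuousLinearMap.inr_apply, Prod.norm_mk, norm_zero, norm_nonneg, sup_of_le_right, one_mul, Std.le_refl]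
  have hin : ∀ (p : P) (x : X), HasFDerivAt (fun x : X => (p, x))
      (ContinuousLinearMap.inr ℝ P X) x := fun p x => hasFDerivAt_prodMk_right p x
  refine ⟨1 + |b0| + |b1| + |b2|, by
    linarith [abs_nonneg b0, abs_nonneg b1, abs_nonneg b2], fun p hp => ?_⟩
  refine ⟨fun x => (fderiv ℝ F (p, x)).comp (ContinuousLinearMap.inr ℝ P X), fun x hx => ?_,
    fun x hx y hy => ?_⟩
  · have hm : (p, x) ∈ T ×ˢ S := ⟨hp, hx⟩
    have hd : DifferentiableAt ℝ F (p, x) :=
      (hF.differentiableOn (by norm_num)).differentiableAt (hU.mem_nhds (hsub hm))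
    refine ⟨hd.hasFDerivAt.comp x (hin p x), ?_, ?_⟩
    · linarith [hb0 _ hm, le_abs_self b0, abs_nonneg b1, abs_nonneg b2]
    · have := (ContinuousLinearMap.opNorm_comp_le _ _).trans
        (mul_le_mul ((hb1 _ hm).trans (le_abs_self _)) hi (norm_nonneg _) (abs_nonneg _))
      linarith [abs_nonneg b0, abs_nonneg b2]
  · have l : ‖fderiv ℝ F (p, x) - fderiv ℝ F (p, y)‖ ≤ |b2| * ‖x - y‖ := by
      refine hc.norm_image_sub_le_of_norm_hasFDerivWithin_le (f := fun x => fderiv ℝ F (p, x))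
        (f' := fun x => (fderiv ℝ (fderiv ℝ F) (p, x)).comp (ContinuousLinearMap.inr ℝ P X))
        (fun z hz => ?_) (fun z hz => ?_) hy hx
      · have hm : (p, z) ∈ T ×ˢ S := ⟨hp, hz⟩
        have hd : DifferentiableAt ℝ (fderiv ℝ F) (p, z) :=
          (d1.differentiableOn (by norm_num)).differentiableAt (hU.mem_nhds (hsub hm))
        exact (hd.hasFDerivAt.comp z (hin p z)).hasFDerivWithinAt
      · have hm : (p, z) ∈ T ×ˢ S := ⟨hp, hz⟩
        simpa only [ge_iff_le, mul_one] using (ContinuousLinearMap.opNorm_comp_le _ _).trans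
          (mul_le_mul ((hb2 _ hm).trans (le_abs_self _)) hi (norm_nonneg _) (abs_nonneg _))
    rw [← ContinuousLinearMap.sub_comp]
    have := (ContinuousLinearMap.opNorm_comp_le _ _).trans
      (mul_le_mul l hi (norm_nonneg _) (mul_nonneg (abs_nonneg _) (norm_nonneg _)))
    nlinarith only [abs_nonneg b0, abs_nonneg b1, norm_nonneg (x - y), this]

theorem c11_of_contDiffOn {g : X → Y} {U S : Set X} (hU : IsOpen U) (hg : ContDiffOn ℝ 2 g U)
    (hS : IsCompact S) (hc : Convex ℝ S) (hsub : S ⊆ U) : ∃ B : ℝ, 1 ≤ B ∧ C11 S B g := by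
  obtain ⟨B, h1, h2⟩ := c11_param (P := ℝ) (F := fun y : ℝ × X => g y.2) (U := Prod.snd ⁻¹' U)
    (T := {0}) (hU.preimage continuous_snd) (hg.comp contDiffOn_snd fun _ h => h)
    isCompact_singleton hS hc (fun y hy => hsub hy.2)
  exact ⟨B, h1, h2 0 rfl⟩

theorem C11.tame {S : Set X} {B : ℝ} {g : X → Y} (h : C11 S B g) (hS : Convex ℝ S) :
    Tame S (3 * B) g := by
  have := h.comp hS hS (N := fun x => x) le_rfl (fun _ h => h) (fun x _ y _ => by simp)
    (fun m y _ _ => by simp only [add_add_sub_cancel, sub_self, norm_zero, one_mul, norm_nonneg, pow_succ_nonneg])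
  simpa using this

end tame

/-- smooth functions are tame, uniformly in a compact parameter -/
theorem tame_of_contDiffOn {P A X : Type*} [NormedAddCommGroup P] [NormedSpace ℝ P]
    [NormedAddCommGroup A] [NormedSpace ℝ A] [NormedAddCommGroup X] [NormedSpace ℝ X]
    {F : P × A → X} {U : Set (P × A)} {T : Set P} {S : Set A} (hU : IsOpen U)
    (hF : ContDiffOn ℝ 2 F U) (hT : IsCompact T) (hS : IsCompact S) (hc : Convex ℝ S)
    (hsub : T ×ˢ S ⊆ U) : ∃ B : ℝ, 1 ≤ B ∧ ∀ p ∈ T, Tame S B (fun x => F (p, x)) := by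
  obtain ⟨B, h1, h2⟩ := c11_param hU hF hT hS hc hsub
  exact ⟨3 * B, by linarith, fun p hp => (h2 p hp).tame hc⟩

/-- local bounds near the points where the function does not vanish -/
theorem tame_cut {A : Type*} [NormedAddCommGroup A] {δ : ℝ} (hδ : 0 < δ) {B : ℝ}
    {F : A → ℝ} (hB : 0 ≤ B) (h : ∀ x, F x ≠ 0 → Tame (ball x δ) B F) :
    Tame univ ((1 + 2 / δ + 16 / δ ^ 2) * B) F := by
  have hb : ∀ x, ‖F x‖ ≤ B := fun x => by
    by_cases hx : F x = 0
    · simp [hx, hB]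
    · exact (h x hx).bd x (mem_ball_self hδ)
  have near : ∀ x y : A, ‖y - x‖ < δ → y ∈ ball x δ := fun x y hy => by
    rwa [mem_ball, dist_eq_norm]
  have p1 : 0 ≤ 2 / δ := by positivity
  have p2 : 0 ≤ 16 / δ ^ 2 := by positivity
  refine ⟨fun x _ => (hb x).trans (by nlinarith only [hB, p1, p2]), fun x _ y _ => ?_, fun m y _ _ => ?_⟩
  · have hn := norm_nonneg (x - y)
    by_cases hd : ‖x - y‖ < δ
    · have : ‖F x - F y‖ ≤ B * ‖x - y‖ := by
        by_cases hx : F x = 0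
        · by_cases hy : F y = 0
          · simp [hx, hy, mul_nonneg hB hn]
          · exact (h y hy).lip x (near y x hd) y (mem_ball_self hδ)
        · exact (h x hx).lip x (mem_ball_self hδ) y (near x y (by rwa [norm_sub_rev]))
      linarith only [mul_nonneg (mul_nonneg hB hn) p1, mul_nonneg (mul_nonneg hB hn) p2, this]
    · have e1 : ‖F x - F y‖ ≤ B + B := (norm_sub_le _ _).trans (add_le_add (hb x) (hb y))
      have e2 : 2 ≤ 2 / δ * ‖x - y‖ := by
        rw [div_mul_eq_mul_div, le_div_iff₀ hδ]; linarith only [hd]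
      linarith only [mul_nonneg hB hn, mul_nonneg (mul_nonneg hB hn) p2, mul_le_mul_of_nonneg_left e2 hB, e1]
  · have hn := sq_nonneg ‖y‖
    by_cases hd : ‖y‖ < δ / 2
    · have : ‖F (m + y) + F (m - y) - (F m + F m)‖ ≤ B * ‖y‖ ^ 2 := by
        have n0 := norm_nonneg y
        have n2 : ‖y + y‖ < δ := (norm_add_le _ _).trans_lt (by linarith only [hd])
        by_cases a1 : F (m + y) = 0
        · by_cases a2 : F (m - y) = 0
          · by_cases a3 : F m = 0
            · simp [a1, a2, a3, mul_nonneg hB hn]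
            · exact (h _ a3).sec m y (near _ _ (by simp; linarith only [hδ, hd])) (near _ _ (by simp; linarith only [hδ, hd]))
          · exact (h _ a2).sec m y (near _ _ (by
              rw [show m + y - (m - y) = y + y by abel]; exact n2)) (mem_ball_self hδ)
        · exact (h _ a1).sec m y (mem_ball_self hδ) (near _ _ (by
            rw [show m - y - (m + y) = -(y + y) by abel, norm_neg]; exact n2))
      linarith only [mul_nonneg (mul_nonneg hB hn) p1, mul_nonneg (mul_nonneg hB hn) p2, this]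
    · have e1 : ‖F (m + y) + F (m - y) - (F m + F m)‖ ≤ B + B + (B + B) :=
        (norm_sub_le _ _).trans (add_le_add ((norm_add_le _ _).trans (add_le_add (hb _) (hb _)))
          ((norm_add_le _ _).trans (add_le_add (hb _) (hb _))))
      have e2 : 4 ≤ 16 / δ ^ 2 * ‖y‖ ^ 2 := by
        rw [div_mul_eq_mul_div, le_div_iff₀ (by positivity)]
        nlinarith only [hδ, hd]
      linarith only [mul_nonneg hB hn, mul_nonneg (mul_nonneg hB hn) p1, mul_le_mul_of_nonneg_left e2 hB, e1]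

end

end Pool.Agent.MP_596265_gt.Gau
end

section
namespace Pool.Agent.MP_596265_gt.Gau

open MeasureTheory Metric Set Filter

noncomputable section

theorem poly_exp {c : ℝ} (hc : 0 < c) (k : ℕ) : ∃ M : ℝ, 0 ≤ M ∧ ∀ s : ℝ, 0 ≤ s →
    (1 + s) ^ k * Real.exp (-(c * s)) ≤ M * Real.exp (-(c / 2 * s)) := by
  set a := c / 2 / (k + 1) with ha
  have a0 : 0 < a := by positivity
  refine ⟨(1 + a⁻¹) ^ k, by positivity, fun s hs => ?_⟩
  have h1 : 1 + s ≤ (1 + a⁻¹) * Real.exp (a * s) := by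
    have h2 := Real.add_one_le_exp (a * s)
    have h3 : 0 < a⁻¹ := inv_pos.2 a0
    have h4 : a⁻¹ * (a * s) = s := by field_simp
    linarith only [mul_le_mul_of_nonneg_left h2 h3.le, mul_nonneg a0.le hs, h2, h3, h4]
  have h2 : (1 + s) ^ k ≤ (1 + a⁻¹) ^ k * Real.exp (k * (a * s)) := by
    rw [Real.exp_nat_mul, ← mul_pow]
    exact pow_le_pow_left₀ (by positivity) h1 k
  have h3 : (k : ℝ) * (a * s) + -(c * s) ≤ -(c / 2 * s) := by
    have h4 : a * (k + 1) = c / 2 := by rw [ha]; field_simp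
    nlinarith only [mul_nonneg a0.le hs, hs, h4]
  calc _ ≤ (1 + a⁻¹) ^ k * Real.exp (k * (a * s)) * Real.exp (-(c * s)) :=
        mul_le_mul_of_nonneg_right h2 (Real.exp_pos _).le
    _ = (1 + a⁻¹) ^ k * Real.exp (k * (a * s) + -(c * s)) := by rw [Real.exp_add, mul_assoc]
    _ ≤ _ := mul_le_mul_of_nonneg_left (Real.exp_le_exp.2 h3) (by positivity)

theorem c11_exp (b : ℝ) : C11 (Iic b) (Real.exp b) Real.exp := by
  have hn : ∀ a : ℝ, ‖ContinuousLinearMap.toSpanSingleton ℝ a‖ = |a| := fun a => by simp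
  refine ⟨fun a => ContinuousLinearMap.toSpanSingleton ℝ (Real.exp a), fun a ha =>
    ⟨(Real.hasDerivAt_exp a).hasFDerivAt, ?_, ?_⟩, fun a ha a' ha' => ?_⟩
  · rw [Real.norm_eq_abs, abs_of_pos (Real.exp_pos a)]; exact Real.exp_le_exp.2 ha
  · rw [hn, abs_of_pos (Real.exp_pos a)]; exact Real.exp_le_exp.2 ha
  · have : ContinuousLinearMap.toSpanSingleton ℝ (Real.exp a) -
        ContinuousLinearMap.toSpanSingleton ℝ (Real.exp a') =
        ContinuousLinearMap.toSpanSingleton ℝ (Real.exp a - Real.exp a') := by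
      ext; simp only [sub_apply, ContinuousLinearMap.toSpanSingleton_apply, smul_eq_mul, one_mul]
    rw [this, hn]
    exact (convex_Iic b).norm_image_sub_le_of_norm_hasDerivWithin_le (f := Real.exp)
      (f' := Real.exp) (fun x _ => (Real.hasDerivAt_exp x).hasDerivWithinAt)
      (fun x hx => by
        rw [Real.norm_eq_abs, abs_of_pos (Real.exp_pos x)]; exact Real.exp_le_exp.2 hx) ha' ha

variable {V : Type*} [NormedAddCommGroup V] [InnerProductSpace ℝ V] [FiniteDimensional ℝ V]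

theorem contDiff_det : ContDiff ℝ 2 (fun N : V →L[ℝ] V => N.det) := by
  let b := Module.finBasis ℝ V
  have h : (fun N : V →L[ℝ] V => N.det) = fun N : V →L[ℝ] V =>
      ∑ σ : Equiv.Perm (Fin (Module.finrank ℝ V)), ((Equiv.Perm.sign σ : ℤ) : ℝ) *
        ∏ i, b.repr (N (b i)) (σ i) := by
    funext N
    unfold ContinuousLinearMap.det
    rw [← LinearMap.det_toMatrix b, Matrix.det_apply']
    simp only [LinearMap.toMatrix_apply, ContinuousLinearMap.coe_coe]
  rw [h]
  refine ContDiff.sum fun σ _ => contDiff_const.mul (contDiff_prod fun i _ => ?_)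
  exact ((LinearMap.toContinuousLinearMap (b.coord (σ i))).comp
    (ContinuousLinearMap.apply ℝ V (b i))).contDiff

theorem convex_cov (L : ℝ) : Convex ℝ {N : V →L[ℝ] V | Cov L N} := by
  intro M hM N hN a b ha hb hab
  refine ⟨fun u v => ?_, fun u => ?_, ?_⟩
  · simp only [add_apply, smul_apply, inner_add_left, inner_smul_left, Real.ringHom_apply, hM.sym, hN.sym, inner_add_right, inner_smul_right]
  · have h : qf (a • M + b • N) u = a * qf M u + b * qf N u := by
      simp only [qf, add_apply, smul_apply, inner_add_left, inner_smul_left, Real.ringHom_apply]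
    have h1 := mul_le_mul_of_nonneg_left (hM.lo u) ha
    have h2 := mul_le_mul_of_nonneg_left (hN.lo u) hb
    have h3 : ‖u‖ ^ 2 = a * ‖u‖ ^ 2 + b * ‖u‖ ^ 2 := by rw [← add_mul, hab, one_mul]
    rw [h]; linarith only [h1, h2, h3]
  · have := convex_closedBall (0 : V →L[ℝ] V) L (x := M) (by simpa only [mem_closedBall, dist_zero_right] using hM.hi) (y := N)
      (by simpa only [mem_closedBall, dist_zero_right] using hN.hi) ha hb hab
    simpa only [ge_iff_le, mem_closedBall, dist_zero_right] using this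

theorem isCompact_cov (L : ℝ) : IsCompact {N : V →L[ℝ] V | Cov L N} := by
  refine (isCompact_closedBall (0 : V →L[ℝ] V) L).of_isClosed_subset ?_
    (fun N hN => by simpa only [mem_closedBall, dist_zero_right] using hN.hi)
  have : {N : V →L[ℝ] V | Cov L N} = (⋂ u, ⋂ v, {N : V →L[ℝ] V | inner ℝ (N u) v = inner ℝ u (N v)})
      ∩ ((⋂ u, {N : V →L[ℝ] V | ‖u‖ ^ 2 ≤ L * inner ℝ (N u) u}) ∩ {N | ‖N‖ ≤ L}) := by
    ext N
    simp only [mem_setOf_eq, mem_inter_iff, mem_iInter]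
    exact ⟨fun h => ⟨h.sym, h.lo, h.hi⟩, fun h => ⟨h.1, h.2.1, h.2.2⟩⟩
  rw [this]
  refine (isClosed_iInter fun u => isClosed_iInter fun v => isClosed_eq (by fun_prop)
    (by fun_prop)).inter ((isClosed_iInter fun u => isClosed_le (by fun_prop)
    (by fun_prop)).inter (isClosed_le (by fun_prop) (by fun_prop)))

theorem isOpen_det_pos : IsOpen {N : V →L[ℝ] V | 0 < N.det} :=
  isOpen_lt continuous_const ContinuousLinearMap.continuous_det

theorem c11_inverse (L : ℝ) : ∃ B : ℝ, 1 ≤ B ∧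
    C11 {N : V →L[ℝ] V | Cov L N} B (fun N => Ring.inverse N) := by
  refine c11_of_contDiffOn isOpen_det_pos (fun N hN => ?_) (isCompact_cov L) (convex_cov L)
    (fun N hN => hN.det_pos)
  obtain ⟨u, rfl⟩ := isUnit_iff_det.2 (ne_of_gt hN)
  exact (contDiffAt_ringInverse ℝ u).contDiffWithinAt

theorem c11_norm (L : ℝ) : ∃ B : ℝ, 1 ≤ B ∧ C11 {N : V →L[ℝ] V | Cov L N} B
    (fun N => (√((2 * Real.pi) ^ Module.finrank ℝ V * N.det))⁻¹) := by
  refine c11_of_contDiffOn isOpen_det_pos (fun N hN => ?_) (isCompact_cov L) (convex_cov L)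
    (fun N hN => hN.det_pos)
  have h : 0 < (2 * Real.pi) ^ Module.finrank ℝ V * N.det :=
    mul_pos (by positivity) hN
  exact (((contDiffAt_const.mul contDiff_det.contDiffAt).sqrt h.ne').inv
    (Real.sqrt_pos.2 h).ne').contDiffWithinAt

theorem Cov.exp_le {L : ℝ} (hL : 0 < L) {N : V →L[ℝ] V} (h : Cov L N) (v : V) :
    -(qf (Ring.inverse N) v) / 2 ≤ -(1 / (2 * L) * ‖v‖ ^ 2) := by
  have h1 := h.inverse.lo v
  have h2 : 1 / (2 * L) * ‖v‖ ^ 2 ≤ qf (Ring.inverse N) v / 2 := by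
    rw [one_div, inv_mul_le_iff₀ (by positivity)]; linarith
  linarith only [h2]

theorem gam_le {L : ℝ} (hL : 0 < L) : ∃ G : ℝ, 0 ≤ G ∧ ∀ N : V →L[ℝ] V, Cov L N → ∀ v,
    gam N v ≤ G * Real.exp (-(1 / (2 * L) * ‖v‖ ^ 2)) := by
  obtain ⟨B, hB, g1, h1, -⟩ := c11_norm (V := V) L
  refine ⟨B, by linarith, fun N hN v => ?_⟩
  exact mul_le_mul ((le_abs_self _).trans (h1 N hN).2.1) (Real.exp_le_exp.2 (hN.exp_le hL v))
    (Real.exp_pos _).le (by linarith)

theorem tame_gam_loc {L : ℝ} (hL : 1 ≤ L) : ∃ c C : ℝ, 0 < c ∧ 0 ≤ C ∧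
    ∀ (S : Set V) (N : V → V →L[ℝ] V), Convex ℝ S → (∀ x ∈ S, Cov L (N x)) → Tame S L N →
      ∀ h, Tame S (C * Real.exp (-(c * ‖h‖ ^ 2))) (fun x => gam (N x) h) := by
  obtain ⟨B1, b1, h1⟩ := c11_inverse (V := V) L
  obtain ⟨B2, b2, h2⟩ := c11_norm (V := V) L
  have hL0 : 0 < L := by linarith
  obtain ⟨M, hM, hp⟩ := poly_exp (c := 1 / (2 * L)) (by positivity) 2
  set A := 3 * B1 * L ^ 2 with hA
  have hA1 : 1 ≤ A := by nlinarith
  refine ⟨1 / (2 * L) / 2, 4 * (3 * B2 * L ^ 2) * (3 * A ^ 2 * M), by positivity, by positivity,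
    fun S N hS hc hN h => ?_⟩
  have t1 := h1.comp (convex_cov L) hS hL hc hN.lip hN.sec
  have t2 := h2.comp (convex_cov L) hS hL hc hN.lip hN.sec
  have s0 := sq_nonneg ‖h‖
  have key : ∀ (P : V →L[ℝ] V) (w : ℝ), 0 ≤ w → ‖P‖ ≤ A * w →
      ‖-(qf P h) / 2‖ ≤ A * (1 + ‖h‖ ^ 2) * w := fun P w hw hP => by
    have e1 := abs_qf_le P h
    have e2 := mul_le_mul_of_nonneg_right hP s0
    rw [Real.norm_eq_abs, abs_div, abs_neg, abs_two]
    have e3 : 0 ≤ A * w := by positivity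
    linarith only [mul_nonneg e3 s0, e1, e2, e3]
  have t3 := (c11_exp (-(1 / (2 * L) * ‖h‖ ^ 2))).comp (convex_Iic _) hS
    (N := fun x => -(qf (Ring.inverse (N x)) h) / 2) (a := A * (1 + ‖h‖ ^ 2)) (by nlinarith only [hA1])
    (fun x hx => (hc x hx).exp_le hL0 h)
    (fun x hx y hy => by
      refine le_of_eq_of_le (congrArg _ ?_) (key _ _ (norm_nonneg _) (t1.lip x hx y hy))
      simp only [qf, ContinuousLinearMap.sub_apply, inner_sub_left]; ring)
    (fun m y p1 p2 => by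
      refine le_of_eq_of_le (congrArg _ ?_) (key _ _ (sq_nonneg _) (t1.sec m y p1 p2))
      simp only [qf, ContinuousLinearMap.sub_apply, ContinuousLinearMap.add_apply,
        inner_sub_left, inner_add_left]; ring)
  refine (t2.mul hS t3).mono ?_
  have := mul_le_mul_of_nonneg_left (hp _ s0)
    (show 0 ≤ 4 * (3 * B2 * L ^ 2) * (3 * A ^ 2) by positivity)
  calc _ = 4 * (3 * B2 * L ^ 2) * (3 * A ^ 2) *
        ((1 + ‖h‖ ^ 2) ^ 2 * Real.exp (-(1 / (2 * L) * ‖h‖ ^ 2))) := by ring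
    _ ≤ _ := this
    _ = _ := by ring

theorem tame_gam {L δ : ℝ} (hL : 1 ≤ L) (hδ : 0 < δ) : ∃ c C : ℝ, 0 < c ∧ 0 ≤ C ∧
    ∀ (χ : V → ℝ) (N : V → V →L[ℝ] V), Tame univ L χ →
      (∀ x₀, χ x₀ ≠ 0 → (∀ x ∈ ball x₀ δ, Cov L (N x)) ∧ Tame (ball x₀ δ) L N) →
      ∀ h, Tame univ (C * Real.exp (-(c * ‖h‖ ^ 2))) (fun x => χ x * gam (N x) h) := by
  obtain ⟨c, C, hc, hC, H⟩ := tame_gam_loc (V := V) hL
  refine ⟨c, (1 + 2 / δ + 16 / δ ^ 2) * (4 * L * C), hc, by positivity, fun χ N h1 h2 h => ?_⟩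
  have := tame_cut (F := fun x => χ x * gam (N x) h) hδ
    (B := 4 * L * (C * Real.exp (-(c * ‖h‖ ^ 2)))) (by positivity) (fun x hx => by
      obtain ⟨a, b⟩ := h2 x (left_ne_zero_of_mul hx)
      exact (h1.subset (subset_univ _)).mul (convex_ball _ _) (H _ N (convex_ball _ _) a b h))
  convert this using 1
  ring

variable [MeasurableSpace V] [BorelSpace V]

theorem measurable_inverse : Measurable (fun N : V →L[ℝ] V => Ring.inverse N) := by
  classical
  have ho : IsOpen {N : V →L[ℝ] V | IsUnit N} := Units.isOpen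
  have : (fun N : V →L[ℝ] V => Ring.inverse N) =
      Set.piecewise {N : V →L[ℝ] V | IsUnit N} (fun N => Ring.inverse N) (fun _ => 0) := by
    funext N
    by_cases h : IsUnit N
    · rw [Set.piecewise_eq_of_mem _ _ _ (show N ∈ {N : V →L[ℝ] V | IsUnit N} from h)]
    · rw [Set.piecewise_eq_of_notMem _ _ _ (show N ∉ {N : V →L[ℝ] V | IsUnit N} from h),
        Ring.inverse_non_unit _ h]
  rw [this]
  refine ContinuousOn.measurable_piecewise (fun N hN => ?_) continuousOn_const ho.measurableSet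
  obtain ⟨u, rfl⟩ := hN
  exact (NormedRing.inverse_continuousAt u).continuousWithinAt

theorem measurable_gam : Measurable (fun y : (V →L[ℝ] V) × V => gam y.1 y.2) := by
  have h1 : Measurable (fun y : (V →L[ℝ] V) × V => y.1.det) :=
    ContinuousLinearMap.continuous_det.measurable.comp measurable_fst
  have h2 : Measurable (fun y : (V →L[ℝ] V) × V => qf y.1 y.2) := by
    have : Continuous (fun y : (V →L[ℝ] V) × V => qf y.1 y.2) := by unfold qf; fun_prop
    exact this.measurable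
  have h3 : Measurable (fun y : (V →L[ℝ] V) × V => qf (Ring.inverse y.1) y.2) :=
    h2.comp ((measurable_inverse.comp measurable_fst).prodMk measurable_snd)
  exact ((measurable_const.mul h1).sqrt.inv).mul ((h3.neg.div_const 2).exp)

theorem integrable_exp {c : ℝ} (hc : 0 < c) :
    Integrable (fun v : V => Real.exp (-(c * ‖v‖ ^ 2))) := by
  have := (GaussianFourier.integrable_cexp_neg_mul_sq_norm_add (V := V) (b := (c : ℂ))
    (by simpa using hc) 0 0).norm
  convert this using 2 with v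
  rw [Complex.norm_exp]
  congr 1
  norm_cast
  simp

theorem integrable_bell {c : ℝ} (hc : 0 < c) (k : ℕ) :
    Integrable (fun v : V => ‖v‖ ^ k * Real.exp (-(c * ‖v‖ ^ 2))) := by
  obtain ⟨M, -, hp⟩ := poly_exp hc k
  refine ((integrable_exp (V := V) (half_pos hc)).const_mul M).mono'
    (Continuous.aestronglyMeasurable (by fun_prop)) (Eventually.of_forall fun v => ?_)
  rw [Real.norm_of_nonneg (by positivity)]
  refine le_trans (mul_le_mul_of_nonneg_right (pow_le_pow_left₀ (norm_nonneg _) ?_ k)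
    (Real.exp_pos _).le) (hp _ (sq_nonneg ‖v‖))
  nlinarith [sq_nonneg (‖v‖ - 1), norm_nonneg v]

theorem measurable_gam' (N : V →L[ℝ] V) : Measurable (gam N) :=
  measurable_gam.comp measurable_prodMk_left

theorem Cov.integrable_gam {L : ℝ} {N : V →L[ℝ] V} (h : Cov L N) : Integrable (gam N) := by
  have h0 : 0 < L + 1 := by linarith [h.nonneg]
  obtain ⟨G, -, hG⟩ := gam_le (V := V) h0
  refine ((integrable_exp (V := V) (c := 1 / (2 * (L + 1))) (by positivity)).const_mul G).mono'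
    (measurable_gam' N).aestronglyMeasurable (Eventually.of_forall fun v => ?_)
  rw [Real.norm_of_nonneg (gam_nonneg _ _)]
  exact hG N (h.mono (by linarith)) v

theorem integral_std_cos (w : V) : ∫ v : V, gam (1 : V →L[ℝ] V) v * Real.cos (inner ℝ w v) =
    Real.exp (-(‖w‖ ^ 2) / 2) := by
  have hb : 0 < ((1 / 2 : ℝ) : ℂ).re := by simp
  have h1 := GaussianFourier.integral_cexp_neg_mul_sq_norm_add (V := V) hb Complex.I w
  have h2 := GaussianFourier.integrable_cexp_neg_mul_sq_norm_add (V := V) hb Complex.I w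
  have h3 := congrArg Complex.re h1
  have h4 := integral_re h2
  simp only [RCLike.re_to_complex] at h4
  rw [← h4] at h3
  have h5 : ∀ v : V, (Complex.exp (-((1 / 2 : ℝ) : ℂ) * (‖v‖ : ℂ) ^ 2 +
      Complex.I * (inner ℝ w v : ℝ))).re = Real.exp (-(‖v‖ ^ 2) / 2) * Real.cos (inner ℝ w v) := by
    intro v
    rw [Complex.exp_re, ← Complex.ofReal_pow, ← Complex.ofReal_neg, ← Complex.ofReal_mul]
    simp only [Complex.add_re, Complex.add_im, Complex.ofReal_re, Complex.ofReal_im,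
      Complex.mul_re, Complex.mul_im, Complex.I_re, Complex.I_im]
    congr 2 <;> ring
  have h6 : ((Real.pi : ℂ) / ((1 / 2 : ℝ) : ℂ)) ^ ((Module.finrank ℝ V : ℂ) / 2) *
      Complex.exp (Complex.I ^ 2 * (‖w‖ : ℂ) ^ 2 / (4 * ((1 / 2 : ℝ) : ℂ))) =
      ((√((2 * Real.pi) ^ Module.finrank ℝ V) * Real.exp (-(‖w‖ ^ 2) / 2) : ℝ) : ℂ) := by
    have e1 : √((2 * Real.pi) ^ Module.finrank ℝ V) =
        (2 * Real.pi) ^ ((Module.finrank ℝ V : ℝ) / 2) := by
      rw [Real.sqrt_eq_rpow, ← Real.rpow_natCast, ← Real.rpow_mul (by positivity)]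
      congr 1; ring
    rw [e1, Complex.ofReal_mul, Complex.ofReal_cpow (by positivity), Complex.ofReal_exp,
      Complex.I_sq]
    congr 2
    · push_cast; ring
    · push_cast; ring
    · push_cast; ring
  rw [h6, Complex.ofReal_re] at h3
  simp only [h5] at h3
  have h7 : ∀ v : V, gam (1 : V →L[ℝ] V) v * Real.cos (inner ℝ w v) =
      (√((2 * Real.pi) ^ Module.finrank ℝ V))⁻¹ *
        (Real.exp (-(‖v‖ ^ 2) / 2) * Real.cos (inner ℝ w v)) := by
    intro v
    have : (1 : V →L[ℝ] V).det = 1 := LinearMap.det_id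
    simp only [gam, this, mul_one, qf, Ring.inverse_one, one_apply_eq_self, inner_self_eq_norm_sq_to_K, Real.ringHom_apply, mul_assoc]
  simp only [h7]
  rw [integral_const_mul, h3, ← mul_assoc, inv_mul_cancel₀, one_mul]
  exact (Real.sqrt_pos.2 (by positivity)).ne'

theorem Cov.integral_gam_cos {L : ℝ} {N : V →L[ℝ] V} (h : Cov L N) (ξ : V) :
    ∫ v, gam N v * Real.cos (inner ℝ ξ v) = Real.exp (-(qf N ξ) / 2) := by
  obtain ⟨S, hs, hS⟩ := exists_sqrt h
  have ha : S = ContinuousLinearMap.adjoint S := (ContinuousLinearMap.eq_adjoint_iff S S).2 hs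
  have hu : IsUnit S := by
    have := isUnit_iff_det.1 h.isUnit
    rw [← hS, det_mul'] at this
    exact isUnit_iff_det.2 (left_ne_zero_of_mul this)
  have hN : S * 1 * ContinuousLinearMap.adjoint S = N := by rw [← ha, mul_one, hS]
  have him : S '' univ = univ := by
    rw [image_univ, range_eq_univ]
    exact fun u => ⟨_, apply_inverse hu u⟩
  have h1 := integral_image_eq_integral_abs_det_fderiv_smul (volume : Measure V) MeasurableSet.univ
    (f := S) (f' := fun _ => S) (fun x _ => S.hasFDerivAt.hasFDerivWithinAt)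
    (fun x _ y _ hxy => by rw [← inverse_apply hu x, hxy, inverse_apply hu])
    (fun v => gam N v * Real.cos (inner ℝ ξ v))
  rw [him, Measure.restrict_univ] at h1
  have h2 : ∀ v, |S.det| • (gam N (S v) * Real.cos (inner ℝ ξ (S v))) =
      gam (1 : V →L[ℝ] V) v * Real.cos (inner ℝ (S ξ) v) := fun v => by
    rw [smul_eq_mul, ← mul_assoc, ← hN, gam_conj hu isUnit_one, hs]
  have h3 : ‖S ξ‖ ^ 2 = qf N ξ := by
    rw [← real_inner_self_eq_norm_sq, ← hS, qf, mul_apply_eq_comp, hs (S ξ) ξ]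
  rw [h1]
  simp only [h2]
  rw [integral_std_cos, h3]

theorem Cov.integral_gam {L : ℝ} {N : V →L[ℝ] V} (h : Cov L N) : ∫ v, gam N v = 1 := by
  simpa [qf] using h.integral_gam_cos 0

end

end Pool.Agent.MP_596265_gt.Gau
end

section
namespace Pool.Agent.MP_596265_gt.En

open MeasureTheory Gau

variable (V : Type) [NormedAddCommGroup V] [InnerProductSpace ℝ V] [FiniteDimensional ℝ V]
  [MeasurableSpace V] [BorelSpace V]

theorem gs : GS_s V :=
  ⟨measurable_gam, gam_nonneg, gam_neg,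
    fun _ _ h => ⟨h.integrable_gam, h.integral_gam, h.integral_gam_cos⟩,
    fun _ hc k => integrable_bell hc k⟩

theorem tg : TG_s V := fun _ _ hL hδ => tame_gam hL hδ

end Pool.Agent.MP_596265_gt.En
end

section
/-! Change of chart for Gaussian averages. -/

namespace Pool.Agent.MP_596265_gt.En

open MeasureTheory Filter Topology Set Metric Gau
open scoped RealInnerProductSpace

namespace E2

variable {V : Type} [NormedAddCommGroup V] [InnerProductSpace ℝ V] [FiniteDimensional ℝ V]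

lemma det_smooth : ContDiff ℝ 1 fun A : V →L[ℝ] V => A.det := by
  let b := Module.finBasis ℝ V
  have : (fun A : V →L[ℝ] V => A.det) = fun A => ∑ σ : Equiv.Perm (Fin (Module.finrank ℝ V)),
      ((Equiv.Perm.sign σ : ℤ) : ℝ) * ∏ i, (b.coord (σ i)).toContinuousLinearMap (A (b i)) := by
    funext A
    rw [ContinuousLinearMap.det, ← LinearMap.det_toMatrix b, Matrix.det_apply']
    simp only [LinearMap.toMatrix_apply, ContinuousLinearMap.coe_coe, LinearMap.coe_toContinuousLinearMap', Module.Basis.coord_apply]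
  rw [this]
  refine ContDiff.sum fun σ _ => contDiff_const.mul (contDiff_prod fun i _ => ?_)
  exact (b.coord (σ i)).toContinuousLinearMap.contDiff.comp (contDiff_id.clm_apply contDiff_const)

lemma det_lip (R : ℝ) : ∃ D : ℝ, 1 ≤ D ∧ (∀ A : V →L[ℝ] V, ‖A‖ ≤ R → |A.det| ≤ D) ∧
    ∀ A B : V →L[ℝ] V, ‖A‖ ≤ R → ‖B‖ ≤ R → |A.det - B.det| ≤ D * ‖A - B‖ := by
  have hc := isCompact_closedBall (0 : V →L[ℝ] V) R
  obtain ⟨K, hK⟩ := (det_smooth (V := V)).contDiffOn.exists_lipschitzOnWith one_ne_zero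
    (convex_closedBall 0 R) hc
  obtain ⟨B, hB⟩ := hc.exists_bound_of_continuousOn (det_smooth (V := V)).continuous.continuousOn
  refine ⟨max 1 (max K B), le_max_left _ _, fun A hA => (hB A (by simpa only [mem_closedBall, dist_zero_right] using hA)).trans
    ((le_max_right _ _).trans (le_max_right _ _)), fun A B hA hB => ?_⟩
  have := hK.norm_sub_le (x := A) (y := B) (by simpa only [mem_closedBall, dist_zero_right] using hA) (by simpa only [mem_closedBall, dist_zero_right] using hB)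
  exact this.trans (mul_le_mul_of_nonneg_right ((le_max_left _ _).trans (le_max_right _ _))
    (norm_nonneg _))

lemma det_adj (A : V →L[ℝ] V) : (ContinuousLinearMap.adjoint A).det = A.det := by
  let b := stdOrthonormalBasis ℝ V
  rw [ContinuousLinearMap.det, ← ContinuousLinearMap.adjoint_toLinearMap,
    ← LinearMap.det_toMatrix b.toBasis, LinearMap.toMatrix_adjoint, Matrix.det_conjTranspose,
    LinearMap.det_toMatrix]
  rfl

omit [FiniteDimensional ℝ V] in
lemma det_mul' (A B : V →L[ℝ] V) : (A * B).det = A.det * B.det := LinearMap.det_comp _ _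

lemma surj {A : V →L[ℝ] V} {L : ℝ} (h : ∀ u, ‖u‖ ≤ L * ‖A u‖) : Function.Bijective A := by
  have : Function.Injective A := (injective_iff_map_eq_zero A).2 fun u hu =>
    norm_le_zero_iff.1 (by simpa only [norm_le_zero_iff, hu, norm_zero, mul_zero] using h u)
  exact ⟨this, LinearMap.injective_iff_surjective.1 (show Function.Injective A.toLinearMap from this)⟩

omit [FiniteDimensional ℝ V] in
lemma low {L : ℝ} {T : V →L[ℝ] V} (hL : 1 ≤ L) (h : Cov L T) (u : V) : ‖u‖ ≤ L * ‖T u‖ := by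
  have h1 := h.lo u
  have h2 : qf T u ≤ ‖T u‖ * ‖u‖ := real_inner_le_norm _ _
  rcases (norm_nonneg u).eq_or_lt with e | e
  · rw [← e]; positivity
  · refine le_of_mul_le_mul_right ?_ e
    nlinarith only [hL, h1, h2]

lemma unit {L : ℝ} {T : V →L[ℝ] V} (hL : 1 ≤ L) (h : Cov L T) : IsUnit T :=
  ContinuousLinearMap.isUnit_iff_bijective.2 (surj (low hL h))

lemma inv_app {L : ℝ} {T : V →L[ℝ] V} (hL : 1 ≤ L) (h : Cov L T) (u : V) :
    Ring.inverse T (T u) = u ∧ T (Ring.inverse T u) = u :=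
  ⟨congrArg (fun B : V →L[ℝ] V => B u) (Ring.inverse_mul_cancel T (unit hL h)),
    congrArg (fun B : V →L[ℝ] V => B u) (Ring.mul_inverse_cancel T (unit hL h))⟩

lemma inv_le {L : ℝ} {T : V →L[ℝ] V} (hL : 1 ≤ L) (h : Cov L T) : ‖Ring.inverse T‖ ≤ L :=
  ContinuousLinearMap.opNorm_le_bound _ (by linarith) fun u => by
    simpa only [(inv_app hL h u).2] using low hL h (Ring.inverse T u)

lemma gam_le {L D : ℝ} {T : V →L[ℝ] V} (hL : 1 ≤ L) (h : Cov L T) (hD : 1 ≤ D)
    (hd : ∀ A : V →L[ℝ] V, ‖A‖ ≤ L → |A.det| ≤ D) (u : V) :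
    gam T u ≤ D * Real.exp (-(1 / (2 * L ^ 3) * ‖u‖ ^ 2)) := by
  refine mul_le_mul ?_ (Real.exp_le_exp.2 ?_) (Real.exp_pos _).le (by linarith)
  · rcases le_or_gt T.det 0 with e | e
    · rw [Real.sqrt_eq_zero_of_nonpos (mul_nonpos_of_nonneg_of_nonpos (by positivity) e), inv_zero]
      linarith
    have h1 : T.det * (Ring.inverse T).det = 1 := by
      rw [← det_mul', Ring.mul_inverse_cancel T (unit hL h)]; exact LinearMap.det_id
    have h2 := (le_abs_self _).trans (hd _ (inv_le hL h))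
    have h3 : (1 : ℝ) ≤ (2 * Real.pi) ^ Module.finrank ℝ V :=
      one_le_pow₀ (by linarith [Real.pi_gt_three])
    rw [inv_le_comm₀ (Real.sqrt_pos.2 (by positivity)) (by positivity)]
    refine Real.le_sqrt_of_sq_le ?_
    have h4 : 1 ≤ T.det * D := by nlinarith only [e, h1, h2]
    have h5 : D⁻¹ ^ 2 ≤ T.det := by
      rw [inv_pow, inv_le_iff_one_le_mul₀ (by positivity)]; nlinarith only [hD, h4]
    nlinarith only [h3, h5]
  · obtain ⟨w, rfl⟩ := (surj (low hL h)).2 u
    have h1 := h.lo w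
    have h2 : ‖T w‖ ≤ L * ‖w‖ := T.le_of_opNorm_le h.hi w
    have h3 : ‖T w‖ ^ 2 ≤ L ^ 3 * qf T w := by
      calc _ ≤ (L * ‖w‖) ^ 2 := by gcongr
        _ = L ^ 2 * ‖w‖ ^ 2 := by ring
        _ ≤ L ^ 2 * (L * qf T w) := by gcongr
        _ = _ := by ring
    have h4 : qf (Ring.inverse T) (T w) = qf T w := by
      rw [qf, (inv_app hL h w).1, qf, real_inner_comm]
    rw [h4, neg_div, neg_le_neg_iff, one_div, inv_mul_le_iff₀ (by positivity)]
    linarith only [h3]

lemma gam_ge {L : ℝ} {T : V →L[ℝ] V} (hL : 1 ≤ L) (h : Cov L T) (u w : V) :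
    gam T u * (1 - L * ‖w - u‖ * (‖w‖ + ‖u‖)) ≤ gam T w := by
  have h0 := inv_le hL h
  obtain ⟨P, hP⟩ : ∃ P, P = Ring.inverse T := ⟨_, rfl⟩
  simp only [gam, ← hP] at h0 ⊢
  rw [mul_assoc]
  refine mul_le_mul_of_nonneg_left ?_ (by positivity)
  have e : qf P w - qf P u = ⟪P (w - u), w⟫ + ⟪P u, w - u⟫ := by
    simp only [qf, map_sub, inner_sub_left, inner_sub_right]; ring
  have h1 : ⟪P (w - u), w⟫ ≤ L * ‖w - u‖ * ‖w‖ := (real_inner_le_norm _ _).trans
    (mul_le_mul_of_nonneg_right (P.le_of_opNorm_le h0 _) (norm_nonneg _))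
  have h2 : ⟪P u, w - u⟫ ≤ L * ‖u‖ * ‖w - u‖ := (real_inner_le_norm _ _).trans
    (mul_le_mul_of_nonneg_right (P.le_of_opNorm_le h0 _) (norm_nonneg _))
  have h3 : 0 ≤ L * ‖w - u‖ * (‖w‖ + ‖u‖) := by positivity
  rw [show -qf P w / 2 = -qf P u / 2 + -(qf P w - qf P u) / 2 by ring, Real.exp_add]
  refine mul_le_mul_of_nonneg_left (le_trans ?_ (Real.add_one_le_exp _)) (Real.exp_pos _).le
  linarith only [e, h1, h2, h3]

lemma conj {L : ℝ} {T T' A : V →L[ℝ] V} (hL : 1 ≤ L) (h : Cov L T) (h' : Cov L T')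
    (hA : ∀ ξ η, ⟪T' ξ, η⟫ =
      ⟪T (ContinuousLinearMap.adjoint A ξ), ContinuousLinearMap.adjoint A η⟫) :
    ‖A‖ ≤ L ∧ (∀ v, ‖v‖ ≤ L * ‖A v‖) ∧ ∀ v, gam T v = |A.det| * gam T' (A v) := by
  have L0 : 0 < L := by linarith
  have q : ∀ {N : V →L[ℝ] V}, Cov L N → ∀ u, qf N u ≤ L * ‖u‖ ^ 2 := fun {N} hN u => by
    calc _ ≤ ‖N u‖ * ‖u‖ := real_inner_le_norm _ _
      _ ≤ L * ‖u‖ * ‖u‖ := by gcongr; exact N.le_of_opNorm_le hN.hi u
      _ = _ := by ring
  have e : ∀ ξ, qf T' ξ = qf T (ContinuousLinearMap.adjoint A ξ) := fun ξ => hA ξ ξ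
  have h1 : ∀ ξ, ‖ContinuousLinearMap.adjoint A ξ‖ ≤ L * ‖ξ‖ := fun ξ => by
    refine abs_le_of_sq_le_sq' ?_ (by positivity) |>.2
    have := h.lo (ContinuousLinearMap.adjoint A ξ)
    have := mul_le_mul_of_nonneg_left (q h' ξ) L0.le
    rw [e] at this
    nlinarith
  have h2 : ∀ ξ, ‖ξ‖ ≤ L * ‖ContinuousLinearMap.adjoint A ξ‖ := fun ξ => by
    refine abs_le_of_sq_le_sq' ?_ (by positivity) |>.2
    have := h'.lo ξ
    have := mul_le_mul_of_nonneg_left (q h (ContinuousLinearMap.adjoint A ξ)) L0.le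
    rw [← e] at this
    nlinarith
  have h3 : ∀ v, ‖v‖ ≤ L * ‖A v‖ := fun v => by
    obtain ⟨ξ, rfl⟩ := (surj h2).2 v
    have a := ContinuousLinearMap.adjoint_inner_left A (ContinuousLinearMap.adjoint A ξ) ξ
    have b := h2 ξ
    generalize ContinuousLinearMap.adjoint A ξ = v at a b
    rw [real_inner_self_eq_norm_sq] at a
    have c := (real_inner_le_norm ξ (A v)).trans (mul_le_mul_of_nonneg_right b (norm_nonneg _))
    rcases (norm_nonneg v).eq_or_lt with e | e
    · rw [← e]; positivity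
    · refine le_of_mul_le_mul_right ?_ e
      linarith only [a, c]
  have eT : T' = A * T * ContinuousLinearMap.adjoint A := by
    ext ξ
    refine ext_inner_right ℝ fun η => ?_
    rw [hA, ContinuousLinearMap.adjoint_inner_right]
    rfl
  refine ⟨?_, h3, fun v => ?_⟩
  · rw [← ContinuousLinearMap.adjoint.norm_map A]
    exact ContinuousLinearMap.opNorm_le_bound _ L0.le h1
  have d0 : |A.det| ≠ 0 := abs_ne_zero.2 ((LinearMap.isUnit_det _
    ((Module.End.isUnit_iff A.toLinearMap).2 (surj h3))).ne_zero)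
  have d1 : √((2 * Real.pi) ^ Module.finrank ℝ V * T'.det) =
      |A.det| * √((2 * Real.pi) ^ Module.finrank ℝ V * T.det) := by
    rw [← Real.sqrt_sq_eq_abs, ← Real.sqrt_mul (sq_nonneg _), eT, det_mul', det_mul', det_adj]
    congr 1
    ring
  have d2 : qf (Ring.inverse T') (A v) = qf (Ring.inverse T) v := by
    obtain ⟨w, rfl⟩ := (surj (low hL h)).2 v
    obtain ⟨ξ, rfl⟩ := (surj h2).2 w
    have : A (T (ContinuousLinearMap.adjoint A ξ)) = T' ξ := by rw [eT]; rfl
    rw [qf, qf, (inv_app hL h _).1, ContinuousLinearMap.adjoint_inner_left, this,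
      (inv_app hL h' _).1]
  rw [gam, gam, d1, d2, mul_inv, ← mul_assoc, ← mul_assoc, mul_inv_cancel₀ d0, one_mul]

lemma bell {c : ℝ} (hc : 0 < c) : ∃ K : ℝ, 0 ≤ K ∧ ∀ s ≥ (0 : ℝ),
    (s + s ^ 3) * Real.exp (-(2 * c * s ^ 2)) ≤ K * Real.exp (-(c * s ^ 2)) := by
  refine ⟨2 + 4 / c ^ 2, by positivity, fun s hs => ?_⟩
  rw [show -(2 * c * s ^ 2) = -(c * s ^ 2) + -(c * s ^ 2) by ring, Real.exp_add, ← mul_assoc]
  refine mul_le_mul_of_nonneg_right ?_ (Real.exp_pos _).le
  rw [Real.exp_neg, mul_inv_le_iff₀ (Real.exp_pos _)]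
  have h1 := Real.quadratic_le_exp_of_nonneg (show 0 ≤ c * s ^ 2 by positivity)
  have h2 : s + s ^ 3 ≤ 2 + 2 * s ^ 4 := by
    nlinarith only [sq_nonneg (s ^ 2 - 1)]
  have h3 : 4 / c ^ 2 * ((c * s ^ 2) ^ 2 / 2) = 2 * s ^ 4 := by field_simp; ring
  have h4 : 0 ≤ c * s ^ 2 := by positivity
  have h5 : 4 / c ^ 2 * ((c * s ^ 2) ^ 2 / 2) ≤ 4 / c ^ 2 * Real.exp (c * s ^ 2) :=
    mul_le_mul_of_nonneg_left (by linarith only [h1, h4]) (by positivity)
  linarith only [sq_nonneg (c * s ^ 2), h1, h2, h3, h4, h5]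

lemma fin1 {J a G G' e D C L δ τ s p q : ℝ} (hD : 1 ≤ D) (hC : 1 ≤ C) (hL : 1 ≤ L) (hδ : 0 < δ)
    (hτ : 0 < τ) (hs : 0 ≤ s) (he : 0 < e) (J0 : 0 ≤ J) (JD : J ≤ D) (G0 : 0 ≤ G) (GD : G ≤ D * e)
    (h1 : a ≤ J + D * (C * (τ * s))) (p1 : p ≤ C * (τ * s) * s) (q0 : 0 ≤ q)
    (q1 : q ≤ (2 * L + 1) * s) (h2 : G * (1 - L * p * q) ≤ G') :
    a * G ≤ J * G' + D * D * (C + L * C * (2 * L + 1) + 1 / δ) * τ * ((s + s ^ 3) * e) := by
  have b7 : L * p * q ≤ L * (C * (τ * s) * s) * ((2 * L + 1) * s) := by gcongr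
  have b8 := mul_le_mul_of_nonneg_left ((mul_le_mul_of_nonneg_left (sub_le_sub_left b7 1)
    G0).trans h2) J0
  have b9 := mul_le_mul_of_nonneg_right h1 G0
  have b10 : J * (G * (L * (C * (τ * s) * s) * ((2 * L + 1) * s))) ≤
      D * (D * e * (L * (C * (τ * s) * s) * ((2 * L + 1) * s))) := by gcongr
  have b11 : D * (C * (τ * s)) * G ≤ D * (C * (τ * s)) * (D * e) := by gcongr
  have b12 : 0 ≤ D * D * τ * e * (C * s ^ 3 + L * C * (2 * L + 1) * s + 1 / δ * (s + s ^ 3)) := by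
    positivity
  linarith

lemma fin2 {a G e D C L δ τ s : ℝ} (hD : 1 ≤ D) (hC : 1 ≤ C) (hL : 1 ≤ L) (hδ : 0 < δ)
    (hτ : 0 < τ) (hs : 0 ≤ s) (he : 0 < e) (aD : a ≤ D) (G0 : 0 ≤ G) (GD : G ≤ D * e)
    (h1 : δ ≤ s * τ) :
    a * G ≤ D * D * (C + L * C * (2 * L + 1) + 1 / δ) * τ * ((s + s ^ 3) * e) := by
  have b1 : 1 ≤ 1 / δ * (τ * s) := by
    rw [one_div, le_inv_mul_iff₀ hδ]; linarith
  have b2 : a * G ≤ D * (D * e) := by gcongr
  have b3 := mul_le_mul_of_nonneg_left b1 (show 0 ≤ D * (D * e) by positivity)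
  have b4 : 0 ≤ D * D * τ * e * ((C + L * C * (2 * L + 1)) * (s + s ^ 3) + 1 / δ * s ^ 3) := by
    positivity
  linarith

end E2

open E2

variable (V : Type) [NormedAddCommGroup V] [InnerProductSpace ℝ V] [FiniteDimensional ℝ V]
  [MeasurableSpace V] [BorelSpace V]

theorem e2 (hG : GS_s V) : E2_s V := by
  intro L r C₀ hL hr
  obtain ⟨g1, g2, -, g4, g5⟩ := hG
  have L0 : 0 < L := by linarith
  obtain ⟨C, hC⟩ : ∃ C, C = max C₀ 1 := ⟨_, rfl⟩
  have C1 : 1 ≤ C := hC ▸ le_max_right _ _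
  have C0 : C₀ ≤ C := hC ▸ le_max_left _ _
  obtain ⟨δ, hδ⟩ : ∃ δ, δ = min r (1 / (2 * L * C)) := ⟨_, rfl⟩
  have δ0 : 0 < δ := hδ ▸ lt_min hr (by positivity)
  have δr : δ ≤ r := hδ ▸ min_le_left _ _
  have δC : L * (C * δ) ≤ 1 / 2 := by
    have : δ ≤ 1 / (2 * L * C) := hδ ▸ min_le_right _ _
    rw [le_div_iff₀ (by positivity)] at this
    linarith
  have δ1 : C * δ ≤ 1 := by nlinarith only [hL, δC]
  obtain ⟨D, D1, d1, d2⟩ := det_lip (V := V) (L + 1)
  obtain ⟨c, hc⟩ : ∃ c, c = 1 / (4 * L ^ 5) := ⟨_, rfl⟩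
  have c0 : 0 < c := by rw [hc]; positivity
  obtain ⟨K, K0, hK⟩ := bell c0
  obtain ⟨E, hE⟩ : ∃ E, E = D * D * (C + L * C * (2 * L + 1) + 1 / δ) := ⟨_, rfl⟩
  have E0 : 0 ≤ E := by rw [hE]; positivity
  refine ⟨c, E * K, c0, by positivity, ?_⟩
  rintro S S' x x' T T' mS mS' hT hT' ⟨φ, φ', rfl, f1, f2, f3, f4⟩ τ τ0
  obtain ⟨a1, a2, a3⟩ := conj hL hT hT' f4
  obtain ⟨A, hA⟩ : ∃ A, A = φ' x := ⟨_, rfl⟩
  rw [← hA] at a1 a2 a3 f2
  have f2' : ∀ y ∈ ball x δ, ‖φ' y - A‖ ≤ C * ‖y - x‖ := fun y hy =>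
    (f2 y (ball_subset_ball δr hy)).trans (mul_le_mul_of_nonneg_right C0 (norm_nonneg _))
  have f2'' : ∀ y ∈ ball x δ, ‖φ' y - A‖ ≤ C * δ := fun y hy =>
    (f2' y hy).trans (mul_le_mul_of_nonneg_left (mem_ball_iff_norm.1 hy).le (by linarith only [C1]))
  have mem : ∀ v ∈ ball (0 : V) (δ / τ), x + τ • v ∈ ball x δ := fun v hv => by
    rw [mem_ball_zero_iff, lt_div_iff₀ τ0] at hv
    rw [mem_ball_iff_norm, add_sub_cancel_left, norm_smul, Real.norm_of_nonneg τ0.le]
    linarith only [hv]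
  have der : ∀ v ∈ ball (0 : V) (δ / τ), HasFDerivWithinAt (fun v => τ⁻¹ • (φ (x + τ • v) - φ x))
      (φ' (x + τ • v)) (ball (0 : V) (δ / τ)) v := fun v hv => by
    have := (((f1 _ (ball_subset_ball δr (mem v hv))).comp v
      (((hasFDerivAt_id v).const_smul τ).const_add x)).sub_const (φ x)).const_smul τ⁻¹
    refine (this.congr_fderiv ?_).hasFDerivWithinAt
    ext u
    simp [smul_smul, τ0.ne']
  obtain ⟨G, hG⟩ : ∃ G : V → V, G = fun v => τ⁻¹ • (φ (x + τ • v) - φ x) := ⟨_, rfl⟩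
  rw [← hG] at der
  have G0 : G 0 = 0 := by simp [hG]
  have G1 : ∀ v, φ x + τ • G v = φ (x + τ • v) := fun v => by simp [hG, smul_smul, τ0.ne']
  have inj : InjOn G (ball (0 : V) (δ / τ)) := fun v hv w hw e => by
    have := (convex_ball _ _).norm_image_sub_le_of_norm_hasFDerivWithin_le' der
      (fun y hy => f2'' _ (mem y hy)) hv hw
    rw [e, sub_self, zero_sub, norm_neg] at this
    have h2 := (a2 (w - v)).trans (mul_le_mul_of_nonneg_left this L0.le)
    refine (sub_eq_zero.1 (norm_le_zero_iff.1 ?_)).symm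
    have := mul_le_mul_of_nonneg_right δC (norm_nonneg (w - v))
    linarith only [h2, this]
  have i1 : ∀ {U : Set V} (y : V), 0 ≤ 1 - U.indicator (1 : V → ℝ) y ∧
      1 - U.indicator (1 : V → ℝ) y ≤ 1 := fun {U} y => by
    by_cases h : y ∈ U <;> simp [h]
  have i2 : ∀ {U : Set V}, MeasurableSet U → ∀ (y : V) {f : V → ℝ}, Integrable f →
      Integrable fun v => (1 - U.indicator (1 : V → ℝ) (y + τ • v)) * f v := fun {U} hU y f hf =>
    hf.bdd_mul (c := 1) (measurable_const.sub ((measurable_one.indicator hU).comp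
      (by fun_prop))).aestronglyMeasurable (.of_forall fun v => by
        rw [Real.norm_of_nonneg (i1 _).1]; exact (i1 _).2)
  have j1 := i2 mS' (φ x) (g4 L T' hT').1
  have j2 := i2 mS x (show Integrable fun v : V => Real.exp (-(c * ‖v‖ ^ 2)) by
    simpa using g5 c c0 0)
  have j3 := (integrableOn_image_iff_integrableOn_abs_det_fderiv_smul volume measurableSet_ball
    der inj _).1 j1.integrableOn
  have j4 := integral_image_eq_integral_abs_det_fderiv_smul volume measurableSet_ball der inj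
    fun v => (1 - S'.indicator (1 : V → ℝ) (φ x + τ • v)) * gam T' v
  have j5 := setIntegral_le_integral (s := G '' ball (0 : V) (δ / τ)) j1
    (.of_forall fun v => mul_nonneg (i1 _).1 (g2 _ _))
  rw [j4, ← integral_indicator measurableSet_ball] at j5
  have gb : ∀ v, gam T' (A v) ≤ D * Real.exp (-(2 * c * ‖v‖ ^ 2)) := fun v => by
    refine (gam_le hL hT' D1 (fun B hB => d1 B (by linarith only [hB])) _).trans
      (mul_le_mul_of_nonneg_left (Real.exp_le_exp.2 (neg_le_neg ?_)) (by linarith only [D1]))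
    calc _ ≤ 2 * c * (L * ‖A v‖) ^ 2 := by gcongr; exact a2 v
      _ = _ := by rw [hc]; field_simp; ring
  refine le_trans (le_trans (integral_mono_of_nonneg
    (.of_forall fun v => mul_nonneg (i1 _).1 (g2 _ _))
    ((j3.integrable_indicator measurableSet_ball).add (j2.const_mul (E * K * τ)))
    (.of_forall fun v => ?_)) (le_of_eq ((integral_add (j3.integrable_indicator measurableSet_ball)
      (j2.const_mul _)).trans (by rw [integral_const_mul])))) ?_
  swap
  · have : 0 ≤ E * K * τ ^ 2 := by positivity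
    unfold psi
    linarith only [j5, this]
  have n0 : 0 ≤ (ball (0 : V) (δ / τ)).indicator (fun v => |(φ' (x + τ • v)).det| •
      ((1 - S'.indicator (1 : V → ℝ) (φ x + τ • G v)) * gam T' (G v))) v :=
    indicator_nonneg (fun w _ => mul_nonneg (abs_nonneg _) (mul_nonneg (i1 _).1 (g2 _ _))) v
  simp only [Pi.add_apply]
  by_cases hS : x + τ • v ∈ S
  · simpa only [hS, indicator_of_mem, Pi.one_apply, sub_self, zero_mul, smul_eq_mul, mul_zero, add_zero, ge_iff_le] using n0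
  rw [indicator_of_notMem hS, sub_zero, one_mul, one_mul, a3]
  have s0 := norm_nonneg v
  have k1 := mul_le_mul_of_nonneg_left (hK _ s0) (mul_nonneg E0 τ0.le)
  have k2 := gb v
  have k3 := g2 T' (A v)
  have k4 := d1 A (by linarith only [a1])
  have k5 := Real.exp_pos (-(2 * c * ‖v‖ ^ 2))
  by_cases hv : v ∈ ball (0 : V) (δ / τ)
  · have hy := mem v hv
    have ny : ‖x + τ • v - x‖ = τ * ‖v‖ := by
      rw [add_sub_cancel_left, norm_smul, Real.norm_of_nonneg τ0.le]
    rw [indicator_of_mem hv, G1, indicator_of_notMem fun h => hS (f3 _ (ball_subset_ball δr hy) h),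
      sub_zero, one_mul, smul_eq_mul]
    have b1 : ‖φ' (x + τ • v)‖ ≤ L + 1 := by
      have := norm_le_norm_add_norm_sub' (φ' (x + τ • v)) A
      linarith only [f2'' _ hy, δ1, a1, this]
    have b2 := d1 _ b1
    have b3 : |A.det| ≤ |(φ' (x + τ • v)).det| + D * (C * (τ * ‖v‖)) := by
      have := (abs_sub_abs_le_abs_sub _ _).trans (d2 A _ (by linarith only [a1]) b1)
      have h := f2' _ hy
      rw [ny, norm_sub_rev] at h
      exact sub_le_iff_le_add'.1 (this.trans (mul_le_mul_of_nonneg_left h (zero_le_one.trans D1)))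
    have b4 : ‖G v - A v‖ ≤ C * (τ * ‖v‖) * ‖v‖ := by
      have sb : closedBall (0 : V) ‖v‖ ⊆ ball 0 (δ / τ) :=
        closedBall_subset_ball (mem_ball_zero_iff.1 hv)
      have := (convex_closedBall (0 : V) ‖v‖).norm_image_sub_le_of_norm_hasFDerivWithin_le'
        (φ := A) (C := C * (τ * ‖v‖)) (fun y hy => (der y (sb hy)).mono sb) (fun y hy => by
          refine (f2' _ (mem y (sb hy))).trans ?_
          rw [add_sub_cancel_left, norm_smul, Real.norm_of_nonneg τ0.le]
          gcongr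
          exact mem_closedBall_zero_iff.1 hy) (mem_closedBall_self s0)
        (mem_closedBall_zero_iff.2 le_rfl)
      simpa only [ge_iff_le, G0, sub_zero] using this
    have b5 : ‖A v‖ ≤ L * ‖v‖ := A.le_of_opNorm_le a1 v
    have b6 : ‖G v‖ + ‖A v‖ ≤ (2 * L + 1) * ‖v‖ := by
      have := norm_le_norm_add_norm_sub' (G v) (A v)
      have h : C * (τ * ‖v‖) ≤ 1 := by
        rw [← ny]
        exact (mul_le_mul_of_nonneg_left (mem_ball_iff_norm.1 hy).le (by linarith only [C1])).trans δ1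
      have := mul_le_mul_of_nonneg_right h s0
      linarith
    have := fin1 D1 C1 hL δ0 τ0 s0 k5 (abs_nonneg _) b2 k3 k2 b3 b4 (by positivity) b6
      (gam_ge hL hT' (A v) (G v))
    rw [← hE] at this
    exact this.trans (add_le_add le_rfl (k1.trans_eq (by ring)))
  · rw [mem_ball_zero_iff, not_lt, div_le_iff₀ τ0] at hv
    have := fin2 D1 C1 hL δ0 τ0 s0 k5 k4 k3 k2 hv
    rw [← hE] at this
    exact le_add_of_nonneg_of_le n0 (this.trans (k1.trans_eq (by ring)))

end Pool.Agent.MP_596265_gt.En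
end

section
namespace Pool.Agent.MP_596265_gt.En

open MeasureTheory Filter Topology Set Metric Gau
open scoped RealInnerProductSpace

variable (V : Type) [NormedAddCommGroup V] [InnerProductSpace ℝ V] [FiniteDimensional ℝ V]
  [MeasurableSpace V] [BorelSpace V]

namespace KB

lemma one (h1 : GS_s V) (h2 : TG_s V) {Ω : Type} [MeasurableSpace Ω] (Q : Measure Ω)
    [IsFiniteMeasure Q] (γ : Measure ℝ) [IsFiniteMeasure γ] {L δ : ℝ} {A : V → Ω → ℝ}
    {T : V → Ω → V →L[ℝ] V} (H : Chart L δ A T) (x : V) (φ : ℝ × V → ℝ) (hφ : Measurable φ)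
    (hb : ∀ q, |φ q| ≤ 1) :
    Integrable (fun p : Ω × ℝ × V => A x p.1 * gam (T x p.1) p.2.2 * φ p.2)
      (Q.prod (γ.prod volume)) ∧
    ∀ ω, ∫ q : ℝ × V, A x ω * gam (T x ω) q.2 * φ q ∂(γ.prod volume) =
      A x ω * ∫ s, (∫ v, gam (T x ω) v * φ (s, v)) ∂γ := by
  obtain ⟨c, C, hc, -, hT⟩ := h2 L δ H.L1 H.δ_pos
  have hbd : ∀ ω (q : ℝ × V), ‖A x ω * gam (T x ω) q.2 * φ q‖ ≤
      C * Real.exp (-(c * ‖q.2‖ ^ 2)) := fun ω q => by
    have := (hT (fun x => A x ω) (fun x => T x ω) (H.tA ω)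
      (fun x₀ h => ⟨H.cT ω x₀ h, H.tT ω x₀ h⟩) q.2).bd x (mem_univ x)
    rw [norm_mul]
    exact (mul_le_of_le_one_right (norm_nonneg _) (hb q)).trans this
  have hi : Integrable (fun q : ℝ × V => C * Real.exp (-(c * ‖q.2‖ ^ 2))) (γ.prod volume) := by
    have := ((h1.2.2.2.2 c hc 0).const_mul C).comp_snd γ
    simpa only [pow_zero, one_mul] using this
  have hm : Measurable (fun p : Ω × ℝ × V => A x p.1 * gam (T x p.1) p.2.2 * φ p.2) :=
    (((H.mA.comp measurable_prodMk_left).comp measurable_fst).mul (h1.1.comp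
      (((H.mT.comp measurable_prodMk_left).comp measurable_fst).prodMk
        measurable_snd.snd))).mul (hφ.comp measurable_snd)
  refine ⟨(hi.comp_snd Q).mono' hm.aestronglyMeasurable (.of_forall fun p => hbd p.1 p.2),
    fun ω => ?_⟩
  rw [integral_prod (fun q : ℝ × V => A x ω * gam (T x ω) q.2 * φ q)
    (hi.mono' (hm.comp measurable_prodMk_left).aestronglyMeasurable (.of_forall (hbd ω)))]
  simp only [mul_assoc, integral_const_mul]

lemma two (h1 : GS_s V) (h2 : TG_s V) {Ω : Type} [MeasurableSpace Ω] (Q : Measure Ω)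
    [IsFiniteMeasure Q] (γ : Measure ℝ) [IsFiniteMeasure γ] {L δ : ℝ} {A : V → Ω → ℝ}
    {T₀ T₁ : V → Ω → V →L[ℝ] V} (H₀ : Chart L δ A T₀) (H₁ : Chart L δ A T₁) (x : V)
    (φ : ℝ × V → ℝ) (hφ : Measurable φ) (hb : ∀ q, |φ q| ≤ 1) :
    ∫ p : Ω × ℝ × V, A x p.1 * (gam (T₁ x p.1) p.2.2 - gam (T₀ x p.1) p.2.2) * φ p.2
      ∂(Q.prod (γ.prod volume)) = ∫ ω, A x ω * ((∫ s, (∫ v, gam (T₁ x ω) v * φ (s, v)) ∂γ) -
        ∫ s, (∫ v, gam (T₀ x ω) v * φ (s, v)) ∂γ) ∂Q := by
  obtain ⟨a0, b0⟩ := one V h1 h2 Q γ H₀ x φ hφ hb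
  obtain ⟨a1, b1⟩ := one V h1 h2 Q γ H₁ x φ hφ hb
  simp only [mul_sub, sub_mul, ← b0, ← b1]
  rw [integral_sub a1 a0, integral_sub a1.integral_prod_left a0.integral_prod_left,
    integral_prod _ a1, integral_prod _ a0]

lemma lap (h1 : GS_s V) {γ : Measure ℝ} {c₀ L : ℝ} (G : Gam γ c₀) (hL : 1 ≤ L) {T : V →L[ℝ] V}
    (hT : Cov L T) (ξ : V) : ∫ s, (∫ v, gam T v * Real.cos ⟪ξ, s • v⟫) ∂γ =
      c₀ * (1 + ⟪T ξ, ξ⟫) ^ (-(1 / 4) : ℝ) := by
  have h0 : 0 ≤ qf T ξ :=
    nonneg_of_mul_nonneg_right ((sq_nonneg _).trans (hT.lo ξ)) (by linarith)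
  refine Eq.trans (integral_congr_ae (.of_forall fun s => ?_)) (G.lap _ h0)
  have := (h1.2.2.2.1 L T hT).2.2 (s • ξ)
  simp only [real_inner_smul_left, real_inner_smul_right, qf, map_smul] at this ⊢
  rw [this]
  congr 1
  ring

end KB

theorem kb (h1 : GS_s V) (h2 : TG_s V) : KB_s V := by
  intro Ω _ Q _ γ c₀ L δ A T₀ T₁ G H₀ H₁
  have := G.fin
  refine ⟨fun x ξ => ?_, fun S hS t => ?_⟩
  · rw [KB.two V h1 h2 Q γ H₀ H₁ x (fun q => Real.cos ⟪ξ, q.1 • q.2⟫) (by fun_prop)
      (fun q => Real.abs_cos_le_one _), ← integral_const_mul]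
    refine integral_congr_ae (.of_forall fun ω => ?_)
    by_cases h : A x ω = 0
    · simp only [h, zero_mul, mul_zero]
    · simp only
      rw [KB.lap V h1 G H₀.L1 (H₀.cT ω x h x (mem_ball_self H₀.δ_pos)),
        KB.lap V h1 G H₀.L1 (H₁.cT ω x h x (mem_ball_self H₀.δ_pos))]
      ring
  · rw [energy, ← integral_indicator hS]
    refine integral_congr_ae (.of_forall fun x => ?_)
    by_cases hx : x ∈ S
    · have := KB.two V h1 h2 Q γ H₀ H₁ x (fun q => 1 - S.indicator 1 (x + t • q.1 • q.2))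
        (measurable_const.sub ((measurable_one.indicator hS).comp (by fun_prop)))
        (fun q => by by_cases h : x + t • q.1 • q.2 ∈ S <;> simp [h])
      simp only [indicator_of_mem hx, Pi.one_apply, one_mul, psi, mul_smul]
      simpa only [mul_comm (1 - S.indicator (1 : V → ℝ) _)] using this
    · simp [indicator_of_notMem hx]

end Pool.Agent.MP_596265_gt.En
end

section
namespace Pool.Agent.MP_596265_gt.En

open MeasureTheory Filter Topology Set Metric Gau
open scoped RealInnerProductSpace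

variable (V : Type) [NormedAddCommGroup V] [InnerProductSpace ℝ V] [FiniteDimensional ℝ V]
  [MeasurableSpace V] [BorelSpace V]

theorem ka (h1 : GS_s V) (h2 : TG_s V) : KA_s V := by
  intro Ω _ Q _ γ c₀ L δ A T₀ T₁ G H₀ H₁
  have := G.fin
  obtain ⟨c, C, hc, hC, hT⟩ := h2 L δ H₀.L1 H₀.δ_pos
  have t0 := fun ω => hT (fun x => A x ω) (fun x => T₀ x ω) (H₀.tA ω)
    fun x₀ h => ⟨H₀.cT ω x₀ h, H₀.tT ω x₀ h⟩
  have t1 := fun ω => hT (fun x => A x ω) (fun x => T₁ x ω) (H₁.tA ω)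
    fun x₀ h => ⟨H₁.cT ω x₀ h, H₁.tT ω x₀ h⟩
  have mg : ∀ {T : V → Ω → V →L[ℝ] V}, Measurable (Function.uncurry T) →
      Measurable fun q : V × Ω × ℝ × V => gam (T q.1 q.2.1) q.2.2.2 := fun hT =>
    h1.1.comp ((hT.comp (measurable_fst.prodMk measurable_snd.fst)).prodMk measurable_snd.snd.snd)
  refine ⟨fun p => 2 * (C * Real.exp (-(c * ‖p.2.2‖ ^ 2))), by fun_prop,
    (H₀.mA.comp (measurable_fst.prodMk measurable_snd.fst)).mul ((mg H₁.mT).sub (mg H₀.mT)),
    ⟨Prod.map id (Prod.map id Neg.neg), (MeasurePreserving.id Q).prod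
      ((MeasurePreserving.id γ).prod (Measure.measurePreserving_neg volume)),
      fun p => by simp, fun x p => by simp [h1.2.2.1]⟩, ?_, fun x p => ?_, fun x y p => ?_,
    fun x h p => ?_, fun x => ?_⟩
  · have i0 := h1.2.2.2.2 c hc 0
    simp only [pow_zero, one_mul] at i0
    have i1 := ((i0.comp_snd γ).add (G.sq.mul_prod (h1.2.2.2.2 c hc 2))).const_mul (2 * C)
    refine (i1.comp_snd Q).congr (.of_forall fun p => ?_)
    simp only [Pi.add_apply, norm_smul, mul_pow, Real.norm_eq_abs, sq_abs]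
    ring
  · have a := (t0 p.1 p.2.2).bd x (mem_univ _)
    have b := (t1 p.1 p.2.2).bd x (mem_univ _)
    rw [Real.norm_eq_abs, abs_le] at a b
    rw [abs_le]
    constructor <;> linarith only [a.1, a.2, b.1, b.2]
  · have a := (t0 p.1 p.2.2).lip x (mem_univ _) y (mem_univ _)
    have b := (t1 p.1 p.2.2).lip x (mem_univ _) y (mem_univ _)
    rw [Real.norm_eq_abs, abs_le] at a b
    rw [abs_le]
    constructor <;> linarith only [a.1, a.2, b.1, b.2]
  · have a := (t0 p.1 p.2.2).sec x h (mem_univ _) (mem_univ _)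
    have b := (t1 p.1 p.2.2).sec x h (mem_univ _) (mem_univ _)
    rw [Real.norm_eq_abs, abs_le] at a b
    rw [abs_le]
    constructor <;> linarith only [a.1, a.2, b.1, b.2]
  · have := KB.two V h1 h2 Q γ H₀ H₁ x (fun _ => 1) measurable_const (fun _ => by simp)
    simp only [mul_one] at this
    rw [this]
    refine (integral_congr_ae (.of_forall fun ω => ?_)).trans (integral_zero _ _)
    by_cases h : A x ω = 0
    · simp only [h, zero_mul]
    · simp only [(h1.2.2.2.1 L _ (H₀.cT ω x h x (mem_ball_self H₀.δ_pos))).2.1,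
        (h1.2.2.2.1 L _ (H₁.cT ω x h x (mem_ball_self H₀.δ_pos))).2.1, sub_self, mul_zero]

end Pool.Agent.MP_596265_gt.En
end

section
/-! Uniform bounds near a compact set. -/

namespace Pool.Agent.MP_596265_gt.En

open MeasureTheory Filter Topology Set Metric Gau
open scoped RealInnerProductSpace

namespace ZY

variable {A X Y : Type*} [NormedAddCommGroup A] [NormedAddCommGroup X] [NormedAddCommGroup Y]

theorem mono {S : Set A} {B B' : ℝ} {F : A → X} (h : Tame S B F) (hB : B ≤ B') :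
    Tame S B' F :=
  ⟨fun x hx => (h.bd x hx).trans hB,
    fun x hx y hy => (h.lip x hx y hy).trans (mul_le_mul_of_nonneg_right hB (norm_nonneg _)),
    fun m y h1 h2 => (h.sec m y h1 h2).trans (mul_le_mul_of_nonneg_right hB (sq_nonneg _))⟩

variable [NormedSpace ℝ A] [NormedSpace ℝ X] [NormedSpace ℝ Y]

theorem taylor {T : Set X} {B : ℝ} {g : X → Y} {g1 : X → X →L[ℝ] Y} (hT : Convex ℝ T)
    (h1 : ∀ a ∈ T, HasFDerivAt g (g1 a) a) (hB : 0 ≤ B) {a0 : X} (ha0 : a0 ∈ T)
    (h2 : ∀ a ∈ T, ‖g1 a - g1 a0‖ ≤ B * ‖a - a0‖) {a : X} (ha : a ∈ T) :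
    ‖g a - g a0 - g1 a0 (a - a0)‖ ≤ B * ‖a - a0‖ ^ 2 := by
  have hc : Convex ℝ (T ∩ closedBall a0 ‖a - a0‖) := hT.inter (convex_closedBall _ _)
  have := hc.norm_image_sub_le_of_norm_hasFDerivWithin_le' (f := g) (f' := g1) (φ := g1 a0)
    (C := B * ‖a - a0‖) (x := a0) (y := a) (fun x hx => (h1 x hx.1).hasFDerivWithinAt)
    (fun x hx => (h2 x hx.1).trans (mul_le_mul_of_nonneg_left
      (by simpa only [mem_closedBall, dist_eq_norm] using hx.2) hB))
    ⟨ha0, mem_closedBall_self (norm_nonneg _)⟩ ⟨ha, by simp [dist_eq_norm]⟩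
  calc _ ≤ B * ‖a - a0‖ * ‖a - a0‖ := this
    _ = _ := by ring

theorem tame {F : X × A → Y} {U K : Set (X × A)} (hU : IsOpen U) (hF : ContDiffOn ℝ 2 F U)
    (hK : K ⊆ U) {b : ℝ} (hb : 0 ≤ b) (h0 : ∀ q ∈ K, ‖F q‖ ≤ b)
    (h1 : ∀ q ∈ K, ‖fderiv ℝ F q‖ ≤ b) (h2 : ∀ q ∈ K, ‖fderiv ℝ (fderiv ℝ F) q‖ ≤ b) (w : A)
    {S : Set X} (hc : Convex ℝ S) (hS : ∀ x ∈ S, (x, w) ∈ K) :
    Tame S (2 * b) (fun x => F (x, w)) := by
  have d1 : ContDiffOn ℝ 1 (fderiv ℝ F) U := hF.fderiv_of_isOpen hU (by norm_num)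
  have hi : ‖ContinuousLinearMap.inl ℝ X A‖ ≤ 1 :=
    ContinuousLinearMap.opNorm_le_bound _ zero_le_one fun x => by simp
  have hin : ∀ x : X, HasFDerivAt (fun x : X => (x, w)) (ContinuousLinearMap.inl ℝ X A) x :=
    fun x => hasFDerivAt_prodMk_left x w
  have g1 : ∀ x ∈ S, HasFDerivAt (fun x => F (x, w))
      ((fderiv ℝ F (x, w)).comp (ContinuousLinearMap.inl ℝ X A)) x := fun x hx =>
    ((hF.differentiableOn (by norm_num)).differentiableAt
      (hU.mem_nhds (hK (hS x hx)))).hasFDerivAt.comp x (hin x)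
  have g2 : ∀ x ∈ S, ∀ y ∈ S, ‖(fderiv ℝ F (x, w)).comp (ContinuousLinearMap.inl ℝ X A) -
      (fderiv ℝ F (y, w)).comp (ContinuousLinearMap.inl ℝ X A)‖ ≤ b * ‖x - y‖ := by
    intro x hx y hy
    have l : ‖fderiv ℝ F (x, w) - fderiv ℝ F (y, w)‖ ≤ b * ‖x - y‖ := by
      refine hc.norm_image_sub_le_of_norm_hasFDerivWithin_le (f := fun x => fderiv ℝ F (x, w))
        (f' := fun x => (fderiv ℝ (fderiv ℝ F) (x, w)).comp (ContinuousLinearMap.inl ℝ X A))
        (fun z hz => ?_) (fun z hz => ?_) hy hx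
      · exact (((d1.differentiableOn (by norm_num)).differentiableAt
          (hU.mem_nhds (hK (hS z hz)))).hasFDerivAt.comp z (hin z)).hasFDerivWithinAt
      · simpa using (ContinuousLinearMap.opNorm_comp_le _ _).trans
          (mul_le_mul (h2 _ (hS z hz)) hi (norm_nonneg _) hb)
    rw [← ContinuousLinearMap.sub_comp]
    simpa only [ContinuousLinearMap.sub_comp, ge_iff_le, mul_one] using (ContinuousLinearMap.opNorm_comp_le _ _).trans
      (mul_le_mul l hi (norm_nonneg _) (mul_nonneg hb (norm_nonneg _)))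
  refine ⟨fun x hx => (h0 _ (hS x hx)).trans (by linarith), fun x hx y hy => ?_,
    fun m y p1 p2 => ?_⟩
  · have := hc.norm_image_sub_le_of_norm_hasFDerivWithin_le (C := b)
      (fun z hz => (g1 z hz).hasFDerivWithinAt) (fun z hz => by
        simpa only [mul_one] using (ContinuousLinearMap.opNorm_comp_le _ _).trans
          (mul_le_mul (h1 _ (hS z hz)) hi (norm_nonneg _) hb)) hy hx
    linarith only [mul_nonneg hb (norm_nonneg (x - y)), this]
  · have hm : m ∈ S := by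
      have := hc p1 p2 (a := 1 / 2) (b := 1 / 2) (by norm_num) (by norm_num) (by norm_num)
      convert this using 1
      rw [← smul_add, show m + y + (m - y) = (2 : ℝ) • m by rw [two_smul]; abel, smul_smul]
      norm_num
    have t1 := taylor hc g1 hb hm (fun a ha => g2 a ha m hm) p1
    have t2 := taylor hc g1 hb hm (fun a ha => g2 a ha m hm) p2
    rw [add_sub_cancel_left] at t1
    rw [sub_sub_cancel_left, norm_neg, map_neg] at t2
    have := (norm_add_le _ _).trans (add_le_add t1 t2)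
    refine le_trans (le_of_eq ?_) (this.trans (le_of_eq (by ring)))
    congr 1
    abel

theorem bds {P : Type*} [NormedAddCommGroup P] [NormedSpace ℝ P] {F : P → Y} {U K : Set P}
    (hU : IsOpen U) (hF : ContDiffOn ℝ 2 F U) (hc : IsCompact K) (hK : K ⊆ U) :
    ∃ b, 0 ≤ b ∧ (∀ q ∈ K, ‖F q‖ ≤ b) ∧ (∀ q ∈ K, ‖fderiv ℝ F q‖ ≤ b) ∧
      ∀ q ∈ K, ‖fderiv ℝ (fderiv ℝ F) q‖ ≤ b := by
  have d1 : ContDiffOn ℝ 1 (fderiv ℝ F) U := hF.fderiv_of_isOpen hU (by norm_num)
  have d2 : ContinuousOn (fderiv ℝ (fderiv ℝ F)) U :=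
    d1.continuousOn_fderiv_of_isOpen hU le_rfl
  obtain ⟨b0, hb0⟩ := hc.exists_bound_of_continuousOn (hF.continuousOn.mono hK)
  obtain ⟨b1, hb1⟩ := hc.exists_bound_of_continuousOn (d1.continuousOn.mono hK)
  obtain ⟨b2, hb2⟩ := hc.exists_bound_of_continuousOn (E := P →L[ℝ] P →L[ℝ] Y)
    (f := fderiv ℝ (fderiv ℝ F)) (d2.mono hK)
  have n0 := abs_nonneg b0
  have n1 := abs_nonneg b1
  have n2 := abs_nonneg b2
  exact ⟨|b0| + |b1| + |b2|, by positivity, fun z hz => by linarith [hb0 z hz, le_abs_self b0],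
    fun z hz => by linarith [hb1 z hz, le_abs_self b1],
    fun z hz => by linarith [hb2 z hz, le_abs_self b2]⟩

theorem bds' {P : Type*} [NormedAddCommGroup P] [NormedSpace ℝ P] {F : P → Y}
    (hF : ContDiff ℝ 2 F) (s0 : HasCompactSupport F) :
    ∃ b, 0 ≤ b ∧ (∀ q, ‖F q‖ ≤ b) ∧ (∀ q, ‖fderiv ℝ F q‖ ≤ b) ∧
      ∀ q, ‖fderiv ℝ (fderiv ℝ F) q‖ ≤ b := by
  obtain ⟨b, hb, h0, h1, h2⟩ := bds isOpen_univ hF.contDiffOn s0.isCompact (subset_univ _)
  refine ⟨b, hb, fun q => ?_, fun q => ?_, fun q => ?_⟩ <;> by_cases hq : q ∈ tsupport F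
  · exact h0 q hq
  · rw [image_eq_zero_of_notMem_tsupport hq, norm_zero]; exact hb
  · exact h1 q hq
  · rw [image_eq_zero_of_notMem_tsupport fun h => hq (tsupport_fderiv_subset ℝ h), norm_zero]
    exact hb
  · exact h2 q hq
  · rw [image_eq_zero_of_notMem_tsupport (f := fderiv ℝ (fderiv ℝ F)) fun h =>
      hq (tsupport_fderiv_subset ℝ (tsupport_fderiv_subset ℝ h))]
    exact ContinuousLinearMap.opNorm_zero.le.trans hb

end ZY

variable (V : Type) [NormedAddCommGroup V] [InnerProductSpace ℝ V] [FiniteDimensional ℝ V]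
  [MeasurableSpace V] [BorelSpace V]

theorem zy : ZY_s V := by
  refine ⟨fun O N T hO hN hNO hT hs hp => ?_, fun N a hN ha haN => ?_⟩
  · obtain ⟨δ, hδ, hK⟩ := hN.exists_cthickening_subset_open hO hNO
    have hc : IsCompact (cthickening δ N) := hN.cthickening
    obtain ⟨b, hb, h0, h1, h2⟩ := ZY.bds hO hT hc hK
    obtain ⟨c, hc0, hcb⟩ : ∃ c > 0, ∀ z ∈ cthickening δ N ×ˢ sphere (0 : V) 1,
        c ≤ ⟪T z.1 z.2, z.2⟫ := by
      refine (hc.prod (isCompact_sphere (0 : V) 1)).exists_forall_le' (a := (0 : ℝ))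
        (f := fun z => ⟪T z.1 z.2, z.2⟫) ?_ fun z hz => hp _ (hK hz.1) _ fun e => by simpa [e] using hz.2
      exact ContinuousOn.inner (𝕜 := ℝ) (((hT.continuousOn.mono hK).comp continuousOn_fst
        fun z (hz : z ∈ cthickening δ N ×ˢ sphere (0 : V) 1) => hz.1).clm_apply
        continuousOn_snd) continuousOn_snd
    have n3 := inv_pos.2 hc0
    refine ⟨δ, hδ, 2 * b + c⁻¹, fun L hL q hq => ?_⟩
    have mem : ∀ x ∈ ball q.1 δ, (x, q.2) ∈ cthickening δ N := fun x hx =>
      mem_cthickening_of_dist_le _ q δ N hq (by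
        rw [Prod.dist_eq, dist_self]; exact max_le (mem_ball.1 hx).le hδ.le)
    refine ⟨fun x hx => ⟨hK (mem x hx), hs _ (hK (mem x hx)), fun u => ?_, ?_⟩,
      ZY.mono (ZY.tame hO hT hK hb h0 h1 h2 q.2 (convex_ball _ _) mem) (by linarith)⟩
    · by_cases hu : u = 0
      · simp [hu, qf]
      have hn : 0 < ‖u‖ := norm_pos_iff.2 hu
      have h1 := hcb ((x, q.2), ‖u‖⁻¹ • u) ⟨mem x hx, by simp [norm_smul, hn.ne']⟩
      simp only [map_smul, inner_smul_left, inner_smul_right, conj_trivial] at h1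
      have h2 : c * ‖u‖ ^ 2 ≤ qf (T (x, q.2)) u := by
        have := mul_le_mul_of_nonneg_right h1 (sq_nonneg ‖u‖)
        refine this.trans (le_of_eq ?_)
        unfold qf
        field_simp
      have h3 : ‖u‖ ^ 2 ≤ c⁻¹ * qf (T (x, q.2)) u := by
        rwa [le_inv_mul_iff₀ hc0]
      exact h3.trans (mul_le_mul_of_nonneg_right (by linarith only [hb, hL])
        ((mul_nonneg hc0.le (sq_nonneg _)).trans h2))
    · linarith [h0 _ (mem x hx)]
  · have s0 : HasCompactSupport a := HasCompactSupport.intro hN fun q hq => by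
      by_contra h
      exact hq (haN q h)
    obtain ⟨b, hb, h0, h1, h2⟩ := ZY.bds' ha s0
    exact ⟨2 * b, fun L hL w => ZY.mono (ZY.tame isOpen_univ ha.contDiffOn subset_rfl hb
      (fun z _ => h0 z) (fun z _ => h1 z) (fun z _ => h2 z) w convex_univ fun _ _ => trivial) hL⟩

end Pool.Agent.MP_596265_gt.En
end

end
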