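import Mathlib

attribute [-instance] IsScalarTower.complexToReal
  TopologicalSpace.instSecondCountableTopologyOfLindelofSpaceOfPseudoMetrizableSpace
  NonUnitalNonAssocRing.toAddCommGroup RightPreLieAlgebra.toModule Valued.toUniformSpace
  LeftPreLieAlgebra.toModule RKHS.instFunLike NonarchimedeanAddGroup.toIsTopologicalAddGroup
  NormedRing.toNonUnitalNormedRing IdemSemiring.toCanonicallyOrderedAdd
  IsScalarTower.to_smulCommClass Action.FintypeCat.instMulActionObjFiniteOf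
  Submodule.instHasOrthogonalProjectionOrthogonal SeminormedRing.toNonUnitalSeminormedRing
  GrpTypeEquivalenceGrp.grpGroup littleWedderburn Module.complexToReal NormedRing.toRing
  NonUnitalNormedCommRing.toNonUnitalSeminormedCommRing NonUnitalNonAssocSemiring.toMulZeroClass
  PolishSpace.toSecondCountableTopology CoalgHomClass.toSemilinearMapClass
  TotallySeparatedSpace.t2Space NonarchimedeanRing.toIsTopologicalRing AddQuantale.instAddLeftMono
  ProperSMul.toContinuousSMul LieRing.toAddCommGroup NonUnitalRing.toNonUnitalNonAssocRing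
  NonUnitalAlgSemiHomClass.toDistribMulActionSemiHomClass NonUnitalSeminormedRing.toPseudoMetricSpace
  MulSemiringAction.toDistribMulAction continuousSub_of_discreteTopology
  AlexandrovDiscrete.toLocallyCompactSpace MonTypeEquivalenceMon.monMonoid IdemSemiring.toSemiring
  NumberField.to_charZero EuclideanDomain.toCommRing IsIsometricSMul.to_continuousConstSMul
  SeminormedCommRing.toCommRing Valued.isTopologicalDivisionRing CompactSpace.sigmaCompact
  IsTopologicalTorsor.toContinuousSMul AddCommGroupWithOne.toAddGroupWithOne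
  NonUnitalSemiring.toNonUnitalNonAssocSemiring MulZeroOneClass.toMulZeroClass
  IsTopologicalSemiring.toContinuousAdd Quantale.instMulLeftMono RingHomClass.toLinearMapClassNNRat
  LieAdmissibleRing.toNonUnitalNonAssocRing LieRinehartAlgebra.toIsScalarTower
  AddCommMonoidWithOne.toAddCommMonoid AddCommGroupWithOne.toAddCommGroup
  CStarAlgebra.instOrderClosedTopology NonAssocCommSemiring.toNonAssocSemiring
  NonUnitalNormedCommRing.toNonUnitalCommRing instSMulZeroClass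
  IsValuativeTopology.instIsTopologicalAddGroup BooleanRing.toRing
  NonUnitalNonAssocCommSemiring.toNonUnitalNonAssocSemiring IdemSemiring.toMulLeftMono
  RingHomClass.toLinearMapClassRat BooleanRing.toCommRing
  LinearOrderedCommMonoidWithZero.toPosMulStrictMono Group.IsPerfect.subsingleton_of_isMulCommutative
  LieAlgebra.toModule Module.Invertible.instFaithfulSMul Bialgebra.toAlgebra
  IsPurelyInseparable.isIntegral IsOrderedCancelMonoid.toIsOrderedMonoid AddQuantale.instAddRightMono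
  SeminormedCommGroup.toPseudoMetricSpace MeasureTheory.instSFiniteOfCountable Algebra.complexToReal
  Topology.IsScott.instClosedIicTopologyOfUnivSet
  TopologicalSpace.UpgradedIsCompletelyPseudoMetrizableSpace.toPseudoMetricSpace
  NormedAlgebra.complexToReal NonAssocCommRing.toNonUnitalNonAssocCommRing
  IdemCommSemiring.toCommSemiring AlexandrovDiscrete.toFirstCountable
  NonUnitalSeminormedCommRing.toNonUnitalCommRing continuousSub_of_indiscreteTopology
  CanonicallyOrderedAdd.toMulLeftMono UpgradedStandardBorel.toTopologicalSpace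
  AddSubgroup.seminormedAddCommGroup MulSemiringActionSemiHomClass.toDistribMulActionSemiHomClass
  LinearOrderedCommMonoidWithZero.toIsBotZeroClass Quantale.instMulRightMono Action.instMulAction
  NonUnitalAlgSemiHomClass.toMulHomClass RightPreLieRing.toNonUnitalNonAssocRing
  LinearOrderedCommMonoidWithZero.toIsOrderedMonoid RightPreLieRing.instLieAdmissibleRing
  NonAssocRing.toNonAssocSemiring

section

/-! Lipschitz kit: Stokes on the plane, Green on the square, gluing, change of variables. -/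

namespace Pool.Agent.MP_596265_gt.U.Lip

open MeasureTheory Set Filter Topology Metric
open scoped NNReal

set_option linter.unusedSectionVars false

section S0
variable {E V W F : Type*} [NormedAddCommGroup E] [NormedSpace ℝ E] [FiniteDimensional ℝ E]
  [MeasurableSpace E] [BorelSpace E] {μ : Measure E} [μ.IsAddHaarMeasure]
  [NormedAddCommGroup V] [NormedSpace ℝ V] [FiniteDimensional ℝ V]
  [NormedAddCommGroup W] [NormedSpace ℝ W] [FiniteDimensional ℝ W]
  [NormedAddCommGroup F] [NormedSpace ℝ F] {C D : ℝ≥0}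

omit [FiniteDimensional ℝ E] [MeasurableSpace E] [BorelSpace E] [FiniteDimensional ℝ V] in
lemma quot_le {f : E → V} (hf : LipschitzWith C f) (x v : E) {t : ℝ} (ht : 0 < t) :
    ‖t⁻¹ • (f (x + t • v) - f x)‖ ≤ C * ‖v‖ := by
  have h := hf.norm_sub_le (x + t • v) x
  rw [add_sub_cancel_left, norm_smul, Real.norm_of_nonneg ht.le] at h
  rw [norm_smul, norm_inv, Real.norm_of_nonneg ht.le, inv_mul_le_iff₀ ht]
  linarith

lemma tendsto_quot (β : V →L[ℝ] W →L[ℝ] F) {f : E → V} {g : E → W} (hf : LipschitzWith C f)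
    (h'f : HasCompactSupport f) (hg : LipschitzWith D g) (v w : E) :
    Tendsto (fun t : ℝ => ∫ x, β (t⁻¹ • (f (x + t • v) - f x)) (t⁻¹ • (g (x + t • w) - g x)) ∂μ)
      (𝓝[>] 0) (𝓝 (∫ x, β (lineDeriv ℝ f x v) (lineDeriv ℝ g x w) ∂μ)) := by
  have hK : IsCompact (cthickening ‖v‖ (tsupport f)) := IsCompact.cthickening h'f
  have c1 := hf.continuous
  have c2 := hg.continuous
  apply tendsto_integral_filter_of_dominated_convergence
    ((cthickening ‖v‖ (tsupport f)).indicator fun _ => ‖β‖ * (C * ‖v‖) * (D * ‖w‖))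
  · filter_upwards with t
    exact Continuous.aestronglyMeasurable (by fun_prop)
  · filter_upwards [Ioc_mem_nhdsGT zero_lt_one] with t ht
    filter_upwards with x
    by_cases hx : x ∈ cthickening ‖v‖ (tsupport f)
    · rw [indicator_of_mem hx]
      refine (β.le_opNorm₂ _ _).trans ?_
      gcongr
      · exact quot_le hf x v ht.1
      · exact quot_le hg x w ht.1
    · have A : f x = 0 := by
        rw [← Function.notMem_support]
        contrapose hx
        exact self_subset_cthickening _ (subset_tsupport _ hx)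
      have B : f (x + t • v) = 0 := by
        rw [← Function.notMem_support]
        contrapose hx
        apply mem_cthickening_of_dist_le _ _ ‖v‖ (tsupport f) (subset_tsupport _ hx)
        simp only [dist_eq_norm, sub_add_cancel_left, norm_neg, norm_smul, Real.norm_eq_abs,
          abs_of_nonneg ht.1.le]
        exact mul_le_of_le_one_left (norm_nonneg v) ht.2
      simp [A, B, indicator_of_notMem hx]
  · rw [integrable_indicator_iff hK.measurableSet]
    exact ContinuousOn.integrableOn_compact hK continuousOn_const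
  · filter_upwards [hf.ae_differentiableAt (μ := μ), hg.ae_differentiableAt (μ := μ)] with x h1 h2
    have a1 := (h1.lineDifferentiableAt (v := v)).hasLineDerivAt.tendsto_slope_zero_right
    have a2 := (h2.lineDifferentiableAt (v := w)).hasLineDerivAt.tendsto_slope_zero_right
    exact (β.continuous₂.tendsto _).comp (a1.prodMk_nhds a2)

omit [FiniteDimensional ℝ V] [FiniteDimensional ℝ W] in
lemma shift (β : V →L[ℝ] W →L[ℝ] F) {f : E → V} {g : E → W} (hf : Continuous f)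
    (h'f : HasCompactSupport f) (hg : Continuous g) (a : E) :
    ∫ x, β (f (x + a) - f x) (g x) ∂μ = ∫ x, β (f x) (g (x - a) - g x) ∂μ := by
  have I : ∀ (k : E → W), Continuous k → ∀ b : E, Integrable (fun x => β (f (x + b)) (k x)) μ := by
    intro k hk b
    refine Continuous.integrable_of_hasCompactSupport (by fun_prop) ?_
    refine (h'f.comp_homeomorph (Homeomorph.addRight b)).mono fun x hx => ?_
    simp only [Function.mem_support, Function.comp_apply, Homeomorph.coe_addRight] at hx ⊢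
    intro h
    simp [h] at hx
  have I0 : ∀ (k : E → W), Continuous k → Integrable (fun x => β (f x) (k x)) μ := fun k hk => by
    simpa only [add_zero] using I k hk 0
  simp only [map_sub, sub_apply]
  rw [integral_sub (I g hg a) (I0 g hg), integral_sub (I0 _ (by fun_prop)) (I0 g hg)]
  congr 1
  rw [← integral_add_right_eq_self (fun x => β (f x) (g (x - a))) a]
  simp

/-- `∫ dφ ∧ dψ = 0` -/
theorem S0 (β : V →L[ℝ] W →L[ℝ] F) {f : E → V} {g : E → W} (hf : LipschitzWith C f)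
    (h'f : HasCompactSupport f) (hg : LipschitzWith D g) (v w : E) :
    ∫ x, β (lineDeriv ℝ f x v) (lineDeriv ℝ g x w) ∂μ =
      ∫ x, β (lineDeriv ℝ f x w) (lineDeriv ℝ g x v) ∂μ := by
  have A := tendsto_quot (μ := μ) β hf h'f hg v w
  have B := tendsto_quot (μ := μ) β hf h'f hg (-w) (-v)
  simp only [lineDeriv_neg, map_neg, neg_apply, neg_neg] at B
  refine tendsto_nhds_unique A (B.congr fun t => ?_)
  have c1 := hf.continuous
  have c2 := hg.continuous
  simp only [map_smul, smul_apply, integral_smul]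
  congr 2
  rw [shift β c1 h'f (by fun_prop) (t • -w), shift β c1 h'f (by fun_prop) (t • v)]
  refine integral_congr_ae (Eventually.of_forall fun x => ?_)
  have e1 : x - t • -w + t • -v = x - t • v + t • w := by simp only [smul_neg]; abel
  have e2 : x - t • -w = x + t • w := by simp only [smul_neg]; abel
  have e3 : x + t • -v = x - t • v := by simp only [smul_neg]; abel
  simp only [e1]
  simp only [e2, e3]
  congr 1
  abel

end S0

section Glue
variable {E X : Type*} [NormedAddCommGroup E] [NormedSpace ℝ E] [PseudoMetricSpace X]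

/-- Lipschitz on each member of a finite closed cover of a convex set -/
theorem lip_glue {ι : Type*} [Finite ι] {Q : Set E} (hQ : Convex ℝ Q) {A : ι → Set E}
    (hA : ∀ i, IsClosed (A i)) (hc : Q ⊆ ⋃ i, A i) {f : E → X} {K : ℝ≥0}
    (hf : ∀ i, LipschitzOnWith K f (A i)) : LipschitzOnWith K f Q := by
  refine LipschitzOnWith.of_dist_le_mul fun x hx y hy => ?_
  have hcont : ContinuousOn f (⋃ i, A i) :=
    (locallyFinite_of_finite A).continuousOn_iUnion hA fun i => (hf i).continuousOn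
  let γ : ℝ → E := fun t => x + t • (y - x)
  have hγ : Continuous γ := by fun_prop
  have hmem : ∀ t ∈ Icc (0 : ℝ) 1, γ t ∈ ⋃ i, A i := fun t ht => hc (hQ.add_smul_sub_mem hx hy ht)
  have hd : ∀ t u : ℝ, t ≤ u → dist (γ t) (γ u) = (u - t) * dist x y := fun t u h => by
    rw [dist_comm, dist_eq_norm, dist_comm, dist_eq_norm]
    have : γ u - γ t = (u - t) • (y - x) := by simp only [γ, sub_smul]; abel
    rw [this, norm_smul, Real.norm_of_nonneg (by linarith)]
  have key : (1 : ℝ) ∈ {t : ℝ | dist (f x) (f (γ t)) ≤ K * (t * dist x y)} := by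
    refine IsClosed.mem_of_ge_of_forall_exists_gt (a := 0) ?_ (by simp only [γ, mem_ofPred_eq, zero_smul, add_zero, dist_self, zero_mul, mul_zero, Std.le_refl]) zero_le_one ?_
    · rw [inter_comm]
      have h1 : ContinuousOn (fun t => dist (f x) (f (γ t))) (Icc (0 : ℝ) 1) :=
        continuous_dist.comp_continuousOn
          (continuousOn_const.prodMk (hcont.comp hγ.continuousOn hmem))
      have h2 : ContinuousOn (fun t : ℝ => K * (t * dist x y)) (Icc (0 : ℝ) 1) := by fun_prop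
      exact isClosed_Icc.isClosed_le h1 h2
    · rintro t ⟨ht, ht0, ht1⟩
      have hfr : ∃ᶠ u in 𝓝[>] t, ∃ i, γ u ∈ A i := by
        refine Eventually.frequently ?_
        filter_upwards [Ioc_mem_nhdsGT ht1] with u hu
        exact mem_iUnion.1 (hmem u ⟨by linarith [hu.1], hu.2⟩)
      obtain ⟨i, hi⟩ := frequently_exists.1 hfr
      have hti : γ t ∈ A i :=
        (hA i).mem_of_frequently_of_tendsto hi ((hγ.tendsto t).mono_left nhdsWithin_le_nhds)
      obtain ⟨u, hu, hu'⟩ := (hi.and_eventually (Ioc_mem_nhdsGT ht1)).exists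
      refine ⟨u, ?_, hu'⟩
      have h1 := (hf i).dist_le_mul _ hti _ hu
      rw [hd t u hu'.1.le] at h1
      have h2 := dist_triangle (f x) (f (γ t)) (f (γ u))
      simp only [mem_ofPred_eq] at ht ⊢
      linarith
  simpa only [ge_iff_le, γ, mem_ofPred_eq, one_smul, add_sub_cancel, one_mul] using key

end Glue

section CV
variable {E V F : Type*} [NormedAddCommGroup E] [NormedSpace ℝ E] [FiniteDimensional ℝ E]
  [MeasurableSpace E] [BorelSpace E] (μ : Measure E) [μ.IsAddHaarMeasure]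
  [NormedAddCommGroup V] [NormedSpace ℝ V] [FiniteDimensional ℝ V]
  [NormedAddCommGroup F] [NormedSpace ℝ F] {C : ℝ≥0}

/-- an almost everywhere property pulls back -/
theorem ae_pull {s : Set E} (hs : MeasurableSet s) {P : E → E} {P' : E → E →L[ℝ] E}
    (hP : ∀ x ∈ s, HasFDerivWithinAt P (P' x) s x) (hi : InjOn P s)
    (hd : ∀ x ∈ s, (P' x).det ≠ 0) {p : E → Prop} (hp : ∀ᵐ w ∂μ, p w) :
    ∀ᵐ x ∂μ.restrict s, p (P x) := by
  obtain ⟨N, hN, hNm, hN0⟩ := exists_measurable_superset_of_null (ae_iff.1 hp)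
  have h1 := lintegral_image_eq_lintegral_abs_det_fderiv_mul μ hs hP hi (N.indicator 1)
  have h2 : ∫⁻ w in P '' s, N.indicator 1 w ∂μ = 0 := by
    rw [lintegral_indicator_one hNm]
    exact le_antisymm ((Measure.restrict_apply_le _ _).trans hN0.le) (zero_le)
  rw [h2] at h1
  have hm : AEMeasurable P (μ.restrict s) :=
    ContinuousOn.aemeasurable (fun x hx => (hP x hx).continuousWithinAt) hs
  have h3 := (lintegral_eq_zero_iff' (by
    refine AEMeasurable.mul (aemeasurable_ofReal_abs_det_fderivWithin μ hs hP) ?_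
    exact ((measurable_one.indicator hNm).comp_aemeasurable hm))).1 h1.symm
  filter_upwards [h3, ae_restrict_mem hs] with x hx hxs
  by_contra hc
  have : P x ∈ N := hN hc
  simp [indicator_of_mem this, hd x hxs] at hx

end CV

section Prod
variable {X V W F : Type*} [PseudoMetricSpace X] [NormedAddCommGroup V] [NormedSpace ℝ V]
  [NormedAddCommGroup W] [NormedSpace ℝ W] [NormedAddCommGroup F] [NormedSpace ℝ F]

/-- product of bounded Lipschitz maps -/
theorem lip_bil (β : V →L[ℝ] W →L[ℝ] F) {s : Set X} {f : X → V} {g : X → W} {C D M N : ℝ≥0}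
    (hf : LipschitzOnWith C f s) (hg : LipschitzOnWith D g s) (hM : ∀ x ∈ s, ‖f x‖ ≤ M)
    (hN : ∀ x ∈ s, ‖g x‖ ≤ N) :
    LipschitzOnWith (‖β‖₊ * (C * N + M * D)) (fun x => β (f x) (g x)) s := by
  refine LipschitzOnWith.of_dist_le_mul fun x hx y hy => ?_
  have e : β (f x) (g x) - β (f y) (g y) = β (f x - f y) (g x) + β (f y) (g x - g y) := by
    simp only [map_sub, sub_apply]; abel
  have h1 := hf.dist_le_mul x hx y hy
  have h2 := hg.dist_le_mul x hx y hy
  rw [dist_eq_norm] at h1 h2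
  have h3 : ‖β (f x - f y) (g x)‖ ≤ ‖β‖ * (C * dist x y) * N :=
    (β.le_opNorm₂ _ _).trans (by gcongr; exact hN x hx)
  have h4 : ‖β (f y) (g x - g y)‖ ≤ ‖β‖ * M * (D * dist x y) :=
    (β.le_opNorm₂ _ _).trans (by gcongr; exact hM y hy)
  rw [dist_eq_norm, e]
  refine (norm_add_le _ _).trans ?_
  push_cast
  linarith

end Prod

section Green
variable {V W F : Type*} [NormedAddCommGroup V] [NormedSpace ℝ V] [FiniteDimensional ℝ V]
  [NormedAddCommGroup W] [NormedSpace ℝ W] [FiniteDimensional ℝ W]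
  [NormedAddCommGroup F] [NormedSpace ℝ F] {C D : ℝ≥0}

noncomputable def cl (t : ℝ) : ℝ := max 0 (min t 1)
noncomputable def ch (t : ℝ) : ℝ := max 0 (min 1 (min (t + 1) (2 - t)))
noncomputable def cl2 (p : ℝ × ℝ) : ℝ × ℝ := (cl p.1, cl p.2)
noncomputable def ext0 (φ : ℝ × ℝ → V) (p : ℝ × ℝ) : V := (ch p.1 * ch p.2) • φ (cl2 p)

lemma lip_cl : LipschitzWith 1 cl := (LipschitzWith.id.min_const 1).const_max 0
lemma lip_ch : LipschitzWith 1 ch := by
  have h1 : LipschitzWith 1 fun t : ℝ => t + 1 := (isometry_add_right (1 : ℝ)).lipschitz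
  have h2 : LipschitzWith 1 fun t : ℝ => 2 - t :=
    LipschitzWith.of_dist_le_mul fun x y => by
      rw [Real.dist_eq, Real.dist_eq, show 2 - x - (2 - y) = -(x - y) by ring, abs_neg]; simp
  have h := ((h1.min h2).const_min 1).const_max 0
  rwa [max_self] at h
lemma ch_le (t : ℝ) : ‖ch t‖ ≤ (1 : ℝ≥0) := by
  unfold ch
  rw [Real.norm_of_nonneg (le_max_left _ _)]
  exact max_le zero_le_one (min_le_left _ _)
lemma cl_mem (t : ℝ) : cl t ∈ Icc (0 : ℝ) 1 :=
  ⟨le_max_left _ _, max_le zero_le_one (min_le_right _ _)⟩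
lemma lip_cl2 : LipschitzWith 1 cl2 := by
  have h := (lip_cl.comp LipschitzWith.prod_fst).prodMk (lip_cl.comp (LipschitzWith.prod_snd (α := ℝ)))
  rwa [max_self, mul_one] at h

lemma lip_ext0 {φ : ℝ × ℝ → V} (hφ : LipschitzWith C φ) : ∃ K, LipschitzWith K (ext0 φ) := by
  obtain ⟨M, hM⟩ := ((isCompact_Icc.prod isCompact_Icc).image hφ.continuous).isBounded.exists_norm_le
    (s := φ '' (Icc (0 : ℝ) 1 ×ˢ Icc (0 : ℝ) 1))
  have h1 := lip_bil (ContinuousLinearMap.mul ℝ ℝ) (s := univ)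
    (lip_ch.comp LipschitzWith.prod_fst).lipschitzOnWith
    (lip_ch.comp (LipschitzWith.prod_snd (α := ℝ))).lipschitzOnWith
    (fun x _ => ch_le _) (fun x _ => ch_le _)
  have h2 := lip_bil (ContinuousLinearMap.lsmul ℝ ℝ (E := V)) h1
    (hφ.comp lip_cl2).lipschitzOnWith (M := 1) (N := M.toNNReal)
    (fun x _ => by
      simp only [ContinuousLinearMap.mul_apply', norm_mul]
      exact mul_le_one₀ (ch_le _) (norm_nonneg _) (ch_le _))
    (fun x _ => (hM _ (mem_image_of_mem _ ⟨cl_mem _, cl_mem _⟩)).trans (Real.le_coe_toNNReal M))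
  exact ⟨_, lipschitzOnWith_univ.1 h2⟩

lemma cs_ext0 (φ : ℝ × ℝ → V) : HasCompactSupport (ext0 φ) := by
  refine HasCompactSupport.intro (K := Icc (-1 : ℝ) 2 ×ˢ Icc (-1 : ℝ) 2)
    (isCompact_Icc.prod isCompact_Icc) fun p hp => ?_
  have z : ∀ t : ℝ, t ∉ Icc (-1 : ℝ) 2 → ch t = 0 := fun t ht => by
    unfold ch
    rw [mem_Icc, not_and_or, not_le, not_le] at ht
    refine max_eq_left ((min_le_right _ _).trans ?_)
    rcases ht with h | h
    · exact (min_le_left _ _).trans (by linarith)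
    · exact (min_le_right _ _).trans (by linarith)
  rw [mem_prod, not_and_or] at hp
  rcases hp with h | h <;> simp [ext0, z _ h]

lemma L1_eq (f : ℝ × ℝ → V) (x y : ℝ) :
    lineDeriv ℝ f (x, y) (1, 0) = deriv (fun t => f (t, y)) x := by
  rw [← add_zero x, ← deriv_comp_const_add]
  simp [lineDeriv]
lemma L2_eq (f : ℝ × ℝ → V) (x y : ℝ) :
    lineDeriv ℝ f (x, y) (0, 1) = deriv (fun t => f (x, t)) y := by
  rw [← add_zero y, ← deriv_comp_const_add]
  simp [lineDeriv]

lemma pt (β : V →L[ℝ] W →L[ℝ] F) (φ : ℝ × ℝ → V) (ψ : ℝ × ℝ → W) {x y : ℝ} (h1 : x ≠ -1)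
    (h2 : x ≠ 0) (h3 : x ≠ 1) (h4 : x ≠ 2) (h5 : y ≠ 0) (h6 : y ≠ 1) :
    β (lineDeriv ℝ (ext0 φ) (x, y) (1, 0)) (lineDeriv ℝ (ψ ∘ cl2) (x, y) (0, 1)) =
      (Ioo (0 : ℝ) 1 ×ˢ Ioo (0 : ℝ) 1).indicator
          (fun p => β (lineDeriv ℝ φ p (1, 0)) (lineDeriv ℝ ψ p (0, 1))) (x, y) -
        (Ioo (1 : ℝ) 2 ×ˢ Ioo (0 : ℝ) 1).indicator
          (fun p => β (φ (1, p.2)) (deriv (fun t => ψ (1, t)) p.2)) (x, y) +
        (Ioo (-1 : ℝ) 0 ×ˢ Ioo (0 : ℝ) 1).indicator
          (fun p => β (φ (0, p.2)) (deriv (fun t => ψ (0, t)) p.2)) (x, y) := by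
  rw [L1_eq, L2_eq]
  by_cases hy : y ∈ Ioo (0 : ℝ) 1
  swap
  · have : deriv (fun t => (ψ ∘ cl2) (x, t)) y = 0 := by
      rw [← deriv_const y ((ψ ∘ cl2) (x, y))]
      refine EventuallyEq.deriv_eq ?_
      rw [mem_Ioo, not_and_or, not_lt, not_lt] at hy
      rcases hy with h | h
      · filter_upwards [Iio_mem_nhds (lt_of_le_of_ne h h5)] with t (ht : t < 0)
        simp only [Function.comp, cl2, cl]
        rw [max_eq_left ((min_le_left _ _).trans ht.le), max_eq_left ((min_le_left _ _).trans h)]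
      · filter_upwards [Ioi_mem_nhds (lt_of_le_of_ne h h6.symm)] with t (ht : 1 < t)
        simp only [Function.comp, cl2, cl]
        rw [min_eq_right ht.le, min_eq_right h]
    rw [this]
    simp only [map_zero, mem_prod, mem_Ioo, hy, and_false, not_false_eq_true, indicator_of_notMem, sub_self, add_zero]
  have c1 : ∀ t ∈ Ioo (0 : ℝ) 1, cl t = t := fun t ht => by
    unfold cl
    rw [min_eq_left ht.2.le, max_eq_right ht.1.le]
  have c2 : ∀ t ∈ Ioo (0 : ℝ) 1, ch t = 1 := fun t ht => by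
    unfold ch
    rw [min_eq_left (le_min (by linarith [ht.1]) (by linarith [ht.2])), max_eq_right zero_le_one]
  have e2 : deriv (fun t => (ψ ∘ cl2) (x, t)) y = deriv (fun t => ψ (cl x, t)) y := by
    refine EventuallyEq.deriv_eq ?_
    filter_upwards [isOpen_Ioo.mem_nhds hy] with t ht
    simp only [Function.comp, cl2, c1 t ht]
  have e1 : (fun t => ext0 φ (t, y)) = fun t => ch t • φ (cl t, y) := by
    funext t
    simp only [ext0, cl2, c1 y hy, c2 y hy, mul_one]
  rw [e2, e1]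
  rcases lt_or_gt_of_ne h2 with a0 | a0
  · have hc : ∀ t : ℝ, t < 0 → cl t = 0 := fun t ht => max_eq_left ((min_le_left _ _).trans ht.le)
    have n1 : x ∉ Ioo (0 : ℝ) 1 := fun h => by linarith only [h.1, a0]
    have n2 : x ∉ Ioo (1 : ℝ) 2 := fun h => by linarith [h.1]
    rcases lt_or_gt_of_ne h1 with a1 | a1
    · have n3 : x ∉ Ioo (-1 : ℝ) 0 := fun h => by linarith [h.1]
      have : deriv (fun t => ch t • φ (cl t, y)) x = 0 := by
        rw [← deriv_const x (0 : V)]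
        refine EventuallyEq.deriv_eq ?_
        filter_upwards [Iio_mem_nhds a1] with t (ht : t < -1)
        have : ch t = 0 :=
          max_eq_left ((min_le_right _ _).trans ((min_le_left _ _).trans (by linarith)))
        simp [this]
      simp only [this, map_zero, zero_apply, mem_prod, n1, mem_Ioo, false_and, not_false_eq_true, indicator_of_notMem, n2, sub_self, n3, add_zero]
    · have n3 : x ∈ Ioo (-1 : ℝ) 0 := ⟨a1, a0⟩
      have : deriv (fun t => ch t • φ (cl t, y)) x = φ (0, y) := by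
        have hd := (((hasDerivAt_id x).add_const 1).smul_const (φ (0, y))).deriv
        rw [one_smul] at hd
        rw [← hd]
        refine EventuallyEq.deriv_eq ?_
        filter_upwards [isOpen_Ioo.mem_nhds n3] with t ht
        have : ch t = t + 1 := by
          unfold ch
          rw [min_eq_left (show t + 1 ≤ 2 - t by linarith only [ht.2, a0, a1]),
            min_eq_right (by linarith [ht.2]), max_eq_right (by linarith [ht.1])]
        simp [this, hc t ht.2]
      simp only [this, hc x a0, mem_prod, n1, hy, and_true, not_false_eq_true, indicator_of_notMem, n2, sub_self, n3, and_self, indicator_of_mem, zero_add]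
  · have n3 : x ∉ Ioo (-1 : ℝ) 0 := fun h => by linarith only [h.2, a0]
    rcases lt_or_gt_of_ne h3 with a1 | a1
    · have n1 : x ∈ Ioo (0 : ℝ) 1 := ⟨a0, a1⟩
      have n2 : x ∉ Ioo (1 : ℝ) 2 := fun h => by linarith [h.1]
      have : deriv (fun t => ch t • φ (cl t, y)) x = deriv (fun t => φ (t, y)) x := by
        refine EventuallyEq.deriv_eq ?_
        filter_upwards [isOpen_Ioo.mem_nhds n1] with t ht
        simp [c1 t ht, c2 t ht]
      simp only [this, c1 x n1, mem_prod, n1, hy, and_self, indicator_of_mem, L1_eq, L2_eq, n2, and_true, not_false_eq_true, indicator_of_notMem, sub_zero, n3, add_zero]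
    · have hc : ∀ t : ℝ, 1 < t → cl t = 1 := fun t ht => by
        unfold cl
        rw [min_eq_right ht.le, max_eq_right zero_le_one]
      have n1 : x ∉ Ioo (0 : ℝ) 1 := fun h => by linarith only [h.2, a1]
      rcases lt_or_gt_of_ne h4 with a2 | a2
      · have n2 : x ∈ Ioo (1 : ℝ) 2 := ⟨a1, a2⟩
        have : deriv (fun t => ch t • φ (cl t, y)) x = -φ (1, y) := by
          have hd := (((hasDerivAt_id x).const_sub 2).smul_const (φ (1, y))).deriv
          rw [neg_one_smul] at hd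
          rw [← hd]
          refine EventuallyEq.deriv_eq ?_
          filter_upwards [isOpen_Ioo.mem_nhds n2] with t ht
          have : ch t = 2 - t := by
            unfold ch
            rw [min_eq_right (show 2 - t ≤ t + 1 by linarith [ht.1]),
              min_eq_right (by linarith [ht.1]), max_eq_right (by linarith [ht.2])]
          simp [this, hc t ht.1]
        simp only [this, map_neg, hc x a1, neg_apply, mem_prod, n1, hy, and_true, not_false_eq_true, indicator_of_notMem, n2, and_self, indicator_of_mem, zero_sub, n3, add_zero]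
      · have n2 : x ∉ Ioo (1 : ℝ) 2 := fun h => by linarith only [h.2, a2]
        have : deriv (fun t => ch t • φ (cl t, y)) x = 0 := by
          rw [← deriv_const x (0 : V)]
          refine EventuallyEq.deriv_eq ?_
          filter_upwards [Ioi_mem_nhds a2] with t (ht : 2 < t)
          have : ch t = 0 :=
            max_eq_left ((min_le_right _ _).trans ((min_le_right _ _).trans (by linarith)))
          simp [this]
        simp only [this, map_zero, zero_apply, mem_prod, n1, mem_Ioo, false_and, not_false_eq_true, indicator_of_notMem, n2, sub_self, n3, add_zero]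

lemma ae_ne2 : ∀ᵐ p : ℝ × ℝ, p.1 ≠ -1 ∧ p.1 ≠ 0 ∧ p.1 ≠ 1 ∧ p.1 ≠ 2 ∧ p.2 ≠ 0 ∧ p.2 ≠ 1 := by
  have a : ∀ c : ℝ, ∀ᵐ p : ℝ × ℝ, p.1 ≠ c := fun c =>
    (Measure.quasiMeasurePreserving_fst (μ := (volume : Measure ℝ)) (ν := (volume : Measure ℝ))).ae
      (Measure.ae_ne volume c)
  have b : ∀ c : ℝ, ∀ᵐ p : ℝ × ℝ, p.2 ≠ c := fun c =>
    (Measure.quasiMeasurePreserving_snd (μ := (volume : Measure ℝ)) (ν := (volume : Measure ℝ))).ae
      (Measure.ae_ne volume c)
  filter_upwards [a (-1), a 0, a 1, a 2, b 0, b 1] with p h1 h2 h3 h4 h5 h6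
  exact ⟨h1, h2, h3, h4, h5, h6⟩

/-- products of line derivatives are integrable on sets of finite measure -/
lemma intOn_LL {E : Type*} [NormedAddCommGroup E] [NormedSpace ℝ E] [FiniteDimensional ℝ E]
    [MeasurableSpace E] [BorelSpace E] {μ : Measure E} (β : V →L[ℝ] W →L[ℝ] F) {φ : E → V}
    {ψ : E → W} (hφ : LipschitzWith C φ) (hψ : LipschitzWith D ψ) (v w : E) {s : Set E}
    (hs : μ s ≠ ⊤) :
    IntegrableOn (fun p => β (lineDeriv ℝ φ p v) (lineDeriv ℝ ψ p w)) s μ := by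
  refine Measure.integrableOn_of_bounded (M := ‖β‖ * (C * ‖v‖) * (D * ‖w‖)) hs ?_
    (Eventually.of_forall fun p => (β.le_opNorm₂ _ _).trans ?_)
  · exact β.continuous₂.comp_aestronglyMeasurable
      ((aestronglyMeasurable_lineDeriv hφ.continuous μ).prodMk
        (aestronglyMeasurable_lineDeriv hψ.continuous μ))
  · gcongr
    · exact norm_lineDeriv_le_of_lipschitz ℝ hφ
    · exact norm_lineDeriv_le_of_lipschitz ℝ hψ

/-- the boundary integrand is integrable -/
lemma intOn_bd (β : V →L[ℝ] W →L[ℝ] F) {a : ℝ → V} {b : ℝ → W} (ha : Continuous a)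
    (hb : LipschitzWith D b) : IntegrableOn (fun y => β (a y) (deriv b y)) (Ioo (0 : ℝ) 1) := by
  obtain ⟨M, hM⟩ := (isCompact_Icc.image ha).isBounded.exists_norm_le (s := a '' Icc (0 : ℝ) 1)
  refine Measure.integrableOn_of_bounded (M := ‖β‖ * M * D) (by simp only [Real.volume_Ioo, sub_zero, ENNReal.ofReal_one, ne_eq, ENNReal.one_ne_top, not_false_eq_true]) ?_ ?_
  · exact β.continuous₂.comp_aestronglyMeasurable
      (ha.aestronglyMeasurable.prodMk (aestronglyMeasurable_deriv b _))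
  · filter_upwards [ae_restrict_mem measurableSet_Ioo] with y hy
    have h1 := hM _ (mem_image_of_mem a (Ioo_subset_Icc_self hy))
    have h0 := (norm_nonneg _).trans h1
    refine (β.le_opNorm₂ _ _).trans ?_
    gcongr
    exact norm_deriv_le_of_lipschitz hb

lemma strip (G : ℝ → F) (hG : IntegrableOn G (Ioo (0 : ℝ) 1)) (a : ℝ) :
    IntegrableOn (fun p : ℝ × ℝ => G p.2) (Ioo a (a + 1) ×ˢ Ioo (0 : ℝ) 1) ∧
      ∫ p in Ioo a (a + 1) ×ˢ Ioo (0 : ℝ) 1, G p.2 = ∫ y in Ioo (0 : ℝ) 1, G y := by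
  unfold IntegrableOn
  rw [Measure.volume_eq_prod, ← Measure.prod_restrict]
  refine ⟨hG.comp_snd _, ?_⟩
  rw [integral_fun_snd]
  simp only [Measure.real, MeasurableSet.univ, Measure.restrict_apply, univ_inter, Real.volume_Ioo, add_sub_cancel_left, ENNReal.ofReal_one, ENNReal.toReal_one, one_smul]

lemma half (β : V →L[ℝ] W →L[ℝ] F) {φ : ℝ × ℝ → V} {ψ : ℝ × ℝ → W} (hφ : LipschitzWith C φ)
    (hψ : LipschitzWith D ψ) :
    ∫ p, β (lineDeriv ℝ (ext0 φ) p (1, 0)) (lineDeriv ℝ (ψ ∘ cl2) p (0, 1)) =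
      (∫ p in Ioo (0 : ℝ) 1 ×ˢ Ioo (0 : ℝ) 1, β (lineDeriv ℝ φ p (1, 0)) (lineDeriv ℝ ψ p (0, 1))) -
        (∫ y in Ioo (0 : ℝ) 1, β (φ (1, y)) (deriv (fun t => ψ (1, t)) y)) +
        ∫ y in Ioo (0 : ℝ) 1, β (φ (0, y)) (deriv (fun t => ψ (0, t)) y) := by
  have c := hφ.continuous
  have b : ∀ a : ℝ, IntegrableOn (fun y => β (φ (a, y)) (deriv (fun t => ψ (a, t)) y))
      (Ioo (0 : ℝ) 1) := fun a =>
    intOn_bd β (by fun_prop) (hψ.comp (LipschitzWith.prodMk_left a))
  obtain ⟨i1, e1⟩ := strip _ (b 1) 1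
  obtain ⟨i0, e0⟩ := strip _ (b 0) (-1)
  rw [one_add_one_eq_two] at i1 e1
  rw [neg_add_cancel] at i0 e0
  have m : ∀ a b : ℝ, MeasurableSet (Ioo a b ×ˢ Ioo (0 : ℝ) 1) := fun a b =>
    measurableSet_Ioo.prod measurableSet_Ioo
  have i2 := intOn_LL (μ := volume) β hφ hψ (1, 0) (0, 1) (s := Ioo (0 : ℝ) 1 ×ˢ Ioo (0 : ℝ) 1)
    (by simp only [Measure.volume_eq_prod, Measure.prod_prod, Real.volume_Ioo, sub_zero, ENNReal.ofReal_one, mul_one, ne_eq, ENNReal.one_ne_top, not_false_eq_true])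
  rw [← e1, ← e0, ← integral_indicator (m _ _), ← integral_indicator (m _ _),
    ← integral_indicator (m _ _),
    ← integral_sub (i2.integrable_indicator (m _ _)) (i1.integrable_indicator (m _ _))]
  refine Eq.trans ?_ (integral_add
    ((i2.integrable_indicator (m _ _)).sub (i1.integrable_indicator (m _ _)))
    (i0.integrable_indicator (m _ _)))
  refine integral_congr_ae ?_
  filter_upwards [ae_ne2] with p hp
  exact pt β φ ψ hp.1 hp.2.1 hp.2.2.1 hp.2.2.2.1 hp.2.2.2.2.1 hp.2.2.2.2.2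

lemma L_swap (f : ℝ × ℝ → V) (p v : ℝ × ℝ) :
    lineDeriv ℝ (f ∘ Prod.swap) p v = lineDeriv ℝ f p.swap v.swap := by
  simp [lineDeriv]

/-- Green's formula on the unit square for Lipschitz maps -/
theorem green (β : V →L[ℝ] W →L[ℝ] F) {φ : ℝ × ℝ → V} {ψ : ℝ × ℝ → W} (hφ : LipschitzWith C φ)
    (hψ : LipschitzWith D ψ) :
    ∫ p in Ioo (0 : ℝ) 1 ×ˢ Ioo (0 : ℝ) 1, (β (lineDeriv ℝ φ p (1, 0)) (lineDeriv ℝ ψ p (0, 1)) -
        β (lineDeriv ℝ φ p (0, 1)) (lineDeriv ℝ ψ p (1, 0))) =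
      (∫ x in Ioo (0 : ℝ) 1, β (φ (x, 0)) (deriv (fun t => ψ (t, 0)) x)) +
      (∫ y in Ioo (0 : ℝ) 1, β (φ (1, y)) (deriv (fun t => ψ (1, t)) y)) -
      (∫ x in Ioo (0 : ℝ) 1, β (φ (x, 1)) (deriv (fun t => ψ (t, 1)) x)) -
      ∫ y in Ioo (0 : ℝ) 1, β (φ (0, y)) (deriv (fun t => ψ (0, t)) y) := by
  obtain ⟨K, hK⟩ := lip_ext0 hφ
  have h0 := S0 (μ := volume) β hK (cs_ext0 φ) (hψ.comp lip_cl2) (1, 0) (0, 1)
  have h1 := half β hφ hψ
  have sw : LipschitzWith 1 (Prod.swap : ℝ × ℝ → ℝ × ℝ) := by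
    have h := (LipschitzWith.prod_snd (α := ℝ) (β := ℝ)).prodMk LipschitzWith.prod_fst
    rwa [max_self] at h
  have h2 := half β (hφ.comp sw) (hψ.comp sw)
  have x1 : ext0 (φ ∘ Prod.swap) = ext0 φ ∘ Prod.swap := by
    funext p
    simp [ext0, cl2, mul_comm]
  have x2 : (ψ ∘ Prod.swap) ∘ cl2 = (ψ ∘ cl2) ∘ Prod.swap := rfl
  rw [x1, x2] at h2
  simp only [L_swap, Prod.swap_prod_mk, Function.comp_apply] at h2
  have s1 := integral_prod_swap (μ := (volume : Measure ℝ)) (ν := (volume : Measure ℝ))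
    (fun p => β (lineDeriv ℝ (ext0 φ) p (0, 1)) (lineDeriv ℝ (ψ ∘ cl2) p (1, 0)))
  have s2 := integral_prod_swap (μ := (volume : Measure ℝ).restrict (Ioo 0 1))
    (ν := (volume : Measure ℝ).restrict (Ioo 0 1))
    (fun p => β (lineDeriv ℝ φ p (0, 1)) (lineDeriv ℝ ψ p (1, 0)))
  rw [Measure.prod_restrict] at s2
  rw [← Measure.volume_eq_prod] at s1 s2
  rw [s1, s2, ← h0, h1] at h2
  have v : (volume : Measure (ℝ × ℝ)) (Ioo (0 : ℝ) 1 ×ˢ Ioo (0 : ℝ) 1) ≠ ⊤ := by
    simp [Measure.volume_eq_prod]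
  rw [integral_sub (intOn_LL β hφ hψ _ _ v) (intOn_LL β hφ hψ _ _ v)]
  rw [sub_eq_iff_eq_add, ← sub_eq_zero]
  rw [← sub_eq_zero] at h2
  rw [← h2]
  abel

end Green

section Poincare
variable {V : Type*} [NormedAddCommGroup V] [NormedSpace ℝ V] [FiniteDimensional ℝ V] {C : ℝ≥0}

lemma prob01 : IsProbabilityMeasure ((volume : Measure ℝ).restrict (Ioo 0 1)) := ⟨by simp only [MeasurableSet.univ, Measure.restrict_apply, univ_inter, Real.volume_Ioo, sub_zero, ENNReal.ofReal_one]⟩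

lemma sq_int_le {X : Type*} [MeasurableSpace X] (μ : Measure X) [IsProbabilityMeasure μ]
    {g : X → ℝ} (hm : AEStronglyMeasurable g μ) {M : ℝ} (hM : ∀ x, ‖g x‖ ≤ M) :
    (∫ x, g x ∂μ) ^ 2 ≤ ∫ x, g x ^ 2 ∂μ := by
  have h2 : MemLp g 2 μ := MemLp.of_bound hm M (Eventually.of_forall hM)
  have := ProbabilityTheory.variance_nonneg g μ
  rw [ProbabilityTheory.variance_eq_sub h2] at this
  simpa only [ge_iff_le, Pi.pow_apply, sub_nonneg] using this

lemma ftc_le {a : ℝ → V} (ha : LipschitzWith C a) {s t : ℝ} (hs : s ∈ Icc (0 : ℝ) 1)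
    (ht : t ∈ Icc (0 : ℝ) 1) : ‖a s - a t‖ ≤ ∫ y in Ioo (0 : ℝ) 1, ‖deriv a y‖ := by
  obtain ⟨l, hl, hl'⟩ := exists_dual_vector'' ℝ (a s - a t)
  have h1 : LipschitzWith (‖l‖₊ * C) (l ∘ a) := l.lipschitz.comp ha
  have h2 := (h1.lipschitzOnWith.absolutelyContinuousOnInterval (a := t) (b := s)).integral_deriv_eq_sub
  have h3 : ‖a s - a t‖ = ∫ y in t..s, deriv (l ∘ a) y := by
    rw [h2]
    simpa using hl'.symm
  have hi : IntegrableOn (fun y => ‖deriv a y‖) (Ioc (0 : ℝ) 1) :=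
    Measure.integrableOn_of_bounded (M := C) (by simp only [Real.volume_Ioc, sub_zero, ENNReal.ofReal_one, ne_eq, ENNReal.one_ne_top, not_false_eq_true]) (aestronglyMeasurable_deriv a _).norm
      (Eventually.of_forall fun y => by simpa using norm_deriv_le_of_lipschitz ha)
  have hsub : uIoc t s ⊆ Ioc (0 : ℝ) 1 := fun y hy =>
    ⟨lt_of_le_of_lt (le_min ht.1 hs.1) hy.1, hy.2.trans (max_le ht.2 hs.2)⟩
  rw [h3, ← integral_Ioc_eq_integral_Ioo]
  refine (Real.le_norm_self _).trans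
    (intervalIntegral.norm_integral_le_integral_norm_uIoc.trans ?_)
  refine le_trans (integral_mono_of_nonneg (Eventually.of_forall fun _ => norm_nonneg _)
    (hi.mono_set hsub) ?_) (setIntegral_mono_set hi
      (Eventually.of_forall fun _ => norm_nonneg _) hsub.eventuallyLE)
  filter_upwards [ae_restrict_of_ae (ha.ae_differentiableAt (μ := volume))] with y hy
  rw [(l.hasFDerivAt.comp_hasDerivAt y hy.hasDerivAt).deriv]
  exact (l.le_opNorm _).trans (mul_le_of_le_one_left (norm_nonneg _) hl)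

end Poincare

section Param
variable {V W F : Type*} [NormedAddCommGroup V] [NormedSpace ℝ V] [FiniteDimensional ℝ V]
  [NormedAddCommGroup W] [NormedSpace ℝ W] [FiniteDimensional ℝ W]
  [NormedAddCommGroup F] [NormedSpace ℝ F] {C D K : ℝ≥0}

/-- Jacobian of a real linear map from the plane to `ℂ` -/
noncomputable def jac (A : ℝ × ℝ →L[ℝ] ℂ) : ℝ := (A (1, 0)).re * (A (0, 1)).im - (A (0, 1)).re * (A (1, 0)).im

lemma det_eq_jac (A : ℝ × ℝ →L[ℝ] ℂ) :
    ((Complex.equivRealProdCLM : ℂ →L[ℝ] ℝ × ℝ) ∘L A).det = jac A := by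
  unfold ContinuousLinearMap.det
  rw [← LinearMap.det_toMatrix (Module.Basis.finTwoProd ℝ), Matrix.det_fin_two]
  simp [LinearMap.toMatrix_apply, jac]

/-- change of variables from the plane to `ℂ` -/
theorem cv {s : Set (ℝ × ℝ)} (hs : MeasurableSet s) {P : ℝ × ℝ → ℂ} {P' : ℝ × ℝ → ℝ × ℝ →L[ℝ] ℂ}
    (hP : ∀ x ∈ s, HasFDerivWithinAt P (P' x) s x) (hi : InjOn P s) (g : ℂ → F) :
    ∫ w in P '' s, g w = ∫ x in s, |jac (P' x)| • g (P x) := by
  have h := integral_image_eq_integral_abs_det_fderiv_smul volume hs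
    (fun x hx => Complex.equivRealProdCLM.hasFDerivAt.comp_hasFDerivWithinAt x (hP x hx))
    (Complex.equivRealProdCLM.injective.comp_injOn hi) (fun q => g (Complex.equivRealProdCLM.symm q))
  simp only [det_eq_jac, Function.comp_apply, ContinuousLinearEquiv.symm_apply_apply] at h
  rw [← h, ← image_image Complex.equivRealProdCLM P]
  have e := Complex.volume_preserving_equiv_real_prod.setIntegral_image_emb
    Complex.measurableEquivRealProd.measurableEmbedding
    (fun q => g (Complex.equivRealProdCLM.symm q)) (P '' s)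
  exact e.symm

theorem cv_int {s : Set (ℝ × ℝ)} (hs : MeasurableSet s) {P : ℝ × ℝ → ℂ}
    {P' : ℝ × ℝ → ℝ × ℝ →L[ℝ] ℂ} (hP : ∀ x ∈ s, HasFDerivWithinAt P (P' x) s x) (hi : InjOn P s)
    (g : ℂ → F) :
    IntegrableOn g (P '' s) ↔ IntegrableOn (fun x => |jac (P' x)| • g (P x)) s := by
  have h := integrableOn_image_iff_integrableOn_abs_det_fderiv_smul volume hs
    (fun x hx => Complex.equivRealProdCLM.hasFDerivAt.comp_hasFDerivWithinAt x (hP x hx))
    (Complex.equivRealProdCLM.injective.comp_injOn hi) (fun q => g (Complex.equivRealProdCLM.symm q))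
  simp only [det_eq_jac, Function.comp_apply, ContinuousLinearEquiv.symm_apply_apply] at h
  rw [← h, ← image_image Complex.equivRealProdCLM P]
  exact (Complex.volume_preserving_equiv_real_prod.integrableOn_image
    Complex.measurableEquivRealProd.measurableEmbedding
    (f := fun q => g (Complex.equivRealProdCLM.symm q)) (s := P '' s)).symm

theorem ae_pull_C {s : Set (ℝ × ℝ)} (hs : MeasurableSet s) {P : ℝ × ℝ → ℂ}
    {P' : ℝ × ℝ → ℝ × ℝ →L[ℝ] ℂ} (hP : ∀ x ∈ s, HasFDerivWithinAt P (P' x) s x) (hi : InjOn P s)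
    (hd : ∀ x ∈ s, jac (P' x) ≠ 0) {p : ℂ → Prop} (hp : ∀ᵐ w, p w) :
    ∀ᵐ x ∂volume.restrict s, p (P x) := by
  have h := ae_pull volume hs
    (fun x hx => Complex.equivRealProdCLM.hasFDerivAt.comp_hasFDerivWithinAt x (hP x hx))
    (Complex.equivRealProdCLM.injective.comp_injOn hi) (fun x hx => by rw [det_eq_jac]; exact hd x hx)
    (p := fun q => p (Complex.equivRealProdCLM.symm q))
    ((Complex.volume_preserving_equiv_real_prod.symm _).quasiMeasurePreserving.ae hp)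
  simpa only [Function.comp_apply, ContinuousLinearEquiv.symm_apply_apply] using h

end Param

end Pool.Agent.MP_596265_gt.U.Lip

end

section

/-! Block H: smooth dependence on parameters, abstract part. -/

namespace Pool.Agent.MP_596265_gt.Hd

open Set Filter Topology Metric
open scoped InnerProductSpace

section curry
variable {X Y : Type} [NormedAddCommGroup X] [NormedSpace ℝ X] [NormedAddCommGroup Y]
  [NormedSpace ℝ Y] {K : Set Y} [CompactSpace K]

omit [NormedSpace ℝ X] [NormedSpace ℝ Y] in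
theorem hc_cont {F : Type} [NormedAddCommGroup F] {f : X × Y → F} {x₀ : X}
    (h : ∀ y ∈ K, ContinuousAt f (x₀, y)) {ε : ℝ} (hε : 0 < ε) :
    ∀ᶠ x in 𝓝 x₀, ∀ y ∈ K, ‖f (x, y) - f (x₀, y)‖ ≤ ε :=
  (isCompact_iff_compactSpace.2 ‹_›).eventually_forall_of_forall_eventually
    (P := fun x y => ‖f (x, y) - f (x₀, y)‖ ≤ ε) fun y hy => by
      have h1 : ContinuousAt (fun z : X × Y => ‖f z - f (x₀, z.2)‖) (x₀, y) :=
        ((h y hy).sub (ContinuousAt.comp (f := fun z : X × Y => (x₀, z.2)) (h y hy)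
          (by fun_prop))).norm
      exact (h1.eventually (gt_mem_nhds (by simpa using hε))).mono fun z hz => hz.le

theorem hc_ev {F : Type} [NormedAddCommGroup F] [NormedSpace ℝ F] {n : ℕ} {f : X × Y → F} {x₀ : X}
    (h : ∀ y ∈ K, ContDiffAt ℝ n f (x₀, y)) : ∀ᶠ x in 𝓝 x₀, ∀ y ∈ K, ContDiffAt ℝ n f (x, y) :=
  (isCompact_iff_compactSpace.2 ‹_›).eventually_forall_of_forall_eventually
    (P := fun x y => ContDiffAt ℝ n f (x, y)) fun y hy => (h y hy).eventually (by simp)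

/-- exchange of the two arguments -/
noncomputable def hcT (K : Set Y) [CompactSpace K] (X F : Type) [NormedAddCommGroup X]
    [NormedSpace ℝ X] [NormedAddCommGroup F] [NormedSpace ℝ F] :
    C(K, X →L[ℝ] F) →L[ℝ] X →L[ℝ] C(K, F) :=
  LinearMap.mkContinuous₂ (LinearMap.mk₂ ℝ
    (fun (Ψ : C(K, X →L[ℝ] F)) (h : X) => (⟨fun y => Ψ y h, by fun_prop⟩ : C(K, F)))
    (fun _ _ _ => by ext; simp) (fun _ _ _ => by ext; simp only [ContinuousMap.coe_smul, Pi.smul_apply, smul_apply, ContinuousMap.coe_mk]) (fun _ _ _ => by ext; simp)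
    (fun _ _ _ => by ext; simp only [map_smul, ContinuousMap.coe_mk, ContinuousMap.coe_smul, Pi.smul_apply])) 1 fun Ψ h => by
      rw [one_mul]
      exact (ContinuousMap.norm_le _ (by positivity)).2 fun y =>
        (Ψ y).le_of_opNorm_le (Ψ.norm_coe_le_norm y) h

theorem hc_mkD {F : Type} [NormedAddCommGroup F] [NormedSpace ℝ F] {n : ℕ} {f : X × Y → F} {x₀ : X}
    (h : ∀ y ∈ K, ContDiffAt ℝ n f (x₀, y)) : ∀ᶠ x in 𝓝 x₀, ∀ y : K,
      ContinuousMap.mkD (fun y : K => f (x, y)) 0 y = f (x, y) :=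
  (hc_ev h).mono fun x hx y => ContinuousMap.mkD_apply_of_continuous
    (continuous_iff_continuousAt.2 fun y => ContinuousAt.comp (f := fun y : K => (x, (y : Y)))
      (hx y y.2).continuousAt (by fun_prop))

/-- **Currying** of smooth maps over a compact set. -/
theorem curry (n : ℕ) : ∀ {F : Type} [NormedAddCommGroup F] [NormedSpace ℝ F] {f : X × Y → F}
    {Φ : X → C(K, F)} {x₀ : X}, (∀ y ∈ K, ContDiffAt ℝ n f (x₀, y)) →
    (∀ᶠ x in 𝓝 x₀, ∀ y : K, Φ x y = f (x, y)) → ContDiffAt ℝ n Φ x₀ := by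
  induction n with
  | zero =>
    intro F _ _ f Φ x₀ h hΦ
    refine contDiffAt_zero.2 ⟨_, (hc_ev h).and hΦ.eventually_nhds, fun x hx => ?_⟩
    refine (Metric.continuousAt_iff'.2 fun ε hε => ?_).continuousWithinAt
    filter_upwards [hx.2, hc_cont (fun y hy => (hx.1 y hy).continuousAt) (half_pos hε)] with z h1 h2
    refine lt_of_le_of_lt ((ContinuousMap.dist_le (half_pos hε).le).2 fun y => ?_) (half_lt_self hε)
    rw [h1, hx.2.self_of_nhds, dist_eq_norm]; exact h2 y y.2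
  | succ n ih =>
    intro F _ _ f Φ x₀ h hΦ
    let f' : X × Y → X →L[ℝ] F := fun z => fderiv ℝ f z ∘L ContinuousLinearMap.inl ℝ X Y
    have h1 : ∀ {z}, ContDiffAt ℝ (n + 1 : ℕ) f z → ContDiffAt ℝ n f' z := fun hz =>
      (hz.fderiv_right (m := n) (by simp)).clm_comp contDiffAt_const
    have h2 := hc_mkD fun y hy => h1 (h y hy)
    refine contDiffAt_succ_iff_hasFDerivAt.2 ⟨fun x => hcT K X F (ContinuousMap.mkD
      (fun y : K => f' (x, y)) 0), ⟨_, ((hc_ev h).and hΦ.eventually_nhds).and h2, fun x hx => ?_⟩,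
      ((hcT K X F).contDiff.contDiffAt.comp x₀ (ih (fun y hy => h1 (h y hy)) h2) :)⟩
    obtain ⟨⟨k1, k2⟩, k3⟩ := hx
    refine hasFDerivAt_iff_isLittleO.2 (Asymptotics.isLittleO_iff.2 fun ε hε => ?_)
    obtain ⟨r, hr, k4⟩ := Metric.eventually_nhds_iff_ball.1 ((hc_ev k1).and
      (hc_cont (fun y hy => (h1 (k1 y hy)).continuousAt) hε))
    filter_upwards [k2, ball_mem_nhds x hr] with z hz hzr
    refine (ContinuousMap.norm_le _ (by positivity)).2 fun y => ?_
    have := (convex_ball x r).norm_image_sub_le_of_norm_hasFDerivWithin_le'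
      (f := fun u => f (u, y)) (f' := fun u => f' (u, y)) (φ := f' (x, y))
      (fun u hu => (HasFDerivAt.comp u (((k4 u hu).1 y y.2).differentiableAt
        (by simp)).hasFDerivAt (hasFDerivAt_prodMk_left u (y : Y))).hasFDerivWithinAt)
      (fun u hu => (k4 u hu).2 y y.2) (mem_ball_self hr) hzr
    rw [← hz, ← k2.self_of_nhds, ← k3] at this
    exact this
end curry

section min
variable {X G H : Type} [NormedAddCommGroup X] [NormedSpace ℝ X] [NormedAddCommGroup G]
  [InnerProductSpace ℂ G] [CompleteSpace G] [NormedAddCommGroup H] [InnerProductSpace ℂ H]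
  [CompleteSpace H]

theorem hc_unit {T : G →L[ℂ] H} {c : ℝ} (hc : 0 < c) (h : ∀ y, c * ‖y‖ ≤ ‖T y‖) :
    IsUnit (T.adjoint ∘L T) := by
  refine ContinuousLinearMap.isUnit_of_forall_le_norm_inner_map _ (c := ⟨c ^ 2, by positivity⟩)
    (by exact_mod_cast (by positivity : 0 < c ^ 2)) fun y => ?_
  rw [ContinuousLinearMap.comp_apply, ContinuousLinearMap.adjoint_inner_left,
    inner_self_eq_norm_sq_to_K, norm_pow, RCLike.norm_ofReal, abs_norm]
  have := pow_le_pow_left₀ (by positivity) (h y) 2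
  change _ * c ^ 2 ≤ _
  linarith [mul_pow c ‖y‖ 2]

/-- the minimiser -/
noncomputable def mnz (a : H) (T : G →L[ℂ] H) : G := -Ring.inverse (T.adjoint ∘L T) (T.adjoint a)

theorem mnz_perp {T : G →L[ℂ] H} (h : IsUnit (T.adjoint ∘L T)) (a : H) (y : G) :
    ⟪T y, a + T (mnz a T)⟫_ℂ = 0 := by
  have e := congrArg (fun A : G →L[ℂ] G => A (T.adjoint a)) (Ring.mul_inverse_cancel _ h)
  rw [← ContinuousLinearMap.adjoint_inner_right, map_add, mnz, map_neg, map_neg]
  change T.adjoint (T (Ring.inverse (T.adjoint ∘L T) (T.adjoint a))) = T.adjoint a at e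
  rw [e, add_neg_cancel, inner_zero_right]

theorem mnz_least {T : G →L[ℂ] H} (h : IsUnit (T.adjoint ∘L T)) (a : H) :
    IsLeast (range fun y => ‖a + T y‖ ^ 2) (‖a + T (mnz a T)‖ ^ 2) := by
  refine ⟨⟨_, rfl⟩, ?_⟩
  rintro _ ⟨y, rfl⟩
  have e : a + T y = T (y - mnz a T) + (a + T (mnz a T)) := by rw [map_sub]; abel
  have := norm_add_sq_eq_norm_sq_add_norm_sq_of_inner_eq_zero _ _ (mnz_perp h a (y - mnz a T))
  simp only []
  rw [e, sq, sq, this]
  exact le_add_of_nonneg_left (mul_self_nonneg _)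

variable [NormedSpace ℝ G] [IsScalarTower ℝ ℂ G] [NormedSpace ℝ H] [IsScalarTower ℝ ℂ H]
  {n : WithTop ℕ∞} {x₀ : X}

theorem hc_adj : IsBoundedLinearMap ℝ fun T : G →L[ℂ] H => T.adjoint where
  map_add := map_add _
  map_smul c T := by
    rw [← algebraMap_smul ℂ c T, map_smulₛₗ, ← algebraMap_smul ℂ c]; simp
  bound := ⟨1, one_pos, fun T => by simp⟩

theorem hc_app {E : Type} [NormedAddCommGroup E] [NormedSpace ℂ E] [NormedSpace ℝ E]
    [IsScalarTower ℝ ℂ E] {F : Type} [NormedAddCommGroup F] [NormedSpace ℂ F] [NormedSpace ℝ F]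
    [IsScalarTower ℝ ℂ F] {T : X → E →L[ℂ] F} {a : X → E} (hT : ContDiffAt ℝ n T x₀)
    (ha : ContDiffAt ℝ n a x₀) : ContDiffAt ℝ n (fun x => T x (a x)) x₀ :=
  (((ContinuousLinearMap.restrictScalarsL ℂ E F ℝ ℝ).contDiff.contDiffAt.comp x₀ hT).clm_apply ha :)

theorem hc_comp {E : Type} [NormedAddCommGroup E] [NormedSpace ℂ E] {F : Type}
    [NormedAddCommGroup F] [NormedSpace ℂ F] [NormedSpace ℝ F] [IsScalarTower ℝ ℂ F] {D : Type}
    [NormedAddCommGroup D] [NormedSpace ℂ D] [NormedSpace ℝ D] [IsScalarTower ℝ ℂ D]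
    {S : X → F →L[ℂ] D} {T : X → E →L[ℂ] F} (hS : ContDiffAt ℝ n S x₀)
    (hT : ContDiffAt ℝ n T x₀) : ContDiffAt ℝ n (fun x => S x ∘L T x) x₀ := by
  have : IsBoundedBilinearMap ℝ fun p : (F →L[ℂ] D) × (E →L[ℂ] F) => p.1 ∘L p.2 :=
    ⟨fun _ _ _ => by simp [ContinuousLinearMap.add_comp], fun _ _ _ => by ext; simp only [ContinuousLinearMap.smul_comp, smul_apply, ContinuousLinearMap.comp_apply],
      fun _ _ _ => by simp [ContinuousLinearMap.comp_add], fun c _ _ => by ext; simp only [ContinuousLinearMap.comp_smul, smul_apply, ContinuousLinearMap.comp_apply],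
      1, one_pos, fun A B => by rw [one_mul]; exact A.opNorm_comp_le B⟩
  exact this.contDiff.contDiffAt.comp x₀ (hS.prodMk hT)

theorem mnz_contDiffAt {a : X → H} {T : X → G →L[ℂ] H} (ha : ContDiffAt ℝ n a x₀)
    (hT : ContDiffAt ℝ n T x₀) (h : IsUnit ((T x₀).adjoint ∘L T x₀)) :
    ContDiffAt ℝ n (fun x => mnz (a x) (T x)) x₀ := by
  have h1 := hc_adj.contDiff.contDiffAt.comp x₀ hT
  obtain ⟨u, hu⟩ := h
  exact (hc_app (ContDiffAt.comp (g := Ring.inverse) x₀ (hu ▸ (contDiffAt_ringInverse ℂ u).restrict_scalars ℝ)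
    (hc_comp h1 hT)) (hc_app h1 ha)).neg

omit [NormedSpace ℝ X] in
theorem mnz_ev {T : X → G →L[ℂ] H} (hT : ContinuousAt T x₀)
    (h : IsUnit ((T x₀).adjoint ∘L T x₀)) : ∀ᶠ x in 𝓝 x₀, IsUnit ((T x).adjoint ∘L T x) :=
  ((hc_adj.continuous.continuousAt.comp hT).clm_comp hT).eventually (Units.isOpen.mem_nhds h)

/-- **The minimum** of a coercive quadratic problem depends smoothly on parameters. -/
theorem min_contDiffAt {a : X → H} {T : X → G →L[ℂ] H} (ha : ContDiffAt ℝ n a x₀)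
    (hT : ContDiffAt ℝ n T x₀) {c : ℝ} (hc : 0 < c) (h : ∀ y, c * ‖y‖ ≤ ‖T x₀ y‖) :
    ContDiffAt ℝ n (fun x => sInf (range fun y => ‖a x + T x y‖ ^ 2)) x₀ := by
  have hu := hc_unit hc h
  have h1 := ha.add (hc_app hT (mnz_contDiffAt ha hT hu))
  exact (h1.norm_sq ℂ).congr_of_eventuallyEq ((mnz_ev hT.continuousAt hu).mono fun x hx =>
    (mnz_least hx (a x)).csInf_eq)
end min

end Pool.Agent.MP_596265_gt.Hd

end

section

set_option autoImplicit false

namespace Pool.Agent.MP_596265_gt.V18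

open Filter Topology Metric Complex

/-- second order lower bound of `u` at `z` -/
def Jet (u : ℂ → ℝ) (z α : ℂ) (κ : ℝ) : Prop := ∃ β : ℂ, ∀ ε > (0 : ℝ), ∀ᶠ t in 𝓝 (0 : ℂ),
  u z + (α * t).re + (β * t ^ 2).re + (κ - ε) * ‖t‖ ^ 2 ≤ u (z + t)

lemma Jet.add {u v : ℂ → ℝ} {z α α' : ℂ} {κ κ' : ℝ} (h : Jet u z α κ) (h' : Jet v z α' κ') :
    Jet (fun w => u w + v w) z (α + α') (κ + κ') := by
  obtain ⟨β, h⟩ := h
  obtain ⟨β', h'⟩ := h'
  refine ⟨β + β', fun ε hε => ?_⟩
  filter_upwards [h (ε / 2) (by positivity), h' (ε / 2) (by positivity)] with t h1 h2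
  simp only [add_mul, add_re]
  linarith

lemma Jet.not_max {u : ℂ → ℝ} {z α : ℂ} {κ : ℝ} (h : Jet u z α κ) (hm : IsLocalMax u z) :
    κ ≤ 0 := by
  by_contra hκ
  push Not at hκ
  obtain ⟨β, h⟩ := h
  have h0 : ∀ᶠ t in 𝓝 (0 : ℂ), u (z + t) ≤ u z :=
    (show Tendsto (fun t : ℂ => z + t) (𝓝 0) (𝓝 z) from
      (continuous_const.add continuous_id).tendsto' _ _ (by simp)).eventually hm
  obtain ⟨r, hr, h1⟩ := Metric.eventually_nhds_iff.1 ((h (κ / 2) (by positivity)).and h0)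
  have key : ∀ w : ℂ, ‖w‖ = 1 → (α * (w * (r / 2 : ℝ))).re + (β * (w * (r / 2 : ℝ)) ^ 2).re +
      κ / 2 * (r / 2) ^ 2 ≤ 0 := fun w hw => by
    have hn : ‖w * (r / 2 : ℝ)‖ = r / 2 := by
      rw [norm_mul, hw, one_mul, norm_real, Real.norm_of_nonneg (by positivity)]
    have := h1 (y := w * (r / 2 : ℝ)) (by rw [dist_zero_right, hn]; linarith)
    rw [hn] at this
    linarith only [this.1, this.2]
  have a1 := key 1 (by simp)
  have a2 := key (-1) (by simp)
  have a3 := key I (by simp)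
  have a4 := key (-I) (by simp)
  have : 0 < κ / 2 * (r / 2) ^ 2 := by positivity
  generalize r / 2 = s at *
  simp only [mul_pow, neg_sq, I_sq, neg_mul, mul_neg, one_mul, neg_re] at a1 a2 a3 a4
  linarith

/-- a locally constant function has no positive second order bound -/
lemma Jet.const {F : ℂ → ℝ} {z α : ℂ} {κ : ℝ} (h : Jet F z α κ) (hc : ∀ᶠ w in 𝓝 z, F w = F z) :
    κ ≤ 0 := h.not_max (hc.mono fun _ hw => hw.le)

end Pool.Agent.MP_596265_gt.V18

end

section

set_option autoImplicit false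

namespace Pool.Agent.MP_596265_gt.V18

open Filter Topology Complex ContinuousLinearMap
open scoped InnerProductSpace ComplexConjugate

variable {H : Type*} [NormedAddCommGroup H] [InnerProductSpace ℂ H] [CompleteSpace H]

/-- the Weil operator of a splitting into four types -/
noncomputable def weil (π : ℕ → H →L[ℂ] H) (x : H) : H := π 3 x - π 2 x + π 1 x - π 0 x

/-- infinitesimal data of a variation of Hodge structure of weight three -/
structure Vhs (π : ℕ → H →L[ℂ] H) (θ : H →L[ℂ] H) (B : ℕ → Submodule ℂ H) : Prop where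
  sum : ∀ x, π 0 x + π 1 x + π 2 x + π 3 x = x
  orth : ∀ p q, p ≠ q → ∀ x y, ⟪π p x, π q y⟫_ℂ = 0
  shift : ∀ p < 3, ∀ x, θ (π (p + 1) x) = π p (θ x)
  shift0 : ∀ x, θ (π 0 x) = 0
  typ : ∀ p < 3, ∀ b ∈ B p, π (p + 1) b + π p b = b
  iso : ∀ p < 3, ∀ q < 3, ∀ b ∈ B p, ∀ b' ∈ B q, ⟪b, weil π b'⟫_ℂ = 0
  up : ∀ p < 2, ∀ b ∈ B p, ∃ β ∈ (B 0 ⊔ B 1 ⊔ B 2).topologicalClosure,
    π (p + 2) β = adjoint θ (π (p + 1) b)
  down : ∀ p < 2, ∀ b ∈ B (p + 1), ∃ β ∈ (B 0 ⊔ B 1 ⊔ B 2).topologicalClosure,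
    π p β = θ (π (p + 1) b)

/-- harmonic vectors -/
noncomputable def Hm (π : ℕ → H →L[ℂ] H) (B : ℕ → Submodule ℂ H) : Submodule ℂ H :=
  (Submodule.span ℂ {x | ∃ p < 3, ∃ b ∈ B p, x = π (p + 1) b ∨ x = π p b})ᗮ

instance (π : ℕ → H →L[ℂ] H) (B : ℕ → Submodule ℂ H) : (Hm π B).HasOrthogonalProjection := by
  unfold Hm; infer_instance

/-- the curvature term -/
noncomputable def curv (π : ℕ → H →L[ℂ] H) (θ : H →L[ℂ] H) (B : ℕ → Submodule ℂ H) (a : H) : ℝ :=
  ‖(Hm π B).starProjection (θ a)‖ ^ 2 + ‖(Hm π B).starProjection (adjoint θ a)‖ ^ 2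

omit [CompleteSpace H] in
lemma mem_Hm {π : ℕ → H →L[ℂ] H} {B : ℕ → Submodule ℂ H} {a : H} : a ∈ Hm π B ↔
    ∀ p < 3, ∀ b ∈ B p, ⟪π (p + 1) b, a⟫_ℂ = 0 ∧ ⟪π p b, a⟫_ℂ = 0 := by
  refine ⟨fun h p hp b hb => ⟨h _ (Submodule.subset_span ⟨p, hp, b, hb, Or.inl rfl⟩),
    h _ (Submodule.subset_span ⟨p, hp, b, hb, Or.inr rfl⟩)⟩, fun h x hx => ?_⟩
  refine Submodule.span_induction (p := fun x _ => ⟪x, a⟫_ℂ = 0) ?_ (inner_zero_left _) ?_ ?_ hx
  · rintro _ ⟨p, hp, b, hb, rfl | rfl⟩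
    exacts [(h p hp b hb).1, (h p hp b hb).2]
  · intro x y _ _ h1 h2; rw [inner_add_left, h1, h2, add_zero]
  · intro c x _ h1; rw [inner_smul_left, h1, mul_zero]

omit [CompleteSpace H] in
lemma closure_bound {K : Submodule ℂ H} {x : H} {c : ℝ} (h : ∀ b ∈ K, ‖⟪b, x⟫_ℂ‖ ≤ c * ‖b‖) :
    ∀ b ∈ K.topologicalClosure, ‖⟪b, x⟫_ℂ‖ ≤ c * ‖b‖ := fun _ hb =>
  closure_minimal (t := {b | ‖⟪b, x⟫_ℂ‖ ≤ c * ‖b‖}) h (isClosed_le (by fun_prop) (by fun_prop)) hb

namespace Vhs

variable {π : ℕ → H →L[ℂ] H} {θ : H →L[ℂ] H} {B : ℕ → Submodule ℂ H} (h : Vhs π θ B)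
include h

lemma inner_pi {p : ℕ} (hp : p < 4) (x y : H) : ⟪π p x, y⟫_ℂ = ⟪π p x, π p y⟫_ℂ := by
  conv_lhs => rw [← h.sum y]
  interval_cases p <;> simp only [inner_add_right] <;> simp [h.orth]

lemma adj {p : ℕ} (hp : p < 4) (x y : H) : ⟪π p x, y⟫_ℂ = ⟪x, π p y⟫_ℂ := by
  rw [h.inner_pi hp, ← inner_conj_symm x, h.inner_pi hp y x, inner_conj_symm]

lemma norm_sq (x : H) :
    ‖π 0 x‖ ^ 2 + ‖π 1 x‖ ^ 2 + ‖π 2 x‖ ^ 2 + ‖π 3 x‖ ^ 2 = ‖x‖ ^ 2 := by
  have : ⟪x, x⟫_ℂ = ⟪π 0 x, π 0 x⟫_ℂ + ⟪π 1 x, π 1 x⟫_ℂ + ⟪π 2 x, π 2 x⟫_ℂ + ⟪π 3 x, π 3 x⟫_ℂ := by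
    rw [← h.inner_pi (by omega), ← h.inner_pi (by omega), ← h.inner_pi (by omega),
      ← h.inner_pi (by omega), ← inner_add_left, ← inner_add_left, ← inner_add_left, h.sum]
  simp only [inner_self_eq_norm_sq_to_K] at this
  exact_mod_cast this.symm

lemma weil_typ {p : ℕ} (hp : p < 3) {b : H} (hb : b ∈ B p) (x : H) :
    ⟪x, weil π b⟫_ℂ = (-1) ^ p * (⟪x, π (p + 1) b⟫_ℂ - ⟪x, π p b⟫_ℂ) := by
  have e : ∀ q < 4, q ≠ p + 1 → q ≠ p → ⟪x, π q b⟫_ℂ = 0 := fun q hq h1 h2 => by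
    rw [← h.adj hq, ← h.typ p hp b hb, inner_add_right, h.orth _ _ h1, h.orth _ _ h2, add_zero]
  simp only [weil, inner_sub_right, inner_add_right]
  interval_cases p
  · rw [e 2 (by omega) (by omega) (by omega), e 3 (by omega) (by omega) (by omega)]; ring
  · rw [e 0 (by omega) (by omega) (by omega), e 3 (by omega) (by omega) (by omega)]; ring
  · rw [e 0 (by omega) (by omega) (by omega), e 1 (by omega) (by omega) (by omega)]; ring

/-- closed and coclosed vectors are harmonic -/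
lemma mem_of_perp {a : H} (h1 : ∀ p < 3, ∀ b ∈ B p, ⟪a, b⟫_ℂ = 0)
    (h2 : ∀ p < 3, ∀ b ∈ B p, ⟪a, weil π b⟫_ℂ = 0) : a ∈ Hm π B :=
  mem_Hm.2 fun p hp b hb => by
    have e1 := h1 p hp b hb
    have e2 := h2 p hp b hb
    rw [← h.typ p hp b hb, inner_add_right] at e1
    rw [h.weil_typ hp hb, mul_eq_zero, or_iff_right (by simp only [pow_eq_zero_iff', neg_eq_zero, one_ne_zero, ne_eq, false_and, not_false_eq_true])] at e2
    exact ⟨inner_eq_zero_symm.1 (by linear_combination (e1 + e2) / 2),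
      inner_eq_zero_symm.1 (by linear_combination (e1 - e2) / 2)⟩

lemma pi_mem {a : H} (ha : a ∈ Hm π B) (q : ℕ) : π q a ∈ Hm π B :=
  mem_Hm.2 fun p hp b hb => by
    have := mem_Hm.1 ha p hp b hb
    constructor
    · by_cases e : p + 1 = q
      · rw [← e, ← h.inner_pi (by omega), this.1]
      · exact h.orth _ _ e _ _
    · by_cases e : p = q
      · rw [← e, ← h.inner_pi (by omega), this.2]
      · exact h.orth _ _ e _ _

lemma perp {a : H} (ha : a ∈ Hm π B) {b : H} (hb : b ∈ (B 0 ⊔ B 1 ⊔ B 2).topologicalClosure) :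
    ⟪b, a⟫_ℂ = 0 := by
  refine norm_le_zero_iff.1 ((closure_bound (c := 0) (fun b hb => ?_) b hb).trans (by simp))
  obtain ⟨b, hb', b2, hb2, rfl⟩ := Submodule.mem_sup.1 hb
  obtain ⟨b0, hb0, b1, hb1, rfl⟩ := Submodule.mem_sup.1 hb'
  have e : ∀ p < 3, ∀ b ∈ B p, ⟪b, a⟫_ℂ = 0 := fun p hp b hb => by
    have := mem_Hm.1 ha p hp b hb
    rw [← h.typ p hp b hb, inner_add_left, this.1, this.2, add_zero]
  simp [e 0 _ b0 hb0, e 1 _ b1 hb1, e 2 _ b2 hb2]

lemma shift3 (x : H) : π 3 (θ x) = 0 := by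
  have e := congrArg θ (h.sum x)
  have e2 := h.sum (θ x)
  rw [map_add, map_add, map_add, h.shift0, h.shift 0 (by omega), h.shift 1 (by omega),
    h.shift 2 (by omega), zero_add] at e
  rw [e] at e2
  exact add_eq_left.1 e2

lemma theta_perp {a : H} (ha : a ∈ Hm π B) {p : ℕ} (hp : p < 3) {b : H} (hb : b ∈ B p) :
    ⟪π (p + 1) b, θ a⟫_ℂ = 0 ∧ ⟪π p b, adjoint θ a⟫_ℂ = 0 := by
  constructor
  · rcases Nat.lt_or_ge p 2 with h2 | h2
    · obtain ⟨β, h1, e⟩ := h.up p h2 b hb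
      rw [← adjoint_inner_left, ← e, h.adj (by omega), h.perp (h.pi_mem ha _) h1]
    · obtain rfl : p = 2 := by omega
      rw [h.adj (by omega), h.shift3, inner_zero_right]
  · rw [adjoint_inner_right]
    rcases p with _ | p
    · rw [h.shift0, inner_zero_left]
    · obtain ⟨β, h1, e⟩ := h.down p (by omega) b hb
      rw [← e, h.adj (by omega), h.perp (h.pi_mem ha _) h1]

lemma split {b : H} (hb : b ∈ B 0 ⊔ B 1 ⊔ B 2) : ∃ b1 b2 : H, b = b1 + b2 ∧
    2 * ‖b1‖ ^ 2 = ‖b‖ ^ 2 ∧ 2 * ‖b2‖ ^ 2 = ‖b‖ ^ 2 ∧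
    (∀ x ∈ Hm π B, ⟪b1, x⟫_ℂ = 0 ∧ ⟪b2, x⟫_ℂ = 0) ∧
    ∀ a ∈ Hm π B, ⟪b1, θ a⟫_ℂ = 0 ∧ ⟪b2, adjoint θ a⟫_ℂ = 0 := by
  obtain ⟨b, hb', c2, h2, rfl⟩ := Submodule.mem_sup.1 hb
  obtain ⟨c0, h0, c1, h1, rfl⟩ := Submodule.mem_sup.1 hb'
  have i1 : ∀ p < 3, ∀ c ∈ B p, ⟪π (p + 1) c, π (p + 1) c⟫_ℂ = ⟪π p c, π p c⟫_ℂ :=
    fun p hp c hc => by
      have := h.iso p hp p hp c hc c hc
      rw [h.weil_typ hp hc, mul_eq_zero, or_iff_right (by simp only [pow_eq_zero_iff', neg_eq_zero, one_ne_zero, ne_eq, false_and, not_false_eq_true]), ← h.adj (by omega),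
        ← h.adj (by omega), h.inner_pi (by omega), h.inner_pi (p := p) (by omega)] at this
      exact sub_eq_zero.1 this
  have i2 : ∀ p < 2, ∀ c ∈ B p, ∀ c' ∈ B (p + 1), ⟪π (p + 1) c, π (p + 1) c'⟫_ℂ = 0 :=
    fun p hp c hc c' hc' => by
      have := h.iso p (by omega) (p + 1) (by omega) c hc c' hc'
      rw [h.weil_typ (by omega) hc', mul_eq_zero, or_iff_right (by simp only [ne_eq, Nat.add_eq_zero_iff, one_ne_zero, and_false, not_false_eq_true, pow_eq_zero_iff, neg_eq_zero]),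
        ← h.typ p (by omega) c hc] at this
      simpa [inner_add_left, h.orth, h.orth p (p + 1 + 1) (by omega)] using this
  have n1 : ‖π 1 c0 + π 2 c1 + π 3 c2‖ ^ 2 = ‖π 0 c0 + π 1 c1 + π 2 c2‖ ^ 2 := by
    have : ⟪π 1 c0 + π 2 c1 + π 3 c2, π 1 c0 + π 2 c1 + π 3 c2⟫_ℂ =
        ⟪π 0 c0 + π 1 c1 + π 2 c2, π 0 c0 + π 1 c1 + π 2 c2⟫_ℂ := by
      have := i1 0 (by omega) c0 h0
      have := i1 1 (by omega) c1 h1
      have := i1 2 (by omega) c2 h2
      simp only [inner_add_left, inner_add_right, h.orth, ne_eq, OfNat.ofNat_ne_one,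
        not_false_eq_true, OfNat.one_ne_ofNat, Nat.reduceEqDiff, one_ne_zero, zero_ne_one,
        OfNat.ofNat_ne_zero, OfNat.zero_ne_ofNat, zero_add, *]
    simp only [inner_self_eq_norm_sq_to_K] at this
    exact_mod_cast this
  have n2 : ⟪π 1 c0 + π 2 c1 + π 3 c2, π 0 c0 + π 1 c1 + π 2 c2⟫_ℂ = 0 := by
    have := i2 0 (by omega) c0 h0 c1 h1
    have := i2 1 (by omega) c1 h1 c2 h2
    simp only [inner_add_left, inner_add_right, h.orth, ne_eq, OfNat.ofNat_ne_one,
      not_false_eq_true, OfNat.one_ne_ofNat, Nat.reduceEqDiff, one_ne_zero,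
      OfNat.ofNat_ne_zero, zero_add, *]
  have e : c0 + c1 + c2 = π 1 c0 + π 2 c1 + π 3 c2 + (π 0 c0 + π 1 c1 + π 2 c2) := by
    conv_lhs => rw [← h.typ 0 (by omega) c0 h0, ← h.typ 1 (by omega) c1 h1,
      ← h.typ 2 (by omega) c2 h2]
    abel
  have n3 := norm_add_sq_eq_norm_sq_add_norm_sq_of_inner_eq_zero _ _ n2
  rw [← e, ← sq, ← sq, ← sq] at n3
  refine ⟨_, _, e, by linarith only [n1, n3], by linarith, fun x hx => ?_, fun a ha => ?_⟩
  · have a0 := mem_Hm.1 hx 0 (by omega) c0 h0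
    have a1 := mem_Hm.1 hx 1 (by omega) c1 h1
    have a2 := mem_Hm.1 hx 2 (by omega) c2 h2
    simp only [inner_add_left, a0.1, a0.2, a1.1, a1.2, a2.1, a2.2, add_zero, and_self]
  · have a0 := h.theta_perp ha (by omega) h0
    have a1 := h.theta_perp ha (by omega) h1
    have a2 := h.theta_perp ha (by omega) h2
    simp only [inner_add_left, a0.1, a0.2, a1.1, a1.2, a2.1, a2.2, add_zero, and_self]

omit h in
lemma half {x : H} (hx : ∀ b ∈ B 0 ⊔ B 1 ⊔ B 2, ∃ c : H, 2 * ‖c‖ ^ 2 = ‖b‖ ^ 2 ∧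
    ⟪b, x⟫_ℂ = ⟪c, x⟫_ℂ ∧ ∀ y ∈ Hm π B, ⟪c, y⟫_ℂ = 0) :
    2 * ‖(B 0 ⊔ B 1 ⊔ B 2).topologicalClosure.starProjection x‖ ^ 2 ≤
      ‖x‖ ^ 2 - ‖(Hm π B).starProjection x‖ ^ 2 := by
  set K := (B 0 ⊔ B 1 ⊔ B 2).topologicalClosure
  set y := x - (Hm π B).starProjection x with hy
  have e1 : ‖y‖ ^ 2 = ‖x‖ ^ 2 - ‖(Hm π B).starProjection x‖ ^ 2 := by
    have := Submodule.norm_sq_eq_add_norm_sq_starProjection x (Hm π B)
    rw [Submodule.starProjection_orthogonal_val] at this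
    linarith only [this]
  have s2 : (√2) ^ 2 = 2 := Real.sq_sqrt (by norm_num)
  have s0 : 0 < √2 := by positivity
  have e2 := closure_bound (x := x) (c := ‖y‖ / √2) (fun b hb => by
    obtain ⟨c, c1, c2, c3⟩ := hx b hb
    have : ‖b‖ = √2 * ‖c‖ := by
      refine (pow_left_inj₀ (norm_nonneg _) (by positivity) two_ne_zero).1 ?_
      rw [mul_pow, s2, c1]
    rw [c2, show ⟪c, x⟫_ℂ = ⟪c, y⟫_ℂ by
      rw [hy, inner_sub_right, c3 _ (Submodule.starProjection_apply_mem _ _), sub_zero], this]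
    refine (norm_inner_le_norm _ _).trans (le_of_eq ?_)
    field_simp) _ (K.starProjection_apply_mem x)
  have e3 : ⟪K.starProjection x, x⟫_ℂ = ⟪K.starProjection x, K.starProjection x⟫_ℂ := by
    rw [← sub_eq_zero, ← inner_sub_right, inner_eq_zero_symm]
    exact K.starProjection_inner_eq_zero x _ (K.starProjection_apply_mem x)
  rw [e3, inner_self_eq_norm_sq_to_K, norm_pow, RCLike.norm_ofReal, abs_norm] at e2
  rw [← e1]
  rcases (norm_nonneg (K.starProjection x)).eq_or_lt with h0 | h0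
  · rw [← h0]; simp
  · have e4 : ‖K.starProjection x‖ ≤ ‖y‖ / √2 := le_of_mul_le_mul_right (by rw [← sq]; exact e2) h0
    have := pow_le_pow_left₀ h0.le e4 2
    rw [div_pow, s2] at this
    linarith only [this]

lemma half_sum {a : H} (ha : a ∈ Hm π B) :
    2 * (‖(B 0 ⊔ B 1 ⊔ B 2).topologicalClosure.starProjection (θ a)‖ ^ 2 +
      ‖(B 0 ⊔ B 1 ⊔ B 2).topologicalClosure.starProjection (adjoint θ a)‖ ^ 2) ≤
      ‖θ a‖ ^ 2 + ‖adjoint θ a‖ ^ 2 - curv π θ B a := by
  have h1 := half (π := π) (B := B) (x := θ a) fun b hb => by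
    obtain ⟨b1, b2, e, -, n2, p1, p2⟩ := h.split hb
    exact ⟨b2, n2, by rw [e, inner_add_left, (p2 a ha).1, zero_add], fun y hy => (p1 y hy).2⟩
  have h2 := half (π := π) (B := B) (x := adjoint θ a) fun b hb => by
    obtain ⟨b1, b2, e, n1, -, p1, p2⟩ := h.split hb
    exact ⟨b1, n1, by rw [e, inner_add_left, (p2 a ha).2, add_zero], fun y hy => (p1 y hy).1⟩
  unfold curv
  linarith

/-- the improved Cauchy-Schwarz inequality -/
lemma grad {a : H} (ha : a ∈ Hm π B) : 64 * ‖⟪a, θ a⟫_ℂ‖ ^ 2 ≤ 25 * ‖a‖ ^ 2 * curv π θ B a := by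
  set u := (Hm π B).starProjection (θ a)
  set v := (Hm π B).starProjection (adjoint θ a)
  have pr : ∀ x ∈ Hm π B, ∀ y, ⟪x, y⟫_ℂ = ⟪x, (Hm π B).starProjection y⟫_ℂ := fun x hx y => by
    rw [← sub_eq_zero, ← inner_sub_right, inner_eq_zero_symm]
    exact (Hm π B).starProjection_inner_eq_zero y x hx
  have m : ∀ p < 3, ‖⟪π p a, θ a⟫_ℂ‖ ≤ ‖π p a‖ * ‖π p u‖ ∧
      ‖⟪π p a, θ a⟫_ℂ‖ ≤ ‖π (p + 1) a‖ * ‖π (p + 1) v‖ := fun p hp => by
    constructor
    · rw [pr _ (h.pi_mem ha _), h.inner_pi (by omega)]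
      exact norm_inner_le_norm _ _
    · rw [h.adj (by omega), ← h.shift p hp, ← adjoint_inner_left, norm_inner_symm,
        pr _ (h.pi_mem ha _), h.inner_pi (by omega)]
      exact norm_inner_le_norm _ _
  have e : ⟪a, θ a⟫_ℂ = ⟪π 0 a, θ a⟫_ℂ + ⟪π 1 a, θ a⟫_ℂ + ⟪π 2 a, θ a⟫_ℂ := by
    conv_lhs => rw [← h.sum (θ a), h.shift3, add_zero, inner_add_right, inner_add_right]
    rw [h.adj (p := 0) (by omega), h.adj (p := 1) (by omega), h.adj (p := 2) (by omega)]
  have m0 := m 0 (by omega)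
  have m1 := m 1 (by omega)
  have m2 := m 2 (by omega)
  have b : 8 * ‖⟪a, θ a⟫_ℂ‖ ≤ ∑ i : Fin 6, ![5 * ‖π 0 a‖, 3 * ‖π 1 a‖, 4 * ‖π 1 a‖, 4 * ‖π 2 a‖,
      3 * ‖π 2 a‖, 5 * ‖π 3 a‖] i * ![‖π 0 u‖, ‖π 1 v‖, ‖π 1 u‖, ‖π 2 v‖, ‖π 2 u‖, ‖π 3 v‖] i := by
    have := norm_add₃_le (a := ⟪π 0 a, θ a⟫_ℂ) (b := ⟪π 1 a, θ a⟫_ℂ) (c := ⟪π 2 a, θ a⟫_ℂ)
    rw [e]
    simp only [Fin.sum_univ_succ, Matrix.cons_val_zero, Matrix.cons_val_succ, Fin.sum_univ_zero,
      zero_add, Nat.reduceAdd] at *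
    linarith [m0.1, m0.2, m1.1, m1.2, m2.1, m2.2]
  have c := (pow_le_pow_left₀ (by positivity) b 2).trans (Finset.sum_mul_sq_le_sq_mul_sq _ _ _)
  simp only [Fin.sum_univ_succ, Matrix.cons_val_zero, Matrix.cons_val_succ, Fin.sum_univ_zero] at c
  have n1 := h.norm_sq a
  have n2 := h.norm_sq u
  have n3 := h.norm_sq v
  refine le_trans (le_of_eq (by ring)) (c.trans (mul_le_mul (le_of_eq (by linarith only [n1])) ?_
    (by positivity) (by positivity)))
  unfold curv
  linarith only [sq_nonneg ‖π 3 u‖, sq_nonneg ‖π 0 v‖, n2, n3]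

/-- second order lower bound for the quotient norm -/
theorem jet {a : H} (ha : a ∈ Hm π B) {G : ℂ → H →L[ℂ] H} (S S' : H →L[ℂ] H)
    (hsa : ∀ᶠ t in 𝓝 (0 : ℂ), ∀ x y, ⟪G t x, y⟫_ℂ = ⟪x, G t y⟫_ℂ)
    (hG : ∀ ε > (0 : ℝ), ∀ᶠ t in 𝓝 (0 : ℂ), ‖G t - (1 - (2 * t) • θ - (2 * conj t) • adjoint θ +
      (2 * (t * conj t)) • (θ * adjoint θ + adjoint θ * θ) + t ^ 2 • S + conj t ^ 2 • S')‖ ≤
        ε * ‖t‖ ^ 2)
    {F : ℂ → ℝ} {z : ℂ} (h0 : F z = ‖a‖ ^ 2) (hF : ∀ᶠ t in 𝓝 (0 : ℂ), ∀ m : ℝ,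
      (∀ b ∈ B 0 ⊔ B 1 ⊔ B 2, m ≤ (⟪a + b, G t (a + b)⟫_ℂ).re) → m ≤ F (z + t)) :
    Jet F z (-4 * ⟪a, θ a⟫_ℂ) (2 * curv π θ B a) := by
  set K := (B 0 ⊔ B 1 ⊔ B 2).topologicalClosure with hK
  set x := K.starProjection (θ a) with hx
  set y := K.starProjection (adjoint θ a) with hy
  set A := θ * adjoint θ + adjoint θ * θ with hA
  refine ⟨⟪a, S a⟫_ℂ + conj ⟪a, S' a⟫_ℂ - 8 * conj ⟪x, y⟫_ℂ, fun ε hε => ?_⟩
  let T : ℂ → H →L[ℂ] H := fun t => 1 - (2 * t) • θ - (2 * conj t) • adjoint θ +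
    (2 * (t * conj t)) • A + t ^ 2 • S + conj t ^ 2 • S'
  let ν : ℂ → ℝ := fun t => ‖t‖ ^ 2 + ‖T t - 1‖
  have hν : Continuous ν := by fun_prop
  set D := ‖x‖ + ‖y‖ with hD
  set E := ‖a‖ + 2 * ‖A a‖ + ‖S a‖ + ‖S' a‖ with hE
  have t1 : ∀ᶠ t in 𝓝 (0 : ℂ), ν t < 1 / 2 :=
    (hν.tendsto' 0 0 (by simp only [ν, T, norm_zero, ne_eq, OfNat.ofNat_ne_zero, not_false_eq_true, zero_pow, mul_zero, zero_smul, sub_zero, map_zero, add_zero, sub_self])).eventually (gt_mem_nhds (by norm_num))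
  have t2 : ∀ᶠ t in 𝓝 (0 : ℂ),
      4 * D * E * ‖t‖ + E ^ 2 * ‖t‖ ^ 2 + 2 * ν t * (2 * D + E * ‖t‖) ^ 2 < ε / 2 :=
    ((by fun_prop : Continuous fun t : ℂ => 4 * D * E * ‖t‖ + E ^ 2 * ‖t‖ ^ 2 +
      2 * ν t * (2 * D + E * ‖t‖) ^ 2).tendsto' 0 0 (by simp only [norm_zero, mul_zero, ne_eq, OfNat.ofNat_ne_zero, not_false_eq_true, zero_pow, add_zero, ν, T, zero_smul, sub_zero, map_zero, sub_self, zero_mul])).eventually
      (gt_mem_nhds (by positivity))
  filter_upwards [hsa, hG 1 one_pos, hG (ε / 2 / (‖a‖ ^ 2 + 1)) (by positivity), hF, t1, t2]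
    with t s1 s2 s3 s4 s5 s6
  change ‖G t - T t‖ ≤ _ at s2 s3
  have hν0 : 0 ≤ ν t := by positivity
  have g1 : ‖G t - 1‖ ≤ ν t := by
    have := norm_add_le (G t - T t) (T t - 1)
    rw [sub_add_sub_cancel] at this
    simp only [ν]; linarith only [s2, this]
  have hT : T t a = a - (2 * t) • θ a - (2 * conj t) • adjoint θ a + (2 * (t * conj t)) • A a +
      t ^ 2 • S a + conj t ^ 2 • S' a := rfl
  set w := (G t - T t) a + ((2 * (t * conj t)) • A a + t ^ 2 • S a + conj t ^ 2 • S' a) with hw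
  have hGa : G t a = a - (2 : ℂ) • (t • θ a + conj t • adjoint θ a) + w := by
    rw [hw, sub_apply, hT, smul_add, smul_smul, smul_smul]; abel
  have g2 : ‖w‖ ≤ E * ‖t‖ ^ 2 := by
    have b1 := ((G t - T t).le_opNorm a).trans (mul_le_mul_of_nonneg_right s2 (norm_nonneg a))
    have b2 := norm_add₃_le (a := (2 * (t * conj t)) • A a) (b := t ^ 2 • S a)
      (c := conj t ^ 2 • S' a)
    simp only [norm_smul, norm_mul, norm_pow, RCLike.norm_conj, norm_ofNat] at b2
    refine (norm_add_le _ _).trans ?_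
    rw [hE]
    linarith only [b1, b2]
  set q := ‖t • x + conj t • y‖ with hq
  have g3 : q ≤ D * ‖t‖ := by
    refine (norm_add_le _ _).trans (le_of_eq ?_)
    simp only [norm_smul, RCLike.norm_conj, hD]; ring
  have g4 : q ^ 2 = ‖t‖ ^ 2 * (‖x‖ ^ 2 + ‖y‖ ^ 2) + 2 * (conj ⟪x, y⟫_ℂ * t ^ 2).re := by
    rw [hq, @norm_add_sq ℂ, inner_smul_left, inner_smul_right, ← conj_re (_ * t ^ 2)]
    simp only [norm_smul, RCLike.norm_conj, map_mul, map_pow, conj_conj, RCLike.re_to_complex]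
    rw [show conj t * (conj t * ⟪x, y⟫_ℂ) = ⟪x, y⟫_ℂ * conj t ^ 2 by ring]
    ring
  have g5 : ‖a‖ ^ 2 + (-4 * ⟪a, θ a⟫_ℂ * t).re + ((⟪a, S a⟫_ℂ + conj ⟪a, S' a⟫_ℂ) * t ^ 2).re +
      2 * ‖t‖ ^ 2 * (‖θ a‖ ^ 2 + ‖adjoint θ a‖ ^ 2) - ε / 2 * ‖t‖ ^ 2 ≤ (⟪a, G t a⟫_ℂ).re := by
    have b1 : ‖⟪a, (G t - T t) a⟫_ℂ‖ ≤ ε / 2 * ‖t‖ ^ 2 := by
      refine (norm_inner_le_norm _ _).trans ((mul_le_mul_of_nonneg_left
        (((G t - T t).le_opNorm a).trans (mul_le_mul_of_nonneg_right s3 (norm_nonneg a)))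
        (norm_nonneg a)).trans ?_)
      calc _ = ε / 2 / (‖a‖ ^ 2 + 1) * ‖t‖ ^ 2 * ‖a‖ ^ 2 := by ring
        _ ≤ ε / 2 / (‖a‖ ^ 2 + 1) * ‖t‖ ^ 2 * (‖a‖ ^ 2 + 1) :=
          mul_le_mul_of_nonneg_left (le_add_of_nonneg_right zero_le_one) (by positivity)
        _ = _ := by field_simp
    have b2 := (abs_le.1 ((abs_re_le_norm _).trans b1)).1
    have b3 : ⟪a, A a⟫_ℂ = (‖θ a‖ ^ 2 + ‖adjoint θ a‖ ^ 2 : ℝ) := by
      rw [show A a = θ (adjoint θ a) + adjoint θ (θ a) from rfl, inner_add_right, adjoint_inner_right,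
        ← adjoint_inner_left, inner_self_eq_norm_sq_to_K, inner_self_eq_norm_sq_to_K]
      push_cast
      exact add_comm _ _
    have b4 : ⟪a, adjoint θ a⟫_ℂ = conj ⟪a, θ a⟫_ℂ := by rw [adjoint_inner_right, inner_conj_symm]
    have b5 : ⟪a, T t a⟫_ℂ = (‖a‖ ^ 2 + 2 * ‖t‖ ^ 2 * (‖θ a‖ ^ 2 + ‖adjoint θ a‖ ^ 2) : ℝ) -
        2 * (⟪a, θ a⟫_ℂ * t) - conj (2 * (⟪a, θ a⟫_ℂ * t)) + ⟪a, S a⟫_ℂ * t ^ 2 +
          conj (conj ⟪a, S' a⟫_ℂ * t ^ 2) := by
      simp only [hT, inner_add_right, inner_sub_right, inner_smul_right, b3, b4, mul_conj',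
        inner_self_eq_norm_sq_to_K, map_mul, map_pow, conj_conj, map_ofNat]
      push_cast
      simp only [coe_algebraMap]
      ring
    rw [sub_apply, inner_sub_right, sub_re, b5] at b2
    simp only [add_re, sub_re, conj_re, ofReal_re] at b2
    rw [add_mul, add_re, show -4 * ⟪a, θ a⟫_ℂ * t = -(2 * (⟪a, θ a⟫_ℂ * t)) -
      2 * (⟪a, θ a⟫_ℂ * t) by ring, sub_re, neg_re]
    linarith only [b2]
  refine s4 _ fun b hb => ?_
  have hbK : b ∈ K := Submodule.le_topologicalClosure _ hb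
  have c1 : ‖⟪b, G t a⟫_ℂ‖ ≤ ‖b‖ * (2 * q + ‖w‖) := by
    have pr : ∀ v, ⟪b, v⟫_ℂ = ⟪b, K.starProjection v⟫_ℂ := fun v => by
      rw [← sub_eq_zero, ← inner_sub_right, inner_eq_zero_symm]
      exact K.starProjection_inner_eq_zero v b hbK
    have : ⟪b, G t a⟫_ℂ = ⟪b, w - (2 : ℂ) • (t • x + conj t • y)⟫_ℂ := by
      simp only [hGa, inner_add_right, inner_sub_right, inner_smul_right, h.perp ha hbK,
        pr (θ a), pr (adjoint θ a), ← hx, ← hy]
      ring
    rw [this]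
    refine (norm_inner_le_norm _ _).trans (mul_le_mul_of_nonneg_left
      ((norm_sub_le _ _).trans (le_of_eq ?_)) (norm_nonneg _))
    rw [norm_smul, norm_ofNat, add_comm]
  have c2 : (1 - ν t) * ‖b‖ ^ 2 ≤ (⟪b, G t b⟫_ℂ).re := by
    have b1 := (norm_inner_le_norm (𝕜 := ℂ) b ((G t - 1) b)).trans (mul_le_mul_of_nonneg_left
      (((G t - 1).le_opNorm b).trans (mul_le_mul_of_nonneg_right g1 (norm_nonneg b)))
      (norm_nonneg b))
    have b2 := (abs_le.1 ((abs_re_le_norm _).trans b1)).1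
    rw [show (G t - 1) b = G t b - b from rfl, inner_sub_right, sub_re,
      show (⟪b, b⟫_ℂ).re = ‖b‖ ^ 2 from inner_self_eq_norm_sq (𝕜 := ℂ) b] at b2
    linarith only [b2]
  have c3 : (⟪a + b, G t (a + b)⟫_ℂ).re =
      (⟪a, G t a⟫_ℂ).re + 2 * (⟪b, G t a⟫_ℂ).re + (⟪b, G t b⟫_ℂ).re := by
    rw [map_add, inner_add_left, inner_add_right, inner_add_right, ← s1 a b,
      ← inner_conj_symm (G t a) b]
    simp only [add_re, conj_re]
    ring
  have c4 := (abs_le.1 ((abs_re_le_norm _).trans c1)).1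
  have q0 : 0 ≤ q := norm_nonneg _
  have w0 := norm_nonneg w
  have c5 : 0 ≤ (1 - ν t) * ‖b‖ ^ 2 - 2 * (‖b‖ * (2 * q + ‖w‖)) +
      (1 + 2 * ν t) * (2 * q + ‖w‖) ^ 2 := by
    refine nonneg_of_mul_nonneg_right (a := 1 + 2 * ν t) (le_of_le_of_eq (add_nonneg
      (sq_nonneg ((1 + 2 * ν t) * (2 * q + ‖w‖) - ‖b‖))
      (mul_nonneg (mul_nonneg hν0 (show 0 ≤ 1 - 2 * ν t by linarith only [s5])) (sq_nonneg ‖b‖))) ?_)
      (by positivity)
    ring
  have c6 : (1 + 2 * ν t) * (2 * q + ‖w‖) ^ 2 ≤ 4 * q ^ 2 + ε / 2 * ‖t‖ ^ 2 := by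
    have b1 : (2 * q + ‖w‖) ^ 2 ≤ ((2 * D + E * ‖t‖) * ‖t‖) ^ 2 :=
      pow_le_pow_left₀ (by positivity) (by linarith only [g2, g3]) 2
    have b2 := mul_le_mul_of_nonneg_left b1 hν0
    have b3 : q * ‖w‖ ≤ D * ‖t‖ * (E * ‖t‖ ^ 2) := mul_le_mul g3 g2 w0 (by positivity)
    have b4 := pow_le_pow_left₀ w0 g2 2
    have b5 := mul_le_mul_of_nonneg_right s6.le (sq_nonneg ‖t‖)
    linarith only [b2, b3, b4, b5]
  have c7 : ‖t‖ ^ 2 * (2 * (‖x‖ ^ 2 + ‖y‖ ^ 2)) ≤ _ :=
    mul_le_mul_of_nonneg_left (h.half_sum ha) (sq_nonneg ‖t‖)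
  rw [h0, c3, sub_mul, sub_re, mul_assoc 8, show (8 : ℂ) = (8 : ℝ) by norm_num, re_ofReal_mul]
  linarith only [g4, g5, c2, c4, c5, c6, c7]

/-- the form used by `submean_comp` -/
theorem jet' {a : H} (ha : a ∈ Hm π B) {F : ℂ → ℝ} {z : ℂ} (h0 : F z = ‖a‖ ^ 2) :
    0 ≤ 2 * curv π θ B a ∧ 8 * ‖-4 * ⟪a, θ a⟫_ℂ‖ ^ 2 ≤ 25 * F z * (2 * curv π θ B a) := by
  have := h.grad ha
  refine ⟨by unfold curv; positivity, ?_⟩
  rw [norm_mul, norm_neg, norm_ofNat, h0]
  linarith

end Vhs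

end Pool.Agent.MP_596265_gt.V18

end

section

/-! Wirtinger derivatives and the model free rows of block R. -/

namespace Pool.Agent.MP_596265_gt.U.RD

open Complex Metric MeasureTheory Set

/-- The derivative in `w`. -/
noncomputable def dz (f : ℂ → ℂ) (w : ℂ) : ℂ := (fderiv ℝ f w 1 - I * fderiv ℝ f w I) / 2

/-- The derivative in the conjugate of `w`. -/
noncomputable def db (f : ℂ → ℂ) (w : ℂ) : ℂ := (fderiv ℝ f w 1 + I * fderiv ℝ f w I) / 2

/-- Lipschitz test functions with compact support in `U`. -/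
def Test (U : Set ℂ) (ψ : ℂ → ℂ) : Prop :=
  (∃ K, LipschitzWith K ψ) ∧ HasCompactSupport ψ ∧ tsupport ψ ⊆ U

/-- Weyl's lemma. -/
def WEYL_s : Prop := ∀ (U : Set ℂ) (φ : ℂ → ℂ), IsOpen U → LocallyIntegrableOn φ U →
  (∀ ψ, Test U ψ → ∫ w in U, φ w * db ψ w = 0) →
  ∃ G, DifferentiableOn ℂ G U ∧ ∀ᵐ w ∂volume.restrict U, φ w = G w

/-- Weak equals strong. -/
def WS_s : Prop := ∀ (U : Set ℂ) (g h u v : ℂ → ℂ), IsOpen U →
  MemLp g 2 (volume.restrict U) → MemLp h 2 (volume.restrict U) →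
  MemLp u 2 (volume.restrict U) → MemLp v 2 (volume.restrict U) →
  (∀ ψ, Test U ψ → ∫ w in U, (g w * db ψ w + h w * ψ w) = 0) →
  (∀ ψ, Test U ψ → ∫ w in U, (u w * ψ w + v w * db ψ w) = 0) →
  ∀ χ, Test U χ → ∫ w in U, (u w * (g w * χ w) + v w * (h w * χ w + g w * db χ w)) = 0

/-- Second order invariance of the pairing of a holomorphic function with a test function under
a map close to the identity. -/
def MD_s : Prop := ∀ (c : ℂ) (r : ℝ), 0 < r → ∀ χ : ℂ → ℂ, ContDiff ℝ 2 χ →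
  tsupport χ ⊆ ball c r → ∃ C : ℝ, ∀ (φ Θ : ℂ → ℂ) (η M : ℝ), 0 ≤ η → η ≤ r / 2 →
    DifferentiableOn ℂ φ (ball c (2 * r)) → IntegrableOn φ (ball c (2 * r)) →
    ∫ w in ball c (2 * r), ‖φ w‖ ≤ M → (∃ K, LipschitzOnWith K Θ (ball c r)) →
    (∀ w ∈ ball c r, ‖Θ w - w‖ ≤ η) → (∀ᵐ w ∂volume.restrict (ball c r), ‖dz Θ w - 1‖ ≤ η) →
    ‖(∫ w in ball c r, φ (Θ w) * dz Θ w * (χ w + (Θ w - w) * dz χ w)) -
      ∫ w in ball c r, φ w * χ w‖ ≤ C * M * η ^ 2

/-- A family of continuous functions whose pairings with test functions have derivative zero is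
constant. -/
def MC_s : Prop := ∀ (z c : ℂ) (ρ r : ℝ) (φ : ℂ → ℂ → ℂ),
  (∀ t ∈ ball z ρ, ContinuousOn (φ t) (ball c (2 * r))) →
  (∀ χ : ℂ → ℂ, ContDiff ℝ 2 χ → tsupport χ ⊆ ball c r → ∀ t ∈ ball z ρ, ∀ ε > 0,
    ∀ᶠ s in nhds t, ‖(∫ w in ball c r, φ s w * χ w) - ∫ w in ball c r, φ t w * χ w‖ ≤
      ε * ‖s - t‖) →
  ∀ t ∈ ball z ρ, ∀ w ∈ ball c r, φ t w = φ z w

end Pool.Agent.MP_596265_gt.U.RD

end

section

/-! Weak equals strong: the product rule for weak first order derivatives in `L²`. -/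

namespace Pool.Agent.MP_596265_gt.U.RWS

open MeasureTheory Filter Topology Complex Metric
open scoped Convolution

/-- a first order operator with constant coefficients -/
noncomputable def dd (α β : ℂ) (ψ : ℂ → ℂ) (w : ℂ) : ℂ :=
  α * fderiv ℝ ψ w 1 + β * fderiv ℝ ψ w I

lemma corr_cont {a b : ℂ → ℂ} (ha : MemLp a 2 volume) (hb : MemLp b 2 volume) :
    Continuous fun s : ℂ => ∫ x, a x * b (x + s) := by
  let T : C(ℂ × ℂ, ℂ) := ⟨fun p => p.2 + p.1, by fun_prop⟩
  have hT : ∀ s : ℂ, MeasurePreserving (T.curry s) volume volume := fun s =>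
    measurePreserving_add_right volume s
  have h1 := (continuous_const (y := hb.toLp b) (X := ℂ)).compMeasurePreservingLp
    T.curry.continuous hT (by simp)
  have h2 : Continuous fun s : ℂ => inner ℂ (ha.star.toLp (star a))
      (Lp.compMeasurePreserving (T.curry s) (hT s) (hb.toLp b)) := continuous_const.inner h1
  refine h2.congr fun s => ?_
  rw [L2.inner_def]
  refine integral_congr_ae ?_
  filter_upwards [ha.star.coeFn_toLp, Lp.coeFn_compMeasurePreserving (hb.toLp b) (hT s),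
    (hT s).quasiMeasurePreserving.ae_eq_comp hb.coeFn_toLp] with x e1 e2 e3
  rw [e1, e2, e3]
  simp [T, mul_comm]

lemma fub {a b ρ : ℂ → ℂ} (ha : MemLp a 2 volume) (hb : MemLp b 2 volume) (hρ : Integrable ρ) :
    Integrable (fun x => a x * (b ⋆[ContinuousLinearMap.mul ℝ ℂ, volume] ρ) x) ∧
    ∫ x, a x * (b ⋆[ContinuousLinearMap.mul ℝ ℂ, volume] ρ) x =
      ∫ t, ρ t * ∫ x, a x * b (x + (0 - t)) := by
  have a2 := (memLp_two_iff_integrable_sq_norm ha.1).1 ha
  have b2 := (memLp_two_iff_integrable_sq_norm hb.1).1 hb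
  have i1 := a2.mul_prod hρ.norm
  have i2 := hρ.norm.convolution_integrand (ContinuousLinearMap.mul ℝ ℝ) b2
  have m1 := hρ.1.convolution_integrand (ContinuousLinearMap.mul ℝ ℂ) hb.1
  have hI : Integrable (fun p : ℂ × ℂ => a p.1 * (ρ p.2 * b (p.1 - p.2))) (volume.prod volume) := by
    refine (i1.add i2).mono' (ha.1.comp_fst.mul m1) (Eventually.of_forall fun p => ?_)
    simp only [norm_mul, Pi.add_apply, ContinuousLinearMap.mul_apply']
    linarith only [mul_nonneg (norm_nonneg (ρ p.2)) (sq_nonneg (‖a p.1‖ - ‖b (p.1 - p.2)‖)), mul_nonneg (norm_nonneg (ρ p.2)) (sq_nonneg ‖a p.1‖), mul_nonneg (norm_nonneg (ρ p.2)) (sq_nonneg ‖b (p.1 - p.2)‖)]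
  have e : ∀ x, a x * (b ⋆[ContinuousLinearMap.mul ℝ ℂ, volume] ρ) x =
      ∫ t, a x * (ρ t * b (x - t)) := by
    intro x
    rw [convolution_eq_swap, integral_const_mul]
    simp only [ContinuousLinearMap.mul_apply', mul_comm]
  simp only [e]
  refine ⟨hI.integral_prod_left, ?_⟩
  rw [integral_integral_swap hI]
  refine integral_congr_ae (Eventually.of_forall fun t => ?_)
  simp only
  rw [← integral_const_mul]
  refine integral_congr_ae (Eventually.of_forall fun x => ?_)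
  simp only
  rw [zero_sub, ← sub_eq_add_neg]
  ring

lemma dd_cont (α β : ℂ) {χ : ℂ → ℂ} (h : ContDiff ℝ 1 χ) : Continuous (dd α β χ) := by
  have := h.continuous_fderiv one_ne_zero
  unfold dd
  fun_prop

lemma dd_zero (α β : ℂ) {χ : ℂ → ℂ} {w : ℂ} (h : w ∉ tsupport χ) : dd α β χ w = 0 := by
  have : fderiv ℝ χ w = 0 := by
    by_contra h0
    exact h (support_fderiv_subset ℝ h0)
  simp [dd, this]

lemma dd_supp (α β : ℂ) {χ : ℂ → ℂ} (h : HasCompactSupport χ) : HasCompactSupport (dd α β χ) :=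
  HasCompactSupport.intro h fun _ hw => dd_zero α β hw

lemma dd_mul (α β : ℂ) {χ ρ : ℂ → ℂ} {y : ℂ} (hχ : DifferentiableAt ℝ χ y)
    (hρ : ContDiff ℝ 1 ρ) (x : ℂ) :
    dd α β (fun y => χ y * ρ (x - y)) y = dd α β χ y * ρ (x - y) - χ y * dd α β ρ (x - y) := by
  have h1 := hχ.hasFDerivAt
  have h2 := (hρ.differentiable one_ne_zero (x - y)).hasFDerivAt.comp y
    ((hasFDerivAt_id y).const_sub x)
  have h3 := (h1.mul h2).fderiv
  unfold dd
  change α * fderiv ℝ (χ * ρ ∘ HSub.hSub x) y 1 + β * fderiv ℝ (χ * ρ ∘ HSub.hSub x) y I = _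
  rw [h3]
  simp only [ContinuousLinearMap.comp_neg, ContinuousLinearMap.comp_id, smul_neg, Function.comp_apply, add_apply, neg_apply, smul_apply, smul_eq_mul]
  ring

lemma dd_memLp (α β : ℂ) {χ : ℂ → ℂ} {K : NNReal} (h : LipschitzWith K χ)
    (hc : HasCompactSupport χ) (p : ENNReal) : MemLp (dd α β χ) p volume := by
  have m : Measurable (dd α β χ) :=
    ((measurable_fderiv_apply_const ℝ χ 1).const_mul α).add
      ((measurable_fderiv_apply_const ℝ χ I).const_mul β)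
  refine (dd_supp α β hc).memLp_of_bound m.aestronglyMeasurable (‖α‖ * K + ‖β‖ * K)
    (Eventually.of_forall fun w => ?_)
  have h0 := norm_fderiv_le_of_lipschitz ℝ (x₀ := w) h
  have h1 : ‖fderiv ℝ χ w 1‖ ≤ K := by
    simpa only [norm_one, mul_one] using (fderiv ℝ χ w).le_of_opNorm_le h0 1
  have h2 : ‖fderiv ℝ χ w I‖ ≤ K := by
    simpa using (fderiv ℝ χ w).le_of_opNorm_le h0 I
  unfold dd
  refine (norm_add_le _ _).trans ?_
  rw [norm_mul, norm_mul]
  gcongr

lemma lip_mul {f g : ℂ → ℂ} {K L : NNReal} {M N : ℝ} (hf : LipschitzWith K f)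
    (hg : LipschitzWith L g) (hM : ∀ x, ‖f x‖ ≤ M) (hN : ∀ x, ‖g x‖ ≤ N) :
    LipschitzWith ((K : ℝ) * N + M * (L : ℝ)).toNNReal fun x => f x * g x := by
  refine LipschitzWith.of_dist_le' fun x y => ?_
  have h1 := hf.dist_le_mul x y
  have h2 := hg.dist_le_mul x y
  have h3 := (norm_nonneg _).trans (hM y)
  rw [dist_eq_norm] at h1 h2 ⊢
  calc ‖f x * g x - f y * g y‖ = ‖(f x - f y) * g x + f y * (g x - g y)‖ := by ring_nf
    _ ≤ ‖f x - f y‖ * ‖g x‖ + ‖f y‖ * ‖g x - g y‖ := by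
      rw [← norm_mul, ← norm_mul]
      exact norm_add_le _ _
    _ ≤ K * dist x y * N + M * (L * dist x y) := by
      gcongr
      exacts [hN x, hM y]
    _ = (K * N + M * L) * dist x y := by ring

lemma dd_conv (α β : ℂ) {G ρ : ℂ → ℂ} (hG : Integrable G) (hρ : ContDiff ℝ 1 ρ)
    (hc : HasCompactSupport ρ) (x : ℂ) :
    dd α β (G ⋆[ContinuousLinearMap.mul ℝ ℂ, volume] ρ) x = ∫ y, G y * dd α β ρ (x - y) := by
  have h1 := (hc.hasFDerivAt_convolution_right (ContinuousLinearMap.mul ℝ ℂ)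
    hG.locallyIntegrable hρ x).fderiv
  have hd := hρ.continuous_fderiv one_ne_zero
  have h2 := fun v : ℂ => convolution_precompR_apply (ContinuousLinearMap.mul ℝ ℂ)
    hG.locallyIntegrable (hc.fderiv ℝ) hd x v
  have h3 : ∀ v : ℂ, Integrable fun y => G y * fderiv ℝ ρ (x - y) v := fun v =>
    (hc.fderiv_apply ℝ v).convolutionExists_right (ContinuousLinearMap.mul ℝ ℂ)
      hG.locallyIntegrable (by fun_prop) x
  unfold dd
  rw [h1, h2, h2, convolution_def, convolution_def, ← integral_const_mul, ← integral_const_mul]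
  simp only [ContinuousLinearMap.mul_apply']
  rw [← integral_add ((h3 1).const_mul α) ((h3 I).const_mul β)]
  refine integral_congr_ae (Eventually.of_forall fun y => ?_)
  simp only
  ring

/-- the statement for functions that are square integrable on the plane -/
theorem ws0 (α β : ℂ) {U : Set ℂ} (hU : IsOpen U) {g h u v : ℂ → ℂ} (hg : MemLp g 2 volume)
    (hh : MemLp h 2 volume) (hu : MemLp u 2 volume) (hv : MemLp v 2 volume)
    (h1 : ∀ (ψ : ℂ → ℂ) (K : NNReal), LipschitzWith K ψ → HasCompactSupport ψ → tsupport ψ ⊆ U →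
      ∫ w, (g w * dd α β ψ w + h w * ψ w) = 0)
    (h2 : ∀ ψ : ℂ → ℂ, ContDiff ℝ 1 ψ → HasCompactSupport ψ → tsupport ψ ⊆ U →
      ∫ w, (u w * ψ w + v w * dd α β ψ w) = 0)
    {χ : ℂ → ℂ} {K : NNReal} (hχ : LipschitzWith K χ) (hc : HasCompactSupport χ)
    (hs : tsupport χ ⊆ U) :
    ∫ w, (u w * g w * χ w + v w * (h w * χ w + g w * dd α β χ w)) = 0 := by
  have t1 := hχ.continuous.memLp_top_of_hasCompactSupport hc volume
  have t2 := dd_memLp α β hχ hc ⊤
  have t3 : MemLp χ 2 volume := hχ.continuous.memLp_of_hasCompactSupport hc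
  have t4 := dd_memLp α β hχ hc 2
  obtain ⟨M, hM⟩ := hχ.continuous.bounded_above_of_compact_support hc
  have mG : MemLp (fun w => g w * χ w) 2 volume := t1.mul' hg
  have mH : MemLp (fun w => h w * χ w + g w * dd α β χ w) 2 volume :=
    (t1.mul' hh : MemLp (fun w => h w * χ w) 2 volume).add
      (t2.mul' hg : MemLp (fun w => g w * dd α β χ w) 2 volume)
  have iG : Integrable fun w => g w * χ w := hg.integrable_mul t3
  have iH : Integrable fun w => h w * χ w + g w * dd α β χ w :=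
    (hh.integrable_mul t3).add (hg.integrable_mul t4)
  obtain ⟨δ, hδ, hK⟩ := hc.isCompact.exists_cthickening_subset_open hU hs
  have cF := (corr_cont hu mG).add (corr_cont hv mH)
  have key : ∀ φ : ContDiffBump (0 : ℂ), φ.rOut ≤ δ →
      (φ.normed volume ⋆[ContinuousLinearMap.lsmul ℝ ℝ, volume]
        fun s : ℂ => (∫ x, u x * (g (x + s) * χ (x + s))) +
          ∫ x, v x * (h (x + s) * χ (x + s) + g (x + s) * dd α β χ (x + s))) 0 = 0 := by
    intro φ hφ
    obtain ⟨ρ, hρ⟩ : ∃ ρ : ℂ → ℂ, ρ = fun t => ((φ.normed volume t : ℝ) : ℂ) := ⟨_, rfl⟩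
    have r1 : ContDiff ℝ 1 ρ := by
      rw [hρ]
      exact ofRealCLM.contDiff.comp φ.contDiff_normed
    have r2 : HasCompactSupport ρ := by
      rw [hρ]
      exact φ.hasCompactSupport_normed.comp_left (g := fun x : ℝ => (x : ℂ)) ofReal_zero
    have r3 : ∀ t, ρ t ≠ 0 → ‖t‖ < δ := by
      intro t ht
      have : t ∈ Function.support (φ.normed volume) := by
        intro h0
        apply ht
        rw [hρ]
        simp [h0]
      rw [φ.support_normed_eq, mem_ball_zero_iff] at this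
      exact this.trans_le hφ
    have r4 : Integrable ρ := r1.continuous.integrable_of_hasCompactSupport r2
    obtain ⟨L, hL⟩ := ContDiff.lipschitzWith_of_hasCompactSupport r2 r1 one_ne_zero
    obtain ⟨N, hN⟩ := r1.continuous.bounded_above_of_compact_support r2
    have sG : Function.support (fun w => g w * χ w) ⊆ tsupport χ := fun w hw =>
      subset_tsupport _ (right_ne_zero_of_mul hw)
    have s1 : tsupport ((fun w => g w * χ w) ⋆[ContinuousLinearMap.mul ℝ ℂ, volume] ρ) ⊆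
        cthickening δ (tsupport χ) := by
      refine closure_minimal ((support_convolution_subset _).trans ?_) isClosed_cthickening
      rintro _ ⟨y, hy, t, ht, rfl⟩
      refine mem_cthickening_of_dist_le _ y δ _ (sG hy) ?_
      simpa using (r3 t ht).le
    have e1 : ∀ x, dd α β ((fun w => g w * χ w) ⋆[ContinuousLinearMap.mul ℝ ℂ, volume] ρ) x =
        ((fun w => h w * χ w + g w * dd α β χ w) ⋆[ContinuousLinearMap.mul ℝ ℂ, volume] ρ) x := by
      intro x
      have j1 : Integrable fun y => (g y * χ y) * dd α β ρ (x - y) :=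
        (dd_supp α β r2).convolutionExists_right (ContinuousLinearMap.mul ℝ ℂ)
          iG.locallyIntegrable (dd_cont α β r1) x
      have j2 : Integrable fun y => (h y * χ y + g y * dd α β χ y) * ρ (x - y) :=
        r2.convolutionExists_right (ContinuousLinearMap.mul ℝ ℂ)
          iH.locallyIntegrable r1.continuous x
      have j0 : LipschitzWith L fun y => ρ (x - y) := LipschitzWith.of_dist_le_mul fun a b => by
        simpa only [dist_sub_left] using hL.dist_le_mul (x - a) (x - b)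
      have j3 := h1 (fun y => χ y * ρ (x - y)) _ (lip_mul hχ j0 hM fun y => hN _) hc.mul_right
        ((tsupport_mul_subset_left (f := χ) (g := fun y => ρ (x - y))).trans hs)
      rw [dd_conv α β iG r1 r2, convolution_def, ← sub_eq_zero, ← neg_eq_zero, neg_sub]
      simp only [ContinuousLinearMap.mul_apply']
      rw [← integral_sub j2 j1, ← j3]
      refine integral_congr_ae ?_
      filter_upwards [hχ.ae_differentiableAt (μ := volume)] with y hy
      rw [dd_mul α β hy r1]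
      ring
    have e2 := h2 _ (r2.contDiff_convolution_right (ContinuousLinearMap.mul ℝ ℂ) (n := 1)
      iG.locallyIntegrable r1)
      ((hc.isCompact.cthickening (r := δ)).of_isClosed_subset (isClosed_tsupport _) s1)
      (s1.trans hK)
    obtain ⟨f1, f2⟩ := fub hu mG r4
    obtain ⟨f3, f4⟩ := fub hv mH r4
    simp only [e1] at e2
    rw [integral_add f1 f3, f2, f4] at e2
    have k1 : Integrable fun t => ρ t * ∫ x, u x * (g (x + (0 - t)) * χ (x + (0 - t))) :=
      (r1.continuous.mul ((corr_cont hu mG).comp (by fun_prop))).integrable_of_hasCompactSupport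
        r2.mul_right
    have k2 : Integrable fun t => ρ t * ∫ x, v x * (h (x + (0 - t)) * χ (x + (0 - t)) +
        g (x + (0 - t)) * dd α β χ (x + (0 - t))) :=
      (r1.continuous.mul ((corr_cont hv mH).comp (by fun_prop))).integrable_of_hasCompactSupport
        r2.mul_right
    rw [← integral_add k1 k2] at e2
    rw [convolution_def]
    refine Eq.trans ?_ e2
    refine integral_congr_ae (Eventually.of_forall fun t => ?_)
    simp only [ContinuousLinearMap.lsmul_apply, real_smul, hρ]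
    ring
  let φ : ℕ → ContDiffBump (0 : ℂ) := fun n =>
    ⟨δ / (n + 1) / 2, δ / (n + 1), by positivity, half_lt_self (by positivity)⟩
  have l1 : Tendsto (fun n => (φ n).rOut) atTop (𝓝 0) := by
    have := (tendsto_one_div_add_atTop_nhds_zero_nat (𝕜 := ℝ)).const_mul δ
    simpa only [div_eq_mul_inv, φ, one_mul, mul_zero] using this
  have l2 := ContDiffBump.convolution_tendsto_right_of_continuous (μ := volume) l1 cF 0
  have l3 := tendsto_nhds_unique l2 (tendsto_const_nhds.congr fun n => (key (φ n)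
    (div_le_self hδ.le (by have := n.cast_nonneg (α := ℝ); linarith))).symm)
  simp only [Pi.add_apply, add_zero] at l3
  refine Eq.trans ?_ ((integral_add (hu.integrable_mul mG) (hv.integrable_mul mH)).trans l3)
  refine integral_congr_ae (Eventually.of_forall fun w => ?_)
  simp only [Pi.mul_apply]
  ring

/-- the statement on an open set, for any constant coefficients -/
theorem ws1 (α β : ℂ) {U : Set ℂ} (hU : IsOpen U) {g h u v : ℂ → ℂ}
    (hg : MemLp g 2 (volume.restrict U)) (hh : MemLp h 2 (volume.restrict U))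
    (hu : MemLp u 2 (volume.restrict U)) (hv : MemLp v 2 (volume.restrict U))
    (h1 : ∀ (ψ : ℂ → ℂ) (K : NNReal), LipschitzWith K ψ → HasCompactSupport ψ → tsupport ψ ⊆ U →
      ∫ w in U, (g w * dd α β ψ w + h w * ψ w) = 0)
    (h2 : ∀ ψ : ℂ → ℂ, ContDiff ℝ 1 ψ → HasCompactSupport ψ → tsupport ψ ⊆ U →
      ∫ w in U, (u w * ψ w + v w * dd α β ψ w) = 0)
    {χ : ℂ → ℂ} {K : NNReal} (hχ : LipschitzWith K χ) (hc : HasCompactSupport χ)
    (hs : tsupport χ ⊆ U) :
    ∫ w in U, (u w * g w * χ w + v w * (h w * χ w + g w * dd α β χ w)) = 0 := by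
  have m := hU.measurableSet
  have := ws0 α β hU ((memLp_indicator_iff_restrict m).2 hg) ((memLp_indicator_iff_restrict m).2 hh)
    ((memLp_indicator_iff_restrict m).2 hu) ((memLp_indicator_iff_restrict m).2 hv)
    (fun ψ L a b c => by
      rw [← h1 ψ L a b c, ← integral_indicator m]
      refine integral_congr_ae (Eventually.of_forall fun w => ?_)
      by_cases hw : w ∈ U <;> simp [hw])
    (fun ψ a b c => by
      rw [← h2 ψ a b c, ← integral_indicator m]
      refine integral_congr_ae (Eventually.of_forall fun w => ?_)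
      by_cases hw : w ∈ U <;> simp [hw]) hχ hc hs
  rw [← this, ← integral_indicator m]
  refine integral_congr_ae (Eventually.of_forall fun w => ?_)
  by_cases hw : w ∈ U <;> simp [hw]

lemma dd_bar (ψ : ℂ → ℂ) (w : ℂ) :
    dd (1 / 2) (I / 2) ψ w = (fderiv ℝ ψ w 1 + I * fderiv ℝ ψ w I) / 2 := by
  unfold dd
  ring

/-- weak equals strong for the Cauchy-Riemann operator and Lipschitz test functions -/
theorem ws {U : Set ℂ} (hU : IsOpen U) {g h u v : ℂ → ℂ}
    (hg : MemLp g 2 (volume.restrict U)) (hh : MemLp h 2 (volume.restrict U))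
    (hu : MemLp u 2 (volume.restrict U)) (hv : MemLp v 2 (volume.restrict U))
    (h1 : ∀ (ψ : ℂ → ℂ) (K : NNReal), LipschitzWith K ψ → HasCompactSupport ψ → tsupport ψ ⊆ U →
      ∫ w in U, (g w * ((fderiv ℝ ψ w 1 + I * fderiv ℝ ψ w I) / 2) + h w * ψ w) = 0)
    (h2 : ∀ (ψ : ℂ → ℂ) (K : NNReal), LipschitzWith K ψ → HasCompactSupport ψ → tsupport ψ ⊆ U →
      ∫ w in U, (u w * ψ w + v w * ((fderiv ℝ ψ w 1 + I * fderiv ℝ ψ w I) / 2)) = 0)
    {χ : ℂ → ℂ} {K : NNReal} (hχ : LipschitzWith K χ) (hc : HasCompactSupport χ)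
    (hs : tsupport χ ⊆ U) :
    ∫ w in U, (u w * g w * χ w +
      v w * (h w * χ w + g w * ((fderiv ℝ χ w 1 + I * fderiv ℝ χ w I) / 2))) = 0 := by
  simp only [← dd_bar] at h1 h2 ⊢
  refine ws1 _ _ hU hg hh hu hv h1 (fun ψ a b c => ?_) hχ hc hs
  obtain ⟨L, hL⟩ := ContDiff.lipschitzWith_of_hasCompactSupport b a one_ne_zero
  exact h2 ψ L hL b c

end Pool.Agent.MP_596265_gt.U.RWS

namespace Pool.Agent.MP_596265_gt.U.RD

/-- Weak equals strong. -/
theorem ws : WS_s := by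
  intro U g h u v hU hg hh hu hv h1 h2 χ hχ
  obtain ⟨⟨K, hK⟩, hc, hs⟩ := hχ
  have := RWS.ws hU hg hh hu hv (fun ψ L a b c => h1 ψ ⟨⟨L, a⟩, b, c⟩)
    (fun ψ L a b c => h2 ψ ⟨⟨L, a⟩, b, c⟩) hK hc hs
  simpa only [db, mul_assoc] using this

end Pool.Agent.MP_596265_gt.U.RD

end

section

/-! Weyl's lemma. -/

open MeasureTheory Complex Metric Set Filter Topology
open scoped ContDiff

namespace Pool.Agent.MP_596265_gt.U.RD

namespace Wy

/-- `∂/∂w̄` of a function of one complex variable. -/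
noncomputable def dbar (φ : ℂ → ℂ) (w : ℂ) : ℂ := (fderiv ℝ φ w 1 + I * fderiv ℝ φ w I) / 2

lemma dbar_congr {φ ψ : ℂ → ℂ} {w : ℂ} (h : φ =ᶠ[𝓝 w] ψ) : dbar φ w = dbar ψ w := by
  simp only [dbar, h.fderiv_eq]

lemma dbar_const (a w : ℂ) : dbar (fun _ => a) w = 0 := by simp [dbar]

lemma dbar_mul {φ ψ : ℂ → ℂ} {w : ℂ} (hφ : DifferentiableAt ℝ φ w) (hψ : DifferentiableAt ℝ ψ w) :
    dbar (fun z => φ z * ψ z) w = dbar φ w * ψ w + φ w * dbar ψ w := by
  simp only [dbar, fderiv_fun_mul hφ hψ, add_apply, smul_apply, smul_eq_mul]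
  ring

lemma dbar_sub {φ ψ : ℂ → ℂ} {w : ℂ} (hφ : DifferentiableAt ℝ φ w) (hψ : DifferentiableAt ℝ ψ w) :
    dbar (fun z => φ z - ψ z) w = dbar φ w - dbar ψ w := by
  simp only [dbar, fderiv_fun_sub hφ hψ, sub_apply]
  ring

lemma dbar_holo {φ : ℂ → ℂ} {w : ℂ} (hφ : DifferentiableAt ℂ φ w) : dbar φ w = 0 := by
  have h := (hφ.hasDerivAt.hasFDerivAt.restrictScalars ℝ).fderiv
  simp only [dbar, h]
  simp only [ContinuousLinearMap.coe_restrictScalars', ContinuousLinearMap.toSpanSingleton_apply, smul_eq_mul, one_mul, div_eq_zero_iff, OfNat.ofNat_ne_zero, or_false]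
  ring_nf
  simp

lemma dbar_of_notMem {φ : ℂ → ℂ} {w : ℂ} (h : w ∉ tsupport φ) : dbar φ w = 0 := by
  rw [dbar_congr (notMem_tsupport_iff_eventuallyEq.1 h)]
  exact dbar_const 0 w

lemma continuous_dbar {φ : ℂ → ℂ} (h : ContDiff ℝ 1 φ) : Continuous (dbar φ) := by
  have := h.continuous_fderiv one_ne_zero
  unfold dbar
  fun_prop

/-- profile of the radial cut-off -/
noncomputable def chi (s : ℝ) : ℝ := Real.smoothTransition (2 - 2 * s)

lemma chi_smooth {n : ℕ∞} : ContDiff ℝ n chi := by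
  unfold chi
  exact Real.smoothTransition.contDiff.comp (by fun_prop)

lemma chi_one {s : ℝ} (h : s ≤ 1 / 2) : chi s = 1 :=
  Real.smoothTransition.one_of_one_le (by linarith)

lemma chi_zero {s : ℝ} (h : 1 ≤ s) : chi s = 0 :=
  Real.smoothTransition.zero_of_nonpos (by linarith)

lemma chi_anti : Antitone chi := fun _ _ h =>
  Real.smoothTransition.monotone (by linarith)

lemma dchi_cont : Continuous (deriv chi) := (chi_smooth (n := 1)).continuous_deriv le_rfl

lemma dchi_lo {s : ℝ} (h : s < 1 / 2) : deriv chi s = 0 := by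
  have : chi =ᶠ[𝓝 s] fun _ => 1 := by
    filter_upwards [Iio_mem_nhds h] with t ht using chi_one (le_of_lt ht)
  rw [this.deriv_eq]; simp

lemma dchi_hi {s : ℝ} (h : 1 < s) : deriv chi s = 0 := by
  have : chi =ᶠ[𝓝 s] fun _ => 0 := by
    filter_upwards [Ioi_mem_nhds h] with t ht using chi_zero (le_of_lt ht)
  rw [this.deriv_eq]; simp

lemma dchi_bdd : ∃ C, 0 ≤ C ∧ ∀ s, |deriv chi s| ≤ C := by
  obtain ⟨C, hC⟩ := (isCompact_Icc (a := (0 : ℝ)) (b := 1)).exists_bound_of_continuousOn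
    dchi_cont.continuousOn
  have h0 : 0 ≤ C := (norm_nonneg _).trans (hC 0 (by simp only [mem_Icc, Std.le_refl, zero_le_one, and_self]))
  refine ⟨C, h0, fun s => ?_⟩
  rcases lt_or_ge s 0 with h | h
  · rw [dchi_lo (by linarith)]; simpa only [abs_zero] using h0
  rcases lt_or_ge 1 s with h' | h'
  · rw [dchi_hi h']; simpa using h0
  exact hC s ⟨h, h'⟩

/-- radial cut-off: `1` for `|w-c|² ≤ δ²/2`, `0` for `|w-c| ≥ δ` -/
noncomputable def cut (c : ℂ) (δ : ℝ) (w : ℂ) : ℂ := (chi (‖w - c‖ ^ 2 / δ ^ 2) : ℝ)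

lemma cut_smooth (c : ℂ) (δ : ℝ) {n : ℕ∞} : ContDiff ℝ n (cut c δ) := by
  unfold cut
  refine ofRealCLM.contDiff.comp (chi_smooth.comp (ContDiff.div_const ?_ _))
  exact ContDiff.norm_sq ℝ (by fun_prop)

lemma cut_one {c w : ℂ} {δ : ℝ} (hδ : 0 < δ) (h : ‖w - c‖ ≤ δ / 2) : cut c δ w = 1 := by
  rw [cut, chi_one, ofReal_one]
  rw [div_le_iff₀ (by positivity)]
  nlinarith only [norm_nonneg (w - c), h]

lemma cut_zero {c w : ℂ} {δ : ℝ} (hδ : 0 < δ) (h : δ ≤ ‖w - c‖) : cut c δ w = 0 := by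
  rw [cut, chi_zero, ofReal_zero]
  rw [le_div_iff₀ (by positivity)]
  nlinarith only [hδ, h]

lemma tsupport_cut {c : ℂ} {δ : ℝ} (hδ : 0 < δ) : tsupport (cut c δ) ⊆ closedBall c δ := by
  refine closure_minimal (fun w hw => ?_) isClosed_closedBall
  by_contra h
  rw [mem_closedBall, dist_eq_norm] at h
  exact hw (cut_zero hδ (not_le.1 h).le)

lemma dbar_cut (c w : ℂ) (δ : ℝ) :
    dbar (cut c δ) w = (deriv chi (‖w - c‖ ^ 2 / δ ^ 2) / δ ^ 2 : ℝ) * (w - c) := by
  have h1 : HasFDerivAt (fun z : ℂ => z - c) (ContinuousLinearMap.id ℝ ℂ) w :=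
    (hasFDerivAt_id w).sub_const c
  have h2 := (h1.norm_sq).mul_const ((δ ^ 2)⁻¹)
  have h3 : HasDerivAt chi (deriv chi (‖w - c‖ ^ 2 * (δ ^ 2)⁻¹)) (‖w - c‖ ^ 2 * (δ ^ 2)⁻¹) :=
    ((chi_smooth (n := 1)).differentiable one_ne_zero _).hasDerivAt
  have h4 := ofRealCLM.hasFDerivAt.comp w (h3.comp_hasFDerivAt w h2)
  have h5 : cut c δ = ofRealCLM ∘ chi ∘ fun z : ℂ => ‖z - c‖ ^ 2 * (δ ^ 2)⁻¹ := by
    funext z; simp [cut, div_eq_mul_inv]
  rw [dbar, h5, h4.fderiv]
  simp [div_eq_mul_inv, Complex.inner]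
  have := re_add_im (w - c)
  simp only [sub_re, sub_im, ofReal_sub] at this
  rw [← this]
  ring

/-- the reproducing kernel `-χ'(|z|²)` -/
noncomputable def ker (z : ℂ) : ℝ := -deriv chi (‖z‖ ^ 2)

lemma ker_cont : Continuous ker := by
  have := dchi_cont
  unfold ker
  fun_prop

lemma ker_zero {z : ℂ} (h : 1 < ‖z‖) : ker z = 0 := by
  rw [ker, dchi_hi (by nlinarith only [h]), neg_zero]

lemma ker_int_pos : 0 < ∫ z, ker z := by
  obtain ⟨s, hs, hd⟩ := exists_deriv_eq_slope chi (show (0 : ℝ) < 1 by norm_num)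
    (chi_smooth (n := 0)).continuous.continuousOn
    ((chi_smooth (n := 1)).differentiable one_ne_zero).differentiableOn
  rw [chi_zero le_rfl, chi_one (by norm_num)] at hd
  refine ker_cont.integral_pos_of_hasCompactSupport_nonneg_nonzero (x := (√s : ℝ)) ?_ ?_ ?_
  · refine HasCompactSupport.intro (isCompact_closedBall 0 1) fun z hz => ker_zero ?_
    simpa only [mem_closedBall, dist_zero_right, not_le] using hz
  · exact fun z => neg_nonneg.2 chi_anti.deriv_nonpos
  · simp [ker, Real.sq_sqrt hs.1.le, hd]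

lemma ker_scale (c : ℂ) {δ : ℝ} (hδ : 0 < δ) :
    ∫ w, ker (δ⁻¹ • (w - c)) / δ ^ 2 = ∫ z, ker z := by
  rw [integral_div, integral_sub_right_eq_self (fun w => ker (δ⁻¹ • w)) c,
    Measure.integral_comp_inv_smul_of_nonneg _ _ hδ.le]
  simp only [finrank_real_complex, smul_eq_mul]
  field_simp

lemma ker_eq (c w : ℂ) {δ : ℝ} (hδ : 0 < δ) :
    ker (δ⁻¹ • (w - c)) = -deriv chi (‖w - c‖ ^ 2 / δ ^ 2) := by
  rw [ker, norm_smul, mul_pow, norm_inv, Real.norm_of_nonneg hδ.le, div_eq_inv_mul, inv_pow]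

/-- Lebesgue points: the kernel averages converge almost everywhere. -/
lemma ker_tendsto {q : ℂ → ℂ} (hq : LocallyIntegrable q) : ∀ᵐ c : ℂ,
    Tendsto (fun δ : ℝ => ∫ w, (ker (δ⁻¹ • (w - c)) / δ ^ 2 / ∫ z, ker z) • q w) (𝓝[>] 0)
      (𝓝 (q c)) := by
  obtain ⟨C, hC0, hC⟩ := dchi_bdd
  have hκ := ker_int_pos
  filter_upwards [(Besicovitch.vitaliFamily volume).ae_tendsto_average_norm_sub hq] with c h
  have := h.comp (Besicovitch.tendsto_filterAt volume c)
  apply tendsto_integral_smul_of_tendsto_average_norm_sub (C * Real.pi / ∫ z, ker z) this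
  · filter_upwards with i using hq.integrableOn_isCompact (isCompact_closedBall _ _)
  · refine tendsto_const_nhds.congr' ?_
    filter_upwards [self_mem_nhdsWithin] with δ (hδ : 0 < δ)
    rw [integral_div, ker_scale c hδ, div_self hκ.ne']
  · filter_upwards [self_mem_nhdsWithin] with δ (hδ : 0 < δ) w hw
    by_contra hn
    rw [mem_closedBall, dist_eq_norm, not_le] at hn
    refine hw ?_
    beta_reduce
    rw [ker_zero, zero_div, zero_div]
    rw [norm_smul, norm_inv, Real.norm_of_nonneg hδ.le, lt_inv_mul_iff₀ hδ]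
    simpa using hn
  · filter_upwards [self_mem_nhdsWithin] with δ (hδ : 0 < δ) w
    have hv : volume.real (closedBall c δ) = δ ^ 2 * Real.pi := by
      simp [Measure.real, Complex.volume_closedBall, hδ.le]
    rw [hv, abs_div, abs_div, abs_of_pos hκ, abs_of_pos (by positivity : 0 < δ ^ 2), ker_eq c w hδ,
      abs_neg]
    have := Real.pi_pos
    calc _ ≤ C / δ ^ 2 / ∫ z, ker z := by gcongr; exact hC _
      _ = _ := by field_simp

/-- the Cauchy transform of an integrable function vanishing on a disc is holomorphic there -/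
lemma cauchy_holo {g : ℂ → ℂ} (hg : Integrable g) {c : ℂ} {r : ℝ}
    (h0 : ∀ w ∈ ball c r, g w = 0) :
    DifferentiableOn ℂ (fun z => ∫ w, g w * (w - z)⁻¹) (ball c r) := by
  intro z hz
  rw [mem_ball, dist_eq_norm] at hz
  set d := (r - ‖z - c‖) / 2 with hd
  have hd0 : 0 < d := by rw [hd]; linarith
  have key : ∀ w, g w ≠ 0 → ∀ x ∈ ball z d, d ≤ ‖w - x‖ := by
    intro w hw x hx
    have h1 : r ≤ ‖w - c‖ := by
      by_contra h
      exact hw (h0 w (by rw [mem_ball, dist_eq_norm]; exact not_le.1 h))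
    rw [mem_ball, dist_eq_norm] at hx
    have h2 : ‖w - c‖ ≤ ‖w - x‖ + ‖x - z‖ + ‖z - c‖ := by
      calc ‖w - c‖ = ‖(w - x) + (x - z) + (z - c)‖ := by congr 1; ring
        _ ≤ _ := norm_add₃_le
    linarith only [hd, hx, h1, h2]
  have hm : ∀ x : ℂ, ∀ n : ℕ, AEStronglyMeasurable (fun w => g w * (w - x)⁻¹ ^ n) volume :=
    fun x n => hg.1.mul (Measurable.aestronglyMeasurable (by fun_prop))
  have hb : ∀ n : ℕ, ∀ w, ∀ x ∈ ball z d, ‖g w * (w - x)⁻¹ ^ n‖ ≤ ‖g w‖ * d⁻¹ ^ n := by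
    intro n w x hx
    by_cases hw : g w = 0
    · simp [hw]
    · rw [norm_mul, norm_pow, norm_inv]
      have := key w hw x hx
      gcongr
  refine (hasDerivAt_integral_of_dominated_loc_of_deriv_le (F := fun x w => g w * (w - x)⁻¹)
    (F' := fun x w => g w * (w - x)⁻¹ ^ 2) (bound := fun w => ‖g w‖ * d⁻¹ ^ 2)
    (ball_mem_nhds z hd0) (Eventually.of_forall fun x => by simpa using hm x 1) ?_ (hm z 2)
    (ae_of_all _ (hb 2)) (hg.norm.mul_const _)
    (ae_of_all _ fun w x hx => ?_)).2.differentiableAt.differentiableWithinAt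
  · refine (hg.norm.mul_const (d⁻¹ ^ 1)).mono' (by simpa using hm z 1) (ae_of_all _ fun w => ?_)
    simpa only [Complex.norm_mul, norm_inv, pow_one] using hb 1 w z (mem_ball_self hd0)
  · by_cases hw : g w = 0
    · simpa [hw] using hasDerivAt_const x (0 : ℂ)
    · have h1 : w - x ≠ 0 := norm_pos_iff.1 (hd0.trans_le (key w hw x hx))
      have := (((hasDerivAt_id x).const_sub w).inv h1).const_mul (g w)
      refine this.congr_deriv ?_
      simp only [id, neg_neg, one_div, inv_pow]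

/-- local Weyl lemma -/
lemma weyl_ball {q : ℂ → ℂ} (hq : Integrable q) {c : ℂ} {R : ℝ} (hR : 0 < R)
    (h : ∀ φ : ℂ → ℂ, ContDiff ℝ ∞ φ → tsupport φ ⊆ closedBall c R → ∫ w, q w * dbar φ w = 0) :
    ∃ Q, DifferentiableOn ℂ Q (ball c (R / 2)) ∧ ∀ᵐ w, w ∈ ball c (R / 2) → q w = Q w := by
  obtain ⟨C, hC0, hC⟩ := dchi_bdd
  have hκ := ker_int_pos
  set g : ℂ → ℂ := fun w => q w * dbar (cut c R) w with hg
  have hd0 : ∀ w ∈ ball c (R / 2), dbar (cut c R) w = 0 := by
    intro w hw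
    rw [mem_ball, dist_eq_norm] at hw
    rw [dbar_cut, dchi_lo]
    · simp
    · rw [div_lt_iff₀ (by positivity)]
      nlinarith only [norm_nonneg (w - c), hw]
  have hgi : Integrable g := by
    refine hq.mul_bdd (c := C / R ^ 2 * R)
      (continuous_dbar (cut_smooth c R (n := 1))).aestronglyMeasurable (ae_of_all _ fun w => ?_)
    by_cases hw : w ∈ closedBall c R
    · rw [mem_closedBall, dist_eq_norm] at hw
      rw [dbar_cut, norm_mul, norm_real, Real.norm_eq_abs, abs_div, abs_of_pos (pow_pos hR 2)]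
      gcongr
      exact hC _
    · rw [dbar_of_notMem fun h' => hw (tsupport_cut hR h'), norm_zero]
      positivity
  have hg0 : ∀ w ∈ ball c (R / 2), g w = 0 := fun w hw => by simp [hg, hd0 w hw]
  refine ⟨fun z => -((∫ z, ker z : ℝ) : ℂ)⁻¹ * ∫ w, g w * (w - z)⁻¹,
    (cauchy_holo hgi hg0).const_mul _, ?_⟩
  filter_upwards [ker_tendsto hq.locallyIntegrable] with z hz hzb
  refine tendsto_nhds_unique hz (tendsto_const_nhds.congr' ?_)
  have hzb' := hzb
  rw [mem_ball, dist_eq_norm] at hzb'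
  have hρ : 0 < R / 2 - ‖z - c‖ := by linarith
  filter_upwards [Ioo_mem_nhdsGT hρ] with δ ⟨hδ, hδρ⟩
  have tri : ∀ w, ‖w - c‖ ≤ ‖w - z‖ + ‖z - c‖ := fun w => by
    simpa only [sub_add_sub_cancel] using norm_add_le (w - z) (z - c)
  set φ : ℂ → ℂ := fun w => (cut c R w - cut z δ w) * (w - z)⁻¹ with hφ
  have hs : ContDiff ℝ ∞ φ := by
    refine contDiff_iff_contDiffAt.2 fun w => ?_
    by_cases hw : w = z
    · refine (contDiffAt_const (c := (0 : ℂ))).congr_of_eventuallyEq ?_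
      filter_upwards [hw ▸ closedBall_mem_nhds z (half_pos hδ)] with x hx
      rw [mem_closedBall, dist_eq_norm, hw] at hx
      simp only [hφ]
      rw [cut_one hR (by linarith only [tri x, hδ, hδρ, hx]), cut_one hδ hx, sub_self, zero_mul]
    · exact ((cut_smooth c R).sub (cut_smooth z δ)).contDiffAt.mul
        ((contDiffAt_id.sub contDiffAt_const).inv (sub_ne_zero.2 hw))
  have ht : tsupport φ ⊆ closedBall c R := by
    refine closure_minimal (fun w hw => ?_) isClosed_closedBall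
    by_contra hn
    rw [mem_closedBall, dist_eq_norm, not_le] at hn
    refine hw ?_
    simp only [hφ]
    rw [cut_zero hR hn.le, cut_zero hδ (by linarith only [tri w, hR, hδρ, hn]), sub_self, zero_mul]
  have hk : Integrable fun w => ((ker (δ⁻¹ • (w - z)) / δ ^ 2 : ℝ) : ℂ) * q w := by
    have := ker_cont
    refine hq.bdd_mul (c := C / δ ^ 2) (Continuous.aestronglyMeasurable (by fun_prop))
      (ae_of_all _ fun w => ?_)
    rw [norm_real, Real.norm_eq_abs, abs_div, abs_of_pos (pow_pos hδ 2), ker_eq z w hδ, abs_neg]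
    gcongr
    exact hC _
  have hc : Integrable fun w => g w * (w - z)⁻¹ := by
    refine (hgi.norm.mul_const δ⁻¹).mono'
      (hgi.1.mul (Measurable.aestronglyMeasurable (by fun_prop))) (ae_of_all _ fun w => ?_)
    by_cases hw : w ∈ ball c (R / 2)
    · simp [hg0 w hw]
    · rw [mem_ball, dist_eq_norm, not_lt] at hw
      rw [norm_mul, norm_inv]
      gcongr
      linarith only [tri w, hδρ, hw]
  have he : ∀ w, w ≠ z → q w * dbar φ w =
      g w * (w - z)⁻¹ + ((ker (δ⁻¹ • (w - z)) / δ ^ 2 : ℝ) : ℂ) * q w := by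
    intro w hw
    have hw' := sub_ne_zero.2 hw
    have d1 := (cut_smooth c R (n := 1)).differentiable one_ne_zero w
    have d2 := (cut_smooth z δ (n := 1)).differentiable one_ne_zero w
    have d3 : DifferentiableAt ℂ (fun x : ℂ => (x - z)⁻¹) w := by fun_prop (disch := assumption)
    rw [hφ, dbar_mul (d1.fun_sub d2) (d3.restrictScalars ℝ), dbar_holo d3, dbar_sub d1 d2,
      dbar_cut z, ker_eq z w hδ]
    simp only [hg]
    push_cast
    field_simp
    ring
  have h0 := h φ hs ht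
  rw [integral_congr_ae (g := fun w => g w * (w - z)⁻¹ +
    ((ker (δ⁻¹ • (w - z)) / δ ^ 2 : ℝ) : ℂ) * q w) (by
      filter_upwards [(countable_singleton z).ae_notMem volume] with w hw using he w hw),
    integral_add hc hk] at h0
  rw [eq_neg_of_add_eq_zero_left h0, neg_mul_neg, ← integral_const_mul]
  refine integral_congr_ae (ae_of_all _ fun w => ?_)
  simp only [real_smul]
  push_cast
  ring

/-- **Weyl's lemma** for `∂̄` (smooth tests). -/
theorem weyl {U : Set ℂ} (hU : IsOpen U) {q : ℂ → ℂ} (hq : LocallyIntegrableOn q U)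
    (h : ∀ φ : ℂ → ℂ, ContDiff ℝ ∞ φ → HasCompactSupport φ → tsupport φ ⊆ U →
      ∫ w, q w * dbar φ w = 0) :
    ∃ Q, DifferentiableOn ℂ Q U ∧ ∀ᵐ w, w ∈ U → q w = Q w := by
  have loc : ∀ c ∈ U, ∃ r > 0, ball c r ⊆ U ∧ ∃ Q, DifferentiableOn ℂ Q (ball c r) ∧
      ∀ᵐ w, w ∈ ball c r → q w = Q w := by
    intro c hc
    obtain ⟨R, hR, hRU⟩ := nhds_basis_closedBall.mem_iff.1 (hU.mem_nhds hc)
    have hi : Integrable ((closedBall c R).indicator q) :=
      (integrable_indicator_iff measurableSet_closedBall).2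
        (hq.integrableOn_compact_subset hRU (isCompact_closedBall c R))
    have hb : ball c (R / 2) ⊆ closedBall c R :=
      (ball_subset_ball (by linarith)).trans ball_subset_closedBall
    obtain ⟨Q, hQ, hae⟩ := weyl_ball hi hR fun φ h1 h2 => by
      rw [← h φ h1 ((isCompact_closedBall c R).of_isClosed_subset (isClosed_tsupport φ) h2)
        (h2.trans hRU)]
      refine integral_congr_ae (ae_of_all _ fun w => ?_)
      by_cases hw : w ∈ closedBall c R
      · simp [hw]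
      · simp [dbar_of_notMem fun h' => hw (h2 h')]
    refine ⟨R / 2, half_pos hR, hb.trans hRU, Q, hQ, ?_⟩
    filter_upwards [hae] with w hw hwb
    rw [← hw hwb, indicator_of_mem (hb hwb)]
  choose! r hr hrU Q hQ hae using loc
  have glue : ∀ c ∈ U, ∀ w ∈ ball c (r c), Q w w = Q c w := by
    intro c hc w hw
    have hwU := hrU c hc hw
    refine Measure.eqOn_open_of_ae_eq (μ := volume) (U := ball w (r w) ∩ ball c (r c)) ?_
      (isOpen_ball.inter isOpen_ball) ((hQ w hwU).continuousOn.mono inter_subset_left)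
      ((hQ c hc).continuousOn.mono inter_subset_right) ⟨mem_ball_self (hr w hwU), hw⟩
    refine (ae_restrict_iff' (isOpen_ball.inter isOpen_ball).measurableSet).2 ?_
    filter_upwards [hae w hwU, hae c hc] with x h1 h2 hx
    rw [← h1 hx.1, h2 hx.2]
  refine ⟨fun w => Q w w, fun c hc => ?_, ?_⟩
  · have hb := ball_mem_nhds c (hr c hc)
    refine (((hQ c hc).differentiableAt hb).congr_of_eventuallyEq ?_).differentiableWithinAt
    filter_upwards [hb] with w hw using glue c hc w hw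
  · rw [ae_iff]
    refine measure_null_of_locally_null _ fun c hc => ?_
    have hcU : c ∈ U := by
      by_contra hn
      exact hc fun h => absurd h hn
    refine ⟨{a | ¬(a ∈ U → q a = Q a a)} ∩ ball c (r c),
      inter_mem_nhdsWithin _ (ball_mem_nhds c (hr c hcU)), ?_⟩
    refine measure_mono_null ?_ (ae_iff.1 (hae c hcU))
    rintro w ⟨h1, h2⟩ h3
    exact h1 fun _ => by rw [glue c hcU w h2]; exact h3 h2

end Wy

theorem weyl : WEYL_s := by
  intro U φ hU hφ h
  obtain ⟨Q, hQ, hae⟩ := Wy.weyl hU hφ fun ψ h1 h2 h3 => by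
    obtain ⟨K, hK⟩ := h1.lipschitzWith_of_hasCompactSupport h2 (by simp)
    rw [← h ψ ⟨⟨K, hK⟩, h2, h3⟩]
    refine (setIntegral_eq_integral_of_forall_compl_eq_zero fun w hw => ?_).symm
    have : Wy.dbar ψ w = 0 := Wy.dbar_of_notMem fun h' => hw (h3 h')
    rw [this, mul_zero]
  exact ⟨Q, hQ, (ae_restrict_iff' hU.measurableSet).2 hae⟩

end Pool.Agent.MP_596265_gt.U.RD

end

section

/-! A continuous family whose pairings with test functions have derivative zero is constant. -/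

namespace Pool.Agent.MP_596265_gt.U.RD

open Complex Metric MeasureTheory Set

namespace MC

theorem const {z : ℂ} {ρ : ℝ} {m : ℂ → ℂ}
    (h : ∀ t ∈ ball z ρ, ∀ ε > 0, ∀ᶠ s in nhds t, ‖m s - m t‖ ≤ ε * ‖s - t‖) {t : ℂ}
    (ht : t ∈ ball z ρ) : m t = m z := by
  have hd : ∀ x ∈ ball z ρ, HasFDerivWithinAt m (0 : ℂ →L[ℝ] ℂ) (ball z ρ) x := fun x hx => by
    refine HasFDerivAt.hasFDerivWithinAt ?_
    rw [hasFDerivAt_iff_isLittleO, Asymptotics.isLittleO_iff]
    intro ε hε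
    simpa only [zero_apply, sub_zero] using h x hx ε hε
  have := (convex_ball z ρ).norm_image_sub_le_of_norm_hasFDerivWithin_le (C := 0) hd
    (fun _ _ => by simp) (mem_ball_self (pos_of_mem_ball ht)) ht
  simpa [sub_eq_zero] using this

theorem zero {c : ℂ} {r : ℝ} {f g : ℂ → ℂ} (hr : 0 < r) (hf : ContinuousOn f (ball c (2 * r)))
    (hg : ContinuousOn g (ball c (2 * r)))
    (h : ∀ χ : ℂ → ℂ, ContDiff ℝ 2 χ → tsupport χ ⊆ ball c r →
      ∫ w in ball c r, f w * χ w = ∫ w in ball c r, g w * χ w) : EqOn f g (ball c r) := by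
  have s1 : closedBall c r ⊆ ball c (2 * r) := closedBall_subset_ball (by linarith)
  have s2 : ball c r ⊆ ball c (2 * r) := ball_subset_closedBall.trans s1
  have hi : ∀ {f χ : ℂ → ℂ}, ContinuousOn f (ball c (2 * r)) → Continuous χ →
      IntegrableOn (fun w => f w * χ w) (ball c r) := fun hf hχ =>
    (((hf.mono s1).mul hχ.continuousOn).integrableOn_compact (isCompact_closedBall c r)).mono_set
      ball_subset_closedBall
  have := isOpen_ball.ae_eq_zero_of_integral_contDiff_smul_eq_zero (μ := volume)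
    (((hf.sub hg).mono s2).locallyIntegrableOn measurableSet_ball) fun k hk _ hs => by
      have h2 : ContDiff ℝ 2 fun w => (k w : ℂ) :=
        ofRealCLM.contDiff.comp (contDiff_infty.1 hk 2)
      have h3 := h _ h2 ((tsupport_comp_subset (g := fun x : ℝ => (x : ℂ)) ofReal_zero k).trans hs)
      rw [← sub_eq_zero, ← integral_sub (hi hf h2.continuous) (hi hg h2.continuous)] at h3
      rw [← setIntegral_eq_integral_of_forall_compl_eq_zero (s := ball c r) fun x hx => by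
        rw [image_eq_zero_of_notMem_tsupport fun h => hx (hs h), zero_smul], ← h3]
      congr 1
      ext w
      simp only [Pi.sub_apply, real_smul]
      ring
  refine Measure.eqOn_open_of_ae_eq (μ := volume) ?_ isOpen_ball (hf.mono s2) (hg.mono s2)
  rw [Filter.EventuallyEq, ae_restrict_iff' measurableSet_ball]
  filter_upwards [this] with w hw hb
  exact sub_eq_zero.1 (hw hb)

end MC

theorem mc : MC_s := fun z _ _ _ φ hc h t ht _ hw =>
  MC.zero (pos_of_mem_ball hw) (hc t ht) (hc z (mem_ball_self (pos_of_mem_ball ht)))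
    (fun χ h1 h2 => MC.const (m := fun s => ∫ w in ball _ _, φ s w * χ w) (h χ h1 h2) ht) hw

end Pool.Agent.MP_596265_gt.U.RD

end

section

/-! Second order invariance of the pairing with a test function. -/

namespace Pool.Agent.MP_596265_gt.U.RD

open Complex Metric MeasureTheory Set

namespace MD

open Filter
open scoped Real NNReal

lemma dz_meas (f : ℂ → ℂ) : Measurable (dz f) :=
  ((measurable_fderiv_apply_const ℝ f (1 : ℂ)).sub
    ((measurable_fderiv_apply_const ℝ f I).const_mul I)).div_const 2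

lemma fd_zero {f : ℂ → ℂ} {w : ℂ} (h : w ∉ tsupport f) : fderiv ℝ f w = 0 := by
  by_contra h0
  exact h (support_fderiv_subset ℝ h0)

lemma int_fd {f : ℂ → ℂ} {K : ℝ≥0} (hf : LipschitzWith K f) (hc : HasCompactSupport f) (v : ℂ) :
    Integrable fun w => fderiv ℝ f w v := by
  refine (integrableOn_iff_integrable_of_support_subset (s := tsupport f) fun w hw => ?_).1 ?_
  · by_contra h
    simp [fd_zero h] at hw
  · refine Measure.integrableOn_of_bounded (M := K * ‖v‖) hc.isCompact.measure_lt_top.ne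
      (measurable_fderiv_apply_const ℝ f v).aestronglyMeasurable (Eventually.of_forall fun w => ?_)
    exact (ContinuousLinearMap.le_opNorm _ _).trans
      (mul_le_mul_of_nonneg_right (norm_fderiv_le_of_lipschitz ℝ hf) (norm_nonneg _))

lemma intZ {f : ℂ → ℂ} {K : ℝ≥0} (hf : LipschitzWith K f) (hc : HasCompactSupport f) :
    Integrable (dz f) ∧ ∫ w, dz f w = 0 := by
  have i1 := int_fd hf hc 1
  have i2 := (int_fd hf hc I).const_mul I
  refine ⟨(i1.sub i2).div_const 2, ?_⟩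
  obtain ⟨L, hL⟩ : ∃ L : ℂ →L[ℝ] ℂ, L = I • (conjCLE : ℂ →L[ℝ] ℂ) := ⟨_, rfl⟩
  have h := Lip.S0 (μ := volume) (ContinuousLinearMap.mul ℝ ℂ) hf hc L.lipschitz 1 I
  have l1 : ∀ x v : ℂ, lineDeriv ℝ L x v = L v := fun x v =>
    (L.hasFDerivAt.hasLineDerivAt v).lineDeriv
  have e1 : L I = 1 := by simp [hL]
  have e2 : L 1 = I := by simp [hL]
  simp only [l1, e1, e2, ContinuousLinearMap.mul_apply', mul_one] at h
  have a1 : ∫ x, lineDeriv ℝ f x 1 = ∫ x, fderiv ℝ f x 1 := integral_congr_ae (by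
    filter_upwards [hf.ae_differentiableAt (μ := volume)] with x hx using hx.lineDeriv_eq_fderiv)
  have a2 : ∫ x, lineDeriv ℝ f x I * I = ∫ x, I * fderiv ℝ f x I := integral_congr_ae (by
    filter_upwards [hf.ae_differentiableAt (μ := volume)] with x hx
    rw [hx.lineDeriv_eq_fderiv, mul_comm])
  unfold dz
  rw [integral_div, integral_sub i1 i2, ← a1, ← a2, h, sub_self, zero_div]

lemma circ {f : ℂ → ℂ} {a : ℂ} {ρ : ℝ} (hρ : 0 < ρ) (hf : DifferentiableOn ℂ f (closedBall a ρ)) :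
    ENNReal.ofReal (2 * π * ‖f a‖) ≤
      ∫⁻ θ in Ioo (-π) π, ENNReal.ofReal ‖f (circleMap a ρ θ)‖ := by
  have hpi := Real.pi_pos
  have hcont : Continuous fun θ => f (circleMap a ρ θ) :=
    hf.continuousOn.comp_continuous (continuous_circleMap a ρ) fun θ =>
      circleMap_mem_closedBall a hρ.le θ
  have h2 : DiffContOnCl ℂ f (ball a |ρ|) := by
    rw [abs_of_pos hρ]
    refine DifferentiableOn.diffContOnCl ?_
    rwa [closure_ball a hρ.ne']
  have hav := h2.circleAverage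
  rw [Real.circleAverage_eq_integral_add (-π), intervalIntegral.integral_comp_add_right
    (fun θ => f (circleMap a ρ θ)), zero_add, show 2 * π + -π = π by ring] at hav
  rw [← ofReal_integral_eq_lintegral_ofReal
    ((hcont.norm.integrableOn_Icc (a := -π) (b := π)).mono_set Ioo_subset_Icc_self)
    (Eventually.of_forall fun θ => norm_nonneg _), ← integral_Ioc_eq_integral_Ioo,
    ← intervalIntegral.integral_of_le (by linarith only [hpi]), ← hav, norm_smul, Real.norm_eq_abs,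
    abs_of_pos (by positivity), mul_inv_cancel_left₀ (by positivity)]
  exact ENNReal.ofReal_le_ofReal (intervalIntegral.norm_integral_le_integral_norm (by linarith only [hpi]))

/-- Area mean value inequality. -/
lemma mean {f : ℂ → ℂ} {a : ℂ} {R : ℝ} (hR : 0 < R) (hf : DifferentiableOn ℂ f (ball a R))
    (hi : IntegrableOn f (ball a R)) : ‖f a‖ * (π * R ^ 2) ≤ ∫ w in ball a R, ‖f w‖ := by
  classical
  have hpi := Real.pi_pos
  have hG : Measurable ((ball a R).indicator fun u => ENNReal.ofReal ‖f u‖) := by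
    rw [← piecewise_eq_indicator]
    exact (ENNReal.continuous_ofReal.comp_continuousOn hf.continuousOn.norm).measurable_piecewise
      continuousOn_const isOpen_ball.measurableSet
  have hsymm : ∀ p : ℝ × ℝ, Complex.polarCoord.symm p + a = circleMap a p.1 p.2 := by
    intro p
    rw [Complex.polarCoord_symm_apply, circleMap, Complex.exp_mul_I, add_comm]
    simp
  have hm : Measurable fun p : ℝ × ℝ => ENNReal.ofReal p.1 *
      (ball a R).indicator (fun u => ENNReal.ofReal ‖f u‖) (circleMap a p.1 p.2) := by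
    refine measurable_fst.ennreal_ofReal.mul (hG.comp ?_)
    unfold circleMap
    fun_prop
  rw [← ENNReal.ofReal_le_ofReal_iff (integral_nonneg fun _ => norm_nonneg _),
    ofReal_integral_eq_lintegral_ofReal hi.norm (Eventually.of_forall fun _ => norm_nonneg _),
    ← lintegral_indicator isOpen_ball.measurableSet, ← lintegral_add_right_eq_self _ a,
    ← Complex.lintegral_comp_polarCoord_symm]
  simp only [hsymm, smul_eq_mul]
  rw [polarCoord_target, Measure.volume_eq_prod, ← Measure.prod_restrict,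
    lintegral_prod _ hm.aemeasurable]
  have h1 : ENNReal.ofReal (‖f a‖ * (π * R ^ 2)) =
      ∫⁻ ρ in Ioo 0 R, ENNReal.ofReal (ρ * (2 * π * ‖f a‖)) := by
    rw [← ofReal_integral_eq_lintegral_ofReal, ← integral_Ioc_eq_integral_Ioo,
      ← intervalIntegral.integral_of_le hR.le, intervalIntegral.integral_mul_const, integral_id]
    · congr 1
      ring
    · exact (Continuous.integrableOn_Icc (a := 0) (b := R) (by fun_prop)).mono_set
        Ioo_subset_Icc_self
    · filter_upwards [ae_restrict_mem measurableSet_Ioo] with ρ hρ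
      have := hρ.1
      positivity
  rw [h1]
  refine le_trans (setLIntegral_mono' measurableSet_Ioo fun ρ hρ => ?_)
    (lintegral_mono_set (Ioo_subset_Ioi_self : Ioo 0 R ⊆ Ioi 0))
  have hd : ∀ θ, circleMap a ρ θ ∈ ball a R := fun θ =>
    closedBall_subset_ball hρ.2 (circleMap_mem_closedBall a hρ.1.le θ)
  simp only [indicator_of_mem (hd _)]
  rw [lintegral_const_mul' _ _ ENNReal.ofReal_ne_top, ENNReal.ofReal_mul hρ.1.le]
  exact mul_le_mul_right (circ hρ.1 (hf.mono (closedBall_subset_ball hρ.2))) _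

lemma sup0 {φ : ℂ → ℂ} {c : ℂ} {r M : ℝ} (hr : 0 < r) (hf : DifferentiableOn ℂ φ (ball c (2 * r)))
    (hi : IntegrableOn φ (ball c (2 * r))) (hM : ∫ w in ball c (2 * r), ‖φ w‖ ≤ M) :
    ∀ z ∈ ball c (7 / 4 * r), ‖φ z‖ ≤ M / (π * (r / 4) ^ 2) := by
  intro z hz
  have hpi := Real.pi_pos
  have hs : ball z (r / 4) ⊆ ball c (2 * r) :=
    ball_subset_ball' (by have := mem_ball.1 hz; linarith)
  rw [le_div_iff₀ (by positivity)]
  refine (mean (by positivity) (hf.mono hs) (hi.mono_set hs)).trans (le_trans ?_ hM)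
  exact setIntegral_mono_set hi.norm (Eventually.of_forall fun _ => norm_nonneg _) hs.eventuallyLE

lemma sup1 {φ : ℂ → ℂ} {c : ℂ} {r A : ℝ} (hr : 0 < r) (hf : DifferentiableOn ℂ φ (ball c (2 * r)))
    (hA : ∀ z ∈ ball c (7 / 4 * r), ‖φ z‖ ≤ A) {z u : ℂ} (hz : z ∈ ball c (3 / 2 * r))
    (hu : u ∈ ball c (3 / 2 * r)) : ‖φ z - φ u‖ ≤ A / (r / 8) * ‖z - u‖ := by
  refine (convex_ball c (3 / 2 * r)).norm_image_sub_le_of_norm_deriv_le (𝕜 := ℂ)
    (fun x hx => hf.differentiableAt (isOpen_ball.mem_nhds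
      (ball_subset_ball (by linarith) hx))) (fun x hx => ?_) hu hz
  have hs : closedBall x (r / 8) ⊆ ball c (7 / 4 * r) :=
    closedBall_subset_ball' (by have := mem_ball.1 hx; linarith)
  exact Complex.norm_deriv_le_of_forall_mem_sphere_norm_le (by positivity)
    (hf.diffContOnCl_ball (hs.trans (ball_subset_ball (by linarith))))
    fun y hy => hA y (hs (sphere_subset_closedBall hy))

lemma taylor {φ Ψ : ℂ → ℂ} {S : Set ℂ} (hS : Convex ℝ S) (hΨ : ∀ z ∈ S, HasDerivAt Ψ (φ z) z)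
    {L η : ℝ} (hL0 : 0 ≤ L) (hL : ∀ z ∈ S, ∀ u ∈ S, ‖φ z - φ u‖ ≤ L * ‖z - u‖) {u w : ℂ}
    (hu : u ∈ S) (hw : w ∈ S) (h : ‖u - w‖ ≤ η) :
    ‖φ u * (u - w) - (Ψ u - Ψ w)‖ ≤ L * η * η := by
  have h0 := (norm_nonneg _).trans h
  have hw' : ‖w - u‖ ≤ η := by rwa [norm_sub_rev]
  have := (hS.inter (convex_closedBall u η)).norm_image_sub_le_of_norm_hasDerivWithin_le
    (f := fun z => Ψ z - φ u * z) (f' := fun z => φ z - φ u) (C := L * η) (x := u) (y := w)
    (fun z hz => (((hΨ z hz.1).sub ((hasDerivAt_id z).const_mul (φ u))).congr_deriv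
      (by rw [mul_one])).hasDerivWithinAt)
    (fun z hz => (hL z hz.1 u hu).trans (by
      have := mem_closedBall_iff_norm.1 hz.2
      gcongr)) ⟨hu, mem_closedBall_self h0⟩ ⟨hw, mem_closedBall_iff_norm.2 hw'⟩
  rw [show φ u * (u - w) - (Ψ u - Ψ w) = Ψ w - φ u * w - (Ψ u - φ u * u) by ring]
  exact this.trans (by gcongr)

lemma dz_G {Ψ Θ χ : ℂ → ℂ} {w p q : ℂ} (h1 : HasDerivAt Ψ p (Θ w)) (h2 : HasDerivAt Ψ q w)
    (hΘ : DifferentiableAt ℝ Θ w) (hχ : DifferentiableAt ℝ χ w) :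
    dz (fun w => (Ψ (Θ w) - Ψ w) * χ w) w =
      (p * dz Θ w - q) * χ w + (Ψ (Θ w) - Ψ w) * dz χ w := by
  have h := (((h1.complexToReal_fderiv.comp w hΘ.hasFDerivAt).sub h2.complexToReal_fderiv).mul
    hχ.hasFDerivAt).fderiv
  unfold dz
  change (fderiv ℝ ((Ψ ∘ Θ - Ψ) * χ) w 1 - I * fderiv ℝ ((Ψ ∘ Θ - Ψ) * χ) w I) / 2 = _
  rw [h]
  simp only [Pi.sub_apply, Function.comp_apply, ContinuousLinearMap.smul_comp, add_apply, smul_apply, smul_eq_mul, sub_apply, ContinuousLinearMap.comp_apply, one_apply_eq_self, mul_one]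
  linear_combination (q * χ w / 2) * I_mul_I

lemma lip_glob {G : ℂ → ℂ} {c : ℂ} {r : ℝ} {K : ℝ≥0} {S : Set ℂ} (hS : IsClosed S)
    (hs : S ⊆ ball c r) (h0 : ∀ w ∉ S, G w = 0) (hG : LipschitzOnWith K G (ball c r)) :
    LipschitzWith K G := by
  obtain ⟨r', h1, h2⟩ := exists_lt_subset_ball hS hs
  rw [← lipschitzOnWith_univ]
  refine Lip.lip_glue (A := fun b : Bool => if b then closedBall c r' else (ball c r')ᶜ)
    convex_univ (fun b => ?_) (fun x _ => ?_) fun b => ?_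
  · cases b
    · simp
    · exact isClosed_closedBall
  · by_cases hx : x ∈ ball c r'
    · exact mem_iUnion.2 ⟨true, by simpa using ball_subset_closedBall hx⟩
    · exact mem_iUnion.2 ⟨false, by simpa using hx⟩
  · cases b
    · refine LipschitzOnWith.of_dist_le_mul fun x hx y hy => ?_
      rw [h0 x fun h => (by simpa using hx : x ∉ ball c r') (h2 h),
        h0 y fun h => (by simpa using hy : y ∉ ball c r') (h2 h), dist_self]
      positivity
    · simpa using hG.mono (closedBall_subset_ball h1)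

end MD

open MD Filter in
theorem md : MD_s := by
  intro c r hr χ hχ hs
  have hpi := Real.pi_pos
  have hc : HasCompactSupport χ :=
    (isCompact_closedBall c r).of_isClosed_subset (isClosed_tsupport χ)
      (hs.trans ball_subset_closedBall)
  obtain ⟨Kχ, hK⟩ := hχ.lipschitzWith_of_hasCompactSupport hc two_ne_zero
  obtain ⟨N, hN⟩ := hc.exists_bound_of_continuous hχ.continuous
  have hdc : Continuous (dz χ) := by
    have := hχ.continuous_fderiv two_ne_zero
    unfold dz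
    fun_prop
  obtain ⟨D, hD⟩ : ∃ D, ∀ w, ‖dz χ w‖ ≤ D :=
    (HasCompactSupport.intro hc fun w hw => by simp [dz, fd_zero hw]).exists_bound_of_continuous hdc
  have hD0 := (norm_nonneg _).trans (hD 0)
  refine ⟨D * ((1 + 8 / r) / (Real.pi * (r / 4) ^ 2)) * volume.real (ball c r), ?_⟩
  rintro φ Θ η M hη hηr hf hi hM ⟨K, hΘ⟩ h0 h1
  obtain ⟨A, hA⟩ : ∃ A, A = M / (Real.pi * (r / 4) ^ 2) := ⟨_, rfl⟩
  have s0 := hA ▸ sup0 hr hf hi hM
  have hA0 : 0 ≤ A := (norm_nonneg _).trans (s0 c (mem_ball_self (by positivity)))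
  obtain ⟨Ψ, hΨ⟩ := hf.isExactOn_ball
  have b1 : ball c r ⊆ ball c (3 / 2 * r) := ball_subset_ball (by linarith only [hr])
  have b2 : ball c (3 / 2 * r) ⊆ ball c (7 / 4 * r) := ball_subset_ball (by linarith only [hr])
  have b3 : ball c (3 / 2 * r) ⊆ ball c (2 * r) := ball_subset_ball (by linarith only [hr])
  have hmap : MapsTo Θ (ball c r) (ball c (3 / 2 * r)) := fun w hw => by
    have := dist_triangle (Θ w) w c
    have := h0 w hw
    rw [← dist_eq_norm] at this
    have := mem_ball.1 hw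
    rw [mem_ball]
    linarith
  have lΨ : LipschitzOnWith A.toNNReal Ψ (ball c (3 / 2 * r)) :=
    (convex_ball c _).lipschitzOnWith_of_nnnorm_hasDerivWithin_le
      (fun z hz => (hΨ z (b3 hz)).hasDerivWithinAt) fun z hz => by
        rw [← NNReal.coe_le_coe, coe_nnnorm]
        exact (s0 z (b2 hz)).trans (Real.le_coe_toNNReal A)
  obtain ⟨G, hG⟩ : ∃ G : ℂ → ℂ, G = fun w => (Ψ (Θ w) - Ψ w) * χ w := ⟨_, rfl⟩
  have G0 : ∀ w ∉ tsupport χ, G w = 0 := fun w hw => by
    simp [hG, image_eq_zero_of_notMem_tsupport hw]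
  have lG := Lip.lip_bil (ContinuousLinearMap.mul ℝ ℂ) ((lΨ.comp hΘ hmap).sub (lΨ.mono b1))
    (hK.lipschitzOnWith (s := ball c r)) (M := (A.toNNReal * η).toNNReal) (N := N.toNNReal)
    (fun w hw => le_trans ((lΨ.norm_sub_le (hmap hw) (b1 hw)).trans (by
      have := h0 w hw
      gcongr)) (Real.le_coe_toNNReal _))
    (fun w _ => (hN w).trans (Real.le_coe_toNNReal _))
  have lG' := lip_glob (G := G) (isClosed_tsupport χ) hs G0 (hG ▸ lG)
  have cG : HasCompactSupport G := HasCompactSupport.intro hc G0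
  obtain ⟨iG, zG⟩ := intZ lG' cG
  have tG : tsupport G ⊆ tsupport χ :=
    closure_minimal (fun w hw => by by_contra h; exact hw (G0 w h)) (isClosed_tsupport χ)
  have zG' : ∫ w in ball c r, dz G w = 0 := by
    rw [setIntegral_eq_integral_of_forall_compl_eq_zero fun w hw => ?_, zG]
    simp [dz, fd_zero fun h => hw (hs (tG h))]
  have mB := (isOpen_ball (x := c) (ε := r)).measurableSet
  have fB : volume (ball c r) < ⊤ := measure_ball_lt_top
  have i2 : IntegrableOn (fun w => φ w * χ w) (ball c r) :=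
    Integrable.mul_bdd (hi.mono_set (b1.trans b3)) hχ.continuous.aestronglyMeasurable
      (Eventually.of_forall hN)
  obtain ⟨T, hT⟩ : ∃ T : ℂ → ℂ,
    T = fun w => φ (Θ w) * dz Θ w * (χ w + (Θ w - w) * dz χ w) := ⟨_, rfl⟩
  have mT : AEStronglyMeasurable T (volume.restrict (ball c r)) := by
    have c1 := hΘ.continuousOn
    have c2 := ((hf.continuousOn.mono b3).comp c1 hmap).aestronglyMeasurable (μ := volume) mB
    have c3 : ContinuousOn (fun w => χ w + (Θ w - w) * dz χ w) (ball c r) :=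
      hχ.continuous.continuousOn.add ((c1.sub continuousOn_id).mul hdc.continuousOn)
    exact hT ▸ (c2.mul (dz_meas Θ).aestronglyMeasurable).mul (c3.aestronglyMeasurable mB)
  have bR : ∀ᵐ w ∂volume.restrict (ball c r),
      ‖T w - φ w * χ w - dz G w‖ ≤ D * (A * η * η + A / (r / 8) * η * η) := by
    filter_upwards [h1, hΘ.ae_differentiableWithinAt mB, ae_restrict_mem mB] with w e1 e2 hw
    have e3 := dz_G (hΨ _ (b3 (hmap hw))) (hΨ _ (b3 (b1 hw)))
      (e2.differentiableAt (isOpen_ball.mem_nhds hw)) (hχ.differentiable two_ne_zero w)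
    have e4 := taylor (convex_ball c (3 / 2 * r)) (fun z hz => hΨ z (b3 hz))
      (by positivity : 0 ≤ A / (r / 8)) (fun z hz u hu => sup1 hr hf s0 hz hu) (hmap hw) (b1 hw)
      (h0 w hw)
    have e5 : T w - φ w * χ w - dz G w = dz χ w * (φ (Θ w) * (Θ w - w) * (dz Θ w - 1) +
        (φ (Θ w) * (Θ w - w) - (Ψ (Θ w) - Ψ w))) := by
      rw [hG, e3, hT]
      ring
    rw [e5, norm_mul]
    refine mul_le_mul (hD w) ((norm_add_le _ _).trans (add_le_add ?_ e4)) (norm_nonneg _) hD0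
    rw [norm_mul, norm_mul]
    have := s0 _ (b2 (hmap hw))
    have := h0 w hw
    gcongr
  have iR : IntegrableOn (fun w => T w - φ w * χ w - dz G w) (ball c r) :=
    ⟨(mT.sub i2.1).sub iG.1.restrict, .restrict_of_bounded _ fB bR⟩
  have iT : IntegrableOn T (ball c r) :=
    ((iR.add iG.integrableOn).add i2).congr (Eventually.of_forall fun w => by simp)
  have key := norm_setIntegral_le_of_norm_le_const_ae fB bR
  rw [integral_sub (f := fun w => T w - φ w * χ w) (iT.sub i2) iG.integrableOn,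
    integral_sub iT i2, zG', sub_zero, hT] at key
  refine key.trans (le_of_eq ?_)
  rw [hA]
  field_simp

end Pool.Agent.MP_596265_gt.U.RD

end
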