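import Pool.Agent.MP_596265_gt.Defs
import Pool.Agent.MP_596265_gt.W.L0

attribute [-instance] ProperSMul.toContinuousSMul Valued.toUniformSpace
  NonUnitalNonAssocSemiring.toAddCommMonoid NonarchimedeanAddGroup.toIsTopologicalAddGroup
  AddSubgroup.seminormedAddCommGroup TotallySeparatedSpace.t2Space littleWedderburn
  MulSemiringAction.toDistribMulAction RKHS.instFunLike RightPreLieAlgebra.toModule
  LeftPreLieAlgebra.toModule IsSemitopologicalSemiring.toContinuousAdd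
  SubsemiringClass.toCommSemiring NonUnitalNormedRing.toNonUnitalSeminormedRing
  MonTypeEquivalenceMon.monMonoid DivisionRing.toRing IsIsometricSMul.to_continuousConstSMul
  NonUnitalNonAssocRing.toAddCommGroup Distrib.toAdd SubringClass.toRing
  SetLike.GradeZero.instSemiring SetLike.GradeZero.instCommSemiring
  IsTopologicalSemiring.toContinuousAdd IsValuativeTopology.instIsTopologicalAddGroup
  SetLike.GradeZero.instRing NonUnitalNonAssocSemiring.toMulZeroClass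
  NonUnitalSeminormedRing.toPseudoMetricSpace Algebra.toSMul
  Action.FintypeCat.instMulActionObjFiniteOf instSMulZeroClass
  NonAssocSemiring.toAddCommMonoidWithOne NormedCommRing.toCommRing IdemSemiring.toSemiring
  Subtype.pseudoMetricSpace AddCommGroupWithOne.toAddGroupWithOne

section

/-! Block H: the Hodge norm of a cocycle on a positive triangulation. Definitions. -/

namespace Pool.Agent.MP_596265_gt.Hd

open MeasureTheory Set Complex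
open scoped ComplexConjugate Matrix.Norms.Elementwise NNReal

noncomputable section

abbrev Mat : Type := Matrix (Fin 2) (Fin 2) ℂ
abbrev Ix : Type := Bool × Bool × Bool
abbrev E8 : Type := EuclideanSpace ℂ Ix

/-! Pointwise algebra -/

def cx (g : G) : Mat := (g : Matrix (Fin 2) (Fin 2) ℝ).map (fun t => (t : ℂ))
def Ad (g : G) (X : Mat) : Mat := cx g * X * cx g⁻¹
def den (g : G) (w : ℂ) : ℂ := (g 1 0 : ℝ) * w + (g 1 1 : ℝ)
def mob (g : G) (w : ℂ) : ℂ := ((g 0 0 : ℝ) * w + (g 0 1 : ℝ)) / den g w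
/-- Polar form of the vector field of `X`. -/
def ev (X : Mat) (s t : ℂ) : ℂ := X 0 0 * t + X 0 1 - s * X 1 0 * t - s * X 1 1
def pt (w : ℂ) (i : Bool) : ℂ := if i then conj w else w
def dl (w : ℂ) : ℂ := w - conj w
/-- Components at `w` of the form `a dw + b dw̄`. -/
def J (w : ℂ) (a b : Mat) : E8 :=
  WithLp.toLp 2 fun k : Ix => ev (if k.2.2 then a else b) (pt w k.1) (pt w k.2.1) / dl w
def wt (k : Ix) : ℕ := k.1.toNat + k.2.1.toNat + k.2.2.toNat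
/-- Diagonal operators. -/
def dg (c : Ix → ℂ) : E8 →L[ℂ] E8 :=
  LinearMap.toContinuousLinearMap (Matrix.toLpLin 2 2 (Matrix.diagonal c))
def pr (p : ℕ) : E8 →L[ℂ] E8 := dg fun k => if wt k = p then 1 else 0
def Cs : E8 →L[ℂ] E8 := dg fun k => (-1) ^ (wt k + 1)
/-- The matrix `l r r` lowering in slot `r`. -/
def op (M : Matrix Ix Ix ℂ) : E8 →L[ℂ] E8 := LinearMap.toContinuousLinearMap (Matrix.toLpLin 2 2 M)
def N1 : E8 →L[ℂ] E8 := op fun k l => if k.1 = false ∧ l = (true, k.2.1, k.2.2) then 1 else 0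
def N2 : E8 →L[ℂ] E8 := op fun k l => if k.2.1 = false ∧ l = (k.1, true, k.2.2) then 1 else 0
def N3 : E8 →L[ℂ] E8 := op fun k l => if k.2.2 = false ∧ l = (k.1, k.2.1, true) then 1 else 0
def th (a b : ℂ) : E8 →L[ℂ] E8 := a • (N1 + N2) + b • N3
def blk (N : E8 →L[ℂ] E8) (φ : ℂ) : E8 →L[ℂ] E8 :=
  ((1 - normSq φ : ℝ) : ℂ)⁻¹ • (((1 + normSq φ : ℝ) : ℂ) • (1 : E8 →L[ℂ] E8) - (2 * φ) • N -
    (2 * conj φ) • star N)
def Gm (φ ψ : ℂ) : E8 →L[ℂ] E8 := blk N1 φ * blk N2 φ * blk N3 ψ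
/-- The pure matrices. -/
def nn (w : ℂ) (i j : Bool) : Mat :=
  !![pt w (!i), -(pt w (!i) * pt w (!j)); 1, -pt w (!j)]
/-- The matrix with prescribed components `ev X (pt w i) (pt w j) / dl w = c i j`. -/
def mk (w : ℂ) (c : Bool → Bool → ℂ) : Mat :=
  ∑ i, ∑ j, ((if i = j then -1 else 1) * c i j / dl w) • nn w i j
def cp (w : ℂ) (X : Mat) (i j : Bool) : ℂ := ev X (pt w i) (pt w j) / dl w
def PureAt (p : ℕ) (w : ℂ) (X : Mat) : Prop := ∀ i j, i.toNat + j.toNat ≠ p → cp w X i j = 0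

/-- The part of type `p`. -/
def pur (p : ℕ) (w : ℂ) (X : Mat) : Mat :=
  mk w fun i j => if i.toNat + j.toNat = p then cp w X i j else 0
/-- The invariant bilinear form. -/
def bb (X Y : Mat) : ℂ := (X * Y).trace - X.trace * Y.trace
def cj (X : Mat) : Mat := X.map conj
def tl (X : Mat) : Mat := X - (X.trace / 2) • (1 : Mat)
/-- The factor of automorphy of the components. -/
def ph (g : G) (w : ℂ) (k : Ix) : ℂ :=
  den g (pt w (!k.2.2)) ^ 2 * den g w * den g (conj w) / (den g (pt w k.1) * den g (pt w k.2.1))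

/-! Triangles -/

def hd (p q r : ℂ) : ℝ :=
  (q.re - p.re) * (normSq r - normSq p) - (normSq q - normSq p) * (r.re - p.re)
def tri (p q r : ℂ) : Set ℂ := {w | 0 < w.im ∧ 0 ≤ hd p q w ∧ 0 ≤ hd q r w ∧ 0 ≤ hd r p w}
def seg (p q : ℂ) : Set ℂ := {w | 0 < w.im ∧ ∃ t ∈ Icc (0 : ℝ) 1,
  w.re = (1 - t) * p.re + t * q.re ∧ normSq w = (1 - t) * normSq p + t * normSq q}
def PosT (p q r : ℂ) : Prop := 0 < p.im ∧ 0 < q.im ∧ 0 < r.im ∧ 0 < hd p q r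
def Lip {V : Type} [NormedAddCommGroup V] (f : ℂ → V) (K : Set ℂ) : Prop :=
  ∃ C : ℝ≥0, LipschitzOnWith C f K

def dz {V : Type} [NormedAddCommGroup V] [NormedSpace ℂ V] (f : ℂ → V) (w : ℂ) : V :=
  (1 / 2 : ℂ) • (fderiv ℝ f w 1 - I • fderiv ℝ f w I)
def dzb {V : Type} [NormedAddCommGroup V] [NormedSpace ℂ V] (f : ℂ → V) (w : ℂ) : V :=
  (1 / 2 : ℂ) • (fderiv ℝ f w 1 + I • fderiv ℝ f w I)
def dF (W : ℂ → Mat) (w : ℂ) : E8 := J w (dz W w) (dzb W w)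
/-- Transport of a section by `γ` with cocycle value `u`. -/
def tp (γ : G) (u : Mat) (W : ℂ → Mat) (w : ℂ) : Mat := u + Ad γ (W (mob γ⁻¹ w))

/-! States -/

variable {Dt : Type} [Fintype Dt]

/-- Darts with labels, relations up to sign. -/
structure Flat (nx rv : Dt → Dt) (g : Dt → G) : Prop where
  n3 : ∀ d, nx (nx (nx d)) = d
  r2 : ∀ d, rv (rv d) = d
  gr : ∀ d, g d * g (rv d) = 1 ∨ g d * g (rv d) = -1
  gf : ∀ d, g d * g (nx d) * g (nx (nx d)) = 1 ∨ g d * g (nx d) * g (nx (nx d)) = -1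

structure Ok (nx rv : Dt → Dt) (g : Dt → G) (z : ℂ) : Prop extends Flat nx rv g where
  im : 0 < z.im
  pos : ∀ d, 0 < hd z (mob (g d) z) (mob (g d * g (nx d)) z)

/-- One vertex. -/
def OneV (nx rv : Dt → Dt) : Prop :=
  ∀ ε : Dt → Prop, (∀ d, ε (nx (rv d)) ↔ ε d) → ∀ d d', ε d ↔ ε d'
/-- No invariant traceless matrix. -/
def Irr (g : Dt → G) : Prop := ∀ X : Mat, X.trace = 0 → (∀ d, Ad (g d) X = X) → X = 0

structure Coc (nx rv : Dt → Dt) (g : Dt → G) (v : Dt → Mat) : Prop where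
  r : ∀ d, v d + Ad (g d) (v (rv d)) = 0
  f : ∀ d, v d + Ad (g d) (v (nx d) + Ad (g (nx d)) (v (nx (nx d)))) = 0

def om (nx : Dt → Dt) (g : Dt → G) (v v' : Dt → Mat) : ℂ :=
  (1 / 6 : ℂ) * ∑ d, (bb (v d) (Ad (g d) (v' (nx d))) - bb (Ad (g d) (v (nx d))) (v' d))

/-! Faces -/

def face (nx : Dt → Dt) (g : Dt → G) (z : ℂ) (d : Dt) : Set ℂ :=
  tri z (mob (g d) z) (mob (g d * g (nx d)) z)

structure Adm (nx rv : Dt → Dt) (g : Dt → G) (z : ℂ) (v : Dt → Mat) (W : Dt → ℂ → Mat) :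
    Prop where
  lip : ∀ d, Lip (W d) (face nx g z d)
  rot : ∀ d, ∀ w ∈ face nx g z (nx d), W d (mob (g d) w) = v d + Ad (g d) (W (nx d) w)
  edge : ∀ d, ∀ w ∈ seg z (mob (g d) z), W d w = W (nx (rv d)) w

def en (nx : Dt → Dt) (g : Dt → G) (z : ℂ) (W : Dt → ℂ → Mat) : ℝ :=
  ∑ d, ∫ w in face nx g z d, ‖dF (W d) w‖ ^ 2

/-- The square of the Hodge norm. -/
def Fn (nx rv : Dt → Dt) (g : Dt → G) (z : ℂ) (v : Dt → Mat) : ℝ :=
  sInf {e | ∃ W, Adm nx rv g z v W ∧ e = en nx g z W}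

abbrev HT (nx : Dt → Dt) (g : Dt → G) (z : ℂ) : Type :=
  PiLp 2 fun d : Dt => Lp E8 2 (volume.restrict (face nx g z d))

open Classical in
def cls {X : Type} [MeasurableSpace X] (μ : Measure X) (f : X → E8) : Lp E8 2 μ :=
  if h : MemLp f 2 μ then h.toLp f else 0

def dT (nx : Dt → Dt) (g : Dt → G) (z : ℂ) (W : Dt → ℂ → Mat) : HT nx g z :=
  WithLp.toLp 2 fun d => cls _ (dF (W d))

/-- The polarisation of `Fn`. -/
def Fb (nx rv : Dt → Dt) (g : Dt → G) (z : ℂ) (v v' : Dt → Mat) : ℝ :=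
  (Fn nx rv g z (v + v') - Fn nx rv g z (v - v')) / 4

/-! Stars -/

def sh (p q : ℂ) : ℝ := √((1 + normSq (p - q) / (2 * p.im * q.im)) ^ 2 - 1)
/-- The point with homogeneous weights `a, b, c`. -/
def bar (p q r : ℂ) (a b c : ℝ) : ℂ :=
  ⟨(a * p.re + b * q.re + c * r.re) / (a + b + c),
    √((a * normSq p + b * normSq q + c * normSq r) / (a + b + c) -
      ((a * p.re + b * q.re + c * r.re) / (a + b + c)) ^ 2)⟩
/-- The centre of the inscribed circle. -/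
def inc (p q r : ℂ) : ℂ := bar p q r (sh q r / p.im) (sh r p / q.im) (sh p q / r.im)
def incs (nx : Dt → Dt) (g : Dt → G) (z : ℂ) (d : Dt) : ℂ :=
  inc z (mob (g d) z) (mob (g d * g (nx d)) z)

structure Star (nx rv : Dt → Dt) (g : Dt → G) (c : Dt → ℂ) (z : ℂ) : Prop
    extends Ok nx rv g z where
  cim : ∀ d, 0 < (c d).im
  crot : ∀ d, c d = mob (g d) (c (nx d))
  cin : ∀ d, 0 < hd z (mob (g d) z) (c d)
  spos : ∀ d, 0 < hd z (c (nx (rv d))) (c d)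

def str (nx rv : Dt → Dt) (c : Dt → ℂ) (z : ℂ) (d : Dt) : Set ℂ := tri z (c (nx (rv d))) (c d)

structure SAdm (nx rv : Dt → Dt) (g : Dt → G) (c : Dt → ℂ) (z : ℂ) (v : Dt → Mat)
    (Y : Dt → ℂ → Mat) : Prop where
  lip : ∀ d, Lip (Y d) (str nx rv c z d)
  rad : ∀ d, ∀ w ∈ seg z (c (nx (rv d))), Y d w = Y (nx (rv d)) w
  base : ∀ d, ∀ w ∈ seg (c (rv d)) (c (nx d)), Y d (mob (g d) w) = v d + Ad (g d) (Y (rv d) w)

/-- The same section in the two cell structures. -/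
def Rel {V : Type} (nx rv : Dt → Dt) (g : Dt → G) (c : Dt → ℂ) (z : ℂ) (W Y : Dt → ℂ → V) : Prop :=
  ∀ d, ∀ w ∈ str nx rv c z d, (w ∈ face nx g z d → Y d w = W d w) ∧
    (w ∈ face nx g z (nx (rv d)) → Y d w = W (nx (rv d)) w)

/-! Polar parametrisation of the triangle `(z, p, q)` -/

def sq : Set (ℝ × ℝ) := Ioo 0 1 ×ˢ Ioo 0 1
def csq : Set (ℝ × ℝ) := Icc 0 1 ×ˢ Icc 0 1
def mu (p q : ℂ) (l : ℝ) : ℝ := l * p.im / ((1 - l) * q.im + l * p.im)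
/-- The invariant parametrisation of the geodesic from `p` to `q`. -/
def geo (p q : ℂ) (l : ℝ) : ℂ :=
  ⟨(1 - mu p q l) * p.re + mu p q l * q.re,
    √((1 - mu p q l) * p.im ^ 2 + mu p q l * q.im ^ 2 +
      mu p q l * (1 - mu p q l) * (p.re - q.re) ^ 2)⟩
def geo' (p q : ℂ) (l : ℝ) : ℂ := deriv (geo p q) l
def NN (z y : ℂ) (s : ℝ) : ℂ := (z - conj y) - s * (z - y)
def ray (z y : ℂ) (s : ℝ) : ℂ := z + (1 - s) * ((y - z) * (z - conj y) / NN z y s)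
def DD (z p q : ℂ) (ω : ℝ × ℝ) : ℂ := ray z (geo p q ω.1) ω.2
def e1 (z p q : ℂ) (ω : ℝ × ℝ) : ℂ :=
  (geo' p q ω.1 * (z - conj (geo p q ω.1)) ^ 2 -
    ω.2 * conj (geo' p q ω.1) * (z - geo p q ω.1) ^ 2) / NN z (geo p q ω.1) ω.2 ^ 2
def e2 (z p q : ℂ) (ω : ℝ × ℝ) : ℂ :=
  (z - geo p q ω.1) * (z - conj (geo p q ω.1)) * dl (geo p q ω.1) / NN z (geo p q ω.1) ω.2 ^ 2
def jc (a b : ℂ) : ℝ := (conj a * b).im
/-- Coefficients of `dD` and `dD̄` of the form with values `X₁, X₂` on the frame `a, b`. -/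
def cz {V : Type} [AddCommGroup V] [Module ℂ V] (a b : ℂ) (X₁ X₂ : V) : V :=
  (a * conj b - b * conj a)⁻¹ • (conj b • X₁ - conj a • X₂)
def czb {V : Type} [AddCommGroup V] [Module ℂ V] (a b : ℂ) (X₁ X₂ : V) : V :=
  (a * conj b - b * conj a)⁻¹ • (a • X₂ - b • X₁)
def JJ (w a b : ℂ) (X₁ X₂ : Mat) : E8 := ((√(jc a b) : ℝ) : ℂ) • J w (cz a b X₁ X₂) (czb a b X₁ X₂)
def r1 {V : Type} [NormedAddCommGroup V] [NormedSpace ℝ V] (f : ℝ × ℝ → V) (ω : ℝ × ℝ) : V :=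
  (1 - ω.2)⁻¹ • lineDeriv ℝ f ω (1, 0)
def r2 {V : Type} [NormedAddCommGroup V] [NormedSpace ℝ V] (f : ℝ × ℝ → V) (ω : ℝ × ℝ) : V :=
  lineDeriv ℝ f ω (0, 1)
def dq (z p q : ℂ) (f : ℝ × ℝ → Mat) (ω : ℝ × ℝ) : E8 :=
  ((√(1 - ω.2) : ℝ) : ℂ) • JJ (DD z p q ω) (e1 z p q ω) (e2 z p q ω) (r1 f ω) (r2 f ω)
/-- Lipschitz for the polar metric. -/
def PLip {V : Type} [NormedAddCommGroup V] (f : ℝ × ℝ → V) : Prop :=
  ∃ C : ℝ, ∀ ω ∈ csq, ∀ ω' ∈ csq, ‖f ω - f ω'‖ ≤ C * ((1 - ω.2) * |ω.1 - ω'.1| + |ω.2 - ω'.2|)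

structure PAdm (nx rv : Dt → Dt) (g : Dt → G) (v : Dt → Mat) (U : Dt → ℝ × ℝ → Mat) : Prop where
  lip : ∀ d, PLip (U d)
  rad : ∀ d, ∀ s ∈ Icc (0 : ℝ) 1, U d (0, s) = U (nx (rv d)) (1, s)
  base : ∀ d, ∀ l ∈ Icc (0 : ℝ) 1, U d (l, 0) = v d + Ad (g d) (U (rv d) (1 - l, 0))

def Dd (nx rv : Dt → Dt) (c : Dt → ℂ) (z : ℂ) (d : Dt) : ℝ × ℝ → ℂ := DD z (c (nx (rv d))) (c d)

abbrev L8 : Type := Lp E8 2 (volume.restrict sq)
abbrev HP (Dt : Type) : Type := PiLp 2 fun _ : Dt => L8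

def dP (nx rv : Dt → Dt) (c : Dt → ℂ) (z : ℂ) (U : Dt → ℝ × ℝ → Mat) : HP Dt :=
  WithLp.toLp 2 fun d => cls _ (dq z (c (nx (rv d))) (c d) (U d))

def Fp (nx rv : Dt → Dt) (g : Dt → G) (c : Dt → ℂ) (z : ℂ) (v : Dt → Mat) : ℝ :=
  sInf {e | ∃ U, PAdm nx rv g v U ∧ e = ‖dP nx rv c z U‖ ^ 2}

/-! The motion of the apex -/

def nu (z p q : ℂ) (ω : ℝ × ℝ) : ℂ := ω.2 * dl (geo p q ω.1) ^ 2 / NN z (geo p q ω.1) ω.2 ^ 2
def ph1 (z z' p q : ℂ) (ω : ℝ × ℝ) : ℂ :=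
  (DD z' p q ω - DD z p q ω) / (DD z' p q ω - conj (DD z p q ω))
def ph2 (z z' p q : ℂ) (ω : ℝ × ℝ) : ℂ :=
  czb (e1 z p q ω) (e2 z p q ω) (e1 z' p q ω) (e2 z' p q ω) /
    cz (e1 z p q ω) (e2 z p q ω) (e1 z' p q ω) (e2 z' p q ω)
def th1 (z p q : ℂ) (ω : ℝ × ℝ) : ℂ := nu z p q ω / dl (DD z p q ω)
def th2 (z p q : ℂ) (ω : ℝ × ℝ) : ℂ :=
  czb (e1 z p q ω) (e2 z p q ω) (deriv (fun t => e1 t p q ω) z) (deriv (fun t => e2 t p q ω) z)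

open Classical in
/-- Multiplication by a bounded field of operators. -/
def mul {X : Type} [MeasurableSpace X] (μ : Measure X) (T : X → E8 →L[ℂ] E8) :
    Lp E8 2 μ →L[ℂ] Lp E8 2 μ :=
  if h : ∃ A : Lp E8 2 μ →L[ℂ] Lp E8 2 μ, ∀ x, A x =ᵐ[μ] fun ω => T ω (x ω) then h.choose else 0

/-- Diagonal operator on a finite sum. -/
def dia {H : Dt → Type} [∀ d, NormedAddCommGroup (H d)] [∀ d, InnerProductSpace ℂ (H d)]
    (A : ∀ d, H d →L[ℂ] H d) : PiLp 2 H →L[ℂ] PiLp 2 H :=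
  (PiLp.continuousLinearEquiv 2 ℂ H).symm.toContinuousLinearMap ∘L
    (ContinuousLinearMap.pi fun d => A d ∘L ContinuousLinearMap.proj d) ∘L
      (PiLp.continuousLinearEquiv 2 ℂ H).toContinuousLinearMap

def mP (T : Dt → ℝ × ℝ → E8 →L[ℂ] E8) : HP Dt →L[ℂ] HP Dt := dia fun d => mul _ (T d)
def prP (p : ℕ) : HP Dt →L[ℂ] HP Dt := mP fun _ _ => pr p
def CP : HP Dt →L[ℂ] HP Dt := mP fun _ _ => Cs
def thP (nx rv : Dt → Dt) (c : Dt → ℂ) (z : ℂ) : HP Dt →L[ℂ] HP Dt :=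
  mP fun d ω => th (th1 z (c (nx (rv d))) (c d) ω) (th2 z (c (nx (rv d))) (c d) ω)
def GP (nx rv : Dt → Dt) (c : Dt → ℂ) (z z' : ℂ) : HP Dt →L[ℂ] HP Dt :=
  mP fun d ω => Gm (ph1 z z' (c (nx (rv d))) (c d) ω) (ph2 z z' (c (nx (rv d))) (c d) ω)
/-- Differentials of homogeneous sections of pure type `p`. -/
def BP (nx rv : Dt → Dt) (g : Dt → G) (c : Dt → ℂ) (z : ℂ) (p : ℕ) : Set (HP Dt) :=
  {b | ∃ U, PAdm nx rv g 0 U ∧ (∀ d, ∀ ω ∈ csq, PureAt p (Dd nx rv c z d ω) (U d ω)) ∧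
    b = dP nx rv c z U}
def BS (nx rv : Dt → Dt) (g : Dt → G) (c : Dt → ℂ) (z : ℂ) (p : ℕ) : Submodule ℂ (HP Dt) :=
  Submodule.span ℂ (BP nx rv g c z p)
def BB (nx rv : Dt → Dt) (g : Dt → G) (c : Dt → ℂ) (z : ℂ) : Submodule ℂ (HP Dt) :=
  BS nx rv g c z 0 ⊔ BS nx rv g c z 1 ⊔ BS nx rv g c z 2
/-- The affine section with cocycle `v`. -/
def aff (nx rv : Dt → Dt) (g : Dt → G) (v : Dt → Mat) (d : Dt) (ω : ℝ × ℝ) : Mat :=
  let y : Dt → Mat := fun e => (1 / 3 : ℂ) • ((2 : ℂ) • v e + Ad (g e) (v (nx e)))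
  (((1 - ω.2) * (1 - ω.1) : ℝ) : ℂ) • y (nx (rv d)) + (((1 - ω.2) * ω.1 : ℝ) : ℂ) • y d
def dgT (nx : Dt → Dt) (g : Dt → G) (z : ℂ) (κ : Ix → ℂ) : HT nx g z →L[ℂ] HT nx g z :=
  dia fun _ => mul _ fun _ => dg κ
def dgP (κ : Ix → ℂ) : HP Dt →L[ℂ] HP Dt := mP fun _ _ => dg κ
/-- The square root of the Jacobian of the polar map. -/
def rj (z p q : ℂ) (ω : ℝ × ℝ) : ℝ := √((1 - ω.2) * jc (e1 z p q ω) (e2 z p q ω))
def prT (nx : Dt → Dt) (g : Dt → G) (z : ℂ) (p : ℕ) : HT nx g z →L[ℂ] HT nx g z :=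
  dia fun _ => mul _ fun _ => pr p

end

end Pool.Agent.MP_596265_gt.Hd

end

section

/-! Block H: statements of the rows. -/

namespace Pool.Agent.MP_596265_gt.Hd

open MeasureTheory Set Complex Filter Topology
open scoped ComplexConjugate Matrix.Norms.Elementwise NNReal InnerProductSpace

/-! Algebra -/

structure ALG_s : Prop where
  ad_mul : ∀ g h X, Ad (g * h) X = Ad g (Ad h X)
  ad_one : ∀ X, Ad 1 X = X
  ad_neg : ∀ g X, Ad (-g) X = Ad g X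
  ad_add : ∀ g X Y, Ad g (X + Y) = Ad g X + Ad g Y
  ad_smul : ∀ g (c : ℂ) X, Ad g (c • X) = c • Ad g X
  ad_id : ∀ g, Ad g 1 = 1
  ad_cj : ∀ g X, cj (Ad g X) = Ad g (cj X)
  ad_tr : ∀ g X, (Ad g X).trace = X.trace
  ad_bb : ∀ g X Y, bb (Ad g X) (Ad g Y) = bb X Y
  ad_lip : ∀ g, ∃ C : ℝ≥0, LipschitzWith C (Ad g)
  den_ne : ∀ g w, w.im ≠ 0 → den g w ≠ 0
  den_conj : ∀ g w, den g (conj w) = conj (den g w)
  mob_conj : ∀ g w, mob g (conj w) = conj (mob g w)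
  mob_im : ∀ g w, (mob g w).im = w.im / normSq (den g w)
  mob_pos : ∀ g w, 0 < w.im → 0 < (mob g w).im
  mob_mul : ∀ g h w, w.im ≠ 0 → mob (g * h) w = mob g (mob h w)
  mob_one : ∀ w, mob 1 w = w
  mob_neg : ∀ g w, mob (-g) w = mob g w
  mob_der : ∀ g w, w.im ≠ 0 → HasDerivAt (mob g) ((den g w ^ 2)⁻¹) w
  ev_ad : ∀ g X s t, den g s ≠ 0 → den g t ≠ 0 →
    ev (Ad g X) (mob g s) (mob g t) = ev X s t / (den g s * den g t)
  cp_mk : ∀ w c i j, w.im ≠ 0 → cp w (mk w c) i j = c i j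
  mk_cp : ∀ w X, w.im ≠ 0 → mk w (cp w X) = X
  pur_sum : ∀ w X, w.im ≠ 0 → pur 0 w X + pur 1 w X + pur 2 w X = X
  pur_pure : ∀ p w X, w.im ≠ 0 → PureAt p w (pur p w X)
  pur_ad : ∀ p g w X, w.im ≠ 0 → pur p (mob g w) (Ad g X) = Ad g (pur p w X)
  ph_norm : ∀ g w k, w.im ≠ 0 → ‖ph g w k‖ = normSq (den g w)
  j_ad : ∀ g w a b k, w.im ≠ 0 →
    J (mob g w) (den g w ^ 2 • Ad g a) (conj (den g w) ^ 2 • Ad g b) k = ph g w k * J w a b k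
  op_apply : ∀ M (x : E8) k, op M x k = ∑ l, M k l * x l
  dg_apply : ∀ c (x : E8) k, dg c x k = c k * x k
  th_apply : ∀ a b (x : E8) i j k, th a b x (i, j, k) =
    a * ((if i then 0 else x (true, j, k)) + (if j then 0 else x (i, true, k))) +
      b * (if k then 0 else x (i, j, true))
  th_star : ∀ a b (x : E8) i j k, star (th a b) x (i, j, k) =
    conj a * ((if i then x (false, j, k) else 0) + (if j then x (i, false, k) else 0)) +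
      conj b * (if k then x (i, j, false) else 0)
  qf : ∀ w a b X₁ X₂ Y₁ Y₂, 0 < w.im → 0 < jc a b →
    ⟪JJ w a b X₁ X₂, Cs (JJ w a b Y₁ Y₂)⟫_ℂ = (bb (cj X₁) Y₂ - bb (cj X₂) Y₁) / (2 * I)

/-- Multiplication operators. -/
structure MUL_s : Prop where
  ae : ∀ {X : Type} [MeasurableSpace X] (μ : Measure X) (T : X → E8 →L[ℂ] E8) (C : ℝ),
    AEStronglyMeasurable T μ → (∀ᵐ ω ∂μ, ‖T ω‖ ≤ C) → ∀ x, mul μ T x =ᵐ[μ] fun ω => T ω (x ω)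
  le : ∀ {X : Type} [MeasurableSpace X] (μ : Measure X) (T : X → E8 →L[ℂ] E8) (C : ℝ), 0 ≤ C →
    AEStronglyMeasurable T μ → (∀ᵐ ω ∂μ, ‖T ω‖ ≤ C) → ‖mul μ T‖ ≤ C
  cls_ae : ∀ {X : Type} [MeasurableSpace X] (μ : Measure X) (f : X → E8), MemLp f 2 μ →
    cls μ f =ᵐ[μ] f
  dia_apply : ∀ {Dt : Type} [Fintype Dt] {H : Dt → Type} [∀ d, NormedAddCommGroup (H d)]
    [∀ d, InnerProductSpace ℂ (H d)] (A : ∀ d, H d →L[ℂ] H d) (x : PiLp 2 H) d,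
    dia A x d = A d (x d)
  mp_ae : ∀ {Dt : Type} [Fintype Dt] (T : Dt → ℝ × ℝ → E8 →L[ℂ] E8), (∀ d, ContinuousOn (T d) csq) →
    ∀ x d, mP T x d =ᵐ[volume.restrict sq] fun ω => T d ω (x d ω)
  mp_le : ∀ {Dt : Type} [Fintype Dt] (T : Dt → ℝ × ℝ → E8 →L[ℂ] E8) (C : ℝ), 0 ≤ C →
    (∀ d, ContinuousOn (T d) csq) → (∀ d, ∀ ω ∈ csq, ‖T d ω‖ ≤ C) → ‖mP T‖ ≤ C
  mp_add : ∀ {Dt : Type} [Fintype Dt] (T T' : Dt → ℝ × ℝ → E8 →L[ℂ] E8),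
    (∀ d, ContinuousOn (T d) csq) → (∀ d, ContinuousOn (T' d) csq) →
    mP (fun d ω => T d ω + T' d ω) = mP T + mP T' ∧ mP (fun d ω => T d ω * T' d ω) = mP T * mP T'
  mp_smul : ∀ {Dt : Type} [Fintype Dt] (T : Dt → ℝ × ℝ → E8 →L[ℂ] E8) (a : ℂ),
    (∀ d, ContinuousOn (T d) csq) → mP (fun d ω => a • T d ω) = a • mP T ∧
      mP (fun d ω => star (T d ω)) = ContinuousLinearMap.adjoint (mP T)
  mp_one : ∀ {Dt : Type} [Fintype Dt], mP (fun (_ : Dt) _ => 1) = 1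
  inn : ∀ {Dt : Type} [Fintype Dt] (x y : HP Dt),
    ⟪x, y⟫_ℂ = ∑ d, ∫ ω in sq, ⟪x d ω, y d ω⟫_ℂ

/-! Triangles -/

structure TRI_s : Prop where
  hd_mob : ∀ g p q r, p.im ≠ 0 → q.im ≠ 0 → r.im ≠ 0 → hd (mob g p) (mob g q) (mob g r) =
    hd p q r / (normSq (den g p) * normSq (den g q) * normSq (den g r))
  tri_mob : ∀ g p q r w, 0 < p.im → 0 < q.im → 0 < r.im → 0 < w.im →
    (mob g w ∈ tri (mob g p) (mob g q) (mob g r) ↔ w ∈ tri p q r)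
  seg_mob : ∀ g p q w, 0 < p.im → 0 < q.im → 0 < w.im →
    (mob g w ∈ seg (mob g p) (mob g q) ↔ w ∈ seg p q)
  tri_rot : ∀ p q r, tri p q r = tri q r p
  seg_symm : ∀ p q, seg p q = seg q p
  seg_sub : ∀ p q r, PosT p q r → seg p q ⊆ tri p q r
  seg_iff : ∀ p q r w, PosT p q r → w ∈ tri p q r → (w ∈ seg p q ↔ hd p q w = 0)
  sub : ∀ p q r p' q' r', PosT p q r → PosT p' q' r' → p' ∈ tri p q r → q' ∈ tri p q r →
    r' ∈ tri p q r → tri p' q' r' ⊆ tri p q r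
  cpt : ∀ p q r, PosT p q r → IsCompact (tri p q r)
  null : ∀ p q, p ≠ q → 0 < p.im → 0 < q.im → volume {w | hd p q w = 0} = 0
  nhd : ∀ p q r, PosT p q r → ∀ᵐ w ∂volume.restrict (tri p q r), tri p q r ∈ 𝓝 w

structure TRA_s : Prop where
  dif : ∀ {V : Type} [NormedAddCommGroup V] [NormedSpace ℝ V] [FiniteDimensional ℝ V] p q r
    (f : ℂ → V), PosT p q r → Lip f (tri p q r) →
    ∃ C : ℝ, ∀ᵐ w ∂volume.restrict (tri p q r), DifferentiableAt ℝ f w ∧ ‖fderiv ℝ f w‖ ≤ C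
  mem : ∀ p q r W, PosT p q r → Lip W (tri p q r) → MemLp (dF W) 2 (volume.restrict (tri p q r))
  lip_tp : ∀ g u p q r W, PosT p q r → Lip W (tri p q r) →
    Lip (tp g u W) (tri (mob g p) (mob g q) (mob g r))
  df_tp : ∀ g u W w k, 0 < w.im → DifferentiableAt ℝ W w →
    dF (tp g u W) (mob g w) k = ph g w k * dF W w k
  cv : ∀ g p q r (f : ℂ → ℂ), PosT p q r →
    (∫ w in tri (mob g p) (mob g q) (mob g r), f w) =
      (∫ w in tri p q r, f (mob g w) / (normSq (den g w) ^ 2 : ℝ)) ∧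
    (IntegrableOn f (tri (mob g p) (mob g q) (mob g r)) ↔
      IntegrableOn (fun w => f (mob g w) / (normSq (den g w) ^ 2 : ℝ)) (tri p q r))
  ae_mob : ∀ g p q r (P : ℂ → Prop), PosT p q r →
    (∀ᵐ w ∂volume.restrict (tri (mob g p) (mob g q) (mob g r)), P w) →
      ∀ᵐ w ∂volume.restrict (tri p q r), P (mob g w)

/-- Gluing along finite closed covers of a triangle or of a convex quadrilateral. -/
structure GLUE_s : Prop where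
  gl : ∀ {V ι : Type} [NormedAddCommGroup V] [Finite ι] p q r (A : ι → Set ℂ) (f : ℂ → V),
    PosT p q r → (∀ i, IsClosed (A i)) → tri p q r ⊆ ⋃ i, A i → (∀ i, Lip f (A i)) →
    Lip f (tri p q r)
  quad : ∀ p s q r, PosT p s q → PosT p q r → PosT p s r → PosT s q r →
    tri p s q ∪ tri p q r = tri p s r ∪ tri s q r ∧ tri p s q ∩ tri p q r = seg p q ∧
      tri p s r ∩ tri s q r = seg s r
  kite : ∀ p q r c, PosT p q c → PosT q r c → PosT r p c → PosT p q r ∧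
    tri p q r = tri p q c ∪ tri q r c ∪ tri r p c ∧ tri p q c ∩ tri q r c = seg q c

/-- The inscribed circle. -/
structure INC_s : Prop where
  star : ∀ {Dt : Type} [Fintype Dt] (nx rv : Dt → Dt) g z, Ok nx rv g z → Star nx rv g (incs nx g z) z
  smooth : ∀ p q r, PosT p q r →
    ContDiffAt ℝ (⊤ : ℕ∞) (fun x : ℂ × ℂ × ℂ => inc x.1 x.2.1 x.2.2) (p, q, r)
  near : ∀ {Dt : Type} [Fintype Dt] (nx rv : Dt → Dt) g c z, Star nx rv g c z →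
    ∀ᶠ w in 𝓝 z, Star nx rv g c w

/-! From faces to stars -/

def FS_s : Prop := ∀ {Dt : Type} [Fintype Dt] (nx rv : Dt → Dt) g c z v W, Star nx rv g c z →
  Adm nx rv g z v W → ∃ Y, SAdm nx rv g c z v Y ∧ Rel nx rv g c z W Y

def SF_s : Prop := ∀ {Dt : Type} [Fintype Dt] (nx rv : Dt → Dt) g c z v Y, Star nx rv g c z →
  Coc nx rv g v → SAdm nx rv g c z v Y → ∃ W, Adm nx rv g z v W ∧ Rel nx rv g c z W Y

/-- Integrals of invariant densities. -/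
def DENS_s : Prop := ∀ {Dt : Type} [Fintype Dt] (nx rv : Dt → Dt) g c z (ρ ρ' : Dt → ℂ → ℂ),
  Star nx rv g c z → (∀ d, IntegrableOn (ρ d) (face nx g z d)) →
  (∀ d, ∀ᵐ w ∂volume.restrict (face nx g z (nx d)),
    ρ d (mob (g d) w) = (normSq (den (g d) w) ^ 2 : ℝ) * ρ (nx d) w) →
  (∀ d, ∀ᵐ w ∂volume.restrict (str nx rv c z d), (w ∈ face nx g z d → ρ' d w = ρ d w) ∧
    (w ∈ face nx g z (nx (rv d)) → ρ' d w = ρ (nx (rv d)) w)) →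
  (∀ d, IntegrableOn (ρ' d) (str nx rv c z d)) ∧
    ∑ d, ∫ w in face nx g z d, ρ d w = 3 * ∑ d, ∫ w in str nx rv c z d, ρ' d w

/-! The polar map -/

structure GEO_s : Prop where
  zero : ∀ p q, 0 < p.im → 0 < q.im → geo p q 0 = p ∧ geo p q 1 = q
  im : ∀ p q l, 0 < p.im → 0 < q.im → l ∈ Icc (0 : ℝ) 1 → 0 < (geo p q l).im
  symm : ∀ p q l, 0 < p.im → 0 < q.im → l ∈ Icc (0 : ℝ) 1 → geo q p (1 - l) = geo p q l
  eqv : ∀ g p q l, 0 < p.im → 0 < q.im → l ∈ Icc (0 : ℝ) 1 →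
    mob g (geo p q l) = geo (mob g p) (mob g q) l
  img : ∀ p q, 0 < p.im → 0 < q.im → geo p q '' Icc 0 1 = seg p q
  smooth : ∀ p q l, 0 < p.im → 0 < q.im → l ∈ Icc (0 : ℝ) 1 →
    ContDiffAt ℝ (⊤ : ℕ∞) (fun x : ℂ × ℂ × ℝ => geo x.1 x.2.1 x.2.2) (p, q, l) ∧
    ContDiffAt ℝ (⊤ : ℕ∞) (fun x : ℂ × ℂ × ℝ => geo' x.1 x.2.1 x.2.2) (p, q, l)
  nn_ne : ∀ z y s, 0 < z.im → 0 < y.im → s ∈ Icc (0 : ℝ) 1 → NN z y s ≠ 0
  ray0 : ∀ z y, 0 < z.im → 0 < y.im → ray z y 0 = y ∧ ray z y 1 = z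
  rimg : ∀ z y, 0 < z.im → 0 < y.im → ray z y '' Icc 0 1 = seg z y

structure GEP_s : Prop where
  der : ∀ z p q ω, 0 < z.im → 0 < p.im → 0 < q.im → ω ∈ csq → ∃ A : ℝ × ℝ →L[ℝ] ℂ,
    HasFDerivAt (DD z p q) A ω ∧ A (1, 0) = (1 - ω.2 : ℝ) * e1 z p q ω ∧ A (0, 1) = e2 z p q ω
  jpos : ∀ z p q ω, PosT z p q → ω ∈ csq → 0 < jc (e1 z p q ω) (e2 z p q ω)
  plip : ∀ z p q, 0 < z.im → 0 < p.im → 0 < q.im → PLip (DD z p q)
  sm : ∀ z p q ω, 0 < z.im → 0 < p.im → 0 < q.im → ω ∈ csq →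
    ContDiffAt ℝ (⊤ : ℕ∞) (fun x : (ℂ × ℂ × ℂ) × ℝ × ℝ => DD x.1.1 x.1.2.1 x.1.2.2 x.2) ((z, p, q), ω) ∧
    ContDiffAt ℝ (⊤ : ℕ∞) (fun x : (ℂ × ℂ × ℂ) × ℝ × ℝ => e1 x.1.1 x.1.2.1 x.1.2.2 x.2) ((z, p, q), ω) ∧
    ContDiffAt ℝ (⊤ : ℕ∞) (fun x : (ℂ × ℂ × ℂ) × ℝ × ℝ => e2 x.1.1 x.1.2.1 x.1.2.2 x.2) ((z, p, q), ω)

structure POL_s : Prop where
  img : ∀ z p q, PosT z p q → DD z p q '' csq = tri z p q
  inj : ∀ z p q, PosT z p q → ∃ C : ℝ, ∀ ω ∈ csq, ∀ ω' ∈ csq,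
    (1 - ω.2) * |ω.1 - ω'.1| + |ω.2 - ω'.2| ≤ C * ‖DD z p q ω - DD z p q ω'‖

/-- Calculus for maps that are Lipschitz in the polar metric. -/
structure PL_s : Prop where
  ext : ∀ {V : Type} [NormedAddCommGroup V] [NormedSpace ℝ V] (f : ℝ × ℝ → V), PLip f →
    ∃ (f' : ℝ × ℝ → V) (C : ℝ≥0), LipschitzWith C f' ∧ ∀ ω ∈ csq, f' ω = f ω
  dif : ∀ {V : Type} [NormedAddCommGroup V] [NormedSpace ℝ V] [FiniteDimensional ℝ V]
    (f : ℝ × ℝ → V), PLip f → ∃ C : ℝ, ∀ᵐ ω ∂volume.restrict sq,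
      DifferentiableAt ℝ f ω ∧ ‖r1 f ω‖ ≤ C ∧ ‖r2 f ω‖ ≤ C
  meas : ∀ {V : Type} [NormedAddCommGroup V] [NormedSpace ℝ V] [FiniteDimensional ℝ V]
    (f : ℝ × ℝ → V), PLip f → AEStronglyMeasurable (r1 f) (volume.restrict sq) ∧
      AEStronglyMeasurable (r2 f) (volume.restrict sq)
  bil : ∀ {V V' V'' : Type} [NormedAddCommGroup V] [NormedSpace ℝ V] [NormedAddCommGroup V']
    [NormedSpace ℝ V'] [NormedAddCommGroup V''] [NormedSpace ℝ V''] (β : V →L[ℝ] V' →L[ℝ] V'')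
    (f : ℝ × ℝ → V) (f' : ℝ × ℝ → V'), PLip f → PLip f' → PLip fun ω => β (f ω) (f' ω)
  comp : ∀ {V V' : Type} [NormedAddCommGroup V] [NormedSpace ℝ V] [FiniteDimensional ℝ V]
    [NormedAddCommGroup V'] [NormedSpace ℝ V'] (φ : V → V') (f : ℝ × ℝ → V), PLip f →
    (∀ ω ∈ csq, ContDiffAt ℝ 1 φ (f ω)) → PLip fun ω => φ (f ω)

structure PM_s : Prop where
  congr : ∀ z p q (f f' : ℝ × ℝ → Mat), (∀ ω ∈ csq, f ω = f' ω) → ∀ ω ∈ sq,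
    dq z p q f ω = dq z p q f' ω
  mem : ∀ z p q U, PosT z p q → PLip U → MemLp (dq z p q U) 2 (volume.restrict sq)
  lin : ∀ {Dt : Type} [Fintype Dt] (nx rv : Dt → Dt) g c z (U U' : Dt → ℝ × ℝ → Mat) (a : ℂ),
    Star nx rv g c z → (∀ d, PLip (U d)) → (∀ d, PLip (U' d)) →
    dP nx rv c z (U + U') = dP nx rv c z U + dP nx rv c z U' ∧
      dP nx rv c z (a • U) = a • dP nx rv c z U
  adm : ∀ {Dt : Type} [Fintype Dt] (nx rv : Dt → Dt) g v v' U U' (a : ℂ), PAdm nx rv g v U →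
    PAdm nx rv g v' U' → PAdm nx rv g (v + v') (U + U') ∧ PAdm nx rv g (a • v) (a • U)
  aff : ∀ {Dt : Type} [Fintype Dt] (nx rv : Dt → Dt) g v, Flat nx rv g → Coc nx rv g v →
    PAdm nx rv g v (aff nx rv g v)

/-- Change of variables along the polar map. -/
structure CVP_s : Prop where
  int : ∀ z p q (f : ℂ → ℂ), PosT z p q →
    (∫ w in tri z p q, f w) = (∫ ω in sq, (rj z p q ω ^ 2 : ℝ) * f (DD z p q ω)) ∧
    (IntegrableOn f (tri z p q) ↔ IntegrableOn (fun ω => (rj z p q ω ^ 2 : ℝ) * f (DD z p q ω)) sq)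
  ae : ∀ z p q (P : ℂ → Prop), PosT z p q →
    ((∀ᵐ w ∂volume.restrict (tri z p q), P w) ↔ ∀ᵐ ω ∂volume.restrict sq, P (DD z p q ω))
  jet : ∀ z p q Y U, PosT z p q → Lip Y (tri z p q) → (∀ ω ∈ csq, U ω = Y (DD z p q ω)) →
    ∀ᵐ ω ∂volume.restrict sq, dq z p q U ω = (rj z p q ω : ℂ) • dF Y (DD z p q ω)

structure SP_s : Prop where
  sp : ∀ {Dt : Type} [Fintype Dt] (nx rv : Dt → Dt) g c z v Y, Star nx rv g c z →
    SAdm nx rv g c z v Y → PAdm nx rv g v fun d ω => Y d (Dd nx rv c z d ω)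
  ps : ∀ {Dt : Type} [Fintype Dt] (nx rv : Dt → Dt) g c z v U, Star nx rv g c z →
    PAdm nx rv g v U → ∃ Y, SAdm nx rv g c z v Y ∧ ∀ d, ∀ ω ∈ csq, U d ω = Y d (Dd nx rv c z d ω)

/-- The section `U` on the squares is the section `W` on the faces. -/
def Lk {Dt : Type} (nx rv : Dt → Dt) (g : Dt → G) (c : Dt → ℂ) (z : ℂ) {V : Type} (W : Dt → ℂ → V)
    (U : Dt → ℝ × ℝ → V) : Prop :=
  ∀ d, ∀ ω ∈ csq, (Dd nx rv c z d ω ∈ face nx g z d → U d ω = W d (Dd nx rv c z d ω)) ∧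
    (Dd nx rv c z d ω ∈ face nx g z (nx (rv d)) → U d ω = W (nx (rv d)) (Dd nx rv c z d ω))

structure EQ_s : Prop where
  fp : ∀ {Dt : Type} [Fintype Dt] (nx rv : Dt → Dt) g c z v W, Star nx rv g c z →
    Adm nx rv g z v W → ∃ U, PAdm nx rv g v U ∧ Lk nx rv g c z W U
  pf : ∀ {Dt : Type} [Fintype Dt] (nx rv : Dt → Dt) g c z v U, Star nx rv g c z → Coc nx rv g v →
    PAdm nx rv g v U → ∃ W, Adm nx rv g z v W ∧ Lk nx rv g c z W U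
  inn : ∀ {Dt : Type} [Fintype Dt] (nx rv : Dt → Dt) g c z v v' W W' U U' κ, Star nx rv g c z →
    Adm nx rv g z v W → Adm nx rv g z v' W' → PAdm nx rv g v U → PAdm nx rv g v' U' →
    Lk nx rv g c z W U → Lk nx rv g c z W' U' →
    ⟪dT nx g z W, dgT nx g z κ (dT nx g z W')⟫_ℂ = 3 * ⟪dP nx rv c z U, dgP κ (dP nx rv c z U')⟫_ℂ
  en : ∀ {Dt : Type} [Fintype Dt] (nx rv : Dt → Dt) g z v W, Ok nx rv g z → Adm nx rv g z v W →
    en nx g z W = ‖dT nx g z W‖ ^ 2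
  eq : ∀ {Dt : Type} [Fintype Dt] (nx rv : Dt → Dt) g c z v, Star nx rv g c z → Coc nx rv g v →
    Fn nx rv g z v = 3 * Fp nx rv g c z v

/-- Limits of differentials in the two models. -/
def LINK_s : Prop := ∀ {Dt : Type} [Fintype Dt] (nx rv : Dt → Dt) g c z v, Star nx rv g c z →
  Coc nx rv g v → ∀ a ∈ closure {b | ∃ U, PAdm nx rv g v U ∧ b = dP nx rv c z U},
  ∃ x ∈ closure {y | ∃ W, Adm nx rv g z v W ∧ y = dT nx g z W}, ‖x‖ ^ 2 = 3 * ‖a‖ ^ 2 ∧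
    (∀ d, ∀ᵐ ω ∂volume.restrict sq,
      (Dd nx rv c z d ω ∈ face nx g z d →
        a d ω = (rj z (c (nx (rv d))) (c d) ω : ℂ) • x d (Dd nx rv c z d ω)) ∧
      (Dd nx rv c z d ω ∈ face nx g z (nx (rv d)) →
        a d ω = (rj z (c (nx (rv d))) (c d) ω : ℂ) • x (nx (rv d)) (Dd nx rv c z d ω))) ∧
    (∀ d, ∀ᵐ w ∂volume.restrict (face nx g z (nx d)), ∀ k,
      x d (mob (g d) w) k = ph (g d) w k * x (nx d) w k) ∧
    ∀ v' W U κ, Adm nx rv g z v' W → PAdm nx rv g v' U → Lk nx rv g c z W U →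
      ⟪dT nx g z W, dgT nx g z κ x⟫_ℂ = 3 * ⟪dP nx rv c z U, dgP κ a⟫_ℂ

/-! Stokes and Poincaré -/

def ST_s : Prop := ∀ {Dt : Type} [Fintype Dt] (nx rv : Dt → Dt) g v v' U U', Flat nx rv g →
  Coc nx rv g v → Coc nx rv g v' → PAdm nx rv g v U → PAdm nx rv g v' U' →
  ∑ d, ∫ ω in sq, (bb (lineDeriv ℝ (U d) ω (1, 0)) (lineDeriv ℝ (U' d) ω (0, 1)) -
    bb (lineDeriv ℝ (U d) ω (0, 1)) (lineDeriv ℝ (U' d) ω (1, 0))) = om nx g v v'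

def ISO_s : Prop := ∀ {Dt : Type} [Fintype Dt] (nx rv : Dt → Dt) g c z v v' U U',
  Star nx rv g c z → Coc nx rv g v → Coc nx rv g v' → PAdm nx rv g v U → PAdm nx rv g v' U' →
  ⟪dP nx rv c z U, CP (dP nx rv c z U')⟫_ℂ = om nx g (fun d => cj (v d)) v' / (2 * I)

def POI_s : Prop := ∀ {Dt : Type} [Fintype Dt] (nx rv : Dt → Dt) g, Flat nx rv g → OneV nx rv →
  Irr g → ∃ C : ℝ, ∀ U, PAdm nx rv g 0 U →
    ∑ d, ∫ ω in sq, (1 - ω.2) * ‖tl (U d ω)‖ ^ 2 ≤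
      C * ∑ d, ∫ ω in sq, (1 - ω.2) * (‖r1 (U d) ω‖ ^ 2 + ‖r2 (U d) ω‖ ^ 2)

/-! The variation of Hodge structure -/

structure PUR_s : Prop where
  adm : ∀ {Dt : Type} [Fintype Dt] (nx rv : Dt → Dt) g c z U p, Star nx rv g c z →
    PAdm nx rv g 0 U → PAdm nx rv g 0 fun d ω => pur p (Dd nx rv c z d ω) (U d ω)
  sub : ∀ {Dt : Type} [Fintype Dt] (nx rv : Dt → Dt) g c z p b, Star nx rv g c z →
    (b ∈ BS nx rv g c z p ↔ b ∈ BP nx rv g c z p)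
  all : ∀ {Dt : Type} [Fintype Dt] (nx rv : Dt → Dt) g c z b, Star nx rv g c z →
    (b ∈ BB nx rv g c z ↔ ∃ U, PAdm nx rv g 0 U ∧ b = dP nx rv c z U)

def TYP_s : Prop := ∀ {Dt : Type} [Fintype Dt] (nx rv : Dt → Dt) g c z p, Star nx rv g c z →
  ∀ b ∈ BP nx rv g c z p, prP (p + 1) b + prP p b = b

structure COMM_s : Prop where
  cont : ∀ z p q, PosT z p q → ContinuousOn (th1 z p q) csq ∧ ContinuousOn (th2 z p q) csq
  down : ∀ {Dt : Type} [Fintype Dt] (nx rv : Dt → Dt) g c z p, Star nx rv g c z →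
    ∀ b ∈ BP nx rv g c z (p + 1), ∃ β ∈ BP nx rv g c z p,
      prP p β = thP nx rv c z (prP (p + 1) b)
  up : ∀ {Dt : Type} [Fintype Dt] (nx rv : Dt → Dt) g c z p, Star nx rv g c z →
    ∀ b ∈ BP nx rv g c z p, ∃ β ∈ BP nx rv g c z (p + 1),
      prP (p + 2) β = ContinuousLinearMap.adjoint (thP nx rv c z) (prP (p + 1) b)

def VHS_s : Prop := ∀ {Dt : Type} [Fintype Dt] (nx rv : Dt → Dt) g c z, Star nx rv g c z →
  V18.Vhs prP (thP nx rv c z) (BS nx rv g c z)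

/-- The pointwise change of the Hodge metric. -/
structure PW_s : Prop where
  eq : ∀ w w' a b a' b' X₁ X₂, 0 < w.im → 0 < w'.im → 0 < jc a b → 0 < jc a' b' →
    ‖JJ w' a' b' X₁ X₂‖ ^ 2 = (⟪JJ w a b X₁ X₂,
      Gm ((w' - w) / (w' - conj w)) (czb a b a' b' / cz a b a' b') (JJ w a b X₁ X₂)⟫_ℂ).re
  sa : ∀ φ ψ, star (Gm φ ψ) = Gm φ ψ
  cont : ContinuousOn (fun x : ℂ × ℂ => Gm x.1 x.2) {x | ‖x.1‖ < 1 ∧ ‖x.2‖ < 1}
  exp : ∃ C : ℝ, ∀ φ ψ : ℂ, ∀ ε ≤ 1 / 2, ‖φ‖ ≤ ε → ‖ψ‖ ≤ ε →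
    ‖Gm φ ψ - (1 - (2 : ℂ) • (th φ ψ + star (th φ ψ)) +
      (2 : ℂ) • ((th φ ψ + star (th φ ψ)) * (th φ ψ + star (th φ ψ))))‖ ≤ C * ε ^ 3

/-- Uniform expansion of the two Beltrami coefficients. -/
def PHI_s : Prop := ∀ z p q, PosT z p q → ∃ (s₁ s₂ : ℝ × ℝ → ℂ) (C : ℝ), ContinuousOn s₁ csq ∧
  ContinuousOn s₂ csq ∧ ∀ᶠ t in 𝓝 (0 : ℂ), ContinuousOn (ph1 z (z + t) p q) csq ∧
    ContinuousOn (ph2 z (z + t) p q) csq ∧ ∀ ω ∈ csq,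
    ‖ph1 z (z + t) p q ω - (t * th1 z p q ω + t ^ 2 * s₁ ω)‖ ≤ C * ‖t‖ ^ 3 ∧
    ‖ph2 z (z + t) p q ω - (t * th2 z p q ω + t ^ 2 * s₂ ω)‖ ≤ C * ‖t‖ ^ 3

structure MOT_s : Prop where
  exp : ∀ {Dt : Type} [Fintype Dt] (nx rv : Dt → Dt) g c z, Star nx rv g c z →
    ∃ (S S' : HP Dt →L[ℂ] HP Dt) (C : ℝ), ∀ᶠ t in 𝓝 (0 : ℂ),
      ‖GP nx rv c z (z + t) - (1 - (2 * t) • thP nx rv c z -
        (2 * conj t) • ContinuousLinearMap.adjoint (thP nx rv c z) + (2 * (t * conj t)) •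
          (thP nx rv c z * ContinuousLinearMap.adjoint (thP nx rv c z) +
            ContinuousLinearMap.adjoint (thP nx rv c z) * thP nx rv c z) +
          t ^ 2 • S + conj t ^ 2 • S')‖ ≤ C * ‖t‖ ^ 3
  eq : ∀ {Dt : Type} [Fintype Dt] (nx rv : Dt → Dt) g c z, Star nx rv g c z →
    ∀ᶠ t in 𝓝 (0 : ℂ), (∀ x y, ⟪GP nx rv c z (z + t) x, y⟫_ℂ = ⟪x, GP nx rv c z (z + t) y⟫_ℂ) ∧
      ∀ U, (∀ d, PLip (U d)) → ‖dP nx rv c (z + t) U‖ ^ 2 =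
        (⟪dP nx rv c z U, GP nx rv c z (z + t) (dP nx rv c z U)⟫_ℂ).re

/-- The harmonic representative. -/
def HARM_s : Prop := ∀ {Dt : Type} [Fintype Dt] (nx rv : Dt → Dt) g c z, Star nx rv g c z →
  ∃ A : (Dt → Mat) →ₗ[ℂ] HP Dt, ∀ v, Coc nx rv g v → A v ∈ V18.Hm prP (BS nx rv g c z) ∧
    (∀ U, PAdm nx rv g v U → A v - dP nx rv c z U ∈ (BB nx rv g c z).topologicalClosure) ∧
    Fp nx rv g c z v = ‖A v‖ ^ 2 ∧ ContinuousAt (fun w => Fp nx rv g c w v) z ∧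
    V18.Jet (fun w => Fp nx rv g c w v) z (-4 * ⟪A v, thP nx rv c z (A v)⟫_ℂ)
      (2 * V18.curv prP (thP nx rv c z) (BS nx rv g c z) (A v))

/-! Dependence on parameters -/

def CURRY_s : Prop := ∀ (n : ℕ) {X Y F : Type} [NormedAddCommGroup X] [NormedSpace ℝ X]
  [FiniteDimensional ℝ X] [NormedAddCommGroup Y] [NormedSpace ℝ Y] [NormedAddCommGroup F]
  [NormedSpace ℝ F] (K : Set Y) [CompactSpace K] (f : X × Y → F) (x₀ : X),
  (∀ y ∈ K, ContDiffAt ℝ n f (x₀, y)) → ∃ φ : X → C(K, F), ContDiffAt ℝ n φ x₀ ∧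
    ∀ᶠ x in 𝓝 x₀, ∀ y : K, φ x y = f (x, y)

def MIN_s : Prop := ∀ (n : ℕ) {X H₁ H₂ : Type} [NormedAddCommGroup X] [NormedSpace ℝ X]
  [NormedAddCommGroup H₁] [InnerProductSpace ℂ H₁] [CompleteSpace H₁] [NormedAddCommGroup H₂]
  [InnerProductSpace ℂ H₂] [CompleteSpace H₂] (a : X → H₂) (T : X → H₁ →L[ℂ] H₂) (x₀ : X) (c : ℝ),
  0 < c → ContDiffAt ℝ n a x₀ → ContDiffAt ℝ n T x₀ → (∀ y, c * ‖y‖ ≤ ‖T x₀ y‖) →
  ContDiffAt ℝ n (fun x => sInf {e | ∃ y, e = ‖a x + T x y‖ ^ 2}) x₀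

/-- Smooth families of data. -/
structure Fam {Dt X : Type} [NormedAddCommGroup X] [NormedSpace ℝ X] (nx rv : Dt → Dt)
    (g : X → Dt → G) (z : X → ℂ) (v : X → Dt → Mat) (x₀ : X) : Prop where
  sg : ∀ d i j, ContDiffAt ℝ (⊤ : ℕ∞) (fun x => g x d i j) x₀
  sz : ContDiffAt ℝ (⊤ : ℕ∞) z x₀
  sv : ∀ d i j, ContDiffAt ℝ (⊤ : ℕ∞) (fun x => v x d i j) x₀
  ev : ∀ᶠ x in 𝓝 x₀, Flat nx rv (g x) ∧ Coc nx rv (g x) (v x)
  one : OneV nx rv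
  irr : Irr (g x₀)

def C2P_s : Prop := ∀ {Dt X : Type} [Fintype Dt] [NormedAddCommGroup X] [NormedSpace ℝ X]
  [FiniteDimensional ℝ X] (nx rv : Dt → Dt) g z v (c : X → Dt → ℂ) x₀, Fam nx rv g z v x₀ →
  (∀ d, ContDiffAt ℝ (⊤ : ℕ∞) (fun x => c x d) x₀) → (∀ᶠ x in 𝓝 x₀, Star nx rv (g x) (c x) (z x)) →
  ContDiffAt ℝ 2 (fun x => Fp nx rv (g x) (c x) (z x) (v x)) x₀

/-! Output -/

structure OUT_s : Prop where
  quad : ∀ {Dt : Type} [Fintype Dt] (nx rv : Dt → Dt) g z, Ok nx rv g z →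
    ∃ A : (Dt → Mat) →ₗ[ℂ] HP Dt, (∀ v, Coc nx rv g v → Fn nx rv g z v = ‖A v‖ ^ 2) ∧
      (∀ v v', Coc nx rv g v → Coc nx rv g v' → ‖om nx g (fun d => cj (v d)) v'‖ ^ 2 ≤
        Fn nx rv g z v * Fn nx rv g z v') ∧ ∀ K : Mat, A (fun d => K - Ad (g d) K) = 0
  jet : ∀ {Dt : Type} [Fintype Dt] (nx rv : Dt → Dt) g z v, Ok nx rv g z → Coc nx rv g v →
    ContinuousAt (fun w => Fn nx rv g w v) z ∧ ∃ α κ, V18.Jet (fun w => Fn nx rv g w v) z α κ ∧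
      0 ≤ κ ∧ 8 * ‖α‖ ^ 2 ≤ 25 * Fn nx rv g z v * κ
  c2 : ∀ {Dt X : Type} [Fintype Dt] [NormedAddCommGroup X] [NormedSpace ℝ X]
    [FiniteDimensional ℝ X] (nx rv : Dt → Dt) g z v (x₀ : X), Fam nx rv g z v x₀ →
    Ok nx rv (g x₀) (z x₀) → ContDiffAt ℝ 2 (fun x => Fn nx rv (g x) (z x) (v x)) x₀

structure INV_s : Prop where
  cnj : ∀ {Dt : Type} [Fintype Dt] (nx rv : Dt → Dt) g z v (k : G), Ok nx rv g z →
    Fn nx rv (fun d => k * g d * k⁻¹) (mob k z) (fun d => Ad k (v d)) = Fn nx rv g z v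
  iso : ∀ {Dt Dt' : Type} [Fintype Dt] [Fintype Dt'] (nx rv : Dt → Dt) (nx' rv' : Dt' → Dt') g g' z
    v v' (σ : Dt ≃ Dt'), 0 < z.im → (∀ d, σ (nx d) = nx' (σ d)) → (∀ d, σ (rv d) = rv' (σ d)) →
    (∀ d, (g' (σ d) = g d ∨ g' (σ d) = -g d) ∧ v' (σ d) = v d) →
    Fn nx' rv' g' z v' = Fn nx rv g z v

/-- The faces `(e, a, b)`, `(rv e, c, h)` become `(e, b, c)`, `(rv e, h, a)`. -/
structure Flp {Dt : Type} (nx nx' rv : Dt → Dt) (e : Dt) : Prop where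
  e1 : nx' e = nx (nx e)
  e2 : nx' (nx (nx e)) = nx (rv e)
  e3 : nx' (nx (rv e)) = e
  e4 : nx' (rv e) = nx (nx (rv e))
  e5 : nx' (nx (nx (rv e))) = nx e
  e6 : nx' (nx e) = rv e
  out : ∀ x, x ≠ e → x ≠ nx e → x ≠ nx (nx e) → x ≠ rv e → x ≠ nx (rv e) → x ≠ nx (nx (rv e)) →
    nx' x = nx x
  sep : rv e ≠ e ∧ rv e ≠ nx e ∧ rv e ≠ nx (nx e)
  ne : ∀ x, nx x ≠ x

/-- One inequality, with the pairing. -/
def FLIP_s : Prop := ∀ {Dt : Type} [Fintype Dt] (nx nx' rv : Dt → Dt) g g' z v v' e,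
  Ok nx rv g z → Ok nx' rv g' z → Flp nx nx' rv e → Coc nx rv g v → Coc nx' rv g' v' →
  (∀ x, x ≠ e → x ≠ rv e → g' x = g x ∧ v' x = v x) →
  ∀ W, Adm nx rv g z v W → ∃ W', Adm nx' rv g' z v' W' ∧ en nx' g' z W' = en nx g z W

def FLIPQ_s : Prop := ∀ {Dt : Type} [Fintype Dt] (nx nx' rv : Dt → Dt) g g' z v v' e,
  Ok nx rv g z → Ok nx' rv g' z → Flp nx nx' rv e → Coc nx rv g v → Coc nx' rv g' v' →
  (∀ x, x ≠ e → x ≠ rv e → g' x = g x ∧ v' x = v x) → Fn nx' rv g' z v' = Fn nx rv g z v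

end Pool.Agent.MP_596265_gt.Hd

end

section

/-! Block H, adapter: formal properties of `Fn`. -/

namespace Pool.Agent.MP_596265_gt.Hd.Ad1

open MeasureTheory Set Complex
open scoped ComplexConjugate Matrix.Norms.Elementwise NNReal Pointwise

variable {Dt : Type} [Fintype Dt] {nx rv : Dt → Dt} {g : Dt → G} {z : ℂ} {v : Dt → Mat}

theorem Ad_smul (a : G) (c : ℂ) (X : Mat) : Ad a (c • X) = c • Ad a X := by
  simp only [Ad, mul_smul_comm, smul_mul_assoc]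

theorem dz_smul {V : Type} [NormedAddCommGroup V] [NormedSpace ℂ V] (c : ℂ) (W : ℂ → V) (w : ℂ) :
    dz (c • W) w = c • dz W w ∧ dzb (c • W) w = c • dzb W w := by
  have e : fderiv ℝ (c • W) w = c • fderiv ℝ W w := congrFun (fderiv_const_smul_field c) w
  simp only [dz, dzb, e, _root_.smul_apply]
  constructor <;> module

theorem dF_smul (c : ℂ) (W : ℂ → Mat) (w : ℂ) : dF (c • W) w = c • dF W w := by
  ext k
  simp only [dF, J, dz_smul, PiLp.smul_apply, smul_eq_mul]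
  split_ifs <;> simp only [ev, Matrix.smul_apply, smul_eq_mul] <;> ring

theorem en_nonneg (W : Dt → ℂ → Mat) : 0 ≤ en nx g z W :=
  Finset.sum_nonneg fun _ _ => integral_nonneg fun _ => sq_nonneg _

theorem Fn_nonneg : 0 ≤ Fn nx rv g z v :=
  Real.sInf_nonneg (by rintro _ ⟨W, -, rfl⟩; exact en_nonneg W)

theorem en_smul (c : ℂ) (W : Dt → ℂ → Mat) : en nx g z (c • W) = ‖c‖ ^ 2 * en nx g z W := by
  simp only [en, Pi.smul_apply, dF_smul, norm_smul, mul_pow, integral_const_mul, Finset.mul_sum]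

omit [Fintype Dt] in
theorem adm_smul (c : ℂ) {W : Dt → ℂ → Mat} (h : Adm nx rv g z v W) :
    Adm nx rv g z (c • v) (c • W) := by
  refine ⟨fun d => ?_, fun d w hw => ?_, fun d w hw => ?_⟩
  · obtain ⟨C, hC⟩ := h.lip d
    exact ⟨_, (lipschitzWith_smul c).comp_lipschitzOnWith hC⟩
  · simp only [Pi.smul_apply, h.rot d w hw, Ad_smul, smul_add]
  · simp only [Pi.smul_apply, h.edge d w hw]

theorem Fn_cob (K : Mat) (h : ∀ d, v d = K - Ad (g d) K) : Fn nx rv g z v = 0 := by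
  refine le_antisymm (csInf_le ⟨0, by rintro _ ⟨W, -, rfl⟩; exact en_nonneg W⟩
    ⟨fun _ _ => K, ⟨fun _ => ⟨0, by simp [LipschitzOnWith]⟩, fun d _ _ => by simp [h d],
      fun _ _ _ => rfl⟩, ?_⟩) Fn_nonneg
  have e : ∀ w, dF (fun _ => K) w = 0 := fun w => by
    ext k
    simp [dF, J, dz, dzb, ev]
  simp [en, e]

theorem Fn_zero : Fn nx rv g z 0 = 0 := Fn_cob 0 fun _ => by simp [Ad]

theorem Fn_smul (c : ℂ) : Fn nx rv g z (c • v) = ‖c‖ ^ 2 * Fn nx rv g z v := by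
  rcases eq_or_ne c 0 with rfl | hc
  · simp [Fn_zero]
  rw [Fn, Fn, ← smul_eq_mul, ← Real.sInf_smul_of_nonneg (sq_nonneg _)]
  congr 1
  ext e
  constructor
  · rintro ⟨W, h, rfl⟩
    refine ⟨_, ⟨c⁻¹ • W, by simpa [hc] using adm_smul c⁻¹ h, rfl⟩, ?_⟩
    simp only [smul_eq_mul, ← en_smul, smul_inv_smul₀ hc]
  · rintro ⟨_, ⟨W, h, rfl⟩, rfl⟩
    exact ⟨_, adm_smul c h, (en_smul c W).symm⟩

end Pool.Agent.MP_596265_gt.Hd.Ad1

end
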