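import Pool.Agent.MP_596265_gt.W.H0
import Pool.Agent.MP_596265_gt.W.L0

section

attribute [-instance] topologicalAddGroup_of_discreteTopology NormedRing.toRing
  ESeminormedAddCommMonoid.toAddCommMonoid ContinuousLinearMap.toSeminormedRing
  NonarchimedeanAddGroup.toIsTopologicalAddGroup AlgHom.instNonUnitalAlgHomClassOfAlgHomClass
  ContinuousLinearMap.toNormedAddCommGroup IsSemitopologicalSemiring.toContinuousAdd
  MonTypeEquivalenceMon.monMonoid RKHS.instFunLike CoalgHomClass.toSemilinearMapClass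
  instNonUnitalAlgHomClassOfNonUnitalAlgEquivClass IsTopologicalSemiring.toContinuousAdd
  Distrib.toAdd

namespace Pool.Agent.MP_596265_gt.Hd

open MeasureTheory Set Complex Filter Topology
open scoped ComplexConjugate Matrix.Norms.Elementwise NNReal InnerProductSpace

namespace ALGx

lemma cx_mul (g h : G) : cx (g * h) = cx g * cx h := by
  ext i j; simp only [cx, Matrix.SpecialLinearGroup.coe_mul, Matrix.map_apply, Matrix.mul_apply, Fin.sum_univ_two, Fin.isValue, ofReal_add, ofReal_mul]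
lemma cx_one : cx 1 = 1 := by
  ext i j; fin_cases i <;> fin_cases j <;> simp [cx]
lemma cx_neg (g : G) : cx (-g) = -cx g := by
  ext i j; simp [cx]
lemma cx_inv (g : G) : cx g⁻¹ * cx g = 1 := by rw [← cx_mul, inv_mul_cancel, cx_one]
lemma det (g : G) : ((g 0 0 : ℝ) : ℂ) * (g 1 1 : ℝ) - (g 0 1 : ℝ) * (g 1 0 : ℝ) = 1 := by
  have := g.det_coe
  rw [Matrix.det_fin_two] at this
  exact_mod_cast this
lemma ad_tr (g : G) (X : Mat) : (Ad g X).trace = X.trace := by
  rw [Ad, Matrix.trace_mul_cycle, cx_inv, one_mul]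
lemma ad_add (g : G) (X Y : Mat) : Ad g (X + Y) = Ad g X + Ad g Y := by
  simp [Ad, mul_add, add_mul]
lemma ad_smul (g : G) (c : ℂ) (X : Mat) : Ad g (c • X) = c • Ad g X := by simp [Ad]

lemma den_ne (g : G) (w : ℂ) (h : w.im ≠ 0) : den g w ≠ 0 := fun h0 => by
  have h1 : g 1 0 = 0 := by simpa [den, h] using congrArg im h0
  have h2 : g 1 1 = 0 := by simpa [den, h1] using h0
  simpa [h1, h2] using det g
lemma den_conj (g : G) (w : ℂ) : den g (conj w) = conj (den g w) := by simp [den]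
lemma mob_conj (g : G) (w : ℂ) : mob g (conj w) = conj (mob g w) := by simp only [mob, Fin.isValue, den, map_div₀, map_add, map_mul, conj_ofReal]
lemma dl_ne {w : ℂ} (h : w.im ≠ 0) : dl w ≠ 0 := by rw [dl, sub_conj]; simpa using h
lemma mob_im (g : G) (w : ℂ) : (mob g w).im = w.im / normSq (den g w) := by
  have := g.det_coe
  rw [Matrix.det_fin_two] at this
  rw [mob, div_im, ← sub_div]
  congr 1
  simp [den]
  linear_combination w.im * this

lemma ev_ad (g : G) (X : Mat) (s t : ℂ) (hs : den g s ≠ 0) (ht : den g t ≠ 0) :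
    ev (Ad g X) (mob g s) (mob g t) = ev X s t / (den g s * den g t) := by
  simp only [ev, mob, Ad, cx, Matrix.mul_apply, Fin.sum_univ_two, Matrix.map_apply,
    Matrix.SpecialLinearGroup.SL2_inv_expl, Matrix.cons_val_zero, Matrix.cons_val_one, ofReal_neg]
  field_simp
  unfold den
  linear_combination (X 0 0 * t + X 0 1 - t * s * X 1 0 - s * X 1 1) *
    (((g 0 0 : ℝ) : ℂ) * (g 1 1 : ℝ) - (g 0 1 : ℝ) * (g 1 0 : ℝ) + 1) * det g

lemma pt_den (g : G) {w : ℂ} (h : w.im ≠ 0) (i : Bool) :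
    den g (pt w i) ≠ 0 ∧ pt (mob g w) i = mob g (pt w i) ∧ ‖den g (pt w i)‖ = ‖den g w‖ := by
  cases i <;> simp [pt, den_conj, mob_conj, den_ne g w h]

lemma cp_ad (g : G) {w : ℂ} (h : w.im ≠ 0) (X : Mat) (i j : Bool) : cp (mob g w) (Ad g X) i j =
    den g w * den g (conj w) / (den g (pt w i) * den g (pt w j)) * cp w X i j := by
  have h1 := den_ne g w h
  have h2 := den_ne g (conj w) (by simpa using h)
  have h3 : dl (mob g w) = dl w / (den g w * den g (conj w)) := by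
    rw [dl, ← mob_conj, mob, mob, dl]
    field_simp
    unfold den
    linear_combination (w - conj w) * det g
  rw [cp, cp, (pt_den g h i).2.1, (pt_den g h j).2.1, ev_ad _ _ _ _ (pt_den g h i).1
    (pt_den g h j).1, h3]
  field_simp

lemma cp_mk (w : ℂ) (c : Bool → Bool → ℂ) (i j : Bool) (h : w.im ≠ 0) :
    cp w (mk w c) i j = c i j := by
  have := dl_ne h
  cases i <;> cases j <;> simp only [cp, ev, mk, Fintype.univ_bool, ite_mul, neg_mul, one_mul, nn, pt, Bool.not_eq_eq_eq_not, Bool.not_true, mul_ite, Matrix.smul_of, Matrix.smul_cons, smul_eq_mul, mul_neg, Matrix.smul_empty, mul_one, Finset.mem_singleton, Bool.true_eq_false, not_false_eq_true, Finset.sum_insert, ↓ reduceIte, Finset.sum_singleton, Matrix.of_add_of, Matrix.add_cons, Matrix.head_cons, Matrix.tail_cons, Matrix.empty_add_empty, Fin.isValue, Bool.false_eq_true, Matrix.add_apply, Matrix.of_apply, Matrix.cons_val', Matrix.cons_val_zero, Matrix.cons_val_fin_one,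 Matrix.cons_val_one] <;> field_simp <;> unfold dl <;> ring

lemma mk_cp (w : ℂ) (X : Mat) (h : w.im ≠ 0) : mk w (cp w X) = X := by
  have := dl_ne h
  ext i j
  fin_cases i <;> fin_cases j <;> simp only [mk, Fintype.univ_bool, cp, ev, Fin.isValue, pt, mul_ite, ite_mul, neg_mul, one_mul, nn, Bool.not_eq_eq_eq_not, Bool.not_true, Matrix.smul_of, Matrix.smul_cons, smul_eq_mul, mul_neg, Matrix.smul_empty, mul_one, Finset.mem_singleton, Bool.true_eq_false, not_false_eq_true, Finset.sum_insert, ↓ reduceIte, Finset.sum_singleton, Bool.false_eq_true, Matrix.of_add_of, Matrix.add_cons, Matrix.head_cons, Matrix.tail_cons, Matrix.empty_add_empty, Fin.zero_eta, Matrix.add_apply, Matrix.of_apply, Matrix.cons_val', Matrix.cons_val_zero, Matrix.cons_val_fin_one, Fin.mk_one, Matrix.cons_val_one] <;> field_simp <;> unfold dl <;> ring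

lemma mk_add (w : ℂ) (c c' : Bool → Bool → ℂ) : mk w c + mk w c' = mk w (c + c') := by
  simp only [mk, Pi.add_apply, mul_add, add_div, add_smul, Finset.sum_add_distrib]

lemma op_apply (M : Matrix Ix Ix ℂ) (x : E8) (k : Ix) : op M x k = ∑ l, M k l * x l := rfl

lemma op_star (M : Matrix Ix Ix ℂ) : star (op M) = op M.conjTranspose := by
  refine ((ContinuousLinearMap.eq_adjoint_iff _ _).2 fun x y => ?_).symm
  simp only [PiLp.inner_apply, op_apply, RCLike.inner_apply, map_sum, map_mul, Finset.mul_sum,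
    Finset.sum_mul, Matrix.conjTranspose_apply, star_def, conj_conj]
  rw [Finset.sum_comm]
  exact Finset.sum_congr rfl fun _ _ => Finset.sum_congr rfl fun _ _ => by ring

lemma dg_apply (c : Ix → ℂ) (x : E8) (k : Ix) : dg c x k = c k * x k :=
  Matrix.mulVec_diagonal c x k

lemma bb_cp {w : ℂ} (h : w.im ≠ 0) (X Y : Mat) : bb (cj X) Y =
    ∑ i, ∑ j, (-1) ^ (i.toNat + j.toNat) * (cp w Y i j * conj (cp w X i j)) := by
  have := dl_ne h
  have e : conj (dl w) = -dl w := by simp [dl]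
  simp only [bb, cj, Matrix.trace_fin_two, Fin.isValue, Matrix.mul_apply, Matrix.map_apply, Fin.sum_univ_two, Fintype.univ_bool, cp, ev, pt, mul_ite, ite_mul, map_div₀, map_sub, map_add, e, Finset.mem_singleton, Bool.true_eq_false, not_false_eq_true, Finset.sum_insert, Bool.toNat_true, ↓ reduceIte, map_mul, RingHomCompTriple.comp_apply, RingHom.id_apply, Finset.sum_singleton, Bool.toNat_false, add_zero, Bool.false_eq_true, Nat.reduceAdd, even_two, Even.neg_pow, one_pow, one_mul, pow_one, neg_mul, zero_add, pow_zero]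
  field_simp
  unfold dl
  ring

lemma qf (w a b : ℂ) (X₁ X₂ Y₁ Y₂ : Mat) (hw : 0 < w.im) (hj : 0 < jc a b) :
    ⟪JJ w a b X₁ X₂, Cs (JJ w a b Y₁ Y₂)⟫_ℂ = (bb (cj X₁) Y₂ - bb (cj X₂) Y₁) / (2 * I) := by
  have h1 : ∀ A B A' B' : Mat, ⟪J w A B, Cs (J w A' B')⟫_ℂ = bb (cj A) A' - bb (cj B) B' := by
    intro A B A' B'
    rw [bb_cp hw.ne', bb_cp hw.ne']
    simp only [PiLp.inner_apply, Cs, dg_apply, RCLike.inner_apply, Fintype.sum_prod_type,
      Fintype.sum_bool, J, cp, wt]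
    simp only [Bool.toNat_true, Nat.reduceAdd, ↓ reduceIte, map_div₀, Bool.toNat_false, add_zero, Bool.false_eq_true, even_two, Even.neg_pow, one_pow, one_mul, zero_add, pow_one, neg_mul, pow_zero]
    ring
  have h2 : a * conj b - b * conj a = -(2 * I * jc a b) := by
    apply Complex.ext <;> simp only [sub_re, mul_re, conj_re, conj_im, mul_neg, sub_neg_eq_add, jc, mul_im, neg_mul, ofReal_add, ofReal_mul, ofReal_neg, neg_re, re_ofNat, I_re, mul_zero, im_ofNat, I_im, mul_one, sub_self, add_re, ofReal_re, ofReal_im, sub_zero, zero_mul, add_zero, add_im, neg_im, neg_zero, sub_im, zero_add] <;> ring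
  have h3 : ((jc a b : ℝ) : ℂ) ≠ 0 := by exact_mod_cast hj.ne'
  have h4 : ∀ c : ℂ, bb (cj (c • (conj b • X₁ - conj a • X₂))) (c • (conj b • Y₁ - conj a • Y₂)) -
      bb (cj (c • (a • X₂ - b • X₁))) (c • (a • Y₂ - b • Y₁)) =
      conj c * (c * (a * conj b - b * conj a)) * (bb (cj X₁) Y₂ - bb (cj X₂) Y₁) := fun c => by
    simp only [bb, cj, Algebra.mul_smul_comm, Matrix.trace_smul, Matrix.trace_fin_two, Fin.isValue, Matrix.mul_apply, Matrix.map_apply, Matrix.smul_apply, Matrix.sub_apply, smul_eq_mul, map_mul, map_sub, RingHomCompTriple.comp_apply, RingHom.id_apply, Fin.sum_univ_two, Matrix.trace_sub]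
    ring
  rw [JJ, JJ, map_smul, inner_smul_left, inner_smul_right, h1, conj_ofReal, ← mul_assoc,
    ← ofReal_mul, Real.mul_self_sqrt hj.le, cz, cz, czb, czb, h4, h2, inv_mul_cancel₀ (by simp [h3])]
  simp only [inv_neg, mul_inv_rev, inv_I, neg_mul, mul_neg, neg_neg, map_mul, map_inv₀, conj_ofReal, conj_I, map_ofNat, mul_one]
  field_simp
  simp

end ALGx

open ALGx in
theorem ALG : ALG_s where
  ad_mul g h X := by simp only [Ad, mul_inv_rev, cx_mul, mul_assoc]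
  ad_one X := by simp [Ad, cx_one]
  ad_neg g X := by rw [Ad, Ad, inv_neg, cx_neg, cx_neg]; simp
  ad_add := ad_add
  ad_smul := ad_smul
  ad_id g := by rw [Ad, mul_one, ← cx_mul, mul_inv_cancel, cx_one]
  ad_cj g X := by
    ext i j
    simp only [cj, Ad, cx, Matrix.map_apply, Matrix.mul_apply, map_sum, map_mul, conj_ofReal]
  ad_tr := ad_tr
  ad_bb g X Y := by
    rw [bb, bb, ad_tr, ad_tr, ← ad_tr g (X * Y)]
    simp only [Ad, mul_assoc]
    rw [← mul_assoc (cx g⁻¹), cx_inv, one_mul]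
  ad_lip g := ⟨_, (LinearMap.toContinuousLinearMap
    (⟨⟨Ad g, ad_add g⟩, ad_smul g⟩ : Mat →ₗ[ℂ] Mat)).lipschitz⟩
  den_ne := den_ne
  den_conj := den_conj
  mob_conj := mob_conj
  mob_im := mob_im
  mob_pos g w h := by rw [mob_im]; exact div_pos h (normSq_pos.2 (den_ne g w h.ne'))
  mob_mul g h w hw := by
    have h1 := den_ne h w hw
    have e : den (g * h) w = den g (mob h w) * den h w := by
      rw [den, den, mob]
      field_simp
      simp only [Fin.isValue, Matrix.SpecialLinearGroup.coe_mul, Matrix.mul_apply, Fin.sum_univ_two, ofReal_add, ofReal_mul, den]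
      ring
    rw [mob, mob, e, ← mul_div_mul_right _ (den g (mob h w)) h1]
    congr 1
    rw [mob]
    field_simp
    simp only [Fin.isValue, Matrix.SpecialLinearGroup.coe_mul, Matrix.mul_apply, Fin.sum_univ_two, ofReal_add, ofReal_mul, den]
    ring
  mob_one w := by simp only [mob, Fin.isValue, Matrix.SpecialLinearGroup.coe_one, Matrix.one_apply_eq, ofReal_one, one_mul, ne_eq, zero_ne_one, not_false_eq_true, Matrix.one_apply_ne, ofReal_zero, add_zero, den, one_ne_zero, zero_mul, zero_add, div_one]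
  mob_neg g w := by
    rw [mob, mob, ← neg_div_neg_eq]
    simp only [Fin.isValue, Matrix.SpecialLinearGroup.coe_neg, Matrix.neg_apply, ofReal_neg, neg_mul, neg_add_rev, neg_neg, add_comm, den]
  mob_der g w h := by
    have h1 := den_ne g w h
    refine ((((hasDerivAt_id w).const_mul ((g 0 0 : ℝ) : ℂ)).add_const ((g 0 1 : ℝ) : ℂ)).div
      (((hasDerivAt_id w).const_mul ((g 1 0 : ℝ) : ℂ)).add_const ((g 1 1 : ℝ) : ℂ))
      h1).congr_deriv ?_
    rw [inv_eq_one_div]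
    congr 1
    simp only [id]
    linear_combination det g
  ev_ad := ev_ad
  cp_mk := cp_mk
  mk_cp := mk_cp
  pur_sum w X h := by
    rw [pur, pur, pur, mk_add, mk_add]
    refine (congrArg (mk w) ?_).trans (mk_cp w X h)
    funext i j
    cases i <;> cases j <;> simp
  pur_pure p w X h i j hp := by rw [pur, cp_mk _ _ _ _ h, if_neg hp]
  pur_ad p g w X h := by
    rw [← mk_cp (mob g w) (Ad g (pur p w X)) (by
      rw [mob_im]; exact div_ne_zero h (normSq_pos.2 (den_ne g w h)).ne'), pur]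
    congr 1
    funext i j
    rw [cp_ad g h, cp_ad g h, pur, cp_mk _ _ _ _ h, mul_ite, mul_zero]
  ph_norm g w k h := by
    have := norm_ne_zero_iff.2 (den_ne g w h)
    simp only [ph, norm_div, norm_mul, norm_pow, (pt_den g h _).2.2, den_conj, norm_conj,
      normSq_eq_norm_sq]
    field_simp
  j_ad g w a b k h := by
    have e : ∀ (c : ℂ) (w : ℂ) X i j, cp w (c • X) i j = c * cp w X i j := fun c w X i j => by
      simp only [cp, ev, Matrix.smul_apply, smul_eq_mul]; ring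
    obtain ⟨i, j, k⟩ := k
    change cp _ _ i j = _ * cp _ _ i j
    cases k <;> simp only [if_true, Bool.false_eq_true, if_false, e, cp_ad g h, ph, Bool.not_true,
      Bool.not_false, ← den_conj] <;> simp only [pt, if_true, Bool.false_eq_true, if_false] <;> ring
  op_apply := op_apply
  dg_apply := dg_apply
  th_apply a b x i j k := by
    cases i <;> cases j <;> cases k <;> simp [th, N1, N2, N3, op_apply, mul_add]
  th_star a b x i j k := by
    simp only [th, ContinuousLinearMap.star_eq_adjoint, map_add, map_smulₛₗ]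
    simp only [← ContinuousLinearMap.star_eq_adjoint, N1, N2, N3, op_star]
    cases i <;> cases j <;> cases k <;> simp [op_apply, Fintype.sum_prod_type, mul_add]
  qf := qf

end Pool.Agent.MP_596265_gt.Hd

end

section

/-! Row TRA: transport of Lipschitz sections along Moebius maps. -/

namespace Pool.Agent.MP_596265_gt.Hd

open MeasureTheory Set Complex Filter Topology
open scoped ComplexConjugate Matrix.Norms.Elementwise NNReal InnerProductSpace

namespace TRAx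

theorem inv (hA : ALG_s) (g : G) {w : ℂ} (h : 0 < w.im) : mob g⁻¹ (mob g w) = w := by
  rw [← hA.mob_mul _ _ _ h.ne', inv_mul_cancel, hA.mob_one]

theorem img (hA : ALG_s) (hT : TRI_s) (g : G) {p q r : ℂ} (h : PosT p q r) :
    mob g '' tri p q r = tri (mob g p) (mob g q) (mob g r) := by
  refine Subset.antisymm ?_ fun w hw => ?_
  · rintro _ ⟨w, hw, rfl⟩
    exact (hT.tri_mob g p q r w h.1 h.2.1 h.2.2.1 hw.1).2 hw
  · have e := inv hA g⁻¹ hw.1
    rw [inv_inv] at e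
    exact ⟨_, (hT.tri_mob g p q r _ h.1 h.2.1 h.2.2.1 (hA.mob_pos _ _ hw.1)).1 (e.symm ▸ hw), e⟩

theorem inj (hA : ALG_s) (g : G) (p q r : ℂ) : InjOn (mob g) (tri p q r) := fun a ha b hb e => by
  rw [← inv hA g ha.1, e, inv hA g hb.1]

theorem det (c : ℂ) : (c • (1 : ℂ →L[ℝ] ℂ)).det = normSq c := by
  rw [← Algebra.norm_complex_apply, Algebra.norm_apply]
  unfold ContinuousLinearMap.det
  congr 1

theorem cd (hA : ALG_s) (g : G) {w : ℂ} (h : 0 < w.im) : ContDiffAt ℝ 1 (mob g) w := by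
  have : ContDiffAt ℂ 1 (mob g) w := by
    unfold mob
    refine ContDiffAt.div (by fun_prop) ?_ (hA.den_ne g w h.ne')
    unfold den; fun_prop
  exact this.restrict_scalars ℝ

theorem den_inv (hA : ALG_s) (g : G) {w : ℂ} (h : 0 < w.im) :
    (den g⁻¹ (mob g w) ^ 2)⁻¹ = den g w ^ 2 := by
  have h1 := (hA.mob_der g⁻¹ _ (hA.mob_pos g w h).ne').comp w (hA.mob_der g w h.ne')
  have h2 : (mob g⁻¹ ∘ mob g) =ᶠ[𝓝 w] id :=
    ((isOpen_lt continuous_const continuous_im).eventually_mem h).mono fun _ a => inv hA g a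
  have := (h1.congr_of_eventuallyEq h2.symm).unique (hasDerivAt_id w)
  exact (mul_inv_eq_one₀ (pow_ne_zero _ (hA.den_ne g w h.ne'))).1 this

theorem lin {V : Type} [NormedAddCommGroup V] [NormedSpace ℂ V] (A : ℂ →L[ℝ] V) (m : ℂ) :
    A m = (m.re : ℂ) • A 1 + (m.im : ℂ) • A I := by
  rw [coe_smul, coe_smul, ← map_smul, ← map_smul, ← map_add]; simp

theorem chain {V : Type} [NormedAddCommGroup V] [NormedSpace ℂ V] (L : V →L[ℂ] V) (u : V)
    {W : ℂ → V} {φ : ℂ → ℂ} {x m : ℂ} (h1 : HasDerivAt φ m x) (hW : DifferentiableAt ℝ W (φ x)) :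
    dz (fun w => u + L (W (φ w))) x = m • L (dz W (φ x)) ∧
      dzb (fun w => u + L (W (φ w))) x = conj m • L (dzb W (φ x)) := by
  have h3 : ∀ v, fderiv ℝ (fun w => u + L (W (φ w))) x v = L (fderiv ℝ W (φ x) (m * v)) := fun v =>
    congrArg (· v) (((L.restrictScalars ℝ).hasFDerivAt.comp _
      (hW.hasFDerivAt.comp _ h1.complexToReal_fderiv)).const_add u).fderiv
  simp only [dz, dzb, h3]
  rw [lin _ (m * 1), lin _ (m * I)]
  obtain ⟨a, b, rfl⟩ : ∃ a b : ℝ, m = a + b * I := ⟨_, _, (re_add_im m).symm⟩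
  simp only [map_add, map_sub, map_smul, mul_one, mul_I_re, mul_I_im, add_re, add_im, ofReal_re,
    ofReal_im, map_mul, conj_ofReal, conj_I, neg_zero, add_zero, zero_add]
  constructor <;> match_scalars <;> first | ring1 | linear_combination (b / 2 : ℂ) * I_mul_I

theorem meas {V : Type} [NormedAddCommGroup V] [NormedSpace ℝ V] [FiniteDimensional ℝ V]
    (f : ℂ → V) (v : ℂ) (μ : Measure ℂ) : AEStronglyMeasurable (fun w => fderiv ℝ f w v) μ := by
  borelize V
  have := FiniteDimensional.complete ℝ V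
  have := FiniteDimensional.proper ℝ V
  exact (measurable_fderiv_apply_const ℝ f v).aestronglyMeasurable

/-- the numerator of `dF` -/
noncomputable def nm (x : ℂ × Mat × Mat) : E8 := WithLp.toLp 2 fun k : Ix =>
  ev (if k.2.2 then (1 / 2 : ℂ) • (x.2.1 - I • x.2.2) else (1 / 2 : ℂ) • (x.2.1 + I • x.2.2))
    (pt x.1 k.1) (pt x.1 k.2.1)

theorem nm_cont : Continuous nm := by
  refine (PiLp.continuous_toLp 2 _).comp (continuous_pi fun k => ?_)
  obtain ⟨a, b, c⟩ := k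
  cases a <;> cases b <;> cases c <;> simp only [ev, pt, Matrix.smul_apply, Matrix.sub_apply,
    Matrix.add_apply, Bool.false_eq_true, if_true, if_false] <;> fun_prop

theorem dF_eq (W : ℂ → Mat) (w : ℂ) :
    dF W w = (dl w)⁻¹ • nm (w, fderiv ℝ W w 1, fderiv ℝ W w I) := by
  ext k
  exact div_eq_inv_mul _ _

end TRAx

open TRAx in
theorem TRA (hA : ALG_s) (hT : TRI_s) : TRA_s := by
  have dif : ∀ {V : Type} [NormedAddCommGroup V] [NormedSpace ℝ V] [FiniteDimensional ℝ V] p q r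
      (f : ℂ → V), PosT p q r → Lip f (tri p q r) → ∃ C : ℝ, ∀ᵐ w ∂volume.restrict (tri p q r),
        DifferentiableAt ℝ f w ∧ ‖fderiv ℝ f w‖ ≤ C := by
    intro V _ _ _ p q r f h ⟨C, hC⟩
    refine ⟨C, ?_⟩
    filter_upwards [hT.nhd p q r h, hC.ae_differentiableWithinAt (μ := volume)
      (hT.cpt p q r h).measurableSet] with w h1 h2
    exact ⟨h2.differentiableAt h1, norm_fderiv_le_of_lipschitzOn ℝ h1 hC⟩
  have der : ∀ g p q r, ∀ w ∈ tri p q r, HasFDerivWithinAt (mob g)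
      ((den g w ^ 2)⁻¹ • (1 : ℂ →L[ℝ] ℂ)) (tri p q r) w := fun g p q r w hw =>
    (hA.mob_der g w hw.1.ne').complexToReal_fderiv.hasFDerivWithinAt
  refine ⟨dif, fun p q r W h hW => ?_, fun g u p q r W h ⟨C, hC⟩ => ?_, fun g u W w k hw hW => ?_,
    fun g p q r f h => ?_, fun g p q r P h hP => ?_⟩
  · obtain ⟨C, hC⟩ := dif p q r W h hW
    have hK := hT.cpt p q r h
    have : IsFiniteMeasure (volume.restrict (tri p q r)) := isFiniteMeasure_restrict.2 hK.measure_ne_top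
    have : ProperSpace (Mat × Mat) := FiniteDimensional.proper ℝ _
    have c : Continuous dl := by unfold dl; fun_prop
    obtain ⟨B, hB⟩ := (hK.prod (isCompact_closedBall (0 : Mat × Mat) C)).exists_bound_of_continuousOn
      (f := fun x => (dl x.1)⁻¹ • nm x) (((c.comp continuous_fst).continuousOn.inv₀ fun x hx e => by
        have := congrArg im e
        simp only [Function.comp, dl, sub_im, conj_im, zero_im] at this
        linarith only [hx.1.1, this]).smul nm_cont.continuousOn)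
    rw [funext (dF_eq W)]
    refine MemLp.of_bound (c.measurable.inv.aestronglyMeasurable.smul
      (nm_cont.comp_aestronglyMeasurable (aestronglyMeasurable_id.prodMk
        ((meas W 1 _).prodMk (meas W I _))))) B ?_
    filter_upwards [hC, ae_restrict_mem hK.measurableSet] with w h1 h2
    refine hB (w, _) ⟨h2, mem_closedBall_zero_iff.2 (max_le ?_ ?_)⟩ <;>
      exact ((fderiv ℝ W w).le_opNorm _).trans (by simp only [norm_one, norm_I, mul_one]; exact h1.2)
  · obtain ⟨D, hD⟩ := hA.ad_lip g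
    rw [← img hA hT g h]
    have hK := (hT.cpt p q r h).image_of_continuousOn fun w hw =>
      (cd hA g hw.1).continuousAt.continuousWithinAt
    obtain ⟨E, hE⟩ := LocallyLipschitzOn.exists_lipschitzOnWith_of_compact (f := mob g⁻¹) hK (by
      rintro _ ⟨w, hw, rfl⟩
      obtain ⟨K, t, ht, h⟩ := (cd hA g⁻¹ (hA.mob_pos g w hw.1)).exists_lipschitzOnWith
      exact ⟨K, t, mem_nhdsWithin_of_mem_nhds ht, h⟩)
    exact ⟨_, (isometry_add_left u).lipschitz.comp_lipschitzOnWith (hD.comp_lipschitzOnWith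
      (hC.comp hE (by rintro _ ⟨w, hw, rfl⟩; rwa [inv hA g hw.1])))⟩
  · let L : Mat →L[ℂ] Mat := LinearMap.toContinuousLinearMap
      { toFun := Ad g, map_add' := hA.ad_add g, map_smul' := hA.ad_smul g }
    have h1 := hA.mob_der g⁻¹ _ (hA.mob_pos g w hw).ne'
    rw [den_inv hA g hw] at h1
    have h2 := chain L u (W := W) h1 (by rw [inv hA g hw]; exact hW)
    rw [inv hA g hw, map_pow] at h2
    rw [dF, dF, ← hA.j_ad g w _ _ k hw.ne']
    exact congrArg₂ (fun a b => J (mob g w) a b k) h2.1 h2.2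
  · have hm := (hT.cpt p q r h).measurableSet
    have e : (fun w => |((den g w ^ 2)⁻¹ • (1 : ℂ →L[ℝ] ℂ)).det| • f (mob g w)) =
        fun w => f (mob g w) / (normSq (den g w) ^ 2 : ℝ) := funext fun w => by
      rw [det, abs_of_nonneg (normSq_nonneg _), map_inv₀, map_pow, real_smul, ofReal_inv,
        div_eq_inv_mul]
    rw [← img hA hT g h, ← e]
    exact ⟨integral_image_eq_integral_abs_det_fderiv_smul volume hm (der g p q r) (inj hA g p q r) f,
      integrableOn_image_iff_integrableOn_abs_det_fderiv_smul volume hm (der g p q r)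
        (inj hA g p q r) f⟩
  · have hK := hT.cpt p q r h
    rw [← img hA hT g h, ae_restrict_iff' (hK.image_of_continuousOn fun w hw =>
      (cd hA g hw.1).continuousAt.continuousWithinAt).measurableSet] at hP
    filter_upwards [U.Lip.ae_pull volume hK.measurableSet (der g p q r) (inj hA g p q r)
      (fun w hw => by
        rw [det]; simpa using hA.den_ne g w hw.1.ne') hP, ae_restrict_mem hK.measurableSet] with w a b
    exact a (mem_image_of_mem _ b)

end Pool.Agent.MP_596265_gt.Hd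

end

section

namespace Pool.Agent.MP_596265_gt.Hd

open MeasureTheory Set Complex Filter Topology
open scoped ComplexConjugate Matrix.Norms.Elementwise NNReal InnerProductSpace

namespace INCx

theorem rad_pos {p q r : ℂ} {a b c : ℝ} (hp : 0 < p.im) (hq : 0 < q.im) (hr : 0 < r.im)
    (ha : 0 < a) (hb : 0 < b) (hc : 0 < c) :
    0 < (a * normSq p + b * normSq q + c * normSq r) / (a + b + c) -
      ((a * p.re + b * q.re + c * r.re) / (a + b + c)) ^ 2 := by
  have e : (a * normSq p + b * normSq q + c * normSq r) / (a + b + c) -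
      ((a * p.re + b * q.re + c * r.re) / (a + b + c)) ^ 2 =
      ((a * p.im ^ 2 + b * q.im ^ 2 + c * r.im ^ 2) * (a + b + c) + a * b * (p.re - q.re) ^ 2 +
        b * c * (q.re - r.re) ^ 2 + a * c * (p.re - r.re) ^ 2) / (a + b + c) ^ 2 := by
    simp only [normSq_apply]
    field_simp
    ring
  rw [e]
  positivity

theorem bar_re (p q r : ℂ) (a b c : ℝ) :
    (bar p q r a b c).re = (a * p.re + b * q.re + c * r.re) / (a + b + c) := rfl

theorem bar_im {p q r : ℂ} {a b c : ℝ} (hp : 0 < p.im) (hq : 0 < q.im) (hr : 0 < r.im)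
    (ha : 0 < a) (hb : 0 < b) (hc : 0 < c) : 0 < (bar p q r a b c).im :=
  Real.sqrt_pos.2 (rad_pos hp hq hr ha hb hc)

theorem bar_sq {p q r : ℂ} {a b c : ℝ} (hp : 0 < p.im) (hq : 0 < q.im) (hr : 0 < r.im)
    (ha : 0 < a) (hb : 0 < b) (hc : 0 < c) :
    normSq (bar p q r a b c) = (a * normSq p + b * normSq q + c * normSq r) / (a + b + c) := by
  have := Real.mul_self_sqrt (rad_pos hp hq hr ha hb hc).le
  rw [normSq_apply, bar_re]
  show _ + √_ * √_ = _
  rw [this]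
  ring

theorem ext_chart {u v : ℂ} (hu : 0 < u.im) (hv : 0 < v.im) (h1 : u.re = v.re)
    (h2 : normSq u = normSq v) : u = v := by
  refine Complex.ext h1 ?_
  rw [normSq_apply, normSq_apply, h1] at h2
  exact (mul_self_inj_of_nonneg hu.le hv.le).1 (by linarith)

theorem bar_rot (p q r : ℂ) (a b c : ℝ) : bar p q r a b c = bar q r p b c a := by
  unfold bar
  rw [show a * p.re + b * q.re + c * r.re = b * q.re + c * r.re + a * p.re by ring,
    show a * normSq p + b * normSq q + c * normSq r = b * normSq q + c * normSq r + a * normSq p by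
      ring, show a + b + c = b + c + a by ring]

theorem inc_rot (p q r : ℂ) : inc p q r = inc q r p := bar_rot _ _ _ _ _ _

theorem den_sq (g : G) (w : ℂ) : normSq (den g w) =
    g 1 0 ^ 2 * normSq w + 2 * g 1 0 * g 1 1 * w.re + g 1 1 ^ 2 := by
  simp only [den, normSq_apply, add_re, add_im, mul_re, mul_im, ofReal_re, ofReal_im]
  ring

theorem mob_re (g : G) (w : ℂ) : (mob g w).re = (g 0 0 * g 1 0 * normSq w +
    (g 0 0 * g 1 1 + g 0 1 * g 1 0) * w.re + g 0 1 * g 1 1) / normSq (den g w) := by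
  rw [mob, div_re, ← add_div]
  congr 1
  simp only [den, normSq_apply, add_re, add_im, mul_re, mul_im, ofReal_re, ofReal_im]
  ring

theorem mob_sq (g : G) (w : ℂ) : normSq (mob g w) =
    (g 0 0 ^ 2 * normSq w + 2 * g 0 0 * g 0 1 * w.re + g 0 1 ^ 2) / normSq (den g w) := by
  rw [mob, map_div₀]
  congr 1
  simp only [normSq_apply, add_re, add_im, mul_re, mul_im, ofReal_re, ofReal_im]
  ring

theorem den_pos (hA : ALG_s) (g : G) {w : ℂ} (h : 0 < w.im) : 0 < normSq (den g w) :=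
  normSq_pos.2 (hA.den_ne g w h.ne')

theorem bar_mob (hA : ALG_s) (g : G) {p q r : ℂ} {a b c : ℝ} (hp : 0 < p.im) (hq : 0 < q.im)
    (hr : 0 < r.im) (ha : 0 < a) (hb : 0 < b) (hc : 0 < c) :
    mob g (bar p q r a b c) = bar (mob g p) (mob g q) (mob g r) (a * normSq (den g p))
      (b * normSq (den g q)) (c * normSq (den g r)) := by
  have np := den_pos hA g hp
  have nq := den_pos hA g hq
  have nr := den_pos hA g hr
  have e : normSq (den g (bar p q r a b c)) =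
      (a * normSq (den g p) + b * normSq (den g q) + c * normSq (den g r)) / (a + b + c) := by
    rw [den_sq, den_sq, den_sq, den_sq, bar_sq hp hq hr ha hb hc, bar_re]
    field_simp
    ring
  have mp := hA.mob_pos g p hp
  have mq := hA.mob_pos g q hq
  have mr := hA.mob_pos g r hr
  refine ext_chart (hA.mob_pos g _ (bar_im hp hq hr ha hb hc))
    (bar_im mp mq mr (by positivity) (by positivity) (by positivity)) ?_ ?_
  · rw [bar_re, mob_re, mob_re, mob_re, mob_re, e, bar_sq hp hq hr ha hb hc, bar_re]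
    field_simp
    ring
  · rw [bar_sq mp mq mr (by positivity) (by positivity) (by positivity), mob_sq, mob_sq, mob_sq,
      mob_sq, e, bar_sq hp hq hr ha hb hc, bar_re]
    field_simp
    ring

theorem mob_sub (hA : ALG_s) (g : G) {p q : ℂ} (hp : 0 < p.im) (hq : 0 < q.im) :
    mob g p - mob g q = (p - q) / (den g p * den g q) := by
  have a := hA.den_ne g p hp.ne'
  have b := hA.den_ne g q hq.ne'
  have d : (g 0 0 : ℝ) * g 1 1 - g 0 1 * g 1 0 = 1 := by
    rw [← Matrix.det_fin_two]; exact g.det_coe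
  have d' : ((g 0 0 : ℝ) : ℂ) * (g 1 1 : ℝ) - (g 0 1 : ℝ) * (g 1 0 : ℝ) = 1 := by exact_mod_cast d
  rw [mob, mob, div_sub_div _ _ a b]
  congr 1
  unfold den
  linear_combination (p - q) * d'

theorem sh_mob (hA : ALG_s) (g : G) {p q : ℂ} (hp : 0 < p.im) (hq : 0 < q.im) :
    sh (mob g p) (mob g q) = sh p q := by
  have np := den_pos hA g hp
  have nq := den_pos hA g hq
  unfold sh
  rw [mob_sub hA g hp hq, map_div₀, map_mul, hA.mob_im, hA.mob_im]
  congr 3
  field_simp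

theorem arg_pos {p q : ℂ} (hp : 0 < p.im) (hq : 0 < q.im) (h : p ≠ q) :
    0 < (1 + normSq (p - q) / (2 * p.im * q.im)) ^ 2 - 1 := by
  have a : 0 < normSq (p - q) / (2 * p.im * q.im) :=
    div_pos (normSq_pos.2 (sub_ne_zero.2 h)) (by positivity)
  nlinarith

theorem sh_pos {p q : ℂ} (hp : 0 < p.im) (hq : 0 < q.im) (h : p ≠ q) : 0 < sh p q :=
  Real.sqrt_pos.2 (arg_pos hp hq h)

theorem sh_comm (p q : ℂ) : sh p q = sh q p := by
  unfold sh
  rw [← normSq_neg, neg_sub, mul_right_comm]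

theorem ne12 {p q r : ℂ} (h : 0 < hd p q r) : p ≠ q := by
  rintro rfl; simp [hd] at h
theorem ne23 {p q r : ℂ} (h : 0 < hd p q r) : q ≠ r := by
  rintro rfl; simp [hd, mul_comm] at h
theorem ne31 {p q r : ℂ} (h : 0 < hd p q r) : r ≠ p := by
  rintro rfl; simp [hd] at h

theorem w1 {p q r : ℂ} (h : PosT p q r) : 0 < sh q r / p.im :=
  div_pos (sh_pos h.2.1 h.2.2.1 (ne23 h.2.2.2)) h.1
theorem w2 {p q r : ℂ} (h : PosT p q r) : 0 < sh r p / q.im :=
  div_pos (sh_pos h.2.2.1 h.1 (ne31 h.2.2.2)) h.2.1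
theorem w3 {p q r : ℂ} (h : PosT p q r) : 0 < sh p q / r.im :=
  div_pos (sh_pos h.1 h.2.1 (ne12 h.2.2.2)) h.2.2.1

theorem inc_im {p q r : ℂ} (h : PosT p q r) : 0 < (inc p q r).im :=
  bar_im h.1 h.2.1 h.2.2.1 (w1 h) (w2 h) (w3 h)

theorem inc_mob (hA : ALG_s) (g : G) {p q r : ℂ} (h : PosT p q r) :
    mob g (inc p q r) = inc (mob g p) (mob g q) (mob g r) := by
  unfold inc
  rw [bar_mob hA g h.1 h.2.1 h.2.2.1 (w1 h) (w2 h) (w3 h), sh_mob hA g h.2.1 h.2.2.1,
    sh_mob hA g h.2.2.1 h.1, sh_mob hA g h.1 h.2.1, hA.mob_im, hA.mob_im, hA.mob_im,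
    div_div_eq_mul_div, div_div_eq_mul_div, div_div_eq_mul_div, mul_div_right_comm,
    mul_div_right_comm, mul_div_right_comm]

theorem hd_in {p q r : ℂ} (h : PosT p q r) : 0 < hd p q (inc p q r) := by
  have a := w1 h
  have b := w2 h
  have c := w3 h
  have e : hd p q (inc p q r) =
      sh p q / r.im * hd p q r / (sh q r / p.im + sh r p / q.im + sh p q / r.im) := by
    unfold inc
    generalize sh q r / p.im = x at a ⊢
    generalize sh r p / q.im = y at b ⊢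
    generalize sh p q / r.im = z at c ⊢
    unfold hd
    rw [bar_sq h.1 h.2.1 h.2.2.1 a b c, bar_re]
    field_simp
    ring
  rw [e]
  exact div_pos (mul_pos c h.2.2.2) (by positivity)

/-- The Gram form of the tangent plane at `z`. -/
noncomputable def gm (z p q : ℂ) : ℝ :=
  (normSq z + normSq p - 2 * z.re * p.re) * (normSq z + normSq q - 2 * z.re * q.re) / 4 -
    (normSq z - z.re ^ 2) * (normSq p + normSq q - 2 * p.re * q.re) / 2

theorem gm_sh {z p : ℂ} (hz : 0 < z.im) (hp : 0 < p.im) (h : z ≠ p) :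
    (sh z p * z.im * p.im) ^ 2 = gm z p p := by
  rw [mul_pow, mul_pow, sh, Real.sq_sqrt (arg_pos hz hp h).le]
  simp only [gm, normSq_apply, sub_re, sub_im]
  field_simp
  ring

theorem gm_det (z p q : ℂ) :
    gm z p p * gm z q q - gm z p q ^ 2 = z.im ^ 2 * hd z p q ^ 2 / 4 := by
  rw [show z.im ^ 2 = normSq z - z.re ^ 2 by rw [normSq_apply]; ring]
  unfold gm hd
  ring

theorem gm_lin (z p q r : ℂ) : gm z q q * hd z p r = hd z p q * gm z q r + gm z p q * hd z q r := by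
  unfold gm hd
  ring

theorem gm_gt {z p q : ℂ} (h : PosT z p q) :
    0 < sh z p * z.im * p.im * (sh z q * z.im * q.im) + gm z p q := by
  have hz := h.1
  have hp := h.2.1
  have hq := h.2.2.1
  have a := sh_pos hz hp (ne12 h.2.2.2)
  have b := sh_pos hz hq (ne31 h.2.2.2).symm
  have d := gm_det z p q
  rw [← gm_sh hz hp (ne12 h.2.2.2), ← gm_sh hz hq (ne31 h.2.2.2).symm, ← mul_pow] at d
  have e : 0 < z.im ^ 2 * hd z p q ^ 2 / 4 := by have := h.2.2.2; positivity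
  have := (abs_lt_of_sq_lt_sq' (a := gm z p q)
    (b := sh z p * z.im * p.im * (sh z q * z.im * q.im)) (by linarith) (by positivity)).1
  linarith only [this]

theorem hd_bar {z p q r : ℂ} {a b c a' b' c' : ℝ} (hz : 0 < z.im) (hp : 0 < p.im) (hq : 0 < q.im)
    (hr : 0 < r.im) (ha : 0 < a) (hb : 0 < b) (hc : 0 < c) (ha' : 0 < a') (hb' : 0 < b')
    (hc' : 0 < c') : hd z (bar z p q a b c) (bar z q r a' b' c') =
      (b * b' * hd z p q + b * c' * hd z p r + c * c' * hd z q r) /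
        ((a + b + c) * (a' + b' + c')) := by
  unfold hd
  rw [bar_sq hz hp hq ha hb hc, bar_sq hz hq hr ha' hb' hc', bar_re, bar_re]
  field_simp
  ring

theorem hd_two {z p q r : ℂ} (h : PosT z p q) (h' : PosT z q r) :
    0 < hd z (inc z p q) (inc z q r) := by
  have hz := h.1
  have hp := h.2.1
  have hq := h.2.2.1
  have hr := h'.2.2.1
  have a1 := w1 h
  have a2 := w2 h
  have a3 := w3 h
  have b1 := w1 h'
  have b2 := w2 h'
  have b3 := w3 h'
  unfold inc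
  rw [hd_bar hz hp hq hr a1 a2 a3 b1 b2 b3]
  refine div_pos ?_ (by positivity)
  have e : sh q z / p.im * (sh r z / q.im) * hd z p q + sh q z / p.im * (sh z q / r.im) * hd z p r +
      sh z p / q.im * (sh z q / r.im) * hd z q r =
      (sh z q * z.im * q.im * (sh z r * z.im * r.im) * hd z p q +
        (sh z q * z.im * q.im) ^ 2 * hd z p r +
        sh z p * z.im * p.im * (sh z q * z.im * q.im) * hd z q r) /
        (z.im ^ 2 * p.im * q.im ^ 2 * r.im) := by
    rw [sh_comm q z, sh_comm r z]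
    field_simp
  rw [e, gm_sh hz hq (ne12 h'.2.2.2), gm_lin]
  refine div_pos ?_ (by positivity)
  have c1 := mul_pos (gm_gt h') h.2.2.2
  have c2 := mul_pos (gm_gt h) h'.2.2.2
  linarith only [c1, c2]

theorem mob_pm (hA : ALG_s) {g : G} (h : g = 1 ∨ g = -1) (w : ℂ) : mob g w = w := by
  rcases h with rfl | rfl
  · exact hA.mob_one w
  · rw [hA.mob_neg, hA.mob_one]

theorem star (hA : ALG_s) {Dt : Type} [Fintype Dt] (nx rv : Dt → Dt) (g : Dt → G) (z : ℂ)
    (h : Ok nx rv g z) : Star nx rv g (incs nx g z) z := by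
  have hz := h.im
  have P : ∀ d, PosT z (mob (g d) z) (mob (g d * g (nx d)) z) := fun d =>
    ⟨hz, hA.mob_pos _ _ hz, hA.mob_pos _ _ hz, h.pos d⟩
  refine ⟨h, fun d => inc_im (P d), fun d => ?_, fun d => hd_in (P d), fun d => ?_⟩
  · unfold incs
    rw [inc_mob hA _ (P (nx d)), ← hA.mob_mul _ _ _ hz.ne', ← hA.mob_mul _ _ _ hz.ne', ← mul_assoc,
      mob_pm hA (h.gf d), inc_rot]
  · have e : mob (g (nx (rv d)) * g (nx (nx (rv d)))) z = mob (g d) z := by
      have a := mob_pm hA (h.gr d) (mob (g (nx (rv d)) * g (nx (nx (rv d)))) z)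
      rw [hA.mob_mul _ _ _ (hA.mob_pos _ _ hz).ne', ← hA.mob_mul (g (rv d)) _ _ hz.ne', ← mul_assoc,
        mob_pm hA (h.gf (rv d))] at a
      exact a.symm
    have Q := P (nx (rv d))
    unfold incs
    rw [e] at Q ⊢
    exact hd_two Q (P d)

section smooth

variable {X : Type} [NormedAddCommGroup X] [NormedSpace ℝ X] {x : X} {n : WithTop ℕ∞}

theorem cd_re {f : X → ℂ} (h : ContDiffAt ℝ n f x) : ContDiffAt ℝ n (fun y => (f y).re) x :=
  reCLM.contDiff.contDiffAt.comp x h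
theorem cd_im {f : X → ℂ} (h : ContDiffAt ℝ n f x) : ContDiffAt ℝ n (fun y => (f y).im) x :=
  imCLM.contDiff.contDiffAt.comp x h
theorem cd_sq {f : X → ℂ} (h : ContDiffAt ℝ n f x) : ContDiffAt ℝ n (fun y => normSq (f y)) x := by
  simp only [normSq_apply]
  exact ((cd_re h).mul (cd_re h)).add ((cd_im h).mul (cd_im h))
theorem cd_mk {f g : X → ℝ} (hf : ContDiffAt ℝ n f x) (hg : ContDiffAt ℝ n g x) :
    ContDiffAt ℝ n (fun y => (⟨f y, g y⟩ : ℂ)) x :=
  equivRealProdCLM.symm.contDiff.contDiffAt.comp x (hf.prodMk hg)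

theorem cd_sh {p q : X → ℂ} (hp : ContDiffAt ℝ n p x) (hq : ContDiffAt ℝ n q x) (a : 0 < (p x).im)
    (b : 0 < (q x).im) (c : p x ≠ q x) : ContDiffAt ℝ n (fun y => sh (p y) (q y)) x :=
  (((contDiffAt_const.add ((cd_sq (hp.sub hq)).div ((contDiffAt_const.mul (cd_im hp)).mul (cd_im hq))
    (by positivity))).pow 2).sub contDiffAt_const).sqrt (arg_pos a b c).ne'

theorem cd_bar {p q r : X → ℂ} {a b c : X → ℝ} (hp : ContDiffAt ℝ n p x) (hq : ContDiffAt ℝ n q x)
    (hr : ContDiffAt ℝ n r x) (ha : ContDiffAt ℝ n a x) (hb : ContDiffAt ℝ n b x)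
    (hc : ContDiffAt ℝ n c x) (p0 : 0 < (p x).im) (q0 : 0 < (q x).im) (r0 : 0 < (r x).im)
    (a0 : 0 < a x) (b0 : 0 < b x) (c0 : 0 < c x) :
    ContDiffAt ℝ n (fun y => bar (p y) (q y) (r y) (a y) (b y) (c y)) x := by
  have s := (ha.add hb).add hc
  have s0 : a x + b x + c x ≠ 0 := by positivity
  have u := (((ha.mul (cd_re hp)).add (hb.mul (cd_re hq))).add (hc.mul (cd_re hr))).div s s0
  have v := (((ha.mul (cd_sq hp)).add (hb.mul (cd_sq hq))).add (hc.mul (cd_sq hr))).div s s0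
  exact cd_mk u ((v.sub (u.pow 2)).sqrt (rad_pos p0 q0 r0 a0 b0 c0).ne')

end smooth

theorem smooth (p q r : ℂ) (h : PosT p q r) :
    ContDiffAt ℝ (⊤ : ℕ∞) (fun x : ℂ × ℂ × ℂ => inc x.1 x.2.1 x.2.2) (p, q, r) := by
  have a : ContDiffAt ℝ (⊤ : ℕ∞) (fun x : ℂ × ℂ × ℂ => x.1) (p, q, r) := contDiffAt_fst
  have b : ContDiffAt ℝ (⊤ : ℕ∞) (fun x : ℂ × ℂ × ℂ => x.2.1) (p, q, r) := contDiffAt_snd.fst
  have c : ContDiffAt ℝ (⊤ : ℕ∞) (fun x : ℂ × ℂ × ℂ => x.2.2) (p, q, r) := contDiffAt_snd.snd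
  exact cd_bar a b c ((cd_sh b c h.2.1 h.2.2.1 (ne23 h.2.2.2)).div (cd_im a) h.1.ne')
    ((cd_sh c a h.2.2.1 h.1 (ne31 h.2.2.2)).div (cd_im b) h.2.1.ne')
    ((cd_sh a b h.1 h.2.1 (ne12 h.2.2.2)).div (cd_im c) h.2.2.1.ne') h.1 h.2.1 h.2.2.1
    (w1 h) (w2 h) (w3 h)

theorem hd_ev {p q r : ℂ → ℂ} {z : ℂ} (hp : ContinuousAt p z) (hq : ContinuousAt q z)
    (hr : ContinuousAt r z) (h : 0 < hd (p z) (q z) (r z)) :
    ∀ᶠ w in 𝓝 z, 0 < hd (p w) (q w) (r w) := by
  have c : ContinuousAt (fun w => hd (p w) (q w) (r w)) z := by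
    unfold hd
    fun_prop
  exact continuousAt_const.eventually_lt c h

theorem near (hA : ALG_s) {Dt : Type} [Fintype Dt] (nx rv : Dt → Dt) (g : Dt → G) (c : Dt → ℂ)
    (z : ℂ) (h : Star nx rv g c z) : ∀ᶠ w in 𝓝 z, Star nx rv g c w := by
  have m : ∀ γ : G, ContinuousAt (mob γ) z := fun γ => (hA.mob_der γ z h.im.ne').continuousAt
  have a : ∀ᶠ w : ℂ in 𝓝 z, 0 < w.im :=
    continuousAt_const.eventually_lt continuous_im.continuousAt h.im
  filter_upwards [a, eventually_all.2 fun d => hd_ev continuousAt_id (m _) (m _) (h.pos d),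
    eventually_all.2 fun d => hd_ev continuousAt_id (m _) continuousAt_const (h.cin d),
    eventually_all.2 fun d => hd_ev continuousAt_id continuousAt_const continuousAt_const
      (h.spos d)] with w a b c d
  exact ⟨⟨h.toFlat, a, b⟩, h.cim, h.crot, c, d⟩

end INCx

theorem INC (hA : ALG_s) (_hB : TRI_s) : INC_s :=
  ⟨INCx.star hA, INCx.smooth, INCx.near hA⟩

end Pool.Agent.MP_596265_gt.Hd

end

section

/-! Block H, row FS: from faces to stars. -/

namespace Pool.Agent.MP_596265_gt.Hd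

open MeasureTheory Set Complex Filter Topology
open scoped ComplexConjugate Matrix.Norms.Elementwise NNReal InnerProductSpace

namespace FSx

lemma hd_rot (p q r : ℂ) : hd p q r = hd q r p := by unfold hd; ring
lemma hd_swap (p q r : ℂ) : hd q p r = -hd p q r := by unfold hd; ring
lemma pos_rot {p q r : ℂ} (h : PosT p q r) : PosT q r p :=
  ⟨h.2.1, h.2.2.1, h.1, hd_rot p q r ▸ h.2.2.2⟩
lemma left_mem {p : ℂ} (q : ℂ) (h : 0 < p.im) : p ∈ seg p q :=
  ⟨h, 0, ⟨le_rfl, zero_le_one⟩, by ring, by ring⟩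
lemma right_mem (p : ℂ) {q : ℂ} (h : 0 < q.im) : q ∈ seg p q :=
  ⟨h, 1, ⟨zero_le_one, le_rfl⟩, by ring, by ring⟩

variable (hA : ALG_s) (hT : TRI_s)
include hA

lemma mob_pm {a : G} (h : a = 1 ∨ a = -1) (w : ℂ) : mob a w = w := by
  rcases h with rfl | rfl
  · exact hA.mob_one w
  · rw [hA.mob_neg, hA.mob_one]

lemma ad_pm {a : G} (h : a = 1 ∨ a = -1) (X : Mat) : Ad a X = X := by
  rcases h with rfl | rfl
  · exact hA.ad_one X
  · rw [hA.ad_neg, hA.ad_one]

include hT in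
lemma pos_mob (a : G) {p q r : ℂ} (h : PosT p q r) : PosT (mob a p) (mob a q) (mob a r) := by
  refine ⟨hA.mob_pos a p h.1, hA.mob_pos a q h.2.1, hA.mob_pos a r h.2.2.1, ?_⟩
  rw [hT.hd_mob a p q r h.1.ne' h.2.1.ne' h.2.2.1.ne']
  exact div_pos h.2.2.2 (mul_pos (mul_pos (normSq_pos.2 (hA.den_ne a p h.1.ne'))
    (normSq_pos.2 (hA.den_ne a q h.2.1.ne'))) (normSq_pos.2 (hA.den_ne a r h.2.2.1.ne')))

variable {Dt : Type} {nx rv : Dt → Dt} {g : Dt → G} {c : Dt → ℂ} {z : ℂ}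

lemma gr (h : Flat nx rv g) (d : Dt) {w : ℂ} (hw : 0 < w.im) :
    mob (g d) (mob (g (rv d)) w) = w := by
  rw [← hA.mob_mul _ _ _ hw.ne', mob_pm hA (h.gr d)]

lemma gr' (h : Flat nx rv g) (d : Dt) {w : ℂ} (hw : 0 < w.im) :
    mob (g (rv d)) (mob (g d) w) = w := by
  have := gr hA h (rv d) hw
  rwa [h.r2] at this

lemma gf (h : Flat nx rv g) (d : Dt) {w : ℂ} (hw : 0 < w.im) :
    mob (g d) (mob (g (nx d) * g (nx (nx d))) w) = w := by
  rw [← hA.mob_mul _ _ _ hw.ne', ← mul_assoc, mob_pm hA (h.gf d)]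

lemma third (h : Flat nx rv g) (d : Dt) {w : ℂ} (hw : 0 < w.im) :
    mob (g (nx (rv d)) * g (nx (nx (rv d)))) w = mob (g d) w := by
  have h1 := congrArg (mob (g d)) (gf hA h (rv d) hw)
  rwa [gr hA h d (hA.mob_pos _ _ hw)] at h1

lemma face_pos (h : Ok nx rv g z) (d : Dt) : PosT z (mob (g d) z) (mob (g d * g (nx d)) z) :=
  ⟨h.im, hA.mob_pos _ _ h.im, hA.mob_pos _ _ h.im, h.pos d⟩

include hT

lemma face_mob (h : Ok nx rv g z) (d : Dt) {w : ℂ} (hw : 0 < w.im) :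
    mob (g d) w ∈ face nx g z d ↔ w ∈ face nx g z (nx d) := by
  have h1 := hT.tri_mob (g d) z (mob (g (nx d)) z) (mob (g (nx d) * g (nx (nx d))) z) w h.im
    (hA.mob_pos _ _ h.im) (hA.mob_pos _ _ h.im) hw
  rw [gf hA h.toFlat d h.im, ← hA.mob_mul _ _ _ h.im.ne', ← hT.tri_rot] at h1
  exact h1

omit hT in
lemma kite1 (h : Star nx rv g c z) (d : Dt) : PosT z (mob (g d) z) (c d) :=
  ⟨h.im, hA.mob_pos _ _ h.im, h.cim d, h.cin d⟩

lemma kite2 (h : Star nx rv g c z) (d : Dt) :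
    PosT (mob (g d) z) (mob (g d * g (nx d)) z) (c d) := by
  have h1 := pos_mob hA hT (g d) (kite1 hA h (nx d))
  rwa [← h.crot, ← hA.mob_mul _ _ _ h.im.ne'] at h1

lemma kite3 (h : Star nx rv g c z) (d : Dt) : PosT (mob (g d * g (nx d)) z) z (c d) := by
  have h1 := pos_mob hA hT (g d) (kite2 hA hT h (nx d))
  rwa [← h.crot, gf hA h.toFlat d h.im, ← hA.mob_mul _ _ _ h.im.ne'] at h1

omit hT in
lemma c_sg (h : Star nx rv g c z) (d : Dt) : mob (g d) (c (rv d)) = c (nx (rv d)) := by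
  rw [h.crot (rv d), gr hA h.toFlat d (h.cim _)]

omit hA hT in
lemma str_pos (h : Star nx rv g c z) (d : Dt) : PosT z (c (nx (rv d))) (c d) :=
  ⟨h.im, h.cim _, h.cim d, h.spos d⟩

/-- The half of the star of `d` in the face before `d`. -/
lemma half (hG : GLUE_s) (h : Star nx rv g c z) (d : Dt) : PosT z (c (nx (rv d))) (mob (g d) z) ∧
    tri z (c (nx (rv d))) (mob (g d) z) ⊆ face nx g z (nx (rv d)) := by
  have h3 := kite3 hA hT h (nx (rv d))
  have h4 := (hG.kite _ _ _ _ (kite1 hA h (nx (rv d))) (kite2 hA hT h _) h3).2.1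
  rw [face, h4, third hA h.toFlat d h.im] at *
  exact ⟨pos_rot h3, by rw [← hT.tri_rot]; exact subset_union_right⟩

lemma str_sub (hG : GLUE_s) (h : Star nx rv g c z) (d : Dt) :
    str nx rv c z d ⊆ face nx g z d ∪ face nx g z (nx (rv d)) := by
  have h1 := pos_mob hA hT (g d) (str_pos h (rv d))
  rw [h.r2, ← h.crot, c_sg hA h] at h1
  have h2 := (hG.quad _ _ _ _ (half hA hT hG h d).1 (kite1 hA h d) (str_pos h d)
    (pos_rot (pos_rot h1))).1
  have h4 := (hG.kite _ _ _ _ (kite1 hA h d) (kite2 hA hT h d) (kite3 hA hT h d)).2.1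
  intro w hw
  rcases h2.symm.subset (.inl hw) with h3 | h3
  · exact .inr ((half hA hT hG h d).2 h3)
  · exact .inl (h4.symm.subset (.inl (.inl h3)))

lemma inter (h : Ok nx rv g z) (d : Dt) {w : ℂ} (h1 : w ∈ face nx g z d)
    (h2 : w ∈ face nx g z (nx (rv d))) : w ∈ seg z (mob (g d) z) := by
  refine (hT.seg_iff _ _ _ w (face_pos hA h d) h1).2 (le_antisymm ?_ h1.2.1)
  have h3 := h2.2.2.2
  rw [third hA h.toFlat d h.im, hd_swap] at h3
  linarith

/-- The relation on edges follows from the existence of a section. -/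
lemma coc (h : Ok nx rv g z) {v : Dt → Mat} {W : Dt → ℂ → Mat} (hW : Adm nx rv g z v W) (d : Dt) :
    v d + Ad (g d) (v (rv d)) = 0 := by
  have hq := hA.mob_pos (g d) z h.im
  have hz : ∀ e, z ∈ face nx g z e := fun e =>
    hT.seg_sub _ _ _ (face_pos hA h e) (left_mem _ h.im)
  have e1 := hW.rot d z (hz _)
  have e2 := hW.rot (rv d) (mob (g d) z) ((face_mob hA hT h (rv d) hq).1
    (by rw [gr' hA h.toFlat d h.im]; exact hz _))
  have e3 := hW.edge d _ (right_mem z hq)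
  have e4 := hW.edge (rv d) z (left_mem _ h.im)
  rw [h.r2] at e4
  rw [gr' hA h.toFlat d h.im, e4, ← e3] at e2
  rw [e2, hA.ad_add, ← hA.ad_mul, ad_pm hA (h.gr d), ← add_assoc] at e1
  exact (left_eq_add.1 (e1.trans (add_comm _ _)))

end FSx

theorem FS (hA : ALG_s) (hT : TRI_s) (hG : GLUE_s) : FS_s := by
  classical
  intro Dt _ nx rv g c z v W h hW
  set Y : Dt → ℂ → Mat := fun d w => if w ∈ face nx g z d then W d w else W (nx (rv d)) w with hY
  have y1 : ∀ d, ∀ w ∈ face nx g z d, Y d w = W d w := fun d w hw => if_pos hw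
  have y2 : ∀ d, ∀ w ∈ face nx g z (nx (rv d)), Y d w = W (nx (rv d)) w := fun d w hw => by
    by_cases h1 : w ∈ face nx g z d
    · rw [y1 d w h1]; exact hW.edge d w (FSx.inter hA hT h.toOk d h1 hw)
    · exact if_neg h1
  refine ⟨Y, ⟨fun d => ?_, fun d w hw => ?_, fun d w hw => ?_⟩, fun d w _ => ⟨y1 d w, y2 d w⟩⟩
  · refine hG.gl _ _ _ (fun b : Bool => face nx g z (cond b d (nx (rv d)))) (Y d) (FSx.str_pos h d)
      (fun b => (hT.cpt _ _ _ (FSx.face_pos hA h.toOk _)).isClosed) (fun w hw => ?_) fun b => ?_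
    · rcases FSx.str_sub hA hT hG h d hw with h1 | h1
      · exact mem_iUnion.2 ⟨true, h1⟩
      · exact mem_iUnion.2 ⟨false, h1⟩
    · obtain ⟨C, hC⟩ := hW.lip (cond b d (nx (rv d)))
      refine ⟨C, fun x hx y hy => ?_⟩
      cases b
      · rw [y2 d x hx, y2 d y hy]; exact hC hx hy
      · rw [y1 d x hx, y1 d y hy]; exact hC hx hy
  · have h1 := FSx.half hA hT hG h d
    have h2 := h1.2 (hT.seg_sub _ _ _ h1.1 hw)
    rw [y2 d w h2, y1 _ w h2]
  · have h1 : w ∈ str nx rv c z (rv d) := by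
      rw [str, hT.tri_rot]
      refine hT.seg_sub _ _ _ (FSx.pos_rot (FSx.str_pos h (rv d))) ?_
      rwa [h.r2, hT.seg_symm]
    have hq := hA.mob_pos (g d) w hw.1
    rcases FSx.str_sub hA hT hG h (rv d) h1 with h2 | h2
    · have h3 := (FSx.face_mob hA hT h.toOk (rv d) hq).1
        (by rw [FSx.gr' hA h.toFlat d hw.1]; exact h2)
      have h4 := hW.rot (rv d) _ h3
      rw [FSx.gr' hA h.toFlat d hw.1] at h4
      rw [y2 d _ h3, y1 _ w h2, h4, hA.ad_add, ← hA.ad_mul, FSx.ad_pm hA (h.gr d), ← add_assoc,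
        FSx.coc hA hT h.toOk hW d, zero_add]
    · rw [y2 _ w h2]
      rw [h.r2] at h2 ⊢
      rw [y1 d _ ((FSx.face_mob hA hT h.toOk d hw.1).2 h2), hW.rot d w h2]

end Pool.Agent.MP_596265_gt.Hd

end

section

/-! Block H, row SF: from stars to faces. -/

namespace Pool.Agent.MP_596265_gt.Hd

open MeasureTheory Set Complex Filter Topology
open scoped ComplexConjugate Matrix.Norms.Elementwise NNReal InnerProductSpace

namespace SFx

theorem lip_congr {f f' : ℂ → Mat} {K : Set ℂ} (h : Lip f K) (e : ∀ w ∈ K, f' w = f w) :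
    Lip f' K := by
  obtain ⟨C, hC⟩ := h
  refine ⟨C, fun x hx y hy => ?_⟩
  rw [e x hx, e y hy]
  exact hC hx hy

theorem pos_rot {p q r : ℂ} (h : PosT p q r) : PosT q r p := by
  obtain ⟨a, b, c, d⟩ := h
  refine ⟨b, c, a, ?_⟩
  have : hd q r p = hd p q r := by unfold hd; ring
  rwa [this]

theorem hd_swap (p q w : ℂ) : hd q p w = -hd p q w := by unfold hd; ring

theorem pos_mob (hA : ALG_s) (hT : TRI_s) (g : G) {p q r : ℂ} (h : PosT p q r) :
    PosT (mob g p) (mob g q) (mob g r) := by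
  obtain ⟨a, b, c, d⟩ := h
  refine ⟨hA.mob_pos g p a, hA.mob_pos g q b, hA.mob_pos g r c, ?_⟩
  rw [hT.hd_mob g p q r a.ne' b.ne' c.ne']
  exact div_pos d (mul_pos (mul_pos (normSq_pos.mpr (hA.den_ne g p a.ne'))
    (normSq_pos.mpr (hA.den_ne g q b.ne'))) (normSq_pos.mpr (hA.den_ne g r c.ne')))

theorem mob_pm (hA : ALG_s) {g : G} (h : g = 1 ∨ g = -1) (w : ℂ) : mob g w = w := by
  rcases h with h | h <;> rw [h]
  · exact hA.mob_one w
  · rw [hA.mob_neg, hA.mob_one]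

theorem ad_pm (hA : ALG_s) {g : G} (h : g = 1 ∨ g = -1) (X : Mat) : Ad g X = X := by
  rcases h with h | h <;> rw [h]
  · exact hA.ad_one X
  · rw [hA.ad_neg, hA.ad_one]

theorem tp_mob (hA : ALG_s) (g : G) (u : Mat) (W : ℂ → Mat) {w : ℂ} (hw : 0 < w.im) :
    tp g u W (mob g w) = u + Ad g (W w) := by
  unfold tp
  rw [← hA.mob_mul _ _ _ hw.ne', inv_mul_cancel, hA.mob_one]

theorem ex_mob (hA : ALG_s) (g : G) {w : ℂ} (hw : 0 < w.im) :
    ∃ w' : ℂ, 0 < w'.im ∧ w = mob g w' :=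
  ⟨mob g⁻¹ w, hA.mob_pos _ _ hw, by rw [← hA.mob_mul _ _ _ hw.ne', mul_inv_cancel, hA.mob_one]⟩

noncomputable section

variable {Dt : Type} (nx rv : Dt → Dt) (g : Dt → G) (c : Dt → ℂ) (z : ℂ)
  (v : Dt → Mat) (Y : Dt → ℂ → Mat)

def z1 (d : Dt) : ℂ := mob (g d) z
def z2 (d : Dt) : ℂ := mob (g d) (mob (g (nx d)) z)
def K0 (d : Dt) : Set ℂ := tri z (z1 g z d) (c d)
def K1 (d : Dt) : Set ℂ := tri (z1 g z d) (z2 nx g z d) (c d)
def K2 (d : Dt) : Set ℂ := tri (z2 nx g z d) z (c d)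
def S1 (d : Dt) : Set ℂ := tri (c (nx (rv d))) (z1 g z d) (c d)

open Classical in
def P0 (d : Dt) (w : ℂ) : Mat :=
  if w ∈ str nx rv c z d then Y d w else tp (g d) (v d) (Y (rv d)) w
def P1 (d : Dt) : ℂ → Mat := tp (g d) (v d) (P0 nx rv g c z v Y (nx d))
def P2 (d : Dt) : ℂ → Mat := tp (g d) (v d) (P1 nx rv g c z v Y (nx d))

open Classical in
def WW (d : Dt) (w : ℂ) : Mat :=
  if w ∈ K0 g c z d then P0 nx rv g c z v Y d w
  else if w ∈ K1 nx g c z d then P1 nx rv g c z v Y d w else P2 nx rv g c z v Y d w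

variable {nx rv g c z v Y}

section Geo
variable (hA : ALG_s) (hS : Star nx rv g c z)
include hA hS

theorem f1 (d : Dt) : mob (g d) (c (nx d)) = c d := (hS.crot d).symm

theorem inv_r (d : Dt) {w : ℂ} (hw : 0 < w.im) : mob (g d) (mob (g (rv d)) w) = w := by
  rw [← hA.mob_mul _ _ _ hw.ne']
  exact mob_pm hA (hS.gr d) w

theorem f2 (d : Dt) : mob (g d) (c (rv d)) = c (nx (rv d)) := by
  rw [hS.crot (rv d)]
  exact inv_r hA hS d (hS.cim _)

theorem inv_f (d : Dt) {w : ℂ} (hw : 0 < w.im) :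
    mob (g d) (mob (g (nx d)) (mob (g (nx (nx d))) w)) = w := by
  rw [← hA.mob_mul _ _ _ (hA.mob_pos _ _ hw).ne', ← hA.mob_mul _ _ _ hw.ne']
  exact mob_pm hA (hS.gf d) w

theorem f3 (d : Dt) : mob (g d) (z2 nx g z (nx d)) = z := inv_f hA hS d hS.im

theorem z1_im (d : Dt) : 0 < (z1 g z d).im := hA.mob_pos _ _ hS.im

theorem z2_im (d : Dt) : 0 < (z2 nx g z d).im := hA.mob_pos _ _ (hA.mob_pos _ _ hS.im)

theorem f4 (d : Dt) : z2 nx g z (nx (rv d)) = z1 g z d := by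
  have h := inv_r hA hS d (z2_im hA hS (nx (rv d)))
  rw [f3 hA hS (rv d)] at h
  exact h.symm

theorem face_eq (d : Dt) : face nx g z d = tri z (z1 g z d) (z2 nx g z d) := by
  unfold face z1 z2
  rw [hA.mob_mul _ _ _ hS.im.ne']

theorem pK0 (d : Dt) : PosT z (z1 g z d) (c d) := ⟨hS.im, z1_im hA hS d, hS.cim d, hS.cin d⟩

omit hA in
theorem pS0 (d : Dt) : PosT z (c (nx (rv d))) (c d) := ⟨hS.im, hS.cim _, hS.cim d, hS.spos d⟩

variable (hT : TRI_s)
include hT

theorem pK1 (d : Dt) : PosT (z1 g z d) (z2 nx g z d) (c d) := by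
  have h := pos_mob hA hT (g d) (pK0 hA hS (nx d))
  rwa [f1 hA hS] at h

theorem pK2 (d : Dt) : PosT (z2 nx g z d) z (c d) := by
  have h := pos_mob hA hT (g d) (pK1 hA hS hT (nx d))
  rwa [f1 hA hS, f3 hA hS] at h

theorem pS1 (d : Dt) : PosT (c (nx (rv d))) (z1 g z d) (c d) := by
  have h := pos_mob hA hT (g d) (pS0 hS (rv d))
  rw [hS.r2, f1 hA hS, f2 hA hS] at h
  exact pos_rot (pos_rot h)

theorem pK' (d : Dt) : PosT z (c (nx (rv d))) (z1 g z d) := by
  have h := pK2 hA hS hT (nx (rv d))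
  rw [f4 hA hS] at h
  exact pos_rot h

theorem K2_sg (d : Dt) : K2 nx g c z (nx (rv d)) = tri z (c (nx (rv d))) (z1 g z d) := by
  unfold K2
  rw [f4 hA hS, hT.tri_rot]

theorem m01 (d : Dt) {w : ℂ} (hw : 0 < w.im) :
    mob (g d) w ∈ K1 nx g c z d ↔ w ∈ K0 g c z (nx d) := by
  have h := hT.tri_mob (g d) z (z1 g z (nx d)) (c (nx d)) w hS.im (z1_im hA hS _) (hS.cim _) hw
  rwa [f1 hA hS] at h

theorem m12 (d : Dt) {w : ℂ} (hw : 0 < w.im) :
    mob (g d) w ∈ K2 nx g c z d ↔ w ∈ K1 nx g c z (nx d) := by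
  have h := hT.tri_mob (g d) (z1 g z (nx d)) (z2 nx g z (nx d)) (c (nx d)) w (z1_im hA hS _)
    (z2_im hA hS _) (hS.cim _) hw
  rwa [f1 hA hS, f3 hA hS] at h

theorem m20 (d : Dt) {w : ℂ} (hw : 0 < w.im) :
    mob (g d) w ∈ K0 g c z d ↔ w ∈ K2 nx g c z (nx d) := by
  have h := hT.tri_mob (g d) (z2 nx g z (nx d)) z (c (nx d)) w (z2_im hA hS _) hS.im (hS.cim _) hw
  rwa [f1 hA hS, f3 hA hS] at h

theorem mS (d : Dt) {w : ℂ} (hw : 0 < w.im) :
    mob (g d) w ∈ S1 nx rv g c z d ↔ w ∈ str nx rv c z (rv d) := by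
  have h := hT.tri_mob (g d) z (c (nx (rv (rv d)))) (c (rv d)) w hS.im (hS.cim _) (hS.cim _) hw
  rw [hS.r2, f1 hA hS, f2 hA hS] at h
  unfold S1 str
  rw [hS.r2, hT.tri_rot]
  exact h

end Geo

theorem P0_S0 (d : Dt) {w : ℂ} (hw : w ∈ str nx rv c z d) : P0 nx rv g c z v Y d w = Y d w :=
  if_pos hw

section Main
variable (hA : ALG_s) (hT : TRI_s) (hG : GLUE_s) (hS : Star nx rv g c z)
include hA hT hG hS

theorem quad (d : Dt) :
    K2 nx g c z (nx (rv d)) ∪ K0 g c z d = str nx rv c z d ∪ S1 nx rv g c z d ∧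
      str nx rv c z d ∩ S1 nx rv g c z d = seg (c (nx (rv d))) (c d) := by
  have h := hG.quad _ _ _ _ (pK' hA hS hT d) (pK0 hA hS d) (pS0 hS d) (pS1 hA hS hT d)
  rw [K2_sg hA hS hT]
  exact ⟨h.1, h.2.2⟩

theorem kites (d : Dt) : face nx g z d = K0 g c z d ∪ K1 nx g c z d ∪ K2 nx g c z d := by
  rw [face_eq hA hS]
  exact (hG.kite _ _ _ _ (pK0 hA hS d) (pK1 hA hS hT d) (pK2 hA hS hT d)).2.1

theorem i01 (d : Dt) : K0 g c z d ∩ K1 nx g c z d = seg (z1 g z d) (c d) :=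
  (hG.kite _ _ _ _ (pK0 hA hS d) (pK1 hA hS hT d) (pK2 hA hS hT d)).2.2

theorem edge_K0 (d : Dt) : seg z (z1 g z d) ⊆ K0 g c z d := hT.seg_sub _ _ _ (pK0 hA hS d)

theorem edge_K2 (d : Dt) : seg z (z1 g z d) ⊆ K2 nx g c z (nx (rv d)) := by
  unfold K2
  rw [f4 hA hS, hT.seg_symm]
  have h := pK2 hA hS hT (nx (rv d))
  rw [f4 hA hS] at h
  exact hT.seg_sub _ _ _ h

theorem sf_K0 (d : Dt) {w : ℂ} (hw : w ∈ str nx rv c z d) (hf : w ∈ face nx g z d) :
    w ∈ K0 g c z d := by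
  have h : w ∈ K2 nx g c z (nx (rv d)) ∪ K0 g c z d := by
    rw [(quad hA hT hG hS d).1]; exact Or.inl hw
  rcases h with h | h
  · have hp := pK2 hA hS hT (nx (rv d))
    unfold K2 at h
    rw [f4 hA hS] at h hp
    rw [face_eq hA hS] at hf
    have h1 : hd (z1 g z d) z w = 0 := by
      have a := h.2.1
      have b := hf.2.1
      rw [hd_swap] at b
      linarith
    have := (hT.seg_iff _ _ _ w hp h).2 h1
    rw [hT.seg_symm] at this
    exact edge_K0 hA hT hG hS d this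
  · exact h

theorem sf_K2 (d : Dt) {w : ℂ} (hw : w ∈ str nx rv c z d) (hf : w ∈ face nx g z (nx (rv d))) :
    w ∈ K2 nx g c z (nx (rv d)) := by
  have h : w ∈ K2 nx g c z (nx (rv d)) ∪ K0 g c z d := by
    rw [(quad hA hT hG hS d).1]; exact Or.inl hw
  rcases h with h | h
  · exact h
  · rw [face_eq hA hS, f4 hA hS] at hf
    have h1 : hd z (z1 g z d) w = 0 := by
      have a := h.2.1
      have b := hf.2.2.2
      rw [hd_swap] at b
      linarith
    exact edge_K2 hA hT hG hS d ((hT.seg_iff _ _ _ w (pK0 hA hS d) h).2 h1)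

variable (hY : SAdm nx rv g c z v Y)
include hY

theorem P0_S1 (d : Dt) {w : ℂ} (hw : w ∈ S1 nx rv g c z d) :
    P0 nx rv g c z v Y d w = tp (g d) (v d) (Y (rv d)) w := by
  unfold P0
  split_ifs with h
  · have hs : w ∈ seg (c (nx (rv d))) (c d) := by
      rw [← (quad hA hT hG hS d).2]; exact ⟨h, hw⟩
    obtain ⟨w', hw', rfl⟩ := ex_mob hA (g d) hw.1
    rw [tp_mob hA _ _ _ hw']
    apply hY.base
    rw [← hT.seg_mob (g d) _ _ _ (hS.cim _) (hS.cim _) hw', f1 hA hS, f2 hA hS]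
    exact hs
  · rfl

theorem c01 (d : Dt) {w : ℂ} (h0 : w ∈ K0 g c z d) (h1 : w ∈ K1 nx g c z d) :
    P0 nx rv g c z v Y d w = P1 nx rv g c z v Y d w := by
  have hs : w ∈ seg (z1 g z d) (c d) := by
    rw [← i01 hA hT hG hS d]; exact ⟨h0, h1⟩
  have hS1 : w ∈ S1 nx rv g c z d := by
    unfold S1
    rw [hT.tri_rot]
    exact hT.seg_sub _ _ _ (pos_rot (pS1 hA hS hT d)) hs
  rw [P0_S1 hA hT hG hS hY d hS1]
  obtain ⟨w', hw', rfl⟩ := ex_mob hA (g d) h0.1
  have hs' : w' ∈ seg z (c (nx d)) := by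
    rw [← hT.seg_mob (g d) _ _ _ hS.im (hS.cim _) hw', f1 hA hS]
    exact hs
  have hm : w' ∈ str nx rv c z (nx d) := by
    unfold str
    rw [hT.tri_rot, hT.tri_rot]
    rw [hT.seg_symm] at hs'
    exact hT.seg_sub _ _ _ (pos_rot (pos_rot (pS0 hS (nx d)))) hs'
  unfold P1
  rw [tp_mob hA _ _ _ hw', tp_mob hA _ _ _ hw', P0_S0 _ hm]
  have := hY.rad (rv d) w' (by rw [hS.r2]; exact hs')
  rw [this, hS.r2]

theorem c12 (d : Dt) {w : ℂ} (h1 : w ∈ K1 nx g c z d) (h2 : w ∈ K2 nx g c z d) :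
    P1 nx rv g c z v Y d w = P2 nx rv g c z v Y d w := by
  obtain ⟨w', hw', rfl⟩ := ex_mob hA (g d) h1.1
  have := c01 hA hT hG hS hY (nx d) ((m01 hA hS hT d hw').1 h1) ((m12 hA hS hT d hw').1 h2)
  unfold P2
  rw [tp_mob hA _ _ _ hw', ← this]
  unfold P1
  rw [tp_mob hA _ _ _ hw']

variable (hC : Coc nx rv g v)
include hC

omit hT hG hY in
theorem t3 (d : Dt) {w : ℂ} (hw : 0 < w.im) :
    P0 nx rv g c z v Y d (mob (g d) w) = v d + Ad (g d) (P2 nx rv g c z v Y (nx d) w) := by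
  obtain ⟨w1, hw1, rfl⟩ := ex_mob hA (g (nx d)) hw
  obtain ⟨w2, hw2, rfl⟩ := ex_mob hA (g (nx (nx d))) hw1
  unfold P2 P1
  rw [tp_mob hA _ _ _ hw1, tp_mob hA _ _ _ hw2, inv_f hA hS d hw2, hS.n3, hA.ad_add (g (nx d)),
    ← add_assoc, hA.ad_add (g d), ← add_assoc, hC.f d, zero_add, ← hA.ad_mul, ← hA.ad_mul,
    ad_pm hA (hS.gf d)]

theorem c20 (d : Dt) {w : ℂ} (h2 : w ∈ K2 nx g c z d) (h0 : w ∈ K0 g c z d) :
    P2 nx rv g c z v Y d w = P0 nx rv g c z v Y d w := by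
  obtain ⟨w', hw', rfl⟩ := ex_mob hA (g d) h2.1
  have := c12 hA hT hG hS hY (nx d) ((m12 hA hS hT d hw').1 h2) ((m20 hA hS hT d hw').1 h0)
  rw [t3 hA hS hC d hw', ← this]
  unfold P2
  rw [tp_mob hA _ _ _ hw']

omit hA hT hG hS hY hC in
theorem W0 (d : Dt) {w : ℂ} (h : w ∈ K0 g c z d) :
    WW nx rv g c z v Y d w = P0 nx rv g c z v Y d w := if_pos h

omit hC in
theorem W1 (d : Dt) {w : ℂ} (h : w ∈ K1 nx g c z d) :
    WW nx rv g c z v Y d w = P1 nx rv g c z v Y d w := by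
  unfold WW
  split_ifs with h0
  · exact c01 hA hT hG hS hY d h0 h
  · rfl

theorem W2 (d : Dt) {w : ℂ} (h : w ∈ K2 nx g c z d) :
    WW nx rv g c z v Y d w = P2 nx rv g c z v Y d w := by
  unfold WW
  split_ifs with h0 h1
  · exact (c20 hA hT hG hS hY hC d h h0).symm
  · exact c12 hA hT hG hS hY d h1 h
  · rfl

omit hT hG hY in
theorem undo (d : Dt) (X : Mat) : v d + Ad (g d) (v (rv d) + Ad (g (rv d)) X) = X := by
  rw [hA.ad_add, ← add_assoc, hC.r d, zero_add, ← hA.ad_mul, ad_pm hA (hS.gr d)]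

theorem P2_sg (d : Dt) {w : ℂ} (h : w ∈ str nx rv c z d ∪ S1 nx rv g c z d) :
    P2 nx rv g c z v Y (nx (rv d)) w = P0 nx rv g c z v Y d w := by
  have hw : 0 < w.im := by rcases h with h | h <;> exact h.1
  rw [← undo hA hS hC d (P2 nx rv g c z v Y (nx (rv d)) w), ← t3 hA hS hC (rv d) hw]
  rcases h with h | h
  · have hm : mob (g (rv d)) w ∈ S1 nx rv g c z (rv d) := by
      rw [mS hA hS hT (rv d) hw, hS.r2]; exact h
    rw [P0_S1 hA hT hG hS hY (rv d) hm, tp_mob hA _ _ _ hw, hS.r2, undo hA hS hC, P0_S0 d h]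
  · have hw' := hA.mob_pos (g (rv d)) w hw
    have e := inv_r hA hS d hw
    have hm : mob (g (rv d)) w ∈ str nx rv c z (rv d) := by
      rw [← mS hA hS hT d hw', e]; exact h
    rw [P0_S0 _ hm, P0_S1 hA hT hG hS hY d h, ← tp_mob hA _ _ _ hw', e]

variable (hR : TRA_s)
include hR

omit hC in
theorem lip0 (d : Dt) : Lip (P0 nx rv g c z v Y d) (K0 g c z d) := by
  refine hG.gl (ι := Bool) _ _ _ (fun b => if b then str nx rv c z d else S1 nx rv g c z d) _
    (pK0 hA hS d) ?_ ?_ ?_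
  · rintro (_ | _)
    · exact (hT.cpt _ _ _ (pS1 hA hS hT d)).isClosed
    · exact (hT.cpt _ _ _ (pS0 hS d)).isClosed
  · intro w hw
    have h : w ∈ str nx rv c z d ∪ S1 nx rv g c z d := by
      rw [← (quad hA hT hG hS d).1]; exact Or.inr hw
    rcases h with h | h
    · exact mem_iUnion.2 ⟨true, h⟩
    · exact mem_iUnion.2 ⟨false, h⟩
  · rintro (_ | _)
    · have h := hR.lip_tp (g d) (v d) _ _ _ _ (pS0 hS (rv d)) (hY.lip (rv d))
      rw [hS.r2, f1 hA hS, f2 hA hS, ← hT.tri_rot] at h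
      exact lip_congr h fun w hw => P0_S1 hA hT hG hS hY d hw
    · exact lip_congr (hY.lip d) fun w hw => P0_S0 d hw

omit hC in
theorem lip1 (d : Dt) : Lip (P1 nx rv g c z v Y d) (K1 nx g c z d) := by
  have h := hR.lip_tp (g d) (v d) _ _ _ _ (pK0 hA hS (nx d)) (lip0 hA hT hG hS hY hR (nx d))
  rwa [f1 hA hS] at h

omit hC in
theorem lip2 (d : Dt) : Lip (P2 nx rv g c z v Y d) (K2 nx g c z d) := by
  have h := hR.lip_tp (g d) (v d) _ _ _ _ (pK1 hA hS hT (nx d)) (lip1 hA hT hG hS hY hR (nx d))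
  rwa [f1 hA hS, f3 hA hS] at h

theorem lipW (d : Dt) : Lip (WW nx rv g c z v Y d) (face nx g z d) := by
  have hk := kites hA hT hG hS d
  rw [face_eq hA hS] at hk ⊢
  refine hG.gl (ι := Option Bool) _ _ _
    (fun b => b.elim (K0 g c z d) fun b => if b then K1 nx g c z d else K2 nx g c z d) _
    (hG.kite _ _ _ _ (pK0 hA hS d) (pK1 hA hS hT d) (pK2 hA hS hT d)).1 ?_ ?_ ?_
  · rintro (_ | _ | _)
    · exact (hT.cpt _ _ _ (pK0 hA hS d)).isClosed
    · exact (hT.cpt _ _ _ (pK2 hA hS hT d)).isClosed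
    · exact (hT.cpt _ _ _ (pK1 hA hS hT d)).isClosed
  · intro w hw
    rw [hk] at hw
    rcases hw with (h | h) | h
    · exact mem_iUnion.2 ⟨none, h⟩
    · exact mem_iUnion.2 ⟨some true, h⟩
    · exact mem_iUnion.2 ⟨some false, h⟩
  · rintro (_ | _ | _)
    · exact lip_congr (lip0 hA hT hG hS hY hR d) fun w hw => W0 d hw
    · exact lip_congr (lip2 hA hT hG hS hY hR d) fun w hw => W2 hA hT hG hS hY hC d hw
    · exact lip_congr (lip1 hA hT hG hS hY hR d) fun w hw => W1 hA hT hG hS hY d hw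

theorem adm : Adm nx rv g z v (WW nx rv g c z v Y) := by
  refine ⟨lipW hA hT hG hS hY hC hR, fun d w hw => ?_, fun d w hw => ?_⟩
  · have hi : 0 < w.im := hw.1
    rw [kites hA hT hG hS] at hw
    rcases hw with (h | h) | h
    · rw [W1 hA hT hG hS hY d ((m01 hA hS hT d hi).2 h), W0 _ h]
      exact tp_mob hA _ _ _ hi
    · rw [W2 hA hT hG hS hY hC d ((m12 hA hS hT d hi).2 h), W1 hA hT hG hS hY _ h]
      exact tp_mob hA _ _ _ hi
    · rw [W0 d ((m20 hA hS hT d hi).2 h), W2 hA hT hG hS hY hC _ h]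
      exact t3 hA hS hC d hi
  · have h0 := edge_K0 hA hT hG hS d hw
    rw [W0 d h0, W2 hA hT hG hS hY hC _ (edge_K2 hA hT hG hS d hw), P2_sg hA hT hG hS hY hC d]
    rw [← (quad hA hT hG hS d).1]
    exact Or.inr h0

omit hR in
theorem rel : Rel nx rv g c z (WW nx rv g c z v Y) Y := by
  intro d w hw
  refine ⟨fun hf => ?_, fun hf => ?_⟩
  · rw [W0 d (sf_K0 hA hT hG hS d hw hf), P0_S0 d hw]
  · rw [W2 hA hT hG hS hY hC _ (sf_K2 hA hT hG hS d hw hf), P2_sg hA hT hG hS hY hC d (Or.inl hw),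
      P0_S0 d hw]

end Main

end

end SFx

theorem SF (hA : ALG_s) (hT : TRI_s) (hR : TRA_s) (hG : GLUE_s) : SF_s := by
  intro Dt _ nx rv g c z v Y hS hC hY
  exact ⟨SFx.WW nx rv g c z v Y, SFx.adm hA hT hG hS hY hC hR, SFx.rel hA hT hG hS hY hC⟩

end Pool.Agent.MP_596265_gt.Hd

end

section

namespace Pool.Agent.MP_596265_gt.Hd

open MeasureTheory Set Complex Filter Topology
open scoped ComplexConjugate Matrix.Norms.Elementwise NNReal InnerProductSpace

namespace DENSx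

theorem ms (hT : TRI_s) {p q r : ℂ} (h : PosT p q r) : MeasurableSet (tri p q r) :=
  (hT.cpt p q r h).isClosed.measurableSet

theorem rot {p q r : ℂ} (h : PosT p q r) : PosT q r p :=
  ⟨h.2.1, h.2.2.1, h.1, by have := h.2.2.2; unfold hd at this ⊢; linarith⟩

theorem nul (hT : TRI_s) {p q a : ℂ} (b : ℂ) (h : PosT p q a) :
    AEDisjoint volume (tri p q a) (tri q p b) := by
  have hne : p ≠ q := by
    rintro rfl
    have := h.2.2.2
    simp [hd] at this
  refine measure_mono_null (fun w hw => ?_) (hT.null p q hne h.1 h.2.1)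
  have h1 := hw.1.2.1
  have h2 := hw.2.2.1
  show hd p q w = 0
  unfold hd at h1 h2 ⊢
  linarith

theorem pos_mob (hA : ALG_s) (hT : TRI_s) (g : G) {p q r : ℂ} (h : PosT p q r) :
    PosT (mob g p) (mob g q) (mob g r) := by
  refine ⟨hA.mob_pos g p h.1, hA.mob_pos g q h.2.1, hA.mob_pos g r h.2.2.1, ?_⟩
  rw [hT.hd_mob g p q r h.1.ne' h.2.1.ne' h.2.2.1.ne']
  exact div_pos h.2.2.2 (mul_pos (mul_pos (normSq_pos.2 (hA.den_ne g p h.1.ne'))
    (normSq_pos.2 (hA.den_ne g q h.2.1.ne'))) (normSq_pos.2 (hA.den_ne g r h.2.2.1.ne')))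

theorem split {A B C : Set ℂ} {f : ℂ → ℂ} (hA : MeasurableSet A) (hC : MeasurableSet C)
    (hs : A ⊆ B ∪ C) (hd : AEDisjoint volume B C) (h1 : IntegrableOn f (A ∩ B))
    (h2 : IntegrableOn f (A ∩ C)) :
    IntegrableOn f A ∧ ∫ w in A, f w = (∫ w in A ∩ B, f w) + ∫ w in A ∩ C, f w := by
  have e : A ∩ B ∪ A ∩ C = A := by rw [← inter_union_distrib_left, inter_eq_left.2 hs]
  refine ⟨e ▸ h1.union h2, ?_⟩
  rw [← setIntegral_union₀ (hd.mono inter_subset_right inter_subset_right)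
    (hA.inter hC).nullMeasurableSet h1 h2, e]

theorem kite (hT : TRI_s) (hG : GLUE_s) {p q r c : ℂ} {f : ℂ → ℂ} (h1 : PosT p q c)
    (h2 : PosT q r c) (h3 : PosT r p c) (hf : IntegrableOn f (tri p q r)) :
    ∫ w in tri p q r, f w =
      (∫ w in tri p q c, f w) + (∫ w in tri q r c, f w) + ∫ w in tri r p c, f w := by
  have e := (hG.kite p q r c h1 h2 h3).2.1
  rw [e] at hf ⊢
  have d1 : AEDisjoint volume (tri p q c) (tri q r c) := by
    rw [hT.tri_rot p q c, ← hT.tri_rot c q r]; exact nul hT r (rot h1)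
  have d2 : AEDisjoint volume (tri p q c) (tri r p c) := by
    rw [← hT.tri_rot c p q, hT.tri_rot r p c]; exact nul hT r (rot (rot h1))
  have d3 : AEDisjoint volume (tri q r c) (tri r p c) := by
    rw [hT.tri_rot q r c, ← hT.tri_rot c r p]; exact nul hT p (rot h2)
  rw [setIntegral_union₀ (d2.union_left d3) (ms hT h3).nullMeasurableSet
      (hf.mono_set subset_union_left) (hf.mono_set subset_union_right),
    setIntegral_union₀ d1 (ms hT h2).nullMeasurableSet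
      (hf.mono_set (subset_union_left.trans subset_union_left))
      (hf.mono_set (subset_union_right.trans subset_union_left))]

theorem trans (hA : ALG_s) (hT : TRI_s) (hR : TRA_s) (g : G) {p q r : ℂ} {F E E' : Set ℂ}
    {f f' : ℂ → ℂ} (h : PosT p q r) (hF : MeasurableSet F) (hE : MeasurableSet E)
    (hE' : MeasurableSet E') (hs : E ⊆ F) (he : ∀ w, 0 < w.im → (mob g w ∈ E' ↔ w ∈ E))
    (hf : ∀ᵐ w ∂volume.restrict F, f (mob g w) = (normSq (den g w) ^ 2 : ℝ) * f' w) :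
    ∫ w in tri (mob g p) (mob g q) (mob g r) ∩ E', f w = ∫ w in tri p q r ∩ E, f' w := by
  rw [← setIntegral_indicator hE', ← setIntegral_indicator hE, (hR.cv g p q r _ h).1]
  refine setIntegral_congr_ae (ms hT h) ?_
  filter_upwards [(ae_restrict_iff' hF).1 hf] with w hw hm
  by_cases hx : w ∈ E
  · have hn : ((normSq (den g w) ^ 2 : ℝ) : ℂ) ≠ 0 :=
      ofReal_ne_zero.2 (pow_ne_zero 2 (normSq_pos.2 (hA.den_ne g w hm.1.ne')).ne')
    rw [indicator_of_mem ((he w hm.1).2 hx), indicator_of_mem hx, hw (hs hx),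
      mul_div_cancel_left₀ _ hn]
  · rw [indicator_of_notMem (fun h => hx ((he w hm.1).1 h)), indicator_of_notMem hx, zero_div]

theorem trans' (hA : ALG_s) (hT : TRI_s) (hR : TRA_s) (g : G) {p q r : ℂ} {F : Set ℂ}
    {f f' : ℂ → ℂ} (h : PosT p q r) (hF : MeasurableSet F) (hs : tri p q r ⊆ F)
    (hf : ∀ᵐ w ∂volume.restrict F, f (mob g w) = (normSq (den g w) ^ 2 : ℝ) * f' w) :
    ∫ w in tri (mob g p) (mob g q) (mob g r), f w = ∫ w in tri p q r, f' w := by
  have := trans hA hT hR g h hF (ms hT h) (ms hT (pos_mob hA hT g h)) hs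
    (fun w hw => hT.tri_mob g p q r w h.1 h.2.1 h.2.2.1 hw) hf
  rwa [inter_self, inter_self] at this

theorem mob_pm (hA : ALG_s) {g : G} (h : g = 1 ∨ g = -1) (w : ℂ) : mob g w = w := by
  rcases h with rfl | rfl
  · exact hA.mob_one w
  · rw [hA.mob_neg, hA.mob_one]

end DENSx

open DENSx in
theorem DENS (hA : ALG_s) (hT : TRI_s) (hR : TRA_s) (hG : GLUE_s) : DENS_s := by
  intro Dt _ nx rv g c z ρ ρ' hS hi hρ hρ'
  have hz := hS.im
  have hP : ∀ d, 0 < (mob (g d) z).im := fun d => hA.mob_pos _ _ hz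
  have hQ : ∀ d, mob (g d * g (nx d)) z = mob (g d) (mob (g (nx d)) z) := fun d =>
    hA.mob_mul _ _ _ hz.ne'
  have r2 : ∀ d w, 0 < w.im → mob (g d) (mob (g (rv d)) w) = w := fun d w hw => by
    rw [← hA.mob_mul _ _ _ hw.ne', mob_pm hA (hS.gr d)]
  have n3 : ∀ d, mob (g d) (mob (g (nx d)) (mob (g (nx (nx d))) z)) = z := fun d => by
    rw [← hA.mob_mul _ _ _ (hP _).ne', ← hA.mob_mul _ _ _ hz.ne', mob_pm hA (hS.gf d)]
  have hQs : ∀ d, mob (g (nx (rv d))) (mob (g (nx (nx (rv d)))) z) = mob (g d) z := fun d => by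
    rw [← r2 d (mob (g (nx (rv d))) _) (hA.mob_pos _ _ (hP _)), n3]
  have hcs : ∀ d, mob (g d) (c (rv d)) = c (nx (rv d)) := fun d => by
    rw [hS.crot (rv d), r2 d _ (hS.cim _)]
  have hF : ∀ d, face nx g z d = tri z (mob (g d) z) (mob (g d) (mob (g (nx d)) z)) := fun d => by
    rw [face, hQ]
  have k1 : ∀ d, PosT z (mob (g d) z) (c d) := fun d => ⟨hz, hP d, hS.cim d, hS.cin d⟩
  have k2 : ∀ d, PosT (mob (g d) z) (mob (g d) (mob (g (nx d)) z)) (c d) := fun d => by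
    rw [hS.crot d]; exact pos_mob hA hT _ (k1 _)
  have k3 : ∀ d, PosT (mob (g d) (mob (g (nx d)) z)) z (c d) := fun d => by
    have := pos_mob hA hT (g d) (k2 (nx d))
    rwa [n3, ← hS.crot d] at this
  have mF : ∀ d, MeasurableSet (face nx g z d) := fun d => by
    rw [hF]; exact ms hT (hG.kite _ _ _ _ (k1 d) (k2 d) (k3 d)).1
  have s1 : ∀ d, tri z (mob (g d) z) (c d) ⊆ face nx g z d := fun d => by
    rw [hF, (hG.kite _ _ _ _ (k1 d) (k2 d) (k3 d)).2.1]
    exact subset_union_left.trans subset_union_left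
  have s2 : ∀ d, tri (mob (g d) z) (mob (g d) (mob (g (nx d)) z)) (c d) ⊆ face nx g z d :=
    fun d => by
      rw [hF, (hG.kite _ _ _ _ (k1 d) (k2 d) (k3 d)).2.1]
      exact subset_union_right.trans subset_union_left
  have s3 : ∀ d, tri z (c (nx (rv d))) (mob (g d) z) ⊆ face nx g z (nx (rv d)) := fun d => by
    rw [hF, (hG.kite _ _ _ _ (k1 _) (k2 _) (k3 _)).2.1, hQs, ← hT.tri_rot (mob (g d) z) z]
    exact subset_union_right
  have k4 : ∀ d, PosT z (c (nx (rv d))) (mob (g d) z) := fun d => by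
    have := rot (k3 (nx (rv d)))
    rwa [hQs] at this
  have k5 : ∀ d, PosT z (c (nx (rv d))) (c d) := fun d => ⟨hz, hS.cim _, hS.cim _, hS.spos d⟩
  have k6 : ∀ d, PosT (c (nx (rv d))) (mob (g d) z) (c d) := fun d => by
    have := pos_mob hA hT (g d) (rot (rot (k5 (rv d))))
    rwa [hS.r2, hcs, ← hS.crot d] at this
  have t2 : ∀ d, ∫ w in tri (mob (g d) z) (mob (g d) (mob (g (nx d)) z)) (c d), ρ d w =
      ∫ w in tri z (mob (g (nx d)) z) (c (nx d)), ρ (nx d) w := fun d => by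
    rw [hS.crot d]; exact trans' hA hT hR _ (k1 _) (mF _) (s1 _) (hρ d)
  have t3 : ∀ d, ∫ w in tri (mob (g d) (mob (g (nx d)) z)) z (c d), ρ d w =
      ∫ w in tri z (mob (g (nx (nx d))) z) (c (nx (nx d))), ρ (nx (nx d)) w := fun d => by
    have := trans' hA hT hR (g d) (k2 (nx d)) (mF _) (s2 _) (hρ d)
    rw [n3, ← hS.crot d, t2] at this
    exact this
  have eF : ∀ d, ∫ w in face nx g z d, ρ d w = (∫ w in tri z (mob (g d) z) (c d), ρ d w) +
      (∫ w in tri z (mob (g (nx d)) z) (c (nx d)), ρ (nx d) w) +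
      ∫ w in tri z (mob (g (nx (nx d))) z) (c (nx (nx d))), ρ (nx (nx d)) w := fun d => by
    have := hi d
    rw [hF] at this ⊢
    rw [kite hT hG (k1 d) (k2 d) (k3 d) this, t2, t3]
  have q := fun d => (hG.quad _ _ _ _ (k4 d) (k1 d) (k5 d) (k6 d)).1
  -- the star pieces
  have eS : ∀ d, IntegrableOn (ρ' d) (str nx rv c z d) ∧ ∫ w in str nx rv c z d, ρ' d w =
      (∫ w in str nx rv c z d ∩ tri z (c (nx (rv d))) (mob (g d) z), ρ (nx (rv d)) w) +
        ∫ w in str nx rv c z d ∩ tri z (mob (g d) z) (c d), ρ d w := fun d => by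
    have mS : MeasurableSet (str nx rv c z d) := ms hT (k5 d)
    have ha := (ae_restrict_iff' mS).1 (hρ' d)
    have a1 : ρ' d =ᵐ[volume.restrict (str nx rv c z d ∩ tri z (c (nx (rv d))) (mob (g d) z))]
        ρ (nx (rv d)) := (ae_restrict_iff' (mS.inter (ms hT (k4 d)))).2
      (ha.mono fun w hw hm => (hw hm.1).2 (s3 d hm.2))
    have a2 : ρ' d =ᵐ[volume.restrict (str nx rv c z d ∩ tri z (mob (g d) z) (c d))] ρ d :=
      (ae_restrict_iff' (mS.inter (ms hT (k1 d)))).2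
        (ha.mono fun w hw hm => (hw hm.1).1 (s1 d hm.2))
    have dj : AEDisjoint volume (tri z (c (nx (rv d))) (mob (g d) z))
        (tri z (mob (g d) z) (c d)) := by
      rw [← hT.tri_rot (mob (g d) z) z]; exact nul hT _ (rot (rot (k4 d)))
    have := split (f := ρ' d) mS (ms hT (k1 d)) (by rw [q d]; exact subset_union_left) dj
      (((hi _).mono_set (inter_subset_right.trans (s3 d))).congr_fun_ae a1.symm)
      (((hi _).mono_set (inter_subset_right.trans (s1 d))).congr_fun_ae a2.symm)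
    rwa [integral_congr_ae a1, integral_congr_ae a2] at this
  have eK : ∀ d, ∫ w in tri z (mob (g d) z) (c d), ρ d w =
      (∫ w in str nx rv c z d ∩ tri z (mob (g d) z) (c d), ρ d w) +
        ∫ w in str nx rv c z (rv d) ∩ tri z (c (nx (rv (rv d)))) (mob (g (rv d)) z),
          ρ (nx (rv (rv d))) w := fun d => by
    have dj : AEDisjoint volume (tri z (c (nx (rv d))) (c d))
        (tri (c (nx (rv d))) (mob (g d) z) (c d)) := by
      rw [hT.tri_rot z, ← hT.tri_rot (c d) (c (nx (rv d)))]; exact nul hT _ (rot (k5 d))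
    have h1 := (split (f := ρ d) (ms hT (k1 d)) (ms hT (k6 d))
      (by rw [← q d]; exact subset_union_right) dj
      ((hi _).mono_set (inter_subset_left.trans (s1 d)))
      ((hi _).mono_set (inter_subset_left.trans (s1 d)))).2
    have h2 := trans hA hT hR (g d) (f := ρ d) (f' := ρ (nx (rv (rv d)))) (rot (rot (k5 (rv d))))
      (mF (nx (rv (rv d)))) (ms hT (k4 (rv d))) (ms hT (k1 d)) (s3 (rv d)) (fun w hw => by
        have := hT.tri_mob (g d) z (c (nx (rv (rv d)))) (mob (g (rv d)) z) w hz (hS.cim _)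
          (hP _) hw
        rw [r2 d z hz, hS.r2, ← hS.crot d, ← hT.tri_rot z] at this
        rw [hS.r2]; exact this) (by rw [hS.r2]; exact hρ d)
    rw [hcs, hT.tri_rot (c (rv d)) z] at h2
    rw [h1, inter_comm, inter_comm (tri z (mob (g d) z) (c d))]
    refine congrArg₂ (· + ·) rfl (Eq.trans ?_ h2)
    rw [hS.r2, ← hS.crot d]
  let en : Dt ≃ Dt := ⟨nx, fun d => nx (nx d), hS.n3, hS.n3⟩
  let er : Dt ≃ Dt := ⟨rv, rv, hS.r2, hS.r2⟩
  refine ⟨fun d => (eS d).1, ?_⟩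
  have u1 := en.sum_comp fun d => ∫ w in tri z (mob (g d) z) (c d), ρ d w
  have u2 := (en.trans en).sum_comp fun d => ∫ w in tri z (mob (g d) z) (c d), ρ d w
  have u3 := er.sum_comp fun d =>
    ∫ w in str nx rv c z d ∩ tri z (c (nx (rv d))) (mob (g d) z), ρ (nx (rv d)) w
  have u4 : ∑ d, ∫ w in tri z (mob (g d) z) (c d), ρ d w =
      ∑ d, ∫ w in str nx rv c z d, ρ' d w := by
    rw [Finset.sum_congr rfl fun d _ => eK d, Finset.sum_congr rfl fun d _ => (eS d).2,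
      Finset.sum_add_distrib, Finset.sum_add_distrib, add_comm]
    exact congrArg₂ (· + ·) u3 rfl
  rw [Finset.sum_congr rfl fun d _ => eF d, Finset.sum_add_distrib, Finset.sum_add_distrib, ← u4]
  refine (congrArg₂ (· + ·) (congrArg₂ (· + ·) rfl u1) u2).trans ?_
  ring

end Pool.Agent.MP_596265_gt.Hd

end

section

/-! Block H, row INV: invariance of the Hodge norm under conjugation and relabelling. -/

namespace Pool.Agent.MP_596265_gt.Hd

open MeasureTheory Set Complex Filter Topology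
open scoped ComplexConjugate Matrix.Norms.Elementwise NNReal InnerProductSpace

namespace INVx

theorem pm_mob (hA : ALG_s) {a b : G} (h : a = b ∨ a = -b) (w : ℂ) : mob a w = mob b w := by
  rcases h with rfl | rfl
  · rfl
  · exact hA.mob_neg _ _

theorem pm_ad (hA : ALG_s) {a b : G} (h : a = b ∨ a = -b) (X : Mat) : Ad a X = Ad b X := by
  rcases h with rfl | rfl
  · rfl
  · exact hA.ad_neg _ _

theorem pm_mul {a b c d : G} (h : a = b ∨ a = -b) (h' : c = d ∨ c = -d) :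
    a * c = b * d ∨ a * c = -(b * d) := by
  rcases h with rfl | rfl <;> rcases h' with rfl | rfl
  · exact Or.inl rfl
  · exact Or.inr (mul_neg _ _)
  · exact Or.inr (neg_mul _ _)
  · exact Or.inl (neg_mul_neg _ _)

theorem iso (hA : ALG_s) {Dt Dt' : Type} [Fintype Dt] [Fintype Dt'] (nx rv : Dt → Dt)
    (nx' rv' : Dt' → Dt') (g : Dt → G) (g' : Dt' → G) (z : ℂ) (v : Dt → Mat) (v' : Dt' → Mat)
    (σ : Dt ≃ Dt') (hn : ∀ d, σ (nx d) = nx' (σ d)) (hr : ∀ d, σ (rv d) = rv' (σ d))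
    (hg : ∀ d, (g' (σ d) = g d ∨ g' (σ d) = -g d) ∧ v' (σ d) = v d) :
    Fn nx' rv' g' z v' = Fn nx rv g z v := by
  have hf : ∀ d, face nx' g' z (σ d) = face nx g z d := by
    intro d
    unfold face
    rw [← hn, pm_mob hA (hg d).1, pm_mob hA (pm_mul (hg d).1 (hg (nx d)).1)]
  have hadm : ∀ W' : Dt' → ℂ → Mat,
      Adm nx' rv' g' z v' W' ↔ Adm nx rv g z v (fun d => W' (σ d)) := by
    intro W'
    constructor
    · intro h
      refine ⟨fun d => ?_, fun d w hw => ?_, fun d w hw => ?_⟩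
      · rw [← hf]; exact h.lip (σ d)
      · have := h.rot (σ d) w (by rw [← hn, hf]; exact hw)
        rw [pm_mob hA (hg d).1, pm_ad hA (hg d).1, (hg d).2, ← hn] at this
        exact this
      · have := h.edge (σ d) w (by rw [pm_mob hA (hg d).1]; exact hw)
        rw [← hr, ← hn] at this
        exact this
    · intro h
      refine ⟨fun d => ?_, fun d w hw => ?_, fun d w hw => ?_⟩
      · obtain ⟨d, rfl⟩ := σ.surjective d
        rw [hf]; exact h.lip d
      · obtain ⟨d, rfl⟩ := σ.surjective d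
        rw [← hn, hf] at hw
        rw [pm_mob hA (hg d).1, pm_ad hA (hg d).1, (hg d).2, ← hn]
        exact h.rot d w hw
      · obtain ⟨d, rfl⟩ := σ.surjective d
        rw [pm_mob hA (hg d).1] at hw
        rw [← hr, ← hn]
        exact h.edge d w hw
  have hen : ∀ W' : Dt' → ℂ → Mat, en nx' g' z W' = en nx g z (fun d => W' (σ d)) := by
    intro W'
    unfold en
    rw [← σ.sum_comp]
    exact Finset.sum_congr rfl fun d _ => by rw [hf]
  unfold Fn
  refine congrArg sInf (Set.ext fun e => ⟨?_, ?_⟩)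
  · rintro ⟨W', h, rfl⟩
    exact ⟨_, (hadm W').1 h, hen W'⟩
  · rintro ⟨W, h, rfl⟩
    have e : (fun d => (fun d' => W (σ.symm d')) (σ d)) = W := by
      funext d
      simp only [Equiv.symm_apply_apply]
    refine ⟨fun d' => W (σ.symm d'), (hadm _).2 ?_, ?_⟩
    · rw [e]; exact h
    · rw [hen, e]

theorem mob_cnj (hA : ALG_s) (k a : G) {w : ℂ} (hw : 0 < w.im) :
    mob (k * a * k⁻¹) (mob k w) = mob k (mob a w) := by
  rw [← hA.mob_mul _ _ _ hw.ne', ← hA.mob_mul _ _ _ hw.ne', inv_mul_cancel_right]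

theorem mob_inv (hA : ALG_s) (k : G) {w : ℂ} (hw : 0 < w.im) : mob k⁻¹ (mob k w) = w := by
  rw [← hA.mob_mul _ _ _ hw.ne', inv_mul_cancel, hA.mob_one]

theorem mob_inv' (hA : ALG_s) (k : G) {w : ℂ} (hw : 0 < w.im) : mob k (mob k⁻¹ w) = w := by
  rw [← hA.mob_mul _ _ _ hw.ne', mul_inv_cancel, hA.mob_one]

theorem mob_cnj2 (hA : ALG_s) (k a b : G) {w : ℂ} (hw : 0 < w.im) :
    mob (k * a * k⁻¹ * (k * b * k⁻¹)) (mob k w) = mob k (mob (a * b) w) := by
  rw [← mob_cnj hA k (a * b) hw]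
  have : k * a * k⁻¹ * (k * b * k⁻¹) = k * (a * b) * k⁻¹ := by group
  rw [this]

theorem face_cnj (hA : ALG_s) {Dt : Type} (nx : Dt → Dt) (g : Dt → G) {z : ℂ} (hz : 0 < z.im)
    (k : G) (d : Dt) : face nx (fun d => k * g d * k⁻¹) (mob k z) d =
      tri (mob k z) (mob k (mob (g d) z)) (mob k (mob (g d * g (nx d)) z)) := by
  unfold face
  rw [mob_cnj hA k _ hz, mob_cnj2 hA k _ _ hz]

theorem en_tp (hA : ALG_s) (hT : TRI_s) (hR : TRA_s) (k : G) (p q r : ℂ) (W : ℂ → Mat)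
    (hp : PosT p q r) (hW : Lip W (tri p q r)) :
    ∫ w in tri (mob k p) (mob k q) (mob k r), ‖dF (tp k 0 W) w‖ ^ 2 =
      ∫ w in tri p q r, ‖dF W w‖ ^ 2 := by
  have h1 := (hR.cv k p q r (fun w => ((‖dF (tp k 0 W) w‖ ^ 2 : ℝ) : ℂ)) hp).1
  obtain ⟨C, hC⟩ := hR.dif p q r W hp hW
  have h2 : (∫ w in tri p q r, ((‖dF (tp k 0 W) (mob k w)‖ ^ 2 : ℝ) : ℂ) /
      (normSq (den k w) ^ 2 : ℝ)) = ∫ w in tri p q r, ((‖dF W w‖ ^ 2 : ℝ) : ℂ) := by
    refine integral_congr_ae ?_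
    filter_upwards [hC, hT.nhd p q r hp] with w h hw
    have him : 0 < w.im := (mem_of_mem_nhds hw).1
    have hd0 : normSq (den k w) ≠ 0 := fun h0 => hA.den_ne k w him.ne' (normSq_eq_zero.1 h0)
    have h3 : ‖dF (tp k 0 W) (mob k w)‖ ^ 2 = normSq (den k w) ^ 2 * ‖dF W w‖ ^ 2 := by
      rw [EuclideanSpace.norm_sq_eq, EuclideanSpace.norm_sq_eq, Finset.mul_sum]
      refine Finset.sum_congr rfl fun j _ => ?_
      rw [hR.df_tp k 0 W w j him h.1, norm_mul, hA.ph_norm k w j him.ne', mul_pow]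
    rw [h3, ← ofReal_div, mul_div_cancel_left₀ _ (pow_ne_zero 2 hd0)]
  rw [h2, integral_complex_ofReal, integral_complex_ofReal] at h1
  exact_mod_cast h1

theorem sub (hA : ALG_s) (hT : TRI_s) (hR : TRA_s) {Dt : Type} [Fintype Dt] (nx rv : Dt → Dt)
    (g : Dt → G) (z : ℂ) (v : Dt → Mat) (k : G) (hz : 0 < z.im)
    (hp : ∀ d, 0 < hd z (mob (g d) z) (mob (g d * g (nx d)) z)) (W : Dt → ℂ → Mat)
    (h : Adm nx rv g z v W) :
    Adm nx rv (fun d => k * g d * k⁻¹) (mob k z) (fun d => Ad k (v d)) (fun d => tp k 0 (W d)) ∧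
      en nx (fun d => k * g d * k⁻¹) (mob k z) (fun d => tp k 0 (W d)) = en nx g z W := by
  have hP : ∀ d, PosT z (mob (g d) z) (mob (g d * g (nx d)) z) := fun d =>
    ⟨hz, hA.mob_pos _ _ hz, hA.mob_pos _ _ hz, hp d⟩
  refine ⟨⟨fun d => ?_, fun d w hw => ?_, fun d w hw => ?_⟩, ?_⟩
  · rw [face_cnj hA nx g hz]
    exact hR.lip_tp k 0 _ _ _ (W d) (hP d) (h.lip d)
  · rw [face_cnj hA nx g hz] at hw
    have him : 0 < w.im := hw.1
    have hu : 0 < (mob k⁻¹ w).im := hA.mob_pos _ _ him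
    rw [← mob_inv' hA k him] at hw
    have hw' := (hT.tri_mob k _ _ _ _ hz (hP (nx d)).2.1 (hP (nx d)).2.2.1 hu).1 hw
    have e1 : mob k⁻¹ (mob (k * g d * k⁻¹) w) = mob (g d) (mob k⁻¹ w) := by
      rw [← hA.mob_mul _ _ _ him.ne', ← hA.mob_mul _ _ _ him.ne']
      have : k⁻¹ * (k * g d * k⁻¹) = g d * k⁻¹ := by group
      rw [this]
    show 0 + Ad k (W d (mob k⁻¹ (mob (k * g d * k⁻¹) w))) =
      Ad k (v d) + Ad (k * g d * k⁻¹) (0 + Ad k (W (nx d) (mob k⁻¹ w)))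
    rw [e1, h.rot d _ hw', zero_add, zero_add, hA.ad_add, ← hA.ad_mul, ← hA.ad_mul,
      inv_mul_cancel_right]
  · have hw0 : w ∈ seg (mob k z) (mob (k * g d * k⁻¹) (mob k z)) := hw
    rw [mob_cnj hA k _ hz] at hw0
    have him : 0 < w.im := hw0.1
    have hu : 0 < (mob k⁻¹ w).im := hA.mob_pos _ _ him
    rw [← mob_inv' hA k him] at hw0
    have hw' := (hT.seg_mob k _ _ _ hz (hP d).2.1 hu).1 hw0
    show 0 + Ad k (W d (mob k⁻¹ w)) = 0 + Ad k (W (nx (rv d)) (mob k⁻¹ w))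
    rw [h.edge d _ hw']
  · unfold en
    refine Finset.sum_congr rfl fun d _ => ?_
    rw [face_cnj hA nx g hz]
    exact en_tp hA hT hR k _ _ _ (W d) (hP d) (h.lip d)

theorem cnj (hA : ALG_s) (hT : TRI_s) (hR : TRA_s) {Dt : Type} [Fintype Dt] (nx rv : Dt → Dt)
    (g : Dt → G) (z : ℂ) (v : Dt → Mat) (k : G) (ho : Ok nx rv g z) :
    Fn nx rv (fun d => k * g d * k⁻¹) (mob k z) (fun d => Ad k (v d)) = Fn nx rv g z v := by
  have hz := ho.im
  unfold Fn
  refine congrArg sInf (Set.ext fun e => ⟨?_, ?_⟩)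
  · rintro ⟨W, h, rfl⟩
    have hp : ∀ d, 0 < hd (mob k z) (mob (k * g d * k⁻¹) (mob k z))
        (mob (k * g d * k⁻¹ * (k * g (nx d) * k⁻¹)) (mob k z)) := by
      intro d
      have h1 := hA.mob_pos (g d) z hz
      have h2 := hA.mob_pos (g d * g (nx d)) z hz
      rw [mob_cnj hA k _ hz, mob_cnj2 hA k _ _ hz, hT.hd_mob k _ _ _ hz.ne' h1.ne' h2.ne']
      exact div_pos (ho.pos d) (mul_pos (mul_pos (normSq_pos.2 (hA.den_ne _ _ hz.ne'))
        (normSq_pos.2 (hA.den_ne _ _ h1.ne'))) (normSq_pos.2 (hA.den_ne _ _ h2.ne')))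
    have := sub hA hT hR nx rv _ _ _ k⁻¹ (hA.mob_pos k z hz) hp W h
    have e1 : (fun d => k⁻¹ * (k * g d * k⁻¹) * k⁻¹⁻¹) = g := by
      funext d
      group
    have e2 : (fun d => Ad k⁻¹ (Ad k (v d))) = v := by
      funext d
      rw [← hA.ad_mul, inv_mul_cancel, hA.ad_one]
    rw [e1, e2, mob_inv hA k hz] at this
    exact ⟨_, this.1, this.2.symm⟩
  · rintro ⟨W, h, rfl⟩
    have := sub hA hT hR nx rv g z v k hz ho.pos W h
    exact ⟨_, this.1, this.2.symm⟩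

end INVx

theorem INV (hA : ALG_s) (hT : TRI_s) (hR : TRA_s) : INV_s :=
  ⟨fun nx rv g z v k ho => INVx.cnj hA hT hR nx rv g z v k ho,
    fun nx rv nx' rv' g g' z v v' σ _ hn hr hg => INVx.iso hA nx rv nx' rv' g g' z v v' σ hn hr hg⟩

end Pool.Agent.MP_596265_gt.Hd

end

section

/-! Block H: an admissible section survives a flip with the same energy. -/

namespace Pool.Agent.MP_596265_gt.Hd

open MeasureTheory Set Complex Filter Topology
open scoped ComplexConjugate Matrix.Norms.Elementwise NNReal InnerProductSpace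

namespace FLIPx

/-- Energy on a set. -/
noncomputable def I (W : ℂ → Mat) (T : Set ℂ) : ℝ := ∫ w in T, ‖dF W w‖ ^ 2

theorem pm_mob (hA : ALG_s) {γ : G} (h : γ = 1 ∨ γ = -1) (w : ℂ) : mob γ w = w := by
  rcases h with rfl | rfl
  · exact hA.mob_one w
  · rw [hA.mob_neg, hA.mob_one]

theorem pm_ad (hA : ALG_s) {γ : G} (h : γ = 1 ∨ γ = -1) (X : Mat) : Ad γ X = X := by
  rcases h with rfl | rfl
  · exact hA.ad_one X
  · rw [hA.ad_neg, hA.ad_one]

theorem inv_mob (hA : ALG_s) (γ : G) {w : ℂ} (hw : 0 < w.im) : mob γ⁻¹ (mob γ w) = w := by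
  rw [← hA.mob_mul _ _ _ hw.ne', inv_mul_cancel, hA.mob_one]

theorem mob_inv (hA : ALG_s) (γ : G) {w : ℂ} (hw : 0 < w.im) : mob γ (mob γ⁻¹ w) = w := by
  rw [← hA.mob_mul _ _ _ hw.ne', mul_inv_cancel, hA.mob_one]

theorem ad_inj (hA : ALG_s) (γ : G) {X Y : Mat} (h : Ad γ X = Ad γ Y) : X = Y := by
  have := congrArg (Ad γ⁻¹) h
  rwa [← hA.ad_mul, ← hA.ad_mul, inv_mul_cancel, hA.ad_one, hA.ad_one] at this

theorem tp_mob (hA : ALG_s) (γ : G) (u : Mat) (Q : ℂ → Mat) {w : ℂ} (hw : 0 < w.im) :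
    tp γ u Q (mob γ w) = u + Ad γ (Q w) := by
  rw [tp, inv_mob hA γ hw]

/-- Composition of transports. -/
theorem tp_comp (hA : ALG_s) {γ γ₁ γ₂ : G} {u u₁ u₂ : Mat} (Q : ℂ → Mat)
    (hm : ∀ w : ℂ, 0 < w.im → mob γ₁ (mob γ₂ w) = mob γ w) (ha : ∀ X, Ad γ₁ (Ad γ₂ X) = Ad γ X)
    (hu : u = u₁ + Ad γ₁ u₂) {w : ℂ} (hw : 0 < w.im) :
    tp γ u Q (mob γ₁ w) = u₁ + Ad γ₁ (tp γ₂ u₂ Q w) := by
  have h1 := hA.mob_pos γ₂⁻¹ w hw
  have h2 : mob γ₁ w = mob γ (mob γ₂⁻¹ w) := by rw [← hm _ h1, mob_inv hA γ₂ hw]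
  rw [h2, tp_mob hA γ u Q h1, tp, hA.ad_add, ha, hu, add_assoc]

theorem lip_congr {W W' : ℂ → Mat} {T : Set ℂ} (h : ∀ w ∈ T, W w = W' w) (hl : Lip W T) :
    Lip W' T := by
  obtain ⟨C, hC⟩ := hl
  refine ⟨C, fun x hx y hy => ?_⟩
  rw [← h x hx, ← h y hy]
  exact hC hx hy

theorem dz_congr {V : Type} [NormedAddCommGroup V] [NormedSpace ℂ V] {f f' : ℂ → V} {w : ℂ}
    (he : f =ᶠ[𝓝 w] f') : dz f w = dz f' w ∧ dzb f w = dzb f' w := by
  unfold dz dzb
  rw [he.fderiv_eq]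
  exact ⟨rfl, rfl⟩

theorem df_congr (hT : TRI_s) {p q r : ℂ} (hp : PosT p q r) {W W' : ℂ → Mat}
    (h : ∀ w ∈ tri p q r, W w = W' w) :
    ∀ᵐ w ∂volume.restrict (tri p q r), dF W w = dF W' w := by
  filter_upwards [hT.nhd p q r hp] with w hw
  have he : W =ᶠ[𝓝 w] W' := Filter.mem_of_superset hw h
  rw [dF, dF, (dz_congr he).1, (dz_congr he).2]

theorem I_congr (hT : TRI_s) {p q r : ℂ} (hp : PosT p q r) {W W' : ℂ → Mat}
    (h : ∀ w ∈ tri p q r, W w = W' w) : I W (tri p q r) = I W' (tri p q r) := by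
  refine integral_congr_ae ?_
  filter_upwards [df_congr hT hp h] with w hw
  rw [hw]

theorem I_tp (hA : ALG_s) (hT : TRI_s) (hR : TRA_s) (γ : G) (u : Mat) {p q r : ℂ} (hp : PosT p q r)
    {Q : ℂ → Mat} (hl : Lip Q (tri p q r)) :
    I (tp γ u Q) (tri (mob γ p) (mob γ q) (mob γ r)) = I Q (tri p q r) := by
  have h1 := (hR.cv γ p q r (fun w => ((‖dF (tp γ u Q) w‖ ^ 2 : ℝ) : ℂ)) hp).1
  obtain ⟨C, hC⟩ := hR.dif p q r Q hp hl
  have h2 : (∫ w in tri p q r, ((‖dF (tp γ u Q) (mob γ w)‖ ^ 2 : ℝ) : ℂ) /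
      (normSq (den γ w) ^ 2 : ℝ)) = ∫ w in tri p q r, ((‖dF Q w‖ ^ 2 : ℝ) : ℂ) := by
    refine integral_congr_ae ?_
    filter_upwards [hC, ae_restrict_mem (hT.cpt p q r hp).measurableSet] with w hw hw'
    have him : 0 < w.im := hw'.1
    have hd : normSq (den γ w) ≠ 0 := by
      rw [Ne, normSq_eq_zero]
      exact hA.den_ne γ w him.ne'
    have h3 : ‖dF (tp γ u Q) (mob γ w)‖ ^ 2 = normSq (den γ w) ^ 2 * ‖dF Q w‖ ^ 2 := by
      rw [EuclideanSpace.norm_sq_eq, EuclideanSpace.norm_sq_eq, Finset.mul_sum]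
      refine Finset.sum_congr rfl fun k _ => ?_
      rw [hR.df_tp γ u Q w k him hw.1, norm_mul, hA.ph_norm γ w k him.ne', mul_pow]
    rw [h3, ← ofReal_div, mul_div_cancel_left₀ _ (pow_ne_zero 2 hd)]
  rw [h2, integral_complex_ofReal, integral_complex_ofReal] at h1
  exact ofReal_injective h1

variable {Dt : Type} [Fintype Dt] {nx rv : Dt → Dt} {g : Dt → G} {z : ℂ}

omit [Fintype Dt] in
theorem pos_face (hA : ALG_s) (h : Ok nx rv g z) (d : Dt) :
    PosT z (mob (g d) z) (mob (g d * g (nx d)) z) :=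
  ⟨h.im, hA.mob_pos _ _ h.im, hA.mob_pos _ _ h.im, h.pos d⟩

omit [Fintype Dt] in
theorem face_rot (hA : ALG_s) (hT : TRI_s) (h : Ok nx rv g z) (d : Dt) :
    face nx g z d = tri (mob (g d) z) (mob (g d) (mob (g (nx d)) z))
      (mob (g d) (mob (g (nx d) * g (nx (nx d))) z)) := by
  rw [← hA.mob_mul _ _ _ h.im.ne', ← hA.mob_mul _ _ _ h.im.ne', ← mul_assoc,
    pm_mob hA (h.gf d), face, hT.tri_rot]

omit [Fintype Dt] in
theorem face_inv (hA : ALG_s) (hT : TRI_s) (h : Ok nx rv g z) (d : Dt) {w : ℂ}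
    (hw : w ∈ face nx g z d) : mob (g d)⁻¹ w ∈ face nx g z (nx d) := by
  have hp := pos_face hA h (nx d)
  have him : 0 < w.im := hw.1
  rw [face, ← hT.tri_mob (g d) _ _ _ _ hp.1 hp.2.1 hp.2.2.1 (hA.mob_pos _ _ him),
    mob_inv hA _ him, ← face_rot hA hT h d]
  exact hw

omit [Fintype Dt] in
/-- Transport around a face. -/
theorem rot_step (hA : ALG_s) (hT : TRI_s) (hR : TRA_s) (h : Ok nx rv g z) (d : Dt) {u : Mat}
    {W₁ W₂ : ℂ → Mat} (hr : ∀ w ∈ face nx g z (nx d), W₁ (mob (g d) w) = u + Ad (g d) (W₂ w))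
    (hl : Lip W₂ (face nx g z (nx d))) :
    Lip W₁ (face nx g z d) ∧ I W₁ (face nx g z d) = I W₂ (face nx g z (nx d)) := by
  have hp := pos_face hA h (nx d)
  have he : ∀ w ∈ face nx g z d, tp (g d) u W₂ w = W₁ w := by
    intro w hw
    rw [tp, ← hr _ (face_inv hA hT h d hw), mob_inv hA _ hw.1]
  constructor
  · refine lip_congr he ?_
    rw [face_rot hA hT h d]
    exact hR.lip_tp _ _ _ _ _ _ hp hl
  · have := I_tp hA hT hR (g d) u hp hl
    rw [← face_rot hA hT h d] at this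
    exact (I_congr hT (pos_face hA h d) he).symm.trans this

theorem I_union (hT : TRI_s) (hR : TRA_s) {p q r p' q' r' x y : ℂ} {Q : ℂ → Mat} (hp : PosT p q r)
    (hp' : PosT p' q' r') (hl : Lip Q (tri p q r)) (hl' : Lip Q (tri p' q' r'))
    (hi : ∀ w ∈ tri p q r ∩ tri p' q' r', hd x y w = 0) (hxy : x ≠ y) (hx : 0 < x.im)
    (hy : 0 < y.im) : I Q (tri p q r ∪ tri p' q' r') = I Q (tri p q r) + I Q (tri p' q' r') := by
  refine setIntegral_union₀ ?_ (hT.cpt _ _ _ hp').measurableSet.nullMeasurableSet ?_ ?_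
  · exact measure_mono_null hi (hT.null x y hxy hx hy)
  · exact (memLp_two_iff_integrable_sq_norm (hR.mem _ _ _ _ hp hl).1).1 (hR.mem _ _ _ _ hp hl)
  · exact (memLp_two_iff_integrable_sq_norm (hR.mem _ _ _ _ hp' hl').1).1 (hR.mem _ _ _ _ hp' hl')

theorem ne_of_pos {p q r : ℂ} (h : PosT p q r) : p ≠ q := by
  rintro rfl
  have := h.2.2.2
  simp [hd] at this

theorem pos_rot {p q r : ℂ} (h : PosT p q r) : PosT q r p := by
  refine ⟨h.2.1, h.2.2.1, h.1, ?_⟩
  have := h.2.2.2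
  simp only [hd] at this ⊢
  linarith

/-- Gluing on a convex quadrilateral. -/
theorem quad (hT : TRI_s) (hR : TRA_s) (hG : GLUE_s) {p s q r : ℂ} (h1 : PosT p s q)
    (h2 : PosT p q r) (h3 : PosT p s r) (h4 : PosT s q r) {W₁ W₂ : ℂ → Mat}
    (l1 : Lip W₁ (tri p s q)) (l2 : Lip W₂ (tri p q r)) (he : ∀ w ∈ seg p q, W₂ w = W₁ w) :
    ∃ Q : ℂ → Mat, (∀ w ∈ tri p s q, W₁ w = Q w) ∧ (∀ w ∈ tri p q r, W₂ w = Q w) ∧
      Lip Q (tri p s r) ∧ Lip Q (tri s q r) ∧
      I Q (tri p s r) + I Q (tri s q r) = I W₁ (tri p s q) + I W₂ (tri p q r) := by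
  classical
  obtain ⟨hu, hi, hi'⟩ := hG.quad p s q r h1 h2 h3 h4
  let Q : ℂ → Mat := fun w => if w ∈ tri p q r then W₂ w else W₁ w
  have e2 : ∀ w ∈ tri p q r, W₂ w = Q w := fun w hw => by simp only [Q, if_pos hw]
  have e1 : ∀ w ∈ tri p s q, W₁ w = Q w := fun w hw => by
    by_cases hw' : w ∈ tri p q r
    · rw [← e2 w hw', he w (hi ▸ ⟨hw, hw'⟩)]
    · simp only [Q, if_neg hw']
  have q1 := lip_congr e1 l1
  have q2 := lip_congr e2 l2
  have gl : ∀ {a b c : ℂ}, PosT a b c → tri a b c ⊆ tri p s q ∪ tri p q r → Lip Q (tri a b c) := by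
    intro a b c hp hs
    refine hG.gl a b c (fun i : Bool => cond i (tri p s q) (tri p q r)) Q hp ?_ ?_ ?_
    · rintro (_ | _)
      · exact (hT.cpt _ _ _ h2).isClosed
      · exact (hT.cpt _ _ _ h1).isClosed
    · intro w hw
      rcases hs hw with h | h
      · exact mem_iUnion.2 ⟨true, h⟩
      · exact mem_iUnion.2 ⟨false, h⟩
    · rintro (_ | _)
      · exact q2
      · exact q1
  have q3 : Lip Q (tri p s r) := gl h3 (hu ▸ subset_union_left)
  have q4 : Lip Q (tri s q r) := gl h4 (hu ▸ subset_union_right)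
  refine ⟨Q, e1, e2, q3, q4, ?_⟩
  rw [I_congr hT h1 e1, I_congr hT h2 e2,
    ← I_union hT hR h1 h2 q1 q2 (x := p) (y := q) (fun w hw =>
      (hT.seg_iff p q r w h2 hw.2).1 (hi ▸ hw)) (ne_of_pos h2) h2.1 h2.2.1, hu,
    I_union hT hR h3 h4 q3 q4 (x := s) (y := r) (fun w hw =>
      (hT.seg_iff s r p w (pos_rot h3) (hT.tri_rot p s r ▸ hw.1)).1 (hi' ▸ hw))
      (ne_of_pos (pos_rot h3)) h3.2.1 h3.2.2.1]

omit [Fintype Dt] in
/-- The two first sides of a face compose to the reverse of the third one. -/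
theorem side (hA : ALG_s) {v : Dt → Mat} (h : Flat nx rv g) (hc : Coc nx rv g v) (d : Dt) :
    (∀ w : ℂ, 0 < w.im → mob (g d) (mob (g (nx d)) w) = mob (g (rv (nx (nx d)))) w) ∧
      (∀ X, Ad (g d) (Ad (g (nx d)) X) = Ad (g (rv (nx (nx d)))) X) ∧
      v (rv (nx (nx d))) = v d + Ad (g d) (v (nx d)) := by
  have ha : ∀ X, Ad (g d) (Ad (g (nx d)) X) = Ad (g (rv (nx (nx d)))) X := by
    intro X
    have h1 := pm_ad hA (h.gf d) (Ad (g (rv (nx (nx d)))) X)
    rw [hA.ad_mul, hA.ad_mul, ← hA.ad_mul (g (nx (nx d))), pm_ad hA (h.gr _)] at h1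
    exact h1
  refine ⟨fun w hw => ?_, ha, ?_⟩
  · have h0 := hA.mob_pos (g (rv (nx (nx d)))) w hw
    have h1 := pm_mob hA (h.gf d) (mob (g (rv (nx (nx d)))) w)
    rw [hA.mob_mul _ _ _ h0.ne', ← hA.mob_mul (g (nx (nx d))) _ _ hw.ne', pm_mob hA (h.gr _),
      hA.mob_mul _ _ _ hw.ne'] at h1
    exact h1
  · have h1 := hc.f d
    have h2 := hc.r (rv (nx (nx d)))
    rw [h.r2] at h2
    rw [hA.ad_add, ha, ← add_assoc] at h1
    exact add_right_cancel (h2.trans h1.symm)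

omit [Fintype Dt] in
theorem back (hA : ALG_s) {v : Dt → Mat} (h : Flat nx rv g) (hc : Coc nx rv g v) (d : Dt) :
    (∀ w : ℂ, 0 < w.im → mob (g d) (mob (g (rv d)) w) = mob 1 w) ∧
      (∀ X, Ad (g d) (Ad (g (rv d)) X) = Ad 1 X) ∧ 0 = v d + Ad (g d) (v (rv d)) :=
  ⟨fun w hw => by rw [← hA.mob_mul _ _ _ hw.ne', pm_mob hA (h.gr d), hA.mob_one],
    fun X => by rw [← hA.ad_mul, pm_ad hA (h.gr d), hA.ad_one], (hc.r d).symm⟩

omit [Fintype Dt] in
/-- The third side of a face. -/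
theorem seg_third (hA : ALG_s) (hT : TRI_s) (h : Ok nx rv g z) (d : Dt) {w : ℂ}
    (hw : w ∈ seg z (mob (g d) z)) :
    w ∈ face nx g z (nx (rv d)) ∧ mob (g (rv d)) w ∈ seg z (mob (g (rv d)) z) := by
  have hm : mob (g (rv d)) (mob (g d) z) = z := by
    have := h.gr (rv d)
    rw [h.r2] at this
    rw [← hA.mob_mul _ _ _ h.im.ne', pm_mob hA this]
  have h2 : mob (g (rv d)) w ∈ seg z (mob (g (rv d)) z) := by
    have := (hT.seg_mob (g (rv d)) _ _ w h.im (hA.mob_pos (g d) z h.im) hw.1).2 hw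
    rwa [hm, hT.seg_symm] at this
  refine ⟨?_, h2⟩
  have := face_inv hA hT h (rv d) (hT.seg_sub _ _ _ (pos_face hA h (rv d)) h2)
  rwa [inv_mob hA _ hw.1] at this

theorem sum_six (F F' : Dt → ℝ) {a b c d e f : Dt} (hab : a ≠ b) (hac : a ≠ c) (had : a ≠ d)
    (hae : a ≠ e) (haf : a ≠ f) (hbc : b ≠ c) (hbd : b ≠ d) (hbe : b ≠ e) (hbf : b ≠ f)
    (hcd : c ≠ d) (hce : c ≠ e) (hcf : c ≠ f) (hde : d ≠ e) (hdf : d ≠ f) (hef : e ≠ f)
    (ho : ∀ x, x ≠ a → x ≠ b → x ≠ c → x ≠ d → x ≠ e → x ≠ f → F' x = F x)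
    (hs : F' a + F' b + F' c + F' d + F' e + F' f = F a + F b + F c + F d + F e + F f) :
    ∑ x, F' x = ∑ x, F x := by
  classical
  rw [← Finset.sum_add_sum_compl {a, b, c, d, e, f} F',
    ← Finset.sum_add_sum_compl {a, b, c, d, e, f} F]
  congr 1
  · simp only [Finset.sum_insert, Finset.mem_insert, Finset.mem_singleton, Finset.sum_singleton,
      hab, hac, had, hae, haf, hbc, hbd, hbe, hbf, hcd, hce, hcf, hde, hdf, hef, or_self,
      not_false_eq_true]
    linarith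
  · refine Finset.sum_congr rfl fun x hx => ?_
    simp only [Finset.mem_compl, Finset.mem_insert, Finset.mem_singleton, not_or] at hx
    exact ho x hx.1 hx.2.1 hx.2.2.1 hx.2.2.2.1 hx.2.2.2.2.1 hx.2.2.2.2.2

end FLIPx

open FLIPx in
theorem FLIP (hA : ALG_s) (hT : TRI_s) (hR : TRA_s) (hG : GLUE_s) : FLIP_s := by
  classical
  intro Dt _ nx nx' rv g g' z v v' e ho ho' hF hc hc' hs W hW
  have hz := ho.im
  have inj : ∀ {x y}, nx x = nx y → x = y := fun {x y} h => by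
    rw [← ho.n3 x, h, ho.n3]
  have rinj : ∀ {x y}, rv x = rv y → x = y := fun {x y} h => by
    rw [← ho.r2 x, h, ho.r2]
  obtain ⟨hfe, hfa, hfb⟩ := hF.sep
  have n2 : ∀ x, nx (nx x) ≠ x := fun x h => hF.ne x (by
    have := congrArg nx h
    rw [ho.n3] at this
    exact this.symm)
  obtain ⟨a, ha⟩ : ∃ a, a = nx e := ⟨_, rfl⟩
  obtain ⟨b, hb⟩ : ∃ b, b = nx a := ⟨_, rfl⟩
  obtain ⟨f, hf⟩ : ∃ f, f = rv e := ⟨_, rfl⟩
  obtain ⟨c, hc0⟩ : ∃ c, c = nx f := ⟨_, rfl⟩
  obtain ⟨h, hh⟩ : ∃ h, h = nx c := ⟨_, rfl⟩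
  have e1 := hF.e1
  have e2 := hF.e2
  have e3 := hF.e3
  have e4 := hF.e4
  have e5 := hF.e5
  have e6 := hF.e6
  have eo := hF.out
  simp only [← ha, ← hb, ← hf, ← hc0, ← hh] at e1 e2 e3 e4 e5 e6 eo hfe hfa hfb hs
  have nb : nx b = e := by rw [hb, ha, ho.n3]
  have nh : nx h = f := by rw [hh, hc0, ho.n3]
  have rf : rv f = e := by rw [hf, ho.r2]
  have hae : a ≠ e := ha ▸ hF.ne e
  have hbe : b ≠ e := by rw [hb, ha]; exact n2 e
  have hba : b ≠ a := hb ▸ hF.ne a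
  have hcf : c ≠ f := hc0 ▸ hF.ne f
  have hhf : h ≠ f := by rw [hh, hc0]; exact n2 f
  have hhc : h ≠ c := hh ▸ hF.ne c
  have hce : c ≠ e := fun k => hfb (inj (by rw [← hc0, nb, k]))
  have hca : c ≠ a := fun k => hfe (inj (by rw [← hc0, ← ha, k]))
  have hcb : c ≠ b := fun k => hfa (inj (by rw [← hc0, ← hb, k]))
  have hhe : h ≠ e := fun k => hcb (inj (by rw [← hh, nb, k]))
  have hha : h ≠ a := fun k => hce (inj (by rw [← hh, ← ha, k]))
  have hhb : h ≠ b := fun k => hca (inj (by rw [← hh, ← hb, k]))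
  have rne : ∀ x, x ≠ e → x ≠ f → rv x ≠ e ∧ rv x ≠ f := fun x h1 h2 =>
    ⟨fun k => h2 (rinj (by rw [k, rf])), fun k => h1 (rinj (by rw [k, hf]))⟩
  obtain ⟨ga, va⟩ := hs a hae hfa.symm
  obtain ⟨gb, vb⟩ := hs b hbe hfb.symm
  obtain ⟨gc, vc⟩ := hs c hce hcf
  obtain ⟨gh, vh⟩ := hs h hhe hhf
  obtain ⟨gcr, vcr⟩ := hs (rv c) (rne c hce hcf).1 (rne c hce hcf).2
  obtain ⟨gbr, -⟩ := hs (rv b) (rne b hbe hfb.symm).1 (rne b hbe hfb.symm).2
  -- relations in the old and in the new faces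
  have se := side hA ho.toFlat hc e
  have sa := side hA ho.toFlat hc a
  have sc := side hA ho.toFlat hc c
  have sh' := side hA ho.toFlat hc h
  have se' := side hA ho'.toFlat hc' e
  have sc' := side hA ho'.toFlat hc' c
  have bc := back hA ho.toFlat hc c
  have bf' := back hA ho'.toFlat hc' f
  simp only [← ha, ← hb, ← hf, ← hc0, ← hh, nb, nh, rf] at se sa sc sh'
  simp only [e1, e2, e3, gb, gc, gcr, gbr, vb, vc, vcr, rf] at se' sc' bf'
  have mm : ∀ x y : G, mob (x * y) z = mob x (mob y z) := fun x y => hA.mob_mul _ _ _ hz.ne'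
  have fe : face nx g z e = tri z (mob (g e) z) (mob (g (rv b)) z) := by
    rw [face, mm, ← ha, se.1 z hz]
  have fc : face nx g z c = tri z (mob (g c) z) (mob (g e) z) := by
    rw [face, mm, ← hh, sc.1 z hz]
  have fc' : face nx' g' z c = tri z (mob (g c) z) (mob (g (rv b)) z) := by
    rw [face, mm, e3, gc, sc'.1 z hz]
  have pe : PosT z (mob (g e) z) (mob (g (rv b)) z) := by
    have := pos_face hA ho e
    rwa [mm, ← ha, se.1 z hz] at this
  have pc : PosT z (mob (g c) z) (mob (g e) z) := by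
    have := pos_face hA ho c
    rwa [mm, ← hh, sc.1 z hz] at this
  have pc' : PosT z (mob (g c) z) (mob (g (rv b)) z) := by
    have := pos_face hA ho' c
    rwa [mm, e3, gc, sc'.1 z hz] at this
  have rc : ∀ w : ℂ, 0 < w.im → mob (g (rv c)) (mob (g c) w) = w := fun w hw => by
    have := (back hA ho.toFlat hc (rv c)).1 w hw
    rwa [ho.r2, hA.mob_one] at this
  have k1 : mob (g c) (mob (g h) (mob (g a) z)) = mob (g (rv b)) z := by
    rw [sc.1 _ (hA.mob_pos _ _ hz), se.1 z hz]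
  have fh' : face nx' g' z h = tri (mob (g (rv c)) (mob (g c) z)) (mob (g (rv c)) (mob (g e) z))
      (mob (g (rv c)) (mob (g (rv b)) z)) := by
    rw [face, mm, e5, gh, ga, ← k1, ← sc.1 z hz, rc _ hz, rc _ (hA.mob_pos _ _ hz),
      rc _ (hA.mob_pos _ _ (hA.mob_pos _ _ hz))]
  have ph' : PosT (mob (g c) z) (mob (g e) z) (mob (g (rv b)) z) := by
    have h0 := pos_face hA ho' h
    rw [mm, e5, gh, ga] at h0
    refine ⟨hA.mob_pos _ _ hz, hA.mob_pos _ _ hz, hA.mob_pos _ _ hz, ?_⟩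
    rw [← k1, ← sc.1 z hz, hT.hd_mob _ _ _ _ h0.1.ne' h0.2.1.ne' h0.2.2.1.ne']
    have d1 := normSq_pos.2 (hA.den_ne (g c) _ h0.1.ne')
    have d2 := normSq_pos.2 (hA.den_ne (g c) _ h0.2.1.ne')
    have d3 := normSq_pos.2 (hA.den_ne (g c) _ h0.2.2.1.ne')
    exact div_pos h0.2.2.2 (mul_pos (mul_pos d1 d2) d3)
  obtain ⟨Q, q1, q2, q3, q4, qI⟩ := quad hT hR hG pc pe pc' ph' (W₁ := W c) (W₂ := W e)
    (fc ▸ hW.lip c) (fe ▸ hW.lip e) (fun w hw => by rw [hW.edge e w hw, ← hf, ← hc0])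
  rw [← fc] at q1 qI
  rw [← fe] at q2 qI
  have t1 : ∀ w : ℂ, tp 1 0 Q w = Q w := fun w => by
    rw [tp, inv_one, hA.mob_one, hA.ad_one, zero_add]
  -- the old section in terms of `Q`
  have old : ∀ {d : Dt} {K K' : ℂ → Mat}, (∀ w ∈ face nx g z (nx d), W (nx d) w = K w) →
      (∀ w : ℂ, 0 < w.im → K' (mob (g d) w) = v d + Ad (g d) (K w)) →
      ∀ w ∈ face nx g z d, W d w = K' w := by
    intro d K K' h1 h2 w hw
    have h3 := face_inv hA hT ho d hw
    rw [← mob_inv hA (g d) hw.1, hW.rot d _ h3, h2 _ h3.1, h1 _ h3]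
  have ra : ∀ w : ℂ, 0 < w.im →
      tp (g f) (v f) Q (mob (g a) w) = v a + Ad (g a) (tp (g b) (v b) Q w) :=
    fun w hw => tp_comp hA Q sa.1 sa.2.1 sa.2.2 hw
  have rh : ∀ w : ℂ, 0 < w.im →
      tp (g (rv c)) (v (rv c)) Q (mob (g h) w) = v h + Ad (g h) (tp (g f) (v f) Q w) :=
    fun w hw => tp_comp hA Q sh'.1 sh'.2.1 sh'.2.2 hw
  have ob : ∀ w ∈ face nx g z b, W b w = tp (g b) (v b) Q w :=
    old (nb.symm ▸ q2) fun w hw => tp_mob hA _ _ _ hw
  have oa : ∀ w ∈ face nx g z a, W a w = tp (g f) (v f) Q w := old (hb ▸ ob) ra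
  have of : ∀ w ∈ face nx g z f, W f w = tp (g f) (v f) Q w :=
    old (hc0 ▸ q1) fun w hw => tp_mob hA _ _ _ hw
  have oh : ∀ w ∈ face nx g z h, W h w = tp (g (rv c)) (v (rv c)) Q w := old (nh.symm ▸ of) rh
  -- the new section
  obtain ⟨W', wc, wb, wf, we, wh, wa, wo⟩ : ∃ W' : Dt → ℂ → Mat, W' c = Q ∧
      W' b = tp (g b) (v b) Q ∧ W' f = tp (g b) (v b) Q ∧ W' e = tp (g (rv c)) (v (rv c)) Q ∧
      W' h = tp (g (rv c)) (v (rv c)) Q ∧ W' a = tp (g f) (v f) Q ∧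
      ∀ x, x ≠ e → x ≠ a → x ≠ b → x ≠ f → x ≠ c → x ≠ h → W' x = W x := by
    refine ⟨fun x => if x = c then Q else if x = b ∨ x = f then tp (g b) (v b) Q else
      if x = e ∨ x = h then tp (g (rv c)) (v (rv c)) Q else if x = a then tp (g f) (v f) Q else W x,
      ?_, ?_, ?_, ?_, ?_, ?_, ?_⟩
    · simp
    · simp [hcb.symm]
    · simp [hcf.symm]
    · simp [hce.symm, hbe.symm, hfe.symm]
    · simp [hhc, hhb, hhf]
    · simp [hca.symm, hba.symm, hfa.symm, hae, hha.symm]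
    · intro x h1 h2 h3 h4 h5 h6
      simp [h1, h2, h3, h4, h5, h6]
  have rot_a : ∀ w : ℂ, 0 < w.im → W' a (mob (g' a) w) = v' a + Ad (g' a) (W' (nx' a) w) := by
    intro w hw
    rw [e6, wa, wf, ga, va]
    exact ra w hw
  have rot_b : ∀ w : ℂ, 0 < w.im → W' b (mob (g' b) w) = v' b + Ad (g' b) (W' (nx' b) w) := by
    intro w hw
    rw [e2, wb, wc, gb, vb]
    exact tp_mob hA _ _ _ hw
  have rot_c : ∀ w : ℂ, 0 < w.im → W' c (mob (g' c) w) = v' c + Ad (g' c) (W' (nx' c) w) := by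
    intro w hw
    rw [e3, wc, we, gc, vc, ← t1]
    exact tp_comp hA Q bc.1 bc.2.1 bc.2.2 hw
  have rot_h : ∀ w : ℂ, 0 < w.im → W' h (mob (g' h) w) = v' h + Ad (g' h) (W' (nx' h) w) := by
    intro w hw
    rw [e5, wh, wa, gh, vh]
    exact rh w hw
  have rot_e : ∀ w : ℂ, 0 < w.im → W' e (mob (g' e) w) = v' e + Ad (g' e) (W' (nx' e) w) := by
    intro w hw
    rw [e1, we, wb]
    exact tp_comp hA Q se'.1 se'.2.1 se'.2.2 hw
  have rot_f : ∀ w : ℂ, 0 < w.im → W' f (mob (g' f) w) = v' f + Ad (g' f) (W' (nx' f) w) := by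
    intro w hw
    rw [e4, wf, wh]
    refine tp_comp hA Q (fun w hw => ?_) (fun X => ?_) ?_ hw
    · rw [← se'.1 w hw, bf'.1 _ (hA.mob_pos _ _ hw), hA.mob_one]
    · rw [← se'.2.1 X, bf'.2.1, hA.ad_one]
    · rw [se'.2.2, hA.ad_add, bf'.2.1, hA.ad_one, ← add_assoc, ← bf'.2.2, zero_add]
  have six : ∀ x, x = e ∨ x = a ∨ x = b ∨ x = f ∨ x = c ∨ x = h ∨
      (x ≠ e ∧ x ≠ a ∧ x ≠ b ∧ x ≠ f ∧ x ≠ c ∧ x ≠ h) := fun x => by
    by_cases h1 : x = e
    · exact .inl h1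
    by_cases h2 : x = a
    · exact .inr (.inl h2)
    by_cases h3 : x = b
    · exact .inr (.inr (.inl h3))
    by_cases h4 : x = f
    · exact .inr (.inr (.inr (.inl h4)))
    by_cases h5 : x = c
    · exact .inr (.inr (.inr (.inr (.inl h5))))
    by_cases h6 : x = h
    · exact .inr (.inr (.inr (.inr (.inr (.inl h6)))))
    exact .inr (.inr (.inr (.inr (.inr (.inr ⟨h1, h2, h3, h4, h5, h6⟩)))))
  have nxo : ∀ x, (x ≠ e ∧ x ≠ a ∧ x ≠ b ∧ x ≠ f ∧ x ≠ c ∧ x ≠ h) →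
      (nx x ≠ e ∧ nx x ≠ a ∧ nx x ≠ b ∧ nx x ≠ f ∧ nx x ≠ c ∧ nx x ≠ h) := by
    rintro x ⟨h1, h2, h3, h4, h5, h6⟩
    exact ⟨fun k => h3 (inj (k.trans nb.symm)), fun k => h1 (inj (k.trans ha)),
      fun k => h2 (inj (k.trans hb)), fun k => h6 (inj (k.trans nh.symm)),
      fun k => h4 (inj (k.trans hc0)), fun k => h5 (inj (k.trans hh))⟩
  have fo : ∀ x, (x ≠ e ∧ x ≠ a ∧ x ≠ b ∧ x ≠ f ∧ x ≠ c ∧ x ≠ h) →
      face nx' g' z x = face nx g z x ∧ W' x = W x := by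
    intro x hx
    have hn := nxo x hx
    obtain ⟨h1, h2, h3, h4, h5, h6⟩ := hx
    exact ⟨by rw [face, face, eo x h1 h2 h3 h4 h5 h6, (hs x h1 h4).1, (hs _ hn.1 hn.2.2.2.1).1],
      wo x h1 h2 h3 h4 h5 h6⟩
  have rot : ∀ d, ∀ w ∈ face nx' g' z (nx' d),
      W' d (mob (g' d) w) = v' d + Ad (g' d) (W' (nx' d) w) := by
    intro d w hw
    rcases six d with rfl | rfl | rfl | rfl | rfl | rfl | hd
    · exact rot_e w hw.1
    · exact rot_a w hw.1
    · exact rot_b w hw.1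
    · exact rot_f w hw.1
    · exact rot_c w hw.1
    · exact rot_h w hw.1
    · have hn := fo _ (nxo d hd)
      have hd' := fo _ hd
      obtain ⟨h1, h2, h3, h4, h5, h6⟩ := hd
      rw [eo d h1 h2 h3 h4 h5 h6] at hw ⊢
      rw [hn.1] at hw
      rw [hn.2, hd'.2, (hs d h1 h4).1, (hs d h1 h4).2]
      exact hW.rot d w hw
  have step := fun d => rot_step hA hT hR ho' d (rot d)
  have lc : Lip (W' c) (face nx' g' z c) := by rw [wc, fc']; exact q3
  have lh : Lip (W' h) (face nx' g' z h) := by rw [wh, fh']; exact hR.lip_tp _ _ _ _ _ _ ph' q4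
  have ic : I (W' c) (face nx' g' z c) = I Q (tri z (mob (g c) z) (mob (g (rv b)) z)) := by
    rw [wc, fc']
  have ih : I (W' h) (face nx' g' z h) =
      I Q (tri (mob (g c) z) (mob (g e) z) (mob (g (rv b)) z)) := by
    rw [wh, fh']
    exact I_tp hA hT hR _ _ ph' q4
  obtain ⟨lb, ib⟩ := step b (e2.symm ▸ lc)
  obtain ⟨le, ie⟩ := step e (e1.symm ▸ lb)
  obtain ⟨lf, if'⟩ := step f (e4.symm ▸ lh)
  obtain ⟨la, ia⟩ := step a (e6.symm ▸ lf)
  rw [e2] at ib
  rw [e1] at ie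
  rw [e4] at if'
  rw [e6] at ia
  have left : ∀ d, d ≠ e → d ≠ f → ∀ w ∈ seg z (mob (g d) z), W' d w = W d w := by
    intro d h1 h2 w hw
    have hw' : w ∈ face nx g z d := hT.seg_sub _ _ _ (pos_face hA ho d) hw
    rcases six d with rfl | rfl | rfl | rfl | rfl | rfl | hd
    · exact absurd rfl h1
    · rw [wa, oa w hw']
    · rw [wb, ob w hw']
    · exact absurd rfl h2
    · rw [wc, q1 w hw']
    · rw [wh, oh w hw']
    · rw [(fo d hd).2]
  refine ⟨W', ⟨fun d => ?_, rot, fun d w hw => ?_⟩, ?_⟩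
  · rcases six d with rfl | rfl | rfl | rfl | rfl | rfl | hd
    · exact le
    · exact la
    · exact lb
    · exact lf
    · exact lc
    · exact lh
    · rw [(fo d hd).1, (fo d hd).2]
      exact hW.lip d
  · by_cases h1 : d = e
    · rw [h1, ← hf, e4, we, wh]
    by_cases h2 : d = f
    · rw [h2, rf, e1, wf, wb]
    obtain ⟨h3, h4⟩ := rne d h1 h2
    have t' := seg_third hA hT ho' d hw
    rw [(hs d h1 h2).1] at hw
    have t := seg_third hA hT ho d hw
    have k' := rot (rv d) w t'.1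
    rw [(hs _ h3 h4).1, (hs _ h3 h4).2, left _ h3 h4 _ t.2, hW.rot (rv d) w t.1] at k'
    rw [left d h1 h2 w hw, hW.edge d w hw]
    exact ad_inj hA _ (add_left_cancel k')
  · have stepo := fun d => (rot_step hA hT hR ho d (hW.rot d) (hW.lip _)).2
    have jb := stepo b
    have ja := stepo a
    have jf := stepo f
    have jh := stepo h
    rw [nb] at jb
    rw [← hb] at ja
    rw [← hc0] at jf
    rw [nh] at jh
    refine sum_six (fun d => I (W d) (face nx g z d)) (fun d => I (W' d) (face nx' g' z d))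
      hae.symm hbe.symm hfe.symm hce.symm hhe.symm hba.symm hfa.symm hca.symm hha.symm hfb.symm
      hcb.symm hhb.symm hcf.symm hhf.symm hhc.symm (fun x h1 h2 h3 h4 h5 h6 => ?_) ?_
    · rw [(fo x ⟨h1, h2, h3, h4, h5, h6⟩).1, (fo x ⟨h1, h2, h3, h4, h5, h6⟩).2]
    · linarith

end Pool.Agent.MP_596265_gt.Hd

end

section

namespace Pool.Agent.MP_596265_gt.Hd

open MeasureTheory Set Complex Filter Topology
open scoped ComplexConjugate Matrix.Norms.Elementwise NNReal InnerProductSpace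

namespace FLIPQx

variable {Dt : Type} {nx nx' rv : Dt → Dt} {e : Dt}

lemma flp [DecidableEq Dt] (n3 : ∀ d, nx (nx (nx d)) = d) (F : Flp nx nx' rv e) :
    Flp nx' (fun d => Equiv.swap e (rv e) (nx (Equiv.swap e (rv e) d))) rv e := by
  have inj : Function.Injective nx := fun x y h => by rw [← n3 x, h, n3]
  have n2 : ∀ x, nx (nx x) ≠ x := fun x h => F.ne x (by have := n3 x; rwa [h] at this)
  obtain ⟨s1, s2, s3⟩ := F.sep
  have ce : nx (rv e) ≠ e := fun h => s3 (by rw [← n3 (rv e), h])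
  have he : nx (nx (rv e)) ≠ e := fun h => s2 (by rw [← n3 (rv e), h])
  have sa := Equiv.swap_apply_of_ne_of_ne (F.ne e) s2.symm
  have sb := Equiv.swap_apply_of_ne_of_ne (n2 e) s3.symm
  have sc := Equiv.swap_apply_of_ne_of_ne ce (F.ne (rv e))
  have sh := Equiv.swap_apply_of_ne_of_ne he (n2 (rv e))
  refine ⟨?_, ?_, ?_, ?_, ?_, ?_, fun x h1 h2 h3 h4 h5 h6 => ?_, ⟨s1, ?_, ?_⟩, fun x => ?_⟩
  · rw [Equiv.swap_apply_left, sc, F.e1, F.e2]
  · rw [F.e1, F.e2, F.e4, sc, sh]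
  · rw [F.e4, sh, n3, Equiv.swap_apply_right]
  · rw [Equiv.swap_apply_right, sa, F.e4, F.e5]
  · rw [F.e4, F.e5, F.e1, sa, sb]
  · rw [F.e1, sb, n3, Equiv.swap_apply_left]
  · rw [F.e1] at h2; rw [F.e1, F.e2] at h3; rw [F.e4] at h5; rw [F.e4, F.e5] at h6
    rw [F.out x h1 h6 h2 h4 h3 h5, Equiv.swap_apply_of_ne_of_ne h1 h4,
      Equiv.swap_apply_of_ne_of_ne (fun h => h2 (by rw [← n3 x, h]))
        fun h => h5 (by rw [← n3 x, h])]
  · rw [F.e1]; exact s3
  · rw [F.e1, F.e2]; exact (F.ne _).symm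
  · by_cases h1 : x = e
    · rw [h1, F.e1]; exact n2 e
    by_cases h2 : x = nx e
    · rw [h2, F.e6]; exact s2
    by_cases h3 : x = nx (nx e)
    · rw [h3, F.e2]; exact fun h => s2 (inj h)
    by_cases h4 : x = rv e
    · rw [h4, F.e4]; exact n2 _
    by_cases h5 : x = nx (rv e)
    · rw [h5, F.e3]; exact ce.symm
    by_cases h6 : x = nx (nx (rv e))
    · rw [h6, F.e5]; exact fun h => ce (inj h).symm
    rw [F.out x h1 h2 h3 h4 h5 h6]; exact F.ne x

lemma swap_rv [DecidableEq Dt] (r2 : ∀ d, rv (rv d) = d) (d : Dt) :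
    Equiv.swap e (rv e) (rv d) = rv (Equiv.swap e (rv e) d) := by
  by_cases h1 : d = e
  · rw [h1, Equiv.swap_apply_right, Equiv.swap_apply_left, r2]
  by_cases h2 : d = rv e
  · rw [h2, r2, Equiv.swap_apply_right, Equiv.swap_apply_left]
  rw [Equiv.swap_apply_of_ne_of_ne h1 h2, Equiv.swap_apply_of_ne_of_ne
    (fun h => h2 (by rw [← h, r2])) fun h => h1 (by rw [← r2 d, h, r2])]

end FLIPQx

theorem FLIPQ (_hI : INV_s) (hF : FLIP_s) : FLIPQ_s := by
  intro Dt _ nx nx' rv g g' z v v' e ok ok' F co co' h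
  classical
  have F' := FLIPQx.flp ok.n3 F
  have hr := FLIPQx.swap_rv (e := e) ok.r2
  have hτ := Equiv.swap_apply_self e (rv e)
  have hx : ∀ x, x ≠ e → x ≠ rv e → Equiv.swap e (rv e) x = x := fun x =>
    Equiv.swap_apply_of_ne_of_ne
  generalize Equiv.swap e (rv e) = τ at F' hr hτ hx
  have ok2 : Ok (fun d => τ (nx (τ d))) rv (fun d => g (τ d)) z :=
    { n3 := fun d => by simp only [hτ, ok.n3]
      r2 := ok.r2
      gr := fun d => by simp only [hr]; exact ok.gr _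
      gf := fun d => by simp only [hτ]; exact ok.gf _
      im := ok.im
      pos := fun d => by simp only [hτ]; exact ok.pos _ }
  have co2 : Coc (fun d => τ (nx (τ d))) rv (fun d => g (τ d)) fun d => v (τ d) :=
    ⟨fun d => by simp only [hr]; exact co.r _, fun d => by simp only [hτ]; exact co.f _⟩
  have hf : ∀ d, face (fun d => τ (nx (τ d))) (fun d => g (τ d)) z (τ d) = face nx g z d :=
    fun d => by simp only [face, hτ]
  refine congrArg sInf (Set.ext fun E => ⟨?_, ?_⟩)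
  · rintro ⟨W, hW, rfl⟩
    obtain ⟨W', h1, h2⟩ := hF nx' _ rv g' _ z v' _ e ok' ok2 F' co' co2
      (fun x h1 h2 => by simp only [hx x h1 h2, h x h1 h2, and_self]) W hW
    refine ⟨fun d => W' (τ d), ⟨fun d => hf d ▸ h1.lip _, fun d w hw => ?_, fun d w hw => ?_⟩, ?_⟩
    · have := h1.rot (τ d) w (by simpa only [hτ, hf] using hw)
      simpa only [hτ] using this
    · have := h1.edge (τ d) w (by simpa only [hτ] using hw)
      simpa only [hτ, hr] using this
    · rw [← h2, en, en, ← Equiv.sum_comp τ]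
      simp only [hf]
  · rintro ⟨W, hW, rfl⟩
    obtain ⟨W', h1, h2⟩ := hF nx nx' rv g g' z v v' e ok ok' F co co' h W hW
    exact ⟨W', h1, h2.symm⟩

end Pool.Agent.MP_596265_gt.Hd

end

section

namespace Pool.Agent.MP_596265_gt.Hd

open MeasureTheory Set Complex Filter Topology
open scoped ComplexConjugate Matrix.Norms.Elementwise NNReal InnerProductSpace

namespace MOTx

theorem geo_im {p q : ℂ} {l : ℝ} (hp : 0 < p.im) (hq : 0 < q.im) (h0 : 0 ≤ l) (h1 : l ≤ 1) :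
    0 < (geo p q l).im := by
  have a1 : 0 ≤ (1 - l) * q.im := mul_nonneg (sub_nonneg.2 h1) hq.le
  have a2 : 0 ≤ l * p.im := mul_nonneg h0 hp.le
  have d0 : 0 < (1 - l) * q.im + l * p.im := by
    rcases h0.eq_or_lt with h | h
    · rw [← h]; simpa using hq
    · have := mul_pos h hp; linarith
  have m0 : 0 ≤ mu p q l := div_nonneg a2 d0.le
  have m1 : mu p q l ≤ 1 := (div_le_one d0).2 (by linarith)
  refine Real.sqrt_pos.2 ?_
  have b1 := mul_nonneg (mul_nonneg m0 (sub_nonneg.2 m1)) (sq_nonneg (p.re - q.re))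
  have b2 := mul_nonneg (sub_nonneg.2 m1) (sq_nonneg p.im)
  have b3 := mul_nonneg m0 (sq_nonneg q.im)
  rcases m0.eq_or_lt with h | h
  · rw [← h]; simpa only [sub_zero, one_mul, zero_mul, add_zero, mul_one, gt_iff_lt] using pow_pos hp 2
  · have := mul_pos h (pow_pos hq 2); linarith

theorem ray_im {z y : ℂ} {s : ℝ} (hz : 0 < z.im) (hy : 0 < y.im) (h0 : 0 ≤ s) (h1 : s ≤ 1) :
    0 < (ray z y s).im := by
  have hab : normSq (z - y) < normSq (z - conj y) := by
    simp only [normSq_apply, sub_re, sub_im, conj_re, conj_im]; linarith only [mul_pos hz hy]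
  have hs : normSq ((s : ℂ) * (z - y)) < normSq (z - conj y) := by
    rw [map_mul, normSq_ofReal]
    have := normSq_nonneg (z - y)
    linarith only [mul_nonneg this (sub_nonneg.2 (mul_le_one₀ h1 h0 h1)), hab]
  have hN : NN z y s ≠ 0 := fun h => by
    rw [NN, sub_eq_zero] at h
    rw [h] at hs; exact lt_irrefl _ hs
  have hd : y - conj y ≠ 0 := fun h => by
    have := congrArg Complex.im h
    simp only [sub_im, conj_im, zero_im] at this; linarith only [hy, this]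
  have e1 : ray z y s - y = s * (z - y) * ((y - conj y) / NN z y s) := by
    rw [ray]; field_simp; rw [NN]; ring
  have e2 : ray z y s - conj y = (z - conj y) * ((y - conj y) / NN z y s) := by
    rw [ray]; field_simp; rw [NN]; ring
  have h : normSq (ray z y s - y) < normSq (ray z y s - conj y) := by
    rw [e1, e2, map_mul _ (_ * _), map_mul _ (z - conj y)]
    exact mul_lt_mul_of_pos_right hs (normSq_pos.2 (div_ne_zero hd hN))
  simp only [normSq_apply, sub_re, sub_im, conj_re, conj_im] at h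
  by_contra c
  linarith only [mul_nonneg (neg_nonneg.2 (not_lt.1 c)) hy.le, h]

abbrev Op : Type := E8 →L[ℂ] E8

/-- The second order polynomial. -/
noncomputable def tg {A : Type} [Ring A] [Module ℂ A] (t : ℂ) (θ θ' σ σ' : A) : A :=
  1 - (2 * t) • θ - (2 * conj t) • θ' + (2 * (t * conj t)) • (θ * θ' + θ' * θ) +
    t ^ 2 • ((2 : ℂ) • (θ * θ) + (-2 : ℂ) • σ) + conj t ^ 2 • ((2 : ℂ) • (θ' * θ') + (-2 : ℂ) • σ')

theorem est {A : Type} [CStarAlgebra A] {θ σ ρ T G : A} {t : ℂ} {M C : ℝ} (h1 : ‖t‖ ≤ 1)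
    (hθ : ‖θ‖ ≤ M) (hσ : ‖σ‖ ≤ M)
    (hρ : ‖ρ‖ ≤ M * ‖t‖ ^ 3) (hT : T = t • θ + t ^ 2 • σ + ρ)
    (hG : ‖G - (1 - (2 : ℂ) • (T + star T) + (2 : ℂ) • ((T + star T) * (T + star T)))‖ ≤
      C * ‖t‖ ^ 3) :
    ‖G - tg t θ (star θ) σ (star σ)‖ ≤ (C + 4 * M + 64 * M ^ 2) * ‖t‖ ^ 3 := by
  have hM : 0 ≤ M := (norm_nonneg _).trans hθ
  have h0 := norm_nonneg t
  have sy : ∀ X : A, ‖X + star X‖ ≤ 2 * ‖X‖ := fun X =>
    (norm_add_le _ _).trans (by rw [norm_star]; linarith)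
  set a := t • θ + star (t • θ) with ha
  set b := t ^ 2 • σ + star (t ^ 2 • σ) with hb
  set r := ρ + star ρ with hr
  have na : ‖a‖ ≤ 2 * (‖t‖ * M) := (sy _).trans (by rw [norm_smul]; gcongr)
  have nb : ‖b‖ ≤ 2 * (‖t‖ ^ 2 * M) := (sy _).trans (by rw [norm_smul, norm_pow]; gcongr)
  have nr : ‖r‖ ≤ 2 * (M * ‖t‖ ^ 3) := (sy _).trans (by gcongr)
  have p2 : ‖t‖ ^ 2 ≤ ‖t‖ := by nlinarith only [h1, h0]
  have p3 : ‖t‖ ^ 3 ≤ ‖t‖ ^ 2 := by nlinarith only [h1]
  have nc : ‖b + r‖ ≤ 4 * (‖t‖ ^ 2 * M) := (norm_add_le _ _).trans (by nlinarith only [hM, nb, nr, p3])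
  have nA : ‖a + (b + r)‖ ≤ 6 * (‖t‖ * M) := (norm_add_le _ _).trans (by nlinarith only [hM, na, p2, nc])
  have e1 : T + star T = a + (b + r) := by
    simp only [hT, ha, hb, hr, star_add]; abel
  have e2 : tg t θ (star θ) σ (star σ) = 1 - (2 : ℂ) • a - (2 : ℂ) • b + (2 : ℂ) • (a * a) := by
    simp only [tg, ha, hb, star_smul, star_pow, RCLike.star_def, add_mul, mul_add, smul_mul_assoc,
      mul_smul_comm]
    module
  rw [e1] at hG
  have e3 : G - tg t θ (star θ) σ (star σ) =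
      G - (1 - (2 : ℂ) • (a + (b + r)) + (2 : ℂ) • ((a + (b + r)) * (a + (b + r)))) +
        (2 : ℂ) • ((a + (b + r)) * (b + r) + (b + r) * a - r) := by
    rw [e2]
    simp only [add_mul, mul_add]
    module
  have n1 := (norm_mul_le _ _).trans (mul_le_mul nA nc (norm_nonneg _) (by positivity))
  have n2 := (norm_mul_le _ _).trans (mul_le_mul nc na (norm_nonneg _) (by positivity))
  have n3 := norm_sub_le ((a + (b + r)) * (b + r) + (b + r) * a) r
  have n4 := norm_add_le ((a + (b + r)) * (b + r)) ((b + r) * a)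
  rw [e3]
  refine (norm_add_le _ _).trans ?_
  rw [norm_smul, Complex.norm_ofNat]
  linarith only [hG, nr, n1, n2, n3, n4]

theorem th_le {a b : ℂ} {M : ℝ} (ha : ‖a‖ ≤ M) (hb : ‖b‖ ≤ M) :
    ‖th a b‖ ≤ (‖N1 + N2‖ + ‖N3‖) * M := by
  refine (norm_add_le _ _).trans ?_
  rw [norm_smul, norm_smul]
  nlinarith only [norm_nonneg (N1 + N2), norm_nonneg N3, ha, hb]

theorem th_cont {a b : ℝ × ℝ → ℂ} (ha : ContinuousOn a csq) (hb : ContinuousOn b csq) :
    ContinuousOn (fun ω => th (a ω) (b ω)) csq :=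
  (ha.smul continuousOn_const).add (hb.smul continuousOn_const)

variable {Dt : Type} [Fintype Dt]

/-- `A` is the multiplication by the continuous field `T`. -/
def Rp (T : Dt → ℝ × ℝ → Op) (A : HP Dt →L[ℂ] HP Dt) : Prop :=
  (∀ d, ContinuousOn (T d) csq) ∧ mP T = A

omit [Fintype Dt] in
theorem Rp.of {T : Dt → ℝ × ℝ → Op} (h : ∀ d, ContinuousOn (T d) csq) : Rp T (mP T) := ⟨h, rfl⟩

section
variable (hM : MUL_s) {T T' : Dt → ℝ × ℝ → Op} {A A' : HP Dt →L[ℂ] HP Dt}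
include hM
theorem Rp.add (h : Rp T A) (h' : Rp T' A') : Rp (fun d ω => T d ω + T' d ω) (A + A') :=
  ⟨fun d => (h.1 d).add (h'.1 d), by rw [(hM.mp_add _ _ h.1 h'.1).1, h.2, h'.2]⟩
theorem Rp.mul (h : Rp T A) (h' : Rp T' A') : Rp (fun d ω => T d ω * T' d ω) (A * A') :=
  ⟨fun d => (h.1 d).mul (h'.1 d), by rw [(hM.mp_add _ _ h.1 h'.1).2, h.2, h'.2]⟩
theorem Rp.smul (h : Rp T A) (a : ℂ) : Rp (fun d ω => a • T d ω) (a • A) :=
  ⟨fun d => (h.1 d).const_smul a, by rw [(hM.mp_smul _ a h.1).1, h.2]⟩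
theorem Rp.star (h : Rp T A) : Rp (fun d ω => star (T d ω)) (ContinuousLinearMap.adjoint A) :=
  ⟨fun d => ContinuousLinearMap.adjoint.continuous.comp_continuousOn (h.1 d), by
    rw [(hM.mp_smul _ 0 h.1).2, h.2]⟩
theorem Rp.sub (h : Rp T A) (h' : Rp T' A') : Rp (fun d ω => T d ω - T' d ω) (A - A') := by
  convert h.add hM (h'.smul hM (-1)) using 1
  · funext d ω
    module
  · module
theorem Rp.tg {S S' : Dt → ℝ × ℝ → Op} {B B' : HP Dt →L[ℂ] HP Dt} (h : Rp T A) (h' : Rp T' A')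
    (k : Rp S B) (k' : Rp S' B') (t : ℂ) :
    Rp (fun d ω => tg t (T d ω) (T' d ω) (S d ω) (S' d ω)) (tg t A A' B B') :=
  (((((show Rp (fun _ _ => 1) 1 from ⟨fun _ => continuousOn_const, hM.mp_one⟩).sub hM
    (h.smul hM _)).sub hM (h'.smul hM _)).add hM
      (((h.mul hM h').add hM (h'.mul hM h)).smul hM _)).add hM
        ((((h.mul hM h).smul hM _).add hM (k.smul hM _)).smul hM _)).add hM
          ((((h'.mul hM h').smul hM _).add hM (k'.smul hM _)).smul hM _)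
end

theorem small {φ a s t : ℂ} {M : ℝ} (h1 : ‖t‖ ≤ 1) (ha : ‖a‖ ≤ M) (hs : ‖s‖ ≤ M)
    (h : ‖φ - (t * a + t ^ 2 * s)‖ ≤ M * ‖t‖ ^ 3) : ‖φ‖ ≤ 3 * M * ‖t‖ := by
  have hM : 0 ≤ M := (norm_nonneg _).trans ha
  have h0 := norm_nonneg t
  have p2 : ‖t‖ ^ 2 ≤ ‖t‖ := by nlinarith only [h1, h0]
  have p3 : ‖t‖ ^ 3 ≤ ‖t‖ := by nlinarith only [p2]
  have n1 := norm_le_norm_sub_add φ (t * a + t ^ 2 * s)
  have n2 := norm_add_le (t * a) (t ^ 2 * s)
  rw [norm_mul, norm_mul, norm_pow] at n2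
  nlinarith only [mul_le_mul_of_nonneg_left ha h0, mul_le_mul_of_nonneg_left hs (sq_nonneg ‖t‖), h, hM, p2, p3, n1, n2]

/-- Uniform form of the expansion. -/
theorem unif (hC : COMM_s) (hF : PHI_s) {z : ℂ} {p q : Dt → ℂ} (pos : ∀ d, PosT z (p d) (q d)) :
    ∃ (s₁ s₂ : Dt → ℝ × ℝ → ℂ) (M : ℝ), 0 ≤ M ∧ (∀ d, ContinuousOn (s₁ d) csq) ∧
      (∀ d, ContinuousOn (s₂ d) csq) ∧ (∀ d, ∀ ω ∈ csq, ‖th1 z (p d) (q d) ω‖ ≤ M ∧
        ‖th2 z (p d) (q d) ω‖ ≤ M ∧ ‖s₁ d ω‖ ≤ M ∧ ‖s₂ d ω‖ ≤ M) ∧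
      ∀ᶠ t in 𝓝 (0 : ℂ), ‖t‖ ≤ 1 ∧ 3 * M * ‖t‖ ≤ 1 / 2 ∧ ∀ d,
        ContinuousOn (ph1 z (z + t) (p d) (q d)) csq ∧
        ContinuousOn (ph2 z (z + t) (p d) (q d)) csq ∧ ∀ ω ∈ csq,
        ‖ph1 z (z + t) (p d) (q d) ω - (t * th1 z (p d) (q d) ω + t ^ 2 * s₁ d ω)‖ ≤ M * ‖t‖ ^ 3 ∧
        ‖ph2 z (z + t) (p d) (q d) ω - (t * th2 z (p d) (q d) ω + t ^ 2 * s₂ d ω)‖ ≤
          M * ‖t‖ ^ 3 := by
  have cc : IsCompact csq := isCompact_Icc.prod isCompact_Icc
  choose s₁ s₂ C c1 c2 h using fun d => hF z (p d) (q d) (pos d)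
  choose a ha using fun d => cc.exists_bound_of_continuousOn (hC.cont _ _ _ (pos d)).1
  choose b hb using fun d => cc.exists_bound_of_continuousOn (hC.cont _ _ _ (pos d)).2
  choose u hu using fun d => cc.exists_bound_of_continuousOn (c1 d)
  choose v hv using fun d => cc.exists_bound_of_continuousOn (c2 d)
  obtain ⟨M, hM⟩ := Finite.exists_le fun d => max (C d) (max (a d) (max (b d) (max (u d) (v d))))
  simp only [max_le_iff] at hM
  have m := le_max_left M 0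
  refine ⟨s₁, s₂, max M 0, le_max_right _ _, c1, c2, fun d ω hω =>
    ⟨(ha d ω hω).trans ((hM d).2.1.trans m), (hb d ω hω).trans ((hM d).2.2.1.trans m),
      (hu d ω hω).trans ((hM d).2.2.2.1.trans m), (hv d ω hω).trans ((hM d).2.2.2.2.trans m)⟩, ?_⟩
  have k1 : ∀ᶠ t in 𝓝 (0 : ℂ), ‖t‖ ≤ 1 :=
    (continuous_norm.tendsto' 0 0 norm_zero).eventually_le_const one_pos
  have k2 : ∀ᶠ t in 𝓝 (0 : ℂ), 3 * max M 0 * ‖t‖ ≤ 1 / 2 :=
    ((continuous_const.mul continuous_norm).tendsto' 0 0 (by simp only [Pi.mul_apply, norm_zero, mul_zero])).eventually_le_const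
      one_half_pos
  filter_upwards [k1, k2, eventually_all.2 h] with t k1 k2 h
  refine ⟨k1, k2, fun d => ⟨(h d).1, (h d).2.1, fun ω hω => ?_⟩⟩
  have := mul_le_mul_of_nonneg_right ((hM d).1.trans m) (pow_nonneg (norm_nonneg t) 3)
  exact ⟨((h d).2.2 ω hω).1.trans this, ((h d).2.2 ω hω).2.trans this⟩

end MOTx

open MOTx in
theorem MOT (hM : MUL_s) (hI : INC_s) (hG : GEP_s) (_hL : PL_s) (hP : PM_s) (hC : COMM_s)
    (hW : PW_s) (hF : PHI_s) : MOT_s := by
  have gc : ∀ {φ ψ : ℝ × ℝ → ℂ}, ContinuousOn φ csq → ContinuousOn ψ csq →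
      (∀ ω ∈ csq, ‖φ ω‖ ≤ 1 / 2 ∧ ‖ψ ω‖ ≤ 1 / 2) → ContinuousOn (fun ω => Gm (φ ω) (ψ ω)) csq :=
    fun h1 h2 h => by
      simpa only [Function.comp_def] using hW.cont.comp (h1.prodMk h2) fun ω hω =>
        ⟨(h ω hω).1.trans_lt (by norm_num), (h ω hω).2.trans_lt (by norm_num)⟩
  refine ⟨fun {Dt} _ nx rv g c z st => ?_, fun {Dt} _ nx rv g c z st => ?_⟩
  all_goals
    have pos : ∀ d, PosT z (c (nx (rv d))) (c d) := fun d => ⟨st.im, st.cim _, st.cim _, st.spos d⟩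
    obtain ⟨s₁, s₂, M, M0, c1, c2, hb, ev⟩ := unif hC hF pos
  · obtain ⟨C, hC'⟩ := hW.exp
    have r1 := Rp.of fun d => th_cont (hC.cont _ _ _ (pos d)).1 (hC.cont _ _ _ (pos d)).2
    have r2 := Rp.of fun d => th_cont (c1 d) (c2 d)
    rw [← thP] at r1
    set N := (‖N1 + N2‖ + ‖N3‖) * M with hN
    refine ⟨(2 : ℂ) • (thP nx rv c z * thP nx rv c z) + (-2 : ℂ) • mP fun d ω => th (s₁ d ω) (s₂ d ω),
      (2 : ℂ) • (ContinuousLinearMap.adjoint (thP nx rv c z) *
        ContinuousLinearMap.adjoint (thP nx rv c z)) +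
        (-2 : ℂ) • ContinuousLinearMap.adjoint (mP fun d ω => th (s₁ d ω) (s₂ d ω)),
      |C| * (3 * M) ^ 3 + 4 * N + 64 * N ^ 2, ev.mono fun t ⟨k1, k2, h⟩ => ?_⟩
    have sm := fun d ω hω => And.intro
      (small k1 (hb d ω hω).1 (hb d ω hω).2.2.1 ((h d).2.2 ω hω).1)
      (small k1 (hb d ω hω).2.1 (hb d ω hω).2.2.2 ((h d).2.2 ω hω).2)
    have r3 := Rp.of fun d => gc (h d).1 (h d).2.1 fun ω hω =>
      ⟨(sm d ω hω).1.trans k2, (sm d ω hω).2.trans k2⟩
    rw [← GP] at r3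
    have r4 := r3.sub hM (r1.tg hM (r1.star hM) r2 (r2.star hM) t)
    refine (congrArg norm r4.2).symm.trans_le (hM.mp_le _ _ (by positivity) r4.1 fun d ω hω => ?_)
    refine est k1 (th_le (hb d ω hω).1 (hb d ω hω).2.1) (th_le (hb d ω hω).2.2.1 (hb d ω hω).2.2.2)
      ((th_le ((h d).2.2 ω hω).1 ((h d).2.2 ω hω).2).trans_eq (mul_assoc _ _ _).symm) ?_
      ((hC' _ _ _ k2 (sm d ω hω).1 (sm d ω hω).2).trans ?_)
    · simp only [th]; module
    · rw [mul_pow _ ‖t‖, ← mul_assoc]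
      gcongr
      exact le_abs_self C
  · have nr : ∀ᶠ t in 𝓝 (0 : ℂ), Star nx rv g c (z + t) :=
      ((continuous_const_add z).tendsto' 0 z (add_zero z)).eventually (hI.near nx rv g c z st)
    filter_upwards [ev, nr] with t ⟨k1, k2, h⟩ st'
    have pos' : ∀ d, PosT (z + t) (c (nx (rv d))) (c d) := fun d =>
      ⟨st'.im, st.cim _, st.cim _, st'.spos d⟩
    have r3 := Rp.of fun d => gc (h d).1 (h d).2.1 fun ω hω =>
      ⟨(small k1 (hb d ω hω).1 (hb d ω hω).2.2.1 ((h d).2.2 ω hω).1).trans k2,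
        (small k1 (hb d ω hω).2.1 (hb d ω hω).2.2.2 ((h d).2.2 ω hω).2).trans k2⟩
    rw [← GP] at r3
    have sa : ContinuousLinearMap.adjoint (GP nx rv c z (z + t)) = GP nx rv c z (z + t) := by
      rw [← (r3.star hM).2]
      simp only [hW.sa]
      rfl
    refine ⟨fun x y => by rw [← ContinuousLinearMap.adjoint_inner_right, sa], fun U hU => ?_⟩
    rw [← inner_self_eq_norm_sq (𝕜 := ℂ), hM.inn, hM.inn]
    refine congrArg Complex.re (Finset.sum_congr rfl fun d _ => integral_congr_ae ?_)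
    filter_upwards [hM.cls_ae _ _ (hP.mem _ _ _ _ (pos d) (hU d)),
      hM.cls_ae _ _ (hP.mem _ _ _ _ (pos' d) (hU d)), hM.mp_ae _ r3.1 (dP nx rv c z U) d,
      ae_restrict_mem (measurableSet_Ioo.prod measurableSet_Ioo : MeasurableSet sq)]
      with ω e1 e2 e3 e5
    have f1 : dP nx rv c z U d ω = dq z (c (nx (rv d))) (c d) (U d) ω := e1
    have f2 : dP nx rv c (z + t) U d ω = dq (z + t) (c (nx (rv d))) (c d) (U d) ω := e2
    have f3 : GP nx rv c z (z + t) (dP nx rv c z U) d ω = _ := e3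
    have hω : ω ∈ csq := ⟨Ioo_subset_Icc_self e5.1, Ioo_subset_Icc_self e5.2⟩
    have gi := geo_im (st.cim (nx (rv d))) (st.cim d) hω.1.1 hω.1.2
    have key := hW.eq _ _ _ _ _ _ (r1 (U d) ω) (r2 (U d) ω) (ray_im st.im gi hω.2.1 hω.2.2)
      (ray_im st'.im gi hω.2.1 hω.2.2) (hG.jpos _ _ _ _ (pos d) hω) (hG.jpos _ _ _ _ (pos' d) hω)
    have real : ∀ (φ ψ : ℂ) (x : E8), ((⟪x, Gm φ ψ x⟫_ℂ).re : ℂ) = ⟪x, Gm φ ψ x⟫_ℂ :=
      fun φ ψ x => conj_eq_iff_re.1 (by
        rw [inner_conj_symm, ← ContinuousLinearMap.adjoint_inner_right,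
          ← ContinuousLinearMap.star_eq_adjoint, hW.sa])
    rw [f3, f1, f2, dq, dq, map_smul, inner_smul_left, inner_smul_left, inner_smul_right,
      inner_smul_right, ← real, inner_self_eq_norm_sq_to_K]
    congr 2
    rw [ph1, ph2, DD, DD, ← key, ofReal_pow]
    rfl

end Pool.Agent.MP_596265_gt.Hd

end
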