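import Pool.Agent.MP_596265_gt.W.H0
import Pool.Agent.MP_596265_gt.W.L0

section

/-! Block H, row GEP: derivative and Jacobian of the polar map. -/

namespace Pool.Agent.MP_596265_gt.Hd

open MeasureTheory Set Complex Filter Topology
open scoped ComplexConjugate Matrix.Norms.Elementwise NNReal InnerProductSpace

namespace GEPx

abbrev XX : Type := (ℂ × ℂ × ℂ) × ℝ × ℝ

theorem sm (hG : GEO_s) {z p q : ℂ} {ω : ℝ × ℝ} (hz : 0 < z.im) (hp : 0 < p.im) (hq : 0 < q.im)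
    (hω : ω ∈ csq) :
    ContDiffAt ℝ (⊤ : ℕ∞) (fun x : XX => (geo x.1.2.1 x.1.2.2 x.2.1 - x.1.1) *
      (x.1.1 - conj (geo x.1.2.1 x.1.2.2 x.2.1)) / NN x.1.1 (geo x.1.2.1 x.1.2.2 x.2.1) x.2.2)
      ((z, p, q), ω) ∧
    ContDiffAt ℝ (⊤ : ℕ∞) (fun x : XX => DD x.1.1 x.1.2.1 x.1.2.2 x.2) ((z, p, q), ω) ∧
    ContDiffAt ℝ (⊤ : ℕ∞) (fun x : XX => e1 x.1.1 x.1.2.1 x.1.2.2 x.2) ((z, p, q), ω) ∧
    ContDiffAt ℝ (⊤ : ℕ∞) (fun x : XX => e2 x.1.1 x.1.2.1 x.1.2.2 x.2) ((z, p, q), ω) := by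
  have k : ContDiffAt ℝ (⊤ : ℕ∞) (fun x : XX => (x.1.2.1, x.1.2.2, x.2.1)) ((z, p, q), ω) := by
    fun_prop
  have y : ContDiffAt ℝ (⊤ : ℕ∞) (fun x : XX => geo x.1.2.1 x.1.2.2 x.2.1) ((z, p, q), ω) :=
    (ContDiffAt.comp ((z, p, q), ω) (hG.smooth p q ω.1 hp hq hω.1).1 k :)
  have y' : ContDiffAt ℝ (⊤ : ℕ∞) (fun x : XX => geo' x.1.2.1 x.1.2.2 x.2.1) ((z, p, q), ω) :=
    (ContDiffAt.comp ((z, p, q), ω) (hG.smooth p q ω.1 hp hq hω.1).2 k :)
  have cb : ∀ {f : XX → ℂ}, ContDiffAt ℝ (⊤ : ℕ∞) f ((z, p, q), ω) →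
      ContDiffAt ℝ (⊤ : ℕ∞) (fun x => conj (f x)) ((z, p, q), ω) := fun h =>
    (conjCLE.contDiff.contDiffAt.comp _ h :)
  have yb := cb y
  have yb' := cb y'
  have i : ContDiffAt ℝ (⊤ : ℕ∞) (fun x : XX => x.1.1) ((z, p, q), ω) := by fun_prop
  have s : ContDiffAt ℝ (⊤ : ℕ∞) (fun x : XX => (x.2.2 : ℂ)) ((z, p, q), ω) :=
    ofRealCLM.contDiff.contDiffAt.comp _ (by fun_prop)
  have n0 := hG.nn_ne _ _ _ hz (hG.im p q _ hp hq hω.1) hω.2
  have n := (i.sub yb).sub (s.mul (i.sub y))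
  have dv : ∀ {f g : XX → ℂ}, ContDiffAt ℝ (⊤ : ℕ∞) f ((z, p, q), ω) →
      ContDiffAt ℝ (⊤ : ℕ∞) g ((z, p, q), ω) → g ((z, p, q), ω) ≠ 0 →
      ContDiffAt ℝ (⊤ : ℕ∞) (fun x => f x / g x) ((z, p, q), ω) := fun a b c => by
    simp only [div_eq_mul_inv]
    exact a.mul (b.inv c)
  have g := dv ((y.sub i).mul (i.sub yb)) n n0
  exact ⟨g, i.add ((contDiffAt_const.sub s).mul g),
    dv ((y'.mul ((i.sub yb).pow 2)).sub ((s.mul yb').mul ((i.sub y).pow 2))) (n.pow 2)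
      (pow_ne_zero 2 n0),
    dv (((i.sub y).mul (i.sub yb)).mul (y.sub yb)) (n.pow 2) (pow_ne_zero 2 n0)⟩

theorem fix {f : XX → ℂ} {a ω} (h : ContDiffAt ℝ (⊤ : ℕ∞) f (a, ω)) :
    ContDiffAt ℝ 1 (fun ω => f (a, ω)) ω :=
  (h.comp ω (contDiffAt_const.prodMk contDiffAt_id)).of_le (by exact_mod_cast le_top)

theorem gd (hG : GEO_s) {p q : ℂ} {l : ℝ} (hp : 0 < p.im) (hq : 0 < q.im) (hl : l ∈ Icc (0 : ℝ) 1) :
    HasDerivAt (geo p q) (geo' p q l) l :=
  ((((hG.smooth p q l hp hq hl).1.comp l (f := fun l : ℝ => (p, q, l))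
    (by fun_prop)).differentiableAt (by simp)).hasDerivAt :)

theorem d1 {z y' : ℂ} {y : ℝ → ℂ} {l s : ℝ} (h : HasDerivAt y y' l) (n : NN z (y l) s ≠ 0) :
    HasDerivAt (fun l => ray z (y l) s) ((1 - s : ℝ) *
      ((y' * (z - conj (y l)) ^ 2 - s * conj y' * (z - y l) ^ 2) / NN z (y l) s ^ 2)) l := by
  have hb : HasDerivAt (fun l => conj (y l)) (conj y') l := h.star
  refine (((((h.sub_const z).mul (hb.const_sub z)).div
    ((hb.const_sub z).sub ((h.const_sub z).const_mul (s : ℂ))) n).const_mul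
      (1 - (s : ℂ))).const_add z).congr_deriv ?_
  simp only [Pi.mul_apply, Pi.sub_apply]
  unfold NN at n ⊢
  push_cast
  field_simp
  ring

theorem d2 {z y : ℂ} {s : ℝ} (n : NN z y s ≠ 0) :
    HasDerivAt (fun s => ray z y s) ((z - y) * (z - conj y) * dl y / NN z y s ^ 2) s := by
  have h : HasDerivAt (fun s : ℝ => (s : ℂ)) 1 s := ofRealCLM.hasDerivAt
  refine (((h.const_sub 1).mul ((hasDerivAt_const s ((y - z) * (z - conj y))).div
    ((h.mul_const (z - y)).const_sub (z - conj y)) n)).const_add z).congr_deriv ?_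
  simp only [Pi.div_apply]
  unfold NN at n ⊢
  unfold dl
  field_simp
  ring

theorem key (hG : GEO_s) {z p q : ℂ} {l : ℝ} (hT : PosT z p q) (hl : l ∈ Icc (0 : ℝ) 1) :
    0 < (conj (geo' p q l) * conj (z - conj (geo p q l)) * (z - geo p q l)).re := by
  obtain ⟨hz, hp, hq, hd0⟩ := hT
  have d0 : 0 < (1 - l) * q.im + l * p.im := by
    rcases hl.1.eq_or_lt with h | h
    · rw [← h]; simpa using hq
    · have := mul_pos h hp
      have := mul_nonneg (sub_nonneg.2 hl.2) hq.le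
      linarith
  obtain ⟨m, m0, hm⟩ : ∃ m > 0, HasDerivAt (mu p q) m l := by
    refine ⟨_, ?_, ((hasDerivAt_id l).mul_const p.im).div
      ((((hasDerivAt_id l).const_sub 1).mul_const q.im).add ((hasDerivAt_id l).mul_const p.im))
      d0.ne'⟩
    refine div_pos ?_ (pow_pos d0 2)
    simp only [id]
    linarith only [mul_pos hp hq]
  have hy := gd hG hp hq hl
  have b0 := hG.im p q l hp hq hl
  have r0 := Real.sqrt_pos.1 b0
  have e1 : (geo' p q l).re = _ := (reCLM.hasFDerivAt.comp_hasDerivAt l hy).unique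
    (((hm.const_sub 1).mul_const p.re).add (hm.mul_const q.re))
  have e2 : (geo' p q l).im = _ := (imCLM.hasFDerivAt.comp_hasDerivAt l hy).unique
    (((((hm.const_sub 1).mul_const (p.im ^ 2)).add (hm.mul_const (q.im ^ 2))).add
      ((hm.mul (hm.const_sub 1)).mul_const ((p.re - q.re) ^ 2))).sqrt r0.ne')
  have e3 : (geo p q l).im ^ 2 = _ := Real.sq_sqrt r0.le
  have e4 : (geo p q l).re = (1 - mu p q l) * p.re + mu p q l * q.re := rfl
  change _ = _ / (2 * (geo p q l).im) at e2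
  rw [eq_div_iff (by positivity)] at e2
  refine (mul_pos m0 hd0).trans_eq ?_
  simp only [hd, normSq_apply, mul_re, mul_im, sub_re, sub_im, conj_re, conj_im, e1, e4]
  linear_combination (-((1 - mu p q l) * p.re + mu p q l * q.re - z.re)) * e2 +
    (-m * p.re + m * q.re) * e3

theorem lip {f : ℝ × ℝ → ℂ} (h : ∀ ω ∈ csq, ContDiffAt ℝ 1 f ω) : ∃ K, LipschitzOnWith K f csq :=
  LocallyLipschitzOn.exists_lipschitzOnWith_of_compact (isCompact_Icc.prod isCompact_Icc)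
    fun ω hω => by
      obtain ⟨K, t, ht, hK⟩ := (h ω hω).exists_lipschitzOnWith
      exact ⟨K, t, mem_nhdsWithin_of_mem_nhds ht, hK⟩

end GEPx

open GEPx in
theorem GEP (hG : GEO_s) : GEP_s where
  der z p q ω hz hp hq hω := by
    have h : HasFDerivAt (DD z p q) (fderiv ℝ (DD z p q) ω) ω :=
      ((fix (sm hG hz hp hq hω).2.1).differentiableAt one_ne_zero).hasFDerivAt
    have n0 := hG.nn_ne _ _ _ hz (hG.im p q _ hp hq hω.1) hω.2
    have a : HasDerivAt (fun l : ℝ => (l, ω.2)) (1, 0) ω.1 :=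
      (hasDerivAt_id _).prodMk (hasDerivAt_const _ _)
    have b : HasDerivAt (fun s : ℝ => (ω.1, s)) (0, 1) ω.2 :=
      (hasDerivAt_const _ _).prodMk (hasDerivAt_id _)
    have a' : HasDerivAt (fun l => ray z (geo p q l) ω.2) _ ω.1 :=
      (h.comp_hasDerivAt_of_eq ω.1 a rfl :)
    have b' : HasDerivAt (fun s => ray z (geo p q ω.1) s) _ ω.2 :=
      (h.comp_hasDerivAt_of_eq ω.2 b rfl :)
    exact ⟨_, h, a'.unique (d1 (gd hG hp hq hω.1) n0), b'.unique (d2 n0)⟩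
  jpos z p q ω hT hω := by
    have k := key hG hT hω.1
    obtain ⟨hz, hp, hq, -⟩ := hT
    have b0 := hG.im p q _ hp hq hω.1
    have n0 := hG.nn_ne _ _ _ hz b0 hω.2
    unfold jc e1 e2 dl
    generalize geo' p q ω.1 = y', geo p q ω.1 = y at *
    have hab : 0 < normSq (z - conj y) - ω.2 * normSq (z - y) := by
      have := mul_le_of_le_one_left (normSq_nonneg (z - y)) hω.2.2
      simp only [normSq_apply, sub_re, sub_im, conj_re, conj_im] at this ⊢
      linarith only [mul_pos hz b0, this]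
    rw [map_div₀, div_mul_div_comm, ← normSq_eq_conj_mul_self, div_ofReal_im]
    refine div_pos ((mul_pos (mul_pos (mul_pos two_pos b0) k) hab).trans_eq ?_)
      (normSq_pos.2 (pow_ne_zero 2 n0))
    simp only [normSq_apply, pow_two, mul_re, mul_im, sub_re, sub_im, conj_re, conj_im, ofReal_re,
      ofReal_im]
    ring
  plip z p q hz hp hq := by
    obtain ⟨K, hK⟩ := lip fun ω hω => fix (sm hG hz hp hq hω).1
    obtain ⟨L, hL⟩ := lip fun ω hω => fix (sm hG hz hp hq hω).2.1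
    refine ⟨K + L, fun ω hω ω' hω' => ?_⟩
    have m : (ω'.1, ω.2) ∈ csq := ⟨hω'.1, hω.2⟩
    have a := hK.dist_le_mul ω hω _ m
    have b := hL.dist_le_mul _ m ω' hω'
    have s0 : 0 ≤ 1 - ω.2 := sub_nonneg.2 hω.2.2
    simp only [Prod.dist_eq, dist_self, abs_nonneg, sup_of_le_left, sup_of_le_right,
      Real.dist_eq ω.1, Real.dist_eq ω.2] at a b
    have c : dist (DD z p q ω) (DD z p q (ω'.1, ω.2)) ≤ (1 - ω.2) * (K * |ω.1 - ω'.1|) := by
      refine le_trans (le_of_eq ?_) (mul_le_mul_of_nonneg_left a s0)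
      simp only [DD, ray, dist_eq_norm]
      rw [add_sub_add_left_eq_sub, ← mul_sub, norm_mul, ← ofReal_one, ← ofReal_sub, norm_real, Real.norm_of_nonneg s0]
    have := dist_triangle (DD z p q ω) (DD z p q (ω'.1, ω.2)) (DD z p q ω')
    rw [← dist_eq_norm]
    linarith only [mul_nonneg L.coe_nonneg (mul_nonneg s0 (abs_nonneg (ω.1 - ω'.1))), mul_nonneg K.coe_nonneg (abs_nonneg (ω.2 - ω'.2)), b, c, this]
  sm z p q ω hz hp hq hω := (sm hG hz hp hq hω).2

end Pool.Agent.MP_596265_gt.Hd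

end

section

namespace Pool.Agent.MP_596265_gt.Hd

open MeasureTheory Set Complex Filter Topology
open scoped ComplexConjugate Matrix.Norms.Elementwise NNReal InnerProductSpace

namespace POLx

/-- Numerator of the chart parameter of a ray, without the factor `1 - s`. -/
def nm (z y : ℂ) (s : ℝ) : ℝ :=
  (z.re - y.re) ^ 2 + (z.im + y.im) ^ 2 - s * ((z.re - y.re) ^ 2 + (z.im - y.im) ^ 2)
def dn (z y : ℂ) (s : ℝ) : ℝ := (1 - s) * nm z y s + 4 * s * y.im ^ 2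
noncomputable def ta (z y : ℂ) (s : ℝ) : ℝ := (1 - s) * (nm z y s / dn z y s)

variable {z y p q : ℂ} {s l : ℝ}

lemma nm_pos (hz : 0 < z.im) (hy : 0 < y.im) (hs : s ≤ 1) : 0 < nm z y s := by
  have h1 := mul_pos hz hy
  have h2 : 0 ≤ (1 - s) * ((z.re - y.re) ^ 2 + (z.im - y.im) ^ 2) :=
    mul_nonneg (by linarith) (by positivity)
  unfold nm; linarith only [h1, h2]

lemma dn_pos (hz : 0 < z.im) (hy : 0 < y.im) (hs : s ∈ Icc (0 : ℝ) 1) : 0 < dn z y s := by
  have h1 := nm_pos hz hy hs.2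
  have h2 := hs.1
  rcases hs.2.eq_or_lt with rfl | h
  · unfold dn; linarith only [pow_pos hy 2]
  · have := mul_pos (sub_pos.2 h) h1
    unfold dn; positivity

lemma ta_mem (hz : 0 < z.im) (hy : 0 < y.im) (hs : s ∈ Icc (0 : ℝ) 1) :
    ta z y s ∈ Icc (0 : ℝ) 1 := by
  have h1 := nm_pos hz hy hs.2
  have h2 := dn_pos hz hy hs
  have h3 := hs.1
  refine ⟨mul_nonneg (sub_nonneg.2 hs.2) (by positivity), ?_⟩
  rw [ta, ← mul_div_assoc, div_le_one h2, dn]
  exact le_add_of_nonneg_right (by positivity)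

lemma ray_chart (hz : 0 < z.im) (hy : 0 < y.im) (hs : s ∈ Icc (0 : ℝ) 1) :
    (ray z y s).re = z.re + ta z y s * (y.re - z.re) ∧
      normSq (ray z y s) = normSq z + ta z y s * (normSq y - normSq z) := by
  have h0 := (dn_pos hz hy hs).ne'
  have hN : normSq (NN z y s) = dn z y s := by
    simp only [NN, dn, nm, normSq_apply, sub_re, mul_re, sub_im, mul_im, conj_re, conj_im,
      ofReal_re, ofReal_im]; ring
  have h1 : (ray z y s).re = z.re + ta z y s * (y.re - z.re) := by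
    simp only [ray, add_re, mul_re, div_re, div_im, hN, ta, sub_re, sub_im, mul_im, conj_re,
      conj_im, ofReal_re, ofReal_im, one_re, one_im]
    simp only [NN, sub_re, mul_re, sub_im, mul_im, conj_re, conj_im, ofReal_re, ofReal_im, nm]
    field_simp; ring
  have h2 : (ray z y s).im = z.im + (1 - s) * (s * (z.im + y.im) *
      ((z.re - y.re) ^ 2 + (z.im - y.im) ^ 2) - (z.im - y.im) *
      ((z.re - y.re) ^ 2 + (z.im + y.im) ^ 2)) / dn z y s := by
    simp only [ray, add_im, mul_re, div_re, div_im, hN, sub_re, sub_im, mul_im, conj_re,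
      conj_im, ofReal_re, ofReal_im, one_re, one_im]
    simp only [NN, sub_re, mul_re, sub_im, mul_im, conj_re, conj_im, ofReal_re, ofReal_im]
    field_simp; ring
  refine ⟨h1, ?_⟩
  rw [normSq_apply, h1, h2, normSq_apply, normSq_apply, ta]
  field_simp
  simp only [dn, nm]; ring

lemma mu_den (hp : 0 < p.im) (hq : 0 < q.im) (hl : l ∈ Icc (0 : ℝ) 1) :
    0 < (1 - l) * q.im + l * p.im := by
  rcases hl.1.eq_or_lt with rfl | h
  · simpa using hq
  · have := mul_nonneg (sub_nonneg.2 hl.2) hq.le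
    positivity

lemma mu_mem (hp : 0 < p.im) (hq : 0 < q.im) (hl : l ∈ Icc (0 : ℝ) 1) :
    mu p q l ∈ Icc (0 : ℝ) 1 := by
  have h1 := mu_den hp hq hl
  have h2 := hl.1
  refine ⟨by unfold mu; positivity, (div_le_one h1).2 ?_⟩
  exact le_add_of_nonneg_left (mul_nonneg (sub_nonneg.2 hl.2) hq.le)

lemma geo_chart (hp : 0 < p.im) (hq : 0 < q.im) (hl : l ∈ Icc (0 : ℝ) 1) :
    normSq (geo p q l) = (1 - mu p q l) * normSq p + mu p q l * normSq q := by
  obtain ⟨h1, h2⟩ := mu_mem hp hq hl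
  have h3 := sub_nonneg.2 h2
  simp only [normSq_apply, geo]
  rw [Real.mul_self_sqrt (by positivity)]; ring

lemma hd_DD (G : GEO_s) (h : PosT z p q) {ω : ℝ × ℝ} (hω : ω ∈ csq) :
    hd z p (DD z p q ω) = ta z (geo p q ω.1) ω.2 * mu p q ω.1 * hd z p q ∧
    hd p q (DD z p q ω) = (1 - ta z (geo p q ω.1) ω.2) * hd z p q ∧
    hd q z (DD z p q ω) = ta z (geo p q ω.1) ω.2 * (1 - mu p q ω.1) * hd z p q := by
  obtain ⟨hz, hp, hq, -⟩ := h
  obtain ⟨h1, h2⟩ := ray_chart hz (G.im p q _ hp hq hω.1) hω.2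
  have h3 : (geo p q ω.1).re = (1 - mu p q ω.1) * p.re + mu p q ω.1 * q.re := rfl
  simp only [hd, DD, h1, h2, geo_chart hp hq hω.1, h3]
  refine ⟨by ring, by ring, by ring⟩

lemma img (G : GEO_s) (h : PosT z p q) : DD z p q '' csq = tri z p q := by
  have ⟨hz, hp, hq, hH⟩ := h
  refine Subset.antisymm ?_ fun w ⟨hw, h1, h2, h3⟩ => ?_
  · rintro _ ⟨ω, hω, rfl⟩
    have hy := G.im p q _ hp hq hω.1
    obtain ⟨e1, e2, e3⟩ := hd_DD G h hω
    obtain ⟨t0, t1⟩ := ta_mem hz hy hω.2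
    obtain ⟨m0, m1⟩ := mu_mem hp hq hω.1
    have t2 := sub_nonneg.2 t1
    have m2 := sub_nonneg.2 m1
    refine ⟨?_, by rw [e1]; positivity, by rw [e2]; positivity, by rw [e3]; positivity⟩
    exact ((G.rimg z _ hz hy).subset ⟨ω.2, hω.2, rfl⟩).1
  · set c := hd z p w / hd z p q with hc
    set b := hd q z w / hd z p q with hb
    have c0 : 0 ≤ c := by positivity
    have b0 : 0 ≤ b := by positivity
    have hbc : b + c ≤ 1 := by
      rw [hb, hc, ← add_div, div_le_one hH]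
      have : hd z p q = hd q z w + hd z p w + hd p q w := by simp only [hd]; ring
      linarith only [h2, this]
    set t := c / (b + c) with ht
    have t0 : 0 ≤ t := by positivity
    have t1 : 0 ≤ 1 - t := sub_nonneg.2 (div_le_one_of_le₀ (by linarith only [b0]) (by positivity))
    have tc : (b + c) * t = c := by
      rcases (add_nonneg b0 c0).eq_or_lt with h | h
      · rw [← h, zero_mul]; linarith only [c0, b0, h]
      · rw [ht]; field_simp
    have hr : 0 < (1 - t) * p.im ^ 2 + t * q.im ^ 2 + t * (1 - t) * (p.re - q.re) ^ 2 := by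
      rcases t0.eq_or_lt with h | h
      · rw [← h]; simpa only [sub_zero, one_mul, zero_mul, add_zero, mul_one] using pow_pos hp 2
      · positivity
    set y : ℂ := ⟨(1 - t) * p.re + t * q.re,
      √((1 - t) * p.im ^ 2 + t * q.im ^ 2 + t * (1 - t) * (p.re - q.re) ^ 2)⟩ with hy
    have yn : normSq y = (1 - t) * normSq p + t * normSq q := by
      simp only [normSq_apply, hy]
      rw [Real.mul_self_sqrt hr.le]; ring
    have yr : y.re = (1 - t) * p.re + t * q.re := rfl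
    have y0 : 0 < y.im := Real.sqrt_pos.2 hr
    obtain ⟨l, hl, e⟩ := (G.img p q hp hq).superset ⟨y0, t, ⟨t0, by linarith only [t1]⟩, yr, yn⟩
    have w1 : w.re = (1 - (b + c)) * z.re + b * p.re + c * q.re := by
      rw [hb, hc]; field_simp; simp only [hd]; ring
    have w2 : normSq w = (1 - (b + c)) * normSq z + b * normSq p + c * normSq q := by
      rw [hb, hc]; field_simp; simp only [hd]; ring
    obtain ⟨s, hs, e'⟩ := (G.rimg z y hz y0).superset ⟨hw, b + c, ⟨by positivity, hbc⟩,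
      by rw [w1, yr]; linear_combination (p.re - q.re) * tc,
      by rw [w2, yn]; linear_combination (normSq p - normSq q) * tc⟩
    exact ⟨(l, s), ⟨hl, hs⟩, by rw [DD, e, e']⟩

lemma ta_sub (hz : 0 < z.im) (hy : 0 < y.im) {s' : ℝ} (hs : s ∈ Icc (0 : ℝ) 1)
    (hs' : s' ∈ Icc (0 : ℝ) 1) : ta z y s - ta z y s' =
      4 * y.im ^ 2 * nm z y (s * s') / (dn z y s * dn z y s') * (s' - s) := by
  have h1 := (dn_pos hz hy hs).ne'
  have h2 := (dn_pos hz hy hs').ne'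
  simp only [ta]
  field_simp
  simp only [dn, nm]; ring

lemma l_le (hp : 0 < p.im) (hq : 0 < q.im) {l' : ℝ} (hl : l ∈ Icc (0 : ℝ) 1)
    (hl' : l' ∈ Icc (0 : ℝ) 1) :
    |l - l'| ≤ (p.im + q.im) ^ 2 / (p.im * q.im) * |mu p q l - mu p q l'| := by
  have h1 := mu_den hp hq hl
  have h2 := mu_den hp hq hl'
  have e : l - l' = ((1 - l) * q.im + l * p.im) * ((1 - l') * q.im + l' * p.im) / (p.im * q.im) *
      (mu p q l - mu p q l') := by
    rw [mu, mu, div_sub_div _ _ h1.ne' h2.ne', div_mul_div_comm, eq_div_iff (by positivity)]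
    ring
  rw [e, abs_mul, abs_of_pos (by positivity), pow_two]
  have b : ∀ x ∈ Icc (0 : ℝ) 1, (1 - x) * q.im + x * p.im ≤ p.im + q.im := fun x hx => by
    nlinarith only [hx.1, hx.2, hp, hq]
  exact mul_le_mul_of_nonneg_right (div_le_div_of_nonneg_right
    (mul_le_mul (b l hl) (b l' hl') h2.le (by positivity)) (by positivity)) (abs_nonneg _)

lemma lip_hd (a b : ℂ) (R : ℝ) : ∃ C : ℝ, ∀ w ∈ Metric.closedBall (0 : ℂ) R,
    ∀ w' ∈ Metric.closedBall (0 : ℂ) R, |hd a b w - hd a b w'| ≤ C * ‖w - w'‖ := by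
  have h1 : ContDiff ℝ 1 (hd a b) := by
    have h2 : ContDiff ℝ 1 fun w : ℂ => w.re := reCLM.contDiff
    have h3 : ContDiff ℝ 1 fun w : ℂ => w.im := imCLM.contDiff
    unfold hd
    simp only [normSq_apply]
    fun_prop
  obtain ⟨C, hC⟩ := h1.contDiffOn.exists_lipschitzOnWith one_ne_zero (convex_closedBall 0 R)
    (isCompact_closedBall 0 R)
  exact ⟨C, fun w hw w' hw' => by simpa only [dist_eq_norm, Real.norm_eq_abs] using hC.dist_le_mul w hw w' hw'⟩

end POLx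

open POLx in
theorem POL (hT : TRI_s) (hG : GEO_s) (_hP : GEP_s) : POL_s := by
  refine ⟨fun z p q h => img hG h, fun z p q h => ?_⟩
  have ⟨hz, hp, hq, hH⟩ := h
  obtain ⟨R, hR⟩ := (hT.cpt z p q h).isBounded.subset_closedBall 0
  obtain ⟨C1, h1⟩ := lip_hd z p R
  obtain ⟨C2, h2⟩ := lip_hd p q R
  have hI : IsCompact (Icc (0 : ℝ) 1) := isCompact_Icc
  have hg : ∀ l ∈ Icc (0 : ℝ) 1, ContDiffAt ℝ 1 (geo p q) l := fun l hl =>
    ((hG.smooth p q l hp hq hl).1.of_le (by exact_mod_cast le_top)).comp l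
      (f := fun l : ℝ => (p, q, l)) (by fun_prop)
  have hre : ∀ l ∈ Icc (0 : ℝ) 1, ContDiffAt ℝ 1 (fun l => (geo p q l).re) l := fun l hl =>
    reCLM.contDiff.contDiffAt.comp l (hg l hl)
  have him : ∀ l ∈ Icc (0 : ℝ) 1, ContDiffAt ℝ 1 (fun l => (geo p q l).im) l := fun l hl =>
    imCLM.contDiff.contDiffAt.comp l (hg l hl)
  have hnm : ∀ {X : Type} [NormedAddCommGroup X] [NormedSpace ℝ X] (a b : X → ℝ) (x : X),
      a x ∈ Icc (0 : ℝ) 1 → ContDiffAt ℝ 1 a x → ContDiffAt ℝ 1 b x →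
      ContDiffAt ℝ 1 (fun x => nm z (geo p q (a x)) (b x)) x ∧
      ContDiffAt ℝ 1 (fun x => dn z (geo p q (a x)) (b x)) x ∧
      ContDiffAt ℝ 1 (fun x => (geo p q (a x)).im) x := by
    intro X _ _ a b x hx ha hb
    have e1 := (hre _ hx).comp x ha
    have e2 := (him _ hx).comp x ha
    simp only [Function.comp_def] at e1 e2
    simp only [dn, nm]
    exact ⟨by fun_prop, by fun_prop, e2⟩
  have ha : ContDiffOn ℝ 1 (fun ω : ℝ × ℝ => nm z (geo p q ω.1) ω.2 / dn z (geo p q ω.1) ω.2)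
      csq := fun ω hω => by
    obtain ⟨e1, e2, -⟩ := hnm Prod.fst Prod.snd ω hω.1 (by fun_prop) (by fun_prop)
    exact (e1.div e2 (dn_pos hz (hG.im p q _ hp hq hω.1) hω.2).ne').contDiffWithinAt
  obtain ⟨K, hK⟩ := ha.exists_lipschitzOnWith one_ne_zero ((convex_Icc 0 1).prod (convex_Icc 0 1))
    (hI.prod hI)
  obtain ⟨c1, c10, hc1⟩ := (hI.prod hI).exists_forall_le' ha.continuousOn (a := 0) fun ω hω =>
    div_pos (nm_pos hz (hG.im p q _ hp hq hω.1) hω.2.2) (dn_pos hz (hG.im p q _ hp hq hω.1) hω.2)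
  obtain ⟨c2, c20, hc2⟩ := (hI.prod (hI.prod hI)).exists_forall_le'
    (f := fun x : ℝ × ℝ × ℝ => 4 * (geo p q x.1).im ^ 2 * nm z (geo p q x.1) (x.2.1 * x.2.2) /
      (dn z (geo p q x.1) x.2.1 * dn z (geo p q x.1) x.2.2)) (a := 0) (fun x hx => by
      have hy := hG.im p q _ hp hq hx.1
      obtain ⟨e1, -, e0⟩ := hnm Prod.fst (fun x => x.2.1 * x.2.2) x hx.1 (by fun_prop) (by fun_prop)
      obtain ⟨-, e2, -⟩ := hnm Prod.fst (fun x => x.2.1) x hx.1 (by fun_prop) (by fun_prop)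
      obtain ⟨-, e3, -⟩ := hnm Prod.fst (fun x => x.2.2) x hx.1 (by fun_prop) (by fun_prop)
      exact (((contDiffAt_const.mul (e0.pow 2)).mul e1).div (e2.mul e3) (mul_pos
        (dn_pos hz hy hx.2.1) (dn_pos hz hy hx.2.2)).ne').continuousAt.continuousWithinAt)
    fun x hx => by
      have hy := hG.im p q _ hp hq hx.1
      have e1 := nm_pos hz hy (mul_le_one₀ hx.2.1.2 hx.2.2.1 hx.2.2.2)
      have e2 := dn_pos hz hy hx.2.1
      have e3 := dn_pos hz hy hx.2.2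
      positivity
  set L := (p.im + q.im) ^ 2 / (p.im * q.im) with hL
  have L0 : 0 < L := by positivity
  set A := L / c1 * ((C1 + C2) / hd z p q) with hA
  refine ⟨A + (C2 / hd z p q + K * A) / c2, fun ω hω ω' hω' => ?_⟩
  have m1 := hR ((img hG h).subset ⟨ω, hω, rfl⟩)
  have m2 := hR ((img hG h).subset ⟨ω', hω', rfl⟩)
  have b1 := h1 _ m1 _ m2
  have b2 := h2 _ m1 _ m2
  obtain ⟨e1, e2, -⟩ := hd_DD hG h hω
  obtain ⟨e1', e2', -⟩ := hd_DD hG h hω'
  rw [e1, e1', ← sub_mul, abs_mul, abs_of_pos hH, ← le_div_iff₀ hH] at b1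
  rw [e2, e2', ← sub_mul, abs_mul, abs_of_pos hH, ← le_div_iff₀ hH, sub_sub_sub_cancel_left,
    abs_sub_comm] at b2
  set N := ‖DD z p q ω - DD z p q ω'‖
  have hy := hG.im p q _ hp hq hω.1
  have hy' := hG.im p q _ hp hq hω'.1
  set τ := ta z (geo p q ω.1) ω.2 with hτ
  set τ' := ta z (geo p q ω'.1) ω'.2 with hτ'
  have s1 : 0 ≤ 1 - ω.2 := sub_nonneg.2 hω.2.2
  have k1 : τ * |mu p q ω.1 - mu p q ω'.1| ≤ (C1 + C2) / hd z p q * N := by
    obtain ⟨u0, u1⟩ := mu_mem hp hq hω'.1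
    have e : τ * (mu p q ω.1 - mu p q ω'.1) =
        (τ * mu p q ω.1 - τ' * mu p q ω'.1) - mu p q ω'.1 * (τ - τ') := by ring
    have t0 : 0 ≤ τ := (ta_mem hz hy hω.2).1
    rw [← abs_of_nonneg t0, ← abs_mul, e]
    refine (abs_sub _ _).trans ?_
    rw [abs_mul, abs_of_nonneg u0, add_div, add_mul, div_mul_eq_mul_div, div_mul_eq_mul_div]
    exact add_le_add b1 ((mul_le_of_le_one_left (abs_nonneg _) u1).trans b2)
  have k2 : (1 - ω.2) * |ω.1 - ω'.1| ≤ A * N := by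
    have t1 : (1 - ω.2) * c1 ≤ τ := mul_le_mul_of_nonneg_left (hc1 ω hω) s1
    calc (1 - ω.2) * |ω.1 - ω'.1| ≤ τ / c1 * (L * |mu p q ω.1 - mu p q ω'.1|) :=
          mul_le_mul ((le_div_iff₀ c10).2 t1) (l_le hp hq hω.1 hω'.1) (abs_nonneg _)
            (div_nonneg (ta_mem hz hy hω.2).1 c10.le)
      _ = L / c1 * (τ * |mu p q ω.1 - mu p q ω'.1|) := by ring
      _ ≤ L / c1 * ((C1 + C2) / hd z p q * N) := by gcongr
      _ = A * N := by rw [hA]; ring
  have k3 : |τ - ta z (geo p q ω'.1) ω.2| ≤ K * (A * N) := by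
    have := hK.dist_le_mul ω hω (ω'.1, ω.2) ⟨hω'.1, hω.2⟩
    rw [Prod.dist_eq, dist_self, max_eq_left dist_nonneg, Real.dist_eq, Real.dist_eq] at this
    rw [hτ, ta, ta, ← mul_sub, abs_mul, abs_of_nonneg s1]
    calc _ ≤ (1 - ω.2) * (K * |ω.1 - ω'.1|) := mul_le_mul_of_nonneg_left this s1
      _ = K * ((1 - ω.2) * |ω.1 - ω'.1|) := by ring
      _ ≤ _ := by gcongr
  have k4 : c2 * |ω.2 - ω'.2| ≤ |ta z (geo p q ω'.1) ω.2 - τ'| := by
    have := hc2 (ω'.1, ω.2, ω'.2) ⟨hω'.1, hω.2, hω'.2⟩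
    rw [hτ', ta_sub hz hy' hω.2 hω'.2, abs_mul, abs_sub_comm ω'.2]
    exact mul_le_mul_of_nonneg_right (this.trans (le_abs_self _)) (abs_nonneg _)
  have k5 : |ta z (geo p q ω'.1) ω.2 - τ'| ≤ |τ - τ'| + |τ - ta z (geo p q ω'.1) ω.2| := by
    rw [show ta z (geo p q ω'.1) ω.2 - τ' = (τ - τ') - (τ - ta z (geo p q ω'.1) ω.2) by ring]
    exact abs_sub _ _
  have k6 : |ω.2 - ω'.2| ≤ (C2 / hd z p q + K * A) / c2 * N := by
    rw [div_mul_eq_mul_div, le_div_iff₀ c20, add_mul, div_mul_eq_mul_div]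
    linarith only [b2, k3, k4, k5]
  rw [add_mul]
  exact add_le_add k2 k6

end Pool.Agent.MP_596265_gt.Hd

end

section

namespace Pool.Agent.MP_596265_gt.Hd

open MeasureTheory Set Complex Filter Topology
open scoped ComplexConjugate Matrix.Norms.Elementwise NNReal InnerProductSpace

namespace PLx

theorem pd_nn {ω : ℝ × ℝ} (h : ω ∈ csq) (ω' : ℝ × ℝ) :
    0 ≤ (1 - ω.2) * |ω.1 - ω'.1| + |ω.2 - ω'.2| := by
  have := h.2.2
  have h1 : 0 ≤ 1 - ω.2 := by linarith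
  positivity

theorem pd_le {ω : ℝ × ℝ} (h : ω ∈ csq) (ω' : ℝ × ℝ) :
    (1 - ω.2) * |ω.1 - ω'.1| + |ω.2 - ω'.2| ≤ 2 * dist ω ω' := by
  have h1 : |ω.1 - ω'.1| ≤ dist ω ω' := by
    rw [Prod.dist_eq, ← Real.dist_eq]; exact le_max_left _ _
  have h2 : |ω.2 - ω'.2| ≤ dist ω ω' := by
    rw [Prod.dist_eq, ← Real.dist_eq]; exact le_max_right _ _
  have h3 := mul_nonneg h.2.1 (abs_nonneg (ω.1 - ω'.1))
  linarith only [h1, h2, h3]

theorem pnn {V : Type} [NormedAddCommGroup V] {f : ℝ × ℝ → V} (h : PLip f) :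
    ∃ C : ℝ, 0 ≤ C ∧ ∀ ω ∈ csq, ∀ ω' ∈ csq,
      ‖f ω - f ω'‖ ≤ C * ((1 - ω.2) * |ω.1 - ω'.1| + |ω.2 - ω'.2|) := by
  obtain ⟨C, hC⟩ := h
  exact ⟨max C 0, le_max_right _ _, fun ω h ω' h' =>
    (hC ω h ω' h').trans (mul_le_mul_of_nonneg_right (le_max_left _ _) (pd_nn h ω'))⟩

theorem ext {V : Type} [NormedAddCommGroup V] (f : ℝ × ℝ → V) (h : PLip f) :
    ∃ (f' : ℝ × ℝ → V) (C : ℝ≥0), LipschitzWith C f' ∧ ∀ ω ∈ csq, f' ω = f ω := by
  obtain ⟨C, h0, hC⟩ := pnn h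
  have hm : ∀ p, U.Lip.cl2 p ∈ csq := fun p => ⟨U.Lip.cl_mem _, U.Lip.cl_mem _⟩
  refine ⟨f ∘ U.Lip.cl2, ⟨2 * C, by positivity⟩, LipschitzWith.of_dist_le_mul fun a b => ?_,
    fun ω hω => ?_⟩
  · have h1 := U.Lip.lip_cl2.dist_le_mul a b
    have h2 := hC _ (hm a) _ (hm b)
    have h3 := pd_le (hm a) (U.Lip.cl2 b)
    rw [dist_eq_norm]
    simp only [NNReal.coe_one, one_mul] at h1
    change ‖f (U.Lip.cl2 a) - f (U.Lip.cl2 b)‖ ≤ 2 * C * dist a b
    linarith only [mul_le_mul_of_nonneg_left h3 h0, mul_le_mul_of_nonneg_left h1 h0, h2]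
  · have : U.Lip.cl2 ω = ω := by
      simp only [U.Lip.cl2, U.Lip.cl]
      rw [min_eq_left hω.1.2, max_eq_right hω.1.1, min_eq_left hω.2.2, max_eq_right hω.2.1]
    simp only [Function.comp, this]

theorem sq_open : IsOpen sq := isOpen_Ioo.prod isOpen_Ioo
theorem sq_sub : sq ⊆ csq := prod_mono Ioo_subset_Icc_self Ioo_subset_Icc_self

theorem evq {V : Type} {f f' : ℝ × ℝ → V} (h : ∀ ω ∈ csq, f' ω = f ω) {ω : ℝ × ℝ} (hω : ω ∈ sq) :
    f =ᶠ[𝓝 ω] f' := by
  filter_upwards [sq_open.mem_nhds hω] with x hx using (h x (sq_sub hx)).symm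

theorem line_ev {ω : ℝ × ℝ} (hω : ω ∈ sq) (v : ℝ × ℝ) : ∀ᶠ t : ℝ in 𝓝 0, ω + t • v ∈ csq := by
  have hc : ContinuousAt (fun t : ℝ => ω + t • v) 0 := by fun_prop
  have : sq ∈ 𝓝 (ω + (0 : ℝ) • v) := by simpa only [zero_smul, add_zero] using sq_open.mem_nhds hω
  filter_upwards [hc this] with t ht using sq_sub ht

theorem bds {V : Type} [NormedAddCommGroup V] [NormedSpace ℝ V] {f : ℝ × ℝ → V} {C : ℝ}
    (h0 : 0 ≤ C) (hC : ∀ ω ∈ csq, ∀ ω' ∈ csq,
      ‖f ω - f ω'‖ ≤ C * ((1 - ω.2) * |ω.1 - ω'.1| + |ω.2 - ω'.2|)) {ω : ℝ × ℝ} (hω : ω ∈ sq) :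
    ‖r1 f ω‖ ≤ C ∧ ‖r2 f ω‖ ≤ C := by
  have hs : 0 < 1 - ω.2 := by linarith [hω.2.2]
  constructor
  · have h1 : ‖lineDeriv ℝ f ω (1, 0)‖ ≤ C * (1 - ω.2) := by
      refine norm_deriv_le_of_lip' (by positivity) ?_
      filter_upwards [line_ev hω (1, 0)] with t ht
      have := hC _ ht _ (sq_sub hω)
      simpa only [Prod.smul_mk, smul_eq_mul, mul_one, mul_zero, zero_smul, add_zero, sub_zero, Real.norm_eq_abs, mul_assoc, ge_iff_le, Prod.snd_add, Prod.fst_add, add_sub_cancel_left, sub_self, abs_zero] using this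
    rw [r1, norm_smul, Real.norm_eq_abs, abs_of_pos (inv_pos.2 hs), inv_mul_le_iff₀ hs]
    linarith
  · refine norm_deriv_le_of_lip' h0 ?_
    filter_upwards [line_ev hω (0, 1)] with t ht
    have := hC _ ht _ (sq_sub hω)
    simpa only [Prod.smul_mk, smul_eq_mul, mul_zero, mul_one, zero_smul, add_zero, sub_zero, Real.norm_eq_abs, ge_iff_le, Prod.snd_add, Prod.fst_add, sub_self, abs_zero, add_sub_cancel_left, zero_add] using this

theorem bdd {V : Type} [NormedAddCommGroup V] {f : ℝ × ℝ → V} (h : PLip f) :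
    ∃ M : ℝ, 0 ≤ M ∧ ∀ ω ∈ csq, ‖f ω‖ ≤ M := by
  obtain ⟨f', C, hl, he⟩ := ext f h
  obtain ⟨M, hM⟩ := (isCompact_Icc.prod isCompact_Icc).exists_bound_of_continuousOn
    (s := csq) hl.continuous.continuousOn
  exact ⟨max M 0, le_max_right _ _, fun ω hω => by
    rw [← he ω hω]; exact (hM ω hω).trans (le_max_left _ _)⟩

end PLx

open PLx in
theorem PL : PL_s where
  ext := fun f h => PLx.ext f h
  dif := by
    intro V _ _ _ f h
    obtain ⟨C, h0, hC⟩ := pnn h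
    obtain ⟨f', K, hl, he⟩ := PLx.ext f h
    refine ⟨C, ?_⟩
    filter_upwards [ae_restrict_of_ae (hl.ae_differentiableAt (μ := volume)),
      ae_restrict_mem sq_open.measurableSet] with ω h1 h2
    exact ⟨h1.congr_of_eventuallyEq (evq he h2), bds h0 hC h2⟩
  meas := by
    intro V _ _ _ f h
    obtain ⟨f', K, hl, he⟩ := PLx.ext f h
    have : CompleteSpace V := FiniteDimensional.complete ℝ V
    have hm : ∀ v, AEStronglyMeasurable (fun ω => lineDeriv ℝ f ω v) (volume.restrict sq) := by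
      intro v
      refine (stronglyMeasurable_lineDeriv (𝕜 := ℝ) (v := v) hl.continuous).aestronglyMeasurable.congr ?_
      filter_upwards [ae_restrict_mem sq_open.measurableSet] with ω h2
      exact ((evq he h2).lineDeriv_eq).symm
    refine ⟨AEStronglyMeasurable.smul (f := fun ω : ℝ × ℝ => (1 - ω.2)⁻¹) ?_ (hm _), hm _⟩
    exact (Measurable.aestronglyMeasurable (by fun_prop))
  bil := by
    intro V V' V'' _ _ _ _ _ _ β f f' h h'
    obtain ⟨C, h0, hC⟩ := pnn h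
    obtain ⟨C', h0', hC'⟩ := pnn h'
    obtain ⟨M, hM0, hM⟩ := bdd h
    obtain ⟨M', hM0', hM'⟩ := bdd h'
    refine ⟨‖β‖ * C * M' + ‖β‖ * M * C', fun ω hω ω' hω' => ?_⟩
    have e : β (f ω) (f' ω) - β (f ω') (f' ω') =
        β (f ω - f ω') (f' ω) + β (f ω') (f' ω - f' ω') := by
      simp only [map_sub, sub_apply]; abel
    have hp := pd_nn hω ω'
    have h1 := hC ω hω ω' hω'
    have h2 := hC' ω hω ω' hω'
    have h3 := hM ω' hω'
    have h4 := hM' ω hω
    rw [e]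
    calc _ ≤ ‖β‖ * ‖f ω - f ω'‖ * ‖f' ω‖ + ‖β‖ * ‖f ω'‖ * ‖f' ω - f' ω'‖ :=
          (norm_add_le _ _).trans (add_le_add (β.le_opNorm₂ _ _) (β.le_opNorm₂ _ _))
      _ ≤ ‖β‖ * (C * ((1 - ω.2) * |ω.1 - ω'.1| + |ω.2 - ω'.2|)) * M' +
          ‖β‖ * M * (C' * ((1 - ω.2) * |ω.1 - ω'.1| + |ω.2 - ω'.2|)) := by gcongr
      _ = _ := by ring
  comp := by
    intro V V' _ _ _ _ _ φ f h hφ
    obtain ⟨C, h0, hC⟩ := pnn h
    obtain ⟨f', K, hl, he⟩ := PLx.ext f h
    have hK : IsCompact (f '' csq) := by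
      rw [← image_congr he]
      exact (isCompact_Icc.prod isCompact_Icc).image hl.continuous
    have hloc : LocallyLipschitzOn (f '' csq) φ := by
      rintro _ ⟨ω, hω, rfl⟩
      obtain ⟨L, t, ht, hL⟩ := (hφ ω hω).exists_lipschitzOnWith
      exact ⟨L, t, mem_nhdsWithin_of_mem_nhds ht, hL⟩
    obtain ⟨L, hL⟩ := hloc.exists_lipschitzOnWith_of_compact hK
    refine ⟨L * C, fun ω hω ω' hω' => ?_⟩
    have h1 := hL.dist_le_mul _ (mem_image_of_mem f hω) _ (mem_image_of_mem f hω')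
    rw [dist_eq_norm, dist_eq_norm] at h1
    rw [mul_assoc]
    exact h1.trans (mul_le_mul_of_nonneg_left (hC ω hω ω' hω') L.coe_nonneg)

end Pool.Agent.MP_596265_gt.Hd

end

section

namespace Pool.Agent.MP_596265_gt.Hd

open MeasureTheory Set Complex Filter Topology
open scoped ComplexConjugate Matrix.Norms.Elementwise NNReal InnerProductSpace

namespace CVPx

theorem sub : sq ⊆ csq := prod_mono Ioo_subset_Icc_self Ioo_subset_Icc_self
theorem opn : IsOpen sq := isOpen_Ioo.prod isOpen_Ioo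
theorem ae_sq : ∀ᵐ ω : ℝ × ℝ, ω ∈ csq → ω ∈ sq := by
  filter_upwards [U.Lip.ae_ne2] with ω h hω
  exact ⟨⟨hω.1.1.lt_of_ne h.2.1.symm, hω.1.2.lt_of_ne h.2.2.1⟩,
    hω.2.1.lt_of_ne h.2.2.2.2.1.symm, hω.2.2.lt_of_ne h.2.2.2.2.2⟩

theorem null_img {P : ℝ × ℝ → ℂ} {s : Set (ℝ × ℝ)} (hP : DifferentiableOn ℝ P s)
    (hs : volume s = 0) : volume (P '' s) = 0 := by
  have h := addHaar_image_eq_zero_of_differentiableOn_of_addHaar_eq_zero volume
    (equivRealProdCLM.differentiable.comp_differentiableOn hP) hs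
  refine measure_mono_null ?_ (volume_preserving_equiv_real_prod.quasiMeasurePreserving.preimage_null h)
  rintro _ ⟨ω, hω, rfl⟩
  exact ⟨ω, hω, rfl⟩

theorem frame {V : Type} [NormedAddCommGroup V] [NormedSpace ℂ V] (L : ℂ →L[ℝ] V) {a b : ℂ}
    (h : 0 < jc a b) : cz a b (L a) (L b) = (1 / 2 : ℂ) • (L 1 - I • L I) ∧
      czb a b (L a) (L b) = (1 / 2 : ℂ) • (L 1 + I • L I) := by
  have e : ∀ c : ℂ, L c = (c.re : ℂ) • L 1 + (c.im : ℂ) • L I := fun c => by
    rw [coe_smul, coe_smul, ← map_smul, ← map_smul, ← map_add]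
    simp
  have h0 : a * conj b - b * conj a ≠ 0 := fun h0 => by
    have := congrArg im h0
    simp only [sub_im, mul_im, conj_im, mul_neg, conj_re, zero_im, jc, neg_mul, lt_add_neg_iff_add_lt, zero_add] at this h
    linarith
  have hI : I * I = -1 := I_mul_I
  unfold cz czb
  rw [inv_smul_eq_iff₀ h0, inv_smul_eq_iff₀ h0, e a, e b, re_eq_add_conj, re_eq_add_conj,
    im_eq_sub_conj, im_eq_sub_conj]
  constructor <;> match_scalars <;> field_simp <;> grind

theorem chain {V : Type} [NormedAddCommGroup V] [NormedSpace ℂ V] {Y : ℂ → V} {U : ℝ × ℝ → V}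
    {P : ℝ × ℝ → ℂ} {A : ℝ × ℝ →L[ℝ] ℂ} {ω : ℝ × ℝ} {a b : ℂ} (hY : DifferentiableAt ℝ Y (P ω))
    (hP : HasFDerivAt P A ω) (ha : A (1, 0) = (1 - ω.2 : ℝ) * a) (hb : A (0, 1) = b) (hω : ω.2 < 1)
    (h : 0 < jc a b) (hU : U =ᶠ[𝓝 ω] fun ω => Y (P ω)) :
    cz a b (r1 U ω) (r2 U ω) = dz Y (P ω) ∧ czb a b (r1 U ω) (r2 U ω) = dzb Y (P ω) := by
  have h3 : HasFDerivAt U (fderiv ℝ Y (P ω) ∘L A) ω :=
    (hY.hasFDerivAt.comp ω hP).congr_of_eventuallyEq hU
  rw [r1, r2, (h3.hasLineDerivAt _).lineDeriv, (h3.hasLineDerivAt _).lineDeriv,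
    ContinuousLinearMap.comp_apply, ContinuousLinearMap.comp_apply, ha, hb, ← real_smul, map_smul,
    inv_smul_smul₀ (sub_pos.2 hω).ne']
  exact frame _ h

end CVPx

open CVPx U.Lip in
theorem CVP (hT : TRI_s) (hA : TRA_s) (_hG : GEO_s) (hP : GEP_s) (hL : POL_s) : CVP_s := by
  have key : ∀ z p q, PosT z p q → ∃ A : ℝ × ℝ → ℝ × ℝ →L[ℝ] ℂ,
      (∀ ω ∈ csq, HasFDerivAt (DD z p q) (A ω) ω ∧ A ω (1, 0) = (1 - ω.2 : ℝ) * e1 z p q ω ∧
        A ω (0, 1) = e2 z p q ω) ∧ InjOn (DD z p q) sq ∧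
      (∀ ω ∈ sq, 0 < jac (A ω) ∧ jac (A ω) = rj z p q ω ^ 2) ∧
      ∀ P : ℂ → Prop, (∀ᵐ ω ∂volume.restrict sq, P (DD z p q ω)) → ∀ᵐ w, w ∈ tri z p q → P w := by
    intro z p q h
    choose! A hA using fun ω => hP.der z p q ω h.1 h.2.1 h.2.2.1
    obtain ⟨C, hC⟩ := hL.inj z p q h
    refine ⟨A, hA, fun ω hω ω' hω' e => ?_, fun ω hω => ?_, fun P hp => ?_⟩
    · have h1 := hC ω (sub hω) ω' (sub hω')
      rw [e, sub_self, norm_zero, mul_zero] at h1
      have h2 : 0 < 1 - ω.2 := sub_pos.2 hω.2.2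
      have h3 := mul_nonneg h2.le (abs_nonneg (ω.1 - ω'.1))
      have h4 := abs_nonneg (ω.2 - ω'.2)
      have h5 : (1 - ω.2) * |ω.1 - ω'.1| = 0 := by linarith
      exact Prod.ext (sub_eq_zero.1 (abs_eq_zero.1 ((mul_eq_zero.1 h5).resolve_left h2.ne')))
        (sub_eq_zero.1 (abs_eq_zero.1 (by linarith)))
    · have h1 := mul_pos (sub_pos.2 hω.2.2) (hP.jpos z p q ω h (sub hω))
      have h2 : jac (A ω) = (1 - ω.2) * jc (e1 z p q ω) (e2 z p q ω) := by
        rw [jac, (hA ω (sub hω)).2.1, (hA ω (sub hω)).2.2, re_ofReal_mul, im_ofReal_mul, jc, mul_im,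
          conj_re, conj_im]
        ring
      rw [h2, rj, Real.sq_sqrt h1.le]
      exact ⟨h1, rfl⟩
    · have h1 : volume {ω | ¬(ω ∈ csq → P (DD z p q ω))} = 0 := by
        rw [← ae_iff]
        filter_upwards [(ae_restrict_iff' opn.measurableSet).1 hp, ae_sq] with ω h1 h2 h3
        exact h1 (h2 h3)
      refine measure_mono_null (fun w hw => ?_) (null_img (P := DD z p q)
        (fun ω hω => (hA ω (Classical.not_imp.1 hω).1).1.differentiableAt.differentiableWithinAt) h1)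
      obtain ⟨h2, h3⟩ := Classical.not_imp.1 hw
      rw [← hL.img z p q h] at h2
      obtain ⟨ω, hω, rfl⟩ := h2
      exact ⟨ω, fun h4 => h3 (h4 hω), rfl⟩
  have ae : ∀ z p q (P : ℂ → Prop), PosT z p q →
      ((∀ᵐ w ∂volume.restrict (tri z p q), P w) ↔ ∀ᵐ ω ∂volume.restrict sq, P (DD z p q ω)) := by
    intro z p q P h
    obtain ⟨A, h1, h2, h3, h4⟩ := key z p q h
    rw [ae_restrict_iff' (hT.cpt z p q h).measurableSet]
    refine ⟨fun hp => ?_, h4 P⟩
    filter_upwards [ae_pull_C opn.measurableSet (fun ω hω => (h1 ω (sub hω)).1.hasFDerivWithinAt) h2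
      (fun ω hω => (h3 ω hω).1.ne') hp, ae_restrict_mem opn.measurableSet] with ω h5 h6
    exact h5 (hL.img z p q h ▸ mem_image_of_mem _ (sub h6))
  refine ⟨fun z p q f h => ?_, ae, fun z p q Y U h hY hU => ?_⟩
  · obtain ⟨A, h1, h2, h3, h4⟩ := key z p q h
    have h5 : tri z p q =ᵐ[volume] DD z p q '' sq := by
      filter_upwards [h4 (· ∈ DD z p q '' sq)
        ((ae_restrict_mem opn.measurableSet).mono fun ω => mem_image_of_mem _)] with w hw
      exact propext ⟨hw, fun h6 => hL.img z p q h ▸ image_mono sub h6⟩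
    have h6 : EqOn (fun ω => |jac (A ω)| • f (DD z p q ω))
        (fun ω => (rj z p q ω ^ 2 : ℝ) * f (DD z p q ω)) sq := fun ω hω => by
      simp only [(h3 ω hω).2, abs_sq, real_smul]
    have h7 := fun ω hω => (h1 ω (sub hω)).1.hasFDerivWithinAt (s := sq)
    refine ⟨?_, ?_⟩
    · rw [setIntegral_congr_set h5, cv opn.measurableSet h7 h2,
        setIntegral_congr_fun opn.measurableSet h6]
    · rw [integrableOn_congr_set_ae h5, cv_int opn.measurableSet h7 h2,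
        integrableOn_congr_fun h6 opn.measurableSet]
  · obtain ⟨A, h1, -⟩ := key z p q h
    obtain ⟨C, hC⟩ := hA.dif z p q Y h hY
    filter_upwards [(ae z p q _ h).1 hC, ae_restrict_mem opn.measurableSet] with ω h2 hω
    obtain ⟨a1, a2, a3⟩ := h1 ω (sub hω)
    obtain ⟨f1, f2⟩ : cz (e1 z p q ω) (e2 z p q ω) (r1 U ω) (r2 U ω) = dz Y (DD z p q ω) ∧
        czb (e1 z p q ω) (e2 z p q ω) (r1 U ω) (r2 U ω) = dzb Y (DD z p q ω) :=
      chain h2.1 a1 a2 a3 hω.2.2 (hP.jpos z p q ω h (sub hω))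
        ((opn.eventually_mem hω).mono fun ω' h' => hU ω' (sub h'))
    rw [dq, JJ, f1, f2, smul_smul, ← ofReal_mul, ← Real.sqrt_mul (sub_pos.2 hω.2.2).le]
    rfl

end Pool.Agent.MP_596265_gt.Hd

end

section

/-! Block H, row SP: sections on stars and on squares. -/

namespace Pool.Agent.MP_596265_gt.Hd

open MeasureTheory Set Complex Filter Topology
open scoped ComplexConjugate Matrix.Norms.Elementwise NNReal InnerProductSpace

namespace SPx

variable {Dt : Type} {nx rv : Dt → Dt} {g : Dt → G} {c : Dt → ℂ} {z : ℂ}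

theorem pos (H : Star nx rv g c z) (d : Dt) : PosT z (c (nx (rv d))) (c d) :=
  ⟨H.im, H.cim _, H.cim _, H.spos d⟩

theorem rad (hG : GEO_s) (H : Star nx rv g c z) (d : Dt) (s : ℝ) :
    Dd nx rv c z d (0, s) = ray z (c (nx (rv d))) s ∧
      Dd nx rv c z (nx (rv d)) (1, s) = ray z (c (nx (rv d))) s := by
  simp only [Dd, DD, (hG.zero _ _ (H.cim _) (H.cim _)).1, (hG.zero _ _ (H.cim _) (H.cim _)).2,
    and_self]

theorem base (hA : ALG_s) (hG : GEO_s) (H : Star nx rv g c z) (d : Dt) {l : ℝ}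
    (hl : l ∈ Icc (0 : ℝ) 1) :
    Dd nx rv c z d (l, 0) = mob (g d) (geo (c (rv d)) (c (nx d)) l) ∧
      Dd nx rv c z (rv d) (1 - l, 0) = geo (c (rv d)) (c (nx d)) l := by
  have e : mob (g d) (c (rv d)) = c (nx (rv d)) := by
    rw [H.crot (rv d), ← hA.mob_mul _ _ _ (H.cim _).ne']
    rcases H.gr d with h | h <;> rw [h]
    · exact hA.mob_one _
    · rw [hA.mob_neg, hA.mob_one]
  rw [hG.eqv _ _ _ _ (H.cim _) (H.cim _) hl, e, ← H.crot d]
  simp only [Dd, DD, H.r2, hG.symm _ _ _ (H.cim _) (H.cim _) hl,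
    (hG.ray0 z _ H.im (hG.im _ _ _ (H.cim _) (H.cim _) hl)).1, and_self]

theorem nng {ω ω' : ℝ × ℝ} (h : ω ∈ csq) : 0 ≤ (1 - ω.2) * |ω.1 - ω'.1| + |ω.2 - ω'.2| :=
  add_nonneg (mul_nonneg (sub_nonneg.2 h.2.2) (abs_nonneg _)) (abs_nonneg _)

end SPx

open SPx in
theorem SP (hALG : ALG_s) (_hTRI : TRI_s) (hGEO : GEO_s) (hGEP : GEP_s) (hPOL : POL_s) : SP_s where
  sp nx rv g c z v Y H hY := by
    refine ⟨fun d => ?_, fun d s hs => ?_, fun d l hl => ?_⟩
    · obtain ⟨C, hC⟩ := hY.lip d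
      obtain ⟨C', hC'⟩ := hGEP.plip z _ _ H.im (H.cim (nx (rv d))) (H.cim d)
      have m : ∀ ω ∈ csq, Dd nx rv c z d ω ∈ str nx rv c z d := fun ω h =>
        (hPOL.img _ _ _ (pos H d)).subset ⟨ω, h, rfl⟩
      refine ⟨C * C', fun ω h ω' h' => (hC.norm_sub_le (m ω h) (m ω' h')).trans ?_⟩
      rw [mul_assoc]
      exact mul_le_mul_of_nonneg_left (hC' ω h ω' h') C.2
    · simp only [(rad hGEO H d s).1, (rad hGEO H d s).2]
      exact hY.rad d _ ((hGEO.rimg _ _ H.im (H.cim _)).subset ⟨s, hs, rfl⟩)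
    · simp only [(base hALG hGEO H d hl).1, (base hALG hGEO H d hl).2]
      exact hY.base d _ ((hGEO.img _ _ (H.cim _) (H.cim _)).subset ⟨l, hl, rfl⟩)
  ps nx rv g c z v U H hU := by
    have key : ∀ d, ∃ C : ℝ≥0, ∀ ω ∈ csq, ∀ ω' ∈ csq,
        ‖U d ω - U d ω'‖ ≤ C * ‖Dd nx rv c z d ω - Dd nx rv c z d ω'‖ := fun d => by
      obtain ⟨C, hC⟩ := hU.lip d
      obtain ⟨C', hC'⟩ := hPOL.inj _ _ _ (pos H d)
      refine ⟨‖C‖₊ * ‖C'‖₊, fun ω h ω' h' => (hC ω h ω' h').trans ?_⟩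
      rw [NNReal.coe_mul, mul_assoc]
      exact mul_le_mul (le_abs_self C) ((hC' ω h ω' h').trans
        (mul_le_mul_of_nonneg_right (le_abs_self C') (norm_nonneg _))) (nng h) (abs_nonneg C)
    have hY : ∀ d, ∀ ω ∈ csq,
        U d ω = U d (Function.invFunOn (Dd nx rv c z d) csq (Dd nx rv c z d ω)) := fun d ω h => by
      obtain ⟨C, hC⟩ := key d
      have := hC ω h _ (Function.invFunOn_apply_mem (f := Dd nx rv c z d) h)
      rwa [Function.invFunOn_apply_eq (f := Dd nx rv c z d) h, sub_self, norm_zero, mul_zero, norm_le_zero_iff,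
        sub_eq_zero] at this
    have m0 : (0 : ℝ) ∈ Icc (0 : ℝ) 1 := left_mem_Icc.2 zero_le_one
    have m1 : (1 : ℝ) ∈ Icc (0 : ℝ) 1 := right_mem_Icc.2 zero_le_one
    refine ⟨fun d w => U d (Function.invFunOn (Dd nx rv c z d) csq w),
      ⟨fun d => ?_, fun d w hw => ?_, fun d w hw => ?_⟩, hY⟩
    · obtain ⟨C, hC⟩ := key d
      refine ⟨C, LipschitzOnWith.of_dist_le_mul fun w hw w' hw' => ?_⟩
      obtain ⟨ω, h, rfl⟩ := (hPOL.img _ _ _ (pos H d)).superset hw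
      obtain ⟨ω', h', rfl⟩ := (hPOL.img _ _ _ (pos H d)).superset hw'
      rw [dist_eq_norm, dist_eq_norm]
      exact (congrArg₂ (‖· - ·‖) (hY d ω h) (hY d ω' h')).symm.trans_le (hC ω h ω' h')
    · obtain ⟨s, hs, rfl⟩ := (hGEO.rimg _ _ H.im (H.cim _)).superset hw
      have e1 := hY d (0, s) ⟨m0, hs⟩
      have e2 := hY (nx (rv d)) (1, s) ⟨m1, hs⟩
      rw [(rad hGEO H d s).1] at e1
      rw [(rad hGEO H d s).2] at e2
      exact e1.symm.trans ((hU.rad d s hs).trans e2)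
    · obtain ⟨l, hl, rfl⟩ := (hGEO.img _ _ (H.cim _) (H.cim _)).superset hw
      have e1 := hY d (l, 0) ⟨hl, m0⟩
      have e2 := hY (rv d) (1 - l, 0) ⟨⟨sub_nonneg.2 hl.2, sub_le_self _ hl.1⟩, m0⟩
      rw [(base hALG hGEO H d hl).1] at e1
      rw [(base hALG hGEO H d hl).2] at e2
      exact e1.symm.trans ((hU.base d l hl).trans (by rw [e2]))

end Pool.Agent.MP_596265_gt.Hd

end

section

/-! Block H, row EQ: the face model and the polar model give the same energy. -/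

namespace Pool.Agent.MP_596265_gt.Hd

open MeasureTheory Set Complex Filter Topology
open scoped ComplexConjugate Matrix.Norms.Elementwise NNReal InnerProductSpace Pointwise

namespace EQx

variable {Dt : Type} [Fintype Dt] {nx rv : Dt → Dt} {g : Dt → G} {c : Dt → ℂ} {z : ℂ}

omit [Fintype Dt] in
lemma posF (hA : ALG_s) (h : Ok nx rv g z) (d : Dt) :
    PosT z (mob (g d) z) (mob (g d * g (nx d)) z) :=
  ⟨h.im, hA.mob_pos _ _ h.im, hA.mob_pos _ _ h.im, h.pos d⟩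

omit [Fintype Dt] in
lemma posS (h : Star nx rv g c z) (d : Dt) : PosT z (c (nx (rv d))) (c d) :=
  ⟨h.im, h.cim _, h.cim _, h.spos d⟩

lemma dz_congr {V : Type} [NormedAddCommGroup V] [NormedSpace ℂ V] {W W' : ℂ → V} {w : ℂ}
    (h : W =ᶠ[𝓝 w] W') : dz W w = dz W' w ∧ dzb W w = dzb W' w := by
  have e : fderiv ℝ W w = fderiv ℝ W' w := h.fderiv_eq
  rw [dz, dz, dzb, dzb, e]
  exact ⟨rfl, rfl⟩

lemma dF_congr {W W' : ℂ → Mat} {w : ℂ} (h : W =ᶠ[𝓝 w] W') : dF W w = dF W' w := by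
  rw [dF, dF, (dz_congr h).1, (dz_congr h).2]

omit [Fintype Dt] in
lemma lk_of_rel (hP : POL_s) (h : Star nx rv g c z) {W Y : Dt → ℂ → Mat} {U : Dt → ℝ × ℝ → Mat}
    (hR : Rel nx rv g c z W Y) (hU : ∀ d, ∀ ω ∈ csq, U d ω = Y d (Dd nx rv c z d ω)) :
    Lk nx rv g c z W U := by
  intro d ω hω
  have hm : Dd nx rv c z d ω ∈ str nx rv c z d := by
    have := hP.img _ _ _ (posS h d)
    rw [str, ← this]
    exact mem_image_of_mem _ hω
  rw [hU d ω hω]
  exact hR d _ hm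

omit [Fintype Dt] in
lemma rel_of_lk (hP : POL_s) (h : Star nx rv g c z) {W Y : Dt → ℂ → Mat} {U : Dt → ℝ × ℝ → Mat}
    (hL : Lk nx rv g c z W U) (hU : ∀ d, ∀ ω ∈ csq, U d ω = Y d (Dd nx rv c z d ω)) :
    Rel nx rv g c z W Y := by
  intro d w hw
  have := hP.img _ _ _ (posS h d)
  rw [str, ← this] at hw
  obtain ⟨ω, hω, rfl⟩ := hw
  have h1 := hL d ω hω
  rw [hU d ω hω] at h1
  exact h1

/-- The pointwise pairing. -/
noncomputable def rho (κ : Ix → ℂ) (W W' : ℂ → Mat) (w : ℂ) : ℂ := ⟪dF W w, dg κ (dF W' w)⟫_ℂ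

lemma rho_int (hTA : TRA_s) (κ : Ix → ℂ) {p q r : ℂ} (h : PosT p q r) {W W' : ℂ → Mat}
    (hW : Lip W (tri p q r)) (hW' : Lip W' (tri p q r)) : IntegrableOn (rho κ W W') (tri p q r) := by
  have h1 := hTA.mem p q r W h hW
  have h2 := (dg κ).comp_memLp' (hTA.mem p q r W' h hW')
  have h3 := L2.integrable_inner (𝕜 := ℂ) (h1.toLp _) (h2.toLp _)
  refine h3.congr ?_
  filter_upwards [h1.coeFn_toLp, h2.coeFn_toLp] with w e1 e2
  rw [e1, e2]
  rfl

lemma mul_const (hM : MUL_s) {X : Type} [MeasurableSpace X] (μ : Measure X) (T : E8 →L[ℂ] E8)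
    (x : Lp E8 2 μ) : mul μ (fun _ => T) x =ᵐ[μ] fun ω => T (x ω) :=
  hM.ae μ (fun _ => T) ‖T‖ aestronglyMeasurable_const (Eventually.of_forall fun _ => le_rfl) x

lemma inn_T (hA : ALG_s) (hM : MUL_s) (hTA : TRA_s) (h : Ok nx rv g z) (κ : Ix → ℂ)
    {W W' : Dt → ℂ → Mat} (hW : ∀ d, Lip (W d) (face nx g z d))
    (hW' : ∀ d, Lip (W' d) (face nx g z d)) :
    ⟪dT nx g z W, dgT nx g z κ (dT nx g z W')⟫_ℂ =
      ∑ d, ∫ w in face nx g z d, rho κ (W d) (W' d) w := by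
  rw [PiLp.inner_apply]
  refine Finset.sum_congr rfl fun d _ => ?_
  rw [L2.inner_def]
  refine integral_congr_ae ?_
  have e : dgT nx g z κ (dT nx g z W') d =
      mul (volume.restrict (face nx g z d)) (fun _ => dg κ) (dT nx g z W' d) :=
    hM.dia_apply _ _ d
  rw [e]
  filter_upwards [mul_const hM _ (dg κ) (dT nx g z W' d),
    hM.cls_ae _ _ (hTA.mem _ _ _ _ (posF hA h d) (hW d)),
    hM.cls_ae _ _ (hTA.mem _ _ _ _ (posF hA h d) (hW' d))] with w e1 e2 e3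
  rw [e1]
  have a1 : dT nx g z W d w = dF (W d) w := e2
  have a2 : dT nx g z W' d w = dF (W' d) w := e3
  rw [a1, a2]
  rfl

lemma inn_P (hM : MUL_s) (hPM : PM_s) (hC : CVP_s) (h : Star nx rv g c z) (κ : Ix → ℂ)
    {Y Y' : Dt → ℂ → Mat} {U U' : Dt → ℝ × ℝ → Mat} (hY : ∀ d, Lip (Y d) (str nx rv c z d))
    (hY' : ∀ d, Lip (Y' d) (str nx rv c z d)) (hU : ∀ d, PLip (U d)) (hU' : ∀ d, PLip (U' d))
    (e : ∀ d, ∀ ω ∈ csq, U d ω = Y d (Dd nx rv c z d ω))
    (e' : ∀ d, ∀ ω ∈ csq, U' d ω = Y' d (Dd nx rv c z d ω)) :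
    ⟪dP nx rv c z U, dgP κ (dP nx rv c z U')⟫_ℂ =
      ∑ d, ∫ w in str nx rv c z d, rho κ (Y d) (Y' d) w := by
  rw [hM.inn]
  refine Finset.sum_congr rfl fun d _ => ?_
  rw [str, (hC.int _ _ _ (rho κ (Y d) (Y' d)) (posS h d)).1]
  refine integral_congr_ae ?_
  filter_upwards [hM.mp_ae (fun _ _ => dg κ) (fun _ => continuousOn_const) (dP nx rv c z U') d,
    hM.cls_ae _ _ (hPM.mem _ _ _ _ (posS h d) (hU d)),
    hM.cls_ae _ _ (hPM.mem _ _ _ _ (posS h d) (hU' d)),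
    hC.jet _ _ _ _ _ (posS h d) (hY d) (e d), hC.jet _ _ _ _ _ (posS h d) (hY' d) (e' d)]
    with ω e1 e2 e3 e4 e5
  have a0 : dgP κ (dP nx rv c z U') d ω = dg κ (dP nx rv c z U' d ω) := e1
  have a1 : dP nx rv c z U d ω = dq z (c (nx (rv d))) (c d) (U d) ω := e2
  have a2 : dP nx rv c z U' d ω = dq z (c (nx (rv d))) (c d) (U' d) ω := e3
  rw [a0, a1, a2, e4, e5, map_smul, inner_smul_left, inner_smul_right, conj_ofReal, rho]
  push_cast
  ring

omit [Fintype Dt] in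
lemma dF_rot (hA : ALG_s) (hT : TRI_s) (hTA : TRA_s) (h : Ok nx rv g z) {v : Dt → Mat}
    {W : Dt → ℂ → Mat} (hW : Adm nx rv g z v W) (d : Dt) :
    ∀ᵐ w ∂volume.restrict (face nx g z (nx d)), 0 < w.im ∧ ∀ k,
      dF (W d) (mob (g d) w) k = ph (g d) w k * dF (W (nx d)) w k := by
  obtain ⟨C, hC⟩ := hTA.dif _ _ _ _ (posF hA h (nx d)) (hW.lip (nx d))
  filter_upwards [hC, hT.nhd _ _ _ (posF hA h (nx d))] with w h1 h2
  have hw : 0 < w.im := (mem_of_mem_nhds h2).1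
  refine ⟨hw, fun k => ?_⟩
  rw [← hTA.df_tp (g d) (v d) (W (nx d)) w k hw h1.1]
  have hp : 0 < (mob (g d) w).im := hA.mob_pos _ _ hw
  have hb : mob (g d)⁻¹ (mob (g d) w) = w := by
    rw [← hA.mob_mul _ _ _ hw.ne', inv_mul_cancel, hA.mob_one]
  have hc : ContinuousAt (mob (g d)⁻¹) (mob (g d) w) := (hA.mob_der _ _ hp.ne').continuousAt
  have h3 : ∀ᶠ u in 𝓝 (mob (g d) w), mob (g d)⁻¹ u ∈ face nx g z (nx d) := by
    apply hc.eventually_mem
    rw [hb]
    exact h2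
  have h4 : ∀ᶠ u in 𝓝 (mob (g d) w), 0 < u.im :=
    continuous_im.continuousAt.eventually (lt_mem_nhds hp)
  have h5 : W d =ᶠ[𝓝 (mob (g d) w)] tp (g d) (v d) (W (nx d)) := by
    filter_upwards [h3, h4] with u a1 a2
    have := hW.rot d _ a1
    rw [← hA.mob_mul _ _ _ a2.ne', mul_inv_cancel, hA.mob_one] at this
    exact this
  rw [dF_congr h5]

lemma inner_ph (hA : ALG_s) (κ a : Ix → ℂ) (r : ℝ) (ha : ∀ k, ‖a k‖ = r) {x y x' y' : E8}
    (hx : ∀ k, x' k = a k * x k) (hy : ∀ k, y' k = a k * y k) :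
    ⟪x', dg κ y'⟫_ℂ = ((r ^ 2 : ℝ) : ℂ) * ⟪x, dg κ y⟫_ℂ := by
  rw [PiLp.inner_apply, PiLp.inner_apply, Finset.mul_sum]
  refine Finset.sum_congr rfl fun k _ => ?_
  have e : a k * conj (a k) = ((r ^ 2 : ℝ) : ℂ) := by
    rw [mul_conj, normSq_eq_norm_sq, ha]
  rw [hA.dg_apply, hA.dg_apply, hx, hy, ← e]
  simp only [RCLike.inner_apply, map_mul]
  ring

omit [Fintype Dt] in
lemma dF_rel (hA : ALG_s) (hT : TRI_s) (h : Star nx rv g c z) (d : Dt) :
    ∀ᵐ w ∂volume.restrict (str nx rv c z d), ∀ W Y : Dt → ℂ → Mat, Rel nx rv g c z W Y →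
      (w ∈ face nx g z d → dF (Y d) w = dF (W d) w) ∧
      (w ∈ face nx g z (nx (rv d)) → dF (Y d) w = dF (W (nx (rv d))) w) := by
  have key : ∀ e, ∀ᵐ w : ℂ, w ∈ face nx g z e → face nx g z e ∈ 𝓝 w := fun e =>
    (ae_restrict_iff' (hT.cpt _ _ _ (posF hA h.toOk e)).isClosed.measurableSet).1
      (hT.nhd _ _ _ (posF hA h.toOk e))
  filter_upwards [hT.nhd _ _ _ (posS h d), ae_restrict_of_ae (key d),
    ae_restrict_of_ae (key (nx (rv d)))] with w h1 h2 h3 W Y hR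
  refine ⟨fun hw => dF_congr ?_, fun hw => dF_congr ?_⟩
  · filter_upwards [h1, h2 hw] with u a1 a2 using (hR d u a1).1 a2
  · filter_upwards [h1, h3 hw] with u a1 a2 using (hR d u a1).2 a2

lemma dg_one (hA : ALG_s) (x : E8) : dg (fun _ => 1) x = x := by
  ext k
  rw [hA.dg_apply, one_mul]

lemma dgT_one (hA : ALG_s) (hM : MUL_s) (x : HT nx g z) : dgT nx g z (fun _ => 1) x = x := by
  ext1 d
  have e : dgT nx g z (fun _ => 1) x d =
      mul (volume.restrict (face nx g z d)) (fun _ => dg fun _ => 1) (x d) := hM.dia_apply _ _ d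
  rw [e]
  refine Lp.ext ?_
  filter_upwards [mul_const hM _ (dg fun _ => 1) (x d)] with w e1
  rw [e1, dg_one hA]

lemma dgP_one (hA : ALG_s) (hM : MUL_s) (x : HP Dt) : dgP (fun _ => 1) x = x := by
  ext1 d
  refine Lp.ext ?_
  filter_upwards [hM.mp_ae (fun _ _ => dg fun _ => 1) (fun _ => continuousOn_const) x d] with w e1
  exact e1.trans (dg_one hA _)

end EQx

open EQx in
theorem EQ (hA : ALG_s) (hM : MUL_s) (hT : TRI_s) (hTA : TRA_s) (_hI : INC_s) (hFS : FS_s)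
    (hSF : SF_s) (hD : DENS_s) (hP : POL_s) (hPM : PM_s) (hC : CVP_s) (hSP : SP_s) : EQ_s := by
  have fp : ∀ {Dt : Type} [Fintype Dt] (nx rv : Dt → Dt) g c z v W, Star nx rv g c z →
      Adm nx rv g z v W → ∃ U, PAdm nx rv g v U ∧ Lk nx rv g c z W U := by
    intro Dt _ nx rv g c z v W h hW
    obtain ⟨Y, hY, hR⟩ := hFS nx rv g c z v W h hW
    exact ⟨_, hSP.sp nx rv g c z v Y h hY, lk_of_rel hP h hR fun _ _ _ => rfl⟩
  have pf : ∀ {Dt : Type} [Fintype Dt] (nx rv : Dt → Dt) g c z v U, Star nx rv g c z →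
      Coc nx rv g v → PAdm nx rv g v U → ∃ W, Adm nx rv g z v W ∧ Lk nx rv g c z W U := by
    intro Dt _ nx rv g c z v U h hv hU
    obtain ⟨Y, hY, e⟩ := hSP.ps nx rv g c z v U h hU
    obtain ⟨W, hW, hR⟩ := hSF nx rv g c z v Y h hv hY
    exact ⟨W, hW, lk_of_rel hP h hR e⟩
  have inn : ∀ {Dt : Type} [Fintype Dt] (nx rv : Dt → Dt) g c z v v' W W' U U' κ,
      Star nx rv g c z → Adm nx rv g z v W → Adm nx rv g z v' W' → PAdm nx rv g v U →
      PAdm nx rv g v' U' → Lk nx rv g c z W U → Lk nx rv g c z W' U' →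
      ⟪dT nx g z W, dgT nx g z κ (dT nx g z W')⟫_ℂ =
        3 * ⟪dP nx rv c z U, dgP κ (dP nx rv c z U')⟫_ℂ := by
    intro Dt _ nx rv g c z v v' W W' U U' κ h hW hW' hU hU' hL hL'
    obtain ⟨Y, hY, e⟩ := hSP.ps nx rv g c z v U h hU
    obtain ⟨Y', hY', e'⟩ := hSP.ps nx rv g c z v' U' h hU'
    rw [inn_T hA hM hTA h.toOk κ hW.lip hW'.lip,
      inn_P hM hPM hC h κ hY.lip hY'.lip hU.lip hU'.lip e e']
    refine (hD nx rv g c z (fun d => rho κ (W d) (W' d)) (fun d => rho κ (Y d) (Y' d)) h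
      (fun d => rho_int hTA κ (posF hA h.toOk d) (hW.lip d) (hW'.lip d)) (fun d => ?_)
      (fun d => ?_)).2
    · filter_upwards [dF_rot hA hT hTA h.toOk hW d, dF_rot hA hT hTA h.toOk hW' d] with w a1 a2
      exact inner_ph hA κ (ph (g d) w) _ (fun k => hA.ph_norm _ _ k a1.1.ne') a1.2 a2.2
    · filter_upwards [dF_rel hA hT h d] with w a
      have b1 := a W Y (rel_of_lk hP h hL e)
      have b2 := a W' Y' (rel_of_lk hP h hL' e')
      exact ⟨fun hw => by rw [rho, rho, b1.1 hw, b2.1 hw],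
        fun hw => by rw [rho, rho, b1.2 hw, b2.2 hw]⟩
  have hen : ∀ {Dt : Type} [Fintype Dt] (nx rv : Dt → Dt) g z v W, Ok nx rv g z →
      Adm nx rv g z v W → en nx g z W = ‖dT nx g z W‖ ^ 2 := by
    intro Dt _ nx rv g z v W h hW
    have h1 := inn_T hA hM hTA h (fun _ => 1) hW.lip hW.lip
    rw [dgT_one hA hM, inner_self_eq_norm_sq_to_K] at h1
    have h2 : ((en nx g z W : ℝ) : ℂ) =
        ∑ d, ∫ w in face nx g z d, rho (fun _ => 1) (W d) (W d) w := by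
      rw [en, ofReal_sum]
      refine Finset.sum_congr rfl fun d _ => ?_
      rw [← integral_complex_ofReal]
      refine integral_congr_ae (Eventually.of_forall fun w => ?_)
      simp only [rho, dg_one hA, inner_self_eq_norm_sq_to_K]
      push_cast
      rfl
    rw [← h1] at h2
    have h3 : ((en nx g z W : ℝ) : ℂ) = ((‖dT nx g z W‖ ^ 2 : ℝ) : ℂ) := by
      rw [h2]; push_cast; rfl
    exact_mod_cast h3
  have h3 : ∀ {Dt : Type} [Fintype Dt] (nx rv : Dt → Dt) g c z v W U, Star nx rv g c z →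
      Adm nx rv g z v W → PAdm nx rv g v U → Lk nx rv g c z W U →
      en nx g z W = 3 * ‖dP nx rv c z U‖ ^ 2 := by
    intro Dt _ nx rv g c z v W U h hW hU hL
    have h1 := inn nx rv g c z v v W W U U (fun _ => 1) h hW hW hU hU hL hL
    rw [dgT_one hA hM, dgP_one hA hM, inner_self_eq_norm_sq_to_K,
      inner_self_eq_norm_sq_to_K] at h1
    rw [hen nx rv g z v W h.toOk hW]
    have h2 : ((‖dT nx g z W‖ ^ 2 : ℝ) : ℂ) = ((3 * ‖dP nx rv c z U‖ ^ 2 : ℝ) : ℂ) := by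
      push_cast; exact h1
    exact_mod_cast h2
  refine ⟨fp, pf, inn, hen, ?_⟩
  intro Dt _ nx rv g c z v h hv
  have e : {e | ∃ W, Adm nx rv g z v W ∧ e = en nx g z W} =
      (3 : ℝ) • {e | ∃ U, PAdm nx rv g v U ∧ e = ‖dP nx rv c z U‖ ^ 2} := by
    ext t
    constructor
    · rintro ⟨W, hW, rfl⟩
      obtain ⟨U, hU, hL⟩ := fp nx rv g c z v W h hW
      exact ⟨_, ⟨U, hU, rfl⟩, (h3 nx rv g c z v W U h hW hU hL).symm⟩
    · rintro ⟨_, ⟨U, hU, rfl⟩, rfl⟩
      obtain ⟨W, hW, hL⟩ := pf nx rv g c z v U h hv hU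
      exact ⟨W, hW, (h3 nx rv g c z v W U h hW hU hL).symm⟩
  rw [Fn, e, Real.sInf_smul_of_nonneg (by norm_num), Fp, smul_eq_mul]

end Pool.Agent.MP_596265_gt.Hd

end

section

/-! Limits of differentials on the faces and on the squares. -/

namespace Pool.Agent.MP_596265_gt.Hd

open MeasureTheory Set Complex Filter Topology
open scoped ComplexConjugate Matrix.Norms.Elementwise NNReal InnerProductSpace

namespace LINKx

theorem two_seq {X Y : Type} [MeasurableSpace X] [MeasurableSpace Y] {μ : Measure X}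
    {ν : Measure Y} {f : ℕ → Lp E8 2 μ} {a : Lp E8 2 μ} {h : ℕ → Lp E8 2 ν} {x : Lp E8 2 ν}
    (h1 : Tendsto f atTop (𝓝 a)) (h2 : Tendsto h atTop (𝓝 x)) : ∃ φ : ℕ → ℕ,
      (∀ᵐ ω ∂μ, Tendsto (fun i => f (φ i) ω) atTop (𝓝 (a ω))) ∧
        ∀ᵐ w ∂ν, Tendsto (fun i => h (φ i) w) atTop (𝓝 (x w)) := by
  obtain ⟨n, hn, e1⟩ := (tendstoInMeasure_of_tendsto_Lp h1).exists_seq_tendsto_ae
  obtain ⟨m, hm, e2⟩ :=
    (tendstoInMeasure_of_tendsto_Lp (h2.comp hn.tendsto_atTop)).exists_seq_tendsto_ae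
  exact ⟨fun i => n (m i), e1.mono fun ω t => t.comp hm.tendsto_atTop, e2⟩

theorem mul_one (hA : ALG_s) (hM : MUL_s) {X : Type} [MeasurableSpace X] (μ : Measure X)
    (x : Lp E8 2 μ) : mul μ (fun _ => dg fun _ => 1) x = x := by
  refine Lp.ext ((hM.ae μ _ ‖dg fun _ => 1‖ aestronglyMeasurable_const
    (Eventually.of_forall fun _ => le_rfl) x).mono fun ω e => e.trans ?_)
  ext k
  rw [hA.dg_apply, one_mul]

theorem dz_congr {V : Type} [NormedAddCommGroup V] [NormedSpace ℂ V] {W W' : ℂ → V} {w : ℂ}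
    (h : W =ᶠ[𝓝 w] W') : dz W w = dz W' w ∧ dzb W w = dzb W' w := by
  simp only [dz, dzb, h.fderiv_eq, and_self]

theorem dF_congr {W W' : ℂ → Mat} {w : ℂ} (h : W =ᶠ[𝓝 w] W') : dF W w = dF W' w :=
  congrArg₂ (J w) (dz_congr h).1 (dz_congr h).2

variable {Dt : Type} [Fintype Dt] {nx rv : Dt → Dt} {g : Dt → G} {c : Dt → ℂ} {z : ℂ}

omit [Fintype Dt] in
theorem posF (hA : ALG_s) (h : Ok nx rv g z) (d : Dt) :
    PosT z (mob (g d) z) (mob (g d * g (nx d)) z) :=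
  ⟨h.im, hA.mob_pos _ _ h.im, hA.mob_pos _ _ h.im, h.pos d⟩

omit [Fintype Dt] in
theorem posS (h : Star nx rv g c z) (d : Dt) : PosT z (c (nx (rv d))) (c d) :=
  ⟨h.im, h.cim _, h.cim _, h.spos d⟩

omit [Fintype Dt] in
theorem face_rot (hA : ALG_s) (hT : TRI_s) (h : Ok nx rv g z) (d : Dt) :
    tri (mob (g d) z) (mob (g d) (mob (g (nx d)) z))
      (mob (g d) (mob (g (nx d) * g (nx (nx d))) z)) = face nx g z d := by
  have e : mob (g d) (mob (g (nx d) * g (nx (nx d))) z) = z := by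
    rw [← hA.mob_mul _ _ _ h.im.ne', ← mul_assoc]
    rcases h.gf d with e | e <;> rw [e]
    · exact hA.mob_one z
    · rw [hA.mob_neg, hA.mob_one]
  rw [e, ← hA.mob_mul _ _ _ h.im.ne', face, hT.tri_rot z]

/-- A property that holds almost everywhere on a face, seen from a square. -/
theorem pull (hT : TRI_s) (hC : CVP_s) {z p q a b e : ℂ} (h : PosT z p q) (h' : PosT a b e)
    {P : ℂ → Prop} (hP : ∀ᵐ w ∂volume.restrict (tri a b e), P w) :
    ∀ᵐ ω ∂volume.restrict sq, DD z p q ω ∈ tri a b e → P (DD z p q ω) :=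
  (hC.ae z p q (fun w => w ∈ tri a b e → P w) h).1 (ae_restrict_of_ae
    ((ae_restrict_iff' (hT.cpt a b e h').measurableSet).1 hP))

theorem jet (hM : MUL_s) (hT : TRI_s) (hR : TRA_s) (hP : POL_s) (hQ : PM_s) (hC : CVP_s)
    {z p q a b e : ℂ} (h : PosT z p q) (h' : PosT a b e) {U : ℝ × ℝ → Mat} {W : ℂ → Mat}
    (hU : PLip U) (hW : Lip W (tri a b e))
    (hl : ∀ ω ∈ csq, DD z p q ω ∈ tri a b e → U ω = W (DD z p q ω)) :
    ∀ᵐ ω ∂volume.restrict sq, DD z p q ω ∈ tri a b e →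
      cls (volume.restrict sq) (dq z p q U) ω =
        (rj z p q ω : ℂ) • cls (volume.restrict (tri a b e)) (dF W) (DD z p q ω) := by
  obtain ⟨C, hC1⟩ := id hU
  obtain ⟨K, hK⟩ := hP.inj z p q h
  have ex : ∀ w, ∃ ω, w ∈ tri z p q → ω ∈ csq ∧ DD z p q ω = w := fun w => by
    by_cases hw : w ∈ tri z p q
    · obtain ⟨ω, h1, h2⟩ := (hP.img z p q h).ge hw
      exact ⟨ω, fun _ => ⟨h1, h2⟩⟩
    · exact ⟨0, fun t => absurd t hw⟩
  choose σ hσ using ex
  have key : ∀ ω ∈ csq, ∀ ω' ∈ csq, ‖U ω - U ω'‖ ≤ |C| * K * ‖DD z p q ω - DD z p q ω'‖ :=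
    fun ω m ω' m' => by
      have n : 0 ≤ (1 - ω.2) * |ω.1 - ω'.1| + |ω.2 - ω'.2| :=
        add_nonneg (mul_nonneg (sub_nonneg.2 m.2.2) (abs_nonneg _)) (abs_nonneg _)
      rw [mul_assoc]
      exact (hC1 ω m ω' m').trans ((mul_le_mul_of_nonneg_right (le_abs_self C) n).trans
        (mul_le_mul_of_nonneg_left (hK ω m ω' m') (abs_nonneg C)))
  have hY : Lip (fun w => U (σ w)) (tri z p q) :=
    ⟨_, LipschitzOnWith.of_dist_le' fun w m w' m' => by
      have := key _ (hσ w m).1 _ (hσ w' m').1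
      rwa [(hσ w m).2, (hσ w' m').2, ← dist_eq_norm, ← dist_eq_norm] at this⟩
  have hj := hC.jet z p q _ U h hY fun ω m => by
    have m' := (hP.img z p q h).le ⟨ω, m, rfl⟩
    have := key ω m _ (hσ _ m').1
    rwa [(hσ _ m').2, sub_self, norm_zero, mul_zero, norm_le_zero_iff, sub_eq_zero] at this
  filter_upwards [hj, hM.cls_ae _ _ (hQ.mem z p q U h hU), (hC.ae z p q _ h).1 (hT.nhd z p q h),
    pull hT hC h h' ((hT.nhd a b e h').and (hM.cls_ae _ _ (hR.mem a b e W h' hW)))]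
    with ω e1 e2 e3 e4 m
  rw [e2, e1, (e4 m).2]
  congr 1
  refine dF_congr ?_
  filter_upwards [e3, (e4 m).1] with w m1 m2
  have := hl _ (hσ w m1).1
  rw [(hσ w m1).2] at this
  exact this m2

omit [Fintype Dt] in
theorem rot (hA : ALG_s) (hM : MUL_s) (hT : TRI_s) (hR : TRA_s) (h : Ok nx rv g z) {v W}
    (hW : Adm nx rv g z v W) (d : Dt) : ∀ᵐ w ∂volume.restrict (face nx g z (nx d)), ∀ k,
      dT nx g z W d (mob (g d) w) k = ph (g d) w k * dT nx g z W (nx d) w k := by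
  have p1 := posF hA h (nx d)
  have a1 := (hT.nhd _ _ _ (posF hA h d)).and
    (hM.cls_ae _ _ (hR.mem _ _ _ (W d) (posF hA h d) (hW.lip d)))
  have a2 := hR.ae_mob (g d) _ _ _ _ p1 (by rw [face_rot hA hT h d]; exact a1)
  obtain ⟨C, a3⟩ := hR.dif _ _ _ (W (nx d)) p1 (hW.lip _)
  filter_upwards [a2, a3, hM.cls_ae _ _ (hR.mem _ _ _ (W (nx d)) p1 (hW.lip _)),
    ae_restrict_mem (hT.cpt _ _ _ p1).measurableSet] with w e1 e2 e3 m k
  refine (congrArg (fun y : E8 => y k) e1.2).trans ?_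
  refine Eq.trans ?_ (congrArg (fun y : E8 => ph (g d) w k * y k) e3.symm)
  rw [← hR.df_tp (g d) (v d) _ w k m.1 e2.1]
  refine congrArg (fun y : E8 => y k) (dF_congr ?_)
  filter_upwards [e1.1] with y my
  have i := hA.mob_pos (g d)⁻¹ y my.1
  have e : mob (g d) (mob (g d)⁻¹ y) = y := by
    rw [← hA.mob_mul _ _ _ my.1.ne', mul_inv_cancel, hA.mob_one]
  have := hW.rot d (mob (g d)⁻¹ y) ((hT.tri_mob (g d) _ _ _ _ p1.1 p1.2.1 p1.2.2.1 i).1
    (by rw [e, face_rot hA hT h d]; exact my))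
  rwa [e] at this

theorem nsq {H H' : Type} [NormedAddCommGroup H] [InnerProductSpace ℂ H] [NormedAddCommGroup H']
    [InnerProductSpace ℂ H'] {x : H} {b : H'} (h : ⟪x, x⟫_ℂ = 3 * ⟪b, b⟫_ℂ) :
    ‖x‖ ^ 2 = 3 * ‖b‖ ^ 2 := by
  rw [← inner_self_eq_norm_sq (𝕜 := ℂ), ← inner_self_eq_norm_sq (𝕜 := ℂ), h]
  simp

theorem cauchy {H H' : Type} [NormedAddCommGroup H] [InnerProductSpace ℂ H] [NormedAddCommGroup H']
    [InnerProductSpace ℂ H'] {x : ℕ → H} {b : ℕ → H'}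
    (h : ∀ n m, ⟪x n, x m⟫_ℂ = 3 * ⟪b n, b m⟫_ℂ) (hb : CauchySeq b) : CauchySeq x := by
  have e : ∀ n m, dist (x n) (x m) ≤ 2 * dist (b n) (b m) := fun n m => by
    have t : ‖x n - x m‖ ^ 2 = 3 * ‖b n - b m‖ ^ 2 := nsq (by
      simp only [inner_sub_left, inner_sub_right, h]; ring)
    rw [dist_eq_norm, dist_eq_norm]
    nlinarith only [norm_nonneg (b n - b m), t]
  rw [Metric.cauchySeq_iff] at hb ⊢
  intro ε hε
  obtain ⟨N, hN⟩ := hb (ε / 2) (half_pos hε)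
  exact ⟨N, fun m hm n hn => by linarith only [e m n, hN m hm n hn]⟩

end LINKx

open LINKx in
theorem LINK (hA : ALG_s) (hM : MUL_s) (hT : TRI_s) (hR : TRA_s) (hP : POL_s) (hQ : PM_s)
    (hC : CVP_s) (hE : EQ_s) : LINK_s := by
  intro Dt _ nx rv g c z v hS hv a ha
  obtain ⟨b, hb, tb⟩ := mem_closure_iff_seq_limit.1 ha
  choose U hU eU using hb
  obtain rfl : b = fun n => dP nx rv c z (U n) := funext eU
  choose W hW hL using fun n => hE.pf nx rv g c z v (U n) hS hv (hU n)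
  have i1 : ∀ y, dgT nx g z (fun _ => 1) y = y := fun y => by
    ext d : 1
    rw [dgT, hM.dia_apply, LINKx.mul_one hA hM]
  have i2 : ∀ y : HP Dt, dgP (fun _ => 1) y = y := fun y => by
    ext d : 1
    rw [dgP, mP, hM.dia_apply, LINKx.mul_one hA hM]
  have inn := fun n m => hE.inn nx rv g c z v v (W n) (W m) (U n) (U m) (fun _ => 1) hS (hW n)
    (hW m) (hU n) (hU m) (hL n) (hL m)
  simp only [i1, i2] at inn
  obtain ⟨x, tx⟩ := cauchySeq_tendsto_of_complete (cauchy inn tb.cauchySeq)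
  have tb' : ∀ d, Tendsto (fun n => dP nx rv c z (U n) d) atTop (𝓝 (a d)) := fun d =>
    ((PiLp.continuous_apply 2 _ d).tendsto a).comp tb
  have tx' : ∀ d, Tendsto (fun n => dT nx g z (W n) d) atTop (𝓝 (x d)) := fun d =>
    ((PiLp.continuous_apply 2 _ d).tendsto x).comp tx
  have half : ∀ d e, (∀ n, ∀ ω ∈ csq, Dd nx rv c z d ω ∈ face nx g z e →
      U n d ω = W n e (Dd nx rv c z d ω)) → ∀ᵐ ω ∂volume.restrict sq,
        Dd nx rv c z d ω ∈ face nx g z e →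
          a d ω = (rj z (c (nx (rv d))) (c d) ω : ℂ) • x e (Dd nx rv c z d ω) := fun d e hl => by
    obtain ⟨φ, t1, t2⟩ := two_seq (tb' d) (tx' e)
    filter_upwards [t1, pull hT hC (posS hS d) (posF hA hS.toOk e) t2, ae_all_iff.2 fun n =>
      jet hM hT hR hP hQ hC (posS hS d) (posF hA hS.toOk e) ((hU n).lip d) ((hW n).lip e) (hl n)]
      with ω s1 s2 s3 m
    exact tendsto_nhds_unique (s1.congr fun i => s3 (φ i) m) ((s2 m).const_smul _)
  refine ⟨x, mem_closure_iff_seq_limit.2 ⟨_, fun n => ⟨W n, hW n, rfl⟩, tx⟩, ?_, fun d =>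
    (half d d fun n ω m => (hL n d ω m).1).and (half d _ fun n ω m => (hL n d ω m).2),
    fun d => ?_, fun v' W' U' κ h1 h2 h3 => ?_⟩
  · exact nsq (tendsto_nhds_unique ((tx.inner (𝕜 := ℂ) tx).congr fun n => inn n n)
      ((tb.inner (𝕜 := ℂ) tb).const_mul 3))
  · obtain ⟨φ, t1, t2⟩ := two_seq (tx' d) (tx' (nx d))
    filter_upwards [t2, hR.ae_mob (g d) _ _ _ _ (posF hA hS.toOk (nx d))
      (by rw [face_rot hA hT hS.toOk d]; exact t1), ae_all_iff.2 fun n =>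
        rot hA hM hT hR hS.toOk (hW n) d] with w s1 s2 s3 k
    have ck := PiLp.continuous_apply 2 (fun _ : Ix => ℂ) k
    exact tendsto_nhds_unique (((ck.tendsto _).comp s2).congr fun i => s3 (φ i) k)
      (((ck.tendsto _).comp s1).const_mul _)
  · exact tendsto_nhds_unique
      ((tendsto_const_nhds.inner (𝕜 := ℂ) (((dgT nx g z κ).continuous.tendsto x).comp tx)).congr
        fun n => hE.inn nx rv g c z v' v W' (W n) U' (U n) κ hS h1 (hW n) h2 (hU n) h3 (hL n))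
      ((tendsto_const_nhds.inner (𝕜 := ℂ) (((dgP κ).continuous.tendsto a).comp tb)).const_mul 3)

end Pool.Agent.MP_596265_gt.Hd

end

section

/-! Block H: the formula of Stokes for sections in the polar parametrisation. -/

namespace Pool.Agent.MP_596265_gt.Hd

open MeasureTheory Set Complex Filter Topology
open scoped ComplexConjugate Matrix.Norms.Elementwise NNReal InnerProductSpace

namespace STx

/-- The invariant form as a continuous bilinear map. -/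
noncomputable def β : Mat →L[ℝ] Mat →L[ℝ] ℂ :=
  (LinearMap.mk₂ ℝ bb (fun a b c => by simp only [bb, add_mul, Matrix.trace_add]; ring)
    (fun t a b => by simp [bb]; ring) (fun a b c => by simp only [bb, mul_add, Matrix.trace_add]; ring)
    (fun t a b => by simp only [bb, Algebra.mul_smul_comm, Matrix.trace_smul, real_smul]; ring)).toContinuousBilinearMap

theorem β_eq (X Y : Mat) : β X Y = bb X Y := rfl

/-- The adjoint action as a continuous linear map. -/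
noncomputable def adL (g : G) : Mat →L[ℝ] Mat :=
  LinearMap.toContinuousLinearMap
    { toFun := Ad g
      map_add' := fun X Y => by simp [Ad, mul_add, add_mul]
      map_smul' := fun t X => by simp only [Ad, Algebra.mul_smul_comm, Algebra.smul_mul_assoc, Real.ringHom_apply] }

section
variable {V : Type} [NormedAddCommGroup V] [NormedSpace ℝ V] [FiniteDimensional ℝ V]

theorem ftc {b : ℝ → V} {C : ℝ≥0} (hb : LipschitzWith C b) (l : V →L[ℝ] ℂ) :
    ∫ y in Ioo (0 : ℝ) 1, l (deriv b y) = l (b 1 - b 0) := by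
  have hi : IntegrableOn (fun y => l (deriv b y)) (Ioo (0 : ℝ) 1) :=
    l.integrable_comp (Measure.integrableOn_of_bounded (M := C) (by simp only [Real.volume_Ioo, sub_zero, ENNReal.ofReal_one, ne_eq, ENNReal.one_ne_top, not_false_eq_true])
      (aestronglyMeasurable_deriv b _) (Eventually.of_forall fun y => norm_deriv_le_of_lipschitz hb))
  refine (SeparatingDual.eq_iff_forall_dual_eq (R := ℝ)).2 fun k => ?_
  have h1 : LipschitzWith _ ((k ∘L l) ∘ b) := (k ∘L l).lipschitz.comp hb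
  have h2 :=
    (h1.lipschitzOnWith.absolutelyContinuousOnInterval (a := 0) (b := 1)).integral_deriv_eq_sub
  rw [intervalIntegral.integral_of_le zero_le_one, integral_Ioc_eq_integral_Ioo] at h2
  rw [← k.integral_comp_comm hi, map_sub, map_sub]
  refine Eq.trans (integral_congr_ae ?_) h2
  filter_upwards [ae_restrict_of_ae (hb.ae_differentiableAt (μ := volume))] with y hy
  rw [((k ∘L l).hasFDerivAt.comp_hasDerivAt y hy.hasDerivAt).deriv]
  rfl

theorem refl01 (f : ℝ → ℂ) : ∫ y in Ioo (0 : ℝ) 1, f (1 - y) = ∫ y in Ioo (0 : ℝ) 1, f y := by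
  have := intervalIntegral.integral_comp_sub_left (a := 0) (b := 1) f 1
  rwa [sub_self, sub_zero, intervalIntegral.integral_of_le zero_le_one,
    intervalIntegral.integral_of_le zero_le_one, integral_Ioc_eq_integral_Ioo,
    integral_Ioc_eq_integral_Ioo] at this

omit [FiniteDimensional ℝ V] in
theorem deriv_congr {a b : ℝ → V} (h : ∀ t ∈ Icc (0 : ℝ) 1, a t = b t) {y : ℝ}
    (hy : y ∈ Ioo (0 : ℝ) 1) : deriv a y = deriv b y :=
  Filter.EventuallyEq.deriv_eq (by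
    filter_upwards [Icc_mem_nhds hy.1 hy.2] with t ht using h t ht)

/-- The integral along a side of the square. -/
noncomputable def bI (B : V →L[ℝ] V →L[ℝ] ℂ) (a b : ℝ → V) : ℂ :=
  ∫ x in Ioo (0 : ℝ) 1, B (a x) (deriv b x)

omit [FiniteDimensional ℝ V] in
theorem bI_congr (B : V →L[ℝ] V →L[ℝ] ℂ) {a a' b b' : ℝ → V} (h : ∀ t ∈ Icc (0 : ℝ) 1, a t = a' t)
    (h' : ∀ t ∈ Icc (0 : ℝ) 1, b t = b' t) : bI B a b = bI B a' b' :=
  setIntegral_congr_fun measurableSet_Ioo fun y hy => by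
    change B (a y) (deriv b y) = B (a' y) (deriv b' y)
    rw [deriv_congr h' hy, h y (Ioo_subset_Icc_self hy)]

omit [FiniteDimensional ℝ V] in
theorem bI_const (B : V →L[ℝ] V →L[ℝ] ℂ) (a : ℝ → V) (c : V) : bI B a (fun _ => c) = 0 := by
  simp only [bI, deriv_const', map_zero, integral_zero]

theorem green (B : V →L[ℝ] V →L[ℝ] ℂ) {φ ψ : ℝ × ℝ → V} {C D : ℝ≥0} (hφ : LipschitzWith C φ)
    (hψ : LipschitzWith D ψ) :
    ∫ p in sq, (B (lineDeriv ℝ φ p (1, 0)) (lineDeriv ℝ ψ p (0, 1)) -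
        B (lineDeriv ℝ φ p (0, 1)) (lineDeriv ℝ ψ p (1, 0))) =
      bI B (fun x => φ (x, 0)) (fun x => ψ (x, 0)) + bI B (fun x => φ (1, x)) (fun x => ψ (1, x)) -
      bI B (fun x => φ (x, 1)) (fun x => ψ (x, 1)) - bI B (fun x => φ (0, x)) fun x => ψ (0, x) :=
  U.Lip.green B hφ hψ

/-- The two integrals along an edge. -/
theorem base (B : V →L[ℝ] V →L[ℝ] ℂ) (A : V →L[ℝ] V) (hA : ∀ x y, B (A x) (A y) = B x y) (v v' : V)
    {a a' b b' : ℝ → V} {C : ℝ≥0} {C' : ℝ≥0}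
    (ha' : Continuous a') (hb : LipschitzWith C b) (hb' : LipschitzWith C' b')
    (h1 : ∀ t ∈ Icc (0 : ℝ) 1, a t = v + A (a' (1 - t)))
    (h2 : ∀ t ∈ Icc (0 : ℝ) 1, b t = v' + A (b' (1 - t))) :
    bI B a b + bI B a' b' = B v (b 1 - b 0) := by
  have i1 := U.Lip.intOn_bd B (continuous_const (y := v)) hb
  have l2 : LipschitzWith C' fun t => b' (1 - t) := LipschitzWith.of_dist_le_mul fun s t => by
    simpa only [dist_sub_left] using hb'.dist_le_mul (1 - s) (1 - t)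
  have i2 := U.Lip.intOn_bd B (a := fun t => a' (1 - t)) (by fun_prop) l2
  have e2 : ∫ x in Ioo (0 : ℝ) 1, B (a' (1 - x)) (deriv (fun t => b' (1 - t)) x) = -bI B a' b' := by
    rw [bI, ← refl01 fun x => B (a' x) (deriv b' x), ← integral_neg]
    simp only [deriv_comp_const_sub, map_neg]
  rw [← ftc hb (B v), ← neg_neg (bI B a' b'), ← e2, ← sub_eq_add_neg, sub_eq_iff_eq_add]
  refine Eq.trans (integral_congr_ae ?_) (integral_add i1 i2)
  filter_upwards [ae_restrict_mem measurableSet_Ioo,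
    ae_restrict_of_ae (l2.ae_differentiableAt (μ := volume))] with y hy hd
  have e : deriv b y = A (deriv (fun t => b' (1 - t)) y) := by
    rw [deriv_congr h2 hy]
    exact ((A.hasFDerivAt.comp_hasDerivAt y hd.hasDerivAt).const_add v').deriv
  rw [h1 y (Ioo_subset_Icc_self hy), map_add, add_apply, add_right_inj, e, hA]

end

variable {Dt : Type} [Fintype Dt] {nx rv : Dt → Dt} {g : Dt → G}

theorem sum_nx (h : Flat nx rv g) (f : Dt → ℂ) : ∑ d, f (nx d) = ∑ d, f d :=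
  Equiv.sum_comp ⟨nx, fun d => nx (nx d), h.n3, h.n3⟩ f

theorem sum_rv (h : Flat nx rv g) (f : Dt → ℂ) : ∑ d, f (rv d) = ∑ d, f d :=
  Equiv.sum_comp ⟨rv, rv, h.r2, h.r2⟩ f

theorem alg (hA : ALG_s) (h : Flat nx rv g) {v v' y : Dt → Mat} (hv : Coc nx rv g v)
    (hv' : Coc nx rv g v') (hy : ∀ d, y d = v' d + Ad (g d) (y (nx d))) :
    ∑ d, bb (v d) (y d - y (nx (rv d))) = 2 * om nx g v v' := by
  have a1 : ∀ d, bb (v (rv d)) (y (nx d)) = bb (v d) (v' d) - bb (v d) (y d) := fun d => by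
    rw [← hA.ad_bb (g d), eq_neg_of_add_eq_zero_right (hv.r d), hy d]
    simp only [← β_eq, map_neg, map_add, neg_apply]
    ring
  have a2 : ∀ d, bb (v d) (y d) + bb (v (nx d)) (y (nx d)) + bb (v (nx (nx d))) (y (nx (nx d))) =
      bb (v (nx (nx d))) (v' (nx (nx d))) - bb (Ad (g d) (v (nx d))) (v' d) ∧
      bb (v (nx (nx d))) (v' (nx (nx d))) = bb (v d) (v' d) + bb (v d) (Ad (g d) (v' (nx d))) +
        bb (Ad (g d) (v (nx d))) (v' d) + bb (v (nx d)) (v' (nx d)) := fun d => by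
    have f := hv.f d
    have f' := hv'.f d
    have y0 := hy d
    have y1 := congrArg (Ad (g d)) (hy (nx d))
    rw [hA.ad_add, ← add_assoc] at f f'
    rw [hA.ad_add] at y1
    rw [← hA.ad_bb (g (nx d)) (v (nx (nx d))), ← hA.ad_bb (g (nx d)) (v (nx (nx d))),
      ← hA.ad_bb (g d) (Ad _ _), ← hA.ad_bb (g d) (Ad _ _) (Ad (g (nx d)) (v' _)),
      ← hA.ad_bb (g d) (v (nx d)), ← hA.ad_bb (g d) (v (nx d)) (v' _),
      eq_neg_of_add_eq_zero_right f, eq_neg_of_add_eq_zero_right f',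
      eq_sub_of_add_eq' y1.symm, eq_sub_of_add_eq' y0.symm]
    simp only [← β_eq, map_neg, map_add, map_sub, neg_apply,
      add_apply]
    constructor <;> ring
  have s1 := sum_rv h fun d => bb (v (rv d)) (y (nx d))
  have s2 := Finset.sum_congr (rfl (a := Finset.univ)) fun d _ => (a2 d).1
  have s3 := Finset.sum_congr (rfl (a := Finset.univ)) fun d _ => (a2 d).2
  simp only [h.r2, a1, Finset.sum_sub_distrib] at s1
  simp only [Finset.sum_add_distrib, Finset.sum_sub_distrib] at s2 s3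
  rw [sum_nx h fun d => bb (v (nx d)) (y (nx d)), sum_nx h fun d => bb (v d) (y d),
    sum_nx h fun d => bb (v (nx d)) (v' (nx d)), sum_nx h fun d => bb (v d) (v' d)] at s2
  rw [sum_nx h fun d => bb (v (nx d)) (v' (nx d)), sum_nx h fun d => bb (v d) (v' d)] at s3
  have e : ∀ X Y Z, bb X (Y - Z) = bb X Y - bb X Z := fun X Y Z => (β X).map_sub Y Z
  simp only [e, om, Finset.sum_sub_distrib, s1]
  linear_combination (2 / 3) * s2 + (1 / 3) * s3

end STx

open STx in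
theorem ST (hA : ALG_s) (hP : PL_s) : ST_s := by
  intro Dt _ nx rv g v v' U U' h hv hv' hU hU'
  choose φ C hφ eφ using fun d => hP.ext (U d) (hU.lip d)
  choose ψ D hψ eψ using fun d => hP.ext (U' d) (hU'.lip d)
  have z0 : (0 : ℝ) ∈ Icc (0 : ℝ) 1 := left_mem_Icc.2 zero_le_one
  have z1 : (1 : ℝ) ∈ Icc (0 : ℝ) 1 := right_mem_Icc.2 zero_le_one
  have nb : ∀ ω ∈ sq, csq ∈ 𝓝 ω := fun ω hω =>
    prod_mem_nhds (Icc_mem_nhds hω.1.1 hω.1.2) (Icc_mem_nhds hω.2.1 hω.2.2)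
  have e1 : ∀ d, ∫ ω in sq, (bb (lineDeriv ℝ (U d) ω (1, 0)) (lineDeriv ℝ (U' d) ω (0, 1)) -
      bb (lineDeriv ℝ (U d) ω (0, 1)) (lineDeriv ℝ (U' d) ω (1, 0))) =
      bI β (fun x => φ d (x, 0)) (fun x => ψ d (x, 0)) +
      bI β (fun x => φ d (1, x)) (fun x => ψ d (1, x)) -
      bI β (fun x => φ (nx (rv d)) (1, x)) fun x => ψ (nx (rv d)) (1, x) := by
    intro d
    have gr := green β (hφ d) (hψ d)
    have t0 : bI β (fun x => φ d (x, 1)) (fun x => ψ d (x, 1)) = 0 := by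
      obtain ⟨K, hK⟩ := hU'.lip d
      refine (bI_congr β (fun _ _ => rfl) fun t ht => ?_).trans (bI_const β _ (U' d (0, 1)))
      have := hK (t, 1) ⟨ht, z1⟩ (0, 1) ⟨z0, z1⟩
      rw [eψ d _ ⟨ht, z1⟩, ← sub_eq_zero, ← norm_le_zero_iff]
      simpa only [norm_le_zero_iff, sub_self, sub_zero, zero_mul, abs_zero, add_zero, mul_zero] using this
    have t1 : bI β (fun x => φ d (0, x)) (fun x => ψ d (0, x)) =
        bI β (fun x => φ (nx (rv d)) (1, x)) fun x => ψ (nx (rv d)) (1, x) :=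
      bI_congr β (fun t ht => by rw [eφ d _ ⟨z0, ht⟩, eφ _ _ ⟨z1, ht⟩, hU.rad d t ht])
        fun t ht => by rw [eψ d _ ⟨z0, ht⟩, eψ _ _ ⟨z1, ht⟩, hU'.rad d t ht]
    rw [t0, t1, sub_zero] at gr
    rw [← gr]
    refine setIntegral_congr_fun (measurableSet_Ioo.prod measurableSet_Ioo) fun ω hω => ?_
    have k1 : U d =ᶠ[𝓝 ω] φ d := by
      filter_upwards [nb ω hω] with p hp using (eφ d p hp).symm
    have k2 : U' d =ᶠ[𝓝 ω] ψ d := by
      filter_upwards [nb ω hω] with p hp using (eψ d p hp).symm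
    simp only [k1.lineDeriv_eq, k2.lineDeriv_eq]
    rfl
  have r : ∀ t ∈ Icc (0 : ℝ) 1, 1 - t ∈ Icc (0 : ℝ) 1 := fun t ht =>
    ⟨sub_nonneg.2 ht.2, sub_le_self _ ht.1⟩
  have e2 := fun d => base β (adL (g d)) (hA.ad_bb (g d)) (v d) (v' d) (a := fun x => φ d (x, 0))
    (a' := fun x => φ (rv d) (x, 0)) (b := fun x => ψ d (x, 0)) (b' := fun x => ψ (rv d) (x, 0))
    ((hφ _).continuous.comp (by fun_prop)) ((hψ d).comp (LipschitzWith.prodMk_right 0))
    ((hψ _).comp (LipschitzWith.prodMk_right 0))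
    (fun t ht => by rw [eφ d _ ⟨ht, z0⟩, eφ _ _ ⟨r t ht, z0⟩, hU.base d t ht]; rfl)
    (fun t ht => by rw [eψ d _ ⟨ht, z0⟩, eψ _ _ ⟨r t ht, z0⟩, hU'.base d t ht]; rfl)
  have e3 := alg hA h hv hv' (y := fun d => U' d (1, 0)) fun d => by
    rw [hU'.base d 1 z1, sub_self, hU'.rad _ 0 z0, h.r2]
  have e4 := Finset.sum_congr (rfl (a := Finset.univ)) fun d _ => (e2 d).trans (β_eq _ _)
  rw [Finset.sum_add_distrib,
    sum_rv h fun d => bI β (fun x => φ d (x, 0)) fun x => ψ d (x, 0)] at e4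
  have e5 : ∀ d, ψ d (1, 0) - ψ d (0, 0) = U' d (1, 0) - U' (nx (rv d)) (1, 0) := fun d => by
    rw [eψ d _ ⟨z1, z0⟩, eψ d _ ⟨z0, z0⟩, hU'.rad d 0 z0]
  simp only [e5] at e4
  simp only [e1, Finset.sum_sub_distrib, Finset.sum_add_distrib]
  rw [sum_rv h fun d => bI β (fun x => φ (nx d) (1, x)) fun x => ψ (nx d) (1, x),
    sum_nx h fun d => bI β (fun x => φ d (1, x)) fun x => ψ d (1, x)]
  linear_combination (1 / 2) * e4 + (1 / 2) * e3

end Pool.Agent.MP_596265_gt.Hd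

end

section

namespace Pool.Agent.MP_596265_gt.Hd

open MeasureTheory Set Complex Filter Topology
open scoped ComplexConjugate Matrix.Norms.Elementwise NNReal InnerProductSpace

namespace ISOx

theorem geo_im {p q : ℂ} {l : ℝ} (hp : 0 < p.im) (hq : 0 < q.im) (h0 : 0 ≤ l) (h1 : l ≤ 1) :
    0 < (geo p q l).im := by
  have a1 : 0 ≤ (1 - l) * q.im := mul_nonneg (sub_nonneg.2 h1) hq.le
  have a2 : 0 ≤ l * p.im := mul_nonneg h0 hp.le
  have d0 : 0 < (1 - l) * q.im + l * p.im := by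
    rcases h0.eq_or_lt with h | h
    · rw [← h]; simpa using hq
    · have := mul_pos h hp; linarith
  have m0 : 0 ≤ mu p q l := div_nonneg a2 d0.le
  have m1 : mu p q l ≤ 1 := (div_le_one d0).2 (by linarith)
  refine Real.sqrt_pos.2 ?_
  have b1 := mul_nonneg (mul_nonneg m0 (sub_nonneg.2 m1)) (sq_nonneg (p.re - q.re))
  have b2 := mul_nonneg (sub_nonneg.2 m1) (sq_nonneg p.im)
  have b3 := mul_nonneg m0 (sq_nonneg q.im)
  rcases m0.eq_or_lt with h | h
  · rw [← h]; simpa only [sub_zero, one_mul, zero_mul, add_zero, mul_one, gt_iff_lt] using pow_pos hp 2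
  · have := mul_pos h (pow_pos hq 2); linarith

theorem ray_im {z y : ℂ} {s : ℝ} (hz : 0 < z.im) (hy : 0 < y.im) (h0 : 0 ≤ s) (h1 : s ≤ 1) :
    0 < (ray z y s).im := by
  have hab : normSq (z - y) < normSq (z - conj y) := by
    simp only [normSq_apply, sub_re, sub_im, conj_re, conj_im]; linarith only [mul_pos hz hy]
  have hs : normSq ((s : ℂ) * (z - y)) < normSq (z - conj y) := by
    rw [map_mul, normSq_ofReal]
    have := normSq_nonneg (z - y)
    linarith only [mul_nonneg this (sub_nonneg.2 (mul_le_one₀ h1 h0 h1)), hab]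
  have hN : NN z y s ≠ 0 := fun h => by
    rw [NN, sub_eq_zero] at h
    rw [h] at hs; exact lt_irrefl _ hs
  have hd : y - conj y ≠ 0 := fun h => by
    have := congrArg Complex.im h
    simp only [sub_im, conj_im, zero_im] at this; linarith only [hy, this]
  have e1 : ray z y s - y = s * (z - y) * ((y - conj y) / NN z y s) := by
    rw [ray]; field_simp; rw [NN]; ring
  have e2 : ray z y s - conj y = (z - conj y) * ((y - conj y) / NN z y s) := by
    rw [ray]; field_simp; rw [NN]; ring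
  have h : normSq (ray z y s - y) < normSq (ray z y s - conj y) := by
    rw [e1, e2, map_mul _ (_ * _), map_mul _ (z - conj y)]
    exact mul_lt_mul_of_pos_right hs (normSq_pos.2 (div_ne_zero hd hN))
  simp only [normSq_apply, sub_re, sub_im, conj_re, conj_im] at h
  by_contra c
  linarith only [mul_nonneg (neg_nonneg.2 (not_lt.1 c)) hy.le, h]

/-- conjugation as a real linear map -/
noncomputable def cjL : Mat →L[ℝ] Mat := LinearMap.toContinuousLinearMap
  { toFun := cj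
    map_add' := fun X Y => by ext i j; simp [cj]
    map_smul' := fun c X => by ext i j; simp [cj] }

theorem cj_add (X Y : Mat) : cj (X + Y) = cj X + cj Y := cjL.map_add X Y
theorem cj_zero : cj 0 = 0 := cjL.map_zero

theorem ld_cj {f : ℝ × ℝ → Mat} {ω : ℝ × ℝ} (h : DifferentiableAt ℝ f ω) (u : ℝ × ℝ) :
    lineDeriv ℝ (fun x => cj (f x)) ω u = cj (lineDeriv ℝ f ω u) := by
  have h1 := cjL.hasFDerivAt.comp ω h.hasFDerivAt
  rw [h.lineDeriv_eq_fderiv]
  exact (h1.hasLineDerivAt u).lineDeriv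

theorem bb_l (c : ℝ) (X Y : Mat) : bb (cj (c • X)) Y = c * bb (cj X) Y := by
  rw [show cj (c • X) = c • cj X from cjL.map_smul c X]
  simp [bb, mul_sub, mul_assoc]

theorem bb_r (c : ℝ) (X Y : Mat) : bb X (c • Y) = c * bb X Y := by
  simp [bb, mul_sub, mul_left_comm]

end ISOx

open ISOx

theorem ISO (hA : ALG_s) (hM : MUL_s) (hG : GEP_s) (hL : PL_s) (hP : PM_s) (hS : ST_s) :
    ISO_s := by
  intro Dt _ nx rv g c z v v' U U' st cv cv' ad ad'
  have pos : ∀ d, PosT z (c (nx (rv d))) (c d) := fun d => ⟨st.im, st.cim _, st.cim _, st.spos d⟩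
  have cc : Coc nx rv g fun d => cj (v d) :=
    ⟨fun d => by rw [← hA.ad_cj, ← cj_add, cv.r, cj_zero],
      fun d => by rw [← hA.ad_cj, ← cj_add, ← hA.ad_cj, ← cj_add, cv.f, cj_zero]⟩
  have ca : PAdm nx rv g (fun d => cj (v d)) fun d ω => cj (U d ω) :=
    ⟨fun d => hL.comp cjL (U d) (ad.lip d) fun _ _ => cjL.contDiff.contDiffAt,
      fun d s hs => congrArg cj (ad.rad d s hs),
      fun d l hl => by rw [ad.base d l hl, cj_add, hA.ad_cj]⟩
  rw [hM.inn, ← hS nx rv g _ v' _ U' st.toOk.toFlat cc cv' ca ad', Finset.sum_div]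
  refine Finset.sum_congr rfl fun d _ => ?_
  rw [← integral_div]
  refine integral_congr_ae ?_
  obtain ⟨C, hC⟩ := hL.dif (U d) (ad.lip d)
  filter_upwards [hM.cls_ae _ _ (hP.mem _ _ _ _ (pos d) (ad.lip d)),
    hM.cls_ae _ _ (hP.mem _ _ _ _ (pos d) (ad'.lip d)),
    hM.mp_ae (fun (_ : Dt) _ => Cs) (fun _ => continuousOn_const) (dP nx rv c z U') d, hC,
    ae_restrict_mem (measurableSet_Ioo.prod measurableSet_Ioo : MeasurableSet sq)]
    with ω e1 e2 e3 e4 e5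
  have f1 : dP nx rv c z U d ω = dq z (c (nx (rv d))) (c d) (U d) ω := e1
  have f2 : dP nx rv c z U' d ω = dq z (c (nx (rv d))) (c d) (U' d) ω := e2
  have f3 : CP (dP nx rv c z U') d ω = Cs (dP nx rv c z U' d ω) := e3
  have s1 : 0 < 1 - ω.2 := sub_pos.2 e5.2.2
  have im : 0 < (DD z (c (nx (rv d))) (c d) ω).im :=
    ray_im st.im (geo_im (st.cim _) (st.cim _) e5.1.1.le e5.1.2.le) e5.2.1.le e5.2.2.le
  rw [f1, f3, f2, dq, dq, map_smul, inner_smul_left, inner_smul_right,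
    hA.qf _ _ _ _ _ _ _ im (hG.jpos _ _ _ _ (pos d)
      ⟨Ioo_subset_Icc_self e5.1, Ioo_subset_Icc_self e5.2⟩),
    ld_cj e4.1, ld_cj e4.1, r1, r1, r2, r2, bb_l, bb_r, conj_ofReal, ← mul_assoc, ← ofReal_mul,
    Real.mul_self_sqrt s1.le]
  have : ((1 - ω.2 : ℝ) : ℂ) ≠ 0 := ofReal_ne_zero.2 s1.ne'
  rw [ofReal_inv]
  field_simp

end Pool.Agent.MP_596265_gt.Hd

end

section

/-! Block H, row PHI: uniform expansion of the two Beltrami coefficients. -/

namespace Pool.Agent.MP_596265_gt.Hd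

open MeasureTheory Set Complex Filter Topology
open scoped ComplexConjugate Matrix.Norms.Elementwise NNReal InnerProductSpace

namespace PHIx

instance : CompactSpace csq := isCompact_iff_compactSpace.1 (isCompact_Icc.prod isCompact_Icc)

/-- Analytic in `t` with values in the continuous functions on the square. -/
def An (F : ℂ → ℝ × ℝ → ℂ) : Prop :=
  ∃ Φ : ℂ → C(csq, ℂ), AnalyticAt ℂ Φ 0 ∧ ∀ᶠ t in 𝓝 (0 : ℂ), ∀ ω : csq, Φ t ω = F t ω

variable {F G : ℂ → ℝ × ℝ → ℂ}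

theorem An.const {f : ℝ × ℝ → ℂ} (hf : ContinuousOn f csq) : An fun _ => f :=
  ⟨fun _ => ⟨_, hf.domRestrict⟩, analyticAt_const, .of_forall fun _ _ => rfl⟩

theorem An.id (z : ℂ) : An fun t _ => z + t :=
  ⟨fun t => (z + t) • 1, (analyticAt_const.add analyticAt_id).smul analyticAt_const,
    .of_forall fun _ _ => by simp only [ContinuousMap.coe_smul, ContinuousMap.coe_one, Pi.smul_apply, Pi.one_apply, smul_eq_mul, mul_one]⟩

theorem An.add (h : An F) (h' : An G) : An fun t ω => F t ω + G t ω := by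
  obtain ⟨Φ, a, b⟩ := h
  obtain ⟨Ψ, c, d⟩ := h'
  exact ⟨_, a.add c, (b.and d).mono fun t h ω => by simp [h.1, h.2]⟩

theorem An.sub (h : An F) (h' : An G) : An fun t ω => F t ω - G t ω := by
  obtain ⟨Φ, a, b⟩ := h
  obtain ⟨Ψ, c, d⟩ := h'
  exact ⟨_, a.sub c, (b.and d).mono fun t h ω => by simp [h.1, h.2]⟩

theorem An.mul (h : An F) (h' : An G) : An fun t ω => F t ω * G t ω := by
  obtain ⟨Φ, a, b⟩ := h
  obtain ⟨Ψ, c, d⟩ := h'
  exact ⟨_, a.mul c, (b.and d).mono fun t h ω => by simp [h.1, h.2]⟩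

theorem An.sq (h : An F) : An fun t ω => F t ω ^ 2 := by
  simpa only [pow_two] using h.mul h

theorem An.inv (h : An F) (h0 : ∀ ω ∈ csq, F 0 ω ≠ 0) : An fun t ω => (F t ω)⁻¹ := by
  obtain ⟨Φ, a, b⟩ := h
  have hu : IsUnit (Φ 0) := (ContinuousMap.isUnit_iff_forall_ne_zero _).2 fun ω => by
    rw [b.self_of_nhds]; exact h0 ω ω.2
  refine ⟨fun t => Ring.inverse (Φ t),
    AnalyticAt.comp (g := Ring.inverse) (analyticAt_inverse hu.unit) a, ?_⟩
  filter_upwards [b, a.continuousAt.eventually (Units.isOpen.mem_nhds hu)] with t h1 h2 ω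
  have := congrArg (fun f : C(csq, ℂ) => f ω) (Ring.inverse_mul_cancel _ h2)
  simp only [ContinuousMap.mul_apply, ContinuousMap.one_apply, h1] at this
  exact eq_inv_of_mul_eq_one_left this

theorem An.div (h : An F) (h' : An G) (h0 : ∀ ω ∈ csq, G 0 ω ≠ 0) :
    An fun t ω => F t ω / G t ω := by
  simpa only [div_eq_mul_inv] using h.mul (h'.inv h0)

theorem evd {Φ : ℂ → C(csq, ℂ)} (a : AnalyticAt ℂ Φ 0) (ω : csq) :
    DifferentiableAt ℂ (fun t => Φ t ω) 0 :=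
  ((ContinuousMap.evalCLM ℂ ω : C(csq, ℂ) →L[ℂ] ℂ).differentiableAt.comp 0 a.differentiableAt :)

theorem An.dif (h : An F) {ω} (hω : ω ∈ csq) : DifferentiableAt ℂ (fun t => F t ω) 0 := by
  obtain ⟨Φ, a, b⟩ := h
  exact (evd a ⟨ω, hω⟩).congr_of_eventuallyEq (b.mono fun t h => (h ⟨ω, hω⟩).symm)

theorem ds {Φ : ℂ → C(csq, ℂ)} (a : AnalyticAt ℂ Φ 0) :
    ∃ Ψ : ℂ → C(csq, ℂ), AnalyticAt ℂ Ψ 0 ∧ ∀ t, Φ t = Φ 0 + t • Ψ t := by
  obtain ⟨p, hp⟩ := a
  refine ⟨dslope Φ 0, ⟨_, hp.has_fpower_series_dslope_fslope⟩, fun t => ?_⟩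
  have := sub_smul_dslope Φ 0 t
  rw [sub_zero] at this
  rw [this, add_sub_cancel]

theorem An.exp (h : An F) {θ : ℝ × ℝ → ℂ} (h0 : ∀ ω ∈ csq, F 0 ω = 0)
    (h1 : ∀ ω ∈ csq, HasDerivAt (fun t => F t ω) (θ ω) 0) :
    ∃ (s : ℝ × ℝ → ℂ) (C : ℝ), ContinuousOn s csq ∧ ∀ᶠ t in 𝓝 (0 : ℂ), ContinuousOn (F t) csq ∧
      ∀ ω ∈ csq, ‖F t ω - (t * θ ω + t ^ 2 * s ω)‖ ≤ C * ‖t‖ ^ 3 := by
  classical
  obtain ⟨Φ, a, b⟩ := h
  obtain ⟨Φ₁, a₁, e₁⟩ := ds a
  obtain ⟨Φ₂, a₂, e₂⟩ := ds a₁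
  obtain ⟨Φ₃, a₃, e₃⟩ := ds a₂
  have z0 : ∀ ω : csq, Φ 0 ω = 0 := fun ω => by rw [b.self_of_nhds, h0 ω ω.2]
  have z1 : ∀ ω : csq, θ ω = Φ₁ 0 ω := fun ω => by
    have := ((hasDerivAt_id (0 : ℂ)).mul (evd a₁ ω).hasDerivAt).congr_deriv (g' := Φ₁ 0 ω)
      (by simp)
    refine (h1 ω ω.2).unique (this.congr_of_eventuallyEq (b.mono fun t h => ?_))
    simp only [← h ω, e₁ t]
    simp [z0]
  refine ⟨fun ω => if h : ω ∈ csq then Φ₂ 0 ⟨ω, h⟩ else 0, ‖Φ₃ 0‖ + 1, ?_, ?_⟩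
  · rw [continuousOn_iff_continuous_domRestrict]
    exact (Φ₂ 0).continuous.congr fun ω => by simp [ω.2]
  filter_upwards [b, a₃.continuousAt.norm.eventually (gt_mem_nhds (lt_add_one _))] with t h h'
  refine ⟨?_, fun ω hω => ?_⟩
  · rw [continuousOn_iff_continuous_domRestrict]
    exact (Φ t).continuous.congr h
  · have e : F t ω - (t * θ ω + t ^ 2 * Φ₂ 0 ⟨ω, hω⟩) = t ^ 3 * Φ₃ t ⟨ω, hω⟩ := by
      rw [← h ⟨ω, hω⟩, z1 ⟨ω, hω⟩, e₁ t, e₂ t, e₃ t]
      simp only [ContinuousMap.add_apply, ContinuousMap.smul_apply, smul_eq_mul, z0]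
      ring
    rw [dif_pos hω, e, norm_mul, norm_pow, mul_comm]
    exact mul_le_mul_of_nonneg_right (((Φ₃ t).norm_coe_le_norm _).trans h'.le) (by positivity)

theorem quo {N D : ℂ → ℂ} {n : ℂ} (hN : HasDerivAt N n 0) (hD : DifferentiableAt ℂ D 0)
    (h0 : N 0 = 0) (h1 : D 0 ≠ 0) : HasDerivAt (fun t => N t / D t) (n / D 0) 0 := by
  refine (hN.div hD.hasDerivAt h1).congr_deriv ?_
  rw [h0]
  field_simp
  ring

theorem ray_der {z y : ℂ} {s : ℝ} (h : NN z y s ≠ 0) :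
    HasDerivAt (fun t => ray (z + t) y s) (s * dl y ^ 2 / NN z y s ^ 2) 0 := by
  have i : HasDerivAt (fun t : ℂ => z + t) 1 0 := (hasDerivAt_id _).const_add z
  have := i.add ((((i.const_sub y).mul (i.sub_const (conj y))).div
    ((i.sub_const (conj y)).sub ((i.sub_const y).const_mul (s : ℂ)))
    (by simpa only [Pi.sub_apply, add_zero, ne_eq, NN] using h)).const_mul (1 - (s : ℂ)))
  refine this.congr_deriv ?_
  simp only [Pi.mul_apply, Pi.sub_apply, add_zero]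
  unfold NN at h ⊢
  unfold dl
  field_simp
  ring

end PHIx

open PHIx in
theorem PHI (hG : GEO_s) (hP : GEP_s) : PHI_s := by
  rintro z p q hT
  obtain ⟨hz, hp, hq, -⟩ := id hT
  have cy : ContinuousOn (fun ω : ℝ × ℝ => geo p q ω.1) csq := fun ω hω =>
    ((hG.smooth p q ω.1 hp hq hω.1).1.continuousAt.comp (f := fun ω : ℝ × ℝ => (p, q, ω.1))
      (by fun_prop)).continuousWithinAt
  have cy' : ContinuousOn (fun ω : ℝ × ℝ => geo' p q ω.1) csq := fun ω hω =>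
    ((hG.smooth p q ω.1 hp hq hω.1).2.continuousAt.comp (f := fun ω : ℝ × ℝ => (p, q, ω.1))
      (by fun_prop)).continuousWithinAt
  have cc : ∀ {f : ℝ × ℝ → ℂ}, ContinuousOn f csq → ContinuousOn (fun ω => conj (f ω)) csq :=
    fun h => continuous_conj.comp_continuousOn h
  have cs : ContinuousOn (fun ω : ℝ × ℝ => (ω.2 : ℂ)) csq := by fun_prop
  have c0 : ∀ {F}, An F → ContinuousOn (F 0) csq := fun ⟨Φ, _, b⟩ => by
    rw [continuousOn_iff_continuous_domRestrict]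
    exact (Φ 0).continuous.congr b.self_of_nhds
  have y := An.const cy
  have y' := An.const cy'
  have yb := An.const (cc cy)
  have s := An.const cs
  have i := An.id z
  have n0 : ∀ ω ∈ csq, NN z (geo p q ω.1) ω.2 ≠ 0 := fun ω hω =>
    hG.nn_ne _ _ _ hz (hG.im p q _ hp hq hω.1) hω.2
  have aN : An fun t ω => NN (z + t) (geo p q ω.1) ω.2 := (i.sub yb).sub (s.mul (i.sub y))
  have aD : An fun t ω => DD (z + t) p q ω :=
    i.add (((An.const continuousOn_const).sub s).mul (((y.sub i).mul (i.sub yb)).div aN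
      (by simpa only [add_zero, ne_eq, Prod.forall] using n0)))
  have a1 : An fun t ω => e1 (z + t) p q ω :=
    ((y'.mul (i.sub yb).sq).sub ((s.mul (An.const (cc cy'))).mul (i.sub y).sq)).div aN.sq
      (by simpa only [add_zero, ne_eq, OfNat.ofNat_ne_zero, not_false_eq_true, pow_eq_zero_iff, Prod.forall] using n0)
  have a2 : An fun t ω => e2 (z + t) p q ω :=
    (((i.sub y).mul (i.sub yb)).mul (y.sub yb)).div aN.sq (by simpa only [add_zero, ne_eq, OfNat.ofNat_ne_zero, not_false_eq_true, pow_eq_zero_iff, Prod.forall] using n0)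
  have cD : ContinuousOn (DD z p q) csq := by simpa using c0 aD
  have c1 : ContinuousOn (e1 z p q) csq := by simpa using c0 a1
  have c2 : ContinuousOn (e2 z p q) csq := by simpa using c0 a2
  have d0 : ∀ ω ∈ csq, DD z p q ω - conj (DD z p q ω) ≠ 0 := fun ω hω => by
    have : DD z p q ω ∈ seg z (geo p q ω.1) :=
      hG.rimg z _ hz (hG.im p q _ hp hq hω.1) ▸ mem_image_of_mem _ hω.2
    intro h
    have h' := congrArg im h
    have := this.1
    simp only [sub_im, conj_im, sub_neg_eq_add, zero_im, add_self_eq_zero] at h'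
    linarith
  have j0 : ∀ ω ∈ csq, e1 z p q ω * conj (e2 z p q ω) - e2 z p q ω * conj (e1 z p q ω) ≠ 0 :=
    fun ω hω h => by
      have h' := congrArg im h
      have := hP.jpos z p q ω hT hω
      simp only [sub_im, mul_im, conj_im, mul_neg, conj_re, zero_im, jc, neg_mul, lt_add_neg_iff_add_lt, zero_add] at h' this
      linarith
  have aJ := (An.const ((c1.mul (cc c2)).sub (c2.mul (cc c1)))).inv j0
  have aB : An fun t ω => czb (e1 z p q ω) (e2 z p q ω) (e1 (z + t) p q ω) (e2 (z + t) p q ω) :=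
    aJ.mul (((An.const c1).mul a2).sub ((An.const c2).mul a1))
  have aC : An fun t ω => cz (e1 z p q ω) (e2 z p q ω) (e1 (z + t) p q ω) (e2 (z + t) p q ω) :=
    aJ.mul (((An.const (cc c2)).mul a1).sub ((An.const (cc c1)).mul a2))
  have k1 : ∀ ω ∈ csq,
      cz (e1 z p q ω) (e2 z p q ω) (e1 (z + 0) p q ω) (e2 (z + 0) p q ω) = 1 := fun ω hω => by
    have := j0 ω hω
    simp only [cz, add_zero, smul_eq_mul]
    rw [mul_comm (conj (e2 z p q ω)), mul_comm (conj (e1 z p q ω)), inv_mul_cancel₀ this]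
  have k0 : ∀ ω, czb (e1 z p q ω) (e2 z p q ω) (e1 (z + 0) p q ω) (e2 (z + 0) p q ω) = 0 :=
    fun ω => by simp [czb, mul_comm]
  have aE := aD.sub (An.const (cc cD))
  obtain ⟨s₁, C₁, p1, p2⟩ := An.exp (F := fun t => ph1 z (z + t) p q) (θ := th1 z p q)
    ((aD.sub (An.const cD)).div aE (by simpa only [add_zero, ne_eq, Prod.forall] using d0)) (fun ω _ => by simp [ph1]) fun ω hω =>
      (quo ((ray_der (n0 ω hω)).sub_const (DD z p q ω)) (aE.dif hω)
        (by simp [DD]) (by simpa using d0 ω hω)).congr_deriv (by rw [add_zero]; rfl)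
  obtain ⟨s₂, C₂, q1, q2⟩ := An.exp (F := fun t => ph2 z (z + t) p q) (θ := th2 z p q)
    (aB.div aC fun ω hω => by rw [k1 ω hω]; exact one_ne_zero)
    (fun ω _ => by simp only [ph2, k0, zero_div]) fun ω hω => by
      have b1 := (a1.dif hω).hasDerivAt
      have b2 := (a2.dif hω).hasDerivAt
      rw [deriv_comp_const_add (f := fun t => e1 t p q ω), add_zero] at b1
      rw [deriv_comp_const_add (f := fun t => e2 t p q ω), add_zero] at b2
      have := quo (((b2.const_mul (e1 z p q ω)).sub (b1.const_mul (e2 z p q ω))).const_mul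
        (e1 z p q ω * conj (e2 z p q ω) - e2 z p q ω * conj (e1 z p q ω))⁻¹) (aC.dif hω) (k0 ω)
        (by rw [k1 ω hω]; exact one_ne_zero)
      rw [k1 ω hω, div_one] at this
      exact this
  refine ⟨s₁, s₂, max C₁ C₂, p1, q1, (p2.and q2).mono fun t h => ⟨h.1.1, h.2.1, fun ω hω =>
    ⟨(h.1.2 ω hω).trans ?_, (h.2.2 ω hω).trans ?_⟩⟩⟩
  · gcongr; exact le_max_left _ _
  · gcongr; exact le_max_right _ _

end Pool.Agent.MP_596265_gt.Hd

end

section

attribute [-instance] ProperSMul.toContinuousSMul NonarchimedeanAddGroup.toIsTopologicalAddGroup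
  Finite.instDiscreteTopology IsStarProjection.instTrivialStarOfStarOrderedRing
  AddQuantale.instAddLeftMono IdemSemiring.toCanonicallyOrderedAdd
  IsTopologicalSemiring.toContinuousAdd MonTypeEquivalenceMon.monMonoid
  continuousSub_of_discreteTopology littleWedderburn IsValuativeTopology.instIsTopologicalAddGroup
  IdemSemiring.toMulLeftMono AlgHom.instNonUnitalAlgHomClassOfAlgHomClass CommRing.toCommSemiring
  NonUnitalNonAssocSemiring.toMulZeroClass CommRing.toRing MulSemiringAction.toDistribMulAction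
  instStarHomClassOfSelfAdjointDecomposeOfStarOrderedRingOfStarModuleOfOrderHomClassOfLinearMapClassComplex
  IsIsometricSMul.to_continuousConstSMul LeftPreLieAlgebra.toModule LieAdmissibleAlgebra.toModule
  IsOrderedMonoid.toMulLeftMono RKHS.instFunLike NonUnitalRing.toNonUnitalNonAssocRing
  AddQuantale.instAddRightMono RightPreLieAlgebra.toModule Valued.toUniformSpace
  IdemSemiring.toSemiring NumberField.to_charZero Quantale.instMulLeftMono

/-! Block H, row PW: pointwise change of the base point and frame; expansion of `Gm`. -/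

namespace Pool.Agent.MP_596265_gt.Hd

open Complex
open scoped ComplexConjugate InnerProductSpace

noncomputable section

namespace PWx

local instance (priority := high) i1 : Ring (E8 →L[ℂ] E8) := inferInstance
local instance (priority := high) i2 : NonUnitalRing (E8 →L[ℂ] E8) := inferInstance
local instance (priority := high) i3 : AddCommGroup (E8 →L[ℂ] E8) := inferInstance
local instance (priority := high) i4 : ContinuousSMul ℂ (E8 →L[ℂ] E8) := inferInstance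
local instance (priority := high) i5 : Module ℂ (E8 →L[ℂ] E8) := inferInstance
local instance (priority := high) i6 : NonUnitalNonAssocRing (E8 →L[ℂ] E8) := inferInstance
lemma op_apply (M : Matrix Ix Ix ℂ) (x : E8) (k : Ix) : op M x k = ∑ l, M k l * x l := rfl

lemma dg_apply (c : Ix → ℂ) (x : E8) (k : Ix) : dg c x k = c k * x k := by
  change (Matrix.diagonal c).mulVec x k = _
  rw [Matrix.mulVec_diagonal]

lemma star_op (M : Matrix Ix Ix ℂ) : star (op M) = op M.conjTranspose :=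
  (map_star (Matrix.toEuclideanCLM (n := Ix) (𝕜 := ℂ)) M).symm

lemma N1_apply (x : E8) (i j m : Bool) : N1 x (i, j, m) = if i then 0 else x (true, j, m) := by
  cases i <;> simp [N1, op_apply]
lemma N2_apply (x : E8) (i j m : Bool) : N2 x (i, j, m) = if j then 0 else x (i, true, m) := by
  cases j <;> simp [N2, op_apply]
lemma N3_apply (x : E8) (i j m : Bool) : N3 x (i, j, m) = if m then 0 else x (i, j, true) := by
  cases m <;> simp [N3, op_apply]
lemma sN1_apply (x : E8) (i j m : Bool) :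
    (star N1) x (i, j, m) = if i then x (false, j, m) else 0 := by
  cases i <;> cases j <;> cases m <;> simp [N1, star_op, op_apply, Fintype.sum_prod_type]
lemma sN2_apply (x : E8) (i j m : Bool) :
    (star N2) x (i, j, m) = if j then x (i, false, m) else 0 := by
  cases i <;> cases j <;> cases m <;> simp [N2, star_op, op_apply, Fintype.sum_prod_type]
lemma sN3_apply (x : E8) (i j m : Bool) :
    (star N3) x (i, j, m) = if m then x (i, j, false) else 0 := by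
  cases i <;> cases j <;> cases m <;> simp [N3, star_op, op_apply, Fintype.sum_prod_type]

/-- The hermitian part of the motion in one slot. -/
def hm (N : E8 →L[ℂ] E8) (φ : ℂ) : E8 →L[ℂ] E8 := φ • N + conj φ • star N

lemma hm1 (φ : ℂ) (x : E8) (i j m : Bool) : hm N1 φ x (i, j, m) = pt φ i * x (!i, j, m) := by
  cases i <;> simp only [hm, add_apply, smul_apply, PiLp.add_apply, PiLp.smul_apply, N1_apply, Bool.false_eq_true, ↓ reduceIte, smul_eq_mul, sN1_apply, mul_zero, add_zero, pt, Bool.not_false, zero_add, Bool.not_true]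
lemma hm2 (φ : ℂ) (x : E8) (i j m : Bool) : hm N2 φ x (i, j, m) = pt φ j * x (i, !j, m) := by
  cases j <;> simp only [hm, add_apply, smul_apply, PiLp.add_apply, PiLp.smul_apply, N2_apply, Bool.false_eq_true, ↓ reduceIte, smul_eq_mul, sN2_apply, mul_zero, add_zero, pt, Bool.not_false, zero_add, Bool.not_true]
lemma hm3 (φ : ℂ) (x : E8) (i j m : Bool) : hm N3 φ x (i, j, m) = pt φ m * x (i, j, !m) := by
  cases m <;> simp only [hm, add_apply, smul_apply, PiLp.add_apply, PiLp.smul_apply, N3_apply, Bool.false_eq_true, ↓ reduceIte, smul_eq_mul, sN3_apply, mul_zero, add_zero, pt, Bool.not_false, zero_add, Bool.not_true]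

lemma st_add (A B : E8 →L[ℂ] E8) : star (A + B) = star A + star B := star_add A B
lemma st_sub (A B : E8 →L[ℂ] E8) : star (A - B) = star A - star B := star_sub A B

lemma star_hm (N : E8 →L[ℂ] E8) (φ : ℂ) : star (hm N φ) = hm N φ := by
  rw [hm, st_add, star_smul, star_smul, star_star, add_comm, RCLike.star_def, conj_conj]

lemma pt_mul (φ : ℂ) (i : Bool) : pt φ i * pt φ (!i) = (normSq φ : ℂ) := by
  cases i <;> simp [pt, mul_conj, normSq_eq_conj_mul_self]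

lemma hm11 (φ : ℂ) : hm N1 φ * hm N1 φ = (normSq φ : ℂ) • 1 := by
  ext x ⟨i, j, m⟩
  simp only [mul_apply_eq_comp, hm1, ← mul_assoc, pt_mul, Bool.not_not, smul_apply,
    one_apply_eq_self, PiLp.smul_apply, smul_eq_mul]
lemma hm22 (φ : ℂ) : hm N2 φ * hm N2 φ = (normSq φ : ℂ) • 1 := by
  ext x ⟨i, j, m⟩
  simp only [mul_apply_eq_comp, hm2, ← mul_assoc, pt_mul, Bool.not_not, smul_apply,
    one_apply_eq_self, PiLp.smul_apply, smul_eq_mul]
lemma hm33 (φ : ℂ) : hm N3 φ * hm N3 φ = (normSq φ : ℂ) • 1 := by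
  ext x ⟨i, j, m⟩
  simp only [mul_apply_eq_comp, hm3, ← mul_assoc, pt_mul, Bool.not_not, smul_apply,
    one_apply_eq_self, PiLp.smul_apply, smul_eq_mul]
lemma hm12 (φ ψ : ℂ) : Commute (hm N1 φ) (hm N2 ψ) := by
  ext x ⟨i, j, m⟩
  simp only [mul_apply_eq_comp, hm1, hm2, mul_left_comm]
lemma hm13 (φ ψ : ℂ) : Commute (hm N1 φ) (hm N3 ψ) := by
  ext x ⟨i, j, m⟩
  simp only [mul_apply_eq_comp, hm1, hm3, mul_left_comm]
lemma hm23 (φ ψ : ℂ) : Commute (hm N2 φ) (hm N3 ψ) := by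
  ext x ⟨i, j, m⟩
  simp only [mul_apply_eq_comp, hm2, hm3, mul_left_comm]

lemma blk_eq {N : E8 →L[ℂ] E8} {φ : ℂ} (h : hm N φ * hm N φ = (normSq φ : ℂ) • 1) :
    blk N φ = ((1 - normSq φ : ℝ) : ℂ)⁻¹ • ((1 - hm N φ) * (1 - hm N φ)) := by
  rw [blk, mul_sub, sub_mul, sub_mul, h, mul_one, mul_one, one_mul, hm]
  congr 1
  push_cast
  module

/-- The unnormalised motion. -/
def Tm (φ ψ : ℂ) : E8 →L[ℂ] E8 := (1 - hm N1 φ) * (1 - hm N2 φ) * (1 - hm N3 ψ)

lemma Tm_apply (φ ψ : ℂ) (x : E8) (i j m : Bool) : Tm φ ψ x (i, j, m) =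
    (x (i, j, m) - pt ψ m * x (i, j, !m) - pt φ j * (x (i, !j, m) - pt ψ m * x (i, !j, !m))) -
      pt φ i * (x (!i, j, m) - pt ψ m * x (!i, j, !m) -
        pt φ j * (x (!i, !j, m) - pt ψ m * x (!i, !j, !m))) := by
  simp only [Tm, mul_apply_eq_comp, sub_apply, one_apply_eq_self, PiLp.sub_apply, hm1, hm2, hm3]

lemma Gm_eq (φ ψ : ℂ) : Gm φ ψ =
    ((((1 - normSq φ) ^ 2 * (1 - normSq ψ))⁻¹ : ℝ) : ℂ) • (star (Tm φ ψ) * Tm φ ψ) := by
  have c12 : Commute (1 - hm N1 φ) (1 - hm N2 φ) :=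
    (Commute.one_left _).sub_left ((Commute.one_right _).sub_right (hm12 φ φ))
  have c13 : Commute (1 - hm N1 φ) (1 - hm N3 ψ) :=
    (Commute.one_left _).sub_left ((Commute.one_right _).sub_right (hm13 φ ψ))
  have c23 : Commute (1 - hm N2 φ) (1 - hm N3 ψ) :=
    (Commute.one_left _).sub_left ((Commute.one_right _).sub_right (hm23 φ ψ))
  rw [Gm, blk_eq (hm11 φ), blk_eq (hm22 φ), blk_eq (hm33 ψ), Tm]
  simp only [star_mul, st_sub, star_one, star_hm, smul_mul_smul_comm]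
  generalize 1 - hm N1 φ = A at *
  generalize 1 - hm N2 φ = B at *
  generalize 1 - hm N3 ψ = C at *
  congr 1
  · push_cast
    rw [mul_inv, pow_two, mul_inv]
  · rw [← c12.eq, ← (c13.mul_left c23).eq, ((c13.mul_left c23).mul_mul_mul_comm _ _).symm,
      c12.mul_mul_mul_comm]

lemma star_Gm (φ ψ : ℂ) : star (Gm φ ψ) = Gm φ ψ := by
  rw [Gm_eq, star_smul, star_mul, star_star, RCLike.star_def, conj_ofReal]

lemma norm_of_mul {x x' : E8} {u : Ix → ℂ} {c : ℝ} (hu : ∀ k, normSq (u k) = c)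
    (hx : ∀ k, x' k = u k * x k) : ‖x'‖ ^ 2 = c * ‖x‖ ^ 2 := by
  simp only [EuclideanSpace.norm_sq_eq, Finset.mul_sum, hx, ← normSq_eq_norm_sq, map_mul, hu]

lemma pt_sub {w w' : ℂ} (h : w' - conj w ≠ 0) (hw : dl w ≠ 0) (i : Bool) :
    pt ((w' - conj w) / dl w) i * (1 - pt ((w' - w) / (w' - conj w)) i) = 1 ∧
    pt ((w' - conj w) / dl w) i * (pt w i - pt ((w' - w) / (w' - conj w)) i * pt w (!i)) =
      pt w' i := by
  have k : (w' - conj w) / dl w * (1 - (w' - w) / (w' - conj w)) = 1 ∧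
      (w' - conj w) / dl w * (w - (w' - w) / (w' - conj w) * conj w) = w' := by
    unfold dl at *
    constructor <;> field_simp <;> ring
  cases i
  · simpa only [pt, Bool.false_eq_true, ↓ reduceIte, Bool.not_false] using k
  · have k1 := congrArg conj k.1
    have k2 := congrArg conj k.2
    simp only [map_mul, map_sub, map_one, conj_conj] at k1 k2
    exact ⟨k1, k2⟩

lemma ev_move {α φ β χ s s₁ s' t t₁ t' : ℂ} (X : Mat) (h1 : α * (1 - φ) = 1)
    (h2 : α * (s - φ * s₁) = s') (h3 : β * (1 - χ) = 1) (h4 : β * (t - χ * t₁) = t') :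
    ev X s' t' = α * β * (ev X s t - χ * ev X s t₁ - φ * (ev X s₁ t - χ * ev X s₁ t₁)) := by
  subst h2 h4
  unfold ev
  linear_combination (-(X 0 0 * β * (t - χ * t₁)) - X 0 1) * h1 +
    (-(α * (1 - φ) * X 0 1) + α * (s - φ * s₁) * X 1 1) * h3

lemma ev_cz (a b : ℂ) (X Y : Mat) (s t : ℂ) :
    ev (cz a b X Y) s t = cz a b (ev X s t) (ev Y s t) ∧
      ev (czb a b X Y) s t = czb a b (ev X s t) (ev Y s t) := by
  constructor <;> simp only [ev, cz, czb, Matrix.smul_apply, Matrix.sub_apply, smul_eq_mul] <;> ring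

lemma del_eq (a b : ℂ) : a * conj b - b * conj a = -(2 * I) * jc a b := by
  apply Complex.ext <;> simp only [sub_re, mul_re, conj_re, conj_im, mul_neg, sub_neg_eq_add, jc, mul_im, neg_mul, ofReal_add, ofReal_mul, ofReal_neg, neg_re, re_ofNat, I_re, mul_zero, im_ofNat, I_im, mul_one, sub_self, add_re, ofReal_re, ofReal_im, sub_zero, zero_mul, add_zero, add_im, neg_im, neg_zero, sub_im, zero_add] <;> ring

lemma del_ne {a b : ℂ} (h : 0 < jc a b) : a * conj b - b * conj a ≠ 0 := by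
  rw [del_eq]
  simp [h.ne']

lemma cz_spec {a b : ℂ} (h : 0 < jc a b) (x y : ℂ) :
    x = cz a b x y * a + czb a b x y * conj a ∧ y = cz a b x y * b + czb a b x y * conj b := by
  have := del_ne h
  simp only [cz, czb, smul_eq_mul]
  constructor <;> field_simp <;> ring

lemma jc_comb (a b p q : ℂ) :
    jc (p * a + q * conj a) (p * b + q * conj b) = (normSq p - normSq q) * jc a b := by
  simp only [jc, map_add, map_mul, RingHomCompTriple.comp_apply, RingHom.id_apply, mul_im, add_re, mul_re, conj_re, conj_im, mul_neg, neg_mul, neg_neg, sub_neg_eq_add, add_im, normSq_apply]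
  ring

lemma cz_move {a b p q : ℂ} (h : 0 < jc a b) (hp : p ≠ 0) (hd : normSq p - normSq q ≠ 0)
    (x y : ℂ) :
    cz (p * a + q * conj a) (p * b + q * conj b) x y =
      conj (p / (normSq p - normSq q : ℝ)) * (cz a b x y - conj (q / p) * czb a b x y) ∧
    czb (p * a + q * conj a) (p * b + q * conj b) x y =
      p / (normSq p - normSq q : ℝ) * (czb a b x y - q / p * cz a b x y) := by
  have h1 : (jc a b : ℂ) ≠ 0 := by simp [h.ne']
  have h2 : ((normSq p - normSq q : ℝ) : ℂ) ≠ 0 := ofReal_ne_zero.2 hd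
  have h3 : conj p ≠ 0 := by simp [hp]
  simp only [cz, czb, smul_eq_mul, del_eq, jc_comb, ofReal_mul]
  simp only [map_div₀, conj_ofReal, map_add, map_mul, conj_conj]
  generalize ((normSq p - normSq q : ℝ) : ℂ) = D at *
  constructor <;> field_simp <;> ring

lemma frame_lt {a b a' b' : ℂ} (h : 0 < jc a b) (h' : 0 < jc a' b') :
    jc a' b' = (normSq (cz a b a' b') - normSq (czb a b a' b')) * jc a b ∧
      normSq (czb a b a' b') < normSq (cz a b a' b') ∧ cz a b a' b' ≠ 0 ∧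
        normSq (czb a b a' b' / cz a b a' b') < 1 := by
  have e : jc a' b' = (normSq (cz a b a' b') - normSq (czb a b a' b')) * jc a b := by
    rw [← jc_comb, ← (cz_spec h a' b').1, ← (cz_spec h a' b').2]
  have l := sub_pos.1 ((mul_pos_iff_of_pos_right h).1 (e ▸ h'))
  have l' := (normSq_nonneg _).trans_lt l
  exact ⟨e, l, normSq_pos.1 l', by rw [map_div₀]; exact (div_lt_one l').2 l⟩

lemma point_lt {w w' : ℂ} (h : 0 < w.im) (h' : 0 < w'.im) :
    normSq (w' - conj w) - normSq (w' - w) = 4 * w.im * w'.im ∧ w' - conj w ≠ 0 ∧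
      normSq ((w' - w) / (w' - conj w)) < 1 := by
  have e : normSq (w' - conj w) - normSq (w' - w) = 4 * w.im * w'.im := by
    simp [normSq_apply]
    ring
  have l : normSq (w' - w) < normSq (w' - conj w) := sub_pos.1 (e ▸ by positivity)
  have l' := (normSq_nonneg _).trans_lt l
  exact ⟨e, normSq_pos.1 l', by rw [map_div₀]; exact (div_lt_one l').2 l⟩

lemma normSq_dl (w : ℂ) : normSq (dl w) = 4 * w.im ^ 2 := by
  simp [dl, normSq_apply]
  ring

lemma dl_ne {w : ℂ} (h : 0 < w.im) : dl w ≠ 0 := by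
  rw [← normSq_pos, normSq_dl]
  positivity

lemma normSq_pt (w : ℂ) (i : Bool) : normSq (pt w i) = normSq w := by
  cases i <;> simp [pt]

lemma JJ_apply (w a b : ℂ) (X Y : Mat) (i j m : Bool) : JJ w a b X Y (i, j, m) =
    (√(jc a b) : ℝ) * ((if m then cz a b (ev X (pt w i) (pt w j)) (ev Y (pt w i) (pt w j)) else
      czb a b (ev X (pt w i) (pt w j)) (ev Y (pt w i) (pt w j))) / dl w) := by
  cases m <;> simp [JJ, J, ev_cz]

lemma JJ_move {w w' a b a' b' : ℂ} (hw : 0 < w.im) (hw' : 0 < w'.im) (h : 0 < jc a b)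
    (h' : 0 < jc a' b') : ∃ u : Ix → ℂ, (∀ k, normSq (u k) =
      ((1 - normSq ((w' - w) / (w' - conj w))) ^ 2 *
        (1 - normSq (czb a b a' b' / cz a b a' b')))⁻¹) ∧ ∀ X Y k, JJ w' a' b' X Y k =
      u k * Tm ((w' - w) / (w' - conj w)) (czb a b a' b' / cz a b a' b') (JJ w a b X Y) k := by
  obtain ⟨e, l, hp, -⟩ := frame_lt h h'
  obtain ⟨e', hn, -⟩ := point_lt hw hw'
  obtain ⟨ha, hb⟩ := cz_spec h a' b'
  have mv := cz_move h hp (sub_pos.2 l).ne'
  rw [← ha, ← hb] at mv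
  generalize cz a b a' b' = p at *
  generalize czb a b a' b' = q at *
  refine ⟨fun k => (√(jc a' b') / √(jc a b) : ℝ) * pt ((w' - conj w) / dl w) k.1 *
    pt ((w' - conj w) / dl w) k.2.1 * (dl w / dl w') * pt (p / (normSq p - normSq q : ℝ)) k.2.2,
    fun k => ?_, fun X Y ⟨i, j, m⟩ => ?_⟩
  · have p1 := normSq_pos.2 hp
    have p2 := normSq_pos.2 hn
    have p3 := sub_pos.2 l
    simp only [map_mul, normSq_pt, map_div₀, normSq_ofReal, normSq_dl]
    rw [one_sub_div p2.ne', one_sub_div p1.ne', e', ← pow_two, div_pow, Real.sq_sqrt h.le,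
      Real.sq_sqrt h'.le, e]
    generalize normSq p - normSq q = D at *
    field_simp
  · have s0 : ((√(jc a b) : ℝ) : ℂ) ≠ 0 := ofReal_ne_zero.2 (Real.sqrt_pos.2 h).ne'
    have d0 := dl_ne hw
    have k1 := pt_sub hn d0 i
    have k2 := pt_sub hn d0 j
    rw [Tm_apply]
    simp only [JJ_apply, ev_move _ k1.1 k1.2 k2.1 k2.2, mv, ofReal_div]
    generalize pt ((w' - conj w) / dl w) i = α
    generalize pt ((w' - conj w) / dl w) j = β
    generalize pt ((w' - w) / (w' - conj w)) i = φ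
    generalize pt ((w' - w) / (w' - conj w)) j = χ
    generalize p / (normSq p - normSq q : ℝ) = γ
    generalize q / p = ψ
    generalize pt w i = s₀
    generalize pt w (!i) = s₁
    generalize pt w j = t₀
    generalize pt w (!j) = t₁
    have s1 := mul_inv_cancel₀ s0
    have d1 := mul_inv_cancel₀ d0
    simp only [div_eq_mul_inv]
    generalize ((√(jc a b) : ℝ) : ℂ) = s at s1 ⊢
    generalize s⁻¹ = s' at s1 ⊢
    generalize (dl w)⁻¹ = δ' at d1 ⊢
    generalize dl w = δ at d1 ⊢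
    have e1 : 1 = s * s' * (δ * δ') := by rw [s1, d1, mul_one]
    refine (mul_one _).symm.trans ((congrArg _ e1).trans ?_)
    cases m <;> simp only [pt, cz, czb, smul_eq_mul, Bool.not_true, Bool.not_false, if_true,
      Bool.false_eq_true, if_false] <;> ring

theorem pw_norm {w w' a b a' b' : ℂ} (hw : 0 < w.im) (hw' : 0 < w'.im) (h : 0 < jc a b)
    (h' : 0 < jc a' b') (X₁ X₂ : Mat) : ‖JJ w' a' b' X₁ X₂‖ ^ 2 = (⟪JJ w a b X₁ X₂,
      Gm ((w' - w) / (w' - conj w)) (czb a b a' b' / cz a b a' b') (JJ w a b X₁ X₂)⟫_ℂ).re := by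
  obtain ⟨u, hu, hJ⟩ := JJ_move hw hw' h h'
  have ad : ∀ (T : E8 →L[ℂ] E8) x y, ⟪x, (star T) y⟫_ℂ = ⟪T x, y⟫_ℂ := fun T x y =>
    ContinuousLinearMap.adjoint_inner_right T x y
  rw [norm_of_mul hu (hJ X₁ X₂), Gm_eq, smul_apply, inner_smul_right, mul_apply_eq_comp, ad,
    inner_self_eq_norm_sq_to_K, re_ofReal_mul]
  norm_cast

section alg
variable {A : Type} [NormedRing A] [NormedAlgebra ℂ A]

/-- The exponential of `-2 M` to second order. -/
def E2 (M : A) : A := 1 - (2 : ℂ) • M + (2 : ℂ) • (M * M)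

lemma E2_le (h1 : ‖(1 : A)‖ ≤ 1) {M : A} {K : ℝ} (h : ‖M‖ ≤ K) : ‖E2 M‖ ≤ 1 + 2 * K + 2 * (K * K) := by
  refine norm_add_le_of_le (norm_sub_le_of_le h1 ?_) ?_ <;> rw [norm_smul, norm_ofNat]
  · gcongr
  · exact mul_le_mul_of_nonneg_left
      ((norm_mul_le _ _).trans (mul_self_le_mul_self (norm_nonneg _) h)) zero_le_two

lemma E2_mul (h1 : ‖(1 : A)‖ ≤ 1) (K : ℝ) : ∃ L : ℝ, K ≤ L ∧ ∀ ε ≤ (1 : ℝ), 0 ≤ ε → ∀ B B' M M' : A,
    Commute M M' → ‖M‖ ≤ K * ε → ‖M'‖ ≤ K * ε → ‖B - E2 M‖ ≤ K * ε ^ 3 → ‖B' - E2 M'‖ ≤ K * ε ^ 3 →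
      ‖M + M'‖ ≤ L * ε ∧ ‖B * B' - E2 (M + M')‖ ≤ L * ε ^ 3 := by
  set k := |K| with hk
  have k0 : 0 ≤ k := abs_nonneg K
  set e := 1 + 2 * k + 2 * (k * k) with he
  refine ⟨2 * k + (4 * (k * k * (k * k)) + 4 * (k * (k * k)) + 4 * (k * k * k) + k * (e + k) + e * k),
    (le_abs_self K).trans (by rw [two_mul, add_assoc]; exact le_add_of_nonneg_right (by positivity)),
    fun ε ε1 ε0 B B' M M' hc hM hM' hB hB' => ?_⟩
  have l1 : K * ε ≤ k * ε := mul_le_mul_of_nonneg_right (le_abs_self K) ε0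
  have l3 : K * ε ^ 3 ≤ k * ε ^ 3 := mul_le_mul_of_nonneg_right (le_abs_self K) (by positivity)
  replace hM := hM.trans l1
  replace hM' := hM'.trans l1
  replace hB := hB.trans l3
  replace hB' := hB'.trans l3
  have m1 : k * ε ≤ k := mul_le_of_le_one_right k0 ε1
  have m3 : k * ε ^ 3 ≤ k := mul_le_of_le_one_right k0 (pow_le_one₀ ε0 ε1)
  obtain ⟨R, rfl⟩ : ∃ R, B = E2 M + R := ⟨B - E2 M, by abel⟩
  obtain ⟨R', rfl⟩ : ∃ R', B' = E2 M' + R' := ⟨B' - E2 M', by abel⟩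
  rw [add_sub_cancel_left] at hB hB'
  have id : (E2 M + R) * (E2 M' + R') - E2 (M + M') = (4 : ℂ) • (M * M * (M' * M')) -
      (4 : ℂ) • (M * (M' * M')) - (4 : ℂ) • (M * M * M') + R * (E2 M' + R') + E2 M * R' := by
    rw [add_mul, mul_add (E2 M)]
    generalize R * (E2 M' + R') = X
    generalize E2 M * R' = Y
    simp only [E2, mul_add, add_mul, mul_sub, sub_mul, smul_mul_assoc, mul_smul_comm, mul_assoc,
      ← hc.eq, one_mul, mul_one]
    module
  have p : ∀ {X Y : A} {x y : ℝ}, ‖X‖ ≤ x → ‖Y‖ ≤ y → ‖X * Y‖ ≤ x * y := fun hX hY =>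
    (norm_mul_le _ _).trans (mul_le_mul hX hY (norm_nonneg _) ((norm_nonneg _).trans hX))
  have q : ∀ {X : A} {x : ℝ}, ‖X‖ ≤ x → ‖(4 : ℂ) • X‖ ≤ 4 * x := fun hX => by
    rw [norm_smul, norm_ofNat]
    gcongr
  constructor
  · refine (norm_add_le_of_le hM hM').trans ?_
    rw [add_mul, mul_assoc, two_mul]
    exact le_add_of_nonneg_right (by positivity)
  · rw [id]
    refine (norm_add_le_of_le (norm_add_le_of_le (norm_sub_le_of_le (norm_sub_le_of_le
      (q (p (p hM hM) (p hM' (hM'.trans m1)))) (q (p hM (p hM' hM')))) (q (p (p hM hM) hM')))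
      (p hB (norm_add_le_of_le (E2_le h1 (hM'.trans m1)) (hB'.trans m3))))
      (p (E2_le h1 (hM.trans m1)) hB')).trans ?_
    rw [add_mul (2 * k)]
    refine le_add_of_nonneg_of_le (by positivity) (le_of_eq ?_)
    ring

lemma E2_one (h1 : ‖(1 : A)‖ ≤ 1) {M : A} {c K ε : ℝ} (h : M * M = (c : ℂ) • 1) (c0 : 0 ≤ c)
    (hc : c ≤ ε ^ 2) (ε0 : 0 ≤ ε) (ε1 : ε ≤ 1 / 2) (hM : ‖M‖ ≤ K * ε) :
    ‖((1 - c : ℝ) : ℂ)⁻¹ • ((1 - M) * (1 - M)) - E2 M‖ ≤ (4 + 4 * K) * ε ^ 3 := by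
  have c1 : c ≤ 1 / 4 := hc.trans ((pow_le_pow_left₀ ε0 ε1 2).trans (by norm_num))
  have c2 : 0 < 1 - c := by linarith only [c1]
  have c3 : ((1 - c : ℝ) : ℂ) ≠ 0 := ofReal_ne_zero.2 c2.ne'
  have id : ((1 - c : ℝ) : ℂ)⁻¹ • ((1 - M) * (1 - M)) - E2 M =
      ((2 * c / (1 - c) : ℝ) : ℂ) • ((c : ℂ) • 1 - M) := by
    rw [E2, mul_sub, sub_mul, sub_mul, h, mul_one, mul_one, one_mul]
    push_cast at c3 ⊢
    match_scalars <;> field_simp <;> ring
  have b : 2 * c / (1 - c) ≤ 4 * ε ^ 2 := by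
    rw [div_le_iff₀ c2]
    nlinarith only [hc, c1]
  have b' : ‖(c : ℂ) • (1 : A)‖ ≤ ε := by
    rw [norm_smul, norm_real, Real.norm_of_nonneg c0]
    nlinarith only [h1, c0, hc, ε0, ε1]
  rw [id, norm_smul, norm_real, Real.norm_of_nonneg (by positivity)]
  refine (mul_le_mul b (norm_sub_le_of_le b' hM) (norm_nonneg _) (by positivity)).trans_eq ?_
  ring

end alg

lemma hm_le (N : E8 →L[ℂ] E8) {φ : ℂ} {ε : ℝ} (h : ‖φ‖ ≤ ε) : ‖hm N φ‖ ≤ 2 * ‖N‖ * ε := by
  have e : ‖star N‖ = ‖N‖ := ContinuousLinearMap.adjoint.norm_map N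
  refine (norm_add_le _ _).trans ?_
  rw [norm_smul, norm_smul, e, norm_conj, ← two_mul, mul_comm ‖φ‖, mul_assoc]
  gcongr

lemma th_add (φ ψ : ℂ) : th φ ψ + star (th φ ψ) = hm N1 φ + hm N2 φ + hm N3 ψ := by
  rw [th, st_add, star_smul, star_smul, st_add, hm, hm, hm, RCLike.star_def]
  module

lemma Gm_exp : ∃ C : ℝ, ∀ φ ψ : ℂ, ∀ ε ≤ 1 / 2, ‖φ‖ ≤ ε → ‖ψ‖ ≤ ε →
    ‖Gm φ ψ - E2 (th φ ψ + star (th φ ψ))‖ ≤ C * ε ^ 3 := by
  have h1 : ‖(1 : E8 →L[ℂ] E8)‖ ≤ 1 := ContinuousLinearMap.norm_id_le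
  set n := 2 * (‖N1‖ + ‖N2‖ + ‖N3‖) with hn
  obtain ⟨L, hL, H⟩ := E2_mul h1 (4 + 4 * n)
  obtain ⟨L', -, H'⟩ := E2_mul h1 L
  refine ⟨L', fun φ ψ ε ε1 hφ hψ => ?_⟩
  have ε0 := (norm_nonneg _).trans hφ
  have n1 := norm_nonneg N1
  have n2 := norm_nonneg N2
  have n3 := norm_nonneg N3
  have k : ∀ {N : E8 →L[ℂ] E8} {χ : ℂ}, hm N χ * hm N χ = (normSq χ : ℂ) • 1 → ‖χ‖ ≤ ε →
      2 * ‖N‖ ≤ n → ‖hm N χ‖ ≤ (4 + 4 * n) * ε ∧ ‖blk N χ - E2 (hm N χ)‖ ≤ (4 + 4 * n) * ε ^ 3 :=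
    fun {N χ} h hχ hN => by
      have l := (hm_le N hχ).trans (mul_le_mul_of_nonneg_right hN ε0)
      rw [blk_eq h]
      exact ⟨l.trans (mul_le_mul_of_nonneg_right (by linarith only [n1, n2, n3]) ε0), E2_one h1 h (normSq_nonneg _)
        (by rw [normSq_eq_norm_sq]; gcongr) ε0 ε1 l⟩
  have k1 := k (hm11 φ) hφ (by linarith only [n2, n3])
  have k2 := k (hm22 φ) hφ (by linarith only [n1, n3])
  have k3 := k (hm33 ψ) hψ (by linarith only [n1, n2])
  have ε2 : ε ≤ 1 := by linarith only [ε1]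
  have k4 := H ε ε2 ε0 _ _ _ _ (hm12 φ φ) k1.1 k2.1 k1.2 k2.2
  rw [th_add]
  exact (H' ε ε2 ε0 _ _ _ _ ((hm13 φ ψ).add_left (hm23 φ ψ)) k4.1
    (k3.1.trans (mul_le_mul_of_nonneg_right hL ε0)) k4.2
    (k3.2.trans (mul_le_mul_of_nonneg_right hL (by positivity)))).2

lemma blk_cont (N : E8 →L[ℂ] E8) : ContinuousOn (blk N) {φ | ‖φ‖ < 1} := by
  have a : Continuous fun φ : ℂ => ((1 - normSq φ : ℝ) : ℂ) := by fun_prop
  have b : Continuous fun φ : ℂ => ((1 + normSq φ : ℝ) : ℂ) • (1 : E8 →L[ℂ] E8) - (2 * φ) • N -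
      (2 * conj φ) • star N := by fun_prop
  refine (a.continuousOn.inv₀ fun φ h => ?_).smul b.continuousOn
  rw [ofReal_ne_zero, normSq_eq_norm_sq]
  exact (sub_pos.2 (pow_lt_one₀ (norm_nonneg _) h two_ne_zero)).ne'

lemma Gm_cont : ContinuousOn (fun x : ℂ × ℂ => Gm x.1 x.2) {x | ‖x.1‖ < 1 ∧ ‖x.2‖ < 1} :=
  (((blk_cont N1).comp continuousOn_fst fun _ h => h.1).mul
    ((blk_cont N2).comp continuousOn_fst fun _ h => h.1)).mul
      ((blk_cont N3).comp continuousOn_snd fun _ h => h.2)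

end PWx

theorem PW (_hA : ALG_s) : PW_s :=
  ⟨fun _ _ _ _ _ _ X₁ X₂ hw hw' h h' => PWx.pw_norm hw hw' h h' X₁ X₂, PWx.star_Gm, PWx.Gm_cont,
    PWx.Gm_exp⟩

end

end Pool.Agent.MP_596265_gt.Hd

end
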