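import Pool.Agent.MP_596265_gt.W.H0
import Pool.Agent.MP_596265_gt.W.L0

section

/-! Block H, row POI: the Poincaré inequality on the polar squares. -/

namespace Pool.Agent.MP_596265_gt.Hd

open MeasureTheory Set Complex Filter Topology
open scoped ComplexConjugate Matrix.Norms.Elementwise NNReal InnerProductSpace

namespace POIx

open U.Lip

section
variable {V : Type} [NormedAddCommGroup V] [NormedSpace ℝ V] [FiniteDimensional ℝ V] {C D : ℝ≥0}

lemma hor {a : ℝ → V} (ha : LipschitzWith C a) {s t : ℝ} (hs : s ∈ Icc (0 : ℝ) 1)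
    (ht : t ∈ Icc (0 : ℝ) 1) : ‖a s - a t‖ ^ 2 ≤ ∫ y in Ioo (0 : ℝ) 1, ‖deriv a y‖ ^ 2 := by
  have := prob01
  refine (pow_le_pow_left₀ (norm_nonneg _) (ftc_le ha hs ht) 2).trans ?_
  exact sq_int_le _ (aestronglyMeasurable_deriv a _).norm (M := C)
    fun y => by simpa using norm_deriv_le_of_lipschitz ha

lemma ver {a : ℝ → V} (ha : LipschitzWith C a) {s : ℝ} (hs : s ∈ Icc (0 : ℝ) 1) :
    (1 - s) * ‖a s - a 0‖ ^ 2 ≤ ∫ y in Ioo (0 : ℝ) 1, (1 - y) * ‖deriv a y‖ ^ 2 := by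
  have hb : LipschitzWith (C * 1) (a ∘ fun y => min y s) := ha.comp (LipschitzWith.id.min_const s)
  have h := hor hb hs ⟨le_rfl, zero_le_one⟩
  simp only [Function.comp_apply, min_self, min_eq_left hs.1] at h
  refine (mul_le_mul_of_nonneg_left h (sub_nonneg.2 hs.2)).trans ?_
  rw [← integral_const_mul]
  have hi : Integrable (fun y => (1 - y) * ‖deriv a y‖ ^ 2)
      ((volume : Measure ℝ).restrict (Ioo 0 1)) := by
    refine Measure.integrableOn_of_bounded (M := C ^ 2) (by simp only [Real.volume_Ioo, sub_zero, ENNReal.ofReal_one, ne_eq, ENNReal.one_ne_top, not_false_eq_true])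
      ((continuous_const.sub continuous_id).aestronglyMeasurable.mul
        ((aestronglyMeasurable_deriv a _).norm.pow 2)) ?_
    filter_upwards [ae_restrict_mem measurableSet_Ioo] with y hy
    have h1 : ‖deriv a y‖ ^ 2 ≤ C ^ 2 :=
      pow_le_pow_left₀ (norm_nonneg _) (norm_deriv_le_of_lipschitz ha) 2
    rw [Real.norm_of_nonneg (mul_nonneg (by linarith [hy.2]) (sq_nonneg _))]
    nlinarith only [hy.1, h1]
  refine integral_mono_of_nonneg (Eventually.of_forall fun y =>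
    mul_nonneg (sub_nonneg.2 hs.2) (sq_nonneg _)) hi ?_
  filter_upwards [ae_restrict_mem measurableSet_Ioo, ae_restrict_of_ae (Measure.ae_ne volume s)]
    with y hy hne
  rcases lt_or_gt_of_ne hne with h1 | h1
  · have e : (a ∘ fun y => min y s) =ᶠ[𝓝 y] a := by
      filter_upwards [Iio_mem_nhds h1] with x hx
      simp only [Function.comp_apply, min_eq_left (mem_Iio.1 hx).le]
    rw [e.deriv_eq]
    exact mul_le_mul_of_nonneg_right (by linarith) (sq_nonneg _)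
  · have e : (a ∘ fun y => min y s) =ᶠ[𝓝 y] fun _ => a s := by
      filter_upwards [Ioi_mem_nhds h1] with x hx
      simp only [Function.comp_apply, min_eq_right (mem_Ioi.1 hx).le]
    rw [e.deriv_eq, deriv_const, norm_zero]
    simpa only [ne_eq, OfNat.ofNat_ne_zero, not_false_eq_true, zero_pow, mul_zero, ge_iff_le] using mul_nonneg (by linarith [hy.2]) (sq_nonneg _)

noncomputable def nv : Measure ℝ := volume.restrict (Ioo 0 1)
instance : IsProbabilityMeasure nv := prob01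

lemma sq_eq : (volume : Measure (ℝ × ℝ)).restrict sq = nv.prod nv := by
  rw [sq, Measure.volume_eq_prod, ← Measure.prod_restrict]; rfl

noncomputable def G1 (f : ℝ × ℝ → V) (p : ℝ × ℝ) : ℝ := ‖lineDeriv ℝ f p (1, 0)‖ ^ 2
noncomputable def G2 (f : ℝ × ℝ → V) (p : ℝ × ℝ) : ℝ := (1 - p.2) * ‖lineDeriv ℝ f p (0, 1)‖ ^ 2
noncomputable def Q (f : ℝ × ℝ → V) (l : ℝ) : ℝ := ∫ y, G2 f (l, y) ∂nv
noncomputable def P (f : ℝ × ℝ → V) (s : ℝ) : ℝ := ∫ x, G1 f (x, s) ∂nv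
noncomputable def E1 (f : ℝ × ℝ → V) : ℝ := ∫ p, G1 f p ∂nv.prod nv
noncomputable def E2 (f : ℝ × ℝ → V) : ℝ := ∫ p, G2 f p ∂nv.prod nv

lemma mem1 : ∀ᵐ t ∂nv, t ∈ Ioo (0 : ℝ) 1 := ae_restrict_mem measurableSet_Ioo
lemma mem2 : ∀ᵐ q ∂nv.prod nv, q.1 ∈ Ioo (0 : ℝ) 1 ∧ q.2 ∈ Ioo (0 : ℝ) 1 :=
  (Measure.quasiMeasurePreserving_fst.ae mem1).and (Measure.quasiMeasurePreserving_snd.ae mem1)

lemma iG1 {f : ℝ × ℝ → V} (hf : LipschitzWith C f) : Integrable (G1 f) (nv.prod nv) :=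
  Integrable.of_bound ((stronglyMeasurable_lineDeriv hf.continuous).norm.measurable.pow_const
    2).aestronglyMeasurable ((C * ‖((1, 0) : ℝ × ℝ)‖) ^ 2) (Eventually.of_forall fun p => by
      rw [G1, norm_pow, norm_norm]; gcongr; exact norm_lineDeriv_le_of_lipschitz ℝ hf)

lemma iG2 {f : ℝ × ℝ → V} (hf : LipschitzWith C f) : Integrable (G2 f) (nv.prod nv) := by
  refine Integrable.of_bound ((measurable_const.sub measurable_snd).mul
    ((stronglyMeasurable_lineDeriv hf.continuous).norm.measurable.pow_const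
    2)).aestronglyMeasurable ((C * ‖((0, 1) : ℝ × ℝ)‖) ^ 2) (mem2.mono fun p hp => ?_)
  have h1 : ‖lineDeriv ℝ f p (0, 1)‖ ^ 2 ≤ (C * ‖((0, 1) : ℝ × ℝ)‖) ^ 2 :=
    pow_le_pow_left₀ (norm_nonneg _) (norm_lineDeriv_le_of_lipschitz ℝ hf) 2
  rw [G2, Real.norm_of_nonneg (mul_nonneg (by linarith [hp.2.2]) (sq_nonneg _))]
  nlinarith only [hp.2.1, h1]

lemma iQ {f : ℝ × ℝ → V} (hf : LipschitzWith C f) : Integrable (Q f) nv ∧ ∫ l, Q f l ∂nv = E2 f :=
  ⟨(iG2 hf).integral_prod_left, (integral_prod _ (iG2 hf)).symm⟩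

lemma iP {f : ℝ × ℝ → V} (hf : LipschitzWith C f) : Integrable (P f) nv ∧ ∫ l, P f l ∂nv = E1 f :=
  ⟨(iG1 hf).integral_prod_right, (integral_prod_symm _ (iG1 hf)).symm⟩

lemma refl_nv : MeasurePreserving (fun t : ℝ => 1 - t) nv nv := by
  have h := (Measure.measurePreserving_sub_left (volume : Measure ℝ) 1).restrict_preimage
    (measurableSet_Ioo (a := (0 : ℝ)) (b := 1))
  have e : (fun t : ℝ => 1 - t) ⁻¹' Ioo 0 1 = Ioo 0 1 := by
    ext t; simp only [mem_preimage, mem_Ioo]; constructor <;> intro h <;> constructor <;>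
      linarith [h.1, h.2]
  rwa [e] at h

lemma iQ' {f : ℝ × ℝ → V} (hf : LipschitzWith C f) :
    Integrable (fun l => Q f (1 - l)) nv ∧ ∫ l, Q f (1 - l) ∂nv = E2 f := by
  refine ⟨refl_nv.integrable_comp_of_integrable (iQ hf).1, ?_⟩
  rw [← (iQ hf).2]
  exact refl_nv.integral_comp (MeasurableEquiv.subLeft (1 : ℝ)).measurableEmbedding (Q f)

omit [FiniteDimensional ℝ V] in
lemma Q_nn (f : ℝ × ℝ → V) (l : ℝ) : 0 ≤ Q f l :=
  integral_nonneg_of_ae (mem1.mono fun y hy => mul_nonneg (by linarith [hy.2]) (sq_nonneg _))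

omit [FiniteDimensional ℝ V] in
lemma E1_nn (f : ℝ × ℝ → V) : 0 ≤ E1 f := integral_nonneg fun _ => sq_nonneg _

lemma verQ {f : ℝ × ℝ → V} (hf : LipschitzWith C f) (l : ℝ) {s : ℝ} (hs : s ∈ Icc (0 : ℝ) 1) :
    (1 - s) * ‖f (l, s) - f (l, 0)‖ ^ 2 ≤ Q f l := by
  have h := ver (hf.comp (LipschitzWith.prodMk_left l)) hs
  simp only [Q, G2, L2_eq]
  exact h

lemma horP {f : ℝ × ℝ → V} (hf : LipschitzWith C f) (s : ℝ) {l l' : ℝ} (hl : l ∈ Icc (0 : ℝ) 1)
    (hl' : l' ∈ Icc (0 : ℝ) 1) : ‖f (l, s) - f (l', s)‖ ^ 2 ≤ P f s := by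
  have h := hor (hf.comp (LipschitzWith.prodMk_right s)) hl hl'
  simp only [P, G1, L1_eq]
  exact h

lemma half : ∫ s, (1 - s) ∂nv = (1 / 2 : ℝ) := by
  rw [nv, ← integral_Ioc_eq_integral_Ioo, ← intervalIntegral.integral_of_le zero_le_one,
    intervalIntegral.integral_sub (by simp) (by simp)]
  norm_num [integral_id]

lemma core {f f' : ℝ × ℝ → V} (hf : LipschitzWith C f) (hf' : LipschitzWith D f') {a b l l' : ℝ}
    (ha : a ∈ Icc (0 : ℝ) 1) (hb : b ∈ Icc (0 : ℝ) 1) (hl : l ∈ Icc (0 : ℝ) 1)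
    (hl' : l' ∈ Icc (0 : ℝ) 1) (h : ∀ s ∈ Icc (0 : ℝ) 1, f (a, s) = f' (b, s)) :
    ‖f (l, 0) - f' (l', 0)‖ ^ 2 ≤ 8 * (Q f l + Q f' l' + E1 f + E1 f') := by
  have key : ∫ s, (1 - s) * ‖f (l, 0) - f' (l', 0)‖ ^ 2 ∂nv ≤
      ∫ s, 4 * (Q f l + Q f' l' + P f s + P f' s) ∂nv := by
    refine integral_mono_of_nonneg (mem1.mono fun s hs =>
      mul_nonneg (by linarith [hs.2]) (sq_nonneg _))
      ((((integrable_const _).add (iP hf).1).add (iP hf').1).const_mul 4) (mem1.mono fun s hs => ?_)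
    have hs' := Ioo_subset_Icc_self hs
    have h1 := verQ hf l hs'
    have h2 := verQ hf' l' hs'
    have h3 := horP hf s hl ha
    have h4 := horP hf' s hb hl'
    have e : f (l, 0) - f' (l', 0) = -(f (l, s) - f (l, 0)) + (f (l, s) - f (a, s)) +
        (f' (b, s) - f' (l', s)) + (f' (l', s) - f' (l', 0)) := by rw [h s hs']; abel
    have h5 : ‖f (l, 0) - f' (l', 0)‖ ≤ ‖f (l, s) - f (l, 0)‖ + ‖f (l, s) - f (a, s)‖ +
        ‖f' (b, s) - f' (l', s)‖ + ‖f' (l', s) - f' (l', 0)‖ := by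
      rw [e]
      refine (norm_add_le _ _).trans (add_le_add_left ((norm_add₃_le).trans ?_) _)
      rw [norm_neg]
    have h6 := pow_le_pow_left₀ (norm_nonneg _) h5 2
    set x1 := ‖f (l, s) - f (l, 0)‖
    set x2 := ‖f (l, s) - f (a, s)‖
    set x3 := ‖f' (b, s) - f' (l', s)‖
    set x4 := ‖f' (l', s) - f' (l', 0)‖
    have h7 : (x1 + x2 + x3 + x4) ^ 2 ≤ 4 * (x1 ^ 2 + x2 ^ 2 + x3 ^ 2 + x4 ^ 2) := by
      linarith only [sq_nonneg (x1 - x2), sq_nonneg (x1 - x3), sq_nonneg (x1 - x4), sq_nonneg (x2 - x3), sq_nonneg (x2 - x4), sq_nonneg (x3 - x4)]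
    have h8 := mul_le_mul_of_nonneg_left (h6.trans h7) (sub_nonneg.2 hs'.2)
    have h9 := mul_nonneg hs'.1 (sq_nonneg x2)
    have h10 := mul_nonneg hs'.1 (sq_nonneg x3)
    simp only
    linarith only [h1, h3, h4, h2, h8, h9, h10]
  have j : Integrable (fun s => Q f l + Q f' l' + P f s) nv := (integrable_const _).add (iP hf).1
  rw [integral_mul_const, half, integral_const_mul, integral_add j (iP hf').1,
    integral_add (integrable_const _) (iP hf).1, (iP hf).2, (iP hf').2] at key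
  simp only [integral_const, probReal_univ, smul_eq_mul, one_mul] at key
  linarith only [key]

end

lemma tl_sub (X Y : Mat) : tl (X - Y) = tl X - tl Y := by
  simp only [tl, Matrix.trace_sub, sub_div, sub_smul]; abel

lemma tl_tr (X : Mat) : (tl X).trace = 0 := by
  simp [tl]

lemma tl_le (X : Mat) : ‖tl X‖ ≤ 2 * ‖X‖ := by
  have h : ‖X.trace‖ ≤ 2 * ‖X‖ := by
    rw [Matrix.trace_fin_two]
    linarith [norm_add_le (X 0 0) (X 1 1), X.norm_entry_le_entrywise_sup_norm (i := 0) (j := 0),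
      X.norm_entry_le_entrywise_sup_norm (i := 1) (j := 1)]
  have h1 : ‖(1 : Mat)‖ ≤ 1 := by
    refine (Matrix.norm_le_iff zero_le_one).2 fun i j => ?_
    rw [Matrix.one_apply]; split_ifs <;> simp
  have h2 : ‖(X.trace / 2) • (1 : Mat)‖ ≤ ‖X‖ := by
    rw [norm_smul, norm_div, Complex.norm_two]
    have := mul_le_of_le_one_right (show 0 ≤ ‖X.trace‖ / 2 by positivity) h1
    linarith only [h, this]
  linarith [norm_sub_le X ((X.trace / 2) • (1 : Mat)), show ‖tl X‖ = ‖X - _‖ from rfl]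

lemma ad_sub (hA : ALG_s) (g : G) (X Y : Mat) : Ad g (X - Y) = Ad g X - Ad g Y := by
  rw [eq_sub_iff_add_eq, ← hA.ad_add, sub_add_cancel]

lemma tl_ad (hA : ALG_s) (g : G) (X : Mat) : tl (Ad g X) = Ad g (tl X) := by
  rw [tl, tl, ad_sub hA, hA.ad_smul, hA.ad_id, hA.ad_tr]

lemma lin (hA : ALG_s) {Dt : Type} [Fintype Dt] (nx rv : Dt → Dt) (g : Dt → G) (h1 : OneV nx rv)
    (hI : Irr g) : ∃ c : ℝ, 0 ≤ c ∧ ∀ (m : Dt → Mat) (B : ℝ), 0 ≤ B → (∀ d, (m d).trace = 0) →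
      (∀ d, ‖m d - m (nx (rv d))‖ ≤ B) → (∀ d, ‖m d - Ad (g d) (m (rv d))‖ ≤ B) →
      ∀ d, ‖m d‖ ≤ c * B := by
  let Ψ : (Dt → Mat) →ₗ[ℂ] (Dt → Mat × Mat × ℂ) :=
    { toFun := fun m d => (m d - m (nx (rv d)), m d - Ad (g d) (m (rv d)), (m d).trace)
      map_add' := fun m m' => by
        ext1 d
        simp only [Pi.add_apply, hA.ad_add, Matrix.trace_add, Prod.mk_add_mk, Prod.mk.injEq]
        refine ⟨by abel, by abel, trivial⟩
      map_smul' := fun a m => by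
        ext1 d
        simp [hA.ad_smul, smul_sub] }
  have hk : LinearMap.ker Ψ = ⊥ := by
    rw [LinearMap.ker_eq_bot']
    intro m hm
    have h2 : ∀ d, m d - m (nx (rv d)) = 0 ∧ m d - Ad (g d) (m (rv d)) = 0 ∧ (m d).trace = 0 :=
      fun d => by simpa [Ψ, Prod.ext_iff] using congrFun hm d
    funext d
    have h3 : ∀ d', m d' = m d := fun d' =>
      (h1 (fun x => m x = m d) (fun x => by rw [← sub_eq_zero.1 (h2 x).1]) d' d).2 rfl
    refine hI (m d) (h2 d).2.2 fun d' => ?_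
    have := sub_eq_zero.1 (h2 d').2.1
    rw [h3 d', h3 (rv d')] at this
    exact this.symm
  obtain ⟨K, -, hK⟩ := Ψ.exists_antilipschitzWith hk
  refine ⟨K, K.2, fun m B hB ht a1 a2 d => (norm_le_pi_norm m d).trans ?_⟩
  refine (ZeroHomClass.bound_of_antilipschitz Ψ hK m).trans
    (mul_le_mul_of_nonneg_left ((pi_norm_le_iff_of_nonneg hB).2 fun d => ?_) K.2)
  change ‖(m d - m (nx (rv d)), m d - Ad (g d) (m (rv d)), (m d).trace)‖ ≤ B
  rw [Prod.norm_def, Prod.norm_def, ht, norm_zero]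
  exact max_le (a1 d) (max_le (a2 d) hB)

end POIx

open POIx in
theorem POI (hA : ALG_s) (hP : PL_s) : POI_s := by
  intro Dt _ nx rv g _ h1 hI
  obtain ⟨c, hc, hl⟩ := lin hA nx rv g h1 hI
  choose K hK using fun d => hA.ad_lip (g d)
  set L : ℝ := 1 + ∑ d, (K d : ℝ) with hL
  have hL1 : 1 ≤ L := le_add_of_nonneg_right (Finset.sum_nonneg fun d _ => (K d).2)
  have hLK : ∀ d, (K d : ℝ) ≤ L := fun d =>
    (Finset.single_le_sum (f := fun d => (K d : ℝ)) (fun d _ => (K d).2)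
      (Finset.mem_univ d)).trans (le_add_of_nonneg_left zero_le_one)
  set c' : ℝ := 8 + 2 * (c * (8 * L)) ^ 2 with hc'
  refine ⟨Fintype.card Dt * (c' * 2), fun U hU => ?_⟩
  choose f C hf hfU using fun d => hP.ext (U d) (hU.lip d)
  set S : ℝ → ℝ := fun l => ∑ d, (Q (f d) l + Q (f d) (1 - l) + E1 (f d)) with hS
  have t0 : ∀ l d, 0 ≤ Q (f d) l + Q (f d) (1 - l) + E1 (f d) := fun l d =>
    add_nonneg (add_nonneg (Q_nn _ _) (Q_nn _ _)) (E1_nn _)
  have hS0 : ∀ l, 0 ≤ S l := fun l => Finset.sum_nonneg fun d _ => t0 l d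
  have hS1 : ∀ l d, Q (f d) l + Q (f d) (1 - l) + E1 (f d) ≤ S l := fun l d =>
    Finset.single_le_sum (f := fun d => Q (f d) l + Q (f d) (1 - l) + E1 (f d))
      (fun d _ => t0 l d) (Finset.mem_univ d)
  have z1 : (0 : ℝ) ∈ Icc (0 : ℝ) 1 := ⟨le_rfl, zero_le_one⟩
  have o1 : (1 : ℝ) ∈ Icc (0 : ℝ) 1 := ⟨zero_le_one, le_rfl⟩
  have sq4 : ∀ l x, x ^ 2 ≤ 16 * S l → x ≤ 4 * √(S l) := fun l x hx => by
    refine le_trans (le_abs_self x) (abs_le_of_sq_le_sq' ?_ (by positivity) |> abs_le.2)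
    rw [mul_pow, Real.sq_sqrt (hS0 l)]; linarith
  have base : ∀ l ∈ Icc (0 : ℝ) 1, ∀ d, ‖tl (f d (l, 0))‖ ≤ c * (8 * L * √(S l)) := by
    intro l hl'
    have hl2 : 1 - l ∈ Icc (0 : ℝ) 1 := ⟨by linarith [hl'.2], by linarith [hl'.1]⟩
    have hr := Real.sqrt_nonneg (S l)
    refine hl (fun d => tl (f d (l, 0))) _ (by positivity) (fun d => tl_tr _) (fun d => ?_)
      fun d => ?_
    · have a1 := core (hf d) (hf (nx (rv d))) z1 o1 hl' hl' fun s hs => by
        rw [hfU d _ ⟨z1, hs⟩, hfU _ _ ⟨o1, hs⟩, hU.rad d s hs]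
      have a2 := sq4 l ‖f d (l, 0) - f (nx (rv d)) (l, 0)‖ (by
        linarith [hS1 l d, hS1 l (nx (rv d)), Q_nn (f d) (1 - l), Q_nn (f (nx (rv d))) (1 - l)])
      rw [← tl_sub]
      refine (tl_le _).trans ?_
      nlinarith only [hL1, hr, a2]
    · have a1 := core (hf (rv d)) (hf (rv d)) z1 z1 hl2 hl' fun s _ => rfl
      have a2 := sq4 l ‖f (rv d) (1 - l, 0) - f (rv d) (l, 0)‖ (by
        linarith [hS1 l (rv d), Q_nn (f (rv d)) (1 - l), Q_nn (f (rv d)) l])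
      have a3 : f d (l, 0) = Ad (g d) (f (rv d) (1 - l, 0)) := by
        rw [hfU d _ ⟨hl', z1⟩, hfU _ _ ⟨hl2, z1⟩, hU.base d l hl', Pi.zero_apply, zero_add]
      have a4 := (hK d).norm_sub_le (f (rv d) (1 - l, 0)) (f (rv d) (l, 0))
      rw [← tl_ad hA, ← tl_sub, a3]
      refine (tl_le _).trans ?_
      have a5 := mul_le_mul (hLK d) a2 (norm_nonneg _) (by linarith only [hL1])
      linarith
  have iS : Integrable S nv := integrable_finsetSum _ fun d _ =>
    ((iQ (hf d)).1.add (iQ' (hf d)).1).add (integrable_const _)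
  have eS : ∫ l, S l ∂nv = ∑ d, (E2 (f d) + E2 (f d) + E1 (f d)) := by
    have j0 : ∀ d ∈ Finset.univ, Integrable
        (fun l => Q (f d) l + Q (f d) (1 - l) + E1 (f d)) nv := fun d _ =>
      ((iQ (hf d)).1.add (iQ' (hf d)).1).add (integrable_const _)
    simp only [hS]
    rw [integral_finsetSum _ j0]
    refine Finset.sum_congr rfl fun d _ => ?_
    have j : Integrable (fun l => Q (f d) l + Q (f d) (1 - l)) nv := (iQ (hf d)).1.add (iQ' (hf d)).1
    rw [integral_add j (integrable_const _),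
      integral_add (iQ (hf d)).1 (iQ' (hf d)).1, (iQ (hf d)).2, (iQ' (hf d)).2]
    simp
  have up : ∀ d, ∫ ω in sq, (1 - ω.2) * ‖tl (U d ω)‖ ^ 2 ≤ c' * ∫ l, S l ∂nv := by
    intro d
    have e : c' * ∫ l, S l ∂nv = ∫ ω : ℝ × ℝ, c' * S ω.1 ∂nv.prod nv := by
      rw [integral_const_mul, integral_fun_fst S]; simp
    rw [sq_eq, e]
    refine integral_mono_of_nonneg (mem2.mono fun ω hω =>
      mul_nonneg (by linarith [hω.2.2]) (sq_nonneg _)) ((iS.comp_fst nv).const_mul c')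
      (mem2.mono fun ω hω => ?_)
    obtain ⟨l, s⟩ := ω
    have b1 := Ioo_subset_Icc_self hω.1
    have b2 := Ioo_subset_Icc_self hω.2
    have a1 := verQ (hf d) l b2
    have a2 := pow_le_pow_left₀ (norm_nonneg _) (base l b1 d) 2
    rw [← mul_assoc, mul_pow, Real.sq_sqrt (hS0 l)] at a2
    have a3 := pow_le_pow_left₀ (norm_nonneg _) (tl_le (f d (l, s) - f d (l, 0))) 2
    have a4 : ‖tl (f d (l, s))‖ ≤ ‖tl (f d (l, s) - f d (l, 0))‖ + ‖tl (f d (l, 0))‖ := by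
      rw [tl_sub]; exact norm_le_norm_sub_add _ _
    have a5 := pow_le_pow_left₀ (norm_nonneg _) a4 2
    have a6 := hS1 l d
    have a7 := Q_nn (f d) (1 - l)
    have a8 := E1_nn (f d)
    simp only
    rw [← hfU d _ ⟨b1, b2⟩]
    set x := ‖tl (f d (l, s) - f d (l, 0))‖
    set y := ‖tl (f d (l, 0))‖
    have a9 : ‖tl (f d (l, s))‖ ^ 2 ≤ 8 * ‖f d (l, s) - f d (l, 0)‖ ^ 2 + 2 * y ^ 2 := by
      linarith only [sq_nonneg (x - y), a3, a5]
    have a10 := mul_le_mul_of_nonneg_left a9 (sub_nonneg.2 b2.2)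
    have a11 := mul_nonneg b2.1 (sq_nonneg y)
    rw [hc']
    linarith only [a1, a6, a7, a8, a2, a10, a11]
  have low : ∀ d, E1 (f d) + E2 (f d) ≤
      ∫ ω in sq, (1 - ω.2) * (‖r1 (U d) ω‖ ^ 2 + ‖r2 (U d) ω‖ ^ 2) := by
    intro d
    obtain ⟨M, hM⟩ := hP.dif (U d) (hU.lip d)
    obtain ⟨m1, m2⟩ := hP.meas (U d) (hU.lip d)
    rw [sq_eq] at hM m1 m2 ⊢
    rw [E1, E2, ← integral_add (iG1 (hf d)) (iG2 (hf d))]
    refine integral_mono_ae ((iG1 (hf d)).add (iG2 (hf d))) ?_ (mem2.mono fun ω hω => ?_)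
    · refine Integrable.of_bound ((continuous_const.sub continuous_snd).aestronglyMeasurable.mul
        ((m1.norm.pow 2).add (m2.norm.pow 2))) (M ^ 2 + M ^ 2) ?_
      filter_upwards [hM, mem2] with ω h hω
      have a1 := pow_le_pow_left₀ (norm_nonneg _) h.2.1 2
      have a2 := pow_le_pow_left₀ (norm_nonneg _) h.2.2 2
      rw [Real.norm_of_nonneg (mul_nonneg (by linarith only [hω.2.2]) (by positivity))]
      nlinarith only [hω.2.1, a1, a2]
    · have e : f d =ᶠ[𝓝 ω] U d := by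
        filter_upwards [(isOpen_Ioo.prod isOpen_Ioo).mem_nhds (⟨hω.1, hω.2⟩ : ω ∈ sq)] with x hx
        exact hfU d x ⟨Ioo_subset_Icc_self hx.1, Ioo_subset_Icc_self hx.2⟩
      have p : 0 < 1 - ω.2 := by linarith [hω.2.2]
      simp only [G1, G2, r1, r2, e.lineDeriv_eq, norm_smul, norm_inv, Real.norm_of_nonneg p.le]
      set x := ‖lineDeriv ℝ (U d) ω (1, 0)‖
      have a1 : (1 - ω.2) * ((1 - ω.2)⁻¹ * x) ^ 2 = (1 - ω.2)⁻¹ * x ^ 2 := by field_simp
      have a2 : 1 ≤ (1 - ω.2)⁻¹ := (one_le_inv₀ p).2 (by linarith only [hω.2.1])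
      nlinarith only [a1, a2]
  have c0 : 0 ≤ c' := by positivity
  refine (Finset.sum_le_sum fun d _ => up d).trans ?_
  rw [Finset.sum_const, Finset.card_univ, nsmul_eq_mul, mul_assoc, mul_assoc, eS]
  refine mul_le_mul_of_nonneg_left (mul_le_mul_of_nonneg_left ?_ c0) (Nat.cast_nonneg _)
  rw [Finset.mul_sum]
  exact Finset.sum_le_sum fun d _ => by linarith only [low d, E1_nn (f d)]

end Pool.Agent.MP_596265_gt.Hd

end

section

/-! Block H, row PUR: pure parts of admissible sections. -/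

namespace Pool.Agent.MP_596265_gt.Hd

open MeasureTheory Set Complex Filter Topology
open scoped ComplexConjugate Matrix.Norms.Elementwise NNReal InnerProductSpace

namespace PURx

lemma cd_conj (x : ℂ × Mat) : ContDiffAt ℝ 1 (fun y : ℂ × Mat => conj y.1) x :=
  (conjCLE.contDiff.comp contDiff_fst).contDiffAt

lemma cd_pt (i : Bool) (x : ℂ × Mat) : ContDiffAt ℝ 1 (fun y : ℂ × Mat => pt y.1 i) x := by
  cases i
  · exact contDiffAt_fst
  · exact cd_conj x

lemma cd_ent (a b : Fin 2) (x : ℂ × Mat) : ContDiffAt ℝ 1 (fun y : ℂ × Mat => y.2 a b) x :=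
  contDiffAt_pi.1 (contDiffAt_pi.1 contDiffAt_snd a) b

lemma cd_dl (x : ℂ × Mat) : ContDiffAt ℝ 1 (fun y : ℂ × Mat => dl y.1) x :=
  contDiffAt_fst.sub (cd_conj x)

lemma dl_ne {w : ℂ} (h : w.im ≠ 0) : dl w ≠ 0 := fun e => h (by
  have := congrArg Complex.im e
  simp only [dl, sub_im, conj_im, sub_neg_eq_add, zero_im, add_self_eq_zero] at this
  linarith)

lemma cd_div {f : ℂ × Mat → ℂ} {x : ℂ × Mat} (hf : ContDiffAt ℝ 1 f x) (h : x.1.im ≠ 0) :
    ContDiffAt ℝ 1 (fun y => f y / dl y.1) x := by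
  simp only [div_eq_mul_inv]
  exact hf.mul ((cd_dl x).inv (dl_ne h))

lemma cd_cp (i j : Bool) {x : ℂ × Mat} (h : x.1.im ≠ 0) :
    ContDiffAt ℝ 1 (fun y : ℂ × Mat => cp y.1 y.2 i j) x :=
  cd_div (((((cd_ent 0 0 x).mul (cd_pt j x)).add (cd_ent 0 1 x)).sub
    (((cd_pt i x).mul (cd_ent 1 0 x)).mul (cd_pt j x))).sub ((cd_pt i x).mul (cd_ent 1 1 x))) h

lemma cd_nn (i j : Bool) (x : ℂ × Mat) : ContDiffAt ℝ 1 (fun y : ℂ × Mat => nn y.1 i j) x := by
  refine contDiffAt_pi.2 fun a => contDiffAt_pi.2 fun b => ?_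
  fin_cases a <;> fin_cases b
  · exact cd_pt _ x
  · exact ((cd_pt _ x).mul (cd_pt _ x)).neg
  · exact contDiffAt_const
  · exact (cd_pt _ x).neg

lemma cd_pur (p : ℕ) {x : ℂ × Mat} (h : x.1.im ≠ 0) :
    ContDiffAt ℝ 1 (fun y : ℂ × Mat => pur p y.1 y.2) x := by
  unfold pur mk
  refine ContDiffAt.sum fun i _ => ContDiffAt.sum fun j _ => ?_
  refine ContDiffAt.smul (cd_div (contDiffAt_const.mul ?_) h) (cd_nn i j x)
  beta_reduce
  split_ifs
  · exact cd_cp i j h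
  · exact contDiffAt_const

lemma plip_pair {f : ℝ × ℝ → ℂ} {f' : ℝ × ℝ → Mat} (h : PLip f) (h' : PLip f') :
    PLip fun ω => (f ω, f' ω) := by
  obtain ⟨C, hC⟩ := h
  obtain ⟨C', hC'⟩ := h'
  refine ⟨max C C', fun ω hω ω' hω' => ?_⟩
  have h0 : 0 ≤ (1 - ω.2) * |ω.1 - ω'.1| + |ω.2 - ω'.2| :=
    add_nonneg (mul_nonneg (sub_nonneg.2 hω.2.2) (abs_nonneg _)) (abs_nonneg _)
  rw [Prod.mk_sub_mk, Prod.norm_mk]
  exact max_le ((hC ω hω ω' hω').trans (mul_le_mul_of_nonneg_right (le_max_left _ _) h0))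
    ((hC' ω hω ω' hω').trans (mul_le_mul_of_nonneg_right (le_max_right _ _) h0))

lemma dd_im (hG : GEO_s) {z p q : ℂ} (hz : 0 < z.im) (hp : 0 < p.im) (hq : 0 < q.im) {ω : ℝ × ℝ}
    (hω : ω ∈ csq) : 0 < (DD z p q ω).im := by
  have : DD z p q ω ∈ seg z (geo p q ω.1) := by
    rw [← hG.rimg z _ hz (hG.im p q _ hp hq hω.1)]
    exact ⟨ω.2, hω.2, rfl⟩
  exact this.1

lemma cls_congr {X : Type} [MeasurableSpace X] (μ : Measure X) {f f' : X → E8} (h : f =ᵐ[μ] f') :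
    cls μ f = cls μ f' := by
  unfold cls
  by_cases hf : MemLp f 2 μ
  · rw [dif_pos hf, dif_pos (hf.ae_eq h)]
    exact MemLp.toLp_congr _ _ h
  · rw [dif_neg hf, dif_neg fun h' => hf (h'.ae_eq h.symm)]

lemma cp_add (w : ℂ) (X Y : Mat) (i j : Bool) : cp w (X + Y) i j = cp w X i j + cp w Y i j := by
  simp only [cp, ev, Matrix.add_apply]; ring

lemma cp_smul (w a : ℂ) (X : Mat) (i j : Bool) : cp w (a • X) i j = a * cp w X i j := by
  simp only [cp, ev, Matrix.smul_apply, smul_eq_mul]; ring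

variable {Dt : Type} [Fintype Dt] {nx rv : Dt → Dt} {g : Dt → G} {c : Dt → ℂ} {z : ℂ}

omit [Fintype Dt] in
lemma adm0 (hA : ALG_s) : PAdm nx rv g 0 0 := by
  refine ⟨fun d => ⟨0, fun _ _ _ _ => by simp⟩, fun _ _ _ => rfl, fun d l _ => ?_⟩
  simpa using (hA.ad_smul (g d) 0 0).symm

omit [Fintype Dt] in
lemma adm (hA : ALG_s) (hG : GEO_s) (hE : GEP_s) (hL : PL_s) {U : Dt → ℝ × ℝ → Mat} (p : ℕ)
    (hS : Star nx rv g c z) (hU : PAdm nx rv g 0 U) :
    PAdm nx rv g 0 fun d ω => pur p (Dd nx rv c z d ω) (U d ω) := by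
  refine ⟨fun d => ?_, fun d s hs => ?_, fun d l hl => ?_⟩
  · have h1 := plip_pair (hE.plip z _ _ hS.im (hS.cim (nx (rv d))) (hS.cim d)) (hU.lip d)
    have h2 := hL.comp (fun y : ℂ × Mat => pur p y.1 y.2) _ h1 fun ω hω =>
      cd_pur p (x := (DD z (c (nx (rv d))) (c d) ω, U d ω))
        (dd_im hG hS.im (hS.cim (nx (rv d))) (hS.cim d) hω).ne'
    exact h2
  · simp only [Dd, DD]
    rw [hU.rad d s hs, (hG.zero _ _ (hS.cim _) (hS.cim d)).1,
      (hG.zero _ _ (hS.cim _) (hS.cim _)).2]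
  · have hl' : 1 - l ∈ Icc (0 : ℝ) 1 := ⟨sub_nonneg.2 hl.2, sub_le_self _ hl.1⟩
    have h1 : mob (g d) (c (rv d)) = c (nx (rv d)) := by
      rw [hS.crot (rv d), ← hA.mob_mul _ _ _ (hS.cim _).ne']
      rcases hS.gr d with h | h <;> rw [h]
      · exact hA.mob_one _
      · rw [hA.mob_neg, hA.mob_one]
    have h2 := hG.im _ _ _ (hS.cim (rv d)) (hS.cim (nx d)) hl
    simp only [Dd, DD]
    rw [hU.base d l hl, hS.r2, hG.symm _ _ _ (hS.cim (rv d)) (hS.cim (nx d)) hl,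
      (hG.ray0 _ _ hS.im h2).1, (hG.ray0 _ _ hS.im (hG.im _ _ _ (hS.cim _) (hS.cim d) hl)).1,
      Pi.zero_apply, zero_add, zero_add, ← hA.pur_ad _ _ _ _ h2.ne',
      hG.eqv _ _ _ _ (hS.cim _) (hS.cim _) hl, h1, ← hS.crot d]

lemma span_sub (hA : ALG_s) (hM : PM_s) (hS : Star nx rv g c z)
    (P : (Dt → ℝ × ℝ → Mat) → Prop) (h0 : P 0) (ha : ∀ U U', P U → P U' → P (U + U'))
    (hs : ∀ (a : ℂ) U, P U → P (a • U)) :
    ∃ M : Submodule ℂ (HP Dt), ∀ b, b ∈ M ↔ ∃ U, PAdm nx rv g 0 U ∧ P U ∧ b = dP nx rv c z U := by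
  refine ⟨⟨⟨⟨{b | ∃ U, PAdm nx rv g 0 U ∧ P U ∧ b = dP nx rv c z U}, ?_⟩, ?_⟩, ?_⟩, fun _ => Iff.rfl⟩
  · rintro _ _ ⟨U, hU, hP, rfl⟩ ⟨U', hU', hP', rfl⟩
    exact ⟨U + U', by simpa using (hM.adm nx rv g 0 0 U U' 0 hU hU').1, ha _ _ hP hP',
      (hM.lin nx rv g c z U U' 0 hS hU.lip hU'.lip).1.symm⟩
  · refine ⟨0, adm0 hA, h0, ?_⟩
    have := (hM.lin nx rv g c z 0 0 0 hS (adm0 (nx := nx) (rv := rv) (g := g) hA).lip
      (adm0 (nx := nx) (rv := rv) (g := g) hA).lip).2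
    rw [zero_smul, zero_smul] at this
    exact this.symm
  · rintro a _ ⟨U, hU, hP, rfl⟩
    exact ⟨a • U, by simpa using (hM.adm nx rv g 0 0 U U a hU hU).2, hs _ _ hP,
      (hM.lin nx rv g c z U U a hS hU.lip hU.lip).2.symm⟩

end PURx

open PURx in
theorem PUR (hA : ALG_s) (hG : GEO_s) (hE : GEP_s) (hL : PL_s) (hM : PM_s) : PUR_s where
  adm nx rv g c z U p hS hU := adm hA hG hE hL p hS hU
  sub nx rv g c z p b hS := by
    refine ⟨fun h => ?_, fun h => Submodule.subset_span h⟩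
    obtain ⟨M, hM'⟩ := span_sub hA hM hS
      (fun U => ∀ d, ∀ ω ∈ csq, PureAt p (Dd nx rv c z d ω) (U d ω))
      (fun d ω _ i j _ => by simp [cp, ev])
      (fun U U' h h' d ω hω i j hij => by
        simp only [Pi.add_apply]
        rw [cp_add, h d ω hω i j hij, h' d ω hω i j hij, add_zero])
      (fun a U h d ω hω i j hij => by
        simp only [Pi.smul_apply]
        rw [cp_smul, h d ω hω i j hij, mul_zero])
    exact (hM' b).1 (Submodule.span_le.2 (fun x hx => (hM' x).2 hx) h)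
  all nx rv g c z b hS := by
    constructor
    · intro h
      obtain ⟨M, hM'⟩ := span_sub hA hM hS (fun _ => True) trivial (fun _ _ _ _ => trivial)
        fun _ _ _ => trivial
      have hp : ∀ p, BS nx rv g c z p ≤ M := fun p => Submodule.span_le.2 <| by
        rintro _ ⟨U, hU, -, rfl⟩
        exact (hM' _).2 ⟨U, hU, trivial, rfl⟩
      obtain ⟨U, hU, -, e⟩ := (hM' b).1 (sup_le (sup_le (hp 0) (hp 1)) (hp 2) h)
      exact ⟨U, hU, e⟩
    · rintro ⟨U, hU, rfl⟩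
      have him : ∀ d, ∀ ω ∈ csq, (Dd nx rv c z d ω).im ≠ 0 := fun d ω hω =>
        (dd_im hG hS.im (hS.cim _) (hS.cim d) hω).ne'
      set V : ℕ → _ := fun p d ω => pur p (Dd nx rv c z d ω) (U d ω) with hV
      have hVa : ∀ p, PAdm nx rv g 0 (V p) := fun p => adm hA hG hE hL p hS hU
      have hVm : ∀ p, dP nx rv c z (V p) ∈ BS nx rv g c z p := fun p =>
        Submodule.subset_span ⟨V p, hVa p, fun d ω hω => hA.pur_pure _ _ _ (him d ω hω), rfl⟩
      have h01 := (hM.adm nx rv g 0 0 _ _ 0 (hVa 0) (hVa 1)).1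
      have e : dP nx rv c z U = dP nx rv c z (V 0 + V 1 + V 2) := by
        unfold dP
        congr 1
        funext d
        refine cls_congr _ ((ae_restrict_mem (measurableSet_Ioo.prod measurableSet_Ioo)).mono
          fun ω hω => hM.congr _ _ _ _ _ (fun ω' hω' => ?_) ω hω)
        exact (hA.pur_sum _ _ (him d ω' hω')).symm
      rw [e, (hM.lin nx rv g c z _ _ 0 hS h01.lip (hVa 2).lip).1,
        (hM.lin nx rv g c z _ _ 0 hS (hVa 0).lip (hVa 1).lip).1]
      exact add_mem (Submodule.mem_sup_left (add_mem (Submodule.mem_sup_left (hVm 0))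
        (Submodule.mem_sup_right (hVm 1)))) (Submodule.mem_sup_right (hVm 2))

end Pool.Agent.MP_596265_gt.Hd

end

section

/-! The differential of a pure section has two types. -/

namespace Pool.Agent.MP_596265_gt.Hd

open MeasureTheory Set Complex Filter Topology
open scoped ComplexConjugate Matrix.Norms.Elementwise NNReal InnerProductSpace

namespace TYPx

/-- The derivative of `ev` along a motion with velocities `Y`, `a`. -/
noncomputable def dv (w a : ℂ) (X Y : Mat) (i j : Bool) : ℂ :=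
  ev Y (pt w i) (pt w j) + (-(X 1 0 * pt w j) - X 1 1) * pt a i + (X 0 0 - pt w i * X 1 0) * pt a j

theorem ev_cz (a b s t : ℂ) (X₁ X₂ : Mat) : ev (cz a b X₁ X₂) s t =
    (a * conj b - b * conj a)⁻¹ * (conj b * ev X₁ s t - conj a * ev X₂ s t) := by
  simp only [ev, cz, Matrix.smul_apply, Matrix.sub_apply, smul_eq_mul]
  ring

theorem ev_czb (a b s t : ℂ) (X₁ X₂ : Mat) : ev (czb a b X₁ X₂) s t =
    (a * conj b - b * conj a)⁻¹ * (a * ev X₂ s t - b * ev X₁ s t) := by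
  simp only [ev, czb, Matrix.smul_apply, Matrix.sub_apply, smul_eq_mul]
  ring

theorem left {w : ℂ} (hw : dl w ≠ 0) {X : Mat} {t : ℂ} (h1 : ev X w t = 0)
    (h2 : ev X (conj w) t = 0) : -(X 1 0 * t) - X 1 1 = 0 := by
  refine (mul_eq_zero.1 ?_).resolve_left hw
  simp only [ev, dl] at h1 h2 ⊢
  linear_combination h1 - h2

theorem right {w : ℂ} (hw : dl w ≠ 0) {X : Mat} {s : ℂ} (h1 : ev X s w = 0)
    (h2 : ev X s (conj w) = 0) : X 0 0 - s * X 1 0 = 0 := by
  refine (mul_eq_zero.1 ?_).resolve_left hw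
  simp only [ev, dl] at h1 h2 ⊢
  linear_combination h1 - h2

theorem pw {w a b : ℂ} {X X₁ X₂ : Mat} {p : ℕ} (hw : dl w ≠ 0)
    (h0 : ∀ i j : Bool, i.toNat + j.toNat ≠ p → ev X (pt w i) (pt w j) = 0)
    (h1 : ∀ i j : Bool, i.toNat + j.toNat ≠ p → dv w a X X₁ i j = 0)
    (h2 : ∀ i j : Bool, i.toNat + j.toNat ≠ p → dv w b X X₂ i j = 0)
    (k : Ix) (k1 : wt k ≠ p + 1) (k2 : wt k ≠ p) : J w (cz a b X₁ X₂) (czb a b X₁ X₂) k = 0 := by
  obtain ⟨i, j, l⟩ := k
  have hp : i.toNat + j.toNat ≠ p := by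
    cases l <;> simp only [wt, Bool.toNat_true, Bool.toNat_false] at k1 k2 <;> omega
  have e1 := h1 i j hp
  have e2 := h2 i j hp
  have L : i ≠ l → -(X 1 0 * pt w j) - X 1 1 = 0 := fun h =>
    left hw (h0 false j (by
      cases i <;> cases l <;> simp only [wt, Bool.toNat_true, Bool.toNat_false] at k1 k2 hp ⊢ <;>
        first | omega | exact absurd rfl h)) (h0 true j (by
      cases i <;> cases l <;> simp only [wt, Bool.toNat_true, Bool.toNat_false] at k1 k2 hp ⊢ <;>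
        first | omega | exact absurd rfl h))
  have R : j ≠ l → X 0 0 - pt w i * X 1 0 = 0 := fun h =>
    right hw (h0 i false (by
      cases j <;> cases l <;> simp only [wt, Bool.toNat_true, Bool.toNat_false] at k1 k2 hp ⊢ <;>
        first | omega | exact absurd rfl h)) (h0 i true (by
      cases j <;> cases l <;> simp only [wt, Bool.toNat_true, Bool.toNat_false] at k1 k2 hp ⊢ <;>
        first | omega | exact absurd rfl h))
  have key : ev (if l then cz a b X₁ X₂ else czb a b X₁ X₂) (pt w i) (pt w j) = 0 := by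
    simp only [dv] at e1 e2
    generalize -(X 1 0 * pt w j) - X 1 1 = P at e1 e2 L
    generalize X 0 0 - pt w i * X 1 0 = Q at e1 e2 R
    cases l
    · rw [if_neg Bool.false_ne_true, ev_czb]
      refine mul_eq_zero_of_right _ ?_
      generalize ev X₁ (pt w i) (pt w j) = E₁ at e1
      generalize ev X₂ (pt w i) (pt w j) = E₂ at e2
      cases i <;> cases j <;> simp only [pt, if_true, Bool.false_eq_true, if_false] at e1 e2
      · linear_combination a * e2 - b * e1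
      · rw [R (by simp)] at e1 e2
        linear_combination a * e2 - b * e1
      · rw [L (by simp)] at e1 e2
        linear_combination a * e2 - b * e1
      · rw [L (by simp), R (by simp)] at e1 e2
        linear_combination a * e2 - b * e1
    · rw [if_pos rfl, ev_cz]
      refine mul_eq_zero_of_right _ ?_
      generalize ev X₁ (pt w i) (pt w j) = E₁ at e1
      generalize ev X₂ (pt w i) (pt w j) = E₂ at e2
      cases i <;> cases j <;> simp only [pt, if_true, Bool.false_eq_true, if_false] at e1 e2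
      · rw [L (by simp), R (by simp)] at e1 e2
        linear_combination conj b * e1 - conj a * e2
      · rw [L (by simp)] at e1 e2
        linear_combination conj b * e1 - conj a * e2
      · rw [R (by simp)] at e1 e2
        linear_combination conj b * e1 - conj a * e2
      · linear_combination conj b * e1 - conj a * e2
  change ev (if l then cz a b X₁ X₂ else czb a b X₁ X₂) (pt w i) (pt w j) / dl w = 0
  rw [key, zero_div]

theorem der_pt {δ : ℝ → ℂ} {a : ℂ} (h : HasDerivAt δ a 0) (i : Bool) :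
    HasDerivAt (fun t => pt (δ t) i) (pt a i) 0 := by
  cases i
  · exact h
  · exact h.star

theorem der {u : ℝ → Mat} {δ : ℝ → ℂ} {Y : Mat} {a : ℂ} (hu : HasDerivAt u Y 0)
    (h : HasDerivAt δ a 0) (i j : Bool)
    (h0 : ∀ᶠ t in 𝓝 (0 : ℝ), ev (u t) (pt (δ t) i) (pt (δ t) j) = 0) :
    dv (δ 0) a (u 0) Y i j = 0 := by
  have e : ∀ r s, HasDerivAt (fun t => u t r s) (Y r s) 0 := fun r s =>
    hasDerivAt_pi.1 (hasDerivAt_pi.1 hu r) s
  have hi := der_pt h i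
  have hj := der_pt h j
  have e1 := ((((e 0 0).mul hj).add (e 0 1)).sub ((hi.mul (e 1 0)).mul hj)).sub (hi.mul (e 1 1))
  have e2 := e1.unique ((hasDerivAt_const (0 : ℝ) (0 : ℂ)).congr_of_eventuallyEq h0)
  simp only [dv, ev]
  simp only [Pi.mul_apply] at e2
  linear_combination e2

theorem line {U : ℝ × ℝ → Mat} {D : ℝ × ℝ → ℂ} {A : ℝ × ℝ →L[ℝ] ℂ} {ω : ℝ × ℝ} {p : ℕ}
    (hω : ω ∈ sq) (hU : DifferentiableAt ℝ U ω) (hD : HasFDerivAt D A ω) (hw : dl (D ω) ≠ 0)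
    (hp : ∀ ω ∈ csq, PureAt p (D ω) (U ω)) (v : ℝ × ℝ) (i j : Bool)
    (hij : i.toNat + j.toNat ≠ p) : dv (D ω) (A v) (U ω) (lineDeriv ℝ U ω v) i j = 0 := by
  have c1 : ContinuousAt (fun x => dl (D x)) ω :=
    hD.continuousAt.sub (continuous_conj.continuousAt.comp hD.continuousAt)
  have e0 : ∀ᶠ x in 𝓝 ω, ev (U x) (pt (D x) i) (pt (D x) j) = 0 := by
    filter_upwards [c1.eventually_ne hw, (isOpen_Ioo.prod isOpen_Ioo).mem_nhds hω] with x h1 h2
    exact (div_eq_zero_iff.1 (hp x ⟨Ioo_subset_Icc_self h2.1, Ioo_subset_Icc_self h2.2⟩ i j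
      hij)).resolve_right h1
  have c2 : Tendsto (fun t : ℝ => ω + t • v) (𝓝 0) (𝓝 ω) := by
    have : Continuous fun t : ℝ => ω + t • v := by fun_prop
    simpa using this.tendsto 0
  have := der (hU.lineDifferentiableAt (v := v)).hasLineDerivAt (hD.hasLineDerivAt v) i j
    (c2.eventually e0)
  simpa using this

theorem scal {w a : ℂ} {X Y : Mat} {s : ℝ} (hs : s ≠ 0) {i j : Bool}
    (h : dv w (s * a) X Y i j = 0) : dv w a X (s⁻¹ • Y) i j = 0 := by
  have e : ∀ l, pt (s * a) l = s * pt a l := fun l => by cases l <;> simp [pt]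
  have hs' : (s : ℂ) ≠ 0 := ofReal_ne_zero.2 hs
  simp only [dv, ev, e, Matrix.smul_apply, real_smul, ofReal_inv] at h ⊢
  field_simp
  linear_combination h

end TYPx

theorem TYP (hA : ALG_s) (hM : MUL_s) (hG : GEP_s) (hL : PL_s) (hP : PM_s) : TYP_s := by
  intro Dt _ nx rv g c z p hS b ⟨U, hU, hp, hb⟩
  subst hb
  ext1 d
  have pos : PosT z (c (nx (rv d))) (c d) := ⟨hS.im, hS.cim _, hS.cim _, hS.spos d⟩
  obtain ⟨C, hC⟩ := hL.dif (U d) (hU.lip d)
  rw [PiLp.add_apply]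
  refine Lp.ext ?_
  have m : ∀ n, prP n (dP nx rv c z U) d =ᵐ[volume.restrict sq]
      fun ω => pr n (dP nx rv c z U d ω) := fun n =>
    hM.mp_ae (fun _ _ => pr n) (fun _ => continuousOn_const) _ d
  have m0 : dP nx rv c z U d =ᵐ[volume.restrict sq] dq z (c (nx (rv d))) (c d) (U d) :=
    hM.cls_ae _ _ (hP.mem _ _ _ _ pos (hU.lip d))
  filter_upwards [Lp.coeFn_add (prP (p + 1) (dP nx rv c z U) d) (prP p (dP nx rv c z U) d),
    m (p + 1), m p, m0, hC, ae_restrict_mem (measurableSet_Ioo.prod measurableSet_Ioo)]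
    with ω h1 h2 h3 h4 h5 hω
  rw [h1, Pi.add_apply, h2, h3, h4]
  ext k
  rw [PiLp.add_apply, pr, pr, hA.dg_apply, hA.dg_apply]
  by_cases k1 : wt k = p + 1
  · rw [if_pos k1, if_neg (by omega), one_mul, zero_mul, add_zero]
  by_cases k2 : wt k = p
  · rw [if_neg k1, if_pos k2, one_mul, zero_mul, zero_add]
  rw [if_neg k1, if_neg k2, zero_mul, add_zero]
  have hc : ω ∈ csq := ⟨Ioo_subset_Icc_self hω.1, Ioo_subset_Icc_self hω.2⟩
  obtain ⟨A, hD, a1, a2⟩ := hG.der z (c (nx (rv d))) (c d) ω pos.1 pos.2.1 pos.2.2.1 hc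
  simp only [dq, JJ, PiLp.smul_apply, smul_eq_mul]
  refine (mul_eq_zero_of_right _ (mul_eq_zero_of_right _ ?_)).symm
  by_cases hw : dl (DD z (c (nx (rv d))) (c d) ω) = 0
  · simp only [J, hw, div_zero]
  have l := TYPx.line hω h5.1 hD hw (hp d)
  refine TYPx.pw (X := U d ω) hw (fun i j h => ?_) (fun i j h => ?_) (fun i j h => ?_) k k1 k2
  · exact (div_eq_zero_iff.1 (hp d ω hc i j h)).resolve_right hw
  · exact TYPx.scal (sub_pos.2 hω.2.2).ne' (a1 ▸ l (1, 0) i j h)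
  · exact a2 ▸ l (0, 1) i j h

end Pool.Agent.MP_596265_gt.Hd

end

section

attribute [-instance] ProperSMul.toContinuousSMul
  IsValuativeTopology.instValuedValueGroupWithZeroOfIsUniformAddGroup RightPreLieAlgebra.toModule
  LeftPreLieAlgebra.toModule NonarchimedeanAddGroup.toIsTopologicalAddGroup
  IsTopologicalTorsor.toContinuousSMul IsPurelyInseparable.isIntegral RKHS.instFunLike
  AddQuantale.instAddLeftMono LieRinehartAlgebra.toIsScalarTower
  Group.IsPerfect.subsingleton_of_isMulCommutative MonTypeEquivalenceMon.monMonoid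
  NonarchimedeanRing.toIsTopologicalRing Module.Invertible.instFaithfulSMul
  FiniteDimensional.rclike_to_real AlgHom.instNonUnitalAlgHomClassOfAlgHomClass
  Algebra.IsFiniteSplit.instFree AddQuantale.instAddRightMono instIsModuleTopology
  CoalgHomClass.toSemilinearMapClass littleWedderburn continuousSub_of_discreteTopology
  IsValuativeTopology.instIsTopologicalAddGroup NeZero.of_gt'

namespace Pool.Agent.MP_596265_gt.Hd

open MeasureTheory Set Complex Filter Topology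
open scoped ComplexConjugate Matrix.Norms.Elementwise NNReal InnerProductSpace

namespace COMMx

noncomputable section

abbrev BB2 : Type := Bool → Bool → ℂ

def low (c : BB2) : BB2 := fun i j => (if i then 0 else c true j) + (if j then 0 else c i true)
def hig (c : BB2) : BB2 := fun i j => (if i then c false j else 0) + (if j then c i false else 0)
/-- The connection term. -/
def KK (w a : ℂ) (c : BB2) (i j : Bool) : ℂ :=
  (dl a * c i j - (c false j - c true j) * pt a i - (c i false - c i true) * pt a j) / dl w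

lemma dl_ne {w : ℂ} (h : w.im ≠ 0) : dl w ≠ 0 := fun e => h (by
  have := congrArg Complex.im e
  simp only [dl, sub_im, conj_im, sub_neg_eq_add, zero_im, add_self_eq_zero] at this; linarith)

lemma ent {F : ℝ → Mat} {X : Mat} {t : ℝ} (hF : HasDerivAt F X t) (i j : Fin 2) :
    HasDerivAt (fun t => F t i j) (X i j) t :=
  hasDerivAt_pi.1 (hasDerivAt_pi.1 hF i) j

lemma pt_der {γ : ℝ → ℂ} {a : ℂ} {t : ℝ} (h : HasDerivAt γ a t) (i : Bool) :
    HasDerivAt (fun t => pt (γ t) i) (pt a i) t := by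
  cases i
  · simpa [pt] using h
  · simpa [pt] using h.star

lemma cp_der {F : ℝ → Mat} {X : Mat} {γ : ℝ → ℂ} {a : ℂ} {t : ℝ} (hF : HasDerivAt F X t)
    (h : HasDerivAt γ a t) (hi : (γ t).im ≠ 0) (i j : Bool) :
    HasDerivAt (fun t => cp (γ t) (F t) i j)
      (cp (γ t) X i j - KK (γ t) a (cp (γ t) (F t)) i j) t := by
  have hd := dl_ne hi
  have h1 := pt_der h i
  have h2 := pt_der h j
  have h3 : HasDerivAt (fun t => dl (γ t)) (dl a) t := h.sub h.star
  have h4 := (((((ent hF 0 0).mul h2).add (ent hF 0 1)).sub ((h1.mul (ent hF 1 0)).mul h2)).sub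
    (h1.mul (ent hF 1 1))).div h3 hd
  refine HasDerivAt.congr_deriv (f := fun t => cp (γ t) (F t) i j) h4 ?_
  simp only [cp, KK, ev, Pi.mul_apply, Pi.add_apply, Pi.sub_apply]
  have e : conj (γ t) = γ t - dl (γ t) := by simp [dl]
  cases i <;> cases j <;> simp only [pt, if_true, if_false, Bool.false_eq_true, e] <;>
    field_simp <;> ring

lemma mk_der {γ : ℝ → ℂ} {c : ℝ → BB2} {t : ℝ} (h : DifferentiableAt ℝ γ t) (hi : (γ t).im ≠ 0)
    (hc : ∀ i j, DifferentiableAt ℝ (fun t => c t i j) t) :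
    DifferentiableAt ℝ (fun t => mk (γ t) (c t)) t := by
  have hp : ∀ i, DifferentiableAt ℝ (fun t => pt (γ t) i) t := fun i =>
    (pt_der h.hasDerivAt i).differentiableAt
  have h3 : DifferentiableAt ℝ (fun t => dl (γ t)) t := h.sub h.star
  unfold mk
  refine DifferentiableAt.fun_sum fun i _ => DifferentiableAt.fun_sum fun j _ => ?_
  refine DifferentiableAt.smul (((hc i j).const_mul _).div h3 (dl_ne hi)) ?_
  refine differentiableAt_pi.2 fun k => differentiableAt_pi.2 fun l => ?_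
  have := hp (!i)
  have := hp (!j)
  fin_cases k <;> fin_cases l <;> simp only [nn, Fin.zero_eta, Fin.isValue, Matrix.of_apply, Matrix.cons_val', Matrix.cons_val_zero, Matrix.cons_val_fin_one, Fin.mk_one, Matrix.cons_val_one, differentiableAt_fun_neg_iff, differentiableAt_const] <;> fun_prop

lemma cp_cz (w a b : ℂ) (X Y : Mat) (i j : Bool) :
    ev (cz a b X Y) (pt w i) (pt w j) / dl w = cz a b (cp w X i j) (cp w Y i j) := by
  simp only [cz, cp, ev, Matrix.smul_apply, Matrix.sub_apply, smul_eq_mul]; ring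
lemma cp_czb (w a b : ℂ) (X Y : Mat) (i j : Bool) :
    ev (czb a b X Y) (pt w i) (pt w j) / dl w = czb a b (cp w X i j) (cp w Y i j) := by
  simp only [czb, cp, ev, Matrix.smul_apply, Matrix.sub_apply, smul_eq_mul]; ring

def LL (a b : ℂ) (k : Bool) (x y : ℂ) : ℂ := if k then cz a b x y else czb a b x y

lemma JJ_apply (w a b : ℂ) (X Y : Mat) (i j k : Bool) : JJ w a b X Y (i, j, k) =
    ((√(jc a b) : ℝ) : ℂ) * LL a b k (cp w X i j) (cp w Y i j) := by
  cases k <;> simp [JJ, J, LL, cp_cz, cp_czb]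

lemma j_ne {a b : ℂ} (h : 0 < jc a b) : a * conj b - b * conj a ≠ 0 := fun e => by
  have := congrArg Complex.im e
  simp only [sub_im, mul_im, conj_im, mul_neg, conj_re, zero_im, jc, neg_mul, lt_add_neg_iff_add_lt, zero_add] at this h; linarith

/-- The connection term in the frame `dw, dw̄`. -/
def Kk (δ : ℂ) (k : Bool) (c : BB2) (i j : Bool) : ℂ :=
  ((if k then 1 else -1) * c i j - (c false j - c true j) * (if i = k then 0 else 1) -
    (c i false - c i true) * (if j = k then 0 else 1)) / δ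

lemma LL_K {a b : ℂ} (h : 0 < jc a b) (w : ℂ) (c : BB2) (x y : ℂ) (i j k : Bool) :
    LL a b k (x + KK w a c i j) (y + KK w b c i j) = LL a b k x y + Kk (dl w) k c i j := by
  have := j_ne h
  cases i <;> cases j <;> cases k <;>
    simp only [LL, cz, czb, KK, Kk, pt, dl, smul_eq_mul, if_true, if_false, Bool.false_eq_true,
      Bool.true_eq_false] <;> generalize w - conj w = δ <;> field_simp <;> ring

lemma LL_lin (a b : ℂ) (k : Bool) (x y x' y' u v : ℂ) :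
    LL a b k (x * u + v * x') (y * u + v * y') = LL a b k x y * u + v * LL a b k x' y' := by
  cases k <;> simp only [LL, cz, czb, smul_eq_mul, if_true, if_false, Bool.false_eq_true] <;> ring

lemma LL_low (a b : ℂ) (k : Bool) (c c' : BB2) (i j : Bool) :
    LL a b k (low c i j) (low c' i j) = low (fun i j => LL a b k (c i j) (c' i j)) i j := by
  cases k <;> cases i <;> cases j <;>
    simp only [LL, low, cz, czb, smul_eq_mul, if_true, if_false, Bool.false_eq_true] <;> ring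

lemma LL_hig (a b : ℂ) (k : Bool) (c c' : BB2) (i j : Bool) :
    LL a b k (hig c i j) (hig c' i j) = hig (fun i j => LL a b k (c i j) (c' i j)) i j := by
  cases k <;> cases i <;> cases j <;>
    simp only [LL, hig, cz, czb, smul_eq_mul, if_true, if_false, Bool.false_eq_true] <;> ring

def Pu (p : ℕ) (c : BB2) : Prop := ∀ i j : Bool, i.toNat + j.toNat ≠ p → c i j = 0

lemma alg_down (hA : ALG_s) {p : ℕ} {δ τ θ r : ℂ} (hδ : δ ≠ 0) {c : BB2} {C : Bool → BB2}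
    {T : Bool → ℂ} (hc : Pu (p + 1) c) (hC : ∀ k, Pu (p + 1) (C k)) (hT : T false = (θ + τ) / δ)
    {x y : E8} (hx : ∀ i j k, x (i, j, k) = r * (C k i j + Kk δ k c i j))
    (hy : ∀ i j k, y (i, j, k) = r * (T k * low c i j + τ * low (C k) i j +
      Kk δ k (fun i j => τ * low c i j) i j)) : pr p y = th τ θ (pr (p + 1) x) := by
  ext ⟨i, j, k⟩
  have z00 := hc false false (by simp)
  have Z00 := fun k => hC k false false (by simp)
  rw [hA.th_apply]
  simp only [pr, hA.dg_apply, hx, hy, wt]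
  rcases p with _ | _ | p
  · have z11 := hc true true (by simp)
    have Z11 := fun k => hC k true true (by simp)
    cases i <;> cases j <;> cases k <;> simp only [Bool.toNat_false, add_zero, ↓ reduceIte, hT, low, Bool.false_eq_true, Kk, neg_mul, one_mul, z11, mul_zero, sub_zero, Bool.toNat_true, zero_add, z00, zero_sub, Bool.true_eq_false, mul_one, sub_self, zero_div, Z00, sub_neg_eq_add, one_ne_zero, zero_mul, Nat.reduceAdd, OfNat.ofNat_ne_one, Z11, OfNat.ofNat_ne_zero] <;> field_simp <;>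
      ring_nf
  · have z10 := hc true false (by simp)
    have Z10 := fun k => hC k true false (by simp)
    have z01 := hc false true (by simp)
    have Z01 := fun k => hC k false true (by simp)
    cases i <;> cases j <;> cases k <;> simp only [Bool.toNat_false, add_zero, zero_add, zero_ne_one, ↓ reduceIte, hT, low, Bool.false_eq_true, z10, z01, mul_zero, Z10, Z01, Kk, zero_sub, sub_self, zero_div, Bool.toNat_true, Nat.reduceAdd, OfNat.one_ne_ofNat, z00, Bool.true_eq_false, mul_one, Z00, sub_neg_eq_add, one_mul, sub_zero, neg_mul, OfNat.ofNat_ne_one, zero_mul, Nat.succ_ne_self] <;>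
      field_simp <;> ring_nf
  · have z : ∀ i j, c i j = 0 := fun i j => hc i j (by cases i <;> cases j <;> simp)
    have Z : ∀ k i j, C k i j = 0 := fun k i j =>
      hC k i j (by cases i <;> cases j <;> simp)
    simp only [low, z, ite_self, add_zero, mul_zero, Z, Kk, Bool.false_eq_true, ↓ reduceIte, sub_self, mul_ite, mul_one, zero_div, Bool.toNat_true, Bool.true_eq, Nat.add_right_cancel_iff]

lemma alg_up (hA : ALG_s) {p : ℕ} {δ τ θ r : ℂ} (hδ : δ ≠ 0) {c : BB2} {C : Bool → BB2}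
    {T : Bool → ℂ} (hc : Pu p c) (hC : ∀ k, Pu p (C k)) (hT : T true = -(conj θ + conj τ) / δ)
    {x y : E8} (hx : ∀ i j k, x (i, j, k) = r * (C k i j + Kk δ k c i j))
    (hy : ∀ i j k, y (i, j, k) = r * (T k * hig c i j + conj τ * hig (C k) i j +
      Kk δ k (fun i j => conj τ * hig c i j) i j)) :
    pr (p + 2) y = star (th τ θ) (pr (p + 1) x) := by
  ext ⟨i, j, k⟩
  rw [hA.th_star]
  simp only [pr, hA.dg_apply, hx, hy, wt]
  rcases p with _ | _ | p
  · have z11 := hc true true (by simp)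
    have Z11 := fun k => hC k true true (by simp)
    have z10 := hc true false (by simp)
    have Z10 := fun k => hC k true false (by simp)
    have z01 := hc false true (by simp)
    have Z01 := fun k => hC k false true (by simp)
    cases i <;> cases j <;> cases k <;> simp only [Bool.toNat_false, add_zero, zero_add, OfNat.zero_ne_ofNat, ↓ reduceIte, hig, Bool.false_eq_true, mul_zero, Kk, zero_sub, sub_self, zero_div, Bool.toNat_true, OfNat.one_ne_ofNat, hT, neg_add_rev, mul_one, sub_neg_eq_add, zero_mul, zero_ne_one, neg_mul, one_mul, z10, sub_zero, z01, Bool.true_eq_false, Nat.reduceAdd, Z01, z11, Z10, Nat.succ_ne_self, OfNat.ofNat_ne_one, Z11] <;>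
      field_simp <;> ring_nf
  · have z11 := hc true true (by simp)
    have Z11 := fun k => hC k true true (by simp)
    have z00 := hc false false (by simp)
    have Z00 := fun k => hC k false false (by simp)
    cases i <;> cases j <;> cases k <;> simp only [Bool.toNat_false, add_zero, zero_add, Nat.reduceAdd, OfNat.zero_ne_ofNat, ↓ reduceIte, hig, Bool.false_eq_true, mul_zero, Kk, z00, sub_self, zero_div, Bool.toNat_true, OfNat.one_ne_ofNat, hT, neg_add_rev, mul_one, Z00, zero_sub, Bool.true_eq_false, Nat.reduceEqDiff, sub_neg_eq_add, sub_zero, zero_mul, neg_mul, one_mul, z11, Z11] <;>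
      field_simp <;> ring_nf
  · cases i <;> cases j <;> cases k <;> simp

def DL (L : BB2 → BB2) : Prop := ∀ (c : ℝ → BB2) (c' : BB2),
  (∀ i j, HasDerivAt (fun t => c t i j) (c' i j) 0) →
    ∀ i j, HasDerivAt (fun t => L (c t) i j) (L c' i j) 0

lemma dl_low : DL low := fun c c' h i j => by
  cases i <;> cases j <;> simp only [low, if_true, if_false, Bool.false_eq_true, zero_add, add_zero]
  exacts [(h _ _).add (h _ _), h _ _, h _ _, hasDerivAt_const _ _]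
lemma dl_hig : DL hig := fun c c' h i j => by
  cases i <;> cases j <;> simp only [hig, if_true, if_false, Bool.false_eq_true, zero_add, add_zero]
  exacts [hasDerivAt_const _ _, h _ _, h _ _, (h _ _).add (h _ _)]

lemma dir (hA : ALG_s) {p : ℕ} {L : BB2 → BB2} (hL : DL L) {F : ℝ → Mat} {X : Mat} {γ τ : ℝ → ℂ}
    {a τ' : ℂ} (hF : HasDerivAt F X 0) (hγ : HasDerivAt γ a 0) (hτ : HasDerivAt τ τ' 0)
    (hi : ∀ᶠ t in 𝓝 (0 : ℝ), (γ t).im ≠ 0 ∧ PureAt p (γ t) (F t)) :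
    ∃ c' : BB2, Pu p c' ∧ (∀ i j, cp (γ 0) X i j = c' i j + KK (γ 0) a (cp (γ 0) (F 0)) i j) ∧
      ∀ i j, cp (γ 0) (deriv (fun t => mk (γ t) fun i j => τ t * L (cp (γ t) (F t)) i j) 0) i j =
        τ' * L (cp (γ 0) (F 0)) i j + τ 0 * L c' i j +
          KK (γ 0) a (fun i j => τ 0 * L (cp (γ 0) (F 0)) i j) i j := by
  have h0 := hi.self_of_nhds.1
  have h1 := cp_der hF hγ h0
  refine ⟨fun i j => cp (γ 0) X i j - KK (γ 0) a (cp (γ 0) (F 0)) i j, fun i j hij => ?_,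
    fun i j => by ring, fun i j => ?_⟩
  · exact (h1 i j).unique ((hasDerivAt_const (0 : ℝ) (0 : ℂ)).congr_of_eventuallyEq
      (hi.mono fun t ht => ht.2 i j hij))
  · have h2 := fun i j => hτ.mul (hL _ _ h1 i j)
    have h3 := (mk_der (c := fun t i j => τ t * L (cp (γ t) (F t)) i j) hγ.differentiableAt h0
      fun i j => (h2 i j).differentiableAt).hasDerivAt
    have h4 := (cp_der h3 hγ h0 i j).unique ((h2 i j).congr_of_eventuallyEq
      (hi.mono fun t ht => hA.cp_mk _ _ i j ht.1))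
    have e : cp (γ 0) (mk (γ 0) fun i j => τ 0 * L (cp (γ 0) (F 0)) i j) =
        fun i j => τ 0 * L (cp (γ 0) (F 0)) i j := by
      funext i j; exact hA.cp_mk _ _ i j h0
    rw [e] at h4
    exact eq_add_of_sub_eq h4

def m1 (z y y' : ℂ) (s : ℝ) : ℂ := (2 * y' * (z - conj y) - 2 * s * conj y' * (z - y)) / NN z y s ^ 2 -
  2 * (1 - s) * (y' * (z - conj y) ^ 2 - s * conj y' * (z - y) ^ 2) / NN z y s ^ 3
def m2 (z y : ℂ) (s : ℝ) : ℂ := dl y ^ 2 * (z - conj y + s * (z - y)) / NN z y s ^ 3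

lemma NN_der (z y : ℂ) (s : ℝ) : HasDerivAt (fun t => NN t y s) (1 - s) z := by
  have := ((hasDerivAt_id z).sub_const (conj y)).sub (((hasDerivAt_id z).sub_const y).const_mul (s : ℂ))
  exact HasDerivAt.congr_deriv this (by ring)

lemma e1_der {z p q : ℂ} {ω : ℝ × ℝ} (h : NN z (geo p q ω.1) ω.2 ≠ 0) :
    deriv (fun t => e1 t p q ω) z = m1 z (geo p q ω.1) (geo' p q ω.1) ω.2 := by
  have a := (hasDerivAt_id z).sub_const (conj (geo p q ω.1))
  have b := (hasDerivAt_id z).sub_const (geo p q ω.1)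
  have := (((a.pow 2).const_mul (geo' p q ω.1)).sub
    ((b.pow 2).const_mul (ω.2 * conj (geo' p q ω.1)))).div ((NN_der z _ ω.2).pow 2) (pow_ne_zero 2 h)
  refine (HasDerivAt.deriv (f := fun t => e1 t p q ω) this).trans ?_
  simp only [m1, Pi.pow_apply, Pi.sub_apply, id]
  field_simp
  ring

lemma e2_der {z p q : ℂ} {ω : ℝ × ℝ} (h : NN z (geo p q ω.1) ω.2 ≠ 0) :
    deriv (fun t => e2 t p q ω) z = m2 z (geo p q ω.1) ω.2 := by
  have a := (hasDerivAt_id z).sub_const (conj (geo p q ω.1))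
  have b := (hasDerivAt_id z).sub_const (geo p q ω.1)
  have := ((b.mul a).mul_const (dl (geo p q ω.1))).div ((NN_der z _ ω.2).pow 2) (pow_ne_zero 2 h)
  refine (HasDerivAt.deriv (f := fun t => e2 t p q ω) this).trans ?_
  simp only [m2, Pi.pow_apply, Pi.mul_apply, id]
  field_simp
  simp only [NN, dl]
  ring

lemma nu_der {z : ℂ} {y : ℝ → ℂ} {s : ℝ → ℝ} {y' : ℂ} {s' : ℝ} (hy : HasDerivAt y y' 0)
    (hs : HasDerivAt s s' 0) (h : NN z (y 0) (s 0) ≠ 0) :
    HasDerivAt (fun t => (s t : ℂ) * dl (y t) ^ 2 / NN z (y t) (s t) ^ 2)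
      (s' * m2 z (y 0) (s 0) + 2 * s 0 * dl (y 0) * (dl y' * NN z (y 0) (s 0) -
        dl (y 0) * (s 0 * y' - conj y')) / NN z (y 0) (s 0) ^ 3) 0 := by
  have a : HasDerivAt (fun t => (s t : ℂ)) s' 0 := hs.ofReal_comp
  have b : HasDerivAt (fun t => dl (y t)) (dl y') 0 := hy.sub hy.star
  have c : HasDerivAt (fun t => NN z (y t) (s t)) _ 0 :=
    (hy.star.const_sub z).sub (a.mul (hy.const_sub z))
  refine HasDerivAt.congr_deriv ((a.mul (b.pow 2)).div (c.pow 2) (pow_ne_zero 2 h)) ?_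
  simp only [m2, Pi.pow_apply, Pi.mul_apply, RCLike.star_def]
  field_simp
  simp only [NN, dl]
  ring

lemma sq_sub {ω : ℝ × ℝ} (h : ω ∈ sq) : ω ∈ csq := ⟨Ioo_subset_Icc_self h.1, Ioo_subset_Icc_self h.2⟩
lemma sq_open : IsOpen sq := isOpen_Ioo.prod isOpen_Ioo

section tri
variable (hG : GEO_s) (hP : GEP_s) {z p q : ℂ} (hT : PosT z p q)
include hG hT

lemma D_im {ω : ℝ × ℝ} (h : ω ∈ csq) : 0 < (DD z p q ω).im := by
  have := hG.rimg z _ hT.1 (hG.im p q ω.1 hT.2.1 hT.2.2.1 h.1)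
  exact (this.subset ⟨ω.2, h.2, rfl⟩).1

lemma N_ne {ω : ℝ × ℝ} (h : ω ∈ csq) : NN z (geo p q ω.1) ω.2 ≠ 0 :=
  hG.nn_ne z _ _ hT.1 (hG.im p q ω.1 hT.2.1 hT.2.2.1 h.1) h.2

lemma geo_sm {ω : ℝ × ℝ} (h : ω ∈ csq) : ContDiffAt ℝ 1 (fun ω : ℝ × ℝ => geo p q ω.1) ω ∧
    ContDiffAt ℝ 1 (fun ω : ℝ × ℝ => geo' p q ω.1) ω := by
  have := hG.smooth p q ω.1 hT.2.1 hT.2.2.1 h.1
  have e : ContDiffAt ℝ 1 (fun ω : ℝ × ℝ => (p, q, ω.1)) ω := by fun_prop
  have a := ContDiffAt.comp (g := fun x : ℂ × ℂ × ℝ => geo x.1 x.2.1 x.2.2) ω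
    (this.1.of_le (by simp)) e
  have b := ContDiffAt.comp (g := fun x : ℂ × ℂ × ℝ => geo' x.1 x.2.1 x.2.2) ω
    (this.2.of_le (by simp)) e
  exact ⟨a, b⟩

lemma geo_der {l : ℝ} (h : l ∈ Icc (0 : ℝ) 1) : HasDerivAt (geo p q) (geo' p q l) l := by
  have := hG.smooth p q l hT.2.1 hT.2.2.1 h
  have e : ContDiffAt ℝ 1 (fun l : ℝ => (p, q, l)) l := by fun_prop
  exact (((this.1.of_le (by simp)).comp l e).differentiableAt (by simp)).hasDerivAt

lemma nu_plip : PLip (nu z p q) := by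
  set E : ℝ × ℝ → ℂ := fun ω => -(dl (geo p q ω.1) ^ 2 + 2 * dl (geo p q ω.1) * (z - geo p q ω.1) +
    (1 - ω.2) * (z - geo p q ω.1) ^ 2) / NN z (geo p q ω.1) ω.2 ^ 2 with hE
  have cE : ContDiffOn ℝ 1 E csq := fun ω h => by
    have a := (geo_sm hG hT h).1
    have b : ContDiffAt ℝ 1 (fun ω : ℝ × ℝ => conj (geo p q ω.1)) ω :=
      Complex.conjCLE.contDiff.contDiffAt.comp ω a
    have c : ContDiffAt ℝ 1 (fun ω : ℝ × ℝ => (ω.2 : ℂ)) ω :=
      Complex.ofRealCLM.contDiff.contDiffAt.comp ω contDiffAt_snd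
    refine ContDiffAt.contDiffWithinAt ?_
    simp only [hE, dl, NN, div_eq_mul_inv]
    refine ContDiffAt.mul (by fun_prop) (ContDiffAt.inv (by fun_prop) ?_)
    exact pow_ne_zero 2 (N_ne hG hT h)
  have cc : IsCompact csq := isCompact_Icc.prod isCompact_Icc
  obtain ⟨K, hK⟩ := cE.exists_lipschitzOnWith (by simp) ((convex_Icc _ _).prod (convex_Icc _ _)) cc
  obtain ⟨M, hM⟩ := cc.exists_bound_of_continuousOn cE.continuousOn
  have e : ∀ ω ∈ csq, nu z p q ω = 1 + (1 - ω.2 : ℝ) * E ω := fun ω h => by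
    have := N_ne hG hT h
    simp only [nu, hE]
    push_cast
    field_simp
    simp only [NN, dl]
    ring
  refine ⟨K + M, fun ω h ω' h' => ?_⟩
  have s0 : 0 ≤ 1 - ω.2 := sub_nonneg.2 h.2.2
  have s1 : 1 - ω.2 ≤ 1 := by linarith only [h.2.1]
  have M0 : 0 ≤ M := (norm_nonneg _).trans (hM ω h)
  have d1 : ‖E ω - E ω'‖ ≤ K * (|ω.1 - ω'.1| + |ω.2 - ω'.2|) := by
    refine (hK.norm_sub_le h h').trans (mul_le_mul_of_nonneg_left ?_ K.2)
    rw [Prod.norm_def]
    exact max_le (le_add_of_nonneg_right (abs_nonneg _)) (le_add_of_nonneg_left (abs_nonneg _))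
  have e2 : nu z p q ω - nu z p q ω' = (1 - ω.2 : ℝ) * (E ω - E ω') - (ω.2 - ω'.2 : ℝ) * E ω' := by
    rw [e ω h, e ω' h']; push_cast; ring
  rw [e2]
  refine (norm_sub_le _ _).trans ?_
  rw [norm_mul, norm_mul, Complex.norm_real, Complex.norm_real, Real.norm_of_nonneg s0,
    Real.norm_eq_abs]
  have a1 := abs_nonneg (ω.1 - ω'.1)
  have a2 := abs_nonneg (ω.2 - ω'.2)
  have k0 : (0 : ℝ) ≤ K := K.2
  have t1 := mul_le_mul_of_nonneg_left d1 s0
  have t2 := mul_le_mul_of_nonneg_left (hM ω' h') a2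
  have t3 : (1 - ω.2) * (K * |ω.2 - ω'.2|) ≤ K * |ω.2 - ω'.2| :=
    mul_le_of_le_one_left (mul_nonneg k0 a2) s1
  linarith only [mul_nonneg M0 (mul_nonneg s0 a1), t1, t2, t3]

include hP

omit hG in
lemma sm0 {ω : ℝ × ℝ} (h : ω ∈ csq) : ContinuousAt (DD z p q) ω ∧ ContinuousAt (e1 z p q) ω ∧
    ContinuousAt (e2 z p q) ω := by
  have := hP.sm z p q ω hT.1 hT.2.1 hT.2.2.1 h
  have e : ContinuousAt (fun ω : ℝ × ℝ => ((z, p, q), ω)) ω := by fun_prop
  have a := ContinuousAt.comp (f := fun ω : ℝ × ℝ => ((z, p, q), ω)) this.1.continuousAt e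
  have b := ContinuousAt.comp (f := fun ω : ℝ × ℝ => ((z, p, q), ω)) this.2.1.continuousAt e
  have c := ContinuousAt.comp (f := fun ω : ℝ × ℝ => ((z, p, q), ω)) this.2.2.continuousAt e
  exact ⟨a, b, c⟩

omit hP in
lemma th2_eq {ω : ℝ × ℝ} (h : ω ∈ csq) : th2 z p q ω = czb (e1 z p q ω) (e2 z p q ω)
    (m1 z (geo p q ω.1) (geo' p q ω.1) ω.2) (m2 z (geo p q ω.1) ω.2) := by
  rw [th2, e1_der (N_ne hG hT h), e2_der (N_ne hG hT h)]

lemma cont : ContinuousOn (th1 z p q) csq ∧ ContinuousOn (th2 z p q) csq := by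
  refine ⟨fun ω h => ?_, ContinuousOn.congr (fun ω h => ?_) fun ω h => th2_eq hG hT h⟩
  all_goals
    have a := (geo_sm hG hT h).1.continuousAt
    have b := (geo_sm hG hT h).2.continuousAt
    obtain ⟨c, d, e⟩ := sm0 hP hT h
    have n := N_ne hG hT h
    have n2 := pow_ne_zero 2 n
    have n3 := pow_ne_zero 3 n
    have n4 := dl_ne (D_im hG hT h).ne'
    have n5 := j_ne (hP.jpos z p q ω hT h)
    refine ContinuousAt.continuousWithinAt ?_
  · unfold th1 nu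
    simp only [dl, NN] at *
    fun_prop (disch := assumption)
  · simp only [czb, m1, m2, dl, NN, smul_eq_mul] at *
    fun_prop (disch := assumption)

lemma th1_plip (hL : PL_s) : PLip (th1 z p q) := by
  have a := hP.plip z p q hT.1 hT.2.1 hT.2.2.1
  have b : PLip fun ω => (dl (DD z p q ω))⁻¹ := hL.comp (fun w => (dl w)⁻¹) _ a fun ω h => by
    have c : ContDiffAt ℝ 1 (fun w : ℂ => conj w) (DD z p q ω) := Complex.conjCLE.contDiff.contDiffAt
    exact (contDiffAt_id.sub c).inv (dl_ne (D_im hG hT h).ne')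
  exact hL.bil (ContinuousLinearMap.mul ℝ ℂ) _ _ (nu_plip hG hT) b

/-- Derivatives along a line. -/
lemma line {ω : ℝ × ℝ} (h : ω ∈ sq) (v : ℝ × ℝ) :
    HasDerivAt (fun t : ℝ => DD z p q (ω + t • v))
      (v.1 * ((1 - ω.2 : ℝ) * e1 z p q ω) + v.2 * e2 z p q ω) 0 ∧
    HasDerivAt (fun t : ℝ => nu z p q (ω + t • v))
      (v.1 * ((1 - ω.2 : ℝ) * m1 z (geo p q ω.1) (geo' p q ω.1) ω.2) +
        v.2 * m2 z (geo p q ω.1) ω.2) 0 := by
  constructor
  · obtain ⟨A, hA, a1, a2⟩ := hP.der z p q ω hT.1 hT.2.1 hT.2.2.1 (sq_sub h)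
    have := hA.hasLineDerivAt v
    refine HasDerivAt.congr_deriv this ?_
    have e : v = v.1 • ((1, 0) : ℝ × ℝ) + v.2 • ((0, 1) : ℝ × ℝ) := by ext <;> simp
    conv_lhs => rw [e]
    rw [map_add, map_smul, map_smul, a1, a2]
    simp
  · have l1 : HasDerivAt (fun t : ℝ => ω.1 + t * v.1) v.1 0 := by
      simpa using ((hasDerivAt_id (0 : ℝ)).mul_const v.1).const_add ω.1
    have l2 : HasDerivAt (fun t : ℝ => ω.2 + t * v.2) v.2 0 := by
      simpa using ((hasDerivAt_id (0 : ℝ)).mul_const v.2).const_add ω.2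
    have g1 := (geo_der hG hT (sq_sub h).1).scomp_of_eq 0 l1 (by simp)
    have n := N_ne hG hT (sq_sub h)
    have := nu_der (z := z) g1 l2 (by simpa using n)
    refine HasDerivAt.congr_deriv this ?_
    simp only [Function.comp, zero_mul, add_zero, m1, dl, real_smul, map_mul, conj_ofReal]
    push_cast
    field_simp
    simp only [NN]
    ring

lemma comps (hA : ALG_s) {n : ℕ} {L : BB2 → BB2} (hL : DL L)
    (hLL : ∀ a b k c c' i j, LL a b k (L c i j) (L c' i j) =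
      L (fun i j => LL a b k (c i j) (c' i j)) i j)
    {U : ℝ × ℝ → Mat} {ω : ℝ × ℝ} (h : ω ∈ sq) (hU : DifferentiableAt ℝ U ω)
    (pu : ∀ ω ∈ csq, PureAt n (DD z p q ω) (U ω)) {τ : ℝ × ℝ → ℂ} {τ₁ τ₂ : ℂ}
    (h1 : HasDerivAt (fun t : ℝ => τ (ω + t • ((1 - ω.2)⁻¹ • ((1, 0) : ℝ × ℝ)))) τ₁ 0)
    (h2 : HasDerivAt (fun t : ℝ => τ (ω + t • ((0, 1) : ℝ × ℝ))) τ₂ 0) :
    ∃ (C : Bool → BB2) (r : ℂ), (∀ k, Pu n (C k)) ∧
      (∀ i j k, dq z p q U ω (i, j, k) =
        r * (C k i j + Kk (dl (DD z p q ω)) k (cp (DD z p q ω) (U ω)) i j)) ∧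
      ∀ i j k, dq z p q (fun ω => mk (DD z p q ω) fun i j =>
          τ ω * L (cp (DD z p q ω) (U ω)) i j) ω (i, j, k) =
        r * (LL (e1 z p q ω) (e2 z p q ω) k τ₁ τ₂ * L (cp (DD z p q ω) (U ω)) i j +
          τ ω * L (C k) i j + Kk (dl (DD z p q ω)) k
            (fun i j => τ ω * L (cp (DD z p q ω) (U ω)) i j) i j) := by
  have s0 : (1 - ω.2 : ℝ) ≠ 0 := (sub_pos.2 h.2.2).ne'
  have jp := hP.jpos z p q ω hT (sq_sub h)
  have ev : ∀ v : ℝ × ℝ, ∀ᶠ t in 𝓝 (0 : ℝ), (DD z p q (ω + t • v)).im ≠ 0 ∧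
      PureAt n (DD z p q (ω + t • v)) (U (ω + t • v)) := fun v => by
    have c : ContinuousAt (fun t : ℝ => ω + t • v) 0 := by fun_prop
    have := c.eventually (p := fun x => x ∈ sq) (by simpa only [zero_smul, add_zero, eventually_mem_set] using sq_open.mem_nhds h)
    exact this.mono fun t ht => ⟨(D_im hG hT (sq_sub ht)).ne', pu _ (sq_sub ht)⟩
  have d1 := (line hG hP hT h ((1 - ω.2)⁻¹ • ((1, 0) : ℝ × ℝ))).1
  have d2 := (line hG hP hT h (0, 1)).1
  have q1 : (((1 - ω.2)⁻¹ • ((1, 0) : ℝ × ℝ)).1 : ℂ) * ((1 - ω.2 : ℝ) * e1 z p q ω) +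
      ((1 - ω.2)⁻¹ • ((1, 0) : ℝ × ℝ)).2 * e2 z p q ω = e1 z p q ω := by
    have : ((1 - ω.2 : ℝ) : ℂ) ≠ 0 := by exact_mod_cast s0
    simp only [Prod.smul_mk, smul_eq_mul, mul_one, mul_zero, ofReal_zero, zero_mul, add_zero,
      ofReal_inv]
    field_simp
  rw [q1] at d1
  simp only [ofReal_zero, zero_mul, ofReal_one, one_mul, zero_add] at d2
  obtain ⟨c1, p1, x1, y1⟩ := dir hA hL
    (hU.hasFDerivAt.hasLineDerivAt _).lineDifferentiableAt.hasLineDerivAt d1 h1 (ev _)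
  obtain ⟨c2, p2, x2, y2⟩ := dir hA hL
    (hU.hasFDerivAt.hasLineDerivAt _).lineDifferentiableAt.hasLineDerivAt d2 h2 (ev _)
  simp only [zero_smul, add_zero] at x1 x2 y1 y2
  refine ⟨fun k i j => LL (e1 z p q ω) (e2 z p q ω) k (c1 i j) (c2 i j),
    ((√(1 - ω.2) : ℝ) : ℂ) * ((√(jc (e1 z p q ω) (e2 z p q ω)) : ℝ) : ℂ), fun k i j hij => ?_,
    fun i j k => ?_, fun i j k => ?_⟩
  · simp [p1 i j hij, p2 i j hij, LL, cz, czb]
  · rw [dq, PiLp.smul_apply, JJ_apply, r1, ← lineDeriv_smul, r2, x1, x2, LL_K jp, smul_eq_mul,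
      mul_assoc]
  · rw [dq, PiLp.smul_apply, JJ_apply, r1, ← lineDeriv_smul, r2]
    refine (congrArg₂ (fun a b => _ • (_ * LL _ _ k a b)) (y1 i j) (y2 i j)).trans ?_
    rw [LL_K jp, LL_lin, hLL, smul_eq_mul, mul_assoc]

lemma th1_der {ω : ℝ × ℝ} (h : ω ∈ sq) : ∃ τ₁ τ₂ : ℂ,
    HasDerivAt (fun t : ℝ => th1 z p q (ω + t • ((1 - ω.2)⁻¹ • ((1, 0) : ℝ × ℝ)))) τ₁ 0 ∧
    HasDerivAt (fun t : ℝ => th1 z p q (ω + t • ((0, 1) : ℝ × ℝ))) τ₂ 0 ∧
    czb (e1 z p q ω) (e2 z p q ω) τ₁ τ₂ = (th2 z p q ω + th1 z p q ω) / dl (DD z p q ω) := by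
  have s0 : ((1 - ω.2 : ℝ) : ℂ) ≠ 0 := by exact_mod_cast (sub_pos.2 h.2.2).ne'
  have n4 := dl_ne (D_im hG hT (sq_sub h)).ne'
  have n5 := j_ne (hP.jpos z p q ω hT (sq_sub h))
  obtain ⟨d1, f1⟩ := line hG hP hT h ((1 - ω.2)⁻¹ • ((1, 0) : ℝ × ℝ))
  obtain ⟨d2, f2⟩ := line hG hP hT h (0, 1)
  refine ⟨_, _, f1.div (d1.sub d1.star) (by simpa [dl] using n4),
    f2.div (d2.sub d2.star) (by simpa [dl] using n4), ?_⟩
  rw [th2_eq hG hT (sq_sub h), th1]
  simp only [Prod.smul_mk, smul_eq_mul, mul_one, mul_zero, ofReal_zero, zero_mul, add_zero,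
    ofReal_inv, ofReal_one, one_mul, zero_add, zero_smul, RCLike.star_def,
    inv_mul_cancel_left₀ s0, czb, dl] at *
  generalize DD z p q ω - conj (DD z p q ω) = δ at *
  field_simp
  ring

end tri

lemma plip_prod {V V' : Type} [NormedAddCommGroup V] [NormedAddCommGroup V'] {f : ℝ × ℝ → V}
    {f' : ℝ × ℝ → V'} (h : PLip f) (h' : PLip f') : PLip fun ω => (f ω, f' ω) := by
  obtain ⟨C, h⟩ := h
  obtain ⟨C', h'⟩ := h'
  refine ⟨max C C', fun ω a ω' a' => ?_⟩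
  have : 0 ≤ (1 - ω.2) * |ω.1 - ω'.1| + |ω.2 - ω'.2| :=
    add_nonneg (mul_nonneg (sub_nonneg.2 a.2.2) (abs_nonneg _)) (abs_nonneg _)
  rw [Prod.mk_sub_mk, Prod.norm_mk]
  exact max_le ((h ω a ω' a').trans (mul_le_mul_of_nonneg_right (le_max_left _ _) this))
    ((h' ω a ω' a').trans (mul_le_mul_of_nonneg_right (le_max_right _ _) this))

lemma pt_sm {X : Type} [NormedAddCommGroup X] [NormedSpace ℝ X] {γ : X → ℂ} {x : X}
    (h : ContDiffAt ℝ 1 γ x) (i : Bool) : ContDiffAt ℝ 1 (fun t => pt (γ t) i) x := by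
  cases i
  · simpa [pt] using h
  · exact Complex.conjCLE.contDiff.contDiffAt.comp x h

lemma mk_sm {X : Type} [NormedAddCommGroup X] [NormedSpace ℝ X] {γ : X → ℂ} {c : X → BB2} {x : X}
    (h : ContDiffAt ℝ 1 γ x) (hi : (γ x).im ≠ 0) (hc : ∀ i j, ContDiffAt ℝ 1 (fun t => c t i j) x) :
    ContDiffAt ℝ 1 (fun t => mk (γ t) (c t)) x := by
  have h3 : ContDiffAt ℝ 1 (fun t => (dl (γ t))⁻¹) x :=
    ContDiffAt.inv (h.sub (pt_sm h true)) (dl_ne hi)
  unfold mk
  refine ContDiffAt.sum fun i _ => ContDiffAt.sum fun j _ => ?_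
  refine ContDiffAt.smul ((contDiffAt_const.mul (hc i j)).mul h3) ?_
  refine contDiffAt_pi.2 fun k => contDiffAt_pi.2 fun l => ?_
  have := pt_sm h (!i)
  have := pt_sm h (!j)
  fin_cases k <;> fin_cases l <;> simp [nn] <;> fun_prop

lemma cp_sm (x : (ℂ × ℂ) × Mat) (hi : x.1.1.im ≠ 0) (i j : Bool) :
    ContDiffAt ℝ 1 (fun t : (ℂ × ℂ) × Mat => cp t.1.1 t.2 i j) x := by
  have h : ContDiffAt ℝ 1 (fun t : (ℂ × ℂ) × Mat => t.1.1) x := by fun_prop
  have h3 : ContDiffAt ℝ 1 (fun t : (ℂ × ℂ) × Mat => (dl t.1.1)⁻¹) x :=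
    ContDiffAt.inv (h.sub (pt_sm h true)) (dl_ne hi)
  have e : ∀ k l, ContDiffAt ℝ 1 (fun t : (ℂ × ℂ) × Mat => t.2 k l) x := fun k l =>
    contDiffAt_pi.1 (contDiffAt_pi.1 contDiffAt_snd k) l
  have a := pt_sm h i
  have b := pt_sm h j
  exact (((((e 0 0).mul b).add (e 0 1)).sub ((a.mul (e 1 0)).mul b)).sub (a.mul (e 1 1))).mul h3

lemma cz_conj (a b x y : ℂ) : cz a b (conj x) (conj y) = conj (czb a b x y) := by
  simp only [cz, czb, smul_eq_mul, map_mul, map_sub, map_inv₀, conj_conj]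
  rw [show conj a * b - conj b * a = -(a * conj b - b * conj a) by ring, inv_neg]
  ring

lemma plip_sec (hG : GEO_s) (hP : GEP_s) (hL : PL_s) {z p q : ℂ} (T : PosT z p q) {L : BB2 → BB2}
    (sL : ∀ (x : (ℂ × ℂ) × Mat), x.1.1.im ≠ 0 → ∀ i j,
      ContDiffAt ℝ 1 (fun t : (ℂ × ℂ) × Mat => L (cp t.1.1 t.2) i j) x)
    (σ : ℂ →L[ℝ] ℂ) {U : ℝ × ℝ → Mat} (hU : PLip U) :
    PLip fun ω => mk (DD z p q ω) fun i j => σ (th1 z p q ω) * L (cp (DD z p q ω) (U ω)) i j := by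
  have a := plip_prod (plip_prod (hP.plip _ _ _ T.1 T.2.1 T.2.2.1) (th1_plip hG hP T hL)) hU
  have b : ∀ x : (ℂ × ℂ) × Mat, x.1.1.im ≠ 0 → ContDiffAt ℝ 1
      (fun t : (ℂ × ℂ) × Mat => mk t.1.1 fun i j => σ t.1.2 * L (cp t.1.1 t.2) i j) x :=
    fun x hi => mk_sm (γ := fun t : (ℂ × ℂ) × Mat => t.1.1) (by fun_prop) hi fun i j =>
      ContDiffAt.mul (by fun_prop) (sL _ hi i j)
  have := hL.comp _ _ a fun ω hω => b _ (D_im hG T hω).ne'
  exact this

variable {Dt : Type} [Fintype Dt] {nx rv : Dt → Dt} {g : Dt → G} {c : Dt → ℂ} {z : ℂ}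

omit [Fintype Dt] in
lemma posT (h : Star nx rv g c z) (d : Dt) : PosT z (c (nx (rv d))) (c d) :=
  ⟨h.im, h.cim _, h.cim _, h.spos d⟩

omit [Fintype Dt] in
lemma adm (hG : GEO_s) (hP : GEP_s) (hL : PL_s) (h : Star nx rv g c z) {L : BB2 → BB2}
    (sL : ∀ (x : (ℂ × ℂ) × Mat), x.1.1.im ≠ 0 → ∀ i j,
      ContDiffAt ℝ 1 (fun t : (ℂ × ℂ) × Mat => L (cp t.1.1 t.2) i j) x)
    (σ : ℂ →L[ℝ] ℂ) {U : Dt → ℝ × ℝ → Mat} (hU : PAdm nx rv g 0 U) :
    PAdm nx rv g 0 fun d ω => mk (Dd nx rv c z d ω) fun i j =>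
      σ (th1 z (c (nx (rv d))) (c d) ω) * L (cp (Dd nx rv c z d ω) (U d ω)) i j := by
  refine ⟨fun d => ?_, fun d s hs => ?_, fun d l hl => ?_⟩
  · exact plip_sec hG hP hL (posT h d) sL σ (hU.lip d)
  · have a := (hG.zero _ _ (h.cim (nx (rv d))) (h.cim d)).1
    have b := (hG.zero _ _ (h.cim (nx (rv (nx (rv d))))) (h.cim (nx (rv d)))).2
    simp only [Dd, DD, th1, nu, a, b, hU.rad d s hs]
  · have z0 : ∀ w, mk w (fun _ _ => 0) = 0 := fun w => by simp [mk]
    simp [th1, nu, z0, Ad]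

lemma fin (hM : MUL_s) (hm : PM_s) (h : Star nx rv g c z) {U U' : Dt → ℝ × ℝ → Mat}
    (hU : ∀ d, PLip (U d)) (hU' : ∀ d, PLip (U' d)) {a b : ℕ} {T : Dt → ℝ × ℝ → E8 →L[ℂ] E8}
    (hT : ∀ d, ContinuousOn (T d) csq)
    (e : ∀ d, ∀ᵐ ω ∂volume.restrict sq, pr a (dq z (c (nx (rv d))) (c d) (U' d) ω) =
      T d ω (pr b (dq z (c (nx (rv d))) (c d) (U d) ω))) :
    prP a (dP nx rv c z U') = mP T (prP b (dP nx rv c z U)) := by
  refine PiLp.ext fun d => Lp.ext ?_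
  filter_upwards [hM.mp_ae (fun (_ : Dt) _ => pr a) (fun _ => continuousOn_const) (dP nx rv c z U') d,
    hM.mp_ae (fun (_ : Dt) _ => pr b) (fun _ => continuousOn_const) (dP nx rv c z U) d,
    hM.mp_ae T hT (prP b (dP nx rv c z U)) d,
    hM.cls_ae _ _ (hm.mem _ _ _ _ (posT h d) (hU d)),
    hM.cls_ae _ _ (hm.mem _ _ _ _ (posT h d) (hU' d)), e d] with ω a1 a2 a3 a4 a5 a6
  rw [a3]
  refine a1.trans ?_
  rw [show (prP b (dP nx rv c z U)) d ω = _ from a2]
  rw [show (dP nx rv c z U') d ω = _ from a5, show (dP nx rv c z U) d ω = _ from a4, a6]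

end

end COMMx

open COMMx in
theorem COMM (hA : ALG_s) (hM : MUL_s) (hG : GEO_s) (hP : GEP_s) (hL : PL_s) (hm : PM_s) :
    COMM_s := by
  have ms : MeasurableSet sq := sq_open.measurableSet
  refine ⟨fun z p q hT => cont hG hP hT, ?_, ?_⟩
  · rintro Dt _ nx rv g c z p h _ ⟨U, hU, pu, rfl⟩
    have cT : ∀ d, ContinuousOn (fun ω => th (th1 z (c (nx (rv d))) (c d) ω)
        (th2 z (c (nx (rv d))) (c d) ω)) csq := fun d =>
      ((cont hG hP (posT h d)).1.smul continuousOn_const).add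
        ((cont hG hP (posT h d)).2.smul continuousOn_const)
    have ad := adm hG hP hL h (L := low) (fun x hx i j => by
      have := cp_sm x hx
      cases i <;> cases j <;> simp only [low, if_true, if_false, Bool.false_eq_true] <;> fun_prop)
      (ContinuousLinearMap.id ℝ ℂ) hU
    refine ⟨_, ⟨_, ad, fun d ω hω i j hij => ?_, rfl⟩, fin hM hm h hU.lip ad.lip cT fun d => ?_⟩
    · rw [hA.cp_mk (Dd nx rv c z d ω) _ _ _ (D_im hG (posT h d) hω).ne']
      have := pu d ω hω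
      cases i <;> cases j <;> simp only [low, if_true, if_false, Bool.false_eq_true]
      · rw [this true false (by simp at hij ⊢; omega), this false true (by simp at hij ⊢; omega)]
        simp
      · rw [this true true (by simp at hij ⊢; omega)]; simp
      · rw [this true true (by simp at hij ⊢; omega)]; simp
      · simp
    · obtain ⟨C, hC⟩ := hL.dif _ (hU.lip d)
      filter_upwards [hC, ae_restrict_mem ms] with ω a hω
      obtain ⟨τ₁, τ₂, t1, t2, t3⟩ := th1_der hG hP (posT h d) hω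
      obtain ⟨C, r, c1, c2, c3⟩ := comps hG hP (posT h d) hA dl_low LL_low hω a.1 (pu d) t1 t2
      exact alg_down hA (dl_ne (D_im hG (posT h d) (sq_sub hω)).ne') (pu d ω (sq_sub hω)) c1
        (T := fun k => LL _ _ k τ₁ τ₂) t3 c2 c3
  · rintro Dt _ nx rv g c z p h _ ⟨U, hU, pu, rfl⟩
    have cT : ∀ d, ContinuousOn (fun ω => th (th1 z (c (nx (rv d))) (c d) ω)
        (th2 z (c (nx (rv d))) (c d) ω)) csq := fun d =>
      ((cont hG hP (posT h d)).1.smul continuousOn_const).add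
        ((cont hG hP (posT h d)).2.smul continuousOn_const)
    have ad := adm hG hP hL h (L := hig) (fun x hx i j => by
      have := cp_sm x hx
      cases i <;> cases j <;> simp only [hig, if_true, if_false, Bool.false_eq_true] <;> fun_prop)
      (Complex.conjCLE : ℂ →L[ℝ] ℂ) hU
    rw [thP, ← (hM.mp_smul _ 1 cT).2]
    refine ⟨_, ⟨_, ad, fun d ω hω i j hij => ?_, rfl⟩,
      fin hM hm h hU.lip ad.lip (fun d =>
        (ContinuousLinearMap.adjoint (𝕜 := ℂ) (E := E8) (F := E8)).continuous.comp_continuousOn (cT d)) fun d => ?_⟩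
    · rw [hA.cp_mk (Dd nx rv c z d ω) _ _ _ (D_im hG (posT h d) hω).ne']
      have := pu d ω hω
      cases i <;> cases j <;> simp only [hig, if_true, if_false, Bool.false_eq_true]
      · simp
      · rw [this false false (by simp at hij ⊢; omega)]; simp
      · rw [this false false (by simp at hij ⊢; omega)]; simp
      · rw [this true false (by simp at hij ⊢; omega), this false true (by simp at hij ⊢; omega)]
        simp
    · obtain ⟨C, hC⟩ := hL.dif _ (hU.lip d)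
      filter_upwards [hC, ae_restrict_mem ms] with ω a hω
      obtain ⟨τ₁, τ₂, t1, t2, t3⟩ := th1_der hG hP (posT h d) hω
      obtain ⟨C, r, c1, c2, c3⟩ := comps hG hP (posT h d) hA dl_hig LL_hig hω a.1 (pu d)
        (τ := fun ω => conj (th1 z (c (nx (rv d))) (c d) ω)) t1.star t2.star
      refine alg_up hA (dl_ne (D_im hG (posT h d) (sq_sub hω)).ne') (pu d ω (sq_sub hω)) c1
        (T := fun k => LL _ _ k (star τ₁) (star τ₂)) ?_ c2 c3
      have e := congrArg conj t3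
      have e1' : conj (dl (DD z (c (nx (rv d))) (c d) ω)) = -dl (DD z (c (nx (rv d))) (c d) ω) := by
        simp [dl]
      rw [map_div₀, e1', map_add, div_neg, ← neg_div] at e
      rw [← e]
      exact cz_conj _ _ _ _

end Pool.Agent.MP_596265_gt.Hd

end

section

/-! Block H, row VHS. -/

namespace Pool.Agent.MP_596265_gt.Hd

open MeasureTheory Set Complex Filter Topology
open scoped ComplexConjugate Matrix.Norms.Elementwise NNReal InnerProductSpace

namespace VHSx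

lemma pr_apply (hA : ALG_s) (p : ℕ) (x : E8) (k : Ix) :
    pr p x k = if wt k = p then x k else 0 := by
  rw [pr, hA.dg_apply]; split_ifs <;> simp

lemma pr_sum (hA : ALG_s) : pr 0 + pr 1 + pr 2 + pr 3 = 1 := by
  ext x ⟨i, j, k⟩
  simp only [add_apply, PiLp.add_apply, pr_apply hA,
    one_apply_eq_self]
  cases i <;> cases j <;> cases k <;> simp [wt]

lemma pr_weil (hA : ALG_s) : pr 3 + (-1 : ℂ) • pr 2 + pr 1 + (-1 : ℂ) • pr 0 = Cs := by
  ext x ⟨i, j, k⟩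
  simp only [add_apply, smul_apply, PiLp.add_apply,
    PiLp.smul_apply, pr_apply hA, Cs, hA.dg_apply]
  cases i <;> cases j <;> cases k <;> simp only [wt, Bool.toNat_false, add_zero, OfNat.zero_ne_ofNat, ↓ reduceIte, smul_eq_mul, mul_zero, zero_ne_one, neg_mul, one_mul, zero_add, pow_one, Bool.toNat_true, OfNat.one_ne_ofNat, one_ne_zero, Nat.reduceAdd, even_two, Even.neg_pow, one_pow, Nat.reduceEqDiff, OfNat.ofNat_ne_one, OfNat.ofNat_ne_zero, Nat.succ_ne_self] <;> norm_num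

lemma pr_orth (hA : ALG_s) {p q : ℕ} (h : p ≠ q) (x y : E8) : ⟪pr p x, pr q y⟫_ℂ = 0 := by
  rw [PiLp.inner_apply]
  refine Finset.sum_eq_zero fun k _ => ?_
  rw [pr_apply hA, pr_apply hA]
  by_cases h1 : wt k = p
  · rw [if_neg (h1 ▸ h : ¬ wt k = q), inner_zero_right]
  · rw [if_neg h1, inner_zero_left]

lemma th_pr (hA : ALG_s) (a b : ℂ) {p : ℕ} (hp : p < 3) : th a b * pr (p + 1) = pr p * th a b := by
  ext x ⟨i, j, k⟩
  simp only [mul_apply_eq_comp, pr_apply hA, hA.th_apply]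
  interval_cases p <;> cases i <;> cases j <;> cases k <;> simp [wt]

lemma th_pr0 (hA : ALG_s) (a b : ℂ) : th a b * pr 0 = (0 : ℂ) • (1 : E8 →L[ℂ] E8) := by
  ext x ⟨i, j, k⟩
  simp only [mul_apply_eq_comp, pr_apply hA, hA.th_apply]
  cases i <;> cases j <;> cases k <;> simp [wt]

end VHSx

theorem VHS (hA : ALG_s) (hM : MUL_s) (hP : PUR_s) (hT : TYP_s) (hC : COMM_s) (hI : ISO_s) :
    VHS_s := by
  intro Dt _ nx rv g c z hs
  have cc : ∀ T : E8 →L[ℂ] E8, ∀ d : Dt,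
      ContinuousOn ((fun (_ : Dt) (_ : ℝ × ℝ) => T) d) csq := fun _ _ => continuousOn_const
  have add : ∀ T T' : E8 →L[ℂ] E8, mP (fun (_ : Dt) _ => T + T') =
      mP (fun _ _ => T) + mP fun _ _ => T' := fun T T' => (hM.mp_add _ _ (cc T) (cc T')).1
  have smul : ∀ (a : ℂ) (T : E8 →L[ℂ] E8), mP (fun (_ : Dt) _ => a • T) =
      a • mP fun _ _ => T := fun a T => (hM.mp_smul _ a (cc T)).1
  have ct : ∀ d, ContinuousOn ((fun d ω => th (th1 z (c (nx (rv d))) (c d) ω)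
      (th2 z (c (nx (rv d))) (c d) ω)) d) csq := fun d => by
    obtain ⟨h1, h2⟩ := hC.cont z (c (nx (rv d))) (c d) ⟨hs.im, hs.cim _, hs.cim _, hs.spos d⟩
    exact (h1.smul continuousOn_const).add (h2.smul continuousOn_const)
  have sub : ∀ p < 3, ∀ b ∈ BP nx rv g c z p,
      b ∈ (BS nx rv g c z 0 ⊔ BS nx rv g c z 1 ⊔ BS nx rv g c z 2).topologicalClosure := by
    intro p hp b hb
    have h1 : b ∈ BS nx rv g c z p := Submodule.subset_span hb
    refine Submodule.le_topologicalClosure _ ?_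
    interval_cases p
    · exact Submodule.mem_sup_left (Submodule.mem_sup_left h1)
    · exact Submodule.mem_sup_left (Submodule.mem_sup_right h1)
    · exact Submodule.mem_sup_right h1
  refine ⟨fun x => ?_, fun p q h x y => ?_, fun p hp x => ?_, fun x => ?_,
    fun p _ b hb => hT nx rv g c z p hs b ((hP.sub nx rv g c z p b hs).1 hb),
    fun p _ q _ b hb b' hb' => ?_, fun p hp b hb => ?_, fun p hp b hb => ?_⟩
  · have h := hM.mp_one (Dt := Dt)
    rw [← VHSx.pr_sum hA, add, add, add] at h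
    exact DFunLike.congr_fun h x
  · rw [hM.inn]
    refine Finset.sum_eq_zero fun d _ => integral_eq_zero_of_ae ?_
    filter_upwards [hM.mp_ae _ (cc (pr p)) x d, hM.mp_ae _ (cc (pr q)) y d] with ω h1 h2
    rw [prP, prP, h1, h2]
    exact VHSx.pr_orth hA h _ _
  · have h1 := (hM.mp_add _ _ ct (cc (pr (p + 1)))).2
    have h2 := (hM.mp_add _ _ (cc (pr p)) ct).2
    simp only [VHSx.th_pr hA _ _ hp] at h1
    exact DFunLike.congr_fun (h1.symm.trans h2) x
  · have h1 := (hM.mp_add _ _ ct (cc (pr 0))).2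
    simp only [VHSx.th_pr0 hA] at h1
    rw [smul] at h1
    refine (DFunLike.congr_fun h1 x).symm.trans ?_
    rw [smul_apply, zero_smul]
  · obtain ⟨U, hU, -, rfl⟩ := (hP.sub nx rv g c z p b hs).1 hb
    obtain ⟨U', hU', -, rfl⟩ := (hP.sub nx rv g c z q b' hs).1 hb'
    have h0 : Coc nx rv g 0 := by
      have a0 : ∀ k, Ad k 0 = 0 := fun k => by simp [Ad]
      exact ⟨fun d => by simp [a0], fun d => by simp [a0]⟩
    have h1 := hI nx rv g c z 0 0 U U' hs h0 h0 hU hU'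
    have h2 : ∀ x : HP Dt, V18.weil prP x = CP x := fun x => by
      rw [CP, ← VHSx.pr_weil hA, add, add, add, smul, smul]
      simp [V18.weil, prP, sub_eq_add_neg]
    rw [h2, h1]
    simp only [om, one_div, bb, Pi.zero_apply, Ad, mul_zero, zero_mul, Matrix.trace_zero, sub_self, Finset.sum_const_zero, zero_div]
  · obtain ⟨β, h1, h2⟩ := hC.up nx rv g c z p hs b ((hP.sub nx rv g c z p b hs).1 hb)
    exact ⟨β, sub _ (by omega) _ h1, h2⟩
  · obtain ⟨β, h1, h2⟩ := hC.down nx rv g c z p hs b ((hP.sub nx rv g c z _ b hs).1 hb)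
    exact ⟨β, sub _ (by omega) _ h1, h2⟩

end Pool.Agent.MP_596265_gt.Hd

end

section

/-! Block H, row HARM: the harmonic representative. -/

namespace Pool.Agent.MP_596265_gt.Hd

open MeasureTheory Set Complex Filter Topology
open scoped ComplexConjugate Matrix.Norms.Elementwise NNReal InnerProductSpace

namespace HARMx

variable {Dt : Type} [Fintype Dt] {nx rv : Dt → Dt} {g : Dt → G} {c : Dt → ℂ} {z : ℂ}

lemma ad_add (g : G) (X Y : Mat) : Ad g (X + Y) = Ad g X + Ad g Y := by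
  simp only [Ad, mul_add, add_mul]

lemma ad_smul (g : G) (a : ℂ) (X : Mat) : Ad g (a • X) = a • Ad g X := by
  simp only [Ad, Matrix.mul_smul, Matrix.smul_mul]

lemma ad_zero (g : G) : Ad g 0 = 0 := by simp only [Ad, mul_zero, zero_mul]

omit [Fintype Dt] in
lemma aff_add (v v' : Dt → Mat) : aff nx rv g (v + v') = aff nx rv g v + aff nx rv g v' := by
  funext d ω
  simp only [aff, Pi.add_apply, ad_add]
  module

omit [Fintype Dt] in
lemma aff_smul (a : ℂ) (v : Dt → Mat) : aff nx rv g (a • v) = a • aff nx rv g v := by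
  funext d ω
  simp only [aff, Pi.smul_apply, ad_smul]
  module

lemma plip_aux (y y' : Mat) : PLip fun ω : ℝ × ℝ =>
    (((1 - ω.2) * (1 - ω.1) : ℝ) : ℂ) • y' + (((1 - ω.2) * ω.1 : ℝ) : ℂ) • y := by
  refine ⟨‖y‖ + ‖y'‖, fun ω hω ω' hω' => ?_⟩
  obtain ⟨⟨a1, a2⟩, a3, a4⟩ := hω
  obtain ⟨⟨b1, b2⟩, b3, b4⟩ := hω'
  have e : (((1 - ω.2) * (1 - ω.1) : ℝ) : ℂ) • y' + (((1 - ω.2) * ω.1 : ℝ) : ℂ) • y -
      ((((1 - ω'.2) * (1 - ω'.1) : ℝ) : ℂ) • y' + (((1 - ω'.2) * ω'.1 : ℝ) : ℂ) • y) =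
      (((1 - ω.2) * (ω.1 - ω'.1) : ℝ) : ℂ) • (y - y') -
        ((ω.2 - ω'.2 : ℝ) : ℂ) • (((1 - ω'.1 : ℝ) : ℂ) • y' + ((ω'.1 : ℝ) : ℂ) • y) := by
    push_cast
    module
  have n1 : ‖y - y'‖ ≤ ‖y‖ + ‖y'‖ := norm_sub_le _ _
  have n2 : ‖((1 - ω'.1 : ℝ) : ℂ) • y' + ((ω'.1 : ℝ) : ℂ) • y‖ ≤ ‖y‖ + ‖y'‖ := by
    refine (norm_add_le _ _).trans ?_
    rw [norm_smul, norm_smul, norm_real, norm_real, Real.norm_of_nonneg b1,
      Real.norm_of_nonneg (by linarith)]
    nlinarith only [norm_nonneg y, norm_nonneg y', b1, b2]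
  show ‖_ + _ - (_ + _)‖ ≤ _
  rw [e]
  refine (norm_sub_le _ _).trans ?_
  rw [norm_smul, norm_smul, norm_real, norm_real, Real.norm_eq_abs, Real.norm_eq_abs, abs_mul,
    abs_of_nonneg (show 0 ≤ 1 - ω.2 by linarith)]
  have := mul_le_mul_of_nonneg_left n1
    (mul_nonneg (show 0 ≤ 1 - ω.2 by linarith) (abs_nonneg (ω.1 - ω'.1)))
  have := mul_le_mul_of_nonneg_left n2 (abs_nonneg (ω.2 - ω'.2))
  linarith

omit [Fintype Dt] in
lemma aff_plip (v : Dt → Mat) (d : Dt) : PLip (aff nx rv g v d) := plip_aux _ _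

lemma cs_eq : Cs = pr 3 + (-1 : ℂ) • pr 2 + pr 1 + (-1 : ℂ) • pr 0 := by
  ext x k
  obtain ⟨i, j, l⟩ := k
  cases i <;> cases j <;> cases l <;>
    norm_num [Cs, pr, dg, wt, Matrix.toLpLin_apply, Matrix.mulVec_diagonal]

lemma weil_eq (hM : MUL_s) (x : HP Dt) : V18.weil prP x = CP x := by
  have k : ∀ T : E8 →L[ℂ] E8, ∀ _ : Dt, ContinuousOn (fun _ : ℝ × ℝ => T) csq :=
    fun _ _ => continuousOn_const
  have e : (CP : HP Dt →L[ℂ] HP Dt) = prP 3 + (-1 : ℂ) • prP 2 + prP 1 + (-1 : ℂ) • prP 0 := by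
    unfold CP prP
    rw [← (hM.mp_smul (fun _ _ => pr 2) (-1) (k _)).1, ← (hM.mp_smul (fun _ _ => pr 0) (-1) (k _)).1,
      ← (hM.mp_add _ _ (k _) (k _)).1, ← (hM.mp_add _ _ (k _) (k _)).1,
      ← (hM.mp_add _ _ (k _) (k _)).1, cs_eq]
  rw [e]
  simp only [V18.weil, add_apply, smul_apply, neg_smul, one_smul, sub_eq_add_neg]

omit [Fintype Dt] in
lemma coc0 : Coc nx rv g 0 := ⟨fun d => by simp [ad_zero], fun d => by simp [ad_zero]⟩

lemma om0 (v : Dt → Mat) : om nx g v 0 = 0 := by simp only [om, one_div, bb, Pi.zero_apply, ad_zero, mul_zero, Matrix.trace_zero, sub_self, Finset.sum_const_zero]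

/-- The abstract minimisation over an affine subspace. -/
lemma inf_eq {H : Type} [NormedAddCommGroup H] [InnerProductSpace ℂ H] {B : Submodule ℂ H} {a : H}
    {E : Set H} (ha : ∀ k ∈ B.topologicalClosure, ⟪k, a⟫_ℂ = 0)
    (h1 : ∀ x ∈ E, a - x ∈ B.topologicalClosure) (h2 : a ∈ closure E) :
    sInf ((fun x => ‖x‖ ^ 2) '' E) = ‖a‖ ^ 2 := by
  refine IsGLB.csInf_eq ⟨?_, fun m hm => ?_⟩ ((closure_nonempty_iff.1 ⟨a, h2⟩).image _)
  · rintro _ ⟨x, hx, rfl⟩
    have e := norm_add_sq_eq_norm_sq_add_norm_sq_of_inner_eq_zero (𝕜 := ℂ) a (-(a - x))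
      (inner_eq_zero_symm.1 (ha _ (Submodule.neg_mem _ (h1 x hx))))
    rw [neg_sub, add_sub_cancel] at e
    show ‖a‖ ^ 2 ≤ ‖x‖ ^ 2
    linarith only [mul_self_nonneg ‖x - a‖, e]
  · exact closure_minimal (t := {x | m ≤ ‖x‖ ^ 2}) (fun x hx => hm ⟨x, hx, rfl⟩)
      (isClosed_le (by fun_prop) (by fun_prop)) h2

lemma re_bd {H : Type} [NormedAddCommGroup H] [InnerProductSpace ℂ H] (T : H →L[ℂ] H) (x : H) :
    |(⟪x, T x⟫_ℂ).re - ‖x‖ ^ 2| ≤ ‖T - 1‖ * ‖x‖ ^ 2 := by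
  have b1 := (norm_inner_le_norm (𝕜 := ℂ) x ((T - 1) x)).trans (mul_le_mul_of_nonneg_left
    ((T - 1).le_opNorm x) (norm_nonneg x))
  have b2 := (abs_re_le_norm _).trans b1
  rw [show (T - 1) x = T x - x from rfl, inner_sub_right, sub_re,
    show (⟪x, x⟫_ℂ).re = ‖x‖ ^ 2 from inner_self_eq_norm_sq (𝕜 := ℂ) x] at b2
  linarith

section Abs

variable {H ι : Type} [NormedAddCommGroup H] [InnerProductSpace ℂ H] {P : ι → Prop}
  {f : ℂ → ι → H} {Γ : ℂ → H →L[ℂ] H} {z : ℂ}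

lemma cont_abs (ne : ∃ U, P U) (hΓ : Tendsto Γ (𝓝 0) (𝓝 1))
    (hE : ∀ᶠ t in 𝓝 (0 : ℂ), ∀ U, P U → ‖f (z + t) U‖ ^ 2 = (⟪f z U, Γ t (f z U)⟫_ℂ).re) :
    ContinuousAt (fun w => sInf {e | ∃ U, P U ∧ e = ‖f w U‖ ^ 2}) z := by
  have ne : ∀ w, {e | ∃ U, P U ∧ e = ‖f w U‖ ^ 2}.Nonempty :=
    fun w => ⟨_, _, ne.choose_spec, rfl⟩
  have bd : ∀ w, BddBelow {e | ∃ U, P U ∧ e = ‖f w U‖ ^ 2} :=
    fun w => ⟨0, by rintro _ ⟨U, -, rfl⟩; positivity⟩
  have hν := tendsto_iff_norm_sub_tendsto_zero.1 hΓ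
  set F : ℂ → ℝ := fun w => sInf {e | ∃ U, P U ∧ e = ‖f w U‖ ^ 2} with hF
  have key : Tendsto (fun t => F (z + t)) (𝓝 0) (𝓝 (F z)) := by
    have l1 : Tendsto (fun t => (1 - ‖Γ t - 1‖) * F z) (𝓝 0) (𝓝 (F z)) := by
      simpa only [sub_zero, one_mul] using (hν.const_sub 1).mul_const (F z)
    have l2 : Tendsto (fun t => (1 + ‖Γ t - 1‖) * F z) (𝓝 0) (𝓝 (F z)) := by
      simpa only [add_zero, one_mul] using (hν.const_add 1).mul_const (F z)
    refine tendsto_of_tendsto_of_tendsto_of_le_of_le' l1 l2 ?_ ?_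
    · filter_upwards [hE, hν.eventually (gt_mem_nhds one_pos)] with t h h1
      refine le_csInf (ne _) ?_
      rintro _ ⟨U, hU, rfl⟩
      have := mul_le_mul_of_nonneg_left (csInf_le (bd z) ⟨U, hU, rfl⟩ : F z ≤ _)
        (show 0 ≤ 1 - ‖Γ t - 1‖ by linarith)
      linarith [(abs_le.1 (re_bd (Γ t) (f z U))).1, h U hU]
    · filter_upwards [hE] with t h
      rw [mul_comm, ← div_le_iff₀ (by positivity)]
      refine le_csInf (ne _) ?_
      rintro _ ⟨U, hU, rfl⟩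
      rw [div_le_iff₀ (by positivity)]
      have : F (z + t) ≤ _ := csInf_le (bd _) ⟨U, hU, rfl⟩
      linarith [(abs_le.1 (re_bd (Γ t) (f z U))).2, h U hU]
  have := key.comp (show Tendsto (fun w => w - z) (𝓝 z) (𝓝 0) from
    (continuous_id.sub continuous_const).tendsto' _ _ (sub_self z))
  simpa [Function.comp_def, ContinuousAt] using this

lemma small {θ θ' A S S' : H →L[ℂ] H} {C : ℝ} (hG : ∀ᶠ t in 𝓝 (0 : ℂ),
    ‖Γ t - (1 - (2 * t) • θ - (2 * conj t) • θ' + (2 * (t * conj t)) • A + t ^ 2 • S +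
      conj t ^ 2 • S')‖ ≤ C * ‖t‖ ^ 3) : Tendsto Γ (𝓝 0) (𝓝 1) ∧ ∀ ε > (0 : ℝ), ∀ᶠ t in 𝓝 (0 : ℂ),
    ‖Γ t - (1 - (2 * t) • θ - (2 * conj t) • θ' + (2 * (t * conj t)) • A + t ^ 2 • S +
      conj t ^ 2 • S')‖ ≤ ε * ‖t‖ ^ 2 := by
  refine ⟨?_, fun ε hε => ?_⟩
  · have h1 := squeeze_zero_norm' hG
      ((by fun_prop : Continuous fun t : ℂ => C * ‖t‖ ^ 3).tendsto' 0 0 (by simp))
    have h2 := (by fun_prop : Continuous fun t : ℂ => 1 - (2 * t) • θ - (2 * conj t) • θ' +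
      (2 * (t * conj t)) • A + t ^ 2 • S + conj t ^ 2 • S').tendsto' 0 1 (by simp)
    simpa only [sub_add_cancel, zero_add] using h1.add h2
  · have : ∀ᶠ t in 𝓝 (0 : ℂ), C * ‖t‖ < ε :=
      ((by fun_prop : Continuous fun t : ℂ => C * ‖t‖).tendsto' 0 0 (by simp)).eventually
        (gt_mem_nhds hε)
    filter_upwards [hG, this] with t h1 h2
    refine h1.trans ?_
    have := mul_le_mul_of_nonneg_right h2.le (sq_nonneg ‖t‖)
    linarith

lemma low {B : Submodule ℂ H} {a x : H} {T : H →L[ℂ] H} {m : ℝ}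
    (hm : ∀ b ∈ B, m ≤ (⟪a + b, T (a + b)⟫_ℂ).re) (hx : a - x ∈ B.topologicalClosure) :
    m ≤ (⟪x, T x⟫_ℂ).re := by
  have := closure_minimal (t := {b | m ≤ (⟪a + b, T (a + b)⟫_ℂ).re}) hm
    (isClosed_le (by fun_prop) (by fun_prop)) (Submodule.neg_mem _ hx)
  rwa [mem_ofPred_eq, neg_sub, add_sub_cancel] at this

lemma mem_cl {B : Submodule ℂ H} {y k : H} {E : Set H} (hk : k ∈ B.topologicalClosure)
    (h : ∀ b ∈ B, y - b ∈ E) : y - k ∈ closure E :=
  map_mem_closure (f := fun k => y - k) (by fun_prop) hk h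

lemma perp_cl {B : Submodule ℂ H} {x k : H} (hk : k ∈ B.topologicalClosure)
    (h : ∀ b ∈ B, ⟪b, x⟫_ℂ = 0) : ⟪k, x⟫_ℂ = 0 :=
  closure_minimal (t := {b | ⟪b, x⟫_ℂ = 0}) h (isClosed_eq (by fun_prop) (by fun_prop)) hk

lemma proj [CompleteSpace H] {V : Type} [AddCommGroup V] [Module ℂ V] (B : Submodule ℂ H)
    (L : V →ₗ[ℂ] H) : ∃ A : V →ₗ[ℂ] H, ∀ v, (∀ k ∈ B.topologicalClosure, ⟪k, A v⟫_ℂ = 0) ∧
      ∃ k ∈ B.topologicalClosure, A v = L v - k :=
  ⟨(1 - B.topologicalClosure.starProjection).toLinearMap ∘ₗ L, fun v => ⟨fun k hk =>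
    inner_eq_zero_symm.1 (B.topologicalClosure.starProjection_inner_eq_zero (L v) k hk), _,
      B.topologicalClosure.starProjection_apply_mem (L v), rfl⟩⟩

end Abs

lemma lin (hP : PM_s) (hs : Star nx rv g c z) :
    ∃ L : (Dt → Mat) →ₗ[ℂ] HP Dt, ∀ v, L v = dP nx rv c z (aff nx rv g v) :=
  ⟨{ toFun := fun v => dP nx rv c z (aff nx rv g v)
     map_add' := fun v v' => by
       rw [aff_add]; exact (hP.lin nx rv g c z _ _ 0 hs (aff_plip v) (aff_plip v')).1
     map_smul' := fun a v => by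
       rw [aff_smul]
       exact (hP.lin nx rv g c z _ (aff nx rv g v) a hs (aff_plip v) (aff_plip v)).2 },
    fun _ => rfl⟩

lemma sub (hP : PM_s) (hs : Star nx rv g c z) {v v' U U'} (h : PAdm nx rv g v U)
    (h' : PAdm nx rv g v' U') : PAdm nx rv g (v - v') (U + (-1 : ℂ) • U') ∧
      dP nx rv c z (U + (-1 : ℂ) • U') = dP nx rv c z U - dP nx rv c z U' := by
  have h1 := (hP.adm nx rv g v' v' U' U' (-1) h' h').2
  have h2 := (hP.adm nx rv g _ _ _ _ 0 h h1).1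
  rw [neg_one_smul ℂ v', ← sub_eq_add_neg] at h2
  refine ⟨h2, ?_⟩
  rw [(hP.lin nx rv g c z _ _ 0 hs h.lip h1.lip).1, (hP.lin nx rv g c z _ _ (-1) hs h'.lip h'.lip).2,
    neg_one_smul, sub_eq_add_neg]

omit [Fintype Dt] in
lemma le_BB {p : ℕ} (hp : p < 3) : BS nx rv g c z p ≤ BB nx rv g c z := by
  unfold BB
  interval_cases p
  exacts [le_sup_left.trans le_sup_left, le_sup_right.trans le_sup_left, le_sup_right]

end HARMx

open HARMx in
theorem HARM (hM : MUL_s) (_ : INC_s) (hP : PM_s) (hI : ISO_s) (hU : PUR_s) (hV : VHS_s)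
    (hT : MOT_s) : HARM_s := by
  intro Dt _ nx rv g c z hs
  obtain ⟨L, hL⟩ := lin hP hs
  obtain ⟨A, hA⟩ := proj (BB nx rv g c z) L
  refine ⟨A, fun v hv => ?_⟩
  obtain ⟨perp, k, hk, ea⟩ := hA v
  rw [hL] at ea
  generalize A v = a at perp ea ⊢
  have hA := hP.aff nx rv g v hs.toOk.toFlat hv
  have c2 : ∀ U, PAdm nx rv g v U → a - dP nx rv c z U ∈ (BB nx rv g c z).topologicalClosure :=
    fun U h => by
      obtain ⟨h1, h2⟩ := sub hP hs hA h
      rw [sub_self] at h1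
      rw [ea, sub_right_comm]
      exact Submodule.sub_mem _
        (Submodule.le_topologicalClosure _ ((hU.all nx rv g c z _ hs).2 ⟨_, h1, h2.symm⟩)) hk
  have c1 : a ∈ V18.Hm prP (BS nx rv g c z) := by
    refine (hV nx rv g c z hs).mem_of_perp (fun p hp b hb => inner_eq_zero_symm.1
      (perp b (Submodule.le_topologicalClosure _ (le_BB hp hb)))) fun p hp b hb => ?_
    obtain ⟨U', h', rfl⟩ := (hU.all nx rv g c z _ hs).1 (le_BB hp hb)
    have i : ∀ v U, Coc nx rv g v → PAdm nx rv g v U →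
        ⟪dP nx rv c z U, CP (dP nx rv c z U')⟫_ℂ = 0 := fun v U h1 h2 => by
      rw [hI nx rv g c z v 0 U U' hs h1 coc0 h2 h', om0, zero_div]
    have j := perp_cl (x := CP (dP nx rv c z U')) hk fun k hk => by
      obtain ⟨U, h, rfl⟩ := (hU.all nx rv g c z _ hs).1 hk
      exact i 0 U coc0 h
    rw [weil_eq hM, ea, inner_sub_left, j, sub_zero]
    exact i v _ hv hA
  have c3 : Fp nx rv g c z v = ‖a‖ ^ 2 := by
    rw [← inf_eq (E := {x | ∃ U, PAdm nx rv g v U ∧ x = dP nx rv c z U}) perp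
      (by rintro _ ⟨U, h, rfl⟩; exact c2 U h) ?_]
    · unfold Fp
      congr 1
      ext e
      exact ⟨fun ⟨U, h, e⟩ => ⟨_, ⟨U, h, rfl⟩, e.symm⟩, fun ⟨_, ⟨U, h, rfl⟩, e⟩ => ⟨U, h, e.symm⟩⟩
    · rw [ea]
      refine mem_cl hk fun k hk => ?_
      obtain ⟨U, h, rfl⟩ := (hU.all nx rv g c z _ hs).1 hk
      obtain ⟨h1, h2⟩ := sub hP hs hA h
      rw [sub_zero] at h1
      exact ⟨_, h1, h2.symm⟩
  obtain ⟨S, S', C, hG⟩ := hT.exp nx rv g c z hs
  have hE := hT.eq nx rv g c z hs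
  have hS := small (Γ := fun t => GP nx rv c z (z + t)) hG
  refine ⟨c1, c2, c3, cont_abs (P := PAdm nx rv g v) (f := dP nx rv c) ⟨_, hA⟩ hS.1
    (hE.mono fun t h U hU => h.2 U hU.lip),
    (hV nx rv g c z hs).jet c1 (G := fun t => GP nx rv c z (z + t)) S S'
    (hE.mono fun t h => h.1) hS.2 c3 (hE.mono fun t h m hm => le_csInf ⟨_, _, hA, rfl⟩ ?_)⟩
  rintro _ ⟨U, hU, rfl⟩
  rw [h.2 U hU.lip]
  exact low hm (c2 U hU)

end Pool.Agent.MP_596265_gt.Hd

end

section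

/-! Block H, row OUT: the output of the block. -/

namespace Pool.Agent.MP_596265_gt.Hd

open MeasureTheory Set Complex Filter Topology
open scoped ComplexConjugate Matrix.Norms.Elementwise NNReal InnerProductSpace

namespace OUTx

theorem le_inf {S : Set ℝ} (hS : S.Nonempty) {c k : ℝ} (hk : 0 ≤ k) (h : ∀ a ∈ S, c ≤ k * a) :
    c ≤ k * sInf S := by
  rcases hk.eq_or_lt with rfl | hk
  · obtain ⟨a, ha⟩ := hS
    simpa only [zero_mul] using h a ha
  · rw [← div_le_iff₀' hk]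
    exact le_csInf hS fun a ha => (div_le_iff₀' hk).2 (h a ha)

theorem cs_le (hA : ALG_s) : ‖Cs‖ ≤ 1 := by
  refine ContinuousLinearMap.opNorm_le_bound _ zero_le_one fun x => le_of_eq ?_
  rw [one_mul, EuclideanSpace.norm_eq, EuclideanSpace.norm_eq]
  congr 1
  refine Finset.sum_congr rfl fun k _ => ?_
  rw [Cs, hA.dg_apply, norm_mul, norm_pow, norm_neg, norm_one, one_pow, one_mul]

theorem jet_congr {u u' : ℂ → ℝ} {z α : ℂ} {κ : ℝ} (h : V18.Jet u z α κ) (e : u' =ᶠ[𝓝 z] u) :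
    V18.Jet u' z α κ := by
  obtain ⟨β, h⟩ := h
  have t : Tendsto (fun t : ℂ => z + t) (𝓝 0) (𝓝 z) := by
    simpa using (tendsto_id (x := 𝓝 (0 : ℂ))).const_add z
  refine ⟨β, fun ε hε => ?_⟩
  filter_upwards [h ε hε, t.eventually e] with t h1 h2
  rw [e.self_of_nhds, h2]
  exact h1

theorem dq_const (z p q : ℂ) (K : Mat) : dq z p q (fun _ => K) = 0 := by
  funext ω
  have e : J (DD z p q ω) 0 0 = 0 := by
    ext k
    simp [J, ev]
  simp [dq, r1, r2, lineDeriv, JJ, cz, czb, e]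

variable {Dt : Type} [Fintype Dt] {nx rv : Dt → Dt} {g : Dt → G}

omit [Fintype Dt] in
theorem dP_const (c : Dt → ℂ) (z : ℂ) (K : Mat) : dP nx rv c z (fun _ _ => K) = 0 := by
  ext d : 1
  change cls _ (dq z (c (nx (rv d))) (c d) fun _ => K) = 0
  rw [dq_const, cls, dif_pos MemLp.zero]
  exact MemLp.toLp_zero _

omit [Fintype Dt] in
theorem coc_cob (hA : ALG_s) (hF : Flat nx rv g) (K : Mat) :
    Coc nx rv g fun d => K - Ad (g d) K := by
  have sub : ∀ (k : G) (X Y : Mat), Ad k (X - Y) = Ad k X - Ad k Y := fun k X Y => by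
    rw [eq_sub_iff_add_eq, ← hA.ad_add, sub_add_cancel]
  have pm : ∀ {k : G}, k = 1 ∨ k = -1 → Ad k K = K := by
    rintro k (rfl | rfl)
    · exact hA.ad_one K
    · rw [hA.ad_neg, hA.ad_one]
  constructor
  · intro d
    rw [sub, ← hA.ad_mul, pm (hF.gr d)]
    abel
  · intro d
    rw [sub, ← hA.ad_mul, hA.ad_add, sub, sub, ← hA.ad_mul, ← hA.ad_mul, ← mul_assoc,
      pm (hF.gf d)]
    abel

theorem sm_mob (hA : ALG_s) {X : Type} [NormedAddCommGroup X] [NormedSpace ℝ X] {k : X → G}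
    {z : X → ℂ} {x₀ : X} (hk : ∀ i j, ContDiffAt ℝ (⊤ : ℕ∞) (fun x => k x i j) x₀)
    (hz : ContDiffAt ℝ (⊤ : ℕ∞) z x₀) (h0 : 0 < (z x₀).im) :
    ContDiffAt ℝ (⊤ : ℕ∞) (fun x => mob (k x) (z x)) x₀ := by
  have c : ∀ i j, ContDiffAt ℝ (⊤ : ℕ∞) (fun x => ((k x i j : ℝ) : ℂ)) x₀ := fun i j =>
    ofRealCLM.contDiff.contDiffAt.comp x₀ (hk i j)
  have hd : ContDiffAt ℝ (⊤ : ℕ∞) (fun x => den (k x) (z x)) x₀ := ((c 1 0).mul hz).add (c 1 1)
  simp only [mob, div_eq_mul_inv]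
  exact (((c 0 0).mul hz).add (c 0 1)).mul (hd.inv (hA.den_ne _ _ h0.ne'))

theorem sm_mul {X : Type} [NormedAddCommGroup X] [NormedSpace ℝ X] {k l : X → G} {x₀ : X}
    (hk : ∀ i j, ContDiffAt ℝ (⊤ : ℕ∞) (fun x => k x i j) x₀)
    (hl : ∀ i j, ContDiffAt ℝ (⊤ : ℕ∞) (fun x => l x i j) x₀) (i j : Fin 2) :
    ContDiffAt ℝ (⊤ : ℕ∞) (fun x => (k x * l x) i j) x₀ := by
  simp only [Matrix.SpecialLinearGroup.coe_mul, Matrix.mul_apply, Fin.sum_univ_two]
  exact ((hk i 0).mul (hl 0 j)).add ((hk i 1).mul (hl 1 j))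

theorem sm_inc (hI : INC_s) {X : Type} [NormedAddCommGroup X] [NormedSpace ℝ X] {p q r : X → ℂ}
    {x₀ : X} (hp : ContDiffAt ℝ (⊤ : ℕ∞) p x₀) (hq : ContDiffAt ℝ (⊤ : ℕ∞) q x₀)
    (hr : ContDiffAt ℝ (⊤ : ℕ∞) r x₀) (h : PosT (p x₀) (q x₀) (r x₀)) :
    ContDiffAt ℝ (⊤ : ℕ∞) (fun x => inc (p x) (q x) (r x)) x₀ := by
  have := ContDiffAt.comp (f := fun x => (p x, q x, r x)) x₀ (hI.smooth _ _ _ h)
    (hp.prodMk (hq.prodMk hr))
  exact this

theorem cont_hd : Continuous fun x : ℂ × ℂ × ℂ => hd x.1 x.2.1 x.2.2 := by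
  unfold hd
  fun_prop

end OUTx

open OUTx in
theorem OUT (hALG : ALG_s) (_hTRI : TRI_s) (hINC : INC_s) (hPM : PM_s) (hEQ : EQ_s) (hISO : ISO_s)
    (_hPUR : PUR_s) (hHARM : HARM_s) (hC2P : C2P_s) (hMUL : MUL_s) (hVHS : VHS_s) : OUT_s := by
  refine ⟨?_, ?_, ?_⟩
  · intro Dt _ nx rv g z hO
    have hS := hINC.star nx rv g z hO
    set c := incs nx g z
    obtain ⟨A, hA⟩ := hHARM nx rv g c z hS
    have h3 : ‖((√3 : ℝ) : ℂ)‖ ^ 2 = 3 := by
      rw [norm_real, Real.norm_eq_abs, sq_abs, Real.sq_sqrt (by norm_num)]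
    refine ⟨((√3 : ℝ) : ℂ) • A, fun v hv => ?_, fun v v' hv hv' => ?_, fun K => ?_⟩
    · rw [hEQ.eq nx rv g c z v hS hv, (hA v hv).2.2.1, LinearMap.smul_apply, norm_smul, mul_pow, h3]
    · have hC : ‖(CP : HP Dt →L[ℂ] HP Dt)‖ ≤ 1 :=
        hMUL.mp_le _ 1 zero_le_one (fun _ => continuousOn_const) fun _ _ _ => cs_le hALG
      have ne : ∀ u, Coc nx rv g u →
          {e | ∃ U, PAdm nx rv g u U ∧ e = ‖dP nx rv c z U‖ ^ 2}.Nonempty := fun u hu =>
        ⟨_, _, hPM.aff nx rv g u hO.toFlat hu, rfl⟩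
      have p0 : 0 ≤ Fp nx rv g c z v := by rw [(hA v hv).2.2.1]; positivity
      have p1 : 0 ≤ Fp nx rv g c z v' := by rw [(hA v' hv').2.2.1]; positivity
      have key : ‖om nx g (fun d => cj (v d)) v'‖ ^ 2 ≤
          4 * Fp nx rv g c z v * Fp nx rv g c z v' := by
        refine le_inf (ne v' hv') (by positivity) ?_
        rintro _ ⟨U', hU', rfl⟩
        rw [mul_right_comm]
        refine le_inf (ne v hv) (by positivity) ?_
        rintro _ ⟨U, hU, rfl⟩
        have e := congrArg norm (hISO nx rv g c z v v' U U' hS hv hv' hU hU')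
        rw [norm_div, norm_mul, norm_I, norm_ofNat, mul_one, eq_div_iff (by norm_num)] at e
        have b1 := norm_inner_le_norm (𝕜 := ℂ) (dP nx rv c z U) (CP (dP nx rv c z U'))
        have b2 : ‖CP (dP nx rv c z U')‖ ≤ ‖dP nx rv c z U'‖ := by
          simpa using (CP : HP Dt →L[ℂ] HP Dt).le_of_opNorm_le hC (dP nx rv c z U')
        have b3 : ‖om nx g (fun d => cj (v d)) v'‖ ≤ 2 * ‖dP nx rv c z U'‖ * ‖dP nx rv c z U‖ := by
          have := mul_le_mul_of_nonneg_left b2 (norm_nonneg (dP nx rv c z U))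
          linarith
        calc _ ≤ (2 * ‖dP nx rv c z U'‖ * ‖dP nx rv c z U‖) ^ 2 :=
              pow_le_pow_left₀ (norm_nonneg _) b3 2
          _ = _ := by ring
      rw [hEQ.eq nx rv g c z v hS hv, hEQ.eq nx rv g c z v' hS hv']
      nlinarith only [key]
    · have hv := coc_cob hALG hO.toFlat K
      have hU : PAdm nx rv g (fun d => K - Ad (g d) K) fun _ _ => K :=
        ⟨fun _ => ⟨0, fun _ _ _ _ => by simp⟩, fun _ _ _ => rfl, fun _ _ _ => by simp⟩
      have h0 : Fp nx rv g c z (fun d => K - Ad (g d) K) ≤ 0 :=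
        csInf_le ⟨0, by rintro _ ⟨U, -, rfl⟩; positivity⟩ ⟨_, hU, by rw [dP_const]; simp⟩
      rw [(hA _ hv).2.2.1] at h0
      have : A (fun d => K - Ad (g d) K) = 0 := by
        rw [← norm_eq_zero]
        exact pow_eq_zero_iff (two_ne_zero) |>.1 (le_antisymm h0 (by positivity))
      rw [LinearMap.smul_apply, this, smul_zero]
  · intro Dt _ nx rv g z v hO hv
    have hS := hINC.star nx rv g z hO
    set c := incs nx g z
    obtain ⟨A, hA⟩ := hHARM nx rv g c z hS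
    obtain ⟨a1, -, a3, a4, a5⟩ := hA v hv
    have e : (fun w => Fn nx rv g w v) =ᶠ[𝓝 z] fun w =>
        Fp nx rv g c w v + Fp nx rv g c w v + Fp nx rv g c w v := by
      filter_upwards [hINC.near nx rv g c z hS] with w hw
      rw [hEQ.eq nx rv g c w v hw hv]
      ring
    obtain ⟨j1, j2⟩ := (hVHS nx rv g c z hS).jet' (F := fun w => Fp nx rv g c w v) (z := z) a1 a3
    refine ⟨((a4.add a4).add a4).congr e.symm, _, _, jet_congr ((a5.add a5).add a5) e,
      by linarith, ?_⟩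
    rw [hEQ.eq nx rv g c z v hS hv]
    set α := -4 * ⟪A v, thP nx rv c z (A v)⟫_ℂ
    have : α + α + α = 3 * α := by ring
    rw [this, norm_mul, norm_ofNat]
    linarith
  · intro Dt X _ _ _ _ nx rv g z v x₀ hF hO
    have m1 : ∀ d, ContDiffAt ℝ (⊤ : ℕ∞) (fun x => mob (g x d) (z x)) x₀ := fun d =>
      sm_mob hALG (hF.sg d) hF.sz hO.im
    have m2 : ∀ d, ContDiffAt ℝ (⊤ : ℕ∞) (fun x => mob (g x d * g x (nx d)) (z x)) x₀ := fun d =>
      sm_mob hALG (sm_mul (hF.sg d) (hF.sg (nx d))) hF.sz hO.im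
    have m3 : ∀ d, ContDiffAt ℝ (⊤ : ℕ∞)
        (fun x => (z x, mob (g x d) (z x), mob (g x d * g x (nx d)) (z x))) x₀ := fun d =>
      hF.sz.prodMk ((m1 d).prodMk (m2 d))
    have ok : ∀ᶠ x in 𝓝 x₀, Ok nx rv (g x) (z x) := by
      have i1 : ∀ᶠ x in 𝓝 x₀, 0 < (z x).im :=
        (continuous_im.continuousAt.comp hF.sz.continuousAt).eventually (lt_mem_nhds hO.im)
      have i2 : ∀ᶠ x in 𝓝 x₀, ∀ d,
          0 < hd (z x) (mob (g x d) (z x)) (mob (g x d * g x (nx d)) (z x)) :=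
        eventually_all.2 fun d =>
          (cont_hd.continuousAt.comp (m3 d).continuousAt).eventually (lt_mem_nhds (hO.pos d))
      filter_upwards [hF.ev, i1, i2] with x h1 h2 h3
      exact ⟨h1.1, h2, h3⟩
    have st := ok.mono fun x hx => hINC.star nx rv (g x) (z x) hx
    have m4 : ∀ d, ContDiffAt ℝ (⊤ : ℕ∞) (fun x => incs nx (g x) (z x) d) x₀ := fun d =>
      sm_inc hINC hF.sz (m1 d) (m2 d)
        ⟨hO.im, hALG.mob_pos _ _ hO.im, hALG.mob_pos _ _ hO.im, hO.pos d⟩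
    have := hC2P nx rv g z v (fun x => incs nx (g x) (z x)) x₀ hF m4 st
    refine (contDiffAt_const (c := (3 : ℝ)).mul this).congr_of_eventuallyEq ?_
    filter_upwards [st, hF.ev] with x h1 h2
    exact hEQ.eq nx rv _ _ _ _ h1 h2.2

end Pool.Agent.MP_596265_gt.Hd

end
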