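import Pool.Agent.MP_596265_gt.W.H0
import Pool.Agent.MP_596265_gt.W.L0

attribute [-instance] ProperSMul.toContinuousSMul ContinuousMap.instAddCommMonoidOfContinuousAdd
  NonarchimedeanAddGroup.toIsTopologicalAddGroup
  IsValuativeTopology.instValuedValueGroupWithZeroOfIsUniformAddGroup IsScalarTower.to_smulCommClass
  Finite.instDiscreteTopology LeftPreLieAlgebra.toModule RightPreLieAlgebra.toModule
  TotallySeparatedSpace.t2Space AddSubgroup.seminormedAddCommGroup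
  ContinuousLinearMap.toSeminormedRing NonUnitalNonAssocSemiring.toAddCommMonoid
  ContinuousSemilinearMapClass.toContinuousMapClass RKHS.instFunLike
  SMulCommClass.continuousConstSMul LieRinehartAlgebra.toIsScalarTower Distrib.toAdd
  MulSemiringAction.toDistribMulAction Group.IsPerfect.subsingleton_of_isMulCommutative
  NonarchimedeanRing.toIsTopologicalRing IsPurelyInseparable.isIntegral
  IsTopologicalSemiring.toContinuousAdd IsValuativeTopology.instIsTopologicalAddGroup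
  IsTopologicalTorsor.toContinuousSMul AddQuantale.instAddLeftMono littleWedderburn
  MonTypeEquivalenceMon.monMonoid IsIsometricSMul.to_continuousConstSMul
  IsSemitopologicalRing.toIsTopologicalAddGroup NonUnitalNonAssocSemiring.toMulZeroClass
  LieAlgebra.toModule ESeminormedAddCommMonoid.toAddCommMonoid Module.Invertible.instFaithfulSMul
  NonUnitalSeminormedRing.toPseudoMetricSpace SubsemiringClass.toCommSemiring
  TopologicalSpace.instSecondCountableTopologyOfLindelofSpaceOfPseudoMetrizableSpace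
  continuousSub_of_discreteTopology CoalgHomClass.toSemilinearMapClass AddQuantale.instAddRightMono
  SubringClass.toRing Action.FintypeCat.instMulActionObjFiniteOf Valued.isTopologicalDivisionRing
  NumberField.instFiniteDimensional Subtype.pseudoMetricSpace Pi.smulCommClass
  MulZeroOneClass.toMulZeroClass NormedCommRing.toCommRing SubringClass.toSeminormedCommRing
  Algebra.WeaklyEtale.flat IdemSemiring.toSemiring NonUnitalStarSubalgebra.nonUnitalCStarAlgebra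
  NonUnitalNormedCommRing.toNonUnitalSeminormedCommRing NonUnitalRing.toNonUnitalNonAssocRing
  SetLike.GradeZero.instRing IdemSemiring.toCanonicallyOrderedAdd SetLike.GradeZero.instSemiring
  SetLike.GradeZero.instCommSemiring Bialgebra.toAlgebra NumberField.to_charZero
  LinearOrderedAddCommGroup.toIsTopologicalAddGroup AlexandrovDiscrete.toFirstCountable
  instDiscreteTopologySubtype instCoeTCOfCoe AddCommGroupWithOne.toAddGroupWithOne
  AddCommMonoidWithOne.toAddCommMonoid Valued.toUniformSpace CStarAlgebra.toNormedAlgebra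
  SeminormedRing.toNonUnitalSeminormedRing Algebra.Smooth.flat EuclideanDomain.toCommRing
  Quantale.instMulRightMono TestFunctionClass.toDFunLike SeminormedCommRing.toCommRing
  IsModuleTopology.instSubsingleton NonAssocSemiring.toNonUnitalNonAssocSemiring
  AlgHom.instNonUnitalAlgHomClassOfAlgHomClass

section

/-! Block H, row MUL: multiplication operators. -/

namespace Pool.Agent.MP_596265_gt.Hd

open MeasureTheory Set Complex Filter Topology
open scoped ComplexConjugate Matrix.Norms.Elementwise NNReal InnerProductSpace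

namespace MULx

theorem ae {X : Type} [MeasurableSpace X] (μ : Measure X) (T : X → E8 →L[ℂ] E8) (C : ℝ)
    (h1 : AEStronglyMeasurable T μ) (h2 : ∀ᵐ ω ∂μ, ‖T ω‖ ≤ C) (x : Lp E8 2 μ) :
    mul μ T x =ᵐ[μ] fun ω => T ω (x ω) := by
  have hT := memLp_top_of_bound h1 C h2
  have h : ∃ A : Lp E8 2 μ →L[ℂ] Lp E8 2 μ, ∀ x, A x =ᵐ[μ] fun ω => T ω (x ω) :=
    ⟨(ContinuousLinearMap.id ℂ (E8 →L[ℂ] E8)).holderL μ ⊤ 2 2 hT.toLp, fun x => by
      filter_upwards [(ContinuousLinearMap.id ℂ (E8 →L[ℂ] E8)).coeFn_holder (r := 2) hT.toLp x,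
        hT.coeFn_toLp] with ω e1 e2
      rw [← e2]; exact e1⟩
  rw [mul, dif_pos h]
  exact h.choose_spec x

theorem app_le {X : Type} [MeasurableSpace X] (μ : Measure X) (T : X → E8 →L[ℂ] E8) (C : ℝ)
    (h1 : AEStronglyMeasurable T μ) (h2 : ∀ᵐ ω ∂μ, ‖T ω‖ ≤ C) (x : Lp E8 2 μ) :
    ‖mul μ T x‖ ≤ C * ‖x‖ :=
  Lp.norm_le_mul_norm_of_ae_le_mul (by
    filter_upwards [ae μ T C h1 h2 x, h2] with ω e1 e2
    rw [e1]; exact (T ω).le_of_opNorm_le e2 _)

theorem msq : MeasurableSet sq := measurableSet_Ioo.prod measurableSet_Ioo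
theorem sub : sq ⊆ csq := prod_mono Ioo_subset_Icc_self Ioo_subset_Icc_self
theorem cpt : IsCompact csq := isCompact_Icc.prod isCompact_Icc

theorem ae_mem : ∀ᵐ ω ∂volume.restrict sq, ω ∈ csq :=
  (ae_restrict_mem msq).mono fun _ h => sub h

theorem meas {F : Type} [NormedAddCommGroup F] [SecondCountableTopology F] {T : ℝ × ℝ → F}
    (h : ContinuousOn T csq) : AEStronglyMeasurable T (volume.restrict sq) :=
  (h.mono sub).aestronglyMeasurable msq

variable {Dt : Type} [Fintype Dt]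

omit [Fintype Dt] in
theorem mp_ae {T : Dt → ℝ × ℝ → E8 →L[ℂ] E8} (h : ∀ d, ContinuousOn (T d) csq) (x : HP Dt)
    (d : Dt) : mP T x d =ᵐ[volume.restrict sq] fun ω => T d ω (x d ω) := by
  obtain ⟨C, hC⟩ := cpt.exists_bound_of_continuousOn (h d)
  exact ae _ _ C (meas (h d)) (ae_mem.mono hC) (x d)

omit [Fintype Dt] in
theorem mp_ext {A B : HP Dt →L[ℂ] HP Dt}
    (h : ∀ x d, A x d =ᵐ[volume.restrict sq] B x d) : A = B :=
  ContinuousLinearMap.ext fun x => PiLp.ext fun d => Lp.ext (h x d)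

omit [Fintype Dt] in
theorem mp_congr {T T' : Dt → ℝ × ℝ → E8 →L[ℂ] E8} (h : ∀ d, ContinuousOn (T d) csq)
    (e : ∀ d, ∀ ω ∈ csq, T' d ω = T d ω) : mP T' = mP T :=
  mp_ext fun x d => by
    filter_upwards [mp_ae h x d, mp_ae (fun d => (h d).congr (e d)) x d, ae_mem] with ω e1 e2 e3
    rw [e1, e2, e d ω e3]

theorem dia_le {H : Dt → Type} [∀ d, NormedAddCommGroup (H d)] [∀ d, InnerProductSpace ℂ (H d)]
    (A : ∀ d, H d →L[ℂ] H d) {C : ℝ} (hC : 0 ≤ C) (h : ∀ d x, ‖A d x‖ ≤ C * ‖x‖) :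
    ‖dia A‖ ≤ C := by
  refine ContinuousLinearMap.opNorm_le_bound _ hC fun x => ?_
  refine abs_le_of_sq_le_sq' ?_ (by positivity) |>.2
  rw [mul_pow, PiLp.norm_sq_eq_of_L2, PiLp.norm_sq_eq_of_L2, Finset.mul_sum]
  exact Finset.sum_le_sum fun d _ => by
    rw [← mul_pow]; exact pow_le_pow_left₀ (norm_nonneg _) (h d (x d)) 2

theorem mp_le {T : Dt → ℝ × ℝ → E8 →L[ℂ] E8} {C : ℝ} (hC : 0 ≤ C)
    (h : ∀ d, ContinuousOn (T d) csq) (h' : ∀ d, ∀ ω ∈ csq, ‖T d ω‖ ≤ C) : ‖mP T‖ ≤ C :=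
  dia_le _ hC fun d => app_le _ _ C (meas (h d)) (ae_mem.mono (h' d))

theorem mp_add {T T' : Dt → ℝ × ℝ → E8 →L[ℂ] E8} (h : ∀ d, ContinuousOn (T d) csq)
    (h' : ∀ d, ContinuousOn (T' d) csq) : mP (fun d ω => T d ω + T' d ω) = mP T + mP T' :=
  mp_ext fun x d => by
    filter_upwards [mp_ae h x d, mp_ae h' x d, mp_ae (fun d => (h d).add (h' d)) x d,
      Lp.coeFn_add (mP T x d) (mP T' x d)] with ω e1 e2 e3 e4
    rw [Pi.add_apply, e1, e2] at e4
    exact e3.trans e4.symm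

omit [Fintype Dt] in
theorem mp_mul {T T' : Dt → ℝ × ℝ → E8 →L[ℂ] E8} (h : ∀ d, ContinuousOn (T d) csq)
    (h' : ∀ d, ContinuousOn (T' d) csq) : mP (fun d ω => T d ω * T' d ω) = mP T * mP T' :=
  mp_ext fun x d => by
    filter_upwards [mp_ae h (mP T' x) d, mp_ae h' x d, mp_ae (fun d => (h d).mul (h' d)) x d]
      with ω e1 e2 e3
    exact e3.trans (Eq.trans (by rw [e2]; rfl) e1.symm)

theorem mp_smul {T : Dt → ℝ × ℝ → E8 →L[ℂ] E8} (a : ℂ) (h : ∀ d, ContinuousOn (T d) csq) :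
    mP (fun d ω => a • T d ω) = a • mP T :=
  mp_ext fun x d => by
    filter_upwards [mp_ae h x d, mp_ae (fun d => (h d).const_smul a) x d,
      Lp.coeFn_smul a (mP T x d)] with ω e1 e2 e3
    rw [Pi.smul_apply, e1] at e3
    exact e2.trans e3.symm

theorem inn (x y : HP Dt) : ⟪x, y⟫_ℂ = ∑ d, ∫ ω in sq, ⟪x d ω, y d ω⟫_ℂ := rfl

theorem cstar : Continuous fun A : E8 →L[ℂ] E8 => star A :=
  (ContinuousLinearMap.adjoint (𝕜 := ℂ) (E := E8) (F := E8)).continuous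

theorem mp_star {T : Dt → ℝ × ℝ → E8 →L[ℂ] E8} (h : ∀ d, ContinuousOn (T d) csq) :
    mP (fun d ω => star (T d ω)) = ContinuousLinearMap.adjoint (mP T) := by
  refine (ContinuousLinearMap.eq_adjoint_iff _ _).2 fun x y => ?_
  rw [inn, inn]
  refine Finset.sum_congr rfl fun d _ => integral_congr_ae ?_
  filter_upwards [mp_ae h y d, mp_ae (fun d => cstar.comp_continuousOn' (h d)) x d] with ω e1 e2
  rw [e1, e2]
  exact ContinuousLinearMap.adjoint_inner_left _ _ _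

omit [Fintype Dt] in
theorem mp_one : mP (fun (_ : Dt) _ => 1) = 1 :=
  mp_ext fun x d => mp_ae (fun _ => continuousOn_const) x d

end MULx

theorem MUL : MUL_s where
  ae := MULx.ae
  le μ T C hC h1 h2 := ContinuousLinearMap.opNorm_le_bound _ hC (MULx.app_le μ T C h1 h2)
  cls_ae μ f h := by rw [cls, dif_pos h]; exact h.coeFn_toLp
  dia_apply _ _ _ := rfl
  mp_ae _ h := MULx.mp_ae h
  mp_le _ _ hC h h' := MULx.mp_le hC h h'
  mp_add _ _ h h' := ⟨MULx.mp_add h h', MULx.mp_mul h h'⟩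
  mp_smul _ a h := ⟨MULx.mp_smul a h, MULx.mp_star h⟩
  mp_one := MULx.mp_one
  inn := MULx.inn

end Pool.Agent.MP_596265_gt.Hd

end

section

/-! Row PM: the polar differential is square integrable and linear. -/

namespace Pool.Agent.MP_596265_gt.Hd

open MeasureTheory Set Complex Filter Topology
open scoped ComplexConjugate Matrix.Norms.Elementwise NNReal InnerProductSpace

namespace PMx

lemma sq_sub : sq ⊆ csq := prod_mono Ioo_subset_Icc_self Ioo_subset_Icc_self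
lemma sq_open : IsOpen sq := isOpen_Ioo.prod isOpen_Ioo

lemma geo_im {p q : ℂ} {l : ℝ} (hp : 0 < p.im) (hq : 0 < q.im) (hl : l ∈ Icc (0 : ℝ) 1) :
    0 < (geo p q l).im := by
  have h0 : 0 ≤ (1 - l) * q.im := mul_nonneg (by linarith [hl.2]) hq.le
  have h1 : 0 ≤ l * p.im := mul_nonneg hl.1 hp.le
  have h2 : 0 < (1 - l) * q.im + l * p.im := by
    rcases hl.1.eq_or_lt with h | h
    · rw [← h]; simpa using hq
    · have := mul_pos h hp
      linarith
  have m0 : 0 ≤ mu p q l := div_nonneg h1 h2.le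
  have m1 : 0 ≤ 1 - mu p q l := sub_nonneg.2 ((div_le_one h2).2 (by linarith))
  refine Real.sqrt_pos.2 ?_
  have a := mul_nonneg (mul_nonneg m0 m1) (sq_nonneg (p.re - q.re))
  have b := mul_nonneg m1 (sq_nonneg p.im)
  have c := mul_nonneg m0 (sq_nonneg q.im)
  rcases m0.eq_or_lt with h | h
  · rw [← h]; simpa only [sub_zero, one_mul, zero_mul, add_zero, mul_one, gt_iff_lt] using pow_pos hp 2
  · have := mul_pos h (pow_pos hq 2)
    linarith

lemma ray_im {z y : ℂ} {s : ℝ} (hz : 0 < z.im) (hy : 0 < y.im) (hs : s ∈ Icc (0 : ℝ) 1) :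
    0 < (ray z y s).im := by
  have h1 : s ^ 2 ≤ 1 := pow_le_one₀ hs.1 hs.2
  have h2 : 0 < normSq (z - conj y) - s ^ 2 * normSq (z - y) := by
    have a := mul_le_of_le_one_left (normSq_nonneg (z - y)) h1
    have b : normSq (z - conj y) = normSq (z - y) + 4 * (z.im * y.im) := by
      simp only [normSq_apply, sub_re, conj_re, sub_im, conj_im, sub_neg_eq_add]; ring
    have := mul_pos hz hy
    linarith
  have h3 : NN z y s ≠ 0 := fun h => by
    rw [sub_eq_zero.1 h, map_mul, normSq_ofReal] at h2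
    linarith
  have h4 : ray z y s = (y * (z - conj y) - conj y * (s * (z - y))) / NN z y s := by
    rw [ray, eq_div_iff h3, add_mul, mul_assoc, div_mul_cancel₀ _ h3, NN]
    ring
  have h5 := normSq_pos.2 h3
  rw [h4, div_im, ← sub_div]
  refine div_pos (lt_of_lt_of_eq (mul_pos hy h2) ?_) h5
  simp only [normSq_apply, sub_re, conj_re, sub_im, conj_im, sub_neg_eq_add, mul_im, ofReal_re, ofReal_im, zero_mul, add_zero, mul_re, sub_zero, neg_mul, NN]
  ring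

lemma dl_ne {w : ℂ} (h : 0 < w.im) : dl w ≠ 0 := fun e => by
  have := congrArg Complex.im e
  simp only [dl, sub_im, conj_im, sub_neg_eq_add, zero_im, add_self_eq_zero] at this
  exact h.ne' this

lemma ab_ne {a b : ℂ} (h : 0 < jc a b) : a * conj b - b * conj a ≠ 0 := fun e => by
  have := congrArg Complex.im e
  simp only [sub_im, mul_im, conj_im, mul_neg, conj_re, zero_im, jc, neg_mul, lt_add_neg_iff_add_lt, zero_add] at this h
  linarith

section
variable {Y : Type} [TopologicalSpace Y]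

lemma pt_cont {w : Y → ℂ} (hw : Continuous w) (i : Bool) : Continuous fun y => pt (w y) i := by
  cases i
  · exact hw
  · exact continuous_conj.comp hw

lemma ev_cont {X : Y → Mat} {s t : Y → ℂ} (hX : Continuous X) (hs : Continuous s)
    (ht : Continuous t) : Continuous fun y => ev (X y) (s y) (t y) :=
  ((((hX.matrix_elem 0 0).mul ht).add (hX.matrix_elem 0 1)).sub
    ((hs.mul (hX.matrix_elem 1 0)).mul ht)).sub (hs.mul (hX.matrix_elem 1 1))

lemma JJ_cont {w a b : Y → ℂ} {X₁ X₂ : Y → Mat} (hw : Continuous w) (ha : Continuous a)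
    (hb : Continuous b) (h1 : Continuous X₁) (h2 : Continuous X₂) (h3 : ∀ y, 0 < (w y).im)
    (h4 : ∀ y, 0 < jc (a y) (b y)) : Continuous fun y => JJ (w y) (a y) (b y) (X₁ y) (X₂ y) := by
  have ca := continuous_conj.comp ha
  have cb := continuous_conj.comp hb
  have ci := ((ha.mul cb).sub (hb.mul ca)).inv₀ fun y => ab_ne (h4 y)
  refine Continuous.smul (continuous_ofReal.comp (continuous_im.comp (ca.mul hb)).sqrt)
    ((PiLp.continuous_toLp 2 _).comp (continuous_pi fun k => ?_))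
  refine Continuous.div (ev_cont ?_ (pt_cont hw _) (pt_cont hw _))
    (hw.sub (continuous_conj.comp hw)) fun y => dl_ne (h3 y)
  cases k.2.2
  · exact ci.smul ((ha.smul h2).sub (hb.smul h1))
  · exact ci.smul ((cb.smul h1).sub (ca.smul h2))

end

lemma JJ_add (w a b : ℂ) (X₁ X₂ Y₁ Y₂ : Mat) :
    JJ w a b (X₁ + Y₁) (X₂ + Y₂) = JJ w a b X₁ X₂ + JJ w a b Y₁ Y₂ := by
  ext ⟨i, j, k⟩
  cases k <;> simp only [JJ, J, ev, cz, smul_add, czb, Fin.isValue, coe_smul, PiLp.smul_apply, Bool.false_eq_true, ↓ reduceIte, Matrix.smul_apply, Matrix.sub_apply, Matrix.add_apply, smul_eq_mul, real_smul, PiLp.add_apply] <;> ring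

lemma JJ_smul (w a b c : ℂ) (X₁ X₂ : Mat) :
    JJ w a b (c • X₁) (c • X₂) = c • JJ w a b X₁ X₂ := by
  ext ⟨i, j, k⟩
  cases k <;> simp only [JJ, J, ev, cz, czb, Fin.isValue, coe_smul, PiLp.smul_apply, Bool.false_eq_true, ↓ reduceIte, Matrix.smul_apply, Matrix.sub_apply, smul_eq_mul, real_smul] <;> ring

lemma plip_add {f f' : ℝ × ℝ → Mat} (h : PLip f) (h' : PLip f') : PLip (f + f') := by
  obtain ⟨C, hC⟩ := h
  obtain ⟨C', hC'⟩ := h'
  refine ⟨C + C', fun ω hω ω' hω' => ?_⟩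
  rw [Pi.add_apply, Pi.add_apply, add_sub_add_comm, add_mul]
  exact (norm_add_le _ _).trans (add_le_add (hC ω hω ω' hω') (hC' ω hω ω' hω'))

lemma plip_smul {f : ℝ × ℝ → Mat} (a : ℂ) (h : PLip f) : PLip (a • f) := by
  obtain ⟨C, hC⟩ := h
  refine ⟨‖a‖ * C, fun ω hω ω' hω' => ?_⟩
  rw [Pi.smul_apply, Pi.smul_apply, ← smul_sub, norm_smul, mul_assoc]
  exact mul_le_mul_of_nonneg_left (hC ω hω ω' hω') (norm_nonneg _)

lemma plip_w (y : Mat) (m : ℝ → ℝ) (h1 : ∀ l ∈ Icc (0 : ℝ) 1, |m l| ≤ 1)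
    (h2 : ∀ l l', |m l - m l'| = |l - l'|) :
    PLip fun ω : ℝ × ℝ => (((1 - ω.2) * m ω.1 : ℝ) : ℂ) • y := by
  refine ⟨‖y‖, fun ω hω ω' hω' => ?_⟩
  rw [← sub_smul, norm_smul, ← ofReal_sub, norm_real, mul_comm, Real.norm_eq_abs]
  refine mul_le_mul_of_nonneg_left ?_ (norm_nonneg _)
  rw [show (1 - ω.2) * m ω.1 - (1 - ω'.2) * m ω'.1 =
    (1 - ω.2) * (m ω.1 - m ω'.1) - (ω.2 - ω'.2) * m ω'.1 by ring]
  refine (abs_sub _ _).trans (add_le_add ?_ ?_)
  · rw [abs_mul, h2, abs_of_nonneg (sub_nonneg.2 hω.2.2)]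
  · rw [abs_mul]
    exact mul_le_of_le_one_right (abs_nonneg _) (h1 _ hω'.1)

lemma mem (hGEP : GEP_s) (hPL : PL_s) (z p q : ℂ) (U : ℝ × ℝ → Mat) (h : PosT z p q)
    (hU : PLip U) : MemLp (dq z p q U) 2 (volume.restrict sq) := by
  obtain ⟨cl, hcl⟩ : ∃ cl : ℝ × ℝ → ℝ × ℝ,
    cl = fun ω => (max 0 (min ω.1 1), max 0 (min ω.2 1)) := ⟨_, rfl⟩
  have c0 : Continuous cl := by rw [hcl]; fun_prop
  have c1 : ∀ ω, cl ω ∈ csq := fun ω => by
    rw [hcl]
    exact ⟨⟨le_max_left _ _, max_le zero_le_one (min_le_right _ _)⟩,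
      ⟨le_max_left _ _, max_le zero_le_one (min_le_right _ _)⟩⟩
  have c2 : ∀ ω ∈ csq, cl ω = ω := fun ω hω => by
    simp only [hcl, min_eq_left hω.1.2, min_eq_left hω.2.2, max_eq_right hω.1.1,
      max_eq_right hω.2.1]
  have key : ∀ F : (ℂ × ℂ × ℂ) × ℝ × ℝ → ℂ, (∀ ω ∈ csq, ContinuousAt F ((z, p, q), ω)) →
      Continuous fun x : (ℝ × ℝ) × Mat × Mat => F ((z, p, q), cl x.1) := fun F hF =>
    continuous_iff_continuousAt.2 fun x =>
      ContinuousAt.comp (f := fun x : (ℝ × ℝ) × Mat × Mat => ((z, p, q), cl x.1)) (hF _ (c1 _))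
        (continuous_const.prodMk (c0.comp continuous_fst)).continuousAt
  have sm := fun ω hω => hGEP.sm z p q ω h.1 h.2.1 h.2.2.1 hω
  have hΦ : Continuous fun x : (ℝ × ℝ) × Mat × Mat => ((√(1 - x.1.2) : ℝ) : ℂ) •
      JJ (DD z p q (cl x.1)) (e1 z p q (cl x.1)) (e2 z p q (cl x.1)) x.2.1 x.2.2 :=
    Continuous.smul (continuous_ofReal.comp (continuous_const.sub continuous_fst.snd).sqrt)
      (JJ_cont (key _ fun ω hω => (sm ω hω).1.continuousAt)
      (key _ fun ω hω => (sm ω hω).2.1.continuousAt) (key _ fun ω hω => (sm ω hω).2.2.continuousAt)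
      continuous_snd.fst continuous_snd.snd
      (fun x => ray_im h.1 (geo_im h.2.1 h.2.2.1 (c1 _).1) (c1 _).2)
      fun x => hGEP.jpos z p q _ h (c1 _))
  obtain ⟨C, hC⟩ := hPL.dif U hU
  obtain ⟨m1, m2⟩ := hPL.meas U hU
  have hK : IsCompact (csq ×ˢ (Metric.closedBall (0 : Mat) C ×ˢ Metric.closedBall (0 : Mat) C)) :=
    (isCompact_Icc.prod isCompact_Icc).prod
      ((isCompact_closedBall _ _).prod (isCompact_closedBall _ _))
  obtain ⟨B, hB⟩ := hK.exists_bound_of_continuousOn hΦ.continuousOn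
  have : IsFiniteMeasure (volume.restrict sq) := isFiniteMeasure_restrict.2
    ((measure_mono sq_sub).trans_lt (isCompact_Icc.prod isCompact_Icc).measure_lt_top).ne
  have ms := hΦ.comp_aestronglyMeasurable (aestronglyMeasurable_id.prodMk (m1.prodMk m2))
  refine MemLp.of_bound (ms.congr ?_) B ?_
  · filter_upwards [ae_restrict_mem sq_open.measurableSet] with ω hω
    simp only [id, c2 ω (sq_sub hω), dq]
  · filter_upwards [ae_restrict_mem sq_open.measurableSet, hC] with ω hω h1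
    have := hB (ω, r1 U ω, r2 U ω) ⟨sq_sub hω, mem_closedBall_zero_iff.2 h1.2.1,
      mem_closedBall_zero_iff.2 h1.2.2⟩
    simpa only [c2 ω (sq_sub hω), dq] using this

lemma dq_add (z p q : ℂ) {U U' : ℝ × ℝ → Mat} {ω : ℝ × ℝ} (h : DifferentiableAt ℝ U ω)
    (h' : DifferentiableAt ℝ U' ω) : dq z p q (U + U') ω = dq z p q U ω + dq z p q U' ω := by
  simp only [dq, r1, r2, h.lineDeriv_eq_fderiv, h'.lineDeriv_eq_fderiv,
    (h.add h').lineDeriv_eq_fderiv, fderiv_add h h', add_apply, smul_add, JJ_add]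

lemma dq_smul (z p q a : ℂ) {U : ℝ × ℝ → Mat} {ω : ℝ × ℝ} (h : DifferentiableAt ℝ U ω) :
    dq z p q (a • U) ω = a • dq z p q U ω := by
  simp only [dq, r1, r2, h.lineDeriv_eq_fderiv, (h.const_smul a).lineDeriv_eq_fderiv,
    fderiv_const_smul h a, smul_apply]
  rw [smul_comm _ a, JJ_smul, smul_comm]

end PMx

open PMx in
theorem PM (hALG : ALG_s) (hMUL : MUL_s) (hGEP : GEP_s) (hPL : PL_s) : PM_s where
  congr := by
    intro z p q f f' h ω hω
    have e : f =ᶠ[𝓝 ω] f' := by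
      filter_upwards [sq_open.mem_nhds hω] with x hx using h x (sq_sub hx)
    simp only [dq, r1, r2, e.lineDeriv_eq]
  mem := mem hGEP hPL
  lin := by
    intro Dt _ nx rv g c z U U' a hS hU hU'
    have hp : ∀ d, PosT z (c (nx (rv d))) (c d) := fun d => ⟨hS.im, hS.cim _, hS.cim _, hS.spos d⟩
    have ae := fun d V hV => hMUL.cls_ae _ _ (mem hGEP hPL z _ _ V (hp d) hV)
    refine ⟨PiLp.ext fun d => Lp.ext ?_, PiLp.ext fun d => Lp.ext ?_⟩
    · obtain ⟨_, h1⟩ := hPL.dif _ (hU d)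
      obtain ⟨_, h2⟩ := hPL.dif _ (hU' d)
      filter_upwards [ae d _ (hU d), ae d _ (hU' d), ae d _ (plip_add (hU d) (hU' d)), h1, h2,
        Lp.coeFn_add (dP nx rv c z U d) (dP nx rv c z U' d)] with ω e1 e2 e3 e4 e5 e6
      refine e3.trans (Eq.trans ?_ e6.symm)
      rw [dq_add _ _ _ e4.1 e5.1, ← e1, ← e2]
      rfl
    · obtain ⟨_, h1⟩ := hPL.dif _ (hU d)
      filter_upwards [ae d _ (hU d), ae d _ (plip_smul a (hU d)), h1,
        Lp.coeFn_smul a (dP nx rv c z U d)] with ω e1 e3 e4 e6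
      refine e3.trans (Eq.trans ?_ e6.symm)
      rw [dq_smul _ _ _ _ e4.1, ← e1]
      rfl
  adm := by
    intro Dt _ nx rv g v v' U U' a h h'
    refine ⟨⟨fun d => plip_add (h.lip d) (h'.lip d), fun d s hs => ?_, fun d l hl => ?_⟩,
      ⟨fun d => plip_smul a (h.lip d), fun d s hs => ?_, fun d l hl => ?_⟩⟩
    · simp only [Pi.add_apply, h.rad d s hs, h'.rad d s hs]
    · simp only [Pi.add_apply, h.base d l hl, h'.base d l hl, hALG.ad_add]
      abel
    · simp only [Pi.smul_apply, h.rad d s hs]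
    · simp only [Pi.smul_apply, h.base d l hl, hALG.ad_smul, smul_add]
  aff := by
    intro Dt _ nx rv g v hF hC
    obtain ⟨y, hy⟩ : ∃ y : Dt → Mat,
      y = fun e => (1 / 3 : ℂ) • ((2 : ℂ) • v e + Ad (g e) (v (nx e))) := ⟨_, rfl⟩
    have ea : ∀ d ω, aff nx rv g v d ω = (((1 - ω.2) * (1 - ω.1) : ℝ) : ℂ) • y (nx (rv d)) +
        (((1 - ω.2) * ω.1 : ℝ) : ℂ) • y d := fun d ω => by rw [hy]; rfl
    have y1 : ∀ e, Ad (g e) (y (nx e)) = y e - v e := fun e => by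
      have := hC.f e
      simp only [hy, hALG.ad_add, hALG.ad_smul] at this ⊢
      linear_combination (norm := module) (1 / 3 : ℂ) • this
    have y2 : ∀ d, Ad (g d) (y (rv d)) = y (nx (rv d)) - v d := fun d => by
      have h1 := congrArg (Ad (g d)) (eq_sub_iff_add_eq.1 (y1 (rv d)))
      have h2 : Ad (g d * g (rv d)) (y (nx (rv d))) = y (nx (rv d)) := by
        rcases hF.gr d with h | h <;> rw [h]
        · exact hALG.ad_one _
        · rw [hALG.ad_neg, hALG.ad_one]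
      rw [hALG.ad_add, ← hALG.ad_mul, h2] at h1
      rw [← h1, sub_eq_add_neg, neg_eq_of_add_eq_zero_right (hC.r d)]
    refine ⟨fun d => ?_, fun d s _ => ?_, fun d l _ => ?_⟩
    · rw [funext (ea d)]
      exact plip_add (plip_w _ (fun l => 1 - l)
        (fun l hl => abs_le.2 ⟨by linarith [hl.2], by linarith only [hl.1]⟩)
        fun l l' => by rw [sub_sub_sub_cancel_left, abs_sub_comm])
        (plip_w _ (fun l => l) (fun l hl => abs_le.2 ⟨by linarith [hl.1], hl.2⟩) fun _ _ => rfl)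
    · simp [ea]
    · simp only [ea, hF.r2, hALG.ad_add, hALG.ad_smul, y1, y2]
      push_cast
      module

end Pool.Agent.MP_596265_gt.Hd

end

section

/-! Block H, row CURRY. -/

namespace Pool.Agent.MP_596265_gt.Hd

theorem CURRY : CURRY_s := fun n _ _ _ _ _ _ _ _ _ _ K _ f _ h =>
  ⟨fun x => ContinuousMap.mkD (fun y : K => f (x, y)) 0, curry n h (hc_mkD h), hc_mkD h⟩

end Pool.Agent.MP_596265_gt.Hd

end

section

/-! Block H, row MIN. -/

namespace Pool.Agent.MP_596265_gt.Hd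

theorem MIN : MIN_s := fun _ _ _ _ _ _ _ _ _ _ _ _ _ _ _ _ hc ha hT h => by
  simpa only [Set.range, eq_comm] using min_contDiffAt ha hT hc h

end Pool.Agent.MP_596265_gt.Hd

end

section

/-! Block H: multiplication operators depend smoothly on parameters. -/

namespace Pool.Agent.MP_596265_gt.Hd

open MeasureTheory Set Complex Filter Topology
open scoped ComplexConjugate Matrix.Norms.Elementwise NNReal InnerProductSpace

namespace MULx
variable {Dt : Type} [Fintype Dt]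

instance cptS : CompactSpace csq := isCompact_iff_compactSpace.1 cpt

open Classical in
/-- extension by zero -/
noncomputable def xt {F : Type} [NormedAddCommGroup F] (f : C(csq, F)) (ω : ℝ × ℝ) : F :=
  if h : ω ∈ csq then f ⟨ω, h⟩ else 0

theorem xt_of {F : Type} [NormedAddCommGroup F] (f : C(csq, F)) {ω : ℝ × ℝ} (h : ω ∈ csq) :
    xt f ω = f ⟨ω, h⟩ := dif_pos h

theorem xt_cont {F : Type} [NormedAddCommGroup F] (f : C(csq, F)) : ContinuousOn (xt f) csq :=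
  continuousOn_iff_continuous_domRestrict.2 (f.continuous.congr fun y => (xt_of f y.2).symm)

theorem lam : IsBoundedLinearMap ℝ
    fun Ψ : Dt → C(csq, E8 →L[ℂ] E8) => mP fun d => xt (Ψ d) where
  map_add Ψ Φ := by
    rw [← mp_add (fun d => xt_cont _) fun d => xt_cont _]
    exact mp_congr (fun d => (xt_cont _).add (xt_cont _)) fun d ω h => by simp [xt_of _ h]
  map_smul a Ψ := by
    rw [← algebraMap_smul ℂ a (mP _), ← mp_smul _ fun d => xt_cont _]
    exact mp_congr (fun d => (xt_cont _).const_smul (algebraMap ℝ ℂ a)) fun d ω h => by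
      rw [xt_of _ h, xt_of _ h]; ext; simp
  bound := ⟨1, one_pos, fun Ψ => mp_le (by positivity) (fun d => xt_cont _) fun d ω h => by
    rw [xt_of _ h, one_mul]
    exact ((Ψ d).norm_coe_le_norm _).trans (norm_le_pi_norm Ψ d)⟩

end MULx

/-- A jointly smooth field of operators gives a smooth family of multiplication operators. -/
theorem mP_contDiffAt {Dt X : Type} [Fintype Dt] [NormedAddCommGroup X] [NormedSpace ℝ X] {n : ℕ}
    {T : X → Dt → ℝ × ℝ → E8 →L[ℂ] E8} {x₀ : X}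
    (h : ∀ d, ∀ ω ∈ csq, ContDiffAt ℝ n (fun p : X × ℝ × ℝ => T p.1 d p.2) (x₀, ω)) :
    ContDiffAt ℝ n (fun x => mP (T x)) x₀ := by
  refine (MULx.lam.contDiff.contDiffAt.comp x₀ (contDiffAt_pi.2 fun d =>
    curry n (h d) (hc_mkD (h d)))).congr_of_eventuallyEq ?_
  filter_upwards [eventually_all.2 fun d => hc_mkD (h d)] with x hx
  exact MULx.mp_congr (fun d => MULx.xt_cont _) fun d ω hω => by
    rw [MULx.xt_of _ hω, hx d]

end Pool.Agent.MP_596265_gt.Hd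

end

section

/-! Block H, row C2P: the polar energy is twice differentiable in parameters. -/

namespace Pool.Agent.MP_596265_gt.Hd

open MeasureTheory Set Complex Filter Topology
open scoped ComplexConjugate Matrix.Norms.Elementwise NNReal InnerProductSpace

namespace C2Px

/-- Abstract form. -/
theorem abs {X W H : Type} [NormedAddCommGroup X] [NormedSpace ℝ X] [AddCommGroup W] [Module ℂ W]
    [NormedAddCommGroup H] [InnerProductSpace ℂ H] [CompleteSpace H] (R V : W →ₗ[ℂ] H) {C : ℝ}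
    (hV : ∀ u, ‖V u‖ ≤ C * ‖R u‖) {a : X → H} {S S' : X → H →L[ℂ] H} {x₀ : X}
    (ha : ContDiffAt ℝ 2 a x₀) (hS : ContDiffAt ℝ 2 S x₀) (hS' : ContDiffAt ℝ 2 S' x₀)
    (K : H →L[ℂ] H) (hK : K * S x₀ = 1) (h0 : S' x₀ = 0) :
    ContDiffAt ℝ 2 (fun x => sInf (range fun u => ‖a x + S x (R u) + S' x (V u)‖ ^ 2)) x₀ := by
  let H1 := (LinearMap.range R).topologicalClosure
  let e : W →ₗ[ℂ] H1 := R.codRestrict H1 fun u =>
    Submodule.le_topologicalClosure _ (LinearMap.mem_range_self R u)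
  have hd : DenseRange e := by
    refine fun y => ?_
    rw [closure_subtype, ← range_comp]
    exact y.2
  let V' : H1 →L[ℂ] H := V.extendOfNorm e
  have hV' : ∀ u, V' (e u) = V u := LinearMap.extendOfNorm_eq hd ⟨C, hV⟩
  let T : X → H1 →L[ℂ] H := fun x => S x ∘L H1.subtypeL + S' x ∘L V'
  have hT : ContDiffAt ℝ (2 : ℕ) T x₀ :=
    (hc_comp hS contDiffAt_const).add (hc_comp hS' contDiffAt_const)
  have hc : ∀ y, (‖K‖ + 1)⁻¹ * ‖y‖ ≤ ‖T x₀ y‖ := fun y => by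
    have e1 : T x₀ y = S x₀ y := by simp [T, h0]
    have e2 : K (S x₀ y) = y := congrArg (fun A : H →L[ℂ] H => A y) hK
    have e3 := K.le_opNorm (S x₀ y)
    rw [e2] at e3
    rw [e1, inv_mul_le_iff₀ (by positivity)]
    change ‖(y : H)‖ ≤ _
    linarith only [norm_nonneg (S x₀ y), e3]
  refine (min_contDiffAt (n := 2) ha hT (by positivity) hc).congr_of_eventuallyEq
    (Eventually.of_forall fun x => ?_)
  have hcont : Continuous fun y : H1 => ‖a x + T x y‖ ^ 2 := by fun_prop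
  have e1 : (fun u => ‖a x + S x (R u) + S' x (V u)‖ ^ 2) =
      (fun y : H1 => ‖a x + T x y‖ ^ 2) ∘ e := by
    funext u
    simp only [Function.comp, T, add_apply, ContinuousLinearMap.comp_apply, hV',
      add_assoc]
    rfl
  have b : ∀ {ι : Type} (f : ι → H), BddBelow (range fun y => ‖f y‖ ^ 2) := fun f =>
    ⟨0, by rintro _ ⟨y, rfl⟩; positivity⟩
  refine le_antisymm (le_csInf (range_nonempty _) ?_) (le_csInf (range_nonempty _) ?_)
  · rintro _ ⟨y, rfl⟩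
    refine hd.induction_on y (isClosed_le continuous_const hcont) fun u => ?_
    exact csInf_le (b _) ⟨u, congrFun e1 u⟩
  · rintro _ ⟨u, rfl⟩
    exact csInf_le (b _) ⟨e u, (congrFun e1 u).symm⟩

/-- Pointwise smooth families of operators on a finite dimensional space. -/
theorem clm {P E F : Type} [NormedAddCommGroup P] [NormedSpace ℝ P] [NormedAddCommGroup E]
    [NormedSpace ℂ E] [FiniteDimensional ℂ E] [NormedAddCommGroup F] [NormedSpace ℂ F]
    [NormedSpace ℝ F] [IsScalarTower ℝ ℂ F] {n : ℕ} {T : P → E →L[ℂ] F} {p : P}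
    (h : ∀ y, ContDiffAt ℝ n (fun q => T q y) p) : ContDiffAt ℝ n T p := by
  let e₁ := ContinuousLinearEquiv.ofFinrankEq
    (Module.finrank_fin_fun ℂ (n := Module.finrank ℂ E)).symm
  let e₂ := (e₁.arrowCongr (1 : F ≃L[ℂ] F)).trans (ContinuousLinearEquiv.piRing _)
  have : T = (e₂.symm.toContinuousLinearMap.restrictScalars ℝ) ∘ fun q => e₂ (T q) := by
    funext q; simp
  rw [this]
  exact (ContinuousLinearMap.contDiff _).contDiffAt.comp p (contDiffAt_pi.2 fun i => h _)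

end C2Px

namespace C2Px

noncomputable section

def enc (X Y : Mat) : E8 := WithLp.toLp 2 fun k =>
  (if k.2.2 then X else Y) (if k.1 then 1 else 0) (if k.2.1 then 1 else 0)
def dec (t : Bool) : E8 →L[ℂ] Mat := LinearMap.toContinuousLinearMap
  { toFun := fun y => Matrix.of fun i j => y (decide (i = 1), decide (j = 1), t)
    map_add' := fun _ _ => rfl
    map_smul' := fun _ _ => rfl }

theorem dec_t (X Y : Mat) : dec true (enc X Y) = X := by
  ext i j; fin_cases i <;> fin_cases j <;> rfl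
theorem dec_f (X Y : Mat) : dec false (enc X Y) = Y := by
  ext i j; fin_cases i <;> fin_cases j <;> rfl
theorem dec_inj {y : E8} (h1 : dec true y = 0) (h2 : dec false y = 0) : y = 0 := by
  ext ⟨i, j, k⟩
  have a := congrFun (congrFun h1 (if i then 1 else 0)) (if j then 1 else 0)
  have b := congrFun (congrFun h2 (if i then 1 else 0)) (if j then 1 else 0)
  cases i <;> cases j <;> cases k <;> first | exact a | exact b
theorem enc_add (X Y : Mat) : enc (X + Y) 0 = enc X 0 + enc Y 0 := by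
  ext ⟨i, j, k⟩; cases k <;> simp [enc]
theorem enc_smul (a : ℂ) (X : Mat) : enc (a • X) 0 = a • enc X 0 := by
  ext ⟨i, j, k⟩; cases k <;> simp [enc]
theorem enc_le (X : Mat) : ‖enc X 0‖ ^ 2 ≤ 8 * ‖X‖ ^ 2 := by
  rw [EuclideanSpace.norm_sq_eq]
  refine (Finset.sum_le_card_nsmul _ _ (‖X‖ ^ 2) ?_).trans (by simp)
  rintro ⟨i, j, k⟩ -
  refine pow_le_pow_left₀ (norm_nonneg _) ?_ 2
  cases k
  · simp [enc]
  · exact Matrix.norm_entry_le_entrywise_sup_norm X
theorem enc_cont : Continuous fun X => enc X 0 :=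
  (PiLp.continuous_toLp 2 _).comp (continuous_pi fun ⟨i, j, k⟩ => by
    cases k
    · exact continuous_const
    · exact continuous_id.matrix_elem _ _)
theorem dec_le (t : Bool) (y : E8) : ‖dec t y‖ ≤ ‖y‖ :=
  (Matrix.norm_le_iff (norm_nonneg _)).2 fun _ _ => PiLp.norm_apply_le y _

/-- The components of the form with values `L₁ y`, `L₂ y`. -/
def fld (w a b : ℂ) (L₁ L₂ : E8 →L[ℂ] Mat) : E8 →L[ℂ] E8 := LinearMap.toContinuousLinearMap
  { toFun := fun y => JJ w a b (L₁ y) (L₂ y)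
    map_add' := fun _ _ => by rw [map_add, map_add, PMx.JJ_add]
    map_smul' := fun _ _ => by rw [map_smul, map_smul, PMx.JJ_smul]; rfl }

theorem fld_ap (w a b : ℂ) (L₁ L₂ : E8 →L[ℂ] Mat) (y : E8) :
    fld w a b L₁ L₂ y = JJ w a b (L₁ y) (L₂ y) := rfl

theorem fld_unit (hA : ALG_s) {w a b : ℂ} (hw : 0 < w.im) (h : 0 < jc a b) :
    IsUnit (fld w a b (dec true) (dec false)) := by
  refine ContinuousLinearMap.isUnit_iff_bijective.2 ?_
  suffices i : Function.Injective (fld w a b (dec true) (dec false)).toLinearMap from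
    ⟨i, LinearMap.injective_iff_surjective.1 i⟩
  refine (injective_iff_map_eq_zero _).2 fun y hy => ?_
  have e : J w (cz a b (dec true y) (dec false y)) (czb a b (dec true y) (dec false y)) = 0 :=
    (smul_eq_zero.1 hy).resolve_left (by simpa only [ofReal_eq_zero, ne_eq] using (Real.sqrt_pos.2 h).ne')
  have z : ∀ X : Mat, (∀ i j, cp w X i j = 0) → X = 0 := fun X hX => by
    rw [← hA.mk_cp w X hw.ne', mk]; simp [hX]
  have e1 := z (cz a b (dec true y) (dec false y)) fun i j =>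
    congrArg (fun v : E8 => v (i, j, true)) e
  have e2 := z (czb a b (dec true y) (dec false y)) fun i j =>
    congrArg (fun v : E8 => v (i, j, false)) e
  have n := PMx.ab_ne h
  rw [cz, smul_eq_zero, or_iff_right (inv_ne_zero n)] at e1
  rw [czb, smul_eq_zero, or_iff_right (inv_ne_zero n)] at e2
  refine dec_inj ((smul_eq_zero.1 ?_).resolve_left n) ((smul_eq_zero.1 ?_).resolve_left n)
  · linear_combination (norm := module) a • e1 + conj a • e2
  · linear_combination (norm := module) b • e1 + conj b • e2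

section smooth
variable {P : Type} [NormedAddCommGroup P] [NormedSpace ℝ P] {n : ℕ} {p : P}

theorem sm_ent {X : P → Mat} (h : ContDiffAt ℝ n X p) (i j : Fin 2) :
    ContDiffAt ℝ n (fun q => X q i j) p := contDiffAt_pi.1 (contDiffAt_pi.1 h i) j
theorem sm_cj {w : P → ℂ} (h : ContDiffAt ℝ n w p) : ContDiffAt ℝ n (fun q => conj (w q)) p :=
  conjCLE.contDiff.contDiffAt.comp p h
theorem sm_of {w : P → ℝ} (h : ContDiffAt ℝ n w p) : ContDiffAt ℝ n (fun q => (w q : ℂ)) p :=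
  ofRealCLM.contDiff.contDiffAt.comp p h

theorem sm_JJ {w a b : P → ℂ} {X₁ X₂ : P → Mat} (hw : ContDiffAt ℝ n w p) (ha : ContDiffAt ℝ n a p)
    (hb : ContDiffAt ℝ n b p) (h1 : ContDiffAt ℝ n X₁ p) (h2 : ContDiffAt ℝ n X₂ p)
    (h3 : 0 < (w p).im) (h4 : 0 < jc (a p) (b p)) :
    ContDiffAt ℝ n (fun q => JJ (w q) (a q) (b q) (X₁ q) (X₂ q)) p := by
  have ca := sm_cj ha
  have cb := sm_cj hb
  have ci := ((ha.mul cb).sub (hb.mul ca)).inv (PMx.ab_ne h4)
  have cp : ∀ i, ContDiffAt ℝ n (fun q => pt (w q) i) p := fun i => by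
    cases i
    exacts [hw, sm_cj hw]
  have ce : ∀ {X : P → Mat}, ContDiffAt ℝ n X p → ∀ i j,
      ContDiffAt ℝ n (fun q => ev (X q) (pt (w q) i) (pt (w q) j) / dl (w q)) p := fun hX i j =>
    (((((sm_ent hX 0 0).mul (cp j)).add (sm_ent hX 0 1)).sub
      (((cp i).mul (sm_ent hX 1 0)).mul (cp j))).sub ((cp i).mul (sm_ent hX 1 1))).mul
      ((hw.sub (sm_cj hw)).inv (PMx.dl_ne h3))
  refine (sm_of ((imCLM.contDiff.contDiffAt.comp p (ca.mul hb)).sqrt h4.ne')).smul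
    ((contDiffAt_piLp 2).2 fun ⟨i, j, k⟩ => ?_)
  cases k
  · exact ce (ci.smul ((ha.smul h2).sub (hb.smul h1))) i j
  · exact ce (ci.smul ((cb.smul h1).sub (ca.smul h2))) i j

theorem sm_cx {g : P → G} (h : ∀ i j, ContDiffAt ℝ n (fun q => g q i j) p) :
    ContDiffAt ℝ n (fun q => cx (g q)) p :=
  contDiffAt_pi.2 fun i => contDiffAt_pi.2 fun j => sm_of (h i j)
theorem sm_inv {g : P → G} (h : ∀ i j, ContDiffAt ℝ n (fun q => g q i j) p) (i j : Fin 2) :
    ContDiffAt ℝ n (fun q => (g q)⁻¹ i j) p := by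
  simp only [Matrix.SpecialLinearGroup.SL2_inv_expl]
  fin_cases i <;> fin_cases j
  exacts [h 1 1, (h 0 1).neg, (h 1 0).neg, h 0 0]
theorem sm_gm {g k : P → G} (h : ∀ i j, ContDiffAt ℝ n (fun q => g q i j) p)
    (h' : ∀ i j, ContDiffAt ℝ n (fun q => k q i j) p) (i j : Fin 2) :
    ContDiffAt ℝ n (fun q => (g q * k q) i j) p := by
  simp only [Matrix.SpecialLinearGroup.coe_mul, Matrix.mul_apply, Fin.sum_univ_two]
  exact ((h i 0).mul (h' 0 j)).add ((h i 1).mul (h' 1 j))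
theorem sm_mul {X Y : P → Mat} (h : ContDiffAt ℝ n X p) (h' : ContDiffAt ℝ n Y p) :
    ContDiffAt ℝ n (fun q => X q * Y q) p :=
  contDiffAt_pi.2 fun i => contDiffAt_pi.2 fun j => by
    simp only [Matrix.mul_apply, Fin.sum_univ_two]
    exact ((sm_ent h i 0).mul (sm_ent h' 0 j)).add ((sm_ent h i 1).mul (sm_ent h' 1 j))
theorem sm_Ad {g : P → G} {X : P → Mat} (h : ∀ i j, ContDiffAt ℝ n (fun q => g q i j) p)
    (h' : ContDiffAt ℝ n X p) : ContDiffAt ℝ n (fun q => Ad (g q) (X q)) p :=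
  sm_mul (sm_mul (sm_cx h) h') (sm_cx (sm_inv h))

end smooth

end

end C2Px

namespace C2Px

noncomputable section

abbrev M4 : Type := Fin 2 → Fin 2 → ℂ
abbrev EM : Type := M4 →L[ℂ] M4

def ap (A : EM) : Mat →ₗ[ℂ] Mat := A.toLinearMap

def adM (g : G) : Mat →ₗ[ℂ] Mat :=
  { toFun := Ad g
    map_add' := fun _ _ => by simp [Ad, mul_add, add_mul]
    map_smul' := fun _ _ => by simp [Ad] }
def adL (g : G) : EM := LinearMap.toContinuousLinearMap (E := M4) (F' := M4) (adM g)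

theorem ap_ext {A B : EM} (h : ∀ X, ap A X = ap B X) : A = B := ContinuousLinearMap.ext h
theorem ap_one (X : Mat) : ap 1 X = X := rfl
theorem ap_mul (A B : EM) (X : Mat) : ap (A * B) X = ap A (ap B X) := rfl

variable {Dt : Type} {nx rv : Dt → Dt} {g₀ g : Dt → G}

/-- The gauge at the centres of the faces. -/
def ga (nx : Dt → Dt) (g₀ g : Dt → G) (d : Dt) : EM := (1 / 3 : ℂ) • (1 + adL (g d) * adL (g₀ d)⁻¹ +
  adL (g d * g (nx d)) * adL (g₀ d * g₀ (nx d))⁻¹)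

theorem ga_ap (d : Dt) (X : Mat) : ap (ga nx g₀ g d) X = (1 / 3 : ℂ) • (X + Ad (g d) (Ad (g₀ d)⁻¹ X) +
    Ad (g d * g (nx d)) (Ad (g₀ d * g₀ (nx d))⁻¹ X)) := rfl

theorem ad_pm (hA : ALG_s) {a : G} (h : a = 1 ∨ a = -1) (X : Mat) : Ad a X = X := by
  rcases h with rfl | rfl
  exacts [hA.ad_one X, (hA.ad_neg 1 X).trans (hA.ad_one X)]

theorem ga_nx (hA : ALG_s) (h₀ : Flat nx rv g₀) (h : Flat nx rv g) (d : Dt) (X : Mat) :
    ap (ga nx g₀ g d) (Ad (g₀ d) X) = Ad (g d) (ap (ga nx g₀ g (nx d)) X) := by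
  have e1 : Ad (g₀ (nx d) * g₀ (nx (nx d)))⁻¹ X = Ad (g₀ d) X := by
    rw [← ad_pm hA (h₀.gf d) (Ad _ X), ← hA.ad_mul, mul_assoc (g₀ d), mul_inv_cancel_right]
  have e2 : ∀ Y, Ad (g d) (Ad (g (nx d) * g (nx (nx d))) Y) = Y := fun Y => by
    rw [← hA.ad_mul, ← mul_assoc, ad_pm hA (h.gf d)]
  have e3 : Ad (g₀ d)⁻¹ (Ad (g₀ d) X) = X := by rw [← hA.ad_mul, inv_mul_cancel, hA.ad_one]
  rw [ga_ap, ga_ap, hA.ad_smul, hA.ad_add, hA.ad_add, e2, e1, e3, mul_inv_rev, hA.ad_mul _ _⁻¹, e3,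
    hA.ad_mul]
  congr 1
  abel

theorem ga_rv (hA : ALG_s) (h₀ : Flat nx rv g₀) (h : Flat nx rv g) (d : Dt) (X : Mat) :
    ap (ga nx g₀ g (nx (rv d))) (Ad (g₀ d) X) = Ad (g d) (ap (ga nx g₀ g (rv d)) X) := by
  have e := h₀.gr (rv d)
  rw [h.r2] at e
  have e1 := ga_nx hA h₀ h (rv d) (Ad (g₀ d) X)
  rw [← hA.ad_mul, ad_pm hA e] at e1
  rw [e1, ← hA.ad_mul, ad_pm hA (h.gr d)]

theorem ga_self (hA : ALG_s) (d : Dt) : ga nx g g d = 1 := by
  refine ap_ext fun X => ?_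
  rw [ap_one, ga_ap, ← hA.ad_mul, ← hA.ad_mul, mul_inv_cancel, mul_inv_cancel, hA.ad_one]
  module

theorem ga_one (hA : ALG_s) (d : Dt) : ap (ga nx g₀ g d) 1 = 1 := by
  simp only [ga_ap, hA.ad_id]
  module

/-- The gauge on the squares. -/
def gφ (a b : EM) (x : ℝ × ℝ) : EM :=
  (x.1 : ℂ) • (1 : EM) + ((1 - x.1 - x.2 : ℝ) : ℂ) • a + (x.2 : ℂ) • b
def co (ω : ℝ × ℝ) : ℝ × ℝ := (ω.2, (1 - ω.2) * ω.1)

theorem co_lip : PLip co := ⟨1, fun ω hω ω' hω' => by
  have a := mul_nonneg (sub_nonneg.2 hω.2.2) (abs_nonneg (ω.1 - ω'.1))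
  rw [one_mul, Prod.norm_def]
  refine max_le (by simpa only [co, Prod.mk_sub_mk, Real.norm_eq_abs, le_add_iff_nonneg_left] using a) ?_
  change |(1 - ω.2) * ω.1 - (1 - ω'.2) * ω'.1| ≤ _
  rw [show (1 - ω.2) * ω.1 - (1 - ω'.2) * ω'.1 = (1 - ω.2) * (ω.1 - ω'.1) - (ω.2 - ω'.2) * ω'.1 by ring]
  refine (abs_sub _ _).trans (add_le_add ?_ ?_)
  · rw [abs_mul, abs_of_nonneg (sub_nonneg.2 hω.2.2)]
  · rw [abs_mul]
    exact mul_le_of_le_one_right (abs_nonneg _) (abs_le.2 ⟨by linarith [hω'.1.1], hω'.1.2⟩)⟩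

theorem sm_gφ {P : Type} [NormedAddCommGroup P] [NormedSpace ℝ P] {n : ℕ} {p : P} {a b : P → EM}
    {x : P → ℝ × ℝ} (ha : ContDiffAt ℝ n a p) (hb : ContDiffAt ℝ n b p) (hx : ContDiffAt ℝ n x p) :
    ContDiffAt ℝ n (fun q => gφ (a q) (b q) (x q)) p :=
  (((sm_of hx.fst).smul contDiffAt_const).add
    ((sm_of ((contDiffAt_const.sub hx.fst).sub hx.snd)).smul ha)).add ((sm_of hx.snd).smul hb)

theorem gφ_ap (a b : EM) (x : ℝ × ℝ) (X : Mat) : ap (gφ a b x) X =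
    (x.1 : ℂ) • X + ((1 - x.1 - x.2 : ℝ) : ℂ) • ap a X + (x.2 : ℂ) • ap b X := rfl

theorem gφ_one (x : ℝ × ℝ) : gφ 1 1 x = 1 := ap_ext fun X => by
  rw [gφ_ap, ap_one]; push_cast; module

structure Gau (nx rv : Dt → Dt) (g₀ g : Dt → G) (A : Dt → ℝ × ℝ → EM) : Prop where
  lip : ∀ d, PLip (A d)
  rad : ∀ d, ∀ s ∈ Icc (0 : ℝ) 1, A d (0, s) = A (nx (rv d)) (1, s)
  base : ∀ d, ∀ l ∈ Icc (0 : ℝ) 1, ∀ X,
    ap (A d (l, 0)) (Ad (g₀ d) X) = Ad (g d) (ap (A (rv d) (1 - l, 0)) X)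

theorem Gau.adm (hL : PL_s) {A : Dt → ℝ × ℝ → EM} (h : Gau nx rv g₀ g A) {U : Dt → ℝ × ℝ → Mat}
    (hU : PAdm nx rv g₀ 0 U) : PAdm nx rv g 0 fun d ω => ap (A d ω) (U d ω) where
  lip d := hL.bil (V' := M4) (V'' := M4) (ContinuousLinearMap.restrictScalarsL ℂ M4 M4 ℝ ℝ) _ _
    (h.lip d) (hU.lip d)
  rad d s hs := by rw [h.rad d s hs, hU.rad d s hs]
  base d l hl := by rw [hU.base d l hl, Pi.zero_apply, zero_add, zero_add, h.base d l hl]

def gA (nx rv : Dt → Dt) (g₀ g : Dt → G) (d : Dt) (ω : ℝ × ℝ) : EM :=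
  gφ (ga nx g₀ g (nx (rv d))) (ga nx g₀ g d) (co ω)

theorem gA_gau (hA : ALG_s) (hL : PL_s) (h₀ : Flat nx rv g₀) (h : Flat nx rv g) :
    Gau nx rv g₀ g (gA nx rv g₀ g) where
  lip d := hL.comp (gφ _ _) _ co_lip fun _ _ =>
    sm_gφ (n := 1) contDiffAt_const contDiffAt_const contDiffAt_id
  rad d s _ := ap_ext fun X => by simp only [gA, co, mul_zero, gφ_ap, coe_smul, sub_zero, ofReal_sub, ofReal_one, ofReal_zero, zero_smul, add_zero, mul_one, sub_self]
  base d l _ := by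
    intro X
    simp only [gA, gφ_ap, co, ga_nx hA h₀ h, ga_rv hA h₀ h, h.r2, hA.ad_add, hA.ad_smul]
    push_cast
    module

theorem gA_inv (hA : ALG_s) (hL : PL_s) (h₀ : Flat nx rv g₀) (h : Flat nx rv g)
    (hu : ∀ d, ∀ ω ∈ csq, IsUnit (gA nx rv g₀ g d ω)) :
    Gau nx rv g g₀ fun d ω => Ring.inverse (gA nx rv g₀ g d ω) where
  lip d := hL.comp (fun x => Ring.inverse (gφ _ _ x)) _ co_lip fun ω hω => by
    obtain ⟨u, e⟩ := hu d ω hω
    exact ContDiffAt.comp (g := Ring.inverse) _ ((show (u : EM) = gφ _ _ (co ω) from e) ▸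
      (contDiffAt_ringInverse ℂ u).restrict_scalars ℝ)
      (sm_gφ (n := 1) contDiffAt_const contDiffAt_const contDiffAt_id)
  rad d s hs := by rw [(gA_gau hA hL h₀ h).rad d s hs]
  base d l hl X := by
    have u1 := hu d (l, 0) ⟨hl, by simp only [mem_Icc, Std.le_refl, zero_le_one, and_self]⟩
    have u2 := hu (rv d) (1 - l, 0) ⟨⟨by linarith [hl.2], by linarith [hl.1]⟩, by simp only [mem_Icc, Std.le_refl, zero_le_one, and_self]⟩
    have e := (gA_gau hA hL h₀ h).base d l hl (ap (Ring.inverse (gA nx rv g₀ g (rv d) (1 - l, 0))) X)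
    rw [← ap_mul, Ring.mul_inverse_cancel _ u2, ap_one] at e
    rw [← e, ← ap_mul, Ring.inverse_mul_cancel _ u1, ap_one]

/-! Derivatives -/

theorem der {s t : ℝ → ℝ} {u : ℝ → Mat} {s' t' : ℝ} {u' : Mat} (hs : HasDerivAt s s' 0)
    (ht : HasDerivAt t t' 0) (hu : HasDerivAt u u' 0) (a b : EM) (y y' : Mat) :
    HasDerivAt (fun r => (((1 - s r - t r : ℝ) : ℂ) • y + (t r : ℂ) • y') + ap (gφ a b (s r, t r)) (u r))
      ((((-s' - t' : ℝ) : ℂ) • y + (t' : ℂ) • y') + ap (gφ a b (s 0, t 0)) u' +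
        ((s' : ℂ) • u 0 + ((-s' - t' : ℝ) : ℂ) • ap a (u 0) + (t' : ℂ) • ap b (u 0))) 0 := by
  have c := ((hs.const_sub 1).sub ht).ofReal_comp
  have k : ∀ a : EM, HasDerivAt (fun r => ap a (u r)) (ap a u') 0 := fun a =>
    (a.restrictScalars ℝ).hasFDerivAt.comp_hasDerivAt (F := M4) (E := M4) 0 hu
  refine (((c.smul_const y).add (ht.ofReal_comp.smul_const y')).add
    (((hs.ofReal_comp.smul hu).add (c.smul (k a))).add (ht.ofReal_comp.smul (k b)))).congr_deriv ?_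
  simp only [gφ_ap, Pi.sub_apply]
  abel

end

end C2Px

namespace C2Px

noncomputable section

variable {Dt : Type} {nx rv : Dt → Dt} {g₀ g : Dt → G}

def yy (nx : Dt → Dt) (g : Dt → G) (v : Dt → Mat) (e : Dt) : Mat :=
  (1 / 3 : ℂ) • ((2 : ℂ) • v e + Ad (g e) (v (nx e)))

theorem aff_eq (v : Dt → Mat) (d : Dt) (ω : ℝ × ℝ) : aff nx rv g v d ω =
    ((1 - (co ω).1 - (co ω).2 : ℝ) : ℂ) • yy nx g v (nx (rv d)) + ((co ω).2 : ℂ) • yy nx g v d := by
  rw [show 1 - (co ω).1 - (co ω).2 = (1 - ω.2) * (1 - ω.1) by simp only [co]; ring]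
  rfl

theorem ap_tl {a : EM} (h : ap a 1 = 1) (X : Mat) : ap a X = ap a (tl X) + (X - tl X) := by
  rw [tl, map_sub, map_smul, h]; abel

/-- The two derivatives of a gauged section. -/
theorem rr {a b : EM} (ha : ap a 1 = 1) (hb : ap b 1 = 1) (y y' : Mat) {U : ℝ × ℝ → Mat} {ω : ℝ × ℝ}
    (hω : ω ∈ sq) (hU : DifferentiableAt ℝ U ω) (F : ℝ × ℝ → Mat)
    (hF : ∀ ω, F ω = (((1 - (co ω).1 - (co ω).2 : ℝ) : ℂ) • y + ((co ω).2 : ℂ) • y') +
      ap (gφ a b (co ω)) (U ω)) :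
    r1 F ω = (y' - y) + ap (gφ a b (co ω)) (r1 U ω) + ap (b - a) (tl (U ω)) ∧
    r2 F ω = -(((1 - ω.1 : ℝ) : ℂ) • y + (ω.1 : ℂ) • y') + ap (gφ a b (co ω)) (r2 U ω) +
      ap (1 - gφ a b (0, ω.1)) (tl (U ω)) := by
  have n : (1 - ω.2 : ℝ) ≠ 0 := sub_ne_zero.2 hω.2.2.ne'
  have sb : ∀ (A B : EM) X, ap (A - B) X = ap A X - ap B X := fun _ _ _ => rfl
  constructor
  · have k := der (s := fun r => (co (ω + r • ((1 : ℝ), (0 : ℝ)))).1)
      (t := fun r => (co (ω + r • ((1 : ℝ), (0 : ℝ)))).2) (s' := 0) (t' := 1 - ω.2)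
      (by simpa [co] using hasDerivAt_const (0 : ℝ) ω.2)
      (by simpa [co] using ((hasDerivAt_id (0 : ℝ)).const_add ω.1).const_mul (1 - ω.2))
      (hU.lineDifferentiableAt (v := (1, 0))).hasLineDerivAt a b y y'
    rw [r1, r1, show lineDeriv ℝ F ω (1, 0) = _ from (k.congr_of_eventuallyEq
      (f₁ := fun r : ℝ => F (ω + r • (1, 0))) (Eventually.of_forall fun r => hF _)).deriv]
    simp only [zero_smul, add_zero, Prod.mk.eta]
    rw [sb, ap_tl ha (U ω), ap_tl hb (U ω), ← Complex.coe_smul, ← Complex.coe_smul, map_smul]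
    have n' : (1 - ω.2 : ℂ) ≠ 0 := by exact_mod_cast n
    match_scalars <;> field_simp <;> ring
  · have k := der (s := fun r => (co (ω + r • ((0 : ℝ), (1 : ℝ)))).1)
      (t := fun r => (co (ω + r • ((0 : ℝ), (1 : ℝ)))).2) (s' := 1) (t' := -ω.1)
      (by simpa [co] using (hasDerivAt_id (0 : ℝ)).const_add ω.2)
      (by simpa [co] using (((hasDerivAt_id (0 : ℝ)).const_add ω.2).const_sub 1).mul_const ω.1)
      (hU.lineDifferentiableAt (v := (0, 1))).hasLineDerivAt a b y y'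
    rw [r2, r2, show lineDeriv ℝ F ω (0, 1) = _ from (k.congr_of_eventuallyEq
      (f₁ := fun r : ℝ => F (ω + r • (0, 1))) (Eventually.of_forall fun r => hF _)).deriv]
    simp only [zero_smul, add_zero, Prod.mk.eta]
    rw [sb, ap_tl ha (U ω), ap_tl hb (U ω), gφ_ap a b (0, ω.1), ap_one]
    match_scalars <;> ring

def aL (A : EM) (L : E8 →L[ℂ] Mat) : E8 →L[ℂ] Mat := A ∘L (show E8 →L[ℂ] M4 from L)
def pL (y : Mat) : E8 →L[ℂ] Mat := LinearMap.toContinuousLinearMap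
  { toFun := fun x => dec true x 0 0 • y
    map_add' := fun _ _ => by rw [map_add, Matrix.add_apply, add_smul]
    map_smul' := fun _ _ => by rw [map_smul, Matrix.smul_apply, smul_assoc]; rfl }

theorem aL_ap (A : EM) (L : E8 →L[ℂ] Mat) (x : E8) : aL A L x = ap A (L x) := rfl
theorem pL_ap (y : Mat) (x : E8) : pL y x = dec true x 0 0 • y := rfl

def rt (ω : ℝ × ℝ) : ℂ := (√(1 - ω.2) : ℝ)

theorem rt_cont : Continuous rt := by unfold rt; fun_prop

theorem memc {f : ℝ × ℝ → E8} (h : ContinuousOn f csq) : MemLp f 2 (volume.restrict sq) := by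
  obtain ⟨C, hC⟩ := MULx.cpt.exists_bound_of_continuousOn h
  have : IsFiniteMeasure (volume.restrict sq) :=
    ⟨by simpa only [MeasurableSet.univ, Measure.restrict_apply, univ_inter] using (measure_mono MULx.sub).trans_lt MULx.cpt.measure_lt_top⟩
  exact MemLp.of_bound (MULx.meas h) C (MULx.ae_mem.mono hC)

theorem tl_cont (hL : PL_s) {U : ℝ × ℝ → Mat} (h : PLip U) : ContinuousOn (fun ω => tl (U ω)) csq := by
  obtain ⟨f, C, h1, h2⟩ := hL.ext U h
  have : Continuous tl := continuous_id.sub ((continuous_id.matrix_trace.div_const 2).smul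
    continuous_const)
  exact this.comp_continuousOn' (h1.continuous.continuousOn.congr fun ω hω => (h2 ω hω).symm)

def val (U : Dt → ℝ × ℝ → Mat) : HP Dt :=
  WithLp.toLp 2 fun d => cls _ fun ω => rt ω • enc (tl (U d ω)) 0
def k0 : HP Dt := WithLp.toLp 2 fun _ => cls _ fun ω => rt ω • enc 1 0

theorem val_ae (hL : PL_s) {U : Dt → ℝ × ℝ → Mat} (h : ∀ d, PLip (U d)) (d : Dt) :
    val U d =ᵐ[volume.restrict sq] fun ω => rt ω • enc (tl (U d ω)) 0 :=
  MUL.cls_ae _ _ (memc (rt_cont.continuousOn.smul (enc_cont.comp_continuousOn' (tl_cont hL (h d)))))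
theorem k0_ae (d : Dt) : k0 d =ᵐ[volume.restrict sq] fun ω => rt ω • enc 1 0 :=
  MUL.cls_ae _ _ (memc (rt_cont.continuousOn.smul continuousOn_const))

theorem nrm [Fintype Dt] (x : HP Dt) : ‖x‖ ^ 2 = ∑ d, ∫ ω in sq, ‖x d ω‖ ^ 2 := by
  have := MULx.inn x x
  simp only [inner_self_eq_norm_sq_to_K, ← RCLike.ofReal_pow, integral_ofReal] at this
  exact_mod_cast this

theorem nrm_int (x : HP Dt) (d : Dt) : Integrable (fun ω => ‖x d ω‖ ^ 2) (volume.restrict sq) :=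
  (memLp_two_iff_integrable_sq_norm (Lp.aestronglyMeasurable _)).1 (Lp.memLp _)

theorem rt_sq {ω : ℝ × ℝ} (h : ω ∈ csq) : ‖rt ω‖ ^ 2 = 1 - ω.2 := by
  rw [rt, norm_real, Real.norm_eq_abs, sq_abs, Real.sq_sqrt (sub_nonneg.2 h.2.2)]

/-- Poincaré inequality in `L²` form. -/
theorem poi [Fintype Dt] (hL : PL_s) (hP : POI_s) (h : Flat nx rv g) (h1 : OneV nx rv) (h2 : Irr g) :
    ∃ C : ℝ, ∀ U (r : HP Dt), PAdm nx rv g 0 U →
      (∀ d, r d =ᵐ[volume.restrict sq] fun ω => rt ω • enc (r1 (U d) ω) (r2 (U d) ω)) →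
      ‖val U‖ ≤ C * ‖r‖ := by
  obtain ⟨C, hC⟩ := hP nx rv g h h1 h2
  refine ⟨√(16 * |C|), fun U r hU hr => ?_⟩
  have a : ‖val U‖ ^ 2 ≤ 8 * ∑ d, ∫ ω in sq, (1 - ω.2) * ‖tl (U d ω)‖ ^ 2 := by
    rw [nrm, Finset.mul_sum]
    refine Finset.sum_le_sum fun d _ => ?_
    rw [← integral_const_mul]
    refine integral_mono_ae (nrm_int _ d) (Integrable.const_mul (IntegrableOn.mono_set
      (ContinuousOn.integrableOn_compact MULx.cpt ((continuousOn_const.sub continuousOn_snd).mul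
        ((tl_cont hL (hU.lip d)).norm.pow 2))) MULx.sub) 8) ?_
    filter_upwards [val_ae hL hU.lip d, MULx.ae_mem] with ω e hω
    rw [e, norm_smul, mul_pow, rt_sq hω, mul_left_comm]
    exact mul_le_mul_of_nonneg_left (enc_le _) (sub_nonneg.2 hω.2.2)
  have p : ∀ d, 0 ≤ᵐ[volume.restrict sq] fun ω => (1 - ω.2) * (‖r1 (U d) ω‖ ^ 2 + ‖r2 (U d) ω‖ ^ 2) :=
    fun d => MULx.ae_mem.mono fun ω hω => mul_nonneg (sub_nonneg.2 hω.2.2) (by positivity)
  have b : ∑ d, ∫ ω in sq, (1 - ω.2) * (‖r1 (U d) ω‖ ^ 2 + ‖r2 (U d) ω‖ ^ 2) ≤ 2 * ‖r‖ ^ 2 := by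
    rw [nrm, Finset.mul_sum]
    refine Finset.sum_le_sum fun d _ => ?_
    rw [← integral_const_mul]
    refine integral_mono_of_nonneg (p d) ((nrm_int _ d).const_mul 2) ?_
    filter_upwards [hr d, MULx.ae_mem] with ω e hω
    rw [e, norm_smul, mul_pow, rt_sq hω, mul_left_comm]
    refine mul_le_mul_of_nonneg_left ?_ (sub_nonneg.2 hω.2.2)
    have u := dec_le true (enc (r1 (U d) ω) (r2 (U d) ω))
    have v := dec_le false (enc (r1 (U d) ω) (r2 (U d) ω))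
    rw [dec_t] at u
    rw [dec_f] at v
    linarith [pow_le_pow_left₀ (norm_nonneg _) u 2, pow_le_pow_left₀ (norm_nonneg _) v 2]
  have c := (hC U hU).trans ((mul_le_mul_of_nonneg_right (le_abs_self C)
    (Finset.sum_nonneg fun d _ => integral_nonneg_of_ae (p d))).trans
      (mul_le_mul_of_nonneg_left b (abs_nonneg C)))
  refine abs_le_of_sq_le_sq' ?_ (by positivity) |>.2
  rw [mul_pow, Real.sq_sqrt (by positivity)]
  linarith

end

end C2Px

namespace C2Px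

noncomputable section

variable {Dt : Type} {nx rv : Dt → Dt} {g₀ g : Dt → G} {c : Dt → ℂ} {z : ℂ}

def fl (nx rv : Dt → Dt) (c : Dt → ℂ) (z : ℂ) (d : Dt) (ω : ℝ × ℝ) (L₁ L₂ : E8 →L[ℂ] Mat) :
    E8 →L[ℂ] E8 := fld (DD z (c (nx (rv d))) (c d) ω) (e1 z (c (nx (rv d))) (c d) ω)
      (e2 z (c (nx (rv d))) (c d) ω) L₁ L₂

theorem pos (h : Star nx rv g c z) (d : Dt) : PosT z (c (nx (rv d))) (c d) :=
  ⟨h.im, h.cim _, h.cim _, h.spos d⟩
theorem dd_im (h : Star nx rv g c z) (d : Dt) {ω : ℝ × ℝ} (hω : ω ∈ csq) :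
    0 < (DD z (c (nx (rv d))) (c d) ω).im :=
  PMx.ray_im h.im (PMx.geo_im (h.cim _) (h.cim _) hω.1) hω.2

def TS (nx rv : Dt → Dt) (g₀ g : Dt → G) (c : Dt → ℂ) (z : ℂ) (d : Dt) (ω : ℝ × ℝ) : E8 →L[ℂ] E8 :=
  fl nx rv c z d ω (aL (gA nx rv g₀ g d ω) (dec true)) (aL (gA nx rv g₀ g d ω) (dec false))
def TV (nx rv : Dt → Dt) (g₀ g : Dt → G) (c : Dt → ℂ) (z : ℂ) (d : Dt) (ω : ℝ × ℝ) : E8 →L[ℂ] E8 :=
  fl nx rv c z d ω (aL (ga nx g₀ g d - ga nx g₀ g (nx (rv d))) (dec true))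
    (aL (1 - gφ (ga nx g₀ g (nx (rv d))) (ga nx g₀ g d) (0, ω.1)) (dec true))
def Ta (nx rv : Dt → Dt) (g : Dt → G) (c : Dt → ℂ) (z : ℂ) (v : Dt → Mat) (d : Dt) (ω : ℝ × ℝ) :
    E8 →L[ℂ] E8 := fl nx rv c z d ω (pL (yy nx g v d - yy nx g v (nx (rv d))))
      (pL (-(((1 - ω.1 : ℝ) : ℂ) • yy nx g v (nx (rv d)) + (ω.1 : ℂ) • yy nx g v d)))

variable [Fintype Dt]

/-- The differential of a gauged section. -/
theorem key (hA : ALG_s) (hL : PL_s) (hM : PM_s) {v : Dt → Mat} {U : Dt → ℝ × ℝ → Mat} {r : HP Dt}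
    (h₀ : Flat nx rv g₀) (h : Star nx rv g c z) (hv : Coc nx rv g v) (hU : PAdm nx rv g₀ 0 U)
    (hr : ∀ d, r d =ᵐ[volume.restrict sq] fun ω => rt ω • enc (r1 (U d) ω) (r2 (U d) ω))
    (c1 : ∀ d, ContinuousOn (Ta nx rv g c z v d) csq)
    (c2 : ∀ d, ContinuousOn (TS nx rv g₀ g c z d) csq)
    (c3 : ∀ d, ContinuousOn (TV nx rv g₀ g c z d) csq) :
    PAdm nx rv g v (aff nx rv g v + fun d ω => ap (gA nx rv g₀ g d ω) (U d ω)) ∧
    dP nx rv c z (aff nx rv g v + fun d ω => ap (gA nx rv g₀ g d ω) (U d ω)) =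
      mP (Ta nx rv g c z v) k0 + mP (TS nx rv g₀ g c z) r + mP (TV nx rv g₀ g c z) (val U) := by
  have a := (hM.adm nx rv g _ _ _ _ 1 (hM.aff nx rv g v h.toFlat hv)
    ((gA_gau hA hL h₀ h.toFlat).adm hL hU)).1
  rw [add_zero] at a
  refine ⟨a, PiLp.ext fun d => Lp.ext ?_⟩
  obtain ⟨C, hC⟩ := hL.dif _ (hU.lip d)
  filter_upwards [MUL.cls_ae _ _ (hM.mem _ _ _ _ (pos h d) (a.lip d)), MULx.mp_ae c1 k0 d,
    MULx.mp_ae c2 r d, MULx.mp_ae c3 (val U) d, k0_ae d, hr d, val_ae hL hU.lip d, hC,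
    ae_restrict_mem MULx.msq, Lp.coeFn_add (mP (Ta nx rv g c z v) k0 d)
      (mP (TS nx rv g₀ g c z) r d), Lp.coeFn_add (mP (Ta nx rv g c z v) k0 d +
        mP (TS nx rv g₀ g c z) r d) (mP (TV nx rv g₀ g c z) (val U) d)]
    with ω e0 e1 e2 e3 e4 e5 e6 e7 e8 e9 e10
  refine e0.trans (Eq.trans ?_ e10.symm)
  obtain ⟨k1, k2⟩ := rr (ga_one hA _) (ga_one hA _) _ _ e8 e7.1
    ((aff nx rv g v + fun d ω => ap (gA nx rv g₀ g d ω) (U d ω)) d) fun ω =>
      congrArg (· + _) (aff_eq v d ω)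
  rw [dq, k1, k2, Pi.add_apply, e9, Pi.add_apply, e1, e2, e3, e4, e5, e6, map_smul, map_smul,
    map_smul, ← smul_add, ← smul_add, PMx.JJ_add, PMx.JJ_add]
  simp only [Ta, TS, TV, fl, fld_ap, aL_ap, pL_ap, dec_t, dec_f, Matrix.one_apply_eq, one_smul]
  rfl

def W0 (hM : PM_s) (nx rv : Dt → Dt) (g : Dt → G) : Submodule ℂ (Dt → ℝ × ℝ → Mat) where
  carrier := {U | PAdm nx rv g 0 U}
  add_mem' a b := by simpa using (hM.adm nx rv g _ _ _ _ 1 a b).1
  zero_mem' := ⟨fun _ => ⟨0, by simp⟩, fun _ _ _ => rfl, fun _ _ _ => by simp [Ad]⟩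
  smul_mem' a _ b := by simpa using (hM.adm nx rv g _ _ _ _ a b b).2

def vL (hL : PL_s) (hM : PM_s) (nx rv : Dt → Dt) (g : Dt → G) : W0 hM nx rv g →ₗ[ℂ] HP Dt where
  toFun U := val U.1
  map_add' U U' := PiLp.ext fun d => Lp.ext (by
    filter_upwards [val_ae hL (U + U').2.lip d, val_ae hL U.2.lip d, val_ae hL U'.2.lip d,
      Lp.coeFn_add (val U.1 d) (val U'.1 d)] with ω e1 e2 e3 e4
    refine e1.trans (Eq.trans ?_ e4.symm)
    rw [Pi.add_apply, e2, e3, ← smul_add, ← enc_add]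
    congr 2
    change tl (_ + _) = _
    simp only [tl, Matrix.trace_add]
    module)
  map_smul' a U := PiLp.ext fun d => Lp.ext (by
    filter_upwards [val_ae hL (a • U).2.lip d, val_ae hL U.2.lip d,
      Lp.coeFn_smul a (val U.1 d)] with ω e1 e2 e4
    refine e1.trans (Eq.trans ?_ e4.symm)
    rw [Pi.smul_apply, e2, smul_comm a, ← enc_smul a]
    congr 2
    change tl (a • _) = _
    simp only [tl, Matrix.trace_smul, smul_eq_mul]
    module)

def dL (hM : PM_s) (h : Star nx rv g c z) : W0 hM nx rv g →ₗ[ℂ] HP Dt where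
  toFun U := dP nx rv c z U.1
  map_add' U U' := (hM.lin nx rv g c z _ _ 1 h U.2.lip U'.2.lip).1
  map_smul' a U := (hM.lin nx rv g c z _ _ a h U.2.lip U.2.lip).2

end

end C2Px

open C2Px in
theorem C2P (hA : ALG_s) (_ : MUL_s) (_ : GEO_s) (hG : GEP_s) (hL : PL_s) (hM : PM_s) (hP : POI_s)
    (_ : CURRY_s) (_ : MIN_s) : C2P_s := by
  intro Dt X _ _ _ _ nx rv g z v c x₀ hF hc hS
  have s0 := hS.self_of_nhds
  have le : ((2 : ℕ) : WithTop ℕ∞) ≤ (⊤ : ℕ∞) := WithTop.coe_le_coe.2 (le_top (a := (2 : ℕ∞)))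
  have up : ∀ {Y : Type} [NormedAddCommGroup Y] [NormedSpace ℝ Y] {f : X → Y} (ω : ℝ × ℝ),
      ContDiffAt ℝ (⊤ : ℕ∞) f x₀ → ContDiffAt ℝ (2 : ℕ) (fun p : X × ℝ × ℝ => f p.1) (x₀, ω) :=
    fun ω h => ContDiffAt.comp (f := Prod.fst) _ (h.of_le le) contDiffAt_fst
  have sg := fun ω d i j => up ω (hF.sg d i j)
  have sf : ∀ d, ∀ ω ∈ csq, ∀ {L₁ L₂ : X × ℝ × ℝ → E8 →L[ℂ] Mat},
      (∀ y, ContDiffAt ℝ (2 : ℕ) (fun p => L₁ p y) (x₀, ω)) →
      (∀ y, ContDiffAt ℝ (2 : ℕ) (fun p => L₂ p y) (x₀, ω)) →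
      ContDiffAt ℝ (2 : ℕ) (fun p => fl nx rv (c p.1) (z p.1) d p.2 (L₁ p) (L₂ p)) (x₀, ω) := by
    intro d ω hω L₁ L₂ h1 h2
    obtain ⟨a1, a2, a3⟩ := hG.sm _ _ _ ω s0.im (s0.cim (nx (rv d))) (s0.cim d) hω
    have b := (((up ω hF.sz).prodMk ((up ω (hc (nx (rv d)))).prodMk (up ω (hc d)))).prodMk
      contDiffAt_snd)
    have b1 := ContDiffAt.comp (x₀, ω) (a1.of_le le) b
    have b2 := ContDiffAt.comp (x₀, ω) (a2.of_le le) b
    have b3 := ContDiffAt.comp (x₀, ω) (a3.of_le le) b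
    exact clm fun y => sm_JJ b1 b2 b3 (h1 y) (h2 y) (dd_im s0 d hω) (hG.jpos _ _ _ _ (pos s0 d) hω)
  have sa : ∀ ω d, ContDiffAt ℝ (2 : ℕ) (fun p : X × ℝ × ℝ => ga nx (g x₀) (g p.1) d) (x₀, ω) :=
    fun ω d => clm fun y : Mat => ((contDiffAt_const.add (sm_Ad (sg ω d) contDiffAt_const)).add
      (sm_Ad (sm_gm (sg ω d) (sg ω (nx d))) contDiffAt_const)).const_smul (1 / 3 : ℂ)
  have sA : ∀ ω d, ContDiffAt ℝ (2 : ℕ) (fun p : X × ℝ × ℝ => gA nx rv (g x₀) (g p.1) d p.2)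
      (x₀, ω) := fun ω d => sm_gφ (sa ω _) (sa ω _) (by unfold co; fun_prop)
  have sp : ∀ {ω : ℝ × ℝ} {A : X × ℝ × ℝ → EM}, ContDiffAt ℝ (2 : ℕ) A (x₀, ω) → ∀ L y,
      ContDiffAt ℝ (2 : ℕ) (fun p => aL (A p) L y) (x₀, ω) := fun h L y =>
    hc_app (E := M4) (F := M4) h contDiffAt_const
  have sv : ∀ ω d, ContDiffAt ℝ (2 : ℕ) (fun p : X × ℝ × ℝ => v p.1 d) (x₀, ω) := fun ω d =>
    contDiffAt_pi.2 fun i => contDiffAt_pi.2 fun j => up ω (hF.sv d i j)
  have sy : ∀ ω d, ContDiffAt ℝ (2 : ℕ) (fun p : X × ℝ × ℝ => yy nx (g p.1) (v p.1) d) (x₀, ω) :=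
    fun ω d => (((sv ω d).const_smul (2 : ℂ)).add (sm_Ad (sg ω d) (sv ω _))).const_smul (1 / 3 : ℂ)
  have t1 : ∀ d, ∀ ω ∈ csq, ContDiffAt ℝ (2 : ℕ)
      (fun p : X × ℝ × ℝ => Ta nx rv (g p.1) (c p.1) (z p.1) (v p.1) d p.2) (x₀, ω) :=
    fun d ω hω => sf d ω hω (fun y => ((sy ω _).sub (sy ω _)).const_smul (dec true y 0 0))
      fun y => ((((sm_of (by fun_prop)).smul (sy ω _)).add
        ((sm_of (by fun_prop)).smul (sy ω _))).neg).const_smul (dec true y 0 0)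
  have t2 : ∀ d, ∀ ω ∈ csq, ContDiffAt ℝ (2 : ℕ)
      (fun p : X × ℝ × ℝ => TS nx rv (g x₀) (g p.1) (c p.1) (z p.1) d p.2) (x₀, ω) :=
    fun d ω hω => sf d ω hω (sp (sA ω d) _) (sp (sA ω d) _)
  have t3 : ∀ d, ∀ ω ∈ csq, ContDiffAt ℝ (2 : ℕ)
      (fun p : X × ℝ × ℝ => TV nx rv (g x₀) (g p.1) (c p.1) (z p.1) d p.2) (x₀, ω) :=
    fun d ω hω => sf d ω hω (sp ((sa ω _).sub (sa ω _)) _)
      (sp (contDiffAt_const.sub (sm_gφ (sa ω _) (sa ω _) (by fun_prop))) _)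
  have co : ∀ (T : X → Dt → ℝ × ℝ → E8 →L[ℂ] E8), (∀ d, ∀ ω ∈ csq, ContDiffAt ℝ (2 : ℕ)
      (fun p : X × ℝ × ℝ => T p.1 d p.2) (x₀, ω)) → ∀ᶠ x in 𝓝 x₀, ∀ d, ContinuousOn (T x d) csq :=
    fun _ h => eventually_all.2 fun d => (hc_ev (h d)).mono fun x hx ω hω =>
      (ContinuousAt.comp (f := fun ω => (x, ω)) (hx ω hω).continuousAt
        (by fun_prop)).continuousWithinAt
  have g1 : ∀ d ω, gA nx rv (g x₀) (g x₀) d ω = 1 := fun d ω => by
    rw [gA, ga_self hA, ga_self hA, gφ_one]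
  have u0 : ∀ d, ∀ ω ∈ csq, IsUnit (TS nx rv (g x₀) (g x₀) (c x₀) (z x₀) d ω) := fun d ω hω => by
    rw [TS, g1]
    exact fld_unit hA (dd_im s0 d hω) (hG.jpos _ _ _ _ (pos s0 d) hω)
  have o1 := co (fun x => Ta nx rv (g x) (c x) (z x) (v x)) t1
  have o2 := co (fun x => TS nx rv (g x₀) (g x) (c x) (z x)) t2
  have o3 := co (fun x => TV nx rv (g x₀) (g x) (c x) (z x)) t3
  have c0 := o2.self_of_nhds
  let K := fun d ω => Ring.inverse (TS nx rv (g x₀) (g x₀) (c x₀) (z x₀) d ω)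
  have cK : ∀ d, ContinuousOn (K d) csq := fun d ω hω => by
    obtain ⟨u, e⟩ := u0 d ω hω
    exact ContinuousAt.comp_continuousWithinAt (g := Ring.inverse)
      (e ▸ NormedRing.inverse_continuousAt u) (c0 d ω hω)
  let R : W0 hM nx rv (g x₀) →ₗ[ℂ] HP Dt := (mP K).toLinearMap ∘ₗ dL hM s0
  have hR : ∀ (U : W0 hM nx rv (g x₀)) d, R U d =ᵐ[volume.restrict sq]
      fun ω => rt ω • enc (r1 (U.1 d) ω) (r2 (U.1 d) ω) := fun U d => by
    filter_upwards [MULx.mp_ae cK (dL hM s0 U) d, MUL.cls_ae _ _ (hM.mem _ _ _ _ (pos s0 d)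
      (U.2.lip d)), MULx.ae_mem] with ω e1 e2 hω
    have e3 := congrArg (fun A : E8 →L[ℂ] E8 => A (rt ω • enc (r1 (U.1 d) ω) (r2 (U.1 d) ω)))
      (Ring.inverse_mul_cancel _ (u0 d ω hω))
    refine e1.trans (Eq.trans (congrArg (K d ω) (e2.trans ?_)) e3)
    change _ = TS nx rv (g x₀) (g x₀) (c x₀) (z x₀) d ω _
    rw [map_smul, TS, g1, fl, fld_ap, aL_ap, aL_ap, ap_one, ap_one, dec_t, dec_f]
    rfl
  obtain ⟨C, hC⟩ := poi hL hP s0.toFlat hF.one hF.irr
  have hK : mP K * mP (TS nx rv (g x₀) (g x₀) (c x₀) (z x₀)) = 1 := by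
    rw [← MULx.mp_mul cK c0, ← MULx.mp_one]
    exact MULx.mp_congr (fun _ => continuousOn_const) fun d ω hω =>
      Ring.inverse_mul_cancel _ (u0 d ω hω)
  have h0 : mP (TV nx rv (g x₀) (g x₀) (c x₀) (z x₀)) = 0 := by
    rw [← zero_smul ℂ (mP fun (_ : Dt) _ => 1), ← MULx.mp_smul _ fun _ => continuousOn_const]
    refine MULx.mp_congr (fun _ => continuousOn_const) fun d ω _ => ContinuousLinearMap.ext fun y => ?_
    have := PMx.JJ_smul (DD (z x₀) (c x₀ (nx (rv d))) (c x₀ d) ω)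
      (e1 (z x₀) (c x₀ (nx (rv d))) (c x₀ d) ω) (e2 (z x₀) (c x₀ (nx (rv d))) (c x₀ d) ω) 0 0 0
    rw [TV, ga_self hA, ga_self hA, gφ_one, sub_self]
    rw [zero_smul] at this
    exact this.trans (by simp only [zero_smul, smul_apply, one_apply_eq_self])
  refine (C2Px.abs R (vL hL hM nx rv (g x₀)) (fun U => hC U.1 _ U.2 (hR U))
    (hc_app (mP_contDiffAt (T := fun x => Ta nx rv (g x) (c x) (z x) (v x)) t1)
      (contDiffAt_const (c := k0)))
    (mP_contDiffAt (T := fun x => TS nx rv (g x₀) (g x) (c x) (z x)) t2)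
    (mP_contDiffAt (T := fun x => TV nx rv (g x₀) (g x) (c x) (z x)) t3)
    (mP K) hK h0).congr_of_eventuallyEq ?_
  have un : ∀ᶠ x in 𝓝 x₀, ∀ d, ∀ ω ∈ csq, IsUnit (gA nx rv (g x₀) (g x) d ω) :=
    eventually_all.2 fun d => MULx.cpt.eventually_forall_of_forall_eventually
      (P := fun x ω => IsUnit (gA nx rv (g x₀) (g x) d ω)) fun ω _ =>
      (sA ω d).continuousAt.eventually (Units.isOpen.mem_nhds ((g1 d ω).symm ▸ isUnit_one :
        IsUnit (gA nx rv (g x₀) (g x₀) d ω)))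
  filter_upwards [hS, hF.ev, o1, o2, o3, un] with x s1 s2 s3 s4 s5 s6
  have k := fun U : W0 hM nx rv (g x₀) => key hA hL hM s0.toFlat s1 s2.2 U.2 (hR U) s3 s4 s5
  refine congrArg sInf (Set.ext fun e => ⟨?_, ?_⟩)
  · rintro ⟨U, hU, rfl⟩
    have a := (hM.adm nx rv (g x) _ _ _ _ 1 hU (hM.adm nx rv (g x) _ _ _ _ (-1)
      (hM.aff nx rv _ _ s2.1 s2.2) hU).2).1
    rw [neg_one_smul, add_neg_cancel] at a
    let U' : W0 hM nx rv (g x₀) := ⟨_, (gA_inv hA hL s0.toFlat s2.1 s6).adm hL a⟩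
    refine ⟨U', congrArg (‖·‖ ^ 2) ((k U').2.symm.trans (PiLp.ext fun d => Lp.ext ?_))⟩
    filter_upwards [MUL.cls_ae _ _ (hM.mem _ _ _ _ (pos s1 d) ((k U').1.lip d)),
      MUL.cls_ae _ _ (hM.mem _ _ _ _ (pos s1 d) (hU.lip d)), ae_restrict_mem MULx.msq] with ω e1 e2 e3
    refine e1.trans (Eq.trans (hM.congr _ _ _ _ _ (fun ω hω => ?_) ω e3) e2.symm)
    change _ + ap _ (ap _ (_ + (-1 : ℂ) • _)) = _
    rw [← ap_mul, Ring.mul_inverse_cancel _ (s6 d ω hω), ap_one, neg_one_smul]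
    exact add_add_neg_cancel'_right _ _
  · rintro ⟨U, rfl⟩
    exact ⟨_, (k U).1, congrArg (‖·‖ ^ 2) (k U).2.symm⟩

end Pool.Agent.MP_596265_gt.Hd

end
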