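import Pool.Agent.MP_596265_gt.E1
import Pool.Agent.MP_596265_gt.W.A0

attribute [-instance] AddQuantale.instAddLeftMono NonUnitalRingHomClass.toMulHomClass
  NonUnitalAlgSemiHomClass.toMulHomClass MonTypeEquivalenceMon.monMonoid
  IdemSemiring.toCanonicallyOrderedAdd NumberField.to_charZero IdemSemiring.toMulLeftMono
  littleWedderburn CommGroup.toDivisionCommMonoid AddQuantale.instAddRightMono
  CommRing.toCommSemiring Quantale.instMulRightMono DiscreteUniformity.instDiscreteTopology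
  NormedRing.toRing DivisionSemiring.toSemiring NonAssocSemiring.toMulZeroOneClass
  CommMonoidWithZero.toMonoidWithZero LinearOrderedCommMonoidWithZero.toPosMulStrictMono
  IdemSemiring.toSemiring Topology.IsScott.instClosedIicTopologyOfUnivSet
  NonUnitalRing.toNonUnitalNonAssocRing Valued.toUniformSpace RKHS.instFunLike SeminormedRing.toRing

section

/-! THIN: the matrix core of the case of one short curve with a bounded side. -/

namespace Pool.Agent.MP_596265_gt.U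

open Erg Filter Topology Asymptotics Real

theorem ho_rec {T : ℤ → ℝ} {τ : ℝ}
    (h : ∀ N, T (N + 1 + 1) - (τ + 1) * T (N + 1) + (τ + 1) * T N - T (N - 1) = 0) (N : ℤ) :
    T (N + 1) + T (N - 1) - τ * T N = T 1 + T (-1) - τ * T 0 := by
  induction N using Int.induction_on with
  | zero => simp
  | succ n ih =>
    have := h n
    rw [add_sub_cancel_right]
    linarith
  | pred n ih =>
    have := h (-(n : ℤ) - 1)
    rw [sub_add_cancel] at this ⊢
    linarith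

theorem ho_slowN {p : ℕ → ℝ} {τ E x a δ : ℝ} (h0 : p 0 = 0) (h1 : p 1 < 0)
    (hr : ∀ n, p (n + 1 + 1) + p n = τ * p (n + 1) + E) (hτ : 2 ≤ τ) (hE : E ≤ 0) (hx : -2 < x)
    (hxa : x ≤ a + 2) (ha : 0 ≤ a) (d1 : τ - 2 ≤ δ) (d2 : -E ≤ δ) (d3 : -p 1 ≤ δ)
    (hδ : δ * (a + 1) ^ 2 ≤ 1) : ∃ n, |x + p n| < 2 := by
  have A : ∀ n, p (n + 1) - p n ≤ p 1 ∧ p (n + 1) ≤ (n + 1) * p 1 := fun n => by
    induction n with
    | zero => simp [h0]
    | succ n ih =>
      have h2 : p (n + 1) ≤ 0 := ih.2.trans (mul_nonpos_of_nonneg_of_nonpos (by positivity) h1.le)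
      have h3 := mul_nonpos_of_nonneg_of_nonpos (sub_nonneg.2 hτ) h2
      have := hr n
      push_cast
      constructor <;> linarith only [ih.1, ih.2, hE, h3, this]
  have I : ∀ n, p (n + 1) ^ 2 + p n ^ 2 - τ * p n * p (n + 1) - E * (p n + p (n + 1)) =
      p 1 ^ 2 - E * p 1 := fun n => by
    induction n with
    | zero => simp [h0]
    | succ n ih => linear_combination ih + (p (n + 1 + 1) - p n) * hr n
  have ex : ∃ n, x + p n < 2 := by
    obtain ⟨n, hn⟩ := exists_nat_gt (x / -p 1)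
    rw [div_lt_iff₀ (by linarith only [h1])] at hn
    exact ⟨n + 1, by linarith only [(A n).2, h1, hn]⟩
  classical
  refine ⟨Nat.find ex, abs_lt.2 ⟨?_, Nat.find_spec ex⟩⟩
  rcases hn : Nat.find ex with _ | m
  · rwa [h0, add_zero]
  have h2 : 2 ≤ x + p m := not_lt.1 (Nat.find_min ex (by omega))
  have h3 : p m ≤ 0 := by
    rcases m with _ | k
    · exact h0.le
    · exact (A k).2.trans (mul_nonpos_of_nonneg_of_nonpos (by positivity) h1.le)
  by_contra hc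
  obtain ⟨d, hd⟩ : ∃ d, p (m + 1) = p m - d := ⟨p m - p (m + 1), by ring⟩
  obtain ⟨u, hu⟩ : ∃ u, p m = -u := ⟨-p m, by ring⟩
  have h4 := I m
  rw [hd, hu] at h4 hc
  rw [hu] at h2 h3
  have u0 : 0 ≤ u := by linarith only [h3]
  have u1 : u ≤ a := by linarith only [hxa, h2]
  have d4 : 4 ≤ d := by linarith only [h2, hc]
  have δ0 : 0 ≤ δ := by linarith only [h1, d3]
  have δ1 : δ * (a + 1) ≤ 1 := by linarith only [mul_nonneg δ0 (mul_nonneg ha (by linarith only [ha] : 0 ≤ a + 1)), hδ]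
  have δ2 : δ ≤ 1 := by linarith only [mul_nonneg δ0 ha, δ1]
  have e1 : (τ - 2) * (u * (u + d)) ≤ δ * (a * (a + d)) :=
    mul_le_mul d1 (mul_le_mul u1 (by linarith only [hxa, h2]) (by linarith only [hx, hc]) ha) (by positivity) δ0
  have e2 : -E * (2 * u + d) ≤ δ * (2 * a + d) :=
    mul_le_mul d2 (by linarith only [hxa, h2]) (by positivity) δ0
  have e3 : p 1 ^ 2 ≤ δ := by nlinarith only [h1, d3, δ2]
  have e4 : 0 ≤ E * p 1 := mul_nonneg_of_nonpos_of_nonpos hE h1.le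
  have e5 : δ * (a + 1) * d ≤ 1 * d := mul_le_mul_of_nonneg_right δ1 (by linarith only [h2, hc])
  have e6 : d ^ 2 ≤ 1 + d := by linarith only [hδ, h4, e1, e2, e3, e4, e5]
  nlinarith only [h1, hτ, hE, hxa, ha, d1, d2, d3, hδ, h3, h2, hc, h4, δ2, e1, e3, e5]

theorem ho_slow {v : ℤ → ℝ} {τ a δ : ℝ}
    (hr : ∀ N, v (N + 1) + v (N - 1) - τ * v N = v 1 + v (-1) - τ * v 0) (hτ : 2 ≤ τ)
    (hE : v 1 + v (-1) - 2 * v 0 < 0) (hx : -2 < v 0) (hxa : v 0 ≤ a + 2) (ha : 0 ≤ a)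
    (d1 : τ - 2 ≤ δ) (d2 : |v 1 - v 0| ≤ δ / 2) (d3 : |v (-1) - v 0| ≤ δ / 2)
    (hδ : δ * (a + 1) ^ 2 ≤ 1) : ∃ N, |v N| < 2 := by
  obtain ⟨a1, a2⟩ := abs_le.1 d2
  obtain ⟨a3, a4⟩ := abs_le.1 d3
  rcases lt_or_ge (v 1) (v 0) with h | h
  · obtain ⟨n, hn⟩ := ho_slowN (p := fun n => v n - v 0) (τ := τ) (E := v 1 + v (-1) - 2 * v 0)
      (by simp) (by simpa using h) (fun n => by
        have := hr (n + 1)
        rw [add_sub_cancel_right] at this
        push_cast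
        linarith only [this]) hτ hE.le hx hxa ha d1 (by linarith only [a1, a3]) (by simp; linarith only [a1, h]) hδ
    exact ⟨n, by simpa using hn⟩
  · obtain ⟨n, hn⟩ := ho_slowN (p := fun n => v (-n) - v 0) (τ := τ)
      (E := v 1 + v (-1) - 2 * v 0) (by simp) (by simp; linarith only [hE, h]) (fun n => by
        have := hr (-(n + 1))
        rw [show -((n : ℤ) + 1) + 1 = -n by ring, show -((n : ℤ) + 1) - 1 = -(n + 1 + 1) by ring]
          at this
        push_cast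
        linarith only [this]) hτ hE.le hx hxa ha d1 (by linarith only [hE, a3, h]) (by simp; linarith only [hE, a3, h]) hδ
    exact ⟨-n, by simpa using hn⟩

/-- The coefficient of `m ^ N`. -/
noncomputable def hoP (m a b c : ℝ) : ℝ := (m ^ 2 * c - (m ^ 2 + m) * b + m * a) / ((m - 1) ^ 2 * (m + 1))

theorem ho_form {T : ℤ → ℝ} {m : ℝ} (hm : 1 < m)
    (hr : ∀ N, T (N + 1) + T (N - 1) - (m + m⁻¹) * T N = T 1 + T (-1) - (m + m⁻¹) * T 0) (N : ℤ) :
    T N = T 0 - hoP m (T (-1)) (T 0) (T 1) - hoP m (T 1) (T 0) (T (-1)) +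
      hoP m (T (-1)) (T 0) (T 1) * m ^ N + hoP m (T 1) (T 0) (T (-1)) * (m ^ N)⁻¹ := by
  have m0 : m ≠ 0 := by positivity
  have m1 : m - 1 ≠ 0 := by linarith
  have m2 : m + 1 ≠ 0 := by positivity
  generalize hP : hoP m (T (-1)) (T 0) (T 1) = P
  generalize hR : hoP m (T 1) (T 0) (T (-1)) = R
  have h1 : T 1 = T 0 - P - R + P * m + R * m⁻¹ := by
    rw [← hP, ← hR, hoP, hoP]; field_simp; ring
  have h2 : T (-1) = T 0 - P - R + P * m⁻¹ + R * m := by
    rw [← hP, ← hR, hoP, hoP]; field_simp; ring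
  have H : ∀ N : ℤ, T N = T 0 - P - R + P * m ^ N + R * (m ^ N)⁻¹ ∧
      T (N + 1) = T 0 - P - R + P * (m ^ N * m) + R * ((m ^ N)⁻¹ * m⁻¹) := fun N => by
    have mi : m * m⁻¹ = 1 := mul_inv_cancel₀ m0
    induction N using Int.induction_on with
    | zero => exact ⟨by simp only [zpow_zero, inv_one]; ring, by simpa using h1⟩
    | succ n ih =>
      have := hr (n + 1)
      rw [add_sub_cancel_right] at this
      rw [zpow_add_one₀ m0, mul_inv]
      refine ⟨ih.2, ?_⟩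
      linear_combination this - ih.1 + (m + m⁻¹) * ih.2 + h1 + h2 +
        (P * m ^ (n : ℤ) + R * (m ^ (n : ℤ))⁻¹) * mi
    | pred n ih =>
      have := hr (-n)
      rw [sub_add_cancel, zpow_sub_one₀ m0, mul_inv, inv_inv]
      refine ⟨?_, ?_⟩
      · linear_combination this - ih.2 + (m + m⁻¹) * ih.1 + h1 + h2
      · linear_combination ih.1 - (P * m ^ (-n : ℤ) + R * (m ^ (-n : ℤ))⁻¹) * mi
  exact (H N).1

theorem ho_win {ι : Type} {l : Filter ι} {e c D P R u v : ι → ℝ} {c₀ D₀ P₀ R₀ u₀ w : ℝ}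
    (he : ∀ n, 0 < e n) (he0 : Tendsto e l (𝓝 0)) (hc : Tendsto c l (𝓝 c₀))
    (hD : Tendsto D l (𝓝 D₀)) (hP : Tendsto P l (𝓝 P₀)) (hR : Tendsto R l (𝓝 R₀))
    (hv : Tendsto v l (𝓝 u₀)) (huv : (fun n => u n - v n) =O[l] e) (c2 : 2 ≤ c₀) (P0 : 0 < P₀)
    (u0 : 0 < u₀) (w0 : 0 < w) (hw : c₀ * (exp (3 * w) - 1) < 1) :
    ∀ᶠ n in l, ∀ j : ℤ, |log P₀ + j * u₀ - (log c₀ - log (e n) * (u₀ / v n))| ≤ w →
      |c n + e n * (D n - P n * exp (u n) ^ j + R n * (exp (u n) ^ j)⁻¹)| < 2 := by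
  have r1 : Tendsto (fun n => v n / u₀) l (𝓝 1) := by
    simpa [u0.ne'] using hv.div_const u₀
  have r2 : Tendsto (fun n => (v n)⁻¹) l (𝓝 u₀⁻¹) := hv.inv₀ u0.ne'
  have t0 : Tendsto (fun n => u n - v n) l (𝓝 0) := huv.trans_tendsto he0
  have t1 : Tendsto (fun n => (u n - v n) * log (e n)) l (𝓝 0) :=
    (huv.mul (isBigO_refl (fun n => log (e n)) l)).trans_tendsto (by
      simpa [Function.comp_def] using (continuous_mul_log.tendsto 0).comp he0)
  have t2 : Tendsto (fun n => |u n - v n| * ((|log P₀| + |log c₀| + w) / u₀) +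
      |(u n - v n) * log (e n)| * (v n)⁻¹ + |log (P n) - v n / u₀ * log P₀| +
      |(v n / u₀ - 1) * log c₀|) l (𝓝 0) := by
    simpa only [abs_mul, abs_zero, zero_mul, add_zero, one_mul, sub_self] using (((t0.abs.mul_const ((|log P₀| + |log c₀| + w) / u₀)).add (t1.abs.mul r2)).add
      ((hP.log P0.ne').sub (r1.mul_const (log P₀))).abs).add
      ((r1.sub_const 1).mul_const (log c₀)).abs
  have t3 : Tendsto (fun n => |c n - c₀| + |e n * D n| + e n * |R n| * (e n * P n)) l (𝓝 0) := by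
    simpa only [abs_mul, sub_self, abs_zero, zero_mul, add_zero, mul_zero] using ((hc.sub_const c₀).abs.add (he0.mul hD).abs).add
      ((he0.mul hR.abs).mul (he0.mul hP))
  filter_upwards [t2.eventually_lt_const w0, t3.eventually_lt_const one_pos,
    r1.eventually_lt_const one_lt_two, hv.eventually_const_lt u0,
    hP.eventually_const_lt P0] with n h1 h2 h3 h4 h5 j hj
  have en := he n
  have xp : 0 < exp (u n) ^ j := by positivity
  obtain ⟨y, hy⟩ : ∃ y, y = e n * P n * exp (u n) ^ j := ⟨_, rfl⟩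
  have y0 : 0 < y := by rw [hy]; positivity
  have ly : log y = log (e n) + log (P n) + j * u n := by
    rw [hy, log_mul (by positivity) xp.ne', log_mul en.ne' h5.ne', log_zpow, log_exp]
  generalize hZ : log P₀ + j * u₀ - (log c₀ - log (e n) * (u₀ / v n)) = Z at hj
  have e1 : log y - log c₀ = (u n - v n) * ((Z - log P₀ + log c₀) / u₀) -
      (u n - v n) * log (e n) * (v n)⁻¹ + (log (P n) - v n / u₀ * log P₀) +
      (v n / u₀ - 1) * log c₀ + v n / u₀ * Z := by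
    rw [ly, ← hZ]; field_simp; ring
  have b1 : |(u n - v n) * ((Z - log P₀ + log c₀) / u₀)| ≤
      |u n - v n| * ((|log P₀| + |log c₀| + w) / u₀) := by
    rw [abs_mul, abs_div, abs_of_pos u0]
    gcongr
    linarith only [abs_add_le (Z - log P₀) (log c₀), abs_sub Z (log P₀), hj]
  have b2 : |(u n - v n) * log (e n) * (v n)⁻¹| = |(u n - v n) * log (e n)| * (v n)⁻¹ := by
    rw [abs_mul _ (v n)⁻¹, abs_of_pos (inv_pos.2 h4)]
  have b3 : |v n / u₀ * Z| ≤ 2 * w := by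
    rw [abs_mul, abs_of_pos (div_pos h4 u0)]
    exact mul_le_mul h3.le hj (abs_nonneg _) zero_le_two
  have b4 : |log y - log c₀| ≤ 3 * w := by
    rw [e1]
    refine (abs_add_le _ _).trans ?_
    refine (add_le_add_left ((abs_add_le _ _).trans (add_le_add_left ((abs_add_le _ _).trans
      (add_le_add_left (abs_sub _ _) _)) _)) _).trans ?_
    linarith only [h1, b1, b2, b3]
  obtain ⟨b5, b6⟩ := abs_le.1 b4
  have c0 : 0 < c₀ := by linarith only [c2]
  have y1 : y ≤ c₀ * exp (3 * w) := by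
    rw [← exp_log y0, ← exp_log c0, ← exp_add]; exact exp_le_exp.2 (by linarith only [b6])
  have y2 : c₀ * exp (-(3 * w)) ≤ y := by
    rw [← exp_log y0, ← exp_log c0, ← exp_add]; exact exp_le_exp.2 (by linarith only [b5])
  have y3 : c₀ - 1 < y := by
    nlinarith only [add_one_le_exp (3 * w), add_one_le_exp (-(3 * w)), c2, hw, y2]
  have y4 : (exp (u n) ^ j)⁻¹ ≤ e n * P n := by
    rw [inv_le_iff_one_le_mul₀ xp]; linarith only [c2, hy, y3]
  have y5 : |e n * R n * (exp (u n) ^ j)⁻¹| ≤ e n * |R n| * (e n * P n) := by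
    rw [abs_mul, abs_mul, abs_of_pos en, abs_of_pos (inv_pos.2 xp)]
    gcongr
  rw [show c n + e n * (D n - P n * exp (u n) ^ j + R n * (exp (u n) ^ j)⁻¹) =
    c n + e n * D n - y + e n * R n * (exp (u n) ^ j)⁻¹ by rw [hy]; ring, abs_lt]
  constructor <;> linarith only [le_abs_self (c n - c₀), neg_abs_le (c n - c₀), le_abs_self (e n * D n), neg_abs_le (e n * D n), (abs_le.1 y5).1, (abs_le.1 y5).2, hw, h2, y1, y3]

/-- The quadratic form `det [v, X v]`; its zeros are the fixed directions of `X`. -/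
def qX (X : Mat) (v : Fin 2 → ℝ) : ℝ := v 0 * X.mulVec v 1 - v 1 * X.mulVec v 0

/-- Every orbit of directions meets both open arcs cut out by `X`. -/
def Str {F : Type} [Group F] (ρ : F →* G) (X : Mat) : Prop :=
  ∀ v : Fin 2 → ℝ, v ≠ 0 → (∃ g, 0 < qX X ((ρ g : Mat).mulVec v)) ∧
    ∃ g, qX X ((ρ g : Mat).mulVec v) < 0

/-- Pairing of `X` with the conjugates of `c` by powers of `b`. -/
noncomputable def hoT (X : Mat) (b c : G) (N : ℤ) : ℝ :=
  (X * ((b ^ N * c * b ^ (-N) : G) : Mat)).trace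

theorem ho_sq (b : G) : (b : Mat) * b = tr b • (b : Mat) - 1 := by
  have := basic_det b
  ext i j
  fin_cases i <;> fin_cases j <;> simp only [Fin.zero_eta, Fin.isValue, Matrix.mul_apply, Fin.sum_univ_two, tr, Matrix.sub_apply, Matrix.smul_apply, smul_eq_mul, Matrix.one_apply_eq, Fin.mk_one, Nat.reduceAdd, ne_eq, zero_ne_one, not_false_eq_true, Matrix.one_apply_ne, sub_zero, one_ne_zero] <;> linarith

theorem ho_inv (b : G) : ((b⁻¹ : G) : Mat) = tr b • (1 : Mat) - b := by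
  ext i j
  fin_cases i <;> fin_cases j <;> simp only [Fin.zero_eta, Fin.isValue, Matrix.SpecialLinearGroup.coe_inv, Matrix.adjugate_fin_two, Matrix.of_apply, Matrix.cons_val', Matrix.cons_val_zero, Matrix.cons_val_fin_one, tr, Matrix.sub_apply, Matrix.smul_apply, Matrix.one_apply_eq, smul_eq_mul, mul_one, add_sub_cancel_left, Fin.mk_one, Matrix.cons_val_one, Nat.reduceAdd, ne_eq, zero_ne_one, not_false_eq_true, Matrix.one_apply_ne, mul_zero, zero_sub, one_ne_zero, add_sub_cancel_right]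

theorem ho_tt_rec (X : Mat) (b c : G) (N : ℤ) : hoT X b c (N + 1) + hoT X b c (N - 1) -
    (tr b ^ 2 - 2) * hoT X b c N = hoT X b c 1 + hoT X b c (-1) - (tr b ^ 2 - 2) * hoT X b c 0 := by
  refine ho_rec (fun N => ?_) N
  obtain ⟨Y, hY⟩ : ∃ Y, Y = b ^ N * c * b ^ (-N) := ⟨_, rfl⟩
  have h1 : b ^ (N + 1 + 1) * c * b ^ (-(N + 1 + 1)) = b * b * Y * (b⁻¹ * b⁻¹) := by
    rw [hY]; group
  have h2 : b ^ (N + 1) * c * b ^ (-(N + 1)) = b * Y * b⁻¹ := by rw [hY]; group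
  have h3 : b ^ (N - 1) * c * b ^ (-(N - 1)) = b⁻¹ * Y * b⁻¹⁻¹ := by rw [hY]; group
  simp only [hoT]
  rw [h1, h2, h3, ← hY]
  simp only [xm_coe_mul]
  rw [ho_sq, ho_sq, ho_inv b⁻¹, tr_inv]
  nth_rewrite 3 [ho_inv b]
  simp only [mul_sub, sub_mul, smul_mul_assoc, mul_smul_comm, one_mul, mul_one, Matrix.trace_sub,
    Matrix.trace_smul, smul_eq_mul]
  ring

theorem ho_tt_conj (X : Mat) (h b c : G) (N : ℤ) : hoT X (h * b * h⁻¹) (h * c * h⁻¹) N =
    hoT (((h⁻¹ : G) : Mat) * X * h) b c N := by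
  have : (h * b * h⁻¹) ^ N * (h * c * h⁻¹) * (h * b * h⁻¹) ^ (-N) =
      h * (b ^ N * c * b ^ (-N)) * h⁻¹ := by rw [conj_zpow, conj_zpow]; group
  rw [hoT, hoT, this, xm_coe_mul _ h⁻¹, xm_coe_mul h, ← mul_assoc, Matrix.trace_mul_comm]
  simp only [mul_assoc]

theorem ho_tt_lim {ι : Type} {l : Filter ι} {X : ι → Mat} {b c : ι → G} {X₀ : Mat} {b₀ c₀ : G}
    (hX : Tendsto X l (𝓝 X₀)) (hb : Tendsto b l (𝓝 b₀)) (hc : Tendsto c l (𝓝 c₀)) (N : ℤ) :
    Tendsto (fun n => hoT (X n) (b n) (c n) N) l (𝓝 (hoT X₀ b₀ c₀ N)) :=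
  (continuous_id.matrix_trace.tendsto _).comp (hX.mul ((continuous_subtype_val.tendsto _).comp
    (((hb.zpow N).mul hc).mul (hb.zpow (-N)))))

theorem ho_tt_tr {e : ℝ} (he : e ≠ 0) (A b c : G) (N : ℤ) : tr (A * b ^ N * c * b ^ (-N)) =
    tr c + e * hoT (e⁻¹ • ((A : Mat) - 1)) b c N := by
  have : tr (b ^ N * c * b ^ (-N)) = tr c := by rw [zpow_neg, tr_conj]
  rw [hoT, smul_mul_assoc, Matrix.trace_smul, smul_eq_mul, mul_inv_cancel_left₀ he, sub_mul, one_mul,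
    Matrix.trace_sub, ← tr_eq, this, ← xm_coe_mul, ← tr_eq]
  simp only [mul_assoc]; ring

theorem qX_mul (X : Mat) (h : G) (v : Fin 2 → ℝ) :
    qX X ((h : Mat).mulVec v) = qX (((h⁻¹ : G) : Mat) * X * h) v := by
  simp only [qX, Matrix.mulVec, dotProduct, Fin.sum_univ_two, Matrix.mul_apply, basic_inv00,
    basic_inv01, basic_inv10, basic_inv11]
  ring

theorem Str.conj {F : Type} [Group F] {ρ : F →* G} {X : Mat} (h : Str ρ X) (k : G) :
    Str ((MulAut.conj k).toMonoidHom.comp ρ) ((k : Mat) * X * (k⁻¹ : G)) := by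
  intro v hv
  have e : ∀ g, qX ((k : Mat) * X * (k⁻¹ : G)) ((((MulAut.conj k).toMonoidHom.comp ρ g : G) :
      Mat).mulVec v) = qX X ((ρ g : Mat).mulVec (((k⁻¹ : G) : Mat).mulVec v)) := fun g => by
    have := qX_mul X k⁻¹ (((k * ρ g * k⁻¹ : G) : Mat).mulVec v)
    rw [inv_inv, Matrix.mulVec_mulVec, ← xm_coe_mul] at this
    rw [Matrix.mulVec_mulVec, ← xm_coe_mul, show ρ g * k⁻¹ = k⁻¹ * (k * ρ g * k⁻¹) by group, this]
    rfl
  simp only [e]
  refine h _ fun h0 => hv ?_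
  have := congrArg (k : Mat).mulVec h0
  rwa [Matrix.mulVec_mulVec, xm_mul_inv, Matrix.one_mulVec, Matrix.mulVec_zero] at this

theorem ho_tt_par (Y : Mat) {b : G} (c : G) (h : b 1 0 = 0) (h' : b 0 0 = b 1 1) :
    hoT Y b c 1 + hoT Y b c (-1) - 2 * hoT Y b c 0 = -2 * b 0 1 ^ 2 * c 1 0 * Y 1 0 := by
  have d := basic_det b
  simp only [hoT, zpow_one, zpow_neg, inv_inv, zpow_zero, one_mul, mul_one, neg_zero,
    Matrix.trace_fin_two, Matrix.mul_apply, Fin.sum_univ_two, basic_mul, basic_inv00, basic_inv01,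
    basic_inv10, basic_inv11, h, h'] at d ⊢
  linear_combination 2 * (Y 0 0 * c 0 0 + Y 0 1 * c 1 0 + Y 1 0 * c 0 1 + Y 1 1 * c 1 1) * d

theorem ho_tt_hyp (Y : Mat) {b : G} (c : G) {μ : ℝ} (hμ : 1 < μ ^ 2)
    (h : (b : Mat) = !![μ, 0; 0, μ⁻¹]) :
    hoP (μ ^ 2) (hoT Y b c (-1)) (hoT Y b c 0) (hoT Y b c 1) = c 0 1 * Y 1 0 := by
  have m0 : μ ≠ 0 := fun t => by simp [t] at hμ; linarith
  have m1 : μ ^ 2 - 1 ≠ 0 := by linarith
  simp only [hoT, zpow_one, zpow_neg, inv_inv, zpow_zero, one_mul, mul_one, neg_zero, hoP,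
    Matrix.trace_fin_two, Matrix.mul_apply, Fin.sum_univ_two, basic_mul, basic_inv00, basic_inv01,
    basic_inv10, basic_inv11, h, Matrix.of_apply, Matrix.cons_val', Matrix.cons_val_zero,
    Matrix.cons_val_one, Matrix.cons_val_fin_one]
  field_simp
  ring

theorem ho_com {b : G} (c : G) (h : b 1 0 = 0) : tr (b * c * b⁻¹ * c⁻¹) =
    2 + c 1 0 * (b 0 1 ^ 2 * c 1 0 + (b 0 0 - b 1 1) * (b 0 1 * (c 0 0 - c 1 1) -
      (b 0 0 - b 1 1) * c 0 1)) := by
  have d := basic_det b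
  have d' := basic_det c
  simp only [tr, basic_mul, basic_inv00, basic_inv01, basic_inv10, basic_inv11, h] at d ⊢
  linear_combination 2 * d' + 2 * (c 0 0 * c 1 1 - c 0 1 * c 1 0) * d

theorem qX_e (Y : Mat) : qX Y ![1, 0] = Y 1 0 := by
  simp [qX, Matrix.mulVec, dotProduct]

variable {F : Type} [Group F]

/-- The family of traces attached to `g`. -/
noncomputable def hoG (ρ : F →* G) (X : Mat) (β γ g : F) : ℤ → ℝ :=
  hoT X (ρ (g * β * g⁻¹)) (ρ (g * γ * g⁻¹))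

theorem ho_tg_eq (ρ : F →* G) (X : Mat) (β γ g : F) (N : ℤ) : hoG ρ X β γ g N =
    hoT ((((ρ g)⁻¹ : G) : Mat) * X * ρ g) (ρ β) (ρ γ) N := by
  simp only [hoG, map_mul, map_inv, ho_tt_conj]

theorem ho_tg_conj (ρ : F →* G) (X : Mat) (β γ g : F) (k : G) : hoG ρ X β γ g =
    hoG ((MulAut.conj k).toMonoidHom.comp ρ) ((k : Mat) * X * (k⁻¹ : G)) β γ g := by
  ext N
  refine Eq.symm ((ho_tt_conj _ k _ _ N).trans ?_)
  rw [← mul_assoc, ← mul_assoc, xm_inv_mul, one_mul, mul_assoc, xm_inv_mul, mul_one]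
  rfl

theorem Str.sign {ρ : F →* G} {X : Mat} (hS : Str ρ X) {t : ℝ} (ht : t ≠ 0) :
    ∃ g, 0 < t * ((((ρ g)⁻¹ : G) : Mat) * X * ρ g) 1 0 := by
  obtain ⟨⟨g, hg⟩, g', hg'⟩ := hS ![1, 0] (by simp)
  rw [qX_mul, qX_e] at hg hg'
  rcases ht.lt_or_gt with h | h
  exacts [⟨g', mul_pos_of_neg_of_neg h hg'⟩, ⟨g, mul_pos h hg⟩]

theorem ho_lim1 {ρ : F →* G} {X : Mat} {β γ : F} (hb : |tr (ρ β)| = 2)
    (hnc : tr (ρ (β * γ * β⁻¹ * γ⁻¹)) ≠ 2) (hS : Str ρ X) {σ : ℝ} (hσ : σ ≠ 0) :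
    ∃ g, σ * (hoG ρ X β γ g 1 + hoG ρ X β γ g (-1) - 2 * hoG ρ X β γ g 0) < 0 := by
  wlog h : ρ β 1 0 = 0 generalizing ρ X
  · obtain ⟨k, hk⟩ := conj_upper hb.ge
    simp only [ho_tg_conj ρ X β γ _ k]
    exact this ((congrArg abs (tr_conj _ k)).trans hb) ((tr_conj _ k).trans_ne hnc) (hS.conj k) hk
  have d := basic_det (ρ β)
  have h' : ρ β 0 0 = ρ β 1 1 := by
    have : tr (ρ β) ^ 2 = 4 := by rw [← sq_abs, hb]; norm_num
    rw [h] at d
    rw [tr] at this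
    exact sub_eq_zero.1 (pow_eq_zero_iff two_ne_zero |>.1 (by linear_combination this - 4 * d))
  simp only [map_mul, map_inv] at hnc
  rw [ho_com _ h, h'] at hnc
  have h1 : ρ β 0 1 ^ 2 * ρ γ 1 0 ≠ 0 := fun t => hnc (by rw [t]; ring)
  obtain ⟨g, hg⟩ := hS.sign (mul_ne_zero hσ h1)
  refine ⟨g, ?_⟩
  simp only [ho_tg_eq]
  rw [ho_tt_par _ _ h h']
  linarith

/-- Logarithm of the multiplier as a function of the trace. -/
noncomputable def hoL (t : ℝ) : ℝ := log ((t ^ 2 - 2 + √((t ^ 2 - 2) ^ 2 - 4)) / 2)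

theorem ho_lf_spec {t : ℝ} (h : 2 < |t|) :
    0 < hoL t ∧ exp (hoL t) + (exp (hoL t))⁻¹ = t ^ 2 - 2 := by
  have h1 : 2 < t ^ 2 - 2 := by nlinarith only [sq_abs t, h]
  have h2 := sq_sqrt (show 0 ≤ (t ^ 2 - 2) ^ 2 - 4 by nlinarith only [h1])
  have h3 := sqrt_nonneg ((t ^ 2 - 2) ^ 2 - 4)
  refine ⟨log_pos (by linarith), ?_⟩
  rw [hoL, exp_log (by linarith only [h1, h3])]
  field_simp
  linarith

theorem ho_lf_diff {t : ℝ} (h : 2 < |t|) : ContDiffAt ℝ 1 hoL t := by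
  have h1 : 2 < t ^ 2 - 2 := by nlinarith only [sq_abs t, h]
  have h3 := sqrt_nonneg ((t ^ 2 - 2) ^ 2 - 4)
  have a : ContDiffAt ℝ 1 (fun t : ℝ => t ^ 2 - 2) t := by fun_prop
  exact ((a.add (((a.pow 2).sub contDiffAt_const).sqrt (by nlinarith only [h1]))).div_const 2).log
    (by linarith)

theorem ho_lim2 {ρ : F →* G} {X : Mat} {β γ : F} (hb : 2 < |tr (ρ β)|) (hc : tr (ρ γ) ≠ 0)
    (hnc : tr (ρ (β * γ * β⁻¹ * γ⁻¹)) ≠ 2) (hS : Str ρ X) {σ : ℝ} (hσ : σ ≠ 0) {w : ℝ}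
    (hw : 0 < w) : ∃ S : Finset F, (∀ g ∈ S, 0 < σ * hoP (exp (hoL (tr (ρ β))))
      (hoG ρ X β γ g (-1)) (hoG ρ X β γ g 0) (hoG ρ X β γ g 1)) ∧ ∀ x : ℝ, ∃ g ∈ S, ∃ j : ℤ,
      |log (σ * hoP (exp (hoL (tr (ρ β)))) (hoG ρ X β γ g (-1)) (hoG ρ X β γ g 0)
        (hoG ρ X β γ g 1)) + j * hoL (tr (ρ β)) - x| ≤ w := by
  wlog h : ∃ μ : ℝ, 1 < |μ| ∧ (ρ β : Mat) = !![μ, 0; 0, μ⁻¹] generalizing ρ X
  · obtain ⟨k, hk⟩ : ∃ k : G, ∃ μ : ℝ, 1 < |μ| ∧
        ((k * ρ β * k⁻¹ : G) : Mat) = !![μ, 0; 0, μ⁻¹] := by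
      rcases lt_abs.1 hb with t | t
      · obtain ⟨k, l, l0, hk⟩ := conj_dia t
        refine ⟨k, exp (l / 2), ?_, (congrArg Subtype.val hk).trans ?_⟩
        · rw [abs_of_pos (exp_pos _)]; exact one_lt_exp_iff.2 (by linarith)
        · rw [← exp_neg]; rfl
      · obtain ⟨k, l, l0, hk⟩ := conj_dia (c := -ρ β) (by rwa [tr_neg])
        refine ⟨k, -exp (l / 2), ?_, ?_⟩
        · rw [abs_neg, abs_of_pos (exp_pos _)]; exact one_lt_exp_iff.2 (by linarith only [l0])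
        · rw [cj, mul_neg, neg_mul, neg_eq_iff_eq_neg] at hk
          rw [hk, inv_neg, ← exp_neg]
          ext i j
          rw [basic_neg]
          fin_cases i <;> fin_cases j <;> simp [dia]
    have t : ∀ x, tr (((MulAut.conj k).toMonoidHom.comp ρ) x) = tr (ρ x) := fun x => tr_conj _ k
    have := this (by rwa [t]) (by rwa [t]) (by rwa [t]) (hS.conj k) hk
    simpa only [ho_tg_conj ρ X β γ _ k, t] using this
  obtain ⟨μ, hμ, h⟩ := h
  have m0 : μ ≠ 0 := fun t => by simp [t] at hμ; linarith only [hμ]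
  have m1 : 1 < μ ^ 2 := by nlinarith only [sq_abs μ, hμ]
  have e00 : ρ β 0 0 = μ := by simp [h]
  have e01 : ρ β 0 1 = 0 := by simp [h]
  have e10 : ρ β 1 0 = 0 := by simp [h]
  have e11 : ρ β 1 1 = μ⁻¹ := by simp [h]
  have hl : exp (hoL (tr (ρ β))) = μ ^ 2 := by
    obtain ⟨a, b⟩ := ho_lf_spec hb
    have a1 := one_lt_exp_iff.2 a
    generalize exp (hoL (tr (ρ β))) = y at a1 b
    rw [tr, e00, e11] at b
    have y0 : y ≠ 0 := by positivity
    have : (y - μ ^ 2) * (y * μ ^ 2 - 1) = 0 := by field_simp at b; linear_combination b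
    rcases mul_eq_zero.1 this with t | t
    · linarith only [t]
    · nlinarith only [m1, a1, t]
  have hl' : hoL (tr (ρ β)) = log (μ ^ 2) := by rw [← hl, log_exp]
  simp only [map_mul, map_inv] at hnc
  rw [ho_com _ e10, e01] at hnc
  have c1 : ρ γ 0 1 ≠ 0 := fun t => hnc (by rw [t]; ring)
  have c2 : ρ γ 1 0 ≠ 0 := fun t => hnc (by rw [t]; ring)
  have c3 : μ⁻¹ - μ ≠ 0 := fun t => hnc (by
    rw [e00, e11, show μ - μ⁻¹ = 0 by linarith only [t]]; ring)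
  have e : ∀ g, σ * (ρ γ 0 1 * ((((ρ g)⁻¹ : G) : Mat) * X * ρ g) 1 0) =
      σ * ρ γ 0 1 * qX X ![ρ g 0 0, ρ g 1 0] := fun g => by
    rw [← qX_e (_ * X * _), ← qX_mul, mul_assoc]
    congr 3
    ext i
    fin_cases i <;> simp only [Matrix.mulVec, dotProduct, Fin.zero_eta, Fin.isValue, Fin.sum_univ_two, Matrix.cons_val_zero, mul_one, Matrix.cons_val_one, Matrix.cons_val_fin_one, mul_zero, add_zero, Fin.mk_one]
  obtain ⟨g, hg⟩ := hS.sign (mul_ne_zero hσ c1)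
  rw [mul_assoc, e] at hg
  simp only [hl, ho_tg_eq, ho_tt_hyp _ _ m1 h, e]
  rw [hl']
  refine H83.phase ρ β γ μ hμ h hc (.inl c1) (fun v hv => ?_)
    (fun x y => σ * ρ γ 0 1 * qX X ![x, y]) ?_ (fun t x y => ?_) g hg w hw
  · by_contra hn
    push Not at hn
    have a1 := hn β
    have a2 := hn γ
    simp only [Matrix.mulVec, dotProduct, Fin.sum_univ_two, e00, e01, e10, e11] at a1 a2
    have : v 0 * v 1 = 0 := (mul_eq_zero.1 (show v 0 * v 1 * (μ⁻¹ - μ) = 0 by linarith only [a1])).resolve_right c3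
    refine hv (funext fun i => ?_)
    rcases mul_eq_zero.1 this with t | t
    · have : v 1 = 0 := by simpa [t, c1] using a2
      fin_cases i <;> simpa
    · have : v 0 = 0 := by simpa [t, c2] using a2
      fin_cases i <;> simpa
  · simp only [qX, Matrix.mulVec, dotProduct, Fin.sum_univ_two, Matrix.cons_val_zero,
      Matrix.cons_val_one]
    fun_prop
  · simp only [qX, Matrix.mulVec, dotProduct, Fin.sum_univ_two, Matrix.cons_val_zero,
      Matrix.cons_val_one]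
    ring

theorem ho_pf {ι : Type} {l : Filter ι} {m a b c : ι → ℝ} {m₀ a₀ b₀ c₀ : ℝ} (h : 1 < m₀)
    (hm : Tendsto m l (𝓝 m₀)) (ha : Tendsto a l (𝓝 a₀)) (hb : Tendsto b l (𝓝 b₀))
    (hc : Tendsto c l (𝓝 c₀)) :
    Tendsto (fun n => hoP (m n) (a n) (b n) (c n)) l (𝓝 (hoP m₀ a₀ b₀ c₀)) :=
  ((((hm.pow 2).mul hc).sub (((hm.pow 2).add hm).mul hb)).add (hm.mul ha)).div
    (((hm.sub_const 1).pow 2).mul (hm.add_const 1))
    (mul_ne_zero (pow_ne_zero 2 (by linarith)) (by linarith))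

/-- Matrix form. -/
theorem hole_core {ι : Type} {l : Filter ι} (ρ : F →* G) (β γ : F) {A : ι → G}
    {e : ι → ℝ} {X : Mat} (he : ∀ n, 0 < e n) (he0 : Tendsto e l (𝓝 0))
    (hX : Tendsto (fun n => (e n)⁻¹ • ((A n : Mat) - 1)) l (𝓝 X)) {B C : F → ι → G}
    (hB : ∀ g, Tendsto (B g) l (𝓝 (ρ (g * β * g⁻¹))))
    (hC : ∀ g, Tendsto (C g) l (𝓝 (ρ (g * γ * g⁻¹))))
    (hO : ∀ g, (fun n => tr (B g n) - tr (B 1 n)) =O[l] e)
    (htr : ∀ g, ∀ᶠ n in l, 2 ≤ |tr (B g n)|) (hnc : tr (ρ (β * γ * β⁻¹ * γ⁻¹)) ≠ 2)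
    (hS : Str ρ X) :
    ∀ᶠ n in l, ∃ g, ∃ N : ℤ, |tr (A n * B g n ^ N * C g n * B g n ^ (-N))| < 2 := by
  rcases l.eq_or_neBot with rfl | hl
  · simp only [zpow_neg, eventually_bot]
  have tc : ∀ g x, tr (ρ (g * x * g⁻¹)) = tr (ρ x) := fun g x => by
    rw [map_mul, map_mul, map_inv, tr_conj]
  have tB : ∀ g, Tendsto (fun n => tr (B g n)) l (𝓝 (tr (ρ β))) := fun g =>
    tc g β ▸ (continuous_tr.tendsto _).comp (hB g)
  have tC : ∀ g, Tendsto (fun n => tr (C g n)) l (𝓝 (tr (ρ γ))) := fun g =>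
    tc g γ ▸ (continuous_tr.tendsto _).comp (hC g)
  have tT : ∀ g N, Tendsto (fun n => hoT ((e n)⁻¹ • ((A n : Mat) - 1)) (B g n) (C g n) N) l
    (𝓝 (hoG ρ X β γ g N)) := fun g N => ho_tt_lim hX (hB g) (hC g) N
  have rc := fun g n => ho_tt_rec ((e n)⁻¹ • ((A n : Mat) - 1)) (B g n) (C g n)
  simp only [fun n => ho_tt_tr (he n).ne' (A n)]
  generalize hT : (fun g n => hoT ((e n)⁻¹ • ((A n : Mat) - 1)) (B g n) (C g n)) = T
  simp only [fun g n => congrFun (congrFun hT g) n] at tT rc ⊢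
  have t0 : ∀ g N, Tendsto (fun n => e n * T g n N) l (𝓝 0) := fun g N => by
    simpa using he0.mul (tT g N)
  rcases lt_or_ge |tr (ρ γ)| 2 with hc | hc
  · have : Tendsto (fun n => |tr (C 1 n) + e n * T 1 n 0|) l (𝓝 |tr (ρ γ)|) := by
      simpa using ((tC 1).add (t0 1 0)).abs
    exact (this.eventually_lt_const hc).mono fun n h => ⟨1, 0, h⟩
  obtain ⟨σ, s1, s2⟩ : ∃ σ : ℝ, |σ| = 1 ∧ σ * tr (ρ γ) = |tr (ρ γ)| := by
    rcases le_total 0 (tr (ρ γ)) with h | h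
    exacts [⟨1, by simp, by simp [abs_of_nonneg h]⟩, ⟨-1, by simp, by simp [abs_of_nonpos h]⟩]
  have s0 : σ ≠ 0 := fun t => by simp [t] at s1
  have sa : ∀ x, |σ * x| = |x| := fun x => by rw [abs_mul, s1, one_mul]
  generalize |tr (ρ γ)| = c₀ at hc s2
  rcases (ge_of_tendsto (tB 1).abs (htr 1)).eq_or_lt with hb | hb
  · obtain ⟨g, hg⟩ := ho_lim1 hb.symm hnc hS s0
    have δ0 : 0 < 1 / (c₀ + 1) ^ 2 := by positivity
    have a1 : Tendsto (fun n => tr (B g n) ^ 2 - 2 - 2) l (𝓝 0) := by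
      have := (((tB g).pow 2).sub_const 2).sub_const 2
      rwa [← sq_abs (tr (ρ β)), ← hb, show (2 : ℝ) ^ 2 - 2 - 2 = 0 by norm_num] at this
    have a2 : Tendsto (fun n => σ * (tr (C g n) + e n * T g n 0)) l (𝓝 c₀) := by
      simpa [s2] using ((tC g).add (t0 g 0)).const_mul σ
    have a3 : ∀ N, Tendsto (fun n => |e n * T g n N - e n * T g n 0|) l (𝓝 0) := fun N => by
      simpa using ((t0 g N).sub (t0 g 0)).abs
    filter_upwards [((((tT g 1).add (tT g (-1))).sub ((tT g 0).const_mul 2)).const_mul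
      σ).eventually_lt_const hg, a1.eventually_lt_const δ0, htr g,
      a2.eventually_const_lt (show -2 < c₀ by linarith only [hc]),
      a2.eventually_lt_const (show c₀ < c₀ + 2 by linarith only []),
      (a3 1).eventually_lt_const (half_pos δ0), (a3 (-1)).eventually_lt_const (half_pos δ0)]
      with n h1 h2 h3 h4 h5 h6 h7
    obtain ⟨N, hN⟩ := ho_slow (v := fun N => σ * (tr (C g n) + e n * T g n N))
      (τ := tr (B g n) ^ 2 - 2) (fun N => by linear_combination σ * e n * rc g n N)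
      (by nlinarith only [sq_abs (tr (B g n)), h3]) (by linarith only [mul_pos (he n) (neg_pos.2 h1)]) h4 h5.le
      (by linarith only [hc]) h2.le (by rw [← mul_sub, sa, add_sub_add_left_eq_sub]; exact h6.le)
      (by rw [← mul_sub, sa, add_sub_add_left_eq_sub]; exact h7.le) (by field_simp; exact le_rfl)
    exact ⟨g, N, by rwa [sa] at hN⟩
  have w0 : 0 < log (1 + 1 / (2 * c₀)) / 3 :=
    div_pos (log_pos (lt_add_of_pos_right _ (by positivity))) three_pos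
  obtain ⟨S, S1, S2⟩ := ho_lim2 hb (fun t => by rw [t] at s2; linarith only [hc, s2]) hnc hS
    (neg_ne_zero.2 s0) w0
  have u0 := (ho_lf_spec hb).1
  have tU : ∀ g, Tendsto (fun n => hoL (tr (B g n))) l (𝓝 (hoL (tr (ρ β)))) := fun g =>
    (ho_lf_diff hb).continuousAt.tendsto.comp (tB g)
  have tE := fun g => (continuous_exp.tendsto _).comp (tU g)
  have tP := fun g i j => ho_pf (one_lt_exp_iff.2 u0) (tE g) (tT g i) (tT g 0) (tT g j)
  have H := (S.eventually_all (l := l)).2 fun g hg =>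
    (ho_win he he0 (s2 ▸ (tC g).const_mul σ)
      ((((tT g 0).sub (tP g (-1) 1)).sub (tP g 1 (-1))).const_mul σ)
      ((tP g (-1) 1).const_mul (-σ)) ((tP g 1 (-1)).const_mul σ) (tU 1)
      (u := fun n => hoL (tr (B g n)))
      ((((ho_lf_diff hb).hasStrictFDerivAt one_ne_zero).isBigO_sub.comp_tendsto
        ((tB g).prodMk_nhds (tB 1))).trans (hO g)) hc (S1 g hg) u0 w0 (by
        rw [mul_div_cancel₀ _ three_ne_zero, exp_log (by positivity)]
        field_simp; linarith only [])).and ((tB g).abs.eventually_const_lt hb)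
  filter_upwards [H] with n h
  obtain ⟨g, hg, j, hj⟩ := S2 (log c₀ - log (e n) * (hoL (tr (ρ β)) / hoL (tr (B 1 n))))
  obtain ⟨h1, h2⟩ := h g hg
  refine ⟨g, j, ?_⟩
  have h3 := h1 j hj
  obtain ⟨a, b⟩ := ho_lf_spec h2
  rw [ho_form (T := T g n) (one_lt_exp_iff.2 a) (b ▸ rc g n) j, ← sa]
  convert h3 using 2
  simp only [Function.comp_apply]
  ring

theorem ho_bigO {ι : Type} {l : Filter ι} {e : ι → ℝ} {x : ι → G} {x₀ : G}
    (hx : Tendsto x l (𝓝 x₀)) {Y : ι → Mat} (hY : ∀ i j, (fun n => Y n i j) =O[l] e) (i j : Fin 2) :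
    (fun n => ((x n : Mat) * Y n) i j) =O[l] e ∧ (fun n => (Y n * (x n : Mat)) i j) =O[l] e := by
  have b : ∀ i j, (fun n => x n i j) =O[l] fun _ => (1 : ℝ) := fun i j =>
    (((basic_cont i j).tendsto _).comp hx).isBigO_one ℝ
  simp only [Matrix.mul_apply, Fin.sum_univ_two]
  exact ⟨by simpa only [Fin.isValue, one_mul] using ((b i 0).mul (hY 0 j)).add ((b i 1).mul (hY 1 j)),
    by simpa only [Fin.isValue, mul_one] using ((hY i 0).mul (b 0 j)).add ((hY i 1).mul (b 1 j))⟩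

/-- The sign `s` as an element of `G`. -/
def hoS (s : G) : Prop := s = 1 ∨ s = -1

theorem ho_near {ι : Type} {l : Filter ι} {ρ : ι → F →* G} {ρ₀ : F →* G}
    (hρ : ∀ g, Tendsto (fun n => ρ n g) l (𝓝 (ρ₀ g))) {a : F} {e : ι → ℝ} {s : G} (hs : hoS s)
    (ha : ∀ i j, (fun n => (((s * ρ n a : G) : Mat) - 1) i j) =O[l] e) {u : F}
    (hu : u ∈ Subgroup.normalClosure {a}) :
    ∃ t, hoS t ∧ ∀ i j, (fun n => (((t * ρ n u : G) : Mat) - 1) i j) =O[l] e := by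
  have cm : ∀ {t}, hoS t → ∀ x : G, x * t = t * x := by
    rintro t (rfl | rfl) x <;> simp
  induction hu using Subgroup.closure_induction with
  | mem x hx =>
    obtain ⟨b, rfl, hb⟩ := Group.mem_conjugatesOfSet_iff.1 hx
    obtain ⟨k, rfl⟩ := isConj_iff.1 hb
    refine ⟨s, hs, fun i j => ?_⟩
    refine (ho_bigO (hρ k⁻¹) (fun i j => (ho_bigO (hρ k) ha i j).1) i j).2.congr_left fun n => ?_
    rw [mul_sub, sub_mul, mul_one, ← xm_coe_mul, ← xm_coe_mul, ← xm_coe_mul, ← map_mul,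
      mul_inv_cancel, map_one, map_mul, map_mul, ← mul_assoc, cm hs]
    simp only [mul_assoc]; rfl
  | one => exact ⟨1, .inl rfl, fun i j => by simp [isBigO_zero]⟩
  | mul x y _ _ hx hy =>
    obtain ⟨t, ht, hx⟩ := hx
    obtain ⟨t', ht', hy⟩ := hy
    refine ⟨t * t', by rcases ht with rfl | rfl <;> rcases ht' with rfl | rfl <;> simp [hoS],
      fun i j => ?_⟩
    refine ((ho_bigO ((hρ x).const_mul t) hy i j).1.add (hx i j)).congr_left fun n => ?_
    rw [← Matrix.add_apply, mul_sub, mul_one, sub_add_sub_cancel, ← xm_coe_mul, map_mul,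
      mul_assoc t, ← mul_assoc (ρ n x), cm ht']
    simp only [mul_assoc]
  | inv x _ hx =>
    obtain ⟨t, ht, hx⟩ := hx
    refine ⟨t, ht, fun i j => ?_⟩
    refine (ho_bigO ((hρ x⁻¹).const_mul t) hx i j).1.neg_left.congr_left fun n => ?_
    have : t * ρ n x⁻¹ * (t * ρ n x) = 1 := by rcases ht with rfl | rfl <;> simp only [map_inv, one_mul, inv_mul_cancel, neg_mul, mul_neg, neg_neg]
    rw [← Matrix.neg_apply, mul_sub, mul_one, neg_sub, ← xm_coe_mul, this]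
    rfl

/-- Group form: `s • ρ n a → 1` in the direction `X`, and `B g`, `C g` are the images of `β`, `γ`
under the push along `g`. -/
theorem hole {ι : Type} {l : Filter ι} {ρ : ι → F →* G} {ρ₀ : F →* G}
    (hρ : ∀ g, Tendsto (fun n => ρ n g) l (𝓝 (ρ₀ g))) (a β γ : F) {s : ℝ} (hs : s = 1 ∨ s = -1)
    {e : ι → ℝ} {X : Mat} (he : ∀ n, 0 < e n) (he0 : Tendsto e l (𝓝 0))
    (hX : Tendsto (fun n => (e n)⁻¹ • (s • (ρ n a : Mat) - 1)) l (𝓝 X)) {B C : F → F}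
    (hB : ∀ g, (g * β * g⁻¹)⁻¹ * B g ∈ Subgroup.normalClosure {a})
    (hC : ∀ g, (g * γ * g⁻¹)⁻¹ * C g ∈ Subgroup.normalClosure {a})
    (htr : ∀ g, ∀ᶠ n in l, 2 ≤ |tr (ρ n (B g))|) (hnc : tr (ρ₀ (β * γ * β⁻¹ * γ⁻¹)) ≠ 2)
    (hS : Str ρ₀ X) :
    ∀ᶠ n in l, ∃ g, ∃ N : ℤ, |tr (ρ n (a * B g ^ N * C g * B g ^ (-N)))| < 2 := by
  obtain ⟨r, hr, hX⟩ : ∃ r, hoS r ∧
      Tendsto (fun n => (e n)⁻¹ • (((r * ρ n a : G) : Mat) - 1)) l (𝓝 X) := by
    rcases hs with rfl | rfl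
    exacts [⟨1, .inl rfl, by simpa only [one_mul, one_smul] using hX⟩, ⟨-1, .inr rfl, by simpa only [neg_mul, one_mul, Matrix.SpecialLinearGroup.coe_neg, neg_smul, one_smul] using hX⟩]
  have ha : ∀ i j, (fun n => (((r * ρ n a : G) : Mat) - 1) i j) =O[l] e := fun i j => by
    have := (((continuous_apply_apply i j).tendsto _).comp hX).isBigO_one ℝ
    refine ((isBigO_refl e l).mul this).congr (fun n => ?_) (fun n => mul_one _)
    exact mul_inv_cancel_left₀ (he n).ne' _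
  have at' : ∀ {t}, hoS t → ∀ x : G, |tr (t * x)| = |tr x| := by
    rintro t (rfl | rfl) x <;> simp [tr_neg]
  have K : ∀ {x y : F}, x⁻¹ * y ∈ Subgroup.normalClosure {a} → ∃ t, hoS t ∧
      Tendsto (fun n => t * ρ n y) l (𝓝 (ρ₀ x)) ∧
      (fun n => tr (t * ρ n y) - tr (ρ n x)) =O[l] e := fun {x y} h => by
    obtain ⟨t, ht, h⟩ := ho_near hρ hr ha h
    have h2 : ∀ i j, (fun n => (t * ρ n y) i j - ρ n x i j) =O[l] e := fun i j => by
      refine (ho_bigO (hρ x) h i j).1.congr_left fun n => ?_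
      have : ρ n x * (t * ρ n (x⁻¹ * y)) = t * ρ n y := by rcases ht with rfl | rfl <;> simp only [map_mul, map_inv, one_mul, mul_inv_cancel_left, neg_mul, mul_neg]
      rw [mul_sub, mul_one, ← xm_coe_mul, this]
      rfl
    refine ⟨t, ht, tendsto_subtype_rng.2 (tendsto_pi_nhds.2 fun i => tendsto_pi_nhds.2 fun j => ?_),
      ((h2 0 0).add (h2 1 1)).congr_left fun n => by simp only [tr]; ring⟩
    simpa only [Matrix.SpecialLinearGroup.coe_mul, Function.comp_apply, sub_add_cancel, zero_add] using ((h2 i j).trans_tendsto he0).add (((basic_cont i j).tendsto _).comp (hρ x))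
  choose p p1 p2 p3 using fun g => K (hB g)
  choose q q1 q2 _ using fun g => K (hC g)
  refine (hole_core ρ₀ β γ he he0 hX p2 q2 (fun g => ((p3 g).sub (p3 1)).congr_left fun n => ?_)
    (fun g => by simpa only [at' (p1 g)] using htr g) hnc hS).mono ?_
  · simp only [map_mul, map_inv, tr_conj]; ring
  rintro n ⟨g, N, h⟩
  refine ⟨g, N, ?_⟩
  have h1 : ∀ y : G, (p g * ρ n (B g)) ^ N * y * (p g * ρ n (B g)) ^ (-N) =
      ρ n (B g) ^ N * y * ρ n (B g) ^ (-N) := fun y => by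
    rcases p1 g with t | t
    · rw [t, one_mul]
    · rw [t, neg_one_mul, zpow_neg, zpow_neg]
      rcases Int.even_or_odd N with o | o
      · rw [o.neg_zpow]
      · rw [o.neg_zpow]; simp
  rw [mul_assoc (r * _), mul_assoc (r * _), h1, mul_assoc r, at' hr] at h
  simp only [map_mul, map_zpow]
  rcases q1 g with t | t
  · simpa only [mul_assoc, zpow_neg, gt_iff_lt, t, one_mul] using h
  · simpa only [mul_assoc, zpow_neg, gt_iff_lt, t, neg_mul, one_mul, mul_neg, tr_neg, abs_neg] using h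

/-- The signed height of `g • i` over the axis of `X`, up to a constant factor. -/
def hgt (X : Mat) (g : G) : ℝ := qX X (fun i => g i 0) + qX X (fun i => g i 1)

namespace S83

theorem det1 (a : G) : a 0 0 * a 1 1 - a 0 1 * a 1 0 = 1 := by
  have := a.det_coe
  rwa [Matrix.det_fin_two] at this

theorem mul_ap (a b : G) (i j : Fin 2) : (a * b) i j = a i 0 * b 0 j + a i 1 * b 1 j := by
  simp only [Matrix.SpecialLinearGroup.coe_mul, Matrix.mul_apply, Fin.sum_univ_two, Fin.isValue]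

theorem inv_ap (a : G) : a⁻¹ 0 0 = a 1 1 ∧ a⁻¹ 0 1 = -a 0 1 ∧ a⁻¹ 1 0 = -a 1 0 ∧
    a⁻¹ 1 1 = a 0 0 := by
  rw [Matrix.SpecialLinearGroup.SL2_inv_expl]
  simp

theorem fricke (a b : G) : tr (a * b * a⁻¹ * b⁻¹) =
    tr a ^ 2 + tr b ^ 2 + tr (a⁻¹ * b) ^ 2 - tr a * tr b * tr (a⁻¹ * b) - 2 := by
  obtain ⟨a1, a2, a3, a4⟩ := inv_ap a
  obtain ⟨b1, b2, b3, b4⟩ := inv_ap b
  have da := det1 a
  have db := det1 b
  simp only [tr, mul_ap, a1, a2, a3, a4, b1, b2, b3, b4]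
  linear_combination (2 - (b 0 0 + b 1 1) ^ 2 + 2 * (b 0 0 * b 1 1 - b 0 1 * b 1 0 - 1)) * (-da) +
    (2 - (a 0 0 + a 1 1) ^ 2) * (-db)

/-- A common eigenvector forces the commutator to have trace two. -/
theorem tr_two {a b : G} {v : Fin 2 → ℝ} (hv : v ≠ 0) (ha : qX a v = 0) (hb : qX b v = 0) :
    tr (a * b * a⁻¹ * b⁻¹) = 2 := by
  obtain ⟨a1, a2, a3, a4⟩ := inv_ap a
  obtain ⟨b1, b2, b3, b4⟩ := inv_ap b
  have da := det1 a
  have db := det1 b
  simp only [qX, Matrix.mulVec, dotProduct, Fin.sum_univ_two] at ha hb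
  set P := a 0 1 * b 1 0 - b 0 1 * a 1 0 with hP
  set Q := (a 0 0 - a 1 1) * b 0 1 - a 0 1 * (b 0 0 - b 1 1) with hQ
  set R := a 1 0 * (b 0 0 - b 1 1) - (a 0 0 - a 1 1) * b 1 0 with hR
  have e : tr (a * b * a⁻¹ * b⁻¹) = 2 + (P ^ 2 + Q * R) := by
    simp only [tr, mul_ap, a1, a2, a3, a4, b1, b2, b3, b4, hP, hQ, hR]
    linear_combination (2 * (b 0 0 * b 1 1 - b 0 1 * b 1 0)) * da + 2 * db
  have h0 : v 0 * (P * v 0 + Q * v 1) = 0 := by
    rw [hP, hQ]; linear_combination a 0 1 * hb - b 0 1 * ha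
  have h1 : v 1 * (R * v 0 - P * v 1) = 0 := by
    rw [hP, hR]; linear_combination b 1 0 * ha - a 1 0 * hb
  have h2 : v 1 * (P * v 0 + Q * v 1) + v 0 * (R * v 0 - P * v 1) = 0 := by
    rw [hP, hQ, hR]; linear_combination (b 0 0 - b 1 1) * ha - (a 0 0 - a 1 1) * hb
  rw [e]
  by_cases c0 : v 0 = 0
  · have c1 : v 1 ≠ 0 := fun c1 => hv (by funext i; fin_cases i <;> simp [c0, c1])
    have k1 := (mul_eq_zero.1 h1).resolve_left c1
    rw [k1, mul_zero, add_zero] at h2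
    have k0 := (mul_eq_zero.1 h2).resolve_left c1
    have : v 1 * (P ^ 2 + Q * R) = 0 := by linear_combination R * k0 - P * k1
    rw [(mul_eq_zero.1 this).resolve_left c1, add_zero]
  · have k0 := (mul_eq_zero.1 h0).resolve_left c0
    rw [k0, mul_zero, zero_add] at h2
    have k1 := (mul_eq_zero.1 h2).resolve_left c0
    have : v 0 * (P ^ 2 + Q * R) = 0 := by linear_combination P * k0 + Q * k1
    rw [(mul_eq_zero.1 this).resolve_left c0, add_zero]

theorem quad_bd {P R y c : ℝ} (hP : P ≤ 0) (hR : R ≤ 0) (h : y ^ 2 = P * R + c) :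
    P + 2 * y + R ≤ 1 + |c| := by
  by_contra hn
  push Not at hn
  have h1 : 0 ≤ |c| := abs_nonneg c
  have h2 : c ≤ |c| := le_abs_self c
  have h3 : (1 + |c| - P - R) ^ 2 < (2 * y) ^ 2 := by
    apply pow_lt_pow_left₀ (by linarith) (by linarith) (by norm_num)
  linarith only [sq_nonneg (P - R), sq_nonneg (1 - |c|), mul_nonneg h1 (neg_nonneg.2 hP), mul_nonneg h1 (neg_nonneg.2 hR), hP, hR, h, h2, h3]

/-- If the form is non-positive on two independent vectors of fixed determinant, it is bounded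
above on a fixed combination. -/
theorem comb_bd (X : Mat) (u w : Fin 2 → ℝ) (a b d : ℝ) (hd : u 0 * w 1 - u 1 * w 0 = d)
    (hu : qX X u ≤ 0) (hw : qX X w ≤ 0) :
    qX X (fun i => a * u i + b * w i) ≤
      1 + |a ^ 2 * b ^ 2 * d ^ 2 * ((X 1 1 - X 0 0) ^ 2 / 4 + X 1 0 * X 0 1)| := by
  have := quad_bd (P := a ^ 2 * qX X u) (R := b ^ 2 * qX X w)
    (y := a * b * (X 1 0 * u 0 * w 0 + (X 1 1 - X 0 0) / 2 * (u 0 * w 1 + u 1 * w 0) -
      X 0 1 * u 1 * w 1))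
    (c := a ^ 2 * b ^ 2 * d ^ 2 * ((X 1 1 - X 0 0) ^ 2 / 4 + X 1 0 * X 0 1))
    (mul_nonpos_of_nonneg_of_nonpos (sq_nonneg a) hu)
    (mul_nonpos_of_nonneg_of_nonpos (sq_nonneg b) hw) (by
      rw [← hd]
      simp only [qX, Matrix.mulVec, dotProduct, Fin.sum_univ_two]
      ring)
  refine le_trans (le_of_eq ?_) this
  simp only [qX, Matrix.mulVec, dotProduct, Fin.sum_univ_two]
  ring

theorem hgt_bd (ρ : F →* G) {X : Mat} {α : F} {v : Fin 2 → ℝ}
    (hα : qX (ρ α) v ≠ 0) (h : ∀ g, qX X ((ρ g : Mat).mulVec v) ≤ 0) :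
    ∃ K, ∀ g, hgt X (ρ g) ≤ K := by
  set w := (ρ α : Mat).mulVec v with hw
  set d := v 0 * w 1 - v 1 * w 0 with hd
  have hd0 : d ≠ 0 := hα
  refine ⟨_, fun g => add_le_add
    (le_trans (le_of_eq ?_) (comb_bd X ((ρ g : Mat).mulVec v) ((ρ g : Mat).mulVec w)
      (w 1 / d) (-v 1 / d) d ?_ (h g) ?_))
    (le_trans (le_of_eq ?_) (comb_bd X ((ρ g : Mat).mulVec v) ((ρ g : Mat).mulVec w)
      (-w 0 / d) (v 0 / d) d ?_ (h g) ?_))⟩
  · congr 1
    funext i
    simp only [Matrix.mulVec, dotProduct, Fin.sum_univ_two]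
    field_simp
    rw [hd]; ring
  · simp only [Matrix.mulVec, dotProduct, Fin.sum_univ_two]
    rw [hd]; linear_combination (v 0 * w 1 - v 1 * w 0) * det1 (ρ g)
  · have := h (g * α)
    rwa [map_mul, Matrix.SpecialLinearGroup.coe_mul, ← Matrix.mulVec_mulVec] at this
  · congr 1
    funext i
    simp only [Matrix.mulVec, dotProduct, Fin.sum_univ_two]
    field_simp
    rw [hd]; ring
  · simp only [Matrix.mulVec, dotProduct, Fin.sum_univ_two]
    rw [hd]; linear_combination (v 0 * w 1 - v 1 * w 0) * det1 (ρ g)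
  · have := h (g * α)
    rwa [map_mul, Matrix.SpecialLinearGroup.coe_mul, ← Matrix.mulVec_mulVec] at this

theorem qX_neg (X : Mat) (v : Fin 2 → ℝ) : qX (-X) v = -qX X v := by
  simp only [qX, Matrix.neg_mulVec, Pi.neg_apply]
  ring

end S83

/-- If the height is unbounded in both signs on an irreducible group, the group straddles. -/
theorem strad (ρ : F →* G) {X : Mat} {β γ : F}
    (hnc : tr (ρ (β * γ * β⁻¹ * γ⁻¹)) ≠ 2)
    (hu : ∀ K, ∃ g, K < hgt X (ρ g)) (hd : ∀ K, ∃ g, hgt X (ρ g) < K) : Str ρ X := by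
  intro v hv
  obtain ⟨α, hα⟩ : ∃ α, qX (ρ α) v ≠ 0 := by
    by_contra hn
    push Not at hn
    apply hnc
    simp only [map_mul, map_inv]
    exact S83.tr_two hv (hn β) (hn γ)
  constructor
  · by_contra hn
    push Not at hn
    obtain ⟨K, hK⟩ := S83.hgt_bd ρ hα hn
    obtain ⟨g, hg⟩ := hu K
    exact absurd (hK g) (not_le.2 hg)
  · by_contra hn
    push Not at hn
    obtain ⟨K, hK⟩ := S83.hgt_bd ρ (X := -X) hα fun g => by
      rw [S83.qX_neg]; exact neg_nonpos.2 (hn g)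
    obtain ⟨g, hg⟩ := hd (-K)
    have := hK g
    rw [hgt, S83.qX_neg, S83.qX_neg] at this
    rw [hgt] at hg
    linarith

end Pool.Agent.MP_596265_gt.U

end

section

/-! THIN: straddling from the half plane property, and pairs without a common fixed point. -/

namespace Pool.Agent.MP_596265_gt.U

open Erg Filter Topology Real

theorem hgt_mul (X : Mat) (g u : G) : hgt X (g * u) = hgt (((g⁻¹ : G) : Mat) * X * g) u := by
  rw [hgt, hgt, ← qX_mul, ← qX_mul]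
  rfl

theorem hgt_neg (X : Mat) (g : G) : hgt (-X) g = -hgt X g := by
  rw [hgt, hgt, S83.qX_neg, S83.qX_neg, neg_add]

theorem str_up {F : Type} [Group F] (ρ : F →* G) {S : Set G} (hS : S ⊆ Set.range ρ)
    (hf : S.Finite) (hp : ∀ Y : Mat, Y.trace = 0 → Y 0 1 = Y 1 0 → Y ≠ 0 → ∃ u ∈ S, 0 < hgt Y u)
    {X : Mat} (h0 : X.trace = 0) (h1 : X 0 1 = X 1 0) (h2 : X ≠ 0) (K : ℝ) :
    ∃ g, K < hgt X (ρ g) := by
  have c1 : ∀ (Y : Mat) (u : G), Y 0 1 = Y 1 0 → 0 < hgt Y u → 1 < cosh (len u) := by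
    intro Y u a b
    refine (one_le_cosh _).lt_of_ne fun t => ?_
    have := cosh_len u
    have d := basic_det u
    rw [← t] at this
    have e1 : u 0 0 = u 1 1 := by nlinarith only [sq_nonneg (u 0 1 + u 1 0), this, d]
    have e2 : u 0 1 = -u 1 0 := by nlinarith only [sq_nonneg (u 0 0 - u 1 1), this, d]
    simp only [hgt, qX, Matrix.mulVec, dotProduct, Fin.sum_univ_two, a, e1, e2] at b
    linarith only [b]
  obtain ⟨u₀, a0, b0⟩ := hp X h0 h1 h2
  obtain ⟨v, ⟨v1, v2⟩, hv⟩ := Set.exists_min_image {u ∈ S | 1 < cosh (len u)}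
    (fun u => cosh (len u)) (hf.subset fun u h => h.1) ⟨u₀, a0, c1 X u₀ h1 b0⟩
  have st : ∀ Z : Mat, 0 ≤ hgt Z 1 → ∃ u ∈ S, cosh (len v) * hgt Z 1 ≤ hgt Z u := by
    intro Z hZ
    let Y : Mat := !![(Z 0 0 - Z 1 1) / 2, (Z 0 1 + Z 1 0) / 2; (Z 0 1 + Z 1 0) / 2,
      (Z 1 1 - Z 0 0) / 2]
    have e : ∀ u : G, hgt Z u = hgt Y u + cosh (len u) * hgt Z 1 := fun u => by
      simp only [hgt, qX, Fin.isValue, Matrix.mulVec, dotProduct, Fin.sum_univ_two, Y, Matrix.of_apply, Matrix.cons_val', Matrix.cons_val_fin_one, Matrix.cons_val_one, Matrix.cons_val_zero, cosh_len, Matrix.SpecialLinearGroup.coe_one, Matrix.one_apply_eq, mul_one, ne_eq, one_ne_zero, not_false_eq_true, Matrix.one_apply_ne, mul_zero, add_zero, one_mul, zero_mul, sub_zero, zero_ne_one, zero_add, zero_sub]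
      ring
    by_cases hY : Y = 0
    · exact ⟨v, v1, by rw [e v, hY]; simp only [hgt, qX, Fin.isValue, Matrix.SpecialLinearGroup.coe_one, Matrix.one_apply_eq, Matrix.mulVec_fin_two, Nat.succ_eq_add_one, Nat.reduceAdd, mul_one, ne_eq, one_ne_zero, not_false_eq_true, Matrix.one_apply_ne, mul_zero, add_zero, Matrix.cons_val_one, Matrix.cons_val_fin_one, one_mul, Matrix.cons_val_zero, zero_mul, sub_zero, zero_ne_one, zero_add, zero_sub, Matrix.zero_mulVec, Pi.zero_apply, sub_self, Std.le_refl]⟩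
    · obtain ⟨u, a, b⟩ := hp Y (by simp only [Y, Fin.isValue, Matrix.trace_fin_two_of]; ring) (by simp [Y]) hY
      have := mul_le_mul_of_nonneg_right (hv u ⟨a, c1 Y u (by simp [Y]) b⟩) hZ
      exact ⟨u, a, by rw [e u]; linarith⟩
  have H : ∀ N : ℕ, ∃ g, cosh (len v) ^ N * hgt X u₀ ≤ hgt X (ρ g) := fun N => by
    induction N with
    | zero => obtain ⟨g, hg⟩ := hS a0; exact ⟨g, by simp [hg]⟩
    | succ N ih =>
      obtain ⟨g, hg⟩ := ih
      have e := hgt_mul X (ρ g) 1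
      rw [mul_one] at e
      obtain ⟨u, a, b⟩ := st _ (e ▸ le_trans (by positivity) hg)
      obtain ⟨f, rfl⟩ := hS a
      refine ⟨g * f, ?_⟩
      rw [map_mul, hgt_mul, pow_succ', mul_assoc]
      exact (mul_le_mul_of_nonneg_left (e ▸ hg) (cosh_pos _).le).trans b
  obtain ⟨N, hN⟩ := (((tendsto_pow_atTop_atTop_of_one_lt v2).atTop_mul_const b0).eventually_gt_atTop
    K).exists
  obtain ⟨g, hg⟩ := H N
  exact ⟨g, hN.trans_le hg⟩

/-- Straddling from the half plane property. -/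
theorem str_of_hp {F : Type} [Group F] (ρ : F →* G) {S : Set G} (hS : S ⊆ Set.range ρ)
    (hf : S.Finite) (hp : ∀ Y : Mat, Y.trace = 0 → Y 0 1 = Y 1 0 → Y ≠ 0 → ∃ u ∈ S, 0 < hgt Y u)
    {X : Mat} (h0 : X.trace = 0) (h1 : X 0 1 = X 1 0) (h2 : X ≠ 0) {β γ : F}
    (hnc : tr (ρ (β * γ * β⁻¹ * γ⁻¹)) ≠ 2) : Str ρ X :=
  strad ρ hnc (str_up ρ hS hf hp h0 h1 h2) fun K => by
    obtain ⟨g, hg⟩ := str_up ρ hS hf hp (X := -X) (by simp [h0]) (by simp [h1])
      (neg_ne_zero.2 h2) (-K)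
    exact ⟨g, by rw [hgt_neg] at hg; linarith⟩

theorem kap_tr (a b : G) : kap a b =
    tr a ^ 2 + tr b ^ 2 + tr (a⁻¹ * b) ^ 2 - tr a * tr b * tr (a⁻¹ * b) - 2 := S83.fricke a b

/-- A parabolic boundary curve of a pair of pants with negative trace product. -/
theorem irr_of_F {A B : G} (h : |tr (A * B)| = 2) (h' : tr A * tr B * tr (A * B) < 0) :
    kap (A * B) A ≠ 2 ∧ kap (A * B) B ≠ 2 := by
  have e : tr (A * B) ^ 2 = 4 := by rw [← sq_abs, h]; norm_num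
  have e1 : tr ((A * B)⁻¹ * A) = tr B := by
    rw [show (A * B)⁻¹ * A = B⁻¹ by group, tr_inv]
  have e2 : tr ((A * B)⁻¹ * B) = tr A := by
    rw [show (A * B)⁻¹ * B = B⁻¹ * A⁻¹ * B⁻¹⁻¹ by group, tr_conj, tr_inv]
  rw [kap_tr, kap_tr, e1, e2]
  constructor <;> linarith only [sq_nonneg (tr A), sq_nonneg (tr B), h', e]

theorem kap_pair {β γ : G} (h : tr (β⁻¹ * γ) = tr γ) :
    kap β γ - 2 = (tr β - 2) * (tr β + 2 - tr γ ^ 2) := by
  rw [kap_tr, h]; ring

/-- Among three simple curves of a handle, one has no common fixed point with the boundary. -/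
theorem three_pairs {k a b c : ℝ} (hk : k ≠ 2) (e : k = a ^ 2 + b ^ 2 + c ^ 2 - a * b * c - 2)
    (ha : a ≠ 0) : k + 2 - a ^ 2 ≠ 0 ∨ k + 2 - b ^ 2 ≠ 0 ∨ k + 2 - c ^ 2 ≠ 0 := by
  by_contra hn
  push Not at hn
  obtain ⟨h1, h2, h3⟩ := hn
  have e1 : a * b * c = 2 * a ^ 2 := by linarith
  have e2 : (a * b * c) ^ 2 = (a ^ 2) ^ 3 := by
    rw [mul_pow, mul_pow, show b ^ 2 = a ^ 2 by linarith, show c ^ 2 = a ^ 2 by linarith]; ring
  rw [e1] at e2
  have : (a ^ 2) ^ 2 * (a ^ 2 - 4) = 0 := by linarith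
  rcases mul_eq_zero.1 this with t | t
  · exact ha (by simpa using t)
  · exact hk (by linarith only [h1, t])

theorem kap_tr' (a b : G) : kap a b =
    tr a ^ 2 + tr b ^ 2 + tr (a * b) ^ 2 - tr a * tr b * tr (a * b) - 2 := by
  have : tr (a⁻¹ * b) = tr a * tr b - tr (a * b) := by
    simp only [tr, basic_mul, basic_inv00, basic_inv01, basic_inv10, basic_inv11]; ring
  rw [kap_tr, this]; ring

theorem kap_inv (a b : G) : kap a b⁻¹ = kap a b := by
  rw [kap_tr, kap_tr', tr_inv, ← mul_inv_rev, tr_inv, tr_mul_comm b]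

/-- The boundary `x y x⁻¹ y⁻¹` with one of `x`, `y`, `x y`. -/
theorem kap_three {x y : G} (hk : kap x y ≠ 2) (hx : tr x ≠ 0) :
    kap (x * y * x⁻¹ * y⁻¹) x ≠ 2 ∨ kap (x * y * x⁻¹ * y⁻¹) y ≠ 2 ∨
      kap (x * y * x⁻¹ * y⁻¹) (x * y) ≠ 2 := by
  have e1 := kap_pair (β := x * y * x⁻¹ * y⁻¹) (γ := x) (by
    rw [show (x * y * x⁻¹ * y⁻¹)⁻¹ * x = y * x * y⁻¹ by group, tr_conj])
  have e2 := kap_pair (β := x * y * x⁻¹ * y⁻¹) (γ := y⁻¹) (by
    rw [← mul_inv_rev, tr_inv, tr_inv, tr_mul_comm, inv_mul_cancel_right, tr_conj])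
  have e3 := kap_pair (β := x * y * x⁻¹ * y⁻¹) (γ := x * y) (by
    rw [show (x * y * x⁻¹ * y⁻¹)⁻¹ * (x * y) = y * x by group, tr_mul_comm])
  rw [kap_inv, tr_inv] at e2
  have k := sub_ne_zero.2 hk
  rcases three_pairs hk (kap_tr' x y) hx with t | t | t
  · exact .inl (sub_ne_zero.1 (e1 ▸ mul_ne_zero k t))
  · exact .inr (.inl (sub_ne_zero.1 (e2 ▸ mul_ne_zero k t)))
  · exact .inr (.inr (sub_ne_zero.1 (e3 ▸ mul_ne_zero k t)))

theorem tor_ne {x y : G} (h : Tor x y) : kap x y ≠ 2 ∧ tr x ≠ 0 :=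
  ⟨by rcases h.1 with t | t <;> linarith, fun t => by have := h.2.1; simp [t] at this; linarith⟩

theorem tor_pair' {x y : G} (h : Tor x y) : kap (x * y⁻¹ * x⁻¹ * y) x ≠ 2 ∨
    kap (x * y⁻¹ * x⁻¹ * y) y ≠ 2 ∨ kap (x * y⁻¹ * x⁻¹ * y) (x * y⁻¹) ≠ 2 := by
  simpa only [inv_inv, kap_inv] using
    kap_three (y := y⁻¹) (kap_inv x y ▸ (tor_ne h).1) (tor_ne h).2

end Pool.Agent.MP_596265_gt.U

end
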