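import Pool.Agent.MP_596265_gt.W.T1
import Pool.Agent.MP_596265_gt.W.C0

attribute [-instance] RKHS.instFunLike instNonemptyProd MonTypeEquivalenceMon.monMonoid
  decidableEq_of_subsingleton DivisionCommMonoid.toDivisionMonoid NonUnitalRingHomClass.toMulHomClass
  Std.instLawfulBEqOfLawfulOrderBEqOfIsPartialOrder SemigroupWithZero.toSemigroup
  CommSemiring.toSemiring LinearOrder.toDecidableEq littleWedderburn
  NonUnitalAlgSemiHomClass.toMulHomClass NormedRing.toRing AddQuantale.instAddLeftMono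
  Unique.instInhabited FunLike.toDecidableEq CommMonoidWithZero.toMonoidWithZero
  Nontrivial.to_nonempty GroupWithZero.toMonoidWithZero NonUnitalRing.toNonUnitalNonAssocRing
  NonAssocSemiring.toMulZeroOneClass IdemSemiring.toSemiring Std.PreorderPackage.toBEq
  RingConeClass.toSubsemiringClass FirstOrder.Language.instDecidableEqRelations
  GroupWithZero.toDivisionMonoid RCLike.charZero_rclike DivisionRing.toDivInvMonoid
  SeminormedRing.toRing RCLike.toDecidableEq FinEnum.decEq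
  FirstOrder.Language.instDecidableEqFunctions MonoidWithZeroHomClass.toMonoidHomClass
  GroupWithZero.toDivInvMonoid CoheytingAlgebra.toOrderTop Prod.instMul
  instIsLeftCancelMulOfMulLeftReflectLE Zero.instNonempty
  NonAssocSemiring.toNonUnitalNonAssocSemiring AddCommMonoidWithOne.toAddMonoidWithOne
  SubringClass.toSubsemiringClass NonUnitalSemiring.toNonUnitalNonAssocSemiring
  TestFunctionClass.toDFunLike Std.instEquivBEqOfLawfulOrderBEqOfIsPreorder
  ContDiffMapSupportedInClass.toDFunLike bot_nonempty IsTopologicalTorsor.toContinuousSMul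
  AddGroup.addLeftReflectLE_of_addLeftMono BialgHomClass.toMonoidHomClass instNonemptyOfMonad
  LieAdmissibleRing.toNonUnitalNonAssocRing AddTorsor.nonempty
  NonUnitalNormedCommRing.toNonUnitalCommRing One.instNonempty
  LinearOrderedAddCommGroupWithTop.toOrderTop BooleanRing.toRing
  Group.IsPerfect.subsingleton_of_isMulCommutative LinearOrderedAddCommMonoidWithTop.toOrderTop
  instInhabitedOfMonad NonUnitalNonAssocCommSemiring.toNonUnitalNonAssocSemiring
  FiniteField.instGrindPowIdentity ConnectedSpace.toNonempty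
  Std.instLawfulBEqOrdOfLawfulOrderOrdOfLawfulOrderBEq LinearOrder.toOrd MonoidWithZero.toMonoid
  NonUnitalSeminormedCommRing.toNonUnitalCommRing CategoryTheory.IsConnected.is_nonempty
  AddCommGroupWithOne.toAddGroupWithOne NonAssocRing.toNonUnitalNonAssocRing NumberField.to_charZero
  SemigroupWithZero.toMulZeroClass instIsRightCancelMulOfMulRightReflectLE top_nonempty
  CommGrpTypeEquivalenceCommGrp.commGrpCommGroup supSet_to_nonempty IrreducibleSpace.toNonempty
  DivisionRing.toDivisionSemiring infSet_to_nonempty NormedCommRing.toCommRing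
  NonAssocCommRing.toNonUnitalNonAssocCommRing Semiring.toMonoidWithZero
  Fintype.decidableExistsFintype GroupConeClass.toSubmonoidClass Equiv.Perm.instDecidableRelSameCycle
  ConditionallyCompleteLinearOrder.toOrd DenselyNormedField.toNormedField
  RightPreLieRing.toNonUnitalNonAssocRing SeminormedCommRing.toCommRing
  ESeminormedAddCommMonoid.toAddCommMonoid LeftPreLieRing.toNonUnitalNonAssocRing
  EuclideanDomain.toCommRing SubsemiringClass.toSubmonoidClass

section

/-! Ribbon graphs with one vertex inside the surface, given by the cyclic order of their darts. -/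

namespace Pool.Agent.MP_596265_gt.U

open Erg

variable {g : ℕ} {I : Type}

/-- Values on the corners of the rotation list: `P x` before `x`, and `P (rev x)` times the label of
`rev x` after `x`. -/
def Wk {H : Type} [Group H] (μ : I → H) (P : I × Bool → H) : H → List (I × Bool) → H → Prop
  | v, [], v' => v = v'
  | v, x :: U, v' => P x = v ∧ Wk μ P (P (rev x) * dlab μ (rev x)) U v'

/-- A marked map with one vertex and rotation list `L`; all faces are discs and the relator sits on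
the face of the corner before the first dart. -/
structure GM (L : List (I × Bool)) (l : I → Fr g) : Prop where
  nd : L.Nodup
  sp : ∀ d ∈ L, rev d ∈ L
  dfc : ∃ P v v', Wk l P v L v' ∧ IsConj (v⁻¹ * v') (relPre g g)
  gen : Subgroup.closure (l '' {e | (e, true) ∈ L}) = ⊤
  ext : ∀ (H : Type) [Group H] (μ : I → H) (P : I × Bool → H) (v v' : H), Wk μ P v L v' →
    ∃ φ : Fr g →* H, ∀ e, (e, true) ∈ L → φ (l e) = μ e

/-- A ribbon subgraph of a marked map: `c` lists its darts in the order of the rotation. -/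
def Rib (c : List (I × Bool)) (l : I → Fr g) : Prop :=
  (∀ d ∈ c, rev d ∈ c) ∧ ∃ (J : Type) (_ : Finite J) (L : List (J × Bool)) (m : J → Fr g)
    (F : I × Bool → J × Bool), GM L m ∧ (∀ d, F (rev d) = rev (F d)) ∧ (c.map F).Sublist L ∧
      ∀ d ∈ c, Cg (dlab l d) (dlab m (F d))

/-- `L` is the rotation at the vertex: every dart once, `x` is followed by `n (rev x)`. -/
def Lk {E : Type} (n : Equiv.Perm (E × Bool)) (L : List (E × Bool)) : Prop :=
  L.Nodup ∧ (∀ d, d ∈ L) ∧ L.IsChain fun x y => y = n (rev x)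

open Classical in
/-- Multiply by `u` at the start of the darts in `K`. -/
noncomputable def gau {H : Type} [Group H] (K : List (I × Bool)) (u : H) (μ : I → H) : I → H :=
  fun e => (if (e, true) ∈ K then u else 1) * μ e * (if (e, false) ∈ K then u else 1)⁻¹

end Pool.Agent.MP_596265_gt.U

end

section

/-! Ribbon calculus, part a: walks and elementary moves of marked maps. -/

namespace Pool.Agent.MP_596265_gt.U

open Erg

variable {g : ℕ} {I : Type} {H H' : Type} [Group H] [Group H'] {μ : I → H} {P : I × Bool → H}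
  {v v' : H} {U V L L' : List (I × Bool)} {l : I → Fr g}

theorem wk_append : Wk μ P v (U ++ V) v' ↔ ∃ u, Wk μ P v U u ∧ Wk μ P u V v' := by
  induction U generalizing v with
  | nil => simp [Wk]
  | cons d U ih => simp only [List.cons_append, Wk, ih, exists_and_left, and_assoc]

theorem wk_map {μ' : I → H'} {P' : I × Bool → H'} (T : H → H') (h : Wk μ P v U v')
    (hT : ∀ x ∈ U, P' x = T (P x) ∧
      P' (rev x) * dlab μ' (rev x) = T (P (rev x) * dlab μ (rev x))) :
    Wk μ' P' (T v) U (T v') := by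
  induction U generalizing v with
  | nil => exact congrArg T h
  | cons d U ih =>
    refine ⟨by rw [(hT d (by simp)).1, h.1], ?_⟩
    rw [(hT d (by simp)).2]
    exact ih h.2 fun x hx => hT x (by simp [hx])

theorem wk_congr {μ' : I → H} {P' : I × Bool → H} (h : Wk μ P v U v')
    (hT : ∀ x ∈ U, P' x = P x ∧ P' (rev x) * dlab μ' (rev x) = P (rev x) * dlab μ (rev x)) :
    Wk μ' P' v U v' := wk_map id h hT

theorem dlab_pair (μ : I → H) (ν : I → H') (d : I × Bool) :
    dlab (fun e => (μ e, ν e)) d = (dlab μ d, dlab ν d) := by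
  obtain ⟨e, _ | _⟩ := d <;> rfl

@[simp] theorem dlab_one (d : I × Bool) : dlab (fun _ => (1 : H)) d = 1 := by
  obtain ⟨e, _ | _⟩ := d <;> simp [dlab]

theorem wk_prod {ν : I → H'} {Q : I × Bool → H'} {u u' : H'} (h : Wk μ P v U v')
    (h' : Wk ν Q u U u') :
    Wk (fun e => (μ e, ν e)) (fun d => (P d, Q d)) (v, u) U (v', u') := by
  induction U generalizing v u with
  | nil => exact Prod.ext h h'
  | cons d U ih => exact ⟨Prod.ext h.1 h'.1, by rw [dlab_pair]; exact ih h.2 h'.2⟩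

theorem wk_count {A : Type} [AddCommMonoid A] (φ : H → A) (h : Wk μ P v U v') :
    (U.map fun d => φ (P d)).sum + φ v' =
      φ v + (U.map fun d => φ (P (rev d) * dlab μ (rev d))).sum := by
  induction U generalizing v with
  | nil => cases h; simp
  | cons d U ih => rw [List.map_cons, List.map_cons, List.sum_cons, List.sum_cons, add_assoc,
      ih h.2, h.1]

theorem perm_rev (hn : L.Nodup) (hs : ∀ d ∈ L, rev d ∈ L) : (L.map rev).Perm L := by
  refine (List.perm_ext_iff_of_nodup (hn.map (revP I).injective) hn).2 fun y =>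
    ⟨fun c => ?_, fun c => List.mem_map.2 ⟨_, hs y c, rev_rev y⟩⟩
  obtain ⟨z, c', rfl⟩ := List.mem_map.1 c
  exact hs z c'

theorem wk_count' (hn : L.Nodup) (hs : ∀ d ∈ L, rev d ∈ L) (φ : H → ℤ) (h : Wk μ P v L v') :
    (L.map fun d => φ (P d) - φ (P d * dlab μ d)).sum = φ v - φ v' := by
  have h1 := wk_count φ h
  have h2 := ((perm_rev hn hs).map fun d => φ (P d * dlab μ d)).sum_eq
  rw [List.map_map] at h2
  have h3 : ∀ W : List (I × Bool), (W.map fun d => φ (P d) - φ (P d * dlab μ d)).sum =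
      (W.map fun d => φ (P d)).sum - (W.map fun d => φ (P d * dlab μ d)).sum := fun W => by
    induction W with
    | nil => simp
    | cons d W ih => simp only [List.map_cons, List.sum_cons, ih]; ring
  rw [h3, ← h2]
  exact sub_eq_sub_iff_add_eq_add.2 h1

theorem wk_one (hn : L.Nodup) (hs : ∀ d ∈ L, rev d ∈ L) (h : Wk (fun _ => 1) P v L v') : v = v' := by
  classical
  have := wk_count' hn hs (fun x => if x = v then 1 else 0) h
  by_contra c
  simp [Ne.symm c] at this

theorem wk_defect (hn : L.Nodup) (hs : ∀ d ∈ L, rev d ∈ L) {Q : I × Bool → H} {u u' : H}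
    (h : Wk μ P v L v') (h' : Wk μ Q u L u') : v⁻¹ * v' = u⁻¹ * u' := by
  have := wk_one hn hs (wk_map (μ' := fun _ => 1) (P' := fun d => P d * (Q d)⁻¹)
    (fun x : H × H => x.1 * x.2⁻¹) (wk_prod h h') fun x _ => ⟨rfl, by simp [dlab_pair, mul_assoc]⟩)
  simp only at this
  rw [← mul_right_cancel_iff (a := u'⁻¹), mul_assoc, ← this]; group

theorem wk_sep (hn : L.Nodup) (hs : ∀ d ∈ L, rev d ∈ L) (h : Wk μ P v L v') {ε : I × Bool → H'}
    {b : H'} (he : Wk (fun _ => 1) ε b L b) {y : I × Bool} (hy : y ∈ L) (h1 : ε y ≠ ε (rev y))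
    (K : Subgroup H) (hK : ∀ d ∈ L, d.1 ≠ y.1 → dlab μ d ∈ K) : dlab μ y ∈ K := by
  classical
  wlog h2 : ε y ≠ b generalizing y
  · have := this (hs y hy) (by rw [rev_rev]; exact h1.symm) hK (by rw [← not_not.1 h2]; exact h1.symm)
    rwa [dlab_rev, inv_mem_iff] at this
  have := wk_count' hn hs (fun x : H × H' => if x.2 = ε y ∧ (P y)⁻¹ * x.1 ∈ K then 1 else 0)
    (wk_prod h he)
  rw [List.sum_map_eq_nsmul_single y] at this
  · have c1 := List.count_eq_one_of_mem hn hy
    rw [show @List.count _ instBEqOfDecidableEq y L = 1 by convert c1] at this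
    by_contra c
    simp only [inv_mul_cancel, one_mem, and_self, ↓ reduceIte, dlab_pair, dlab_one, Prod.mk_mul_mk, mul_one, inv_mul_cancel_left, c, and_false, sub_zero, Int.nsmul_eq_mul, Nat.cast_one, h2.symm, false_and, sub_self, one_ne_zero] at this
  · intro d hd hL
    by_cases e : d.1 = y.1
    · obtain rfl := (ts_eq_or_rev e).resolve_left hd
      simp only [h1.symm, false_and, ↓ reduceIte, dlab_rev, dlab_pair, dlab_one, Prod.inv_mk, inv_one, Prod.mk_mul_mk, mul_one, sub_self]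
    · simp only [dlab_pair, dlab_one, Prod.mk_mul_mk, mul_one, ← mul_assoc, K.mul_mem_cancel_right (hK d hL e), sub_self]

theorem GM.live (h : GM L l) {d : I × Bool} : d ∈ L ↔ (d.1, true) ∈ L := by
  obtain ⟨e, _ | _⟩ := d
  exacts [⟨h.sp _, h.sp _⟩, Iff.rfl]

theorem dlab_mem' {K : Subgroup H} {d : I × Bool} : dlab μ d ∈ K ↔ μ d.1 ∈ K := by
  obtain ⟨e, _ | _⟩ := d
  exacts [inv_mem_iff, Iff.rfl]

theorem GM.dl (h : GM L l) (hw : Wk μ P v L v') :
    ∃ φ : Fr g →* H, ∀ d ∈ L, φ (dlab l d) = dlab μ d := by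
  obtain ⟨φ, hφ⟩ := h.ext H μ P v v' hw
  exact ⟨φ, fun d hd => by rw [map_dlab]; exact dlab_congr (hφ _ (h.live.1 hd))⟩

theorem GM.hom_defect (h : GM L l) (hw : Wk μ P v L v') {φ : Fr g →* H}
    (hφ : ∀ d ∈ L, φ (dlab l d) = dlab μ d) {Q : I × Bool → Fr g} {u u' : Fr g}
    (hq : Wk l Q u L u') : φ (u⁻¹ * u') = v⁻¹ * v' := by
  rw [map_mul, map_inv]
  exact wk_defect h.nd h.sp (wk_map (P' := fun d => φ (Q d)) φ hq fun x hx =>
    ⟨rfl, by rw [map_mul, hφ _ (h.sp x hx)]⟩) hw

theorem GM.act (h : GM L l) {ψ : Fr g ≃* Fr g} (hψ : AutR ψ) : GM L fun e => ψ (l e) := by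
  obtain ⟨P, v, v', a, b⟩ := h.dfc
  refine ⟨h.nd, h.sp, ⟨fun d => ψ (P d), ψ v, ψ v', wk_map ψ a fun x _ =>
    ⟨rfl, by rw [map_mul, map_dlab]⟩, ?_⟩, ?_, fun H _ μ P v v' c => ?_⟩
  · rw [← map_inv, ← map_mul]; exact (ψ.toMonoidHom.map_isConj b).trans hψ
  · rw [← Set.image_image ψ l]
    exact (MonoidHom.map_closure ψ.toMonoidHom _).symm.trans
      (by rw [h.gen]; exact Subgroup.map_top_of_surjective _ ψ.surjective)
  · obtain ⟨φ, hφ⟩ := h.ext H μ P v v' c
    exact ⟨φ.comp ψ.symm.toMonoidHom, fun e he => by simpa using hφ e he⟩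

theorem wk_comap {J : Type} (j : I → J) {ν : J → H} {Q : J × Bool → H} :
    Wk ν Q v (U.map (Prod.map j id)) v' ↔ Wk (ν ∘ j) (Q ∘ Prod.map j id) v U v' := by
  induction U generalizing v with
  | nil => rfl
  | cons d U ih => exact and_congr_right fun _ => ih

theorem GM.some (h : GM L l) : GM (L.map (Prod.map some id)) fun e => e.elim 1 l := by
  obtain ⟨P, v, v', a, b⟩ := h.dfc
  have m : ∀ e, (e, true) ∈ L → (Option.some e, true) ∈ L.map (Prod.map Option.some id) :=
    fun e he => List.mem_map.2 ⟨_, he, rfl⟩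
  refine ⟨h.nd.map ((Option.some_injective _).prodMap Function.injective_id), fun d hd => ?_,
    ⟨fun d => d.1.elim 1 fun e => P (e, d.2), v, v', (wk_comap _).2 a, b⟩, ?_,
    fun H _ μ P v v' c => ?_⟩
  · obtain ⟨x, hx, rfl⟩ := List.mem_map.1 hd
    exact List.mem_map.2 ⟨_, h.sp x hx, rfl⟩
  · rw [eq_top_iff, ← h.gen]
    exact Subgroup.closure_mono (by rintro _ ⟨e, he, rfl⟩; exact ⟨_, m e he, rfl⟩)
  · obtain ⟨φ, hφ⟩ := h.ext H _ _ v v' ((wk_comap _).1 c)
    refine ⟨φ, fun e he => ?_⟩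
    obtain ⟨⟨x, _⟩, hx, e'⟩ := List.mem_map.1 he
    cases e'
    exact hφ x hx

theorem GM.ins {A B : List (I × Bool)} (h : GM (A ++ B) l) {t : I × Bool} (ht : t ∉ A ++ B) :
    GM (A ++ t :: rev t :: B) (upd l t 1) := by
  classical
  have ht' : rev t ∉ A ++ B := fun e => ht (by simpa using h.sp _ e)
  have ne : ∀ x ∈ A ++ B, x ≠ t ∧ x ≠ rev t := fun x hx =>
    ⟨fun e => ht (e ▸ hx), fun e => ht' (e ▸ hx)⟩
  have mem : ∀ x, x ∈ A ++ t :: rev t :: B ↔ x = t ∨ x = rev t ∨ x ∈ A ++ B := fun x => by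
    simp only [List.mem_append, List.mem_cons]; tauto
  have up : ∀ x ∈ A ++ B, dlab (upd l t 1) x = dlab l x := fun x hx =>
    dlab_upd_ne _ _ (ne x hx).1 (ne x hx).2
  obtain ⟨P, v, v', a, b⟩ := h.dfc
  obtain ⟨u, a1, a2⟩ := wk_append.1 a
  refine ⟨?_, fun d hd => ?_, ⟨fun d => if d = t ∨ d = rev t then u else P d, v, v',
    wk_append.2 ⟨u, wk_congr a1 fun x hx => ?_, by simp, by simp [dlab_upd], ?_⟩, b⟩, ?_,
    fun H _ μ P v v' c => ?_⟩
  · rw [List.nodup_middle, List.nodup_cons, List.nodup_middle, List.nodup_cons]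
    refine ⟨fun e => ?_, ht', h.nd⟩
    rcases List.mem_append.1 e with e | e
    · exact ht (List.mem_append_left _ e)
    · rcases List.mem_cons.1 e with e | e
      exacts [rev_ne t e.symm, ht (List.mem_append_right _ e)]
  · rcases (mem d).1 hd with rfl | rfl | e
    exacts [by simp, by simp, (mem _).2 (.inr (.inr (h.sp d e)))]
  · have c := List.mem_append_left B hx
    simp only [ne x c, ne _ (h.sp x c), up _ (h.sp x c), or_self, if_false, and_self]
  · simp only [rev_rev, true_or, if_true, dlab_upd, mul_one]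
    refine wk_congr a2 fun x hx => ?_
    have c := List.mem_append_right A hx
    simp only [ne x c, ne _ (h.sp x c), up _ (h.sp x c), or_self, if_false, and_self]
  · rw [eq_top_iff, ← h.gen]
    exact Subgroup.closure_mono (by
      rintro _ ⟨e, he, rfl⟩; exact ⟨e, (mem _).2 (.inr (.inr he)), up _ he⟩)
  · obtain ⟨u, c1, c2, c3, c4⟩ := wk_append.1 c
    have e : dlab μ t = 1 := by simpa using c3
    rw [rev_rev, e, mul_one, c2] at c4
    obtain ⟨φ, hφ⟩ := h.dl (wk_append.2 ⟨u, c1, c4⟩)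
    refine ⟨φ, fun x hx => ?_⟩
    change φ (dlab (upd l t 1) (x, true)) = dlab μ (x, true)
    rcases (mem _).1 hx with e' | e' | e'
    · rw [e', dlab_upd, map_one, e]
    · rw [e', dlab_rev, dlab_rev, dlab_upd, e, map_inv, map_one]
    · rw [up _ e', hφ _ e']

open Classical in
theorem dlab_gau (K : List (I × Bool)) (u : H) (μ : I → H) (d : I × Bool) :
    dlab (gau K u μ) d =
      (if d ∈ K then u else 1) * dlab μ d * (if rev d ∈ K then u else 1)⁻¹ := by
  obtain ⟨e, _ | _⟩ := d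
  · simp only [dlab, gau, rev, cond_false, Bool.not_false]; group
  · rfl

theorem gau_gau (K : List (I × Bool)) (u w : H) (μ : I → H) :
    gau K u (gau K w μ) = gau K (u * w) μ := by
  funext e
  simp only [gau]
  split_ifs <;> group

theorem gau_one (K : List (I × Bool)) (μ : I → H) : gau K 1 μ = μ := by
  funext e; simp [gau]

theorem GM.gauge (h : GM L l) (hp : L.Perm L') {K : List (I × Bool)} {y : I × Bool} (hy : y ∈ L)
    (h1 : y ∉ K) (h2 : rev y ∉ K) (s : ℤ)
    (a : ∀ P v v', Wk l P v L v' → ∃ P', Wk (gau K (dlab l y ^ s) l) P' v L' v')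
    (b : ∀ (H : Type) [Group H] (μ : I → H) P v v', Wk μ P v L' v' →
      ∃ P', Wk (gau K (dlab μ y ^ (-s)) μ) P' v L v') : GM L' (gau K (dlab l y ^ s) l) := by
  have fx : ∀ {H : Type} [Group H] (μ : I → H) u, dlab (gau K u μ) y = dlab μ y := fun μ u => by
    simp [dlab_gau, h1, h2]
  obtain ⟨P, v, v', c, d⟩ := h.dfc
  obtain ⟨P', c'⟩ := a P v v' c
  refine ⟨hp.nodup_iff.1 h.nd, fun d hd => hp.subset (h.sp d (hp.symm.subset hd)),
    ⟨P', v, v', c', d⟩, ?_, fun H _ μ P v v' c => ?_⟩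
  · rw [eq_top_iff, ← h.gen, Subgroup.closure_le]
    rintro _ ⟨e, he, rfl⟩
    have k : dlab l y ∈ Subgroup.closure (gau K (dlab l y ^ s) l '' {e | (e, true) ∈ L'}) := by
      have : dlab (gau K (dlab l y ^ s) l) y ∈ Subgroup.closure
          (gau K (dlab l y ^ s) l '' {e | (e, true) ∈ L'}) :=
        dlab_mem'.2 (Subgroup.subset_closure ⟨_, hp.subset (h.live.1 hy), rfl⟩)
      rwa [fx] at this
    have : l e = gau K (dlab l y ^ (-s)) (gau K (dlab l y ^ s) l) e := by
      rw [gau_gau, ← zpow_add, neg_add_cancel, zpow_zero, gau_one]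
    rw [this, gau]
    refine mul_mem (mul_mem ?_ (Subgroup.subset_closure ⟨e, hp.subset he, rfl⟩)) (inv_mem ?_) <;>
      split_ifs
    exacts [zpow_mem k _, one_mem _, zpow_mem k _, one_mem _]
  · obtain ⟨P', c'⟩ := b H μ P v v' c
    obtain ⟨φ, hφ⟩ := h.dl c'
    refine ⟨φ, fun e he => ?_⟩
    have e1 : φ (l e) = _ := hφ _ (hp.symm.subset he)
    have : μ e = gau K (dlab μ y ^ s) (gau K (dlab μ y ^ (-s)) μ) e := by
      rw [gau_gau, ← zpow_add, add_neg_cancel, zpow_zero, gau_one]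
    rw [this, gau, gau, map_mul, map_mul, map_inv, e1, apply_ite φ, apply_ite φ, map_zpow,
      map_one, hφ y hy, fx]
    rfl

theorem wk_gau {K : List (I × Bool)} {y : I × Bool} (h1 : y ∉ K) (h2 : rev y ∉ K) (u w : H) :
    ∃ P' : I × Bool → H, P' (rev y) = w ∧ P' y = P y ∧ dlab (gau K u μ) y = dlab μ y ∧
      (∀ a b, Wk μ P a K b → Wk (gau K u μ) P' (a * u⁻¹) K (b * u⁻¹)) ∧
      ∀ W a b, (∀ x ∈ W, x ∉ K ∧ x ≠ y ∧ x ≠ rev y) → Wk μ P a W b → Wk (gau K u μ) P' a W b := by
  classical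
  have r : ∀ x, x ≠ y → rev x ≠ rev y := fun x a e => a ((revP I).injective e)
  refine ⟨fun d => if d = rev y then w else P d * (if d ∈ K then u else 1)⁻¹, if_pos rfl,
    by simp [(rev_ne y).symm, h1], by simp [dlab_gau, h1, h2],
    fun a b c => wk_map (· * u⁻¹) c fun x hx => ?_, fun W a b hW c => wk_congr c fun x hx => ?_⟩
  · have e1 : x ≠ rev y := fun e => h2 (e ▸ hx)
    have e2 := r x fun e => h1 (e ▸ hx)
    simp only [e1, e2, hx, if_true, if_false, dlab_gau, rev_rev, true_and]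
    group
  · obtain ⟨e1, e2, e3⟩ := hW x hx
    simp only [e1, e3, r x e2, if_false, dlab_gau, rev_rev, inv_one, mul_one, true_and]
    group

theorem rb_nd {α : Type} {A K B C : List α} {y z : α} (h : (A ++ y :: (K ++ B ++ z :: C)).Nodup) :
    y ∉ K ∧ z ∉ K ∧ ∀ x, x ∈ A ∨ x ∈ B ∨ x ∈ C → x ∉ K ∧ x ≠ y ∧ x ≠ z := by
  classical
  have c := List.nodup_iff_count_le_one.1 h
  simp only [List.count_append, List.count_cons] at c
  refine ⟨fun e => ?_, fun e => ?_, fun x hx => ⟨fun e => ?_, fun e => ?_, fun e => ?_⟩⟩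
  · have a := c y; have := List.count_pos_iff.2 e; simp only [beq_self_eq_true, if_true] at a; omega
  · have a := c z; have := List.count_pos_iff.2 e; simp only [beq_self_eq_true, if_true] at a; omega
  · have := c x; have := List.count_pos_iff.2 e
    simp only [← List.count_pos_iff] at hx; omega
  · have := c x; subst e; simp only [← List.count_pos_iff] at hx; simp at this; omega
  · have := c x; subst e; simp only [← List.count_pos_iff] at hx; simp at this; omega

theorem wk_slide {A K B C : List (I × Bool)} {y : I × Bool}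
    (hn : (A ++ y :: (K ++ B ++ rev y :: C)).Nodup) :
    (Wk μ P v (A ++ y :: (K ++ B ++ rev y :: C)) v' →
      ∃ P', Wk (gau K (dlab μ y ^ (-1 : ℤ)) μ) P' v (A ++ y :: (B ++ K ++ rev y :: C)) v') ∧
    (Wk μ P v (A ++ y :: (B ++ K ++ rev y :: C)) v' →
      ∃ P', Wk (gau K (dlab μ y ^ (1 : ℤ)) μ) P' v (A ++ y :: (K ++ B ++ rev y :: C)) v') := by
  obtain ⟨n1, n2, n3⟩ := rb_nd hn
  simp only [wk_append, Wk, rev_rev, dlab_rev, zpow_neg, zpow_one]
  constructor
  · rintro ⟨u1, a1, a2, u3, ⟨u2, a3, a4⟩, a5, a6⟩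
    obtain ⟨P', p1, p2, p3, p4, p5⟩ := wk_gau (μ := μ) (P := P) n1 n2 (dlab μ y)⁻¹ (u2 * dlab μ y)
    refine ⟨P', u1, p5 _ _ _ (fun x hx => n3 x (.inl hx)) a1, p2.trans a2, _, ⟨u3, ?_, ?_⟩, p1, ?_⟩
    · rw [p1, p3, mul_inv_cancel_right]
      exact p5 _ _ _ (fun x hx => n3 x (.inr (.inl hx))) a4
    · simpa [a5] using p4 _ _ a3
    · rw [p2, p3]; exact p5 _ _ _ (fun x hx => n3 x (.inr (.inr hx))) a6
  · rintro ⟨u1, a1, a2, u3, ⟨u2, a3, a4⟩, a5, a6⟩
    obtain ⟨P', p1, p2, p3, p4, p5⟩ := wk_gau (μ := μ) (P := P) n1 n2 (dlab μ y) u2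
    refine ⟨P', u1, p5 _ _ _ (fun x hx => n3 x (.inl hx)) a1, p2.trans a2, _,
      ⟨u3 * (dlab μ y)⁻¹, ?_, ?_⟩, p1, ?_⟩
    · rw [p1, p3]; exact p4 _ _ a4
    · rw [← a5]; exact p5 _ _ _ (fun x hx => n3 x (.inr (.inl hx))) a3
    · rw [p2, p3]; exact p5 _ _ _ (fun x hx => n3 x (.inr (.inr hx))) a6

theorem rb_perm {α : Type} (A K B C : List α) (y z : α) :
    (A ++ y :: (K ++ B ++ z :: C)).Perm (A ++ y :: (B ++ K ++ z :: C)) :=
  ((List.perm_append_comm.append_right _).cons y).append_left A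

theorem GM.slide {A K B C : List (I × Bool)} {y : I × Bool}
    (h : GM (A ++ y :: (K ++ B ++ rev y :: C)) l) :
    GM (A ++ y :: (B ++ K ++ rev y :: C)) (gau K (dlab l y)⁻¹ l) := by
  have := h.gauge (rb_perm ..) (by simp) (rb_nd h.nd).1 (rb_nd h.nd).2.1 (-1)
    (fun _ _ _ => (wk_slide h.nd).1) fun _ _ _ _ _ _ => (wk_slide h.nd).2
  rwa [zpow_neg_one] at this

theorem GM.slide' {A K B C : List (I × Bool)} {y : I × Bool}
    (h : GM (A ++ y :: (B ++ K ++ rev y :: C)) l) :
    GM (A ++ y :: (K ++ B ++ rev y :: C)) (gau K (dlab l y) l) := by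
  have n := (rb_perm A K B C y (rev y)).nodup_iff.2 h.nd
  have := h.gauge (rb_perm ..) (by simp) (rb_nd n).1 (rb_nd n).2.1 1
    (fun _ _ _ => (wk_slide n).2) fun _ _ _ _ _ _ => (wk_slide n).1
  rwa [zpow_one] at this

end Pool.Agent.MP_596265_gt.U

end

section

/-! Ribbon calculus, part b: cyclic lists, rotation of the cut and deletion of edges. -/

namespace Pool.Agent.MP_596265_gt.U

open Erg

/-- `P x` is the value before `x` and `Q x` the value after `x`. -/
def Gk {α C : Type} (P Q : α → C) : C → List α → C → Prop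
  | v, [], v' => v = v'
  | v, x :: U, v' => P x = v ∧ Gk P Q (Q x) U v'

/-- `L` is a cycle of `s` from `x` to `q`. -/
structure Cy {α : Type} (s : α → α) (L : List α) (x q : α) : Prop where
  nd : L.Nodup
  ex : ∃ D T, L = D ++ [q] ∧ L = x :: T
  ch : L.IsChain fun a b => b = s a
  cl : s q = x

section
variable {α C : Type} {P Q : α → C} {v v' : C} {U V L : List α} {s : α → α} {x q : α}

theorem gk_append : Gk P Q v (U ++ V) v' ↔ ∃ u, Gk P Q v U u ∧ Gk P Q u V v' := by
  induction U generalizing v with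
  | nil => simp only [List.nil_append, Gk, exists_eq_left']
  | cons d U ih => simp only [List.cons_append, Gk, ih, exists_and_left, and_assoc]

theorem gk_map {β : Type} (f : β → α) {U : List β} :
    Gk P Q v (U.map f) v' ↔ Gk (P ∘ f) (Q ∘ f) v U v' := by
  induction U generalizing v with
  | nil => rfl
  | cons d U ih => exact and_congr_right fun _ => ih

theorem gk_const (h : ∀ d ∈ U, P d = v ∧ Q d = v) : Gk P Q v U v := by
  induction U with
  | nil => rfl
  | cons d U ih =>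
    exact ⟨(h d (by simp)).1, by rw [(h d (by simp)).2]; exact ih fun a ha => h a (by simp [ha])⟩

theorem gk_chain {T : List α} (h : (U ++ [q]).IsChain fun a b => b = s a) (hx : U ++ [q] = x :: T) :
    Gk P Q v U (P q) ↔ P x = v ∧ ∀ a ∈ U, P (s a) = Q a := by
  induction U generalizing x T v with
  | nil => cases hx; simp [Gk, eq_comm]
  | cons a U ih =>
    cases hx
    obtain ⟨y, T, e⟩ := List.exists_cons_of_ne_nil (l := U ++ [q]) (by simp)
    rw [List.cons_append, e, List.isChain_cons_cons] at h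
    rw [Gk, ih (e ▸ h.2) e, h.1, List.forall_mem_cons]

theorem Cy.gk (h : Cy s L x q) :
    Gk P Q v L v' ↔ P x = v ∧ (∀ a ∈ L, a ≠ q → P (s a) = Q a) ∧ Q q = v' := by
  obtain ⟨D, T, rfl, e⟩ := h.ex
  have hq : q ∉ D := fun c => (List.nodup_append.1 h.nd).2.2 q c q (by simp) rfl
  simp only [gk_append, Gk, gk_chain h.ch e, exists_and_right, ← and_assoc, exists_eq_right']
  refine and_congr_left fun _ => and_congr_right fun _ => ⟨fun c a ha hq => c a (by simpa [hq] using ha),
    fun c a ha => c a (by simp [ha]) fun e => hq (e ▸ ha)⟩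

theorem Cy.mem (h : Cy s L x q) {a : α} (ha : a ∈ L) : s a ∈ L := by
  by_cases e : a = q
  · obtain ⟨D, T, -, c⟩ := h.ex
    rw [e, h.cl, c]; simp
  · obtain ⟨A, B, rfl⟩ := List.append_of_mem ha
    cases B with
    | nil =>
      obtain ⟨D, T, c, -⟩ := h.ex
      exact absurd (List.append_inj_right' c rfl) (by simpa using e)
    | cons b B => rw [← (List.isChain_append_cons_cons.1 h.ch).2.1]; simp

theorem Cy.rot (h : Cy s (x :: U) x q) (hU : U ≠ []) : Cy s (U ++ [x]) (s x) x := by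
  obtain ⟨y, T, rfl⟩ := List.exists_cons_of_ne_nil hU
  obtain ⟨D, -, c, -⟩ := h.ex
  have e := List.isChain_cons_cons.1 h.ch
  refine ⟨List.perm_append_comm.nodup_iff.1 h.nd, ⟨_, T ++ [x], rfl, by rw [← e.1]; rfl⟩,
    List.isChain_append.2 ⟨e.2, by simp, fun a ha b hb => ?_⟩, rfl⟩
  have : (x :: y :: T).getLast? = some q := by rw [c]; simp
  rw [List.getLast?_cons_cons, Option.mem_def.1 ha] at this
  simp only [List.head?_cons, Option.mem_def, Option.some.injEq] at hb this
  rw [this, h.cl, hb]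

theorem cy_form (hn : (x :: U).Nodup) : ∃ (s : Equiv.Perm α) (q : α), Cy s (x :: U) x q := by
  classical
  refine ⟨(x :: U).formPerm, (x :: U).getLast (by simp), hn,
    ⟨_, U, (List.dropLast_append_getLast _).symm, rfl⟩, List.isChain_iff_getElem.2 fun i hi => ?_,
    List.formPerm_apply_getLast ..⟩
  exact (List.formPerm_apply_lt_getElem _ hn i hi).symm

theorem cy_orbit [Finite α] (s : Equiv.Perm α) (x : α) :
    ∃ w z, Cy s w x z ∧ ∀ y, y ∈ w ↔ s.SameCycle x y := by
  have hp := Function.minimalPeriod_pos_of_mem_periodicPts (s.injective.mem_periodicPts x)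
  obtain ⟨N, hN⟩ := Nat.exists_eq_succ_of_ne_zero hp.ne'
  refine ⟨(List.range (N + 1)).map fun k => s^[k] x, s^[N] x, ⟨?_, ⟨(List.range N).map fun k => s^[k] x,
    (List.range N).map fun k => s^[k + 1] x, by simp [List.range_succ],
    by rw [List.range_succ_eq_map, List.map_cons, List.map_map]; rfl⟩, ?_, ?_⟩, fun y => ⟨fun c => ?_, fun c => ?_⟩⟩
  · refine (List.nodup_range).map_on fun a ha b hb e => Function.iterate_injOn_Iio_minimalPeriod
      ?_ ?_ e <;> rw [hN]
    exacts [List.mem_range.1 ha, List.mem_range.1 hb]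
  · exact (List.isChain_map _).2 ((List.isChain_range_succ _ _).2 fun m _ =>
      Function.iterate_succ_apply' ..)
  · rw [← Function.iterate_succ_apply' s, ← hN, Function.iterate_minimalPeriod]
  · obtain ⟨k, -, rfl⟩ := List.mem_map.1 c
    exact ⟨k, by rw [zpow_natCast, Equiv.Perm.iterate_eq_pow]⟩
  · obtain ⟨k, rfl⟩ := c.exists_nat_pow_eq
    refine List.mem_map.2 ⟨k % Function.minimalPeriod s x, List.mem_range.2 ?_, ?_⟩
    · exact (Nat.mod_lt _ hp).trans_eq hN
    · rw [Function.iterate_mod_minimalPeriod_eq, Equiv.Perm.iterate_eq_pow]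

theorem cy_arc [Finite α] {n : Equiv.Perm α} {y : α} (h : n.SameCycle x y) (hy : n y ≠ x) :
    ∃ η : α → Prop, η x ∧ η y ∧ ¬ η (n y) ∧ (∀ d, n d = x → ¬ η d) ∧
      ∀ d, d ≠ y → n d ≠ x → (η (n d) ↔ η d) := by
  obtain ⟨w, z, c, m⟩ := cy_orbit n x
  obtain ⟨A, B, rfl⟩ := List.append_of_mem ((m y).2 h)
  have k : ∀ {D T : List α} {a b : α}, A ++ y :: B = D ++ a :: b :: T → b = n a := fun e => by
    have := c.ch
    rw [e] at this
    exact (List.isChain_append_cons_cons.1 this).2.1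
  obtain ⟨D, T, e1, e2⟩ := c.ex
  have nd := List.nodup_append.1 (show ((A ++ [y]) ++ B).Nodup by simpa using c.nd)
  cases B with
  | nil => exact absurd c.cl (by rwa [← List.singleton_inj.1 (List.append_inj_right' e1 rfl)])
  | cons b B =>
    refine ⟨(· ∈ A ++ [y]), ?_, by simp, fun e => nd.2.2 _ e b (by simp) (k rfl).symm,
      fun d hd e => nd.2.2 _ e z ?_ (n.injective (hd.trans c.cl.symm)), fun d h1 h2 => ⟨fun e => ?_,
      fun e => ?_⟩⟩
    · cases A <;> rw [← (List.cons.inj e2).1] <;> simp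
    · have := congrArg List.getLast? e1
      rw [List.getLast?_append_cons, List.getLast?_cons_cons, List.getLast?_concat] at this
      exact List.mem_of_getLast? this
    · obtain ⟨D, T', e3⟩ := List.append_of_mem e
      rcases List.eq_nil_or_concat D with rfl | ⟨D, a, rfl⟩
      · have : A ++ [y] ++ b :: B = x :: T := by simpa using e2
        rw [e3] at this
        exact absurd (List.cons.inj this).1 h2
      · have := k (D := D) (T := T' ++ b :: B) (a := a) (b := n d)
          (by simpa using congrArg (· ++ b :: B) e3)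
        rw [n.injective this, e3]; simp
    · obtain ⟨D, T', rfl⟩ := List.append_of_mem ((List.mem_append.1 e).resolve_right (by simpa))
      obtain ⟨a, T'', e3⟩ := List.exists_cons_of_ne_nil (l := T' ++ [y]) (by simp)
      rw [← k (D := D) (T := T'' ++ b :: B) (a := d) (b := a)
        (by simpa using congrArg (· ++ b :: B) e3), List.append_assoc, List.cons_append, e3]
      simp

end

variable {g : ℕ} {I : Type} {H H' : Type} [Group H] [Group H'] {μ : I → H} {P : I × Bool → H}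
  {v v' : H} {U V L A B C : List (I × Bool)} {l : I → Fr g} {x y q : I × Bool}

theorem wk_gk : Wk μ P v U v' ↔ Gk P ((fun x => P x * dlab μ x) ∘ rev) v U v' := by
  induction U generalizing v with
  | nil => rfl
  | cons d U ih => exact and_congr_right fun _ => ih

open Classical in
theorem Cy.col {s : Equiv.Perm (I × Bool)} (h : Cy s L x q) : Wk (fun _ => 1)
    (fun d => if (s * revP I).SameCycle x d then (1 : Multiplicative (ZMod 2)) else .ofAdd 1) 1 L 1 := by
  have k : ∀ a, (s * revP I).SameCycle x (s a) ↔ (s * revP I).SameCycle x (rev a) := fun a => by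
    rw [show s a = (s * revP I) (rev a) by simp only [Equiv.Perm.coe_mul, Function.comp_apply, revP_apply, rev_rev]]; exact Equiv.Perm.sameCycle_apply_right
  refine wk_gk.2 (h.gk.2 ⟨if_pos (.refl _ _), fun a _ _ => by simp only [k, dlab_one, mul_one, Function.comp_apply], ?_⟩)
  simp only [dlab_one, mul_one, Function.comp_apply, ← k, h.cl, Equiv.Perm.SameCycle.refl, ↓ reduceIte]

open Classical in
theorem wk_upd (hx : x ∉ U) (h : Wk μ P v U v') {p w : H} (e : p * w = P x * dlab μ x) :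
    Wk (upd μ x w) (Function.update P x p) v U v' := by
  refine wk_congr h fun d hd => ?_
  have a : d ≠ x := fun c => hx (c ▸ hd)
  refine ⟨Function.update_of_ne a _ _, ?_⟩
  by_cases c : rev d = x
  · rw [c, Function.update_self, dlab_upd, e]
  · rw [Function.update_of_ne c, dlab_upd_ne _ _ c fun e => a ((revP I).injective e)]

theorem GM.rot1 [Finite I] (h : GM (x :: U) l) :
    ∃ l', GM (U ++ [x]) l' ∧ ∀ e, Cg (l e) (l' e) := by
  classical
  obtain ⟨s, q, c⟩ := cy_form h.nd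
  have hx : x ∉ U := (List.nodup_cons.1 h.nd).1
  have hr : rev x ∈ U := (List.mem_cons.1 (h.sp x (by simp))).resolve_left (rev_ne x)
  have c' := c.rot (List.ne_nil_of_mem hr)
  have hp : (x :: U).Perm (U ++ [x]) := List.perm_append_comm (l₁ := [x])
  have sp : ∀ d ∈ U ++ [x], rev d ∈ U ++ [x] := fun d hd => hp.subset (h.sp d (hp.symm.subset hd))
  obtain ⟨P, v, v', a, b⟩ := h.dfc
  by_cases hs : (s * revP I).SameCycle x (rev x)
  · have hq : x ≠ q := fun e => by
      obtain ⟨D, T, e1, -⟩ := c.ex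
      have := congrArg List.getLast? e1
      rw [List.getLast?_cons_of_ne_nil (List.ne_nil_of_mem hr), List.getLast?_concat] at this
      exact hx (e ▸ List.mem_of_getLast? this)
    obtain ⟨η, n1, n2, n3, n4, n5⟩ := cy_arc hs fun e =>
      hq (s.injective (Eq.trans (by simpa only [Equiv.Perm.coe_mul, Function.comp_apply, revP_apply, rev_rev] using e) c.cl.symm))
    have n6 := n4 (rev q) (by simpa only [Equiv.Perm.coe_mul, Function.comp_apply, revP_apply, rev_rev] using c.cl)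
    simp only [Equiv.Perm.mul_apply, revP_apply, rev_rev] at n3 n5
    have k : ∀ {H : Type} [Group H] (μ : I → H) (P : I × Bool → H) (k : H) a, a ≠ x → a ≠ q →
        P (s a) = P (rev a) * dlab μ (rev a) → (if η (s a) then k else 1) * P (s a) =
          (if η (rev a) then k else 1) * P (rev a) * dlab μ (rev a) := fun μ P k a a1 a2 e => by
      have := n5 (rev a) (fun e => a1 ((revP I).injective e))
        (by rw [rev_rev]; exact fun e => a2 (s.injective (e.trans c.cl.symm)))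
      rw [rev_rev] at this
      simp only [this, e, mul_assoc]
    obtain ⟨a1, a2, a3⟩ := c.gk.1 (wk_gk.1 a)
    refine ⟨l, ⟨c'.nd, sp, ⟨fun d => (if η d then v' * v⁻¹ else 1) * P d, _, _,
      wk_gk.2 (c'.gk.2 ⟨rfl, fun d hd e => ?_, rfl⟩), ?_⟩, ?_, fun H _ μ P u u' a => ?_⟩,
      fun _ => Cg.refl _⟩
    · by_cases e' : d = q
      · simpa [e', c.cl, n1, n6, a1] using a3.symm
      · exact k l P _ d e e' (a2 d (hp.symm.subset hd) e')
    · refine IsConj.trans (isConj_iff.2 ⟨v⁻¹ * P (s x), ?_⟩) b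
      have := a2 x (by simp) hq
      simp only [Function.comp, n2, n3, if_true, if_false] at this ⊢
      rw [mul_assoc _ (P (rev x)), ← this]; group
    · simpa only [hp.mem_iff] using h.gen
    · obtain ⟨a1, a2, a3⟩ := c'.gk.1 (wk_gk.1 a)
      simpa only [hp.mem_iff] using h.ext H μ (fun d => (if η d then u * u'⁻¹ else 1) * P d) _ _
        (wk_gk.2 (c.gk.2 ⟨rfl, fun d hd e => by
          by_cases e' : d = x
          · simp only [Function.comp] at a3
            simp only [e', n3, ↓ reduceIte, a1, one_mul, ite_mul, mul_assoc, Function.comp_apply, n2, a3, inv_mul_cancel, mul_one]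
          · exact k μ P _ d e' e (a2 d (hp.subset hd) e'), rfl⟩))
  · have up : ∀ {H : Type} [Group H] (P : I × Bool → H) p, Function.update P x p (rev x) = P (rev x) :=
      fun P p => Function.update_of_ne (rev_ne x) _ _
    refine ⟨upd l x (v'⁻¹ * v * dlab l x), ⟨c'.nd, sp, ⟨Function.update P x v', _, _, wk_append.2
      ⟨v', wk_upd hx a.2 (by rw [a.1]; group), by simp, rfl⟩, ?_⟩, ?_, fun H _ μ Q u u' a' => ?_⟩,
      fun e => ?_⟩
    · convert b using 1
      rw [up, dlab_rev, dlab_rev, dlab_upd]; group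
    · rw [eq_top_iff, ← h.gen, Subgroup.closure_le]
      have k : ∀ d ∈ x :: U, d.1 ≠ x.1 → dlab l d ∈ Subgroup.closure
          (upd l x (v'⁻¹ * v * dlab l x) '' {e | (e, true) ∈ U ++ [x]}) := fun d hd e =>
        dlab_mem'.2 (Subgroup.subset_closure ⟨_, hp.subset (h.live.1 hd), upd_ne _ _ e⟩)
      rintro _ ⟨e, he, rfl⟩
      by_cases e' : e = x.1
      · exact e' ▸ dlab_mem'.1 (wk_sep h.nd h.sp a c.col (by simp)
          (by simp only [hs, Equiv.Perm.SameCycle.refl, if_true, if_false]; decide) _ k)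
      · exact k _ he e'
    · obtain ⟨t, a1, a2, a3⟩ := wk_append.1 a'
      replace a3 : Q (rev x) * (dlab μ x)⁻¹ = u' := by rw [← dlab_rev]; exact a3
      have w : Wk (upd μ x (u⁻¹ * Q (rev x))) (Function.update Q x (t * u'⁻¹ * u)) (t * u'⁻¹ * u)
          (x :: U) t := ⟨by simp, by
        convert wk_upd hx a1 (p := t * u'⁻¹ * u) (w := u⁻¹ * Q (rev x)) (by rw [a2, ← a3]; group)
        rw [up, dlab_rev, dlab_upd]; group⟩
      obtain ⟨φ, hφ⟩ := h.dl w
      have e := h.hom_defect w hφ a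
      have k : ∀ d ∈ x :: U, φ (dlab (upd l x (v'⁻¹ * v * dlab l x)) d) = dlab μ d := fun d hd => by
        have : φ (dlab (upd l x (v'⁻¹ * v * dlab l x)) x) = dlab μ x := by
          rw [dlab_upd, show v'⁻¹ * v = (v⁻¹ * v')⁻¹ by group, map_mul, map_inv, e, hφ x (by simp),
            dlab_upd, ← a3]
          group
        by_cases e1 : d = x
        · rwa [e1]
        by_cases e2 : d = rev x
        · rw [e2, dlab_rev, dlab_rev, map_inv, this]
        · rw [dlab_upd_ne _ _ e1 e2, hφ d hd, dlab_upd_ne _ _ e1 e2]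
      exact ⟨φ, fun e he => k _ (hp.symm.subset he)⟩
    · have k : Cg (dlab l x) (dlab (upd l x (v'⁻¹ * v * dlab l x)) x) := by
        rw [dlab_upd]
        simpa only [inv_one, one_mul, mul_inv_rev, inv_inv] using ((cg_one.2 (mem_NN_of_conj b)).inv.symm.mul (Cg.refl (dlab l x)))
      by_cases e' : e = x.1
      · obtain ⟨x, _ | _⟩ := x <;> subst e'
        exacts [by simpa only [dlab, cond_false, inv_inv] using k.inv, k]
      · rw [upd_ne _ _ e']; exact Cg.refl _

theorem GM.rot [Finite I] (h : GM (A ++ B) l) : ∃ l', GM (B ++ A) l' ∧ ∀ e, Cg (l e) (l' e) := by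
  induction A generalizing B l with
  | nil => exact ⟨l, by simpa using h, fun _ => Cg.refl _⟩
  | cons x A ih =>
    obtain ⟨m, a, b⟩ := GM.rot1 h
    obtain ⟨m', a', b'⟩ := ih (B := B ++ [x]) (by simpa using a)
    exact ⟨m', by simpa using a', fun e => (b e).trans (b' e)⟩

theorem rb_nd' {α : Type} {A B C : List α} {y z : α} (h : (A ++ y :: (B ++ z :: C)).Nodup) {x : α}
    (hx : x ∈ A ++ B ++ C) : x ≠ y ∧ x ≠ z :=
  ((rb_nd (K := []) h).2.2 x (by simpa using hx)).2

theorem wk_del {ε : I × Bool → H'} {b : H'}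
    (h : Wk μ P v (A ++ y :: (B ++ rev y :: C)) v')
    (he : Wk (fun _ => 1) ε b (A ++ y :: (B ++ rev y :: C)) b) (h1 : ε y ≠ ε (rev y)) :
    ∃ Q a, Wk μ Q v A a ∧ Wk μ Q a B (a * dlab μ y) ∧ Wk μ Q (a * dlab μ y) C v' := by
  classical
  obtain ⟨s, s1, s2⟩ : ∃ s : H' → H, s b = 1 ∧
      s (ε (rev y)) * P (rev y) = s (ε y) * P y * dlab μ y := by
    by_cases e : ε y = b
    · exact ⟨fun c => if c = b then 1 else P y * dlab μ y * (P (rev y))⁻¹, by simp,
        by simp [e, (e ▸ h1).symm]⟩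
    · exact ⟨fun c => if c = ε y then P (rev y) * (P y * dlab μ y)⁻¹ else 1, by simp [Ne.symm e],
        by simp [h1.symm, mul_assoc]⟩
  have := wk_map (μ' := μ) (P' := fun d => s (ε d) * P d) (fun x : H × H' => s x.2 * x.1)
    (wk_prod h he) fun x _ => ⟨rfl, by simp [dlab_pair, mul_assoc]⟩
  simp only [s1, one_mul, wk_append, Wk, rev_rev, s2, dlab_rev, mul_inv_cancel_right] at this
  obtain ⟨_, a1, rfl, _, a2, rfl, a3⟩ := this
  exact ⟨_, _, a1, a2, a3⟩

theorem wk_undel (hn : (A ++ y :: (B ++ rev y :: C)).Nodup) {a a' : H} (h1 : Wk μ P v A a)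
    (h2 : Wk μ P a B a') (h3 : Wk μ P a' C v') : ∃ Q, (∀ d, d.1 ≠ y.1 → Q d = P d) ∧
      Wk (upd μ y (a⁻¹ * a')) Q v (A ++ y :: (B ++ rev y :: C)) v' := by
  classical
  have k : ∀ d ∈ A ++ B ++ C, (if d = y then a else if d = rev y then a' else P d) = P d ∧
      (if rev d = y then a else if rev d = rev y then a' else P (rev d)) *
        dlab (upd μ y (a⁻¹ * a')) (rev d) = P (rev d) * dlab μ (rev d) := fun d hd => by
    obtain ⟨e1, e2⟩ := rb_nd' hn hd
    have e3 : rev d ≠ y := fun e => e2 (by rw [← e, rev_rev])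
    have e4 : rev d ≠ rev y := fun e => e1 ((revP I).injective e)
    simp only [e1, e2, e3, e4, if_false, dlab_upd_ne _ _ e3 e4, and_self]
  refine ⟨fun d => if d = y then a else if d = rev y then a' else P d, fun d e => ?_,
    wk_append.2 ⟨a, wk_congr h1 fun d hd => k d (by simp [hd]), if_pos rfl, ?_⟩⟩
  · exact (if_neg fun c => e (by rw [c])).trans (if_neg fun c => e (by rw [c, rev_fst]))
  · simp only [rev_ne y, if_false, if_true, dlab_rev, dlab_upd, mul_inv_rev, inv_inv,
      mul_inv_cancel_left]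
    refine wk_append.2 ⟨a', wk_congr h2 fun d hd => k d (by simp [hd]), by simp [rev_ne y], ?_⟩
    simp only [rev_rev, if_true, dlab_upd, mul_inv_cancel_left]
    exact wk_congr h3 fun d hd => k d (by simp [hd])

theorem GM.del (h : GM (A ++ y :: (B ++ rev y :: C)) l) {ε : I × Bool → H'} {b : H'}
    (he : Wk (fun _ => 1) ε b (A ++ y :: (B ++ rev y :: C)) b) (h1 : ε y ≠ ε (rev y)) :
    GM (A ++ B ++ C) l := by
  obtain ⟨P, v, v', a, c⟩ := h.dfc
  obtain ⟨Q, u, a1, a2, a3⟩ := wk_del a he h1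
  have sub : (A ++ B ++ C).Sublist (A ++ y :: (B ++ rev y :: C)) := by
    rw [List.append_assoc]
    exact (((List.sublist_cons_self _ _).append_left B).cons y).append_left A
  have m : ∀ d ∈ A ++ y :: (B ++ rev y :: C), d.1 ≠ y.1 → d ∈ A ++ B ++ C := fun d hd e => by
    have e1 : d ≠ y := fun c => e (by rw [c])
    have e2 : d ≠ rev y := fun c => e (by rw [c, rev_fst])
    simpa [e1, e2] using hd
  have m' : ∀ d ∈ A ++ B ++ C, d.1 ≠ y.1 := fun d hd e =>
    (ts_eq_or_rev e).elim (rb_nd' h.nd hd).1 (rb_nd' h.nd hd).2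
  refine ⟨h.nd.sublist sub, fun d hd => m _ (h.sp d (sub.subset hd)) (m' d hd),
    ⟨Q, v, v', wk_append.2 ⟨_, wk_append.2 ⟨_, a1, a2⟩, a3⟩, c⟩, ?_, fun H _ μ P v v' a => ?_⟩
  · rw [eq_top_iff, ← h.gen, Subgroup.closure_le]
    have k : ∀ d ∈ A ++ y :: (B ++ rev y :: C), d.1 ≠ y.1 → dlab l d ∈ Subgroup.closure
        (l '' {e | (e, true) ∈ A ++ B ++ C}) := fun d hd e =>
      dlab_mem'.2 (Subgroup.subset_closure ⟨_, m _ (h.live.1 hd) e, rfl⟩)
    rintro _ ⟨e, he', rfl⟩
    by_cases e' : e = y.1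
    · exact e' ▸ dlab_mem'.1 (wk_sep h.nd h.sp a he (by simp) h1 _ k)
    · exact k _ he' e'
  · obtain ⟨_, a0, a3⟩ := wk_append.1 a
    obtain ⟨_, a1, a2⟩ := wk_append.1 a0
    obtain ⟨Q, -, c⟩ := wk_undel h.nd a1 a2 a3
    obtain ⟨φ, hφ⟩ := h.ext H _ _ _ _ c
    exact ⟨φ, fun e he => (hφ e (sub.subset he)).trans (upd_ne _ _ (m' _ he))⟩

end Pool.Agent.MP_596265_gt.U

end

section

/-! Ribbon calculus, part c: maps with one face, simple loops and handles. -/

namespace Pool.Agent.MP_596265_gt.U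

open Erg

variable {g : ℕ} {I : Type} {H : Type} [Group H] {μ : I → H} {P : I × Bool → H}
  {v v' : H} {U L A B C D w : List (I × Bool)} {l : I → Fr g} {x y : I × Bool}

/-- Both sides of the edges outside `S` lie on the same face. -/
def Uni (S : Set I) (L : List (I × Bool)) : Prop :=
  ∀ (ε : I × Bool → Multiplicative (ZMod 2)) b, Wk (fun _ => 1) ε b L b →
    ∀ y ∈ L, y.1 ∉ S → ε y = ε (rev y)

theorem rb_split (h1 : x ∈ L) (h2 : rev x ∈ L) :
    ∃ y A B C, (y = x ∨ y = rev x) ∧ L = A ++ y :: (B ++ rev y :: C) := by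
  obtain ⟨A, B, rfl⟩ := List.append_of_mem h1
  rcases List.mem_append.1 h2 with e | e
  · obtain ⟨C, D, rfl⟩ := List.append_of_mem e
    exact ⟨rev x, C, D, B, .inr rfl, by simp⟩
  · obtain ⟨C, D, rfl⟩ := List.append_of_mem ((List.mem_cons.1 e).resolve_left (rev_ne x))
    exact ⟨x, A, C, D, .inl rfl, rfl⟩

open Classical in
theorem GM.reduce (h : GM L l) (S : Set I) :
    ∃ L', GM L' l ∧ Uni S L' ∧ L'.filter (·.1 ∈ S) = L.filter (·.1 ∈ S) := by
  induction hn : L.length using Nat.strong_induction_on generalizing L with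
  | _ N ih =>
  by_cases c : Uni S L
  · exact ⟨L, h, c, rfl⟩
  simp only [Uni, not_forall] at c
  obtain ⟨ε, b, he, x, hx, hS, h1⟩ := c
  obtain ⟨y, A, B, C, e, rfl⟩ := rb_split hx (h.sp x hx)
  have hy : y.1 ∉ S := by rcases e with rfl | rfl <;> exact hS
  obtain ⟨L', a1, a2, a3⟩ := ih _ (by simp only [List.append_assoc, List.length_append, ← hn, List.length_cons, add_lt_add_iff_left, Order.lt_add_one_iff, add_le_add_iff_left, le_add_iff_nonneg_right, zero_le]) (h.del he (by
    rcases e with rfl | rfl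
    exacts [h1, by rw [rev_rev]; exact Ne.symm h1])) rfl
  exact ⟨L', a1, a2, by simp [a3, hy]⟩

theorem wk_const {ε : I × Bool → H} (h : Wk (fun _ => 1) ε v U v') (hU : ∀ y ∈ U, ε y = ε (rev y)) :
    v = v' ∧ ∀ y ∈ U, ε y = v := by
  induction U generalizing v with
  | nil => exact ⟨h, by simp⟩
  | cons d U ih =>
    obtain ⟨rfl, h⟩ := h
    rw [dlab_one, mul_one, ← hU d (by simp)] at h
    simpa only [List.mem_cons, forall_eq_or_imp, Prod.forall, Bool.forall_bool, true_and] using ih h fun y hy => hU y (by simp [hy])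

theorem fk_lab (h : Gk P (fun d => P d * dlab μ d) v U v') : v' = v * lab μ U := by
  induction U generalizing v with
  | nil => simpa using Eq.symm h
  | cons d U ih => rw [ih h.2, ← h.1, lab_cons, mul_assoc]

theorem fk_ex (μ : I → H) (hn : U.Nodup) (v : H) :
    ∃ P v', Gk P (fun d => P d * dlab μ d) v U v' := by
  classical
  induction U generalizing v with
  | nil => exact ⟨1, v, rfl⟩
  | cons d U ih =>
    obtain ⟨hd, hn'⟩ := List.nodup_cons.1 hn
    obtain ⟨P, v', h⟩ := ih hn' (v * dlab μ d)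
    refine ⟨Function.update P d v, v', by simp, ?_⟩
    simp only [Function.update_self]
    generalize v * dlab μ d = u at h
    clear ih hn hn'
    induction U generalizing u with
    | nil => exact h
    | cons a U ih =>
      have e : Function.update P d v a = P a := Function.update_of_ne (fun c => hd (by simp [c])) _ _
      exact ⟨e.trans h.1, by simp only [e]; exact ih (fun c => hd (by simp [c])) _ h.2⟩

theorem GM.face [Finite I] (h : GM L l) (hu : Uni ∅ L) (hL : L ≠ []) :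
    ∃ w, Bas l w ∧ (∀ d, d ∈ w ↔ d ∈ L) ∧ ∀ (C : Type) (P Q : I × Bool → C) v v',
      Gk P (Q ∘ rev) v L v' ↔ Gk P Q v w v' := by
  classical
  obtain ⟨x, T, rfl⟩ := List.exists_cons_of_ne_nil hL
  obtain ⟨s, q, c⟩ := cy_form h.nd
  obtain ⟨w, z, c', m⟩ := cy_orbit (s * revP I) x
  obtain rfl : z = rev q := (s * revP I).injective (by rw [c'.cl]; simp only [Equiv.Perm.coe_mul, Function.comp_apply, revP_apply, rev_rev, c.cl])
  have hm : ∀ d, d ∈ w ↔ d ∈ x :: T := fun d => (m d).trans ⟨fun e => ?_, fun e => ?_⟩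
  rotate_left
  · obtain ⟨k, rfl⟩ := e.exists_nat_pow_eq
    clear e
    induction k with
    | zero => simp only [pow_zero, Equiv.Perm.coe_one, id_eq, List.mem_cons, true_or]
    | succ k ih => rw [pow_succ', Equiv.Perm.mul_apply]; exact c.mem (h.sp _ ih)
  · have := (wk_const c.col fun y hy => hu _ _ c.col y hy id).2 d e
    by_contra e'
    rw [if_neg e'] at this
    exact absurd this (by decide)
  have du : ∀ (C : Type) (P Q : I × Bool → C) v v',
      Gk P (Q ∘ rev) v (x :: T) v' ↔ Gk P Q v w v' := fun C P Q v v' => by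
    rw [c.gk, c'.gk]
    refine and_congr_right fun _ => and_congr_left fun _ => ⟨fun k a ha e => ?_, fun k a ha e => ?_⟩
    · simpa only [Equiv.Perm.coe_mul, Function.comp_apply, revP_apply, rev_rev] using k (rev a) (h.sp a ((hm a).1 ha)) fun e' => e (by rw [← e', rev_rev])
    · simpa using k (rev a) ((hm _).2 (h.sp a ha)) fun e' => e ((revP I).injective e')
  refine ⟨w, ?_, hm, du⟩
  obtain ⟨P, v, v', a, b⟩ := h.dfc
  let B := {e : I // (e, true) ∈ x :: T}
  let f : FreeGroup B →* Fr g := FreeGroup.lift fun b => l b.1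
  obtain ⟨Q, u, hQ⟩ := fk_ex (fun e => if he : (e, true) ∈ x :: T then FreeGroup.of (⟨e, he⟩ : B)
    else 1) c'.nd 1
  obtain ⟨φ, hφ⟩ := h.ext _ _ _ _ _ (wk_gk.2 ((du ..).2 hQ))
  have hl : φ.comp f = MonoidHom.id _ := FreeGroup.ext_hom _ _ fun b => by
    rw [MonoidHom.comp_apply, FreeGroup.lift_apply_of, hφ _ b.2, dif_pos b.2]
    rfl
  have hi : Function.Injective f := Function.LeftInverse.injective (DFunLike.congr_fun hl)
  have hs : Function.Surjective f := by
    rw [← MonoidHom.range_eq_top, eq_top_iff, ← h.gen, Subgroup.closure_le]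
    rintro _ ⟨e, he, rfl⟩
    exact ⟨.of ⟨e, he⟩, FreeGroup.lift_apply_of⟩
  let q : B ≃ Gen g := Equiv.ofFreeGroupEquiv (MulEquiv.ofBijective f ⟨hi, hs⟩)
  refine ⟨c'.nd, by rwa [fk_lab ((du ..).1 (wk_gk.1 a)), inv_mul_cancel_left] at b,
    fun x => (q.symm x).1,
    (FreeGroup.freeGroupCongr q.symm).trans (MulEquiv.ofBijective f ⟨hi, hs⟩),
    Subtype.val_injective.comp q.symm.injective,
    fun x => (congrArg f FreeGroup.map.of).trans FreeGroup.lift_apply_of, fun d => ((hm d).trans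
      h.live).trans ⟨fun e => ⟨q ⟨_, e⟩, by simp⟩, fun ⟨x, e⟩ => e ▸ (q.symm x).2⟩⟩

theorem Bas.rot (h : Bas l (A ++ B)) : Bas l (B ++ A) :=
  ⟨List.perm_append_comm.nodup_iff.1 h.nd, IsConj.trans (isConj_iff.2 ⟨lab l A, by simp [mul_assoc]⟩)
    h.val, by simpa only [List.mem_append, or_comm] using h.ex⟩

theorem Bas.pre (h : Bas l w) (hA : A <+: w) (hB : B <+: w) :
    Simp ((lab l A)⁻¹ * lab l B) ∨ (lab l A)⁻¹ * lab l B ∈ NN g := by
  wlog c : A <+: B generalizing A B
  · have := this hB hA ((List.prefix_or_prefix_of_prefix hA hB).resolve_left c)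
    exact this.imp (fun e => by simpa using e.inv) fun e => by simpa using inv_mem e
  obtain ⟨D, rfl⟩ := c
  obtain ⟨C, rfl⟩ := hB
  rw [lab_append, inv_mul_cancel_left]
  have k : Bas l (D ++ (C ++ A)) := by simpa using Bas.rot (B := D ++ C) (by simpa using h)
  by_cases e1 : D = []
  · exact .inr (by simp [e1])
  by_cases e2 : C ++ A = []
  · exact .inr (mem_NN_of_conj (by simpa only [isConj_iff, e2, List.append_nil] using k.val))
  · exact .inl (k.diag e1 e2).simp

theorem GM.corner [Finite I] (h : GM (A ++ B ++ C) l) (hu : Uni ∅ (A ++ B ++ C))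
    {P : I × Bool → Fr g} {v a a' v' : Fr g} (h1 : Wk l P v A a) (h2 : Wk l P a B a')
    (h3 : Wk l P a' C v') : Simp (a⁻¹ * a') ∨ a⁻¹ * a' ∈ NN g := by
  by_cases e : B = []
  · subst e; cases h2; exact .inr (by simp)
  obtain ⟨w, b, m, du⟩ := h.face hu (by simp [e])
  have f := (du ..).1 (wk_gk.1 (wk_append.2 ⟨_, wk_append.2 ⟨_, h1, h2⟩, h3⟩))
  have k : ∀ U u, (∀ d ∈ U, d ∈ A ++ B ++ C) → Wk l P u U v' → ∃ D, D <+: w ∧ u = v * lab l D := by
    rintro (_ | ⟨d, U⟩) u c1 c2
    · exact ⟨w, List.prefix_rfl, Eq.trans c2 (fk_lab f)⟩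
    · obtain ⟨D, T, rfl⟩ := List.append_of_mem ((m d).2 (c1 d (by simp)))
      obtain ⟨t, f1, f2, -⟩ := gk_append.1 f
      exact ⟨D, List.prefix_append .., by rw [← c2.1, f2, fk_lab f1]⟩
  obtain ⟨D, d1, rfl⟩ := k (B ++ C) a (by simp +contextual) (wk_append.2 ⟨_, h2, h3⟩)
  obtain ⟨D', d2, rfl⟩ := k C a' (by simp +contextual) h3
  simpa only [mul_inv_rev, mul_assoc, inv_mul_cancel_left] using b.pre d1 d2

theorem GM.simp [Finite I] (h : GM L l) (hx : x ∈ L) : Simp (dlab l x) ∨ dlab l x ∈ NN g := by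
  classical
  obtain ⟨L', h', hu, e0⟩ := h.reduce {x.1}
  replace hx : x ∈ L' := List.mem_of_mem_filter (e0 ▸ List.mem_filter.2 ⟨hx, by simp⟩)
  clear e0
  obtain ⟨y, A, B, C, e, rfl⟩ := rb_split hx (h'.sp x hx)
  suffices k : Simp (dlab l y) ∨ dlab l y ∈ NN g by
    rcases e with rfl | rfl
    exacts [k, k.imp (fun e => by simpa using e.inv) fun e => by simpa using e]
  replace e : x.1 = y.1 := by rcases e with rfl | rfl <;> rfl
  rw [e] at hu
  obtain ⟨P, v, v', a, -⟩ := h'.dfc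
  by_cases c : Uni ∅ (A ++ y :: (B ++ rev y :: C))
  · obtain ⟨u, a1, a2, a3⟩ := wk_append.1 a
    obtain ⟨u', a4, a5⟩ := wk_append.1 a3
    have := GM.corner (A := A ++ [y]) (by simpa using h') (by simpa using c)
      (wk_append.2 ⟨_, a1, a2, rfl⟩) a4 a5
    simpa [← a5.1] using this
  simp only [Uni, not_forall] at c
  obtain ⟨ε, b, he, z, hz, -, h1⟩ := c
  replace h1 : ε y ≠ ε (rev y) := by
    rcases ts_eq_or_rev (by_contra fun c => h1 (hu ε b he z hz c) : z.1 = y.1) with rfl | rfl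
    exacts [h1, by rw [rev_rev] at h1; exact Ne.symm h1]
  obtain ⟨Q, u, a1, a2, a3⟩ := wk_del a he h1
  suffices k : Uni ∅ (A ++ B ++ C) by simpa using (h'.del he h1).corner k a1 a2 a3
  intro η t c d hd _
  obtain ⟨_, c0, c3⟩ := wk_append.1 c
  obtain ⟨_, c1, c2⟩ := wk_append.1 c0
  obtain ⟨R, r1, r2⟩ := wk_undel h'.nd c1 c2 c3
  have := wk_sep h'.nd h'.sp r2 he (by simp) h1 ⊥ fun d _ e => dlab_mem'.2 (upd_ne _ _ e)
  rw [dlab_upd, Subgroup.mem_bot] at this
  have k : d.1 ≠ y.1 := fun e => (ts_eq_or_rev e).elim (rb_nd' h'.nd hd).1 (rb_nd' h'.nd hd).2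
  rw [this, show upd (fun _ => (1 : Multiplicative (ZMod 2))) y 1 = fun _ => 1 by
    funext e; simp [upd]] at r2
  rw [← r1 d k, ← r1 (rev d) k]
  exact hu R t r2 d (by simp only [List.mem_append, List.mem_cons] at hd ⊢; tauto) k

theorem Bas.cross (h : Bas l w) {a b : I × Bool} (ha : a ∈ w) (hb : b ∈ w) (hab : b.1 ≠ a.1)
    {ε J : I × Bool → ZMod 2} (h0 : ε a = 0) (h1 : ε b ≠ ε (rev b))
    (hJ : ∀ d, (d.1 = a.1 → J d = 1) ∧ (d.1 ≠ a.1 → J d = 0))
    (hw : Gk ε (fun d => ε (rev d) + J d) 0 w 0) :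
    ∃ (ψ : Fr g ≃* Fr g) (k : Fin g), AutR ψ ∧ k.1 = 0 ∧ ψ (FreeGroup.of (k, false)) = dlab l a ∧
      (ψ (FreeGroup.of (k, true)) = dlab l b ∨ ψ (FreeGroup.of (k, true)) = (dlab l b)⁻¹) := by
  obtain ⟨ι, α, hι, hα, hm⟩ := h.ex
  obtain ⟨u, rfl, a1⟩ := ts_pull hα w fun d hd => (hm d).1 hd
  obtain ⟨a, -, rfl⟩ := List.mem_map.1 ha
  obtain ⟨b, -, rfl⟩ := List.mem_map.1 hb
  have hF : Full u := ⟨h.nd.of_map _, fun d => by
    obtain ⟨d', a3, a4⟩ := List.mem_map.1 ((hm (Prod.map ι id d)).2 ⟨d.1, rfl⟩)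
    rwa [← hι.prodMap Function.injective_id a4]⟩
  have hv := a1 ▸ h.val
  have k : ∀ d : Dt g, α (FreeGroup.mk [d]) = dlab l (Prod.map ι id d) := by
    rintro ⟨e, _ | _⟩
    · rw [ch_false, map_inv, hα]; rfl
    · rw [mk_true, hα]; rfl
  have wk : ∀ (U : List (Dt g)) c c', Gk (ε ∘ Prod.map ι id) ((fun d => ε (rev d) + J d) ∘ Prod.map ι id)
      c U c' → Walk (ε ∘ Prod.map ι id) (Ja a) c U c' := fun U => by
    induction U with
    | nil => exact fun _ _ => id
    | cons d U ih =>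
      refine fun c c' e => ⟨e.1, ih _ _ ?_⟩
      convert e.2 using 1
      refine congrArg (_ + ·) ?_
      unfold Ja
      split_ifs with c
      exacts [((hJ _).1 (congrArg ι c)).symm, ((hJ _).2 fun e => c (hι e)).symm]
  obtain ⟨ψ, j, j0, r1, r2, r3⟩ := std_cross hF ⟨α, hv⟩ (a := a) (b := b)
    ⟨fun e => hab (congrArg ι e), _, ⟨h0, 0, wk _ _ _ ((gk_map _).1 hw)⟩, h1⟩
  refine ⟨ψ.trans α, j, (α.toMonoidHom.map_isConj r1).trans hv, j0, ?_, ?_⟩
  · rw [MulEquiv.trans_apply, r2, k]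
  · rw [MulEquiv.trans_apply, ← k, ← map_inv]
    exact r3.imp (congrArg α) (congrArg α)

theorem GM.handle [Finite I] (h : GM L l) {a b : I × Bool} (hs : [a, b, rev a, rev b].Sublist L) :
    ∃ (ψ : Fr g ≃* Fr g) (k : Fin g), AutR ψ ∧ k.1 = 0 ∧ ψ (FreeGroup.of (k, false)) = dlab l a ∧
      (ψ (FreeGroup.of (k, true)) = dlab l b ∨ ψ (FreeGroup.of (k, true)) = (dlab l b)⁻¹) := by
  classical
  obtain ⟨L', h', hu, e⟩ := h.reduce {a.1, b.1}
  replace hs : [a, b, rev a, rev b].Sublist L' := by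
    have k : ∀ p : I × Bool → Bool, L'.filter p = L.filter p → (∀ d ∈ [a, b, rev a, rev b], p d) →
        [a, b, rev a, rev b].Sublist L' := fun p e c =>
      ((List.filter_eq_self.2 c).symm ▸ e.symm ▸ hs.filter p : List.Sublist _ (L'.filter p)).trans
        List.filter_sublist
    exact k _ e (by simp only [List.mem_cons, List.not_mem_nil, or_false, Set.mem_insert_iff, Set.mem_singleton_iff, Bool.decide_or, Bool.or_eq_true, decide_eq_true_eq, forall_eq_or_imp, true_or, or_true, rev_fst, forall_eq, and_self])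
  clear e h
  obtain ⟨A, B, C, D, F, rfl⟩ : ∃ A B C D F,
      L' = A ++ a :: (B ++ b :: (C ++ rev a :: (D ++ rev b :: F))) := by
    have k : ∀ {x : I × Bool} {U V}, (x :: U).Sublist V → ∃ A B, V = A ++ x :: B ∧ U.Sublist B :=
      fun e => by
        obtain ⟨r, t, rfl, c, c'⟩ := List.cons_sublist_iff.1 e
        obtain ⟨A, B, rfl⟩ := List.append_of_mem c
        exact ⟨A, B ++ t, by simp, c'.trans (List.sublist_append_right ..)⟩
    obtain ⟨A, _, rfl, e1⟩ := k hs
    obtain ⟨B, _, rfl, e2⟩ := k e1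
    obtain ⟨C, _, rfl, e3⟩ := k e2
    obtain ⟨D, F, rfl, -⟩ := k e3
    exact ⟨A, B, C, D, F, rfl⟩
  have c := List.nodup_iff_count_le_one.1 h'.nd
  simp only [List.count_append, List.count_cons] at c
  have n1 : ∀ d, d ∈ A ∨ d ∈ B ∨ d ∈ C ∨ d ∈ D ∨ d ∈ F → d.1 ∉ ({a.1, b.1} : Set I) := fun d hd e => by
    have := c d
    simp only [← List.count_pos_iff] at hd
    rcases e with e | e <;> rcases ts_eq_or_rev e with rfl | rfl <;>
      simp only [beq_self_eq_true, if_true] at this <;> omega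
  have hab : b.1 ≠ a.1 := fun e => by
    have := c b
    rcases ts_eq_or_rev e with rfl | rfl <;> simp only [beq_self_eq_true, if_true] at this <;> omega
  have uu : Uni ∅ (A ++ a :: (B ++ b :: (C ++ rev a :: (D ++ rev b :: F)))) := by
    intro ε t k y hy _
    have q := hu ε t k
    simp only [wk_append, Wk, dlab_one, mul_one, rev_rev] at k
    obtain ⟨_, k1, rfl, _, k2, rfl, _, k3, rfl, _, k4, rfl, k5⟩ := k
    have e2 := (wk_const k2 fun d hd => q d (by simp [hd]) (n1 d (by simp [hd]))).1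
    have e3 := (wk_const k3 fun d hd => q d (by simp [hd]) (n1 d (by simp [hd]))).1
    have e4 := (wk_const k4 fun d hd => q d (by simp [hd]) (n1 d (by simp [hd]))).1
    by_cases c : y.1 ∈ ({a.1, b.1} : Set I)
    · rcases c with e | e <;> rcases ts_eq_or_rev e with rfl | rfl <;> grind [rev_rev]
    · exact q y hy c
  obtain ⟨w, s, m, du⟩ := h'.face uu (by simp)
  have nd := rb_nd (A := A) (K := B ++ b :: C) (B := []) (C := D ++ rev b :: F) (y := a) (z := rev a)
    (by simpa using h'.nd)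
  let ε : I × Bool → ZMod 2 := fun d => if d ∈ B ++ b :: C ∨ d = rev a then 1 else 0
  let J : I × Bool → ZMod 2 := fun d => if d.1 = a.1 then 1 else 0
  have z : ∀ d, d ∈ A ∨ d ∈ D ++ rev b :: F → ε d = 0 ∧ ε (rev (rev d)) + J (rev d) = 0 := fun d hd => by
    obtain ⟨e1, e2, e3⟩ := nd.2.2 d (by tauto)
    have : d.1 ≠ a.1 := fun e => (ts_eq_or_rev e).elim e2 e3
    simp only [ε, J, rev_rev, rev_fst, e1, e3, this, or_self, if_false, add_zero, and_self]
  have ea : ε a = 0 := if_neg (not_or.2 ⟨nd.1, (rev_ne a).symm⟩)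
  refine s.cross ((m a).2 (by simp)) ((m b).2 (by simp)) hab ea (J := J)
    (by rw [(z (rev b) (by simp)).1]; simp only [ε, List.mem_append, List.mem_cons, true_or, or_true, ↓ reduceIte, ne_eq, one_ne_zero, not_false_eq_true]) (fun d => ⟨fun e => if_pos e, fun e => if_neg e⟩) ((du ..).1 ?_)
  rw [show A ++ a :: (B ++ b :: (C ++ rev a :: (D ++ rev b :: F))) =
    A ++ a :: (B ++ b :: C ++ rev a :: (D ++ rev b :: F)) by simp]
  refine gk_append.2 ⟨0, gk_const fun d hd => z d (.inl hd), ea, gk_append.2 ⟨1, ?_, if_pos (.inr rfl),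
    ?_⟩⟩
  · rw [show ((fun d => ε (rev d) + J d) ∘ rev) a = 1 by simp [ea, J]]
    refine gk_const fun d hd => ?_
    have : d.1 ≠ a.1 := fun e => (ts_eq_or_rev e).elim (fun c => nd.1 (c ▸ hd)) fun c => nd.2.1 (c ▸ hd)
    simp only [Function.comp, ε, J, rev_rev, rev_fst, hd, this, true_or, if_true, if_false, add_zero,
      and_self]
  · rw [show ((fun d => ε (rev d) + J d) ∘ rev) (rev a) = 0 by simp only [ε, List.mem_append, List.mem_cons, J, Function.comp_apply, rev_rev, or_true, ↓ reduceIte]; decide]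
    exact gk_const fun d hd => z d (.inr hd)

end Pool.Agent.MP_596265_gt.U

end

section

/-! Ribbon calculus, part e: the primitive rules for ribbon subgraphs. -/

namespace Pool.Agent.MP_596265_gt.U

open Erg

variable {g : ℕ} {I I' : Type} {c c' A B C K : List (I × Bool)} {l l' : I → Fr g}

theorem Mark.lk {E : Type} [Finite E] {n : Equiv.Perm (E × Bool)} {l : E → Fr g} (hn : IsTri n)
    (h : Mark n l) (x : E × Bool) : ∃ U, Lk n (x :: U) := by
  obtain ⟨w, z, c, m⟩ := cy_orbit (n * revP E) x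
  obtain ⟨-, T, -, rfl⟩ := c.ex
  refine ⟨T, c.nd, fun d => (m d).2 ?_, c.ch⟩
  obtain ⟨k, rfl⟩ := h.link hn x d
  exact ⟨k, by rw [zpow_natCast, ← Equiv.Perm.iterate_eq_pow]; rfl⟩

theorem Lk.cy {E : Type} {n : Equiv.Perm (E × Bool)} {x : E × Bool} {U : List (E × Bool)}
    (h : Lk n (x :: U)) : Cy (fun d => n (rev d)) (x :: U) x (rev (n.symm x)) := by
  obtain ⟨A, B, e⟩ := List.append_of_mem (h.2.1 (rev (n.symm x)))
  cases B with
  | nil => exact ⟨h.1, ⟨A, U, e, rfl⟩, h.2.2, by simp⟩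
  | cons b B =>
    have c := h.2.2
    have d := h.1
    rw [e] at c d
    have : b = x := by simpa using (List.isChain_append_cons_cons.1 c).2.1
    subst this
    cases A <;> rw [← (List.cons.inj e).1] at d <;> simp at d

theorem Lk.rot {E : Type} {n : Equiv.Perm (E × Bool)} {A B : List (E × Bool)} (h : Lk n (A ++ B)) :
    Lk n (B ++ A) := by
  induction A generalizing B with
  | nil => simpa using h
  | cons x A ih =>
    by_cases e : A ++ B = []
    · obtain ⟨rfl, rfl⟩ := List.append_eq_nil_iff.1 e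
      exact h
    have c := (Lk.cy h).rot e
    have : Lk n (A ++ (B ++ [x])) := List.append_assoc A B [x] ▸
      ⟨c.nd, fun d => (List.perm_append_comm (l₁ := [x])).subset (h.2.1 d), c.ch⟩
    simpa using ih this

theorem GM.of_mark {E : Type} {n : Equiv.Perm (E × Bool)} {l : E → Fr g} (hn : IsTri n)
    {x : E × Bool} {U : List (E × Bool)} (h : MarkAt n x l) (hL : Lk n (x :: U)) :
    GM (x :: U) l := by
  classical
  have z : n.symm x = n (n x) := n.symm_apply_eq.2 (hn.1 x).symm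
  have k : ∀ {H : Type} [Group H] (μ : E → H) P v v', Wk μ P v (x :: U) v' ↔ P x = v ∧
      (∀ d, d ≠ n (n x) → P (n d) = P d * dlab μ d) ∧ P (n (n x)) * dlab μ (n (n x)) = v' :=
    fun μ P v v' => by
      rw [wk_gk, hL.cy.gk, z, Function.comp, rev_rev]
      refine and_congr_right fun _ => and_congr_left fun _ => ⟨fun k a e => ?_, fun k a _ e => ?_⟩
      · simpa using k (rev a) (hL.2.1 _) fun e' => e ((revP E).injective e')
      · exact k (rev a) fun e' => e (by rw [← e', rev_rev])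
  refine ⟨hL.1, fun d _ => hL.2.1 _, ?_, by simpa [hL.2.1] using h.gen, fun H _ μ P v v' c => ?_⟩
  · have : Nonempty (E × Bool) := ⟨x⟩
    let β : E × Bool → E × Bool := fun d =>
      if Off n x d then Classical.epsilon fun y => ¬ Off n d y else x
    have b1 : ∀ d, β (n d) = β d := fun d => by
      have : Off n x (n d) ↔ Off n x d :=
        ⟨fun e => by simpa [hn.1] using hn.off_nxt' (hn.off_nxt' e), hn.off_nxt'⟩
      simp only [β, this, hn.off_nxt]
    have b2 : ∀ d, ¬ Off n (β d) d := fun d e => by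
      simp only [β] at e
      split_ifs at e with c
      exacts [Classical.epsilon_spec (p := fun y => ¬ Off n d y) ⟨d, fun e => e.1 rfl⟩
        (hn.off_symm e), c e]
    have b3 : β x = x := if_neg fun e => e.1 rfl
    have n1 := hn.2
    have n2 := hn.ne2
    refine ⟨fun d => if d = β d then 1 else if d = n (β d) then dlab l (β d) else
      dlab l (β d) * dlab l (n (β d)), 1, fp n l x, (k ..).2 ⟨if_pos b3.symm, fun d hd => ?_, ?_⟩,
      by simpa only [inv_one, one_mul, isConj_iff] using h.dfc⟩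
    · have := b2 d
      have b4 : β (β d) = β d := by
        simp only [Off, not_and_or, not_not] at this
        rcases this with e | e | e
        exacts [congrArg β e.symm, (b1 _).symm.trans (congrArg β e.symm),
          ((b1 _).trans (b1 _)).symm.trans (congrArg β e.symm)]
      simp only [b1]
      have o : β d = x ∨ Off n x (β d) := by
        by_cases c : Off n x (β d)
        exacts [.inr c, .inl (b4.symm.trans (if_neg c))]
      generalize β d = y at this o
      simp only [Off, not_and_or, not_not] at this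
      rcases this with rfl | rfl | rfl
      · simp [n1]
      · simp [n1, n2]
      · simpa [n1, n2, hn.1, fp] using (h.rel y (o.resolve_left fun e => hd (by rw [e]))).symm
    · simp [b1, b3, n1, n2, fp]
  · obtain ⟨-, c, -⟩ := (k ..).1 c
    obtain ⟨φ, hφ⟩ := h.ext H μ fun d hd => by
      have e := c _ (hn.off_nxt' (hn.off_nxt' hd)).2.2
      rw [hn.1, c _ (hn.off_nxt' hd).2.2, c _ hd.2.2, mul_assoc, mul_assoc, left_eq_mul] at e
      rwa [fp, mul_assoc]
    exact ⟨φ, fun e _ => hφ e⟩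

theorem Rib.of_mark {E : Type} [Finite E] {n : Equiv.Perm (E × Bool)} {l : E → Fr g} (hn : IsTri n)
    (h : Mark n l) {L : List (E × Bool)} (hL : Lk n L) : Rib L l := by
  cases L with
  | nil =>
    obtain ⟨d, -⟩ := h
    exact absurd (hL.2.1 d) (by simp)
  | cons x U =>
    obtain ⟨m, a, b⟩ := h.at hn x
    exact ⟨fun d _ => hL.2.1 _, E, ‹_›, _, m, id, .of_mark hn a hL, fun _ => rfl, by simp,
      fun d _ => cg_dlab b d⟩

theorem Rib.nodup (h : Rib c l) : c.Nodup := by
  obtain ⟨-, J, _, L, m, F, a, -, b, -⟩ := h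
  exact (a.nd.sublist b).of_map _

/-- DEL -/
theorem Rib.sub (h : Rib c l) (hs : c'.Sublist c) (hp : ∀ d ∈ c', rev d ∈ c') : Rib c' l := by
  obtain ⟨-, J, _, L, m, F, a, b, d, e⟩ := h
  exact ⟨hp, J, ‹_›, L, m, F, a, b, (hs.map F).trans d, fun x hx => e x (hs.subset hx)⟩

/-- Renaming of darts (also reverses orientations of edges). -/
theorem Rib.ren {c' : List (I' × Bool)} {l' : I' → Fr g} (F : I' × Bool → I × Bool)
    (hF : ∀ d, F (rev d) = rev (F d)) (h : Rib (c'.map F) l) (hp : ∀ d ∈ c', rev d ∈ c')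
    (hl : ∀ d ∈ c', Cg (dlab l' d) (dlab l (F d))) : Rib c' l' := by
  obtain ⟨-, J, _, L, m, F', a, b, d, e⟩ := h
  exact ⟨hp, J, ‹_›, L, m, F' ∘ F, a, fun x => by simp [hF, b], by rwa [← List.map_map],
    fun x hx => (hl x hx).trans (e _ (List.mem_map_of_mem hx))⟩

theorem Rib.congr (h : Rib c l) (hl : ∀ d ∈ c, Cg (dlab l d) (dlab l' d)) : Rib c l' :=
  .ren id (fun _ => rfl) (by simpa using h) h.1 fun d hd => (hl d hd).symm

/-- CONJ is the case `ψ = MulAut.conj u` (`autR_conj`). -/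
theorem Rib.act (h : Rib c l) {ψ : Fr g ≃* Fr g} (hψ : AutR ψ) : Rib c fun e => ψ (l e) := by
  obtain ⟨p, J, _, L, m, F, a, b, d, e⟩ := h
  exact ⟨p, J, ‹_›, L, _, F, a.act hψ, b, d, fun x hx => by
    rw [← map_dlab, ← map_dlab]; exact (e x hx).map hψ⟩

/-- ROT -/
theorem Rib.rot (h : Rib (A ++ B) l) : Rib (B ++ A) l := by
  obtain ⟨p, J, _, L, m, F, a, b, d, e⟩ := h
  rw [List.map_append] at d
  obtain ⟨U, V, rfl, d1, d2⟩ := List.append_sublist_iff.1 d
  obtain ⟨m', a', b'⟩ := a.rot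
  have q : ∀ x, x ∈ B ++ A ↔ x ∈ A ++ B := fun _ => List.perm_append_comm.mem_iff
  exact ⟨by simpa only [q] using p, J, ‹_›, _, m', F, a', b, by simpa using d2.append d1,
    fun x hx => (e x ((q x).1 hx)).trans (cg_dlab b' _)⟩

theorem rb_cut {α : Type} {A B L : List α} {y : α} (h : (A ++ y :: B).Sublist L) :
    ∃ U V, L = U ++ y :: V ∧ A.Sublist U ∧ B.Sublist V := by
  obtain ⟨U, V, rfl, a, b⟩ := List.append_sublist_iff.1 h
  obtain ⟨r, t, rfl, c, d⟩ := List.cons_sublist_iff.1 b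
  obtain ⟨D, F, rfl⟩ := List.append_of_mem c
  exact ⟨U ++ D, F ++ t, by simp, a.trans (List.sublist_append_left ..),
    d.trans (List.sublist_append_right ..)⟩

theorem rb_gau {J : Type} {y : I × Bool} {m : J → Fr g} {F : I × Bool → J × Bool}
    {A' K' B' C' : List (J × Bool)} (hF : ∀ d, F (rev d) = rev (F d))
    (hn : (A' ++ F y :: (K' ++ B' ++ rev (F y) :: C')).Nodup) (hA : (A.map F).Sublist A')
    (hK : (K.map F).Sublist K') (hB : (B.map F).Sublist B') (hC : (C.map F).Sublist C')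
    (hp : ∀ d ∈ A ++ y :: (K ++ B ++ rev y :: C), rev d ∈ A ++ y :: (K ++ B ++ rev y :: C))
    (hl : ∀ d ∈ A ++ y :: (K ++ B ++ rev y :: C), Cg (dlab l d) (dlab m (F d))) {u u' : Fr g}
    (hu : Cg u u') : ∀ d ∈ A ++ y :: (K ++ B ++ rev y :: C),
      Cg (dlab (gau K u l) d) (dlab (gau K' u' m) (F d)) := by
  classical
  obtain ⟨n1, n2, n3⟩ := rb_nd hn
  have k : ∀ d ∈ A ++ y :: (K ++ B ++ rev y :: C),
      Cg (if d ∈ K then u else 1) (if F d ∈ K' then u' else 1) := fun d hd => by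
    by_cases e : d ∈ K
    · rwa [if_pos e, if_pos (hK.subset (List.mem_map_of_mem e))]
    · rw [if_neg e, if_neg]
      · exact Cg.refl _
      simp only [List.mem_append, List.mem_cons, e, false_or] at hd
      rcases hd with c | rfl | c | rfl | c
      exacts [(n3 _ (.inl (hA.subset (List.mem_map_of_mem c)))).1, n1,
        (n3 _ (.inr (.inl (hB.subset (List.mem_map_of_mem c))))).1, hF y ▸ n2,
        (n3 _ (.inr (.inr (hC.subset (List.mem_map_of_mem c))))).1]
  intro d hd
  rw [dlab_gau, dlab_gau, ← hF]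
  convert ((k d hd).mul (hl d hd)).mul (k _ (hp d hd)).inv

/-- SLIDE: the block `K` after `y` moves to the place before `rev y`. -/
theorem Rib.slide {y : I × Bool} (h : Rib (A ++ y :: (K ++ B ++ rev y :: C)) l) :
    Rib (A ++ y :: (B ++ K ++ rev y :: C)) (gau K (dlab l y)⁻¹ l) := by
  obtain ⟨p, J, _, L, m, F, a, b, d, e⟩ := h
  simp only [List.map_append, List.map_cons, b] at d
  obtain ⟨A', _, rfl, d1, d2⟩ := rb_cut d
  obtain ⟨_, C', rfl, d3, d4⟩ := rb_cut d2
  obtain ⟨K', B', rfl, d5, d6⟩ := List.append_sublist_iff.1 d3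
  have q := fun x => (rb_perm A K B C y (rev y)).mem_iff (a := x)
  refine ⟨by simpa only [q] using p, J, ‹_›, _, _, F, a.slide, b, ?_, fun x hx =>
    rb_gau b a.nd d1 d5 d6 d4 p e (e y (by simp)).inv x ((q x).2 hx)⟩
  simp only [List.map_append, List.map_cons, b]
  exact d1.append (((d6.append d5).append (d4.cons_cons _)).cons_cons _)

/-- SLIDE back: the block `K` before `rev y` moves to the place after `y`. -/
theorem Rib.slide' {y : I × Bool} (h : Rib (A ++ y :: (B ++ K ++ rev y :: C)) l) :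
    Rib (A ++ y :: (K ++ B ++ rev y :: C)) (gau K (dlab l y) l) := by
  obtain ⟨p, J, _, L, m, F, a, b, d, e⟩ := h
  simp only [List.map_append, List.map_cons, b] at d
  obtain ⟨A', _, rfl, d1, d2⟩ := rb_cut d
  obtain ⟨_, C', rfl, d3, d4⟩ := rb_cut d2
  obtain ⟨B', K', rfl, d6, d5⟩ := List.append_sublist_iff.1 d3
  have q := fun x => (rb_perm A K B C y (rev y)).mem_iff (a := x)
  simp only [← q] at p e
  refine ⟨p, J, ‹_›, _, _, F, a.slide', b, ?_,
    rb_gau b ((rb_perm ..).nodup_iff.2 a.nd) d1 d5 d6 d4 p e (e y (by simp))⟩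
  simp only [List.map_append, List.map_cons, b]
  exact d1.append (((d5.append d6).append (d4.cons_cons _)).cons_cons _)

/-- A new trivial loop in any corner. -/
theorem Rib.ins (h : Rib (A ++ B) l) {t : I × Bool} (ht : t ∉ A ++ B) :
    Rib (A ++ t :: rev t :: B) (upd l t 1) := by
  classical
  obtain ⟨p, J, _, L, m, F, a, b, d, e⟩ := h
  have ne : ∀ x ∈ A ++ B, x.1 ≠ t.1 := fun x hx c =>
    (ts_eq_or_rev c).elim (fun c => ht (c ▸ hx)) fun c => ht (by simpa [c] using p x hx)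
  rw [List.map_append] at d
  obtain ⟨U, V, rfl, d1, d2⟩ := List.append_sublist_iff.1 d
  have a' := a.some
  rw [List.map_append] at a'
  let F' : I × Bool → Option J × Bool := fun x =>
    if x.1 = t.1 then (none, x.2) else Prod.map some id (F x)
  have f : ∀ x ∈ A ++ B, F' x = Prod.map some id (F x) := fun x hx => if_neg (ne x hx)
  have f1 : F' t = (none, t.2) := if_pos rfl
  have f2 : ∀ x, F' (rev x) = rev (F' x) := fun x => by
    simp only [F', rev_fst, b]; split_ifs <;> rfl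
  have mem : ∀ x, x ∈ A ++ t :: rev t :: B ↔ x = t ∨ x = rev t ∨ x ∈ A ++ B := fun x => by
    simp only [List.mem_append, List.mem_cons]; tauto
  refine ⟨fun x hx => ?_, Option J, inferInstance, _, _, F', a'.ins (t := (none, t.2)) (by simp only [List.mem_append, List.mem_map, Prod.exists, Prod.map_apply, id_eq, Prod.mk.injEq, reduceCtorEq, false_and, and_false, exists_const, exists_false, or_self, not_false_eq_true]),
    f2, ?_, fun x hx => ?_⟩
  · rcases (mem x).1 hx with rfl | rfl | c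
    exacts [by simp, by simp, (mem _).2 (.inr (.inr (p x c)))]
  · rw [List.map_append, List.map_cons, List.map_cons, f2, f1,
      List.map_congr_left fun x hx => f x (List.mem_append_left _ hx),
      List.map_congr_left fun x hx => f x (List.mem_append_right _ hx)]
    have d3 := d1.map (Prod.map some id)
    have d4 := d2.map (Prod.map some id)
    rw [List.map_map] at d3 d4
    exact d3.append ((d4.cons_cons _).cons_cons _)
  · rcases (mem x).1 hx with rfl | rfl | c
    · rw [f1, dlab_upd, dlab_upd]; exact Cg.refl _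
    · rw [f2, f1, dlab_rev, dlab_rev, dlab_upd, dlab_upd]; exact Cg.refl _
    · rw [f x c, dlab_congr (upd_ne _ _ (ne x c)), dlab_congr (upd_ne _ _ (by simp))]
      exact e x c

/-- SIMPLE -/
theorem Rib.simp (h : Rib c l) {d : I × Bool} (hd : d ∈ c) : Simp (dlab l d) ∨ dlab l d ∈ NN g := by
  obtain ⟨-, J, _, L, m, F, a, -, b, e⟩ := h
  exact (a.simp (b.subset (List.mem_map_of_mem hd))).imp (·.congr (e d hd).symm) fun k =>
    cg_one.1 ((e d hd).trans (cg_one.2 k))

/-- Linked loops form a handle. -/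
theorem Rib.handle {a b : I × Bool} (h : Rib [a, b, rev a, rev b] l) :
    ∃ (ψ : Fr g ≃* Fr g) (k : Fin g), AutR ψ ∧ k.1 = 0 ∧ Cg (dlab l a) (ψ (FreeGroup.of (k, false))) ∧
      (Cg (dlab l b) (ψ (FreeGroup.of (k, true))) ∨ Cg (dlab l b) (ψ (FreeGroup.of (k, true)))⁻¹) := by
  obtain ⟨-, J, _, L, m, F, h, p, q, e⟩ := h
  obtain ⟨ψ, k, r1, r2, r3, r4⟩ := h.handle (a := F a) (b := F b) (by simpa [p] using q)
  refine ⟨ψ, k, r1, r2, r3 ▸ e a (by simp), r4.imp (fun c => ?_) fun c => ?_⟩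
  · rw [c]; exact e b (by simp)
  · rw [c, inv_inv]; exact e b (by simp)

end Pool.Agent.MP_596265_gt.U

end

section

/-! Ribbon calculus: derived rules. -/

namespace Pool.Agent.MP_596265_gt.U

open Erg

variable {g : ℕ} {I : Type} {A C K : List (I × Bool)} {l : I → Fr g}

/-- Dehn twists along `y`, on the side of `K`. -/
theorem Rib.twist {y : I × Bool} (h : Rib (A ++ y :: (K ++ rev y :: C)) l) (k : ℤ) :
    Rib (A ++ y :: (K ++ rev y :: C)) (gau K (dlab l y ^ k) l) := by
  have hn := h.nodup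
  have e : ∀ u, dlab (gau K u l) y = dlab l y := fun u => by
    rw [dlab_gau, if_neg, if_neg, inv_one, one_mul, mul_one] <;> intro t <;>
      simp only [List.nodup_append, List.nodup_cons, List.mem_append] at hn
    · exact hn.2.1.2.2.2 _ t _ (by simp) rfl
    · exact hn.2.1.1 (.inl t)
  induction k with
  | zero =>
    refine h.congr fun d _ => ?_
    simp [dlab_gau, Cg.refl]
  | succ k ih =>
    have := Rib.slide' (B := []) (K := K) ih
    rwa [gau_gau, e, ← zpow_one_add, add_comm, List.append_nil] at this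
  | pred k ih =>
    have := Rib.slide (B := []) (K := K) (by rwa [List.append_nil])
    rwa [gau_gau, e, ← zpow_neg_one, ← zpow_add, neg_add_eq_sub, List.nil_append] at this

/-- Three unlinked loops with labels `X, Y, Z` in the order of a product `X Y Z` that is a boundary
curve: a sphere with four holes. -/
def Four (X Y Z : Fr g) : Prop :=
  Rib [((0 : Fin 3), false), (0, true), (2, false), (2, true), (1, false), (1, true)] ![X, Y, Z]
/-- Two unlinked loops: a pair of pants with boundary `X, Y, X Y`. -/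
def Pant (X Y : Fr g) : Prop :=
  Rib [((0 : Fin 2), false), (0, true), (1, false), (1, true)] ![X, Y]
def SimpN (u : Fr g) : Prop := Simp u ∨ u ∈ NN g

theorem Pant.of {x y : I × Bool} {X Y : Fr g} (h : Rib [rev x, x, rev y, y] l)
    (hx : dlab l x = X) (hy : dlab l y = Y) : Pant X Y := by
  subst hx hy
  refine Rib.ren (fun d => cond d.2 (![x, y] d.1) (rev (![x, y] d.1))) ?_ h (by decide) ?_
  · rintro ⟨i, _ | _⟩ <;> simp [rev]
  · simp only [Fin.isValue, List.mem_cons, List.not_mem_nil, or_false, dlab.eq_1 ![_, _], Nat.succ_eq_add_one, Nat.reduceAdd, forall_eq_or_imp, Matrix.cons_val_zero, cond_false, dlab_rev, Cg.refl, cond_true, Matrix.cons_val_one, Matrix.cons_val_fin_one, forall_eq, and_self]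

theorem Four.of {x y z : I × Bool} {X Y Z : Fr g} (h : Rib [rev x, x, rev z, z, rev y, y] l)
    (hx : dlab l x = X) (hy : dlab l y = Y) (hz : dlab l z = Z) : Four X Y Z := by
  subst hx hy hz
  refine Rib.ren (fun d => cond d.2 (![x, y, z] d.1) (rev (![x, y, z] d.1))) ?_ h (by decide) ?_
  · rintro ⟨i, _ | _⟩ <;> simp [rev]
  · simp only [Fin.isValue, List.mem_cons, List.not_mem_nil, or_false, dlab.eq_1 ![_, _, _], Nat.succ_eq_add_one, Nat.reduceAdd, forall_eq_or_imp, Matrix.cons_val_zero, cond_false, dlab_rev, Cg.refl, cond_true, Matrix.cons_val, Matrix.cons_val_one, forall_eq, and_self]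

variable {X Y Z : Fr g}

theorem Pant.simp (h : Pant X Y) : SimpN X ∧ SimpN Y ∧ SimpN (X * Y) := by
  refine ⟨Rib.simp (d := (0, true)) h (by simp), Rib.simp (d := (1, true)) h (by simp), ?_⟩
  have := (Rib.slide' (A := []) (y := (0, true)) (B := [(1, false)]) (K := [(1, true)]) (C := [])
    (Rib.rot (A := [_]) h)).simp (d := (1, true)) (by simp)
  rw [dlab_gau] at this
  simpa [dlab, rev, SimpN] using this

theorem Pant.swap (h : Pant X Y) : Pant Y X ∧ Pant Y (X * Y)⁻¹ := by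
  refine ⟨Pant.of (x := (1, true)) (y := (0, true)) (Rib.rot (A := [_, _]) h) rfl rfl, ?_⟩
  refine Pant.of (x := (1, true)) (y := (0, false)) (Rib.rot (A := [_, _, _]) (B := [_])
    (Rib.slide (A := []) (y := (1, true)) (K := [(0, false)]) (B := [(0, true)]) (C := [])
    (Rib.rot (A := [_, _, _]) h))) ?_ ?_ <;> rw [dlab_gau] <;> simp [dlab, rev]

theorem Four.aux (h : Four X Y Z) : Rib [((1 : Fin 3), true), (0, true), (2, false), (2, true),
    (0, false), (1, false)] ![X * Y, Y, Z] := by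
  refine (Rib.slide (A := []) (y := (1, true)) (K := [(0, false)])
    (B := [(0, true), (2, false), (2, true)]) (C := [])
    (Rib.rot (A := [_, _, _, _, _]) h)).congr ?_
  simp only [dlab_gau]
  simp only [Fin.isValue, List.cons_append, List.nil_append, rev, Bool.not_true, List.mem_cons, List.not_mem_nil, or_false, dlab, Matrix.cons_val_one, Matrix.cons_val_zero, cond_true, ite_mul, one_mul, Prod.mk.injEq, Bool.not_eq_eq_eq_not, Bool.not_false, forall_eq_or_imp, one_ne_zero, Bool.true_eq_false, and_self, ↓ reduceIte, and_true, inv_one, mul_one, Cg.refl, and_false, inv_inv, mul_inv_rev, Fin.reduceEq, Matrix.cons_val, cond_false, Bool.false_eq_true, forall_eq]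

theorem Four.cyc (h : Four X Y Z) : Four Y Z X ∧ Four Y Z (X * Y * Z)⁻¹ := by
  refine ⟨Four.of (x := (1, true)) (y := (2, true)) (z := (0, true))
    (Rib.rot (A := [_, _, _, _]) h) rfl rfl rfl, ?_⟩
  refine Four.of (x := (1, true)) (y := (2, true)) (z := (0, false))
    (Rib.rot (A := [_]) (Rib.slide (A := []) (y := (2, true)) (K := [(0, false)])
    (B := [(1, false), (1, true), (0, true)]) (C := [])
    (Rib.rot (A := [_, _, _]) (Four.aux h)))) ?_ ?_ ?_ <;> rw [dlab_gau] <;>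
    simp only [Fin.isValue, List.mem_cons, Prod.mk.injEq, one_ne_zero, Bool.true_eq_false, and_self, List.not_mem_nil, or_self, ↓ reduceIte, dlab, Matrix.cons_val_one, Matrix.cons_val_zero, cond_true, one_mul, rev, Bool.not_true, and_true, inv_one, mul_one, Fin.reduceEq, Matrix.cons_val, or_false, mul_inv_rev, cond_false, Bool.not_false, and_false, mul_assoc]

theorem Four.pant (h : Four X Y Z) : Pant X Y ∧ Pant Y Z ∧ Pant X Z ∧ Pant (X * Y) Z :=
  ⟨Pant.of (x := (0, true)) (y := (1, true)) (Rib.sub h (by decide) (by decide)) rfl rfl,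
    (Pant.swap (Pant.of (x := (2, true)) (y := (1, true)) (Rib.sub h (by decide) (by decide))
      rfl rfl)).1,
    Pant.of (x := (0, true)) (y := (2, true)) (Rib.sub h (by decide) (by decide)) rfl rfl,
    Pant.of (x := (0, true)) (y := (2, true)) (Rib.sub (Rib.rot (A := [_, _, _, _]) (Four.aux h))
      (by decide) (by decide)) rfl rfl⟩

theorem Four.braid (h : Four X Y Z) : Four (X * Y * X⁻¹) X Z ∧ Four Y (Y⁻¹ * X * Y) Z := by
  constructor
  · refine Four.of (x := (1, true)) (y := (0, true)) (z := (2, true))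
      (Rib.rot (A := [_]) (Rib.slide' (A := []) (y := (0, true)) (K := [(1, false), (1, true)])
      (B := [(2, false), (2, true)]) (C := []) (Rib.rot (A := [_]) h))) ?_ ?_ ?_ <;>
      rw [dlab_gau] <;> simp only [Fin.isValue, List.mem_cons, Prod.mk.injEq, Bool.true_eq_false, and_false, List.not_mem_nil, or_false, or_true, ↓ reduceIte, dlab, Matrix.cons_val_zero, cond_true, Matrix.cons_val_one, rev, Bool.not_true, Bool.false_eq_true, or_self, zero_ne_one, and_self, and_true, one_mul, inv_one, mul_one, Fin.reduceEq, Matrix.cons_val]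
  · refine Four.of (x := (1, true)) (y := (0, true)) (z := (2, true))
      (Rib.rot (A := [_, _, _, _, _]) (B := [_]) (Rib.slide (A := []) (y := (1, true))
      (K := [(0, false), (0, true)]) (B := [(2, false), (2, true)]) (C := [])
      (Rib.rot (A := [_, _, _, _, _]) h))) ?_ ?_ ?_ <;> rw [dlab_gau] <;> simp [dlab, rev]

theorem Four.conj (h : Four X Y Z) (u : Fr g) :
    Four (u * X * u⁻¹) (u * Y * u⁻¹) (u * Z * u⁻¹) :=
  Four.of (x := (0, true)) (y := (1, true)) (z := (2, true)) (Rib.act h (autR_conj u)) rfl rfl rfl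

theorem Four.twist (h : Four X Y Z) (k : ℤ) : Four X Y ((X * Y) ^ k * Z * ((X * Y) ^ k)⁻¹) := by
  induction k with
  | zero => simpa using h
  | succ k ih =>
    convert Four.conj (Four.braid (Four.braid ih).2).2 (X * Y) using 1
    · group
    · group
    · generalize X * Y = W; group
  | pred k ih =>
    convert Four.conj (Four.braid (Four.braid ih).1).1 (X * Y)⁻¹ using 1
    · group
    · group
    · generalize X * Y = W; group

end Pool.Agent.MP_596265_gt.U

end

section

/-! Normal form of a pair of pants, as needed for the null set of reducible pants. -/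

namespace Pool.Agent.MP_596265_gt.U

open Erg

variable {g : ℕ}

/-- Words in the generators outside the handles `j`, `k`. -/
def Av (j k : Fin g) : Subgroup (Fr g) :=
  Subgroup.closure {w | ∃ x : Gen g, x.1 ≠ j ∧ x.1 ≠ k ∧ w = FreeGroup.of x}

/-- Standard pairs: a curve of a handle with the boundary of that handle, or a word `U` that
avoids the handles `j`, `k` with a word that contains `a_j` or `[a_j, b_j]` once. -/
def StdP (U V : Fr g) : Prop :=
  (∃ k, U = FreeGroup.of (k, false) ∧ V = comm g k) ∨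
    ∃ j k, j ≠ k ∧ U ∈ Av j k ∧ ∃ p ∈ Av j k, ∃ q ∈ Av j k,
      V = p * FreeGroup.of (j, false) * q ∨ V = p * comm g j * q

/-- The pair `X, Y` has the commutator trace of the image of a standard pair. -/
def NFP (X Y : Fr g) : Prop :=
  ∃ (ψ : Fr g ≃* Fr g) (U V : Fr g), AutR ψ ∧ StdP U V ∧ Simp U ∧ ∀ M : Tup g, PM (FreeGroup.lift M (relPre g g)) 1 →
    kap (FreeGroup.lift M X) (FreeGroup.lift M Y) =
      kap (FreeGroup.lift M (ψ U)) (FreeGroup.lift M (ψ V))

end Pool.Agent.MP_596265_gt.U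

end

section

/-! For almost every tuple without elliptic simple curve no pair of pants is reducible. -/

namespace Pool.Agent.MP_596265_gt.U

open Erg Filter Topology MeasureTheory Set

variable {g : ℕ}

theorem gn_kap (x y : G) : kap x y = 2 - ((x : Mat) * y - (y : Mat) * x).det := by
  have h1 := basic_det x
  have h2 := basic_det y
  simp only [kap, tr, basic_mul, basic_inv00, basic_inv01, basic_inv10, basic_inv11,
    Matrix.det_fin_two, Matrix.sub_apply, Matrix.mul_apply, Fin.sum_univ_two]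
  linear_combination (2 * (y 0 0 * y 1 1 - y 0 1 * y 1 0)) * h1 + 2 * h2

theorem gn_fr (x y : G) :
    kap x y = tr x ^ 2 + tr y ^ 2 + tr (x * y) ^ 2 - tr x * tr y * tr (x * y) - 2 := by
  have h1 := basic_det x
  have h2 := basic_det y
  simp only [kap, tr, basic_mul, basic_inv00, basic_inv01, basic_inv10, basic_inv11]
  linear_combination ((y 0 0 + y 1 1) ^ 2 - 2 * (y 0 0 * y 1 1 - y 0 1 * y 1 0)) * h1 +
    ((x 0 0 + x 1 1) ^ 2 - 2) * h2

theorem gn_rec (x y : G) : tr (x * y) + tr (x⁻¹ * y) = tr x * tr y := by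
  simp only [tr, basic_mul, basic_inv00, basic_inv01, basic_inv10, basic_inv11]
  ring

theorem gn_alg {a b c d p q r s α β γ : ℝ} (h1 : a * d - b * c = 1) (h2 : p * s - q * r = 1)
    (hn : α ^ 2 + β * γ = 0) (ht : α * (a - d) + β * c + γ * b = 0)
    (w1 : p * (2 * α * b - β * (a - d)) - q * (β * c - b * γ) = 0)
    (w2 : r * (β * c - b * γ) + s * (γ * (a - d) - 2 * α * c) = 0)
    (w3 : p * (β * c - b * γ) + q * (γ * (a - d) - 2 * α * c) =
      r * (2 * α * b - β * (a - d)) - s * (β * c - b * γ))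
    (h0 : β ≠ 0 ∨ γ ≠ 0) : |a + d| = 2 := by
  set u := β * c - b * γ with hu
  set v := 2 * α * b - β * (a - d) with hv
  set w := γ * (a - d) - 2 * α * c with hw
  have hd : u ^ 2 + v * w = 0 := by
    rw [hu, hv, hw]
    linear_combination (α * (a - d) + β * c + γ * b) * ht - ((a - d) ^ 2 + 4 * b * c) * hn
  have k : (p * u + q * w) ^ 2 = 0 := by
    linear_combination (p * u + q * w) * w3 - (u ^ 2 + v * w) * h2 - hd +
      (r * u + s * w) * w1
  have k0 : p * u + q * w = 0 := pow_eq_zero_iff two_ne_zero |>.1 k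
  have u0 : u = 0 := by linear_combination s * k0 - q * w2 - u * h2
  have w0 : w = 0 := by linear_combination p * w2 - r * k0 - w * h2
  have v0 : v = 0 := by linear_combination s * w1 - q * (k0 - w3) - v * h2
  have e : (a + d) ^ 2 = 2 ^ 2 := by
    rcases h0 with h | h
    · refine mul_left_cancel₀ (pow_ne_zero 2 h) ?_
      rw [hu] at u0
      rw [hv] at v0
      linear_combination 4 * β ^ 2 * h1 + 4 * b ^ 2 * hn + 4 * β * b * u0 -
        (2 * α * b + β * (a - d)) * v0
    · refine mul_left_cancel₀ (pow_ne_zero 2 h) ?_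
      rw [hu] at u0
      rw [hw] at w0
      linear_combination 4 * γ ^ 2 * h1 + 4 * c ^ 2 * hn - 4 * γ * c * u0 +
        (2 * α * c + γ * (a - d)) * w0
  rw [← abs_two (α := ℝ)]
  exact sq_eq_sq_iff_abs_eq_abs _ _ |>.1 e

theorem gn_core (hg : 3 ≤ g) (e : ℤ) {x y : Tup g → G} {fx fy : Amb g → Mat}
    (hx : ∀ i j, ContDiff ℝ 1 fun m => fx m i j) (hy : ∀ i j, ContDiff ℝ 1 fun m => fy m i j)
    (ex : ∀ M, fx (io M) = x M) (ey : ∀ M, fy (io M) = y M) {B : Set (Tup g)}
    (hB : ∀ M ∈ B, ∀ Z : Mat, Z.trace = 0 → ∃ α, TL α ∧ fox M α g = 0 ∧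
      (∀ t : ℝ, fx (io M + t • tv M α) = x M) ∧
      ∀ i j, HasDerivAt (fun t : ℝ => fy (io M + t • tv M α) i j) ((Z * y M) i j) 0) :
    mu g e {M | M ∈ B ∧ |tr (x M)| ≠ 2 ∧ kap (x M) (y M) = 2} = 0 := by
  set C : Amb g → Mat := fun m => fx m * fy m - fy m * fx m with hC
  have cC : ∀ i j, ContDiff ℝ 1 fun m => C m i j := fun i j =>
    (xf_cd_mul hx hy i j).sub (xf_cd_mul hy hx i j)
  have eC : ∀ M, C (io M) = (x M : Mat) * y M - (y M : Mat) * x M := fun M => by
    simp only [hC, ex, ey]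
  have dC : ∀ M ∈ B, ∀ Z : Mat, Z.trace = 0 → ∃ α, TL α ∧ fox M α g = 0 ∧
      ∀ i j, HasDerivAt (fun t : ℝ => C (io M + t • tv M α) i j)
        (((x M : Mat) * (Z * y M) - Z * y M * x M) i j) 0 := by
    intro M hM Z hZ
    obtain ⟨α, a1, a2, a3, a4⟩ := hB M hM Z hZ
    refine ⟨α, a1, a2, fun i j => ?_⟩
    simp only [hC, a3, Matrix.sub_apply]
    have c0 : ∀ i j, HasDerivAt (fun _ : ℝ => (x M : Mat) i j) ((0 : Mat) i j) 0 :=
      fun i j => hasDerivAt_const _ _
    exact ((xf_mul c0 a4 i j).sub (xf_mul a4 c0 i j)).congr_deriv (by simp)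
  have tH : (!![1, 0; 0, -1] : Mat).trace = 0 := by simp [Matrix.trace_fin_two]
  have h1 : mu g e {M | (M ∈ B ∧ |tr (x M)| ≠ 2) ∧ C (io M) = 0} = 0 := by
    refine lv_set hg fun M hM _ _ => ?_
    by_contra hc
    have key : ∀ Z : Mat, Z.trace = 0 → (x M : Mat) * Z = Z * x M := by
      intro Z hZ
      obtain ⟨α, a1, a2, a3⟩ := dC M hM.1.1 Z hZ
      have : (x M : Mat) * (Z * y M) - Z * y M * x M = 0 := by
        ext i j
        by_contra h
        exact hc ⟨fun m => C m i j, α, (cC i j).contDiffAt, a1, a2,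
          by rwa [xf_line (cC i j) (a3 i j)], fun N hN _ => by simp only [hN.2, hM.2]⟩
      have e2 : (y M : Mat) * x M = (x M : Mat) * y M :=
        (sub_eq_zero.1 ((eC M).symm.trans hM.2)).symm
      rw [sub_eq_zero, Matrix.mul_assoc, e2, ← Matrix.mul_assoc, ← Matrix.mul_assoc] at this
      have := congrArg (· * (((y M)⁻¹ : G) : Mat)) this
      simpa only [Matrix.mul_assoc, xf_inv', Matrix.mul_one] using this
    have k1 := congrFun (congrFun (key _ xz_up_tr) 0) 0
    have k2 := congrFun (congrFun (key _ xz_up_tr) 0) 1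
    have hd := basic_det (x M)
    simp only [xz_up, Fin.isValue, Matrix.mul_apply, Matrix.of_apply, Matrix.cons_val', Matrix.cons_val_zero, Matrix.cons_val_fin_one, Fin.sum_univ_two, mul_zero, Matrix.cons_val_one, add_zero, zero_mul, one_mul, zero_add, mul_one] at k1 k2
    refine hM.1.2 ?_
    rw [← abs_two (α := ℝ)]
    refine (sq_eq_sq_iff_abs_eq_abs _ _).1 ?_
    rw [tr, ← k2]
    rw [← k1, ← k2] at hd
    linear_combination 4 * hd
  have h2 : mu g e {M | (M ∈ B ∧ |tr (x M)| ≠ 2) ∧ (C (io M)).det = 0 ∧ C (io M) ≠ 0} = 0 := by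
    refine lv_set hg fun M hM _ _ => ?_
    by_contra hc
    have cD : ContDiff ℝ 1 fun m => (C m).det := by
      simp only [Matrix.det_fin_two]
      exact ((cC 0 0).mul (cC 1 1)).sub ((cC 0 1).mul (cC 1 0))
    have key : ∀ Z D : Mat, Z.trace = 0 → D = (x M : Mat) * (Z * y M) - Z * y M * x M →
        D 0 0 * C (io M) 1 1 + C (io M) 0 0 * D 1 1 -
          (D 0 1 * C (io M) 1 0 + C (io M) 0 1 * D 1 0) = 0 := by
      rintro Z D hZ rfl
      obtain ⟨α, a1, a2, a3⟩ := dC M hM.1.1 Z hZ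
      by_contra h
      refine hc ⟨fun m => (C m).det, α, cD.contDiffAt, a1, a2, ?_,
        fun N hN _ => hN.2.1.trans hM.2.1.symm⟩
      rw [xf_line cD (r := _) ?_]
      · exact h
      · simp only [Matrix.det_fin_two]
        exact (((a3 0 0).mul (a3 1 1)).sub ((a3 0 1).mul (a3 1 0))).congr_deriv (by simp only [Fin.isValue, Matrix.sub_apply, zero_smul, add_zero])
    have k1 := key _ _ xz_up_tr rfl
    have k2 := key _ _ xz_dn_tr rfl
    have k3 := key _ _ tH rfl
    have k4 := hM.2.1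
    have k5 := hM.2.2
    rw [eC] at k1 k2 k3 k4 k5
    simp only [xz_up, xz_dn, Matrix.sub_apply, Matrix.mul_apply, Fin.sum_univ_two, Matrix.of_apply,
      Matrix.cons_val', Matrix.cons_val_zero, Matrix.cons_val_one, Matrix.cons_val_fin_one,
      Matrix.det_fin_two] at k1 k2 k3 k4
    refine hM.1.2 (gn_alg (α := x M 0 1 * y M 1 0 - y M 0 1 * x M 1 0)
      (β := x M 0 0 * y M 0 1 + x M 0 1 * y M 1 1 - (y M 0 0 * x M 0 1 + y M 0 1 * x M 1 1))
      (γ := x M 1 0 * y M 0 0 + x M 1 1 * y M 1 0 - (y M 1 0 * x M 0 0 + y M 1 1 * x M 1 0))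
      (basic_det (x M)) (basic_det (y M)) (by linear_combination -k4) (by ring)
      (by linear_combination -k2) (by linear_combination -k1) (by linear_combination -k3) ?_)
    by_contra h
    push Not at h
    refine k5 ?_
    have h3 : x M 0 1 * y M 1 0 - y M 0 1 * x M 1 0 = 0 := by
      refine pow_eq_zero_iff two_ne_zero |>.1 ?_
      rw [h.1] at k4
      linear_combination -k4
    ext i j
    fin_cases i <;> fin_cases j <;>
      simp only [Matrix.sub_apply, Matrix.mul_apply, Fin.sum_univ_two, Fin.zero_eta, Fin.mk_one,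
        Matrix.zero_apply]
    · linear_combination h3
    · exact h.1
    · exact h.2
    · linear_combination -h3
  refine measure_mono_null (fun M hM => ?_) (measure_union_null h1 h2)
  by_cases a : C (io M) = 0
  · exact Or.inl ⟨⟨hM.1, hM.2.1⟩, a⟩
  · refine Or.inr ⟨⟨hM.1, hM.2.1⟩, ?_, a⟩
    have := hM.2.2
    rw [gn_kap] at this
    rw [eC]
    linarith only [this]

/-- A smooth extension of the evaluation of a word. -/
def gn_Ex (w : Fr g) (f : Amb g → Mat) : Prop :=
  (∀ i j, ContDiff ℝ 1 fun m => f m i j) ∧ ∀ M : Tup g, f (io M) = (FreeGroup.lift M w : G)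

theorem gn_Ex.mul {w w' : Fr g} {f f' : Amb g → Mat} (h : gn_Ex w f) (h' : gn_Ex w' f') :
    gn_Ex (w * w') fun m => f m * f' m :=
  ⟨xf_cd_mul h.1 h'.1, fun M => by simp only [h.2, h'.2, map_mul]; rfl⟩

theorem gn_of (x : Gen g) : gn_Ex (FreeGroup.of x) fun m => Matrix.of (m x) :=
  ⟨xf_cd_of x, fun M => by rw [FreeGroup.lift_apply_of]; rfl⟩

theorem gn_hc (M : Tup g) (j : Fin g) : FreeGroup.lift M (comm g j) = hc M j := by
  simp only [comm, map_mul, FreeGroup.lift_apply_of, map_inv, hc, cm, ha, hb]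

theorem gn_cm (j : Fin g) : gn_Ex (comm g j) fun m => cmE m j :=
  ⟨xf_cd_mul (xf_cd_mul (xf_cd_mul (xf_cd_of _) (xf_cd_of _)) (xf_cd_adj _)) (xf_cd_adj _),
    fun M => by rw [gn_hc]; exact xf_cm M j⟩

theorem gn_av {j k : Fin g} {w : Fr g} (h : w ∈ Av j k) : ∃ f, gn_Ex w f ∧
    ∀ m m' : Amb g, (∀ x : Gen g, x.1 ≠ j → x.1 ≠ k → m x = m' x) → f m = f m' := by
  induction h using Subgroup.closure_induction with
  | mem w h =>
    obtain ⟨x, a, b, rfl⟩ := h
    exact ⟨_, gn_of x, fun m m' h => by simp only [h x a b]⟩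
  | one => exact ⟨fun _ => 1, ⟨fun _ _ => contDiff_const, fun M => by rw [map_one]; rfl⟩,
      fun _ _ _ => rfl⟩
  | mul a b _ _ ha hb =>
    obtain ⟨f, a1, a2⟩ := ha
    obtain ⟨f', b1, b2⟩ := hb
    exact ⟨_, a1.mul b1, fun m m' h => by simp only [a2 m m' h, b2 m m' h]⟩
  | inv a _ ha =>
    obtain ⟨f, a1, a2⟩ := ha
    refine ⟨fun m => (f m).adjugate, ⟨fun i j => ?_, fun M => ?_⟩,
      fun m m' h => by simp only [a2 m m' h]⟩
    · simp only [Matrix.adjugate_fin_two]
      fin_cases i <;> fin_cases j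
      exacts [a1.1 1 1, (a1.1 0 1).neg, (a1.1 1 0).neg, a1.1 0 0]
    · simp only [a1.2, map_inv, Matrix.SpecialLinearGroup.coe_inv]

theorem gn_word (hg : 3 ≤ g) (e : ℤ) {j k : Fin g} (hjk : j ≠ k) {U p q s : Fr g}
    (hU : U ∈ Av j k) (hp : p ∈ Av j k) (hq : q ∈ Av j k) {fs : Amb g → Mat} (hs : gn_Ex s fs)
    (hd : ∀ M : Tup g, hc M j ≠ 1 → ∀ Z : Mat, Z.trace = 0 → ∃ α, TL α ∧
      (∀ x : Gen g, x.1 ≠ j → α x = 0) ∧ ∀ β : Gen g → Mat, TL β →
      (∀ x : Gen g, x.1 = j → β x = α x) → ∀ a b,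
      HasDerivAt (fun t : ℝ => fs (io M + t • tv M β) a b)
        ((Z * (FreeGroup.lift M s : G)) a b) 0) :
    mu g e {M | (∀ i, hc M i ≠ 1) ∧ |tr (FreeGroup.lift M U)| ≠ 2 ∧
      kap (FreeGroup.lift M U) (FreeGroup.lift M (p * s * q)) = 2} = 0 := by
  obtain ⟨fU, u1, u2⟩ := gn_av hU
  obtain ⟨fp, p1, p2⟩ := gn_av hp
  obtain ⟨fq, q1, q2⟩ := gn_av hq
  have h := (p1.mul hs).mul q1
  refine gn_core hg e (B := {M | ∀ i, hc M i ≠ 1}) u1.1 h.1 u1.2 h.2 fun M hM Z hZ => ?_
  obtain ⟨α, a1, a2, a3⟩ := hd M (hM j) (ad (FreeGroup.lift M p)⁻¹ Z) (by rwa [ad_trace])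
  obtain ⟨β, b1, b2, b3⟩ := fox_extend (fx_single (hM k)) a1
  have c : ∀ (t : ℝ) (x : Gen g), x.1 ≠ j → x.1 ≠ k → (io M + t • tv M β) x = io M x := by
    intro t x h1 h2
    funext a b
    simp [tv, b2 x h2, a2 x h1]
  refine ⟨β, b1, b3, fun t => (u2 _ _ (c t)).trans (u1.2 M), fun a b => ?_⟩
  simp only [fun t => (p2 _ _ (c t)).trans (p1.2 M), fun t => (q2 _ _ (c t)).trans (q1.2 M)]
  have c0 : ∀ (A : Mat) i j, HasDerivAt (fun _ : ℝ => A i j) ((0 : Mat) i j) 0 :=
    fun A i j => hasDerivAt_const _ _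
  refine (xf_mul (xf_mul (c0 _) (a3 β b1 fun x hx => b2 x fun h => hjk (hx.symm.trans h)))
    (c0 _) a b).congr_deriv (congrFun (congrFun ?_ a) b)
  simp only [ad, inv_inv, map_mul, Matrix.SpecialLinearGroup.coe_mul, Matrix.zero_mul,
    Matrix.mul_zero, zero_add, add_zero, Matrix.mul_assoc, xf_can']

theorem gn_std (hg : 3 ≤ g) (e : ℤ) {j k : Fin g} (hjk : j ≠ k) {U p q V : Fr g}
    (hU : U ∈ Av j k) (hp : p ∈ Av j k) (hq : q ∈ Av j k)
    (hV : V = p * FreeGroup.of (j, false) * q ∨ V = p * comm g j * q) :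
    mu g e {M | (∀ i, hc M i ≠ 1) ∧ |tr (FreeGroup.lift M U)| ≠ 2 ∧
      kap (FreeGroup.lift M U) (FreeGroup.lift M V) = 2} = 0 := by
  classical
  rcases hV with rfl | rfl
  · refine gn_word hg e hjk hU hp hq (gn_of _) fun M _ Z hZ =>
      ⟨fun y => if y = (j, false) then ad (M (j, false))⁻¹ Z else 0, fun y => ?_, fun y hy => ?_,
        fun β _ hβ a b => ?_⟩
    · by_cases hy : y = (j, false) <;> simp [hy, ad_trace, hZ]
    · exact if_neg fun h => hy (by rw [h])
    · refine (xf_of _ _ _ a b).congr_deriv (congrFun (congrFun ?_ a) b)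
      change (M (j, false) : Mat) * β (j, false) = _
      have h : β (j, false) = ad (M (j, false))⁻¹ Z := (hβ _ rfl).trans (if_pos rfl)
      rw [h, FreeGroup.lift_apply_of, ad, inv_inv, Matrix.mul_assoc, xf_can']
  · refine gn_word hg e hjk hU hp hq (gn_cm _) fun M hM Z hZ => ?_
    obtain ⟨α, a1, a2, a3⟩ := fox_surj (fx_single hM) (Z := ad (pre M j) Z) (by rwa [ad_trace])
    refine ⟨α, a1, a2, fun β b1 hβ a b => ?_⟩
    rw [fox_single a2] at a3
    have := congrArg (ad (pre M j)⁻¹) a3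
    rw [← ad_mul, ← ad_mul, inv_mul_cancel, ad_one, ad_one] at this
    have h := xf_dcm M b1 j a b
    rwa [hβ _ rfl, hβ _ rfl, this, ← gn_hc] at h

theorem gn_geo {y : ℕ → ℝ} (h2 : ∀ n, 2 ≤ |y n|) (hq : ∀ n, y (n + 2) * y n = y (n + 1) ^ 2) :
    |y 0| ≤ |y 1| := by
  by_contra hc
  have n0 : ∀ n, y n ≠ 0 := fun n h => by
    have := h2 n
    rw [h, abs_zero] at this
    linarith
  have k : ∀ n, y (n + 1) = y 1 / y 0 * y n := by
    intro n
    induction n with
    | zero => rw [div_mul_cancel₀ _ (n0 0)]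
    | succ n ih =>
      refine mul_right_cancel₀ (n0 n) ?_
      rw [hq, mul_assoc, mul_comm (y (n + 1)), ← mul_assoc, ← ih, sq]
  have k' : ∀ n, |y n| = |y 1 / y 0| ^ n * |y 0| := by
    intro n
    induction n with
    | zero => simp
    | succ n ih => rw [k, abs_mul, ih]; ring
  have p0 : 0 < |y 0| := abs_pos.2 (n0 0)
  obtain ⟨n, hn⟩ := exists_pow_lt_of_lt_one (div_pos two_pos p0)
    (show |y 1 / y 0| < 1 by rw [abs_div, div_lt_one p0]; exact not_le.1 hc)
  have := h2 n
  rw [k', ← div_le_iff₀ p0] at this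
  exact absurd hn (not_lt.2 this)

theorem gn_handle {a b : G} (h2 : ∀ n : ℤ, 2 ≤ |tr (b * a ^ n)|) (ha : |tr a| ≠ 2)
    (hc : tr (cm a b) ≠ 2) : kap a (cm a b) ≠ 2 := by
  intro h
  have e0 : tr (a * cm a b) = tr a * tr (cm a b) - tr a := by
    have := gn_rec a (cm a b)
    rw [show a⁻¹ * cm a b = b * a⁻¹ * b⁻¹ by unfold cm; group, tr_conj, tr_inv] at this
    linarith
  rw [gn_fr, e0] at h
  have e1 : tr (cm a b) = tr a ^ 2 - 2 :=
    mul_left_cancel₀ (sub_ne_zero.2 hc) (by linear_combination h)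
  set y : ℤ → ℝ := fun n => tr (b * a ^ n) with hy
  have e2 : ∀ n, y n ^ 2 + y (n + 1) ^ 2 = tr a * y n * y (n + 1) := fun n => by
    have := gn_fr a (b * a ^ n)
    rw [show kap a (b * a ^ n) = tr (cm a b) by unfold kap cm; congr 1; group, e1,
      tr_mul_comm a, show b * a ^ n * a = b * a ^ (n + 1) by group] at this
    simp only [hy]
    linarith only [this]
  have e3 : ∀ n, y (n + 1) + y (n - 1) = tr a * y n := fun n => by
    have := gn_rec a (b * a ^ n)
    rwa [tr_mul_comm a, tr_mul_comm a⁻¹, show b * a ^ n * a = b * a ^ (n + 1) by group,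
      show b * a ^ n * a⁻¹ = b * a ^ (n - 1) by group] at this
  have e4 : ∀ n, y (n + 1) * y (n - 1) = y n ^ 2 := fun n => by
    linear_combination y (n + 1) * e3 n - e2 n
  have f1 := gn_geo (y := fun n => y n) (fun n => h2 n) fun n => by
    have := e4 (n + 1)
    simpa [add_assoc] using this
  have f2 := gn_geo (y := fun n => y (1 - n)) (fun n => h2 _) fun n => by
    have := e4 (-n)
    rw [mul_comm] at this
    convert this using 3 <;> push_cast <;> ring
  simp only [Nat.cast_zero, Nat.cast_one, sub_zero, sub_self] at f1 f2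
  have f3 : y 0 ^ 2 = y 1 ^ 2 := (sq_eq_sq_iff_abs_eq_abs _ _).2 (le_antisymm f1 f2)
  have f4 := e2 0
  rw [zero_add] at f4
  have n0 : y 0 ≠ 0 := fun h => by
    have := h2 0
    change 2 ≤ |y 0| at this
    rw [h, abs_zero] at this
    linarith only [this]
  refine ha ?_
  rw [← abs_two (α := ℝ)]
  refine (sq_eq_sq_iff_abs_eq_abs _ _).1 (mul_left_cancel₀ (pow_ne_zero 4 n0) ?_)
  linear_combination (tr a ^ 2 * y 0 ^ 2 - (tr a * y 0 * y 1 + 2 * y 0 ^ 2)) * f3 -
    (tr a * y 0 * y 1 + 2 * y 0 ^ 2) * f4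

theorem gn_nm (x y : G) (n : ℤ) : NM (x, y) (x, y * x ^ n) := by
  induction n using Int.induction_on with
  | zero => rw [zpow_zero, mul_one]; exact Relation.ReflTransGen.refl
  | succ n ih => exact ih.tail (by rw [zpow_add_one, ← mul_assoc]; constructor)
  | pred n ih => exact ih.tail (by rw [zpow_sub_one, ← mul_assoc]; constructor)

theorem Simp.gn {c : Fr g} (h : Simp c) {M : Tup g} (hR : PM (FreeGroup.lift M (relPre g g)) 1)
    (hG : Gn M) : |tr (FreeGroup.lift M c)| ≠ 2 := by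
  obtain ⟨ψ, hψ, ⟨k, a | a⟩ | ⟨k, a, b, d | d⟩⟩ := h
  · rw [(a.pm hR).abs_tr]; exact (hG ψ hψ).1 k
  · rw [(a.pm hR).abs_tr, map_inv, tr_inv]; exact (hG ψ hψ).1 k
  · rw [(d.pm hR).abs_tr, ← lift_act, ← pre_eq]; exact (hG ψ hψ).2 k a b
  · rw [(d.pm hR).abs_tr, map_inv, tr_inv, ← lift_act, ← pre_eq]; exact (hG ψ hψ).2 k a b

/-- No pair in normal form is reducible. -/
theorem gn2_ae (hg : 3 ≤ g) (e : ℤ) : ∀ᵐ M ∂mu g e, ¬ HasEll M → ∀ X Y : Fr g, NFP X Y →
    kap (FreeGroup.lift M X) (FreeGroup.lift M Y) ≠ 2 := by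
  have : NeZero g := ⟨by omega⟩
  have key : ∀ᵐ M ∂mu g e, ∀ (ψ : Fr g ≃* Fr g) (j k : Fin g) (U p q V : Fr g), AutR ψ ∧ j ≠ k ∧
      U ∈ Av j k ∧ p ∈ Av j k ∧ q ∈ Av j k ∧
      (V = p * FreeGroup.of (j, false) * q ∨ V = p * comm g j * q) →
      ¬ ((∀ i, hc (act ψ M) i ≠ 1) ∧ |tr (FreeGroup.lift (act ψ M) U)| ≠ 2 ∧
        kap (FreeGroup.lift (act ψ M) U) (FreeGroup.lift (act ψ M) V) = 2) := by
    simp only [ae_all_iff]
    rintro ψ j k U p q V ⟨h0, h1, h2, h3, h4, h5⟩
    exact measure_eq_zero_iff_ae_notMem.1 (qi_act (by omega) h0 (gn_std hg e h1 h2 h3 h4 h5))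
  filter_upwards [key, gn_ae hg e, ae_X e] with M hM hG hX hE X Y ⟨ψ, U, V, hψ, hS, hU, h⟩
  have hR : ∀ {N : Tup g}, N ∈ Erg.X g e → PM (FreeGroup.lift N (relPre g g)) 1 := fun h => by
    rw [← pre_eq]; exact X_pm h
  have hG' := hG.act hψ
  have h2 := hU.gn (hR (X_act hψ hX)) hG'
  rw [h M (hR hX), ← lift_act, ← lift_act]
  rcases hS with ⟨k, rfl, rfl⟩ | ⟨j, k, a, b, p, c, q, d, f⟩
  · rw [FreeGroup.lift_apply_of] at h2
    rw [FreeGroup.lift_apply_of, gn_hc]
    refine gn_handle (fun n => ?_) h2 (hG'.hc_ne hg k)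
    have := yd_hyp hG' (fun ψ' hψ' k hk => hE ⟨ψ'.trans ψ, hψ'.trans hψ, Or.inl
      ⟨k, by rwa [act_trans]⟩⟩) (gn_nm (ha (act ψ M) k) (hb (act ψ M) k) n)
    rw [tr_inv] at this
    exact this.le
  · exact fun h3 => hM ψ j k U p q V ⟨hψ, a, b, c, d, f⟩
      ⟨fun i e => hG'.hc_ne hg i (by rw [e, tr_one]), h2, h3⟩

end Pool.Agent.MP_596265_gt.U

end

section

/-! Normal form of marked maps: chains of handles. -/

namespace Pool.Agent.MP_596265_gt.U.PN

open Erg

variable {g : ℕ} {I : Type} {H : Type} [Group H] {μ : I → H} {P : I × Bool → H} {v v' : H}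
  {A B C K V : List (I × Bool)} {l : I → Fr g} {y : I × Bool}

theorem wk_out (hn : (A ++ y :: (K ++ B ++ rev y :: C)).Nodup) :
    (Wk μ P v (A ++ K ++ y :: (B ++ rev y :: C)) v' →
      ∃ P', Wk (gau K (dlab μ y ^ (-1 : ℤ)) μ) P' v (A ++ y :: (B ++ rev y :: (K ++ C))) v') ∧
    (Wk μ P v (A ++ y :: (B ++ rev y :: (K ++ C))) v' →
      ∃ P', Wk (gau K (dlab μ y ^ (1 : ℤ)) μ) P' v (A ++ K ++ y :: (B ++ rev y :: C)) v') := by
  obtain ⟨n1, n2, n3⟩ := rb_nd hn
  have n4 : ∀ x, x ∈ A ∨ x ∈ B ∨ x ∈ C → x ∉ K ∧ x ≠ rev y ∧ x ≠ rev (rev y) := fun x hx =>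
    ⟨(n3 x hx).1, (n3 x hx).2.2, by rw [rev_rev]; exact (n3 x hx).2.1⟩
  simp only [wk_append, Wk, rev_rev, zpow_neg, zpow_one]
  constructor
  · rintro ⟨u2, ⟨u1, a1, a2⟩, a3, u3, a4, a5, a6⟩
    obtain ⟨P', p1, p2, p3, p4, p5⟩ := wk_gau (μ := μ) (P := P) (y := rev y) n2
      (by rwa [rev_rev]) (dlab μ y)⁻¹ u1
    rw [rev_rev] at p1
    have p6 := congrArg (·⁻¹) p3
    simp only [dlab_rev, inv_inv] at p6
    refine ⟨P', u1, p5 _ _ _ (fun x hx => n4 x (.inl hx)) a1, p1, u3, ?_, p2.trans a5,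
      u2 * dlab μ y, ?_, ?_⟩
    · rw [p2, p3]; exact p5 _ _ _ (fun x hx => n4 x (.inr (.inl hx))) a4
    · simpa [p1, p6] using p4 _ _ a2
    · rw [← a3]; exact p5 _ _ _ (fun x hx => n4 x (.inr (.inr hx))) a6
  · rintro ⟨u1, a1, a3, u3, a4, a5, u2, a2, a6⟩
    obtain ⟨P', p1, p2, p3, p4, p5⟩ := wk_gau (μ := μ) (P := P) (y := rev y) n2
      (by rwa [rev_rev]) (dlab μ y) (u2 * (dlab μ y)⁻¹)
    rw [rev_rev] at p1
    have p6 := congrArg (·⁻¹) p3
    simp only [dlab_rev, inv_inv] at p6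
    refine ⟨P', _, ⟨u1, p5 _ _ _ (fun x hx => n4 x (.inl hx)) a1, ?_⟩, p1, u3, ?_, p2.trans a5, ?_⟩
    · simpa [a3] using p4 _ _ a2
    · rw [p2, p3]; exact p5 _ _ _ (fun x hx => n4 x (.inr (.inl hx))) a4
    · rw [p1, p6, inv_mul_cancel_right]; exact p5 _ _ _ (fun x hx => n4 x (.inr (.inr hx))) a6

/-- The block before `y` moves to the place after `rev y`. -/
theorem out (h : GM (A ++ K ++ y :: (B ++ rev y :: C)) l) :
    GM (A ++ y :: (B ++ rev y :: (K ++ C))) (gau K (dlab l y)⁻¹ l) := by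
  classical
  have p1 : (A ++ K ++ y :: (B ++ rev y :: C)).Perm (A ++ y :: (K ++ B ++ rev y :: C)) :=
    List.perm_iff_count.2 fun x => by
      simp only [List.count_append, List.count_cons]; omega
  have p2 : (A ++ K ++ y :: (B ++ rev y :: C)).Perm (A ++ y :: (B ++ rev y :: (K ++ C))) :=
    List.perm_iff_count.2 fun x => by
      simp only [List.count_append, List.count_cons]; omega
  have n := p1.nodup_iff.1 h.nd
  have := h.gauge p2 (by simp) (rb_nd n).1 (rb_nd n).2.1 (-1)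
    (fun _ _ _ => (wk_out n).1) fun _ _ _ _ _ _ => (wk_out n).2
  rwa [zpow_neg_one] at this

theorem gau_off {u : H} {d : I × Bool} (h1 : d ∉ K) (h2 : rev d ∉ K) :
    dlab (gau K u μ) d = dlab μ d := by simp [dlab_gau, h1, h2]

/-- Two linked loops are moved into a handle. -/
theorem handle {U1 U2 W1 W2 : List (I × Bool)} {a b : I × Bool}
    (h : GM (A ++ a :: (U1 ++ b :: (U2 ++ rev a :: (W1 ++ rev b :: W2)))) l) :
    ∃ (l' : I → Fr g) (p : I × Bool → Fr g),
      GM (A ++ a :: b :: rev a :: rev b :: (W1 ++ U2 ++ U1 ++ W2)) l' ∧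
      (∀ d, dlab l' d = p d * dlab l d * (p (rev d))⁻¹) ∧
      (∀ d, d ∉ W1 ++ U2 ++ U1 → p d = 1) ∧
      ∀ d ∈ W1, p d = (dlab l b)⁻¹ * dlab l a * dlab l b := by
  classical
  have h1 := GM.slide' (A := A ++ a :: U1) (B := U2 ++ [rev a]) (K := W1) (C := W2) (y := b)
    (by simpa using h)
  have h2 := GM.slide' (A := A) (B := U1 ++ [b]) (K := W1 ++ U2) (C := rev b :: W2) (y := a)
    (by simpa using h1)
  have h3 := out (A := A ++ [a]) (K := W1 ++ U2 ++ U1) (B := [rev a]) (C := W2) (y := b)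
    (by simpa using h2)
  have n := h3.nd
  simp only [List.nodup_append, List.nodup_cons, List.mem_append, List.mem_cons, List.cons_append,
    List.nil_append, not_or] at n
  have a1 : a ∉ W1 := fun e => n.2.2 a (by simp) a (by simp [e]) rfl
  have e1 : dlab (gau W1 (dlab l b) l) a = dlab l a := gau_off a1 (by tauto)
  have e2 : dlab (gau (W1 ++ U2) (dlab l a) (gau W1 (dlab l b) l)) b = dlab l b := by
    rw [gau_off (by simp only [List.mem_append]; tauto) (by simp only [List.mem_append]; tauto),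
      gau_off (by tauto) (by tauto)]
  rw [e1, e2] at h3
  refine ⟨gau (W1 ++ U2 ++ U1) (dlab l b)⁻¹ (gau (W1 ++ U2) (dlab l a) (gau W1 (dlab l b) l)),
    fun d => (if d ∈ W1 ++ U2 ++ U1 then (dlab l b)⁻¹ else 1) *
    (if d ∈ W1 ++ U2 then dlab l a else 1) * (if d ∈ W1 then dlab l b else 1),
    by simpa using h3, fun d => ?_, fun d hd => ?_, fun d hd => by simp [hd]⟩
  · simp only [dlab_gau]; group
  · simp only [List.mem_append, not_or] at hd
    simp [hd]

theorem col_sp (hn : (A ++ y :: (B ++ rev y :: C)).Nodup) (hB : ∀ d ∈ B, rev d ∈ B) :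
    ∃ ε : I × Bool → Multiplicative (ZMod 2),
      Wk (fun _ => 1) ε 1 (A ++ y :: (B ++ rev y :: C)) 1 ∧ ε y ≠ ε (rev y) := by
  classical
  obtain ⟨n1, n2, n3⟩ := rb_nd (B := []) (K := B) (by simpa using hn)
  have k : ∀ x, x ∈ A ∨ x ∈ C → (x ∉ B ∧ x ≠ rev y) ∧ rev x ∉ B ∧ rev x ≠ rev y := fun x hx => by
    obtain ⟨e1, e2, e3⟩ := n3 x (by tauto)
    exact ⟨⟨e1, e3⟩, fun e => e1 (by simpa using hB _ e), fun e => e2 ((revP I).injective e)⟩
  refine ⟨fun d => if d ∈ B ∨ d = rev y then .ofAdd 1 else 1, ?_, ?_⟩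
  · simp only [wk_gk, gk_append, Gk, Function.comp, dlab_one, mul_one, rev_rev, n1,
      (rev_ne y).symm, or_self, or_true, if_true, if_false]
    refine ⟨1, gk_const fun d hd => ?_, rfl, _, gk_const fun d hd => ?_, rfl,
      gk_const fun d hd => ?_⟩
    · simp only [k d (.inl hd), or_self, ↓ reduceIte, Function.comp_apply, and_self]
    · simp only [hd, true_or, ↓ reduceIte, Function.comp_apply, hB d hd, and_self]
    · simp [k d (.inr hd)]
  · simp only [n1, (rev_ne y).symm, or_self, or_true, if_true, if_false]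
    decide

/-- The word of a chain of handles. -/
def cv (cs : List ((I × Bool) × (I × Bool))) : List (I × Bool) :=
  cs.flatMap fun c => [c.1, c.2, rev c.1, rev c.2]

/-- The commutator of a handle. -/
def cm (μ : I → H) (c : (I × Bool) × (I × Bool)) : H :=
  dlab μ c.1 * (dlab μ c.2)⁻¹ * (dlab μ c.1)⁻¹ * dlab μ c.2

def cp (μ : I → H) (cs : List ((I × Bool) × (I × Bool))) : H := (cs.map (cm μ)).prod

variable {c : (I × Bool) × (I × Bool)} {cs cs' : List ((I × Bool) × (I × Bool))}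

theorem cv_cons : cv (c :: cs) = c.1 :: c.2 :: rev c.1 :: rev c.2 :: cv cs := by simp [cv]
theorem cv_append : cv (cs ++ cs') = cv cs ++ cv cs' := by simp [cv]
theorem cp_cons : cp μ (c :: cs) = cm μ c * cp μ cs := by simp [cp]
theorem cp_append : cp μ (cs ++ cs') = cp μ cs * cp μ cs' := by simp [cp]
theorem mem_cv {d : I × Bool} : d ∈ cv cs ↔
    ∃ c ∈ cs, d = c.1 ∨ d = c.2 ∨ d = rev c.1 ∨ d = rev c.2 := by simp only [cv, List.mem_flatMap, List.mem_cons, List.not_mem_nil, or_false, Prod.exists, Bool.exists_bool]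

theorem cv_sp : ∀ d ∈ cv cs, rev d ∈ cv cs := fun d hd => by
  obtain ⟨c, hc, e⟩ := mem_cv.1 hd
  refine mem_cv.2 ⟨c, hc, ?_⟩
  rcases e with rfl | rfl | rfl | rfl <;> simp

theorem wk_cv (h : Wk μ P v (cv cs) v') : v' = v * cp μ cs := by
  induction cs generalizing v with
  | nil => exact (mul_one v).symm ▸ h.symm
  | cons c cs ih =>
    rw [cv_cons] at h
    obtain ⟨h1, h2, h3, h4, h5⟩ := h
    simp only [rev_rev, dlab_rev] at h2 h3 h4 h5
    rw [ih h5, h2, h3, h4, h1, cp_cons, cm]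
    group

theorem cp_mem {S : Subgroup H} (h : ∀ d ∈ cv cs, dlab μ d ∈ S) : cp μ cs ∈ S := by
  refine S.list_prod_mem fun z hz => ?_
  obtain ⟨c, hc, rfl⟩ := List.mem_map.1 hz
  have h1 := h _ (mem_cv.2 ⟨c, hc, .inl rfl⟩)
  have h2 := h _ (mem_cv.2 ⟨c, hc, .inr (.inl rfl)⟩)
  exact mul_mem (mul_mem (mul_mem h1 (inv_mem h2)) (inv_mem h1)) h2

theorem cp_congr {ν : I → H} (h : ∀ d ∈ cv cs, dlab ν d = dlab μ d) : cp ν cs = cp μ cs := by
  refine congrArg List.prod (List.map_congr_left fun c hc => ?_)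
  rw [cm, cm, h _ (mem_cv.2 ⟨c, hc, .inl rfl⟩), h _ (mem_cv.2 ⟨c, hc, .inr (.inl rfl)⟩)]

/-- A loop round a chain of handles is deleted. -/
theorem del (h : GM (A ++ y :: (cv cs ++ rev y :: C)) l) :
    GM (A ++ cv cs ++ C) l ∧ dlab l y = cp l cs := by
  obtain ⟨ε, e1, e2⟩ := col_sp h.nd cv_sp
  obtain ⟨P, v, v', a, -⟩ := h.dfc
  obtain ⟨Q, u, -, a2, -⟩ := wk_del a e1 e2
  exact ⟨h.del e1 e2, mul_left_cancel (wk_cv a2)⟩

theorem nf_aux (n : ℕ) : ∀ (A V : List (I × Bool)) (l : I → Fr g), V.length ≤ n →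
    GM (A ++ V ++ B) l → (∀ d ∈ V, rev d ∈ V) →
    ∃ cs l', GM (A ++ cv cs ++ B) l' ∧ ∀ d, d ∉ V → dlab l' d = dlab l d := by
  induction n with
  | zero =>
    intro A V l hn h _
    obtain rfl := List.length_eq_zero_iff.1 (Nat.le_zero.1 hn)
    exact ⟨[], l, h, fun _ _ => rfl⟩
  | succ n ih =>
    intro A V l hn h hV
    obtain rfl | ⟨a, V, rfl⟩ := V.eq_nil_or_concat.imp id fun _ => List.exists_cons_of_ne_nil
      (l := V) (by rintro rfl; simp_all)
    · exact ⟨[], l, h, fun _ _ => rfl⟩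
    obtain ⟨U, W, rfl⟩ := List.append_of_mem
      ((List.mem_cons.1 (hV a (by simp))).resolve_left (rev_ne a))
    have nd : (a :: (U ++ rev a :: W)).Nodup :=
      h.nd.sublist ((List.sublist_append_right _ _).trans (List.sublist_append_left _ _))
    have ne := fun d => rb_nd' (A := []) (x := d) nd
    have sp : ∀ d ∈ U ++ W, rev d ∈ U ++ W := fun d hd => by
      have e := hV d (by simp only [List.mem_append, List.mem_cons] at hd ⊢; tauto)
      have e1 : rev d ≠ a := fun c => (ne d (by simpa using hd)).2 (by rw [← c, rev_rev])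
      have e2 : rev d ≠ rev a := fun c => (ne d (by simpa using hd)).1 ((revP I).injective c)
      simpa [e1, e2] using e
    simp only [List.length_cons, List.length_append] at hn
    by_cases hU : ∀ d ∈ U, rev d ∈ U
    · have h' : GM (A ++ a :: (U ++ rev a :: (W ++ B))) l := by simpa using h
      obtain ⟨ε, e1, e2⟩ := col_sp h'.nd hU
      obtain ⟨cs, l', a1, a2⟩ := ih A (U ++ W) l (by rw [List.length_append]; omega)
        (by simpa using h'.del e1 e2) sp
      exact ⟨cs, l', a1, fun d hd => a2 d fun e => hd (by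
        simp only [List.mem_append, List.mem_cons] at e ⊢; tauto)⟩
    · simp only [not_forall] at hU
      obtain ⟨b, hb, hb'⟩ := hU
      obtain ⟨W1, W2, rfl⟩ := List.append_of_mem
        ((List.mem_append.1 (sp b (List.mem_append_left _ hb))).resolve_left hb')
      obtain ⟨U1, U2, rfl⟩ := List.append_of_mem hb
      obtain ⟨l1, p, b1, b2, b3, -⟩ := handle (A := A) (U1 := U1) (U2 := U2) (W1 := W1)
        (W2 := W2 ++ B) (a := a) (b := b) (l := l) (by simpa using h)
      have nd' : (U1 ++ b :: (U2 ++ W1 ++ rev b :: W2)).Nodup := nd.sublist (by simp)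
      have ne' := fun d => rb_nd' (x := d) nd'
      simp only [List.length_cons, List.length_append] at hn
      obtain ⟨cs, l', a1, a2⟩ := ih (A ++ [a, b, rev a, rev b]) (W1 ++ U2 ++ U1 ++ W2) l1
        (by simp only [List.length_append]; omega) (by simpa using b1) fun d hd => by
          have m : d ∈ U1 ++ (U2 ++ W1) ++ W2 := by
            simp only [List.mem_append] at hd ⊢; tauto
          have e := sp d (by simp only [List.mem_append, List.mem_cons] at hd ⊢; tauto)
          have e1 : rev d ≠ b := fun c => (ne' d m).2 (by rw [← c, rev_rev])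
          have e2 : rev d ≠ rev b := fun c => (ne' d m).1 ((revP I).injective c)
          simp only [List.mem_append, List.mem_cons, e1, e2] at e ⊢
          tauto
      refine ⟨(a, b) :: cs, l', by simpa [cv_cons] using a1, fun d hd => ?_⟩
      have hd' : rev d ∉ a :: (U1 ++ b :: U2 ++ rev a :: (W1 ++ rev b :: W2)) := fun e =>
        hd (by simpa using hV _ e)
      simp only [List.mem_append, List.mem_cons, not_or] at hd hd'
      rw [a2 d (by simp [hd]), b2, b3 d (by simp [hd]), b3 (rev d) (by simp [hd']), one_mul,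
        inv_one, mul_one]

/-- A self-paired block becomes a chain of handles. -/
theorem nf (h : GM (A ++ V ++ B) l) (hV : ∀ d ∈ V, rev d ∈ V) :
    ∃ cs l', GM (A ++ cv cs ++ B) l' ∧ ∀ d, d ∉ V → dlab l' d = dlab l d :=
  nf_aux _ A V l le_rfl h hV

theorem cv_ex (hn : (cv cs).Nodup) (t : (I × Bool) × (I × Bool) → H × H) :
    ∃ μ : I → H, (∀ c ∈ cs, dlab μ c.1 = (t c).1 ∧ dlab μ c.2 = (t c).2) := by
  induction cs with
  | nil => exact ⟨fun _ => 1, by simp⟩
  | cons c cs ih =>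
    rw [cv_cons] at hn
    simp only [List.nodup_cons, List.mem_cons, not_or] at hn
    obtain ⟨μ, hμ⟩ := ih hn.2.2.2.2
    have k : ∀ d ∈ cv cs, dlab (upd (upd μ c.1 (t c).1) c.2 (t c).2) d = dlab μ d := fun d hd => by
      have k1 : d ≠ c.2 := fun e => hn.2.1.2.2 (e ▸ hd)
      have k2 : d ≠ rev c.2 := fun e => hn.2.2.2.1 (e ▸ hd)
      have k3 : d ≠ c.1 := fun e => hn.1.2.2.2 (e ▸ hd)
      have k4 : d ≠ rev c.1 := fun e => hn.2.2.1.2 (e ▸ hd)
      rw [dlab_upd_ne _ _ k1 k2, dlab_upd_ne _ _ k3 k4]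
    refine ⟨upd (upd μ c.1 (t c).1) c.2 (t c).2, List.forall_mem_cons.2 ⟨⟨?_, dlab_upd ..⟩,
      fun e he => ?_⟩⟩
    · rw [dlab_upd_ne _ _ hn.1.1 hn.1.2.2.1, dlab_upd]
    · rw [k _ (mem_cv.2 ⟨e, he, .inl rfl⟩), k _ (mem_cv.2 ⟨e, he, .inr (.inl rfl)⟩)]
      exact hμ e he

theorem cv_wk (hn : (cv cs).Nodup) (μ : I → H) (v : H) : ∃ P v', Wk μ P v (cv cs) v' := by
  classical
  induction cs generalizing v with
  | nil => exact ⟨fun _ => 1, v, rfl⟩
  | cons c cs ih =>
    rw [cv_cons] at hn ⊢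
    simp only [List.nodup_cons, List.mem_cons, not_or] at hn
    obtain ⟨⟨n1, n2, n3, n4⟩, ⟨n5, n6, n7⟩, ⟨n8, n9⟩, n10, n11⟩ := hn
    obtain ⟨P, v', h⟩ := ih n11 (v * cm μ c)
    have k : ∀ d ∈ cv cs, d ≠ c.1 ∧ d ≠ c.2 ∧ d ≠ rev c.1 ∧ d ≠ rev c.2 := fun d hd =>
      ⟨fun e => n4 (e ▸ hd), fun e => n7 (e ▸ hd), fun e => n9 (e ▸ hd), fun e => n10 (e ▸ hd)⟩
    refine ⟨fun d => if d = c.1 then v else if d = rev c.2 then v * dlab μ c.1 else
      if d = rev c.1 then v * dlab μ c.1 * (dlab μ c.2)⁻¹ else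
      if d = c.2 then v * dlab μ c.1 * (dlab μ c.2)⁻¹ * (dlab μ c.1)⁻¹ else P d, v', by simp,
      by simp only [Ne.symm n1, ↓ reduceIte, n6, n5, Ne.symm n2, n8, dlab_rev], by simp only [Ne.symm n2, ↓ reduceIte, n8, Ne.symm n3, dlab_rev],
      by simp [Ne.symm n3], ?_⟩
    simp only [rev_rev, Ne.symm n1, n5, n6, if_true, if_false]
    refine wk_congr (by simpa only [cm, mul_assoc] using h) fun d hd => ?_
    simp [k d hd, k _ (cv_sp d hd)]

/-- A chain of handles that fills is a standard basis. -/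
theorem fin (h : GM (cv cs) l) : cs.length = g ∧ ∃ ψ : Fr g ≃* Fr g, AutR ψ ∧
    (∀ (k : Fin g) (hk : k.1 < cs.length), ψ (.of (k, false)) = dlab l cs[k.1].1 ∧
      ψ (.of (k, true)) = (dlab l cs[k.1].2)⁻¹ ∧ ψ (comm g k) = cm l cs[k.1]) ∧
    ∀ j, ψ (relPre g j) = cp l (cs.take j) := by
  classical
  let f : Fr cs.length →* Fr g := FreeGroup.lift fun x =>
    cond x.2 (dlab l cs[x.1.1].2)⁻¹ (dlab l cs[x.1.1].1)
  have nd : cs.Nodup := by
    have := h.nd
    clear f h
    induction cs with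
    | nil => simp
    | cons c cs ih =>
      rw [cv_cons] at this
      simp only [List.nodup_cons, List.mem_cons, not_or] at this ⊢
      exact ⟨fun e => this.1.2.2.2 (mem_cv.2 ⟨c, e, .inl rfl⟩), ih this.2.2.2.2⟩
  obtain ⟨μ, hμ⟩ := cv_ex (H := Fr cs.length) h.nd fun c =>
    if e : c ∈ cs then (.of (⟨cs.idxOf c, List.idxOf_lt_length_iff.2 e⟩, false),
      (FreeGroup.of (⟨cs.idxOf c, List.idxOf_lt_length_iff.2 e⟩, true))⁻¹) else 1
  obtain ⟨P, v', w⟩ := cv_wk h.nd μ 1
  obtain ⟨φ, hφ⟩ := h.dl w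
  have hl : φ.comp f = MonoidHom.id _ := FreeGroup.ext_hom _ _ fun x => by
    obtain ⟨k, b⟩ := x
    have m : cs[k.1] ∈ cs := List.getElem_mem _
    have := hμ _ m
    simp only [m, dif_pos, nd.idxOf_getElem] at this
    rw [MonoidHom.comp_apply, FreeGroup.lift_apply_of]
    cases b
    · exact (hφ _ (mem_cv.2 ⟨_, m, .inl rfl⟩)).trans this.1
    · change φ _⁻¹ = _
      rw [map_inv, hφ _ (mem_cv.2 ⟨_, m, .inr (.inl rfl)⟩), this.2, inv_inv]
      rfl
  have hi : Function.Injective f := Function.LeftInverse.injective (DFunLike.congr_fun hl)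
  have hs : Function.Surjective f := by
    rw [← MonoidHom.range_eq_top, eq_top_iff, ← h.gen, Subgroup.closure_le]
    rintro _ ⟨e, he, rfl⟩
    obtain ⟨c, hc, e'⟩ := mem_cv.1 he
    obtain ⟨k, hk, rfl⟩ := List.getElem_of_mem hc
    have k1 : dlab l cs[k].1 ∈ f.range := ⟨.of (⟨k, hk⟩, false), FreeGroup.lift_apply_of⟩
    have k2 : dlab l cs[k].2 ∈ f.range :=
      inv_mem_iff.1 ⟨.of (⟨k, hk⟩, true), FreeGroup.lift_apply_of⟩
    change dlab l (e, true) ∈ f.range
    rcases e' with e' | e' | e' | e' <;> rw [e']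
    exacts [k1, k2, dlab_rev l _ ▸ inv_mem k1, dlab_rev l _ ▸ inv_mem k2]
  have hg : cs.length = g := by
    simpa only [Fintype.card_prod, Fintype.card_fin, Fintype.card_bool, mul_eq_mul_right_iff, OfNat.ofNat_ne_zero, or_false] using Fintype.card_congr (Equiv.ofFreeGroupEquiv (MulEquiv.ofBijective f ⟨hi, hs⟩))
  subst hg
  have e : ∀ k : Fin cs.length, f (comm _ k) = cm l cs[k.1] := fun k => by
    simp only [f, comm, map_mul, FreeGroup.lift_apply_of, cond_false, cond_true, map_inv, inv_inv, cm]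
  have r : ∀ j, f (relPre _ j) = cp l (cs.take j) := fun j => by
    have : cs.take j = ((List.finRange cs.length).take j).map fun k => cs[k.1] := by
      rw [List.map_take]; simp
    rw [relPre, map_list_prod, List.map_map, cp, this, List.map_map]
    exact congrArg List.prod (List.map_congr_left fun k _ => e k)
  refine ⟨rfl, MulEquiv.ofBijective f ⟨hi, hs⟩, ?_, fun k _ =>
    ⟨FreeGroup.lift_apply_of, FreeGroup.lift_apply_of, e k⟩, r⟩
  obtain ⟨P, v, v', a, b⟩ := h.dfc
  rw [wk_cv a, inv_mul_cancel_left] at b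
  have := r cs.length
  rw [List.take_length] at this
  rwa [← this] at b

end Pool.Agent.MP_596265_gt.U.PN

end

section

/-! Normal form of a pair of pants. -/

namespace Pool.Agent.MP_596265_gt.U

open Erg

namespace PN

variable {g : ℕ} {I : Type} {l : I → Fr g} {X Y U V : Fr g} {a b s : I × Bool}
  {c c' : (I × Bool) × (I × Bool)} {cs c1 c2 c3 : List ((I × Bool) × (I × Bool))}

/-- Equal traces of commutators. -/
def KE (X Y U V : Fr g) : Prop := ∀ M : Tup g, PM (FreeGroup.lift M (relPre g g)) 1 →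
  kap (FreeGroup.lift M X) (FreeGroup.lift M Y) = kap (FreeGroup.lift M U) (FreeGroup.lift M V)

theorem KE.nfp (h : KE X Y U V) (h' : NFP U V) : NFP X Y := by
  obtain ⟨ψ, u, v, a, b, c, d⟩ := h'
  exact ⟨ψ, u, v, a, b, c, fun M hM => (h M hM).trans (d M hM)⟩

theorem KE.trans {X' Y' : Fr g} (h : KE X Y X' Y') (h' : KE X' Y' U V) : KE X Y U V :=
  fun M hM => (h M hM).trans (h' M hM)

theorem ke_cg (h : Cg X U) (h' : Cg Y V) : KE X Y U V := fun _ hM => aa_kap_pm (h.pm hM) (h'.pm hM)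

theorem ke_of (t : Fr g) (h : X * Y * X⁻¹ * Y⁻¹ = t * (U * V * U⁻¹ * V⁻¹) * t⁻¹ ∨
    X * Y * X⁻¹ * Y⁻¹ = t * (U * V * U⁻¹ * V⁻¹)⁻¹ * t⁻¹) : KE X Y U V := fun M _ => by
  simp only [kap, ← map_inv, ← map_mul]
  rcases h with h | h <;> rw [h, map_mul, map_mul, map_inv _ t, tr_conj]
  rw [map_inv, tr_inv]

theorem cvl {d : I × Bool} (h : d ∈ cv c1) : d ∈ cv (c1 ++ c2) := cv_append ▸ List.mem_append_left _ h
theorem cvr {d : I × Bool} (h : d ∈ cv c2) : d ∈ cv (c1 ++ c2) := cv_append ▸ List.mem_append_right _ h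

theorem fin' (h : GM (cv cs) l) : cs.length = g ∧ ∃ ψ : Fr g ≃* Fr g, AutR ψ ∧
    (∀ D c T, cs = D ++ c :: T → ∃ k : Fin g, k.1 = D.length ∧ ψ (.of (k, false)) = dlab l c.1 ∧
      ψ (.of (k, true)) = (dlab l c.2)⁻¹ ∧ ψ (comm g k) = cm l c) ∧
    ∀ j, ψ (relPre g j) = cp l (cs.take j) := by
  obtain ⟨e, ψ, a, b, c⟩ := fin h
  refine ⟨e, ψ, a, fun D c T e' => ?_, c⟩
  have hk : D.length < cs.length := by rw [e']; simp
  have := b ⟨D.length, e ▸ hk⟩ hk
  rw [List.getElem_of_append e' rfl] at this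
  exact ⟨_, rfl, this⟩

theorem cp_nn (h : GM (cv cs) l) : cp l cs ∈ NN g := by
  obtain ⟨P, v, v', a, b⟩ := h.dfc
  rw [wk_cv a, inv_mul_cancel_left] at b
  exact mem_NN_of_conj b

theorem simp_a (h : GM (cv (c :: cs)) l) : Simp (dlab l c.1) := by
  obtain ⟨-, ψ, a, b, -⟩ := fin' h
  obtain ⟨k, -, e, -⟩ := b [] c cs rfl
  exact ⟨ψ, a, .inl ⟨k, .inl (e ▸ Cg.refl _)⟩⟩

theorem simp_r (h : GM (cv (c1 ++ c :: c2)) l) (h1 : c1 ≠ []) : Simp (cp l c1) := by
  obtain ⟨e, ψ, a, -, b⟩ := fin' h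
  refine ⟨ψ, a, .inr ⟨c1.length, List.length_pos_iff.2 h1, by rw [← e]; simp, .inl ?_⟩⟩
  rw [b, List.take_left]
  exact Cg.refl _

theorem nfp1 (h : GM (cv (c :: cs)) l) : NFP (dlab l c.1) (cm l c) := by
  obtain ⟨-, ψ, a, b, -⟩ := fin' h
  obtain ⟨k, -, e, -, e'⟩ := b [] c cs rfl
  exact ⟨ψ, _, _, a, .inl ⟨k, rfl, rfl⟩, ⟨_, autR_refl, .inl ⟨k, .inl (Cg.refl _)⟩⟩,
    fun M _ => by rw [e, e']⟩

theorem nfp2 (h : GM (cv (c1 ++ c :: (c2 ++ c' :: c3))) l) {p q : Fr g}
    (hS : ∀ S : Subgroup (Fr g), (∀ d ∈ cv (c1 ++ c2), dlab l d ∈ S) → U ∈ S ∧ p ∈ S ∧ q ∈ S)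
    (hs : Simp U) (hV : V = p * dlab l c.1 * q ∨ V = p * cm l c * q) : NFP U V := by
  obtain ⟨-, ψ, a, b, -⟩ := fin' h
  obtain ⟨j, j1, j2, -, j3⟩ := b c1 c _ rfl
  obtain ⟨k, k1, -⟩ := b (c1 ++ c :: c2) c' c3 (by simp)
  simp only [List.length_append, List.length_cons] at k1
  obtain ⟨s1, s2, s3⟩ := hS ((Av j k).comap ψ.symm.toMonoidHom) fun d hd => by
    obtain ⟨e, he, hd⟩ := mem_cv.1 hd
    obtain ⟨i, i1, i2, i3, i4⟩ : ∃ i : Fin g, i ≠ j ∧ i ≠ k ∧ ψ (.of (i, false)) = dlab l e.1 ∧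
        ψ (.of (i, true)) = (dlab l e.2)⁻¹ := by
      rcases List.mem_append.1 he with he | he <;> obtain ⟨D, T, rfl⟩ := List.append_of_mem he
      · obtain ⟨i, i1, i2, i3, -⟩ := b D e (T ++ c :: (c2 ++ c' :: c3)) (by simp)
        simp only [List.length_append, List.length_cons] at j1 k1
        exact ⟨i, Fin.ne_of_val_ne (by omega), Fin.ne_of_val_ne (by omega), i2, i3⟩
      · obtain ⟨i, i1, i2, i3, -⟩ := b (c1 ++ c :: D) e (T ++ c' :: c3) (by simp)
        simp only [List.length_append, List.length_cons] at i1 k1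
        exact ⟨i, Fin.ne_of_val_ne (by omega), Fin.ne_of_val_ne (by omega), i2, i3⟩
    have m1 : dlab l e.1 ∈ (Av j k).comap ψ.symm.toMonoidHom := by
      change ψ.symm _ ∈ Av j k
      rw [← i3, MulEquiv.symm_apply_apply]
      exact Subgroup.subset_closure ⟨_, i1, i2, rfl⟩
    have m2 : (dlab l e.2)⁻¹ ∈ (Av j k).comap ψ.symm.toMonoidHom := by
      change ψ.symm _ ∈ Av j k
      rw [← i4, MulEquiv.symm_apply_apply]
      exact Subgroup.subset_closure ⟨_, i1, i2, rfl⟩
    rcases hd with rfl | rfl | rfl | rfl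
    exacts [m1, inv_mem_iff.1 m2, dlab_rev l _ ▸ inv_mem m1, dlab_rev l _ ▸ m2]
  refine ⟨ψ, ψ.symm U, ψ.symm V, a, .inr ⟨j, k, Fin.ne_of_val_ne (by omega), s1, _, s2, _, s3,
    hV.imp (fun e => ?_) fun e => ?_⟩, hs.act a.symm, fun M _ => by simp⟩
  · rw [e, ← j2]; simp only [map_mul, MulEquiv.symm_apply_apply, MulEquiv.toMonoidHom_eq_coe, MonoidHom.coe_coe]
  · rw [e, ← j3]; simp

theorem sp_tail {T : List (I × Bool)} (h : GM (cv cs ++ T) l) : ∀ d ∈ T, rev d ∈ T := fun d hd =>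
  (List.mem_append.1 (h.sp d (List.mem_append_right _ hd))).resolve_left fun e =>
    (List.nodup_append.1 h.nd).2.2 d (by simpa using cv_sp _ e) d hd rfl

/-- The rest of the list becomes a chain of handles. -/
theorem tail {T : List (I × Bool)} (h : GM (cv cs ++ T) l) :
    ∃ c3 l', GM (cv (cs ++ c3)) l' ∧ ∀ d ∈ cv cs, dlab l' d = dlab l d := by
  obtain ⟨c3, l', a, b⟩ := nf (B := []) (by rwa [List.append_nil]) (sp_tail h)
  exact ⟨c3, l', by simpa [cv_append] using a, fun d hd => b d fun e =>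
    (List.nodup_append.1 h.nd).2.2 d hd d e rfl⟩

/-- An unlinked loop after a chain of handles. -/
theorem loop {R T : List (I × Bool)} (h : GM (cv cs ++ b :: (R ++ rev b :: T)) l)
    (hR : ∀ d ∈ R, rev d ∈ R) : ∃ c2 l', GM (cv (cs ++ c2) ++ T) l' ∧
      (∀ d, d ∉ R → dlab l' d = dlab l d) ∧ dlab l b = cp l' c2 := by
  obtain ⟨c2, l', a1, a2⟩ := nf (A := cv cs ++ [b]) (V := R) (B := rev b :: T) (l := l)
    (by simpa using h) hR
  obtain ⟨a3, a4⟩ := del (A := cv cs) (y := b) (cs := c2) (C := T) (l := l') (by simpa using a1)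
  exact ⟨c2, l', cv_append ▸ a3, a2,
    (a2 b (rb_nd (B := []) (K := R) (by simpa using h.nd)).1).symm.trans a4⟩

theorem linked {A R T : List (I × Bool)} (h : GM (A ++ b :: (R ++ rev b :: T)) l)
    (hA : ∀ d ∈ A, rev d ∈ A) (hR : ¬ ∀ d ∈ R, rev d ∈ R) :
    ∃ t U1 U2 W1 W2, R = U1 ++ t :: U2 ∧ T = W1 ++ rev t :: W2 := by
  simp only [not_forall] at hR
  obtain ⟨t, ht, ht'⟩ := hR
  have ne := rb_nd' (x := t) h.nd (by simp [ht])
  have m := h.sp t (by simp [ht])
  simp only [List.mem_append, List.mem_cons] at m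
  obtain ⟨U1, U2, e⟩ := List.append_of_mem ht
  rcases m with m | m | m | m | m
  · exact absurd rfl ((List.nodup_append.1 h.nd).2.2 t (by simpa using hA _ m) t (by simp [ht]))
  · exact absurd (by rw [← m, rev_rev]) ne.2
  · exact absurd m ht'
  · exact absurd ((revP I).injective m) ne.1
  · obtain ⟨W1, W2, e'⟩ := List.append_of_mem m
    exact ⟨t, U1, U2, W1, W2, e, e'⟩

theorem core3 (hg : 3 ≤ g) {R T : List (I × Bool)} {p q : Fr g}
    (h : GM (cv [(a, s)] ++ b :: (R ++ rev b :: T)) l)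
    (hS : ∀ S : Subgroup (Fr g), dlab l a ∈ S → dlab l s ∈ S → p ∈ S ∧ q ∈ S)
    (h1 : dlab l b ∈ NN g ∨ cm l (a, s) * dlab l b ∈ NN g →
      KE (dlab l a) (p * dlab l b * q) (dlab l a) (cm l (a, s))) :
    NFP (dlab l a) (p * dlab l b * q) := by
  have nd := List.nodup_append.1 h.nd
  have ma : a ∈ cv [(a, s)] := by simp [cv]
  have ms : s ∈ cv [(a, s)] := by simp [cv]
  by_cases hR : ∀ d ∈ R, rev d ∈ R
  · obtain ⟨c2, l1, a1, a2, a3⟩ := loop h hR
    obtain ⟨c3, l2, b1, b2⟩ := tail a1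
    have k : ∀ d ∈ cv [(a, s)], dlab l2 d = dlab l d := fun d hd =>
      (b2 d (cvl hd)).trans (a2 d fun e => nd.2.2 d hd d (by simp [e]) rfl)
    have e : dlab l b = cp l2 c2 := a3.trans (cp_congr fun d hd =>
      b2 d (cvr hd)).symm
    have ec : cm l2 (a, s) = cm l (a, s) := by simp only [cm, k a ma, k s ms]
    have n1 := nfp1 (c := (a, s)) b1
    rw [ec, k a ma] at n1
    rcases c2 with _ | ⟨c, c2⟩
    · exact (h1 (.inl (e ▸ one_mem _))).nfp n1
    rcases c3 with _ | ⟨c', c3⟩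
    · refine (h1 (.inr ?_)).nfp n1
      have := cp_nn b1
      rwa [List.append_nil, List.singleton_append, cp_cons, ec, ← e] at this
    · refine nfp2 (c1 := [(a, s)]) (c := c) (c2 := c2) (c' := c') (c3 := c3) (l := l2) (p := p)
        (q := cp l2 c2 * q) (by simpa using b1) (fun S hs => ?_) (k a ma ▸ simp_a (c := (a, s)) b1)
        (.inr (by rw [e, cp_cons]; group))
      have s1 := k a ma ▸ hs a (cvl ma)
      have s2 := hS S s1 (k s ms ▸ hs s (cvl ms))
      exact ⟨s1, s2.1, mul_mem (cp_mem fun d hd => hs d (cvr hd)) s2.2⟩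
  · obtain ⟨t, U1, U2, W1, W2, rfl, rfl⟩ := linked h cv_sp hR
    obtain ⟨l1, r, a1, a2, a3, -⟩ := handle (A := cv [(a, s)]) (U1 := U1) (U2 := U2) (W1 := W1)
      (W2 := W2) (a := b) (b := t) (l := l) (by simpa using h)
    have a4 : GM (cv [(a, s), (b, t)] ++ (W1 ++ U2 ++ U1 ++ W2)) l1 := by simpa [cv] using a1
    obtain ⟨c3, l2, b1, b2⟩ := tail a4
    have k : ∀ d ∈ cv [(a, s), (b, t)], dlab l2 d = dlab l d := fun d hd => by
      have z : ∀ d ∈ cv [(a, s), (b, t)], r d = 1 := fun d hd => a3 d fun e =>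
        (List.nodup_append.1 a4.nd).2.2 d hd d (List.mem_append_left _ e) rfl
      rw [b2 d hd, a2, z d hd, z _ (cv_sp d hd), one_mul, inv_one, mul_one]
    have ka := k a (by simp [cv])
    rcases c3 with _ | ⟨c', c3⟩
    · have := (fin b1).1
      simp at this
      omega
    · refine nfp2 (c1 := [(a, s)]) (c := (b, t)) (c2 := []) (c' := c') (c3 := c3) (l := l2) (p := p)
        (q := q) b1 (fun S hs => ?_) (ka ▸ simp_a (c := (a, s)) b1)
        (.inl (by rw [k b (by simp [cv])]))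
      have s1 := ka ▸ hs a (by simp [cv])
      exact ⟨s1, hS S s1 (k s (by simp [cv]) ▸ hs s (by simp [cv]))⟩

theorem sub_cons {α : Type} {x : α} {u L : List α} (h : (x :: u).Sublist L) :
    ∃ A B, L = A ++ x :: B ∧ u.Sublist B := by
  induction L with
  | nil => simp at h
  | cons y L ih =>
    rcases List.sublist_cons_iff.1 h with h | ⟨r, e, h⟩
    · obtain ⟨A, B, rfl, e⟩ := ih h
      exact ⟨y :: A, B, rfl, e⟩
    · cases e
      exact ⟨[], L, rfl, h⟩

theorem core2 (hg : 3 ≤ g) {R : List (I × Bool)} {p q : Fr g} (h : GM (cv [(a, s)] ++ R) l)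
    (hb : [b, rev b].Sublist R)
    (hS : ∀ S : Subgroup (Fr g), dlab l a ∈ S → dlab l s ∈ S → p ∈ S ∧ q ∈ S)
    (h1 : dlab l b ∈ NN g ∨ cm l (a, s) * dlab l b ∈ NN g →
      KE (dlab l a) (p * dlab l b * q) (dlab l a) (cm l (a, s))) :
    NFP (dlab l a) (p * dlab l b * q) := by
  obtain ⟨R0, R', rfl, hb'⟩ := sub_cons hb
  obtain ⟨R1, R2, rfl, -⟩ := sub_cons hb'
  have h2 := out (A := cv [(a, s)]) (K := R0) (B := R1) (C := R2) (y := b) (by simpa using h)
  have n := h.nd
  simp only [List.nodup_append, List.mem_append, List.mem_cons] at n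
  have k : ∀ d ∈ cv [(a, s)], dlab (gau R0 (dlab l b)⁻¹ l) d = dlab l d := fun d hd =>
    gau_off (fun e => n.2.2 d hd d (.inl e) rfl) fun e => n.2.2 _ (cv_sp d hd) _ (.inl e) rfl
  have kb : dlab (gau R0 (dlab l b)⁻¹ l) b = dlab l b :=
    gau_off (fun e => n.2.1.2.2 b e b (.inl rfl) rfl) fun e => n.2.1.2.2 _ e _ (by simp) rfl
  have := core3 hg (p := p) (q := q) h2
  simp only [cm, k a (by simp [cv]), k s (by simp [cv]), kb] at this
  exact this hS h1

theorem core1 (hg : 3 ≤ g) {A R : List (I × Bool)} (h : GM (a :: (A ++ rev a :: R)) l)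
    (hb : [b, rev b].Sublist R) (hA : ¬ ∀ d ∈ A, rev d ∈ A) (h1 : dlab l b ∉ NN g)
    (h2 : dlab l a * dlab l b ∉ NN g) : NFP (dlab l a) (dlab l b) := by
  obtain ⟨s, U1, U2, W1, W2, rfl, rfl⟩ := linked (A := []) h (by simp) hA
  obtain ⟨l1, r, a1, a2, a3, a4⟩ := handle (A := []) (U1 := U1) (U2 := U2) (W1 := W1)
    (W2 := W2) (a := a) (b := s) (l := l) (by simpa using h)
  have a5 : GM (cv [(a, s)] ++ (W1 ++ U2 ++ U1 ++ W2)) l1 := by simpa [cv] using a1
  have nd := List.nodup_append.1 a5.nd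
  have k : ∀ d ∈ cv [(a, s)], dlab l1 d = dlab l d := fun d hd => by
    have z : ∀ d ∈ cv [(a, s)], r d = 1 := fun d hd => a3 d fun e =>
      nd.2.2 d hd d (List.mem_append_left _ e) rfl
    rw [a2, z d hd, z _ (cv_sp d hd), one_mul, inv_one, mul_one]
  have ka := k a (by simp [cv])
  have ks := k s (by simp [cv])
  have z : ∀ d ∈ W2, r d = 1 := fun d hd => a3 d fun e =>
    (List.nodup_append.1 nd.2.1).2.2 d e d hd rfl
  have hs : s ∉ W1 ++ rev s :: W2 := fun e => by
    have n := h.nd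
    simp only [List.nodup_cons, List.nodup_append] at n
    exact n.2.2.2 s (by simp) s (List.mem_cons_of_mem _ e) rfl
  have n1 : b ≠ rev s := fun e => hs (hb.subset (by simp [e]))
  have n2 : rev b ≠ rev s := fun e => hs (hb.subset (by simp [(revP I).injective e]))
  have key : ∀ p q : Fr g, [b, rev b].Sublist (W1 ++ W2) → dlab l b = p * dlab l1 b * q →
      (∀ S : Subgroup (Fr g), dlab l a ∈ S → dlab l s ∈ S → p ∈ S ∧ q ∈ S) →
      (dlab l1 b ∈ NN g ∨ cm l (a, s) * dlab l1 b ∈ NN g →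
        KE (dlab l a) (dlab l b) (dlab l a) (cm l (a, s))) → NFP (dlab l a) (dlab l b) :=
    fun p q e1 e2 e3 e4 => by
      have := core2 hg (p := p) (q := q) a5 (e1.trans (by simp))
      simp only [cm, ka, ks, ← e2] at this
      exact this e3 e4
  have cg : ∀ {x y : Fr g}, x * y ∈ NN g → Cg y x⁻¹ := fun {x y} e => by
    simpa using (Cg.refl x⁻¹).mul (cg_one.2 e)
  have eu : (dlab l s)⁻¹ * dlab l a * dlab l s = (cm l (a, s))⁻¹ * dlab l a := by
    simp only [cm]; group
  have mu : ∀ S : Subgroup (Fr g), dlab l a ∈ S → dlab l s ∈ S →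
      (cm l (a, s))⁻¹ * dlab l a ∈ S := fun S s1 s2 => eu ▸ mul_mem (mul_mem (inv_mem s2) s1) s2
  rw [eu] at a4
  generalize cm l (a, s) = c at *
  obtain ⟨u1, u2, e, e1, e2⟩ := List.sublist_append_iff.1 hb
  rcases u1 with _ | ⟨x, _ | ⟨y, u1⟩⟩
  · obtain rfl : [b, rev b] = u2 := e
    have e3 : [b, rev b].Sublist W2 := (List.sublist_cons_iff.1 e2).resolve_right
      fun ⟨_, e, _⟩ => n1 (List.cons.inj e).1
    have e4 : dlab l1 b = dlab l b := by
      rw [a2, z b (e3.subset (by simp)), z _ (e3.subset (by simp)), one_mul, inv_one, mul_one]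
    refine key 1 1 (e3.trans (by simp)) (by simp [e4]) (fun S _ _ => ⟨one_mem _, one_mem _⟩) ?_
    rw [e4]
    exact fun e => (ke_cg (Cg.refl _) (cg (e.resolve_left h1))).trans
      (ke_of c⁻¹ (.inr (by group)))
  · obtain ⟨rfl, rfl⟩ : b = x ∧ [rev b] = u2 := by simpa using e
    have e3 : rev b ∈ W2 := (List.mem_cons.1 (e2.subset (by simp))).resolve_left n2
    have e4 : dlab l b = (c⁻¹ * dlab l a)⁻¹ * dlab l1 b * 1 := by
      rw [a2, a4 b (e1.subset (by simp)), z _ e3]; group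
    refine key _ _ (e1.append (List.singleton_sublist.2 e3)) e4
      (fun S s1 s2 => ⟨inv_mem (mu S s1 s2), one_mem _⟩) ?_
    rintro (e | e)
    · refine (ke_cg (Cg.refl _) (V := (c⁻¹ * dlab l a)⁻¹ * 1 * 1) ?_).trans
        (ke_of (dlab l a)⁻¹ (.inl (by group)))
      rw [e4]
      exact ((Cg.refl _).mul (cg_one.2 e)).mul (Cg.refl _)
    · exact absurd (by rw [e4]; convert e using 1; group) h2
  · obtain ⟨rfl, rfl, rfl, rfl⟩ : b = x ∧ rev b = y ∧ u1 = [] ∧ u2 = [] := by simpa using e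
    have e4 : dlab l b = (c⁻¹ * dlab l a)⁻¹ * dlab l1 b * (c⁻¹ * dlab l a) := by
      rw [a2, a4 b (e1.subset (by simp)), a4 _ (e1.subset (by simp))]; group
    refine key _ _ (e1.trans (by simp)) e4
      (fun S s1 s2 => ⟨inv_mem (mu S s1 s2), mu S s1 s2⟩) ?_
    rintro (e | e)
    · exact absurd (by rw [e4]; exact Subgroup.Normal.conj_mem' inferInstance _ e _) h1
    · refine (ke_cg (Cg.refl _) (V := (c⁻¹ * dlab l a)⁻¹ * c⁻¹ * (c⁻¹ * dlab l a)) ?_).trans
        (ke_of (c⁻¹ * (dlab l a)⁻¹) (.inr (by group)))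
      rw [e4]
      exact ((Cg.refl _).mul (cg e)).mul (Cg.refl _)

theorem core0 {A B T : List (I × Bool)}
    (h : GM (a :: (A ++ rev a :: b :: (B ++ rev b :: T))) l) (hA : ∀ d ∈ A, rev d ∈ A)
    (hB : ∀ d ∈ B, rev d ∈ B) (h0 : dlab l a ∉ NN g) (h1 : dlab l b ∉ NN g)
    (h2 : dlab l a * dlab l b ∉ NN g) : NFP (dlab l a) (dlab l b) := by
  obtain ⟨c1, l1, a1, a2, a3⟩ := loop (cs := []) h hA
  rw [List.nil_append] at a1
  obtain ⟨c2, l2, b1, b2, b3⟩ := loop a1 hB
  obtain ⟨c3, l3, d1, d2⟩ := tail b1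
  have e1 : dlab l a = cp l3 c1 := a3.trans (cp_congr fun d hd => (d2 d (by simp [cv_append, hd])).trans
    (b2 d fun e => (List.nodup_append.1 a1.nd).2.2 d hd d (by simp [e]) rfl)).symm
  have e2 : dlab l b = cp l3 c2 := by
    rw [← a2 b fun e => (List.nodup_append.1 (List.nodup_cons.1 h.nd).2).2.2 b e b (by simp) rfl, b3]
    exact (cp_congr fun d hd => d2 d (by simp [cv_append, hd])).symm
  rw [e1] at h0 h2 ⊢
  rw [e2] at h1 h2 ⊢
  rcases c2 with _ | ⟨c, c2⟩
  · exact absurd (one_mem _) h1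
  rcases c3 with _ | ⟨c', c3⟩
  · exact absurd (by simpa [cp_append] using cp_nn d1) h2
  have d3 : GM (cv (c1 ++ c :: (c2 ++ c' :: c3))) l3 := by simpa using d1
  exact nfp2 (p := 1) (q := cp l3 c2) d3 (fun S hs => ⟨cp_mem fun d hd => hs d (by simp [cv_append, hd]),
    one_mem _, cp_mem fun d hd => hs d (by simp [cv_append, hd])⟩)
    (simp_r d3 (by rintro rfl; exact h0 (one_mem _))) (.inr (by rw [one_mul, cp_cons]))

theorem core (hg : 3 ≤ g) {L : List (I × Bool)} (h : GM L l)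
    (hs : [a, rev a, b, rev b].Sublist L) (h0 : dlab l a ∉ NN g) (h1 : dlab l b ∉ NN g)
    (h2 : dlab l a * dlab l b ∉ NN g) : NFP (dlab l a) (dlab l b) := by
  obtain ⟨A0, _, rfl, s1⟩ := sub_cons hs
  obtain ⟨A1, _, rfl, s2⟩ := sub_cons s1
  obtain ⟨A2, _, rfl, s3⟩ := sub_cons s2
  obtain ⟨A3, A4, rfl, -⟩ := sub_cons s3
  clear hs s1 s2 s3
  wlog e0 : A0 = [] generalizing A0 A2 l
  · have n := h.nd
    simp only [List.nodup_append, List.mem_append, List.mem_cons] at n
    have ka : dlab (gau A0 (dlab l a)⁻¹ l) a = dlab l a :=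
      gau_off (fun e => n.2.2 _ e _ (by simp) rfl) fun e => n.2.2 _ e _ (by simp) rfl
    have kb : dlab (gau A0 (dlab l a)⁻¹ l) b = dlab l b :=
      gau_off (fun e => n.2.2 _ e _ (by simp) rfl) fun e => n.2.2 _ e _ (by simp) rfl
    have := this (l := gau A0 (dlab l a)⁻¹ l) (A0 := []) (A2 := A0 ++ A2)
    rw [ka, kb] at this
    exact this h0 h1 h2 (by simpa using out (A := []) (by simpa using h)) rfl
  subst e0
  by_cases hA : ∀ d ∈ A1, rev d ∈ A1
  swap
  · exact core1 hg h (by simp) hA h1 h2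
  have n := h.nd
  simp only [List.nil_append, List.nodup_cons, List.nodup_append, List.mem_append, List.mem_cons,
    not_or] at n
  by_cases hB : ∀ d ∈ A3, rev d ∈ A3
  · have ka : dlab (gau A2 (dlab l b)⁻¹ l) a = dlab l a := gau_off (by tauto) (by tauto)
    have kb : dlab (gau A2 (dlab l b)⁻¹ l) b = dlab l b :=
      gau_off (fun e => n.2.2.1.2.2.2 _ e _ (by simp) rfl) fun e => n.2.2.1.2.2.2 _ e _ (by simp) rfl
    have := core0 (a := a) (b := b) (A := A1) (B := A3) (T := A2 ++ A4) (l := gau A2 (dlab l b)⁻¹ l)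
      (by simpa using out (A := a :: A1 ++ [rev a]) (K := A2) (by simpa using h)) hA hB
    rw [ka, kb] at this
    exact this h0 h1 h2
  · have h' := out (A := []) (K := a :: (A1 ++ rev a :: A2)) (B := A3) (C := A4) (y := b)
      (by simpa using h)
    have n' := (List.nodup_append.1 (show ((a :: (A1 ++ rev a :: A2)) ++
      b :: (A3 ++ rev b :: A4)).Nodup by simpa using h.nd)).2.2
    have kb := gau_off (μ := l) (u := (dlab l b)⁻¹) (d := b) (fun e => n' _ e _ (by simp) rfl)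
      fun e => n' _ e _ (by simp) rfl
    have ka : dlab (gau (a :: (A1 ++ rev a :: A2)) (dlab l b)⁻¹ l) a =
        (dlab l b)⁻¹ * dlab l a * dlab l b := by simp [dlab_gau]
    have := core1 hg (b := a) h' (by simp) hB
    rw [ka, kb] at this
    refine (ke_of (dlab l b) (.inr (by group))).nfp (this (fun e => h0 ?_) fun e => h2 ?_)
    · simpa only [mul_assoc, mul_inv_cancel_left, mul_inv_cancel, mul_one] using Subgroup.Normal.conj_mem inferInstance _ e (dlab l b)
    · simpa [mul_assoc] using e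

end PN

/-- Normal form of a pair of pants with essential boundary curves. -/
theorem Pant.nf {g : ℕ} (hg : 3 ≤ g) {X Y : Fr g} (h : Pant X Y) (hX : X ∉ NN g) (hY : Y ∉ NN g)
    (hZ : X * Y ∉ NN g) : NFP X Y := by
  obtain ⟨-, J, -, L, m, F, a, b, c, d⟩ := h
  have d1 : Cg X⁻¹ (dlab m (F (0, false))) := d (0, false) (by simp)
  have d2 : Cg Y⁻¹ (dlab m (F (1, false))) := d (1, false) (by simp)
  have k : ∀ {u v : Fr g}, Cg u v → v ∈ NN g → u ∈ NN g := fun e e' => cg_one.1 (e.trans (cg_one.2 e'))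
  refine ((PN.ke_of (Y * X) (.inl (by group))).trans (PN.ke_cg d1 d2)).nfp
    (PN.core hg a (by rw [← b, ← b]; exact c) (fun e => hX (inv_mem_iff.1 (k d1 e)))
      (fun e => hY (inv_mem_iff.1 (k d2 e))) fun e => hZ ?_)
  simpa only [mul_inv_rev, inv_inv, mul_assoc, mul_inv_cancel, mul_one] using Subgroup.Normal.conj_mem inferInstance _ (inv_mem (k (d1.mul d2) e)) X

end Pool.Agent.MP_596265_gt.U

end

section

/-! No bigons, and triangles are faces. -/

namespace Pool.Agent.MP_596265_gt.U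

open Erg

variable {g : ℕ} {E : Type} {n : Equiv.Perm (E × Bool)} {l : E → Fr g} {L : List (E × Bool)}

namespace NB

/-- A boundary cycle is simple or bounds a disc with a known number of faces. -/
theorem core [Finite E] (hn : IsTri n) {t : E × Bool} (h : MarkAt n t l) (S : Set E)
    (c : List (E × Bool)) (hc : c.Nodup) (ht : t ∈ c) (hS : ∀ y ∈ c, y.1 ∈ S)
    (p : E × Bool → Fr g) (p1 : ∀ y, y.1 ∉ S → p (n (rev y)) = p y)
    (p2 : ∀ y ∈ c, y ≠ t → p y * dlab l y * (p (n y))⁻¹ = 1)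
    (p3 : p t * dlab l t * (p (n t))⁻¹ = lab l c)
    (p4 : ∀ y, y.1 ∈ S → y ∉ c → p y * dlab l y * (p (n y))⁻¹ = dlab l y)
    (p5 : ∀ K : Subgroup (Fr g), (∀ y ∈ c, dlab l y ∈ K) → ∀ y, p y ∈ K)
    (hF : ∀ F : Set (E × Bool), t ∈ F → (∀ y ∈ F, n y ∈ F) → (∀ y ∈ F, y.1 ∉ S → rev y ∈ F) →
      ∀ y ∈ c, y ∈ F) :
    Simp0 (lab l c) ∨ ∃ F : Set (E × Bool), F.ncard + 6 = 3 * c.length ∧ (∀ y ∈ F, n y ∈ F) ∧
      ∀ y ∈ c, y ∈ F := by
  classical
  obtain ⟨F, ex₁, s, -, a1, a2, -⟩ := St.grow hn (· ∉ S) _ _ _ le_rfl (St.init hn t)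
  generalize List.flatMap ex₁ _ = w at s a1 a2
  replace a2 : ∀ y ∈ F, y ∉ w → y.1 ∉ S := fun y a b => (a2 y a b).resolve_left fun e => e.2 e.1
  have hcF := hF F s.bas s.clo fun y a b => by
    by_cases e : y ∈ w
    exacts [a1 y e b, (s.tre y a e).1]
  have hcw : ∀ y ∈ c, y ∈ w := fun y hy => by_contra fun e => a2 y (hcF y hy) e (hS y hy)
  have hr : ∀ y ∈ w, y.1 ∉ S → rev y ∈ w := fun y a b => by_contra fun e =>
    (s.tre _ (a1 y a b) e).2 (by simpa)
  obtain ⟨m, hm⟩ : ∃ m : E × Bool → Fr g, ∀ y, m y = p y * dlab l y * (p (n y))⁻¹ := ⟨_, fun _ => rfl⟩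
  simp only [← hm] at p2 p3 p4
  have p1' : ∀ y, y.1 ∉ S → p (n y) = p (rev y) := fun y hy => by rw [← p1 (rev y) hy, rev_rev]
  have hface : ∀ y, m y * m (n y) * m (n (n y)) = p y * fp n l y * (p y)⁻¹ := fun y => by
    simp only [hm, fp, hn.1]; group
  have cm : Comp n t w F m := ⟨fun y a b => by
      rw [hm, hm, p1 y (a2 y a b), p1' y (a2 y a b), dlab_rev]; group,
    fun y _ hy => by rw [hface, h.rel y hy]; group⟩
  have v := s.val _ m cm
  obtain ⟨A, B, rfl⟩ := List.append_of_mem (hcw t ht)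
  have hnd := s.nd
  rw [List.nodup_middle, List.nodup_cons] at hnd
  have v' : IsConj (lab l c * (((B ++ A).filter (· ∉ c)).map m).prod) (relPre g g) := by
    rw [t5_filter m _ _ fun y hy e => p2 y (by simpa using e) fun e' =>
      hnd.1 (List.perm_append_comm.subset (e' ▸ hy)), ← p3]
    refine .trans (isConj_iff.2 ⟨(p t)⁻¹ * (A.map m).prod, ?_⟩) h.dfc
    rw [hface, List.map_append, List.prod_append, List.map_cons, List.prod_cons] at v
    rw [List.map_append, List.prod_append, ← mul_left_cancel_iff (a := p t),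
      ← mul_right_cancel_iff (a := (p t)⁻¹), ← v]
    group
  have hp : (A ++ t :: B).Perm (c ++ (B ++ A).filter (· ∉ c)) := by
    refine (List.perm_ext_iff_of_nodup s.nd (List.nodup_append.2 ⟨hc,
      (List.perm_append_comm.nodup_iff.1 hnd.2).filter _, fun y a z b e => ?_⟩)).2 fun y => ?_
    · simp [← e, a] at b
    · have := hcw y
      by_cases e : y ∈ c
      · simp only [List.mem_append, e, true_or, iff_true]; simpa using this e
      · have : y ≠ t := fun e' => e (e' ▸ ht)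
        simp [e, this, or_comm]
  generalize (B ++ A).filter (· ∉ c) = Q at v' hp
  generalize A ++ t :: B = w at *
  by_cases hQ : Q = []
  · subst hQ
    exact .inr ⟨F, by rw [s.crd, hp.length_eq, List.append_nil], s.clo, hcF⟩
  left
  obtain ⟨ex, -, bs, b⟩ := s.full hn h
  let U : Set E := {e | e ∉ S ∧ (e, true) ∈ w}
  have hU : ∀ y ∈ w, y.1 ∈ S → ∀ z ∈ ex y, z.1 ∉ U := fun y a a' z hz e => by
    rcases (b y a).2.2.1 z hz with rfl | e'
    · exact e.1 a'
    · obtain ⟨z, _ | _⟩ := z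
      exacts [e' (a1 _ e.2 e.1), e' (s.sub _ e.2)]
  let l' : E → Fr g := fun e => if e ∈ U then p (e, true) * l e * (p (e, false))⁻¹ else l e
  have k1 : ∀ y ∈ w, y.1 ∈ S → lab l' (ex y) = dlab l y := fun y a a' => by
    rw [← (b y a).2.2.2]
    exact t5_congr _ fun z hz => if_neg (hU y a a' z hz)
  have k2 : lab l' (c.flatMap ex) = lab l c := by
    rw [t5_flat l' ex (dlab l) c fun y hy => k1 y (hcw y hy) (hS y hy), lab_eq_prod]
  have k3 : ∀ y ∈ Q, lab l' (ex y) = m y := fun y hy => by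
    have a : y ∈ w := hp.symm.subset (List.mem_append_right _ hy)
    by_cases e : y.1 ∈ S
    · rw [k1 y a e, p4 y e fun e' =>
        List.disjoint_of_nodup_append (hp.nodup_iff.1 s.nd) e' hy]
    · rw [(b y a).2.1 (a1 y a e), lab_cons, lab_nil, mul_one, hm, p1' y e]
      obtain ⟨y, _ | _⟩ := y
      · have : y ∈ U := ⟨e, hr _ a e⟩
        simp only [dlab, l', if_pos this, rev, cond_false, Bool.not_false]; group
      · have : y ∈ U := ⟨e, a⟩
        simp only [dlab, l', if_pos this, rev, cond_true, Bool.not_true]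
  have bs' := bs.gauge (lam' := l') U p (p5 _ fun y hy => by
      rw [← (b y (hcw y hy)).2.2.2]
      refine t5_mem _ _ _ fun z hz => ?_
      obtain ⟨ι, -, -, -, i⟩ := bs.ex
      have : l z.1 ∈ Subgroup.closure (l '' {e | e ∉ U ∧ (e, true) ∈ w.flatMap ex}) :=
        Subgroup.subset_closure ⟨z.1, ⟨hU y (hcw y hy) (hS y hy) z hz,
          (i _).2 ((i z).1 (List.mem_flatMap.2 ⟨y, hcw y hy, hz⟩))⟩, rfl⟩
      obtain ⟨z, _ | _⟩ := z
      exacts [inv_mem this, this])
    (fun e he => if_pos he) (fun e he => if_neg he) (hp.flatMap_right ex)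
    (by rwa [List.flatMap_append, lab_append, k2, t5_flat l' ex m Q k3])
  rw [List.flatMap_append] at bs'
  obtain ⟨y, hy⟩ := List.exists_mem_of_ne_nil Q hQ
  rw [← k2]
  exact bs'.diag (fun e => (b t (hcw t ht)).1 (List.flatMap_eq_nil_iff.1 e t ht)) fun e =>
    (b y (hp.symm.subset (List.mem_append_right _ hy))).1 (List.flatMap_eq_nil_iff.1 e y hy)

theorem twice (h : Lk n L) : (L ++ L).IsChain fun x y => y = n (rev x) := by
  refine List.isChain_append.2 ⟨h.2.2, h.2.2, fun a ha b hb => ?_⟩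
  obtain ⟨A, B, e⟩ := List.append_of_mem (h.2.1 (n (rev a)))
  rcases A.eq_nil_or_concat with rfl | ⟨A, u, rfl⟩
  · rw [e] at hb
    exact (Option.some.inj hb).symm
  · have c := h.2.2
    have d := h.1
    rw [e, List.concat_eq_append, List.append_assoc] at c d ha
    have : a = u := (revP E).injective (n.injective (List.isChain_append_cons_cons.1 c).2.1)
    subst this
    have := List.mem_of_mem_getLast? (l := n (rev a) :: B) (a := a) (by simpa using ha)
    simp_all [List.nodup_append]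

theorem head {σ f : E × Bool → E × Bool} {q : E × Bool → Bool} (f0 : ∀ y, q y → f y = y)
    (f1 : ∀ y, ¬ q y → f y = f (σ y)) (U : List (E × Bool)) : ∀ a,
    (a :: U).IsChain (fun x y => y = σ x) → ∀ b ∈ (U.filter q).head?, f (σ a) = b := by
  induction U with
  | nil => simp
  | cons u U ih =>
    intro a c b hb
    obtain ⟨rfl, c⟩ := List.isChain_cons_cons.1 c
    by_cases e : q (σ a)
    · rw [List.filter_cons_of_pos e] at hb
      exact (f0 _ e).trans (Option.some.inj hb)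
    · rw [List.filter_cons_of_neg e] at hb
      exact (f1 _ e).trans (ih _ c b hb)

theorem chain {σ f : E × Bool → E × Bool} {q : E × Bool → Bool} (f0 : ∀ y, q y → f y = y)
    (f1 : ∀ y, ¬ q y → f y = f (σ y)) (U : List (E × Bool))
    (c : U.IsChain fun x y => y = σ x) : (U.filter q).IsChain fun a b => f (σ a) = b := by
  induction U with
  | nil => simp
  | cons u U ih =>
    by_cases e : q u
    · rw [List.filter_cons_of_pos e]
      exact List.isChain_cons.2 ⟨head f0 f1 U u c, ih c.tail⟩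
    · rw [List.filter_cons_of_neg e]
      exact ih c.tail

/-- A boundary cycle `b` of the subgraph with rotation `c`. -/
theorem cyc [Finite E] (hn : IsTri n) (h : Mark n l) (hL : Lk n L) {c : List (E × Bool)}
    (hc : c.Sublist L) (hp : ∀ d ∈ c, rev d ∈ c) {t : E × Bool} (ht : t ∈ c) :
    ∃ ν : E × Bool → E × Bool, (c ++ c).IsChain (fun a b => ν (rev a) = b) ∧
      (∀ y, n y ∈ c → ν y = n y) ∧ ∀ b : List (E × Bool), b.Nodup → t ∈ b → (∀ y ∈ b, y ∈ c) →
      (∀ F : Set (E × Bool), t ∈ F → (∀ y ∈ F, ν y ∈ F) → ∀ y ∈ b, y ∈ F) →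
      (∀ m : E → Fr g, ∃ P : E × Bool → Fr g,
        (∀ y ∈ b, y ≠ t → P y * dlab m y * (P (ν y))⁻¹ = 1) ∧
        P t * dlab m t * (P (ν t))⁻¹ = lab m b ∧
        (∀ y ∈ c, y ∉ b → P y * dlab m y * (P (ν y))⁻¹ = dlab m y) ∧
        ∀ K : Subgroup (Fr g), (∀ y ∈ b, dlab m y ∈ K) → ∀ y, P y ∈ K) →
      Simp (lab l b) ∨ ∃ F : Set (E × Bool), F.ncard + 6 = 3 * b.length ∧ (∀ y ∈ F, n y ∈ F) ∧
        ∀ y ∈ b, y ∈ F := by
  classical
  let S : Set E := {e | (e, true) ∈ c}
  have hS : ∀ y : E × Bool, y.1 ∈ S ↔ y ∈ c := fun ⟨e, s⟩ => by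
    cases s
    exacts [⟨hp _, hp _⟩, Iff.rfl]
  obtain ⟨⟨f, Y, f0, f1⟩, ind⟩ := t5_first S (fun y => n (rev y)) fun y =>
    (h.link hn y t).imp fun k hk => by rw [hk]; exact (hS t).2 ht
  replace f0 : ∀ y ∈ c, f y = y := fun y a => (f0 y ((hS y).2 a)).1
  have fF : ∀ F : Set (E × Bool), (∀ y ∈ F, n y ∈ F) → (∀ y ∈ F, y.1 ∉ S → rev y ∈ F) →
      ∀ y, y ∈ F → f y ∈ F := fun F c1 c2 =>
    ind _ (fun y a b => by rwa [f0 y ((hS y).1 a)]) fun y a b c => by
      rw [(f1 y a).1]; exact b (c1 _ (c2 y c a))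
  have e : L.filter (· ∈ c) = c := by
    have a : (c.filter (· ∈ c)).Sublist (L.filter (· ∈ c)) := hc.filter _
    rw [List.filter_eq_self.2 (by simp)] at a
    exact (a.eq_of_length_le (List.subperm_of_subset (hL.1.filter _)
      fun y hy => by simpa using (List.mem_filter.1 hy).2).length_le).symm
  refine ⟨fun y => f (n y), ?_, fun y a => f0 _ a, fun b b1 b2 b3 b4 b5 => ?_⟩
  · have := chain (σ := fun y => n (rev y)) (q := (· ∈ c)) (fun y a => f0 y (by simpa using a))
      (fun y a => (f1 y (by simpa [hS] using a)).1) _ (twice hL)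
    rwa [List.filter_append, e] at this
  obtain ⟨m, h1, h2⟩ := h.at hn t
  obtain ⟨P, p2, p3, p4, p5⟩ := b5 m
  exact (core hn h1 S b b1 b2 (fun y a => (hS y).2 (b3 y a)) (fun y => P (f y))
    (fun y a => by rw [(f1 y a).1]) (fun y a a' => by rw [f0 y (b3 y a)]; exact p2 y a a')
    (by rw [f0 t ht]; exact p3)
    (fun y a a' => by rw [f0 y ((hS y).1 a)]; exact p4 y ((hS y).1 a) a')
    (fun K a y => p5 K a _) fun F a a' a'' => b4 F a fun y hy => fF F a' a'' _ (a' y hy)).imp_left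
    fun a => a.simp.congr (cg_lab h2 _).symm

end NB

theorem nb2 [Finite E] (hn : IsTri n) (h : Mark n l) (hL : Lk n L) {x y : E × Bool}
    (hs : [rev x, x, rev y, y].Sublist L) : Simp (dlab l x * dlab l y) := by
  classical
  have nd := hL.1.sublist hs
  obtain ⟨ν, a, -, b⟩ := NB.cyc hn h hL hs (by simp only [List.mem_cons, List.not_mem_nil, or_false, forall_eq_or_imp, rev_rev, true_or, or_true, forall_eq, and_self]) (t := rev y) (by simp)
  simp only [List.cons_append, List.nil_append, List.isChain_cons_cons, rev_rev] at a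
  obtain ⟨a1, a2, a3, a4, -⟩ := a
  simp only [List.nodup_cons, List.mem_cons, List.not_mem_nil, or_false, not_or] at nd
  obtain ⟨⟨n1, n2, n3⟩, ⟨n4, n5⟩, n6, -⟩ := nd
  rcases b [rev x, rev y] (by simp [n2]) (by simp) (by simp)
    (fun F c d => by simpa [c, a4] using d _ c)
    (fun m => ⟨fun v => if v = rev y then dlab m (rev x) else 1, by simp only [List.mem_cons, List.not_mem_nil, or_false, ne_eq, dlab_rev, ite_mul, one_mul, forall_eq_or_imp, n2, not_false_eq_true, ↓ reduceIte, a2, inv_inv, inv_mul_cancel, imp_self, forall_eq, not_true_eq_false, IsEmpty.forall_iff, and_self], by simp only [↓ reduceIte, dlab_rev, a4, n2, inv_one, mul_one, lab_cons, lab_nil],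
      by simp +contextual only [List.mem_cons, List.not_mem_nil, or_false, not_or, ↓ reduceIte, one_mul, dlab_rev, mul_eq_left, inv_eq_one, ite_eq_right_iff, and_imp, forall_eq_or_imp, not_true_eq_false, IsEmpty.forall_iff, n4, not_false_eq_true, a1, imp_self, implies_true, Ne.symm n6, a3, and_self], fun K c v => by
        dsimp only
        split_ifs
        exacts [c _ (by simp), one_mem _]⟩) with c | ⟨F, c, -, d⟩
  · simpa only [lab_cons, dlab_rev, lab_nil, mul_one, mul_inv_rev, inv_inv, mul_assoc, mul_inv_cancel] using c.inv.conj (dlab l x)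
  · have := (Set.ncard_pos (Set.toFinite F)).2 ⟨_, d (rev x) (by simp)⟩
    simp at c
    omega

theorem nb3 [Finite E] (hn : IsTri n) (h : Mark n l) (hL : Lk n L) {x y z : E × Bool}
    (hs : [rev x, x, rev z, z, rev y, y].Sublist L) :
    Simp (dlab l x * dlab l y * dlab l z) ∨ (n (rev x) = rev z ∧ n (rev z) = rev y) := by
  classical
  have nd := hL.1.sublist hs
  obtain ⟨ν, a, a', b⟩ := NB.cyc hn h hL hs (by simp only [List.mem_cons, List.not_mem_nil, or_false, forall_eq_or_imp, rev_rev, true_or, or_true, forall_eq, and_self]) (t := rev y) (by simp)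
  simp only [List.cons_append, List.nil_append, List.isChain_cons_cons, rev_rev] at a
  obtain ⟨a1, a2, a3, a4, a5, a6, -⟩ := a
  simp only [List.nodup_cons, List.mem_cons, List.not_mem_nil, or_false, not_or] at nd
  obtain ⟨⟨n1, n2, n3, n4, n5⟩, ⟨n6, n7, n8, n9⟩, ⟨m1, m2, m3⟩, ⟨m4, m5⟩, m6, -⟩ := nd
  refine (b [rev x, rev z, rev y] (by simp [n2, n4, m2]) (by simp) (by simp only [List.mem_cons, List.not_mem_nil, or_false, forall_eq_or_imp, true_or, or_true, forall_eq, and_self])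
    (fun F c d => ?_)
    (fun m => ⟨fun v => if v = rev z then dlab m (rev x) else if v = rev y then
      dlab m (rev x) * dlab m (rev z) else 1, by simp only [List.mem_cons, List.not_mem_nil, or_false, ne_eq, dlab_rev, ite_mul, one_mul, forall_eq_or_imp, n4, not_false_eq_true, n2, ↓ reduceIte, a2, inv_inv, inv_mul_cancel, imp_self, a4, Ne.symm m2, mul_inv_rev, mul_inv_mul_mul_cancel, implies_true, forall_eq, not_true_eq_false, IsEmpty.forall_iff, and_self],
      by simp only [Ne.symm m2, ↓ reduceIte, dlab_rev, mul_assoc, a6, n2, n4, inv_one, mul_one, lab_cons, lab_nil],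
      by simp +contextual only [List.mem_cons, List.not_mem_nil, or_false, not_or, ↓ reduceIte, one_mul, dlab_rev, mul_eq_left, inv_eq_one, and_imp, forall_eq_or_imp, not_true_eq_false, IsEmpty.forall_iff, n6, not_false_eq_true, n8, a1, imp_self, implies_true, Ne.symm m1, m4, a3, Ne.symm m3, Ne.symm m6, a5, and_self],
      fun K c v => by
        dsimp only
        split_ifs
        exacts [c _ (by simp), mul_mem (c _ (by simp)) (c _ (by simp)), one_mem _]⟩)).imp
    (fun c => by simpa only [mul_assoc, lab_cons, dlab_rev, lab_nil, mul_one, mul_inv_rev, inv_inv, mul_inv_cancel] using c.inv.conj (dlab l x)) ?_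
  · have e := d _ c
    rw [a6] at e
    simpa [c, e, a2] using d _ e
  · rintro ⟨F, c, c', d⟩
    have e : F = {rev x, rev z, rev y} := (Set.eq_of_subset_of_ncard_le
      (fun v hv => d v (by simpa using hv))
      (by rw [Set.ncard_eq_three.2 ⟨_, _, _, n2, n4, m2, rfl⟩]; simp at c; omega)).symm
    have k : ∀ v ∈ F, ν v = n v := fun v hv => a' v (by
      have := c' v hv
      rw [e] at this
      rcases this with r | r | (r : _ = _) <;> simp [r])
    exact ⟨(k _ (d _ (by simp))).symm.trans a2, (k _ (d _ (by simp))).symm.trans a4⟩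

end Pool.Agent.MP_596265_gt.U

end
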