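import Pool.Agent.MP_596265_gt.W.D0
import Pool.Agent.MP_596265_gt.W.P1
import Pool.Agent.MP_596265_gt.W.T2
import Pool.Agent.MP_596265_gt.W.C0

attribute [-instance] AddQuantale.instAddLeftMono GradedMonoid.GradeZero.smul
  SMulWithZero.toSMulZeroClass AddMonoidWithOne.toAddMonoid AddCommGroup.toAddGroup
  NonUnitalNormedRing.toNormedAddCommGroup NumberField.to_charZero TotallySeparatedSpace.t2Space
  AddQuantale.instAddRightMono IdemSemiring.toCanonicallyOrderedAdd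
  ENormedAddCommMonoid.toESeminormedAddCommMonoid RKHS.instFunLike
  Group.IsPerfect.subsingleton_of_isMulCommutative Quantale.instMulRightMono
  SemigroupWithZero.toSemigroup ESeminormedAddMonoid.toAddMonoid CommGroup.toDivisionCommMonoid
  continuousSub_of_discreteTopology RCLike.charZero_rclike
  LinearOrderedCommMonoidWithZero.toPosMulStrictMono instSMulZeroClass Valued.toUniformSpace
  littleWedderburn CStarAlgebra.instOrderClosedTopology Bialgebra.toAlgebra Prod.instAddGroup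
  IsOrderedMonoid.toMulLeftMono SubtractionMonoid.toSubNegMonoid LinearOrder.toDecidableEq
  IdemSemiring.toMulLeftMono TestFunctionClass.toDFunLike

section

/-! Limits of positive states along an ultrafilter. -/

namespace Pool.Agent.MP_596265_gt.U.Lim

open Erg Real UpperHalfPlane Set Filter Topology Stp

noncomputable section

variable {E ι : Type} {n : Nx E} {U : Ultrafilter ι} {L : ι → E → G}

/-- Positive states at `I` all of whose faces have a circumscribed circle or horocycle. -/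
structure LD (n : Nx E) (L : ι → E → G) : Prop where
  gs : ∀ k, Gs n (L k) I
  hh : ∀ k d, 0 ≤ hH I (vQ (L k) I d) (vR n (L k) I d)

/-- Bounded edges. -/
def Bn (U : Ultrafilter ι) (L : ι → E → G) (x : E) : Prop :=
  ∃ u : G, Tendsto (fun k => L k x) U (𝓝 u)

open Classical in
/-- Limit labels. -/
def L0 (U : Ultrafilter ι) (L : ι → E → G) (x : E) : G := if h : Bn U L x then h.choose else 1

/-- The points `u • I`, `u ∈ S`, lie in no closed half plane bounded by a line through `I`. -/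
def HP (S : Set G) : Prop :=
  ∀ Y : Mat, Y.trace = 0 → Y 0 1 = Y 1 0 → Y ≠ 0 → ∃ u ∈ S, 0 < hgt Y u

theorem Bn.tendsto {x : E} (h : Bn U L x) : Tendsto (fun k => L k x) U (𝓝 (L0 U L x)) := by
  rw [L0, dif_pos h]
  exact h.choose_spec

theorem Bn.dl {d : Dr E} (h : Bn U L d.1) :
    Tendsto (fun k => dlab (L k) d) U (𝓝 (dlab (L0 U L) d)) := by
  obtain ⟨x, b⟩ := d
  cases b
  · exact h.tendsto.inv
  · exact h.tendsto

theorem bn_of_le {x : E} {R : ℝ} (h : ∀ᶠ k in U, len (L k x) ≤ R) : Bn U L x := by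
  obtain ⟨u, -, hu⟩ := (isCompact_len_le R).ultrafilter_le_nhds (U.map fun k => L k x)
    (le_principal_iff.2 h)
  exact ⟨u, hu⟩

theorem long {x : E} (h : ¬ Bn U L x) : Tendsto (fun k => len (L k x)) U atTop := by
  refine tendsto_atTop.2 fun R => ?_
  by_contra hn
  exact h (bn_of_le ((Ultrafilter.eventually_not.2 hn).mono fun k hk => (not_le.1 hk).le))

theorem Bn.tlen {x : E} (h : Bn U L x) :
    Tendsto (fun k => len (L k x)) U (𝓝 (len (L0 U L x))) :=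
  (continuous_len.tendsto _).comp h.tendsto

theorem pm_face {L : E → G} (h : Flat n L) (d : Dr E) :
    PM (dlab L d * dlab L (n d)) (dlab L (n (n d)))⁻¹ := by
  simpa [fp] using (h d).mul (PM.refl (dlab L (n (n d)))⁻¹)

/-- A face with two bounded sides is bounded. -/
theorem face (h : ∀ k, Flat n (L k)) {d : Dr E} (h1 : Bn U L d.1) (h2 : Bn U L (n d).1) :
    Bn U L (n (n d)).1 := by
  have t := h1.tlen.add h2.tlen
  refine bn_of_le ((t.eventually (gt_mem_nhds (lt_add_one _))).mono fun k hk => le_trans ?_ hk.le)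
  rw [← len_dlab, ← len_inv, ← (pm_face (h k) d).len_eq, ← len_dlab, ← len_dlab]
  exact len_mul_le _ _

theorem Bn.le_len {x : E} {η : ℝ} (h : Bn U L x) (hη : ∀ k, η ≤ len (L k x)) :
    η ≤ len (L0 U L x) := ge_of_tendsto' h.tlen hη

theorem Bn.not_pm {d : Dr E} {η : ℝ} (h : Bn U L d.1) (h0 : 0 < η) (hη : ∀ k, η ≤ len (L k d.1)) :
    ¬ PM (dlab (L0 U L) d) 1 := fun e => by
  have a := h.le_len hη
  rw [← len_dlab, e.len_eq, len_one] at a
  linarith

/-! Coordinates on the hyperboloid -/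

def cc (g : G) : ℝ := (g 0 0 ^ 2 + g 0 1 ^ 2 + g 1 0 ^ 2 + g 1 1 ^ 2) / 2
def p1 (g : G) : ℝ := (g 0 0 ^ 2 + g 0 1 ^ 2 - g 1 0 ^ 2 - g 1 1 ^ 2) / 2
def p2 (g : G) : ℝ := g 0 0 * g 1 0 + g 0 1 * g 1 1
/-- The point `g • I` in the Klein disc. -/
def kl (g : G) : ℂ := ⟨p1 g / cc g, p2 g / cc g⟩
def xx (g : G) : ℝ := sinh (len g / 2)

theorem cc_xx (g : G) : cc g = 1 + 2 * xx g ^ 2 := (cosh_len g).symm.trans (ch_xs I (g • I))
theorem xx_nonneg (g : G) : 0 ≤ xx g := xs_nonneg I (g • I)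
theorem cc_pos (g : G) : 0 < cc g := by rw [cc_xx]; positivity
theorem cc_sq (g : G) : cc g ^ 2 = 1 + p1 g ^ 2 + p2 g ^ 2 := by
  have := basic_det g
  simp only [cc, p1, p2]
  linear_combination (g 0 0 * g 1 1 - g 0 1 * g 1 0 + 1) * this
theorem cc_inv_mul (g h : G) : cc (g⁻¹ * h) = cc g * cc h - p1 g * p1 h - p2 g * p2 h := by
  simp only [cc, p1, p2, basic_mul, basic_inv00, basic_inv01, basic_inv10, basic_inv11]
  ring
theorem PM.kl {g h : G} (e : PM g h) : cc g = cc h ∧ kl g = kl h := by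
  rcases e with rfl | rfl
  · exact ⟨rfl, rfl⟩
  · simp only [cc, Fin.isValue, basic_neg, even_two, Even.neg_pow, Lim.kl, p1, p2, mul_neg, neg_mul, neg_neg, and_self]
theorem cont_xx : Continuous xx := continuous_sinh.comp (continuous_len.div_const 2)
theorem cont_cc : Continuous cc := by
  rw [show cc = fun g => 1 + 2 * xx g ^ 2 from funext cc_xx]
  have := cont_xx
  fun_prop
theorem cont_kl : Continuous kl := by
  have h (i j) := basic_cont i j
  have a : Continuous p1 := by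
    unfold p1
    exact (((((h 0 0).pow 2).add ((h 0 1).pow 2)).sub ((h 1 0).pow 2)).sub ((h 1 1).pow 2)).div_const 2
  have b : Continuous p2 := ((h 0 0).mul (h 1 0)).add ((h 0 1).mul (h 1 1))
  exact Complex.equivRealProdCLM.symm.continuous.comp
    ((a.div cont_cc fun g => (cc_pos g).ne').prodMk (b.div cont_cc fun g => (cc_pos g).ne'))

theorem smul_I (g : G) : 0 < g 1 0 ^ 2 + g 1 1 ^ 2 ∧
    (g • I : ℍ).re = p2 g / (g 1 0 ^ 2 + g 1 1 ^ 2) ∧ (g • I : ℍ).im = 1 / (g 1 0 ^ 2 + g 1 1 ^ 2) := by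
  have hd := basic_det g
  have h0 : 0 < g 1 0 ^ 2 + g 1 1 ^ 2 := by
    by_contra h
    have h1 : g 1 0 = 0 := by nlinarith only [h]
    have h2 : g 1 1 = 0 := by nlinarith only [h]
    rw [h1, h2] at hd; simp at hd
  have e := basic_coe_smul g I
  have hn : Complex.normSq (((g 1 0 : ℝ) : ℂ) * Complex.I + (g 1 1 : ℝ)) =
      g 1 0 ^ 2 + g 1 1 ^ 2 := by
    simp [Complex.normSq_apply]; ring
  refine ⟨h0, ?_, ?_⟩
  · rw [← coe_re, e, Complex.div_re, coe_I, hn, ← add_div, p2]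
    congr 1
    simp only [Fin.isValue, Complex.add_re, Complex.mul_re, Complex.ofReal_re, Complex.I_re, mul_zero, Complex.ofReal_im, Complex.I_im, mul_one, sub_self, zero_add, Complex.add_im, Complex.mul_im, add_zero]
    ring
  · rw [← coe_im, e, Complex.div_im, coe_I, hn, ← sub_div]
    congr 1
    simpa only [Fin.isValue, Complex.add_im, Complex.mul_im, Complex.ofReal_re, Complex.I_im, mul_one, Complex.ofReal_im, Complex.I_re, mul_zero, add_zero, Complex.add_re, Complex.mul_re, sub_self, zero_add] using hd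

theorem hD_I (g h : G) : hD I (g • I) (h • I) = 2 * (p2 g * p1 h - p1 g * p2 h) := by
  obtain ⟨a0, a1, a2⟩ := smul_I g
  obtain ⟨b0, b1, b2⟩ := smul_I h
  have f (g : G) : p1 g * 2 * (g 1 0 ^ 2 + g 1 1 ^ 2) = p2 g ^ 2 + 1 - (g 1 0 ^ 2 + g 1 1 ^ 2) ^ 2 := by
    have := basic_det g
    simp only [p1, p2]
    linear_combination (g 0 0 * g 1 1 - g 0 1 * g 1 0 + 1) * this
  have fg := f g
  have fh := f h
  simp only [hD, hdet, det3, Φ, a1, a2, b1, b2, I_re, I_im]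
  generalize g 1 0 ^ 2 + g 1 1 ^ 2 = s at *
  generalize h 1 0 ^ 2 + h 1 1 ^ 2 = t at *
  field_simp
  linear_combination (-p2 g * s) * fh + (p2 h * t) * fg

theorem ax_symm {A : G} : tr A ^ 2 = 4 + 4 * xs I (A • I) ^ 2 ↔ A 0 1 = A 1 0 := by
  have h : cc A = 1 + 2 * xs I (A • I) ^ 2 := cc_xx A
  have d := basic_det A
  simp only [cc, tr] at h ⊢
  refine ⟨fun e => ?_, fun e => ?_⟩
  · have : (A 0 1 - A 1 0) ^ 2 = 0 := by linear_combination 2 * h - e + 2 * d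
    exact sub_eq_zero.1 (pow_eq_zero_iff two_ne_zero |>.1 this)
  · rw [e] at h d
    linear_combination 2 * h + 2 * d

theorem lim_bdd {f : ι → ℝ} {B : ℝ} (h : ∀ k, |f k| ≤ B) : ∃ x, Tendsto f U (𝓝 x) := by
  obtain ⟨x, -, hx⟩ := (isCompact_Icc (a := -B) (b := B)).ultrafilter_le_nhds (U.map f)
    (le_principal_iff.2 (mem_map.2 (Eventually.of_forall fun k => abs_le.1 (h k))))
  exact ⟨x, hx⟩

/-- The direction of a short loop whose axis passes through `I`. -/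
theorem ax {A : ι → G} (h0 : Tendsto (fun k => len (A k)) U (𝓝 0)) (h1 : ∀ k, ¬ PM (A k) 1)
    (hs : ∀ k, A k 0 1 = A k 1 0) : ∃ (s : ℝ) (e : ι → ℝ) (X : Mat), (s = 1 ∨ s = -1) ∧
      (∀ k, 0 < e k) ∧ Tendsto e U (𝓝 0) ∧
      Tendsto (fun k => (e k)⁻¹ • (s • (A k : Mat) - 1)) U (𝓝 X) ∧ X.trace = 0 ∧ X 0 1 = X 1 0 ∧
      X ≠ 0 ∧ ∃ A₀ : G, Tendsto A U (𝓝 A₀) ∧ (A₀ : Mat) = s • 1 := by
  obtain ⟨A₀, hA⟩ : Bn U (fun k (_ : Unit) => A k) () :=
    bn_of_le (R := 1) ((h0.eventually (gt_mem_nhds one_pos)).mono fun k hk => hk.le)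
  have ent (i j) : Tendsto (fun k => A k i j) U (𝓝 (A₀ i j)) := ((basic_cont i j).tendsto _).comp hA
  have l0 : len A₀ = 0 := tendsto_nhds_unique ((continuous_len.tendsto _).comp hA) h0
  have s0 : A₀ 0 1 = A₀ 1 0 := tendsto_nhds_unique (ent 0 1) ((ent 1 0).congr fun k => (hs k).symm)
  have c0 := cosh_len A₀
  have d0 := basic_det A₀
  rw [l0, cosh_zero] at c0
  rw [s0] at c0 d0
  have q1 : A₀ 1 0 = 0 := by nlinarith only [sq_nonneg (A₀ 0 0 - A₀ 1 1), c0, d0]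
  have q2 : A₀ 1 1 = A₀ 0 0 := by nlinarith only [c0, d0]
  rw [q1, q2] at d0
  have hs1 : A₀ 0 0 = 1 ∨ A₀ 0 0 = -1 := mul_self_eq_one_iff.1 (by linarith only [d0])
  generalize hs' : A₀ 0 0 = s at hs1 d0 q2
  have ss : s * s = 1 := by linarith only [d0]
  set e : ι → ℝ := fun k => |s * A k 0 0 - 1| + |s * A k 1 0| + |s * A k 1 1 - 1| with he
  have e0 (k) : 0 < e k := by
    by_contra hn
    have a1 := abs_nonneg (s * A k 0 0 - 1)
    have a2 := abs_nonneg (s * A k 1 0)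
    have a3 := abs_nonneg (s * A k 1 1 - 1)
    have b1 := abs_eq_zero.1 (show |s * A k 0 0 - 1| = 0 by simp only [he] at hn; linarith only [a1, a2, a3, hn])
    have b2 := abs_eq_zero.1 (show |s * A k 1 0| = 0 by simp only [he] at hn; linarith only [a1, a2, a3, hn])
    have b3 := abs_eq_zero.1 (show |s * A k 1 1 - 1| = 0 by simp only [he] at hn; linarith only [a1, a2, a3, hn])
    have b4 := hs k
    refine h1 k ?_
    rcases hs1 with rfl | rfl
    · exact .inl (basic_ext (by rw [basic_one00]; linarith only [b1]) (by rw [basic_one01]; linarith only [b4, b2])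
        (by rw [basic_one10]; linarith only [b2]) (by rw [basic_one11]; linarith only [b3]))
    · exact .inr (basic_ext (by rw [basic_neg, basic_one00]; linarith only [b1])
        (by rw [basic_neg, basic_one01]; linarith only [b4, b2]) (by rw [basic_neg, basic_one10]; linarith only [b2])
        (by rw [basic_neg, basic_one11]; linarith only [b3]))
  have et : Tendsto e U (𝓝 0) := by
    have := (((((ent 0 0).const_mul s).sub_const 1).abs).add ((ent 1 0).const_mul s).abs).add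
      (((ent 1 1).const_mul s).sub_const 1).abs
    rwa [hs', q1, q2, ss, sub_self, mul_zero, abs_zero, add_zero, add_zero] at this
  have bd {f : ι → ℝ} (h : ∀ k, |f k| ≤ e k) : ∃ x, Tendsto (fun k => (e k)⁻¹ * f k) U (𝓝 x) :=
    lim_bdd (B := 1) fun k => by
      rw [abs_mul, abs_inv, abs_of_pos (e0 k), inv_mul_le_iff₀ (e0 k), mul_one]; exact h k
  obtain ⟨x, hx⟩ := bd (f := fun k => s * A k 0 0 - 1) fun k => by
    simp only [he]; linarith only [abs_nonneg (s * A k 1 0), abs_nonneg (s * A k 1 1 - 1)]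
  obtain ⟨y, hy⟩ := bd (f := fun k => s * A k 1 0) fun k => by
    simp only [he]; linarith only [abs_nonneg (s * A k 0 0 - 1), abs_nonneg (s * A k 1 1 - 1)]
  obtain ⟨w, hw⟩ := bd (f := fun k => s * A k 1 1 - 1) fun k => by
    simp only [he]; linarith only [abs_nonneg (s * A k 0 0 - 1), abs_nonneg (s * A k 1 0)]
  have t1 : x + w = 0 := by
    have a := (et.mul ((hy.mul hy).sub (hx.mul hw)))
    rw [zero_mul] at a
    refine tendsto_nhds_unique (hx.add hw) (a.congr fun k => ?_)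
    have d := basic_det (A k)
    rw [hs k] at d
    have := (e0 k).ne'
    field_simp
    linear_combination (-1 : ℝ) * d - (A k 0 0 * A k 1 1 - A k 1 0 ^ 2) * ss
  have t2 : |x| + |y| + |w| = 1 := by
    refine tendsto_nhds_unique ((hx.abs.add hy.abs).add hw.abs) (tendsto_const_nhds.congr fun k => ?_)
    simp only [abs_mul (e k)⁻¹, abs_inv, abs_of_pos (e0 k), ← mul_add]
    exact (inv_mul_cancel₀ (e0 k).ne').symm
  refine ⟨s, e, !![x, y; y, w], hs1, e0, et, ?_, by simpa only [Matrix.trace_fin_two_of] using t1, rfl, fun h => ?_, A₀, hA, ?_⟩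
  · refine tendsto_pi_nhds.2 fun i => tendsto_pi_nhds.2 fun j => ?_
    fin_cases i <;> fin_cases j
    · simpa only [Fin.zero_eta, Fin.isValue, Matrix.smul_apply, Matrix.sub_apply, smul_eq_mul, Matrix.one_apply_eq, Matrix.of_apply, Matrix.cons_val', Matrix.cons_val_zero, Matrix.cons_val_fin_one] using hx
    · simpa only [Fin.zero_eta, Fin.isValue, Fin.mk_one, Matrix.smul_apply, Matrix.sub_apply, hs, smul_eq_mul, Nat.reduceAdd, ne_eq, zero_ne_one, not_false_eq_true, Matrix.one_apply_ne, sub_zero, Matrix.of_apply, Matrix.cons_val', Matrix.cons_val_one, Matrix.cons_val_fin_one, Matrix.cons_val_zero] using hy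
    · simpa only [Fin.mk_one, Fin.isValue, Fin.zero_eta, Matrix.smul_apply, Matrix.sub_apply, smul_eq_mul, Nat.reduceAdd, ne_eq, one_ne_zero, not_false_eq_true, Matrix.one_apply_ne, sub_zero, Matrix.of_apply, Matrix.cons_val', Matrix.cons_val_zero, Matrix.cons_val_fin_one, Matrix.cons_val_one] using hy
    · simpa only [Fin.mk_one, Fin.isValue, Matrix.smul_apply, Matrix.sub_apply, smul_eq_mul, Matrix.one_apply_eq, Matrix.of_apply, Matrix.cons_val', Matrix.cons_val_one, Matrix.cons_val_fin_one] using hw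
  · have a := congrFun (congrFun h 0) 0
    have b := congrFun (congrFun h 1) 0
    have c := congrFun (congrFun h 1) 1
    simp at a b c
    simp [a, b, c] at t2
  · ext i j
    fin_cases i <;> fin_cases j <;> simp [hs', q1, q2, s0]

theorem LD.not_pm (h : LD n L) (k : ι) (d : Dr E) : ¬ PM (dlab (L k) d) 1 := fun e => by
  have a := (h.gs k).pos d
  rw [fD, vQ, e.smul_eq, one_smul] at a
  simp [hD, hdet, det3] at a

theorem xx_pos {g : G} {η : ℝ} (h0 : 0 < η) (h : η ≤ len g) : 0 < xx g :=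
  sinh_pos_iff.2 (by linarith)

theorem t_cc {g : ι → G} (h : Tendsto (fun k => len (g k)) U atTop) :
    Tendsto (fun k => xx (g k)) U atTop ∧ Tendsto (fun k => cc (g k)) U atTop := by
  have a : Tendsto (fun k => xx (g k)) U atTop :=
    tendsto_atTop_mono' _ ((h.eventually_ge_atTop 0).mono fun k hk =>
      self_le_sinh_iff.2 (by linarith)) (h.atTop_div_const two_pos)
  refine ⟨a, tendsto_atTop_mono (fun k => ?_) a⟩
  rw [cc_xx]
  nlinarith only []

/-- Faces with three long sides have area `π` in the limit. -/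
theorem area [Fintype E] (h : LD n L) {A : ℝ}
    (hA : ∀ k, ∑ d, tarea I (vQ (L k) I d) (vR n (L k) I d) = A) (B : Finset E)
    (hB : ∀ x, Bn U L x → x ∈ B) : (2 * Fintype.card E - 6 * B.card : ℝ) * π ≤ A := by
  classical
  set T : Finset (Dr E) := Finset.univ.filter fun d => d.1 ∉ B ∧ (n d).1 ∉ B ∧ (n (n d)).1 ∉ B
  have c1 : (Finset.univ.filter fun d : Dr E => d.1 ∈ B).card = 2 * B.card := by
    rw [show (Finset.univ.filter fun d : Dr E => d.1 ∈ B) = B ×ˢ Finset.univ by ext; simp only [Finset.mem_filter, Finset.mem_univ, true_and, Fintype.univ_bool, Finset.mem_product, Finset.mem_insert, Finset.mem_singleton, Bool.eq_true_or_eq_false_self, and_true]]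
    simp [mul_comm]
  have c2 (σ : Nx E) : (Finset.univ.filter fun d : Dr E => (σ d).1 ∈ B).card = 2 * B.card := by
    rw [← c1]
    exact Finset.card_bijective σ σ.bijective (by simp only [Finset.mem_filter, Finset.mem_univ, true_and, implies_true])
  have cT : 2 * Fintype.card E ≤ T.card + 6 * B.card := by
    have s : (Finset.univ : Finset (Dr E)) ⊆ T ∪ (Finset.univ.filter fun d : Dr E => d.1 ∈ B) ∪
        (Finset.univ.filter fun d : Dr E => (n d).1 ∈ B) ∪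
        (Finset.univ.filter fun d : Dr E => ((n * n) d).1 ∈ B) := fun d _ => by
      simp only [T, Finset.mem_union, Finset.mem_filter, Finset.mem_univ, true_and,
        Equiv.Perm.mul_apply]
      tauto
    have a := Finset.card_le_card s
    have b1 := Finset.card_union_le (T ∪ (Finset.univ.filter fun d : Dr E => d.1 ∈ B) ∪
        (Finset.univ.filter fun d : Dr E => (n d).1 ∈ B))
        (Finset.univ.filter fun d : Dr E => ((n * n) d).1 ∈ B)
    have b2 := Finset.card_union_le (T ∪ (Finset.univ.filter fun d : Dr E => d.1 ∈ B))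
        (Finset.univ.filter fun d : Dr E => (n d).1 ∈ B)
    have b3 := Finset.card_union_le T (Finset.univ.filter fun d : Dr E => d.1 ∈ B)
    rw [c2] at b1 b2
    rw [c1] at b3
    rw [Finset.card_univ, Fintype.card_prod, Fintype.card_bool] at a
    omega
  have key (τ : ℝ) (hτ : 0 < τ) : T.card * (2 * arctan τ) ≤ A := by
    have ev : ∀ᶠ k in U, ∀ x, x ∉ B → 3 + 50 * τ ^ 2 ≤ cosh (len (L k x)) :=
      eventually_all.2 fun x => by
        by_cases hx : x ∈ B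
        · exact Eventually.of_forall fun k hk => (hk hx).elim
        · exact ((t_cc (long fun hb => hx (hB x hb))).2.eventually_ge_atTop _).mono fun k hk _ => by
            rw [cosh_len]; exact hk
    obtain ⟨k, hk⟩ := ev.exists
    have p (d) : 0 < 1 * hdet I (vQ (L k) I d) (vR n (L k) I d) :=
      hD_pos.1 (by rw [one_mul]; exact (h.gs k).pos d)
    have l (d : Dr E) (hd : d.1 ∉ B) : 3 + 50 * τ ^ 2 ≤ cosh (dist I (vQ (L k) I d)) := by
      have := hk _ hd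
      rwa [← len_dlab] at this
    rw [← hA k, ← nsmul_eq_mul, ← Finset.sum_const]
    refine le_trans (Finset.sum_le_sum fun d hd => ?_) (Finset.sum_le_sum_of_subset_of_nonneg
      (Finset.subset_univ T) fun d _ _ => by simpa only [one_mul] using tarea_nonneg (.inl rfl) (p d))
    obtain ⟨-, h1, h2, h3⟩ := Finset.mem_filter.1 hd
    have := tarea_fat (.inl rfl) hτ (p d) (h.hh k d)
      (by rw [ch, dist_R (h.gs k).flat]; exact l _ h3)
      (by rw [ch, dist_comm, dist_QR]; exact l _ h2) (l _ h1)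
    rwa [one_mul] at this
  have t : Tendsto (fun τ : ℝ => (T.card : ℝ) * (2 * arctan τ)) atTop (𝓝 (T.card * (2 * (π / 2)))) :=
    ((tendsto_arctan_atTop.mono_right nhdsWithin_le_nhds).const_mul 2).const_mul _
  have a := le_of_tendsto t ((eventually_gt_atTop 0).mono key)
  have b : (2 * Fintype.card E : ℝ) ≤ T.card + 6 * B.card := by exact_mod_cast cT
  nlinarith only [pi_pos, a, b]

theorem area_one {g : ℕ} {e : ℤ} {n : Nx (Ed g)} {L : ι → Ed g → G} (h : LD n L) (hg : 1 ≤ g)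
    (he : e ≤ 2 * g - 3) (hA : ∀ k, ∑ d, tarea I (vQ (L k) I d) (vR n (L k) I d) = 6 * π * e)
    (a : Ed g) : ∃ x, x ≠ a ∧ Bn U L x := by
  by_contra hn
  have := area (U := U) h hA {a} fun x hx => Finset.mem_singleton.2 (by
    by_contra h'; exact hn ⟨x, h', hx⟩)
  rw [Fintype.card_fin, Nat.cast_sub (by omega)] at this
  have b : (e : ℝ) ≤ 2 * g - 3 := by exact_mod_cast he
  simp only [Nat.cast_mul, Nat.cast_ofNat, Finset.card_singleton, Nat.cast_one, mul_one] at this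
  nlinarith only [pi_pos, b, this]

/-! Corners -/

/-- Two neighbouring darts `h`, `g` and the third side `t` of the face between them. -/
structure Cn (g h t : G) : Prop where
  pm : PM (g * t) h
  pos : 0 < hD I (g • I) (h • I)
  t1 : xx g ≤ xx t + xx h
  t2 : xx t ≤ xx g + xx h
  t3 : xx h ≤ xx g + xx t

theorem LD.xx_pos (h : LD n L) (k : ι) (d : Dr E) : 0 < xx (dlab (L k) d) := by
  refine (xx_nonneg _).lt_of_ne' fun e => ?_
  have a := (h.gs k).pos d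
  have b : len (dlab (L k) d) = 0 := by
    have := sinh_eq_zero.1 e
    linarith
  rw [fD, vQ, (len_eq_zero_iff _).1 b] at a
  simp [hD, hdet, det3] at a

theorem LD.cn (h : LD n L) (k : ι) (y : Dr E) :
    Cn (dlab (L k) (n (rev y))) (dlab (L k) y) (dlab (L k) (n (n (rev y)))) := by
  have f := (h.gs k).flat
  have c := (h.gs k).trg.cube (rev y)
  have pm := pm_face f (n (rev y))
  rw [c, dlab_rev, inv_inv] at pm
  have x (d) : xd (L k) I d = xx (dlab (L k) d) := rfl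
  have e1 := xs_QR n (L k) I (n (rev y))
  have e2 := xs_R f I (n (rev y))
  rw [c, xd_rev, x] at e2
  rw [x] at e1
  have t := (hH_nonneg_iff (p := I) (r := vQ (L k) I (n (rev y))) (q := vR n (L k) I (n (rev y)))
    (by rw [e2]; exact h.xx_pos k _) (by rw [xs_comm, e1]; exact h.xx_pos k _) (h.xx_pos k _)).1
    (h.hh k _)
  rw [e2, xs_comm (vR _ _ _ _), e1, show xs I (vQ (L k) I (n (rev y))) = xx _ from rfl] at t
  refine ⟨pm, ?_, by linarith only [t.2.2], by linarith only [t.2.1], by linarith [t.1]⟩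
  have := (h.gs k).pos (n (rev y))
  rwa [fD, vR, pm.smul_eq] at this

open ComplexConjugate

theorem Cn.dot {g h t : G} (c : Cn g h t) : cc t = cc g * cc h - p1 g * p1 h - p2 g * p2 h := by
  rw [← cc_inv_mul]
  exact (PM.kl (by simpa using (PM.refl g⁻¹).mul c.pm)).1

theorem Cn.re {g h t : G} (c : Cn g h t) : (kl g * conj (kl h)).re =
    1 - (1 + 2 * xx t ^ 2) / ((1 + 2 * xx g ^ 2) * (1 + 2 * xx h ^ 2)) := by
  have a := cc_pos g
  have b := cc_pos h
  rw [← cc_xx, ← cc_xx, ← cc_xx, c.dot]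
  simp only [kl, Complex.mul_re, Complex.conj_re, Complex.conj_im]
  field_simp
  ring

theorem Cn.im {g h t : G} (c : Cn g h t) :
    4 * xx g * xx h * xx t / ((1 + 2 * xx g ^ 2) * (1 + 2 * xx h ^ 2)) ≤ (kl g * conj (kl h)).im := by
  have a := cc_pos g
  have b := cc_pos h
  have p := c.pos
  rw [hD_I] at p
  have e : (kl g * conj (kl h)).im = (p2 g * p1 h - p1 g * p2 h) / (cc g * cc h) := by
    simp only [kl, Complex.mul_im, Complex.conj_re, Complex.conj_im]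
    field_simp
    ring
  rw [e, ← cc_xx, ← cc_xx]
  refine div_le_div_of_nonneg_right (abs_le_of_sq_le_sq' ?_ (by linarith only [p])).2 (by positivity)
  have e2 : (p2 g * p1 h - p1 g * p2 h) ^ 2 =
      (cc g ^ 2 - 1) * (cc h ^ 2 - 1) - (cc g * cc h - cc t) ^ 2 := by
    rw [cc_sq g, cc_sq h, c.dot]; ring
  have H := mul_nonneg (mul_nonneg (mul_nonneg (add_nonneg (add_nonneg (xx_nonneg g) (xx_nonneg h))
    (xx_nonneg t)) (sub_nonneg.2 c.t1)) (sub_nonneg.2 c.t2)) (sub_nonneg.2 c.t3)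
  rw [e2, cc_xx, cc_xx, cc_xx]
  linarith only [H]

theorem Cn.near {g h t : G} (c : Cn g h t) : Complex.normSq (kl g - kl h) ≤ 2 * (cc t - 1) ∧
    Complex.normSq (kl g - kl h) ≤ 4 * (cc g)⁻¹ + 4 * (cc h)⁻¹ := by
  have a := cc_pos g
  have b := cc_pos h
  have e : Complex.normSq (kl g - kl h) = (2 * cc t * (cc g * cc h) - cc g ^ 2 - cc h ^ 2) /
      (cc g * cc h) ^ 2 := by
    have a1 := cc_sq g
    have a2 := cc_sq h
    rw [c.dot]
    simp only [kl, Complex.normSq_apply, Complex.sub_re, Complex.sub_im]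
    field_simp
    linear_combination (-cc h ^ 2) * a1 - cc g ^ 2 * a2
  have a1 : 1 ≤ cc g := by rw [cc_xx]; nlinarith only []
  have a2 : 1 ≤ cc h := by rw [cc_xx]; nlinarith only []
  have a3 : 1 ≤ cc t := by rw [cc_xx]; nlinarith only []
  have a4 : 1 ≤ cc g * cc h := one_le_mul_of_one_le_of_one_le a1 a2
  have a5 : cc t ≤ 2 * (cc g + cc h) := by
    have := pow_le_pow_left₀ (xx_nonneg t) c.t2 2
    rw [cc_xx, cc_xx, cc_xx]
    linarith only [sq_nonneg (xx g - xx h), this]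
  rw [e]
  refine ⟨?_, ?_⟩
  · rw [div_le_iff₀ (by positivity)]
    linarith only [sq_nonneg (cc g - cc h), mul_nonneg (sub_nonneg.2 a3)
      (mul_nonneg (mul_pos a b).le (sub_nonneg.2 a4))]
  · rw [div_le_iff₀ (by positivity), show (4 * (cc g)⁻¹ + 4 * (cc h)⁻¹) * (cc g * cc h) ^ 2 =
      2 * (2 * (cc g + cc h)) * (cc g * cc h) by field_simp; ring]
    nlinarith only [mul_le_mul_of_nonneg_right a5 (mul_pos a b).le]

section
variable {g h t : ι → G} {κ κ' : ℂ}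

theorem eq_of_near {f : ι → ℝ} (hg : Tendsto (fun k => kl (g k)) U (𝓝 κ))
    (hh : Tendsto (fun k => kl (h k)) U (𝓝 κ')) (hf : Tendsto f U (𝓝 0))
    (e : ∀ k, Complex.normSq (kl (g k) - kl (h k)) ≤ f k) : κ = κ' :=
  sub_eq_zero.1 (Complex.normSq_eq_zero.1 (le_antisymm (le_of_tendsto_of_tendsto'
    ((Complex.continuous_normSq.tendsto _).comp (hg.sub hh)) hf e) (Complex.normSq_nonneg _)))

theorem cn_tiny (c : ∀ k, Cn (g k) (h k) (t k)) (hg : Tendsto (fun k => kl (g k)) U (𝓝 κ))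
    (hh : Tendsto (fun k => kl (h k)) U (𝓝 κ')) (ht : Tendsto (fun k => len (t k)) U (𝓝 0)) :
    κ = κ' := by
  refine eq_of_near hg hh ?_ fun k => (c k).near.1
  have := (((continuous_cosh.tendsto _).comp ht).sub_const 1).const_mul 2
  rw [cosh_zero, sub_self, mul_zero] at this
  exact this.congr fun k => by simp only [Function.comp, cosh_len, cc]

theorem cn_LL (c : ∀ k, Cn (g k) (h k) (t k)) (hg : Tendsto (fun k => kl (g k)) U (𝓝 κ))
    (hh : Tendsto (fun k => kl (h k)) U (𝓝 κ')) (lg : Tendsto (fun k => len (g k)) U atTop)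
    (lh : Tendsto (fun k => len (h k)) U atTop) : κ = κ' := by
  refine eq_of_near hg hh ?_ fun k => (c k).near.2
  simpa only [Pi.inv_apply, mul_zero, add_zero] using ((t_cc lg).2.inv_tendsto_atTop.const_mul 4).add
    ((t_cc lh).2.inv_tendsto_atTop.const_mul 4)

theorem t_mul (hg : Tendsto (fun k => kl (g k)) U (𝓝 κ)) (hh : Tendsto (fun k => kl (h k)) U (𝓝 κ')) :
    Tendsto (fun k => (kl (g k) * conj (kl (h k))).re) U (𝓝 (κ * conj κ').re) ∧
    Tendsto (fun k => (kl (g k) * conj (kl (h k))).im) U (𝓝 (κ * conj κ').im) :=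
  have a := hg.mul ((Complex.continuous_conj.tendsto _).comp hh)
  ⟨(Complex.continuous_re.tendsto _).comp a, (Complex.continuous_im.tendsto _).comp a⟩

theorem cn_bb (c : ∀ k, Cn (g k) (h k) (t k)) (hg : Tendsto (fun k => kl (g k)) U (𝓝 κ))
    (hh : Tendsto (fun k => kl (h k)) U (𝓝 κ')) {x y z : ℝ} (hx : 0 < x) (hy : 0 < y) (hz : 0 < z)
    (lg : Tendsto (fun k => xx (g k)) U (𝓝 x)) (lh : Tendsto (fun k => xx (h k)) U (𝓝 y))
    (lt : Tendsto (fun k => xx (t k)) U (𝓝 z)) : 0 < (κ * conj κ').im :=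
  lt_of_lt_of_le (by positivity) (le_of_tendsto_of_tendsto' ((((lg.const_mul 4).mul lh).mul lt).div
    ((((lg.pow 2).const_mul 2).const_add 1).mul (((lh.pow 2).const_mul 2).const_add 1))
    (by positivity)) (t_mul hg hh).2 fun k => (c k).im)

theorem ratio {x y t : ι → ℝ} {a : ℝ} (hx : Tendsto x U (𝓝 a)) (hy : Tendsto y U atTop)
    (h1 : ∀ k, y k ≤ x k + t k) (h2 : ∀ k, t k ≤ x k + y k) :
    Tendsto (fun k => y k * t k / (1 + 2 * y k ^ 2)) U (𝓝 (1 / 2)) ∧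
    Tendsto (fun k => (1 + 2 * t k ^ 2) / (1 + 2 * y k ^ 2)) U (𝓝 1) := by
  have p := hy.eventually_gt_atTop 0
  have q := hx.div_atTop hy
  have r : Tendsto (fun k => t k / y k) U (𝓝 1) := by
    refine tendsto_of_tendsto_of_tendsto_of_le_of_le' (by simpa using q.const_sub 1)
      (by simpa using q.const_add 1) (p.mono fun k hk => ?_) (p.mono fun k hk => ?_)
    · rw [le_div_iff₀ hk, sub_mul, div_mul_cancel₀ _ hk.ne']; linarith [h1 k]
    · rw [div_le_iff₀ hk, add_mul, div_mul_cancel₀ _ hk.ne']; linarith [h2 k]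
  have i := (hy.inv_tendsto_atTop.pow 2).add_const 2
  refine ⟨?_, ?_⟩
  · have := r.div i (by norm_num)
    norm_num at this
    refine (by simpa using this : Tendsto _ _ (𝓝 (1 / 2 : ℝ))).congr' (p.mono fun k hk => ?_)
    simp only [Pi.div_apply]
    field_simp
  · have := ((hy.inv_tendsto_atTop.pow 2).add ((r.pow 2).const_mul 2)).div i (by norm_num)
    norm_num at this
    refine this.congr' (p.mono fun k hk => ?_)
    simp only [Pi.div_apply]
    field_simp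

theorem bl_core {x y t : ι → ℝ} {a : ℝ} {w : ι → ℂ} {W : ℂ} (ha : 0 < a) (hx : Tendsto x U (𝓝 a))
    (hy : Tendsto y U atTop) (h1 : ∀ k, y k ≤ x k + t k) (h2 : ∀ k, t k ≤ x k + y k)
    (hr : Tendsto (fun k => (w k).re) U (𝓝 W.re)) (hi : Tendsto (fun k => (w k).im) U (𝓝 W.im))
    (e1 : ∀ k, (w k).re = 1 - (1 + 2 * t k ^ 2) / ((1 + 2 * x k ^ 2) * (1 + 2 * y k ^ 2)))
    (e2 : ∀ k, 4 * x k * y k * t k / ((1 + 2 * x k ^ 2) * (1 + 2 * y k ^ 2)) ≤ (w k).im) :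
    0 < W.re ∧ 0 < W.im := by
  obtain ⟨r1, r2⟩ := ratio hx hy h1 h2
  have c := ((hx.pow 2).const_mul 2).const_add 1
  refine ⟨?_, lt_of_lt_of_le (by positivity) (le_of_tendsto_of_tendsto'
    (((hx.const_mul 4).div c (by positivity)).mul r1) hi fun k => le_trans (le_of_eq ?_) (e2 k))⟩
  · rw [tendsto_nhds_unique hr (((r2.div c (by positivity)).const_sub 1).congr fun k => by
      rw [e1 k, Pi.div_apply, div_div, mul_comm (1 + 2 * y k ^ 2)]), sub_pos, div_lt_one (by positivity)]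
    nlinarith only [ha]
  · simp only [Pi.div_apply]
    field_simp

theorem mul_lim {B : ι → G} {B₀ : G} (hB : Tendsto B U (𝓝 B₀))
    (hg : Tendsto (fun k => kl (g k)) U (𝓝 κ)) (hh : Tendsto (fun k => kl (h k)) U (𝓝 κ'))
    (e : ∀ k, PM (B k * g k) (h k)) : ∃ r, Tendsto (fun k => cc (h k) / cc (g k)) U (𝓝 r) ∧
      r * (1 + κ'.re) = B₀ 0 0 ^ 2 * (1 + κ.re) + 2 * B₀ 0 0 * B₀ 0 1 * κ.im + B₀ 0 1 ^ 2 * (1 - κ.re) ∧
      r * (1 - κ'.re) = B₀ 1 0 ^ 2 * (1 + κ.re) + 2 * B₀ 1 0 * B₀ 1 1 * κ.im + B₀ 1 1 ^ 2 * (1 - κ.re) ∧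
      r * κ'.im = B₀ 0 0 * B₀ 1 0 * (1 + κ.re) + (B₀ 0 0 * B₀ 1 1 + B₀ 0 1 * B₀ 1 0) * κ.im +
        B₀ 0 1 * B₀ 1 1 * (1 - κ.re) := by
  have b (i j) : Tendsto (fun k => B k i j) U (𝓝 (B₀ i j)) := ((basic_cont i j).tendsto _).comp hB
  have x := (Complex.continuous_re.tendsto _).comp hg
  have y := (Complex.continuous_im.tendsto _).comp hg
  have x' := (Complex.continuous_re.tendsto _).comp hh
  have y' := (Complex.continuous_im.tendsto _).comp hh
  have s1 := ((((b 0 0).pow 2).mul (x.const_add 1)).add ((((b 0 0).const_mul 2).mul (b 0 1)).mul y)).add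
    (((b 0 1).pow 2).mul (x.const_sub 1))
  have s2 := ((((b 1 0).pow 2).mul (x.const_add 1)).add ((((b 1 0).const_mul 2).mul (b 1 1)).mul y)).add
    (((b 1 1).pow 2).mul (x.const_sub 1))
  have s3 := ((((b 0 0).mul (b 1 0)).mul (x.const_add 1)).add
    ((((b 0 0).mul (b 1 1)).add ((b 0 1).mul (b 1 0))).mul y)).add
    (((b 0 1).mul (b 1 1)).mul (x.const_sub 1))
  have r := ((s1.add s2).div_const 2).congr (f₂ := fun k => cc (h k) / cc (g k)) fun k => by
    have := (cc_pos (g k)).ne'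
    simp only [Function.comp, ← (PM.kl (e k)).1, kl]
    field_simp
    simp only [cc, p1, p2, basic_mul]
    ring
  refine ⟨_, r, tendsto_nhds_unique (r.mul (x'.const_add 1)) (s1.congr fun k => ?_),
    tendsto_nhds_unique (r.mul (x'.const_sub 1)) (s2.congr fun k => ?_),
    tendsto_nhds_unique (r.mul y') (s3.congr fun k => ?_)⟩ <;>
  · have := (cc_pos (g k)).ne'
    have := (cc_pos (B k * g k)).ne'
    simp only [Function.comp, ← (PM.kl (e k)).1, ← (PM.kl (e k)).2]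
    simp only [kl]
    field_simp
    simp only [cc, p1, p2, basic_mul]
    ring

end

theorem normSq_kl (g : G) : Complex.normSq (kl g) = 1 - (cc g)⁻¹ ^ 2 := by
  have := (cc_pos g).ne'
  have a := cc_sq g
  simp only [kl, Complex.normSq_apply]
  field_simp
  linear_combination -a

theorem kl_lim (g : ι → G) : ∃ κ, Tendsto (fun k => kl (g k)) U (𝓝 κ) := by
  obtain ⟨x, -, hx⟩ := (isCompact_closedBall (0 : ℂ) 1).ultrafilter_le_nhds (U.map fun k => kl (g k))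
    (le_principal_iff.2 (mem_map.2 (Eventually.of_forall fun k => by
      simp only [mem_closedBall_zero_iff]
      refine abs_le_of_sq_le_sq' ?_ zero_le_one |>.2
      rw [← Complex.normSq_eq_norm_sq, normSq_kl]
      nlinarith [sq_nonneg (cc (g k))⁻¹])))
  exact ⟨x, hx⟩

theorem chain_ends {α : Type} {S R : α → α → Prop} (hr : ∀ x, R x x)
    (ht : ∀ x y z, R x y → R y z → R x z) {b : α} : ∀ {F : List α} {a : α},
    (a :: (F ++ [b])).IsChain S → (∀ x ∈ F, ∀ y ∈ F, S x y → R x y) → F ≠ [] →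
      ∃ f ∈ F, ∃ l ∈ F, S a f ∧ S l b ∧ ∀ y ∈ F, R f y ∧ R y l
  | [], _, _, _, h => (h rfl).elim
  | [f], a, h, _, _ => by
    simp only [List.cons_append, List.nil_append, List.isChain_cons_cons] at h
    exact ⟨f, by simp, f, by simp, h.1, h.2.1, by simp [hr]⟩
  | f :: f' :: F, a, h, hS, _ => by
    rw [List.cons_append, List.isChain_cons_cons] at h
    obtain ⟨f₀, h0, l, hl, a1, a2, a3⟩ := chain_ends hr ht h.2
      (fun x hx y hy => hS x (List.mem_cons_of_mem _ hx) y (List.mem_cons_of_mem _ hy)) (by simp)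
    have r := hS f (by simp) f₀ (List.mem_cons_of_mem _ h0) a1
    refine ⟨f, by simp, l, List.mem_cons_of_mem _ hl, h.1, a2, fun y hy => ?_⟩
    rcases List.mem_cons.1 hy with rfl | hy
    · exact ⟨hr _, ht _ _ _ r (a3 l hl).1⟩
    · exact ⟨ht _ _ _ r (a3 y hy).1, (a3 y hy).2⟩

theorem long_d {d : Dr E} (h : ¬ Bn U L d.1) : Tendsto (fun k => len (dlab (L k) d)) U atTop := by
  simpa only [len_dlab] using long h

theorem Bn.txx {d : Dr E} (h : Bn U L d.1) :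
    Tendsto (fun k => xx (dlab (L k) d)) U (𝓝 (xx (dlab (L0 U L) d))) :=
  (cont_xx.tendsto _).comp h.dl

/-- A bounded loop that encloses only long darts has a parabolic limit. -/
theorem par (h : LD n L) {x : Dr E} {K : List (Dr E)} (hx : Bn U L x.1)
    (hc : (x :: (K ++ [rev x])).IsChain fun p q => q = n (rev p)) (hK : ∀ y ∈ K, ¬ Bn U L y.1) :
    |tr (dlab (L0 U L) x)| = 2 := by
  obtain ⟨k₀⟩ := U.neBot.nonempty
  choose κ hκ using fun y : Dr E => kl_lim (U := U) fun k => dlab (L k) y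
  obtain ⟨f, hf, l, hl, rfl, e, hR⟩ := chain_ends (R := fun y y' => κ y = κ y') (fun _ => rfl)
    (fun _ _ _ => Eq.trans) hc (fun y hy y' hy' e => by
      subst e
      exact (cn_LL (fun k => h.cn k y) (hκ _) (hκ _) (long_d (hK _ hy')) (long_d (hK _ hy))).symm)
    (by
      rintro rfl
      exact (h.gs k₀).trg.ne _ (List.isChain_pair.1 hc).symm)
  have c (k) := h.cn k l
  rw [← e] at c
  have hx' : Bn U L (rev x).1 := hx
  obtain ⟨r, r0, r1, r2, r3⟩ := mul_lim hx'.dl (hκ _) (hκ l) fun k => (c k).pm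
  have lf := t_cc (long_d (hK _ hf))
  obtain rfl : r = 1 := tendsto_nhds_unique r0 ((ratio hx'.txx lf.1 (fun k => (c k).t2)
    fun k => (c k).t3).2.congr fun k => by rw [cc_xx, cc_xx])
  have n1 : Complex.normSq (κ (n (rev x))) = 1 := tendsto_nhds_unique
    ((Complex.continuous_normSq.tendsto _).comp (hκ _)) (by
      simpa [Function.comp_def, normSq_kl] using (lf.2.inv_tendsto_atTop.pow 2).const_sub 1)
  rw [← (hR l hl).1] at r1 r2 r3
  rw [← tr_inv, ← dlab_rev, tr]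
  have dt := basic_det (dlab (L0 U L) (rev x))
  rw [Complex.normSq_apply] at n1
  generalize dlab (L0 U L) (rev x) 0 0 = a at *
  generalize dlab (L0 U L) (rev x) 0 1 = b at *
  generalize dlab (L0 U L) (rev x) 1 0 = c' at *
  generalize dlab (L0 U L) (rev x) 1 1 = d at *
  generalize (κ (n (rev x))).re = u at *
  generalize (κ (n (rev x))).im = v at *
  have E1 : (d - a) * (1 + u) = 2 * b * v := by
    linear_combination d * r1 - b * r3 + (a * (1 + u) + b * v) * dt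
  have E2 : b * (1 - u) + c' * (1 + u) = 0 := by
    linear_combination b * r2 - d * r3 - (c' * (1 + u) + d * v) * dt
  have E3 : (a - d) * (1 - u) = 2 * c' * v := by
    linear_combination a * r2 - c' * r3 + (c' * v + d * (1 - u)) * dt
  have E4 : ((a + d) ^ 2 - 4) * (2 + 2 * u ^ 2) = 0 := by
    linear_combination ((d - a) * (1 + u) + 2 * b * v) * E1 + ((a - d) * (1 - u) + 2 * c' * v) * E3 +
      4 * (b * (1 + u) + c' * (1 - u)) * E2 + 4 * (b ^ 2 + c' ^ 2) * n1 + 4 * (2 + 2 * u ^ 2) * dt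
  have E5 := (mul_eq_zero.1 E4).resolve_right (by positivity)
  exact (sq_eq_sq₀ (abs_nonneg _) zero_le_two).1 (by rw [sq_abs]; linarith only [E5])

theorem arg_step {v w : ℂ} (h : 0 < (w * conj v).im)
    (hc : (0 ≤ v.re ∧ 0 ≤ w.re) ∨ (0 < (w * conj v).re ∧ (0 ≤ v.re ∨ 0 ≤ w.re))) :
    v.arg < w.arg := by
  have hv : v ≠ 0 := by rintro rfl; simp at h
  have hw : w ≠ 0 := by rintro rfl; simp at h
  have nv := norm_pos_iff.2 hv
  have nw := norm_pos_iff.2 hw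
  have s : sin (w.arg - v.arg) = (w * conj v).im / (‖w‖ * ‖v‖) := by
    rw [sin_sub, Complex.sin_arg, Complex.sin_arg, Complex.cos_arg hv, Complex.cos_arg hw]
    simp only [Complex.mul_im, Complex.conj_re, Complex.conj_im]
    field_simp
    ring
  have c : cos (w.arg - v.arg) = (w * conj v).re / (‖w‖ * ‖v‖) := by
    rw [cos_sub, Complex.sin_arg, Complex.sin_arg, Complex.cos_arg hv, Complex.cos_arg hw]
    simp only [Complex.mul_re, Complex.conj_re, Complex.conj_im]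
    field_simp
    ring
  by_contra hn
  have s0 : 0 < sin (w.arg - v.arg) := by rw [s]; positivity
  have lt : w.arg - v.arg < -π := by
    by_contra h'
    linarith only [sin_nonpos_of_nonpos_of_neg_pi_le (sub_nonpos.2 (not_lt.1 hn)) (not_lt.1 h'), s0]
  have a1 := Complex.arg_le_pi v
  have a2 := Complex.neg_pi_lt_arg w
  rcases hc with ⟨h1, h2⟩ | ⟨h0, h1⟩
  · linarith only [(abs_le.1 (Complex.abs_arg_le_pi_div_two_iff.2 h1)).2, (abs_le.1 (Complex.abs_arg_le_pi_div_two_iff.2 h2)).1, lt]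
  · have c0 : 0 < cos (w.arg - v.arg) := by rw [c]; positivity
    have : v.arg - w.arg ≤ π + π / 2 := by
      rcases h1 with h1 | h1
      · linarith only [(abs_le.1 (Complex.abs_arg_le_pi_div_two_iff.2 h1)).2, a2]
      · linarith only [(abs_le.1 (Complex.abs_arg_le_pi_div_two_iff.2 h1)).1, a1]
    have := cos_nonpos_of_pi_div_two_le_of_le (x := v.arg - w.arg) (by linarith only [lt, a1, a2]) this
    rw [← cos_neg, neg_sub] at this
    linarith only [c0, this]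

theorem hgt_eq {Y : Mat} (h1 : Y.trace = 0) (h2 : Y 0 1 = Y 1 0) (u : G) :
    hgt Y u = 2 * (Y 1 0 * p1 u - Y 0 0 * p2 u) := by
  have : Y 1 1 = -Y 0 0 := by rw [Matrix.trace_fin_two] at h1; linarith
  simp only [hgt, qX, Matrix.mulVec, dotProduct, Fin.sum_univ_two, h2, this, p1, p2]
  ring

/-- The bounded darts on one side of the short loop `a` lie in no half plane. -/
theorem hp (h : LD n L) {a : Dr E} {F : List (Dr E)} {η : ℝ} (hη : 0 < η)
    (hc : (a :: (F ++ [rev a])).IsChain fun p q => q = n (rev p)) (hF : ∀ y ∈ F, y.1 ≠ a.1)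
    (ha : Tendsto (fun k => len (L k a.1)) U (𝓝 0)) (hl : ∀ k x, x ≠ a.1 → η ≤ len (L k x))
    (ht : ∀ k x, 2 ≤ |tr (L k x)|) {x : Dr E} (hx : x ∈ F) (hx' : rev x ∈ F) (hb : Bn U L x.1) :
    HP {u | ∃ y ∈ F, Bn U L y.1 ∧ u = dlab (L0 U L) y} := by
  intro Y h1 h2 h0
  by_contra hn
  choose κ hκ using fun y : Dr E => kl_lim (U := U) fun k => dlab (L k) y
  have kb {y : Dr E} (hy : Bn U L y.1) : κ y = kl (dlab (L0 U L) y) :=
    tendsto_nhds_unique (hκ y) ((cont_kl.tendsto _).comp hy.dl)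
  have tb {y : Dr E} (hy : Bn U L y.1) : 2 ≤ |tr (dlab (L0 U L) y)| :=
    ge_of_tendsto' ((continuous_tr.tendsto _).comp hy.dl).abs fun k => by
      obtain ⟨y, _ | _⟩ := y
      · exact (ht k y).trans_eq (congrArg _ (tr_inv _).symm)
      · exact ht k y
  have xb {y : Dr E} (hy : Bn U L y.1) (hy' : y.1 ≠ a.1) : 0 < xx (dlab (L0 U L) y) :=
    xx_pos hη (by rw [len_dlab]; exact hy.le_len fun k => hl k _ hy')
  set m : ℂ := ⟨-Y 1 0, -Y 0 0⟩ with hm
  have m0 : m ≠ 0 := fun e => h0 (by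
    have a1 : -Y 1 0 = 0 := congrArg Complex.re e
    have a2 : -Y 0 0 = 0 := congrArg Complex.im e
    rw [Matrix.trace_fin_two] at h1
    ext i j
    fin_cases i <;> fin_cases j <;> simp <;> linarith only [a2, h2, a1, h1])
  have m1 := Complex.normSq_pos.2 m0
  have re {y : Dr E} (hy : y ∈ F) (hy' : Bn U L y.1) : 0 ≤ (m * κ y).re := by
    have a1 : ¬ 0 < hgt Y _ := fun e => hn ⟨_, ⟨y, hy, hy', rfl⟩, e⟩
    have a2 := cc_pos (dlab (L0 U L) y)
    rw [hgt_eq h1 h2] at a1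
    rw [kb hy', show (m * kl (dlab (L0 U L) y)).re = -(Y 1 0 * p1 (dlab (L0 U L) y) -
      Y 0 0 * p2 (dlab (L0 U L) y)) / cc (dlab (L0 U L) y) by simp [hm, kl]; ring]
    exact div_nonneg (by linarith) a2.le
  have mm (v w : ℂ) : (m * w * conj (m * v)).re = Complex.normSq m * (w * conj v).re ∧
      (m * w * conj (m * v)).im = Complex.normSq m * (w * conj v).im := by
    simp only [Complex.mul_re, Complex.mul_im, Complex.conj_re, Complex.conj_im,
      Complex.normSq_apply]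
    constructor <;> ring
  obtain ⟨f, hf, l, hl', rfl, e, hR⟩ := chain_ends
    (R := fun y y' => (m * κ y).arg < (m * κ y').arg ∨ κ y = κ y') (fun _ => .inr rfl)
    (by
      rintro x y z (a | a) (b | b)
      exacts [.inl (a.trans b), .inl (b ▸ a), .inl (a ▸ b), .inr (a.trans b)]) hc
    (fun y hy y' hy' e => by
      subst e
      have c (k) := h.cn k y
      have fl (k) := (h.gs k).flat
      by_cases t : (n (n (rev y))).1 = a.1
      · exact .inr (cn_tiny c (hκ _) (hκ _) (by simpa only [len_dlab, t] using ha)).symm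
      by_cases b1 : Bn U L y.1 <;> by_cases b2 : Bn U L (n (rev y)).1
      · have b3 : Bn U L (n (n (rev y))).1 := face fl (d := rev y) b1 b2
        refine .inl (arg_step ?_ (.inl ⟨re hy b1, re hy' b2⟩))
        rw [(mm _ _).2]
        exact mul_pos m1 (cn_bb c (hκ _) (hκ _) (xb b2 (hF _ hy')) (xb b1 (hF _ hy)) (xb b3 t)
          b2.txx b1.txx b3.txx)
      · obtain ⟨q1, q2⟩ := bl_core (xb b1 (hF _ hy)) b1.txx (t_cc (long_d b2)).1
          (fun k => (c k).t1.trans_eq (add_comm _ _)) (fun k => (c k).t2.trans_eq (add_comm _ _))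
          (t_mul (hκ _) (hκ y)).1 (t_mul (hκ _) (hκ y)).2
          (fun k => by rw [(c k).re, mul_comm (1 + _)]) fun k => le_trans (le_of_eq (by ring)) (c k).im
        refine .inl (arg_step ?_ (.inr ⟨?_, .inl (re hy b1)⟩))
        exacts [(mm _ _).2 ▸ mul_pos m1 q2, (mm _ _).1 ▸ mul_pos m1 q1]
      · obtain ⟨q1, q2⟩ := bl_core (xb b2 (hF _ hy')) b2.txx (t_cc (long_d b1)).1
          (fun k => (c k).t3) (fun k => (c k).t2) (t_mul (hκ _) (hκ y)).1 (t_mul (hκ _) (hκ y)).2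
          (fun k => (c k).re) fun k => (c k).im
        refine .inl (arg_step ?_ (.inr ⟨?_, .inr (re hy' b2)⟩))
        exacts [(mm _ _).2 ▸ mul_pos m1 q2, (mm _ _).1 ▸ mul_pos m1 q1]
      · exact .inr (cn_LL c (hκ _) (hκ _) (long_d b2) (long_d b1)).symm)
    (List.ne_nil_of_mem hx)
  have c (k) := (h.cn k l).pm
  rw [← e] at c
  have ba : Bn U L (rev a).1 :=
    bn_of_le (R := 1) ((ha.eventually (gt_mem_nhds one_pos)).mono fun k hk => hk.le)
  have pa : PM (dlab (L0 U L) (rev a)) 1 := pm_one_of_fixed ((len_eq_zero_iff _).1 (by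
    rw [len_dlab]; exact tendsto_nhds_unique ba.tlen ha)) (tb ba)
  obtain ⟨r, -, r1, r2, r3⟩ := mul_lim ba.dl (hκ _) (hκ l) c
  have cl : κ (n (rev a)) = κ l := by
    rcases pa with pa | pa <;> rw [pa] at r1 r2 r3 <;>
      simp only [basic_neg, basic_one00, basic_one01, basic_one10, basic_one11] at r1 r2 r3 <;>
      obtain rfl : r = 1 := by linarith only [r1, r2]
    all_goals exact Complex.ext (by linarith only [r1]) (by linarith only [r3])
  have all (y) (hy : y ∈ F) : κ y = κ l := by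
    rcases hR y hy with ⟨a1 | a1, a2 | a2⟩
    · rw [cl] at a1; linarith only [a1, a2]
    · exact a2
    · rw [← a1, cl] at a2; linarith only [a2]
    · exact a2
  have e1 := (all x hx).trans (all _ hx').symm
  rw [kb hb, kb (y := rev x) hb, dlab_rev] at e1
  have t := tb hb
  have p := xb hb (hF x hx)
  have q := cc_xx (dlab (L0 U L) x)
  have dt := basic_det (dlab (L0 U L) x)
  generalize dlab (L0 U L) x = u at *
  have ci : cc u⁻¹ = cc u := by rw [cc_xx, cc_xx, xx, xx, len_inv]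
  have q1 := congrArg Complex.re e1
  have q2 := congrArg Complex.im e1
  simp only [kl, ci, div_left_inj' (cc_pos u).ne', p1, p2, basic_inv00, basic_inv01, basic_inv10,
    basic_inv11] at q1 q2
  have t0 : u 0 0 + u 1 1 ≠ 0 := fun e => by rw [tr, e] at t; norm_num at t
  have d1 : u 0 0 - u 1 1 = 0 := (mul_eq_zero.1 (show (u 0 0 + u 1 1) * (u 0 0 - u 1 1) = 0 by
    linarith only [q1])).resolve_left t0
  have d2 : u 0 1 + u 1 0 = 0 := (mul_eq_zero.1 (show (u 0 0 + u 1 1) * (u 0 1 + u 1 0) = 0 by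
    linarith only [q2])).resolve_left t0
  have : cc u = 1 := by
    rw [cc]
    linear_combination dt + (u 0 0 - u 1 1) / 2 * d1 + (u 0 1 + u 1 0) / 2 * d2
  nlinarith only [p, q, this]

end

end Pool.Agent.MP_596265_gt.U.Lim

end

section

/-! Motion of the vertex to the axis of the shortest edge: definitions. -/

namespace Pool.Agent.MP_596265_gt.U.Mot

open Erg Real UpperHalfPlane Set Filter Topology Stp

variable {g : ℕ} {E : Type}

/-- Two unlinked edges; `x y` is a boundary cycle of their union. -/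
def Pair (n : Nx E) (x y : Dr E) : Prop :=
  ∃ A B C D, Lk n (rev x :: (A ++ y :: (B ++ rev y :: (C ++ x :: D))))

noncomputable def pt (t : ℝ) : ℍ := dia t • I
noncomputable def xg (u : G) (z : ℍ) : ℝ := xs z (u • z)
/-- An upward translation along the imaginary axis, up to sign. -/
def Up (A : G) : Prop := A 0 1 = 0 ∧ A 1 0 = 0 ∧ A 1 1 ^ 2 < A 0 0 ^ 2
def Nor (u : G) : Prop := u 1 1 ^ 2 ≤ u 0 0 ^ 2

/-- What the motion uses about `M`. -/
structure Mo (η : ℝ) (M : Tup g) : Prop where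
  fm : Fm M
  ks : M ∈ Kset g 0
  hyp : ∀ {τ : MS g}, MT τ → ∀ d, 2 < |tr (dlab (geo M τ.2) d)|
  kp : ∀ {τ : MS g} {x y}, MT τ → Pair τ.1 x y →
    kap (dlab (geo M τ.2) x) (dlab (geo M τ.2) y) ≠ 2
  ul : ∀ {τ : MS g} {z x y}, MT τ → x.1 ≠ y.1 → xd (geo M τ.2) z x ≤ η → xd (geo M τ.2) z y ≤ η →
    ∃ x' y', x'.1 = x.1 ∧ y'.1 = y.1 ∧ Pair τ.1 x' y'
  cl : ∀ {τ : MS g} {z x y f}, MT τ → x.1 ≠ y.1 → f.1 ≠ x.1 → f.1 ≠ y.1 →
    xd (geo M τ.2) z x ≤ η → xd (geo M τ.2) z y ≤ η → xd (geo M τ.2) z f ≤ 1 →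
    ∃ d, ({d.1, (τ.1 d).1, (τ.1 (τ.1 d)).1} : Set (Ed g)) = {x.1, y.1, f.1}

/-- A state on the axis of `A` whose other edges are not short. -/
def Fin1 (h : ℝ) (M : Tup g) (A : G) : Prop :=
  ∃ (t : ℝ) (σ : MS g) (a : Dr (Ed g)), MT σ ∧ Ps M (pt t) σ ∧
    (∀ d, ¬ Bad σ.1 (geo M σ.2) (pt t) d) ∧ dlab (geo M σ.2) a = A ∧
    ∀ d, d.1 ≠ a.1 → h ≤ xd (geo M σ.2) (pt t) d

/-- The darts `a`, `u` lie in one face, which is not too flat towards `a`. -/
def Fc (n : Nx E) (L : E → G) (z : ℍ) (a u : Dr E) : Prop :=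
  (n a = u ∧ xd L z a ≤ xd L z u + xd L z (n u)) ∨ (n u = a ∧ xd L z a ≤ xd L z u + xd L z (n a))

end Pool.Agent.MP_596265_gt.U.Mot

end

section

/-! The base point is moved to the axis of the shortest edge. -/

namespace Pool.Agent.MP_596265_gt.U.Lip

open Erg Real UpperHalfPlane Set Filter Topology DF Stp

theorem rot_sym (B : G) : ∃ θ, ((rot θ)⁻¹ * B * rot θ) 0 0 = ((rot θ)⁻¹ * B * rot θ) 1 1 := by
  obtain ⟨r, α, -, h1, h2⟩ := basic_polar (B 0 0 - B 1 1) (B 0 1 + B 1 0)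
  refine ⟨α / 2 - 1 / 4, ?_⟩
  have e : π * α = 2 * (π * (α / 2 - 1 / 4)) + π / 2 := by ring
  rw [e, cos_add_pi_div_two, sin_two_mul] at h1
  rw [e, sin_add_pi_div_two, cos_two_mul] at h2
  simp only [basic_mul, basic_inv00, basic_inv01, basic_inv10, basic_inv11, basic_rot00,
    basic_rot01, basic_rot10, basic_rot11]
  have := sin_sq_add_cos_sq (π * (α / 2 - 1 / 4))
  generalize sin (π * (α / 2 - 1 / 4)) = s at *
  generalize cos (π * (α / 2 - 1 / 4)) = c at *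
  linear_combination (c ^ 2 - s ^ 2) * h1 + 2 * s * c * h2 + 2 * r * s * c * this

theorem dia_conj (B : G) (t : ℝ) : ((dia t)⁻¹ * B * dia t) 0 0 = B 0 0 ∧
    ((dia t)⁻¹ * B * dia t) 1 1 = B 1 1 ∧ ((dia t)⁻¹ * B * dia t) 0 1 = exp (-t) * B 0 1 ∧
    ((dia t)⁻¹ * B * dia t) 1 0 = exp t * B 1 0 := by
  have hu : exp (t / 2) * exp (-(t / 2)) = 1 := by rw [← exp_add]; simp
  have h1 : exp t = exp (t / 2) * exp (t / 2) := by rw [← exp_add]; simp
  have h2 : exp (-t) = exp (-(t / 2)) * exp (-(t / 2)) := by rw [← exp_add]; congr 1; ring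
  simp only [basic_mul, basic_inv00, basic_inv01, basic_inv10, basic_inv11, basic_dia00,
    basic_dia01, basic_dia10, basic_dia11, h1, h2]
  exact ⟨by linear_combination B 0 0 * hu, by linear_combination B 1 1 * hu, by ring, by ring⟩

theorem half_conj (B : G) : ((rot (1 / 2))⁻¹ * B * rot (1 / 2)) 0 0 = B 1 1 ∧
    ((rot (1 / 2))⁻¹ * B * rot (1 / 2)) 1 1 = B 0 0 ∧
    ((rot (1 / 2))⁻¹ * B * rot (1 / 2)) 0 1 = -B 1 0 ∧
    ((rot (1 / 2))⁻¹ * B * rot (1 / 2)) 1 0 = -B 0 1 := by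
  have e : π * (1 / 2) = π / 2 := by ring
  simp only [Fin.isValue, basic_mul, basic_inv00, basic_rot11, e, cos_pi_div_two, zero_mul, basic_inv01, basic_rot01, sin_pi_div_two, neg_neg, one_mul, zero_add, basic_rot00, mul_zero, basic_rot10, mul_one, basic_inv10, neg_mul, basic_inv11, add_zero, mul_neg, and_self]

theorem quarter_conj {B : G} (h1 : B 0 0 = B 1 1) (h2 : B 0 1 = B 1 0) :
    ((rot (1 / 4))⁻¹ * B * rot (1 / 4)) 0 1 = 0 ∧ ((rot (1 / 4))⁻¹ * B * rot (1 / 4)) 1 0 = 0 := by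
  have e : π * (1 / 4) = π / 4 := by ring
  simp only [basic_mul, basic_inv00, basic_inv01, basic_inv10, basic_inv11, basic_rot00,
    basic_rot01, basic_rot10, basic_rot11, e, cos_pi_div_four, sin_pi_div_four, h1, h2]
  constructor <;> ring

theorem dia_of {B : G} (h1 : B 0 1 = 0) (h2 : B 1 0 = 0) : PM B (dia (2 * log |B 0 0|)) := by
  have d := basic_det B
  rw [h1, zero_mul, sub_zero] at d
  have n : B 0 0 ≠ 0 := left_ne_zero_of_mul_eq_one d
  have e1 : exp (2 * log |B 0 0| / 2) = |B 0 0| := by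
    rw [mul_div_cancel_left₀ _ two_ne_zero, exp_log (abs_pos.2 n)]
  have e2 : B 1 1 = (B 0 0)⁻¹ := eq_inv_of_mul_eq_one_right d
  generalize 2 * log |B 0 0| = l at *
  rcases n.lt_or_gt with h | h
  · right
    apply basic_ext <;> simp only [basic_neg, basic_dia00, basic_dia01, basic_dia10, basic_dia11,
      exp_neg, e1, h1, h2, e2, abs_of_neg h, neg_neg, neg_zero, inv_neg]
  · left
    apply basic_ext <;> simp only [basic_dia00, basic_dia01, basic_dia10, basic_dia11,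
      exp_neg, e1, h1, h2, e2, abs_of_pos h]

theorem dia_pos {B : G} (h1 : B 0 1 = 0) (h2 : B 1 0 = 0) (h : 2 < |tr B|) :
    ∃ θ l, 0 < l ∧ PM ((rot θ)⁻¹ * B * rot θ) (dia l) := by
  have p := dia_of h1 h2
  generalize 2 * log |B 0 0| = l at p
  rcases lt_trichotomy l 0 with hl | hl | hl
  · refine ⟨-(1 / 2), -l, by linarith, ?_⟩
    rw [← rot_half_dia, rot_neg, inv_inv]
    exact ((PM.refl _).mul p).mul (PM.refl _)
  · rw [p.abs_tr, hl, dia_zero, tr_one] at h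
    norm_num at h
  · exact ⟨0, l, hl, by simpa [rot_zero] using p⟩

/-- The perpendicular from `z` to the axis of `A`. -/
theorem perp {A : G} (hA : 2 < |tr A|) (z : ℍ) : ∃ (k : G) (T : ℝ), k • I = z ∧ 0 ≤ T ∧
    (∀ t ∈ Icc 0 T, xs (k • dia t • I) (A • k • dia t • I) ≤ xs z (A • z) ∧
      xs (k • dia t • I) (A • k • dia t • I) < 2 * (xs z (A • z) * exp (-t))) ∧
    ∃ k' l, k' • I = k • dia T • I ∧ 0 < l ∧ PM (k'⁻¹ * A * k') (dia l) := by
  have main : ∀ k : G, (k⁻¹ * A * k) 0 0 = (k⁻¹ * A * k) 1 1 →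
      |(k⁻¹ * A * k) 1 0| ≤ |(k⁻¹ * A * k) 0 1| → ∃ T : ℝ, 0 ≤ T ∧
      (∀ t ∈ Icc 0 T, xs (k • dia t • I) (A • k • dia t • I) ≤ xs (k • I) (A • k • I) ∧
      xs (k • dia t • I) (A • k • dia t • I) < 2 * (xs (k • I) (A • k • I) * exp (-t))) ∧
      ∃ k' l, k' • I = k • dia T • I ∧ 0 < l ∧ PM (k'⁻¹ * A * k') (dia l) := fun k h1 h2 => by
    have hB : 2 < |tr (k⁻¹ * A * k)| := by
      have := tr_conj A k⁻¹
      rw [inv_inv] at this
      rwa [this]
    have f : ∀ t, xs (k • dia t • I) (A • k • dia t • I) =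
        xs I (((dia t)⁻¹ * (k⁻¹ * A * k) * dia t) • I) := fun t => by
      rw [← mul_smul k, xs_conj]
      congr 2
      group
    have f' : ∀ t θ, (k * dia t * rot θ)⁻¹ * A * (k * dia t * rot θ) =
        (rot θ)⁻¹ * ((dia t)⁻¹ * (k⁻¹ * A * k) * dia t) * rot θ := fun t θ => by group
    rw [xs_conj k A]
    generalize k⁻¹ * A * k = B at *
    have d := basic_det B
    have bc : 0 < B 0 1 * B 1 0 := by
      have := sq_lt_sq' (by linarith) hB
      rw [sq_abs, tr, h1] at this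
      rw [h1] at d
      linarith only [d, this]
    have c0 : 0 < |B 1 0| := abs_pos.2 (right_ne_zero_of_mul bc.ne')
    have v : ∀ t, 2 * xs I (((dia t)⁻¹ * B * dia t) • I) = exp (-t) * |B 0 1| + exp t * |B 1 0| :=
      fun t => by
        obtain ⟨a1, a2, a3, a4⟩ := dia_conj B t
        have := xs_sq ((dia t)⁻¹ * B * dia t)
        rw [a1, a2, a3, a4, h1] at this
        refine (pow_left_inj₀ (mul_nonneg zero_le_two (xs_nonneg _ _)) (by positivity)
          two_ne_zero).1 ?_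
        have e : |B 0 1| * |B 1 0| = B 0 1 * B 1 0 := by rw [← abs_mul, abs_of_pos bc]
        linear_combination this + exp (-t) ^ 2 * (sq_abs (B 0 1)).symm +
          exp t ^ 2 * (sq_abs (B 1 0)).symm - 2 * exp (-t) * exp t * e
    have v0 : 2 * xs I (B • I) = |B 0 1| + |B 1 0| := by simpa [dia_zero] using v 0
    have q1 : 1 ≤ |B 0 1| / |B 1 0| := (one_le_div c0).2 h2
    have eT : ∀ t, t ≤ log (|B 0 1| / |B 1 0|) / 2 → exp t * |B 1 0| ≤ exp (-t) * |B 0 1| :=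
      fun t ht => by
        have : exp (2 * t) ≤ |B 0 1| / |B 1 0| := (le_log_iff_exp_le (by linarith only [q1])).1 (by linarith only [ht])
        rw [le_div_iff₀ c0] at this
        have e : exp t = exp (-t) * exp (2 * t) := by rw [← exp_add]; congr 1; ring
        rw [e, mul_assoc]
        gcongr
    refine ⟨log (|B 0 1| / |B 1 0|) / 2, div_nonneg (log_nonneg q1) zero_le_two, fun t ht => ?_, ?_⟩
    · have a := eT t ht.2
      have b := v t
      have u : exp t * exp (-t) = 1 := by rw [← exp_add]; simp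
      have u1 : 1 ≤ exp t := one_le_exp ht.1
      have u2 := exp_pos (-t)
      rw [f]
      constructor
      · have := mul_le_mul_of_nonneg_left (show |B 1 0| ≤ exp (-t) * |B 0 1| by nlinarith only [c0, a, u1])
          (sub_nonneg.2 u1)
        have w : exp t * (exp (-t) * |B 0 1|) = |B 0 1| := by rw [← mul_assoc, u, one_mul]
        linarith only [v0, b, this, w]
      · nlinarith only [mul_pos u2 c0, v0, a, b, u2]
    · generalize hT : log (|B 0 1| / |B 1 0|) / 2 = T at *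
      obtain ⟨a1, a2, a3, a4⟩ := dia_conj B T
      have e : exp (-T) * B 0 1 = exp T * B 1 0 := by
        have e1 : exp T * exp T = |B 0 1| / |B 1 0| := by
          rw [← exp_add, ← hT, add_halves, exp_log (by linarith only [q1])]
        have e2 : |B 0 1| / |B 1 0| = B 0 1 / B 1 0 := by
          rw [← abs_div, abs_of_pos]
          exact div_pos_iff.2 (mul_pos_iff.1 bc)
        rw [e2, eq_div_iff (abs_pos.1 c0)] at e1
        rw [exp_neg, ← e1]
        field_simp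
      obtain ⟨b1, b2⟩ := quarter_conj (B := (dia T)⁻¹ * B * dia T) (by rw [a1, a2, h1])
        (by rw [a3, a4, e])
      obtain ⟨θ, l, l0, p⟩ := dia_pos b1 b2 (by
        have := tr_conj B ((rot (1 / 4))⁻¹ * (dia T)⁻¹)
        rw [← this] at hB
        convert hB using 3
        group)
      refine ⟨k * dia T * rot (1 / 4 + θ), l, by simp only [mul_smul, rot_smul_I], l0, ?_⟩
      rw [f', rot_add]
      convert p using 1
      group
  obtain ⟨k, rfl⟩ := exists_smul_I z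
  obtain ⟨θ, h⟩ := rot_sym (k⁻¹ * A * k)
  have e : (rot θ)⁻¹ * (k⁻¹ * A * k) * rot θ = (k * rot θ)⁻¹ * A * (k * rot θ) := by group
  have hz : k • I = (k * rot θ) • I := by rw [mul_smul, rot_smul_I]
  rw [e] at h
  rw [hz]
  generalize k * rot θ = k at *
  rcases le_total |(k⁻¹ * A * k) 1 0| |(k⁻¹ * A * k) 0 1| with c | c
  · exact ⟨k, (main k h c).imp fun T hT => ⟨rfl, hT⟩⟩
  · obtain ⟨a1, a2, a3, a4⟩ := half_conj (k⁻¹ * A * k)
    have e : (rot (1 / 2))⁻¹ * (k⁻¹ * A * k) * rot (1 / 2) =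
        (k * rot (1 / 2))⁻¹ * A * (k * rot (1 / 2)) := by group
    have hz : k • I = (k * rot (1 / 2)) • I := by rw [mul_smul, rot_smul_I]
    rw [e] at a1 a2 a3 a4
    rw [hz]
    exact ⟨_, (main _ (by rw [a1, a2, h]) (by rwa [a3, a4, abs_neg, abs_neg])).imp
      fun T hT => ⟨rfl, hT⟩⟩

variable {g : ℕ} {M : Tup g} {z : ℍ} {τ : MS g}

theorem flip_ne {σ : MS g} {d : Dr (Ed g)} {a : Ed g} (h : d.1 ≠ a) : (flip σ d).2 a = σ.2 a :=
  Function.update_of_ne h.symm _ _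

theorem dlab_of_eq {σ : MS g} {d : Dr (Ed g)} (h : σ.2 d.1 = τ.2 d.1) :
    dlab (geo M σ.2) d = dlab (geo M τ.2) d := by
  obtain ⟨a, b⟩ := d
  cases b <;> simp [dlab, geo, show σ.2 a = τ.2 a from h]

/-- The shortest edge can be put on its axis. -/
theorem axis (hT : TAx g) (hA : DAx g) (hM : Fm M) (hK : M ∈ Kset g 0) (ht : MT τ)
    (hp : Ps M z τ) (d₀ : Dr (Ed g)) (hl : Low M z τ (xd (geo M τ.2) z d₀))
    (h : 2 < |tr (dlab (geo M τ.2) d₀)|) :
    ∃ (k : G) (l m : ℝ) (σ : MS g), 0 < l ∧ PM (k⁻¹ * dlab (geo M σ.2) d₀ * k) (dia l) ∧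
      σ.2 d₀.1 = τ.2 d₀.1 ∧ xd (geo M σ.2) (k • I) d₀ ≤ xd (geo M τ.2) z d₀ ∧
      xd (geo M σ.2) (k • I) d₀ < 2 * m ∧ Rch M (fun _ d => d.1 = d₀.1) (z, τ) (k • I) m σ ∧
      (∀ d, ¬ Bad σ.1 (geo M σ.2) (k • I) d) ∧
      ∀ d, 0 ≤ hH (k • I) (vQ (geo M σ.2) (k • I) d) (vR σ.1 (geo M σ.2) (k • I) d) := by
  obtain ⟨k, T, hk, T0, hx, k', l, e, l0, p⟩ := perp h z
  have z0 : k • dia 0 • I = z := by rw [dia_zero, one_smul, hk]
  have hb : ∀ t ∈ Icc 0 T, ∀ σ, Rch M (fun _ d => d.1 = d₀.1) (k • dia 0 • I, τ) (k • dia t • I)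
      (xd (geo M τ.2) z d₀ * exp (-(t - 0))) σ → σ.2 d₀.1 = τ.2 d₀.1 →
      ∀ d : Dr (Ed g), d.1 = d₀.1 → ¬ Bad σ.1 (geo M σ.2) (k • dia t • I) d :=
    fun t ht σ r q d hd b => by
      have e : xd (geo M σ.2) (k • dia t • I) d = xd (geo M σ.2) (k • dia t • I) d₀ := by
        rcases DF.eq_or_rev hd with e | e <;> rw [e]
        exact xd_rev _ _ _
      have a := (hx t ht).2
      have l1 := r.low σ (.refl _) (σ.1 d)
      have l2 := r.low σ (.refl _) (σ.1 (σ.1 d))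
      rw [Bad, e, xd, xd, xd, vQ, vQ, vQ, dlab_of_eq q] at b
      rw [sub_zero, xd, xd, vQ, vQ] at l1 l2
      linarith only [b, a, l1, l2]
  obtain ⟨σ, r, q⟩ := move hT hA hM hK (γ := fun t => k • dia t • I) (a := 0) (b := T)
    (fun s t => (dist_dia k s t).le) (xd_pos hp d₀) (fun _ d => d.1 = d₀.1)
    (fun _ σ => σ.2 d₀.1 = τ.2 d₀.1) ht (z0 ▸ hp) (z0 ▸ hl) rfl
    (fun _ _ σ d _ _ s _ _ q => (flip_ne s).trans q) (fun _ _ _ _ _ _ _ _ q => q) hb T ⟨T0, le_rfl⟩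
  have w := r.hH hT hM (hb T ⟨T0, le_rfl⟩ σ r q)
  obtain ⟨a1, a2⟩ := hx T ⟨T0, le_rfl⟩
  rw [z0, ← e] at r
  rw [← e] at w a1 a2
  have u : xd (geo M σ.2) (k' • I) d₀ = xs (k' • I) (dlab (geo M τ.2) d₀ • k' • I) := by
    rw [xd, vQ, dlab_of_eq q]
  refine ⟨k', l, _, σ, l0, dlab_of_eq (M := M) q ▸ p, q, u ▸ a1, ?_, r, w⟩
  rw [u, sub_zero, xd, vQ]
  exact a2

end Pool.Agent.MP_596265_gt.U.Lip

end

section

namespace Pool.Agent.MP_596265_gt.U.Mot

open Erg Real UpperHalfPlane Set Filter Topology Stp Lip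

variable {g : ℕ} {E : Type} {n : Nx E} {x y d : Dr E}

theorem pa_next {A B : List (Dr E)} (h : Lk n (A ++ x :: y :: B)) : y = n (rev x) :=
  (List.isChain_cons_cons.1 h.2.2.right_of_append).1

theorem pa_rot1 {U : List (Dr E)} (h : Lk n (x :: U)) : Lk n (U ++ [x]) := by
  have p := (List.perm_append_singleton x U).symm
  refine ⟨p.nodup_iff.1 h.1, fun d => p.mem_iff.1 (h.2.1 d),
    List.isChain_append.2 ⟨h.2.2.tail, List.isChain_singleton _, fun a ha b hb => ?_⟩⟩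
  obtain rfl : x = b := by simpa using hb
  obtain ⟨s, t, e⟩ := List.append_of_mem (h.2.1 (rev (n⁻¹ x)))
  rcases t with _ | ⟨c, t⟩
  · have := congrArg List.getLast? e
    rw [List.getLast?_cons, Option.mem_def.1 ha] at this
    obtain rfl : a = rev (n⁻¹ x) := by simpa using this
    simp
  · have hc := pa_next (e ▸ h)
    obtain rfl : c = x := by simpa using hc
    refine absurd ?_ (List.nodup_cons.1 h.1).1
    rcases s with _ | ⟨_, s⟩ <;> simp [(List.cons.inj e).2]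

theorem pa_rot {A B : List (Dr E)} (h : Lk n (A ++ B)) : Lk n (B ++ A) := by
  induction A generalizing B with
  | nil => simpa using h
  | cons a A ih => simpa using ih (B := B ++ [a]) (by simpa using pa_rot1 h)

/-! ROW PA -/
theorem edge_ne (hn : Trg n) (d : Dr E) : (n d).1 ≠ d.1 := fun h => by
  classical
  have e := (DF.eq_or_rev h).resolve_left (hn.ne d)
  have := hn.one (fun x => if x = rev d then 1 else 0) (fun x => by
    refine if_congr (Iff.trans ?_ (revP E).apply_eq_iff_eq.symm) rfl rfl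
    rw [← e, n.apply_eq_iff_eq]) (rev d) d
  simp only [↓ reduceIte, (rev_ne d).symm, one_ne_zero] at this

theorem Pair.ne (h : Pair n x y) : x.1 ≠ y.1 := fun e => by
  obtain ⟨A, B, C, D, h, -⟩ := h
  rcases DF.eq_or_rev e with rfl | rfl <;> simp at h

theorem Pair.symm (h : Pair n x y) : Pair n y x := by
  obtain ⟨A, B, C, D, h⟩ := h
  have := pa_rot (A := rev x :: (A ++ y :: B)) (B := rev y :: (C ++ x :: D)) (by simpa using h)
  exact ⟨C, D, A, B, by simpa using this⟩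

theorem Pair.face (hn : Trg n) (h : Pair n x y) (h1 : d.1 = x.1) (h2 : (n d).1 = y.1) :
    d = x ∧ n d = y := by
  have hne := h.ne
  obtain ⟨A, B, C, D, h⟩ := h
  have nd := h.1
  rcases DF.eq_or_rev h1 with rfl | rfl
  · rcases A with _ | ⟨a, A⟩
    · exact ⟨rfl, by simpa using (pa_next (A := []) h).symm⟩
    · obtain rfl : a = n d := by simpa using pa_next (A := []) h
      rcases DF.eq_or_rev h2 with e | e <;> simp [e] at nd
  · have k := pa_rot (A := rev x :: (A ++ y :: (B ++ rev y :: C))) (B := x :: D) (by simpa using h)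
    rcases D with _ | ⟨a, D⟩
    · exact absurd ((congrArg Prod.fst (pa_next (A := []) k)).trans h2) hne
    · obtain rfl := pa_next (A := []) k
      rcases DF.eq_or_rev h2 with e | e <;> simp only [e, List.nodup_cons, List.mem_append, List.mem_cons, not_or, List.nodup_append, true_or, or_true, not_true_eq_false, ne_eq, forall_eq_or_imp, Prod.forall, Bool.forall_bool, Prod.mk.injEq, not_and, Bool.not_eq_false, Bool.not_eq_true, Bool.false_eq_true, imp_false, implies_true, and_true, Bool.true_eq_false, true_and, false_and, and_false] at nd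

theorem face_flip [DecidableEq E] (hn : Trg n) (h1 : d.1 ≠ x.1) (h2 : d.1 ≠ (n x).1)
    (h3 : d.1 ≠ (n (n x)).1) : fnx n d x = n x := by
  have key : ∀ y, d.1 ≠ (n y).1 → d.1 ≠ (n (n y)).1 → cyc n d y = y := fun y k1 k2 => by
    have a : ∀ e : Dr E, e.1 = d.1 → y ≠ n e ∧ y ≠ n (n e) := fun e he =>
      ⟨fun q => k2 (by rw [q, hn.cube, he]), fun q => k1 (by rw [q, hn.cube, he])⟩
    simp only [cyc, Equiv.Perm.mul_apply,
      Equiv.swap_apply_of_ne_of_ne (a d rfl).1 (a d rfl).2,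
      Equiv.swap_apply_of_ne_of_ne (a d rfl).1 (a (rev d) rfl).1,
      Equiv.swap_apply_of_ne_of_ne (a d rfl).1 (a (rev d) rfl).2]
  rw [fnx, Equiv.Perm.mul_apply, Equiv.Perm.mul_apply,
    Equiv.Perm.inv_eq_iff_eq.2 (key x h2 h3).symm, key _ h3 (by rwa [hn.cube])]

end Pool.Agent.MP_596265_gt.U.Mot

end

section

namespace Pool.Agent.MP_596265_gt.U.Mot

open Erg Real UpperHalfPlane Set Filter Topology Stp Lip

variable {g : ℕ} {E : Type} {n : Nx E} {x y d : Dr E}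

/-- Delete the two darts of `d` from a rotation list and put them back in their new places. -/
def pf_ins [DecidableEq E] (d a c z : Dr E) : List (Dr E) :=
  if z.1 = d.1 then [] else if z = rev a then [z, rev d] else if z = rev c then [z, d] else [z]

section
variable [DecidableEq E] {n' : Nx E} {a b c h : Dr E}

theorem pf_mem (q : DF.Qd n n' d d a b c h) (z w : Dr E) :
    w ∈ pf_ins d a c z ↔ z = if w = d then rev c else if w = rev d then rev a else w := by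
  have k := rev_ne d
  have ac : rev a ≠ rev c := fun e => q.ne.2.1 (by simpa using congrArg rev e)
  have a1 : (rev a).1 ≠ d.1 := q.ha
  have c1 : (rev c).1 ≠ d.1 := q.hc
  have e1 : ∀ z : Dr E, z.1 = d.1 ↔ z = d ∨ z = rev d := fun z =>
    ⟨DF.eq_or_rev, by rintro (rfl | rfl) <;> rfl⟩
  rw [Ne, e1] at a1 c1
  unfold pf_ins
  simp only [e1]
  generalize rev d = r, rev a = p, rev c = s at *
  split_ifs <;> simp only [List.mem_cons, List.not_mem_nil] <;> grind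

theorem pf_chain (q : DF.Qd n n' d d a b c h) {L : List (Dr E)}
    (hL : L.IsChain fun x y => y = n (rev x)) :
    ((L.flatMap (pf_ins d a c)).IsChain fun x y => y = n' (rev x)) ∧
      ∀ w ∈ (L.flatMap (pf_ins d a c)).head?, ∀ z ∈ L.head?,
        w = if z.1 = d.1 then n (rev z) else z := by
  induction L with
  | nil => simp
  | cons z L ih =>
    obtain ⟨h1, h2⟩ := List.isChain_cons.1 hL
    obtain ⟨i1, i2⟩ := ih h2
    have i3 : ∀ w ∈ (L.flatMap (pf_ins d a c)).head?,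
        w = if (n (rev z)).1 = d.1 then n (rev (n (rev z))) else n (rev z) := fun w hw => by
      cases L with
      | nil => simp at hw
      | cons u L => rw [← h1 u rfl]; exact i2 w hw u rfl
    rw [List.flatMap_cons]
    generalize L.flatMap (pf_ins d a c) = K at *
    unfold pf_ins
    split_ifs with e0 e1 e2
    · refine ⟨i1, fun w hw u hu => ?_⟩
      obtain rfl : z = u := by simpa using hu
      rw [if_pos e0, i3 w hw, if_neg]
      rcases DF.eq_or_rev e0 with rfl | rfl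
      · rw [q.n4]; exact q.hc
      · rw [rev_rev, q.n1]; exact q.ha
    · subst e1
      refine ⟨List.isChain_cons.2 ⟨by simp [q.m6], List.isChain_cons.2 ⟨fun w hw => ?_, i1⟩⟩,
        by simp [q.ha]⟩
      rw [i3 w hw, rev_rev, rev_rev, q.n2, if_neg q.hb, q.m1]
    · subst e2
      refine ⟨List.isChain_cons.2 ⟨by simp [q.m3], List.isChain_cons.2 ⟨fun w hw => ?_, i1⟩⟩,
        by simp [q.hc]⟩
      rw [i3 w hw, rev_rev, q.n5, if_neg q.hh, q.m4]
    · refine ⟨List.isChain_cons.2 ⟨fun w hw => ?_, i1⟩, by simp [e0]⟩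
      rw [i3 w hw]
      by_cases e3 : rev z = b
      · rw [e3, q.n3, if_pos rfl, q.n4, q.m2]
      by_cases e4 : rev z = h
      · rw [e4, q.n6, if_pos (rev_fst d), rev_rev, q.n1, q.m5]
      have f1 : rev z ≠ a := fun e => e1 (by rw [← e, rev_rev])
      have f2 : rev z ≠ c := fun e => e2 (by rw [← e, rev_rev])
      rw [if_neg (q.off (x := rev z) e0 f1 e3 f2 e4).1, q.out (rev z) e0 f1 e3 f2 e4]

theorem pf_lk (q : DF.Qd n n' d d a b c h) {L : List (Dr E)} (hL : Lk n L) :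
    Lk n' (L.flatMap (pf_ins d a c)) := by
  refine ⟨List.nodup_flatMap.2 ⟨fun z _ => ?_, hL.1.imp fun hne w h1 h2 =>
    hne (((pf_mem q _ w).1 h1).trans ((pf_mem q _ w).1 h2).symm)⟩,
    fun w => List.mem_flatMap.2 ⟨_, hL.2.1 _, (pf_mem q _ w).2 rfl⟩, (pf_chain q hL.2.2).1⟩
  unfold pf_ins
  split_ifs with e0 e1 e2
  · simp
  · simpa using fun e => e0 (by rw [e, rev_fst])
  · simpa using fun e => e0 (by rw [e])
  · simp

theorem pf_cons {z : Dr E} (hz : d.1 ≠ z.1) (a c : Dr E) : ∃ K, pf_ins d a c z = z :: K := by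
  unfold pf_ins
  rw [if_neg hz.symm]
  split_ifs <;> exact ⟨_, rfl⟩

end

/-! ROW PF -/
theorem Pair.flip [DecidableEq E] (hn : Trg n) (h : Pair n x y) (h1 : d.1 ≠ x.1) (h2 : d.1 ≠ y.1) :
    Pair (fnx n d) x y := by
  obtain ⟨A, B, C, D, hL⟩ := h
  have := pf_lk (DF.qd_fnx hn.cube hn.ne (d := d) ⟨fun e => edge_ne hn d (by rw [← e, rev_fst]),
    fun e => edge_ne hn (n (n d)) (by rw [hn.cube, ← e, rev_fst])⟩) hL
  obtain ⟨K1, e1⟩ := pf_cons (z := rev x) h1 (n d) (n (rev d))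
  obtain ⟨K2, e2⟩ := pf_cons h2 (n d) (n (rev d))
  obtain ⟨K3, e3⟩ := pf_cons (z := rev y) h2 (n d) (n (rev d))
  obtain ⟨K4, e4⟩ := pf_cons h1 (n d) (n (rev d))
  simp only [List.flatMap_cons, List.flatMap_append, e1, e2, e3, e4, List.cons_append,
    ← List.append_assoc] at this
  exact ⟨_, _, _, _, this⟩

end Pool.Agent.MP_596265_gt.U.Mot

end

section

namespace Pool.Agent.MP_596265_gt.U.Mot

open Erg Real UpperHalfPlane Set Filter Topology Stp Lip

variable {g : ℕ} {E : Type} {n : Nx E} {x y d : Dr E}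

/-! ROW LE -/
theorem xd_eq (L : E → G) (z : ℍ) (d : Dr E) : xd L z d = xg (dlab L d) z := rfl
theorem le_nn (u : G) (z : ℍ) : 0 ≤ xg u z := xs_nonneg _ _
theorem le_sq (U : G) (t : ℝ) : 4 * xg U (pt t) ^ 2 =
    (U 0 0 - U 1 1) ^ 2 + (exp (-t) * U 0 1 + exp t * U 1 0) ^ 2 := by
  have e1 : exp (t / 2) * exp (-(t / 2)) = 1 := by rw [← exp_add]; simp
  have e2 : exp t = exp (t / 2) * exp (t / 2) := by rw [← exp_add]; simp
  have e3 : exp (-t) = exp (-(t / 2)) * exp (-(t / 2)) := by rw [← exp_add]; ring_nf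
  rw [xg, pt, xs_conj, xs_sq, e2, e3]
  simp only [basic_mul, basic_inv00, basic_inv01, basic_inv10, basic_inv11, basic_dia00,
    basic_dia01, basic_dia10, basic_dia11]
  congr 2
  · linear_combination (U 0 0 - U 1 1) * e1
  · ring
theorem le_sq' (U : G) (t : ℝ) : 4 * xg U (pt t) ^ 2 =
    U 0 0 ^ 2 + U 1 1 ^ 2 + (exp (-t) * U 0 1) ^ 2 + (exp t * U 1 0) ^ 2 - 2 := by
  have e1 : exp (-t) * exp t = 1 := by rw [← exp_add]; simp
  rw [le_sq]
  linear_combination (-2) * basic_det U + 2 * U 0 1 * U 1 0 * e1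
theorem xg_inv (u : G) (z : ℍ) : xg u⁻¹ z = xg u z := by
  rw [xg, xg, xs, xs, ← dist_smul u, smul_inv_smul, dist_comm]
theorem xg_mul {u v : G} {z : ℍ} (hu : xg u z ≤ 1 / 10) (hv : xg v z ≤ 1 / 10) :
    xg (u * v) z ≤ 11 / 10 * (xg u z + xg v z) := by
  have h1 := le_nn u z
  have h2 := le_nn v z
  simp only [xg, xs] at *
  have h3 := dist_triangle z (u • z) ((u * v) • z)
  rw [mul_smul, dist_smul, ← mul_smul] at h3
  have h4 : ∀ s : ℝ, 0 ≤ sinh s → sinh s ≤ 1 / 10 → cosh s ≤ 11 / 10 := fun s a b =>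
    le_of_sq_le_sq (by rw [cosh_sq]; nlinarith only [a, b]) (by norm_num)
  calc sinh (dist z ((u * v) • z) / 2) ≤ sinh (dist z (u • z) / 2 + dist z (v • z) / 2) :=
        sinh_le_sinh.2 (by linarith only [h3])
    _ ≤ _ := by
      rw [sinh_add]
      nlinarith only [h4 _ h1 hu, h4 _ h2 hv, h1, h2]
theorem le_up {A : G} (h : Up A) (t : ℝ) :
    A 0 0 * A 1 1 = 1 ∧ 4 * xg A (pt t) ^ 2 = (A 0 0 - A 1 1) ^ 2 :=
  ⟨by linear_combination basic_det A + A 1 0 * h.1, by rw [le_sq, h.1, h.2.1]; ring⟩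
theorem Up.const {A : G} (h : Up A) (s t : ℝ) : xg A (pt s) = xg A (pt t) :=
  (sq_eq_sq₀ (le_nn _ _) (le_nn _ _)).1 (by linarith [(le_up h s).2, (le_up h t).2])
theorem Up.ax {A : G} (h : Up A) (t : ℝ) : tr A ^ 2 = 4 + 4 * xg A (pt t) ^ 2 := by
  rw [(le_up h t).2, tr]
  linear_combination 4 * (le_up h t).1
theorem Up.off {A U : G} (h : Up A) (hk : kap A U ≠ 2) : U 0 1 ≠ 0 ∧ U 1 0 ≠ 0 := by
  refine mul_ne_zero_iff.1 fun e => hk ?_
  simp only [kap, tr, basic_mul, basic_inv00, basic_inv01, basic_inv10, basic_inv11, h.1, h.2.1]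
  linear_combination 2 * basic_det U + 2 * U 0 0 * U 1 1 * (le_up h 0).1 +
    (2 - A 0 0 ^ 2 - A 1 1 ^ 2) * e
theorem le_ent {A : G} (h : Up A) (U : G) (j : Fin 2) : (A * U) 0 j = A 0 0 * U 0 j ∧
    (A * U) 1 j = A 1 1 * U 1 j ∧ (U * A) j 0 = A 0 0 * U j 0 ∧ (U * A) j 1 = A 1 1 * U j 1 := by
  simp only [basic_mul, h.1, h.2.1]
  exact ⟨by ring, by ring, by ring, by ring⟩
theorem Nor.mul {A U : G} (h : Up A) (hU : Nor U) : Nor (A * U) := by
  rw [Nor, (le_ent h U 0).1, (le_ent h U 1).2.1, mul_pow, mul_pow]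
  exact mul_le_mul h.2.2.le hU (sq_nonneg _) (sq_nonneg _)
theorem nor_comm {A U : G} (h : Up A) : Nor (A * U) ↔ Nor (U * A) := by
  rw [Nor, Nor, (le_ent h U 0).1, (le_ent h U 1).2.1, (le_ent h U 0).2.2.1, (le_ent h U 1).2.2.2]
theorem nor_of_pm {U V : G} (h : PM (U * V) 1) (hV : ¬ Nor V) : Nor U := by
  have := h.mul (PM.refl V⁻¹)
  rw [mul_inv_cancel_right, one_mul] at this
  have hV := (not_le.1 hV).le
  rcases this with rfl | rfl
  · rwa [Nor, basic_inv00, basic_inv11]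
  · rwa [Nor, basic_neg, basic_neg, neg_sq, neg_sq, basic_inv00, basic_inv11]
theorem lens_a {A U : G} (h : Up A) (hU : Nor U) (ht : 2 ≤ |tr U|) (t : ℝ) :
    xg A (pt t) ≤ xg (A * U) (pt t) ∧ xg A (pt t) ≤ xg (U * A) (pt t) := by
  have h1 : 2 ^ 2 ≤ (U 0 0 + U 1 1) ^ 2 := sq_le_sq.2 (by rwa [abs_two])
  have h2 := mul_nonneg (sub_nonneg.2 h.2.2.le) (sub_nonneg.2 hU)
  have h3 := mul_nonneg (sq_nonneg (A 0 0 - A 1 1)) (sub_nonneg.2 h1)
  have h4 := sq_nonneg ((A 0 0 + A 1 1) * (U 0 0 - U 1 1))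
  have key : 4 * xg A (pt t) ^ 2 ≤ (A 0 0 * U 0 0 - A 1 1 * U 1 1) ^ 2 := by
    rw [(le_up h t).2]
    linarith
  have a := le_sq (A * U) t
  have b := le_sq (U * A) t
  rw [(le_ent h U 0).1, (le_ent h U 1).2.1] at a
  rw [(le_ent h U 0).2.2.1, (le_ent h U 1).2.2.2] at b
  exact ⟨le_of_sq_le_sq (by nlinarith only [key, a]) (le_nn _ _), le_of_sq_le_sq (by nlinarith only [key, b]) (le_nn _ _)⟩
theorem le_b {a d P Q x y w : ℝ} (h : a * d = 1) (h' : d ^ 2 < a ^ 2) (hP : 1 ≤ a ^ 2 * P)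
    (hx : 4 * x ^ 2 = (a - d) ^ 2) (hy : 4 * y ^ 2 = P + Q - 2)
    (hw : 4 * w ^ 2 = a ^ 2 * P + d ^ 2 * Q - 2) (x0 : 0 ≤ x) (x1 : x ≤ 1 / 10) (w0 : 0 ≤ w)
    (w1 : w ≤ 1 / 4) : y ≤ x + w := by
  have e : a ^ 2 * d ^ 2 = 1 := by rw [← mul_pow, h, one_pow]
  have d0 := sq_nonneg d
  have d1 : d ^ 2 ≤ 1 := by nlinarith only [h', e]
  have a1 : 1 ≤ a ^ 2 := by nlinarith only [h, h']
  have a2 : a ^ 2 ≤ 4 := by nlinarith
  have k1 : (a ^ 2 - 1) * w ≤ 2 * x := by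
    refine le_of_sq_le_sq ?_ (by linarith only [x0])
    have k2 : ((a ^ 2 - 1) * w) ^ 2 = (2 * x) ^ 2 * (a ^ 2 * w ^ 2) := by
      linear_combination (-a ^ 2 * w ^ 2) * hx + w ^ 2 * (2 * a ^ 2 - a * d - 1) * h
    rw [k2]
    exact mul_le_of_le_one_right (sq_nonneg _) (by nlinarith only [w0, w1, a2])
  have k3 := mul_nonneg (sub_nonneg.2 d1) (sub_nonneg.2 hP)
  have k4 := mul_nonneg (sub_nonneg.2 a1) (sub_nonneg.2 hP)
  have k5 := mul_le_mul_of_nonneg_right k1 w0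
  have k6 : 4 * y ^ 2 - 4 * w ^ 2 - 4 * x ^ 2 = (a ^ 2 - 1) * (4 * w ^ 2) -
      (1 - d ^ 2) * (a ^ 2 * P - 1) - (a ^ 2 - 1) * (a ^ 2 * P - 1) := by
    linear_combination hy - a ^ 2 * hw - hx - (P + Q) * e + 2 * h
  exact le_of_sq_le_sq (by linarith only [k3, k4, k5, k6]) (by linarith only [x0, w0])
theorem lens_b {A U : G} (h : Up A) (hU : Nor (A * U)) (ht : 2 ≤ |tr (A * U)|) {t : ℝ}
    (h1 : xg A (pt t) ≤ 1 / 10) (h2 : xg U (pt t) ≤ 1 / 10) :
    xg U (pt t) ≤ xg A (pt t) + xg (A * U) (pt t) ∧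
      xg U (pt t) ≤ xg A (pt t) + xg (U * A) (pt t) := by
  have p : 1 ≤ (A 0 0 * U 0 0) ^ 2 := by
    have h1 : 2 ^ 2 ≤ ((A * U) 0 0 + (A * U) 1 1) ^ 2 := sq_le_sq.2 (by rwa [abs_two])
    rw [← (le_ent h U 0).1]
    linarith only [sq_nonneg ((A * U) 0 0 - (A * U) 1 1), show _ ≤ _ from hU, h1]
  have a := le_sq' (A * U) t
  have b := le_sq' (U * A) t
  have c := le_sq' U t
  simp only [le_ent h U] at a b
  have u := le_up h t
  constructor
  · refine le_b (P := U 0 0 ^ 2 + (exp (-t) * U 0 1) ^ 2) (Q := U 1 1 ^ 2 + (exp t * U 1 0) ^ 2)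
      u.1 h.2.2 ?_ u.2 (by linarith only [c]) (by linarith only [a]) (le_nn _ _) h1 (le_nn _ _) ?_
    · linarith only [sq_nonneg (A 0 0 * (exp (-t) * U 0 1)), p]
    · linarith only [xg_mul h1 h2, h1, h2]
  · refine le_b (P := U 0 0 ^ 2 + (exp t * U 1 0) ^ 2) (Q := U 1 1 ^ 2 + (exp (-t) * U 0 1) ^ 2)
      u.1 h.2.2 ?_ u.2 (by linarith only [c]) (by linarith only [b]) (le_nn _ _) h1 (le_nn _ _) ?_
    · linarith only [sq_nonneg (A 0 0 * (exp t * U 1 0)), p]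
    · linarith only [xg_mul h2 h1, h1, h2]

end Pool.Agent.MP_596265_gt.U.Mot

end

section

namespace Pool.Agent.MP_596265_gt.U.Mot

open Erg Real UpperHalfPlane Set Filter Topology Stp Lip

variable {g : ℕ} {E : Type} {n : Nx E} {x y d : Dr E}

/-! ROW CV -/
theorem dist_pt {s : ℝ} (hs : s = 1 ∨ s = -1) (t₀ r r' : ℝ) :
    dist (pt (t₀ + s * r)) (pt (t₀ + s * r')) ≤ |r - r'| := by
  have := dist_dia 1 (t₀ + s * r) (t₀ + s * r')
  rw [one_smul, one_smul] at this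
  rw [pt, pt, this, show t₀ + s * r - (t₀ + s * r') = s * (r - r') by ring, abs_mul]
  rcases hs with rfl | rfl <;> simp

theorem cv_eq (U : G) (t : ℝ) : xg U (pt t) =
    ‖(⟨U 0 0 - U 1 1, |U 0 1 * exp (-t) + U 1 0 * exp t|⟩ : ℂ)‖ / 2 := by
  have h1 := xs_sq ((dia t)⁻¹ * U * dia t)
  rw [← xs_conj, ← dia_neg] at h1
  simp only [basic_mul, basic_dia00, basic_dia01, basic_dia10, basic_dia11, neg_div, neg_neg,
    mul_zero, zero_mul, add_zero, zero_add] at h1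
  have hu : exp (t / 2) * exp (-(t / 2)) = 1 := by rw [← exp_add]; simp
  have hy : exp t = exp (t / 2) ^ 2 := by rw [← exp_nat_mul]; congr 1; push_cast; ring
  have hz : exp (-t) = exp (-(t / 2)) ^ 2 := by rw [← exp_nat_mul]; congr 1; push_cast; ring
  rw [eq_div_iff two_ne_zero, Complex.norm_eq_sqrt_sq_add_sq, eq_comm, xg, pt,
    sqrt_eq_iff_mul_self_eq (by positivity) (mul_nonneg (xs_nonneg _ _) zero_le_two)]
  dsimp only
  rw [sq_abs, hy, hz]
  linear_combination -h1 - ((U 0 0 - U 1 1) ^ 2 * (exp (t / 2) * exp (-(t / 2)) + 1)) * hu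

theorem cv_sinh {a D : ℝ} (h0 : 0 ≤ a) (h1 : a ≤ 1) (hD : 0 ≤ D) : sinh (a * D) ≤ a * sinh D := by
  have k : ConvexOn ℝ (Ici 0) sinh := MonotoneOn.convexOn_of_deriv (convex_Ici 0)
    continuous_sinh.continuousOn differentiable_sinh.differentiableOn (by
      rw [Real.deriv_sinh]; exact cosh_strictMonoOn.monotoneOn.mono interior_subset)
  simpa only [ge_iff_le, smul_eq_mul, mul_zero, add_zero, sinh_zero] using k.2 (mem_Ici.2 hD) (mem_Ici.2 le_rfl) h0 (sub_nonneg.2 h1) (add_sub_cancel a 1)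

theorem cv_abs (p q : ℝ) : ConvexOn ℝ univ fun t => |p * exp (-t) + q * exp t| := by
  refine LinearOrder.convexOn_of_lt convex_univ fun x _ y _ h a b ha hb hab => ?_
  obtain ⟨D, rfl⟩ : ∃ D, y = x + D := ⟨y - x, by ring⟩
  have hD : 0 < D := by linarith
  have hs : 0 < sinh D := sinh_pos_iff.2 hD
  have e1 : a • x + b • (x + D) = x + b * D := by
    simp only [smul_eq_mul]; linear_combination x * hab
  have e2 : D = a * D + b * D := by linear_combination -D * hab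
  have e : (p * exp (-(x + b * D)) + q * exp (x + b * D)) * sinh D =
      sinh (a * D) * (p * exp (-x) + q * exp x) +
        sinh (b * D) * (p * exp (-(x + D)) + q * exp (x + D)) := by
    generalize a * D = u at e2
    generalize b * D = v at e2
    subst e2
    simp only [sinh_eq, exp_neg, exp_add]
    field_simp
    ring
  have k1 := cv_sinh ha.le (by linarith only [hb, hab]) hD.le
  have k2 := cv_sinh hb.le (by linarith only [ha, hab]) hD.le
  rw [e1]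
  refine le_of_mul_le_mul_right ?_ hs
  rw [← abs_of_pos hs, ← abs_mul, e, abs_of_pos hs]
  refine (abs_add_le _ _).trans ?_
  rw [abs_mul, abs_mul, abs_of_pos (sinh_pos_iff.2 (mul_pos ha hD)),
    abs_of_pos (sinh_pos_iff.2 (mul_pos hb hD))]
  simp only [smul_eq_mul]
  linarith only [mul_le_mul_of_nonneg_right k1 (abs_nonneg (p * exp (-x) + q * exp x)), mul_le_mul_of_nonneg_right k2 (abs_nonneg (p * exp (-(x + D)) + q * exp (x + D)))]

theorem cv_top {p q : ℝ} (hq : q ≠ 0) :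
    Tendsto (fun t => |p * exp (-t) + q * exp t|) atTop atTop := by
  have h1 : Tendsto (fun t => |q| * exp t + -(|p| * exp (-t))) atTop atTop :=
    (tendsto_exp_atTop.const_mul_atTop (abs_pos.2 hq)).atTop_add
      (tendsto_exp_neg_atTop_nhds_zero.const_mul |p|).neg
  refine tendsto_atTop_mono (fun t => ?_) h1
  have := abs_sub (p * exp (-t) + q * exp t) (p * exp (-t))
  rw [add_sub_cancel_left, abs_mul, abs_mul, abs_exp, abs_exp] at this
  linarith

theorem cvx {U : G} (h1 : U 0 1 ≠ 0) (h2 : U 1 0 ≠ 0) :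
    ConvexOn ℝ univ (fun t => xg U (pt t)) ∧ Tendsto (fun t => xg U (pt t)) atTop atTop ∧
      Tendsto (fun t => xg U (pt t)) atBot atTop := by
  have lo : ∀ t, |U 0 1 * exp (-t) + U 1 0 * exp t| / 2 ≤ xg U (pt t) := fun t => by
    rw [cv_eq]
    exact div_le_div_of_nonneg_right ((le_abs_self _).trans (Complex.abs_im_le_norm
      ⟨U 0 0 - U 1 1, |U 0 1 * exp (-t) + U 1 0 * exp t|⟩)) zero_le_two
  refine ⟨⟨convex_univ, fun x _ y _ a b ha hb hab => ?_⟩,
    tendsto_atTop_mono lo ((cv_top h2).atTop_div_const two_pos),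
    tendsto_atTop_mono lo (Tendsto.atTop_div_const two_pos ?_)⟩
  · have k := (cv_abs (U 0 1) (U 1 0)).2 (mem_univ x) (mem_univ y) ha hb hab
    simp only [cv_eq]
    dsimp only at k
    have k0 := abs_nonneg (U 0 1 * exp (-(a • x + b • y)) + U 1 0 * exp (a • x + b • y))
    generalize |U 0 1 * exp (-(a • x + b • y)) + U 1 0 * exp (a • x + b • y)| = w at k k0
    generalize |U 0 1 * exp (-x) + U 1 0 * exp x| = u at k
    generalize |U 0 1 * exp (-y) + U 1 0 * exp y| = v at k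
    generalize U 0 0 - U 1 1 = c
    have m1 : ‖(⟨c, w⟩ : ℂ)‖ ≤ ‖a • (⟨c, u⟩ : ℂ) + b • (⟨c, v⟩ : ℂ)‖ := by
      rw [Complex.norm_eq_sqrt_sq_add_sq, Complex.norm_eq_sqrt_sq_add_sq]
      refine sqrt_le_sqrt (add_le_add (le_of_eq ?_) (pow_le_pow_left₀ k0 (by simpa only [Complex.real_smul, Complex.add_im, Complex.mul_im, Complex.ofReal_re, Complex.ofReal_im, zero_mul, add_zero, smul_eq_mul] using k) 2))
      simp [← add_mul, hab]
    have m2 := norm_add_le (a • (⟨c, u⟩ : ℂ)) (b • (⟨c, v⟩ : ℂ))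
    rw [norm_smul, norm_smul, norm_of_nonneg ha, norm_of_nonneg hb] at m2
    simp only [smul_eq_mul]
    linarith only [m1, m2]
  · refine ((cv_top (p := U 1 0) h1).comp tendsto_neg_atBot_atTop).congr fun t => ?_
    simp [add_comm]

theorem climb {f : ℝ → ℝ} (hf : ConvexOn ℝ univ f) (h1 : Tendsto f atTop atTop)
    (h2 : Tendsto f atBot atTop) (t₀ c : ℝ) : ∃ s T : ℝ, (s = 1 ∨ s = -1) ∧ 0 ≤ T ∧
      c ≤ f (t₀ + s * T) ∧ ∀ r ∈ Icc 0 T, f t₀ ≤ f (t₀ + s * r) ∧ f (t₀ + s * r) ≤ max (f t₀) c := by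
  rcases le_total c (f t₀) with hc | hc
  · refine ⟨1, 0, .inl rfl, le_rfl, by simpa using hc, fun r hr => ?_⟩
    rw [le_antisymm hr.2 hr.1]; simp
  have ct : Continuous f := continuousOn_univ.1 (hf.continuousOn isOpen_univ)
  obtain ⟨s, hs, up⟩ : ∃ s : ℝ, (s = 1 ∨ s = -1) ∧ ∀ r, 0 ≤ r → f t₀ ≤ f (t₀ + s * r) := by
    by_contra hn
    push Not at hn
    obtain ⟨r, r0, hr⟩ := hn 1 (.inl rfl)
    obtain ⟨r', r0', hr'⟩ := hn (-1) (.inr rfl)
    exact (max_lt hr' hr).not_ge (hf.le_max_of_mem_Icc (mem_univ _) (mem_univ _)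
      ⟨by linarith, by linarith⟩)
  have k : Tendsto (fun r => f (t₀ + s * r)) atTop atTop := by
    rcases hs with rfl | rfl
    · exact h1.comp (tendsto_atTop_add_const_left _ _ (tendsto_id.const_mul_atTop one_pos))
    · exact h2.comp (tendsto_atBot_add_const_left _ _
        (tendsto_id.const_mul_atTop_of_neg neg_one_lt_zero))
  obtain ⟨R, hR, R0⟩ := ((k.eventually_ge_atTop c).and (eventually_ge_atTop 0)).exists
  obtain ⟨T, hT, e⟩ := intermediate_value_Icc R0 (f := fun r => f (t₀ + s * r))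
    (by fun_prop) ⟨by simpa using hc, hR⟩
  refine ⟨s, T, hs, hT.1, e.ge, fun r hr => ⟨up r hr.1, ?_⟩⟩
  dsimp only at e
  rw [← e]
  rcases hs with rfl | rfl
  · exact hf.le_max_of_mem_Icc (mem_univ _) (mem_univ _) ⟨by linarith [hr.1], by linarith [hr.2]⟩
  · rw [max_comm]
    exact hf.le_max_of_mem_Icc (mem_univ _) (mem_univ _) ⟨by linarith [hr.2], by linarith [hr.1]⟩

end Pool.Agent.MP_596265_gt.U.Mot

end

section

namespace Pool.Agent.MP_596265_gt.U.Mot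

open Erg Real UpperHalfPlane Set Filter Topology Stp Lip

variable {g : ℕ} {E : Type} {n : Nx E} {x y d : Dr E}
variable {M : Tup g} {τ : MS g} {a u v f : Dr (Ed g)} {h η t m : ℝ} {z : ℍ}

theorem sh_rot (hn : Trg n) {s : E} (hs : s ∈ ({d.1, (n d).1, (n (n d)).1} : Set E)) :
    ∃ c : Dr E, c.1 = s ∧ ({c.1, (n c).1, (n (n c)).1} : Set E) = {d.1, (n d).1, (n (n d)).1} := by
  rcases hs with e | e | e
  · exact ⟨d, e.symm, rfl⟩
  · refine ⟨n d, e.symm, ?_⟩
    rw [hn.cube]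
    ext w
    simp only [mem_insert_iff, mem_singleton_iff]
    tauto
  · refine ⟨n (n d), (mem_singleton_iff.1 e).symm, ?_⟩
    rw [hn.cube]
    ext w
    simp only [mem_insert_iff, mem_singleton_iff]
    tauto

theorem sh_back (hn : Trg n) (hp : Pair n x y) (h1 : d.1 = x.1) (h2 : (n (n d)).1 = y.1) :
    d = x ∧ n y = x := by
  obtain ⟨e1, e2⟩ := hp.symm.face hn h2 (by rw [hn.cube]; exact h1)
  exact ⟨by rw [← e2, hn.cube], by rw [← e1, e2]⟩

/-! ROW SH -/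
theorem Mo.short (hM : Mo η M) (ht : MT τ) (hp : Pair τ.1 a u) (ha : xd (geo M τ.2) z a ≤ η)
    (hu : xd (geo M τ.2) z u ≤ η) (h1 : f.1 ≠ a.1) (h2 : f.1 ≠ u.1) (hf : xd (geo M τ.2) z f ≤ 1) :
    (τ.1 a = u ∧ (τ.1 u).1 = f.1) ∨ (τ.1 u = a ∧ (τ.1 a).1 = f.1) := by
  obtain ⟨d, hd⟩ := hM.cl ht hp.ne h1 h2 ha hu hf
  obtain ⟨c, hc, e⟩ := sh_rot ht.1 (d := d) (s := a.1) (by rw [hd]; simp)
  rw [hd, hc] at e
  have mu : u.1 ∈ ({a.1, (τ.1 c).1, (τ.1 (τ.1 c)).1} : Set (Ed g)) := by rw [e]; simp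
  have mf : f.1 ∈ ({a.1, (τ.1 c).1, (τ.1 (τ.1 c)).1} : Set (Ed g)) := by rw [e]; simp
  simp only [mem_insert_iff, mem_singleton_iff] at mu mf
  rcases mu with k | k | k
  · exact absurd k.symm hp.ne
  · obtain ⟨rfl, e2⟩ := hp.face ht.1 hc k.symm
    refine Or.inl ⟨e2, ?_⟩
    rw [e2] at mf
    exact ((mf.resolve_left h1).resolve_left h2).symm
  · obtain ⟨rfl, e2⟩ := sh_back ht.1 hp hc k.symm
    rw [← k] at mf
    exact Or.inr ⟨e2, ((mf.resolve_left h1).resolve_right h2).symm⟩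

theorem sh_bad (hM : Mo η M) (ht : MT τ) (hp : Pair τ.1 a u)
    (ha : xd (geo M τ.2) z a ≤ η) (hu : xd (geo M τ.2) z u ≤ η) (hf : f.1 = a.1)
    (hb : xd (geo M τ.2) z (τ.1 f) ≤ 1 ∧ xd (geo M τ.2) z (τ.1 (τ.1 f)) ≤ 1) :
    (τ.1 a = u ∨ τ.1 u = a) ∧ f = a := by
  by_cases c1 : (τ.1 f).1 = u.1
  · obtain ⟨rfl, e⟩ := hp.face ht.1 hf c1
    exact ⟨Or.inl e, rfl⟩
  by_cases c2 : (τ.1 (τ.1 f)).1 = u.1
  · obtain ⟨e1, e2⟩ := sh_back ht.1 hp hf c2
    exact ⟨Or.inr e2, e1⟩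
  exfalso
  have n1 : (τ.1 f).1 ≠ a.1 := hf ▸ edge_ne ht.1 f
  have n2 : (τ.1 (τ.1 f)).1 ≠ a.1 := by
    have := edge_ne ht.1 (τ.1 (τ.1 f))
    rw [ht.1.cube] at this
    exact hf ▸ this.symm
  have n3 := edge_ne ht.1 (τ.1 f)
  have two : τ.1 a = u → τ.1 u = a → False := fun e1 e2 => by
    have := ht.1.cube a
    rw [e1, e2] at this
    exact ht.1.ne a this
  rcases hM.short ht hp ha hu n1 c1 hb.1 with s | s <;>
    rcases hM.short ht hp ha hu n2 c2 hb.2 with s' | s'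
  exacts [n3 (s'.2.symm.trans s.2), two s.1 s'.1, two s'.1 s.1, n3 (s'.2.symm.trans s.2)]

theorem Mo.bad (hM : Mo η M) (hη : η ≤ 1) (ht : MT τ) (hp : Pair τ.1 a u)
    (ha : xd (geo M τ.2) z a ≤ η) (hu : xd (geo M τ.2) z u ≤ η) (hf : f.1 = a.1 ∨ f.1 = u.1)
    (hb : xd (geo M τ.2) z (τ.1 f) ≤ 1 ∧ xd (geo M τ.2) z (τ.1 (τ.1 f)) ≤ 1) :
    (τ.1 a = u ∨ τ.1 u = a) ∧ (f = a ∨ f = u) := by
  rcases hf with hf | hf
  · exact (sh_bad hM ht hp ha hu hf hb).imp_right Or.inl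
  · exact (sh_bad hM ht hp.symm hu ha hf hb).imp Or.symm Or.inr

theorem Mo.pair (hM : Mo η M) (ht : MT τ) (hn : τ.1 a = u) (ha : xd (geo M τ.2) z a ≤ η)
    (hu : xd (geo M τ.2) z u ≤ η) : Pair τ.1 a u := by
  obtain ⟨x', y', e1, e2, hp⟩ := hM.ul ht (hn ▸ (edge_ne ht.1 a).symm) ha hu
  obtain ⟨rfl, e⟩ := hp.face ht.1 e1.symm (by rw [hn, e2])
  rwa [← e, hn] at hp

theorem third (hT : TAx g) (hM : Fm M) (ht : MT τ) (d : Dr (Ed g)) :
    PM (dlab (geo M τ.2) d * dlab (geo M τ.2) (τ.1 d) * dlab (geo M τ.2) (τ.1 (τ.1 d))) 1 ∧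
    ∀ z, xd (geo M τ.2) z (τ.1 (τ.1 d)) = xg (dlab (geo M τ.2) d * dlab (geo M τ.2) (τ.1 d)) z :=
  ⟨DF.flat_geo hM (hT.flat ht) d, fun z => (xs_R (DF.flat_geo hM (hT.flat ht)) z d).symm⟩

theorem sh_dl (k : G) (M : Tup g) (l : E → Fr g) (d : Dr E) :
    dlab (geo (cjL k M) l) d = k * dlab (geo M l) d * k⁻¹ := by
  rw [Bas.dlab_geo, Bas.dlab_geo, Bas.lift_cjL]

theorem sh_xd (k : G) (M : Tup g) (l : E → Fr g) (z : ℍ) (d : Dr E) :
    xd (geo (cjL k M) l) z d = xd (geo M l) (k⁻¹ • z) d := by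
  rw [xd, xd, xs, xs, vQ, vQ, sh_dl, ← dist_smul k (k⁻¹ • z), smul_inv_smul, mul_smul, mul_smul]

theorem Mo.cj (hM : Mo η M) (k : G) : Mo η (cjL k M) where
  fm := (Bas.fm_cjL k).2 hM.fm
  ks := (Bas.kset_cjL k).2 hM.ks
  hyp := fun ht d => by rw [sh_dl, tr_conj]; exact hM.hyp ht d
  kp := fun {τ x y} ht hp => by
    have := hM.kp ht hp
    rw [kap, ← tr_conj _ k] at this
    rw [sh_dl, sh_dl, kap]
    convert this using 2
    group
  ul := fun ht h0 h1 h2 => hM.ul ht h0 (sh_xd k M _ _ _ ▸ h1) (sh_xd k M _ _ _ ▸ h2)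
  cl := fun ht h0 h1 h2 h3 h4 h5 =>
    hM.cl ht h0 h1 h2 (sh_xd k M _ _ _ ▸ h3) (sh_xd k M _ _ _ ▸ h4) (sh_xd k M _ _ _ ▸ h5)

end Pool.Agent.MP_596265_gt.U.Mot

end

section

namespace Pool.Agent.MP_596265_gt.U.Mot

open Erg Real UpperHalfPlane Set Filter Topology Stp Lip

variable {g : ℕ} {E : Type} {n : Nx E} {x y d : Dr E}
variable {M : Tup g} {τ : MS g} {a u v f : Dr (Ed g)} {h η t m : ℝ} {z : ℍ}

theorem nf_dl {σ : MS g} {d : Dr (Ed g)} (h : σ.2 d.1 = τ.2 d.1) :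
    dlab (geo M σ.2) d = dlab (geo M τ.2) d := by
  obtain ⟨a, b⟩ := d
  cases b <;> simp [dlab, geo, show σ.2 a = τ.2 a from h]

theorem nf_xd (L : E → G) (z : ℍ) (h : x.1 = y.1) : xd L z x = xd L z y := by
  obtain ⟨a, b⟩ := x
  obtain ⟨c, d⟩ := y
  obtain rfl : a = c := h
  by_cases e : b = d
  · rw [e]
  · rw [← xd_rev L z (a, d)]
    cases b <;> cases d <;> first | rfl | exact absurd rfl e

/-! ROW NF: `a`, `u` frozen until they lie in one face. -/
theorem noface (hT : TAx g) (hA : DAx g) (hM : Mo (10 * h) M) (h0 : 0 < h) (h1 : h ≤ 1 / 100)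
    (ht : MT τ) (hp : Ps M (pt t) τ) (hq : Pair τ.1 a u) (hu : Up (dlab (geo M τ.2) a))
    (xa : xd (geo M τ.2) (pt t) a ≤ h) (xu : xd (geo M τ.2) (pt t) u ≤ 3 * h)
    (hl : Low M (pt t) τ m) (hm : xd (geo M τ.2) (pt t) a < 2 * m) :
    Fin1 h M (dlab (geo M τ.2) a) ∨ ∃ t' σ, MT σ ∧ Ps M (pt t') σ ∧ σ.2 a.1 = τ.2 a.1 ∧
      Pair σ.1 a u ∧ xd (geo M σ.2) (pt t') u ≤ 3 * h ∧ Fc σ.1 (geo M σ.2) (pt t') a u := by
  classical
  refine or_iff_not_imp_right.2 fun hG => ?_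
  obtain ⟨o1, o2⟩ := hu.off (hM.kp ht hq)
  obtain ⟨c1, c2, c3⟩ := cvx o1 o2
  obtain ⟨s, T, hs, T0, hc, hr⟩ := climb c1 c2 c3 t (3 * h)
  have a0 := xd_pos hp a
  have ma : m ≤ xd (geo M τ.2) (pt t) a := hl τ (.refl _) a
  have mu : m ≤ xg (dlab (geo M τ.2) u) (pt t) := hl τ (.refl _) u
  have m0 : 0 < m := by linarith only [hm, a0]
  have ea : ∀ σ : MS g, σ.2 a.1 = τ.2 a.1 → ∀ r,
      xd (geo M σ.2) (pt r) a = xd (geo M τ.2) (pt t) a := fun σ e r => by
    rw [xd_eq, xd_eq, nf_dl e, hu.const r t]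
  have eu : ∀ σ : MS g, σ.2 u.1 = τ.2 u.1 → ∀ r,
      xd (geo M σ.2) (pt r) u = xg (dlab (geo M τ.2) u) (pt r) := fun σ e r => by
    rw [xd_eq, nf_dl e]
  rw [xd_eq] at xu
  simp only [max_eq_right xu] at hr
  generalize xd (geo M τ.2) (pt t) a = α at *
  have nf : ∀ r ∈ Icc 0 T, ∀ σ y, MT σ → Ps M (pt (t + s * r)) σ → σ.2 a.1 = τ.2 a.1 →
      σ.2 u.1 = τ.2 u.1 → Pair σ.1 a u → Low M (pt (t + s * r)) σ y → α ≤ 2 * y →
      ∃ ρ, MT ρ ∧ Ps M (pt (t + s * r)) ρ ∧ ρ.2 a.1 = τ.2 a.1 ∧ ρ.2 u.1 = τ.2 u.1 ∧ Pair ρ.1 a u ∧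
        Dl M (pt (t + s * r)) ρ ∧
        ∀ d, d.1 ≠ a.1 → d.1 ≠ u.1 → 1 < xd (geo M ρ.2) (pt (t + s * r)) d := by
    intro r hr' σ y k1 k2 k3 k4 k5 k6 k7
    obtain ⟨ρ, e1, e2, e3, ⟨e4, e5, e6⟩, e7⟩ := nfS hT hA hM.fm
      (fun ρ d => d.1 = a.1 ∨ d.1 = u.1)
      (fun ρ => ρ.2 a.1 = τ.2 a.1 ∧ ρ.2 u.1 = τ.2 u.1 ∧ Pair ρ.1 a u)
      (fun ρ d b1 _ b2 _ _ b3 => ⟨(Function.update_of_ne (Ne.symm (not_or.1 b2).1) _ _).trans b3.1,
        (Function.update_of_ne (Ne.symm (not_or.1 b2).2) _ _).trans b3.2.1,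
        b3.2.2.flip b1.1 (not_or.1 b2).1 (not_or.1 b2).2⟩) k1 k2 ⟨k3, k4, k5⟩
    have l := k6 ρ e1
    have ya := ea ρ e4 (t + s * r)
    have yu := eu ρ e5 (t + s * r)
    have bu := (hr r hr').2
    have nc : ¬ (ρ.1 a = u ∨ ρ.1 u = a) := fun hf => hG ⟨_, ρ, e2, e3, e4, e6, yu ▸ bu,
      hf.imp (fun e => ⟨e, by linarith only [l u, l (ρ.1 u), k7, ya]⟩) fun e => ⟨e, by linarith only [l u, l (ρ.1 a), k7, ya]⟩⟩
    refine ⟨ρ, e2, e3, e4, e5, e6, fun d => ?_, fun d d1 d2 => not_le.1 fun d3 => nc ?_⟩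
    · by_contra hd
      have q : d.1 = a.1 ∨ d.1 = u.1 := by_contra fun q => hd (e7 d q)
      have b : xd (geo M ρ.2) (pt (t + s * r)) d ≤ 1 := by
        rcases q with q | q <;> rw [nf_xd _ _ q] <;> linarith only [h0, h1, xa, ya, yu, bu]
      have k : ∀ e : Dr (Ed g), e.1 = d.1 → xd (geo M ρ.2) (pt (t + s * r)) (ρ.1 e) ^ 2 +
          xd (geo M ρ.2) (pt (t + s * r)) (ρ.1 (ρ.1 e)) ^ 2 <
            xd (geo M ρ.2) (pt (t + s * r)) d ^ 2 → False := fun e q' w =>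
        nc (hM.bad (by linarith only [h0, h1]) e2 e6 (by linarith only [h0, xa, ya]) (by linarith only [h0, yu, bu]) (q' ▸ q)
          ⟨(abs_le_abs_of_sq (xd_nonneg _ _ _) (xd_nonneg _ _ _) w).trans b,
            (abs_le_abs_of_sq (xd_nonneg _ _ _) (xd_nonneg _ _ _) (by rwa [add_comm] at w)).trans b⟩).1
      exact (long_of_dV_neg (DF.gs_of hT hM.fm e2 e3) (not_le.1 hd)).elim (k d rfl) (k (rev d) rfl)
    · exact (hM.short e2 e6 (by linarith only [h0, xa, ya]) (by linarith only [h0, yu, bu]) d1 d2 d3).imp And.left And.left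
  have lw : ∀ r ∈ Icc 0 T, ∀ ρ : MS g, ρ.2 a.1 = τ.2 a.1 → ρ.2 u.1 = τ.2 u.1 →
      (∀ d, d.1 ≠ a.1 → d.1 ≠ u.1 → 1 < xd (geo M ρ.2) (pt (t + s * r)) d) →
      ∀ d, m ≤ xd (geo M ρ.2) (pt (t + s * r)) d := fun r hr' ρ e4 e5 e d => by
    by_cases q : d.1 = a.1
    · rw [nf_xd _ _ q, ea ρ e4]; exact ma
    by_cases q' : d.1 = u.1
    · rw [nf_xd _ _ q', eu ρ e5]; exact mu.trans (hr r hr').1
    linarith only [e d q q', h0, h1, xa, ma]
  obtain ⟨c, c0, st⟩ := step_lf (η := 2 * arsinh m) (by simpa using m0)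
  obtain ⟨δ, δ0, δ1, δ2⟩ : ∃ δ > 0, δ ≤ c ∧ α ≤ 2 * (m * exp (-δ)) := by
    have p : 0 < log (2 * m / α) := log_pos ((one_lt_div a0).2 hm)
    refine ⟨min c (log (2 * m / α)), lt_min c0 p, min_le_left _ _, ?_⟩
    have := exp_le_exp.2 (neg_le_neg (min_le_right c (log (2 * m / α))))
    rw [exp_neg, exp_log (by positivity), inv_div, div_le_iff₀ (by positivity)] at this
    linarith only [this]
  have all : ∀ k : ℕ, ∀ r ∈ Icc 0 T, r ≤ k * δ →
      ∃ ρ, MT ρ ∧ Ps M (pt (t + s * r)) ρ ∧ ρ.2 a.1 = τ.2 a.1 ∧ ρ.2 u.1 = τ.2 u.1 ∧ Pair ρ.1 a u ∧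
        Dl M (pt (t + s * r)) ρ ∧
        ∀ d, d.1 ≠ a.1 → d.1 ≠ u.1 → 1 < xd (geo M ρ.2) (pt (t + s * r)) d := by
    intro k
    induction k with
    | zero =>
      intro r q1 q2
      obtain rfl : r = 0 := le_antisymm (by simpa only [CharP.cast_eq_zero, zero_mul] using q2) q1.1
      exact nf 0 q1 τ m ht (by simpa using hp) rfl rfl hq (by simpa using hl) hm.le
    | succ k ih =>
      intro r q1 q2
      have n0 : 0 ≤ (k : ℝ) * δ := by positivity
      push_cast at q2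
      have s1 : 0 ≤ max 0 (r - δ) := le_max_left _ _
      have s2 : max 0 (r - δ) ≤ r := max_le q1.1 (by linarith only [δ0])
      have s3 : r - max 0 (r - δ) ≤ δ := by linarith only [le_max_right 0 (r - δ)]
      obtain ⟨σ, e2, e3, e4, e5, e6, e7, e8⟩ := ih _ ⟨s1, s2.trans q1.2⟩
        (max_le n0 (by linarith only [q2]))
      have l := lw _ ⟨s1, s2.trans q1.2⟩ σ e4 e5 e8
      generalize max 0 (r - δ) = r₀ at *
      have gs := DF.gs_of hT hM.fm e2 e3
      have pp : ∀ w ∈ Icc r₀ r, Ps M (pt (t + s * w)) σ := fun w hw =>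
        (st e2 gs.flat e3 (hA.hH gs e7) (fun d => by
          have := arsinh_le_arsinh.2 (l d)
          rw [xd, xs, arsinh_sinh] at this
          linarith only [this]) _ ((dist_pt hs t w r₀).trans (by
            rw [abs_of_nonneg (sub_nonneg.2 hw.1)]; linarith only [hw.2, δ1, s3]))).1
      refine nf r q1 σ _ e2 (pp r ⟨s2, le_rfl⟩) e4 e5 e6 (low_path hT hA hM.fm hM.ks e2
        (γ := fun w => pt (t + s * w)) (dist_pt hs t) s2 pp (low_of_dl hT hA hM.fm e2 e3 e7 l))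
        (δ2.trans ?_)
      gcongr
  obtain ⟨k, hk⟩ := exists_nat_ge (T / δ)
  obtain ⟨ρ, e2, e3, e4, e5, -, e7, e8⟩ := all k T ⟨T0, le_rfl⟩ ((div_le_iff₀ δ0).1 hk)
  refine ⟨_, ρ, a, e2, e3, (hHS (DF.gs_of hT hM.fm e2 e3) fun d _ => e7 d).1, nf_dl e4,
    fun d q => ?_⟩
  by_cases q' : d.1 = u.1
  · rw [nf_xd _ _ q', eu ρ e5]; linarith only [h0, hc]
  · linarith [e8 d q q']

end Pool.Agent.MP_596265_gt.U.Mot

end

section

namespace Pool.Agent.MP_596265_gt.U.Mot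

open Erg Real UpperHalfPlane Set Filter Topology Stp Lip

variable {g : ℕ} {E : Type} {n : Nx E} {x y d : Dr E}
variable {M : Tup g} {τ : MS g} {a u v f : Dr (Ed g)} {h η t m : ℝ} {z : ℍ}

theorem gl_flip {σ : MS g} {d : Dr (Ed g)} {a : Ed g} (h : d.1 ≠ a) : (flip σ d).2 a = σ.2 a :=
  Function.update_of_ne h.symm _ _

theorem gl_lab {σ : MS g} {d : Dr (Ed g)} (h : σ.2 d.1 = τ.2 d.1) :
    dlab (geo M σ.2) d = dlab (geo M τ.2) d := by
  obtain ⟨a, b⟩ := d
  cases b <;> simp [dlab, geo, show σ.2 a = τ.2 a from h]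

theorem gl_xd (L : E → G) (z : ℍ) (h : x.1 = y.1) : xd L z x = xd L z y := by
  rcases DF.eq_or_rev h with e | e <;> rw [e]
  exact xd_rev _ _ _

theorem gl_tr {A B : G} (h : PM (A * B) 1) : |tr A| = |tr B| := by
  have := h.mul (PM.refl B⁻¹)
  rw [mul_inv_cancel_right, one_mul] at this
  rw [this.abs_tr, tr_inv]

theorem gl_low (hT : TAx g) (hA : DAx g) (hM : Mo η M) (ht : MT τ) (hp : Ps M z τ) :
    ∃ x > 0, Low M z τ x :=
  (low_cpt hT hA hM.fm hM.ks ht isCompact_singleton fun _ e => mem_singleton_iff.1 e ▸ hp).imp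
    fun _ e => ⟨e.1, e.2 z rfl⟩

/-- The third side of a face on `a` and `u` is almost the longest one. -/
theorem gl_north (hT : TAx g) (hM : Mo η M) (ht : MT τ) (hu : Up (dlab (geo M τ.2) a))
    (hn : Nor (dlab (geo M τ.2) u)) (xa : xd (geo M τ.2) (pt t) a ≤ 1 / 10)
    (xu : xd (geo M τ.2) (pt t) u ≤ 1 / 10)
    (e : (τ.1 a = u ∧ τ.1 u = v) ∨ (τ.1 u = a ∧ τ.1 a = v)) :
    xd (geo M τ.2) (pt t) a ≤ xd (geo M τ.2) (pt t) v ∧
      xd (geo M τ.2) (pt t) u ≤ xd (geo M τ.2) (pt t) a + xd (geo M τ.2) (pt t) v := by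
  have l := lens_a hu hn (hM.hyp ht u).le t
  rcases e with ⟨e1, e2⟩ | ⟨e1, e2⟩
  · obtain ⟨p, q⟩ := third hT hM.fm ht a
    rw [e1, e2] at p q
    rw [q]
    exact ⟨l.1, (lens_b hu (Nor.mul hu hn) (gl_tr p ▸ (hM.hyp ht v).le) xa xu).1⟩
  · obtain ⟨p, q⟩ := third hT hM.fm ht u
    rw [e1, e2] at p q
    rw [q]
    exact ⟨l.2, (lens_b hu (Nor.mul hu hn)
      (by rw [tr_mul_comm, gl_tr p]; exact (hM.hyp ht v).le) xa xu).2⟩

/-! ROW GN: `a`, `u` frozen. -/
theorem glideN (hT : TAx g) (hA : DAx g) (hM : Mo (10 * h) M) (h0 : 0 < h) (h1 : h ≤ 1 / 100)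
    (ht : MT τ) (hp : Ps M (pt t) τ) (hq : Pair τ.1 a u) (hu : Up (dlab (geo M τ.2) a))
    (hn : Nor (dlab (geo M τ.2) u)) (xa : xd (geo M τ.2) (pt t) a ≤ h)
    (xu : xd (geo M τ.2) (pt t) u ≤ 10 * h) : Fin1 h M (dlab (geo M τ.2) a) := by
  obtain ⟨o1, o2⟩ := hu.off (hM.kp ht hq)
  obtain ⟨c1, c2, c3⟩ := cvx o1 o2
  obtain ⟨s, T, hs, T0, hc, hr⟩ := climb c1 c2 c3 t (2 * h)
  obtain ⟨x, x0, hx⟩ := gl_low hT hA hM ht hp
  have z0 : pt (t + s * 0) = pt t := by rw [mul_zero, add_zero]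
  have bd : ∀ r ∈ Icc 0 T, ∀ σ : MS g, σ.2 a.1 = τ.2 a.1 → σ.2 u.1 = τ.2 u.1 →
      xd (geo M σ.2) (pt (t + s * r)) a ≤ h ∧ xd (geo M σ.2) (pt (t + s * r)) u ≤ 10 * h :=
    fun r h2 σ qa qu => by
      rw [xd_eq, xd_eq, gl_lab qa, gl_lab qu, hu.const _ t]
      exact ⟨xa, (hr r h2).2.trans (max_le xu (by linarith only [h0]))⟩
  have hb : ∀ r ∈ Icc 0 T, ∀ σ, Rch M (fun _ d => d.1 = a.1 ∨ d.1 = u.1) (pt (t + s * 0), τ)
      (pt (t + s * r)) (x * exp (-(r - 0))) σ →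
      (σ.2 a.1 = τ.2 a.1 ∧ σ.2 u.1 = τ.2 u.1 ∧ Pair σ.1 a u) → ∀ d : Dr (Ed g),
      (d.1 = a.1 ∨ d.1 = u.1) → ¬ Bad σ.1 (geo M σ.2) (pt (t + s * r)) d :=
    fun r h2 σ R ⟨qa, qu, q⟩ d hd b => by
      obtain ⟨b1, b2⟩ := bd r h2 σ qa qu
      have nn := xd_nonneg (geo M σ.2) (pt (t + s * r))
      have cb := R.mt.1.cube
      have b3 : xd (geo M σ.2) (pt (t + s * r)) d ≤ 10 * h := by
        rcases hd with e | e <;> rw [gl_xd _ _ e] <;> linarith only [h0, b1, b2]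
      rw [Bad] at b
      have k := fun v => gl_north (t := t + s * r) (v := v) hT hM R.mt (gl_lab (M := M) qa ▸ hu)
        (gl_lab (M := M) qu ▸ hn) (by linarith) (by linarith)
      obtain ⟨e, e'⟩ := hM.bad (by linarith) R.mt q (by linarith only [h0, b1]) b2 hd
        ⟨by linarith [nn (σ.1 (σ.1 d))], by linarith [nn (σ.1 d)]⟩
      rcases e with e | e <;> rcases e' with rfl | rfl
      · rw [e] at b
        linarith only [(k _ (.inl ⟨e, rfl⟩)).1, nn u, b]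
      · rw [show σ.1 (σ.1 d) = a by rw [← e, cb]] at b
        linarith only [(k _ (.inl ⟨e, rfl⟩)).2, b]
      · linarith only [(k _ (.inr ⟨e, rfl⟩)).1, nn (σ.1 (σ.1 d)), b]
      · rw [e] at b
        linarith only [(k _ (.inr ⟨e, rfl⟩)).2, b]
  obtain ⟨σ, R, qa, qu, q⟩ := move hT hA hM.fm hM.ks (γ := fun r => pt (t + s * r)) (a := 0)
    (b := T) (dist_pt hs t) x0 (fun _ d => d.1 = a.1 ∨ d.1 = u.1)
    (fun _ σ => σ.2 a.1 = τ.2 a.1 ∧ σ.2 u.1 = τ.2 u.1 ∧ Pair σ.1 a u) ht (z0 ▸ hp) (z0 ▸ hx)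
    ⟨rfl, rfl, hq⟩ (fun _ _ σ d mt _ S _ _ q => ⟨(gl_flip (not_or.1 S).1).trans q.1,
      (gl_flip (not_or.1 S).2).trans q.2.1, q.2.2.flip mt.1 (not_or.1 S).1 (not_or.1 S).2⟩)
    (fun _ _ _ _ _ _ _ _ q => q) hb T ⟨T0, le_rfl⟩
  obtain ⟨b1, b2⟩ := bd T ⟨T0, le_rfl⟩ σ qa qu
  refine ⟨t + s * T, σ, a, R.mt, R.ps, (R.hH hT hM.fm (hb T ⟨T0, le_rfl⟩ σ R ⟨qa, qu, q⟩)).1,
    gl_lab qa, fun d hd => ?_⟩
  rw [← gl_lab (M := M) qu, ← xd_eq] at hc
  by_cases e : d.1 = u.1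
  · rw [gl_xd _ _ e]
    linarith only [h0, hc]
  · refine not_lt.1 fun l => ?_
    have k := fun v => gl_north (t := t + s * T) (v := v) hT hM R.mt (gl_lab (M := M) qa ▸ hu)
      (gl_lab (M := M) qu ▸ hn) (by linarith) (by linarith)
    rcases hM.short R.mt q (by linarith only [h0, b1]) b2 hd e (by linarith) with ⟨e1, e2⟩ | ⟨e1, e2⟩
    · linarith only [(k _ (.inl ⟨e1, rfl⟩)).2, gl_xd (geo M σ.2) (pt (t + s * T)) e2, hc, b1, l]
    · linarith only [(k _ (.inr ⟨e1, rfl⟩)).2, gl_xd (geo M σ.2) (pt (t + s * T)) e2, hc, b1, l]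

end Pool.Agent.MP_596265_gt.U.Mot

end

section

namespace Pool.Agent.MP_596265_gt.U.Mot

open Erg Real UpperHalfPlane Set Filter Topology Stp Lip

variable {g : ℕ} {E : Type} {n : Nx E} {x y d : Dr E}
variable {M : Tup g} {τ : MS g} {a u v f : Dr (Ed g)} {h η t m : ℝ} {z : ℍ}

theorem gm_xd {σ : MS g} (e : σ.2 a.1 = τ.2 a.1) (w : ℍ) :
    dlab (geo M σ.2) a = dlab (geo M τ.2) a ∧ xd (geo M σ.2) w a = xg (dlab (geo M τ.2) a) w := by
  have : dlab (geo M σ.2) a = dlab (geo M τ.2) a := by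
    obtain ⟨a, b⟩ := a
    cases b <;> simp [dlab, geo, show σ.2 a = τ.2 a from e]
  exact ⟨this, by rw [xd_eq, this]⟩

theorem gm_tr {X V : G} (h : PM (X * V) 1) : |tr X| = |tr V| := by
  have := (h.mul (PM.refl V⁻¹)).abs_tr
  rwa [mul_inv_cancel_right, one_mul, tr_inv] at this

theorem gm_edge (L : Ed g → G) (w : ℍ) {d a : Dr (Ed g)} (e : d.1 = a.1) : xd L w d = xd L w a := by
  rcases DF.eq_or_rev e with e | e <;> rw [e]
  exact xd_rev _ _ _

/-! ROW GM: the face `a u v` frozen. -/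
theorem glideM (hT : TAx g) (hA : DAx g) (hM : Mo (10 * h) M) (h0 : 0 < h) (h1 : h ≤ 1 / 100)
    (ht : MT τ) (hp : Ps M (pt t) τ) (e1 : τ.1 a = u) (e2 : τ.1 u = v)
    (hu : Up (dlab (geo M τ.2) a)) (n1 : ¬ Nor (dlab (geo M τ.2) u))
    (n2 : ¬ Nor (dlab (geo M τ.2) v)) (xa : xd (geo M τ.2) (pt t) a ≤ h)
    (x1 : xd (geo M τ.2) (pt t) a ≤ xd (geo M τ.2) (pt t) u + xd (geo M τ.2) (pt t) v)
    (x2 : xd (geo M τ.2) (pt t) u + xd (geo M τ.2) (pt t) v ≤ 10 * h) :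
    Fin1 h M (dlab (geo M τ.2) a) := by
  have e3 : τ.1 v = a := by rw [← e2, ← e1, ht.1.cube]
  have p0 := xd_nonneg (geo M τ.2) (pt t)
  have q1 := hM.pair ht e1 (by linarith only [h0, xa] : _ ≤ 10 * h) (by linarith only [p0 v, x2])
  have q2 := hM.pair ht e3 (by linarith [p0 u] : xd _ (pt t) v ≤ 10 * h) (by linarith)
  obtain ⟨c1, c2, c3⟩ := cvx (hu.off (hM.kp ht q1)).1 (hu.off (hM.kp ht q1)).2
  obtain ⟨d1, d2, d3⟩ := cvx (hu.off (hM.kp ht q2.symm)).1 (hu.off (hM.kp ht q2.symm)).2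
  obtain ⟨s, T, hs, T0, hT1, hT2⟩ := climb (c1.add d1) (c2.atTop_add_atTop d2)
    (c3.atTop_add_atTop d3) t (3 * h)
  simp only [Pi.add_apply] at hT1 hT2
  have t1 := third hT hM.fm ht a
  have t3 := third hT hM.fm ht v
  rw [e1, e2] at t1
  rw [e3, e1] at t3
  simp only [xd_eq] at xa x1 x2 t1 t3
  have z0 : pt (t + s * 0) = pt t := by rw [mul_zero, add_zero]
  obtain ⟨x, x0, hx⟩ := low_cpt hT hA hM.fm hM.ks ht (isCompact_singleton (x := pt t)) (by
    rintro _ rfl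
    exact hp)
  let S : MS g → Dr (Ed g) → Prop := fun _ d => d.1 = a.1 ∨ d.1 = u.1 ∨ d.1 = v.1
  let P : ℝ → MS g → Prop := fun _ σ => (σ.2 a.1 = τ.2 a.1 ∧ σ.2 u.1 = τ.2 u.1 ∧
    σ.2 v.1 = τ.2 v.1) ∧ σ.1 a = u ∧ σ.1 u = v
  have bd : ∀ r ∈ Icc 0 T, ∀ σ, P r σ → xd (geo M σ.2) (pt (t + s * r)) a ≤ h ∧
      xd (geo M σ.2) (pt (t + s * r)) u ≤ 10 * h ∧ xd (geo M σ.2) (pt (t + s * r)) v ≤ 10 * h :=
    fun r hr σ k => by
      have a1 := xd_nonneg (geo M σ.2) (pt (t + s * r)) u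
      have a2 := xd_nonneg (geo M σ.2) (pt (t + s * r)) v
      have a3 := (hT2 r hr).2.trans (max_le x2 (by linarith only [h0]))
      rw [(gm_xd k.1.2.1 _).2] at a1 ⊢
      rw [(gm_xd k.1.2.2 _).2] at a2 ⊢
      rw [(gm_xd k.1.1 _).2, hu.const _ t]
      exact ⟨xa, by linarith only [a2, a3], by linarith only [a1, a3]⟩
  have hb : ∀ r ∈ Icc 0 T, ∀ σ, MT σ → P r σ → ∀ d, S σ d →
      ¬ Bad σ.1 (geo M σ.2) (pt (t + s * r)) d := fun r hr σ m k d hd b => by
    obtain ⟨b1, b2, b3⟩ := bd r hr σ k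
    have k3 : σ.1 v = a := by rw [← k.2.2, ← k.2.1, m.1.cube]
    have y0 := xd_nonneg (geo M σ.2) (pt (t + s * r))
    have y1 : xd (geo M σ.2) (pt (t + s * r)) d ≤ 1 := by
      rcases hd with e | e | e <;> rw [gm_edge _ _ e] <;> linarith only [h0, h1, b1, b2, b3]
    rw [Bad] at b
    have y2 : xd (geo M σ.2) (pt (t + s * r)) (σ.1 d) ≤ 1 ∧
        xd (geo M σ.2) (pt (t + s * r)) (σ.1 (σ.1 d)) ≤ 1 :=
      ⟨by linarith only [y0 (σ.1 (σ.1 d)), b, y1], by linarith only [y0 (σ.1 d), b, y1]⟩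
    have b1' : xd (geo M σ.2) (pt (t + s * r)) a ≤ 10 * h := by linarith only [h0, b1]
    have y3 : d = a ∨ d = u ∨ d = v := by
      have w1 := fun e => (hM.bad (by linarith only [h0, h1]) m (hM.pair m k.2.1 b1' b2) b1' b2 e y2).2
      have w2 := fun e => (hM.bad (by linarith only [h0, h1]) m (hM.pair m k3 b3 b1') b3 b1' e y2).2
      rcases hd with e | e | e
      exacts [(w1 (.inl e)).imp_right .inl, (w1 (.inr e)).imp_right .inl,
        (w2 (.inl e)).elim (fun e => .inr (.inr e)) .inl]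
    have g1 := (gm_xd (M := M) k.1.1 (pt (t + s * r))).2
    have g2 := (gm_xd (M := M) k.1.2.1 (pt (t + s * r))).2
    have g3 := (gm_xd (M := M) k.1.2.2 (pt (t + s * r))).2
    rw [g1] at b1
    rw [g2] at b2
    rw [g3] at b3
    rcases y3 with rfl | rfl | rfl
    · rw [k.2.1, k.2.2, g1, g2, g3, hu.const _ t] at b
      linarith only [(hT2 r hr).1, b, x1]
    · rw [k.2.2, k3, g1, g2, g3] at b
      have := (lens_b hu (nor_of_pm t1.1 n2) (gm_tr t1.1 ▸ (hM.hyp ht v).le) (t := t + s * r)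
        (by linarith only [h1, b1]) (by linarith only [h1, b2])).1
      rw [← t1.2] at this
      linarith only [b, this]
    · rw [k3, k.2.1, g1, g2, g3] at b
      have := (lens_b hu ((nor_comm hu).2 (nor_of_pm t3.1 n1)) (by
        rw [tr_mul_comm, gm_tr t3.1]
        exact (hM.hyp ht u).le) (t := t + s * r) (by linarith only [h1, b1]) (by linarith only [h1, b3])).2
      rw [← t3.2] at this
      linarith only [b, this]
  obtain ⟨σ, r, k⟩ := move hT hA hM.fm hM.ks (γ := fun r => pt (t + s * r)) (a := 0) (b := T)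
    (dist_pt hs t) x0 S P ht (z0 ▸ hp) (z0 ▸ hx _ rfl) ⟨⟨rfl, rfl, rfl⟩, e1, e2⟩
    (fun r _ σ d m _ c _ _ k => by
      simp only [S, not_or] at c
      have k3 : σ.1 v = a := by rw [← k.2.2, ← k.2.1, m.1.cube]
      have u : ∀ {y : Ed g}, d.1 ≠ y → (flip σ d).2 y = σ.2 y := fun h =>
        Function.update_of_ne h.symm _ _
      refine ⟨⟨(u c.1).trans k.1.1, (u c.2.1).trans k.1.2.1, (u c.2.2).trans k.1.2.2⟩,
        (face_flip m.1 c.1 ?_ ?_).trans k.2.1, (face_flip m.1 c.2.1 ?_ ?_).trans k.2.2⟩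
      exacts [k.2.1 ▸ c.2.1, by rw [k.2.1, k.2.2]; exact c.2.2, k.2.2 ▸ c.2.2,
        by rw [k.2.2, k3]; exact c.1])
    (fun _ _ _ _ _ _ _ _ k => k) (fun r hr σ c k => hb r hr σ c.mt k) T ⟨T0, le_rfl⟩
  have nb := (r.hH hT hM.fm (hb T ⟨T0, le_rfl⟩ σ r.mt k)).1
  obtain ⟨b1, b2, b3⟩ := bd T ⟨T0, le_rfl⟩ σ k
  have k3 : σ.1 v = a := by rw [← k.2.2, ← k.2.1, r.mt.1.cube]
  refine ⟨t + s * T, σ, a, r.mt, r.ps, nb, (gm_xd k.1.1 I).1, fun d hd => ?_⟩
  have f1 := not_lt.1 (nb u)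
  have f2 := not_lt.1 (nb v)
  rw [k.2.2, k3] at f1
  rw [k3, k.2.1] at f2
  rw [← (gm_xd k.1.2.1 _).2, ← (gm_xd k.1.2.2 _).2] at hT1
  by_cases c1 : d.1 = u.1
  · rw [gm_edge _ _ c1]
    linarith only [hT1, b1, f2]
  by_cases c2 : d.1 = v.1
  · rw [gm_edge _ _ c2]
    linarith only [hT1, b1, f1]
  by_contra c3
  have b1' : xd (geo M σ.2) (pt (t + s * T)) a ≤ 10 * h := by linarith only [h0, b1]
  rcases hM.short r.mt (hM.pair r.mt k.2.1 b1' b2) b1' b2 hd c1 (by linarith) with e | e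
  exacts [c2 (k.2.2 ▸ e.2).symm, c1 (k.2.1 ▸ e.2).symm]

end Pool.Agent.MP_596265_gt.U.Mot

end

section

namespace Pool.Agent.MP_596265_gt.U.Mot

open Erg Real UpperHalfPlane Set Filter Topology Stp Lip

variable {g : ℕ} {E : Type} {n : Nx E} {x y d : Dr E}
variable {M : Tup g} {τ : MS g} {a u v f : Dr (Ed g)} {h η t m : ℝ} {z : ℍ}

/-! ROW FC -/
theorem face (hT : TAx g) (hA : DAx g) (hM : Mo (10 * h) M) (h0 : 0 < h) (h1 : h ≤ 1 / 100)
    (ht : MT τ) (hp : Ps M (pt t) τ) (hq : Pair τ.1 a u) (hu : Up (dlab (geo M τ.2) a))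
    (xa : xd (geo M τ.2) (pt t) a ≤ h) (xu : xd (geo M τ.2) (pt t) u ≤ 3 * h)
    (hf : Fc τ.1 (geo M τ.2) (pt t) a u) : Fin1 h M (dlab (geo M τ.2) a) := by
  by_cases n1 : Nor (dlab (geo M τ.2) u)
  · exact glideN hT hA hM h0 h1 ht hp hq hu n1 xa (by linarith only [h0, xu])
  have key : ∀ d, xd (geo M τ.2) (pt t) d ≤ 1 / 10 → xd (geo M τ.2) (pt t) (τ.1 d) ≤ 1 / 10 →
      xd (geo M τ.2) (pt t) (τ.1 (τ.1 d)) ≤
        11 / 10 * (xd (geo M τ.2) (pt t) d + xd (geo M τ.2) (pt t) (τ.1 d)) := fun d p q => by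
    rw [(third hT hM.fm ht d).2]
    exact xg_mul p q
  rcases hf with ⟨rfl, e⟩ | ⟨rfl, e⟩
  · have k := key a (by linarith only [h0, h1, xa]) (by linarith)
    by_cases n2 : Nor (dlab (geo M τ.2) (τ.1 (τ.1 a)))
    · exact glideN hT hA hM h0 h1 ht hp (hM.pair (z := pt t) ht (ht.1.cube a) (by linarith only [h0, xa, xu, k])
        (by linarith only [h0, xa])).symm hu n2 xa (by linarith)
    · exact glideM hT hA hM h0 h1 ht hp rfl rfl hu n1 n2 xa e (by linarith)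
  · have k := key u (by linarith) (by linarith)
    by_cases n2 : Nor (dlab (geo M τ.2) (τ.1 (τ.1 u)))
    · exact glideN hT hA hM h0 h1 ht hp (hM.pair (z := pt t) ht rfl (by linarith only [h0, xa]) (by linarith))
        hu n2 xa (by linarith)
    · exact glideM hT hA hM h0 h1 ht hp rfl (ht.1.cube u) hu n2 n1 xa (by linarith only [e]) (by linarith)

end Pool.Agent.MP_596265_gt.U.Mot

end

section

namespace Pool.Agent.MP_596265_gt.U.Mot

open Erg Real UpperHalfPlane Set Filter Topology Stp Lip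

variable {g : ℕ} {E : Type} {n : Nx E} {x y d : Dr E}
variable {M : Tup g} {τ : MS g} {a u v f : Dr (Ed g)} {h η t m : ℝ} {z : ℍ}

theorem up_of_dia {B : G} {l : ℝ} (hl : 0 < l) (p : PM B (dia l)) : Up B := by
  have e : exp (-(l / 2)) ^ 2 < exp (l / 2) ^ 2 :=
    pow_lt_pow_left₀ (exp_lt_exp.2 (by linarith)) (exp_pos _).le two_ne_zero
  rcases p with rfl | rfl <;>
    simpa only [Up, basic_neg, basic_dia00, basic_dia01, basic_dia10, basic_dia11, neg_zero,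
      true_and, neg_sq] using e

/-! ROW AX -/
theorem axis (hT : TAx g) (hA : DAx g) (hM : Fm M) (hK : M ∈ Kset g 0) (ht : MT τ)
    (hp : Ps M z τ) (hd : Dl M z τ) (ha : ∀ d, xd (geo M τ.2) z a ≤ xd (geo M τ.2) z d)
    (hh : 2 < |tr (dlab (geo M τ.2) a)|) : ∃ (k : G) (σ : MS g) (m : ℝ), MT σ ∧ Ps M (k • I) σ ∧
      σ.2 a.1 = τ.2 a.1 ∧ Up (k⁻¹ * dlab (geo M τ.2) a * k) ∧
      (∀ d, ¬ Bad σ.1 (geo M σ.2) (k • I) d) ∧
      xd (geo M σ.2) (k • I) a ≤ xd (geo M τ.2) z a ∧ Low M (k • I) σ m ∧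
      xd (geo M σ.2) (k • I) a < 2 * m := by
  obtain ⟨k, l, m, σ, l0, p, q, h1, h2, r, w, -⟩ :=
    Lip.axis hT hA hM hK ht hp a (low_of_dl hT hA hM ht hp hd ha) hh
  exact ⟨k, σ, m, r.mt, r.ps, q, up_of_dia l0 (dlab_of_eq (M := M) q ▸ p), w, h1, r.low, h2⟩

end Pool.Agent.MP_596265_gt.U.Mot

end

section

/-! From a short edge to a state on the axis of its only short edge. -/

namespace Pool.Agent.MP_596265_gt.U.Mot

open Erg Real UpperHalfPlane Set Filter Topology Stp Lip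

variable {g : ℕ} {E : Type} {n : Nx E} {x y d : Dr E}
variable {M : Tup g} {τ : MS g} {a u v f : Dr (Ed g)} {h η t m : ℝ} {z : ℍ}

theorem ex_lab (k : G) (M : Tup g) (l : E → Fr g) (d : Dr E) :
    dlab (geo (cjL k⁻¹ M) l) d = k⁻¹ * dlab (geo M l) d * k := by
  rw [DF.dlab_geo, DF.dlab_geo, Bas.lift_cjL, inv_inv]

theorem ex_xd (k : G) (M : Tup g) (l : E → Fr g) (w : ℍ) (d : Dr E) :
    xd (geo (cjL k⁻¹ M) l) w d = xd (geo M l) (k • w) d := by
  rw [xd, xd, xs, xs, vQ, vQ, ex_lab, ← dist_smul k, mul_smul, mul_smul, smul_inv_smul]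

theorem ex_ps (k : G) {w : ℍ} : Ps (cjL k⁻¹ M) w τ ↔ Ps M (k • w) τ := by
  rw [← Bas.ps_cjL (z := k • w) k⁻¹, inv_smul_smul]

theorem ex_pt : pt 0 = I := by rw [pt, dia_zero, one_smul]

theorem ex_up {B : G} (hB : Up B) : Up ((rot (1 / 2))⁻¹ * B⁻¹ * rot (1 / 2)) := by
  have e : π * (1 / 2) = π / 2 := by ring
  simp only [Up, basic_mul, basic_inv00, basic_inv01, basic_inv10, basic_inv11, basic_rot00,
    basic_rot01, basic_rot10, basic_rot11, e, cos_pi_div_two, sin_pi_div_two]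
  simpa using ⟨hB.2.1, hB.1, hB.2.2⟩

theorem ex_back (hT : TAx g) (hM : Fm M) {k A : G} (hA : Up A) (hf : Fin1 h (cjL k⁻¹ M) A) :
    ∃ (w : ℍ) (σ : MS g) (c : Dr (Ed g)), MT σ ∧ Ps M w σ ∧
      (∀ d, 0 ≤ hH w (vQ (geo M σ.2) w d) (vR σ.1 (geo M σ.2) w d)) ∧
      tr (dlab (geo M σ.2) c) ^ 2 = 4 + 4 * xd (geo M σ.2) w c ^ 2 ∧
      xd (geo M σ.2) w c = xg A (pt 0) ∧ ∀ d, d.1 ≠ c.1 → h ≤ xd (geo M σ.2) w d := by
  obtain ⟨t, σ, c, h1, h2, h3, h4, h5⟩ := hf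
  have p := (ex_ps k).1 h2
  have e : xd (geo M σ.2) (k • pt t) c = xg A (pt t) := by rw [← ex_xd, xd_eq, h4]
  refine ⟨k • pt t, σ, c, h1, p, (hHS (DF.gs_of hT hM h1 p) fun d b => absurd ?_ (h3 d)).2, ?_,
    e.trans (hA.const _ _), fun d hd => ex_xd k M σ.2 _ d ▸ h5 d hd⟩
  · simpa only [Bad, ex_xd] using b
  · have := tr_conj (dlab (geo M σ.2) c) k⁻¹
    rw [inv_inv, ← ex_lab, h4] at this
    rw [e, ← this, hA.ax t]

/-! ROW EX -/
theorem exit (hT : TAx g) (hA : DAx g) (hM : Mo (10 * h) M) (h0 : 0 < h) (h1 : h ≤ 1 / 100)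
    (ht : MT τ) (hp : Ps M z τ) (hd : Dl M z τ) (xa : xd (geo M τ.2) z a ≤ h) :
    ∃ (w : ℍ) (σ : MS g) (c : Dr (Ed g)), MT σ ∧ Ps M w σ ∧
      (∀ d, 0 ≤ hH w (vQ (geo M σ.2) w d) (vR σ.1 (geo M σ.2) w d)) ∧
      tr (dlab (geo M σ.2) c) ^ 2 = 4 + 4 * xd (geo M σ.2) w c ^ 2 ∧
      xd (geo M σ.2) w c ≤ xd (geo M τ.2) z a ∧
      ∀ d, d.1 ≠ c.1 → h ≤ xd (geo M σ.2) w d := by
  have : Nonempty (Dr (Ed g)) := ⟨a⟩
  obtain ⟨a₀, ha⟩ := Finite.exists_min (xd (geo M τ.2) z)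
  obtain ⟨k, σ, m, s1, s2, s3, s4, s5, s6, s7, s8⟩ :=
    axis hT hA hM.fm hM.ks ht hp hd ha (hM.hyp ht a₀)
  have s9 : dlab (geo M τ.2) a₀ = dlab (geo M σ.2) a₀ := by simp only [dlab, geo, s3]
  rw [s9] at s4
  have sm : ∀ {d d' : Dr (Ed g)}, d.1 = d'.1 → xd (geo M σ.2) (k • I) d = xd (geo M σ.2) (k • I) d' :=
    fun e => by rcases DF.eq_or_rev e with rfl | rfl <;> simp only [xd_rev]
  suffices H : ∃ (k' : G) (a' : Dr (Ed g)), k' • I = k • I ∧ a'.1 = a₀.1 ∧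
      Up (dlab (geo (cjL k'⁻¹ M) σ.2) a') ∧
      Fin1 h (cjL k'⁻¹ M) (dlab (geo (cjL k'⁻¹ M) σ.2) a') by
    obtain ⟨k', a', e1, e2, e3, e4⟩ := H
    obtain ⟨w, σ', c, c1, c2, c3, c4, c5, c6⟩ := ex_back hT hM.fm e3 e4
    refine ⟨w, σ', c, c1, c2, c3, c4, ?_, c6⟩
    rw [c5, ← xd_eq, ex_xd, ex_pt, e1, sm e2]
    exact s6.trans (ha a)
  have xa₀ : xd (geo M σ.2) (k • I) a₀ ≤ h := s6.trans ((ha a).trans xa)
  by_cases hl : ∀ d, d.1 ≠ a₀.1 → h ≤ xd (geo M σ.2) (k • I) d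
  · refine ⟨k, a₀, rfl, rfl, ex_lab k M σ.2 a₀ ▸ s4, 0, σ, a₀, s1, ?_, fun d => ?_, rfl, ?_⟩
    · rwa [ex_ps, ex_pt]
    · simpa only [Bad, ex_xd, ex_pt] using s5 d
    · simpa only [ex_xd, ex_pt] using hl
  push Not at hl
  obtain ⟨u₀, u1, u2⟩ := hl
  obtain ⟨a', u, e1, e2, hq⟩ := hM.ul (z := k • I) s1 u1.symm (by linarith only [h0, xa₀]) (by linarith only [h0, u2])
  obtain ⟨k', e3, e4⟩ : ∃ k' : G, k' • I = k • I ∧ Up (dlab (geo (cjL k'⁻¹ M) σ.2) a') := by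
    rcases DF.eq_or_rev e1 with rfl | rfl
    · exact ⟨k, rfl, ex_lab k M σ.2 _ ▸ s4⟩
    · refine ⟨k * rot (1 / 2), by rw [mul_smul, rot_smul_I], ?_⟩
      have := ex_up s4
      rw [ex_lab, dlab_rev]
      convert this using 1
      group
  refine ⟨k', a', e3, e1, e4, ?_⟩
  have e5 : k' • pt 0 = k • I := by rw [ex_pt, e3]
  have x1 : xd (geo (cjL k'⁻¹ M) σ.2) (pt 0) a' = xd (geo M σ.2) (k • I) a₀ := by
    rw [ex_xd, e5, sm e1]
  rcases noface (t := 0) (m := m) hT hA (hM.cj k'⁻¹) h0 h1 s1 (by rwa [ex_ps, e5]) hq e4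
    (x1 ▸ xa₀) (by rw [ex_xd, e5, sm e2]; linarith only [h0, u2]) (fun σ' b d => by
      rw [ex_xd, e5]
      refine s7 σ' ?_ d
      rwa [← Bas.eqv_cjL k'⁻¹, ← e5, inv_smul_smul]) (x1 ▸ s8) with H | ⟨t', σ', b1, b2, b3, b4, b5, b6⟩
  · exact H
  have e6 : dlab (geo (cjL k'⁻¹ M) σ'.2) a' = dlab (geo (cjL k'⁻¹ M) σ.2) a' := by
    simp only [dlab, geo, b3]
  rw [← e6]
  refine face hT hA (hM.cj k'⁻¹) h0 h1 b1 b2 b4 (e6 ▸ e4) ?_ b5 b6
  rw [xd_eq, e6, e4.const t' 0, ← xd_eq, x1]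
  exact xa₀

end Pool.Agent.MP_596265_gt.U.Mot

end
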