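import Pool.Agent.MP_596265_gt.W.D0
import Pool.Agent.MP_596265_gt.W.C0

attribute [-instance] SMulZeroClass.toSMul GradedMonoid.GradeZero.smul AddQuantale.instAddLeftMono
  CommGroup.toDivisionCommMonoid NonUnitalRingHomClass.toMulHomClass NumberField.to_charZero
  SemigroupWithZero.toSemigroup Algebra.toSMul AddQuantale.instAddRightMono
  IdemSemiring.toCanonicallyOrderedAdd MonTypeEquivalenceMon.monMonoid RKHS.instFunLike
  Quantale.instMulRightMono NonUnitalAlgSemiHomClass.toMulHomClass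
  LinearOrderedCommMonoidWithZero.toPosMulStrictMono RCLike.charZero_rclike CommSemiring.toSemiring
  littleWedderburn NonUnitalRing.toNonUnitalNonAssocRing instCoeHTCTOfCoeTailOfCoeHTC
  SeminormedRing.toPseudoMetricSpace IdemSemiring.toMulLeftMono NormedRing.toRing
  NonUnitalSeminormedRing.toPseudoMetricSpace

section

/-! Strips: definitions. -/

namespace Pool.Agent.MP_596265_gt.U.T2

open Erg Real UpperHalfPlane

noncomputable section

variable {E : Type}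

/-- `f` is linear on the hyperboloid. -/
def Lin (f : ℍ → ℝ) : Prop :=
  ∀ p q r s, hD p q r * f s + hD q p s * f r = hD r s q * f p + hD s r p * f q

/-- One step of a strip: from a dart that goes from left to right to the next one. -/
def Stp (n : Nx E) (L : E → G) (z : ℍ) (f : ℍ → ℝ) (p q : G × Dr E) : Prop :=
  f (p.1 • z) ≤ 0 ∧ 0 < f (p.1 • vQ L z p.2) ∧
    ((f (p.1 • vR n L z p.2) ≤ 0 ∧ q.2 = rev (n p.2) ∧
        PM q.1 (p.1 * dlab L p.2 * dlab L (n p.2))) ∨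
      (0 < f (p.1 • vR n L z p.2) ∧ q.2 = rev (n (n p.2)) ∧ PM q.1 p.1))

/-- A closed strip with holonomy `A`. -/
def Strip (n : Nx E) (L : E → G) (z : ℍ) (f : ℍ → ℝ) (A : G) : Prop :=
  ∃ k x, Relation.TransGen (Stp n L z f) (k, x) (A * k, x)

/-- `f` is the normalised functional of the axis of `A`, and `σ = tr A ^ 2 - 4`. -/
structure Ax (f : ℍ → ℝ) (A : G) (σ : ℝ) : Prop where
  lin : Lin f
  inv : ∀ w, f (A • w) = f w
  dis : ∀ w, 2 * ch w (A • w) = 2 + σ + f w ^ 2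
  gram : ∀ a w, f a ^ 2 + f w ^ 2 - 2 * ch a w * f a * f w ≤ (ch a w ^ 2 - 1) * σ

/-- The invariant functional of `A`. -/
def lam (A : G) (w : ℍ) : ℝ :=
  (A 1 0 * (w.re ^ 2 + w.im ^ 2) + (A 1 1 - A 0 0) * w.re - A 0 1) / w.im

end

end Pool.Agent.MP_596265_gt.U.T2

end

section

/-! Strips of faces along the zero set of a linear functional survive flips. -/

namespace Pool.Agent.MP_596265_gt.U.T2

open Erg UpperHalfPlane Relation DF

variable {E H : Type} {g : ℕ}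

section abstract
variable [Group H]

/-- One step through the face on the left of a lifted dart whose ends have different signs. -/
def SA (n : Nx E) (ν : Dr E → H) (s : H → Prop) (p q : H × Dr E) : Prop :=
  ¬ s p.1 ∧ s (p.1 * ν p.2) ∧
    ((¬ s (p.1 * ν p.2 * ν (n p.2)) ∧ q = (p.1 * ν p.2 * ν (n p.2), rev (n p.2))) ∨
      (s (p.1 * ν p.2 * ν (n p.2)) ∧ q = (p.1, rev (n (n p.2)))))

variable {n n' : Nx E} {ν ν' : Dr E → H} {s : H → Prop} {d e a b c h : Dr E}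

theorem sa_iff {k u v : H} {x y w : Dr E} (hy : n x = y) (hw : n y = w) (hu : k * ν x = u)
    (hv : u * ν y = v) (q : H × Dr E) :
    SA n ν s (k, x) q ↔ ¬ s k ∧ s u ∧ ((¬ s v ∧ q = (v, rev y)) ∨ (s v ∧ q = (k, rev w))) := by
  simp only [SA, hy, hw, hu, hv]

theorem SA.mul {A : H} (hA : ∀ k, s (A * k) ↔ s k) {p q : H × Dr E} (hs : SA n ν s p q) :
    SA n ν s (A * p.1, p.2) (A * q.1, q.2) := by
  obtain ⟨h1, h2, h3⟩ := hs
  refine ⟨by rwa [hA], by rwa [mul_assoc, hA], ?_⟩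
  rcases h3 with ⟨h3, rfl⟩ | ⟨h3, rfl⟩
  · exact Or.inl ⟨by rwa [mul_assoc, mul_assoc, hA, ← mul_assoc], by simp only [mul_assoc]⟩
  · exact Or.inr ⟨by rwa [mul_assoc, mul_assoc, hA, ← mul_assoc], rfl⟩

/-- A labelled convex quadrilateral. -/
structure QL (n n' : Nx E) (ν ν' : Dr E → H) (s : H → Prop) (d e a b c h : Dr E) : Prop where
  q : Qd n n' d e a b c h
  rv : ν (rev d) = (ν d)⁻¹
  rv' : ν' (rev e) = (ν' e)⁻¹
  out : ∀ x, x.1 ≠ d.1 → ν' x = ν x
  f1 : ν d * ν a * ν b = 1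
  f2 : (ν d)⁻¹ * ν c * ν h = 1
  f3 : ν' e * ν b * ν c = 1
  c1 : ∀ k, s (k * ν d * ν a) → s (k * ν c) → s k ∨ s (k * ν d)
  c2 : ∀ k, s k → s (k * ν d) → s (k * ν d * ν a) ∨ s (k * ν c)

theorem qd_rot (q : Qd n n' d e a b c h) : Qd n n' (rev d) (rev e) c h a b :=
  ⟨q.ed, q.n4, q.n5, q.n6, by rw [rev_rev]; exact q.n1, q.n2, by rw [rev_rev]; exact q.n3,
    q.m4, q.m5, q.m6, by rw [rev_rev]; exact q.m1, q.m2, by rw [rev_rev]; exact q.m3,
    q.hc, q.hh, q.ha, q.hb, fun x h0 h1 h2 h3 h4 => q.out x h0 h3 h4 h1 h2⟩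

theorem QL.rot (Q : QL n n' ν ν' s d e a b c h) : QL n n' ν ν' s (rev d) (rev e) c h a b := by
  refine ⟨qd_rot Q.q, by rw [rev_rev, Q.rv, inv_inv], by rw [rev_rev, Q.rv', inv_inv], Q.out,
    by rw [Q.rv, Q.f2], by rw [Q.rv, inv_inv, Q.f1], ?_, fun k h1 h2 => ?_, fun k h1 h2 => ?_⟩
  · have e1 : ν' e = (ν b * ν c)⁻¹ := eq_inv_of_mul_eq_one_left (by rw [← mul_assoc, Q.f3])
    have e2 : ν h = ((ν d)⁻¹ * ν c)⁻¹ := eq_inv_of_mul_eq_one_right Q.f2
    have e3 : ν b = (ν d * ν a)⁻¹ := eq_inv_of_mul_eq_one_right Q.f1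
    rw [Q.rv', e1, e2, e3]
    group
  · rw [Q.rv] at h1 ⊢
    have := Q.c1 (k * (ν d)⁻¹) (by rwa [inv_mul_cancel_right]) h1
    rw [inv_mul_cancel_right] at this
    exact this.symm
  · rw [Q.rv] at h2 ⊢
    have := Q.c2 (k * (ν d)⁻¹) h2 (by rwa [inv_mul_cancel_right])
    rw [inv_mul_cancel_right] at this
    exact this.symm

/-- First return to the darts off the edge of `d`. -/
def Pass (n : Nx E) (ν : Dr E → H) (s : H → Prop) (d : Dr E) (p q : H × Dr E) : Prop :=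
  (SA n ν s p q ∧ q.2.1 ≠ d.1) ∨ ∃ m, m.2.1 = d.1 ∧ SA n ν s p m ∧ SA n ν s m q

theorem QL.pass_ab (Q : QL n n' ν ν' s d e a b c h) (k : H) (q : H × Dr E) :
    (Pass n ν s d (k * ν d, a) q → TransGen (SA n' ν' s) (k * ν d, a) q) ∧
      (Pass n ν s d (k * ν d * ν a, b) q → TransGen (SA n' ν' s) (k * ν d * ν a, b) q) := by
  have e1 : ν' e = (ν b * ν c)⁻¹ := eq_inv_of_mul_eq_one_left (by rw [← mul_assoc, Q.f3])
  have e2 : ν h = ((ν d)⁻¹ * ν c)⁻¹ := eq_inv_of_mul_eq_one_right Q.f2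
  have e3 : ν b = (ν d * ν a)⁻¹ := eq_inv_of_mul_eq_one_right Q.f1
  have q0 := Q.q
  have c1 := Q.c1 k
  have c2 := Q.c2 k
  have la := Q.out a q0.ha
  have lb := Q.out b q0.hb
  have lc := Q.out c q0.hc
  have lh := Q.out h q0.hh
  have rb : k * ν d * ν a * ν b = k := by rw [e3]; group
  have rd : k * ν d * ν (rev d) = k := by rw [Q.rv]; group
  have re : k * ν c * ν' e = k * ν d * ν a := by rw [e1, e3]; group
  have re' : k * ν d * ν a * ν' (rev e) = k * ν c := by rw [Q.rv', e1, e3]; group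
  have rh : k * ν c * ν' h = k * ν d := by rw [lh, e2]; group
  have o1 := sa_iff (s := s) q0.n2 q0.n3 (rfl : k * ν d * ν a = _) rb
  have o2 := sa_iff (s := s) q0.n3 q0.n1 rb (rfl : k * ν d = _)
  have o3 := sa_iff (s := s) q0.n4 q0.n5 rd (rfl : k * ν c = _)
  have m1 := sa_iff (s := s) q0.m6 q0.m4 (by rw [la] : k * ν d * ν' a = k * ν d * ν a) re'
  have m2 := sa_iff (s := s) q0.m2 q0.m3 (by rw [lb, rb] : k * ν d * ν a * ν' b = k)
    (by rw [lc] : k * ν' c = k * ν c)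
  have m3 := sa_iff (s := s) q0.m1 q0.m2 re (by rw [lb, rb] : k * ν d * ν a * ν' b = k)
  have m4 := sa_iff (s := s) q0.m4 q0.m5 re' rh
  rw [rev_rev] at m1
  generalize k * ν d * ν a = R, k * ν d = Q', k * ν c = S at *
  constructor
  · rintro (⟨h1, h2⟩ | ⟨m, h0, h1, h2⟩)
    · obtain ⟨sq, sr, ⟨sp, rfl⟩ | ⟨sp, rfl⟩⟩ := (o1 _).1 h1
      · have ss : ¬ s S := fun ss => (c1 sr ss).elim sp sq
        exact (TransGen.single ((m1 _).2 ⟨sq, sr, Or.inl ⟨ss, rfl⟩⟩)).tail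
          ((m3 _).2 ⟨ss, sr, Or.inl ⟨sp, rfl⟩⟩)
      · exact absurd rfl h2
    · obtain ⟨sq, sr, ⟨sp, rfl⟩ | ⟨sp, rfl⟩⟩ := (o1 _).1 h1
      · exact absurd h0 q0.hb
      · obtain ⟨-, -, ⟨ss, rfl⟩ | ⟨ss, rfl⟩⟩ := (o3 _).1 h2
        · exact (TransGen.single ((m1 _).2 ⟨sq, sr, Or.inl ⟨ss, rfl⟩⟩)).tail
            ((m3 _).2 ⟨ss, sr, Or.inr ⟨sp, rfl⟩⟩)
        · exact TransGen.single ((m1 _).2 ⟨sq, sr, Or.inr ⟨ss, rfl⟩⟩)
  · rintro (⟨h1, h2⟩ | ⟨m, h0, h1, h2⟩)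
    · obtain ⟨sr, sp, ⟨sq, rfl⟩ | ⟨sq, rfl⟩⟩ := (o2 _).1 h1
      · exact absurd rfl h2
      · have ss : s S := (c2 sp sq).resolve_left sr
        exact (TransGen.single ((m2 _).2 ⟨sr, sp, Or.inr ⟨ss, rfl⟩⟩)).tail
          ((m4 _).2 ⟨sr, ss, Or.inr ⟨sq, rfl⟩⟩)
    · obtain ⟨sr, sp, ⟨sq, rfl⟩ | ⟨sq, rfl⟩⟩ := (o2 _).1 h1
      · obtain ⟨-, -, ⟨ss, rfl⟩ | ⟨ss, rfl⟩⟩ := (o3 _).1 h2
        · exact TransGen.single ((m2 _).2 ⟨sr, sp, Or.inl ⟨ss, rfl⟩⟩)
        · exact (TransGen.single ((m2 _).2 ⟨sr, sp, Or.inr ⟨ss, rfl⟩⟩)).tail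
            ((m4 _).2 ⟨sr, ss, Or.inl ⟨sq, rfl⟩⟩)
      · exact absurd h0 q0.ha

theorem QL.pass (Q : QL n n' ν ν' s d e a b c h) {p q : H × Dr E} (hp : p.2.1 ≠ d.1)
    (hq : Pass n ν s d p q) : TransGen (SA n' ν' s) p q := by
  obtain ⟨k, x⟩ := p
  by_cases h1 : x = a
  · have := (Q.pass_ab (k * (ν d)⁻¹) q).1
    rw [inv_mul_cancel_right] at this
    exact h1 ▸ this (h1 ▸ hq)
  by_cases h2 : x = b
  · have := (Q.pass_ab (k * (ν a)⁻¹ * (ν d)⁻¹) q).2
    rw [inv_mul_cancel_right, inv_mul_cancel_right] at this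
    exact h2 ▸ this (h2 ▸ hq)
  by_cases h3 : x = c
  · have := (Q.rot.pass_ab (k * (ν (rev d))⁻¹) q).1
    rw [inv_mul_cancel_right] at this
    exact h3 ▸ this (h3 ▸ hq)
  by_cases h4 : x = h
  · have := (Q.rot.pass_ab (k * (ν c)⁻¹ * (ν (rev d))⁻¹) q).2
    rw [inv_mul_cancel_right, inv_mul_cancel_right] at this
    exact h4 ▸ this (h4 ▸ hq)
  obtain ⟨g0, g1, g2, g3, g4⟩ := Q.q.off hp h1 h2 h3 h4
  have g5 := (Q.q.off g0 g1 g2 g3 g4).1
  rcases hq with ⟨hq, -⟩ | ⟨m, h0, hq, -⟩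
  · refine TransGen.single ?_
    simpa only [SA, Q.q.out x hp h1 h2 h3 h4, Q.q.out _ g0 g1 g2 g3 g4, Q.out x hp, Q.out _ g0]
      using hq
  · obtain ⟨-, -, ⟨-, rfl⟩ | ⟨-, rfl⟩⟩ := hq
    · exact absurd h0 g0
    · exact absurd h0 g5

theorem sa_off (q0 : Qd n n' d e a b c h) {p q : H × Dr E} (hp : p.2.1 = d.1)
    (hs : SA n ν s p q) : q.2.1 ≠ d.1 := by
  obtain ⟨-, -, ⟨-, rfl⟩ | ⟨-, rfl⟩⟩ := hs <;> rcases DF.eq_or_rev hp with e | e <;>
    simp only [e, rev_fst, q0.n1, q0.n2, q0.n4, q0.n5]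
  exacts [q0.ha, q0.hc, q0.hb, q0.hh]

theorem QL.chain (Q : QL n n' ν ν' s d e a b c h) {p q : H × Dr E} (hp : p.2.1 ≠ d.1)
    (hq : TransGen (SA n ν s) p q) : (q.2.1 ≠ d.1 → TransGen (SA n' ν' s) p q) ∧
      (q.2.1 = d.1 → ∃ r, r.2.1 ≠ d.1 ∧ ReflTransGen (SA n' ν' s) p r ∧ SA n ν s r q) := by
  induction hq with
  | single hs => exact ⟨fun h0 => Q.pass hp (Or.inl ⟨hs, h0⟩), fun _ => ⟨p, hp, .refl, hs⟩⟩
  | @tail m q _ hs ih =>
    by_cases hm : m.2.1 = d.1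
    · obtain ⟨r, hr, h1, h2⟩ := ih.2 hm
      exact ⟨fun _ => TransGen.trans_right h1 (Q.pass hr (Or.inr ⟨m, hm, h2, hs⟩)),
        fun h0 => absurd h0 (sa_off Q.q hm hs)⟩
    · exact ⟨fun h0 => (ih.1 hm).trans (Q.pass hm (Or.inl ⟨hs, h0⟩)),
        fun _ => ⟨m, hm, (ih.1 hm).to_reflTransGen, hs⟩⟩

theorem QL.strip (Q : QL n n' ν ν' s d e a b c h) {A : H} (hA : ∀ k, s (A * k) ↔ s k)
    (hs : ∃ k x, TransGen (SA n ν s) (k, x) (A * k, x)) :
    ∃ k x, TransGen (SA n' ν' s) (k, x) (A * k, x) := by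
  obtain ⟨k, x, hs⟩ := hs
  by_cases hx : x.1 = d.1
  · obtain ⟨m, h1, h2⟩ := TransGen.head'_iff.1 hs
    have hm := sa_off Q.q hx h1
    exact ⟨m.1, m.2, (Q.chain hm (TransGen.tail' h2 (h1.mul hA))).1 hm⟩
  · exact ⟨k, x, (Q.chain hx hs).1 hx⟩

theorem SA.rlb {σ : Nx E} (hσ : Rlb σ n n') (hν : ∀ x, ν' (σ x) = ν x) {p q : H × Dr E}
    (hs : SA n ν s p q) : SA n' ν' s (p.1, σ p.2) (q.1, σ q.2) := by
  obtain ⟨h1, h2, h3⟩ := hs
  refine ⟨h1, by rwa [hν], ?_⟩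
  simp only [← hσ.nx, hν, ← hσ.rv]
  rcases h3 with ⟨h3, rfl⟩ | ⟨h3, rfl⟩
  exacts [Or.inl ⟨h3, rfl⟩, Or.inr ⟨h3, rfl⟩]

end abstract

/-! The geometric strips -/

/-- The subgroup `±1`. -/
def Sg : Subgroup G where
  carrier := {x | PM x 1}
  one_mem' := PM.refl 1
  mul_mem' := fun ha hb => by simpa using PM.mul ha hb
  inv_mem' := fun ha => by simpa using PM.inv ha

instance : Sg.Normal := ⟨fun a ha c => show PM _ 1 by
  simpa only [mul_one, mul_inv_cancel] using ((PM.refl c).mul (ha : PM a 1)).mul (PM.refl c⁻¹)⟩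

/-- The projection to the projective group. -/
def pq : G →* G ⧸ Sg := QuotientGroup.mk' Sg

theorem pq_eq {x y : G} : pq x = pq y ↔ PM x y := by
  refine QuotientGroup.eq.trans ⟨fun h => ?_, fun h => ?_⟩
  · simpa using ((PM.refl x).mul (h : PM (x⁻¹ * y) 1)).symm
  · exact show PM _ 1 by simpa using h.inv.mul (PM.refl y)

/-- The sign of `f` on the orbit of `z`. -/
def sg (z : ℍ) (f : ℍ → ℝ) (k : G ⧸ Sg) : Prop := ∃ k', pq k' = k ∧ 0 < f (k' • z)

theorem sg_pq {z : ℍ} {f : ℍ → ℝ} {k : G} : sg z f (pq k) ↔ 0 < f (k • z) :=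
  ⟨fun ⟨_, h, h'⟩ => (pq_eq.1 h).smul_eq z ▸ h', fun h => ⟨k, rfl, h⟩⟩

variable {n n' : Nx E} {L L' : E → G} {z : ℍ} {f : ℍ → ℝ} {A : G}

theorem stp_iff {p q : G × Dr E} : Stp n L z f p q ↔
    SA n (fun x => pq (dlab L x)) (sg z f) (pq p.1, p.2) (pq q.1, q.2) := by
  simp only [Stp, SA, ← map_mul, sg_pq, not_lt, Prod.mk.injEq, pq_eq, vQ, vR, mul_smul, and_comm]

theorem strip_iff : Strip n L z f A ↔ ∃ k x,
    TransGen (SA n (fun x => pq (dlab L x)) (sg z f)) (k, x) (pq A * k, x) := by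
  have sj : ∀ k, ∃ k', pq k' = k := QuotientGroup.mk'_surjective Sg
  refine ⟨fun ⟨k, x, h⟩ => ⟨pq k, x, ?_⟩, fun ⟨k, x, h⟩ => ?_⟩
  · rw [← map_mul]
    exact h.lift (fun p : G × Dr E => (pq p.1, p.2)) fun _ _ => stp_iff.1
  · obtain ⟨k, rfl⟩ := sj k
    have : ∀ q, TransGen (SA n (fun x => pq (dlab L x)) (sg z f)) (pq k, x) q →
        ∀ q' : G × Dr E, (pq q'.1, q'.2) = q → TransGen (Stp n L z f) (k, x) q' := by
      intro q hq
      induction hq with
      | single hs => exact fun q' e => .single (stp_iff.2 (e ▸ hs))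
      | @tail m q _ hs ih =>
        obtain ⟨m1, m2⟩ := m
        obtain ⟨m1, rfl⟩ := sj m1
        exact fun q' e => (ih (m1, m2) rfl).tail (stp_iff.2 (e ▸ hs))
    exact ⟨k, x, this _ h _ (by rw [map_mul])⟩

theorem flat_pq (h : Flat n L) (x : Dr E) :
    pq (dlab L x) * pq (dlab L (n x)) * pq (dlab L (n (n x))) = 1 := by
  rw [← map_mul, ← map_mul, ← map_one pq]
  exact pq_eq.2 (h x)

theorem ql_of {d e a b c h : Dr E} (q : Qd n n' d e a b c h)
    (hL : ∀ x, x.1 ≠ d.1 → dlab L' x = dlab L x) (h1 : Gs n L z) (h2 : Gs n' L' z) (hf : Lin f) :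
    QL n n' (fun x => pq (dlab L x)) (fun x => pq (dlab L' x)) (sg z f) d e a b c h := by
  have sj : ∀ k, ∃ k', pq k' = k := QuotientGroup.mk'_surjective Sg
  have key : ∀ k : G, ∃ D D' X Y : ℝ, 0 < D ∧ 0 < D' ∧ 0 < X ∧ 0 < Y ∧
      D * f ((k * dlab L c) • z) + D' * f ((k * dlab L d * dlab L a) • z) =
        X * f (k • z) + Y * f ((k * dlab L d) • z) := fun k => by
    refine ⟨_, _, _, _, ?_, ?_, ?_, ?_, hf _ _ _ _⟩ <;> simp only [mul_smul, hD_smul]
    · simpa only [fD, vQ, vR, q.n1, mul_smul] using h1.pos d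
    · simpa only [vQ, vS, q.n4] using pos_rev h1.pos d
    · have k1 := h2.pos a
      have k2 := Flat.act h2.flat a ((dlab L h)⁻¹ • z)
      have k3 := Flat.act h1.flat (rev d) ((dlab L h)⁻¹ • z)
      rw [q.m6, q.m4, hL a q.ha, hL h q.hh, smul_inv_smul] at k2
      rw [q.n4, q.n5, smul_inv_smul, dlab_rev, inv_smul_eq_iff] at k3
      rw [fD, vQ, vR, q.m6, hL a q.ha, mul_smul, k2, ← hD_smul (dlab L d), ← k3] at k1
      rwa [hD_cyc]
    · have k1 := h2.pos b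
      have k2 := Flat.act h1.flat d
      rw [q.n1, q.n2] at k2
      rw [fD, vQ, vR, q.m2, hL b q.hb, hL c q.hc, mul_smul, ← hD_smul (dlab L a),
        ← hD_smul (dlab L d), k2, k2] at k1
      rwa [← hD_cyc]
  refine ⟨q, by rw [dlab_rev, map_inv], by rw [dlab_rev, map_inv], fun x hx => by rw [hL x hx],
    ?_, ?_, ?_, fun k => ?_, fun k => ?_⟩
  · simpa only [q.n1, q.n2] using flat_pq h1.flat d
  · simpa only [q.n4, q.n5, dlab_rev, map_inv] using flat_pq h1.flat (rev d)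
  · simpa only [q.m1, q.m2, hL b q.hb, hL c q.hc] using flat_pq h2.flat e
  all_goals
    obtain ⟨k, rfl⟩ := sj k
    obtain ⟨D, D', X, Y, p1, p2, p3, p4, e⟩ := key k
    simp only [← map_mul, sg_pq]
    intro s1 s2
    by_contra hn
    push Not at hn
    first
      | linarith [mul_pos p1 s2, mul_pos p2 s1, mul_nonneg p3.le (neg_nonneg.2 hn.1),
          mul_nonneg p4.le (neg_nonneg.2 hn.2)]
      | linarith [mul_pos p3 s1, mul_pos p4 s2, mul_nonneg p2.le (neg_nonneg.2 hn.1),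
          mul_nonneg p1.le (neg_nonneg.2 hn.2)]

theorem sg_inv (hA : ∀ w, f (A • w) = f w) (k : G ⧸ Sg) : sg z f (pq A * k) ↔ sg z f k := by
  obtain ⟨k, rfl⟩ : ∃ k', pq k' = k := QuotientGroup.mk'_surjective Sg k
  rw [← map_mul, sg_pq, sg_pq, mul_smul, hA]

theorem strip_flip [DecidableEq E] (hf : Lin f) (hA : ∀ w, f (A • w) = f w) {d : Dr E}
    (h1 : Gs n L z) (h2 : Gs (fnx n d) (flb n L d) z) :
    Strip n L z f A ↔ Strip (fnx n d) (flb n L d) z f A := by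
  have q := Gs.qd h1 d
  rw [strip_iff, strip_iff]
  exact ⟨(ql_of q (fun x hx => dlab_flb_ne n L hx) h1 h2 hf).strip (sg_inv hA),
    (ql_of q.symm (fun x hx => (dlab_flb_ne n L hx).symm) h2 h1 hf).strip (sg_inv hA)⟩

theorem strip_rlb {σ : Nx E} (hσ : Rlb σ n n') (hL : ∀ x, PM (dlab L x) (dlab L' (σ x)))
    (h : Strip n L z f A) : Strip n' L' z f A := by
  rw [strip_iff] at h ⊢
  obtain ⟨k, x, h⟩ := h
  exact ⟨k, σ x, h.lift (fun p => (p.1, σ p.2)) fun _ _ =>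
    SA.rlb hσ fun x => (pq_eq.2 (hL x)).symm⟩

theorem strip_iso {M : Tup g} (hM : Fm M) {τ τ' : MS g} (h : Iso τ τ')
    (hs : Strip τ.1 (geo M τ.2) z f A) : Strip τ'.1 (geo M τ'.2) z f A := by
  obtain ⟨σ, hσ, hl⟩ := h
  refine strip_rlb hσ (fun x => ?_) hs
  have := (PM.refl (FreeGroup.lift M (dlab τ.2 x))).mul (pm_of_mem hM (hl x))
  rw [dlab_geo, dlab_geo]
  simpa only [mul_one, map_mul, map_inv, mul_inv_cancel_left] using this.symm

/-- Strips are invariants of the branched structure. -/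
theorem strip_eqv (hT : TAx g) {M : Tup g} (hM : Fm M) (hf : Lin f) (hA : ∀ w, f (A • w) = f w)
    {τ τ' : MS g} (h : Eqv M z τ τ') :
    Strip τ.1 (geo M τ.2) z f A ↔ Strip τ'.1 (geo M τ'.2) z f A := by
  induction h with
  | rel _ _ h =>
    have k := mv_ok hT hM h
    cases h with
    | iso h1 h2 h3 => exact ⟨strip_iso hM h3, strip_iso hM (Iso.symm h3)⟩
    | flip d h1 h2 h3 =>
      have := gs_of hT hM k.2.1 k.2.2
      simp only [flip, geo_flb] at this ⊢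
      exact strip_flip hf hA (gs_of hT hM h1 h2) this
  | refl => rfl
  | symm _ _ _ ih => exact ih.symm
  | trans _ _ _ _ _ i1 i2 => exact i1.trans i2

end Pool.Agent.MP_596265_gt.U.T2

end

section

/-! Strips along the axis of a short hyperbolic element: definitions and statements. -/

namespace Pool.Agent.MP_596265_gt.U.Sp

open Erg Real UpperHalfPlane Set

noncomputable section

variable {E : Type}

/-- Linear on the hyperboloid. -/
def Lin (f : ℍ → ℝ) : Prop :=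
  ∀ p q r s, hD p q r * f s + hD q p s * f r = hD r s q * f p + hD s r p * f q

/-- From a lifted dart that crosses from `f ≤ 0` to `0 < f` to the next one. -/
def Stp (n : Nx E) (L : E → G) (z : ℍ) (f : ℍ → ℝ) (p q : G × Dr E) : Prop :=
  f (p.1 • z) ≤ 0 ∧ 0 < f (p.1 • vQ L z p.2) ∧
    ((f (p.1 • vR n L z p.2) ≤ 0 ∧ q.2 = rev (n p.2) ∧
        PM q.1 (p.1 * dlab L p.2 * dlab L (n p.2))) ∨
      (0 < f (p.1 • vR n L z p.2) ∧ q.2 = rev (n (n p.2)) ∧ PM q.1 p.1))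

/-- A strip with holonomy `A`. -/
def Strip (n : Nx E) (L : E → G) (z : ℍ) (f : ℍ → ℝ) (A : G) : Prop :=
  ∃ k x, Relation.TransGen (Stp n L z f) (k, x) (A * k, x)

/-- The invariant functional of `A`. -/
def Lam (A : G) (w : ℍ) : ℝ :=
  (A 0 1 + (A 0 0 - A 1 1) * w.re - A 1 0 * (w.re ^ 2 + w.im ^ 2)) / w.im

/-- Length of an edge. -/
def ln (L : E → G) (z : ℍ) (d : Dr E) : ℝ := dist z (vQ L z d)

/-- Row LAM. -/
def LAM_s : Prop := (∀ A, Lin (Lam A)) ∧ (∀ (k A : G) (w : ℍ), Lam (k * A * k⁻¹) (k • w) = Lam A w) ∧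
  (∀ (A : G) (w : ℍ), 2 * ch w (A • w) = tr A ^ 2 - 2 + Lam A w ^ 2) ∧
  ∀ (A : G) (v w : ℍ), Lam A v * Lam A w ≤ 0 →
    tr A ^ 2 - 4 + Lam A v ^ 2 ≤ (tr A ^ 2 - 4) * ch v w ^ 2

/-- Row LEAF: no strips of short elements on a leaf with a lower bound. -/
def LEAF_s : Prop := ∀ {g : ℕ} {M : Tup g} {z : ℍ} {τ : MS g} {η : ℝ}, TAx g → DAx g → Fm M →
  MT τ → Ps M z τ → 0 < η →
  (∀ z' τ', Lf M (z, τ) (z', τ') → Dl M z' τ' → ∀ d, η ≤ dist z' (vQ (geo M τ'.2) z' d)) →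
  ∃ ε > 0, ∀ A z' τ', 2 < tr A → tr A ≤ 2 + ε → Lf M (z, τ) (z', τ') →
    ¬ Strip τ'.1 (geo M τ'.2) z' (Lam A) A

/-- Entries of a step about the left vertex. -/
structure EA (c ε x x' : ℝ) (T : G) : Prop where
  a : |T 0 0 - 1| ≤ ε
  b : |T 0 1| ≤ ε
  c0 : |T 1 0| ≤ ε
  d : |T 1 1 - 1| ≤ ε
  c1 : T 1 0 * exp x ≤ -c
  c2 : T 1 0 * exp x' ≤ -c

/-- Entries of a step about the right vertex. -/
structure EB (c C ε x x' : ℝ) (T : G) : Prop where
  a : |T 0 0 - 1| ≤ ε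
  b1 : -C ≤ T 0 1
  b2 : T 0 1 ≤ -c
  c0 : |T 1 0| ≤ ε
  d : |T 1 1 - 1| ≤ ε
  c1 : |T 1 0| * exp x ^ 2 ≤ C
  x2 : exp x ≤ 2 * exp x'

/-- Row ENT. -/
def ENT_s : Prop := ∀ η > 0, ∀ B : ℝ, ∃ c > 0, ∃ C, ∀ ε > 0, ∃ Λ, ∀ x ≥ Λ, ∀ x' ≥ Λ, ∀ T : G,
  (T • I = I → 0 < hD I (dia x • I) (T • dia x' • I) → 0 ≤ hH I (dia x • I) (T • dia x' • I) →
    η ≤ dist (dia x • I) (T • dia x' • I) → ∃ T', PM T' T ∧ EA c ε x x' T') ∧
  (T • dia x' • I = dia x • I → 0 < hD I (dia x • I) (T • I) → 0 ≤ hH I (dia x • I) (T • I) →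
    η ≤ dist I (T • I) → dist I (T • I) ≤ B → ∃ T', PM T' T ∧ EB c C ε x x' T')

/-- Partial products. -/
def pr (T : ℕ → G) : ℕ → G
  | 0 => 1
  | k + 1 => pr T k * T k

/-- Row MAT. -/
def MAT_s : Prop := ∀ c > 0, ∀ (C : ℝ) (N : ℕ), ∀ ε' > 0, ∃ ε > 0, ∃ Λ, ∀ m ≤ N,
  ∀ (x : ℕ → ℝ) (T : ℕ → G), (∀ i ≤ m, Λ ≤ x i) →
    (∀ i < m, EA c ε (x i) (x (i + 1)) (T i) ∨ EB c C ε (x i) (x (i + 1)) (T i)) →
    (∃ i < m, EB c C ε (x i) (x (i + 1)) (T i)) →
    |tr (pr T m) - 2| ≤ ε' ∧ Lam (pr T m) I < 0 ∧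
      (EA c ε (x 0) (x 1) (T 0) → 2 < tr (pr T m) ∧ 0 < Lam (pr T m) (dia (x 0) • I))

/-- Row MOUTH: a gap in the lengths of the edges gives a strip. -/
def MOUTH_s : Prop := ∀ η > 0, ∀ (B : ℝ) (N : ℕ), ∀ ε > 0, ∃ B' > B,
  ∀ {E : Type} [Fintype E] {n : Nx E} {L : E → G} {z : ℍ}, Fintype.card (Dr E) ≤ N → Gs n L z →
    (∀ d, 0 ≤ hH z (vQ L z d) (vR n L z d)) → (∀ d, η ≤ ln L z d) →
    (∀ d, ln L z d ≤ B ∨ B' ≤ ln L z d) → (∃ d, ln L z d ≤ B) → (∃ d, B' ≤ ln L z d) →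
    ∃ A, 2 < tr A ∧ tr A ≤ 2 + ε ∧ Strip n L z (Lam A) A

/-- The upper bound on a leaf; row FIN proves it from `LEAF_s` and `MOUTH_s`. -/
def T2_s : Prop := ∀ {g : ℕ} {e : ℤ} {M : Tup g} {z : ℍ} {τ : MS g} {η : ℝ}, TAx g → DAx g →
  2 ≤ g → e ≤ 2 * g - 2 → M ∈ X g e → 0 < η → MT τ → Ps M z τ →
  (∀ z' τ', Lf M (z, τ) (z', τ') → Dl M z' τ' → ∀ d, η ≤ dist z' (vQ (geo M τ'.2) z' d)) →
  ∃ R, ∀ z' τ', Lf M (z, τ) (z', τ') → Dl M z' τ' → ∀ d, dist z' (vQ (geo M τ'.2) z' d) ≤ R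

end

end Pool.Agent.MP_596265_gt.U.Sp

end

section

/-! Strips: the static bound and invariance along a leaf. -/

namespace Pool.Agent.MP_596265_gt.U.T2

open Erg Real UpperHalfPlane Set Filter Topology DF

noncomputable section

variable {E : Type} {f : ℍ → ℝ} {A : G} {σ κ : ℝ}

theorem gram0 (α β γ : ℝ) (a w : ℍ) :
    ((α * (a.re ^ 2 + a.im ^ 2) + β * a.re + γ) / a.im) ^ 2 +
      ((α * (w.re ^ 2 + w.im ^ 2) + β * w.re + γ) / w.im) ^ 2 -
      2 * ch a w * ((α * (a.re ^ 2 + a.im ^ 2) + β * a.re + γ) / a.im) *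
        ((α * (w.re ^ 2 + w.im ^ 2) + β * w.re + γ) / w.im) ≤
      (ch a w ^ 2 - 1) * (β ^ 2 - 4 * α * γ) := by
  have := a.im_pos.ne'
  have := w.im_pos.ne'
  rw [← sub_nonneg]
  refine le_of_le_of_eq (sq_nonneg (((a.re ^ 2 + a.im ^ 2) * (2 * α * w.re + β) -
    a.re * (2 * α * (w.re ^ 2 + w.im ^ 2) - 2 * γ) -
    (β * (w.re ^ 2 + w.im ^ 2) + 2 * γ * w.re)) / (2 * a.im * w.im))) ?_
  simp only [ch, cosh_dist_Φ, Φ]
  field_simp
  ring

theorem ax_lam (A : G) : Ax (lam A) A (tr A ^ 2 - 4) := by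
  have hd := basic_det A
  refine ⟨fun p q r s => ?_, fun w => ?_, fun w => ?_, fun a w => ?_⟩
  · have := p.im_pos.ne'
    have := q.im_pos.ne'
    have := r.im_pos.ne'
    have := s.im_pos.ne'
    simp only [hD, hdet, det3, Φ, lam]
    field_simp
    ring
  · have := w.im_pos.ne'
    have h0 := (ha_D_pos A w).ne'
    have e : (A • w).re ^ 2 + (A • w).im ^ 2 = _ := ha_snd A w
    rw [lam, lam, e, ha_re, ha_im]
    field_simp
    simp only [ha_D, Φ]
    linear_combination (A 1 0 * (w.re ^ 2 + w.im ^ 2) + (A 1 1 - A 0 0) * w.re - A 0 1) * hd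
  · have := w.im_pos.ne'
    have h0 := (ha_D_pos A w).ne'
    rw [ch, cosh_dist_Φ, ha_snd, ha_re, ha_im, lam, tr]
    field_simp
    simp only [ha_D, Φ]
    linear_combination (-2 * w.im ^ 2) * hd
  · have := gram0 (A 1 0) (A 1 1 - A 0 0) (-A 0 1) a w
    rw [show tr A ^ 2 - 4 = (A 1 1 - A 0 0) ^ 2 - 4 * A 1 0 * -A 0 1 by
      rw [tr]; linear_combination 4 * hd]
    simpa only [lam, sub_eq_add_neg] using this

theorem Ax.neg (h : Ax f A σ) : Ax (fun w => -f w) A σ :=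
  ⟨fun p q r s => by have := h.lin p q r s; linarith, fun w => by rw [h.inv],
    fun w => by rw [h.dis, neg_sq], fun a w => by have := h.gram a w; linarith⟩

theorem Ax.opp (h : Ax f A σ) {a w : ℍ} (hs : f a * f w ≤ 0) : f a ^ 2 ≤ (ch a w ^ 2 - 1) * σ := by
  have := h.gram a w
  linarith only [sq_nonneg (f w), mul_nonneg (zero_le_one.trans (one_le_ch a w)) (neg_nonneg.2 hs), this]

theorem hD_swap (p q r : ℍ) : hD q p r = -hD p q r := by
  simp only [hD, hdet, det3]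
  ring

theorem hD_opp {p q a w : ℍ} (ha : hD p q a < 0) (hw : 0 ≤ hD p q w) :
    hD p q a ^ 2 ≤ (ch a w ^ 2 - 1) * (4 * (ch p q ^ 2 - 1)) := by
  have := p.im_pos.ne'
  have := q.im_pos.ne'
  have e : ∀ v : ℍ, hD p q v = ((q.re - p.re) / (p.im * q.im) * (v.re ^ 2 + v.im ^ 2) +
      ((Φ p).2 - (Φ q).2) / (p.im * q.im) * v.re +
      ((Φ q).2 * p.re - (Φ p).2 * q.re) / (p.im * q.im)) / v.im := fun v => by
    have := v.im_pos.ne'
    simp only [hD, hdet, det3, Φ]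
    field_simp
    ring
  have h := gram0 ((q.re - p.re) / (p.im * q.im)) (((Φ p).2 - (Φ q).2) / (p.im * q.im))
    (((Φ q).2 * p.re - (Φ p).2 * q.re) / (p.im * q.im)) a w
  rw [← e, ← e, show (((Φ p).2 - (Φ q).2) / (p.im * q.im)) ^ 2 - 4 * ((q.re - p.re) /
      (p.im * q.im)) * (((Φ q).2 * p.re - (Φ p).2 * q.re) / (p.im * q.im)) =
      4 * (ch p q ^ 2 - 1) by
    simp only [ch, cosh_dist_Φ, Φ]
    field_simp
    ring] at h
  linarith only [sq_nonneg (hD p q w), mul_nonneg (zero_le_one.trans (one_le_ch a w))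
    (mul_nonneg (neg_nonneg.2 ha.le) hw), h]

/-- A positive triangle with two heights bounded below. -/
def Fat (κ : ℝ) (p q r : ℍ) : Prop :=
  0 < hD p q r ∧ κ * (ch r q ^ 2 - 1) < hD p q r ^ 2 ∧ κ * (ch p r ^ 2 - 1) < hD p q r ^ 2

theorem Fat.smul {p q r : ℍ} (h : Fat κ p q r) (k : G) : Fat κ (k • p) (k • q) (k • r) := by
  simpa only [Fat, hD_smul, ch, dist_smul] using h

theorem far (hf : Ax f A σ) (hσ : 0 < σ) {p q a : ℍ} (ha : hD p q a < 0)
    (hw : 0 ≤ hD p q (A • a)) (h : κ * (ch p q ^ 2 - 1) < hD p q a ^ 2) :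
    min 1 (κ / 5) ≤ σ + f a ^ 2 := by
  have h1 := h.trans_le (hD_opp ha hw)
  have h2 : 0 ≤ ch p q ^ 2 - 1 := by nlinarith only [one_le_ch p q]
  have h3 : κ < 4 * (ch a (A • a) ^ 2 - 1) := by
    by_contra hc
    nlinarith only [h1, h2, hc]
  have h4 := hf.dis a
  have h5 : 0 < σ + f a ^ 2 := by positivity
  rcases le_total 1 (σ + f a ^ 2) with k | k
  · exact (min_le_left _ _).trans k
  · refine (min_le_right _ _).trans ?_
    rw [show ch a (A • a) = 1 + (σ + f a ^ 2) / 2 by linarith only [h4]] at h3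
    nlinarith only [hσ, h3, k]

theorem cross1 (hf : Lin f) {p q r w : ℍ} (h0 : 0 < hD p q r) (hp : f p ≤ 0) (hq : 0 < f q)
    (hr : f r ≤ 0) (hw : f w ≤ f q) (h : hD p q w < 0) : hD r q w < 0 := by
  by_contra hc
  have h1 := not_lt.1 hc
  have c1 := cramer p q r w q
  have c2 := hf p q r w
  rw [hD_swap p q w, hD_cyc q r w, hD_swap r q w] at c1 c2
  rw [ch_self] at c1
  have g : hD p q r < hD w r p := by
    linarith only [mul_le_mul_of_nonneg_left (one_le_ch w q) h0.le, mul_le_mul_of_nonneg_left (one_le_ch r q) (neg_nonneg.2 h.le), mul_nonneg h1 (zero_le_one.trans (one_le_ch p q)), h, c1]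
  linarith only [mul_lt_mul_of_pos_right g hq, mul_le_mul_of_nonneg_left hw h0.le, mul_nonneg h1 (neg_nonneg.2 hp), mul_nonneg (neg_nonneg.2 h.le) (neg_nonneg.2 hr), c2]

theorem cross2 (hf : Lin f) {p q r w : ℍ} (h0 : 0 < hD p q r) (hp : f p ≤ 0) (hq : 0 < f q)
    (hr : 0 < f r) (hw : f p ≤ f w) (h : hD p q w < 0) : hD p r w < 0 := by
  by_contra hc
  have h1 := not_lt.1 hc
  have c1 := cramer p q r w p
  have c2 := hf p q r w
  rw [hD_swap p q w, ← hD_cyc w r p, hD_swap p r w] at c1 c2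
  rw [ch_self] at c1
  have g : hD p q r < hD r w q := by
    linarith only [mul_le_mul_of_nonneg_left (one_le_ch w p) h0.le, mul_le_mul_of_nonneg_left (one_le_ch r p) (neg_nonneg.2 h.le), mul_nonneg h1 (zero_le_one.trans (one_le_ch q p)), h, c1]
  linarith only [mul_le_mul_of_nonneg_right g.le (neg_nonneg.2 hp), mul_le_mul_of_nonneg_left hw h0.le, mul_nonneg h1 hq.le, mul_pos (neg_pos.2 h) hr, c2]

/-- A periodic strip of points. -/
structure Seq (f : ℍ → ℝ) (A : G) (κ : ℝ) (m : ℕ) (P Q R : ℕ → ℍ) : Prop where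
  m0 : 0 < m
  hP : ∀ i, f (P i) ≤ 0
  hQ : ∀ i, 0 < f (Q i)
  fat : ∀ i, Fat κ (P i) (Q i) (R i)
  st : ∀ i, (f (R i) ≤ 0 ∧ P (i + 1) = R i ∧ Q (i + 1) = Q i) ∨
    (0 < f (R i) ∧ P (i + 1) = P i ∧ Q (i + 1) = R i)
  pP : ∀ i, P (i + m) = A • P i
  pQ : ∀ i, Q (i + m) = A • Q i

variable {m : ℕ} {P Q R : ℕ → ℍ}

theorem Seq.stay (s : Seq f A κ m P Q R) (hf : Lin f) {w : ℍ} (h1 : ∀ i, f (P i) ≤ f w)
    (h2 : ∀ i, f w ≤ f (Q i)) {i j : ℕ} (hij : i ≤ j) (h : hD (P i) (Q i) w < 0) :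
    hD (P j) (Q j) w < 0 := by
  induction j, hij using Nat.le_induction with
  | base => exact h
  | succ j _ ih =>
    rcases s.st j with ⟨a, b, c⟩ | ⟨a, b, c⟩ <;> rw [b, c]
    · exact cross1 hf (s.fat j).1 (s.hP j) (s.hQ j) a (h2 j) ih
    · exact cross2 hf (s.fat j).1 (s.hP j) (s.hQ j) a (h1 j) ih

theorem per_min {u : ℕ → ℝ} (hm : 0 < m) (h : ∀ i, u (i + m) = u i) : ∃ j, ∀ i, u j ≤ u i := by
  obtain ⟨j, -, hj⟩ := (Finset.range m).exists_min_image u ⟨0, Finset.mem_range.2 hm⟩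
  refine ⟨j, fun i => ?_⟩
  rw [← Function.Periodic.map_mod_nat (f := u) h i]
  exact hj _ (Finset.mem_range.2 (Nat.mod_lt _ hm))

theorem last {V : ℕ → ℍ} {j : ℕ} (h : V (j + m) ≠ V j) : ∃ i, V i = V j ∧ V (i + 1) ≠ V j := by
  by_contra hc
  have : ∀ k, V (j + k) = V j := fun k => by
    induction k with
    | zero => rfl
    | succ k ih => exact not_not.1 fun e => hc ⟨j + k, ih, e⟩
  exact h (this m)

theorem Ax.ne (hf : Ax f A σ) (hσ : 0 < σ) (w : ℍ) : A • w ≠ w := fun e => by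
  have := hf.dis w
  rw [e, ch_self] at this
  linarith only [sq_nonneg (f w), hσ, this]

/-- The static bound. -/
theorem Seq.static (s : Seq f A κ m P Q R) (hf : Ax f A σ) (hσ : 0 < σ) (i : ℕ) :
    min 1 (κ / 5) ≤ σ + f (P i) ^ 2 ∧ min 1 (κ / 5) ≤ σ + f (Q i) ^ 2 := by
  constructor
  · obtain ⟨j₀, h0⟩ := per_min (u := fun i => -f (P i)) s.m0 fun i => by rw [s.pP, hf.inv]
    obtain ⟨j, e, ne⟩ := last (V := P) (j := j₀) (m := m) (s.pP j₀ ▸ hf.ne hσ _)
    rw [← e] at h0 ne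
    rcases s.st j with ⟨-, b, c⟩ | ⟨-, b, -⟩
    swap
    · exact absurd b ne
    have d : hD (R j) (Q j) (P j) = -hD (P j) (Q j) (R j) := by
      rw [← hD_cyc (R j), hD_swap]
    have k := far hf hσ (κ := κ) (p := R j) (q := Q j) (a := P j) (by linarith [(s.fat j).1])
      (not_lt.1 fun h => (s.stay hf.lin (w := A • P j)
        (fun i => by rw [hf.inv]; linarith only [h0 i])
        (fun i => by rw [hf.inv]; linarith [s.hP j, s.hQ i]) (i := j + 1) (j := j + m)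
        (Nat.add_le_add_left s.m0 j) (by rwa [b, c])).ne (by rw [s.pP, hD_self]))
      (by rw [d, neg_sq]; exact (s.fat j).2.1)
    have := h0 i
    nlinarith only [s.hP j, k, this]
  · obtain ⟨j₀, h0⟩ := per_min (u := fun i => f (Q i)) s.m0 fun i => by rw [s.pQ, hf.inv]
    obtain ⟨j, e, ne⟩ := last (V := Q) (j := j₀) (m := m) (s.pQ j₀ ▸ hf.ne hσ _)
    rw [← e] at h0 ne
    rcases s.st j with ⟨-, -, c⟩ | ⟨-, b, c⟩
    · exact absurd c ne
    have d : hD (P j) (R j) (Q j) = -hD (P j) (Q j) (R j) := by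
      rw [← hD_cyc (P j), hD_swap (Q j) (R j), hD_cyc]
    have k := far hf hσ (κ := κ) (p := P j) (q := R j) (a := Q j) (by linarith [(s.fat j).1])
      (not_lt.1 fun h => (s.stay hf.lin (w := A • Q j)
        (fun i => by rw [hf.inv]; linarith [s.hP i, s.hQ j])
        (fun i => by rw [hf.inv]; exact h0 i) (i := j + 1) (j := j + m)
        (Nat.add_le_add_left s.m0 j) (by rwa [b, c])).ne
        (by rw [s.pQ, ← hD_cyc, hD_cyc (P (j + m)), ← hD_cyc, ← hD_cyc, hD_self]))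
      (by rw [d, neg_sq]; exact (s.fat j).2.2)
    have := h0 i
    nlinarith only [s.hQ j, k, this]

theorem unroll {α : Type} {r : α → α → Prop} {t : α → α} (ht : ∀ x y, r x y → r (t x) (t y))
    {a : α} (h : Relation.TransGen r a (t a)) : ∃ m > 0, ∃ p : ℕ → α,
      (∀ i, r (p i) (p (i + 1))) ∧ ∀ i, p (i + m) = t (p i) := by
  have k : ∀ b, Relation.TransGen r a b → ∃ m > 0, ∃ p : ℕ → α, p 0 = a ∧ p m = b ∧
      ∀ i < m, r (p i) (p (i + 1)) := fun b hb => by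
    induction hb with
    | @single b h =>
      exact ⟨1, one_pos, fun i => if i = 0 then a else b, by simp, by simp, fun i hi => by
        obtain rfl : i = 0 := by omega
        simpa using h⟩
    | @tail b c _ h ih =>
      obtain ⟨m, m0, p, p0, pm, hp⟩ := ih
      refine ⟨m + 1, by omega, fun i => if i ≤ m then p i else c, by simpa using p0, by simp,
        fun i hi => ?_⟩
      rcases Nat.lt_succ_iff_lt_or_eq.1 hi with hi | rfl
      · simpa [hi.le, Nat.succ_le_of_lt hi] using hp i hi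
      · simpa [pm] using h
  obtain ⟨m, m0, p, p0, pm, hp⟩ := k _ h
  have it : ∀ n x y, r x y → r (t^[n] x) (t^[n] y) := fun n => by
    induction n with
    | zero => exact fun _ _ h => h
    | succ n ih => exact fun x y h => ih _ _ (ht x y h)
  refine ⟨m, m0, fun i => t^[i / m] (p (i % m)), fun i => ?_, fun i => ?_⟩
  · have l := Nat.mod_lt i m0
    have := it (i / m) _ _ (hp _ l)
    rcases Nat.lt_or_eq_of_le (Nat.succ_le_of_lt l) with e | e
    · have e1 : (i + 1) % m = i % m + 1 := by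
        rw [Nat.add_mod, Nat.mod_eq_of_lt (show 1 < m by omega), Nat.mod_eq_of_lt e]
      have e2 : (i + 1) / m = i / m := Nat.succ_div_of_not_dvd fun h => by
        have := Nat.mod_eq_zero_of_dvd h; omega
      simpa only [e1, e2] using this
    · have e0 : m ∣ i + 1 := ⟨i / m + 1, by have := Nat.div_add_mod i m; rw [mul_add]; omega⟩
      have e' : i % m + 1 = m := e
      rw [e', pm] at this
      simpa only [Nat.mod_eq_zero_of_dvd e0, Nat.succ_div_of_dvd e0, Function.iterate_succ_apply,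
        p0] using this
  · simp only [Nat.add_mod_right, Nat.add_div_right _ m0, Function.iterate_succ_apply']

theorem roll {α : Type} {r : α → α → Prop} {p : ℕ → α} (h : ∀ i, r (p i) (p (i + 1))) (hm : 0 < m) :
    Relation.TransGen r (p 0) (p m) := by
  induction m, hm using Nat.le_induction with
  | base => exact .single (h 0)
  | succ j _ ih => exact ih.tail (h j)

/-- All faces are fat. -/
def Ht (κ : ℝ) (n : Nx E) (L : E → G) (z : ℍ) : Prop := ∀ d, Fat κ z (vQ L z d) (vR n L z d)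

variable {n : Nx E} {L : E → G} {z : ℍ}

theorem pm_left {x y : G} (h : PM x y) (k : G) : PM (k * x) (k * y) := by
  rcases h with rfl | rfl
  · exact .inl rfl
  · exact .inr (mul_neg _ _)

theorem Strip.seq (hf : Ax f A σ) (hL : Flat n L) (hH : Ht κ n L z) (h : Strip n L z f A) :
    ∃ m, ∃ p : ℕ → G × Dr E, (∀ i, Stp n L z f (p i) (p (i + 1))) ∧
      (∀ i, p (i + m) = (A * (p i).1, (p i).2)) ∧ Seq f A κ m (fun i => (p i).1 • z)
        (fun i => (p i).1 • vQ L z (p i).2) (fun i => (p i).1 • vR n L z (p i).2) := by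
  obtain ⟨k, x, h⟩ := h
  obtain ⟨m, m0, p, h1, h2⟩ := unroll (t := fun q : G × Dr E => (A * q.1, q.2)) (a := (k, x))
    (fun a b ⟨c1, c2, c3⟩ => by
      simp only [Stp, mul_smul, hf.inv, mul_assoc] at c3 ⊢
      exact ⟨c1, c2, c3.imp (fun c => ⟨c.1, c.2.1, pm_left c.2.2 A⟩)
        fun c => ⟨c.1, c.2.1, pm_left c.2.2 A⟩⟩) h
  refine ⟨m, p, h1, h2, m0, fun i => (h1 i).1, fun i => (h1 i).2.1, fun i => (hH _).smul _,
    fun i => (h1 i).2.2.imp (fun c => ⟨c.1, ?_, ?_⟩) (fun c => ⟨c.1, c.2.2.smul_eq _, ?_⟩),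
    fun i => by simp only [h2, mul_smul], fun i => by simp only [h2, mul_smul]⟩
  · simp only [c.2.2.smul_eq, vR, mul_smul]
  · simp only [c.2.2.smul_eq, c.2.1, vQ, mul_smul, dlab_rev, smul_inv_smul]
  · simp only [c.2.2.smul_eq, c.2.1, vQ, vR, mul_smul, dlab_rev]
    rw [← Flat.act hL (p i).2 (_⁻¹ • z), smul_inv_smul]

theorem keep (hf : Ax f A σ) (hσ : 0 < σ) {c : ℝ} (hc : σ ≤ c / 8) {a w : ℍ} (h : c ≤ σ + f a ^ 2)
    (hd : ch a w < 2) : 0 < f a * f w := by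
  by_contra hn
  have := hf.opp (not_lt.1 hn)
  have h1 := one_le_ch a w
  have h2 : (ch a w ^ 2 - 1) * σ ≤ 3 * σ := mul_le_mul_of_nonneg_right (by nlinarith only [hd, h1]) hσ.le
  linarith only [hσ, hc, h, this, h2]

/-- A strip survives a small motion of the base point. -/
theorem Strip.move (hf : Ax f A σ) (hσ : 0 < σ) (hc : σ ≤ min 1 (κ / 5) / 8) (hL : Flat n L)
    (hH : Ht κ n L z) (h : Strip n L z f A) {w : ℍ} (hw : ch z w < 2) : Strip n L w f A := by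
  obtain ⟨m, p, h1, h2, s⟩ := h.seq hf hL hH
  have k : ∀ a b : G, min 1 (κ / 5) ≤ σ + f (a • b • z) ^ 2 →
      (f (a • b • z) ≤ 0 → f (a • b • w) ≤ 0) ∧ (0 < f (a • b • z) → 0 < f (a • b • w)) := by
    intro a b h
    have := keep hf hσ hc h (w := a • b • w) (by simpa only [ch, dist_smul] using hw)
    exact ⟨fun e => by by_contra hn; nlinarith only [this, e, hn], fun e => (pos_iff_pos_of_mul_pos this).1 e⟩
  refine ⟨(p 0).1, (p 0).2, ?_⟩
  rw [← h2, zero_add]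
  refine roll (r := Stp n L w f) (p := p) (fun i => ?_) s.m0
  obtain ⟨c1, c2, c3⟩ := h1 i
  have r : min 1 (κ / 5) ≤ σ + f ((p i).1 • vR n L z (p i).2) ^ 2 := by
    rcases s.st i with ⟨-, b, -⟩ | ⟨-, -, b⟩
    · exact b ▸ (s.static hf hσ (i + 1)).1
    · exact b ▸ (s.static hf hσ (i + 1)).2
  refine ⟨?_, (k _ _ (s.static hf hσ i).2).2 c2,
    c3.imp (fun c => ⟨(k _ _ r).1 c.1, c.2⟩) fun c => ⟨(k _ _ r).2 c.1, c.2⟩⟩
  simpa only [one_smul] using (k (p i).1 1 (by simpa only [one_smul, inf_le_iff] using (s.static hf hσ i).1)).1 (by simpa using c1)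

theorem Ht.ev [Finite E] (h : Ht κ n L z) : ∀ᶠ w in 𝓝 z, Ht κ n L w := by
  refine eventually_all.2 fun d => ?_
  have c0 := (Stp.cont_hD (dlab L d) (dlab L d * dlab L (n d))).continuousAt (x := z)
  have c : ∀ a b : G, ContinuousAt (fun w : ℍ => κ * (ch (a • w) (b • w) ^ 2 - 1)) z := fun a b =>
    (continuous_const.mul (((continuous_cosh.comp ((continuous_const_smul a).dist
      (continuous_const_smul b))).pow 2).sub continuous_const)).continuousAt
  refine (continuousAt_const.eventually_lt c0 (h d).1).and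
    (((c _ _).eventually_lt (c0.pow 2) (h d).2.1).and ?_)
  have := (c 1 (dlab L d * dlab L (n d))).eventually_lt (c0.pow 2)
    (by rw [one_smul]; exact (h d).2.2)
  simp only [one_smul] at this
  exact this

theorem fat_aux {x y w t : ℝ} (ht : 0 < t) (hy : t ≤ y) (hw : t ≤ w) (hx : 0 ≤ x) (h : x ≤ y + w) :
    t ^ 4 / (1 + 4 * t ^ 2) * ((1 + 2 * x ^ 2) ^ 2 - 1) ≤ 4 * (x * y * w) ^ 2 := by
  have a : t ^ 2 ≤ y ^ 2 := by gcongr
  have b : t ^ 2 ≤ w ^ 2 := by gcongr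
  have c : x ^ 2 ≤ 2 * y ^ 2 + 2 * w ^ 2 := by nlinarith only [sq_nonneg (y - w), hx, h]
  have t2 : 0 < t ^ 2 := by positivity
  rw [div_mul_eq_mul_div, div_le_iff₀ (by positivity), show t ^ 4 = t ^ 2 * t ^ 2 by ring,
    show (x * y * w) ^ 2 = x ^ 2 * (y ^ 2 * w ^ 2) by ring]
  generalize t ^ 2 = T at *
  generalize y ^ 2 = Y at *
  generalize w ^ 2 = W at *
  have x0 := sq_nonneg x
  generalize x ^ 2 = X at *
  have k : T * T * (1 + X) ≤ Y * W * (1 + 4 * T) := by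
    have := mul_le_mul a b t2.le (t2.le.trans a)
    linarith only [mul_le_mul_of_nonneg_left c (mul_pos t2 t2).le, mul_le_mul_of_nonneg_left a (mul_nonneg t2.le (t2.le.trans b)), mul_le_mul_of_nonneg_left b (mul_nonneg t2.le (t2.le.trans a)), this]
  linarith only [mul_le_mul_of_nonneg_left k x0]

theorem fat_of {η : ℝ} (hη : 0 < η) : ∃ κ > 0, ∀ p q r : ℍ, 0 < hD p q r → 0 ≤ hH p q r →
    η ≤ dist p q → η ≤ dist q r → η ≤ dist p r → Fat κ p q r := by
  have t0 : 0 < sinh (η / 2) := sinh_pos_iff.2 (half_pos hη)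
  refine ⟨sinh (η / 2) ^ 4 / (1 + 4 * sinh (η / 2) ^ 2), by positivity,
    fun p q r h0 hh a b c => ?_⟩
  have x : ∀ {u v : ℍ}, η ≤ dist u v → sinh (η / 2) ≤ Stp.xs u v := fun h =>
    sinh_le_sinh.2 (by linarith)
  have b' := Stp.xs_comm q r ▸ x b
  obtain ⟨t1, t2, -⟩ :=
    (Stp.hH_nonneg_iff (t0.trans_le (x c)) (t0.trans_le b') (t0.trans_le (x a))).1 hh
  have e : hD p q r ^ 2 = 64 * (Stp.xs p q * Stp.xs r q * Stp.xs p r) ^ 2 + 16 * hH p q r := by
    simp only [hD_sq, hH, kS, ch_comm q r, Stp.ch_xs]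
    ring
  have p0 : 0 < (Stp.xs p q * Stp.xs r q * Stp.xs p r) ^ 2 :=
    pow_pos (mul_pos (mul_pos (t0.trans_le (x a)) (t0.trans_le b')) (t0.trans_le (x c))) 2
  have k1 := fat_aux t0 (x c) (x a) (Stp.xs_nonneg r q) t2
  have k2 := fat_aux t0 b' (x a) (Stp.xs_nonneg p r) t1
  refine ⟨h0, ?_, ?_⟩ <;> rw [Stp.ch_xs, e]
  · refine k1.trans_lt ?_
    rw [show Stp.xs r q * Stp.xs p r * Stp.xs p q = Stp.xs p q * Stp.xs r q * Stp.xs p r by ring]
    linarith only [hh, p0]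
  · refine k2.trans_lt ?_
    rw [show Stp.xs p r * Stp.xs r q * Stp.xs p q = Stp.xs p q * Stp.xs r q * Stp.xs p r by ring]
    linarith only [hh, p0]

variable {g : ℕ} {M : Tup g}

theorem eqv_lf {z : ℍ} {τ τ' : MS g} (h : Eqv M z τ τ') : Lf M (z, τ) (z, τ') := by
  induction h with
  | rel _ _ h => exact .rel _ _ (.mv h)
  | refl => exact .refl _
  | symm _ _ _ ih => exact ih.symm _ _
  | trans _ _ _ _ _ i1 i2 => exact i1.trans _ _ _ i2

/-- No thin strips on a leaf whose Delaunay states have no short edges. -/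
theorem no_strip (hT : TAx g) (hD : DAx g)
    (hI : ∀ {z τ τ' f A}, Lin f → (∀ w, f (A • w) = f w) → Eqv M z τ τ' →
      (Strip τ.1 (geo M τ.2) z f A ↔ Strip τ'.1 (geo M τ'.2) z f A))
    (hM : Fm M) {η : ℝ} (hη : 0 < η) {z : ℍ} {τ : MS g} (hτ : MT τ) (hp : Ps M z τ)
    (h1 : ∀ z' τ', Lf M (z, τ) (z', τ') → Dl M z' τ' →
      ∀ d, η ≤ dist z' (vQ (geo M τ'.2) z' d)) :
    ∃ s₁ > 0, ∀ f A σ, Ax f A σ → 0 < σ → σ ≤ s₁ → ∀ z₁ τ₁, Lf M (z, τ) (z₁, τ₁) →
      ¬ Strip τ₁.1 (geo M τ₁.2) z₁ f A := by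
  obtain ⟨κ, κ0, hκ⟩ := fat_of hη
  have nf : ∀ {w τ'}, MT τ' → Ps M w τ' → Lf M (z, τ) (w, τ') → ∃ τ'', Eqv M w τ' τ'' ∧ MT τ'' ∧
      Ps M w τ'' ∧ Flat τ''.1 (geo M τ''.2) ∧ Ht κ τ''.1 (geo M τ''.2) w := fun {w τ'} a b c => by
    obtain ⟨τ'', e, dl⟩ := hD.nf hM a b
    obtain ⟨a', b'⟩ := (eqv_ok hT hM e).1 ⟨a, b⟩
    have gs := gs_of hT hM a' b'
    have l := h1 w τ'' (c.trans _ _ _ (eqv_lf e)) dl
    exact ⟨τ'', e, a', b', gs.flat, fun d => hκ _ _ _ (b' d) (hD.hH gs dl d) (l d)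
      (by rw [Stp.dist_QR]; exact l _) (by rw [Stp.dist_R gs.flat]; exact l _)⟩
  obtain ⟨τ₀, e₀, -, -, f₀, t₀⟩ := nf hτ hp (.refl _)
  obtain ⟨K, hK⟩ := (Set.finite_range fun d => ch z (vQ (geo M τ₀.2) z d) ^ 2).bddAbove
  have c0 : 0 < min 1 (κ / 5) := lt_min one_pos (by positivity)
  refine ⟨min (min 1 (κ / 5) / 8) (min 1 (κ / 5) / (|K| + 1)), lt_min (by positivity)
    (by positivity), fun f A σ hf hσ hs z₁ τ₁ hl hS => ?_⟩
  have one : ∀ {a b : ℍ × MS g}, Lm M a b → Lf M (z, τ) a →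
      (Strip a.2.1 (geo M a.2.2) a.1 f A ↔ Strip b.2.1 (geo M b.2.2) b.1 f A) := fun h ha => by
    cases h with
    | mv h => exact hI hf.lin hf.inv (.rel _ _ h)
    | @go u u' υ C hυ hC a b c =>
      refine hC.induction₂' (fun x y => Strip υ.1 (geo M υ.2) x f A ↔ Strip υ.1 (geo M υ.2) y f A)
        (fun w hw => ?_) (fun _ _ _ _ _ _ i j => i.trans j) a b
      obtain ⟨υ', e, a', b', fl, ht⟩ := nf hυ (c w hw) (ha.trans _ _ _ (.rel _ _ (.go C hυ hC a hw c)))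
      have cc : ∀ᶠ y in 𝓝 w, ch w y < 2 :=
        (continuous_cosh.comp (continuous_const.dist continuous_id)).continuousAt.eventually_lt
          continuousAt_const (by simp)
      filter_upwards [nhdsWithin_le_nhds ((continuous_const.prodMk
        continuous_id).continuousAt.eventually (hD.loc hM hυ a' (c w hw) b')),
        nhdsWithin_le_nhds ht.ev, nhdsWithin_le_nhds cc] with y y1 y2 y3
      have k : Strip υ.1 (geo M υ.2) w f A ↔ Strip υ.1 (geo M υ.2) y f A := by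
        rw [hI hf.lin hf.inv e, hI (z := y) hf.lin hf.inv ((y1 hM).2 e)]
        exact ⟨fun h => h.move hf hσ (hs.trans (min_le_left _ _)) fl ht y3,
          fun h => h.move hf hσ (hs.trans (min_le_left _ _)) fl y2 (ch_comm w y ▸ y3)⟩
      exact ⟨k, k.symm⟩
  have all : ∀ {a b : ℍ × MS g}, Lf M a b → Lf M (z, τ) a →
      (Strip a.2.1 (geo M a.2.2) a.1 f A ↔ Strip b.2.1 (geo M b.2.2) b.1 f A) := fun h => by
    induction h with
    | rel _ _ h => exact one h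
    | refl => exact fun _ => Iff.rfl
    | symm a b h ih => exact fun hb => (ih (hb.trans _ _ _ (h.symm _ _))).symm
    | trans a b c h _ i1 i2 => exact fun ha => (i1 ha).trans (i2 (ha.trans _ _ _ h))
  obtain ⟨m, p, -, -, s⟩ :=
    ((hI hf.lin hf.inv e₀).1 ((all hl (.refl _)).2 hS)).seq hf f₀ t₀
  have k1 := (s.static hf hσ 0).2
  have k2 := hf.opp (a := (p 0).1 • vQ (geo M τ₀.2) z (p 0).2) (w := (p 0).1 • z)
    (mul_nonpos_of_nonneg_of_nonpos (s.hQ 0).le (s.hP 0))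
  have k3 := (hK ⟨(p 0).2, rfl⟩).trans (le_abs_self K)
  have k4 := (le_div_iff₀ (by positivity)).1 (hs.trans (min_le_right _ _))
  rw [ch_comm, ch, dist_smul, ← ch] at k2
  have k5 := mul_le_mul_of_nonneg_right (sub_le_sub_right k3 1) hσ.le
  have k6 := (k1.trans (add_le_add le_rfl (k2.trans k5))).trans' k4
  linarith only [hσ, k1, k2, k4, k5]

end

end Pool.Agent.MP_596265_gt.U.T2

namespace Pool.Agent.MP_596265_gt.U.Sp

theorem leaf : LEAF_s := by
  intro g M z τ η hT hD hM hτ hp hη h1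
  obtain ⟨s, s0, hs⟩ := T2.no_strip hT hD (fun a b c => T2.strip_eqv hT hM a b c) hM hη hτ hp h1
  refine ⟨min 1 (s / 5), lt_min one_pos (by positivity), fun A z' τ' a b hl h => ?_⟩
  have b1 := min_le_left 1 (s / 5)
  have b2 := min_le_right 1 (s / 5)
  have e : Lam A = fun w => -T2.lam A w := funext fun w => by
    rw [Lam, T2.lam]; ring
  rw [e] at h
  exact hs _ A _ (T2.ax_lam A).neg (by nlinarith only [a]) (by nlinarith only [a, b, b1, b2]) z' τ' hl h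

end Pool.Agent.MP_596265_gt.U.Sp

end

section

/-! The invariant functional of a matrix. -/

namespace Pool.Agent.MP_596265_gt.U.Sp

open Real UpperHalfPlane

theorem lam_eq (A : G) (w : ℍ) :
    Lam A w = (A 0 1 + (A 0 0 - A 1 1) * w.re - A 1 0 * (Φ w).2) / w.im := rfl

theorem lam_gram (A : G) (v w : ℍ) : tr A ^ 2 - 4 + Lam A v ^ 2 + Lam A w ^ 2 ≤
    (tr A ^ 2 - 4) * ch v w ^ 2 + 2 * ch v w * (Lam A v * Lam A w) := by
  have := v.im_pos.ne'
  have := w.im_pos.ne'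
  have e : tr A ^ 2 - 4 = (A 0 0 - A 1 1) ^ 2 + 4 * A 0 1 * A 1 0 := by
    rw [tr]; linear_combination 4 * basic_det A
  have k : ((A 0 0 - A 1 1) ^ 2 + 4 * A 0 1 * A 1 0) * ch v w ^ 2 +
      2 * ch v w * (Lam A v * Lam A w) - ((A 0 0 - A 1 1) ^ 2 + 4 * A 0 1 * A 1 0 + Lam A v ^ 2 +
      Lam A w ^ 2) = (((w.re - v.re) * A 0 1 + ((Φ w).2 - (Φ v).2) * (A 0 0 - A 1 1) / 2 +
        A 1 0 * ((Φ v).2 * w.re - (Φ w).2 * v.re)) / (v.im * w.im)) ^ 2 := by
    simp only [Lam, ch, cosh_dist_Φ, Φ]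
    field_simp
    ring
  rw [e, ← sub_nonneg, k]
  exact sq_nonneg _

theorem lam : LAM_s := by
  refine ⟨fun A p q r s => ?_, fun k A w => ?_, fun A w => ?_, fun A v w h => ?_⟩
  · have := p.im_pos.ne'
    have := q.im_pos.ne'
    have := r.im_pos.ne'
    have := s.im_pos.ne'
    simp only [hD, Lam, hdet, det3, Φ]
    field_simp
    ring
  · have := w.im_pos.ne'
    have := (ha_D_pos k w).ne'
    rw [lam_eq, lam_eq, ha_snd, ha_re, ha_im]
    field_simp
    simp only [basic_mul, basic_inv00, basic_inv01, basic_inv10, basic_inv11, ha_D,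
      show (Φ w).1 = w.re from rfl]
    linear_combination (k 0 0 * k 1 1 - k 0 1 * k 1 0 + 1) *
      (A 0 1 + (A 0 0 - A 1 1) * w.re - A 1 0 * (Φ w).2) * basic_det k
  · have := w.im_pos.ne'
    have := (ha_D_pos A w).ne'
    rw [ch, cosh_dist_Φ, ha_snd, ha_re, ha_im, Lam, tr]
    field_simp
    simp only [ha_D, Φ]
    linear_combination (-2 * w.im ^ 2) * basic_det A
  · nlinarith [lam_gram A v w, one_le_ch v w, sq_nonneg (Lam A w)]

end Pool.Agent.MP_596265_gt.U.Sp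

end

section

/-! Entries of the steps of a strip of long edges. -/

namespace Pool.Agent.MP_596265_gt.U.Sp

open Erg Real UpperHalfPlane Set

namespace ENTx

theorem inv4 {μ i : ℝ} (hμ : 4 ≤ μ) (hi : μ * i = 1) : 0 < i ∧ i ≤ 1 / 4 := by
  constructor <;> nlinarith only [hμ, hi]

theorem sq4 {c t a b ω : ℝ} (hc : c ^ 2 + t ^ 2 = 1) (ha : a ^ 2 ≤ ω ^ 2) (hb : b ^ 2 ≤ 1 / 4) :
    c ^ 2 * (a * b) ^ 2 ≤ ω ^ 2 / 4 := by
  have h1 : (a * b) ^ 2 ≤ ω ^ 2 * (1 / 4) := by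
    rw [mul_pow]
    exact mul_le_mul ha hb (sq_nonneg _) (sq_nonneg _)
  have h2 : c ^ 2 * (a * b) ^ 2 ≤ 1 * (a * b) ^ 2 :=
    mul_le_mul_of_nonneg_right (by linarith only [sq_nonneg t, hc]) (sq_nonneg _)
  linarith only [h1, h2]

theorem core {μ ν i j c t ω : ℝ} (hμ : 4 ≤ μ) (hν : 4 ≤ ν) (hi : μ * i = 1) (hj : ν * j = 1)
    (hc : c ^ 2 + t ^ 2 = 1) (ht : 0 ≤ t) (h0 : 0 ≤ ω)
    (h : ω ^ 2 = c ^ 2 * (ν * i - μ * j) ^ 2 + t ^ 2 * (μ * ν - i * j) ^ 2)
    (h1 : ω ≤ μ - i + (ν - j)) (h2 : μ - i ≤ ν - j + ω) (h3 : ν - j ≤ μ - i + ω) :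
    μ ≤ ν + ω ∧ ν ≤ μ + ω ∧ ω ≤ 2 * (t * (μ * ν)) ∧ t * (μ * ν) ≤ 2 * ω ∧ t ≤ 2 * (i + j) := by
  obtain ⟨i0, i1⟩ := inv4 hμ hi
  obtain ⟨j0, j1⟩ := inv4 hν hj
  have e1 : j - i = (μ - ν) * (i * j) := by linear_combination (-j) * hi + i * hj
  have ij := mul_pos i0 j0
  have a1 : μ ≤ ν + ω := by
    by_contra k
    linarith only [mul_pos (show 0 < μ - ν by linarith only [h0, k]) ij, h2, e1, k]
  have a2 : ν ≤ μ + ω := by
    by_contra k
    linarith only [mul_pos (show 0 < ν - μ by linarith only [h0, k]) ij, h3, e1, k]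
  have e2 : ν * i - μ * j = (ν - μ) * (i + j) := by linear_combination hi - hj
  have p16 : 4 * 4 ≤ μ * ν := mul_le_mul hμ hν (by norm_num) (by linarith only [hμ, i0, i1])
  have ij1 : i * j ≤ 1 / 4 * (1 / 4) := mul_le_mul i1 j1 j0.le (by norm_num)
  have b1 : (ν - μ) ^ 2 ≤ ω ^ 2 := sq_le_sq' (by linarith only [a1]) (by linarith only [a2])
  have b2 : (i + j) ^ 2 ≤ (1 / 2) ^ 2 := sq_le_sq' (by linarith only [i0, j0]) (by linarith only [i1, j1])
  have b3 := sq4 hc b1 (b2.trans (by norm_num))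
  rw [← e2] at b3
  have u0 : 0 ≤ t * (μ * ν - i * j) := mul_nonneg ht (by linarith only [ij, p16, ij1])
  have u1 : t * (μ * ν - i * j) ≤ ω := by
    refine abs_le_of_sq_le_sq' ?_ h0 |>.2
    rw [mul_pow]
    linarith only [mul_nonneg (sq_nonneg c) (sq_nonneg (ν * i - μ * j)), h]
  have u2 : ω ≤ 2 * (t * (μ * ν - i * j)) := by
    refine abs_le_of_sq_le_sq' ?_ (by linarith only [u0]) |>.2
    rw [mul_pow, mul_pow]
    linarith only [sq_nonneg ω, h, b3]
  have u3 : t * (μ * ν) ≤ 2 * ω := by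
    linarith only [mul_nonneg ht (show 0 ≤ μ * ν - 2 * (i * j) by linarith only [ij, p16, ij1]), u1]
  refine ⟨a1, a2, by linarith only [mul_nonneg ht ij.le, u2], u3, ?_⟩
  have : t * (μ * ν) * (i * j) ≤ 2 * (μ + ν) * (i * j) :=
    mul_le_mul_of_nonneg_right (by linarith only [h1, i0, j0, u3]) ij.le
  have e3 : t * (μ * ν) * (i * j) = t := by linear_combination (t * ν * j) * hi + t * hj
  have e4 : 2 * (μ + ν) * (i * j) = 2 * (i + j) := by linear_combination (2 * j) * hi + (2 * i) * hj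
  linarith only [this, e3, e4]

theorem cs1 {c t : ℝ} (h : c ^ 2 + t ^ 2 = 1) (hc : 0 < c) (ht : 0 < t) : c ≤ 1 ∧ 1 - c ≤ t := by
  constructor <;> nlinarith only [h, hc, ht]

theorem near {c s y w ε : ℝ} (c2 : c ≤ 1) (c3 : 1 - c ≤ s) (b1 : y ≤ 1 + w) (b2 : 1 - w ≤ y)
    (b4 : 3 * w ≤ 1) (b5 : 2 * s + w ≤ ε) : |c * y - 1| ≤ ε := by
  rw [abs_le]
  constructor
  · linarith [mul_nonneg (show 0 ≤ s - (1 - c) by linarith) (show 0 ≤ y by linarith),
      mul_nonneg (show 0 ≤ s by linarith) (show 0 ≤ 2 - y by linarith)]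
  · linarith [mul_nonneg (show 0 ≤ 1 - c by linarith) (show 0 ≤ y by linarith)]

theorem ratio {μ ν j W : ℝ} (hj : ν * j = 1) (j0 : 0 < j) (a1 : μ ≤ ν + W) (a2 : ν ≤ μ + W)
    (h : 3 * W ≤ ν) : μ * j ≤ 1 + W * j ∧ 1 - W * j ≤ μ * j ∧ 3 * (W * j) ≤ 1 :=
  ⟨by linarith [mul_le_mul_of_nonneg_right a1 j0.le], by linarith [mul_le_mul_of_nonneg_right a2 j0.le],
    by linarith [mul_le_mul_of_nonneg_right h j0.le]⟩

theorem low {μ ν t ω m : ℝ} (hμ : 4 ≤ μ) (ht : 0 ≤ t) (m1 : m ≤ 1) (m2 : m ≤ ω) (h0 : 0 ≤ ω)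
    (h1 : ν ≤ μ + ω) (h2 : ω ≤ 2 * (t * (μ * ν))) : m / 4 ≤ t * μ ^ 2 := by
  have p : 0 < μ + ω := by linarith
  refine le_of_mul_le_mul_right ?_ p
  have a : t * μ ^ 2 * ν ≤ t * μ ^ 2 * (μ + ω) := mul_le_mul_of_nonneg_left h1 (by positivity)
  have b : μ * ω ≤ μ * (2 * (t * (μ * ν))) := mul_le_mul_of_nonneg_left h2 (by linarith only [hμ])
  linarith only [mul_nonneg (sub_nonneg.2 m2) (show 0 ≤ μ by linarith), mul_nonneg (show 0 ≤ μ - m by linarith) h0, a, b]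

theorem fix {K : G} (h : K • I = I) : K 1 1 = K 0 0 ∧ K 0 1 = -K 1 0 ∧ K 0 0 ^ 2 + K 1 0 ^ 2 = 1 := by
  rw [basic_fixed_iff, coe_I] at h
  have a := congrArg Complex.re h
  have b := congrArg Complex.im h
  simp only [Fin.isValue, Complex.add_re, Complex.mul_re, Complex.ofReal_re, Complex.I_re, mul_zero, Complex.ofReal_im, Complex.I_im, mul_one, sub_self, zero_add, zero_mul, Complex.add_im, Complex.mul_im, add_zero, one_mul, zero_sub] at a b
  have d := basic_det K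
  refine ⟨b.symm, a, ?_⟩
  rw [← b, a] at d
  linarith

theorem re_I (g : G) : (g • I : ℍ).re * (g 1 0 ^ 2 + g 1 1 ^ 2) = g 0 0 * g 1 0 + g 0 1 * g 1 1 := by
  have e := basic_coe_smul g I
  rw [eq_div_iff (basic_denom g I), coe_I] at e
  have a := congrArg Complex.re e
  have b := congrArg Complex.im e
  simp only [Fin.isValue, Complex.mul_re, coe_re, Complex.add_re, Complex.ofReal_re, Complex.I_re, mul_zero, Complex.ofReal_im, Complex.I_im, mul_one, sub_self, zero_add, coe_im, Complex.add_im, Complex.mul_im, add_zero] at a b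
  linear_combination g 1 1 * a + g 1 0 * b

theorem xs_sq (g h : G) : (2 * Stp.xs (g • I) (h • I)) ^ 2 = (g⁻¹ * h) 0 0 ^ 2 + (g⁻¹ * h) 0 1 ^ 2 +
    (g⁻¹ * h) 1 0 ^ 2 + (g⁻¹ * h) 1 1 ^ 2 - 2 := by
  have a := Stp.ch_xs (g • I) (h • I)
  rw [ch, dist_smul_I, cosh_len] at a
  linarith

theorem xs_dia {x : ℝ} (hx : 0 ≤ x) :
    2 * Stp.xs I (dia x • I) = exp (x / 2) - exp (-(x / 2)) := by
  have : dist I (dia x • I) = x := (len_dia x).trans (abs_of_nonneg hx)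
  rw [Stp.xs, this, sinh_eq]
  ring

theorem sign {x : ℝ} (hx : 0 < x) {g : G} (h : 0 < hD I (dia x • I) (g • I)) :
    g 0 0 * g 1 0 + g 0 1 * g 1 1 < 0 := by
  have h1 := (hD_pos (ν := 1)).1 (by rwa [one_mul])
  have r : (dia x • I : ℍ).re = 0 := by
    have := re_I (dia x)
    rw [basic_dia10, basic_dia01, basic_dia11] at this
    have p := exp_pos (-(x / 2))
    have q : 0 < 0 ^ 2 + exp (-(x / 2)) ^ 2 := by positivity
    exact (mul_eq_zero.1 (this.trans (by ring))).resolve_right q.ne'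
  have m : 1 < (dia x • I : ℍ).im := by
    have e := basic_coe_smul (dia x) I
    rw [eq_div_iff (basic_denom _ I), coe_I, basic_dia00, basic_dia01, basic_dia10, basic_dia11] at e
    have b := congrArg Complex.im e
    simp only [Complex.mul_im, Complex.add_im, Complex.add_re, Complex.mul_re, Complex.ofReal_re,
      Complex.ofReal_im, Complex.I_re, Complex.I_im, coe_re, coe_im, r] at b
    have p := exp_pos (-(x / 2))
    have q : exp (-(x / 2)) < exp (x / 2) := exp_lt_exp.2 (by linarith only [hx])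
    by_contra k
    nlinarith only [b, p, q, k]
  simp only [hdet, det3, Φ, r, I_re, I_im] at h1
  have k : (g • I : ℍ).re < 0 := by
    by_contra k
    linarith only [mul_nonneg (not_lt.1 k) (show 0 ≤ (dia x • I : ℍ).im ^ 2 - 1 by nlinarith only [m]), h1]
  rw [← re_I]
  refine mul_neg_of_neg_of_pos k ?_
  have d := basic_det g
  by_contra q
  have h1 : g 1 0 = 0 := by nlinarith only [q]
  have h2 : g 1 1 = 0 := by nlinarith only [q]
  rw [h1, h2] at d
  simp at d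

theorem eta_le {η : ℝ} {p q : ℍ} (h : η ≤ dist p q) : η ≤ 2 * Stp.xs p q := by
  have := self_le_sinh_iff.2 (show 0 ≤ dist p q / 2 by positivity)
  rw [Stp.xs]
  linarith

end ENTx

open ENTx

theorem ent : ENT_s := by
  intro η hη B
  set W := |2 * sinh (B / 2)| with hW
  have W0 : 0 ≤ W := abs_nonneg _
  refine ⟨min η 1 / 4, by positivity, 4 * W, fun ε hε => ?_⟩
  set l := 4 + 3 * W + (16 + 2 * W) / ε with hl
  have l0 : 0 ≤ (16 + 2 * W) / ε := by positivity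
  have l1 : 16 + 2 * W ≤ ε * l := by
    have : ε * ((16 + 2 * W) / ε) = 16 + 2 * W := by field_simp
    rw [hl]
    linarith only [mul_nonneg hε.le W0, hε, this]
  refine ⟨2 * l, fun x hx x' hx' => ?_⟩
  have x0 : 0 < x := by linarith only [W0, l0, hx]
  have x0' : 0 < x' := by linarith only [W0, l0, hx']
  obtain ⟨μ, hμ⟩ : ∃ μ, exp (x / 2) = μ := ⟨_, rfl⟩
  obtain ⟨ν, hν⟩ : ∃ ν, exp (x' / 2) = ν := ⟨_, rfl⟩
  obtain ⟨i, hi⟩ : ∃ i, exp (-(x / 2)) = i := ⟨_, rfl⟩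
  obtain ⟨j, hj⟩ : ∃ j, exp (-(x' / 2)) = j := ⟨_, rfl⟩
  have μl : l ≤ μ := by linarith only [add_one_le_exp (x / 2), hx, hμ]
  have νl : l ≤ ν := by linarith only [add_one_le_exp (x' / 2), hx', hν]
  have μi : μ * i = 1 := by rw [← hμ, ← hi, ← exp_add, add_neg_cancel, exp_zero]
  have νj : ν * j = 1 := by rw [← hν, ← hj, ← exp_add, add_neg_cancel, exp_zero]
  have ex : exp x = μ ^ 2 := by rw [← hμ, sq, ← exp_add, add_halves]
  have ex' : exp x' = ν ^ 2 := by rw [← hν, sq, ← exp_add, add_halves]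
  have μ4 : 4 ≤ μ := by linarith only [W0, l0, μl]
  have ν4 : 4 ≤ ν := by linarith only [W0, l0, νl]
  have i0 : 0 < i := hi ▸ exp_pos _
  have j0 : 0 < j := hj ▸ exp_pos _
  have il : (16 + 2 * W) * i ≤ ε := by
    have := mul_le_mul_of_nonneg_right (l1.trans (mul_le_mul_of_nonneg_left μl hε.le)) i0.le
    rwa [mul_assoc ε, μi, mul_one] at this
  have jl : (16 + 2 * W) * j ≤ ε := by
    have := mul_le_mul_of_nonneg_right (l1.trans (mul_le_mul_of_nonneg_left νl hε.le)) j0.le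
    rwa [mul_assoc ε, νj, mul_one] at this
  have i1 := (inv4 μ4 μi).2
  have j1 := (inv4 ν4 νj).2
  have Wi := mul_nonneg W0 i0.le
  have Wj := mul_nonneg W0 j0.le
  have s1 := xs_dia x0.le
  have s2 := xs_dia x0'.le
  rw [hμ, hi] at s1
  rw [hν, hj] at s2
  have nj : 0 < ν ^ 2 - j ^ 2 := sub_pos.2 (sq_lt_sq' (by linarith only [W0, l0, νl, j0]) (by linarith only [W0, l0, νl, j1]))
  have pm : ∀ {P : G → Prop} (K : G), K 0 0 ≠ 0 → (∀ K', PM K' K → 0 < K' 0 0 → P K') →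
      ∃ K', PM K' K ∧ P K' := fun K h1 h2 => by
    rcases lt_or_gt_of_ne h1 with k | k
    · exact ⟨-K, .inr rfl, h2 _ (.inr rfl) (by rw [basic_neg]; linarith only [k])⟩
    · exact ⟨K, .inl rfl, h2 _ (.inl rfl) k⟩
  have A : ∀ T : G, T • I = I → 0 < hD I (dia x • I) (T • dia x' • I) →
      T 0 0 * T 1 0 < 0 := fun T h1 h2 => by
    obtain ⟨f1, f2, -⟩ := fix h1
    rw [← mul_smul] at h2
    have := sign x0 h2
    simp only [basic_mul, basic_dia00, basic_dia01, basic_dia10, basic_dia11, hν, hj, f1, f2] at this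
    by_contra k
    linarith only [mul_nonneg (not_lt.1 k) nj.le, this]
  intro T
  constructor
  · intro h1 h2 h3 h4
    refine pm T (fun k => by simpa [k] using A T h1 h2) fun K hK c0 => ?_
    rw [← hK.smul_eq] at h1 h2 h3 h4
    have sg := A K h1 h2
    obtain ⟨f1, f2, f3⟩ := fix h1
    have t0 : 0 < -K 1 0 := by
      by_contra k
      linarith only [mul_nonneg c0.le (show 0 ≤ K 1 0 by linarith only [k]), sg]
    have e1 := xs_sq (dia x) (K * dia x')
    have e2 : Stp.xs I (K • dia x' • I) = Stp.xs I (dia x' • I) := by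
      rw [Stp.xs, Stp.xs, ← dist_smul K I (dia x' • I), h1]
    have e3 := eta_le h4
    rw [mul_smul, ← dia_neg] at e1
    simp only [basic_mul, basic_dia00, basic_dia01, basic_dia10, basic_dia11, neg_div, neg_neg, hμ,
      hi, hν, hj, f1, f2] at e1
    obtain ⟨g1, g2, g3⟩ := (Stp.hH_nonneg_iff (by linarith only [W0, l0, νl, j1, s2, e2]) (by rw [Stp.xs_comm]; linarith only [hη, e3])
      (by linarith only [W0, l0, μl, i1, s1])).1 h3
    rw [Stp.xs_comm (K • dia x' • I)] at g1 g2 g3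
    obtain ⟨a1, a2, a3, a4, a5⟩ := core (c := K 0 0) (t := -K 1 0)
      (ω := 2 * Stp.xs (dia x • I) (K • dia x' • I)) μ4 ν4 μi νj (by linarith only [f3]) t0.le (by linarith only [hη, e3])
      (by rw [e1]; linear_combination (2 * (ν * j)) * (K 0 0 ^ 2 + K 1 0 ^ 2) * μi +
        2 * (K 0 0 ^ 2 + K 1 0 ^ 2) * νj + 2 * f3) (by linarith only [s1, s2, e2, g2]) (by linarith only [s1, s2, e2, g3]) (by linarith only [s1, s2, e2, g1])
    have tε : -K 1 0 ≤ ε := by linarith only [i0, il, jl, Wi, Wj, a5]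
    have c1 : |K 0 0 - 1| ≤ ε := by
      obtain ⟨b1, b2⟩ := cs1 (t := -K 1 0) (by linarith only [f3]) c0 t0
      rw [abs_le]
      constructor <;> linarith only [i0, il, jl, Wi, Wj, a5, b2, b1]
    refine ⟨c1, by rw [f2, abs_of_pos t0]; exact tε, by rw [← abs_neg, abs_of_pos t0]; exact tε,
      f1 ▸ c1, ?_, ?_⟩
    · have := low μ4 t0.le (min_le_right η 1) ((min_le_left η 1).trans e3) (by linarith only [hη, e3]) a2 a3
      rw [ex]; linarith only [this]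
    · have := low ν4 t0.le (min_le_right η 1) ((min_le_left η 1).trans e3) (by linarith only [hη, e3]) a1
        (by rw [mul_comm ν]; exact a3)
      rw [ex']; linarith only [this]
  · intro h1 h2 h3 h4 h5
    have ent : ∀ T : G, T • dia x' • I = dia x • I → ∃ c s, c ^ 2 + s ^ 2 = 1 ∧ T 0 0 = c * (μ * j) ∧
        T 0 1 = -(s * (μ * ν)) ∧ T 1 0 = s * (i * j) ∧ T 1 1 = c * (ν * i) := fun T h => by
      obtain ⟨f1, f2, f3⟩ := fix (K := (dia x)⁻¹ * T * dia x') (by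
        rw [mul_smul, mul_smul, h, inv_smul_smul])
      have e : T = dia x * ((dia x)⁻¹ * T * dia x') * dia (-x') := by rw [dia_neg]; group
      generalize (dia x)⁻¹ * T * dia x' = K at f1 f2 f3 e
      refine ⟨K 0 0, K 1 0, f3, ?_⟩
      rw [e]
      simp only [basic_mul, basic_dia00, basic_dia01, basic_dia10, basic_dia11, neg_div, neg_neg,
        hμ, hi, hν, hj, f1, f2]
      refine ⟨?_, ?_, ?_, ?_⟩ <;> ring
    have sg : ∀ {T : G} {c s : ℝ}, 0 < hD I (dia x • I) (T • I) → T 0 0 = c * (μ * j) →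
        T 0 1 = -(s * (μ * ν)) → T 1 0 = s * (i * j) → T 1 1 = c * (ν * i) → 0 < c * s :=
      fun {T c s} h f1 f2 f3 f4 => by
        have := sign x0 h
        rw [f1, f2, f3, f4] at this
        have e : c * (μ * j) * (s * (i * j)) + -(s * (μ * ν)) * (c * (ν * i)) =
            -(c * s * (ν ^ 2 - j ^ 2)) := by linear_combination (c * s * (j ^ 2 - ν ^ 2)) * μi
        by_contra k
        linarith only [mul_nonneg (show 0 ≤ -(c * s) by linarith only [k]) nj.le, this, e]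
    have μj : 0 < μ * j := by positivity
    refine pm T (fun k => ?_) fun K hK c0 => ?_
    · obtain ⟨c, s, -, f1, f2, f3, f4⟩ := ent T h1
      have := sg h2 f1 f2 f3 f4
      rw [(mul_eq_zero.1 (f1.symm.trans k)).resolve_right μj.ne'] at this
      simp at this
    rw [← hK.smul_eq] at h1 h2 h3 h4 h5
    obtain ⟨c, s, f0, f1, f2, f3, f4⟩ := ent K h1
    have cs := sg h2 f1 f2 f3 f4
    have c1 : 0 < c := (mul_pos_iff_of_pos_right μj).1 (f1 ▸ c0)
    have t0 : 0 < s := (mul_pos_iff_of_pos_left c1).1 cs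
    have e1 := xs_sq 1 K
    rw [inv_one, one_mul, one_smul, f1, f2, f3, f4] at e1
    have e2 : Stp.xs (K • I) (dia x • I) = Stp.xs I (dia x' • I) := by
      rw [← h1, Stp.xs, Stp.xs, dist_smul]
    have e3 := eta_le h4
    have e4 : 2 * Stp.xs I (K • I) ≤ W := by
      have := sinh_le_sinh.2 (show dist I (K • I) / 2 ≤ B / 2 by linarith only [h5])
      have := le_abs_self (2 * sinh (B / 2))
      rw [Stp.xs]
      linarith
    obtain ⟨g1, g2, g3⟩ := (Stp.hH_nonneg_iff (by linarith only [hη, e3]) (by linarith only [hη, l0, νl, i0, i1, j1, s2, e2, e3, e4]) (by linarith only [hη, l0, μl, i1, s1, e3, e4])).1 h3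
    obtain ⟨a1, a2, a3, a4, a5⟩ := core (c := c) (t := s) (ω := 2 * Stp.xs I (K • I)) μ4 ν4 μi νj f0
      t0.le (by linarith only [hη, e3]) (by rw [e1]; linear_combination (2 * (ν * j)) * (c ^ 2 + s ^ 2) * μi +
        2 * (c ^ 2 + s ^ 2) * νj + 2 * f0) (by linarith only [hη, l0, μl, νl, i0, i1, j1, e3, e4]) (by linarith only [s1, s2, e2, g3]) (by linarith only [s1, s2, e2, g2])
    generalize 2 * Stp.xs I (K • I) = ω at *
    obtain ⟨c2, c3⟩ := cs1 f0 c1 t0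
    obtain ⟨r1, r2, w1⟩ := ratio (μ := μ) (W := W) νj j0 (by linarith only [e4, a1]) (by linarith only [e4, a2]) (by linarith only [l0, νl])
    obtain ⟨r3, r4, w2⟩ := ratio (μ := ν) (W := W) μi i0 (by linarith only [e4, a2]) (by linarith only [e4, a1]) (by linarith only [l0, μl])
    have ij := mul_pos i0 j0
    have m2 : (μ * j) ^ 2 ≤ 2 :=
      (sq_le_sq' (b := 4 / 3) (by linarith only [r2, w1]) (by linarith only [r1, w1])).trans (by norm_num)
    refine ⟨f1 ▸ near c2 c3 r1 r2 w1 (by linarith only [hε, j0, il, jl, Wi, a5]), by rw [f2]; linarith only [hη, e3, e4, a4], ?_, ?_,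
      f4 ▸ near c2 c3 r3 r4 w2 (by linarith only [i0, il, jl, Wi, Wj, a5]), ?_, ?_⟩
    · rw [f2]; linarith only [min_le_left η 1, hη, e3, a3]
    · rw [f3, abs_of_pos (mul_pos t0 ij)]
      have := mul_le_mul i1 j1 j0.le (by norm_num)
      linarith only [mul_nonneg t0.le (show 0 ≤ 1 - i * j by linarith only [ij, this]), i0, il, jl, Wi, Wj, a5]
    · rw [f3, abs_of_pos (mul_pos t0 ij), ex]
      have e : s * (i * j) * (μ ^ 2) ^ 2 = s * (μ * ν) * (μ * j) ^ 2 := by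
        linear_combination (s * j * μ ^ 3) * μi - (s * j * μ ^ 3) * νj
      rw [e]
      linarith only [mul_le_mul a4 m2 (sq_nonneg _) (by linarith only [hη, e3]), e4]
    · rw [ex, ex']
      have e : μ ^ 2 = (μ * j) ^ 2 * ν ^ 2 := by
        linear_combination (-(μ ^ 2) * (ν * j + 1)) * νj
      rw [e]
      exact mul_le_mul_of_nonneg_right m2 (sq_nonneg _)

end Pool.Agent.MP_596265_gt.U.Sp

end

section

/-! Row MAT: products of nearly unipotent steps. -/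

namespace Pool.Agent.MP_596265_gt.U.Sp

open Erg Real UpperHalfPlane Set

namespace Mt

theorem am {u v U V : ℝ} (h : |u| ≤ U) (h' : |v| ≤ V) : -(U * V) ≤ u * v ∧ u * v ≤ U * V :=
  abs_le.1 (by rw [abs_mul]; exact mul_le_mul h h' (abs_nonneg _) ((abs_nonneg _).trans h))

/-- The entries are within `δ` of those of the translation by `-b`. -/
structure Nr (δ b : ℝ) (P : G) : Prop where
  a : |P 0 0 - 1| ≤ δ
  b : |P 0 1 + b| ≤ δ
  c : |P 1 0| ≤ δ
  d : |P 1 1 - 1| ≤ δ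

theorem Nr.mul {δ ε b b' K C : ℝ} {P T : G} (h : Nr δ b P) (h' : Nr ε b' T) (hε : ε ≤ δ)
    (hδ : δ ≤ 1) (b0 : 0 ≤ b) (b1 : b ≤ K) (b2 : 0 ≤ b') (b3 : b' ≤ C) :
    Nr (δ * (K + C + 4)) (b + b') (P * T) := by
  have e0 : 0 ≤ ε := (abs_nonneg _).trans h'.a
  obtain ⟨p1, p2⟩ := abs_le.1 h.a
  obtain ⟨q1, q2⟩ := abs_le.1 h.b
  obtain ⟨t1, t2⟩ := abs_le.1 h.d
  obtain ⟨a1, a2⟩ := abs_le.1 h'.a
  obtain ⟨c1, c2⟩ := abs_le.1 h'.b
  obtain ⟨d1, d2⟩ := abs_le.1 h'.d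
  have ha : |T 0 0| ≤ 2 := abs_le.2 ⟨by linarith only [hε, hδ, a1], by linarith only [hε, hδ, a2]⟩
  have hd : |T 1 1| ≤ 2 := abs_le.2 ⟨by linarith only [hε, hδ, d1], by linarith only [hε, hδ, d2]⟩
  have ht : |P 1 1| ≤ 2 := abs_le.2 ⟨by linarith only [hδ, t1], by linarith only [hδ, t2]⟩
  have hq : |P 0 1| ≤ K + 1 := abs_le.2 ⟨by linarith only [hδ, b1, q1], by linarith only [hδ, b0, b1, q2]⟩
  have hb : |T 0 1| ≤ C + 1 := abs_le.2 ⟨by linarith only [hε, hδ, b3, c1], by linarith only [hε, hδ, b2, b3, c2]⟩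
  have k1 := mul_nonneg (e0.trans hε) (b0.trans b1)
  have k2 := mul_nonneg (e0.trans hε) (b2.trans b3)
  obtain ⟨m1, m2⟩ := am h.a ha
  obtain ⟨m3, m4⟩ := am hq (h'.c.trans hε)
  obtain ⟨m5, m6⟩ := am h.a hb
  obtain ⟨m7, m8⟩ := am hq (h'.d.trans hε)
  obtain ⟨n1, n2⟩ := am h.c ha
  obtain ⟨n3, n4⟩ := am ht (h'.c.trans hε)
  obtain ⟨n5, n6⟩ := am h.c hb
  obtain ⟨n7, n8⟩ := am h.d hd
  refine ⟨?_, ?_, ?_, ?_⟩ <;> rw [basic_mul, abs_le] <;> constructor
  · linarith only [m1, m3, a1, hε, k2, e0]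
  · linarith only [m2, m4, a2, hε, k2, e0]
  · linarith only [m5, m7, c1, q1, hε]
  · linarith only [m6, m8, c2, q2, hε]
  · linarith only [n1, n3, k1, k2]
  · linarith only [n2, n4, k1, k2]
  · linarith only [n5, n7, d1, hε, k1]
  · linarith only [n6, n8, d2, hε, k1]

theorem nrA {c ε x x' : ℝ} {T : G} (h : EA c ε x x' T) : Nr ε 0 T :=
  ⟨h.a, by rw [add_zero]; exact h.b, h.c0, h.d⟩

theorem nrB {c C ε x x' : ℝ} {T : G} (h : EB c C ε x x' T) : Nr ε (-T 0 1) T :=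
  ⟨h.a, by rw [add_neg_cancel, abs_zero]; exact (abs_nonneg _).trans h.a, h.c0, h.d⟩

/-- One step of the lower bound for the lower left entry. -/
theorem low {c C ε δ b x₀ x x' w : ℝ} {P T : G} (hc : 0 < c) (h : Nr δ b P) (hδ : δ ≤ 1 / 2)
    (hε : ε ≤ 1 / 2) (hw : 1 ≤ w) (hx : 8 * C * w ≤ c * exp x)
    (hT : EA c ε x x' T ∨ EB c C ε x x' T) (h0 : c ≤ w * (-P 1 0 * exp x₀))
    (h1 : c ≤ w * (-P 1 0 * exp x)) :
    c ≤ w * 8 * (-(P * T) 1 0 * exp x₀) ∧ c ≤ w * 8 * (-(P * T) 1 0 * exp x') := by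
  have w0 : 0 < w := by linarith only [hw]
  have e0 := exp_pos x₀
  have e1 := exp_pos x
  have e2 := exp_pos x'
  have r0 : 0 < -P 1 0 := pos_of_mul_pos_left (pos_of_mul_pos_right (hc.trans_le h1) w0.le) e1.le
  obtain ⟨t1, t2⟩ := abs_le.1 h.d
  have ha : 1 / 2 ≤ T 0 0 := by
    have := (abs_le.1 (hT.elim (·.a) (·.a))).1
    linarith only [this, hε]
  have k1 := mul_le_mul_of_nonneg_left ha r0.le
  have fin : ∀ {u v : ℝ}, c ≤ w * u → u ≤ 8 * v → c ≤ w * 8 * v := fun a b => by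
    rw [mul_assoc]; exact a.trans (mul_le_mul_of_nonneg_left b w0.le)
  rw [basic_mul]
  rcases hT with hT | hT
  · have g0 : 0 < -T 1 0 := pos_of_mul_pos_left (by linarith only [hT.c2, hc]) e2.le
    have k2 := mul_le_mul_of_nonneg_right (show 1 / 2 ≤ P 1 1 by linarith only [t1, hδ]) g0.le
    refine ⟨fin h0 ?_, fin (le_mul_of_one_le_left hc.le hw) ?_⟩
    · rw [← mul_assoc]
      exact mul_le_mul_of_nonneg_right (by linarith only [k1, k2, g0, r0]) e0.le
    · have := mul_le_mul_of_nonneg_right (show -T 1 0 ≤ 8 * -(P 1 0 * T 0 0 + P 1 1 * T 1 0) by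
        linarith only [k1, k2, g0, r0]) e2.le
      linarith only [this, hT.c2]
  · have k2 : 8 * C ≤ -P 1 0 * exp x ^ 2 := le_of_mul_le_mul_left (by
      linarith only [hx, mul_le_mul_of_nonneg_right h1 e1.le]) w0
    have k3 : 8 * |T 1 0| ≤ -P 1 0 :=
      le_of_mul_le_mul_right (by linarith only [k2, hT.c1]) (pow_pos e1 2)
    have k4 := (am (show |P 1 1| ≤ 2 from abs_le.2 ⟨by linarith only [t1, hδ],
      by linarith only [t2, hδ]⟩) (le_refl |T 1 0|)).2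
    have k5 : -P 1 0 ≤ 4 * -(P 1 0 * T 0 0 + P 1 1 * T 1 0) := by linarith only [k1, k3, k4]
    refine ⟨fin h0 ?_, fin h1 ?_⟩
    · rw [← mul_assoc]
      exact mul_le_mul_of_nonneg_right (by linarith only [k5, r0]) e0.le
    · linarith only [mul_le_mul k5 hT.x2 e1.le (r0.le.trans k5)]

theorem dia_I (x : ℝ) : (dia x • I : ℍ).re = 0 ∧ (dia x • I : ℍ).im = exp x := by
  have e : ((dia x • I : ℍ) : ℂ) = (exp x : ℝ) * Complex.I := by
    rw [basic_coe_smul, div_eq_iff (basic_denom _ I), coe_I, basic_dia00, basic_dia01, basic_dia10,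
      basic_dia11, show exp (x / 2) = exp x * exp (-(x / 2)) by rw [← exp_add]; congr 1; ring]
    push_cast
    ring
  rw [← coe_re, ← coe_im, e]
  simp only [Complex.mul_re, Complex.mul_im, Complex.ofReal_re, Complex.ofReal_im, Complex.I_re,
    Complex.I_im, mul_zero, mul_one, sub_zero, add_zero, and_self]

end Mt

open Mt in
theorem mat : MAT_s := by
  intro c hc C N ε' hε'
  by_cases hC : C < c
  · exact ⟨1, one_pos, 0, fun m _ x T _ _ ⟨i, _, h⟩ => absurd hC (by linarith only [h.b1, h.b2])⟩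
  have C0 : 0 ≤ C := hc.le.trans (not_lt.1 hC)
  have NC : 0 ≤ N * C := mul_nonneg (Nat.cast_nonneg N) C0
  obtain ⟨A, hA⟩ : ∃ A, A = N * C + C + 4 := ⟨_, rfl⟩
  have A1 : 1 ≤ A := by linarith only [hA, NC, C0]
  obtain ⟨μ, μ0, μ1, μ2, μ3⟩ : ∃ μ > 0, μ ≤ 1 / 2 ∧ μ ≤ ε' / 2 ∧ μ ≤ c / 4 :=
    ⟨min (1 / 2) (min (ε' / 2) (c / 4)), by positivity, min_le_left _ _,
      (min_le_right _ _).trans (min_le_left _ _), (min_le_right _ _).trans (min_le_right _ _)⟩
  have AN : 0 < A ^ N := pow_pos (one_pos.trans_le A1) N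
  obtain ⟨ε, ε0, hε⟩ : ∃ ε > 0, ε * A ^ N = μ := ⟨μ / A ^ N, div_pos μ0 AN, div_mul_cancel₀ _ AN.ne'⟩
  have u1 : ∀ k ≤ N, ε * A ^ k ≤ μ := fun k hk =>
    hε ▸ mul_le_mul_of_nonneg_left (pow_le_pow_right₀ A1 hk) ε0.le
  have u2 : ∀ k, ε ≤ ε * A ^ k := fun k => le_mul_of_one_le_right ε0.le (one_le_pow₀ A1)
  refine ⟨ε, ε0, (8 * C + N * C + 2) * 8 ^ N / c, fun m hm x T hx hT hB => ?_⟩
  have hX : ∀ i ≤ m, (8 * C + N * C + 2) * 8 ^ N ≤ c * exp (x i) := fun i hi => by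
    rw [← div_le_iff₀' hc]
    linarith only [hx i hi, add_one_le_exp (x i)]
  have I1 : ∀ k ≤ m, ∃ b, 0 ≤ b ∧ b ≤ k * C ∧ Nr (ε * A ^ k) b (pr T k) ∧
      ((∃ i < k, EB c C ε (x i) (x (i + 1)) (T i)) → c ≤ b) := fun k => by
    induction k with
    | zero =>
      refine fun _ => ⟨0, le_rfl, by simp, ?_, fun ⟨i, hi, _⟩ => absurd hi (Nat.not_lt_zero i)⟩
      constructor <;> simp only [pr, Fin.isValue, Matrix.SpecialLinearGroup.coe_one, Matrix.one_apply_eq, sub_self, abs_zero, pow_zero, mul_one, ε0.le, ne_eq, zero_ne_one, not_false_eq_true, Matrix.one_apply_ne, add_zero, one_ne_zero]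
    | succ k ih =>
      intro hk
      obtain ⟨b, b0, b1, hb, b2⟩ := ih (by omega)
      have kN : (k : ℝ) * C ≤ N * C :=
        mul_le_mul_of_nonneg_right (Nat.cast_le.2 (by omega)) C0
      have d1 : ε * A ^ k ≤ 1 := (u1 k (by omega)).trans (by linarith only [μ1])
      rw [pow_succ, ← mul_assoc, Nat.cast_succ, add_mul, one_mul]
      by_cases hE : EB c C ε (x k) (x (k + 1)) (T k)
      · refine ⟨b + -T k 0 1, by linarith only [b0, hE.b2, hc], by linarith only [b1, hE.b1],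
          hA ▸ hb.mul (nrB hE) (u2 k) d1 b0 (b1.trans kN) (by linarith only [hE.b2, hc])
            (neg_le.1 hE.b1), fun _ => by linarith only [b0, hE.b2]⟩
      · refine ⟨b + 0, by linarith only [b0], by linarith only [b1, C0],
          hA ▸ hb.mul (nrA ((hT k hk).resolve_right hE)) (u2 k) d1 b0 (b1.trans kN) le_rfl C0,
          fun ⟨i, hi, h⟩ => ?_⟩
        rw [add_zero]
        exact b2 ⟨i, lt_of_le_of_ne (by omega) (fun e => hE (e ▸ h)), h⟩
  obtain ⟨b, b0, b1, hb, b2⟩ := I1 m le_rfl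
  have b3 := b2 hB
  have b4 : (m : ℝ) * C ≤ N * C := mul_le_mul_of_nonneg_right (Nat.cast_le.2 hm) C0
  have d := u1 m hm
  obtain ⟨p1, p2⟩ := abs_le.1 hb.a
  obtain ⟨q1, q2⟩ := abs_le.1 hb.b
  obtain ⟨s1, s2⟩ := abs_le.1 hb.c
  obtain ⟨t1, t2⟩ := abs_le.1 hb.d
  refine ⟨abs_le.2 ⟨by rw [tr]; linarith only [p1, t1, d, μ2], by
    rw [tr]; linarith only [p2, t2, d, μ2]⟩, ?_, fun h0 => ?_⟩
  · simp only [Lam, I_re, I_im]
    linarith only [q2, s1, d, μ3, b3, hc]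
  have w8 : ∀ k ≤ N, (8 : ℝ) ^ k ≤ 8 ^ N := fun k hk => pow_le_pow_right₀ (by norm_num) hk
  have I2 : ∀ k, k + 1 ≤ m → c ≤ 8 ^ k * (-pr T (k + 1) 1 0 * exp (x 0)) ∧
      c ≤ 8 ^ k * (-pr T (k + 1) 1 0 * exp (x (k + 1))) := fun k => by
    induction k with
    | zero =>
      intro _
      rw [pr, pr, one_mul, pow_zero, one_mul, one_mul]
      exact ⟨by linarith only [h0.c1], by linarith only [h0.c2]⟩
    | succ k ih =>
      intro hk
      obtain ⟨b, -, -, hb, -⟩ := I1 (k + 1) (by omega)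
      rw [pow_succ]
      refine low hc hb ((u1 _ (by omega)).trans μ1) ((u2 0).trans ((u1 0 N.zero_le).trans μ1))
        (one_le_pow₀ (by norm_num)) (le_trans ?_ (hX _ (by omega))) (hT _ hk) (ih (by omega)).1
        (ih (by omega)).2
      exact mul_le_mul (by linarith only [NC]) (w8 k (by omega)) (by positivity) (by positivity)
  obtain ⟨i, hi, -⟩ := hB
  obtain ⟨k, rfl⟩ : ∃ k, m = k + 1 := ⟨m - 1, by omega⟩
  have j1 := (I2 k le_rfl).1
  have e0 := exp_pos (x 0)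
  have r0 : 0 < -pr T (k + 1) 1 0 :=
    pos_of_mul_pos_left (pos_of_mul_pos_right (hc.trans_le j1) (by positivity)) e0.le
  have j2 := j1.trans (mul_le_mul_of_nonneg_right (w8 k (by omega)) (mul_pos r0 e0).le)
  have j3 : 8 * C + N * C + 2 ≤ -pr T (k + 1) 1 0 * exp (x 0) ^ 2 := le_of_mul_le_mul_right (by
    linarith only [hX 0 (Nat.zero_le _), mul_le_mul_of_nonneg_right j2 e0.le])
    (show (0 : ℝ) < 8 ^ N by positivity)
  constructor
  · have j4 := mul_pos (show 0 < -pr T (k + 1) 0 1 by linarith only [q2, d, μ3, b3, hc]) r0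
    have j5 := basic_det (pr T (k + 1))
    rw [tr]
    refine lt_of_pow_lt_pow_left₀ 2 (by linarith only [p1, t1, d, μ1]) ?_
    linarith only [j4, j5, sq_nonneg (pr T (k + 1) 0 0 - pr T (k + 1) 1 1)]
  · rw [Lam, (dia_I _).1, (dia_I _).2]
    exact div_pos (by linarith only [j3, q1, d, μ1, b1, b4, C0]) e0

end Pool.Agent.MP_596265_gt.U.Sp

end

section

namespace Pool.Agent.MP_596265_gt.U.Ent

open Erg Real UpperHalfPlane Set Filter Topology

variable {g : ℕ} {E : Type}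

theorem gap {ι : Type} [Fintype ι] (v : ι → ℝ) (F : ℝ → ℝ) (hF : ∀ x, x ≤ F x) (B : ℝ) :
    ∃ j ≤ Fintype.card ι, ∀ i, v i ≤ F^[j] B ∨ F^[j + 1] B < v i := by
  by_contra h
  push Not at h
  choose f hf using fun j : Fin (Fintype.card ι + 1) => h j (Nat.lt_succ_iff.1 j.2)
  have hm : Monotone fun j => F^[j] B := monotone_nat_of_le_succ fun j => by
    rw [Function.iterate_succ_apply']; exact hF _
  have hi : Function.Injective f := fun a b e => by
    by_contra hn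
    rcases lt_or_gt_of_ne hn with k | k
    · have := hm (show a.1 + 1 ≤ b.1 from k)
      have h1 := (hf a).2
      have h2 := (hf b).1
      rw [← e] at h2
      simp only at this
      linarith
    · have := hm (show b.1 + 1 ≤ a.1 from k)
      have h1 := (hf b).2
      have h2 := (hf a).1
      rw [e] at h2
      simp only at this
      linarith
  have := Fintype.card_le_of_injective f hi
  simp only [Fintype.card_fin, add_le_iff_nonpos_right, nonpos_iff_eq_zero, one_ne_zero] at this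

theorem card_dr (hg : 1 ≤ g) : (Fintype.card (Dr (Ed g)) : ℝ) = 12 * g - 6 := by
  simp only [Fintype.card_prod, Fintype.card_fin, Fintype.card_bool]
  rw [Nat.cast_mul, Nat.cast_sub (by omega)]
  push_cast
  ring

theorem short (hT : TAx g) (hg : 2 ≤ g) : ∃ B : ℝ, ∀ {e : ℤ} {M z} {τ : MS g}, e ≤ 2 * g - 2 →
    M ∈ X g e → Fm M → MT τ → Ps M z τ →
    (∀ d, 0 ≤ hH z (vQ (geo M τ.2) z d) (vR τ.1 (geo M τ.2) z d)) →
    ∃ d, dist z (vQ (geo M τ.2) z d) ≤ B := by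
  have hg' : (2 : ℝ) ≤ g := by exact_mod_cast hg
  set θ : ℝ := π / 2 * ((12 * g - 9) / (12 * g - 6)) with hθ
  have h6 : (0 : ℝ) < 12 * g - 6 := by linarith only [hg']
  have θ0 : 0 < θ := by
    have : (0 : ℝ) < 12 * g - 9 := by linarith only [hg']
    positivity
  have θ1 : θ < π / 2 := by
    have : ((12 * g - 9) / (12 * g - 6) : ℝ) < 1 := by rw [div_lt_one h6]; linarith only []
    nlinarith only [pi_pos, hθ, this]
  have t0 : 0 < tan θ := tan_pos_of_pos_of_lt_pi_div_two θ0 θ1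
  refine ⟨3 + 50 * tan θ ^ 2, fun {e M z τ} he hM hF h1 h2 h3 => ?_⟩
  by_contra h
  push Not at h
  have G := DF.gs_of hT hF h1 h2
  have k : ∀ p q : ℍ, 3 + 50 * tan θ ^ 2 < dist p q → 3 + 50 * tan θ ^ 2 ≤ ch p q := fun p q h => by
    have := Real.add_one_le_exp (dist p q)
    have h2 := Real.exp_pos (-dist p q)
    have h3 := Real.self_le_sinh_iff.2 (dist_nonneg (x := p) (y := q))
    have h4 := Real.sinh_lt_cosh (dist p q)
    rw [ch]
    linarith only [h, h3, h4]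
  have a : ∀ d, 2 * θ ≤ tarea z (vQ (geo M τ.2) z d) (vR τ.1 (geo M τ.2) z d) := fun d => by
    have := tarea_fat (ν := 1) (.inl rfl) t0 (p := z) (r := vQ (geo M τ.2) z d)
      (q := vR τ.1 (geo M τ.2) z d) ((hD_pos (ν := 1)).1 (by rw [one_mul]; exact h2 d)) (h3 d)
      (k _ _ (by rw [Stp.dist_R G.flat]; exact h _))
      (k _ _ (by rw [dist_comm, Stp.dist_QR]; exact h _)) (k _ _ (h d))
    rwa [arctan_tan (by linarith only [θ0, θ1]) θ1, one_mul] at this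
  have s := Finset.sum_le_sum fun d (_ : d ∈ Finset.univ) => a d
  rw [hT.area z h1 hM, Finset.sum_const, Finset.card_univ, nsmul_eq_mul, card_dr (by omega), hθ] at s
  have he' : (e : ℝ) ≤ 2 * g - 2 := by exact_mod_cast he
  have : (12 * g - 6 : ℝ) * (2 * (π / 2 * ((12 * g - 9) / (12 * g - 6)))) = π * (12 * g - 9) := by
    field_simp
  nlinarith only [θ0, θ1, s, he', this]

/-- A set of darts closed under the rotation at the vertex is everything. -/
theorem all_of_tw {n : Nx E} (h : Trg n) {O : Set (Dr E)} (hO : ∀ d, n (rev d) ∈ O ↔ d ∈ O)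
    {x : Dr E} (hx : x ∈ O) (y : Dr E) : y ∈ O := by
  classical
  have := h.one (fun d => if d ∈ O then 1 else 0) (fun d => by
    have := hO (rev d)
    rw [rev_rev] at this
    simp only [this]) x y
  by_contra hy
  simp only [hx, ↓ reduceIte, hy, one_ne_zero] at this

open Classical in
/-- The next long dart. -/
noncomputable def sc (n : Nx E) (P : Dr E → Prop) (x : Dr E) : Dr E :=
  if P (n (n x)) then rev (n (n x)) else rev (n x)

theorem rev_inj {x y : Dr E} (h : rev x = rev y) : x = y := by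
  rw [← rev_rev x, h, rev_rev]

theorem orbit [Fintype E] {n : Nx E} (h : Trg n) {P : Dr E → Prop} (h1 : ∀ d, P (rev d) ↔ P d)
    (h2 : ∀ d, P d → P (n d) ∨ P (n (n d))) {x y : Dr E} (hx : P x) (hy : ¬ P y) :
    ∃ (m : ℕ) (s : ℕ → Dr E), 0 < m ∧ m ≤ Fintype.card (Dr E) ∧ (∀ i, s (i + m) = s i) ∧
      (∀ i, P (s i)) ∧ (∀ i, s (i + 1) = sc n P (s i)) ∧ P (n (n (s 0))) ∧
      ∃ i < m, ¬ P (n (n (s i))) := by
  classical
  have k : ∀ d, P d → P (sc n P d) := fun d hd => by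
    unfold sc
    split_ifs with c
    · exact (h1 _).2 c
    · exact (h1 _).2 ((h2 d hd).resolve_right c)
  let f : {d // P d} → {d // P d} := fun d => ⟨sc n P d.1, k _ d.2⟩
  have fi : Function.Injective f := fun a b e => by
    have e : sc n P a.1 = sc n P b.1 := congrArg Subtype.val e
    apply Subtype.ext
    unfold sc at e
    split_ifs at e with c c' c'
    · exact n.injective (n.injective (rev_inj e))
    · exact absurd (by rw [← n.injective (rev_inj e), h.cube]; exact a.2) c'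
    · exact absurd (by rw [n.injective (rev_inj e), h.cube]; exact b.2) c
    · exact n.injective (rev_inj e)
  have hp : ∀ a, a ∈ Function.periodicPts f := fi.mem_periodicPts
  set a : {d // P d} := ⟨x, hx⟩
  set m := Function.minimalPeriod f a
  have m0 : 0 < m := Function.minimalPeriod_pos_of_mem_periodicPts (hp a)
  have m1 : m ≤ Fintype.card (Dr E) :=
    Function.minimalPeriod_le_card.trans (Fintype.card_subtype_le _)
  let t : ℕ → Dr E := fun i => (f^[i] a).1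
  have t1 : ∀ i, t (i + m) = t i := fun i => by
    simp only [t, Function.iterate_add_apply, m, Function.iterate_minimalPeriod]
  have t2 : ∀ i, t (i + 1) = sc n P (t i) := fun i => by
    simp only [t, Function.iterate_succ_apply', f]
  have t3 : ∀ i, P (t i) := fun i => (f^[i] a).2
  have pre : ∀ i, ∃ j, t i = t (j + 1) := fun i => ⟨i + m - 1, by
    rw [show i + m - 1 + 1 = i + m by omega, t1]⟩
  have hA : ∃ i, P (n (n (t i))) := by
    by_contra c
    push Not at c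
    have e : ∀ i, t (i + 1) = rev (n (t i)) := fun i => by rw [t2, sc, if_neg (c i)]
    obtain ⟨i, hi⟩ := all_of_tw h (O := {d | ∃ i, rev (t i) = d}) (fun d => by
      constructor
      · rintro ⟨i, hi⟩
        obtain ⟨j, hj⟩ := pre i
        rw [hj, e, rev_rev] at hi
        exact ⟨j, by rw [n.injective hi, rev_rev]⟩
      · rintro ⟨i, rfl⟩
        exact ⟨i + 1, by rw [e, rev_rev, rev_rev]⟩) ⟨0, rfl⟩ y
    exact hy (hi ▸ (h1 _).2 (t3 i))
  have hB : ∃ i, ¬ P (n (n (t i))) := by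
    by_contra c
    push Not at c
    have e : ∀ i, t (i + 1) = rev (n (n (t i))) := fun i => by rw [t2, sc, if_pos (c i)]
    obtain ⟨i, hi⟩ := all_of_tw h (O := {d | ∃ i, t i = d}) (fun d => by
      constructor
      · rintro ⟨i, hi⟩
        exact ⟨i + 1, by rw [e, hi, h.cube, rev_rev]⟩
      · rintro ⟨i, rfl⟩
        obtain ⟨j, hj⟩ := pre i
        exact ⟨j, by rw [hj, e, rev_rev, h.cube]⟩) ⟨0, rfl⟩ y
    exact hy (hi ▸ t3 i)
  obtain ⟨i, hi⟩ := hA
  obtain ⟨j, hj⟩ := hB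
  have per : ∀ q r, t (r + q * m) = t r := fun q r => by
    induction q with
    | zero => simp
    | succ q ih => rw [Nat.succ_mul, ← add_assoc, t1, ih]
  refine ⟨m, fun r => t (r + i), m0, m1, fun r => ?_, fun r => t3 _, fun r => ?_, by simpa using hi,
    (j + i * m - i) % m, Nat.mod_lt _ m0, ?_⟩
  · simp only; rw [add_right_comm, t1]
  · simp only; rw [add_right_comm, t2]
  · have e1 : i ≤ i * m := Nat.le_mul_of_pos_right _ m0
    have e2 := Nat.mod_add_div' (j + i * m - i) m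
    have e3 := per ((j + i * m - i) / m) ((j + i * m - i) % m + i)
    rw [add_right_comm, e2, show j + i * m - i + i = j + i * m by omega, per] at e3
    simp only
    rwa [← e3]

end Pool.Agent.MP_596265_gt.U.Ent

end

section

/-! A gap in the lengths of the edges gives a strip. -/

namespace Pool.Agent.MP_596265_gt.U.Sp

open Erg Real UpperHalfPlane Set

theorem pr_add (T : ℕ → G) (i j : ℕ) : pr T (i + j) = pr T i * pr (fun a => T (i + a)) j := by
  induction j with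
  | zero => simp [pr]
  | succ j ih => rw [← add_assoc, pr, ih, pr, mul_assoc]

theorem frame (a w : ℍ) : ∃ F : G, F • I = a ∧ F • dia (dist a w) • I = w := by
  obtain ⟨h, rfl⟩ := exists_smul_I a
  obtain ⟨h', rfl⟩ := exists_smul_I w
  obtain ⟨θ, ψ, e⟩ := kak (h⁻¹ * h')
  refine ⟨h * rot θ, by rw [mul_smul, rot_smul_I], ?_⟩
  rw [dist_smul_I, ← rot_smul_I ψ, ← mul_smul, ← mul_smul, mul_assoc h, mul_assoc h, ← e,
    mul_inv_cancel_left, rot_smul_I]

theorem hH_smul (k : G) (p q r : ℍ) : hH (k • p) (k • q) (k • r) = hH p q r := by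
  simp only [hH, kS, ch, dist_smul]

variable {E : Type} {n : Nx E} {L : E → G} {z : ℍ}

theorem ln_rev (L : E → G) (z : ℍ) (d : Dr E) : ln L z (rev d) = ln L z d := by
  rw [ln, ln, vQ, vQ, dlab_rev, ← dist_smul (dlab L d), smul_inv_smul, dist_comm]

theorem vQ_nn (h : Flat n L) (z : ℍ) (d : Dr E) : vQ L z (rev (n (n d))) = vR n L z d := by
  rw [vQ, vR, dlab_rev, mul_smul, ← DF.Flat.act h d ((dlab L (n (n d)))⁻¹ • z), smul_inv_smul]

theorem vQ_n (n : Nx E) (L : E → G) (z : ℍ) (d : Dr E) :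
    (dlab L d * dlab L (n d)) • vQ L z (rev (n d)) = vQ L z d := by
  rw [vQ, vQ, dlab_rev, mul_smul, smul_inv_smul]

theorem mouth (hl : LAM_s) (he : ENT_s) (hm : MAT_s) : MOUTH_s := by
  intro η hη B N ε hε
  obtain ⟨c, hc, C, he⟩ := he η hη B
  obtain ⟨ε₁, h1, Λ₁, hm⟩ := hm c hc C N ε hε
  obtain ⟨Λ₂, he⟩ := he ε₁ h1
  obtain ⟨B', b1, b2, b3⟩ : ∃ B', Λ₁ ≤ B' ∧ Λ₂ ≤ B' ∧ 2 * |B| + 1 ≤ B' :=
    ⟨max (max Λ₁ Λ₂) (2 * |B| + 1), le_max_of_le_left (le_max_left _ _),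
      le_max_of_le_left (le_max_right _ _), le_max_right _ _⟩
  have b4 := le_abs_self B
  have b5 := abs_nonneg B
  refine ⟨B', by linarith, fun {E _ n L z} hN hG hH0 hη' hg ⟨y, hy⟩ ⟨x, hx⟩ => ?_⟩
  classical
  obtain ⟨P, hP⟩ : ∃ P : Dr E → Prop, ∀ d, P d ↔ B' ≤ ln L z d := ⟨_, fun _ => Iff.rfl⟩
  have sm : ∀ d, ¬ P d → ln L z d ≤ B := fun d h => (hg d).resolve_right (mt (hP d).2 h)
  obtain ⟨m, s, m0, mN, per, sP, nx, s0, hB⟩ := Ent.orbit hG.trg (P := P) (x := x) (y := y)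
    (fun d => by rw [hP, hP, ln_rev]) (fun d hd => by
      by_contra h
      have t := dist_triangle_right z (vQ L z d) (vR n L z d)
      rw [Stp.dist_QR, Stp.dist_R hG.flat] at t
      linarith only [sm _ (not_or.1 h).1, sm _ (not_or.1 h).2, (hP d).1 hd, show ln L z d ≤ ln L z (n (n d)) + ln L z (n d) from t, b3, b4])
    ((hP x).2 hx) (fun h => by linarith only [(hP y).1 h, b3, b4, b5, hy])
  choose F F1 F2 using fun d => frame z (vQ L z d)
  have F1' : ∀ d, (F d)⁻¹ • z = I := fun d => inv_smul_eq_iff.2 (F1 d).symm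
  have F2' : ∀ d, (F d)⁻¹ • vQ L z d = dia (ln L z d) • I := fun d => inv_smul_eq_iff.2 (F2 d).symm
  have key : ∀ d, ∃ T : G, P d → P (Ent.sc n P d) →
      (P (n (n d)) → PM T ((F d)⁻¹ * F (Ent.sc n P d)) ∧
        EA c ε₁ (ln L z d) (ln L z (Ent.sc n P d)) T) ∧
      (¬ P (n (n d)) → PM T ((F d)⁻¹ * (dlab L d * dlab L (n d)) * F (Ent.sc n P d)) ∧
        EB c C ε₁ (ln L z d) (ln L z (Ent.sc n P d)) T) := by
    intro d
    by_cases hd : P d ∧ P (Ent.sc n P d)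
    swap
    · exact ⟨1, fun a b => absurd ⟨a, b⟩ hd⟩
    have k1 : 0 < hD I (dia (ln L z d) • I) ((F d)⁻¹ • vR n L z d) := by
      rw [← F2' d, ← F1' d, DF.hD_smul]; exact hG.pos d
    have k2 : 0 ≤ hH I (dia (ln L z d) • I) ((F d)⁻¹ • vR n L z d) := by
      rw [← F2' d, ← F1' d, hH_smul]; exact hH0 d
    have k := he _ (b2.trans ((hP _).1 hd.1)) _ (b2.trans ((hP _).1 hd.2))
    by_cases hA : P (n (n d))
    · have e : ((F d)⁻¹ * F (Ent.sc n P d)) • dia (ln L z (Ent.sc n P d)) • I =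
          (F d)⁻¹ • vR n L z d := by
        rw [mul_smul, ln, F2, Ent.sc, if_pos hA, vQ_nn hG.flat]
      obtain ⟨T, t⟩ := (k _).1 (by rw [mul_smul, F1, F1']) (e ▸ k1) (e ▸ k2) (by
        rw [e, ← F2', dist_smul, Stp.dist_QR]; exact hη' _)
      exact ⟨T, fun _ _ => ⟨fun _ => t, fun h => absurd hA h⟩⟩
    · have e : ((F d)⁻¹ * (dlab L d * dlab L (n d)) * F (Ent.sc n P d)) • I =
          (F d)⁻¹ • vR n L z d := by rw [mul_smul, F1, mul_smul, vR]
      have e2 : dist I ((F d)⁻¹ • vR n L z d) = ln L z (n (n d)) := by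
        rw [← F1' d, dist_smul, Stp.dist_R hG.flat, ln]
      obtain ⟨T, t⟩ := (k _).2 (by
        rw [mul_smul, ln, F2, Ent.sc, if_neg hA, mul_smul, vQ_n, F2']) (e ▸ k1) (e ▸ k2)
        (by rw [e, e2]; exact hη' _) (by rw [e, e2]; exact sm _ hA)
      exact ⟨T, fun _ _ => ⟨fun h => absurd h hA, fun _ => t⟩⟩
  choose T hT using key
  have hT' := fun i => hT (s i) (sP i) (nx i ▸ sP (i + 1))
  simp only [← nx] at hT'
  obtain ⟨γ, hγ⟩ : ∃ γ : ℕ → G, ∀ i, γ i = F (s 0) * pr (fun j => T (s j)) i := ⟨_, fun _ => rfl⟩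
  obtain ⟨A, hA⟩ : ∃ A : G, A = γ m * (F (s 0))⁻¹ := ⟨_, rfl⟩
  have cj : ∀ i, A = γ i * pr (fun j => T (s (i + j))) m * (γ i)⁻¹ := fun i => by
    have e1 := pr_add (fun j => T (s j)) i m
    have e2 := pr_add (fun j => T (s j)) m i
    simp only [add_comm m, per] at e2
    rw [hA, hγ, hγ, mul_assoc (F (s 0)) _ (pr _ m), ← e1, e2]
    group
  have hB' : ∀ i, ∃ j < m, ¬ P (n (n (s (i + j)))) := fun i => by
    induction i with
    | zero => simpa using hB
    | succ i ih =>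
      obtain ⟨j, j1, j2⟩ := ih
      rcases j with _ | j
      · exact ⟨m - 1, by omega, by rwa [show i + 1 + (m - 1) = i + m by omega, per]⟩
      · exact ⟨j, by omega, by rwa [show i + 1 + j = i + (j + 1) by omega]⟩
  have M := fun i => hm m (mN.trans hN) (fun j => ln L z (s (i + j))) (fun j => T (s (i + j)))
    (fun j _ => b1.trans ((hP _).1 (sP _)))
    (fun j _ => (em _).imp (fun h => ((hT' (i + j)).1 h).2) fun h => ((hT' (i + j)).2 h).2)
    ((hB' i).imp fun j h => ⟨h.1, ((hT' (i + j)).2 h.2).2⟩)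
  obtain ⟨k, hk⟩ : ∃ k : ℕ → G, ∀ i, k i = γ i * (F (s i))⁻¹ := ⟨_, fun _ => rfl⟩
  have kA : ∀ i, P (n (n (s i))) → PM (k (i + 1)) (k i) := fun i h => by
    have := ((PM.refl (γ i)).mul ((hT' i).1 h).1).mul (PM.refl (F (s (i + 1)))⁻¹)
    rw [mul_assoc, mul_assoc, mul_assoc, mul_inv_cancel, mul_one, ← hk] at this
    rwa [hk, hγ, pr, ← mul_assoc, ← hγ, mul_assoc]
  have kB : ∀ i, ¬ P (n (n (s i))) → PM (k (i + 1)) (k i * dlab L (s i) * dlab L (n (s i))) :=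
    fun i h => by
      have := ((PM.refl (γ i)).mul ((hT' i).2 h).1).mul (PM.refl (F (s (i + 1)))⁻¹)
      rw [mul_assoc, mul_assoc, mul_assoc, mul_inv_cancel, mul_one, ← mul_assoc _ _ (_ * _), ← hk,
        ← mul_assoc (k i)] at this
      rwa [hk, hγ, pr, ← mul_assoc, ← hγ, mul_assoc]
  have lf : ∀ i, Lam A (k i • z) ≤ 0 := fun i => by
    rw [hk, mul_smul, F1', cj i, hl.2.1]; exact (M i).2.1.le
  have rt : ∀ t i, P (n (n (s (i + t)))) → 0 < Lam A (k i • vQ L z (s i)) := by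
    have a : ∀ i, P (n (n (s i))) → 0 < Lam A (k i • vQ L z (s i)) := fun i h => by
      rw [hk, mul_smul, F2', cj i, hl.2.1]; exact ((M i).2.2 ((hT' i).1 h).2).2
    intro t
    induction t with
    | zero => exact a
    | succ t ih =>
      intro i h
      by_cases h' : P (n (n (s i)))
      · exact a i h'
      have := ih (i + 1) (by rwa [add_assoc, add_comm 1])
      rwa [(kB i h').smul_eq, nx, Ent.sc, if_neg h', mul_assoc, mul_smul, vQ_n] at this
  have rt' : ∀ i, 0 < Lam A (k i • vQ L z (s i)) := fun i => rt (i * (m - 1)) i (by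
    have := (show Function.Periodic s m from per).nat_mul i 0
    rw [zero_add, Nat.cast_id] at this
    rwa [show i + i * (m - 1) = i * m by
      obtain ⟨m', rfl⟩ := Nat.exists_eq_succ_of_ne_zero m0.ne'
      simp [Nat.mul_succ, add_comm], this])
  have st : ∀ i, Stp n L z (Lam A) (k i, s i) (k (i + 1), s (i + 1)) := fun i => by
    refine ⟨lf i, rt' i, ?_⟩
    by_cases h : P (n (n (s i)))
    · have := rt' (i + 1)
      rw [(kA i h).smul_eq, nx, Ent.sc, if_pos h, vQ_nn hG.flat] at this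
      exact Or.inr ⟨this, by rw [nx, Ent.sc, if_pos h], kA i h⟩
    · have := lf (i + 1)
      rw [(kB i h).smul_eq, mul_assoc, mul_smul] at this
      exact Or.inl ⟨this, by rw [nx, Ent.sc, if_neg h], kB i h⟩
  have tg : ∀ i, Relation.TransGen (Stp n L z (Lam A)) (k 0, s 0) (k (i + 1), s (i + 1)) :=
    fun i => by
      induction i with
      | zero => exact .single (st 0)
      | succ i ih => exact ih.tail (st _)
  have ht : tr A = tr (pr (fun j => T (s (0 + j))) m) := by rw [cj 0, tr_conj]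
  refine ⟨A, ht ▸ ((M 0).2.2 ((hT' 0).1 s0).2).1, by linarith only [(abs_le.1 (M 0).1).2, ht], k 0, s 0, ?_⟩
  have := tg (m - 1)
  have p0 : s m = s 0 := by simpa using per 0
  rw [Nat.sub_add_cancel m0, hk m, p0, ← hA] at this
  rwa [show A * k 0 = A by rw [hk, hγ, pr, mul_one, mul_inv_cancel, mul_one]]

end Pool.Agent.MP_596265_gt.U.Sp

end

section

/-! The upper bound for the edges on a leaf. -/

namespace Pool.Agent.MP_596265_gt.U.Sp

open Erg Real UpperHalfPlane Set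

theorem fin (h1 : LEAF_s) (h2 : MOUTH_s) : T2_s := by
  intro g e M z τ η hT hD hg he hM hη ht hp h
  have hF := Bas.fm_of_X hM
  obtain ⟨ε, hε, h1⟩ := h1 hT hD hF ht hp hη h
  obtain ⟨B, hB⟩ := Ent.short hT hg
  choose F F1 F2 using fun B => h2 η hη B (Fintype.card (Dr (Ed g))) ε hε
  have mono : Monotone fun j => F^[j] B := monotone_nat_of_le_succ fun j => by
    rw [Function.iterate_succ_apply']; exact (F1 _).le
  refine ⟨F^[Fintype.card (Dr (Ed g)) + 1] B, fun z' τ' hl hd d => ?_⟩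
  obtain ⟨ht', hp'⟩ := Bas.lf_ps hT hF hl ht hp
  have hG := DF.gs_of hT hF ht' hp'
  obtain ⟨j, j1, j2⟩ := Ent.gap (ln (geo M τ'.2) z') F (fun x => (F1 x).le) B
  rw [Function.iterate_succ_apply'] at j2
  by_contra hn
  obtain ⟨A, a1, a2, a3⟩ := F2 (F^[j] B) le_rfl hG (hD.hH hG hd) (h z' τ' hl hd)
    (fun d => (j2 d).imp_right le_of_lt)
    ((hB he hM hF ht' hp' (hD.hH hG hd)).imp fun d k => k.trans (mono (Nat.zero_le j)))
    ⟨d, by
      rw [← Function.iterate_succ_apply' F]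
      exact (mono (Nat.succ_le_succ j1)).trans (not_le.1 hn).le⟩
  exact h1 A z' τ' a1 a2 hl a3

end Pool.Agent.MP_596265_gt.U.Sp

end

section

/-! On a leaf a lower bound for the edges gives an upper bound. -/

namespace Pool.Agent.MP_596265_gt.U

open Erg UpperHalfPlane

theorem t2 {g : ℕ} {e : ℤ} {M : Tup g} {z : ℍ} {τ : MS g} {η : ℝ} (hT : TAx g) (hD : DAx g)
    (hg : 2 ≤ g) (he : e ≤ 2 * g - 2) (hM : M ∈ X g e) (hη : 0 < η) (ht : MT τ) (hp : Ps M z τ)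
    (h1 : ∀ z' τ', Lf M (z, τ) (z', τ') → Dl M z' τ' →
      ∀ d, η ≤ dist z' (vQ (geo M τ'.2) z' d)) :
    ∃ R, ∀ z' τ', Lf M (z, τ) (z', τ') → Dl M z' τ' → ∀ d, dist z' (vQ (geo M τ'.2) z' d) ≤ R :=
  Sp.fin Sp.leaf (Sp.mouth Sp.lam Sp.ent Sp.mat) hT hD hg he hM hη ht hp h1

end Pool.Agent.MP_596265_gt.U

end
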