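import Pool.Agent.MP_596265_gt.W.C0
import Pool.Agent.MP_596265_gt.W.P0
import Pool.Agent.MP_596265_gt.E5

attribute [-instance] RKHS.instFunLike MonTypeEquivalenceMon.monMonoid SMulZeroClass.toSMul
  NonUnitalRingHomClass.toMulHomClass instNonemptyProd CommSemiring.toSemiring littleWedderburn
  SemigroupWithZero.toSemigroup RCLike.charZero_rclike DivisionCommMonoid.toDivisionMonoid
  GradedMonoid.GradeZero.smul MonoidWithZero.toMulZeroOneClass NonUnitalAlgSemiHomClass.toMulHomClass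
  NormedRing.toRing NonUnitalRing.toNonUnitalNonAssocRing AddQuantale.instAddLeftMono
  Group.IsPerfect.subsingleton_of_isMulCommutative NonAssocSemiring.toMulZeroOneClass
  IdemSemiring.toSemiring CommRing.toRing SeminormedRing.toRing
  Std.instLawfulBEqOfLawfulOrderBEqOfIsPartialOrder TestFunctionClass.toDFunLike
  LinearOrder.toDecidableEq ContDiffMapSupportedInClass.toDFunLike NormedField.toField Pi.instAdd
  MonoidWithZero.toMonoid MonoidWithZeroHomClass.toMonoidHomClass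
  AddCommMonoidWithOne.toAddMonoidWithOne NonUnitalNonAssocSemiring.toAddCommMonoid Semiring.toMonoid
  NonAssocSemiring.toNonUnitalNonAssocSemiring NonUnitalSemiring.toNonUnitalNonAssocSemiring
  GroupWithZero.toDivisionMonoid NonUnitalNormedCommRing.toNonUnitalCommRing
  BialgHomClass.toMonoidHomClass LieAdmissibleRing.toNonUnitalNonAssocRing BooleanRing.toRing
  AddCommGroupWithOne.toAddGroupWithOne CoheytingAlgebra.toOrderTop GroupWithZero.toDivInvMonoid
  NumberField.to_charZero Nontrivial.to_nonempty Algebra.toSMul Equiv.Perm.instDecidableRelSameCycle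
  NonUnitalNonAssocCommSemiring.toNonUnitalNonAssocSemiring DivisionRing.toDivInvMonoid
  instCharZeroOfIsSemireal AddZero.toZero NonUnitalSeminormedCommRing.toNonUnitalCommRing
  SubsemiringClass.toSubmonoidClass NonAssocRing.toNonUnitalNonAssocRing Std.PreorderPackage.toBEq
  FunLike.toDecidableEq LinearOrderedAddCommGroupWithTop.toOrderTop decidableEq_of_subsingleton
  DistribLattice.toLattice Fintype.decidableExistsFintype
  LinearOrderedAddCommMonoidWithTop.toOrderTop AddCommMonoidWithOne.toAddCommMonoid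
  NonAssocCommRing.toNonUnitalNonAssocCommRing Finset.decidableDforallFinset
  FirstOrder.Language.instDecidableEqRelations DivisionRing.toDivisionSemiring
  SemigroupWithZero.toMulZeroClass GeneralizedCoheytingAlgebra.toLattice
  Multiset.decidableDforallMultiset AlgHomClass.toRingHomClass FinEnum.decEq Int.instLawfulBEq
  FirstOrder.Language.instDecidableEqFunctions AddQuantale.instAddRightMono RCLike.toDecidableEq
  Vector.instDecidableForallForallMemOfDecidablePred LeftPreLieRing.toNonUnitalNonAssocRing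
  NormedDivisionRing.toDivisionRing One.instNonempty instCoeTCOfCoe Option.decidableForallMem
  NeZero.of_gt' Array.instDecidableForallForallMemOfDecidablePred
  ConditionallyCompletePartialOrderSup.toPartialOrder Valued.toUniformSpace
  RightPreLieRing.toNonUnitalNonAssocRing MulZeroOneClass.toMulZeroClass
  SubringClass.toSubsemiringClass

section

/-! Block T, simplicity half, part a: diagonals of a polygon are simple. -/

namespace Pool.Agent.MP_596265_gt.U

open Erg

variable {E : Type} {g : ℕ}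

/-- Exactly the image of a standard curve. -/
def Simp0 (c : Fr g) : Prop := ∃ ψ : Fr g ≃* Fr g, AutR ψ ∧
  ((∃ k : Fin g, c = ψ (FreeGroup.of (k, false))) ∨ ∃ h, 0 < h ∧ h < g ∧ c = ψ (relPre g h))

theorem Simp0.simp {c : Fr g} (h : Simp0 c) : Simp c := by
  obtain ⟨ψ, h1, ⟨k, rfl⟩ | ⟨h, h2, h3, rfl⟩⟩ := h
  · exact ⟨ψ, h1, .inl ⟨k, .inl (by simp [Cg])⟩⟩
  · exact ⟨ψ, h1, .inr ⟨h, h2, h3, .inl (by simp [Cg])⟩⟩

theorem ts_diag {P Q : List (Dt g)} (hF : Full (P ++ Q)) (α : Fr g ≃* Fr g)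
    (hα : IsConj (α (FreeGroup.mk (P ++ Q))) (relPre g g)) (h1 : P ≠ []) (h2 : Q ≠ []) :
    Simp0 (α (FreeGroup.mk P)) := by
  by_cases hP : SP P
  · obtain ⟨ψ, h, a1, a2, a3, a4⟩ := std_sep hF ⟨α, hα⟩ hP h1 h2
    refine ⟨ψ.trans α, ?_, .inr ⟨h, a1, a2, by rw [MulEquiv.trans_apply, a4]⟩⟩
    rw [AutR, MulEquiv.trans_apply, a3]; exact hα
  · simp only [SP, not_forall] at hP
    obtain ⟨d, hd, hr⟩ := hP
    have hq : rev d ∈ Q := (List.mem_append.1 (hF.2 (rev d))).resolve_left hr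
    obtain ⟨X, Y, rfl⟩ := List.append_of_mem hd
    obtain ⟨Z, T, rfl⟩ := List.append_of_mem hq
    have e : X ++ d :: Y ++ (Z ++ rev d :: T) = [] ++ X ++ d :: (Y ++ Z ++ rev d :: T) := by simp
    rw [e] at hF hα
    obtain ⟨β, b1, -, b3⟩ := exists_swap [] X Y Z T d hF.1
    have hp : ([] ++ X ++ d :: (Y ++ Z ++ rev d :: T)).Perm
        (d :: (Z ++ Y ++ rev d :: (X ++ T))) := by
      classical
      rw [List.perm_iff_count]
      intro a
      simp only [List.count_append, List.count_cons, List.count_nil]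
      omega
    rw [← b3] at hα
    obtain ⟨ψ, k, -, c1, c2, -⟩ := std_diag (hF.perm hp) ⟨β.trans α, hα⟩
    refine ⟨ψ.trans (β.trans α), ((β.trans α).toMonoidHom.map_isConj c1).trans hα, .inl ⟨k, ?_⟩⟩
    rw [MulEquiv.trans_apply, MulEquiv.trans_apply, c2, b1]

/-- The word `w` reads the relator in a basis. -/
structure Bas (lam : E → Fr g) (w : List (E × Bool)) : Prop where
  nd : w.Nodup
  val : IsConj (lab lam w) (relPre g g)
  ex : ∃ (ι : Gen g → E) (α : Fr g ≃* Fr g), Function.Injective ι ∧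
    (∀ x, α (FreeGroup.of x) = lam (ι x)) ∧ ∀ d, d ∈ w ↔ ∃ x, ι x = d.1

theorem ts_pull {lam : E → Fr g} {ι : Gen g → E} {α : Fr g ≃* Fr g}
    (hα : ∀ x, α (FreeGroup.of x) = lam (ι x)) (u : List (E × Bool))
    (hu : ∀ d ∈ u, ∃ x, ι x = d.1) :
    ∃ v : List (Dt g), v.map (Prod.map ι id) = u ∧ α (FreeGroup.mk v) = lab lam u := by
  induction u with
  | nil => exact ⟨[], rfl, by rw [mk_nil, map_one, lab_nil]⟩
  | cons d u ih =>
    obtain ⟨v, h1, h2⟩ := ih fun e he => hu e (List.mem_cons_of_mem _ he)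
    obtain ⟨e, b⟩ := d
    obtain ⟨x, rfl⟩ : ∃ x, ι x = e := hu _ List.mem_cons_self
    refine ⟨(x, b) :: v, by rw [List.map_cons, h1]; rfl, ?_⟩
    rw [mk_cons, map_mul, h2, lab_cons]
    cases b
    · rw [ch_false, map_inv, hα]; rfl
    · rw [mk_true, hα]; rfl

theorem Bas.diag {lam : E → Fr g} {P Q : List (E × Bool)} (h : Bas lam (P ++ Q)) (h1 : P ≠ [])
    (h2 : Q ≠ []) : Simp0 (lab lam P) := by
  obtain ⟨ι, α, hι, hα, hm⟩ := h.ex
  obtain ⟨P', rfl, a1⟩ := ts_pull hα P fun d hd => (hm d).1 (List.mem_append_left _ hd)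
  obtain ⟨Q', rfl, a2⟩ := ts_pull hα Q fun d hd => (hm d).1 (List.mem_append_right _ hd)
  have hn := h.nd
  have hv := h.val
  rw [lab_append, ← a1, ← a2, ← map_mul, ← mk_append] at hv
  rw [← List.map_append] at hn hm
  rw [← a1]
  refine ts_diag ⟨hn.of_map _, fun d => ?_⟩ α hv (by simpa using h1) (by simpa using h2)
  obtain ⟨d', a3, a4⟩ := List.mem_map.1 ((hm (Prod.map ι id d)).2 ⟨d.1, rfl⟩)
  rwa [← hι.prodMap Function.injective_id a4]

theorem Bas.gauge {lam lam' : E → Fr g} {w w' : List (E × Bool)} (h : Bas lam w) (U : Set E)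
    (p : E × Bool → Fr g)
    (hp : ∀ d, p d ∈ Subgroup.closure (lam '' {e | e ∉ U ∧ (e, true) ∈ w}))
    (h1 : ∀ e ∈ U, lam' e = p (e, true) * lam e * (p (e, false))⁻¹)
    (h2 : ∀ e ∉ U, lam' e = lam e) (hw : w.Perm w') (hv : IsConj (lab lam' w') (relPre g g)) :
    Bas lam' w' := by
  obtain ⟨ι, α, hι, hα, hm⟩ := h.ex
  have hK : Subgroup.closure (lam '' {e | e ∉ U ∧ (e, true) ∈ w}) ≤
      (Out (ι ⁻¹' U)).comap α.symm.toMonoidHom := by
    rw [Subgroup.closure_le]
    rintro _ ⟨e, ⟨a1, a2⟩, rfl⟩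
    obtain ⟨x, rfl⟩ : ∃ x, ι x = e := (hm _).1 a2
    change α.symm (lam (ι x)) ∈ Out _
    rw [← hα, MulEquiv.symm_apply_apply]
    exact ch_of_mem a1
  obtain ⟨γ, c1, c2⟩ := exists_gauge (ι ⁻¹' U) (fun d => α.symm (p (Prod.map ι id d)))
    fun d => hK (hp _)
  refine ⟨hw.nodup_iff.1 h.nd, hv, ι, γ.trans α, hι, fun x => ?_,
    fun d => hw.mem_iff.symm.trans (hm d)⟩
  rw [MulEquiv.trans_apply]
  by_cases hx : ι x ∈ U
  · rw [← mk_true, c1 (x, true) hx, mk_true, h1 _ hx]
    simp only [map_mul, map_inv, MulEquiv.apply_symm_apply, hα]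
    rfl
  · rw [c2 _ (ch_of_mem hx), hα, h2 _ hx]

end Pool.Agent.MP_596265_gt.U

end

section

/-! Block T, simplicity half, part b: growing a polygon from the defect face. -/

namespace Pool.Agent.MP_596265_gt.U

open Erg

variable {E : Type} {g : ℕ} {n : Equiv.Perm (E × Bool)}

theorem ts_eq_or_rev {a b : E × Bool} (h : b.1 = a.1) : b = a ∨ b = rev a := by
  obtain ⟨x, s⟩ := a
  obtain ⟨y, t⟩ := b
  cases h
  cases s <;> cases t <;> simp [rev]

theorem lab_eq_prod {H : Type} [Group H] (mu : E → H) (w : List (E × Bool)) :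
    lab mu w = (w.map (dlab mu)).prod := by
  induction w with
  | nil => simp
  | cons d w ih => simp [ih]

theorem dlab_congr {H : Type} [Group H] {mu nu : E → H} {d : E × Bool} (h : mu d.1 = nu d.1) :
    dlab mu d = dlab nu d := by rw [dlab, dlab, h]

open Classical in
/-- Give the dart `d` the label `v`. -/
noncomputable def upd {H : Type} [Group H] (mu : E → H) (d : E × Bool) (v : H) : E → H :=
  fun e => if e = d.1 then cond d.2 v v⁻¹ else mu e

theorem upd_ne {H : Type} [Group H] (mu : E → H) {d : E × Bool} (v : H) {e : E} (h : e ≠ d.1) :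
    upd mu d v e = mu e := if_neg h

theorem dlab_upd {H : Type} [Group H] (mu : E → H) (d : E × Bool) (v : H) :
    dlab (upd mu d v) d = v := by
  obtain ⟨e, _ | _⟩ := d <;> simp [dlab, upd]

theorem dlab_upd_ne {H : Type} [Group H] (mu : E → H) {d x : E × Bool} (v : H) (h1 : x ≠ d)
    (h2 : x ≠ rev d) : dlab (upd mu d v) x = dlab mu x :=
  dlab_congr (upd_ne mu v fun h => (ts_eq_or_rev h).elim h1 h2)

theorem IsTri.ne2 (h : IsTri n) (d : E × Bool) : n (n d) ≠ d := fun e =>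
  h.2 d (by have := h.1 d; rwa [e] at this)

/-- Values `m` on darts that multiply to one round the absorbed faces and are inverted along the
tree edges. -/
def Comp (n : Equiv.Perm (E × Bool)) (d0 : E × Bool) (w : List (E × Bool)) (F : Set (E × Bool))
    {H : Type} [Group H] (m : E × Bool → H) : Prop :=
  (∀ t ∈ F, t ∉ w → m (rev t) = (m t)⁻¹) ∧
    ∀ x ∈ F, Off n d0 x → m x * m (n x) * m (n (n x)) = 1

/-- `w` is the boundary word of the polygon formed by the faces in `F`. -/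
structure St (n : Equiv.Perm (E × Bool)) (d0 : E × Bool) (w : List (E × Bool))
    (F : Set (E × Bool)) : Prop where
  nd : w.Nodup
  sub : ∀ d ∈ w, d ∈ F
  clo : ∀ d ∈ F, n d ∈ F
  bas : d0 ∈ F
  tre : ∀ d ∈ F, d ∉ w → rev d ∈ F ∧ rev d ∉ w
  val : ∀ (H : Type) [Group H] (m : E × Bool → H), Comp n d0 w F m →
    (w.map m).prod = m d0 * m (n d0) * m (n (n d0))
  gen : ∀ (H : Type) [Group H] (m : E × Bool → H), Comp n d0 w F m → ∀ K : Subgroup H,
    (∀ x ∈ w, m x ∈ K) → ∀ x ∈ F, m x ∈ K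
  ext : ∀ (H : Type) [Group H] (nu : E → H), ∃ mu : E → H,
    (∀ x, (x ∈ F → x ∈ w) → mu x.1 = nu x.1) ∧ ∀ x ∈ F, Off n d0 x → fp n mu x = 1
  crd : F.ncard + 6 = 3 * w.length

theorem St.init (h : IsTri n) (d0 : E × Bool) :
    St n d0 [d0, n d0, n (n d0)] {x | x ∈ [d0, n d0, n (n d0)]} where
  nd := by
    have h1 := h.2 d0
    have h2 := h.ne2 d0
    have h3 := h.2 (n d0)
    simp [h1.symm, h2.symm, h3.symm]
  sub _ hd := hd
  clo d hd := by
    simp only [Set.mem_ofPred_eq, List.mem_cons, List.not_mem_nil, or_false] at hd ⊢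
    rcases hd with rfl | rfl | rfl <;> simp [h.1]
  bas := by simp
  tre _ hd h' := absurd hd h'
  val _ _ m _ := by simp [mul_assoc]
  gen _ _ _ _ _ hK x hx := hK x hx
  ext _ _ nu := ⟨nu, fun _ _ => rfl, fun x hx ho => by
    simp only [Set.mem_ofPred_eq, List.mem_cons, List.not_mem_nil, or_false] at hx
    rcases hx with e | e | e
    exacts [absurd e ho.1, absurd e ho.2.1, absurd e ho.2.2]⟩
  crd := by
    have : {x | x ∈ [d0, n d0, n (n d0)]} = {d0, n d0, n (n d0)} := by ext; simp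
    rw [this, Set.ncard_eq_three.2 ⟨_, _, _, (h.2 d0).symm, (h.ne2 d0).symm, (h.2 (n d0)).symm, rfl⟩]
    rfl

theorem St.off {d0 : E × Bool} {w : List (E × Bool)} {F : Set (E × Bool)} (s : St n d0 w F)
    {y : E × Bool} (hy : y ∉ F) : Off n d0 y :=
  ⟨fun e => hy (e ▸ s.bas), fun e => hy (e ▸ s.clo _ s.bas),
    fun e => hy (e ▸ s.clo _ (s.clo _ s.bas))⟩

theorem St.out (h : IsTri n) {d0 : E × Bool} {w : List (E × Bool)} {F : Set (E × Bool)}
    (s : St n d0 w F) {y : E × Bool} (hy : y ∉ F) : n y ∉ F := fun e =>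
  hy (h.1 y ▸ s.clo _ (s.clo _ e))

theorem ts_rot {H : Type} [Group H] {a b c : H} (h : a * b * c = 1) : b * c * a = 1 := by
  have : b * c * a = a⁻¹ * (a * b * c) * a := by group
  rw [this, h]; group

theorem St.step [Finite E] (h : IsTri n) {d0 d : E × Bool} {A B : List (E × Bool)}
    {F : Set (E × Bool)} (s : St n d0 (A ++ d :: B) F) (hd : rev d ∉ F) :
    St n d0 (A ++ n (rev d) :: n (n (rev d)) :: B) (F ∪ {rev d, n (rev d), n (n (rev d))}) := by
  have ha := s.out h hd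
  have hb := s.out h ha
  have hab := h.2 (n (rev d))
  have hay := h.2 (rev d)
  have hby := h.ne2 (rev d)
  have h3 := h.1 (rev d)
  obtain ⟨a, ea⟩ : ∃ a, n (rev d) = a := ⟨_, rfl⟩
  rw [ea] at ha hb hab hay hby h3 ⊢
  obtain ⟨b, eb⟩ : ∃ b, n a = b := ⟨_, rfl⟩
  rw [eb] at hb hab hby h3 ⊢
  have hdF : d ∈ F := s.sub d (by simp)
  have hA : ∀ x ∈ A, x ∈ F := fun x hx => s.sub x (by simp [hx])
  have hB : ∀ x ∈ B, x ∈ F := fun x hx => s.sub x (by simp [hx])
  have hn := s.nd
  rw [List.nodup_middle, List.nodup_cons, List.mem_append, not_or] at hn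
  have had : a ≠ d := fun e => ha (e ▸ hdF)
  have hbd : b ≠ d := fun e => hb (e ▸ hdF)
  have hdw : d ∉ A ++ a :: b :: B := by simp [hn.1.1, hn.1.2, had.symm, hbd.symm]
  have hyw : rev d ∉ A ++ a :: b :: B := by
    simp only [List.mem_append, List.mem_cons, not_or]
    exact ⟨fun e => hd (hA _ e), hay.symm, hby.symm, fun e => hd (hB _ e)⟩
  have hmem : ∀ x ∈ F, x ∈ A ++ a :: b :: B → x ∈ A ++ d :: B := fun x hx h1 => by
    simp only [List.mem_append, List.mem_cons] at h1 ⊢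
    rcases h1 with e | rfl | rfl | e
    exacts [.inl e, absurd hx ha, absurd hx hb, .inr (.inr e)]
  have hmem' : ∀ x, x ≠ d → x ∈ A ++ d :: B → x ∈ A ++ a :: b :: B := fun x hx h1 => by
    simp only [List.mem_append, List.mem_cons] at h1 ⊢
    rcases h1 with e | e | e
    exacts [.inl e, absurd e hx, .inr (.inr (.inr e))]
  have hc : ∀ (H : Type) [Group H] (m : E × Bool → H),
      Comp n d0 (A ++ a :: b :: B) (F ∪ {rev d, a, b}) m →
      Comp n d0 (A ++ d :: B) F m ∧ m d = m a * m b ∧ m (rev d) = (m d)⁻¹ := fun H _ m c => by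
    have c1 := c.1 d (.inl hdF) hdw
    have c2 := c.2 (rev d) (.inr (by simp)) (s.off hd)
    rw [ea, eb, c1, mul_assoc, inv_mul_eq_one] at c2
    exact ⟨⟨fun t ht h1 => c.1 t (.inl ht) fun h2 => h1 (hmem t ht h2),
      fun x hx => c.2 x (.inl hx)⟩, c2, c1⟩
  refine ⟨?_, fun x hx => ?_, ?_, .inl s.bas, ?_, fun H _ m c => ?_, fun H _ m c K hK => ?_,
    fun H _ nu => ?_, ?_⟩
  · rw [List.nodup_middle, List.nodup_cons, List.nodup_middle, List.nodup_cons]
    refine ⟨?_, ?_, hn.2⟩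
    · simp only [List.mem_append, List.mem_cons, not_or]
      exact ⟨fun e => ha (hA _ e), hab.symm, fun e => ha (hB _ e)⟩
    · simp only [List.mem_append, not_or]
      exact ⟨fun e => hb (hA _ e), fun e => hb (hB _ e)⟩
  · simp only [List.mem_append, List.mem_cons] at hx
    rcases hx with e | e | e | e
    exacts [.inl (hA _ e), .inr (by simp [e]), .inr (by simp [e]), .inl (hB _ e)]
  · rintro x (hx | rfl | rfl | rfl)
    exacts [.inl (s.clo x hx), .inr (by simp [ea]), .inr (by simp [eb]), .inr (by simp [h3])]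
  · rintro x (hx | rfl | rfl | rfl) hw
    · by_cases e : x = d
      · rw [e]; exact ⟨.inr (by simp), hyw⟩
      · have := s.tre x hx fun h1 => hw (hmem' x e h1)
        exact ⟨.inl this.1, fun h1 => this.2 (hmem _ this.1 h1)⟩
    · rw [rev_rev]; exact ⟨.inl hdF, hdw⟩
    · exact absurd (by simp) hw
    · exact absurd (by simp) hw
  · obtain ⟨c1, c2, -⟩ := hc H m c
    rw [← s.val H m c1]
    simp [c2, mul_assoc]
  · obtain ⟨c1, c2, c3⟩ := hc H m c
    have k1 : m a ∈ K := hK a (by simp)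
    have k2 : m b ∈ K := hK b (by simp)
    have k3 : m d ∈ K := c2 ▸ K.mul_mem k1 k2
    rintro x (hx | rfl | rfl | rfl)
    · refine s.gen H m c1 K (fun y hy => ?_) x hx
      by_cases e : y = d
      exacts [e ▸ k3, hK y (hmem' y e hy)]
    exacts [c3 ▸ K.inv_mem k3, k1, k2]
  · obtain ⟨mu, m1, m2⟩ := s.ext H (upd nu d (dlab nu a * dlab nu b))
    have e1 : fp n mu (rev d) = 1 := by
      rw [fp, ea, eb, dlab_rev, dlab_congr (m1 d fun _ => by simp), dlab_upd,
        dlab_congr (m1 a fun x => absurd x ha), dlab_congr (m1 b fun x => absurd x hb),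
        dlab_upd_ne _ _ had hay, dlab_upd_ne _ _ hbd hby]
      group
    have e2 : fp n mu a = 1 := by
      rw [fp, ea, eb] at e1; rw [fp, eb, h3]; exact ts_rot e1
    refine ⟨mu, fun x hx => ?_, ?_⟩
    · rw [m1 x fun y => hmem x y (hx (.inl y))]
      refine upd_ne _ _ fun e => ?_
      rcases ts_eq_or_rev e with rfl | rfl
      exacts [hdw (hx (.inl hdF)), hyw (hx (.inr (by simp)))]
    · rintro x (hx | rfl | rfl | rfl) ho
      · exact m2 x hx ho
      · exact e1
      · exact e2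
      · rw [fp, eb, h3] at e2; rw [fp, h3, ea]; exact ts_rot e2
  · have := s.crd
    rw [Set.ncard_union_eq (Set.disjoint_left.2 (by
        rintro x hx (rfl | rfl | rfl); exacts [hd hx, ha hx, hb hx])),
      Set.ncard_eq_three.2 ⟨_, _, _, hay.symm, hby.symm, hab.symm, rfl⟩]
    simp only [List.length_append, List.length_cons] at this ⊢
    omega

/-- Growth across the edges in `ok` as far as possible. -/
theorem St.grow [Finite E] (h : IsTri n) {d0 : E × Bool} (ok : E → Prop) :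
    ∀ (N : ℕ) (w : List (E × Bool)) (F : Set (E × Bool)), Fᶜ.ncard ≤ N → St n d0 w F →
    ∃ (F' : Set (E × Bool)) (ex : E × Bool → List (E × Bool)), St n d0 (w.flatMap ex) F' ∧ F ⊆ F' ∧
      (∀ x ∈ w.flatMap ex, ok x.1 → rev x ∈ F') ∧
      (∀ t ∈ F', t ∉ w.flatMap ex → (t ∈ F ∧ t ∉ w) ∨ ok t.1) ∧
      ∀ x ∈ w, ex x ≠ [] ∧ (rev x ∈ F → ex x = [x]) ∧ (∀ y ∈ ex x, y = x ∨ y ∉ F) ∧
        ∀ (H : Type) [Group H] (mu : E → H), (∀ d, Off n d0 d → fp n mu d = 1) →
          lab mu (ex x) = dlab mu x := by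
  classical
  have base : ∀ (w : List (E × Bool)) (F : Set (E × Bool)), (∀ x ∈ w, ok x.1 → rev x ∈ F) →
      St n d0 w F → ∃ (F' : Set (E × Bool)) (ex : E × Bool → List (E × Bool)),
      St n d0 (w.flatMap ex) F' ∧ F ⊆ F' ∧ (∀ x ∈ w.flatMap ex, ok x.1 → rev x ∈ F') ∧
      (∀ t ∈ F', t ∉ w.flatMap ex → (t ∈ F ∧ t ∉ w) ∨ ok t.1) ∧
      ∀ x ∈ w, ex x ≠ [] ∧ (rev x ∈ F → ex x = [x]) ∧ (∀ y ∈ ex x, y = x ∨ y ∉ F) ∧
        ∀ (H : Type) [Group H] (mu : E → H), (∀ d, Off n d0 d → fp n mu d = 1) →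
          lab mu (ex x) = dlab mu x := fun w F h1 s => by
    refine ⟨F, fun x => [x], ?_⟩
    rw [List.flatMap_singleton']
    exact ⟨s, subset_rfl, h1, fun t a b => .inl ⟨a, b⟩, fun x _ => by simp only [ne_eq, List.cons_ne_self, not_false_eq_true, implies_true, List.mem_cons, List.not_mem_nil, or_false, forall_eq, true_or, Prod.forall, Bool.forall_bool, lab_cons, lab_nil, mul_one, and_self]⟩
  intro N
  induction N with
  | zero =>
    intro w F hN s
    refine base w F (fun x _ _ => ?_) s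
    by_contra e
    have := (Set.ncard_pos (s := Fᶜ)).2 ⟨_, e⟩
    omega
  | succ N ih =>
    intro w F hN s
    by_cases h1 : ∀ x ∈ w, ok x.1 → rev x ∈ F
    · exact base w F h1 s
    push Not at h1
    obtain ⟨d, hd, hok, hr⟩ := h1
    obtain ⟨A, B, rfl⟩ := List.append_of_mem hd
    have hn := s.nd
    rw [List.nodup_middle, List.nodup_cons, List.mem_append, not_or] at hn
    obtain ⟨F', ex, s', b1, b2, b3, b4⟩ := ih _ _ (by
      refine Nat.le_of_lt_succ (lt_of_lt_of_le (Set.ncard_lt_ncard ?_) hN)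
      exact ⟨Set.compl_subset_compl.2 Set.subset_union_left, fun e => e hr (.inr (by simp))⟩)
      (s.step h hr)
    have ha := s.out h hr
    have hb := s.out h ha
    have e : (A ++ d :: B).flatMap (fun x => if x = d then ex (n (rev d)) ++ ex (n (n (rev d)))
        else ex x) = (A ++ n (rev d) :: n (n (rev d)) :: B).flatMap ex := by
      simp only [List.flatMap_append, List.flatMap_cons, if_true, List.append_assoc]
      rw [List.flatMap_congr (l := A) fun x hx => if_neg fun e : x = d => hn.1.1 (e ▸ hx),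
        List.flatMap_congr (l := B) fun x hx => if_neg fun e : x = d => hn.1.2 (e ▸ hx)]
    refine ⟨F', _, e ▸ s', Set.subset_union_left.trans b1, e ▸ b2, fun t ht hw => ?_,
      fun x hx => ?_⟩
    · rw [e] at hw
      rcases b3 t ht hw with ⟨c1 | rfl | rfl | rfl, c2⟩ | c
      · by_cases e : t = d
        · exact .inr (e ▸ hok)
        · refine .inl ⟨c1, fun c3 => c2 ?_⟩
          simp only [List.mem_append, List.mem_cons] at c3 ⊢
          rcases c3 with c | c | c
          exacts [.inl c, absurd c e, .inr (.inr (.inr c))]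
      · exact .inr hok
      · exact absurd (by simp) c2
      · exact absurd (by simp) c2
      · exact .inr c
    · by_cases e : x = d
      · subst e
        obtain ⟨p1, -, p3, p4⟩ := b4 (n (rev x)) (by simp)
        obtain ⟨-, -, q3, q4⟩ := b4 (n (n (rev x))) (by simp)
        simp only [if_true]
        refine ⟨by simp [p1], fun c => absurd c hr, fun y hy => .inr fun c => ?_, fun H _ mu c => ?_⟩
        · rcases List.mem_append.1 hy with hy | hy
          · rcases p3 y hy with rfl | c'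
            exacts [ha c, c' (.inl c)]
          · rcases q3 y hy with rfl | c'
            exacts [hb c, c' (.inl c)]
        · have := c _ (s.off hr)
          rw [fp, dlab_rev, mul_assoc, inv_mul_eq_one] at this
          rw [lab_append, p4 H mu c, q4 H mu c, this]
      · obtain ⟨p1, p2, p3, p4⟩ := b4 x (by
          simp only [List.mem_append, List.mem_cons] at hx ⊢
          rcases hx with c | c | c
          exacts [.inl c, absurd c e, .inr (.inr (.inr c))])
        simp only [if_neg e]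
        exact ⟨p1, fun c => p2 (.inl c), fun y hy => (p3 y hy).imp_right fun c c' => c (.inl c'), p4⟩

theorem St.univ {d0 : E × Bool} {w : List (E × Bool)} {F : Set (E × Bool)} (s : St n d0 w F)
    (h : IsTri n) (hc : Con n) (h1 : ∀ x ∈ w, rev x ∈ F) (x : E × Bool) : x ∈ F := by
  classical
  have h2 : ∀ x ∈ F, rev x ∈ F := fun x hx => by
    by_cases e : x ∈ w
    exacts [h1 x e, (s.tre x hx e).1]
  have := hc (fun x => decide (x ∈ F)) (fun d => decide_eq_decide.2 ⟨fun e => by_contra fun c =>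
    s.out h c e, s.clo d⟩) (fun d => decide_eq_decide.2 ⟨fun e => by simpa using h2 _ e, h2 d⟩) x d0
  simpa [s.bas] using this

theorem St.toBas {d0 : E × Bool} {w : List (E × Bool)} {F : Set (E × Bool)} {l : E → Fr g}
    (s : St n d0 w F) (hF : ∀ x, x ∈ F) (h : MarkAt n d0 l) : Bas l w := by
  classical
  have c : Comp n d0 w F (dlab l) := ⟨fun t _ _ => dlab_rev l t, fun x _ => h.rel x⟩
  have hsp : ∀ d : E × Bool, d ∈ w ↔ (d.1, true) ∈ w := fun d => by
    have : ∀ x, x ∈ w → rev x ∈ w := fun x hx => by_contra fun e => (s.tre _ (hF _) e).2 (by simpa)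
    obtain ⟨e, _ | _⟩ := d
    exacts [⟨this _, this _⟩, Iff.rfl]
  let B := {e : E // (e, true) ∈ w}
  let f : FreeGroup B →* Fr g := FreeGroup.lift fun b => l b.1
  obtain ⟨mu, m1, m2⟩ := s.ext (FreeGroup B) fun e => if he : (e, true) ∈ w then .of ⟨e, he⟩ else 1
  obtain ⟨φ, hφ⟩ := h.ext _ mu fun d => m2 d (hF d)
  have hl : φ.comp f = MonoidHom.id _ := FreeGroup.ext_hom _ _ fun b => by
    rw [MonoidHom.comp_apply, FreeGroup.lift_apply_of, hφ, m1 (b.1, true) fun _ => b.2, dif_pos b.2]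
    rfl
  have hi : Function.Injective f := Function.LeftInverse.injective (DFunLike.congr_fun hl)
  have hs : Function.Surjective f := by
    rw [← MonoidHom.range_eq_top, eq_top_iff, ← h.gen, Subgroup.closure_le]
    rintro _ ⟨e, rfl⟩
    refine s.gen _ _ c f.range (fun x hx => ?_) (e, true) (hF _)
    have : l x.1 ∈ f.range := ⟨.of ⟨x.1, (hsp x).1 hx⟩, FreeGroup.lift_apply_of⟩
    obtain ⟨e, _ | _⟩ := x
    exacts [inv_mem this, this]
  let q : B ≃ Gen g := Equiv.ofFreeGroupEquiv (MulEquiv.ofBijective f ⟨hi, hs⟩)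
  refine ⟨s.nd, by rw [lab_eq_prod, s.val _ _ c]; exact h.dfc, fun x => (q.symm x).1,
    (FreeGroup.freeGroupCongr q.symm).trans (MulEquiv.ofBijective f ⟨hi, hs⟩),
    Subtype.val_injective.comp q.symm.injective, 
    fun x => (congrArg f FreeGroup.map.of).trans FreeGroup.lift_apply_of, fun d => (hsp d).trans
      ⟨fun e => ⟨q ⟨_, e⟩, by simp⟩, fun ⟨x, e⟩ => e ▸ (q.symm x).2⟩⟩

end Pool.Agent.MP_596265_gt.U

end

section

/-! Block T: the defect face can be moved; edges are simple; one vertex. -/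

namespace Pool.Agent.MP_596265_gt.U

open Erg

variable {g : ℕ} {E : Type} {n : Equiv.Perm (E × Bool)} {l : E → Fr g}

theorem IsTri.off_nxt (hn : IsTri n) {d x : E × Bool} : Off n (n d) x ↔ Off n d x := by
  simp only [Off, hn.1]; tauto

theorem IsTri.off_nxt' (hn : IsTri n) {d x : E × Bool} (h : Off n d x) : Off n d (n x) :=
  ⟨fun e => h.2.2 (by rw [← e, hn.1]), fun e => h.1 (n.injective e), fun e => h.2.1 (n.injective e)⟩

theorem IsTri.off_symm (hn : IsTri n) {d x : E × Bool} (h : Off n d x) : Off n x d :=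
  ⟨h.1.symm, fun e => h.2.2 (by rw [e, hn.1]), fun e => h.2.1 (by rw [e, hn.1])⟩

theorem MarkAt.nxt (hn : IsTri n) {d : E × Bool} (h : MarkAt n d l) : MarkAt n (n d) l :=
  ⟨fun x hx => h.rel x (hn.off_nxt.1 hx),
    .trans (isConj_iff.2 ⟨dlab l d, by rw [hn.fp_nxt]; group⟩) h.dfc, h.gen,
    fun H _ μ hμ => h.ext H μ fun x hx => hμ x (hn.off_nxt.2 hx), h.con⟩

theorem tm_fp {H : Type} [Group H] (hn : IsTri n) {d x : E × Bool} (μ : E → H) (v : H)
    (h1 : Off n d x) (h2 : Off n (rev d) x) : fp n (upd μ d v) x = fp n μ x := by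
  rw [fp, fp, dlab_upd_ne _ _ h1.1 h2.1, dlab_upd_ne _ _ (hn.off_nxt' h1).1 (hn.off_nxt' h2).1,
    dlab_upd_ne _ _ (hn.off_nxt' (hn.off_nxt' h1)).1 (hn.off_nxt' (hn.off_nxt' h2)).1]

/-- Closing the face of `d` by a new label of `d`. -/
theorem tm_close {H : Type} [Group H] (hn : IsTri n) {d : E × Bool} (hd : Off n d (rev d))
    (μ : E → H) (hμ : ∀ x, Off n d x → Off n (rev d) x → fp n μ x = 1) (x : E × Bool)
    (hx : Off n (rev d) x) : fp n (upd μ d (dlab μ (n d) * dlab μ (n (n d)))⁻¹) x = 1 := by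
  have e : fp n (upd μ d (dlab μ (n d) * dlab μ (n (n d)))⁻¹) d = 1 := by
    rw [fp, dlab_upd, dlab_upd_ne _ _ (hn.2 d) hd.2.1.symm,
      dlab_upd_ne _ _ (hn.ne2 d) hd.2.2.symm]
    group
  by_cases a : x = d
  · rw [a, e]
  by_cases b : x = n d
  · rw [b, hn.fp_nxt, e]; group
  by_cases c : x = n (n d)
  · rw [c, hn.fp_nxt, hn.fp_nxt, e]; group
  rw [tm_fp hn _ _ ⟨a, b, c⟩ hx, hμ x ⟨a, b, c⟩ hx]

theorem MarkAt.cross (hn : IsTri n) {d : E × Bool} (h : MarkAt n d l) (hd : Off n d (rev d)) :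
    ∃ l', MarkAt n (rev d) l' ∧ ∀ e, Cg (l e) (l' e) := by
  have hd' : Off n (rev d) (rev (rev d)) := by rw [rev_rev]; exact hn.off_symm hd
  have r := h.rel _ hd
  rw [fp, dlab_rev, mul_assoc, inv_mul_eq_one] at r
  have c1 : ∀ {H : Type} [Group H] (μ : E → H) (v : H),
      dlab (upd μ d v) (n (rev d)) = dlab μ (n (rev d)) ∧
      dlab (upd μ d v) (n (n (rev d))) = dlab μ (n (n (rev d))) := fun μ v =>
    ⟨dlab_upd_ne _ _ (hn.off_nxt' hd).1 (hn.2 _),
      dlab_upd_ne _ _ (hn.off_nxt' (hn.off_nxt' hd)).1 (hn.ne2 _)⟩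
  have all : ∀ (P : E → Prop), (∀ e, e ≠ d.1 → P e) → P d.1 → ∀ e, P e := fun P a b e => by
    by_cases c : e = d.1
    exacts [c ▸ b, a e c]
  have one : ∀ {H : Type} [Group H] {μ ν : E → H}, dlab μ d = dlab ν d → μ d.1 = ν d.1 := by
    intro H _ μ ν c
    obtain ⟨e, _ | _⟩ := d
    exacts [inv_injective c, c]
  refine ⟨upd l d (dlab l (n d) * dlab l (n (n d)))⁻¹,
    ⟨tm_close hn hd l fun x a _ => h.rel x a, .trans (isConj_iff.2 ⟨dlab l d, ?_⟩) h.dfc, ?_,
      fun H _ μ hμ => ?_, h.con⟩, all _ (fun e he => ?_) ?_⟩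
  · rw [fp, fp, dlab_rev, dlab_upd, (c1 _ _).1, (c1 _ _).2, mul_assoc _⁻¹, ← r]; group
  · rw [eq_top_iff, ← h.gen, Subgroup.closure_le, Set.range_subset_iff]
    refine all _ (fun e he => Subgroup.subset_closure ⟨e, upd_ne _ _ he⟩) ?_
    have := mul_mem (dlab_mem (upd l d (dlab l (n d) * dlab l (n (n d)))⁻¹) (n (rev d)))
      (dlab_mem _ (n (n (rev d))))
    rw [(c1 _ _).1, (c1 _ _).2, ← r] at this
    obtain ⟨e, _ | _⟩ := d
    exacts [inv_mem_iff.1 this, this]
  · obtain ⟨φ, hφ⟩ := h.ext H _ fun x hx => tm_close hn hd' μ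
      (fun y a _ => hμ y a) x (by rwa [rev_rev])
    refine ⟨φ, all _ (fun e he => by rw [upd_ne _ _ he, hφ, upd_ne (d := rev d) _ _ he]) (one
      (μ := fun e => φ (upd l d _ e)) ?_)⟩
    have := hμ d (hn.off_symm hd)
    rw [fp, mul_assoc, mul_eq_one_iff_eq_inv] at this
    rw [← map_dlab, dlab_upd, map_inv, map_mul, map_dlab, map_dlab, funext hφ, this,
      dlab_upd_ne _ _ hd.2.1.symm (by rw [rev_rev]; exact hn.2 d),
      dlab_upd_ne _ _ hd.2.2.symm (by rw [rev_rev]; exact hn.ne2 d)]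
  · rw [upd_ne _ _ he]; exact Cg.refl _
  · have : Cg (dlab l d) (dlab (upd l d (dlab l (n d) * dlab l (n (n d)))⁻¹) d) := by
      rw [dlab_upd]
      refine Cg.symm ?_
      have := mem_NN_of_conj (h.nxt hn).dfc
      rw [fp, hn.1] at this
      rwa [Cg, inv_inv]
    obtain ⟨e, _ | _⟩ := d
    exacts [by simpa [dlab] using this.inv, this]

/-- ROW TM: the defect face can be moved. -/
theorem MarkAt.move [Finite E] (hn : IsTri n) {d₀ : E × Bool} (h : MarkAt n d₀ l) (d₁ : E × Bool) :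
    ∃ l', MarkAt n d₁ l' ∧ ∀ e, Cg (l e) (l' e) := by
  classical
  let P : E × Bool → Prop := fun d => ∃ l', MarkAt n d l' ∧ ∀ e, Cg (l e) (l' e)
  have a : ∀ d, P d → P (n d) := fun d ⟨l', h1, h2⟩ => ⟨l', h1.nxt hn, h2⟩
  have b : ∀ d, P d → P (rev d) := fun d hd => by
    by_cases c : Off n d (rev d)
    · obtain ⟨l', h1, h2⟩ := hd
      obtain ⟨l'', h3, h4⟩ := h1.cross hn c
      exact ⟨l'', h3, fun e => (h2 e).trans (h4 e)⟩
    · simp only [Off, not_and_or, not_not] at c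
      rcases c with c | c | c <;> rw [c]
      exacts [hd, a _ hd, a _ (a _ hd)]
  have := h.con (fun d => decide (P d))
    (fun d => decide_eq_decide.2 ⟨fun e => hn.1 d ▸ a _ (a _ e), a d⟩)
    (fun d => decide_eq_decide.2 ⟨fun e => rev_rev d ▸ b _ e, b d⟩) d₁ d₀
  exact (decide_eq_decide.1 this).2 ⟨l, h, fun _ => Cg.refl _⟩

theorem Mark.at [Finite E] (hn : IsTri n) (h : Mark n l) (d : E × Bool) :
    ∃ l', MarkAt n d l' ∧ ∀ e, Cg (l e) (l' e) := by
  obtain ⟨d₀, m, h1, h2⟩ := h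
  obtain ⟨l', h3, h4⟩ := h1.move hn d
  exact ⟨l', h3, fun e => (h2 e).trans (h4 e)⟩

/-- The full polygon grown from a given one. -/
theorem St.full [Finite E] (hn : IsTri n) {d : E × Bool} (h : MarkAt n d l) {w : List (E × Bool)}
    {F : Set (E × Bool)} (s : St n d w F) : ∃ ex : E × Bool → List (E × Bool),
      St n d (w.flatMap ex) Set.univ ∧ Bas l (w.flatMap ex) ∧ ∀ x ∈ w, ex x ≠ [] ∧
        (rev x ∈ F → ex x = [x]) ∧ (∀ y ∈ ex x, y = x ∨ y ∉ F) ∧ lab l (ex x) = dlab l x := by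
  obtain ⟨F', ex, s', -, a, -, b⟩ := St.grow hn (fun _ => True) _ w F le_rfl s
  have u := s'.univ hn h.con fun x hx => a x hx trivial
  obtain rfl : F' = Set.univ := Set.eq_univ_of_forall u
  exact ⟨ex, s', s'.toBas u h, fun x hx =>
    ⟨(b x hx).1, (b x hx).2.1, (b x hx).2.2.1, (b x hx).2.2.2 _ l h.rel⟩⟩

/-- ROW T2 -/
theorem Mark.simp_edge [Finite E] (hn : IsTri n) (h : Mark n l) (d : E × Bool) :
    Simp (dlab l d) := by
  obtain ⟨m, h1, h2⟩ := h.at hn d
  obtain ⟨ex, -, a, b⟩ := (St.init hn d).full hn h1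
  rw [List.flatMap_cons] at a
  have := (a.diag (b d (by simp)).1 (by simp [(b (n d) (by simp)).1])).simp
  rw [(b d (by simp)).2.2.2] at this
  exact this.congr (cg_dlab h2 d).symm

theorem tm_link [Finite E] (hn : IsTri n) {d : E × Bool} (h : MarkAt n d l)
    (ε : E × Bool → ZMod 2) (hε : ∀ x, ε (n x) = ε (rev x)) (x : E × Bool) : ε (rev x) = ε x := by
  obtain ⟨ex, s, a, -⟩ := (St.init hn d).full hn h
  generalize List.flatMap ex _ = w at s a
  obtain ⟨u, hu⟩ := h.ext (Multiplicative (ZMod 2))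
    (fun e => .ofAdd (ε (e, true) + ε (e, false))) fun y _ => by
      have k : ∀ y, dlab (fun e => Multiplicative.ofAdd (ε (e, true) + ε (e, false))) y =
          .ofAdd (ε y + ε (n y)) := by
        rintro ⟨e, _ | _⟩
        · rw [hε]
          exact (by decide : ∀ a b : ZMod 2, (Multiplicative.ofAdd (a + b))⁻¹ = .ofAdd (b + a)) _ _
        · rw [hε]; rfl
      rw [fp, k, k, k, hn.1]
      exact (by decide : ∀ a b c : ZMod 2, Multiplicative.ofAdd (a + b) * .ofAdd (b + c) *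
        .ofAdd (c + a) = 1) _ _ _
  have h0 : ∀ y, u (FreeGroup.of y) = 1 := fun y => by
    by_contra h0
    obtain ⟨Ψ, p1, p2⟩ := cb_psi (fun x => (u (FreeGroup.of x)).toAdd) y h0
    have p3 : cb_sgn.comp Ψ = u := FreeGroup.ext_hom _ _ fun x => congrArg Multiplicative.ofAdd (p1 x)
    choose k hk using fun e => cb_dec (Ψ (l e)) (ε (e, true)) (ε (e, false))
      (congrArg Multiplicative.toAdd ((DFunLike.congr_fun p3 (l e)).trans (hu e)))
    have hκ : ∀ y, Ψ (dlab l y) = cb_P (ε y) * DihedralGroup.r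
        (dlab (H := Multiplicative (ZMod 3)) k y).toAdd * (cb_P (ε (n y)))⁻¹ := by
      rintro ⟨e, _ | _⟩ <;> rw [hε]
      · exact (map_inv Ψ _).trans (hk e).2
      · exact (hk e).1
    have hf : ∀ y, Ψ (fp n l y) = cb_P (ε y) * DihedralGroup.r
        (fp (H := Multiplicative (ZMod 3)) n k y).toAdd * (cb_P (ε y))⁻¹ := fun y => by
      simp only [fp, map_mul, hκ, hn.1, toAdd_mul, ← DihedralGroup.r_mul_r]
      group
    have v := s.val (Multiplicative (ZMod 3)) (dlab k) ⟨fun t _ _ => dlab_rev _ t, fun y _ hy => by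
      have := hf y
      rw [h.rel y hy, map_one, eq_comm, conj_eq_one_iff, DihedralGroup.one_def,
        DihedralGroup.r.injEq] at this
      exact this⟩
    have hsp : ∀ y ∈ w, rev y ∈ w := fun y hy => by_contra fun e => (s.tre _ trivial e).2 (by simpa)
    have hp : (w.map rev).Perm w := by
      refine (List.perm_ext_iff_of_nodup (a.nd.map (revP E).injective) a.nd).2 fun y =>
        ⟨fun c => ?_, fun c => List.mem_map.2 ⟨_, hsp y c, rev_rev y⟩⟩
      obtain ⟨z, c', rfl⟩ := List.mem_map.1 c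
      exact hsp z c'
    have q := (hp.map (dlab (H := Multiplicative (ZMod 3)) k)).prod_eq
    rw [List.map_map, show dlab (H := Multiplicative (ZMod 3)) k ∘ rev = 
      (·⁻¹) ∘ dlab (H := Multiplicative (ZMod 3)) k from
      funext fun y => dlab_rev _ y, ← List.map_map, ← List.prod_inv, v] at q
    have z : fp (H := Multiplicative (ZMod 3)) n k d = 1 :=
      (by decide : ∀ t : Multiplicative (ZMod 3), t⁻¹ = t → t = 1) _ q
    have c := Ψ.map_isConj h.dfc
    rw [hf, z, toAdd_one, ← DihedralGroup.one_def, mul_one, mul_inv_cancel, isConj_one_right] at c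
    exact p2 c
  have h1 : u = 1 := FreeGroup.ext_hom _ _ h0
  have h2 := hu x.1
  rw [h1] at h2
  have h3 : ε (x.1, true) = ε (x.1, false) :=
    (by decide : ∀ a b : ZMod 2, (1 : Multiplicative (ZMod 2)) = .ofAdd (a + b) → a = b) _ _ h2
  obtain ⟨e, _ | _⟩ := x
  exacts [h3, h3.symm]

/-- ROW T4: one vertex. -/
theorem Mark.link [Finite E] (hn : IsTri n) (h : Mark n l) (d d' : E × Bool) :
    ∃ k : ℕ, (fun x => n (rev x))^[k] d = d' := by
  classical
  obtain ⟨d₀, m, h1, -⟩ := h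
  let σ : Equiv.Perm (E × Bool) := n * revP E
  let P : E × Bool → Prop := fun x => σ.SameCycle d x
  have a : ∀ x, P (n x) ↔ P (rev x) := fun x => by
    rw [show n x = σ (rev x) by simp only [σ, Equiv.Perm.coe_mul, Function.comp_apply, revP_apply, rev_rev]]; exact Equiv.Perm.sameCycle_apply_right
  have b : ∀ x, P (rev x) ↔ P x := fun x => by
    have := tm_link hn h1 (fun x => if P x then 1 else 0) (fun x => by simp only [a]) x
    by_cases c : P x <;> by_cases c' : P (rev x) <;> simp_all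
  have := h1.con (fun x => decide (P x)) (fun x => decide_eq_decide.2 ((a x).trans (b x)))
    (fun x => decide_eq_decide.2 (b x)) d' d
  obtain ⟨k, hk⟩ := ((decide_eq_decide.1 this).2 (.refl _ _)).exists_nat_pow_eq
  exact ⟨k, by rw [← hk, ← Equiv.Perm.iterate_eq_pow]; rfl⟩

end Pool.Agent.MP_596265_gt.U

end

section

/-! Block T: flips, and markings of the same type. -/

namespace Pool.Agent.MP_596265_gt.U

open Erg

variable {g : ℕ} {E : Type} {n n' : Equiv.Perm (E × Bool)} {l l' : E → Fr g}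

theorem eq_or_rev' {a b : E × Bool} (h : b.1 = a.1) : b = a ∨ b = rev a := by
  obtain ⟨x, s⟩ := a
  obtain ⟨y, t⟩ := b
  cases h
  cases s <;> cases t <;> simp [rev]

theorem off_or (n : Equiv.Perm (E × Bool)) (d x : E × Bool) :
    Off n d x ∨ x = d ∨ x = n d ∨ x = n (n d) := by
  unfold Off; tauto

/-- The six darts of two different faces are distinct. -/
theorem IsTri.six (hn : IsTri n) {d r : E × Bool} (h : Off n d r) :
    (n d ≠ d ∧ n (n d) ≠ d ∧ n (n d) ≠ n d) ∧ (n r ≠ r ∧ n (n r) ≠ r ∧ n (n r) ≠ n r) ∧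
    (r ≠ d ∧ r ≠ n d ∧ r ≠ n (n d)) ∧ (n r ≠ d ∧ n r ≠ n d ∧ n r ≠ n (n d)) ∧
    (n (n r) ≠ d ∧ n (n r) ≠ n d ∧ n (n r) ≠ n (n d)) :=
  ⟨⟨hn.2 _, hn.ne2 _, hn.2 _⟩, ⟨hn.2 _, hn.ne2 _, hn.2 _⟩, h, hn.off_nxt' h,
    hn.off_nxt' (hn.off_nxt' h)⟩

theorem exists_upd {H : Type} [Group H] (μ : E → H) (d : E × Bool) (a : H) :
    ∃ μ' : E → H, (∀ e, e ≠ d.1 → μ' e = μ e) ∧ dlab μ' d = a := by
  classical
  refine ⟨Function.update μ d.1 (cond d.2 a a⁻¹), fun e he => Function.update_of_ne he _ _, ?_⟩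
  obtain ⟨e, b⟩ := d
  cases b <;> simp [dlab]

theorem exists_flipL {H : Type} [Group H] (n : Equiv.Perm (E × Bool)) (d : E × Bool) (μ : E → H) :
    ∃ μ', FlipL n d μ μ' := by
  obtain ⟨μ', a, b⟩ := exists_upd μ d (dlab μ (n (n d)) * dlab μ (n (rev d)))⁻¹
  exact ⟨μ', a, b⟩

theorem dlab_out {H : Type} [Group H] {μ μ' : E → H} {d : E × Bool}
    (h : ∀ e, e ≠ d.1 → μ' e = μ e) {x : E × Bool} (h1 : x ≠ d) (h2 : x ≠ rev d) :
    dlab μ' x = dlab μ x := by
  have : x.1 ≠ d.1 := fun e => (eq_or_rev' e).elim h1 h2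
  unfold dlab; rw [h _ this]

theorem IsFlip.cases {d : E × Bool} (n : Equiv.Perm (E × Bool)) (x : E × Bool) :
    (Off n d x ∧ Off n (rev d) x) ∨ x = d ∨ x = n d ∨ x = n (n d) ∨ x = rev d ∨ x = n (rev d) ∨
      x = n (n (rev d)) := by
  unfold Off; tauto

theorem IsFlip.tri (hn : IsTri n) {d : E × Bool} (h : IsFlip n d n') : IsTri n' := by
  obtain ⟨⟨a1, a2, a3⟩, ⟨b1, b2, b3⟩, ⟨c1, c2, c3⟩, ⟨d1, d2, d3⟩, e1, e2, e3⟩ := hn.six h.sep
  have k : ∀ x, n' (n' (n' x)) = x ∧ n' x ≠ x := fun x => by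
    rcases IsFlip.cases (d := d) n x with ⟨p, q⟩ | rfl | rfl | rfl | rfl | rfl | rfl
    · rw [h.out _ p q, h.out _ (hn.off_nxt' p) (hn.off_nxt' q),
        h.out _ (hn.off_nxt' (hn.off_nxt' p)) (hn.off_nxt' (hn.off_nxt' q))]
      exact ⟨hn.1 _, hn.2 _⟩
    all_goals simp only [h.e1, h.e2, h.e3, h.e4, h.e5, h.e6, true_and]
    exacts [a2, c2, d3, b2, d1.symm, e2.symm]
  exact ⟨fun x => (k x).1, fun x => (k x).2⟩

theorem MarkAt.flip (hn : IsTri n) {d : E × Bool} (h : MarkAt n d l) (hf : IsFlip n d n')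
    (hl : FlipL n d l l') : MarkAt n' (rev d) l' := by
  obtain ⟨⟨a1, a2, a3⟩, ⟨b1, b2, b3⟩, ⟨c1, c2, c3⟩, ⟨d1, d2, d3⟩, e1, e2, e3⟩ := hn.six hf.sep
  have hn' := hf.tri hn
  have same : ∀ (H : Type) [Group H] (μ μ' : E → H), (∀ e, e ≠ d.1 → μ' e = μ e) →
      ∀ x, Off n d x → Off n (rev d) x → fp n' μ' x = fp n μ x := by
    intro H _ μ μ' hμ x p q
    have p1 := hn.off_nxt' p
    have q1 := hn.off_nxt' q
    rw [fp, fp, hf.out _ p q, hf.out _ p1 q1, dlab_out hμ p.1 q.1, dlab_out hμ p1.1 q1.1,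
      dlab_out hμ (hn.off_nxt' p1).1 (hn.off_nxt' q1).1]
  have la := dlab_out hl.out a1 c2.symm
  have lb := dlab_out hl.out a2 c3.symm
  have lc := dlab_out hl.out d1 b1
  have lh := dlab_out hl.out e1 b2
  have r0 : dlab l (n (rev d)) * dlab l (n (n (rev d))) = dlab l d := by
    have := h.rel _ hf.sep
    rwa [fp, dlab_rev, mul_assoc, inv_mul_eq_one, eq_comm] at this
  have f0 : fp n' l' d = 1 := by
    rw [fp, hf.e1, hf.e2, hl.new, lb, lc]; group
  refine ⟨fun x hx => ?_, ?_, ?_, fun H _ μ' hμ => ?_, fun ε p q => ?_⟩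
  · rw [Off, hf.e4, hf.e5] at hx
    rcases IsFlip.cases (d := d) n x with ⟨p, q⟩ | rfl | rfl | rfl | rfl | rfl | rfl
    · rw [same _ l l' hl.out x p q, h.rel x p]
    · exact f0
    · exact absurd rfl hx.2.2
    · rw [← hf.e1, hn'.fp_nxt, f0]; group
    · exact absurd rfl hx.1
    · rw [← hf.e2, ← hf.e1, hn'.fp_nxt, hn'.fp_nxt, f0]; group
    · exact absurd rfl hx.2.1
  · refine IsConj.trans (isConj_iff.2 ⟨(dlab l (n (n d)))⁻¹, ?_⟩) h.dfc
    rw [fp, fp, hf.e4, hf.e5, dlab_rev, hl.new, la, lh, ← r0]; group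
  · rw [eq_top_iff, ← h.gen, Subgroup.closure_le]
    rintro _ ⟨e, rfl⟩
    by_cases he : e = d.1
    · have : dlab l d ∈ Subgroup.closure (Set.range l') := by
        rw [← r0, ← lc, ← lh]; exact mul_mem (dlab_mem _ _) (dlab_mem _ _)
      obtain ⟨x, b⟩ := d
      cases he
      cases b
      exacts [inv_mem_iff.1 this, this]
    · rw [← hl.out e he]; exact Subgroup.subset_closure ⟨e, rfl⟩
  · obtain ⟨μ, m1, m2⟩ := exists_upd μ' d (dlab μ' (n (rev d)) * dlab μ' (n (n (rev d))))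
    have g0 : fp n μ (rev d) = 1 := by
      rw [fp, dlab_rev, m2, dlab_out m1 d1 b1, dlab_out m1 e1 b2]; group
    obtain ⟨φ, hφ⟩ := h.ext H μ fun x p => by
      rcases off_or n (rev d) x with q | rfl | rfl | rfl
      · rw [← same _ μ μ' (fun e he => (m1 e he).symm) x p q]
        exact hμ x (by rw [Off, hf.e4, hf.e5]; exact ⟨q.1, q.2.2, p.2.1⟩)
      · exact g0
      · rw [hn.fp_nxt, g0]; group
      · rw [hn.fp_nxt, hn.fp_nxt, g0]; group
    refine ⟨φ, fun e => ?_⟩
    by_cases he : e = d.1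
    · have k := hμ d (by rw [Off, hf.e4, hf.e5]; exact ⟨c1.symm, e1.symm, a1.symm⟩)
      rw [fp, hf.e1, hf.e2, mul_assoc, mul_eq_one_iff_eq_inv] at k
      have : φ (dlab l' d) = dlab μ' d := by
        rw [hl.new, k, map_inv, map_mul, map_dlab, map_dlab, funext hφ, dlab_out m1 a2 c3.symm,
          dlab_out m1 d1 b1]
      obtain ⟨x, b⟩ := d
      cases he
      cases b
      exacts [inv_injective ((map_inv φ _).symm.trans this), this]
    · rw [hl.out e he, hφ, m1 e he]
  · have k1 : ε (n (n d)) = ε d := by rw [← hf.e1, p]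
    have k2 : ε (n (rev d)) = ε d := by rw [← hf.e2, p, k1]
    have k3 : ε (n (n (rev d))) = ε d := by rw [← hf.e4, p, q]
    have k4 : ε (n d) = ε d := by rw [← hf.e5, p, k3]
    refine h.con ε (fun x => ?_) q
    rcases IsFlip.cases (d := d) n x with ⟨s, t⟩ | rfl | rfl | rfl | rfl | rfl | rfl
    · rw [← hf.out x s t, p]
    all_goals simp only [hn.1, k1, k2, k3, k4, q]

theorem Mark.flip [Finite E] (hn : IsTri n) (h : Mark n l) {d : E × Bool} (hf : IsFlip n d n')
    (hl : FlipL n d l l') : Mark n' l' := by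
  obtain ⟨d₀, m₀, h1, h2⟩ := h
  obtain ⟨m, h3, h4⟩ := h1.move hn d
  obtain ⟨m', h5⟩ := exists_flipL n d m
  have c : ∀ e, Cg (l e) (m e) := fun e => (h2 e).trans (h4 e)
  refine ⟨_, m', h3.flip hn hf h5, fun e => ?_⟩
  by_cases he : e = d.1
  · have : Cg (dlab l' d) (dlab m' d) := by
      rw [hl.new, h5.new]; exact ((cg_dlab c _).mul (cg_dlab c _)).inv
    obtain ⟨x, b⟩ := d
    cases he
    cases b
    exacts [by simpa [dlab] using this.inv, this]
  · rw [hl.out e he, h5.out e he]; exact c e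

theorem MarkAt.same {d : E × Bool} (h : MarkAt n d l) (h' : MarkAt n d l') :
    ∃ ψ : Fr g ≃* Fr g, AutR ψ ∧ ∀ e, ψ (l e) = l' e := by
  obtain ⟨φ, hφ⟩ := h.ext _ l' h'.rel
  obtain ⟨χ, hχ⟩ := h'.ext _ l h.rel
  have k : ∀ {m : E → Fr g} (θ : Fr g →* Fr g), Subgroup.closure (Set.range m) = ⊤ →
      (∀ e, θ (m e) = m e) → θ = MonoidHom.id _ := fun θ a b =>
    MonoidHom.eq_of_eqOn_dense a (by rintro _ ⟨e, rfl⟩; exact b e)
  refine ⟨MonoidHom.toMulEquiv φ χ (k _ h.gen fun e => by simp [hφ, hχ])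
    (k _ h'.gen fun e => by simp [hφ, hχ]), ?_, hφ⟩
  refine (φ.map_isConj h.dfc).symm.trans ?_
  rw [map_fp, funext hφ]
  exact h'.dfc

theorem Mark.same [Finite E] (hn : IsTri n) (h : Mark n l) (h' : Mark n l') :
    ∃ ψ : Fr g ≃* Fr g, AutR ψ ∧ ∀ e, Cg (ψ (l e)) (l' e) := by
  obtain ⟨d, m₀, h1, h2⟩ := h
  obtain ⟨d', m', h3, h4⟩ := h'
  obtain ⟨m, h5, h6⟩ := h1.move hn d'
  obtain ⟨ψ, a, b⟩ := h5.same h3
  exact ⟨ψ, a, fun e => (((h2 e).trans (h6 e)).map a).trans (by rw [b]; exact (h4 e).symm)⟩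

end Pool.Agent.MP_596265_gt.U

end

section

/-! Block T: boundary cycles of a subgraph are simple or bound a disc. -/

namespace Pool.Agent.MP_596265_gt.U

open Erg

variable {g : ℕ} {E : Type} {n : Equiv.Perm (E × Bool)} {l : E → Fr g}

theorem t5_flat {H : Type} [Group H] (μ : E → H) (ex : E × Bool → List (E × Bool))
    (m : E × Bool → H) (u : List (E × Bool)) (h : ∀ y ∈ u, lab μ (ex y) = m y) :
    lab μ (u.flatMap ex) = (u.map m).prod := by
  induction u with
  | nil => simp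
  | cons y u ih =>
    rw [List.flatMap_cons, lab_append, h y (by simp), ih fun z hz => h z (by simp [hz])]
    simp

theorem t5_filter {H A : Type} [Group H] (m : A → H) (q : A → Bool) (u : List A)
    (h : ∀ y ∈ u, ¬ q y → m y = 1) : ((u.filter q).map m).prod = (u.map m).prod := by
  induction u with
  | nil => simp
  | cons y u ih =>
    have := ih fun z hz => h z (by simp [hz])
    by_cases c : q y
    · simp [c, this]
    · simp [c, this, h y (by simp) c]

theorem t5_congr {H : Type} [Group H] {μ ν : E → H} (u : List (E × Bool))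
    (h : ∀ y ∈ u, μ y.1 = ν y.1) : lab μ u = lab ν u := by
  rw [lab_eq_prod, lab_eq_prod, List.map_congr_left fun y hy => dlab_congr (h y hy)]

theorem t5_mem {H : Type} [Group H] (μ : E → H) (K : Subgroup H) (u : List (E × Bool))
    (h : ∀ y ∈ u, dlab μ y ∈ K) : lab μ u ∈ K := by
  rw [lab_eq_prod]
  exact K.list_prod_mem fun z hz => by
    obtain ⟨y, hy, rfl⟩ := List.mem_map.1 hz
    exact h y hy

/-- The core of the argument: `p` is a potential that is constant in the corners of `S` and grows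
along the cycle `c` through `t`. -/
theorem t5_core [Finite E] (hn : IsTri n) {t : E × Bool} (h : MarkAt n t l) (S : Set E)
    (c : List (E × Bool)) (hc : c.Nodup) (ht : t ∈ c) (hS : ∀ y ∈ c, y.1 ∈ S)
    (p : E × Bool → Fr g) (p1 : ∀ y, y.1 ∉ S → p (n (rev y)) = p y)
    (p2 : ∀ y ∈ c, y ≠ t → p y * dlab l y * (p (n y))⁻¹ = 1)
    (p3 : p t * dlab l t * (p (n t))⁻¹ = lab l c)
    (p4 : ∀ y, y.1 ∈ S → y ∉ c → p y * dlab l y * (p (n y))⁻¹ = dlab l y)
    (p5 : ∀ K : Subgroup (Fr g), (∀ y ∈ c, dlab l y ∈ K) → ∀ y, p y ∈ K) (x : E × Bool)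
    (hF : ∀ F : Set (E × Bool), t ∈ F → (∀ y ∈ F, n y ∈ F) → (∀ y ∈ F, y.1 ∉ S → rev y ∈ F) →
      x ∈ F ∧ ∀ y ∈ c, y ∈ F) :
    Simp0 (lab l c) ∨ p x * dlab l x * (p (n x))⁻¹ ∈ NN g := by
  classical
  obtain ⟨F, ex₁, s, -, a1, a2, -⟩ := St.grow hn (· ∉ S) _ _ _ le_rfl (St.init hn t)
  generalize List.flatMap ex₁ _ = w at s a1 a2
  replace a2 : ∀ y ∈ F, y ∉ w → y.1 ∉ S := fun y a b => (a2 y a b).resolve_left fun e => e.2 e.1
  obtain ⟨hx, hcF⟩ := hF F s.bas s.clo fun y a b => by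
    by_cases e : y ∈ w
    exacts [a1 y e b, (s.tre y a e).1]
  have hcw : ∀ y ∈ c, y ∈ w := fun y hy => by_contra fun e => a2 y (hcF y hy) e (hS y hy)
  have hr : ∀ y ∈ w, y.1 ∉ S → rev y ∈ w := fun y a b => by_contra fun e =>
    (s.tre _ (a1 y a b) e).2 (by simpa)
  obtain ⟨m, hm⟩ : ∃ m : E × Bool → Fr g, ∀ y, m y = p y * dlab l y * (p (n y))⁻¹ := ⟨_, fun _ => rfl⟩
  simp only [← hm] at p2 p3 p4 ⊢
  have p1' : ∀ y, y.1 ∉ S → p (n y) = p (rev y) := fun y hy => by rw [← p1 (rev y) hy, rev_rev]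
  have hface : ∀ y, m y * m (n y) * m (n (n y)) = p y * fp n l y * (p y)⁻¹ := fun y => by
    simp only [hm, fp, hn.1]; group
  have cm : Comp n t w F m := ⟨fun y a b => by
      rw [hm, hm, p1 y (a2 y a b), p1' y (a2 y a b), dlab_rev]; group,
    fun y _ hy => by rw [hface, h.rel y hy]; group⟩
  have v := s.val _ m cm
  obtain ⟨A, B, rfl⟩ := List.append_of_mem (hcw t ht)
  have hnd := s.nd
  rw [List.nodup_middle, List.nodup_cons] at hnd
  have v' : IsConj (lab l c * (((B ++ A).filter (· ∉ c)).map m).prod) (relPre g g) := by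
    rw [t5_filter m _ _ fun y hy e => p2 y (by simpa using e) fun e' =>
      hnd.1 (List.perm_append_comm.subset (e' ▸ hy)), ← p3]
    refine .trans (isConj_iff.2 ⟨(p t)⁻¹ * (A.map m).prod, ?_⟩) h.dfc
    rw [hface, List.map_append, List.prod_append, List.map_cons, List.prod_cons] at v
    rw [List.map_append, List.prod_append, ← mul_left_cancel_iff (a := p t),
      ← mul_right_cancel_iff (a := (p t)⁻¹), ← v]
    group
  have hp : (A ++ t :: B).Perm (c ++ (B ++ A).filter (· ∉ c)) := by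
    refine (List.perm_ext_iff_of_nodup s.nd (List.nodup_append.2 ⟨hc,
      (List.perm_append_comm.nodup_iff.1 hnd.2).filter _, fun y a z b e => ?_⟩)).2 fun y => ?_
    · simp [← e, a] at b
    · have := hcw y
      by_cases e : y ∈ c
      · simp only [List.mem_append, e, true_or, iff_true]; simpa using this e
      · have : y ≠ t := fun e' => e (e' ▸ ht)
        simp [e, this, or_comm]
  generalize (B ++ A).filter (· ∉ c) = Q at v' hp
  generalize A ++ t :: B = w at *
  by_cases hQ : Q = []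
  · right
    subst hQ
    refine s.gen _ m cm (NN g) (fun y hy => ?_) x hx
    by_cases e : y = t
    · rw [e, p3]; exact mem_NN_of_conj (by simpa only [isConj_iff, List.map_nil, List.prod_nil, mul_one] using v')
    · rw [p2 y (by simpa using hp.subset hy) e]; exact one_mem _
  left
  obtain ⟨ex, -, bs, b⟩ := s.full hn h
  let U : Set E := {e | e ∉ S ∧ (e, true) ∈ w}
  have hU : ∀ y ∈ w, y.1 ∈ S → ∀ z ∈ ex y, z.1 ∉ U := fun y a a' z hz e => by
    rcases (b y a).2.2.1 z hz with rfl | e'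
    · exact e.1 a'
    · obtain ⟨z, _ | _⟩ := z
      exacts [e' (a1 _ e.2 e.1), e' (s.sub _ e.2)]
  let l' : E → Fr g := fun e => if e ∈ U then p (e, true) * l e * (p (e, false))⁻¹ else l e
  have k1 : ∀ y ∈ w, y.1 ∈ S → lab l' (ex y) = dlab l y := fun y a a' => by
    rw [← (b y a).2.2.2]
    exact t5_congr _ fun z hz => if_neg (hU y a a' z hz)
  have k2 : lab l' (c.flatMap ex) = lab l c := by
    rw [t5_flat l' ex (dlab l) c fun y hy => k1 y (hcw y hy) (hS y hy), lab_eq_prod]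
  have k3 : ∀ y ∈ Q, lab l' (ex y) = m y := fun y hy => by
    have a : y ∈ w := hp.symm.subset (List.mem_append_right _ hy)
    by_cases e : y.1 ∈ S
    · rw [k1 y a e, p4 y e fun e' =>
        List.disjoint_of_nodup_append (hp.nodup_iff.1 s.nd) e' hy]
    · rw [(b y a).2.1 (a1 y a e), lab_cons, lab_nil, mul_one, hm, p1' y e]
      obtain ⟨y, _ | _⟩ := y
      · have : y ∈ U := ⟨e, hr _ a e⟩
        simp only [dlab, l', if_pos this, rev, cond_false, Bool.not_false]; group
      · have : y ∈ U := ⟨e, a⟩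
        simp only [dlab, l', if_pos this, rev, cond_true, Bool.not_true]
  have bs' := bs.gauge (lam' := l') U p (p5 _ fun y hy => by
      rw [← (b y (hcw y hy)).2.2.2]
      refine t5_mem _ _ _ fun z hz => ?_
      obtain ⟨ι, -, -, -, i⟩ := bs.ex
      have : l z.1 ∈ Subgroup.closure (l '' {e | e ∉ U ∧ (e, true) ∈ w.flatMap ex}) :=
        Subgroup.subset_closure ⟨z.1, ⟨hU y (hcw y hy) (hS y hy) z hz,
          (i _).2 ((i z).1 (List.mem_flatMap.2 ⟨y, hcw y hy, hz⟩))⟩, rfl⟩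
      obtain ⟨z, _ | _⟩ := z
      exacts [inv_mem this, this])
    (fun e he => if_pos he) (fun e he => if_neg he) (hp.flatMap_right ex)
    (by rwa [List.flatMap_append, lab_append, k2, t5_flat l' ex m Q k3])
  rw [List.flatMap_append] at bs'
  obtain ⟨y, hy⟩ := List.exists_mem_of_ne_nil Q hQ
  rw [← k2]
  exact bs'.diag (fun e => (b t (hcw t ht)).1 (List.flatMap_eq_nil_iff.1 e t ht)) fun e =>
    (b y (hp.symm.subset (List.mem_append_right _ hy))).1 (List.flatMap_eq_nil_iff.1 e y hy)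

/-- First dart of `S` in the rotation at the vertex. -/
theorem t5_first (S : Set E) (σ : E × Bool → E × Bool) (h : ∀ y, ∃ k, (σ^[k] y).1 ∈ S) :
    (∃ (f : E × Bool → E × Bool) (Y : E × Bool → List (E × Bool)),
      (∀ y, y.1 ∈ S → f y = y ∧ Y y = []) ∧ ∀ y, y.1 ∉ S → f y = f (σ y) ∧ Y y = y :: Y (σ y)) ∧
    ∀ P : E × Bool → Prop, (∀ y, y.1 ∈ S → P y) → (∀ y, y.1 ∉ S → P (σ y) → P y) → ∀ y, P y := by
  classical
  refine ⟨⟨fun y => σ^[Nat.find (h y)] y, fun y => List.iterate σ y (Nat.find (h y)),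
    fun y hy => ?_, fun y hy => ?_⟩, fun P a b y => ?_⟩
  · simp only [(Nat.find_eq_zero (h y)).2 hy]; exact ⟨rfl, rfl⟩
  · simp only [Nat.find_comp_succ (h y) (h (σ y)) hy]; exact ⟨rfl, rfl⟩
  · obtain ⟨k, hk⟩ := h y
    induction k generalizing y with
    | zero => exact a y hk
    | succ k ih =>
      by_cases e : y.1 ∈ S
      exacts [a y e, b y e (ih _ hk)]

/-- ROW T5: every corner of the subgraph `S` lies on a boundary cycle, which is simple or bounds a
disc. -/
theorem Mark.bdry [Finite E] (hn : IsTri n) (h : Mark n l) (S : Set E) (hS : S.Nonempty)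
    {x : E × Bool} (hx : x.1 ∉ S) :
    ∃ (m : ℕ) (s : ℕ → E × Bool) (Y : ℕ → List (E × Bool)), 0 < m ∧ s m = s 0 ∧
      Set.InjOn s (Set.Iio m) ∧ (∀ i, (s i).1 ∈ S) ∧
      (∀ i < m, Cor n (s i) (Y i) (s (i + 1)) ∧ ∀ y ∈ Y i, y.1 ∉ S) ∧ x ∈ Y (m - 1) ∧
      (Simp (lab l ((List.range m).map s)) ∨
        ∃ A : List (E × Bool), A.Nodup ∧ (∀ a ∈ A, a.1 ∈ S) ∧ dlab l x * lab l A ∈ NN g) := by
  classical
  obtain ⟨e₀, he₀⟩ := hS
  obtain ⟨⟨f, Y, f0, f1⟩, ind⟩ := t5_first S (fun y => n (rev y)) fun y =>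
    (h.link hn y (e₀, true)).imp fun k hk => by rw [hk]; exact he₀
  have fS : ∀ y, (f y).1 ∈ S := ind _ (fun y a => by rwa [(f0 y a).1]) fun y a b => by
    rwa [(f1 y a).1]
  have fY : ∀ y, ∀ z ∈ Y y, z.1 ∉ S ∧ f z = f y ∧ (n (rev z) ∈ Y y ∨ n (rev z) = f y) :=
    ind _ (fun y a => by simp [(f0 y a).2]) fun y a b z hz => by
      rw [(f1 y a).2] at hz ⊢
      rcases List.mem_cons.1 hz with rfl | hz
      · refine ⟨a, rfl, ?_⟩
        by_cases e : (n (rev z)).1 ∈ S
        · exact .inr (by rw [(f1 z a).1, (f0 _ e).1])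
        · exact .inl (by rw [(f1 _ e).2]; simp)
      · rw [(f1 y a).1]
        exact ⟨(b z hz).1, (b z hz).2.1, (b z hz).2.2.imp_left (List.mem_cons_of_mem _)⟩
  have fC : ∀ y s, n s = y → Cor n s (Y y) (f y) :=
    ind _ (fun y a s e => by rw [(f0 y a).1, (f0 y a).2]; exact e) fun y a b s e => by
      rw [(f1 y a).1, (f1 y a).2]; exact ⟨e, b _ rfl⟩
  have fF : ∀ F : Set (E × Bool), (∀ y ∈ F, n y ∈ F) → (∀ y ∈ F, y.1 ∉ S → rev y ∈ F) →
      ∀ y, y ∈ F → f y ∈ F ∧ ∀ z ∈ Y y, z ∈ F := fun F c1 c2 =>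
    ind _ (fun y a b => by simp [f0 y a, b]) fun y a b c => by
      have := b (c1 _ (c2 y c a))
      rw [(f1 y a).1, (f1 y a).2]
      exact ⟨this.1, List.forall_mem_cons.2 ⟨c, this.2⟩⟩
  have all : ∀ y, ∃ t : E × Bool, t.1 ∈ S ∧ (y ∈ Y (n t) ∨ y = f (n t)) := fun y => by
    have base : ∀ t : E × Bool, n t ∈ Y (n t) ∨ n t = f (n t) := fun t => by
      by_cases e : (n t).1 ∈ S
      · exact .inr (f0 _ e).1.symm
      · exact .inl (by rw [(f1 _ e).2]; simp)
    obtain ⟨k, rfl⟩ := h.link hn (n (e₀, true)) y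
    induction k with
    | zero => exact ⟨_, he₀, base _⟩
    | succ k ih =>
      rw [Function.iterate_succ_apply']
      obtain ⟨t, a, b | b⟩ := ih
      · exact ⟨t, a, (fY _ _ b).2.2⟩
      · exact ⟨_, by rw [rev_fst, b]; exact fS _, base _⟩
  let ν : {y : E × Bool // y.1 ∈ S} → {y : E × Bool // y.1 ∈ S} := fun y => ⟨f (n y.1), fS _⟩
  have hν : Function.Injective ν := Finite.injective_iff_surjective.2 fun y => by
    obtain ⟨t, a, b | b⟩ := all y.1
    exacts [absurd y.2 (fY _ _ b).1, ⟨⟨t, a⟩, Subtype.ext b.symm⟩]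
  obtain ⟨t, tS, tx⟩ := all x
  replace tx := tx.resolve_right fun e => hx (e ▸ fS _)
  obtain ⟨m, hm⟩ : ∃ m, m + 1 = Function.minimalPeriod ν ⟨t, tS⟩ := ⟨_, Nat.sub_add_cancel
    (Function.minimalPeriod_pos_of_mem_periodicPts (hν.mem_periodicPts _))⟩
  obtain ⟨s, hs⟩ : ∃ s : ℕ → E × Bool, ∀ i, s i = (ν (ν^[i] ⟨t, tS⟩)).1 := ⟨_, fun _ => rfl⟩
  have s0 : s 0 = f (n t) := hs 0
  have s1 : ∀ i, s (i + 1) = f (n (s i)) := fun i => by
    rw [hs, hs, Function.iterate_succ_apply']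
  have s2 : s m = t := by
    rw [hs, ← Function.iterate_succ_apply' ν, Nat.succ_eq_add_one, hm,
      Function.iterate_minimalPeriod]
  have s3 : ∀ i, (s i).1 ∈ S := fun i => by rw [hs]; exact fS _
  have s4 : Set.InjOn s (Set.Iio (m + 1)) := fun i a j b e => by
    rw [hs, hs] at e
    rw [hm] at a b
    exact Function.iterate_injOn_Iio_minimalPeriod a b (hν (Subtype.ext e))
  have s5 : ∀ k ≤ m + 1, ((List.range k).map s).Nodup := fun k hk =>
    List.nodup_range.map_on fun i a j b => s4 ((List.mem_range.1 a).trans_le hk)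
      ((List.mem_range.1 b).trans_le hk)
  obtain ⟨l', h1, h2⟩ := h.at hn t
  let P : E × Bool → Fr g := fun y =>
    if e : ∃ i < m + 1, s i = y then lab l' ((List.range e.choose).map s) else 1
  have P1 : ∀ i < m + 1, P (s i) = lab l' ((List.range i).map s) := fun i hi => by
    have e : ∃ j < m + 1, s j = s i := ⟨i, hi, rfl⟩
    simp only [P, dif_pos e, s4 e.choose_spec.1 hi e.choose_spec.2]
  have P2 : ∀ y, ∃ i ≤ m + 1, P y = lab l' ((List.range i).map s) := fun y => by
    by_cases e : ∃ i < m + 1, s i = y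
    exacts [⟨_, e.choose_spec.1.le, dif_pos e⟩, ⟨0, by omega, dif_neg e⟩]
  have P0 : P (f (n t)) = 1 := by rw [← s0, P1 0 (by omega)]; rfl
  have mem : ∀ y, y ∈ (List.range (m + 1)).map s ↔ ∃ i < m + 1, s i = y := fun y => by simp only [List.mem_map, List.mem_range, Order.lt_add_one_iff]
  refine ⟨m + 1, s, fun i => Y (n (s i)), by omega, by rw [s1, s2, s0], s4, s3,
    fun i _ => ⟨s1 i ▸ fC _ _ rfl, fun y hy => (fY _ _ hy).1⟩, by simpa [s2] using tx, ?_⟩
  refine (t5_core hn h1 S _ (s5 _ le_rfl) ((mem t).2 ⟨m, by omega, s2⟩) (fun y hy => ?_)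
    (fun y => P (f y)) (fun y hy => by rw [(f1 y hy).1]) (fun y hy e => ?_) ?_ (fun y a b => ?_)
    (fun K hK y => ?_) x fun F a b c => ⟨(fF F b c _ (b t a)).2 x tx, fun y hy => ?_⟩).imp
    (fun a => a.simp.congr (cg_lab h2 _).symm) fun a => ?_
  · obtain ⟨i, -, rfl⟩ := (mem y).1 hy
    exact s3 i
  · obtain ⟨i, hi, rfl⟩ := (mem y).1 hy
    have : i ≠ m := fun e' => e (e' ▸ s2)
    simp only [(f0 _ (s3 i)).1, ← s1, P1 i hi, P1 (i + 1) (by omega), List.range_succ,
      List.map_append, lab_append, List.map_cons, List.map_nil, lab_cons, lab_nil]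
    group
  · simp only [P0, (f0 _ tS).1, List.range_succ, List.map_append, lab_append, List.map_cons,
      List.map_nil, lab_cons, lab_nil, s2, ← P1 m (by omega)]
    group
  · have : ¬ ∃ i < m + 1, s i = f (n y) := by
      rintro ⟨i, hi, e⟩
      rw [hs] at e
      have e' := congrArg Subtype.val (hν (Subtype.ext e : _ = ν ⟨y, a⟩))
      refine b ((mem y).2 ?_)
      cases i with
      | zero => exact ⟨m, by omega, s2.trans e'⟩
      | succ i => exact ⟨i, by omega, by rw [hs, ← Function.iterate_succ_apply' ν]; exact e'⟩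
    simp only [(f0 y a).1, P, dif_neg this, dif_neg (mt (mem y).2 b)]
    group
  · obtain ⟨i, hi, e⟩ := P2 (f y)
    simp only [e]
    refine t5_mem _ _ _ fun z hz => hK z ?_
    obtain ⟨j, hj, rfl⟩ := List.mem_map.1 hz
    exact (mem _).2 ⟨j, (List.mem_range.1 hj).trans_le hi, rfl⟩
  · obtain ⟨i, -, rfl⟩ := (mem y).1 hy
    clear hy
    induction i with
    | zero => exact s0 ▸ (fF F b c _ (b t a)).1
    | succ i ih => exact s1 i ▸ (fF F b c _ (b _ ih)).1
  · obtain ⟨i, hi, e⟩ := P2 (f (n x))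
    simp only [(fY _ _ tx).2.1, P0, e, one_mul, ← lab_invRev] at a
    refine ⟨FreeGroup.invRev ((List.range i).map s), ?_, fun z hz => ?_,
      cg_one.1 (((cg_dlab h2 x).mul (cg_lab h2 _)).trans (cg_one.2 a))⟩
    · exact List.nodup_reverse.2 ((s5 i hi).map (revP E).injective)
    · simp only [FreeGroup.invRev, List.mem_reverse, List.mem_map] at hz
      obtain ⟨_, ⟨j, -, rfl⟩, rfl⟩ := hz
      exact s3 j

end Pool.Agent.MP_596265_gt.U

end

section

/-! Block T: a triangulated polygon gives a marked triangulation. -/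

namespace Pool.Agent.MP_596265_gt.U

open Erg

variable {g : ℕ} {E : Type}

theorem PT.pq {ν : ℝ} {V : ℕ → Pt} {i j : ℕ} (h : PT ν V i j) :
    PQ (fun i k j => 0 < ν * det3 (V i) (V k) (V j)) i j := by
  induction h with
  | leaf i => exact PQ.leaf i
  | node _ _ h a b => exact PQ.node a b h

theorem PQ.lt {Q : ℕ → ℕ → ℕ → Prop} {i j : ℕ} (h : PQ Q i j) : i < j := by
  induction h with
  | leaf i => exact Nat.lt_succ_self i
  | node _ _ _ a b => exact a.trans b

theorem PQ.mono {Q Q' : ℕ → ℕ → ℕ → Prop} {i j m : ℕ} (h : PQ Q i j) (hj : j ≤ m)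
    (hQ : ∀ i k j, i < k → k < j → j ≤ m → Q i k j → Q' i k j) : PQ Q' i j := by
  induction h with
  | leaf i => exact PQ.leaf i
  | node a b c p q => exact PQ.node (p (b.lt.le.trans hj)) (q hj) (hQ _ _ _ a.lt b.lt hj c)

/-- Lists of sides that can be cut into triangles by ears. -/
inductive Ear (Q : Fr g → Fr g → Prop) : List (Fr g) → Prop
  | base (a b c : Fr g) : Q a (a * b) → Ear Q [a, b, c]
  | step (A B : List (Fr g)) (a b : Fr g) : Ear Q (A ++ (a * b) :: B) → Q a (a * b) →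
      Ear Q (A ++ a :: b :: B)

theorem tx_ear {Q : Fr g → Fr g → Prop} (v : ℕ → Fr g) {i j : ℕ}
    (h : PQ (fun i k j => Q ((v i)⁻¹ * v k) ((v i)⁻¹ * v j)) i j) : ∀ A B,
    Ear Q (A ++ ((v i)⁻¹ * v j) :: B) →
      Ear Q (A ++ (List.range' i (j - i)).map (fun k => (v k)⁻¹ * v (k + 1)) ++ B) := by
  induction h with
  | leaf i => intro A B h; simpa only [add_tsub_cancel_left, List.range'_one, List.map_cons, List.map_nil, List.append_assoc, List.cons_append, List.nil_append] using h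
  | @node i k j a b c p q =>
    intro A B h
    have e : (v i)⁻¹ * v j = (v i)⁻¹ * v k * ((v k)⁻¹ * v j) := by group
    have h1 := q (A ++ [(v i)⁻¹ * v k]) B (by
      simpa using Ear.step A B _ _ (e ▸ h) (e ▸ c))
    have h2 := p A _ (by simpa using h1)
    have := a.lt
    have := b.lt
    rw [show j - i = k - i + (j - k) by omega, ← List.range'_append_1,
      show i + (k - i) = k by omega]
    simpa only [List.map_append, List.append_assoc] using h2

/-- The state of the construction: `L` is the face that is not yet cut, `U` the unused edges. -/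
structure TxS (Q : Fr g → Fr g → Prop) (f : E × Bool → E × Bool) (L : List (E × Bool))
    (U : Finset E) (l : E → Fr g) : Prop where
  nd : L.Nodup
  nu : ∀ d ∈ L, d.1 ∉ U
  tri : ∀ d, d.1 ∉ U → d ∉ L → ((f d).1 ∉ U ∧ f d ∉ L) ∧ f (f (f d)) = d ∧ f d ≠ d ∧
    dlab l d * dlab l (f d) * dlab l (f (f d)) = 1 ∧ Q (dlab l d) (dlab l d * dlab l (f d))
  dfc : IsConj (lab l L) (relPre g g)
  gen : Subgroup.closure (l '' {e | e ∉ U}) = ⊤
  ext : ∀ (H : Type) [Group H] (μ : E → H), (∀ d, d.1 ∉ U → d ∉ L →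
    dlab μ d * dlab μ (f d) * dlab μ (f (f d)) = 1) → ∃ φ : Fr g →* H, ∀ e, e ∉ U → φ (l e) = μ e
  con : ∀ ε : E × Bool → Bool, (∀ d, d.1 ∉ U → d ∉ L → ε (f d) = ε d) → (∀ d, ε (rev d) = ε d) →
    ∀ c, (∀ d ∈ L, ε d = c) → ∀ d, d.1 ∉ U → ε d = c

theorem tx_cyc [DecidableEq E] (f : E × Bool → E × Bool) {x y z : E × Bool} (h1 : x ≠ y) (h2 : x ≠ z)
    (h3 : y ≠ z) : ∃ f' : E × Bool → E × Bool, f' x = y ∧ f' y = z ∧ f' z = x ∧
      ∀ d, d ≠ x → d ≠ y → d ≠ z → f' d = f d :=
  ⟨fun d => if d = x then y else if d = y then z else if d = z then x else f d, by simp,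
    by simp [h1.symm], by simp [h2.symm, h3.symm], fun d a b c => by simp [a, b, c]⟩

theorem tx_step {Q : Fr g → Fr g → Prop} (hQ : ∀ a b c, a * b * c ∈ NN g → Q a (a * b) → Q b (b * c))
    {f : E × Bool → E × Bool} {A B : List (E × Bool)} {x y : E × Bool} {U : Finset E}
    {l : E → Fr g} (h : TxS Q f (A ++ x :: y :: B) U l) (hq : Q (dlab l x) (dlab l x * dlab l y))
    [DecidableEq E] {u : E} (hu : u ∈ U) :
    ∃ f', TxS Q f' (A ++ (u, true) :: B) (U.erase u)
      (Function.update l u (dlab l x * dlab l y)) := by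
  have nd := h.nd
  simp only [List.nodup_append, List.nodup_cons, List.mem_cons, not_or] at nd
  obtain ⟨n1, ⟨⟨n2, n3⟩, n4, n5⟩, n6⟩ := nd
  have ne : ∀ d : E × Bool, d.1 ∉ U → d.1 ≠ u := fun d a e => a (e ▸ hu)
  have xu := h.nu x (by simp)
  have yu := h.nu y (by simp)
  obtain ⟨f', e1, e2, e3, e4⟩ := tx_cyc f (x := x) (y := y) (z := (u, false)) n2
    (fun e => ne x xu (by rw [e])) (fun e => ne y yu (by rw [e]))
  set l' := Function.update l u (dlab l x * dlab l y) with hl'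
  have ll : ∀ d : E × Bool, d.1 ∉ U → dlab l' d = dlab l d := fun d a => by
    unfold dlab; rw [hl', Function.update_of_ne (ne d a)]
  have lu : dlab l' (u, false) = (dlab l x * dlab l y)⁻¹ := by simp [dlab, hl']
  have old : ∀ d : E × Bool, d.1 ∉ U → d ∉ A ++ x :: y :: B → f' d = f d := fun d a b =>
    e4 d (fun e => b (by simp [e])) (fun e => b (by simp [e])) (fun e => ne d a (by rw [e]))
  have new : ∀ d : E × Bool, d.1 ∉ U → d ∉ A ++ x :: y :: B →
      d.1 ∉ U.erase u ∧ d ∉ A ++ (u, true) :: B := fun d a b =>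
    ⟨fun t => a (Finset.mem_of_mem_erase t), by
      simp only [List.mem_append, List.mem_cons, not_or] at b ⊢
      exact ⟨b.1, fun e => ne d a (by rw [e]), b.2.2.2⟩⟩
  have nx : x.1 ∉ U.erase u ∧ x ∉ A ++ (u, true) :: B :=
    ⟨fun t => xu (Finset.mem_of_mem_erase t), by
      simp only [List.mem_append, List.mem_cons, not_or]
      exact ⟨fun t => n6 x t x (Or.inl rfl) rfl, fun e => ne x xu (by rw [e]), n3⟩⟩
  have ny : y.1 ∉ U.erase u ∧ y ∉ A ++ (u, true) :: B :=
    ⟨fun t => yu (Finset.mem_of_mem_erase t), by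
      simp only [List.mem_append, List.mem_cons, not_or]
      exact ⟨fun t => n6 y t y (Or.inr (Or.inl rfl)) rfl, fun e => ne y yu (by rw [e]), n4⟩⟩
  have nz : ((u, false) : E × Bool).1 ∉ U.erase u ∧ (u, false) ∉ A ++ (u, true) :: B :=
    ⟨by simp, by
      simp only [List.mem_append, List.mem_cons, not_or]
      exact ⟨fun t => h.nu (u, false) (by simp [t]) hu, by simp,
        fun t => h.nu (u, false) (by simp [t]) hu⟩⟩
  have lL : ∀ C : List (E × Bool), (∀ d ∈ C, d.1 ∉ U) → lab l' C = lab l C := fun C hC => by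
    induction C with
    | nil => simp
    | cons d C ih => rw [lab_cons, lab_cons, ll d (hC d (by simp)), ih fun e he => hC e (by simp [he])]
  refine ⟨f', ?_, ?_, fun d a b => ?_, ?_, ?_, fun H _ μ hμ => ?_, fun ε p q c r d a => ?_⟩
  · simp only [List.nodup_append, List.nodup_cons, List.mem_cons]
    refine ⟨n1, ⟨fun t => h.nu (u, true) (by simp [t]) hu, n5⟩, fun a ha b hb => ?_⟩
    rcases hb with rfl | hb
    · exact fun e => h.nu a (by simp [ha]) (e ▸ hu)
    · exact n6 a ha b (Or.inr (Or.inr hb))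
  · intro d hd t
    simp only [List.mem_append, List.mem_cons] at hd
    rcases hd with hd | rfl | hd
    · exact h.nu d (by simp [hd]) (Finset.mem_of_mem_erase t)
    · simp at t
    · exact h.nu d (by simp [hd]) (Finset.mem_of_mem_erase t)
  · have r1 : dlab l x * dlab l y * (dlab l x * dlab l y)⁻¹ = 1 := mul_inv_cancel _
    have r2 : dlab l y * (dlab l x * dlab l y)⁻¹ * dlab l x = 1 := by group
    have q2 := hQ _ _ _ (r1 ▸ one_mem _) hq
    by_cases c1 : d = x
    · rw [c1, e1, e2, e3, ll x xu, ll y yu, lu]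
      exact ⟨ny, rfl, Ne.symm n2, r1, hq⟩
    by_cases c2 : d = y
    · rw [c2, e2, e3, e1, ll x xu, ll y yu, lu]
      exact ⟨nz, rfl, fun e => ne y yu (by rw [← e]), r2, q2⟩
    by_cases c3 : d = (u, false)
    · rw [c3, e3, e1, e2, ll x xu, ll y yu, lu]
      exact ⟨nx, rfl, fun e => ne x xu (by rw [e]), by group, hQ _ _ _ (r2 ▸ one_mem _) q2⟩
    simp only [List.mem_append, List.mem_cons, not_or] at b
    have a' : d.1 ∉ U := fun t => by
      have : d.1 = u := by_contra fun s => a (Finset.mem_erase.2 ⟨s, t⟩)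
      obtain ⟨e, s⟩ := d
      cases this
      cases s
      exacts [c3 rfl, b.2.1 rfl]
    have b' : d ∉ A ++ x :: y :: B := by simp [b.1, b.2.2, c1, c2]
    obtain ⟨⟨t1, t2⟩, t3, t4, t5, t6⟩ := h.tri d a' b'
    obtain ⟨⟨s1, s2⟩, -⟩ := h.tri _ t1 t2
    rw [old d a' b', old _ t1 t2, old _ s1 s2, ll _ a', ll _ t1, ll _ s1]
    exact ⟨new _ t1 t2, t3, t4, t5, t6⟩
  · have := h.dfc
    rw [lab_append, lab_cons, lL A fun d hd => h.nu d (by simp [hd]),
      lL B fun d hd => h.nu d (by simp [hd])]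
    rw [lab_append, lab_cons, lab_cons, ← mul_assoc (dlab l x)] at this
    simpa only [dlab, hl', Function.update_self, mul_inv_rev, cond_true, isConj_iff] using this
  · rw [eq_top_iff, ← h.gen]
    refine Subgroup.closure_mono ?_
    rintro _ ⟨e, he, rfl⟩
    exact ⟨e, fun t => he (Finset.mem_of_mem_erase t), ll (e, true) he⟩
  · obtain ⟨φ, hφ⟩ := h.ext H μ fun d a b => by
      obtain ⟨⟨t1, t2⟩, -⟩ := h.tri d a b
      have := hμ d (new d a b).1 (new d a b).2
      rwa [old d a b, old _ t1 t2] at this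
    have hd : ∀ d : E × Bool, d.1 ∉ U → φ (dlab l d) = dlab μ d := fun ⟨e, s⟩ a => by
      cases s
      exacts [(map_inv φ _).trans (congrArg _ (hφ e a)), hφ e a]
    refine ⟨φ, fun e he => ?_⟩
    by_cases c : e = u
    · have := hμ x nx.1 nx.2
      rw [e1, e2, show dlab μ (u, false) = (μ u)⁻¹ from rfl, mul_inv_eq_one] at this
      rw [c, hl', Function.update_self, map_mul, hd x xu, hd y yu, this]
    · rw [hl', Function.update_of_ne c]
      exact hφ e fun t => he (Finset.mem_erase.2 ⟨c, t⟩)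
  · have k0 : ε (u, true) = c := r _ (by simp)
    have k1 : ε (u, false) = c := (q (u, true)).trans k0
    have k2 : ε x = c := by rw [← e3, p _ nz.1 nz.2, k1]
    have k3 : ε y = c := by rw [← e1, p _ nx.1 nx.2, k2]
    by_cases t : d.1 = u
    · obtain ⟨e, s⟩ := d
      cases t
      cases s
      exacts [k1, k0]
    refine h.con ε (fun d a b => by rw [← old d a b, p _ (new d a b).1 (new d a b).2]) q c
      (fun d hd => ?_) d fun s => a (Finset.mem_erase.2 ⟨t, s⟩)
    simp only [List.mem_append, List.mem_cons] at hd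
    rcases hd with hd | rfl | rfl | hd
    exacts [r d (by simp [hd]), k2, k3, r d (by simp [hd])]

theorem tx_end {Q : Fr g → Fr g → Prop} (hQ : ∀ a b c, a * b * c ∈ NN g → Q a (a * b) → Q b (b * c))
    {f : E × Bool → E × Bool} {x y z : E × Bool} {l : E → Fr g} (h : TxS Q f [x, y, z] ∅ l)
    (hq : Q (dlab l x) (dlab l x * dlab l y)) : ∃ n : Equiv.Perm (E × Bool), IsTri n ∧
      MarkAt n x l ∧ ∀ d, Q (dlab l d) (dlab l d * dlab l (n d)) := by
  classical
  have nd := h.nd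
  simp only [List.nodup_cons, List.mem_cons, not_or, List.not_mem_nil] at nd
  obtain ⟨⟨n1, n2, -⟩, ⟨n3, -⟩, -⟩ := nd
  obtain ⟨f', e1, e2, e3, e4⟩ := tx_cyc f n1 n2 n3
  have old : ∀ d, d ∉ [x, y, z] → f' d = f d := fun d b => by
    simp only [List.mem_cons, not_or] at b
    exact e4 d b.1 b.2.1 b.2.2.1
  have r0 : IsConj (dlab l x * dlab l y * dlab l z) (relPre g g) := by
    simpa only [mul_assoc, isConj_iff, lab_cons, lab_nil, mul_one] using h.dfc
  have r1 := mem_NN_of_conj r0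
  have r2 : dlab l y * dlab l z * dlab l x ∈ NN g := by
    have := Subgroup.Normal.conj_mem inferInstance _ r1 (dlab l x)⁻¹
    simpa [mul_assoc] using this
  have k : ∀ d, f' (f' (f' d)) = d ∧ f' d ≠ d ∧ Q (dlab l d) (dlab l d * dlab l (f' d)) := by
    intro d
    by_cases b : d ∈ [x, y, z]
    · simp only [List.mem_cons, List.not_mem_nil, or_false] at b
      rcases b with rfl | rfl | rfl <;> simp only [e1, e2, e3, true_and]
      exacts [⟨Ne.symm n1, hq⟩, ⟨Ne.symm n3, hQ _ _ _ r1 hq⟩, ⟨n2, hQ _ _ _ r2 (hQ _ _ _ r1 hq)⟩]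
    · obtain ⟨⟨t1, t2⟩, t3, t4, t5, t6⟩ := h.tri d (by simp) b
      obtain ⟨⟨s1, s2⟩, -⟩ := h.tri _ t1 t2
      rw [old d b, old _ t2, old _ s2]
      exact ⟨t3, t4, t6⟩
  let n : Equiv.Perm (E × Bool) := ⟨f', fun d => f' (f' d), fun d => (k d).1, fun d => (k d).1⟩
  have hn : ∀ d, n d = f' d := fun _ => rfl
  have ho : ∀ d, Off n x d ↔ d ∉ [x, y, z] := fun d => by simp [Off, hn, e1, e2]
  have hf : ∀ (H : Type) [Group H] (μ : E → H) (d), d ∉ [x, y, z] →
      fp n μ d = dlab μ d * dlab μ (f d) * dlab μ (f (f d)) := fun H _ μ d b => by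
    rw [fp, hn, hn, old d b, old _ (h.tri d (by simp) b).1.2]
  refine ⟨n, ⟨fun d => (k d).1, fun d => (k d).2.1⟩, ⟨fun d hd => ?_, ?_, ?_, fun H _ μ hμ => ?_,
    fun ε p q d d' => ?_⟩, fun d => (k d).2.2⟩
  · rw [hf _ l d ((ho d).1 hd)]
    exact (h.tri d (by simp) ((ho d).1 hd)).2.2.2.1
  · rw [fp, hn, hn, e1, e2]; exact r0
  · simpa using h.gen
  · obtain ⟨φ, hφ⟩ := h.ext H μ fun d _ b => by rw [← hf _ μ d b]; exact hμ d ((ho d).2 b)
    exact ⟨φ, fun e => hφ e (by simp)⟩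
  · have := h.con ε (fun d _ b => by rw [← old d b]; exact p d) q (ε x) fun d b => by
      simp only [List.mem_cons, List.not_mem_nil, or_false] at b
      have a1 : ε y = ε x := by rw [← e1]; exact p x
      have a2 : ε z = ε y := by rw [← e2]; exact p y
      rcases b with rfl | rfl | rfl
      exacts [rfl, a1, a2.trans a1]
    rw [this d (by simp), this d' (by simp)]

theorem tx_main {Q : Fr g → Fr g → Prop}
    (hQ : ∀ a b c, a * b * c ∈ NN g → Q a (a * b) → Q b (b * c)) {S : List (Fr g)} (hS : Ear Q S) :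
    ∀ (f : E × Bool → E × Bool) (L : List (E × Bool)) (U : Finset E) (l : E → Fr g),
      TxS Q f L U l → L.map (dlab l) = S → U.card + 3 = L.length →
      ∃ (n : Equiv.Perm (E × Bool)) (l' : E → Fr g), IsTri n ∧ Mark n l' ∧
        (∀ d, Q (dlab l' d) (dlab l' d * dlab l' (n d))) ∧ ∀ e, e ∉ U → l' e = l e := by
  classical
  induction hS with
  | base a b c hq =>
    intro f L U l h e hc
    simp only [List.map_eq_cons_iff, List.map_eq_nil_iff] at e
    obtain ⟨x, _, rfl, rfl, y, _, rfl, rfl, z, _, rfl, rfl, rfl⟩ := e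
    obtain rfl : U = ∅ := Finset.card_eq_zero.1 (by simpa using hc)
    obtain ⟨n, a, b, c⟩ := tx_end hQ h hq
    exact ⟨n, l, a, b.mark, c, fun _ _ => rfl⟩
  | step A B a b hE hq ih =>
    intro f L U l h e hc
    simp only [List.map_eq_append_iff, List.map_eq_cons_iff] at e
    obtain ⟨A, _, rfl, rfl, x, _, rfl, rfl, y, B, rfl, rfl, rfl⟩ := e
    have h3 : ∀ S : List (Fr g), Ear Q S → 3 ≤ S.length := fun S hS => by
      induction hS with
      | base => simp
      | step _ _ _ _ _ _ ih => simp only [List.length_append, List.length_cons] at ih ⊢; omega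
    have := h3 _ hE
    obtain ⟨u, hu⟩ : U.Nonempty := Finset.card_pos.1 (by simp only [List.length_append, List.length_map, List.length_cons] at this hc; omega)
    obtain ⟨f', hf⟩ := tx_step hQ h hq hu
    have ll : ∀ d ∈ A ++ x :: y :: B, dlab (Function.update l u (dlab l x * dlab l y)) d =
        dlab l d := fun d a => by
      have : d.1 ≠ u := fun e => h.nu d a (e ▸ hu)
      rw [dlab, Function.update_of_ne this]; rfl
    obtain ⟨n, l', p, q, r, s⟩ := ih f' _ _ _ hf (by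
      rw [List.map_append, List.map_cons, List.map_congr_left fun d a => ll d (by simp [a]),
        List.map_congr_left (l := B) fun d a => ll d (by simp [a])]
      simp [dlab]) (by
      rw [Finset.card_erase_of_mem hu]
      have := Finset.card_pos.2 ⟨u, hu⟩
      simp only [List.length_append, List.length_cons] at hc ⊢; omega)
    refine ⟨n, l', p, q, r, fun e he => ?_⟩
    have : e ≠ u := fun t => he (t ▸ hu)
    rw [s e fun t => he (Finset.mem_of_mem_erase t), Function.update_of_ne this]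

theorem exists_mark [Fintype E] (hg : 1 ≤ g) (hE : Fintype.card E + 3 = 6 * g) {w : List (Dt g)}
    (hw : Full w) (α : Fr g ≃* Fr g) (hα : IsConj (α (FreeGroup.mk w)) (relPre g g))
    (Q : Fr g → Fr g → Fr g → Prop) (hi : ∀ c x y z, Q x y z → Q (c * x) (c * y) (c * z))
    (hr : ∀ x y z, Q x y z → Q y z x) (hc : ∀ x y z z', Cg z z' → Q x y z → Q x y z')
    (hQ : PQ (fun i k j => Q (α (FreeGroup.mk (w.take i))) (α (FreeGroup.mk (w.take k)))
      (α (FreeGroup.mk (w.take j)))) 0 (4 * g - 1)) :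
    ∃ (n : Equiv.Perm (E × Bool)) (l : E → Fr g), IsTri n ∧ Mark n l ∧
      (∀ d, Q 1 (dlab l d) (dlab l d * dlab l (n d))) ∧ ∀ x, ∃ e, l e = α (FreeGroup.of x) := by
  classical
  have cG : Fintype.card (Gen g) = 2 * g := by simp only [Fintype.card_prod, Fintype.card_fin, Fintype.card_bool, mul_comm]
  obtain ⟨ι⟩ : Nonempty (Gen g ↪ E) := Function.Embedding.nonempty_of_card_le (by omega)
  let l : E → Fr g := Function.extend ι (fun x => α (FreeGroup.of x)) 1
  have hl : ∀ x, l (ι x) = α (FreeGroup.of x) := fun x => ι.injective.extend_apply _ _ x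
  let F : Dt g → E × Bool := fun d => (ι d.1, d.2)
  have hF : ∀ d, dlab l (F d) = α (FreeGroup.mk [d]) := fun ⟨x, b⟩ => by
    cases b
    · rw [ch_false, map_inv, ← hl]; rfl
    · exact hl x
  let U : Finset E := Finset.univ \ Finset.univ.map ι
  have hU : ∀ e, e ∉ U ↔ ∃ x, ι x = e := fun e => by
    simp only [U, Finset.mem_sdiff, Finset.mem_univ, true_and, not_not, Finset.mem_map]
  have hm : ∀ d : E × Bool, d.1 ∉ U → d ∈ w.map F := fun ⟨e, b⟩ a => by
    obtain ⟨x, rfl⟩ := (hU e).1 a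
    exact List.mem_map.2 ⟨(x, b), hw.2 _, rfl⟩
  have hL : ∀ C : List (Dt g), lab l (C.map F) = α (FreeGroup.mk C) := fun C => by
    induction C with
    | nil => simp [mk_nil]
    | cons d C ih => rw [List.map_cons, lab_cons, ih, hF, mk_cons d C, map_mul]
  let v : ℕ → Fr g := fun k => α (FreeGroup.mk (w.take k))
  have hlen := hw.length
  have hS : (w.map F).map (dlab l) = (List.range' 0 (4 * g)).map fun k => (v k)⁻¹ * v (k + 1) := by
    refine List.ext_getElem (by simp [hlen]) fun k a b => ?_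
    have hk : k < w.length := by simpa using a
    simp only [List.getElem_map, List.getElem_range', hF, v, zero_add, one_mul]
    rw [List.take_succ_eq_append_getElem hk, mk_append, map_mul, inv_mul_cancel_left]
  have hP : PQ (fun i k j => Q 1 ((v i)⁻¹ * v k) ((v i)⁻¹ * v j)) 0 (4 * g - 1) :=
    hQ.mono le_rfl fun i k j _ _ _ h => by
      have := hi (v i)⁻¹ _ _ _ h
      rwa [show (v i)⁻¹ * α (FreeGroup.mk (w.take i)) = 1 from inv_mul_cancel _] at this
  have hE' : Ear (Q 1) ((List.range' 0 (4 * g)).map fun k => (v k)⁻¹ * v (k + 1)) := by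
    obtain ⟨m, hm⟩ : ∃ m, 4 * g = m + 2 + 1 := ⟨4 * g - 3, by omega⟩
    rw [hm] at hP ⊢
    cases hP with
    | @node _ k _ a b c =>
      have e : (v 0)⁻¹ * v (m + 2) = (v 0)⁻¹ * v k * ((v k)⁻¹ * v (m + 2)) := by group
      have h1 := tx_ear v b [(v 0)⁻¹ * v k] [(v (m + 2))⁻¹ * v (m + 2 + 1)]
        (Ear.base _ _ _ (e ▸ c))
      have h2 := tx_ear v a [] _ h1
      have := b.lt
      rw [List.range'_1_concat, show m + 2 = k - 0 + (m + 2 - k) by omega, ← List.range'_append_1,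
        show k - 0 + (m + 2 - k) = m + 2 by omega]
      simpa only [tsub_zero, zero_add, List.append_assoc, List.map_append, List.map_cons, List.map_nil, List.nil_append, add_tsub_cancel_right, List.append_eq] using h2
  obtain ⟨n, l', p, q, r, s⟩ := tx_main (Q := Q 1) (fun a b c h1 h2 => by
      have := hi a⁻¹ _ _ _ (hr _ _ _ h2)
      rw [inv_mul_cancel, inv_mul_cancel_left, mul_one] at this
      refine hc _ _ _ _ ?_ this
      rw [Cg, inv_inv, ← mul_assoc]; exact h1) hE' id (w.map F) U l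
    ⟨hw.1.map fun a b e => Prod.ext (ι.injective (congrArg Prod.fst e))
        (congrArg Prod.snd e : (F a).2 = (F b).2),
      fun d hd => by
        obtain ⟨x, -, rfl⟩ := List.mem_map.1 hd
        exact (hU _).2 ⟨_, rfl⟩,
      fun d a b => absurd (hm d a) b, by rw [hL]; exact hα, by
        have e : l '' {e | e ∉ U} = α.toMonoidHom '' Set.range FreeGroup.of := by
          ext y
          constructor
          · rintro ⟨e, he, rfl⟩
            obtain ⟨x, rfl⟩ := (hU e).1 he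
            exact ⟨_, ⟨x, rfl⟩, (hl x).symm⟩
          · rintro ⟨_, ⟨x, rfl⟩, rfl⟩
            exact ⟨ι x, (hU _).2 ⟨x, rfl⟩, hl x⟩
        rw [e, ← MonoidHom.map_closure, FreeGroup.closure_range_of]
        exact Subgroup.map_top_of_surjective _ α.surjective,
      fun H _ μ _ => ⟨(FreeGroup.lift fun x => μ (ι x)).comp α.symm.toMonoidHom, fun e he => by
        obtain ⟨x, rfl⟩ := (hU e).1 he
        simp [hl]⟩,
      fun ε _ _ c r d a => r d (hm d a)⟩ hS (by
      rw [List.length_map, hlen, Finset.card_sdiff_of_subset (Finset.subset_univ _), Finset.card_map,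
        Finset.card_univ, Finset.card_univ]
      omega)
  exact ⟨n, l', p, q, r, fun x => ⟨ι x, (s _ ((hU _).2 ⟨x, rfl⟩)).trans (hl x)⟩⟩

end Pool.Agent.MP_596265_gt.U

end

section

/-! Block T: the sum of a cocycle over the faces, and the area. -/

namespace Pool.Agent.MP_596265_gt.U

open Erg Real UpperHalfPlane

variable {g : ℕ} {E : Type} {n : Equiv.Perm (E × Bool)} {l : E → Fr g}

section
variable {A : Type} [AddCommGroup A] {f : Fr g → Fr g → A}

/-- The sum along a word read from the frame `u`. -/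
def tc_s (f : Fr g → Fr g → A) : Fr g → List (Dt g) → A
  | _, [] => 0
  | u, d :: w => f u (u * FreeGroup.mk [d]) + tc_s f (u * FreeGroup.mk [d]) w

theorem tc_append (u : Fr g) (U V : List (Dt g)) :
    tc_s f u (U ++ V) = tc_s f u U + tc_s f (u * FreeGroup.mk U) V := by
  induction U generalizing u with
  | nil => simp [tc_s, mk_nil]
  | cons d U ih => rw [List.cons_append, tc_s, tc_s, ih, mk_cons d U, mul_assoc, add_assoc]

theorem tc_range (u : Fr g) (w : List (Dt g)) : tc_s f u w = ∑ k ∈ Finset.range w.length,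
    f (u * FreeGroup.mk (w.take k)) (u * FreeGroup.mk (w.take (k + 1))) := by
  induction w generalizing u with
  | nil => rfl
  | cons d w ih =>
    rw [tc_s, ih, List.length_cons, Finset.sum_range_succ', add_comm]
    simp only [List.take_succ_cons, List.take_zero, mk_nil, mul_one]
    congr 1
    refine Finset.sum_congr rfl fun k _ => ?_
    rw [mk_cons d (w.take k), mk_cons d (w.take (k + 1)), mul_assoc, mul_assoc]

theorem tc_frame (h0 : ∀ x, f x x = 0) (ha : ∀ x y, f y x = -f x y)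
    (hi : ∀ c x y z, f (c * x) (c * y) + f (c * y) (c * z) + f (c * z) (c * x) =
      f x y + f y z + f z x) (c u : Fr g) (w : List (Dt g)) :
    tc_s f (c * u) w + f (c * u * FreeGroup.mk w) (c * u) =
      tc_s f u w + f (u * FreeGroup.mk w) u := by
  induction w generalizing u with
  | nil => simp only [tc_s, mk_nil, mul_one, h0]
  | cons d w ih =>
    have a := ih (u * FreeGroup.mk [d])
    have b := hi c u (u * FreeGroup.mk [d]) (u * FreeGroup.mk [d] * FreeGroup.mk w)
    have p := ha (c * (u * FreeGroup.mk [d])) (c * (u * FreeGroup.mk [d] * FreeGroup.mk w))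
    have q := ha (u * FreeGroup.mk [d]) (u * FreeGroup.mk [d] * FreeGroup.mk w)
    simp only [tc_s, mk_cons d w, mul_assoc] at a b p q ⊢
    rw [p, q] at a
    linear_combination (norm := abel1) a + b

theorem tc_ex (h0 : ∀ x, f x x = 0) (ha : ∀ x y, f y x = -f x y)
    (hi : ∀ c x y z, f (c * x) (c * y) + f (c * y) (c * z) + f (c * z) (c * x) =
      f x y + f y z + f z x) : ∃ c : Fr g → A,
      (∀ w, c (FreeGroup.mk w) = tc_s f 1 w + f (FreeGroup.mk w) 1) ∧
      ∀ x y, c (x * y) = c x + c y + (f 1 x + f x (x * y) + f (x * y) 1) := by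
  have key : ∀ U V : List (Dt g), FreeGroup.Red.Step U V →
      tc_s f 1 U + f (FreeGroup.mk U) 1 = tc_s f 1 V + f (FreeGroup.mk V) 1 := by
    intro U V h
    rw [show FreeGroup.mk U = FreeGroup.mk V from Quot.sound h]
    cases h
    rename_i P Q x b
    have e : (FreeGroup.mk [(x, !b)] : Fr g) = (FreeGroup.mk [(x, b)])⁻¹ := mk_rev (x, b)
    simp only [tc_append, tc_s, e, mul_inv_cancel_right]
    rw [ha (1 * FreeGroup.mk P)]
    abel
  refine ⟨Quot.lift _ key, fun w => rfl, fun x y => ?_⟩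
  obtain ⟨U, rfl⟩ : ∃ U, FreeGroup.mk U = x := ⟨x.toWord, FreeGroup.mk_toWord⟩
  obtain ⟨V, rfl⟩ : ∃ V, FreeGroup.mk V = y := ⟨y.toWord, FreeGroup.mk_toWord⟩
  have a := tc_frame h0 ha hi (FreeGroup.mk U) 1 V
  have b := ha 1 (FreeGroup.mk U)
  have c := ha (FreeGroup.mk U) (FreeGroup.mk U * FreeGroup.mk V)
  rw [← mk_append]
  change tc_s f 1 (U ++ V) + f (FreeGroup.mk (U ++ V)) 1 =
    tc_s f 1 U + f (FreeGroup.mk U) 1 + (tc_s f 1 V + f (FreeGroup.mk V) 1) + _
  simp only [tc_append, mk_append, mul_one, one_mul] at a ⊢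
  rw [c] at a
  rw [b]
  linear_combination (norm := abel1) a

end

/-- The sum over the faces for any primitive `c` of the cocycle on the free group. -/
theorem Mark.sum_c [Fintype E] {A : Type} [AddCommGroup A] (hn : IsTri n) (h : Mark n l)
    (f : Fr g → Fr g → A) (h0 : ∀ x, f x x = 0) (ha : ∀ x y, f y x = -f x y)
    (hc : ∀ x y y', Cg y y' → f x y = f x y') (c : Fr g → A)
    (cm : ∀ x y, c (x * y) = c x + c y + (f 1 x + f x (x * y) + f (x * y) 1)) {r : Fr g}
    (hw : IsConj r (relPre g g)) :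
    ∑ d, (f 1 (dlab l d) + f (dlab l d) (dlab l d * dlab l (n d)) + f (dlab l d * dlab l (n d)) 1) =
      3 • c r := by
  classical
  obtain ⟨d₀, m, h1, h2⟩ := h
  have hc' : ∀ x x' y y', Cg x x' → Cg y y' → f x y = f x' y' := fun x x' y y' a b => by
    rw [hc x y y' b, ha y' x, hc y' x x' a, ← ha]
  have c1 : c 1 = 0 := by
    have := cm 1 1
    simpa [h0] using this
  have ci : ∀ x, c x⁻¹ = -c x := fun x => by
    have := cm x x⁻¹
    rw [mul_inv_cancel, c1, h0, ha 1 x] at this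
    linear_combination (norm := abel1) -this
  have cN : ∀ x y, y ∈ NN g → c (x * y) = c x + c y := fun x y hy => by
    have e : Cg (x * y) x := by
      have := (Cg.refl x).mul (cg_one.2 hy)
      rwa [mul_one] at this
    rw [cm, hc x _ _ e, hc' _ x 1 1 e (Cg.refl _), h0, ha 1 x]
    abel
  have cc : ∀ u y, y ∈ NN g → c (u * y * u⁻¹) = c y := fun u y hy => by
    have e := cN u⁻¹ (u * y * u⁻¹) (Subgroup.Normal.conj_mem inferInstance _ hy u)
    have e' := cN u y hy
    have e2 := cm (u * y) u⁻¹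
    have a : Cg (u * y) u := by
      have := (Cg.refl u).mul (cg_one.2 hy)
      rwa [mul_one] at this
    have b : Cg (u * y * u⁻¹) 1 := cg_one.2 (Subgroup.Normal.conj_mem inferInstance _ hy u)
    rw [hc 1 _ _ a, hc' _ _ _ _ a b, hc' _ _ _ _ b (Cg.refl 1), h0, ha 1 u, e', ci] at e2
    rw [e2]; abel
  have cj : ∀ x y, IsConj x y → x ∈ NN g → c y = c x := fun x y a b => by
    obtain ⟨u, rfl⟩ := isConj_iff.1 a
    exact cc u x b
  have face : ∀ d, f 1 (dlab l d) + f (dlab l d) (dlab l d * dlab l (n d)) +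
      f (dlab l d * dlab l (n d)) 1 =
      c (fp n m d) - (c (dlab m d) + c (dlab m (n d)) + c (dlab m (n (n d)))) := fun d => by
    have a := cg_dlab h2 d
    have b := a.mul (cg_dlab h2 (n d))
    have e : Cg (dlab m d * dlab m (n d) * dlab m (n (n d))) 1 := cg_one.2 (h1.rel' hn d)
    rw [hc 1 _ _ a, hc' _ _ _ _ a b, hc' _ _ _ _ b (Cg.refl 1), fp, cm (_ * _), cm, hc _ _ _ e,
      hc' _ _ _ _ e (Cg.refl 1), h0, ha 1 (dlab m d * dlab m (n d))]
    abel
  have s0 : ∑ d, c (dlab m d) = 0 := by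
    rw [Fintype.sum_prod_type]
    refine Finset.sum_eq_zero fun e _ => ?_
    rw [Fintype.sum_bool]
    exact (congrArg _ (ci (m e))).trans (add_neg_cancel _)
  have s1 : ∑ d, c (dlab m (n d)) = 0 := (Equiv.sum_comp n fun d => c (dlab m d)).trans s0
  have s2 : ∑ d, c (dlab m (n (n d))) = 0 := (Equiv.sum_comp n fun d => c (dlab m (n d))).trans s1
  have st : ∀ x, c (fp n m (n x)) = c (fp n m x) := fun x => by
    rw [hn.fp_nxt]
    simpa only [inv_inv] using cc (dlab m x)⁻¹ _ (h1.rel' hn x)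
  have n1 : d₀ ≠ n d₀ := (hn.2 _).symm
  have n2 : n d₀ ≠ n (n d₀) := (hn.2 _).symm
  have n3 : d₀ ≠ n (n d₀) := fun e => hn.2 d₀ (by rw [congrArg n e, hn.1])
  have s3 : ∑ d, c (fp n m d) = 3 • c (fp n m d₀) := by
    rw [← Finset.sum_subset (Finset.subset_univ {d₀, n d₀, n (n d₀)}) fun d _ hd => by
      simp only [Finset.mem_insert, Finset.mem_singleton, not_or] at hd
      rw [h1.rel d hd, c1], Finset.sum_insert (by simp [n1, n3]), Finset.sum_pair n2, st (n d₀), st d₀]
    abel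
  simp only [face, Finset.sum_sub_distrib, Finset.sum_add_distrib, s0, s1, s2, s3, add_zero, sub_zero]
  rw [cj _ _ (hw.trans h1.dfc.symm) (mem_NN_of_conj hw)]

theorem Mark.sum [Fintype E] {A : Type} [AddCommGroup A] (hn : IsTri n) (h : Mark n l)
    (f : Fr g → Fr g → A) (h0 : ∀ x, f x x = 0) (ha : ∀ x y, f y x = -f x y)
    (hc : ∀ x y y', Cg y y' → f x y = f x y')
    (hi : ∀ c x y z, f (c * x) (c * y) + f (c * y) (c * z) + f (c * z) (c * x) =
      f x y + f y z + f z x) {w : List (Dt g)} (hw : IsConj (FreeGroup.mk w) (relPre g g)) :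
    ∑ d, (f 1 (dlab l d) + f (dlab l d) (dlab l d * dlab l (n d)) + f (dlab l d * dlab l (n d)) 1) =
      3 • ∑ k ∈ Finset.range w.length, f (FreeGroup.mk (w.take k)) (FreeGroup.mk (w.take (k + 1))) := by
  obtain ⟨c, cw, cm⟩ := tc_ex h0 ha hi
  rw [h.sum_c hn f h0 ha hc c cm hw, cw, ha 1, hc _ _ _ (cg_one.2 (mem_NN_of_conj hw)), h0,
    neg_zero, add_zero, tc_range]
  simp only [one_mul]

theorem lab_lift {H : Type} [Group H] (M : Gen g → H) (w : List (Dt g)) :
    lab M w = FreeGroup.lift M (FreeGroup.mk w) := rfl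

theorem X_rel {e : ℤ} {M : Tup g} (hM : M ∈ X g e) : PM (FreeGroup.lift M (relPre g g)) 1 := by
  rw [← pre_eq]; exact X_pm hM

theorem Mark.area [Fintype E] (hn : IsTri n) (h : Mark n l) {e : ℤ} {M : Tup g} (hM : M ∈ X g e)
    (z : ℍ) : ∑ d, tarea z (FreeGroup.lift M (dlab l d) • z)
      (FreeGroup.lift M (dlab l d * dlab l (n d)) • z) = 3 * (2 * π * e) := by
  obtain ⟨w, hw, ew⟩ := exists_full_rel (g := g)
  have hR := X_rel hM
  have := h.sum hn (fun x y => har (FreeGroup.lift M x • z) (FreeGroup.lift M y • z))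
    (fun x => by rw [har_eq]; simp) (fun x y => har_anti _ _)
    (fun x y y' a => by rw [(a.pm hR).smul_eq])
    (fun c x y v => by simp only [map_mul, mul_smul]; exact har_tri_smul _ _ _ _)
    (w := w) (by rw [ew])
  simp only [map_one, one_smul] at this
  rw [show ∑ d, tarea z (FreeGroup.lift M (dlab l d) • z)
      (FreeGroup.lift M (dlab l d * dlab l (n d)) • z) = _ from this, nsmul_eq_mul, Nat.cast_ofNat]
  congr 1
  obtain ⟨B, rfl⟩ := MulAction.exists_smul_eq G I z
  have hl : ∀ v : Fr g, FreeGroup.lift (fun x => B⁻¹ * M x * B) v = B⁻¹ * FreeGroup.lift M v * B := by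
    intro v
    have : FreeGroup.lift (fun x => B⁻¹ * M x * B) =
        (MulAut.conj B⁻¹).toMonoidHom.comp (FreeGroup.lift M) := by
      ext1 x; simp only [FreeGroup.lift_apply_of, map_inv, MulEquiv.toMonoidHom_eq_coe, MonoidHom.coe_comp, MonoidHom.coe_coe, MulAut.coe_inv, Function.comp_apply, MulAut.conj_symm_apply]
    rw [this]; simp only [map_inv, MulEquiv.toMonoidHom_eq_coe, MonoidHom.coe_comp, MonoidHom.coe_coe, MulAut.coe_inv, Function.comp_apply, MulAut.conj_symm_apply]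
  have hF : ∀ v : Fr g, FreeGroup.lift (fun x => ap ((lf B)⁻¹ * lf (M x) * lf B)) v =
      ap ((lf B)⁻¹ * FreeGroup.lift (fun x => lf (M x)) v * lf B) := by
    intro v
    have : FreeGroup.lift (fun x => ap ((lf B)⁻¹ * lf (M x) * lf B)) = ap.comp
        ((MulAut.conj (lf B)⁻¹).toMonoidHom.comp (FreeGroup.lift fun x => lf (M x))) := by
      ext1 x; simp only [map_mul, map_inv, FreeGroup.lift_apply_of, MulEquiv.toMonoidHom_eq_coe, MonoidHom.coe_comp, MonoidHom.coe_coe, MulAut.coe_inv, Function.comp_apply, MulAut.conj_symm_apply]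
    rw [this]; simp only [map_inv, MulEquiv.toMonoidHom_eq_coe, MonoidHom.coe_comp, MonoidHom.coe_coe, MulAut.coe_inv, Function.comp_apply, MulAut.conj_symm_apply, map_mul]
  have h2 : FreeGroup.lift (fun z => lf (M z)) (relPre g g) = zt e := (pre_eq _ g).symm.trans hM
  have h3 := warea_euler (M := fun x => B⁻¹ * M x * B) hw.1 hw.sp
    (fun x => ap ((lf B)⁻¹ * lf (M x) * lf B)) (fun x => by
      have := (liftP ((lf B)⁻¹ * lf (M x) * lf B)).lift
      rwa [map_mul, map_mul, map_inv, pj_lf, pj_lf] at this) e (by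
      rw [lab_lift, hF, ew, h2, mul_assoc, zt_central, inv_mul_cancel_left]; rfl)
  rw [← h3, ← warea_frame (h := B) (by
    rw [lab_lift, hl, ew]
    have := ((PM.refl B⁻¹).mul hR).mul (PM.refl B)
    rwa [mul_one, inv_mul_cancel] at this)]
  refine Finset.sum_congr rfl fun k _ => ?_
  simp only [vtx, lab_lift, hl, ← mul_assoc, mul_inv_cancel, one_mul, mul_smul]

end Pool.Agent.MP_596265_gt.U

end

section

/-! Block T: the symplectic form as a sum over faces, and the reflection. -/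

namespace Pool.Agent.MP_596265_gt.U

open Erg Real MeasureTheory

variable {g : ℕ} {E : Type} {n : Equiv.Perm (E × Bool)} {l : E → Fr g}

theorem Cg.coc {M : Tup g} {U : Gen g → Mat} (hR : PM (pre M g) 1)
    (hU : coc M U (relPre g g) = 0) {x y : Fr g} (h : Cg x y) : coc M U x = coc M U y := by
  have := coc_mul (M := M) (U := U) x (x⁻¹ * y)
  rw [mul_inv_cancel_left, (coc_normal hR hU h).1, xj_ad0, add_zero] at this
  exact this.symm

theorem Mark.omega [Fintype E] (hn : IsTri n) (h : Mark n l) {M : Tup g} {U V : Gen g → Mat}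
    (hR : PM (pre M g) 1) (hU : coc M U (relPre g g) = 0) (hV : coc M V (relPre g g) = 0) :
    ∑ d, ((coc M U (dlab l d) * ad (FreeGroup.lift M (dlab l d)) (coc M V (dlab l (n d)))).trace -
      (ad (FreeGroup.lift M (dlab l d)) (coc M U (dlab l (n d))) * coc M V (dlab l d)).trace) =
      6 * omg M U V := by
  have := h.sum_c hn (fun x y => (coc M U x * coc M V y).trace - (coc M U y * coc M V x).trace)
    (fun x => sub_self _) (fun x y => (neg_sub _ _).symm)
    (fun x y y' a => by rw [a.coc hR hU, a.coc hR hV])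
    (fun x => 2 * cup M U V x - (coc M U x * coc M V x).trace) (fun x y => by
      simp only [cup_mul, coc_mul, coc_one, add_mul, mul_add, Matrix.trace_add, tr_ad_ad, zero_mul,
        mul_zero, Matrix.trace_zero]
      ring) (IsConj.refl _)
  simp only [coc_mul, coc_one, add_mul, mul_add, Matrix.trace_add, zero_mul, mul_zero,
    Matrix.trace_zero, hU, sub_zero, nsmul_eq_mul, Nat.cast_ofNat] at this
  rw [omg, show (6 : ℝ) = 3 * 2 by norm_num, mul_assoc, ← this]
  exact Finset.sum_congr rfl fun d _ => by ring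

/-- Conjugation by the reflection in the imaginary axis. -/
def rf : G →* G where
  toFun A := ⟨!![A 0 0, -A 0 1; -A 1 0, A 1 1], by
    rw [Matrix.det_fin_two_of, neg_mul_neg]; exact basic_det A⟩
  map_one' := by apply basic_ext <;> simp only [Fin.isValue, Matrix.SpecialLinearGroup.coe_one, Matrix.one_apply_eq, ne_eq, zero_ne_one, not_false_eq_true, Matrix.one_apply_ne, neg_zero, one_ne_zero, Matrix.of_apply, Matrix.cons_val', Matrix.cons_val_zero, Matrix.cons_val_fin_one, Matrix.cons_val_one]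
  map_mul' A B := by
    apply basic_ext <;> refine Eq.trans ?_ (basic_mul _ _ _ _).symm <;> simp only [Fin.isValue, basic_mul, neg_add_rev, add_comm, Matrix.of_apply, Matrix.cons_val', Matrix.cons_val_zero, Matrix.cons_val_fin_one, Matrix.cons_val_one, mul_neg, neg_mul, neg_neg]

theorem rf00 (A : G) : rf A 0 0 = A 0 0 := rfl
theorem rf01 (A : G) : rf A 0 1 = -A 0 1 := rfl
theorem rf10 (A : G) : rf A 1 0 = -A 1 0 := rfl
theorem rf11 (A : G) : rf A 1 1 = A 1 1 := rfl
theorem rf_rf (A : G) : rf (rf A) = A := by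
  apply basic_ext <;> simp only [rf00, rf01, rf10, rf11, neg_neg]
theorem tr_rf (A : G) : tr (rf A) = tr A := rfl

def rfO : (ℝ ≃o ℝ) →* (ℝ ≃o ℝ) where
  toFun f := ⟨(Equiv.neg ℝ).trans (f.toEquiv.trans (Equiv.neg ℝ)), by simp only [Equiv.trans_apply, Equiv.neg_apply, RelIso.coe_fn_toEquiv, neg_le_neg_iff, map_le_map_iff, implies_true]⟩
  map_one' := by ext t; simp only [RelIso.coe_fn_mk, Equiv.trans_apply, Equiv.neg_apply, RelIso.coe_fn_toEquiv, RelIso.coe_one, id_eq, neg_neg]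
  map_mul' f f' := by ext t; simp only [RelIso.coe_fn_mk, Equiv.trans_apply, Equiv.neg_apply, RelIso.coe_fn_toEquiv, RelIso.coe_mul, Function.comp_apply, Equiv.coe_trans, neg_neg]

def rfT : Gt →* Gt := ((rf.prodMap rfO).comp GtS.subtype).codRestrict GtS fun y => by
  obtain ⟨h1, h2⟩ := liftP y
  refine ⟨fun x => ?_, fun x => ?_⟩
  · change -ap y (-(x + 1)) = -ap y (-x) + 1
    have := h1 (-(x + 1))
    rw [show -(x + 1) + 1 = -x by ring] at this
    linarith
  · obtain ⟨c, hc, e⟩ := h2 (-x)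
    refine ⟨c, hc, ?_⟩
    change (rf (pj y) : Mat).mulVec (vec x) = c • vec (-ap y (-x))
    have e0 := congrFun e 0
    have e1 := congrFun e 1
    simp only [lifts_mv, lifts_v0, lifts_v1, Pi.smul_apply, smul_eq_mul, mul_neg, cos_neg,
      sin_neg] at e0 e1
    apply lifts_ext <;> simp only [lifts_mv, lifts_v0, lifts_v1, Pi.smul_apply, smul_eq_mul,
      mul_neg, cos_neg, sin_neg, rf00, rf01, rf10, rf11] <;> linarith only [e0, e1]

theorem X_rf {e : ℤ} {M : Tup g} (hM : M ∈ X g e) : (fun x => rf (M x)) ∈ X g (-e) := by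
  change Rt _ g = _
  rw [Rt_eq (L := fun z => rfT (lf (M z))) fun x => Or.inl (congrArg rf (pj_lf _)), pre_map rfT,
    show pre _ g = zt e from hM]
  refine gt_ext ?_ ?_
  · change rf (rot e) = rot _
    apply basic_ext <;> simp [rf00, rf01, rf10, rf11, basic_rot00, basic_rot01, basic_rot10, basic_rot11]
  · change -ap (zt e) (-0) = _
    simp

theorem mu_rf (e : ℤ) (A : Set (Tup g)) :
    mu g (-e) A = mu g e {M | (fun x => rf (M x)) ∈ A} := by
  let Φ : Amb g → Amb g := fun m x i j => if i = j then m x i j else -m x i j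
  have hΦ : Isometry Φ := by
    refine Isometry.of_dist_eq fun m m' => ?_
    simp only [dist_pi_def, nndist_pi_def, Φ]
    congr 1
    refine Finset.sup_congr rfl fun x _ => Finset.sup_congr rfl fun i _ =>
      Finset.sup_congr rfl fun j _ => ?_
    split_ifs
    exacts [rfl, nndist_neg_neg _ _]
  have hi : ∀ M : Tup g, io (fun x => rf (M x)) = Φ (io M) := fun M => by
    funext x i j
    fin_cases i <;> fin_cases j <;> simp only [io, Fin.zero_eta, Fin.isValue, rf00, Φ, ↓ reduceIte, Fin.mk_one, rf01, zero_ne_one, rf10, one_ne_zero, rf11]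
  have hs : Function.Surjective Φ := fun m => ⟨Φ m, by
    funext x i j; simp only [Φ]; split_ifs <;> simp⟩
  rw [mu_apply, mu_apply, vol, ← hΦ.hausdorffMeasure_image (Or.inr hs) (io '' (_ ∩ X g e)),
    Set.image_image]
  congr 1
  ext m
  constructor
  · rintro ⟨M, ⟨a, b⟩, rfl⟩
    refine ⟨fun x => rf (M x), ⟨by simpa only [Set.mem_ofPred_eq, rf_rf] using a, by
      simpa using X_rf b⟩, ?_⟩
    simp only [← hi, rf_rf]
  · rintro ⟨M, ⟨a, b⟩, rfl⟩
    exact ⟨_, ⟨a, X_rf b⟩, hi M⟩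

theorem lift_rf (M : Tup g) (w : Fr g) :
    FreeGroup.lift (fun x => rf (M x)) w = rf (FreeGroup.lift M w) := by
  have : FreeGroup.lift (fun x => rf (M x)) = rf.comp (FreeGroup.lift M) := by
    ext1 x; simp
  rw [this]; rfl

theorem ell_neg {e : ℤ} (h : ∀ᵐ M ∂mu g e, HasEll M) : ∀ᵐ M ∂mu g (-e), HasEll M := by
  rw [ae_iff] at h ⊢
  rw [mu_rf]
  refine measure_mono_null (fun M hM => ?_) h
  rintro ⟨ψ, a, b⟩
  refine hM ⟨ψ, a, ?_⟩
  simpa only [ell, ha, pre_eq, lift_act, act, lift_rf, tr_rf] using b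

end Pool.Agent.MP_596265_gt.U

end

section

/-! Block T: assembly. -/

namespace Pool.Agent.MP_596265_gt.U

open Erg Real UpperHalfPlane MeasureTheory

variable {g : ℕ} {E : Type} {n : Equiv.Perm (E × Bool)} {l : E → Fr g}

theorem Trg.tri (h : Trg n) : IsTri n := ⟨h.cube, h.ne⟩

theorem Mark.trg [Finite E] (hn : IsTri n) (h : Mark n l) : Trg n := by
  refine ⟨hn.1, hn.2, fun ε hε d d' => ?_⟩
  obtain ⟨k, rfl⟩ := h.link hn d d'
  induction k with
  | zero => rfl
  | succ k ih => rw [Function.iterate_succ_apply', hε, rev_rev, ih]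

theorem isFlip_fnx [DecidableEq E] (hn : IsTri n) {d : E × Bool} (h : Fl n d) :
    IsFlip n d (fnx n d) := by
  have hd : Off n d (rev d) := ⟨rev_ne d, h.1, h.2⟩
  obtain ⟨⟨a1, a2, a3⟩, ⟨b1, b2, b3⟩, ⟨c1, c2, c3⟩, ⟨d1, d2, d3⟩, e1, e2, e3⟩ := hn.six hd
  refine ⟨hd, ?_, ?_, ?_, ?_, ?_, ?_, fun x p q => ?_⟩
  rotate_right
  · obtain ⟨p1, p2, p3⟩ := hn.off_nxt' p
    obtain ⟨q1, q2, q3⟩ := hn.off_nxt' q
    obtain ⟨-, p5, p6⟩ := p
    obtain ⟨-, q5, q6⟩ := q
    simp only [fnx, cyc, mul_inv_rev, Equiv.swap_inv, Equiv.Perm.mul_apply, Equiv.swap_apply_def,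
      if_false, *]
  all_goals simp only [fnx, cyc, mul_inv_rev, Equiv.swap_inv, Equiv.Perm.mul_apply,
    Equiv.swap_apply_def, if_true, *, Ne.symm a1, Ne.symm a2,
    Ne.symm a3, Ne.symm b1, Ne.symm b2, Ne.symm b3, Ne.symm d1,
    Ne.symm d2, Ne.symm d3, Ne.symm e1, Ne.symm e2, Ne.symm e3, if_false, hn.1]

theorem flipL_flb [DecidableEq E] {H : Type} [Group H] (n : Equiv.Perm (E × Bool)) (L : E → H)
    (d : E × Bool) : FlipL n d L (flb n L d) := by
  refine ⟨fun e he => Function.update_of_ne he _ _, ?_⟩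
  obtain ⟨e, b⟩ := d
  cases b
  · exact congrArg _ (Function.update_self _ _ _)
  · exact Function.update_self _ _ _

theorem dlab_geo (M : Tup g) (l : E → Fr g) (d : E × Bool) :
    dlab (geo M l) d = FreeGroup.lift M (dlab l d) := (map_dlab (FreeGroup.lift M) l d).symm

theorem dc_geo (M : Tup g) (u : Gen g → Mat) (l : E → Fr g) (d : E × Bool) :
    dc (geo M l) (geoT M u l) d = coc M u (dlab l d) := by
  obtain ⟨e, b⟩ := d
  cases b
  exacts [(coc_inv _).symm, rfl]

theorem Mark.gen_lab (h : Mark n l) (y : Fr g) : ∃ w, Cg y (lab l w) := by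
  classical
  obtain ⟨d₀, m, h1, h2⟩ := h
  have : y ∈ (FreeGroup.lift m).range := by
    rw [FreeGroup.range_lift_eq_closure, h1.gen]; trivial
  obtain ⟨v, rfl⟩ := this
  refine ⟨v.toWord, Cg.trans ?_ (cg_lab h2 _).symm⟩
  rw [lab, FreeGroup.mk_toWord]
  exact Cg.refl _

theorem te_near {w : List (Dt g)} {ν : ℝ} {M : Gen g → G} {i j : ℕ}
    (h : PQ (fun i k j => 0 < ν * hdet (vtx M 1 w i) (vtx M 1 w k) (vtx M 1 w j)) i j) :
    ∀ᶠ N in nhds M, PQ (fun i k j => 0 < ν * hdet (vtx N 1 w i) (vtx N 1 w k) (vtx N 1 w j)) i j := by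
  have hv : ∀ k, Continuous fun N : Gen g → G => vtx N 1 w k := fun k =>
    isProperMap_smul_I.continuous.comp (continuous_const.mul (continuous_lab _))
  have h1 : ∀ k, Continuous fun N : Gen g → G => (vtx N 1 w k).re := fun k =>
    continuous_re.comp (hv k)
  have h2 : ∀ k, Continuous fun N : Gen g → G => (vtx N 1 w k).im := fun k =>
    continuous_im.comp (hv k)
  induction h with
  | leaf i => exact Filter.Eventually.of_forall fun _ => PQ.leaf i
  | @node i k j _ _ c p q =>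
    have : Continuous fun N : Gen g → G =>
        ν * hdet (vtx N 1 w i) (vtx N 1 w k) (vtx N 1 w j) := by
      unfold hdet det3 Φ
      fun_prop
    filter_upwards [p, q, continuousAt_const.eventually_lt this.continuousAt c] with N a b c
      using PQ.node a b c

theorem exists_state (hg : 2 ≤ g) {M : Tup g} {e : ℤ} (z : ℍ) (hM : M ∈ X g e) (he : 1 ≤ e)
    (hT : TH (FreeGroup.lift M)) : ∃ τ : MS g, MT τ ∧ Ps M z τ := by
  classical
  obtain ⟨B, rfl⟩ := MulAction.exists_smul_eq G I z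
  let σ : Fr g →* G := (MulAut.conj B⁻¹).toMonoidHom.comp (FreeGroup.lift M)
  have hσ : ∀ u, σ u = B⁻¹ * FreeGroup.lift M u * B⁻¹⁻¹ := fun _ => rfl
  have hR := X_rel hM
  have hR' : PM (σ (relPre g g)) 1 := by
    have := ((PM.refl B⁻¹).mul hR).mul (PM.refl B⁻¹⁻¹)
    rwa [mul_one, mul_inv_cancel] at this
  obtain ⟨w, N₀, hm⟩ := exists_min σ
  have hW := fam_of_min hg (σ := σ) (by simpa only [TH, hσ, tr_conj] using hT) hR' N₀
  have hn := hm.1.length
  have hG := hW.geo hm
  have hS := hW.simple hm (List.ne_nil_of_length_pos (by omega))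
  rw [hn] at hG hS
  set V := vtx N₀ 1 w with hV
  obtain ⟨A, hA⟩ := exists_generic ((Finset.range (4 * g + 1)).image V)
  have hk : ∀ k ≤ 4 * g, V k ∈ (Finset.range (4 * g + 1)).image V := fun k hk =>
    Finset.mem_image_of_mem V (Finset.mem_range.2 (Nat.lt_succ_of_le hk))
  obtain ⟨ν, hν, hP⟩ := exists_PT (by omega) ((hS.smul A).simpleP fun k h =>
    hA _ (hk k h.le) _ (hk (k + 1) h) (hG.ne k h)) fun i hi j hj hij =>
    hA _ (hk i hi.le) _ (hk j hj.le) (hS.inj hi hj hij)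
  have sm : ∀ (C : G) (p q r : ℍ), 0 < ν * hdet (C • p) (C • q) (C • r) ↔ 0 < ν * hdet p q r :=
    fun C p q r => by
      obtain ⟨c, c0, c1⟩ := hdet_smul C p q r
      rw [c1, mul_left_comm, mul_pos_iff_of_pos_left c0]
  obtain ⟨N, hQ, α, hα, hN⟩ := ((te_near ((PT.pq hP).mono le_rfl fun i k j _ _ _ h =>
    (sm A _ _ _).1 h)).and_frequently (mem_closure_iff_frequently.1 hm.2.1)).exists
  obtain ⟨n, l, a, b, c, -⟩ := exists_mark (E := Ed g) (by omega) (by simp only [Fintype.card_fin]; omega) hm.1 α hα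
    (fun x y v => 0 < ν * hdet (FreeGroup.lift M x • B • I) (FreeGroup.lift M y • B • I)
      (FreeGroup.lift M v • B • I))
    (fun c x y v h => by simpa only [map_mul, mul_smul, sm] using h)
    (fun x y v h => by
      refine h.trans_eq ?_
      unfold hdet det3; ring)
    (fun x y v v' h1 h2 => by rwa [← (h1.pm hR).smul_eq])
    (hQ.mono le_rfl fun i k j _ _ _ h => by
      have : ∀ k, B • vtx N 1 w k = FreeGroup.lift M (α (FreeGroup.mk (w.take k))) • B • I :=
        fun k => by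
          rw [vtx, one_mul, lab_lift, (pm_lift_aut hN _).smul_eq, hσ, inv_inv, mul_smul, mul_smul,
            smul_inv_smul]
      simpa only [this] using (sm B _ _ _).2 h)
  simp only [map_one, one_smul] at c
  rcases hν with rfl | rfl
  · refine ⟨(n, l), ⟨b.trg a, b⟩, fun d => ?_⟩
    simpa only [fD, vQ, vR, dlab_geo, ← map_mul, one_mul] using hD_pos.2 (c d)
  · have h1 := b.area a hM (B • I)
    have h2 := Finset.sum_nonneg fun d (_ : d ∈ Finset.univ) => tarea_nonneg (Or.inr rfl) (c d)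
    rw [← Finset.mul_sum, h1] at h2
    have : (1 : ℝ) ≤ e := by exact_mod_cast he
    nlinarith only [pi_pos, h2, this]

theorem tAx (hg : 2 ≤ g) : TAx g where
  flip h hd :=
    have a := isFlip_fnx h.1.tri hd
    have b := h.2.flip h.1.tri a (flipL_flb _ _ _)
    ⟨b.trg (a.tri h.1.tri), b⟩
  iso := by
    rintro ⟨n, l⟩ ⟨n', l'⟩ h ⟨σ, a, b⟩
    have hF' : ∀ d, σ.symm (rev d) = rev (σ.symm d) := fun d =>
      σ.injective (by rw [a.rv, σ.apply_symm_apply, σ.apply_symm_apply])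
    have c := (h.2.ren (n' := n') (l' := fun e => dlab l (σ.symm (e, true))) σ a.rv
      (fun d => (a.nx d).symm) fun d => by
        rw [dlab_mk (fun x => dlab l (σ.symm x)) fun x => by rw [hF', dlab_rev],
          σ.symm_apply_apply]).congr (l' := l') fun e => by
        have := b (σ.symm (e, true))
        rwa [σ.apply_symm_apply] at this
    refine ⟨c.trg ⟨fun d => ?_, fun d => ?_⟩, c⟩ <;> obtain ⟨d, rfl⟩ := σ.surjective d
    · exact (by rw [← a.nx, ← a.nx, ← a.nx, h.1.cube] : n' (n' (n' (σ d))) = σ d)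
    · exact fun e : n' (σ d) = σ d => h.1.ne d (σ.injective ((a.nx d).trans e))
  mp h hψ := ⟨h.1, h.2.act hψ⟩
  flat h := h.2.rel h.1.tri
  simp h := h.2.simp_edge h.1.tri
  same := by
    rintro ⟨n, l⟩ ⟨n', l'⟩ h h' (rfl : n = n')
    exact h.2.same h.1.tri h'.2
  gen h := h.2.gen_lab
  bd h a b := h.2.bdry h.1.tri _ a b
  area z h hM := by
    have := h.2.area h.1.tri hM z
    simp only [vQ, vR, dlab_geo, ← map_mul]
    rw [this]; ring
  om := by
    intro τ M u v h hM hu hv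
    have := h.2.omega h.1.tri (pre_eq M g ▸ hM) hu.2 hv.2
    rw [omT, div_eq_iff (by norm_num), mul_comm (omg M u v), ← this]
    refine Finset.sum_congr rfl fun d _ => ?_
    simp only [dc2, dc_geo, dlab_geo, mul_add, add_mul, Matrix.trace_add]
    ring
  ex := exists_state hg
  refl _ := ell_neg

end Pool.Agent.MP_596265_gt.U

end

section

/-! Ergodicity from an elliptic simple curve almost everywhere, for all non-extremal components. -/

namespace Pool.Agent.MP_596265_gt.Erg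

open Real Filter Topology MeasureTheory Set

variable {g : ℕ} {e : ℤ}

theorem hp_move {y : Gt} (hy : y ∈ Hp) : (∃ t, ap y t < t) ∧ ∃ t, t < ap y t := by
  obtain ⟨D, -, hD, -⟩ := exists_dlt
  rw [xc_hp hD] at hy
  obtain ⟨⟨k, l⟩, ⟨-, hl⟩, rfl⟩ := hy
  obtain ⟨h1, h2, h3⟩ := hD l
  have hl' : (0 : ℝ) < l := hl
  have ha : exp (-(l / 2)) < exp (l / 2) := exp_lt_exp.2 (by linarith only [hl'])
  have hs : 0 < √2 / 2 := by positivity
  have h4 : ap (D l) (-(1 / 2)) = -(1 / 2) := by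
    have := ap_add_int (D l) (1 / 2) (-1)
    push_cast at this
    rw [h3] at this
    convert this using 2 <;> norm_num
  have e4 : π * (1 / 4) = π / 4 := by ring
  have key : ∀ s : ℝ, 1 / 4 ≤ s → s ≤ 1 / 2 → cos (π * s) ≤ sin (π * s) := fun s a b => by
    have p := pi_pos
    have c1 : cos (π * s) ≤ cos (π / 4) :=
      cos_le_cos_of_nonneg_of_le_pi (by positivity) (by nlinarith only [b, p]) (by nlinarith only [a, p])
    have c2 : sin (π / 4) ≤ sin (π * s) :=
      sin_le_sin_of_le_of_le_pi_div_two (by linarith only [p]) (by nlinarith only [b, p]) (by nlinarith only [a, p])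
    rw [cos_pi_div_four] at c1
    rw [sin_pi_div_four] at c2
    linarith only [c1, c2]
  have A : ap (D l) (1 / 4) < 1 / 4 := by
    by_contra c
    obtain ⟨r, hr, a, b⟩ := xi_vec (D l) (1 / 4)
    rw [h1, basic_dia00, basic_dia01, e4, cos_pi_div_four] at a
    rw [h1, basic_dia10, basic_dia11, e4, sin_pi_div_four] at b
    have := key _ (not_lt.1 c) (h3 ▸ (ap (D l)).monotone (by norm_num))
    linarith only [mul_lt_mul_of_pos_right ha hs, mul_le_mul_of_nonneg_left this hr.le, a, b]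
  have B : -(1 / 4) < ap (D l) (-(1 / 4)) := by
    by_contra c
    obtain ⟨r, hr, a, b⟩ := xi_vec (D l) (-(1 / 4))
    rw [h1, basic_dia00, basic_dia01, mul_neg, e4, cos_neg, cos_pi_div_four] at a
    rw [h1, basic_dia10, basic_dia11, mul_neg, e4, sin_neg, sin_pi_div_four] at b
    have h5 : -(1 / 2) ≤ ap (D l) (-(1 / 4)) := h4 ▸ (ap (D l)).monotone (by norm_num)
    have := key (-ap (D l) (-(1 / 4))) (by linarith only [c]) (by linarith only [h5])
    rw [mul_neg, cos_neg, sin_neg] at this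
    linarith only [mul_lt_mul_of_pos_right ha hs, mul_le_mul_of_nonneg_left this hr.le, a, b]
  refine ⟨⟨ap k (1 / 4), ?_⟩, ap k (-(1 / 4)), ?_⟩ <;>
    simp only [cj, ap_mul, xc_ap_inv]
  · exact (ap k).strictMono A
  · exact (ap k).strictMono B

theorem xh_hp1 (hg : 3 ≤ g) {e : ℤ} (he : |e| ≤ 2 * g - 3) {y : Gt} (hy : y ∈ Hp) :
    zt e * y⁻¹ ∈ Th (g - 1) := by
  obtain ⟨⟨s, hs⟩, t, ht⟩ := hp_move hy
  have h2 : |(e : ℝ)| ≤ 2 * g - 3 := by exact_mod_cast he
  have h3 : ((g - 1 : ℕ) : ℝ) = g - 1 := by rw [Nat.cast_sub (by omega), Nat.cast_one]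
  obtain ⟨h4, h5⟩ := abs_le.1 h2
  exact ⟨⟨ap y t, by rw [ap_mul, xc_ap_inv, ap_zt, h3]; linarith only [ht, h5]⟩, ap y s,
    by rw [ap_mul, xc_ap_inv, ap_zt, h3]; linarith only [hs, h4]⟩

theorem tt_conn1 (hg : 3 ≤ g) {e : ℤ} (he : |e| ≤ 2 * g - 3) :
    (TT g e).Nonempty ∧ IsPreconnected (TT g e) := by
  have key : ∀ y ∈ Hp, (Ch y⁻¹ (g - 1) y (zt e)).Nonempty ∧
      IsPreconnected (Ch y⁻¹ (g - 1) y (zt e)) := fun y hy =>
    ch_conn _ (by omega) (xh_hp1 hg he hy)
  have ext : ∀ y ∈ Hp, ∀ r ∈ Ch y⁻¹ (g - 1) y (zt e),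
      (fun j => if j = 0 then 1 else r (j - 1)) ∈ TT g e := by
    intro y hy r hr
    have e0 : r 0 = y := hr.1
    refine ⟨rfl, by simpa [e0] using hy, ?_⟩
    simpa only [one_ne_zero, ↓ reduceIte, tsub_self, e0, Nat.add_eq_zero_iff, and_false, add_tsub_cancel_right] using hr
  have him : (fun r : ℕ → Gt => r 1) '' TT g e = Hp := by
    apply Subset.antisymm
    · rintro _ ⟨p, hp, rfl⟩
      exact hp.2.1
    · intro y hy
      obtain ⟨r, hr⟩ := (key y hy).1
      exact ⟨_, ext y hy r hr, by simpa using hr.1⟩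
  refine ⟨?_, pc_fib (p := fun r : ℕ → Gt => r 1) (fun p hp => xh_open ?_) (him ▸ hp_conn)
    fun z => ?_⟩
  · have : ((fun r : ℕ → Gt => r 1) '' TT g e).Nonempty := him ▸ hp_nonempty
    exact this.of_image
  · obtain ⟨h0, -, -, h1, h2⟩ := hp
    have a := xh_ev (u := fun y => p 2 * y⁻¹) (v := fun _ => 1) (by fun_prop)
      continuous_const (a := p 1) ⟨(h2 0 (by omega)).1, (h2 0 (by omega)).2.1, (h2 0 (by omega)).2.1⟩
    have a2 : p 2 ≠ 1 := fun e => (h2 0 (by omega)).2.2 (by simp [e])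
    have b : ∀ᶠ y in 𝓝 (p 1), ∀ j ∈ Finset.range (g - 1), 0 < j →
        p (j + 1 + 1) * (p (j + 1))⁻¹ ≠ y⁻¹ := by
      rw [Finset.eventually_all]
      intro j hj
      have := (isOpen_ne_fun (f := fun _ : Gt => p (j + 1 + 1) * (p (j + 1))⁻¹)
        (g := fun y => y⁻¹) continuous_const continuous_inv).mem_nhds
        (h2 j (Finset.mem_range.1 hj)).2.2
      filter_upwards [this] with y hy _ using hy
    rw [him]
    filter_upwards [nhdsWithin_le_nhds a, nhdsWithin_le_nhds b, self_mem_nhdsWithin] with y ya yb yc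
    refine ⟨by rw [Function.update_of_ne (by omega), h0], by rwa [Function.update_self], rfl,
      fun j hj => ?_, fun j hj => ?_⟩
    · simp only
      rw [Function.update_of_ne (by omega)]
      exact h1 j hj
    · simp only [Function.update_self]
      rcases Nat.eq_zero_or_pos j with rfl | hj0
      · rw [Function.update_of_ne (by omega), zero_add, Function.update_self]
        exact ⟨ya.1, ya.2.1, fun e => a2 (by simpa using e)⟩
      · rw [Function.update_of_ne (by omega), Function.update_of_ne (by omega)]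
        exact ⟨(h2 j hj).1, (h2 j hj).2.1, yb j (Finset.mem_range.2 hj) hj0⟩
  · by_cases hz : z ∈ Hp
    · have e1 : TT g e ∩ (fun r : ℕ → Gt => r 1) ⁻¹' {z} =
          (fun (r : ℕ → Gt) j => if j = 0 then 1 else r (j - 1)) '' Ch z⁻¹ (g - 1) z (zt e) := by
        apply Subset.antisymm
        · rintro p ⟨⟨h0, -, h1⟩, h3⟩
          obtain rfl : p 1 = z := h3
          refine ⟨_, h1, funext fun j => ?_⟩
          rcases j with _ | j
          · simp [h0]
          · simp
        · rintro _ ⟨r, hr, rfl⟩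
          exact ⟨ext z hz r hr, by simpa using hr.1⟩
      rw [e1]
      refine (key z hz).2.image _ (Continuous.continuousOn (continuous_pi fun j => ?_))
      by_cases hj : j = 0
      · simp only [if_pos hj]; exact continuous_const
      · simp only [if_neg hj]; exact continuous_apply _
    · exact Set.Subsingleton.isPreconnected fun p hp => (hz (him ▸ ⟨p, hp.1, hp.2⟩)).elim

theorem uu_col1 [NeZero g] (hg : 3 ≤ g) {e : ℤ} (he : |e| ≤ 2 * g - 3) {col : Tup g → Prop}
    (hl : ∀ M ∈ UU g e, ∀ᶠ N in 𝓝[UU g e] M, (col N ↔ col M))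
    (hs : ∀ M ∈ UU g e, ∀ ε, (col (sg ε M) ↔ col M))
    (hm : ∀ M ∈ UU g e, ∀ j q, HM (ha M j, hb M j) q → setH M j q.1 q.2 ∈ UU g e →
      (col (setH M j q.1 q.2) ↔ col M)) :
    ∀ M ∈ UU g e, ∀ N ∈ UU g e, (col M ↔ col N) := by
  have key : ∀ k, k ≤ g → ∀ M ∈ UU g e, ∀ N ∈ UU g e,
      (∀ j, cmt (ha M j) (hb M j) = cmt (ha N j) (hb N j)) →
      (∀ z : Gen g, k ≤ z.1 → M z = N z) → (col M ↔ col N) := by
    intro k
    induction k with
    | zero =>
      intro _ M _ N _ _ h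
      rw [show M = N from funext fun z => h z (Nat.zero_le _)]
    | succ n ih =>
      intro hn M hM N hN hc' h
      have h0 : (⟨n, hn⟩ : Fin g) = 0 → ell (ha N ⟨n, hn⟩) := fun h' => h' ▸ hN.2.1
      refine (xl_col_set hg hl hs hm hM (hc' ⟨n, hn⟩).symm h0).symm.trans
        (ih (by omega) _ (xl_set_mem hg hM (hc' ⟨n, hn⟩).symm h0) N hN
          (fun j => (xl_cmt_set (hc' ⟨n, hn⟩).symm j).trans (hc' j)) ?_)
      rintro ⟨i, b⟩ hi
      by_cases hi' : i = ⟨n, hn⟩
      · subst hi'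
        cases b
        · exact ha_setH _ _ _ _
        · exact hb_setH _ _ _ _
      · rw [setH_ne _ _ _ hi']
        refine h _ ?_
        have : (i : ℕ) ≠ n := fun h' => hi' (Fin.ext h')
        simp only at hi ⊢
        omega
  refine col_const (p := fun (M : Tup g) (k : ℕ) => Rt M k) (fun M hM => ?_) ?_ hl
    fun M hM N hN h => key g le_rfl M hM N hN (fun j => ?_) fun z hz => absurd z.1.2 (by omega)
  · rw [uu_onto hg]; exact uu_open hg hM
  · rw [uu_onto hg]; exact (tt_conn1 hg he).2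
  · rw [xl_div, xl_div, congrFun h j, congrFun h (j + 1)]

theorem uu_nonempty1 [NeZero g] (hg : 3 ≤ g) {e : ℤ} (he : |e| ≤ 2 * g - 3) :
    (UU g e).Nonempty := by
  have h := (tt_conn1 hg he).1
  rw [← uu_onto hg] at h
  exact h.of_image

theorem uu_om1 [NeZero g] {S : Set (Tup g)} (hg : 3 ≤ g) (he : |e| ≤ 2 * g - 3) (hS : Inv e S) :
    UU g e ⊆ Om e S ∨ UU g e ⊆ Om e Sᶜ := by
  have g1 : 1 ≤ g := by omega
  have key := uu_col1 hg he (col := fun M => M ∈ Om e S) ?_ ?_ ?_
  · by_cases h : ∃ M ∈ UU g e, M ∈ Om e S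
    · obtain ⟨M, hM, h⟩ := h
      exact Or.inl fun N hN => (key M hM N hN).1 h
    · exact Or.inr fun N hN => (rank_uu hg hS hN).resolve_left fun c => h ⟨N, hN, c⟩
  · intro M hM
    rcases rank_uu hg hS hM with h | h
    · filter_upwards [mem_nhdsWithin_of_mem_nhds (om_nhds h), self_mem_nhdsWithin] with N a b
      exact iff_of_true (a b.1) h
    · filter_upwards [mem_nhdsWithin_of_mem_nhds (om_nhds h), self_mem_nhdsWithin] with N a b
      exact iff_of_false (fun c => om_disj g1 (ye_na b) c (a b.1))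
        fun c => om_disj g1 (ye_na hM) c h
  · intro M hM ε
    refine ⟨om_pull (st_sg g1 hS ε M) hM.1, fun h => om_pull (st_sg g1 hS ε _) (X_sg ε hM.1) ?_⟩
    have : sg ε (sg ε M) = M := by
      funext x
      cases hx : ε x <;> simp [sg, hx]
    rwa [this]
  · intro M hM j q hq hN
    have t := (tr_hm hg hS hq).om hM.1
    refine ⟨t.1, fun h => (rank_uu hg hS hN).resolve_right fun c => ?_⟩
    exact om_disj g1 (ye_na hM) h (t.2 c)

theorem ge_inv1 (hg : 3 ≤ g) (he : |e| ≤ 2 * g - 3) (hB : ∀ᵐ M ∂mu g e, HasEll M)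
    {S : Set (Tup g)} (hS : Inv e S) : mu g e S = 0 ∨ mu g e Sᶜ = 0 := by
  have : NeZero g := ⟨by omega⟩
  rcases uu_om1 hg he hS with h | h
  · refine Or.inr (om_ae ?_)
    filter_upwards [ge_uu hg hB hS, ae_X e] with M ⟨Γ, a, b⟩ hM using om_pull a hM (h b)
  · left
    rw [← compl_compl S]
    refine om_ae ?_
    filter_upwards [ge_uu hg hB hS.compl, ae_X e] with M ⟨Γ, a, b⟩ hM using om_pull a hM (h b)

theorem ge_ergodic1 (hg : 3 ≤ g) (he : |e| ≤ 2 * g - 3) (hB : ∀ᵐ M ∂mu g e, HasEll M)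
    (S : Set (SurfaceGroup g →* PSL)) (hS : ∀ ρ ∈ S, EulerNumber ρ e)
    (hm : NullMeasurableSet (liftSet S) (vol g))
    (hi : ∀ φ, IsPos φ → ∀ ρ ∈ S, ρ.comp φ.toMonoidHom ∈ S) :
    vol g (liftSet S) = 0 ↔ vol g (liftSet ({ρ | EulerNumber ρ e} \ S)) ≠ 0 := by
  have : NeZero g := ⟨by omega⟩
  have g1 : 1 ≤ g := by omega
  constructor
  · intro h1 h2
    obtain ⟨M, hM⟩ := uu_nonempty1 hg he
    refine mu_pos g1 hM.1 (ye_na hM) univ_mem ?_
    rw [← yf_mu hS] at h1
    rw [← yf_mu (e := e) (S := {ρ | EulerNumber ρ e} \ S) fun _ h => h.1] at h2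
    refine measure_mono_null_ae ?_ (measure_union_null h1 h2)
    filter_upwards [ae_X e] with N hN _
    obtain ⟨ρ, hρ⟩ := exists_rho hN
    by_cases h4 : ρ ∈ S
    · exact Or.inl (yf_mem.2 ⟨ρ, h4, hρ⟩)
    · exact Or.inr (yf_mem.2 ⟨ρ, ⟨(X_iff_euler hρ).1 hN, h4⟩, hρ⟩)
  intro hne
  obtain ⟨B, hB', hSB⟩ := hm
  have h0 : ∀ᵐ M ∂mu g e, M ∈ io ⁻¹' liftSet S ↔ M ∈ io ⁻¹' B := by
    rw [ae_iff, mu_apply]
    refine measure_mono_null ?_ (ae_iff.1 (eventuallyEq_set.1 hSB))
    rintro m ⟨M, hM, rfl⟩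
    exact hM.1
  have pull : ∀ Γ : Tup g → Tup g, (∀ {C : Set (Tup g)}, mu g e C = 0 → mu g e (Γ ⁻¹' C) = 0) →
      (∀ M, M ∈ io ⁻¹' liftSet S ↔ Γ M ∈ io ⁻¹' liftSet S) →
      ∀ᵐ M ∂mu g e, M ∈ io ⁻¹' B ↔ Γ M ∈ io ⁻¹' B := by
    intro Γ hq hΓ
    filter_upwards [h0, measure_eq_zero_iff_ae_notMem.1 (hq (ae_iff.1 h0))] with M a b
    rw [← a, hΓ]
    exact not_not.1 b
  have hI : Inv e (io ⁻¹' B : Set (Tup g)) :=
    ⟨io_emb.continuous.measurable hB', fun ψ hψ => pull _ (qi_act g1 hψ) fun M =>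
      ⟨yf_act hi hψ, fun h => by simpa only [act_symm] using yf_act hi hψ.symm h⟩,
      fun ε => pull _ (qi_sg g1 ε) (yf_sg ε)⟩
  rcases ge_inv1 hg he hB hI with h | h
  · rw [← yf_mu hS]
    refine measure_mono_null_ae ?_ h
    filter_upwards [h0] with M a b using a.1 b
  · refine absurd ?_ hne
    rw [← yf_mu (e := e) (S := {ρ | EulerNumber ρ e} \ S) fun _ h => h.1]
    refine measure_mono_null_ae ?_ h
    filter_upwards [h0] with M a b c
    obtain ⟨ρ, hρ, h1⟩ := yf_mem.1 b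
    obtain ⟨ρ', hρ', h2⟩ := yf_mem.1 (a.2 c)
    have : ρ = ρ' := PresentedGroup.ext fun x => (h1 x).symm.trans (h2 x)
    exact hρ.2 (this ▸ hρ')

end Pool.Agent.MP_596265_gt.Erg

end

section

/-! Final assembly. -/

namespace Pool.Agent.MP_596265_gt.U

open Erg Real UpperHalfPlane MeasureTheory Set Filter Topology

variable {g : ℕ} {e : ℤ}

theorem KL.mono {η η' R R' : ℝ} {M : Tup g} {z : ℍ} {τ : MS g} (h : KL η R M z τ) (h1 : η' ≤ η)
    (h2 : R ≤ R') : KL η' R' M z τ :=
  ⟨h.1, h.2.1, h.2.2.1, fun z' τ' hl => by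
    obtain ⟨σ, a, b, c⟩ := h.2.2.2 z' τ' hl
    exact ⟨σ, a, b, fun d => ⟨h1.trans (c d).1, (c d).2.trans h2⟩⟩⟩

theorem fin_pos (h1 : ThickP g e) (h2 : ThinP g e) : ∀ᵐ M ∂mu g e, HasEll M := by
  have : Countable (Fr g) := (show Function.Surjective (FreeGroup.mk (α := Gen g)) from
    fun x => ⟨_, FreeGroup.mk_toWord⟩).countable
  have h3 : ∀ᵐ M ∂mu g e, ∀ p : ℕ × MS g, ¬ KL (1 / ((p.1 : ℝ) + 1)) p.1 M I p.2 :=
    ae_all_iff.2 fun p => measure_eq_zero_iff_ae_notMem.1 (h1 _ _ _ _ Nat.one_div_pos_of_nat)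
  filter_upwards [h2, h3] with M a b
  by_contra c
  obtain ⟨η, hη, R, τ, h⟩ := a c
  obtain ⟨n, hn⟩ := exists_nat_one_div_lt hη
  obtain ⟨m, hm⟩ := exists_nat_ge R
  refine b (max n m, τ) (h.mono (le_trans ?_ hn.le) (hm.trans ?_))
  · exact Nat.one_div_le_one_div (le_max_left _ _)
  · exact_mod_cast le_max_right _ _

theorem fin_ell (hg : 3 ≤ g) (he : |e| ≤ 2 * g - 3) (hT : TAx g)
    (H : ∀ e : ℤ, 1 ≤ e → e ≤ 2 * g - 3 → ThickP g e ∧ ThinP g e) : ∀ᵐ M ∂mu g e, HasEll M := by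
  obtain ⟨h1, h2⟩ := abs_le.1 he
  rcases lt_trichotomy e 0 with h | rfl | h
  · have := hT.refl (-e) (fin_pos (H _ (by omega) (by omega)).1 (H _ (by omega) (by omega)).2)
    rwa [neg_neg] at this
  · filter_upwards [ae_X 0, gn_ae hg 0] with M hM hG
    by_contra c
    obtain ⟨a, F, b, d⟩ := ge_th hg hM hG c
    have := core_bound (by omega) _ F b 0 d a
    simp at this
    omega
  · exact fin_pos (H _ (by omega) h2).1 (H _ (by omega) h2).2

theorem fin_ergodic (hg : 3 ≤ g) (he : |e| ≤ 2 * g - 3) (hT : TAx g)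
    (H : ∀ e : ℤ, 1 ≤ e → e ≤ 2 * g - 3 → ThickP g e ∧ ThinP g e)
    (S : Set (SurfaceGroup g →* PSL)) (hS : ∀ ρ ∈ S, EulerNumber ρ e)
    (hm : NullMeasurableSet (liftSet S) (vol g))
    (hi : ∀ φ, IsPos φ → ∀ ρ ∈ S, ρ.comp φ.toMonoidHom ∈ S) :
    vol g (liftSet S) = 0 ↔ vol g (liftSet ({ρ | EulerNumber ρ e} \ S)) ≠ 0 :=
  ge_ergodic1 hg he (fin_ell hg he hT H) S hS hm hi

end Pool.Agent.MP_596265_gt.U

end
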