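import Pool.Agent.MP_596265_gt.W.D0
import Pool.Agent.MP_596265_gt.W.T2
import Pool.Agent.MP_596265_gt.W.P0
import Pool.Agent.MP_596265_gt.W.C0
import Pool.Agent.MP_596265_gt.W.P1
import Pool.Agent.MP_596265_gt.W.T1
import Pool.Agent.MP_596265_gt.W.N0
import Pool.Agent.MP_596265_gt.W.N2

attribute [-instance] NonUnitalRingHomClass.toMulHomClass RKHS.instFunLike SMulZeroClass.toSMul
  MonTypeEquivalenceMon.monMonoid NonUnitalAlgSemiHomClass.toMulHomClass AddQuantale.instAddLeftMono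
  CommGroup.toDivisionCommMonoid littleWedderburn GradedMonoid.GradeZero.smul CommSemiring.toSemiring
  TotallySeparatedSpace.t2Space SemigroupWithZero.toSemigroup MonoidWithZero.toMulZeroOneClass
  NumberField.to_charZero NonAssocSemiring.toMulZeroOneClass Fintype.decidableExistsFintype
  NormedRing.toRing AddQuantale.instAddRightMono IdemSemiring.toCanonicallyOrderedAdd
  TestFunctionClass.toDFunLike ContDiffMapSupportedInClass.toDFunLike IdemSemiring.toSemiring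
  NormedField.toField GroupWithZero.toDivisionMonoid Group.IsPerfect.subsingleton_of_isMulCommutative
  Valued.toUniformSpace SeminormedRing.toRing GroupWithZero.toDivInvMonoid
  NonUnitalNonAssocSemiring.toAddCommMonoid LieAdmissibleAlgebra.toModule

section

/-! THIN, static part: definitions. -/

namespace Pool.Agent.MP_596265_gt.U

open Erg UpperHalfPlane

variable {g : ℕ} {E : Type}

/-- A generic representation without elliptic simple curve. -/
structure Gd (σ : Fr g →* G) : Prop where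
  rel : PM (σ (relPre g g)) 1
  th : TH σ
  hyp : ∀ c, Simp c → 2 < |tr (σ c)|
  gn : ∀ X Y, Pant X Y → ¬ PM (σ X) 1 → ¬ PM (σ Y) 1 → ¬ PM (σ (X * Y)) 1 → kap (σ X) (σ Y) ≠ 2

/-- `z` lies on the axis of `A`. -/
def Ax (A : G) (z : ℍ) : Prop := tr A ^ 2 = 4 + 4 * Stp.xs z (A • z) ^ 2

/-- The darts of `w` occur in this order in the rotation at the vertex. -/
def Ord (n : Nx E) (w : List (Dr E)) : Prop := ∃ L, Lk n L ∧ w.Sublist L

/-- The edges of `x, y, a` are the sides of a face. -/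
def Fc3 (n : Nx E) (x y a : Dr E) : Prop :=
  ∃ d, ({d.1, (n d).1, (n (n d)).1} : Set E) = {x.1, y.1, a.1}

/-- The formal label of a dart. -/
def fw {I : Type} (d : Dr I) : FreeGroup I := dlab FreeGroup.of d

/-- A test pair for the loop `a` in the ribbon graph `c`. -/
def Tst {I : Type} (c : List (Dr I)) (a β γ : FreeGroup I) : Prop :=
  ∀ (g : ℕ) (l : I → Fr g), Rib c l → SimpN (FreeGroup.lift l β) ∧
    ∀ N : ℤ, SimpN (FreeGroup.lift l (a * β ^ N * γ * β ^ (-N)))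

/-- Two short edges and a third edge of bounded length are the sides of a face. -/
def CLp (g : ℕ) : Prop :=
  ∀ R : ℝ, ∃ η > 0, ∀ (M : Tup g) (z : ℍ) (τ : MS g) (x y a : Dr (Ed g)),
    Gd (FreeGroup.lift M) → MT τ → x.1 ≠ y.1 → a.1 ≠ x.1 → a.1 ≠ y.1 →
    Stp.xd (geo M τ.2) z x ≤ η → Stp.xd (geo M τ.2) z y ≤ η → Stp.xd (geo M τ.2) z a ≤ R →
    Fc3 τ.1 x y a

/-- A short edge is not linked with an edge of bounded length. -/
def ULp (g : ℕ) : Prop :=
  ∀ R : ℝ, ∃ η > 0, ∀ (M : Tup g) (z : ℍ) (l : Ed g → Fr g) (x y : Dr (Ed g)),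
    Gd (FreeGroup.lift M) → Stp.xd (geo M l) z x ≤ η → Stp.xd (geo M l) z y ≤ R →
    ¬ Rib [x, y, rev x, rev y] l

/-- No state has exactly one short edge with the base point on its axis. -/
def R1p (g : ℕ) (e : ℤ) : Prop :=
  ∀ η₀ > 0, ∃ η₁ > 0, ∀ (M : Tup g) (z : ℍ) (τ : MS g) (c : Dr (Ed g)),
    M ∈ X g e → Gd (FreeGroup.lift M) → MT τ → Ps M z τ →
    (∀ d, 0 ≤ hH z (vQ (geo M τ.2) z d) (vR τ.1 (geo M τ.2) z d)) →
    Ax (dlab (geo M τ.2) c) z → Stp.xd (geo M τ.2) z c ≤ η₁ →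
    (∀ d, d.1 ≠ c.1 → η₀ ≤ Stp.xd (geo M τ.2) z d) → False

end Pool.Agent.MP_596265_gt.U

end

section

/-! THIN, static part: generic representations. -/

namespace Pool.Agent.MP_596265_gt.U

open Erg UpperHalfPlane Filter Topology MeasureTheory

variable {g : ℕ} {I : Type} {σ : Fr g →* G}

theorem gd_ae (hg : 3 ≤ g) (e : ℤ)
    (hN : ∀ᵐ M ∂mu g e, ¬ HasEll M → ∀ X Y, Pant X Y → X ∉ NN g → Y ∉ NN g → X * Y ∉ NN g →
      kap (FreeGroup.lift M X) (FreeGroup.lift M Y) ≠ 2) :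
    ∀ᵐ M ∂mu g e, ¬ HasEll M → M ∈ X g e ∧ Gd (FreeGroup.lift M) := by
  filter_upwards [ae_X e, gn_ae hg e, hN] with M hX hG hN hE
  have hM : PM (FreeGroup.lift M (relPre g g)) 1 := by rw [← pre_eq]; exact X_pm hX
  have hT := (ge_th hg hX hG hE).1
  refine ⟨hX, hM, hT, fun c hc => (hc.tr_le hM fun ψ hψ =>
    ⟨(hT ψ hψ).1, (hT ψ hψ).2.1⟩).lt_of_ne' ?_, fun X Y h a b c => hN hE X Y h
      (fun t => a (pm_of_mem hM t)) (fun t => b (pm_of_mem hM t)) fun t => c (pm_of_mem hM t)⟩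
  have k : ∀ y, Cg c y ∨ Cg c y⁻¹ →
      |tr (FreeGroup.lift M c)| = |tr (FreeGroup.lift M y)| := fun y h =>
    h.elim (fun t => (t.pm hM).abs_tr) fun t => by rw [(t.pm hM).abs_tr, map_inv, tr_inv]
  obtain ⟨ψ, hψ, ⟨j, a⟩ | ⟨j, a, b, d⟩⟩ := hc
  · rw [k _ a]; exact (hG ψ hψ).1 j
  · rw [k _ d, ← lift_act, ← pre_eq]; exact (hG ψ hψ).2 j a b

theorem Gd.act (h : Gd σ) {ψ : Fr g ≃* Fr g} (hψ : AutR ψ) : Gd (σ.comp ψ.toMonoidHom) := by
  refine ⟨pm_of_mem h.rel (mem_NN_of_conj hψ), fun χ hχ => h.th (χ.trans ψ) (AutR.trans hχ hψ),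
    fun c hc => h.hyp _ (hc.act hψ), fun X Y p a b c => h.gn (ψ X) (ψ Y) ?_ a b (by
      rwa [← map_mul])⟩
  have e : ![ψ X, ψ Y] = fun e => ψ (![X, Y] e) := by
    funext i
    fin_cases i <;> rfl
  rw [Pant, e]
  exact Rib.act p hψ

theorem lgd_pm {k x : G} : PM (k * x * k⁻¹) 1 ↔ PM x 1 := by
  have a : ∀ {k x : G}, PM x 1 → PM (k * x * k⁻¹) 1 := fun {k x} h => by
    simpa using ((PM.refl k).mul h).mul (PM.refl k⁻¹)
  exact ⟨fun h => by simpa [mul_assoc] using a (k := k⁻¹) h, a⟩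

theorem Gd.conj (h : Gd σ) (k : G) : Gd ((MulAut.conj k).toMonoidHom.comp σ) := by
  have e : ∀ x, ((MulAut.conj k).toMonoidHom.comp σ) x = k * σ x * k⁻¹ := fun _ => rfl
  refine ⟨lgd_pm.2 h.rel, fun ψ hψ => ?_, fun c hc => ?_, fun X Y p a b c => ?_⟩
  · simpa only [e, tr_conj] using h.th ψ hψ
  · rw [e, tr_conj]; exact h.hyp c hc
  · have := h.gn X Y p (mt lgd_pm.2 a) (mt lgd_pm.2 b) (mt lgd_pm.2 c)
    rw [kap, ← tr_conj _ k] at this
    rw [e, e, kap]
    convert this using 2; group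

theorem Gd.two (h : Gd σ) {c : Fr g} (hc : SimpN c) : 2 ≤ |tr (σ c)| :=
  hc.elim (fun t => (h.hyp c t).le) fun t => by
    rw [(pm_of_mem h.rel t).abs_tr, tr_one, abs_two]

theorem Gd.ne (h : Gd σ) {c : Fr g} (hc : Simp c) : ¬ PM (σ c) 1 := fun t => by
  have := h.hyp c hc
  rw [t.abs_tr, tr_one, abs_two] at this
  exact lt_irrefl _ this

theorem Gd.tor (hg : 2 ≤ g) (h : Gd σ) {a b : Dr I} {l : I → Fr g}
    (hr : Rib [a, b, rev a, rev b] l) : Tor (σ (dlab l a)) (σ (dlab l b)) := by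
  obtain ⟨ψ, k, hψ, hk, h1, h2 | h2⟩ := hr.handle
  · exact (mb_tor hg h.th k hk ψ hψ).pm (h1.pm h.rel) (h2.pm h.rel)
  · exact (mb_tor hg h.th k hk ψ hψ).inv_right.pm (h1.pm h.rel) (map_inv σ _ ▸ h2.pm h.rel)

theorem lgd_kap (x y : G) : kap x⁻¹ y = kap x y := by
  rw [kap, kap, ← tr_inv (x * y * x⁻¹ * y⁻¹), ← tr_conj _ x]
  congr 1; group

theorem Gd.four (h : Gd σ) {X Y Z : Fr g} (h4 : Four X Y Z) (hX : ¬ PM (σ X) 1)
    (hY : ¬ PM (σ Y) 1) (hT : ¬ PM (σ (X * Y)) 1) (hZ : ¬ PM (σ Z) 1)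
    (hD : ¬ PM (σ (X * Y * Z)) 1) :
    ThW.Four (σ Z) (σ (X * Y * Z))⁻¹ (σ X) ∧ ThW.Four (σ Z) (σ (X * Y * Z))⁻¹ (σ Y) := by
  have e : σ Z * (σ (X * Y * Z))⁻¹ = (σ X * σ Y)⁻¹ := by simp only [map_mul]; group
  have t : ∀ n : ℤ, 2 ≤ |tr (σ X * ((σ X * σ Y) ^ n * σ Z * ((σ X * σ Y) ^ n)⁻¹))| ∧
      2 ≤ |tr (σ Y * ((σ X * σ Y) ^ n * σ Z * ((σ X * σ Y) ^ n)⁻¹))| := fun n => by
    have a := h.two (h4.twist n).pant.2.2.1.simp.2.2
    have b := h.two (h4.twist n).pant.2.1.simp.2.2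
    simp only [map_mul, map_inv, map_zpow] at a b
    exact ⟨a, b⟩
  have x : 2 ≤ |tr (σ Z * (σ (X * Y * Z))⁻¹)| := by
    rw [e, tr_inv, ← map_mul]; exact h.two h4.pant.1.simp.2.2
  have kA : kap (σ Z * (σ (X * Y * Z))⁻¹) (σ Z) ≠ 2 := by
    rw [e, lgd_kap, ← map_mul]; exact h.gn _ _ h4.pant.2.2.2 hT hZ hD
  have k := h.gn _ _ h4.pant.1 hX hY hT
  have c : ∀ {u v : G} (w : G), 2 ≤ |tr u| → v = w * u * w⁻¹ → 2 ≤ |tr v| := fun w a b => by
    rwa [b, tr_conj]
  have i : ∀ {u : G}, 2 ≤ |tr u| → 2 ≤ |tr u⁻¹| := fun a => by rwa [tr_inv]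
  refine ⟨⟨x, fun n => ?_, fun n => ?_, kA, ?_⟩, x, fun n => ?_, fun n => ?_, kA, ?_⟩ <;>
    rw [e]
  · refine c ((σ X * σ Y) ^ n)⁻¹ (i (t n).2) ?_
    simp only [ThW.cn, map_mul, inv_zpow, zpow_neg, inv_inv]
    have := (Commute.self_zpow (σ X * σ Y) n).eq
    generalize (σ X * σ Y) ^ n = P at this ⊢
    calc _ = (σ Z)⁻¹ * (P * (σ X * σ Y))⁻¹ * σ X * P := by group
      _ = _ := by rw [← this]; group
  · refine c (σ Z * ((σ X * σ Y) ^ n)⁻¹) (t n).1 ?_
    simp only [ThW.cn, inv_zpow]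
    group
  · rw [lgd_kap, kap, ← tr_conj _ (σ X)⁻¹, ← tr_inv]
    convert k using 1
    rw [kap]; congr 1; group
  · refine c ((σ X * σ Y) ^ (n + 1))⁻¹ (i (t (n + 1)).1) ?_
    simp only [ThW.cn, map_mul, inv_zpow, zpow_neg, inv_inv, zpow_add_one]
    have := (Commute.self_zpow (σ X * σ Y) n).eq
    generalize (σ X * σ Y) ^ n = P at this ⊢
    calc _ = (σ Z)⁻¹ * (P * (σ X * σ Y))⁻¹ * (σ X)⁻¹ * (σ X * σ Y * P) := by group
      _ = _ := by rw [this]; group
  · refine c (σ Z * ((σ X * σ Y) ^ n)⁻¹) (t n).2 ?_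
    simp only [ThW.cn, inv_zpow]
    group
  · rw [lgd_kap]
    convert k using 1
    rw [kap, kap]; congr 1; group

theorem four_pm {A B C A' B' C' : G} (h : ThW.Four A B C) (hA : PM A' A) (hB : PM B' B)
    (hC : PM C' C) : ThW.Four A' B' C' := by
  have z : ∀ n : ℤ, PM ((A' * B') ^ n) ((A * B) ^ n) := fun n => by
    induction n using Int.induction_on with
    | zero => simpa using PM.refl 1
    | succ n ih => rw [zpow_add_one, zpow_add_one]; exact ih.mul (hA.mul hB)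
    | pred n ih => rw [zpow_sub_one, zpow_sub_one]; exact ih.mul (hA.mul hB).inv
  have c : ∀ n, PM (ThW.cn (A' * B') C' n) (ThW.cn (A * B) C n) := fun n =>
    ((z n).mul hC).mul (z (-n))
  exact ⟨(hA.mul hB).abs_tr ▸ h.x, fun n => (hB.mul (c n)).abs_tr ▸ h.f n,
    fun n => (hA.mul (c n)).abs_tr ▸ h.g n, aa_kap_pm (hA.mul hB) hA ▸ h.kA,
    aa_kap_pm (hA.mul hB) hC ▸ h.kC⟩

end Pool.Agent.MP_596265_gt.U

end

section

namespace Pool.Agent.MP_596265_gt.U

open Erg UpperHalfPlane Filter Topology MeasureTheory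

variable {g : ℕ}

/-- Normalisation of a family of states: one marking, base point `I`. -/
theorem red {ι A : Type} [Finite A] (hT : TAx g) (U : Ultrafilter ι) (M : ι → Tup g) (z : ι → ℍ)
    (τ : ι → MS g) (a : ι → A) (h : ∀ k, Gd (FreeGroup.lift (M k)) ∧ MT (τ k)) :
    ∃ (τ₀ : MS g) (a₀ : A) (s : ι → Fr g →* G) (p : ι → G) (r : ι → ι), MT τ₀ ∧
      (∀ᶠ k in U, r k = k) ∧ ∀ k, Gd (s k) ∧ a (r k) = a₀ ∧
        Bas.Tr 1 (p k) (τ (r k)).1 (geo (M (r k)) (τ (r k)).2) (z (r k)) τ₀.1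
          (fun x => s k (τ₀.2 x)) UpperHalfPlane.I := by
  classical
  obtain ⟨c, hc⟩ := Ultrafilter.eq_pure_of_finite (U.map fun k => ((τ k).1, a k))
  have h1 : ∀ᶠ k in U, ((τ k).1, a k) = c := by
    have : {c} ∈ U.map fun k => ((τ k).1, a k) := by rw [hc]; exact Set.mem_singleton c
    exact this
  obtain ⟨k₀, rfl⟩ := h1.exists
  have key : ∀ k, ((τ k).1, a k) = ((τ k₀).1, a k₀) → ∃ (s : Fr g →* G) (p : G), Gd s ∧
      Bas.Tr 1 p (τ k).1 (geo (M k) (τ k).2) (z k) (τ k₀).1 (fun x => s ((τ k₀).2 x))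
        UpperHalfPlane.I := fun k hk => by
    have e : (τ k₀).1 = (τ k).1 := (congrArg Prod.fst hk).symm
    obtain ⟨ψ, hψ, h2⟩ := hT.same (h k₀).2 (h k).2 e
    obtain ⟨p, hp⟩ := MulAction.exists_smul_eq G (z k) UpperHalfPlane.I
    refine ⟨_, p, ((h k).1.act hψ).conj p, e ▸ Bas.rlb_one _, hp.symm, fun d => ?_⟩
    have h3 := (cg_dlab h2 d).pm (h k).1.rel
    rw [← map_dlab ψ] at h3
    rw [← map_dlab, Bas.dlab_geo]
    exact ((PM.refl p).mul h3).mul (PM.refl p⁻¹)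
  let r : ι → ι := fun k => if ((τ k).1, a k) = ((τ k₀).1, a k₀) then k else k₀
  have hr : ∀ k, ((τ (r k)).1, a (r k)) = ((τ k₀).1, a k₀) := fun k => by
    by_cases e : ((τ k).1, a k) = ((τ k₀).1, a k₀)
    · rwa [show r k = k from if_pos e]
    · rw [show r k = k₀ from if_neg e]
  choose s p hs using fun k => key (r k) (hr k)
  exact ⟨τ k₀, a k₀, s, p, r, (h k₀).2, h1.mono fun k e => if_pos e,
    fun k => ⟨(hs k).1, congrArg Prod.snd (hr k), (hs k).2⟩⟩

/-- What a normalisation keeps. -/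
theorem red_keep {E : Type} {n n' : Nx E} {L L' : E → G} {z z' : ℍ} {k : G}
    (h : Bas.Tr 1 k n L z n' L' z') (d : Dr E) :
    n' = n ∧ Stp.xd L' z' d = Stp.xd L z d ∧
      hH z' (vQ L' z' d) (vR n' L' z' d) = hH z (vQ L z d) (vR n L z d) ∧
      tarea z' (vQ L' z' d) (vR n' L' z' d) = tarea z (vQ L z d) (vR n L z d) ∧
      (Ax (dlab L d) z → Ax (dlab L' d) z') := by
  have hQ : vQ L' z' d = k • vQ L z d := h.vQ_eq d
  have hR : vR n' L' z' d = k • vR n L z d := h.vR_eq d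
  have hx : Stp.xd L' z' d = Stp.xd L z d := by
    rw [Stp.xd, Stp.xd, Stp.xs, Stp.xs, hQ, h.pt, dist_smul]
  refine ⟨Equiv.ext fun x => (h.rl.nx x).symm, hx, ?_, ?_, fun a => ?_⟩
  · rw [hQ, hR, h.pt]
    simp only [hH, kS, ch, dist_smul]
  · rw [hQ, hR, h.pt]
    exact har_tri_smul k _ _ _
  · have h1 : |tr (dlab L' d)| = |tr (dlab L d)| := (h.lb d).abs_tr.trans (by rw [tr_conj])
    change _ = 4 + 4 * Stp.xd L' z' d ^ 2
    rw [hx, ← sq_abs, h1, sq_abs]
    exact a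

theorem len_xd {E : Type} (L : E → G) (d : Dr E) :
    Stp.xd L UpperHalfPlane.I d = Real.sinh (len (L d.1) / 2) := by
  rw [← len_dlab]
  rfl

end Pool.Agent.MP_596265_gt.U

end

section

/-! Chord diagrams as lists. -/

namespace Pool.Agent.MP_596265_gt.U

open List

variable {I : Type}

theorem linn_two {α : Type} {a b : α} {l : List α} (ha : a ∈ l) (hb : b ∈ l) (h : a ≠ b) :
    [a, b] <+ l ∨ [b, a] <+ l := by
  induction l with
  | nil => simp at ha
  | cons c t ih =>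
    rcases mem_cons.1 ha with rfl | ha' <;> rcases mem_cons.1 hb with rfl | hb'
    · exact absurd rfl h
    · exact Or.inl ((singleton_sublist.2 hb').cons_cons _)
    · exact Or.inr ((singleton_sublist.2 ha').cons_cons _)
    · exact (ih ha' hb').imp (·.cons _) (·.cons _)

/-- A chord diagram has two linked chords or an innermost chord. -/
theorem inn {D : List (Dr I)} (hn : D.Nodup) (hr : ∀ d ∈ D, rev d ∈ D) (h0 : D ≠ []) :
    (∃ x y, [rev x, rev y, x, y].Sublist D) ∨ ∃ A B x, D = A ++ rev x :: x :: B := by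
  have key : ∀ (k : ℕ) (A K B : List (Dr I)) (x : Dr I), K.length < k →
      D = A ++ rev x :: (K ++ x :: B) →
      (∃ x y, [rev x, rev y, x, y].Sublist D) ∨ ∃ A B x, D = A ++ rev x :: x :: B := by
    intro k
    induction k with
    | zero => intro _ _ _ _ h; omega
    | succ k ih =>
      intro A K B x hk e
      rcases K with _ | ⟨y, K⟩
      · exact Or.inr ⟨A, B, x, e⟩
      have hy := hr y (by simp [e])
      have hn' := (e ▸ hn : (A ++ rev x :: (y :: K ++ x :: B)).Nodup).of_append_right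
      rw [e] at hy
      simp only [mem_append, mem_cons, cons_append] at hy
      simp only [cons_append, nodup_cons, mem_cons, mem_append, not_or] at hn'
      rcases hy with hy | hy | hy | hy | hy | hy
      · refine Or.inl ⟨y, x, e ▸ ?_⟩
        exact (singleton_sublist.2 hy).append
          (((singleton_sublist.2 (by simp)).cons_cons y).cons_cons (rev x))
      · exact absurd (by rw [← rev_rev y, hy, rev_rev]) hn'.2.1.2.1
      · exact absurd hy (rev_ne y)
      · obtain ⟨K₁, K₂, rfl⟩ := append_of_mem hy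
        exact ih (A ++ [rev x]) K₁ (K₂ ++ x :: B) (rev y) (by simp at hk; omega) (by simp [e])
      · exact absurd (by rw [← hy, rev_rev]) hn'.1.1
      · refine Or.inl ⟨x, rev y, e ▸ ?_⟩
        rw [rev_rev]
        exact (((((singleton_sublist.2 hy).cons_cons x).trans (sublist_append_right K _)).cons_cons
          y).cons_cons (rev x)).trans (sublist_append_right A _)
  obtain ⟨d, T, rfl⟩ := exists_cons_of_ne_nil h0
  obtain ⟨K, B, e⟩ := append_of_mem ((mem_cons.1 (hr d mem_cons_self)).resolve_left (rev_ne d))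
  exact key _ [] K B (rev d) (Nat.lt_succ_self _) (by simp [e])

/-- A petal and another chord. -/
theorem pet {A B : List (Dr I)} {x u : Dr I} (hn : (A ++ rev x :: x :: B).Nodup)
    (hr : ∀ d ∈ A ++ rev x :: x :: B, rev d ∈ A ++ rev x :: x :: B) (hu : u ∈ A ++ rev x :: x :: B)
    (hx : u.1 ≠ x.1) : ∃ v, v.1 = u.1 ∧ ([rev x, x, rev v, v].Sublist (A ++ rev x :: x :: B) ∨
      [rev v, v, rev x, x].Sublist (A ++ rev x :: x :: B) ∨
      [rev v, rev x, x, v].Sublist (A ++ rev x :: x :: B)) := by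
  have k : ∀ w, w ∈ A ++ rev x :: x :: B → w.1 ≠ x.1 → w ∈ A ∨ w ∈ B := fun w h1 h2 => by
    simp only [mem_append, mem_cons] at h1
    rcases h1 with h | rfl | rfl | h
    exacts [Or.inl h, absurd rfl h2, absurd rfl h2, Or.inr h]
  have a : ∀ {w}, [rev w, w] <+ A → [rev w, w, rev x, x] <+ A ++ rev x :: x :: B := fun h =>
    h.append (((nil_sublist B).cons_cons x).cons_cons _)
  have b : ∀ {w}, [rev w, w] <+ B → [rev x, x, rev w, w] <+ A ++ rev x :: x :: B := fun h =>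
    ((h.cons_cons x).cons_cons _).trans (sublist_append_right A _)
  have c : ∀ {w}, rev w ∈ A → w ∈ B → [rev w, rev x, x, w] <+ A ++ rev x :: x :: B := fun h h' =>
    (singleton_sublist.2 h).append (((singleton_sublist.2 h').cons_cons x).cons_cons _)
  rcases k u hu hx with h | h <;> rcases k (rev u) (hr u hu) hx with h' | h'
  · rcases linn_two h' h (rev_ne u) with s | s
    · exact ⟨u, rfl, Or.inr (Or.inl (a s))⟩
    · exact ⟨rev u, rfl, Or.inr (Or.inl (a (by rwa [rev_rev])))⟩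
  · exact ⟨rev u, rfl, Or.inr (Or.inr (c (by rwa [rev_rev]) h'))⟩
  · exact ⟨u, rfl, Or.inr (Or.inr (c h' h))⟩
  · rcases linn_two h' h (rev_ne u) with s | s
    · exact ⟨u, rfl, Or.inl (b s)⟩
    · exact ⟨rev u, rfl, Or.inl (b (by rwa [rev_rev]))⟩

/-- Two darts that are neighbours after deleting the darts without `p`. -/
theorem run {α : Type} {F A B : List α} {p : α → Bool} {a b : α}
    (h : F.filter p = A ++ a :: b :: B) :
    ∃ F₁ Y F₂, F = F₁ ++ a :: (Y ++ b :: F₂) ∧ ∀ y ∈ Y, p y = false := by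
  obtain ⟨l₁, l₂, rfl, -, h⟩ := filter_eq_append_iff.1 h
  obtain ⟨l₃, l₄, rfl, -, -, h⟩ := filter_eq_cons_iff.1 h
  obtain ⟨Y, F₂, rfl, hY, -⟩ := filter_eq_cons_iff.1 h
  exact ⟨l₁ ++ l₃, Y, F₂, by simp, fun y hy => by simpa using hY y hy⟩

end Pool.Agent.MP_596265_gt.U

end

section

/-! THIN, static part, row PAT: patterns of darts. -/

namespace Pool.Agent.MP_596265_gt.U

open Erg UpperHalfPlane Filter Topology MeasureTheory

variable {g : ℕ} {I : Type}

private theorem lpat_ren {J : Type} (v : J → Dr I) (c : List (Dr J)) {l : I → Fr g}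
    (h : Rib (c.map fun d => cond d.2 (v d.1) (rev (v d.1))) l) (hp : ∀ d ∈ c, rev d ∈ c)
    {m : J → Fr g} (hm : ∀ j, m j = dlab l (v j)) : Rib c m := by
  refine Rib.ren _ ?_ h hp ?_
  · rintro ⟨j, _ | _⟩
    · exact (rev_rev _).symm
    · rfl
  · rintro ⟨j, _ | _⟩ -
    · show Cg (m j)⁻¹ (dlab l (rev (v j)))
      rw [dlab_rev, hm]; exact Cg.refl _
    · show Cg (m j) (dlab l (v j))
      rw [hm]; exact Cg.refl _

theorem Ord.rib {τ : MS g} (ht : MT τ) {w : List (Dr (Ed g))} (h : Ord τ.1 w)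
    (hw : ∀ d ∈ w, rev d ∈ w) : Rib w τ.2 := by
  obtain ⟨L, hL, hs⟩ := h
  exact (Rib.of_mark ⟨ht.1.cube, ht.1.ne⟩ ht.2 hL).sub hs hw

theorem Rib.pant {x y : Dr I} {l : I → Fr g} (h : Rib [rev x, x, rev y, y] l) :
    Pant (dlab l x) (dlab l y) :=
  lpat_ren ![x, y] [(0, false), (0, true), (1, false), (1, true)] h (by decide)
    fun j => by fin_cases j <;> rfl

theorem Rib.flat {x y z : Dr I} {l : I → Fr g} (h : Rib [rev x, x, rev z, z, rev y, y] l) :
    Four (dlab l x) (dlab l y) (dlab l z) :=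
  lpat_ren ![x, y, z] [(0, false), (0, true), (2, false), (2, true), (1, false), (1, true)] h
    (by decide) fun j => by fin_cases j <;> rfl

theorem Rib.nest {x y a : Dr I} {l : I → Fr g} (h : Rib [rev x, x, rev a, rev y, y, a] l) :
    Four (dlab l y) (dlab l x) (dlab l a * (dlab l y)⁻¹) := by
  have hn := h.nodup
  simp only [List.nodup_cons, List.mem_cons, List.not_mem_nil, or_false, not_or] at hn
  obtain ⟨⟨-, n1, -⟩, ⟨n2, -⟩, ⟨n3, n4, n5⟩, -⟩ := hn
  have h1 : Rib ([] ++ y :: ([a, rev x, x] ++ [rev a] ++ rev y :: [])) l :=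
    Rib.rot (A := [rev x, x, rev a, rev y]) (B := [y, a]) h
  have h2 : Rib [rev y, y, rev a, a, rev x, x] (gau [rev a] (dlab l y) l) :=
    Rib.rot (A := [y, rev a, a, rev x, x]) (B := [rev y]) h1.slide'
  have h3 := h2.flat
  simpa [dlab_gau, n1, n2, Ne.symm n3, Ne.symm n4, Ne.symm n5] using h3

section ord
variable {E : Type} {n : Nx E}

private theorem lpat_rot (A B : List (Dr E)) (h : Ord n (A ++ B)) : Ord n (B ++ A) := by
  obtain ⟨L, hL, hs⟩ := h
  obtain ⟨r₁, r₂, rfl, h1, h2⟩ := List.append_sublist_iff.1 hs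
  exact ⟨_, hL.rot, h2.append h1⟩

private theorem lpat_sub {w w' : List (Dr E)} (h : Ord n w) (hs : w'.Sublist w) : Ord n w' := by
  obtain ⟨L, hL, h⟩ := h
  exact ⟨L, hL, hs.trans h⟩

private theorem lpat_ins {c d : Dr E} {w : List (Dr E)} (h : Ord n (c :: w)) (hd : d ∉ c :: w) :
    ∃ A B, w = A ++ B ∧ Ord n (c :: (A ++ d :: B)) := by
  obtain ⟨L, hL, hs⟩ := h
  obtain ⟨L₁, L₂, rfl⟩ := List.append_of_mem (hL.2.1 d)
  obtain ⟨A, B, e, h1, h2⟩ := List.sublist_append_iff.1 hs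
  have h3 : B.Sublist L₂ := by
    rcases List.sublist_cons_iff.1 h2 with h3 | ⟨r, rfl, -⟩
    · exact h3
    · exact absurd (by rw [e]; simp) hd
  have h4 : Ord n (A ++ d :: B) := ⟨_, hL, h1.append (h3.cons_cons d)⟩
  rcases A with _ | ⟨c', A⟩
  · refine ⟨w, [], by simp, ?_⟩
    rw [List.nil_append] at e
    subst e
    exact lpat_rot [d] (c :: w) h4
  · obtain ⟨rfl, rfl⟩ := List.cons.inj e
    exact ⟨A, B, rfl, h4⟩

private theorem lpat_ins2 {c d : Dr E} {w : List (Dr E)} (h : Ord n (c :: w))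
    (hd : ∀ u ∈ c :: w, u.1 ≠ d.1) :
    ∃ A B C b, b.1 = d.1 ∧ w = A ++ (B ++ C) ∧ Ord n (c :: (A ++ rev b :: (B ++ b :: C))) := by
  obtain ⟨A, B, rfl, h1⟩ := lpat_ins h fun t => hd d t rfl
  have hr : rev d ∉ c :: (A ++ d :: B) := by
    intro t
    have := fun t => hd (rev d) t rfl
    simp only [List.mem_cons, List.mem_append, rev_ne d, false_or] at t this
    exact this t
  obtain ⟨A', B', e, h2⟩ := lpat_ins h1 hr
  rcases List.append_eq_append_iff.1 e with ⟨s, rfl, e'⟩ | ⟨s, rfl, rfl⟩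
  · rcases s with _ | ⟨d', s⟩
    · rw [List.nil_append] at e'
      subst e'
      exact ⟨A, [], B, d, rfl, rfl, by simpa using h2⟩
    · obtain ⟨rfl, rfl⟩ := List.cons.inj e'
      exact ⟨A, s, B', rev d, rfl, rfl, by simpa using h2⟩
  · exact ⟨A', s, B, d, rfl, by simp, h2⟩

private theorem lpat_s1 {α : Type} {u : α} {A B C : List α} (h : [u] = A ++ (B ++ C)) :
    (A = [u] ∧ B = [] ∧ C = []) ∨ (A = [] ∧ B = [u] ∧ C = []) ∨ (A = [] ∧ B = [] ∧ C = [u]) := by
  rcases A with _ | ⟨_, A⟩ <;> rcases B with _ | ⟨_, B⟩ <;> simp_all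

private theorem lpat_s3 {α : Type} {u v t : α} {A B C : List α} (h : [u, v, t] = A ++ (B ++ C)) :
    (A = [] ∧ B = [] ∧ C = [u, v, t]) ∨ (A = [] ∧ B = [u] ∧ C = [v, t]) ∨
    (A = [] ∧ B = [u, v] ∧ C = [t]) ∨ (A = [] ∧ B = [u, v, t] ∧ C = []) ∨
    (A = [u] ∧ B = [] ∧ C = [v, t]) ∨ (A = [u] ∧ B = [v] ∧ C = [t]) ∨
    (A = [u] ∧ B = [v, t] ∧ C = []) ∨ (A = [u, v] ∧ B = [] ∧ C = [t]) ∨
    (A = [u, v] ∧ B = [t] ∧ C = []) ∨ (A = [u, v, t] ∧ B = [] ∧ C = []) := by
  rcases A with _ | ⟨_, _ | ⟨_, _ | ⟨_, _ | ⟨_, A⟩⟩⟩⟩ <;>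
    rcases B with _ | ⟨_, _ | ⟨_, _ | ⟨_, _ | ⟨_, B⟩⟩⟩⟩ <;> simp_all

end ord

/-- Two edges are linked or not. -/
theorem pat2 {τ : MS g} (ht : MT τ) {x y : Dr (Ed g)} (h : x.1 ≠ y.1) :
    ∃ p q : Dr (Ed g), p.1 = x.1 ∧ q.1 = y.1 ∧
      (Ord τ.1 [p, q, rev p, rev q] ∨ Ord τ.1 [rev p, p, rev q, q]) := by
  obtain ⟨U, hU⟩ := Mark.lk ⟨ht.1.cube, ht.1.ne⟩ ht.2 (rev x)
  have h0 : Ord τ.1 [rev x] := ⟨_, hU, by simp⟩
  obtain ⟨A, B, e, h1⟩ := lpat_ins (d := x) h0 (by simpa using (rev_ne x).symm)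
  obtain ⟨rfl, rfl⟩ := List.append_eq_nil_iff.1 e.symm
  obtain ⟨A, B, C, b, hb, e, h2⟩ := lpat_ins2 (d := y) h1 (by simpa using h)
  rcases lpat_s1 e with ⟨rfl, rfl, rfl⟩ | ⟨rfl, rfl, rfl⟩ | ⟨rfl, rfl, rfl⟩
  · exact ⟨x, b, rfl, hb, .inr h2⟩
  · exact ⟨rev x, rev b, rfl, hb, .inl (by simpa using h2)⟩
  · exact ⟨rev x, b, rfl, hb, .inr (by simpa using lpat_rot [rev x, rev b, b] [x] h2)⟩

private theorem lpat_mem {H : Type} [Group H] {S : Set H} {μ : I → H} {d : Dr I}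
    (h : μ d.1 ∈ S) : dlab μ d ∈ Subgroup.closure S := by
  obtain ⟨e, _ | _⟩ := d
  exacts [inv_mem (Subgroup.subset_closure h), Subgroup.subset_closure h]

/-- The last alternative of `pat3`. -/
private def lpat_F (S T : Set (Fr g)) : Prop :=
  ∃ X Y Z : Fr g, Four X Y Z ∧ X ∈ Subgroup.closure S ∧ Y ∈ Subgroup.closure S ∧
    Z ∈ Subgroup.closure T ∧ Simp X ∧ Simp Y ∧ Simp (X * Y) ∧ Simp Z ∧ Simp (X * Y * Z)

section three
variable {τ : MS g} {S T : Set (Fr g)} {p q b : Dr (Ed g)}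

private theorem lpat_rib (ht : MT τ) {x y z : Dr (Ed g)} {w : List (Dr (Ed g))} (h : Ord τ.1 w)
    (hw : ∀ d, d ∈ w ↔ d ∈ [x, rev x, y, rev y, z, rev z]) : Rib w τ.2 := by
  refine h.rib ht fun d hd => ?_
  rw [hw] at hd ⊢
  simp only [List.mem_cons, List.not_mem_nil, or_false] at hd
  rcases hd with rfl | rfl | rfl | rfl | rfl | rfl <;> simp

/-- `b` beyond `p`. -/
private theorem lpat_far (ht : MT τ)
    (h2 : ∀ x y, Ord τ.1 [rev x, x, rev y, y] → Simp (dlab τ.2 x * dlab τ.2 y))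
    (hs : ∀ d, Simp (dlab τ.2 d)) (hp : τ.2 p.1 ∈ S) (hq : τ.2 q.1 ∈ S) (hb : τ.2 b.1 ∈ T)
    (h : Ord τ.1 [rev q, q, rev p, rev b, b, p]) : lpat_F S T := by
  have h4 := (lpat_rib ht (x := p) (y := q) (z := b) h fun d => by simp; tauto).nest
  have h5 := h4.cyc.1.cyc.1.cyc.2.cyc.1
  have e : dlab τ.2 p * (dlab τ.2 b)⁻¹ * dlab τ.2 b * dlab τ.2 q = dlab τ.2 p * dlab τ.2 q := by group
  rw [e] at h5
  have s1 := h2 p q (lpat_rot [rev q, q] [rev p, p] (lpat_sub h (by simp)))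
  have s2 := h2 (rev p) b (by
    simpa using lpat_rot [rev p, rev b, b] [p] (lpat_sub h (by simp)))
  refine ⟨_, _, _, h5, lpat_mem hq, inv_mem (mul_mem (lpat_mem hp) (lpat_mem hq)), lpat_mem hb,
    hs q, s1.inv, ?_, hs b, ?_⟩
  · simpa using (hs p).inv
  · simpa only [mul_inv_rev, mul_inv_cancel_left, dlab_rev] using s2

/-- `b` separates `p` from `q`. -/
private theorem lpat_sep (ht : MT τ)
    (h2 : ∀ x y, Ord τ.1 [rev x, x, rev y, y] → Simp (dlab τ.2 x * dlab τ.2 y))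
    (hs : ∀ d, Simp (dlab τ.2 d)) (hp : τ.2 p.1 ∈ S) (hq : τ.2 q.1 ∈ S) (hq' : τ.2 q.1 ∈ T)
    (hb : τ.2 b.1 ∈ T) (h : Ord τ.1 [rev p, p, rev b, rev q, q, b]) : lpat_F S T := by
  have h4 := (lpat_rib ht (x := p) (y := q) (z := b) h fun d => by simp; tauto).nest
  have s1 := h2 p q (lpat_sub h (by simp))
  have s2 := h2 p b (lpat_sub h (by simp))
  have s3 := h2 (rev b) q (by
    simpa using lpat_rot [rev b, rev q, q] [b] (lpat_sub h (by simp)))
  refine ⟨_, _, _, h4, lpat_mem hq, lpat_mem hp, mul_mem (lpat_mem hb) (inv_mem (lpat_mem hq')),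
    hs q, hs p, ?_, ?_, ?_⟩
  · convert s1.conj (dlab τ.2 q) using 1; group
  · convert s3.inv.conj (dlab τ.2 b) using 1; rw [dlab_rev]; group
  · convert s2.conj (dlab τ.2 q) using 1; group

/-- Three petals. -/
private theorem lpat_mid (ht : MT τ)
    (h2 : ∀ x y, Ord τ.1 [rev x, x, rev y, y] → Simp (dlab τ.2 x * dlab τ.2 y))
    (h3 : ∀ x y z, Ord τ.1 [rev x, x, rev z, z, rev y, y] →
      Simp (dlab τ.2 x * dlab τ.2 y * dlab τ.2 z) ∨ (τ.1 (rev x) = rev z ∧ τ.1 (rev z) = rev y))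
    (hs : ∀ d, Simp (dlab τ.2 d)) (hp : τ.2 p.1 ∈ S) (hq : τ.2 q.1 ∈ S) (hb : τ.2 b.1 ∈ T)
    (h : Ord τ.1 [rev p, p, rev b, b, rev q, q]) : Fc3 τ.1 p q b ∨ lpat_F S T := by
  rcases h3 p q b h with s | ⟨e1, e2⟩
  · exact .inr ⟨_, _, _, (lpat_rib ht (x := p) (y := q) (z := b) h fun d => by simp; tauto).flat,
      lpat_mem hp, lpat_mem hq, lpat_mem hb, hs p, hs q, h2 p q (lpat_sub h (by simp)), hs b, s⟩
  · refine .inl ⟨rev p, ?_⟩
    rw [e1, e2, rev_fst, rev_fst, rev_fst, Set.pair_comm]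

end three

/-- Three edges: a linked pair, a face, or a sphere with four essential holes cut along a word in
`x, y`. The hypotheses `h2`, `h3` are row NB. -/
theorem pat3 {τ : MS g} (ht : MT τ)
    (h2 : ∀ x y, Ord τ.1 [rev x, x, rev y, y] → Simp (dlab τ.2 x * dlab τ.2 y))
    (h3 : ∀ x y z, Ord τ.1 [rev x, x, rev z, z, rev y, y] →
      Simp (dlab τ.2 x * dlab τ.2 y * dlab τ.2 z) ∨ (τ.1 (rev x) = rev z ∧ τ.1 (rev z) = rev y))
    (hs : ∀ d, Simp (dlab τ.2 d)) {x y a : Dr (Ed g)} (hxy : x.1 ≠ y.1) (hx : a.1 ≠ x.1)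
    (hy : a.1 ≠ y.1) :
    (∃ p q : Dr (Ed g), (p.1 = x.1 ∨ p.1 = y.1) ∧ (q.1 = x.1 ∨ q.1 = y.1 ∨ q.1 = a.1) ∧
      Ord τ.1 [p, q, rev p, rev q]) ∨ Fc3 τ.1 x y a ∨
    ∃ X Y Z : Fr g, Four X Y Z ∧ X ∈ Subgroup.closure {τ.2 x.1, τ.2 y.1} ∧
      Y ∈ Subgroup.closure {τ.2 x.1, τ.2 y.1} ∧ Z ∈ Subgroup.closure {τ.2 x.1, τ.2 y.1, τ.2 a.1} ∧
      Simp X ∧ Simp Y ∧ Simp (X * Y) ∧ Simp Z ∧ Simp (X * Y * Z) := by
  obtain ⟨p, q, hp, hq, h | h⟩ := pat2 ht hxy
  · exact .inl ⟨p, q, .inl hp, .inr (.inl hq), h⟩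
  obtain ⟨A, B, C, b, hb, e, h⟩ := lpat_ins2 (d := a) h (by
    simpa only [List.mem_cons, List.not_mem_nil, or_false, ne_eq, forall_eq_or_imp, rev_fst, hp, hq, forall_eq, and_self, and_self_left] using ⟨hx.symm, hy.symm⟩)
  have mp : τ.2 p.1 ∈ ({τ.2 x.1, τ.2 y.1} : Set (Fr g)) := by simp [hp]
  have mq : τ.2 q.1 ∈ ({τ.2 x.1, τ.2 y.1} : Set (Fr g)) := by simp [hq]
  have mq' : τ.2 q.1 ∈ ({τ.2 x.1, τ.2 y.1, τ.2 a.1} : Set (Fr g)) := by simp [hq]
  have mb : τ.2 b.1 ∈ ({τ.2 x.1, τ.2 y.1, τ.2 a.1} : Set (Fr g)) := by simp [hb]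
  have lp : Ord τ.1 [rev p, rev b, p, b] → ∃ p q : Dr (Ed g), (p.1 = x.1 ∨ p.1 = y.1) ∧
      (q.1 = x.1 ∨ q.1 = y.1 ∨ q.1 = a.1) ∧ Ord τ.1 [p, q, rev p, rev q] := fun t =>
    ⟨rev p, rev b, .inl hp, .inr (.inr hb), by simpa using t⟩
  rcases lpat_s3 e with ⟨rfl, rfl, rfl⟩ | ⟨rfl, rfl, rfl⟩ | ⟨rfl, rfl, rfl⟩ | ⟨rfl, rfl, rfl⟩ |
    ⟨rfl, rfl, rfl⟩ | ⟨rfl, rfl, rfl⟩ | ⟨rfl, rfl, rfl⟩ | ⟨rfl, rfl, rfl⟩ | ⟨rfl, rfl, rfl⟩ |
    ⟨rfl, rfl, rfl⟩
  · exact .inr (.inr (lpat_far ht h2 hs mp mq mb (lpat_rot [rev p, rev b, b, p] [rev q, q] h)))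
  · exact .inl (lp (lpat_sub h (by simp)))
  · exact .inl (lp (lpat_sub h (by simp)))
  · exact .inl (lp (lpat_sub h (by simp)))
  · refine .inr ((lpat_mid ht h2 h3 hs mp mq mb h).imp_left ?_)
    rintro ⟨d, hd⟩
    exact ⟨d, by rw [hd, hp, hq, hb]⟩
  · exact .inl ⟨rev q, b, .inr hq, .inr (.inr hb), by
      simpa using lpat_rot [rev b] [rev q, b, q] (lpat_sub h (by simp))⟩
  · exact .inr (.inr (lpat_sep ht h2 hs mp mq mq' mb h))
  · exact .inr (.inr (lpat_far ht h2 hs mq mp mb h))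
  · exact .inl ⟨rev q, rev b, .inr hq, .inr (.inr hb), by
      simpa using lpat_sub (w' := [rev q, rev b, q, b]) h (by simp)⟩
  · refine .inr ((lpat_mid ht h2 h3 hs mq mp mb
      (lpat_rot [rev p, p] [rev q, q, rev b, b] h)).imp_left ?_)
    rintro ⟨d, hd⟩
    exact ⟨d, by rw [hd, hp, hq, hb, Set.insert_comm]⟩

end Pool.Agent.MP_596265_gt.U

end

section

/-! THIN, static part, row TST: test pairs. -/

namespace Pool.Agent.MP_596265_gt.U

open Erg

variable {g : ℕ} {I : Type}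

theorem ltst_fw (l : I → Fr g) (d : Dr I) : FreeGroup.lift l (fw d) = dlab l d := by
  obtain ⟨e, _ | _⟩ := d <;> simp [fw, dlab]

theorem ltst_gau (K : List (Dr I)) (u v : Fr g) (μ : I → Fr g) :
    gau K u (gau K v μ) = gau K (u * v) μ := by
  funext e
  simp only [gau]
  split_ifs <;> group

theorem ltst_keep {K : List (Dr I)} (u : Fr g) (μ : I → Fr g) {d : Dr I} (h : d ∉ K)
    (h' : rev d ∉ K) : dlab (gau K u μ) d = dlab μ d := by
  rw [dlab_gau, if_neg h, if_neg h', inv_one, one_mul, mul_one]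

theorem ltst_conj {c : Fr g} (h : SimpN c) (u : Fr g) : SimpN (u * c * u⁻¹) :=
  h.imp (fun t => t.conj u) fun t => Subgroup.Normal.conj_mem inferInstance c t u

theorem ltst_b {K P : List (Dr I)} {x a b : Dr I} {l : I → Fr g}
    (h : Rib (P ++ K ++ [rev x, a, x, b]) l) :
    Rib (K ++ b :: (P ++ [rev x, a, x])) (gau K (dlab l x) l) := by
  have h1 := Rib.rot (A := P ++ K ++ [rev x, a]) (B := [x, b]) (by simpa using h)
  have h2 := Rib.slide' (A := []) (y := x) (B := b :: P) (K := K) (C := [a]) (by simpa using h1)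
  simpa using Rib.rot (A := [x]) (B := K ++ b :: (P ++ [rev x, a])) (by simpa using h2)

theorem ltst_round {K P : List (Dr I)} {x y : Dr I} {l : I → Fr g}
    (h : Rib (P ++ K ++ [rev x, rev y, x, y]) l) :
    Rib (K ++ P ++ [rev x, rev y, x, y])
      (gau K (dlab l y * (dlab l x)⁻¹ * (dlab l y)⁻¹ * dlab l x) l) := by
  have hn := h.nodup
  have hK : ∀ d ∈ [rev x, rev y, x, y], d ∉ K := fun d hd t =>
    (List.nodup_append.1 hn).2.2 d (List.mem_append_right _ t) d hd rfl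
  have ex := fun u => ltst_keep u l (hK x (by simp)) (hK (rev x) (by simp))
  have ey := fun u => ltst_keep u l (hK y (by simp)) (hK (rev y) (by simp))
  have h1 := ltst_b h
  have h2 := Rib.slide' (A := []) (y := rev y) (B := [x]) (K := K) (C := P ++ [rev x])
    (by simpa using Rib.rot (A := K ++ y :: (P ++ [rev x])) (B := [rev y, x]) (by simpa using h1))
  rw [ltst_gau, dlab_rev, ey] at h2
  have h3 := Rib.slide' (A := []) (y := rev x) (B := [rev y]) (K := K) (C := y :: P)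
    (by simpa using Rib.rot (A := rev y :: (K ++ x :: y :: P)) (B := [rev x]) (by simpa using h2))
  rw [ltst_gau, dlab_rev, ex] at h3
  have h4 := Rib.slide' (A := []) (y := y) (B := P ++ [rev x]) (K := K) (C := [x])
    (by simpa only [List.append_assoc, List.cons_append, List.nil_append] using Rib.rot (A := rev x :: (K ++ [rev y, x])) (B := y :: P) (by simpa only [List.cons_append, List.append_assoc, List.nil_append, rev_rev] using h3))
  rw [ltst_gau, ey] at h4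
  simpa only [List.append_assoc, mul_assoc, List.cons_append, List.nil_append] using Rib.rot (A := [y]) (B := K ++ P ++ [rev x, rev y, x]) (by simpa only [List.append_assoc, List.cons_append, List.nil_append] using h4)

theorem ltst_round' {K : List (Dr I)} {x y : Dr I} {l : I → Fr g}
    (h : Rib (K ++ [rev x, rev y, x, y]) l) :
    Rib (K ++ [rev x, rev y, x, y])
      (gau K ((dlab l x)⁻¹ * dlab l y * dlab l x * (dlab l y)⁻¹) l) := by
  have hn := h.nodup
  have hK : ∀ d ∈ [rev x, rev y, x, y], d ∉ K := fun d hd t =>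
    (List.nodup_append.1 hn).2.2 d t d hd rfl
  have ex := fun u => ltst_keep u l (hK x (by simp)) (hK (rev x) (by simp))
  have ey := fun u => ltst_keep u l (hK y (by simp)) (hK (rev y) (by simp))
  have h1 := Rib.slide (A := []) (y := y) (B := [rev x]) (K := K) (C := [x])
    (by simpa using Rib.rot (A := K ++ [rev x, rev y, x]) (B := [y]) (by simpa using h))
  have h2 := Rib.slide (A := [y]) (y := rev x) (B := [rev y]) (K := K) (C := [])
    (by simpa using h1)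
  rw [ltst_gau, dlab_rev, ex] at h2
  have h3 := Rib.slide (A := []) (y := rev y) (B := [x]) (K := K) (C := [rev x])
    (by simpa using Rib.rot (A := [y, rev x]) (B := rev y :: (K ++ [x])) (by simpa using h2))
  rw [ltst_gau, dlab_rev, ey] at h3
  have h4 := Rib.slide (A := [rev y]) (y := x) (B := [y]) (K := K) (C := []) (by simpa using h3)
  rw [ltst_gau, ex] at h4
  simpa only [mul_assoc, List.append_assoc, List.cons_append, List.nil_append] using Rib.rot (A := [rev y, x, y]) (B := K ++ [rev x]) (by simpa using h4)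

theorem ltst_pow {K : List (Dr I)} {x y : Dr I} {l : I → Fr g}
    (h : Rib (K ++ [rev x, rev y, x, y]) l) (k : ℤ) :
    Rib (K ++ [rev x, rev y, x, y])
      (gau K (((dlab l x)⁻¹ * dlab l y * dlab l x * (dlab l y)⁻¹) ^ k) l) := by
  have hn := h.nodup
  have hK : ∀ d ∈ [rev x, rev y, x, y], d ∉ K := fun d hd t =>
    (List.nodup_append.1 hn).2.2 d t d hd rfl
  have ex := fun u => ltst_keep u l (hK x (by simp)) (hK (rev x) (by simp))
  have ey := fun u => ltst_keep u l (hK y (by simp)) (hK (rev y) (by simp))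
  induction k with
  | zero =>
    refine h.congr fun d _ => ?_
    simp [dlab_gau, Cg.refl]
  | succ k ih =>
    have := ltst_round' ih
    rwa [ltst_gau, ex, ey, ← zpow_one_add, add_comm] at this
  | pred k ih =>
    have := ltst_round (P := []) ih
    rw [ltst_gau, ex, ey, List.append_nil] at this
    convert this using 2
    rw [sub_eq_neg_add, zpow_add, zpow_neg_one]
    group

theorem Tst.mono {c c' : List (Dr I)} {a β γ : FreeGroup I} (h : Tst c' a β γ) (hs : c'.Sublist c)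
    (hp : ∀ d ∈ c', rev d ∈ c') : Tst c a β γ := fun g l hr => h g l (hr.sub hs hp)

theorem tst_handle (c x y : Dr I) {γ : FreeGroup I}
    (hγ : γ = fw x ∨ γ = fw y ∨ γ = (fw y)⁻¹ * fw x) :
    Tst [c, rev x, rev y, x, y, rev c] (fw c) ((fw x)⁻¹ * fw y * fw x * (fw y)⁻¹) γ := by
  intro g l hr
  have h : Rib ([rev c, c] ++ [rev x, rev y, x, y]) l := hr.rot (A := [_, _, _, _, _]) (B := [_])
  have hn := h.nodup
  have hK : ∀ d ∈ [rev x, rev y, x, y], d ∉ [rev c, c] := fun d hd t =>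
    (List.nodup_append.1 hn).2.2 d t d hd rfl
  have hcc : c ≠ rev c := by obtain ⟨e, _ | _⟩ := c <;> simp [rev]
  simp only [map_mul, map_inv, map_zpow, ltst_fw]
  refine ⟨?_, fun N => ?_⟩
  · have h1 := (h.sub (c' := [] ++ [rev x, rev y, x, y]) (by simp) (by simp only [List.nil_append, List.mem_cons, List.not_mem_nil, or_false, forall_eq_or_imp, rev_rev, true_or, or_true, forall_eq, and_self])).ins (t := c)
      fun t => hK c t (by simp)
    have h2 := (ltst_round (P := [c]) (K := [rev c]) h1).simp (d := c) (by simp)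
    have e : ∀ d ∈ [rev x, rev y, x, y], dlab (upd l c 1) d = dlab l d := fun d hd =>
      dlab_upd_ne _ _ (fun t => hK d hd (by simp [t])) fun t => hK d hd (by simp [t])
    rw [dlab_gau, if_neg (by simpa using hcc), if_pos (by simp), dlab_upd, e x (by simp),
      e y (by simp)] at h2
    simpa only [SimpN, mul_assoc, mul_one, mul_inv_rev, inv_inv, one_mul] using h2
  · set β := (dlab l x)⁻¹ * dlab l y * dlab l x * (dlab l y)⁻¹ with hβ
    have h1 := ltst_pow h (-N)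
    rw [← hβ] at h1
    set μ := gau [rev c, c] (β ^ (-N)) l with hμ
    have ec : dlab μ c = β ^ (-N) * dlab l c * β ^ N := by
      rw [hμ, dlab_gau, if_pos (by simp), if_pos (by simp), zpow_neg, inv_inv]
    have ex : dlab μ x = dlab l x := ltst_keep _ l (hK x (by simp)) (hK (rev x) (by simp))
    have ey : dlab μ y = dlab l y := ltst_keep _ l (hK y (by simp)) (hK (rev y) (by simp))
    have fin : ∀ Z, Pant (dlab μ c) Z → SimpN (dlab l c * β ^ N * Z * β ^ (-N)) := fun Z hZ => by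
      have := ltst_conj hZ.simp.2.2 (β ^ N)
      rw [ec] at this
      convert this using 1
      group
    rcases hγ with rfl | rfl | rfl
    · rw [ltst_fw, ← ex]
      exact fin _ (h1.sub (c' := [rev c, c, rev x, x]) (by simp) (by simp only [List.mem_cons, List.not_mem_nil, or_false, forall_eq_or_imp, rev_rev, true_or, or_true, forall_eq, and_self])).pant
    · rw [ltst_fw, ← ey]
      exact fin _ (h1.sub (c' := [rev c, c, rev y, y]) (by simp) (by simp only [List.mem_cons, List.not_mem_nil, or_false, forall_eq_or_imp, rev_rev, true_or, or_true, forall_eq, and_self])).pant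
    · have h2 := Rib.twist (A := [rev c, c, rev x]) (y := rev y) (K := [x]) (C := [])
        (by simpa using h1) 1
      have h3 := (h2.sub (c' := [rev c, c, rev x, x]) (by simp) (by simp only [List.mem_cons, List.not_mem_nil, or_false, forall_eq_or_imp, rev_rev, true_or, or_true, forall_eq, and_self])).pant
      have hxx : rev x ≠ x := by obtain ⟨e, _ | _⟩ := x <;> simp [rev]
      rw [ltst_keep _ _ (fun t => hK c (by simp [List.mem_singleton.1 t]) (by simp))
        (fun t => hK (rev c) (by simp [List.mem_singleton.1 t]) (by simp)), dlab_gau [x],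
        if_pos (by simp), if_neg (by simpa using hxx), zpow_one, dlab_rev, ex, ey] at h3
      simp only [map_mul, map_inv, ltst_fw]
      exact fin _ (by simpa using h3)

/-- From a sphere with four holes, one of the first two being `a`. -/
theorem tst_four {c : List (Dr I)} {a P Q Z : FreeGroup I} (ha : P = a ∨ Q = a)
    (h : ∀ (g : ℕ) (l : I → Fr g), Rib c l →
      Four (FreeGroup.lift l P) (FreeGroup.lift l Q) (FreeGroup.lift l Z)) :
    Tst c a (P * Q) Z := by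
  intro g l hr
  have h4 := h g l hr
  simp only [map_mul, map_zpow]
  refine ⟨h4.pant.1.simp.2.2, fun N => ?_⟩
  have h5 := (h4.twist N).pant
  rcases ha with rfl | rfl
  · simpa only [mul_assoc, zpow_neg] using h5.2.2.1.simp.2.2
  · simpa only [mul_assoc, zpow_neg] using h5.2.1.simp.2.2

theorem four_pet {c x v : Dr I} {w : List (Dr I)} (hw : w = [rev x, x, rev v, v] ∨
    w = [rev v, v, rev x, x] ∨ w = [rev v, rev x, x, v]) :
    ∃ P Q Z : FreeGroup I, ((P = fw c ∧ Q = fw x) ∨ (P = fw x ∧ Q = fw c)) ∧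
      (Z = fw v ∨ Z = fw v * (fw x)⁻¹) ∧ ∀ (g : ℕ) (l : I → Fr g), Rib (c :: (w ++ [rev c])) l →
        Four (FreeGroup.lift l P) (FreeGroup.lift l Q) (FreeGroup.lift l Z) := by
  rcases hw with rfl | rfl | rfl
  · refine ⟨_, _, _, .inr ⟨rfl, rfl⟩, .inl rfl, fun g l h => ?_⟩
    simp only [ltst_fw]
    exact (h.rot (A := [_, _, _, _, _]) (B := [_])).flat.cyc.1.cyc.1
  · refine ⟨_, _, _, .inl ⟨rfl, rfl⟩, .inl rfl, fun g l h => ?_⟩
    simp only [ltst_fw]
    exact (h.rot (A := [_, _, _, _, _]) (B := [_])).flat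
  · refine ⟨_, _, _, .inr ⟨rfl, rfl⟩, .inr rfl, fun g l h => ?_⟩
    simp only [map_mul, map_inv, ltst_fw]
    exact (h.rot (A := [_, _, _, _, _]) (B := [_])).nest

end Pool.Agent.MP_596265_gt.U

end

section

/-! THIN, row PUSH: pushing a boundary loop around the surface. -/

namespace Pool.Agent.MP_596265_gt.U

open Erg

variable {g : ℕ} {I : Type}

theorem lpush_dlab {H K : Type} [Group H] [Group K] (f : H →* K) (μ : I → H) (d : Dr I) :
    dlab (fun x => f (μ x)) d = f (dlab μ d) := by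
  obtain ⟨x, _ | _⟩ := d <;> simp [dlab]

theorem lpush_gau {H K : Type} [Group H] [Group K] (f : H →* K) (L : List (Dr I)) (u : H)
    (μ : I → H) : (fun x => f (gau L u μ x)) = gau L (f u) fun x => f (μ x) := by
  funext x
  simp only [gau, map_mul, map_inv, apply_ite f, map_one]

theorem lpush_one {H : Type} [Group H] (L : List (Dr I)) (μ : I → H) : gau L 1 μ = μ := by
  funext x
  simp [gau]

theorem lpush_out {H : Type} [Group H] {L : List (Dr I)} {d : Dr I} (h : d ∉ L) (h' : rev d ∉ L)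
    (u : H) (μ : I → H) : dlab (gau L u μ) d = dlab μ d := by
  rw [dlab_gau, if_neg h, if_neg h', one_mul, inv_one, mul_one]

/-- The push along `y` is realised by an endomorphism of the free group. -/
def lpush_P (g : ℕ) (c : Dr I) (L : List (Dr I)) (y : FreeGroup I) : Prop :=
  ∃ φ : FreeGroup I →* FreeGroup I, φ (fw c) = fw c ∧
    (∀ u, (y * u * y⁻¹)⁻¹ * φ u ∈ Subgroup.normalClosure {fw c}) ∧
    ∀ l : I → Fr g, Rib L l → Rib L fun x => FreeGroup.lift l (φ (FreeGroup.of x))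

theorem lpush_mul {c : Dr I} {L : List (Dr I)} {y z : FreeGroup I} (h : lpush_P g c L y)
    (h' : lpush_P g c L z) : lpush_P g c L (y * z) := by
  obtain ⟨φ, a1, a2, a3⟩ := h
  obtain ⟨ψ, b1, b2, b3⟩ := h'
  refine ⟨φ.comp ψ, by rw [MonoidHom.comp_apply, b1, a1], fun u => ?_, fun l hl => ?_⟩
  · have h1 : φ ((z * u * z⁻¹)⁻¹ * ψ u) ∈ Subgroup.normalClosure {fw c} :=
      (Subgroup.normalClosure_le_normal (N := (Subgroup.normalClosure {fw c}).comap φ) (by
        simpa [a1] using Subgroup.subset_normalClosure (Set.mem_singleton (fw c)))) (b2 u)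
    convert mul_mem (a2 (z * u * z⁻¹)) h1 using 1
    simp only [map_mul φ (_⁻¹), map_inv, MonoidHom.comp_apply]
    group
  · convert b3 _ (a3 l hl) using 2 with x
    have : FreeGroup.lift (fun x => FreeGroup.lift l (φ (FreeGroup.of x))) =
        (FreeGroup.lift l).comp φ := by ext1; simp
    rw [this]; rfl

theorem lpush_id {c : Dr I} {L : List (Dr I)} {y : FreeGroup I}
    (h : y ∈ Subgroup.normalClosure {fw c}) : lpush_P g c L y := by
  refine ⟨MonoidHom.id _, rfl, fun u => ?_, fun l hl => by simpa using hl⟩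
  convert mul_mem h (Subgroup.normalClosure_normal.conj_mem _ (inv_mem h) u⁻¹) using 1
  simp only [MonoidHom.id_apply]
  group

theorem lpush_fin {c e : Dr I} {L K K' : List (Dr I)} {y : FreeGroup I} {μ : I → FreeGroup I}
    (hy : y = fw e ∨ y = (fw e)⁻¹) (h1 : dlab μ c = fw c)
    (hK : ∀ d, (d.1 = c.1 ∨ d.1 = e.1) ∧ d ∉ K ∧ d ∉ K' ∨
      d.1 ≠ c.1 ∧ d.1 ≠ e.1 ∧ (d ∈ K ∧ d ∉ K' ∨ d ∉ K ∧ d ∈ K'))
    (h2 : ∀ (H : Type) [Group H] (f : FreeGroup I →* H), f (fw c) = 1 →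
      (fun x => f (μ x)) = gau K (f y) (gau K' (f y) fun x => f (.of x)))
    (h3 : ∀ l : I → Fr g, Rib L l → Rib L fun x => FreeGroup.lift l (μ x)) : lpush_P g c L y := by
  refine ⟨FreeGroup.lift μ, (lpush_dlab _ _ c).symm.trans (by simpa using h1), fun u => ?_,
    fun l hl => by simpa using h3 l hl⟩
  have key : ∀ (H : Type) [Group H] (f : FreeGroup I →* H), f (fw c) = 1 →
      f.comp (MulAut.conj y).toMonoidHom = f.comp (FreeGroup.lift μ) := fun H _ f f1 => by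
    ext1 x
    have e1 := congrFun (h2 _ f f1) x
    simp only [MonoidHom.comp_apply, FreeGroup.lift_apply_of, e1, gau, MulEquiv.coe_toMonoidHom,
      MulAut.conj_apply, map_mul, map_inv]
    rcases hK (x, true) with ⟨a, b1, b2⟩ | ⟨a1, a2, b⟩ <;>
      rcases hK (x, false) with ⟨a', c1, c2⟩ | ⟨a1', a2', c⟩
    · simp only [if_neg, b1, b2, c1, c2, not_false_eq_true, one_mul, inv_one, mul_one]
      rcases a with a | a
      · have : f (.of x) = 1 := by
          obtain ⟨c, _ | _⟩ := c <;> obtain rfl : x = c := a <;> simpa [fw, dlab] using f1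
        simp [this]
      · obtain ⟨e, _ | _⟩ := e <;> obtain rfl : x = e := a <;> rcases hy with rfl | rfl <;>
          simp only [fw, dlab, cond_false, map_inv, inv_mul_cancel, inv_inv, one_mul, mul_inv_cancel_right, cond_true]
    · exact absurd a (not_or.2 ⟨a1', a2'⟩)
    · exact absurd a' (not_or.2 ⟨a1, a2⟩)
    · rcases b with b | b <;> rcases c with c | c <;> simp [b.1, b.2, c.1, c.2, mul_assoc]
  exact QuotientGroup.eq.1 (DFunLike.congr_fun (key _ (QuotientGroup.mk' _)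
    ((QuotientGroup.eq_one_iff _).2 (Subgroup.subset_normalClosure (Set.mem_singleton _)))) u)

theorem lpush_or {d e : Dr I} (h : d.1 = e.1) : d = e ∨ d = rev e := by
  obtain ⟨d, _ | _⟩ := d <;> obtain ⟨e, _ | _⟩ := e <;> obtain rfl : d = e := h <;> simp [rev]

theorem lpush_dart {c e : Dr I} {F₁ F₂ F₃ : List (Dr I)}
    (hall : ∀ d, d ∈ c :: (F₁ ++ e :: (F₂ ++ rev e :: F₃) ++ [rev c]))
    (hn : (c :: (F₁ ++ e :: (F₂ ++ rev e :: F₃) ++ [rev c])).Nodup) :
    lpush_P g c (c :: (F₁ ++ e :: (F₂ ++ rev e :: F₃) ++ [rev c])) (fw e) ∧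
      lpush_P g c (c :: (F₁ ++ e :: (F₂ ++ rev e :: F₃) ++ [rev c])) (fw e)⁻¹ := by
  have hp : (c :: (F₁ ++ e :: (F₂ ++ rev e :: F₃) ++ [rev c])).Perm
      ([c, rev c, e, rev e] ++ ((F₃ ++ F₁) ++ F₂)) := by
    classical
    exact List.perm_iff_count.2 fun d => by
      simp only [List.count_cons, List.count_append, List.count_nil]; omega
  obtain ⟨-, n1, n2⟩ := List.nodup_append.1 (hp.nodup_iff.1 hn)
  replace n1 := (List.nodup_append.1 n1).2.2
  have o : ∀ d, d.1 = c.1 ∨ d.1 = e.1 → d ∉ F₃ ++ F₁ ∧ d ∉ F₂ := fun d h => by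
    rw [← not_or, ← List.mem_append]
    refine fun h' => n2 d ?_ d h' rfl
    rcases h with h | h <;> rcases lpush_or h with rfl | rfl <;> simp
  have hK : ∀ d : Dr I, (d.1 = c.1 ∨ d.1 = e.1) ∧ d ∉ F₃ ++ F₁ ∧ d ∉ F₂ ∨
      d.1 ≠ c.1 ∧ d.1 ≠ e.1 ∧ (d ∈ F₃ ++ F₁ ∧ d ∉ F₂ ∨ d ∉ F₃ ++ F₁ ∧ d ∈ F₂) := fun d => by
    by_cases h : d.1 = c.1 ∨ d.1 = e.1
    · exact .inl ⟨h, o d h⟩
    · refine .inr ⟨(not_or.1 h).1, (not_or.1 h).2, ?_⟩
      rcases List.mem_append.1 (hp.mem_iff.1 (hall d)) with m | m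
      · simp only [List.mem_cons, List.not_mem_nil, or_false] at m
        rcases m with rfl | rfl | rfl | rfl <;> simp at h
      · rcases List.mem_append.1 m with m | m
        exacts [.inl ⟨m, fun m' => n1 d m d m' rfl⟩, .inr ⟨fun m' => n1 d m' d m rfl, m⟩]
  have q : ∀ (H : Type) [Group H] (u : H) (μ : I → H) (d : Dr I), d.1 = c.1 ∨ d.1 = e.1 →
      dlab (gau F₁ u μ) d = dlab μ d ∧ dlab (gau F₂ u μ) d = dlab μ d ∧
      dlab (gau F₃ u μ) d = dlab μ d ∧ dlab (gau (F₃ ++ F₁) u μ) d = dlab μ d :=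
    fun H _ u μ d h => by
      have a := o d h
      have b := o (rev d) h
      exact ⟨lpush_out (fun m => a.1 (List.mem_append_right _ m))
        (fun m => b.1 (List.mem_append_right _ m)) u μ, lpush_out a.2 b.2 u μ,
        lpush_out (fun m => a.1 (List.mem_append_left _ m))
        (fun m => b.1 (List.mem_append_left _ m)) u μ, lpush_out a.1 b.1 u μ⟩
  have qc := fun (H : Type) [Group H] (u : H) (μ : I → H) => q H u μ c (.inl rfl)
  have qe := fun (H : Type) [Group H] (u : H) (μ : I → H) => q H u μ e (.inr rfl)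
  have z : ∀ (l : I → Fr g) (d : Dr I), FreeGroup.lift l (fw d) = dlab l d := fun l d =>
    (lpush_dlab _ _ d).symm.trans (by simp)
  refine ⟨lpush_fin (μ := gau F₃ (fw c)⁻¹ (gau (F₃ ++ F₁) (fw e) (gau F₁ (fw c)⁻¹
      (gau F₂ (fw e) .of)))) (.inl rfl) (by simp only [qc, fw]) hK (fun H _ f f1 => ?_)
      fun l hl => ?_, lpush_fin (μ := gau F₁ (fw c) (gau (F₃ ++ F₁) (fw e)⁻¹ (gau F₃ (fw c)
      (gau F₂ (fw e)⁻¹ .of)))) (.inr rfl) (by simp only [qc, fw]) hK (fun H _ f f1 => ?_)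
      fun l hl => ?_⟩
  · simp only [lpush_gau, map_inv, f1, inv_one, lpush_one]
  · have h1 := Rib.twist (A := c :: F₁) (y := e) (K := F₂) (C := F₃ ++ [rev c]) (l := l)
      (by simpa using hl) 1
    have h2 := Rib.slide (A := []) (y := c) (K := F₁) (B := e :: (F₂ ++ rev e :: F₃)) (C := [])
      (by simpa using h1)
    have r := Rib.rot (A := c :: e :: F₂) (B := rev e :: (F₃ ++ F₁ ++ [rev c]))
      (by simpa using h2)
    have h3 := Rib.slide (A := []) (y := rev e) (K := F₃ ++ F₁) (B := [rev c, c]) (C := F₂)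
      (by simpa using r)
    have r := Rib.rot (A := [rev e, rev c]) (B := c :: (F₃ ++ F₁ ++ e :: F₂))
      (by simpa using h3)
    have h4 := Rib.slide (A := []) (y := c) (K := F₃) (B := F₁ ++ e :: (F₂ ++ [rev e])) (C := [])
      (by simpa using r)
    simpa [lpush_gau, z, qc, qe] using h4
  · simp only [lpush_gau, map_inv, f1, lpush_one]
  · have h1 := Rib.twist (A := c :: F₁) (y := e) (K := F₂) (C := F₃ ++ [rev c]) (l := l)
      (by simpa using hl) (-1)
    have h2 := Rib.slide' (A := []) (y := c) (K := F₃) (B := F₁ ++ e :: (F₂ ++ [rev e])) (C := [])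
      (by simpa using h1)
    have r := Rib.rot (B := [rev e, rev c]) (A := c :: (F₃ ++ F₁ ++ e :: F₂))
      (by simpa using h2)
    have h3 := Rib.slide' (A := []) (y := rev e) (K := F₃ ++ F₁) (B := [rev c, c]) (C := F₂)
      (by simpa using r)
    have r := Rib.rot (B := c :: e :: F₂) (A := rev e :: (F₃ ++ F₁ ++ [rev c]))
      (by simpa using h3)
    have h4 := Rib.slide' (A := []) (y := c) (K := F₁) (B := e :: (F₂ ++ rev e :: F₃)) (C := [])
      (by simpa using r)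
    simpa [lpush_gau, z, qc, qe] using h4

theorem push {c : Dr I} {D : List (Dr I)} (hall : ∀ d, d ∈ c :: (D ++ [rev c])) (y : FreeGroup I)
    {l : I → Fr g} (h : Rib (c :: (D ++ [rev c])) l) :
    ∃ φ : FreeGroup I →* FreeGroup I, φ (fw c) = fw c ∧
      (∀ u, (y * u * y⁻¹)⁻¹ * φ u ∈ Subgroup.normalClosure {fw c}) ∧
      Rib (c :: (D ++ [rev c])) fun x => FreeGroup.lift l (φ (FreeGroup.of x)) := by
  have hn := h.nodup
  have hc := Subgroup.subset_normalClosure (Set.mem_singleton (fw c))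
  have key : ∀ x : I, lpush_P g c (c :: (D ++ [rev c])) (.of x) ∧
      lpush_P g c (c :: (D ++ [rev c])) (FreeGroup.of x)⁻¹ := fun x => by
    have t : ∀ e : Dr I, e.1 = x → FreeGroup.of x = fw e ∨ FreeGroup.of x = (fw e)⁻¹ := by
      rintro ⟨e, _ | _⟩ rfl <;> simp [fw, dlab]
    by_cases hx : c.1 = x
    · have : FreeGroup.of x ∈ Subgroup.normalClosure {fw c} := by
        rcases t c hx with a | a <;> rw [a]
        exacts [hc, inv_mem hc]
      exact ⟨lpush_id this, lpush_id (inv_mem this)⟩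
    have m : ∀ b, (x, b) ∈ D := fun b => by
      have := hall (x, b)
      simp only [List.mem_cons, List.mem_append, List.not_mem_nil, or_false] at this
      rcases this with a | a | a
      exacts [absurd (congrArg Prod.fst a).symm hx, a, absurd (congrArg Prod.fst a).symm hx]
    obtain ⟨e, F₁, F₂, F₃, he, rfl⟩ : ∃ e F₁ F₂ F₃, e.1 = x ∧
        D = F₁ ++ e :: (F₂ ++ rev e :: F₃) := by
      obtain ⟨P, Q, rfl⟩ := List.append_of_mem (m true)
      rcases List.mem_append.1 (m false) with a | a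
      · obtain ⟨P, R, rfl⟩ := List.append_of_mem a
        exact ⟨(x, false), P, R, Q, rfl, by simp [rev]⟩
      · obtain ⟨R, Q, rfl⟩ := List.append_of_mem (by simpa using a : (x, false) ∈ Q)
        exact ⟨(x, true), P, R, Q, rfl, rfl⟩
    have := lpush_dart (g := g) hall hn
    rcases t e he with a | a <;> rw [a]
    exacts [this, ⟨this.2, by rw [inv_inv]; exact this.1⟩]
  obtain ⟨φ, a, b, d⟩ : lpush_P g c (c :: (D ++ [rev c])) y := by
    induction y using FreeGroup.induction_on with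
    | C1 => exact lpush_id (one_mem _)
    | of x => exact (key x).1
    | inv_of x _ => exact (key x).2
    | mul u v h1 h2 => exact lpush_mul h1 h2
  exact ⟨φ, a, b, d l h⟩

end Pool.Agent.MP_596265_gt.U

end

section

/-! THIN, static part: push and hole. -/

namespace Pool.Agent.MP_596265_gt.U

open Erg UpperHalfPlane Filter Topology MeasureTheory

variable {g : ℕ} {I : Type} {σ : Fr g →* G}

theorem lfin_fw {H : Type} [Group H] (l : I → H) (d : Dr I) : FreeGroup.lift l (fw d) = dlab l d := by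
  obtain ⟨x, b⟩ := d
  cases b <;> simp [fw, dlab]

theorem lfin_lift {H : Type} [Group H] (l : I → H) (φ : FreeGroup I →* FreeGroup I)
    (u : FreeGroup I) : FreeGroup.lift (fun x => FreeGroup.lift l (φ (FreeGroup.of x))) u =
      FreeGroup.lift l (φ u) := by
  have : FreeGroup.lift (fun x => FreeGroup.lift l (φ (FreeGroup.of x))) =
      (FreeGroup.lift l).comp φ := FreeGroup.ext_hom _ _ fun x => by simp
  rw [this]
  rfl

theorem tendsto_lift {ι : Type} {U : Filter ι} {l : I → Fr g} {s : ι → Fr g →* G} {L₀ : I → G}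
    (hL : ∀ x, Tendsto (fun k => s k (l x)) U (𝓝 (L₀ x))) (u : FreeGroup I) :
    Tendsto (fun k => s k (FreeGroup.lift l u)) U (𝓝 (FreeGroup.lift L₀ u)) := by
  induction u using FreeGroup.induction_on with
  | C1 => simpa only [map_one] using tendsto_const_nhds
  | of x => simpa only [FreeGroup.lift_apply_of] using hL x
  | inv_of x h => simpa only [map_inv] using h.inv
  | mul x y h h' => simpa only [map_mul] using h.mul h'

theorem fin_hole {ι : Type} {U : Filter ι} [U.NeBot] {c : Dr I} {D : List (Dr I)}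
    (hall : ∀ d, d ∈ c :: (D ++ [rev c])) {l : I → Fr g} (h : Rib (c :: (D ++ [rev c])) l)
    {s : ι → Fr g →* G} (hs : ∀ k, Gd (s k)) {L₀ : I → G}
    (hL : ∀ x, Tendsto (fun k => s k (l x)) U (𝓝 (L₀ x))) {ε : ℝ} (hε : ε = 1 ∨ ε = -1)
    {e : ι → ℝ} {N : Mat} (he : ∀ k, 0 < e k) (he0 : Tendsto e U (𝓝 0))
    (hN : Tendsto (fun k => (e k)⁻¹ • (ε • (s k (dlab l c) : Mat) - 1)) U (𝓝 N))
    {β γ : FreeGroup I} (ht : Tst (c :: (D ++ [rev c])) (fw c) β γ)
    (hk : kap (FreeGroup.lift L₀ β) (FreeGroup.lift L₀ γ) ≠ 2)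
    (hS : Str (FreeGroup.lift L₀) N) : False := by
  choose φ p1 p2 p3 using fun y => push hall y h
  obtain ⟨k, y, m, hm⟩ := (hole (l := U) (ρ := fun k => (s k).comp (FreeGroup.lift l))
    (tendsto_lift hL) (fw c) β γ hε he he0 (by simpa only [MonoidHom.comp_apply, lfin_fw] using hN)
    (B := fun y => φ y β) (C := fun y => φ y γ) (fun y => p2 y β) (fun y => p2 y γ)
    (fun y => Eventually.of_forall fun k => by
      have := (hs k).two (ht g _ (p3 y)).1
      rwa [lfin_lift] at this)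
    (by simpa only [map_mul, map_inv, kap] using hk) hS).exists
  have := (hs k).two ((ht g _ (p3 y)).2 m)
  rw [lfin_lift, map_mul (φ y), map_mul (φ y), map_mul (φ y), map_zpow, map_zpow, p1] at this
  exact hm.not_ge this

theorem lfin_fix {X : G} (h2 : |tr X| = 2) (h1 : ¬ PM X 1) : ∃ a b ε : ℝ, (a ≠ 0 ∨ b ≠ 0) ∧
    ε ^ 2 = 1 ∧ a * X 0 0 + b * X 1 0 = ε * a ∧ a * X 0 1 + b * X 1 1 = ε * b := by
  have hd := basic_det X
  obtain ⟨ε, h3, h4⟩ : ∃ ε : ℝ, (ε = 1 ∨ ε = -1) ∧ X 1 1 = 2 * ε - X 0 0 := by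
    rcases abs_eq (by norm_num : (0 : ℝ) ≤ 2) |>.1 h2 with h | h
    · exact ⟨1, .inl rfl, by unfold tr at h; linarith only [h]⟩
    · exact ⟨-1, .inr rfl, by unfold tr at h; linarith only [h]⟩
  have h5 : ε ^ 2 = 1 := by rcases h3 with rfl | rfl <;> norm_num
  rw [h4] at hd
  by_cases h : X 0 0 - ε ≠ 0 ∨ X 0 1 ≠ 0
  · exact ⟨_, _, ε, h, h5, by linear_combination h5 - hd, by rw [h4]; ring⟩
  push Not at h
  refine ⟨X 1 0, 0, ε, .inl fun h0 => h1 ?_, h5, by linear_combination X 1 0 * h.1, by simp [h.2]⟩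
  have h6 : X 0 0 = ε := by linarith only [h.1]
  have h7 : X 1 1 = ε := by linarith
  rcases h3 with rfl | rfl
  · exact .inl (basic_ext h6 h.2 h0 h7)
  · exact .inr (basic_ext h6 (by simp [h.2]) (by simp [h0]) h7)

/-- A direction away from the fixed point of a parabolic. -/
theorem para {X : G} (h2 : |tr X| = 2) (h1 : ¬ PM X 1) : ∃ Y : Mat, Y.trace = 0 ∧ Y 0 1 = Y 1 0 ∧
    Y ≠ 0 ∧ ∀ (u : G) (j : ℤ), PM u (X ^ j) → hgt Y u ≤ 0 := by
  obtain ⟨a, b, ε, h0, h3⟩ := lfin_fix h2 h1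
  let H : Subgroup G :=
    { carrier := {u | ∃ t : ℝ, t ^ 2 = 1 ∧ a * u 0 0 + b * u 1 0 = t * a ∧
        a * u 0 1 + b * u 1 1 = t * b}
      one_mem' := ⟨1, by norm_num, by simp, by simp⟩
      mul_mem' := by
        rintro u v ⟨t, a1, a2, a3⟩ ⟨t', b1, b2, b3⟩
        refine ⟨t * t', by rw [mul_pow, a1, b1, one_mul], ?_, ?_⟩
        · simp only [basic_mul]
          linear_combination v 0 0 * a2 + v 1 0 * a3 + t * b2
        · simp only [basic_mul]
          linear_combination v 0 1 * a2 + v 1 1 * a3 + t * b3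
      inv_mem' := by
        rintro u ⟨t, a1, a2, a3⟩
        have hd := basic_det u
        refine ⟨t, a1, ?_, ?_⟩
        · rw [basic_inv00, basic_inv10]
          linear_combination t * a * hd - t * u 1 1 * a2 + t * u 1 0 * a3 -
            (a * u 1 1 - b * u 1 0) * a1
        · rw [basic_inv01, basic_inv11]
          linear_combination t * b * hd + t * u 0 1 * a2 - t * u 0 0 * a3 +
            (a * u 0 1 - b * u 0 0) * a1 }
  have key : ∀ u ∈ H, hgt !![-(2 * a * b), a ^ 2 - b ^ 2; a ^ 2 - b ^ 2, 2 * a * b] u ≤ 0 := by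
    rintro u ⟨t, a1, a2, a3⟩
    have hd := basic_det u
    have e : hgt !![-(2 * a * b), a ^ 2 - b ^ 2; a ^ 2 - b ^ 2, 2 * a * b] u =
        2 * ((a * u 0 0 + b * u 1 0) ^ 2 + (a * u 0 1 + b * u 1 1) ^ 2) -
          (a ^ 2 + b ^ 2) * ((u 0 0 - u 1 1) ^ 2 + (u 0 1 + u 1 0) ^ 2 + 2) := by
      simp only [hgt, qX, Fin.isValue, Matrix.mulVec, dotProduct, Matrix.of_apply, Matrix.cons_val', Matrix.cons_val_fin_one, Matrix.cons_val_one, Fin.sum_univ_two, Matrix.cons_val_zero, neg_mul]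
      linear_combination (-2 * (a ^ 2 + b ^ 2)) * hd
    rw [e, a2, a3, mul_pow, mul_pow, a1]
    linarith only [mul_nonneg (add_nonneg (sq_nonneg a) (sq_nonneg b))
      (add_nonneg (sq_nonneg (u 0 0 - u 1 1)) (sq_nonneg (u 0 1 + u 1 0)))]
  refine ⟨!![-(2 * a * b), a ^ 2 - b ^ 2; a ^ 2 - b ^ 2, 2 * a * b], by simp, rfl, fun h => ?_,
    fun u j hu => key u ?_⟩
  · have e1 : 2 * a * b = 0 := congrFun (congrFun h 1) 1
    have e2 : a ^ 2 - b ^ 2 = 0 := congrFun (congrFun h 0) 1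
    have e3 : (a ^ 2 + b ^ 2) ^ 2 = 0 := by linear_combination (2 * a * b) * e1 + (a ^ 2 - b ^ 2) * e2
    have e4 := pow_eq_zero_iff two_ne_zero |>.1 e3
    rcases h0 with h0 | h0
    · linarith only [pow_pos (abs_pos.2 h0) 2, sq_abs a, e2, e4]
    · linarith only [pow_pos (abs_pos.2 h0) 2, sq_abs b, e2, e4]
  · have hj : X ^ j ∈ H := H.zpow_mem ⟨ε, h3⟩ j
    rcases hu with rfl | rfl
    · exact hj
    · obtain ⟨t, a1, a2, a3⟩ := hj
      exact ⟨-t, by rw [neg_sq, a1], by simp only [basic_neg]; linarith only [a2],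
        by simp only [basic_neg]; linarith only [a3]⟩

end Pool.Agent.MP_596265_gt.U

end

section

/-! THIN, static part: no state has exactly one short edge with the base point on its axis. -/

namespace Pool.Agent.MP_596265_gt.U

open Erg UpperHalfPlane Filter Topology Lim

variable {g : ℕ}

theorem chain_mid {α : Type} {R : α → α → Prop} {l l₁ : List α} (h : l.IsChain R)
    (h' : ∃ a b, a ++ l₁ ++ b = l) : l₁.IsChain R := by
  obtain ⟨a, b, rfl⟩ := h'
  exact h.left_of_append.right_of_append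

theorem r1_res {E : Type} {w : List (Dr E)} (hw : ∀ d ∈ w, rev d ∈ w) :
    ∃ (J : Type) (j : J → E) (w' : List (Dr J)), Function.Injective j ∧
      w'.map (Prod.map j id) = w ∧ ∀ d, d ∈ w' := by
  have hm : ∀ d ∈ w, (d.1, true) ∈ w := fun d hd => by
    obtain ⟨x, _ | _⟩ := d
    exacts [hw _ hd, hd]
  refine ⟨{x // (x, true) ∈ w}, Subtype.val,
    w.pmap (fun d h => ((⟨d.1, h⟩ : {x // (x, true) ∈ w}), d.2)) hm, Subtype.val_injective, ?_, ?_⟩
  · rw [List.map_pmap]; simp [List.pmap_eq_map]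
  · rintro ⟨⟨x, hx⟩, b⟩
    refine List.mem_pmap.2 ⟨(x, b), ?_, rfl⟩
    cases b
    exacts [hw _ hx, hx]

theorem r1_fw {J H : Type} [Group H] (l : J → H) (d : Dr J) :
    FreeGroup.lift l (fw d) = dlab l d := by
  obtain ⟨x, _ | _⟩ := d <;> simp [fw, dlab]

theorem r1_dl {J E H : Type} [Group H] (j : J → E) (l : E → H) (d : Dr J) :
    dlab (fun x => l (j x)) d = dlab l (Prod.map j id d) := rfl

theorem r1_ne {ι : Type} {U : Filter ι} {A : ι → G} {A₀ : G} (h : Tendsto A U (𝓝 A₀))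
    (h1 : ¬ PM A₀ 1) : ∀ᶠ k in U, ¬ PM (A k) 1 :=
  h.eventually (isClosed_pm_one.isOpen_compl.mem_nhds h1)

theorem r1_kap (a b : G) : kap a⁻¹ b = kap a b := by
  rw [kap_tr', kap_tr, tr_inv]

theorem r1_tor {ι : Type} {U : Filter ι} [U.NeBot] {A B : ι → G} {A₀ B₀ : G}
    (h : Tendsto A U (𝓝 A₀)) (h' : Tendsto B U (𝓝 B₀)) (t : ∀ k, Tor (A k) (B k)) : Tor A₀ B₀ := by
  have := isClosed_tor.mem_of_tendsto (h.prodMk_nhds h') (Eventually.of_forall fun k => by
    simpa only [Set.mem_ofPred_eq] using t k)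
  simpa only [Set.mem_ofPred_eq] using this

/-- The core: a ribbon graph with a short loop `c` and bounded loops on one side. -/
theorem r1_core (hg : 2 ≤ g) {ι J : Type} {U : Filter ι} [U.NeBot] {c : Dr J} {D : List (Dr J)}
    (hall : ∀ d, d ∈ c :: (D ++ [rev c])) {l : J → Fr g} (h : Rib (c :: (D ++ [rev c])) l)
    {s : ι → Fr g →* G} (hs : ∀ k, Gd (s k)) {L₀ : J → G}
    (hL : ∀ x, Tendsto (fun k => s k (l x)) U (𝓝 (L₀ x))) {ε : ℝ} (hε : ε = 1 ∨ ε = -1)
    {e : ι → ℝ} {N : Mat} (he : ∀ k, 0 < e k) (he0 : Tendsto e U (𝓝 0))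
    (hN : Tendsto (fun k => (e k)⁻¹ • (ε • (s k (dlab l c) : Mat) - 1)) U (𝓝 N))
    (n0 : N.trace = 0) (n1 : N 0 1 = N 1 0) (n2 : N ≠ 0) (hc : PM (dlab L₀ c) 1)
    (hc' : Simp (dlab l c)) (hD : ∀ d ∈ D, rev d ∈ D) (h0 : D ≠ [])
    (hp : HP {u | ∃ y ∈ D, u = dlab L₀ y}) (h1 : ∀ y ∈ D, ¬ PM (dlab L₀ y) 1)
    (h2 : ∀ A B x, D = A ++ rev x :: x :: B → |tr (dlab L₀ x)| = 2) : False := by
  have hn : D.Nodup := ((List.nodup_cons.1 h.nodup).2.of_append_left)
  have fin : ∀ β γ, Tst (c :: (D ++ [rev c])) (fw c) β γ →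
      kap (FreeGroup.lift L₀ β) (FreeGroup.lift L₀ γ) ≠ 2 → False := fun β γ a b =>
    fin_hole hall h hs hL hε he he0 hN a b (str_of_hp (β := β) (γ := γ) (FreeGroup.lift L₀)
      (by rintro _ ⟨y, -, rfl⟩; exact ⟨fw y, r1_fw _ _⟩)
      ((D.finite_toSet.image (dlab L₀)).subset (by rintro _ ⟨y, a, rfl⟩; exact ⟨y, a, rfl⟩))
      hp n0 n1 n2 (by simpa only [map_mul, map_inv, kap] using b))
  have lim : ∀ d, Tendsto (fun k => s k (dlab l d)) U (𝓝 (dlab L₀ d)) := fun d => by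
    simpa only [r1_fw] using tendsto_lift hL (fw d)
  have sub : ∀ w : List (Dr J), w.Sublist D → (c :: (w ++ [rev c])).Sublist (c :: (D ++ [rev c])) :=
    fun w hw => (hw.append_right _).cons_cons _
  rcases inn hn hD h0 with ⟨x, y, hxy⟩ | ⟨A, B, x, hA⟩
  · have t : Tor (dlab L₀ (rev x)) (dlab L₀ (rev y)) :=
      r1_tor (lim (rev x)) (lim (rev y)) fun k => (hs k).tor hg (h.sub
        (by simpa using (hxy.trans (List.sublist_append_left _ _)).cons c) (by simp only [rev_rev, List.mem_cons, List.not_mem_nil, or_false, forall_eq_or_imp, true_or, or_true, forall_eq, and_self]))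
    have m : ∀ γ, γ = fw x ∨ γ = fw y ∨ γ = (fw y)⁻¹ * fw x →
        kap (FreeGroup.lift L₀ ((fw x)⁻¹ * fw y * fw x * (fw y)⁻¹)) (FreeGroup.lift L₀ γ) ≠ 2 →
        False := fun γ a => fin _ _ ((tst_handle c x y a).mono (sub _ hxy) (by simp only [List.mem_cons, List.not_mem_nil, or_false, forall_eq_or_imp, or_true, rev_rev, true_or, forall_eq, and_self]))
    simp only [map_mul, map_inv, r1_fw] at m
    have t3 := tor_pair' t
    simp only [dlab_rev, inv_inv, kap_inv] at t3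
    rcases t3 with t3 | t3 | t3
    · exact m _ (.inl rfl) (by rwa [r1_fw])
    · exact m _ (.inr (.inl rfl)) (by rwa [r1_fw])
    · refine m _ (.inr (.inr rfl)) ?_
      rw [← kap_inv]
      simpa only [map_mul, map_inv, r1_fw, mul_inv_rev, inv_inv] using t3
  · have hx : x ∈ D := by simp [hA]
    obtain ⟨Y, y0, y1, y2, hY⟩ := para (h2 A B x hA) (h1 x hx)
    obtain ⟨_, ⟨u, hu, rfl⟩, hu'⟩ := hp Y y0 y1 y2
    have nu : ∀ j : ℤ, ¬ PM (dlab L₀ u) (dlab L₀ x ^ j) := fun j a => (hY _ j a).not_gt hu'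
    have nv : ∀ v : Dr J, v.1 = u.1 → ∀ j : ℤ, ¬ PM (dlab L₀ v) (dlab L₀ x ^ j) := fun v a j b => by
      rcases eq_or_rev' a with rfl | rfl
      · exact nu j b
      · refine nu (-j) ?_
        have := b.inv
        rwa [dlab_rev, inv_inv, ← zpow_neg] at this
    have ux : u.1 ≠ x.1 := fun a => nv x a.symm 1 (by rw [zpow_one]; exact PM.refl _)
    obtain ⟨v, hv, hw⟩ := pet (hA ▸ hn) (hA ▸ hD) (hA ▸ hu) ux
    rw [← hA] at hw
    obtain ⟨w, hw, hw'⟩ : ∃ w : List (Dr J), w.Sublist D ∧ (w = [rev x, x, rev v, v] ∨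
        w = [rev v, v, rev x, x] ∨ w = [rev v, rev x, x, v]) := by
      rcases hw with a | a | a
      exacts [⟨_, a, .inl rfl⟩, ⟨_, a, .inr (.inl rfl)⟩, ⟨_, a, .inr (.inr rfl)⟩]
    have cl : ∀ d ∈ c :: (w ++ [rev c]), rev d ∈ c :: (w ++ [rev c]) := by
      rcases hw' with rfl | rfl | rfl <;> simp only [List.cons_append, List.nil_append, List.mem_cons, List.not_mem_nil, or_false, forall_eq_or_imp, or_true, rev_rev, true_or, forall_eq, and_self]
    obtain ⟨P, Q, Z, hPQ, hZ, h4⟩ := four_pet (c := c) hw'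
    have F4 := h4 g l (h.sub (sub w hw) cl)
    refine fin _ _ ((tst_four (hPQ.imp And.left And.right) h4).mono (sub w hw) cl) ?_
    have pT : PM (FreeGroup.lift L₀ (P * Q)) (dlab L₀ x) := by
      rcases hPQ with ⟨rfl, rfl⟩ | ⟨rfl, rfl⟩ <;> rw [map_mul, r1_fw, r1_fw]
      · simpa using hc.mul (PM.refl (dlab L₀ x))
      · simpa using (PM.refl (dlab L₀ x)).mul hc
    have nZ : ∀ j : ℤ, ¬ PM (FreeGroup.lift L₀ Z) (dlab L₀ x ^ j) := fun j a => by
      rcases hZ with rfl | rfl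
      · exact nv v hv j (by rwa [r1_fw] at a)
      · refine nv v hv (j + 1) ?_
        have := a.mul (PM.refl (dlab L₀ x))
        rwa [map_mul, map_inv, r1_fw, r1_fw, inv_mul_cancel_right, ← zpow_add_one] at this
    have e1 := r1_ne (lim x) (h1 x hx)
    have e2 := r1_ne (tendsto_lift hL (P * Q)) fun a => h1 x hx (pT.symm.trans a)
    have e3 := r1_ne (tendsto_lift hL Z) (by simpa using nZ 0)
    have e4 := r1_ne (tendsto_lift hL (P * Q * Z)) fun a => nZ (-1) (by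
      have := pT.inv.mul (PM.refl 1) |>.symm.trans ((PM.refl (FreeGroup.lift L₀ (P * Q))⁻¹).mul a).symm
        |>.symm
      rwa [map_mul _ _ Z, inv_mul_cancel_left, mul_one, ← zpow_neg_one] at this)
    have f4 : ∀ᶠ k in U, ThW.Four (s k (FreeGroup.lift l Z)) (s k (FreeGroup.lift l (P * Q * Z)))⁻¹
        (s k (dlab l c) * dlab L₀ c) := by
      filter_upwards [e1, e2, e3, e4] with k a1 a2 a3 a4
      have a0 := (hs k).ne hc'
      have pm : PM (s k (dlab l c) * dlab L₀ c) (s k (dlab l c)) := by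
        simpa using (PM.refl (s k (dlab l c))).mul hc
      simp only [map_mul (FreeGroup.lift l)] at a2 a4 ⊢
      rcases hPQ with ⟨rfl, rfl⟩ | ⟨rfl, rfl⟩ <;> simp only [r1_fw] at F4 a2 a4 ⊢
      · exact four_pm ((hs k).four F4 a0 a1 a2 a3 a4).1 (.refl _) (.refl _) pm
      · exact four_pm ((hs k).four F4 a1 a0 a2 a3 a4).2 (.refl _) (.refl _) pm
    have ec : dlab L₀ c * dlab L₀ c = 1 := by rcases hc with a | a <;> simp [a]
    have eT : FreeGroup.lift L₀ Z * (FreeGroup.lift L₀ (P * Q * Z))⁻¹ =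
        (FreeGroup.lift L₀ (P * Q))⁻¹ := by rw [map_mul _ _ Z]; group
    have t2 : |tr (FreeGroup.lift L₀ Z * (FreeGroup.lift L₀ (P * Q * Z))⁻¹)| = 2 := by
      rw [eT, tr_inv, pT.abs_tr, h2 A B x hA]
    have := (irr_of_F t2 (ThW.F_lim f4 (tendsto_lift hL Z) (tendsto_lift hL (P * Q * Z)).inv
      (ec ▸ (lim c).mul_const (dlab L₀ c)) t2).2.2).1
    rwa [eT, r1_kap] at this

/-- One side of the short edge carries a bounded dart. -/
theorem r1_side (hg : 2 ≤ g) (hT : TAx g) {ι : Type} {U : Ultrafilter ι} {τ : MS g} (ht : MT τ)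
    {s : ι → Fr g →* G} (hs : ∀ k, Gd (s k)) {L : ι → Ed g → G} (hL : ∀ k x, L k x = s k (τ.2 x))
    (h : LD τ.1 L) {c : Dr (Ed g)} {η : ℝ} (hη : 0 < η)
    (ha : Tendsto (fun k => len (L k c.1)) U (𝓝 0)) (hl : ∀ k x, x ≠ c.1 → η ≤ len (L k x))
    (hy : ∀ k, dlab (L k) c 0 1 = dlab (L k) c 1 0) {F F' : List (Dr (Ed g))}
    (hk : Lk τ.1 (c :: (F ++ rev c :: F'))) {x : Dr (Ed g)} (hx : x ∈ F) (hb : Bn U L x.1) :
    False := by
  classical
  obtain rfl : L = fun k x => s k (τ.2 x) := funext₂ hL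
  have dl : ∀ k d, dlab (fun x => s k (τ.2 x)) d = s k (dlab τ.2 d) := fun k d =>
    (map_dlab _ _ _).symm
  have nd := hk.1
  have hF : ∀ y ∈ F, y.1 ≠ c.1 := fun y a b => by
    rcases eq_or_rev' b with rfl | rfl
    · exact (List.nodup_cons.1 nd).1 (List.mem_append_left _ a)
    · exact List.disjoint_of_nodup_append (List.nodup_cons.1 nd).2 a (by simp)
  have hr : ∀ y ∈ F, Bn U (fun k x => s k (τ.2 x)) y.1 → rev y ∈ F := fun y a b => by
    have m := hk.2.1 (rev y)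
    simp only [List.mem_cons, List.mem_append] at m
    rcases m with m | m | m | m
    · exact absurd (congrArg Prod.fst m) (hF y a)
    · exact m
    · exact absurd (congrArg Prod.fst m) (hF y a)
    have r : Rib [c, y, rev c, rev y] τ.2 := Ord.rib ht ⟨_, hk, .cons_cons _
      ((List.singleton_sublist.2 a).append (.cons_cons _ (List.singleton_sublist.2 m)))⟩ (by simp only [List.mem_cons, List.not_mem_nil, or_false, forall_eq_or_imp, true_or, or_true, rev_rev, forall_eq, and_self])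
    have c1 := ((Real.continuous_cosh.tendsto _).comp ha).sub_const 1
    have c2 := ((Real.continuous_cosh.tendsto _).comp
      ((continuous_len.tendsto _).comp b.tendsto)).sub_const 1
    have := ge_of_tendsto' (c1.mul c2) fun k => by
      have := ((hs k).tor hg r).cosh_le
      rwa [← dl, ← dl, len_dlab, len_dlab] at this
    norm_num at this
  have ch : (c :: (F ++ [rev c])).IsChain fun p q => q = τ.1 (rev p) :=
    List.IsChain.left_of_append (l₂ := F') (by simpa using hk.2.2)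
  have t2 : ∀ k x, 2 ≤ |tr (s k (τ.2 x))| := fun k x => ((hs k).hyp _ (hT.simp ht (x, true))).le
  have H := hp h hη ch hF ha hl t2 hx (hr x hx hb) hb
  obtain ⟨ε, e, N, a1, a2, a3, a4, a5, a6, a7, A₀, a8, a9⟩ :=
    ax (U := U) (A := fun k => dlab (fun x => s k (τ.2 x)) c) (by simpa only [len_dlab] using ha)
      (fun k => h.not_pm k c) hy
  have bc : Bn U (fun k x => s k (τ.2 x)) c.1 :=
    bn_of_le (R := 1) (ha.eventually (ge_mem_nhds one_pos))
  have pc : PM (dlab (L0 U fun k x => s k (τ.2 x)) c) 1 := by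
    rw [tendsto_nhds_unique bc.dl a8]
    rcases a1 with rfl | rfl
    · exact .inl (Subtype.ext (by simpa only [Matrix.SpecialLinearGroup.coe_one, one_smul] using a9))
    · exact .inr (Subtype.ext (by simpa using a9))
  set D := F.filter fun y => decide (Bn U (fun k x => s k (τ.2 x)) y.1) with hD
  have mD : ∀ y, y ∈ D ↔ y ∈ F ∧ Bn U (fun k x => s k (τ.2 x)) y.1 := fun y => by simp [hD]
  have cl : ∀ d ∈ c :: (D ++ [rev c]), rev d ∈ c :: (D ++ [rev c]) := fun d a => by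
    simp only [List.mem_cons, List.mem_append, List.not_mem_nil, or_false, mD] at a ⊢
    rcases a with rfl | a | rfl
    exacts [.inr (.inr rfl), .inr (.inl ⟨hr d a.1 a.2, a.2⟩), .inl (rev_rev _)]
  have R : Rib (c :: (D ++ [rev c])) τ.2 := Ord.rib ht ⟨_, hk, .cons_cons _
    (List.filter_sublist.append (.cons_cons _ (List.nil_sublist _)))⟩ cl
  obtain ⟨J, j, w, hj, hw, hall⟩ := r1_res cl
  have hj' := hj.prodMap (Function.injective_id (α := Bool))
  obtain ⟨c', w1, rfl, rfl, hw1⟩ := List.map_eq_cons_iff.1 hw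
  obtain ⟨D', w2, rfl, hD', hw2⟩ := List.map_eq_append_iff.1 hw1
  obtain ⟨c'', rfl, hc''⟩ := List.map_eq_singleton_iff.1 hw2
  obtain rfl : c'' = rev c' := hj' hc''
  have mD' : ∀ y, y ∈ D' ↔ Prod.map j id y ∈ D := fun y => by
    rw [← hD', List.mem_map_of_injective hj']
  refine r1_core hg (U := U) hall (l := fun y => τ.2 (j y))
    (Rib.ren (Prod.map j id) (fun _ => rfl) (hw ▸ R) (fun d _ => hall _) fun d _ => Cg.refl _)
    hs (L₀ := fun y => L0 U (fun k x => s k (τ.2 x)) (j y)) (fun y => Bn.tendsto ?_) a1 a2 a3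
    (by simpa only [dl, r1_dl] using a4) a5 a6 a7 pc (hT.simp ht (Prod.map j id c'))
    (fun d a => ?_) (fun a => ?_) ?_ (fun y a => ?_) fun A B y a => ?_
  · have := hall (y, true)
    simp only [List.mem_cons, List.mem_append, List.not_mem_nil, or_false, mD', mD] at this
    rcases this with a | a | a
    · exact (congrArg (fun d => j d.1) a : j y = j c'.1) ▸ bc
    · exact a.2
    · exact (congrArg (fun d => j d.1) a : j y = j c'.1) ▸ bc
  · rw [mD', mD] at a ⊢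
    exact ⟨hr _ a.1 a.2, a.2⟩
  · rw [a] at hD'
    exact List.ne_nil_of_mem ((mD x).2 ⟨hx, hb⟩) hD'.symm
  · intro Y y0 y1 y2
    obtain ⟨_, ⟨y, b1, b2, rfl⟩, b3⟩ := H Y y0 y1 y2
    obtain ⟨y', b4, rfl⟩ := List.mem_map.1 (hD' ▸ (mD y).2 ⟨b1, b2⟩)
    exact ⟨_, ⟨y', b4, rfl⟩, b3⟩
  · rw [mD', mD] at a
    exact a.2.not_pm hη fun k => hl k _ (hF _ a.1)
  · have b : Bn U (fun k x => s k (τ.2 x)) (rev (Prod.map j id y)).1 :=
      ((mD _).1 ((mD' y).1 (by simp [a]))).2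
    rw [a, List.map_append, List.map_cons, List.map_cons] at hD'
    obtain ⟨F₁, Y, F₂, rfl, hY⟩ := run (hD.symm.trans hD'.symm)
    have := par h (K := Y) b (by
      rw [rev_rev]
      exact chain_mid ch ⟨Prod.map j id c' :: F₁, F₂ ++ [rev (Prod.map j id c')], by simp; rfl⟩)
      fun z hz => by simpa using hY z hz
    rwa [dlab_rev, tr_inv] at this

theorem r1p (hg : 2 ≤ g) (hT : TAx g) {e : ℤ} (he : e ≤ 2 * g - 3) : R1p g e := by
  intro η₀ h0
  by_contra hn
  push Not at hn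
  simp only [ne_eq, and_true] at hn
  choose M z τ c h1 h2 h3 h4 h5 h6 h7 h8 using fun k : ℕ =>
    hn (1 / ((k : ℝ) + 1)) Nat.one_div_pos_of_nat
  obtain ⟨τ₀, c₀, s, p, r, ht, hr, H⟩ := red hT (hyperfilter ℕ) M z τ c fun k => ⟨h2 k, h3 k⟩
  have K := fun k => red_keep (H k).2.2
  have ld : LD τ₀.1 fun k x => s k (τ₀.2 x) :=
    ⟨fun k => ⟨ht.1, fun d => by
      rw [← map_fp]; exact (Cg.pm (H k).1.rel (cg_one.2 (hT.flat ht d))).trans (by simp [PM]),
      (H k).2.2.pos.2 (h4 _)⟩, fun k d => (K k d).2.2.1 ▸ h5 _ d⟩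
  obtain ⟨x, hx, hb⟩ := area_one (U := hyperfilter ℕ) ld (by omega) he (fun k => by
    rw [← hT.area (z (r k)) (h3 _) (h1 _)]
    exact Finset.sum_congr rfl fun d _ => (K k d).2.2.2.1) c₀.1
  have ha : Tendsto (fun k => len (s k (τ₀.2 c₀.1))) (hyperfilter ℕ) (𝓝 0) := by
    have t := (tendsto_one_div_add_atTop_nhds_zero_nat (𝕜 := ℝ)).mono_left
      (hyperfilter_le_cofinite.trans Nat.cofinite_eq_atTop.le)
    refine squeeze_zero' (Eventually.of_forall fun k => len_nonneg _) ?_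
      (by simpa using t.const_mul 2)
    filter_upwards [hr] with k hk
    have a := h7 (r k)
    rw [(H k).2.1, ← (K k c₀).2.1, len_xd, hk] at a
    have b := Real.self_le_sinh_iff.2 (div_nonneg (len_nonneg (s k (τ₀.2 c₀.1))) two_pos.le)
    simp only [one_div] at a ⊢
    linarith only [b, a]
  have hl : ∀ k x, x ≠ c₀.1 → 2 * Real.arsinh η₀ ≤ len (s k (τ₀.2 x)) := fun k x a => by
    have b := h8 (r k) (x, true) (by rwa [(H k).2.1])
    rw [← (K k _).2.1, len_xd] at b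
    have := Real.arsinh_le_arsinh.2 b
    rw [Real.arsinh_sinh] at this
    linarith only [this]
  have hη : 0 < 2 * Real.arsinh η₀ := by have := Real.arsinh_pos_iff.2 h0; positivity
  have hy : ∀ k, dlab (fun x => s k (τ₀.2 x)) c₀ 0 1 = dlab (fun x => s k (τ₀.2 x)) c₀ 1 0 :=
    fun k => ax_symm.1 ((K k c₀).2.2.2.2 ((H k).2.1 ▸ h6 (r k)))
  obtain ⟨W, hW⟩ := ht.2.lk ht.1.tri c₀
  obtain ⟨F, F', rfl⟩ := List.append_of_mem
    ((List.mem_cons.1 (hW.2.1 (rev c₀))).resolve_left (rev_ne c₀))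
  have m := hW.2.1 (x, true)
  simp only [List.mem_cons, List.mem_append] at m
  rcases m with m | m | m | m
  · exact hx (congrArg Prod.fst m)
  · exact r1_side hg hT ht (fun k => (H k).1) (fun _ _ => rfl) ld hη ha hl hy hW m hb
  · exact hx (congrArg Prod.fst m)
  · refine r1_side hg hT ht (fun k => (H k).1) (fun _ _ => rfl) ld (c := rev c₀) hη ha hl
      (fun k => ?_) (F := F') (F' := F)
      (by simpa using Lk.rot (A := c₀ :: F) (B := rev c₀ :: F') hW) m hb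
    rw [dlab_rev, basic_inv01, basic_inv10, hy]

end Pool.Agent.MP_596265_gt.U

end

section

/-! THIN, static part: two short edges. -/

namespace Pool.Agent.MP_596265_gt.U

open Erg UpperHalfPlane Filter Topology

variable {g : ℕ} {ι : Type}

theorem lcl_xd {E : Type} (L : E → G) (k : G) (d : Dr E) :
    Real.cosh (len (k⁻¹ * dlab L d * k)) - 1 = 2 * Stp.xd L (k • UpperHalfPlane.I) d ^ 2 := by
  have := Stp.ch_xs (k • UpperHalfPlane.I) (vQ L (k • UpperHalfPlane.I) d)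
  rw [Stp.xd, len, ← dist_smul k, mul_smul, mul_smul, smul_inv_smul]
  rw [ch, vQ] at this
  rw [vQ]
  linarith

theorem ulp (hg : 2 ≤ g) : ULp g := by
  intro R
  refine ⟨1 / (2 * (|R| + 1)), by positivity, fun M z l x y hM hx hy hr => ?_⟩
  obtain ⟨k, rfl⟩ := exists_smul_I z
  have h := ((hM.conj k⁻¹).tor hg hr).cosh_le
  simp only [MonoidHom.comp_apply, MulEquiv.coe_toMonoidHom, MulAut.conj_apply, inv_inv,
    ← DF.dlab_geo, lcl_xd] at h
  have x0 := Stp.xd_nonneg (geo M l) (k • UpperHalfPlane.I) x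
  have y0 := Stp.xd_nonneg (geo M l) (k • UpperHalfPlane.I) y
  have r0 : 0 < |R| + 1 := by positivity
  rw [le_div_iff₀ (by positivity)] at hx
  have := mul_le_mul_of_nonneg_left (hy.trans ((le_abs_self R).trans (lt_add_one _).le)) x0
  have := mul_nonneg x0 y0
  nlinarith

theorem lcl_lim {U : Ultrafilter ι} {A : ι → G} {R : ℝ}
    (h : ∀ᶠ k in U, Real.sinh (len (A k) / 2) ≤ R) : ∃ u, Tendsto A U (𝓝 u) := by
  obtain ⟨u, -, hu⟩ := (isCompact_len_le (2 * R)).ultrafilter_le_nhds (U.map A)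
    (le_principal_iff.2 (h.mono fun k hk => by
      have := (Real.self_le_sinh_iff (x := len (A k) / 2)).2 (by linarith [len_nonneg (A k)])
      show len (A k) ≤ 2 * R
      linarith only [hk, this]))
  exact ⟨u, hu⟩

theorem lcl_pm {U : Filter ι} [U.NeBot] {A : ι → G} {u : G} (h : Tendsto A U (𝓝 u))
    (h2 : ∀ k, 2 ≤ |tr (A k)|) (h0 : Tendsto (fun k => Real.sinh (len (A k) / 2)) U (𝓝 0)) :
    PM u 1 := by
  have c := fun i j => ((basic_cont i j).tendsto u).comp h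
  have t2 : 2 ≤ |tr u| := ge_of_tendsto' ((continuous_tr.tendsto u).comp h).abs h2
  have e : ∀ k, 2 * (((A k 0 0 - A k 1 1) / 2) ^ 2 + ((A k 0 1 + A k 1 0) / 2) ^ 2) =
      2 * Real.sinh (len (A k) / 2) ^ 2 := fun k => by
    rw [← aa_cosh, ← mul_div_cancel₀ (len (A k)) two_ne_zero, Real.cosh_two_mul,
      Real.cosh_sq', mul_div_cancel_left₀ _ two_ne_zero]
    ring
  have l := tendsto_nhds_unique
    ((((((c 0 0).sub (c 1 1)).div_const 2).pow 2).add
      ((((c 0 1).add (c 1 0)).div_const 2).pow 2)).const_mul 2)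
    (((h0.pow 2).const_mul 2).congr fun k => (e k).symm)
  have d := basic_det u
  have a := aa_half t2
  have e1 : u 0 0 = u 1 1 := by nlinarith only [l]
  have e2 : u 0 1 = -u 1 0 := by nlinarith only [l]
  rw [e1, e2] at d
  rw [e1] at a
  have e3 : u 1 0 = 0 := by nlinarith only [d, a]
  rw [e3] at d e2
  have e4 : u 1 1 = 1 ∨ u 1 1 = -1 := mul_self_eq_one_iff.1 (by linarith only [d])
  rcases e4 with e4 | e4
  · left
    apply basic_ext <;> simp [e1, e2, e3, e4]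
  · right
    apply basic_ext <;> simp [e1, e2, e3, e4]

theorem lcl_cl {U : Filter ι} {s : ι → Fr g →* G} {S : Set (Fr g)} (K : Subgroup G)
    (h : ∀ x ∈ S, ∃ u ∈ K, Tendsto (fun k => s k x) U (𝓝 u)) {x : Fr g}
    (hx : x ∈ Subgroup.closure S) : ∃ u ∈ K, Tendsto (fun k => s k x) U (𝓝 u) := by
  induction hx using Subgroup.closure_induction with
  | mem x hx => exact h x hx
  | one => exact ⟨1, K.one_mem, by simpa only [map_one] using tendsto_const_nhds⟩
  | mul x y _ _ a b =>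
    obtain ⟨u, a1, a2⟩ := a
    obtain ⟨v, b1, b2⟩ := b
    exact ⟨u * v, K.mul_mem a1 b1, by simpa only [map_mul] using a2.mul b2⟩
  | inv x _ a =>
    obtain ⟨u, a1, a2⟩ := a
    exact ⟨u⁻¹, K.inv_mem a1, by simpa only [map_inv, tendsto_inv_iff] using a2.inv⟩

/-- The centre. -/
def lcl_K : Subgroup G where
  carrier := {u | PM u 1}
  mul_mem' a b := by simpa using PM.mul a b
  one_mem' := PM.refl 1
  inv_mem' a := by simpa using PM.inv a

theorem lcl_four {U : Filter ι} [U.NeBot] {A X Y : ι → G} {A₀ X₀ Y₀ : G}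
    (h : ∀ k, ThW.Four (A k) (X k * Y k * A k)⁻¹ (X k)) (hA : Tendsto A U (𝓝 A₀))
    (hX : Tendsto X U (𝓝 X₀)) (hY : Tendsto Y U (𝓝 Y₀)) (h1 : PM X₀ 1) (h2 : PM Y₀ 1) : False := by
  have p : PM (X₀ * Y₀) 1 := by simpa using h1.mul h2
  have := ThW.F_lim (C := fun k => X₀ * X k)
    (Eventually.of_forall fun k => four_pm (h k) (PM.refl _) (PM.refl _)
      (by simpa using h1.mul (PM.refl (X k)))) hA ((hX.mul hY).mul hA).inv
    (by
      have : X₀ * X₀ = 1 := by rcases h1 with h | h <;> simp [h]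
      exact this ▸ hX.const_mul X₀)
    (by
      rcases p with p | p <;> simp [p, tr_neg, tr_one])
  rcases p with p | p
  · simp only [p, one_mul, mul_inv_cancel, tr_inv, tr_one] at this
    nlinarith only [this.2.2]
  · simp only [p, neg_mul, one_mul, inv_neg, mul_neg, mul_inv_cancel, tr_neg, tr_inv,
      tr_one] at this
    nlinarith only [this.2.2]

theorem clp (hg : 2 ≤ g) (hT : TAx g)
    (h2 : ∀ τ : MS g, MT τ → ∀ x y, Ord τ.1 [rev x, x, rev y, y] → Simp (dlab τ.2 x * dlab τ.2 y))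
    (h3 : ∀ τ : MS g, MT τ → ∀ x y z, Ord τ.1 [rev x, x, rev z, z, rev y, y] →
      Simp (dlab τ.2 x * dlab τ.2 y * dlab τ.2 z) ∨ (τ.1 (rev x) = rev z ∧ τ.1 (rev z) = rev y)) :
    CLp g := by
  intro R
  by_contra hn
  push Not at hn
  choose M z τ x y a hM ht n1 n2 n3 hx hy ha hf using
    fun k : ℕ => hn (1 / ((k : ℝ) + 1)) (by positivity)
  obtain ⟨τ₀, ⟨x₀, y₀, a₀⟩, s, p, r, t0, hr, hs⟩ :=
    red hT (Ultrafilter.of atTop) M z τ (fun k => (x k, y k, a k)) fun k => ⟨hM k, ht k⟩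
  have ex : ∀ k, x (r k) = x₀ := fun k => congrArg (·.1) (hs k).2.1
  have ey : ∀ k, y (r k) = y₀ := fun k => congrArg (·.2.1) (hs k).2.1
  have ea : ∀ k, a (r k) = a₀ := fun k => congrArg (·.2.2) (hs k).2.1
  have kn : ∀ k, τ₀.1 = (τ (r k)).1 := fun k => (red_keep (hs k).2.2 x₀).1
  have kx : ∀ k d, Real.sinh (len (s k (τ₀.2 d.1)) / 2) =
      Stp.xd (geo (M (r k)) (τ (r k)).2) (z (r k)) d := fun k d =>
    (len_xd (fun x => s k (τ₀.2 x)) d).symm.trans (red_keep (hs k).2.2 d).2.1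
  have t1 : Tendsto (fun k => 1 / ((r k : ℝ) + 1)) (Ultrafilter.of (atTop : Filter ℕ)) (𝓝 0) :=
    (tendsto_one_div_add_atTop_nhds_zero_nat.mono_left (Ultrafilter.of_le _)).congr'
      (hr.mono fun k e => by simp only [e])
  have xe : ∀ {L : Ed g → G} {w : ℍ} {d e : Dr (Ed g)}, d.1 = e.1 → Stp.xd L w d = Stp.xd L w e :=
    fun h => by
      rcases DF.eq_or_rev h with h | h <;> rw [h]
      exact Stp.xd_rev _ _ _
  rcases pat3 t0 (h2 τ₀ t0) (h3 τ₀ t0) (hT.simp t0) (x := x₀) (y := y₀) (a := a₀)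
    (ex 0 ▸ ey 0 ▸ n1 _) (ex 0 ▸ ea 0 ▸ n2 _) (ey 0 ▸ ea 0 ▸ n3 _) with
    ⟨u, v, hu, hv, ho⟩ | h | ⟨X, Y, Z, h4, hX, hY, hZ, s1, s2, s3, s4, s5⟩
  · obtain ⟨η, η0, hη⟩ := ulp hg (max R 1)
    obtain ⟨k, hk⟩ := (t1.eventually (eventually_le_nhds (lt_min η0 one_pos))).exists
    have b1 := (hx (r k)).trans hk
    have b2 := (hy (r k)).trans hk
    have b3 := ha (r k)
    rw [ex] at b1
    rw [ey] at b2
    rw [ea] at b3
    refine hη (M (r k)) (z (r k)) (τ (r k)).2 u v (hM _) ?_ ?_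
      (Ord.rib (ht _) (kn k ▸ ho) (by simp only [List.mem_cons, List.not_mem_nil, or_false, forall_eq_or_imp, true_or, or_true, rev_rev, forall_eq, and_self]))
    · rcases hu with h | h <;> rw [xe h]
      exacts [b1.trans (min_le_left _ _), b2.trans (min_le_left _ _)]
    · rcases hv with h | h | h <;> rw [xe h]
      exacts [b1.trans ((min_le_right _ _).trans (le_max_right _ _)),
        b2.trans ((min_le_right _ _).trans (le_max_right _ _)), b3.trans (le_max_left _ _)]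
  · exact hf (r 0) (by rw [ex, ey, ea, ← kn]; exact h)
  · have sh : ∀ d : Dr (Ed g), (∀ k, Stp.xd (geo (M (r k)) (τ (r k)).2) (z (r k)) d ≤
        1 / ((r k : ℝ) + 1)) → ∃ u ∈ lcl_K, Tendsto (fun k => s k (τ₀.2 d.1))
          (Ultrafilter.of (atTop : Filter ℕ)) (𝓝 u) := fun d h => by
      have t : Tendsto (fun k => Real.sinh (len (s k (τ₀.2 d.1)) / 2))
          (Ultrafilter.of (atTop : Filter ℕ)) (𝓝 0) :=
        squeeze_zero (fun k => kx k d ▸ Stp.xd_nonneg _ _ _) (fun k => kx k d ▸ h k) t1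
      obtain ⟨u, hu⟩ := lcl_lim (t.eventually (eventually_le_nhds one_pos))
      exact ⟨u, lcl_pm hu (fun k => ((hs k).1.hyp _ (hT.simp t0 (d.1, true))).le) t, hu⟩
    have a1 := sh x₀ fun k => ex k ▸ hx (r k)
    have a2 := sh y₀ fun k => ey k ▸ hy (r k)
    have a3 := lcl_lim (U := Ultrafilter.of atTop) (A := fun k => s k (τ₀.2 a₀.1))
      (Eventually.of_forall fun k => (kx k a₀).le.trans (ea k ▸ ha (r k)))
    have c : ∀ w ∈ ({τ₀.2 x₀.1, τ₀.2 y₀.1} : Set (Fr g)), ∃ u ∈ lcl_K,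
        Tendsto (fun k => s k w) (Ultrafilter.of (atTop : Filter ℕ)) (𝓝 u) := by
      rintro _ (rfl | rfl)
      exacts [a1, a2]
    obtain ⟨X₀, p1, q1⟩ := lcl_cl _ c hX
    obtain ⟨Y₀, p2, q2⟩ := lcl_cl _ c hY
    obtain ⟨Z₀, -, q3⟩ := lcl_cl ⊤ (by
      rintro _ (rfl | rfl | rfl)
      exacts [a1.imp fun _ h => ⟨trivial, h.2⟩, a2.imp fun _ h => ⟨trivial, h.2⟩,
        a3.imp fun _ h => ⟨trivial, h⟩]) hZ
    exact lcl_four (fun k => by
      simpa only [map_mul] using ((hs k).1.four h4 ((hs k).1.ne s1) ((hs k).1.ne s2)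
        ((hs k).1.ne s3) ((hs k).1.ne s4) ((hs k).1.ne s5)).1) q3 q1 q2 p1 p2

end Pool.Agent.MP_596265_gt.U

end

section

/-! THIN: the lower bound for the edges from the static part and the motion. -/

namespace Pool.Agent.MP_596265_gt.U

open Erg Real UpperHalfPlane MeasureTheory

variable {g : ℕ} {e : ℤ}

namespace T1G

theorem split {α : Type} {a : α} {u L : List α} (h : (a :: u).Sublist L) :
    ∃ A B, L = A ++ a :: B ∧ u.Sublist B := by
  obtain ⟨r, s, rfl, m, k⟩ := List.cons_sublist_iff.1 h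
  obtain ⟨A, B, rfl⟩ := List.append_of_mem m
  exact ⟨A, B ++ s, by simp, k.trans (List.sublist_append_right _ _)⟩

theorem pair_of {E : Type} {n : Nx E} {p q : Dr E} (h : Ord n [rev p, p, rev q, q]) :
    Mot.Pair n (rev p) (rev q) := by
  obtain ⟨L, hL, h⟩ := h
  obtain ⟨A₀, _, rfl, h1⟩ := split h
  obtain ⟨A₁, _, rfl, h2⟩ := split h1
  obtain ⟨A₂, _, rfl, h3⟩ := split h2
  obtain ⟨A₃, A₄, rfl, -⟩ := split h3
  refine ⟨A₂, A₃, A₄ ++ A₀, A₁, ?_⟩
  have := Lk.rot (A := A₀ ++ rev p :: A₁) (B := p :: (A₂ ++ rev q :: (A₃ ++ q :: A₄)))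
    (by simpa using hL)
  simpa using this

theorem of_pair {E : Type} {n : Nx E} {x y : Dr E} (h : Mot.Pair n x y) :
    Ord n [rev (rev x), rev x, rev (rev y), rev y] := by
  obtain ⟨A, B, C, D, h⟩ := h
  refine ⟨_, Lk.rot (A := rev x :: (A ++ y :: (B ++ rev y :: C))) (B := x :: D)
    (by simpa using h), ?_⟩
  rw [rev_rev, rev_rev]
  exact .cons_cons _ (List.sublist_append_of_sublist_right (.cons_cons _
    (List.sublist_append_of_sublist_right (.cons_cons _
      (List.sublist_append_of_sublist_right (.cons_cons _ (List.nil_sublist _)))))))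

theorem kap_inv (x y : G) : kap x⁻¹ y⁻¹ = kap x y := by
  rw [kap, kap, show x * y * x⁻¹ * y⁻¹ = x * y * (x⁻¹ * y⁻¹ * x⁻¹⁻¹ * y⁻¹⁻¹) * (x * y)⁻¹ by group,
    tr_conj]

theorem xd_fst {E : Type} (L : E → G) (z : ℍ) {p x : Dr E} (h : p.1 = x.1) :
    Stp.xd L z p = Stp.xd L z x := by
  rcases DF.eq_or_rev h with rfl | rfl
  · rfl
  · rw [Mot.xd_eq, Mot.xd_eq, dlab_rev, Mot.xg_inv]

end T1G

open T1G in
theorem mo_of (hg : 2 ≤ g) (hT : TAx g) : ∃ η > 0, ∀ η' ≤ η, ∀ M : Tup g,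
    Gd (FreeGroup.lift M) → Mot.Mo η' M := by
  have h2 : ∀ τ : MS g, MT τ → ∀ x y, Ord τ.1 [rev x, x, rev y, y] →
      Simp (dlab τ.2 x * dlab τ.2 y) := fun τ h x y ⟨_, a, b⟩ => nb2 h.1.tri h.2 a b
  obtain ⟨η₁, a1, hC⟩ := clp hg hT h2 (fun τ h x y z ⟨_, a, b⟩ => nb3 h.1.tri h.2 a b) 1
  obtain ⟨η₂, a2, hU⟩ := ulp hg 1
  refine ⟨min 1 (min η₁ η₂), by positivity, fun η hη M G => ?_⟩
  obtain ⟨b0, b1, b2⟩ : η ≤ 1 ∧ η ≤ η₁ ∧ η ≤ η₂ := by simpa only [le_inf_iff] using hη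
  refine ⟨G.rel, fun ψ hψ => ⟨fun k => ?_, fun h p q => ?_⟩, fun h d => ?_,
    fun {τ x y} h p => ?_, fun {τ z x y} h c p q => ?_,
    fun h c c' c'' p q r => hC M _ _ _ _ _ G h c c' c'' (p.trans b1) (q.trans b1) r⟩
  · rw [add_zero]; exact (G.th ψ hψ).1 k
  · rw [add_zero, pre_eq, lift_act]; exact (G.th ψ hψ).2.1 h p q
  · rw [dlab_geo]; exact G.hyp _ (hT.simp h d)
  · have o := of_pair p
    have := G.gn _ _ (o.rib h (by simp only [rev_rev, List.mem_cons, List.not_mem_nil, or_false, forall_eq_or_imp, true_or, or_true, forall_eq, and_self])).pant (G.ne (hT.simp h _)) (G.ne (hT.simp h _))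
      (G.ne (h2 τ h _ _ o))
    rwa [dlab_rev, dlab_rev, map_inv, map_inv, T1G.kap_inv, ← dlab_geo, ← dlab_geo] at this
  · obtain ⟨u, v, e1, e2, o | o⟩ := pat2 h c
    · exact absurd (o.rib h (by simp only [List.mem_cons, List.not_mem_nil, or_false, forall_eq_or_imp, true_or, or_true, rev_rev, forall_eq, and_self])) (hU M z τ.2 u v G
        ((xd_fst _ _ e1).trans_le (p.trans b2)) ((xd_fst _ _ e2).trans_le (q.trans b0)))
    · exact ⟨rev u, rev v, e1, e2, pair_of o⟩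

theorem t1p (hg : 3 ≤ g) (he : e ≤ 2 * g - 3) (hT : TAx g) (hA : DAx g)
    (hN : ∀ᵐ M ∂mu g e, ¬ HasEll M → ∀ X Y, Pant X Y → X ∉ NN g → Y ∉ NN g → X * Y ∉ NN g →
      kap (FreeGroup.lift M X) (FreeGroup.lift M Y) ≠ 2) : T1P g e := by
  obtain ⟨η, a, hM⟩ := mo_of (by omega) hT
  obtain ⟨h, h0, h1, h2⟩ : ∃ h : ℝ, 0 < h ∧ h ≤ 1 / 100 ∧ 10 * h ≤ η :=
    ⟨min (1 / 100) (η / 10), by positivity, min_le_left _ _,
      by linarith only [min_le_right (1 / 100) (η / 10)]⟩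
  obtain ⟨η₁, b, hR⟩ := r1p (by omega) hT he h h0
  filter_upwards [gd_ae hg e hN] with M c d τ t p
  obtain ⟨X, G⟩ := c d
  refine ⟨2 * arsinh (min h η₁), mul_pos two_pos (arsinh_pos_iff.2 (lt_min h0 b)),
    fun z τ' l D x => le_of_not_gt fun s => ?_⟩
  have s' : Stp.xd (geo M τ'.2) z x ≤ min h η₁ := by
    rw [← sinh_arsinh (min h η₁)]
    exact sinh_le_sinh.2 (by linarith only [s])
  obtain ⟨t', p'⟩ := (thg_ok hT G.rel l).1 ⟨t, p⟩
  obtain ⟨w, σ, c, k1, k2, k3, k4, k5, k6⟩ :=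
    Mot.exit hT hA (hM _ h2 M G) h0 h1 t' p' D (s'.trans (min_le_left _ _))
  exact hR M w σ c X G k1 k2 k3 k4 (k5.trans (s'.trans (min_le_right _ _))) k6

end Pool.Agent.MP_596265_gt.U

end

section

/-! Block THIN. -/

namespace Pool.Agent.MP_596265_gt.U

open Erg

theorem thinP {g : ℕ} {e : ℤ} (hg : 3 ≤ g) (h1 : 1 ≤ e) (he : e ≤ 2 * g - 3) (hT : TAx g)
    (hD : DAx g) : ThinP g e :=
  thin_of hg h1 hT hD
    (t1p hg he hT hD ((gn2_ae hg e).mono fun _ h a X Y p x y z => h a X Y (p.nf hg x y z)))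
    fun _ hM _ hη _ _ a b c => t2 hT hD (by omega) (by omega) hM hη a b c

end Pool.Agent.MP_596265_gt.U

end
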