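import Pool.Agent.MP_596265_gt.Defs
import Pool.Agent.MP_596265_gt.B3
import Pool.Agent.MP_596265_gt.W.L0
import Pool.Agent.MP_596265_gt.W.H0

attribute [-instance] Valued.toUniformSpace AddQuantale.instAddLeftMono LieAdmissibleAlgebra.toModule
  IdemSemiring.toCanonicallyOrderedAdd ProperSMul.toContinuousSMul RightPreLieAlgebra.toModule
  LeftPreLieAlgebra.toModule IsTopologicalTorsor.toContinuousSMul
  NonarchimedeanRing.toIsTopologicalRing RKHS.instFunLike NumberField.to_charZero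
  AddQuantale.instAddRightMono Group.IsPerfect.subsingleton_of_isMulCommutative
  LinearOrderedCommMonoidWithZero.toPosMulStrictMono instCoeTCOfCoe
  instDiscreteTopologyOfAlexandrovDiscreteOfT1Space Quantale.instMulRightMono
  Valued.isTopologicalDivisionRing DiscreteUniformity.instDiscreteTopology
  AddSubgroup.seminormedAddCommGroup GradedMonoid.GradeZero.smul CStarAlgebra.instOrderClosedTopology
  MonTypeEquivalenceMon.monMonoid NonarchimedeanAddGroup.toIsTopologicalAddGroup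
  covariant_swap_mul_of_covariant_mul NonUnitalNonAssocSemiring.toAddCommMonoid
  TotallySeparatedSpace.t2Space SMulWithZero.toSMulZeroClass IsScalarTower.complexToReal
  instCoeHTCOfCoeHeadOfCoeOTC continuousSub_of_indiscreteTopology IsOrderedMonoid.toMulLeftMono
  instCoeHTCTOfCoeTailOfCoeHTC Topology.IsScott.instClosedIicTopologyOfUnivSet
  Finite.instDiscreteTopology instTopologicalSpaceSubtype NonUnitalNonAssocRing.toAddCommGroup
  littleWedderburn ENormedAddCommMonoid.toESeminormedAddCommMonoid instCoeTOfCoeDep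
  LieAdmissibleRing.toNonUnitalNonAssocRing Quantale.instMulLeftMono
  LinearOrderedCommMonoidWithZero.toIsBotZeroClass TestFunctionClass.toDFunLike
  SemigroupWithZero.toSemigroup NonAssocSemiring.toAddCommMonoidWithOne
  GrpTypeEquivalenceGrp.grpGroup ContDiffMapSupportedInClass.toDFunLike
  SubsemiringClass.toCommSemiring ESeminormedAddMonoid.toAddMonoid Bialgebra.toAlgebra
  IdemSemiring.toMulLeftMono

section

/-! A nonzero holomorphic quadratic differential on the upper half plane has a discrete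
stabiliser as soon as the stabiliser has two non commuting elements of nonzero trace. -/

namespace Pool.Agent.MP_596265_gt.U.RG

open Filter Topology

noncomputable section

/-- The upper half plane as a subset of the plane. -/
def HP : Set ℂ := {z | 0 < z.im}

/-- Automorphy factor. -/
def jj (γ : G) (z : ℂ) : ℂ := (γ 1 0 : ℝ) * z + (γ 1 1 : ℝ)

/-- Moebius action on the plane. -/
def mob (γ : G) (z : ℂ) : ℂ := ((γ 0 0 : ℝ) * z + (γ 0 1 : ℝ)) / jj γ z

/-- `Q dz^2` is invariant under `γ`. -/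
def QInv (Q : ℂ → ℂ) (γ : G) : Prop := ∀ z ∈ HP, Q (mob γ z) = jj γ z ^ 4 * Q z

theorem HP_open : IsOpen HP := isOpen_lt continuous_const Complex.continuous_im

theorem HP_convex : Convex ℝ HP := convex_halfSpace_im_gt 0

theorem det_eq (γ : G) : γ 0 0 * γ 1 1 - γ 0 1 * γ 1 0 = 1 := by
  have := γ.det_coe
  rwa [Matrix.det_fin_two] at this

theorem jj_ne (γ : G) {z : ℂ} (hz : z ∈ HP) : jj γ z ≠ 0 := by
  intro h
  have hz' : 0 < z.im := hz
  have h1 := congrArg Complex.im h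
  have h2 := congrArg Complex.re h
  simp only [jj, Fin.isValue, Complex.add_im, Complex.mul_im, Complex.ofReal_re, Complex.ofReal_im, zero_mul, add_zero, Complex.zero_im, mul_eq_zero, Complex.add_re, Complex.mul_re, sub_zero, Complex.zero_re] at h1 h2
  have hd := det_eq γ
  rcases h1 with h1 | h1
  · rw [h1] at h2 hd
    simp at h2
    rw [h2] at hd
    simp at hd
  · exact hz'.ne' h1

theorem mob_im (γ : G) {z : ℂ} (hz : z ∈ HP) :
    (mob γ z).im = z.im / Complex.normSq (jj γ z) := by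
  have hn : Complex.normSq (jj γ z) ≠ 0 := by simpa using jj_ne γ hz
  have hd := det_eq γ
  rw [mob, Complex.div_im]
  field_simp
  simp [jj]
  linear_combination z.im * hd

theorem mob_mem (γ : G) {z : ℂ} (hz : z ∈ HP) : mob γ z ∈ HP := by
  have hz' : 0 < z.im := hz
  change 0 < (mob γ z).im
  rw [mob_im γ hz]
  exact div_pos hz' (Complex.normSq_pos.2 (jj_ne γ hz))

/-- The vector field of a traceless matrix. -/
def kv (a b c : ℝ) (z : ℂ) : ℂ := -(c : ℂ) * z ^ 2 + 2 * a * z + b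

theorem kv_zero {a b c : ℝ} {U : Set ℂ} (hU : U.Infinite) (h : ∀ z ∈ U, kv a b c z = 0) :
    a = 0 ∧ b = 0 ∧ c = 0 := by
  obtain ⟨s, hs, hc⟩ := hU.exists_subset_card_eq 3
  obtain ⟨x, y, w, hxy, hxw, hyw, rfl⟩ := Finset.card_eq_three.1 hc
  have hx := h x (hs (by simp))
  have hy := h y (hs (by simp))
  have hw := h w (hs (by simp))
  unfold kv at hx hy hw
  have e1 : -(c : ℂ) * (x + y) + 2 * a = 0 :=
    mul_left_cancel₀ (sub_ne_zero.2 hxy) (by linear_combination hx - hy)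
  have e2 : -(c : ℂ) * (x + w) + 2 * a = 0 :=
    mul_left_cancel₀ (sub_ne_zero.2 hxw) (by linear_combination hx - hw)
  have e3 : (c : ℂ) = 0 :=
    mul_left_cancel₀ (sub_ne_zero.2 hyw) (by linear_combination e2 - e1)
  have e4 : (a : ℂ) = 0 := by rw [e3] at e1; linear_combination e1 / 2
  have e5 : (b : ℂ) = 0 := by rw [e3, e4] at hx; linear_combination hx
  exact ⟨by exact_mod_cast e4, by exact_mod_cast e5, by exact_mod_cast e3⟩

theorem HP_inf : HP.Infinite :=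
  infinite_of_mem_nhds Complex.I (HP_open.mem_nhds (by simp [HP]))

/-- Infinitesimal invariance from a sequence of stabilising elements tending to one. -/
theorem lie_of_seq {Q : ℂ → ℂ} (hQ : DifferentiableOn ℂ Q HP)
    (h : ∀ δ > 0, ∃ γ : G, QInv Q γ ∧ γ ≠ 1 ∧ ∀ i j, |γ i j - (1 : G) i j| < δ) :
    ∃ a b c : ℝ, ¬ (a = 0 ∧ b = 0 ∧ c = 0) ∧
      ∀ z ∈ HP, deriv Q z * kv a b c z = 4 * (c * z - a) * Q z := by
  choose γ hγ hne hlt using fun n : ℕ => h (1 / ((n : ℝ) + 1)) (by positivity)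
  let D : ℕ → Fin 2 → Fin 2 → ℝ := fun n i j => γ n i j - (1 : G) i j
  let ε : ℕ → ℝ := fun n => ‖D n‖
  have hε : ∀ n, 0 < ε n := fun n => norm_pos_iff.2 fun h0 => hne n (by
    ext i j
    have := congrFun (congrFun h0 i) j
    simpa only [Matrix.SpecialLinearGroup.coe_one, D, Pi.zero_apply, sub_eq_zero] using this)
  have hε0 : Tendsto ε atTop (𝓝 0) := by
    refine squeeze_zero (fun n => (hε n).le) (fun n => ?_) tendsto_one_div_add_atTop_nhds_zero_nat
    refine (pi_norm_le_iff_of_nonneg (by positivity)).2 fun i => ?_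
    exact (pi_norm_le_iff_of_nonneg (by positivity)).2 fun j => (hlt n i j).le
  let Y : ℕ → Fin 2 → Fin 2 → ℝ := fun n => (ε n)⁻¹ • D n
  have hY : ∀ n, Y n ∈ Metric.sphere (0 : Fin 2 → Fin 2 → ℝ) 1 := fun n => by
    simp only [mem_sphere_zero_iff_norm, Y, norm_smul, norm_inv, Real.norm_eq_abs,
      abs_of_pos (hε n)]
    exact inv_mul_cancel₀ (hε n).ne'
  obtain ⟨Z, hZ, φ, hφ, hlim⟩ := (isCompact_sphere (0 : Fin 2 → Fin 2 → ℝ) 1).tendsto_subseq hY
  have hl : ∀ i j, Tendsto (fun n => Y (φ n) i j) atTop (𝓝 (Z i j)) := fun i j =>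
    tendsto_pi_nhds.1 (tendsto_pi_nhds.1 hlim i) j
  have he : Tendsto (fun n => ε (φ n)) atTop (𝓝 0) := hε0.comp hφ.tendsto_atTop
  have hent : ∀ n i j, γ n i j = (1 : G) i j + ε n * Y n i j := fun n i j => by
    have := (hε n).ne'
    simp only [Y, D, Pi.smul_apply, smul_eq_mul]
    field_simp
    ring
  have h00 : ∀ n, γ n 0 0 = 1 + ε n * Y n 0 0 := fun n => by simpa using hent n 0 0
  have h01 : ∀ n, γ n 0 1 = ε n * Y n 0 1 := fun n => by simpa using hent n 0 1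
  have h10 : ∀ n, γ n 1 0 = ε n * Y n 1 0 := fun n => by simpa using hent n 1 0
  have h11 : ∀ n, γ n 1 1 = 1 + ε n * Y n 1 1 := fun n => by simpa using hent n 1 1
  have htr : Z 1 1 = -Z 0 0 := by
    have h1 : ∀ n, Y n 0 0 + Y n 1 1 = -(ε n * (Y n 0 0 * Y n 1 1 - Y n 0 1 * Y n 1 0)) :=
      fun n => by
        have hd := det_eq (γ n)
        rw [h00, h01, h10, h11] at hd
        exact mul_left_cancel₀ (hε n).ne' (by linear_combination hd)
    have h2 := (hl 0 0).add (hl 1 1)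
    have h3 := (he.mul (((hl 0 0).mul (hl 1 1)).sub ((hl 0 1).mul (hl 1 0)))).neg
    have h4 := tendsto_nhds_unique h2 (h3.congr fun n => (h1 _).symm)
    linarith
  refine ⟨Z 0 0, Z 0 1, Z 1 0, ?_, fun z hz => ?_⟩
  · rintro ⟨a, b, c⟩
    have : Z = 0 := by
      ext i j
      fin_cases i <;> fin_cases j <;> simp [a, b, c, htr]
    simp [this] at hZ
  have hc : ∀ i j, Tendsto (fun n => ((Y (φ n) i j : ℝ) : ℂ)) atTop (𝓝 ((Z i j : ℝ) : ℂ)) :=
    fun i j => (Complex.continuous_ofReal.tendsto _).comp (hl i j)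
  have hec : Tendsto (fun n => ((ε (φ n) : ℝ) : ℂ)) atTop (𝓝 0) := by
    simpa [Function.comp_def] using (Complex.continuous_ofReal.tendsto _).comp he
  let y : ℕ → ℂ := fun n => (Y n 1 0 : ℝ) * z + (Y n 1 1 : ℝ)
  have hy : Tendsto (fun n => y (φ n)) atTop (𝓝 ((Z 1 0 : ℝ) * z + (Z 1 1 : ℝ))) :=
    ((hc 1 0).mul_const z).add (hc 1 1)
  have hj : ∀ n, jj (γ n) z = 1 + (ε n : ℝ) * y n := fun n => by
    simp only [jj, h10, h11, y]
    push_cast
    ring
  have hjl : Tendsto (fun n => jj (γ (φ n)) z) atTop (𝓝 1) := by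
    simpa [hj] using (hec.mul hy).const_add 1
  let p : ℕ → ℂ := fun n => ((Y n 0 0 : ℝ) * z + (Y n 0 1 : ℝ) - z * y n) / jj (γ n) z
  have hp : Tendsto (fun n => p (φ n)) atTop (𝓝 (kv (Z 0 0) (Z 0 1) (Z 1 0) z)) := by
    have := ((((hc 0 0).mul_const z).add (hc 0 1)).sub (hy.const_mul z)).div hjl one_ne_zero
    have e : ((Z 0 0 : ℝ) * z + (Z 0 1 : ℝ) - z * ((Z 1 0 : ℝ) * z + (Z 1 1 : ℝ))) / 1 =
        kv (Z 0 0) (Z 0 1) (Z 1 0) z := by
      rw [htr, kv]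
      push_cast
      ring
    rw [e] at this
    exact this
  have hm : ∀ n, mob (γ n) z = z + (ε n : ℝ) * p n := fun n => by
    have h0 := jj_ne (γ n) hz
    simp only [mob, p, h00, h01]
    field_simp
    rw [hj]
    push_cast
    ring
  have hd : HasDerivAt Q (deriv Q z) z := (hQ.differentiableAt (HP_open.mem_nhds hz)).hasDerivAt
  have hεc : ∀ n, ((ε n : ℝ) : ℂ) ≠ 0 := fun n => by exact_mod_cast (hε n).ne'
  have hA := (hd.hasFDerivAt.hasFDerivWithinAt (s := Set.univ)).lim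
    (c := fun n => (((ε (φ n) : ℝ) : ℂ))⁻¹) (d := fun n => (ε (φ n) : ℝ) * p (φ n))
    (v := kv (Z 0 0) (Z 0 1) (Z 1 0) z) (l := atTop) (by simpa using hec.mul hp) (by simp)
    (hp.congr fun n => by have := hεc (φ n); simp only [smul_eq_mul]; field_simp)
  have hB : Tendsto (fun n => y (φ n) * (jj (γ (φ n)) z ^ 3 + jj (γ (φ n)) z ^ 2 +
      jj (γ (φ n)) z + 1) * Q z) atTop
      (𝓝 (((Z 1 0 : ℝ) * z + (Z 1 1 : ℝ)) * (1 ^ 3 + 1 ^ 2 + 1 + 1) * Q z)) :=
    (hy.mul ((((hjl.pow 3).add (hjl.pow 2)).add hjl).add_const 1)).mul_const _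
  have hAB := tendsto_nhds_unique hA (hB.congr fun n => by
    have := hεc (φ n)
    rw [← hm, hγ _ z hz, hj, smul_eq_mul]
    field_simp
    ring)
  rw [htr] at hAB
  simp at hAB
  linear_combination hAB

theorem comm_of_cross {a b c u q r u' q' r' : ℝ} (h : ¬ (a = 0 ∧ b = 0 ∧ c = 0))
    (h1 : a * q = b * u) (h2 : a * r = c * u) (h3 : b * r = c * q)
    (k1 : a * q' = b * u') (k2 : a * r' = c * u') (k3 : b * r' = c * q') :
    q * r' = q' * r ∧ u * q' = u' * q ∧ u * r' = u' * r := by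
  by_cases ha : a = 0
  · by_cases hb : b = 0
    · have hc : c ≠ 0 := fun hc => h ⟨ha, hb, hc⟩
      exact ⟨mul_left_cancel₀ hc (by linear_combination r * k3 - r' * h3),
        mul_left_cancel₀ hc (by subst ha hb; linear_combination u' * h3 - q' * h2),
        mul_left_cancel₀ hc (by linear_combination r * k2 - r' * h2)⟩
    · exact ⟨mul_left_cancel₀ hb (by linear_combination q * k3 - q' * h3),
        mul_left_cancel₀ hb (by linear_combination q * k1 - q' * h1),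
        mul_left_cancel₀ hb (by subst ha; linear_combination r * k1 - r' * h1)⟩
  · have e : u * r' = u' * r := mul_left_cancel₀ ha (by linear_combination u * k2 - u' * h2)
    exact ⟨mul_left_cancel₀ ha (by linear_combination r' * h1 - r * k1 + b * e),
      mul_left_cancel₀ ha (by linear_combination u * k1 - u' * h1), e⟩

theorem kv_deriv (a b c : ℝ) (z : ℂ) : HasDerivAt (kv a b c) (-2 * (c * z - a)) z := by
  have := ((((hasDerivAt_id z).pow 2).const_mul (-(c : ℂ))).add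
    ((hasDerivAt_id z).const_mul (2 * (a : ℂ)))).add_const (b : ℂ)
  refine HasDerivAt.congr_deriv (f := kv a b c) this ?_
  simp
  ring

/-- An element of nonzero trace stabilising `Q` commutes with an infinitesimal symmetry. -/
theorem cross_of_lie {Q : ℂ → ℂ} (hQ : DifferentiableOn ℂ Q HP) (hne : ∃ z ∈ HP, Q z ≠ 0)
    {a b c : ℝ} (h0 : ¬ (a = 0 ∧ b = 0 ∧ c = 0))
    (hL : ∀ z ∈ HP, deriv Q z * kv a b c z = 4 * (c * z - a) * Q z) {γ : G} (hγ : QInv Q γ)
    (ht : γ 0 0 + γ 1 1 ≠ 0) :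
    a * γ 0 1 = b * ((γ 0 0 - γ 1 1) / 2) ∧ a * γ 1 0 = c * ((γ 0 0 - γ 1 1) / 2) ∧
      b * γ 1 0 = c * γ 0 1 := by
  have hd : ∀ z ∈ HP, HasDerivAt (fun w => Q w * kv a b c w ^ 2) 0 z := fun z hz => by
    have := (hQ.differentiableAt (HP_open.mem_nhds hz)).hasDerivAt.mul ((kv_deriv a b c z).pow 2)
    refine HasDerivAt.congr_deriv (f := fun w => Q w * kv a b c w ^ 2) this ?_
    simp only [Pi.pow_apply, Nat.cast_ofNat, Nat.add_one_sub_one, pow_one, neg_mul, mul_neg]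
    linear_combination (kv a b c z) * hL z hz
  obtain ⟨k, hk⟩ := HP_open.exists_is_const_of_deriv_eq_zero HP_convex.isPreconnected
    (f := fun w => Q w * kv a b c w ^ 2)
    (fun z hz => (hd z hz).differentiableAt.differentiableWithinAt) fun z hz => (hd z hz).deriv
  have hk0 : k ≠ 0 := by
    rintro rfl
    obtain ⟨z, hz, hqz⟩ := hne
    have h1 : ∀ᶠ w in 𝓝 z, Q w ≠ 0 :=
      (hQ.differentiableAt (HP_open.mem_nhds hz)).continuousAt.eventually_ne hqz
    refine h0 (kv_zero (infinite_of_mem_nhds z (h1.and (HP_open.mem_nhds hz))) fun w hw => ?_)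
    have := hk w hw.2
    simpa [hw.1] using this
  obtain ⟨p, hp⟩ : ∃ p, γ 0 0 = p := ⟨_, rfl⟩
  obtain ⟨q, hq⟩ : ∃ p, γ 0 1 = p := ⟨_, rfl⟩
  obtain ⟨r, hr⟩ : ∃ p, γ 1 0 = p := ⟨_, rfl⟩
  obtain ⟨s, hs⟩ : ∃ p, γ 1 1 = p := ⟨_, rfl⟩
  have hdet := det_eq γ
  rw [hp, hq, hr, hs] at hdet ⊢
  rw [hp, hs] at ht
  set a' := a * (p * s + q * r) + b * r * s - c * p * q with ha'
  set b' := 2 * a * q * s + b * s ^ 2 - c * q ^ 2 with hb'
  set c' := c * p ^ 2 - 2 * a * p * r - b * r ^ 2 with hc'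
  have hR : ∀ z ∈ HP, kv (a' - a) (b' - b) (c' - c) z = 0 ∨ kv (a' + a) (b' + b) (c' + c) z = 0 := by
    intro z hz
    have h1 := hk z hz
    have h2 := hk _ (mob_mem γ hz)
    have hqz : Q z ≠ 0 := fun h => hk0 (by simpa [h] using h1.symm)
    have hj := jj_ne γ hz
    have h3 : jj γ z ^ 2 * kv a b c (mob γ z) = kv a' b' c' z := by
      simp only [kv, mob]
      field_simp
      simp only [jj, hp, hq, hr, hs, ha', hb', hc']
      push_cast
      ring
    rw [hγ z hz] at h2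
    have h4 : kv a' b' c' z ^ 2 = kv a b c z ^ 2 :=
      mul_left_cancel₀ hqz (by rw [← h3]; linear_combination h2 - h1)
    refine mul_eq_zero.1 ?_
    simp only [kv] at h4 ⊢
    push_cast
    linear_combination h4
  have hU : HP ⊆ {z | kv (a' - a) (b' - b) (c' - c) z = 0} ∪
      {z | kv (a' + a) (b' + b) (c' + c) z = 0} := hR
  rcases Set.infinite_union.1 (HP_inf.mono hU) with h | h
  · obtain ⟨e1, e2, e3⟩ := kv_zero h fun z hz => hz
    rw [ha'] at e1
    rw [hb'] at e2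
    rw [hc'] at e3
    refine ⟨?_, ?_, ?_⟩
    · linear_combination (p * e2 - q * e1 - (a * q + b * s) * hdet) / 2
    · linear_combination (-(s * e3) - r * e1 + (c * p - a * r) * hdet) / 2
    · linear_combination p * e1 + q * e3 - (a * p + b * r) * hdet
  · obtain ⟨e1, e2, e3⟩ := kv_zero h fun z hz => hz
    rw [ha'] at e1
    rw [hb'] at e2
    rw [hc'] at e3
    have f1 : b = 0 := mul_left_cancel₀ ht (by
      linear_combination p * e2 - q * e1 - (a * q + b * s) * hdet)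
    have f2 : c = 0 := mul_left_cancel₀ ht (by
      linear_combination s * e3 + r * e1 - (c * p - a * r) * hdet)
    have f3 : a = 0 := mul_left_cancel₀ ht (by
      subst f1 f2
      linear_combination (p * e1 + q * e3 + s * e1 - r * e2 - a * (p + s) * hdet) / 2)
    exact absurd ⟨f3, f1, f2⟩ h0

/-- Discreteness of the stabiliser of a nonzero holomorphic quadratic differential. -/
theorem disc_of_Q {Q : ℂ → ℂ} (hQ : DifferentiableOn ℂ Q HP) (hne : ∃ z ∈ HP, Q z ≠ 0)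
    {x y : G} (hx : QInv Q x) (hy : QInv Q y) (tx : x 0 0 + x 1 1 ≠ 0) (ty : y 0 0 + y 1 1 ≠ 0)
    (hxy : x * y ≠ y * x) :
    ∃ δ > 0, ∀ γ : G, QInv Q γ → (∀ i j, |γ i j - (1 : G) i j| < δ) → γ = 1 := by
  by_contra h
  push Not at h
  obtain ⟨a, b, c, h0, hL⟩ := lie_of_seq hQ fun δ hδ => by
    obtain ⟨γ, h1, h2, h3⟩ := h δ hδ
    exact ⟨γ, h1, h3, h2⟩
  obtain ⟨h1, h2, h3⟩ := cross_of_lie hQ hne h0 hL hx tx
  obtain ⟨k1, k2, k3⟩ := cross_of_lie hQ hne h0 hL hy ty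
  obtain ⟨e1, e2, e3⟩ := comm_of_cross h0 h1 h2 h3 k1 k2 k3
  apply hxy
  ext i j
  fin_cases i <;> fin_cases j <;> simp only [Fin.zero_eta, Fin.isValue, Matrix.SpecialLinearGroup.coe_mul, Matrix.mul_apply, Fin.sum_univ_two, Fin.mk_one]
  · linear_combination e1
  · linear_combination 2 * e2
  · linear_combination -2 * e3
  · linear_combination -e1

end

end Pool.Agent.MP_596265_gt.U.RG

end

section

/-! Monodromy: a family of germs that continue over discs of uniform relative size extends to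
the upper half plane. -/

namespace Pool.Agent.MP_596265_gt.U.RG

open Filter Topology Set Metric

noncomputable section

theorem eqOn_of_ev {f g : ℂ → ℂ} {U : Set ℂ} (hU : IsOpen U) (hc : IsPreconnected U)
    (hf : DifferentiableOn ℂ f U) (hg : DifferentiableOn ℂ g U) {m : ℂ} (hm : m ∈ U)
    (h : f =ᶠ[𝓝 m] g) : EqOn f g U :=
  (hf.analyticOnNhd hU).eqOn_of_preconnected_of_eventuallyEq (hg.analyticOnNhd hU) hc hm h

theorem glue {ι : Type*} (V : ι → Set ℂ) (h : ι → ℂ → ℂ) (ho : ∀ i, IsOpen (V i))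
    (hc : ∀ i, Convex ℝ (V i)) (hd : ∀ i, DifferentiableOn ℂ (h i) (V i))
    (hp : ∀ i j, (V i ∩ V j).Nonempty → ∃ m ∈ V i ∩ V j, h i =ᶠ[𝓝 m] h j) :
    ∃ Q : ℂ → ℂ, ∀ i, ∀ w ∈ V i, Q =ᶠ[𝓝 w] h i := by
  classical
  refine ⟨fun w => if hw : ∃ i, w ∈ V i then h hw.choose w else 0, fun i w hw => ?_⟩
  filter_upwards [(ho i).mem_nhds hw] with v hv
  have hv' : ∃ i, v ∈ V i := ⟨i, hv⟩
  rw [dif_pos hv']
  obtain ⟨m, hm, he⟩ := hp hv'.choose i ⟨v, hv'.choose_spec, hv⟩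
  exact eqOn_of_ev ((ho _).inter (ho i)) ((hc _).inter (hc i)).isPreconnected
    ((hd _).mono inter_subset_left) ((hd i).mono inter_subset_right) hm he ⟨hv'.choose_spec, hv⟩

theorem diffOn_of_ev {Q h : ℂ → ℂ} {V : Set ℂ} (ho : IsOpen V) (hd : DifferentiableOn ℂ h V)
    {w : ℂ} (hw : w ∈ V) (he : Q =ᶠ[𝓝 w] h) : DifferentiableAt ℂ Q w :=
  (hd.differentiableAt (ho.mem_nhds hw)).congr_of_eventuallyEq he

variable {S : ℂ → (ℂ → ℂ) → Prop} {ζ₀ : ℂ} {h₀ : ℂ → ℂ}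

/-- The germ `h₀` at `ζ₀` extends to `U` with all germs in `S`. -/
def ExtOn (S : ℂ → (ℂ → ℂ) → Prop) (ζ₀ : ℂ) (h₀ : ℂ → ℂ) (U : Set ℂ) : Prop :=
  ∃ Q, DifferentiableOn ℂ Q U ∧ Q =ᶠ[𝓝 ζ₀] h₀ ∧ ∀ ζ ∈ U, S ζ Q

theorem ExtOn.mono {U V : Set ℂ} (h : ExtOn S ζ₀ h₀ U) (hV : V ⊆ U) : ExtOn S ζ₀ h₀ V := by
  obtain ⟨Q, h1, h2, h3⟩ := h
  exact ⟨Q, h1.mono hV, h2, fun ζ hζ => h3 ζ (hV hζ)⟩

theorem ExtOn.step (germ : ∀ ζ h h', S ζ h → h' =ᶠ[𝓝 ζ] h → S ζ h') {U : Set ℂ}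
    (ho : IsOpen U) (hc : Convex ℝ U) (h0 : ζ₀ ∈ U) {ε : ℝ} (hε : 0 < ε)
    (loc : ∀ ζ ∈ U, ∀ h, S ζ h → ∃ h', DifferentiableOn ℂ h' (ball ζ ε) ∧ h' =ᶠ[𝓝 ζ] h ∧
      ∀ ζ' ∈ ball ζ ε, S ζ' h')
    (h : ExtOn S ζ₀ h₀ U) : ExtOn S ζ₀ h₀ (⋃ ζ ∈ U, ball ζ ε) := by
  obtain ⟨Q, h1, h2, h3⟩ := h
  choose k k1 k2 k3 using fun ζ : U => loc ζ ζ.2 Q (h3 ζ ζ.2)
  have hk : ∀ ζ : U, ∀ m ∈ ball (ζ : ℂ) ε ∩ U, k ζ =ᶠ[𝓝 m] Q := fun ζ m hm => by
    have ho' : IsOpen (ball (ζ : ℂ) ε ∩ U) := isOpen_ball.inter ho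
    have := eqOn_of_ev ho' ((convex_ball _ _).inter hc).isPreconnected
      ((k1 ζ).mono inter_subset_left) (h1.mono inter_subset_right)
      ⟨mem_ball_self hε, ζ.2⟩ (k2 ζ)
    exact this.eventuallyEq_of_mem (ho'.mem_nhds hm)
  obtain ⟨P, hP⟩ := glue (fun ζ : U => ball (ζ : ℂ) ε) k (fun _ => isOpen_ball)
    (fun _ => convex_ball _ _) k1 fun x y ⟨w, hx, hy⟩ => by
      have hxy : dist (x : ℂ) y < 2 * ε := by
        have := dist_triangle_left (x : ℂ) y w
        rw [mem_ball] at hx hy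
        linarith
      have hm : midpoint ℝ (x : ℂ) y ∈ U := hc.midpoint_mem x.2 y.2
      have m1 : midpoint ℝ (x : ℂ) y ∈ ball (x : ℂ) ε := by
        rw [mem_ball, dist_midpoint_left]
        norm_num
        linarith only [hxy]
      have m2 : midpoint ℝ (x : ℂ) y ∈ ball (y : ℂ) ε := by
        rw [mem_ball, dist_midpoint_right]
        norm_num
        linarith
      exact ⟨_, ⟨m1, m2⟩, (hk x _ ⟨m1, hm⟩).trans (hk y _ ⟨m2, hm⟩).symm⟩
  refine ⟨P, fun w hw => ?_, ?_, fun w hw => ?_⟩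
  · obtain ⟨ζ, hζ, hw⟩ := mem_iUnion₂.1 hw
    exact (diffOn_of_ev isOpen_ball (k1 ⟨ζ, hζ⟩) hw (hP ⟨ζ, hζ⟩ w hw)).differentiableWithinAt
  · exact ((hP ⟨ζ₀, h0⟩ ζ₀ (mem_ball_self hε)).trans (k2 ⟨ζ₀, h0⟩)).trans h2
  · obtain ⟨ζ, hζ, hw⟩ := mem_iUnion₂.1 hw
    exact germ _ _ _ (k3 ⟨ζ, hζ⟩ w hw) (hP ⟨ζ, hζ⟩ w hw)

/-- Monodromy theorem for a family of germs with a uniform relative radius of continuation. -/
theorem mono_ext (germ : ∀ ζ h h', S ζ h → h' =ᶠ[𝓝 ζ] h → S ζ h') {e : ℝ} (he : 0 < e)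
    (loc : ∀ ζ ∈ HP, ∀ h, S ζ h → ∃ h', DifferentiableOn ℂ h' (ball ζ (e * ζ.im)) ∧
      h' =ᶠ[𝓝 ζ] h ∧ ∀ ζ' ∈ ball ζ (e * ζ.im), S ζ' h')
    (h0 : ζ₀ ∈ HP) (hS : S ζ₀ h₀) : ExtOn S ζ₀ h₀ HP := by
  have hz : 0 < ζ₀.im := h0
  let V : ℝ → ℕ → Set ℂ := fun c n => {w | c < w.im} ∩ ball ζ₀ ((n + 1 : ℝ) * (e * c))
  have Vo : ∀ c n, IsOpen (V c n) := fun c n =>
    (isOpen_lt continuous_const Complex.continuous_im).inter isOpen_ball
  have Vc : ∀ c n, Convex ℝ (V c n) := fun c n =>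
    (convex_halfSpace_im_gt c).inter (convex_ball _ _)
  have V0 : ∀ c n, 0 < c → c < ζ₀.im → ζ₀ ∈ V c n := fun c n h1 h2 =>
    ⟨h2, mem_ball_self (by positivity)⟩
  have key : ∀ c, 0 < c → c < ζ₀.im → ∀ n, ExtOn S ζ₀ h₀ (V c n) := by
    intro c h1 h2 n
    induction n with
    | zero =>
      obtain ⟨h', a1, a2, a3⟩ := loc ζ₀ h0 h₀ hS
      refine ExtOn.mono (U := ball ζ₀ (e * ζ₀.im)) ⟨h', a1, a2, a3⟩ fun w hw => ?_
      refine ball_subset_ball ?_ hw.2
      simp only [Nat.cast_zero, zero_add, one_mul]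
      exact mul_le_mul_of_nonneg_left h2.le he.le
    | succ n ih =>
      have hε : 0 < e * c := by positivity
      refine (ExtOn.step germ (Vo c n) (Vc c n) (V0 c n h1 h2) hε (fun ζ hζ h hh => ?_) ih).mono
        fun w hw => ?_
      · have hc : c < ζ.im := hζ.1
        obtain ⟨h', a1, a2, a3⟩ := loc ζ (h1.trans hc) h hh
        have hs : ball ζ (e * c) ⊆ ball ζ (e * ζ.im) :=
          ball_subset_ball (mul_le_mul_of_nonneg_left hc.le he.le)
        exact ⟨h', a1.mono hs, a2, fun ζ' h' => a3 ζ' (hs h')⟩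
      · have hn : (0 : ℝ) < n + 2 := by positivity
        have hw2 : ‖w - ζ₀‖ < (n + 2) * (e * c) := by
          have := hw.2
          rw [mem_ball, dist_eq_norm] at this
          push_cast at this
          linarith
        have hw1 : c < w.im := hw.1
        set t : ℝ := 1 / (n + 2) with ht
        have t0 : 0 < t := by positivity
        have t1 : t * (n + 2) = 1 := by rw [ht]; field_simp
        have t2 : 0 < 1 - t := by nlinarith only [t1]
        refine mem_iUnion₂.2 ⟨t • ζ₀ + (1 - t) • w, ⟨?_, ?_⟩, ?_⟩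
        · exact convex_halfSpace_im_gt c h2 hw1 t0.le t2.le (by ring)
        · rw [mem_ball, dist_eq_norm]
          have : t • ζ₀ + (1 - t) • w - ζ₀ = (1 - t) • (w - ζ₀) := by module
          rw [this, norm_smul, Real.norm_of_nonneg t2.le]
          calc _ < (1 - t) * ((n + 2) * (e * c)) := mul_lt_mul_of_pos_left hw2 t2
            _ = _ := by linear_combination (-(e * c)) * t1
        · rw [mem_ball, dist_eq_norm]
          have : w - (t • ζ₀ + (1 - t) • w) = t • (w - ζ₀) := by module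
          rw [this, norm_smul, Real.norm_of_nonneg t0.le]
          calc _ < t * ((n + 2) * (e * c)) := mul_lt_mul_of_pos_left hw2 t0
            _ = _ := by linear_combination (e * c) * t1
  let ι := {p : ℝ × ℕ // 0 < p.1 ∧ p.1 < ζ₀.im}
  choose k k1 k2 k3 using fun p : ι => key p.1.1 p.2.1 p.2.2 p.1.2
  obtain ⟨P, hP⟩ := glue (fun p : ι => V p.1.1 p.1.2) k (fun _ => Vo _ _) (fun _ => Vc _ _) k1
    fun x y _ => ⟨ζ₀, ⟨V0 _ _ x.2.1 x.2.2, V0 _ _ y.2.1 y.2.2⟩, (k2 x).trans (k2 y).symm⟩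
  have cov : ∀ w ∈ HP, ∃ p : ι, w ∈ V p.1.1 p.1.2 := fun w hw => by
    have hw' : 0 < w.im := hw
    have hm : 0 < min w.im ζ₀.im / 2 := by positivity
    have m1 := min_le_left w.im ζ₀.im
    have m2 := min_le_right w.im ζ₀.im
    obtain ⟨n, hn⟩ := exists_nat_gt (dist w ζ₀ / (e * (min w.im ζ₀.im / 2)))
    refine ⟨⟨(min w.im ζ₀.im / 2, n), hm, by linarith only [hz, m2]⟩, ?_, ?_⟩
    · change min w.im ζ₀.im / 2 < w.im
      linarith only [hw', m1]
    · rw [div_lt_iff₀ (by positivity)] at hn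
      change dist w ζ₀ < (n + 1 : ℝ) * (e * (min w.im ζ₀.im / 2))
      linarith only [mul_pos he hm, hn]
  refine ⟨P, fun w hw => ?_, ?_, fun w hw => ?_⟩
  · obtain ⟨p, hp⟩ := cov w hw
    exact (diffOn_of_ev (Vo _ _) (k1 p) hp (hP p w hp)).differentiableWithinAt
  · obtain ⟨p, hp⟩ := cov ζ₀ h0
    exact (hP p ζ₀ hp).trans (k2 p)
  · obtain ⟨p, hp⟩ := cov w hw
    exact germ _ _ _ (k3 p w hp) (hP p w hp)

end

end Pool.Agent.MP_596265_gt.U.RG

end

section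

/-! Open and closed geodesic triangles as subsets of the plane. -/

namespace Pool.Agent.MP_596265_gt.U.RG

open Filter Topology Set Metric UpperHalfPlane

noncomputable section

theorem mob_coe (g : G) (z : ℍ) : mob g z = ((g • z : ℍ) : ℂ) := (basic_coe_smul g z).symm

theorem coe_HP (z : ℍ) : (z : ℂ) ∈ HP := z.im_pos

theorem jj_mul (g h : G) {w : ℂ} (hw : w ∈ HP) : jj (g * h) w = jj g (mob h w) * jj h w := by
  have := jj_ne h hw
  simp only [mob]
  rw [jj, jj.eq_1 g, basic_mul, basic_mul]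
  field_simp
  simp only [jj]
  push_cast
  ring

theorem mob_mul (g h : G) {w : ℂ} (hw : w ∈ HP) : mob (g * h) w = mob g (mob h w) := by
  lift w to ℍ using hw
  simp only [mob_coe, mul_smul]

theorem mob_one (w : ℂ) : mob 1 w = w := by simp only [mob, Fin.isValue, Matrix.SpecialLinearGroup.coe_one, Matrix.one_apply_eq, Complex.ofReal_one, one_mul, ne_eq, zero_ne_one, not_false_eq_true, Matrix.one_apply_ne, Complex.ofReal_zero, add_zero, jj, one_ne_zero, zero_mul, zero_add, div_one]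

theorem jj_one (w : ℂ) : jj 1 w = 1 := by simp [jj]

theorem mob_inv_mob (g : G) {w : ℂ} (hw : w ∈ HP) : mob g⁻¹ (mob g w) = w := by
  rw [← mob_mul _ _ hw, inv_mul_cancel, mob_one]

theorem mob_mob_inv (g : G) {w : ℂ} (hw : w ∈ HP) : mob g (mob g⁻¹ w) = w := by
  rw [← mob_mul _ _ hw, mul_inv_cancel, mob_one]

/-- Plus or minus the identity. -/
def PM1 (g : G) : Prop := g = 1 ∨ g = -1

theorem PM1.mob {g : G} (h : PM1 g) (w : ℂ) : mob g w = w := by
  rcases h with rfl | rfl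
  · exact mob_one w
  · simp only [RG.mob, Fin.isValue, Matrix.SpecialLinearGroup.coe_neg, Matrix.SpecialLinearGroup.coe_one, Matrix.neg_apply, Matrix.one_apply_eq, Complex.ofReal_neg, Complex.ofReal_one, neg_mul, one_mul, ne_eq, zero_ne_one, not_false_eq_true, Matrix.one_apply_ne, neg_zero, Complex.ofReal_zero, add_zero, jj, one_ne_zero, zero_mul, zero_add, neg_div_neg_eq, div_one]

theorem jj_diff (g : G) : Differentiable ℂ (jj g) := by
  unfold jj
  fun_prop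

theorem mob_diffAt (g : G) {w : ℂ} (hw : w ∈ HP) : DifferentiableAt ℂ (mob g) w := by
  unfold mob
  exact DifferentiableAt.div (by fun_prop) (jj_diff g w) (jj_ne g hw)

theorem mob_contOn (g : G) : ContinuousOn (mob g) HP := fun _ hw =>
  (mob_diffAt g hw).continuousAt.continuousWithinAt

theorem mob_sub (g : G) {a b : ℂ} (ha : a ∈ HP) (hb : b ∈ HP) :
    mob g a - mob g b = (a - b) / (jj g a * jj g b) := by
  have h1 := jj_ne g ha
  have h2 := jj_ne g hb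
  have hd : ((g 0 0 : ℝ) : ℂ) * (g 1 1 : ℝ) - (g 0 1 : ℝ) * (g 1 0 : ℝ) = 1 := by
    exact_mod_cast det_eq g
  simp only [mob]
  field_simp
  simp only [jj]
  linear_combination (a - b) * hd

theorem mob_ratio (g : G) {a b : ℂ} (ha : a ∈ HP) (hb : b ∈ HP) :
    ‖mob g a - mob g b‖ ^ 2 * (a.im * b.im) = ‖a - b‖ ^ 2 * ((mob g a).im * (mob g b).im) := by
  have h1 : ‖jj g a‖ ≠ 0 := by simpa using jj_ne g ha
  have h2 : ‖jj g b‖ ≠ 0 := by simpa using jj_ne g hb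
  rw [mob_sub g ha hb, mob_im g ha, mob_im g hb, norm_div, norm_mul, Complex.normSq_eq_norm_sq,
    Complex.normSq_eq_norm_sq]
  field_simp

/-- The chart in which geodesics are straight, on the plane. -/
def Ψ (w : ℂ) : Pt := (w.re, w.re ^ 2 + w.im ^ 2)

/-- The inverse chart. -/
def κ (u : Pt) : ℂ := ⟨u.1, √(u.2 - u.1 ^ 2)⟩

def cd (a b w : ℂ) : ℝ := det3 (Ψ a) (Ψ b) (Ψ w)

theorem cd_coe (p q r : ℍ) : cd p q r = hdet p q r := rfl

theorem κ_cont : Continuous κ := by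
  have : κ = fun u : Pt => (u.1 : ℂ) + (√(u.2 - u.1 ^ 2) : ℝ) * Complex.I := by
    funext u
    apply Complex.ext <;> simp [κ]
  rw [this]
  fun_prop

theorem Ψ_InH {w : ℂ} (hw : w ∈ HP) : InH (Ψ w) := by
  have : 0 < w.im := hw
  simp only [InH, Ψ]
  nlinarith only [this]

theorem κ_mem {u : Pt} (hu : InH u) : κ u ∈ HP := Real.sqrt_pos.2 (sub_pos.2 hu)

theorem Ψ_κ {u : Pt} (hu : InH u) : Ψ (κ u) = u := by
  have := Real.sq_sqrt (sub_pos.2 hu).le
  exact Prod.ext rfl (by simp only [Ψ, κ]; linarith)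

theorem κ_Ψ {w : ℂ} (hw : w ∈ HP) : κ (Ψ w) = w := by
  have : 0 < w.im := hw
  apply Complex.ext
  · rfl
  · simp only [κ, Ψ, add_sub_cancel_left]
    exact Real.sqrt_sq this.le

theorem InH_convex : Convex ℝ {u | InH u} := by
  intro u hu v hv a b ha hb hab
  have hu' : u.1 ^ 2 < u.2 := hu
  have hv' : v.1 ^ 2 < v.2 := hv
  change (a * u.1 + b * v.1) ^ 2 < a * u.2 + b * v.2
  obtain rfl : b = 1 - a := by linarith
  have h1 := mul_nonneg (mul_nonneg ha hb) (sq_nonneg (u.1 - v.1))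
  rcases ha.eq_or_lt with rfl | ha'
  · simpa using hv'
  · linarith only [mul_pos ha' (sub_pos.2 hu'), mul_nonneg hb (sub_pos.2 hv').le, h1]

theorem preconn_of_convex {K : Set Pt} (hK : Convex ℝ K) :
    IsPreconnected {w | w ∈ HP ∧ Ψ w ∈ K} := by
  have : {w | w ∈ HP ∧ Ψ w ∈ K} = κ '' (K ∩ {u | InH u}) := by
    ext w
    constructor
    · rintro ⟨h1, h2⟩
      exact ⟨Ψ w, ⟨h2, Ψ_InH h1⟩, κ_Ψ h1⟩
    · rintro ⟨u, ⟨h1, h2⟩, rfl⟩
      exact ⟨κ_mem h2, by rwa [Ψ_κ h2]⟩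
  rw [this]
  exact (hK.inter InH_convex).isPreconnected.image _ κ_cont.continuousOn

theorem det3_convex (p q : Pt) : Convex ℝ {u | 0 < det3 p q u} := by
  intro u hu v hv a b ha hb hab
  have hu' : 0 < det3 p q u := hu
  have hv' : 0 < det3 p q v := hv
  have e : det3 p q (a • u + b • v) = a * det3 p q u + b * det3 p q v := by
    obtain rfl : b = 1 - a := by linarith
    simp only [det3, Prod.fst_add, Prod.snd_add, Prod.smul_fst, Prod.smul_snd, smul_eq_mul]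
    ring
  change 0 < det3 p q (a • u + b • v)
  rw [e]
  rcases ha.eq_or_lt with rfl | ha'
  · obtain rfl : b = 1 := by linarith
    simpa using hv'
  · exact add_pos_of_pos_of_nonneg (mul_pos ha' hu') (mul_nonneg hb hv'.le)

theorem cd_cont (a b : ℂ) : Continuous (cd a b) := by
  unfold cd det3 Ψ
  fun_prop

theorem cd_cyc (a b c : ℂ) : cd b c a = cd a b c := by
  simp only [cd, det3]
  ring

theorem cd_swap (a b c : ℂ) : cd b a c = -cd a b c := by
  simp only [cd, det3]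
  ring

theorem cd_left (a b : ℂ) : cd a b a = 0 := by simp [cd, det3]

theorem cd_right (a b : ℂ) : cd a b b = 0 := by
  simp only [cd, det3]
  ring

theorem cd_sum (a b c w : ℂ) : cd a b w + cd b c w + cd c a w = cd a b c := by
  simp only [cd, det3]
  ring

theorem cd_bary (a b c w x y : ℂ) :
    cd a b c * cd x y w = cd b c w * cd x y a + cd c a w * cd x y b + cd a b w * cd x y c := by
  simp only [cd, det3]
  ring

theorem cd_mob (g : G) {a b w : ℂ} (ha : a ∈ HP) (hb : b ∈ HP) (hw : w ∈ HP) :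
    ∃ c : ℝ, 0 < c ∧ cd (mob g a) (mob g b) (mob g w) = c * cd a b w := by
  lift a to ℍ using ha
  lift b to ℍ using hb
  lift w to ℍ using hw
  simpa only [mob_coe, cd_coe] using hdet_smul g a b w

theorem cd_mob_pos (g : G) {a b w : ℂ} (ha : a ∈ HP) (hb : b ∈ HP) (hw : w ∈ HP) :
    0 < cd (mob g a) (mob g b) (mob g w) ↔ 0 < cd a b w := by
  obtain ⟨c, hc, e⟩ := cd_mob g ha hb hw
  rw [e, mul_pos_iff_of_pos_left hc]

theorem cd_mob_nonneg (g : G) {a b w : ℂ} (ha : a ∈ HP) (hb : b ∈ HP) (hw : w ∈ HP) :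
    0 ≤ cd (mob g a) (mob g b) (mob g w) ↔ 0 ≤ cd a b w := by
  obtain ⟨c, hc, e⟩ := cd_mob g ha hb hw
  rw [e, mul_nonneg_iff_of_pos_left hc]

/-- The open triangle. -/
def OF (a b c : ℂ) : Set ℂ := {w | w ∈ HP ∧ 0 < cd a b w ∧ 0 < cd b c w ∧ 0 < cd c a w}

/-- The closed triangle. -/
def CF (a b c : ℂ) : Set ℂ := {w | w ∈ HP ∧ 0 ≤ cd a b w ∧ 0 ≤ cd b c w ∧ 0 ≤ cd c a w}

theorem OF_open (a b c : ℂ) : IsOpen (OF a b c) :=
  HP_open.inter ((isOpen_lt continuous_const (cd_cont a b)).inter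
    ((isOpen_lt continuous_const (cd_cont b c)).inter (isOpen_lt continuous_const (cd_cont c a))))

theorem OF_sub_CF (a b c : ℂ) : OF a b c ⊆ CF a b c := fun _ h =>
  ⟨h.1, h.2.1.le, h.2.2.1.le, h.2.2.2.le⟩

theorem OF_inter_preconn (a b c a' b' c' : ℂ) : IsPreconnected (OF a b c ∩ OF a' b' c') := by
  have := preconn_of_convex (((det3_convex (Ψ a) (Ψ b)).inter ((det3_convex (Ψ b) (Ψ c)).inter
    (det3_convex (Ψ c) (Ψ a)))).inter ((det3_convex (Ψ a') (Ψ b')).inter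
    ((det3_convex (Ψ b') (Ψ c')).inter (det3_convex (Ψ c') (Ψ a')))))
  convert this using 1
  ext w
  simp only [OF, cd, mem_inter_iff, mem_ofPred_eq]
  tauto

theorem OF_preconn (a b c : ℂ) : IsPreconnected (OF a b c) := by
  simpa using OF_inter_preconn a b c a b c

theorem CF_compact {a b c : ℂ} (ha : a ∈ HP) (hb : b ∈ HP) (hc : c ∈ HP) (hD : 0 < cd a b c) :
    IsCompact (CF a b c) := by
  have hK : IsCompact (convexHull ℝ ({Ψ a, Ψ b, Ψ c} : Set Pt)) :=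
    (Set.toFinite _).isCompact_convexHull ℝ
  have hI : convexHull ℝ ({Ψ a, Ψ b, Ψ c} : Set Pt) ⊆ {u | InH u} :=
    convexHull_min (by
      rintro u (rfl | rfl | rfl)
      exacts [Ψ_InH ha, Ψ_InH hb, Ψ_InH hc]) InH_convex
  have hcl : IsClosed {w | 0 ≤ cd a b w ∧ 0 ≤ cd b c w ∧ 0 ≤ cd c a w} :=
    (isClosed_le continuous_const (cd_cont a b)).inter
      ((isClosed_le continuous_const (cd_cont b c)).inter
        (isClosed_le continuous_const (cd_cont c a)))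
  convert (hK.image κ_cont).inter_right hcl using 1
  ext w
  constructor
  · rintro ⟨h0, h1, h2, h3⟩
    refine ⟨⟨Ψ w, ?_, κ_Ψ h0⟩, h1, h2, h3⟩
    have hs := cd_sum a b c w
    have e : Ψ w = (cd b c w / cd a b c) • Ψ a + (cd c a w / cd a b c) • Ψ b +
        (cd a b w / cd a b c) • Ψ c := by
      have := hD.ne'
      apply Prod.ext
      all_goals
        simp only [Prod.fst_add, Prod.snd_add, Prod.smul_fst, Prod.smul_snd, smul_eq_mul]
        field_simp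
        simp only [cd, det3]
        ring
    have hv := (convex_convexHull ℝ ({Ψ a, Ψ b, Ψ c} : Set Pt)).sum_mem
      (t := (Finset.univ : Finset (Fin 3)))
      (w := ![cd b c w / cd a b c, cd c a w / cd a b c, cd a b w / cd a b c])
      (z := ![Ψ a, Ψ b, Ψ c])
      (fun i _ => by fin_cases i <;> simp only [Fin.zero_eta, Fin.isValue, Matrix.cons_val_zero, Fin.mk_one, Matrix.cons_val_one, Fin.reduceFinMk, Matrix.cons_val] <;> positivity)
      (by simp [Fin.sum_univ_three]; field_simp; linarith only [hs])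
      (fun i _ => subset_convexHull ℝ _ (by fin_cases i <;> simp))
    rw [e]
    simpa [Fin.sum_univ_three] using hv
  · rintro ⟨⟨u, hu, rfl⟩, h⟩
    exact ⟨κ_mem (hI hu), h⟩

theorem CF_sub_closure {a b c : ℂ} (ha : a ∈ HP) (hb : b ∈ HP) (hc : c ∈ HP) (hD : 0 < cd a b c) :
    CF a b c ⊆ closure (OF a b c) := by
  rintro w ⟨h0, h1, h2, h3⟩
  let o : Pt := (1 / 2 : ℝ) • ((1 / 2 : ℝ) • Ψ a + (1 / 2 : ℝ) • Ψ b) + (1 / 2 : ℝ) • Ψ c
  have ho : InH o := InH_convex (InH_convex (Ψ_InH ha) (Ψ_InH hb) (by norm_num) (by norm_num)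
    (by norm_num)) (Ψ_InH hc) (by norm_num) (by norm_num) (by norm_num)
  have hc : Continuous fun t : ℝ => κ ((1 - t) • Ψ w + t • o) := κ_cont.comp (by fun_prop)
  have hl : Tendsto (fun t : ℝ => κ ((1 - t) • Ψ w + t • o)) (𝓝[>] 0) (𝓝 w) := by
    have := (hc.tendsto 0).mono_left (nhdsWithin_le_nhds (s := Ioi 0))
    simpa [κ_Ψ h0] using this
  refine mem_closure_of_tendsto hl ?_
  filter_upwards [Ioo_mem_nhdsGT (zero_lt_one' ℝ)] with t ⟨t0, t1⟩
  have t2 : 0 ≤ 1 - t := by linarith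
  have hI : InH ((1 - t) • Ψ w + t • o) := InH_convex (Ψ_InH h0) ho t2 t0.le (by ring)
  have key : ∀ x y : ℂ, cd x y (κ ((1 - t) • Ψ w + t • o)) =
      (1 - t) * cd x y w + t * (cd x y a / 4 + cd x y b / 4 + cd x y c / 2) := fun x y => by
    rw [cd, Ψ_κ hI]
    simp only [cd, det3, o, Prod.fst_add, Prod.snd_add, Prod.smul_fst, Prod.smul_snd, smul_eq_mul]
    ring
  refine ⟨κ_mem hI, ?_, ?_, ?_⟩
  · rw [key, cd_left, cd_right]
    positivity
  · rw [key, cd_left, cd_right, cd_cyc a b c]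
    positivity
  · rw [key, cd_left, cd_right, ← cd_cyc c a b, cd_cyc a b c |>.symm, cd_cyc b c a |>.symm]
    rw [cd_cyc b c a, cd_cyc a b c]
    positivity

theorem freq_OF {a b c w : ℂ} (ha : a ∈ HP) (hb : b ∈ HP) (hc : c ∈ HP) (hD : 0 < cd a b c)
    (hw : w ∈ CF a b c) : ∃ᶠ v in 𝓝[≠] w, v ∈ OF a b c := by
  have h1 := closure_mono ((dense_compl_singleton w).open_subset_closure_inter (OF_open a b c))
    (CF_sub_closure ha hb hc hD hw)
  rw [closure_closure, mem_closure_iff_frequently] at h1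
  rw [frequently_nhdsWithin_iff]
  exact h1

/-- Every direction lies in one of the corners of a positive link. -/
theorem link_walk {D : Type*} [Finite D] [Nonempty D] (σ : D → D) (v : D → Pt) (p x : Pt)
    (h : ∀ d, 0 < det3 p (v d) (v (σ d))) :
    ∃ d, 0 ≤ det3 p (v d) x ∧ 0 ≤ det3 (v (σ d)) p x := by
  by_contra hn
  push Not at hn
  have sw : ∀ d, det3 (v d) p x = -det3 p (v d) x := fun d => by simp only [det3]; ring
  have key : ∀ A : Set D, A.Nonempty → (∀ d ∈ A, σ d ∈ A) →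
      (∀ d ∈ A, 0 < det3 p (v d) x * det3 p (v (σ d)) x) → False := by
    intro A hA h1 h2
    let F : D → ℝ := fun d =>
      (((v d).1 - p.1) * (x.1 - p.1) + ((v d).2 - p.2) * (x.2 - p.2)) / det3 p (v d) x
    obtain ⟨d, hd, hm⟩ := Set.exists_max_image A F (Set.toFinite A) hA
    have h3 := h2 d hd
    obtain ⟨n1, n2⟩ := mul_ne_zero_iff.1 h3.ne'
    have hx : 0 < (x.1 - p.1) ^ 2 + (x.2 - p.2) ^ 2 := by
      by_contra h0
      have e1 : x.1 - p.1 = 0 := by nlinarith only [h0]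
      have e2 : x.2 - p.2 = 0 := by nlinarith only [h0]
      exact n1 (by simp [det3, e1, e2])
    have e : F (σ d) - F d = det3 p (v d) (v (σ d)) * ((x.1 - p.1) ^ 2 + (x.2 - p.2) ^ 2) /
        (det3 p (v d) x * det3 p (v (σ d)) x) := by
      simp only [F]
      field_simp
      simp only [det3]
      ring
    have := div_pos (mul_pos (h d) hx) h3
    linarith [hm _ (h1 d hd)]
  have up : ∀ d, 0 ≤ det3 p (v d) x → 0 < det3 p (v (σ d)) x := fun d hd => by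
    have := hn d hd
    rw [sw] at this
    linarith
  by_cases hp : ∃ d, 0 ≤ det3 p (v d) x
  · obtain ⟨d, hd⟩ := hp
    exact key {d | 0 < det3 p (v d) x} ⟨σ d, up d hd⟩ (fun d hd => up d (le_of_lt hd))
      fun d hd => mul_pos hd (up d (le_of_lt hd))
  · push Not at hp
    exact key univ univ_nonempty (fun _ _ => trivial) fun d _ =>
      mul_pos_of_neg_of_neg (hp d) (hp _)

end

end Pool.Agent.MP_596265_gt.U.RG

end

section

/-! Holomorphic quadratic differentials on the faces of a positive dart system that continue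
over the sides and over the vertex come from one invariant differential on the half plane. -/

namespace Pool.Agent.MP_596265_gt.U.RG

open Filter Topology Set Metric

noncomputable section

variable {D : Type*} {nxt rev : D → D} {L : D → G} {z : ℂ} {φ : D → ℂ → ℂ}

/-- A positive labelled dart system with base point `z`. -/
structure DS (nxt rev : D → D) (L : D → G) (z : ℂ) : Prop where
  n3 : ∀ d, nxt (nxt (nxt d)) = d
  r2 : ∀ d, rev (rev d) = d
  flat : ∀ d, PM1 (L d * L (nxt d) * L (nxt (nxt d)))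
  inv : ∀ d, PM1 (L d * L (rev d))
  hz : z ∈ HP
  pos : ∀ d, 0 < cd z (mob (L d) z) (mob (L d * L (nxt d)) z)

/-- The open face at the corner `d`. -/
def oface (nxt : D → D) (L : D → G) (z : ℂ) (d : D) : Set ℂ :=
  OF z (mob (L d) z) (mob (L d * L (nxt d)) z)

def cface (nxt : D → D) (L : D → G) (z : ℂ) (d : D) : Set ℂ :=
  CF z (mob (L d) z) (mob (L d * L (nxt d)) z)

/-- Differentials on the faces, compatible with the rotation of a face and continuing over the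
open sides. -/
structure QData (nxt rev : D → D) (L : D → G) (z : ℂ) (φ : D → ℂ → ℂ) : Prop where
  hol : ∀ d, DifferentiableOn ℂ (φ d) (oface nxt L z d)
  rot : ∀ d, ∀ w ∈ oface nxt L z (nxt d), φ d (mob (L d) w) = jj (L d) w ^ 4 * φ (nxt d) w
  edge : ∀ d, ∀ x ∈ HP, Ψ x ∈ openSegment ℝ (Ψ z) (Ψ (mob (L d) z)) → ∃ e > 0, ∃ f,
    DifferentiableOn ℂ f (ball x e) ∧ EqOn f (φ d) (ball x e ∩ oface nxt L z d) ∧
      EqOn f (φ (nxt (rev d))) (ball x e ∩ oface nxt L z (nxt (rev d)))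

namespace DS

variable (H : DS nxt rev L z)
include H

theorem m1 (d : D) : mob (L d) z ∈ HP := mob_mem _ H.hz

theorem m2 (d : D) : mob (L d * L (nxt d)) z ∈ HP := mob_mem _ H.hz

theorem third (d : D) {w : ℂ} (hw : w ∈ HP) :
    mob (L d) (mob (L (nxt d) * L (nxt (nxt d))) w) = w := by
  rw [← mob_mul _ _ hw, ← mul_assoc, (H.flat d).mob]

/-- The third vertex of the face at `d` is the second vertex of the next corner of the link. -/
theorem link (d : D) : mob (L d * L (nxt d)) z = mob (L (rev (nxt (nxt d)))) z := by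
  have h1 := (H.flat d).mob (mob (L (rev (nxt (nxt d)))) z)
  rw [mob_mul _ _ (H.m1 _), ← mob_mul (L (nxt (nxt d))) _ H.hz, (H.inv _).mob] at h1
  exact h1

theorem link' (d : D) : mob (L (nxt (rev d)) * L (nxt (nxt (rev d)))) z = mob (L d) z := by
  rw [H.link, H.n3, H.r2]

theorem rot_cd (d : D) {w : ℂ} (hw : w ∈ HP) :
    (0 < cd z (mob (L (nxt d)) z) w ↔ 0 < cd (mob (L d) z) (mob (L d * L (nxt d)) z) (mob (L d) w)) ∧
    (0 < cd (mob (L (nxt d)) z) (mob (L (nxt d) * L (nxt (nxt d))) z) w ↔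
      0 < cd (mob (L d * L (nxt d)) z) z (mob (L d) w)) ∧
    (0 < cd (mob (L (nxt d) * L (nxt (nxt d))) z) z w ↔ 0 < cd z (mob (L d) z) (mob (L d) w)) := by
  rw [← cd_mob_pos (L d) H.hz (H.m1 _) hw, ← cd_mob_pos (L d) (H.m1 _) (H.m2 _) hw,
    ← cd_mob_pos (L d) (H.m2 _) H.hz hw, H.third d H.hz, ← mob_mul _ _ H.hz]
  exact ⟨Iff.rfl, Iff.rfl, Iff.rfl⟩

theorem rot_oface (d : D) {w : ℂ} (hw : w ∈ HP) :
    mob (L d) w ∈ oface nxt L z d ↔ w ∈ oface nxt L z (nxt d) := by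
  obtain ⟨a, b, c⟩ := H.rot_cd d hw
  simp only [oface, OF, mem_ofPred_eq, a, b, c, hw, mob_mem _ hw]
  tauto

theorem rot_cface (d : D) {w : ℂ} (hw : w ∈ HP) :
    mob (L d) w ∈ cface nxt L z d ↔ w ∈ cface nxt L z (nxt d) := by
  simp only [cface, CF, mem_ofPred_eq, hw, mob_mem _ hw]
  rw [← cd_mob_nonneg (L d) H.hz (H.m1 _) hw, ← cd_mob_nonneg (L d) (H.m1 _) (H.m2 _) hw,
    ← cd_mob_nonneg (L d) (H.m2 _) H.hz hw, H.third d H.hz, ← mob_mul _ _ H.hz]
  tauto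

theorem freq (d : D) {w : ℂ} (hw : w ∈ cface nxt L z d) : ∃ᶠ v in 𝓝[≠] w, v ∈ oface nxt L z d :=
  freq_OF H.hz (H.m1 d) (H.m2 d) (H.pos d) hw

theorem z_mem (d : D) : z ∈ cface nxt L z d :=
  ⟨H.hz, (cd_left _ _).ge, by rw [cd_cyc]; exact (H.pos d).le, (cd_right _ _).ge⟩

end DS

/-- Germs of translates of the face differentials. -/
def GS (nxt : D → D) (L : D → G) (z : ℂ) (φ : D → ℂ → ℂ) (ζ : ℂ) (h : ℂ → ℂ) : Prop :=
  ∃ g : G, ∃ d, ∃ ξ ∈ cface nxt L z d, mob g ξ = ζ ∧ AnalyticAt ℂ h ζ ∧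
    ∀ᶠ w in 𝓝 ξ, w ∈ oface nxt L z d → h (mob g w) = jj g w ^ 4 * φ d w

theorem GS.germ (ζ : ℂ) (h h' : ℂ → ℂ) (hS : GS nxt L z φ ζ h) (he : h' =ᶠ[𝓝 ζ] h) :
    GS nxt L z φ ζ h' := by
  obtain ⟨g, d, ξ, h1, rfl, h3, h4⟩ := hS
  refine ⟨g, d, ξ, h1, rfl, h3.congr he.symm, ?_⟩
  filter_upwards [h4, (mob_diffAt g h1.1).continuousAt.eventually he] with w a b hw
  rw [b, a hw]

/-- Push forward of a quadratic differential. -/
def push (g : G) (f : ℂ → ℂ) (v : ℂ) : ℂ := jj g⁻¹ v ^ (-4 : ℤ) * f (mob g⁻¹ v)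

theorem push_mob (g : G) (f : ℂ → ℂ) {w : ℂ} (hw : w ∈ HP) :
    push g f (mob g w) = jj g w ^ 4 * f w := by
  have h1 := jj_mul g⁻¹ g hw
  rw [inv_mul_cancel, jj_one] at h1
  rw [push, mob_inv_mob g hw, eq_inv_of_mul_eq_one_left h1.symm]
  simp [zpow_ofNat]

theorem push_diffAt (g : G) {f : ℂ → ℂ} {v : ℂ} (hv : v ∈ HP)
    (hf : DifferentiableAt ℂ f (mob g⁻¹ v)) : DifferentiableAt ℂ (push g f) v :=
  ((jj_diff g⁻¹ v).zpow (Or.inl (jj_ne _ hv))).mul (hf.comp v (mob_diffAt _ hv))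

theorem pre_open (g : G) {U : Set ℂ} (hU : IsOpen U) : IsOpen (HP ∩ mob g ⁻¹' U) :=
  (mob_contOn g).isOpen_inter_preimage HP_open hU

theorem push_an (g : G) {f : ℂ → ℂ} {v : ℂ} (hv : v ∈ HP) (hf : AnalyticAt ℂ f (mob g⁻¹ v)) :
    AnalyticAt ℂ (push g f) v := by
  rw [Complex.analyticAt_iff_eventually_differentiableAt] at hf ⊢
  filter_upwards [(mob_diffAt g⁻¹ hv).continuousAt.eventually hf, HP_open.mem_nhds hv] with w a b
  exact push_diffAt g b a

theorem GS.push (g : G) {ζ : ℂ} {f : ℂ → ℂ} (hS : GS nxt L z φ ζ f) :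
    GS nxt L z φ (mob g ζ) (push g f) := by
  obtain ⟨k, d, ξ, h1, rfl, h3, h4⟩ := hS
  have hk := mob_mem k h1.1
  refine ⟨g * k, d, ξ, h1, mob_mul _ _ h1.1, push_an g (mob_mem _ hk) (by rwa [mob_inv_mob _ hk]), ?_⟩
  filter_upwards [h4] with w a hw
  rw [mob_mul _ _ hw.1, push_mob _ _ (mob_mem _ hw.1), a hw, jj_mul _ _ hw.1]
  ring

/-- A neighbourhood of a point of a closed face all of whose points carry the same germ. -/
def LocG (nxt : D → D) (L : D → G) (z : ℂ) (φ : D → ℂ → ℂ) (d : D) (ξ : ℂ) : Prop :=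
  ∃ U f, IsOpen U ∧ ξ ∈ U ∧ U ⊆ HP ∧ DifferentiableOn ℂ f U ∧
    EqOn f (φ d) (U ∩ oface nxt L z d) ∧ ∀ ζ ∈ U, GS nxt L z φ ζ f

theorem gs_base {U : Set ℂ} {f : ℂ → ℂ} (hU : IsOpen U) (hf : DifferentiableOn ℂ f U) {d : D}
    (he : EqOn f (φ d) (U ∩ oface nxt L z d)) {ζ : ℂ} (h1 : ζ ∈ U) (h2 : ζ ∈ cface nxt L z d) :
    GS nxt L z φ ζ f := by
  refine ⟨1, d, ζ, h2, mob_one _, hf.analyticAt (hU.mem_nhds h1), ?_⟩
  filter_upwards [hU.mem_nhds h1] with w a b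
  rw [mob_one, jj_one, he ⟨a, b⟩]
  simp

theorem LocG.rot (H : DS nxt rev L z) (Q : QData nxt rev L z φ) {d : D} {ξ : ℂ}
    (h : LocG nxt L z φ (nxt d) ξ) : LocG nxt L z φ d (mob (L d) ξ) := by
  obtain ⟨U, f, h1, h2, h3, h4, h5, h6⟩ := h
  refine ⟨HP ∩ mob (L d)⁻¹ ⁻¹' U, push (L d) f, pre_open _ h1, ⟨mob_mem _ (h3 h2), ?_⟩,
    inter_subset_left, fun v hv => ?_, fun v hv => ?_, fun v hv => ?_⟩
  · rwa [mem_preimage, mob_inv_mob _ (h3 h2)]
  · exact (push_diffAt _ hv.1 (h4.differentiableAt (h1.mem_nhds hv.2))).differentiableWithinAt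
  · have hw := mob_mem (L d)⁻¹ hv.1.1
    have e := mob_mob_inv (L d) hv.1.1
    have ho : mob (L d)⁻¹ v ∈ oface nxt L z (nxt d) := (H.rot_oface d hw).1 (by rw [e]; exact hv.2)
    rw [← e, push_mob _ _ hw, Q.rot d _ ho, h5 ⟨hv.1.2, ho⟩]
  · simpa only [mob_mob_inv _ hv.1] using (h6 _ hv.2).push (L d)

theorem locG_base [Finite D] (H : DS nxt rev L z) (Q : QData nxt rev L z φ) {e : ℝ} (he : 0 < e)
    {f : ℂ → ℂ} (hf : DifferentiableOn ℂ f (ball z e))
    (hv : ∀ d, EqOn f (φ d) (ball z e ∩ oface nxt L z d)) {d : D} {ξ : ℂ}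
    (hξ : ξ ∈ cface nxt L z d) (hy : 0 < cd (mob (L d) z) (mob (L d * L (nxt d)) z) ξ)
    (hb : 0 < cd (mob (L d * L (nxt d)) z) z ξ ∨ ¬ 0 < cd z (mob (L d) z) ξ) :
    LocG nxt L z φ d ξ := by
  obtain ⟨h0, h1, h2, h3⟩ := hξ
  have hD := H.pos d
  have hs := cd_sum z (mob (L d) z) (mob (L d * L (nxt d)) z) ξ
  rcases h3.eq_or_lt with h3 | h3
  · have hx : cd z (mob (L d) z) ξ = 0 := by
      rcases hb with hb | hb
      · exact absurd h3 hb.ne
      · exact le_antisymm (not_lt.1 hb) h1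
    have hz : ξ = z := by
      rw [← κ_Ψ h0, ← κ_Ψ H.hz]
      congr 1
      simp only [cd, det3] at hD hx h3
      apply Prod.ext
      · refine mul_left_cancel₀ hD.ne' ?_
        linear_combination (-((Ψ (mob (L d * L (nxt d)) z)).1 - (Ψ z).1)) * hx * (-1) -
          ((Ψ (mob (L d) z)).1 - (Ψ z).1) * h3
      · refine mul_left_cancel₀ hD.ne' ?_
        linear_combination (-((Ψ (mob (L d * L (nxt d)) z)).2 - (Ψ z).2)) * hx * (-1) -
          ((Ψ (mob (L d) z)).2 - (Ψ z).2) * h3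
    subst hz
    let W : Set ℂ := ⋂ c, {w | 0 < cd (mob (L c) ξ) (mob (L c * L (nxt c)) ξ) w}
    have hW : IsOpen W := isOpen_iInter_of_finite fun c => isOpen_lt continuous_const (cd_cont _ _)
    have hU : IsOpen (ball ξ e ∩ (HP ∩ W)) := isOpen_ball.inter (HP_open.inter hW)
    have hf' := hf.mono (inter_subset_left (t := HP ∩ W))
    have hv' : ∀ c, EqOn f (φ c) ((ball ξ e ∩ (HP ∩ W)) ∩ oface nxt L ξ c) := fun c w hw =>
      hv c ⟨hw.1.1, hw.2⟩
    refine ⟨_, f, hU, ⟨mem_ball_self he, h0, mem_iInter.2 fun c => ?_⟩, fun w hw => hw.2.1, hf',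
      hv' d, fun ζ hζ => ?_⟩
    · change 0 < cd _ _ _
      rw [cd_cyc]
      exact H.pos c
    · have : Nonempty D := ⟨d⟩
      obtain ⟨c, c1, c2⟩ := link_walk (fun c => rev (nxt (nxt c))) (fun c => Ψ (mob (L c) ξ))
        (Ψ ξ) (Ψ ζ) fun c => by have := H.pos c; rwa [H.link] at this
      refine gs_base hU hf' (hv' c) hζ ⟨hζ.2.1, c1, le_of_lt (mem_iInter.1 hζ.2.2 c), ?_⟩
      rw [H.link]
      exact c2
  rcases h1.eq_or_lt with h1 | h1
  swap
  · exact ⟨_, φ d, OF_open _ _ _, ⟨h0, h1, hy, h3⟩, fun w hw => hw.1, Q.hol d, fun w _ => rfl,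
      fun ζ hζ => gs_base (OF_open _ _ _) (Q.hol d) (fun w _ => rfl) hζ (OF_sub_CF _ _ _ hζ)⟩
  obtain ⟨r, hr, k, k1, k2, k3⟩ := Q.edge d ξ h0 ⟨_, _, div_pos hy hD, div_pos h3 hD,
    by field_simp; linarith, by
      have := hD.ne'
      apply Prod.ext
      all_goals
        simp only [Prod.fst_add, Prod.snd_add, Prod.smul_fst, Prod.smul_snd, smul_eq_mul]
        field_simp
        simp only [cd, det3] at h1 ⊢
      · linear_combination (Ψ (mob (L d * L (nxt d)) z)).1 * h1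
      · linear_combination (Ψ (mob (L d * L (nxt d)) z)).2 * h1⟩
  have hD' := H.pos (nxt (rev d))
  rw [H.link'] at hD'
  let W : Set ℂ := HP ∩ ({w | 0 < cd (mob (L d) z) (mob (L d * L (nxt d)) z) w} ∩
    {w | 0 < cd (mob (L d * L (nxt d)) z) z w} ∩ ({w | 0 < cd z (mob (L (nxt (rev d))) z) w} ∩
    {w | 0 < cd (mob (L (nxt (rev d))) z) (mob (L d) z) w}))
  have oc : ∀ a b : ℂ, IsOpen {w | 0 < cd a b w} := fun a b =>
    isOpen_lt continuous_const (cd_cont _ _)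
  have hU : IsOpen (ball ξ r ∩ W) := isOpen_ball.inter (HP_open.inter
    (((oc _ _).inter (oc _ _)).inter ((oc _ _).inter (oc _ _))))
  have k1' := k1.mono (inter_subset_left (t := W))
  refine ⟨_, k, hU, ⟨mem_ball_self hr, h0, ⟨hy, h3⟩, ?_, ?_⟩, fun w hw => hw.2.1, k1',
    fun w hw => k2 ⟨hw.1.1, hw.2⟩, fun ζ hζ => ?_⟩
  · have := cd_bary z (mob (L d) z) (mob (L d * L (nxt d)) z) ξ z (mob (L (nxt (rev d))) z)
    rw [cd_left, ← h1] at this
    exact (mul_pos_iff_of_pos_left hD).1 (by rw [this]; simpa only [mul_zero, zero_add, zero_mul, add_zero] using mul_pos h3 hD')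
  · have := cd_bary z (mob (L d) z) (mob (L d * L (nxt d)) z) ξ (mob (L (nxt (rev d))) z)
      (mob (L d) z)
    rw [cd_right, ← h1, cd_cyc z] at this
    exact (mul_pos_iff_of_pos_left hD).1 (by rw [this]; simpa only [mul_zero, add_zero, zero_mul] using mul_pos hy hD')
  · obtain ⟨b0, b1, ⟨b2, b3⟩, b4, b5⟩ := id hζ
    rcases le_total 0 (cd z (mob (L d) z) ζ) with c | c
    · exact gs_base hU k1' (fun w hw => k2 ⟨hw.1.1, hw.2⟩) hζ ⟨b1, c, le_of_lt b2, le_of_lt b3⟩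
    · refine gs_base hU k1' (fun w hw => k3 ⟨hw.1.1, hw.2⟩) hζ ⟨b1, le_of_lt b4, ?_, ?_⟩
      · rw [H.link']
        exact le_of_lt b5
      · rw [H.link', cd_swap]
        linarith only [c]

theorem locG_all [Finite D] (H : DS nxt rev L z) (Q : QData nxt rev L z φ) {e : ℝ} (he : 0 < e)
    {f : ℂ → ℂ} (hf : DifferentiableOn ℂ f (ball z e))
    (hv : ∀ d, EqOn f (φ d) (ball z e ∩ oface nxt L z d)) (d : D) {ξ : ℂ}
    (hξ : ξ ∈ cface nxt L z d) : LocG nxt L z φ d ξ := by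
  have h1 := mob_mem (L d)⁻¹ hξ.1
  have e1 := mob_mob_inv (L d) hξ.1
  have c1 := (H.rot_cface d h1).1 (by rwa [e1])
  obtain ⟨a1, a2, a3⟩ := H.rot_cd d h1
  have h2 := mob_mem (L (nxt d))⁻¹ h1
  have e2 := mob_mob_inv (L (nxt d)) h1
  have c2 := (H.rot_cface (nxt d) h2).1 (by rwa [e2])
  obtain ⟨b1, b2, b3⟩ := H.rot_cd (nxt d) h2
  rw [e1] at a1 a2 a3
  rw [e2] at b1 b2 b3
  have hs := cd_sum z (mob (L d) z) (mob (L d * L (nxt d)) z) ξ
  have hD := H.pos d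
  have t0 := locG_base H Q he hf hv hξ
  have t1 := fun a b => (locG_base H Q he hf hv c1 a b).rot H Q
  have t2 := fun a b => (locG_base H Q he hf hv c2 a b).rot H Q
  rw [e2] at t2
  have t3 := fun a b => (t2 a b).rot H Q
  rw [e1] at t1 t3
  rw [a1, a2, a3] at t1
  rw [b1, b2, b3, a1, a2, a3] at t3
  by_cases x : 0 < cd z (mob (L d) z) ξ <;>
    by_cases y : 0 < cd (mob (L d) z) (mob (L d * L (nxt d)) z) ξ <;>
    by_cases w : 0 < cd (mob (L d * L (nxt d)) z) z ξ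
  · exact t0 y (Or.inl w)
  · exact t3 x (Or.inl y)
  · exact t1 w (Or.inl x)
  · exact t3 x (Or.inr w)
  · exact t0 y (Or.inl w)
  · exact t0 y (Or.inr x)
  · exact t1 w (Or.inr y)
  · exact absurd hD (by linarith)

theorem locG_unif [Finite D] (H : DS nxt rev L z)
    (h : ∀ d, ∀ ξ ∈ cface nxt L z d, LocG nxt L z φ d ξ) :
    ∃ δ > 0, ∃ Y > 0, ∀ d, ∀ ξ ∈ cface nxt L z d, ξ.im ≤ Y ∧ ∃ f, DifferentiableOn ℂ f (ball ξ δ) ∧
      EqOn f (φ d) (ball ξ δ ∩ oface nxt L z d) ∧ ∀ ζ ∈ ball ξ δ, GS nxt L z φ ζ f := by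
  have h1 : ∀ d, ∀ᶠ δ in 𝓝[>] (0 : ℝ), ∀ ξ ∈ cface nxt L z d, ξ.im ≤ δ⁻¹ ∧ ∃ f,
      DifferentiableOn ℂ f (ball ξ δ) ∧ EqOn f (φ d) (ball ξ δ ∩ oface nxt L z d) ∧
        ∀ ζ ∈ ball ξ δ, GS nxt L z φ ζ f := by
    intro d
    have hK : IsCompact (cface nxt L z d) := CF_compact H.hz (H.m1 d) (H.m2 d) (H.pos d)
    choose U f h1 h2 h3 h4 h5 h6 using fun ξ : cface nxt L z d => h d ξ ξ.2
    obtain ⟨δ, hδ, hl⟩ := lebesgue_number_lemma_of_metric hK h1
      fun ξ hξ => mem_iUnion.2 ⟨⟨ξ, hξ⟩, h2 _⟩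
    obtain ⟨Y, hY⟩ := (hK.image Complex.continuous_im).bddAbove
    filter_upwards [Ioo_mem_nhdsGT hδ, tendsto_inv_nhdsGT_zero.eventually_ge_atTop Y]
      with ε hε hεY ξ hξ
    obtain ⟨i, hi⟩ := hl ξ hξ
    have hs : ball ξ ε ⊆ U i := (ball_subset_ball hε.2.le).trans hi
    exact ⟨(hY ⟨ξ, hξ, rfl⟩).trans hεY, f i, (h4 i).mono hs,
      fun w hw => h5 i ⟨hs hw.1, hw.2⟩, fun ζ hζ => h6 i ζ (hs hζ)⟩
  obtain ⟨δ, h2, h3⟩ := ((eventually_all.2 h1).and self_mem_nhdsWithin).exists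
  exact ⟨δ, h3, δ⁻¹, inv_pos.2 h3, h2⟩

theorem ball_transport {δ Y : ℝ} (hδ : 0 < δ) (hY : 0 < Y) : ∃ e > 0, ∀ (g : G), ∀ ξ ∈ HP,
    ξ.im ≤ Y → ∀ v ∈ ball (mob g ξ) (e * (mob g ξ).im), v ∈ HP ∧ mob g⁻¹ v ∈ ball ξ δ := by
  obtain ⟨e, e0, e1, e2⟩ : ∃ e : ℝ, 0 < e ∧ e ≤ 1 / 2 ∧ e * (Y * (Y + δ)) < δ ^ 2 := by
    refine ⟨min (1 / 2) (δ ^ 2 / (2 * (Y * (Y + δ)))), by positivity, min_le_left _ _, ?_⟩
    have := mul_le_mul_of_nonneg_right (min_le_right (1 / 2) (δ ^ 2 / (2 * (Y * (Y + δ)))))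
      (by positivity : 0 ≤ Y * (Y + δ))
    have e : δ ^ 2 / (2 * (Y * (Y + δ))) * (Y * (Y + δ)) = δ ^ 2 / 2 := by field_simp
    linarith only [sq_pos_of_pos hδ, this, e]
  refine ⟨e, e0, fun g ξ hξ hy v hv => ?_⟩
  have hζ : 0 < (mob g ξ).im := mob_mem g hξ
  rw [mem_ball, dist_eq_norm] at hv
  have i1 := (abs_le.1 ((Complex.abs_im_le_norm (v - mob g ξ)).trans hv.le)).1
  rw [Complex.sub_im] at i1
  have i2 : (mob g ξ).im / 2 ≤ v.im := by nlinarith only [e1, hζ, i1]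
  have hv0 : v ∈ HP := lt_of_lt_of_le (half_pos hζ) i2
  refine ⟨hv0, ?_⟩
  have hw := mob_mem g⁻¹ hv0
  have hw' : 0 < (mob g⁻¹ v).im := hw
  have hξ' : 0 < ξ.im := hξ
  have r := mob_ratio g hw hξ
  rw [mob_mob_inv g hv0] at r
  rw [mem_ball, dist_eq_norm]
  by_contra hc
  push Not at hc
  have i3 := (abs_le.1 (Complex.abs_im_le_norm (mob g⁻¹ v - ξ))).2
  rw [Complex.sub_im] at i3
  generalize ‖mob g⁻¹ v - ξ‖ = s at *
  generalize (mob g⁻¹ v).im = y at *
  generalize (mob g ξ).im = t at *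
  have hn := norm_nonneg (v - mob g ξ)
  generalize ‖v - mob g ξ‖ = n at *
  have s0 : 0 < s := hδ.trans_le hc
  have n2 : n ^ 2 ≤ (e * t) ^ 2 := pow_le_pow_left₀ hn hv.le 2
  have j1 : y * ξ.im ≤ (Y + s) * Y := mul_le_mul (by linarith only [hy, i3]) hy hξ'.le (by positivity)
  have j2 : s ^ 2 * (t / 2 * t) ≤ (e * t) ^ 2 * ((Y + s) * Y) :=
    calc _ ≤ s ^ 2 * (v.im * t) := by gcongr
      _ = _ := r.symm
      _ ≤ _ := mul_le_mul n2 j1 (by positivity) (by positivity)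
  have j3 : s ^ 2 ≤ 2 * e ^ 2 * ((Y + s) * Y) :=
    le_of_mul_le_mul_right (a := t ^ 2) (by linarith only [j2]) (by positivity)
  have j4 : 2 * e ^ 2 * ((Y + s) * Y) ≤ e * ((Y + s) * Y) := by
    have : 2 * e ^ 2 ≤ e := by nlinarith only [e0, e1]
    gcongr
  have j5 : δ * (Y + s) ≤ s * (Y + δ) := by nlinarith only [hY, hc]
  have j6 : δ * s ^ 2 ≤ e * Y * (s * (Y + δ)) :=
    calc _ ≤ δ * (e * ((Y + s) * Y)) := mul_le_mul_of_nonneg_left (j3.trans j4) hδ.le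
      _ = e * Y * (δ * (Y + s)) := by ring
      _ ≤ _ := by gcongr
  have j7 : s * (e * (Y * (Y + δ))) < s * δ ^ 2 := mul_lt_mul_of_pos_left e2 s0
  have j8 : s * δ * δ ≤ s * δ * s := by gcongr
  linarith only [j6, j7, j8]

/-- Globalisation. -/
theorem glob [Finite D] [Nonempty D] (H : DS nxt rev L z) (Q : QData nxt rev L z φ) {e : ℝ}
    (he : 0 < e) {f : ℂ → ℂ} (hf : DifferentiableOn ℂ f (ball z e))
    (hv : ∀ d, EqOn f (φ d) (ball z e ∩ oface nxt L z d)) :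
    ∃ P : ℂ → ℂ, DifferentiableOn ℂ P HP ∧ (∀ d, EqOn P (φ d) (oface nxt L z d)) ∧
      ∀ d, QInv P (L d) := by
  obtain ⟨δ, hδ, Y, hY, hu⟩ := locG_unif H fun d ξ => locG_all H Q he hf hv d
  obtain ⟨ε, hε, ht⟩ := ball_transport hδ hY
  obtain ⟨d₀⟩ := ‹Nonempty D›
  obtain ⟨P, p1, p2, -⟩ := mono_ext (S := GS nxt L z φ) (h₀ := f) GS.germ hε (by
    rintro ζ - h ⟨g, d, ξ, h1, rfl, h3, h4⟩
    obtain ⟨hy, k, k1, k2, k3⟩ := hu d ξ h1
    have hb := ht g ξ h1.1 hy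
    have hζ := mob_mem g h1.1
    have ka : AnalyticAt ℂ k ξ := k1.analyticAt (ball_mem_nhds _ hδ)
    refine ⟨push g k, fun v hv => (push_diffAt g (hb v hv).1
      (k1.differentiableAt (isOpen_ball.mem_nhds (hb v hv).2))).differentiableWithinAt, ?_,
      fun v hv => by simpa only [mob_mob_inv _ (hb v hv).1] using (k3 _ (hb v hv).2).push g⟩
    have a1 : AnalyticAt ℂ (push g⁻¹ h) ξ := push_an _ h1.1 (by rwa [inv_inv])
    have a2 : push g⁻¹ h =ᶠ[𝓝 ξ] k := (a1.frequently_eq_iff_eventually_eq ka).1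
      ((H.freq d h1).mp (Eventually.filter_mono nhdsWithin_le_nhds (by
        filter_upwards [h4, ball_mem_nhds ξ hδ] with w a b c
        have := jj_ne g c.1
        rw [push, inv_inv, a c, k2 ⟨b, c⟩]
        simp [zpow_ofNat, this])))
    have a3 : Tendsto (mob g⁻¹) (𝓝 (mob g ξ)) (𝓝 ξ) := by
      simpa only [ContinuousAt, mob_inv_mob _ h1.1] using (mob_diffAt g⁻¹ hζ).continuousAt
    filter_upwards [a3.eventually a2, HP_open.mem_nhds hζ] with v a b
    have := jj_ne g⁻¹ b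
    rw [push, ← a, push_mob _ _ b]
    simp [zpow_ofNat, this]) H.hz
    (gs_base isOpen_ball hf (hv d₀) (mem_ball_self he) (H.z_mem d₀))
  have key : ∀ d, EqOn P (φ d) (oface nxt L z d) := fun d => by
    obtain ⟨m, m1, m2, m3⟩ := ((H.freq d (H.z_mem d)).and_eventually
      (Eventually.filter_mono nhdsWithin_le_nhds
        (p2.eventually_nhds.and (ball_mem_nhds z he)))).exists
    refine eqOn_of_ev (OF_open _ _ _) (OF_preconn _ _ _) (p1.mono fun w hw => hw.1) (Q.hol d) m1 ?_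
    filter_upwards [m2, isOpen_ball.mem_nhds m3, (OF_open _ _ _).mem_nhds m1] with w a b c
    rw [a, hv d ⟨b, c⟩]
  refine ⟨P, p1, key, fun d => ?_⟩
  obtain ⟨m, hm⟩ := (H.freq (nxt d) (H.z_mem _)).exists
  refine eqOn_of_ev (f := fun w => P (mob (L d) w)) (g := fun w => jj (L d) w ^ 4 * P w) HP_open
    HP_convex.isPreconnected (p1.comp (fun w hw => (mob_diffAt _ hw).differentiableWithinAt)
      fun w hw => mob_mem _ hw) (((jj_diff _).pow 4).differentiableOn.mul p1) hm.1 ?_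
  filter_upwards [(OF_open _ _ _).mem_nhds hm] with w hw
  rw [key d ((H.rot_oface d hw.1).2 hw), key _ hw, Q.rot d w hw]

/-- With one vertex, extensions over the vertex corner by corner agree. -/
theorem vert_one [Finite D] [Nonempty D] (H : DS nxt rev L z) (Q : QData nxt rev L z φ)
    (hT : ∀ P : D → Prop, (∀ d, P d ↔ P (nxt (rev d))) → ∀ d d', P d → P d')
    (hv : ∀ d, ∃ e > 0, ∃ f, DifferentiableOn ℂ f (ball z e) ∧
      EqOn f (φ d) (ball z e ∩ oface nxt L z d)) :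
    ∃ e > 0, ∃ f, DifferentiableOn ℂ f (ball z e) ∧
      ∀ d, EqOn f (φ d) (ball z e ∩ oface nxt L z d) := by
  have h1 : ∀ d, ∀ᶠ e in 𝓝[>] (0 : ℝ), ∃ f, DifferentiableOn ℂ f (ball z e) ∧
      EqOn f (φ d) (ball z e ∩ oface nxt L z d) := fun d => by
    obtain ⟨e, he, f, f1, f2⟩ := hv d
    filter_upwards [Ioo_mem_nhdsGT he] with ε hε
    have hs : ball z ε ⊆ ball z e := ball_subset_ball hε.2.le
    exact ⟨f, f1.mono hs, fun w hw => f2 ⟨hs hw.1, hw.2⟩⟩
  obtain ⟨e, h2, he⟩ := ((eventually_all.2 h1).and self_mem_nhdsWithin).exists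
  choose f f1 f2 using h2
  have step : ∀ d, EqOn (f d) (f (nxt (rev d))) (ball z e) := fun d => by
    have hc : Continuous fun t : ℝ => κ ((1 - t) • Ψ z + t • Ψ (mob (L d) z)) :=
      κ_cont.comp (by fun_prop)
    have hl : Tendsto (fun t : ℝ => κ ((1 - t) • Ψ z + t • Ψ (mob (L d) z))) (𝓝[>] 0) (𝓝 z) := by
      have := (hc.tendsto 0).mono_left (nhdsWithin_le_nhds (s := Ioi 0))
      simpa [κ_Ψ H.hz] using this
    obtain ⟨t, hb, t0, t1⟩ := ((hl.eventually (ball_mem_nhds z he)).and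
      (Ioo_mem_nhdsGT (zero_lt_one' ℝ))).exists
    have t2 : 0 < 1 - t := by linarith
    have hI : InH ((1 - t) • Ψ z + t • Ψ (mob (L d) z)) :=
      InH_convex (Ψ_InH H.hz) (Ψ_InH (H.m1 d)) t2.le t0.le (by ring)
    have key : ∀ x y : ℂ, cd x y (κ ((1 - t) • Ψ z + t • Ψ (mob (L d) z))) =
        (1 - t) * cd x y z + t * cd x y (mob (L d) z) := fun x y => by
      rw [cd, Ψ_κ hI]
      simp only [cd, det3, Prod.fst_add, Prod.snd_add, Prod.smul_fst, Prod.smul_snd, smul_eq_mul]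
      ring
    obtain ⟨r, hr, k, k1, k2, k3⟩ := Q.edge d _ (κ_mem hI)
      ⟨_, _, t2, t0, by ring, (Ψ_κ hI).symm⟩
    have hD := H.pos d
    have hD' := H.pos (nxt (rev d))
    rw [H.link'] at hD'
    have c1 : κ ((1 - t) • Ψ z + t • Ψ (mob (L d) z)) ∈ cface nxt L z d := by
      refine ⟨κ_mem hI, ?_, ?_, ?_⟩
      · rw [key, cd_left, cd_right]
        simp
      · rw [key, cd_left, cd_cyc]
        positivity
      · rw [key, cd_right, cd_cyc _ _ z, cd_cyc]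
        positivity
    have c2 : κ ((1 - t) • Ψ z + t • Ψ (mob (L d) z)) ∈ cface nxt L z (nxt (rev d)) := by
      refine ⟨κ_mem hI, ?_, ?_, ?_⟩
      · rw [key, cd_left]
        positivity
      · rw [H.link', key, cd_right, cd_cyc]
        positivity
      · rw [H.link', key, cd_left, cd_right]
        simp
    generalize κ ((1 - t) • Ψ z + t • Ψ (mob (L d) z)) = x at *
    have ag : ∀ c, x ∈ cface nxt L z c → EqOn k (φ c) (ball x r ∩ oface nxt L z c) →
        f c =ᶠ[𝓝 x] k := fun c hc hk =>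
      (((f1 c).analyticAt (isOpen_ball.mem_nhds hb)).frequently_eq_iff_eventually_eq
        (k1.analyticAt (ball_mem_nhds x hr))).1 ((H.freq c hc).mp
          (Eventually.filter_mono nhdsWithin_le_nhds (by
            filter_upwards [isOpen_ball.mem_nhds hb, ball_mem_nhds x hr] with w a b o
            rw [f2 c ⟨a, o⟩, hk ⟨b, o⟩])))
    exact eqOn_of_ev isOpen_ball (convex_ball _ _).isPreconnected (f1 _) (f1 _) hb
      ((ag _ c1 k2).trans (ag _ c2 k3).symm)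
  obtain ⟨d₀⟩ := ‹Nonempty D›
  refine ⟨e, he, f d₀, f1 d₀, fun d w hw => ?_⟩
  rw [hT (fun d => EqOn (f d₀) (f d) (ball z e))
    (fun d => ⟨fun h => h.trans (step d), fun h => h.trans (step d).symm⟩) d₀ d
    (fun _ _ => rfl) hw.1, f2 d hw]

/-- Globalisation for a system with one vertex. -/
theorem glob_one [Finite D] [Nonempty D] (H : DS nxt rev L z) (Q : QData nxt rev L z φ)
    (hT : ∀ P : D → Prop, (∀ d, P d ↔ P (nxt (rev d))) → ∀ d d', P d → P d')
    (hv : ∀ d, ∃ e > 0, ∃ f, DifferentiableOn ℂ f (ball z e) ∧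
      EqOn f (φ d) (ball z e ∩ oface nxt L z d)) :
    ∃ P : ℂ → ℂ, DifferentiableOn ℂ P HP ∧ (∀ d, EqOn P (φ d) (oface nxt L z d)) ∧
      ∀ d, QInv P (L d) := by
  obtain ⟨e, he, f, f1, f2⟩ := vert_one H Q hT hv
  exact glob H Q he f1 f2

theorem cd_tendsto {X : Type*} {l : Filter X} {a b c : X → ℂ} {p q r : ℂ} (ha : Tendsto a l (𝓝 p))
    (hb : Tendsto b l (𝓝 q)) (hc : Tendsto c l (𝓝 r)) :
    Tendsto (fun x => cd (a x) (b x) (c x)) l (𝓝 (cd p q r)) := by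
  have : Continuous fun u : ℂ × ℂ × ℂ => cd u.1 u.2.1 u.2.2 := by
    unfold cd det3 Ψ
    fun_prop
  exact (this.tendsto (p, q, r)).comp (ha.prodMk_nhds (hb.prodMk_nhds hc))

/-- The apex can be moved back so that the old apex lies inside the face. -/
theorem apex (A B : G) (hz : z ∈ HP) (hD : 0 < cd z (mob A z) (mob B z)) :
    ∃ᶠ t in 𝓝 z, z ∈ OF t (mob A t) (mob B t) := by
  let m : Pt := (Ψ (mob A z) - Ψ z) + (Ψ (mob B z) - Ψ z)
  have hc : Continuous fun s : ℝ => Ψ z - s • m := by fun_prop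
  have h0 : Tendsto (fun s : ℝ => Ψ z - s • m) (𝓝[>] 0) (𝓝 (Ψ z)) := by
    simpa using (hc.tendsto 0).mono_left (nhdsWithin_le_nhds (s := Ioi 0))
  have hl : Tendsto (fun s : ℝ => κ (Ψ z - s • m)) (𝓝[>] 0) (𝓝 z) := by
    simpa [κ_Ψ hz, Function.comp_def] using (κ_cont.tendsto _).comp h0
  have hI : ∀ᶠ s in 𝓝[>] (0 : ℝ), InH (Ψ z - s • m) :=
    h0.eventually ((isOpen_lt (f := fun u : Pt => u.1 ^ 2) (by fun_prop) continuous_snd).mem_nhds
      (Ψ_InH hz))
  have hA := (mob_diffAt A hz).continuousAt.tendsto.comp hl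
  have hB := (mob_diffAt B hz).continuousAt.tendsto.comp hl
  have g1 := (cd_tendsto (tendsto_const_nhds (x := z)) hA (tendsto_const_nhds (x := mob A z))).add
    (cd_tendsto (tendsto_const_nhds (x := z)) hA (tendsto_const_nhds (x := mob B z)))
  have g2 := cd_tendsto hA hB (tendsto_const_nhds (x := z))
  have g3 := (cd_tendsto (tendsto_const_nhds (x := z)) (tendsto_const_nhds (x := mob A z)) hB).add
    (cd_tendsto (tendsto_const_nhds (x := z)) (tendsto_const_nhds (x := mob B z)) hB)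
  rw [cd_right, zero_add] at g1
  rw [cd_right, add_zero] at g3
  rw [cd_cyc] at g2
  refine hl.frequently (Eventually.frequently ?_)
  filter_upwards [hI, g1.eventually_const_lt hD, g2.eventually_const_lt hD,
    g3.eventually_const_lt hD, self_mem_nhdsWithin] with s a b c d s0
  refine ⟨hz, ?_, c, ?_⟩
  · refine (mul_pos (mem_Ioi.1 s0) b).trans_eq (Eq.symm ?_)
    rw [cd, Ψ_κ a]
    simp only [cd, det3, m, Function.comp, Prod.fst_add, Prod.snd_add, Prod.fst_sub, Prod.snd_sub,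
      Prod.smul_fst, Prod.smul_snd, smul_eq_mul]
    ring
  · refine (mul_pos (mem_Ioi.1 s0) d).trans_eq (Eq.symm ?_)
    rw [cd, Ψ_κ a]
    simp only [cd, det3, m, Function.comp, Prod.fst_add, Prod.snd_add, Prod.fst_sub, Prod.snd_sub,
      Prod.smul_fst, Prod.smul_snd, smul_eq_mul]
    ring

/-- A compact part of an open face stays inside when the base point moves a little. -/
theorem compact_stays (A B : G) (hz : z ∈ HP) {K : Set ℂ} (hK : IsCompact K)
    (h : K ⊆ OF z (mob A z) (mob B z)) : ∀ᶠ t in 𝓝 z, K ⊆ OF t (mob A t) (mob B t) := by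
  refine hK.eventually_forall_of_forall_eventually fun w hw => ?_
  obtain ⟨h0, h1, h2, h3⟩ := h hw
  have t1 : Tendsto (Prod.fst : ℂ × ℂ → ℂ) (𝓝 (z, w)) (𝓝 z) := continuous_fst.tendsto _
  have t2 : Tendsto (Prod.snd : ℂ × ℂ → ℂ) (𝓝 (z, w)) (𝓝 w) := continuous_snd.tendsto _
  have hA := (mob_diffAt A hz).continuousAt.tendsto.comp t1
  have hB := (mob_diffAt B hz).continuousAt.tendsto.comp t1
  filter_upwards [t2.eventually (HP_open.mem_nhds h0), (cd_tendsto t1 hA t2).eventually_const_lt h1,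
    (cd_tendsto hA hB t2).eventually_const_lt h2, (cd_tendsto hB t1 t2).eventually_const_lt h3]
    with u a b c d
  exact ⟨a, b, c, d⟩

end

end Pool.Agent.MP_596265_gt.U.RG

end

section

/-! Block H: geodesic triangles as subsets of `ℂ`, cuts, gluing. -/

namespace Pool.Agent.MP_596265_gt.Hd.Kit

open Set MeasureTheory Filter Topology Pool.Agent.MP_596265_gt.U
open scoped NNReal

/-- The chart in which geodesics are straight. -/
def Kc (w : ℂ) : Pt := (w.re, Complex.normSq w)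

/-- The inverse chart. -/
noncomputable def Ki (u : Pt) : ℂ := ⟨u.1, √(u.2 - u.1 ^ 2)⟩

/-- The closed plane triangle. -/
def PT (a b c : Pt) : Set Pt := {u | 0 ≤ det3 a b u ∧ 0 ≤ det3 b c u ∧ 0 ≤ det3 c a u}

/-- The part of the upper half plane with chart in `Q`. -/
def up (Q : Set Pt) : Set ℂ := {w | 0 < w.im ∧ Kc w ∈ Q}

theorem Kc_eq (w : ℂ) : Kc w = (w.re, w.re ^ 2 + w.im ^ 2) := by
  simp [Kc, Complex.normSq_apply, pow_two]

theorem hd_eq (p q r : ℂ) : hd p q r = det3 (Kc p) (Kc q) (Kc r) := rfl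

theorem tri_eq (p q r : ℂ) : tri p q r = up (PT (Kc p) (Kc q) (Kc r)) := rfl

theorem seg_eq (p q : ℂ) : seg p q = up (segment ℝ (Kc p) (Kc q)) := by
  ext w
  rw [segment_eq_image]
  refine and_congr_right fun _ => exists_congr fun t => and_congr_right fun _ => ?_
  simp only [Prod.ext_iff, Kc, Prod.fst_add, Prod.smul_fst, smul_eq_mul, Prod.snd_add,
    Prod.smul_snd, eq_comm]

theorem inH_K {w : ℂ} (h : 0 < w.im) : InH (Kc w) := by
  simp only [InH, Kc_eq]; nlinarith only [h]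

theorem K_Ki {u : Pt} (h : InH u) : Kc (Ki u) = u := by
  rw [Kc_eq]
  refine Prod.ext rfl ?_
  simp only [Ki]
  rw [Real.sq_sqrt (sub_pos.2 h).le]; ring

theorem Ki_K {w : ℂ} (h : 0 < w.im) : Ki (Kc w) = w := by
  refine Complex.ext rfl ?_
  simp only [Kc_eq, Ki, add_sub_cancel_left]
  exact Real.sqrt_sq h.le

theorem Ki_im {u : Pt} (h : InH u) : 0 < (Ki u).im := Real.sqrt_pos.2 (sub_pos.2 h)

theorem K_inj {w w' : ℂ} (h : 0 < w.im) (h' : 0 < w'.im) (e : Kc w = Kc w') : w = w' := by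
  rw [← Ki_K h, e, Ki_K h']

theorem image_Ki {Q : Set Pt} (hQ : ∀ u ∈ Q, InH u) : Ki '' Q = up Q := by
  ext w
  constructor
  · rintro ⟨u, hu, rfl⟩
    exact ⟨Ki_im (hQ u hu), by rwa [K_Ki (hQ u hu)]⟩
  · exact fun h => ⟨_, h.2, Ki_K h.1⟩

theorem contDiff_K : ContDiff ℝ ⊤ Kc := by
  have h1 : ContDiff ℝ ⊤ fun w : ℂ => w.re := Complex.reCLM.contDiff
  have h2 : ContDiff ℝ ⊤ fun w : ℂ => w.im := Complex.imCLM.contDiff
  rw [show Kc = _ from funext Kc_eq]
  exact h1.prodMk ((h1.pow 2).add (h2.pow 2))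

theorem Ki_eq (u : Pt) : Ki u = (u.1 : ℂ) + (√(u.2 - u.1 ^ 2) : ℝ) * Complex.I := by
  apply Complex.ext <;> simp [Ki]

theorem contDiffAt_Ki {u : Pt} (h : InH u) : ContDiffAt ℝ ⊤ Ki u := by
  have h1 : ContDiffAt ℝ ⊤ (fun u : Pt => √(u.2 - u.1 ^ 2)) u :=
    ContDiffAt.sqrt (by fun_prop) (sub_pos.2 h).ne'
  have h2 := (Complex.ofRealCLM.contDiff.contDiffAt.comp u (contDiffAt_fst (𝕜 := ℝ) (n := ⊤))).add
    ((Complex.ofRealCLM.contDiff.contDiffAt.comp u h1).mul (contDiffAt_const (c := Complex.I)))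
  exact h2.congr_of_eventuallyEq (Eventually.of_forall Ki_eq)

theorem continuous_Ki : Continuous Ki := by
  rw [show Ki = _ from funext Ki_eq]; fun_prop

theorem convex_inH : Convex ℝ {u : Pt | InH u} := by
  rintro u hu v hv a b ha hb hab
  simp only [mem_ofPred_eq, InH, Prod.fst_add, Prod.smul_fst, smul_eq_mul, Prod.snd_add,
    Prod.smul_snd] at *
  obtain rfl : b = 1 - a := by linarith
  rcases ha.eq_or_lt with rfl | ha
  · simpa using hv
  · linarith only [mul_pos ha (sub_pos.2 hu), mul_nonneg hb (sub_pos.2 hv).le, mul_nonneg (mul_nonneg ha.le hb) (sq_nonneg (u.1 - v.1))]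

theorem lip_Ki {Q : Set Pt} (hc : Convex ℝ Q) (hk : IsCompact Q) (hQ : ∀ u ∈ Q, InH u) :
    ∃ C, LipschitzOnWith C Ki Q :=
  ContDiffOn.exists_lipschitzOnWith (n := ⊤) (fun u hu => (contDiffAt_Ki (hQ u hu)).contDiffWithinAt)
    (by simp) hc hk

theorem lip_K {S : Set ℂ} (hS : Bornology.IsBounded S) : ∃ C, LipschitzOnWith C Kc S := by
  obtain ⟨R, hR⟩ := hS.subset_closedBall 0
  obtain ⟨C, hC⟩ := ContDiffOn.exists_lipschitzOnWith (n := ⊤) contDiff_K.contDiffOn (by simp)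
    (convex_closedBall (0 : ℂ) R) (isCompact_closedBall _ _)
  exact ⟨C, hC.mono hR⟩

theorem compact_up {Q : Set Pt} (hk : IsCompact Q) (hQ : ∀ u ∈ Q, InH u) : IsCompact (up Q) := by
  rw [← image_Ki hQ]; exact hk.image continuous_Ki

/-- Gluing of Lipschitz maps along a finite closed cover of a geodesically convex compact set. -/
theorem glue {ι X : Type*} [Finite ι] [PseudoMetricSpace X] {Q : Set Pt} (hc : Convex ℝ Q)
    (hk : IsCompact Q) (hQ : ∀ u ∈ Q, InH u) {A : ι → Set Pt} (hA : ∀ i, IsClosed (A i))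
    (hcov : Q ⊆ ⋃ i, A i) {f : ℂ → X} (hf : ∀ i, ∃ C, LipschitzOnWith C f (up (A i ∩ Q))) :
    ∃ C, LipschitzOnWith C f (up Q) := by
  choose C hC using hf
  obtain ⟨M, hM⟩ := (finite_range C).bddAbove
  obtain ⟨L, hL⟩ := lip_Ki hc hk hQ
  have h1 : LipschitzOnWith (M * L) (f ∘ Ki) Q := by
    refine Lip.lip_glue hc (A := fun i => A i ∩ Q) (fun i => (hA i).inter hk.isClosed)
      (fun u hu => ?_) fun i => ?_
    · obtain ⟨i, hi⟩ := mem_iUnion.1 (hcov hu)
      exact mem_iUnion.2 ⟨i, hi, hu⟩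
    · refine ((hC i).weaken (hM ⟨i, rfl⟩)).comp (hL.mono inter_subset_right) fun u hu => ?_
      exact ⟨Ki_im (hQ u hu.2), by rw [K_Ki (hQ u hu.2)]; exact hu⟩
  obtain ⟨N, hN⟩ := lip_K (compact_up hk hQ).isBounded
  refine ⟨M * L * N, fun w hw w' hw' => ?_⟩
  have := h1.comp hN (fun w hw => hw.2) hw hw'
  simpa only [Function.comp_apply, Ki_K hw.1, Ki_K hw'.1] using this

/-! Plane triangles -/

section plane
variable {a b c d p u : Pt}

theorem det3_rot (a b c : Pt) : det3 b c a = det3 a b c := by simp only [det3]; ring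
theorem det3_swap (a b u : Pt) : det3 b a u = -det3 a b u := by simp only [det3]; ring
theorem det3_sum (a b c u : Pt) : det3 a b u + det3 b c u + det3 c a u = det3 a b c := by
  simp only [det3]; ring
theorem det3_bary (a b c p q u : Pt) : det3 p q u * det3 a b c =
    det3 p q a * det3 b c u + det3 p q b * det3 c a u + det3 p q c * det3 a b u := by
  simp only [det3]; ring
theorem det3_l (a b : Pt) : det3 a b a = 0 := by simp only [det3]; ring
theorem det3_r (a b : Pt) : det3 a b b = 0 := by simp only [det3]; ring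

theorem PT_rot (a b c : Pt) : PT b c a = PT a b c := by
  ext u; simp only [PT, mem_ofPred_eq]; tauto

theorem det3_comb (p q u v : Pt) {s t : ℝ} (h : s + t = 1) :
    det3 p q (s • u + t • v) = s * det3 p q u + t * det3 p q v := by
  obtain rfl : t = 1 - s := by linarith
  simp only [det3, Prod.fst_add, Prod.smul_fst, smul_eq_mul, Prod.snd_add, Prod.smul_snd]; ring

theorem convex_half (p q : Pt) : Convex ℝ {u | 0 ≤ det3 p q u} := by
  intro u hu v hv s t hs ht h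
  rw [mem_ofPred_eq, det3_comb _ _ _ _ h]
  exact add_nonneg (mul_nonneg hs hu) (mul_nonneg ht hv)

theorem continuous_det3 (p q : Pt) : Continuous (det3 p q) := by unfold det3; fun_prop

theorem convex_PT (a b c : Pt) : Convex ℝ (PT a b c) :=
  (convex_half a b).inter ((convex_half b c).inter (convex_half c a))

theorem bary (h : det3 a b c ≠ 0) (u : Pt) :
    u = a + (det3 c a u / det3 a b c) • (b - a) + (det3 a b u / det3 a b c) • (c - a) := by
  refine Prod.ext ?_ ?_ <;>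
    simp only [Prod.fst_add, Prod.smul_fst, smul_eq_mul, Prod.snd_add, Prod.smul_snd, Prod.fst_sub,
      Prod.snd_sub] <;> field_simp <;> simp only [det3] <;> ring

theorem PT_hull (h : 0 < det3 a b c) : PT a b c = convexHull ℝ {a, b, c} := by
  refine Subset.antisymm (fun u hu => ?_) (convexHull_min ?_ (convex_PT a b c))
  · have hs := det3_sum a b c u
    have m : ∀ x ∈ ({a, b, c} : Set Pt), x ∈ convexHull ℝ ({a, b, c} : Set Pt) :=
      subset_convexHull ℝ _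
    have := (convex_convexHull ℝ ({a, b, c} : Set Pt)).sum_mem (t := Finset.univ)
      (w := ![det3 b c u / det3 a b c, det3 c a u / det3 a b c, det3 a b u / det3 a b c])
      (z := ![a, b, c])
      (fun i _ => by fin_cases i <;> simp only [Nat.succ_eq_add_one, Nat.reduceAdd, Fin.zero_eta, Fin.isValue, Matrix.cons_val_zero, Fin.mk_one, Matrix.cons_val_one, Fin.reduceFinMk, Matrix.cons_val] <;> first | exact div_nonneg hu.2.1 h.le | exact div_nonneg hu.2.2 h.le | exact div_nonneg hu.1 h.le)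
      (by simp [Fin.sum_univ_three]; field_simp; linarith)
      (fun i _ => by fin_cases i <;> apply m <;> simp)
    convert this using 1
    simp only [Fin.sum_univ_three, Matrix.cons_val_zero, Matrix.cons_val_one, Matrix.cons_val]
    rw [show det3 b c u / det3 a b c = 1 - det3 c a u / det3 a b c - det3 a b u / det3 a b c by
      field_simp; linarith]
    conv_lhs => rw [bary h.ne' u]
    module
  · have r1 := det3_rot a b c
    have r2 := det3_rot b c a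
    rintro x (rfl | rfl | rfl) <;> refine ⟨?_, ?_, ?_⟩ <;>
      first | exact (det3_l _ _).ge | exact (det3_r _ _).ge | linarith

theorem compact_PT (h : 0 < det3 a b c) : IsCompact (PT a b c) := by
  rw [PT_hull h]; exact (toFinite _).isCompact_convexHull ℝ

theorem inH_PT (h : 0 < det3 a b c) (ha : InH a) (hb : InH b) (hc : InH c) :
    ∀ u ∈ PT a b c, InH u := by
  rw [PT_hull h]
  refine convexHull_min (t := {u | InH u}) ?_ convex_inH
  rintro x (rfl | rfl | rfl) <;> assumption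

/-- The closed plane quadrilateral. -/
def PQ4 (a b c d : Pt) : Set Pt :=
  {u | 0 ≤ det3 a b u ∧ 0 ≤ det3 b c u ∧ 0 ≤ det3 c d u ∧ 0 ≤ det3 d a u}

theorem PQ4_rot (a b c d : Pt) : PQ4 b c d a = PQ4 a b c d := by
  ext u; simp only [PQ4, mem_ofPred_eq]; tauto

theorem half_of_PT (h : 0 < det3 a b c) {p q : Pt} (h1 : 0 ≤ det3 p q a) (h2 : 0 ≤ det3 p q b)
    (h3 : 0 ≤ det3 p q c) (hu : u ∈ PT a b c) : 0 ≤ det3 p q u := by
  refine nonneg_of_mul_nonneg_left (b := det3 a b c) ?_ h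
  rw [det3_bary]
  exact add_nonneg (add_nonneg (mul_nonneg h1 hu.2.1) (mul_nonneg h2 hu.2.2)) (mul_nonneg h3 hu.1)

theorem PQ4_cut (h1 : 0 < det3 a b c) (h2 : 0 < det3 a c d) (h3 : 0 ≤ det3 a b d)
    (h4 : 0 ≤ det3 b c d) : PT a b c ∪ PT a c d = PQ4 a b c d := by
  have r1 := det3_rot a c d
  have r2 := det3_rot c d a
  have r3 := det3_rot b c d
  have r4 := det3_rot a b d
  have r5 := det3_rot b d a
  have r6 := det3_rot a b c
  ext u
  constructor
  · rintro (hu | hu)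
    · exact ⟨hu.1, hu.2.1, half_of_PT h1 (by linarith) (by linarith only [h4, r3]) (det3_l _ _).ge hu,
        half_of_PT h1 (det3_r _ _).ge (by linarith) (by linarith) hu⟩
    · exact ⟨half_of_PT h2 (det3_l _ _).ge h1.le h3 hu,
        half_of_PT h2 (by linarith) (det3_r _ _).ge h4 hu, hu.2.1, hu.2.2⟩
  · intro hu
    rcases le_total 0 (det3 c a u) with h | h
    · exact Or.inl ⟨hu.1, hu.2.1, h⟩
    · exact Or.inr ⟨by rw [det3_swap]; linarith, hu.2.2.1, hu.2.2.2⟩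

theorem PT_star (h1 : 0 < det3 a b p) (h2 : 0 < det3 b c p) (h3 : 0 < det3 c a p) :
    PT p a b ∪ PT p b c ∪ PT p c a = PT a b c := by
  have h : 0 < det3 a b c := by rw [← det3_sum a b c p]; positivity
  have r6 := det3_rot a b c
  have r7 := det3_rot b c a
  have k : ∀ {a b c : Pt}, 0 < det3 a b p → 0 < det3 b c p → 0 < det3 c a p → 0 < det3 a b c →
      PT p a b ⊆ PT a b c := fun {a b c} h1 h2 h3 h u hu => by
    have r1 : 0 < det3 p a b := by rw [← det3_rot]; exact h1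
    exact ⟨hu.2.1, half_of_PT r1 h2.le (by rw [det3_rot]; exact h.le) (det3_l _ _).ge hu,
      half_of_PT r1 h3.le (det3_r _ _).ge (by rw [det3_rot, det3_rot]; exact h.le) hu⟩
  refine Subset.antisymm (union_subset (union_subset (k h1 h2 h3 h) ?_) ?_) fun u hu => ?_
  · rw [← PT_rot a]; exact k h2 h3 h1 (by linarith)
  · rw [← PT_rot a, ← PT_rot b]; exact k h3 h1 h2 (by linarith)
  · have sa := det3_swap p a u
    have sb := det3_swap p b u
    have sc := det3_swap p c u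
    have e : det3 p a u * det3 b c p + det3 p b u * det3 c a p + det3 p c u * det3 a b p = 0 := by
      simp only [det3]; ring
    by_contra hn
    simp only [mem_union, PT, mem_ofPred_eq, hu.1, hu.2.1, hu.2.2, true_and, not_or, not_and_or,
      not_le] at hn
    obtain ⟨⟨n1 | n1, n2 | n2⟩, n3 | n3⟩ := hn <;>
      first
      | linarith only [sa, n1, n3, sc, n2, sb]
      | nlinarith [mul_pos h2 (neg_pos.2 n1), mul_pos h3 (neg_pos.2 n2), mul_pos h1 (neg_pos.2 n3)]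

theorem seg_of_PT (h : 0 < det3 a b c) (hu : u ∈ PT a b c) (h0 : det3 a b u = 0) :
    u ∈ segment ℝ a b := by
  have hs := det3_sum a b c u
  rw [segment_eq_image_lineMap]
  refine ⟨det3 c a u / det3 a b c, ⟨div_nonneg hu.2.2 h.le, (div_le_one h).2 ?_⟩, ?_⟩
  · linarith [hu.2.1]
  · conv_rhs => rw [bary h.ne' u, h0]
    simp [AffineMap.lineMap_apply, add_comm]

theorem seg_det (hu : u ∈ segment ℝ a b) : det3 a b u = 0 := by
  obtain ⟨s, t, -, -, hst, rfl⟩ := hu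
  rw [det3_comb _ _ _ _ hst, det3_l, det3_r]; simp

theorem seg_sub_PT (h : 0 < det3 a b c) : segment ℝ a b ⊆ PT a b c := by
  rw [PT_hull h]
  exact segment_subset_convexHull (by simp) (by simp)

theorem line_null {p q : Pt} (h : p ≠ q) : ∀ᵐ u : Pt, det3 p q u ≠ 0 := by
  let S : AffineSubspace ℝ Pt := ⟨{u | det3 p q u = 0}, fun c u v w hu hv hw => by
    simp only [mem_ofPred_eq, det3, vsub_eq_sub, vadd_eq_add, Prod.fst_add, Prod.smul_fst,
      smul_eq_mul, Prod.snd_add, Prod.smul_snd, Prod.fst_sub, Prod.snd_sub] at *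
    linear_combination c * hu - c * hv + hw⟩
  have hS : S ≠ ⊤ := fun e => by
    have : (p.1 - (q.2 - p.2), p.2 + (q.1 - p.1)) ∈ S := by rw [e]; trivial
    have e2 : (q.1 - p.1) * (p.2 + (q.1 - p.1) - p.2) - (q.2 - p.2) * (p.1 - (q.2 - p.2) - p.1) = 0 :=
      this
    exact h (Prod.ext (by nlinarith only [sq_nonneg (q.2 - p.2), e2])
      (by nlinarith only [sq_nonneg (q.1 - p.1), e2]))
  have : volume {u | det3 p q u = 0} = 0 := Measure.addHaar_affineSubspace volume S hS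
  rw [ae_iff]
  simpa only [ne_eq, Decidable.not_not] using this

end plane

/-! Geodesic triangles -/

section hyp
variable {a b c d p : ℂ} {V : Type} [NormedAddCommGroup V]

theorem ae_pull_K {P : Pt → Prop} (h : ∀ᵐ u, P u) : ∀ᵐ w : ℂ, 0 < w.im → P (Kc w) := by
  let T : Pt → Pt := fun u => (u.1, u.1 ^ 2 + u.2 ^ 2)
  let T' : Pt → Pt →L[ℝ] Pt := fun u => (ContinuousLinearMap.fst ℝ ℝ ℝ).prod
    ((2 * u.1) • ContinuousLinearMap.fst ℝ ℝ ℝ + (2 * u.2) • ContinuousLinearMap.snd ℝ ℝ ℝ)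
  have hs : MeasurableSet {u : Pt | 0 < u.2} := measurableSet_lt measurable_const measurable_snd
  have h1 := Lip.ae_pull volume hs (P := T) (P' := T') (fun u _ => by
      refine HasFDerivAt.hasFDerivWithinAt (hasFDerivAt_fst.prodMk ?_)
      have := ((hasFDerivAt_fst (𝕜 := ℝ) (p := u)).pow 2).add
        ((hasFDerivAt_snd (𝕜 := ℝ) (p := u)).pow 2)
      simp only [Nat.add_one_sub_one, pow_one, nsmul_eq_mul, Nat.cast_ofNat] at this
      exact this)
    (fun u hu v hv e => by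
      have e1 : u.1 = v.1 := (Prod.ext_iff.1 e).1
      have e2 : u.1 ^ 2 + u.2 ^ 2 = v.1 ^ 2 + v.2 ^ 2 := (Prod.ext_iff.1 e).2
      rw [e1, add_right_inj] at e2
      exact Prod.ext e1 ((pow_left_inj₀ (le_of_lt hu) (le_of_lt hv) two_ne_zero).1 e2))
    (fun u hu => by
      unfold ContinuousLinearMap.det
      rw [← LinearMap.det_toMatrix (Module.Basis.finTwoProd ℝ), Matrix.det_fin_two]
      simpa only [T', ContinuousLinearMap.coe_prod, ContinuousLinearMap.coe_fst, ContinuousLinearMap.toLinearMap_add, ContinuousLinearMap.toLinearMap_smul, ContinuousLinearMap.coe_snd, Fin.isValue, LinearMap.toMatrix_apply, Module.Basis.finTwoProd_zero, LinearMap.prod_apply, LinearMap.coe_fst, Function.prod_apply, LinearMap.add_apply, LinearMap.smul_apply, LinearMap.fst_apply, smul_eq_mul, mul_one, LinearMap.snd_apply, mul_zero, add_zero, Module.Basis.coe_finTwoProd_repr, Nat.succ_eq_add_one, Nat.reduceAdd, Matrix.cons_val_zero,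 Module.Basis.finTwoProd_one, zero_add, Matrix.cons_val_one, Matrix.cons_val_fin_one, one_mul, zero_mul, sub_zero, ne_eq, mul_eq_zero, OfNat.ofNat_ne_zero, false_or] using (ne_of_gt hu)) h
  rw [ae_restrict_iff' hs] at h1
  simp only [Kc_eq]
  exact Complex.volume_preserving_equiv_real_prod.quasiMeasurePreserving.ae h1

/-- Geodesics are null. -/
theorem geod_null (h : Kc a ≠ Kc b) : ∀ᵐ w : ℂ, 0 < w.im → hd a b w ≠ 0 :=
  ae_pull_K (P := fun u => det3 (Kc a) (Kc b) u ≠ 0) (line_null h)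

theorem ne_of_hd (h : 0 < hd a b c) : Kc a ≠ Kc b ∧ Kc b ≠ Kc c ∧ Kc c ≠ Kc a := by
  rw [hd_eq] at h
  refine ⟨?_, ?_, ?_⟩ <;> intro e <;> rw [e] at h <;> simp only [det3] at h <;> linarith

theorem hdp (h : 0 < hd a b c) : 0 < det3 (Kc a) (Kc b) (Kc c) := h
theorem mem_tri {w : ℂ} : w ∈ tri a b c ↔ 0 < w.im ∧ Kc w ∈ PT (Kc a) (Kc b) (Kc c) := Iff.rfl
theorem hd_rot (a b c : ℂ) : hd b c a = hd a b c := det3_rot (Kc a) (Kc b) (Kc c)
theorem hd_swap (a b w : ℂ) : hd b a w = -hd a b w := det3_swap (Kc a) (Kc b) (Kc w)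
theorem hd_sum (a b c w : ℂ) : hd a b w + hd b c w + hd c a w = hd a b c :=
  det3_sum (Kc a) (Kc b) (Kc c) (Kc w)
theorem tri_rot (a b c : ℂ) : tri b c a = tri a b c := by rw [tri_eq, tri_eq, PT_rot]
theorem seg_symm (a b : ℂ) : seg b a = seg a b := by rw [seg_eq, seg_eq, segment_symm]
theorem _root_.Pool.Agent.MP_596265_gt.Hd.PosT.rot (h : PosT a b c) : PosT b c a :=
  ⟨h.2.1, h.2.2.1, h.1, by rw [hd_rot]; exact h.2.2.2⟩
theorem _root_.Pool.Agent.MP_596265_gt.Hd.PosT.inH (h : PosT a b c) : ∀ u ∈ PT (Kc a) (Kc b) (Kc c), InH u :=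
  inH_PT h.2.2.2 (inH_K h.1) (inH_K h.2.1) (inH_K h.2.2.1)
theorem _root_.Pool.Agent.MP_596265_gt.Hd.PosT.compact (h : PosT a b c) : IsCompact (tri a b c) :=
  compact_up (compact_PT (hdp h.2.2.2)) h.inH
theorem hd_of_seg {w : ℂ} (h : w ∈ seg a b) : hd a b w = 0 := by
  rw [seg_eq] at h; exact seg_det h.2
/-- A half plane that contains the vertices contains the triangle. -/
theorem half_of_tri (h : 0 < hd a b c) {p q w : ℂ} (h1 : 0 ≤ hd p q a) (h2 : 0 ≤ hd p q b)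
    (h3 : 0 ≤ hd p q c) (hw : w ∈ tri a b c) : 0 ≤ hd p q w := half_of_PT (hdp h) (p := Kc p) (q := Kc q) h1 h2 h3 (mem_tri.1 hw).2
theorem tri_sub {p q r : ℂ} (h : 0 < hd a b c) (ha : a ∈ tri p q r) (hb : b ∈ tri p q r)
    (hc : c ∈ tri p q r) : tri a b c ⊆ tri p q r := fun _ hw =>
  ⟨hw.1, half_of_tri h ha.2.1 hb.2.1 hc.2.1 hw, half_of_tri h ha.2.2.1 hb.2.2.1 hc.2.2.1 hw,
    half_of_tri h ha.2.2.2 hb.2.2.2 hc.2.2.2 hw⟩

/-- The open triangle. -/
def otri (a b c : ℂ) : Set ℂ := {w | 0 < w.im ∧ 0 < hd a b w ∧ 0 < hd b c w ∧ 0 < hd c a w}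

theorem continuous_hd (p q : ℂ) : Continuous (hd p q) :=
  (continuous_det3 (Kc p) (Kc q)).comp contDiff_K.continuous

theorem open_otri (a b c : ℂ) : IsOpen (otri a b c) := by
  have k : ∀ p q : ℂ, IsOpen {w : ℂ | 0 < hd p q w} := fun p q =>
    isOpen_lt continuous_const (continuous_hd p q)
  exact (isOpen_lt continuous_const Complex.continuous_im).inter
    ((k _ _).inter ((k _ _).inter (k _ _)))

theorem otri_sub (a b c : ℂ) : otri a b c ⊆ tri a b c := fun _ h =>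
  ⟨h.1, h.2.1.le, h.2.2.1.le, h.2.2.2.le⟩

theorem tri_ae_otri (h : 0 < hd a b c) : tri a b c =ᵐ[volume] otri a b c := by
  obtain ⟨h1, h2, h3⟩ := ne_of_hd h
  filter_upwards [geod_null h1, geod_null h2, geod_null h3] with w a1 a2 a3
  exact propext ⟨fun hw => ⟨hw.1, hw.2.1.lt_of_ne (a1 hw.1).symm, hw.2.2.1.lt_of_ne (a2 hw.1).symm,
    hw.2.2.2.lt_of_ne (a3 hw.1).symm⟩, fun hw => otri_sub a b c hw⟩

theorem ae_otri (h : 0 < hd a b c) : ∀ᵐ w ∂volume.restrict (tri a b c), w ∈ otri a b c := by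
  rw [Measure.restrict_congr_set (tri_ae_otri h)]
  exact ae_restrict_mem (open_otri a b c).measurableSet

/-- Almost every point of a triangle is an interior point. -/
theorem ae_nhds (h : 0 < hd a b c) : ∀ᵐ w ∂volume.restrict (tri a b c), tri a b c ∈ 𝓝 w := by
  filter_upwards [ae_otri h] with w hw
  exact mem_of_superset ((open_otri a b c).mem_nhds hw) (otri_sub a b c)

theorem _root_.Pool.Agent.MP_596265_gt.Hd.Lip.mono {f : ℂ → V} {S T : Set ℂ} (h : Lip f T) (hs : S ⊆ T) : Lip f S :=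
  h.imp fun _ hC => hC.mono hs

theorem seg_sub (h : 0 < hd a b c) : seg a b ⊆ tri a b c := fun _ hw => by
  rw [seg_eq] at hw
  exact mem_tri.2 ⟨hw.1, seg_sub_PT (hdp h) hw.2⟩

theorem seg_of_tri (h : 0 < hd a b c) {w : ℂ} (hw : w ∈ tri a b c) (h0 : hd a b w = 0) :
    w ∈ seg a b := by
  rw [seg_eq]; exact ⟨hw.1, seg_of_PT (hdp h) (mem_tri.1 hw).2 h0⟩

/-- Two triangles on different sides of a common edge meet in the edge. -/
theorem tri_inter (h : 0 < hd a b c) (h' : 0 < hd b a d) : tri a b c ∩ tri b a d = seg a b := by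
  refine Subset.antisymm (fun w hw => seg_of_tri h hw.1 ?_)
    (subset_inter (seg_sub h) (by rw [seg_symm]; exact seg_sub h'))
  have := hw.2.2.1
  rw [hd_swap] at this
  linarith [hw.1.2.1]

/-- The closed geodesic quadrilateral. -/
def quad (a b c d : ℂ) : Set ℂ :=
  {w | 0 < w.im ∧ 0 ≤ hd a b w ∧ 0 ≤ hd b c w ∧ 0 ≤ hd c d w ∧ 0 ≤ hd d a w}

theorem quad_eq (a b c d : ℂ) : quad a b c d = up (PQ4 (Kc a) (Kc b) (Kc c) (Kc d)) := rfl

theorem quad_rot (a b c d : ℂ) : quad b c d a = quad a b c d := by rw [quad_eq, quad_eq, PQ4_rot]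

/-- Strictly convex quadrilaterals. -/
structure Cvx (a b c d : ℂ) : Prop where
  h1 : PosT a b c
  h2 : PosT b c d
  h3 : PosT c d a
  h4 : PosT d a b

theorem Cvx.rot (h : Cvx a b c d) : Cvx b c d a := ⟨h.h2, h.h3, h.h4, h.h1⟩

theorem Cvx.cutP (h : Cvx a b c d) :
    PT (Kc a) (Kc b) (Kc c) ∪ PT (Kc c) (Kc d) (Kc a) = PQ4 (Kc a) (Kc b) (Kc c) (Kc d) := by
  rw [PT_rot (Kc a) (Kc c)]
  exact PQ4_cut h.h1.2.2.2 (by rw [← det3_rot]; exact h.h3.2.2.2)
    (by rw [det3_rot]; exact h.h4.2.2.2.le) h.h2.2.2.2.le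

theorem Cvx.cut (h : Cvx a b c d) : tri a b c ∪ tri c d a = quad a b c d := by
  ext w
  simp only [quad_eq, ← h.cutP, tri_eq, up, mem_union, mem_ofPred_eq, and_or_left]

theorem Cvx.inter (h : Cvx a b c d) : tri a b c ∩ tri c d a = seg a c := by
  rw [tri_rot a c d, ← tri_rot a b c, ← tri_rot b c a, seg_symm]
  exact tri_inter h.h1.rot.rot.2.2.2 h.h3.rot.rot.2.2.2

/-- `p` is an interior point of the triangle. -/
structure Ins (a b c p : ℂ) : Prop where
  h1 : PosT a b p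
  h2 : PosT b c p
  h3 : PosT c a p

theorem Ins.pos (h : Ins a b c p) : PosT a b c := by
  refine ⟨h.h1.1, h.h2.1, h.h3.1, ?_⟩
  linarith [hd_sum a b c p, h.h1.2.2.2, h.h2.2.2.2, h.h3.2.2.2]

theorem Ins.cut (h : Ins a b c p) : tri a b p ∪ tri b c p ∪ tri c a p = tri a b c := by
  rw [tri_rot p, tri_rot p, tri_rot p]
  ext w
  simp only [tri_eq, up, ← PT_star (hdp h.h1.2.2.2) (hdp h.h2.2.2.2) (hdp h.h3.2.2.2), mem_union,
    mem_ofPred_eq, and_or_left]

theorem Ins.inter (h : Ins a b c p) : tri a b p ∩ tri b c p = seg b p := by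
  rw [← tri_rot a b p, tri_rot p b c]
  exact tri_inter h.h1.rot.2.2.2 h.h2.rot.rot.2.2.2

end hyp

end Pool.Agent.MP_596265_gt.Hd.Kit

end

section

/-! Block H: Moebius invariance of triangles, Lipschitz sections and energies. -/

namespace Pool.Agent.MP_596265_gt.Hd.Kit

open Set MeasureTheory Filter Topology Complex Pool.Agent.MP_596265_gt.U
open scoped NNReal ComplexConjugate Matrix.Norms.Elementwise UpperHalfPlane

variable {a b c w : ℂ} {γ δ : G}

/-! The action on points -/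

theorem mob_coe (γ : G) (z : ℍ) : mob γ z = (γ • z : ℍ) := (basic_coe_smul γ z).symm
theorem mob_mk (γ : G) (h : 0 < w.im) : mob γ w = (γ • (⟨w, h⟩ : ℍ) : ℍ) := mob_coe γ ⟨w, h⟩
theorem Kc_coe (z : ℍ) : Kc z = Φ z := Kc_eq _
theorem hd_coe (p q r : ℍ) : hd p q r = hdet p q r := by rw [hd_eq, Kc_coe, Kc_coe, Kc_coe]; rfl
theorem den_ne (γ : G) (h : 0 < w.im) : den γ w ≠ 0 := basic_denom γ ⟨w, h⟩
theorem den_conj (γ : G) (w : ℂ) : den γ (conj w) = conj (den γ w) := by simp [den]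
theorem mob_im (γ : G) (h : 0 < w.im) : 0 < (mob γ w).im := by
  rw [mob_mk γ h]; exact UpperHalfPlane.im_pos _
theorem mob_mul (γ δ : G) (h : 0 < w.im) : mob (γ * δ) w = mob γ (mob δ w) := by
  rw [mob_mk _ h, mul_smul, mob_mk δ h, mob_coe]
theorem mob_one (w : ℂ) : mob 1 w = w := by simp only [mob, Fin.isValue, Matrix.SpecialLinearGroup.coe_one, Matrix.one_apply_eq, ofReal_one, one_mul, ne_eq, zero_ne_one, not_false_eq_true, Matrix.one_apply_ne, ofReal_zero, add_zero, den, one_ne_zero, zero_mul, zero_add, div_one]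
theorem mob_inv_mob (γ : G) (h : 0 < w.im) : mob γ⁻¹ (mob γ w) = w := by
  rw [← mob_mul _ _ h, inv_mul_cancel, mob_one]

theorem hd_mob (γ : G) (ha : 0 < a.im) (hb : 0 < b.im) (hc : 0 < c.im) :
    ∃ k : ℝ, 0 < k ∧ hd (mob γ a) (mob γ b) (mob γ c) = k * hd a b c := by
  obtain ⟨k, hk, e⟩ := hdet_smul γ ⟨a, ha⟩ ⟨b, hb⟩ ⟨c, hc⟩
  refine ⟨k, hk, ?_⟩
  rw [mob_mk γ ha, mob_mk γ hb, mob_mk γ hc, hd_coe, e, ← hd_coe]
theorem hd_mob_nonneg (γ : G) (ha : 0 < a.im) (hb : 0 < b.im) (hc : 0 < c.im) :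
    0 ≤ hd (mob γ a) (mob γ b) (mob γ c) ↔ 0 ≤ hd a b c := by
  obtain ⟨k, hk, e⟩ := hd_mob γ ha hb hc
  rw [e, mul_nonneg_iff_of_pos_left hk]
theorem mob_mem_tri (γ : G) (ha : 0 < a.im) (hb : 0 < b.im) (hc : 0 < c.im) (hw : 0 < w.im) :
    mob γ w ∈ tri (mob γ a) (mob γ b) (mob γ c) ↔ w ∈ tri a b c := by
  simp only [tri, mem_ofPred_eq, hw, mob_im γ hw, hd_mob_nonneg γ ha hb hw, hd_mob_nonneg γ hb hc hw,
    hd_mob_nonneg γ hc ha hw]
theorem mob_seg_mem (γ : G) (ha : 0 < a.im) (hb : 0 < b.im) (hw : w ∈ seg a b) :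
    mob γ w ∈ seg (mob γ a) (mob γ b) := by
  rw [seg_eq] at hw ⊢
  refine ⟨mob_im γ hw.1, ?_⟩
  rw [mob_mk γ ha, mob_mk γ hb, mob_mk γ hw.1, Kc_coe, Kc_coe, Kc_coe]
  refine Seg.smul γ ?_
  unfold Seg
  rw [← Kc_coe, ← Kc_coe, ← Kc_coe]
  exact hw.2
theorem mob_mem_seg (γ : G) (ha : 0 < a.im) (hb : 0 < b.im) (hw : 0 < w.im) :
    mob γ w ∈ seg (mob γ a) (mob γ b) ↔ w ∈ seg a b := by
  refine ⟨fun h => ?_, mob_seg_mem γ ha hb⟩
  have := mob_seg_mem γ⁻¹ (mob_im γ ha) (mob_im γ hb) h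
  rwa [mob_inv_mob γ ha, mob_inv_mob γ hb, mob_inv_mob γ hw] at this

/-! Derivative, Lipschitz bounds, change of variables -/

/-! The adjoint action -/

/-! Transport of sections -/

section gen
variable {V : Type} [NormedAddCommGroup V] [NormedSpace ℂ V]

end gen

end Pool.Agent.MP_596265_gt.Hd.Kit

end

section

/-! Block H, row TRI. -/

namespace Pool.Agent.MP_596265_gt.Hd

open MeasureTheory Set Complex Filter Topology
open scoped ComplexConjugate Matrix.Norms.Elementwise NNReal InnerProductSpace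

namespace TRIx
open Kit

theorem nden (g : G) (p : ℂ) : normSq (den g p) =
    g 1 0 ^ 2 * normSq p + 2 * g 1 0 * g 1 1 * p.re + g 1 1 ^ 2 := by
  simp only [den, normSq_apply, add_re, mul_re, ofReal_re, ofReal_im, add_im, mul_im]; ring

theorem mob_re (g : G) (p : ℂ) : (mob g p).re = (g 0 0 * g 1 0 * normSq p +
    (g 0 0 * g 1 1 + g 0 1 * g 1 0) * p.re + g 0 1 * g 1 1) / normSq (den g p) := by
  rw [mob, div_re, ← add_div]
  congr 1
  simp only [den, normSq_apply, add_re, mul_re, ofReal_re, ofReal_im, add_im, mul_im]; ring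

theorem mob_nsq (g : G) (p : ℂ) : normSq (mob g p) =
    (g 0 0 ^ 2 * normSq p + 2 * g 0 0 * g 0 1 * p.re + g 0 1 ^ 2) / normSq (den g p) := by
  rw [mob, map_div₀]
  congr 1
  simp only [normSq_apply, add_re, mul_re, ofReal_re, ofReal_im, add_im, mul_im]; ring

theorem den_ne' (g : G) {p : ℂ} (h : p.im ≠ 0) : den g p ≠ 0 := by
  rcases h.lt_or_gt with h | h
  · have := den_ne g (w := conj p) (by simpa using h)
    rw [den_conj] at this
    simpa using this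
  · exact den_ne g h

theorem hd_mob (g : G) {p q r : ℂ} (hp : p.im ≠ 0) (hq : q.im ≠ 0) (hr : r.im ≠ 0) :
    hd (mob g p) (mob g q) (mob g r) =
      hd p q r / (normSq (den g p) * normSq (den g q) * normSq (den g r)) := by
  have h1 : normSq (den g p) ≠ 0 := by simpa using den_ne' g hp
  have h2 : normSq (den g q) ≠ 0 := by simpa using den_ne' g hq
  have h3 : normSq (den g r) ≠ 0 := by simpa using den_ne' g hr
  have h4 : (g 0 0 * g 1 1 - g 0 1 * g 1 0) ^ 3 = 1 := by rw [basic_det g]; norm_num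
  simp only [hd, mob_re, mob_nsq]
  field_simp
  simp only [nden]
  linear_combination (g 1 0 ^ 2 * normSq p + 2 * g 1 0 * g 1 1 * p.re + g 1 1 ^ 2) *
    ((q.re - p.re) * (normSq r - normSq p) - (normSq q - normSq p) * (r.re - p.re)) * h4

theorem null {p q : ℂ} (h : p ≠ q) (hp : 0 < p.im) (hq : 0 < q.im) :
    volume {w | hd p q w = 0} = 0 := by
  have h1 := geod_null (a := p) (b := q) fun e => h (K_inj hp hq e)
  have h2 : ∀ᵐ w : ℂ, 0 < (conj w).im → hd p q (conj w) ≠ 0 :=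
    conjLIE.measurePreserving.quasiMeasurePreserving.ae h1
  have h3 : ∀ᵐ w : ℂ, w.im ≠ 0 :=
    volume_preserving_equiv_real_prod.quasiMeasurePreserving.ae
      ((Measure.quasiMeasurePreserving_snd (μ := (volume : Measure ℝ))
        (ν := (volume : Measure ℝ))).ae (Measure.ae_ne volume 0))
  rw [measure_eq_zero_iff_ae_notMem]
  filter_upwards [h1, h2, h3] with w a b c
  rcases c.lt_or_gt with c | c
  · simpa [hd] using b (by simpa using c)
  · exact a c

end TRIx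

theorem TRI (_hA : ALG_s) : TRI_s where
  hd_mob g _ _ _ := TRIx.hd_mob g
  tri_mob g _ _ _ _ := Kit.mob_mem_tri g
  seg_mob g _ _ _ := Kit.mob_mem_seg g
  tri_rot p q r := (Kit.tri_rot p q r).symm
  seg_symm p q := Kit.seg_symm q p
  seg_sub _ _ _ h := Kit.seg_sub h.2.2.2
  seg_iff _ _ _ _ h hw := ⟨Kit.hd_of_seg, Kit.seg_of_tri h.2.2.2 hw⟩
  sub _ _ _ _ _ _ _ h := Kit.tri_sub h.2.2.2
  cpt _ _ _ h := h.compact
  null _ _ := TRIx.null
  nhd _ _ _ h := Kit.ae_nhds h.2.2.2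

end Pool.Agent.MP_596265_gt.Hd

end

section

/-! Block H, row GLUE. -/

namespace Pool.Agent.MP_596265_gt.Hd

open MeasureTheory Set Complex Filter Topology
open scoped ComplexConjugate Matrix.Norms.Elementwise NNReal InnerProductSpace

namespace GLUEx
open Kit

theorem gl {V ι : Type} [NormedAddCommGroup V] [Finite ι] {p q r : ℂ} {A : ι → Set ℂ} {f : ℂ → V}
    (h : PosT p q r) (hA : ∀ i, IsClosed (A i)) (hc : tri p q r ⊆ ⋃ i, A i)
    (hf : ∀ i, Lip f (A i)) : Lip f (tri p q r) := by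
  refine glue (convex_PT _ _ _) (compact_PT (hdp h.2.2.2)) h.inH (A := fun i => Ki ⁻¹' A i)
    (fun i => (hA i).preimage continuous_Ki) (fun u hu => ?_) fun i => (hf i).mono fun w hw => ?_
  · have hH := h.inH u hu
    obtain ⟨i, hi⟩ := mem_iUnion.1 (hc (a := Ki u) (mem_tri.2 ⟨Ki_im hH, by rwa [K_Ki hH]⟩))
    exact mem_iUnion.2 ⟨i, hi⟩
  · have := hw.2.1
    rwa [mem_preimage, Ki_K hw.1] at this

end GLUEx

theorem GLUE (_hT : TRI_s) : GLUE_s where
  gl _ _ _ _ _ := GLUEx.gl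
  quad p s q r h1 h2 h3 h4 := by
    have h : Kit.Cvx p s q r := ⟨h1, h4, h2.rot, h3.rot.rot⟩
    have a := h.cut
    have b := h.rot.cut
    have c := h.inter
    have d := h.rot.inter
    rw [Kit.tri_rot p q r] at a c
    rw [← Kit.tri_rot r p s] at b d
    exact ⟨by rw [a, union_comm, b, Kit.quad_rot p s q r], c, by rw [inter_comm, d]⟩
  kite p q r c h1 h2 h3 := by
    have h : Kit.Ins p q r c := ⟨h1, h2, h3⟩
    exact ⟨h.pos, h.cut.symm, h.inter⟩

end Pool.Agent.MP_596265_gt.Hd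

end

section

/-! Block H, row GEO. -/

namespace Pool.Agent.MP_596265_gt.Hd

open MeasureTheory Set Complex Filter Topology
open scoped ComplexConjugate Matrix.Norms.Elementwise NNReal InnerProductSpace

namespace GEOx
open Kit

variable {p q z y : ℂ} {l s : ℝ}

theorem dpos (hp : 0 < p.im) (hq : 0 < q.im) (hl : l ∈ Icc (0 : ℝ) 1) :
    0 < (1 - l) * q.im + l * p.im := by
  rcases hl.1.eq_or_lt with h | h
  · rw [← h]; simpa using hq
  · linarith only [mul_pos h hp, mul_nonneg (sub_nonneg.2 hl.2) hq.le]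

theorem mu_mem (hp : 0 < p.im) (hq : 0 < q.im) (hl : l ∈ Icc (0 : ℝ) 1) :
    mu p q l ∈ Icc (0 : ℝ) 1 := by
  have h := dpos hp hq hl
  refine ⟨div_nonneg (mul_nonneg hl.1 hp.le) h.le, (div_le_one h).2 ?_⟩
  linarith only [mul_nonneg (sub_nonneg.2 hl.2) hq.le]

/-- The point of the chord. -/
noncomputable def ch (p q : ℂ) (m : ℝ) : Pt := (1 - m) • Kc p + m • Kc q

theorem geo_eq (p q : ℂ) (l : ℝ) : geo p q l = Ki (ch p q (mu p q l)) := by
  refine Complex.ext rfl ?_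
  simp only [geo, Ki, ch, Kc_eq, Prod.fst_add, Prod.smul_fst, smul_eq_mul, Prod.snd_add,
    Prod.smul_snd]
  congr 1; ring

theorem ch_inH (hp : 0 < p.im) (hq : 0 < q.im) {m : ℝ} (hm : m ∈ Icc (0 : ℝ) 1) : InH (ch p q m) :=
  convex_inH (inH_K hp) (inH_K hq) (sub_nonneg.2 hm.2) hm.1 (sub_add_cancel 1 m)

theorem geo_im (hp : 0 < p.im) (hq : 0 < q.im) (hl : l ∈ Icc (0 : ℝ) 1) : 0 < (geo p q l).im := by
  rw [geo_eq]; exact Ki_im (ch_inH hp hq (mu_mem hp hq hl))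

theorem Kc_geo (hp : 0 < p.im) (hq : 0 < q.im) (hl : l ∈ Icc (0 : ℝ) 1) :
    Kc (geo p q l) = ch p q (mu p q l) := by
  rw [geo_eq, K_Ki (ch_inH hp hq (mu_mem hp hq hl))]

theorem geo_zero (hp : 0 < p.im) (hq : 0 < q.im) : geo p q 0 = p ∧ geo p q 1 = q := by
  rw [geo_eq, geo_eq]
  constructor
  · simp [ch, mu, Ki_K hp]
  · simp [ch, mu, hp.ne', Ki_K hq]

theorem geo_symm (hp : 0 < p.im) (hq : 0 < q.im) (hl : l ∈ Icc (0 : ℝ) 1) :
    geo q p (1 - l) = geo p q l := by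
  have h := (dpos hp hq hl).ne'
  have e : mu q p (1 - l) = 1 - mu p q l := by
    simp only [mu, sub_sub_cancel]
    rw [add_comm (l * p.im)]
    field_simp
    ring
  rw [geo_eq, geo_eq, e, ch, ch, sub_sub_cancel, add_comm]

theorem mob_im_eq (g : G) {w : ℂ} (h : 0 < w.im) : (mob g w).im = w.im / ha_D g (Kc w) := by
  rw [mob_mk g h, UpperHalfPlane.coe_im, ha_im, ← Kc_coe]; rfl

theorem geo_eqv (g : G) (hp : 0 < p.im) (hq : 0 < q.im) (hl : l ∈ Icc (0 : ℝ) 1) :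
    mob g (geo p q l) = geo (mob g p) (mob g q) l := by
  have hw := geo_im hp hq hl
  have h := (dpos hp hq hl).ne'
  refine K_inj (mob_im g hw) (geo_im (mob_im g hp) (mob_im g hq) hl) ?_
  rw [Kc_geo (mob_im g hp) (mob_im g hq) hl]
  obtain ⟨h1, h2⟩ := ha_comb g (p := ⟨p, hp⟩) (q := ⟨q, hq⟩) (z := ⟨_, hw⟩)
    (sub_add_cancel 1 (mu p q l)) (by
      rw [← Kc_coe, ← Kc_coe, ← Kc_coe]; exact (Kc_geo hp hq hl).symm)
  have a1 := ha_D_pos g ⟨p, hp⟩
  have a2 := ha_D_pos g ⟨q, hq⟩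
  have a3 := ha_D_pos g ⟨_, hw⟩
  simp only [← Kc_coe, ← mob_mk] at h1 h2 a1 a2 a3
  rw [← h2, ch]
  have e : mu (mob g p) (mob g q) l =
      mu p q l * ha_D g (Kc q) / ha_D g (Kc (geo p q l)) := by
    have e2 : ha_D g (Kc (geo p q l)) =
        (1 - mu p q l) * ha_D g (Kc p) + mu p q l * ha_D g (Kc q) := by
      rw [← add_div, div_eq_one_iff_eq a3.ne'] at h1
      exact h1.symm
    have h3 := (dpos (mob_im g hp) (mob_im g hq) hl).ne'
    rw [eq_div_iff a3.ne', e2, mu, div_mul_eq_mul_div, div_eq_iff h3, mob_im_eq g hp,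
      mob_im_eq g hq, mu]
    field_simp
    ring
  rw [e, eq_sub_of_add_eq h1]

theorem mu_img (hp : 0 < p.im) (hq : 0 < q.im) : mu p q '' Icc 0 1 = Icc 0 1 := by
  refine Subset.antisymm (image_subset_iff.2 fun l hl => mu_mem hp hq hl) ?_
  have hc : ContinuousOn (mu p q) (Icc 0 1) :=
    ContinuousOn.div (by fun_prop) (by fun_prop) fun l hl => (dpos hp hq hl).ne'
  simpa only [mu, ge_iff_le, zero_mul, sub_zero, one_mul, add_zero, zero_div, sub_self, zero_add, ne_eq, hp.ne', not_false_eq_true, div_self] using intermediate_value_Icc zero_le_one hc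

theorem geo_img (hp : 0 < p.im) (hq : 0 < q.im) : geo p q '' Icc 0 1 = seg p q := by
  rw [seg_eq, ← image_Ki fun u hu => convex_inH.segment_subset (inH_K hp) (inH_K hq) hu,
    segment_eq_image]
  conv_rhs => rw [← mu_img hp hq, image_image, image_image]
  exact image_congr fun l _ => geo_eq p q l

theorem geo_smooth (hp : 0 < p.im) (hq : 0 < q.im) (hl : l ∈ Icc (0 : ℝ) 1) :
    ContDiffAt ℝ (⊤ : ℕ∞) (fun x : ℂ × ℂ × ℝ => geo x.1 x.2.1 x.2.2) (p, q, l) := by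
  have hK : ContDiff ℝ (⊤ : ℕ∞) Kc := contDiff_K.of_le le_top
  have hi : ContDiff ℝ (⊤ : ℕ∞) fun w : ℂ => w.im := imCLM.contDiff
  have h1 : ContDiffAt ℝ (⊤ : ℕ∞) (fun x : ℂ × ℂ × ℝ => mu x.1 x.2.1 x.2.2) (p, q, l) :=
    ContDiffAt.div (by fun_prop) (by fun_prop) (dpos hp hq hl).ne'
  have h2 : ContDiffAt ℝ (⊤ : ℕ∞) (fun x : ℂ × ℂ × ℝ => ch x.1 x.2.1 (mu x.1 x.2.1 x.2.2))
      (p, q, l) := by
    unfold ch
    fun_prop
  simp only [geo_eq]
  exact ((contDiffAt_Ki (ch_inH hp hq (mu_mem hp hq hl))).of_le le_top).comp (p, q, l) h2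

theorem geo_smooth' (hp : 0 < p.im) (hq : 0 < q.im) (hl : l ∈ Icc (0 : ℝ) 1) :
    ContDiffAt ℝ (⊤ : ℕ∞) (fun x : ℂ × ℂ × ℝ => geo' x.1 x.2.1 x.2.2) (p, q, l) := by
  have h := geo_smooth hp hq hl
  have h1 := (h.fderiv_right (m := (⊤ : ℕ∞)) (by simp)).clm_apply
    (contDiffAt_const (c := ((0, 0, 1) : ℂ × ℂ × ℝ)))
  refine h1.congr_of_eventuallyEq ?_
  filter_upwards [(h.of_le (by simp : (1 : WithTop ℕ∞) ≤ _)).eventually (by simp)] with x hx
  have h2 : HasDerivAt (fun t : ℝ => ((x.1, x.2.1, t) : ℂ × ℂ × ℝ)) (0, 0, 1) x.2.2 :=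
    (hasDerivAt_const _ _).prodMk ((hasDerivAt_const _ _).prodMk (hasDerivAt_id _))
  exact ((hx.differentiableAt one_ne_zero).hasFDerivAt.comp_hasDerivAt x.2.2 h2).deriv

theorem NN_im (z y : ℂ) (s : ℝ) : (NN z y s).im = (1 - s) * z.im + (1 + s) * y.im := by
  simp [NN]; ring

theorem nn_ne (hz : 0 < z.im) (hy : 0 < y.im) (hs : s ∈ Icc (0 : ℝ) 1) : NN z y s ≠ 0 := fun e => by
  have := NN_im z y s
  rw [e, zero_im] at this
  linarith only [mul_nonneg (sub_nonneg.2 hs.2) hz.le, mul_nonneg hs.1 hy.le, hy, this]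

theorem ray_zero (hz : 0 < z.im) (hy : 0 < y.im) : ray z y 0 = y ∧ ray z y 1 = z := by
  have h := nn_ne hz hy (left_mem_Icc.2 zero_le_one)
  simp only [NN, ofReal_zero, zero_mul, sub_zero] at h
  constructor
  · simp only [ray, NN, ofReal_zero, zero_mul, sub_zero]
    field_simp
    ring
  · simp [ray]

/-- The weight of the base point. -/
noncomputable def tau (z y : ℂ) (s : ℝ) : ℝ :=
  (1 - s) * (normSq (z - conj y) - s * normSq (z - y)) / normSq (NN z y s)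

theorem nsq_NN (z y : ℂ) (s : ℝ) : normSq (NN z y s) =
    (1 - s) * (normSq (z - conj y) - s * normSq (z - y)) + 4 * s * y.im ^ 2 := by
  simp only [NN, normSq_apply, sub_re, conj_re, mul_re, ofReal_re, ofReal_im, sub_im, zero_mul, sub_zero, conj_im, sub_neg_eq_add, mul_im, add_zero]; ring

theorem ray_eq (h : NN z y s ≠ 0) : ray z y s = (y * (z - conj y) - s * conj y * (z - y)) / NN z y s := by
  rw [ray]
  field_simp
  simp only [NN]
  ring

theorem Kc_ray (h : NN z y s ≠ 0) : Kc (ray z y s) = ch z y (tau z y s) := by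
  have h1 : normSq (NN z y s) ≠ 0 := by simpa using h
  rw [ray_eq h]
  refine Prod.ext ?_ ?_
  · simp only [Kc, ch, tau, div_re, Prod.fst_add, Prod.smul_fst, smul_eq_mul]
    field_simp
    simp only [sub_re, mul_re, conj_re, sub_im, conj_im, sub_neg_eq_add, ofReal_re, ofReal_im, mul_zero, sub_zero, mul_im, neg_mul, zero_add, NN, zero_mul, add_zero, normSq_apply]
    ring
  · simp only [Kc, ch, tau, map_div₀, Prod.snd_add, Prod.smul_snd, smul_eq_mul]
    field_simp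
    simp only [normSq_apply, sub_re, mul_re, conj_re, sub_im, conj_im, sub_neg_eq_add, ofReal_re, ofReal_im, mul_zero, sub_zero, mul_im, neg_mul, zero_add, NN, zero_mul, add_zero]
    ring

theorem gap (hz : 0 < z.im) (hy : 0 < y.im) (hs : s ≤ 1) :
    0 < normSq (z - conj y) - s * normSq (z - y) := by
  have e : normSq (z - conj y) = normSq (z - y) + 4 * (z.im * y.im) := by
    simp only [normSq_apply, sub_re, conj_re, sub_im, conj_im, sub_neg_eq_add]; ring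
  linarith only [mul_pos hz hy, mul_nonneg (sub_nonneg.2 hs) (normSq_nonneg (z - y)), e]

theorem tau_mem (hz : 0 < z.im) (hy : 0 < y.im) (hs : s ∈ Icc (0 : ℝ) 1) :
    tau z y s ∈ Icc (0 : ℝ) 1 := by
  have h := normSq_pos.2 (nn_ne hz hy hs)
  refine ⟨div_nonneg (mul_nonneg (sub_nonneg.2 hs.2) (gap hz hy hs.2).le) h.le, (div_le_one h).2 ?_⟩
  rw [nsq_NN]
  linarith only [mul_nonneg hs.1 (sq_nonneg y.im)]

theorem ray_im (hz : 0 < z.im) (hy : 0 < y.im) (hs : s ∈ Icc (0 : ℝ) 1) : 0 < (ray z y s).im := by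
  have h := nn_ne hz hy hs
  have e : (ray z y s).im = y.im * (normSq (z - conj y) - s ^ 2 * normSq (z - y)) /
      normSq (NN z y s) := by
    have h1 : normSq (NN z y s) ≠ 0 := by simpa using h
    rw [ray_eq h, div_im, ← sub_div]
    congr 1
    simp only [sub_im, mul_im, conj_im, sub_neg_eq_add, sub_re, conj_re, mul_re, ofReal_re, ofReal_im, mul_neg, zero_mul, neg_zero, sub_zero, add_zero, neg_mul, NN, normSq_apply]
    ring
  rw [e]
  exact div_pos (mul_pos hy (gap hz hy (pow_le_one₀ hs.1 hs.2))) (normSq_pos.2 h)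

theorem ray_img (hz : 0 < z.im) (hy : 0 < y.im) : ray z y '' Icc 0 1 = seg z y := by
  have hc : ContinuousOn (tau z y) (Icc 0 1) :=
    ContinuousOn.div (by fun_prop) (by unfold NN; fun_prop)
      fun s hs => (normSq_pos.2 (nn_ne hz hy hs)).ne'
  have h0 : tau z y 0 = 1 := by
    have h := normSq_pos.2 (nn_ne hz hy (left_mem_Icc.2 zero_le_one))
    rw [tau, div_eq_one_iff_eq h.ne', nsq_NN]; ring
  have h1 : tau z y '' Icc 0 1 = Icc 0 1 := by
    refine Subset.antisymm (image_subset_iff.2 fun l hl => tau_mem hz hy hl) ?_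
    have := intermediate_value_Icc' zero_le_one hc
    rwa [h0, show tau z y 1 = 0 by simp only [tau, sub_self, one_mul, zero_mul, zero_div]] at this
  rw [seg_eq, ← image_Ki fun u hu => convex_inH.segment_subset (inH_K hz) (inH_K hy) hu,
    segment_eq_image]
  conv_rhs => rw [← h1, image_image, image_image]
  refine image_congr fun s hs => ?_
  rw [← Ki_K (ray_im hz hy hs), Kc_ray (nn_ne hz hy hs), ch]

end GEOx

theorem GEO (_hA : ALG_s) (_hT : TRI_s) : GEO_s where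
  zero _ _ := GEOx.geo_zero
  im _ _ _ := GEOx.geo_im
  symm _ _ _ := GEOx.geo_symm
  eqv g _ _ _ := GEOx.geo_eqv g
  img _ _ := GEOx.geo_img
  smooth _ _ _ hp hq hl := ⟨GEOx.geo_smooth hp hq hl, GEOx.geo_smooth' hp hq hl⟩
  nn_ne _ _ _ := GEOx.nn_ne
  ray0 _ _ := GEOx.ray_zero
  rimg _ _ := GEOx.ray_img

end Pool.Agent.MP_596265_gt.Hd

end

section

/-! Dictionary between the dart systems of the globalisation and the states of the Hodge block. -/

namespace Pool.Agent.MP_596265_gt.U.RG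

open Set

variable {D : Type} {nxt rev : D → D} {L : D → G} {z : ℂ}

theorem mob_hd : @mob = @Hd.mob := rfl

theorem cd_hd : @cd = @Hd.hd := by
  funext a b c
  simp only [cd, Hd.hd, det3, Ψ, Complex.normSq_apply]
  ring

theorem CF_tri : @CF = @Hd.tri := by
  funext a b c
  simp only [CF, Hd.tri, cd_hd]
  rfl

theorem cface_face : cface nxt L z = Hd.face nxt L z := by
  funext d
  simp only [cface, Hd.face, CF_tri, mob_hd]

theorem ds_of_ok (h : Hd.Ok nxt rev L z) : DS nxt rev L z :=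
  ⟨h.n3, h.r2, h.gf, h.gr, h.im, fun d => by rw [cd_hd]; exact h.pos d⟩

theorem oneV_ind (h : Hd.OneV nxt rev) (P : D → Prop) (hP : ∀ d, P d ↔ P (nxt (rev d))) (d d' : D)
    (hd : P d) : P d' := (h P (fun e => (hP e).symm) d d').1 hd

end Pool.Agent.MP_596265_gt.U.RG

end

section

/-! Block R: statements of the rows. -/

namespace Pool.Agent.MP_596265_gt.Hd.R

open MeasureTheory Set Complex Metric Filter Topology
open scoped ComplexConjugate InnerProductSpace Matrix.Norms.Elementwise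

noncomputable section

/-- The rows of block H that block R uses. -/
structure HA : Prop where
  alg : ALG_s
  mul : MUL_s
  tri : TRI_s
  tra : TRA_s
  glue : GLUE_s
  inc : INC_s
  dens : DENS_s
  geo : GEO_s
  gep : GEP_s
  pol : POL_s
  pl : PL_s
  pm : PM_s
  cvp : CVP_s
  sp : SP_s
  eq : EQ_s
  link : LINK_s
  pur : PUR_s
  comm : COMM_s
  vhs : VHS_s
  harm : HARM_s

abbrev ttt : Ix := (true, true, true)
abbrev ttf : Ix := (true, true, false)
abbrev tft : Ix := (true, false, true)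
abbrev ftt : Ix := (false, true, true)
abbrev fft : Ix := (false, false, true)
abbrev fff : Ix := (false, false, false)

/-- The pure section with all components of type `p` equal to `ψ`. -/
def sec (p : ℕ) (ψ : ℂ → ℂ) (w : ℂ) : Mat :=
  mk w fun i j => if i.toNat + j.toNat = p then ψ w else 0

/-- The integrand of the type two identity. -/
def Ii (x : E8) (χ : ℂ → ℂ) (w : ℂ) : ℂ :=
  χ w * ((normSq (x ttf) + 2 * normSq (x tft) : ℝ) : ℂ) + conj (x ttf) * x tft * dl w * dzb χ w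

/-- Interpolation from the points `w'`, `conj w'` to the points `w`, `conj w`. -/
def sl (w w' : ℂ) (i i' : Bool) : ℂ := (if i' then -1 else 1) * (pt w i - pt w' (!i')) / dl w'

/-- Coefficient of `dw` or its conjugate (`f`) in `dw'` or its conjugate (`f'`). -/
def fm (a b a' b' : ℂ) (f f' : Bool) : ℂ :=
  if f then cz a b (pt a' (!f')) (pt b' (!f')) else czb a b (pt a' (!f')) (pt b' (!f'))

/-- The change of frame from the apex `s` to the apex `t`. -/
def Tm (t s p q : ℂ) (ω : ℝ × ℝ) (k l : Ix) : ℂ :=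
  ((√(jc (e1 t p q ω) (e2 t p q ω)) / √(jc (e1 s p q ω) (e2 s p q ω)) : ℝ) : ℂ) *
    (dl (DD s p q ω) / dl (DD t p q ω)) * sl (DD t p q ω) (DD s p q ω) k.1 l.1 *
    sl (DD t p q ω) (DD s p q ω) k.2.1 l.2.1 *
    fm (e1 t p q ω) (e2 t p q ω) (e1 s p q ω) (e2 s p q ω) k.2.2 l.2.2

/-- The density of the test functional. -/
def Lf (χ : ℂ → ℂ) (x : E8) (w : ℂ) : ℂ :=
  χ w / dl w * x ttt + (dz χ w - 2 * χ w / dl w) * x tft - (dz χ w - χ w / dl w) * x fft

section defs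

variable {Dt : Type} [Fintype Dt] (nx rv : Dt → Dt) (g : Dt → G)

def BT (z : ℂ) (p : ℕ) : Set (HT nx g z) :=
  {b | ∃ W, Adm nx rv g z 0 W ∧ (∀ d, ∀ w ∈ face nx g z d, PureAt p w (W d w)) ∧ b = dT nx g z W}

def HarmT (z : ℂ) (x : HT nx g z) : Prop :=
  ∀ p < 3, ∀ b ∈ BT nx rv g z p,
    ⟪prT nx g z (p + 1) b, x⟫_ℂ = 0 ∧ ⟪prT nx g z p b, x⟫_ℂ = 0

/-- The harmonic representative on the polar squares. -/
def IsH (c : Dt → ℂ) (z : ℂ) (v : Dt → Mat) (a : HP Dt) : Prop :=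
  a ∈ V18.Hm prP (BS nx rv g c z) ∧
    ∀ U, PAdm nx rv g v U → a - dP nx rv c z U ∈ (BB nx rv g c z).topologicalClosure

/-- The same form on the faces and on the polar squares. -/
def Link (c : Dt → ℂ) (z : ℂ) (x : HT nx g z) (a : HP Dt) : Prop :=
  ∀ d, ∀ᵐ ω ∂volume.restrict sq,
    (Dd nx rv c z d ω ∈ face nx g z d →
      a d ω = (rj z (c (nx (rv d))) (c d) ω : ℂ) • x d (Dd nx rv c z d ω)) ∧
    (Dd nx rv c z d ω ∈ face nx g z (nx (rv d)) →
      a d ω = (rj z (c (nx (rv d))) (c d) ω : ℂ) • x (nx (rv d)) (Dd nx rv c z d ω))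

def RotS (z : ℂ) (x : HT nx g z) : Prop :=
  ∀ d, ∀ᵐ w ∂volume.restrict (face nx g z (nx d)), ∀ k,
    x d (mob (g d) w) k = ph (g d) w k * x (nx d) w k

/-- Symmetric in the two matrix slots (traceless) and real. -/
def SymS (z : ℂ) (x : HT nx g z) : Prop :=
  ∀ d, ∀ᵐ w ∂volume.restrict (face nx g z d), ∀ i j f,
    x d w (i, j, f) = x d w (j, i, f) ∧ x d w (!i, !j, !f) = -conj (x d w (i, j, f))

/-- The side of the edge of `d`. -/
def sd (z : ℂ) (d : Dt) (w : ℂ) : ℝ := hd z (mob (g d) z) w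

/-- The two open faces along `d` together with the open edge. -/
def UU (z : ℂ) (d : Dt) : Set ℂ :=
  {w | 0 < w.im ∧
    (0 ≤ sd g z d w → 0 < hd (mob (g d) z) (mob (g d * g (nx d)) z) w ∧
      0 < hd (mob (g d * g (nx d)) z) z w) ∧
    (sd g z d w ≤ 0 → 0 < hd z (mob (g (nx (rv d))) z) w ∧
      0 < hd (mob (g (nx (rv d))) z) (mob (g d) z) w)}

/-- The form on the two faces along `d`. -/
def gl (z : ℂ) (x : HT nx g z) (d : Dt) (w : ℂ) : E8 :=
  if 0 ≤ sd g z d w then x d w else x (nx (rv d)) w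

/-- Holomorphic description of the part of type three. -/
def Hol (z : ℂ) (x : HT nx g z) (φ : Dt → ℂ → ℂ) : Prop :=
  U.RG.QData nx rv g z φ ∧ ∀ d, ∀ᵐ w ∂volume.restrict (face nx g z d), x d w ttt = dl w * φ d w

def LocI (z : ℂ) (x : HT nx g z) : Prop :=
  ∀ d χ, U.RD.Test (UU nx rv g z d) χ → ∫ w in UU nx rv g z d, Ii (gl nx rv g z x d w) χ w = 0

def VtxI (z : ℂ) (x : HT nx g z) : Prop :=
  ∃ ρ > 0, ∀ β : ℂ → ℂ, ContDiff ℝ 1 β → tsupport β ⊆ ball z ρ →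
    ∑ d, ∫ w in face nx g z d, Ii (x d w) β w = 0

def VtxP (c : Dt → ℂ) (z : ℂ) (a : HP Dt) : Prop :=
  ∀ β : ℂ → ℂ, ContDiff ℝ 1 β → (∀ d, ∀ ω ∈ csq, ω.2 ≤ 1 / 2 → β (Dd nx rv c z d ω) = 0) →
    ∑ d, ∫ ω in sq, Ii (a d ω) β (Dd nx rv c z d ω) = 0

/-- No part of type two. -/
def NoTwo (z : ℂ) (x : HT nx g z) : Prop :=
  ∀ d, ∀ᵐ w ∂volume.restrict (face nx g z d), x d w ttf = 0 ∧ x d w tft = 0

/-- Pointwise description: only the types three and zero, the first one given by `φ`. -/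
def PD (c : Dt → ℂ) (z : ℂ) (a : HP Dt) (φ : Dt → ℂ → ℂ) : Prop :=
  ∀ d, ∀ᵐ ω ∂volume.restrict sq, (∀ k, k ≠ ttt → k ≠ fff → a d ω k = 0) ∧
    a d ω fff = -conj (a d ω ttt) ∧
    (Dd nx rv c z d ω ∈ face nx g z d → a d ω ttt = (rj z (c (nx (rv d))) (c d) ω : ℂ) *
      (dl (Dd nx rv c z d ω) * φ d (Dd nx rv c z d ω))) ∧
    (Dd nx rv c z d ω ∈ face nx g z (nx (rv d)) → a d ω ttt = (rj z (c (nx (rv d))) (c d) ω : ℂ) *
      (dl (Dd nx rv c z d ω) * φ (nx (rv d)) (Dd nx rv c z d ω)))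

/-- Real traceless cocycles. -/
def RC (v : Dt → Mat) : Prop := Coc nx rv g v ∧ ∀ d, (v d).trace = 0 ∧ cj (v d) = v d

end defs

/-- Components of the differentials of pure sections. -/
def CMP_s : Prop := HA → ∀ (ψ : ℂ → ℂ) (w : ℂ), 0 < w.im → DifferentiableAt ℝ ψ w →
  (∀ k, dF (sec 2 ψ) w k = if k = ttt then dz ψ w + ψ w / dl w else if k = ttf then
    dzb ψ w + ψ w / dl w else if k = tft ∨ k = ftt then ψ w / dl w else 0) ∧
  (∀ k, dF (sec 1 ψ) w k = if k = tft ∨ k = ftt then dz ψ w else if k = ttf then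
    -2 * ψ w / dl w else if k = fft then 2 * ψ w / dl w else if k = ttt ∨ k = fff then 0
    else dzb ψ w)

/-- The sets `UU`. -/
def UG_s : Prop := HA → ∀ {Dt : Type} [Fintype Dt] {nx rv : Dt → Dt} {g z}, Ok nx rv g z → ∀ d,
  IsOpen (UU nx rv g z d) ∧ U.RG.oface nx g z d ⊆ UU nx rv g z d ∧
    U.RG.oface nx g z (nx (rv d)) ⊆ UU nx rv g z d ∧
    (∀ w ∈ UU nx rv g z d, (0 ≤ sd g z d w → w ∈ face nx g z d) ∧
      (sd g z d w ≤ 0 → w ∈ face nx g z (nx (rv d)))) ∧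
    (∀ w ∈ face nx g z d, 0 ≤ sd g z d w) ∧ (∀ w ∈ face nx g z (nx (rv d)), sd g z d w ≤ 0) ∧
    (∀ w ∈ face nx g z d, w = z ∨ w = mob (g d) z ∨ w = mob (g d * g (nx d)) z ∨
      w ∈ UU nx rv g z d ∨ mob (g d)⁻¹ w ∈ UU nx rv g z (nx d) ∨
      mob (g d * g (nx d))⁻¹ w ∈ UU nx rv g z (nx (nx d))) ∧
    (∀ w, 0 < w.im → U.RG.Ψ w ∈ openSegment ℝ (U.RG.Ψ z) (U.RG.Ψ (mob (g d) z)) →
      w ∈ UU nx rv g z d) ∧
    (∀ᵐ w ∂volume.restrict (face nx g z d), w ∈ U.RG.oface nx g z d) ∧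
    (∀ x : HT nx g z, MemLp (gl nx rv g z x d) 2 (volume.restrict (UU nx rv g z d))) ∧
    ∀ f f' : ℂ → ℂ, IntegrableOn f (face nx g z d) → IntegrableOn f' (face nx g z (nx (rv d))) →
      (∀ w ∉ UU nx rv g z d, f w = 0 ∧ f' w = 0) →
      ∫ w in UU nx rv g z d, (if 0 ≤ sd g z d w then f w else f' w) =
        (∫ w in face nx g z d, f w) + ∫ w in face nx g z (nx (rv d)), f' w

def REP_s : Prop := HA → ∀ {Dt : Type} [Fintype Dt] {nx rv : Dt → Dt} {g c z v},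
  Star nx rv g c z → Coc nx rv g v → ∀ a, IsH nx rv g c z v a → ∃ x : HT nx g z,
    x ∈ closure {y | ∃ W, Adm nx rv g z v W ∧ y = dT nx g z W} ∧ Fn nx rv g z v = ‖x‖ ^ 2 ∧
      Link nx rv g c z x a ∧ RotS nx g z x ∧ HarmT nx rv g z x

def SYM_s : Prop := HA → ∀ {Dt : Type} [Fintype Dt] {nx rv : Dt → Dt} {g z v},
  Ok nx rv g z → RC nx rv g v → ∀ x : HT nx g z,
    x ∈ closure {y | ∃ W, Adm nx rv g z v W ∧ y = dT nx g z W} → Fn nx rv g z v = ‖x‖ ^ 2 →
    SymS nx g z x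

def TEST_s : Prop := HA → UG_s → ∀ {Dt : Type} [Fintype Dt] {nx rv : Dt → Dt} {g z},
  Ok nx rv g z → ∀ d p ψ, U.RD.Test (UU nx rv g z d) ψ → ∃ b ∈ BT nx rv g z p,
    ∀ x, RotS nx g z x → ∀ q, ⟪prT nx g z q b, x⟫_ℂ =
      3 * ∫ w in UU nx rv g z d, ⟪pr q (dF (sec p ψ) w), gl nx rv g z x d w⟫_ℂ

def HOL_s : Prop := HA → CMP_s → UG_s → TEST_s → U.RD.WEYL_s →
  ∀ {Dt : Type} [Fintype Dt] {nx rv : Dt → Dt} {g z}, Ok nx rv g z → ∀ x, RotS nx g z x →
    HarmT nx rv g z x → ∃ φ, Hol nx rv g z x φ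

def LOC_s : Prop := HA → CMP_s → UG_s → TEST_s → U.RD.WS_s →
  ∀ {Dt : Type} [Fintype Dt] {nx rv : Dt → Dt} {g z}, Ok nx rv g z → ∀ x, RotS nx g z x →
    SymS nx g z x → HarmT nx rv g z x → LocI nx rv g z x

def PART_s : Prop := HA → UG_s → ∀ {Dt : Type} [Fintype Dt] {nx rv : Dt → Dt} {g z},
  Ok nx rv g z → ∀ x, RotS nx g z x → LocI nx rv g z x → VtxI nx g z x → NoTwo nx g z x

/-- The velocity field of the motion of the apex. -/
def NU_s : Prop := HA → ∀ z p q, PosT z p q → PLip (nu z p q) ∧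
  (∀ ω ∈ csq, 0 < ω.2 → nu z p q ω ≠ 0) ∧ ∀ ω ∈ sq, DifferentiableAt ℝ (nu z p q) ω ∧
    th2 z p q ω = czb (e1 z p q ω) (e2 z p q ω) (r1 (nu z p q) ω) (r2 (nu z p q) ω)

def VX_s : Prop := HA → NU_s → ∀ {Dt : Type} [Fintype Dt] {nx rv : Dt → Dt} {g c z},
  Star nx rv g c z → ∀ a : HP Dt, (∀ d, ∀ᵐ ω ∂volume.restrict sq, a d ω tft = a d ω ftt) →
    (∀ b ∈ BP nx rv g c z 2, ⟪prP 2 b, a⟫_ℂ = 0) →
    (∀ δ > 0, ∃ b ∈ BP nx rv g c z 1, ‖thP nx rv c z (prP 2 a) - prP 1 b‖ ≤ δ) →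
    VtxP nx rv c z a

/-- Transfer between the squares and the faces. -/
def VF_s : Prop := HA → ∀ {Dt : Type} [Fintype Dt] {nx rv : Dt → Dt} {g c z},
  Star nx rv g c z → ∀ (x : HT nx g z) (a : HP Dt), Link nx rv g c z x a →
    (SymS nx g z x → ∀ d, ∀ᵐ ω ∂volume.restrict sq, a d ω tft = a d ω ftt) ∧
    (VtxP nx rv c z a → VtxI nx g z x) ∧
    ∀ φ, SymS nx g z x → NoTwo nx g z x → Hol nx rv g z x φ → PD nx rv g c z a φ

def RA1_s : Prop := ∀ {H : Type} [NormedAddCommGroup H] [InnerProductSpace ℂ H] [CompleteSpace H]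
  {π : ℕ → H →L[ℂ] H} {θ : H →L[ℂ] H} {B : ℕ → Submodule ℂ H}, V18.Vhs π θ B →
  ∀ a ∈ V18.Hm π B, V18.curv π θ B a = 0 → ∀ δ > 0, ∃ b ∈ B 1, ‖θ (π 2 a) - π 1 b‖ ≤ δ

def RA2_s : Prop := ∀ {H : Type} [NormedAddCommGroup H] [InnerProductSpace ℂ H] [CompleteSpace H]
  {π : ℕ → H →L[ℂ] H} {θ : H →L[ℂ] H} {B : ℕ → Submodule ℂ H}, V18.Vhs π θ B →
  ∀ (α ω α' ω' : H) (ε : ℝ), α' + ω' - (α + ω) ∈ (B 0 ⊔ B 1 ⊔ B 2).topologicalClosure →
    π 3 α = α → π 0 ω = ω → ‖π 1 α' + π 0 α'‖ ≤ ε → ‖π 3 ω' + π 2 ω'‖ ≤ ε →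
    (∀ b ∈ B 1, ⟪α, V18.weil π b⟫_ℂ = 0) → (∀ b ∈ B 1, ⟪α', V18.weil π b⟫_ℂ = 0) →
    ∀ l : H →L[ℂ] ℂ, (∀ b ∈ B 2, l b = 0) → ‖l α' - l α‖ ≤ 6 * ε * ‖l‖

/-- The data at one position of the apex. -/
def DAT_s : Prop := HA → ∀ {Dt : Type} [Fintype Dt] {nx rv : Dt → Dt} {g c z v},
  Star nx rv g c z → RC nx rv g v → ∀ a, IsH nx rv g c z v a →
    V18.curv prP (thP nx rv c z) (BS nx rv g c z) a = 0 →
    ∃ φ, U.RG.QData nx rv g z φ ∧ PD nx rv g c z a φ

/-- The change of frame as an operator. -/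
def TOP_s : Prop := HA → ∀ {Dt : Type} [Fintype Dt] {nx rv : Dt → Dt} {g c t s},
  Star nx rv g c t → Star nx rv g c s → ∃ T : HP Dt →L[ℂ] HP Dt,
    (∀ U, (∀ d, PLip (U d)) → T (dP nx rv c s U) = dP nx rv c t U) ∧
    (∀ x y, ⟪T x, V18.weil prP (T y)⟫_ℂ = ⟪x, V18.weil prP y⟫_ℂ) ∧
    ∀ x d, ∀ᵐ ω ∂volume.restrict sq, ∀ k,
      T x d ω k = ∑ l, Tm t s (c (nx (rv d))) (c d) ω k l * x d ω l

/-- Bounds for the motion of the apex. -/
def BD_s : Prop := HA → ∀ t p q, PosT t p q → ∃ C : ℝ, ∀ᶠ s in 𝓝 t, ∀ ω ∈ csq,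
  ‖DD s p q ω - DD t p q ω‖ ≤ C * ‖s - t‖ ∧
  ‖cz (e1 t p q ω) (e2 t p q ω) (e1 s p q ω) (e2 s p q ω) - 1‖ ≤ C * ‖s - t‖ ∧
  ∀ k, (wt k ≤ 1 → ‖Tm t s p q ω k ttt‖ ≤ C * ‖s - t‖ ^ 2) ∧
    (2 ≤ wt k → ‖Tm t s p q ω k fff‖ ≤ C * ‖s - t‖ ^ 2)

/-- The motion in the coordinate of the plane. -/
def TH_s : Prop := HA → ∀ t s p q, PosT t p q → 0 < s.im → ∃ Θ : ℂ → ℂ, Lip Θ (tri t p q) ∧
  (∀ ω ∈ csq, Θ (DD t p q ω) = DD s p q ω) ∧ ∀ᵐ ω ∂volume.restrict sq,
    U.RD.dz Θ (DD t p q ω) = cz (e1 t p q ω) (e2 t p q ω) (e1 s p q ω) (e2 s p q ω)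

/-- The test functional. -/
def LF_s : Prop := HA → CMP_s → ∀ {Dt : Type} [Fintype Dt] {nx rv : Dt → Dt} {g c t},
  Star nx rv g c t → ∀ d (χ : ℂ → ℂ), ContDiff ℝ 2 χ → HasCompactSupport χ →
    tsupport χ ⊆ U.RG.OF t (c (nx (rv d))) (c d) → ∃ l : HP Dt →L[ℂ] ℂ,
      (∀ b ∈ BP nx rv g c t 2, l b = 0) ∧ ∀ x, l x = ∫ ω in sq,
        (rj t (c (nx (rv d))) (c d) ω : ℂ) * Lf χ (x d ω) (Dd nx rv c t d ω)

/-- First order invariance of the holomorphic functions. -/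
def MT_s : Prop := HA → U.RD.MD_s → RA2_s → CMP_s → TOP_s → BD_s → TH_s → LF_s →
  ∀ {Dt : Type} [Fintype Dt] {nx rv : Dt → Dt} {g c t v} (a : ℂ → HP Dt) (φ : ℂ → Dt → ℂ → ℂ)
    (M : ℝ) (d : Dt) (o : ℂ) (r : ℝ), 0 < r → Coc nx rv g v →
    (∀ᶠ s in 𝓝 t, Star nx rv g c s ∧ IsH nx rv g c s v (a s) ∧ PD nx rv g c s (a s) (φ s) ∧
      ‖a s‖ ≤ M ∧ DifferentiableOn ℂ (φ s d) (ball o (2 * r)) ∧
      ball o (2 * r) ⊆ U.RG.OF s (c (nx (rv d))) (c d) ∩ face nx g s d) →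
    ∀ χ : ℂ → ℂ, ContDiff ℝ 2 χ → tsupport χ ⊆ ball o r → ∀ ε > 0, ∀ᶠ s in 𝓝 t,
      ‖(∫ w in ball o r, φ s d w * χ w) - ∫ w in ball o r, φ t d w * χ w‖ ≤ ε * ‖s - t‖

/-- One cocycle with locally constant norm. -/
def ONE_s : Prop := HA → ∀ {Dt : Type} [Fintype Dt] [Nonempty Dt] {nx rv : Dt → Dt} {g c z v},
  Star nx rv g c z → OneV nx rv → RC nx rv g v →
  (∀ᶠ t in 𝓝 z, Fn nx rv g t v = Fn nx rv g z v) → ∀ a, IsH nx rv g c z v a →
    ∃ Q, DifferentiableOn ℂ Q U.RG.HP ∧ (∀ d, U.RG.QInv Q (g d)) ∧ PD nx rv g c z a fun _ => Q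

/-- Output of block R in the language of block H. -/
def RH_s : Prop := ∀ {Dt : Type} [Fintype Dt] {nx rv : Dt → Dt} {g z}
  (W : Submodule ℝ (Dt → Mat)), Ok nx rv g z → OneV nx rv →
  (∀ v ∈ W, RC nx rv g v ∧ ∀ᶠ t in 𝓝 z, Fn nx rv g t v = Fn nx rv g z v) →
  ∃ q : W →ₗ[ℝ] ℂ → ℂ, ∀ v : W, DifferentiableOn ℂ (q v) U.RG.HP ∧ (∀ d, U.RG.QInv (q v) (g d)) ∧
    ((∀ w ∈ U.RG.HP, q v w = 0) → Fn nx rv g z v = 0)

def LIN_s : Prop := HA → ONE_s → RH_s

end

end Pool.Agent.MP_596265_gt.Hd.R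

end
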