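import Pool.Agent.MP_596265_gt.W.R0
import Pool.Agent.MP_596265_gt.W.L0

attribute [-instance] ProperSMul.toContinuousSMul
  IsValuativeTopology.instValuedValueGroupWithZeroOfIsUniformAddGroup
  NonarchimedeanAddGroup.toIsTopologicalAddGroup IdemSemiring.toCanonicallyOrderedAdd
  RKHS.instFunLike AddSubgroup.seminormedAddCommGroup RightPreLieAlgebra.toModule
  LeftPreLieAlgebra.toModule Finite.instDiscreteTopology AddQuantale.instAddLeftMono
  NonarchimedeanRing.toIsTopologicalRing GrpTypeEquivalenceGrp.grpGroup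
  AlgHom.instNonUnitalAlgHomClassOfAlgHomClass covariant_swap_mul_of_covariant_mul
  MonTypeEquivalenceMon.monMonoid IsTopologicalTorsor.toContinuousSMul IsPurelyInseparable.isIntegral
  NonAssocCommRing.toNonAssocRing NonUnitalNonAssocSemiring.toAddCommMonoid
  CoalgHomClass.toSemilinearMapClass IdemSemiring.toMulLeftMono
  CategoryTheory.Limits.Concrete.instUniqueToTypeTerminal IsOrderedMonoid.toMulLeftMono
  Valued.isTopologicalDivisionRing IsValuativeTopology.instIsTopologicalAddGroup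
  AddQuantale.instAddRightMono BialgEquivClass.toBialgHomClass
  DiscreteUniformity.instDiscreteTopology Quantale.instMulLeftMono NumberField.to_charZero
  littleWedderburn invertibleTwo
  TopologicalSpace.instSecondCountableTopologyOfLindelofSpaceOfPseudoMetrizableSpace
  Module.Invertible.instFaithfulSMul SemilinearIsometryClass.toSemilinearMapClass
  Group.IsPerfect.subsingleton_of_isMulCommutative instNonUnitalAlgHomClassOfNonUnitalAlgEquivClass
  IsTopologicalSemiring.toContinuousAdd Quantale.instMulRightMono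
  instDiscreteTopologyOfAlexandrovDiscreteOfT1Space SubringClass.toSeminormedCommRing
  IsSemitopologicalRing.toIsTopologicalAddGroup MulSemiringAction.toDistribMulAction
  PolishSpace.toSecondCountableTopology NonUnitalNonAssocSemiring.toMulZeroClass
  Unique.instSubsingleton RingHomClass.toLinearMapClassRat instTopologicalSpaceSubtype
  ValuationClass.toMonoidWithZeroHomClass Algebra.IsFiniteSplit.instFree
  IsIsometricSMul.to_continuousConstSMul LieAdmissibleRing.toNonUnitalNonAssocRing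
  MulRingSeminormClass.toMonoidHomClass CStarAlgebra.instOrderClosedTopology
  NonUnitalStarSubalgebra.nonUnitalCStarAlgebra SubsemiringClass.toCommSemiring
  NonUnitalNormedCommRing.toNonUnitalSeminormedCommRing
  NonUnitalAlgSemiHomClass.toDistribMulActionSemiHomClass RingSeminormClass.toAddGroupSeminormClass
  MulEquivClass.instMonoidHomClass AddSubgroup.seminormedAddGroup Algebra.WeaklyEtale.flat
  SeminormClass.toAddGroupSeminormClass NonUnitalRing.toNonUnitalNonAssocRing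
  IsStarProjection.instTrivialStarOfStarOrderedRing CanonicallyOrderedAdd.toMulLeftMono NeZero.of_gt'
  IsUniformAddGroup.to_topologicalAddGroup instIsModuleTopology SubringClass.toNormedRing
  SeminormedRing.toNonUnitalSeminormedRing AddSubgroup.normedAddGroup
  MulSemiringActionSemiHomClass.toDistribMulActionSemiHomClass TestFunctionClass.toDFunLike
  MulEquivClass.toMonoidWithZeroHomClass IdemSemiring.toSemiring BialgHomClass.toMonoidHomClass
  BialgHomClass.toAlgHomClass MulCharClass.toMonoidHomClass Valued.toUniformSpace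
  IsFormallyReal.instIsReduced MulDistribMulActionSemiHomClass.toMonoidHomClass
  AlexandrovDiscrete.toLocallyCompactSpace ContDiffMapSupportedInClass.toDFunLike
  instCoeHTCTOfCoeTailOfCoeHTC MulZeroOneClass.toMulZeroClass
  AddGroupNormClass.toAddGroupSeminormClass EuclideanDomain.toCommRing Algebra.Smooth.flat
  SeminormedCommRing.toCommRing instNonemptyOfMonad

section

/-! Row BD of block R: bounds for the motion of the apex. -/

namespace Pool.Agent.MP_596265_gt.Hd.R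

open Set Complex Filter Topology
open scoped ComplexConjugate

namespace BDa

/-- Order `n` of vanishing at `t`, uniformly on the closed square. -/
def Od (t : ℂ) (n : ℕ) (f : ℂ → ℝ × ℝ → ℂ) : Prop :=
  ∃ C : ℝ, 0 ≤ C ∧ ∀ᶠ s in 𝓝 t, ∀ ω ∈ csq, ‖f s ω‖ ≤ C * ‖s - t‖ ^ n

/-- Joint differentiability along the closed square. -/
def Sm (t : ℂ) (f : ℂ → ℝ × ℝ → ℂ) : Prop :=
  ∀ ω ∈ csq, ContDiffAt ℝ 1 (fun x : ℂ × ℝ × ℝ => f x.1 x.2) (t, ω)

lemma cpt : IsCompact csq := isCompact_Icc.prod isCompact_Icc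

lemma near (t : ℂ) : ∀ᶠ s in 𝓝 t, ‖s - t‖ ≤ 1 := by
  filter_upwards [Metric.closedBall_mem_nhds t one_pos] with s hs
  rwa [mem_closedBall_iff_norm] at hs

variable {t : ℂ} {f g : ℂ → ℝ × ℝ → ℂ} {m n : ℕ}

lemma Od.mul (hf : Od t m f) (hg : Od t n g) : Od t (m + n) fun s ω => f s ω * g s ω := by
  obtain ⟨C, hC, h⟩ := hf
  obtain ⟨D, hD, h'⟩ := hg
  refine ⟨C * D, mul_nonneg hC hD, ?_⟩
  filter_upwards [h, h'] with s hs hs' ω hω
  rw [norm_mul, pow_add, mul_mul_mul_comm]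
  exact mul_le_mul (hs ω hω) (hs' ω hω) (norm_nonneg _) (by positivity)

lemma Od.mono (hf : Od t n f) (h : m ≤ n) : Od t m f := by
  obtain ⟨C, hC, hf⟩ := hf
  refine ⟨C, hC, ?_⟩
  filter_upwards [hf, near t] with s hs h1 ω hω
  exact (hs ω hω).trans
    (mul_le_mul_of_nonneg_left (pow_le_pow_of_le_one (norm_nonneg _) h1 h) hC)

lemma Sm.lip (hf : Sm t f) : Od t 1 fun s ω => f s ω - f t ω := by
  refine cpt.induction_on
    (p := fun S => ∃ C : ℝ, 0 ≤ C ∧ ∀ᶠ s in 𝓝 t, ∀ ω ∈ S, ‖f s ω - f t ω‖ ≤ C * ‖s - t‖ ^ 1)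
    ⟨0, le_rfl, Eventually.of_forall fun s ω hω => hω.elim⟩ ?_ ?_ ?_
  · rintro S T hST ⟨C, hC, h⟩
    exact ⟨C, hC, h.mono fun s hs ω hω => hs ω (hST hω)⟩
  · rintro S T ⟨C, hC, h⟩ ⟨D, hD, h'⟩
    refine ⟨C + D, add_nonneg hC hD, ?_⟩
    filter_upwards [h, h'] with s hs hs' ω hω
    have : 0 ≤ ‖s - t‖ ^ 1 := by positivity
    rcases hω with hω | hω
    · linarith only [hs ω hω, mul_nonneg hD this]
    · linarith only [hs' ω hω, mul_nonneg hC this]
  · intro ω hω
    obtain ⟨K, U, hU, hK⟩ := (hf ω hω).exists_lipschitzOnWith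
    obtain ⟨A, hA, B, hB, hAB⟩ := mem_nhds_prod_iff.1 hU
    refine ⟨B, mem_nhdsWithin_of_mem_nhds hB, K, K.2, ?_⟩
    filter_upwards [hA] with s hs ω' hω'
    have := hK.dist_le_mul (s, ω') (hAB ⟨hs, hω'⟩) (t, ω') (hAB ⟨mem_of_mem_nhds hA, hω'⟩)
    simpa only [pow_one, ge_iff_le, dist_eq_norm, Prod.mk_sub_mk, sub_self, Prod.norm_mk, norm_zero, norm_nonneg, sup_of_le_left] using this

lemma Sm.one (hf : Sm t f) (h0 : ∀ ω ∈ csq, f t ω = 0) : Od t 1 f := by
  obtain ⟨C, hC, h⟩ := hf.lip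
  exact ⟨C, hC, h.mono fun s hs ω hω => by simpa only [pow_one, h0 ω hω, sub_zero] using hs ω hω⟩

lemma Sm.zero (hf : Sm t f) : Od t 0 f := by
  obtain ⟨C, hC, h⟩ := hf.lip.mono (Nat.zero_le 1)
  have hc : ContinuousOn (f t) csq := fun ω hω =>
    ((hf ω hω).continuousAt.comp (f := fun ω => (t, ω)) (by fun_prop)).continuousWithinAt
  obtain ⟨D, hD⟩ := cpt.exists_bound_of_continuousOn hc
  refine ⟨C + |D|, by positivity, h.mono fun s hs ω hω => ?_⟩
  have h1 := hs ω hω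
  have h2 := norm_add_le (f s ω - f t ω) (f t ω)
  simp only [pow_zero, mul_one, sub_add_cancel] at h1 h2 ⊢
  linarith [hD ω hω, le_abs_self D]

lemma Sm.ite (hf : Sm t f) {i j : Bool} (h0 : i ≠ j → ∀ ω ∈ csq, f t ω = 0) :
    Od t (if i = j then 0 else 1) f := by
  split_ifs with h
  exacts [hf.zero, hf.one (h0 h)]

lemma Sm.frz (hf : Sm t f) : Sm t fun _ ω => f t ω := fun ω hω =>
  (hf ω hω).comp (f := fun x : ℂ × ℝ × ℝ => (t, x.2)) (t, ω) (by fun_prop)

lemma Sm.cnj (hf : Sm t f) : Sm t fun s ω => conj (f s ω) := fun ω hω =>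
  conjCLE.contDiff.contDiffAt.comp (t, ω) (hf ω hω)

lemma Sm.pt (hf : Sm t f) (i : Bool) : Sm t fun s ω => pt (f s ω) i := by
  cases i
  exacts [hf, hf.cnj]

lemma Sm.mul (hf : Sm t f) (hg : Sm t g) : Sm t fun s ω => f s ω * g s ω := fun ω hω =>
  (hf ω hω).mul (hg ω hω)

lemma Sm.sub (hf : Sm t f) (hg : Sm t g) : Sm t fun s ω => f s ω - g s ω := fun ω hω =>
  (hf ω hω).sub (hg ω hω)

lemma Sm.inv (hf : Sm t f) (h0 : ∀ ω ∈ csq, f t ω ≠ 0) : Sm t fun s ω => (f s ω)⁻¹ := fun ω hω =>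
  (hf ω hω).inv (h0 ω hω)

lemma Sm.cst (c : ℂ) : Sm t fun _ _ => c := fun _ _ => contDiffAt_const

lemma Sm.rt (hf : Sm t f) (hg : Sm t g) (h0 : ∀ ω ∈ csq, 0 < jc (f t ω) (g t ω)) :
    Sm t fun s ω => ((√(jc (f s ω) (g s ω)) : ℝ) : ℂ) := fun ω hω =>
  ofRealCLM.contDiff.contDiffAt.comp (t, ω)
    (ContDiffAt.sqrt (imCLM.contDiff.contDiffAt.comp (t, ω) ((hf.cnj.mul hg) ω hω)) (h0 ω hω).ne')

lemma dl_ne {w : ℂ} (hw : 0 < w.im) : dl w ≠ 0 := fun h => by
  have := congrArg Complex.im h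
  simp only [dl, sub_im, conj_im, sub_neg_eq_add, zero_im, add_self_eq_zero] at this
  linarith

lemma det_ne {a b : ℂ} (h : 0 < jc a b) : a * conj b - b * conj a ≠ 0 := fun h' => by
  have := congrArg Complex.im h'
  simp only [sub_im, mul_im, conj_im, mul_neg, conj_re, zero_im, jc, neg_mul, lt_add_neg_iff_add_lt, zero_add] at this h
  linarith

end BDa

open BDa

theorem bd : BD_s := by
  intro hA t p q hT
  have hs := fun ω hω => hA.gep.sm t p q ω hT.1 hT.2.1 hT.2.2.1 hω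
  have hι : ∀ {F : (ℂ × ℂ × ℂ) × ℝ × ℝ → ℂ} {ω : ℝ × ℝ}, ContDiffAt ℝ (⊤ : ℕ∞) F ((t, p, q), ω) →
      ContDiffAt ℝ 1 (fun x : ℂ × ℝ × ℝ => F ((x.1, p, q), x.2)) (t, ω) := fun {F ω} h =>
    ContDiffAt.comp (g := F) (f := fun x : ℂ × ℝ × ℝ => ((x.1, p, q), x.2)) (t, ω)
      (h.of_le (by exact_mod_cast le_top)) (by fun_prop)
  have hD : Sm t fun s ω => DD s p q ω := fun ω hω => hι (hs ω hω).1
  have ha : Sm t fun s ω => e1 s p q ω := fun ω hω => hι (hs ω hω).2.1
  have hb : Sm t fun s ω => e2 s p q ω := fun ω hω => hι (hs ω hω).2.2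
  have hj : ∀ ω ∈ csq, 0 < jc (e1 t p q ω) (e2 t p q ω) := fun ω hω => hA.gep.jpos t p q ω hT hω
  have hl : ∀ ω ∈ csq, dl (DD t p q ω) ≠ 0 := fun ω hω => dl_ne <| by
    have : DD t p q ω ∈ tri t p q := hA.pol.img t p q hT ▸ mem_image_of_mem _ hω
    exact this.1
  have hdl : Sm t fun s ω => dl (DD s p q ω) := hD.sub hD.cnj
  have hdt : Sm t fun _ ω => (e1 t p q ω * conj (e2 t p q ω) - e2 t p q ω * conj (e1 t p q ω))⁻¹ :=
    ((ha.frz.mul hb.frz.cnj).sub (hb.frz.mul ha.frz.cnj)).inv fun ω hω => det_ne (hj ω hω)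
  have h1 : Sm t fun s ω => ((√(jc (e1 t p q ω) (e2 t p q ω)) /
      √(jc (e1 s p q ω) (e2 s p q ω)) : ℝ) : ℂ) := by
    simp only [div_eq_mul_inv, ofReal_mul, ofReal_inv]
    exact (ha.frz.rt hb.frz hj).mul ((ha.rt hb hj).inv fun ω hω =>
      ofReal_ne_zero.2 (Real.sqrt_pos.2 (hj ω hω)).ne')
  have h2 : Sm t fun s ω => dl (DD s p q ω) / dl (DD t p q ω) := by
    simp only [div_eq_mul_inv]
    exact hdl.mul (hdl.frz.inv hl)
  have h3 : ∀ i j, Od t (if i = j then 0 else 1) fun s ω => sl (DD t p q ω) (DD s p q ω) i j := by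
    intro i j
    refine Sm.ite ?_ fun h ω _ => ?_
    · simp only [sl, div_eq_mul_inv]
      exact ((Sm.cst _).mul ((hD.frz.pt i).sub (hD.pt _))).mul (hdl.inv hl)
    · cases i <;> cases j <;> simp_all [sl]
  have h4 : ∀ i j, Sm t fun s ω =>
      fm (e1 t p q ω) (e2 t p q ω) (e1 s p q ω) (e2 s p q ω) i j := by
    intro i j
    cases i
    · exact hdt.mul ((ha.frz.mul (hb.pt _)).sub (hb.frz.mul (ha.pt _)))
    · exact hdt.mul ((hb.frz.cnj.mul (ha.pt _)).sub (ha.frz.cnj.mul (hb.pt _)))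
  have h5 : ∀ i j, Od t (if i = j then 0 else 1) fun s ω =>
      fm (e1 t p q ω) (e2 t p q ω) (e1 s p q ω) (e2 s p q ω) i j := by
    intro i j
    refine (h4 i j).ite fun h ω _ => ?_
    cases i <;> cases j <;> simp_all [fm, cz, czb, pt, mul_comm]
  have hT : ∀ k l : Ix, Od t _ fun s ω => Tm t s p q ω k l := fun k l =>
    (((h1.zero.mul h2.zero).mul (h3 k.1 l.1)).mul (h3 k.2.1 l.2.1)).mul (h5 k.2.2 l.2.2)
  have hk : ∀ k : Ix, ∃ C : ℝ, 0 ≤ C ∧ ∀ᶠ s in 𝓝 t, ∀ ω ∈ csq,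
      (wt k ≤ 1 → ‖Tm t s p q ω k ttt‖ ≤ C * ‖s - t‖ ^ 2) ∧
      (2 ≤ wt k → ‖Tm t s p q ω k fff‖ ≤ C * ‖s - t‖ ^ 2) := by
    intro k
    by_cases h : wt k ≤ 1
    · obtain ⟨C, hC, h'⟩ := (hT k ttt).mono (m := 2) (by revert k; decide)
      exact ⟨C, hC, h'.mono fun s hs ω hω => ⟨fun _ => hs ω hω, fun h2 => by omega⟩⟩
    · obtain ⟨C, hC, h'⟩ := (hT k fff).mono (m := 2) (by revert k; decide)
      exact ⟨C, hC, h'.mono fun s hs ω hω => ⟨fun h2 => (h h2).elim, fun _ => hs ω hω⟩⟩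
  choose c hc0 hc using hk
  obtain ⟨C₁, hC₁, hl1⟩ := hD.lip
  obtain ⟨C₂, hC₂, hl2⟩ := (h4 true true).lip
  have hS : 0 ≤ ∑ k, c k := Finset.sum_nonneg fun k _ => hc0 k
  refine ⟨C₁ + C₂ + ∑ k, c k, ?_⟩
  filter_upwards [hl1, hl2, eventually_all.2 hc] with s u1 u2 u3 ω hω
  have hn := norm_nonneg (s - t)
  refine ⟨?_, ?_, fun k => ?_⟩
  · have := u1 ω hω
    simp only [pow_one] at this
    exact this.trans (mul_le_mul_of_nonneg_right (by linarith) hn)
  · have e : fm (e1 t p q ω) (e2 t p q ω) (e1 t p q ω) (e2 t p q ω) true true = 1 := by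
      have := det_ne (hj ω hω)
      simp only [fm, cz, pt, smul_eq_mul, if_true, Bool.not_true, Bool.false_eq_true, if_false]
      field_simp
    have := u2 ω hω
    simp only [pow_one, e] at this
    exact this.trans (mul_le_mul_of_nonneg_right (by linarith) hn)
  · have hle : c k * ‖s - t‖ ^ 2 ≤ (C₁ + C₂ + ∑ k, c k) * ‖s - t‖ ^ 2 :=
      mul_le_mul_of_nonneg_right (by
        linarith [Finset.single_le_sum (fun k _ => hc0 k) (Finset.mem_univ k)]) (by positivity)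
    exact ⟨fun h => ((u3 k ω hω).1 h).trans hle, fun h => ((u3 k ω hω).2 h).trans hle⟩

end Pool.Agent.MP_596265_gt.Hd.R

end

section

/-! Block R: components of the differentials of pure sections. -/

namespace Pool.Agent.MP_596265_gt.Hd.R

open MeasureTheory Set Complex Metric Filter Topology
open scoped ComplexConjugate InnerProductSpace Matrix.Norms.Elementwise

namespace CMPx

/-- Evaluation as a linear map. -/
noncomputable def evL (s t : ℂ) : Mat →L[ℂ] ℂ := LinearMap.toContinuousLinearMap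
  { toFun := fun X => ev X s t
    map_add' := fun X Y => by simp only [ev, Matrix.add_apply]; ring
    map_smul' := fun a X => by simp only [ev, Matrix.smul_apply, smul_eq_mul, RingHom.id_apply]; ring }

theorem clm_d {V : Type} [NormedAddCommGroup V] [NormedSpace ℂ V] {W : ℂ → V} {w : ℂ}
    (h : DifferentiableAt ℝ W w) (L : V →L[ℂ] ℂ) {A : ℂ →L[ℝ] ℂ}
    (hA : HasFDerivAt (fun y => L (W y)) A w) :
    L (dz W w) = (A 1 - I * A I) / 2 ∧ L (dzb W w) = (A 1 + I * A I) / 2 := by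
  obtain rfl := ((L.restrictScalars ℝ).hasFDerivAt.comp w h.hasFDerivAt).unique hA
  constructor <;> simp only [dz, one_div, map_smul, map_sub, smul_eq_mul, ContinuousLinearMap.comp_apply, ContinuousLinearMap.coe_restrictScalars', dzb, smul_add, map_add] <;> ring

theorem ev_d {W : ℂ → Mat} {w : ℂ} (h : DifferentiableAt ℝ W w) (s t : ℂ) {A : ℂ →L[ℝ] ℂ}
    (hA : HasFDerivAt (fun y => ev (W y) s t) A w) :
    ev (dz W w) s t = (A 1 - I * A I) / 2 ∧ ev (dzb W w) s t = (A 1 + I * A I) / 2 :=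
  clm_d h (evL s t) hA

theorem q2 (ψ : ℂ → ℂ) :
    sec 2 ψ = fun y => (ψ y * (y - conj y)⁻¹) • !![-y, y * y; -1, y] := by
  ext y i j
  fin_cases i <;> fin_cases j <;> simp only [sec, mk, Fintype.univ_bool, mul_ite, ite_mul, neg_mul, one_mul, mul_zero, dl, div_eq_mul_inv, zero_mul, nn, pt, Bool.not_eq_eq_eq_not, Bool.not_true, ite_smul, neg_smul, Matrix.smul_of, Matrix.smul_cons, smul_eq_mul, mul_neg, Matrix.smul_empty, mul_one, Matrix.neg_of, Matrix.neg_cons, neg_neg, Matrix.neg_empty, zero_smul, Finset.mem_singleton, Bool.true_eq_false, not_false_eq_true, Finset.sum_insert, Bool.toNat_true, Nat.reduceEqDiff, Bool.toNat_eq_one, ↓ reduceIte, Finset.sum_singleton, Bool.toNat_false, add_zero, Fin.zero_eta, Fin.isValue, OfNat.one_ne_ofNat, Bool.false_eq_true, OfNat.zero_ne_ofNat, Matrix.add_apply, Matrix.of_apply, Matrix.cons_val', Matrix.cons_val_zero, Matrix.cons_val_fin_one, Matrix.zero_apply, Matrix.smul_apply, Fin.mk_one,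 Matrix.cons_val_one]

theorem q1 (ψ : ℂ → ℂ) : sec 1 ψ = fun y => (ψ y * (y - conj y)⁻¹) •
    !![y + conj y, -(2 * (y * conj y)); 2, -(y + conj y)] := by
  ext y i j
  fin_cases i <;> fin_cases j <;> simp only [sec, mk, Fintype.univ_bool, mul_ite, ite_mul, neg_mul, one_mul, mul_zero, dl, div_eq_mul_inv, zero_mul, nn, pt, Bool.not_eq_eq_eq_not, Bool.not_true, ite_smul, neg_smul, Matrix.smul_of, Matrix.smul_cons, smul_eq_mul, mul_neg, Matrix.smul_empty, mul_one, Matrix.neg_of, Matrix.neg_cons, neg_neg, Matrix.neg_empty, zero_smul, Finset.mem_singleton, Bool.true_eq_false, not_false_eq_true, Finset.sum_insert, Bool.toNat_true, Nat.add_eq_right, Bool.toNat_eq_zero, ↓ reduceIte, Finset.sum_singleton, Bool.toNat_false, add_zero, Bool.toNat_eq_one, Fin.zero_eta, Fin.isValue, zero_add, Bool.false_eq_true, Matrix.add_apply, Matrix.of_apply, Matrix.cons_val', Matrix.cons_val_zero, Matrix.cons_val_fin_one, neg_add_rev, Matrix.smul_apply,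 Fin.mk_one, Matrix.cons_val_one] <;> ring

end CMPx

open CMPx in
theorem cmp : CMP_s := by
  intro _ ψ w hw hψ
  have n : w - conj w ≠ 0 := fun e => by
    have := congrArg Complex.im e
    simp only [sub_im, conj_im, sub_neg_eq_add, zero_im, add_self_eq_zero] at this
    exact hw.ne' this
  have hi := hasFDerivAt_id (𝕜 := ℝ) w
  have hc : HasFDerivAt (fun y : ℂ => conj y) _ w := conjCLE.hasFDerivAt
  have ha := hψ.hasFDerivAt.mul ((hasDerivAt_inv n).comp_hasFDerivAt w (hi.sub hc))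
  have dc := hc.differentiableAt
  have d2 : DifferentiableAt ℝ (sec 2 ψ) w := by
    rw [q2]
    refine ha.differentiableAt.smul (differentiableAt_pi.2 fun i => differentiableAt_pi.2 fun j => ?_)
    fin_cases i <;> fin_cases j <;> simp <;> fun_prop
  have d1 : DifferentiableAt ℝ (sec 1 ψ) w := by
    rw [q1]
    refine ha.differentiableAt.smul (differentiableAt_pi.2 fun i => differentiableAt_pi.2 fun j => ?_)
    fin_cases i <;> fin_cases j <;> simp only [neg_add_rev, Fin.zero_eta, Fin.isValue, Matrix.of_apply, Matrix.cons_val', Matrix.cons_val_zero, Matrix.cons_val_fin_one, differentiableAt_fun_id, DifferentiableAt.fun_add_iff_right, Fin.mk_one, Matrix.cons_val_one, differentiableAt_fun_neg_iff, differentiableAt_const] <;> fun_prop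
  have k2 := fun s t => ev_d d2 s t ((ha.mul ((hi.const_sub s).mul (hi.const_sub t))).congr_of_eventuallyEq
    (Eventually.of_forall fun y => by simp only [ev, Fin.isValue, q2, Matrix.smul_apply, Matrix.of_apply, Matrix.cons_val', Matrix.cons_val_zero, Matrix.cons_val_fin_one, smul_eq_mul, mul_neg, neg_mul, Matrix.cons_val_one, mul_one, sub_neg_eq_add, id_eq, Pi.mul_apply, Function.comp_apply, Pi.sub_apply]; ring))
  have k1 := fun s t => ev_d d1 s t ((ha.mul (((hi.const_sub s).mul (hc.const_sub t)).add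
    ((hc.const_sub s).mul (hi.const_sub t))).neg).congr_of_eventuallyEq
      (Eventually.of_forall fun y => by simp only [ev, Fin.isValue, q1, neg_add_rev, Matrix.smul_apply, Matrix.of_apply, Matrix.cons_val', Matrix.cons_val_zero, Matrix.cons_val_fin_one, smul_eq_mul, Matrix.cons_val_one, mul_neg, id_eq, Pi.mul_apply, Function.comp_apply, Pi.sub_apply, Pi.add_apply, Pi.neg_apply]; ring))
  have l2 : ∀ s t, ev (dz (sec 2 ψ) w) s t = (dz ψ w * ((s - w) * (t - w)) -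
      ψ w * (s - w + (t - w) + (s - w) * (t - w) / dl w)) / dl w ∧
      ev (dzb (sec 2 ψ) w) s t = (dzb ψ w + ψ w / dl w) * ((s - w) * (t - w)) / dl w := fun s t => by
    rw [(k2 s t).1, (k2 s t).2]
    constructor <;> simp only [Pi.mul_apply, Function.comp_apply, Pi.sub_apply, id_eq, smul_neg, smul_add, neg_smul, add_apply, neg_apply, smul_apply, ContinuousLinearMap.id_apply, smul_eq_mul, mul_one, sub_apply, ContinuousLinearEquiv.coe_coe, ContinuousAlgEquiv.coeCLE_apply, conjCAE_apply, map_one, sub_self, mul_zero, neg_zero, zero_add, conj_I, sub_neg_eq_add, dz, one_div, dl, dzb] <;> field_simp <;> ring_nf <;> simp only [I_sq] <;> ring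
  have l1 : ∀ s t, ev (dz (sec 1 ψ) w) s t = (ψ w * (s - conj w + (t - conj w)) -
      (dz ψ w - ψ w / dl w) * ((s - w) * (t - conj w) + (s - conj w) * (t - w))) / dl w ∧
      ev (dzb (sec 1 ψ) w) s t = (ψ w * (s - w + (t - w)) -
      (dzb ψ w + ψ w / dl w) * ((s - w) * (t - conj w) + (s - conj w) * (t - w))) / dl w :=
    fun s t => by
      rw [(k1 s t).1, (k1 s t).2]
      constructor <;> simp only [Pi.mul_apply, Function.comp_apply, Pi.sub_apply, id_eq, smul_neg, neg_add_rev, neg_neg, smul_add, Pi.neg_apply, Pi.add_apply, neg_smul, add_apply, smul_apply, ContinuousLinearEquiv.coe_coe, ContinuousAlgEquiv.coeCLE_apply, conjCAE_apply, map_one, smul_eq_mul, mul_one, ContinuousLinearMap.id_apply, neg_apply, sub_apply, sub_self, mul_zero, neg_zero, zero_add, conj_I, mul_neg, sub_neg_eq_add, dz, one_div, dl, dzb] <;> field_simp <;> ring_nf <;> simp only [I_sq] <;> ring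
  constructor <;> rintro ⟨i, j, l⟩ <;> cases i <;> cases j <;> cases l <;>
    simp only [dF, J, pt, dl, Bool.false_eq_true, ↓ reduceIte, l2, sub_self, mul_zero, zero_div, Prod.mk.injEq, and_self, and_true, and_false, or_self, add_zero, Bool.true_eq_false, zero_mul, zero_add, zero_sub, or_true, or_false, l1, sub_zero, neg_mul] <;> field_simp <;> ring

end Pool.Agent.MP_596265_gt.Hd.R

end

section

/-! Block R, row VX: the type two identity at the vertex. -/

namespace Pool.Agent.MP_596265_gt.Hd.R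

open MeasureTheory Set Complex Metric Filter Topology
open scoped ComplexConjugate InnerProductSpace Matrix.Norms.Elementwise

noncomputable section

namespace VXx

def SS (w : ℂ) (X : Mat) : ℂ := X 1 1 - X 0 0 + 2 * w * X 1 0
def N0 (w : ℂ) : Mat := !![w, -(w * w); 1, -w]
def N' (w : ℂ) : Mat := !![1, -(2 * w); 0, -1]
/-- Derivative of the section `-(κ SS) N0`. -/
def YY (w κ : ℂ) (X : Mat) (e k : ℂ) (X' : Mat) : Mat :=
  (-(k * SS w X + κ * (SS w X' + 2 * e * X 1 0))) • N0 w + (-(κ * SS w X) * e) • N' w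

def P1 : E8 →L[ℂ] E8 := op fun k l =>
  if ((k = tft ∨ k = ftt) ∧ l = fft) ∨ (k = ttf ∧ (l = (true, false, false) ∨
    l = (false, true, false))) then 1 else 0
def P2 : E8 →L[ℂ] E8 := op fun k l => if k = ttf ∧ l = fft then 1 else 0

theorem P1_apply (hA : ALG_s) (x : E8) (k : Ix) : P1 x k = if k = tft ∨ k = ftt then x fft
    else if k = ttf then x (true, false, false) + x (false, true, false) else 0 := by
  unfold P1
  rw [hA.op_apply]
  obtain ⟨i, j, f⟩ := k
  cases i <;> cases j <;> cases f <;> simp [Fintype.sum_prod_type]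

theorem P2_apply (hA : ALG_s) (x : E8) (k : Ix) : P2 x k = if k = ttf then x fft else 0 := by
  unfold P2
  rw [hA.op_apply]
  obtain ⟨i, j, f⟩ := k
  cases i <;> cases j <;> cases f <;> simp

theorem pr_apply (hA : ALG_s) (p : ℕ) (x : E8) (k : Ix) :
    pr p x k = if wt k = p then x k else 0 := by
  unfold pr
  rw [hA.dg_apply]
  split_ifs <;> simp

theorem ev_cz (a b : ℂ) (X Y : Mat) (s t : ℂ) :
    ev (cz a b X Y) s t = cz a b (ev X s t) (ev Y s t) := by
  simp only [ev, cz, Matrix.smul_apply, Matrix.sub_apply, smul_eq_mul]; ring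

theorem ev_czb (a b : ℂ) (X Y : Mat) (s t : ℂ) :
    ev (czb a b X Y) s t = czb a b (ev X s t) (ev Y s t) := by
  simp only [ev, czb, Matrix.smul_apply, Matrix.sub_apply, smul_eq_mul]; ring

theorem ev_YY (w κ : ℂ) (X : Mat) (e k : ℂ) (X' : Mat) (s t : ℂ) :
    ev (YY w κ X e k X') s t = -(k * SS w X + κ * (SS w X' + 2 * e * X 1 0)) * ((w - s) * (t - w)) -
      κ * SS w X * e * (t - 2 * w + s) := by
  simp only [ev, YY, Fin.isValue, neg_add_rev, N0, Matrix.smul_of, Matrix.smul_cons, smul_eq_mul, mul_neg, Matrix.smul_empty, mul_one, neg_mul, N', neg_smul, mul_zero, Matrix.neg_of, Matrix.neg_cons, neg_neg, Matrix.neg_empty, neg_zero, Matrix.add_apply, Matrix.of_apply, Matrix.cons_val', Matrix.cons_val_zero, Matrix.cons_val_fin_one, Matrix.cons_val_one, add_zero]; ring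

theorem SS_eq (w u : ℂ) (X : Mat) :
    (w - u) * SS w X = ev X u w + ev X w u - 2 * ev X w w := by
  simp only [SS, ev]; ring

theorem J_apply (w : ℂ) (a b : Mat) (k : Ix) :
    J w a b k = ev (if k.2.2 then a else b) (pt w k.1) (pt w k.2.1) / dl w := rfl

/-- The pointwise identity between the two differentials. -/
theorem key (hA : ALG_s) {w a b κ k₁ k₂ : ℂ} {X X₁ X₂ : Mat} (hd : dl w ≠ 0)
    (hΔ : a * conj b - b * conj a ≠ 0) (h₁ : ev X₁ w w = a * SS w X) (h₂ : ev X₂ w w = b * SS w X) :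
    ((κ * dl w) • P1 + (czb a b k₁ k₂ * dl w ^ 2) • P2)
        (pr 1 (J w (cz a b X₁ X₂) (czb a b X₁ X₂))) =
      pr 2 (J w (cz a b (YY w κ X a k₁ X₁) (YY w κ X b k₂ X₂))
        (czb a b (YY w κ X a k₁ X₁) (YY w κ X b k₂ X₂))) := by
  have s₁ := SS_eq w (conj w) X₁
  have s₂ := SS_eq w (conj w) X₂
  rw [h₁] at s₁
  rw [h₂] at s₂
  have e₁ : ev X₁ (conj w) w = (w - conj w) * SS w X₁ - ev X₁ w (conj w) + 2 * (a * SS w X) := by
    linear_combination -s₁
  have e₂ : ev X₂ (conj w) w = (w - conj w) * SS w X₂ - ev X₂ w (conj w) + 2 * (b * SS w X) := by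
    linear_combination -s₂
  unfold dl at hd
  ext k
  obtain ⟨i, j, f⟩ := k
  simp only [_root_.add_apply, _root_.smul_apply, PiLp.add_apply,
    PiLp.smul_apply, P1_apply hA, P2_apply hA, pr_apply hA, smul_eq_mul, J_apply]
  cases i <;> cases j <;> cases f <;>
    simp only [Prod.mk.injEq, Bool.false_eq_true, and_false, and_self, or_self, ↓ reduceIte, and_true, mul_zero, add_zero, wt, Bool.toNat_false, OfNat.zero_ne_ofNat, Bool.true_eq_false, Bool.toNat_true, zero_add, OfNat.one_ne_ofNat, or_true, pt, ev_cz, h₁, h₂, Nat.reduceAdd, ev_YY, Fin.isValue, neg_add_rev, sub_self, zero_mul, zero_sub, or_false, ev_czb, e₁, e₂, Nat.succ_ne_self] <;>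
    simp only [cz, czb, dl, smul_eq_mul] <;> field_simp <;> ring

theorem der_ent {U : ℝ → Mat} {X : Mat} {t : ℝ} (hU : HasDerivAt U X t) (i j : Fin 2) :
    HasDerivAt (fun t => U t i j) (X i j) t := hasDerivAt_pi.1 (hasDerivAt_pi.1 hU i) j

theorem der_sec {D κ : ℝ → ℂ} {U : ℝ → Mat} {t : ℝ} {e k : ℂ} {X' : Mat} (hD : HasDerivAt D e t)
    (hk : HasDerivAt κ k t) (hU : HasDerivAt U X' t) :
    HasDerivAt (fun t => (-(κ t * SS (D t) (U t))) • N0 (D t)) (YY (D t) (κ t) (U t) e k X') t := by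
  have hS : HasDerivAt (fun t => SS (D t) (U t)) (SS (D t) X' + 2 * e * U t 1 0) t :=
    (((der_ent hU 1 1).sub (der_ent hU 0 0)).add ((hD.const_mul 2).mul (der_ent hU 1 0))).congr_deriv
      (by simp only [SS]; ring)
  have hm := (hk.mul hS).neg
  have hN : HasDerivAt (fun t => N0 (D t)) (e • N' (D t)) t := by
    refine hasDerivAt_pi.2 fun i => hasDerivAt_pi.2 fun j => ?_
    fin_cases i <;> fin_cases j
    · exact hD.congr_deriv (by simp [N'])
    · exact (hD.mul hD).neg.congr_deriv (by simp only [neg_add_rev, N', Fin.zero_eta, Fin.isValue, Fin.mk_one, Matrix.smul_apply, Matrix.of_apply, Matrix.cons_val', Matrix.cons_val_one, Matrix.cons_val_fin_one, Matrix.cons_val_zero, smul_eq_mul, mul_neg]; ring)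
    · exact (hasDerivAt_const t (1 : ℂ)).congr_deriv (by simp [N'])
    · exact hD.neg.congr_deriv (by simp [N'])
  refine (hm.smul hN).congr_deriv ?_
  simp only [YY, smul_smul, Pi.neg_apply, Pi.mul_apply]
  rw [add_comm]

theorem der_pure {D : ℝ → ℂ} {U : ℝ → Mat} {t : ℝ} {e : ℂ} {X' : Mat} (hD : HasDerivAt D e t)
    (hU : HasDerivAt U X' t) (h : ∀ᶠ s in 𝓝 t, ev (U s) (D s) (D s) = 0) :
    ev X' (D t) (D t) = e * SS (D t) (U t) := by
  have h1 : HasDerivAt (fun s => ev (U s) (D s) (D s)) (ev X' (D t) (D t) - e * SS (D t) (U t)) t :=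
    (((((der_ent hU 0 0).mul hD).add (der_ent hU 0 1)).sub
      ((hD.mul (der_ent hU 1 0)).mul hD)).sub (hD.mul (der_ent hU 1 1))).congr_deriv
      (by simp only [SS, ev, Pi.mul_apply]; ring)
  have h2 : HasDerivAt (fun s => ev (U s) (D s) (D s)) 0 t :=
    (hasDerivAt_const t (0 : ℂ)).congr_of_eventuallyEq h
  exact sub_eq_zero.1 (h1.unique h2)

theorem czb_lin (B : ℂ →L[ℝ] ℂ) {a b : ℂ} (hΔ : a * conj b - b * conj a ≠ 0) :
    czb a b (B a) (B b) = (1 / 2 : ℂ) * (B 1 + I * B I) := by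
  have h : ∀ e : ℂ, B e = (e + conj e) / 2 * B 1 + (e - conj e) / (2 * I) * B I := by
    intro e
    have : e = e.re • (1 : ℂ) + e.im • I := by simp
    conv_lhs => rw [this, map_add, map_smul, map_smul]
    rw [Complex.add_conj, Complex.sub_conj]
    simp only [real_smul]
    push_cast
    field_simp
  rw [h a, h b]
  simp only [czb, smul_eq_mul]
  field_simp
  ring_nf
  simp only [I_sq]
  ring

/-- The two directions of the frame. -/
def v1 (ω : ℝ × ℝ) : ℝ × ℝ := (1 - ω.2)⁻¹ • ((1 : ℝ), (0 : ℝ))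

theorem r1_eq {V : Type} [NormedAddCommGroup V] [NormedSpace ℝ V] (f : ℝ × ℝ → V) (ω : ℝ × ℝ) :
    r1 f ω = lineDeriv ℝ f ω (v1 ω) := by
  unfold r1 v1
  rw [lineDeriv_smul]

theorem has1 {V : Type} [NormedAddCommGroup V] [NormedSpace ℝ V] {f : ℝ × ℝ → V} {ω : ℝ × ℝ}
    (h : DifferentiableAt ℝ f ω) : HasLineDerivAt ℝ f (r1 f ω) ω (v1 ω) := by
  rw [r1_eq]; exact h.lineDifferentiableAt.hasLineDerivAt

theorem has2 {V : Type} [NormedAddCommGroup V] [NormedSpace ℝ V] {f : ℝ × ℝ → V} {ω : ℝ × ℝ}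
    (h : DifferentiableAt ℝ f ω) : HasLineDerivAt ℝ f (r2 f ω) ω (0, 1) :=
  h.lineDifferentiableAt.hasLineDerivAt

theorem sq_sub : sq ⊆ csq := prod_mono Ioo_subset_Icc_self Ioo_subset_Icc_self

theorem sq_open : IsOpen sq := isOpen_Ioo.prod isOpen_Ioo

theorem csq_nhds {ω : ℝ × ℝ} (h : ω ∈ sq) : csq ∈ 𝓝 ω :=
  mem_of_superset (sq_open.mem_nhds h) sq_sub

theorem line_ev {P : ℝ × ℝ → Prop} {ω : ℝ × ℝ} (h : ∀ᶠ x in 𝓝 ω, P x) (v : ℝ × ℝ) :
    ∀ᶠ t in 𝓝 (0 : ℝ), P (ω + t • v) := by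
  have : Tendsto (fun t : ℝ => ω + t • v) (𝓝 0) (𝓝 ω) := by
    have h : Continuous fun t : ℝ => ω + t • v := by fun_prop
    simpa using h.tendsto 0
  exact this.eventually h

section Pt
variable (hH : HA) {z p q : ℂ} (hP : PosT z p q)
include hH hP

theorem D_im {ω : ℝ × ℝ} (h : ω ∈ csq) : 0 < (DD z p q ω).im := by
  have : DD z p q ω ∈ tri z p q := by rw [← hH.pol.img z p q hP]; exact mem_image_of_mem _ h
  exact this.1

theorem dl_ne {ω : ℝ × ℝ} (h : ω ∈ csq) : dl (DD z p q ω) ≠ 0 := by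
  have := D_im hH hP h
  unfold dl
  rw [Complex.sub_conj]
  exact mul_ne_zero (ofReal_ne_zero.2 (by linarith)) I_ne_zero

theorem det_ne {ω : ℝ × ℝ} (h : ω ∈ csq) : e1 z p q ω * conj (e2 z p q ω) -
    e2 z p q ω * conj (e1 z p q ω) ≠ 0 := by
  have := hH.gep.jpos z p q ω hP h
  intro e
  have h2 := congrArg Complex.im e
  unfold jc at this
  simp only [mul_im, conj_re, conj_im, neg_mul, lt_add_neg_iff_add_lt, zero_add, sub_im, mul_neg, zero_im] at this h2
  linarith only [this, h2]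

theorem D_der {ω : ℝ × ℝ} (h : ω ∈ sq) : HasLineDerivAt ℝ (DD z p q) (e1 z p q ω) ω (v1 ω) ∧
    HasLineDerivAt ℝ (DD z p q) (e2 z p q ω) ω (0, 1) := by
  obtain ⟨A, hA, h1, h2⟩ := hH.gep.der z p q ω hP.1 hP.2.1 hP.2.2.1 (sq_sub h)
  refine ⟨?_, h2 ▸ hA.hasLineDerivAt _⟩
  have h3 : A (v1 ω) = e1 z p q ω := by
    have : (1 - ω.2 : ℝ) ≠ 0 := (sub_pos.2 h.2.2).ne'
    unfold v1
    rw [map_smul, h1, real_smul, ← mul_assoc, ← ofReal_mul, inv_mul_cancel₀ this]
    simp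
  exact h3 ▸ hA.hasLineDerivAt _

/-- The new section. -/
def sc (z p q : ℂ) (κ : ℝ × ℝ → ℂ) (U : ℝ × ℝ → Mat) (ω : ℝ × ℝ) : Mat :=
  (-(κ ω * SS (DD z p q ω) (U ω))) • N0 (DD z p q ω)

theorem dq_sc {κ : ℝ × ℝ → ℂ} {U : ℝ × ℝ → Mat} {ω : ℝ × ℝ} (h : ω ∈ sq)
    (hκ : DifferentiableAt ℝ κ ω) (hU : DifferentiableAt ℝ U ω)
    (hp : ∀ x ∈ csq, PureAt 1 (DD z p q x) (U x)) :
    ((κ ω * dl (DD z p q ω)) • P1 + (czb (e1 z p q ω) (e2 z p q ω) (r1 κ ω) (r2 κ ω) *
      dl (DD z p q ω) ^ 2) • P2) (pr 1 (dq z p q U ω)) = pr 2 (dq z p q (sc z p q κ U) ω) := by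
  obtain ⟨d1, d2⟩ := D_der hH hP h
  have hz : ∀ᶠ x in 𝓝 ω, ev (U x) (DD z p q x) (DD z p q x) = 0 := by
    filter_upwards [csq_nhds h] with x hx
    have := hp x hx false false (by simp)
    simpa [cp, pt, dl_ne hH hP hx] using this
  have a1 := der_pure d1 (has1 hU) (line_ev hz _)
  have a2 := der_pure d2 (has2 hU) (line_ev hz _)
  have b1 : HasLineDerivAt ℝ (sc z p q κ U) _ ω (v1 ω) := der_sec d1 (has1 hκ) (has1 hU)
  have b2 : HasLineDerivAt ℝ (sc z p q κ U) _ ω (0, 1) := der_sec d2 (has2 hκ) (has2 hU)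
  simp only [zero_smul, add_zero] at a1 a2 b1 b2
  have c1 := (r1_eq _ _).trans b1.lineDeriv
  have c2 : r2 (sc z p q κ U) ω = _ := b2.lineDeriv
  unfold dq JJ
  rw [c1, c2]
  simp only [map_smul]
  rw [key hH.alg (dl_ne hH hP (sq_sub h)) (det_ne hH hP (sq_sub h)) a1 a2]

end Pt

theorem inn_th (hA : ALG_s) {w κ f ν t : ℂ} (β : ℂ → ℂ) (x : E8) (hd : dl w ≠ 0)
    (hx : x tft = x ftt) (h1 : 2 * κ * ν = β w) (h2 : 2 * ν * f + 2 * κ * t = dzb β w) :
    ⟪((κ * dl w) • P1 + (f * dl w ^ 2) • P2) (th (ν / dl w) t (pr 2 x)), x⟫_ℂ =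
      conj (Ii x β w) := by
  have hy : ∀ k, ((κ * dl w) • P1 + (f * dl w ^ 2) • P2) (th (ν / dl w) t (pr 2 x)) k =
      if k = tft ∨ k = ftt then β w * x tft else if k = ttf then
        β w * x ttf + dl w * x tft * dzb β w else 0 := by
    intro k
    simp only [_root_.add_apply, _root_.smul_apply, PiLp.add_apply, PiLp.smul_apply, P1_apply hA,
      P2_apply hA, hA.th_apply, pr_apply hA, smul_eq_mul, ← h1, ← h2]
    obtain ⟨i, j, l⟩ := k
    cases i <;> cases j <;> cases l <;> simp only [Prod.mk.injEq, Bool.false_eq_true, and_false, and_self, or_self, ↓ reduceIte, and_true, mul_zero, add_zero, Bool.true_eq_false, or_true, wt, Bool.toNat_true, Bool.toNat_false, Nat.reduceAdd, zero_add, ← hx, or_false] <;> field_simp <;> ring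
  rw [PiLp.inner_apply]
  simp only [hy, Fintype.sum_prod_type, Fintype.sum_bool, RCLike.inner_apply]
  simp only [Prod.mk.injEq, Bool.true_eq_false, and_true, and_false, or_self, ↓ reduceIte, map_zero, mul_zero, Bool.false_eq_true, and_self, map_add, map_mul, zero_add, or_false, add_zero, ← hx, or_true, Ii, ofReal_add, normSq_eq_conj_mul_self, ofReal_mul, ofReal_ofNat, RingHomCompTriple.comp_apply, RingHom.id_apply, map_ofNat]
  ring

theorem plip_snd : PLip fun ω : ℝ × ℝ => ω.2 := by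
  refine ⟨1, fun ω h ω' _ => ?_⟩
  have : 0 ≤ (1 - ω.2) * |ω.1 - ω'.1| := mul_nonneg (sub_nonneg.2 h.2.2) (abs_nonneg _)
  rw [Real.norm_eq_abs]
  linarith

theorem plip_prod {V V' : Type} [NormedAddCommGroup V] [NormedAddCommGroup V'] {f : ℝ × ℝ → V}
    {f' : ℝ × ℝ → V'} (h : PLip f) (h' : PLip f') : PLip fun ω => (f ω, f' ω) := by
  obtain ⟨C, h⟩ := h
  obtain ⟨C', h'⟩ := h'
  refine ⟨max C C', fun ω hω ω' hω' => ?_⟩
  have : 0 ≤ (1 - ω.2) * |ω.1 - ω'.1| + |ω.2 - ω'.2| :=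
    add_nonneg (mul_nonneg (sub_nonneg.2 hω.2.2) (abs_nonneg _)) (abs_nonneg _)
  rw [Prod.mk_sub_mk, Prod.norm_mk]
  exact max_le ((h ω hω ω' hω').trans (mul_le_mul_of_nonneg_right (le_max_left _ _) this))
    ((h' ω hω ω' hω').trans (mul_le_mul_of_nonneg_right (le_max_right _ _) this))

theorem plip_cont (hH : HA) {f : ℝ × ℝ → ℂ} (h : PLip f) : ContinuousOn f csq := by
  obtain ⟨f', C, h1, h2⟩ := hH.pl.ext f h
  exact h1.continuous.continuousOn.congr fun ω hω => (h2 ω hω).symm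

def ch (s : ℝ) : ℂ := (Real.smoothTransition (4 * s - 1) : ℝ)

theorem ch_one {s : ℝ} (h : 1 / 2 ≤ s) : ch s = 1 := by
  unfold ch
  rw [Real.smoothTransition.one_of_one_le (by linarith only [h]), ofReal_one]

theorem ch_zero {s : ℝ} (h : s ≤ 1 / 4) : ch s = 0 := by
  unfold ch
  rw [Real.smoothTransition.zero_of_nonpos (by linarith only [h]), ofReal_zero]

theorem ch_smooth : ContDiff ℝ 1 ch :=
  ofRealCLM.contDiff.comp (Real.smoothTransition.contDiff.comp (by fun_prop))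

def io (z p q : ℂ) (ω : ℝ × ℝ) : ℂ := ch ω.2 / (2 * nu z p q ω)
def ka (β : ℂ → ℂ) (z p q : ℂ) (ω : ℝ × ℝ) : ℂ := io z p q ω * β (DD z p q ω)
def ff (β : ℂ → ℂ) (z p q : ℂ) (ω : ℝ × ℝ) : ℂ :=
  io z p q ω * (dzb β (DD z p q ω) - 2 * ka β z p q ω * th2 z p q ω)
def TT (β : ℂ → ℂ) (z p q : ℂ) (ω : ℝ × ℝ) : E8 →L[ℂ] E8 :=
  (ka β z p q ω * dl (DD z p q ω)) • P1 + (ff β z p q ω * dl (DD z p q ω) ^ 2) • P2

theorem sc_smooth :
    ContDiff ℝ 1 fun x : (ℂ × ℂ) × Mat => (-(x.1.1 * SS x.1.2 x.2)) • N0 x.1.2 := by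
  have e : ∀ i j, ContDiff ℝ 1 fun x : (ℂ × ℂ) × Mat => x.2 i j := fun i j =>
    (contDiff_apply_apply ℝ ℂ i j).comp contDiff_snd
  have hw : ContDiff ℝ 1 fun x : (ℂ × ℂ) × Mat => x.1.2 := by fun_prop
  have hk : ContDiff ℝ 1 fun x : (ℂ × ℂ) × Mat => x.1.1 := by fun_prop
  have hS : ContDiff ℝ 1 fun x : (ℂ × ℂ) × Mat => SS x.1.2 x.2 :=
    ((e 1 1).sub (e 0 0)).add ((contDiff_const.mul hw).mul (e 1 0))
  have hN : ContDiff ℝ 1 fun x : (ℂ × ℂ) × Mat => N0 x.1.2 := by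
    refine contDiff_pi.2 fun i => contDiff_pi.2 fun j => ?_
    fin_cases i <;> fin_cases j
    · exact hw
    · exact (hw.mul hw).neg
    · exact contDiff_const
    · exact hw.neg
  exact (hk.mul hS).neg.smul hN

section Fld
variable (hH : HA) (hN : NU_s) {z p q : ℂ} (hP : PosT z p q) {β : ℂ → ℂ} (hβ : ContDiff ℝ 1 β)
include hH hN hP

theorem plip_io : PLip (io z p q) := by
  obtain ⟨h1, h2, -⟩ := hN hH z p q hP
  refine (hH.pl.comp (fun x : ℝ × ℂ => ch x.1 / (2 * x.2)) (fun ω => (ω.2, nu z p q ω))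
    (plip_prod plip_snd h1) fun ω hω => ?_ :)
  by_cases hs : ω.2 < 1 / 4
  · refine (contDiffAt_const (c := (0 : ℂ))).congr_of_eventuallyEq ?_
    have : ∀ᶠ x : ℝ × ℂ in 𝓝 (ω.2, nu z p q ω), x.1 < 1 / 4 :=
      (isOpen_lt continuous_fst continuous_const).mem_nhds hs
    filter_upwards [this] with x hx
    rw [ch_zero hx.le, zero_div]
  · simp only [div_eq_mul_inv]
    refine (ch_smooth.comp contDiff_fst).contDiffAt.mul (ContDiffAt.inv (by fun_prop) ?_)
    exact mul_ne_zero two_ne_zero (h2 ω hω (by linarith only [hs]))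

include hβ

theorem plip_ka : PLip (ka β z p q) :=
  hH.pl.bil (ContinuousLinearMap.mul ℝ ℂ) _ _ (plip_io hH hN hP)
    (hH.pl.comp β _ (hH.gep.plip z p q hP.1 hP.2.1 hP.2.2.1) fun _ _ => hβ.contDiffAt)

theorem plip_sc {U : ℝ × ℝ → Mat} (hU : PLip U) : PLip (sc z p q (ka β z p q) U) :=
  (hH.pl.comp (fun x : (ℂ × ℂ) × Mat => (-(x.1.1 * SS x.1.2 x.2)) • N0 x.1.2)
    (fun ω => ((ka β z p q ω, DD z p q ω), U ω))
    (plip_prod (plip_prod (plip_ka hH hN hP hβ) (hH.gep.plip z p q hP.1 hP.2.1 hP.2.2.1)) hU)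
    fun _ _ => sc_smooth.contDiffAt :)

theorem TT_cont : ContinuousOn (TT β z p q) csq := by
  have hD := plip_cont hH (hH.gep.plip z p q hP.1 hP.2.1 hP.2.2.1)
  have hk := plip_cont hH (plip_ka hH hN hP hβ)
  have hi := plip_cont hH (plip_io hH hN hP)
  have ht := (hH.comm.cont z p q hP).2
  have hl : ContinuousOn (fun ω => dl (DD z p q ω)) csq := hD.sub (continuous_conj.comp_continuousOn hD)
  have hf := hβ.continuous_fderiv one_ne_zero
  have hb : Continuous (dzb β) :=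
    (((hf.clm_apply (continuous_const (y := (1 : ℂ)))).add
      ((hf.clm_apply (continuous_const (y := I))).const_smul I)).const_smul (1 / 2 : ℂ) :)
  exact ((hk.mul hl).smul continuousOn_const).add
    (((hi.mul ((hb.comp_continuousOn hD).sub ((continuousOn_const.mul hk).mul ht))).mul
      (hl.pow 2)).smul continuousOn_const)

variable (h0 : ∀ ω ∈ csq, ω.2 ≤ 1 / 2 → β (DD z p q ω) = 0)
include h0

omit hβ in
theorem ka_nu {ω : ℝ × ℝ} (h : ω ∈ csq) : 2 * ka β z p q ω * nu z p q ω = β (DD z p q ω) := by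
  unfold ka io
  by_cases hs : ω.2 ≤ 1 / 2
  · rw [h0 ω h hs]; simp
  · have := (hN hH z p q hP).2.1 ω h (by linarith only [hs])
    rw [ch_one (by linarith only [hs])]
    field_simp

theorem ff_eq {ω : ℝ × ℝ} (h : ω ∈ sq) (hκ : DifferentiableAt ℝ (ka β z p q) ω) :
    ff β z p q ω = czb (e1 z p q ω) (e2 z p q ω) (r1 (ka β z p q) ω) (r2 (ka β z p q) ω) ∧
    2 * nu z p q ω * ff β z p q ω + 2 * ka β z p q ω * th2 z p q ω = dzb β (DD z p q ω) := by
  obtain ⟨-, h2, h3⟩ := hN hH z p q hP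
  obtain ⟨hν, ht⟩ := h3 ω h
  obtain ⟨d1, d2⟩ := D_der hH hP h
  have hB := (hβ.differentiable one_ne_zero (DD z p q ω)).hasFDerivAt
  have hz : ∀ᶠ x in 𝓝 ω, 2 * ka β z p q x * nu z p q x = β (DD z p q x) := by
    filter_upwards [csq_nhds h] with x hx using ka_nu hH hN hP h0 hx
  have dir : ∀ {v : ℝ × ℝ} {e k n : ℂ}, HasLineDerivAt ℝ (DD z p q) e ω v →
      HasLineDerivAt ℝ (ka β z p q) k ω v → HasLineDerivAt ℝ (nu z p q) n ω v →
      fderiv ℝ β (DD z p q ω) e = 2 * k * nu z p q ω + 2 * ka β z p q ω * n := by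
    intro v e k n hd hk hn
    have hB' : HasFDerivAt β (fderiv ℝ β (DD z p q ω)) (DD z p q (ω + (0 : ℝ) • v)) := by
      simpa using hB
    have a := hB'.comp_hasDerivAt (0 : ℝ) hd
    have b := (HasDerivAt.const_mul 2 hk).mul hn
    have c := a.unique (b.congr_of_eventuallyEq ((line_ev hz v).mono fun t ht => ht.symm))
    simpa only [zero_smul, add_zero] using c
  have hΔ := det_ne hH hP (sq_sub h)
  have e := czb_lin (fderiv ℝ β (DD z p q ω)) hΔ
  rw [dir d1 (has1 hκ) (has1 hν), dir d2 (has2 hκ) (has2 hν)] at e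
  have e' : 2 * nu z p q ω * czb (e1 z p q ω) (e2 z p q ω) (r1 (ka β z p q) ω) (r2 (ka β z p q) ω) +
      2 * ka β z p q ω * th2 z p q ω = dzb β (DD z p q ω) := by
    rw [ht]
    refine Eq.trans ?_ e
    simp only [czb, smul_eq_mul]
    ring
  have hn := h2 ω (sq_sub h) h.2.1
  have f : ff β z p q ω =
      czb (e1 z p q ω) (e2 z p q ω) (r1 (ka β z p q) ω) (r2 (ka β z p q) ω) := by
    unfold ff
    rw [← e', add_sub_cancel_right]
    by_cases hs : ω.2 < 1 / 2
    · have hk0 : ka β z p q =ᶠ[𝓝 ω] fun _ => 0 := by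
        filter_upwards [csq_nhds h, (isOpen_lt continuous_snd continuous_const).mem_nhds hs]
          with x hx hx'
        unfold ka
        rw [h0 x hx (le_of_lt hx'), mul_zero]
      have : ∀ v, lineDeriv ℝ (ka β z p q) ω v = 0 := fun v => by
        rw [hκ.lineDeriv_eq_fderiv, hk0.fderiv_eq]; simp
      simp [r1, r2, this, czb]
    · unfold io
      rw [ch_one (by linarith only [hs])]
      field_simp
  exact ⟨f, by rw [f]; exact e'⟩

end Fld

theorem sc_pure (z p q : ℂ) (κ : ℝ × ℝ → ℂ) (U : ℝ × ℝ → Mat) (ω : ℝ × ℝ) :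
    PureAt 2 (DD z p q ω) (sc z p q κ U ω) := by
  intro i j h
  cases i <;> cases j <;> simp only [Bool.toNat_false, add_zero, ne_eq, OfNat.zero_ne_ofNat, not_false_eq_true, cp, ev, sc, N0, Fin.isValue, Matrix.smul_apply, Matrix.of_apply, Matrix.cons_val', Matrix.cons_val_zero, Matrix.cons_val_fin_one, smul_eq_mul, neg_mul, pt, Bool.false_eq_true, ↓ reduceIte, Matrix.cons_val_one, mul_neg, neg_neg, mul_one, sub_neg_eq_add, div_eq_zero_iff, Bool.toNat_true, zero_add, OfNat.one_ne_ofNat, Nat.reduceAdd, not_true_eq_false] at h ⊢ <;> left <;> ring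

section Glob
variable (hH : HA) (hN : NU_s) {Dt : Type} [Fintype Dt] {nx rv : Dt → Dt} {g : Dt → G}
  {c : Dt → ℂ} {z : ℂ} (hS : Star nx rv g c z) {β : ℂ → ℂ} (hβ : ContDiff ℝ 1 β)

omit [Fintype Dt] in
theorem pS (hS : Star nx rv g c z) (d : Dt) : PosT z (c (nx (rv d))) (c d) :=
  ⟨hS.im, hS.cim _, hS.cim d, hS.spos d⟩

theorem pr_ae (hH : HA) (p : ℕ) (x : HP Dt) (d : Dt) :
    prP p x d =ᵐ[volume.restrict sq] fun ω => pr p (x d ω) :=
  hH.mul.mp_ae (fun _ _ => pr p) (fun _ => continuousOn_const) x d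

theorem dP_ae (hH : HA) (hS : Star nx rv g c z) {U : Dt → ℝ × ℝ → Mat} (hU : ∀ d, PLip (U d))
    (d : Dt) : dP nx rv c z U d =ᵐ[volume.restrict sq] dq z (c (nx (rv d))) (c d) (U d) :=
  hH.mul.cls_ae _ _ (hH.pm.mem _ _ _ _ (pS hS d) (hU d))

include hH hN hS hβ

theorem sc_adm {U : Dt → ℝ × ℝ → Mat} (hU : PAdm nx rv g 0 U) : PAdm nx rv g 0 fun d =>
    sc z (c (nx (rv d))) (c d) (ka β z (c (nx (rv d))) (c d)) (U d) := by
  refine ⟨fun d => plip_sc hH hN (pS hS d) hβ (hU.lip d), fun d s hs => ?_, fun d l hl => ?_⟩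
  · have a := (hH.geo.zero _ _ (hS.cim (nx (rv d))) (hS.cim d)).1
    have b := (hH.geo.zero _ _ (hS.cim (nx (rv (nx (rv d))))) (hS.cim (nx (rv d)))).2
    simp only [sc, ka, io, nu, DD, a, b, hU.rad d s hs]
  · have : ch 0 = 0 := ch_zero (by norm_num)
    simp [sc, ka, io, this, Ad]

variable (h0 : ∀ d, ∀ ω ∈ csq, ω.2 ≤ 1 / 2 → β (Dd nx rv c z d ω) = 0)
include h0

theorem map_one_type {b : HP Dt} (hb : b ∈ BP nx rv g c z 1) : ∃ b' ∈ BP nx rv g c z 2,
    mP (fun d => TT β z (c (nx (rv d))) (c d)) (prP 1 b) = prP 2 b' := by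
  obtain ⟨U, hU, hp, rfl⟩ := hb
  have hU' := sc_adm hH hN hS hβ hU
  refine ⟨_, ⟨_, hU', fun d ω _ => sc_pure _ _ _ _ _ _, rfl⟩, ?_⟩
  refine PiLp.ext fun d => Lp.ext ?_
  obtain ⟨C, h1⟩ := hH.pl.dif _ (plip_ka hH hN (pS hS d) hβ)
  obtain ⟨C', h2⟩ := hH.pl.dif _ (hU.lip d)
  filter_upwards [hH.mul.mp_ae (fun d => TT β z (c (nx (rv d))) (c d))
      (fun d => TT_cont hH hN (pS hS d) hβ) (prP 1 (dP nx rv c z U)) d,
    pr_ae hH 1 (dP nx rv c z U) d, dP_ae hH hS hU.lip d, pr_ae hH 2 (dP nx rv c z _) d,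
    dP_ae hH hS hU'.lip d, h1, h2, ae_restrict_mem sq_open.measurableSet]
    with ω a1 a2 a3 a4 a5 a6 a7 hω
  rw [a1, a2, a3, a4, a5, ← dq_sc hH (pS hS d) hω a6.1 a7.1 (hp d),
    ← (ff_eq hH hN (pS hS d) hβ (h0 d) hω a6.1).1]
  rfl

theorem inn_eq (a : HP Dt) (ha : ∀ d, ∀ᵐ ω ∂volume.restrict sq, a d ω tft = a d ω ftt) :
    ⟪mP (fun d => TT β z (c (nx (rv d))) (c d)) (thP nx rv c z (prP 2 a)), a⟫_ℂ =
      conj (∑ d, ∫ ω in sq, Ii (a d ω) β (Dd nx rv c z d ω)) := by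
  rw [hH.mul.inn, map_sum]
  refine Finset.sum_congr rfl fun d _ => ?_
  rw [← integral_conj]
  refine integral_congr_ae ?_
  obtain ⟨C, h1⟩ := hH.pl.dif _ (plip_ka hH hN (pS hS d) hβ)
  have hth : ∀ d, ContinuousOn (fun ω => th (th1 z (c (nx (rv d))) (c d) ω)
      (th2 z (c (nx (rv d))) (c d) ω)) csq := fun d =>
    ((hH.comm.cont _ _ _ (pS hS d)).1.smul continuousOn_const).add
      ((hH.comm.cont _ _ _ (pS hS d)).2.smul continuousOn_const)
  filter_upwards [hH.mul.mp_ae (fun d => TT β z (c (nx (rv d))) (c d))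
      (fun d => TT_cont hH hN (pS hS d) hβ) (thP nx rv c z (prP 2 a)) d,
    hH.mul.mp_ae _ hth (prP 2 a) d, pr_ae hH 2 a d, ha d, h1,
    ae_restrict_mem sq_open.measurableSet] with ω a1 a2 a3 a4 a5 hω
  have a2' : thP nx rv c z (prP 2 a) d ω = _ := a2
  rw [a1, a2', a3]
  exact inn_th hH.alg β (a d ω) (dl_ne hH (pS hS d) (sq_sub hω)) a4
    (ka_nu hH hN (pS hS d) (h0 d) (sq_sub hω)) (ff_eq hH hN (pS hS d) hβ (h0 d) hω a5.1).2

end Glob

end VXx

theorem vx : VX_s := by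
  intro hH hN Dt _ nx rv g c z hS a ha h2 h1 β hβ h0
  have e := VXx.inn_eq hH hN hS hβ h0 a ha
  set M := mP fun d => VXx.TT β z (c (nx (rv d))) (c d)
  set θ := thP nx rv c z (prP 2 a)
  have hle : ∀ δ > 0, ‖⟪M θ, a⟫_ℂ‖ ≤ 0 + δ := by
    intro δ hδ
    have hK : 0 < ‖M‖ * ‖a‖ + 1 := by positivity
    obtain ⟨b, hb, hd⟩ := h1 (δ / (‖M‖ * ‖a‖ + 1)) (div_pos hδ hK)
    obtain ⟨b', hb', eb⟩ := VXx.map_one_type hH hN hS hβ h0 hb
    have : ⟪M θ, a⟫_ℂ = ⟪M (θ - prP 1 b), a⟫_ℂ := by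
      rw [map_sub, inner_sub_left, eb, h2 b' hb', sub_zero]
    rw [this, zero_add]
    calc _ ≤ ‖M‖ * ‖θ - prP 1 b‖ * ‖a‖ :=
          (norm_inner_le_norm _ _).trans (mul_le_mul_of_nonneg_right (M.le_opNorm _) (norm_nonneg _))
      _ ≤ ‖M‖ * (δ / (‖M‖ * ‖a‖ + 1)) * ‖a‖ := by gcongr
      _ = δ * (‖M‖ * ‖a‖ / (‖M‖ * ‖a‖ + 1)) := by ring
      _ ≤ δ * 1 := by
          gcongr
          exact (div_le_one hK).2 (by linarith only [])
      _ = δ := mul_one δ
  have hz := norm_le_zero_iff.1 (le_of_forall_pos_le_add hle)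
  rw [e] at hz
  exact (map_eq_zero _).1 hz

end

end Pool.Agent.MP_596265_gt.Hd.R

end

section

/-! Block R, row HOL: the part of type three is holomorphic. -/

namespace Pool.Agent.MP_596265_gt.Hd.R

open MeasureTheory Set Complex Metric Filter Topology
open scoped ComplexConjugate InnerProductSpace Matrix.Norms.Elementwise

namespace HOLx

theorem test_mul {O : Set ℂ} {ψ h : ℂ → ℂ} (hψ : U.RD.Test O ψ)
    (hh : ∀ w ∈ O, ContDiffAt ℝ 1 h w) : U.RD.Test O fun w => ψ w * h w := by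
  obtain ⟨⟨K, hK⟩, hc, hs⟩ := hψ
  refine ⟨?_, hc.mul_right, (tsupport_mul_subset_left).trans hs⟩
  obtain ⟨L, hL⟩ : ∃ L, LipschitzOnWith L h (tsupport ψ) :=
    LocallyLipschitzOn.exists_lipschitzOnWith_of_compact hc fun w hw => by
      obtain ⟨K, t, ht, hK⟩ := (hh w (hs hw)).exists_lipschitzOnWith
      exact ⟨K, t, mem_nhdsWithin_of_mem_nhds ht, hK⟩
  obtain ⟨N, N0, hN⟩ :=
    (hc.isCompact.image_of_continuousOn hL.continuousOn).isBounded.exists_pos_norm_le
  obtain ⟨M, M0, hM⟩ := (hc.isCompact.image hK.continuous).isBounded.exists_pos_norm_le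
  have key : ∀ x ∈ tsupport ψ, ∀ y, dist (ψ x * h x) (ψ y * h y) ≤ (K * N + M * L) * dist x y :=
    fun x hx y => by
      have a := mul_le_mul (hK.dist_le_mul x y) (hN _ ⟨x, hx, rfl⟩) (norm_nonneg _) (by positivity)
      have b : ‖ψ y‖ * dist (h x) (h y) ≤ M * (L * dist x y) := by
        by_cases hy : y ∈ tsupport ψ
        · exact mul_le_mul (hM _ ⟨y, hy, rfl⟩) (hL.dist_le_mul x hx y hy) dist_nonneg M0.le
        · rw [image_eq_zero_of_notMem_tsupport hy, norm_zero, zero_mul]; positivity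
      have c := norm_add_le ((ψ x - ψ y) * h x) (ψ y * (h x - h y))
      rw [norm_mul, norm_mul, ← dist_eq_norm, ← dist_eq_norm, show (ψ x - ψ y) * h x +
        ψ y * (h x - h y) = ψ x * h x - ψ y * h y by ring, ← dist_eq_norm] at c
      linarith
  refine ⟨_, LipschitzWith.of_dist_le' (K := K * N + M * L) fun x y => ?_⟩
  by_cases hx : x ∈ tsupport ψ
  · exact key x hx y
  by_cases hy : y ∈ tsupport ψ
  · rw [dist_comm, dist_comm x]; exact key y hy x
  rw [image_eq_zero_of_notMem_tsupport hx, image_eq_zero_of_notMem_tsupport hy, zero_mul, zero_mul,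
    dist_self]
  positivity

theorem test_conj {O : Set ℂ} {ψ : ℂ → ℂ} (hψ : U.RD.Test O ψ) :
    U.RD.Test O fun w => conj (ψ w) := by
  obtain ⟨⟨K, hK⟩, hc, hs⟩ := hψ
  exact ⟨⟨_, isometry_conj.lipschitz.comp hK⟩, hc.comp_left (map_zero _),
    (closure_mono (Function.support_comp_subset (g := conj) (map_zero _) ψ)).trans hs⟩

theorem dl_ne {w : ℂ} (h : 0 < w.im) : dl w ≠ 0 := fun e => by
  have := congrArg im e
  simp only [dl, sub_im, conj_im, sub_neg_eq_add, zero_im, add_self_eq_zero] at this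
  linarith

theorem dl_cd : ContDiff ℝ 1 dl := contDiff_id.sub conjCLE.contDiff

theorem dz_rho {ψ : ℂ → ℂ} {w : ℂ} (h : 0 < w.im) (hψ : DifferentiableAt ℝ ψ w) :
    DifferentiableAt ℝ (fun w => conj (ψ w) * (dl w)⁻¹) w ∧
    conj (dz (fun w => conj (ψ w) * (dl w)⁻¹) w + conj (ψ w) * (dl w)⁻¹ / dl w) =
      -(U.RD.db ψ w / dl w) := by
  have n := dl_ne h
  have h1 : HasFDerivAt (fun w => conj (ψ w)) _ w :=
    conjCLE.toContinuousLinearMap.hasFDerivAt.comp w hψ.hasFDerivAt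
  have h2 : HasFDerivAt dl _ w := (hasFDerivAt_id w).sub conjCLE.toContinuousLinearMap.hasFDerivAt
  have h3 : HasFDerivAt (fun w => (dl w)⁻¹) _ w :=
    ((hasFDerivAt_inv n).restrictScalars ℝ).comp w h2
  have h4 : HasFDerivAt (fun w => conj (ψ w) * (dl w)⁻¹) _ w := h1.mul h3
  refine ⟨h4.differentiableAt, ?_⟩
  have c : conj (dl w) = -dl w := by simp [dl]
  rw [dz, h4.fderiv, U.RD.db]
  simp [c, map_ofNat]
  field_simp
  linear_combination (2 * ψ w) * I_sq

theorem inn3 (H : ALG_s) (y x : E8) : ⟪pr 3 y, x⟫_ℂ = x ttt * conj (y ttt) := by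
  simp only [pr, wt, PiLp.inner_apply, H.dg_apply, ite_mul, one_mul, zero_mul, RCLike.inner_apply, Fintype.sum_prod_type, Fintype.univ_bool, Finset.mem_singleton, Bool.true_eq_false, not_false_eq_true, Finset.sum_insert, Bool.toNat_true, Nat.reduceEqDiff, Finset.sum_singleton, Bool.toNat_false, add_zero, Bool.toNat_eq_one, ↓ reduceIte, OfNat.one_ne_ofNat, map_zero, mul_zero, Bool.false_eq_true, OfNat.zero_ne_ofNat]

end HOLx

open HOLx in
theorem hol : HOL_s := by
  intro H hC hU hT hW Dt _ nx rv g z ok x hR hH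
  have hC := hC H
  have hU := hU H ok
  have hT := hT H ‹_› ok
  have ex : ∀ d, ∃ G : ℂ → ℂ, DifferentiableOn ℂ G (UU nx rv g z d) ∧
      ∀ᵐ w, w ∈ UU nx rv g z d → gl nx rv g z x d w ttt = dl w * G w := fun d => by
    obtain ⟨u1, -, -, -, -, -, -, -, -, u10, -⟩ := hU d
    have cd : ∀ w ∈ UU nx rv g z d, ContDiffAt ℝ 1 (fun w => (dl w)⁻¹) w := fun w hw =>
      dl_cd.contDiffAt.inv (dl_ne hw.1)
    obtain ⟨G, h1, h2⟩ := hW _ (fun w => gl nx rv g z x d w ttt * (dl w)⁻¹) u1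
      ((locallyIntegrableOn_of_locallyIntegrable_restrict
        (((u10 x).eval_piLp ttt).locallyIntegrable one_le_two)).mul_continuousOn
        (fun w hw => (cd w hw).continuousAt.continuousWithinAt) u1.isLocallyClosed) fun ψ hψ => by
      obtain ⟨b, hb, e⟩ := hT d 2 _ (test_mul (test_conj hψ) cd)
      have e0 := (e x hR 3).symm.trans (hH 2 (by norm_num) b hb).1
      rw [mul_eq_zero, or_iff_right three_ne_zero] at e0
      rw [← neg_eq_zero, ← integral_neg, ← e0]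
      obtain ⟨K, hK⟩ := hψ.1
      refine integral_congr_ae ?_
      filter_upwards [ae_restrict_mem u1.measurableSet, ae_restrict_of_ae hK.ae_differentiableAt]
        with w hw hd
      obtain ⟨a, b⟩ := dz_rho hw.1 hd
      have := (hC _ w hw.1 a).1 ttt
      rw [if_pos rfl] at this
      rw [inn3 H.alg, this, b]
      ring
    refine ⟨G, h1, ?_⟩
    filter_upwards [(ae_restrict_iff' u1.measurableSet).1 h2] with w h hw
    rw [← h hw, mul_comm, inv_mul_cancel_right₀ (dl_ne hw.1)]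
  choose G G1 G2 using ex
  have pos : ∀ d, PosT z (mob (g d) z) (mob (g d * g (nx d)) z) := fun d =>
    ⟨ok.im, H.alg.mob_pos _ _ ok.im, H.alg.mob_pos _ _ ok.im, ok.pos d⟩
  have sub : ∀ d, U.RG.oface nx g z d ⊆ face nx g z d := fun d w hw => by
    rw [← U.RG.cface_face]
    exact ⟨hw.1, hw.2.1.le, hw.2.2.1.le, hw.2.2.2.le⟩
  have mf : ∀ d, MeasurableSet (face nx g z d) := fun d => (H.tri.cpt _ _ _ (pos d)).measurableSet
  have A : ∀ d, ∀ᵐ w ∂volume.restrict (face nx g z d), x d w ttt = dl w * G d w := fun d => by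
    obtain ⟨-, u2, -, -, u5, -, -, -, u9, -⟩ := hU d
    filter_upwards [u9, ae_restrict_of_ae (G2 d)] with w h1 h2
    rw [← h2 (u2 h1), gl, if_pos (u5 w (sub d h1))]
  have B : ∀ d, ∀ᵐ w ∂volume.restrict (face nx g z (nx (rv d))),
      x (nx (rv d)) w ttt = dl w * G d w := fun d => by
    obtain ⟨-, -, u3, -, -, u6, -⟩ := hU d
    have n := H.tri.null z (mob (g d) z) (fun e => by
      have := ok.pos d
      rw [← e] at this
      simp [hd] at this) ok.im (pos d).2.1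
    filter_upwards [(hU (nx (rv d))).2.2.2.2.2.2.2.2.1, ae_restrict_of_ae (G2 d),
      ae_restrict_of_ae (measure_eq_zero_iff_ae_notMem.1 n)] with w h1 h2 h3
    rw [← h2 (u3 h1), gl,
      if_neg fun h : 0 ≤ sd g z d w => h3 (le_antisymm (u6 w (sub _ h1)) h)]
  have hol : ∀ d, DifferentiableOn ℂ (G d) (U.RG.oface nx g z d) := fun d =>
    (G1 d).mono (hU d).2.1
  have eqo : ∀ d {f f' : ℂ → ℂ}, ContinuousOn f (U.RG.oface nx g z d) →
      ContinuousOn f' (U.RG.oface nx g z d) →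
      (∀ᵐ w ∂volume.restrict (face nx g z d), 0 < w.im → f w = f' w) →
      EqOn f f' (U.RG.oface nx g z d) := fun d f f' h1 h2 h3 =>
    Measure.eqOn_open_of_ae_eq (μ := volume) (by
      filter_upwards [ae_restrict_of_ae_restrict_of_subset (sub d) h3,
        ae_restrict_mem (U.RG.OF_open _ _ _).measurableSet] with w a b using a b.1)
      (U.RG.OF_open _ _ _) h1 h2
  refine ⟨G, ⟨hol, fun d => ?_, fun d w hw h => ?_⟩, A⟩
  · refine eqo (nx d) (f := fun w => G d (mob (g d) w))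
      (f' := fun w => den (g d) w ^ 4 * G (nx d) w) ((hol d).continuousOn.comp
        (fun w hw => (H.alg.mob_der _ w (ne_of_gt hw.1)).continuousAt.continuousWithinAt)
        fun w hw => ((U.RG.ds_of_ok ok).rot_oface d hw.1).2 hw)
      (ContinuousOn.mul (by unfold den; fun_prop) (hol _).continuousOn) ?_
    have e : mob (g d) (mob (g (nx d) * g (nx (nx d))) z) = z := by
      rw [← H.alg.mob_mul _ _ _ ok.im.ne', ← mul_assoc]
      rcases ok.gf d with h | h <;> rw [h]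
      · exact H.alg.mob_one z
      · rw [H.alg.mob_neg, H.alg.mob_one]
    have := H.tra.ae_mob (g d) _ _ _ (fun w => x d w ttt = dl w * G d w) (pos (nx d)) (by
      rw [e, ← H.alg.mob_mul _ _ _ ok.im.ne', ← H.tri.tri_rot]; exact A d)
    filter_upwards [this, A (nx d), hR d] with w h1 h2 h3 hw
    have n := H.alg.den_ne (g d) w hw.ne'
    have n' : conj (den (g d) w) ≠ 0 := (map_ne_zero _).2 n
    have e1 : dl (mob (g d) w) = dl w / (den (g d) w * conj (den (g d) w)) := by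
      simp only [dl, sub_conj, H.alg.mob_im, mul_conj]
      push_cast
      ring
    rw [h3, h2, e1] at h1
    simp only [ph, pt, Bool.not_true, if_true, H.alg.den_conj, Bool.false_eq_true, if_false] at h1
    have n'' := dl_ne hw
    field_simp at h1
    exact h1.symm
  · obtain ⟨u1, -, u3, -, -, -, -, u8, -⟩ := hU d
    obtain ⟨e, he, hb⟩ := Metric.isOpen_iff.1 u1 w (u8 w hw h)
    refine ⟨e, he, G d, (G1 d).mono hb, fun _ _ => rfl, fun v hv => ?_⟩
    refine eqo _ ((G1 d).mono u3).continuousOn (hol _).continuousOn ?_ hv.2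
    filter_upwards [A (nx (rv d)), B d] with w h1 h2 hw
    exact mul_left_cancel₀ (dl_ne hw) (h2.symm.trans h1)

end Pool.Agent.MP_596265_gt.Hd.R

end

section

/-! Block R: the test functional. -/

namespace Pool.Agent.MP_596265_gt.Hd.R

open MeasureTheory Set Complex Metric Filter Topology
open scoped ComplexConjugate InnerProductSpace Matrix.Norms.Elementwise NNReal

noncomputable section

namespace LF

lemma dl_ne {w : ℂ} (h : 0 < w.im) : dl w ≠ 0 := fun e => by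
  have := congrArg Complex.im e
  simp only [dl, sub_im, conj_im, sub_neg_eq_add, zero_im, add_self_eq_zero] at this
  linarith

lemma cd_conj : ContDiff ℝ 1 (fun w : ℂ => conj w) := conjCLE.contDiff

lemma cd_dl : ContDiff ℝ 1 dl := contDiff_id.sub cd_conj

lemma cd_cp {x : ℂ × Mat} (h : 0 < x.1.im) :
    ContDiffAt ℝ 1 (fun x : ℂ × Mat => cp x.1 x.2 true true) x := by
  have e (i j : Fin 2) : ContDiff ℝ 1 (fun x : ℂ × Mat => x.2 i j) :=
    (contDiff_apply_apply ℝ ℂ i j).comp contDiff_snd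
  have c : ContDiff ℝ 1 (fun x : ℂ × Mat => conj x.1) := cd_conj.comp contDiff_fst
  have n : ContDiff ℝ 1 (fun x : ℂ × Mat => ev x.2 (pt x.1 true) (pt x.1 true)) :=
    ((((e 0 0).mul c).add (e 0 1)).sub ((c.mul (e 1 0)).mul c)).sub (c.mul (e 1 1))
  simp only [cp, div_eq_mul_inv]
  exact n.contDiffAt.mul ((cd_dl.comp contDiff_fst).contDiffAt.inv (dl_ne h))

lemma dz_eq (f : ℂ → ℂ) (w : ℂ) : U.RD.dz f w = dz f w := by
  simp only [U.RD.dz, dz, smul_eq_mul]
  ring

lemma dz_congr {V : Type} [NormedAddCommGroup V] [NormedSpace ℂ V] {f f' : ℂ → V} {w : ℂ}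
    (e : f =ᶠ[𝓝 w] f') : dz f w = dz f' w ∧ dzb f w = dzb f' w := by
  simp only [dz, dzb, e.fderiv_eq, and_self]

lemma dz_cont {χ : ℂ → ℂ} (h : ContDiff ℝ 2 χ) : Continuous (dz χ) := by
  have := h.continuous_fderiv (by norm_num)
  unfold dz
  fun_prop

lemma dz_prod {χ ρ : ℂ → ℂ} {w : ℂ} (hw : 0 < w.im) (h1 : DifferentiableAt ℝ χ w)
    (h2 : DifferentiableAt ℝ ρ w) : dz (fun w => χ w * ρ w * (dl w)⁻¹) w =
      χ w / dl w * (dz ρ w + ρ w / dl w) + (dz χ w - 2 * χ w / dl w) * (ρ w / dl w) := by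
  have n := dl_ne hw
  have a : HasFDerivAt dl (ContinuousLinearMap.id ℝ ℂ - (conjCLE : ℂ →L[ℝ] ℂ)) w :=
    (hasFDerivAt_id w).sub (conjCLE : ℂ →L[ℝ] ℂ).hasFDerivAt
  have b := (hasDerivAt_inv n).comp_hasFDerivAt w a
  have c := ((h1.hasFDerivAt.mul h2.hasFDerivAt).mul b).fderiv
  unfold dz
  change (1 / 2 : ℂ) • (fderiv ℝ (χ * ρ * ((fun y => y⁻¹) ∘ dl)) w 1 -
    I • fderiv ℝ (χ * ρ * ((fun y => y⁻¹) ∘ dl)) w I) = _
  rw [c]
  simp only [one_div, Pi.mul_apply, neg_smul, smul_neg, Function.comp_apply, smul_add, add_apply, neg_apply, smul_apply, sub_apply, ContinuousLinearMap.id_apply, ContinuousLinearEquiv.coe_coe, ContinuousAlgEquiv.coeCLE_apply, conjCAE_apply, map_one, sub_self, smul_eq_mul, mul_zero, neg_zero, zero_add, conj_I, sub_neg_eq_add]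
  field_simp
  linear_combination (2 * χ w * ρ w) * I_mul_I

lemma lip {K : Set ℂ} (hK : IsCompact K) {Y : ℂ → Mat} (hY : Lip Y K) {Φ : ℂ × Mat → ℂ}
    (hΦ : ∀ w ∈ K, ContDiffAt ℝ 1 Φ (w, Y w)) :
    ∃ C, LipschitzOnWith C (fun w => Φ (w, Y w)) K := by
  obtain ⟨C, hC⟩ := hY
  have hp : LipschitzOnWith (max 1 C) (fun w => (w, Y w)) K :=
    LipschitzWith.id.lipschitzOnWith.prodMk hC
  refine LocallyLipschitzOn.exists_lipschitzOnWith_of_compact hK fun w hw => ?_
  obtain ⟨L, t, ht, hL⟩ := (hΦ w hw).exists_lipschitzOnWith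
  exact ⟨_, K ∩ (fun w => (w, Y w)) ⁻¹' t,
    inter_mem self_mem_nhdsWithin (hp.continuousOn w hw ht),
    hL.comp (hp.mono inter_subset_left) fun _ h => h.2⟩

/-- The vector that represents the density. -/
def rv8 (χ : ℂ → ℂ) (w : ℂ) : E8 := WithLp.toLp 2 fun k : Ix =>
  if k = ttt then conj (χ w / dl w) else if k = tft then conj (dz χ w - 2 * χ w / dl w)
  else if k = fft then conj (-(dz χ w - χ w / dl w)) else 0

lemma vec_inner (χ : ℂ → ℂ) (w : ℂ) (x : E8) : ⟪rv8 χ w, x⟫_ℂ = Lf χ x w := by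
  simp only [PiLp.inner_apply, rv8, Lf, Fintype.sum_prod_type, Fintype.sum_bool]
  simp only [↓ reduceIte, map_div₀, RCLike.inner_apply, RingHomCompTriple.comp_apply, RingHom.id_apply, Prod.mk.injEq, Bool.false_eq_true, and_false, Bool.true_eq_false, and_self, map_zero, mul_zero, add_zero, and_true, map_sub, map_mul, neg_sub, zero_add]
  ring

lemma vec_cont {χ : ℂ → ℂ} (h : ContDiff ℝ 2 χ) {w : ℂ} (hw : 0 < w.im) :
    ContinuousAt (rv8 χ) w := by
  have a := (dz_cont h).continuousAt (x := w)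
  have b := h.continuous.continuousAt (x := w)
  have c := cd_dl.continuous.continuousAt (x := w)
  have n := dl_ne hw
  refine (PiLp.continuous_toLp 2 _).continuousAt.comp (continuousAt_pi.2 fun k => ?_)
  split_ifs
  · exact continuous_conj.continuousAt.comp (b.div c n)
  · exact continuous_conj.continuousAt.comp (a.sub ((b.const_mul 2).div c n))
  · exact continuous_conj.continuousAt.comp (a.sub (b.div c n)).neg
  · exact continuousAt_const

lemma zero (H : HA) (hC : CMP_s) {t p q : ℂ} (hT : PosT t p q) {χ : ℂ → ℂ} (h : ContDiff ℝ 2 χ)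
    (hc : HasCompactSupport χ) (hs : tsupport χ ⊆ U.RG.OF t p q) {Y : ℂ → Mat}
    (hY : Lip Y (tri t p q)) (hp : ∀ w ∈ tri t p q, PureAt 2 w (Y w)) :
    ∫ w in tri t p q, Lf χ (dF Y w) w = 0 := by
  have hK := H.tri.cpt t p q hT
  have sub : U.RG.OF t p q ⊆ tri t p q := U.RG.CF_tri ▸ U.RG.OF_sub_CF t p q
  obtain ⟨ρ, hρ⟩ : ∃ ρ : ℂ → ℂ, ρ = fun w => cp w (Y w) true true := ⟨_, rfl⟩
  obtain ⟨f, hf⟩ : ∃ f : ℂ → ℂ, f = fun w => χ w * ρ w * (dl w)⁻¹ := ⟨_, rfl⟩
  have f0 : ∀ w ∉ tsupport χ, f w = 0 := fun w hw => by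
    simp [hf, image_eq_zero_of_notMem_tsupport hw]
  have fs : tsupport f ⊆ tsupport χ :=
    closure_minimal (fun w hw => by_contra fun c => hw (f0 w c)) (isClosed_tsupport χ)
  obtain ⟨C, hL⟩ : ∃ C, LipschitzOnWith C f (tri t p q) := by
    rw [hf, hρ]
    refine lip hK hY (Φ := fun x => χ x.1 * cp x.1 x.2 true true * (dl x.1)⁻¹) fun w hw => ?_
    exact ((((h.of_le (by norm_num)).comp contDiff_fst).contDiffAt).mul (cd_cp hw.1)).mul
      ((cd_dl.comp contDiff_fst).contDiffAt.inv (dl_ne hw.1))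
  have hG : LipschitzWith C f := by
    rw [← lipschitzOnWith_univ]
    refine U.Lip.lip_glue (A := fun b : Bool => if b then tri t p q else (U.RG.OF t p q)ᶜ)
      convex_univ (fun b => ?_) (fun x _ => ?_) fun b => ?_
    · cases b
      · simpa using U.RG.OF_open t p q
      · exact hK.isClosed
    · by_cases hx : x ∈ U.RG.OF t p q
      · exact mem_iUnion.2 ⟨true, by simpa using sub hx⟩
      · exact mem_iUnion.2 ⟨false, by simpa using hx⟩
    · cases b
      · refine LipschitzOnWith.of_dist_le_mul fun x hx y hy => ?_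
        rw [f0 x fun a => (by simpa using hx : x ∉ U.RG.OF t p q) (hs a),
          f0 y fun a => (by simpa using hy : y ∉ U.RG.OF t p q) (hs a), dist_self]
        positivity
      · simpa using hL
  have z := (U.RD.MD.intZ hG (hc.of_isClosed_subset (isClosed_tsupport f) fs)).2
  rw [← setIntegral_eq_integral_of_forall_compl_eq_zero (s := tri t p q) fun w hw => by
    simp [U.RD.dz, U.RD.MD.fd_zero fun a => hw (sub (hs (fs a)))]] at z
  refine Eq.trans ?_ z
  obtain ⟨B, hB⟩ := H.tra.dif t p q Y hT hY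
  refine integral_congr_ae ?_
  filter_upwards [hB, H.tri.nhd t p q hT, ae_restrict_mem hK.measurableSet] with w a b c
  have dρ : DifferentiableAt ℝ ρ w := by
    rw [hρ]
    exact ((cd_cp (x := (w, Y w)) c.1).differentiableAt one_ne_zero).comp w
      (differentiableAt_id.prodMk a.1)
  have e : Y =ᶠ[𝓝 w] sec 2 ρ := by
    filter_upwards [b] with v hv
    rw [← H.alg.mk_cp v (Y v) hv.1.ne', sec]
    congr 1
    funext i j
    split_ifs with k
    · cases i <;> cases j <;> simp_all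
    · exact hp v hv i j k
  have e' : dF Y w = dF (sec 2 ρ) w := by
    rw [dF, dF, (dz_congr e).1, (dz_congr e).2]
  have k := (hC H ρ w c.1 dρ).1
  rw [dz_eq, hf, dz_prod c.1 (h.differentiable (by norm_num) w) dρ, e', Lf, k, k, k]
  simp only [↓ reduceIte, Prod.mk.injEq, Bool.false_eq_true, and_true, and_false, Bool.true_eq_false, and_self, or_false, or_self, mul_zero, sub_zero]

lemma ss : sq ⊆ csq := prod_mono Ioo_subset_Icc_self Ioo_subset_Icc_self

lemma ms : MeasurableSet sq := measurableSet_Ioo.prod measurableSet_Ioo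

lemma rep (H : HA) {t p q : ℂ} (hT : PosT t p q) {χ : ℂ → ℂ} (h : ContDiff ℝ 2 χ) :
    ∃ y : L8, ∀ x : L8, ⟪y, x⟫_ℂ = ∫ ω in sq, (rj t p q ω : ℂ) * Lf χ (x ω) (DD t p q ω) := by
  have mem : ∀ ω ∈ csq, DD t p q ω ∈ tri t p q :=
    fun ω hω => H.pol.img _ _ _ hT ▸ mem_image_of_mem _ hω
  have cpt : IsCompact csq := isCompact_Icc.prod isCompact_Icc
  obtain ⟨y, hy⟩ : ∃ y : ℝ × ℝ → E8, y = fun ω => (rj t p q ω : ℂ) • rv8 χ (DD t p q ω) :=
    ⟨_, rfl⟩
  have yc : ContinuousOn y csq := fun ω hω => by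
    obtain ⟨s0, s1, s2⟩ := H.gep.sm _ _ _ ω hT.1 hT.2.1 hT.2.2.1 hω
    have i : ContinuousAt (fun ω : ℝ × ℝ => ((t, p, q), ω)) ω := by fun_prop
    have c0 : ContinuousAt (DD t p q) ω :=
      s0.continuousAt.comp (f := fun ω : ℝ × ℝ => ((t, p, q), ω)) i
    have c1 : ContinuousAt (e1 t p q) ω :=
      s1.continuousAt.comp (f := fun ω : ℝ × ℝ => ((t, p, q), ω)) i
    have c2 : ContinuousAt (e2 t p q) ω :=
      s2.continuousAt.comp (f := fun ω : ℝ × ℝ => ((t, p, q), ω)) i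
    have c3 : ContinuousAt (fun ω => jc (e1 t p q ω) (e2 t p q ω)) ω :=
      continuous_im.continuousAt.comp ((continuous_conj.continuousAt.comp c1).mul c2)
    have c4 : ContinuousAt (rj t p q) ω := ((continuousAt_const.sub continuousAt_snd).mul c3).sqrt
    have c5 : ContinuousAt (fun ω => rv8 χ (DD t p q ω)) ω := (vec_cont h (mem ω hω).1).comp c0
    rw [hy]
    exact ((continuous_ofReal.continuousAt.comp c4).smul c5).continuousWithinAt
  have ym : MemLp y 2 (volume.restrict sq) := by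
    obtain ⟨B, hB⟩ := cpt.exists_bound_of_continuousOn yc
    have : IsFiniteMeasure (volume.restrict sq) :=
      isFiniteMeasure_restrict.2 ((measure_mono ss).trans_lt cpt.measure_lt_top).ne
    exact MemLp.of_bound ((yc.mono ss).aestronglyMeasurable ms) B
      ((ae_restrict_mem ms).mono fun ω a => hB ω (ss a))
  refine ⟨ym.toLp y, fun x => ?_⟩
  rw [L2.inner_def]
  refine integral_congr_ae ?_
  filter_upwards [ym.coeFn_toLp] with ω a
  rw [a, hy, inner_smul_left, vec_inner, conj_ofReal]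

lemma kill (H : HA) (hC : CMP_s) {t p q : ℂ} (hT : PosT t p q) {χ : ℂ → ℂ} (h : ContDiff ℝ 2 χ)
    (hc : HasCompactSupport χ) (hs : tsupport χ ⊆ U.RG.OF t p q) {Y : ℂ → Mat} {V : ℝ × ℝ → Mat}
    (hY : Lip Y (tri t p q)) (hV : PLip V) (hU : ∀ ω ∈ csq, V ω = Y (DD t p q ω))
    (hp : ∀ ω ∈ csq, PureAt 2 (DD t p q ω) (V ω)) :
    ∫ ω in sq, (rj t p q ω : ℂ) * Lf χ (cls (volume.restrict sq) (dq t p q V) ω) (DD t p q ω) =
      0 := by
  have z := zero H hC hT h hc hs hY fun w hw => by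
    rw [← H.pol.img _ _ _ hT] at hw
    obtain ⟨ω, hω, rfl⟩ := hw
    rw [← hU ω hω]
    exact hp ω hω
  rw [(H.cvp.int _ _ _ _ hT).1] at z
  refine Eq.trans (integral_congr_ae ?_) z
  filter_upwards [H.mul.cls_ae _ _ (H.pm.mem _ _ _ _ hT hV), H.cvp.jet _ _ _ _ _ hT hY hU]
    with ω a b
  rw [a, b]
  simp only [Lf, PiLp.smul_apply, smul_eq_mul]
  push_cast
  ring

end LF

theorem lf : LF_s := by
  intro H hC Dt _ nx rv g c t hS d χ h hc hs
  have hT : PosT t (c (nx (rv d))) (c d) := ⟨hS.im, hS.cim _, hS.cim _, hS.spos d⟩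
  obtain ⟨y, hy⟩ := LF.rep H hT h
  refine ⟨(innerSL ℂ y).comp (PiLp.proj 2 (fun _ : Dt => L8) d), ?_, fun x => hy (x d)⟩
  rintro _ ⟨V, hV, hp, rfl⟩
  obtain ⟨Y, hY, hU⟩ := H.sp.ps nx rv g c t 0 V hS hV
  exact (hy _).trans (LF.kill H hC hT h hc hs (hY.lip d) (hV.lip d) (hU d) (hp d))

end

end Pool.Agent.MP_596265_gt.Hd.R

end

section

/-! Block R, row LOC: the local identity of type two. -/

namespace Pool.Agent.MP_596265_gt.Hd.R

open MeasureTheory Set Complex Metric Filter Topology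
open scoped ComplexConjugate InnerProductSpace

namespace LOC

lemma dl_sub (a b : ℂ) : ‖dl a - dl b‖ ≤ 2 * ‖a - b‖ := by
  have : dl a - dl b = (a - b) - conj (a - b) := by simp only [dl, map_sub]; ring
  rw [this]
  refine (norm_sub_le _ _).trans ?_
  rw [Complex.norm_conj]
  linarith

lemma dl_cont : Continuous dl := continuous_id.sub continuous_conj

lemma dl_ne {w : ℂ} (h : 0 < w.im) : dl w ≠ 0 := fun e => by
  have := congrArg Complex.im e
  simp only [dl, sub_im, conj_im, zero_im] at this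
  linarith

lemma test_conj {S : Set ℂ} {ψ : ℂ → ℂ} (h : U.RD.Test S ψ) :
    U.RD.Test S fun w => conj (dl w * ψ w) := by
  obtain ⟨⟨K, hK⟩, hc, hs⟩ := h
  have hsub : tsupport (fun w => conj (dl w * ψ w)) ⊆ tsupport ψ :=
    closure_mono fun w hw e => hw (by simp [e])
  refine ⟨?_, hc.of_isClosed_subset (isClosed_tsupport _) hsub, hsub.trans hs⟩
  obtain ⟨R, hR⟩ := hc.isCompact.exists_bound_of_continuousOn dl_cont.continuousOn
  obtain ⟨M, hM⟩ := hc.exists_bound_of_continuous hK.continuous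
  have key : ∀ a b, a ∈ tsupport ψ →
      ‖dl a * ψ a - dl b * ψ b‖ ≤ (|R| * K + 2 * M) * ‖a - b‖ := fun a b ha => by
    have h1 := hK.dist_le_mul a b
    rw [dist_eq_norm, dist_eq_norm] at h1
    have h2 := (hR a ha).trans (le_abs_self R)
    calc ‖dl a * ψ a - dl b * ψ b‖ = ‖dl a * (ψ a - ψ b) + (dl a - dl b) * ψ b‖ := by ring_nf
      _ ≤ ‖dl a‖ * ‖ψ a - ψ b‖ + ‖dl a - dl b‖ * ‖ψ b‖ := by
        rw [← norm_mul, ← norm_mul]
        exact norm_add_le _ _
      _ ≤ |R| * (K * ‖a - b‖) + (2 * ‖a - b‖) * M := by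
        gcongr
        exacts [dl_sub a b, hM b]
      _ = _ := by ring
  refine ⟨(|R| * K + 2 * M).toNNReal, LipschitzWith.of_dist_le' fun a b => ?_⟩
  rw [dist_eq_norm, dist_eq_norm, ← map_sub, Complex.norm_conj]
  by_cases ha : a ∈ tsupport ψ
  · exact key a b ha
  by_cases hb : b ∈ tsupport ψ
  · rw [norm_sub_rev, norm_sub_rev a]
    exact key b a hb
  have := (norm_nonneg _).trans (hM a)
  rw [image_eq_zero_of_notMem_tsupport ha, image_eq_zero_of_notMem_tsupport hb]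
  simp only [mul_zero, sub_self, norm_zero]
  positivity

lemma dzb_db (ψ : ℂ → ℂ) (w : ℂ) : dzb ψ w = U.RD.db ψ w := by
  simp only [dzb, U.RD.db, smul_eq_mul]
  ring

lemma fd_conj {ψ : ℂ → ℂ} {w : ℂ} (h : DifferentiableAt ℝ ψ w) :
    DifferentiableAt ℝ (fun w => conj (dl w * ψ w)) w ∧
      conj (dz (fun w => conj (dl w * ψ w)) w) = dl w * U.RD.db ψ w - ψ w := by
  have h1 : HasFDerivAt dl (ContinuousLinearMap.id ℝ ℂ - (conjCLE : ℂ →L[ℝ] ℂ)) w :=
    (hasFDerivAt_id w).sub conjCLE.hasFDerivAt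
  have h2 := conjCLE.hasFDerivAt.comp w (h1.mul h.hasFDerivAt)
  have h3 : HasFDerivAt (fun w => conj (dl w * ψ w)) _ w := h2
  refine ⟨h3.differentiableAt, ?_⟩
  simp only [dz, U.RD.db, h3.fderiv]
  simp [map_ofNat]
  linear_combination (ψ w) * I_mul_I

lemma inn2 (ha : HA) (y x : E8) :
    ⟪pr 2 y, x⟫_ℂ = conj (y ttf) * x ttf + conj (y tft) * x tft + conj (y ftt) * x ftt := by
  simp only [PiLp.inner_apply, pr, ha.alg.dg_apply, Fintype.sum_prod_type, Fintype.sum_bool, wt,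
    RCLike.inner_apply]
  simp only [Bool.toNat_true, Nat.reduceAdd, Nat.succ_ne_self, ↓ reduceIte, zero_mul, map_zero, mul_zero, Bool.toNat_false, add_zero, one_mul, zero_add, OfNat.one_ne_ofNat, OfNat.zero_ne_ofNat]
  ring

end LOC

open LOC in
theorem loc : LOC_s := by
  intro ha cmp ug test ws Dt _ nx rv g z ok x rot sym harm d χ hχ
  obtain ⟨hU, -, -, hf, -, -, -, -, -, hL, -⟩ := ug ha ok d
  have hL := hL x
  set S := UU nx rv g z d with hUd
  set y := gl nx rv g z x d with hy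
  have cpt : ∀ d, IsCompact (face nx g z d) := fun d => ha.tri.cpt _ _ _
    ⟨ok.im, ha.alg.mob_pos _ _ ok.im, ha.alg.mob_pos _ _ ok.im, ok.pos d⟩
  have mU := hU.measurableSet
  have him : ∀ w ∈ S, 0 < w.im := fun w hw => hw.1
  have hs : ∀ᵐ w ∂volume.restrict S, y w ftt = y w tft := by
    have h1 := (ae_restrict_iff' (cpt d).measurableSet).1 (sym d)
    have h2 := (ae_restrict_iff' (cpt (nx (rv d))).measurableSet).1 (sym (nx (rv d)))
    rw [ae_restrict_iff' mU]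
    filter_upwards [h1, h2] with w a b hw
    simp only [hy, gl]
    split_ifs with e
    · exact (a ((hf w hw).1 e) false true true).1
    · exact (b ((hf w hw).2 (not_le.1 e).le) false true true).1
  have hK := (cpt d).union (cpt (nx (rv d)))
  have hsub : S ⊆ face nx g z d ∪ face nx g z (nx (rv d)) := fun w hw =>
    (le_total 0 (sd g z d w)).imp (hf w hw).1 (hf w hw).2
  have bd : ∀ (f k : ℂ → ℂ), ContinuousOn f {w | 0 < w.im} → MemLp k 2 (volume.restrict S) →
      MemLp (fun w => f w * k w) 2 (volume.restrict S) := fun f k hc hk => by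
    obtain ⟨C, hC⟩ := hK.exists_bound_of_continuousOn
      (hc.mono fun w hw => hw.elim (fun e => e.1) fun e => e.1)
    refine hk.of_le_mul (c := C) (((hc.mono him).aestronglyMeasurable mU).mul hk.1) ?_
    filter_upwards [ae_restrict_mem mU] with w hw
    rw [norm_mul]
    exact mul_le_mul_of_nonneg_right (hC w (hsub hw)) (norm_nonneg _)
  have he : MemLp (fun w => y w ttf) 2 (volume.restrict S) := hL.eval_piLp ttf
  have hc : MemLp (fun w => y w tft) 2 (volume.restrict S) := hL.eval_piLp tft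
  have he' : MemLp (fun w => conj (y w ttf)) 2 (volume.restrict S) := he.star
  have hc' : MemLp (fun w => conj (y w tft)) 2 (volume.restrict S) := hc.star
  have key := ws S (fun w => dl w * y w tft) (fun w => y w ttf - y w tft)
    (fun w => (dl w)⁻¹ * (conj (y w ttf) + 2 * conj (y w tft))) (fun w => conj (y w ttf)) hU
    (bd _ _ dl_cont.continuousOn hc) (he.sub hc)
    (bd _ _ (dl_cont.continuousOn.inv₀ fun w hw => dl_ne hw) (he'.add (hc'.const_mul 2))) he'
    (fun ψ hψ => ?_) (fun ψ hψ => ?_) χ hχ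
  · rw [← key]
    refine setIntegral_congr_fun mU fun w hw => ?_
    have := dl_ne (him w hw)
    simp only [Ii, dzb_db, ofReal_add, ofReal_mul, normSq_eq_conj_mul_self, ofReal_ofNat]
    field_simp
    ring
  · obtain ⟨b, hb, e⟩ := test ha ug ok d 1 _ (test_conj hψ)
    have e := e x rot 2
    rw [(harm 1 (by norm_num) b hb).1] at e
    obtain ⟨K, hK⟩ := hψ.1
    have e' : ∫ w in S, ⟪pr 2 (dF (sec 1 fun w => conj (dl w * ψ w)) w), y w⟫_ℂ =
        ∫ w in S, 2 * (dl w * y w tft * U.RD.db ψ w + (y w ttf - y w tft) * ψ w) := by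
      refine integral_congr_ae ?_
      filter_upwards [hs, ae_restrict_mem mU, ae_restrict_of_ae hK.ae_differentiableAt]
        with w a hw dψ
      obtain ⟨d1, d2⟩ := fd_conj dψ
      have c := (cmp ha _ w (him w hw) d1).2
      have n := dl_ne (him w hw)
      have n' : conj (dl w) = -dl w := by simp [dl]
      rw [inn2 ha, c, c, c, a]
      simp only [ttf, tft, ftt, Prod.mk.injEq, Bool.true_eq_false, Bool.false_eq_true, and_false,
        and_true, or_false, or_true, and_self, if_true, if_false, or_self, d2]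
      simp only [map_div₀, map_mul, map_neg, conj_conj, n', map_ofNat]
      field_simp
      ring
    rw [e', integral_const_mul] at e
    simpa only [zero_eq_mul, OfNat.ofNat_ne_zero, mul_eq_zero, false_or] using e
  · obtain ⟨b, hb, e⟩ := test ha ug ok d 2 _ hψ
    have e := e x rot 2
    rw [(harm 2 (by norm_num) b hb).2] at e
    obtain ⟨K, hK⟩ := hψ.1
    have e' : ∫ w in S, ⟪pr 2 (dF (sec 2 ψ) w), y w⟫_ℂ = ∫ w in S, conj ((dl w)⁻¹ *
        (conj (y w ttf) + 2 * conj (y w tft)) * ψ w + conj (y w ttf) * U.RD.db ψ w) := by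
      refine integral_congr_ae ?_
      filter_upwards [hs, ae_restrict_mem mU, ae_restrict_of_ae hK.ae_differentiableAt]
        with w a hw dψ
      have c := (cmp ha _ w (him w hw) dψ).1
      rw [inn2 ha, c, c, c, a]
      simp only [ttt, ttf, tft, ftt, Prod.mk.injEq, Bool.true_eq_false, Bool.false_eq_true,
        and_false, and_true, or_false, or_true, and_self, if_true, if_false, dzb_db,
        map_div₀, map_mul, map_add, conj_conj, map_ofNat, map_inv₀]
      ring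
    rw [e', integral_conj] at e
    simpa only [zero_eq_mul, OfNat.ofNat_ne_zero, map_eq_zero, false_or] using e

end Pool.Agent.MP_596265_gt.Hd.R

end

section

/-! Row MT: first order invariance of the holomorphic functions under the motion of the apex. -/

namespace Pool.Agent.MP_596265_gt.Hd.R

open MeasureTheory Set Complex Metric Filter Topology
open scoped ComplexConjugate InnerProductSpace Matrix.Norms.Elementwise

namespace MT

section
variable {H : Type} [NormedAddCommGroup H] [InnerProductSpace ℂ H] [CompleteSpace H]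
  {π : ℕ → H →L[ℂ] H} {θ : H →L[ℂ] H} {B : ℕ → Submodule ℂ H}

lemma idem (h : V18.Vhs π θ B) {p : ℕ} (hp : p < 4) (x : H) : π p (π p x) = π p x :=
  ext_inner_left ℂ fun y => by rw [← h.adj hp, ← h.inner_pi hp, h.adj hp]

lemma weil_perp (h : V18.Vhs π θ B) {x y : H} (hx : x ∈ V18.Hm π B) (hy : y ∈ B 0 ⊔ B 1 ⊔ B 2) :
    ⟪x, V18.weil π y⟫_ℂ = 0 := by
  have e : ∀ p < 4, ⟪x, π p y⟫_ℂ = 0 := fun p hp => by
    rw [← h.adj hp]
    exact inner_eq_zero_symm.1 (h.perp (h.pi_mem hx p) (Submodule.le_topologicalClosure _ hy))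
  simp [V18.weil, e]

end

lemma sq_sub : sq ⊆ csq := prod_mono Ioo_subset_Icc_self Ioo_subset_Icc_self
lemma sq_ms : MeasurableSet sq := measurableSet_Ioo.prod measurableSet_Ioo

lemma dl_ne {w : ℂ} (h : 0 < w.im) : dl w ≠ 0 := fun e => by
  have := congrArg Complex.im e
  simp only [dl, sub_im, conj_im, sub_neg_eq_add, zero_im, add_self_eq_zero] at this
  exact h.ne' this

lemma dz_eq (χ : ℂ → ℂ) (w : ℂ) : dz χ w = U.RD.dz χ w := by
  simp only [dz, U.RD.dz, smul_eq_mul]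
  ring

lemma dz_off {χ : ℂ → ℂ} {w : ℂ} (h : w ∉ tsupport χ) : χ w = 0 ∧ U.RD.dz χ w = 0 := by
  have : fderiv ℝ χ w = 0 := by
    by_contra h0
    exact h (support_fderiv_subset ℝ h0)
  exact ⟨image_eq_zero_of_notMem_tsupport h, by simp [U.RD.dz, this]⟩

lemma e8_le {x : E8} {B : ℝ} (hB : 0 ≤ B) (h : ∀ k, ‖x k‖ ≤ B) : ‖x‖ ≤ 3 * B := by
  refine (pow_le_pow_iff_left₀ (norm_nonneg _) (by positivity) two_ne_zero).1 ?_
  rw [EuclideanSpace.norm_sq_eq]
  refine (Finset.sum_le_card_nsmul _ _ (B ^ 2) fun k _ => by have := h k; gcongr).trans ?_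
  simp only [Finset.card_univ, Fintype.card_prod, Fintype.card_bool, Nat.reduceMul, nsmul_eq_mul, Nat.cast_ofNat]
  linarith only [sq_nonneg B]

lemma l8_sq (x : L8) : Integrable (fun ω => ‖x ω‖ ^ 2) (volume.restrict sq) ∧
    ∫ ω in sq, ‖x ω‖ ^ 2 = ‖x‖ ^ 2 := by
  refine ⟨(memLp_two_iff_integrable_sq_norm (Lp.memLp x).1).1 (Lp.memLp x), ?_⟩
  have := L2.inner_def (𝕜 := ℂ) x x
  simp only [inner_self_eq_norm_sq_to_K] at this
  exact_mod_cast this.symm

lemma cvp_real (H : HA) {z p q : ℂ} (h : PosT z p q) (u : ℂ → ℝ) :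
    (∫ w in tri z p q, u w) = (∫ ω in sq, rj z p q ω ^ 2 * u (DD z p q ω)) ∧
    (IntegrableOn (fun ω => rj z p q ω ^ 2 * u (DD z p q ω)) sq → IntegrableOn u (tri z p q)) := by
  obtain ⟨h1, h2⟩ := H.cvp.int z p q (fun w => (u w : ℂ)) h
  simp only [← ofReal_mul] at h1 h2
  refine ⟨?_, fun hi => ?_⟩
  · rwa [integral_complex_ofReal, integral_complex_ofReal, ofReal_inj] at h1
  · exact (h2.2 (Integrable.ofReal hi)).re

variable {Dt : Type} [Fintype Dt]

lemma hp_le {x y : HP Dt} {K : ℝ} (hK : 0 ≤ K)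
    (h : ∀ d, ∀ᵐ ω ∂volume.restrict sq, ‖x d ω‖ ≤ K * ‖y d ω‖) : ‖x‖ ≤ K * ‖y‖ := by
  refine (pow_le_pow_iff_left₀ (norm_nonneg _) (by positivity) two_ne_zero).1 ?_
  rw [mul_pow, PiLp.norm_sq_eq_of_L2, PiLp.norm_sq_eq_of_L2, Finset.mul_sum]
  refine Finset.sum_le_sum fun d _ => ?_
  rw [← mul_pow]
  have := Lp.norm_le_mul_norm_of_ae_le_mul (h d)
  gcongr

lemma pr_ae (H : HA) (p : ℕ) (x : HP Dt) (d : Dt) : ∀ᵐ ω ∂volume.restrict sq, ∀ k,
    prP p x d ω k = (if wt k = p then 1 else 0) * x d ω k := by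
  filter_upwards [H.mul.mp_ae (fun (_ : Dt) _ => pr p) (fun _ => continuousOn_const) x d] with ω h k
  exact (congrArg (fun y : E8 => y k) h).trans (H.alg.dg_apply _ _ _)

lemma two_le (H : HA) {x y : HP Dt} {p p' : ℕ} (hp : p ≠ p') {K : ℝ} (hK : 0 ≤ K)
    (h : ∀ d, ∀ᵐ ω ∂volume.restrict sq, ∀ k, wt k = p ∨ wt k = p' → ‖x d ω k‖ ≤ K * ‖y d ω‖) :
    ‖prP p x + prP p' x‖ ≤ 3 * K * ‖y‖ := by
  refine hp_le (by positivity) fun d => ?_
  filter_upwards [h d, pr_ae H p x d, pr_ae H p' x d, Lp.coeFn_add (prP p x d) (prP p' x d)]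
    with ω h1 h2 h3 h4
  rw [mul_assoc]
  refine e8_le (by positivity) fun k => ?_
  rw [PiLp.add_apply, h4, Pi.add_apply, PiLp.add_apply, h2, h3]
  split_ifs with a b b
  · exact absurd (a.symm.trans b) hp
  · simpa only [one_mul, zero_mul, add_zero] using h1 k (Or.inl a)
  · simpa only [zero_mul, one_mul, zero_add] using h1 k (Or.inr b)
  · simp only [zero_mul, add_zero, norm_zero]
    positivity

lemma split (H : HA) {x : HP Dt}
    (h : ∀ d, ∀ᵐ ω ∂volume.restrict sq, ∀ k, k ≠ ttt → k ≠ fff → x d ω k = 0) :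
    prP 3 x + prP 0 x = x := by
  refine PiLp.ext fun d => Lp.ext ?_
  filter_upwards [h d, pr_ae H 3 x d, pr_ae H 0 x d, Lp.coeFn_add (prP 3 x d) (prP 0 x d)]
    with ω h1 h2 h3 h4
  ext k
  rw [PiLp.add_apply, h4, Pi.add_apply, PiLp.add_apply, h2, h3]
  by_cases a : k = ttt
  · simp [a, wt]
  by_cases b : k = fff
  · simp [b, wt]
  simp [h1 k a b]

lemma T_pr (H : HA) {T : HP Dt →L[ℂ] HP Dt} {m : Dt → ℝ × ℝ → Ix → Ix → ℂ}
    (hT : ∀ x d, ∀ᵐ ω ∂volume.restrict sq, ∀ k, T x d ω k = ∑ l, m d ω k l * x d ω l)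
    {p : ℕ} {k₀ : Ix} (hk : ∀ l, wt l = p ↔ l = k₀) (x : HP Dt) (d : Dt) :
    ∀ᵐ ω ∂volume.restrict sq, ∀ k, T (prP p x) d ω k = m d ω k k₀ * x d ω k₀ := by
  filter_upwards [hT (prP p x) d, pr_ae H p x d] with ω h1 h2 k
  rw [h1, Finset.sum_eq_single k₀ (fun l _ hl => by simp [h2, hk, hl]) (by simp), h2,
    if_pos ((hk _).2 rfl), one_mul]

lemma lf_alg {t s p q : ℂ} {ω : ℝ × ℝ} (χ : ℂ → ℂ) (hω : ω ∈ csq) (h1 : 0 < (DD t p q ω).im)
    (h2 : 0 < (DD s p q ω).im) (h3 : 0 < jc (e1 s p q ω) (e2 s p q ω)) {f : ℂ} {x : E8}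
    (hx : ∀ k, x k = Tm t s p q ω k ttt * ((rj s p q ω : ℂ) * (dl (DD s p q ω) * f))) :
    (rj t p q ω : ℂ) * Lf χ x (DD t p q ω) = (rj t p q ω ^ 2 : ℝ) *
      (f * cz (e1 t p q ω) (e2 t p q ω) (e1 s p q ω) (e2 s p q ω) *
        (χ (DD t p q ω) + (DD s p q ω - DD t p q ω) * U.RD.dz χ (DD t p q ω))) := by
  have a1 := dl_ne h1
  have a2 := dl_ne h2
  have a3 : ((√(jc (e1 s p q ω) (e2 s p q ω)) : ℝ) : ℂ) ≠ 0 :=
    ofReal_ne_zero.2 (Real.sqrt_pos.2 h3).ne'
  have a4 : conj (DD t p q ω) = DD t p q ω - dl (DD t p q ω) := by simp [dl]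
  simp only [Lf, hx, Tm, sl, fm, pt, rj, Real.sqrt_mul (sub_nonneg.2 hω.2.2), dz_eq, if_true,
    Bool.not_true, Bool.false_eq_true, if_false, a4]
  push_cast
  field_simp
  ring

lemma l1 (H : HA) {nx rv : Dt → Dt} {g c s} {a : HP Dt} {φ : Dt → ℂ → ℂ} {d : Dt} {O : Set ℂ}
    {m M : ℝ} (hS : Star nx rv g c s) (hP : PD nx rv g c s a φ) (hM : ‖a‖ ≤ M)
    (hO : MeasurableSet O) (hf : volume O ≠ ⊤) (hc : ContinuousOn (φ d) O)
    (h1 : O ⊆ tri s (c (nx (rv d))) (c d) ∩ face nx g s d) (hm : 0 < m)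
    (h2 : ∀ w ∈ O, m ≤ ‖dl w‖) :
    IntegrableOn (φ d) O ∧ ∫ w in O, ‖φ d w‖ ≤ volume.real O + M ^ 2 / m ^ 2 := by
  have hp : PosT s (c (nx (rv d))) (c d) := ⟨hS.im, hS.cim _, hS.cim _, hS.spos d⟩
  obtain ⟨u, hu⟩ : ∃ u : ℂ → ℝ, u = O.indicator fun w => ‖dl w * φ d w‖ ^ 2 := ⟨_, rfl⟩
  obtain ⟨c1, c2⟩ := cvp_real H hp u
  obtain ⟨i1, i2⟩ := l8_sq (a d)
  have hD : AEMeasurable (DD s (c (nx (rv d))) (c d)) (volume.restrict sq) :=
    ContinuousOn.aemeasurable (fun ω hω => by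
      obtain ⟨A, hA, -⟩ := H.gep.der s _ _ ω hp.1 hp.2.1 hp.2.2.1 (sq_sub hω)
      exact hA.continuousAt.continuousWithinAt) sq_ms
  have e : (fun ω => rj s (c (nx (rv d))) (c d) ω ^ 2 * u (DD s (c (nx (rv d))) (c d) ω)) =ᵐ[
      volume.restrict sq] (DD s (c (nx (rv d))) (c d) ⁻¹' O).indicator
        fun ω => ‖a d ω ttt‖ ^ 2 := by
    filter_upwards [hP d] with ω hω
    by_cases h : DD s (c (nx (rv d))) (c d) ω ∈ O
    · rw [hu, indicator_of_mem h, indicator_of_mem (mem_preimage.2 h), hω.2.2.1 (h1 h).2,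
        norm_mul (_ : ℂ) (_ * _), mul_pow, norm_real, Real.norm_eq_abs, sq_abs]
      rfl
    · rw [hu, indicator_of_notMem h, indicator_of_notMem (mt mem_preimage.1 h), mul_zero]
  have i3 : Integrable (fun ω => ‖a d ω ttt‖ ^ 2) (volume.restrict sq) :=
    i1.mono' (((EuclideanSpace.proj ttt : E8 →L[ℂ] ℂ).continuous.comp_aestronglyMeasurable
      (Lp.memLp (a d)).1).norm.pow 2) (Eventually.of_forall fun ω => by
        rw [Real.norm_of_nonneg (by positivity)]
        have := PiLp.norm_apply_le (a d ω) ttt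
        gcongr)
  have i4 := (i3.indicator₀ (hD.nullMeasurableSet_preimage hO)).congr e.symm
  have i5 : IntegrableOn u O := (c2 i4).mono_set fun w hw => (h1 hw).1
  have b1 : ∫ w in O, u w ≤ M ^ 2 := by
    rw [← setIntegral_eq_of_subset_of_forall_sdiff_eq_zero (H.tri.cpt _ _ _ hp).measurableSet
      (fun w hw => (h1 hw).1) fun w hw => by rw [hu, indicator_of_notMem hw.2], c1]
    refine (integral_mono_ae i4 i1 ?_).trans ?_
    · filter_upwards [e] with ω hω
      rw [hω]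
      refine (indicator_le_self' (fun _ _ => by positivity) ω).trans ?_
      have := PiLp.norm_apply_le (a d ω) ttt
      gcongr
    · rw [i2]
      have := (PiLp.norm_apply_le a d).trans hM
      gcongr
  have i0 : IntegrableOn (fun _ => (1 : ℝ)) O := integrableOn_const hf
  have i6 : IntegrableOn (fun w => 1 + u w / m ^ 2) O := i0.add (i5.div_const _)
  have b2 : ∀ᵐ w ∂volume.restrict O, ‖φ d w‖ ≤ 1 + u w / m ^ 2 := by
    filter_upwards [ae_restrict_mem hO] with w hw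
    have : ‖φ d w‖ ^ 2 ≤ u w / m ^ 2 := by
      rw [le_div_iff₀ (by positivity), hu, indicator_of_mem hw, norm_mul, mul_pow, mul_comm]
      have := h2 w hw
      gcongr
    nlinarith only [this]
  have i7 : IntegrableOn (φ d) O := i6.mono' (hc.aestronglyMeasurable hO) b2
  refine ⟨i7, (integral_mono_ae i7.norm i6 b2).trans ?_⟩
  rw [integral_add i0 (i5.div_const _), integral_div]
  simp only [integral_const, smul_eq_mul, mul_one, measureReal_restrict_apply_univ]
  gcongr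

end MT

open MT in
theorem mt : MT_s := by
  intro H hMD hRA hCMP hTOP hBD hTH hLF Dt _ nx rv g c t v a φ M d o r hr hv hev χ hχ hs ε hε
  have pos : ∀ {s}, Star nx rv g c s → ∀ e, PosT s (c (nx (rv e))) (c e) := fun hS e =>
    ⟨hS.im, hS.cim _, hS.cim _, hS.spos e⟩
  have oft : ∀ {s p q w : ℂ}, w ∈ U.RG.OF s p q → w ∈ tri s p q := fun hw => by
    rw [← U.RG.CF_tri]
    exact ⟨hw.1, hw.2.1.le, hw.2.2.1.le, hw.2.2.2.le⟩
  obtain ⟨St, Ht, Pt, Mt, -, Bt⟩ := hev.self_of_nhds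
  have M0 := (norm_nonneg _).trans Mt
  have b12 : ball o r ⊆ ball o (2 * r) := ball_subset_ball (by linarith)
  have bt : ball o r ⊆ tri t (c (nx (rv d))) (c d) := fun w hw => oft (Bt (b12 hw)).1
  have hc : HasCompactSupport χ :=
    (isCompact_closedBall o r).of_isClosed_subset (isClosed_tsupport χ)
      (hs.trans ball_subset_closedBall)
  have ct := H.tri.cpt _ _ _ (pos St d)
  obtain ⟨l, l0, hl⟩ := hLF H hCMP St d χ hχ hc fun w hw => (Bt (b12 (hs hw))).1
  choose C hC using fun e => hBD H t _ _ (pos St e)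
  obtain ⟨K, K0, hK⟩ : ∃ K, 0 ≤ K ∧ ∀ e, C e ≤ K :=
    ⟨∑ e, |C e|, Finset.sum_nonneg fun _ _ => abs_nonneg _, fun e => (le_abs_self _).trans
      (Finset.single_le_sum (f := fun e => |C e|) (fun _ _ => abs_nonneg _) (Finset.mem_univ e))⟩
  obtain ⟨C', hC'⟩ := hMD o r hr χ hχ hs
  obtain ⟨m, m0, hm⟩ := ct.exists_forall_le' (f := fun w => ‖dl w‖) (a := 0)
    (by unfold dl; fun_prop) fun w hw => norm_pos_iff.2 (dl_ne hw.1)
  obtain ⟨M', hM'⟩ : ∃ M', M' = volume.real (ball o (2 * r)) + M ^ 2 / m ^ 2 := ⟨_, rfl⟩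
  have small : ∀ A δ : ℝ, 0 < δ → ∀ᶠ s in 𝓝 t, A * ‖s - t‖ ≤ δ := fun A δ hδ =>
    (((show Continuous fun s : ℂ => A * ‖s - t‖ by fun_prop).tendsto' t 0
      (by simp)).eventually_le_const hδ)
  have V := H.vhs nx rv g c t St
  have int : ∀ f : ℂ → ℂ, (∀ w ∉ ball o r, f w = 0) → ∫ w in ball o r, f w =
      ∫ ω in sq, (rj t (c (nx (rv d))) (c d) ω ^ 2 : ℝ) * f (DD t (c (nx (rv d))) (c d) ω) :=
    fun f hf => by
      rw [← (H.cvp.int t _ _ f (pos St d)).1,
        setIntegral_eq_of_subset_of_forall_sdiff_eq_zero ct.measurableSet bt fun w hw => hf w hw.2]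
  have off : ∀ w ∉ ball o r, χ w = 0 ∧ U.RD.dz χ w = 0 := fun w hw => dz_off fun h => hw (hs h)
  have lα : l (prP 3 (a t)) = ∫ w in ball o r, φ t d w * χ w := by
    rw [hl, int _ fun w hw => by rw [(off w hw).1, mul_zero]]
    refine integral_congr_ae ?_
    filter_upwards [Pt d, pr_ae H 3 (a t) d] with ω h1 h2
    simp only [Lf, h2, Dd]
    by_cases h : DD t (c (nx (rv d))) (c d) ω ∈ ball o r
    · have := dl_ne (bt h).1
      rw [h1.2.2.1 (Bt (b12 h)).2]
      simp only [wt, Bool.toNat_true, Nat.reduceAdd, ↓ reduceIte, Dd, one_mul, Bool.toNat_false, add_zero, Nat.reduceEqDiff, zero_mul, mul_zero, zero_add, OfNat.one_ne_ofNat, sub_zero, ofReal_pow]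
      field_simp
    · simp [wt, (off _ h).1]
  filter_upwards [hev, eventually_all.2 hC, small K (r / 2) (by positivity),
    small (|C' * M' * K ^ 2| + 18 * K * M * ‖l‖) ε hε] with s hs1 hB hη hsm
  obtain ⟨Ss, Hs, Ps, Ms, Ds, Bs⟩ := hs1
  obtain ⟨T, T1, T2, T3⟩ := hTOP H St Ss
  obtain ⟨Θ, ⟨LΘ, Θ1⟩, Θ2, Θ3⟩ := hTH H t s _ _ (pos St d) Ss.im
  have n0 := norm_nonneg (s - t)
  have c3 := T_pr H T3 (p := 3) (k₀ := ttt) (by decide) (a s)
  have c0 := T_pr H T3 (p := 0) (k₀ := fff) (by decide) (a s)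
  have hBB : ∀ b ∈ BB nx rv g c s, T b ∈ BB nx rv g c t := fun b hb => by
    obtain ⟨U, hU, rfl⟩ := (H.pur.all nx rv g c s b Ss).1 hb
    exact (H.pur.all nx rv g c t _ St).2 ⟨U, hU, T1 U hU.lip⟩
  have key := hRA V (prP 3 (a t)) (prP 0 (a t)) (T (prP 3 (a s))) (T (prP 0 (a s)))
    (3 * (K * ‖s - t‖ ^ 2) * M) ?_ (idem V (by omega) _) (idem V (by omega) _) ?_ ?_ ?_ ?_ l
    fun b hb => l0 b ((H.pur.sub nx rv g c t 2 b St).1 hb)
  · have near : ∀ ω ∈ csq, ‖DD s (c (nx (rv d))) (c d) ω - DD t (c (nx (rv d))) (c d) ω‖ ≤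
        K * ‖s - t‖ := fun ω hω => (hB d ω hω).1.trans (by have := hK d; gcongr)
    obtain ⟨j1, j2⟩ := l1 H Ss Ps Ms measurableSet_ball measure_ball_lt_top.ne Ds.continuousOn
      (fun w hw => ⟨oft (Bs hw).1, (Bs hw).2⟩) m0 fun w hw => hm w (oft (Bt hw).1)
    have md := hC' (φ s d) Θ (K * ‖s - t‖) M' (by positivity) hη Ds j1 (hM' ▸ j2)
      ⟨_, Θ1.mono bt⟩ (fun w hw => by
        obtain ⟨ω, hω, rfl⟩ := (H.pol.img t _ _ (pos St d)).symm.subset (bt hw)
        rw [Θ2 ω hω]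
        exact near ω hω)
      (ae_restrict_of_ae_restrict_of_subset bt ((H.cvp.ae t _ _
        (fun w => ‖U.RD.dz Θ w - 1‖ ≤ K * ‖s - t‖) (pos St d)).2 (by
          filter_upwards [Θ3, ae_restrict_mem sq_ms] with ω h1 h2
          rw [h1]
          exact (hB d ω (sq_sub h2)).2.1.trans (by have := hK d; gcongr))))
    have lα' : l (T (prP 3 (a s))) = ∫ w in ball o r,
        φ s d (Θ w) * U.RD.dz Θ w * (χ w + (Θ w - w) * U.RD.dz χ w) := by
      rw [hl, int _ fun w hw => by simp [off w hw]]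
      refine integral_congr_ae ?_
      filter_upwards [Ps d, c3 d, Θ3, ae_restrict_mem sq_ms] with ω h1 h2 h3 h4
      by_cases h : DD t (c (nx (rv d))) (c d) ω ∈ ball o r
      · have h5 : DD s (c (nx (rv d))) (c d) ω ∈ ball o (2 * r) := by
          have := near ω (sq_sub h4)
          rw [← dist_eq_norm] at this
          have := dist_triangle (DD s (c (nx (rv d))) (c d) ω) (DD t (c (nx (rv d))) (c d) ω) o
          have := mem_ball.1 h
          rw [mem_ball]
          linarith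
        simp only [Θ2 ω (sq_sub h4), h3]
        exact lf_alg χ (sq_sub h4) (bt h).1 (Bs h5).1.1 (H.gep.jpos _ _ _ _ (pos Ss d) (sq_sub h4))
          fun k => by rw [h2, h1.2.2.1 (Bs h5).2]; rfl
      · simp [Lf, Dd, dz_eq, off _ h]
    rw [lα, lα'] at key
    rw [norm_sub_rev] at md
    refine (norm_sub_le_norm_sub_add_norm_sub _ _ _).trans ((add_le_add md key).trans ?_)
    have := mul_le_mul_of_nonneg_right hsm n0
    have := mul_le_mul_of_nonneg_right (le_abs_self (C' * M' * K ^ 2)) (sq_nonneg ‖s - t‖)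
    nlinarith
  · have hU := H.pm.aff nx rv g v St.toFlat hv
    rw [← map_add, split H fun e => (Ps e).mono fun ω h => h.1,
      split H fun e => (Pt e).mono fun ω h => h.1]
    have h1 : T (a s - dP nx rv c s _) ∈ (BB nx rv g c t).topologicalClosure :=
      map_mem_closure T.continuous (Hs.2 _ hU) hBB
    rw [map_sub, T1 _ hU.lip] at h1
    have h2 := sub_mem h1 (Ht.2 _ hU)
    rwa [sub_sub_sub_cancel_right] at h2
  · refine (two_le H (y := a s) (K := K * ‖s - t‖ ^ 2) one_ne_zero (by positivity)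
      fun e => ?_).trans (by gcongr)
    filter_upwards [c3 e, ae_restrict_mem sq_ms] with ω h1 h2 k hk
    rw [h1, norm_mul]
    exact mul_le_mul ((((hB e ω (sq_sub h2)).2.2 k).1 (by omega)).trans (by have := hK e; gcongr))
      (PiLp.norm_apply_le _ _) (norm_nonneg _) (by positivity)
  · refine (two_le H (y := a s) (K := K * ‖s - t‖ ^ 2) (by omega) (by positivity)
      fun e => ?_).trans (by gcongr)
    filter_upwards [c0 e, ae_restrict_mem sq_ms] with ω h1 h2 k hk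
    rw [h1, norm_mul]
    exact mul_le_mul ((((hB e ω (sq_sub h2)).2.2 k).2 (by omega)).trans (by have := hK e; gcongr))
      (PiLp.norm_apply_le _ _) (norm_nonneg _) (by positivity)
  · exact fun b hb => weil_perp V (V.pi_mem Ht.1 3)
      (Submodule.mem_sup_left (Submodule.mem_sup_right hb))
  · intro b hb
    obtain ⟨U, hU, -, rfl⟩ := (H.pur.sub nx rv g c t 1 b St).1 hb
    have W := H.vhs nx rv g c s Ss
    rw [← T1 U hU.lip, T2]
    exact weil_perp W (W.pi_mem Hs.1 3) ((H.pur.all nx rv g c s _ Ss).2 ⟨U, hU, rfl⟩)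

end Pool.Agent.MP_596265_gt.Hd.R

end

section

/-! Block R, row NU: the velocity field of the motion of the apex. -/

namespace Pool.Agent.MP_596265_gt.Hd.R

open MeasureTheory Set Complex Metric Filter Topology
open scoped ComplexConjugate InnerProductSpace Matrix.Norms.Elementwise

namespace NUx

/-- The smooth factor of `nu - 1`. -/
noncomputable def gg (z p q : ℂ) (ω : ℝ × ℝ) : ℂ :=
  -(dl (geo p q ω.1) ^ 2 + 2 * (z - geo p q ω.1) * dl (geo p q ω.1) +
    (1 - ω.2) * (z - geo p q ω.1) ^ 2) / NN z (geo p q ω.1) ω.2 ^ 2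

theorem gd (hG : GEO_s) {p q : ℂ} {l : ℝ} (hp : 0 < p.im) (hq : 0 < q.im)
    (hl : l ∈ Icc (0 : ℝ) 1) : ContDiffAt ℝ 1 (geo p q) l := by
  have h : ContDiffAt ℝ (⊤ : ℕ∞) (fun l => geo p q l) l :=
    ((hG.smooth p q l hp hq hl).1.comp l (f := fun l : ℝ => (p, q, l)) (by fun_prop) :)
  exact h.of_le (by exact_mod_cast le_top)

theorem sm (hG : GEO_s) {z p q : ℂ} {ω : ℝ × ℝ} (hz : 0 < z.im) (hp : 0 < p.im) (hq : 0 < q.im)
    (hω : ω ∈ csq) : ContDiffAt ℝ 1 (gg z p q) ω ∧ ContDiffAt ℝ 1 (Hd.nu z p q) ω := by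
  have y : ContDiffAt ℝ 1 (fun x : ℝ × ℝ => geo p q x.1) ω :=
    (gd hG hp hq hω.1).comp ω contDiffAt_fst
  have yb : ContDiffAt ℝ 1 (fun x : ℝ × ℝ => conj (geo p q x.1)) ω :=
    (conjCLE.contDiff.contDiffAt.comp _ y :)
  have i : ContDiffAt ℝ 1 (fun _ : ℝ × ℝ => z) ω := contDiffAt_const
  have s : ContDiffAt ℝ 1 (fun x : ℝ × ℝ => (x.2 : ℂ)) ω :=
    ofRealCLM.contDiff.contDiffAt.comp _ contDiffAt_snd
  have n0 := hG.nn_ne _ _ _ hz (hG.im p q _ hp hq hω.1) hω.2
  have n := (((i.sub yb).sub (s.mul (i.sub y))).pow 2).inv (pow_ne_zero 2 n0)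
  exact ⟨((((y.sub yb).pow 2).add ((contDiffAt_const.mul (i.sub y)).mul (y.sub yb))).add
    ((contDiffAt_const.sub s).mul ((i.sub y).pow 2))).neg.mul n,
    (s.mul ((y.sub yb).pow 2)).mul n⟩

theorem fac {z p q : ℂ} {ω : ℝ × ℝ} (n : NN z (geo p q ω.1) ω.2 ≠ 0) :
    Hd.nu z p q ω = 1 + ((1 - ω.2 : ℝ) : ℂ) * gg z p q ω := by
  unfold Hd.nu gg
  field_simp
  unfold NN dl
  push_cast
  ring

theorem plip {f g : ℝ × ℝ → ℂ} (h : ∀ ω ∈ csq, ContDiffAt ℝ 1 g ω)
    (e : ∀ ω ∈ csq, f ω = 1 + ((1 - ω.2 : ℝ) : ℂ) * g ω) : PLip f := by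
  have hc : IsCompact csq := isCompact_Icc.prod isCompact_Icc
  obtain ⟨K, hK⟩ : ∃ K, LipschitzOnWith K g csq :=
    LocallyLipschitzOn.exists_lipschitzOnWith_of_compact hc fun ω hω => by
      obtain ⟨K, t, ht, hK⟩ := (h ω hω).exists_lipschitzOnWith
      exact ⟨K, t, mem_nhdsWithin_of_mem_nhds ht, hK⟩
  obtain ⟨M, hM⟩ := hc.exists_bound_of_continuousOn hK.continuousOn
  refine ⟨K + M, fun ω hω ω' hω' => ?_⟩
  have a : f ω - f ω' = ((1 - ω.2 : ℝ) : ℂ) * (g ω - g ω') + ((ω'.2 - ω.2 : ℝ) : ℂ) * g ω' := by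
    rw [e ω hω, e ω' hω']
    push_cast
    ring
  have b : ‖g ω - g ω'‖ ≤ K * (|ω.1 - ω'.1| + |ω.2 - ω'.2|) := by
    refine (hK.norm_sub_le hω hω').trans (mul_le_mul_of_nonneg_left ?_ K.2)
    exact max_le (le_add_of_nonneg_right (abs_nonneg _)) (le_add_of_nonneg_left (abs_nonneg _))
  have s0 : 0 ≤ 1 - ω.2 := sub_nonneg.2 hω.2.2
  have s1 : 1 - ω.2 ≤ 1 := sub_le_self _ hω.2.1
  have m0 : 0 ≤ M := (norm_nonneg _).trans (hM ω hω)
  have k0 : (0 : ℝ) ≤ K := K.2
  rw [a]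
  refine (norm_add_le _ _).trans ?_
  rw [norm_mul, norm_mul, norm_real, norm_real, Real.norm_of_nonneg s0, Real.norm_eq_abs,
    abs_sub_comm ω'.2]
  have c := mul_le_mul_of_nonneg_left b s0
  have d := mul_le_mul_of_nonneg_left (hM ω' hω') (abs_nonneg (ω.2 - ω'.2))
  have u := mul_nonneg m0 (mul_nonneg s0 (abs_nonneg (ω.1 - ω'.1)))
  have v := mul_le_mul_of_nonneg_left s1 (mul_nonneg k0 (abs_nonneg (ω.2 - ω'.2)))
  linarith

theorem d1 {z y' : ℂ} {y : ℝ → ℂ} {l s : ℝ} (h : HasDerivAt y y' l) (n : NN z (y l) s ≠ 0) :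
    HasDerivAt (fun l => (s : ℂ) * dl (y l) ^ 2 / NN z (y l) s ^ 2) ((1 - s : ℝ) *
      (2 * s * dl (y l) * (y' * (z - conj (y l)) - conj y' * (z - y l)) / NN z (y l) s ^ 3)) l := by
  have hb : HasDerivAt (fun l => conj (y l)) (conj y') l := h.star
  refine ((((h.fun_sub hb).fun_pow 2).const_mul (s : ℂ)).fun_div
    (((hb.const_sub z).fun_sub ((h.const_sub z).const_mul (s : ℂ))).fun_pow 2)
      (pow_ne_zero 2 n)).congr_deriv ?_
  unfold NN at n ⊢
  unfold dl
  push_cast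
  field_simp
  ring

theorem d2 {z y : ℂ} {s : ℝ} (n : NN z y s ≠ 0) :
    HasDerivAt (fun s : ℝ => (s : ℂ) * dl y ^ 2 / NN z y s ^ 2)
      (dl y ^ 2 * ((z - conj y) + s * (z - y)) / NN z y s ^ 3) s := by
  have h : HasDerivAt (fun s : ℝ => (s : ℂ)) 1 s := ofRealCLM.hasDerivAt
  refine ((h.mul_const (dl y ^ 2)).fun_div
    (((h.mul_const (z - y)).const_sub (z - conj y)).fun_pow 2) (pow_ne_zero 2 n)).congr_deriv ?_
  unfold NN at n ⊢
  push_cast
  field_simp
  ring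

theorem t0 (z y : ℂ) (s : ℝ) : HasDerivAt (fun t => NN t y s) (1 - s * 1) z :=
  ((hasDerivAt_id' z).sub_const (conj y)).fun_sub
    (((hasDerivAt_id' z).sub_const y).const_mul (s : ℂ))

theorem t1 {z y y' : ℂ} {s : ℝ} (n : NN z y s ≠ 0) :
    HasDerivAt (fun t => (y' * (t - conj y) ^ 2 - s * conj y' * (t - y) ^ 2) / NN t y s ^ 2)
      (2 * s * dl y * (y' * (z - conj y) - conj y' * (z - y)) / NN z y s ^ 3) z := by
  refine ((((((hasDerivAt_id' z).sub_const (conj y)).fun_pow 2).const_mul y').fun_sub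
    ((((hasDerivAt_id' z).sub_const y).fun_pow 2).const_mul (s * conj y'))).fun_div
      ((t0 z y s).fun_pow 2) (pow_ne_zero 2 n)).congr_deriv ?_
  push_cast
  field_simp
  unfold NN dl
  ring

theorem t2 {z y : ℂ} {s : ℝ} (n : NN z y s ≠ 0) :
    HasDerivAt (fun t => (t - y) * (t - conj y) * dl y / NN t y s ^ 2)
      (dl y ^ 2 * ((z - conj y) + s * (z - y)) / NN z y s ^ 3) z := by
  refine (((((hasDerivAt_id' z).sub_const y).fun_mul
    ((hasDerivAt_id' z).sub_const (conj y))).mul_const (dl y)).fun_div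
      ((t0 z y s).fun_pow 2) (pow_ne_zero 2 n)).congr_deriv ?_
  push_cast
  field_simp
  unfold NN dl
  ring

end NUx

open NUx in
theorem nu : NU_s := by
  intro H z p q ⟨hz, hp, hq, _⟩
  have hG := H.geo
  have n0 : ∀ ω ∈ csq, NN z (geo p q ω.1) ω.2 ≠ 0 := fun ω hω =>
    hG.nn_ne _ _ _ hz (hG.im p q _ hp hq hω.1) hω.2
  refine ⟨plip (fun ω hω => (sm hG hz hp hq hω).1) fun ω hω => fac (n0 ω hω), fun ω hω h => ?_,
    fun ω hω => ?_⟩
  · refine div_ne_zero (mul_ne_zero (ofReal_ne_zero.2 h.ne') (pow_ne_zero 2 fun e => ?_))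
      (pow_ne_zero 2 (n0 ω hω))
    have a := congrArg im e
    have b := hG.im p q _ hp hq hω.1
    simp only [dl, sub_im, conj_im, zero_im] at a
    linarith only [a, b]
  · have hω' : ω ∈ csq := ⟨Ioo_subset_Icc_self hω.1, Ioo_subset_Icc_self hω.2⟩
    have n := n0 ω hω'
    have h := ((sm hG hz hp hq hω').2.differentiableAt one_ne_zero)
    refine ⟨h, ?_⟩
    have a : HasDerivAt (fun l : ℝ => (l, ω.2)) (1, 0) ω.1 :=
      (hasDerivAt_id _).prodMk (hasDerivAt_const _ _)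
    have b : HasDerivAt (fun s : ℝ => (ω.1, s)) (0, 1) ω.2 :=
      (hasDerivAt_const _ _).prodMk (hasDerivAt_id _)
    have a₀ : HasDerivAt (fun l => (ω.2 : ℂ) * dl (geo p q l) ^ 2 / NN z (geo p q l) ω.2 ^ 2)
        (fderiv ℝ (Hd.nu z p q) ω (1, 0)) ω.1 := (h.hasFDerivAt.comp_hasDerivAt_of_eq ω.1 a rfl :)
    have b₀ : HasDerivAt (fun s : ℝ => (s : ℂ) * dl (geo p q ω.1) ^ 2 / NN z (geo p q ω.1) s ^ 2)
        (fderiv ℝ (Hd.nu z p q) ω (0, 1)) ω.2 := (h.hasFDerivAt.comp_hasDerivAt_of_eq ω.2 b rfl :)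
    have a' := a₀.unique (d1 ((gd hG hp hq hω'.1).differentiableAt one_ne_zero).hasDerivAt n)
    have b' := b₀.unique (d2 n)
    have s0 : (1 - ω.2 : ℝ) ≠ 0 := (sub_pos.2 hω.2.2).ne'
    have c : deriv (fun t => e1 t p q ω) z = r1 (Hd.nu z p q) ω := by
      rw [r1, h.lineDeriv_eq_fderiv, a', real_smul, ← mul_assoc, ← ofReal_mul, inv_mul_cancel₀ s0,
        ofReal_one, one_mul]
      exact (t1 n).deriv
    have d : deriv (fun t => e2 t p q ω) z = r2 (Hd.nu z p q) ω := by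
      rw [r2, h.lineDeriv_eq_fderiv, b']
      exact (t2 n).deriv
    rw [th2, c, d]

end Pool.Agent.MP_596265_gt.Hd.R

end
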