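import Pool.Agent.MP_596265_gt.W.R0
import Pool.Agent.MP_596265_gt.W.H1
import Pool.Agent.MP_596265_gt.W.L0

attribute [-instance] EuclideanDomain.toCommRing ProperSMul.toContinuousSMul RKHS.instFunLike
  AddSubgroup.seminormedAddCommGroup LeftPreLieAlgebra.toModule RightPreLieAlgebra.toModule
  NonarchimedeanAddGroup.toIsTopologicalAddGroup TotallySeparatedSpace.t2Space
  NonUnitalNormedRing.toNonUnitalSeminormedRing AddSubgroup.seminormedAddGroup
  SubringClass.toSeminormedRing CoalgHomClass.toSemilinearMapClass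
  AlgHom.instNonUnitalAlgHomClassOfAlgHomClass AddQuantale.instAddLeftMono
  SubringClass.toSeminormedCommRing Valued.toUniformSpace
  TopologicalSpace.instSecondCountableTopologyOfLindelofSpaceOfPseudoMetrizableSpace
  NonUnitalNonAssocSemiring.toAddCommMonoid littleWedderburn IsPurelyInseparable.isIntegral
  GrpTypeEquivalenceGrp.grpGroup NonUnitalNonAssocRing.toAddCommGroup
  NonarchimedeanRing.toIsTopologicalRing SemilinearIsometryClass.toSemilinearMapClass
  IsTopologicalTorsor.toContinuousSMul instNonUnitalAlgHomClassOfNonUnitalAlgEquivClass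
  NonUnitalNormedCommRing.toNonUnitalSeminormedCommRing IdemSemiring.toCanonicallyOrderedAdd
  RingHomClass.toLinearMapClassRat MonTypeEquivalenceMon.monMonoid NumberField.to_charZero
  FiniteDimensional.rclike_to_real MulSemiringAction.toDistribMulAction
  Module.Invertible.instFaithfulSMul ContinuousLinearMap.toNormedRing
  NonUnitalRing.toNonUnitalNonAssocRing continuousSub_of_discreteTopology
  Valued.isTopologicalDivisionRing covariant_swap_mul_of_covariant_mul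
  ContinuousLinearMap.toSeminormedRing NormedCommRing.toCommRing
  Group.IsPerfect.subsingleton_of_isMulCommutative CommGroup.toDivisionCommMonoid
  Algebra.IsFiniteSplit.instFree PolishSpace.toSecondCountableTopology IdemSemiring.toSemiring
  CStarAlgebra.instOrderClosedTopology FunLike.toDecidableEq Unique.instSubsingleton
  LinearOrderedCommMonoidWithZero.toPosMulStrictMono
  NonUnitalAlgSemiHomClass.toDistribMulActionSemiHomClass SemigroupWithZero.toSemigroup
  AddQuantale.instAddRightMono MonoidWithZero.toMulZeroOneClass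
  NonAssocSemiring.toAddCommMonoidWithOne LieAlgebra.toModule LieRing.toAddCommGroup
  IsValuativeTopology.instIsTopologicalAddGroup LieAdmissibleRing.toNonUnitalNonAssocRing
  SeminormedCommRing.toCommRing Algebra.WeaklyEtale.flat LinearOrder.toDecidableEq
  NonUnitalSubalgebraClass.nonUnitalSeminormedRing AddCommGroupWithOne.toAddGroupWithOne
  NonUnitalSemiring.toNonUnitalNonAssocSemiring
  MulSemiringActionSemiHomClass.toDistribMulActionSemiHomClass AddCommMonoidWithOne.toAddCommMonoid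
  IsIsometricSMul.to_continuousConstSMul Quantale.instMulRightMono
  IsStarProjection.instTrivialStarOfStarOrderedRing NonAssocCommSemiring.toNonAssocSemiring
  AlgHomClass.toRingHomClass

section

/-! Block R, row LIN: the holomorphic differential depends linearly on the cocycle. -/

namespace Pool.Agent.MP_596265_gt.Hd.R

open MeasureTheory Set Complex Metric Filter Topology
open scoped ComplexConjugate InnerProductSpace Matrix.Norms.Elementwise

namespace LINx

lemma sq_sub {ω : ℝ × ℝ} (h : ω ∈ sq) : ω ∈ csq := ⟨Ioo_subset_Icc_self h.1, Ioo_subset_Icc_self h.2⟩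

lemma ae_sq : ∀ᵐ ω ∂volume.restrict sq, ω ∈ sq :=
  ae_restrict_mem (measurableSet_Ioo.prod measurableSet_Ioo)

lemma uniq (hA : HA) {z p q : ℂ} (h : PosT z p q) {Q : ℂ → ℂ} (hQ : DifferentiableOn ℂ Q U.RG.HP)
    (h0 : ∀ᵐ ω ∂volume.restrict sq, (rj z p q ω : ℂ) * (dl (DD z p q ω) * Q (DD z p q ω)) = 0) :
    ∀ w ∈ U.RG.HP, Q w = 0 := by
  have h1 : ∀ᵐ w ∂volume.restrict (tri z p q), Q w = 0 := by
    refine (hA.cvp.ae z p q (fun w => Q w = 0) h).2 ?_
    filter_upwards [h0, ae_sq] with ω e hω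
    have hr : rj z p q ω ≠ 0 := (Real.sqrt_pos.2 (mul_pos (sub_pos.2 hω.2.2)
      (hA.gep.jpos z p q ω h (sq_sub hω)))).ne'
    have hi : 0 < (DD z p q ω).im :=
      ((hA.pol.img z p q h).subset (mem_image_of_mem _ (sq_sub hω))).1
    have hd : dl (DD z p q ω) ≠ 0 := fun e' => by
      have := congrArg Complex.im e'
      simp only [dl, sub_im, conj_im, sub_neg_eq_add, zero_im, add_self_eq_zero] at this
      linarith
    simpa [hr, hd] using e
  have hD : 0 < U.RG.cd z p q := by rw [U.RG.cd_hd]; exact h.2.2.2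
  have hs : U.RG.OF z p q ⊆ tri z p q := by rw [← U.RG.CF_tri]; exact U.RG.OF_sub_CF z p q
  have h2 : EqOn Q 0 (U.RG.OF z p q) :=
    Measure.eqOn_open_of_ae_eq (μ := volume) (ae_restrict_of_ae_restrict_of_subset hs h1)
      (U.RG.OF_open z p q) (hQ.continuousOn.mono fun _ hw => hw.1) continuousOn_const
  have hz : z ∈ U.RG.CF z p q := ⟨h.1, (U.RG.cd_left _ _).ge, by rw [U.RG.cd_cyc]; exact hD.le,
    (U.RG.cd_right _ _).ge⟩
  obtain ⟨w, hw⟩ := (U.RG.freq_OF h.1 h.2.1 h.2.2.1 hD hz).exists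
  exact (hQ.analyticOnNhd U.RG.HP_open).eqOn_zero_of_preconnected_of_eventuallyEq_zero
    U.RG.HP_convex.isPreconnected hw.1
    (eventually_of_mem ((U.RG.OF_open z p q).mem_nhds hw) h2)

variable {Dt : Type} [Fintype Dt] {nx rv : Dt → Dt} {g : Dt → G} {c : Dt → ℂ} {z : ℂ}

omit [Fintype Dt] in
lemma top (hA : HA) (hS : Star nx rv g c z) {a : HP Dt} {Q : ℂ → ℂ}
    (h : PD nx rv g c z a fun _ => Q) (d : Dt) : ∀ᵐ ω ∂volume.restrict sq,
      a d ω ttt = (rj z (c (nx (rv d))) (c d) ω : ℂ) *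
        (dl (Dd nx rv c z d ω) * Q (Dd nx rv c z d ω)) := by
  filter_upwards [h d, ae_sq] with ω e hω
  rcases FSx.str_sub hA.alg hA.tri hA.glue hS d
    ((hA.pol.img _ _ _ (FSx.str_pos hS d)).subset (mem_image_of_mem _ (sq_sub hω))) with h1 | h1
  · exact e.2.2.1 h1
  · exact e.2.2.2 h1

lemma zero (hA : HA) (hS : Star nx rv g c z) {a : HP Dt} {Q : ℂ → ℂ}
    (h : PD nx rv g c z a fun _ => Q) (h0 : ∀ w ∈ U.RG.HP, Q w = 0) : a = 0 := by
  refine PiLp.ext fun d => Lp.ext ?_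
  filter_upwards [h d, top hA hS h d, ae_sq, Lp.coeFn_zero E8 2 (volume.restrict sq)]
    with ω e e' hω e0
  have hi : Dd nx rv c z d ω ∈ U.RG.HP :=
    ((hA.pol.img _ _ _ (FSx.str_pos hS d)).subset (mem_image_of_mem _ (sq_sub hω))).1
  rw [h0 _ hi, mul_zero, mul_zero] at e'
  rw [PiLp.zero_apply, e0]
  ext k
  by_cases h1 : k = ttt
  · rw [h1, e']; rfl
  by_cases h2 : k = fff
  · rw [h2, e.2.1, e']; simp
  · rw [e.1 k h1 h2]; rfl

end LINx

open LINx in
theorem lin : LIN_s := by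
  intro hA hO Dt _ nx rv g z W hOk hV hW
  have hS := hA.inc.star nx rv g z hOk
  set c := incs nx g z
  obtain ⟨A, hH⟩ := hA.harm nx rv g c z hS
  have hF : ∀ v : W, A v = 0 → Fn nx rv g z v = 0 := fun v h => by
    rw [hA.eq.eq nx rv g c z v hS (hW v v.2).1.1, (hH v (hW v v.2).1.1).2.2.1, h]
    simp
  rcases isEmpty_or_nonempty Dt with hD | ⟨⟨d⟩⟩
  · exact ⟨0, fun v => ⟨differentiableOn_const 0, fun d => isEmptyElim d,
      fun _ => hF v (PiLp.ext fun d => isEmptyElim d)⟩⟩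
  have : Nonempty Dt := ⟨d⟩
  have ex : ∀ v : W, ∃ Q, DifferentiableOn ℂ Q U.RG.HP ∧ (∀ d, U.RG.QInv Q (g d)) ∧
      PD nx rv g c z (A v) fun _ => Q := fun v =>
    hO hA hS hV (hW v v.2).1 (hW v v.2).2 (A v)
      ⟨(hH v (hW v v.2).1.1).1, (hH v (hW v v.2).1.1).2.1⟩
  choose Q hQ hI hP using ex
  have hadd : ∀ v v' : W, ∀ w ∈ U.RG.HP, Q (v + v') w - (Q v w + Q v' w) = 0 := fun v v' => by
    refine uniq hA (FSx.str_pos hS d) ((hQ _).sub ((hQ v).add (hQ v'))) ?_
    filter_upwards [top hA hS (hP (v + v')) d, top hA hS (hP v) d, top hA hS (hP v') d,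
      Lp.coeFn_add (A v d) (A v' d)] with ω e1 e2 e3 e4
    rw [Submodule.coe_add, map_add, PiLp.add_apply, e4, Pi.add_apply, PiLp.add_apply, e2, e3] at e1
    simp only [Dd] at e1
    linear_combination -e1
  have hsm : ∀ (a : ℝ) (v : W), ∀ w ∈ U.RG.HP, Q (a • v) w - a * Q v w = 0 := fun a v => by
    refine uniq hA (FSx.str_pos hS d) ((hQ _).sub ((hQ v).const_mul _)) ?_
    have e0 : A (a • v : W) = (a : ℂ) • A v := by
      rw [← map_smul, Submodule.coe_smul, Complex.coe_smul]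
    filter_upwards [top hA hS (hP (a • v)) d, top hA hS (hP v) d,
      Lp.coeFn_smul (a : ℂ) (A v d)] with ω e1 e2 e4
    rw [e0, PiLp.smul_apply, e4, Pi.smul_apply, PiLp.smul_apply, e2, smul_eq_mul] at e1
    simp only [Dd] at e1
    linear_combination -e1
  refine ⟨⟨⟨fun v => U.RG.HP.indicator (Q v), fun v v' => funext fun w => ?_⟩,
    fun a v => funext fun w => ?_⟩, fun v => ⟨(hQ v).congr fun w hw => indicator_of_mem hw _,
      fun e w hw => ?_, fun h => hF v (zero hA hS (hP v) fun w hw => ?_)⟩⟩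
  · by_cases hw : w ∈ U.RG.HP
    · simp only [Pi.add_apply, indicator_of_mem hw]
      exact sub_eq_zero.1 (hadd v v' w hw)
    · simp [indicator_of_notMem hw]
  · by_cases hw : w ∈ U.RG.HP
    · simp only [Pi.smul_apply, indicator_of_mem hw, RingHom.id_apply, real_smul]
      exact sub_eq_zero.1 (hsm a v w hw)
    · simp [indicator_of_notMem hw]
  · change U.RG.HP.indicator (Q v) _ = _ * U.RG.HP.indicator (Q v) w
    rw [indicator_of_mem hw, indicator_of_mem (U.RG.mob_mem _ hw)]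
    exact hI v e w hw
  · rw [← indicator_of_mem hw (Q v)]
    exact h w hw

end Pool.Agent.MP_596265_gt.Hd.R

end

section

/-! Block R, row PART: the local identities add up to the vanishing of the part of type two. -/

namespace Pool.Agent.MP_596265_gt.Hd.R

open MeasureTheory Set Complex Metric Filter Topology
open scoped ComplexConjugate Manifold

noncomputable section

namespace PART

/-- Continuously differentiable on the upper half-plane. -/
def C1 (f : ℂ → ℂ) : Prop := ∀ w : ℂ, 0 < w.im → ContDiffAt ℝ 1 f w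

theorem nh {w : ℂ} (h : 0 < w.im) : ∀ᶠ u in 𝓝 w, 0 < u.im :=
  continuousAt_const.eventually_lt continuous_im.continuousAt h

theorem C1.add {f f' : ℂ → ℂ} (h : C1 f) (h' : C1 f') : C1 fun w => f w + f' w :=
  fun w hw => (h w hw).add (h' w hw)

theorem c1_mob (H : HA) (k : G) : C1 (mob k) := fun w hw => by
  have := H.alg.den_ne k w hw.ne'
  refine ContDiffAt.restrict_scalars ℝ (𝕜' := ℂ) ?_
  unfold mob
  unfold den at this ⊢
  fun_prop (disch := exact this)

theorem C1.mob (H : HA) {f : ℂ → ℂ} (h : C1 f) (k : G) : C1 fun w => f (mob k w) :=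
  fun w hw => (h _ (H.alg.mob_pos k w hw)).comp w (c1_mob H k w hw)

theorem C1.dif {f : ℂ → ℂ} (h : C1 f) {w : ℂ} (hw : 0 < w.im) : DifferentiableAt ℝ f w :=
  (h w hw).differentiableAt one_ne_zero

theorem ii_congr (x : E8) {f f' : ℂ → ℂ} {w : ℂ} (h : f =ᶠ[𝓝 w] f') : Ii x f w = Ii x f' w := by
  rw [Ii, Ii, dzb, dzb, h.fderiv_eq, h.eq_of_nhds]

theorem ii_const (x : E8) (c w : ℂ) :
    Ii x (fun _ => c) w = c * ((normSq (x ttf) + 2 * normSq (x tft) : ℝ) : ℂ) := by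
  simp [Ii, dzb]

theorem ii_add (x : E8) {f f' : ℂ → ℂ} {w : ℂ} (h : DifferentiableAt ℝ f w)
    (h' : DifferentiableAt ℝ f' w) : Ii x (fun u => f u + f' u) w = Ii x f w + Ii x f' w := by
  simp only [Ii, dzb, fderiv_fun_add h h', add_apply, smul_eq_mul]
  ring

theorem dzb_comp {F m : ℂ → ℂ} {w a : ℂ} (hm : HasDerivAt m a w) (h : DifferentiableAt ℝ F (m w)) :
    dzb (fun u => F (m u)) w = conj a * dzb F (m w) := by
  have := (h.hasFDerivAt.comp w (hm.hasFDerivAt.restrictScalars ℝ)).fderiv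
  have e : ∀ v : ℂ, fderiv ℝ F (m w) v =
      v.re * fderiv ℝ F (m w) 1 + v.im * fderiv ℝ F (m w) I := fun v => by
    conv_lhs => rw [show v = v.re • (1 : ℂ) + v.im • I by simp]
    rw [map_add, map_smul, map_smul]; rfl
  rw [dzb, dzb, show (fun u => F (m u)) = F ∘ m from rfl, this]
  simp only [ContinuousLinearMap.comp_apply, ContinuousLinearMap.coe_restrictScalars',
    ContinuousLinearMap.toSpanSingleton_apply, smul_eq_mul]
  rw [e (1 * a), e (I * a), show conj a = a.re - a.im * I by apply Complex.ext <;> simp]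
  simp only [one_mul, mul_re, I_re, zero_mul, I_im, zero_sub, mul_im, zero_add, ofReal_neg]
  linear_combination (a.im * (fderiv ℝ F (m w) I) / 2) * I_mul_I

theorem ii_mob (H : HA) (k : G) {x y : E8} {F : ℂ → ℂ} {w : ℂ} (hw : 0 < w.im) (hF : C1 F)
    (h : ∀ i, x i = ph k w i * y i) :
    Ii x F (mob k w) / (normSq (den k w) ^ 2 : ℝ) = Ii y (fun u => F (mob k u)) w := by
  have j := H.alg.den_ne k w hw.ne'
  have j' : conj (den k w) ≠ 0 := (map_ne_zero _).2 j
  have n : ((normSq (den k w) : ℝ) : ℂ) = den k w * conj (den k w) := (mul_conj _).symm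
  have d1 : ∀ u : ℂ, dl u = 2 * (u.im : ℂ) * I := fun u => by rw [dl, sub_conj]; push_cast; ring
  have n1 : ∀ i, normSq (ph k w i) = normSq (den k w) ^ 2 := fun i => by
    rw [normSq_eq_norm_sq, H.alg.ph_norm k w i hw.ne']
  rw [Ii, Ii, dzb_comp (H.alg.mob_der k w hw.ne') (hF.dif (H.alg.mob_pos k w hw)), h, h, map_mul,
    map_mul, n1, n1, d1, d1, H.alg.mob_im]
  simp only [ph, pt, H.alg.den_conj, Bool.not_false, Bool.not_true, if_true, Bool.false_eq_true,
    if_false, map_mul, map_div₀, map_pow, map_inv₀, conj_conj]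
  push_cast
  rw [n]
  field_simp

theorem bump {K U : Set ℂ} (hK : IsCompact K) (hU : IsOpen U) (h : K ⊆ U) :
    ∃ κ : ℂ → ℂ, ContDiff ℝ 1 κ ∧ HasCompactSupport κ ∧ tsupport κ ⊆ U ∧
      ∀ w ∈ K, κ =ᶠ[𝓝 w] fun _ => 1 := by
  obtain ⟨L, a, b, c⟩ := exists_compact_between hK hU h
  obtain ⟨f, f1, f0, -⟩ :=
    exists_contMDiffMap_one_nhds_of_subset_interior (n := 1) 𝓘(ℝ, ℂ) hK.isClosed b
  have t : tsupport (fun w => (f w : ℂ)) ⊆ L :=
    closure_minimal (fun w hw => by_contra fun e => hw (by simp [f0 w e])) a.isClosed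
  refine ⟨fun w => f w, ofRealCLM.contDiff.comp f.contMDiff.contDiff,
    a.of_isClosed_subset (isClosed_tsupport _) t, t.trans c, fun w hw => ?_⟩
  filter_upwards [f1.filter_mono (nhds_le_nhdsSet hw)] with u hu
  simp [hu]

/-- A function cut off inside an open subset of the upper half-plane. -/
theorem cut {O : Set ℂ} {κ f : ℂ → ℂ} (h1 : ContDiff ℝ 1 κ) (h2 : HasCompactSupport κ)
    (h3 : tsupport κ ⊆ O) (hU : ∀ w ∈ O, 0 < w.im) (hf : C1 f) :
    U.RD.Test O (fun w => κ w * f w) ∧ C1 fun w => κ w * f w := by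
  have t : tsupport (fun w => κ w * f w) ⊆ tsupport κ := tsupport_mul_subset_left
  have c : ContDiff ℝ 1 fun w => κ w * f w := contDiff_iff_contDiffAt.2 fun w => by
    by_cases hw : w ∈ tsupport κ
    · exact h1.contDiffAt.mul (hf w (hU w (h3 hw)))
    · exact contDiffAt_const.congr_of_eventuallyEq
        (notMem_tsupport_iff_eventuallyEq.1 fun e => hw (t e))
  exact ⟨⟨c.lipschitzWith_of_hasCompactSupport h2.mul_right one_ne_zero, h2.mul_right, t.trans h3⟩,
    fun w _ => c.contDiffAt⟩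

theorem integ {K : Set ℂ} (hK : IsCompact K) (h : ∀ w ∈ K, 0 < w.im)
    (x : Lp E8 2 (volume.restrict K)) {f : ℂ → ℂ} (hf : C1 f) :
    IntegrableOn (fun w => Ii (x w) f w) K := by
  have m : ∀ k, MemLp (fun w => x w k) 2 (volume.restrict K) := fun k =>
    (EuclideanSpace.proj (𝕜 := ℂ) k).comp_memLp' (Lp.memLp x)
  have p : ∀ k l, IntegrableOn (fun w => conj (x w k) * x w l) K := fun k l =>
    (m k).star.integrable_mul (m l)
  have c : ContinuousOn f K := fun w hw => (hf w (h w hw)).continuousAt.continuousWithinAt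
  have c' : ContinuousOn (fun w => dl w * dzb f w) K := fun w hw => by
    have := (hf w (h w hw)).continuousAt_fderiv one_ne_zero
    unfold dl dzb
    refine ContinuousAt.continuousWithinAt ?_
    fun_prop
  refine (IntegrableOn.add (IntegrableOn.continuousOn_mul c
    ((p ttf ttf).add ((p tft tft).const_mul 2)) hK) ((p ttf tft).mul_continuousOn c' hK)).congr_fun
    (fun w _ => ?_) hK.measurableSet
  simp only [Ii, Pi.add_apply]
  push_cast
  rw [normSq_eq_conj_mul_self, normSq_eq_conj_mul_self]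
  ring

variable {Dt : Type} [Fintype Dt] {nx rv : Dt → Dt} {g : Dt → G} {z : ℂ}

theorem mob_pm (H : HA) {k : G} (h : k = 1 ∨ k = -1) (w : ℂ) : mob k w = w := by
  rcases h with rfl | rfl
  · exact H.alg.mob_one w
  · rw [H.alg.mob_neg, H.alg.mob_one]

theorem mob_inv (H : HA) (k : G) {w : ℂ} (h : 0 < w.im) : mob k⁻¹ (mob k w) = w := by
  rw [← H.alg.mob_mul _ _ _ h.ne', inv_mul_cancel, H.alg.mob_one]

theorem mob_inv' (H : HA) (k : G) {w : ℂ} (h : 0 < w.im) : mob k (mob k⁻¹ w) = w := by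
  rw [← H.alg.mob_mul _ _ _ h.ne', mul_inv_cancel, H.alg.mob_one]

omit [Fintype Dt] in
theorem posT (H : HA) (h : Ok nx rv g z) (d : Dt) :
    PosT z (mob (g d) z) (mob (g d * g (nx d)) z) :=
  ⟨h.im, H.alg.mob_pos _ _ h.im, H.alg.mob_pos _ _ h.im, h.pos d⟩

omit [Fintype Dt] in
theorem vert (H : HA) (h : Ok nx rv g z) (d : Dt) :
    mob (g d) (mob (g (nx d)) z) = mob (g d * g (nx d)) z ∧
      mob (g d) (mob (g (nx d) * g (nx (nx d))) z) = z := by
  rw [← H.alg.mob_mul _ _ _ h.im.ne', ← H.alg.mob_mul _ _ _ h.im.ne', ← mul_assoc]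
  exact ⟨rfl, mob_pm H (h.gf d) z⟩

omit [Fintype Dt] in
theorem face_eq (H : HA) (h : Ok nx rv g z) (d : Dt) : face nx g z d =
    tri (mob (g d) z) (mob (g d) (mob (g (nx d)) z))
      (mob (g d) (mob (g (nx d) * g (nx (nx d))) z)) := by
  rw [(vert H h d).1, (vert H h d).2, face, H.tri.tri_rot]

/-- Families of functions with vanishing total integral. -/
def N (x : HT nx g z) (f : Dt → ℂ → ℂ) : Prop :=
  (∀ d, C1 (f d)) ∧ ∑ d, ∫ w in face nx g z d, Ii (x d w) (f d) w = 0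

variable {x : HT nx g z} {f f' : Dt → ℂ → ℂ}

omit [Fintype Dt] in
theorem itg (H : HA) (h : Ok nx rv g z) (d : Dt) {F : ℂ → ℂ} (hF : C1 F) :
    IntegrableOn (fun w => Ii (x d w) F w) (face nx g z d) :=
  integ (H.tri.cpt _ _ _ (posT H h d)) (fun _ hw => hw.1) (x d) hF

omit [Fintype Dt] in
theorem int_add (H : HA) (h : Ok nx rv g z) (d : Dt) {F F' : ℂ → ℂ} (a : C1 F) (b : C1 F') :
    ∫ w in face nx g z d, Ii (x d w) (fun u => F u + F' u) w =
      (∫ w in face nx g z d, Ii (x d w) F w) + ∫ w in face nx g z d, Ii (x d w) F' w := by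
  rw [← integral_add (itg H h d a) (itg H h d b)]
  exact setIntegral_congr_fun (H.tri.cpt _ _ _ (posT H h d)).measurableSet fun w hw =>
    ii_add _ (a.dif hw.1) (b.dif hw.1)

theorem N.add (H : HA) (h : Ok nx rv g z) (a : N x f) (b : N x f') :
    N x fun d w => f d w + f' d w :=
  ⟨fun d => (a.1 d).add (b.1 d), by
    rw [Finset.sum_congr rfl fun d _ => int_add H h d (a.1 d) (b.1 d), Finset.sum_add_distrib,
      a.2, b.2, add_zero]⟩

theorem N.congr (H : HA) (h : Ok nx rv g z) (a : N x f) (b : ∀ d, C1 (f' d))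
    (e : ∀ d, ∀ w ∈ face nx g z d, f d w = f' d w) : N x f' :=
  ⟨b, Eq.trans (Finset.sum_congr rfl fun d _ => integral_congr_ae (by
    filter_upwards [H.tri.nhd _ _ _ (posT H h d)] with w hw
    exact ii_congr _ (by filter_upwards [hw] with u hu using (e d u hu).symm))) a.2⟩

theorem N.rot (H : HA) (h : Ok nx rv g z) (hx : RotS nx g z x) (a : N x f) :
    N x fun d w => f (nx d) (mob (g d)⁻¹ w) := by
  refine ⟨fun d => (a.1 _).mob H _, Eq.trans ?_ a.2⟩
  have bj : Function.Bijective nx := Finite.injective_iff_bijective.1 fun d d' e => by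
    rw [← h.n3 d, e, h.n3]
  refine Fintype.sum_bijective nx bj _ _ fun d => ?_
  have := (H.tra.cv (g d) _ _ _ (fun w => Ii (x d w) (fun w => f (nx d) (mob (g d)⁻¹ w)) w)
    (posT H h (nx d))).1
  rw [← face_eq H h d] at this
  refine this.trans (integral_congr_ae ?_)
  filter_upwards [hx d, ae_restrict_mem (H.tri.cpt _ _ _ (posT H h (nx d))).measurableSet]
    with w a1 a2
  rw [ii_mob H _ a2.1 ((a.1 _).mob H _) a1]
  exact ii_congr _ (by filter_upwards [nh a2.1] with u hu using by rw [mob_inv H _ hu])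

theorem N.edge (H : HA) (hU : UG_s) (h : Ok nx rv g z) (hx : LocI nx rv g z x)
    (a : ∀ d, U.RD.Test (UU nx rv g z d) (f d) ∧ C1 (f d)) :
    N x fun d w => f d w + f (rv (nx (nx d))) w := by
  refine ⟨fun d => (a _).2.add (a _).2, ?_⟩
  have bj : Function.Bijective fun d => nx (rv d) :=
    Finite.injective_iff_bijective.1 fun d d' e => by
      have : nx (nx (nx (rv d))) = nx (nx (nx (rv d'))) := congrArg (fun t => nx (nx t)) e
      rw [← h.r2 d, ← h.n3 (rv d), this, h.n3, h.r2]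
  rw [Finset.sum_congr rfl fun d _ => int_add H h d (a _).2 (a _).2, Finset.sum_add_distrib,
    ← Fintype.sum_bijective _ bj
      (fun d => ∫ w in face nx g z (nx (rv d)), Ii (x (nx (rv d)) w) (f d) w)
      (fun d => ∫ w in face nx g z d, Ii (x d w) (f (rv (nx (nx d)))) w) fun d => by rw [h.n3, h.r2], ← Finset.sum_add_distrib]
  refine Finset.sum_eq_zero fun d _ => ?_
  rw [← (hU H h d).2.2.2.2.2.2.2.2.2.2 _ _ (itg H h d (a d).2) (itg H h _ (a d).2) fun w hw => by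
    have := notMem_tsupport_iff_eventuallyEq.1 fun e => hw ((a d).1.2.2 e)
    rw [ii_congr _ this, ii_congr _ this]
    exact ⟨(ii_const _ 0 w).trans (zero_mul _), (ii_const _ 0 w).trans (zero_mul _)⟩,
    ← hx d _ (a d).1]
  exact congrArg _ (funext fun w => (apply_ite (fun y => Ii y (f d) w) _ _ _).symm)

theorem N.one (H : HA) (h : Ok nx rv g z) (a : N x fun _ _ => 1) : NoTwo nx g z x := by
  have i : ∀ d, IntegrableOn (fun w => normSq (x d w ttf) + 2 * normSq (x d w tft))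
      (face nx g z d) := fun d => by
    simpa only [ii_const, one_mul, RCLike.re_to_complex, ofReal_re, IntegrableOn] using
      (itg (x := x) H h d (a.1 d)).re
  have p : ∀ d w, 0 ≤ normSq (x d w ttf) + 2 * normSq (x d w tft) := fun d w =>
    add_nonneg (normSq_nonneg _) (mul_nonneg zero_le_two (normSq_nonneg _))
  have s := a.2
  simp only [ii_const, one_mul, integral_complex_ofReal] at s
  rw [← ofReal_sum, ofReal_eq_zero,
    Finset.sum_eq_zero_iff_of_nonneg fun d _ => integral_nonneg (p d)] at s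
  intro d
  filter_upwards [(integral_eq_zero_iff_of_nonneg (p d) (i d)).1 (s d (Finset.mem_univ _))]
    with w hw
  have b1 := normSq_nonneg (x d w ttf)
  have b2 := normSq_nonneg (x d w tft)
  change _ = (0 : ℝ) at hw
  exact ⟨normSq_eq_zero.1 (by linarith), normSq_eq_zero.1 (by linarith)⟩

/-! Geometry -/

theorem hd_swap (a b w : ℂ) : hd b a w = -hd a b w := by unfold hd; ring
theorem hd_rot (a b w : ℂ) : hd b w a = hd a b w := by unfold hd; ring
theorem hd_r (a b : ℂ) : hd a b b = 0 := by unfold hd; ring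
theorem hd_l (a b : ℂ) : hd a b a = 0 := by unfold hd; ring
theorem cont_hd (a b : ℂ) : Continuous (hd a b) := by unfold hd; fun_prop

theorem hd_zero (H : HA) (k : G) {p q r : ℂ} (a : 0 < p.im) (b : 0 < q.im) (c : 0 < r.im) :
    hd (mob k p) (mob k q) (mob k r) = 0 ↔ hd p q r = 0 := by
  rw [H.tri.hd_mob k p q r a.ne' b.ne' c.ne', div_eq_zero_iff, or_iff_left]
  simp [H.alg.den_ne k _ a.ne', H.alg.den_ne k _ b.ne', H.alg.den_ne k _ c.ne']

variable (nx g z) in
/-- The second side. -/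
def sb (d : Dt) (w : ℂ) : ℝ := hd (mob (g d) z) (mob (g d * g (nx d)) z) w
variable (nx g z) in
/-- The third side. -/
def sc (d : Dt) (w : ℂ) : ℝ := hd (mob (g d * g (nx d)) z) z w

omit [Fintype Dt] in
theorem turn (H : HA) (h : Ok nx rv g z) (d : Dt) {w : ℂ} (hw : w ∈ face nx g z d) :
    mob (g d)⁻¹ w ∈ face nx g z (nx d) ∧
      (sc nx g z (nx d) (mob (g d)⁻¹ w) = 0 ↔ sd g z d w = 0) ∧
      (sd g z (nx d) (mob (g d)⁻¹ w) = 0 ↔ sb nx g z d w = 0) ∧
      (sb nx g z (nx d) (mob (g d)⁻¹ w) = 0 ↔ sc nx g z d w = 0) := by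
  obtain ⟨a, b, c, -⟩ := posT H h (nx d)
  have e := H.alg.mob_pos (g d)⁻¹ w hw.1
  have i := mob_inv' H (g d) hw.1
  obtain ⟨v1, v2⟩ := vert H h d
  refine ⟨(H.tri.tri_mob (g d) _ _ _ _ a b c e).1 (by rwa [← face_eq H h d, i]), ?_, ?_, ?_⟩
  · rw [sc, ← hd_zero H (g d) c a e, v2, i, sd]
  · rw [sd, ← hd_zero H (g d) a b e, v1, i, sb]
  · rw [sb, ← hd_zero H (g d) b c e, v1, v2, i, sc]

omit [Fintype Dt] in
theorem out1 {d : Dt} {w : ℂ} (hw : w ∈ face nx g z d)
    (e : sb nx g z d w = 0 ∨ sc nx g z d w = 0) : w ∉ UU nx rv g z d := fun a =>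
  e.elim (a.2.1 hw.2.1).1.ne' (a.2.1 hw.2.1).2.ne'

omit [Fintype Dt] in
theorem back (H : HA) (h : Ok nx rv g z) (d : Dt) :
    mob (g (rv (nx (nx d)))) z = mob (g d * g (nx d)) z := by
  have a := mob_pm H (h.gf d) (mob (g (rv (nx (nx d)))) z)
  rw [← H.alg.mob_mul _ _ _ h.im.ne', mul_assoc, H.alg.mob_mul _ _ _ h.im.ne',
    mob_pm H (h.gr _)] at a
  exact a.symm

omit [Fintype Dt] in
theorem out2 (H : HA) (h : Ok nx rv g z) {d : Dt} {w : ℂ} (hw : w ∈ face nx g z d)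
    (e : sd g z d w = 0 ∨ sb nx g z d w = 0) : w ∉ UU nx rv g z (rv (nx (nx d))) := fun a => by
  have := a.2.2 (by rw [sd, back H h, hd_swap]; exact neg_nonpos.2 hw.2.2.2)
  rw [h.r2, h.n3, back H h] at this
  exact e.elim this.1.ne' this.2.ne'

theorem pull (H : HA) (k : G) {F F' : ℂ → ℂ} {w : ℂ} (hw : 0 < w.im)
    (e : F =ᶠ[𝓝 (mob k w)] F') : (fun u => F (mob k u)) =ᶠ[𝓝 w] fun u => F' (mob k u) :=
  (c1_mob H k w hw).continuousAt.tendsto.eventually e

theorem van {F : ℂ → ℂ} {O : Set ℂ} {w : ℂ} (h : tsupport F ⊆ O) (hw : w ∉ O) :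
    F =ᶠ[𝓝 w] fun _ => 0 := notMem_tsupport_iff_eventuallyEq.1 fun e => hw (h e)

/-- The functions along the edges. -/
theorem edges (H : HA) (hU : UG_s) (h : Ok nx rv g z) {β : ℂ → ℂ} (b1 : C1 β)
    (b2 : β =ᶠ[𝓝 z] fun _ => 1) (b3 : ∀ d w, sb nx g z d w = 0 → β =ᶠ[𝓝 w] fun _ => 0) :
    ∃ ψ : Dt → ℂ → ℂ, (∀ d, U.RD.Test (UU nx rv g z d) (ψ d) ∧ C1 (ψ d)) ∧
      ∀ d, ∀ w ∈ face nx g z d, sd g z d w = 0 → ∀ᶠ u in 𝓝 w,
        β u + ψ d u + (β (mob (g d)⁻¹ u) + ψ (rv d) (mob (g d)⁻¹ u)) = 1 := by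
  let R : Dt → ℂ → ℂ := fun d u => (1 - β u - β (mob (g d)⁻¹ u)) / 2
  have cR : ∀ d, C1 (R d) := fun d w hw =>
    ((contDiffAt_const.sub (b1 w hw)).sub (b1.mob H _ w hw)).div_const 2
  have gi : ∀ d u, 0 < u.im → mob (g (rv d))⁻¹ (mob (g d)⁻¹ u) = u := fun d u hu => by
    rw [← H.alg.mob_mul _ _ _ hu.ne', ← mul_inv_rev]
    refine mob_pm H ((h.gr d).imp (fun e => by rw [e, inv_one]) fun e => ?_) u
    rw [e]; exact inv_eq_of_mul_eq_one_right (by simp)
  have eR : ∀ d u, 0 < u.im → R (rv d) (mob (g d)⁻¹ u) = R d u := fun d u hu => by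
    simp only [R, gi d u hu]; ring
  have sg : ∀ d w, w ∈ seg z (mob (g d) z) ↔ w ∈ face nx g z d ∧ sd g z d w = 0 := fun d w =>
    ⟨fun a => ⟨H.tri.seg_sub _ _ _ (posT H h d) a, (H.tri.seg_iff _ _ _ _ (posT H h d)
      (H.tri.seg_sub _ _ _ (posT H h d) a)).1 a⟩,
      fun a => (H.tri.seg_iff _ _ _ _ (posT H h d) a.1).2 a.2⟩
  have hK : ∀ d, ∃ κ : ℂ → ℂ, ContDiff ℝ 1 κ ∧ HasCompactSupport κ ∧
      tsupport κ ⊆ UU nx rv g z d ∧ ∀ w ∈ (face nx g z d ∩ {w | sd g z d w = 0}) ∩ tsupport (R d),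
        κ =ᶠ[𝓝 w] fun _ => 1 := fun d => by
    refine bump (((H.tri.cpt _ _ _ (posT H h d)).inter_right
      (isClosed_eq (cont_hd _ _) continuous_const)).inter_right (isClosed_tsupport _))
      (hU H h d).1 ?_
    rintro w ⟨⟨a1, a2⟩, a3⟩
    obtain ⟨t1, t2, -, -⟩ := turn H h d a1
    obtain ⟨t3, -, -, t4⟩ := turn H h (nx d) t1
    by_contra hn
    refine notMem_tsupport_iff_eventuallyEq.2 ?_ a3
    rcases (hU H h d).2.2.2.2.2.2.1 w a1 with rfl | e | e | e | e | e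
    · have : sb nx g w (nx d) (mob (g d)⁻¹ w) = 0 := by
        rw [(turn H h d a1).2.2.2, sc, hd_r]
      filter_upwards [b2, pull H _ a1.1 (b3 _ _ this)] with u u1 u2
      simp [R, u1, u2]
    · filter_upwards [b3 d w (by rw [e, sb, hd_l]),
        pull H (g d)⁻¹ a1.1 (F := β) (F' := fun _ => 1) (by rw [e, mob_inv H _ h.im]; exact b2)] with u u1 u2
      simp [R, u1, u2]
    · exact absurd (e ▸ a2 : sd g z d _ = 0) (h.pos d).ne'
    · exact absurd e hn
    · exact absurd e (out1 t1 (.inr (t2.2 a2)))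
    · rw [mul_inv_rev, H.alg.mob_mul _ _ _ a1.1.ne'] at e
      exact absurd e (out1 t3 (.inl (t4.2 (t2.2 a2))))
  choose κ k1 k2 k3 k4 using hK
  refine ⟨fun d u => κ d u * R d u, fun d => cut (k1 d) (k2 d) (k3 d) (fun _ a => a.1) (cR d),
    fun d w a1 a2 => ?_⟩
  have fin : (∀ᶠ u in 𝓝 w, R d u = 0 ∨ (κ d u = 1 ∧ κ (rv d) (mob (g d)⁻¹ u) = 1)) := by
    by_cases a3 : w ∈ tsupport (R d)
    · have e := H.alg.mob_pos (g d)⁻¹ w a1.1
      have a4 : mob (g d)⁻¹ w ∈ seg z (mob (g (rv d)) z) := by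
        rw [← H.tri.seg_mob (g d) _ _ _ h.im (H.alg.mob_pos _ _ h.im) e, mob_inv' H _ a1.1,
          ← H.alg.mob_mul _ _ _ h.im.ne', mob_pm H (h.gr d), H.tri.seg_symm]
        exact (sg d w).2 ⟨a1, a2⟩
      have a5 : mob (g d)⁻¹ w ∈ tsupport (R (rv d)) := by_contra fun c =>
        notMem_tsupport_iff_eventuallyEq.2 (by
          filter_upwards [nh a1.1, pull H _ a1.1 (notMem_tsupport_iff_eventuallyEq.1 c)]
            with u u1 u2 using (eR d u u1).symm.trans u2) a3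
      filter_upwards [k4 d w ⟨⟨a1, a2⟩, a3⟩, pull H _ a1.1 (k4 _ _ ⟨(sg _ _).1 a4, a5⟩)]
        with u u1 u2 using .inr ⟨u1, u2⟩
    · filter_upwards [notMem_tsupport_iff_eventuallyEq.1 a3] with u u1 using .inl u1
  filter_upwards [fin, nh a1.1] with u u1 u2
  rw [eR d u u2]
  have : β u + β (mob (g d)⁻¹ u) = 1 - 2 * R d u := by simp only [R]; ring
  rcases u1 with e | ⟨e, e'⟩
  · rw [e] at this ⊢; linear_combination this
  · rw [e, e']; linear_combination this

end PART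

open PART in
theorem part : PART_s := by
  intro H hU Dt _ nx rv g z h x hR hL ⟨ρ, hρ, hV⟩
  obtain ⟨β, b0, -, b1, b2⟩ := bump (isCompact_singleton (x := z))
    (isOpen_ball.inter (isOpen_iInter_of_finite fun d =>
      isOpen_lt continuous_const (cont_hd (mob (g d) z) (mob (g d * g (nx d)) z))))
    (singleton_subset_iff.2 ⟨mem_ball_self hρ, mem_iInter.2 fun d =>
      (h.pos d).trans_eq (hd_rot _ _ _).symm⟩)
  have cβ : C1 β := fun _ _ => b0.contDiffAt
  have b3 : ∀ d w, sb nx g z d w = 0 → β =ᶠ[𝓝 w] fun _ => 0 := fun d w e =>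
    van b1 fun a => (mem_iInter.1 a.2 d).out.ne' e
  obtain ⟨ψ, p1, p2⟩ := edges H hU h cβ (b2 z rfl) b3
  have nY := N.add H h (x := x) (f := fun _ => β)
    ⟨fun _ => cβ, hV β b0 (b1.trans inter_subset_left)⟩ (N.edge H hU h hL p1)
  have nS := nY.add H h ((nY.add H h (nY.rot H h hR)).rot H h hR)
  set Y : Dt → ℂ → ℂ := fun d w => β w + (ψ d w + ψ (rv (nx (nx d))) w) with hY
  set S : Dt → ℂ → ℂ := fun d w => Y d w + (Y (nx d) (mob (g d)⁻¹ w) +
    Y (nx (nx d)) (mob (g (nx d))⁻¹ (mob (g d)⁻¹ w))) with hS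
  change N x S at nS
  have eS : ∀ d u, 0 < u.im → S (nx d) (mob (g d)⁻¹ u) = S d u := fun d u hu => by
    have : mob (g (nx (nx d)))⁻¹ (mob (g (nx d))⁻¹ (mob (g d)⁻¹ u)) = u := by
      rw [← H.alg.mob_mul _ _ _ hu.ne', ← H.alg.mob_mul _ _ _ hu.ne', ← mul_inv_rev,
        ← mul_inv_rev]
      refine mob_pm H ((h.gf d).imp (fun e => by rw [e, inv_one]) fun e => ?_) u
      rw [e]; exact inv_eq_of_mul_eq_one_right (by simp)
    simp only [hS, this, h.n3]
    ring
  let K : Dt → Set ℂ := fun d => face nx g z d ∩ tsupport fun u => 1 - S d u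
  have k1 : ∀ d, ∀ w ∈ K d, mob (g d)⁻¹ w ∈ K (nx d) := fun d w a =>
    ⟨(turn H h d a.1).1, by_contra fun c => notMem_tsupport_iff_eventuallyEq.2 (by
      filter_upwards [nh a.1.1, pull H _ a.1.1 (notMem_tsupport_iff_eventuallyEq.1 c)]
        with u u1 u2 using by rw [← eS d u u1]; exact u2) a.2⟩
  have k2 : ∀ d, ∀ w ∈ K d, sd g z d w ≠ 0 := fun d w a e => by
    obtain ⟨t1, t2, -, -⟩ := turn H h d a.1
    obtain ⟨t3, -, -, t4⟩ := turn H h (nx d) t1
    have s1 := t2.2 e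
    have s2 := t4.2 s1
    have i1 := H.alg.mob_pos (g d)⁻¹ w a.1.1
    refine notMem_tsupport_iff_eventuallyEq.2 ?_ a.2
    filter_upwards [p2 d w a.1 e, van (p1 _).1.2.2 (out2 H h a.1 (.inl e)),
      pull H _ a.1.1 (van (p1 _).1.2.2 (out1 t1 (.inr s1))),
      pull H _ a.1.1 (pull H _ i1 (b3 _ _ s2)),
      pull H _ a.1.1 (pull H _ i1 (van (p1 _).1.2.2 (out1 t3 (.inl s2)))),
      pull H _ a.1.1 (pull H _ i1 (van (p1 _).1.2.2 (out2 H h t3 (.inr s2))))]
      with u u1 u2 u3 u4 u5 u6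
    simp only [hS, hY, h.n3, Pi.zero_apply] at u6 ⊢
    linear_combination -u1 - u2 - u3 - u4 - u5 - u6
  let O : Dt → Set ℂ := fun d =>
    {w | 0 < w.im ∧ 0 < sd g z d w ∧ 0 < sb nx g z d w ∧ 0 < sc nx g z d w}
  have hK : ∀ d, ∃ κ : ℂ → ℂ, ContDiff ℝ 1 κ ∧ HasCompactSupport κ ∧ tsupport κ ⊆ O d ∧
      ∀ w ∈ K d, κ =ᶠ[𝓝 w] fun _ => 1 := fun d => by
    refine bump ((H.tri.cpt _ _ _ (posT H h d)).inter_right (isClosed_tsupport _))
      ((isOpen_lt continuous_const continuous_im).inter ((isOpen_lt continuous_const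
        (cont_hd _ _)).inter ((isOpen_lt continuous_const (cont_hd _ _)).inter
          (isOpen_lt continuous_const (cont_hd _ _))))) fun w a => ?_
    have s : ∀ d, ∀ w ∈ K d, sb nx g z d w ≠ 0 := fun d w a e =>
      k2 _ _ (k1 d w a) ((turn H h d a.1).2.2.1.2 e)
    exact ⟨a.1.1, a.1.2.1.lt_of_ne' (k2 d w a), a.1.2.2.1.lt_of_ne' (s d w a),
      a.1.2.2.2.lt_of_ne' fun e => s _ _ (k1 d w a) ((turn H h d a.1).2.2.2.2 e)⟩
  choose κ c1 c2 c3 c4 using hK
  have nφ := N.edge H hU h hL (f := fun d u => κ d u * (1 - S d u)) fun d =>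
    cut (c1 d) (c2 d) ((c3 d).trans fun w a => ⟨a.1, fun _ => a.2.2, fun e => absurd a.2.1 e.not_gt⟩)
      (fun _ a => a.1) fun w hw => contDiffAt_const.sub (nS.1 d w hw)
  refine N.one H h ((nS.add H h nφ).congr H h (fun _ _ _ => contDiffAt_const) fun d w a => ?_)
  have e0 : κ (rv (nx (nx d))) w = 0 := (van (c3 _) fun b => b.2.1.not_ge
    ((hU H h _).2.2.2.2.2.1 w (by rwa [h.r2, h.n3]))).eq_of_nhds
  by_cases b : w ∈ tsupport fun u => 1 - S d u
  · rw [e0, (c4 d w ⟨a, b⟩).eq_of_nhds]; ring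
  · have := (notMem_tsupport_iff_eventuallyEq.1 b).eq_of_nhds
    rw [e0]
    change _ = (0 : ℂ) at this
    linear_combination (κ d w - 1) * this

end

end Pool.Agent.MP_596265_gt.Hd.R

end

section

namespace Pool.Agent.MP_596265_gt.Hd.R

open MeasureTheory Set Complex Metric Filter Topology
open scoped ComplexConjugate InnerProductSpace Matrix.Norms.Elementwise

namespace REPx

theorem pr_adj (H : HA) (q : ℕ) (u w : E8) : ⟪pr q u, w⟫_ℂ = ⟪u, pr q w⟫_ℂ := by
  simp only [PiLp.inner_apply, pr, H.alg.dg_apply]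
  refine Finset.sum_congr rfl fun k _ => ?_
  split_ifs <;> simp

theorem prT_adj (H : HA) {Dt : Type} [Fintype Dt] {nx : Dt → Dt} {g z} (q : ℕ) (b x : HT nx g z) :
    ⟪prT nx g z q b, x⟫_ℂ = ⟪b, prT nx g z q x⟫_ℂ := by
  simp only [PiLp.inner_apply, prT, H.mul.dia_apply, L2.inner_def]
  refine Finset.sum_congr rfl fun d _ => integral_congr_ae ?_
  have h := H.mul.ae (volume.restrict (face nx g z d)) (fun _ => pr q) _ aestronglyMeasurable_const
    (.of_forall fun _ => le_rfl)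
  filter_upwards [h (b d), h (x d)] with w h1 h2
  rw [h1, h2]
  simpa only [PiLp.inner_apply] using pr_adj H q _ _

end REPx

theorem rep : REP_s := by
  intro H Dt _ nx rv g c z v hS hC a ha
  have V := H.vhs nx rv g c z hS
  have h0 := H.pm.aff nx rv g v hS.toFlat hC
  obtain ⟨A, hA⟩ := H.harm nx rv g c z hS
  obtain ⟨h1, h2, h3, -⟩ := hA v hC
  have e : a = A v := by
    have h4 := Submodule.sub_mem _ (ha.2 _ h0) (h2 _ h0)
    rw [sub_sub_sub_cancel_right] at h4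
    exact sub_eq_zero.1 (inner_self_eq_zero.1 (V.perp (Submodule.sub_mem _ ha.1 h1) h4))
  have hc : a ∈ closure {b | ∃ U, PAdm nx rv g v U ∧ b = dP nx rv c z U} := by
    rw [← add_sub_cancel (dP nx rv c z (aff nx rv g v)) a]
    refine map_mem_closure (continuous_const_add _) (ha.2 _ h0) fun b hb => ?_
    obtain ⟨U, hU, rfl⟩ := (H.pur.all nx rv g c z b hS).1 hb
    exact ⟨_, by simpa only [add_zero] using (H.pm.adm nx rv g v 0 _ U 1 h0 hU).1,
      (H.pm.lin nx rv g c z _ U 1 hS h0.lip hU.lip).1.symm⟩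
  obtain ⟨x, x1, x2, x3, x4, x5⟩ := H.link nx rv g c z v hS hC a hc
  refine ⟨x, x1, by rw [H.eq.eq nx rv g c z v hS hC, h3, x2, e], x3, x4, ?_⟩
  rintro p hp _ ⟨W, hW, hp', rfl⟩
  obtain ⟨U, hU, hL⟩ := H.eq.fp nx rv g c z 0 W hS hW
  have hb : dP nx rv c z U ∈ BS nx rv g c z p := by
    refine Submodule.subset_span ⟨U, hU, fun d ω hω => ?_, rfl⟩
    rcases FSx.str_sub H.alg H.tri H.glue hS d
      ((H.pol.img _ _ _ (FSx.str_pos hS d)).subset (mem_image_of_mem _ hω)) with h | h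
    · exact (hL d ω hω).1 h ▸ hp' d _ h
    · exact (hL d ω hω).2 h ▸ hp' _ _ h
  have key : ∀ q < 4, ⟪prT nx g z q (dT nx g z W), x⟫_ℂ = 3 * ⟪prP q (dP nx rv c z U), a⟫_ℂ :=
    fun q hq => by
      rw [REPx.prT_adj H, V.adj hq]
      exact x5 0 W U (fun k => if wt k = q then 1 else 0) hW hU hL
  have h5 := V18.mem_Hm.1 ha.1 p hp _ hb
  rw [key _ (by omega), key _ (by omega), h5.1, h5.2, mul_zero]
  exact ⟨rfl, rfl⟩

end Pool.Agent.MP_596265_gt.Hd.R

end

section

/-! Block R, row SYM: the minimiser is traceless and real. -/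

namespace Pool.Agent.MP_596265_gt.Hd.R

open MeasureTheory Set Complex Metric Filter Topology
open scoped ComplexConjugate InnerProductSpace Matrix.Norms.Elementwise

noncomputable section

namespace SYM

/-- The components in terms of the two partial derivatives. -/
def J' (w : ℂ) (a b : Mat) : E8 := J w ((1 / 2 : ℂ) • (a - I • b)) ((1 / 2 : ℂ) • (a + I • b))

theorem dF_comp (L : Mat →L[ℝ] Mat) {W : ℂ → Mat} {w : ℂ} (h : DifferentiableAt ℝ W w) :
    dF (L ∘ W) w = J' w (L (fderiv ℝ W w 1)) (L (fderiv ℝ W w I)) := by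
  simp only [dF, dz, dzb, (L.hasFDerivAt.comp w h.hasFDerivAt).fderiv]
  rfl

theorem J'_mid (w : ℂ) (a b a' b' : Mat) :
    J' w ((1 / 2 : ℝ) • (a + a')) ((1 / 2 : ℝ) • (b + b')) =
      (1 / 2 : ℝ) • (J' w a b + J' w a' b') := by
  ext k
  simp only [J', J, PiLp.smul_apply, PiLp.add_apply]
  split_ifs <;> simp only [ev, Matrix.smul_apply, Matrix.add_apply, Matrix.sub_apply, smul_eq_mul,
    real_smul] <;> ring

variable {Dt : Type} [Fintype Dt] {nx rv : Dt → Dt} {g : Dt → G} {z : ℂ} {v : Dt → Mat}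

omit [Fintype Dt] in
theorem adm (L : Mat →L[ℝ] Mat) (hv : ∀ d, L (v d) = v d) (hA : ∀ k X, L (Ad k X) = Ad k (L X))
    {W : Dt → ℂ → Mat} (h : Adm nx rv g z v W) : Adm nx rv g z v fun d => L ∘ W d := by
  refine ⟨fun d => ?_, fun d w hw => ?_, fun d w hw => ?_⟩
  · obtain ⟨C, hC⟩ := h.lip d
    exact ⟨_, L.lipschitz.comp_lipschitzOnWith hC⟩
  · simp only [Function.comp, h.rot d w hw, map_add, hv, hA]
  · simp only [Function.comp, h.edge d w hw]

theorem key (H : HA) (hO : Ok nx rv g z) {x : HT nx g z}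
    (hx : x ∈ closure {y | ∃ W, Adm nx rv g z v W ∧ y = dT nx g z W})
    (hF : Fn nx rv g z v = ‖x‖ ^ 2) (σ : E8 →L[ℝ] E8) (L : Mat →L[ℝ] Mat)
    (hσ : ∀ e, ‖σ e‖ ≤ ‖e‖) (hv : ∀ d, L (v d) = v d) (hA : ∀ k X, L (Ad k X) = Ad k (L X))
    (hJ : ∀ w a b, J' w (L a) (L b) = σ (J' w a b)) (d : Dt) :
    ∀ᵐ w ∂volume.restrict (face nx g z d), σ (x d w) = x d w := by
  have P : ∀ d, PosT z (mob (g d) z) (mob (g d * g (nx d)) z) := fun d =>
    ⟨hO.im, H.alg.mob_pos _ _ hO.im, H.alg.mob_pos _ _ hO.im, hO.pos d⟩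
  let S : HT nx g z → HT nx g z := fun y => WithLp.toLp 2 fun d => σ.compLpL 2 _ (y d)
  have cS : Continuous S := by fun_prop
  have ae : ∀ y d, S y d =ᵐ[volume.restrict (face nx g z d)] fun w => σ (y d w) := fun y d =>
    σ.coeFn_compLpL (y d)
  have nS : ‖S x‖ ^ 2 ≤ ‖x‖ ^ 2 := by
    rw [PiLp.norm_sq_eq_of_L2, PiLp.norm_sq_eq_of_L2]
    refine Finset.sum_le_sum fun d _ => pow_le_pow_left₀ (norm_nonneg _)
      (Lp.norm_le_norm_of_ae_le ?_) 2
    filter_upwards [ae x d] with w hw using hw ▸ hσ _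
  have h1 : (1 / 2 : ℝ) • (x + S x) ∈ closure {y | ∃ W, Adm nx rv g z v W ∧ y = dT nx g z W} := by
    refine map_mem_closure (f := fun y => (1 / 2 : ℝ) • (y + S y)) (by fun_prop) hx ?_
    rintro _ ⟨W, hW, rfl⟩
    have hW' := adm ((1 / 2 : ℝ) • (ContinuousLinearMap.id ℝ Mat + L)) (fun d => by
      simp only [_root_.smul_apply, _root_.add_apply,
        ContinuousLinearMap.id_apply, hv]; module) (fun k X => by
      simp only [_root_.smul_apply, _root_.add_apply,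
        ContinuousLinearMap.id_apply, hA, ← Complex.coe_smul, H.alg.ad_smul, H.alg.ad_add]) hW
    refine ⟨_, hW', PiLp.ext fun d => Lp.ext ?_⟩
    obtain ⟨C, hC⟩ := H.tra.dif _ _ _ _ (P d) (hW.lip d)
    filter_upwards [hC, ae (dT nx g z W) d, Lp.coeFn_smul (1 / 2 : ℝ) (dT nx g z W d +
      S (dT nx g z W) d), Lp.coeFn_add (dT nx g z W d) (S (dT nx g z W) d),
      H.mul.cls_ae _ _ (H.tra.mem _ _ _ _ (P d) (hW.lip d)),
      H.mul.cls_ae _ _ (H.tra.mem _ _ _ _ (P d) (hW'.lip d))] with w a1 a2 a3 a4 a5 a6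
    refine (a3.trans ?_).trans a6.symm
    rw [Pi.smul_apply, a4, Pi.add_apply, a2, dF_comp _ a1.1]
    simp only [_root_.smul_apply, _root_.add_apply,
      ContinuousLinearMap.id_apply, J'_mid, hJ]
    exact congrArg (fun e => (1 / 2 : ℝ) • (e + σ e)) a5
  have h2 : Fn nx rv g z v ≤ ‖(1 / 2 : ℝ) • (x + S x)‖ ^ 2 := by
    refine closure_minimal (t := {y | Fn nx rv g z v ≤ ‖y‖ ^ 2}) ?_
      (isClosed_le continuous_const (by fun_prop)) h1
    rintro _ ⟨W, hW, rfl⟩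
    show Fn nx rv g z v ≤ _
    refine csInf_le ⟨0, ?_⟩ ⟨W, hW, (H.eq.en _ _ _ _ _ _ hO hW).symm⟩
    rintro _ ⟨W, hW, rfl⟩
    rw [H.eq.en _ _ _ _ _ _ hO hW]
    exact sq_nonneg _
  have h3 := parallelogram_law_with_norm ℂ x (S x)
  rw [norm_smul, hF, Real.norm_of_nonneg (by norm_num)] at h2
  have h4 : x = S x := sub_eq_zero.1 (norm_eq_zero.1 (by nlinarith only [nS, h2, h3]))
  filter_upwards [ae x d] with w hw
  rw [← hw, ← h4]

/-- Exchange of the two matrix slots. -/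
def s1 : E8 →L[ℝ] E8 := LinearMap.toContinuousLinearMap
  { toFun := fun e => WithLp.toLp 2 fun k : Ix => e (k.2.1, k.1, k.2.2)
    map_add' := fun _ _ => rfl
    map_smul' := fun _ _ => rfl }

/-- Conjugation. -/
def s2 : E8 →L[ℝ] E8 := LinearMap.toContinuousLinearMap
  { toFun := fun e => WithLp.toLp 2 fun k : Ix => -conj (e (!k.1, !k.2.1, !k.2.2))
    map_add' := fun _ _ => by ext; simp [add_comm]
    map_smul' := fun _ _ => by ext; simp }

/-- Minus the adjugate. -/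
def l1 : Mat →L[ℝ] Mat := LinearMap.toContinuousLinearMap
  { toFun := fun X => X + (-X.trace) • (1 : Mat)
    map_add' := fun _ _ => by rw [Matrix.trace_add]; module
    map_smul' := fun c X => by
      rw [Matrix.trace_smul, RingHom.id_apply, smul_add, ← smul_neg, smul_assoc] }

/-- Conjugation of matrices. -/
def l2 : Mat →L[ℝ] Mat := LinearMap.toContinuousLinearMap
  { toFun := cj
    map_add' := fun _ _ => by ext; simp [cj]
    map_smul' := fun _ _ => by ext; simp [cj] }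

theorem s1_apply (e : E8) (i j f) : s1 e (i, j, f) = e (j, i, f) := rfl
theorem s2_apply (e : E8) (i j f) : s2 e (i, j, f) = -conj (e (!i, !j, !f)) := rfl
theorem l1_apply (X : Mat) : l1 X = X + (-X.trace) • (1 : Mat) := rfl
theorem l2_apply (X : Mat) : l2 X = cj X := rfl

end SYM

open SYM in
theorem sym : SYM_s := by
  intro H Dt _ nx rv g z v hO hv x hx hF d
  have k1 := key H hO hx hF s1 l1 (fun e => le_of_eq (by
      simp only [EuclideanSpace.norm_eq, Fintype.sum_prod_type, Fintype.sum_bool, s1_apply]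
      congr 1; ring))
    (fun d => by rw [l1_apply, (hv.2 d).1, neg_zero, zero_smul, add_zero])
    (fun k X => by rw [l1_apply, l1_apply, H.alg.ad_add, H.alg.ad_smul, H.alg.ad_id, H.alg.ad_tr])
    (fun w a b => by
      ext ⟨i, j, f⟩
      simp only [s1_apply, l1_apply, J', J]
      split_ifs <;> simp only [ev, one_div, Matrix.trace_fin_two, Fin.isValue, neg_add_rev, smul_add, Matrix.smul_apply, Matrix.sub_apply, Matrix.add_apply, Matrix.one_apply_eq, smul_eq_mul, mul_one, add_neg_cancel_comm_assoc, ne_eq, zero_ne_one, not_false_eq_true, Matrix.one_apply_ne, mul_zero, add_zero, one_ne_zero, add_neg_cancel_left] <;> ring) d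
  have k2 := key H hO hx hF s2 l2 (fun e => le_of_eq (by
      simp only [EuclideanSpace.norm_eq, Fintype.sum_prod_type, Fintype.sum_bool, s2_apply,
        norm_neg, RCLike.norm_conj, Bool.not_true, Bool.not_false]
      congr 1; ring)) (fun d => (hv.2 d).2) (fun k X => H.alg.ad_cj k X)
    (fun w a b => by
      ext ⟨i, j, f⟩
      have e : conj (dl w) = -dl w := by simp [dl]
      cases i <;> cases j <;> cases f <;>
        simp only [J', J, ev, one_div, l2_apply, cj, smul_add, Fin.isValue, pt, mul_ite, ite_mul, Bool.false_eq_true, ↓ reduceIte, Matrix.add_apply, Matrix.smul_apply, Matrix.map_apply, smul_eq_mul, s2_apply, Bool.not_false, Matrix.sub_apply, map_div₀, map_sub, map_add, map_mul, map_inv₀, map_ofNat, conj_I, neg_mul, sub_neg_eq_add, RingHomCompTriple.comp_apply, RingHom.id_apply, e, div_neg, neg_neg, Bool.not_true, mul_neg] <;> ring) d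
  filter_upwards [k1, k2] with w h1 h2 i j f
  refine ⟨by rw [← s1_apply, h1], ?_⟩
  rw [← h2, s2_apply, h2, Bool.not_not, Bool.not_not, Bool.not_not]

end

end Pool.Agent.MP_596265_gt.Hd.R

end

section

/-! Block R: sections built from a test function supported near an edge. -/

namespace Pool.Agent.MP_596265_gt.Hd.R

open MeasureTheory Set Complex Metric Filter Topology
open scoped ComplexConjugate InnerProductSpace Matrix.Norms.Elementwise NNReal

namespace TESTx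

set_option linter.unusedSectionVars false

theorem dz_congr {V : Type} [NormedAddCommGroup V] [NormedSpace ℂ V] {W W' : ℂ → V} {w : ℂ}
    (h : W =ᶠ[𝓝 w] W') : dz W w = dz W' w ∧ dzb W w = dzb W' w := by
  simp only [dz, dzb, h.fderiv_eq, and_self]

theorem dF_congr {W W' : ℂ → Mat} {w : ℂ} (h : W =ᶠ[𝓝 w] W') : dF W w = dF W' w :=
  congrArg₂ (J w) (dz_congr h).1 (dz_congr h).2

theorem dz_add {V : Type} [NormedAddCommGroup V] [NormedSpace ℂ V] {W W' : ℂ → V} {w : ℂ}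
    (h : DifferentiableAt ℝ W w) (h' : DifferentiableAt ℝ W' w) :
    dz (W + W') w = dz W w + dz W' w ∧ dzb (W + W') w = dzb W w + dzb W' w := by
  simp only [dz, dzb, fderiv_add h h', add_apply]
  constructor <;> module

theorem dF_add {W W' : ℂ → Mat} {w : ℂ} (h : DifferentiableAt ℝ W w)
    (h' : DifferentiableAt ℝ W' w) : dF (W + W') w = dF W w + dF W' w := by
  ext k
  simp only [dF, J, dz_add h h', PiLp.add_apply]
  split_ifs <;> simp only [ev, Matrix.add_apply] <;> ring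

theorem dF_zero (w : ℂ) : dF 0 w = 0 := by
  ext k
  simp [dF, J, dz, dzb, ev]

theorem lip_add {K : Set ℂ} {W W' : ℂ → Mat} (h : Lip W K) (h' : Lip W' K) : Lip (W + W') K :=
  let ⟨_, a⟩ := h
  let ⟨_, b⟩ := h'
  ⟨_, a.add b⟩

theorem lip_ite {K : Set ℂ} {W : ℂ → Mat} (h : Lip W K) (c : Prop) [Decidable c] :
    Lip (if c then W else 0) K := by
  split_ifs
  exacts [h, ⟨0, (LipschitzWith.const (0 : Mat)).lipschitzOnWith⟩]

theorem sec_eq (p : ℕ) (ψ : ℂ → ℂ) (w : ℂ) : sec p ψ w = ψ w • sec p (fun _ => 1) w := by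
  simp only [sec, mk, Finset.smul_sum, smul_smul]
  refine Finset.sum_congr rfl fun i _ => Finset.sum_congr rfl fun j _ => ?_
  congr 1
  split_ifs <;> ring

theorem sec_smooth (p : ℕ) {w : ℂ} (hw : 0 < w.im) : ContDiffAt ℝ 1 (sec p fun _ => 1) w := by
  have c : ContDiff ℝ 1 fun w : ℂ => conj w := conjCLE.contDiff
  have hp : ∀ i, ContDiff ℝ 1 fun w : ℂ => pt w i := fun i => by
    cases i
    exacts [contDiff_id, c]
  have hd : dl w ≠ 0 := by
    rw [dl, sub_conj]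
    simp [hw.ne']
  have hi : ContDiffAt ℝ 1 (fun w : ℂ => (dl w)⁻¹) w := (contDiff_id.sub c).contDiffAt.inv hd
  refine contDiffAt_pi.2 fun a => contDiffAt_pi.2 fun b => ?_
  simp only [sec, mk, Matrix.sum_apply, Matrix.smul_apply, smul_eq_mul, div_eq_mul_inv]
  refine ContDiffAt.sum fun i _ => ContDiffAt.sum fun j _ => (contDiffAt_const.mul hi).mul ?_
  fin_cases a <;> fin_cases b
  exacts [(hp _).contDiffAt, ((hp _).mul (hp _)).neg.contDiffAt, contDiffAt_const,
    (hp _).neg.contDiffAt]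

theorem sec_lip (hT : TRI_s) (p : ℕ) {ψ : ℂ → ℂ} {C : ℝ≥0} (h : LipschitzWith C ψ) {a b c : ℂ}
    (hp : PosT a b c) : Lip (sec p ψ) (tri a b c) := by
  have hK := hT.cpt a b c hp
  obtain ⟨D, hD⟩ := LocallyLipschitzOn.exists_lipschitzOnWith_of_compact hK
    (f := sec p fun _ => 1) fun w hw => by
      obtain ⟨K, t, ht, k⟩ := (sec_smooth p hw.1).exists_lipschitzOnWith
      exact ⟨K, t, mem_nhdsWithin_of_mem_nhds ht, k⟩
  obtain ⟨M, hM⟩ := hK.exists_bound_of_continuousOn h.continuous.continuousOn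
  obtain ⟨N, hN⟩ := hK.exists_bound_of_continuousOn hD.continuousOn
  have := U.Lip.lip_bil (ContinuousLinearMap.lsmul ℝ ℂ (E := Mat)) h.lipschitzOnWith hD
    (M := M.toNNReal) (N := N.toNNReal) (fun x hx => (hM x hx).trans (Real.le_coe_toNNReal M))
    fun x hx => (hN x hx).trans (Real.le_coe_toNNReal N)
  rw [funext (sec_eq p ψ)]
  exact ⟨_, this⟩

/-- The section pulled back by `γ`. -/
noncomputable def S (Ψ : ℂ → Mat) (γ : G) : ℂ → Mat := tp γ⁻¹ 0 Ψ

theorem S_eq (Ψ : ℂ → Mat) (γ : G) (w : ℂ) : S Ψ γ w = Ad γ⁻¹ (Ψ (mob γ w)) := by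
  rw [S, tp, zero_add, inv_inv]

theorem ad_zero (γ : G) : Ad γ 0 = 0 := by simp [Ad]

variable (hA : ALG_s) {Ψ : ℂ → Mat}
include hA

theorem S_one : S Ψ 1 = Ψ := funext fun w => by rw [S_eq, inv_one, hA.ad_one, hA.mob_one]

theorem S_mob (γ h : G) {w : ℂ} (hw : 0 < w.im) : S Ψ γ (mob h w) = Ad h (S Ψ (γ * h) w) := by
  rw [S_eq, S_eq, ← hA.ad_mul, mul_inv_rev, mul_inv_cancel_left, hA.mob_mul _ _ _ hw.ne']

theorem S_pm {γ γ' : G} (h : γ = γ' ∨ γ = -γ') : S Ψ γ = S Ψ γ' := by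
  rcases h with rfl | rfl
  · rfl
  · funext w
    have : (-γ')⁻¹ = -γ'⁻¹ := inv_eq_of_mul_eq_one_right (by simp)
    rw [S_eq, S_eq, this, hA.ad_neg, hA.mob_neg]

theorem mob_pm {γ γ' : G} (h : γ = γ' ∨ γ = -γ') (w : ℂ) : mob γ w = mob γ' w := by
  rcases h with rfl | rfl
  exacts [rfl, hA.mob_neg _ _]

theorem pos_mob (hT : TRI_s) (γ : G) {a b c : ℂ} (h : PosT a b c) :
    PosT (mob γ a) (mob γ b) (mob γ c) := by
  refine ⟨hA.mob_pos _ _ h.1, hA.mob_pos _ _ h.2.1, hA.mob_pos _ _ h.2.2.1, ?_⟩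
  rw [hT.hd_mob _ _ _ _ h.1.ne' h.2.1.ne' h.2.2.1.ne']
  exact div_pos h.2.2.2 (mul_pos (mul_pos (normSq_pos.2 (hA.den_ne _ _ h.1.ne'))
    (normSq_pos.2 (hA.den_ne _ _ h.2.1.ne'))) (normSq_pos.2 (hA.den_ne _ _ h.2.2.1.ne')))

theorem S_lip (hT : TRI_s) (hR : TRA_s) (hΨ : ∀ a b c, PosT a b c → Lip Ψ (tri a b c)) (γ : G)
    {a b c : ℂ} (h : PosT a b c) : Lip (S Ψ γ) (tri a b c) := by
  have := hR.lip_tp γ⁻¹ 0 _ _ _ Ψ (pos_mob hA hT γ h) (hΨ _ _ _ (pos_mob hA hT γ h))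
  rwa [← hA.mob_mul _ _ _ h.1.ne', ← hA.mob_mul _ _ _ h.2.1.ne', ← hA.mob_mul _ _ _ h.2.2.1.ne',
    inv_mul_cancel, hA.mob_one, hA.mob_one, hA.mob_one] at this

theorem S_pure {p : ℕ} (hΨ : ∀ w, 0 < w.im → PureAt p w (Ψ w)) (γ : G) {w : ℂ} (hw : 0 < w.im) :
    PureAt p w (S Ψ γ w) := fun i j hij => by
  have h := hΨ _ (hA.mob_pos γ w hw) i j hij
  have e : ∀ i, pt (mob γ w) i = mob γ (pt w i) := fun i => by
    cases i
    exacts [rfl, (hA.mob_conj γ w).symm]
  have n : ∀ i, den γ (pt w i) ≠ 0 := fun i => hA.den_ne _ _ (by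
    cases i <;> simp [pt, hw.ne'])
  have hd : dl (mob γ w) ≠ 0 := by
    rw [dl, sub_conj]
    simp [(hA.mob_pos γ w hw).ne']
  have k := hA.ev_ad γ (S Ψ γ w) _ _ (n i) (n j)
  rw [S_eq, ← hA.ad_mul, mul_inv_cancel, hA.ad_one, ← e, ← e, ← S_eq,
    (div_eq_zero_iff.1 h).resolve_right hd] at k
  rw [cp, (div_eq_zero_iff.1 k.symm).resolve_right (mul_ne_zero (n i) (n j)), zero_div]

variable {Dt : Type} {nx rv : Dt → Dt} {g : Dt → G} {z : ℂ}

theorem posF (h : Ok nx rv g z) (d : Dt) : PosT z (mob (g d) z) (mob (g d * g (nx d)) z) :=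
  ⟨h.im, hA.mob_pos _ _ h.im, hA.mob_pos _ _ h.im, h.pos d⟩

omit hA in
theorem g_sg (h : Ok nx rv g z) (d : Dt) :
    g (nx (rv d)) * g (nx (nx (rv d))) = g d ∨ g (nx (rv d)) * g (nx (nx (rv d))) = -g d := by
  have a := h.gf (nx (rv d))
  rw [h.n3] at a
  have k : g (nx (rv d)) * g (nx (nx (rv d))) = (g (nx (rv d)) * g (nx (nx (rv d))) * g (rv d)) *
      (g d * g (rv d))⁻¹ * g d := by group
  have m : (-1 : G)⁻¹ = -1 := inv_eq_of_mul_eq_one_right (by simp)
  rw [k]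
  rcases a with a | a <;> rcases h.gr d with b | b <;> rw [a, b] <;> simp [m]

open Classical in
/-- The section on the three charts of the face of `e`. -/
noncomputable def Wf (nx : Dt → Dt) (g : Dt → G) (Ψ : ℂ → Mat) (e x : Dt) : ℂ → Mat :=
  (if x = e then S Ψ 1 else 0) + (if x = nx e then S Ψ (g e) else 0) +
    if x = nx (nx e) then S Ψ (g e * g (nx e)) else 0

theorem Wf_rot (h : Ok nx rv g z) (e x : Dt) {w : ℂ} (hw : 0 < w.im) :
    Wf nx g Ψ e x (mob (g x) w) = Ad (g x) (Wf nx g Ψ e (nx x) w) := by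
  classical
  have inj : ∀ {a b}, nx a = nx b ↔ a = b := fun {a b} =>
    ⟨fun e => by rw [← h.n3 a, e, h.n3], fun e => e ▸ rfl⟩
  have i0 : nx x = e ↔ x = nx (nx e) := by rw [← inj (b := nx (nx e)), h.n3]
  simp only [Wf, Pi.add_apply, hA.ad_add, inj, i0, ite_apply, Pi.zero_apply,
    apply_ite (Ad (g x)), ad_zero, S_mob hA _ _ hw]
  have t1 : (if x = e then Ad (g x) (S Ψ (1 * g x) w) else 0) =
      if x = e then Ad (g x) (S Ψ (g e) w) else 0 := by
    split_ifs with c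
    exacts [by rw [one_mul, c], rfl]
  have t2 : (if x = nx e then Ad (g x) (S Ψ (g e * g x) w) else 0) =
      if x = nx e then Ad (g x) (S Ψ (g e * g (nx e)) w) else 0 := by
    split_ifs with c
    exacts [by rw [c], rfl]
  have t3 : (if x = nx (nx e) then Ad (g x) (S Ψ (g e * g (nx e) * g x) w) else 0) =
      if x = nx (nx e) then Ad (g x) (S Ψ 1 w) else 0 := by
    split_ifs with c
    exacts [by rw [c, S_pm hA (h.gf e)], rfl]
  rw [t1, t2, t3]
  abel

open Classical in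
/-- The section along the edge of `x`. -/
theorem Wf_seg (hT : TRI_s) (h : Ok nx rv g z) (e x : Dt) (c0 c1 c2 : Prop)
    (h0 : ¬ c0 → ∀ w ∈ seg z (mob (g e) z), Ψ w = 0)
    (h1 : ¬ c1 → ∀ w ∈ seg (mob (g e) z) (mob (g e * g (nx e)) z), Ψ w = 0)
    (h2 : ¬ c2 → ∀ w ∈ seg (mob (g e * g (nx e)) z) z, Ψ w = 0) {w : ℂ}
    (hw : w ∈ seg z (mob (g x) z)) : Wf nx g Ψ e x w =
      (if c0 ∧ x = e then Ψ w else 0) + (if c1 ∧ x = nx e then S Ψ (g e) w else 0) +
        if c2 ∧ x = nx (nx e) then S Ψ (g e * g (nx e)) w else 0 := by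
  have m : ∀ γ, mob γ w ∈ seg (mob γ z) (mob (γ * g x) z) := fun γ => by
    rw [hA.mob_mul _ _ _ h.im.ne']
    exact (hT.seg_mob γ _ _ _ h.im (hA.mob_pos _ _ h.im) hw.1).2 hw
  simp only [Wf, Pi.add_apply, ite_apply, Pi.zero_apply, S_one hA]
  congr 1
  congr 1
  · by_cases c : x = e <;> by_cases k : c0 <;> simp only [c, k, and_self, and_true, and_false,
      if_true, if_false]
    exact h0 k w (c ▸ hw)
  · by_cases c : x = nx e <;> by_cases k : c1 <;> simp only [c, k, and_self, and_true, and_false,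
      if_true, if_false]
    rw [S_eq, h1 k _ (c ▸ m _), ad_zero]
  · by_cases c : x = nx (nx e) <;> by_cases k : c2 <;> simp only [c, k, and_self, and_true,
      and_false, if_true, if_false]
    have := m (g e * g (nx e))
    rw [c, mob_pm hA (h.gf e), hA.mob_one] at this
    rw [S_eq, h2 k _ this, ad_zero]

variable [Fintype Dt]

/-- The pairing on one face. -/
noncomputable def II (nx : Dt → Dt) (g : Dt → G) (z : ℂ) (q : ℕ) (x : HT nx g z) (y : Dt)
    (W : ℂ → Mat) : ℂ := ∫ w in face nx g z y, ⟪pr q (dF W w), x y w⟫_ℂ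

omit hA in
theorem pr_ae (hM : MUL_s) {X : Type} [MeasurableSpace X] (μ : Measure X) (q : ℕ) {f : X → E8}
    (hf : MemLp f 2 μ) : mul μ (fun _ => pr q) (cls μ f) =ᵐ[μ] fun ω => pr q (f ω) := by
  filter_upwards [hM.ae μ (fun _ => pr q) _ aestronglyMeasurable_const
    (Eventually.of_forall fun _ => le_rfl) (cls μ f), hM.cls_ae μ f hf] with ω a b
  rw [a, b]

theorem II_int (hM : MUL_s) (hR : TRA_s) (h : Ok nx rv g z) (q : ℕ) (x : HT nx g z) (y : Dt)
    {W : ℂ → Mat} (hW : Lip W (face nx g z y)) :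
    IntegrableOn (fun w => ⟪pr q (dF W w), x y w⟫_ℂ) (face nx g z y) := by
  refine (L2.integrable_inner (𝕜 := ℂ) (mul _ (fun _ => pr q) (cls _ (dF W))) (x y)).congr ?_
  filter_upwards [pr_ae hM _ q (hR.mem _ _ _ W (posF hA h y) hW)] with w e
  exact congrArg (fun u => ⟪u, x y w⟫_ℂ) e

theorem II_add (hM : MUL_s) (hR : TRA_s) (h : Ok nx rv g z) (q : ℕ) (x : HT nx g z) (y : Dt)
    {W W' : ℂ → Mat} (hW : Lip W (face nx g z y)) (hW' : Lip W' (face nx g z y)) :
    II nx g z q x y (W + W') = II nx g z q x y W + II nx g z q x y W' := by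
  obtain ⟨_, a⟩ := hR.dif _ _ _ W (posF hA h y) hW
  obtain ⟨_, b⟩ := hR.dif _ _ _ W' (posF hA h y) hW'
  refine Eq.trans (integral_congr_ae ?_)
    (integral_add (II_int hA hM hR h q x y hW) (II_int hA hM hR h q x y hW'))
  filter_upwards [a, b] with w a b
  rw [dF_add a.1 b.1, map_add, inner_add_left]

omit hA in
theorem II_ite (q : ℕ) (x : HT nx g z) (y : Dt) (W : ℂ → Mat) (c : Prop) [Decidable c] :
    II nx g z q x y (if c then W else 0) = if c then II nx g z q x y W else 0 := by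
  split_ifs
  · rfl
  · simp [II, dF_zero]

theorem II_rot (hT : TRI_s) (hR : TRA_s) (h : Ok nx rv g z)
    (hΨ : ∀ a b c, PosT a b c → Lip Ψ (tri a b c)) (q : ℕ) {x : HT nx g z} (hx : RotS nx g z x)
    (y : Dt) (γ : G) : II nx g z q x (nx y) (S Ψ (γ * g y)) = II nx g z q x y (S Ψ γ) := by
  have p := posF hA h (nx y)
  have e : tri (mob (g y) z) (mob (g y) (mob (g (nx y)) z))
      (mob (g y) (mob (g (nx y) * g (nx (nx y))) z)) = face nx g z y := by
    rw [← hA.mob_mul _ _ _ h.im.ne', ← hA.mob_mul _ _ _ h.im.ne', ← mul_assoc,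
      mob_pm hA (h.gf y), hA.mob_one, face, hT.tri_rot z]
  have c := (hR.cv (g y) _ _ _ (fun w => ⟪pr q (dF (S Ψ γ) w), x y w⟫_ℂ) p).1
  rw [e] at c
  obtain ⟨_, a⟩ := hR.dif _ _ _ _ p (S_lip hA hT hR hΨ (γ * g y) p)
  refine Eq.trans (integral_congr_ae ?_) c.symm
  filter_upwards [a, hx y, ae_restrict_mem (hT.cpt _ _ _ p).measurableSet] with w a b m
  have hw : 0 < w.im := m.1
  have k : S Ψ γ =ᶠ[𝓝 (mob (g y) w)] tp (g y) 0 (S Ψ (γ * g y)) := by
    filter_upwards [continuous_im.continuousAt.eventually (lt_mem_nhds (hA.mob_pos (g y) w hw))]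
      with u hu
    rw [tp, zero_add, ← S_mob hA _ _ (hA.mob_pos _ _ hu), ← hA.mob_mul _ _ _ hu.ne',
      mul_inv_cancel, hA.mob_one]
  have n : ((normSq (den (g y) w) ^ 2 : ℝ) : ℂ) ≠ 0 :=
    ofReal_ne_zero.2 (pow_ne_zero 2 (normSq_pos.2 (hA.den_ne _ _ hw.ne')).ne')
  rw [eq_div_iff n, dF_congr k, PiLp.inner_apply, PiLp.inner_apply, Finset.sum_mul]
  refine Finset.sum_congr rfl fun l _ => ?_
  have f : ph (g y) w l * conj (ph (g y) w l) = ((normSq (den (g y) w) ^ 2 : ℝ) : ℂ) := by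
    rw [mul_conj, normSq_eq_norm_sq, hA.ph_norm _ _ _ hw.ne']
  rw [pr, hA.dg_apply, hA.dg_apply, hR.df_tp _ _ _ _ _ hw a.1, b, ← f]
  simp only [RCLike.inner_apply, map_mul]
  ring

theorem Wf_lip (hT : TRI_s) (hR : TRA_s) (hΨ : ∀ a b c, PosT a b c → Lip Ψ (tri a b c))
    (e x : Dt) {a b c : ℂ} (p : PosT a b c) : Lip (Wf nx g Ψ e x) (tri a b c) := by
  classical
  exact lip_add (lip_add (lip_ite (S_lip hA hT hR hΨ _ p) _) (lip_ite (S_lip hA hT hR hΨ _ p) _))
    (lip_ite (S_lip hA hT hR hΨ _ p) _)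

theorem II_Wf (hM : MUL_s) (hT : TRI_s) (hR : TRA_s) (h : Ok nx rv g z)
    (hΨ : ∀ a b c, PosT a b c → Lip Ψ (tri a b c)) (q : ℕ) {x : HT nx g z} (hx : RotS nx g z x)
    (e : Dt) : ∑ y, II nx g z q x y (Wf nx g Ψ e y) = 3 * II nx g z q x e Ψ := by
  classical
  have l : ∀ γ y (c : Prop) [Decidable c], Lip (if c then S Ψ γ else 0) (face nx g z y) :=
    fun γ y c _ => lip_ite (S_lip hA hT hR hΨ γ (posF hA h y)) c
  have r1 := II_rot hA hT hR h hΨ q hx e 1
  have r2 := II_rot hA hT hR h hΨ q hx (nx e) (g e)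
  rw [one_mul] at r1
  have : ∀ y, II nx g z q x y (Wf nx g Ψ e y) = _ := fun y => by
    rw [Wf, II_add hA hM hR h q x y (lip_add (l _ _ _) (l _ _ _)) (l _ _ _),
      II_add hA hM hR h q x y (l _ _ _) (l _ _ _), II_ite, II_ite, II_ite]
  simp only [this, Finset.sum_add_distrib, Finset.sum_ite_eq', Finset.mem_univ, if_true]
  rw [r2, r1, S_one hA]
  ring

end TESTx

open TESTx in
theorem test : TEST_s := by
  intro H hU Dt _ nx rv g z h d p ψ ⟨⟨C, hC⟩, _, hs⟩
  classical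
  have hA := H.alg
  have hT := H.tri
  have hR := H.tra
  obtain ⟨-, -, -, -, u1, u2, -, -, -, -, u3⟩ := hU H h d
  have lp : ∀ a b c, PosT a b c → Lip (sec p ψ) (tri a b c) := fun a b c => sec_lip hT p hC
  have z0 : ∀ w ∉ tsupport ψ, sec p ψ w = 0 := fun w hw => by
    rw [sec_eq, image_eq_zero_of_notMem_tsupport hw, zero_smul]
  have z1 : ∀ w ∉ UU nx rv g z d, sec p ψ w = 0 := fun w hw => z0 w fun k => hw (hs k)
  have pu : ∀ w, 0 < w.im → PureAt p w (sec p ψ w) := fun w hw i j k => by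
    rw [sec, hA.cp_mk _ _ _ _ hw.ne', if_neg k]
  have rot : ∀ {a b c}, PosT a b c → PosT b c a := fun {a b c} k =>
    ⟨k.2.1, k.2.2.1, k.1, by have := k.2.2.2; unfold hd at this ⊢; linarith⟩
  have p1 := posF hA h d
  have p2 := posF hA h (nx (rv d))
  have gs := g_sg h d
  have on : ∀ {a b c}, PosT a b c → ∀ w ∈ seg a b, w ∈ tri a b c ∧ hd a b w = 0 :=
    fun {a b c} k w hw => ⟨hT.seg_sub _ _ _ k hw, (hT.seg_iff _ _ _ _ k (hT.seg_sub _ _ _ k hw)).1 hw⟩
  have sg : ∀ x, ∀ w ∈ seg z (mob (g x) z),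
      (Wf nx g (sec p ψ) d x + Wf nx g (sec p ψ) (nx (rv d)) x) w =
      (if x = d then sec p ψ w else 0) + if x = rv d then S (sec p ψ) (g d) w else 0 := by
    intro x w hw
    rw [Pi.add_apply, Wf_seg hA hT h d x True False False (fun k => (k trivial).elim)
      (fun _ w hw => z1 w fun k => ?_) (fun _ w hw => z1 w fun k => ?_) hw,
      Wf_seg hA hT h (nx (rv d)) x False False True (fun _ w hw => z1 w fun k => ?_)
      (fun _ w hw => z1 w fun k => ?_) (fun k => (k trivial).elim) hw, h.n3, S_pm hA gs]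
    · simp
    · obtain ⟨a, b⟩ := on p2 w hw
      exact (k.2.2 (u2 w a)).1.ne' b
    · obtain ⟨a, b⟩ := on (rot p2) w hw
      rw [← hT.tri_rot] at a
      rw [mob_pm hA gs] at b
      exact (k.2.2 (u2 w a)).2.ne' b
    · obtain ⟨a, b⟩ := on (rot p1) w hw
      rw [← hT.tri_rot] at a
      exact (k.2.1 (u1 w a)).1.ne' b
    · obtain ⟨a, b⟩ := on (rot (rot p1)) w hw
      rw [← hT.tri_rot, ← hT.tri_rot] at a
      exact (k.2.1 (u1 w a)).2.ne' b
  have rt : ∀ x w, 0 < w.im →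
      (Wf nx g (sec p ψ) d x + Wf nx g (sec p ψ) (nx (rv d)) x) (mob (g x) w) = Ad (g x)
        ((Wf nx g (sec p ψ) d (nx x) + Wf nx g (sec p ψ) (nx (rv d)) (nx x)) w) := fun x w hw => by
    rw [Pi.add_apply, Pi.add_apply, hA.ad_add, Wf_rot hA h _ _ hw, Wf_rot hA h _ _ hw]
  have lw : ∀ e y, Lip (Wf nx g (sec p ψ) e y) (face nx g z y) := fun e y =>
    Wf_lip hA hT hR lp e y (posF hA h y)
  refine ⟨_, ⟨fun x => Wf nx g (sec p ψ) d x + Wf nx g (sec p ψ) (nx (rv d)) x,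
    ⟨fun x => lip_add (lw _ _) (lw _ _), fun x w hw => ?_, fun x w hw => ?_⟩, fun x w hw => ?_, rfl⟩,
    fun x hx q => ?_⟩
  · rw [rt x w hw.1, Pi.zero_apply, zero_add]
  · have gi : g (rv x) * g x = 1 ∨ g (rv x) * g x = -1 := by simpa only [h.r2] using h.gr (rv x)
    have m : mob (g (rv x)) w ∈ seg z (mob (g (rv x)) z) := by
      have := (hT.seg_mob (g (rv x)) _ _ _ h.im (hA.mob_pos _ _ h.im) hw.1).2 hw
      rwa [← hA.mob_mul _ _ _ h.im.ne', mob_pm hA gi, hA.mob_one, hT.seg_symm] at this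
    have k := congrArg (Ad (g x)) (rt (rv x) w hw.1)
    have a1 : ∀ X, Ad (g x) (Ad (g (rv x)) X) = X := fun X => by
      rw [← hA.ad_mul]
      rcases h.gr x with e | e <;> rw [e]
      exacts [hA.ad_one X, by rw [hA.ad_neg, hA.ad_one]]
    have i1 : rv x = d ↔ x = rv d := ⟨fun e => by rw [← e, h.r2], fun e => by rw [e, h.r2]⟩
    have i2 : rv x = rv d ↔ x = d := ⟨fun e => by rw [← h.r2 x, e, h.r2], fun e => by rw [e]⟩
    rw [a1, sg _ _ m, hA.ad_add, add_comm] at k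
    rw [← k, sg x w hw]
    simp only [i1, i2]
    congr 1
    · split_ifs with c
      · rw [S_mob hA _ _ hw.1, a1, c, S_pm hA (h.gr d), S_one hA]
      · exact (ad_zero _).symm
    · split_ifs with c
      · rw [← S_one hA (Ψ := sec p ψ), S_mob hA _ _ hw.1, a1, S_one hA, c, h.r2, one_mul]
      · exact (ad_zero _).symm
  · have k : ∀ γ (c : Prop) [Decidable c] i j, i.toNat + j.toNat ≠ p →
        ev ((if c then S (sec p ψ) γ else 0) w) (pt w i) (pt w j) / dl w = 0 := fun γ c _ i j k => by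
      split_ifs
      exacts [S_pure hA pu γ hw.1 i j k, by simp [ev]]
    have a : ∀ X Y s t, ev (X + Y) s t = ev X s t + ev Y s t := fun X Y s t => by
      simp only [ev, Matrix.add_apply]
      ring
    intro i j hij
    simp only [cp, Wf, Pi.add_apply, a, add_div, k _ _ i j hij, add_zero]
  · have e : ∀ y, ⟪prT nx g z q (dT nx g z fun x => Wf nx g (sec p ψ) d x +
        Wf nx g (sec p ψ) (nx (rv d)) x) y, x y⟫_ℂ = II nx g z q x y (Wf nx g (sec p ψ) d y) +
          II nx g z q x y (Wf nx g (sec p ψ) (nx (rv d)) y) := fun y => by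
      rw [← II_add hA H.mul hR h q x y (lw _ _) (lw _ _), L2.inner_def, prT, H.mul.dia_apply]
      refine integral_congr_ae ?_
      filter_upwards [pr_ae H.mul _ q (hR.mem _ _ _ _ (posF hA h y) (lip_add (lw d y) (lw _ y)))]
        with w e
      exact congrArg (fun u => ⟪u, x y w⟫_ℂ) e
    have v : ∀ w ∉ UU nx rv g z d, dF (sec p ψ) w = 0 := fun w hw => by
      rw [← dF_zero w]
      refine dF_congr ?_
      filter_upwards [(isClosed_tsupport ψ).isOpen_compl.mem_nhds fun k => hw (hs k)] with u hu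
      exact z0 u hu
    have f := u3 _ _ (II_int hA H.mul hR h q x d (lp _ _ _ p1))
      (II_int hA H.mul hR h q x _ (lp _ _ _ p2)) fun w hw => by simp [v w hw]
    rw [PiLp.inner_apply]
    simp only [e, Finset.sum_add_distrib, II_Wf hA H.mul hT hR h lp q hx]
    rw [← mul_add, II, II, ← f]
    refine congrArg _ (integral_congr_ae (Eventually.of_forall fun w => ?_))
    simp only [gl]
    split_ifs <;> rfl

end Pool.Agent.MP_596265_gt.Hd.R

end

section

/-! Block R, row TH: the change of apex as a Lipschitz map of the triangle. -/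

namespace Pool.Agent.MP_596265_gt.Hd.R

open MeasureTheory Set Complex Metric Filter Topology
open scoped ComplexConjugate

namespace THx

theorem cz_lin (L : ℂ →L[ℝ] ℂ) {a b : ℂ} (h : 0 < jc a b) :
    cz a b (L a) (L b) = (L 1 - I * L I) / 2 := by
  have e : ∀ x : ℂ, L x = x.re * L 1 + x.im * L I := fun x => by
    conv_lhs => rw [show x = x.re • (1 : ℂ) + x.im • I by simp]
    rw [map_add, map_smul, map_smul, real_smul, real_smul]
  have d : a * conj b - b * conj a = -2 * I * jc a b := by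
    apply Complex.ext <;> simp only [sub_re, mul_re, conj_re, conj_im, mul_neg, sub_neg_eq_add, neg_mul, jc, mul_im, ofReal_add, ofReal_mul, ofReal_neg, neg_re, re_ofNat, I_re, mul_zero, im_ofNat, I_im, mul_one, sub_self, add_re, ofReal_re, ofReal_im, sub_zero, zero_mul, add_zero, add_im, neg_im, neg_zero, sub_im, zero_add] <;> ring
  have n : a * conj b - b * conj a ≠ 0 := by
    rw [d]; exact mul_ne_zero (mul_ne_zero (by norm_num) I_ne_zero) (ofReal_ne_zero.2 h.ne')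
  have ca : conj a = a.re - a.im * I := by apply Complex.ext <;> simp
  have cb : conj b = b.re - b.im * I := by apply Complex.ext <;> simp
  unfold cz
  rw [smul_eq_mul, inv_mul_eq_iff_eq_mul₀ n, e a, e b, smul_eq_mul, smul_eq_mul, ca, cb]
  linear_combination (↑b.re - ↑b.im * I) * (L 1 - I * L I) / 2 * re_add_im a -
    (↑a.re - ↑a.im * I) * (L 1 - I * L I) / 2 * re_add_im b -
    ((a.re : ℂ) * b.im - a.im * b.re) * L I * I_mul_I

end THx

theorem th : TH_s := by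
  intro H t s p q hT hs
  obtain ⟨C₁, h₁⟩ := H.gep.plip s p q hs hT.2.1 hT.2.2.1
  obtain ⟨C₂, h₂⟩ := H.pol.inj t p q hT
  have key : ∀ ω ∈ csq, ∀ ω' ∈ csq,
      ‖DD s p q ω - DD s p q ω'‖ ≤ |C₁| * |C₂| * ‖DD t p q ω - DD t p q ω'‖ := by
    intro ω hω ω' hω'
    have h0 : 0 ≤ (1 - ω.2) * |ω.1 - ω'.1| + |ω.2 - ω'.2| :=
      add_nonneg (mul_nonneg (sub_nonneg.2 hω.2.2) (abs_nonneg _)) (abs_nonneg _)
    refine (h₁ ω hω ω' hω').trans ((mul_le_mul_of_nonneg_right (le_abs_self _) h0).trans ?_)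
    rw [mul_assoc]
    exact mul_le_mul_of_nonneg_left ((h₂ ω hω ω' hω').trans
      (mul_le_mul_of_nonneg_right (le_abs_self _) (norm_nonneg _))) (abs_nonneg _)
  set Θ : ℂ → ℂ := fun w => DD s p q (Function.invFunOn (DD t p q) csq w) with hΘ
  have ev : ∀ ω ∈ csq, Θ (DD t p q ω) = DD s p q ω := fun ω hω => by
    obtain ⟨a, b⟩ := Function.invFunOn_pos (f := DD t p q) (s := csq) ⟨ω, hω, rfl⟩
    have := key _ a _ hω
    rw [b, sub_self, norm_zero, mul_zero] at this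
    exact sub_eq_zero.1 (norm_le_zero_iff.1 this)
  have hL : Lip Θ (tri t p q) := by
    refine ⟨⟨|C₁| * |C₂|, by positivity⟩, LipschitzOnWith.of_dist_le_mul ?_⟩
    rw [← H.pol.img t p q hT]
    rintro _ ⟨ω, hω, rfl⟩ _ ⟨ω', hω', rfl⟩
    rw [ev _ hω, ev _ hω', dist_eq_norm, dist_eq_norm]
    exact key _ hω _ hω'
  refine ⟨Θ, hL, ev, ?_⟩
  obtain ⟨C, hC⟩ := H.tra.dif t p q Θ hT hL
  have ho : IsOpen sq := isOpen_Ioo.prod isOpen_Ioo
  have hsub : sq ⊆ csq := prod_mono Ioo_subset_Icc_self Ioo_subset_Icc_self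
  filter_upwards [(H.cvp.ae t p q _ hT).1 hC, ae_restrict_mem ho.measurableSet] with ω hd hω
  obtain ⟨A, hA, a1, a2⟩ := H.gep.der t p q ω hT.1 hT.2.1 hT.2.2.1 (hsub hω)
  obtain ⟨B, hB, b1, b2⟩ := H.gep.der s p q ω hs hT.2.1 hT.2.2.1 (hsub hω)
  have hc := hd.1.hasFDerivAt.comp ω hA
  have e : (fderiv ℝ Θ (DD t p q ω)).comp A = B :=
    hc.unique (hB.congr_of_eventuallyEq ((ho.eventually_mem hω).mono fun x hx => ev x (hsub hx)))
  have e1' := congrArg (fun T : ℝ × ℝ →L[ℝ] ℂ => T (1, 0)) e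
  have e2' := congrArg (fun T : ℝ × ℝ →L[ℝ] ℂ => T (0, 1)) e
  simp only [ContinuousLinearMap.comp_apply, a1, a2, b1, b2] at e1' e2'
  rw [← real_smul, map_smul, real_smul] at e1'
  have n : ((1 - ω.2 : ℝ) : ℂ) ≠ 0 := ofReal_ne_zero.2 (sub_pos.2 hω.2.2).ne'
  rw [← mul_left_cancel₀ n e1', ← e2', THx.cz_lin _ (H.gep.jpos t p q ω hT (hsub hω))]
  rfl

end Pool.Agent.MP_596265_gt.Hd.R

end

section

/-! Block R, row TOP: the change of frame as an operator. -/

namespace Pool.Agent.MP_596265_gt.Hd.R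

open MeasureTheory Set Complex Metric Filter Topology
open scoped ComplexConjugate InnerProductSpace Matrix.Norms.Elementwise

namespace TOPx

lemma del_eq (a b : ℂ) : a * conj b - b * conj a = -(2 * I) * (jc a b : ℝ) := by
  apply Complex.ext <;> simp only [sub_re, mul_re, conj_re, conj_im, mul_neg, sub_neg_eq_add, jc, mul_im, neg_mul, ofReal_add, ofReal_mul, ofReal_neg, neg_re, re_ofNat, I_re, mul_zero, im_ofNat, I_im, mul_one, sub_self, add_re, ofReal_re, ofReal_im, sub_zero, zero_mul, add_zero, add_im, neg_im, neg_zero, sub_im, zero_add] <;> ring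

lemma del_ne {a b : ℂ} (h : 0 < jc a b) : a * conj b - b * conj a ≠ 0 := by
  rw [del_eq]
  exact mul_ne_zero (neg_ne_zero.2 (mul_ne_zero two_ne_zero I_ne_zero)) (ofReal_ne_zero.2 h.ne')

lemma dl_ne {w : ℂ} (h : 0 < w.im) : dl w ≠ 0 := by
  intro e
  have := congrArg Complex.im e
  simp only [dl, sub_im, conj_im, sub_neg_eq_add, zero_im, add_self_eq_zero] at this
  linarith

lemma ev_lin (α β : ℂ) (X Y : Mat) (s t : ℂ) :
    ev (α • X + β • Y) s t = α * ev X s t + β * ev Y s t := by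
  simp only [ev, Matrix.add_apply, Matrix.smul_apply, smul_eq_mul]
  ring

lemma ev_int {w' : ℂ} (h : 0 < w'.im) (X : Mat) (w : ℂ) (i j : Bool) :
    ev X (pt w i) (pt w j) =
      ∑ i', ∑ j', sl w w' i i' * sl w w' j j' * ev X (pt w' i') (pt w' j') := by
  have hd := dl_ne h
  have e : conj w' = w' - dl w' := by rw [dl]; ring
  have p0 : pt w' false = w' := rfl
  have p1 : pt w' true = w' - dl w' := e
  simp only [Fintype.sum_bool, sl, Bool.not_true, Bool.not_false, p0, p1, ev, if_true,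
    Bool.false_eq_true, if_false]
  field_simp
  ring

lemma cz_ch (a b : ℂ) {a' b' : ℂ} (h : 0 < jc a' b') (X₁ X₂ : Mat) (f : Bool) :
    (if f then cz a b X₁ X₂ else czb a b X₁ X₂) =
      fm a b a' b' f true • cz a' b' X₁ X₂ + fm a b a' b' f false • czb a' b' X₁ X₂ := by
  have hd := del_ne h
  have p0 : ∀ u, pt u false = u := fun _ => rfl
  have p1 : ∀ u, pt u true = conj u := fun _ => rfl
  ext i j
  cases f <;>
  simp only [fm, cz, czb, Bool.not_true, Bool.not_false, p0, p1, if_true, Bool.false_eq_true,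
    if_false, Matrix.add_apply, Matrix.smul_apply, Matrix.sub_apply, smul_eq_mul] <;>
  generalize (a * conj b - b * conj a)⁻¹ = u <;> field_simp <;> ring

/-- The matrix of the change of frame. -/
noncomputable def TM (w a b w' a' b' : ℂ) (k l : Ix) : ℂ :=
  ((√(jc a b) / √(jc a' b') : ℝ) : ℂ) * (dl w' / dl w) * sl w w' k.1 l.1 * sl w w' k.2.1 l.2.1 *
    fm a b a' b' k.2.2 l.2.2

lemma JJ_apply (w a b : ℂ) (X₁ X₂ : Mat) (k : Ix) : JJ w a b X₁ X₂ k = ((√(jc a b) : ℝ) : ℂ) *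
    (ev (if k.2.2 then cz a b X₁ X₂ else czb a b X₁ X₂) (pt w k.1) (pt w k.2.1) / dl w) := rfl

lemma JJ_ch (hA : ALG_s) (w a b : ℂ) {w' a' b' : ℂ} (hw' : 0 < w'.im) (h' : 0 < jc a' b')
    (X₁ X₂ : Mat) : op (TM w a b w' a' b') (JJ w' a' b' X₁ X₂) = JJ w a b X₁ X₂ := by
  ext k
  obtain ⟨i, j, f⟩ := k
  have hs : ((√(jc a' b') : ℝ) : ℂ) ≠ 0 := ofReal_ne_zero.2 (Real.sqrt_pos.2 h').ne'
  have hd := dl_ne hw'
  refine (hA.op_apply (TM w a b w' a' b') _ _).trans ?_
  change ∑ l, TM w a b w' a' b' (i, j, f) l * JJ w' a' b' X₁ X₂ l = _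
  rw [JJ_apply w, cz_ch a b h', ev_lin, ev_int hw' (cz a' b' X₁ X₂),
    ev_int hw' (czb a' b' X₁ X₂)]
  simp only [Fintype.sum_prod_type, Fintype.sum_bool, JJ_apply, TM, if_true, Bool.false_eq_true,
    if_false, ofReal_div, div_eq_mul_inv (dl w') (dl w), div_eq_mul_inv _ (dl w)]
  generalize (dl w)⁻¹ = u
  field_simp
  ring

lemma JJ_onto (hA : ALG_s) {w a b : ℂ} (hw : 0 < w.im) (h : 0 < jc a b) (x : E8) :
    ∃ X₁ X₂, JJ w a b X₁ X₂ = x := by
  have hs : ((√(jc a b) : ℝ) : ℂ) ≠ 0 := ofReal_ne_zero.2 (Real.sqrt_pos.2 h).ne'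
  have hd := del_ne h
  have e1 : ∀ A B : Mat, cz a b (a • A + conj a • B) (b • A + conj b • B) = A := by
    intro A B
    ext i j
    simp only [cz, Matrix.add_apply, Matrix.smul_apply, Matrix.sub_apply, smul_eq_mul]
    field_simp
    ring
  have e2 : ∀ A B : Mat, czb a b (a • A + conj a • B) (b • A + conj b • B) = B := by
    intro A B
    ext i j
    simp only [czb, Matrix.add_apply, Matrix.smul_apply, Matrix.sub_apply, smul_eq_mul]
    field_simp
    ring
  let A : Bool → Mat := fun f => mk w fun i j => x (i, j, f) / ((√(jc a b) : ℝ) : ℂ)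
  refine ⟨a • A true + conj a • A false, b • A true + conj b • A false, ?_⟩
  ext k
  obtain ⟨i, j, f⟩ := k
  rw [JJ_apply, e1, e2]
  have e3 : (if f then A true else A false) = A f := by cases f <;> rfl
  have e4 : ev (A f) (pt w i) (pt w j) / dl w = x (i, j, f) / ((√(jc a b) : ℝ) : ℂ) :=
    hA.cp_mk w _ i j hw.ne'
  simp only []
  rw [e3, e4]
  field_simp

lemma form (hA : ALG_s) {w a b w' a' b' : ℂ} (hw : 0 < w.im) (h : 0 < jc a b) (hw' : 0 < w'.im)
    (h' : 0 < jc a' b') (x y : E8) :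
    ⟪op (TM w a b w' a' b') x, Cs (op (TM w a b w' a' b') y)⟫_ℂ = ⟪x, Cs y⟫_ℂ := by
  obtain ⟨X₁, X₂, rfl⟩ := JJ_onto hA hw' h' x
  obtain ⟨Y₁, Y₂, rfl⟩ := JJ_onto hA hw' h' y
  rw [JJ_ch hA w a b hw' h', JJ_ch hA w a b hw' h', hA.qf _ _ _ _ _ _ _ hw h,
    hA.qf _ _ _ _ _ _ _ hw' h']

lemma weil_pt (hA : ALG_s) (x : E8) : pr 3 x - pr 2 x + pr 1 x - pr 0 x = Cs x := by
  ext k
  obtain ⟨i, j, f⟩ := k
  simp only [PiLp.sub_apply, PiLp.add_apply, pr, Cs, hA.dg_apply]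
  cases i <;> cases j <;> cases f <;> simp only [wt, Bool.toNat_false, add_zero, OfNat.zero_ne_ofNat, ↓ reduceIte, zero_mul, sub_self, zero_ne_one, one_mul, zero_sub, zero_add, pow_one, neg_mul, Bool.toNat_true, OfNat.one_ne_ofNat, one_ne_zero, sub_zero, Nat.reduceAdd, even_two, Even.neg_pow, one_pow, Nat.reduceEqDiff, OfNat.ofNat_ne_one, OfNat.ofNat_ne_zero, Nat.succ_ne_self] <;> norm_num

lemma weil_ae (hA : ALG_s) (hM : MUL_s) {Dt : Type} [Fintype Dt] (y : HP Dt) (d : Dt) :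
    V18.weil prP y d =ᵐ[volume.restrict sq] fun ω => Cs (y d ω) := by
  have e : V18.weil prP y d = prP 3 y d - prP 2 y d + prP 1 y d - prP 0 y d := rfl
  have h : ∀ p, prP p y d =ᵐ[volume.restrict sq] fun ω => pr p (y d ω) := fun p =>
    hM.mp_ae (fun _ _ => pr p) (fun _ => continuousOn_const) y d
  rw [e]
  filter_upwards [Lp.coeFn_sub (prP 3 y d - prP 2 y d + prP 1 y d) (prP 0 y d),
    Lp.coeFn_add (prP 3 y d - prP 2 y d) (prP 1 y d), Lp.coeFn_sub (prP 3 y d) (prP 2 y d),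
    h 3, h 2, h 1, h 0] with ω a1 a2 a3 b3 b2 b1 b0
  rw [a1, Pi.sub_apply, a2, Pi.add_apply, a3, Pi.sub_apply, b3, b2, b1, b0, weil_pt hA]

lemma op_cont : Continuous fun M : Ix → Ix → ℂ => op M :=
  LinearMap.continuous_of_finiteDimensional
    ((LinearMap.toContinuousLinearMap (𝕜 := ℂ) (E := E8) (F' := E8)).toLinearMap ∘ₗ
      (Matrix.toLpLin 2 2 (R := ℂ) (m := Ix) (n := Ix)).toLinearMap)

lemma cont3 (hG : GEP_s) {z p q : ℂ} (h : PosT z p q) : ContinuousOn (DD z p q) csq ∧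
    ContinuousOn (e1 z p q) csq ∧ ContinuousOn (e2 z p q) csq := by
  have c : ∀ ω : ℝ × ℝ, ContinuousAt (fun ω : ℝ × ℝ => (((z, p, q) : ℂ × ℂ × ℂ), ω)) ω :=
    fun ω => by fun_prop
  refine ⟨fun ω hω => ?_, fun ω hω => ?_, fun ω hω => ?_⟩
  · exact (ContinuousAt.comp (f := fun ω : ℝ × ℝ => (((z, p, q) : ℂ × ℂ × ℂ), ω))
      (hG.sm z p q ω h.1 h.2.1 h.2.2.1 hω).1.continuousAt (c ω)).continuousWithinAt
  · exact (ContinuousAt.comp (f := fun ω : ℝ × ℝ => (((z, p, q) : ℂ × ℂ × ℂ), ω))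
      (hG.sm z p q ω h.1 h.2.1 h.2.2.1 hω).2.1.continuousAt (c ω)).continuousWithinAt
  · exact (ContinuousAt.comp (f := fun ω : ℝ × ℝ => (((z, p, q) : ℂ × ℂ × ℂ), ω))
      (hG.sm z p q ω h.1 h.2.1 h.2.2.1 hω).2.2.continuousAt (c ω)).continuousWithinAt

lemma DD_im (hP : POL_s) {z p q : ℂ} (h : PosT z p q) {ω : ℝ × ℝ} (hω : ω ∈ csq) :
    0 < (DD z p q ω).im := by
  have : DD z p q ω ∈ tri z p q := by
    rw [← hP.img _ _ _ h]
    exact mem_image_of_mem _ hω
  exact this.1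

lemma pt_cont (i : Bool) : Continuous fun w => pt w i := by
  cases i
  · exact continuous_id
  · exact continuous_conj

lemma Tm_cont (hG : GEP_s) (hP : POL_s) {t s p q : ℂ} (ht : PosT t p q) (hs : PosT s p q) :
    ContinuousOn (fun ω => op (Tm t s p q ω)) csq := by
  obtain ⟨c1, c2, c3⟩ := cont3 hG ht
  obtain ⟨d1, d2, d3⟩ := cont3 hG hs
  have cj : ∀ {f : ℝ × ℝ → ℂ}, ContinuousOn f csq → ContinuousOn (fun ω => conj (f ω)) csq :=
    fun hf => continuous_conj.comp_continuousOn hf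
  have cp : ∀ {f : ℝ × ℝ → ℂ} (i : Bool), ContinuousOn f csq →
      ContinuousOn (fun ω => pt (f ω) i) csq := fun i hf => (pt_cont i).comp_continuousOn hf
  have cd : ∀ {f : ℝ × ℝ → ℂ}, ContinuousOn f csq → ContinuousOn (fun ω => dl (f ω)) csq :=
    fun hf => hf.sub (cj hf)
  have cs : ∀ {f f' : ℝ × ℝ → ℂ}, ContinuousOn f csq → ContinuousOn f' csq →
      ContinuousOn (fun ω => √(jc (f ω) (f' ω))) csq := fun hf hf' =>
    (continuous_im.comp_continuousOn ((cj hf).mul hf')).sqrt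
  have csl : ∀ i i', ContinuousOn (fun ω => sl (DD t p q ω) (DD s p q ω) i i') csq := fun i i' =>
    (continuousOn_const.mul ((cp i c1).sub (cp (!i') d1))).div (cd d1)
      fun ω hω => dl_ne (DD_im hP hs hω)
  have cdel : ContinuousOn (fun ω => (e1 t p q ω * conj (e2 t p q ω) -
      e2 t p q ω * conj (e1 t p q ω))⁻¹) csq :=
    ((c2.mul (cj c3)).sub (c3.mul (cj c2))).inv₀ fun ω hω => del_ne (hG.jpos _ _ _ _ ht hω)
  have cfm : ∀ f f', ContinuousOn
      (fun ω => fm (e1 t p q ω) (e2 t p q ω) (e1 s p q ω) (e2 s p q ω) f f') csq := by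
    intro f f'
    cases f
    · exact cdel.mul ((c2.mul (cp (!f') d3)).sub (c3.mul (cp (!f') d2)))
    · exact cdel.mul (((cj c3).mul (cp (!f') d2)).sub ((cj c2).mul (cp (!f') d3)))
  refine op_cont.comp_continuousOn (continuousOn_pi.2 fun k => continuousOn_pi.2 fun l => ?_)
  refine ((((continuous_ofReal.comp_continuousOn ((cs c2 c3).div (cs d2 d3) fun ω hω =>
    (Real.sqrt_pos.2 (hG.jpos _ _ _ _ hs hω)).ne')).mul ((cd d1).div (cd c1) fun ω hω =>
      dl_ne (DD_im hP ht hω))).mul (csl _ _)).mul (csl _ _)).mul (cfm _ _)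

lemma ae_csq : ∀ᵐ ω ∂volume.restrict sq, ω ∈ csq := by
  filter_upwards [ae_restrict_mem (measurableSet_Ioo.prod measurableSet_Ioo)] with ω hω
  exact ⟨Ioo_subset_Icc_self hω.1, Ioo_subset_Icc_self hω.2⟩

end TOPx

open TOPx in
theorem top : TOP_s := by
  intro H Dt _ nx rv g c t s ht hs
  have pt' : ∀ d, PosT t (c (nx (rv d))) (c d) := fun d => ⟨ht.im, ht.cim _, ht.cim _, ht.spos d⟩
  have ps' : ∀ d, PosT s (c (nx (rv d))) (c d) := fun d => ⟨hs.im, hs.cim _, hs.cim _, hs.spos d⟩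
  have hae := H.mul.mp_ae (fun d ω => op (Tm t s (c (nx (rv d))) (c d) ω))
    fun d => Tm_cont H.gep H.pol (pt' d) (ps' d)
  refine ⟨mP fun d ω => op (Tm t s (c (nx (rv d))) (c d) ω), fun U hU => ?_, fun x y => ?_,
    fun x d => ?_⟩
  · ext1 d
    refine Lp.ext ?_
    filter_upwards [hae (dP nx rv c s U) d, H.mul.cls_ae _ _ (H.pm.mem _ _ _ _ (ps' d) (hU d)),
      H.mul.cls_ae _ _ (H.pm.mem _ _ _ _ (pt' d) (hU d)), ae_csq] with ω a1 a2 a3 hω
    have b2 : dP nx rv c s U d ω = dq s (c (nx (rv d))) (c d) (U d) ω := a2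
    have b3 : dP nx rv c t U d ω = dq t (c (nx (rv d))) (c d) (U d) ω := a3
    rw [a1, b2, b3, dq, dq, map_smul]
    congr 1
    exact JJ_ch H.alg _ _ _ (DD_im H.pol (ps' d) hω) (H.gep.jpos _ _ _ _ (ps' d) hω) _ _
  · rw [H.mul.inn, H.mul.inn]
    refine Finset.sum_congr rfl fun d _ => integral_congr_ae ?_
    filter_upwards [hae x d, hae y d, weil_ae H.alg H.mul y d,
      weil_ae H.alg H.mul (mP (fun d ω => op (Tm t s (c (nx (rv d))) (c d) ω)) y) d, ae_csq]
      with ω a1 a2 a3 a4 hω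
    rw [a4, a3, a1, a2]
    exact form H.alg (DD_im H.pol (pt' d) hω) (H.gep.jpos _ _ _ _ (pt' d) hω)
      (DD_im H.pol (ps' d) hω) (H.gep.jpos _ _ _ _ (ps' d) hω) _ _
  · filter_upwards [hae x d] with ω a1 k
    rw [a1]
    exact H.alg.op_apply (Tm t s (c (nx (rv d))) (c d) ω) _ _

end Pool.Agent.MP_596265_gt.Hd.R

end

section

/-! Block R, row UG: the union of two adjacent faces. -/

namespace Pool.Agent.MP_596265_gt.Hd.R

open MeasureTheory Set Complex Metric Filter Topology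
open U.RG (cd cd_hd cd_cont cd_swap cd_cyc cd_left cd_right cd_bary HP_open OF CF Ψ κ_Ψ DS)

namespace UGx

/-- Two open triangles with the open common side. -/
def UA (P Q R S : ℂ) : Set ℂ :=
  {w | 0 < w.im ∧ (0 ≤ cd P Q w → 0 < cd Q R w ∧ 0 < cd R P w) ∧
    (cd P Q w ≤ 0 → 0 < cd P S w ∧ 0 < cd S Q w)}

variable {P Q R S w : ℂ}

theorem UA_open : IsOpen (UA P Q R S) := by
  have o : ∀ a b : ℂ, IsOpen {w | 0 < cd a b w} := fun a b =>
    isOpen_lt continuous_const (cd_cont a b)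
  have o' : IsOpen {w | cd P Q w < 0} := isOpen_lt (cd_cont P Q) continuous_const
  convert HP_open.inter ((o'.union ((o Q R).inter (o R P))).inter
    ((o P Q).union ((o P S).inter (o S Q)))) using 1
  ext w
  simp only [UA, U.RG.HP, mem_ofPred_eq, mem_inter_iff, mem_union, imp_iff_not_or, not_le]

theorem mem_UA (h1 : 0 < cd P Q R) (h2 : 0 < cd P S Q) (hw : w ∈ CF P Q R) (a : 0 < cd Q R w)
    (b : 0 < cd R P w) : w ∈ UA P Q R S := by
  refine ⟨hw.1, fun _ => ⟨a, b⟩, fun h => ?_⟩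
  have e := le_antisymm h hw.2.1
  have e1 := cd_bary P Q R w P S
  have e2 := cd_bary P Q R w S Q
  rw [e, cd_left] at e1
  rw [e, cd_right, cd_cyc P S Q] at e2
  exact ⟨(mul_pos_iff_of_pos_left h1).1 (by rw [e1]; simpa only [mul_zero, zero_add, zero_mul, add_zero] using mul_pos b h2),
    (mul_pos_iff_of_pos_left h1).1 (by rw [e2]; simpa only [mul_zero, add_zero, zero_mul] using mul_pos a h2)⟩

theorem vert (hP : P ∈ U.RG.HP) (hw : w ∈ U.RG.HP) (h : 0 < cd P Q R) (a : cd P Q w = 0)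
    (b : cd R P w = 0) : w = P := by
  rw [← κ_Ψ hP, ← κ_Ψ hw]
  congr 1
  simp only [cd, det3] at h a b
  refine Prod.ext (mul_left_cancel₀ h.ne' ?_) (mul_left_cancel₀ h.ne' ?_)
  · linear_combination ((Ψ R).1 - (Ψ P).1) * a + ((Ψ Q).1 - (Ψ P).1) * b
  · linear_combination ((Ψ R).2 - (Ψ P).2) * a + ((Ψ Q).2 - (Ψ P).2) * b

theorem cd_seg (h : Ψ w ∈ openSegment ℝ (Ψ P) (Ψ Q)) :
    ∃ s t : ℝ, 0 < s ∧ 0 < t ∧ ∀ x y, cd x y w = s * cd x y P + t * cd x y Q := by
  obtain ⟨s, t, hs, ht, e, e'⟩ := h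
  refine ⟨s, t, hs, ht, fun x y => ?_⟩
  obtain rfl : s = 1 - t := by linarith
  simp only [cd, ← e', det3, Prod.fst_add, Prod.snd_add, Prod.smul_fst, Prod.smul_snd, smul_eq_mul]
  ring

theorem null (hT : TRI_s) (hP : P ∈ U.RG.HP) (hQ : Q ∈ U.RG.HP) (h : 0 < cd P Q R) :
    ∀ᵐ w : ℂ, cd P Q w ≠ 0 := by
  have := hT.null P Q (by rintro rfl; simp [cd, det3] at h) hP hQ
  rw [← cd_hd] at this
  simpa only [ne_eq, ae_iff, Decidable.not_not] using this

variable {Dt : Type} {nx rv : Dt → Dt} {g : Dt → G} {z : ℂ}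

theorem UU_eq (d : Dt) : UU nx rv g z d =
    UA z (mob (g d) z) (mob (g d * g (nx d)) z) (mob (g (nx (rv d))) z) := by
  simp only [UU, sd, UA, cd_hd]

theorem face_eq (d : Dt) : face nx g z d = CF z (mob (g d) z) (mob (g d * g (nx d)) z) := by
  rw [U.RG.CF_tri, face]

theorem face_eq' (H : DS nx rv g z) (d : Dt) :
    face nx g z (nx (rv d)) = CF z (mob (g (nx (rv d))) z) (mob (g d) z) := by
  rw [face_eq, ← U.RG.mob_hd, H.link']

theorem pos' (H : DS nx rv g z) (d : Dt) : 0 < cd z (mob (g (nx (rv d))) z) (mob (g d) z) := by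
  have := H.pos (nx (rv d))
  rwa [H.link'] at this

theorem mem_UU (H : DS nx rv g z) (d : Dt) (hw : w ∈ U.RG.cface nx g z d)
    (a : 0 < cd (mob (g d) z) (mob (g d * g (nx d)) z) w)
    (b : 0 < cd (mob (g d * g (nx d)) z) z w) : w ∈ UU nx rv g z d := by
  rw [UU_eq]
  exact mem_UA (H.pos d) (pos' H d) hw a b

theorem cover (H : DS nx rv g z) (d : Dt) (hw : w ∈ U.RG.cface nx g z d) :
    w = z ∨ w = mob (g d) z ∨ w = mob (g d * g (nx d)) z ∨
      w ∈ UU nx rv g z d ∨ mob (g d)⁻¹ w ∈ UU nx rv g z (nx d) ∨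
      mob (g d * g (nx d))⁻¹ w ∈ UU nx rv g z (nx (nx d)) := by
  have h1 := U.RG.mob_mem (g d)⁻¹ hw.1
  have h2 := U.RG.mob_mem (g (nx d))⁻¹ h1
  have r1 := H.rot_cd d h1
  have r2 := H.rot_cd (nx d) h2
  have c1 := H.rot_cface d h1
  have c2 := H.rot_cface (nx d) h2
  rw [U.RG.mob_mob_inv _ hw.1] at r1 c1
  rw [U.RG.mob_mob_inv _ h1] at r2 c2
  have p := H.pos d
  rcases hw.2.1.eq_or_lt with a | a <;> rcases hw.2.2.1.eq_or_lt with b | b <;>
    rcases hw.2.2.2.eq_or_lt with c | c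
  · exact .inl (vert H.hz hw.1 p a.symm c.symm)
  · exact .inr (.inl (vert (H.m1 d) hw.1 (by rwa [cd_cyc]) b.symm a.symm))
  · exact .inl (vert H.hz hw.1 p a.symm c.symm)
  · exact .inr (.inr (.inr (.inl (mem_UU H d hw b c))))
  · exact .inr (.inr (.inl (vert (H.m2 d) hw.1 (by rwa [← cd_cyc]) c.symm b.symm)))
  · exact .inr (.inr (.inr (.inr (.inl (mem_UU H _ (c1.1 hw) (r1.2.1.2 c) (r1.2.2.2 a))))))
  · refine .inr (.inr (.inr (.inr (.inr ?_))))
    rw [mul_inv_rev, ← U.RG.mob_hd, U.RG.mob_mul _ _ hw.1]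
    exact mem_UU H _ (c2.1 (c1.1 hw)) (r2.2.1.2 (r1.2.2.2 a)) (r2.2.2.2 (r1.1.2 b))
  · exact .inr (.inr (.inr (.inl (mem_UU H d hw b c))))

end UGx

open UGx in
theorem ug : UG_s := by
  classical
  intro hA Dt _ nx rv g z h d
  have H := U.RG.ds_of_ok h
  have p : 0 < cd z (mob (g d) z) (mob (g d * g (nx d)) z) := H.pos d
  have es : ∀ w, sd g z d w = cd z (mob (g d) z) w := fun w => by rw [sd, cd_hd]
  have o : IsOpen (UU nx rv g z d) := UU_eq d ▸ UA_open
  have f1 : ∀ w ∈ UU nx rv g z d, (0 ≤ sd g z d w → w ∈ face nx g z d) ∧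
      (sd g z d w ≤ 0 → w ∈ face nx g z (nx (rv d))) := fun w hw => by
    rw [face_eq' H, face_eq, es]
    rw [UU_eq] at hw
    exact ⟨fun a => ⟨hw.1, a, (hw.2.1 a).1.le, (hw.2.1 a).2.le⟩, fun a =>
      ⟨hw.1, (hw.2.2 a).1.le, (hw.2.2 a).2.le, by rw [cd_swap]; linarith⟩⟩
  have f3 : ∀ w ∈ face nx g z (nx (rv d)), sd g z d w ≤ 0 := fun w hw => by
    rw [face_eq' H] at hw
    have := hw.2.2.2
    rw [cd_swap] at this
    rw [es]
    linarith
  have ms : MeasurableSet {w | 0 ≤ sd g z d w} := by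
    simp only [es]
    exact (isClosed_le continuous_const (cd_cont _ _)).measurableSet
  have mf : ∀ e, MeasurableSet (face nx g z e) := fun e => by
    rw [face_eq]
    exact (U.RG.CF_compact H.hz (H.m1 e) (H.m2 e) (H.pos e)).measurableSet
  have s1 : {w | 0 ≤ sd g z d w} ∩ UU nx rv g z d ⊆ face nx g z d := fun w hw =>
    (f1 w hw.2).1 hw.1
  have s2 : {w | 0 ≤ sd g z d w}ᶜ ∩ UU nx rv g z d ⊆ face nx g z (nx (rv d)) := fun w hw =>
    (f1 w hw.2).2 (le_of_not_ge hw.1)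
  have n1 := null hA.tri H.hz (H.m1 d) p
  refine ⟨o, fun w hw => mem_UU H d (U.RG.OF_sub_CF _ _ _ hw) hw.2.2.1 hw.2.2.2, fun w hw => ?_,
    f1, fun w hw => hw.2.1, f3, fun w hw => cover H d (by rwa [U.RG.cface_face]),
    fun w hw hs => ?_, ?_, fun x => ?_, fun f f' i1 i2 h0 => ?_⟩
  · rw [U.RG.oface, H.link', U.RG.mob_hd] at hw
    rw [UU_eq]
    have := hw.2.2.2
    rw [cd_swap] at this
    exact ⟨hw.1, fun a => absurd a (by linarith), fun _ => ⟨hw.2.1, hw.2.2.1⟩⟩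
  · obtain ⟨s, t, hs, ht, e⟩ := cd_seg hs
    have a : 0 < cd (mob (g d) z) (mob (g d * g (nx d)) z) w := by
      rw [e, cd_left, cd_cyc]
      simpa only [mul_zero, add_zero] using mul_pos hs p
    have b : 0 < cd (mob (g d * g (nx d)) z) z w := by
      rw [e, cd_right, ← cd_cyc]
      simpa only [mul_zero, zero_add] using mul_pos ht p
    exact mem_UU H d ⟨hw, by rw [e, cd_left, U.RG.mob_hd, cd_right]; simp, a.le, b.le⟩ a b
  · filter_upwards [ae_restrict_mem (mf d), ae_restrict_of_ae n1,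
      ae_restrict_of_ae (null hA.tri (H.m1 d) (H.m2 d) (R := z) (by rwa [cd_cyc])),
      ae_restrict_of_ae (null hA.tri (H.m2 d) H.hz (R := mob (g d) z) (by rwa [← cd_cyc]))]
      with w hw a b c
    rw [face_eq] at hw
    exact ⟨hw.1, hw.2.1.lt_of_ne' a, hw.2.2.1.lt_of_ne' b, hw.2.2.2.lt_of_ne' c⟩
  · refine MemLp.piecewise (s := {w | 0 ≤ sd g z d w}) (f := x d) (g := x (nx (rv d))) ms ?_ ?_
    · rw [Measure.restrict_restrict ms]
      exact (Lp.memLp _).mono_measure (Measure.restrict_mono s1 le_rfl)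
    · rw [Measure.restrict_restrict ms.compl]
      exact (Lp.memLp _).mono_measure (Measure.restrict_mono s2 le_rfl)
  · refine (integral_piecewise (f := f) (g := f') ms ?_ ?_).trans ?_
    · rw [IntegrableOn, Measure.restrict_restrict ms]
      exact i1.mono_set s1
    · rw [IntegrableOn, Measure.restrict_restrict ms.compl]
      exact i2.mono_set s2
    · rw [Measure.restrict_restrict ms, Measure.restrict_restrict ms.compl,
        setIntegral_eq_of_subset_of_forall_sdiff_eq_zero (mf _) s1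
          fun w hw => (h0 w fun a => hw.2 ⟨hw.1.2.1, a⟩).1,
        setIntegral_eq_of_subset_of_ae_sdiff_eq_zero (mf _).nullMeasurableSet s2]
      filter_upwards [n1] with w a hw
      exact (h0 w fun b => hw.2 ⟨fun c => a (es w ▸ le_antisymm (f3 w hw.1) c), b⟩).2

end Pool.Agent.MP_596265_gt.Hd.R

end

section

/-! Block R, row VF: transfer between the polar squares and the faces. -/

namespace Pool.Agent.MP_596265_gt.Hd.R

open MeasureTheory Set Complex Metric Filter Topology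
open scoped ComplexConjugate InnerProductSpace Matrix.Norms.Elementwise

namespace VFx

section geo

lemma hd_rot (p q r : ℂ) : hd p q r = hd q r p := by unfold hd; ring
lemma hd_swap (p q r : ℂ) : hd q p r = -hd p q r := by unfold hd; ring
lemma pos_rot {p q r : ℂ} (h : PosT p q r) : PosT q r p :=
  ⟨h.2.1, h.2.2.1, h.1, hd_rot p q r ▸ h.2.2.2⟩

variable (hA : ALG_s) (hT : TRI_s)
include hA

lemma mob_pm {a : G} (h : a = 1 ∨ a = -1) (w : ℂ) : mob a w = w := by
  rcases h with rfl | rfl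
  · exact hA.mob_one w
  · rw [hA.mob_neg, hA.mob_one]

include hT in
lemma pos_mob (a : G) {p q r : ℂ} (h : PosT p q r) : PosT (mob a p) (mob a q) (mob a r) := by
  refine ⟨hA.mob_pos a p h.1, hA.mob_pos a q h.2.1, hA.mob_pos a r h.2.2.1, ?_⟩
  rw [hT.hd_mob a p q r h.1.ne' h.2.1.ne' h.2.2.1.ne']
  exact div_pos h.2.2.2 (mul_pos (mul_pos (normSq_pos.2 (hA.den_ne a p h.1.ne'))
    (normSq_pos.2 (hA.den_ne a q h.2.1.ne'))) (normSq_pos.2 (hA.den_ne a r h.2.2.1.ne')))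

variable {Dt : Type} {nx rv : Dt → Dt} {g : Dt → G} {c : Dt → ℂ} {z : ℂ}

lemma gr (h : Flat nx rv g) (d : Dt) {w : ℂ} (hw : 0 < w.im) :
    mob (g d) (mob (g (rv d)) w) = w := by
  rw [← hA.mob_mul _ _ _ hw.ne', mob_pm hA (h.gr d)]

lemma gf (h : Flat nx rv g) (d : Dt) {w : ℂ} (hw : 0 < w.im) :
    mob (g d) (mob (g (nx d) * g (nx (nx d))) w) = w := by
  rw [← hA.mob_mul _ _ _ hw.ne', ← mul_assoc, mob_pm hA (h.gf d)]

lemma third (h : Flat nx rv g) (d : Dt) {w : ℂ} (hw : 0 < w.im) :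
    mob (g (nx (rv d)) * g (nx (nx (rv d)))) w = mob (g d) w := by
  have h1 := congrArg (mob (g d)) (gf hA h (rv d) hw)
  rwa [gr hA h d (hA.mob_pos _ _ hw)] at h1

lemma face_pos (h : Ok nx rv g z) (d : Dt) : PosT z (mob (g d) z) (mob (g d * g (nx d)) z) :=
  ⟨h.im, hA.mob_pos _ _ h.im, hA.mob_pos _ _ h.im, h.pos d⟩

include hT

omit hT in
lemma kite1 (h : Star nx rv g c z) (d : Dt) : PosT z (mob (g d) z) (c d) :=
  ⟨h.im, hA.mob_pos _ _ h.im, h.cim d, h.cin d⟩

lemma kite2 (h : Star nx rv g c z) (d : Dt) :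
    PosT (mob (g d) z) (mob (g d * g (nx d)) z) (c d) := by
  have h1 := pos_mob hA hT (g d) (kite1 hA h (nx d))
  rwa [← h.crot, ← hA.mob_mul _ _ _ h.im.ne'] at h1

lemma kite3 (h : Star nx rv g c z) (d : Dt) : PosT (mob (g d * g (nx d)) z) z (c d) := by
  have h1 := pos_mob hA hT (g d) (kite2 hA hT h (nx d))
  rwa [← h.crot, gf hA h.toFlat d h.im, ← hA.mob_mul _ _ _ h.im.ne'] at h1

omit hT in
lemma c_sg (h : Star nx rv g c z) (d : Dt) : mob (g d) (c (rv d)) = c (nx (rv d)) := by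
  rw [h.crot (rv d), gr hA h.toFlat d (h.cim _)]

omit hA hT in
lemma str_pos (h : Star nx rv g c z) (d : Dt) : PosT z (c (nx (rv d))) (c d) :=
  ⟨h.im, h.cim _, h.cim d, h.spos d⟩

/-- The half of the star of `d` in the face before `d`. -/
lemma half (hG : GLUE_s) (h : Star nx rv g c z) (d : Dt) : PosT z (c (nx (rv d))) (mob (g d) z) ∧
    tri z (c (nx (rv d))) (mob (g d) z) ⊆ face nx g z (nx (rv d)) := by
  have h3 := kite3 hA hT h (nx (rv d))
  have h4 := (hG.kite _ _ _ _ (kite1 hA h (nx (rv d))) (kite2 hA hT h _) h3).2.1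
  rw [face, h4, third hA h.toFlat d h.im] at *
  exact ⟨pos_rot h3, by rw [← hT.tri_rot]; exact subset_union_right⟩

lemma str_sub (hG : GLUE_s) (h : Star nx rv g c z) (d : Dt) :
    str nx rv c z d ⊆ face nx g z d ∪ face nx g z (nx (rv d)) := by
  have h1 := pos_mob hA hT (g d) (str_pos h (rv d))
  rw [h.r2, ← h.crot, c_sg hA h] at h1
  have h2 := (hG.quad _ _ _ _ (half hA hT hG h d).1 (kite1 hA h d) (str_pos h d)
    (pos_rot (pos_rot h1))).1
  have h4 := (hG.kite _ _ _ _ (kite1 hA h d) (kite2 hA hT h d) (kite3 hA hT h d)).2.1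
  intro w hw
  rcases h2.symm.subset (.inl hw) with h3 | h3
  · exact .inr ((half hA hT hG h d).2 h3)
  · exact .inl (h4.symm.subset (.inl (.inl h3)))

/-- Near the apex a face is covered by two stars. -/
lemma cover (hG : GLUE_s) (h : Star nx rv g c z) (d : Dt) {w : ℂ}
    (hw : w ∈ face nx g z (nx (rv d))) (h1 : 0 < hd (c (nx (rv d))) (c d) w)
    (h2 : 0 < hd (c (nx (rv (nx (rv d))))) (c (nx (rv d))) w) :
    w ∈ str nx rv c z (nx (rv d)) ∪ str nx rv c z d := by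
  rcases le_total 0 (hd (c (nx (rv d))) z w) with h3 | h3
  · refine .inl ⟨hw.1, ?_, h2.le, h3⟩
    have k1 := (half hA hT hG h (nx (rv d))).1.2.2.2
    have k2 := h.cin (nx (rv d))
    have k3 := h.spos (nx (rv d))
    have k4 := hw.2.1
    generalize c (nx (rv (nx (rv d)))) = s at *
    generalize c (nx (rv d)) = C at *
    generalize mob (g (nx (rv d))) z = P at *
    have e : hd z s w * hd z P C = hd z s P * hd C z w + hd z s C * hd z P w := by
      unfold hd; ring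
    exact le_of_mul_le_mul_right (by rw [zero_mul, e]; positivity) k2
  · have h3' : 0 ≤ hd z (c (nx (rv d))) w := by rw [hd_swap]; linarith
    refine .inr ⟨hw.1, h3', h1.le, ?_⟩
    have k1 := (half hA hT hG h d).1.2.2.2
    have k2 := h.cin d
    have k3 := h.spos d
    have k4 := hw.2.2.2
    rw [third hA h.toFlat d h.im] at k4
    generalize c (nx (rv d)) = C at *
    generalize c d = t at *
    generalize mob (g d) z = R at *
    have e : hd t z w * hd z C R = hd R z w * hd z C t + hd z C w * hd z R t := by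
      unfold hd; ring
    exact le_of_mul_le_mul_right (by rw [zero_mul, e]; positivity) k1

end geo

theorem nul (hT : TRI_s) {p q : ℂ} {A B : Set ℂ} (hne : p ≠ q) (hp : 0 < p.im) (hq : 0 < q.im)
    (h1 : ∀ w ∈ A, 0 ≤ hd p q w) (h2 : ∀ w ∈ B, 0 ≤ hd q p w) : AEDisjoint volume A B := by
  refine measure_mono_null (fun w hw => ?_) (hT.null p q hne hp hq)
  have h3 := h2 w hw.2
  rw [hd_swap] at h3
  exact le_antisymm (by linarith) (h1 w hw.1)

theorem ne_of_pos {p q r : ℂ} (h : PosT p q r) : p ≠ q := by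
  rintro rfl
  have := h.2.2.2
  simp [hd] at this

theorem split {A B C : Set ℂ} {f : ℂ → ℂ} (hA : MeasurableSet A) (hC : MeasurableSet C)
    (hs : ∀ w ∈ A, w ∉ B ∪ C → f w = 0) (hd : AEDisjoint volume B C) (h1 : IntegrableOn f (A ∩ B))
    (h2 : IntegrableOn f (A ∩ C)) :
    ∫ w in A, f w = (∫ w in A ∩ B, f w) + ∫ w in A ∩ C, f w := by
  rw [← setIntegral_union₀ (hd.mono inter_subset_right inter_subset_right)
    (hA.inter hC).nullMeasurableSet h1 h2, ← inter_union_distrib_left]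
  exact setIntegral_eq_of_subset_of_forall_sdiff_eq_zero hA inter_subset_left
    fun w hw => hs w hw.1 fun k => hw.2 ⟨hw.1, k⟩

theorem Ii_smul (r : ℝ) (y : E8) (β : ℂ → ℂ) (w : ℂ) :
    Ii ((r : ℂ) • y) β w = (r ^ 2 : ℝ) * Ii y β w := by
  simp only [Ii, PiLp.smul_apply, smul_eq_mul, map_mul, normSq_ofReal, conj_ofReal]
  push_cast
  ring

theorem Ii_zero (y : E8) {β : ℂ → ℂ} {w : ℂ} (hw : w ∉ tsupport β) : Ii y β w = 0 := by
  simp [Ii, dzb, image_eq_zero_of_notMem_tsupport hw, fderiv_of_notMem_tsupport ℝ hw]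

theorem Ii_int {K : Set ℂ} (hK : IsCompact K) (x : Lp E8 2 (volume.restrict K)) {β : ℂ → ℂ}
    (hβ : ContDiff ℝ 1 β) : IntegrableOn (fun w => Ii (x w) β w) K := by
  have m : ∀ k, MemLp (fun w => x w k) 2 (volume.restrict K) := fun k =>
    (EuclideanSpace.proj k : E8 →L[ℂ] ℂ).comp_memLp' (Lp.memLp x)
  have i : ∀ k l, IntegrableOn (fun w => conj (x w k) * x w l) K := fun k l =>
    (m k).star.integrable_mul (m l)
  have c1 : Continuous (fderiv ℝ β) := hβ.continuous_fderiv one_ne_zero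
  have c2 : Continuous fun w => dl w * dzb β w := by
    unfold dl dzb
    fun_prop
  have i1 := IntegrableOn.continuousOn_mul hβ.continuous.continuousOn
    ((i ttf ttf).add ((i tft tft).const_mul 2)) hK
  have i2 := (i ttf tft).mul_continuousOn c2.continuousOn hK
  refine (i1.add i2).congr (Eventually.of_forall fun w => ?_)
  simp only [Ii, Pi.add_apply]
  push_cast
  rw [normSq_eq_conj_mul_self, normSq_eq_conj_mul_self]
  ring

theorem sq_sub : sq ⊆ csq := prod_mono Ioo_subset_Icc_self Ioo_subset_Icc_self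
theorem sq_meas : MeasurableSet sq := measurableSet_Ioo.prod measurableSet_Ioo

variable {Dt : Type} {nx rv : Dt → Dt} {g : Dt → G} {c : Dt → ℂ} {z : ℂ}

theorem face_meas (H : HA) (h : Star nx rv g c z) (d : Dt) : MeasurableSet (face nx g z d) :=
  (H.tri.cpt _ _ _ (face_pos H.alg h.toOk d)).measurableSet

theorem str_meas (H : HA) (h : Star nx rv g c z) (d : Dt) : MeasurableSet (str nx rv c z d) :=
  (H.tri.cpt _ _ _ (str_pos h d)).measurableSet

theorem pull (H : HA) (h : Star nx rv g c z) (d e : Dt) {P : ℂ → Prop}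
    (hP : ∀ᵐ w ∂volume.restrict (face nx g z e), P w) :
    ∀ᵐ ω ∂volume.restrict sq, Dd nx rv c z d ω ∈ face nx g z e → P (Dd nx rv c z d ω) :=
  (H.cvp.ae _ _ _ (fun w => w ∈ face nx g z e → P w) (str_pos h d)).1
    (ae_restrict_of_ae ((ae_restrict_iff' (face_meas H h e)).1 hP))

theorem two (H : HA) (h : Star nx rv g c z) (d : Dt) : ∀ᵐ ω ∂volume.restrict sq,
    Dd nx rv c z d ω ∈ face nx g z d ∨ Dd nx rv c z d ω ∈ face nx g z (nx (rv d)) := by
  filter_upwards [ae_restrict_mem sq_meas] with ω hω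
  refine str_sub H.alg H.tri H.glue h d ?_
  rw [str, ← H.pol.img _ _ _ (str_pos h d)]
  exact mem_image_of_mem _ (sq_sub hω)

theorem near (H : HA) (h : Star nx rv g c z) (d : Dt) : ∀ᶠ w in 𝓝 z,
    0 < hd (c (nx (rv d))) (c d) w ∧ ∀ ω ∈ csq, ω.2 ≤ 1 / 2 → Dd nx rv c z d ω ≠ w := by
  obtain ⟨C, hC⟩ := H.pol.inj _ _ _ (str_pos h d)
  have c1 : Continuous (hd (c (nx (rv d))) (c d)) := by
    unfold hd
    fun_prop
  have c2 : Continuous fun w : ℂ => C * ‖w - z‖ := by fun_prop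
  have e1 : ∀ᶠ w in 𝓝 z, 0 < hd (c (nx (rv d))) (c d) w :=
    continuousAt_const.eventually_lt c1.continuousAt (hd_rot z _ _ ▸ h.spos d)
  have e2 : ∀ᶠ w in 𝓝 z, C * ‖w - z‖ < 1 / 2 :=
    c2.continuousAt.eventually_lt continuousAt_const (by simp)
  filter_upwards [e1, e2] with w h1 h2
  refine ⟨h1, fun ω hω h3 h4 => ?_⟩
  have h5 := hC ω hω (ω.1, 1) ⟨hω.1, zero_le_one, le_rfl⟩
  have h6 : DD z (c (nx (rv d))) (c d) (ω.1, 1) = z := by simp [DD, ray]
  rw [h6, show DD z (c (nx (rv d))) (c d) ω = w from h4] at h5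
  simp only [sub_self, abs_zero, mul_zero, zero_add] at h5
  have h7 := neg_abs_le (ω.2 - 1)
  linarith

theorem vtx [Fintype Dt] (H : HA) (h : Star nx rv g c z) (x : HT nx g z) (a : HP Dt)
    (hL : Link nx rv g c z x a) (hV : VtxP nx rv c z a) : VtxI nx g z x := by
  classical
  obtain ⟨ρ, hρ, hb⟩ := Metric.eventually_nhds_iff_ball.1 (eventually_all.2 (near H h))
  refine ⟨ρ, hρ, fun β hβ hs => ?_⟩
  have h0 := hV β hβ fun d ω hω h2 => image_eq_zero_of_notMem_tsupport fun k =>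
    (hb _ (hs k) d).2 ω hω h2 rfl
  set F : Dt → ℂ → ℂ := fun e w => Ii (x e w) β w with hF
  have iF : ∀ e, IntegrableOn (F e) (face nx g z e) := fun e =>
    Ii_int (H.tri.cpt _ _ _ (face_pos H.alg h.toOk e)) (x e) hβ
  have fm := face_meas H h
  have sm := str_meas H h
  have df : ∀ d, AEDisjoint volume (face nx g z d) (face nx g z (nx (rv d))) := fun d =>
    nul H.tri (ne_of_pos (face_pos H.alg h.toOk d)) h.im (H.alg.mob_pos _ _ h.im)
      (fun w hw => hw.2.1) fun w hw => third H.alg h.toFlat d h.im ▸ hw.2.2.2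
  have ds : ∀ d, AEDisjoint volume (str nx rv c z (nx (rv d))) (str nx rv c z d) := fun d =>
    nul H.tri (ne_of_pos (str_pos h d)).symm (h.cim _) h.im (fun w hw => hw.2.2.2)
      fun w hw => hw.2.1
  have e1 : ∀ d, ∫ ω in sq, Ii (a d ω) β (Dd nx rv c z d ω) =
      (∫ w in face nx g z d ∩ str nx rv c z d, F d w) +
        ∫ w in face nx g z (nx (rv d)) ∩ str nx rv c z d, F (nx (rv d)) w := by
    intro d
    set Y : ℂ → ℂ := fun w => if w ∈ face nx g z d then F d w else F (nx (rv d)) w with hY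
    have y1 : EqOn Y (F d) (str nx rv c z d ∩ face nx g z d) := fun w hw => if_pos hw.2
    have y2 : Y =ᵐ[volume.restrict (str nx rv c z d ∩ face nx g z (nx (rv d)))] F (nx (rv d)) := by
      refine (ae_restrict_iff' ((sm d).inter (fm _))).2 ?_
      filter_upwards [measure_eq_zero_iff_ae_notMem.1 (df d)] with w hw hw'
      exact if_neg fun k => hw ⟨k, hw'.2⟩
    have k1 : ∫ ω in sq, Ii (a d ω) β (Dd nx rv c z d ω) = ∫ w in str nx rv c z d, Y w := by
      rw [str, (H.cvp.int _ _ _ Y (str_pos h d)).1]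
      refine integral_congr_ae ?_
      filter_upwards [hL d, two H h d] with ω h1 h2
      by_cases h3 : Dd nx rv c z d ω ∈ face nx g z d
      · rw [h1.1 h3, Ii_smul]
        exact congrArg _ (if_pos h3).symm
      · rw [h1.2 (h2.resolve_left h3), Ii_smul]
        exact congrArg _ (if_neg h3).symm
    rw [k1, split (sm d) (fm _) (fun w hw k => absurd (str_sub H.alg H.tri H.glue h d hw) k) (df d)
      (((iF d).mono_set inter_subset_right).congr_fun y1.symm ((sm d).inter (fm d)))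
      (((iF _).mono_set inter_subset_right).congr y2.symm),
      setIntegral_congr_fun ((sm d).inter (fm d)) y1, integral_congr_ae y2, inter_comm,
      inter_comm (str nx rv c z d)]
  have e2 : ∀ d, ∫ w in face nx g z (nx (rv d)), F (nx (rv d)) w =
      (∫ w in face nx g z (nx (rv d)) ∩ str nx rv c z (nx (rv d)), F (nx (rv d)) w) +
        ∫ w in face nx g z (nx (rv d)) ∩ str nx rv c z d, F (nx (rv d)) w := fun d =>
    split (fm _) (sm d) (fun w hw k => Ii_zero _ fun k' =>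
      k (cover H.alg H.tri H.glue h d hw (hb _ (hs k') d).1 (hb _ (hs k') _).1)) (ds d)
      ((iF _).mono_set inter_subset_left) ((iF _).mono_set inter_subset_left)
  have bij : Function.Bijective fun d => nx (rv d) := by
    refine Finite.injective_iff_bijective.1 fun d d' k => ?_
    have k1 : rv d = rv d' := by rw [← h.n3 (rv d), show nx (rv d) = nx (rv d') from k, h.n3]
    rw [← h.r2 d, k1, h.r2]
  rw [← bij.sum_comp fun e => ∫ w in face nx g z e, F e w, ← h0]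
  simp only [e1, e2, Finset.sum_add_distrib]
  rw [bij.sum_comp fun e => ∫ w in face nx g z e ∩ str nx rv c z e, F e w]

theorem pt2 {y : E8} (hs : ∀ i j f, y (i, j, f) = y (j, i, f) ∧ y (!i, !j, !f) = -conj (y (i, j, f)))
    (hn : y ttf = 0 ∧ y tft = 0) (r : ℝ) :
    (∀ k, k ≠ ttt → k ≠ fff → ((r : ℂ) • y) k = 0) ∧
      ((r : ℂ) • y) fff = -conj (((r : ℂ) • y) ttt) := by
  have h1 : y (false, true, true) = 0 := (hs false true true).1.trans hn.2
  have h2 : y (false, false, true) = 0 := by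
    have := (hs true true false).2
    rwa [hn.1, map_zero, neg_zero] at this
  have h3 : y (false, true, false) = 0 := by
    have := (hs true false true).2
    rwa [hn.2, map_zero, neg_zero] at this
  have h4 : y (true, false, false) = 0 := (hs true false false).1.trans h3
  have h5 : y fff = -conj (y ttt) := (hs true true true).2
  constructor
  · rintro ⟨_ | _, _ | _, _ | _⟩ k1 k2 <;>
      simp only [PiLp.smul_apply, smul_eq_mul, mul_eq_zero]
    · exact absurd rfl k2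
    · exact .inr h2
    · exact .inr h3
    · exact .inr h1
    · exact .inr h4
    · exact .inr hn.2
    · exact .inr hn.1
    · exact absurd rfl k1
  · simp only [PiLp.smul_apply, smul_eq_mul, map_mul, conj_ofReal, h5, mul_neg]

end VFx

open VFx in
theorem vf : VF_s := by
  intro H Dt _ nx rv g c z h x a hL
  refine ⟨fun hS d => ?_, VFx.vtx H h x a hL, fun φ hS hN hH d => ?_⟩
  · filter_upwards [hL d, two H h d, pull H h d d (hS d), pull H h d _ (hS (nx (rv d)))]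
      with ω h1 h2 h3 h4
    rcases h2 with h2 | h2
    · rw [h1.1 h2, PiLp.smul_apply, PiLp.smul_apply, (h3 h2 true false true).1]
    · rw [h1.2 h2, PiLp.smul_apply, PiLp.smul_apply, (h4 h2 true false true).1]
  · filter_upwards [hL d, two H h d, pull H h d d (hS d), pull H h d _ (hS (nx (rv d))),
      pull H h d d (hN d), pull H h d _ (hN (nx (rv d))), pull H h d d (hH.2 d),
      pull H h d _ (hH.2 (nx (rv d)))] with ω h1 h2 h3 h4 h5 h6 h7 h8
    rw [← and_assoc]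
    refine ⟨?_, fun k => ?_, fun k => ?_⟩
    · rcases h2 with h2 | h2
      · rw [h1.1 h2]
        exact pt2 (h3 h2) (h5 h2) _
      · rw [h1.2 h2]
        exact pt2 (h4 h2) (h6 h2) _
    · rw [h1.1 k, PiLp.smul_apply, smul_eq_mul, h7 k]
    · rw [h1.2 k, PiLp.smul_apply, smul_eq_mul, h8 k]

end Pool.Agent.MP_596265_gt.Hd.R

end

section

/-! Block R: the abstract Hilbert space rows. -/

namespace Pool.Agent.MP_596265_gt.Hd.R

open scoped InnerProductSpace

namespace RA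

variable {H : Type} [NormedAddCommGroup H] [InnerProductSpace ℂ H] [CompleteSpace H]
  {π : ℕ → H →L[ℂ] H} {θ : H →L[ℂ] H} {B : ℕ → Submodule ℂ H} (G : V18.Vhs π θ B)
include G

theorem pp {p q : ℕ} (hp : p < 4) (h : p ≠ q) (x : H) : π p (π q x) = 0 := by
  have := G.inner_pi hp (π q x) (π q x)
  rw [G.orth p q h] at this
  exact inner_self_eq_zero.1 this.symm

theorem pq {p : ℕ} (hp : p < 4) (x : H) : π p (π p x) = π p x :=
  ext_inner_left ℂ fun y => by rw [← G.adj hp, ← G.inner_pi hp, G.adj hp]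

theorem tz {p q : ℕ} (hp : p < 3) (hq : q < 4) (h1 : q ≠ p + 1) (h2 : q ≠ p) {b : H}
    (hb : b ∈ B p) : π q b = 0 := by
  rw [← G.typ p hp b hb, map_add, pp G hq h1, pp G hq h2, add_zero]

theorem weil_eq (x y : H) : ⟪x, V18.weil π y⟫_ℂ = ⟪π 3 x, π 3 y⟫_ℂ - ⟪π 2 x, π 2 y⟫_ℂ +
    ⟪π 1 x, π 1 y⟫_ℂ - ⟪π 0 x, π 0 y⟫_ℂ := by
  have h : ∀ p < 4, ⟪x, π p y⟫_ℂ = ⟪π p x, π p y⟫_ℂ := fun p hp => by
    rw [← G.adj hp, G.inner_pi hp]
  simp only [V18.weil, inner_add_right, inner_sub_right]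
  rw [h 3 (by omega), h 2 (by omega), h 1 (by omega), h 0 (by omega)]

theorem weil_norm (y : H) : ‖V18.weil π y‖ = ‖y‖ := by
  have := G.norm_sq (V18.weil π y)
  simp [V18.weil, pp G, pq G] at this
  rw [G.norm_sq y] at this
  exact ((pow_left_inj₀ (norm_nonneg _) (norm_nonneg _) two_ne_zero).1 this).symm

theorem le32 (x : H) : ‖π 3 x + π 2 x‖ ≤ ‖x‖ := by
  have h1 := G.norm_sq (π 3 x + π 2 x)
  have h2 := G.norm_sq x
  simp only [map_add, Nat.ofNat_pos, ne_eq, OfNat.zero_ne_ofNat, not_false_eq_true, pp G, add_zero, norm_zero, OfNat.ofNat_ne_zero, zero_pow, Nat.one_lt_ofNat, OfNat.one_ne_ofNat, Nat.reduceLT, Nat.reduceEqDiff, pq G, zero_add, Nat.lt_add_one, Nat.succ_ne_self] at h1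
  refine (pow_le_pow_iff_left₀ (norm_nonneg _) (norm_nonneg _) two_ne_zero).1 ?_
  linarith only [sq_nonneg ‖π 0 x‖, sq_nonneg ‖π 1 x‖, h2, h1]

omit G in
theorem approx {x : H} (hx : x ∈ (B 0 ⊔ B 1 ⊔ B 2).topologicalClosure) {δ : ℝ} (hδ : 0 < δ) :
    ∃ b0 ∈ B 0, ∃ b1 ∈ B 1, ∃ b2 ∈ B 2, ‖x - (b0 + b1 + b2)‖ ≤ δ := by
  obtain ⟨y, hy, hd⟩ := Metric.mem_closure_iff.1 hx δ hδ
  obtain ⟨u, hu, b2, h2, rfl⟩ := Submodule.mem_sup.1 hy
  obtain ⟨b0, h0, b1, h1, rfl⟩ := Submodule.mem_sup.1 hu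
  exact ⟨b0, h0, b1, h1, b2, h2, by rw [← dist_eq_norm]; exact hd.le⟩

end RA

open RA

theorem ra2 : RA2_s := by
  intro H _ _ _ π θ B G α ω α' ω' ε hc h3 h0 hα hω z z' l hl
  have key : ∀ δ, 0 < δ → ‖l α' - l α‖ ≤ 3 * (δ + 2 * ε) * ‖l‖ := fun δ hδ => by
    obtain ⟨b0, m0, b1, m1, b2, m2, hd⟩ := approx hc hδ
    set r := α' + ω' - (α + ω) - (b0 + b1 + b2) with hr
    set y := (π 3 r + π 2 r) - (π 3 ω' + π 2 ω') + (π 1 α' + π 0 α') with hy
    have d2 := G.typ 2 (by omega) b2 m2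
    have e30 : π 3 b0 = 0 := tz G (by omega) (by omega) (by omega) (by omega) m0
    have e20 : π 2 b0 = 0 := tz G (by omega) (by omega) (by omega) (by omega) m0
    have e31 : π 3 b1 = 0 := tz G (by omega) (by omega) (by omega) (by omega) m1
    have e01 : π 0 b1 = 0 := tz G (by omega) (by omega) (by omega) (by omega) m1
    have e2a : π 2 α = 0 := by rw [← h3, pp G (by omega) (by omega)]
    have e3w : π 3 ω = 0 := by rw [← h0, pp G (by omega) (by omega)]
    have e2w : π 2 ω = 0 := by rw [← h0, pp G (by omega) (by omega)]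
    have hx : α' - α - b2 = π 2 b1 + y := by
      have s := G.sum α'
      simp only [hy, hr, map_sub, map_add, e30, e20, e31, e2a, e3w, e2w, h3]
      linear_combination (norm := module) -s + d2
    have ny : ‖y‖ ≤ δ + 2 * ε := by
      have := le32 G r
      have h1 := norm_add_le (π 3 r + π 2 r - (π 3 ω' + π 2 ω')) (π 1 α' + π 0 α')
      have h2 := norm_sub_le (π 3 r + π 2 r) (π 3 ω' + π 2 ω')
      linarith
    have h1 : ⟪π 2 b1 + y, V18.weil π b1⟫_ℂ = 0 := by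
      rw [← hx, inner_sub_left, inner_sub_left, G.iso 2 (by omega) 1 (by omega) b2 m2 b1 m1,
        z b1 m1, z' b1 m1]
      simp
    have h2 : ‖π 2 b1‖ ^ 2 ≤ ‖y‖ * ‖b1‖ := by
      have e : ⟪y, V18.weil π b1⟫_ℂ = ((‖π 2 b1‖ ^ 2 : ℝ) : ℂ) := by
        rw [inner_add_left, weil_eq G (π 2 b1)] at h1
        simp only [Nat.lt_add_one, ne_eq, Nat.succ_ne_self, not_false_eq_true, pp G, inner_zero_left, Nat.reduceLT, pq G, inner_self_eq_norm_sq_to_K, Complex.coe_algebraMap, zero_sub, Nat.one_lt_ofNat, OfNat.one_ne_ofNat, add_zero, Nat.ofNat_pos, OfNat.zero_ne_ofNat, sub_zero] at h1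
        push_cast
        linear_combination h1
      have := norm_inner_le_norm (𝕜 := ℂ) y (V18.weil π b1)
      rwa [e, Complex.norm_real, Real.norm_of_nonneg (sq_nonneg _), weil_norm G] at this
    have h4 : ‖b1‖ ^ 2 = 2 * ‖π 2 b1‖ ^ 2 := by
      have := G.iso 1 (by omega) 1 (by omega) b1 m1 b1 m1
      rw [weil_eq G, e31, e01] at this
      simp only [inner_self_eq_norm_sq_to_K, norm_zero, Complex.coe_algebraMap, Complex.ofReal_zero, ne_eq, OfNat.ofNat_ne_zero, not_false_eq_true, zero_pow, zero_sub, sub_zero] at this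
      have e : ‖π 1 b1‖ ^ 2 = ‖π 2 b1‖ ^ 2 := by
        have : ((‖π 1 b1‖ ^ 2 : ℝ) : ℂ) = ((‖π 2 b1‖ ^ 2 : ℝ) : ℂ) := by
          push_cast
          linear_combination this
        exact_mod_cast this
      rw [← G.norm_sq b1, e31, e01, e]
      simp only [norm_zero, ne_eq, OfNat.ofNat_ne_zero, not_false_eq_true, zero_pow, zero_add, add_zero]
      ring
    have h5 : ‖π 2 b1‖ ≤ 2 * ‖y‖ := by
      have n1 := norm_nonneg (π 2 b1)
      have n2 := norm_nonneg y
      have n3 := norm_nonneg b1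
      have : ‖b1‖ ≤ 2 * ‖π 2 b1‖ := by nlinarith only [h4, n1]
      by_contra c
      nlinarith only [h2, n2, this, c]
    have h6 : ‖α' - α - b2‖ ≤ 3 * (δ + 2 * ε) := by
      rw [hx]
      have := norm_add_le (π 2 b1) y
      linarith
    have : l α' - l α = l (α' - α - b2) := by simp only [map_sub, hl b2 m2, sub_zero]
    rw [this]
    exact (l.le_opNorm _).trans (by rw [mul_comm]; gcongr)
  refine le_of_forall_pos_le_add fun η hη => ?_
  have n := norm_nonneg l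
  have := key (η / (3 * (‖l‖ + 1))) (by positivity)
  have e : 3 * (η / (3 * (‖l‖ + 1))) * ‖l‖ ≤ η := by
    rw [show 3 * (η / (3 * (‖l‖ + 1))) * ‖l‖ = η * (‖l‖ / (‖l‖ + 1)) by field_simp]
    exact mul_le_of_le_one_right hη.le ((div_le_one (by positivity)).2 (by linarith only []))
  linarith

theorem ra1 : RA1_s := by
  intro H _ _ _ π θ B G a ha hc δ hδ
  set x := θ (π 2 a) with hx
  have x1 : x = π 1 (θ a) := G.shift 1 (by omega) a
  have P0 : (V18.Hm π B).starProjection (θ a) = 0 := by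
    unfold V18.curv at hc
    have h1 := sq_nonneg ‖(V18.Hm π B).starProjection (θ a)‖
    have h2 := sq_nonneg ‖(V18.Hm π B).starProjection (ContinuousLinearMap.adjoint θ a)‖
    exact norm_eq_zero.1 (pow_eq_zero_iff two_ne_zero |>.1 (by linarith only [hc, h1, h2]))
  have xo : x ∈ (V18.Hm π B)ᗮ := fun y hy => by
    rw [x1, ← G.adj (by omega)]
    have := (V18.Hm π B).starProjection_inner_eq_zero (θ a) _ (G.pi_mem hy 1)
    rw [P0, sub_zero] at this
    exact inner_eq_zero_symm.1 this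
  unfold V18.Hm at xo
  rw [Submodule.orthogonal_orthogonal_eq_closure] at xo
  obtain ⟨y, hy, hd⟩ := Metric.mem_closure_iff.1 xo δ hδ
  have hs : ∃ b0 ∈ B 0, ∃ b1 ∈ B 1, π 1 y = π 1 b1 + π 1 b0 := by
    refine Submodule.span_induction
      (p := fun y _ => ∃ b0 ∈ B 0, ∃ b1 ∈ B 1, π 1 y = π 1 b1 + π 1 b0) ?_ ?_ ?_ ?_ hy
    · rintro _ ⟨p, hp, b, hb, rfl | rfl⟩ <;> interval_cases p
      · exact ⟨b, hb, 0, zero_mem _, by simp [pq G]⟩
      · exact ⟨0, zero_mem _, 0, zero_mem _, by simp [pp G]⟩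
      · exact ⟨0, zero_mem _, 0, zero_mem _, by simp [pp G]⟩
      · exact ⟨0, zero_mem _, 0, zero_mem _, by simp [pp G]⟩
      · exact ⟨0, zero_mem _, b, hb, by simp [pq G]⟩
      · exact ⟨0, zero_mem _, 0, zero_mem _, by simp [pp G]⟩
    · exact ⟨0, zero_mem _, 0, zero_mem _, by simp only [map_zero, add_zero]⟩
    · rintro u v - - ⟨a0, h0, a1, h1, e⟩ ⟨c0, k0, c1, k1, e'⟩
      exact ⟨a0 + c0, add_mem h0 k0, a1 + c1, add_mem h1 k1, by
        simp only [map_add, e, e']; abel⟩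
    · rintro c u - ⟨a0, h0, a1, h1, e⟩
      exact ⟨c • a0, (B 0).smul_mem c h0, c • a1, (B 1).smul_mem c h1, by
        simp only [map_smul, e, smul_add]⟩
  obtain ⟨b0, m0, b1, m1, e⟩ := hs
  refine ⟨b1, m1, ?_⟩
  have o : ⟪π 1 b1, π 1 b0⟫_ℂ = 0 := by
    have := G.iso 1 (by omega) 0 (by omega) b1 m1 b0 m0
    rw [weil_eq G, tz G (q := 3) (by omega) (by omega) (by omega) (by omega) m0,
      tz G (q := 2) (by omega) (by omega) (by omega) (by omega) m0,
      tz G (q := 0) (by omega) (by omega) (by omega) (by omega) m1] at this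
    simpa using this
  have n1 : ‖x - π 1 b1 - π 1 b0‖ ≤ δ := by
    have e1 : x - π 1 b1 - π 1 b0 = π 1 (x - y) := by
      rw [map_sub, e, x1, pq G (by omega)]
      abel
    have h2 : ‖π 1 (x - y)‖ ≤ ‖x - y‖ := by
      refine (pow_le_pow_iff_left₀ (norm_nonneg _) (norm_nonneg _) two_ne_zero).1 ?_
      rw [← G.norm_sq (x - y)]
      linarith only [sq_nonneg ‖π 0 (x - y)‖, sq_nonneg ‖π 2 (x - y)‖, sq_nonneg ‖π 3 (x - y)‖]
    rw [e1]
    exact h2.trans (by rw [← dist_eq_norm]; exact hd.le)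
  have o2 : ⟪x - π 1 b1, π 1 b0⟫_ℂ = 0 := by
    rw [inner_sub_left, o, sub_zero, inner_eq_zero_symm]
    exact (G.theta_perp (G.pi_mem ha 2) (p := 0) (by omega) m0).1
  have := norm_add_sq_eq_norm_sq_add_norm_sq_of_inner_eq_zero (𝕜 := ℂ) (x - π 1 b1) (-π 1 b0)
    (by rw [inner_neg_right, o2, neg_zero])
  rw [← sub_eq_add_neg, norm_neg] at this
  nlinarith only [norm_nonneg (x - π 1 b1 - π 1 b0), n1, this]

end Pool.Agent.MP_596265_gt.Hd.R

end

section

/-! Block R: the data at one apex and one cocycle with locally constant norm. -/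

namespace Pool.Agent.MP_596265_gt.Hd.R

open MeasureTheory Set Complex Metric Filter Topology
open scoped InnerProductSpace

theorem dat (cmp : CMP_s) (ug : UG_s) (rep : REP_s) (sym : SYM_s) (test : TEST_s) (hol : HOL_s)
    (loc : LOC_s) (part : PART_s) (nu : NU_s) (vx : VX_s) (vf : VF_s) (weyl : U.RD.WEYL_s)
    (ws : U.RD.WS_s) (ra1 : RA1_s) : DAT_s := by
  intro H Dt _ nx rv g c z v hS hR a ha h0
  obtain ⟨x, hx, hF, hL, hRot, hH⟩ := rep H hS hR.1 a ha
  have sy := sym H hS.toOk hR x hx hF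
  obtain ⟨φ, hφ⟩ := hol H cmp ug test weyl hS.toOk x hRot hH
  obtain ⟨v1, v2, v3⟩ := vf H hS x a hL
  have vp := vx H nu hS a (v1 sy) (fun b hb => (V18.mem_Hm.1 ha.1 2 (by norm_num) b
    ((H.pur.sub nx rv g c z 2 b hS).2 hb)).2) fun δ hδ => by
      obtain ⟨b, hb, e⟩ := ra1 (H.vhs nx rv g c z hS) a ha.1 h0 δ hδ
      exact ⟨b, (H.pur.sub nx rv g c z 1 b hS).1 hb, e⟩
  exact ⟨φ, hφ.1, v3 φ sy (part H ug hS.toOk x hRot
    (loc H cmp ug test ws hS.toOk x hRot sy hH) (v2 vp)) hφ⟩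

variable {Dt : Type} [Fintype Dt] {nx rv : Dt → Dt} {g : Dt → G} {c : Dt → ℂ} {z : ℂ}
  {v : Dt → Mat}

theorem IsH.uniq (H : HA) (hS : Star nx rv g c z) (hv : Coc nx rv g v) {a a' : HP Dt}
    (ha : IsH nx rv g c z v a) (ha' : IsH nx rv g c z v a') : a = a' := by
  have hU := H.pm.aff nx rv g v hS.toFlat hv
  have h1 := Submodule.sub_mem _ (ha.2 _ hU) (ha'.2 _ hU)
  rw [sub_sub_sub_cancel_right] at h1
  exact sub_eq_zero.1 (inner_self_eq_zero.1
    ((H.vhs nx rv g c z hS).perp (Submodule.sub_mem _ ha.1 ha'.1) h1))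

theorem c_mem (hS : Star nx rv g c z) (d : Dt) : c d ∈ U.RG.oface nx g z d := by
  have D := U.RG.ds_of_ok hS.toOk
  have h1 : ∀ e, 0 < U.RG.cd z (U.RG.mob (g e) z) (c e) := fun e => by
    rw [U.RG.cd_hd]; exact hS.cin e
  have e1 : ∀ e, U.RG.mob (g e) (c (nx e)) = c e := fun e => (hS.crot e).symm
  have h2 : ∀ e, 0 < U.RG.cd (U.RG.mob (g e) z) (U.RG.mob (g e * g (nx e)) z) (c e) := fun e => by
    rw [← e1 e]; exact (D.rot_cd e (hS.cim _)).1.1 (h1 _)
  refine ⟨hS.cim d, h1 d, h2 d, ?_⟩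
  rw [← e1 d]; exact (D.rot_cd d (hS.cim _)).2.1.1 (h2 _)

theorem stays {p q : ℂ} {K : Set ℂ} (hK : IsCompact K) (h : K ⊆ U.RG.OF z p q) :
    ∀ᶠ t in 𝓝 z, K ⊆ U.RG.OF t p q := by
  refine hK.eventually_forall_of_forall_eventually fun w hw => ?_
  obtain ⟨h0, h1, h2, h3⟩ := h hw
  have t1 : Tendsto (Prod.fst : ℂ × ℂ → ℂ) (𝓝 (z, w)) (𝓝 z) := continuous_fst.tendsto _
  have t2 : Tendsto (Prod.snd : ℂ × ℂ → ℂ) (𝓝 (z, w)) (𝓝 w) := continuous_snd.tendsto _
  filter_upwards [t2.eventually (U.RG.HP_open.mem_nhds h0),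
    (U.RG.cd_tendsto t1 tendsto_const_nhds t2).eventually (lt_mem_nhds h1),
    (U.RG.cd_tendsto tendsto_const_nhds tendsto_const_nhds t2).eventually (lt_mem_nhds h2),
    (U.RG.cd_tendsto tendsto_const_nhds t1 t2).eventually (lt_mem_nhds h3)] with x a b c d
  exact ⟨a, b, c, d⟩

theorem ex_ball (hS : Star nx rv g c z) (d : Dt) : ∃ o r, 0 < r ∧ ∀ᶠ s in 𝓝 z,
    ball o (2 * r) ⊆ U.RG.OF s (c (nx (rv d))) (c d) ∩ U.RG.oface nx g s d := by
  have hD : 0 < U.RG.cd z (c (nx (rv d))) (c d) := by rw [U.RG.cd_hd]; exact hS.spos d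
  have h1 : c d ∈ U.RG.CF z (c (nx (rv d))) (c d) :=
    ⟨hS.cim d, hD.le, (U.RG.cd_right _ _).ge, (U.RG.cd_left _ _).ge⟩
  obtain ⟨o, ho⟩ := ((U.RG.freq_OF hS.im (hS.cim _) (hS.cim _) hD h1).and_eventually
    (mem_nhdsWithin_of_mem_nhds ((U.RG.OF_open _ _ _).mem_nhds (c_mem hS d)))).exists
  obtain ⟨ε, hε, hb⟩ := nhds_basis_closedBall.mem_iff.1
    (((U.RG.OF_open _ _ _).inter (U.RG.OF_open _ _ _)).mem_nhds ho)
  refine ⟨o, ε / 2, by positivity, ?_⟩
  filter_upwards [stays (isCompact_closedBall o ε) (hb.trans inter_subset_left),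
    U.RG.compact_stays _ _ hS.im (isCompact_closedBall o ε) (hb.trans inter_subset_right)]
    with s a b w hw
  have : w ∈ closedBall o ε := ball_subset_closedBall (by rwa [mul_div_cancel₀ _ two_ne_zero] at hw)
  exact ⟨a this, b this⟩

theorem one (dat : DAT_s) (mt : MT_s) (md : U.RD.MD_s) (mc : U.RD.MC_s) (ra2 : RA2_s)
    (cmp : CMP_s) (top : TOP_s) (bd : BD_s) (th : TH_s) (lf : LF_s) (ug : UG_s) : ONE_s := by
  intro H Dt _ _ nx rv g c z v hS hV hR hF a ha
  have h1 : ∀ᶠ t in 𝓝 z, Star nx rv g c t ∧ Fp nx rv g c t v = Fn nx rv g z v / 3 := by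
    filter_upwards [H.inc.near nx rv g c z hS, hF] with t s1 s2
    exact ⟨s1, by rw [← s2, H.eq.eq nx rv g c t v s1 hR.1]; ring⟩
  have h2 : ∀ᶠ t in 𝓝 z, ∃ (b : HP Dt) (φ : Dt → ℂ → ℂ), Star nx rv g c t ∧
      IsH nx rv g c t v b ∧ PD nx rv g c t b φ ∧ ‖b‖ ≤ √(Fn nx rv g z v / 3) ∧
        U.RG.QData nx rv g t φ := by
    filter_upwards [h1, h1.eventually_nhds] with t s1 s2
    obtain ⟨A, hA⟩ := H.harm nx rv g c t s1.1
    obtain ⟨a1, a2, a3, -, a5⟩ := hA v hR.1
    have k1 := a5.const (s2.mono fun w hw => by rw [hw.2, s1.2])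
    have k2 := ((H.vhs nx rv g c t s1.1).jet' (F := fun w => Fp nx rv g c w v) a1 a3).1
    obtain ⟨φ, p1, p2⟩ := dat H s1.1 hR (A v) ⟨a1, a2⟩ (by linarith only [k1, k2])
    exact ⟨A v, φ, s1.1, ⟨a1, a2⟩, p2, Real.le_sqrt_of_sq_le (by rw [← a3, s1.2]), p1⟩
  obtain ⟨b, hb⟩ := h2.choice
  obtain ⟨φ, hφ⟩ := hb.choice
  obtain ⟨-, z1, z2, -, z3⟩ := hφ.self_of_nhds
  obtain rfl := ha.uniq H hS hR.1 z1
  have D := U.RG.ds_of_ok hS.toOk
  obtain ⟨P, p1, p2, p3⟩ := U.RG.glob_one D z3 (U.RG.oneV_ind hV) fun d => by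
    obtain ⟨o, r, hr, ho⟩ := ex_ball hS d
    obtain ⟨ρ, hρ, hh⟩ := Metric.eventually_nhds_iff_ball.1 (hφ.and ho)
    have hd : ∀ s ∈ ball z ρ, DifferentiableOn ℂ (φ s d) (ball o (2 * r)) := fun s hs =>
      ((hh s hs).1.2.2.2.2.hol d).mono ((hh s hs).2.trans inter_subset_right)
    have hc := mc z o ρ r (fun s => φ s d) (fun t ht => (hd t ht).continuousOn)
      fun χ c1 c2 t ht => mt H md ra2 cmp top bd th lf b φ _ d o r hr hR.1 (by
        filter_upwards [isOpen_ball.mem_nhds ht] with s hs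
        obtain ⟨⟨s1, s2, s3, s4, -⟩, s5⟩ := hh s hs
        refine ⟨s1, s2, s3, s4, hd s hs, s5.trans (inter_subset_inter_right _ ?_)⟩
        rw [← U.RG.cface_face]
        exact U.RG.OF_sub_CF _ _ _) χ c1 c2
    obtain ⟨t, t1, t2⟩ := ((U.RG.apex (g d) (g d * g (nx d)) hS.im (D.pos d)).and_eventually
      (ball_mem_nhds z hρ)).exists
    obtain ⟨e, he, hb⟩ := Metric.isOpen_iff.1 (U.RG.OF_open _ _ _) z t1
    have q1 := (hh t t2).1.2.2.2.2.hol d
    refine ⟨e, he, φ t d, q1.mono hb, EqOn.mono (inter_subset_inter_left _ hb) ?_⟩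
    have oo := (U.RG.OF_open t (U.RG.mob (g d) t) (U.RG.mob (g d * g (nx d)) t)).inter
      (U.RG.OF_open z (U.RG.mob (g d) z) (U.RG.mob (g d * g (nx d)) z))
    have om : o ∈ ball o (2 * r) := mem_ball_self (by positivity)
    exact AnalyticOnNhd.eqOn_of_preconnected_of_eventuallyEq
      ((q1.mono inter_subset_left).analyticOnNhd oo)
      (((z3.hol d).mono inter_subset_right).analyticOnNhd oo) (U.RG.OF_inter_preconn _ _ _ _ _ _)
      ⟨((hh t t2).2 om).2, ((hh z (mem_ball_self hρ)).2 om).2⟩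
      (mem_of_superset (ball_mem_nhds o hr) (hc t t2))
  refine ⟨P, p1, p3, fun d => ?_⟩
  have k : ∀ e, ∀ᵐ ω ∂volume.restrict sq, Dd nx rv c z d ω ∈ face nx g z e →
      Dd nx rv c z d ω ∈ U.RG.oface nx g z e := fun e =>
    (H.cvp.ae z _ _ (fun w => w ∈ face nx g z e → w ∈ U.RG.oface nx g z e)
      ⟨hS.im, hS.cim _, hS.cim _, hS.spos d⟩).1 (ae_restrict_of_ae ((ae_restrict_iff'
        (H.tri.cpt _ _ _ ⟨hS.im, D.m1 e, D.m2 e, hS.pos e⟩).measurableSet).1
          (ug H hS.toOk e).2.2.2.2.2.2.2.2.1))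
  filter_upwards [z2 d, k d, k (nx (rv d))] with ω ⟨w1, w2, w3, w4⟩ k1 k2
  exact ⟨w1, w2, fun h => by rw [w3 h, p2 _ (k1 h)], fun h => by rw [w4 h, p2 _ (k2 h)]⟩

end Pool.Agent.MP_596265_gt.Hd.R

end
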