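import Pool.Agent.MP_596265_gt.W.H1
import Pool.Agent.MP_596265_gt.W.H4
import Pool.Agent.MP_596265_gt.W.R0
import Pool.Agent.MP_596265_gt.W.H2
import Pool.Agent.MP_596265_gt.W.H3
import Pool.Agent.MP_596265_gt.W.D0
import Pool.Agent.MP_596265_gt.W.H0
import Pool.Agent.MP_596265_gt.W.D1
import Pool.Agent.MP_596265_gt.W.R1
import Pool.Agent.MP_596265_gt.W.R2
import Pool.Agent.MP_596265_gt.W.L0
import Pool.Agent.MP_596265_gt.W.T1
import Pool.Agent.MP_596265_gt.W.N1
import Pool.Agent.MP_596265_gt.W.Z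
import Pool.Agent.MP_596265_gt.W.Ec

section

/-! Block H: all rows without hypotheses. -/

namespace Pool.Agent.MP_596265_gt.Hd.All

theorem alg : ALG_s := ALG
theorem mul : MUL_s := MUL
theorem tri : TRI_s := TRI alg
theorem tra : TRA_s := TRA alg tri
theorem glue : GLUE_s := GLUE tri
theorem inc : INC_s := INC alg tri
theorem fs : FS_s := FS alg tri glue
theorem sf : SF_s := SF alg tri tra glue
theorem dens : DENS_s := DENS alg tri tra glue
theorem geo : GEO_s := GEO alg tri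
theorem gep : GEP_s := GEP geo
theorem pol : POL_s := POL tri geo gep
theorem pl : PL_s := PL
theorem pm : PM_s := PM alg mul gep pl
theorem cvp : CVP_s := CVP tri tra geo gep pol
theorem sp : SP_s := SP alg tri geo gep pol
theorem eq : EQ_s := EQ alg mul tri tra inc fs sf dens pol pm cvp sp
theorem st : ST_s := ST alg pl
theorem iso : ISO_s := ISO alg mul gep pl pm st
theorem poi : POI_s := POI alg pl
theorem pur : PUR_s := PUR alg geo gep pl pm
theorem typ : TYP_s := TYP alg mul gep pl pm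
theorem comm : COMM_s := COMM alg mul geo gep pl pm
theorem vhs : VHS_s := VHS alg mul pur typ comm iso
theorem pw : PW_s := PW alg
theorem phi : PHI_s := PHI geo gep
theorem mot : MOT_s := MOT mul inc gep pl pm comm pw phi
theorem harm : HARM_s := HARM mul inc pm iso pur vhs mot
theorem curry : CURRY_s := CURRY
theorem min : MIN_s := MIN
theorem c2p : C2P_s := C2P alg mul geo gep pl pm poi curry min
theorem out : OUT_s := OUT alg tri inc pm eq iso pur harm c2p mul vhs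
theorem inv : INV_s := INV alg tri tra
theorem flip : FLIP_s := FLIP alg tri tra glue
theorem flipq : FLIPQ_s := FLIPQ inv flip

end Pool.Agent.MP_596265_gt.Hd.All

end

section

/-! Block H, adapter: the Hodge form on the states of the core. -/

namespace Pool.Agent.MP_596265_gt.U

open Erg UpperHalfPlane Set Filter Topology

noncomputable section

variable {E : Type}

/-- Complexification of a matrix. -/
def cxm (X : Mat) : Hd.Mat := X.map fun t => (t : ℂ)
/-- The complex cochain on darts. -/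
def cv (L : E → G) (c : E → Mat) : Dr E → Hd.Mat := fun d => cxm (dc L c d)
/-- The Hodge form. -/
def Fh [Fintype E] : HF E := fun n L z c c' => Hd.Fb n rev (dlab L) z (cv L c) (cv L c')

namespace Fh

variable {n : Nx E} {L : E → G} {z : ℍ} {c c' : E → Mat}

theorem cxm_zero : cxm 0 = 0 := by ext i j; simp [cxm]
theorem cxm_add (X Y : Mat) : cxm (X + Y) = cxm X + cxm Y := by ext i j; simp [cxm]
theorem cxm_sub (X Y : Mat) : cxm (X - Y) = cxm X - cxm Y := by ext i j; simp [cxm]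
theorem cxm_smul (r : ℝ) (X : Mat) : cxm (r • X) = (r : ℂ) • cxm X := by ext i j; simp [cxm]
theorem cxm_mul (X Y : Mat) : cxm (X * Y) = cxm X * cxm Y := by
  ext i j; simp [cxm, Matrix.mul_apply]
theorem cxm_ad (k : G) (X : Mat) : cxm (ad k X) = Hd.Ad k (cxm X) := by
  rw [ad, cxm_mul, cxm_mul]; rfl
theorem cxm_tr (X : Mat) : (cxm X).trace = (X.trace : ℝ) := by
  simp [cxm, Matrix.trace_fin_two]
theorem cj_cxm (X : Mat) : Hd.cj (cxm X) = cxm X := by ext i j; simp [cxm, Hd.cj]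

theorem tg_a (d : Dr E) : (dlab (tg L c) d).a = dlab L d := by
  obtain ⟨x, b⟩ := d
  cases b <;> rfl
theorem dc_rev (d : Dr E) : dc L c (rev d) = -ad (dlab L d)⁻¹ (dc L c d) := by
  rw [dc, dlab_rev, TG.inv_u, tg_a, dc]
theorem dc_add (d : Dr E) : dc L (c + c') d = dc L c d + dc L c' d := by
  obtain ⟨x, b⟩ := d
  cases b
  · change -ad _ (c x + c' x) = -ad _ _ + -ad _ _
    rw [ad_add, neg_add]; rfl
  · rfl
theorem dc_smul (r : ℝ) (d : Dr E) : dc L (r • c) d = r • dc L c d := by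
  obtain ⟨x, b⟩ := d
  cases b
  · change -ad _ (r • c x) = r • -ad _ _
    rw [ad_smul, smul_neg]; rfl
  · rfl
theorem dc_tr (h : ∀ x, (c x).trace = 0) (d : Dr E) : (dc L c d).trace = 0 := by
  obtain ⟨x, b⟩ := d
  cases b
  · change (-ad _ (c x)).trace = 0
    rw [Matrix.trace_neg, ad_trace, h, neg_zero]
  · exact h x
theorem dc_dK (K : Mat) (d : Dr E) : dc L (dK L K) d = K - ad (dlab L d) K := by
  obtain ⟨x, b⟩ := d
  cases b
  · change -ad (L x)⁻¹ (K - ad (L x) K) = K - ad (L x)⁻¹ K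
    rw [ad_sub, ad_inv_ad, neg_sub]
  · rfl
theorem dlab_cj (k : G) (d : Dr E) : dlab (cjL k L) d = k * dlab L d * k⁻¹ := by
  obtain ⟨x, b⟩ := d
  cases b <;> simp only [dlab, cjL, mul_assoc, mul_inv_rev, inv_inv, cond_false, cond_true]
theorem dc_cj (k : G) (d : Dr E) : dc (cjL k L) (fun x => ad k (c x)) d = ad k (dc L c d) := by
  obtain ⟨x, b⟩ := d
  cases b
  · change -ad (k * L x * k⁻¹)⁻¹ (ad k (c x)) = ad k (-ad (L x)⁻¹ (c x))
    rw [ad_neg, ← ad_mul, ← ad_mul]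
    congr 2
    group
  · rfl
theorem cv_add : cv L (c + c') = cv L c + cv L c' := funext fun d => by
  rw [cv, dc_add, cxm_add]; rfl
theorem cv_smul (r : ℝ) : cv L (r • c) = (r : ℂ) • cv L c := funext fun d => by
  rw [cv, dc_smul, cxm_smul]; rfl
theorem fp_u (d : Dr E) : (fp n (tg L c) d).u =
    dc L c d + ad (dlab L d) (dc L c (n d) + ad (dlab L (n d)) (dc L c (n (n d)))) := by
  simp only [fp, TG.mul_u, TG.mul_a, tg_a, ad_add, ad_mul, add_assoc, dc]

theorem mob_coe (k : G) (z : ℍ) : Hd.mob k z = (k • z : ℍ) := by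
  rw [coe_specialLinearGroup_apply]; rfl
theorem hd_coe (p q r : ℍ) : Hd.hd p q r = hdet p q r := by
  simp only [Hd.hd, hdet, det3, Φ, Complex.normSq_apply, coe_re, coe_im]
  ring

theorem flat (hc : ∀ d, n (n (n d)) = d) (h : Flat n L) : Hd.Flat n rev (dlab L) :=
  ⟨hc, rev_rev, fun d => .inl (by rw [dlab_rev, mul_inv_cancel]), h⟩
theorem ok (h : Gs n L z) : Hd.Ok n rev (dlab L) z :=
  ⟨flat h.trg.cube h.flat, z.im_pos, fun d => by
    rw [mob_coe, mob_coe, hd_coe]
    exact ((hD_pos (ν := 1)).1 ((h.pos d).trans_eq (one_mul _).symm)).trans_eq (one_mul _)⟩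
theorem coc' (h : ∀ d, (fp n (tg L c) d).u = 0) : Hd.Coc n rev (dlab L) (cv L c) :=
  ⟨fun d => by
    simp only [cv, ← cxm_ad, ← cxm_add]
    rw [dc_rev, ad_neg, ad_ad_inv, add_neg_cancel, cxm_zero],
  fun d => by
    simp only [cv, ← cxm_ad, ← cxm_add]
    rw [← fp_u, h, cxm_zero]⟩
theorem coc (h : Zc n L c) : Hd.Coc n rev (dlab L) (cv L c) := coc' h.2
theorem zc_dK (h : Flat n L) (K : Mat) : Zc n L (dK L K) :=
  ⟨fun x => by rw [dK, Matrix.trace_sub, ad_trace, sub_self], fun d => by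
    have := ad_PM (h d) K
    rw [fp, ad_mul, ad_mul, ad_one] at this
    simp only [fp_u, dc_dK, ad_add, ad_sub, this]
    abel⟩
theorem oneV (h : Trg n) : Hd.OneV n rev := fun ε hε d d' => by
  classical
  have := h.one (fun d => if ε d then 1 else 0) (fun d => by
    have := hε (rev d)
    rw [rev_rev] at this
    simp only [this]) d d'
  by_cases h1 : ε d <;> by_cases h2 : ε d' <;> simp_all
theorem irr (h : Irr L) : Hd.Irr (dlab L) := fun X hX H => by
  have e : X = cxm (X.map Complex.re) + Complex.I • cxm (X.map Complex.im) := by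
    ext i j
    simp [cxm, mul_comm Complex.I]
  have k : ∀ x, ad (L x) (X.map Complex.re) = X.map Complex.re ∧
      ad (L x) (X.map Complex.im) = X.map Complex.im := fun x => by
    have h1 : Hd.Ad (L x) X = X := H (x, true)
    have h2 : cxm (ad (L x) (X.map Complex.re)) + Complex.I • cxm (ad (L x) (X.map Complex.im)) =
        X := by
      rw [cxm_ad, cxm_ad, ← Hd.Ad1.Ad_smul, Hd.Ad, Hd.Ad, ← add_mul, ← mul_add, ← e]
      exact h1
    constructor <;> ext i j
    · simpa [cxm] using congrArg (fun M => (M i j).re) h2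
    · simpa [cxm] using congrArg (fun M => (M i j).im) h2
  rw [Matrix.trace_fin_two] at hX
  rw [e, h _ (by simpa only [Matrix.trace_fin_two, Fin.isValue, Matrix.map_apply, Complex.add_re, Complex.zero_re] using congrArg Complex.re hX) fun x => (k x).1,
    h _ (by simpa only [Matrix.trace_fin_two, Fin.isValue, Matrix.map_apply, Complex.add_im, Complex.zero_im] using congrArg Complex.im hX) fun x => (k x).2, cxm_zero,
    smul_zero, add_zero]

theorem diag [Fintype E] (n : Nx E) (L : E → G) (z : ℍ) (c : E → Mat) :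
    Fh n L z c c = Hd.Fn n rev (dlab L) z (cv L c) := by
  rw [Fh, Hd.Fb, sub_self, Hd.Ad1.Fn_zero, ← two_smul ℂ, Hd.Ad1.Fn_smul]
  norm_num

theorem om_eq [Fintype E] (h : ∀ x, (c x).trace = 0) (h' : ∀ x, (c' x).trace = 0) :
    Hd.om n (dlab L) (cv L c) (cv L c') = (omT n L c c' : ℝ) := by
  simp only [Hd.om, omT, Hd.bb, cv, ← cxm_ad, ← cxm_mul, cxm_tr, dc_tr h, dc_tr h', dc2, mul_add,
    add_mul, Matrix.trace_add]
  push_cast
  rw [one_div, div_eq_inv_mul]
  congr 1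
  exact Finset.sum_congr rfl fun d _ => by ring

end Fh

end

end Pool.Agent.MP_596265_gt.U

end

section

/-! Block H, adapter: the output of block H in the form of the core. -/

namespace Pool.Agent.MP_596265_gt.U

open Erg UpperHalfPlane Set Filter Topology
open scoped InnerProductSpace

variable {E : Type}

namespace Fh

variable {n : Nx E} {L : E → G} {z : ℍ} {c c' : E → Mat}

theorem fp_flip [DecidableEq E] {H : Type} [Group H] {n' : Nx E} {d a b e h : Dr E}
    (q : DF.Qd n n' d d a b e h) (N : Subgroup H) [N.Normal] {T : E → H}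
    (hT : ∀ x, fp n T x ∈ N) (x : Dr E) : fp n' (flb n T d) x ∈ N := by
  have k : ∀ (m : Nx E) (S : E → H) y, fp m S y ∈ N ↔
      fp m (fun e => QuotientGroup.mk' N (S e)) y = 1 := fun m S y => by
    simp only [fp, DF.map_dlab, ← map_mul]
    exact (QuotientGroup.eq_one_iff _).symm
  simp only [k, DF.map_flb] at hT ⊢
  generalize (fun e => QuotientGroup.mk' N (T e)) = S at hT
  have e0 : dlab (flb n S d) d = (dlab S b * dlab S e)⁻¹ := by
    rw [DF.dlab_flb, q.n1, q.n2, q.n4]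
  have e1 : dlab S e * dlab S h = dlab S d := by
    have := hT (rev d)
    rwa [fp, q.n4, q.n5, dlab_rev, mul_assoc, inv_mul_eq_one, eq_comm] at this
  have e2 : dlab S a = (dlab S b * dlab S d)⁻¹ := by
    have := hT b
    rw [fp, q.n3, q.n1] at this
    exact eq_inv_of_mul_eq_one_right this
  rcases q.cases x with rfl | rfl | rfl | rfl | rfl | rfl | ⟨f0, f1, f2, f3, f4⟩
  iterate 6
    simp only [fp, q.m1, q.m2, q.m3, q.m4, q.m5, q.m6, dlab_rev, e0, DF.dlab_flb_ne _ _ q.ha,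
      DF.dlab_flb_ne _ _ q.hb, DF.dlab_flb_ne _ _ q.hc, DF.dlab_flb_ne _ _ q.hh, e2, ← e1]
    group
  obtain ⟨g0, g1, g2, g3, g4⟩ := q.off f0 f1 f2 f3 f4
  rw [fp, q.out x f0 f1 f2 f3 f4, q.out _ g0 g1 g2 g3 g4, DF.dlab_flb_ne _ _ f0,
    DF.dlab_flb_ne _ _ g0, DF.dlab_flb_ne _ _ (q.off g0 g1 g2 g3 g4).1]
  exact hT x

/-- The central elements `(±1, 0)`. -/
def ZT : Subgroup TG where
  carrier := {t | PM t.a 1 ∧ t.u = 0}
  one_mem' := ⟨.inl rfl, rfl⟩
  mul_mem' := fun h h' => ⟨by simpa using h.1.mul h'.1, by simp [h.2, h'.2, ad_zero]⟩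
  inv_mem' := fun h => ⟨by simpa using h.1.inv, by simp [h.2, ad_zero]⟩

theorem ZT_normal : ZT.Normal := ⟨fun t h s => ⟨by
    rcases h.1 with e | e <;> simp only [PM, TG.mul_a, e, mul_one, TG.inv_a, mul_inv_cancel, true_or, mul_neg, neg_mul, or_true], by
    simp only [TG.mul_u, TG.mul_a, TG.inv_u, h.2, ad_zero, add_zero, ad_neg, ad_mul, ad_PM h.1,
      ad_one, ad_ad_inv, add_neg_cancel]⟩⟩

theorem tg_flb [DecidableEq E] (d : Dr E) :
    tg (flb n L d) (flc n L c d) = flb n (tg L c) d := funext fun x => TG.ext (by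
  by_cases h : x = d.1
  · subst h
    obtain ⟨y, b⟩ := d
    cases b <;> simp only [tg, flb, mul_inv_rev, cond_false, Function.update_self, TG.mul_a, tg_a, cond_true, TG.inv_a]
  · simp [tg, flb, Function.update_of_ne h]) rfl

theorem coc_flip [DecidableEq E] (h : Gs n L z) (hc : Zc n L c) (d : Dr E) :
    Hd.Coc (fnx n d) rev (dlab (flb n L d)) (cv (flb n L d) (flc n L c d)) := coc' fun x => by
  have := ZT_normal
  rw [tg_flb]
  refine (fp_flip (DF.Gs.qd h d) ZT (fun y => ⟨?_, hc.2 y⟩) x).2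
  simpa only [fp, TG.mul_a, tg_a] using h.flat y

theorem coc_lin {Dt : Type} {nx rv : Dt → Dt} {g : Dt → G} {v v' : Dt → Hd.Mat}
    (h : Hd.Coc nx rv g v) (h' : Hd.Coc nx rv g v') (a b : ℂ) :
    Hd.Coc nx rv g (a • v + b • v') := by
  refine ⟨fun d => ?_, fun d => ?_⟩
  · have h1 := h.r d
    have h2 := h'.r d
    simp only [Hd.Ad, Pi.add_apply, Pi.smul_apply, mul_add, add_mul, mul_smul_comm,
      smul_mul_assoc] at h1 h2 ⊢
    linear_combination (norm := module) a • h1 + b • h2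
  · have h1 := h.f d
    have h2 := h'.f d
    simp only [Hd.Ad, Pi.add_apply, Pi.smul_apply, mul_add, add_mul, mul_smul_comm,
      smul_mul_assoc] at h1 h2 ⊢
    linear_combination (norm := module) a • h1 + b • h2

theorem bil [Fintype E] (hO : Hd.OUT_s) (h : Gs n L z) :
    ∃ A : (Dr E → Hd.Mat) →ₗ[ℂ] Hd.HP (Dr E), (∀ {c c'}, Hd.Coc n rev (dlab L) (cv L c) →
      Hd.Coc n rev (dlab L) (cv L c') → Fh n L z c c' = (⟪A (cv L c), A (cv L c')⟫_ℂ).re) ∧
      ∀ K, A (cv L (dK L K)) = 0 := by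
  obtain ⟨A, h1, -, h3⟩ := hO.quad n rev _ _ (ok h)
  refine ⟨A, fun hc hc' => ?_, fun K => ?_⟩
  · have e1 := coc_lin hc hc' 1 1
    have e2 := coc_lin hc hc' 1 (-1)
    rw [one_smul, one_smul] at e1
    rw [one_smul, neg_one_smul, ← sub_eq_add_neg] at e2
    rw [Fh, Hd.Fb, h1 _ e1, h1 _ e2, map_add, map_sub, @norm_add_sq ℂ, @norm_sub_sq ℂ]
    simp only [RCLike.re_to_complex]
    ring
  · rw [← h3 (cxm K)]
    congr 1
    funext d
    rw [cv, dc_dK, cxm_sub, cxm_ad]

section reg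
variable {P : Type} [NormedAddCommGroup P] [NormedSpace ℝ P] {p : P}

theorem sm_inv {k : P → G} (h : ∀ i j, ContDiffAt ℝ (⊤ : ℕ∞) (fun p => k p i j) p) (i j) :
    ContDiffAt ℝ (⊤ : ℕ∞) (fun p => (k p)⁻¹ i j) p := by
  simp only [Matrix.SpecialLinearGroup.SL2_inv_expl]
  fin_cases i <;> fin_cases j
  exacts [h 1 1, (h 0 1).neg, (h 1 0).neg, h 0 0]

theorem sm_ad {k : P → G} {X : P → Mat} (h : ∀ i j, ContDiffAt ℝ (⊤ : ℕ∞) (fun p => k p i j) p)
    (hX : ∀ i j, ContDiffAt ℝ (⊤ : ℕ∞) (fun p => X p i j) p) (i j) :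
    ContDiffAt ℝ (⊤ : ℕ∞) (fun p => ad (k p) (X p) i j) p := by
  simp only [ad, Matrix.mul_apply]
  exact ContDiffAt.sum fun l _ =>
    (ContDiffAt.sum fun m _ => (h i m).mul (hX m l)).mul (sm_inv h l j)

end reg

end Fh

open Fh in
theorem hAx [Fintype E] [DecidableEq E] (hO : Hd.OUT_s) (hI : Hd.INV_s) (hF : Hd.FLIPQ_s)
    (hR : ∀ {n : Nx E} {L z}, Gs n L z → Irr L) : HAx (Fh : HF E) where
  add h h1 h2 h3 := by
    obtain ⟨A, hA, -⟩ := bil hO h
    rw [hA (Fh.coc h1) (Fh.coc h3), hA (Fh.coc h2) (Fh.coc h3), hA (by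
      simpa only [one_smul, cv_add] using coc_lin (Fh.coc h1) (Fh.coc h2) 1 1) (Fh.coc h3), cv_add,
      map_add, inner_add_left, Complex.add_re]
  smul a h h1 h2 := by
    obtain ⟨A, hA, -⟩ := bil hO h
    rw [hA (Fh.coc h1) (Fh.coc h2), hA (by
      simpa only [zero_smul, add_zero, cv_smul] using coc_lin (Fh.coc h1) (Fh.coc h1) a 0)
      (Fh.coc h2), cv_smul, map_smul, inner_smul_left, Complex.conj_ofReal, Complex.re_ofReal_mul]
  symm h h1 h2 := by
    obtain ⟨A, hA, -⟩ := bil hO h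
    rw [hA (Fh.coc h1) (Fh.coc h2), hA (Fh.coc h2) (Fh.coc h1), ← inner_conj_symm, Complex.conj_re]
  nonneg _ _ := by rw [diag]; exact Hd.Ad1.Fn_nonneg
  cob h h1 h2 := by
    obtain ⟨A, hA, h0⟩ := bil hO h
    obtain ⟨K, -, rfl⟩ := h1
    rw [hA (Fh.coc (zc_dK h.flat K)) (Fh.coc h2), h0, inner_zero_left, Complex.zero_re]
  nd h h1 h2 h0 := by
    obtain ⟨A, -, hA, -⟩ := hO.quad _ rev _ _ (ok h)
    have := hA _ _ (Fh.coc h1) (Fh.coc h2)
    rw [← diag, h0, zero_mul] at this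
    simp only [cv, cj_cxm] at this
    have h3 := pow_eq_zero_iff two_ne_zero |>.1 (le_antisymm this (sq_nonneg _))
    exact Complex.ofReal_eq_zero.1 ((om_eq h1.1 h2.1).symm.trans (norm_eq_zero.1 h3))
  conj k h _ := by
    rw [diag, diag, ← hI.cnj _ rev _ _ _ k (ok h), mob_coe]
    congr 1
    · exact funext (dlab_cj k)
    · exact funext fun d => by rw [cv, dc_cj, cxm_ad, cv]
  iso σ _ _ h2 h3 := by
    rw [diag, diag]
    exact hI.iso _ _ _ _ _ _ _ _ _ σ (im_pos _) h2.nx h2.rv fun d =>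
      ⟨(h3 d).1.symm, congrArg cxm (h3 d).2.symm⟩
  flip d h h' h1 := by
    have q := DF.Gs.qd h d
    have f := DF.fl_of_pos h d
    rw [diag, diag]
    refine hF _ _ rev _ _ _ _ _ d (ok h) (ok h') ⟨q.m1, q.m2, q.m3, q.m4, q.m5, q.m6,
      fun x h1 h2 h3 h4 h5 h6 => q.out x (DF.fst_ne h1 h4) h2 h3 h5 h6, ⟨rev_ne d, f.1, f.2⟩,
      h.trg.ne⟩ (Fh.coc h1) (coc_flip h h1 d) fun x h2 h3 => ⟨DF.dlab_flb_ne _ _ (DF.fst_ne h2 h3), ?_⟩
    rw [cv, dc, tg_flb, DF.dlab_flb_ne _ _ (DF.fst_ne h2 h3), cv, dc]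
  reg := by
    intro P _ _ _ O n L z c oO h1 h2 h3 h4 p hp
    have hn := oO.mem_nhds hp
    have s1 : ∀ x i j, ContDiffAt ℝ (⊤ : ℕ∞) (fun p => L p x i j) p := fun x i j =>
      (h1 x i j).contDiffAt hn
    have s3 := fun x i j => (h3 x i j).contDiffAt hn
    simp only [diag]
    refine (hO.c2 n rev (fun p => dlab (L p)) (fun p => (z p : ℂ)) (fun p => cv (L p) (c p)) p
      ⟨?_, h2.contDiffAt hn, ?_, ?_, Fh.oneV (h4 p hp).1.trg, irr (hR (h4 p hp).1)⟩
      (ok (h4 p hp).1)).contDiffWithinAt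
    · rintro ⟨x, _ | _⟩
      exacts [sm_inv (s1 x), s1 x]
    · rintro ⟨x, _ | _⟩ i j <;> refine Complex.ofRealCLM.contDiff.contDiffAt.comp p ?_
      exacts [(sm_ad (sm_inv (s1 x)) (s3 x) i j).neg, s3 x i j]
    · filter_upwards [hn] with q hq using ⟨(ok (h4 q hq).1).toFlat, Fh.coc (h4 q hq).2⟩
  lt := by
    intro n L z c h h1
    obtain ⟨-, α, κ, ⟨β, h2⟩, -, h3⟩ := hO.jet _ rev _ _ _ (ok h) (Fh.coc h1)
    simp only [diag]
    refine ⟨α, β, κ, by simp only [ofComplex_apply]; linarith, fun ε hε => ?_⟩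
    have t : Tendsto (fun t : ℂ => (z : ℂ) + t) (𝓝 0) (𝓝 z) :=
      (continuous_const.add continuous_id).tendsto' 0 _ (add_zero _)
    filter_upwards [h2 ε hε, t.eventually (eventuallyEq_coe_comp_ofComplex z.im_pos)] with t h4 h5
    simpa only [ofComplex_apply, show ((ofComplex (z + t) : ℍ) : ℂ) = z + t from h5] using h4

end Pool.Agent.MP_596265_gt.U

end

section

/-! Block H: the output without hypotheses. -/

namespace Pool.Agent.MP_596265_gt.U

theorem hAx' {E : Type} [Fintype E] [DecidableEq E] [Nonempty E] : HAx (Fh : HF E) :=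
  hAx Hd.All.out Hd.All.inv Hd.All.flipq fun h => h.irr

end Pool.Agent.MP_596265_gt.U

end

section

/-! Block R: the adapter to the core. -/

namespace Pool.Agent.MP_596265_gt.U

open Erg UpperHalfPlane Filter Topology

theorem rAx_of {E : Type} [Fintype E] (h : Hd.R.RH_s) : RAx (Fh (E := E)) := by
  intro n L z W hG hW
  let T : (E → Mat) →ₗ[ℝ] Dr E → Hd.Mat :=
    ⟨⟨cv L, fun _ _ => Fh.cv_add⟩, fun r c => (Fh.cv_smul r).trans (Complex.coe_smul r _)⟩
  obtain ⟨q, hq⟩ := h (W.map T) (Fh.ok hG) (Fh.oneV hG.trg) (by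
    rintro _ ⟨c, hc, rfl⟩
    refine ⟨⟨Fh.coc (hW c hc).1, fun d => ⟨?_, Fh.cj_cxm _⟩⟩, ?_⟩
    · exact (Fh.cxm_tr _).trans (by rw [Fh.dc_tr (hW c hc).1.1, Complex.ofReal_zero])
    · have := (hW c hc).2
      simp only [Fh.diag] at this
      rwa [← isOpenEmbedding_coe.map_nhds_eq])
  refine ⟨q ∘ₗ T.submoduleMap W, fun c => ?_⟩
  obtain ⟨h1, h2, h3⟩ := hq (T.submoduleMap W c)
  refine ⟨h1, fun x w => ?_, fun h0 => (Fh.diag _ _ _ _).trans (h3 fun w hw => h0 ⟨w, hw⟩)⟩
  rw [← RG.mob_coe]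
  exact h2 (x, true) w w.im_pos

end Pool.Agent.MP_596265_gt.U

end

section

namespace Pool.Agent.MP_596265_gt.U

open Hd.R in
theorem rh (H : HA) : RH_s :=
  lin H (one (dat cmp ug rep sym test hol loc part nu vx vf RD.weyl RD.ws ra1) mt RD.md RD.mc ra2
    cmp top bd th lf ug)

theorem rAx {E : Type} [Fintype E] (H : Hd.R.HA) : RAx (Fh (E := E)) := rAx_of (rh H)

end Pool.Agent.MP_596265_gt.U

end

section

namespace Pool.Agent.MP_596265_gt.Hd.R

theorem ha : HA :=
  have a := ALG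
  have t := TRI a
  have r := TRA a t
  have l := GLUE t
  have i := INC a t
  have d : DENS_s := DENS a t r l
  have o := GEO a t
  have p := GEP o
  have q := POL t o p
  have m := PM a MUL p PL
  have c := CVP t r o p q
  have s := SP a t o p q
  have e := EQ a MUL t r i (FS a t l) (SF a t r l) d q m c s
  have j : ISO_s := ISO a MUL p PL m (ST a PL)
  have u := PUR a o p PL m
  have k := COMM a MUL o p PL m
  have v : VHS_s := VHS a MUL u (TYP a MUL p PL m) k j
  ⟨a, MUL, t, r, l, i, d, o, p, q, PL, m, c, s, e, LINK a MUL t r q m c e, u, k, v,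
    HARM MUL i m j u v (MOT MUL i p PL m k (PW a) (PHI o p))⟩

end Pool.Agent.MP_596265_gt.Hd.R

end

section

/-! All blocks together. -/

namespace Pool.Agent.MP_596265_gt.U

open Erg MeasureTheory

theorem top {g : ℕ} {e : ℤ} (hg : 3 ≤ g) (he : |e| ≤ 2 * g - 3)
    (S : Set (SurfaceGroup g →* PSL)) (hS : ∀ ρ ∈ S, EulerNumber ρ e)
    (hm : NullMeasurableSet (liftSet S) (vol g))
    (hi : ∀ φ, IsPos φ → ∀ ρ ∈ S, ρ.comp φ.toMonoidHom ∈ S) :
    vol g (liftSet S) = 0 ↔ vol g (liftSet ({ρ | EulerNumber ρ e} \ S)) ≠ 0 := by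
  have hT : TAx g := tAx (by omega)
  have hD := dAx hT
  obtain ⟨τ, -⟩ : ∃ _ : Ed g, True := ⟨⟨0, by omega⟩, trivial⟩
  have : Nonempty (Ed g) := ⟨τ⟩
  exact fin_ergodic hg he hT (fun e h1 h2 => ⟨thickP hg h1 h2 hT hD hAx' (rAx Hd.R.ha)
    (locP hg h1 hT hD hAx' En.energy_thm), thinP hg h1 h2 hT hD⟩) S hS hm hi

end Pool.Agent.MP_596265_gt.U

end
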