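import Pool.Agent.MP_596265_gt.W.R0
import Pool.Agent.MP_596265_gt.W.C0

attribute [-instance] RKHS.instFunLike GradedMonoid.GradeZero.smul IsScalarTower.complexToReal
  instCoeTCOfCoe NonUnitalNonAssocRing.toAddCommGroup SMulWithZero.toSMulZeroClass
  AddSubgroupClass.toAddCommGroup TotallySeparatedSpace.t2Space
  NonUnitalNonAssocSemiring.toAddCommMonoid Valued.toUniformSpace AddQuantale.instAddLeftMono
  ENormedAddCommMonoid.toESeminormedAddCommMonoid AlgHom.instNonUnitalAlgHomClassOfAlgHomClass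
  RightPreLieAlgebra.toModule LeftPreLieAlgebra.toModule LieRinehartAlgebra.toIsScalarTower
  littleWedderburn ProperSMul.toContinuousSMul instCoeHTCOfCoeHeadOfCoeOTC
  ESeminormedAddMonoid.toAddMonoid NonarchimedeanAddGroup.toIsTopologicalAddGroup
  CoalgHomClass.toSemilinearMapClass instNonUnitalAlgHomClassOfNonUnitalAlgEquivClass
  CategoryTheory.CommGrpObj.toGrpObj instCoeHTCTOfCoeTailOfCoeHTC NumberField.to_charZero
  NonUnitalSeminormedRing.toPseudoMetricSpace LieRing.toAddCommGroup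
  IsTopologicalTorsor.toContinuousSMul
  ContinuousMonoidHom.instCoeOutOfMonoidHomClassOfContinuousMapClass
  TopologicalSpace.instSecondCountableTopologyOfLindelofSpaceOfPseudoMetrizableSpace
  AddCommGroupWithOne.toAddGroupWithOne Module.complexToReal instSMulZeroClass
  MonTypeEquivalenceMon.monMonoid IdemSemiring.toSemiring
  Group.IsPerfect.subsingleton_of_isMulCommutative IdemSemiring.toCanonicallyOrderedAdd
  SeminormedCommRing.toCommRing SubringClass.toRing EuclideanDomain.toCommRing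
  SemilinearIsometryClass.toSemilinearMapClass continuousSub_of_discreteTopology instCoeOutOfCoeFun
  LinearOrderedCommMonoidWithZero.toPosMulStrictMono NonarchimedeanRing.toIsTopologicalRing
  NonUnitalCStarAlgebra.toNonUnitalNormedRing instZeroLEOneClass AddQuantale.instAddRightMono
  NormedDivisionRing.toNormedRing Bialgebra.toAlgebra Fintype.decidableForallFintype instCoeTOfCoeDep
  CStarAlgebra.instOrderClosedTopology AddCommMonoidWithOne.toAddCommMonoid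
  NonUnitalRing.toNonUnitalNonAssocRing NormedDivisionRing.toDivisionRing
  NonAssocCommSemiring.toNonAssocSemiring TestFunctionClass.toDFunLike BooleanRing.toRing
  Unique.instSubsingleton MulSemiringAction.toDistribMulAction ContDiffMapSupportedInClass.toDFunLike
  SubtractionMonoid.toSubNegMonoid BooleanRing.toCommRing AddCommGroupWithOne.toAddCommGroup
  IsPurelyInseparable.isIntegral MonoidWithZero.toMulZeroOneClass DivisionCommMonoid.toDivisionMonoid
  NonUnitalNormedCommRing.toNonUnitalSeminormedCommRing RingHomClass.toLinearMapClassRat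
  Quantale.instMulRightMono AddRightCancelMonoid.toAddMonoid PolishSpace.toSecondCountableTopology
  AddGroupSeminormClass.toNonnegHomClass instIsDedekindFiniteMonoid instCoeHTCT Torsor.toMulAction
  Submodule.IsLattice.finite IsometryClass.instCoeOutIsometryEquiv Valued.isTopologicalDivisionRing
  instCoeHTC instCoeTC NonUnitalSemiring.toNonUnitalNonAssocSemiring
  LieAdmissibleRing.toNonUnitalNonAssocRing

section

section
/-! Block Z: definitions. -/

namespace Pool.Agent.MP_596265_gt.U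

open Erg Real UpperHalfPlane MeasureTheory Set Filter Topology

noncomputable section

variable {g : ℕ}

/-- `Q dz^2` is invariant under `γ`. -/
def QI (Q : ℂ → ℂ) (γ : G) : Prop :=
  ∀ w : ℍ, Q (γ • w : ℍ) = (((γ 1 0 : ℝ) : ℂ) * w + (γ 1 1 : ℝ)) ^ 4 * Q w

/-- The image group is discrete. -/
def Fin1 (M : Tup g) : Prop :=
  ∀ (z : ℍ) (R : ℝ), {γ : G | γ ∈ range (FreeGroup.lift M) ∧ dist z (γ • z) ≤ R}.Finite

/-- The image group is cocompact. -/
def Cov1 (M : Tup g) : Prop := ∃ R : ℝ, ∀ w : ℍ, ∃ k : Fr g, dist I (FreeGroup.lift M k • w) ≤ R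

/-- The cocycle vanishes on the kernel. -/
def Kil (M : Tup g) (u : Gen g → Mat) : Prop := ∀ k, PM (FreeGroup.lift M k) 1 → coc M u k = 0

/-- Two elements of the kernel whose equations have rank two. -/
def Rk2 (M : Tup g) : Prop :=
  ∃ (k k' : Fr g) (i j i' j' : Fin 2), PM (FreeGroup.lift M k) 1 ∧ PM (FreeGroup.lift M k') 1 ∧
    ∀ y : ℝ × ℝ, ∃ u, Z1 M u ∧ (coc M u k i j, coc M u k' i' j') = y

/-- Length of an edge. -/
def eL (M : Tup g) (z : ℍ) (τ : MS g) (d : Dr (Ed g)) : ℝ := dist z (vQ (geo M τ.2) z d)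

/-- The norm of `u` does not depend on the base point near `z`. -/
def Cst (F : HF (Ed g)) (M : Tup g) (z : ℍ) (τ : MS g) (u : Gen g → Mat) : Prop :=
  ∀ᶠ w in 𝓝 z, FM F M w τ u = FM F M z τ u

/-- Interior states of the thick part. -/
def Int1 (e : ℤ) (η R : ℝ) (M : Tup g) (z : ℍ) (τ : MS g) : Prop :=
  M ∈ X g e ∧ ∀ᶠ N in 𝓝 M, N ∈ X g e → KL η R N z τ

/-- The dichotomy at all positive states. -/
def Dich (g : ℕ) (e : ℤ) (η R : ℝ) : Prop :=
  ∀ (M : Tup g) (z : ℍ) (τ : MS g), M ∈ X g e → Ps M z τ →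
    Int1 e η R M z τ ∨ M ∈ Om e {N | KL η R N z τ}ᶜ

end

end Pool.Agent.MP_596265_gt.U
end

section
/-! Abstract part of the last step: a set of codimension two does not carry the boundary of a
locally almost everywhere constant indicator function. -/

namespace Pool.Agent.MP_596265_gt.U

open Set MeasureTheory Metric Module Filter Topology
open scoped ENNReal NNReal

variable {E F : Type*} [NormedAddCommGroup E] [NormedSpace ℝ E] [FiniteDimensional ℝ E]
  [NormedAddCommGroup F] [NormedSpace ℝ F] [FiniteDimensional ℝ F]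

/-- regular zeros of one map -/
theorem za_dimH_zero (Φ : E → F) :
    dimH {x | Φ x = 0 ∧ ∃ A : E →L[ℝ] F, HasStrictFDerivAt Φ A x ∧ Function.Surjective A} ≤
      (finrank ℝ E - finrank ℝ F : ℕ) := by
  set Z := {x | Φ x = 0 ∧ ∃ A : E →L[ℝ] F, HasStrictFDerivAt Φ A x ∧ Function.Surjective A}
  by_contra hlt
  obtain ⟨x, ⟨hx0, A, hA, hs⟩, hx⟩ := exists_mem_nhdsWithin_lt_dimH_of_lt_dimH (not_le.1 hlt)
  obtain ⟨R, hR⟩ := (A : E →ₗ[ℝ] F).exists_rightInverse_of_surjective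
    (LinearMap.range_eq_top.2 hs)
  let R' : F →L[ℝ] E := LinearMap.toContinuousLinearMap R
  have hR' : ∀ y, A (R' y) = y := fun y => LinearMap.congr_fun hR y
  let P : E → LinearMap.ker (A : E →ₗ[ℝ] F) := fun v => ⟨v - R' (A v), by
    simp only [LinearMap.mem_ker, ContinuousLinearMap.coe_coe, map_sub, hR', sub_self]⟩
  have hε : (0 : ℝ) < 1 / (2 * (‖R'‖ + 1)) := by positivity
  have h1 := hA.isLittleO.def hε
  rw [nhds_prod_eq, eventually_prod_iff] at h1
  obtain ⟨p, hp, q, hq, hpq⟩ := h1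
  let T : Set E := Z ∩ {v | p v ∧ q v}
  have hT : T ∈ 𝓝[Z] x := inter_mem_nhdsWithin _ (hp.and hq)
  have h2 : AntilipschitzWith 2 (fun v : T => P v) := by
    refine AntilipschitzWith.of_le_mul_dist fun u v => ?_
    have h3 := hpq u.2.2.1 v.2.2.2
    simp only [u.2.1.1, v.2.1.1, sub_self, zero_sub, norm_neg] at h3
    have h4 : ‖R' (A (u.1 - v.1))‖ ≤ ‖u.1 - v.1‖ / 2 := by
      refine (R'.le_opNorm _).trans ?_
      calc _ ≤ (‖R'‖ + 1) * (1 / (2 * (‖R'‖ + 1)) * ‖u.1 - v.1‖) := by gcongr; linarith only []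
        _ = _ := by field_simp
    have h5 : dist (P u) (P v) = ‖(u.1 - v.1) - R' (A (u.1 - v.1))‖ := by
      rw [Subtype.dist_eq, dist_eq_norm]; congr 1; simp only [P, map_sub]; abel
    have h6 := norm_sub_norm_le (u.1 - v.1) (R' (A (u.1 - v.1)))
    rw [h5, Subtype.dist_eq, dist_eq_norm]; push_cast; linarith only [h4, h6]
  have h7 : dimH T ≤ finrank ℝ (LinearMap.ker (A : E →ₗ[ℝ] F)) := by
    calc dimH T = dimH (univ : Set T) := by
          rw [← (isometry_subtype_coe (s := T)).dimH_image, image_univ, Subtype.range_coe]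
      _ ≤ _ := h2.le_dimH_image _
      _ ≤ _ := (dimH_mono (subset_univ _)).trans (Real.dimH_univ_eq_finrank _).le
  have h8 := (A : E →ₗ[ℝ] F).finrank_range_add_finrank_ker
  rw [LinearMap.range_eq_top.2 hs, finrank_top] at h8
  have h9 := (hx T hT).trans_le h7
  rw [Nat.cast_lt] at h9
  omega

/-- a set of dimension less than `n - 1` is missed by a line of given direction through every
neighbourhood -/
theorem za_line {B : Set E} (hB : dimH B < (finrank ℝ E - 1 : ℕ)) {d : E} (hd : d ≠ 0) (x : E)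
    {δ : ℝ} (hδ : 0 < δ) : ∃ y ∈ ball x δ, ∀ t : ℝ, y + t • d ∉ B := by
  obtain ⟨l, -, hl⟩ := exists_dual_vector ℝ d (norm_ne_zero_iff.2 hd)
  let m : E →L[ℝ] ℝ := ‖d‖⁻¹ • l
  have hm : m d = 1 := by
    have := norm_ne_zero_iff.2 hd
    simp [m, hl, this]
  let K := LinearMap.ker (m : E →ₗ[ℝ] ℝ)
  let P : E →L[ℝ] K := (ContinuousLinearMap.id ℝ E - m.smulRight d).codRestrict K fun v => by
    simp only [K, sub_apply, ContinuousLinearMap.id_apply, ContinuousLinearMap.smulRight_apply, LinearMap.mem_ker, ContinuousLinearMap.coe_coe, map_sub, map_smul, hm, smul_eq_mul, mul_one, sub_self]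
  have hP : ∀ v, (P v : E) = v - m v • d := fun v => rfl
  have hK : finrank ℝ E - 1 ≤ finrank ℝ K := by
    have h1 := (m : E →ₗ[ℝ] ℝ).finrank_range_add_finrank_ker
    have h2 := Submodule.finrank_le (LinearMap.range (m : E →ₗ[ℝ] ℝ))
    rw [finrank_self] at h2
    simp only [K]; omega
  have hD := dense_compl_of_dimH_lt_finrank (s := P '' B)
    ((P.lipschitz.dimH_image_le B).trans_lt (hB.trans_le (Nat.cast_le.2 hK)))
  obtain ⟨k, hk, hk'⟩ := hD.exists_dist_lt (P x) hδ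
  refine ⟨k + m x • d, ?_, fun t ht => hk ⟨_, ht, Subtype.ext ?_⟩⟩
  · rw [Subtype.dist_eq, hP, dist_comm, dist_eq_norm] at hk'
    rw [mem_ball, dist_eq_norm]; convert hk' using 2; abel
  · have : m k = 0 := k.2
    simp [hP, this, hm]

variable [MeasurableSpace E] [BorelSpace E] (μ : Measure E) [μ.IsAddHaarMeasure]

theorem za_null {B : Set E} (hB : dimH B < finrank ℝ E) : μ B = 0 :=
  measure_zero_of_dimH_lt (d := finrank ℝ E) (Measure.absolutelyContinuous_isAddHaarMeasure μ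
    (Measure.hausdorffMeasure (finrank ℝ E))) hB

/-- If `S` is null or conull near every point of a convex open set outside a set of dimension
less than `n - 1`, then `S` is null or conull in the whole set. -/
theorem za_main {S B O : Set E} (hO : IsOpen O) (hc : Convex ℝ O)
    (hB : dimH B < (finrank ℝ E - 1 : ℕ))
    (h : ∀ x ∈ O, x ∉ B → ∃ V ∈ 𝓝 x, μ (V ∩ S) = 0 ∨ μ (V \ S) = 0) :
    μ (O ∩ S) = 0 ∨ μ (O \ S) = 0 := by
  have hB0 : μ B = 0 := za_null μ (hB.trans_le (Nat.cast_le.2 (Nat.sub_le _ _)))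
  have loc : ∀ T : Set E, IsOpen {x | ∃ V ∈ 𝓝 x, μ (V ∩ T) = 0} := fun T =>
    isOpen_iff_mem_nhds.2 fun x ⟨V, hV, h0⟩ =>
      mem_of_superset (eventually_mem_nhds_iff.2 hV) fun y hy => ⟨V, hy, h0⟩
  have glob : ∀ T : Set E, (∀ x ∈ O, x ∉ B → ∃ V ∈ 𝓝 x, μ (V ∩ T) = 0) → μ (O ∩ T) = 0 := by
    intro T hT
    have h1 : μ ((O ∩ T) \ B) = 0 := measure_null_of_locally_null _ fun x hx => by
      obtain ⟨V, hV, h0⟩ := hT x hx.1.1 hx.2
      exact ⟨V ∩ T, inter_mem (mem_nhdsWithin_of_mem_nhds hV)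
        (mem_of_superset self_mem_nhdsWithin fun y hy => hy.1.2), h0⟩
    rwa [measure_sdiff_null hB0] at h1
  by_contra hn
  rw [not_or] at hn
  obtain ⟨x, hx⟩ := not_forall.1 (mt (glob S) hn.1)
  obtain ⟨y, hy⟩ := not_forall.1 (mt (glob Sᶜ) hn.2)
  simp only [not_forall] at hx hy
  obtain ⟨hxO, hxB, hx⟩ := hx
  obtain ⟨hyO, hyB, hy⟩ := hy
  have hxU : x ∈ {x | ∃ V ∈ 𝓝 x, μ (V ∩ Sᶜ) = 0} := by
    obtain ⟨V, hV, h0 | h0⟩ := h x hxO hxB
    exacts [absurd ⟨V, hV, h0⟩ hx, ⟨V, hV, h0⟩]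
  have hyN : y ∈ {x | ∃ V ∈ 𝓝 x, μ (V ∩ S) = 0} := by
    obtain ⟨V, hV, h0 | h0⟩ := h y hyO hyB
    exacts [⟨V, hV, h0⟩, absurd ⟨V, hV, h0⟩ hy]
  have hxy : y - x ≠ 0 := sub_ne_zero.2 fun e => hx (e ▸ hyN)
  obtain ⟨δ, hδ, h1⟩ := Metric.isOpen_iff.1 (hO.inter (loc Sᶜ)) x ⟨hxO, hxU⟩
  obtain ⟨δ', hδ', h2⟩ := Metric.isOpen_iff.1 (hO.inter (loc S)) y ⟨hyO, hyN⟩
  obtain ⟨z, hz, hzB⟩ := za_line hB hxy x (lt_min hδ hδ')
  have hz1 := h1 (ball_subset_ball (min_le_left _ _) hz)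
  have hz2 : z + (y - x) ∈ O ∩ {x | ∃ V ∈ 𝓝 x, μ (V ∩ S) = 0} := h2 (by
    have := ball_subset_ball (min_le_right _ _) hz
    rw [mem_ball, dist_eq_norm] at this ⊢
    convert this using 2; abel)
  obtain ⟨w, -, ⟨V, hV, h3⟩, V', hV', h4⟩ := (convex_segment z (z + (y - x))).isPreconnected _ _
    (loc Sᶜ) (loc S) (fun w hw => by
      have hwO := hc.segment_subset hz1.1 hz2.1 hw
      rw [segment_eq_image'] at hw
      obtain ⟨t, -, rfl⟩ := hw
      obtain ⟨V, hV, h0 | h0⟩ := h _ hwO (by simpa using hzB t)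
      exacts [Or.inr ⟨V, hV, h0⟩, Or.inl ⟨V, hV, h0⟩])
    ⟨z, left_mem_segment _ _ _, hz1.2⟩ ⟨_, right_mem_segment _ _ _, hz2.2⟩
  refine (Measure.measure_pos_of_mem_nhds μ (inter_mem hV hV')).ne' (measure_mono_null
    (t := V ∩ Sᶜ ∪ V' ∩ S) (fun u hu => ?_) (measure_union_null h3 h4))
  by_cases hu' : u ∈ S
  exacts [Or.inr ⟨hu.2, hu'⟩, Or.inl ⟨hu.1, hu'⟩]

end Pool.Agent.MP_596265_gt.U
end

section
/-! The order of an invariant holomorphic quadratic differential at the vertex of a positive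
triangulation is bounded by the area. -/

namespace Pool.Agent.MP_596265_gt.U

open Set Real Filter Topology UpperHalfPlane
open Complex (exp arg normSq)
open scoped ComplexConjugate

/-- a positive multiple of the Blaschke factor -/
noncomputable def zvU (a w : ℍ) : ℂ := ((w : ℂ) - a) * (conj (w : ℂ) - a)
noncomputable def zvC (a p q : ℍ) : ℂ := zvU a q * conj (zvU a p)
/-- the angle under which `p q` is seen from `a` -/
noncomputable def zvA (a p q : ℍ) : ℝ := if hdet a p q = 0 then 0 else arg (zvC a p q)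

theorem zv_im (a p q : ℍ) : (zvC a p q).im = 2 * a.im * hdet a p q := by
  simp only [zvC, zvU, hdet, det3, Φ, Complex.mul_im, Complex.mul_re, Complex.sub_re,
    Complex.sub_im, Complex.conj_re, Complex.conj_im, coe_re, coe_im]
  ring
theorem zv_im_ne {a p q : ℍ} (h : hdet a p q ≠ 0) : (zvC a p q).im ≠ 0 := by
  rw [zv_im]; exact mul_ne_zero (mul_pos two_pos a.im_pos).ne' h
theorem zv_ne {a p q : ℍ} (h : hdet a p q ≠ 0) : zvC a p q ≠ 0 := fun e => zv_im_ne h (by simp [e])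
theorem zv_arg_ne {a p q : ℍ} (h : hdet a p q ≠ 0) : arg (zvC a p q) ≠ π := fun e =>
  zv_im_ne h (Complex.arg_eq_pi_iff.1 e).2
theorem zv_anti (a p q : ℍ) : zvA a q p = -zvA a p q := by
  have e : hdet a q p = -hdet a p q := by simp only [hdet, det3]; ring
  have e2 : zvC a q p = conj (zvC a p q) := by simp [zvC, mul_comm]
  by_cases h : hdet a p q = 0
  · simp [zvA, e, h]
  · rw [zvA, zvA, e, if_neg (neg_ne_zero.2 h), if_neg h, e2, Complex.arg_conj, if_neg (zv_arg_ne h)]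
theorem zv_pos {a p q : ℍ} (h : 0 < hdet a p q) : 0 < zvA a p q := by
  rw [zvA, if_neg h.ne']
  exact (hb_bd (by rw [zv_im]; exact mul_pos (mul_pos two_pos a.im_pos) h)).1
theorem zv_gt (a p q : ℍ) : -π < zvA a p q := by
  unfold zvA; split_ifs
  exacts [neg_lt_zero.2 pi_pos, Complex.neg_pi_lt_arg _]
theorem zv_polar {a p q : ℍ} (h : hdet a p q ≠ 0) :
    ∃ r : ℝ, 0 < r ∧ zvC a p q = r * exp (zvA a p q * Complex.I) :=
  ⟨_, norm_pos_iff.2 (zv_ne h), by rw [zvA, if_neg h, Complex.norm_mul_exp_arg_mul_I]⟩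

theorem zv_sum_aux {a p q r : ℍ} (h : 0 < hdet a p q) : 0 ≤ zvA a p q + zvA a q r + zvA a r p := by
  by_contra hn
  push Not at hn
  have h1 := zv_pos h
  have h2 := zv_gt a q r
  have h3 := zv_gt a r p
  obtain ⟨r1, hr1, e1⟩ := zv_polar h.ne'
  have two : ∀ {x y : ℝ} {s t c : ℝ} {z : ℂ}, 0 < s → 0 < t → z.im = 0 →
      (s * exp (x * Complex.I)) * (t * exp (y * Complex.I)) = c * conj z → -π < x + y →
      x + y < 0 → False := by
    intro x y s t c z hs ht hz e b1 b2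
    have e' : ((s * t : ℝ) : ℂ) * exp ((x + y : ℝ) * Complex.I) = c * conj z := by
      rw [← e]; push_cast; rw [add_mul, Complex.exp_add]; ring
    have := congrArg Complex.im e'
    rw [Complex.im_ofReal_mul, Complex.exp_ofReal_mul_I_im, Complex.im_ofReal_mul,
      Complex.conj_im, hz] at this
    have h5 := mul_neg_of_pos_of_neg (mul_pos hs ht) (sin_neg_of_neg_of_neg_pi_lt b2 b1)
    simp only [neg_zero, mul_zero] at this
    exact h5.ne this
  by_cases k2 : hdet a q r = 0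
  · have z2 : zvA a q r = 0 := if_pos k2
    by_cases k3 : hdet a r p = 0
    · have z3 : zvA a r p = 0 := if_pos k3
      linarith
    obtain ⟨r3, hr3, e3⟩ := zv_polar k3
    refine two (x := zvA a p q) (y := zvA a r p) (c := normSq (zvU a p)) (z := zvC a q r) hr1 hr3
      (by rw [zv_im, k2, mul_zero]) ?_ (by linarith) (by linarith)
    rw [← e1, ← e3, Complex.normSq_eq_conj_mul_self]; simp only [zvC, map_mul, Complex.conj_conj]
    ring
  obtain ⟨r2, hr2, e2⟩ := zv_polar k2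
  by_cases k3 : hdet a r p = 0
  · have z3 : zvA a r p = 0 := if_pos k3
    refine two (x := zvA a p q) (y := zvA a q r) (c := normSq (zvU a q)) (z := zvC a r p) hr1 hr2
      (by rw [zv_im, k3, mul_zero]) ?_ (by linarith) (by linarith)
    rw [← e1, ← e2, Complex.normSq_eq_conj_mul_self]; simp only [zvC, map_mul, Complex.conj_conj]
    ring
  obtain ⟨r3, hr3, e3⟩ := zv_polar k3
  have e : ((r1 * r2 * r3 : ℝ) : ℂ) * exp ((zvA a p q + zvA a q r + zvA a r p : ℝ) * Complex.I) =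
      ((normSq (zvU a p) * normSq (zvU a q) * normSq (zvU a r) : ℝ) : ℂ) := by
    have := congrArg₂ (· * ·) (congrArg₂ (· * ·) e1 e2) e3
    push_cast
    rw [add_mul, add_mul, Complex.exp_add, Complex.exp_add, Complex.normSq_eq_conj_mul_self,
      Complex.normSq_eq_conj_mul_self, Complex.normSq_eq_conj_mul_self]
    simp only [zvC] at this
    linear_combination -this
  have i1 := congrArg Complex.im e
  have i2 := congrArg Complex.re e
  rw [Complex.im_ofReal_mul, Complex.exp_ofReal_mul_I_im, Complex.ofReal_im] at i1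
  rw [Complex.re_ofReal_mul, Complex.exp_ofReal_mul_I_re, Complex.ofReal_re] at i2
  have hp : 0 < r1 * r2 * r3 := by positivity
  have s0 := (mul_eq_zero.1 i1).resolve_left hp.ne'
  have c0 : 0 ≤ cos (zvA a p q + zvA a q r + zvA a r p) := by
    refine nonneg_of_mul_nonneg_right (i2 ▸ ?_) hp
    exact mul_nonneg (mul_nonneg (Complex.normSq_nonneg _) (Complex.normSq_nonneg _))
      (Complex.normSq_nonneg _)
  have c1 : cos (zvA a p q + zvA a q r + zvA a r p) = 1 := by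
    nlinarith only [sin_sq_add_cos_sq (zvA a p q + zvA a q r + zvA a r p), s0, c0]
  exact hn.ne ((cos_eq_one_iff_of_lt_of_lt (by linarith) (by linarith [pi_pos])).1 c1)

/-- a positive triangle has non-negative winding angle around every point -/
theorem zv_sum {p q r : ℍ} (h : 0 < hdet p q r) (a : ℍ) :
    0 ≤ zvA a p q + zvA a q r + zvA a r p := by
  have e : hdet a p q + hdet a q r + hdet a r p = hdet p q r := by simp only [hdet, det3]; ring
  by_cases h1 : 0 < hdet a p q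
  · exact zv_sum_aux h1
  by_cases h2 : 0 < hdet a q r
  · linarith [zv_sum_aux (r := p) h2]
  · linarith [zv_sum_aux (a := a) (p := r) (q := p) (r := q) (by linarith)]

theorem zv_vertex (p q r : ℍ) : zvA p p q + zvA p q r + zvA p r p = zvA p q r := by
  have e1 : hdet p p q = 0 := by simp only [hdet, det3]; ring
  have e2 : hdet p r p = 0 := by simp only [hdet, det3]; ring
  simp [zvA, e1, e2]

theorem zv_har (p q : ℍ) : ∃ r : ℝ, 0 ≤ r ∧
    zvU q p * conj (zvU p q) * exp (har p q * Complex.I) = -(r : ℂ) := by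
  have e := Complex.norm_mul_exp_arg_mul_I ((q : ℂ) - conj (p : ℂ))
  set s := ‖(q : ℂ) - conj (p : ℂ)‖
  set t := arg ((q : ℂ) - conj (p : ℂ))
  refine ⟨normSq ((p : ℂ) - q) * s ^ 2, mul_nonneg (Complex.normSq_nonneg _) (sq_nonneg _), ?_⟩
  have e1 : exp (har p q * Complex.I) * exp (t * Complex.I) ^ 2 = -1 := by
    rw [sq, ← Complex.exp_add, ← Complex.exp_add, hb_har, ← Complex.exp_pi_mul_I]
    congr 1; push_cast; ring
  have e2 : zvU q p * conj (zvU p q) = normSq ((p : ℂ) - q) * ((q : ℂ) - conj (p : ℂ)) ^ 2 := by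
    rw [Complex.normSq_eq_conj_mul_self]; simp only [zvU, map_mul, map_sub, Complex.conj_conj]
    ring
  rw [e2, ← e]; push_cast
  linear_combination (normSq ((p : ℂ) - q) : ℂ) * (s : ℂ) ^ 2 * e1

/-- angles and area of a positive triangle -/
theorem zv_gb {p q r : ℍ} (h : 0 < hdet p q r) :
    π ≤ zvA p q r + zvA q r p + zvA r p q + tarea p q r := by
  have h2 : 0 < hdet q r p := by convert h using 1; simp only [hdet, det3]; ring
  have h3 : 0 < hdet r p q := by convert h using 1; simp only [hdet, det3]; ring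
  have t0 := tarea_nonneg (ν := 1) (Or.inl rfl) (p := p) (r := q) (q := r) (by simpa using h)
  rw [one_mul] at t0
  obtain ⟨r1, hr1, e1⟩ := zv_polar h.ne'
  obtain ⟨r2, hr2, e2⟩ := zv_polar h2.ne'
  obtain ⟨r3, hr3, e3⟩ := zv_polar h3.ne'
  obtain ⟨s1, hs1, f1⟩ := zv_har p q
  obtain ⟨s2, hs2, f2⟩ := zv_har q r
  obtain ⟨s3, hs3, f3⟩ := zv_har r p
  set T := zvA p q r + zvA q r p + zvA r p q + tarea p q r with hT
  have e : ((r1 * r2 * r3 : ℝ) : ℂ) * exp ((T : ℝ) * Complex.I) = ((-(s1 * s2 * s3) : ℝ) : ℂ) := by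
    have a1 := congrArg₂ (· * ·) (congrArg₂ (· * ·) e1 e2) e3
    have a2 := congrArg₂ (· * ·) (congrArg₂ (· * ·) f1 f2) f3
    simp only [zvC] at a1 a2
    rw [hT, tarea]; push_cast
    simp only [add_mul, Complex.exp_add]
    linear_combination a2 - exp (har p q * Complex.I) * exp (har q r * Complex.I) *
      exp (har r p * Complex.I) * a1
  have i1 := congrArg Complex.im e
  rw [Complex.im_ofReal_mul, Complex.exp_ofReal_mul_I_im, Complex.ofReal_im] at i1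
  have hp : 0 < r1 * r2 * r3 := by positivity
  by_contra hn
  exact (mul_pos hp (sin_pos_of_pos_of_lt_pi
    (by linarith only [zv_pos h, zv_pos h2, zv_pos h3, t0]) (not_le.1 hn))).ne' i1

/-- `θ` is the variation from `p` to `q` of a continuous argument modulo `π` of `f` on `S` -/
def ZvP (S : Set ℍ) (p q : ℍ) (f : ℍ → ℂ) (θ : ℝ) : Prop :=
  ∃ (C : ℂ) (φ : ℍ → ℝ), C ≠ 0 ∧ ContinuousOn φ S ∧ φ q - φ p = θ ∧
    ∀ w ∈ S, ∃ r : ℝ, f w = r * exp (φ w * Complex.I) * C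

section
variable {S : Set ℍ} {p q : ℍ} {f g : ℍ → ℂ} {θ η : ℝ}

theorem ZvP.mul (h : ZvP S p q f θ) (h' : ZvP S p q g η) :
    ZvP S p q (fun w => f w * g w) (θ + η) := by
  obtain ⟨C, φ, h1, h2, h3, h4⟩ := h
  obtain ⟨C', φ', k1, k2, k3, k4⟩ := h'
  refine ⟨C * C', fun w => φ w + φ' w, mul_ne_zero h1 k1, h2.add k2, by linarith, fun w hw => ?_⟩
  obtain ⟨r, e⟩ := h4 w hw
  obtain ⟨r', e'⟩ := k4 w hw
  exact ⟨r * r', by simp only [e, e']; push_cast; rw [add_mul, Complex.exp_add]; ring⟩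
theorem zvp_const {C : ℂ} (hC : C ≠ 0) : ZvP S p q (fun _ => C) 0 :=
  ⟨C, fun _ => 0, hC, continuousOn_const, by simp, fun _ _ => ⟨1, by simp⟩⟩
theorem ZvP.congr (h : ZvP S p q f θ) (e : ∀ w ∈ S, ∃ r : ℝ, g w = r * f w) : ZvP S p q g θ := by
  obtain ⟨C, φ, h1, h2, h3, h4⟩ := h
  refine ⟨C, φ, h1, h2, h3, fun w hw => ?_⟩
  obtain ⟨r, e1⟩ := h4 w hw
  obtain ⟨r', e'⟩ := e w hw
  exact ⟨r' * r, by rw [e', e1]; push_cast; ring⟩
theorem ZvP.pow (h : ZvP S p q f θ) (n : ℕ) : ZvP S p q (fun w => f w ^ n) (n * θ) := by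
  induction n with
  | zero => simpa using zvp_const one_ne_zero
  | succ n ih => simpa [pow_succ, add_mul] using ih.mul h
theorem zvp_prod {ι : Type*} (s : Finset ι) (F : ι → ℍ → ℂ) (T : ι → ℝ)
    (h : ∀ i ∈ s, ZvP S p q (F i) (T i)) :
    ZvP S p q (fun w => ∏ i ∈ s, F i w) (∑ i ∈ s, T i) := by
  induction s using Finset.cons_induction with
  | empty => simpa using zvp_const one_ne_zero
  | cons a s ha ih =>
    simpa only [Finset.prod_cons, Finset.sum_cons] using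
      (h a (by simp)).mul (ih fun i hi => h i (by simp [hi]))
theorem zvp_exp {L : ℍ → ℂ} (h : ContinuousOn L S) :
    ZvP S p q (fun w => exp (L w)) ((L q).im - (L p).im) :=
  ⟨1, fun w => (L w).im, one_ne_zero, Complex.continuous_im.comp_continuousOn h, rfl,
    fun w _ => ⟨Real.exp (L w).re, by
      rw [mul_one, Complex.ofReal_exp, ← Complex.exp_add, Complex.re_add_im]⟩⟩
theorem zvp_arg (h : ContinuousOn f S) (hs : ∀ w ∈ S, f w ∈ Complex.slitPlane) :
    ZvP S p q f (arg (f q) - arg (f p)) :=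
  ⟨1, fun w => arg (f w), one_ne_zero,
    fun w hw => (Complex.continuousAt_arg (hs w hw)).comp_continuousWithinAt (h w hw), rfl,
    fun w _ => ⟨_, by rw [mul_one, Complex.norm_mul_exp_arg_mul_I]⟩⟩

theorem ZvP.unique (hS : IsPreconnected S) (hp : p ∈ S) (hq : q ∈ S)
    (hF : {w ∈ S | f w = 0}.Finite) (h : ZvP S p q f θ) (h' : ZvP S p q f η) : θ = η := by
  obtain ⟨C, φ, h1, h2, h3, h4⟩ := h
  obtain ⟨C', φ', k1, k2, k3, k4⟩ := h'
  by_cases hpq : p = q
  · subst hpq; linarith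
  let d : ℍ → ℝ := fun w => φ w - φ' w - arg (C' / C)
  have hd : ContinuousOn d S := (h2.sub k2).sub continuousOn_const
  have s0 : EqOn (fun w => sin (d w)) (fun _ => 0) S := by
    refine EqOn.of_subset_closure (s := {w ∈ S | f w ≠ 0}) (fun w hw => ?_)
      (continuous_sin.comp_continuousOn hd) continuousOn_const (fun _ h => h.1) fun x hx => ?_
    · obtain ⟨r, e⟩ := h4 w hw.1
      obtain ⟨r', e'⟩ := k4 w hw.1
      have hr : r ≠ 0 := fun h0 => hw.2 (by simp [e, h0])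
      have e2 := Complex.norm_mul_exp_arg_mul_I (C' / C)
      have e3 : (r : ℂ) * exp ((d w : ℝ) * Complex.I) = (r' * ‖C' / C‖ : ℝ) := by
        have n1 := Complex.exp_ne_zero (φ' w * Complex.I)
        have n2 := Complex.exp_ne_zero (arg (C' / C) * Complex.I)
        rw [eq_div_iff h1] at e2
        simp only [d]; push_cast
        rw [sub_mul, sub_mul, Complex.exp_sub, Complex.exp_sub, div_div, mul_div_assoc',
          div_eq_iff (mul_ne_zero n1 n2)]
        apply mul_right_cancel₀ h1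
        linear_combination e' - e - r' * exp (φ' w * Complex.I) * e2
      have := congrArg Complex.im e3
      rw [Complex.im_ofReal_mul, Complex.exp_ofReal_mul_I_im, Complex.ofReal_im] at this
      exact (mul_eq_zero.1 this).resolve_left hr
    · have a1 := accPt_iff_frequently.1 (hS.preperfect_of_nontrivial ⟨p, hp, q, hq, hpq⟩ x hx)
      have a2 := (hF.subset (sdiff_subset (t := {x}))).isClosed.isOpen_compl.mem_nhds
        (fun h => h.2 rfl : x ∈ _ᶜ)
      exact mem_closure_iff_frequently.2 ((a1.and_eventually a2).mono fun y hy =>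
        ⟨hy.1.2, fun h0 => hy.2 ⟨⟨hy.1.2, h0⟩, hy.1.1⟩⟩)
  have key : ∀ x ∈ S, ∀ y ∈ S, ¬ d x < d y := fun x hx y hy hlt => by
    obtain ⟨k, hk⟩ := sin_eq_zero_iff.1 (s0 hx)
    obtain ⟨l, hl⟩ := sin_eq_zero_iff.1 (s0 hy)
    have h5 : (k : ℝ) + 1 ≤ l := by
      rw [← hk, ← hl] at hlt
      exact_mod_cast (Int.cast_lt.1 (lt_of_mul_lt_mul_right hlt pi_pos.le) : k < l)
    obtain ⟨w, hw, e⟩ := hS.intermediate_value hx hy hd (a := x)
      (⟨by linarith only [pi_pos], by nlinarith only [hlt, hk, hl, h5]⟩ : d x + π / 2 ∈ Icc (d x) (d y))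
    have h6 : sin (d w) = 0 := s0 hw
    have h7 : sin (d x) = 0 := s0 hx
    rw [e, sin_add_pi_div_two] at h6
    have := sin_sq_add_cos_sq (d x)
    rw [h6, h7] at this; norm_num at this
  have := le_antisymm (not_lt.1 (key p hp q hq)) (not_lt.1 (key q hq p hp))
  simp only [d] at this
  linarith
end

theorem zv_conn (p q : ℍ) : IsPreconnected {w | Seg p q w} := by
  rw [← isEmbedding_coe.isInducing.isPreconnected_image]
  let Ψ : Pt → ℂ := fun u => u.1 + sqrt (u.2 - u.1 ^ 2) * Complex.I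
  have hΨ : ∀ w : ℍ, Ψ (Φ w) = w := fun w => by
    simp only [Ψ, Φ, add_sub_cancel_left, sqrt_sq w.im_pos.le]; exact Complex.re_add_im _
  have := (convex_segment (Φ p) (Φ q)).isPreconnected.image Ψ (by fun_prop)
  convert this using 1
  ext z; constructor
  · rintro ⟨w, hw, rfl⟩; exact ⟨_, hw, hΨ w⟩
  · rintro ⟨u, hu, rfl⟩
    obtain ⟨w, rfl⟩ := exists_Φ ((Φ_inH p).segment (Φ_inH q) hu)
    exact ⟨w, hu, (hΨ w).symm⟩

theorem zv_seg (a : ℍ) {p q w : ℍ} (h : Seg p q w) :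
    ∃ s t : ℝ, 0 ≤ s ∧ 0 ≤ t ∧ s + t = 1 ∧ zvU a w = s * zvU a p + t * zvU a q := by
  obtain ⟨s, t, hs, ht, hst, e⟩ := h
  have e1 := congrArg Prod.fst e
  have e2 := congrArg Prod.snd e
  simp only [Φ, Prod.fst_add, Prod.snd_add, Prod.smul_fst, Prod.smul_snd, smul_eq_mul] at e1 e2
  refine ⟨s, t, hs, ht, hst, Complex.ext ?_ ?_⟩ <;>
    simp only [zvU, Complex.mul_im, Complex.mul_re, Complex.sub_re, Complex.add_re, Complex.add_im,
      Complex.sub_im, Complex.conj_re, Complex.conj_im, coe_re, coe_im, Complex.ofReal_re,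
      Complex.ofReal_im]
  · linear_combination 2 * a.re * e1 - e2 - (a.re ^ 2 - a.im ^ 2) * hst
  · linear_combination 2 * a.im * e1 - 2 * a.re * a.im * hst

theorem zvp_U (a p q : ℍ) : ZvP {w | Seg p q w} p q (zvU a) (zvA a p q) := by
  by_cases h : hdet a p q = 0
  · have i0 : (zvC a p q).im = 0 := by rw [zv_im, h, mul_zero]
    rw [zvA, if_pos h]
    by_cases hp : zvU a p = 0
    · by_cases hq : zvU a q = 0
      · refine (zvp_const one_ne_zero).congr fun w hw => ⟨0, ?_⟩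
        obtain ⟨s, t, -, -, -, e⟩ := zv_seg a hw
        simp [e, hp, hq]
      · refine (zvp_const hq).congr fun w hw => ?_
        obtain ⟨s, t, -, -, -, e⟩ := zv_seg a hw
        exact ⟨t, by simp [e, hp]⟩
    · refine (zvp_const hp).congr fun w hw => ?_
      obtain ⟨s, t, -, -, -, e⟩ := zv_seg a hw
      refine ⟨s + t * ((zvC a p q).re / normSq (zvU a p)), ?_⟩
      have e2 : ((zvC a p q).re : ℂ) = zvC a p q := Complex.ext rfl i0.symm
      have n : conj (zvU a p) ≠ 0 := (map_ne_zero _).2 hp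
      rw [e]; push_cast; rw [e2, Complex.normSq_eq_conj_mul_self, zvC]; field_simp
  · have hp : zvU a p ≠ 0 := fun e => zv_ne h (by simp [zvC, e])
    have n : conj (zvU a p) ≠ 0 := (map_ne_zero _).2 hp
    have e0 : zvC a p p = normSq (zvU a p) := Complex.mul_conj _
    have h1 := zvp_arg (S := {w | Seg p q w}) (p := p) (q := q) (f := zvC a p)
      (by unfold zvC zvU; fun_prop) fun w hw => by
        obtain ⟨s, t, hs, ht, hst, e⟩ := zv_seg a hw
        have e1 : zvC a p w = s * normSq (zvU a p) + t * zvC a p q := by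
          rw [← e0]; simp only [zvC, e]; ring
        rcases ht.eq_or_lt with rfl | ht
        · left; rw [e1, show s = 1 by linarith]; simpa using hp
        · right; rw [e1]; simpa using ⟨ht.ne', zv_im_ne h⟩
    rw [e0, Complex.arg_ofReal_of_nonneg (Complex.normSq_nonneg _), sub_zero] at h1
    rw [zvA, if_neg h, ← add_zero (arg _)]
    exact (h1.mul (zvp_const (inv_ne_zero n))).congr fun w _ => ⟨1, by simp [zvC, n]⟩

theorem zv_one {U : Set ℂ} {g : ℂ → ℂ} (hg : AnalyticOnNhd ℂ g U) {a : ℂ} (ha : a ∈ U) {n : ℕ}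
    (hn : analyticOrderAt g a = n) :
    ∃ g1, AnalyticOnNhd ℂ g1 U ∧ g1 a ≠ 0 ∧ ∀ z, g z = (z - a) ^ n * g1 z := by
  classical
  obtain ⟨h, h1, h2, h3⟩ := (hg a ha).analyticOrderAt_eq_natCast.1 hn
  refine ⟨Function.update (fun z => g z / (z - a) ^ n) a (h a), fun z hz => ?_, by simpa, fun z => ?_⟩
  · by_cases e : z = a
    · subst e
      refine h1.congr (h3.mono fun y hy => ?_)
      by_cases e : y = z
      · simp [e]
      · rw [Function.update_of_ne e, hy, smul_eq_mul, mul_div_cancel_left₀ _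
          (pow_ne_zero _ (sub_ne_zero.2 e))]
    · refine ((hg z hz).fun_div (g := fun z => (z - a) ^ n) (by fun_prop)
        (pow_ne_zero _ (sub_ne_zero.2 e))).congr ?_
      exact (eventually_ne_nhds e).mono fun y hy => by rw [Function.update_of_ne hy]
  · by_cases e : z = a
    · subst e; simpa using h3.self_of_nhds
    · rw [Function.update_of_ne e, mul_div_cancel₀ _ (pow_ne_zero _ (sub_ne_zero.2 e))]

theorem zv_div {U : Set ℂ} {Q : ℂ → ℂ} (hQ : AnalyticOnNhd ℂ Q U) (s : Finset ℍ)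
    (hs : ∀ a ∈ s, (a : ℂ) ∈ U ∧ analyticOrderAt Q a ≠ ⊤) :
    ∃ g, AnalyticOnNhd ℂ g U ∧ (∀ a ∈ s, g a ≠ 0) ∧
      ∀ z, Q z = (∏ a ∈ s, (z - a) ^ analyticOrderNatAt Q a) * g z := by
  induction s using Finset.cons_induction with
  | empty => exact ⟨Q, hQ, by simp, by simp⟩
  | cons a s ha ih =>
    obtain ⟨g, h1, h2, h3⟩ := ih fun b hb => hs b (by simp [hb])
    obtain ⟨hU, hn⟩ := hs a (by simp)
    have hP : AnalyticAt ℂ (fun z : ℂ => ∏ b ∈ s, (z - b) ^ analyticOrderNatAt Q b) a := by fun_prop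
    have e : analyticOrderAt g a = analyticOrderNatAt Q a := by
      rw [Nat.cast_analyticOrderNatAt hn]
      conv_rhs => rw [show Q = _ * g from funext h3]
      rw [analyticOrderAt_mul hP (h1 a hU), hP.analyticOrderAt_eq_zero.2, zero_add]
      exact Finset.prod_ne_zero_iff.2 fun b hb => pow_ne_zero _ (sub_ne_zero.2 fun e =>
        ha (UpperHalfPlane.ext e ▸ hb))
    obtain ⟨g1, k1, k2, k3⟩ := zv_one h1 hU e
    refine ⟨g1, k1, fun b hb => ?_, fun z => by rw [Finset.prod_cons, h3 z, k3 z]; ring⟩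
    rcases Finset.mem_cons.1 hb with rfl | hb
    exacts [k2, fun e => h2 b hb (by rw [k3, e, mul_zero])]

theorem zv_an {Q : ℂ → ℂ} (hQ : DifferentiableOn ℂ Q {z | 0 < z.im}) :
    AnalyticOnNhd ℂ Q {z | 0 < z.im} :=
  hQ.analyticOnNhd (isOpen_lt continuous_const Complex.continuous_im)

theorem zv_fac {Q : ℂ → ℂ} (hQ : DifferentiableOn ℂ Q {z | 0 < z.im}) {w₀ : ℍ} (h0 : Q w₀ ≠ 0)
    {R : ℝ} (hR : 0 < R) : ∃ (s : Finset ℍ) (n : ℍ → ℕ) (L : ℍ → ℂ),
      ContinuousOn L (Metric.ball I R) ∧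
      (∀ w ∈ Metric.ball I R, ∃ r : ℝ, Q w = r * (exp (L w) * ∏ a ∈ s, zvU a w ^ n a)) ∧
      (∀ w ∈ Metric.ball I R, Q w = 0 → w ∈ s) ∧ ∀ a : ℍ, (n a : ℕ∞) = analyticOrderAt Q a := by
  have hA := zv_an hQ
  have hc : IsConnected {z : ℂ | 0 < z.im} := (convex_halfSpace_im_gt 0).isConnected ⟨w₀, w₀.2⟩
  have ht : ∀ a : ℍ, analyticOrderAt Q a ≠ ⊤ := fun a =>
    hA.analyticOrderAt_ne_top_of_isPreconnected hc.2 w₀.2 a.2
      (by rw [(hA _ w₀.2).analyticOrderAt_eq_zero.2 h0]; simp)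
  have hsub : ∀ T : Set ℍ, ((↑) : ℍ → ℂ) '' T ⊆ {z | 0 < z.im} := fun T _ ⟨w, _, e⟩ => e ▸ w.2
  have hF := ((isCompact_closedBall I R).image continuous_coe).finite_sdiff_of_mem_codiscreteWithin
    (codiscreteWithin_mono (hsub _) (hA.preimage_zero_mem_codiscreteWithin h0 w₀.2 hc))
  have hF' : {w ∈ Metric.ball I R | Q w = 0}.Finite :=
    (hF.preimage isEmbedding_coe.injective.injOn).subset fun w hw =>
      ⟨mem_image_of_mem _ (Metric.ball_subset_closedBall hw.1), fun h => h hw.2⟩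
  obtain ⟨g, g1, g2, g3⟩ := zv_div hA hF'.toFinset fun a _ => ⟨a.2, ht a⟩
  have nb : ∀ a w : ℍ, (w : ℂ) - conj (a : ℂ) ≠ 0 := fun a w e => by
    simpa [e] using hb_im a w
  have hB : IsSimplyConnected (((↑) : ℍ → ℂ) '' Metric.ball I R) := by
    have := (image_coe_ball I R ▸ convex_ball _ _ : Convex ℝ (((↑) : ℍ → ℂ) '' Metric.ball I R)
      ).contractibleSpace ((Metric.nonempty_ball.2 hR).image _)
    exact SimplyConnectedSpace.ofContractible _
  obtain ⟨L, L1, L2⟩ := Complex.exists_continuousOn_eqOn_exp_comp hB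
    (image_coe_ball I R ▸ Metric.isOpen_ball)
    (g := fun z => g z * ∏ a ∈ hF'.toFinset, (z - conj (a : ℂ)) ^ analyticOrderNatAt Q a)
    ((g1.continuousOn.mono (hsub _)).mul (by fun_prop)) (by
      rintro ⟨_, ⟨w, hw, rfl⟩, e⟩
      refine mul_ne_zero (fun e0 => g2 w (hF'.mem_toFinset.2 ⟨hw, ?_⟩) e0)
        (Finset.prod_ne_zero_iff.2 fun a _ => pow_ne_zero _ (nb a w)) e
      rw [g3, e0, mul_zero])
  refine ⟨hF'.toFinset, fun a => analyticOrderNatAt Q a, fun w => L w,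
    L1.comp continuous_coe.continuousOn fun w hw => mem_image_of_mem _ hw, fun w hw => ?_,
    fun w hw e => hF'.mem_toFinset.2 ⟨hw, e⟩, fun a => Nat.cast_analyticOrderNatAt (ht a)⟩
  refine ⟨∏ a ∈ hF'.toFinset, (normSq ((w : ℂ) - conj (a : ℂ)))⁻¹ ^ analyticOrderNatAt Q a, ?_⟩
  have e : exp (L w) = _ := L2 (mem_image_of_mem _ hw)
  rw [e, g3 w, mul_comm _ (g w), mul_assoc, mul_left_comm, Complex.ofReal_prod,
    ← Finset.prod_mul_distrib, ← Finset.prod_mul_distrib]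
  refine congrArg _ (Finset.prod_congr rfl fun a _ => ?_)
  have n2 : conj (w : ℂ) - a ≠ 0 := by simpa using (map_ne_zero (starRingEnd ℂ)).2 (nb a w)
  rw [Complex.ofReal_pow, ← mul_pow, ← mul_pow, Complex.ofReal_inv, Complex.normSq_eq_conj_mul_self,
    zvU, map_sub, Complex.conj_conj]
  have := nb a w
  congr 1; field_simp

/-- `Q dz ^ 2` is invariant under `g` -/
def ZvI (Q : ℂ → ℂ) (g : G) : Prop :=
  ∀ w : ℍ, Q (g • w : ℍ) = (((g 1 0 : ℝ) : ℂ) * w + (g 1 1 : ℝ)) ^ 4 * Q w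

theorem zv_det (g : G) : ((g 0 0 : ℝ) : ℂ) * (g 1 1 : ℝ) - (g 0 1 : ℝ) * (g 1 0 : ℝ) = 1 := by
  exact_mod_cast basic_det g

theorem ZvI.mul {Q : ℂ → ℂ} {g h : G} (hg : ZvI Q g) (hh : ZvI Q h) : ZvI Q (g * h) := fun w => by
  have := basic_denom h w
  rw [mul_smul, hg, hh, ← mul_assoc, ← mul_pow, basic_coe_smul, basic_mul, basic_mul]
  congr 2; rw [add_mul, mul_assoc, div_mul_cancel₀ _ this]; push_cast; ring

theorem ZvI.ord {Q : ℂ → ℂ} (hQ : DifferentiableOn ℂ Q {z | 0 < z.im}) {g : G} (hg : ZvI Q g)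
    (z : ℍ) : analyticOrderAt Q (g • z : ℍ) = analyticOrderAt Q z := by
  have hd := basic_denom g z
  let μ : ℂ → ℂ := fun w => ((g 0 0 : ℝ) * w + (g 0 1 : ℝ)) / ((g 1 0 : ℝ) * w + (g 1 1 : ℝ))
  have hμ : AnalyticAt ℂ μ z := AnalyticAt.fun_div (by fun_prop) (by fun_prop) hd
  have hμ' : deriv μ z ≠ 0 := by
    have := (((hasDerivAt_id (z : ℂ)).const_mul ((g 0 0 : ℝ) : ℂ)).add_const
      ((g 0 1 : ℝ) : ℂ)).div (((hasDerivAt_id (z : ℂ)).const_mul ((g 1 0 : ℝ) : ℂ)).add_const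
      ((g 1 1 : ℝ) : ℂ)) hd
    rw [show deriv μ z = _ from this.deriv]
    refine div_ne_zero (fun e => one_ne_zero (α := ℂ) ?_) (pow_ne_zero _ hd)
    simp only [id] at e
    linear_combination e - zv_det g
  have hj : AnalyticAt ℂ (fun w : ℂ => (((g 1 0 : ℝ) : ℂ) * w + (g 1 1 : ℝ)) ^ 4) z := by fun_prop
  rw [basic_coe_smul, ← analyticOrderAt_comp_of_deriv_ne_zero hμ hμ',
    analyticOrderAt_congr (g := (fun w : ℂ => (((g 1 0 : ℝ) : ℂ) * w + (g 1 1 : ℝ)) ^ 4) * Q),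
    analyticOrderAt_mul hj (zv_an hQ _ z.2), hj.analyticOrderAt_eq_zero.2 (pow_ne_zero _ hd),
    zero_add]
  filter_upwards [(isOpen_lt continuous_const Complex.continuous_im).mem_nhds z.2] with w hw
  have := hg ⟨w, hw⟩
  rwa [basic_coe_smul] at this

/-- **Valence inequality.** -/
theorem zv_valence {D : Type} [Fintype D] {nxt rv : D → D} (hn : Function.Bijective nxt)
    (hr : Function.Bijective rv) (L : D → G) (z : ℍ)
    (h3 : ∀ d, (L d * L (nxt d) * L (nxt (nxt d))) • z = z) (h2 : ∀ d, (L d * L (rv d)) • z = z)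
    (hpos : ∀ d, 0 < hdet z (L d • z) ((L d * L (nxt d)) • z))
    {Q : ℂ → ℂ} (hQ : DifferentiableOn ℂ Q {z | 0 < z.im}) {w₀ : ℍ} (h0 : Q w₀ ≠ 0)
    (hI : ∀ d, ZvI Q (L d)) {m : ℕ} (hm : (m : ℕ∞) ≤ analyticOrderAt Q z) :
    m * (Fintype.card D * π - ∑ d, tarea z (L d • z) ((L d * L (nxt d)) • z)) ≤
      2 * ∑ d, tarea z (L d • z) ((L d * L (nxt d)) • z) := by
  classical
  have t0 : ∀ d, 0 ≤ tarea z (L d • z) ((L d * L (nxt d)) • z) := fun d => by
    simpa only [one_mul] using tarea_nonneg (ν := 1) (Or.inl rfl) (by simpa using hpos d)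
  rcases Nat.eq_zero_or_pos m with rfl | hm0
  · simpa only [CharP.cast_eq_zero, zero_mul, Nat.ofNat_pos, mul_nonneg_iff_of_pos_left, ge_iff_le] using Finset.sum_nonneg fun d _ => t0 d
  obtain ⟨R, hR, hb⟩ := ((Set.finite_range fun d => L d • z).union ((Set.finite_range fun d =>
    (L d * L (nxt d)) • z).insert z)).isBounded.subset_ball_lt 0 I
  obtain ⟨s, n, Λ, c1, c2, c3, c4⟩ := zv_fac hQ h0 hR
  let E : ℍ → ℍ → ℝ := fun p q => (Λ q).im - (Λ p).im + ∑ a ∈ s, n a * zvA a p q - 2 * har p q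
  have seg : ∀ p ∈ Metric.ball I R, ∀ q ∈ Metric.ball I R, {w | Seg p q w} ⊆ Metric.ball I R :=
    fun p hp q hq w hw => Metric.mem_ball'.2 ((Seg.dist_le hw I).trans_lt
      (max_lt (Metric.mem_ball'.1 hp) (Metric.mem_ball'.1 hq)))
  have pol : ∀ p ∈ Metric.ball I R, ∀ q ∈ Metric.ball I R, ZvP {w | Seg p q w} p q
      (fun w => Q w * ((w : ℂ) - conj (p : ℂ)) ^ 4) (E p q) := fun p hp q hq => by
    have a1 := (((zvp_exp (p := p) (q := q) (c1.mono (seg p hp q hq))).mul (zvp_prod s _ _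
      fun a _ => (zvp_U a p q).pow (n a))).congr fun w hw => c2 w (seg p hp q hq hw)).mul
      ((zvp_arg (f := fun w : ℍ => (w : ℂ) - conj (p : ℂ)) (by fun_prop)
        fun w _ => Or.inr (hb_im p w).ne').pow 4)
    convert a1 using 1
    have b1 := hb_har p q
    have b2 := hb_har p p
    have b3 := har_anti p p
    simp only [E]; push_cast; linarith only [b1, b2, b3]
  have inv : ∀ g, ZvI Q g → ∀ p ∈ Metric.ball I R, ∀ q ∈ Metric.ball I R, g • p ∈ Metric.ball I R →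
      g • q ∈ Metric.ball I R → E (g • p) (g • q) = E p q := fun g hg p hp q hq hp' hq' => by
    obtain ⟨C, φ, k1, k2, k3, k4⟩ := pol _ hp' _ hq'
    have d1 : conj (((g 1 0 : ℝ) : ℂ) * p + (g 1 1 : ℝ)) ≠ 0 := (map_ne_zero _).2 (basic_denom g p)
    refine ZvP.unique (zv_conn p q) (Seg.left p q) (Seg.right p q) (s.finite_toSet.subset
      fun w hw => c3 w (seg p hp q hq hw.1) ((mul_eq_zero.1 hw.2).resolve_right (pow_ne_zero _
        fun e => by simpa [e] using hb_im p w))) ⟨C * _ ^ 4, fun w => φ (g • w),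
      mul_ne_zero k1 (pow_ne_zero _ d1), k2.comp (continuous_const_smul g).continuousOn
        fun w hw => Seg.smul g hw, k3, fun w hw => ?_⟩ (pol p hp q hq)
    obtain ⟨r, e⟩ := k4 _ (Seg.smul g hw)
    refine ⟨r, ?_⟩
    have d2 := basic_denom g w
    have e2 : (((g • w : ℍ) : ℂ) - conj ((g • p : ℍ) : ℂ)) * (((g 1 0 : ℝ) : ℂ) * w + (g 1 1 : ℝ)) *
        conj (((g 1 0 : ℝ) : ℂ) * p + (g 1 1 : ℝ)) = (w : ℂ) - conj (p : ℂ) := by
      rw [basic_coe_smul, basic_coe_smul, map_div₀, div_sub_div _ _ d2 d1, mul_assoc,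
        div_mul_cancel₀ _ (mul_ne_zero d2 d1)]
      simp only [map_add, map_mul, Complex.conj_ofReal]
      linear_combination ((w : ℂ) - conj (p : ℂ)) * zv_det g
    simp only [] at e ⊢
    rw [← mul_assoc, ← e, hg w, ← e2]; ring
  have anti : ∀ p q, E q p = -E p q := fun p q => by
    simp only [E, zv_anti _ p q, har_anti p q, mul_neg, Finset.sum_neg_distrib]; ring
  have face : ∀ p q r, 0 < hdet p q r → (∀ x ∈ ({p, q, r} : Finset ℍ), x ∈ s ∧ m ≤ n x) →
      m * (π - tarea p q r) - 2 * tarea p q r ≤ E p q + E q r + E r p := fun p q r h hx => by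
    have n1 : p ≠ q := fun e => by simp [e, hdet, det3] at h
    have n2 : p ≠ r := fun e => by simp [e, hdet, det3] at h
    have n3 : q ≠ r := fun e => by simp [e, hdet, det3, mul_comm] at h
    have a1 : ∑ a ∈ ({p, q, r} : Finset ℍ), (m : ℝ) * (zvA a p q + zvA a q r + zvA a r p) ≤
        ∑ a ∈ s, n a * (zvA a p q + zvA a q r + zvA a r p) :=
      (Finset.sum_le_sum fun a ha => mul_le_mul_of_nonneg_right (Nat.cast_le.2 (hx a ha).2)
        (zv_sum h a)).trans (Finset.sum_le_sum_of_subset_of_nonneg (fun a ha => (hx a ha).1)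
        fun a _ _ => mul_nonneg (Nat.cast_nonneg _) (zv_sum h a))
    rw [Finset.sum_insert (by simp [n1, n2]), Finset.sum_pair n3, zv_vertex] at a1
    have a2 := mul_le_mul_of_nonneg_left (zv_gb h) (Nat.cast_nonneg (α := ℝ) m)
    have a3 := congrArg ((m : ℝ) * ·) (zv_vertex q r p)
    have a4 := congrArg ((m : ℝ) * ·) (zv_vertex r p q)
    simp only [mul_add, Finset.sum_add_distrib, E, tarea] at a1 a2 a3 a4 ⊢
    linarith
  have b0 : z ∈ Metric.ball I R := hb (Or.inr (mem_insert _ _))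
  have b1 : ∀ d, L d • z ∈ Metric.ball I R := fun d => hb (Or.inl ⟨d, rfl⟩)
  have b2 : ∀ d, (L d * L (nxt d)) • z ∈ Metric.ball I R := fun d =>
    hb (Or.inr (mem_insert_of_mem _ ⟨d, rfl⟩))
  have ms : ∀ x ∈ Metric.ball I R, analyticOrderAt Q x = analyticOrderAt Q z → x ∈ s ∧ m ≤ n x :=
    fun x hx e => by
      have : m ≤ n x := by rw [← e, ← c4] at hm; exact_mod_cast hm
      exact ⟨c3 x hx (apply_eq_zero_of_analyticOrderAt_ne_zero (by
        rw [← c4]; exact_mod_cast (by omega : n x ≠ 0))), this⟩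
  have f1 : ∀ d, m * (π - tarea z (L d • z) ((L d * L (nxt d)) • z)) -
      2 * tarea z (L d • z) ((L d * L (nxt d)) • z) ≤
      E z (L d • z) + E z (L (nxt d) • z) + E z (L (nxt (nxt d)) • z) := fun d => by
    have a1 := inv _ (hI d) _ b0 _ (b1 (nxt d)) (b1 d) (mul_smul (L d) _ z ▸ b2 d)
    have a2 := inv _ ((hI d).mul (hI (nxt d))) _ b0 _ (b1 (nxt (nxt d))) (b2 d)
      (by rw [← mul_smul, h3]; exact b0)
    rw [← mul_smul] at a1
    rw [← mul_smul _ _ z, h3] at a2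
    rw [← a1, ← a2]
    refine face _ _ _ (hpos d) fun x hx => ?_
    simp only [Finset.mem_insert, Finset.mem_singleton] at hx
    rcases hx with rfl | rfl | rfl
    exacts [ms _ b0 rfl, ms _ (b1 d) ((hI d).ord hQ z),
      ms _ (b2 d) (((hI d).mul (hI (nxt d))).ord hQ z)]
  have f2 : ∑ d, E z (L d • z) = 0 := by
    have a1 := hr.sum_comp fun d => E z (L d • z)
    have a2 : ∀ d, E z (L (rv d) • z) = -E z (L d • z) := fun d => by
      have := inv _ (hI d) _ b0 _ (b1 (rv d)) (b1 d) (by rw [← mul_smul, h2]; exact b0)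
      rw [← this, ← mul_smul, h2, anti]
    simp only [a2, Finset.sum_neg_distrib] at a1
    linarith only [a1]
  have f3 := Finset.sum_le_sum fun d (_ : d ∈ Finset.univ) => f1 d
  rw [Finset.sum_add_distrib, Finset.sum_add_distrib, hn.sum_comp fun d => E z (L d • z),
    hn.sum_comp fun d => E z (L (nxt d) • z), hn.sum_comp fun d => E z (L d • z), f2] at f3
  simp only [mul_sub, Finset.sum_sub_distrib, Finset.sum_const, Finset.card_univ, nsmul_eq_mul,
    ← Finset.mul_sum] at f3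
  linarith only [f3]

/-- A real vector space with an injective linear map to the invariant quadratic differentials has
dimension at most `2 N`, if `N` violates the valence inequality. -/
theorem zv_dim {D : Type} [Fintype D] {nxt rv : D → D} (hn : Function.Bijective nxt)
    (hr : Function.Bijective rv) (L : D → G) (z : ℍ)
    (h3 : ∀ d, (L d * L (nxt d) * L (nxt (nxt d))) • z = z) (h2 : ∀ d, (L d * L (rv d)) • z = z)
    (hpos : ∀ d, 0 < hdet z (L d • z) ((L d * L (nxt d)) • z))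
    {W : Type*} [AddCommGroup W] [Module ℝ W] (Q : W →ₗ[ℝ] (ℂ → ℂ))
    (hQ : ∀ u, DifferentiableOn ℂ (Q u) {z | 0 < z.im}) (h0 : ∀ u, (∀ w : ℍ, Q u w = 0) → u = 0)
    (hI : ∀ u d, ZvI (Q u) (L d)) {N : ℕ}
    (hN : 2 * ∑ d, tarea z (L d • z) ((L d * L (nxt d)) • z) <
      N * (Fintype.card D * π - ∑ d, tarea z (L d • z) ((L d * L (nxt d)) • z))) :
    Module.finrank ℝ W ≤ 2 * N := by
  have hA := fun u => zv_an (hQ u) z z.2
  let J : W →ₗ[ℝ] (Fin N → ℂ) :=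
    { toFun := fun u j => iteratedDeriv j (Q u) z
      map_add' := fun u v => funext fun j => by
        rw [map_add]; exact iteratedDeriv_add (hA u).contDiffAt (hA v).contDiffAt
      map_smul' := fun c u => funext fun j => by
        rw [map_smul]; exact iteratedDeriv_const_smul (hA u).contDiffAt c }
  have hJ : Function.Injective J := (injective_iff_map_eq_zero J).2 fun u hu => h0 u fun w => by
    by_contra hw
    exact (zv_valence hn hr L z h3 h2 hpos (hQ u) hw (hI u)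
      ((natCast_le_analyticOrderAt_iff_iteratedDeriv_eq_zero (hA u)).2
        fun i hi => congrFun hu ⟨i, hi⟩)).not_gt hN
  simpa only [mul_comm, ge_iff_le, Module.finrank_pi_fintype, Complex.finrank_real_complex, Finset.sum_const, Finset.card_univ, Fintype.card_fin, smul_eq_mul] using LinearMap.finrank_le_finrank_of_injective hJ

/-- the case of `4 g - 2` faces and area at most `2 π (2 g - 3)`; every face is counted three
times -/
theorem zv_dim' {D : Type} [Fintype D] {nxt rv : D → D} (hn : Function.Bijective nxt)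
    (hr : Function.Bijective rv) (L : D → G) (z : ℍ)
    (h3 : ∀ d, (L d * L (nxt d) * L (nxt (nxt d))) • z = z) (h2 : ∀ d, (L d * L (rv d)) • z = z)
    (hpos : ∀ d, 0 < hdet z (L d • z) ((L d * L (nxt d)) • z))
    {W : Type*} [AddCommGroup W] [Module ℝ W] (Q : W →ₗ[ℝ] (ℂ → ℂ))
    (hQ : ∀ u, DifferentiableOn ℂ (Q u) {z | 0 < z.im}) (h0 : ∀ u, (∀ w : ℍ, Q u w = 0) → u = 0)
    (hI : ∀ u d, ZvI (Q u) (L d)) {g : ℕ} (hg : 2 ≤ g) (hD : Fintype.card D + 6 = 12 * g)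
    (hA : ∑ d, tarea z (L d • z) ((L d * L (nxt d)) • z) ≤ 3 * (2 * π * (2 * g - 3))) :
    Module.finrank ℝ W + 4 ≤ 4 * g := by
  obtain ⟨k, rfl⟩ := Nat.exists_eq_add_of_le' hg
  have h := zv_dim hn hr L z h3 h2 hpos Q hQ h0 hI (N := 2 * k + 2) (by
    have e : (Fintype.card D : ℝ) = 12 * k + 18 := by
      exact_mod_cast (by omega : Fintype.card D = 12 * k + 18)
    rw [e]; push_cast at hA ⊢
    have hk : (0 : ℝ) ≤ k := Nat.cast_nonneg k
    linarith only [mul_le_mul_of_nonneg_left hA hk, pi_pos, hA])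
  omega

end Pool.Agent.MP_596265_gt.U
end

section
namespace Pool.Agent.MP_596265_gt.U

open Erg MeasureTheory Set Filter Topology

/-! ROW ZT: removal of codimension two on a level set (imports E2 and Zabs only). -/
theorem zt_level {E V ι : Type} [NormedAddCommGroup E] [NormedSpace ℝ E] [FiniteDimensional ℝ E]
    [MeasurableSpace E] [BorelSpace E] [NormedAddCommGroup V] [NormedSpace ℝ V]
    [FiniteDimensional ℝ V] [Countable ι] {f : E → V} (hf : ContDiff ℝ 1 f) {m₀ : E}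
    (hs : Function.Surjective (fderiv ℝ f m₀)) {d : ℕ} (hd0 : 2 ≤ d)
    (hd : Module.finrank ℝ E = Module.finrank ℝ V + d) (Φ : ι → E → ℝ × ℝ)
    (hΦ : ∀ i, ContDiff ℝ 1 (Φ i)) {S O : Set E} (hO : O ∈ 𝓝 m₀)
    (h : ∀ m ∈ O, f m = f m₀ →
      (∃ O' ∈ 𝓝 m, μH[d] (O' ∩ f ⁻¹' {f m₀} ∩ S) = 0 ∨ μH[d] ((O' ∩ f ⁻¹' {f m₀}) \ S) = 0) ∨
      ∃ i, Φ i m = 0 ∧ ∀ y, ∃ v, fderiv ℝ f m v = 0 ∧ fderiv ℝ (Φ i) m v = y) :
    ∃ O' ∈ 𝓝 m₀, μH[d] (O' ∩ f ⁻¹' {f m₀} ∩ S) = 0 ∨ μH[d] ((O' ∩ f ⁻¹' {f m₀}) \ S) = 0 := by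
  have := FiniteDimensional.complete ℝ E
  set K := (fderiv ℝ f m₀).ker with hK
  obtain rfl : Module.finrank ℝ K = d := by
    have h8 := (fderiv ℝ f m₀ : E →ₗ[ℝ] V).finrank_range_add_finrank_ker
    rw [LinearMap.range_eq_top.2 hs, finrank_top] at h8
    simp only [K]; omega
  obtain ⟨p, hp⟩ := ms_proj K
  have hG : ContDiff ℝ 1 fun m => (f m, p m) := hf.prodMk p.contDiff
  have hD : ∀ m, HasFDerivAt (fun m => (f m, p m)) ((fderiv ℝ f m).prod p) m := fun m =>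
    (hf.differentiable one_ne_zero m).hasFDerivAt.prodMk p.hasFDerivAt
  obtain ⟨e, he⟩ : ∃ e : E ≃L[ℝ] V × K, (e : E →L[ℝ] V × K) = (fderiv ℝ f m₀).prod p := by
    refine ⟨(LinearEquiv.ofBijective ((fderiv ℝ f m₀).prod p : E →ₗ[ℝ] V × K) ⟨?_, ?_⟩
      ).toContinuousLinearEquiv, rfl⟩
    · exact LinearMap.ker_eq_bot.1 (LinearMap.ker_eq_bot'.2 fun v hv => congrArg Subtype.val
        ((hp ⟨v, congrArg Prod.fst hv⟩).symm.trans (congrArg Prod.snd hv)))
    · rintro ⟨a, k⟩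
      obtain ⟨v, rfl⟩ := hs a
      refine ⟨v + (k - p v : K), Prod.ext ?_ ?_⟩
      · simp [K]
      · show p (v + (k - p v : K)) = k
        rw [map_add, hp, add_sub_cancel]
  have hsur : ∀ᶠ m in 𝓝 m₀, Function.Surjective (fderiv ℝ f m) := by
    have h1 := (hG.continuous_fderiv one_ne_zero).continuousAt (x := m₀)
    have h2 := e.nhds
    rw [he, ← (hD m₀).fderiv] at h2
    filter_upwards [h1.preimage_mem_nhds h2] with m ⟨e', he'⟩ a
    obtain ⟨v, hv⟩ := e'.surjective (a, 0)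
    have h3 : (fderiv ℝ f m).prod p v = (a, 0) := by rw [← (hD m).fderiv, ← he']; exact hv
    exact ⟨v, congrArg Prod.fst h3⟩
  let Γ := (hG.contDiffAt (x := m₀)).toOpenPartialHomeomorph _ (he ▸ hD m₀) one_ne_zero
  have hΓ : ∀ m, Γ m = (f m, p m) := fun m => rfl
  have s0 : m₀ ∈ Γ.source := ContDiffAt.mem_toOpenPartialHomeomorph_source _ _ _
  have t0 : (f m₀, p m₀) ∈ Γ.target := Γ.map_source s0
  have i0 : Γ.symm (f m₀, p m₀) = m₀ := Γ.left_inv s0
  obtain ⟨C, t, ht, hC⟩ := (Γ.contDiffAt_symm (n := 1) (f₀' := e) t0 (by rw [i0, he]; exact hD m₀)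
    hG.contDiffAt).exists_lipschitzOnWith
  let ψ : K → E := fun k => Γ.symm (f m₀, k)
  have cι : Continuous fun k : K => (f m₀, k) := by fun_prop
  have cψ : ∀ k, (f m₀, k) ∈ Γ.target → ContinuousAt ψ k := fun k hk =>
    ContinuousAt.comp (f := fun k : K => (f m₀, k)) (Γ.continuousAt_symm hk) cι.continuousAt
  obtain ⟨r, hr, hb⟩ := Metric.eventually_nhds_iff_ball.1 ((cι.continuousAt.eventually_mem
    (inter_mem (Γ.open_target.mem_nhds t0) ht)).and ((cψ _ t0).eventually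
      (p := fun m => m ∈ O ∧ Function.Surjective (fderiv ℝ f m))
      (by rw [show ψ (p m₀) = m₀ from i0]; exact Filter.Eventually.and hO hsur)))
  have inv : ∀ k ∈ Metric.ball (p m₀) r, f (ψ k) = f m₀ ∧ p (ψ k) = k := fun k hk =>
    Prod.mk.inj ((hΓ _).symm.trans (Γ.right_inv (hb k hk).1.1))
  have fw : ∀ T O' : Set E, μH[Module.finrank ℝ K] (O' ∩ f ⁻¹' {f m₀} ∩ T) = 0 →
      μH[Module.finrank ℝ K] (Metric.ball (p m₀) r ∩ ψ ⁻¹' O' ∩ ψ ⁻¹' T) = 0 := fun T O' h0 =>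
    measure_mono_null (t := p '' (O' ∩ f ⁻¹' {f m₀} ∩ T))
      (fun k hk => ⟨ψ k, ⟨⟨hk.1.2, (inv k hk.1.1).1⟩, hk.2⟩, (inv k hk.1.1).2⟩)
      (ms_lipOn (Nat.cast_nonneg _) p.lipschitz.lipschitzOnWith (subset_univ _) h0)
  have bw : ∀ T : Set E, μH[Module.finrank ℝ K] (Metric.ball (p m₀) r ∩ ψ ⁻¹' T) = 0 →
      μH[Module.finrank ℝ K] (Γ.source ∩ p ⁻¹' Metric.ball (p m₀) r ∩ f ⁻¹' {f m₀} ∩ T) = 0 :=
    fun T h0 => by
      refine measure_mono_null (fun m hm => ?_) (ms_lipOn (F := ψ) (t := Metric.ball (p m₀) r)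
        (Nat.cast_nonneg _) (hC.comp (LipschitzWith.prodMk_left (f m₀)).lipschitzOnWith
          fun k hk => (hb k hk).1.2) inter_subset_left h0)
      have e1 : ψ (p m) = m := by
        have := Γ.left_inv hm.1.1.1
        rwa [hΓ, show f m = f m₀ from hm.1.2] at this
      exact ⟨p m, ⟨hm.1.1.2, by rw [mem_preimage, e1]; exact hm.2⟩, e1⟩
  refine ⟨_, inter_mem (Γ.open_source.mem_nhds s0) (p.continuous.continuousAt.preimage_mem_nhds
    (Metric.ball_mem_nhds _ hr)), (za_main μH[Module.finrank ℝ K] (S := ψ ⁻¹' S)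
      (B := p '' ⋃ i, {m | (f m - f m₀, Φ i m) = 0 ∧ ∃ A : E →L[ℝ] V × ℝ × ℝ,
        HasStrictFDerivAt (fun m => (f m - f m₀, Φ i m)) A m ∧ Function.Surjective A})
      Metric.isOpen_ball (convex_ball _ _) ?_ fun k hk hB => ?_).imp (bw S) (bw Sᶜ)⟩
  · refine (p.lipschitz.dimH_image_le _).trans_lt ?_
    rw [dimH_iUnion]
    refine (iSup_le fun i => za_dimH_zero fun m => (f m - f m₀, Φ i m)).trans_lt (Nat.cast_lt.2 ?_)
    simp only [Module.finrank_prod, Module.finrank_self]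
    omega
  · rcases h _ (hb k hk).2.1 (inv k hk).1 with ⟨O', h1, h2⟩ | ⟨i, h1, h2⟩
    · exact ⟨_, inter_mem (Metric.isOpen_ball.mem_nhds hk) ((cψ k (hb k hk).1.1).preimage_mem_nhds h1),
        h2.imp (fw S O') (fw Sᶜ O')⟩
    · refine absurd ⟨ψ k, mem_iUnion.2 ⟨i, Prod.ext (sub_eq_zero.2 (inv k hk).1) h1, _,
        ((hf.contDiffAt.hasStrictFDerivAt one_ne_zero).sub_const _).prodMk
          ((hΦ i).contDiffAt.hasStrictFDerivAt one_ne_zero), fun ⟨a, y⟩ => ?_⟩, (inv k hk).2⟩ hB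
      obtain ⟨u, hu⟩ := (hb k hk).2.2 a
      obtain ⟨v, h3, h4⟩ := h2 (y - fderiv ℝ (Φ i) (ψ k) u)
      exact ⟨u + v, by simp [hu, h3, h4]⟩

end Pool.Agent.MP_596265_gt.U
end

section
namespace Pool.Agent.MP_596265_gt.U

open Erg Real UpperHalfPlane MeasureTheory Set Filter Topology

variable {g : ℕ} {e : ℤ} {M : Tup g} {z : ℍ} {τ τ' : MS g} {u : Gen g → Mat}
  {η R : ℝ} {F : HF (Ed g)}

/-! ROW ZC: cocycles and tangent vectors (imports Om and E5). -/
theorem zc_adj {U : Amb g → Mat} {m v : Amb g} {V : Mat} (h : Dv U m v V) :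
    Dv (fun n => (U n).adjugate) m v V.adjugate := by
  intro i j
  have n : ∀ a b, ContDiff ℝ 1 (fun n => -U n a b) ∧ fderiv ℝ (fun n => -U n a b) m v = -V a b :=
    fun a b => ⟨(h a b).1.neg, by rw [fderiv_fun_neg, _root_.neg_apply, (h a b).2]⟩
  simp only [Matrix.adjugate_fin_two]
  fin_cases i <;> fin_cases j
  · exact h 1 1
  · exact n 0 1
  · exact n 1 0
  · exact h 0 0
theorem zc_sw (a : G) (Z : Mat) : (a : Mat) * ad a⁻¹ Z = Z * (a : Mat) := by
  rw [ad, inv_inv, Matrix.mul_assoc, xf_can']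
theorem zc_word (w : Fr g) : ∃ U : Amb g → Mat, (∀ N, U (io N) = (FreeGroup.lift N w : G)) ∧
    ∀ N u, TL u → Dv U (io N) (tv N fun x => ad (N x)⁻¹ (u x))
      (coc N u w * ((FreeGroup.lift N w : G) : Mat)) := by
  induction w using FreeGroup.induction_on with
  | C1 =>
    refine ⟨fun _ => 1, fun N => by rw [map_one]; rfl, fun N u _ i j => ⟨contDiff_const, ?_⟩⟩
    rw [coc_one, Matrix.zero_mul, fderiv_fun_const]
    rfl
  | of x =>
    refine ⟨fun n => Matrix.of (n x), fun N => by rw [FreeGroup.lift_apply_of]; rfl,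
      fun N u _ => ?_⟩
    rw [coc_of, FreeGroup.lift_apply_of, ← zc_sw]
    exact dv_gen N (fun x => ad (N x)⁻¹ (u x)) x
  | inv_of x ih =>
    obtain ⟨U, h1, h2⟩ := ih
    refine ⟨fun n => (U n).adjugate, fun N => ?_, fun N u hu => ?_⟩
    · rw [map_inv, Matrix.SpecialLinearGroup.coe_inv, ← h1]
    · have := zc_adj (h2 N u hu)
      rw [← zc_sw, xf_adjv _ (by rw [ad_trace]; exact coc_trace hu _)] at this
      rw [coc_inv, map_inv, Matrix.neg_mul]
      exact this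
  | mul a b iha ihb =>
    obtain ⟨U, h1, h2⟩ := iha
    obtain ⟨U', h1', h2'⟩ := ihb
    refine ⟨fun n => U n * U' n, fun N => ?_, fun N u hu => ?_⟩
    · rw [map_mul, Matrix.SpecialLinearGroup.coe_mul, ← h1, ← h1']
    · have := (h2 N u hu).mul (h2' N u hu)
      rw [h1, h1'] at this
      rw [coc_mul, map_mul, Matrix.SpecialLinearGroup.coe_mul]
      simpa only [ad, Matrix.add_mul, Matrix.mul_assoc, xf_can] using this
theorem zc_fox (M : Tup g) (u : Gen g → Mat) {k : ℕ} (hk : k ≤ g) :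
    fox M (fun x => ad (M x)⁻¹ (u x)) k = coc M u (relPre g k) := by
  induction k with
  | zero => simp only [fox, not_lt_zero, ↓ reduceIte, Finset.sum_const_zero, relPre, List.take_zero, List.map_nil, List.prod_nil, coc_one]
  | succ n ih =>
    rw [xf_fox M _ ⟨n, hk⟩, relPre_succ ⟨n, hk⟩, coc_mul, ← pre_eq, ih (by omega)]
    refine congrArg (fun Z => coc M u (relPre g n) + ad (pre M n) Z) ?_
    simp only [dd, comm, coc_mul, coc_inv, coc_of, map_mul, map_inv, FreeGroup.lift_apply_of,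
      ad_mul, ad_add, ad_sub, ad_neg, ad_ad_inv, ha, hb]
    abel
theorem zc_ker (hM : PM (pre M g) 1) (u : Gen g → Mat) :
    Z1 M u ↔ fderiv ℝ fE (io M) (tv M fun x => ad (M x)⁻¹ (u x)) = 0 := by
  rw [ker_iff hM, zc_fox M u le_rfl]
  simp only [Z1, TL, ad_trace]
theorem zc_dim (hg : 1 ≤ g) (hM : PM (pre M g) 1) (h : NA M) :
    ∃ Z : Submodule ℝ (Gen g → Mat), (∀ u, u ∈ Z ↔ Z1 M u) ∧ Module.finrank ℝ Z = 6 * g - 3 := by
  let φ : (Gen g → Mat) →ₗ[ℝ] Amb g :=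
    { toFun := fun u => tv M fun x => ad (M x)⁻¹ (u x)
      map_add' := fun u v => by
        rw [← tv_add]
        exact congrArg (tv M) (funext fun x => ad_add _ _ _)
      map_smul' := fun r u => by
        rw [RingHom.id_apply, ← tv_smul]
        exact congrArg (tv M) (funext fun x => ad_smul _ _ _) }
  have hb : Function.Bijective φ := by
    refine ⟨fun u v huv => funext fun x => ?_, fun v => ?_⟩
    · have e : ad (M x)⁻¹ (u x) = ad (M x)⁻¹ (v x) :=
        tv_inj (α := fun x => ad (M x)⁻¹ (u x)) (β := fun x => ad (M x)⁻¹ (v x)) (congrFun huv x)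
      rw [← ad_ad_inv (M x) (u x), e, ad_ad_inv]
    · obtain ⟨α, rfl⟩ := exists_tv M v
      exact ⟨fun x => ad (M x) (α x), congrArg (tv M) (funext fun x => ad_inv_ad _ _)⟩
  let ε := LinearEquiv.ofBijective φ hb
  refine ⟨(fderiv ℝ fE (io M)).ker.comap (ε : (Gen g → Mat) →ₗ[ℝ] Amb g),
    fun u => (zc_ker hM u).symm, ?_⟩
  rw [(ε.ofSubmodule' _).finrank_eq]
  exact ms_ker (fE_surj hM h) (finrank_amb hg)
theorem zc_hc (he : e ≠ 0) (hM : M ∈ X g e) : ∃ j, hc M j ≠ 1 := by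
  by_contra hn
  have h1 : Rt M g = 1 := List.prod_eq_one fun y hy => by
    obtain ⟨j, -, rfl⟩ := List.mem_map.1 hy
    exact cmt_eq_one.2 (by_contra fun k => hn ⟨j, k⟩)
  have h2 : ap (1 : Gt) 0 = 0 := by rw [map_one]; rfl
  rw [← h1, show Rt M g = zt e from hM, ap_zt, zero_add] at h2
  exact he (by exact_mod_cast h2)
theorem zc_na (he : e ≠ 0) (hM : M ∈ X g e) : NA M := by
  obtain ⟨j, hj⟩ := zc_hc he hM
  exact ⟨(j, false), (j, true), fun h => hj (cm_eq_one.2 h)⟩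
/-- A function with non-zero differential on the component has no local minimum. -/
theorem zc_low (he : e ≠ 0) (hM : M ∈ X g e) {f : Amb g → ℝ} (hf : ContDiffAt ℝ 1 f (io M))
    (hu : Z1 M u) (h : fderiv ℝ f (io M) (tv M fun x => ad (M x)⁻¹ (u x)) ≠ 0) :
    ∃ᶠ N in 𝓝 M, N ∈ X g e ∧ f (io N) < f (io M) := by
  intro hn
  obtain ⟨O₁, h1, e1⟩ := xn_nhds hn
  obtain ⟨O₂, h2, e2⟩ := X_level hM
  have hd := ((contDiff_fE (g := g)).contDiffAt.hasStrictFDerivAt one_ne_zero).prodMk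
    (hf.hasStrictFDerivAt one_ne_zero)
  have h0 := (zc_ker (X_pm hM) u).1 hu
  have hs := hd.map_nhds_eq_of_surj (LinearMap.range_eq_top.2 fun y => by
    obtain ⟨v, hv⟩ := fE_surj (X_pm hM) (zc_na he hM) y.1
    refine ⟨v + ((y.2 - fderiv ℝ f (io M) v) /
      fderiv ℝ f (io M) (tv M fun x => ad (M x)⁻¹ (u x))) • tv M fun x => ad (M x)⁻¹ (u x),
      Prod.ext ?_ ?_⟩
    · show fderiv ℝ fE (io M) _ = y.1
      rw [map_add, map_smul, h0, smul_zero, add_zero, hv]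
    · show fderiv ℝ f (io M) _ = y.2
      rw [map_add, map_smul, smul_eq_mul, div_mul_cancel₀ _ h, add_sub_cancel])
  have h3 := image_mem_map (m := fun m => (fE m, f m)) (inter_mem h1 h2)
  rw [hs] at h3
  have h4 : ∀ᶠ r in 𝓝 (f (io M)), (fE (io M), r) ∈ (fun m => (fE m, f m)) '' (O₁ ∩ O₂) :=
    (Continuous.prodMk_right (fE (io M))).continuousAt.preimage_mem_nhds h3
  obtain ⟨r, hr, m, hm, em⟩ := h4.exists_lt
  obtain ⟨-, N, hN, rfl⟩ := e2.subset ⟨hm.2, congrArg Prod.fst em⟩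
  exact e1 hm.1 ⟨hN, (congrArg Prod.snd em).trans_lt hr⟩

end Pool.Agent.MP_596265_gt.U
end

section
namespace Pool.Agent.MP_596265_gt.U

open Erg Real UpperHalfPlane MeasureTheory Set Filter Topology

variable {g : ℕ} {e : ℤ} {M : Tup g} {z : ℍ} {τ τ' : MS g} {u : Gen g → Mat}
  {η R : ℝ} {F : HF (Ed g)}

theorem zu_sign {a : G} (h : PM a 1) : ∃ s : Bool, (cond s 1 (-1) : ℝ) • (a : Mat) = 1 := by
  rcases h with rfl | rfl
  · exact ⟨true, by simp⟩
  · exact ⟨false, by simp⟩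

theorem zu_der {U : Amb g → Mat} {m v : Amb g} {Z A : Mat} {s : ℝ} (h : Dv U m v (Z * A))
    (hs : s • A = 1) (i j : Fin 2) (c : ℝ) :
    fderiv ℝ (fun n => s * U n i j - c) m v = Z i j := by
  rw [fderiv_sub_const, fderiv_const_mul ((h i j).1.differentiable one_ne_zero m),
    _root_.smul_apply, (h i j).2, ← Matrix.smul_apply, ← mul_smul_comm, hs, mul_one]

/-! ROW ZU: removal of codimension two on the component (uses ZT, ZC). -/
theorem zu_thin (hg : 1 ≤ g) (he : e ≠ 0) (hM : M ∈ X g e) {S O : Set (Tup g)} (hO : O ∈ 𝓝 M)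
    (h : ∀ N ∈ O, N ∈ X g e → (N ∈ Om e S ∨ N ∈ Om e Sᶜ) ∨ Rk2 N) : M ∈ Om e S ∨ M ∈ Om e Sᶜ := by
  choose U hU hD using fun w : Fr g => zc_word w
  have c1 : ∀ (w : Fr g) (s c : ℝ) i j, ContDiff ℝ 1 fun n => s * U w n i j - c := fun w s c i j =>
    (contDiff_const.mul (hD w M 0 (fun _ => by simp) i j).1).sub contDiff_const
  obtain ⟨O₂, h2, e2⟩ := xn_nhds hO
  obtain ⟨O₃, h3, e3⟩ := X_level hM
  have mem : ∀ N, io N ∈ io '' S ↔ N ∈ S := fun N => io_emb.injective.mem_set_image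
  obtain ⟨O', hO', h'⟩ := zt_level
    (ι := (Fr g × Fin 2 × Fin 2 × Bool) × (Fr g × Fin 2 × Fin 2 × Bool)) contDiff_fE
    (fE_surj (X_pm hM) (zc_na he hM)) (d := 6 * g - 3) (by omega) (finrank_amb hg)
    (fun p n => (cond p.1.2.2.2 1 (-1) * U p.1.1 n p.1.2.1 p.1.2.2.1 - (1 : Mat) p.1.2.1 p.1.2.2.1,
      cond p.2.2.2.2 1 (-1) * U p.2.1 n p.2.2.1 p.2.2.2.1 - (1 : Mat) p.2.2.1 p.2.2.2.1))
    (fun p => (c1 _ _ _ _ _).prodMk (c1 _ _ _ _ _)) (S := io '' S)
    (inter_mem h2 (interior_mem_nhds.2 h3)) (by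
      rintro m ⟨m2, m3⟩ hm
      obtain ⟨-, N, hN, rfl⟩ := e3.subset ⟨interior_subset m3, hm⟩
      have key : ∀ {T : Set (Tup g)}, N ∈ Om e T → ∃ O' ∈ 𝓝 (io N), ∀ B : Set (Amb g),
          (∀ N', io N' ∈ B → N' ∉ T) →
          μH[((6 * g - 3 : ℕ) : ℝ)] (O' ∩ fE ⁻¹' {fE (io M)} ∩ B) = 0 := by
        rintro T ⟨-, O₁, h1, h0⟩
        obtain ⟨O₄, h4, e4⟩ := xn_nhds h1
        rw [mu_apply, vol_eq hg] at h0
        refine ⟨_, inter_mem h4 (isOpen_interior.mem_nhds m3), fun B hB =>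
          measure_mono_null (fun m hm => ?_) h0⟩
        obtain ⟨-, N', hN', rfl⟩ := e3.subset ⟨interior_subset hm.1.1.2, hm.1.2⟩
        exact ⟨N', ⟨⟨e4 hm.1.1.1, hB N' hm.2⟩, hN'⟩, rfl⟩
      rcases h N (e2 m2) hN with (h | h) | ⟨k, k', i, j, i', j', a, a', h⟩
      · obtain ⟨O', b, c⟩ := key h
        exact .inl ⟨O', b, .inr (c _ fun N' h1 h2 => h1 ((mem N').2 h2))⟩
      · obtain ⟨O', b, c⟩ := key h
        exact .inl ⟨O', b, .inl (c _ fun N' h1 h2 => h2 ((mem N').1 h1))⟩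
      obtain ⟨s, hs⟩ := zu_sign a
      obtain ⟨s', hs'⟩ := zu_sign a'
      refine .inr ⟨((k, i, j, s), (k', i', j', s')), ?_, fun y => ?_⟩
      · simp only [hU, Prod.mk_eq_zero, sub_eq_zero]
        exact ⟨congrFun₂ hs i j, congrFun₂ hs' i' j'⟩
      · obtain ⟨u, hu, rfl⟩ := h y
        refine ⟨_, (zc_ker (X_pm hN) u).1 hu, ?_⟩
        rw [DifferentiableAt.fderiv_prodMk ((c1 _ _ _ _ _).differentiable one_ne_zero _)
          ((c1 _ _ _ _ _).differentiable one_ne_zero _), ContinuousLinearMap.prod_apply,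
          zu_der (hD k N u hu.1) hs, zu_der (hD k' N u hu.1) hs'])
  rcases h' with h' | h'
  · exact Or.inr ⟨hM, _, xn_pre hO', xn_null hg e h' fun N hN hN' =>
      ⟨⟨hN.1, xn_fE hM hN'⟩, (mem N).2 (not_not.1 hN.2)⟩⟩
  · exact Or.inl ⟨hM, _, xn_pre hO', xn_null hg e h' fun N hN hN' =>
      ⟨⟨hN.1, xn_fE hM hN'⟩, fun h => hN.2 ((mem N).1 h)⟩⟩

end Pool.Agent.MP_596265_gt.U
end

section
namespace Pool.Agent.MP_596265_gt.U

open Erg Real UpperHalfPlane MeasureTheory Set Filter Topology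

variable {g : ℕ} {e : ℤ} {M : Tup g} {z : ℍ} {τ τ' : MS g} {u : Gen g → Mat}
  {η R : ℝ} {F : HF (Ed g)}

theorem zd_qi {Q : ℂ → ℂ} {γ : G} (h : QI Q γ) : RG.QInv Q γ := fun z hz => by
  have := h ⟨z, hz⟩
  rwa [coe_specialLinearGroup_apply] at this

/-! ROW ZD: discreteness (uses RDisc disc_of_Q, zc_hc). -/
theorem zd_fin (he : e ≠ 0) (hM : M ∈ X g e) (ht : ∀ x, tr (M x) ≠ 0) {Q : ℂ → ℂ}
    (hQ : DifferentiableOn ℂ Q {w | 0 < w.im}) (h0 : ∃ w : ℍ, Q w ≠ 0)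
    (hI : ∀ k, QI Q (FreeGroup.lift M k)) : Fin1 M := by
  intro z R
  obtain ⟨j, hj⟩ := zc_hc he hM
  obtain ⟨w, hw⟩ := h0
  have hx : ∀ x, RG.QInv Q (M x) := fun x => by simpa using zd_qi (hI (FreeGroup.of x))
  obtain ⟨δ, hδ, H⟩ := RG.disc_of_Q hQ ⟨w, w.im_pos, hw⟩ (hx (j, false)) (hx (j, true)) (ht _)
    (ht _) fun h => hj (by rw [hc, cm, ha, hb, h]; group)
  have hd : DiscreteTopology (FreeGroup.lift M).range := by
    refine discreteTopology_of_isOpen_singleton_one ?_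
    have ho : IsOpen {γ : (FreeGroup.lift M).range | ∀ i j, |γ.1 i j - (1 : G) i j| < δ} := by
      simp only [ofPred_forall]
      exact isOpen_iInter_of_finite fun i => isOpen_iInter_of_finite fun j =>
        isOpen_lt (by fun_prop) continuous_const
    convert ho using 1
    ext ⟨_, k, rfl⟩
    exact ⟨fun h i j => by rw [congrArg Subtype.val h]; simpa only [OneMemClass.coe_one, Matrix.SpecialLinearGroup.coe_one, sub_self, abs_zero, gt_iff_lt] using hδ,
      fun h => Subtype.ext (H _ (zd_qi (hI k)) h)⟩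
  have h1 := (FreeGroup.lift M).range.tendsto_coe_cofinite_of_discrete ⟨hd⟩
    (isCompact_len_le (R + 2 * dist I z)).compl_mem_cocompact
  refine ((mem_cofinite.1 h1).image Subtype.val).subset fun γ hγ => ⟨⟨γ, hγ.1⟩, fun h => h ?_, rfl⟩
  have h2 := dist_triangle4 I z (γ • z) (γ • I)
  rw [dist_smul, dist_comm z I] at h2
  exact h2.trans (by linarith [hγ.2])

end Pool.Agent.MP_596265_gt.U
end

section
namespace Pool.Agent.MP_596265_gt.U

open Erg Real UpperHalfPlane MeasureTheory Set Filter Topology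

variable {g : ℕ} {e : ℤ} {M : Tup g} {z : ℍ} {τ τ' : MS g} {u : Gen g → Mat}
  {η R : ℝ} {F : HF (Ed g)}

/-- The closed triangle. -/
def zvT (p q r : ℍ) : Set ℍ := {w | 0 ≤ hdet p q w ∧ 0 ≤ hdet q r w ∧ 0 ≤ hdet r p w}

theorem zv_cpt {p q r : ℍ} (h : 0 < hdet p q r) : IsCompact (zvT p q r) := by
  have := isOpenEmbedding_coe.isInducing.isCompact_preimage'
    (RG.CF_compact (RG.coe_HP p) (RG.coe_HP q) (RG.coe_HP r) h) fun w hw => ⟨⟨w, hw.1⟩, rfl⟩
  convert this using 1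
  ext w
  exact (and_iff_right (RG.coe_HP w)).symm

theorem zw_pos (A : G) (p q w : ℍ) : 0 < hdet (A • p) (A • q) (A • w) ↔ 0 < hdet p q w := by
  obtain ⟨c, hc, h⟩ := hdet_smul A p q w
  rw [h, mul_pos_iff_of_pos_left hc]

theorem zv_smul (A : G) (p q r w : ℍ) : A • w ∈ zvT (A • p) (A • q) (A • r) ↔ w ∈ zvT p q r := by
  have : ∀ p q : ℍ, 0 ≤ hdet (A • p) (A • q) (A • w) ↔ 0 ≤ hdet p q w := fun p q => by
    obtain ⟨c, hc, h⟩ := hdet_smul A p q w
    rw [h, mul_nonneg_iff_of_pos_left hc]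
  simp only [zvT, mem_ofPred_eq, this]

theorem zv_cyc (p q r : ℍ) : zvT q r p = zvT p q r := by
  ext w
  simp only [zvT, mem_ofPred_eq]
  tauto

theorem zv_ev {p q w : ℍ} (h : 0 < hdet p q w) : ∀ᶠ v in 𝓝 w, 0 < hdet p q v :=
  ((RG.cd_cont p q).comp continuous_coe).continuousAt.eventually (lt_mem_nhds h)

theorem zv_edge {p q r s w : ℍ} (h1 : 0 < hdet p q r) (h2 : 0 < hdet p s q) (hw : w ∈ zvT p q r)
    (a : 0 < hdet q r w) (b : 0 < hdet r p w) : zvT p q r ∪ zvT p s q ∈ 𝓝 w := by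
  rcases hw.1.eq_or_lt with c | c
  · have e1 : hdet p q r * hdet p s w = hdet r p w * hdet p s q + hdet p q w * hdet p s r := by
      simp only [hdet, det3]
      ring
    have e2 : hdet p q r * hdet s q w = hdet q r w * hdet p s q + hdet p q w * hdet s q r := by
      simp only [hdet, det3]
      ring
    rw [← c, zero_mul, add_zero] at e1 e2
    filter_upwards [zv_ev a, zv_ev b,
      zv_ev ((mul_pos_iff_of_pos_left h1).1 (e1 ▸ mul_pos b h2)),
      zv_ev ((mul_pos_iff_of_pos_left h1).1 (e2 ▸ mul_pos a h2))] with v a1 a2 a3 a4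
    rcases le_total 0 (hdet p q v) with x | x
    · exact .inl ⟨x, a1.le, a2.le⟩
    · exact .inr ⟨a3.le, a4.le, by linarith only [show hdet q p v = -hdet p q v from RG.cd_swap p q v, x]⟩
  · filter_upwards [zv_ev a, zv_ev b, zv_ev c] with v a1 a2 a3 using .inl ⟨a3.le, a1.le, a2.le⟩

theorem zv_vert {p q r w : ℍ} (h : 0 < hdet p q r) (a : hdet p q w = 0) (b : hdet r p w = 0) :
    w = p := by
  refine UpperHalfPlane.ext ?_
  rw [← RG.κ_Ψ (RG.coe_HP p), ← RG.κ_Ψ (RG.coe_HP w)]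
  change RG.κ (Φ w) = RG.κ (Φ p)
  congr 1
  simp only [hdet, det3] at h a b
  refine Prod.ext (mul_left_cancel₀ h.ne' ?_) (mul_left_cancel₀ h.ne' ?_)
  · linear_combination ((Φ r).1 - (Φ p).1) * a + ((Φ q).1 - (Φ p).1) * b
  · linear_combination ((Φ r).2 - (Φ p).2) * a + ((Φ q).2 - (Φ p).2) * b

theorem zv_link {D : Type} [Finite D] [Nonempty D] (σ : D → D) (v : D → ℍ) (z : ℍ)
    (h : ∀ d, 0 < hdet z (v (σ d)) (v d)) : ∀ᶠ w in 𝓝 z, ∃ d, w ∈ zvT z (v (σ d)) (v d) := by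
  filter_upwards [eventually_all.2 fun d =>
    zv_ev (w := z) ((h d).trans_eq (RG.cd_cyc z (v (σ d)) (v d)).symm)] with w hw
  obtain ⟨d, a, b⟩ := RG.link_walk σ (fun d => (-(Φ (v d)).1, (Φ (v d)).2)) (-(Φ z).1, (Φ z).2)
    (-(Φ w).1, (Φ w).2) fun d => (h d).trans_eq (by simp only [hdet, det3]; ring)
  exact ⟨d, b.trans_eq (by simp only [hdet, det3]; ring), (hw d).le,
    a.trans_eq (by simp only [hdet, det3]; ring)⟩

/-! ROW ZV: the translates of the faces cover the plane. -/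
theorem zv_cover {D : Type} [Fintype D] [Nonempty D] {nxt rv : D → D} (L : D → G) (z : ℍ)
    (h3 : ∀ d, (L d * L (nxt d) * L (nxt (nxt d))) • z = z) (h2 : ∀ d, L d * L (rv d) = 1)
    (hpos : ∀ d, 0 < hdet z (L d • z) ((L d * L (nxt d)) • z)) (Γ : Subgroup G) (hL : ∀ d, L d ∈ Γ)
    (hfin : ∀ R : ℝ, {γ : G | γ ∈ Γ ∧ dist z (γ • z) ≤ R}.Finite) :
    ∃ R : ℝ, ∀ w : ℍ, ∃ γ ∈ Γ, dist z (γ • w) ≤ R := by
  let T : D → Set ℍ := fun d => zvT z (L d • z) ((L d * L (nxt d)) • z)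
  let U : Set ℍ := {w | ∃ γ ∈ Γ, γ • w ∈ ⋃ d, T d}
  have iv : ∀ γ ∈ Γ, ∀ w, γ • w ∈ U → w ∈ U := fun γ hγ w ⟨k, hk, h⟩ =>
    ⟨k * γ, mul_mem hk hγ, by rwa [mul_smul]⟩
  have ivn : ∀ γ ∈ Γ, ∀ w, U ∈ 𝓝 (γ • w) → U ∈ 𝓝 w := fun γ hγ w h =>
    mem_of_superset ((continuous_const_smul γ).continuousAt h) (iv γ hγ)
  have t1 : ∀ d, T d ⊆ U := fun d w hw => ⟨1, one_mem _, mem_iUnion.2 ⟨d, by rwa [one_smul]⟩⟩
  have r1 : ∀ d, L (rv d) • L d • z = z := fun d => by
    rw [← mul_smul, mul_eq_one_comm.1 (h2 d), one_smul]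
  have r3 : ∀ d, L d • (L (nxt d) * L (nxt (nxt d))) • z = z := fun d => by
    rw [← mul_smul, ← mul_assoc, h3]
  have p2 : ∀ d, 0 < hdet z (L (nxt (rv d)) • z) (L d • z) := fun d => by
    rw [← zw_pos (L (rv d)), r1, ← mul_smul]
    exact (hpos (rv d)).trans_eq (RG.cd_cyc _ _ _).symm
  have t2 : ∀ d, zvT z (L (nxt (rv d)) • z) (L d • z) ⊆ U := fun d w hw => by
    refine iv _ (hL (rv d)) _ (t1 (rv d) ?_)
    rwa [← zv_smul (L (rv d)), r1, ← mul_smul, zv_cyc] at hw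
  have v0 : U ∈ 𝓝 z := (zv_link (fun d => nxt (rv d)) (fun d => L d • z) z p2).mono
    fun w ⟨d, hd⟩ => t2 d hd
  have e0 : ∀ d, ∀ w ∈ T d, 0 < hdet (L d • z) ((L d * L (nxt d)) • z) w →
      0 < hdet ((L d * L (nxt d)) • z) z w → U ∈ 𝓝 w := fun d w hw a b =>
    mem_of_superset (zv_edge (hpos d) (p2 d) hw a b) (union_subset (t1 d) (t2 d))
  have rt : ∀ d w, (L d • w ∈ T d → w ∈ T (nxt d)) ∧
      (0 < hdet z (L d • z) (L d • w) → 0 < hdet ((L (nxt d) * L (nxt (nxt d))) • z) z w) ∧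
      (0 < hdet (L d • z) ((L d * L (nxt d)) • z) (L d • w) → 0 < hdet z (L (nxt d) • z) w) ∧
      (0 < hdet ((L d * L (nxt d)) • z) z (L d • w) →
        0 < hdet (L (nxt d) • z) ((L (nxt d) * L (nxt (nxt d))) • z) w) := fun d w => by
    refine ⟨fun h => ?_, fun h => ?_, fun h => ?_, fun h => ?_⟩
    · change w ∈ zvT _ _ _
      rwa [← zv_smul (L d), r3, ← mul_smul, zv_cyc]
    · rwa [← zw_pos (L d), r3]
    · rwa [← zw_pos (L d), ← mul_smul]
    · rwa [← zw_pos (L d), r3, ← mul_smul]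
  have al : ∀ d, ∀ w ∈ T d, U ∈ 𝓝 w := fun d w hw => by
    obtain ⟨w1, rfl⟩ : ∃ w1, L d • w1 = w := ⟨_, smul_inv_smul _ w⟩
    obtain ⟨w2, rfl⟩ : ∃ w2, L (nxt d) • w2 = w1 := ⟨_, smul_inv_smul _ w1⟩
    obtain ⟨x0, x1, x2, x3⟩ := rt d (L (nxt d) • w2)
    obtain ⟨y0, y1, y2, y3⟩ := rt (nxt d) w2
    have up : ∀ d w, U ∈ 𝓝 w → U ∈ 𝓝 (L d • w) := fun d w h =>
      ivn _ (inv_mem (hL d)) _ (by rwa [inv_smul_smul])
    have p := hpos d
    rcases hw.1.eq_or_lt with a | a <;> rcases hw.2.1.eq_or_lt with b | b <;>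
      rcases hw.2.2.eq_or_lt with c | c
    · rwa [zv_vert p a.symm c.symm]
    · rw [zv_vert (p.trans_eq (RG.cd_cyc _ _ _).symm) b.symm a.symm]
      exact up _ _ v0
    · rwa [zv_vert p a.symm c.symm]
    · exact e0 d _ hw b c
    · rw [zv_vert (p.trans_eq (RG.cd_cyc _ _ _)) c.symm b.symm, mul_smul]
      exact up _ _ (up _ _ v0)
    · exact up _ _ (e0 _ _ (x0 hw) (x3 c) (x1 a))
    · exact up _ _ (up _ _ (e0 _ _ (y0 (x0 hw)) (y3 (x1 a)) (y1 (x2 b))))
    · exact e0 d _ hw b c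
  have hK : IsCompact (⋃ d, T d) := isCompact_iUnion fun d => zv_cpt (hpos d)
  obtain ⟨δ, hδ, hs⟩ := hK.exists_thickening_subset_open isOpen_interior
    (iUnion_subset fun d w hw => mem_interior_iff_mem_nhds.2 (al d w hw))
  have nb : ∀ w ∈ U, ∀ w', dist w' w < δ → w' ∈ U := fun w ⟨γ, hγ, h⟩ w' h' =>
    iv γ hγ _ (interior_subset (hs (Metric.mem_thickening_iff.2 ⟨_, h, by rwa [dist_smul]⟩)))
  have hU : U = univ := IsClopen.eq_univ ⟨closure_subset_iff_isClosed.1 fun w hw => by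
    obtain ⟨w', a, b⟩ := Metric.mem_closure_iff.1 hw δ hδ
    exact nb w' a w b, Metric.isOpen_iff.2 fun w hw => ⟨δ, hδ, nb w hw⟩⟩ ⟨z, mem_of_mem_nhds v0⟩
  obtain ⟨R, hR⟩ := hK.isBounded.subset_closedBall z
  refine ⟨R, fun w => ?_⟩
  obtain ⟨γ, hγ, h⟩ : w ∈ U := hU ▸ mem_univ w
  exact ⟨γ, hγ, Metric.mem_closedBall'.1 (hR h)⟩

theorem zv_cov (hg : 1 ≤ g) (h : Gs τ.1 (geo M τ.2) z) (hf : Fin1 M) : Cov1 M := by
  have : Nonempty (Dr (Ed g)) := ⟨(⟨0, by omega⟩, true)⟩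
  obtain ⟨R, hR⟩ := zv_cover (nxt := τ.1) (rv := rev) (dlab (geo M τ.2)) z
    (fun d => ((h.flat d).smul_eq z).trans (one_smul _ z)) (fun d => by rw [dlab_rev, mul_inv_cancel])
    (fun d => ((hD_pos (ν := 1)).1 ((h.pos d).trans_eq (one_mul _).symm)).trans_eq (one_mul _))
    (FreeGroup.lift M).range (fun ⟨x, b⟩ => by
      cases b
      exacts [inv_mem ⟨_, rfl⟩, ⟨_, rfl⟩]) (hf z)
  refine ⟨dist I z + R, fun w => ?_⟩
  obtain ⟨_, ⟨k, rfl⟩, hk⟩ := hR w
  exact ⟨k, (dist_triangle _ z _).trans (by gcongr)⟩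

end Pool.Agent.MP_596265_gt.U
end

section
namespace Pool.Agent.MP_596265_gt.U

open Erg Real UpperHalfPlane MeasureTheory Set Filter Topology

variable {g : ℕ} {e : ℤ} {M : Tup g} {z : ℍ} {τ τ' : MS g} {u : Gen g → Mat}
  {η R : ℝ} {F : HF (Ed g)}

/-! ROW ZX: continuity in the base point and the strong maximum principle. -/
theorem zx_bar {f : ℂ → ℝ} {q y : ℂ} {ε : ℝ} (hε : 0 < ε) (hq : q ≠ y) (h0 : 0 < f q)
    (hl : En.LT f q) : ¬ IsLocalMax (fun w => f w + ε * (Complex.normSq (w - y))⁻¹) q := by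
  intro hm
  obtain ⟨α, β, γ, h1, h2⟩ := hl
  have hγ : 0 ≤ γ := nonneg_of_mul_nonneg_right ((sq_nonneg _).trans h1) (by positivity)
  obtain ⟨u, rfl⟩ : ∃ u, q = y + u := ⟨q - y, by ring⟩
  have hs : 0 < Complex.normSq u := Complex.normSq_pos.2 fun h => hq (by rw [h, add_zero])
  have h3 := (h2 (ε / (2 * Complex.normSq u ^ 2)) (by positivity)).and
    ((by simpa using (continuous_const_add (y + u)).tendsto 0 :
      Tendsto (y + u + ·) (𝓝 0) (𝓝 (y + u))).eventually hm)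
  have h4 : ∀ a b : ℝ, a ^ 2 + b ^ 2 = 1 → ∀ᶠ l in 𝓝[>] (0 : ℝ),
      l * (a * (α * u).re - b * (α * u).im) + l ^ 2 * ((a ^ 2 - b ^ 2) * (β * u ^ 2).re -
        2 * a * b * (β * u ^ 2).im) - ε / (2 * Complex.normSq u) * l ^ 2 +
        ε / Complex.normSq u * (1 + 2 * a * l + l ^ 2)⁻¹ ≤ ε / Complex.normSq u := fun a b h => by
    have : Tendsto (fun l : ℝ => (l : ℂ) * ((⟨a, b⟩ : ℂ) * u)) (𝓝[>] 0) (𝓝 0) :=
      (Continuous.tendsto' (by fun_prop) 0 0 (by simp)).mono_left nhdsWithin_le_nhds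
    filter_upwards [this.eventually h3] with l ⟨k1, k2⟩
    have e1 : ‖(l : ℂ) * ((⟨a, b⟩ : ℂ) * u)‖ ^ 2 = l ^ 2 * Complex.normSq u := by
      rw [Complex.sq_norm, map_mul, map_mul, Complex.normSq_ofReal, Complex.normSq_mk]
      linear_combination l ^ 2 * Complex.normSq u * h
    have e2 : Complex.normSq (y + u + (l : ℂ) * ((⟨a, b⟩ : ℂ) * u) - y) =
        Complex.normSq u * (1 + 2 * a * l + l ^ 2) := by
      simp only [Complex.normSq_apply, Complex.add_re, Complex.add_im, Complex.sub_re,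
        Complex.sub_im, Complex.mul_re, Complex.mul_im, Complex.ofReal_re, Complex.ofReal_im]
      linear_combination l ^ 2 * (u.re * u.re + u.im * u.im) * h
    have e3 : (α * ((l : ℂ) * ((⟨a, b⟩ : ℂ) * u))).re = l * (a * (α * u).re - b * (α * u).im) := by
      simp only [Complex.mul_re, Complex.mul_im, Complex.ofReal_re, Complex.ofReal_im]; ring
    have e4 : (β * ((l : ℂ) * ((⟨a, b⟩ : ℂ) * u)) ^ 2).re = l ^ 2 * ((a ^ 2 - b ^ 2) *
        (β * u ^ 2).re - 2 * a * b * (β * u ^ 2).im) := by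
      simp only [sq, Complex.mul_re, Complex.mul_im, Complex.ofReal_re, Complex.ofReal_im]; ring
    have e5 : ε / (2 * Complex.normSq u ^ 2) * (l ^ 2 * Complex.normSq u) =
        ε / (2 * Complex.normSq u) * l ^ 2 := by field_simp
    rw [e1, e3, e4, sub_mul γ, e5] at k1
    rw [e2, add_sub_cancel_left, mul_inv, ← mul_assoc ε, ← div_eq_mul_inv ε] at k2
    linarith only [mul_nonneg hγ (mul_nonneg (sq_nonneg l) hs.le), k1, k2]
  obtain ⟨l, ⟨⟨k1, k2⟩, k3, k4⟩, l0, l1⟩ := ((((h4 1 0 (by norm_num)).and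
    (h4 (-1) 0 (by norm_num))).and ((h4 0 1 (by norm_num)).and (h4 0 (-1) (by norm_num)))).and
    (Ioo_mem_nhdsGT zero_lt_one)).exists
  have p : 0 < ε / Complex.normSq u := by positivity
  have p0 : 0 < 1 - l := sub_pos.2 l1
  have p1 : 2 + 6 * l ^ 2 ≤ (1 + 2 * 1 * l + l ^ 2)⁻¹ + (1 + 2 * -1 * l + l ^ 2)⁻¹ := by
    rw [show 1 + 2 * -1 * l + l ^ 2 = (1 - l) ^ 2 by ring, inv_add_inv (by positivity)
      (by positivity), le_div_iff₀ (by positivity)]
    have : l ^ 2 < 1 := by nlinarith only [l0, l1]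
    linarith only [mul_nonneg (pow_pos l0 4).le (sub_pos.2 this).le, pow_pos l0 4]
  have p2 : 1 - l ^ 2 ≤ (1 + 2 * 0 * l + l ^ 2)⁻¹ := by
    rw [← one_div, le_div_iff₀ (by positivity)]; linarith only [pow_pos l0 4]
  rw [show ε / (2 * Complex.normSq u) = ε / Complex.normSq u / 2 by field_simp] at k1 k2 k3 k4
  linarith only [mul_le_mul_of_nonneg_left p1 p.le, mul_le_mul_of_nonneg_left p2 p.le, mul_pos p (pow_pos l0 2), k1, k2, k3, k4]

theorem zx_smp0 {f : ℂ → ℝ} {a : ℂ} (h : ∀ᶠ w in 𝓝 a, ContinuousAt f w ∧ 0 ≤ f w ∧ En.LT f w)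
    (hm : IsLocalMax f a) : ∀ᶠ w in 𝓝 a, f w = f a := by
  rcases h.self_of_nhds.2.1.eq_or_lt with h0 | h0
  · filter_upwards [h, hm] with w h1 h2 using le_antisymm h2 (h0 ▸ h1.2.1)
  obtain ⟨R, hR, H⟩ := Metric.eventually_nhds_iff.1
    ((h.and hm).and (h.self_of_nhds.1.eventually (lt_mem_nhds h0)))
  filter_upwards [Metric.ball_mem_nhds a (by positivity : 0 < R / 3)] with y hy
  rw [Metric.mem_ball, dist_comm] at hy
  have hb : ∀ w, dist w y ≤ 2 * dist a y → dist w a < R := fun w hw => by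
    linarith [dist_triangle_right w a y]
  have hy' := H (hb y (by simp only [dist_self, Nat.ofNat_pos, mul_nonneg_iff_of_pos_left, dist_nonneg]))
  by_contra hn
  have h1 : f y < (f a + f y) / 2 := by linarith only [lt_of_le_of_ne hy'.1.2 hn]
  obtain ⟨ρ, hρ, h2⟩ := Metric.nhds_basis_closedBall.eventually_iff.1
    (hy'.1.1.1.eventually (gt_mem_nhds h1))
  have h3 : ρ < dist a y := lt_of_not_ge fun k => by linarith [h2 k]
  obtain ⟨ε, hε, e⟩ : ∃ ε > 0, ε * (ρ ^ 2)⁻¹ = f a - (f a + f y) / 2 :=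
    ⟨(f a - (f a + f y) / 2) * ρ ^ 2, mul_pos (by linarith) (by positivity), by field_simp⟩
  have n : ∀ w, Complex.normSq (w - y) = dist w y ^ 2 := fun w => by
    rw [dist_eq_norm, Complex.sq_norm]
  obtain ⟨q, ⟨q1, q2⟩, q3⟩ := ((isCompact_closedBall y (2 * dist a y)).diff
    (Metric.isOpen_ball (x := y) (ε := ρ))).exists_isMaxOn
    (f := fun w => f w + ε * (Complex.normSq (w - y))⁻¹)
    ⟨a, Metric.mem_closedBall.2 (by linarith only [hρ, h3]), by simpa using h3.le⟩ fun w hw =>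
      ((H (hb w hw.1)).1.1.1.add (continuousAt_const.mul (ContinuousAt.inv₀ (by fun_prop) (by
        rw [n]; exact (pow_pos (hρ.trans_le (by simpa using hw.2)) 2).ne')))).continuousWithinAt
  have q4 : f a + ε * (dist a y ^ 2)⁻¹ ≤ f q + ε * (dist q y ^ 2)⁻¹ := by
    rw [← n, ← n]
    exact q3 (a := a) ⟨Metric.mem_closedBall.2 (by linarith only [hρ, h3]), by simpa using h3.le⟩
  have d0 := hρ.trans h3
  have q5 : ρ < dist q y := lt_of_le_of_ne (by simpa using q2) fun k => by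
    have := h2 k.ge
    rw [← k, e] at q4
    linarith only [(by positivity : 0 < ε * (dist a y ^ 2)⁻¹), q4, this]
  have q6 : dist q y < 2 * dist a y := lt_of_le_of_ne q1 fun k => by
    rw [k, mul_pow, mul_inv] at q4
    linarith only [(H (hb q q1)).1.2, (by positivity : 0 < ε * (dist a y ^ 2)⁻¹), q4]
  refine zx_bar hε (dist_pos.1 (hρ.trans q5)) (H (hb q q1)).2 (H (hb q q1)).1.1.2.2
    (q3.isLocalMax ?_)
  filter_upwards [Metric.isOpen_ball.mem_nhds q6,
    Metric.isClosed_closedBall.isOpen_compl.mem_nhds q5.not_ge] with w k1 k2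
  exact ⟨Metric.ball_subset_closedBall k1, fun k => k2 (Metric.ball_subset_closedBall k)⟩

theorem zx_open {E : Type} [Finite E] (n : Nx E) (L : E → G) : IsOpen {w | Pos n L w} :=
  (Bas.isOpen_pos n).preimage (Continuous.prodMk_right L)

theorem zx_ev {E : Type} [Fintype E] [DecidableEq E] {F : HF E} (hF : HAx F) {n : Nx E}
    {L : E → G} {z : ℍ} {c : E → Mat} (h : Gs n L z) (hc : Zc n L c) : ∀ᶠ p in 𝓝 (z : ℂ),
      ContinuousAt (fun p => F n L (ofComplex p) c c) p ∧ 0 ≤ F n L (ofComplex p) c c ∧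
      En.LT (fun p => F n L (ofComplex p) c c) p := by
  have hO := isOpenEmbedding_coe.isOpenMap _ (zx_open n L)
  have h1 := hF.reg (L := fun _ => L) (z := ofComplex) (c := fun _ => c) hO
    (fun _ _ _ => contDiffOn_const) (contDiffOn_id.congr (by
      rintro _ ⟨w, -, rfl⟩; rw [ofComplex_apply]; rfl)) (fun _ _ _ => contDiffOn_const) (by
      rintro _ ⟨w, hw, rfl⟩; rw [ofComplex_apply]; exact ⟨⟨h.trg, h.flat, hw⟩, hc⟩)
  filter_upwards [hO.mem_nhds ⟨z, h.pos, rfl⟩] with p hp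
  obtain ⟨w, hw, rfl⟩ := id hp
  exact ⟨h1.continuousOn.continuousAt (hO.mem_nhds hp),
    by rw [ofComplex_apply]; exact hF.nonneg ⟨h.trg, h.flat, hw⟩ hc, hF.lt ⟨h.trg, h.flat, hw⟩ hc⟩

theorem zx_cont {E : Type} [Fintype E] [DecidableEq E] {F : HF E} (hF : HAx F) {n : Nx E}
    {L : E → G} {z : ℍ} {c : E → Mat} (h : Gs n L z) (hc : Zc n L c) :
    ContinuousAt (fun w => F n L w c c) z := by
  simpa only [Function.comp_def, ofComplex_apply] using
    (zx_ev hF h hc).self_of_nhds.1.comp continuous_coe.continuousAt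

theorem zx_smp {E : Type} [Fintype E] [DecidableEq E] {F : HF E} (hF : HAx F)
    {n : Nx E} {L : E → G} {z : ℍ} {c : E → Mat} (h : Gs n L z) (hc : Zc n L c)
    (hm : IsLocalMax (fun w => F n L w c c) z) : ∀ᶠ w in 𝓝 z, F n L w c c = F n L z c c := by
  have h1 : Tendsto ofComplex (𝓝 (z : ℂ)) (𝓝 z) := by
    simpa only [ContinuousAt, ofComplex_apply] using
      (contMDiffAt_ofComplex (n := 0) z.im_pos).continuousAt
  simpa only [ofComplex_apply] using continuous_coe.continuousAt.eventually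
    (zx_smp0 (zx_ev hF h hc) ((h1.eventually hm).mono fun p hp => by
      simpa only [ofComplex_apply] using hp))

end Pool.Agent.MP_596265_gt.U
end

section
namespace Pool.Agent.MP_596265_gt.U

open Erg Real UpperHalfPlane MeasureTheory Set Filter Topology Bas

variable {g : ℕ} {M : Tup g} {z : ℍ} {τ : MS g} {u : Gen g → Mat} {η R : ℝ} {F : HF (Ed g)}

theorem zm_aut (k : Fr g) : AutR (MulAut.conj k : Fr g ≃* Fr g) :=
  (isConj_iff.2 ⟨k, rfl⟩ : IsConj (relPre g g) _).symm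

theorem zm_act (k : Fr g) (M : Tup g) :
    act (MulAut.conj k) M = cjL (FreeGroup.lift M k) M := funext fun x => by simp only [act, MulAut.conj_apply, map_mul, FreeGroup.lift_apply_of, map_inv, cjL]

/-- The inner action on states. -/
noncomputable def zm_c (M : Tup g) (k : Fr g) (s : ℍ × MS g) : ℍ × MS g :=
  (FreeGroup.lift M k • s.1, mp (MulAut.conj k) s.2)

theorem zm_lf (hT : TAx g) (k : Fr g) {s t : ℍ × MS g} (h : Lf M s t) :
    Lf M (zm_c M k s) (zm_c M k t) :=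
  (lf_mp hT (zm_aut k)).2 (zm_act k M ▸ (lf_cjL _).2 h)

theorem zm_cc (k : Fr g) (s : ℍ × MS g) : zm_c M k⁻¹ (zm_c M k s) = s :=
  Prod.ext (by simp only [zm_c, map_inv, inv_smul_smul]) (Prod.ext rfl (funext fun x => by simp only [zm_c, map_inv, mp, MulAut.conj_apply, mul_assoc, inv_smul_smul, MulAut.inv_apply, MulAut.conj_symm_apply, inv_mul_cancel_left, inv_mul_cancel, mul_one, Prod.mk.eta]))

theorem zm_FM (hT : TAx g) (hF : HAx F) (hM : Fm M) (hu : Z1 M u) (k : Fr g) {s : ℍ × MS g}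
    (ht : MT s.2) (hp : Ps M s.1 s.2) :
    FM F M (zm_c M k s).1 (zm_c M k s).2 u = FM F M s.1 s.2 u := by
  have e : acu (MulAut.conj k) M u = (fun x => ad (FreeGroup.lift M k) (u x)) +
      cob (cjL (FreeGroup.lift M k) M) (coc M u k) := funext fun x => by
    simp only [acu, MulAut.conj_apply, coc_mul, coc_inv, coc_of, map_mul, FreeGroup.lift_apply_of,
      Pi.add_apply, cob, cjL, ad_mul, ad_neg]
    abel
  rw [zm_c, FM_mp, zm_act, e, FM_add_cob hT hF ((fm_cjL _).2 hM) ht ((ps_cjL _).2 hp)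
    (z1_cjL _ hu) (coc_trace hu.1 k), FM_cjL hT hF hM ht hp hu]

theorem zm_kil (h0 : Kil M u) {l l' : Ed g → Fr g} (h : geo M l = geo M l') :
    geoT M u l = geoT M u l' := funext fun x => by
  have h1 : FreeGroup.lift M (l x * (l' x)⁻¹) = 1 := by
    rw [map_mul, map_inv, mul_inv_eq_one]; exact congrFun h x
  have h2 := coc_mul (M := M) (U := u) (l x * (l' x)⁻¹) (l' x)
  rwa [inv_mul_cancel_right, h0 _ (Or.inl h1), h1, ad_one, zero_add] at h2

theorem zm_max (hT : TAx g) (hD : DAx g) (hF : HAx F) (hη : 0 < η) (hM : Fm M) (hk : KL η R M z τ)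
    (hf : Fin1 M) (hc : Cov1 M) (hu : Z1 M u) (h0 : Kil M u) :
    ∃ s, Lf M (z, τ) s ∧ ∀ t, Lf M (z, τ) t → FM F M t.1 t.2 u ≤ FM F M s.1 s.2 u := by
  obtain ⟨R₀, hc⟩ := hc
  obtain ⟨c, c0, hfat⟩ := hD.fat η hη
  let A : ℍ × MS g → Prop := fun s => ∃ k, Lf M (z, τ) (zm_c M k s)
  have st : ∀ t, Lf M (z, τ) t → MT t.2 ∧ Ps M t.1 t.2 := fun t h =>
    lf_ps hT hM h hk.2.1 hk.2.2.1
  have back : ∀ k s, MT (zm_c M k s).2 ∧ Ps M (zm_c M k s).1 (zm_c M k s).2 →
      MT s.2 ∧ Ps M s.1 s.2 := fun k s h =>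
    ⟨(mt_mp hT (zm_aut k)).1 h.1, (ps_cjL _).1 (zm_act k M ▸ ps_mp.1 h.2)⟩
  have stA : ∀ s, A s → MT s.2 ∧ Ps M s.1 s.2 := fun s ⟨k, h⟩ => back k s (st _ h)
  let C : Nx (Ed g) × (Ed g → G) → Set ℍ := fun p => {w | (∃ l, A (w, p.1, l) ∧ geo M l = p.2) ∧
    dist I w ≤ R₀ ∧ ∀ d, c ≤ fD p.1 p.2 w d}
  let V : Nx (Ed g) × (Ed g → G) → Set ℝ := fun p =>
    {r | ∃ w ∈ C p, ∃ l, A (w, p.1, l) ∧ geo M l = p.2 ∧ r = FM F M w (p.1, l) u}
  have hC : ∀ p, IsCompact (C p) := fun p => by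
    refine (isCompact_closedBall (I : ℍ) R₀).of_isClosed_subset
      (isClosed_of_closure_subset fun w hw => ?_) fun w hw => Metric.mem_closedBall'.2 hw.2.1
    have a1 : dist I w ≤ R₀ := (isClosed_le (continuous_const.dist continuous_id)
      continuous_const).closure_subset_iff.2 (fun v hv => hv.2.1) hw
    have a2 : ∀ d, c ≤ fD p.1 p.2 w d := fun d => (isClosed_le continuous_const
      ((continuous_fD p.1 d).comp' (Continuous.prodMk_right p.2))).closure_subset_iff.2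
        (fun v hv => hv.2.2 d) hw
    obtain ⟨B, ⟨b1, b2⟩, b3⟩ := (path_connected_basis w).mem_iff.1
      ((zx_open p.1 p.2).mem_nhds fun d => c0.trans_le (a2 d))
    obtain ⟨v, hv, ⟨l, ⟨k, b4⟩, b5⟩, -⟩ := mem_closure_iff_nhds.1 hw B b1
    refine ⟨⟨l, ⟨k, .trans _ _ _ b4 (zm_lf hT k (lf_go (stA _ ⟨k, b4⟩).1
      b2.isConnected.isPreconnected hv (mem_of_mem_nhds b1) fun x hx => ?_))⟩, b5⟩, a1, a2⟩
    exact (b5 ▸ b3 hx : Pos p.1 (geo M l) x)
  have hV : ∀ p, IsCompact (V p) := fun p => by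
    rcases (V p).eq_empty_or_nonempty with h | ⟨-, w₀, -, l₀, a₀, b₀, -⟩
    · rw [h]; exact isCompact_empty
    have e : ∀ w l, geo M l = p.2 → FM F M w (p.1, l) u =
        F p.1 (geo M l₀) w (geoT M u l₀) (geoT M u l₀) := fun w l h => by
      rw [FM, zm_kil h0 (h.trans b₀.symm), h, b₀]
    have : V p = (fun w => F p.1 (geo M l₀) w (geoT M u l₀) (geoT M u l₀)) '' C p := by
      ext r
      refine ⟨fun ⟨w, a, l, _, b, h⟩ => ⟨w, a, (h.trans (e w l b)).symm⟩, ?_⟩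
      rintro ⟨w, a, rfl⟩
      obtain ⟨l, a1, a2⟩ := a.1
      exact ⟨w, a, l, a1, a2, (e w l a2).symm⟩
    rw [this]
    refine (hC p).image_of_continuousOn fun w hw => (zx_cont hF (gs_of (τ := (p.1, l₀)) hT hM
      (stA _ a₀).1 fun d => ?_) (zc_of (τ := (p.1, l₀)) hT hM (stA _ a₀).1 hu)).continuousWithinAt
    exact b₀ ▸ c0.trans_le (hw.2.2 d)
  let P : Set (Nx (Ed g) × (Ed g → G)) := univ ×ˢ univ.pi fun _ =>
    {γ : G | γ ∈ range (FreeGroup.lift M) ∧ dist I (γ • I) ≤ R₀ + R + R₀}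
  have hP : P.Finite := finite_univ.prod (Finite.pi fun _ => hf I _)
  have key : ∀ t, Lf M (z, τ) t → FM F M t.1 t.2 u ∈ ⋃ p ∈ P, V p := by
    rintro ⟨w, σ⟩ ht
    obtain ⟨σ', a1, a2, a3⟩ := hk.2.2.2 w σ ht
    obtain ⟨k, a4⟩ := hc w
    have a5 : Lf M (z, τ) (w, σ') := .trans _ _ _ ht (lf_of_eqv a1)
    have a6 : A (zm_c M k (w, σ')) := ⟨k⁻¹, (zm_cc k _).symm ▸ a5⟩
    have a7 := stA _ a6
    have a8 : Bd η R M (zm_c M k (w, σ')).1 (zm_c M k (w, σ')).2 :=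
      bd_mp.2 (zm_act k M ▸ (bd_cjL _).2 a3)
    have a9 : Dl M (zm_c M k (w, σ')).1 (zm_c M k (w, σ')).2 :=
      dl_mp.2 (zm_act k M ▸ (dl_cjL _).2 a2)
    have b1 : dist I (zm_c M k (w, σ')).1 ≤ R₀ := a4
    rw [← FM_eqv hT hF hM hu a1, ← zm_FM hT hF hM hu k (s := (w, σ')) (st _ a5).1 (st _ a5).2]
    generalize zm_c M k (w, σ') = s at *
    refine mem_biUnion (x := (s.2.1, geo M s.2.2)) ⟨trivial, fun x _ => ⟨⟨_, rfl⟩, ?_⟩⟩
      ⟨s.1, ⟨⟨_, a6, rfl⟩, b1, hfat (gs_of hT hM a7.1 a7.2) a9 fun d => (a8 d).1⟩, _, a6, rfl, rfl⟩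
    have b2 : dist s.1 (geo M s.2.2 x • s.1) ≤ R := (a8 (x, true)).2
    have b3 := dist_triangle4 I s.1 (geo M s.2.2 x • s.1) (geo M s.2.2 x • I)
    rw [dist_smul, dist_comm s.1 I] at b3
    linarith
  obtain ⟨r, hr, hmax⟩ := (hP.isCompact_biUnion fun p _ => hV p).exists_isGreatest
    ⟨_, key _ (.refl _)⟩
  simp only [mem_iUnion] at hr
  obtain ⟨p, -, w, -, l, ⟨k, a⟩, -, rfl⟩ := hr
  refine ⟨_, a, fun t ht => (hmax (key t ht)).trans_eq ?_⟩
  exact (zm_FM hT hF hM hu k (stA _ ⟨k, a⟩).1 (stA _ ⟨k, a⟩).2).symm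

end Pool.Agent.MP_596265_gt.U
end

section
namespace Pool.Agent.MP_596265_gt.U

open Erg Real UpperHalfPlane MeasureTheory Set Filter Topology

variable {g : ℕ} {e : ℤ} {M : Tup g} {z : ℍ} {τ τ' : MS g} {u : Gen g → Mat}
  {η R : ℝ} {F : HF (Ed g)}

/-! ROW ZL: a maximum on the leaf forces constancy (uses Bas, ZX). -/
theorem zl_cst (hT : TAx g) (hF : HAx F) (hM : Fm M) (hτ : MT τ) (hp : Ps M z τ) (hu : Z1 M u)
    {s : ℍ × MS g} (hs : Lf M (z, τ) s)
    (hm : ∀ t, Lf M (z, τ) t → FM F M t.1 t.2 u ≤ FM F M s.1 s.2 u) : Cst F M z τ u := by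
  have loc : ∀ w σ, Lf M (z, τ) (w, σ) → FM F M w σ u = FM F M s.1 s.2 u → Cst F M w σ u := by
    intro w σ h e
    obtain ⟨a, b⟩ := Bas.lf_ps hT hM h hτ hp
    refine zx_smp hF (Bas.gs_of hT hM a b) (Bas.zc_of hT hM a hu) ?_
    filter_upwards [Bas.lf_near_z a b] with w' h'
    exact (hm _ (.trans _ _ _ h h')).trans e.ge
  have key : ∀ p q, Lf M p q → Lf M (z, τ) p →
      (FM F M p.1 p.2 u = FM F M s.1 s.2 u ↔ FM F M q.1 q.2 u = FM F M s.1 s.2 u) := by
    intro p q h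
    induction h with
    | rel p q a =>
      intro h
      cases a with
      | mv a => rw [Bas.FM_mv hT hF hM hu a]
      | @go w w' σ C a b c d e =>
        refine b.induction₂' (fun x y => FM F M x σ u = FM F M s.1 s.2 u ↔
          FM F M y σ u = FM F M s.1 s.2 u) (fun x hx => Eventually.filter_mono nhdsWithin_le_nhds ?_)
          (fun _ _ _ _ _ _ h1 h2 => h1.trans h2) c d
        by_cases hx' : FM F M x σ u = FM F M s.1 s.2 u
        · filter_upwards [loc x σ (.trans _ _ _ h (Bas.lf_go a b c hx e)) hx'] with y hy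
          rw [hy]
          exact ⟨Iff.rfl, Iff.rfl⟩
        · filter_upwards [(zx_cont hF (Bas.gs_of hT hM a (e x hx))
            (Bas.zc_of hT hM a hu)).eventually_ne hx'] with y hy
          exact ⟨iff_of_false hx' hy, iff_of_false hy hx'⟩
    | refl p => exact fun _ => Iff.rfl
    | symm p q a ih => exact fun h => (ih (.trans _ _ _ h (.symm _ _ a))).symm
    | trans p q r a _ ih ih' => exact fun h => (ih h).trans (ih' (.trans _ _ _ h a))
  exact loc z τ (.refl _) ((key _ _ hs (.refl _)).2 rfl)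

end Pool.Agent.MP_596265_gt.U
end

section
namespace Pool.Agent.MP_596265_gt.U

open Erg Real UpperHalfPlane MeasureTheory Set Filter Topology

variable {g : ℕ} {e : ℤ} {M : Tup g} {z : ℍ} {τ τ' : MS g} {u : Gen g → Mat}
  {η R : ℝ} {F : HF (Ed g)}

/-! ROW ZB: bad points lie on sets of codimension two (uses Bas, Zval, ZC, ZD, ZV, ZM, ZL). -/
theorem zb_qinv {Q : ℂ → ℂ} {γ : G} (h : QI Q γ) : QI Q γ⁻¹ := fun w => by
  have h1 := h (γ⁻¹ • w)
  have h2 := basic_denom γ⁻¹ w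
  have h3 : (((γ⁻¹ 1 0 : ℝ) : ℂ) * w + (γ⁻¹ 1 1 : ℝ)) *
      (((γ 1 0 : ℝ) : ℂ) * (γ⁻¹ • w : ℍ) + (γ 1 1 : ℝ)) = 1 := by
    rw [basic_coe_smul, mul_add, mul_left_comm, mul_div_cancel₀ _ h2, basic_inv00, basic_inv01,
      basic_inv10, basic_inv11, ← zv_det γ]
    push_cast; ring
  rw [smul_inv_smul] at h1
  rw [h1, ← mul_assoc, ← mul_pow, h3, one_pow, one_mul]

theorem zb_qpm {Q : ℂ → ℂ} {a b : G} (h : PM a b) (hb : QI Q b) : QI Q a := fun w => by
  rw [h.smul_eq, hb]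
  rcases h with rfl | rfl
  · rfl
  · rw [basic_neg, basic_neg]; push_cast; ring

theorem zb_inv (hT : TAx g) (hM : Fm M) (hτ : MT τ) {Q : ℂ → ℂ} (h : ∀ x, QI Q (geo M τ.2 x))
    (k : Fr g) : QI Q (FreeGroup.lift M k) := by
  obtain ⟨w, hw⟩ := hT.gen hτ k
  refine zb_qpm (Cg.pm hM hw) ?_
  clear hw
  induction w with
  | nil => intro w; simp only [lab_nil, map_one, one_smul, Fin.isValue, Matrix.SpecialLinearGroup.coe_one, ne_eq, one_ne_zero, not_false_eq_true, Matrix.one_apply_ne, Complex.ofReal_zero, zero_mul, Matrix.one_apply_eq, Complex.ofReal_one, zero_add, one_pow, one_mul]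
  | cons d w ih =>
    rw [lab_cons, map_mul, ← Bas.dlab_geo]
    refine ZvI.mul ?_ ih
    obtain ⟨x, b⟩ := d
    cases b
    · exact zb_qinv (h x)
    · exact h x

theorem zb_R (hT : TAx g) (hR : RAx F) (hM : Fm M) (hτ : MT τ) (hp : Ps M z τ)
    (V : Submodule ℝ (Gen g → Mat)) (hV : ∀ u ∈ V, Z1 M u ∧ Cst F M z τ u) :
    ∃ q : V →ₗ[ℝ] ℂ → ℂ, ∀ u : V, DifferentiableOn ℂ (q u) {w | 0 < w.im} ∧
      (∀ k, QI (q u) (FreeGroup.lift M k)) ∧ ((∀ w : ℍ, q u w = 0) → FM F M z τ u = 0) := by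
  let f : (Gen g → Mat) →ₗ[ℝ] Ed g → Mat := LinearMap.pi fun x => cocL M (τ.2 x)
  obtain ⟨q, hq⟩ := hR (V.map f) (Bas.gs_of hT hM hτ hp) (by
    rintro _ ⟨u, hu, rfl⟩
    exact ⟨Bas.zc_of hT hM hτ (hV u hu).1, (hV u hu).2⟩)
  exact ⟨q ∘ₗ f.submoduleMap V, fun u =>
    ⟨(hq _).1, zb_inv hT hM hτ (hq _).2.1, (hq (f.submoduleMap V u)).2.2⟩⟩

theorem zb_Q (hT : TAx g) (hF : HAx F) (hR : RAx F) (hM : Fm M) (hτ : MT τ) (hp : Ps M z τ)
    (hu : Z1 M u) (h0 : 0 < FM F M z τ u) (hc : Cst F M z τ u) :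
    ∃ Q : ℂ → ℂ, DifferentiableOn ℂ Q {w | 0 < w.im} ∧ (∃ w : ℍ, Q w ≠ 0) ∧
      ∀ k, QI Q (FreeGroup.lift M k) := by
  obtain ⟨q, hq⟩ := zb_R hT hR hM hτ hp (Submodule.span ℝ {u}) fun v hv => by
    obtain ⟨a, rfl⟩ := Submodule.mem_span_singleton.1 hv
    refine ⟨hu.smul a, ?_⟩
    filter_upwards [hc, (Bas.isOpen_ps_z M τ).mem_nhds hp] with w h1 h2
    rw [Bas.FM_smul hT hF hM hτ h2 hu, Bas.FM_smul hT hF hM hτ hp hu, h1]
  obtain ⟨h1, h2, h3⟩ := hq ⟨u, Submodule.mem_span_singleton_self u⟩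
  exact ⟨_, h1, not_forall.1 fun h => h0.ne' (h3 h), h2⟩

theorem zb_dim (hg : 2 ≤ g) (he : e ≤ 2 * g - 3) (hT : TAx g) (hF : HAx F) (hR : RAx F)
    (hM : M ∈ X g e) (hτ : MT τ) (hp : Ps M z τ) (V : Submodule ℝ (Gen g → Mat))
    (hV : ∀ u ∈ V, Z1 M u ∧ Cst F M z τ u) : Module.finrank ℝ V + 1 ≤ 4 * g := by
  have hm := Bas.fm_of_X hM
  have hG := Bas.gs_of hT hm hτ hp
  obtain ⟨q, hq⟩ := zb_R hT hR hm hτ hp V hV
  let K : Submodule ℝ V := LinearMap.ker (LinearMap.funLeft ℝ ℂ ((↑) : ℍ → ℂ) ∘ₗ q)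
  obtain ⟨W, hW⟩ := K.exists_isCompl
  let c : (Fin 3 → ℝ) →ₗ[ℝ] Gen g → Mat :=
    { toFun := fun a => cob M !![a 0, a 1; a 2, -a 0]
      map_add' := fun a b => funext fun x => by
        simp only [Pi.add_apply, cob]
        rw [sub_add_sub_comm, ← ad_add]
        congr 1 <;> [skip; congr 1] <;> simp [add_comm]
      map_smul' := fun r a => funext fun x => by
        simp only [Pi.smul_apply, cob]
        rw [smul_sub, ← ad_smul]
        congr 1 <;> [skip; congr 1] <;> simp }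
  have h1 : K.map V.subtype ≤ LinearMap.range c := by
    rintro _ ⟨u, hu, rfl⟩
    obtain ⟨A, hA, e⟩ := Bas.cob_of_FM hT hF hm hτ hp (hV u u.2).1 ((hq u).2.2 (congrFun hu))
    refine ⟨![A 0 0, A 0 1, A 1 0], (e.trans (congrArg (cob M) ?_)).symm⟩
    rw [Matrix.trace_fin_two] at hA
    ext i j; fin_cases i <;> fin_cases j <;> simp; linarith only [hA]
  have h2 := (Submodule.finrank_mono h1).trans c.finrank_range_le
  rw [Submodule.finrank_map_subtype_eq, Module.finrank_fin_fun] at h2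
  have h3 := Submodule.finrank_add_eq_of_isCompl hW
  have h4 := zv_dim' (nxt := τ.1) (rv := rev) τ.1.bijective (revP _).bijective
    (dlab (geo M τ.2)) z (fun d => ((hG.flat d).smul_eq z).trans (one_smul _ _))
    (fun d => by rw [dlab_rev, mul_inv_cancel, one_smul])
    (fun d => by simpa using (hD_pos (ν := 1)).1 (by rw [one_mul]; exact hG.pos d))
    (W := W) (q ∘ₗ W.subtype) (fun u => (hq u).1)
    (fun u h => Subtype.ext (hW.disjoint.le_bot ⟨funext h, u.2⟩))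
    (fun u d => by rw [Bas.dlab_geo]; exact (hq u).2.1 _) hg (by simp only [Fintype.card_prod, Fintype.card_fin, Fintype.card_bool]; omega) (by
      have : (e : ℝ) ≤ 2 * g - 3 := by exact_mod_cast he
      exact (hT.area z hτ hM).trans_le (by nlinarith only [pi_pos, this]))
  omega

theorem zb_two {E ι : Type} [AddCommGroup E] [Module ℝ E] [FiniteDimensional ℝ E]
    (l : ι → E →ₗ[ℝ] ℝ) (h : Module.finrank ℝ (⨅ i, LinearMap.ker (l i) :) + 2 ≤ Module.finrank ℝ E) :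
    ∃ i j, ∀ y : ℝ × ℝ, ∃ u, (l i u, l j u) = y := by
  have key : ∀ V : Submodule ℝ E, Module.finrank ℝ E ≤ Module.finrank ℝ V + 1 →
      ∃ i, ∃ v ∈ V, l i v = 1 := by
    intro V hV
    by_contra hn
    push Not at hn
    have : V ≤ ⨅ i, LinearMap.ker (l i) := fun v hv => (Submodule.mem_iInf _).2 fun i => by
      by_contra h0
      exact hn i ((l i v)⁻¹ • v) (V.smul_mem _ hv) (by rw [map_smul]; exact inv_mul_cancel₀ h0)
    have := Submodule.finrank_mono this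
    omega
  obtain ⟨i, u, -, hu⟩ := key ⊤ (by simp)
  obtain ⟨j, v, hv, hv1⟩ := key (LinearMap.ker (l i)) (by
    have h1 := (l i).finrank_range_add_finrank_ker
    have h2 := Submodule.finrank_le (LinearMap.range (l i))
    rw [Module.finrank_self] at h2
    omega)
  have hv0 : l i v = 0 := hv
  refine ⟨i, j, fun y => ⟨y.1 • u + (y.2 - y.1 * l j u) • v, ?_⟩⟩
  ext <;> simp [hu, hv0, hv1]

theorem zb_pair (hg : 2 ≤ g) (h1 : e ≠ 0) (hM : M ∈ X g e)
    (h : ∀ V : Submodule ℝ (Gen g → Mat), (∀ u ∈ V, Z1 M u ∧ Kil M u) →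
      Module.finrank ℝ V + 1 ≤ 4 * g) : Rk2 M := by
  obtain ⟨Z, hZ, hd⟩ := zc_dim (by omega) (X_pm hM) (zc_na h1 hM)
  let l : {k : Fr g // PM (FreeGroup.lift M k) 1} × Fin 2 × Fin 2 → Z →ₗ[ℝ] ℝ := fun p =>
    Matrix.entryLinearMap ℝ ℝ p.2.1 p.2.2 ∘ₗ cocL M p.1 ∘ₗ Z.subtype
  obtain ⟨p, p', hp⟩ := zb_two l (by
    have := h ((⨅ i, LinearMap.ker (l i)).map Z.subtype) (by
      rintro _ ⟨u, hu, rfl⟩
      exact ⟨(hZ _).1 u.2, fun k hk => Matrix.ext fun i j =>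
        (Submodule.mem_iInf _).1 hu (⟨k, hk⟩, i, j)⟩)
    rw [Submodule.finrank_map_subtype_eq] at this
    omega)
  exact ⟨p.1, p'.1, p.2.1, p.2.2, p'.2.1, p'.2.2, p.1.2, p'.1.2, fun y =>
    (hp y).elim fun u hu => ⟨u, (hZ _).1 u.2, hu⟩⟩

theorem zb_rank (hg : 2 ≤ g) (h1 : e ≠ 0) (he : e ≤ 2 * g - 3) (hT : TAx g) (hD : DAx g)
    (hF : HAx F) (hR : RAx F) (hη : 0 < η) (hM : M ∈ X g e) (hk : KL η R M z τ) (hu : Z1 M u)
    (h0 : 0 < FM F M z τ u) (hc : Cst F M z τ u) : Rk2 M := by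
  have hm := Bas.fm_of_X hM
  obtain ⟨Q, q1, q2, q3⟩ := zb_Q hT hF hR hm hk.2.1 hk.2.2.1 hu h0 hc
  have hf := zd_fin h1 hM (fun x hx => by
    obtain ⟨j, b⟩ := x
    obtain ⟨ψ, hψ, e⟩ := au_sig j
    have k1 := (hk.1 _ autR_refl).1 j
    have k2 := (hk.1 _ hψ).1 j
    rw [act_refl] at k1
    rw [e, ha_setH, tr_inv] at k2
    cases b
    · rw [ha, hx] at k1; norm_num at k1
    · rw [hb, hx] at k2; norm_num at k2) q1 q2 q3
  have hc := zv_cov (by omega) (Bas.gs_of hT hm hk.2.1 hk.2.2.1) hf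
  refine zb_pair hg h1 hM fun V hV => zb_dim hg he hT hF hR hM hk.2.1 hk.2.2.1 V fun u hu => ?_
  obtain ⟨s, hs, h⟩ := zm_max hT hD hF hη hm hk hf hc (hV u hu).1 (hV u hu).2
  exact ⟨(hV u hu).1, zl_cst hT hF hm hk.2.1 hk.2.2.1 (hV u hu).1 hs h⟩

end Pool.Agent.MP_596265_gt.U
end

section
namespace Pool.Agent.MP_596265_gt.U

open Erg Real UpperHalfPlane MeasureTheory Set Filter Topology

variable {g : ℕ} {e : ℤ} {η R : ℝ} {F : HF (Ed g)}

/-! ROW ZF: the dichotomy. -/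
theorem zf_dich (hg : 1 ≤ g) (h1 : e ≠ 0) (hD : DAx g) (hL : LocP g e F) (hη : 0 < η)
    (hB : ∀ M z τ u, M ∈ X g e → KL η R M z τ → Z1 M u → 0 < FM F M z τ u → Cst F M z τ u →
      Rk2 M) : Dich g e η R := by
  intro M z τ hM hp
  have hO : {N | Ps N z τ} ∈ 𝓝 M := (Bas.isOpen_ps_M z τ).mem_nhds hp
  have off : ∀ N ∈ X g e, Ps N z τ → ¬ KL η R N z τ → N ∈ Om e {N | KL η R N z τ}ᶜ := by
    intro N hN a b
    have c := not_frequently.1 (mt (hD.kcl hη (Bas.fm_of_X hN) a) b)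
    refine ⟨hN, _, (Continuous.prodMk_left z).continuousAt.eventually c,
      measure_mono_null (fun L hL => ?_) (xz_X e)⟩
    exact fun hX => hL.1 ⟨Bas.fm_of_X hX, not_not.1 hL.2⟩
  refine (zu_thin hg h1 hM hO fun N a hN => ?_).imp_left fun h => ⟨hM, ?_⟩
  · by_cases b : KL η R N z τ
    · by_cases c : ∃ u, Z1 N u ∧ 0 < FM F N z τ u ∧ Cst F N z τ u
      · obtain ⟨u, c1, c2, c3⟩ := c
        exact Or.inr (hB N z τ u hN b c1 c2 c3)
      · exact Or.inl (hL hη hN b fun u c1 c2 c3 => c ⟨u, c1, c2, c3⟩)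
    · exact Or.inl (Or.inr (off N hN a b))
  · filter_upwards [om_nhds h, hO] with N a b hN
    exact by_contra fun c => om_disj hg (zc_na h1 hN) (a hN) (off N hN b c)

end Pool.Agent.MP_596265_gt.U
end

section
namespace Pool.Agent.MP_596265_gt.U

open Erg Real UpperHalfPlane MeasureTheory Set Filter Topology

variable {g : ℕ} {e : ℤ} {M : Tup g} {z : ℍ} {τ τ' : MS g} {u : Gen g → Mat}
  {η R : ℝ} {F : HF (Ed g)}

/-! ROW ZN: the length of a simple loop has no local minimum (uses ZC, TB). -/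
theorem zn_fox (M : Tup g) (β : Gen g → Mat) {k : ℕ} (hk : k ≤ g) :
    coc M (fun y => ad (M y) (β y)) (relPre g k) = fox M β k := by
  rw [← zc_fox M _ hk]
  simp only [ad_inv_ad]
theorem zn_z1 {β : Gen g → Mat} (h1 : TL β) (h2 : fox M β g = 0) :
    Z1 M fun y => ad (M y) (β y) :=
  ⟨fun y => by rw [ad_trace, h1], by rw [zn_fox M β le_rfl, h2]⟩
theorem zn_mid {i k : ℕ} (hik : i ≤ k) (hk : k ≤ g)
    (h : ∀ j : Fin g, i ≤ j → (j : ℕ) < k → hc M j = 1) : pre M k = pre M i := by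
  induction k, hik using Nat.le_induction with
  | base => rfl
  | succ n hn ih =>
    have e := pre_succ M ⟨n, hk⟩
    rw [h _ hn (Nat.lt_succ_self n), mul_one] at e
    exact e.trans (ih (by omega) fun j a b => h j a (by omega))
theorem zn_pre (hM : M ∈ X g e) {h : ℕ} (h1 : h < g) (ht : 2 < |tr (pre M h)|) {Z : Mat}
    (hZ : Z.trace = 0) : ∃ u, Z1 M u ∧ coc M u (relPre g h) = Z := by
  have two : ¬ PM (pre M h) 1 := fun k => by
    rw [k.abs_tr, tr_one] at ht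
    norm_num at ht
  obtain ⟨i, hi, ni⟩ : ∃ i : Fin g, (i : ℕ) < h ∧ hc M i ≠ 1 := by
    by_contra! hn
    exact two (Or.inl ((zn_mid h.zero_le h1.le fun j _ b => hn j b).trans (by simp [pre])))
  obtain ⟨j, hj, nj⟩ : ∃ j : Fin g, h ≤ j ∧ hc M j ≠ 1 := by
    by_contra! hn
    exact two (zn_mid h1.le le_rfl (fun j a _ => hn j a) ▸ X_pm hM)
  obtain ⟨α, a1, a2, a3⟩ := fox_surj (fx_single ni) hZ
  obtain ⟨β, b1, b2, b3⟩ := fox_surj (fx_single nj) (Z := -Z)
    (by rw [Matrix.trace_neg, hZ, neg_zero])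
  refine ⟨_, zn_z1 (β := α + β) (fun x => ?_) ?_, ?_⟩
  · rw [Pi.add_apply, Matrix.trace_add, a1 x, b1 x, add_zero]
  · rw [fox_add, a3, b3, add_neg_cancel]
  · rw [zn_fox M _ h1.le, fox_add, fox_low (fun x hx => a2 x ?_), a3,
      fox_high (fun x hx => b2 x ?_), add_zero]
    · intro hh
      rw [mem_singleton_iff.1 hh] at hx
      omega
    · intro hh
      rw [mem_singleton_iff.1 hh] at hx
      omega
theorem zn_gen (h1 : e ≠ 0) (hM : M ∈ X g e) (x : Gen g) {Z : Mat} (hZ : Z.trace = 0) :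
    ∃ u, Z1 M u ∧ coc M u (FreeGroup.of x) = Z := by
  obtain ⟨j, hj⟩ := zc_hc h1 hM
  obtain ⟨β, a, b, c, -⟩ := xz_free (M := M) x (by_contra fun k => hj (fx_compl (X_pm hM) k j))
    (Z := ad (M x)⁻¹ Z) (by rw [ad_trace, hZ])
  exact ⟨_, zn_z1 a b, by rw [coc_of, c, ad_ad_inv]⟩
theorem zn_tp (hM : M ∈ X g e) {ψ : Fr g ≃* Fr g} (hψ : AutR ψ) {w w₀ : Fr g}
    (hw : Cg w (ψ w₀) ∨ Cg w (ψ w₀)⁻¹)
    (h : ∀ Z : Mat, Z.trace = 0 → ∃ u, Z1 (act ψ M) u ∧ coc (act ψ M) u w₀ = Z) {Z : Mat}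
    (hZ : Z.trace = 0) : ∃ u, Z1 M u ∧ coc M u w = Z := by
  have h1 : ∀ Z : Mat, Z.trace = 0 → ∃ u, Z1 M u ∧ coc M u (ψ w₀) = Z := fun Z hZ => by
    obtain ⟨u, a, b⟩ := h Z hZ
    have c := a.act hψ.symm (X_pm (X_act hψ hM))
    have d := coc_act (M := act ψ M) (U := u) ψ.symm (ψ w₀)
    rw [act_symm] at c d
    exact ⟨_, c, by rw [d, ψ.symm_apply_apply, b]⟩
  have h2 : ∀ {u x y}, Z1 M u → Cg x y → coc M u x = coc M u y := fun {u x y} hu h => by
    have := coc_mul (M := M) (U := u) x (x⁻¹ * y)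
    rw [mul_inv_cancel_left, (coc_normal (X_pm hM) hu.2 h).1, ad_zero, add_zero] at this
    exact this.symm
  rcases hw with hw | hw
  · obtain ⟨u, a, b⟩ := h1 Z hZ
    exact ⟨u, a, (h2 a hw).trans b⟩
  · obtain ⟨u, a, b⟩ := h1 (-ad (FreeGroup.lift M (ψ w₀)) Z)
      (by rw [Matrix.trace_neg, ad_trace, hZ, neg_zero])
    exact ⟨u, a, by rw [h2 a hw, coc_inv, b, ad_neg, neg_neg, ad_inv_ad]⟩
theorem zn_free (h1 : e ≠ 0) (hM : M ∈ X g e) {w : Fr g} (hw : Simp w)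
    (ht : 2 < |tr (FreeGroup.lift M w)|) {Z : Mat} (hZ : Z.trace = 0) :
    ∃ u, Z1 M u ∧ coc M u w = Z := by
  obtain ⟨ψ, hψ, ⟨k, a⟩ | ⟨k, -, b, a⟩⟩ := hw
  · exact zn_tp hM hψ a (fun Z hZ => zn_gen h1 (X_act hψ hM) _ hZ) hZ
  · refine zn_tp hM hψ a (fun Z hZ => zn_pre (X_act hψ hM) b ?_ hZ) hZ
    have hR := X_pm hM
    rw [pre_eq] at hR
    rw [pre_eq, lift_act]
    rcases a with a | a
    · rwa [← (a.pm hR).abs_tr]
    · rwa [(a.pm hR).abs_tr, map_inv, tr_inv] at ht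
theorem zn_cosh (γ : G) (z : ℍ) : cosh (dist z (γ • z)) = tr γ ^ 2 / 2 - 1 +
    ((γ 1 0 * (z.re ^ 2 + z.im ^ 2) + (γ 1 1 - γ 0 0) * z.re - γ 0 1) / z.im) ^ 2 / 2 := by
  have hd := basic_det γ
  have hy := z.im_pos.ne'
  have hn : (γ 1 0 * z.re + γ 1 1) ^ 2 + (γ 1 0 * z.im) ^ 2 ≠ 0 := fun h => basic_denom γ z (by
    rw [← Complex.normSq_eq_zero, ← h]
    simp only [Fin.isValue, Complex.normSq_apply, Complex.add_re, Complex.mul_re, Complex.ofReal_re, coe_re, Complex.ofReal_im, coe_im, zero_mul, sub_zero, Complex.add_im, Complex.mul_im, add_zero, sq])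
  have e1 : (γ • z).re = ((γ 0 0 * z.re + γ 0 1) * (γ 1 0 * z.re + γ 1 1) +
      γ 0 0 * γ 1 0 * z.im ^ 2) / ((γ 1 0 * z.re + γ 1 1) ^ 2 + (γ 1 0 * z.im) ^ 2) := by
    rw [← coe_re, basic_coe_smul, Complex.div_re]
    simp only [Fin.isValue, Complex.add_re, Complex.mul_re, Complex.ofReal_re, coe_re, Complex.ofReal_im, coe_im, zero_mul, sub_zero, Complex.normSq_apply, ← sq, Complex.add_im, Complex.mul_im, add_zero]
    ring
  have e2 : (γ • z).im = z.im / ((γ 1 0 * z.re + γ 1 1) ^ 2 + (γ 1 0 * z.im) ^ 2) := by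
    rw [← coe_im, basic_coe_smul, Complex.div_im, ← sub_div]
    simp only [Fin.isValue, Complex.add_im, Complex.mul_im, Complex.ofReal_re, coe_im, Complex.ofReal_im, coe_re, zero_mul, add_zero, Complex.add_re, Complex.mul_re, sub_zero, Complex.normSq_apply, ← sq]
    congr 1
    linear_combination z.im * hd
  rw [cosh_dist', e1, e2, tr]
  generalize γ 0 0 = a at *
  generalize γ 0 1 = b at *
  generalize γ 1 0 = c at *
  generalize γ 1 1 = d at *
  generalize z.re = x at *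
  generalize z.im = y at *
  have key : (x * ((c * x + d) ^ 2 + (c * y) ^ 2) - ((a * x + b) * (c * x + d) + a * c * y ^ 2)) ^ 2
      + y ^ 2 * ((c * x + d) ^ 2 + (c * y) ^ 2) ^ 2 + y ^ 2 = ((c * x + d) ^ 2 + (c * y) ^ 2) *
      (y ^ 2 * (a + d) ^ 2 - 2 * y ^ 2 + (c * (x ^ 2 + y ^ 2) + (d - a) * x - b) ^ 2) := by
    linear_combination (-y ^ 2 * (a * d - b * c + 1) -
      2 * ((c * x + d) ^ 2 + (c * y) ^ 2) * y ^ 2) * hd
  generalize (c * x + d) ^ 2 + (c * y) ^ 2 = D at *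
  generalize (a * x + b) * (c * x + d) + a * c * y ^ 2 = N at *
  generalize c * (x ^ 2 + y ^ 2) + (d - a) * x - b = A at *
  field_simp
  linear_combination key
theorem zn_key (h1 : e ≠ 0) (hM : M ∈ X g e) (w : Fr g) (hu : Z1 M u) {γ : G} {W : Mat}
    (hγ : FreeGroup.lift M w = γ) (hW : coc M u w * (γ : Mat) = W)
    (h : tr γ * (W 0 0 + W 1 1) +
      ((γ 1 0 * (z.re ^ 2 + z.im ^ 2) + (γ 1 1 - γ 0 0) * z.re - γ 0 1) / z.im) *
      ((W 1 0 * (z.re ^ 2 + z.im ^ 2) + (W 1 1 - W 0 0) * z.re - W 0 1) / z.im) ≠ 0) :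
    ∃ᶠ q in 𝓝 (M, z), q.1 ∈ X g e ∧
      dist q.2 (FreeGroup.lift q.1 w • q.2) < dist z (FreeGroup.lift M w • z) := by
  obtain ⟨U, a, b⟩ := zc_word w
  have b := b M u hu.1
  rw [hγ, hW] at b
  have c := fun i j => (b i j).1
  have d := fun i j => ((c i j).differentiable one_ne_zero (io M)).hasFDerivAt
  have k := zc_low h1 hM (f := fun n => (U n 0 0 + U n 1 1) ^ 2 / 2 - 1 +
    ((U n 1 0 * (z.re ^ 2 + z.im ^ 2) + (U n 1 1 - U n 0 0) * z.re - U n 0 1) / z.im) ^ 2 / 2)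
    (((((c 0 0).add (c 1 1)).pow 2).div_const 2).sub contDiff_const |>.add
      (((((((c 1 0).mul contDiff_const).add (((c 1 1).sub (c 0 0)).mul contDiff_const)).sub
        (c 0 1)).div_const _).pow 2).div_const 2)).contDiffAt hu ?_
  · refine (Continuous.prodMk_left z).continuousAt.tendsto.frequently (k.mono fun N hN => ⟨hN.1, ?_⟩)
    have := hN.2
    rw [a, a] at this
    have t : cosh (dist z (FreeGroup.lift N w • z)) < cosh (dist z (FreeGroup.lift M w • z)) := by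
      rw [zn_cosh, zn_cosh]
      exact this
    rwa [cosh_lt_cosh, abs_of_nonneg dist_nonneg, abs_of_nonneg dist_nonneg] at t
  · have t := (((((d 0 0).fun_add (d 1 1)).pow 2).mul_const 2⁻¹).sub_const 1).fun_add
      (((((((d 1 0).mul_const (z.re ^ 2 + z.im ^ 2)).fun_add
        (((d 1 1).fun_sub (d 0 0)).mul_const z.re)).fun_sub (d 0 1)).mul_const z.im⁻¹).pow
        2).mul_const 2⁻¹)
    simp only [div_eq_mul_inv]
    rw [t.fderiv]
    simp only [_root_.add_apply, _root_.smul_apply, _root_.sub_apply, smul_eq_mul, (b _ _).2, a, hγ]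
    convert h using 1
    simp only [tr]
    norm_num only [pow_one, smul_add, nsmul_eq_mul]
    ring
theorem zn_len (h1 : e ≠ 0) (hM : M ∈ X g e) {w : Fr g} (hw : Simp w)
    (h0 : FreeGroup.lift M w • z ≠ z) : ∃ᶠ q in 𝓝 (M, z), q.1 ∈ X g e ∧
      dist q.2 (FreeGroup.lift q.1 w • q.2) < dist z (FreeGroup.lift M w • z) := by
  obtain ⟨γ, hγ⟩ : ∃ γ, FreeGroup.lift M w = γ := ⟨_, rfl⟩
  have hy := z.im_pos.ne'
  have hd := basic_det γ
  by_cases hs : (γ 1 0 * (z.re ^ 2 + z.im ^ 2) + (γ 1 1 - γ 0 0) * z.re - γ 0 1) / z.im = 0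
  · have h2 := zn_cosh γ z
    have h3 : 1 < cosh (dist z (γ • z)) := one_lt_cosh.2 (dist_ne_zero.2 (hγ ▸ h0).symm)
    rw [hs] at h2
    have h4 : 2 < |tr γ| := by
      rw [← sq_lt_sq₀ two_pos.le (abs_nonneg _), sq_abs]
      linarith only [h2, h3]
    obtain ⟨u, a, b⟩ := zn_free h1 hM hw (hγ ▸ h4)
      (Z := !![γ 0 0 - γ 1 1, 2 * γ 0 1; 2 * γ 1 0, γ 1 1 - γ 0 0])
      (by simp [Matrix.trace_fin_two])
    refine zn_key h1 hM w a hγ rfl ?_
    rw [hs, zero_mul, add_zero, b]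
    refine mul_ne_zero (fun t => by rw [t] at h4; norm_num at h4) fun t => ?_
    simp only [Fin.isValue, Matrix.mul_apply, Matrix.of_apply, Matrix.cons_val', Matrix.cons_val_fin_one, Matrix.cons_val_zero, Fin.sum_univ_two, Matrix.cons_val_one] at t
    rw [tr] at h2
    linarith only [hd, h2, h3, t]
  have cb : ∀ K : Mat, coc M (cob M K) w * (γ : Mat) = K * γ - γ * K := fun K => by
    rw [coc_cob, hγ, sub_mul, ad, Matrix.mul_assoc, xf_inv, mul_one]
  by_cases hA : 2 * γ 1 0 * z.re + γ 1 1 - γ 0 0 = 0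
  · refine zn_key h1 hM w (Z1_cob (X_pm hM) !![1, 0; 0, -1]) hγ
      (W := !![0, 2 * γ 0 1; -2 * γ 1 0, 0]) ((cb _).trans ?_) fun t => ?_
    · ext i j
      fin_cases i <;> fin_cases j <;> simp only [Matrix.cons_mul, Nat.succ_eq_add_one, Nat.reduceAdd, Matrix.empty_mul, Equiv.symm_apply_apply, Fin.zero_eta, Fin.isValue, Matrix.sub_apply, Matrix.of_apply, Matrix.cons_val', Matrix.vecMul, dotProduct, Fin.sum_univ_two, Matrix.cons_val_zero, one_mul, Matrix.cons_val_one, Matrix.cons_val_fin_one, zero_mul, add_zero, neg_mul, zero_add, Matrix.mul_apply, mul_one, mul_zero, sub_self, Fin.mk_one, mul_neg, sub_neg_eq_add] <;> ring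
    simp only [Matrix.of_apply, Matrix.cons_val, add_zero, mul_zero, zero_add] at t
    have t := (div_eq_zero_iff.1 ((mul_eq_zero.1 t).resolve_left hs)).resolve_right hy
    refine h0 ?_
    rw [hγ, basic_fixed_iff]
    apply Complex.ext <;> simp
    · linear_combination (-1 / 2) * t - z.re * hA
    · linear_combination (-z.im) * hA
  · refine zn_key h1 hM w (Z1_cob (X_pm hM) !![0, 1; 0, 0]) hγ
      (W := !![γ 1 0, γ 1 1 - γ 0 0; 0, -γ 1 0]) ((cb _).trans ?_) fun t => ?_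
    · ext i j
      fin_cases i <;> fin_cases j <;> simp only [Matrix.cons_mul, Nat.succ_eq_add_one, Nat.reduceAdd, Matrix.empty_mul, Equiv.symm_apply_apply, Fin.zero_eta, Fin.isValue, Matrix.sub_apply, Matrix.of_apply, Matrix.cons_val', Matrix.vecMul, dotProduct, Fin.sum_univ_two, Matrix.cons_val_zero, zero_mul, Matrix.cons_val_one, Matrix.cons_val_fin_one, one_mul, zero_add, add_zero, Matrix.mul_apply, mul_zero, sub_zero, Fin.mk_one, mul_one, sub_self, zero_sub]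
    simp only [Matrix.of_apply, Matrix.cons_val, add_neg_cancel, mul_zero, zero_add] at t
    have t := (div_eq_zero_iff.1 ((mul_eq_zero.1 t).resolve_left hs)).resolve_right hy
    exact hA (by linear_combination -t)

end Pool.Agent.MP_596265_gt.U
end

section
namespace Pool.Agent.MP_596265_gt.U

open Erg Real UpperHalfPlane MeasureTheory Set Filter Topology

variable {g : ℕ} {e : ℤ} {M : Tup g} {z : ℍ} {τ τ' : MS g} {u : Gen g → Mat}
  {η R : ℝ} {F : HF (Ed g)}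

theorem zi_X (k : G) (h : M ∈ X g e) : cjL k M ∈ X g e := by
  have h1 : pre (fun x => lf (M x)) g = zt e := h
  have h2 := pre_map (MulAut.conj (lf k)).toMonoidHom (fun x => lf (M x)) g
  change Rt _ g = _
  rw [Rt_eq (M := cjL k M) (L := fun x => (MulAut.conj (lf k)).toMonoidHom (lf (M x)))
    fun x => Or.inl (by simp only [MulEquiv.toMonoidHom_eq_coe, MonoidHom.coe_coe, MulAut.conj_apply, map_mul, pj_lf, map_inv, cjL]), h2, h1]
  change lf k * zt e * (lf k)⁻¹ = _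
  rw [← zt_central, mul_inv_cancel_right]

theorem zi_cont (k : G) : Continuous (cjL k : Tup g → Tup g) :=
  continuous_pi fun x => (continuous_const.mul (continuous_apply x)).mul continuous_const

/-! ROW ZI: invariance of interior states and their normal form (uses Bas). -/
theorem Int1.kl (h : Int1 e η R M z τ) : KL η R M z τ := h.2.self_of_nhds h.1
theorem Int1.near (h : Int1 e η R M z τ) :
    ∀ᶠ q in 𝓝 (M, z), q.1 ∈ X g e → Int1 e η R q.1 q.2 τ := by
  have h1 := ((Bas.lf_near h.kl.2.1 h.kl.2.2.1).and (Bas.ps_nhds h.kl.2.2.1)).eventually_nhds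
  have h2 := (continuous_fst.tendsto (M, z)).eventually h.2.eventually_nhds
  filter_upwards [h1, h2] with q a b hq
  refine ⟨hq, ?_⟩
  have c := ((Continuous.prodMk_left q.2).tendsto q.1).eventually a
  filter_upwards [b, c] with N b c hN
  have k := b hN
  exact ⟨k.1, k.2.1, c.2, fun w t d => k.2.2.2 w t (.trans _ _ _ c.1 d)⟩
theorem Int1.eqv (hT : TAx g) (hD : DAx g) (h : Int1 e η R M z τ) (h' : Eqv M z τ τ') :
    Int1 e η R M z τ' := by
  have _ := hD
  refine ⟨h.1, ?_⟩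
  have c := ((Continuous.prodMk_left z).tendsto M).eventually (Bas.eqv_nhds h')
  filter_upwards [h.2, c] with N b c hN
  exact (Bas.kl_eqv hT (Bas.fm_of_X hN) c).1 (b hN)
theorem Int1.cj (h : Int1 e η R M z τ) (k : G) : Int1 e η R (cjL k M) (k • z) τ := by
  refine ⟨zi_X k h.1, ?_⟩
  have e1 : cjL k⁻¹ (cjL k M) = M := funext fun x => by simp [cjL, mul_assoc]
  have c := ((zi_cont k⁻¹).tendsto' _ _ e1).eventually h.2
  filter_upwards [c] with N b hN
  refine (Bas.kl_cjL k⁻¹).1 ?_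
  rw [inv_smul_smul]
  exact b (zi_X _ hN)
theorem Int1.act (hT : TAx g) {ψ : Fr g ≃* Fr g} (hψ : AutR ψ) (hτ : MT τ)
    (h : Int1 e η R M z (mp ψ τ)) : Int1 e η R (act ψ M) z τ := by
  have _ := hτ
  refine ⟨X_act hψ h.1, ?_⟩
  have c := ((continuous_act ψ.symm).tendsto' _ _ (act_symm ψ M)).eventually h.2
  filter_upwards [c] with N b hN
  have d := (Bas.kl_mp hT hψ).1 (b (X_act hψ.symm hN))
  rwa [act_symm'] at d
theorem zi_nf (hT : TAx g) (hD : DAx g) (hη : 0 < η) : ∃ c > 0, ∃ T : Set (MS g), T.Finite ∧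
    ∀ (M : Tup g) z τ, Int1 e η R M z τ → ∃ M', ∃ τ' ∈ T, Int1 e η R M' I τ' ∧
      (∀ d, eL M' I τ' d ≤ R ∧ c ≤ fD τ'.1 (geo M' τ'.2) I d) ∧
      ∀ d, ∃ d', eL M' I τ' d' ≤ eL M z τ d := by
  obtain ⟨c, hc, hf⟩ := hD.fat η hη
  have h0 : ∀ n : Nx (Ed g), ∃ l, (∃ l', MT (n, l')) → MT (n, l) := fun n => by
    by_cases h : ∃ l', MT (n, l')
    · exact h.imp fun _ a _ => a
    · exact ⟨fun _ => 1, fun a => absurd a h⟩
  choose p hp using h0
  refine ⟨c, hc, range fun n => (n, p n), finite_range _, fun M z τ h => ?_⟩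
  have hM := Bas.fm_of_X h.1
  obtain ⟨-, ht, hs, hk⟩ := h.kl
  obtain ⟨t, a1, a2, a3⟩ := hk z τ (.refl _)
  obtain ⟨b1, b2⟩ := Bas.eqv_ps hT hM a1 ht hs
  have h1 : MT (t.1, p t.1) := hp t.1 ⟨t.2, b1⟩
  obtain ⟨ψ, hψ, h2⟩ := hT.same h1 b1 rfl
  have h3 : Iso (mp ψ (t.1, p t.1)) t := Bas.iso_of_eqN rfl h2
  have h4 : Eqv M z τ (mp ψ (t.1, p t.1)) :=
    .trans _ _ _ a1 (Bas.eqv_iso b1 b2 (Bas.iso_symm h3))
  obtain ⟨k, rfl⟩ := exists_smul_I z
  have h5 := ((h.eqv hT hD h4).act hT hψ h1).cj k⁻¹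
  have h6 := (Bas.dl_iso hM h3).1 a2
  have h7 := (Bas.dl_cjL k⁻¹).2 (Bas.dl_mp.1 h6)
  have h8 := (Bas.bd_cjL k⁻¹).2 (Bas.bd_mp.1 ((Bas.bd_iso hM h3).1 a3))
  have h9 := ((Bas.cj_cjL k⁻¹ (act ψ M)).tr (k • I) (t.1, p t.1)).dist_eq
  rw [inv_smul_smul] at h5 h7 h8 h9
  refine ⟨_, _, ⟨t.1, rfl⟩, h5, fun d => ⟨(h8 d).2,
    hf (Bas.gs_of hT (Bas.fm_of_X h5.1) h1 h5.kl.2.2.1) h7 (fun d => (h8 d).1) d⟩, fun d => ?_⟩
  obtain ⟨d', h10⟩ := hD.sys hM ht hs h4 h6 d
  rw [Bas.geo_mp] at h10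
  exact ⟨d', (h9 d').trans_le h10⟩

end Pool.Agent.MP_596265_gt.U
end

section
namespace Pool.Agent.MP_596265_gt.U

open Erg Real UpperHalfPlane MeasureTheory Set Filter Topology

variable {g : ℕ} {e : ℤ} {M : Tup g} {z : ℍ} {τ τ' : MS g} {u : Gen g → Mat}
  {η R : ℝ} {F : HF (Ed g)}

theorem zk_len {E : Type} {l : E → Fr g} (h : ∀ d, len (dlab (geo M l) d) ≤ R)
    (w : List (Dr E)) : len (FreeGroup.lift M (lab l w)) ≤ w.length * R := by
  induction w with
  | nil => simp [len]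
  | cons d w ih =>
    rw [lab_cons, map_mul, ← Bas.dlab_geo, List.length_cons]
    have := len_mul_le (dlab (geo M l) d) (FreeGroup.lift M (lab l w))
    have := h d
    push_cast
    linarith

/-! ROW ZK: compactness. -/
theorem zk_cont (τ : MS g) (d : Dr (Ed g)) : (Continuous fun q : Tup g × ℍ => eL q.1 q.2 τ d) ∧
    Continuous fun q : Tup g × ℍ => fD τ.1 (geo q.1 τ.2) q.2 d := by
  have h1 := (Bas.continuous_len d).comp' (Bas.continuous_st τ)
  have h2 := (Bas.continuous_fD τ.1 d).comp' (Bas.continuous_st τ)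
  dsimp only at h1 h2
  unfold eL
  exact ⟨h1, h2⟩
theorem zk_cpt (hT : TAx g) (hτ : MT τ) (e : ℤ) (R : ℝ) :
    IsCompact {M | M ∈ X g e ∧ ∀ d, eL M I τ d ≤ R} := by
  choose w hw using fun x : Gen g => hT.gen hτ (FreeGroup.of x)
  refine (isCompact_univ_pi fun x => isCompact_len_le ((w x).length * R)).of_isClosed_subset
    ((isClosed_X e).inter ?_) fun M hM x _ => ?_
  · have h : IsClosed (⋂ d, {M : Tup g | eL M I τ d ≤ R}) := isClosed_iInter fun d => by
      have h1 := (zk_cont τ d).1.comp' (Continuous.prodMk_left (X := Tup g) I)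
      dsimp only at h1
      exact isClosed_le h1 continuous_const
    rwa [← ofPred_forall] at h
  · have h1 := ((hw x).pm (Bas.fm_of_X hM.1)).len_eq
    rw [FreeGroup.lift_apply_of] at h1
    exact h1.trans_le (zk_len hM.2 _)

end Pool.Agent.MP_596265_gt.U
end

section
namespace Pool.Agent.MP_596265_gt.U

open Erg Real UpperHalfPlane MeasureTheory Set Filter Topology

variable {g : ℕ} {e : ℤ} {M : Tup g} {z : ℍ} {τ τ' : MS g} {u : Gen g → Mat}
  {η R : ℝ} {F : HF (Ed g)}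

/-! ROW ZE: there are no interior states. -/

theorem ze_c1 (τ : MS g) (d : Dr (Ed g)) : Continuous fun N : Tup g => eL N I τ d :=
  Continuous.comp (f := fun N : Tup g => (N, (I : ℍ))) (zk_cont τ d).1 (Continuous.prodMk_left I)
theorem ze_c2 (τ : MS g) (d : Dr (Ed g)) : Continuous fun N : Tup g => fD τ.1 (geo N τ.2) I d :=
  Continuous.comp (f := fun N : Tup g => (N, (I : ℍ))) (zk_cont τ d).2 (Continuous.prodMk_left I)

theorem ze_cpt (hg : 1 ≤ g) (h1 : e ≠ 0) (hT : TAx g) (hd : Dich g e η R) {c : ℝ} (hc : 0 < c)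
    (τ : MS g) : IsCompact {M | Int1 e η R M I τ ∧
      ∀ d, eL M I τ d ≤ R ∧ c ≤ fD τ.1 (geo M τ.2) I d} := by
  by_cases hτ : MT τ
  swap
  · convert isCompact_empty
    exact eq_empty_of_forall_notMem fun M hM => hτ hM.1.kl.2.1
  refine (zk_cpt hT hτ e R).of_isClosed_subset (isClosed_of_closure_subset fun M hM => ?_)
    fun M hM => ⟨hM.1.1, fun d => (hM.2 d).1⟩
  have hX : M ∈ X g e := (isClosed_X e).closure_subset_iff.2 (fun N hN => hN.1.1) hM
  have hf : ∀ d, eL M I τ d ≤ R ∧ c ≤ fD τ.1 (geo M τ.2) I d := fun d =>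
    ((isClosed_le (ze_c1 τ d) continuous_const).inter
      (isClosed_le continuous_const (ze_c2 τ d))).closure_subset_iff.2 (fun N hN => hN.2 d) hM
  refine ⟨(hd M I τ hX fun d => hc.trans_le (hf d).2).resolve_right ?_, hf⟩
  rintro ⟨-, O, hO, h0⟩
  obtain ⟨N, hN, hN'⟩ := mem_closure_iff_nhds.1 hM _ (eventually_mem_nhds_iff.2 hO)
  refine mu_pos hg hN'.1.1 (zc_na h1 hN'.1.1) (inter_mem hN hN'.1.2)
    (measure_mono_null (fun L hL => ?_) (measure_union_null h0 (xz_X e)))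
  by_cases hL' : L ∈ X g e
  · exact Or.inl ⟨hL.1, fun h => h (hL.2 hL')⟩
  · exact Or.inr hL'

theorem ze_exit (hg : 1 ≤ g) (h1 : e ≠ 0) (hT : TAx g) (hD : DAx g) (hη : 0 < η)
    (hd : Dich g e η R) : ¬ Int1 e η R M z τ := by
  intro h
  obtain ⟨c, hc, T, hfin, hnf⟩ := zi_nf (e := e) (R := R) hT hD hη
  let f : MS g × Dr (Ed g) → Tup g → ℝ := fun p N => eL N I p.1 p.2
  let C : MS g → Set (Tup g) := fun σ => {N | Int1 e η R N I σ ∧
    ∀ d, eL N I σ d ≤ R ∧ c ≤ fD σ.1 (geo N σ.2) I d}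
  have hK : IsCompact (⋃ p ∈ T ×ˢ (univ : Set (Dr (Ed g))), f p '' C p.1) :=
    (hfin.prod finite_univ).isCompact_biUnion fun p _ => (ze_cpt hg h1 hT hd hc p.1).image (ze_c1 p.1 p.2)
  have key : ∀ (N : Tup g) w σ d, Int1 e η R N w σ →
      ∃ r ∈ ⋃ p ∈ T ×ˢ (univ : Set (Dr (Ed g))), f p '' C p.1, r ≤ eL N w σ d := by
    intro N w σ d hN
    obtain ⟨N', σ', a1, a2, a3, a4⟩ := hnf N w σ hN
    obtain ⟨d', a5⟩ := a4 d
    exact ⟨_, mem_biUnion (x := (σ', d')) ⟨a1, trivial⟩ ⟨N', ⟨a2, a3⟩, rfl⟩, a5⟩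
  obtain ⟨r₀, hr₀, -⟩ := key M z τ (⟨0, by omega⟩, true) h
  obtain ⟨r, hr, hmin⟩ := hK.exists_isLeast ⟨r₀, hr₀⟩
  simp only [mem_iUnion] at hr
  obtain ⟨⟨σ, d⟩, -, N, hN, rfl⟩ := hr
  have hne : FreeGroup.lift N (dlab σ.2 d) • I ≠ I := fun h0 => by
    have h2 := (hN.2 d).2
    rw [fD, vQ, Bas.dlab_geo, h0, ← hD_cyc, Bas.hD_self] at h2
    linarith only [hc, h2]
  obtain ⟨q, ⟨a1, a2⟩, a3⟩ := ((zn_len h1 hN.1.1 (hT.simp hN.1.kl.2.1 d) hne).and_eventually
    hN.1.near).exists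
  obtain ⟨s, b1, b2⟩ := key q.1 q.2 σ d (a3 a1)
  have b3 := (hmin b1).trans b2
  simp only [f, eL, vQ, Bas.dlab_geo] at b3
  exact absurd a2 (not_lt.2 b3)

end Pool.Agent.MP_596265_gt.U
end

section
namespace Pool.Agent.MP_596265_gt.U

open Erg Real UpperHalfPlane MeasureTheory Set Filter Topology

variable {g : ℕ} {e : ℤ} {M : Tup g} {z : ℍ} {τ τ' : MS g} {u : Gen g → Mat}
  {η R : ℝ} {F : HF (Ed g)}

/-! ROW ZZ: output. -/
theorem thickP (hg : 3 ≤ g) (h1 : 1 ≤ e) (he : e ≤ 2 * g - 3) (hT : TAx g) (hD : DAx g)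
    (hF : HAx F) (hR : RAx F) (hL : LocP g e F) : ThickP g e := by
  intro η R z τ hη
  have h0 : e ≠ 0 := by omega
  have hd : Dich g e η R := zf_dich (by omega) h0 hD hL hη fun M z τ u a b c d f =>
    zb_rank (by omega) h0 he hT hD hF hR hη a b c d f
  have h2 : mu g e ({M | KL η R M z τ} ∩ X g e) = 0 :=
    measure_null_of_locally_null _ fun M hM => by
      rcases hd M z τ hM.2 hM.1.2.2.1 with h | ⟨-, O, hO, h⟩
      · exact absurd h (ze_exit (by omega) h0 hT hD hη hd)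
      · refine ⟨_, inter_mem_nhdsWithin _ hO, measure_mono_null (fun N hN => ?_) h⟩
        exact ⟨hN.2, fun h' => h' hN.1.1⟩
  refine measure_mono_null (fun M hM => ?_) (measure_union_null h2 (xz_X e))
  by_cases hX : M ∈ X g e
  · exact Or.inl ⟨hM, hX⟩
  · exact Or.inr hX

end Pool.Agent.MP_596265_gt.U
end

end
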